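import Pool.Agent.Strip051.G.I7625_8000.Gn
import Pool.Agent.Strip051.PB.Corns
import Pool.Agent.Strip051.PB.CornW

/-! # Certificates of the aligned corners (generated) -/

set_option linter.all false

namespace Pool.Agent.Strip051.G.I7625_8000.Tab.CW

open Pool.Agent.Strip051.PB

def A011E_000 :
    ∃ t, chk3 (onCell 0 67108864 0 1073741824 818728140 40265320 (corW 3 c0B eng mog cA011E gB0q0 gB0q1 gB0q1 gB1q1 dB0q0 dB0q1 dB0q1 dB1q1 true false)) t 1 1 1 = true :=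
  ⟨(T.l 1), by decide +kernel⟩

def A011L_001 :
    ∃ t, chk3 (onCell 0 67108864 0 1073741824 818728140 40265320 (corW 3 c0B eng mog cA011L gB0q0 gB0q1 gB1q1 gB2q1 dB0q0 dB0q1 dB1q1 dB2q1 false true)) t 1 1 1 = true :=
  ⟨(T.l 2), by decide +kernel⟩

def A011L_002 :
    ∃ t, chk3 (onCell 0 67108864 0 1073741824 818728140 40265320 (corW 3 c0B eng mog cA011L gB0q0 gB0q1 gB2q1 gB3q1 dB0q0 dB0q1 dB2q1 dB3q1 true true)) t 1 1 1 = true :=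
  ⟨(T.l 2), by decide +kernel⟩

def A011L_003 :
    ∃ t, chk3 (onCell 0 67108864 0 1073741824 818728140 40265320 (corW 3 c0B eng mog cA011L gB0q0 gB0q1 gB3q1 gB4q1 dB0q0 dB0q1 dB3q1 dB4q1 true true)) t 1 1 1 = true :=
  ⟨(T.l 2), by decide +kernel⟩

def A011R_020 :
    ∃ t, chk3 (onCell 0 67108864 0 1073741824 818728140 40265320 (corW 3 c0B eng mog cA011R gB0q0 gB2q1 gB0q1 gB1q1 dB0q0 dB2q1 dB0q1 dB1q1 true false)) t 1 1 1 = true :=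
  ⟨(T.b (T.b (T.b (T.c (T.b (T.l 204) (T.l 204)) (T.l 204)) (T.l 1)) (T.l 1)) (T.l 1)), by decide +kernel⟩

def A011R_030 :
    ∃ t, chk3 (onCell 0 67108864 0 1073741824 818728140 40265320 (corW 3 c0B eng mog cA011R gB0q0 gB3q1 gB0q1 gB1q1 dB0q0 dB3q1 dB0q1 dB1q1 true false)) t 1 1 1 = true :=
  ⟨(T.b (T.b (T.b (T.l 204) (T.b (T.l 204) (T.b (T.a (T.l 204) (T.l 204)) (T.l 1)))) (T.l 1)) (T.l 1)), by decide +kernel⟩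

def A011R_040_1_4_1 :
    ∃ t, chk3 (onCell 0 67108864 0 1073741824 818728140 40265320 (corW 3 c0B eng mog cA011R gB0q0 gB4q1 gB0q1 gB1q1 dB0q0 dB4q1 dB0q1 dB1q1 true false)) t 1 4 1 = true :=
  ⟨(T.b (T.l 0) (T.a (T.l 0) (T.l 0))), by decide +kernel⟩

def A011R_040_1_20_1 :
    ∃ t, chk3 (onCell 0 67108864 0 1073741824 818728140 40265320 (corW 3 c0B eng mog cA011R gB0q0 gB4q1 gB0q1 gB1q1 dB0q0 dB4q1 dB0q1 dB1q1 true false)) t 1 20 1 = true :=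
  ⟨(T.b (T.l 0) (T.a (T.l 0) (T.l 0))), by decide +kernel⟩

def A011R_040_1_84_1 :
    ∃ t, chk3 (onCell 0 67108864 0 1073741824 818728140 40265320 (corW 3 c0B eng mog cA011R gB0q0 gB4q1 gB0q1 gB1q1 dB0q0 dB4q1 dB0q1 dB1q1 true false)) t 1 84 1 = true :=
  ⟨(T.a (T.a (T.l 0) (T.l 0)) (T.l 0)), by decide +kernel⟩

def A011R_040_2_340_1 :
    ∃ t, chk3 (onCell 0 67108864 0 1073741824 818728140 40265320 (corW 3 c0B eng mog cA011R gB0q0 gB4q1 gB0q1 gB1q1 dB0q0 dB4q1 dB0q1 dB1q1 true false)) t 2 340 1 = true :=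
  ⟨(T.a (T.c (T.l 0) (T.l 0)) (T.l 0)), by decide +kernel⟩

def A011R_040_4_341_1 :
    ∃ t, chk3 (onCell 0 67108864 0 1073741824 818728140 40265320 (corW 3 c0B eng mog cA011R gB0q0 gB4q1 gB0q1 gB1q1 dB0q0 dB4q1 dB0q1 dB1q1 true false)) t 4 341 1 = true :=
  ⟨(T.c (T.a (T.c (T.a (T.b (T.b (T.l 0) (T.b (T.l 0) (T.b (T.l 0) (T.a (T.l 1) (T.l 0))))) (T.l 1)) (T.b (T.l 0) (T.b (T.b (T.a (T.l 1) (T.b (T.l 0) (T.l 1))) (T.l 1)) (T.l 1)))) (T.a (T.b (T.b (T.l 0) (T.b (T.l 0) (T.a (T.b (T.l 0) (T.l 1)) (T.l 0)))) (T.l 1)) (T.b (T.l 0) (T.b (T.b (T.a (T.l 1) (T.b (T.l 0) (T.l 1))) (T.l 1)) (T.l 1))))) (T.b (T.l 0) (T.c (T.a (T.b (T.b (T.l 0) (T.a (T.l 1) (T.b (T.l 0) (T.l 1)))) (T.l 1)) (T.b (T.l 0) (T.a (T.l 1) (T.a (T.l 1) (T.b (T.b (T.l 0) (T.l 1)) (T.l 1)))))) (T.a (T.b (T.b (T.l 0) (T.a (T.l 1) (T.b (T.l 0) (T.l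 1)))) (T.l 1)) (T.b (T.l 0) (T.a (T.l 1) (T.a (T.l 1) (T.b (T.b (T.l 0) (T.l 1)) (T.l 1))))))))) (T.a (T.c (T.a (T.b (T.b (T.l 0) (T.a (T.b (T.l 0) (T.b (T.l 0) (T.l 1))) (T.l 0))) (T.l 1)) (T.b (T.l 0) (T.b (T.b (T.a (T.l 1) (T.b (T.l 0) (T.l 1))) (T.l 1)) (T.l 1)))) (T.a (T.b (T.a (T.b (T.l 0) (T.b (T.l 0) (T.b (T.l 0) (T.l 1)))) (T.l 0)) (T.l 1)) (T.b (T.l 0) (T.b (T.b (T.a (T.l 1) (T.l 0)) (T.l 1)) (T.l 1))))) (T.b (T.l 0) (T.c (T.a (T.b (T.b (T.l 0) (T.a (T.l 1) (T.b (T.l 0) (T.l 1)))) (T.l 1)) (T.b (T.l 0) (T.a (T.l 1) (T.a (T.l 1) (T.b (T.l 0) (T.l 1)))))) (T.a (T.b (T.b (T.l 0) (T.a (T.l 1) (T.b (T.l 0) (T.l 1)))) (T.l 1)) (T.b (T.l 0) (T.a (T.l 1) (T.a (T.l 1) (T.b (T.l 0) (T.l 1)))))))))), by decide +kernel⟩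

def A011R_040_5_341_1 :
    ∃ t, chk3 (onCell 0 67108864 0 1073741824 818728140 40265320 (corW 3 c0B eng mog cA011R gB0q0 gB4q1 gB0q1 gB1q1 dB0q0 dB4q1 dB0q1 dB1q1 true false)) t 5 341 1 = true :=
  ⟨(T.b (T.l 0) (T.a (T.b (T.l 0) (T.c (T.a (T.c (T.b (T.l 0) (T.a (T.l 1) (T.b (T.l 0) (T.l 1)))) (T.b (T.l 0) (T.a (T.l 1) (T.b (T.l 0) (T.l 1))))) (T.c (T.c (T.a (T.l 0) (T.l 0)) (T.l 0)) (T.l 0))) (T.a (T.b (T.l 0) (T.a (T.l 1) (T.b (T.l 0) (T.l 1)))) (T.c (T.l 0) (T.l 0))))) (T.c (T.l 0) (T.l 0)))), by decide +kernel⟩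

def A011R_040_2_171_1 :
    ∃ t, chk3 (onCell 0 67108864 0 1073741824 818728140 40265320 (corW 3 c0B eng mog cA011R gB0q0 gB4q1 gB0q1 gB1q1 dB0q0 dB4q1 dB0q1 dB1q1 true false)) t 2 171 1 = true :=
  ⟨(T.a (T.l 1) (T.b (T.b (T.a (T.l 1) (T.b (T.c (T.a (T.b (T.a (T.b (T.l 0) (T.l 1)) (T.l 0)) (T.l 1)) (T.a (T.b (T.l 0) (T.b (T.l 0) (T.l 1))) (T.l 0))) (T.c (T.a (T.b (T.l 0) (T.l 1)) (T.c (T.a (T.l 0) (T.l 0)) (T.l 0))) (T.a (T.b (T.l 0) (T.l 1)) (T.l 0)))) (T.l 1))) (T.l 1)) (T.l 1))), by decide +kernel⟩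

def A011R_040_3_85_1 :
    ∃ t, chk3 (onCell 0 67108864 0 1073741824 818728140 40265320 (corW 3 c0B eng mog cA011R gB0q0 gB4q1 gB0q1 gB1q1 dB0q0 dB4q1 dB0q1 dB1q1 true false)) t 3 85 1 = true :=
  ⟨(T.b (T.a (T.c (T.l 0) (T.l 0)) (T.l 0)) (T.b (T.a (T.c (T.a (T.b (T.b (T.l 0) (T.a (T.b (T.a (T.b (T.l 0) (T.l 1)) (T.l 0)) (T.l 1)) (T.b (T.l 0) (T.b (T.c (T.c (T.l 0) (T.l 0)) (T.l 0)) (T.l 1))))) (T.l 1)) (T.b (T.c (T.l 0) (T.l 0)) (T.b (T.a (T.a (T.l 1) (T.b (T.b (T.l 0) (T.l 1)) (T.l 1))) (T.b (T.l 0) (T.a (T.l 1) (T.b (T.l 0) (T.l 1))))) (T.l 1)))) (T.a (T.b (T.b (T.l 0) (T.a (T.b (T.c (T.a (T.a (T.l 1) (T.l 0)) (T.l 0)) (T.l 0)) (T.l 1)) (T.a (T.b (T.l 0) (T.b (T.l 0) (T.l 1))) (T.l 0)))) (T.l 1)) (T.b (T.l 0) (T.b (T.a (T.a (T.l 1) (T.b (T.l 0) (T.l 1))) (T.b (T.l 0) (T.a (T.l 1) (T.c (T.l 0) (T.l 0)))))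 (T.l 1))))) (T.b (T.c (T.l 0) (T.l 0)) (T.a (T.c (T.c (T.a (T.b (T.l 0) (T.a (T.l 1) (T.a (T.l 1) (T.a (T.l 1) (T.a (T.l 1) (T.b (T.l 0) (T.l 1))))))) (T.b (T.l 0) (T.b (T.c (T.l 0) (T.l 0)) (T.l 1)))) (T.b (T.l 0) (T.b (T.a (T.a (T.l 1) (T.b (T.l 0) (T.l 1))) (T.l 0)) (T.l 1)))) (T.b (T.l 0) (T.b (T.a (T.a (T.l 1) (T.a (T.l 1) (T.l 0))) (T.l 0)) (T.l 1)))) (T.a (T.c (T.a (T.c (T.b (T.l 0) (T.c (T.a (T.a (T.b (T.l 0) (T.a (T.l 1) (T.l 1))) (T.l 0)) (T.l 0)) (T.l 0))) (T.l 0)) (T.l 0)) (T.l 0)) (T.l 0))))) (T.a (T.l 1) (T.a (T.l 1) (T.a (T.l 1) (T.b (T.b (T.b (T.c (T.a (T.b (T.l 0) (T.l 1)) (T.l 0)) (T.l 0)) (T.l 1)) (T.l 1)) (T.l 1))))))), by decide +kernel⟩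

def A011R_040_1_43_1 :
    ∃ t, chk3 (onCell 0 67108864 0 1073741824 818728140 40265320 (corW 3 c0B eng mog cA011R gB0q0 gB4q1 gB0q1 gB1q1 dB0q0 dB4q1 dB0q1 dB1q1 true false)) t 1 43 1 = true :=
  ⟨(T.l 1), by decide +kernel⟩

def A011R_040_1_11_1 :
    ∃ t, chk3 (onCell 0 67108864 0 1073741824 818728140 40265320 (corW 3 c0B eng mog cA011R gB0q0 gB4q1 gB0q1 gB1q1 dB0q0 dB4q1 dB0q1 dB1q1 true false)) t 1 11 1 = true :=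
  ⟨(T.l 1), by decide +kernel⟩

def A011R_040_1_3_1 :
    ∃ t, chk3 (onCell 0 67108864 0 1073741824 818728140 40265320 (corW 3 c0B eng mog cA011R gB0q0 gB4q1 gB0q1 gB1q1 dB0q0 dB4q1 dB0q1 dB1q1 true false)) t 1 3 1 = true :=
  ⟨(T.l 1), by decide +kernel⟩

theorem A011R_040_2_341_1 :
    ∃ t, chk3 (onCell 0 67108864 0 1073741824 818728140 40265320 (corW 3 c0B eng mog cA011R gB0q0 gB4q1 gB0q1 gB1q1 dB0q0 dB4q1 dB0q1 dB1q1 true false)) t 2 341 1 = true :=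
  ex3_a A011R_040_4_341_1 A011R_040_5_341_1
theorem A011R_040_2_170_1 :
    ∃ t, chk3 (onCell 0 67108864 0 1073741824 818728140 40265320 (corW 3 c0B eng mog cA011R gB0q0 gB4q1 gB0q1 gB1q1 dB0q0 dB4q1 dB0q1 dB1q1 true false)) t 2 170 1 = true :=
  ex3_b A011R_040_2_340_1 A011R_040_2_341_1
theorem A011R_040_2_85_1 :
    ∃ t, chk3 (onCell 0 67108864 0 1073741824 818728140 40265320 (corW 3 c0B eng mog cA011R gB0q0 gB4q1 gB0q1 gB1q1 dB0q0 dB4q1 dB0q1 dB1q1 true false)) t 2 85 1 = true :=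
  ex3_b A011R_040_2_170_1 A011R_040_2_171_1
theorem A011R_040_1_85_1 :
    ∃ t, chk3 (onCell 0 67108864 0 1073741824 818728140 40265320 (corW 3 c0B eng mog cA011R gB0q0 gB4q1 gB0q1 gB1q1 dB0q0 dB4q1 dB0q1 dB1q1 true false)) t 1 85 1 = true :=
  ex3_a A011R_040_2_85_1 A011R_040_3_85_1
theorem A011R_040_1_42_1 :
    ∃ t, chk3 (onCell 0 67108864 0 1073741824 818728140 40265320 (corW 3 c0B eng mog cA011R gB0q0 gB4q1 gB0q1 gB1q1 dB0q0 dB4q1 dB0q1 dB1q1 true false)) t 1 42 1 = true :=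
  ex3_b A011R_040_1_84_1 A011R_040_1_85_1
theorem A011R_040_1_21_1 :
    ∃ t, chk3 (onCell 0 67108864 0 1073741824 818728140 40265320 (corW 3 c0B eng mog cA011R gB0q0 gB4q1 gB0q1 gB1q1 dB0q0 dB4q1 dB0q1 dB1q1 true false)) t 1 21 1 = true :=
  ex3_b A011R_040_1_42_1 A011R_040_1_43_1
theorem A011R_040_1_10_1 :
    ∃ t, chk3 (onCell 0 67108864 0 1073741824 818728140 40265320 (corW 3 c0B eng mog cA011R gB0q0 gB4q1 gB0q1 gB1q1 dB0q0 dB4q1 dB0q1 dB1q1 true false)) t 1 10 1 = true :=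
  ex3_b A011R_040_1_20_1 A011R_040_1_21_1
theorem A011R_040_1_5_1 :
    ∃ t, chk3 (onCell 0 67108864 0 1073741824 818728140 40265320 (corW 3 c0B eng mog cA011R gB0q0 gB4q1 gB0q1 gB1q1 dB0q0 dB4q1 dB0q1 dB1q1 true false)) t 1 5 1 = true :=
  ex3_b A011R_040_1_10_1 A011R_040_1_11_1
theorem A011R_040_1_2_1 :
    ∃ t, chk3 (onCell 0 67108864 0 1073741824 818728140 40265320 (corW 3 c0B eng mog cA011R gB0q0 gB4q1 gB0q1 gB1q1 dB0q0 dB4q1 dB0q1 dB1q1 true false)) t 1 2 1 = true :=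
  ex3_b A011R_040_1_4_1 A011R_040_1_5_1
theorem A011R_040 :
    ∃ t, chk3 (onCell 0 67108864 0 1073741824 818728140 40265320 (corW 3 c0B eng mog cA011R gB0q0 gB4q1 gB0q1 gB1q1 dB0q0 dB4q1 dB0q1 dB1q1 true false)) t 1 1 1 = true :=
  ex3_b A011R_040_1_2_1 A011R_040_1_3_1

def A011R_120 :
    ∃ t, chk3 (onCell 0 67108864 0 1073741824 818728140 40265320 (corW 3 c0B eng mog cA011R gB1q0 gB2q1 gB0q1 gB1q1 dB1q0 dB2q1 dB0q1 dB1q1 true false)) t 1 1 1 = true :=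
  ⟨(T.l 1), by decide +kernel⟩

def A011R_130 :
    ∃ t, chk3 (onCell 0 67108864 0 1073741824 818728140 40265320 (corW 3 c0B eng mog cA011R gB1q0 gB3q1 gB0q1 gB1q1 dB1q0 dB3q1 dB0q1 dB1q1 true false)) t 1 1 1 = true :=
  ⟨(T.l 1), by decide +kernel⟩

def A011R_140 :
    ∃ t, chk3 (onCell 0 67108864 0 1073741824 818728140 40265320 (corW 3 c0B eng mog cA011R gB1q0 gB4q1 gB0q1 gB1q1 dB1q0 dB4q1 dB0q1 dB1q1 true false)) t 1 1 1 = true :=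
  ⟨(T.b (T.l 1) (T.l 1)), by decide +kernel⟩

def A012E_000_1_4_1 :
    ∃ t, chk3 (onCell 0 67108864 0 1073741824 818728140 40265320 (corW 3 c0B eng mog cA012E gB0q0 gB0q1 gB0q2 gB1q2 dB0q0 dB0q1 dB0q2 dB1q2 true true)) t 1 4 1 = true :=
  ⟨(T.l 1), by decide +kernel⟩

def A012E_000_1_10_1 :
    ∃ t, chk3 (onCell 0 67108864 0 1073741824 818728140 40265320 (corW 3 c0B eng mog cA012E gB0q0 gB0q1 gB0q2 gB1q2 dB0q0 dB0q1 dB0q2 dB1q2 true true)) t 1 10 1 = true :=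
  ⟨(T.l 1), by decide +kernel⟩

def A012E_000_1_22_1 :
    ∃ t, chk3 (onCell 0 67108864 0 1073741824 818728140 40265320 (corW 3 c0B eng mog cA012E gB0q0 gB0q1 gB0q2 gB1q2 dB0q0 dB0q1 dB0q2 dB1q2 true true)) t 1 22 1 = true :=
  ⟨(T.l 1), by decide +kernel⟩

def A012E_000_1_46_1 :
    ∃ t, chk3 (onCell 0 67108864 0 1073741824 818728140 40265320 (corW 3 c0B eng mog cA012E gB0q0 gB0q1 gB0q2 gB1q2 dB0q0 dB0q1 dB0q2 dB1q2 true true)) t 1 46 1 = true :=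
  ⟨(T.l 1), by decide +kernel⟩

def A012E_000_2_94_1 :
    ∃ t, chk3 (onCell 0 67108864 0 1073741824 818728140 40265320 (corW 3 c0B eng mog cA012E gB0q0 gB0q1 gB0q2 gB1q2 dB0q0 dB0q1 dB0q2 dB1q2 true true)) t 2 94 1 = true :=
  ⟨(T.l 1), by decide +kernel⟩

def A012E_000_4_95_1 :
    ∃ t, chk3 (onCell 0 67108864 0 1073741824 818728140 40265320 (corW 3 c0B eng mog cA012E gB0q0 gB0q1 gB0q2 gB1q2 dB0q0 dB0q1 dB0q2 dB1q2 true true)) t 4 95 1 = true :=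
  ⟨(T.b (T.l 1) (T.c (T.a (T.b (T.l 1) (T.c (T.a (T.b (T.l 1) (T.c (T.a (T.b (T.l 1) (T.c (T.a (T.b (T.l 1) (T.l 0)) (T.l 0)) (T.l 0))) (T.c (T.a (T.b (T.b (T.l 1) (T.l 0)) (T.l 0)) (T.l 0)) (T.l 0))) (T.l 0))) (T.c (T.b (T.a (T.a (T.l 1) (T.b (T.l 1) (T.b (T.l 1) (T.l 0)))) (T.b (T.c (T.a (T.l 1) (T.b (T.l 1) (T.l 0))) (T.l 0)) (T.l 0))) (T.l 0)) (T.l 0))) (T.l 0))) (T.c (T.a (T.b (T.a (T.l 1) (T.b (T.l 1) (T.c (T.b (T.l 1) (T.b (T.a (T.l 1) (T.l 0)) (T.l 0))) (T.l 0)))) (T.c (T.a (T.c (T.a (T.b (T.c (T.a (T.b (T.c (T.l 0) (T.l 0)) (T.l 0)) (T.l 0)) (T.l 0)) (T.l 0)) (T.l 0)) (T.l 0)) (T.l 0)) (T.l 0))) (T.b (T.b (T.a (T.l 1) (T.a (T.l 1) (T.c (T.a (T.l 1) (T.b (T.l 1) (T.b (T.l 1) (T.l 0)))) (T.l 0)))) (T.c (T.a (T.c (T.b (T.b (T.l 1) (T.l 0)) (T.l 0)) (T.l 0)) (T.l 0)) (T.l 0))) (T.l 0))) (T.a (T.c (T.b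 (T.a (T.l 1) (T.l 0)) (T.l 0)) (T.l 0)) (T.l 0)))) (T.a (T.c (T.l 0) (T.l 0)) (T.l 0)))), by decide +kernel⟩

def A012E_000_5_95_1 :
    ∃ t, chk3 (onCell 0 67108864 0 1073741824 818728140 40265320 (corW 3 c0B eng mog cA012E gB0q0 gB0q1 gB0q2 gB1q2 dB0q0 dB0q1 dB0q2 dB1q2 true true)) t 5 95 1 = true :=
  ⟨(T.a (T.b (T.b (T.l 1) (T.c (T.a (T.l 1) (T.c (T.b (T.l 1) (T.c (T.b (T.a (T.l 1) (T.c (T.a (T.l 1) (T.b (T.l 1) (T.l 0))) (T.l 0))) (T.a (T.b (T.l 1) (T.l 0)) (T.l 0))) (T.l 0))) (T.l 0))) (T.l 0))) (T.c (T.c (T.b (T.b (T.a (T.c (T.c (T.b (T.a (T.l 1) (T.b (T.a (T.l 1) (T.l 0)) (T.l 0))) (T.l 0)) (T.l 0)) (T.l 0)) (T.l 0)) (T.l 0)) (T.l 0)) (T.l 0)) (T.l 0))) (T.c (T.b (T.b (T.a (T.l 1) (T.a (T.l 1) (T.c (T.a (T.l 1) (T.b (T.l 1) (T.c (T.a (T.l 1) (T.c (T.b (T.l 1) (T.a (T.l 1) (T.l 0))) (T.l 0))) (T.l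 0)))) (T.l 0)))) (T.c (T.a (T.a (T.b (T.l 1) (T.c (T.l 0) (T.l 0))) (T.c (T.b (T.b (T.l 1) (T.b (T.a (T.l 1) (T.l 0)) (T.l 0))) (T.l 0)) (T.l 0))) (T.b (T.c (T.a (T.c (T.b (T.b (T.l 1) (T.l 0)) (T.l 0)) (T.l 0)) (T.l 0)) (T.l 0)) (T.l 0))) (T.l 0))) (T.c (T.l 0) (T.l 0))) (T.l 0))), by decide +kernel⟩

def A012E_000_6_47_1 :
    ∃ t, chk3 (onCell 0 67108864 0 1073741824 818728140 40265320 (corW 3 c0B eng mog cA012E gB0q0 gB0q1 gB0q2 gB1q2 dB0q0 dB0q1 dB0q2 dB1q2 true true)) t 6 47 1 = true :=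
  ⟨(T.b (T.b (T.l 1) (T.a (T.l 1) (T.b (T.l 1) (T.c (T.c (T.b (T.a (T.l 1) (T.a (T.l 1) (T.c (T.a (T.l 1) (T.c (T.a (T.l 1) (T.b (T.l 1) (T.l 0))) (T.l 0))) (T.l 0)))) (T.a (T.a (T.l 1) (T.c (T.b (T.l 1) (T.b (T.a (T.l 1) (T.l 0)) (T.l 0))) (T.l 0))) (T.c (T.a (T.c (T.a (T.b (T.l 1) (T.l 0)) (T.l 0)) (T.l 0)) (T.l 0)) (T.l 0)))) (T.l 0)) (T.l 0))))) (T.c (T.c (T.b (T.b (T.a (T.a (T.b (T.l 1) (T.c (T.c (T.b (T.a (T.l 1) (T.b (T.a (T.l 1) (T.l 0)) (T.l 0))) (T.l 0)) (T.l 0)) (T.l 0))) (T.b (T.c (T.b (T.a (T.l 1) (T.c (T.a (T.l 1) (T.b (T.l 1) (T.l 0))) (T.l 0))) (T.a (T.a (T.l 1) (T.l 0)) (T.l 0))) (T.l 0)) (T.l 0))) (T.c (T.a (T.l 0) (T.l 0)) (T.l 0))) (T.a (T.l 0) (T.l 0))) (T.l 0)) (T.l 0)) (T.l 0))), by decide +kernel⟩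

def A012E_000_7_47_1 :
    ∃ t, chk3 (onCell 0 67108864 0 1073741824 818728140 40265320 (corW 3 c0B eng mog cA012E gB0q0 gB0q1 gB0q2 gB1q2 dB0q0 dB0q1 dB0q2 dB1q2 true true)) t 7 47 1 = true :=
  ⟨(T.b (T.b (T.a (T.l 1) (T.a (T.l 1) (T.c (T.a (T.l 1) (T.b (T.l 1) (T.c (T.a (T.l 1) (T.b (T.l 1) (T.c (T.c (T.b (T.l 1) (T.a (T.l 1) (T.l 0))) (T.l 0)) (T.l 0)))) (T.l 0)))) (T.l 0)))) (T.c (T.a (T.c (T.a (T.b (T.l 1) (T.b (T.c (T.c (T.b (T.a (T.l 1) (T.a (T.a (T.l 1) (T.l 0)) (T.l 0))) (T.l 0)) (T.l 0)) (T.l 0)) (T.l 0))) (T.b (T.b (T.l 1) (T.c (T.b (T.a (T.l 1) (T.c (T.b (T.l 1) (T.l 0)) (T.l 0))) (T.a (T.a (T.l 1) (T.l 0)) (T.l 0))) (T.l 0))) (T.l 0))) (T.a (T.b (T.l 1) (T.l 0)) (T.l 0))) (T.c (T.b (T.c (T.b (T.a (T.a (T.l 1) (T.b (T.l 1) (T.l 0))) (T.a (T.c (T.a (T.b (T.l 1) (T.l 0)) (T.l 0)) (T.l 0)) (T.l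 0))) (T.l 0)) (T.l 0)) (T.l 0)) (T.l 0))) (T.l 0))) (T.c (T.a (T.c (T.l 0) (T.l 0)) (T.c (T.a (T.l 0) (T.l 0)) (T.l 0))) (T.a (T.l 0) (T.l 0)))), by decide +kernel⟩

def A012E_000_1_3_1 :
    ∃ t, chk3 (onCell 0 67108864 0 1073741824 818728140 40265320 (corW 3 c0B eng mog cA012E gB0q0 gB0q1 gB0q2 gB1q2 dB0q0 dB0q1 dB0q2 dB1q2 true true)) t 1 3 1 = true :=
  ⟨(T.b (T.b (T.b (T.a (T.c (T.b (T.c (T.a (T.b (T.a (T.a (T.l 0) (T.l 0)) (T.l 0)) (T.l 0)) (T.a (T.l 0) (T.l 0))) (T.a (T.l 0) (T.l 0))) (T.c (T.a (T.l 0) (T.l 0)) (T.l 0))) (T.a (T.l 0) (T.l 0))) (T.a (T.c (T.c (T.b (T.a (T.l 0) (T.l 0)) (T.l 0)) (T.l 0)) (T.l 0)) (T.b (T.a (T.c (T.c (T.l 0) (T.l 0)) (T.l 0)) (T.c (T.c (T.a (T.l 0) (T.l 0)) (T.l 0)) (T.l 0))) (T.a (T.c (T.l 0) (T.l 0)) (T.c (T.c (T.l 0) (T.l 0)) (T.l 0)))))) (T.b (T.a (T.c (T.a (T.l 0)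 (T.l 0)) (T.l 0)) (T.a (T.c (T.l 0) (T.l 0)) (T.a (T.c (T.b (T.l 816) (T.l 816)) (T.l 0)) (T.c (T.b (T.l 816) (T.l 816)) (T.l 0))))) (T.a (T.c (T.a (T.l 0) (T.l 0)) (T.l 0)) (T.a (T.c (T.l 0) (T.l 0)) (T.b (T.c (T.a (T.l 816) (T.l 816)) (T.l 0)) (T.l 2)))))) (T.a (T.b (T.a (T.c (T.l 0) (T.l 0)) (T.l 2)) (T.l 2)) (T.l 2))) (T.l 2)), by decide +kernel⟩

theorem A012E_000_3_47_1 :
    ∃ t, chk3 (onCell 0 67108864 0 1073741824 818728140 40265320 (corW 3 c0B eng mog cA012E gB0q0 gB0q1 gB0q2 gB1q2 dB0q0 dB0q1 dB0q2 dB1q2 true true)) t 3 47 1 = true :=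
  ex3_a A012E_000_6_47_1 A012E_000_7_47_1
theorem A012E_000_2_95_1 :
    ∃ t, chk3 (onCell 0 67108864 0 1073741824 818728140 40265320 (corW 3 c0B eng mog cA012E gB0q0 gB0q1 gB0q2 gB1q2 dB0q0 dB0q1 dB0q2 dB1q2 true true)) t 2 95 1 = true :=
  ex3_a A012E_000_4_95_1 A012E_000_5_95_1
theorem A012E_000_2_47_1 :
    ∃ t, chk3 (onCell 0 67108864 0 1073741824 818728140 40265320 (corW 3 c0B eng mog cA012E gB0q0 gB0q1 gB0q2 gB1q2 dB0q0 dB0q1 dB0q2 dB1q2 true true)) t 2 47 1 = true :=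
  ex3_b A012E_000_2_94_1 A012E_000_2_95_1
theorem A012E_000_1_47_1 :
    ∃ t, chk3 (onCell 0 67108864 0 1073741824 818728140 40265320 (corW 3 c0B eng mog cA012E gB0q0 gB0q1 gB0q2 gB1q2 dB0q0 dB0q1 dB0q2 dB1q2 true true)) t 1 47 1 = true :=
  ex3_a A012E_000_2_47_1 A012E_000_3_47_1
theorem A012E_000_1_23_1 :
    ∃ t, chk3 (onCell 0 67108864 0 1073741824 818728140 40265320 (corW 3 c0B eng mog cA012E gB0q0 gB0q1 gB0q2 gB1q2 dB0q0 dB0q1 dB0q2 dB1q2 true true)) t 1 23 1 = true :=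
  ex3_b A012E_000_1_46_1 A012E_000_1_47_1
theorem A012E_000_1_11_1 :
    ∃ t, chk3 (onCell 0 67108864 0 1073741824 818728140 40265320 (corW 3 c0B eng mog cA012E gB0q0 gB0q1 gB0q2 gB1q2 dB0q0 dB0q1 dB0q2 dB1q2 true true)) t 1 11 1 = true :=
  ex3_b A012E_000_1_22_1 A012E_000_1_23_1
theorem A012E_000_1_5_1 :
    ∃ t, chk3 (onCell 0 67108864 0 1073741824 818728140 40265320 (corW 3 c0B eng mog cA012E gB0q0 gB0q1 gB0q2 gB1q2 dB0q0 dB0q1 dB0q2 dB1q2 true true)) t 1 5 1 = true :=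
  ex3_b A012E_000_1_10_1 A012E_000_1_11_1
theorem A012E_000_1_2_1 :
    ∃ t, chk3 (onCell 0 67108864 0 1073741824 818728140 40265320 (corW 3 c0B eng mog cA012E gB0q0 gB0q1 gB0q2 gB1q2 dB0q0 dB0q1 dB0q2 dB1q2 true true)) t 1 2 1 = true :=
  ex3_b A012E_000_1_4_1 A012E_000_1_5_1
theorem A012E_000 :
    ∃ t, chk3 (onCell 0 67108864 0 1073741824 818728140 40265320 (corW 3 c0B eng mog cA012E gB0q0 gB0q1 gB0q2 gB1q2 dB0q0 dB0q1 dB0q2 dB1q2 true true)) t 1 1 1 = true :=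
  ex3_b A012E_000_1_2_1 A012E_000_1_3_1

def A012E_001 :
    ∃ t, chk3 (onCell 0 67108864 0 1073741824 818728140 40265320 (corW 3 c0B eng mog cA012E gB0q0 gB0q1 gB1q2 gB2q2 dB0q0 dB0q1 dB1q2 dB2q2 true false)) t 1 1 1 = true :=
  ⟨(T.b (T.l 1) (T.b (T.b (T.b (T.l 1) (T.b (T.l 1) (T.c (T.a (T.b (T.l 1) (T.l 0)) (T.l 0)) (T.l 256)))) (T.a (T.c (T.b (T.l 0) (T.l 816)) (T.l 0)) (T.c (T.b (T.l 0) (T.l 816)) (T.l 0)))) (T.b (T.a (T.c (T.b (T.l 816) (T.l 816)) (T.l 816)) (T.c (T.b (T.l 816) (T.l 816)) (T.l 816))) (T.a (T.c (T.b (T.l 816) (T.l 816)) (T.l 816)) (T.a (T.b (T.l 816) (T.l 816)) (T.b (T.l 816) (T.a (T.l 816) (T.c (T.l 816) (T.l 816))))))))), by decide +kernel⟩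

def A012L_003 :
    ∃ t, chk3 (onCell 0 67108864 0 1073741824 818728140 40265320 (corW 3 c0B eng mog cA012L gB0q0 gB0q1 gB3q2 gB4q2 dB0q0 dB0q1 dB3q2 dB4q2 false true)) t 1 1 1 = true :=
  ⟨(T.l 2), by decide +kernel⟩

def A012R_020 :
    ∃ t, chk3 (onCell 0 67108864 0 1073741824 818728140 40265320 (corW 3 c0B eng mog cA012R gB0q0 gB2q1 gB0q2 gB1q2 dB0q0 dB2q1 dB0q2 dB1q2 true true)) t 1 1 1 = true :=
  ⟨(T.b (T.l 2) (T.l 2)), by decide +kernel⟩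

def A012R_021 :
    ∃ t, chk3 (onCell 0 67108864 0 1073741824 818728140 40265320 (corW 3 c0B eng mog cA012R gB0q0 gB2q1 gB1q2 gB2q2 dB0q0 dB2q1 dB1q2 dB2q2 true false)) t 1 1 1 = true :=
  ⟨(T.b (T.b (T.b (T.l 0) (T.l 0)) (T.l 0)) (T.b (T.b (T.l 816) (T.l 816)) (T.a (T.b (T.l 816) (T.l 816)) (T.a (T.l 816) (T.b (T.l 816) (T.a (T.l 816) (T.b (T.l 816) (T.l 816)))))))), by decide +kernel⟩

def A012R_030 :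
    ∃ t, chk3 (onCell 0 67108864 0 1073741824 818728140 40265320 (corW 3 c0B eng mog cA012R gB0q0 gB3q1 gB0q2 gB1q2 dB0q0 dB3q1 dB0q2 dB1q2 true true)) t 1 1 1 = true :=
  ⟨(T.l 2), by decide +kernel⟩

def A012R_031 :
    ∃ t, chk3 (onCell 0 67108864 0 1073741824 818728140 40265320 (corW 3 c0B eng mog cA012R gB0q0 gB3q1 gB1q2 gB2q2 dB0q0 dB3q1 dB1q2 dB2q2 true false)) t 1 1 1 = true :=
  ⟨(T.b (T.b (T.l 0) (T.l 0)) (T.b (T.b (T.l 816) (T.l 816)) (T.a (T.b (T.l 816) (T.l 816)) (T.a (T.l 816) (T.b (T.l 816) (T.a (T.l 816) (T.b (T.l 816) (T.l 816)))))))), by decide +kernel⟩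

def A012R_040 :
    ∃ t, chk3 (onCell 0 67108864 0 1073741824 818728140 40265320 (corW 3 c0B eng mog cA012R gB0q0 gB4q1 gB0q2 gB1q2 dB0q0 dB4q1 dB0q2 dB1q2 true true)) t 1 1 1 = true :=
  ⟨(T.l 2), by decide +kernel⟩

def A012R_041 :
    ∃ t, chk3 (onCell 0 67108864 0 1073741824 818728140 40265320 (corW 3 c0B eng mog cA012R gB0q0 gB4q1 gB1q2 gB2q2 dB0q0 dB4q1 dB1q2 dB2q2 true false)) t 1 1 1 = true :=
  ⟨(T.b (T.b (T.l 0) (T.l 816)) (T.b (T.b (T.l 816) (T.l 816)) (T.a (T.b (T.l 816) (T.l 816)) (T.a (T.l 816) (T.b (T.l 816) (T.a (T.l 816) (T.b (T.l 816) (T.l 816)))))))), by decide +kernel⟩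

def A012R_120 :
    ∃ t, chk3 (onCell 0 67108864 0 1073741824 818728140 40265320 (corW 3 c0B eng mog cA012R gB1q0 gB2q1 gB0q2 gB1q2 dB1q0 dB2q1 dB0q2 dB1q2 true true)) t 1 1 1 = true :=
  ⟨(T.b (T.b (T.l 1) (T.b (T.l 816) (T.b (T.l 816) (T.a (T.l 816) (T.l 816))))) (T.b (T.a (T.l 816) (T.b (T.b (T.l 816) (T.l 2)) (T.l 2))) (T.l 2))), by decide +kernel⟩

def A012R_121 :
    ∃ t, chk3 (onCell 0 67108864 0 1073741824 818728140 40265320 (corW 3 c0B eng mog cA012R gB1q0 gB2q1 gB1q2 gB2q2 dB1q0 dB2q1 dB1q2 dB2q2 true false)) t 1 1 1 = true :=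
  ⟨(T.b (T.l 0) (T.b (T.l 816) (T.a (T.l 816) (T.a (T.l 816) (T.b (T.l 816) (T.l 816)))))), by decide +kernel⟩

def A012R_130 :
    ∃ t, chk3 (onCell 0 67108864 0 1073741824 818728140 40265320 (corW 3 c0B eng mog cA012R gB1q0 gB3q1 gB0q2 gB1q2 dB1q0 dB3q1 dB0q2 dB1q2 true true)) t 1 1 1 = true :=
  ⟨(T.b (T.b (T.l 0) (T.b (T.l 816) (T.a (T.l 816) (T.b (T.l 816) (T.l 2))))) (T.b (T.a (T.l 816) (T.l 2)) (T.l 2))), by decide +kernel⟩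

def A012R_131 :
    ∃ t, chk3 (onCell 0 67108864 0 1073741824 818728140 40265320 (corW 3 c0B eng mog cA012R gB1q0 gB3q1 gB1q2 gB2q2 dB1q0 dB3q1 dB1q2 dB2q2 true false)) t 1 1 1 = true :=
  ⟨(T.b (T.l 0) (T.b (T.l 816) (T.a (T.l 816) (T.a (T.l 816) (T.b (T.l 816) (T.l 816)))))), by decide +kernel⟩

def A012R_140 :
    ∃ t, chk3 (onCell 0 67108864 0 1073741824 818728140 40265320 (corW 3 c0B eng mog cA012R gB1q0 gB4q1 gB0q2 gB1q2 dB1q0 dB4q1 dB0q2 dB1q2 true true)) t 1 1 1 = true :=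
  ⟨(T.b (T.b (T.l 0) (T.b (T.l 816) (T.l 2))) (T.l 2)), by decide +kernel⟩

def A012R_141 :
    ∃ t, chk3 (onCell 0 67108864 0 1073741824 818728140 40265320 (corW 3 c0B eng mog cA012R gB1q0 gB4q1 gB1q2 gB2q2 dB1q0 dB4q1 dB1q2 dB2q2 true false)) t 1 1 1 = true :=
  ⟨(T.b (T.l 0) (T.b (T.l 816) (T.a (T.l 816) (T.a (T.l 816) (T.b (T.l 816) (T.l 816)))))), by decide +kernel⟩

def A022E_000 :
    ∃ t, chk3 (onCell 0 67108864 0 1073741824 818728140 40265320 (corW 3 c0B eng mog cA022E gB0q0 gB0q2 gB0q2 gB1q2 dB0q0 dB0q2 dB0q2 dB1q2 true true)) t 1 1 1 = true :=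
  ⟨(T.l 2), by decide +kernel⟩

def A022E_001 :
    ∃ t, chk3 (onCell 0 67108864 0 1073741824 818728140 40265320 (corW 3 c0B eng mog cA022E gB0q0 gB0q2 gB1q2 gB2q2 dB0q0 dB0q2 dB1q2 dB2q2 true false)) t 1 1 1 = true :=
  ⟨(T.b (T.a (T.b (T.a (T.c (T.l 204) (T.b (T.l 204) (T.l 204))) (T.a (T.b (T.l 204) (T.l 204)) (T.b (T.a (T.l 204) (T.l 204)) (T.l 204)))) (T.b (T.l 204) (T.l 204))) (T.b (T.a (T.b (T.a (T.a (T.l 204) (T.b (T.l 204) (T.l 204))) (T.b (T.b (T.l 204) (T.l 204)) (T.l 204))) (T.a (T.l 204) (T.b (T.l 204) (T.l 204)))) (T.b (T.a (T.b (T.l 204) (T.l 204)) (T.a (T.l 220) (T.b (T.l 204) (T.l 204)))) (T.a (T.b (T.l 204) (T.l 204)) (T.b (T.l 204) (T.l 204))))) (T.a (T.b (T.b (T.l 204) (T.l 204)) (T.l 204)) (T.b (T.a (T.l 204) (T.l 204)) (T.a (T.l 204) (T.l 204)))))) (T.a (T.b (T.l 0) (T.b (T.l 0) (T.c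 (T.l 816) (T.l 816)))) (T.a (T.b (T.l 0) (T.c (T.l 0) (T.l 0))) (T.b (T.b (T.b (T.l 204) (T.l 0)) (T.l 0)) (T.b (T.l 0) (T.c (T.l 816) (T.l 816))))))), by decide +kernel⟩

def A022E_010 :
    ∃ t, chk3 (onCell 0 67108864 0 1073741824 818728140 40265320 (corW 3 c0B eng mog cA022E gB0q0 gB1q2 gB0q2 gB1q2 dB0q0 dB1q2 dB0q2 dB1q2 true true)) t 1 1 1 = true :=
  ⟨(T.l 2), by decide +kernel⟩

def A022E_011 :
    ∃ t, chk3 (onCell 0 67108864 0 1073741824 818728140 40265320 (corW 3 c0B eng mog cA022E gB0q0 gB1q2 gB1q2 gB2q2 dB0q0 dB1q2 dB1q2 dB2q2 true false)) t 1 1 1 = true :=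
  ⟨(T.a (T.b (T.b (T.c (T.a (T.l 204) (T.l 220)) (T.b (T.a (T.l 204) (T.l 204)) (T.l 204))) (T.l 204)) (T.b (T.l 0) (T.c (T.l 0) (T.l 0)))) (T.a (T.b (T.b (T.c (T.b (T.l 204) (T.l 204)) (T.l 220)) (T.l 204)) (T.b (T.l 0) (T.b (T.l 0) (T.l 816)))) (T.b (T.b (T.a (T.c (T.l 204) (T.l 204)) (T.b (T.a (T.l 204) (T.c (T.b (T.l 204) (T.l 204)) (T.l 204))) (T.l 204))) (T.b (T.l 204) (T.l 204))) (T.b (T.l 0) (T.c (T.b (T.l 0) (T.l 816)) (T.l 64)))))), by decide +kernel⟩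

def A022E_110 :
    ∃ t, chk3 (onCell 0 67108864 0 1073741824 818728140 40265320 (corW 3 c0B eng mog cA022E gB1q0 gB1q2 gB0q2 gB1q2 dB1q0 dB1q2 dB0q2 dB1q2 true true)) t 1 1 1 = true :=
  ⟨(T.l 2), by decide +kernel⟩

def A022E_111 :
    ∃ t, chk3 (onCell 0 67108864 0 1073741824 818728140 40265320 (corW 3 c0B eng mog cA022E gB1q0 gB1q2 gB1q2 gB2q2 dB1q0 dB1q2 dB1q2 dB2q2 true false)) t 1 1 1 = true :=
  ⟨(T.a (T.b (T.b (T.b (T.b (T.c (T.l 204) (T.a (T.l 204) (T.l 204))) (T.l 204)) (T.l 204)) (T.l 204)) (T.l 0)) (T.b (T.a (T.b (T.c (T.l 204) (T.l 204)) (T.l 204)) (T.b (T.b (T.a (T.l 204) (T.a (T.l 204) (T.c (T.b (T.l 204) (T.l 204)) (T.l 204)))) (T.l 204)) (T.l 204))) (T.b (T.l 256) (T.l 0)))), by decide +kernel⟩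

def A022L_003_1_2_1 :
    ∃ t, chk3 (onCell 0 67108864 0 1073741824 818728140 40265320 (corW 3 c0B eng mog cA022L gB0q0 gB0q2 gB3q2 gB4q2 dB0q0 dB0q2 dB3q2 dB4q2 false true)) t 1 2 1 = true :=
  ⟨(T.b (T.a (T.a (T.b (T.l 204) (T.l 204)) (T.a (T.l 204) (T.b (T.b (T.l 204) (T.l 204)) (T.l 204)))) (T.a (T.a (T.b (T.a (T.l 204) (T.b (T.l 204) (T.l 204))) (T.b (T.l 204) (T.l 204))) (T.b (T.b (T.l 204) (T.l 204)) (T.b (T.l 220) (T.l 204)))) (T.b (T.a (T.b (T.l 204) (T.l 204)) (T.b (T.l 204) (T.l 204))) (T.a (T.b (T.l 204) (T.l 204)) (T.b (T.l 204) (T.l 204)))))) (T.a (T.b (T.b (T.l 204) (T.l 204)) (T.b (T.l 204) (T.l 204))) (T.a (T.b (T.a (T.l 204) (T.b (T.l 204) (T.l 204))) (T.l 204)) (T.b (T.a (T.b (T.l 204) (T.l 204)) (T.b (T.l 204) (T.l 204))) (T.b (T.a (T.l 204) (T.b (T.l 204) (T.l 204))) (T.a (T.l 204) (T.l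 204))))))), by decide +kernel⟩

def A022L_003_1_12_1 :
    ∃ t, chk3 (onCell 0 67108864 0 1073741824 818728140 40265320 (corW 3 c0B eng mog cA022L gB0q0 gB0q2 gB3q2 gB4q2 dB0q0 dB0q2 dB3q2 dB4q2 false true)) t 1 12 1 = true :=
  ⟨(T.a (T.b (T.a (T.l 204) (T.l 204)) (T.c (T.l 204) (T.a (T.l 204) (T.l 204)))) (T.a (T.b (T.l 204) (T.b (T.l 204) (T.l 204))) (T.b (T.a (T.l 204) (T.b (T.l 204) (T.l 204))) (T.b (T.l 204) (T.l 204))))), by decide +kernel⟩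

def A022L_003_1_52_1 :
    ∃ t, chk3 (onCell 0 67108864 0 1073741824 818728140 40265320 (corW 3 c0B eng mog cA022L gB0q0 gB0q2 gB3q2 gB4q2 dB0q0 dB0q2 dB3q2 dB4q2 false true)) t 1 52 1 = true :=
  ⟨(T.a (T.c (T.l 0) (T.b (T.l 204) (T.a (T.l 204) (T.l 204)))) (T.c (T.l 204) (T.a (T.l 204) (T.l 204)))), by decide +kernel⟩

def A022L_003_2_106_1 :
    ∃ t, chk3 (onCell 0 67108864 0 1073741824 818728140 40265320 (corW 3 c0B eng mog cA022L gB0q0 gB0q2 gB3q2 gB4q2 dB0q0 dB0q2 dB3q2 dB4q2 false true)) t 2 106 1 = true :=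
  ⟨(T.b (T.c (T.l 0) (T.a (T.a (T.l 204) (T.l 204)) (T.l 204))) (T.b (T.c (T.l 0) (T.a (T.c (T.l 0) (T.b (T.l 0) (T.a (T.b (T.a (T.c (T.l 0) (T.l 0)) (T.l 0)) (T.a (T.a (T.l 2) (T.c (T.l 0) (T.b (T.b (T.l 0) (T.l 2)) (T.l 2)))) (T.c (T.l 0) (T.b (T.l 0) (T.a (T.l 2) (T.b (T.l 0) (T.l 2))))))) (T.a (T.c (T.l 0) (T.a (T.c (T.l 0) (T.l 0)) (T.l 0))) (T.l 0))))) (T.l 0))) (T.a (T.a (T.l 2) (T.b (T.b (T.c (T.l 0) (T.c (T.l 0) (T.b (T.c (T.l 0) (T.a (T.a (T.l 2) (T.c (T.l 0) (T.a (T.l 2) (T.b (T.l 0) (T.l 2))))) (T.a (T.b (T.l 0) (T.l 2)) (T.l 0)))) (T.l 2)))) (T.l 2)) (T.l 2))) (T.b (T.c (T.l 0) (T.c (T.l 0) (T.a (T.b (T.a (T.c (T.l 0) (T.a (T.c (T.l 0) (T.a (T.c (T.l 0) (T.a (T.b (T.l 0) (T.a (T.l 2) (T.l 0))) (T.l 0))) (T.l 0))) (T.l 0))) (T.l 0)) (T.a (T.l 2) (T.b (T.c (T.l 0) (T.a (T.b (T.l 0) (T.l 2)) (T.l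 0))) (T.l 2)))) (T.a (T.c (T.l 0) (T.a (T.c (T.l 0) (T.a (T.c (T.l 0) (T.b (T.l 204) (T.b (T.l 0) (T.l 2)))) (T.l 0))) (T.l 0))) (T.l 0))))) (T.a (T.l 2) (T.a (T.l 2) (T.c (T.l 0) (T.b (T.c (T.l 0) (T.b (T.a (T.b (T.l 0) (T.l 2)) (T.l 0)) (T.l 2))) (T.l 2))))))))), by decide +kernel⟩

def A022L_003_3_106_1 :
    ∃ t, chk3 (onCell 0 67108864 0 1073741824 818728140 40265320 (corW 3 c0B eng mog cA022L gB0q0 gB0q2 gB3q2 gB4q2 dB0q0 dB0q2 dB3q2 dB4q2 false true)) t 3 106 1 = true :=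
  ⟨(T.c (T.a (T.a (T.l 0) (T.l 0)) (T.l 0)) (T.a (T.b (T.l 204) (T.b (T.l 204) (T.c (T.l 0) (T.b (T.l 0) (T.a (T.b (T.a (T.c (T.l 0) (T.a (T.b (T.l 0) (T.l 2)) (T.l 0))) (T.l 0)) (T.a (T.l 2) (T.c (T.l 0) (T.a (T.l 2) (T.b (T.l 0) (T.l 2)))))) (T.a (T.c (T.l 0) (T.a (T.c (T.l 0) (T.c (T.l 0) (T.b (T.l 204) (T.b (T.l 0) (T.l 2))))) (T.l 0))) (T.l 0))))))) (T.a (T.l 0) (T.l 0)))), by decide +kernel⟩

def A022L_003_1_107_1 :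
    ∃ t, chk3 (onCell 0 67108864 0 1073741824 818728140 40265320 (corW 3 c0B eng mog cA022L gB0q0 gB0q2 gB3q2 gB4q2 dB0q0 dB0q2 dB3q2 dB4q2 false true)) t 1 107 1 = true :=
  ⟨(T.a (T.l 2) (T.b (T.b (T.b (T.a (T.a (T.l 2) (T.a (T.l 2) (T.c (T.l 0) (T.a (T.l 2) (T.c (T.l 0) (T.a (T.l 2) (T.b (T.b (T.l 0) (T.l 2)) (T.l 2)))))))) (T.c (T.l 0) (T.c (T.a (T.l 0) (T.l 0)) (T.a (T.b (T.a (T.b (T.l 0) (T.a (T.l 2) (T.l 0))) (T.l 0)) (T.a (T.l 2) (T.c (T.l 0) (T.a (T.l 2) (T.b (T.l 0) (T.l 2)))))) (T.a (T.c (T.l 0) (T.a (T.c (T.l 0) (T.b (T.l 0) (T.b (T.l 0) (T.l 2)))) (T.l 0))) (T.l 0)))))) (T.l 2)) (T.l 2)) (T.l 2))), by decide +kernel⟩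

def A022L_003_1_27_1 :
    ∃ t, chk3 (onCell 0 67108864 0 1073741824 818728140 40265320 (corW 3 c0B eng mog cA022L gB0q0 gB0q2 gB3q2 gB4q2 dB0q0 dB0q2 dB3q2 dB4q2 false true)) t 1 27 1 = true :=
  ⟨(T.l 2), by decide +kernel⟩

def A022L_003_1_7_1 :
    ∃ t, chk3 (onCell 0 67108864 0 1073741824 818728140 40265320 (corW 3 c0B eng mog cA022L gB0q0 gB0q2 gB3q2 gB4q2 dB0q0 dB0q2 dB3q2 dB4q2 false true)) t 1 7 1 = true :=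
  ⟨(T.l 2), by decide +kernel⟩

theorem A022L_003_1_106_1 :
    ∃ t, chk3 (onCell 0 67108864 0 1073741824 818728140 40265320 (corW 3 c0B eng mog cA022L gB0q0 gB0q2 gB3q2 gB4q2 dB0q0 dB0q2 dB3q2 dB4q2 false true)) t 1 106 1 = true :=
  ex3_a A022L_003_2_106_1 A022L_003_3_106_1
theorem A022L_003_1_53_1 :
    ∃ t, chk3 (onCell 0 67108864 0 1073741824 818728140 40265320 (corW 3 c0B eng mog cA022L gB0q0 gB0q2 gB3q2 gB4q2 dB0q0 dB0q2 dB3q2 dB4q2 false true)) t 1 53 1 = true :=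
  ex3_b A022L_003_1_106_1 A022L_003_1_107_1
theorem A022L_003_1_26_1 :
    ∃ t, chk3 (onCell 0 67108864 0 1073741824 818728140 40265320 (corW 3 c0B eng mog cA022L gB0q0 gB0q2 gB3q2 gB4q2 dB0q0 dB0q2 dB3q2 dB4q2 false true)) t 1 26 1 = true :=
  ex3_b A022L_003_1_52_1 A022L_003_1_53_1
theorem A022L_003_1_13_1 :
    ∃ t, chk3 (onCell 0 67108864 0 1073741824 818728140 40265320 (corW 3 c0B eng mog cA022L gB0q0 gB0q2 gB3q2 gB4q2 dB0q0 dB0q2 dB3q2 dB4q2 false true)) t 1 13 1 = true :=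
  ex3_b A022L_003_1_26_1 A022L_003_1_27_1
theorem A022L_003_1_6_1 :
    ∃ t, chk3 (onCell 0 67108864 0 1073741824 818728140 40265320 (corW 3 c0B eng mog cA022L gB0q0 gB0q2 gB3q2 gB4q2 dB0q0 dB0q2 dB3q2 dB4q2 false true)) t 1 6 1 = true :=
  ex3_b A022L_003_1_12_1 A022L_003_1_13_1
theorem A022L_003_1_3_1 :
    ∃ t, chk3 (onCell 0 67108864 0 1073741824 818728140 40265320 (corW 3 c0B eng mog cA022L gB0q0 gB0q2 gB3q2 gB4q2 dB0q0 dB0q2 dB3q2 dB4q2 false true)) t 1 3 1 = true :=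
  ex3_b A022L_003_1_6_1 A022L_003_1_7_1
theorem A022L_003 :
    ∃ t, chk3 (onCell 0 67108864 0 1073741824 818728140 40265320 (corW 3 c0B eng mog cA022L gB0q0 gB0q2 gB3q2 gB4q2 dB0q0 dB0q2 dB3q2 dB4q2 false true)) t 1 1 1 = true :=
  ex3_b A022L_003_1_2_1 A022L_003_1_3_1

def A022L_013 :
    ∃ t, chk3 (onCell 0 67108864 0 1073741824 818728140 40265320 (corW 3 c0B eng mog cA022L gB0q0 gB1q2 gB3q2 gB4q2 dB0q0 dB1q2 dB3q2 dB4q2 false true)) t 1 1 1 = true :=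
  ⟨(T.b (T.b (T.b (T.a (T.l 204) (T.a (T.l 204) (T.l 0))) (T.l 0)) (T.b (T.l 0) (T.l 0))) (T.l 2)), by decide +kernel⟩

def A022L_113 :
    ∃ t, chk3 (onCell 0 67108864 0 1073741824 818728140 40265320 (corW 3 c0B eng mog cA022L gB1q0 gB1q2 gB3q2 gB4q2 dB1q0 dB1q2 dB3q2 dB4q2 false true)) t 1 1 1 = true :=
  ⟨(T.b (T.b (T.b (T.a (T.l 204) (T.a (T.l 204) (T.l 0))) (T.l 0)) (T.l 0)) (T.l 2)), by decide +kernel⟩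

def A022R_040 :
    ∃ t, chk3 (onCell 0 67108864 0 1073741824 818728140 40265320 (corW 3 c0B eng mog cA022R gB0q0 gB4q2 gB0q2 gB1q2 dB0q0 dB4q2 dB0q2 dB1q2 true true)) t 1 1 1 = true :=
  ⟨(T.l 2), by decide +kernel⟩

def A022R_041 :
    ∃ t, chk3 (onCell 0 67108864 0 1073741824 818728140 40265320 (corW 3 c0B eng mog cA022R gB0q0 gB4q2 gB1q2 gB2q2 dB0q0 dB4q2 dB1q2 dB2q2 true false)) t 1 1 1 = true :=
  ⟨(T.a (T.b (T.l 0) (T.b (T.l 816) (T.l 880))) (T.a (T.b (T.l 0) (T.b (T.l 816) (T.l 816))) (T.b (T.l 0) (T.c (T.l 880) (T.l 816))))), by decide +kernel⟩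

def A022R_140 :
    ∃ t, chk3 (onCell 0 67108864 0 1073741824 818728140 40265320 (corW 3 c0B eng mog cA022R gB1q0 gB4q2 gB0q2 gB1q2 dB1q0 dB4q2 dB0q2 dB1q2 true true)) t 1 1 1 = true :=
  ⟨(T.l 2), by decide +kernel⟩

def A022R_141 :
    ∃ t, chk3 (onCell 0 67108864 0 1073741824 818728140 40265320 (corW 3 c0B eng mog cA022R gB1q0 gB4q2 gB1q2 gB2q2 dB1q0 dB4q2 dB1q2 dB2q2 true false)) t 1 1 1 = true :=
  ⟨(T.a (T.l 0) (T.a (T.l 0) (T.l 0))), by decide +kernel⟩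

def A101E_000 :
    ∃ t, chk3 (onCell 0 67108864 0 1073741824 818728140 40265320 (corW 3 c0B eng mog cA101E gB0q1 gB0q0 gB0q1 gB1q1 dB0q1 dB0q0 dB0q1 dB1q1 true false)) t 1 1 1 = true :=
  ⟨(T.l 1), by decide +kernel⟩

def A101E_010 :
    ∃ t, chk3 (onCell 0 67108864 0 1073741824 818728140 40265320 (corW 3 c0B eng mog cA101E gB0q1 gB1q0 gB0q1 gB1q1 dB0q1 dB1q0 dB0q1 dB1q1 true false)) t 1 1 1 = true :=
  ⟨(T.l 1), by decide +kernel⟩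

def A101R_001 :
    ∃ t, chk3 (onCell 0 67108864 0 1073741824 818728140 40265320 (corW 3 c0B eng mog cA101R gB0q1 gB0q0 gB1q1 gB2q1 dB0q1 dB0q0 dB1q1 dB2q1 false true)) t 1 1 1 = true :=
  ⟨(T.l 2), by decide +kernel⟩

def A101R_002 :
    ∃ t, chk3 (onCell 0 67108864 0 1073741824 818728140 40265320 (corW 3 c0B eng mog cA101R gB0q1 gB0q0 gB2q1 gB3q1 dB0q1 dB0q0 dB2q1 dB3q1 true true)) t 1 1 1 = true :=
  ⟨(T.l 2), by decide +kernel⟩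

def A101R_003 :
    ∃ t, chk3 (onCell 0 67108864 0 1073741824 818728140 40265320 (corW 3 c0B eng mog cA101R gB0q1 gB0q0 gB3q1 gB4q1 dB0q1 dB0q0 dB3q1 dB4q1 true true)) t 1 1 1 = true :=
  ⟨(T.l 2), by decide +kernel⟩

def A101R_011 :
    ∃ t, chk3 (onCell 0 67108864 0 1073741824 818728140 40265320 (corW 3 c0B eng mog cA101R gB0q1 gB1q0 gB1q1 gB2q1 dB0q1 dB1q0 dB1q1 dB2q1 false true)) t 1 1 1 = true :=
  ⟨(T.l 2), by decide +kernel⟩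

def A101R_012 :
    ∃ t, chk3 (onCell 0 67108864 0 1073741824 818728140 40265320 (corW 3 c0B eng mog cA101R gB0q1 gB1q0 gB2q1 gB3q1 dB0q1 dB1q0 dB2q1 dB3q1 true true)) t 1 1 1 = true :=
  ⟨(T.l 2), by decide +kernel⟩

def A101R_013 :
    ∃ t, chk3 (onCell 0 67108864 0 1073741824 818728140 40265320 (corW 3 c0B eng mog cA101R gB0q1 gB1q0 gB3q1 gB4q1 dB0q1 dB1q0 dB3q1 dB4q1 true true)) t 1 1 1 = true :=
  ⟨(T.l 2), by decide +kernel⟩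

def A102E_000_1_2_1 :
    ∃ t, chk3 (onCell 0 67108864 0 1073741824 818728140 40265320 (corW 3 c0B eng mog cA102E gB0q1 gB0q0 gB0q2 gB1q2 dB0q1 dB0q0 dB0q2 dB1q2 true true)) t 1 2 1 = true :=
  ⟨(T.b (T.l 2) (T.b (T.a (T.b (T.l 2) (T.a (T.c (T.l 0) (T.l 0)) (T.l 2))) (T.l 2)) (T.b (T.b (T.a (T.c (T.a (T.l 0) (T.l 0)) (T.l 0)) (T.b (T.a (T.c (T.l 0) (T.l 0)) (T.l 2)) (T.a (T.c (T.l 0) (T.l 0)) (T.c (T.a (T.l 204) (T.l 204)) (T.a (T.l 204) (T.l 204)))))) (T.a (T.c (T.a (T.l 0) (T.l 0)) (T.a (T.l 0) (T.l 0))) (T.a (T.c (T.l 0) (T.l 0)) (T.b (T.c (T.a (T.l 204) (T.l 204)) (T.a (T.l 0) (T.l 204))) (T.c (T.a (T.l 204) (T.l 204)) (T.a (T.l 0) (T.l 204))))))) (T.a (T.c (T.b (T.c (T.a (T.l 0) (T.l 0)) (T.l 0)) (T.c (T.a (T.b (T.l 0) (T.a (T.a (T.l 0) (T.l 0)) (T.l 0))) (T.a (T.b (T.l 0) (T.l 0)) (T.l 0))) (T.a (T.l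 0) (T.l 0)))) (T.c (T.a (T.b (T.l 0) (T.l 0)) (T.l 0)) (T.l 0))) (T.b (T.a (T.c (T.a (T.l 0) (T.l 0)) (T.l 0)) (T.b (T.c (T.a (T.l 204) (T.l 204)) (T.a (T.l 0) (T.l 204))) (T.a (T.c (T.l 0) (T.l 0)) (T.c (T.c (T.l 204) (T.l 204)) (T.l 0))))) (T.a (T.c (T.c (T.a (T.l 0) (T.l 0)) (T.l 0)) (T.l 0)) (T.b (T.a (T.c (T.l 0) (T.l 0)) (T.c (T.c (T.l 204) (T.l 204)) (T.l 0))) (T.a (T.c (T.c (T.l 0) (T.l 0)) (T.l 0)) (T.c (T.c (T.a (T.l 204) (T.l 204)) (T.l 0)) (T.l 0)))))))))), by decide +kernel⟩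

def A102E_000_4_96_1 :
    ∃ t, chk3 (onCell 0 67108864 0 1073741824 818728140 40265320 (corW 3 c0B eng mog cA102E gB0q1 gB0q0 gB0q2 gB1q2 dB0q1 dB0q0 dB0q2 dB1q2 true true)) t 4 96 1 = true :=
  ⟨(T.b (T.a (T.b (T.c (T.c (T.a (T.b (T.c (T.a (T.b (T.c (T.a (T.b (T.l 0) (T.l 1)) (T.l 0)) (T.l 0)) (T.l 1)) (T.c (T.a (T.b (T.l 0) (T.b (T.l 0) (T.l 1))) (T.l 0)) (T.l 0))) (T.l 0)) (T.l 1)) (T.c (T.b (T.l 0) (T.a (T.a (T.l 1) (T.b (T.b (T.l 0) (T.l 1)) (T.l 1))) (T.b (T.l 0) (T.c (T.a (T.l 1) (T.b (T.l 0) (T.l 1))) (T.l 0))))) (T.l 0))) (T.l 0)) (T.c (T.l 0) (T.l 0))) (T.l 1)) (T.c (T.c (T.a (T.b (T.c (T.a (T.c (T.a (T.b (T.l 0) (T.c (T.a (T.b (T.l 0) (T.b (T.l 0) (T.l 1))) (T.l 0)) (T.l 0))) (T.l 0)) (T.l 0)) (T.l 0)) (T.l 0)) (T.a (T.l 1) (T.b (T.c (T.b (T.b (T.l 0) (T.a (T.l 1) (T.l 0))) (T.l 1)) (T.l 0))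 (T.l 1)))) (T.b (T.l 0) (T.b (T.c (T.a (T.c (T.b (T.l 0) (T.b (T.l 0) (T.l 1))) (T.l 0)) (T.l 0)) (T.l 0)) (T.a (T.l 1) (T.a (T.l 1) (T.c (T.a (T.l 1) (T.b (T.b (T.l 0) (T.l 1)) (T.l 1))) (T.l 0))))))) (T.a (T.c (T.a (T.b (T.l 0) (T.l 1)) (T.l 0)) (T.l 0)) (T.l 0))) (T.c (T.c (T.l 0) (T.l 0)) (T.l 0)))) (T.l 1)), by decide +kernel⟩

def A102E_000_5_96_1 :
    ∃ t, chk3 (onCell 0 67108864 0 1073741824 818728140 40265320 (corW 3 c0B eng mog cA102E gB0q1 gB0q0 gB0q2 gB1q2 dB0q1 dB0q0 dB0q2 dB1q2 true true)) t 5 96 1 = true :=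
  ⟨(T.a (T.b (T.c (T.c (T.b (T.l 0) (T.b (T.l 0) (T.c (T.a (T.c (T.a (T.b (T.l 0) (T.l 1)) (T.a (T.b (T.l 0) (T.b (T.l 0) (T.l 1))) (T.l 0))) (T.l 0)) (T.l 0)) (T.l 0)))) (T.l 0)) (T.c (T.l 0) (T.l 0))) (T.b (T.a (T.l 1) (T.b (T.c (T.c (T.c (T.b (T.a (T.b (T.l 0) (T.l 1)) (T.l 0)) (T.a (T.l 1) (T.c (T.a (T.l 1) (T.b (T.l 0) (T.l 1))) (T.l 0)))) (T.l 0)) (T.l 0)) (T.c (T.l 0) (T.l 0))) (T.l 1))) (T.l 1))) (T.b (T.c (T.c (T.l 0) (T.l 0)) (T.l 0)) (T.b (T.c (T.c (T.a (T.a (T.b (T.c (T.l 0) (T.l 0)) (T.l 1)) (T.c (T.b (T.l 0) (T.b (T.b (T.l 0) (T.a (T.l 1) (T.l 0))) (T.l 1))) (T.l 0))) (T.b (T.l 0) (T.c (T.a (T.c (T.b (T.l 0) (T.b (T.l 0) (T.l 1))) (T.l 0)) (T.l 0)) (T.l 0)))) (T.l 0)) (T.c (T.l 0) (T.l 0))) (T.a (T.l 1) (T.a (T.l 1) (T.a (T.l 1) (T.b (T.c (T.c (T.c (T.a (T.l 1) (T.c (T.b (T.a (T.l 1) (T.l 0))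 (T.l 1)) (T.l 0))) (T.l 0)) (T.l 0)) (T.l 0)) (T.l 1)))))))), by decide +kernel⟩

def A102E_000_2_97_1 :
    ∃ t, chk3 (onCell 0 67108864 0 1073741824 818728140 40265320 (corW 3 c0B eng mog cA102E gB0q1 gB0q0 gB0q2 gB1q2 dB0q1 dB0q0 dB0q2 dB1q2 true true)) t 2 97 1 = true :=
  ⟨(T.l 1), by decide +kernel⟩

def A102E_000_6_48_1 :
    ∃ t, chk3 (onCell 0 67108864 0 1073741824 818728140 40265320 (corW 3 c0B eng mog cA102E gB0q1 gB0q0 gB0q2 gB1q2 dB0q1 dB0q0 dB0q2 dB1q2 true true)) t 6 48 1 = true :=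
  ⟨(T.b (T.b (T.c (T.c (T.l 0) (T.l 0)) (T.l 0)) (T.a (T.c (T.c (T.b (T.l 0) (T.a (T.b (T.c (T.c (T.b (T.l 0) (T.a (T.l 1) (T.b (T.l 0) (T.a (T.l 1) (T.l 0))))) (T.l 0)) (T.l 0)) (T.l 1)) (T.b (T.l 0) (T.c (T.b (T.a (T.a (T.l 1) (T.l 0)) (T.l 0)) (T.a (T.l 1) (T.c (T.a (T.l 1) (T.b (T.l 0) (T.l 1))) (T.l 0)))) (T.l 0))))) (T.l 0)) (T.c (T.l 0) (T.l 0))) (T.c (T.c (T.c (T.a (T.a (T.l 0) (T.l 0)) (T.l 0)) (T.l 0)) (T.l 0)) (T.l 0)))) (T.b (T.a (T.l 1) (T.b (T.b (T.c (T.c (T.a (T.a (T.l 1) (T.c (T.b (T.b (T.l 0) (T.a (T.l 1) (T.l 0))) (T.l 1)) (T.l 0))) (T.c (T.a (T.c (T.a (T.b (T.l 0) (T.l 1)) (T.l 0)) (T.l 0)) (T.l 0)) (T.l 0))) (T.l 0)) (T.c (T.l 0) (T.l 0))) (T.a (T.l 1) (T.a (T.l 1) (T.c (T.c (T.c (T.a (T.l 1) (T.c (T.a (T.l 1) (T.b (T.l 0) (T.l 1))) (T.l 0))) (T.l 0)) (T.l 0)) (T.l 0))))) (T.l 1))) (T.l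 1))), by decide +kernel⟩

def A102E_000_7_48_1 :
    ∃ t, chk3 (onCell 0 67108864 0 1073741824 818728140 40265320 (corW 3 c0B eng mog cA102E gB0q1 gB0q0 gB0q2 gB1q2 dB0q1 dB0q0 dB0q2 dB1q2 true true)) t 7 48 1 = true :=
  ⟨(T.b (T.b (T.a (T.c (T.c (T.l 0) (T.l 0)) (T.l 0)) (T.c (T.c (T.l 0) (T.l 0)) (T.l 0))) (T.c (T.c (T.a (T.l 0) (T.l 0)) (T.l 0)) (T.l 0))) (T.b (T.a (T.c (T.c (T.a (T.b (T.b (T.l 0) (T.c (T.c (T.b (T.l 0) (T.a (T.l 1) (T.a (T.a (T.l 1) (T.l 0)) (T.l 0)))) (T.l 0)) (T.l 0))) (T.l 1)) (T.b (T.l 0) (T.b (T.c (T.b (T.a (T.a (T.l 1) (T.l 0)) (T.l 0)) (T.a (T.l 1) (T.c (T.b (T.l 0) (T.l 1)) (T.l 0)))) (T.l 0)) (T.l 1)))) (T.a (T.b (T.l 0) (T.l 1)) (T.l 0))) (T.c (T.c (T.l 0) (T.l 0)) (T.l 0))) (T.c (T.c (T.b (T.l 0) (T.c (T.b (T.l 0) (T.a (T.a (T.l 1) (T.b (T.l 0) (T.l 1))) (T.a (T.c (T.a (T.b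 (T.l 0) (T.l 1)) (T.l 0)) (T.l 0)) (T.l 0)))) (T.l 0))) (T.l 0)) (T.c (T.l 0) (T.l 0)))) (T.a (T.l 1) (T.a (T.l 1) (T.a (T.l 1) (T.b (T.a (T.l 1) (T.b (T.c (T.c (T.c (T.c (T.b (T.a (T.l 1) (T.l 0)) (T.l 1)) (T.l 0)) (T.l 0)) (T.l 0)) (T.l 0)) (T.l 1))) (T.l 1))))))), by decide +kernel⟩

def A102E_000_1_49_1 :
    ∃ t, chk3 (onCell 0 67108864 0 1073741824 818728140 40265320 (corW 3 c0B eng mog cA102E gB0q1 gB0q0 gB0q2 gB1q2 dB0q1 dB0q0 dB0q2 dB1q2 true true)) t 1 49 1 = true :=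
  ⟨(T.l 1), by decide +kernel⟩

def A102E_000_1_25_1 :
    ∃ t, chk3 (onCell 0 67108864 0 1073741824 818728140 40265320 (corW 3 c0B eng mog cA102E gB0q1 gB0q0 gB0q2 gB1q2 dB0q1 dB0q0 dB0q2 dB1q2 true true)) t 1 25 1 = true :=
  ⟨(T.l 1), by decide +kernel⟩

def A102E_000_1_13_1 :
    ∃ t, chk3 (onCell 0 67108864 0 1073741824 818728140 40265320 (corW 3 c0B eng mog cA102E gB0q1 gB0q0 gB0q2 gB1q2 dB0q1 dB0q0 dB0q2 dB1q2 true true)) t 1 13 1 = true :=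
  ⟨(T.l 1), by decide +kernel⟩

def A102E_000_1_7_1 :
    ∃ t, chk3 (onCell 0 67108864 0 1073741824 818728140 40265320 (corW 3 c0B eng mog cA102E gB0q1 gB0q0 gB0q2 gB1q2 dB0q1 dB0q0 dB0q2 dB1q2 true true)) t 1 7 1 = true :=
  ⟨(T.l 1), by decide +kernel⟩

theorem A102E_000_3_48_1 :
    ∃ t, chk3 (onCell 0 67108864 0 1073741824 818728140 40265320 (corW 3 c0B eng mog cA102E gB0q1 gB0q0 gB0q2 gB1q2 dB0q1 dB0q0 dB0q2 dB1q2 true true)) t 3 48 1 = true :=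
  ex3_a A102E_000_6_48_1 A102E_000_7_48_1
theorem A102E_000_2_96_1 :
    ∃ t, chk3 (onCell 0 67108864 0 1073741824 818728140 40265320 (corW 3 c0B eng mog cA102E gB0q1 gB0q0 gB0q2 gB1q2 dB0q1 dB0q0 dB0q2 dB1q2 true true)) t 2 96 1 = true :=
  ex3_a A102E_000_4_96_1 A102E_000_5_96_1
theorem A102E_000_2_48_1 :
    ∃ t, chk3 (onCell 0 67108864 0 1073741824 818728140 40265320 (corW 3 c0B eng mog cA102E gB0q1 gB0q0 gB0q2 gB1q2 dB0q1 dB0q0 dB0q2 dB1q2 true true)) t 2 48 1 = true :=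
  ex3_b A102E_000_2_96_1 A102E_000_2_97_1
theorem A102E_000_1_48_1 :
    ∃ t, chk3 (onCell 0 67108864 0 1073741824 818728140 40265320 (corW 3 c0B eng mog cA102E gB0q1 gB0q0 gB0q2 gB1q2 dB0q1 dB0q0 dB0q2 dB1q2 true true)) t 1 48 1 = true :=
  ex3_a A102E_000_2_48_1 A102E_000_3_48_1
theorem A102E_000_1_24_1 :
    ∃ t, chk3 (onCell 0 67108864 0 1073741824 818728140 40265320 (corW 3 c0B eng mog cA102E gB0q1 gB0q0 gB0q2 gB1q2 dB0q1 dB0q0 dB0q2 dB1q2 true true)) t 1 24 1 = true :=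
  ex3_b A102E_000_1_48_1 A102E_000_1_49_1
theorem A102E_000_1_12_1 :
    ∃ t, chk3 (onCell 0 67108864 0 1073741824 818728140 40265320 (corW 3 c0B eng mog cA102E gB0q1 gB0q0 gB0q2 gB1q2 dB0q1 dB0q0 dB0q2 dB1q2 true true)) t 1 12 1 = true :=
  ex3_b A102E_000_1_24_1 A102E_000_1_25_1
theorem A102E_000_1_6_1 :
    ∃ t, chk3 (onCell 0 67108864 0 1073741824 818728140 40265320 (corW 3 c0B eng mog cA102E gB0q1 gB0q0 gB0q2 gB1q2 dB0q1 dB0q0 dB0q2 dB1q2 true true)) t 1 6 1 = true :=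
  ex3_b A102E_000_1_12_1 A102E_000_1_13_1
theorem A102E_000_1_3_1 :
    ∃ t, chk3 (onCell 0 67108864 0 1073741824 818728140 40265320 (corW 3 c0B eng mog cA102E gB0q1 gB0q0 gB0q2 gB1q2 dB0q1 dB0q0 dB0q2 dB1q2 true true)) t 1 3 1 = true :=
  ex3_b A102E_000_1_6_1 A102E_000_1_7_1
theorem A102E_000 :
    ∃ t, chk3 (onCell 0 67108864 0 1073741824 818728140 40265320 (corW 3 c0B eng mog cA102E gB0q1 gB0q0 gB0q2 gB1q2 dB0q1 dB0q0 dB0q2 dB1q2 true true)) t 1 1 1 = true :=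
  ex3_b A102E_000_1_2_1 A102E_000_1_3_1

def A102E_001 :
    ∃ t, chk3 (onCell 0 67108864 0 1073741824 818728140 40265320 (corW 3 c0B eng mog cA102E gB0q1 gB0q0 gB1q2 gB2q2 dB0q1 dB0q0 dB1q2 dB2q2 true false)) t 1 1 1 = true :=
  ⟨(T.b (T.b (T.a (T.b (T.c (T.l 204) (T.l 204)) (T.c (T.b (T.l 204) (T.l 204)) (T.b (T.l 204) (T.l 204)))) (T.a (T.c (T.b (T.l 204) (T.l 204)) (T.b (T.l 204) (T.l 204))) (T.b (T.b (T.a (T.l 204) (T.c (T.l 204) (T.l 204))) (T.l 204)) (T.c (T.l 204) (T.l 204))))) (T.b (T.c (T.a (T.b (T.l 204) (T.l 0)) (T.b (T.l 204) (T.l 0))) (T.a (T.b (T.l 204) (T.l 0)) (T.b (T.l 204) (T.l 0)))) (T.b (T.b (T.c (T.a (T.b (T.l 0) (T.l 1)) (T.l 0)) (T.a (T.a (T.l 0) (T.l 0)) (T.l 0))) (T.l 1)) (T.l 1)))) (T.l 1)), by decide +kernel⟩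

def A102E_010 :
    ∃ t, chk3 (onCell 0 67108864 0 1073741824 818728140 40265320 (corW 3 c0B eng mog cA102E gB0q1 gB1q0 gB0q2 gB1q2 dB0q1 dB1q0 dB0q2 dB1q2 true true)) t 1 1 1 = true :=
  ⟨(T.b (T.l 2) (T.b (T.b (T.a (T.l 0) (T.b (T.l 2) (T.a (T.l 2) (T.l 2)))) (T.b (T.a (T.l 0) (T.a (T.l 204) (T.l 204))) (T.b (T.a (T.c (T.l 204) (T.a (T.l 204) (T.l 204))) (T.a (T.l 204) (T.a (T.c (T.l 204) (T.l 204)) (T.c (T.l 204) (T.l 204))))) (T.l 1)))) (T.l 1))), by decide +kernel⟩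

def A102E_011 :
    ∃ t, chk3 (onCell 0 67108864 0 1073741824 818728140 40265320 (corW 3 c0B eng mog cA102E gB0q1 gB1q0 gB1q2 gB2q2 dB0q1 dB1q0 dB1q2 dB2q2 true false)) t 1 1 1 = true :=
  ⟨(T.b (T.b (T.a (T.l 204) (T.a (T.l 204) (T.b (T.l 204) (T.l 204)))) (T.l 0)) (T.b (T.b (T.a (T.l 0) (T.a (T.l 204) (T.l 204))) (T.b (T.a (T.l 0) (T.a (T.l 0) (T.l 0))) (T.l 1))) (T.l 1))), by decide +kernel⟩

def A102R_003 :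
    ∃ t, chk3 (onCell 0 67108864 0 1073741824 818728140 40265320 (corW 3 c0B eng mog cA102R gB0q1 gB0q0 gB3q2 gB4q2 dB0q1 dB0q0 dB3q2 dB4q2 false true)) t 1 1 1 = true :=
  ⟨(T.l 2), by decide +kernel⟩

def A102R_013 :
    ∃ t, chk3 (onCell 0 67108864 0 1073741824 818728140 40265320 (corW 3 c0B eng mog cA102R gB0q1 gB1q0 gB3q2 gB4q2 dB0q1 dB1q0 dB3q2 dB4q2 false true)) t 1 1 1 = true :=
  ⟨(T.l 2), by decide +kernel⟩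

def A202E_000 :
    ∃ t, chk3 (onCell 0 67108864 0 1073741824 818728140 40265320 (corW 3 c0B eng mog cA202E gB0q2 gB0q0 gB0q2 gB1q2 dB0q2 dB0q0 dB0q2 dB1q2 true true)) t 1 1 1 = true :=
  ⟨(T.l 2), by decide +kernel⟩

def A202E_001 :
    ∃ t, chk3 (onCell 0 67108864 0 1073741824 818728140 40265320 (corW 3 c0B eng mog cA202E gB0q2 gB0q0 gB1q2 gB2q2 dB0q2 dB0q0 dB1q2 dB2q2 true false)) t 1 1 1 = true :=
  ⟨(T.b (T.a (T.b (T.b (T.c (T.l 204) (T.l 204)) (T.l 0)) (T.l 0)) (T.a (T.b (T.c (T.l 0) (T.l 0)) (T.l 0)) (T.b (T.b (T.c (T.l 204) (T.l 204)) (T.l 0)) (T.b (T.l 0) (T.b (T.l 0) (T.l 816)))))) (T.a (T.b (T.b (T.l 816) (T.l 816)) (T.a (T.b (T.l 816) (T.c (T.l 816) (T.l 816))) (T.a (T.b (T.l 816) (T.l 816)) (T.b (T.l 816) (T.a (T.l 816) (T.b (T.l 816) (T.l 816))))))) (T.b (T.a (T.b (T.l 816) (T.b (T.l 816) (T.l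 816))) (T.b (T.a (T.l 816) (T.l 816)) (T.a (T.b (T.l 816) (T.l 816)) (T.b (T.l 816) (T.l 816))))) (T.a (T.b (T.a (T.l 816) (T.b (T.l 816) (T.l 816))) (T.a (T.a (T.l 816) (T.b (T.l 816) (T.l 816))) (T.b (T.l 816) (T.b (T.l 816) (T.l 816))))) (T.b (T.a (T.b (T.l 816) (T.l 816)) (T.b (T.l 816) (T.l 816))) (T.a (T.b (T.l 816) (T.b (T.l 816) (T.l 816))) (T.b (T.l 880) (T.b (T.l 816) (T.l 816))))))))), by decide +kernel⟩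

def A202E_010 :
    ∃ t, chk3 (onCell 0 67108864 0 1073741824 818728140 40265320 (corW 3 c0B eng mog cA202E gB0q2 gB1q0 gB0q2 gB1q2 dB0q2 dB1q0 dB0q2 dB1q2 true true)) t 1 1 1 = true :=
  ⟨(T.l 2), by decide +kernel⟩

def A202E_011 :
    ∃ t, chk3 (onCell 0 67108864 0 1073741824 818728140 40265320 (corW 3 c0B eng mog cA202E gB0q2 gB1q0 gB1q2 gB2q2 dB0q2 dB1q0 dB1q2 dB2q2 true false)) t 1 1 1 = true :=
  ⟨(T.a (T.b (T.l 0) (T.b (T.l 0) (T.a (T.b (T.l 816) (T.c (T.l 816) (T.l 816))) (T.a (T.b (T.l 816) (T.l 816)) (T.b (T.l 816) (T.a (T.l 816) (T.l 816))))))) (T.b (T.a (T.l 0) (T.b (T.l 0) (T.b (T.l 0) (T.l 0)))) (T.b (T.a (T.b (T.l 816) (T.l 816)) (T.b (T.l 0) (T.b (T.l 0) (T.l 816)))) (T.a (T.b (T.a (T.l 816) (T.l 816)) (T.a (T.a (T.l 816) (T.b (T.l 816) (T.l 816))) (T.b (T.l 816) (T.b (T.l 816) (T.l 816)))))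 (T.b (T.a (T.l 816) (T.l 816)) (T.a (T.b (T.l 816) (T.b (T.l 816) (T.l 816))) (T.b (T.l 816) (T.b (T.l 816) (T.l 816))))))))), by decide +kernel⟩

def A202E_110 :
    ∃ t, chk3 (onCell 0 67108864 0 1073741824 818728140 40265320 (corW 3 c0B eng mog cA202E gB1q2 gB1q0 gB0q2 gB1q2 dB1q2 dB1q0 dB0q2 dB1q2 true true)) t 1 1 1 = true :=
  ⟨(T.l 2), by decide +kernel⟩

def A202E_111 :
    ∃ t, chk3 (onCell 0 67108864 0 1073741824 818728140 40265320 (corW 3 c0B eng mog cA202E gB1q2 gB1q0 gB1q2 gB2q2 dB1q2 dB1q0 dB1q2 dB2q2 true false)) t 1 1 1 = true :=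
  ⟨(T.a (T.b (T.l 0) (T.b (T.l 816) (T.b (T.l 816) (T.b (T.l 816) (T.c (T.l 816) (T.a (T.l 816) (T.l 816))))))) (T.b (T.b (T.l 0) (T.l 4)) (T.a (T.b (T.l 816) (T.b (T.l 816) (T.c (T.l 816) (T.l 816)))) (T.b (T.l 816) (T.b (T.l 816) (T.a (T.b (T.l 816) (T.l 816)) (T.a (T.l 816) (T.c (T.b (T.l 816) (T.l 816)) (T.l 816))))))))), by decide +kernel⟩

def A202R_003_1_4_1 :
    ∃ t, chk3 (onCell 0 67108864 0 1073741824 818728140 40265320 (corW 3 c0B eng mog cA202R gB0q2 gB0q0 gB3q2 gB4q2 dB0q2 dB0q0 dB3q2 dB4q2 false true)) t 1 4 1 = true :=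
  ⟨(T.l 2), by decide +kernel⟩

def A202R_003_1_20_1 :
    ∃ t, chk3 (onCell 0 67108864 0 1073741824 818728140 40265320 (corW 3 c0B eng mog cA202R gB0q2 gB0q0 gB3q2 gB4q2 dB0q2 dB0q0 dB3q2 dB4q2 false true)) t 1 20 1 = true :=
  ⟨(T.l 2), by decide +kernel⟩

def A202R_003_1_84_1 :
    ∃ t, chk3 (onCell 0 67108864 0 1073741824 818728140 40265320 (corW 3 c0B eng mog cA202R gB0q2 gB0q0 gB3q2 gB4q2 dB0q2 dB0q0 dB3q2 dB4q2 false true)) t 1 84 1 = true :=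
  ⟨(T.a (T.l 2) (T.b (T.l 2) (T.b (T.l 2) (T.b (T.l 2) (T.a (T.a (T.l 2) (T.a (T.l 2) (T.c (T.l 0) (T.a (T.l 2) (T.c (T.l 0) (T.a (T.l 2) (T.b (T.l 2) (T.b (T.l 2) (T.l 0))))))))) (T.c (T.l 0) (T.c (T.l 0) (T.a (T.b (T.a (T.l 2) (T.c (T.l 0) (T.a (T.l 2) (T.b (T.l 2) (T.l 0))))) (T.a (T.b (T.a (T.l 2) (T.l 0)) (T.l 0)) (T.l 0))) (T.a (T.c (T.l 0) (T.a (T.c (T.l 0) (T.b (T.b (T.l 2) (T.l 0)) (T.l 0))) (T.l 0))) (T.l 0)))))))))), by decide +kernel⟩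

def A202R_003_2_85_1 :
    ∃ t, chk3 (onCell 0 67108864 0 1073741824 818728140 40265320 (corW 3 c0B eng mog cA202R gB0q2 gB0q0 gB3q2 gB4q2 dB0q2 dB0q0 dB3q2 dB4q2 false true)) t 2 85 1 = true :=
  ⟨(T.b (T.b (T.a (T.a (T.l 2) (T.b (T.l 2) (T.c (T.l 0) (T.b (T.l 2) (T.c (T.l 0) (T.b (T.l 2) (T.c (T.l 0) (T.a (T.a (T.l 2) (T.c (T.l 0) (T.a (T.l 2) (T.b (T.l 2) (T.l 0))))) (T.a (T.b (T.l 2) (T.l 0)) (T.l 0)))))))))) (T.b (T.a (T.l 2) (T.a (T.l 2) (T.c (T.l 0) (T.b (T.l 2) (T.c (T.l 0) (T.b (T.l 2) (T.a (T.b (T.l 2) (T.l 0)) (T.l 0)))))))) (T.c (T.l 0) (T.c (T.l 0) (T.a (T.b (T.a (T.l 2) (T.b (T.l 2) (T.c (T.l 0) (T.a (T.b (T.l 2) (T.l 0)) (T.l 0))))) (T.a (T.c (T.l 0) (T.a (T.c (T.l 0) (T.a (T.c (T.l 0) (T.a (T.b (T.a (T.l 2) (T.l 0)) (T.l 0)) (T.l 0))) (T.l 0))) (T.l 0))) (T.l 0))) (T.a (T.c (T.l 0) (T.a (T.c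 (T.l 0) (T.a (T.c (T.l 0) (T.b (T.b (T.l 2) (T.l 0)) (T.l 816))) (T.l 0))) (T.l 0))) (T.l 0))))))) (T.c (T.l 0) (T.a (T.c (T.l 0) (T.b (T.a (T.b (T.a (T.a (T.l 2) (T.c (T.l 0) (T.b (T.l 2) (T.b (T.l 2) (T.l 0))))) (T.c (T.l 0) (T.b (T.a (T.l 2) (T.b (T.l 2) (T.l 0))) (T.l 0)))) (T.c (T.l 0) (T.l 0))) (T.a (T.c (T.l 0) (T.a (T.c (T.l 0) (T.l 0)) (T.l 0))) (T.l 0))) (T.l 0))) (T.l 0)))) (T.c (T.l 0) (T.a (T.a (T.l 816) (T.l 816)) (T.l 816)))), by decide +kernel⟩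

def A202R_003_3_85_1 :
    ∃ t, chk3 (onCell 0 67108864 0 1073741824 818728140 40265320 (corW 3 c0B eng mog cA202R gB0q2 gB0q0 gB3q2 gB4q2 dB0q2 dB0q0 dB3q2 dB4q2 false true)) t 3 85 1 = true :=
  ⟨(T.c (T.a (T.a (T.l 0) (T.l 0)) (T.l 0)) (T.a (T.b (T.b (T.c (T.l 0) (T.b (T.a (T.b (T.a (T.l 2) (T.c (T.l 0) (T.a (T.l 2) (T.b (T.l 2) (T.l 0))))) (T.a (T.c (T.l 0) (T.a (T.b (T.l 2) (T.l 0)) (T.l 0))) (T.l 0))) (T.a (T.c (T.l 0) (T.a (T.c (T.l 0) (T.c (T.l 0) (T.b (T.b (T.l 2) (T.l 0)) (T.l 816)))) (T.l 0))) (T.l 0))) (T.l 0))) (T.l 816)) (T.l 816)) (T.a (T.c (T.l 0) (T.l 0)) (T.l 0)))), by decide +kernel⟩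

def A202R_003_1_43_1 :
    ∃ t, chk3 (onCell 0 67108864 0 1073741824 818728140 40265320 (corW 3 c0B eng mog cA202R gB0q2 gB0q0 gB3q2 gB4q2 dB0q2 dB0q0 dB3q2 dB4q2 false true)) t 1 43 1 = true :=
  ⟨(T.a (T.c (T.l 0) (T.c (T.l 0) (T.a (T.a (T.l 816) (T.l 816)) (T.l 816)))) (T.c (T.l 816) (T.a (T.a (T.l 816) (T.l 816)) (T.l 880)))), by decide +kernel⟩

def A202R_003_1_11_1 :
    ∃ t, chk3 (onCell 0 67108864 0 1073741824 818728140 40265320 (corW 3 c0B eng mog cA202R gB0q2 gB0q0 gB3q2 gB4q2 dB0q2 dB0q0 dB3q2 dB4q2 false true)) t 1 11 1 = true :=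
  ⟨(T.a (T.b (T.c (T.a (T.l 816) (T.l 816)) (T.b (T.a (T.l 816) (T.l 816)) (T.l 816))) (T.a (T.b (T.l 816) (T.l 816)) (T.l 816))) (T.a (T.b (T.c (T.l 816) (T.l 816)) (T.l 816)) (T.b (T.c (T.l 816) (T.l 816)) (T.a (T.l 816) (T.b (T.l 816) (T.l 816)))))), by decide +kernel⟩

def A202R_003_1_3_1 :
    ∃ t, chk3 (onCell 0 67108864 0 1073741824 818728140 40265320 (corW 3 c0B eng mog cA202R gB0q2 gB0q0 gB3q2 gB4q2 dB0q2 dB0q0 dB3q2 dB4q2 false true)) t 1 3 1 = true :=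
  ⟨(T.b (T.a (T.b (T.b (T.a (T.l 816) (T.l 816)) (T.l 816)) (T.b (T.l 816) (T.l 816))) (T.a (T.b (T.b (T.l 816) (T.l 816)) (T.a (T.l 816) (T.b (T.l 816) (T.l 816)))) (T.b (T.b (T.a (T.l 816) (T.l 816)) (T.a (T.l 816) (T.b (T.l 816) (T.l 816)))) (T.a (T.b (T.l 816) (T.b (T.l 816) (T.l 816))) (T.b (T.l 880) (T.l 816)))))) (T.a (T.a (T.b (T.l 816) (T.l 816)) (T.a (T.l 816) (T.b (T.l 816) (T.b (T.l 816) (T.l 816))))) (T.a (T.a (T.b (T.b (T.l 816) (T.l 816)) (T.a (T.l 816) (T.b (T.l 816) (T.l 816)))) (T.b (T.b (T.l 816) (T.b (T.l 816) (T.l 816))) (T.b (T.b (T.l 816) (T.l 816)) (T.b (T.l 816) (T.l 816))))) (T.b (T.a (T.b (T.l 816) (T.l 816)) (T.b (T.l 816) (T.l 816))) (T.a (T.b (T.l 816) (T.l 816)) (T.b (T.l 816) (T.l 816))))))), by decide +kernel⟩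

theorem A202R_003_1_85_1 :
    ∃ t, chk3 (onCell 0 67108864 0 1073741824 818728140 40265320 (corW 3 c0B eng mog cA202R gB0q2 gB0q0 gB3q2 gB4q2 dB0q2 dB0q0 dB3q2 dB4q2 false true)) t 1 85 1 = true :=
  ex3_a A202R_003_2_85_1 A202R_003_3_85_1
theorem A202R_003_1_42_1 :
    ∃ t, chk3 (onCell 0 67108864 0 1073741824 818728140 40265320 (corW 3 c0B eng mog cA202R gB0q2 gB0q0 gB3q2 gB4q2 dB0q2 dB0q0 dB3q2 dB4q2 false true)) t 1 42 1 = true :=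
  ex3_b A202R_003_1_84_1 A202R_003_1_85_1
theorem A202R_003_1_21_1 :
    ∃ t, chk3 (onCell 0 67108864 0 1073741824 818728140 40265320 (corW 3 c0B eng mog cA202R gB0q2 gB0q0 gB3q2 gB4q2 dB0q2 dB0q0 dB3q2 dB4q2 false true)) t 1 21 1 = true :=
  ex3_b A202R_003_1_42_1 A202R_003_1_43_1
theorem A202R_003_1_10_1 :
    ∃ t, chk3 (onCell 0 67108864 0 1073741824 818728140 40265320 (corW 3 c0B eng mog cA202R gB0q2 gB0q0 gB3q2 gB4q2 dB0q2 dB0q0 dB3q2 dB4q2 false true)) t 1 10 1 = true :=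
  ex3_b A202R_003_1_20_1 A202R_003_1_21_1
theorem A202R_003_1_5_1 :
    ∃ t, chk3 (onCell 0 67108864 0 1073741824 818728140 40265320 (corW 3 c0B eng mog cA202R gB0q2 gB0q0 gB3q2 gB4q2 dB0q2 dB0q0 dB3q2 dB4q2 false true)) t 1 5 1 = true :=
  ex3_b A202R_003_1_10_1 A202R_003_1_11_1
theorem A202R_003_1_2_1 :
    ∃ t, chk3 (onCell 0 67108864 0 1073741824 818728140 40265320 (corW 3 c0B eng mog cA202R gB0q2 gB0q0 gB3q2 gB4q2 dB0q2 dB0q0 dB3q2 dB4q2 false true)) t 1 2 1 = true :=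
  ex3_b A202R_003_1_4_1 A202R_003_1_5_1
theorem A202R_003 :
    ∃ t, chk3 (onCell 0 67108864 0 1073741824 818728140 40265320 (corW 3 c0B eng mog cA202R gB0q2 gB0q0 gB3q2 gB4q2 dB0q2 dB0q0 dB3q2 dB4q2 false true)) t 1 1 1 = true :=
  ex3_b A202R_003_1_2_1 A202R_003_1_3_1

def A202R_013 :
    ∃ t, chk3 (onCell 0 67108864 0 1073741824 818728140 40265320 (corW 3 c0B eng mog cA202R gB0q2 gB1q0 gB3q2 gB4q2 dB0q2 dB1q0 dB3q2 dB4q2 false true)) t 1 1 1 = true :=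
  ⟨(T.b (T.b (T.l 2) (T.b (T.l 2) (T.a (T.l 2) (T.b (T.l 2) (T.l 0))))) (T.b (T.a (T.l 0) (T.a (T.b (T.l 0) (T.l 816)) (T.b (T.l 0) (T.b (T.l 0) (T.l 0))))) (T.a (T.a (T.l 816) (T.a (T.l 816) (T.b (T.l 816) (T.b (T.l 816) (T.l 816))))) (T.a (T.b (T.a (T.l 816) (T.l 0)) (T.a (T.a (T.l 816) (T.b (T.l 816) (T.l 816))) (T.b (T.l 816) (T.l 816)))) (T.b (T.b (T.l 0) (T.l 0)) (T.a (T.b (T.l 816) (T.l 816)) (T.b (T.l 816) (T.l 816)))))))), by decide +kernel⟩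

def A202R_113 :
    ∃ t, chk3 (onCell 0 67108864 0 1073741824 818728140 40265320 (corW 3 c0B eng mog cA202R gB1q2 gB1q0 gB3q2 gB4q2 dB1q2 dB1q0 dB3q2 dB4q2 false true)) t 1 1 1 = true :=
  ⟨(T.b (T.l 2) (T.b (T.l 0) (T.b (T.l 0) (T.a (T.l 816) (T.a (T.l 816) (T.l 0)))))), by decide +kernel⟩

def B011E_000 :
    ∃ t, chk3 (onCell 0 67108864 0 1073741824 818728140 40265320 (corW 3 c0B eng mog cB011E gB0q0 gB0q1 gB0q1 gB1q1 dB0q0 dB0q1 dB0q1 dB1q1 true false)) t 1 1 1 = true :=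
  ⟨(T.l 1), by decide +kernel⟩

def B011E_100 :
    ∃ t, chk3 (onCell 0 67108864 0 1073741824 818728140 40265320 (corW 3 c0B eng mog cB011E gB1q0 gB0q1 gB0q1 gB1q1 dB1q0 dB0q1 dB0q1 dB1q1 true false)) t 1 1 1 = true :=
  ⟨(T.l 1), by decide +kernel⟩

def B011L_020 :
    ∃ t, chk3 (onCell 0 67108864 0 1073741824 818728140 40265320 (corW 3 c0B eng mog cB011L gB0q0 gB2q1 gB0q1 gB1q1 dB0q0 dB2q1 dB0q1 dB1q1 true false)) t 1 1 1 = true :=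
  ⟨(T.l 1), by decide +kernel⟩

def B011L_030 :
    ∃ t, chk3 (onCell 0 67108864 0 1073741824 818728140 40265320 (corW 3 c0B eng mog cB011L gB0q0 gB3q1 gB0q1 gB1q1 dB0q0 dB3q1 dB0q1 dB1q1 true false)) t 1 1 1 = true :=
  ⟨(T.l 1), by decide +kernel⟩

def B011L_040 :
    ∃ t, chk3 (onCell 0 67108864 0 1073741824 818728140 40265320 (corW 3 c0B eng mog cB011L gB0q0 gB4q1 gB0q1 gB1q1 dB0q0 dB4q1 dB0q1 dB1q1 true false)) t 1 1 1 = true :=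
  ⟨(T.l 1), by decide +kernel⟩

def B011L_120 :
    ∃ t, chk3 (onCell 0 67108864 0 1073741824 818728140 40265320 (corW 3 c0B eng mog cB011L gB1q0 gB2q1 gB0q1 gB1q1 dB1q0 dB2q1 dB0q1 dB1q1 true false)) t 1 1 1 = true :=
  ⟨(T.l 1), by decide +kernel⟩

def B011L_130 :
    ∃ t, chk3 (onCell 0 67108864 0 1073741824 818728140 40265320 (corW 3 c0B eng mog cB011L gB1q0 gB3q1 gB0q1 gB1q1 dB1q0 dB3q1 dB0q1 dB1q1 true false)) t 1 1 1 = true :=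
  ⟨(T.l 1), by decide +kernel⟩

def B011L_140 :
    ∃ t, chk3 (onCell 0 67108864 0 1073741824 818728140 40265320 (corW 3 c0B eng mog cB011L gB1q0 gB4q1 gB0q1 gB1q1 dB1q0 dB4q1 dB0q1 dB1q1 true false)) t 1 1 1 = true :=
  ⟨(T.l 1), by decide +kernel⟩

def B011R_001 :
    ∃ t, chk3 (onCell 0 67108864 0 1073741824 818728140 40265320 (corW 3 c0B eng mog cB011R gB0q0 gB0q1 gB1q1 gB2q1 dB0q0 dB0q1 dB1q1 dB2q1 false true)) t 1 1 1 = true :=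
  ⟨(T.b (T.b (T.b (T.b (T.l 204) (T.l 204)) (T.l 2)) (T.l 2)) (T.l 2)), by decide +kernel⟩

def B011R_002 :
    ∃ t, chk3 (onCell 0 67108864 0 1073741824 818728140 40265320 (corW 3 c0B eng mog cB011R gB0q0 gB0q1 gB2q1 gB3q1 dB0q0 dB0q1 dB2q1 dB3q1 true true)) t 1 1 1 = true :=
  ⟨(T.b (T.b (T.b (T.b (T.l 1) (T.a (T.l 204) (T.l 204))) (T.c (T.b (T.l 204) (T.l 204)) (T.a (T.l 204) (T.l 204)))) (T.l 2)) (T.l 2)), by decide +kernel⟩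

def B011R_003_1_4_1 :
    ∃ t, chk3 (onCell 0 67108864 0 1073741824 818728140 40265320 (corW 3 c0B eng mog cB011R gB0q0 gB0q1 gB3q1 gB4q1 dB0q0 dB0q1 dB3q1 dB4q1 true true)) t 1 4 1 = true :=
  ⟨(T.b (T.l 1) (T.b (T.l 1) (T.c (T.a (T.l 204) (T.l 204)) (T.l 204)))), by decide +kernel⟩

def B011R_003_1_20_1 :
    ∃ t, chk3 (onCell 0 67108864 0 1073741824 818728140 40265320 (corW 3 c0B eng mog cB011R gB0q0 gB0q1 gB3q1 gB4q1 dB0q0 dB0q1 dB3q1 dB4q1 true true)) t 1 20 1 = true :=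
  ⟨(T.b (T.c (T.l 204) (T.l 204)) (T.c (T.b (T.l 204) (T.a (T.l 204) (T.l 204))) (T.a (T.l 204) (T.l 204)))), by decide +kernel⟩

def B011R_003_1_84_1 :
    ∃ t, chk3 (onCell 0 67108864 0 1073741824 818728140 40265320 (corW 3 c0B eng mog cB011R gB0q0 gB0q1 gB3q1 gB4q1 dB0q0 dB0q1 dB3q1 dB4q1 true true)) t 1 84 1 = true :=
  ⟨(T.a (T.c (T.c (T.a (T.l 204) (T.l 204)) (T.l 204)) (T.a (T.l 204) (T.l 204))) (T.c (T.a (T.l 204) (T.l 204)) (T.l 204))), by decide +kernel⟩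

def B011R_003_1_170_1 :
    ∃ t, chk3 (onCell 0 67108864 0 1073741824 818728140 40265320 (corW 3 c0B eng mog cB011R gB0q0 gB0q1 gB3q1 gB4q1 dB0q0 dB0q1 dB3q1 dB4q1 true true)) t 1 170 1 = true :=
  ⟨(T.a (T.b (T.a (T.c (T.l 0) (T.l 0)) (T.c (T.l 204) (T.l 204))) (T.a (T.b (T.a (T.b (T.l 0) (T.a (T.b (T.l 0) (T.a (T.a (T.l 2) (T.b (T.l 0) (T.l 2))) (T.b (T.l 0) (T.a (T.l 2) (T.c (T.l 0) (T.l 0)))))) (T.c (T.l 0) (T.l 0)))) (T.c (T.l 0) (T.l 0))) (T.a (T.a (T.l 2) (T.b (T.b (T.a (T.l 2) (T.b (T.l 0) (T.l 2))) (T.l 2)) (T.l 2))) (T.b (T.a (T.b (T.c (T.l 0) (T.l 0)) (T.a (T.l 2) (T.b (T.c (T.l 0) (T.l 0)) (T.l 2)))) (T.c (T.c (T.l 0) (T.l 0)) (T.l 0))) (T.a (T.l 2) (T.a (T.l 2) (T.a (T.l 2) (T.b (T.b (T.l 0) (T.l 2)) (T.l 2)))))))) (T.a (T.b (T.l 0) (T.b (T.l 0) (T.a (T.b (T.a (T.c (T.c (T.l 0) (T.l 0)) (T.l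 0)) (T.l 0)) (T.a (T.l 2) (T.a (T.l 2) (T.b (T.l 0) (T.l 2))))) (T.a (T.b (T.l 0) (T.b (T.l 0) (T.a (T.l 2) (T.c (T.l 0) (T.l 0))))) (T.l 0))))) (T.c (T.l 0) (T.l 0))))) (T.c (T.c (T.a (T.l 0) (T.l 204)) (T.l 0)) (T.a (T.l 0) (T.l 204)))), by decide +kernel⟩

def B011R_003_1_171_1 :
    ∃ t, chk3 (onCell 0 67108864 0 1073741824 818728140 40265320 (corW 3 c0B eng mog cB011R gB0q0 gB0q1 gB3q1 gB4q1 dB0q0 dB0q1 dB3q1 dB4q1 true true)) t 1 171 1 = true :=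
  ⟨(T.a (T.a (T.l 2) (T.b (T.b (T.a (T.l 2) (T.b (T.a (T.b (T.c (T.a (T.b (T.l 0) (T.l 2)) (T.l 0)) (T.c (T.c (T.a (T.c (T.l 0) (T.l 0)) (T.l 0)) (T.l 0)) (T.l 0))) (T.l 2)) (T.b (T.l 0) (T.a (T.b (T.c (T.l 0) (T.l 0)) (T.l 2)) (T.c (T.l 0) (T.l 0))))) (T.l 2))) (T.l 2)) (T.l 2))) (T.b (T.a (T.b (T.a (T.b (T.c (T.l 0) (T.l 0)) (T.a (T.b (T.a (T.a (T.l 2) (T.b (T.l 0) (T.l 2))) (T.c (T.c (T.c (T.l 0) (T.l 0)) (T.l 0)) (T.l 0))) (T.l 2)) (T.b (T.c (T.l 0) (T.l 0)) (T.b (T.c (T.c (T.a (T.a (T.l 2) (T.l 0)) (T.l 0)) (T.l 0)) (T.l 0)) (T.l 2))))) (T.c (T.c (T.l 0) (T.l 0)) (T.l 0))) (T.a (T.l 2) (T.b (T.a (T.a (T.l 2) (T.b (T.b (T.l 0) (T.l 2)) (T.l 2))) (T.b (T.c (T.l 0) (T.l 0)) (T.a (T.l 2) (T.b (T.c (T.l 0) (T.l 0)) (T.l 2))))) (T.l 2)))) (T.b (T.c (T.l 0) (T.l 0)) (T.a (T.b (T.c (T.c (T.a (T.c (T.l 0) (T.l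 0)) (T.l 0)) (T.l 0)) (T.l 0)) (T.b (T.a (T.a (T.l 2) (T.a (T.l 2) (T.b (T.l 0) (T.l 2)))) (T.c (T.c (T.c (T.a (T.b (T.l 0) (T.l 2)) (T.l 0)) (T.l 0)) (T.l 0)) (T.l 0))) (T.l 2))) (T.b (T.l 0) (T.a (T.b (T.l 0) (T.c (T.a (T.b (T.l 0) (T.l 2)) (T.l 0)) (T.l 0))) (T.l 0)))))) (T.a (T.l 2) (T.a (T.l 2) (T.a (T.l 2) (T.b (T.b (T.b (T.c (T.a (T.b (T.l 0) (T.l 2)) (T.l 0)) (T.c (T.l 0) (T.l 0))) (T.l 2)) (T.l 2)) (T.l 2))))))), by decide +kernel⟩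

def B011R_003_1_43_1 :
    ∃ t, chk3 (onCell 0 67108864 0 1073741824 818728140 40265320 (corW 3 c0B eng mog cB011R gB0q0 gB0q1 gB3q1 gB4q1 dB0q0 dB0q1 dB3q1 dB4q1 true true)) t 1 43 1 = true :=
  ⟨(T.l 2), by decide +kernel⟩

def B011R_003_1_11_1 :
    ∃ t, chk3 (onCell 0 67108864 0 1073741824 818728140 40265320 (corW 3 c0B eng mog cB011R gB0q0 gB0q1 gB3q1 gB4q1 dB0q0 dB0q1 dB3q1 dB4q1 true true)) t 1 11 1 = true :=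
  ⟨(T.l 2), by decide +kernel⟩

def B011R_003_1_3_1 :
    ∃ t, chk3 (onCell 0 67108864 0 1073741824 818728140 40265320 (corW 3 c0B eng mog cB011R gB0q0 gB0q1 gB3q1 gB4q1 dB0q0 dB0q1 dB3q1 dB4q1 true true)) t 1 3 1 = true :=
  ⟨(T.l 2), by decide +kernel⟩

theorem B011R_003_1_85_1 :
    ∃ t, chk3 (onCell 0 67108864 0 1073741824 818728140 40265320 (corW 3 c0B eng mog cB011R gB0q0 gB0q1 gB3q1 gB4q1 dB0q0 dB0q1 dB3q1 dB4q1 true true)) t 1 85 1 = true :=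
  ex3_b B011R_003_1_170_1 B011R_003_1_171_1
theorem B011R_003_1_42_1 :
    ∃ t, chk3 (onCell 0 67108864 0 1073741824 818728140 40265320 (corW 3 c0B eng mog cB011R gB0q0 gB0q1 gB3q1 gB4q1 dB0q0 dB0q1 dB3q1 dB4q1 true true)) t 1 42 1 = true :=
  ex3_b B011R_003_1_84_1 B011R_003_1_85_1
theorem B011R_003_1_21_1 :
    ∃ t, chk3 (onCell 0 67108864 0 1073741824 818728140 40265320 (corW 3 c0B eng mog cB011R gB0q0 gB0q1 gB3q1 gB4q1 dB0q0 dB0q1 dB3q1 dB4q1 true true)) t 1 21 1 = true :=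
  ex3_b B011R_003_1_42_1 B011R_003_1_43_1
theorem B011R_003_1_10_1 :
    ∃ t, chk3 (onCell 0 67108864 0 1073741824 818728140 40265320 (corW 3 c0B eng mog cB011R gB0q0 gB0q1 gB3q1 gB4q1 dB0q0 dB0q1 dB3q1 dB4q1 true true)) t 1 10 1 = true :=
  ex3_b B011R_003_1_20_1 B011R_003_1_21_1
theorem B011R_003_1_5_1 :
    ∃ t, chk3 (onCell 0 67108864 0 1073741824 818728140 40265320 (corW 3 c0B eng mog cB011R gB0q0 gB0q1 gB3q1 gB4q1 dB0q0 dB0q1 dB3q1 dB4q1 true true)) t 1 5 1 = true :=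
  ex3_b B011R_003_1_10_1 B011R_003_1_11_1
theorem B011R_003_1_2_1 :
    ∃ t, chk3 (onCell 0 67108864 0 1073741824 818728140 40265320 (corW 3 c0B eng mog cB011R gB0q0 gB0q1 gB3q1 gB4q1 dB0q0 dB0q1 dB3q1 dB4q1 true true)) t 1 2 1 = true :=
  ex3_b B011R_003_1_4_1 B011R_003_1_5_1
theorem B011R_003 :
    ∃ t, chk3 (onCell 0 67108864 0 1073741824 818728140 40265320 (corW 3 c0B eng mog cB011R gB0q0 gB0q1 gB3q1 gB4q1 dB0q0 dB0q1 dB3q1 dB4q1 true true)) t 1 1 1 = true :=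
  ex3_b B011R_003_1_2_1 B011R_003_1_3_1

def B011R_101 :
    ∃ t, chk3 (onCell 0 67108864 0 1073741824 818728140 40265320 (corW 3 c0B eng mog cB011R gB1q0 gB0q1 gB1q1 gB2q1 dB1q0 dB0q1 dB1q1 dB2q1 false true)) t 1 1 1 = true :=
  ⟨(T.l 2), by decide +kernel⟩

def B011R_102 :
    ∃ t, chk3 (onCell 0 67108864 0 1073741824 818728140 40265320 (corW 3 c0B eng mog cB011R gB1q0 gB0q1 gB2q1 gB3q1 dB1q0 dB0q1 dB2q1 dB3q1 true true)) t 1 1 1 = true :=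
  ⟨(T.l 2), by decide +kernel⟩

def B011R_103 :
    ∃ t, chk3 (onCell 0 67108864 0 1073741824 818728140 40265320 (corW 3 c0B eng mog cB011R gB1q0 gB0q1 gB3q1 gB4q1 dB1q0 dB0q1 dB3q1 dB4q1 true true)) t 1 1 1 = true :=
  ⟨(T.b (T.l 2) (T.l 2)), by decide +kernel⟩

def B012E_000_1_4_1 :
    ∃ t, chk3 (onCell 0 67108864 0 1073741824 818728140 40265320 (corW 3 c0B eng mog cB012E gB0q0 gB0q2 gB0q1 gB1q1 dB0q0 dB0q2 dB0q1 dB1q1 true false)) t 1 4 1 = true :=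
  ⟨(T.l 1), by decide +kernel⟩

def B012E_000_1_10_1 :
    ∃ t, chk3 (onCell 0 67108864 0 1073741824 818728140 40265320 (corW 3 c0B eng mog cB012E gB0q0 gB0q2 gB0q1 gB1q1 dB0q0 dB0q2 dB0q1 dB1q1 true false)) t 1 10 1 = true :=
  ⟨(T.l 1), by decide +kernel⟩

def B012E_000_1_22_1 :
    ∃ t, chk3 (onCell 0 67108864 0 1073741824 818728140 40265320 (corW 3 c0B eng mog cB012E gB0q0 gB0q2 gB0q1 gB1q1 dB0q0 dB0q2 dB0q1 dB1q1 true false)) t 1 22 1 = true :=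
  ⟨(T.l 1), by decide +kernel⟩

def B012E_000_1_46_1 :
    ∃ t, chk3 (onCell 0 67108864 0 1073741824 818728140 40265320 (corW 3 c0B eng mog cB012E gB0q0 gB0q2 gB0q1 gB1q1 dB0q0 dB0q2 dB0q1 dB1q1 true false)) t 1 46 1 = true :=
  ⟨(T.l 1), by decide +kernel⟩

def B012E_000_2_94_1 :
    ∃ t, chk3 (onCell 0 67108864 0 1073741824 818728140 40265320 (corW 3 c0B eng mog cB012E gB0q0 gB0q2 gB0q1 gB1q1 dB0q0 dB0q2 dB0q1 dB1q1 true false)) t 2 94 1 = true :=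
  ⟨(T.l 1), by decide +kernel⟩

def B012E_000_4_95_1 :
    ∃ t, chk3 (onCell 0 67108864 0 1073741824 818728140 40265320 (corW 3 c0B eng mog cB012E gB0q0 gB0q2 gB0q1 gB1q1 dB0q0 dB0q2 dB0q1 dB1q1 true false)) t 4 95 1 = true :=
  ⟨(T.b (T.l 1) (T.c (T.a (T.b (T.l 1) (T.c (T.a (T.b (T.l 1) (T.c (T.c (T.b (T.a (T.l 1) (T.b (T.a (T.l 1) (T.l 0)) (T.l 0))) (T.a (T.a (T.b (T.l 1) (T.l 0)) (T.l 0)) (T.l 0))) (T.a (T.l 0) (T.l 0))) (T.l 0))) (T.b (T.c (T.b (T.a (T.l 1) (T.c (T.a (T.l 1) (T.b (T.l 1) (T.l 0))) (T.l 0))) (T.a (T.b (T.l 1) (T.a (T.l 1) (T.l 0))) (T.l 0))) (T.l 0)) (T.l 0))) (T.l 0))) (T.c (T.b (T.b (T.a (T.l 1) (T.a (T.l 1) (T.c (T.a (T.l 1) (T.a (T.l 1) (T.b (T.l 1) (T.b (T.l 1) (T.l 0))))) (T.l 0)))) (T.c (T.a (T.a (T.l 1) (T.b (T.l 1) (T.b (T.a (T.l 1) (T.l 0)) (T.l 0)))) (T.a (T.c (T.b (T.b (T.l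 1) (T.l 0)) (T.l 0)) (T.l 0)) (T.l 0))) (T.a (T.a (T.l 1) (T.l 0)) (T.l 0)))) (T.a (T.c (T.a (T.c (T.a (T.b (T.c (T.l 0) (T.l 0)) (T.l 204)) (T.l 0)) (T.l 0)) (T.l 0)) (T.l 0)) (T.l 0))) (T.a (T.c (T.a (T.b (T.l 1) (T.l 0)) (T.l 0)) (T.l 0)) (T.l 0)))) (T.a (T.c (T.l 0) (T.l 0)) (T.l 0)))), by decide +kernel⟩

def B012E_000_5_95_1 :
    ∃ t, chk3 (onCell 0 67108864 0 1073741824 818728140 40265320 (corW 3 c0B eng mog cB012E gB0q0 gB0q2 gB0q1 gB1q1 dB0q0 dB0q2 dB0q1 dB1q1 true false)) t 5 95 1 = true :=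
  ⟨(T.b (T.b (T.a (T.l 1) (T.c (T.a (T.l 1) (T.a (T.l 1) (T.c (T.a (T.l 1) (T.b (T.l 1) (T.c (T.a (T.l 1) (T.b (T.l 1) (T.b (T.l 1) (T.l 0)))) (T.l 0)))) (T.l 0)))) (T.l 0))) (T.c (T.a (T.a (T.l 1) (T.b (T.l 1) (T.c (T.c (T.b (T.a (T.l 1) (T.c (T.a (T.l 1) (T.b (T.l 1) (T.l 0))) (T.l 0))) (T.a (T.b (T.l 1) (T.l 0)) (T.l 0))) (T.l 0)) (T.l 0)))) (T.c (T.c (T.b (T.a (T.a (T.l 1) (T.b (T.l 1) (T.b (T.a (T.l 1) (T.l 0)) (T.l 0)))) (T.a (T.c (T.b (T.b (T.l 1) (T.l 0)) (T.l 0)) (T.l 0)) (T.l 0))) (T.a (T.a (T.c (T.l 0) (T.l 0)) (T.l 0)) (T.l 0))) (T.a (T.l 0) (T.l 0))) (T.l 0))) (T.l 0))) (T.c (T.a (T.b (T.a (T.b (T.c (T.c (T.c (T.b (T.a (T.l 1) (T.b (T.a (T.l 1) (T.l 0)) (T.l 0))) (T.a (T.l 0) (T.l 0))) (T.l 0)) (T.l 0)) (T.l 0)) (T.l 0)) (T.l 0)) (T.l 0)) (T.l 0)) (T.l 0))), by decide +kernel⟩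

def B012E_000_6_47_1 :
    ∃ t, chk3 (onCell 0 67108864 0 1073741824 818728140 40265320 (corW 3 c0B eng mog cB012E gB0q0 gB0q2 gB0q1 gB1q1 dB0q0 dB0q2 dB0q1 dB1q1 true false)) t 6 47 1 = true :=
  ⟨(T.b (T.b (T.l 1) (T.a (T.l 1) (T.b (T.l 1) (T.c (T.b (T.a (T.l 1) (T.c (T.a (T.l 1) (T.c (T.a (T.l 1) (T.a (T.l 1) (T.b (T.l 1) (T.a (T.l 1) (T.l 0))))) (T.l 0))) (T.l 0))) (T.c (T.c (T.a (T.a (T.l 1) (T.b (T.l 1) (T.b (T.a (T.l 1) (T.l 0)) (T.l 0)))) (T.a (T.c (T.b (T.b (T.l 1) (T.l 0)) (T.l 0)) (T.l 0)) (T.l 0))) (T.a (T.l 0) (T.l 0))) (T.l 0))) (T.l 0))))) (T.c (T.b (T.c (T.b (T.a (T.a (T.b (T.l 1) (T.c (T.c (T.b (T.a (T.l 1) (T.b (T.a (T.l 1) (T.l 0)) (T.l 0))) (T.l 0)) (T.l 0)) (T.l 0))) (T.b (T.c (T.b (T.a (T.l 1) (T.c (T.a (T.l 1) (T.b (T.l 1) (T.l 0))) (T.l 0))) (T.a (T.b (T.l 1) (T.l 0)) (T.l 0))) (T.l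 0)) (T.l 0))) (T.a (T.c (T.a (T.l 0) (T.l 0)) (T.l 0)) (T.l 0))) (T.l 0)) (T.l 0)) (T.l 0)) (T.l 0))), by decide +kernel⟩

def B012E_000_7_47_1 :
    ∃ t, chk3 (onCell 0 67108864 0 1073741824 818728140 40265320 (corW 3 c0B eng mog cB012E gB0q0 gB0q2 gB0q1 gB1q1 dB0q0 dB0q2 dB0q1 dB1q1 true false)) t 7 47 1 = true :=
  ⟨(T.b (T.b (T.a (T.l 1) (T.a (T.l 1) (T.a (T.l 1) (T.b (T.l 1) (T.c (T.c (T.a (T.l 1) (T.b (T.l 1) (T.c (T.a (T.l 1) (T.c (T.b (T.l 1) (T.a (T.l 1) (T.l 0))) (T.l 0))) (T.l 0)))) (T.l 0)) (T.l 0)))))) (T.c (T.a (T.a (T.b (T.l 1) (T.c (T.b (T.c (T.c (T.b (T.a (T.l 1) (T.b (T.a (T.l 1) (T.l 0)) (T.l 0))) (T.l 0)) (T.l 0)) (T.l 0)) (T.l 0)) (T.l 0))) (T.c (T.b (T.b (T.l 1) (T.c (T.b (T.a (T.l 1) (T.c (T.a (T.l 1) (T.b (T.l 1) (T.l 0))) (T.l 0))) (T.a (T.b (T.l 1) (T.l 0)) (T.l 0))) (T.l 0))) (T.l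 0)) (T.l 0))) (T.b (T.c (T.c (T.b (T.a (T.a (T.l 1) (T.b (T.l 1) (T.b (T.a (T.l 1) (T.l 0)) (T.l 0)))) (T.a (T.c (T.b (T.a (T.l 1) (T.l 0)) (T.l 0)) (T.l 0)) (T.l 0))) (T.a (T.l 0) (T.l 0))) (T.a (T.l 0) (T.l 0))) (T.l 0)) (T.l 0))) (T.l 0))) (T.c (T.a (T.l 0) (T.a (T.l 0) (T.c (T.l 0) (T.l 0)))) (T.a (T.l 0) (T.l 0)))), by decide +kernel⟩

def B012E_000_1_3_1 :
    ∃ t, chk3 (onCell 0 67108864 0 1073741824 818728140 40265320 (corW 3 c0B eng mog cB012E gB0q0 gB0q2 gB0q1 gB1q1 dB0q0 dB0q2 dB0q1 dB1q1 true false)) t 1 3 1 = true :=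
  ⟨(T.a (T.b (T.b (T.b (T.c (T.b (T.a (T.b (T.a (T.c (T.l 0) (T.l 0)) (T.l 0)) (T.l 0)) (T.b (T.a (T.l 0) (T.l 0)) (T.l 0))) (T.a (T.l 0) (T.l 0))) (T.a (T.l 0) (T.l 0))) (T.c (T.a (T.b (T.l 0) (T.l 204)) (T.l 0)) (T.l 0))) (T.b (T.c (T.a (T.l 0) (T.l 0)) (T.l 0)) (T.a (T.l 0) (T.l 0)))) (T.b (T.c (T.b (T.l 0) (T.l 204)) (T.l 0)) (T.b (T.l 0) (T.a (T.l 204) (T.a (T.l 204) (T.b (T.l 204) (T.l 204))))))) (T.b (T.a (T.b (T.c (T.b (T.b (T.a (T.l 0) (T.l 0)) (T.l 0)) (T.l 0)) (T.b (T.l 0) (T.l 0))) (T.a (T.b (T.l 0) (T.l 0)) (T.b (T.b (T.l 0) (T.l 0)) (T.b (T.l 0) (T.l 204))))) (T.b (T.b (T.a (T.c (T.b (T.l 0) (T.l 0)) (T.l 0)) (T.c (T.b (T.a (T.l 0) (T.b (T.l 0) (T.l 0))) (T.b (T.l 0) (T.l 0))) (T.l 0))) (T.a (T.c (T.b (T.l 0) (T.l 204)) (T.l 0)) (T.b (T.c (T.l 0) (T.l 0)) (T.a (T.l 0) (T.l 0))))) (T.a (T.b (T.b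 (T.l 0) (T.l 0)) (T.a (T.l 0) (T.b (T.l 0) (T.l 0)))) (T.b (T.c (T.b (T.b (T.l 0) (T.l 0)) (T.l 0)) (T.l 256)) (T.b (T.c (T.l 0) (T.l 0)) (T.l 256)))))) (T.a (T.a (T.b (T.a (T.l 0) (T.b (T.l 0) (T.l 204))) (T.a (T.b (T.l 204) (T.l 204)) (T.b (T.l 204) (T.l 0)))) (T.b (T.b (T.b (T.l 204) (T.l 204)) (T.a (T.l 204) (T.l 0))) (T.b (T.a (T.l 0) (T.l 0)) (T.b (T.l 256) (T.l 0))))) (T.b (T.a (T.b (T.a (T.l 256) (T.l 0)) (T.b (T.l 256) (T.l 0))) (T.b (T.b (T.l 0) (T.l 0)) (T.b (T.l 0) (T.l 0)))) (T.a (T.b (T.b (T.l 0) (T.l 0)) (T.b (T.l 0) (T.l 0))) (T.b (T.b (T.l 0) (T.l 0)) (T.b (T.l 0) (T.l 0)))))))), by decide +kernel⟩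

theorem B012E_000_3_47_1 :
    ∃ t, chk3 (onCell 0 67108864 0 1073741824 818728140 40265320 (corW 3 c0B eng mog cB012E gB0q0 gB0q2 gB0q1 gB1q1 dB0q0 dB0q2 dB0q1 dB1q1 true false)) t 3 47 1 = true :=
  ex3_a B012E_000_6_47_1 B012E_000_7_47_1
theorem B012E_000_2_95_1 :
    ∃ t, chk3 (onCell 0 67108864 0 1073741824 818728140 40265320 (corW 3 c0B eng mog cB012E gB0q0 gB0q2 gB0q1 gB1q1 dB0q0 dB0q2 dB0q1 dB1q1 true false)) t 2 95 1 = true :=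
  ex3_a B012E_000_4_95_1 B012E_000_5_95_1
theorem B012E_000_2_47_1 :
    ∃ t, chk3 (onCell 0 67108864 0 1073741824 818728140 40265320 (corW 3 c0B eng mog cB012E gB0q0 gB0q2 gB0q1 gB1q1 dB0q0 dB0q2 dB0q1 dB1q1 true false)) t 2 47 1 = true :=
  ex3_b B012E_000_2_94_1 B012E_000_2_95_1
theorem B012E_000_1_47_1 :
    ∃ t, chk3 (onCell 0 67108864 0 1073741824 818728140 40265320 (corW 3 c0B eng mog cB012E gB0q0 gB0q2 gB0q1 gB1q1 dB0q0 dB0q2 dB0q1 dB1q1 true false)) t 1 47 1 = true :=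
  ex3_a B012E_000_2_47_1 B012E_000_3_47_1
theorem B012E_000_1_23_1 :
    ∃ t, chk3 (onCell 0 67108864 0 1073741824 818728140 40265320 (corW 3 c0B eng mog cB012E gB0q0 gB0q2 gB0q1 gB1q1 dB0q0 dB0q2 dB0q1 dB1q1 true false)) t 1 23 1 = true :=
  ex3_b B012E_000_1_46_1 B012E_000_1_47_1
theorem B012E_000_1_11_1 :
    ∃ t, chk3 (onCell 0 67108864 0 1073741824 818728140 40265320 (corW 3 c0B eng mog cB012E gB0q0 gB0q2 gB0q1 gB1q1 dB0q0 dB0q2 dB0q1 dB1q1 true false)) t 1 11 1 = true :=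
  ex3_b B012E_000_1_22_1 B012E_000_1_23_1
theorem B012E_000_1_5_1 :
    ∃ t, chk3 (onCell 0 67108864 0 1073741824 818728140 40265320 (corW 3 c0B eng mog cB012E gB0q0 gB0q2 gB0q1 gB1q1 dB0q0 dB0q2 dB0q1 dB1q1 true false)) t 1 5 1 = true :=
  ex3_b B012E_000_1_10_1 B012E_000_1_11_1
theorem B012E_000_1_2_1 :
    ∃ t, chk3 (onCell 0 67108864 0 1073741824 818728140 40265320 (corW 3 c0B eng mog cB012E gB0q0 gB0q2 gB0q1 gB1q1 dB0q0 dB0q2 dB0q1 dB1q1 true false)) t 1 2 1 = true :=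
  ex3_b B012E_000_1_4_1 B012E_000_1_5_1
theorem B012E_000 :
    ∃ t, chk3 (onCell 0 67108864 0 1073741824 818728140 40265320 (corW 3 c0B eng mog cB012E gB0q0 gB0q2 gB0q1 gB1q1 dB0q0 dB0q2 dB0q1 dB1q1 true false)) t 1 1 1 = true :=
  ex3_b B012E_000_1_2_1 B012E_000_1_3_1

def B012E_010 :
    ∃ t, chk3 (onCell 0 67108864 0 1073741824 818728140 40265320 (corW 3 c0B eng mog cB012E gB0q0 gB1q2 gB0q1 gB1q1 dB0q0 dB1q2 dB0q1 dB1q1 true false)) t 1 1 1 = true :=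
  ⟨(T.b (T.l 1) (T.b (T.b (T.b (T.l 1) (T.c (T.a (T.l 0) (T.l 0)) (T.l 0))) (T.a (T.c (T.l 0) (T.l 0)) (T.b (T.l 0) (T.l 0)))) (T.b (T.a (T.b (T.l 0) (T.l 0)) (T.l 0)) (T.a (T.l 0) (T.a (T.l 0) (T.a (T.l 0) (T.b (T.l 0) (T.l 0)))))))), by decide +kernel⟩

def B012E_100 :
    ∃ t, chk3 (onCell 0 67108864 0 1073741824 818728140 40265320 (corW 3 c0B eng mog cB012E gB1q0 gB0q2 gB0q1 gB1q1 dB1q0 dB0q2 dB0q1 dB1q1 true false)) t 1 1 1 = true :=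
  ⟨(T.b (T.b (T.l 1) (T.b (T.a (T.b (T.b (T.l 1) (T.c (T.l 816) (T.a (T.l 816) (T.l 816)))) (T.l 0)) (T.b (T.b (T.l 1) (T.a (T.l 816) (T.b (T.a (T.l 824) (T.c (T.l 816) (T.l 816))) (T.l 8)))) (T.a (T.l 816) (T.l 816)))) (T.a (T.l 0) (T.a (T.l 816) (T.l 816))))) (T.a (T.b (T.l 0) (T.b (T.l 0) (T.a (T.l 0) (T.l 0)))) (T.b (T.a (T.b (T.l 816) (T.l 0)) (T.b (T.l 0) (T.l 0))) (T.a (T.b (T.l 0) (T.l 0)) (T.b (T.l 0) (T.l 0)))))), by decide +kernel⟩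

def B012E_110 :
    ∃ t, chk3 (onCell 0 67108864 0 1073741824 818728140 40265320 (corW 3 c0B eng mog cB012E gB1q0 gB1q2 gB0q1 gB1q1 dB1q0 dB1q2 dB0q1 dB1q1 true false)) t 1 1 1 = true :=
  ⟨(T.b (T.b (T.l 1) (T.b (T.b (T.l 1) (T.a (T.l 0) (T.a (T.l 816) (T.l 816)))) (T.a (T.l 0) (T.a (T.l 816) (T.l 816))))) (T.b (T.l 0) (T.a (T.l 0) (T.a (T.l 0) (T.l 0))))), by decide +kernel⟩

def B012L_040 :
    ∃ t, chk3 (onCell 0 67108864 0 1073741824 818728140 40265320 (corW 3 c0B eng mog cB012L gB0q0 gB4q2 gB0q1 gB1q1 dB0q0 dB4q2 dB0q1 dB1q1 true false)) t 1 1 1 = true :=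
  ⟨(T.l 1), by decide +kernel⟩

def B012L_140 :
    ∃ t, chk3 (onCell 0 67108864 0 1073741824 818728140 40265320 (corW 3 c0B eng mog cB012L gB1q0 gB4q2 gB0q1 gB1q1 dB1q0 dB4q2 dB0q1 dB1q1 true false)) t 1 1 1 = true :=
  ⟨(T.l 1), by decide +kernel⟩

def B012R_001 :
    ∃ t, chk3 (onCell 0 67108864 0 1073741824 818728140 40265320 (corW 3 c0B eng mog cB012R gB0q0 gB0q2 gB1q1 gB2q1 dB0q0 dB0q2 dB1q1 dB2q1 false true)) t 1 1 1 = true :=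
  ⟨(T.b (T.b (T.b (T.c (T.l 220) (T.l 204)) (T.l 0)) (T.a (T.l 0) (T.b (T.l 0) (T.a (T.l 816) (T.l 0))))) (T.b (T.a (T.l 816) (T.a (T.b (T.l 816) (T.b (T.l 816) (T.l 816))) (T.b (T.b (T.l 816) (T.l 816)) (T.b (T.l 816) (T.l 816))))) (T.a (T.a (T.l 816) (T.a (T.l 816) (T.b (T.l 816) (T.l 816)))) (T.a (T.a (T.b (T.l 816) (T.b (T.l 816) (T.l 816))) (T.b (T.b (T.l 816) (T.l 816)) (T.b (T.l 816) (T.l 816)))) (T.b (T.a (T.l 816) (T.l 816)) (T.a (T.l 820) (T.l 820))))))), by decide +kernel⟩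

def B012R_002 :
    ∃ t, chk3 (onCell 0 67108864 0 1073741824 818728140 40265320 (corW 3 c0B eng mog cB012R gB0q0 gB0q2 gB2q1 gB3q1 dB0q0 dB0q2 dB2q1 dB3q1 true true)) t 1 1 1 = true :=
  ⟨(T.b (T.l 1) (T.l 1)), by decide +kernel⟩

def B012R_003 :
    ∃ t, chk3 (onCell 0 67108864 0 1073741824 818728140 40265320 (corW 3 c0B eng mog cB012R gB0q0 gB0q2 gB3q1 gB4q1 dB0q0 dB0q2 dB3q1 dB4q1 true true)) t 1 1 1 = true :=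
  ⟨(T.b (T.l 1) (T.l 1)), by decide +kernel⟩

def B012R_011 :
    ∃ t, chk3 (onCell 0 67108864 0 1073741824 818728140 40265320 (corW 3 c0B eng mog cB012R gB0q0 gB1q2 gB1q1 gB2q1 dB0q0 dB1q2 dB1q1 dB2q1 false true)) t 1 1 1 = true :=
  ⟨(T.b (T.b (T.b (T.b (T.l 204) (T.l 204)) (T.l 0)) (T.l 0)) (T.b (T.l 816) (T.a (T.l 816) (T.a (T.l 816) (T.b (T.l 816) (T.b (T.l 816) (T.l 816))))))), by decide +kernel⟩

def B012R_012 :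
    ∃ t, chk3 (onCell 0 67108864 0 1073741824 818728140 40265320 (corW 3 c0B eng mog cB012R gB0q0 gB1q2 gB2q1 gB3q1 dB0q0 dB1q2 dB2q1 dB3q1 true true)) t 1 1 1 = true :=
  ⟨(T.b (T.l 1) (T.l 1)), by decide +kernel⟩

def B012R_013 :
    ∃ t, chk3 (onCell 0 67108864 0 1073741824 818728140 40265320 (corW 3 c0B eng mog cB012R gB0q0 gB1q2 gB3q1 gB4q1 dB0q0 dB1q2 dB3q1 dB4q1 true true)) t 1 1 1 = true :=
  ⟨(T.l 1), by decide +kernel⟩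

def B012R_101 :
    ∃ t, chk3 (onCell 0 67108864 0 1073741824 818728140 40265320 (corW 3 c0B eng mog cB012R gB1q0 gB0q2 gB1q1 gB2q1 dB1q0 dB0q2 dB1q1 dB2q1 false true)) t 1 1 1 = true :=
  ⟨(T.b (T.b (T.l 2) (T.b (T.l 816) (T.a (T.l 816) (T.l 816)))) (T.b (T.a (T.l 816) (T.a (T.l 816) (T.b (T.l 816) (T.l 816)))) (T.b (T.a (T.l 816) (T.a (T.l 816) (T.l 816))) (T.a (T.a (T.l 816) (T.l 816)) (T.a (T.l 816) (T.l 816)))))), by decide +kernel⟩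

def B012R_102 :
    ∃ t, chk3 (onCell 0 67108864 0 1073741824 818728140 40265320 (corW 3 c0B eng mog cB012R gB1q0 gB0q2 gB2q1 gB3q1 dB1q0 dB0q2 dB2q1 dB3q1 true true)) t 1 1 1 = true :=
  ⟨(T.b (T.b (T.l 816) (T.b (T.l 816) (T.l 1))) (T.l 1)), by decide +kernel⟩

def B012R_103 :
    ∃ t, chk3 (onCell 0 67108864 0 1073741824 818728140 40265320 (corW 3 c0B eng mog cB012R gB1q0 gB0q2 gB3q1 gB4q1 dB1q0 dB0q2 dB3q1 dB4q1 true true)) t 1 1 1 = true :=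
  ⟨(T.b (T.b (T.l 0) (T.b (T.l 816) (T.l 1))) (T.l 1)), by decide +kernel⟩

def B012R_111 :
    ∃ t, chk3 (onCell 0 67108864 0 1073741824 818728140 40265320 (corW 3 c0B eng mog cB012R gB1q0 gB1q2 gB1q1 gB2q1 dB1q0 dB1q2 dB1q1 dB2q1 false true)) t 1 1 1 = true :=
  ⟨(T.b (T.l 0) (T.b (T.l 816) (T.a (T.l 816) (T.a (T.l 816) (T.l 816))))), by decide +kernel⟩

def B012R_112 :
    ∃ t, chk3 (onCell 0 67108864 0 1073741824 818728140 40265320 (corW 3 c0B eng mog cB012R gB1q0 gB1q2 gB2q1 gB3q1 dB1q0 dB1q2 dB2q1 dB3q1 true true)) t 1 1 1 = true :=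
  ⟨(T.b (T.l 0) (T.b (T.l 816) (T.l 1))), by decide +kernel⟩

def B012R_113 :
    ∃ t, chk3 (onCell 0 67108864 0 1073741824 818728140 40265320 (corW 3 c0B eng mog cB012R gB1q0 gB1q2 gB3q1 gB4q1 dB1q0 dB1q2 dB3q1 dB4q1 true true)) t 1 1 1 = true :=
  ⟨(T.b (T.l 0) (T.b (T.l 816) (T.l 1))), by decide +kernel⟩

def B022E_000 :
    ∃ t, chk3 (onCell 0 67108864 0 1073741824 818728140 40265320 (corW 3 c0B eng mog cB022E gB0q0 gB0q2 gB0q2 gB1q2 dB0q0 dB0q2 dB0q2 dB1q2 true true)) t 1 1 1 = true :=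
  ⟨(T.l 2), by decide +kernel⟩

def B022E_001 :
    ∃ t, chk3 (onCell 0 67108864 0 1073741824 818728140 40265320 (corW 3 c0B eng mog cB022E gB0q0 gB0q2 gB1q2 gB2q2 dB0q0 dB0q2 dB1q2 dB2q2 true false)) t 1 1 1 = true :=
  ⟨(T.b (T.a (T.a (T.b (T.b (T.c (T.l 204) (T.l 204)) (T.l 204)) (T.l 0)) (T.a (T.b (T.b (T.l 204) (T.l 204)) (T.l 0)) (T.b (T.c (T.l 204) (T.l 204)) (T.l 0)))) (T.a (T.b (T.a (T.c (T.l 204) (T.l 204)) (T.b (T.l 204) (T.l 204))) (T.c (T.l 0) (T.l 0))) (T.b (T.b (T.a (T.l 204) (T.b (T.b (T.l 204) (T.l 204)) (T.l 204))) (T.b (T.l 204) (T.l 204))) (T.b (T.l 204) (T.l 0))))) (T.a (T.a (T.b (T.l 0) (T.c (T.b (T.l 816) (T.b (T.l 816) (T.l 816))) (T.l 816))) (T.a (T.b (T.l 0) (T.c (T.b (T.l 816) (T.l 816)) (T.l 816))) (T.b (T.l 0) (T.c (T.a (T.l 816) (T.b (T.l 816) (T.l 816))) (T.l 816))))) (T.a (T.b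 (T.b (T.l 0) (T.l 0)) (T.a (T.c (T.b (T.l 816) (T.a (T.l 816) (T.l 816))) (T.l 816)) (T.c (T.b (T.l 816) (T.b (T.l 816) (T.l 816))) (T.l 816)))) (T.b (T.l 0) (T.b (T.b (T.l 816) (T.l 816)) (T.c (T.a (T.l 816) (T.l 816)) (T.l 880))))))), by decide +kernel⟩

def B022E_010 :
    ∃ t, chk3 (onCell 0 67108864 0 1073741824 818728140 40265320 (corW 3 c0B eng mog cB022E gB0q0 gB1q2 gB0q2 gB1q2 dB0q0 dB1q2 dB0q2 dB1q2 true true)) t 1 1 1 = true :=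
  ⟨(T.l 2), by decide +kernel⟩

def B022E_011 :
    ∃ t, chk3 (onCell 0 67108864 0 1073741824 818728140 40265320 (corW 3 c0B eng mog cB022E gB0q0 gB1q2 gB1q2 gB2q2 dB0q0 dB1q2 dB1q2 dB2q2 true false)) t 1 1 1 = true :=
  ⟨(T.a (T.b (T.b (T.b (T.a (T.c (T.l 204) (T.l 204)) (T.c (T.l 204) (T.l 204))) (T.b (T.l 204) (T.l 204))) (T.b (T.l 204) (T.l 204))) (T.b (T.l 0) (T.b (T.l 0) (T.b (T.l 816) (T.l 816))))) (T.b (T.a (T.b (T.b (T.c (T.l 204) (T.l 204)) (T.l 204)) (T.l 204)) (T.b (T.b (T.a (T.b (T.l 204) (T.l 204)) (T.b (T.a (T.l 204) (T.c (T.l 204) (T.l 204))) (T.l 204))) (T.c (T.l 204) (T.l 204))) (T.b (T.l 204) (T.l 204)))) (T.a (T.b (T.l 0) (T.b (T.l 0) (T.l 816))) (T.b (T.l 0) (T.c (T.l 0) (T.l 0)))))), by decide +kernel⟩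

def B022E_100 :
    ∃ t, chk3 (onCell 0 67108864 0 1073741824 818728140 40265320 (corW 3 c0B eng mog cB022E gB1q0 gB0q2 gB0q2 gB1q2 dB1q0 dB0q2 dB0q2 dB1q2 true true)) t 1 1 1 = true :=
  ⟨(T.l 2), by decide +kernel⟩

def B022E_101 :
    ∃ t, chk3 (onCell 0 67108864 0 1073741824 818728140 40265320 (corW 3 c0B eng mog cB022E gB1q0 gB0q2 gB1q2 gB2q2 dB1q0 dB0q2 dB1q2 dB2q2 true false)) t 1 1 1 = true :=
  ⟨(T.a (T.a (T.b (T.b (T.c (T.l 204) (T.b (T.l 204) (T.l 204))) (T.l 0)) (T.l 0)) (T.b (T.b (T.a (T.b (T.l 204) (T.l 204)) (T.b (T.l 204) (T.l 204))) (T.l 0)) (T.l 0))) (T.b (T.a (T.b (T.a (T.c (T.l 204) (T.l 204)) (T.b (T.l 204) (T.l 204))) (T.l 0)) (T.b (T.b (T.a (T.l 204) (T.c (T.l 204) (T.b (T.l 204) (T.l 204)))) (T.l 204)) (T.l 0))) (T.a (T.l 0) (T.l 0)))), by decide +kernel⟩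

def B022E_110 :
    ∃ t, chk3 (onCell 0 67108864 0 1073741824 818728140 40265320 (corW 3 c0B eng mog cB022E gB1q0 gB1q2 gB0q2 gB1q2 dB1q0 dB1q2 dB0q2 dB1q2 true true)) t 1 1 1 = true :=
  ⟨(T.l 2), by decide +kernel⟩

def B022E_111 :
    ∃ t, chk3 (onCell 0 67108864 0 1073741824 818728140 40265320 (corW 3 c0B eng mog cB022E gB1q0 gB1q2 gB1q2 gB2q2 dB1q0 dB1q2 dB1q2 dB2q2 true false)) t 1 1 1 = true :=
  ⟨(T.a (T.b (T.b (T.b (T.b (T.a (T.b (T.l 204) (T.l 204)) (T.c (T.l 204) (T.l 204))) (T.l 204)) (T.l 204)) (T.l 0)) (T.l 0)) (T.b (T.a (T.b (T.b (T.c (T.l 204) (T.l 204)) (T.l 204)) (T.l 204)) (T.b (T.b (T.a (T.b (T.l 204) (T.l 204)) (T.a (T.l 204) (T.c (T.b (T.l 204) (T.l 204)) (T.l 204)))) (T.l 204)) (T.l 0))) (T.b (T.l 0) (T.l 0)))), by decide +kernel⟩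

def B022L_040_1_2_1 :
    ∃ t, chk3 (onCell 0 67108864 0 1073741824 818728140 40265320 (corW 3 c0B eng mog cB022L gB0q0 gB4q2 gB0q2 gB1q2 dB0q0 dB4q2 dB0q2 dB1q2 true true)) t 1 2 1 = true :=
  ⟨(T.b (T.l 2) (T.b (T.l 2) (T.a (T.l 0) (T.b (T.l 2) (T.a (T.l 0) (T.b (T.l 0) (T.l 0))))))), by decide +kernel⟩

def B022L_040_1_12_1 :
    ∃ t, chk3 (onCell 0 67108864 0 1073741824 818728140 40265320 (corW 3 c0B eng mog cB022L gB0q0 gB4q2 gB0q2 gB1q2 dB0q0 dB4q2 dB0q2 dB1q2 true true)) t 1 12 1 = true :=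
  ⟨(T.a (T.b (T.l 0) (T.l 0)) (T.b (T.a (T.l 0) (T.b (T.l 0) (T.l 0))) (T.l 0))), by decide +kernel⟩

def B022L_040_1_52_1 :
    ∃ t, chk3 (onCell 0 67108864 0 1073741824 818728140 40265320 (corW 3 c0B eng mog cB022L gB0q0 gB4q2 gB0q2 gB1q2 dB0q0 dB4q2 dB0q2 dB1q2 true true)) t 1 52 1 = true :=
  ⟨(T.a (T.a (T.c (T.l 0) (T.l 0)) (T.l 0)) (T.a (T.l 0) (T.l 0))), by decide +kernel⟩

def B022L_040_2_53_1 :
    ∃ t, chk3 (onCell 0 67108864 0 1073741824 818728140 40265320 (corW 3 c0B eng mog cB022L gB0q0 gB4q2 gB0q2 gB1q2 dB0q0 dB4q2 dB0q2 dB1q2 true true)) t 2 53 1 = true :=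
  ⟨(T.b (T.a (T.b (T.c (T.l 0) (T.l 0)) (T.b (T.c (T.l 0) (T.c (T.l 0) (T.b (T.l 0) (T.a (T.a (T.b (T.l 0) (T.a (T.l 1) (T.c (T.l 0) (T.b (T.b (T.l 0) (T.l 1)) (T.l 1))))) (T.c (T.l 0) (T.b (T.l 0) (T.b (T.l 0) (T.a (T.l 1) (T.b (T.l 0) (T.l 1))))))) (T.a (T.c (T.l 0) (T.l 0)) (T.l 0)))))) (T.a (T.l 1) (T.b (T.c (T.l 0) (T.b (T.c (T.l 0) (T.b (T.c (T.l 0) (T.a (T.a (T.l 1) (T.b (T.l 0) (T.l 1))) (T.l 0))) (T.l 1))) (T.l 1))) (T.l 1))))) (T.b (T.l 0) (T.b (T.c (T.l 0) (T.l 0)) (T.a (T.b (T.c (T.l 0) (T.c (T.l 0) (T.a (T.b (T.c (T.l 0) (T.l 0)) (T.l 1)) (T.c (T.l 0) (T.b (T.l 0) (T.b (T.a (T.l 0) (T.l 0)) (T.l 1))))))) (T.l 1)) (T.c (T.l 0) (T.a (T.b (T.c (T.l 0) (T.c (T.l 0) (T.a (T.c (T.l 0) (T.a (T.l 0) (T.l 0))) (T.l 0)))) (T.l 1)) (T.c (T.l 0) (T.b (T.l 0) (T.b (T.c (T.l 0) (T.b (T.a (T.a (T.l 1) (T.l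 0)) (T.l 0)) (T.l 1))) (T.l 1)))))))))) (T.l 1)), by decide +kernel⟩

def B022L_040_3_53_1 :
    ∃ t, chk3 (onCell 0 67108864 0 1073741824 818728140 40265320 (corW 3 c0B eng mog cB022L gB0q0 gB4q2 gB0q2 gB1q2 dB0q0 dB4q2 dB0q2 dB1q2 true true)) t 3 53 1 = true :=
  ⟨(T.b (T.a (T.b (T.l 0) (T.c (T.l 0) (T.b (T.l 0) (T.c (T.l 0) (T.b (T.l 0) (T.a (T.a (T.b (T.a (T.b (T.l 0) (T.l 1)) (T.l 0)) (T.l 1)) (T.c (T.l 0) (T.b (T.l 0) (T.a (T.l 1) (T.b (T.l 0) (T.l 1)))))) (T.a (T.c (T.l 0) (T.a (T.c (T.l 0) (T.a (T.b (T.l 0) (T.b (T.l 0) (T.l 1))) (T.l 0))) (T.l 0))) (T.l 0)))))))) (T.c (T.l 0) (T.a (T.l 0) (T.l 0)))) (T.b (T.b (T.b (T.a (T.a (T.l 1) (T.c (T.l 0) (T.a (T.l 1) (T.c (T.l 0) (T.a (T.l 1) (T.b (T.b (T.l 0) (T.l 1)) (T.l 1))))))) (T.c (T.l 0) (T.c (T.l 0) (T.a (T.a (T.b (T.c (T.l 0) (T.a (T.b (T.l 0) (T.l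 1)) (T.l 0))) (T.l 1)) (T.c (T.l 0) (T.b (T.l 0) (T.a (T.l 1) (T.b (T.l 0) (T.l 1)))))) (T.a (T.c (T.l 0) (T.a (T.c (T.l 0) (T.a (T.c (T.l 0) (T.b (T.l 0) (T.b (T.l 0) (T.l 1)))) (T.l 0))) (T.l 0))) (T.l 0)))))) (T.l 1)) (T.l 1)) (T.l 1))), by decide +kernel⟩

def B022L_040_1_27_1 :
    ∃ t, chk3 (onCell 0 67108864 0 1073741824 818728140 40265320 (corW 3 c0B eng mog cB022L gB0q0 gB4q2 gB0q2 gB1q2 dB0q0 dB4q2 dB0q2 dB1q2 true true)) t 1 27 1 = true :=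
  ⟨(T.l 1), by decide +kernel⟩

def B022L_040_1_7_1 :
    ∃ t, chk3 (onCell 0 67108864 0 1073741824 818728140 40265320 (corW 3 c0B eng mog cB022L gB0q0 gB4q2 gB0q2 gB1q2 dB0q0 dB4q2 dB0q2 dB1q2 true true)) t 1 7 1 = true :=
  ⟨(T.l 1), by decide +kernel⟩

theorem B022L_040_1_53_1 :
    ∃ t, chk3 (onCell 0 67108864 0 1073741824 818728140 40265320 (corW 3 c0B eng mog cB022L gB0q0 gB4q2 gB0q2 gB1q2 dB0q0 dB4q2 dB0q2 dB1q2 true true)) t 1 53 1 = true :=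
  ex3_a B022L_040_2_53_1 B022L_040_3_53_1
theorem B022L_040_1_26_1 :
    ∃ t, chk3 (onCell 0 67108864 0 1073741824 818728140 40265320 (corW 3 c0B eng mog cB022L gB0q0 gB4q2 gB0q2 gB1q2 dB0q0 dB4q2 dB0q2 dB1q2 true true)) t 1 26 1 = true :=
  ex3_b B022L_040_1_52_1 B022L_040_1_53_1
theorem B022L_040_1_13_1 :
    ∃ t, chk3 (onCell 0 67108864 0 1073741824 818728140 40265320 (corW 3 c0B eng mog cB022L gB0q0 gB4q2 gB0q2 gB1q2 dB0q0 dB4q2 dB0q2 dB1q2 true true)) t 1 13 1 = true :=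
  ex3_b B022L_040_1_26_1 B022L_040_1_27_1
theorem B022L_040_1_6_1 :
    ∃ t, chk3 (onCell 0 67108864 0 1073741824 818728140 40265320 (corW 3 c0B eng mog cB022L gB0q0 gB4q2 gB0q2 gB1q2 dB0q0 dB4q2 dB0q2 dB1q2 true true)) t 1 6 1 = true :=
  ex3_b B022L_040_1_12_1 B022L_040_1_13_1
theorem B022L_040_1_3_1 :
    ∃ t, chk3 (onCell 0 67108864 0 1073741824 818728140 40265320 (corW 3 c0B eng mog cB022L gB0q0 gB4q2 gB0q2 gB1q2 dB0q0 dB4q2 dB0q2 dB1q2 true true)) t 1 3 1 = true :=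
  ex3_b B022L_040_1_6_1 B022L_040_1_7_1
theorem B022L_040 :
    ∃ t, chk3 (onCell 0 67108864 0 1073741824 818728140 40265320 (corW 3 c0B eng mog cB022L gB0q0 gB4q2 gB0q2 gB1q2 dB0q0 dB4q2 dB0q2 dB1q2 true true)) t 1 1 1 = true :=
  ex3_b B022L_040_1_2_1 B022L_040_1_3_1

def B022L_041 :
    ∃ t, chk3 (onCell 0 67108864 0 1073741824 818728140 40265320 (corW 3 c0B eng mog cB022L gB0q0 gB4q2 gB1q2 gB2q2 dB0q0 dB4q2 dB1q2 dB2q2 true false)) t 1 1 1 = true :=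
  ⟨(T.b (T.b (T.b (T.a (T.l 204) (T.a (T.l 204) (T.l 0))) (T.l 0)) (T.b (T.l 0) (T.l 0))) (T.l 1)), by decide +kernel⟩

def B022L_140 :
    ∃ t, chk3 (onCell 0 67108864 0 1073741824 818728140 40265320 (corW 3 c0B eng mog cB022L gB1q0 gB4q2 gB0q2 gB1q2 dB1q0 dB4q2 dB0q2 dB1q2 true true)) t 1 1 1 = true :=
  ⟨(T.b (T.b (T.b (T.l 2) (T.l 2)) (T.a (T.l 0) (T.b (T.a (T.b (T.l 0) (T.l 0)) (T.b (T.l 0) (T.l 0))) (T.a (T.l 0) (T.b (T.l 0) (T.l 816)))))) (T.b (T.b (T.a (T.l 1) (T.a (T.l 1) (T.l 0))) (T.l 1)) (T.l 1))), by decide +kernel⟩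

def B022L_141 :
    ∃ t, chk3 (onCell 0 67108864 0 1073741824 818728140 40265320 (corW 3 c0B eng mog cB022L gB1q0 gB4q2 gB1q2 gB2q2 dB1q0 dB4q2 dB1q2 dB2q2 true false)) t 1 1 1 = true :=
  ⟨(T.b (T.b (T.b (T.a (T.l 204) (T.a (T.l 204) (T.l 0))) (T.l 0)) (T.l 0)) (T.l 1)), by decide +kernel⟩

def B022R_003 :
    ∃ t, chk3 (onCell 0 67108864 0 1073741824 818728140 40265320 (corW 3 c0B eng mog cB022R gB0q0 gB0q2 gB3q2 gB4q2 dB0q0 dB0q2 dB3q2 dB4q2 false true)) t 1 1 1 = true :=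
  ⟨(T.a (T.a (T.b (T.b (T.l 0) (T.l 0)) (T.b (T.l 816) (T.l 816))) (T.a (T.b (T.b (T.l 0) (T.l 0)) (T.b (T.l 816) (T.l 816))) (T.b (T.b (T.l 0) (T.l 0)) (T.c (T.l 816) (T.l 820))))) (T.a (T.b (T.b (T.a (T.l 0) (T.l 0)) (T.l 0)) (T.a (T.c (T.l 816) (T.b (T.l 816) (T.l 816))) (T.c (T.l 816) (T.b (T.l 816) (T.l 816))))) (T.b (T.b (T.a (T.l 0) (T.l 0)) (T.l 0)) (T.b (T.b (T.l 816) (T.l 816)) (T.c (T.b (T.l 816) (T.l 816)) (T.a (T.l 816) (T.l 816))))))), by decide +kernel⟩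

def B022R_013 :
    ∃ t, chk3 (onCell 0 67108864 0 1073741824 818728140 40265320 (corW 3 c0B eng mog cB022R gB0q0 gB1q2 gB3q2 gB4q2 dB0q0 dB1q2 dB3q2 dB4q2 false true)) t 1 1 1 = true :=
  ⟨(T.a (T.b (T.l 0) (T.b (T.l 816) (T.l 816))) (T.a (T.b (T.l 0) (T.l 820)) (T.b (T.l 0) (T.b (T.l 816) (T.l 816))))), by decide +kernel⟩

def B022R_103 :
    ∃ t, chk3 (onCell 0 67108864 0 1073741824 818728140 40265320 (corW 3 c0B eng mog cB022R gB1q0 gB0q2 gB3q2 gB4q2 dB1q0 dB0q2 dB3q2 dB4q2 false true)) t 1 1 1 = true :=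
  ⟨(T.a (T.a (T.b (T.b (T.l 0) (T.l 0)) (T.l 816)) (T.b (T.a (T.l 0) (T.b (T.l 0) (T.l 0))) (T.l 816))) (T.a (T.b (T.b (T.a (T.l 0) (T.l 0)) (T.l 0)) (T.l 816)) (T.b (T.b (T.a (T.l 0) (T.l 0)) (T.l 0)) (T.l 816)))), by decide +kernel⟩

def B022R_113 :
    ∃ t, chk3 (onCell 0 67108864 0 1073741824 818728140 40265320 (corW 3 c0B eng mog cB022R gB1q0 gB1q2 gB3q2 gB4q2 dB1q0 dB1q2 dB3q2 dB4q2 false true)) t 1 1 1 = true :=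
  ⟨(T.a (T.b (T.l 0) (T.l 816)) (T.a (T.l 0) (T.b (T.l 0) (T.l 816)))), by decide +kernel⟩

def B101E_000 :
    ∃ t, chk3 (onCell 0 53687091 0 1073741824 818728140 40265320 (corW 3 c0B eng mog cB101E gB0q1 gB0q1 gB0q0 gB1q0 dB0q1 dB0q1 dB0q0 dB1q0 true true)) t 1 1 1 = true :=
  ⟨(T.l 2), by decide +kernel⟩

def B101E_001 :
    ∃ t, chk3 (onCell 0 53687091 0 1073741824 818728140 40265320 (corW 3 c0B eng mog cB101E gB0q1 gB0q1 gB1q0 gB2q0 dB0q1 dB0q1 dB1q0 dB2q0 true false)) t 1 1 1 = true :=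
  ⟨(T.a (T.b (T.b (T.b (T.l 816) (T.l 816)) (T.l 0)) (T.b (T.l 0) (T.b (T.l 204) (T.l 204)))) (T.b (T.b (T.a (T.a (T.l 816) (T.b (T.l 816) (T.l 816))) (T.b (T.a (T.b (T.l 816) (T.l 816)) (T.c (T.l 816) (T.l 824))) (T.a (T.l 816) (T.l 816)))) (T.a (T.l 0) (T.b (T.l 0) (T.l 0)))) (T.a (T.b (T.l 0) (T.a (T.l 204) (T.l 204))) (T.b (T.l 0) (T.b (T.l 204) (T.b (T.l 204) (T.l 236))))))), by decide +kernel⟩

def B101L_200 :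
    ∃ t, chk3 (onCell 0 67108864 0 1073741824 818728140 40265320 (corW 3 c0B eng mog cB101L gB2q1 gB0q1 gB0q0 gB1q0 dB2q1 dB0q1 dB0q0 dB1q0 true true)) t 1 1 1 = true :=
  ⟨(T.b (T.l 1) (T.b (T.l 1) (T.b (T.l 1) (T.b (T.b (T.l 1) (T.b (T.l 1) (T.c (T.l 816) (T.l 816)))) (T.c (T.l 816) (T.l 816)))))), by decide +kernel⟩

def B101L_201 :
    ∃ t, chk3 (onCell 0 67108864 0 1073741824 818728140 40265320 (corW 3 c0B eng mog cB101L gB2q1 gB0q1 gB1q0 gB2q0 dB2q1 dB0q1 dB1q0 dB2q0 true false)) t 1 1 1 = true :=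
  ⟨(T.l 1), by decide +kernel⟩

def B101L_300 :
    ∃ t, chk3 (onCell 0 67108864 0 1073741824 818728140 40265320 (corW 3 c0B eng mog cB101L gB3q1 gB0q1 gB0q0 gB1q0 dB3q1 dB0q1 dB0q0 dB1q0 true true)) t 1 1 1 = true :=
  ⟨(T.b (T.l 1) (T.b (T.l 1) (T.b (T.b (T.b (T.l 1) (T.b (T.l 1) (T.c (T.l 816) (T.l 816)))) (T.c (T.l 816) (T.l 816))) (T.l 816)))), by decide +kernel⟩

def B101L_301 :
    ∃ t, chk3 (onCell 0 67108864 0 1073741824 818728140 40265320 (corW 3 c0B eng mog cB101L gB3q1 gB0q1 gB1q0 gB2q0 dB3q1 dB0q1 dB1q0 dB2q0 true false)) t 1 1 1 = true :=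
  ⟨(T.l 1), by decide +kernel⟩

end Pool.Agent.Strip051.G.I7625_8000.Tab.CW
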