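import Pool.Agent.Strip051.PB.Cuts

/-! # Tables I7625_8000 (generated) -/

namespace Pool.Agent.Strip051.G.I7625_8000.Tab

open Pool.Agent.Strip051.PB

noncomputable def c1g : Fn1 := ⟨_, _, fun h1 => (enc_sqrtg (enc_sub (enc_pnc _ 1) (enc_scale 3 4 (enc_sq h1))))⟩
noncomputable def kcg_3 : Fn2 := ⟨_, _, fun h1 h2 => (enc_subr 25 32 h2)⟩
noncomputable def kcg_9 : Fn2 := ⟨_, _, fun h1 h2 => (enc_add h1 (enc_rat _ 191 500))⟩
noncomputable def kcg_12 : Fn2 := ⟨_, _, fun h1 h2 => (enc_add h1 (enc_rat _ 7 16))⟩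
noncomputable def kcg_13 : Fn2 := ⟨_, _, fun h1 h2 => (enc_scale 4213 5000 h1)⟩
noncomputable def kcg_17 : Fn2 := ⟨_, _, fun h1 h2 => (enc_scale 1097 1000 h1)⟩
noncomputable def kcg_23 : Fn2 := ⟨_, _, fun h1 h2 => (enc_scale 3393 10000 h1)⟩
noncomputable def kcg_28 : Fn2 := ⟨_, _, fun h1 h2 => (enc_scale 3734 125 h1)⟩
noncomputable def kcg_38 : Fn2 := ⟨_, _, fun h1 h2 => (enc_sub (enc_rat _ 4259099 200000) (enc_scale 51846847 100000 (kcg_3.enc h1 h2)))⟩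
noncomputable def kcg_46 : Fn2 := ⟨_, _, fun h1 h2 => (enc_add h1 (enc_rat _ 327 1000))⟩
noncomputable def kcg_47 : Fn2 := ⟨_, _, fun h1 h2 => (enc_scale 2003 2500 h1)⟩
noncomputable def kcg_52 : Fn2 := ⟨_, _, fun h1 h2 => (enc_scale 11299 400 h1)⟩
noncomputable def kcg_61 : Fn2 := ⟨_, _, fun h1 h2 => (enc_subr 13090909 1000000 (enc_scale 27635909 50000 (kcg_3.enc h1 h2)))⟩
noncomputable def kcg_66 : Fn2 := ⟨_, _, fun h1 h2 => (enc_scale 7073 10000 h1)⟩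
noncomputable def kcg_70 : Fn2 := ⟨_, _, fun h1 h2 => (enc_scale 9513 2000 h1)⟩
noncomputable def kcg_81 : Fn2 := ⟨_, _, fun h1 h2 => (enc_subr 14080357 1000000 (enc_neg (enc_scale 12336607 100000 (kcg_3.enc h1 h2))))⟩
noncomputable def kcg_90 : Fn2 := ⟨_, _, fun h1 h2 => (enc_add h1 (enc_rat _ 57 500))⟩
noncomputable def kcg_93 : Fn2 := ⟨_, _, fun h1 h2 => (enc_add h1 (enc_rat _ 33 200))⟩
noncomputable def kcg_94 : Fn2 := ⟨_, _, fun h1 h2 => (enc_scale 7479 5000 h1)⟩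
noncomputable def kcg_98 : Fn2 := ⟨_, _, fun h1 h2 => (enc_scale 2333 200 h1)⟩
noncomputable def kcg_103 : Fn2 := ⟨_, _, fun h1 h2 => (enc_scale 1673 2000 h1)⟩
noncomputable def kcg_107 : Fn2 := ⟨_, _, fun h1 h2 => (enc_scale 1293 400 h1)⟩
noncomputable def kcg_115 : Fn2 := ⟨_, _, fun h1 h2 => (enc_add (enc_scale 8267157 50000 (kcg_3.enc h1 h2)) (enc_rat _ 12927451 1000000))⟩
noncomputable def kcg_124 : Fn2 := ⟨_, _, fun h1 h2 => (enc_scale 26151 20000 h1)⟩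
noncomputable def kcg_128 : Fn2 := ⟨_, _, fun h1 h2 => (enc_scale 10399 2000 h1)⟩
noncomputable def kcg_141 : Fn2 := ⟨_, _, fun h1 h2 => (enc_subr 342946 15625 (enc_neg (enc_scale 971 100000 (kcg_3.enc h1 h2))))⟩
noncomputable def kcg_146 : Fn2 := ⟨_, _, fun h1 h2 => (enc_scale 24379 10000 h1)⟩
noncomputable def kcg_150 : Fn2 := ⟨_, _, fun h1 h2 => (enc_mul (enc_norm (kcg_3.enc h1 h2)) (enc_scale 5199 1000 h1))⟩
noncomputable def kcg_158 : Fn2 := ⟨_, _, fun h1 h2 => (enc_sub (enc_rat _ 191 500) h1)⟩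
noncomputable def kcg_159 : Fn2 := ⟨_, _, fun h1 h2 => (enc_sub (enc_rat _ 7 16) h1)⟩
noncomputable def kcg_176 : Fn2 := ⟨_, _, fun h1 h2 => (enc_sub (enc_rat _ 327 1000) h1)⟩
noncomputable def kcg_198 : Fn2 := ⟨_, _, fun h1 h2 => (enc_sub (enc_rat _ 57 500) h1)⟩
noncomputable def kcg_199 : Fn2 := ⟨_, _, fun h1 h2 => (enc_sub (enc_rat _ 33 200) h1)⟩
noncomputable def kcg : Fn2 := ⟨_, _, fun h1 h2 => (enc_norm (enc_case h1 (enc_case (enc_add h1 (enc_rat _ 271 1000)) (enc_case (kcg_9.enc h1 h2) (enc_case (kcg_12.enc h1 h2) (enc_add (enc_subr 1159921 40000000 (kcg_13.enc h1 h2)) (enc_mul (enc_norm (kcg_3.enc h1 h2)) (enc_norm (enc_subr 15226283 4000000 (kcg_17.enc h1 h2))))) (enc_add (enc_add (enc_subr 21843171 40000000 (enc_neg (kcg_23.enc h1 h2))) (enc_mul (enc_norm (kcg_3.enc h1 h2)) (enc_norm (enc_add (kcg_28.enc h1 h2) (enc_rat _ 35129967 4000000))))) (enc_mul (enc_norm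 (kcg_38.enc h1 h2)) (enc_norm (enc_mul (enc_norm (kcg_12.enc h1 h2)) (enc_norm (enc_sub (enc_neg (enc_rat _ 191 500)) h1))))))) (enc_case (kcg_46.enc h1 h2) (enc_add (enc_add (enc_subr 28901003 40000000 (enc_neg (kcg_47.enc h1 h2))) (enc_mul (enc_norm (kcg_3.enc h1 h2)) (enc_norm (enc_add (kcg_52.enc h1 h2) (enc_rat _ 32647731 4000000))))) (enc_mul (enc_norm (kcg_61.enc h1 h2)) (enc_norm (enc_mul (enc_norm (kcg_9.enc h1 h2)) (enc_norm (enc_sub (enc_neg (enc_rat _ 327 1000)) h1)))))) (enc_add (enc_add (enc_subr 9169823 40000000 (kcg_66.enc h1 h2)) (enc_mul (enc_norm (kcg_3.enc h1 h2)) (enc_norm (enc_add (kcg_70.enc h1 h2) (enc_rat _ 1921503 4000000))))) (enc_mul (enc_norm (kcg_81.enc h1 h2)) (enc_norm (enc_mul (enc_norm (kcg_46.enc h1 h2)) (enc_norm (enc_sub (enc_neg (enc_rat _ 271 1000)) h1)))))))) (enc_case (kcg_90.enc h1 h2) (enc_case (kcg_93.enc h1 h2) (enc_add (enc_subr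 622483 40000000 (kcg_94.enc h1 h2)) (enc_mul (enc_norm (kcg_3.enc h1 h2)) (enc_norm (enc_add (kcg_98.enc h1 h2) (enc_rat _ 9410317 4000000))))) (enc_add (enc_add (enc_subr 4973863 40000000 (kcg_103.enc h1 h2)) (enc_mul (enc_norm (kcg_3.enc h1 h2)) (enc_norm (enc_add (kcg_107.enc h1 h2) (enc_rat _ 3844867 4000000))))) (enc_mul (enc_norm (kcg_115.enc h1 h2)) (enc_norm (enc_mul (enc_norm (kcg_93.enc h1 h2)) (enc_norm (enc_sub (enc_neg (enc_rat _ 57 500)) h1))))))) (enc_case (enc_add h1 (enc_rat _ 1 16)) (enc_add (enc_add (enc_subr 22607 320000 (kcg_124.enc h1 h2)) (enc_mul (enc_norm (kcg_3.enc h1 h2)) (enc_norm (enc_subr 1 32000 (enc_neg (kcg_128.enc h1 h2)))))) (enc_mul (enc_norm (kcg_141.enc h1 h2)) (enc_norm (enc_mul (enc_norm (kcg_90.enc h1 h2)) (enc_norm (enc_sub (enc_neg (enc_rat _ 1 16)) h1)))))) (enc_sub (kcg_146.enc h1 h2) (kcg_150.enc h1 h2))))) (enc_neg (enc_case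 (enc_sub (enc_rat _ 271 1000) h1) (enc_case (kcg_158.enc h1 h2) (enc_case (kcg_159.enc h1 h2) (enc_add (enc_subr 1159921 40000000 (enc_neg (kcg_13.enc h1 h2))) (enc_mul (enc_norm (kcg_3.enc h1 h2)) (enc_norm (enc_subr 15226283 4000000 (enc_neg (kcg_17.enc h1 h2)))))) (enc_add (enc_add (enc_subr 21843171 40000000 (kcg_23.enc h1 h2)) (enc_mul (enc_norm (kcg_3.enc h1 h2)) (enc_norm (enc_sub (enc_rat _ 35129967 4000000) (kcg_28.enc h1 h2))))) (enc_mul (enc_norm (kcg_38.enc h1 h2)) (enc_norm (enc_mul (enc_norm (kcg_159.enc h1 h2)) (enc_norm (enc_subr 191 500 h1))))))) (enc_case (kcg_176.enc h1 h2) (enc_add (enc_add (enc_subr 28901003 40000000 (kcg_47.enc h1 h2)) (enc_mul (enc_norm (kcg_3.enc h1 h2)) (enc_norm (enc_sub (enc_rat _ 32647731 4000000) (kcg_52.enc h1 h2))))) (enc_mul (enc_norm (kcg_61.enc h1 h2)) (enc_norm (enc_mul (enc_norm (kcg_158.enc h1 h2)) (enc_norm (enc_subr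 327 1000 h1)))))) (enc_add (enc_add (enc_subr 9169823 40000000 (enc_neg (kcg_66.enc h1 h2))) (enc_mul (enc_norm (kcg_3.enc h1 h2)) (enc_norm (enc_sub (enc_rat _ 1921503 4000000) (kcg_70.enc h1 h2))))) (enc_mul (enc_norm (kcg_81.enc h1 h2)) (enc_norm (enc_mul (enc_norm (kcg_176.enc h1 h2)) (enc_norm (enc_subr 271 1000 h1)))))))) (enc_case (kcg_198.enc h1 h2) (enc_case (kcg_199.enc h1 h2) (enc_add (enc_subr 622483 40000000 (enc_neg (kcg_94.enc h1 h2))) (enc_mul (enc_norm (kcg_3.enc h1 h2)) (enc_norm (enc_sub (enc_rat _ 9410317 4000000) (kcg_98.enc h1 h2))))) (enc_add (enc_add (enc_subr 4973863 40000000 (enc_neg (kcg_103.enc h1 h2))) (enc_mul (enc_norm (kcg_3.enc h1 h2)) (enc_norm (enc_sub (enc_rat _ 3844867 4000000) (kcg_107.enc h1 h2))))) (enc_mul (enc_norm (kcg_115.enc h1 h2)) (enc_norm (enc_mul (enc_norm (kcg_199.enc h1 h2)) (enc_norm (enc_subr 57 500 h1))))))) (enc_case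 (enc_sub (enc_rat _ 1 16) h1) (enc_add (enc_add (enc_subr 22607 320000 (enc_neg (kcg_124.enc h1 h2))) (enc_mul (enc_norm (kcg_3.enc h1 h2)) (enc_norm (enc_subr 1 32000 (kcg_128.enc h1 h2))))) (enc_mul (enc_norm (kcg_141.enc h1 h2)) (enc_norm (enc_mul (enc_norm (kcg_198.enc h1 h2)) (enc_norm (enc_subr 1 16 h1)))))) (enc_sub (kcg_150.enc h1 h2) (kcg_146.enc h1 h2))))))))⟩
noncomputable def kf0q0_9 : Fn2 := ⟨_, _, fun h1 h2 => (enc_scale 3 2 h1)⟩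
noncomputable def kf0q0_12 : Fn2 := ⟨_, _, fun h1 h2 => (enc_add (enc_pnc _ 1) (c1g.enc h1))⟩
noncomputable def kf0q0 : Fn2 := ⟨_, _, fun h1 h2 => (enc_norm (enc_add (enc_mul (enc_norm (enc_mul (enc_norm (enc_sub (c1g.enc h1) (kf0q0_9.enc h1 h2))) (enc_norm (kf0q0_12.enc h1 h2)))) (enc_inv (enc_sub (kf0q0_12.enc h1 h2) (kf0q0_9.enc h1 h2)))) (enc_mul h1 (kcg.enc (enc_norm (enc_sub (enc_scale 3 4 h1) (enc_half (c1g.enc h1)))) h2))))⟩
noncomputable def txg_4 : Fn3 := ⟨_, _, fun h1 h2 h3 => (enc_subr 25 32 h3)⟩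
noncomputable def txg_6 : Fn3 := ⟨_, _, fun h1 h2 h3 => (enc_add h1 (enc_half h2))⟩
noncomputable def txg_26 : Fn3 := ⟨_, _, fun h1 h2 h3 => (enc_add h1 (enc_rat _ 1 4))⟩
noncomputable def txg_29 : Fn3 := ⟨_, _, fun h1 h2 h3 => (enc_add h1 (enc_rat _ 2 5))⟩
noncomputable def txg_32 : Fn3 := ⟨_, _, fun h1 h2 h3 => (enc_add h1 (enc_rat _ 9 20))⟩
noncomputable def txg_76 : Fn3 := ⟨_, _, fun h1 h2 h3 => (enc_add h1 (enc_rat _ 7 20))⟩
noncomputable def txg_96 : Fn3 := ⟨_, _, fun h1 h2 h3 => (enc_add h1 (enc_rat _ 3 10))⟩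
noncomputable def txg_138 : Fn3 := ⟨_, _, fun h1 h2 h3 => (enc_add h1 (enc_rat _ 3 20))⟩
noncomputable def txg_141 : Fn3 := ⟨_, _, fun h1 h2 h3 => (enc_add h1 (enc_rat _ 1 5))⟩
noncomputable def txg_180 : Fn3 := ⟨_, _, fun h1 h2 h3 => (enc_add h1 (enc_rat _ 1 10))⟩
noncomputable def txg_200 : Fn3 := ⟨_, _, fun h1 h2 h3 => (enc_subr 1 10 h1)⟩
noncomputable def txg_232 : Fn3 := ⟨_, _, fun h1 h2 h3 => (enc_sq (enc_norm (txg_4.enc h1 h2 h3)))⟩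
noncomputable def txg_253 : Fn3 := ⟨_, _, fun h1 h2 h3 => (enc_subr 109 403 h1)⟩
noncomputable def txg_254 : Fn3 := ⟨_, _, fun h1 h2 h3 => (enc_subr 7 20 h1)⟩
noncomputable def txg_255 : Fn3 := ⟨_, _, fun h1 h2 h3 => (enc_subr 3 10 h1)⟩
noncomputable def txg_306 : Fn3 := ⟨_, _, fun h1 h2 h3 => (enc_subr 2 5 h1)⟩
noncomputable def txg_324 : Fn3 := ⟨_, _, fun h1 h2 h3 => (enc_subr 9 20 h1)⟩
noncomputable def txg : Fn3 := ⟨_, _, fun h1 h2 h3 => (enc_case (enc_subr 263 1586 h1) (enc_case (txg_26.enc h1 h2 h3) (enc_case (txg_29.enc h1 h2 h3) (enc_case (txg_32.enc h1 h2 h3) (enc_add (enc_add (enc_add (enc_scale 16871 62500 h1) (enc_rat _ 16871 125000)) (enc_mul (enc_norm (txg_4.enc h1 h2 h3)) (enc_norm (enc_add (enc_scale 9531 25000 h1) (enc_rat _ 9531 50000))))) (enc_mul (enc_norm (enc_sub (enc_rat _ 2699 10000) (enc_scale 13167 1250 (txg_4.enc h1 h2 h3)))) (enc_norm (enc_mul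 (enc_norm (enc_add h1 (enc_rat _ 1 2))) (enc_norm (enc_sub (enc_neg (enc_rat _ 9 20)) h1)))))) (enc_add (enc_add (enc_add (enc_scale 143127 500000 h1) (enc_rat _ 1423111 10000000)) (enc_mul (enc_norm (txg_4.enc h1 h2 h3)) (enc_norm (enc_add (enc_scale 42891 25000 h1) (enc_rat _ 7911 10000))))) (enc_mul (enc_norm (enc_subr 29811 50000 (enc_neg (enc_scale 80773 5000 (txg_4.enc h1 h2 h3))))) (enc_norm (enc_mul (enc_norm (txg_32.enc h1 h2 h3)) (enc_norm (enc_sub (enc_neg (enc_rat _ 2 5)) h1))))))) (enc_case (txg_76.enc h1 h2 h3) (enc_add (enc_add (enc_add (enc_scale 16509 50000 h1) (enc_rat _ 319763 2000000)) (enc_mul (enc_norm (txg_4.enc h1 h2 h3)) (enc_norm (enc_add (enc_scale 65769 50000 h1) (enc_rat _ 157749 250000))))) (enc_mul (enc_norm (enc_subr 2823 10000 (enc_scale 604 25 (txg_4.enc h1 h2 h3)))) (enc_norm (enc_mul (enc_norm (txg_29.enc h1 h2 h3)) (enc_norm (enc_sub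 (enc_neg (enc_rat _ 7 20)) h1)))))) (enc_case (txg_96.enc h1 h2 h3) (enc_add (enc_add (enc_add (enc_scale 179053 500000 h1) (enc_rat _ 424139 2500000)) (enc_mul (enc_norm (txg_4.enc h1 h2 h3)) (enc_norm (enc_sub (enc_rat _ 37003 500000) (enc_scale 13801 50000 h1))))) (enc_mul (enc_norm (enc_subr 6907 25000 (enc_scale 19171 2500 (txg_4.enc h1 h2 h3)))) (enc_norm (enc_mul (enc_norm (txg_76.enc h1 h2 h3)) (enc_norm (enc_sub (enc_neg (enc_rat _ 3 10)) h1)))))) (enc_add (enc_add (enc_add (enc_scale 176041 500000 h1) (enc_rat _ 419621 2500000)) (enc_mul (enc_norm (txg_4.enc h1 h2 h3)) (enc_norm (enc_add (enc_scale 1551 50000 h1) (enc_rat _ 83059 500000))))) (enc_mul (enc_norm (enc_sub (enc_rat _ 9921 25000) (enc_scale 8631 625 (txg_4.enc h1 h2 h3)))) (enc_norm (enc_mul (enc_norm (txg_96.enc h1 h2 h3)) (enc_norm (enc_sub (enc_neg (enc_rat _ 1 4)) h1))))))))) (enc_case (txg_138.enc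 h1 h2 h3) (enc_case (txg_141.enc h1 h2 h3) (enc_add (enc_add (enc_add (enc_scale 143363 500000 h1) (enc_rat _ 757547 5000000)) (enc_mul (enc_norm (txg_4.enc h1 h2 h3)) (enc_norm (enc_add (enc_scale 1299 50000 h1) (enc_rat _ 82429 500000))))) (enc_mul (enc_norm (enc_add (enc_scale 1391 100 (txg_4.enc h1 h2 h3)) (enc_rat _ 45511 50000))) (enc_norm (enc_mul (enc_norm (txg_26.enc h1 h2 h3)) (enc_norm (enc_sub (enc_neg (enc_rat _ 1 5)) h1)))))) (enc_add (enc_add (enc_add (enc_scale 49463 250000 h1) (enc_rat _ 668673 5000000)) (enc_mul (enc_norm (txg_4.enc h1 h2 h3)) (enc_norm (enc_sub (enc_rat _ 25117 500000) (enc_scale 27357 50000 h1))))) (enc_mul (enc_norm (enc_sub (enc_rat _ 10841 12500) (enc_scale 6117 2500 (txg_4.enc h1 h2 h3)))) (enc_norm (enc_mul (enc_norm (txg_141.enc h1 h2 h3)) (enc_norm (enc_sub (enc_neg (enc_rat _ 3 20)) h1))))))) (enc_case (txg_180.enc h1 h2 h3)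 (enc_add (enc_add (enc_add (enc_scale 8557 50000 h1) (enc_rat _ 648639 5000000)) (enc_mul (enc_norm (txg_4.enc h1 h2 h3)) (enc_norm (enc_add (enc_scale 10551 25000 h1) (enc_rat _ 195611 1000000))))) (enc_mul (enc_norm (enc_subr 33303 100000 (enc_neg (enc_scale 169373 10000 (txg_4.enc h1 h2 h3))))) (enc_norm (enc_mul (enc_norm (txg_138.enc h1 h2 h3)) (enc_norm (enc_sub (enc_neg (enc_rat _ 1 10)) h1)))))) (enc_case (txg_200.enc h1 h2 h3) (enc_add (enc_add (enc_add (enc_scale 39319 500000 h1) (enc_rat _ 150597 1250000)) (enc_mul (enc_norm (txg_4.enc h1 h2 h3)) (enc_norm (enc_sub (enc_rat _ 130723 1000000) (enc_scale 5671 25000 h1))))) (enc_mul (enc_norm (enc_add (enc_scale 18697 2500 (txg_4.enc h1 h2 h3)) (enc_rat _ 3411 6250))) (enc_norm (enc_mul (enc_norm (txg_180.enc h1 h2 h3)) (enc_norm (enc_sub (enc_rat _ 1 10) h1)))))) (enc_add (enc_add (enc_add (enc_sub (enc_rat _ 544774132264571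 4201717478400000) (enc_scale 137995717056131 10504293696000000 h1)) (enc_mul (enc_norm (txg_4.enc h1 h2 h3)) (enc_norm (enc_sub (enc_rat _ 1777214530204483 10504293696000000) (enc_scale 642341143582339 1050429369600000 h1))))) (enc_mul (txg_232.enc h1 h2 h3) (enc_norm (enc_sub (enc_rat _ 4864168397 27596400000) (enc_scale 4864168397 2759640000 h1))))) (enc_mul (enc_norm (enc_subr 26399 100000 (enc_mul (enc_norm (enc_subr 168793 10000 (enc_scale 26777 1000 (txg_4.enc h1 h2 h3)))) (enc_norm (txg_4.enc h1 h2 h3))))) (enc_norm (enc_mul (enc_norm (txg_200.enc h1 h2 h3)) (enc_norm (enc_sub (enc_rat _ 263 1586) h1)))))))))) (enc_case (txg_253.enc h1 h2 h3) (enc_sub (enc_mul (enc_norm (enc_sub (enc_pnc _ 1) h2)) (enc_norm (enc_subn 1 (enc_nat 2 h2)))) (enc_mul (enc_norm (enc_nat 2 (enc_sub (enc_scale 4 3 (txg_6.enc h1 h2 h3)) h3))) (enc_norm (enc_mul (enc_norm (enc_subn 1 (enc_add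 (enc_scale 2 3 (txg_6.enc h1 h2 h3)) h2))) (kcg.enc h1 h3))))) (enc_case (txg_254.enc h1 h2 h3) (enc_case (txg_255.enc h1 h2 h3) (enc_add (enc_add (enc_add (enc_sub (enc_rat _ 491151742905249 2473813888000000) (enc_scale 379889978533047 1236906944000000 h1)) (enc_mul (enc_norm (txg_4.enc h1 h2 h3)) (enc_norm (enc_add (enc_scale 730467201183 17670099200000 h1) (enc_rat _ 13176813773667 176700992000000))))) (enc_mul (txg_232.enc h1 h2 h3) (enc_norm (enc_sub (enc_rat _ 34926720723 19182800000) (enc_scale 11642240241 1918280000 h1))))) (enc_mul (enc_norm (enc_add (enc_mul (enc_norm (enc_subr 18961 2500 (enc_neg (enc_scale 102767 500 (txg_4.enc h1 h2 h3))))) (enc_norm (txg_4.enc h1 h2 h3))) (enc_rat _ 254627 100000))) (enc_norm (enc_mul (enc_norm (txg_253.enc h1 h2 h3)) (enc_norm (enc_sub (enc_rat _ 3 10) h1)))))) (enc_add (enc_add (enc_sub (enc_rat _ 3726 15625) (enc_scale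 27513 62500 h1)) (enc_mul (enc_norm (txg_4.enc h1 h2 h3)) (enc_norm (enc_subr 13221 1000000 (enc_scale 16699 50000 h1))))) (enc_mul (enc_norm (enc_sub (enc_rat _ 57889 50000) (enc_scale 13737 10000 (txg_4.enc h1 h2 h3)))) (enc_norm (enc_mul (enc_norm (txg_255.enc h1 h2 h3)) (enc_norm (enc_sub (enc_rat _ 7 20) h1))))))) (enc_case (txg_306.enc h1 h2 h3) (enc_add (enc_add (enc_sub (enc_rat _ 2727773 10000000) (enc_scale 269123 500000 h1)) (enc_mul (enc_norm (txg_4.enc h1 h2 h3)) (enc_norm (enc_add (enc_scale 1651 50000 h1) (enc_rat _ 18423 200000))))) (enc_mul (enc_norm (enc_add (enc_scale 18481 2500 (txg_4.enc h1 h2 h3)) (enc_rat _ 803 1000))) (enc_norm (enc_mul (enc_norm (txg_254.enc h1 h2 h3)) (enc_norm (enc_sub (enc_rat _ 2 5) h1)))))) (enc_case (txg_324.enc h1 h2 h3) (enc_add (enc_add (enc_sub (enc_rat _ 2867653 10000000) (enc_scale 17913 31250 h1)) (enc_mul (enc_norm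 (txg_4.enc h1 h2 h3)) (enc_norm (enc_sub (enc_rat _ 351227 1000000) (enc_scale 15369 25000 h1))))) (enc_mul (enc_norm (enc_subr 5179 50000 (enc_scale 13909 2500 (txg_4.enc h1 h2 h3)))) (enc_norm (enc_mul (enc_norm (txg_306.enc h1 h2 h3)) (enc_norm (enc_sub (enc_rat _ 9 20) h1)))))) (enc_add (enc_add (enc_sub (enc_rat _ 288181 1000000) (enc_scale 288181 500000 h1)) (enc_mul (enc_norm (txg_4.enc h1 h2 h3)) (enc_norm (enc_sub (enc_rat _ 14917 20000) (enc_scale 14917 10000 h1))))) (enc_mul (enc_norm (enc_add (enc_scale 59877 5000 (txg_4.enc h1 h2 h3)) (enc_rat _ 8323 50000))) (enc_norm (enc_mul (enc_norm (txg_324.enc h1 h2 h3)) (enc_norm (enc_sub (enc_rat _ 1 2) h1)))))))))))⟩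
noncomputable def l0q0 : Fn2 := ⟨_, _, fun h1 h2 => (enc_norm (txg.enc (enc_norm (enc_sub (enc_scale 3 4 h1) (enc_half (c1g.enc h1)))) (c1g.enc h1) h2))⟩
noncomputable def kc0q0_3 : Fn2 := ⟨_, _, fun h1 h2 => (enc_subr 25 32 h2)⟩
noncomputable def kc0q0_8 : Fn2 := ⟨_, _, fun h1 h2 => (enc_sub (enc_scale 3 4 h1) (enc_half (c1g.enc h1)))⟩
noncomputable def kc0q0 : Fn2 := ⟨_, _, fun h1 h2 => (enc_norm (enc_case (enc_add (kc0q0_8.enc h1 h2) (enc_rat _ 167 1000)) (enc_case (enc_add (kc0q0_8.enc h1 h2) (enc_rat _ 333 1000)) (enc_add (enc_add (enc_scale 464 167 (kc0q0_8.enc h1 h2)) (enc_rat _ 232 167)) (enc_mul (enc_norm (kc0q0_3.enc h1 h2)) (enc_norm (enc_subr 42634 167 (enc_neg (enc_scale 85268 167 (kc0q0_8.enc h1 h2))))))) (enc_add (enc_add (enc_scale 4613 1660 (kc0q0_8.enc h1 h2)) (enc_rat _ 2306369 1660000)) (enc_mul (enc_norm (kc0q0_3.enc h1 h2)) (enc_norm (enc_subr 23639993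 166000 (enc_neg (enc_scale 28485 166 (kc0q0_8.enc h1 h2)))))))) (enc_case (kc0q0_8.enc h1 h2) (enc_add (enc_add (enc_scale 4641 1670 (kc0q0_8.enc h1 h2)) (enc_rat _ 6947 5000)) (enc_mul (enc_norm (kc0q0_3.enc h1 h2)) (enc_norm (enc_subr 1687 500 (enc_scale 110379 167 (kc0q0_8.enc h1 h2)))))) (enc_add (enc_add (enc_scale 3653643720883 1315000000000 (kc0q0_8.enc h1 h2)) (enc_rat _ 6947 5000)) (enc_mul (enc_norm (kc0q0_3.enc h1 h2)) (enc_norm (enc_subr 1687 500 (enc_scale 34837906519247 1315000000000 (kc0q0_8.enc h1 h2)))))))))⟩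
noncomputable def kf0q1_10 : Fn2 := ⟨_, _, fun h1 h2 => (enc_scale 3 2 h1)⟩
noncomputable def kf0q1 : Fn2 := ⟨_, _, fun h1 h2 => (enc_norm (enc_add (enc_mul (enc_norm (enc_mul (enc_norm (enc_add (enc_pnc _ 1) (enc_nat 2 (c1g.enc h1)))) (enc_norm (enc_sub (kf0q1_10.enc h1 h2) (c1g.enc h1))))) (enc_inv (enc_nat 2 (enc_sub (enc_add (enc_pnc _ 1) (kf0q1_10.enc h1 h2)) (c1g.enc h1))))) (enc_mul (enc_norm (enc_subn 1 h1)) (kcg.enc (enc_norm (enc_sub (enc_scale 3 4 h1) (enc_half (c1g.enc h1)))) h2))))⟩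
noncomputable def l0q1 : Fn2 := ⟨_, _, fun h1 h2 => (enc_norm (txg.enc (enc_norm (enc_sub (enc_scale 3 4 h1) (enc_half (c1g.enc h1)))) (c1g.enc h1) h2))⟩
noncomputable def gsg : Fn1 := ⟨_, _, fun h1 => (enc_sqrt (enc_sub (enc_pnc _ 1) (enc_scale 3 4 (enc_sq h1))))⟩
noncomputable def gug : Fn1 := ⟨_, _, fun h1 => (enc_norm (enc_add (enc_scale 3 4 h1) (enc_scale 3 2 (enc_sub (enc_pnc _ 1) (gsg.enc h1)))))⟩
noncomputable def kc0q1_3 : Fn2 := ⟨_, _, fun h1 h2 => (enc_subr 25 32 h2)⟩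
noncomputable def kc0q1_9 : Fn2 := ⟨_, _, fun h1 h2 => (enc_sub (enc_scale 3 4 h1) (enc_half (c1g.enc h1)))⟩
noncomputable def kc0q1 : Fn2 := ⟨_, _, fun h1 h2 => (enc_norm (enc_case (enc_subr 263 1586 (kc0q1_9.enc h1 h2)) (enc_case (enc_add (kc0q1_9.enc h1 h2) (enc_rat _ 167 1000)) (enc_case (enc_add (kc0q1_9.enc h1 h2) (enc_rat _ 333 1000)) (enc_add (enc_add (enc_scale 464 167 (kc0q1_9.enc h1 h2)) (enc_rat _ 232 167)) (enc_mul (enc_norm (kc0q1_3.enc h1 h2)) (enc_norm (enc_subr 42634 167 (enc_neg (enc_scale 85268 167 (kc0q1_9.enc h1 h2))))))) (enc_add (enc_add (enc_scale 4613 1660 (kc0q1_9.enc h1 h2)) (enc_rat _ 2306369 1660000)) (enc_mul (enc_norm (kc0q1_3.enc h1 h2)) (enc_norm (enc_subr 23639993 166000 (enc_neg (enc_scale 28485 166 (kc0q1_9.enc h1 h2)))))))) (enc_case (kc0q1_9.enc h1 h2) (enc_add (enc_add (enc_scale 4641 1670 (kc0q1_9.enc h1 h2)) (enc_rat _ 6947 5000))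 (enc_mul (enc_norm (kc0q1_3.enc h1 h2)) (enc_norm (enc_subr 1687 500 (enc_scale 110379 167 (kc0q1_9.enc h1 h2)))))) (enc_add (enc_add (enc_scale 3653643720883 1315000000000 (kc0q1_9.enc h1 h2)) (enc_rat _ 6947 5000)) (enc_mul (enc_norm (kc0q1_3.enc h1 h2)) (enc_norm (enc_subr 1687 500 (enc_scale 34837906519247 1315000000000 (kc0q1_9.enc h1 h2)))))))) (enc_case (enc_subr 109 403 (kc0q1_9.enc h1 h2)) (enc_sub (enc_add (enc_add (enc_rat _ 3 4) (enc_scale 3 2 h1)) (enc_scale 3 4 (enc_mul (enc_norm (enc_mul h1 (enc_inv (c1g.enc h1)))) (gug.enc h1)))) (enc_mul (kcg.enc (enc_norm (kc0q1_9.enc h1 h2)) h2) (enc_norm (enc_add (gug.enc h1) (enc_nat 2 (c1g.enc h1)))))) (enc_case (enc_subr 333 1000 (kc0q1_9.enc h1 h2)) (enc_add (enc_sub (enc_rat _ 522381322882307 125995000000000) (enc_scale 1044792932079 125995000000 (kc0q1_9.enc h1 h2))) (enc_mul (enc_norm (kc0q1_3.enc h1 h2)) (enc_norm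 (enc_subr 4361445226287959 251990000000000 (enc_scale 14279440259123 251990000000 (kc0q1_9.enc h1 h2)))))) (enc_add (enc_sub (enc_rat _ 13847 3340) (enc_scale 13847 1670 (kc0q1_9.enc h1 h2))) (enc_mul (enc_norm (kc0q1_3.enc h1 h2)) (enc_norm (enc_sub (enc_rat _ 781 167) (enc_scale 1562 167 (kc0q1_9.enc h1 h2))))))))))⟩
noncomputable def yag : Fn1 := ⟨_, _, fun h1 => (enc_sqrt (enc_scale 4 3 (enc_sub (enc_pnc _ 1) (enc_sq h1))))⟩
noncomputable def kfc02 : Fn2 := ⟨_, _, fun h1 h2 => (enc_norm (enc_add h1 (enc_mul (enc_norm (enc_subn 1 (yag.enc h1))) (kcg.enc (enc_neg h1) h2))))⟩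
noncomputable def lc02_7 : Fn2 := ⟨_, _, fun h1 h2 => (enc_scale 3 4 (yag.enc h1))⟩
noncomputable def lc02_8 : Fn2 := ⟨_, _, fun h1 h2 => (enc_half h1)⟩
noncomputable def lc02 : Fn2 := ⟨_, _, fun h1 h2 => (enc_norm (enc_sub (txg.enc (enc_neg h1) (enc_norm (enc_add (lc02_7.enc h1 h2) (lc02_8.enc h1 h2))) h2) (txg.enc h1 (enc_norm (enc_sub (lc02_7.enc h1 h2) (lc02_8.enc h1 h2))) h2)))⟩
noncomputable def kcc02_4 : Fn2 := ⟨_, _, fun h1 h2 => (enc_subr 25 32 h2)⟩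
noncomputable def kcc02 : Fn2 := ⟨_, _, fun h1 h2 => (enc_norm (enc_case (enc_subr 1 10 h1) (enc_mul (enc_norm (kcc02_4.enc h1 h2)) (enc_scale 499 100 h1)) (enc_case (enc_subr 3 10 h1) (enc_mul (enc_norm (kcc02_4.enc h1 h2)) (enc_norm (enc_subr 1 2000 (enc_scale 999 200 h1)))) (enc_mul (enc_norm (kcc02_4.enc h1 h2)) (enc_norm (enc_sub (enc_rat _ 749 200) (enc_scale 749 100 h1)))))))⟩
noncomputable def swg : Fn1 := ⟨_, _, fun h1 => (enc_sqrt (enc_sub (enc_pnc _ 1) (enc_scale 3 4 (enc_sq (enc_norm (enc_subn 1 h1))))))⟩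
noncomputable def cv1m : Fn1 := ⟨_, _, fun h1 => (enc_norm (enc_add (enc_scale 3 5 (c1g.enc h1)) (enc_scale 2 5 (enc_add (swg.enc h1) (enc_rat _ 1 2)))))⟩
noncomputable def bf1q0_3 : Fn2 := ⟨_, _, fun h1 h2 => (enc_subr 25 32 h2)⟩
noncomputable def bf1q0 : Fn2 := ⟨_, _, fun h1 h2 => (enc_norm (enc_case (enc_subr 33 250 h1) (enc_sub (enc_sub (enc_pnc _ 1) (enc_scale 2041 1320 h1)) (enc_mul (enc_norm (bf1q0_3.enc h1 h2)) (enc_scale 80 33 h1))) (enc_case (enc_subr 263 1000 h1) (enc_add (enc_sub (enc_rat _ 266553 262000) (enc_scale 1099 655 h1)) (enc_mul (enc_norm (bf1q0_3.enc h1 h2)) (enc_norm (enc_subr 8342 16375 (enc_scale 188 131 h1))))) (enc_add (enc_sub (enc_rat _ 3114307 2370000) (enc_scale 665 237 h1)) (enc_mul (enc_norm (bf1q0_3.enc h1 h2)) (enc_norm (enc_subr 145163 237000 (enc_scale 433 237 h1))))))))⟩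
noncomputable def kf1q0 : Fn2 := ⟨_, _, fun h1 h2 => (enc_norm (enc_mul (cv1m.enc h1) (bf1q0.enc h1 h2)))⟩
noncomputable def bx1q0_3 : Fn2 := ⟨_, _, fun h1 h2 => (enc_subr 25 32 h2)⟩
noncomputable def bx1q0 : Fn2 := ⟨_, _, fun h1 h2 => (enc_norm (enc_case (enc_subr 7 40 h1) (enc_case (enc_subr 33 250 h1) (enc_scale 119 330 h1) (enc_add (enc_add (enc_scale 21 86 h1) (enc_rat _ 413 26875)) (enc_mul (enc_norm (bx1q0_3.enc h1 h2)) (enc_norm (enc_subr 33 10750 (enc_scale 1 43 h1)))))) (enc_case (enc_subr 263 1000 h1) (enc_add (enc_add (enc_scale 7 110 h1) (enc_rat _ 2583 55000)) (enc_mul (enc_norm (bx1q0_3.enc h1 h2)) (enc_norm (enc_subr 8203 22000 (enc_scale 47 22 h1))))) (enc_add (enc_add (enc_scale 481 2370 h1) (enc_rat _ 12233 1185000)) (enc_mul (enc_norm (bx1q0_3.enc h1 h2)) (enc_norm (enc_add (enc_scale 1 237 h1) (enc_rat _ 4453 23700))))))))⟩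
noncomputable def l1q0 : Fn2 := ⟨_, _, fun h1 h2 => (enc_norm (enc_mul (cv1m.enc h1) (bx1q0.enc h1 h2)))⟩
noncomputable def bd1q0_3 : Fn2 := ⟨_, _, fun h1 h2 => (enc_subr 25 32 h2)⟩
noncomputable def bd1q0 : Fn2 := ⟨_, _, fun h1 h2 => (enc_norm (enc_case (enc_subr 7 40 h1) (enc_sub (enc_mul (enc_norm (bd1q0_3.enc h1 h2)) (enc_scale 421 35 h1)) (enc_scale 6386 875 h1)) (enc_case (enc_subr 263 1000 h1) (enc_add (enc_subr 789511 880000 (enc_neg (enc_scale 1911 880 h1))) (enc_mul (enc_norm (bd1q0_3.enc h1 h2)) (enc_norm (enc_sub (enc_rat _ 5961 2200) (enc_scale 38 11 h1))))) (enc_add (enc_subr 3995029 1185000 (enc_scale 17149 2370 h1)) (enc_mul (enc_norm (bd1q0_3.enc h1 h2)) (enc_norm (enc_sub (enc_rat _ 223283 79000) (enc_scale 308 79 h1))))))))⟩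
noncomputable def kc1q0 : Fn2 := ⟨_, _, fun h1 h2 => (enc_norm (enc_mul (cv1m.enc h1) (bd1q0.enc h1 h2)))⟩
noncomputable def bf1q1_3 : Fn2 := ⟨_, _, fun h1 h2 => (enc_subr 25 32 h2)⟩
noncomputable def bf1q1 : Fn2 := ⟨_, _, fun h1 h2 => (enc_norm (enc_case (enc_subr 207 250 h1) (enc_add (enc_subr 271997 820000 (enc_scale 3589 3280 h1)) (enc_mul (enc_norm (bf1q1_3.enc h1 h2)) (enc_norm (enc_subr 50549 82000 (enc_scale 285 328 h1))))) (enc_add (enc_subr 8927 26875 (enc_scale 1883 1720 h1)) (enc_mul (enc_norm (bf1q1_3.enc h1 h2)) (enc_norm (enc_subr 26621 43000 (enc_scale 75 86 h1)))))))⟩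
noncomputable def kf1q1 : Fn2 := ⟨_, _, fun h1 h2 => (enc_norm (enc_mul (cv1m.enc h1) (bf1q1.enc h1 h2)))⟩
noncomputable def bx1q1_3 : Fn2 := ⟨_, _, fun h1 h2 => (enc_subr 25 32 h2)⟩
noncomputable def bx1q1 : Fn2 := ⟨_, _, fun h1 h2 => (enc_norm (enc_case (enc_subr 83 125 h1) (enc_case (enc_subr 111 200 h1) (enc_add (enc_add (enc_scale 56 275 h1) (enc_rat _ 549 55000)) (enc_scale 19 100 (bx1q1_3.enc h1 h2))) (enc_add (enc_sub (enc_rat _ 13629 109000) (enc_scale 2 545 h1)) (enc_mul (enc_norm (bx1q1_3.enc h1 h2)) (enc_norm (enc_sub (enc_rat _ 1339 4360) (enc_scale 23 109 h1)))))) (enc_case (enc_subr 15 16 h1) (enc_add (enc_sub (enc_rat _ 341951 2735000) (enc_scale 2 547 h1)) (enc_mul (enc_norm (bx1q1_3.enc h1 h2)) (enc_norm (enc_sub (enc_rat _ 828389 547000) (enc_scale 1110 547 h1))))) (enc_add (enc_sub (enc_rat _ 1283 5000) (enc_scale 18 125 h1)) (enc_mul (enc_norm (bx1q1_3.enc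 h1 h2)) (enc_norm (enc_subr 14893 1000 (enc_scale 1934 125 h1))))))))⟩
noncomputable def l1q1 : Fn2 := ⟨_, _, fun h1 h2 => (enc_norm (enc_mul (cv1m.enc h1) (bx1q1.enc h1 h2)))⟩
noncomputable def bd1q1 : Fn2 := ⟨_, _, fun h1 h2 => (enc_norm (enc_add (enc_subr 2283 625 (enc_scale 19497 2500 h1)) (enc_mul (enc_norm (enc_subr 25 32 h2)) (enc_norm (enc_sub (enc_rat _ 353 125) (enc_scale 1947 500 h1))))))⟩
noncomputable def kc1q1 : Fn2 := ⟨_, _, fun h1 h2 => (enc_norm (enc_mul (cv1m.enc h1) (bd1q1.enc h1 h2)))⟩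
noncomputable def xc12a : Fn1 := ⟨_, _, fun h1 => (enc_norm (enc_add (enc_scale 3 5 h1) (enc_scale 2 5 (enc_subr 1 2 (swg.enc (yag.enc h1))))))⟩
noncomputable def bf1q2_3 : Fn2 := ⟨_, _, fun h1 h2 => (enc_subr 25 32 h2)⟩
noncomputable def bf1q2 : Fn2 := ⟨_, _, fun h1 h2 => (enc_norm (enc_case (enc_subr 577 500 h1) (enc_case (enc_subr 17 16 h1) (enc_add (enc_sub (enc_rat _ 1573 625) (enc_scale 948 625 h1)) (enc_mul (enc_norm (bf1q2_3.enc h1 h2)) (enc_norm (enc_sub (enc_rat _ 48 5) (enc_scale 48 5 h1))))) (enc_add (enc_sub (enc_rat _ 19987 4800) (enc_scale 23003 7500 h1)) (enc_mul (enc_norm (bf1q2_3.enc h1 h2)) (enc_norm (enc_subr 4114897 244000 (enc_scale 233441 15250 h1)))))) (enc_case (enc_subr 231 200 h1) (enc_add (enc_sub (enc_rat _ 34379 10000) (enc_scale 24379 10000 h1)) (enc_mul (enc_norm (bf1q2_3.enc h1 h2)) (enc_norm (enc_subr 5199 1000 (enc_scale 5199 1000 h1)))))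 (enc_add (enc_sub (enc_rat _ 1581357 460000) (enc_scale 1682051 690000 h1)) (enc_mul (enc_norm (bf1q2_3.enc h1 h2)) (enc_norm (enc_subr 239231 46000 (enc_scale 358831 69000 h1))))))))⟩
noncomputable def kfc12a : Fn2 := ⟨_, _, fun h1 h2 => (enc_norm (enc_mul (enc_norm (enc_add (enc_scale 3 5 h1) (enc_scale 2 5 (enc_subr 1 2 (swg.enc (yag.enc h1)))))) (bf1q2.enc (yag.enc h1) h2)))⟩
noncomputable def bx1q2_3 : Fn2 := ⟨_, _, fun h1 h2 => (enc_subr 25 32 h2)⟩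
noncomputable def bx1q2 : Fn2 := ⟨_, _, fun h1 h2 => (enc_norm (enc_case (enc_subr 577 500 h1) (enc_case (enc_subr 17 16 h1) (enc_add (enc_sub (enc_rat _ 386 625) (enc_scale 386 625 h1)) (enc_mul (enc_norm (bx1q2_3.enc h1 h2)) (enc_norm (enc_sub (enc_rat _ 108 25) (enc_scale 108 25 h1))))) (enc_case (enc_subr 277 250 h1) (enc_add (enc_sub (enc_rat _ 1182499 910000) (enc_scale 573 455 h1)) (enc_mul (enc_norm (bx1q2_3.enc h1 h2)) (enc_norm (enc_subr 78957 9100 (enc_scale 720 91 h1))))) (enc_add (enc_sub (enc_rat _ 7949151 5750000) (enc_scale 3836 2875 h1)) (enc_mul (enc_norm (bx1q2_3.enc h1 h2)) (enc_norm (enc_subr 2492609 287500 (enc_scale 4546 575 h1))))))) (enc_case (enc_subr 231 200 h1) (enc_subr 39319 250000 (enc_scale 5671 12500 (bx1q2_3.enc h1 h2))) (enc_case (enc_subr 166 125 h1) (enc_add (enc_subr 9789829 5406250 (enc_scale 61919 43250 h1)) (enc_mul (enc_norm (bx1q2_3.enc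 h1 h2)) (enc_norm (enc_sub (enc_rat _ 6162169 1081250) (enc_scale 19642 4325 h1))))) (enc_add (enc_subr 48657 26875 (enc_scale 1231 860 h1)) (enc_mul (enc_norm (bx1q2_3.enc h1 h2)) (enc_norm (enc_subr 10956 5375 (enc_scale 221 172 h1)))))))))⟩
noncomputable def lc12a : Fn2 := ⟨_, _, fun h1 h2 => (enc_norm (enc_mul (enc_norm (enc_add (enc_scale 3 5 h1) (enc_scale 2 5 (enc_subr 1 2 (swg.enc (yag.enc h1)))))) (bx1q2.enc (yag.enc h1) h2)))⟩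
noncomputable def bd1q2_3 : Fn2 := ⟨_, _, fun h1 h2 => (enc_subr 25 32 h2)⟩
noncomputable def bd1q2 : Fn2 := ⟨_, _, fun h1 h2 => (enc_norm (enc_case (enc_subr 577 500 h1) (enc_mul (enc_norm (bd1q2_3.enc h1 h2)) (enc_norm (enc_subr 2495 77 (enc_scale 2495 77 h1)))) (enc_case (enc_subr 231 200 h1) (enc_scale 499 100 (bd1q2_3.enc h1 h2)) (enc_add (enc_subr 2635787 230000 (enc_scale 34231 3450 h1)) (enc_mul (enc_norm (bd1q2_3.enc h1 h2)) (enc_norm (enc_add (enc_scale 1 115 h1) (enc_rat _ 114539 23000))))))))⟩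
noncomputable def kcc12a : Fn2 := ⟨_, _, fun h1 h2 => (enc_norm (enc_mul (enc_norm (enc_add (enc_scale 3 5 h1) (enc_scale 2 5 (enc_subr 1 2 (swg.enc (yag.enc h1)))))) (bd1q2.enc (yag.enc h1) h2)))⟩
noncomputable def xc12b : Fn1 := ⟨_, _, fun h1 => (enc_norm (enc_scale 2 5 (enc_subr 1 2 (swg.enc h1))))⟩
noncomputable def kfc12b : Fn2 := ⟨_, _, fun h1 h2 => (enc_norm (enc_mul (enc_norm (enc_scale 2 5 (enc_subr 1 2 (swg.enc h1)))) (bf1q2.enc h1 h2)))⟩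
noncomputable def lc12b : Fn2 := ⟨_, _, fun h1 h2 => (enc_norm (enc_mul (enc_norm (enc_scale 2 5 (enc_subr 1 2 (swg.enc h1)))) (bx1q2.enc h1 h2)))⟩
noncomputable def kcc12b : Fn2 := ⟨_, _, fun h1 h2 => (enc_norm (enc_mul (enc_norm (enc_scale 2 5 (enc_subr 1 2 (swg.enc h1)))) (bd1q2.enc h1 h2)))⟩
noncomputable def cv1r : Fn1 := ⟨_, _, fun h1 => (enc_norm (enc_scale 2 5 (enc_subr 1 2 (swg.enc h1))))⟩
noncomputable def c3g : Fn1 := ⟨_, _, fun h1 => (enc_sqrtg (enc_sub (enc_pnc _ 3) (enc_scale 3 4 (enc_sq h1))))⟩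
noncomputable def kf1q3_4 : Fn2 := ⟨_, _, fun h1 h2 => (enc_subr 25 32 h2)⟩
noncomputable def kf1q3 : Fn2 := ⟨_, _, fun h1 h2 => (enc_norm (enc_mul (cv1r.enc h1) (enc_norm (enc_case (enc_subr 1737 1000 h1) (enc_add (enc_subr 2603719 790000 (enc_scale 2354 1185 h1)) (enc_mul (enc_norm (kf1q3_4.enc h1 h2)) (enc_norm (enc_subr 275543 79000 (enc_scale 422 237 h1))))) (enc_case (enc_subr 73 40 h1) (enc_add (enc_subr 145007 44000 (enc_scale 437 220 h1)) (enc_mul (enc_norm (kf1q3_4.enc h1 h2)) (enc_norm (enc_subr 307469 88000 (enc_scale 157 88 h1))))) (enc_add (enc_subr 1223 2000 (enc_scale 235250000 177135409 (c3g.enc h1))) (enc_mul (enc_norm (kf1q3_4.enc h1 h2)) (enc_norm (enc_subr 177 1000 (enc_neg (enc_scale 15250000 177135409 (c3g.enc h1))))))))))))⟩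
noncomputable def l1q3_4 : Fn2 := ⟨_, _, fun h1 h2 => (enc_subr 25 32 h2)⟩
noncomputable def l1q3 : Fn2 := ⟨_, _, fun h1 h2 => (enc_norm (enc_mul (cv1r.enc h1) (enc_norm (enc_case (enc_subr 1737 1000 h1) (enc_case (enc_subr 839 500 h1) (enc_add (enc_subr 805713 445000 (enc_scale 637 445 h1)) (enc_mul (enc_norm (l1q3_4.enc h1 h2)) (enc_norm (enc_subr 149379 89000 (enc_scale 93 89 h1))))) (enc_add (enc_subr 533653 295000 (enc_scale 422 295 h1)) (enc_mul (enc_norm (l1q3_4.enc h1 h2)) (enc_norm (enc_sub (enc_rat _ 157123 59000) (enc_scale 91 59 h1)))))) (enc_case (enc_subr 73 40 h1) (enc_add (enc_subr 398479 220000 (enc_scale 63 44 h1)) (enc_mul (enc_norm (l1q3_4.enc h1 h2)) (enc_norm (enc_sub (enc_rat _ 233087 88000) (enc_scale 135 88 h1))))) (enc_add (enc_sub (enc_rat _ 11519 10000) (enc_scale 87525000 177135409 (c3g.enc h1))) (enc_mul (enc_norm (l1q3_4.enc h1 h2)) (enc_norm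 (enc_subr 333 1000 (enc_scale 45500000 177135409 (c3g.enc h1)))))))))))⟩
noncomputable def kc1q3_4 : Fn2 := ⟨_, _, fun h1 h2 => (enc_subr 25 32 h2)⟩
noncomputable def kc1q3 : Fn2 := ⟨_, _, fun h1 h2 => (enc_norm (enc_mul (cv1r.enc h1) (enc_norm (enc_case (enc_subr 1737 1000 h1) (enc_add (enc_subr 10075751 790000 (enc_scale 852 79 h1)) (enc_mul (enc_norm (kc1q3_4.enc h1 h2)) (enc_norm (enc_sub (enc_rat _ 9374947 79000) (enc_scale 5987 79 h1))))) (enc_case (enc_subr 73 40 h1) (enc_add (enc_subr 11224259 880000 (enc_scale 9491 880 h1)) (enc_mul (enc_norm (kc1q3_4.enc h1 h2)) (enc_norm (enc_sub (enc_rat _ 10442869 88000) (enc_scale 6669 88 h1))))) (enc_add (enc_rat _ 34641 5000) (enc_mul (enc_norm (kc1q3_4.enc h1 h2)) (enc_norm (enc_subr 31023 1000 (enc_scale 2846500000 177135409 (c3g.enc h1)))))))))))⟩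
noncomputable def cv2m : Fn1 := ⟨_, _, fun h1 => (enc_norm (enc_add (enc_scale 4 5 (enc_add (swg.enc h1) (enc_rat _ 1 2))) (enc_scale 1 5 (c3g.enc h1))))⟩
noncomputable def esg : Fn1 := ⟨_, _, fun h1 => (enc_norm (enc_subn 1 (enc_add (enc_half h1) (gsg.enc h1))))⟩
noncomputable def kf2q0_4 : Fn2 := ⟨_, _, fun h1 h2 => (enc_subr 25 32 h2)⟩
noncomputable def kf2q0_29 : Fn2 := ⟨_, _, fun h1 h2 => (enc_sub (enc_pnc _ 1) h1)⟩
noncomputable def kf2q0_30 : Fn2 := ⟨_, _, fun h1 h2 => (gsg.enc (enc_norm (kf2q0_29.enc h1 h2)))⟩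
noncomputable def kf2q0_33 : Fn2 := ⟨_, _, fun h1 h2 => (enc_sub (enc_scale 3 4 (kf2q0_29.enc h1 h2)) (enc_half (kf2q0_30.enc h1 h2)))⟩
noncomputable def kf2q0_51 : Fn2 := ⟨_, _, fun h1 h2 => (enc_mul (cv1m.enc h1) (bf1q0.enc h1 h2))⟩
noncomputable def kf2q0 : Fn2 := ⟨_, _, fun h1 h2 => (enc_norm (enc_case (enc_subr 7 40 h1) (enc_mul (cv2m.enc h1) (enc_norm (enc_add (enc_sub (enc_rat _ 8689 10000) (enc_scale 570528827 218750000 h1)) (enc_mul (enc_norm (kf2q0_4.enc h1 h2)) (enc_norm (enc_subr 13 100 (enc_scale 113744727 175000000 h1))))))) (enc_case (enc_subr 263 1000 h1) (enc_add (kf2q0_51.enc h1 h2) (enc_mul (enc_norm (enc_mul (enc_norm (enc_sub (enc_mul h1 (enc_norm (enc_sub (enc_mul (enc_norm (enc_sub (kf2q0_33.enc h1 h2) (enc_sub (enc_rat _ 1 4) (enc_scale 3 8 (enc_mul (enc_norm (kf2q0_29.enc h1 h2)) (enc_inv (kf2q0_30.enc h1 h2))))))) (enc_inv (esg.enc (enc_norm (kf2q0_29.enc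 h1 h2))))) (kcg.enc (enc_norm (kf2q0_33.enc h1 h2)) h2)))) (kf2q0_51.enc h1 h2))) (enc_norm (enc_sub (cv2m.enc h1) (cv1m.enc h1))))) (enc_inv (enc_sub (enc_add (swg.enc h1) (enc_rat _ 1 2)) (cv1m.enc h1))))) (enc_mul (cv2m.enc h1) (enc_norm (enc_add (enc_sub (enc_rat _ 1575259427 1580000000) (enc_scale 2178819427 790000000 h1)) (enc_mul (enc_norm (kf2q0_4.enc h1 h2)) (enc_norm (enc_sub (enc_rat _ 127188133 474000000) (enc_scale 90216133 237000000 h1))))))))))⟩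
noncomputable def qsg : Fn1 := ⟨_, _, fun h1 => (enc_norm (enc_mul (enc_norm (enc_sub (enc_pnc _ 1) (gsg.enc h1))) (enc_norm (enc_subn 1 (enc_nat 2 (gsg.enc h1))))))⟩
noncomputable def l2q0_4 : Fn2 := ⟨_, _, fun h1 h2 => (enc_subr 25 32 h2)⟩
noncomputable def l2q0_49 : Fn2 := ⟨_, _, fun h1 h2 => (enc_sq (enc_norm (l2q0_4.enc h1 h2)))⟩
noncomputable def l2q0_99 : Fn2 := ⟨_, _, fun h1 h2 => (enc_sub (enc_pnc _ 1) h1)⟩
noncomputable def l2q0_114 : Fn2 := ⟨_, _, fun h1 h2 => (enc_mul (cv1m.enc h1) (bx1q0.enc h1 h2))⟩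
noncomputable def l2q0 : Fn2 := ⟨_, _, fun h1 h2 => (enc_norm (enc_case (enc_subr 7 40 h1) (enc_mul (cv2m.enc h1) (enc_norm (enc_case (enc_subr 11 125 h1) (enc_case (enc_subr 1 16 h1) (enc_add (enc_add (enc_scale 42 125 h1) (enc_rat _ 167 2000)) (enc_mul (enc_norm (l2q0_4.enc h1 h2)) (enc_norm (enc_add (enc_scale 178 125 h1) (enc_rat _ 71 1000))))) (enc_add (enc_add (enc_scale 23 85 h1) (enc_rat _ 1489 17000)) (enc_mul (enc_norm (l2q0_4.enc h1 h2)) (enc_norm (enc_add (enc_scale 52 51 h1) (enc_rat _ 491 5100)))))) (enc_case (enc_subr 33 250 h1) (enc_add (enc_add (enc_scale 93 440 h1) (enc_rat _ 58 625)) (enc_mul (enc_norm (l2q0_4.enc h1 h2)) (enc_norm (enc_add (enc_scale 47 44 h1) (enc_rat _ 23 250))))) (enc_add (enc_add (enc_add (enc_scale 20892901 430000000 h1) (enc_rat _ 12285784267 107500000000)) (enc_mul (enc_norm (l2q0_4.enc h1 h2)) (enc_norm (enc_sub (enc_rat _ 3117628357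 5375000000) (enc_scale 56522829 21500000 h1))))) (enc_mul (l2q0_49.enc h1 h2) (enc_norm (enc_subr 8142189 10750000 (enc_scale 246733 43000 h1))))))))) (enc_case (enc_subr 263 1000 h1) (enc_add (l2q0_114.enc h1 h2) (enc_mul (enc_norm (enc_mul (enc_norm (enc_sub (enc_sub (qsg.enc (enc_norm (l2q0_99.enc h1 h2))) (enc_mul (enc_norm (enc_nat 2 (enc_sub (l2q0_99.enc h1 h2) h2))) (enc_norm (enc_mul (esg.enc (enc_norm (l2q0_99.enc h1 h2))) (kcg.enc (enc_norm (enc_sub (enc_scale 3 4 (l2q0_99.enc h1 h2)) (enc_half (gsg.enc (enc_norm (l2q0_99.enc h1 h2)))))) h2))))) (l2q0_114.enc h1 h2))) (enc_norm (enc_sub (cv2m.enc h1) (cv1m.enc h1))))) (enc_inv (enc_sub (enc_add (swg.enc h1) (enc_rat _ 1 2)) (cv1m.enc h1))))) (enc_mul (cv2m.enc h1) (enc_norm (enc_case (enc_subr 159 500 h1) (enc_add (enc_add (enc_sub (enc_rat _ 16588445299 137500000000) (enc_scale 5658461 275000000 h1)) (enc_mul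 (enc_norm (l2q0_4.enc h1 h2)) (enc_norm (enc_subr 38277527 214843750 (enc_scale 1162937 1718750 h1))))) (enc_mul (l2q0_49.enc h1 h2) (enc_norm (enc_subr 19203861 27500000 (enc_scale 120779 55000 h1))))) (enc_case (enc_subr 93 250 h1) (enc_add (enc_sub (enc_rat _ 2713 22500) (enc_scale 11 540 h1)) (enc_mul (enc_norm (l2q0_4.enc h1 h2)) (enc_norm (enc_subr 3589 9000 (enc_scale 37 27 h1))))) (enc_add (enc_sub (enc_rat _ 38671 320000) (enc_scale 27 1280 h1)) (enc_mul (enc_norm (l2q0_4.enc h1 h2)) (enc_norm (enc_add (enc_scale 23 128 h1) (enc_rat _ 1413 32000))))))))))))⟩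
noncomputable def kc2q0_4 : Fn2 := ⟨_, _, fun h1 h2 => (enc_subr 25 32 h2)⟩
noncomputable def kc2q0_30 : Fn2 := ⟨_, _, fun h1 h2 => (enc_sub (enc_pnc _ 1) h1)⟩
noncomputable def kc2q0_31 : Fn2 := ⟨_, _, fun h1 h2 => (gsg.enc (enc_norm (kc2q0_30.enc h1 h2)))⟩
noncomputable def kc2q0_35 : Fn2 := ⟨_, _, fun h1 h2 => (esg.enc (enc_norm (kc2q0_30.enc h1 h2)))⟩
noncomputable def kc2q0_39 : Fn2 := ⟨_, _, fun h1 h2 => (gug.enc (enc_norm (kc2q0_30.enc h1 h2)))⟩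
noncomputable def kc2q0_41 : Fn2 := ⟨_, _, fun h1 h2 => (enc_mul (enc_norm (kc2q0_30.enc h1 h2)) (enc_inv (kc2q0_31.enc h1 h2)))⟩
noncomputable def kc2q0_42 : Fn2 := ⟨_, _, fun h1 h2 => (enc_scale 3 4 (kc2q0_41.enc h1 h2))⟩
noncomputable def kc2q0_71 : Fn2 := ⟨_, _, fun h1 h2 => (enc_mul (cv1m.enc h1) (bd1q0.enc h1 h2))⟩
noncomputable def kc2q0 : Fn2 := ⟨_, _, fun h1 h2 => (enc_norm (enc_case (enc_subr 7 40 h1) (enc_mul (cv2m.enc h1) (enc_norm (enc_add (enc_subr 1063 1000 (enc_neg (enc_scale 16023707423 1750000000 h1))) (enc_mul (enc_norm (kc2q0_4.enc h1 h2)) (enc_norm (enc_subr 943 250 (enc_scale 35147497 1000000 h1))))))) (enc_case (enc_subr 263 1000 h1) (enc_add (kc2q0_71.enc h1 h2) (enc_mul (enc_norm (enc_mul (enc_norm (enc_sub (enc_add (enc_sub (enc_neg (enc_add (enc_add (enc_rat _ 3 4) (enc_scale 3 2 (kc2q0_30.enc h1 h2))) (enc_scale 3 4 (enc_mul (enc_norm (kc2q0_41.enc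 h1 h2)) (kc2q0_39.enc h1 h2))))) (enc_mul (enc_norm (enc_sub (enc_mul (enc_norm (enc_mul (enc_norm (kc2q0_42.enc h1 h2)) (enc_norm (enc_subn 3 (enc_nat 4 (kc2q0_31.enc h1 h2)))))) (kc2q0_35.enc h1 h2)) (enc_mul (qsg.enc (enc_norm (kc2q0_30.enc h1 h2))) (enc_norm (enc_sub (enc_rat _ 1 2) (kc2q0_42.enc h1 h2)))))) (enc_inv (enc_mul (enc_nat 2 (kc2q0_35.enc h1 h2)) (kc2q0_35.enc h1 h2))))) (enc_mul (kcg.enc (enc_norm (enc_sub (enc_scale 3 4 (kc2q0_30.enc h1 h2)) (enc_half (kc2q0_31.enc h1 h2)))) h2) (enc_norm (enc_add (enc_pnc _ 1) (enc_add (kc2q0_39.enc h1 h2) (enc_nat 2 (kc2q0_31.enc h1 h2))))))) (kc2q0_71.enc h1 h2))) (enc_norm (enc_sub (cv2m.enc h1) (cv1m.enc h1))))) (enc_inv (enc_sub (enc_add (swg.enc h1) (enc_rat _ 1 2)) (cv1m.enc h1))))) (enc_mul (cv2m.enc h1) (enc_norm (enc_add (enc_subr 5012223883 1580000000 (enc_scale 3016051883 790000000 h1)) (enc_mul (enc_norm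 (kc2q0_4.enc h1 h2)) (enc_norm (enc_subr 716750179 237000000 (enc_scale 358169179 118500000 h1))))))))))⟩
noncomputable def bf2q1_3 : Fn2 := ⟨_, _, fun h1 h2 => (enc_subr 25 32 h2)⟩
noncomputable def bf2q1 : Fn2 := ⟨_, _, fun h1 h2 => (enc_norm (enc_case (enc_subr 207 250 h1) (enc_case (enc_subr 83 125 h1) (enc_add (enc_subr 72791 410000 (enc_scale 247 205 h1)) (enc_mul (enc_norm (bf2q1_3.enc h1 h2)) (enc_norm (enc_subr 5741 41000 (enc_neg (enc_scale 5 41 h1)))))) (enc_add (enc_subr 13197 82000 (enc_scale 387 328 h1)) (enc_mul (enc_norm (bf2q1_3.enc h1 h2)) (enc_norm (enc_subr 26989 41000 (enc_scale 27 41 h1)))))) (enc_case (enc_subr 883 1000 h1) (enc_add (enc_subr 6621 68750 (enc_scale 303 275 h1)) (enc_mul (enc_norm (bf2q1_3.enc h1 h2)) (enc_norm (enc_subr 36023 55000 (enc_scale 36 55 h1))))) (enc_add (enc_subr 32 585 (enc_scale 617 585 h1)) (enc_mul (enc_norm (bf2q1_3.enc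 h1 h2)) (enc_norm (enc_subr 77 117 (enc_scale 77 117 h1))))))))⟩
noncomputable def kf2q1 : Fn2 := ⟨_, _, fun h1 h2 => (enc_norm (enc_mul (cv2m.enc h1) (bf2q1.enc h1 h2)))⟩
noncomputable def bx2q1_3 : Fn2 := ⟨_, _, fun h1 h2 => (enc_subr 25 32 h2)⟩
noncomputable def bx2q1 : Fn2 := ⟨_, _, fun h1 h2 => (enc_norm (enc_case (enc_subr 83 125 h1) (enc_case (enc_subr 111 200 h1) (enc_add (enc_sub (enc_rat _ 13333 110000) (enc_scale 6 275 h1)) (enc_mul (enc_norm (bx2q1_3.enc h1 h2)) (enc_norm (enc_add (enc_scale 1 5 h1) (enc_rat _ 17 500))))) (enc_case (enc_subr 609 1000 h1) (enc_add (enc_sub (enc_rat _ 8887 45000) (enc_scale 43 270 h1)) (enc_mul (enc_norm (bx2q1_3.enc h1 h2)) (enc_norm (enc_add (enc_scale 5 27 h1) (enc_rat _ 19 450))))) (enc_add (enc_sub (enc_rat _ 15207 68750) (enc_scale 109 550 h1)) (enc_mul (enc_norm (bx2q1_3.enc h1 h2)) (enc_norm (enc_add (enc_scale 2 11 h1)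 (enc_rat _ 487 11000))))))) (enc_case (enc_subr 207 250 h1) (enc_add (enc_sub (enc_rat _ 1121 4100) (enc_scale 227 820 h1)) (enc_mul (enc_norm (bx2q1_3.enc h1 h2)) (enc_norm (enc_add (enc_scale 15 82 h1) (enc_rat _ 357 8200))))) (enc_case (enc_subr 883 1000 h1) (enc_add (enc_sub (enc_rat _ 75497 275000) (enc_scale 153 550 h1)) (enc_mul (enc_norm (bx2q1_3.enc h1 h2)) (enc_norm (enc_sub (enc_rat _ 32253 55000) (enc_scale 26 55 h1))))) (enc_add (enc_sub (enc_rat _ 289 1170) (enc_scale 289 1170 h1)) (enc_mul (enc_norm (bx2q1_3.enc h1 h2)) (enc_norm (enc_sub (enc_rat _ 13 9) (enc_scale 13 9 h1)))))))))⟩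
noncomputable def l2q1 : Fn2 := ⟨_, _, fun h1 h2 => (enc_norm (enc_mul (cv2m.enc h1) (bx2q1.enc h1 h2)))⟩
noncomputable def bd2q1 : Fn2 := ⟨_, _, fun h1 h2 => (enc_norm (enc_add (enc_subr 6317 2500 (enc_scale 6317 2500 h1)) (enc_mul (enc_norm (enc_subr 25 32 h2)) (enc_norm (enc_subr 1513 500 (enc_scale 1513 500 h1))))))⟩
noncomputable def kc2q1 : Fn2 := ⟨_, _, fun h1 h2 => (enc_norm (enc_mul (cv2m.enc h1) (bd2q1.enc h1 h2)))⟩
noncomputable def cv2p : Fn1 := ⟨_, _, fun h1 => (enc_norm (enc_add (enc_scale 4 5 (enc_subr 1 2 (swg.enc h1))) (enc_scale 1 5 (c3g.enc h1))))⟩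
noncomputable def bf2q2_3 : Fn2 := ⟨_, _, fun h1 h2 => (enc_subr 25 32 h2)⟩
noncomputable def bf2q2 : Fn2 := ⟨_, _, fun h1 h2 => (enc_norm (enc_case (enc_subr 277 250 h1) (enc_add (enc_sub (enc_rat _ 362951 135000) (enc_scale 181 108 h1)) (enc_mul (enc_norm (bf2q2_3.enc h1 h2)) (enc_norm (enc_subr 4123 27000 (enc_neg (enc_scale 8 27 h1)))))) (enc_case (enc_subr 577 500 h1) (enc_add (enc_sub (enc_rat _ 77231 28750) (enc_scale 77 46 h1)) (enc_mul (enc_norm (bf2q2_3.enc h1 h2)) (enc_norm (enc_subr 73111 23000 (enc_scale 56 23 h1))))) (enc_add (enc_sub (enc_rat _ 162333 69200) (enc_scale 4771 3460 h1)) (enc_mul (enc_norm (bf2q2_3.enc h1 h2)) (enc_norm (enc_subr 547363 173000 (enc_scale 419 173 h1))))))))⟩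
noncomputable def kf2q2 : Fn2 := ⟨_, _, fun h1 h2 => (enc_norm (enc_mul (cv2p.enc h1) (bf2q2.enc h1 h2)))⟩
noncomputable def bx2q2_3 : Fn2 := ⟨_, _, fun h1 h2 => (enc_subr 25 32 h2)⟩
noncomputable def bx2q2_34 : Fn2 := ⟨_, _, fun h1 h2 => (enc_scale 21 58 h1)⟩
noncomputable def bx2q2_60 : Fn2 := ⟨_, _, fun h1 h2 => (enc_scale 22 57 h1)⟩
noncomputable def bx2q2 : Fn2 := ⟨_, _, fun h1 h2 => (enc_norm (enc_case (enc_subr 1213 1000 h1) (enc_case (enc_subr 277 250 h1) (enc_add (enc_sub (enc_rat _ 33691 67500) (enc_scale 203 540 h1)) (enc_mul (enc_norm (bx2q2_3.enc h1 h2)) (enc_norm (enc_sub (enc_rat _ 2137 540) (enc_scale 395 108 h1))))) (enc_case (enc_subr 231 200 h1) (enc_add (enc_sub (enc_rat _ 137413 235000) (enc_scale 213 470 h1)) (enc_mul (enc_norm (bx2q2_3.enc h1 h2)) (enc_norm (enc_subr 85101 9400 (enc_scale 380 47 h1))))) (enc_add (enc_subr 94961 580000 (enc_scale 113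 580 h1)) (enc_mul (enc_norm (bx2q2_3.enc h1 h2)) (enc_norm (enc_sub (enc_rat _ 8157 11600) (bx2q2_34.enc h1 h2))))))) (enc_case (enc_subr 277 200 h1) (enc_case (enc_subr 166 125 h1) (enc_add (enc_subr 136211 287500 (enc_scale 259 575 h1)) (enc_mul (enc_norm (bx2q2_3.enc h1 h2)) (enc_norm (enc_sub (enc_rat _ 82519 115000) (enc_scale 43 115 h1))))) (enc_add (enc_subr 74569 142500 (enc_scale 139 285 h1)) (enc_mul (enc_norm (bx2q2_3.enc h1 h2)) (enc_norm (enc_sub (enc_rat _ 41813 57000) (bx2q2_60.enc h1 h2)))))) (enc_case (enc_subr 1443 1000 h1) (enc_add (enc_subr 80421 145000 (enc_scale 74 145 h1)) (enc_mul (enc_norm (bx2q2_3.enc h1 h2)) (enc_norm (enc_sub (enc_rat _ 40627 58000) (bx2q2_34.enc h1 h2))))) (enc_add (enc_subr 98169 95000 (enc_scale 16 19 h1)) (enc_mul (enc_norm (bx2q2_3.enc h1 h2)) (enc_norm (enc_sub (enc_rat _ 3491 4750) (bx2q2_60.enc h1 h2)))))))))⟩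
noncomputable def l2q2 : Fn2 := ⟨_, _, fun h1 h2 => (enc_norm (enc_mul (cv2p.enc h1) (bx2q2.enc h1 h2)))⟩
noncomputable def bd2q2 : Fn2 := ⟨_, _, fun h1 h2 => (enc_norm (enc_add (enc_subr 64083 10000 (enc_scale 152 25 h1)) (enc_mul (enc_norm (enc_subr 25 32 h2)) (enc_norm (enc_sub (enc_rat _ 2263 50) (enc_scale 694 25 h1))))))⟩
noncomputable def kc2q2 : Fn2 := ⟨_, _, fun h1 h2 => (enc_norm (enc_mul (cv2p.enc h1) (bd2q2.enc h1 h2)))⟩
noncomputable def ycg : Fn1 := ⟨_, _, fun h1 => (enc_sqrtg (enc_scale 4 3 (enc_sub (enc_pnc _ 3) (enc_sq h1))))⟩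
noncomputable def xc23 : Fn1 := ⟨_, _, fun h1 => (enc_norm (enc_add (enc_scale 4 5 (enc_subr 1 2 (swg.enc (ycg.enc h1)))) (enc_scale 1 5 h1)))⟩
noncomputable def kfc23_6 : Fn2 := ⟨_, _, fun h1 h2 => (enc_subr 1 2 (swg.enc (ycg.enc h1)))⟩
noncomputable def kfc23_9 : Fn2 := ⟨_, _, fun h1 h2 => (enc_add (enc_scale 4 5 (kfc23_6.enc h1 h2)) (enc_scale 1 5 h1))⟩
noncomputable def kfc23_11 : Fn2 := ⟨_, _, fun h1 h2 => (enc_subr 25 32 h2)⟩
noncomputable def kfc23_45 : Fn2 := ⟨_, _, fun h1 h2 => (enc_subn 1 (ycg.enc h1))⟩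
noncomputable def kfc23_46 : Fn2 := ⟨_, _, fun h1 h2 => (gsg.enc (enc_norm (kfc23_45.enc h1 h2)))⟩
noncomputable def kfc23_47 : Fn2 := ⟨_, _, fun h1 h2 => (enc_scale 3 4 (kfc23_45.enc h1 h2))⟩
noncomputable def kfc23_48 : Fn2 := ⟨_, _, fun h1 h2 => (enc_half (kfc23_46.enc h1 h2))⟩
noncomputable def kfc23_65 : Fn2 := ⟨_, _, fun h1 h2 => (cv1r.enc (ycg.enc h1))⟩
noncomputable def kfc23_67 : Fn2 := ⟨_, _, fun h1 h2 => (enc_subr 1737 1000 (ycg.enc h1))⟩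
noncomputable def kfc23_79 : Fn2 := ⟨_, _, fun h1 h2 => (enc_subr 73 40 (ycg.enc h1))⟩
noncomputable def kfc23_103 : Fn2 := ⟨_, _, fun h1 h2 => (enc_mul (kfc23_65.enc h1 h2) (enc_norm (enc_case (kfc23_67.enc h1 h2) (enc_add (enc_subr 2603719 790000 (enc_scale 2354 1185 (ycg.enc h1))) (enc_mul (enc_norm (kfc23_11.enc h1 h2)) (enc_norm (enc_subr 275543 79000 (enc_scale 422 237 (ycg.enc h1)))))) (enc_case (kfc23_79.enc h1 h2) (enc_add (enc_subr 145007 44000 (enc_scale 437 220 (ycg.enc h1))) (enc_mul (enc_norm (kfc23_11.enc h1 h2)) (enc_norm (enc_subr 307469 88000 (enc_scale 157 88 (ycg.enc h1)))))) (enc_add (enc_subr 1223 2000 (enc_scale 235250000 177135409 h1)) (enc_mul (enc_norm (kfc23_11.enc h1 h2)) (enc_norm (enc_subr 177 1000 (enc_neg (enc_scale 15250000 177135409 h1))))))))))⟩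
noncomputable def kfc23 : Fn2 := ⟨_, _, fun h1 h2 => (enc_norm (enc_case (kfc23_67.enc h1 h2) (enc_mul (enc_norm (kfc23_9.enc h1 h2)) (enc_norm (enc_add (enc_subr 2603545751 790000000 (enc_scale 784608917 395000000 (ycg.enc h1))) (enc_mul (enc_norm (kfc23_11.enc h1 h2)) (enc_norm (enc_subr 177942509 15800000 (enc_scale 161068109 23700000 (ycg.enc h1)))))))) (enc_case (kfc23_79.enc h1 h2) (enc_add (kfc23_103.enc h1 h2) (enc_mul (enc_norm (enc_mul (enc_norm (enc_sub (enc_mul (enc_norm (enc_subn 2 (ycg.enc h1))) (enc_norm (enc_add (enc_mul (enc_norm (enc_sub (enc_sub (kfc23_48.enc h1 h2) (kfc23_47.enc h1 h2)) (enc_sub (enc_rat _ 1 4) (enc_scale 3 8 (enc_mul (enc_norm (kfc23_45.enc h1 h2)) (enc_inv (kfc23_46.enc h1 h2))))))) (enc_inv (esg.enc (enc_norm (kfc23_45.enc h1 h2))))) (kcg.enc (enc_norm (enc_sub (kfc23_47.enc h1 h2) (kfc23_48.enc h1 h2))) h2)))) (kfc23_103.enc h1 h2)))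 (enc_norm (enc_sub (kfc23_9.enc h1 h2) (kfc23_65.enc h1 h2))))) (enc_inv (enc_sub (kfc23_6.enc h1 h2) (kfc23_65.enc h1 h2))))) (enc_mul (enc_norm (kfc23_9.enc h1 h2)) (enc_norm (enc_case (enc_sub (enc_rat _ 616546227 1000000000) h1) (enc_add (enc_subr 93840406668317 653376484375000 (enc_scale 230772384 459977045 h1)) (enc_mul (enc_norm (kfc23_11.enc h1 h2)) (enc_norm (enc_sub (enc_rat _ 29282878903713733 4181609500000000) (enc_scale 1011616538 91995409 h1))))) (enc_add (enc_sub (enc_rat _ 1 2) (enc_scale 334300000 616546227 h1)) (enc_mul (enc_norm (kfc23_11.enc h1 h2)) (enc_scale 223000000 616546227 h1)))))))))⟩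
noncomputable def lc23_6 : Fn2 := ⟨_, _, fun h1 h2 => (enc_subr 1 2 (swg.enc (ycg.enc h1)))⟩
noncomputable def lc23_9 : Fn2 := ⟨_, _, fun h1 h2 => (enc_add (enc_scale 4 5 (lc23_6.enc h1 h2)) (enc_scale 1 5 h1))⟩
noncomputable def lc23_11 : Fn2 := ⟨_, _, fun h1 h2 => (enc_subr 25 32 h2)⟩
noncomputable def lc23_13 : Fn2 := ⟨_, _, fun h1 h2 => (enc_subr 839 500 (ycg.enc h1))⟩
noncomputable def lc23_38 : Fn2 := ⟨_, _, fun h1 h2 => (enc_sq (enc_norm (lc23_11.enc h1 h2)))⟩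
noncomputable def lc23_72 : Fn2 := ⟨_, _, fun h1 h2 => (enc_subn 1 (ycg.enc h1))⟩
noncomputable def lc23_85 : Fn2 := ⟨_, _, fun h1 h2 => (cv1r.enc (ycg.enc h1))⟩
noncomputable def lc23_87 : Fn2 := ⟨_, _, fun h1 h2 => (enc_subr 1737 1000 (ycg.enc h1))⟩
noncomputable def lc23_110 : Fn2 := ⟨_, _, fun h1 h2 => (enc_subr 73 40 (ycg.enc h1))⟩
noncomputable def lc23_133 : Fn2 := ⟨_, _, fun h1 h2 => (enc_mul (lc23_85.enc h1 h2) (enc_norm (enc_case (lc23_87.enc h1 h2) (enc_case (lc23_13.enc h1 h2) (enc_add (enc_subr 805713 445000 (enc_scale 637 445 (ycg.enc h1))) (enc_mul (enc_norm (lc23_11.enc h1 h2)) (enc_norm (enc_subr 149379 89000 (enc_scale 93 89 (ycg.enc h1)))))) (enc_add (enc_subr 533653 295000 (enc_scale 422 295 (ycg.enc h1))) (enc_mul (enc_norm (lc23_11.enc h1 h2)) (enc_norm (enc_sub (enc_rat _ 157123 59000) (enc_scale 91 59 (ycg.enc h1))))))) (enc_case (lc23_110.enc h1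 h2) (enc_add (enc_subr 398479 220000 (enc_scale 63 44 (ycg.enc h1))) (enc_mul (enc_norm (lc23_11.enc h1 h2)) (enc_norm (enc_sub (enc_rat _ 233087 88000) (enc_scale 135 88 (ycg.enc h1)))))) (enc_add (enc_sub (enc_rat _ 11519 10000) (enc_scale 87525000 177135409 h1)) (enc_mul (enc_norm (lc23_11.enc h1 h2)) (enc_norm (enc_subr 333 1000 (enc_scale 45500000 177135409 h1)))))))))⟩
noncomputable def lc23 : Fn2 := ⟨_, _, fun h1 h2 => (enc_norm (enc_case (lc23_87.enc h1 h2) (enc_mul (enc_norm (lc23_9.enc h1 h2)) (enc_norm (enc_case (lc23_13.enc h1 h2) (enc_add (enc_subr 2613 2500 (enc_scale 17 20 (ycg.enc h1))) (enc_mul (enc_norm (lc23_11.enc h1 h2)) (enc_norm (enc_sub (enc_rat _ 56067 44500) (enc_scale 131 178 (ycg.enc h1)))))) (enc_add (enc_add (enc_subr 308500391319 295000000000 (enc_scale 501698321 590000000 (ycg.enc h1))) (enc_mul (enc_norm (lc23_11.enc h1 h2)) (enc_norm (enc_subr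 119368071987 14750000000 (enc_scale 142713733 29500000 (ycg.enc h1)))))) (enc_mul (lc23_38.enc h1 h2) (enc_norm (enc_sub (enc_rat _ 204159743 14750000) (enc_scale 243337 29500 (ycg.enc h1))))))))) (enc_case (lc23_110.enc h1 h2) (enc_add (lc23_133.enc h1 h2) (enc_mul (enc_norm (enc_mul (enc_norm (enc_sub (enc_sub (qsg.enc (enc_norm (lc23_72.enc h1 h2))) (enc_mul (enc_norm (enc_nat 2 (enc_sub (lc23_72.enc h1 h2) h2))) (enc_norm (enc_mul (esg.enc (enc_norm (lc23_72.enc h1 h2))) (kcg.enc (enc_norm (enc_sub (enc_scale 3 4 (lc23_72.enc h1 h2)) (enc_half (gsg.enc (enc_norm (lc23_72.enc h1 h2)))))) h2))))) (lc23_133.enc h1 h2))) (enc_norm (enc_sub (lc23_9.enc h1 h2) (lc23_85.enc h1 h2))))) (enc_inv (enc_sub (lc23_6.enc h1 h2) (lc23_85.enc h1 h2))))) (enc_mul (enc_norm (lc23_9.enc h1 h2)) (enc_norm (enc_case (enc_sub (enc_rat _ 616546227 1000000000) h1) (enc_add (enc_add (enc_sub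 (enc_rat _ 36878519993425769 41816095000000000) (enc_scale 20755347 41816095 h1)) (enc_mul (enc_norm (lc23_11.enc h1 h2)) (enc_norm (enc_add (enc_scale 43838326 91995409 h1) (enc_rat _ 937512153122909 4181609500000000))))) (enc_mul (lc23_38.enc h1 h2) (enc_norm (enc_subr 60510593150973 8363219000000 (enc_scale 1079589000 91995409 h1))))) (enc_add (enc_add (enc_scale 132930500 616546227 h1) (enc_rat _ 885939 2000000)) (enc_mul (enc_norm (lc23_11.enc h1 h2)) (enc_norm (enc_sub (enc_rat _ 216319 100000) (enc_scale 1645190000 616546227 h1)))))))))))⟩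
noncomputable def kcc23_6 : Fn2 := ⟨_, _, fun h1 h2 => (enc_subr 1 2 (swg.enc (ycg.enc h1)))⟩
noncomputable def kcc23_9 : Fn2 := ⟨_, _, fun h1 h2 => (enc_add (enc_scale 4 5 (kcc23_6.enc h1 h2)) (enc_scale 1 5 h1))⟩
noncomputable def kcc23_11 : Fn2 := ⟨_, _, fun h1 h2 => (enc_subr 25 32 h2)⟩
noncomputable def kcc23_35 : Fn2 := ⟨_, _, fun h1 h2 => (enc_subn 1 (ycg.enc h1))⟩
noncomputable def kcc23_36 : Fn2 := ⟨_, _, fun h1 h2 => (gsg.enc (enc_norm (kcc23_35.enc h1 h2)))⟩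
noncomputable def kcc23_40 : Fn2 := ⟨_, _, fun h1 h2 => (esg.enc (enc_norm (kcc23_35.enc h1 h2)))⟩
noncomputable def kcc23_45 : Fn2 := ⟨_, _, fun h1 h2 => (gug.enc (enc_norm (kcc23_35.enc h1 h2)))⟩
noncomputable def kcc23_47 : Fn2 := ⟨_, _, fun h1 h2 => (enc_mul (enc_norm (kcc23_35.enc h1 h2)) (enc_inv (kcc23_36.enc h1 h2)))⟩
noncomputable def kcc23_48 : Fn2 := ⟨_, _, fun h1 h2 => (enc_scale 3 4 (kcc23_47.enc h1 h2))⟩
noncomputable def kcc23_73 : Fn2 := ⟨_, _, fun h1 h2 => (cv1r.enc (ycg.enc h1))⟩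
noncomputable def kcc23_75 : Fn2 := ⟨_, _, fun h1 h2 => (enc_subr 1737 1000 (ycg.enc h1))⟩
noncomputable def kcc23_87 : Fn2 := ⟨_, _, fun h1 h2 => (enc_subr 73 40 (ycg.enc h1))⟩
noncomputable def kcc23_108 : Fn2 := ⟨_, _, fun h1 h2 => (enc_mul (kcc23_73.enc h1 h2) (enc_norm (enc_case (kcc23_75.enc h1 h2) (enc_add (enc_subr 10075751 790000 (enc_scale 852 79 (ycg.enc h1))) (enc_mul (enc_norm (kcc23_11.enc h1 h2)) (enc_norm (enc_sub (enc_rat _ 9374947 79000) (enc_scale 5987 79 (ycg.enc h1)))))) (enc_case (kcc23_87.enc h1 h2) (enc_add (enc_subr 11224259 880000 (enc_scale 9491 880 (ycg.enc h1))) (enc_mul (enc_norm (kcc23_11.enc h1 h2)) (enc_norm (enc_sub (enc_rat _ 10442869 88000) (enc_scale 6669 88 (ycg.enc h1)))))) (enc_add (enc_rat _ 34641 5000) (enc_mul (enc_norm (kcc23_11.enc h1 h2)) (enc_norm (enc_subr 31023 1000 (enc_scale 2846500000 177135409 h1)))))))))⟩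
noncomputable def kcc23 : Fn2 := ⟨_, _, fun h1 h2 => (enc_norm (enc_case (kcc23_75.enc h1 h2) (enc_mul (enc_norm (kcc23_9.enc h1 h2)) (enc_norm (enc_add (enc_subr 5062610801 790000000 (enc_scale 7204853801 1185000000 (ycg.enc h1))) (enc_mul (enc_norm (kcc23_11.enc h1 h2)) (enc_norm (enc_subr 481883937 79000000 (enc_scale 767863937 118500000 (ycg.enc h1)))))))) (enc_case (kcc23_87.enc h1 h2) (enc_add (kcc23_108.enc h1 h2) (enc_mul (enc_norm (enc_mul (enc_norm (enc_sub (enc_add (enc_sub (enc_add (enc_add (enc_rat _ 3 4) (enc_scale 3 2 (kcc23_35.enc h1 h2))) (enc_scale 3 4 (enc_mul (enc_norm (kcc23_47.enc h1 h2)) (kcc23_45.enc h1 h2)))) (enc_mul (enc_norm (enc_sub (enc_mul (enc_norm (enc_mul (enc_norm (kcc23_48.enc h1 h2)) (enc_norm (enc_subn 3 (enc_nat 4 (kcc23_36.enc h1 h2)))))) (kcc23_40.enc h1 h2)) (enc_mul (qsg.enc (enc_norm (kcc23_35.enc h1 h2))) (enc_norm (enc_sub (enc_rat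 _ 1 2) (kcc23_48.enc h1 h2)))))) (enc_inv (enc_mul (enc_nat 2 (kcc23_40.enc h1 h2)) (kcc23_40.enc h1 h2))))) (enc_mul (kcg.enc (enc_norm (enc_sub (enc_scale 3 4 (kcc23_35.enc h1 h2)) (enc_half (kcc23_36.enc h1 h2)))) h2) (enc_norm (enc_sub (enc_pnc _ 1) (enc_add (kcc23_45.enc h1 h2) (enc_nat 2 (kcc23_36.enc h1 h2))))))) (kcc23_108.enc h1 h2))) (enc_norm (enc_sub (kcc23_9.enc h1 h2) (kcc23_73.enc h1 h2))))) (enc_inv (enc_sub (kcc23_6.enc h1 h2) (kcc23_73.enc h1 h2))))) (enc_mul (enc_norm (kcc23_9.enc h1 h2)) (enc_norm (enc_add (enc_sub (enc_rat _ 1295 167) (enc_scale 1212915927011 591632266060 h1)) (enc_mul (enc_norm (kcc23_11.enc h1 h2)) (enc_norm (enc_sub (enc_rat _ 595 167) (enc_scale 1037136588661 118326453212 h1))))))))))⟩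
noncomputable def cv3m : Fn1 := ⟨_, _, fun h1 => (enc_norm (enc_add (enc_scale 2 5 (enc_add (swg.enc h1) (enc_rat _ 1 2))) (enc_scale 3 5 (c3g.enc h1))))⟩
noncomputable def bf3q0_3 : Fn2 := ⟨_, _, fun h1 h2 => (enc_subr 25 32 h2)⟩
noncomputable def bf3q0 : Fn2 := ⟨_, _, fun h1 h2 => (enc_norm (enc_case (enc_subr 263 1000 h1) (enc_add (enc_sub (enc_rat _ 1017 2500) (enc_scale 3463 2630 h1)) (enc_mul (enc_norm (bf3q0_3.enc h1 h2)) (enc_norm (enc_subr 23 250 (enc_scale 103 263 h1))))) (enc_case (enc_subr 159 500 h1) (enc_add (enc_sub (enc_rat _ 66113 137500) (enc_scale 879 550 h1)) (enc_mul (enc_norm (bf3q0_3.enc h1 h2)) (enc_norm (enc_subr 2459 27500 (enc_scale 21 55 h1))))) (enc_add (enc_sub (enc_rat _ 123517 182000) (enc_scale 4041 1820 h1)) (enc_mul (enc_norm (bf3q0_3.enc h1 h2)) (enc_norm (enc_subr 8377 91000 (enc_scale 71 182 h1))))))))⟩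
noncomputable def kf3q0 : Fn2 := ⟨_, _, fun h1 h2 => (enc_norm (enc_mul (cv3m.enc h1) (bf3q0.enc h1 h2)))⟩
noncomputable def bx3q0_3 : Fn2 := ⟨_, _, fun h1 h2 => (enc_subr 25 32 h2)⟩
noncomputable def bx3q0 : Fn2 := ⟨_, _, fun h1 h2 => (enc_norm (enc_case (enc_subr 263 1000 h1) (enc_case (enc_subr 11 125 h1) (enc_add (enc_sub (enc_rat _ 1701 10000) (enc_scale 81 880 h1)) (enc_mul (enc_norm (bx3q0_3.enc h1 h2)) (enc_norm (enc_sub (enc_rat _ 257 1000) (enc_scale 35 88 h1))))) (enc_add (enc_sub (enc_rat _ 76683 437500) (enc_scale 132 875 h1)) (enc_mul (enc_norm (bx3q0_3.enc h1 h2)) (enc_norm (enc_sub (enc_rat _ 26597 87500) (enc_scale 163 175 h1)))))) (enc_case (enc_subr 159 500 h1) (enc_add (enc_sub (enc_rat _ 6042 34375) (enc_scale 42 275 h1)) (enc_mul (enc_norm (bx3q0_3.enc h1 h2)) (enc_norm (enc_subr 437 55000 (enc_scale 14 55 h1))))) (enc_add (enc_sub (enc_rat _ 6837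 45500) (enc_scale 33 455 h1)) (enc_mul (enc_norm (bx3q0_3.enc h1 h2)) (enc_norm (enc_subr 41 3250 (enc_scale 7 26 h1))))))))⟩
noncomputable def l3q0 : Fn2 := ⟨_, _, fun h1 h2 => (enc_norm (enc_mul (cv3m.enc h1) (bx3q0.enc h1 h2)))⟩
noncomputable def bd3q0_3 : Fn2 := ⟨_, _, fun h1 h2 => (enc_subr 25 32 h2)⟩
noncomputable def bd3q0 : Fn2 := ⟨_, _, fun h1 h2 => (enc_norm (enc_case (enc_subr 7 40 h1) (enc_add (enc_subr 6777 2500 (enc_neg (enc_scale 211 250 h1))) (enc_mul (enc_norm (bd3q0_3.enc h1 h2)) (enc_norm (enc_subr 2551 500 (enc_scale 1047 175 h1))))) (enc_add (enc_subr 7047 2000 (enc_scale 19 5 h1)) (enc_mul (enc_norm (bd3q0_3.enc h1 h2)) (enc_norm (enc_subr 63901 13000 (enc_scale 1598 325 h1)))))))⟩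
noncomputable def kc3q0 : Fn2 := ⟨_, _, fun h1 h2 => (enc_norm (enc_mul (cv3m.enc h1) (bd3q0.enc h1 h2)))⟩
noncomputable def bf3q1_3 : Fn2 := ⟨_, _, fun h1 h2 => (enc_subr 25 32 h2)⟩
noncomputable def bf3q1 : Fn2 := ⟨_, _, fun h1 h2 => (enc_norm (enc_case (enc_subr 207 250 h1) (enc_add (enc_subr 62057 820000 (enc_scale 3579 3280 h1)) (enc_mul (enc_norm (bf3q1_3.enc h1 h2)) (enc_norm (enc_subr 8763 82000 (enc_neg (enc_scale 67 328 h1)))))) (enc_add (enc_subr 1 860 (enc_scale 861 860 h1)) (enc_mul (enc_norm (bf3q1_3.enc h1 h2)) (enc_norm (enc_subr 69 43 (enc_scale 69 43 h1)))))))⟩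
noncomputable def kf3q1 : Fn2 := ⟨_, _, fun h1 h2 => (enc_norm (enc_mul (cv3m.enc h1) (bf3q1.enc h1 h2)))⟩
noncomputable def bx3q1_3 : Fn2 := ⟨_, _, fun h1 h2 => (enc_subr 25 32 h2)⟩
noncomputable def bx3q1_12 : Fn2 := ⟨_, _, fun h1 h2 => (enc_scale 14 55 h1)⟩
noncomputable def bx3q1 : Fn2 := ⟨_, _, fun h1 h2 => (enc_norm (enc_case (enc_subr 609 1000 h1) (enc_case (enc_subr 111 200 h1) (enc_add (enc_sub (enc_rat _ 411 2750) (enc_scale 39 550 h1)) (enc_mul (enc_norm (bx3q1_3.enc h1 h2)) (enc_norm (enc_subr 29 5500 (bx3q1_12.enc h1 h2))))) (enc_add (enc_sub (enc_rat _ 34063 180000) (enc_scale 77 540 h1)) (enc_mul (enc_norm (bx3q1_3.enc h1 h2)) (enc_norm (enc_subr 109 6000 (enc_scale 5 18 h1)))))) (enc_case (enc_subr 83 125 h1) (enc_add (enc_sub (enc_rat _ 9001 34375) (enc_scale 72 275 h1)) (enc_mul (enc_norm (bx3q1_3.enc h1 h2)) (enc_norm (enc_subr 221 55000 (bx3q1_12.enc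 h1 h2))))) (enc_case (enc_subr 207 250 h1) (enc_add (enc_sub (enc_rat _ 5373 20500) (enc_scale 43 164 h1)) (enc_mul (enc_norm (bx3q1_3.enc h1 h2)) (enc_norm (enc_add (enc_scale 13 164 h1) (enc_rat _ 4607 41000))))) (enc_add (enc_sub (enc_rat _ 45 172) (enc_scale 45 172 h1)) (enc_mul (enc_norm (bx3q1_3.enc h1 h2)) (enc_norm (enc_sub (enc_rat _ 89 86) (enc_scale 89 86 h1)))))))))⟩
noncomputable def l3q1 : Fn2 := ⟨_, _, fun h1 h2 => (enc_norm (enc_mul (cv3m.enc h1) (bx3q1.enc h1 h2)))⟩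
noncomputable def bd3q1 : Fn2 := ⟨_, _, fun h1 h2 => (enc_norm (enc_add (enc_subr 3247 1000 (enc_scale 3247 1000 h1)) (enc_mul (enc_norm (enc_subr 25 32 h2)) (enc_norm (enc_subr 2457 500 (enc_scale 2457 500 h1))))))⟩
noncomputable def kc3q1 : Fn2 := ⟨_, _, fun h1 h2 => (enc_norm (enc_mul (cv3m.enc h1) (bd3q1.enc h1 h2)))⟩
noncomputable def cv3p : Fn1 := ⟨_, _, fun h1 => (enc_norm (enc_add (enc_scale 2 5 (enc_subr 1 2 (swg.enc h1))) (enc_scale 3 5 (c3g.enc h1))))⟩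
noncomputable def bf3q2_3 : Fn2 := ⟨_, _, fun h1 h2 => (enc_subr 25 32 h2)⟩
noncomputable def bf3q2 : Fn2 := ⟨_, _, fun h1 h2 => (enc_norm (enc_case (enc_subr 277 250 h1) (enc_add (enc_sub (enc_rat _ 577159 270000) (enc_scale 152 135 h1)) (enc_mul (enc_norm (bf3q2_3.enc h1 h2)) (enc_norm (enc_sub (enc_rat _ 45409 4500) (enc_scale 329 36 h1))))) (enc_case (enc_subr 577 500 h1) (enc_add (enc_sub (enc_rat _ 98339 46000) (enc_scale 259 230 h1)) (enc_mul (enc_norm (bf3q2_3.enc h1 h2)) (enc_norm (enc_sub (enc_rat _ 1855 184) (enc_scale 210 23 h1))))) (enc_add (enc_sub (enc_rat _ 3697097 1730000) (enc_scale 1947 1730 h1)) (enc_mul (enc_norm (bf3q2_3.enc h1 h2)) (enc_norm (enc_subr 397219 173000 (enc_scale 276 173 h1))))))))⟩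
noncomputable def kf3q2 : Fn2 := ⟨_, _, fun h1 h2 => (enc_norm (enc_mul (cv3p.enc h1) (bf3q2.enc h1 h2)))⟩
noncomputable def bx3q2_3 : Fn2 := ⟨_, _, fun h1 h2 => (enc_subr 25 32 h2)⟩
noncomputable def bx3q2 : Fn2 := ⟨_, _, fun h1 h2 => (enc_norm (enc_case (enc_subr 127 100 h1) (enc_case (enc_subr 17 16 h1) (enc_add (enc_sub (enc_rat _ 2949 5000) (enc_scale 71 125 h1)) (enc_mul (enc_norm (bx3q2_3.enc h1 h2)) (enc_norm (enc_subr 617 50 (enc_scale 308 25 h1))))) (enc_add (enc_subr 108323 415000 (enc_scale 483 2075 h1)) (enc_mul (enc_norm (bx3q2_3.enc h1 h2)) (enc_norm (enc_sub (enc_rat _ 245 83) (enc_scale 172 83 h1)))))) (enc_case (enc_subr 277 200 h1) (enc_add (enc_subr 30057 115000 (enc_scale 134 575 h1)) (enc_mul (enc_norm (bx3q2_3.enc h1 h2)) (enc_norm (enc_sub (enc_rat _ 9649 11500) (enc_scale 47 115 h1))))) (enc_case (enc_subr 1443 1000 h1) (enc_add (enc_subr 35021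 72500 (enc_scale 57 145 h1)) (enc_mul (enc_norm (bx3q2_3.enc h1 h2)) (enc_norm (enc_sub (enc_rat _ 24537 29000) (enc_scale 12 29 h1))))) (enc_add (enc_subr 127821 190000 (enc_scale 299 570 h1)) (enc_mul (enc_norm (bx3q2_3.enc h1 h2)) (enc_norm (enc_sub (enc_rat _ 651 760) (enc_scale 8 19 h1)))))))))⟩
noncomputable def l3q2 : Fn2 := ⟨_, _, fun h1 h2 => (enc_norm (enc_mul (cv3p.enc h1) (bx3q2.enc h1 h2)))⟩
noncomputable def bd3q2 : Fn2 := ⟨_, _, fun h1 h2 => (enc_norm (enc_add (enc_subr 5533 1000 (enc_scale 27123 5000 h1)) (enc_mul (enc_norm (enc_subr 25 32 h2)) (enc_norm (enc_sub (enc_rat _ 10337 1000) (enc_scale 967 250 h1))))))⟩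
noncomputable def kc3q2 : Fn2 := ⟨_, _, fun h1 h2 => (enc_norm (enc_mul (cv3p.enc h1) (bd3q2.enc h1 h2)))⟩
noncomputable def xc33 : Fn1 := ⟨_, _, fun h1 => (enc_norm (enc_add (enc_scale 2 5 (enc_subr 1 2 (swg.enc (ycg.enc h1)))) (enc_scale 3 5 h1)))⟩
noncomputable def kfc33_11 : Fn2 := ⟨_, _, fun h1 h2 => (enc_subr 25 32 h2)⟩
noncomputable def kfc33 : Fn2 := ⟨_, _, fun h1 h2 => (enc_norm (enc_mul (enc_norm (enc_add (enc_scale 2 5 (enc_subr 1 2 (swg.enc (ycg.enc h1)))) (enc_scale 3 5 h1))) (enc_norm (enc_case (enc_subr 73 40 (ycg.enc h1)) (enc_case (enc_subr 1737 1000 (ycg.enc h1)) (enc_add (enc_subr 891627 395000 (enc_scale 104 79 (ycg.enc h1))) (enc_mul (enc_norm (kfc33_11.enc h1 h2)) (enc_norm (enc_subr 344421 79000 (enc_scale 610 237 (ycg.enc h1)))))) (enc_add (enc_subr 1987311 880000 (enc_scale 1159 880 (ycg.enc h1))) (enc_mul (enc_norm (kfc33_11.enc h1 h2)) (enc_norm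 (enc_subr 191397 44000 (enc_scale 113 44 (ycg.enc h1))))))) (enc_case (enc_sub (enc_rat _ 429616471 1000000000) h1) (enc_add (enc_sub (enc_rat _ 1394402388601 2789251650000) (enc_scale 27920000 55785033 h1)) (enc_mul (enc_norm (kfc33_11.enc h1 h2)) (enc_norm (enc_sub (enc_rat _ 3575062838273 278925165000) (enc_scale 982600000 55785033 h1))))) (enc_add (enc_sub (enc_rat _ 1 2) (enc_scale 215100000 429616471 h1)) (enc_mul (enc_norm (kfc33_11.enc h1 h2)) (enc_scale 5250000000 429616471 h1))))))))⟩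
noncomputable def lc33_11 : Fn2 := ⟨_, _, fun h1 h2 => (enc_subr 25 32 h2)⟩
noncomputable def lc33 : Fn2 := ⟨_, _, fun h1 h2 => (enc_norm (enc_mul (enc_norm (enc_add (enc_scale 2 5 (enc_subr 1 2 (swg.enc (ycg.enc h1)))) (enc_scale 3 5 h1))) (enc_norm (enc_case (enc_subr 73 40 (ycg.enc h1)) (enc_case (enc_subr 1737 1000 (ycg.enc h1)) (enc_add (enc_subr 531861 790000 (enc_scale 622 1185 (ycg.enc h1))) (enc_mul (enc_norm (lc33_11.enc h1 h2)) (enc_norm (enc_sub (enc_rat _ 2671 3160) (enc_scale 98 237 (ycg.enc h1)))))) (enc_add (enc_subr 26937 40000 (enc_scale 21 40 (ycg.enc h1))) (enc_mul (enc_norm (lc33_11.enc h1 h2)) (enc_norm (enc_sub (enc_rat _ 18427 22000) (enc_scale 9 22 (ycg.enc h1))))))) (enc_case (enc_sub (enc_rat _ 429616471 1000000000) h1) (enc_add (enc_sub (enc_rat _ 254032070019 309916850000) (enc_scale 4680000 6198337 h1)) (enc_mul (enc_norm (lc33_11.enc h1 h2))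 (enc_norm (enc_subr 27516477253 55785033000 (enc_scale 46000000 55785033 h1))))) (enc_add (enc_add (enc_scale 52330500 429616471 h1) (enc_rat _ 885939 2000000)) (enc_mul (enc_norm (lc33_11.enc h1 h2)) (enc_norm (enc_sub (enc_rat _ 216319 100000) (enc_scale 2302190000 429616471 h1))))))))))⟩
noncomputable def kcc33_11 : Fn2 := ⟨_, _, fun h1 h2 => (enc_subr 25 32 h2)⟩
noncomputable def kcc33 : Fn2 := ⟨_, _, fun h1 h2 => (enc_norm (enc_mul (enc_norm (enc_add (enc_scale 2 5 (enc_subr 1 2 (swg.enc (ycg.enc h1)))) (enc_scale 3 5 h1))) (enc_norm (enc_case (enc_subr 1737 1000 (ycg.enc h1)) (enc_add (enc_subr 4371419 790000 (enc_scale 12857 2370 (ycg.enc h1))) (enc_mul (enc_norm (kcc33_11.enc h1 h2)) (enc_norm (enc_sub (enc_rat _ 163453 15800) (enc_scale 306 79 (ycg.enc h1)))))) (enc_case (enc_subr 73 40 (ycg.enc h1)) (enc_add (enc_subr 44269 8000 (enc_scale 217 40 (ycg.enc h1)))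 (enc_mul (enc_norm (kcc33_11.enc h1 h2)) (enc_norm (enc_sub (enc_rat _ 227219 22000) (enc_scale 85 22 (ycg.enc h1)))))) (enc_add (enc_sub (enc_rat _ 1295 167) (enc_scale 141427750000 29581613303 h1)) (enc_mul (enc_norm (kcc33_11.enc h1 h2)) (enc_norm (enc_sub (enc_rat _ 595 167) (enc_scale 11935250000 29581613303 h1))))))))))⟩
noncomputable def kf4q0 : Fn2 := ⟨_, _, fun h1 h2 => (enc_norm (enc_sub (enc_mul h1 (kcg.enc (enc_half h1) h2)) (enc_mul (enc_norm (enc_mul (enc_sq h1) (enc_norm (enc_add (c3g.enc h1) (enc_rat _ 3 2))))) (enc_inv (enc_mul (enc_norm (enc_sub (enc_pnc _ 1) h1)) (enc_norm (enc_add (enc_pnc _ 1) h1)))))))⟩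
noncomputable def l4q0_6 : Fn2 := ⟨_, _, fun h1 h2 => (enc_half h1)⟩
noncomputable def l4q0_7 : Fn2 := ⟨_, _, fun h1 h2 => (enc_half (c3g.enc h1))⟩
noncomputable def l4q0_8 : Fn2 := ⟨_, _, fun h1 h2 => (enc_scale 1 4 h1)⟩
noncomputable def l4q0 : Fn2 := ⟨_, _, fun h1 h2 => (enc_norm (enc_add (txg.enc (l4q0_6.enc h1 h2) (enc_norm (enc_sub (l4q0_7.enc h1 h2) (l4q0_8.enc h1 h2))) h2) (txg.enc (enc_neg (l4q0_6.enc h1 h2)) (enc_norm (enc_add (l4q0_7.enc h1 h2) (l4q0_8.enc h1 h2))) h2)))⟩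
noncomputable def kc4q0_3 : Fn2 := ⟨_, _, fun h1 h2 => (enc_subr 25 32 h2)⟩
noncomputable def kc4q0_6 : Fn2 := ⟨_, _, fun h1 h2 => (enc_half h1)⟩
noncomputable def kc4q0 : Fn2 := ⟨_, _, fun h1 h2 => (enc_norm (enc_case (enc_subr 167 1000 (kc4q0_6.enc h1 h2)) (enc_add (enc_subr 65809 10000 (enc_scale 1116 167 h1)) (enc_mul (enc_norm (kc4q0_3.enc h1 h2)) (enc_norm (enc_subr 6161 500 (enc_scale 4383 334 h1))))) (enc_case (enc_subr 333 1000 (kc4q0_6.enc h1 h2)) (enc_add (enc_subr 10924403 1660000 (enc_scale 22187 3320 h1)) (enc_mul (enc_norm (kc4q0_3.enc h1 h2)) (enc_norm (enc_subr 1022663 83000 (enc_scale 1089 83 h1))))) (enc_add (enc_subr 10651 1670 (enc_scale 10651 1670 h1)) (enc_mul (enc_norm (kc4q0_3.enc h1 h2)) (enc_norm (enc_subr 3583 334 (enc_scale 3583 334 h1))))))))⟩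
noncomputable def kf4q1 : Fn2 := ⟨_, _, fun h1 h2 => (enc_norm (enc_add (enc_mul (enc_norm (enc_mul h1 (enc_norm (enc_add (c3g.enc h1) (enc_rat _ 3 2))))) (enc_inv (enc_add (enc_pnc _ 1) h1))) (enc_mul (enc_norm (enc_subn 1 h1)) (kcg.enc (enc_half h1) h2))))⟩
noncomputable def l4q1_7 : Fn2 := ⟨_, _, fun h1 h2 => (enc_half h1)⟩
noncomputable def l4q1_8 : Fn2 := ⟨_, _, fun h1 h2 => (enc_half (c3g.enc h1))⟩
noncomputable def l4q1_9 : Fn2 := ⟨_, _, fun h1 h2 => (enc_scale 1 4 h1)⟩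
noncomputable def l4q1 : Fn2 := ⟨_, _, fun h1 h2 => (enc_norm (enc_add (txg.enc (l4q1_7.enc h1 h2) (enc_norm (enc_sub (l4q1_8.enc h1 h2) (l4q1_9.enc h1 h2))) h2) (txg.enc (enc_neg (l4q1_7.enc h1 h2)) (enc_norm (enc_add (l4q1_8.enc h1 h2) (l4q1_9.enc h1 h2))) h2)))⟩
noncomputable def kc4q1_3 : Fn2 := ⟨_, _, fun h1 h2 => (enc_subr 25 32 h2)⟩
noncomputable def kc4q1_7 : Fn2 := ⟨_, _, fun h1 h2 => (enc_half h1)⟩
noncomputable def kc4q1 : Fn2 := ⟨_, _, fun h1 h2 => (enc_norm (enc_case (enc_subr 167 1000 (kc4q1_7.enc h1 h2)) (enc_add (enc_subr 65809 10000 (enc_scale 1116 167 h1)) (enc_mul (enc_norm (kc4q1_3.enc h1 h2)) (enc_norm (enc_subr 6161 500 (enc_scale 4383 334 h1))))) (enc_case (enc_subr 333 1000 (kc4q1_7.enc h1 h2)) (enc_add (enc_subr 10924403 1660000 (enc_scale 22187 3320 h1)) (enc_mul (enc_norm (kc4q1_3.enc h1 h2)) (enc_norm (enc_subr 1022663 83000 (enc_scale 1089 83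 h1))))) (enc_add (enc_subr 10651 1670 (enc_scale 10651 1670 h1)) (enc_mul (enc_norm (kc4q1_3.enc h1 h2)) (enc_norm (enc_subr 3583 334 (enc_scale 3583 334 h1))))))))⟩
noncomputable def kf4q2 : Fn2 := ⟨_, _, fun h1 h2 => (enc_norm (enc_add (enc_mul (enc_norm (enc_mul (enc_norm (enc_sub (enc_nat 2 (c3g.enc h1)) h1)) (enc_norm (enc_sub (enc_add (c3g.enc h1) (enc_pnc _ 3)) (enc_scale 3 2 h1))))) (enc_inv (enc_nat 4 (enc_sub (enc_pnc _ 2) h1)))) (enc_mul (enc_norm (enc_subn 1 h1)) (kcg.enc (enc_norm (enc_sub (enc_scale 1 4 h1) (enc_half (c3g.enc h1)))) h2))))⟩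
noncomputable def l4q2_7 : Fn2 := ⟨_, _, fun h1 h2 => (enc_half (c3g.enc h1))⟩
noncomputable def l4q2_8 : Fn2 := ⟨_, _, fun h1 h2 => (enc_scale 1 4 h1)⟩
noncomputable def l4q2_9 : Fn2 := ⟨_, _, fun h1 h2 => (enc_sub (l4q2_7.enc h1 h2) (l4q2_8.enc h1 h2))⟩
noncomputable def l4q2_12 : Fn2 := ⟨_, _, fun h1 h2 => (enc_add (enc_scale 1 4 (c3g.enc h1)) (enc_scale 3 8 h1))⟩
noncomputable def l4q2_14 : Fn2 := ⟨_, _, fun h1 h2 => (enc_half (l4q2_9.enc h1 h2))⟩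
noncomputable def l4q2 : Fn2 := ⟨_, _, fun h1 h2 => (enc_norm (enc_sub (enc_nat 2 (txg.enc (enc_norm (enc_sub (l4q2_8.enc h1 h2) (l4q2_7.enc h1 h2))) (enc_norm (enc_add (l4q2_12.enc h1 h2) (l4q2_14.enc h1 h2))) h2)) (txg.enc (enc_norm (l4q2_9.enc h1 h2)) (enc_norm (enc_sub (l4q2_12.enc h1 h2) (l4q2_14.enc h1 h2))) h2)))⟩
noncomputable def kc4q2_3 : Fn2 := ⟨_, _, fun h1 h2 => (enc_subr 25 32 h2)⟩
noncomputable def kc4q2_9 : Fn2 := ⟨_, _, fun h1 h2 => (enc_sub (enc_half (c3g.enc h1)) (enc_scale 1 4 h1))⟩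
noncomputable def kc4q2_29 : Fn2 := ⟨_, _, fun h1 h2 => (enc_scale 967 166 (kc4q2_9.enc h1 h2))⟩
noncomputable def kc4q2 : Fn2 := ⟨_, _, fun h1 h2 => (enc_norm (enc_case (kc4q2_9.enc h1 h2) (enc_case (enc_add (kc4q2_9.enc h1 h2) (enc_rat _ 333 1000)) (enc_add (enc_add (enc_scale 2590 167 (kc4q2_9.enc h1 h2)) (enc_rat _ 1295 167)) (enc_mul (enc_norm (kc4q2_3.enc h1 h2)) (enc_norm (enc_add (enc_scale 1190 167 (kc4q2_9.enc h1 h2)) (enc_rat _ 595 167))))) (enc_case (enc_add (kc4q2_9.enc h1 h2) (enc_rat _ 167 1000)) (enc_add (enc_sub (enc_rat _ 4165867 1660000) (enc_scale 401 1660 (kc4q2_9.enc h1 h2))) (enc_mul (enc_norm (kc4q2_3.enc h1 h2)) (enc_norm (enc_add (kc4q2_29.enc h1 h2) (enc_rat _ 519551 166000))))) (enc_add (enc_sub (enc_rat _ 3137 1250) (enc_scale 403 1670 (kc4q2_9.enc h1 h2))) (enc_mul (enc_norm (kc4q2_3.enc h1 h2)) (enc_norm (enc_add (enc_scale 974 167 (kc4q2_9.enc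 h1 h2)) (enc_rat _ 3131 1000))))))) (enc_case (enc_subr 167 1000 (kc4q2_9.enc h1 h2)) (enc_add (enc_sub (enc_rat _ 3137 1250) (enc_scale 202 835 (kc4q2_9.enc h1 h2))) (enc_mul (enc_norm (kc4q2_3.enc h1 h2)) (enc_norm (enc_add (enc_scale 973 167 (kc4q2_9.enc h1 h2)) (enc_rat _ 3131 1000))))) (enc_case (enc_subr 333 1000 (kc4q2_9.enc h1 h2)) (enc_add (enc_sub (enc_rat _ 520709 207500) (enc_scale 20 83 (kc4q2_9.enc h1 h2))) (enc_mul (enc_norm (kc4q2_3.enc h1 h2)) (enc_norm (enc_add (kc4q2_29.enc h1 h2) (enc_rat _ 20791 6640))))) (enc_add (enc_sub (enc_rat _ 6073 835) (enc_scale 12146 835 (kc4q2_9.enc h1 h2))) (enc_mul (enc_norm (kc4q2_3.enc h1 h2)) (enc_norm (enc_sub (enc_rat _ 5071 334) (enc_scale 5071 167 (kc4q2_9.enc h1 h2))))))))))⟩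
noncomputable def kfc43 : Fn2 := ⟨_, _, fun h1 h2 => (enc_norm (enc_sub (enc_mul (enc_norm (enc_subn 2 (ycg.enc h1))) (kcg.enc (enc_norm (enc_sub (enc_scale 1 4 (ycg.enc h1)) (enc_half h1))) h2)) (enc_mul (enc_norm (enc_mul (enc_norm (enc_sub (enc_nat 2 h1) (ycg.enc h1))) (enc_norm (enc_sub (enc_add h1 (enc_pnc _ 3)) (enc_scale 3 2 (ycg.enc h1)))))) (enc_inv (enc_nat 4 (enc_subn 1 (ycg.enc h1)))))))⟩
noncomputable def lc43_7 : Fn2 := ⟨_, _, fun h1 h2 => (enc_half h1)⟩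
noncomputable def lc43_8 : Fn2 := ⟨_, _, fun h1 h2 => (enc_scale 1 4 (ycg.enc h1))⟩
noncomputable def lc43_9 : Fn2 := ⟨_, _, fun h1 h2 => (enc_sub (lc43_7.enc h1 h2) (lc43_8.enc h1 h2))⟩
noncomputable def lc43_12 : Fn2 := ⟨_, _, fun h1 h2 => (enc_add (enc_scale 1 4 h1) (enc_scale 3 8 (ycg.enc h1)))⟩
noncomputable def lc43_14 : Fn2 := ⟨_, _, fun h1 h2 => (enc_half (lc43_9.enc h1 h2))⟩
noncomputable def lc43 : Fn2 := ⟨_, _, fun h1 h2 => (enc_norm (enc_sub (enc_nat 2 (txg.enc (enc_norm (enc_sub (lc43_8.enc h1 h2) (lc43_7.enc h1 h2))) (enc_norm (enc_add (lc43_12.enc h1 h2) (lc43_14.enc h1 h2))) h2)) (txg.enc (enc_norm (lc43_9.enc h1 h2)) (enc_norm (enc_sub (lc43_12.enc h1 h2) (lc43_14.enc h1 h2))) h2)))⟩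
noncomputable def kcc43_4 : Fn2 := ⟨_, _, fun h1 h2 => (enc_subr 25 32 h2)⟩
noncomputable def kcc43_9 : Fn2 := ⟨_, _, fun h1 h2 => (enc_sub (enc_half h1) (enc_scale 1 4 (ycg.enc h1)))⟩
noncomputable def kcc43_29 : Fn2 := ⟨_, _, fun h1 h2 => (enc_scale 967 166 (kcc43_9.enc h1 h2))⟩
noncomputable def kcc43 : Fn2 := ⟨_, _, fun h1 h2 => (enc_norm (enc_case (kcc43_9.enc h1 h2) (enc_case (enc_add (kcc43_9.enc h1 h2) (enc_rat _ 333 1000)) (enc_add (enc_add (enc_scale 2590 167 (kcc43_9.enc h1 h2)) (enc_rat _ 1295 167)) (enc_mul (enc_norm (kcc43_4.enc h1 h2)) (enc_norm (enc_add (enc_scale 1190 167 (kcc43_9.enc h1 h2)) (enc_rat _ 595 167))))) (enc_case (enc_add (kcc43_9.enc h1 h2) (enc_rat _ 167 1000)) (enc_add (enc_sub (enc_rat _ 4165867 1660000) (enc_scale 401 1660 (kcc43_9.enc h1 h2))) (enc_mul (enc_norm (kcc43_4.enc h1 h2)) (enc_norm (enc_add (kcc43_29.enc h1 h2) (enc_rat _ 519551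 166000))))) (enc_add (enc_sub (enc_rat _ 3137 1250) (enc_scale 403 1670 (kcc43_9.enc h1 h2))) (enc_mul (enc_norm (kcc43_4.enc h1 h2)) (enc_norm (enc_add (enc_scale 974 167 (kcc43_9.enc h1 h2)) (enc_rat _ 3131 1000))))))) (enc_case (enc_subr 167 1000 (kcc43_9.enc h1 h2)) (enc_add (enc_sub (enc_rat _ 3137 1250) (enc_scale 202 835 (kcc43_9.enc h1 h2))) (enc_mul (enc_norm (kcc43_4.enc h1 h2)) (enc_norm (enc_add (enc_scale 973 167 (kcc43_9.enc h1 h2)) (enc_rat _ 3131 1000))))) (enc_case (enc_subr 333 1000 (kcc43_9.enc h1 h2)) (enc_add (enc_sub (enc_rat _ 520709 207500) (enc_scale 20 83 (kcc43_9.enc h1 h2))) (enc_mul (enc_norm (kcc43_4.enc h1 h2)) (enc_norm (enc_add (kcc43_29.enc h1 h2) (enc_rat _ 20791 6640))))) (enc_add (enc_sub (enc_rat _ 6073 835) (enc_scale 12146 835 (kcc43_9.enc h1 h2))) (enc_mul (enc_norm (kcc43_4.enc h1 h2)) (enc_norm (enc_sub (enc_rat _ 5071 334) (enc_scale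 5071 167 (kcc43_9.enc h1 h2))))))))))⟩
noncomputable def lm3m : Fn2 := ⟨_, _, fun h1 h2 => (enc_lam (enc_norm (enc_sub h1 (cv3m.enc h2))) (enc_sub (c3g.enc h2) (cv3m.enc h2)))⟩
noncomputable def lm2m : Fn2 := ⟨_, _, fun h1 h2 => (enc_lam (enc_norm (enc_sub h1 (cv2m.enc h2))) (enc_sub (cv3m.enc h2) (cv2m.enc h2)))⟩
noncomputable def bf2q0_3 : Fn2 := ⟨_, _, fun h1 h2 => (enc_subr 25 32 h2)⟩
noncomputable def bf2q0 : Fn2 := ⟨_, _, fun h1 h2 => (enc_norm (enc_case (enc_subr 219 1000 h1) (enc_add (enc_sub (enc_rat _ 8689 10000) (enc_scale 570528827 218750000 h1)) (enc_mul (enc_norm (bf2q0_3.enc h1 h2)) (enc_norm (enc_subr 13 100 (enc_scale 113744727 175000000 h1))))) (enc_add (enc_sub (enc_rat _ 1575259427 1580000000) (enc_scale 2178819427 790000000 h1)) (enc_mul (enc_norm (bf2q0_3.enc h1 h2)) (enc_norm (enc_sub (enc_rat _ 127188133 474000000) (enc_scale 90216133 237000000 h1)))))))⟩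
noncomputable def lm1m : Fn2 := ⟨_, _, fun h1 h2 => (enc_lam (enc_norm (enc_sub h1 (cv1m.enc h2))) (enc_sub (cv2m.enc h2) (cv1m.enc h2)))⟩
noncomputable def lm0m : Fn2 := ⟨_, _, fun h1 h2 => (enc_lam (enc_norm (enc_sub h1 (c1g.enc h2))) (enc_sub (cv1m.enc h2) (c1g.enc h2)))⟩
noncomputable def rkbq0_35 : Fn3 := ⟨_, _, fun h1 h2 h3 => (enc_add (enc_mul h1 (bf2q0.enc h2 h3)) (enc_mul (enc_norm (enc_mul (enc_norm (enc_sub (enc_pnc _ 1) (lm1m.enc h1 h2))) (cv1m.enc h2))) (enc_norm (enc_sub (bf1q0.enc h2 h3) (bf2q0.enc h2 h3)))))⟩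
noncomputable def rkbq0_37 : Fn3 := ⟨_, _, fun h1 h2 h3 => (enc_sub (enc_pnc _ 1) h2)⟩
noncomputable def rkbq0_38 : Fn3 := ⟨_, _, fun h1 h2 h3 => (gsg.enc (enc_norm (rkbq0_37.enc h1 h2 h3)))⟩
noncomputable def rkbq0_41 : Fn3 := ⟨_, _, fun h1 h2 h3 => (enc_sub (enc_scale 3 4 (rkbq0_37.enc h1 h2 h3)) (enc_half (rkbq0_38.enc h1 h2 h3)))⟩
noncomputable def rkbq0_61 : Fn3 := ⟨_, _, fun h1 h2 h3 => (enc_sub h1 (cv1m.enc h2))⟩
noncomputable def rkbq0 : Fn3 := ⟨_, _, fun h1 h2 h3 => (enc_case (rkbq0_61.enc h1 h2 h3) (enc_add (enc_mul h1 (bf1q0.enc h2 h3)) (enc_mul (enc_norm (enc_sub (enc_pnc _ 1) (lm0m.enc h1 h2))) (enc_norm (enc_sub (kf0q0.enc h2 h3) (enc_mul (c1g.enc h2) (bf1q0.enc h2 h3)))))) (enc_case (enc_sub h1 (cv2m.enc h2)) (enc_case (enc_subr 7 40 h2) (rkbq0_35.enc h1 h2 h3) (enc_case (enc_subr 263 1000 h2) (enc_add (kf1q0.enc h2 h3) (enc_mul (enc_norm (enc_mul (enc_norm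 (rkbq0_61.enc h1 h2 h3)) (enc_inv (enc_sub (enc_add (swg.enc h2) (enc_rat _ 1 2)) (cv1m.enc h2))))) (enc_norm (enc_sub (enc_mul h2 (enc_norm (enc_sub (enc_mul (enc_norm (enc_sub (rkbq0_41.enc h1 h2 h3) (enc_sub (enc_rat _ 1 4) (enc_scale 3 8 (enc_mul (enc_norm (rkbq0_37.enc h1 h2 h3)) (enc_inv (rkbq0_38.enc h1 h2 h3))))))) (enc_inv (esg.enc (enc_norm (rkbq0_37.enc h1 h2 h3))))) (kcg.enc (enc_norm (rkbq0_41.enc h1 h2 h3)) h3)))) (kf1q0.enc h2 h3))))) (rkbq0_35.enc h1 h2 h3))) (enc_case (enc_sub h1 (cv3m.enc h2)) (enc_add (enc_mul h1 (bf3q0.enc h2 h3)) (enc_mul (enc_norm (enc_sub (enc_pnc _ 1) (lm2m.enc h1 h2))) (enc_norm (enc_sub (kf2q0.enc h2 h3) (enc_mul (cv2m.enc h2) (bf3q0.enc h2 h3)))))) (enc_add (kf3q0.enc h2 h3) (enc_mul (lm3m.enc h1 h2) (enc_norm (enc_sub (kf4q0.enc h2 h3) (kf3q0.enc h2 h3))))))))⟩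
noncomputable def rsbq0 : Fn3 := ⟨_, _, fun h1 h2 h3 => (enc_case h1 (enc_neg (rkbq0.enc (enc_neg h1) h2 h3)) (rkbq0.enc h1 h2 h3))⟩
noncomputable def rkbq1 : Fn3 := ⟨_, _, fun h1 h2 h3 => (enc_case (enc_sub h1 (cv1m.enc h2)) (enc_add (enc_mul h1 (bf1q1.enc h2 h3)) (enc_mul (enc_norm (enc_sub (enc_pnc _ 1) (lm0m.enc h1 h2))) (enc_norm (enc_sub (kf0q1.enc h2 h3) (enc_mul (c1g.enc h2) (bf1q1.enc h2 h3)))))) (enc_case (enc_sub h1 (cv2m.enc h2)) (enc_add (enc_mul h1 (bf2q1.enc h2 h3)) (enc_mul (enc_norm (enc_mul (enc_norm (enc_sub (enc_pnc _ 1) (lm1m.enc h1 h2))) (cv1m.enc h2))) (enc_norm (enc_sub (bf1q1.enc h2 h3) (bf2q1.enc h2 h3))))) (enc_case (enc_sub h1 (cv3m.enc h2)) (enc_add (enc_mul h1 (bf3q1.enc h2 h3)) (enc_mul (enc_norm (enc_mul (enc_norm (enc_sub (enc_pnc _ 1) (lm2m.enc h1 h2))) (cv2m.enc h2))) (enc_norm (enc_sub (bf2q1.enc h2 h3) (bf3q1.enc h2 h3))))) (enc_add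 (kf3q1.enc h2 h3) (enc_mul (lm3m.enc h1 h2) (enc_norm (enc_sub (kf4q1.enc h2 h3) (kf3q1.enc h2 h3))))))))⟩
noncomputable def rsbq1 : Fn3 := ⟨_, _, fun h1 h2 h3 => (enc_case h1 (enc_neg (rkbq1.enc (enc_neg h1) h2 h3)) (rkbq1.enc h1 h2 h3))⟩
noncomputable def cv1p : Fn1 := ⟨_, _, fun h1 => (enc_norm (enc_add (enc_scale 3 5 (c1g.enc h1)) (enc_scale 2 5 (enc_subr 1 2 (swg.enc h1)))))⟩
noncomputable def lm3p : Fn2 := ⟨_, _, fun h1 h2 => (enc_lam (enc_norm (enc_sub h1 (cv3p.enc h2))) (enc_sub (c3g.enc h2) (cv3p.enc h2)))⟩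
noncomputable def lm2p : Fn2 := ⟨_, _, fun h1 h2 => (enc_lam (enc_norm (enc_sub h1 (cv2p.enc h2))) (enc_sub (cv3p.enc h2) (cv2p.enc h2)))⟩
noncomputable def lm1p : Fn2 := ⟨_, _, fun h1 h2 => (enc_lam (enc_norm (enc_sub h1 (cv1p.enc h2))) (enc_sub (cv2p.enc h2) (cv1p.enc h2)))⟩
noncomputable def kf0q2 : Fn2 := ⟨_, _, fun h1 h2 => (enc_norm (enc_add (c1g.enc h1) (enc_mul (enc_norm (enc_subn 1 h1)) (kcg.enc (enc_neg (c1g.enc h1)) h2))))⟩
noncomputable def lm0p : Fn2 := ⟨_, _, fun h1 h2 => (enc_lam (enc_norm (enc_sub h1 (c1g.enc h2))) (enc_sub (cv1p.enc h2) (c1g.enc h2)))⟩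
noncomputable def n0b : Fn2 := ⟨_, _, fun h1 h2 => (enc_norm (enc_sub (enc_pnc _ 1) (enc_mul (enc_norm (enc_subn 1 h1)) (enc_norm (enc_sub (enc_rat _ 24379 10000) (enc_scale 5199 1000 (enc_subr 25 32 h2)))))))⟩
noncomputable def rkbq2_40 : Fn3 := ⟨_, _, fun h1 h2 h3 => (enc_mul h1 (bf1q2.enc h2 h3))⟩
noncomputable def rkbq2_42 : Fn3 := ⟨_, _, fun h1 h2 h3 => (enc_sub (enc_pnc _ 1) (lm0p.enc h1 h2))⟩
noncomputable def rkbq2 : Fn3 := ⟨_, _, fun h1 h2 h3 => (enc_case (enc_sub h1 (cv1p.enc h2)) (enc_case (enc_subr 1153 1000 h2) (enc_add (rkbq2_40.enc h1 h2 h3) (enc_mul (enc_norm (rkbq2_42.enc h1 h2 h3)) (enc_norm (enc_sub (kf0q2.enc h2 h3) (enc_mul (c1g.enc h2) (bf1q2.enc h2 h3)))))) (enc_case (enc_subr 2887 2500 h2) (enc_add (rkbq2_40.enc h1 h2 h3) (enc_mul (enc_norm (rkbq2_42.enc h1 h2 h3)) (enc_norm (enc_mul (c1g.enc h2) (enc_norm (enc_sub (n0b.enc h2 h3) (bf1q2.enc h2 h3)))))))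 (rkbq2_40.enc h1 h2 h3))) (enc_case (enc_sub h1 (cv2p.enc h2)) (enc_add (enc_mul h1 (bf2q2.enc h2 h3)) (enc_mul (enc_norm (enc_mul (enc_norm (enc_sub (enc_pnc _ 1) (lm1p.enc h1 h2))) (cv1p.enc h2))) (enc_norm (enc_sub (bf1q2.enc h2 h3) (bf2q2.enc h2 h3))))) (enc_case (enc_sub h1 (cv3p.enc h2)) (enc_add (enc_mul h1 (bf3q2.enc h2 h3)) (enc_mul (enc_norm (enc_mul (enc_norm (enc_sub (enc_pnc _ 1) (lm2p.enc h1 h2))) (cv2p.enc h2))) (enc_norm (enc_sub (bf2q2.enc h2 h3) (bf3q2.enc h2 h3))))) (enc_add (kf3q2.enc h2 h3) (enc_mul (lm3p.enc h1 h2) (enc_norm (enc_sub (kf4q2.enc h2 h3) (kf3q2.enc h2 h3))))))))⟩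
noncomputable def rsbq2 : Fn3 := ⟨_, _, fun h1 h2 h3 => (enc_case h1 (enc_neg (rkbq2.enc (enc_neg h1) h2 h3)) (rkbq2.enc h1 h2 h3))⟩
noncomputable def cv2r : Fn1 := ⟨_, _, fun h1 => (enc_norm (enc_add (enc_scale 4 5 (enc_subr 1 2 (swg.enc h1))) (enc_scale 1 5 (c3g.enc h1))))⟩
noncomputable def cv3r : Fn1 := ⟨_, _, fun h1 => (enc_norm (enc_add (enc_scale 2 5 (enc_subr 1 2 (swg.enc h1))) (enc_scale 3 5 (c3g.enc h1))))⟩
noncomputable def kf3q3_4 : Fn2 := ⟨_, _, fun h1 h2 => (enc_subr 25 32 h2)⟩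
noncomputable def kf3q3 : Fn2 := ⟨_, _, fun h1 h2 => (enc_norm (enc_mul (cv3r.enc h1) (enc_norm (enc_case (enc_subr 73 40 h1) (enc_case (enc_subr 1737 1000 h1) (enc_add (enc_subr 891627 395000 (enc_scale 104 79 h1)) (enc_mul (enc_norm (kf3q3_4.enc h1 h2)) (enc_norm (enc_subr 344421 79000 (enc_scale 610 237 h1))))) (enc_add (enc_subr 1987311 880000 (enc_scale 1159 880 h1)) (enc_mul (enc_norm (kf3q3_4.enc h1 h2)) (enc_norm (enc_subr 191397 44000 (enc_scale 113 44 h1)))))) (enc_case (enc_sub (enc_rat _ 429616471 1000000000) (c3g.enc h1)) (enc_add (enc_sub (enc_rat _ 1394402388601 2789251650000) (enc_scale 27920000 55785033 (c3g.enc h1))) (enc_mul (enc_norm (kf3q3_4.enc h1 h2)) (enc_norm (enc_sub (enc_rat _ 3575062838273 278925165000) (enc_scale 982600000 55785033 (c3g.enc h1)))))) (enc_add (enc_sub (enc_rat _ 1 2) (enc_scale 215100000 429616471 (c3g.enc h1))) (enc_mul (enc_norm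 (kf3q3_4.enc h1 h2)) (enc_scale 5250000000 429616471 (c3g.enc h1)))))))))⟩
noncomputable def kf4q3 : Fn2 := ⟨_, _, fun h1 h2 => (enc_norm (enc_sub (enc_mul (enc_norm (enc_subn 2 h1)) (kcg.enc (enc_norm (enc_sub (enc_scale 1 4 h1) (enc_half (c3g.enc h1)))) h2)) (enc_mul (enc_norm (enc_mul (enc_norm (enc_sub (enc_nat 2 (c3g.enc h1)) h1)) (enc_norm (enc_sub (enc_add (c3g.enc h1) (enc_pnc _ 3)) (enc_scale 3 2 h1))))) (enc_inv (enc_nat 4 (enc_subn 1 h1))))))⟩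
noncomputable def lm3r : Fn2 := ⟨_, _, fun h1 h2 => (enc_lam (enc_norm (enc_sub h1 (cv3r.enc h2))) (enc_sub (c3g.enc h2) (cv3r.enc h2)))⟩
noncomputable def bf3q3_3 : Fn2 := ⟨_, _, fun h1 h2 => (enc_subr 25 32 h2)⟩
noncomputable def bf3q3 : Fn2 := ⟨_, _, fun h1 h2 => (enc_norm (enc_case (enc_subr 73 40 h1) (enc_case (enc_subr 1737 1000 h1) (enc_add (enc_subr 891627 395000 (enc_scale 104 79 h1)) (enc_mul (enc_norm (bf3q3_3.enc h1 h2)) (enc_norm (enc_subr 344421 79000 (enc_scale 610 237 h1))))) (enc_add (enc_subr 1987311 880000 (enc_scale 1159 880 h1)) (enc_mul (enc_norm (bf3q3_3.enc h1 h2)) (enc_norm (enc_subr 191397 44000 (enc_scale 113 44 h1)))))) (enc_case (enc_sub (enc_rat _ 429616471 1000000000) (c3g.enc h1)) (enc_add (enc_sub (enc_rat _ 1394402388601 2789251650000) (enc_scale 27920000 55785033 (c3g.enc h1))) (enc_mul (enc_norm (bf3q3_3.enc h1 h2)) (enc_norm (enc_sub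 (enc_rat _ 3575062838273 278925165000) (enc_scale 982600000 55785033 (c3g.enc h1)))))) (enc_add (enc_sub (enc_rat _ 1 2) (enc_scale 215100000 429616471 (c3g.enc h1))) (enc_mul (enc_norm (bf3q3_3.enc h1 h2)) (enc_scale 5250000000 429616471 (c3g.enc h1)))))))⟩
noncomputable def lm2r : Fn2 := ⟨_, _, fun h1 h2 => (enc_lam (enc_norm (enc_sub h1 (cv2r.enc h2))) (enc_sub (cv3r.enc h2) (cv2r.enc h2)))⟩
noncomputable def kf2q3_4 : Fn2 := ⟨_, _, fun h1 h2 => (enc_subr 25 32 h2)⟩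
noncomputable def kf2q3_40 : Fn2 := ⟨_, _, fun h1 h2 => (enc_subn 1 h1)⟩
noncomputable def kf2q3_41 : Fn2 := ⟨_, _, fun h1 h2 => (gsg.enc (enc_norm (kf2q3_40.enc h1 h2)))⟩
noncomputable def kf2q3_42 : Fn2 := ⟨_, _, fun h1 h2 => (enc_scale 3 4 (kf2q3_40.enc h1 h2))⟩
noncomputable def kf2q3_43 : Fn2 := ⟨_, _, fun h1 h2 => (enc_half (kf2q3_41.enc h1 h2))⟩
noncomputable def kf2q3_62 : Fn2 := ⟨_, _, fun h1 h2 => (enc_subr 1737 1000 h1)⟩
noncomputable def kf2q3_74 : Fn2 := ⟨_, _, fun h1 h2 => (enc_subr 73 40 h1)⟩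
noncomputable def kf2q3_98 : Fn2 := ⟨_, _, fun h1 h2 => (enc_mul (cv1r.enc h1) (enc_norm (enc_case (kf2q3_62.enc h1 h2) (enc_add (enc_subr 2603719 790000 (enc_scale 2354 1185 h1)) (enc_mul (enc_norm (kf2q3_4.enc h1 h2)) (enc_norm (enc_subr 275543 79000 (enc_scale 422 237 h1))))) (enc_case (kf2q3_74.enc h1 h2) (enc_add (enc_subr 145007 44000 (enc_scale 437 220 h1)) (enc_mul (enc_norm (kf2q3_4.enc h1 h2)) (enc_norm (enc_subr 307469 88000 (enc_scale 157 88 h1))))) (enc_add (enc_subr 1223 2000 (enc_scale 235250000 177135409 (c3g.enc h1))) (enc_mul (enc_norm (kf2q3_4.enc h1 h2)) (enc_norm (enc_subr 177 1000 (enc_neg (enc_scale 15250000 177135409 (c3g.enc h1)))))))))))⟩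
noncomputable def kf2q3 : Fn2 := ⟨_, _, fun h1 h2 => (enc_norm (enc_case (kf2q3_62.enc h1 h2) (enc_mul (cv2r.enc h1) (enc_norm (enc_add (enc_subr 2603545751 790000000 (enc_scale 784608917 395000000 h1)) (enc_mul (enc_norm (kf2q3_4.enc h1 h2)) (enc_norm (enc_subr 177942509 15800000 (enc_scale 161068109 23700000 h1))))))) (enc_case (kf2q3_74.enc h1 h2) (enc_add (kf2q3_98.enc h1 h2) (enc_mul (enc_norm (enc_mul (enc_norm (enc_sub (enc_mul (enc_norm (enc_subn 2 h1)) (enc_norm (enc_add (enc_mul (enc_norm (enc_sub (enc_sub (kf2q3_43.enc h1 h2) (kf2q3_42.enc h1 h2)) (enc_sub (enc_rat _ 1 4) (enc_scale 3 8 (enc_mul (enc_norm (kf2q3_40.enc h1 h2)) (enc_inv (kf2q3_41.enc h1 h2))))))) (enc_inv (esg.enc (enc_norm (kf2q3_40.enc h1 h2))))) (kcg.enc (enc_norm (enc_sub (kf2q3_42.enc h1 h2) (kf2q3_43.enc h1 h2))) h2)))) (kf2q3_98.enc h1 h2))) (enc_norm (enc_sub (cv2r.enc h1) (cv1r.enc h1)))))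 (enc_inv (enc_sub (enc_subr 1 2 (swg.enc h1)) (cv1r.enc h1))))) (enc_mul (cv2r.enc h1) (enc_norm (enc_case (enc_sub (enc_rat _ 616546227 1000000000) (c3g.enc h1)) (enc_add (enc_subr 93840406668317 653376484375000 (enc_scale 230772384 459977045 (c3g.enc h1))) (enc_mul (enc_norm (kf2q3_4.enc h1 h2)) (enc_norm (enc_sub (enc_rat _ 29282878903713733 4181609500000000) (enc_scale 1011616538 91995409 (c3g.enc h1)))))) (enc_add (enc_sub (enc_rat _ 1 2) (enc_scale 334300000 616546227 (c3g.enc h1))) (enc_mul (enc_norm (kf2q3_4.enc h1 h2)) (enc_scale 223000000 616546227 (c3g.enc h1))))))))))⟩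
noncomputable def bf2q3_3 : Fn2 := ⟨_, _, fun h1 h2 => (enc_subr 25 32 h2)⟩
noncomputable def bf2q3 : Fn2 := ⟨_, _, fun h1 h2 => (enc_norm (enc_case (enc_subr 1781 1000 h1) (enc_add (enc_subr 2603545751 790000000 (enc_scale 784608917 395000000 h1)) (enc_mul (enc_norm (bf2q3_3.enc h1 h2)) (enc_norm (enc_subr 177942509 15800000 (enc_scale 161068109 23700000 h1))))) (enc_case (enc_sub (enc_rat _ 616546227 1000000000) (c3g.enc h1)) (enc_add (enc_subr 93840406668317 653376484375000 (enc_scale 230772384 459977045 (c3g.enc h1))) (enc_mul (enc_norm (bf2q3_3.enc h1 h2)) (enc_norm (enc_sub (enc_rat _ 29282878903713733 4181609500000000) (enc_scale 1011616538 91995409 (c3g.enc h1)))))) (enc_add (enc_sub (enc_rat _ 1 2) (enc_scale 334300000 616546227 (c3g.enc h1))) (enc_mul (enc_norm (bf2q3_3.enc h1 h2)) (enc_scale 223000000 616546227 (c3g.enc h1)))))))⟩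
noncomputable def lm1r : Fn2 := ⟨_, _, fun h1 h2 => (enc_lam (enc_norm (enc_sub h1 (cv1r.enc h2))) (enc_sub (cv2r.enc h2) (cv1r.enc h2)))⟩
noncomputable def bf1q3_3 : Fn2 := ⟨_, _, fun h1 h2 => (enc_subr 25 32 h2)⟩
noncomputable def bf1q3 : Fn2 := ⟨_, _, fun h1 h2 => (enc_norm (enc_case (enc_subr 1737 1000 h1) (enc_add (enc_subr 2603719 790000 (enc_scale 2354 1185 h1)) (enc_mul (enc_norm (bf1q3_3.enc h1 h2)) (enc_norm (enc_subr 275543 79000 (enc_scale 422 237 h1))))) (enc_case (enc_subr 73 40 h1) (enc_add (enc_subr 145007 44000 (enc_scale 437 220 h1)) (enc_mul (enc_norm (bf1q3_3.enc h1 h2)) (enc_norm (enc_subr 307469 88000 (enc_scale 157 88 h1))))) (enc_add (enc_subr 1223 2000 (enc_scale 235250000 177135409 (c3g.enc h1))) (enc_mul (enc_norm (bf1q3_3.enc h1 h2)) (enc_norm (enc_subr 177 1000 (enc_neg (enc_scale 15250000 177135409 (c3g.enc h1))))))))))⟩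
noncomputable def rkbq3_35 : Fn3 := ⟨_, _, fun h1 h2 h3 => (enc_add (enc_mul h1 (bf2q3.enc h2 h3)) (enc_mul (enc_norm (enc_mul (enc_norm (enc_sub (enc_pnc _ 1) (lm1r.enc h1 h2))) (cv1r.enc h2))) (enc_norm (enc_sub (bf1q3.enc h2 h3) (bf2q3.enc h2 h3)))))⟩
noncomputable def rkbq3_36 : Fn3 := ⟨_, _, fun h1 h2 h3 => (enc_subn 1 h2)⟩
noncomputable def rkbq3_37 : Fn3 := ⟨_, _, fun h1 h2 h3 => (gsg.enc (enc_norm (rkbq3_36.enc h1 h2 h3)))⟩
noncomputable def rkbq3_38 : Fn3 := ⟨_, _, fun h1 h2 h3 => (enc_scale 3 4 (rkbq3_36.enc h1 h2 h3))⟩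
noncomputable def rkbq3_39 : Fn3 := ⟨_, _, fun h1 h2 h3 => (enc_half (rkbq3_37.enc h1 h2 h3))⟩
noncomputable def rkbq3_61 : Fn3 := ⟨_, _, fun h1 h2 h3 => (enc_sub h1 (cv1r.enc h2))⟩
noncomputable def rkbq3 : Fn3 := ⟨_, _, fun h1 h2 h3 => (enc_case (rkbq3_61.enc h1 h2 h3) (enc_mul h1 (bf1q3.enc h2 h3)) (enc_case (enc_sub h1 (cv2r.enc h2)) (enc_case (enc_subr 1737 1000 h2) (rkbq3_35.enc h1 h2 h3) (enc_case (enc_subr 73 40 h2) (enc_add (kf1q3.enc h2 h3) (enc_mul (enc_norm (enc_mul (enc_norm (rkbq3_61.enc h1 h2 h3)) (enc_inv (enc_sub (enc_subr 1 2 (swg.enc h2)) (cv1r.enc h2))))) (enc_norm (enc_sub (enc_mul (enc_norm (enc_subn 2 h2)) (enc_norm (enc_add (enc_mul (enc_norm (enc_sub (enc_sub (rkbq3_39.enc h1 h2 h3) (rkbq3_38.enc h1 h2 h3)) (enc_sub (enc_rat _ 1 4) (enc_scale 3 8 (enc_mul (enc_norm (rkbq3_36.enc h1 h2 h3)) (enc_inv (rkbq3_37.enc h1 h2 h3))))))) (enc_inv (esg.enc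 (enc_norm (rkbq3_36.enc h1 h2 h3))))) (kcg.enc (enc_norm (enc_sub (rkbq3_38.enc h1 h2 h3) (rkbq3_39.enc h1 h2 h3))) h3)))) (kf1q3.enc h2 h3))))) (rkbq3_35.enc h1 h2 h3))) (enc_case (enc_sub h1 (cv3r.enc h2)) (enc_add (enc_mul h1 (bf3q3.enc h2 h3)) (enc_mul (enc_norm (enc_sub (enc_pnc _ 1) (lm2r.enc h1 h2))) (enc_norm (enc_sub (kf2q3.enc h2 h3) (enc_mul (cv2r.enc h2) (bf3q3.enc h2 h3)))))) (enc_add (kf3q3.enc h2 h3) (enc_mul (lm3r.enc h1 h2) (enc_norm (enc_sub (kf4q3.enc h2 h3) (kf3q3.enc h2 h3))))))))⟩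
noncomputable def rsbq3 : Fn3 := ⟨_, _, fun h1 h2 h3 => (enc_case h1 (enc_neg (rkbq3.enc (enc_neg h1) h2 h3)) (rkbq3.enc h1 h2 h3))⟩
noncomputable def bx2q0_3 : Fn2 := ⟨_, _, fun h1 h2 => (enc_subr 25 32 h2)⟩
noncomputable def bx2q0_48 : Fn2 := ⟨_, _, fun h1 h2 => (enc_sq (enc_norm (bx2q0_3.enc h1 h2)))⟩
noncomputable def bx2q0 : Fn2 := ⟨_, _, fun h1 h2 => (enc_norm (enc_case (enc_subr 219 1000 h1) (enc_case (enc_subr 11 125 h1) (enc_case (enc_subr 1 16 h1) (enc_add (enc_add (enc_scale 42 125 h1) (enc_rat _ 167 2000)) (enc_mul (enc_norm (bx2q0_3.enc h1 h2)) (enc_norm (enc_add (enc_scale 178 125 h1) (enc_rat _ 71 1000))))) (enc_add (enc_add (enc_scale 23 85 h1) (enc_rat _ 1489 17000)) (enc_mul (enc_norm (bx2q0_3.enc h1 h2)) (enc_norm (enc_add (enc_scale 52 51 h1) (enc_rat _ 491 5100)))))) (enc_case (enc_subr 33 250 h1) (enc_add (enc_add (enc_scale 93 440 h1) (enc_rat _ 58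 625)) (enc_mul (enc_norm (bx2q0_3.enc h1 h2)) (enc_norm (enc_add (enc_scale 47 44 h1) (enc_rat _ 23 250))))) (enc_add (enc_add (enc_add (enc_scale 20892901 430000000 h1) (enc_rat _ 12285784267 107500000000)) (enc_mul (enc_norm (bx2q0_3.enc h1 h2)) (enc_norm (enc_sub (enc_rat _ 3117628357 5375000000) (enc_scale 56522829 21500000 h1))))) (enc_mul (bx2q0_48.enc h1 h2) (enc_norm (enc_subr 8142189 10750000 (enc_scale 246733 43000 h1))))))) (enc_case (enc_subr 159 500 h1) (enc_add (enc_add (enc_sub (enc_rat _ 16588445299 137500000000) (enc_scale 5658461 275000000 h1)) (enc_mul (enc_norm (bx2q0_3.enc h1 h2)) (enc_norm (enc_subr 38277527 214843750 (enc_scale 1162937 1718750 h1))))) (enc_mul (bx2q0_48.enc h1 h2) (enc_norm (enc_subr 19203861 27500000 (enc_scale 120779 55000 h1))))) (enc_case (enc_subr 93 250 h1) (enc_add (enc_sub (enc_rat _ 2713 22500) (enc_scale 11 540 h1)) (enc_mul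 (enc_norm (bx2q0_3.enc h1 h2)) (enc_norm (enc_subr 3589 9000 (enc_scale 37 27 h1))))) (enc_add (enc_sub (enc_rat _ 38671 320000) (enc_scale 27 1280 h1)) (enc_mul (enc_norm (bx2q0_3.enc h1 h2)) (enc_norm (enc_add (enc_scale 23 128 h1) (enc_rat _ 1413 32000)))))))))⟩
noncomputable def rxq0_35 : Fn3 := ⟨_, _, fun h1 h2 h3 => (enc_add (enc_mul h1 (bx2q0.enc h2 h3)) (enc_mul (enc_norm (enc_mul (enc_norm (enc_sub (enc_pnc _ 1) (lm1m.enc h1 h2))) (cv1m.enc h2))) (enc_norm (enc_sub (bx1q0.enc h2 h3) (bx2q0.enc h2 h3)))))⟩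
noncomputable def rxq0_37 : Fn3 := ⟨_, _, fun h1 h2 h3 => (enc_sub (enc_pnc _ 1) h2)⟩
noncomputable def rxq0_54 : Fn3 := ⟨_, _, fun h1 h2 h3 => (enc_sub h1 (cv1m.enc h2))⟩
noncomputable def rxq0 : Fn3 := ⟨_, _, fun h1 h2 h3 => (enc_case (rxq0_54.enc h1 h2 h3) (enc_add (enc_mul h1 (bx1q0.enc h2 h3)) (enc_mul (enc_norm (enc_sub (enc_pnc _ 1) (lm0m.enc h1 h2))) (enc_norm (enc_sub (l0q0.enc h2 h3) (enc_mul (c1g.enc h2) (bx1q0.enc h2 h3)))))) (enc_case (enc_sub h1 (cv2m.enc h2)) (enc_case (enc_subr 7 40 h2) (rxq0_35.enc h1 h2 h3) (enc_case (enc_subr 263 1000 h2) (enc_add (l1q0.enc h2 h3) (enc_mul (enc_norm (enc_mul (enc_norm (rxq0_54.enc h1 h2 h3)) (enc_inv (enc_sub (enc_add (swg.enc h2) (enc_rat _ 1 2)) (cv1m.enc h2))))) (enc_norm (enc_sub (enc_sub (qsg.enc (enc_norm (rxq0_37.enc h1 h2 h3))) (enc_mul (enc_norm (enc_nat 2 (enc_sub (rxq0_37.enc h1 h2 h3) h3))) (enc_norm (enc_mul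 (esg.enc (enc_norm (rxq0_37.enc h1 h2 h3))) (kcg.enc (enc_norm (enc_sub (enc_scale 3 4 (rxq0_37.enc h1 h2 h3)) (enc_half (gsg.enc (enc_norm (rxq0_37.enc h1 h2 h3)))))) h3))))) (l1q0.enc h2 h3))))) (rxq0_35.enc h1 h2 h3))) (enc_case (enc_sub h1 (cv3m.enc h2)) (enc_add (enc_mul h1 (bx3q0.enc h2 h3)) (enc_mul (enc_norm (enc_sub (enc_pnc _ 1) (lm2m.enc h1 h2))) (enc_norm (enc_sub (l2q0.enc h2 h3) (enc_mul (cv2m.enc h2) (bx3q0.enc h2 h3)))))) (enc_add (l3q0.enc h2 h3) (enc_mul (lm3m.enc h1 h2) (enc_norm (enc_sub (l4q0.enc h2 h3) (l3q0.enc h2 h3))))))))⟩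
noncomputable def rlq0 : Fn3 := ⟨_, _, fun h1 h2 h3 => (enc_case h1 (enc_neg (rxq0.enc (enc_neg h1) h2 h3)) (rxq0.enc h1 h2 h3))⟩
noncomputable def rxq1 : Fn3 := ⟨_, _, fun h1 h2 h3 => (enc_case (enc_sub h1 (cv1m.enc h2)) (enc_add (enc_mul h1 (bx1q1.enc h2 h3)) (enc_mul (enc_norm (enc_sub (enc_pnc _ 1) (lm0m.enc h1 h2))) (enc_norm (enc_sub (l0q1.enc h2 h3) (enc_mul (c1g.enc h2) (bx1q1.enc h2 h3)))))) (enc_case (enc_sub h1 (cv2m.enc h2)) (enc_add (enc_mul h1 (bx2q1.enc h2 h3)) (enc_mul (enc_norm (enc_mul (enc_norm (enc_sub (enc_pnc _ 1) (lm1m.enc h1 h2))) (cv1m.enc h2))) (enc_norm (enc_sub (bx1q1.enc h2 h3) (bx2q1.enc h2 h3))))) (enc_case (enc_sub h1 (cv3m.enc h2)) (enc_add (enc_mul h1 (bx3q1.enc h2 h3)) (enc_mul (enc_norm (enc_mul (enc_norm (enc_sub (enc_pnc _ 1) (lm2m.enc h1 h2))) (cv2m.enc h2))) (enc_norm (enc_sub (bx2q1.enc h2 h3) (bx3q1.enc h2 h3))))) (enc_add (l3q1.enc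 h2 h3) (enc_mul (lm3m.enc h1 h2) (enc_norm (enc_sub (l4q1.enc h2 h3) (l3q1.enc h2 h3))))))))⟩
noncomputable def rlq1 : Fn3 := ⟨_, _, fun h1 h2 h3 => (enc_case h1 (enc_neg (rxq1.enc (enc_neg h1) h2 h3)) (rxq1.enc h1 h2 h3))⟩
noncomputable def l0q2_7 : Fn2 := ⟨_, _, fun h1 h2 => (enc_scale 3 4 h1)⟩
noncomputable def l0q2_8 : Fn2 := ⟨_, _, fun h1 h2 => (enc_half (c1g.enc h1))⟩
noncomputable def l0q2 : Fn2 := ⟨_, _, fun h1 h2 => (enc_norm (enc_sub (txg.enc (enc_neg (c1g.enc h1)) (enc_norm (enc_add (l0q2_7.enc h1 h2) (l0q2_8.enc h1 h2))) h2) (txg.enc (c1g.enc h1) (enc_norm (enc_sub (l0q2_7.enc h1 h2) (l0q2_8.enc h1 h2))) h2)))⟩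
noncomputable def n0x : Fn2 := ⟨_, _, fun h1 h2 => (enc_norm (enc_subr 39319 250000 (enc_scale 5671 12500 (enc_subr 25 32 h2))))⟩
noncomputable def rxq2_40 : Fn3 := ⟨_, _, fun h1 h2 h3 => (enc_mul h1 (bx1q2.enc h2 h3))⟩
noncomputable def rxq2_42 : Fn3 := ⟨_, _, fun h1 h2 h3 => (enc_sub (enc_pnc _ 1) (lm0p.enc h1 h2))⟩
noncomputable def rxq2 : Fn3 := ⟨_, _, fun h1 h2 h3 => (enc_case (enc_sub h1 (cv1p.enc h2)) (enc_case (enc_subr 1149 1000 h2) (enc_add (rxq2_40.enc h1 h2 h3) (enc_mul (enc_norm (rxq2_42.enc h1 h2 h3)) (enc_norm (enc_sub (l0q2.enc h2 h3) (enc_mul (c1g.enc h2) (bx1q2.enc h2 h3)))))) (enc_case (enc_subr 2887 2500 h2) (enc_add (rxq2_40.enc h1 h2 h3) (enc_mul (enc_norm (rxq2_42.enc h1 h2 h3)) (enc_norm (enc_mul (c1g.enc h2) (enc_norm (enc_sub (n0x.enc h2 h3) (bx1q2.enc h2 h3))))))) (rxq2_40.enc h1 h2 h3))) (enc_case (enc_sub h1 (cv2p.enc h2)) (enc_add (enc_mul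 h1 (bx2q2.enc h2 h3)) (enc_mul (enc_norm (enc_mul (enc_norm (enc_sub (enc_pnc _ 1) (lm1p.enc h1 h2))) (cv1p.enc h2))) (enc_norm (enc_sub (bx1q2.enc h2 h3) (bx2q2.enc h2 h3))))) (enc_case (enc_sub h1 (cv3p.enc h2)) (enc_add (enc_mul h1 (bx3q2.enc h2 h3)) (enc_mul (enc_norm (enc_mul (enc_norm (enc_sub (enc_pnc _ 1) (lm2p.enc h1 h2))) (cv2p.enc h2))) (enc_norm (enc_sub (bx2q2.enc h2 h3) (bx3q2.enc h2 h3))))) (enc_add (l3q2.enc h2 h3) (enc_mul (lm3p.enc h1 h2) (enc_norm (enc_sub (l4q2.enc h2 h3) (l3q2.enc h2 h3))))))))⟩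
noncomputable def rlq2 : Fn3 := ⟨_, _, fun h1 h2 h3 => (enc_case h1 (enc_neg (rxq2.enc (enc_neg h1) h2 h3)) (rxq2.enc h1 h2 h3))⟩
noncomputable def l3q3_4 : Fn2 := ⟨_, _, fun h1 h2 => (enc_subr 25 32 h2)⟩
noncomputable def l3q3 : Fn2 := ⟨_, _, fun h1 h2 => (enc_norm (enc_mul (cv3r.enc h1) (enc_norm (enc_case (enc_subr 73 40 h1) (enc_case (enc_subr 1737 1000 h1) (enc_add (enc_subr 531861 790000 (enc_scale 622 1185 h1)) (enc_mul (enc_norm (l3q3_4.enc h1 h2)) (enc_norm (enc_sub (enc_rat _ 2671 3160) (enc_scale 98 237 h1))))) (enc_add (enc_subr 26937 40000 (enc_scale 21 40 h1)) (enc_mul (enc_norm (l3q3_4.enc h1 h2)) (enc_norm (enc_sub (enc_rat _ 18427 22000) (enc_scale 9 22 h1)))))) (enc_case (enc_sub (enc_rat _ 429616471 1000000000) (c3g.enc h1)) (enc_add (enc_sub (enc_rat _ 254032070019 309916850000) (enc_scale 4680000 6198337 (c3g.enc h1))) (enc_mul (enc_norm (l3q3_4.enc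 h1 h2)) (enc_norm (enc_subr 27516477253 55785033000 (enc_scale 46000000 55785033 (c3g.enc h1)))))) (enc_add (enc_add (enc_scale 52330500 429616471 (c3g.enc h1)) (enc_rat _ 885939 2000000)) (enc_mul (enc_norm (l3q3_4.enc h1 h2)) (enc_norm (enc_sub (enc_rat _ 216319 100000) (enc_scale 2302190000 429616471 (c3g.enc h1)))))))))))⟩
noncomputable def l4q3_7 : Fn2 := ⟨_, _, fun h1 h2 => (enc_half (c3g.enc h1))⟩
noncomputable def l4q3_8 : Fn2 := ⟨_, _, fun h1 h2 => (enc_scale 1 4 h1)⟩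
noncomputable def l4q3_9 : Fn2 := ⟨_, _, fun h1 h2 => (enc_sub (l4q3_7.enc h1 h2) (l4q3_8.enc h1 h2))⟩
noncomputable def l4q3_12 : Fn2 := ⟨_, _, fun h1 h2 => (enc_add (enc_scale 1 4 (c3g.enc h1)) (enc_scale 3 8 h1))⟩
noncomputable def l4q3_14 : Fn2 := ⟨_, _, fun h1 h2 => (enc_half (l4q3_9.enc h1 h2))⟩
noncomputable def l4q3 : Fn2 := ⟨_, _, fun h1 h2 => (enc_norm (enc_sub (enc_nat 2 (txg.enc (enc_norm (enc_sub (l4q3_8.enc h1 h2) (l4q3_7.enc h1 h2))) (enc_norm (enc_add (l4q3_12.enc h1 h2) (l4q3_14.enc h1 h2))) h2)) (txg.enc (enc_norm (l4q3_9.enc h1 h2)) (enc_norm (enc_sub (l4q3_12.enc h1 h2) (l4q3_14.enc h1 h2))) h2)))⟩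
noncomputable def bx3q3_3 : Fn2 := ⟨_, _, fun h1 h2 => (enc_subr 25 32 h2)⟩
noncomputable def bx3q3 : Fn2 := ⟨_, _, fun h1 h2 => (enc_norm (enc_case (enc_subr 73 40 h1) (enc_case (enc_subr 1737 1000 h1) (enc_add (enc_subr 531861 790000 (enc_scale 622 1185 h1)) (enc_mul (enc_norm (bx3q3_3.enc h1 h2)) (enc_norm (enc_sub (enc_rat _ 2671 3160) (enc_scale 98 237 h1))))) (enc_add (enc_subr 26937 40000 (enc_scale 21 40 h1)) (enc_mul (enc_norm (bx3q3_3.enc h1 h2)) (enc_norm (enc_sub (enc_rat _ 18427 22000) (enc_scale 9 22 h1)))))) (enc_case (enc_sub (enc_rat _ 429616471 1000000000) (c3g.enc h1)) (enc_add (enc_sub (enc_rat _ 254032070019 309916850000) (enc_scale 4680000 6198337 (c3g.enc h1))) (enc_mul (enc_norm (bx3q3_3.enc h1 h2)) (enc_norm (enc_subr 27516477253 55785033000 (enc_scale 46000000 55785033 (c3g.enc h1)))))) (enc_add (enc_add (enc_scale 52330500 429616471 (c3g.enc h1))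 (enc_rat _ 885939 2000000)) (enc_mul (enc_norm (bx3q3_3.enc h1 h2)) (enc_norm (enc_sub (enc_rat _ 216319 100000) (enc_scale 2302190000 429616471 (c3g.enc h1)))))))))⟩
noncomputable def l2q3_4 : Fn2 := ⟨_, _, fun h1 h2 => (enc_subr 25 32 h2)⟩
noncomputable def l2q3_6 : Fn2 := ⟨_, _, fun h1 h2 => (enc_subr 839 500 h1)⟩
noncomputable def l2q3_31 : Fn2 := ⟨_, _, fun h1 h2 => (enc_sq (enc_norm (l2q3_4.enc h1 h2)))⟩
noncomputable def l2q3_66 : Fn2 := ⟨_, _, fun h1 h2 => (enc_subn 1 h1)⟩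
noncomputable def l2q3_81 : Fn2 := ⟨_, _, fun h1 h2 => (enc_subr 1737 1000 h1)⟩
noncomputable def l2q3_104 : Fn2 := ⟨_, _, fun h1 h2 => (enc_subr 73 40 h1)⟩
noncomputable def l2q3_127 : Fn2 := ⟨_, _, fun h1 h2 => (enc_mul (cv1r.enc h1) (enc_norm (enc_case (l2q3_81.enc h1 h2) (enc_case (l2q3_6.enc h1 h2) (enc_add (enc_subr 805713 445000 (enc_scale 637 445 h1)) (enc_mul (enc_norm (l2q3_4.enc h1 h2)) (enc_norm (enc_subr 149379 89000 (enc_scale 93 89 h1))))) (enc_add (enc_subr 533653 295000 (enc_scale 422 295 h1)) (enc_mul (enc_norm (l2q3_4.enc h1 h2)) (enc_norm (enc_sub (enc_rat _ 157123 59000) (enc_scale 91 59 h1)))))) (enc_case (l2q3_104.enc h1 h2) (enc_add (enc_subr 398479 220000 (enc_scale 63 44 h1)) (enc_mul (enc_norm (l2q3_4.enc h1 h2)) (enc_norm (enc_sub (enc_rat _ 233087 88000) (enc_scale 135 88 h1))))) (enc_add (enc_sub (enc_rat _ 11519 10000) (enc_scale 87525000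 177135409 (c3g.enc h1))) (enc_mul (enc_norm (l2q3_4.enc h1 h2)) (enc_norm (enc_subr 333 1000 (enc_scale 45500000 177135409 (c3g.enc h1))))))))))⟩
noncomputable def l2q3 : Fn2 := ⟨_, _, fun h1 h2 => (enc_norm (enc_case (l2q3_81.enc h1 h2) (enc_mul (cv2r.enc h1) (enc_norm (enc_case (l2q3_6.enc h1 h2) (enc_add (enc_subr 2613 2500 (enc_scale 17 20 h1)) (enc_mul (enc_norm (l2q3_4.enc h1 h2)) (enc_norm (enc_sub (enc_rat _ 56067 44500) (enc_scale 131 178 h1))))) (enc_add (enc_add (enc_subr 308500391319 295000000000 (enc_scale 501698321 590000000 h1)) (enc_mul (enc_norm (l2q3_4.enc h1 h2)) (enc_norm (enc_subr 119368071987 14750000000 (enc_scale 142713733 29500000 h1))))) (enc_mul (l2q3_31.enc h1 h2) (enc_norm (enc_sub (enc_rat _ 204159743 14750000) (enc_scale 243337 29500 h1)))))))) (enc_case (l2q3_104.enc h1 h2) (enc_add (l2q3_127.enc h1 h2) (enc_mul (enc_norm (enc_mul (enc_norm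 (enc_sub (enc_sub (qsg.enc (enc_norm (l2q3_66.enc h1 h2))) (enc_mul (enc_norm (enc_nat 2 (enc_sub (l2q3_66.enc h1 h2) h2))) (enc_norm (enc_mul (esg.enc (enc_norm (l2q3_66.enc h1 h2))) (kcg.enc (enc_norm (enc_sub (enc_scale 3 4 (l2q3_66.enc h1 h2)) (enc_half (gsg.enc (enc_norm (l2q3_66.enc h1 h2)))))) h2))))) (l2q3_127.enc h1 h2))) (enc_norm (enc_sub (cv2r.enc h1) (cv1r.enc h1))))) (enc_inv (enc_sub (enc_subr 1 2 (swg.enc h1)) (cv1r.enc h1))))) (enc_mul (cv2r.enc h1) (enc_norm (enc_case (enc_sub (enc_rat _ 616546227 1000000000) (c3g.enc h1)) (enc_add (enc_add (enc_sub (enc_rat _ 36878519993425769 41816095000000000) (enc_scale 20755347 41816095 (c3g.enc h1))) (enc_mul (enc_norm (l2q3_4.enc h1 h2)) (enc_norm (enc_add (enc_scale 43838326 91995409 (c3g.enc h1)) (enc_rat _ 937512153122909 4181609500000000))))) (enc_mul (l2q3_31.enc h1 h2) (enc_norm (enc_subr 60510593150973 8363219000000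 (enc_scale 1079589000 91995409 (c3g.enc h1)))))) (enc_add (enc_add (enc_scale 132930500 616546227 (c3g.enc h1)) (enc_rat _ 885939 2000000)) (enc_mul (enc_norm (l2q3_4.enc h1 h2)) (enc_norm (enc_sub (enc_rat _ 216319 100000) (enc_scale 1645190000 616546227 (c3g.enc h1))))))))))))⟩
noncomputable def bx2q3_3 : Fn2 := ⟨_, _, fun h1 h2 => (enc_subr 25 32 h2)⟩
noncomputable def bx2q3_30 : Fn2 := ⟨_, _, fun h1 h2 => (enc_sq (enc_norm (bx2q3_3.enc h1 h2)))⟩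
noncomputable def bx2q3 : Fn2 := ⟨_, _, fun h1 h2 => (enc_norm (enc_case (enc_subr 1781 1000 h1) (enc_case (enc_subr 839 500 h1) (enc_add (enc_subr 2613 2500 (enc_scale 17 20 h1)) (enc_mul (enc_norm (bx2q3_3.enc h1 h2)) (enc_norm (enc_sub (enc_rat _ 56067 44500) (enc_scale 131 178 h1))))) (enc_add (enc_add (enc_subr 308500391319 295000000000 (enc_scale 501698321 590000000 h1)) (enc_mul (enc_norm (bx2q3_3.enc h1 h2)) (enc_norm (enc_subr 119368071987 14750000000 (enc_scale 142713733 29500000 h1))))) (enc_mul (bx2q3_30.enc h1 h2) (enc_norm (enc_sub (enc_rat _ 204159743 14750000) (enc_scale 243337 29500 h1)))))) (enc_case (enc_sub (enc_rat _ 616546227 1000000000) (c3g.enc h1)) (enc_add (enc_add (enc_sub (enc_rat _ 36878519993425769 41816095000000000) (enc_scale 20755347 41816095 (c3g.enc h1))) (enc_mul (enc_norm (bx2q3_3.enc h1 h2)) (enc_norm (enc_add (enc_scale 43838326 91995409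 (c3g.enc h1)) (enc_rat _ 937512153122909 4181609500000000))))) (enc_mul (bx2q3_30.enc h1 h2) (enc_norm (enc_subr 60510593150973 8363219000000 (enc_scale 1079589000 91995409 (c3g.enc h1)))))) (enc_add (enc_add (enc_scale 132930500 616546227 (c3g.enc h1)) (enc_rat _ 885939 2000000)) (enc_mul (enc_norm (bx2q3_3.enc h1 h2)) (enc_norm (enc_sub (enc_rat _ 216319 100000) (enc_scale 1645190000 616546227 (c3g.enc h1)))))))))⟩
noncomputable def bx1q3_3 : Fn2 := ⟨_, _, fun h1 h2 => (enc_subr 25 32 h2)⟩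
noncomputable def bx1q3 : Fn2 := ⟨_, _, fun h1 h2 => (enc_norm (enc_case (enc_subr 1737 1000 h1) (enc_case (enc_subr 839 500 h1) (enc_add (enc_subr 805713 445000 (enc_scale 637 445 h1)) (enc_mul (enc_norm (bx1q3_3.enc h1 h2)) (enc_norm (enc_subr 149379 89000 (enc_scale 93 89 h1))))) (enc_add (enc_subr 533653 295000 (enc_scale 422 295 h1)) (enc_mul (enc_norm (bx1q3_3.enc h1 h2)) (enc_norm (enc_sub (enc_rat _ 157123 59000) (enc_scale 91 59 h1)))))) (enc_case (enc_subr 73 40 h1) (enc_add (enc_subr 398479 220000 (enc_scale 63 44 h1)) (enc_mul (enc_norm (bx1q3_3.enc h1 h2)) (enc_norm (enc_sub (enc_rat _ 233087 88000) (enc_scale 135 88 h1))))) (enc_add (enc_sub (enc_rat _ 11519 10000) (enc_scale 87525000 177135409 (c3g.enc h1))) (enc_mul (enc_norm (bx1q3_3.enc h1 h2)) (enc_norm (enc_subr 333 1000 (enc_scale 45500000 177135409 (c3g.enc h1)))))))))⟩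
noncomputable def rxq3_35 : Fn3 := ⟨_, _, fun h1 h2 h3 => (enc_add (enc_mul h1 (bx2q3.enc h2 h3)) (enc_mul (enc_norm (enc_mul (enc_norm (enc_sub (enc_pnc _ 1) (lm1r.enc h1 h2))) (cv1r.enc h2))) (enc_norm (enc_sub (bx1q3.enc h2 h3) (bx2q3.enc h2 h3)))))⟩
noncomputable def rxq3_36 : Fn3 := ⟨_, _, fun h1 h2 h3 => (enc_subn 1 h2)⟩
noncomputable def rxq3_54 : Fn3 := ⟨_, _, fun h1 h2 h3 => (enc_sub h1 (cv1r.enc h2))⟩
noncomputable def rxq3 : Fn3 := ⟨_, _, fun h1 h2 h3 => (enc_case (rxq3_54.enc h1 h2 h3) (enc_mul h1 (bx1q3.enc h2 h3)) (enc_case (enc_sub h1 (cv2r.enc h2)) (enc_case (enc_subr 1737 1000 h2) (rxq3_35.enc h1 h2 h3) (enc_case (enc_subr 73 40 h2) (enc_add (l1q3.enc h2 h3) (enc_mul (enc_norm (enc_mul (enc_norm (rxq3_54.enc h1 h2 h3)) (enc_inv (enc_sub (enc_subr 1 2 (swg.enc h2)) (cv1r.enc h2))))) (enc_norm (enc_sub (enc_sub (qsg.enc (enc_norm (rxq3_36.enc h1 h2 h3)))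 (enc_mul (enc_norm (enc_nat 2 (enc_sub (rxq3_36.enc h1 h2 h3) h3))) (enc_norm (enc_mul (esg.enc (enc_norm (rxq3_36.enc h1 h2 h3))) (kcg.enc (enc_norm (enc_sub (enc_scale 3 4 (rxq3_36.enc h1 h2 h3)) (enc_half (gsg.enc (enc_norm (rxq3_36.enc h1 h2 h3)))))) h3))))) (l1q3.enc h2 h3))))) (rxq3_35.enc h1 h2 h3))) (enc_case (enc_sub h1 (cv3r.enc h2)) (enc_add (enc_mul h1 (bx3q3.enc h2 h3)) (enc_mul (enc_norm (enc_sub (enc_pnc _ 1) (lm2r.enc h1 h2))) (enc_norm (enc_sub (l2q3.enc h2 h3) (enc_mul (cv2r.enc h2) (bx3q3.enc h2 h3)))))) (enc_add (l3q3.enc h2 h3) (enc_mul (lm3r.enc h1 h2) (enc_norm (enc_sub (l4q3.enc h2 h3) (l3q3.enc h2 h3))))))))⟩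
noncomputable def rlq3 : Fn3 := ⟨_, _, fun h1 h2 h3 => (enc_case h1 (enc_neg (rxq3.enc (enc_neg h1) h2 h3)) (rxq3.enc h1 h2 h3))⟩
noncomputable def bd2q0_3 : Fn2 := ⟨_, _, fun h1 h2 => (enc_subr 25 32 h2)⟩
noncomputable def bd2q0 : Fn2 := ⟨_, _, fun h1 h2 => (enc_norm (enc_case (enc_subr 219 1000 h1) (enc_add (enc_subr 1063 1000 (enc_neg (enc_scale 16023707423 1750000000 h1))) (enc_mul (enc_norm (bd2q0_3.enc h1 h2)) (enc_norm (enc_subr 943 250 (enc_scale 35147497 1000000 h1))))) (enc_add (enc_subr 5012223883 1580000000 (enc_scale 3016051883 790000000 h1)) (enc_mul (enc_norm (bd2q0_3.enc h1 h2)) (enc_norm (enc_subr 716750179 237000000 (enc_scale 358169179 118500000 h1)))))))⟩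
noncomputable def rcq0_35 : Fn3 := ⟨_, _, fun h1 h2 h3 => (enc_add (enc_mul h1 (bd2q0.enc h2 h3)) (enc_mul (enc_norm (enc_mul (enc_norm (enc_sub (enc_pnc _ 1) (lm1m.enc h1 h2))) (cv1m.enc h2))) (enc_norm (enc_sub (bd1q0.enc h2 h3) (bd2q0.enc h2 h3)))))⟩
noncomputable def rcq0_37 : Fn3 := ⟨_, _, fun h1 h2 h3 => (enc_sub (enc_pnc _ 1) h2)⟩
noncomputable def rcq0_38 : Fn3 := ⟨_, _, fun h1 h2 h3 => (gsg.enc (enc_norm (rcq0_37.enc h1 h2 h3)))⟩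
noncomputable def rcq0_42 : Fn3 := ⟨_, _, fun h1 h2 h3 => (esg.enc (enc_norm (rcq0_37.enc h1 h2 h3)))⟩
noncomputable def rcq0_46 : Fn3 := ⟨_, _, fun h1 h2 h3 => (gug.enc (enc_norm (rcq0_37.enc h1 h2 h3)))⟩
noncomputable def rcq0_48 : Fn3 := ⟨_, _, fun h1 h2 h3 => (enc_mul (enc_norm (rcq0_37.enc h1 h2 h3)) (enc_inv (rcq0_38.enc h1 h2 h3)))⟩
noncomputable def rcq0_49 : Fn3 := ⟨_, _, fun h1 h2 h3 => (enc_scale 3 4 (rcq0_48.enc h1 h2 h3))⟩
noncomputable def rcq0_79 : Fn3 := ⟨_, _, fun h1 h2 h3 => (enc_sub h1 (cv1m.enc h2))⟩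
noncomputable def rcq0 : Fn3 := ⟨_, _, fun h1 h2 h3 => (enc_case (rcq0_79.enc h1 h2 h3) (enc_add (enc_mul h1 (bd1q0.enc h2 h3)) (enc_mul (enc_norm (enc_sub (enc_pnc _ 1) (lm0m.enc h1 h2))) (enc_norm (enc_sub (kc0q0.enc h2 h3) (enc_mul (c1g.enc h2) (bd1q0.enc h2 h3)))))) (enc_case (enc_sub h1 (cv2m.enc h2)) (enc_case (enc_subr 7 40 h2) (rcq0_35.enc h1 h2 h3) (enc_case (enc_subr 263 1000 h2) (enc_add (kc1q0.enc h2 h3) (enc_mul (enc_norm (enc_mul (enc_norm (rcq0_79.enc h1 h2 h3)) (enc_inv (enc_sub (enc_add (swg.enc h2) (enc_rat _ 1 2)) (cv1m.enc h2))))) (enc_norm (enc_sub (enc_add (enc_sub (enc_neg (enc_add (enc_add (enc_rat _ 3 4) (enc_scale 3 2 (rcq0_37.enc h1 h2 h3))) (enc_scale 3 4 (enc_mul (enc_norm (rcq0_48.enc h1 h2 h3)) (rcq0_46.enc h1 h2 h3))))) (enc_mul (enc_norm (enc_sub (enc_mul (enc_norm (enc_mul (enc_norm (rcq0_49.enc h1 h2 h3)) (enc_norm (enc_subn 3 (enc_nat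 4 (rcq0_38.enc h1 h2 h3)))))) (rcq0_42.enc h1 h2 h3)) (enc_mul (qsg.enc (enc_norm (rcq0_37.enc h1 h2 h3))) (enc_norm (enc_sub (enc_rat _ 1 2) (rcq0_49.enc h1 h2 h3)))))) (enc_inv (enc_mul (enc_nat 2 (rcq0_42.enc h1 h2 h3)) (rcq0_42.enc h1 h2 h3))))) (enc_mul (kcg.enc (enc_norm (enc_sub (enc_scale 3 4 (rcq0_37.enc h1 h2 h3)) (enc_half (rcq0_38.enc h1 h2 h3)))) h3) (enc_norm (enc_add (enc_pnc _ 1) (enc_add (rcq0_46.enc h1 h2 h3) (enc_nat 2 (rcq0_38.enc h1 h2 h3))))))) (kc1q0.enc h2 h3))))) (rcq0_35.enc h1 h2 h3))) (enc_case (enc_sub h1 (cv3m.enc h2)) (enc_add (enc_mul h1 (bd3q0.enc h2 h3)) (enc_mul (enc_norm (enc_sub (enc_pnc _ 1) (lm2m.enc h1 h2))) (enc_norm (enc_sub (kc2q0.enc h2 h3) (enc_mul (cv2m.enc h2) (bd3q0.enc h2 h3)))))) (enc_add (kc3q0.enc h2 h3) (enc_mul (lm3m.enc h1 h2) (enc_norm (enc_sub (kc4q0.enc h2 h3) (kc3q0.enc h2 h3))))))))⟩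
noncomputable def pd0 : Fn3 := ⟨_, _, fun h1 h2 h3 => (enc_case h1 (enc_neg (rcq0.enc (enc_neg h1) h2 h3)) (rcq0.enc h1 h2 h3))⟩
noncomputable def rcq1 : Fn3 := ⟨_, _, fun h1 h2 h3 => (enc_case (enc_sub h1 (cv1m.enc h2)) (enc_add (enc_mul h1 (bd1q1.enc h2 h3)) (enc_mul (enc_norm (enc_sub (enc_pnc _ 1) (lm0m.enc h1 h2))) (enc_norm (enc_sub (kc0q1.enc h2 h3) (enc_mul (c1g.enc h2) (bd1q1.enc h2 h3)))))) (enc_case (enc_sub h1 (cv2m.enc h2)) (enc_add (enc_mul h1 (bd2q1.enc h2 h3)) (enc_mul (enc_norm (enc_mul (enc_norm (enc_sub (enc_pnc _ 1) (lm1m.enc h1 h2))) (cv1m.enc h2))) (enc_norm (enc_sub (bd1q1.enc h2 h3) (bd2q1.enc h2 h3))))) (enc_case (enc_sub h1 (cv3m.enc h2)) (enc_add (enc_mul h1 (bd3q1.enc h2 h3)) (enc_mul (enc_norm (enc_mul (enc_norm (enc_sub (enc_pnc _ 1) (lm2m.enc h1 h2))) (cv2m.enc h2))) (enc_norm (enc_sub (bd2q1.enc h2 h3) (bd3q1.enc h2 h3))))) (enc_add (kc3q1.enc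 h2 h3) (enc_mul (lm3m.enc h1 h2) (enc_norm (enc_sub (kc4q1.enc h2 h3) (kc3q1.enc h2 h3))))))))⟩
noncomputable def pd1 : Fn3 := ⟨_, _, fun h1 h2 h3 => (enc_case h1 (enc_neg (rcq1.enc (enc_neg h1) h2 h3)) (rcq1.enc h1 h2 h3))⟩
noncomputable def kc0q2_3 : Fn2 := ⟨_, _, fun h1 h2 => (enc_subr 25 32 h2)⟩
noncomputable def kc0q2 : Fn2 := ⟨_, _, fun h1 h2 => (enc_norm (enc_case (enc_subr 1 10 (c1g.enc h1)) (enc_mul (enc_norm (kc0q2_3.enc h1 h2)) (enc_scale 499 100 (c1g.enc h1))) (enc_case (enc_subr 3 10 (c1g.enc h1)) (enc_mul (enc_norm (kc0q2_3.enc h1 h2)) (enc_norm (enc_subr 1 2000 (enc_scale 999 200 (c1g.enc h1))))) (enc_mul (enc_norm (kc0q2_3.enc h1 h2)) (enc_norm (enc_sub (enc_rat _ 749 200) (enc_scale 749 100 (c1g.enc h1))))))))⟩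
noncomputable def n0d : Fn2 := ⟨_, _, fun h1 h2 => (enc_norm (enc_scale 499 100 (enc_subr 25 32 h2)))⟩
noncomputable def rcq2_40 : Fn3 := ⟨_, _, fun h1 h2 h3 => (enc_mul h1 (bd1q2.enc h2 h3))⟩
noncomputable def rcq2_42 : Fn3 := ⟨_, _, fun h1 h2 h3 => (enc_sub (enc_pnc _ 1) (lm0p.enc h1 h2))⟩
noncomputable def rcq2 : Fn3 := ⟨_, _, fun h1 h2 h3 => (enc_case (enc_sub h1 (cv1p.enc h2)) (enc_case (enc_subr 1149 1000 h2) (enc_add (rcq2_40.enc h1 h2 h3) (enc_mul (enc_norm (rcq2_42.enc h1 h2 h3)) (enc_norm (enc_sub (kc0q2.enc h2 h3) (enc_mul (c1g.enc h2) (bd1q2.enc h2 h3)))))) (enc_case (enc_subr 2887 2500 h2) (enc_add (rcq2_40.enc h1 h2 h3) (enc_mul (enc_norm (rcq2_42.enc h1 h2 h3)) (enc_norm (enc_mul (c1g.enc h2) (enc_norm (enc_sub (n0d.enc h2 h3) (bd1q2.enc h2 h3))))))) (rcq2_40.enc h1 h2 h3))) (enc_case (enc_sub h1 (cv2p.enc h2)) (enc_add (enc_mul h1 (bd2q2.enc h2 h3)) (enc_mul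 (enc_norm (enc_mul (enc_norm (enc_sub (enc_pnc _ 1) (lm1p.enc h1 h2))) (cv1p.enc h2))) (enc_norm (enc_sub (bd1q2.enc h2 h3) (bd2q2.enc h2 h3))))) (enc_case (enc_sub h1 (cv3p.enc h2)) (enc_add (enc_mul h1 (bd3q2.enc h2 h3)) (enc_mul (enc_norm (enc_mul (enc_norm (enc_sub (enc_pnc _ 1) (lm2p.enc h1 h2))) (cv2p.enc h2))) (enc_norm (enc_sub (bd2q2.enc h2 h3) (bd3q2.enc h2 h3))))) (enc_add (kc3q2.enc h2 h3) (enc_mul (lm3p.enc h1 h2) (enc_norm (enc_sub (kc4q2.enc h2 h3) (kc3q2.enc h2 h3))))))))⟩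
noncomputable def pd2 : Fn3 := ⟨_, _, fun h1 h2 h3 => (enc_case h1 (enc_neg (rcq2.enc (enc_neg h1) h2 h3)) (rcq2.enc h1 h2 h3))⟩
noncomputable def kc3q3_4 : Fn2 := ⟨_, _, fun h1 h2 => (enc_subr 25 32 h2)⟩
noncomputable def kc3q3 : Fn2 := ⟨_, _, fun h1 h2 => (enc_norm (enc_mul (cv3r.enc h1) (enc_norm (enc_case (enc_subr 1737 1000 h1) (enc_add (enc_subr 4371419 790000 (enc_scale 12857 2370 h1)) (enc_mul (enc_norm (kc3q3_4.enc h1 h2)) (enc_norm (enc_sub (enc_rat _ 163453 15800) (enc_scale 306 79 h1))))) (enc_case (enc_subr 73 40 h1) (enc_add (enc_subr 44269 8000 (enc_scale 217 40 h1)) (enc_mul (enc_norm (kc3q3_4.enc h1 h2)) (enc_norm (enc_sub (enc_rat _ 227219 22000) (enc_scale 85 22 h1))))) (enc_add (enc_sub (enc_rat _ 1295 167) (enc_scale 141427750000 29581613303 (c3g.enc h1))) (enc_mul (enc_norm (kc3q3_4.enc h1 h2)) (enc_norm (enc_sub (enc_rat _ 595 167) (enc_scale 11935250000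 29581613303 (c3g.enc h1)))))))))))⟩
noncomputable def kc4q3_3 : Fn2 := ⟨_, _, fun h1 h2 => (enc_subr 25 32 h2)⟩
noncomputable def kc4q3_9 : Fn2 := ⟨_, _, fun h1 h2 => (enc_sub (enc_half (c3g.enc h1)) (enc_scale 1 4 h1))⟩
noncomputable def kc4q3_29 : Fn2 := ⟨_, _, fun h1 h2 => (enc_scale 967 166 (kc4q3_9.enc h1 h2))⟩
noncomputable def kc4q3 : Fn2 := ⟨_, _, fun h1 h2 => (enc_norm (enc_case (kc4q3_9.enc h1 h2) (enc_case (enc_add (kc4q3_9.enc h1 h2) (enc_rat _ 333 1000)) (enc_add (enc_add (enc_scale 2590 167 (kc4q3_9.enc h1 h2)) (enc_rat _ 1295 167)) (enc_mul (enc_norm (kc4q3_3.enc h1 h2)) (enc_norm (enc_add (enc_scale 1190 167 (kc4q3_9.enc h1 h2)) (enc_rat _ 595 167))))) (enc_case (enc_add (kc4q3_9.enc h1 h2) (enc_rat _ 167 1000)) (enc_add (enc_sub (enc_rat _ 4165867 1660000) (enc_scale 401 1660 (kc4q3_9.enc h1 h2))) (enc_mul (enc_norm (kc4q3_3.enc h1 h2)) (enc_norm (enc_add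 (kc4q3_29.enc h1 h2) (enc_rat _ 519551 166000))))) (enc_add (enc_sub (enc_rat _ 3137 1250) (enc_scale 403 1670 (kc4q3_9.enc h1 h2))) (enc_mul (enc_norm (kc4q3_3.enc h1 h2)) (enc_norm (enc_add (enc_scale 974 167 (kc4q3_9.enc h1 h2)) (enc_rat _ 3131 1000))))))) (enc_case (enc_subr 167 1000 (kc4q3_9.enc h1 h2)) (enc_add (enc_sub (enc_rat _ 3137 1250) (enc_scale 202 835 (kc4q3_9.enc h1 h2))) (enc_mul (enc_norm (kc4q3_3.enc h1 h2)) (enc_norm (enc_add (enc_scale 973 167 (kc4q3_9.enc h1 h2)) (enc_rat _ 3131 1000))))) (enc_case (enc_subr 333 1000 (kc4q3_9.enc h1 h2)) (enc_add (enc_sub (enc_rat _ 520709 207500) (enc_scale 20 83 (kc4q3_9.enc h1 h2))) (enc_mul (enc_norm (kc4q3_3.enc h1 h2)) (enc_norm (enc_add (kc4q3_29.enc h1 h2) (enc_rat _ 20791 6640))))) (enc_add (enc_sub (enc_rat _ 6073 835) (enc_scale 12146 835 (kc4q3_9.enc h1 h2))) (enc_mul (enc_norm (kc4q3_3.enc h1 h2)) (enc_norm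 (enc_sub (enc_rat _ 5071 334) (enc_scale 5071 167 (kc4q3_9.enc h1 h2))))))))))⟩
noncomputable def bd3q3_3 : Fn2 := ⟨_, _, fun h1 h2 => (enc_subr 25 32 h2)⟩
noncomputable def bd3q3 : Fn2 := ⟨_, _, fun h1 h2 => (enc_norm (enc_case (enc_subr 1737 1000 h1) (enc_add (enc_subr 4371419 790000 (enc_scale 12857 2370 h1)) (enc_mul (enc_norm (bd3q3_3.enc h1 h2)) (enc_norm (enc_sub (enc_rat _ 163453 15800) (enc_scale 306 79 h1))))) (enc_case (enc_subr 73 40 h1) (enc_add (enc_subr 44269 8000 (enc_scale 217 40 h1)) (enc_mul (enc_norm (bd3q3_3.enc h1 h2)) (enc_norm (enc_sub (enc_rat _ 227219 22000) (enc_scale 85 22 h1))))) (enc_add (enc_sub (enc_rat _ 1295 167) (enc_scale 141427750000 29581613303 (c3g.enc h1))) (enc_mul (enc_norm (bd3q3_3.enc h1 h2)) (enc_norm (enc_sub (enc_rat _ 595 167) (enc_scale 11935250000 29581613303 (c3g.enc h1)))))))))⟩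
noncomputable def kc2q3_4 : Fn2 := ⟨_, _, fun h1 h2 => (enc_subr 25 32 h2)⟩
noncomputable def kc2q3_29 : Fn2 := ⟨_, _, fun h1 h2 => (enc_subn 1 h1)⟩
noncomputable def kc2q3_30 : Fn2 := ⟨_, _, fun h1 h2 => (gsg.enc (enc_norm (kc2q3_29.enc h1 h2)))⟩
noncomputable def kc2q3_34 : Fn2 := ⟨_, _, fun h1 h2 => (esg.enc (enc_norm (kc2q3_29.enc h1 h2)))⟩
noncomputable def kc2q3_39 : Fn2 := ⟨_, _, fun h1 h2 => (gug.enc (enc_norm (kc2q3_29.enc h1 h2)))⟩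
noncomputable def kc2q3_41 : Fn2 := ⟨_, _, fun h1 h2 => (enc_mul (enc_norm (kc2q3_29.enc h1 h2)) (enc_inv (kc2q3_30.enc h1 h2)))⟩
noncomputable def kc2q3_42 : Fn2 := ⟨_, _, fun h1 h2 => (enc_scale 3 4 (kc2q3_41.enc h1 h2))⟩
noncomputable def kc2q3_70 : Fn2 := ⟨_, _, fun h1 h2 => (enc_subr 1737 1000 h1)⟩
noncomputable def kc2q3_82 : Fn2 := ⟨_, _, fun h1 h2 => (enc_subr 73 40 h1)⟩
noncomputable def kc2q3_103 : Fn2 := ⟨_, _, fun h1 h2 => (enc_mul (cv1r.enc h1) (enc_norm (enc_case (kc2q3_70.enc h1 h2) (enc_add (enc_subr 10075751 790000 (enc_scale 852 79 h1)) (enc_mul (enc_norm (kc2q3_4.enc h1 h2)) (enc_norm (enc_sub (enc_rat _ 9374947 79000) (enc_scale 5987 79 h1))))) (enc_case (kc2q3_82.enc h1 h2) (enc_add (enc_subr 11224259 880000 (enc_scale 9491 880 h1)) (enc_mul (enc_norm (kc2q3_4.enc h1 h2)) (enc_norm (enc_sub (enc_rat _ 10442869 88000) (enc_scale 6669 88 h1))))) (enc_add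 (enc_rat _ 34641 5000) (enc_mul (enc_norm (kc2q3_4.enc h1 h2)) (enc_norm (enc_subr 31023 1000 (enc_scale 2846500000 177135409 (c3g.enc h1))))))))))⟩
noncomputable def kc2q3 : Fn2 := ⟨_, _, fun h1 h2 => (enc_norm (enc_case (kc2q3_70.enc h1 h2) (enc_mul (cv2r.enc h1) (enc_norm (enc_add (enc_subr 5062610801 790000000 (enc_scale 7204853801 1185000000 h1)) (enc_mul (enc_norm (kc2q3_4.enc h1 h2)) (enc_norm (enc_subr 481883937 79000000 (enc_scale 767863937 118500000 h1))))))) (enc_case (kc2q3_82.enc h1 h2) (enc_add (kc2q3_103.enc h1 h2) (enc_mul (enc_norm (enc_mul (enc_norm (enc_sub (enc_add (enc_sub (enc_add (enc_add (enc_rat _ 3 4) (enc_scale 3 2 (kc2q3_29.enc h1 h2))) (enc_scale 3 4 (enc_mul (enc_norm (kc2q3_41.enc h1 h2)) (kc2q3_39.enc h1 h2)))) (enc_mul (enc_norm (enc_sub (enc_mul (enc_norm (enc_mul (enc_norm (kc2q3_42.enc h1 h2)) (enc_norm (enc_subn 3 (enc_nat 4 (kc2q3_30.enc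 h1 h2)))))) (kc2q3_34.enc h1 h2)) (enc_mul (qsg.enc (enc_norm (kc2q3_29.enc h1 h2))) (enc_norm (enc_sub (enc_rat _ 1 2) (kc2q3_42.enc h1 h2)))))) (enc_inv (enc_mul (enc_nat 2 (kc2q3_34.enc h1 h2)) (kc2q3_34.enc h1 h2))))) (enc_mul (kcg.enc (enc_norm (enc_sub (enc_scale 3 4 (kc2q3_29.enc h1 h2)) (enc_half (kc2q3_30.enc h1 h2)))) h2) (enc_norm (enc_sub (enc_pnc _ 1) (enc_add (kc2q3_39.enc h1 h2) (enc_nat 2 (kc2q3_30.enc h1 h2))))))) (kc2q3_103.enc h1 h2))) (enc_norm (enc_sub (cv2r.enc h1) (cv1r.enc h1))))) (enc_inv (enc_sub (enc_subr 1 2 (swg.enc h1)) (cv1r.enc h1))))) (enc_mul (cv2r.enc h1) (enc_norm (enc_add (enc_sub (enc_rat _ 1295 167) (enc_scale 1212915927011 591632266060 (c3g.enc h1))) (enc_mul (enc_norm (kc2q3_4.enc h1 h2)) (enc_norm (enc_sub (enc_rat _ 595 167) (enc_scale 1037136588661 118326453212 (c3g.enc h1)))))))))))⟩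
noncomputable def bd2q3_3 : Fn2 := ⟨_, _, fun h1 h2 => (enc_subr 25 32 h2)⟩
noncomputable def bd2q3 : Fn2 := ⟨_, _, fun h1 h2 => (enc_norm (enc_case (enc_subr 1781 1000 h1) (enc_add (enc_subr 5062610801 790000000 (enc_scale 7204853801 1185000000 h1)) (enc_mul (enc_norm (bd2q3_3.enc h1 h2)) (enc_norm (enc_subr 481883937 79000000 (enc_scale 767863937 118500000 h1))))) (enc_add (enc_sub (enc_rat _ 1295 167) (enc_scale 1212915927011 591632266060 (c3g.enc h1))) (enc_mul (enc_norm (bd2q3_3.enc h1 h2)) (enc_norm (enc_sub (enc_rat _ 595 167) (enc_scale 1037136588661 118326453212 (c3g.enc h1))))))))⟩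
noncomputable def bd1q3_3 : Fn2 := ⟨_, _, fun h1 h2 => (enc_subr 25 32 h2)⟩
noncomputable def bd1q3 : Fn2 := ⟨_, _, fun h1 h2 => (enc_norm (enc_case (enc_subr 1737 1000 h1) (enc_add (enc_subr 10075751 790000 (enc_scale 852 79 h1)) (enc_mul (enc_norm (bd1q3_3.enc h1 h2)) (enc_norm (enc_sub (enc_rat _ 9374947 79000) (enc_scale 5987 79 h1))))) (enc_case (enc_subr 73 40 h1) (enc_add (enc_subr 11224259 880000 (enc_scale 9491 880 h1)) (enc_mul (enc_norm (bd1q3_3.enc h1 h2)) (enc_norm (enc_sub (enc_rat _ 10442869 88000) (enc_scale 6669 88 h1))))) (enc_add (enc_rat _ 34641 5000) (enc_mul (enc_norm (bd1q3_3.enc h1 h2)) (enc_norm (enc_subr 31023 1000 (enc_scale 2846500000 177135409 (c3g.enc h1)))))))))⟩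
noncomputable def rcq3_35 : Fn3 := ⟨_, _, fun h1 h2 h3 => (enc_add (enc_mul h1 (bd2q3.enc h2 h3)) (enc_mul (enc_norm (enc_mul (enc_norm (enc_sub (enc_pnc _ 1) (lm1r.enc h1 h2))) (cv1r.enc h2))) (enc_norm (enc_sub (bd1q3.enc h2 h3) (bd2q3.enc h2 h3)))))⟩
noncomputable def rcq3_36 : Fn3 := ⟨_, _, fun h1 h2 h3 => (enc_subn 1 h2)⟩
noncomputable def rcq3_37 : Fn3 := ⟨_, _, fun h1 h2 h3 => (gsg.enc (enc_norm (rcq3_36.enc h1 h2 h3)))⟩
noncomputable def rcq3_41 : Fn3 := ⟨_, _, fun h1 h2 h3 => (esg.enc (enc_norm (rcq3_36.enc h1 h2 h3)))⟩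
noncomputable def rcq3_46 : Fn3 := ⟨_, _, fun h1 h2 h3 => (gug.enc (enc_norm (rcq3_36.enc h1 h2 h3)))⟩
noncomputable def rcq3_48 : Fn3 := ⟨_, _, fun h1 h2 h3 => (enc_mul (enc_norm (rcq3_36.enc h1 h2 h3)) (enc_inv (rcq3_37.enc h1 h2 h3)))⟩
noncomputable def rcq3_49 : Fn3 := ⟨_, _, fun h1 h2 h3 => (enc_scale 3 4 (rcq3_48.enc h1 h2 h3))⟩
noncomputable def rcq3_79 : Fn3 := ⟨_, _, fun h1 h2 h3 => (enc_sub h1 (cv1r.enc h2))⟩
noncomputable def rcq3 : Fn3 := ⟨_, _, fun h1 h2 h3 => (enc_case (rcq3_79.enc h1 h2 h3) (enc_mul h1 (bd1q3.enc h2 h3)) (enc_case (enc_sub h1 (cv2r.enc h2)) (enc_case (enc_subr 1737 1000 h2) (rcq3_35.enc h1 h2 h3) (enc_case (enc_subr 73 40 h2) (enc_add (kc1q3.enc h2 h3) (enc_mul (enc_norm (enc_mul (enc_norm (rcq3_79.enc h1 h2 h3)) (enc_inv (enc_sub (enc_subr 1 2 (swg.enc h2)) (cv1r.enc h2))))) (enc_norm (enc_sub (enc_add (enc_sub (enc_add (enc_add (enc_rat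 _ 3 4) (enc_scale 3 2 (rcq3_36.enc h1 h2 h3))) (enc_scale 3 4 (enc_mul (enc_norm (rcq3_48.enc h1 h2 h3)) (rcq3_46.enc h1 h2 h3)))) (enc_mul (enc_norm (enc_sub (enc_mul (enc_norm (enc_mul (enc_norm (rcq3_49.enc h1 h2 h3)) (enc_norm (enc_subn 3 (enc_nat 4 (rcq3_37.enc h1 h2 h3)))))) (rcq3_41.enc h1 h2 h3)) (enc_mul (qsg.enc (enc_norm (rcq3_36.enc h1 h2 h3))) (enc_norm (enc_sub (enc_rat _ 1 2) (rcq3_49.enc h1 h2 h3)))))) (enc_inv (enc_mul (enc_nat 2 (rcq3_41.enc h1 h2 h3)) (rcq3_41.enc h1 h2 h3))))) (enc_mul (kcg.enc (enc_norm (enc_sub (enc_scale 3 4 (rcq3_36.enc h1 h2 h3)) (enc_half (rcq3_37.enc h1 h2 h3)))) h3) (enc_norm (enc_sub (enc_pnc _ 1) (enc_add (rcq3_46.enc h1 h2 h3) (enc_nat 2 (rcq3_37.enc h1 h2 h3))))))) (kc1q3.enc h2 h3))))) (rcq3_35.enc h1 h2 h3))) (enc_case (enc_sub h1 (cv3r.enc h2)) (enc_add (enc_mul h1 (bd3q3.enc h2 h3)) (enc_mul (enc_norm (enc_sub (enc_pnc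 _ 1) (lm2r.enc h1 h2))) (enc_norm (enc_sub (kc2q3.enc h2 h3) (enc_mul (cv2r.enc h2) (bd3q3.enc h2 h3)))))) (enc_add (kc3q3.enc h2 h3) (enc_mul (lm3r.enc h1 h2) (enc_norm (enc_sub (kc4q3.enc h2 h3) (kc3q3.enc h2 h3))))))))⟩
noncomputable def pd3 : Fn3 := ⟨_, _, fun h1 h2 h3 => (enc_case h1 (enc_neg (rcq3.enc (enc_neg h1) h2 h3)) (rcq3.enc h1 h2 h3))⟩
noncomputable def mug3 : Fn1 := ⟨_, _, fun h1 => (enc_inv (enc_add (enc_nat 2 (gsg.enc h1)) (enc_pnc _ 3)))⟩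
noncomputable def eng : Fn1 := ⟨_, _, fun h1 => (enc_norm (enc_add (enc_pnc _ 1) (enc_mul (mug3.enc h1) (gug.enc h1))))⟩
noncomputable def mog : Fn1 := ⟨_, _, fun h1 => (enc_norm (enc_scale 1 20 (enc_mul (mug3.enc h1) (esg.enc h1))))⟩
noncomputable def kf1q2 : Fn2 := ⟨_, _, fun h1 h2 => (enc_norm (enc_mul (cv1p.enc h1) (bf1q2.enc h1 h2)))⟩
noncomputable def l1q2 : Fn2 := ⟨_, _, fun h1 h2 => (enc_norm (enc_mul (cv1p.enc h1) (bx1q2.enc h1 h2)))⟩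
noncomputable def kc1q2 : Fn2 := ⟨_, _, fun h1 h2 => (enc_norm (enc_mul (cv1p.enc h1) (bd1q2.enc h1 h2)))⟩

noncomputable def ndB0q0 : Node := ⟨idf, c1g, kf0q0, l0q0⟩
noncomputable def cd0q0 : Fn2 := kc0q0
noncomputable def ndB0q1 : Node := ⟨idf, c1g, kf0q1, l0q1⟩
noncomputable def cd0q1 : Fn2 := kc0q1
noncomputable def ndB0q2 : Node := ⟨yag, idf, kfc02, lc02⟩
noncomputable def cd0q2 : Fn2 := kcc02
noncomputable def ndB1q0 : Node := ⟨idf, cv1m, kf1q0, l1q0⟩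
noncomputable def cd1q0 : Fn2 := kc1q0
noncomputable def ndB1q1 : Node := ⟨idf, cv1m, kf1q1, l1q1⟩
noncomputable def cd1q1 : Fn2 := kc1q1
noncomputable def ndB1q2a : Node := ⟨yag, xc12a, kfc12a, lc12a⟩
noncomputable def cd1q2a : Fn2 := kcc12a
noncomputable def ndB1q2b : Node := ⟨idf, xc12b, kfc12b, lc12b⟩
noncomputable def cd1q2b : Fn2 := kcc12b
noncomputable def ndB1q3 : Node := ⟨idf, cv1r, kf1q3, l1q3⟩
noncomputable def cd1q3 : Fn2 := kc1q3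
noncomputable def ndB2q0 : Node := ⟨idf, cv2m, kf2q0, l2q0⟩
noncomputable def cd2q0 : Fn2 := kc2q0
noncomputable def ndB2q1 : Node := ⟨idf, cv2m, kf2q1, l2q1⟩
noncomputable def cd2q1 : Fn2 := kc2q1
noncomputable def ndB2q2 : Node := ⟨idf, cv2p, kf2q2, l2q2⟩
noncomputable def cd2q2 : Fn2 := kc2q2
noncomputable def ndB2q3 : Node := ⟨ycg, xc23, kfc23, lc23⟩
noncomputable def cd2q3 : Fn2 := kcc23
noncomputable def ndB3q0 : Node := ⟨idf, cv3m, kf3q0, l3q0⟩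
noncomputable def cd3q0 : Fn2 := kc3q0
noncomputable def ndB3q1 : Node := ⟨idf, cv3m, kf3q1, l3q1⟩
noncomputable def cd3q1 : Fn2 := kc3q1
noncomputable def ndB3q2 : Node := ⟨idf, cv3p, kf3q2, l3q2⟩
noncomputable def cd3q2 : Fn2 := kc3q2
noncomputable def ndB3q3 : Node := ⟨ycg, xc33, kfc33, lc33⟩
noncomputable def cd3q3 : Fn2 := kcc33
noncomputable def ndB4q0 : Node := ⟨idf, c3g, kf4q0, l4q0⟩
noncomputable def cd4q0 : Fn2 := kc4q0
noncomputable def ndB4q1 : Node := ⟨idf, c3g, kf4q1, l4q1⟩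
noncomputable def cd4q1 : Fn2 := kc4q1
noncomputable def ndB4q2 : Node := ⟨idf, c3g, kf4q2, l4q2⟩
noncomputable def cd4q2 : Fn2 := kc4q2
noncomputable def ndB4q3 : Node := ⟨ycg, idf, kfc43, lc43⟩
noncomputable def cd4q3 : Fn2 := kcc43
noncomputable def pcB0 : Piece := ⟨rsbq0, rlq0⟩
noncomputable def pcB1 : Piece := ⟨rsbq1, rlq1⟩
noncomputable def pcB2 : Piece := ⟨rsbq2, rlq2⟩
noncomputable def pcB3 : Piece := ⟨rsbq3, rlq3⟩
noncomputable def ndB1q2 : Node := ⟨idf, cv1p, kf1q2, l1q2⟩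
noncomputable def cd1q2 : Fn2 := kc1q2
end Pool.Agent.Strip051.G.I7625_8000.Tab
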