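import Pool.Agent.Strip051.PB.StripC
import Pool.Agent.Strip051.G.I7625_8000.Fact

/-! # Facts about the strips of a table (generated) -/

set_option linter.all false
set_option maxRecDepth 4000

namespace Pool.Agent.Strip051.G.I7625_8000.Tab.St

open Pool.Agent.Strip051.PB Pool.Agent.StripNear Pool.Agent.Strip051.LC
open Pool.Agent.Strip051.G.I7625_8000.Tab

noncomputable def sl1 : Fn1 := ⟨_, _, fun h1 => (enc_norm (enc_add (enc_scale 1097 1000 (enc_subr 25 32 h1)) (enc_rat _ 4213 5000)))⟩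
noncomputable def sv1 : Fn1 := ⟨_, _, fun h1 => (enc_norm (enc_subr 1159921 40000000 (enc_neg (enc_scale 15226283 4000000 (enc_subr 25 32 h1)))))⟩
noncomputable def sl2 : Fn1 := ⟨_, _, fun h1 => (enc_norm (enc_subr 7116383261 400000000 (enc_scale 90951382233 200000000 (enc_subr 25 32 h1))))⟩
noncomputable def sv2 : Fn1 := ⟨_, _, fun h1 => (enc_norm (enc_subr 6568142203 1600000000 (enc_scale 76345227839 800000000 (enc_subr 25 32 h1))))⟩
noncomputable def sw2 : Fn1 := ⟨_, _, fun h1 => (enc_norm (enc_subr 4259099 200000 (enc_scale 51846847 100000 (enc_subr 25 32 h1))))⟩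
noncomputable def sl3 : Fn1 := ⟨_, _, fun h1 => (enc_norm (enc_sub (enc_rat _ 8480254481 1000000000) (enc_scale 18181484481 50000000 (enc_subr 25 32 h1))))⟩
noncomputable def sv3 : Fn1 := ⟨_, _, fun h1 => (enc_norm (enc_sub (enc_rat _ 456356365913 500000000000) (enc_scale 1522007649663 25000000000 (enc_subr 25 32 h1))))⟩
noncomputable def sw3 : Fn1 := ⟨_, _, fun h1 => (enc_norm (enc_sub (enc_rat _ 13090909 1000000) (enc_scale 27635909 50000 (enc_subr 25 32 h1))))⟩
noncomputable def sl4 : Fn1 := ⟨_, _, fun h1 => (enc_norm (enc_add (enc_scale 3926470493 50000000 (enc_subr 25 32 h1)) (enc_rat _ 4563676743 500000000)))⟩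
noncomputable def sv4 : Fn1 := ⟨_, _, fun h1 => (enc_norm (enc_add (enc_scale 1141270677519 100000000000 (enc_subr 25 32 h1)) (enc_rat _ 1018513421269 1000000000000)))⟩
noncomputable def sw4 : Fn1 := ⟨_, _, fun h1 => (enc_norm (enc_add (enc_scale 12336607 100000 (enc_subr 25 32 h1)) (enc_rat _ 14080357 1000000)))⟩
noncomputable def sl5 : Fn1 := ⟨_, _, fun h1 => (enc_norm (enc_add (enc_scale 2333 200 (enc_subr 25 32 h1)) (enc_rat _ 7479 5000)))⟩
noncomputable def sv5 : Fn1 := ⟨_, _, fun h1 => (enc_norm (enc_subr 622483 40000000 (enc_scale 9410317 4000000 (enc_subr 25 32 h1))))⟩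
noncomputable def sl6 : Fn1 := ⟨_, _, fun h1 => (enc_norm (enc_subr 2770258829 1000000000 (enc_neg (enc_scale 2144911803 50000000 (enc_subr 25 32 h1)))))⟩
noncomputable def sv6 : Fn1 := ⟨_, _, fun h1 => (enc_norm (enc_subr 36751192831 100000000000 (enc_neg (enc_scale 10744438567 5000000000 (enc_subr 25 32 h1)))))⟩
noncomputable def sw6 : Fn1 := ⟨_, _, fun h1 => (enc_norm (enc_subr 12927451 1000000 (enc_neg (enc_scale 8267157 50000 (enc_subr 25 32 h1)))))⟩
noncomputable def sl7 : Fn1 := ⟨_, _, fun h1 => (enc_norm (enc_sub (enc_rat _ 323841751 62500000) (enc_scale 1039557237 200000000 (enc_subr 25 32 h1))))⟩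
noncomputable def sv7 : Fn1 := ⟨_, _, fun h1 => (enc_norm (enc_add (enc_scale 30347 800000000 (enc_subr 25 32 h1)) (enc_rat _ 85736501 1000000000)))⟩
noncomputable def sw7 : Fn1 := ⟨_, _, fun h1 => (enc_norm (enc_add (enc_scale 971 100000 (enc_subr 25 32 h1)) (enc_rat _ 342946 15625)))⟩
noncomputable def sl8 : Fn1 := ⟨_, _, fun h1 => (enc_norm (enc_sub (enc_rat _ 24379 10000) (enc_scale 5199 1000 (enc_subr 25 32 h1))))⟩
noncomputable def sv8 : Fn1 := ⟨_, _, fun h1 => (enc_pnc _ 0)⟩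
noncomputable def sl9 : Fn1 := ⟨_, _, fun h1 => (enc_norm (enc_sub (enc_rat _ 323841751 62500000) (enc_scale 1039557237 200000000 (enc_subr 25 32 h1))))⟩
noncomputable def sv9 : Fn1 := ⟨_, _, fun h1 => (enc_norm (enc_subr 85736501 1000000000 (enc_neg (enc_scale 30347 800000000 (enc_subr 25 32 h1)))))⟩
noncomputable def sw9 : Fn1 := ⟨_, _, fun h1 => (enc_norm (enc_subr 342946 15625 (enc_neg (enc_scale 971 100000 (enc_subr 25 32 h1)))))⟩
noncomputable def sl10 : Fn1 := ⟨_, _, fun h1 => (enc_norm (enc_subr 2770258829 1000000000 (enc_neg (enc_scale 2144911803 50000000 (enc_subr 25 32 h1)))))⟩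
noncomputable def sv10 : Fn1 := ⟨_, _, fun h1 => (enc_norm (enc_add (enc_scale 10744438567 5000000000 (enc_subr 25 32 h1)) (enc_rat _ 36751192831 100000000000)))⟩
noncomputable def sw10 : Fn1 := ⟨_, _, fun h1 => (enc_norm (enc_add (enc_scale 8267157 50000 (enc_subr 25 32 h1)) (enc_rat _ 12927451 1000000)))⟩
noncomputable def sl11 : Fn1 := ⟨_, _, fun h1 => (enc_norm (enc_add (enc_scale 2333 200 (enc_subr 25 32 h1)) (enc_rat _ 7479 5000)))⟩
noncomputable def sv11 : Fn1 := ⟨_, _, fun h1 => (enc_norm (enc_sub (enc_rat _ 622483 40000000) (enc_scale 9410317 4000000 (enc_subr 25 32 h1))))⟩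
noncomputable def sl12 : Fn1 := ⟨_, _, fun h1 => (enc_norm (enc_add (enc_scale 3926470493 50000000 (enc_subr 25 32 h1)) (enc_rat _ 4563676743 500000000)))⟩
noncomputable def sv12 : Fn1 := ⟨_, _, fun h1 => (enc_norm (enc_subr 1018513421269 1000000000000 (enc_neg (enc_scale 1141270677519 100000000000 (enc_subr 25 32 h1)))))⟩
noncomputable def sw12 : Fn1 := ⟨_, _, fun h1 => (enc_norm (enc_subr 14080357 1000000 (enc_neg (enc_scale 12336607 100000 (enc_subr 25 32 h1)))))⟩
noncomputable def sl13 : Fn1 := ⟨_, _, fun h1 => (enc_norm (enc_sub (enc_rat _ 8480254481 1000000000) (enc_scale 18181484481 50000000 (enc_subr 25 32 h1))))⟩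
noncomputable def sv13 : Fn1 := ⟨_, _, fun h1 => (enc_norm (enc_subr 456356365913 500000000000 (enc_scale 1522007649663 25000000000 (enc_subr 25 32 h1))))⟩
noncomputable def sw13 : Fn1 := ⟨_, _, fun h1 => (enc_norm (enc_subr 13090909 1000000 (enc_scale 27635909 50000 (enc_subr 25 32 h1))))⟩
noncomputable def sl14 : Fn1 := ⟨_, _, fun h1 => (enc_norm (enc_subr 7116383261 400000000 (enc_scale 90951382233 200000000 (enc_subr 25 32 h1))))⟩
noncomputable def sv14 : Fn1 := ⟨_, _, fun h1 => (enc_norm (enc_sub (enc_rat _ 6568142203 1600000000) (enc_scale 76345227839 800000000 (enc_subr 25 32 h1))))⟩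
noncomputable def sw14 : Fn1 := ⟨_, _, fun h1 => (enc_norm (enc_sub (enc_rat _ 4259099 200000) (enc_scale 51846847 100000 (enc_subr 25 32 h1))))⟩
noncomputable def sl15 : Fn1 := ⟨_, _, fun h1 => (enc_norm (enc_add (enc_scale 1097 1000 (enc_subr 25 32 h1)) (enc_rat _ 4213 5000)))⟩
noncomputable def sv15 : Fn1 := ⟨_, _, fun h1 => (enc_norm (enc_add (enc_scale 15226283 4000000 (enc_subr 25 32 h1)) (enc_rat _ 1159921 40000000)))⟩
noncomputable def sl30 : Fn1 := ⟨_, _, fun h1 => (enc_norm (enc_add (enc_scale 32463 3125 (enc_subr 25 32 h1)) (enc_rat _ 13531 1000000)))⟩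
noncomputable def sv30 : Fn1 := ⟨_, _, fun h1 => (enc_norm (enc_add (enc_scale 64017 25000 (enc_subr 25 32 h1)) (enc_rat _ 148481 2000000)))⟩
noncomputable def sw30 : Fn1 := ⟨_, _, fun h1 => (enc_norm (enc_subr 2699 10000 (enc_scale 13167 1250 (enc_subr 25 32 h1))))⟩
noncomputable def sl31 : Fn1 := ⟨_, _, fun h1 => (enc_norm (enc_add (enc_scale 308941 20000 (enc_subr 25 32 h1)) (enc_rat _ 793041 1000000)))⟩
noncomputable def sv31 : Fn1 := ⟨_, _, fun h1 => (enc_norm (enc_add (enc_scale 231183 62500 (enc_subr 25 32 h1)) (enc_rat _ 2496307 10000000)))⟩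
noncomputable def sw31 : Fn1 := ⟨_, _, fun h1 => (enc_norm (enc_add (enc_scale 80773 5000 (enc_subr 25 32 h1)) (enc_rat _ 29811 50000)))⟩
noncomputable def sl32 : Fn1 := ⟨_, _, fun h1 => (enc_norm (enc_sub (enc_rat _ 108381 200000) (enc_scale 840231 50000 (enc_subr 25 32 h1))))⟩
noncomputable def sv32 : Fn1 := ⟨_, _, fun h1 => (enc_norm (enc_sub (enc_rat _ 398807 2000000) (enc_scale 687851 250000 (enc_subr 25 32 h1))))⟩
noncomputable def sw32 : Fn1 := ⟨_, _, fun h1 => (enc_norm (enc_sub (enc_rat _ 2823 10000) (enc_scale 604 25 (enc_subr 25 32 h1))))⟩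
noncomputable def sl33 : Fn1 := ⟨_, _, fun h1 => (enc_norm (enc_sub (enc_rat _ 67211 125000) (enc_scale 16439 3125 (enc_subr 25 32 h1))))⟩
noncomputable def sv33 : Fn1 := ⟨_, _, fun h1 => (enc_norm (enc_sub (enc_rat _ 39733 200000) (enc_scale 91397 125000 (enc_subr 25 32 h1))))⟩
noncomputable def sw33 : Fn1 := ⟨_, _, fun h1 => (enc_norm (enc_sub (enc_rat _ 6907 25000) (enc_scale 19171 2500 (enc_subr 25 32 h1))))⟩
noncomputable def sl34 : Fn1 := ⟨_, _, fun h1 => (enc_norm (enc_add (enc_scale 76263 10000 (enc_subr 25 32 h1)) (enc_rat _ 6691 50000)))⟩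
noncomputable def sv34 : Fn1 := ⟨_, _, fun h1 => (enc_norm (enc_add (enc_scale 600919 500000 (enc_subr 25 32 h1)) (enc_rat _ 690427 5000000)))⟩
noncomputable def sw34 : Fn1 := ⟨_, _, fun h1 => (enc_norm (enc_subr 9921 25000 (enc_scale 8631 625 (enc_subr 25 32 h1))))⟩
noncomputable def sl35 : Fn1 := ⟨_, _, fun h1 => (enc_norm (enc_subr 122873 1000000 (enc_neg (enc_scale 77919 12500 (enc_subr 25 32 h1)))))⟩
noncomputable def sv35 : Fn1 := ⟨_, _, fun h1 => (enc_norm (enc_sub (enc_rat _ 66249 625000) (enc_scale 265321 500000 (enc_subr 25 32 h1))))⟩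
noncomputable def sw35 : Fn1 := ⟨_, _, fun h1 => (enc_norm (enc_subr 45511 50000 (enc_neg (enc_scale 1391 100 (enc_subr 25 32 h1)))))⟩
noncomputable def sl36 : Fn1 := ⟨_, _, fun h1 => (enc_norm (enc_subr 3303 31250 (enc_scale 7731 25000 (enc_subr 25 32 h1))))⟩
noncomputable def sv36 : Fn1 := ⟨_, _, fun h1 => (enc_norm (enc_add (enc_scale 61819 500000 (enc_subr 25 32 h1)) (enc_rat _ 538581 5000000)))⟩
noncomputable def sw36 : Fn1 := ⟨_, _, fun h1 => (enc_norm (enc_subr 10841 12500 (enc_scale 6117 2500 (enc_subr 25 32 h1))))⟩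
noncomputable def sl37 : Fn1 := ⟨_, _, fun h1 => (enc_norm (enc_add (enc_scale 931273 200000 (enc_subr 25 32 h1)) (enc_rat _ 101759 400000)))⟩
noncomputable def sv37 : Fn1 := ⟨_, _, fun h1 => (enc_norm (enc_add (enc_scale 899341 2000000 (enc_subr 25 32 h1)) (enc_rat _ 538893 4000000)))⟩
noncomputable def sw37 : Fn1 := ⟨_, _, fun h1 => (enc_norm (enc_add (enc_scale 169373 10000 (enc_subr 25 32 h1)) (enc_rat _ 33303 100000)))⟩
noncomputable def sl38 : Fn1 := ⟨_, _, fun h1 => (enc_norm (enc_sub (enc_rat _ 39319 500000) (enc_scale 5671 25000 (enc_subr 25 32 h1))))⟩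
noncomputable def sv38 : Fn1 := ⟨_, _, fun h1 => (enc_norm (enc_add (enc_scale 205511 1000000 (enc_subr 25 32 h1)) (enc_rat _ 157419 1250000)))⟩
noncomputable def sw38 : Fn1 := ⟨_, _, fun h1 => (enc_norm (enc_subr 3411 6250 (enc_neg (enc_scale 18697 2500 (enc_subr 25 32 h1)))))⟩
noncomputable def sl39_2 : Fn1 := ⟨_, _, fun h1 => (enc_subr 25 32 h1)⟩
noncomputable def sl39 : Fn1 := ⟨_, _, fun h1 => (enc_norm (enc_add (enc_subr 175027745248231 2100858739200000 (enc_neg (enc_scale 5355571945861507 1050429369600000 (sl39_2.enc h1)))) (enc_scale 14779010371 2759640000 (enc_sq (enc_norm (sl39_2.enc h1))))))⟩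
noncomputable def sv39_2 : Fn1 := ⟨_, _, fun h1 => (enc_subr 25 32 h1)⟩
noncomputable def sv39 : Fn1 := ⟨_, _, fun h1 => (enc_norm (enc_sub (enc_add (enc_scale 4717394086654723 10504293696000000 (sv39_2.enc h1)) (enc_rat _ 2815838693303719 21008587392000000)) (enc_scale 7389522343 27596400000 (enc_sq (enc_norm (sv39_2.enc h1))))))⟩
noncomputable def sw39_2 : Fn1 := ⟨_, _, fun h1 => (enc_subr 25 32 h1)⟩
noncomputable def sw39 : Fn1 := ⟨_, _, fun h1 => (enc_norm (enc_sub (enc_add (enc_scale 168793 10000 (sw39_2.enc h1)) (enc_rat _ 26399 100000)) (enc_scale 26777 1000 (enc_sq (enc_norm (sw39_2.enc h1))))))⟩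
noncomputable def sl41_2 : Fn1 := ⟨_, _, fun h1 => (enc_subr 25 32 h1)⟩
noncomputable def sl41 : Fn1 := ⟨_, _, fun h1 => (enc_norm (enc_sub (enc_sub (enc_rat _ 1416809352197257 1236906944000000) (enc_scale 75722464252001 17670099200000 (sl41_2.enc h1))) (enc_scale 236563029257 1918280000 (enc_sq (enc_norm (sl41_2.enc h1))))))⟩
noncomputable def sv41_2 : Fn1 := ⟨_, _, fun h1 => (enc_subr 25 32 h1)⟩
noncomputable def sv41 : Fn1 := ⟨_, _, fun h1 => (enc_norm (enc_add (enc_subr 3991605511827 494762777600000 (enc_scale 121920217797987 176700992000000 (sv41_2.enc h1))) (enc_scale 354844502403 19182800000 (enc_sq (enc_norm (sv41_2.enc h1))))))⟩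
noncomputable def sw41_2 : Fn1 := ⟨_, _, fun h1 => (enc_subr 25 32 h1)⟩
noncomputable def sw41 : Fn1 := ⟨_, _, fun h1 => (enc_norm (enc_add (enc_subr 254627 100000 (enc_scale 18961 2500 (sw41_2.enc h1))) (enc_scale 102767 500 (enc_sq (enc_norm (sw41_2.enc h1))))))⟩
noncomputable def sl42 : Fn1 := ⟨_, _, fun h1 => (enc_norm (enc_sub (enc_rat _ 312349 1000000) (enc_scale 22357 40000 (enc_subr 25 32 h1))))⟩
noncomputable def sv42 : Fn1 := ⟨_, _, fun h1 => (enc_norm (enc_add (enc_scale 52407 400000 (enc_subr 25 32 h1)) (enc_rat _ 1168971 10000000)))⟩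
noncomputable def sw42 : Fn1 := ⟨_, _, fun h1 => (enc_norm (enc_subr 57889 50000 (enc_scale 13737 10000 (enc_subr 25 32 h1))))⟩
noncomputable def sl43 : Fn1 := ⟨_, _, fun h1 => (enc_norm (enc_add (enc_scale 139433 25000 (enc_subr 25 32 h1)) (enc_rat _ 16001 250000)))⟩
noncomputable def sv43 : Fn1 := ⟨_, _, fun h1 => (enc_norm (enc_sub (enc_rat _ 1603573 10000000) (enc_scale 942821 1000000 (enc_subr 25 32 h1))))⟩
noncomputable def sw43 : Fn1 := ⟨_, _, fun h1 => (enc_norm (enc_subr 803 1000 (enc_neg (enc_scale 18481 2500 (enc_subr 25 32 h1)))))⟩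
noncomputable def sl44 : Fn1 := ⟨_, _, fun h1 => (enc_norm (enc_subr 661259 1000000 (enc_scale 41143 10000 (enc_subr 25 32 h1))))⟩
noncomputable def sv44 : Fn1 := ⟨_, _, fun h1 => (enc_norm (enc_sub (enc_rat _ 3054097 10000000) (enc_scale 650221 1000000 (enc_subr 25 32 h1))))⟩
noncomputable def sw44 : Fn1 := ⟨_, _, fun h1 => (enc_norm (enc_sub (enc_rat _ 5179 50000) (enc_scale 13909 2500 (enc_subr 25 32 h1))))⟩
noncomputable def sl45 : Fn1 := ⟨_, _, fun h1 => (enc_norm (enc_subr 16729 40000 (enc_scale 988493 100000 (enc_subr 25 32 h1))))⟩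
noncomputable def sv45 : Fn1 := ⟨_, _, fun h1 => (enc_norm (enc_sub (enc_rat _ 100291 400000) (enc_scale 389723 200000 (enc_subr 25 32 h1))))⟩
noncomputable def sw45 : Fn1 := ⟨_, _, fun h1 => (enc_norm (enc_subr 8323 50000 (enc_neg (enc_scale 59877 5000 (enc_subr 25 32 h1)))))⟩
noncomputable def skf0 : Fn2 := ⟨_, _, fun h1 h2 => (enc_norm (enc_add (bf1q0.enc h1 h2) (enc_mul (enc_norm (enc_sub (enc_mul (c1g.enc h1) (bf1q0.enc h1 h2)) (kf0q0.enc h1 h2))) (enc_inv (enc_sub (cv1m.enc h1) (c1g.enc h1))))))⟩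
noncomputable def sxf0 : Fn2 := ⟨_, _, fun h1 h2 => (enc_norm (enc_mul (enc_norm (enc_sub (l1q0.enc h1 h2) (l0q0.enc h1 h2))) (enc_inv (enc_sub (cv1m.enc h1) (c1g.enc h1)))))⟩
noncomputable def skl0 : Fn2 := ⟨_, _, fun h1 h2 => (enc_norm (enc_add (bf3q0.enc h1 h2) (enc_mul (enc_norm (enc_sub (kf4q0.enc h1 h2) (enc_mul (c3g.enc h1) (bf3q0.enc h1 h2)))) (enc_inv (enc_sub (c3g.enc h1) (cv3m.enc h1))))))⟩
noncomputable def sxl0 : Fn2 := ⟨_, _, fun h1 h2 => (enc_norm (enc_mul (enc_norm (enc_sub (l4q0.enc h1 h2) (l3q0.enc h1 h2))) (enc_inv (enc_sub (c3g.enc h1) (cv3m.enc h1)))))⟩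
noncomputable def skf1 : Fn2 := ⟨_, _, fun h1 h2 => (enc_norm (enc_add (bf1q1.enc h1 h2) (enc_mul (enc_norm (enc_sub (enc_mul (c1g.enc h1) (bf1q1.enc h1 h2)) (kf0q1.enc h1 h2))) (enc_inv (enc_sub (cv1m.enc h1) (c1g.enc h1))))))⟩
noncomputable def sxf1 : Fn2 := ⟨_, _, fun h1 h2 => (enc_norm (enc_mul (enc_norm (enc_sub (l1q1.enc h1 h2) (l0q1.enc h1 h2))) (enc_inv (enc_sub (cv1m.enc h1) (c1g.enc h1)))))⟩
noncomputable def skl1 : Fn2 := ⟨_, _, fun h1 h2 => (enc_norm (enc_add (bf3q1.enc h1 h2) (enc_mul (enc_norm (enc_sub (kf4q1.enc h1 h2) (enc_mul (c3g.enc h1) (bf3q1.enc h1 h2)))) (enc_inv (enc_sub (c3g.enc h1) (cv3m.enc h1))))))⟩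
noncomputable def sxl1 : Fn2 := ⟨_, _, fun h1 h2 => (enc_norm (enc_mul (enc_norm (enc_sub (l4q1.enc h1 h2) (l3q1.enc h1 h2))) (enc_inv (enc_sub (c3g.enc h1) (cv3m.enc h1)))))⟩
noncomputable def skf2 : Fn2 := ⟨_, _, fun h1 h2 => (enc_norm (enc_add (bf1q2.enc h1 h2) (enc_mul (enc_norm (enc_add (enc_mul (c1g.enc h1) (enc_norm (enc_subn 1 (bf1q2.enc h1 h2)))) (enc_mul (enc_norm (enc_subn 1 h1)) (kcg.enc (c1g.enc h1) h2)))) (enc_inv (enc_sub (cv1p.enc h1) (c1g.enc h1))))))⟩
noncomputable def sxf2 : Fn2 := ⟨_, _, fun h1 h2 => (enc_norm (enc_mul (enc_norm (enc_sub (l1q2.enc h1 h2) (l0q2.enc h1 h2))) (enc_inv (enc_sub (cv1p.enc h1) (c1g.enc h1)))))⟩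
noncomputable def skl2 : Fn2 := ⟨_, _, fun h1 h2 => (enc_norm (enc_add (bf3q2.enc h1 h2) (enc_mul (enc_norm (enc_sub (kf4q2.enc h1 h2) (enc_mul (c3g.enc h1) (bf3q2.enc h1 h2)))) (enc_inv (enc_sub (c3g.enc h1) (cv3p.enc h1))))))⟩
noncomputable def sxl2 : Fn2 := ⟨_, _, fun h1 h2 => (enc_norm (enc_mul (enc_norm (enc_sub (l4q2.enc h1 h2) (l3q2.enc h1 h2))) (enc_inv (enc_sub (c3g.enc h1) (cv3p.enc h1)))))⟩
noncomputable def skl3 : Fn2 := ⟨_, _, fun h1 h2 => (enc_norm (enc_add (bf3q3.enc h1 h2) (enc_mul (enc_norm (enc_sub (kf4q3.enc h1 h2) (enc_mul (c3g.enc h1) (bf3q3.enc h1 h2)))) (enc_inv (enc_sub (c3g.enc h1) (cv3r.enc h1))))))⟩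
noncomputable def sxl3 : Fn2 := ⟨_, _, fun h1 h2 => (enc_norm (enc_mul (enc_norm (enc_sub (l4q3.enc h1 h2) (l3q3.enc h1 h2))) (enc_inv (enc_sub (c3g.enc h1) (cv3r.enc h1)))))⟩
noncomputable def rhk : Fn2 := ⟨_, _, fun h1 h2 => (enc_norm (enc_mul (enc_norm (enc_sub (bf1q2.enc h1 h2) (n0b.enc h1 h2))) (enc_norm (enc_mul (cv1p.enc h1) (enc_inv (enc_sub (cv1p.enc h1) (c1g.enc h1)))))))⟩
noncomputable def rhx : Fn2 := ⟨_, _, fun h1 h2 => (enc_norm (enc_mul (enc_norm (enc_sub (bx1q2.enc h1 h2) (n0x.enc h1 h2))) (enc_norm (enc_mul (cv1p.enc h1) (enc_inv (enc_sub (cv1p.enc h1) (c1g.enc h1)))))))⟩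
noncomputable def sbk : Fn1 := ⟨_, _, fun h1 => (enc_norm (enc_add (enc_scale 1 690 (enc_subr 25 32 h1)) (enc_rat _ 1 6900)))⟩
noncomputable def sbx : Fn1 := ⟨_, _, fun h1 => (enc_norm (enc_sub (enc_rat _ 61919 43250) (enc_scale 19642 4325 (enc_subr 25 32 h1))))⟩
noncomputable def k0c : Fn1 := ⟨_, _, fun h1 => (enc_norm (enc_sub (enc_rat _ 24379 10000) (enc_scale 5199 1000 (enc_subr 25 32 h1))))⟩
noncomputable def m0c : Fn1 := ⟨_, _, fun h1 => (enc_norm (enc_subr 39319 250000 (enc_scale 5671 12500 (enc_subr 25 32 h1))))⟩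
noncomputable def sl61_2 : Fn1 := ⟨_, _, fun h1 => (enc_subr 25 32 h1)⟩
noncomputable def sl61 : Fn1 := ⟨_, _, fun h1 => (enc_norm (enc_sub (enc_add (enc_scale 182167134848251 42017174784000 (sl61_2.enc h1)) (enc_rat _ 3637473848065667 10504293696000000)) (enc_scale 14779010371 2759640000 (enc_sq (enc_norm (sl61_2.enc h1))))))⟩
noncomputable def sv61_2 : Fn1 := ⟨_, _, fun h1 => (enc_subr 25 32 h1)⟩
noncomputable def sv61 : Fn1 := ⟨_, _, fun h1 => (enc_norm (enc_sub (enc_add (enc_scale 136746568906747 420171747840000 (sv61_2.enc h1)) (enc_rat _ 2764367460347843 105042936960000000)) (enc_scale 7389522343 27596400000 (enc_sq (enc_norm (sv61_2.enc h1))))))⟩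
noncomputable def sw61_2 : Fn1 := ⟨_, _, fun h1 => (enc_subr 25 32 h1)⟩
noncomputable def sw61 : Fn1 := ⟨_, _, fun h1 => (enc_norm (enc_sub (enc_add (enc_scale 5773 400 (sw61_2.enc h1)) (enc_rat _ 113127 100000)) (enc_scale 26777 1000 (enc_sq (enc_norm (sw61_2.enc h1))))))⟩
noncomputable def sl62_2 : Fn1 := ⟨_, _, fun h1 => (enc_subr 25 32 h1)⟩
noncomputable def sl62 : Fn1 := ⟨_, _, fun h1 => (enc_norm (enc_sub (enc_subr 145054033954909 10504293696000000 (enc_neg (enc_scale 97355216929 8403434956800 (sl62_2.enc h1)))) (enc_scale 14779010371 2759640000 (enc_sq (enc_norm (sl62_2.enc h1))))))⟩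
noncomputable def sv62_2 : Fn1 := ⟨_, _, fun h1 => (enc_subr 25 32 h1)⟩
noncomputable def sv62 : Fn1 := ⟨_, _, fun h1 => (enc_norm (enc_sub (enc_subr 2901295611109 4201717478400000 (enc_neg (enc_scale 1215382354489 2100858739200000 (sv62_2.enc h1)))) (enc_scale 7389522343 27596400000 (enc_sq (enc_norm (sv62_2.enc h1))))))⟩
noncomputable def sw62_2 : Fn1 := ⟨_, _, fun h1 => (enc_subr 25 32 h1)⟩
noncomputable def sw62 : Fn1 := ⟨_, _, fun h1 => (enc_norm (enc_sub (enc_subr 863 12500 (enc_neg (enc_scale 29 500 (sw62_2.enc h1)))) (enc_scale 26777 1000 (enc_sq (enc_norm (sw62_2.enc h1))))))⟩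
noncomputable def sl63 : Fn1 := ⟨_, _, fun h1 => (enc_pnc _ 0)⟩
noncomputable def sv63 : Fn1 := ⟨_, _, fun h1 => (enc_pnc _ 0)⟩
noncomputable def sl64_2 : Fn1 := ⟨_, _, fun h1 => (enc_subr 25 32 h1)⟩
noncomputable def sl64 : Fn1 := ⟨_, _, fun h1 => (enc_norm (enc_sub (enc_subr 145054033954909 10504293696000000 (enc_neg (enc_scale 97355216929 8403434956800 (sl64_2.enc h1)))) (enc_scale 14779010371 2759640000 (enc_sq (enc_norm (sl64_2.enc h1))))))⟩
noncomputable def sv64_2 : Fn1 := ⟨_, _, fun h1 => (enc_subr 25 32 h1)⟩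
noncomputable def sv64 : Fn1 := ⟨_, _, fun h1 => (enc_norm (enc_add (enc_add (enc_scale 1215382354489 2100858739200000 (sv64_2.enc h1)) (enc_rat _ 2901295611109 4201717478400000)) (enc_scale 7389522343 27596400000 (enc_sq (enc_norm (sv64_2.enc h1))))))⟩
noncomputable def sw64_2 : Fn1 := ⟨_, _, fun h1 => (enc_subr 25 32 h1)⟩
noncomputable def sw64 : Fn1 := ⟨_, _, fun h1 => (enc_norm (enc_add (enc_add (enc_scale 29 500 (sw64_2.enc h1)) (enc_rat _ 863 12500)) (enc_scale 26777 1000 (enc_sq (enc_norm (sw64_2.enc h1))))))⟩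
noncomputable def sl65_2 : Fn1 := ⟨_, _, fun h1 => (enc_subr 25 32 h1)⟩
noncomputable def sl65 : Fn1 := ⟨_, _, fun h1 => (enc_norm (enc_sub (enc_add (enc_scale 182167134848251 42017174784000 (sl65_2.enc h1)) (enc_rat _ 3637473848065667 10504293696000000)) (enc_scale 14779010371 2759640000 (enc_sq (enc_norm (sl65_2.enc h1))))))⟩
noncomputable def sv65_2 : Fn1 := ⟨_, _, fun h1 => (enc_subr 25 32 h1)⟩
noncomputable def sv65 : Fn1 := ⟨_, _, fun h1 => (enc_norm (enc_add (enc_subr 2764367460347843 105042936960000000 (enc_neg (enc_scale 136746568906747 420171747840000 (sv65_2.enc h1)))) (enc_scale 7389522343 27596400000 (enc_sq (enc_norm (sv65_2.enc h1))))))⟩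
noncomputable def sw65_2 : Fn1 := ⟨_, _, fun h1 => (enc_subr 25 32 h1)⟩
noncomputable def sw65 : Fn1 := ⟨_, _, fun h1 => (enc_norm (enc_add (enc_subr 113127 100000 (enc_neg (enc_scale 5773 400 (sw65_2.enc h1)))) (enc_scale 26777 1000 (enc_sq (enc_norm (sw65_2.enc h1))))))⟩
noncomputable def kqf : Fn2 := ⟨_, _, fun h1 h2 => (enc_norm (enc_mul (enc_norm (enc_subn 1 h1)) (enc_norm (enc_case (enc_subr 1 16 (c1g.enc h1)) (enc_sub (enc_rat _ 24379 10000) (enc_scale 5199 1000 (enc_subr 25 32 h2))) (enc_mul (kcg.enc (c1g.enc h1) h2) (enc_inv (c1g.enc h1)))))))⟩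
noncomputable def skm : Fn2 := ⟨_, _, fun h1 h2 => (enc_norm (enc_sub (enc_mul (enc_norm (enc_mul (cv1p.enc h1) (enc_inv (enc_sub (cv1p.enc h1) (c1g.enc h1))))) (enc_norm (enc_add (enc_subn 1 (bf1q2.enc h1 h2)) (kqf.enc h1 h2)))) (kqf.enc h1 h2)))⟩
noncomputable def dt1 : DT := .lin sl1 sv1
noncomputable def dt2 : DT := .quad sw2 sl2 sv2
noncomputable def dt3 : DT := .quad sw3 sl3 sv3
noncomputable def dt4 : DT := .quad sw4 sl4 sv4
noncomputable def dt5 : DT := .lin sl5 sv5
noncomputable def dt6 : DT := .quad sw6 sl6 sv6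
noncomputable def dt7 : DT := .quad sw7 sl7 sv7
noncomputable def dt8 : DT := .lin sl8 sv8
noncomputable def dt9 : DT := .quad sw9 sl9 sv9
noncomputable def dt10 : DT := .quad sw10 sl10 sv10
noncomputable def dt11 : DT := .lin sl11 sv11
noncomputable def dt12 : DT := .quad sw12 sl12 sv12
noncomputable def dt13 : DT := .quad sw13 sl13 sv13
noncomputable def dt14 : DT := .quad sw14 sl14 sv14
noncomputable def dt15 : DT := .lin sl15 sv15
noncomputable def dt16 : DT := .node ((Cn.rt 191 500).ng) dt2 dt3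
noncomputable def dt17 : DT := .node ((Cn.rt 7 16).ng) dt1 dt16
noncomputable def dt18 : DT := .node ((Cn.rt 271 1000).ng) dt4 dt5
noncomputable def dt19 : DT := .node ((Cn.rt 57 500).ng) dt6 dt7
noncomputable def dt20 : DT := .node ((Cn.rt 33 200).ng) dt18 dt19
noncomputable def dt21 : DT := .node ((Cn.rt 327 1000).ng) dt17 dt20
noncomputable def dt22 : DT := .node (Cn.rt 1 16) dt8 dt9
noncomputable def dt23 : DT := .node (Cn.rt 33 200) dt10 dt11
noncomputable def dt24 : DT := .node (Cn.rt 57 500) dt22 dt23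
noncomputable def dt25 : DT := .node (Cn.rt 327 1000) dt12 dt13
noncomputable def dt26 : DT := .node (Cn.rt 7 16) dt14 dt15
noncomputable def dt27 : DT := .node (Cn.rt 191 500) dt25 dt26
noncomputable def dt28 : DT := .node (Cn.rt 271 1000) dt24 dt27
noncomputable def dt29 : DT := .node ((Cn.rt 1 16).ng) dt21 dt28
noncomputable def dt30 : DT := .quad sw30 sl30 sv30
noncomputable def dt31 : DT := .quad sw31 sl31 sv31
noncomputable def dt32 : DT := .quad sw32 sl32 sv32
noncomputable def dt33 : DT := .quad sw33 sl33 sv33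
noncomputable def dt34 : DT := .quad sw34 sl34 sv34
noncomputable def dt35 : DT := .quad sw35 sl35 sv35
noncomputable def dt36 : DT := .quad sw36 sl36 sv36
noncomputable def dt37 : DT := .quad sw37 sl37 sv37
noncomputable def dt38 : DT := .quad sw38 sl38 sv38
noncomputable def dt39 : DT := .quad sw39 sl39 sv39
noncomputable def dt40 : DT := .clo
noncomputable def dt41 : DT := .quad sw41 sl41 sv41
noncomputable def dt42 : DT := .quad sw42 sl42 sv42
noncomputable def dt43 : DT := .quad sw43 sl43 sv43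
noncomputable def dt44 : DT := .quad sw44 sl44 sv44
noncomputable def dt45 : DT := .quad sw45 sl45 sv45
noncomputable def dt46 : DT := .node ((Cn.rt 9 20).ng) dt30 dt31
noncomputable def dt47 : DT := .node ((Cn.rt 7 20).ng) dt32 dt33
noncomputable def dt48 : DT := .node ((Cn.rt 2 5).ng) dt46 dt47
noncomputable def dt49 : DT := .node ((Cn.rt 1 4).ng) dt34 dt35
noncomputable def dt50 : DT := .node ((Cn.rt 3 20).ng) dt36 dt37
noncomputable def dt51 : DT := .node ((Cn.rt 1 5).ng) dt49 dt50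
noncomputable def dt52 : DT := .node ((Cn.rt 3 10).ng) dt48 dt51
noncomputable def dt53 : DT := .node (Cn.rt 1 10) dt38 dt39
noncomputable def dt54 : DT := .node (Cn.rt 109 403) dt40 dt41
noncomputable def dt55 : DT := .node (Cn.rt 263 1586) dt53 dt54
noncomputable def dt56 : DT := .node (Cn.rt 7 20) dt42 dt43
noncomputable def dt57 : DT := .node (Cn.rt 9 20) dt44 dt45
noncomputable def dt58 : DT := .node (Cn.rt 2 5) dt56 dt57
noncomputable def dt59 : DT := .node (Cn.rt 3 10) dt55 dt58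
noncomputable def dt60 : DT := .node ((Cn.rt 1 10).ng) dt52 dt59
noncomputable def dt61 : DT := .quad sw61 sl61 sv61
noncomputable def dt62 : DT := .quad sw62 sl62 sv62
noncomputable def dt63 : DT := .lin sl63 sv63
noncomputable def dt64 : DT := .quad sw64 sl64 sv64
noncomputable def dt65 : DT := .quad sw65 sl65 sv65
noncomputable def dt66 : DT := .node ((Cn.rt 3 20).ng) dt61 dt62
noncomputable def dt67 : DT := .node (Cn.rt 3 20) dt64 dt65
noncomputable def dt68 : DT := .node (Cn.rt 1 10) dt63 dt67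
noncomputable def dt69 : DT := .node ((Cn.rt 1 10).ng) dt66 dt68
noncomputable def dd : SDat := ⟨dt29, kcg, dt60, Kh.T⟩
noncomputable def gf0 : Sg := ⟨cv1m, skf0, sxf0⟩
noncomputable def gf1 : Sg := ⟨cv1m, skf1, sxf1⟩
noncomputable def gf2 : Sg := ⟨cv1p, skf2, sxf2⟩
noncomputable def gf3 : Sg := ⟨cv1r, skf2, sxf2⟩
noncomputable def gl0 : Sg := ⟨cv3m, skl0, sxl0⟩
noncomputable def gl1 : Sg := ⟨cv3m, skl1, sxl1⟩
noncomputable def gl2 : Sg := ⟨cv3p, skl2, sxl2⟩
noncomputable def gl3 : Sg := ⟨cv3r, skl3, sxl3⟩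
noncomputable def vv : Vt := ⟨(Cn.rt 1 16), (Cn.rt 577 500), (Cn.rt 231 200), (Cn.rt 166 125), k0c, m0c, sbk, sbx, rhk, rhx, bf1q2, bx1q2, (Cn.rt 263 1586), (Cn.rt 577 500), skm, dt69⟩
noncomputable def ff (q : ℕ) : Sg := match q with
  | 0 => gf0
  | 1 => gf1
  | 2 => gf2
  | _ => gf3
noncomputable def fl (q : ℕ) : Sg := match q with
  | 0 => gl0
  | 1 => gl1
  | 2 => gl2
  | _ => gl3
noncomputable def tt : STab 4 := ⟨dd, 0, 3, ff, fl, vv⟩
theorem kcl0 {p x : ℝ} (h1 : -1 / 2 ≤ p) (h2 : p ≤ -7 / 16) : kcg.v p x = (-1159921 / 40000000 + (x - 25 / 32) * (-15226283 / 4000000)) + (4213 / 5000 + (x - 25 / 32) * (1097 / 1000)) * p := by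
  simp only [kcg, kcg_3, kcg_9, kcg_12, kcg_13, kcg_17, kcg_23, kcg_28, kcg_38, kcg_46, kcg_47, kcg_52, kcg_61, kcg_66, kcg_70, kcg_81, kcg_90, kcg_93, kcg_94, kcg_98, kcg_103, kcg_107, kcg_115, kcg_124, kcg_128, kcg_141, kcg_146, kcg_150, kcg_158, kcg_159, kcg_176, kcg_198, kcg_199]
  rcases eq_or_lt_of_le h1 with h | h1
  · subst h
    ((try push_cast); (repeat first | rw [if_pos (by linarith)] | rw [if_neg (by linarith)] | erw [if_pos (by linarith)] | erw [if_neg (by linarith)]); (try push_cast); (try ring1))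
  rcases eq_or_lt_of_le h2 with h | h2
  · subst h
    ((try push_cast); (repeat first | rw [if_pos (by linarith)] | rw [if_neg (by linarith)] | erw [if_pos (by linarith)] | erw [if_neg (by linarith)]); (try push_cast); (try ring1))
  · ((try push_cast); (repeat first | rw [if_pos (by linarith)] | rw [if_neg (by linarith)] | erw [if_pos (by linarith)] | erw [if_neg (by linarith)]); (try push_cast); (try ring1))
theorem kcl1 {p x : ℝ} (h1 : -7 / 16 ≤ p) (h2 : p ≤ -191 / 500) : kcg.v p x = (-6568142203 / 1600000000 + (x - 25 / 32) * (76345227839 / 800000000)) + (-7116383261 / 400000000 + (x - 25 / 32) * (90951382233 / 200000000)) * p + (-4259099 / 200000 + (x - 25 / 32) * (51846847 / 100000)) * p ^ 2 := by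
  simp only [kcg, kcg_3, kcg_9, kcg_12, kcg_13, kcg_17, kcg_23, kcg_28, kcg_38, kcg_46, kcg_47, kcg_52, kcg_61, kcg_66, kcg_70, kcg_81, kcg_90, kcg_93, kcg_94, kcg_98, kcg_103, kcg_107, kcg_115, kcg_124, kcg_128, kcg_141, kcg_146, kcg_150, kcg_158, kcg_159, kcg_176, kcg_198, kcg_199]
  rcases eq_or_lt_of_le h1 with h | h1
  · subst h
    ((try push_cast); (repeat first | rw [if_pos (by linarith)] | rw [if_neg (by linarith)] | erw [if_pos (by linarith)] | erw [if_neg (by linarith)]); (try push_cast); (try ring1))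
  rcases eq_or_lt_of_le h2 with h | h2
  · subst h
    ((try push_cast); (repeat first | rw [if_pos (by linarith)] | rw [if_neg (by linarith)] | erw [if_pos (by linarith)] | erw [if_neg (by linarith)]); (try push_cast); (try ring1))
  · ((try push_cast); (repeat first | rw [if_pos (by linarith)] | rw [if_neg (by linarith)] | erw [if_pos (by linarith)] | erw [if_neg (by linarith)]); (try push_cast); (try ring1))
theorem kcl2 {p x : ℝ} (h1 : -191 / 500 ≤ p) (h2 : p ≤ -327 / 1000) : kcg.v p x = (456356365913 / 500000000000 + (x - 25 / 32) * (-1522007649663 / 25000000000)) + (8480254481 / 1000000000 + (x - 25 / 32) * (-18181484481 / 50000000)) * p + (13090909 / 1000000 + (x - 25 / 32) * (-27635909 / 50000)) * p ^ 2 := by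
  simp only [kcg, kcg_3, kcg_9, kcg_12, kcg_13, kcg_17, kcg_23, kcg_28, kcg_38, kcg_46, kcg_47, kcg_52, kcg_61, kcg_66, kcg_70, kcg_81, kcg_90, kcg_93, kcg_94, kcg_98, kcg_103, kcg_107, kcg_115, kcg_124, kcg_128, kcg_141, kcg_146, kcg_150, kcg_158, kcg_159, kcg_176, kcg_198, kcg_199]
  rcases eq_or_lt_of_le h1 with h | h1
  · subst h
    ((try push_cast); (repeat first | rw [if_pos (by linarith)] | rw [if_neg (by linarith)] | erw [if_pos (by linarith)] | erw [if_neg (by linarith)]); (try push_cast); (try ring1))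
  rcases eq_or_lt_of_le h2 with h | h2
  · subst h
    ((try push_cast); (repeat first | rw [if_pos (by linarith)] | rw [if_neg (by linarith)] | erw [if_pos (by linarith)] | erw [if_neg (by linarith)]); (try push_cast); (try ring1))
  · ((try push_cast); (repeat first | rw [if_pos (by linarith)] | rw [if_neg (by linarith)] | erw [if_pos (by linarith)] | erw [if_neg (by linarith)]); (try push_cast); (try ring1))
theorem kcl3 {p x : ℝ} (h1 : -327 / 1000 ≤ p) (h2 : p ≤ -271 / 1000) : kcg.v p x = (1018513421269 / 1000000000000 + (x - 25 / 32) * (1141270677519 / 100000000000)) + (4563676743 / 500000000 + (x - 25 / 32) * (3926470493 / 50000000)) * p + (14080357 / 1000000 + (x - 25 / 32) * (12336607 / 100000)) * p ^ 2 := by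
  simp only [kcg, kcg_3, kcg_9, kcg_12, kcg_13, kcg_17, kcg_23, kcg_28, kcg_38, kcg_46, kcg_47, kcg_52, kcg_61, kcg_66, kcg_70, kcg_81, kcg_90, kcg_93, kcg_94, kcg_98, kcg_103, kcg_107, kcg_115, kcg_124, kcg_128, kcg_141, kcg_146, kcg_150, kcg_158, kcg_159, kcg_176, kcg_198, kcg_199]
  rcases eq_or_lt_of_le h1 with h | h1
  · subst h
    ((try push_cast); (repeat first | rw [if_pos (by linarith)] | rw [if_neg (by linarith)] | erw [if_pos (by linarith)] | erw [if_neg (by linarith)]); (try push_cast); (try ring1))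
  rcases eq_or_lt_of_le h2 with h | h2
  · subst h
    ((try push_cast); (repeat first | rw [if_pos (by linarith)] | rw [if_neg (by linarith)] | erw [if_pos (by linarith)] | erw [if_neg (by linarith)]); (try push_cast); (try ring1))
  · ((try push_cast); (repeat first | rw [if_pos (by linarith)] | rw [if_neg (by linarith)] | erw [if_pos (by linarith)] | erw [if_neg (by linarith)]); (try push_cast); (try ring1))
theorem kcl4 {p x : ℝ} (h1 : -271 / 1000 ≤ p) (h2 : p ≤ -33 / 200) : kcg.v p x = (-622483 / 40000000 + (x - 25 / 32) * (9410317 / 4000000)) + (7479 / 5000 + (x - 25 / 32) * (2333 / 200)) * p := by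
  simp only [kcg, kcg_3, kcg_9, kcg_12, kcg_13, kcg_17, kcg_23, kcg_28, kcg_38, kcg_46, kcg_47, kcg_52, kcg_61, kcg_66, kcg_70, kcg_81, kcg_90, kcg_93, kcg_94, kcg_98, kcg_103, kcg_107, kcg_115, kcg_124, kcg_128, kcg_141, kcg_146, kcg_150, kcg_158, kcg_159, kcg_176, kcg_198, kcg_199]
  rcases eq_or_lt_of_le h1 with h | h1
  · subst h
    ((try push_cast); (repeat first | rw [if_pos (by linarith)] | rw [if_neg (by linarith)] | erw [if_pos (by linarith)] | erw [if_neg (by linarith)]); (try push_cast); (try ring1))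
  rcases eq_or_lt_of_le h2 with h | h2
  · subst h
    ((try push_cast); (repeat first | rw [if_pos (by linarith)] | rw [if_neg (by linarith)] | erw [if_pos (by linarith)] | erw [if_neg (by linarith)]); (try push_cast); (try ring1))
  · ((try push_cast); (repeat first | rw [if_pos (by linarith)] | rw [if_neg (by linarith)] | erw [if_pos (by linarith)] | erw [if_neg (by linarith)]); (try push_cast); (try ring1))
theorem kcl5 {p x : ℝ} (h1 : -33 / 200 ≤ p) (h2 : p ≤ -57 / 500) : kcg.v p x = (-36751192831 / 100000000000 + (x - 25 / 32) * (-10744438567 / 5000000000)) + (-2770258829 / 1000000000 + (x - 25 / 32) * (-2144911803 / 50000000)) * p + (-12927451 / 1000000 + (x - 25 / 32) * (-8267157 / 50000)) * p ^ 2 := by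
  simp only [kcg, kcg_3, kcg_9, kcg_12, kcg_13, kcg_17, kcg_23, kcg_28, kcg_38, kcg_46, kcg_47, kcg_52, kcg_61, kcg_66, kcg_70, kcg_81, kcg_90, kcg_93, kcg_94, kcg_98, kcg_103, kcg_107, kcg_115, kcg_124, kcg_128, kcg_141, kcg_146, kcg_150, kcg_158, kcg_159, kcg_176, kcg_198, kcg_199]
  rcases eq_or_lt_of_le h1 with h | h1
  · subst h
    ((try push_cast); (repeat first | rw [if_pos (by linarith)] | rw [if_neg (by linarith)] | erw [if_pos (by linarith)] | erw [if_neg (by linarith)]); (try push_cast); (try ring1))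
  rcases eq_or_lt_of_le h2 with h | h2
  · subst h
    ((try push_cast); (repeat first | rw [if_pos (by linarith)] | rw [if_neg (by linarith)] | erw [if_pos (by linarith)] | erw [if_neg (by linarith)]); (try push_cast); (try ring1))
  · ((try push_cast); (repeat first | rw [if_pos (by linarith)] | rw [if_neg (by linarith)] | erw [if_pos (by linarith)] | erw [if_neg (by linarith)]); (try push_cast); (try ring1))
theorem kcl6 {p x : ℝ} (h1 : -57 / 500 ≤ p) (h2 : p ≤ -1 / 16) : kcg.v p x = (85736501 / 1000000000 + (x - 25 / 32) * (30347 / 800000000)) + (323841751 / 62500000 + (x - 25 / 32) * (-1039557237 / 200000000)) * p + (342946 / 15625 + (x - 25 / 32) * (971 / 100000)) * p ^ 2 := by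
  simp only [kcg, kcg_3, kcg_9, kcg_12, kcg_13, kcg_17, kcg_23, kcg_28, kcg_38, kcg_46, kcg_47, kcg_52, kcg_61, kcg_66, kcg_70, kcg_81, kcg_90, kcg_93, kcg_94, kcg_98, kcg_103, kcg_107, kcg_115, kcg_124, kcg_128, kcg_141, kcg_146, kcg_150, kcg_158, kcg_159, kcg_176, kcg_198, kcg_199]
  rcases eq_or_lt_of_le h1 with h | h1
  · subst h
    ((try push_cast); (repeat first | rw [if_pos (by linarith)] | rw [if_neg (by linarith)] | erw [if_pos (by linarith)] | erw [if_neg (by linarith)]); (try push_cast); (try ring1))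
  rcases eq_or_lt_of_le h2 with h | h2
  · subst h
    ((try push_cast); (repeat first | rw [if_pos (by linarith)] | rw [if_neg (by linarith)] | erw [if_pos (by linarith)] | erw [if_neg (by linarith)]); (try push_cast); (try ring1))
  · ((try push_cast); (repeat first | rw [if_pos (by linarith)] | rw [if_neg (by linarith)] | erw [if_pos (by linarith)] | erw [if_neg (by linarith)]); (try push_cast); (try ring1))
theorem kcl7 {p x : ℝ} (h1 : -1 / 16 ≤ p) (h2 : p ≤ 1 / 16) : kcg.v p x = (0) + (24379 / 10000 + (x - 25 / 32) * (-5199 / 1000)) * p := by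
  simp only [kcg, kcg_3, kcg_9, kcg_12, kcg_13, kcg_17, kcg_23, kcg_28, kcg_38, kcg_46, kcg_47, kcg_52, kcg_61, kcg_66, kcg_70, kcg_81, kcg_90, kcg_93, kcg_94, kcg_98, kcg_103, kcg_107, kcg_115, kcg_124, kcg_128, kcg_141, kcg_146, kcg_150, kcg_158, kcg_159, kcg_176, kcg_198, kcg_199]
  rcases eq_or_lt_of_le h1 with h | h1
  · subst h
    ((try push_cast); (repeat first | rw [if_pos (by linarith)] | rw [if_neg (by linarith)] | erw [if_pos (by linarith)] | erw [if_neg (by linarith)]); (try push_cast); (try ring1))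
  rcases eq_or_lt_of_le h2 with h | h2
  · subst h
    ((try push_cast); (repeat first | rw [if_pos (by linarith)] | rw [if_neg (by linarith)] | erw [if_pos (by linarith)] | erw [if_neg (by linarith)]); (try push_cast); (try ring1))
  rcases lt_trichotomy p 0 with h | h | h
  · ((try push_cast); (repeat first | rw [if_pos (by linarith)] | rw [if_neg (by linarith)] | erw [if_pos (by linarith)] | erw [if_neg (by linarith)]); (try push_cast); (try ring1))
  · subst h
    ((try push_cast); (repeat first | rw [if_pos (by linarith)] | rw [if_neg (by linarith)] | erw [if_pos (by linarith)] | erw [if_neg (by linarith)]); (try push_cast); (try ring1))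
  · ((try push_cast); (repeat first | rw [if_pos (by linarith)] | rw [if_neg (by linarith)] | erw [if_pos (by linarith)] | erw [if_neg (by linarith)]); (try push_cast); (try ring1))
theorem kcl8 {p x : ℝ} (h1 : 1 / 16 ≤ p) (h2 : p ≤ 57 / 500) : kcg.v p x = (-85736501 / 1000000000 + (x - 25 / 32) * (-30347 / 800000000)) + (323841751 / 62500000 + (x - 25 / 32) * (-1039557237 / 200000000)) * p + (-342946 / 15625 + (x - 25 / 32) * (-971 / 100000)) * p ^ 2 := by
  simp only [kcg, kcg_3, kcg_9, kcg_12, kcg_13, kcg_17, kcg_23, kcg_28, kcg_38, kcg_46, kcg_47, kcg_52, kcg_61, kcg_66, kcg_70, kcg_81, kcg_90, kcg_93, kcg_94, kcg_98, kcg_103, kcg_107, kcg_115, kcg_124, kcg_128, kcg_141, kcg_146, kcg_150, kcg_158, kcg_159, kcg_176, kcg_198, kcg_199]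
  rcases eq_or_lt_of_le h1 with h | h1
  · subst h
    ((try push_cast); (repeat first | rw [if_pos (by linarith)] | rw [if_neg (by linarith)] | erw [if_pos (by linarith)] | erw [if_neg (by linarith)]); (try push_cast); (try ring1))
  rcases eq_or_lt_of_le h2 with h | h2
  · subst h
    ((try push_cast); (repeat first | rw [if_pos (by linarith)] | rw [if_neg (by linarith)] | erw [if_pos (by linarith)] | erw [if_neg (by linarith)]); (try push_cast); (try ring1))
  · ((try push_cast); (repeat first | rw [if_pos (by linarith)] | rw [if_neg (by linarith)] | erw [if_pos (by linarith)] | erw [if_neg (by linarith)]); (try push_cast); (try ring1))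
theorem kcl9 {p x : ℝ} (h1 : 57 / 500 ≤ p) (h2 : p ≤ 33 / 200) : kcg.v p x = (36751192831 / 100000000000 + (x - 25 / 32) * (10744438567 / 5000000000)) + (-2770258829 / 1000000000 + (x - 25 / 32) * (-2144911803 / 50000000)) * p + (12927451 / 1000000 + (x - 25 / 32) * (8267157 / 50000)) * p ^ 2 := by
  simp only [kcg, kcg_3, kcg_9, kcg_12, kcg_13, kcg_17, kcg_23, kcg_28, kcg_38, kcg_46, kcg_47, kcg_52, kcg_61, kcg_66, kcg_70, kcg_81, kcg_90, kcg_93, kcg_94, kcg_98, kcg_103, kcg_107, kcg_115, kcg_124, kcg_128, kcg_141, kcg_146, kcg_150, kcg_158, kcg_159, kcg_176, kcg_198, kcg_199]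
  rcases eq_or_lt_of_le h1 with h | h1
  · subst h
    ((try push_cast); (repeat first | rw [if_pos (by linarith)] | rw [if_neg (by linarith)] | erw [if_pos (by linarith)] | erw [if_neg (by linarith)]); (try push_cast); (try ring1))
  rcases eq_or_lt_of_le h2 with h | h2
  · subst h
    ((try push_cast); (repeat first | rw [if_pos (by linarith)] | rw [if_neg (by linarith)] | erw [if_pos (by linarith)] | erw [if_neg (by linarith)]); (try push_cast); (try ring1))
  · ((try push_cast); (repeat first | rw [if_pos (by linarith)] | rw [if_neg (by linarith)] | erw [if_pos (by linarith)] | erw [if_neg (by linarith)]); (try push_cast); (try ring1))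
theorem kcl10 {p x : ℝ} (h1 : 33 / 200 ≤ p) (h2 : p ≤ 271 / 1000) : kcg.v p x = (622483 / 40000000 + (x - 25 / 32) * (-9410317 / 4000000)) + (7479 / 5000 + (x - 25 / 32) * (2333 / 200)) * p := by
  simp only [kcg, kcg_3, kcg_9, kcg_12, kcg_13, kcg_17, kcg_23, kcg_28, kcg_38, kcg_46, kcg_47, kcg_52, kcg_61, kcg_66, kcg_70, kcg_81, kcg_90, kcg_93, kcg_94, kcg_98, kcg_103, kcg_107, kcg_115, kcg_124, kcg_128, kcg_141, kcg_146, kcg_150, kcg_158, kcg_159, kcg_176, kcg_198, kcg_199]
  rcases eq_or_lt_of_le h1 with h | h1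
  · subst h
    ((try push_cast); (repeat first | rw [if_pos (by linarith)] | rw [if_neg (by linarith)] | erw [if_pos (by linarith)] | erw [if_neg (by linarith)]); (try push_cast); (try ring1))
  rcases eq_or_lt_of_le h2 with h | h2
  · subst h
    ((try push_cast); (repeat first | rw [if_pos (by linarith)] | rw [if_neg (by linarith)] | erw [if_pos (by linarith)] | erw [if_neg (by linarith)]); (try push_cast); (try ring1))
  · ((try push_cast); (repeat first | rw [if_pos (by linarith)] | rw [if_neg (by linarith)] | erw [if_pos (by linarith)] | erw [if_neg (by linarith)]); (try push_cast); (try ring1))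
theorem kcl11 {p x : ℝ} (h1 : 271 / 1000 ≤ p) (h2 : p ≤ 327 / 1000) : kcg.v p x = (-1018513421269 / 1000000000000 + (x - 25 / 32) * (-1141270677519 / 100000000000)) + (4563676743 / 500000000 + (x - 25 / 32) * (3926470493 / 50000000)) * p + (-14080357 / 1000000 + (x - 25 / 32) * (-12336607 / 100000)) * p ^ 2 := by
  simp only [kcg, kcg_3, kcg_9, kcg_12, kcg_13, kcg_17, kcg_23, kcg_28, kcg_38, kcg_46, kcg_47, kcg_52, kcg_61, kcg_66, kcg_70, kcg_81, kcg_90, kcg_93, kcg_94, kcg_98, kcg_103, kcg_107, kcg_115, kcg_124, kcg_128, kcg_141, kcg_146, kcg_150, kcg_158, kcg_159, kcg_176, kcg_198, kcg_199]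
  rcases eq_or_lt_of_le h1 with h | h1
  · subst h
    ((try push_cast); (repeat first | rw [if_pos (by linarith)] | rw [if_neg (by linarith)] | erw [if_pos (by linarith)] | erw [if_neg (by linarith)]); (try push_cast); (try ring1))
  rcases eq_or_lt_of_le h2 with h | h2
  · subst h
    ((try push_cast); (repeat first | rw [if_pos (by linarith)] | rw [if_neg (by linarith)] | erw [if_pos (by linarith)] | erw [if_neg (by linarith)]); (try push_cast); (try ring1))
  · ((try push_cast); (repeat first | rw [if_pos (by linarith)] | rw [if_neg (by linarith)] | erw [if_pos (by linarith)] | erw [if_neg (by linarith)]); (try push_cast); (try ring1))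
theorem kcl12 {p x : ℝ} (h1 : 327 / 1000 ≤ p) (h2 : p ≤ 191 / 500) : kcg.v p x = (-456356365913 / 500000000000 + (x - 25 / 32) * (1522007649663 / 25000000000)) + (8480254481 / 1000000000 + (x - 25 / 32) * (-18181484481 / 50000000)) * p + (-13090909 / 1000000 + (x - 25 / 32) * (27635909 / 50000)) * p ^ 2 := by
  simp only [kcg, kcg_3, kcg_9, kcg_12, kcg_13, kcg_17, kcg_23, kcg_28, kcg_38, kcg_46, kcg_47, kcg_52, kcg_61, kcg_66, kcg_70, kcg_81, kcg_90, kcg_93, kcg_94, kcg_98, kcg_103, kcg_107, kcg_115, kcg_124, kcg_128, kcg_141, kcg_146, kcg_150, kcg_158, kcg_159, kcg_176, kcg_198, kcg_199]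
  rcases eq_or_lt_of_le h1 with h | h1
  · subst h
    ((try push_cast); (repeat first | rw [if_pos (by linarith)] | rw [if_neg (by linarith)] | erw [if_pos (by linarith)] | erw [if_neg (by linarith)]); (try push_cast); (try ring1))
  rcases eq_or_lt_of_le h2 with h | h2
  · subst h
    ((try push_cast); (repeat first | rw [if_pos (by linarith)] | rw [if_neg (by linarith)] | erw [if_pos (by linarith)] | erw [if_neg (by linarith)]); (try push_cast); (try ring1))
  · ((try push_cast); (repeat first | rw [if_pos (by linarith)] | rw [if_neg (by linarith)] | erw [if_pos (by linarith)] | erw [if_neg (by linarith)]); (try push_cast); (try ring1))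
theorem kcl13 {p x : ℝ} (h1 : 191 / 500 ≤ p) (h2 : p ≤ 7 / 16) : kcg.v p x = (6568142203 / 1600000000 + (x - 25 / 32) * (-76345227839 / 800000000)) + (-7116383261 / 400000000 + (x - 25 / 32) * (90951382233 / 200000000)) * p + (4259099 / 200000 + (x - 25 / 32) * (-51846847 / 100000)) * p ^ 2 := by
  simp only [kcg, kcg_3, kcg_9, kcg_12, kcg_13, kcg_17, kcg_23, kcg_28, kcg_38, kcg_46, kcg_47, kcg_52, kcg_61, kcg_66, kcg_70, kcg_81, kcg_90, kcg_93, kcg_94, kcg_98, kcg_103, kcg_107, kcg_115, kcg_124, kcg_128, kcg_141, kcg_146, kcg_150, kcg_158, kcg_159, kcg_176, kcg_198, kcg_199]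
  rcases eq_or_lt_of_le h1 with h | h1
  · subst h
    ((try push_cast); (repeat first | rw [if_pos (by linarith)] | rw [if_neg (by linarith)] | erw [if_pos (by linarith)] | erw [if_neg (by linarith)]); (try push_cast); (try ring1))
  rcases eq_or_lt_of_le h2 with h | h2
  · subst h
    ((try push_cast); (repeat first | rw [if_pos (by linarith)] | rw [if_neg (by linarith)] | erw [if_pos (by linarith)] | erw [if_neg (by linarith)]); (try push_cast); (try ring1))
  · ((try push_cast); (repeat first | rw [if_pos (by linarith)] | rw [if_neg (by linarith)] | erw [if_pos (by linarith)] | erw [if_neg (by linarith)]); (try push_cast); (try ring1))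
theorem kcl14 {p x : ℝ} (h1 : 7 / 16 ≤ p) (h2 : p ≤ 1 / 2) : kcg.v p x = (1159921 / 40000000 + (x - 25 / 32) * (15226283 / 4000000)) + (4213 / 5000 + (x - 25 / 32) * (1097 / 1000)) * p := by
  simp only [kcg, kcg_3, kcg_9, kcg_12, kcg_13, kcg_17, kcg_23, kcg_28, kcg_38, kcg_46, kcg_47, kcg_52, kcg_61, kcg_66, kcg_70, kcg_81, kcg_90, kcg_93, kcg_94, kcg_98, kcg_103, kcg_107, kcg_115, kcg_124, kcg_128, kcg_141, kcg_146, kcg_150, kcg_158, kcg_159, kcg_176, kcg_198, kcg_199]
  rcases eq_or_lt_of_le h1 with h | h1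
  · subst h
    ((try push_cast); (repeat first | rw [if_pos (by linarith)] | rw [if_neg (by linarith)] | erw [if_pos (by linarith)] | erw [if_neg (by linarith)]); (try push_cast); (try ring1))
  rcases eq_or_lt_of_le h2 with h | h2
  · subst h
    ((try push_cast); (repeat first | rw [if_pos (by linarith)] | rw [if_neg (by linarith)] | erw [if_pos (by linarith)] | erw [if_neg (by linarith)]); (try push_cast); (try ring1))
  · ((try push_cast); (repeat first | rw [if_pos (by linarith)] | rw [if_neg (by linarith)] | erw [if_pos (by linarith)] | erw [if_neg (by linarith)]); (try push_cast); (try ring1))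
theorem kvh0 {p x : ℝ} (h2 : p ≤ -7 / 16) : dt29.kv p x = (-1159921 / 40000000 + (x - 25 / 32) * (-15226283 / 4000000)) + (4213 / 5000 + (x - 25 / 32) * (1097 / 1000)) * p := by
  refine (DT.kv_le (by simp only [Cn.rt_v, Cn.ng_v]; push_cast; linarith)).trans ?_
  refine (DT.kv_le (by simp only [Cn.rt_v, Cn.ng_v]; push_cast; linarith)).trans ?_
  refine (DT.kv_le (by simp only [Cn.rt_v, Cn.ng_v]; push_cast; linarith)).trans ?_
  simp only [dt1, DT.kv, sl1, sv1]
  ((try push_cast); ring1)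
theorem kvh1 {p x : ℝ} (h1 : -7 / 16 < p) (h2 : p ≤ -191 / 500) : dt29.kv p x = (-6568142203 / 1600000000 + (x - 25 / 32) * (76345227839 / 800000000)) + (-7116383261 / 400000000 + (x - 25 / 32) * (90951382233 / 200000000)) * p + (-4259099 / 200000 + (x - 25 / 32) * (51846847 / 100000)) * p ^ 2 := by
  refine (DT.kv_le (by simp only [Cn.rt_v, Cn.ng_v]; push_cast; linarith)).trans ?_
  refine (DT.kv_le (by simp only [Cn.rt_v, Cn.ng_v]; push_cast; linarith)).trans ?_
  refine (DT.kv_gt (by simp only [Cn.rt_v, Cn.ng_v]; push_cast; linarith)).trans ?_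
  refine (DT.kv_le (by simp only [Cn.rt_v, Cn.ng_v]; push_cast; linarith)).trans ?_
  simp only [dt2, DT.kv, sw2, sl2, sv2]
  ((try push_cast); ring1)
theorem kvh2 {p x : ℝ} (h1 : -191 / 500 < p) (h2 : p ≤ -327 / 1000) : dt29.kv p x = (456356365913 / 500000000000 + (x - 25 / 32) * (-1522007649663 / 25000000000)) + (8480254481 / 1000000000 + (x - 25 / 32) * (-18181484481 / 50000000)) * p + (13090909 / 1000000 + (x - 25 / 32) * (-27635909 / 50000)) * p ^ 2 := by
  refine (DT.kv_le (by simp only [Cn.rt_v, Cn.ng_v]; push_cast; linarith)).trans ?_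
  refine (DT.kv_le (by simp only [Cn.rt_v, Cn.ng_v]; push_cast; linarith)).trans ?_
  refine (DT.kv_gt (by simp only [Cn.rt_v, Cn.ng_v]; push_cast; linarith)).trans ?_
  refine (DT.kv_gt (by simp only [Cn.rt_v, Cn.ng_v]; push_cast; linarith)).trans ?_
  simp only [dt3, DT.kv, sw3, sl3, sv3]
  ((try push_cast); ring1)
theorem kvh3 {p x : ℝ} (h1 : -327 / 1000 < p) (h2 : p ≤ -271 / 1000) : dt29.kv p x = (1018513421269 / 1000000000000 + (x - 25 / 32) * (1141270677519 / 100000000000)) + (4563676743 / 500000000 + (x - 25 / 32) * (3926470493 / 50000000)) * p + (14080357 / 1000000 + (x - 25 / 32) * (12336607 / 100000)) * p ^ 2 := by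
  refine (DT.kv_le (by simp only [Cn.rt_v, Cn.ng_v]; push_cast; linarith)).trans ?_
  refine (DT.kv_gt (by simp only [Cn.rt_v, Cn.ng_v]; push_cast; linarith)).trans ?_
  refine (DT.kv_le (by simp only [Cn.rt_v, Cn.ng_v]; push_cast; linarith)).trans ?_
  refine (DT.kv_le (by simp only [Cn.rt_v, Cn.ng_v]; push_cast; linarith)).trans ?_
  simp only [dt4, DT.kv, sw4, sl4, sv4]
  ((try push_cast); ring1)
theorem kvh4 {p x : ℝ} (h1 : -271 / 1000 < p) (h2 : p ≤ -33 / 200) : dt29.kv p x = (-622483 / 40000000 + (x - 25 / 32) * (9410317 / 4000000)) + (7479 / 5000 + (x - 25 / 32) * (2333 / 200)) * p := by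
  refine (DT.kv_le (by simp only [Cn.rt_v, Cn.ng_v]; push_cast; linarith)).trans ?_
  refine (DT.kv_gt (by simp only [Cn.rt_v, Cn.ng_v]; push_cast; linarith)).trans ?_
  refine (DT.kv_le (by simp only [Cn.rt_v, Cn.ng_v]; push_cast; linarith)).trans ?_
  refine (DT.kv_gt (by simp only [Cn.rt_v, Cn.ng_v]; push_cast; linarith)).trans ?_
  simp only [dt5, DT.kv, sl5, sv5]
  ((try push_cast); ring1)
theorem kvh5 {p x : ℝ} (h1 : -33 / 200 < p) (h2 : p ≤ -57 / 500) : dt29.kv p x = (-36751192831 / 100000000000 + (x - 25 / 32) * (-10744438567 / 5000000000)) + (-2770258829 / 1000000000 + (x - 25 / 32) * (-2144911803 / 50000000)) * p + (-12927451 / 1000000 + (x - 25 / 32) * (-8267157 / 50000)) * p ^ 2 := by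
  refine (DT.kv_le (by simp only [Cn.rt_v, Cn.ng_v]; push_cast; linarith)).trans ?_
  refine (DT.kv_gt (by simp only [Cn.rt_v, Cn.ng_v]; push_cast; linarith)).trans ?_
  refine (DT.kv_gt (by simp only [Cn.rt_v, Cn.ng_v]; push_cast; linarith)).trans ?_
  refine (DT.kv_le (by simp only [Cn.rt_v, Cn.ng_v]; push_cast; linarith)).trans ?_
  simp only [dt6, DT.kv, sw6, sl6, sv6]
  ((try push_cast); ring1)
theorem kvh6 {p x : ℝ} (h1 : -57 / 500 < p) (h2 : p ≤ -1 / 16) : dt29.kv p x = (85736501 / 1000000000 + (x - 25 / 32) * (30347 / 800000000)) + (323841751 / 62500000 + (x - 25 / 32) * (-1039557237 / 200000000)) * p + (342946 / 15625 + (x - 25 / 32) * (971 / 100000)) * p ^ 2 := by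
  refine (DT.kv_le (by simp only [Cn.rt_v, Cn.ng_v]; push_cast; linarith)).trans ?_
  refine (DT.kv_gt (by simp only [Cn.rt_v, Cn.ng_v]; push_cast; linarith)).trans ?_
  refine (DT.kv_gt (by simp only [Cn.rt_v, Cn.ng_v]; push_cast; linarith)).trans ?_
  refine (DT.kv_gt (by simp only [Cn.rt_v, Cn.ng_v]; push_cast; linarith)).trans ?_
  simp only [dt7, DT.kv, sw7, sl7, sv7]
  ((try push_cast); ring1)
theorem kvh7 {p x : ℝ} (h1 : -1 / 16 < p) (h2 : p ≤ 1 / 16) : dt29.kv p x = (0) + (24379 / 10000 + (x - 25 / 32) * (-5199 / 1000)) * p := by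
  refine (DT.kv_gt (by simp only [Cn.rt_v, Cn.ng_v]; push_cast; linarith)).trans ?_
  refine (DT.kv_le (by simp only [Cn.rt_v, Cn.ng_v]; push_cast; linarith)).trans ?_
  refine (DT.kv_le (by simp only [Cn.rt_v, Cn.ng_v]; push_cast; linarith)).trans ?_
  refine (DT.kv_le (by simp only [Cn.rt_v, Cn.ng_v]; push_cast; linarith)).trans ?_
  simp only [dt8, DT.kv, sl8, sv8]
  ((try push_cast); ring1)
theorem kvh8 {p x : ℝ} (h1 : 1 / 16 < p) (h2 : p ≤ 57 / 500) : dt29.kv p x = (-85736501 / 1000000000 + (x - 25 / 32) * (-30347 / 800000000)) + (323841751 / 62500000 + (x - 25 / 32) * (-1039557237 / 200000000)) * p + (-342946 / 15625 + (x - 25 / 32) * (-971 / 100000)) * p ^ 2 := by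
  refine (DT.kv_gt (by simp only [Cn.rt_v, Cn.ng_v]; push_cast; linarith)).trans ?_
  refine (DT.kv_le (by simp only [Cn.rt_v, Cn.ng_v]; push_cast; linarith)).trans ?_
  refine (DT.kv_le (by simp only [Cn.rt_v, Cn.ng_v]; push_cast; linarith)).trans ?_
  refine (DT.kv_gt (by simp only [Cn.rt_v, Cn.ng_v]; push_cast; linarith)).trans ?_
  simp only [dt9, DT.kv, sw9, sl9, sv9]
  ((try push_cast); ring1)
theorem kvh9 {p x : ℝ} (h1 : 57 / 500 < p) (h2 : p ≤ 33 / 200) : dt29.kv p x = (36751192831 / 100000000000 + (x - 25 / 32) * (10744438567 / 5000000000)) + (-2770258829 / 1000000000 + (x - 25 / 32) * (-2144911803 / 50000000)) * p + (12927451 / 1000000 + (x - 25 / 32) * (8267157 / 50000)) * p ^ 2 := by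
  refine (DT.kv_gt (by simp only [Cn.rt_v, Cn.ng_v]; push_cast; linarith)).trans ?_
  refine (DT.kv_le (by simp only [Cn.rt_v, Cn.ng_v]; push_cast; linarith)).trans ?_
  refine (DT.kv_gt (by simp only [Cn.rt_v, Cn.ng_v]; push_cast; linarith)).trans ?_
  refine (DT.kv_le (by simp only [Cn.rt_v, Cn.ng_v]; push_cast; linarith)).trans ?_
  simp only [dt10, DT.kv, sw10, sl10, sv10]
  ((try push_cast); ring1)
theorem kvh10 {p x : ℝ} (h1 : 33 / 200 < p) (h2 : p ≤ 271 / 1000) : dt29.kv p x = (622483 / 40000000 + (x - 25 / 32) * (-9410317 / 4000000)) + (7479 / 5000 + (x - 25 / 32) * (2333 / 200)) * p := by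
  refine (DT.kv_gt (by simp only [Cn.rt_v, Cn.ng_v]; push_cast; linarith)).trans ?_
  refine (DT.kv_le (by simp only [Cn.rt_v, Cn.ng_v]; push_cast; linarith)).trans ?_
  refine (DT.kv_gt (by simp only [Cn.rt_v, Cn.ng_v]; push_cast; linarith)).trans ?_
  refine (DT.kv_gt (by simp only [Cn.rt_v, Cn.ng_v]; push_cast; linarith)).trans ?_
  simp only [dt11, DT.kv, sl11, sv11]
  ((try push_cast); ring1)
theorem kvh11 {p x : ℝ} (h1 : 271 / 1000 < p) (h2 : p ≤ 327 / 1000) : dt29.kv p x = (-1018513421269 / 1000000000000 + (x - 25 / 32) * (-1141270677519 / 100000000000)) + (4563676743 / 500000000 + (x - 25 / 32) * (3926470493 / 50000000)) * p + (-14080357 / 1000000 + (x - 25 / 32) * (-12336607 / 100000)) * p ^ 2 := by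
  refine (DT.kv_gt (by simp only [Cn.rt_v, Cn.ng_v]; push_cast; linarith)).trans ?_
  refine (DT.kv_gt (by simp only [Cn.rt_v, Cn.ng_v]; push_cast; linarith)).trans ?_
  refine (DT.kv_le (by simp only [Cn.rt_v, Cn.ng_v]; push_cast; linarith)).trans ?_
  refine (DT.kv_le (by simp only [Cn.rt_v, Cn.ng_v]; push_cast; linarith)).trans ?_
  simp only [dt12, DT.kv, sw12, sl12, sv12]
  ((try push_cast); ring1)
theorem kvh12 {p x : ℝ} (h1 : 327 / 1000 < p) (h2 : p ≤ 191 / 500) : dt29.kv p x = (-456356365913 / 500000000000 + (x - 25 / 32) * (1522007649663 / 25000000000)) + (8480254481 / 1000000000 + (x - 25 / 32) * (-18181484481 / 50000000)) * p + (-13090909 / 1000000 + (x - 25 / 32) * (27635909 / 50000)) * p ^ 2 := by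
  refine (DT.kv_gt (by simp only [Cn.rt_v, Cn.ng_v]; push_cast; linarith)).trans ?_
  refine (DT.kv_gt (by simp only [Cn.rt_v, Cn.ng_v]; push_cast; linarith)).trans ?_
  refine (DT.kv_le (by simp only [Cn.rt_v, Cn.ng_v]; push_cast; linarith)).trans ?_
  refine (DT.kv_gt (by simp only [Cn.rt_v, Cn.ng_v]; push_cast; linarith)).trans ?_
  simp only [dt13, DT.kv, sw13, sl13, sv13]
  ((try push_cast); ring1)
theorem kvh13 {p x : ℝ} (h1 : 191 / 500 < p) (h2 : p ≤ 7 / 16) : dt29.kv p x = (6568142203 / 1600000000 + (x - 25 / 32) * (-76345227839 / 800000000)) + (-7116383261 / 400000000 + (x - 25 / 32) * (90951382233 / 200000000)) * p + (4259099 / 200000 + (x - 25 / 32) * (-51846847 / 100000)) * p ^ 2 := by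
  refine (DT.kv_gt (by simp only [Cn.rt_v, Cn.ng_v]; push_cast; linarith)).trans ?_
  refine (DT.kv_gt (by simp only [Cn.rt_v, Cn.ng_v]; push_cast; linarith)).trans ?_
  refine (DT.kv_gt (by simp only [Cn.rt_v, Cn.ng_v]; push_cast; linarith)).trans ?_
  refine (DT.kv_le (by simp only [Cn.rt_v, Cn.ng_v]; push_cast; linarith)).trans ?_
  simp only [dt14, DT.kv, sw14, sl14, sv14]
  ((try push_cast); ring1)
theorem kvh14 {p x : ℝ} (h1 : 7 / 16 < p) (h2 : p ≤ 1 / 2) : dt29.kv p x = (1159921 / 40000000 + (x - 25 / 32) * (15226283 / 4000000)) + (4213 / 5000 + (x - 25 / 32) * (1097 / 1000)) * p := by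
  refine (DT.kv_gt (by simp only [Cn.rt_v, Cn.ng_v]; push_cast; linarith)).trans ?_
  refine (DT.kv_gt (by simp only [Cn.rt_v, Cn.ng_v]; push_cast; linarith)).trans ?_
  refine (DT.kv_gt (by simp only [Cn.rt_v, Cn.ng_v]; push_cast; linarith)).trans ?_
  refine (DT.kv_gt (by simp only [Cn.rt_v, Cn.ng_v]; push_cast; linarith)).trans ?_
  simp only [dt15, DT.kv, sl15, sv15]
  ((try push_cast); ring1)
theorem kvl0 {p x : ℝ} (h1 : -1 / 2 ≤ p) (h2 : p ≤ -7 / 16) : dt29.kv p x = (-1159921 / 40000000 + (x - 25 / 32) * (-15226283 / 4000000)) + (4213 / 5000 + (x - 25 / 32) * (1097 / 1000)) * p := by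
  exact kvh0 h2
theorem kvl1 {p x : ℝ} (h1 : -7 / 16 ≤ p) (h2 : p ≤ -191 / 500) : dt29.kv p x = (-6568142203 / 1600000000 + (x - 25 / 32) * (76345227839 / 800000000)) + (-7116383261 / 400000000 + (x - 25 / 32) * (90951382233 / 200000000)) * p + (-4259099 / 200000 + (x - 25 / 32) * (51846847 / 100000)) * p ^ 2 := by
  rcases eq_or_lt_of_le h1 with h | h1
  · subst h
    rw [kvh0 (by norm_num)]
    ring1
  · exact kvh1 h1 h2
theorem kvl2 {p x : ℝ} (h1 : -191 / 500 ≤ p) (h2 : p ≤ -327 / 1000) : dt29.kv p x = (456356365913 / 500000000000 + (x - 25 / 32) * (-1522007649663 / 25000000000)) + (8480254481 / 1000000000 + (x - 25 / 32) * (-18181484481 / 50000000)) * p + (13090909 / 1000000 + (x - 25 / 32) * (-27635909 / 50000)) * p ^ 2 := by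
  rcases eq_or_lt_of_le h1 with h | h1
  · subst h
    rw [kvh1 (by norm_num) (by norm_num)]
    ring1
  · exact kvh2 h1 h2
theorem kvl3 {p x : ℝ} (h1 : -327 / 1000 ≤ p) (h2 : p ≤ -271 / 1000) : dt29.kv p x = (1018513421269 / 1000000000000 + (x - 25 / 32) * (1141270677519 / 100000000000)) + (4563676743 / 500000000 + (x - 25 / 32) * (3926470493 / 50000000)) * p + (14080357 / 1000000 + (x - 25 / 32) * (12336607 / 100000)) * p ^ 2 := by
  rcases eq_or_lt_of_le h1 with h | h1
  · subst h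
    rw [kvh2 (by norm_num) (by norm_num)]
    ring1
  · exact kvh3 h1 h2
theorem kvl4 {p x : ℝ} (h1 : -271 / 1000 ≤ p) (h2 : p ≤ -33 / 200) : dt29.kv p x = (-622483 / 40000000 + (x - 25 / 32) * (9410317 / 4000000)) + (7479 / 5000 + (x - 25 / 32) * (2333 / 200)) * p := by
  rcases eq_or_lt_of_le h1 with h | h1
  · subst h
    rw [kvh3 (by norm_num) (by norm_num)]
    ring1
  · exact kvh4 h1 h2
theorem kvl5 {p x : ℝ} (h1 : -33 / 200 ≤ p) (h2 : p ≤ -57 / 500) : dt29.kv p x = (-36751192831 / 100000000000 + (x - 25 / 32) * (-10744438567 / 5000000000)) + (-2770258829 / 1000000000 + (x - 25 / 32) * (-2144911803 / 50000000)) * p + (-12927451 / 1000000 + (x - 25 / 32) * (-8267157 / 50000)) * p ^ 2 := by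
  rcases eq_or_lt_of_le h1 with h | h1
  · subst h
    rw [kvh4 (by norm_num) (by norm_num)]
    ring1
  · exact kvh5 h1 h2
theorem kvl6 {p x : ℝ} (h1 : -57 / 500 ≤ p) (h2 : p ≤ -1 / 16) : dt29.kv p x = (85736501 / 1000000000 + (x - 25 / 32) * (30347 / 800000000)) + (323841751 / 62500000 + (x - 25 / 32) * (-1039557237 / 200000000)) * p + (342946 / 15625 + (x - 25 / 32) * (971 / 100000)) * p ^ 2 := by
  rcases eq_or_lt_of_le h1 with h | h1
  · subst h
    rw [kvh5 (by norm_num) (by norm_num)]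
    ring1
  · exact kvh6 h1 h2
theorem kvl7 {p x : ℝ} (h1 : -1 / 16 ≤ p) (h2 : p ≤ 1 / 16) : dt29.kv p x = (0) + (24379 / 10000 + (x - 25 / 32) * (-5199 / 1000)) * p := by
  rcases eq_or_lt_of_le h1 with h | h1
  · subst h
    rw [kvh6 (by norm_num) (by norm_num)]
    ring1
  · exact kvh7 h1 h2
theorem kvl8 {p x : ℝ} (h1 : 1 / 16 ≤ p) (h2 : p ≤ 57 / 500) : dt29.kv p x = (-85736501 / 1000000000 + (x - 25 / 32) * (-30347 / 800000000)) + (323841751 / 62500000 + (x - 25 / 32) * (-1039557237 / 200000000)) * p + (-342946 / 15625 + (x - 25 / 32) * (-971 / 100000)) * p ^ 2 := by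
  rcases eq_or_lt_of_le h1 with h | h1
  · subst h
    rw [kvh7 (by norm_num) (by norm_num)]
    ring1
  · exact kvh8 h1 h2
theorem kvl9 {p x : ℝ} (h1 : 57 / 500 ≤ p) (h2 : p ≤ 33 / 200) : dt29.kv p x = (36751192831 / 100000000000 + (x - 25 / 32) * (10744438567 / 5000000000)) + (-2770258829 / 1000000000 + (x - 25 / 32) * (-2144911803 / 50000000)) * p + (12927451 / 1000000 + (x - 25 / 32) * (8267157 / 50000)) * p ^ 2 := by
  rcases eq_or_lt_of_le h1 with h | h1
  · subst h
    rw [kvh8 (by norm_num) (by norm_num)]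
    ring1
  · exact kvh9 h1 h2
theorem kvl10 {p x : ℝ} (h1 : 33 / 200 ≤ p) (h2 : p ≤ 271 / 1000) : dt29.kv p x = (622483 / 40000000 + (x - 25 / 32) * (-9410317 / 4000000)) + (7479 / 5000 + (x - 25 / 32) * (2333 / 200)) * p := by
  rcases eq_or_lt_of_le h1 with h | h1
  · subst h
    rw [kvh9 (by norm_num) (by norm_num)]
    ring1
  · exact kvh10 h1 h2
theorem kvl11 {p x : ℝ} (h1 : 271 / 1000 ≤ p) (h2 : p ≤ 327 / 1000) : dt29.kv p x = (-1018513421269 / 1000000000000 + (x - 25 / 32) * (-1141270677519 / 100000000000)) + (4563676743 / 500000000 + (x - 25 / 32) * (3926470493 / 50000000)) * p + (-14080357 / 1000000 + (x - 25 / 32) * (-12336607 / 100000)) * p ^ 2 := by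
  rcases eq_or_lt_of_le h1 with h | h1
  · subst h
    rw [kvh10 (by norm_num) (by norm_num)]
    ring1
  · exact kvh11 h1 h2
theorem kvl12 {p x : ℝ} (h1 : 327 / 1000 ≤ p) (h2 : p ≤ 191 / 500) : dt29.kv p x = (-456356365913 / 500000000000 + (x - 25 / 32) * (1522007649663 / 25000000000)) + (8480254481 / 1000000000 + (x - 25 / 32) * (-18181484481 / 50000000)) * p + (-13090909 / 1000000 + (x - 25 / 32) * (27635909 / 50000)) * p ^ 2 := by
  rcases eq_or_lt_of_le h1 with h | h1
  · subst h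
    rw [kvh11 (by norm_num) (by norm_num)]
    ring1
  · exact kvh12 h1 h2
theorem kvl13 {p x : ℝ} (h1 : 191 / 500 ≤ p) (h2 : p ≤ 7 / 16) : dt29.kv p x = (6568142203 / 1600000000 + (x - 25 / 32) * (-76345227839 / 800000000)) + (-7116383261 / 400000000 + (x - 25 / 32) * (90951382233 / 200000000)) * p + (4259099 / 200000 + (x - 25 / 32) * (-51846847 / 100000)) * p ^ 2 := by
  rcases eq_or_lt_of_le h1 with h | h1
  · subst h
    rw [kvh12 (by norm_num) (by norm_num)]
    ring1
  · exact kvh13 h1 h2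
theorem kvl14 {p x : ℝ} (h1 : 7 / 16 ≤ p) (h2 : p ≤ 1 / 2) : dt29.kv p x = (1159921 / 40000000 + (x - 25 / 32) * (15226283 / 4000000)) + (4213 / 5000 + (x - 25 / 32) * (1097 / 1000)) * p := by
  rcases eq_or_lt_of_le h1 with h | h1
  · subst h
    rw [kvh13 (by norm_num) (by norm_num)]
    ring1
  · exact kvh14 h1 h2
theorem kfe {x p : ℝ} (h : |p| ≤ 1 / 2) : kcg.v p x = dt29.kv p x := by
  obtain ⟨h1, h2⟩ := abs_le.1 h
  rcases le_total p (-7 / 16) with g0 | g1000
  · rw [kcl0 (by linarith) g0, kvl0 (by linarith) g0]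
  rcases le_total p (-191 / 500) with g1 | g1001
  · rw [kcl1 g1000 g1, kvl1 g1000 g1]
  rcases le_total p (-327 / 1000) with g2 | g1002
  · rw [kcl2 g1001 g2, kvl2 g1001 g2]
  rcases le_total p (-271 / 1000) with g3 | g1003
  · rw [kcl3 g1002 g3, kvl3 g1002 g3]
  rcases le_total p (-33 / 200) with g4 | g1004
  · rw [kcl4 g1003 g4, kvl4 g1003 g4]
  rcases le_total p (-57 / 500) with g5 | g1005
  · rw [kcl5 g1004 g5, kvl5 g1004 g5]
  rcases le_total p (-1 / 16) with g6 | g1006
  · rw [kcl6 g1005 g6, kvl6 g1005 g6]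
  rcases le_total p (1 / 16) with g7 | g1007
  · rw [kcl7 g1006 g7, kvl7 g1006 g7]
  rcases le_total p (57 / 500) with g8 | g1008
  · rw [kcl8 g1007 g8, kvl8 g1007 g8]
  rcases le_total p (33 / 200) with g9 | g1009
  · rw [kcl9 g1008 g9, kvl9 g1008 g9]
  rcases le_total p (271 / 1000) with g10 | g1010
  · rw [kcl10 g1009 g10, kvl10 g1009 g10]
  rcases le_total p (327 / 1000) with g11 | g1011
  · rw [kcl11 g1010 g11, kvl11 g1010 g11]
  rcases le_total p (191 / 500) with g12 | g1012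
  · rw [kcl12 g1011 g12, kvl12 g1011 g12]
  rcases le_total p (7 / 16) with g13 | g1013
  · rw [kcl13 g1012 g13, kvl13 g1012 g13]
  · rw [kcl14 g1013 (by linarith), kvl14 g1013 (by linarith)]
theorem odd {x p : ℝ} (h : |p| ≤ 1 / 2) : kcg.v (-p) x = -kcg.v p x := by
  obtain ⟨h1, h2⟩ := abs_le.1 h
  rcases le_total p (-7 / 16) with g0 | g1000
  · rw [kcl0 (by linarith) g0, kcl14 (p := -p) (by linarith) (by linarith)]; ring
  rcases le_total p (-191 / 500) with g1 | g1001
  · rw [kcl1 g1000 g1, kcl13 (p := -p) (by linarith) (by linarith)]; ring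
  rcases le_total p (-327 / 1000) with g2 | g1002
  · rw [kcl2 g1001 g2, kcl12 (p := -p) (by linarith) (by linarith)]; ring
  rcases le_total p (-271 / 1000) with g3 | g1003
  · rw [kcl3 g1002 g3, kcl11 (p := -p) (by linarith) (by linarith)]; ring
  rcases le_total p (-33 / 200) with g4 | g1004
  · rw [kcl4 g1003 g4, kcl10 (p := -p) (by linarith) (by linarith)]; ring
  rcases le_total p (-57 / 500) with g5 | g1005
  · rw [kcl5 g1004 g5, kcl9 (p := -p) (by linarith) (by linarith)]; ring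
  rcases le_total p (-1 / 16) with g6 | g1006
  · rw [kcl6 g1005 g6, kcl8 (p := -p) (by linarith) (by linarith)]; ring
  rcases le_total p (1 / 16) with g7 | g1007
  · rw [kcl7 g1006 g7, kcl7 (p := -p) (by linarith) (by linarith)]; ring
  rcases le_total p (57 / 500) with g8 | g1008
  · rw [kcl8 g1007 g8, kcl6 (p := -p) (by linarith) (by linarith)]; ring
  rcases le_total p (33 / 200) with g9 | g1009
  · rw [kcl9 g1008 g9, kcl5 (p := -p) (by linarith) (by linarith)]; ring
  rcases le_total p (271 / 1000) with g10 | g1010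
  · rw [kcl10 g1009 g10, kcl4 (p := -p) (by linarith) (by linarith)]; ring
  rcases le_total p (327 / 1000) with g11 | g1011
  · rw [kcl11 g1010 g11, kcl3 (p := -p) (by linarith) (by linarith)]; ring
  rcases le_total p (191 / 500) with g12 | g1012
  · rw [kcl12 g1011 g12, kcl2 (p := -p) (by linarith) (by linarith)]; ring
  rcases le_total p (7 / 16) with g13 | g1013
  · rw [kcl13 g1012 g13, kcl1 (p := -p) (by linarith) (by linarith)]; ring
  · rw [kcl14 g1013 (by linarith), kcl0 (p := -p) (by linarith) (by linarith)]; ring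
theorem ctA : cT (263 / 1586) = 1223 / 1586 := by
  unfold cT
  rw [show (3 / 4 * (1 - (263 / 1586 : ℝ) ^ 2)) = (2709 / 3172) ^ 2 by norm_num, Real.sqrt_sq (by norm_num)]
  norm_num
theorem ctB : cT (109 / 403) = 563 / 806 := by
  unfold cT
  rw [show (3 / 4 * (1 - (109 / 403 : ℝ) ^ 2)) = (336 / 403) ^ 2 by norm_num, Real.sqrt_sq (by norm_num)]
  norm_num
theorem kgA {x : ℝ} : kcg.v (263 / 1586) x = (8361537019 / 31720000000 + (x - 25 / 32) * (-1326591381 / 3172000000)) := by
  rw [kcl10 (by norm_num) (by norm_num)]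
  ring
theorem kgB {x : ℝ} : kcg.v (109 / 403) x = (6772548649 / 16120000000 + (x - 25 / 32) * (1293582249 / 1612000000)) := by
  rw [kcl10 (by norm_num) (by norm_num)]
  ring
theorem ka_dt1 (x : ℝ) : dt1.kv (-1 / 2) x = (-18011921 / 40000000 + (x - 25 / 32) * (-17420283 / 4000000)) := by
  simp only [dt1, DT.kv, sl1, sv1]
  ((try push_cast); ring1)
theorem kb_dt1 (x : ℝ) : dt1.kv (-7 / 16) x = (-15905421 / 40000000 + (x - 25 / 32) * (-17146033 / 4000000)) := by
  simp only [dt1, DT.kv, sl1, sv1]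
  ((try push_cast); ring1)
theorem ka_dt2 (x : ℝ) : dt2.kv (-7 / 16) x = (-15905421 / 40000000 + (x - 25 / 32) * (-17146033 / 4000000)) := by
  simp only [dt2, DT.kv, sw2, sl2, sv2]
  ((try push_cast); ring1)
theorem kb_dt2 (x : ℝ) : dt2.kv (-191 / 500) x = (-16658667 / 40000000 + (x - 25 / 32) * (-10514449 / 4000000)) := by
  simp only [dt2, DT.kv, sw2, sl2, sv2]
  ((try push_cast); ring1)
theorem ka_dt3 (x : ℝ) : dt3.kv (-191 / 500) x = (-16658667 / 40000000 + (x - 25 / 32) * (-10514449 / 4000000)) := by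
  simp only [dt3, DT.kv, sw3, sl3, sv3]
  ((try push_cast); ring1)
theorem kb_dt3 (x : ℝ) : dt3.kv (-327 / 1000) x = (-18421307 / 40000000 + (x - 25 / 32) * (-4299999 / 4000000)) := by
  simp only [dt3, DT.kv, sw3, sl3, sv3]
  ((try push_cast); ring1)
theorem ka_dt16 (x : ℝ) : dt16.kv (-7 / 16) x = (-15905421 / 40000000 + (x - 25 / 32) * (-17146033 / 4000000)) :=
  (DT.kv_le (by simp only [Cn.rt_v, Cn.ng_v]; norm_num)).trans (ka_dt2 x)
theorem kb_dt16 (x : ℝ) : dt16.kv (-327 / 1000) x = (-18421307 / 40000000 + (x - 25 / 32) * (-4299999 / 4000000)) :=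
  (DT.kv_gt (by simp only [Cn.rt_v, Cn.ng_v]; norm_num)).trans (kb_dt3 x)
theorem ka_dt17 (x : ℝ) : dt17.kv (-1 / 2) x = (-18011921 / 40000000 + (x - 25 / 32) * (-17420283 / 4000000)) :=
  (DT.kv_le (by simp only [Cn.rt_v, Cn.ng_v]; norm_num)).trans (ka_dt1 x)
theorem kb_dt17 (x : ℝ) : dt17.kv (-327 / 1000) x = (-18421307 / 40000000 + (x - 25 / 32) * (-4299999 / 4000000)) :=
  (DT.kv_gt (by simp only [Cn.rt_v, Cn.ng_v]; norm_num)).trans (kb_dt16 x)
theorem ka_dt4 (x : ℝ) : dt4.kv (-327 / 1000) x = (-18421307 / 40000000 + (x - 25 / 32) * (-4299999 / 4000000)) := by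
  simp only [dt4, DT.kv, sw4, sl4, sv4]
  ((try push_cast); ring1)
theorem kb_dt4 (x : ℝ) : dt4.kv (-271 / 1000) x = (-3367391 / 8000000 + (x - 25 / 32) * (-3234543 / 4000000)) := by
  simp only [dt4, DT.kv, sw4, sl4, sv4]
  ((try push_cast); ring1)
theorem ka_dt5 (x : ℝ) : dt5.kv (-271 / 1000) x = (-3367391 / 8000000 + (x - 25 / 32) * (-3234543 / 4000000)) := by
  simp only [dt5, DT.kv, sl5, sv5]
  ((try push_cast); ring1)
theorem kb_dt5 (x : ℝ) : dt5.kv (-33 / 200) x = (-10494763 / 40000000 + (x - 25 / 32) * (1711417 / 4000000)) := by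
  simp only [dt5, DT.kv, sl5, sv5]
  ((try push_cast); ring1)
theorem ka_dt18 (x : ℝ) : dt18.kv (-327 / 1000) x = (-18421307 / 40000000 + (x - 25 / 32) * (-4299999 / 4000000)) :=
  (DT.kv_le (by simp only [Cn.rt_v, Cn.ng_v]; norm_num)).trans (ka_dt4 x)
theorem kb_dt18 (x : ℝ) : dt18.kv (-33 / 200) x = (-10494763 / 40000000 + (x - 25 / 32) * (1711417 / 4000000)) :=
  (DT.kv_gt (by simp only [Cn.rt_v, Cn.ng_v]; norm_num)).trans (kb_dt5 x)
theorem ka_dt6 (x : ℝ) : dt6.kv (-33 / 200) x = (-10494763 / 40000000 + (x - 25 / 32) * (1711417 / 4000000)) := by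
  simp only [dt6, DT.kv, sw6, sl6, sv6]
  ((try push_cast); ring1)
theorem kb_dt6 (x : ℝ) : dt6.kv (-57 / 500) x = (-8788303 / 40000000 + (x - 25 / 32) * (2370847 / 4000000)) := by
  simp only [dt6, DT.kv, sw6, sl6, sv6]
  ((try push_cast); ring1)
theorem ka_dt7 (x : ℝ) : dt7.kv (-57 / 500) x = (-8788303 / 40000000 + (x - 25 / 32) * (2370847 / 4000000)) := by
  simp only [dt7, DT.kv, sw7, sl7, sv7]
  ((try push_cast); ring1)
theorem kb_dt7 (x : ℝ) : dt7.kv (-1 / 16) x = (-24379 / 160000 + (x - 25 / 32) * (5199 / 16000)) := by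
  simp only [dt7, DT.kv, sw7, sl7, sv7]
  ((try push_cast); ring1)
theorem ka_dt19 (x : ℝ) : dt19.kv (-33 / 200) x = (-10494763 / 40000000 + (x - 25 / 32) * (1711417 / 4000000)) :=
  (DT.kv_le (by simp only [Cn.rt_v, Cn.ng_v]; norm_num)).trans (ka_dt6 x)
theorem kb_dt19 (x : ℝ) : dt19.kv (-1 / 16) x = (-24379 / 160000 + (x - 25 / 32) * (5199 / 16000)) :=
  (DT.kv_gt (by simp only [Cn.rt_v, Cn.ng_v]; norm_num)).trans (kb_dt7 x)
theorem ka_dt20 (x : ℝ) : dt20.kv (-327 / 1000) x = (-18421307 / 40000000 + (x - 25 / 32) * (-4299999 / 4000000)) :=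
  (DT.kv_le (by simp only [Cn.rt_v, Cn.ng_v]; norm_num)).trans (ka_dt18 x)
theorem kb_dt20 (x : ℝ) : dt20.kv (-1 / 16) x = (-24379 / 160000 + (x - 25 / 32) * (5199 / 16000)) :=
  (DT.kv_gt (by simp only [Cn.rt_v, Cn.ng_v]; norm_num)).trans (kb_dt19 x)
theorem ka_dt21 (x : ℝ) : dt21.kv (-1 / 2) x = (-18011921 / 40000000 + (x - 25 / 32) * (-17420283 / 4000000)) :=
  (DT.kv_le (by simp only [Cn.rt_v, Cn.ng_v]; norm_num)).trans (ka_dt17 x)
theorem kb_dt21 (x : ℝ) : dt21.kv (-1 / 16) x = (-24379 / 160000 + (x - 25 / 32) * (5199 / 16000)) :=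
  (DT.kv_gt (by simp only [Cn.rt_v, Cn.ng_v]; norm_num)).trans (kb_dt20 x)
theorem ka_dt8 (x : ℝ) : dt8.kv (-1 / 16) x = (-24379 / 160000 + (x - 25 / 32) * (5199 / 16000)) := by
  simp only [dt8, DT.kv, sl8, sv8]
  ((try push_cast); ring1)
theorem kb_dt8 (x : ℝ) : dt8.kv (1 / 16) x = (24379 / 160000 + (x - 25 / 32) * (-5199 / 16000)) := by
  simp only [dt8, DT.kv, sl8, sv8]
  ((try push_cast); ring1)
theorem ka_dt9 (x : ℝ) : dt9.kv (1 / 16) x = (24379 / 160000 + (x - 25 / 32) * (-5199 / 16000)) := by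
  simp only [dt9, DT.kv, sw9, sl9, sv9]
  ((try push_cast); ring1)
theorem kb_dt9 (x : ℝ) : dt9.kv (57 / 500) x = (8788303 / 40000000 + (x - 25 / 32) * (-2370847 / 4000000)) := by
  simp only [dt9, DT.kv, sw9, sl9, sv9]
  ((try push_cast); ring1)
theorem ka_dt22 (x : ℝ) : dt22.kv (-1 / 16) x = (-24379 / 160000 + (x - 25 / 32) * (5199 / 16000)) :=
  (DT.kv_le (by simp only [Cn.rt_v, Cn.ng_v]; norm_num)).trans (ka_dt8 x)
theorem kb_dt22 (x : ℝ) : dt22.kv (57 / 500) x = (8788303 / 40000000 + (x - 25 / 32) * (-2370847 / 4000000)) :=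
  (DT.kv_gt (by simp only [Cn.rt_v, Cn.ng_v]; norm_num)).trans (kb_dt9 x)
theorem ka_dt10 (x : ℝ) : dt10.kv (57 / 500) x = (8788303 / 40000000 + (x - 25 / 32) * (-2370847 / 4000000)) := by
  simp only [dt10, DT.kv, sw10, sl10, sv10]
  ((try push_cast); ring1)
theorem kb_dt10 (x : ℝ) : dt10.kv (33 / 200) x = (10494763 / 40000000 + (x - 25 / 32) * (-1711417 / 4000000)) := by
  simp only [dt10, DT.kv, sw10, sl10, sv10]
  ((try push_cast); ring1)
theorem ka_dt11 (x : ℝ) : dt11.kv (33 / 200) x = (10494763 / 40000000 + (x - 25 / 32) * (-1711417 / 4000000)) := by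
  simp only [dt11, DT.kv, sl11, sv11]
  ((try push_cast); ring1)
theorem kb_dt11 (x : ℝ) : dt11.kv (271 / 1000) x = (3367391 / 8000000 + (x - 25 / 32) * (3234543 / 4000000)) := by
  simp only [dt11, DT.kv, sl11, sv11]
  ((try push_cast); ring1)
theorem ka_dt23 (x : ℝ) : dt23.kv (57 / 500) x = (8788303 / 40000000 + (x - 25 / 32) * (-2370847 / 4000000)) :=
  (DT.kv_le (by simp only [Cn.rt_v, Cn.ng_v]; norm_num)).trans (ka_dt10 x)
theorem kb_dt23 (x : ℝ) : dt23.kv (271 / 1000) x = (3367391 / 8000000 + (x - 25 / 32) * (3234543 / 4000000)) :=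
  (DT.kv_gt (by simp only [Cn.rt_v, Cn.ng_v]; norm_num)).trans (kb_dt11 x)
theorem ka_dt24 (x : ℝ) : dt24.kv (-1 / 16) x = (-24379 / 160000 + (x - 25 / 32) * (5199 / 16000)) :=
  (DT.kv_le (by simp only [Cn.rt_v, Cn.ng_v]; norm_num)).trans (ka_dt22 x)
theorem kb_dt24 (x : ℝ) : dt24.kv (271 / 1000) x = (3367391 / 8000000 + (x - 25 / 32) * (3234543 / 4000000)) :=
  (DT.kv_gt (by simp only [Cn.rt_v, Cn.ng_v]; norm_num)).trans (kb_dt23 x)
theorem ka_dt12 (x : ℝ) : dt12.kv (271 / 1000) x = (3367391 / 8000000 + (x - 25 / 32) * (3234543 / 4000000)) := by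
  simp only [dt12, DT.kv, sw12, sl12, sv12]
  ((try push_cast); ring1)
theorem kb_dt12 (x : ℝ) : dt12.kv (327 / 1000) x = (18421307 / 40000000 + (x - 25 / 32) * (4299999 / 4000000)) := by
  simp only [dt12, DT.kv, sw12, sl12, sv12]
  ((try push_cast); ring1)
theorem ka_dt13 (x : ℝ) : dt13.kv (327 / 1000) x = (18421307 / 40000000 + (x - 25 / 32) * (4299999 / 4000000)) := by
  simp only [dt13, DT.kv, sw13, sl13, sv13]
  ((try push_cast); ring1)
theorem kb_dt13 (x : ℝ) : dt13.kv (191 / 500) x = (16658667 / 40000000 + (x - 25 / 32) * (10514449 / 4000000)) := by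
  simp only [dt13, DT.kv, sw13, sl13, sv13]
  ((try push_cast); ring1)
theorem ka_dt25 (x : ℝ) : dt25.kv (271 / 1000) x = (3367391 / 8000000 + (x - 25 / 32) * (3234543 / 4000000)) :=
  (DT.kv_le (by simp only [Cn.rt_v, Cn.ng_v]; norm_num)).trans (ka_dt12 x)
theorem kb_dt25 (x : ℝ) : dt25.kv (191 / 500) x = (16658667 / 40000000 + (x - 25 / 32) * (10514449 / 4000000)) :=
  (DT.kv_gt (by simp only [Cn.rt_v, Cn.ng_v]; norm_num)).trans (kb_dt13 x)
theorem ka_dt14 (x : ℝ) : dt14.kv (191 / 500) x = (16658667 / 40000000 + (x - 25 / 32) * (10514449 / 4000000)) := by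
  simp only [dt14, DT.kv, sw14, sl14, sv14]
  ((try push_cast); ring1)
theorem kb_dt14 (x : ℝ) : dt14.kv (7 / 16) x = (15905421 / 40000000 + (x - 25 / 32) * (17146033 / 4000000)) := by
  simp only [dt14, DT.kv, sw14, sl14, sv14]
  ((try push_cast); ring1)
theorem ka_dt15 (x : ℝ) : dt15.kv (7 / 16) x = (15905421 / 40000000 + (x - 25 / 32) * (17146033 / 4000000)) := by
  simp only [dt15, DT.kv, sl15, sv15]
  ((try push_cast); ring1)
theorem kb_dt15 (x : ℝ) : dt15.kv (1 / 2) x = (18011921 / 40000000 + (x - 25 / 32) * (17420283 / 4000000)) := by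
  simp only [dt15, DT.kv, sl15, sv15]
  ((try push_cast); ring1)
theorem ka_dt26 (x : ℝ) : dt26.kv (191 / 500) x = (16658667 / 40000000 + (x - 25 / 32) * (10514449 / 4000000)) :=
  (DT.kv_le (by simp only [Cn.rt_v, Cn.ng_v]; norm_num)).trans (ka_dt14 x)
theorem kb_dt26 (x : ℝ) : dt26.kv (1 / 2) x = (18011921 / 40000000 + (x - 25 / 32) * (17420283 / 4000000)) :=
  (DT.kv_gt (by simp only [Cn.rt_v, Cn.ng_v]; norm_num)).trans (kb_dt15 x)
theorem ka_dt27 (x : ℝ) : dt27.kv (271 / 1000) x = (3367391 / 8000000 + (x - 25 / 32) * (3234543 / 4000000)) :=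
  (DT.kv_le (by simp only [Cn.rt_v, Cn.ng_v]; norm_num)).trans (ka_dt25 x)
theorem kb_dt27 (x : ℝ) : dt27.kv (1 / 2) x = (18011921 / 40000000 + (x - 25 / 32) * (17420283 / 4000000)) :=
  (DT.kv_gt (by simp only [Cn.rt_v, Cn.ng_v]; norm_num)).trans (kb_dt26 x)
theorem ka_dt28 (x : ℝ) : dt28.kv (-1 / 16) x = (-24379 / 160000 + (x - 25 / 32) * (5199 / 16000)) :=
  (DT.kv_le (by simp only [Cn.rt_v, Cn.ng_v]; norm_num)).trans (ka_dt24 x)
theorem kb_dt28 (x : ℝ) : dt28.kv (1 / 2) x = (18011921 / 40000000 + (x - 25 / 32) * (17420283 / 4000000)) :=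
  (DT.kv_gt (by simp only [Cn.rt_v, Cn.ng_v]; norm_num)).trans (kb_dt27 x)
theorem ka_dt29 (x : ℝ) : dt29.kv (-1 / 2) x = (-18011921 / 40000000 + (x - 25 / 32) * (-17420283 / 4000000)) :=
  (DT.kv_le (by simp only [Cn.rt_v, Cn.ng_v]; norm_num)).trans (ka_dt21 x)
theorem kb_dt29 (x : ℝ) : dt29.kv (1 / 2) x = (18011921 / 40000000 + (x - 25 / 32) * (17420283 / 4000000)) :=
  (DT.kv_gt (by simp only [Cn.rt_v, Cn.ng_v]; norm_num)).trans (kb_dt28 x)
theorem ko_dt1 (x : ℝ) : dt1.KOk x := trivial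
theorem ko_dt2 (x : ℝ) : dt2.KOk x := trivial
theorem ko_dt3 (x : ℝ) : dt3.KOk x := trivial
theorem ko_dt16 (x : ℝ) : dt16.KOk x :=
  DT.kOk_node (v := -191 / 500) (by simp only [Cn.rt_v, Cn.ng_v]; norm_num) (kb_dt2 x) (ka_dt3 x) (by ring1) (ko_dt2 x) (ko_dt3 x)
theorem ko_dt17 (x : ℝ) : dt17.KOk x :=
  DT.kOk_node (v := -7 / 16) (by simp only [Cn.rt_v, Cn.ng_v]; norm_num) (kb_dt1 x) (ka_dt16 x) (by ring1) (ko_dt1 x) (ko_dt16 x)
theorem ko_dt4 (x : ℝ) : dt4.KOk x := trivial
theorem ko_dt5 (x : ℝ) : dt5.KOk x := trivial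
theorem ko_dt18 (x : ℝ) : dt18.KOk x :=
  DT.kOk_node (v := -271 / 1000) (by simp only [Cn.rt_v, Cn.ng_v]; norm_num) (kb_dt4 x) (ka_dt5 x) (by ring1) (ko_dt4 x) (ko_dt5 x)
theorem ko_dt6 (x : ℝ) : dt6.KOk x := trivial
theorem ko_dt7 (x : ℝ) : dt7.KOk x := trivial
theorem ko_dt19 (x : ℝ) : dt19.KOk x :=
  DT.kOk_node (v := -57 / 500) (by simp only [Cn.rt_v, Cn.ng_v]; norm_num) (kb_dt6 x) (ka_dt7 x) (by ring1) (ko_dt6 x) (ko_dt7 x)
theorem ko_dt20 (x : ℝ) : dt20.KOk x :=
  DT.kOk_node (v := -33 / 200) (by simp only [Cn.rt_v, Cn.ng_v]; norm_num) (kb_dt18 x) (ka_dt19 x) (by ring1) (ko_dt18 x) (ko_dt19 x)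
theorem ko_dt21 (x : ℝ) : dt21.KOk x :=
  DT.kOk_node (v := -327 / 1000) (by simp only [Cn.rt_v, Cn.ng_v]; norm_num) (kb_dt17 x) (ka_dt20 x) (by ring1) (ko_dt17 x) (ko_dt20 x)
theorem ko_dt8 (x : ℝ) : dt8.KOk x := trivial
theorem ko_dt9 (x : ℝ) : dt9.KOk x := trivial
theorem ko_dt22 (x : ℝ) : dt22.KOk x :=
  DT.kOk_node (v := 1 / 16) (by simp only [Cn.rt_v, Cn.ng_v]; norm_num) (kb_dt8 x) (ka_dt9 x) (by ring1) (ko_dt8 x) (ko_dt9 x)
theorem ko_dt10 (x : ℝ) : dt10.KOk x := trivial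
theorem ko_dt11 (x : ℝ) : dt11.KOk x := trivial
theorem ko_dt23 (x : ℝ) : dt23.KOk x :=
  DT.kOk_node (v := 33 / 200) (by simp only [Cn.rt_v, Cn.ng_v]; norm_num) (kb_dt10 x) (ka_dt11 x) (by ring1) (ko_dt10 x) (ko_dt11 x)
theorem ko_dt24 (x : ℝ) : dt24.KOk x :=
  DT.kOk_node (v := 57 / 500) (by simp only [Cn.rt_v, Cn.ng_v]; norm_num) (kb_dt22 x) (ka_dt23 x) (by ring1) (ko_dt22 x) (ko_dt23 x)
theorem ko_dt12 (x : ℝ) : dt12.KOk x := trivial
theorem ko_dt13 (x : ℝ) : dt13.KOk x := trivial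
theorem ko_dt25 (x : ℝ) : dt25.KOk x :=
  DT.kOk_node (v := 327 / 1000) (by simp only [Cn.rt_v, Cn.ng_v]; norm_num) (kb_dt12 x) (ka_dt13 x) (by ring1) (ko_dt12 x) (ko_dt13 x)
theorem ko_dt14 (x : ℝ) : dt14.KOk x := trivial
theorem ko_dt15 (x : ℝ) : dt15.KOk x := trivial
theorem ko_dt26 (x : ℝ) : dt26.KOk x :=
  DT.kOk_node (v := 7 / 16) (by simp only [Cn.rt_v, Cn.ng_v]; norm_num) (kb_dt14 x) (ka_dt15 x) (by ring1) (ko_dt14 x) (ko_dt15 x)
theorem ko_dt27 (x : ℝ) : dt27.KOk x :=
  DT.kOk_node (v := 191 / 500) (by simp only [Cn.rt_v, Cn.ng_v]; norm_num) (kb_dt25 x) (ka_dt26 x) (by ring1) (ko_dt25 x) (ko_dt26 x)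
theorem ko_dt28 (x : ℝ) : dt28.KOk x :=
  DT.kOk_node (v := 271 / 1000) (by simp only [Cn.rt_v, Cn.ng_v]; norm_num) (kb_dt24 x) (ka_dt27 x) (by ring1) (ko_dt24 x) (ko_dt27 x)
theorem ko_dt29 (x : ℝ) : dt29.KOk x :=
  DT.kOk_node (v := -1 / 16) (by simp only [Cn.rt_v, Cn.ng_v]; norm_num) (kb_dt21 x) (ka_dt28 x) (by ring1) (ko_dt21 x) (ko_dt28 x)
theorem txl0 {p c x : ℝ} (h1 : -1 / 2 ≤ p) (h2 : p ≤ -9 / 20) : txg.v p c x = dt60.val (fun p x => kcg.v p x) p c x := by
  symm
  refine (DT.val_le (by simp only [Cn.rt_v, Cn.ng_v]; push_cast; linarith)).trans ?_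
  refine (DT.val_le (by simp only [Cn.rt_v, Cn.ng_v]; push_cast; linarith)).trans ?_
  refine (DT.val_le (by simp only [Cn.rt_v, Cn.ng_v]; push_cast; linarith)).trans ?_
  refine (DT.val_le (by simp only [Cn.rt_v, Cn.ng_v]; push_cast; linarith)).trans ?_
  simp only [dt30, DT.val, cloR, sw30, sl30, sv30, txg, txg_4, txg_6, txg_26, txg_29, txg_32, txg_76, txg_96, txg_138, txg_141, txg_180, txg_200, txg_232, txg_253, txg_254, txg_255, txg_306, txg_324]
  rcases eq_or_lt_of_le h1 with h | h1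
  · subst h
    ((try push_cast); (repeat first | rw [if_pos (by linarith)] | rw [if_neg (by linarith)] | erw [if_pos (by linarith)] | erw [if_neg (by linarith)]); (try push_cast); (try ring1))
  rcases eq_or_lt_of_le h2 with h | h2
  · subst h
    ((try push_cast); (repeat first | rw [if_pos (by linarith)] | rw [if_neg (by linarith)] | erw [if_pos (by linarith)] | erw [if_neg (by linarith)]); (try push_cast); (try ring1))
  · ((try push_cast); (repeat first | rw [if_pos (by linarith)] | rw [if_neg (by linarith)] | erw [if_pos (by linarith)] | erw [if_neg (by linarith)]); (try push_cast); (try ring1))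
theorem txl1 {p c x : ℝ} (h1 : -9 / 20 < p) (h2 : p ≤ -2 / 5) : txg.v p c x = dt60.val (fun p x => kcg.v p x) p c x := by
  symm
  refine (DT.val_le (by simp only [Cn.rt_v, Cn.ng_v]; push_cast; linarith)).trans ?_
  refine (DT.val_le (by simp only [Cn.rt_v, Cn.ng_v]; push_cast; linarith)).trans ?_
  refine (DT.val_le (by simp only [Cn.rt_v, Cn.ng_v]; push_cast; linarith)).trans ?_
  refine (DT.val_gt (by simp only [Cn.rt_v, Cn.ng_v]; push_cast; linarith)).trans ?_
  simp only [dt31, DT.val, cloR, sw31, sl31, sv31, txg, txg_4, txg_6, txg_26, txg_29, txg_32, txg_76, txg_96, txg_138, txg_141, txg_180, txg_200, txg_232, txg_253, txg_254, txg_255, txg_306, txg_324]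
  rcases eq_or_lt_of_le h2 with h | h2
  · subst h
    ((try push_cast); (repeat first | rw [if_pos (by linarith)] | rw [if_neg (by linarith)] | erw [if_pos (by linarith)] | erw [if_neg (by linarith)]); (try push_cast); (try ring1))
  · ((try push_cast); (repeat first | rw [if_pos (by linarith)] | rw [if_neg (by linarith)] | erw [if_pos (by linarith)] | erw [if_neg (by linarith)]); (try push_cast); (try ring1))
theorem txl2 {p c x : ℝ} (h1 : -2 / 5 < p) (h2 : p ≤ -7 / 20) : txg.v p c x = dt60.val (fun p x => kcg.v p x) p c x := by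
  symm
  refine (DT.val_le (by simp only [Cn.rt_v, Cn.ng_v]; push_cast; linarith)).trans ?_
  refine (DT.val_le (by simp only [Cn.rt_v, Cn.ng_v]; push_cast; linarith)).trans ?_
  refine (DT.val_gt (by simp only [Cn.rt_v, Cn.ng_v]; push_cast; linarith)).trans ?_
  refine (DT.val_le (by simp only [Cn.rt_v, Cn.ng_v]; push_cast; linarith)).trans ?_
  simp only [dt32, DT.val, cloR, sw32, sl32, sv32, txg, txg_4, txg_6, txg_26, txg_29, txg_32, txg_76, txg_96, txg_138, txg_141, txg_180, txg_200, txg_232, txg_253, txg_254, txg_255, txg_306, txg_324]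
  rcases eq_or_lt_of_le h2 with h | h2
  · subst h
    ((try push_cast); (repeat first | rw [if_pos (by linarith)] | rw [if_neg (by linarith)] | erw [if_pos (by linarith)] | erw [if_neg (by linarith)]); (try push_cast); (try ring1))
  · ((try push_cast); (repeat first | rw [if_pos (by linarith)] | rw [if_neg (by linarith)] | erw [if_pos (by linarith)] | erw [if_neg (by linarith)]); (try push_cast); (try ring1))
theorem txl3 {p c x : ℝ} (h1 : -7 / 20 < p) (h2 : p ≤ -3 / 10) : txg.v p c x = dt60.val (fun p x => kcg.v p x) p c x := by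
  symm
  refine (DT.val_le (by simp only [Cn.rt_v, Cn.ng_v]; push_cast; linarith)).trans ?_
  refine (DT.val_le (by simp only [Cn.rt_v, Cn.ng_v]; push_cast; linarith)).trans ?_
  refine (DT.val_gt (by simp only [Cn.rt_v, Cn.ng_v]; push_cast; linarith)).trans ?_
  refine (DT.val_gt (by simp only [Cn.rt_v, Cn.ng_v]; push_cast; linarith)).trans ?_
  simp only [dt33, DT.val, cloR, sw33, sl33, sv33, txg, txg_4, txg_6, txg_26, txg_29, txg_32, txg_76, txg_96, txg_138, txg_141, txg_180, txg_200, txg_232, txg_253, txg_254, txg_255, txg_306, txg_324]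
  rcases eq_or_lt_of_le h2 with h | h2
  · subst h
    ((try push_cast); (repeat first | rw [if_pos (by linarith)] | rw [if_neg (by linarith)] | erw [if_pos (by linarith)] | erw [if_neg (by linarith)]); (try push_cast); (try ring1))
  · ((try push_cast); (repeat first | rw [if_pos (by linarith)] | rw [if_neg (by linarith)] | erw [if_pos (by linarith)] | erw [if_neg (by linarith)]); (try push_cast); (try ring1))
theorem txl4 {p c x : ℝ} (h1 : -3 / 10 < p) (h2 : p ≤ -1 / 4) : txg.v p c x = dt60.val (fun p x => kcg.v p x) p c x := by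
  symm
  refine (DT.val_le (by simp only [Cn.rt_v, Cn.ng_v]; push_cast; linarith)).trans ?_
  refine (DT.val_gt (by simp only [Cn.rt_v, Cn.ng_v]; push_cast; linarith)).trans ?_
  refine (DT.val_le (by simp only [Cn.rt_v, Cn.ng_v]; push_cast; linarith)).trans ?_
  refine (DT.val_le (by simp only [Cn.rt_v, Cn.ng_v]; push_cast; linarith)).trans ?_
  simp only [dt34, DT.val, cloR, sw34, sl34, sv34, txg, txg_4, txg_6, txg_26, txg_29, txg_32, txg_76, txg_96, txg_138, txg_141, txg_180, txg_200, txg_232, txg_253, txg_254, txg_255, txg_306, txg_324]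
  rcases eq_or_lt_of_le h2 with h | h2
  · subst h
    ((try push_cast); (repeat first | rw [if_pos (by linarith)] | rw [if_neg (by linarith)] | erw [if_pos (by linarith)] | erw [if_neg (by linarith)]); (try push_cast); (try ring1))
  · ((try push_cast); (repeat first | rw [if_pos (by linarith)] | rw [if_neg (by linarith)] | erw [if_pos (by linarith)] | erw [if_neg (by linarith)]); (try push_cast); (try ring1))
theorem txl5 {p c x : ℝ} (h1 : -1 / 4 < p) (h2 : p ≤ -1 / 5) : txg.v p c x = dt60.val (fun p x => kcg.v p x) p c x := by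
  symm
  refine (DT.val_le (by simp only [Cn.rt_v, Cn.ng_v]; push_cast; linarith)).trans ?_
  refine (DT.val_gt (by simp only [Cn.rt_v, Cn.ng_v]; push_cast; linarith)).trans ?_
  refine (DT.val_le (by simp only [Cn.rt_v, Cn.ng_v]; push_cast; linarith)).trans ?_
  refine (DT.val_gt (by simp only [Cn.rt_v, Cn.ng_v]; push_cast; linarith)).trans ?_
  simp only [dt35, DT.val, cloR, sw35, sl35, sv35, txg, txg_4, txg_6, txg_26, txg_29, txg_32, txg_76, txg_96, txg_138, txg_141, txg_180, txg_200, txg_232, txg_253, txg_254, txg_255, txg_306, txg_324]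
  rcases eq_or_lt_of_le h2 with h | h2
  · subst h
    ((try push_cast); (repeat first | rw [if_pos (by linarith)] | rw [if_neg (by linarith)] | erw [if_pos (by linarith)] | erw [if_neg (by linarith)]); (try push_cast); (try ring1))
  · ((try push_cast); (repeat first | rw [if_pos (by linarith)] | rw [if_neg (by linarith)] | erw [if_pos (by linarith)] | erw [if_neg (by linarith)]); (try push_cast); (try ring1))
theorem txl6 {p c x : ℝ} (h1 : -1 / 5 < p) (h2 : p ≤ -3 / 20) : txg.v p c x = dt60.val (fun p x => kcg.v p x) p c x := by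
  symm
  refine (DT.val_le (by simp only [Cn.rt_v, Cn.ng_v]; push_cast; linarith)).trans ?_
  refine (DT.val_gt (by simp only [Cn.rt_v, Cn.ng_v]; push_cast; linarith)).trans ?_
  refine (DT.val_gt (by simp only [Cn.rt_v, Cn.ng_v]; push_cast; linarith)).trans ?_
  refine (DT.val_le (by simp only [Cn.rt_v, Cn.ng_v]; push_cast; linarith)).trans ?_
  simp only [dt36, DT.val, cloR, sw36, sl36, sv36, txg, txg_4, txg_6, txg_26, txg_29, txg_32, txg_76, txg_96, txg_138, txg_141, txg_180, txg_200, txg_232, txg_253, txg_254, txg_255, txg_306, txg_324]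
  rcases eq_or_lt_of_le h2 with h | h2
  · subst h
    ((try push_cast); (repeat first | rw [if_pos (by linarith)] | rw [if_neg (by linarith)] | erw [if_pos (by linarith)] | erw [if_neg (by linarith)]); (try push_cast); (try ring1))
  · ((try push_cast); (repeat first | rw [if_pos (by linarith)] | rw [if_neg (by linarith)] | erw [if_pos (by linarith)] | erw [if_neg (by linarith)]); (try push_cast); (try ring1))
theorem txl7 {p c x : ℝ} (h1 : -3 / 20 < p) (h2 : p ≤ -1 / 10) : txg.v p c x = dt60.val (fun p x => kcg.v p x) p c x := by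
  symm
  refine (DT.val_le (by simp only [Cn.rt_v, Cn.ng_v]; push_cast; linarith)).trans ?_
  refine (DT.val_gt (by simp only [Cn.rt_v, Cn.ng_v]; push_cast; linarith)).trans ?_
  refine (DT.val_gt (by simp only [Cn.rt_v, Cn.ng_v]; push_cast; linarith)).trans ?_
  refine (DT.val_gt (by simp only [Cn.rt_v, Cn.ng_v]; push_cast; linarith)).trans ?_
  simp only [dt37, DT.val, cloR, sw37, sl37, sv37, txg, txg_4, txg_6, txg_26, txg_29, txg_32, txg_76, txg_96, txg_138, txg_141, txg_180, txg_200, txg_232, txg_253, txg_254, txg_255, txg_306, txg_324]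
  rcases eq_or_lt_of_le h2 with h | h2
  · subst h
    ((try push_cast); (repeat first | rw [if_pos (by linarith)] | rw [if_neg (by linarith)] | erw [if_pos (by linarith)] | erw [if_neg (by linarith)]); (try push_cast); (try ring1))
  · ((try push_cast); (repeat first | rw [if_pos (by linarith)] | rw [if_neg (by linarith)] | erw [if_pos (by linarith)] | erw [if_neg (by linarith)]); (try push_cast); (try ring1))
theorem txl8 {p c x : ℝ} (h1 : -1 / 10 < p) (h2 : p ≤ 1 / 10) : txg.v p c x = dt60.val (fun p x => kcg.v p x) p c x := by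
  symm
  refine (DT.val_gt (by simp only [Cn.rt_v, Cn.ng_v]; push_cast; linarith)).trans ?_
  refine (DT.val_le (by simp only [Cn.rt_v, Cn.ng_v]; push_cast; linarith)).trans ?_
  refine (DT.val_le (by simp only [Cn.rt_v, Cn.ng_v]; push_cast; linarith)).trans ?_
  refine (DT.val_le (by simp only [Cn.rt_v, Cn.ng_v]; push_cast; linarith)).trans ?_
  simp only [dt38, DT.val, cloR, sw38, sl38, sv38, txg, txg_4, txg_6, txg_26, txg_29, txg_32, txg_76, txg_96, txg_138, txg_141, txg_180, txg_200, txg_232, txg_253, txg_254, txg_255, txg_306, txg_324]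
  rcases eq_or_lt_of_le h2 with h | h2
  · subst h
    ((try push_cast); (repeat first | rw [if_pos (by linarith)] | rw [if_neg (by linarith)] | erw [if_pos (by linarith)] | erw [if_neg (by linarith)]); (try push_cast); (try ring1))
  · ((try push_cast); (repeat first | rw [if_pos (by linarith)] | rw [if_neg (by linarith)] | erw [if_pos (by linarith)] | erw [if_neg (by linarith)]); (try push_cast); (try ring1))
theorem txl9 {p c x : ℝ} (h1 : 1 / 10 < p) (h2 : p ≤ 263 / 1586) : txg.v p c x = dt60.val (fun p x => kcg.v p x) p c x := by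
  symm
  refine (DT.val_gt (by simp only [Cn.rt_v, Cn.ng_v]; push_cast; linarith)).trans ?_
  refine (DT.val_le (by simp only [Cn.rt_v, Cn.ng_v]; push_cast; linarith)).trans ?_
  refine (DT.val_le (by simp only [Cn.rt_v, Cn.ng_v]; push_cast; linarith)).trans ?_
  refine (DT.val_gt (by simp only [Cn.rt_v, Cn.ng_v]; push_cast; linarith)).trans ?_
  simp only [dt39, DT.val, cloR, sw39, sw39_2, sl39, sl39_2, sv39, sv39_2, txg, txg_4, txg_6, txg_26, txg_29, txg_32, txg_76, txg_96, txg_138, txg_141, txg_180, txg_200, txg_232, txg_253, txg_254, txg_255, txg_306, txg_324]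
  rcases eq_or_lt_of_le h2 with h | h2
  · subst h
    ((try push_cast); (repeat first | rw [if_pos (by linarith)] | rw [if_neg (by linarith)] | erw [if_pos (by linarith)] | erw [if_neg (by linarith)]); (try push_cast); (try ring1))
  · ((try push_cast); (repeat first | rw [if_pos (by linarith)] | rw [if_neg (by linarith)] | erw [if_pos (by linarith)] | erw [if_neg (by linarith)]); (try push_cast); (try ring1))
theorem txl10 {p c x : ℝ} (h1 : 263 / 1586 < p) (h2 : p ≤ 109 / 403) : txg.v p c x = dt60.val (fun p x => kcg.v p x) p c x := by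
  symm
  refine (DT.val_gt (by simp only [Cn.rt_v, Cn.ng_v]; push_cast; linarith)).trans ?_
  refine (DT.val_le (by simp only [Cn.rt_v, Cn.ng_v]; push_cast; linarith)).trans ?_
  refine (DT.val_gt (by simp only [Cn.rt_v, Cn.ng_v]; push_cast; linarith)).trans ?_
  refine (DT.val_le (by simp only [Cn.rt_v, Cn.ng_v]; push_cast; linarith)).trans ?_
  simp only [dt40, DT.val, cloR, txg, txg_4, txg_6, txg_26, txg_29, txg_32, txg_76, txg_96, txg_138, txg_141, txg_180, txg_200, txg_232, txg_253, txg_254, txg_255, txg_306, txg_324]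
  rcases eq_or_lt_of_le h2 with h | h2
  · subst h
    ((try push_cast); (repeat first | rw [if_pos (by linarith)] | rw [if_neg (by linarith)] | erw [if_pos (by linarith)] | erw [if_neg (by linarith)]); (try push_cast); (try ring1))
  · ((try push_cast); (repeat first | rw [if_pos (by linarith)] | rw [if_neg (by linarith)] | erw [if_pos (by linarith)] | erw [if_neg (by linarith)]); (try push_cast); (try ring1))
theorem txl11 {p c x : ℝ} (h1 : 109 / 403 < p) (h2 : p ≤ 3 / 10) : txg.v p c x = dt60.val (fun p x => kcg.v p x) p c x := by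
  symm
  refine (DT.val_gt (by simp only [Cn.rt_v, Cn.ng_v]; push_cast; linarith)).trans ?_
  refine (DT.val_le (by simp only [Cn.rt_v, Cn.ng_v]; push_cast; linarith)).trans ?_
  refine (DT.val_gt (by simp only [Cn.rt_v, Cn.ng_v]; push_cast; linarith)).trans ?_
  refine (DT.val_gt (by simp only [Cn.rt_v, Cn.ng_v]; push_cast; linarith)).trans ?_
  simp only [dt41, DT.val, cloR, sw41, sw41_2, sl41, sl41_2, sv41, sv41_2, txg, txg_4, txg_6, txg_26, txg_29, txg_32, txg_76, txg_96, txg_138, txg_141, txg_180, txg_200, txg_232, txg_253, txg_254, txg_255, txg_306, txg_324]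
  rcases eq_or_lt_of_le h2 with h | h2
  · subst h
    ((try push_cast); (repeat first | rw [if_pos (by linarith)] | rw [if_neg (by linarith)] | erw [if_pos (by linarith)] | erw [if_neg (by linarith)]); (try push_cast); (try ring1))
  · ((try push_cast); (repeat first | rw [if_pos (by linarith)] | rw [if_neg (by linarith)] | erw [if_pos (by linarith)] | erw [if_neg (by linarith)]); (try push_cast); (try ring1))
theorem txl12 {p c x : ℝ} (h1 : 3 / 10 < p) (h2 : p ≤ 7 / 20) : txg.v p c x = dt60.val (fun p x => kcg.v p x) p c x := by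
  symm
  refine (DT.val_gt (by simp only [Cn.rt_v, Cn.ng_v]; push_cast; linarith)).trans ?_
  refine (DT.val_gt (by simp only [Cn.rt_v, Cn.ng_v]; push_cast; linarith)).trans ?_
  refine (DT.val_le (by simp only [Cn.rt_v, Cn.ng_v]; push_cast; linarith)).trans ?_
  refine (DT.val_le (by simp only [Cn.rt_v, Cn.ng_v]; push_cast; linarith)).trans ?_
  simp only [dt42, DT.val, cloR, sw42, sl42, sv42, txg, txg_4, txg_6, txg_26, txg_29, txg_32, txg_76, txg_96, txg_138, txg_141, txg_180, txg_200, txg_232, txg_253, txg_254, txg_255, txg_306, txg_324]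
  rcases eq_or_lt_of_le h2 with h | h2
  · subst h
    ((try push_cast); (repeat first | rw [if_pos (by linarith)] | rw [if_neg (by linarith)] | erw [if_pos (by linarith)] | erw [if_neg (by linarith)]); (try push_cast); (try ring1))
  · ((try push_cast); (repeat first | rw [if_pos (by linarith)] | rw [if_neg (by linarith)] | erw [if_pos (by linarith)] | erw [if_neg (by linarith)]); (try push_cast); (try ring1))
theorem txl13 {p c x : ℝ} (h1 : 7 / 20 < p) (h2 : p ≤ 2 / 5) : txg.v p c x = dt60.val (fun p x => kcg.v p x) p c x := by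
  symm
  refine (DT.val_gt (by simp only [Cn.rt_v, Cn.ng_v]; push_cast; linarith)).trans ?_
  refine (DT.val_gt (by simp only [Cn.rt_v, Cn.ng_v]; push_cast; linarith)).trans ?_
  refine (DT.val_le (by simp only [Cn.rt_v, Cn.ng_v]; push_cast; linarith)).trans ?_
  refine (DT.val_gt (by simp only [Cn.rt_v, Cn.ng_v]; push_cast; linarith)).trans ?_
  simp only [dt43, DT.val, cloR, sw43, sl43, sv43, txg, txg_4, txg_6, txg_26, txg_29, txg_32, txg_76, txg_96, txg_138, txg_141, txg_180, txg_200, txg_232, txg_253, txg_254, txg_255, txg_306, txg_324]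
  rcases eq_or_lt_of_le h2 with h | h2
  · subst h
    ((try push_cast); (repeat first | rw [if_pos (by linarith)] | rw [if_neg (by linarith)] | erw [if_pos (by linarith)] | erw [if_neg (by linarith)]); (try push_cast); (try ring1))
  · ((try push_cast); (repeat first | rw [if_pos (by linarith)] | rw [if_neg (by linarith)] | erw [if_pos (by linarith)] | erw [if_neg (by linarith)]); (try push_cast); (try ring1))
theorem txl14 {p c x : ℝ} (h1 : 2 / 5 < p) (h2 : p ≤ 9 / 20) : txg.v p c x = dt60.val (fun p x => kcg.v p x) p c x := by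
  symm
  refine (DT.val_gt (by simp only [Cn.rt_v, Cn.ng_v]; push_cast; linarith)).trans ?_
  refine (DT.val_gt (by simp only [Cn.rt_v, Cn.ng_v]; push_cast; linarith)).trans ?_
  refine (DT.val_gt (by simp only [Cn.rt_v, Cn.ng_v]; push_cast; linarith)).trans ?_
  refine (DT.val_le (by simp only [Cn.rt_v, Cn.ng_v]; push_cast; linarith)).trans ?_
  simp only [dt44, DT.val, cloR, sw44, sl44, sv44, txg, txg_4, txg_6, txg_26, txg_29, txg_32, txg_76, txg_96, txg_138, txg_141, txg_180, txg_200, txg_232, txg_253, txg_254, txg_255, txg_306, txg_324]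
  rcases eq_or_lt_of_le h2 with h | h2
  · subst h
    ((try push_cast); (repeat first | rw [if_pos (by linarith)] | rw [if_neg (by linarith)] | erw [if_pos (by linarith)] | erw [if_neg (by linarith)]); (try push_cast); (try ring1))
  · ((try push_cast); (repeat first | rw [if_pos (by linarith)] | rw [if_neg (by linarith)] | erw [if_pos (by linarith)] | erw [if_neg (by linarith)]); (try push_cast); (try ring1))
theorem txl15 {p c x : ℝ} (h1 : 9 / 20 < p) (h2 : p ≤ 1 / 2) : txg.v p c x = dt60.val (fun p x => kcg.v p x) p c x := by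
  symm
  refine (DT.val_gt (by simp only [Cn.rt_v, Cn.ng_v]; push_cast; linarith)).trans ?_
  refine (DT.val_gt (by simp only [Cn.rt_v, Cn.ng_v]; push_cast; linarith)).trans ?_
  refine (DT.val_gt (by simp only [Cn.rt_v, Cn.ng_v]; push_cast; linarith)).trans ?_
  refine (DT.val_gt (by simp only [Cn.rt_v, Cn.ng_v]; push_cast; linarith)).trans ?_
  simp only [dt45, DT.val, cloR, sw45, sl45, sv45, txg, txg_4, txg_6, txg_26, txg_29, txg_32, txg_76, txg_96, txg_138, txg_141, txg_180, txg_200, txg_232, txg_253, txg_254, txg_255, txg_306, txg_324]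
  rcases eq_or_lt_of_le h2 with h | h2
  · subst h
    ((try push_cast); (repeat first | rw [if_pos (by linarith)] | rw [if_neg (by linarith)] | erw [if_pos (by linarith)] | erw [if_neg (by linarith)]); (try push_cast); (try ring1))
  · ((try push_cast); (repeat first | rw [if_pos (by linarith)] | rw [if_neg (by linarith)] | erw [if_pos (by linarith)] | erw [if_neg (by linarith)]); (try push_cast); (try ring1))
theorem txe {x : ℝ} (p c : ℝ) (h : |p| ≤ 1 / 2) : txg.v p c x = dt60.val (fun p x => kcg.v p x) p c x := by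
  obtain ⟨h1, h2⟩ := abs_le.1 h
  rcases le_or_gt p (-9 / 20) with g0 | g1000
  · exact txl0 (by linarith) g0
  rcases le_or_gt p (-2 / 5) with g1 | g1001
  · exact txl1 g1000 g1
  rcases le_or_gt p (-7 / 20) with g2 | g1002
  · exact txl2 g1001 g2
  rcases le_or_gt p (-3 / 10) with g3 | g1003
  · exact txl3 g1002 g3
  rcases le_or_gt p (-1 / 4) with g4 | g1004
  · exact txl4 g1003 g4
  rcases le_or_gt p (-1 / 5) with g5 | g1005
  · exact txl5 g1004 g5
  rcases le_or_gt p (-3 / 20) with g6 | g1006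
  · exact txl6 g1005 g6
  rcases le_or_gt p (-1 / 10) with g7 | g1007
  · exact txl7 g1006 g7
  rcases le_or_gt p (1 / 10) with g8 | g1008
  · exact txl8 g1007 g8
  rcases le_or_gt p (263 / 1586) with g9 | g1009
  · exact txl9 g1008 g9
  rcases le_or_gt p (109 / 403) with g10 | g1010
  · exact txl10 g1009 g10
  rcases le_or_gt p (3 / 10) with g11 | g1011
  · exact txl11 g1010 g11
  rcases le_or_gt p (7 / 20) with g12 | g1012
  · exact txl12 g1011 g12
  rcases le_or_gt p (2 / 5) with g13 | g1013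
  · exact txl13 g1012 g13
  rcases le_or_gt p (9 / 20) with g14 | g1014
  · exact txl14 g1013 g14
  · exact txl15 g1014 (by linarith)
theorem ta_dt30 (x : ℝ) : dt30.val (fun p x => kcg.v p x) (-1 / 2) (cT (-1 / 2)) x = (0) := by
  simp only [dt30, DT.val, sw30, sl30, sv30]
  ((try push_cast); ring1)
theorem tb_dt30 (x : ℝ) : dt30.val (fun p x => kcg.v p x) (-9 / 20) (cT (-9 / 20)) x = (16871 / 1250000 + (x - 25 / 32) * (9531 / 500000)) := by
  simp only [dt30, DT.val, sw30, sl30, sv30]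
  ((try push_cast); ring1)
theorem ta_dt31 (x : ℝ) : dt31.val (fun p x => kcg.v p x) (-9 / 20) (cT (-9 / 20)) x = (16871 / 1250000 + (x - 25 / 32) * (9531 / 500000)) := by
  simp only [dt31, DT.val, sw31, sl31, sv31]
  ((try push_cast); ring1)
theorem tb_dt31 (x : ℝ) : dt31.val (fun p x => kcg.v p x) (-2 / 5) (cT (-2 / 5)) x = (55619 / 2000000 + (x - 25 / 32) * (26211 / 250000)) := by
  simp only [dt31, DT.val, sw31, sl31, sv31]
  ((try push_cast); ring1)
theorem ta_dt46 (x : ℝ) : dt46.val (fun p x => kcg.v p x) (-1 / 2) (cT (-1 / 2)) x = (0) :=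
  (DT.val_le (by simp only [Cn.rt_v, Cn.ng_v]; norm_num)).trans (ta_dt30 x)
theorem tb_dt46 (x : ℝ) : dt46.val (fun p x => kcg.v p x) (-2 / 5) (cT (-2 / 5)) x = (55619 / 2000000 + (x - 25 / 32) * (26211 / 250000)) :=
  (DT.val_gt (by simp only [Cn.rt_v, Cn.ng_v]; norm_num)).trans (tb_dt31 x)
theorem ta_dt32 (x : ℝ) : dt32.val (fun p x => kcg.v p x) (-2 / 5) (cT (-2 / 5)) x = (55619 / 2000000 + (x - 25 / 32) * (26211 / 250000)) := by
  simp only [dt32, DT.val, sw32, sl32, sv32]
  ((try push_cast); ring1)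
theorem tb_dt32 (x : ℝ) : dt32.val (fun p x => kcg.v p x) (-7 / 20) (cT (-7 / 20)) x = (88637 / 2000000 + (x - 25 / 32) * (170613 / 1000000)) := by
  simp only [dt32, DT.val, sw32, sl32, sv32]
  ((try push_cast); ring1)
theorem ta_dt33 (x : ℝ) : dt33.val (fun p x => kcg.v p x) (-7 / 20) (cT (-7 / 20)) x = (88637 / 2000000 + (x - 25 / 32) * (170613 / 1000000)) := by
  simp only [dt33, DT.val, sw33, sl33, sv33]
  ((try push_cast); ring1)
theorem tb_dt33 (x : ℝ) : dt33.val (fun p x => kcg.v p x) (-3 / 10) (cT (-3 / 10)) x = (311119 / 5000000 + (x - 25 / 32) * (39203 / 250000)) := by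
  simp only [dt33, DT.val, sw33, sl33, sv33]
  ((try push_cast); ring1)
theorem ta_dt47 (x : ℝ) : dt47.val (fun p x => kcg.v p x) (-2 / 5) (cT (-2 / 5)) x = (55619 / 2000000 + (x - 25 / 32) * (26211 / 250000)) :=
  (DT.val_le (by simp only [Cn.rt_v, Cn.ng_v]; norm_num)).trans (ta_dt32 x)
theorem tb_dt47 (x : ℝ) : dt47.val (fun p x => kcg.v p x) (-3 / 10) (cT (-3 / 10)) x = (311119 / 5000000 + (x - 25 / 32) * (39203 / 250000)) :=
  (DT.val_gt (by simp only [Cn.rt_v, Cn.ng_v]; norm_num)).trans (tb_dt33 x)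
theorem ta_dt48 (x : ℝ) : dt48.val (fun p x => kcg.v p x) (-1 / 2) (cT (-1 / 2)) x = (0) :=
  (DT.val_le (by simp only [Cn.rt_v, Cn.ng_v]; norm_num)).trans (ta_dt46 x)
theorem tb_dt48 (x : ℝ) : dt48.val (fun p x => kcg.v p x) (-3 / 10) (cT (-3 / 10)) x = (311119 / 5000000 + (x - 25 / 32) * (39203 / 250000)) :=
  (DT.val_gt (by simp only [Cn.rt_v, Cn.ng_v]; norm_num)).trans (tb_dt47 x)
theorem ta_dt34 (x : ℝ) : dt34.val (fun p x => kcg.v p x) (-3 / 10) (cT (-3 / 10)) x = (311119 / 5000000 + (x - 25 / 32) * (39203 / 250000)) := by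
  simp only [dt34, DT.val, sw34, sl34, sv34]
  ((try push_cast); ring1)
theorem tb_dt34 (x : ℝ) : dt34.val (fun p x => kcg.v p x) (-1 / 4) (cT (-1 / 4)) x = (798279 / 10000000 + (x - 25 / 32) * (158363 / 1000000)) := by
  simp only [dt34, DT.val, sw34, sl34, sv34]
  ((try push_cast); ring1)
theorem ta_dt35 (x : ℝ) : dt35.val (fun p x => kcg.v p x) (-1 / 4) (cT (-1 / 4)) x = (798279 / 10000000 + (x - 25 / 32) * (158363 / 1000000)) := by
  simp only [dt35, DT.val, sw35, sl35, sv35]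
  ((try push_cast); ring1)
theorem tb_dt35 (x : ℝ) : dt35.val (fun p x => kcg.v p x) (-1 / 5) (cT (-1 / 5)) x = (470821 / 5000000 + (x - 25 / 32) * (79831 / 500000)) := by
  simp only [dt35, DT.val, sw35, sl35, sv35]
  ((try push_cast); ring1)
theorem ta_dt49 (x : ℝ) : dt49.val (fun p x => kcg.v p x) (-3 / 10) (cT (-3 / 10)) x = (311119 / 5000000 + (x - 25 / 32) * (39203 / 250000)) :=
  (DT.val_le (by simp only [Cn.rt_v, Cn.ng_v]; norm_num)).trans (ta_dt34 x)
theorem tb_dt49 (x : ℝ) : dt49.val (fun p x => kcg.v p x) (-1 / 5) (cT (-1 / 5)) x = (470821 / 5000000 + (x - 25 / 32) * (79831 / 500000)) :=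
  (DT.val_gt (by simp only [Cn.rt_v, Cn.ng_v]; norm_num)).trans (tb_dt35 x)
theorem ta_dt36 (x : ℝ) : dt36.val (fun p x => kcg.v p x) (-1 / 5) (cT (-1 / 5)) x = (470821 / 5000000 + (x - 25 / 32) * (79831 / 500000)) := by
  simp only [dt36, DT.val, sw36, sl36, sv36]
  ((try push_cast); ring1)
theorem tb_dt36 (x : ℝ) : dt36.val (fun p x => kcg.v p x) (-3 / 20) (cT (-3 / 20)) x = (130071 / 1250000 + (x - 25 / 32) * (26461 / 200000)) := by
  simp only [dt36, DT.val, sw36, sl36, sv36]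
  ((try push_cast); ring1)
theorem ta_dt37 (x : ℝ) : dt37.val (fun p x => kcg.v p x) (-3 / 20) (cT (-3 / 20)) x = (130071 / 1250000 + (x - 25 / 32) * (26461 / 200000)) := by
  simp only [dt37, DT.val, sw37, sl37, sv37]
  ((try push_cast); ring1)
theorem tb_dt37 (x : ℝ) : dt37.val (fun p x => kcg.v p x) (-1 / 10) (cT (-1 / 10)) x = (563069 / 5000000 + (x - 25 / 32) * (153407 / 1000000)) := by
  simp only [dt37, DT.val, sw37, sl37, sv37]
  ((try push_cast); ring1)
theorem ta_dt50 (x : ℝ) : dt50.val (fun p x => kcg.v p x) (-1 / 5) (cT (-1 / 5)) x = (470821 / 5000000 + (x - 25 / 32) * (79831 / 500000)) :=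
  (DT.val_le (by simp only [Cn.rt_v, Cn.ng_v]; norm_num)).trans (ta_dt36 x)
theorem tb_dt50 (x : ℝ) : dt50.val (fun p x => kcg.v p x) (-1 / 10) (cT (-1 / 10)) x = (563069 / 5000000 + (x - 25 / 32) * (153407 / 1000000)) :=
  (DT.val_gt (by simp only [Cn.rt_v, Cn.ng_v]; norm_num)).trans (tb_dt37 x)
theorem ta_dt51 (x : ℝ) : dt51.val (fun p x => kcg.v p x) (-3 / 10) (cT (-3 / 10)) x = (311119 / 5000000 + (x - 25 / 32) * (39203 / 250000)) :=
  (DT.val_le (by simp only [Cn.rt_v, Cn.ng_v]; norm_num)).trans (ta_dt49 x)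
theorem tb_dt51 (x : ℝ) : dt51.val (fun p x => kcg.v p x) (-1 / 10) (cT (-1 / 10)) x = (563069 / 5000000 + (x - 25 / 32) * (153407 / 1000000)) :=
  (DT.val_gt (by simp only [Cn.rt_v, Cn.ng_v]; norm_num)).trans (tb_dt50 x)
theorem ta_dt52 (x : ℝ) : dt52.val (fun p x => kcg.v p x) (-1 / 2) (cT (-1 / 2)) x = (0) :=
  (DT.val_le (by simp only [Cn.rt_v, Cn.ng_v]; norm_num)).trans (ta_dt48 x)
theorem tb_dt52 (x : ℝ) : dt52.val (fun p x => kcg.v p x) (-1 / 10) (cT (-1 / 10)) x = (563069 / 5000000 + (x - 25 / 32) * (153407 / 1000000)) :=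
  (DT.val_gt (by simp only [Cn.rt_v, Cn.ng_v]; norm_num)).trans (tb_dt51 x)
theorem ta_dt38 (x : ℝ) : dt38.val (fun p x => kcg.v p x) (-1 / 10) (cT (-1 / 10)) x = (563069 / 5000000 + (x - 25 / 32) * (153407 / 1000000)) := by
  simp only [dt38, DT.val, sw38, sl38, sv38]
  ((try push_cast); ring1)
theorem tb_dt38 (x : ℝ) : dt38.val (fun p x => kcg.v p x) (1 / 10) (cT (1 / 10)) x = (641707 / 5000000 + (x - 25 / 32) * (108039 / 1000000)) := by
  simp only [dt38, DT.val, sw38, sl38, sv38]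
  ((try push_cast); ring1)
theorem ta_dt39 (x : ℝ) : dt39.val (fun p x => kcg.v p x) (1 / 10) (cT (1 / 10)) x = (641707 / 5000000 + (x - 25 / 32) * (108039 / 1000000)) := by
  simp only [dt39, DT.val, sw39, sw39_2, sl39, sl39_2, sv39, sv39_2]
  ((try push_cast); ring1)
theorem tb_dt39 (x : ℝ) : dt39.val (fun p x => kcg.v p x) (263 / 1586) (1223 / 1586) x = (4068460844527321 / 31915344448000000 + (x - 25 / 32) * (1081709805826397 / 15957672224000000) + (x - 25 / 32) ^ 2 * (-14592505191 / 125769800000)) := by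
  simp only [dt39, DT.val, sw39, sw39_2, sl39, sl39_2, sv39, sv39_2]
  ((try push_cast); ring1)
theorem ta_dt53 (x : ℝ) : dt53.val (fun p x => kcg.v p x) (-1 / 10) (cT (-1 / 10)) x = (563069 / 5000000 + (x - 25 / 32) * (153407 / 1000000)) :=
  (DT.val_le (by simp only [Cn.rt_v, Cn.ng_v]; norm_num)).trans (ta_dt38 x)
theorem tb_dt53 (x : ℝ) : dt53.val (fun p x => kcg.v p x) (263 / 1586) (1223 / 1586) x = (4068460844527321 / 31915344448000000 + (x - 25 / 32) * (1081709805826397 / 15957672224000000) + (x - 25 / 32) ^ 2 * (-14592505191 / 125769800000)) :=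
  (DT.val_gt (by simp only [Cn.rt_v, Cn.ng_v]; norm_num)).trans (tb_dt39 x)
theorem ta_dt40 (x : ℝ) : dt40.val (fun p x => kcg.v p x) (263 / 1586) (1223 / 1586) x = (4068460844527321 / 31915344448000000 + (x - 25 / 32) * (1081709805826397 / 15957672224000000) + (x - 25 / 32) ^ 2 * (-14592505191 / 125769800000)) := by
  simp only [dt40, DT.val, cloR, kgA]
  ring1
theorem tb_dt40 (x : ℝ) : dt40.val (fun p x => kcg.v p x) (109 / 403) (563 / 806) x = (967379303114379 / 8377705856000000 + (x - 25 / 32) * (359203835298663 / 4188852928000000) + (x - 25 / 32) ^ 2 * (11642240241 / 64963600000)) := by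
  simp only [dt40, DT.val, cloR, kgB]
  ring1
theorem ta_dt41 (x : ℝ) : dt41.val (fun p x => kcg.v p x) (109 / 403) (563 / 806) x = (967379303114379 / 8377705856000000 + (x - 25 / 32) * (359203835298663 / 4188852928000000) + (x - 25 / 32) ^ 2 * (11642240241 / 64963600000)) := by
  simp only [dt41, DT.val, sw41, sw41_2, sl41, sl41_2, sv41, sv41_2]
  ((try push_cast); ring1)
theorem tb_dt41 (x : ℝ) : dt41.val (fun p x => kcg.v p x) (3 / 10) (cT (3 / 10)) x = (66501 / 625000 + (x - 25 / 32) * (86973 / 1000000)) := by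
  simp only [dt41, DT.val, sw41, sw41_2, sl41, sl41_2, sv41, sv41_2]
  ((try push_cast); ring1)
theorem ta_dt54 (x : ℝ) : dt54.val (fun p x => kcg.v p x) (263 / 1586) (1223 / 1586) x = (4068460844527321 / 31915344448000000 + (x - 25 / 32) * (1081709805826397 / 15957672224000000) + (x - 25 / 32) ^ 2 * (-14592505191 / 125769800000)) :=
  (DT.val_le (by simp only [Cn.rt_v, Cn.ng_v]; norm_num)).trans (ta_dt40 x)
theorem tb_dt54 (x : ℝ) : dt54.val (fun p x => kcg.v p x) (3 / 10) (cT (3 / 10)) x = (66501 / 625000 + (x - 25 / 32) * (86973 / 1000000)) :=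
  (DT.val_gt (by simp only [Cn.rt_v, Cn.ng_v]; norm_num)).trans (tb_dt41 x)
theorem ta_dt55 (x : ℝ) : dt55.val (fun p x => kcg.v p x) (-1 / 10) (cT (-1 / 10)) x = (563069 / 5000000 + (x - 25 / 32) * (153407 / 1000000)) :=
  (DT.val_le (by simp only [Cn.rt_v, Cn.ng_v]; norm_num)).trans (ta_dt53 x)
theorem tb_dt55 (x : ℝ) : dt55.val (fun p x => kcg.v p x) (3 / 10) (cT (3 / 10)) x = (66501 / 625000 + (x - 25 / 32) * (86973 / 1000000)) :=
  (DT.val_gt (by simp only [Cn.rt_v, Cn.ng_v]; norm_num)).trans (tb_dt54 x)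
theorem ta_dt42 (x : ℝ) : dt42.val (fun p x => kcg.v p x) (3 / 10) (cT (3 / 10)) x = (66501 / 625000 + (x - 25 / 32) * (86973 / 1000000)) := by
  simp only [dt42, DT.val, sw42, sl42, sv42]
  ((try push_cast); ring1)
theorem tb_dt42 (x : ℝ) : dt42.val (fun p x => kcg.v p x) (7 / 20) (cT (7 / 20)) x = (105489 / 1250000 + (x - 25 / 32) * (12959 / 125000)) := by
  simp only [dt42, DT.val, sw42, sl42, sv42]
  ((try push_cast); ring1)
theorem ta_dt43 (x : ℝ) : dt43.val (fun p x => kcg.v p x) (7 / 20) (cT (7 / 20)) x = (105489 / 1250000 + (x - 25 / 32) * (12959 / 125000)) := by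
  simp only [dt43, DT.val, sw43, sl43, sv43]
  ((try push_cast); ring1)
theorem tb_dt43 (x : ℝ) : dt43.val (fun p x => kcg.v p x) (2 / 5) (cT (2 / 5)) x = (574789 / 10000000 + (x - 25 / 32) * (105323 / 1000000)) := by
  simp only [dt43, DT.val, sw43, sl43, sv43]
  ((try push_cast); ring1)
theorem ta_dt56 (x : ℝ) : dt56.val (fun p x => kcg.v p x) (3 / 10) (cT (3 / 10)) x = (66501 / 625000 + (x - 25 / 32) * (86973 / 1000000)) :=
  (DT.val_le (by simp only [Cn.rt_v, Cn.ng_v]; norm_num)).trans (ta_dt42 x)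
theorem tb_dt56 (x : ℝ) : dt56.val (fun p x => kcg.v p x) (2 / 5) (cT (2 / 5)) x = (574789 / 10000000 + (x - 25 / 32) * (105323 / 1000000)) :=
  (DT.val_gt (by simp only [Cn.rt_v, Cn.ng_v]; norm_num)).trans (tb_dt43 x)
theorem ta_dt44 (x : ℝ) : dt44.val (fun p x => kcg.v p x) (2 / 5) (cT (2 / 5)) x = (574789 / 10000000 + (x - 25 / 32) * (105323 / 1000000)) := by
  simp only [dt44, DT.val, sw44, sl44, sv44]
  ((try push_cast); ring1)
theorem tb_dt44 (x : ℝ) : dt44.val (fun p x => kcg.v p x) (9 / 20) (cT (9 / 20)) x = (288181 / 10000000 + (x - 25 / 32) * (14917 / 200000)) := by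
  simp only [dt44, DT.val, sw44, sl44, sv44]
  ((try push_cast); ring1)
theorem ta_dt45 (x : ℝ) : dt45.val (fun p x => kcg.v p x) (9 / 20) (cT (9 / 20)) x = (288181 / 10000000 + (x - 25 / 32) * (14917 / 200000)) := by
  simp only [dt45, DT.val, sw45, sl45, sv45]
  ((try push_cast); ring1)
theorem tb_dt45 (x : ℝ) : dt45.val (fun p x => kcg.v p x) (1 / 2) (cT (1 / 2)) x = (0) := by
  simp only [dt45, DT.val, sw45, sl45, sv45]
  ((try push_cast); ring1)
theorem ta_dt57 (x : ℝ) : dt57.val (fun p x => kcg.v p x) (2 / 5) (cT (2 / 5)) x = (574789 / 10000000 + (x - 25 / 32) * (105323 / 1000000)) :=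
  (DT.val_le (by simp only [Cn.rt_v, Cn.ng_v]; norm_num)).trans (ta_dt44 x)
theorem tb_dt57 (x : ℝ) : dt57.val (fun p x => kcg.v p x) (1 / 2) (cT (1 / 2)) x = (0) :=
  (DT.val_gt (by simp only [Cn.rt_v, Cn.ng_v]; norm_num)).trans (tb_dt45 x)
theorem ta_dt58 (x : ℝ) : dt58.val (fun p x => kcg.v p x) (3 / 10) (cT (3 / 10)) x = (66501 / 625000 + (x - 25 / 32) * (86973 / 1000000)) :=
  (DT.val_le (by simp only [Cn.rt_v, Cn.ng_v]; norm_num)).trans (ta_dt56 x)
theorem tb_dt58 (x : ℝ) : dt58.val (fun p x => kcg.v p x) (1 / 2) (cT (1 / 2)) x = (0) :=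
  (DT.val_gt (by simp only [Cn.rt_v, Cn.ng_v]; norm_num)).trans (tb_dt57 x)
theorem ta_dt59 (x : ℝ) : dt59.val (fun p x => kcg.v p x) (-1 / 10) (cT (-1 / 10)) x = (563069 / 5000000 + (x - 25 / 32) * (153407 / 1000000)) :=
  (DT.val_le (by simp only [Cn.rt_v, Cn.ng_v]; norm_num)).trans (ta_dt55 x)
theorem tb_dt59 (x : ℝ) : dt59.val (fun p x => kcg.v p x) (1 / 2) (cT (1 / 2)) x = (0) :=
  (DT.val_gt (by simp only [Cn.rt_v, Cn.ng_v]; norm_num)).trans (tb_dt58 x)
theorem ta_dt60 (x : ℝ) : dt60.val (fun p x => kcg.v p x) (-1 / 2) (cT (-1 / 2)) x = (0) :=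
  (DT.val_le (by simp only [Cn.rt_v, Cn.ng_v]; norm_num)).trans (ta_dt52 x)
theorem tb_dt60 (x : ℝ) : dt60.val (fun p x => kcg.v p x) (1 / 2) (cT (1 / 2)) x = (0) :=
  (DT.val_gt (by simp only [Cn.rt_v, Cn.ng_v]; norm_num)).trans (tb_dt59 x)
theorem to_dt30 (x : ℝ) : dt30.Ok (fun p x => kcg.v p x) x := trivial
theorem to_dt31 (x : ℝ) : dt31.Ok (fun p x => kcg.v p x) x := trivial
theorem to_dt46 (x : ℝ) : dt46.Ok (fun p x => kcg.v p x) x :=
  DT.ok_node (v := -9 / 20) (by simp only [Cn.rt_v, Cn.ng_v]; norm_num) (by rw [abs_le]; constructor <;> norm_num) rfl (tb_dt30 x) (ta_dt31 x) (by ring1) (to_dt30 x) (to_dt31 x)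
theorem to_dt32 (x : ℝ) : dt32.Ok (fun p x => kcg.v p x) x := trivial
theorem to_dt33 (x : ℝ) : dt33.Ok (fun p x => kcg.v p x) x := trivial
theorem to_dt47 (x : ℝ) : dt47.Ok (fun p x => kcg.v p x) x :=
  DT.ok_node (v := -7 / 20) (by simp only [Cn.rt_v, Cn.ng_v]; norm_num) (by rw [abs_le]; constructor <;> norm_num) rfl (tb_dt32 x) (ta_dt33 x) (by ring1) (to_dt32 x) (to_dt33 x)
theorem to_dt48 (x : ℝ) : dt48.Ok (fun p x => kcg.v p x) x :=
  DT.ok_node (v := -2 / 5) (by simp only [Cn.rt_v, Cn.ng_v]; norm_num) (by rw [abs_le]; constructor <;> norm_num) rfl (tb_dt46 x) (ta_dt47 x) (by ring1) (to_dt46 x) (to_dt47 x)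
theorem to_dt34 (x : ℝ) : dt34.Ok (fun p x => kcg.v p x) x := trivial
theorem to_dt35 (x : ℝ) : dt35.Ok (fun p x => kcg.v p x) x := trivial
theorem to_dt49 (x : ℝ) : dt49.Ok (fun p x => kcg.v p x) x :=
  DT.ok_node (v := -1 / 4) (by simp only [Cn.rt_v, Cn.ng_v]; norm_num) (by rw [abs_le]; constructor <;> norm_num) rfl (tb_dt34 x) (ta_dt35 x) (by ring1) (to_dt34 x) (to_dt35 x)
theorem to_dt36 (x : ℝ) : dt36.Ok (fun p x => kcg.v p x) x := trivial
theorem to_dt37 (x : ℝ) : dt37.Ok (fun p x => kcg.v p x) x := trivial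
theorem to_dt50 (x : ℝ) : dt50.Ok (fun p x => kcg.v p x) x :=
  DT.ok_node (v := -3 / 20) (by simp only [Cn.rt_v, Cn.ng_v]; norm_num) (by rw [abs_le]; constructor <;> norm_num) rfl (tb_dt36 x) (ta_dt37 x) (by ring1) (to_dt36 x) (to_dt37 x)
theorem to_dt51 (x : ℝ) : dt51.Ok (fun p x => kcg.v p x) x :=
  DT.ok_node (v := -1 / 5) (by simp only [Cn.rt_v, Cn.ng_v]; norm_num) (by rw [abs_le]; constructor <;> norm_num) rfl (tb_dt49 x) (ta_dt50 x) (by ring1) (to_dt49 x) (to_dt50 x)
theorem to_dt52 (x : ℝ) : dt52.Ok (fun p x => kcg.v p x) x :=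
  DT.ok_node (v := -3 / 10) (by simp only [Cn.rt_v, Cn.ng_v]; norm_num) (by rw [abs_le]; constructor <;> norm_num) rfl (tb_dt48 x) (ta_dt51 x) (by ring1) (to_dt48 x) (to_dt51 x)
theorem to_dt38 (x : ℝ) : dt38.Ok (fun p x => kcg.v p x) x := trivial
theorem to_dt39 (x : ℝ) : dt39.Ok (fun p x => kcg.v p x) x := trivial
theorem to_dt53 (x : ℝ) : dt53.Ok (fun p x => kcg.v p x) x :=
  DT.ok_node (v := 1 / 10) (by simp only [Cn.rt_v, Cn.ng_v]; norm_num) (by rw [abs_le]; constructor <;> norm_num) rfl (tb_dt38 x) (ta_dt39 x) (by ring1) (to_dt38 x) (to_dt39 x)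
theorem to_dt40 (x : ℝ) : dt40.Ok (fun p x => kcg.v p x) x := trivial
theorem to_dt41 (x : ℝ) : dt41.Ok (fun p x => kcg.v p x) x := trivial
theorem to_dt54 (x : ℝ) : dt54.Ok (fun p x => kcg.v p x) x :=
  DT.ok_node (v := 109 / 403) (by simp only [Cn.rt_v, Cn.ng_v]; norm_num) (by rw [abs_le]; constructor <;> norm_num) ctB (tb_dt40 x) (ta_dt41 x) (by ring1) (to_dt40 x) (to_dt41 x)
theorem to_dt55 (x : ℝ) : dt55.Ok (fun p x => kcg.v p x) x :=
  DT.ok_node (v := 263 / 1586) (by simp only [Cn.rt_v, Cn.ng_v]; norm_num) (by rw [abs_le]; constructor <;> norm_num) ctA (tb_dt53 x) (ta_dt54 x) (by ring1) (to_dt53 x) (to_dt54 x)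
theorem to_dt42 (x : ℝ) : dt42.Ok (fun p x => kcg.v p x) x := trivial
theorem to_dt43 (x : ℝ) : dt43.Ok (fun p x => kcg.v p x) x := trivial
theorem to_dt56 (x : ℝ) : dt56.Ok (fun p x => kcg.v p x) x :=
  DT.ok_node (v := 7 / 20) (by simp only [Cn.rt_v, Cn.ng_v]; norm_num) (by rw [abs_le]; constructor <;> norm_num) rfl (tb_dt42 x) (ta_dt43 x) (by ring1) (to_dt42 x) (to_dt43 x)
theorem to_dt44 (x : ℝ) : dt44.Ok (fun p x => kcg.v p x) x := trivial
theorem to_dt45 (x : ℝ) : dt45.Ok (fun p x => kcg.v p x) x := trivial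
theorem to_dt57 (x : ℝ) : dt57.Ok (fun p x => kcg.v p x) x :=
  DT.ok_node (v := 9 / 20) (by simp only [Cn.rt_v, Cn.ng_v]; norm_num) (by rw [abs_le]; constructor <;> norm_num) rfl (tb_dt44 x) (ta_dt45 x) (by ring1) (to_dt44 x) (to_dt45 x)
theorem to_dt58 (x : ℝ) : dt58.Ok (fun p x => kcg.v p x) x :=
  DT.ok_node (v := 2 / 5) (by simp only [Cn.rt_v, Cn.ng_v]; norm_num) (by rw [abs_le]; constructor <;> norm_num) rfl (tb_dt56 x) (ta_dt57 x) (by ring1) (to_dt56 x) (to_dt57 x)
theorem to_dt59 (x : ℝ) : dt59.Ok (fun p x => kcg.v p x) x :=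
  DT.ok_node (v := 3 / 10) (by simp only [Cn.rt_v, Cn.ng_v]; norm_num) (by rw [abs_le]; constructor <;> norm_num) rfl (tb_dt55 x) (ta_dt58 x) (by ring1) (to_dt55 x) (to_dt58 x)
theorem to_dt60 (x : ℝ) : dt60.Ok (fun p x => kcg.v p x) x :=
  DT.ok_node (v := -1 / 10) (by simp only [Cn.rt_v, Cn.ng_v]; norm_num) (by rw [abs_le]; constructor <;> norm_num) rfl (tb_dt52 x) (ta_dt59 x) (by ring1) (to_dt52 x) (to_dt59 x)
theorem dok (x : ℝ) : dd.Ok x := ⟨ko_dt29 x, fun p h => kfe h, to_dt60 x⟩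
theorem K0_ (x : ℝ) : ∀ q y, OnC (0 : Fin 5) q y → TightK (tyO q) q (fun p => dd.kf.v p x) (c1n y) y (tK 0 q y x) := by
  refine K0_of (R := fun q y => tK 0 q y x) (kc := fun p => kcg.v p x) ?_ ?_ ?_
  · intro y h
    show tK 0 0 y x = _
    ·
      rw [← (atB00 h).K]
      show kf0q0.v y x = _
      simp only [kf0q0, kf0q0_9, kf0q0_12, c1g_v]
      ((try push_cast); (try simp only [mul_inv]); (try ring_nf))
  · intro y h
    show tK 0 1 y x = _
    ·
      rw [← (atB01 h).K]
      show kf0q1.v y x = _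
      simp only [kf0q1, kf0q1_10, c1g_v]
      ((try push_cast); (try simp only [mul_inv]); (try ring_nf))
  · intro y h
    show tK 0 2 y x = _
    ·
      have ey := yag_v h.1.nonneg (h.2 rfl)
      rw [← (atB02 h).K]
      show kfc02.v (c1n y) x = _
      simp only [kfc02, c1g_v, ey]
      ((try push_cast); (try simp only [mul_inv]); (try ring_nf))
theorem L0_ (x : ℝ) : ∀ q y, OnC (0 : Fin 5) q y → TightL (tyO q) (fun p c => dd.TX.val dd.kf.v p c x) (c1n y) y (tL 0 q y x) := by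
  refine L0_of (R := fun q y => tL 0 q y x) (tx := fun p c => txg.v p c x) txe ?_ ?_ ?_
  · intro y h
    show tL 0 0 y x = _
    ·
      rw [← (atB00 h).L]
      show l0q0.v y x = _
      simp only [l0q0, c1g_v]
      ((try push_cast); (try simp only [mul_inv]); (try ring_nf))
  · intro y h
    show tL 0 1 y x = _
    ·
      rw [← (atB01 h).L]
      show l0q1.v y x = _
      simp only [l0q1, c1g_v]
      ((try push_cast); (try simp only [mul_inv]); (try ring_nf))
  · intro y h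
    show tL 0 2 y x = _
    ·
      have ey := yag_v h.1.nonneg (h.2 rfl)
      rw [← (atB02 h).L]
      show lc02.v (c1n y) x = _
      simp only [lc02, lc02_7, lc02_8, c1g_v, ey]
      ((try push_cast); (try simp only [mul_inv]); (try ring_nf))
theorem Kn_ (x : ℝ) : ∀ q y, InQ q y → TightK (tyN q) q (fun p => dd.kf.v p x) (c3n y) y (tK (Fin.last 4) q y x) := by
  refine Kn_of (R := fun q y => tK 4 q y x) (kc := fun p => kcg.v p x) ?_ ?_ ?_ ?_
  · intro y h
    show tK 4 0 y x = _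
    ·
      rw [← (atB40 (onc h (by decide))).K]
      show kf4q0.v y x = _
      simp only [kf4q0, c3g_v]
      ((try push_cast); (try simp only [mul_inv]); (try ring_nf))
  · intro y h
    show tK 4 1 y x = _
    ·
      rw [← (atB41 (onc h (by decide))).K]
      show kf4q1.v y x = _
      simp only [kf4q1, c3g_v]
      ((try push_cast); (try simp only [mul_inv]); (try ring_nf))
  · intro y h
    show tK 4 2 y x = _
    ·
      rw [← (atB42 (onc h (by decide))).K]
      show kf4q2.v y x = _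
      simp only [kf4q2, c3g_v]
      ((try push_cast); (try simp only [mul_inv]); (try ring_nf))
  · intro y h
    show tK 4 3 y x = _
    ·
      have ey := ycg_v h.nonneg h.le_two
      rw [← (atB43 (onc h (by decide))).K]
      show kfc43.v (c3n y) x = _
      simp only [kfc43, c3g_v, ey]
      ((try push_cast); (try simp only [mul_inv]); (try ring_nf))
theorem Ln_ (x : ℝ) : ∀ q y, InQ q y → TightL (tyN q) (fun p c => dd.TX.val dd.kf.v p c x) (c3n y) y (tL (Fin.last 4) q y x) := by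
  refine Ln_of (R := fun q y => tL 4 q y x) (tx := fun p c => txg.v p c x) txe ?_ ?_ ?_ ?_
  · intro y h
    show tL 4 0 y x = _
    ·
      rw [← (atB40 (onc h (by decide))).L]
      show l4q0.v y x = _
      simp only [l4q0, l4q0_6, l4q0_7, l4q0_8, c3g_v]
      ((try push_cast); (try simp only [mul_inv]); (try ring_nf))
  · intro y h
    show tL 4 1 y x = _
    ·
      rw [← (atB41 (onc h (by decide))).L]
      show l4q1.v y x = _
      simp only [l4q1, l4q1_7, l4q1_8, l4q1_9, c3g_v]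
      ((try push_cast); (try simp only [mul_inv]); (try ring_nf))
  · intro y h
    show tL 4 2 y x = _
    ·
      rw [← (atB42 (onc h (by decide))).L]
      show l4q2.v y x = _
      simp only [l4q2, l4q2_7, l4q2_8, l4q2_9, l4q2_12, l4q2_14, c3g_v]
      ((try push_cast); (try simp only [mul_inv]); (try ring_nf))
  · intro y h
    show tL 4 3 y x = _
    ·
      have ey := ycg_v h.nonneg h.le_two
      rw [← (atB43 (onc h (by decide))).L]
      show lc43.v (c3n y) x = _
      simp only [lc43, lc43_7, lc43_8, lc43_9, lc43_12, lc43_14, c3g_v, ey]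
      ((try push_cast); (try simp only [mul_inv]); (try ring_nf))
theorem f0_ : ∀ q y, InQ q y → (ff q).f.v y = crv PP 1 q y
  | 0, y, _ => ecv1q0.symm
  | 1, y, _ => ecv1q1.symm
  | 2, y, _ => ecv1q2.symm
  | 3, y, h => (ecv1q3 h.1).symm
theorem fn_ : ∀ q y, InQ q y → (fl q).f.v y = crv PP 3 q y
  | 0, y, _ => ecv3q0.symm
  | 1, y, _ => ecv3q1.symm
  | 2, y, _ => ecv3q2.symm
  | 3, y, h => (ecv3q3 h.1).symm
theorem yK00 {y x : ℝ} (h : OnC (0 : Fin 5) 0 y) : tK 0 0 y x = kf0q0.v y x := (atB00 h).K.symm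
theorem yK10 {y x : ℝ} (h : InQ 0 y) : tK 1 0 y x = kf1q0.v y x := (atB10 (onc h (by decide))).K.symm
theorem yK01 {y x : ℝ} (h : OnC (0 : Fin 5) 1 y) : tK 0 1 y x = kf0q1.v y x := (atB01 h).K.symm
theorem yK11 {y x : ℝ} (h : InQ 1 y) : tK 1 1 y x = kf1q1.v y x := (atB11 (onc h (by decide))).K.symm
theorem yK02 {y x : ℝ} (h : OnC (0 : Fin 5) 2 y) : tK 0 2 y x = kf0q2.v y x := by
  rw [← (atB02 h).K]
  show kfc02.v (c1n y) x = _
  have ey := yag_v h.1.nonneg (h.2 rfl)
  simp only [kfc02, kf0q2, ey, c1g_v, c3g_v, swg_v]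
  ((try push_cast); (try ring_nf))
theorem yK12 {y x : ℝ} (h : InQ 2 y) : tK 1 2 y x = kf1q2.v y x := (atB12 (onc h (by decide))).K.symm
theorem yK40 {y x : ℝ} (h : InQ 0 y) : tK 4 0 y x = kf4q0.v y x := (atB40 (onc h (by decide))).K.symm
theorem yK30 {y x : ℝ} (h : InQ 0 y) : tK 3 0 y x = kf3q0.v y x := (atB30 (onc h (by decide))).K.symm
theorem yK41 {y x : ℝ} (h : InQ 1 y) : tK 4 1 y x = kf4q1.v y x := (atB41 (onc h (by decide))).K.symm
theorem yK31 {y x : ℝ} (h : InQ 1 y) : tK 3 1 y x = kf3q1.v y x := (atB31 (onc h (by decide))).K.symm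
theorem yK42 {y x : ℝ} (h : InQ 2 y) : tK 4 2 y x = kf4q2.v y x := (atB42 (onc h (by decide))).K.symm
theorem yK32 {y x : ℝ} (h : InQ 2 y) : tK 3 2 y x = kf3q2.v y x := (atB32 (onc h (by decide))).K.symm
theorem yK43 {y x : ℝ} (h : InQ 3 y) : tK 4 3 y x = kf4q3.v y x := by
  rw [← (atB43 (onc h (by decide))).K]
  show kfc43.v (c3n y) x = _
  have ey := ycg_v h.nonneg h.le_two
  simp only [kfc43, kf4q3, ey, c1g_v, c3g_v, swg_v]
  ((try push_cast); (try ring_nf))
theorem yK33 {y x : ℝ} (h : InQ 3 y) : tK 3 3 y x = kf3q3.v y x := by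
  rw [← (atB33 (onc h (by decide))).K]
  show kfc33.v (c3n y) x = _
  have ey := ycg_v h.nonneg h.le_two
  simp only [kfc33, kfc33_11, kf3q3, kf3q3_4, cv3r, ey, c1g_v, c3g_v, swg_v]
  ((try push_cast); (try ring_nf))
theorem yL00 {y x : ℝ} (h : OnC (0 : Fin 5) 0 y) : tL 0 0 y x = l0q0.v y x := (atB00 h).L.symm
theorem yL10 {y x : ℝ} (h : InQ 0 y) : tL 1 0 y x = l1q0.v y x := (atB10 (onc h (by decide))).L.symm
theorem yL01 {y x : ℝ} (h : OnC (0 : Fin 5) 1 y) : tL 0 1 y x = l0q1.v y x := (atB01 h).L.symm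
theorem yL11 {y x : ℝ} (h : InQ 1 y) : tL 1 1 y x = l1q1.v y x := (atB11 (onc h (by decide))).L.symm
theorem yL02 {y x : ℝ} (h : OnC (0 : Fin 5) 2 y) : tL 0 2 y x = l0q2.v y x := by
  rw [← (atB02 h).L]
  show lc02.v (c1n y) x = _
  have ey := yag_v h.1.nonneg (h.2 rfl)
  simp only [lc02, lc02_7, lc02_8, l0q2, l0q2_7, l0q2_8, ey, c1g_v, c3g_v, swg_v]
  ((try push_cast); (try ring_nf))
theorem yL12 {y x : ℝ} (h : InQ 2 y) : tL 1 2 y x = l1q2.v y x := (atB12 (onc h (by decide))).L.symm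
theorem yL40 {y x : ℝ} (h : InQ 0 y) : tL 4 0 y x = l4q0.v y x := (atB40 (onc h (by decide))).L.symm
theorem yL30 {y x : ℝ} (h : InQ 0 y) : tL 3 0 y x = l3q0.v y x := (atB30 (onc h (by decide))).L.symm
theorem yL41 {y x : ℝ} (h : InQ 1 y) : tL 4 1 y x = l4q1.v y x := (atB41 (onc h (by decide))).L.symm
theorem yL31 {y x : ℝ} (h : InQ 1 y) : tL 3 1 y x = l3q1.v y x := (atB31 (onc h (by decide))).L.symm
theorem yL42 {y x : ℝ} (h : InQ 2 y) : tL 4 2 y x = l4q2.v y x := (atB42 (onc h (by decide))).L.symm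
theorem yL32 {y x : ℝ} (h : InQ 2 y) : tL 3 2 y x = l3q2.v y x := (atB32 (onc h (by decide))).L.symm
theorem yL43 {y x : ℝ} (h : InQ 3 y) : tL 4 3 y x = l4q3.v y x := by
  rw [← (atB43 (onc h (by decide))).L]
  show lc43.v (c3n y) x = _
  have ey := ycg_v h.nonneg h.le_two
  simp only [lc43, lc43_7, lc43_8, lc43_9, lc43_12, lc43_14, l4q3, l4q3_7, l4q3_8, l4q3_9, l4q3_12, l4q3_14, ey, c1g_v, c3g_v, swg_v]
  ((try push_cast); (try ring_nf))
theorem yL33 {y x : ℝ} (h : InQ 3 y) : tL 3 3 y x = l3q3.v y x := by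
  rw [← (atB33 (onc h (by decide))).L]
  show lc33.v (c3n y) x = _
  have ey := ycg_v h.nonneg h.le_two
  simp only [lc33, lc33_11, l3q3, l3q3_4, cv3r, ey, c1g_v, c3g_v, swg_v]
  ((try push_cast); (try ring_nf))
theorem sK0_ (x : ℝ) : ∀ q y, OnC (0 : Fin 5) q y → c1n y < crv PP 1 q y →
    (ff q).SK.v y x * (crv PP 1 q y - c1n y) = tK 1 q y x - tK 0 q y x := by
  intro q y h hlt
  rcases onC_q h with rfl | rfl | rfl
  · rw [yK10 h.1, yK00 h]
    rw [ecv1q0, ← c1g_v] at hlt ⊢
    have hd : 0 < cv1m.v y - c1g.v y := sub_pos.2 hlt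
    have hi := inv_mul_cancel₀ hd.ne'
    show skf0.v y x * _ = _
    simp only [skf0, kf1q0]
    (try push_cast)
    linear_combination (c1g.v y * bf1q0.v y x - kf0q0.v y x) * hi
  · rw [yK11 h.1, yK01 h]
    rw [ecv1q1, ← c1g_v] at hlt ⊢
    have hd : 0 < cv1m.v y - c1g.v y := sub_pos.2 hlt
    have hi := inv_mul_cancel₀ hd.ne'
    show skf1.v y x * _ = _
    simp only [skf1, kf1q1]
    (try push_cast)
    linear_combination (c1g.v y * bf1q1.v y x - kf0q1.v y x) * hi
  · rw [yK12 h.1, yK02 h]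
    rw [ecv1q2, ← c1g_v] at hlt ⊢
    have hd : 0 < cv1p.v y - c1g.v y := sub_pos.2 hlt
    have hi := inv_mul_cancel₀ hd.ne'
    have hb : |c1g.v y| ≤ 1 / 2 := by rw [c1g_v]; exact bnd_O h
    have eo := odd (x := x) hb
    show skf2.v y x * _ = _
    simp only [skf2, kf1q2, kf0q2, eo]
    (try push_cast)
    linear_combination (c1g.v y * (bf1q2.v y x - 1) + (y - 1) * kcg.v (c1g.v y) x) * hi
theorem sX0_ (x : ℝ) : ∀ q y, OnC (0 : Fin 5) q y → c1n y < crv PP 1 q y →
    (ff q).SX.v y x * (crv PP 1 q y - c1n y) = tL 1 q y x - tL 0 q y x := by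
  intro q y h hlt
  rcases onC_q h with rfl | rfl | rfl
  · rw [yL10 h.1, yL00 h]
    rw [ecv1q0, ← c1g_v] at hlt ⊢
    have hd : 0 < cv1m.v y - c1g.v y := sub_pos.2 hlt
    have hi := inv_mul_cancel₀ hd.ne'
    show sxf0.v y x * _ = _
    simp only [sxf0]
    (try push_cast)
    linear_combination (l1q0.v y x - l0q0.v y x) * hi
  · rw [yL11 h.1, yL01 h]
    rw [ecv1q1, ← c1g_v] at hlt ⊢
    have hd : 0 < cv1m.v y - c1g.v y := sub_pos.2 hlt
    have hi := inv_mul_cancel₀ hd.ne'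
    show sxf1.v y x * _ = _
    simp only [sxf1]
    (try push_cast)
    linear_combination (l1q1.v y x - l0q1.v y x) * hi
  · rw [yL12 h.1, yL02 h]
    rw [ecv1q2, ← c1g_v] at hlt ⊢
    have hd : 0 < cv1p.v y - c1g.v y := sub_pos.2 hlt
    have hi := inv_mul_cancel₀ hd.ne'
    show sxf2.v y x * _ = _
    simp only [sxf2]
    (try push_cast)
    linear_combination (l1q2.v y x - l0q2.v y x) * hi
theorem sKn_ (x : ℝ) : ∀ q y, InQ q y → crv PP 3 q y < c3n y →
    (fl q).SK.v y x * (c3n y - crv PP 3 q y) = tK 4 q y x - tK 3 q y x := by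
  intro q y h hlt
  match q, h with
  | 0, h =>
    rw [yK40 h, yK30 h]
    rw [ecv3q0, ← c3g_v] at hlt ⊢
    have hd : 0 < c3g.v y - cv3m.v y := sub_pos.2 hlt
    have hi := inv_mul_cancel₀ hd.ne'
    show skl0.v y x * _ = _
    simp only [skl0, kf3q0]
    (try push_cast)
    linear_combination (kf4q0.v y x - c3g.v y * bf3q0.v y x) * hi
  | 1, h =>
    rw [yK41 h, yK31 h]
    rw [ecv3q1, ← c3g_v] at hlt ⊢
    have hd : 0 < c3g.v y - cv3m.v y := sub_pos.2 hlt
    have hi := inv_mul_cancel₀ hd.ne'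
    show skl1.v y x * _ = _
    simp only [skl1, kf3q1]
    (try push_cast)
    linear_combination (kf4q1.v y x - c3g.v y * bf3q1.v y x) * hi
  | 2, h =>
    rw [yK42 h, yK32 h]
    rw [ecv3q2, ← c3g_v] at hlt ⊢
    have hd : 0 < c3g.v y - cv3p.v y := sub_pos.2 hlt
    have hi := inv_mul_cancel₀ hd.ne'
    show skl2.v y x * _ = _
    simp only [skl2, kf3q2]
    (try push_cast)
    linear_combination (kf4q2.v y x - c3g.v y * bf3q2.v y x) * hi
  | 3, h =>
    rw [yK43 h, yK33 h]
    rw [ecv3q3 h.1, ← c3g_v] at hlt ⊢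
    have hd : 0 < c3g.v y - cv3r.v y := sub_pos.2 hlt
    have hi := inv_mul_cancel₀ hd.ne'
    have hB : kf3q3.v y x = cv3r.v y * bf3q3.v y x := by
      simp only [kf3q3, kf3q3_4, bf3q3, bf3q3_3]
    show skl3.v y x * _ = _
    simp only [skl3, hB]
    (try push_cast)
    linear_combination (kf4q3.v y x - c3g.v y * bf3q3.v y x) * hi
theorem sXn_ (x : ℝ) : ∀ q y, InQ q y → crv PP 3 q y < c3n y →
    (fl q).SX.v y x * (c3n y - crv PP 3 q y) = tL 4 q y x - tL 3 q y x := by
  intro q y h hlt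
  match q, h with
  | 0, h =>
    rw [yL40 h, yL30 h]
    rw [ecv3q0, ← c3g_v] at hlt ⊢
    have hd : 0 < c3g.v y - cv3m.v y := sub_pos.2 hlt
    have hi := inv_mul_cancel₀ hd.ne'
    show sxl0.v y x * _ = _
    simp only [sxl0]
    (try push_cast)
    linear_combination (l4q0.v y x - l3q0.v y x) * hi
  | 1, h =>
    rw [yL41 h, yL31 h]
    rw [ecv3q1, ← c3g_v] at hlt ⊢
    have hd : 0 < c3g.v y - cv3m.v y := sub_pos.2 hlt
    have hi := inv_mul_cancel₀ hd.ne'
    show sxl1.v y x * _ = _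
    simp only [sxl1]
    (try push_cast)
    linear_combination (l4q1.v y x - l3q1.v y x) * hi
  | 2, h =>
    rw [yL42 h, yL32 h]
    rw [ecv3q2, ← c3g_v] at hlt ⊢
    have hd : 0 < c3g.v y - cv3p.v y := sub_pos.2 hlt
    have hi := inv_mul_cancel₀ hd.ne'
    show sxl2.v y x * _ = _
    simp only [sxl2]
    (try push_cast)
    linear_combination (l4q2.v y x - l3q2.v y x) * hi
  | 3, h =>
    rw [yL43 h, yL33 h]
    rw [ecv3q3 h.1, ← c3g_v] at hlt ⊢
    have hd : 0 < c3g.v y - cv3r.v y := sub_pos.2 hlt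
    have hi := inv_mul_cancel₀ hd.ne'
    show sxl3.v y x * _ = _
    simp only [sxl3]
    (try push_cast)
    linear_combination (l4q3.v y x - l3q3.v y x) * hi
theorem kn_ (x : ℝ) : ∀ X, |X| ≤ vv.k1.v → kcg.v (-X) x = -(k0c.v x * X) := by
  intro X h
  have h : |X| ≤ 1 / 16 := by
    refine h.trans_eq ?_
    show (Cn.rt 1 16).v = _
    rw [Cn.rt_v]
    norm_num
  obtain ⟨h1, h2⟩ := abs_le.1 h
  rw [kcl7 (p := -X) (by linarith) (by linarith)]
  simp only [k0c]
  push_cast
  ring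
theorem tvm {p c x : ℝ} (h1 : -1 / 10 ≤ p) (h2 : p ≤ 1 / 10) : dt60.val (fun p x => kcg.v p x) p c x = (157419 / 1250000 + (x - 25 / 32) * (205511 / 1000000)) + (39319 / 500000 + (x - 25 / 32) * (-5671 / 25000)) * p + (-3411 / 6250 + (x - 25 / 32) * (-18697 / 2500)) * p ^ 2 := by
  rcases eq_or_lt_of_le h1 with h | h1
  · subst h
    refine (DT.val_le (by simp only [Cn.rt_v, Cn.ng_v]; push_cast; linarith)).trans ?_
    refine (DT.val_gt (by simp only [Cn.rt_v, Cn.ng_v]; push_cast; linarith)).trans ?_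
    refine (DT.val_gt (by simp only [Cn.rt_v, Cn.ng_v]; push_cast; linarith)).trans ?_
    refine (DT.val_gt (by simp only [Cn.rt_v, Cn.ng_v]; push_cast; linarith)).trans ?_
    simp only [dt37, DT.val, sw37, sl37, sv37]
    ((try push_cast); ring1)
  ·
    refine (DT.val_gt (by simp only [Cn.rt_v, Cn.ng_v]; push_cast; linarith)).trans ?_
    refine (DT.val_le (by simp only [Cn.rt_v, Cn.ng_v]; push_cast; linarith)).trans ?_
    refine (DT.val_le (by simp only [Cn.rt_v, Cn.ng_v]; push_cast; linarith)).trans ?_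
    refine (DT.val_le (by simp only [Cn.rt_v, Cn.ng_v]; push_cast; linarith)).trans ?_
    simp only [dt38, DT.val, sw38, sl38, sv38]
    ((try push_cast); ring1)
theorem tn_ (x : ℝ) : ∀ X, |X| ≤ vv.k1.v → dd.tF x (-X) - dd.tF x X = m0c.v x * X := by
  intro X h
  have h : |X| ≤ 1 / 16 := by
    refine h.trans_eq ?_
    show (Cn.rt 1 16).v = _
    rw [Cn.rt_v]
    norm_num
  obtain ⟨h1, h2⟩ := abs_le.1 h
  show dt60.val (fun p x => kcg.v p x) (-X) (cT (-X)) x - dt60.val (fun p x => kcg.v p x) X (cT X) x = _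
  rw [tvm (by linarith) (by linarith), tvm (by linarith) (by linarith)]
  simp only [m0c]
  push_cast
  ring
theorem vK_ (x : ℝ) : ∀ y, InQ 2 y → tK 1 2 y x = crv PP 1 2 y * bf1q2.v y x := by
  intro y h
  rw [yK12 h, ecv1q2]
  simp only [kf1q2]
theorem vX_ (x : ℝ) : ∀ y, InQ 2 y → tL 1 2 y x = crv PP 1 2 y * bx1q2.v y x := by
  intro y h
  rw [yL12 h, ecv1q2]
  simp only [l1q2]
theorem n0_rK (y x : ℝ) : n0b.v y x = (1 - (y - 1) * k0c.v x) := by
  simp only [n0b, k0c]
  all_goals (try push_cast)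
  all_goals (try ring)
theorem rK_ (x : ℝ) : ∀ y, OnC (0 : Fin 5) 2 y → c1n y < crv PP 1 2 y →
    rhk.v y x * (crv PP 1 2 y - c1n y) = crv PP 1 2 y * (bf1q2.v y x - (1 - (y - 1) * k0c.v x)) := by
  intro y h hlt
  rw [ecv1q2, ← c1g_v] at hlt ⊢
  have hd : 0 < cv1p.v y - c1g.v y := sub_pos.2 hlt
  have hi := inv_mul_cancel₀ hd.ne'
  rw [← n0_rK]
  simp only [rhk]
  linear_combination ((bf1q2.v y x - n0b.v y x) * cv1p.v y) * hi
theorem n0_rX (y x : ℝ) : n0x.v y x = m0c.v x := by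
  simp only [n0x, m0c]
  all_goals (try push_cast)
  all_goals (try ring)
theorem rX_ (x : ℝ) : ∀ y, OnC (0 : Fin 5) 2 y → c1n y < crv PP 1 2 y →
    rhx.v y x * (crv PP 1 2 y - c1n y) = crv PP 1 2 y * (bx1q2.v y x - m0c.v x) := by
  intro y h hlt
  rw [ecv1q2, ← c1g_v] at hlt ⊢
  have hd : 0 < cv1p.v y - c1g.v y := sub_pos.2 hlt
  have hi := inv_mul_cancel₀ hd.ne'
  rw [← n0_rX]
  simp only [rhx]
  linear_combination ((bx1q2.v y x - n0x.v y x) * cv1p.v y) * hi
theorem flat_ (x : ℝ) : ∀ y, InQ 2 y → vv.ya.v ≤ y → y ≤ vv.yb.v → bf1q2.v y x = 1 - (y - 1) * k0c.v x ∧ bx1q2.v y x = m0c.v x := by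
  intro y h h1 h2
  have ea : vv.ya.v = 577 / 500 := by
    show (Cn.rt 577 500).v = _
    rw [Cn.rt_v]
    norm_num
  have eb : vv.yb.v = 231 / 200 := by
    show (Cn.rt 231 200).v = _
    rw [Cn.rt_v]
    norm_num
  rw [ea] at h1
  rw [eb] at h2
  constructor
  · simp only [bf1q2, bf1q2_3, k0c]
    rcases eq_or_lt_of_le h1 with g | h1
    · subst g
      ((try push_cast); (repeat first | rw [if_pos (by linarith)] | rw [if_neg (by linarith)] | erw [if_pos (by linarith)] | erw [if_neg (by linarith)]); (try push_cast); (try ring1))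
    rcases eq_or_lt_of_le h2 with g | h2
    · subst g
      ((try push_cast); (repeat first | rw [if_pos (by linarith)] | rw [if_neg (by linarith)] | erw [if_pos (by linarith)] | erw [if_neg (by linarith)]); (try push_cast); (try ring1))
    · ((try push_cast); (repeat first | rw [if_pos (by linarith)] | rw [if_neg (by linarith)] | erw [if_pos (by linarith)] | erw [if_neg (by linarith)]); (try push_cast); (try ring1))
  · simp only [bx1q2, bx1q2_3, m0c]
    rcases eq_or_lt_of_le h1 with g | h1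
    · subst g
      ((try push_cast); (repeat first | rw [if_pos (by linarith)] | rw [if_neg (by linarith)] | erw [if_pos (by linarith)] | erw [if_neg (by linarith)]); (try push_cast); (try ring1))
    rcases eq_or_lt_of_le h2 with g | h2
    · subst g
      ((try push_cast); (repeat first | rw [if_pos (by linarith)] | rw [if_neg (by linarith)] | erw [if_pos (by linarith)] | erw [if_neg (by linarith)]); (try push_cast); (try ring1))
    · ((try push_cast); (repeat first | rw [if_pos (by linarith)] | rw [if_neg (by linarith)] | erw [if_pos (by linarith)] | erw [if_neg (by linarith)]); (try push_cast); (try ring1))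
theorem abk_ (x : ℝ) : ∀ y, InQ 2 y → vv.yb.v ≤ y → y ≤ vv.yk.v → bf1q2.v y x = 1 - (y - 1) * k0c.v x + sbk.v x * (y - vv.yb.v) ∧
    bx1q2.v y x = m0c.v x + sbx.v x * (y - vv.yb.v) := by
  intro y h h1 h2
  have eb : vv.yb.v = 231 / 200 := by
    show (Cn.rt 231 200).v = _
    rw [Cn.rt_v]
    norm_num
  have ek : vv.yk.v = 166 / 125 := by
    show (Cn.rt 166 125).v = _
    rw [Cn.rt_v]
    norm_num
  rw [eb] at h1 ⊢
  rw [ek] at h2
  constructor
  · simp only [bf1q2, bf1q2_3, k0c, sbk]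
    rcases eq_or_lt_of_le h1 with g | h1
    · subst g
      ((try push_cast); (repeat first | rw [if_pos (by linarith)] | rw [if_neg (by linarith)] | erw [if_pos (by linarith)] | erw [if_neg (by linarith)]); (try push_cast); (try ring1))
    rcases eq_or_lt_of_le h2 with g | h2
    · subst g
      ((try push_cast); (repeat first | rw [if_pos (by linarith)] | rw [if_neg (by linarith)] | erw [if_pos (by linarith)] | erw [if_neg (by linarith)]); (try push_cast); (try ring1))
    · ((try push_cast); (repeat first | rw [if_pos (by linarith)] | rw [if_neg (by linarith)] | erw [if_pos (by linarith)] | erw [if_neg (by linarith)]); (try push_cast); (try ring1))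
  · simp only [bx1q2, bx1q2_3, m0c, sbx]
    rcases eq_or_lt_of_le h1 with g | h1
    · subst g
      ((try push_cast); (repeat first | rw [if_pos (by linarith)] | rw [if_neg (by linarith)] | erw [if_pos (by linarith)] | erw [if_neg (by linarith)]); (try push_cast); (try ring1))
    rcases eq_or_lt_of_le h2 with g | h2
    · subst g
      ((try push_cast); (repeat first | rw [if_pos (by linarith)] | rw [if_neg (by linarith)] | erw [if_pos (by linarith)] | erw [if_neg (by linarith)]); (try push_cast); (try ring1))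
    · ((try push_cast); (repeat first | rw [if_pos (by linarith)] | rw [if_neg (by linarith)] | erw [if_pos (by linarith)] | erw [if_neg (by linarith)]); (try push_cast); (try ring1))
theorem ka_dt61 (x : ℝ) : dt61.kv (-263 / 1586) x = (245194474877 / 159576722240000000 + (x - 25 / 32) * (2155827367973 / 638306888960000) + (x - 25 / 32) ^ 2 * (-14592505191 / 125769800000)) := by
  simp only [dt61, DT.kv, sw61, sw61_2, sl61, sl61_2, sv61, sv61_2]
  ((try push_cast); ring1)
theorem kb_dt61 (x : ℝ) : dt61.kv (-3 / 20) x = (-36250075238051 / 210085873920000000 + (x - 25 / 32) * (-122472949723 / 840343495680000) + (x - 25 / 32) ^ 2 * (-3694709699 / 55192800000)) := by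
  simp only [dt61, DT.kv, sw61, sw61_2, sl61, sl61_2, sv61, sv61_2]
  ((try push_cast); ring1)
theorem ka_dt62 (x : ℝ) : dt62.kv (-3 / 20) x = (-36250075238051 / 210085873920000000 + (x - 25 / 32) * (-122472949723 / 840343495680000) + (x - 25 / 32) ^ 2 * (-3694709699 / 55192800000)) := by
  simp only [dt62, DT.kv, sw62, sw62_2, sl62, sl62_2, sv62, sv62_2]
  ((try push_cast); ring1)
theorem kb_dt62 (x : ℝ) : dt62.kv (-1 / 10) x = (0) := by
  simp only [dt62, DT.kv, sw62, sw62_2, sl62, sl62_2, sv62, sv62_2]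
  ((try push_cast); ring1)
theorem ka_dt66 (x : ℝ) : dt66.kv (-263 / 1586) x = (245194474877 / 159576722240000000 + (x - 25 / 32) * (2155827367973 / 638306888960000) + (x - 25 / 32) ^ 2 * (-14592505191 / 125769800000)) :=
  (DT.kv_le (by simp only [Cn.rt_v, Cn.ng_v]; norm_num)).trans (ka_dt61 x)
theorem kb_dt66 (x : ℝ) : dt66.kv (-1 / 10) x = (0) :=
  (DT.kv_gt (by simp only [Cn.rt_v, Cn.ng_v]; norm_num)).trans (kb_dt62 x)
theorem ka_dt63 (x : ℝ) : dt63.kv (-1 / 10) x = (0) := by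
  simp only [dt63, DT.kv, sl63, sv63]
  ((try push_cast); ring1)
theorem kb_dt63 (x : ℝ) : dt63.kv (1 / 10) x = (0) := by
  simp only [dt63, DT.kv, sl63, sv63]
  ((try push_cast); ring1)
theorem ka_dt64 (x : ℝ) : dt64.kv (1 / 10) x = (0) := by
  simp only [dt64, DT.kv, sw64, sw64_2, sl64, sl64_2, sv64, sv64_2]
  ((try push_cast); ring1)
theorem kb_dt64 (x : ℝ) : dt64.kv (3 / 20) x = (36250075238051 / 210085873920000000 + (x - 25 / 32) * (122472949723 / 840343495680000) + (x - 25 / 32) ^ 2 * (3694709699 / 55192800000)) := by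
  simp only [dt64, DT.kv, sw64, sw64_2, sl64, sl64_2, sv64, sv64_2]
  ((try push_cast); ring1)
theorem ka_dt65 (x : ℝ) : dt65.kv (3 / 20) x = (36250075238051 / 210085873920000000 + (x - 25 / 32) * (122472949723 / 840343495680000) + (x - 25 / 32) ^ 2 * (3694709699 / 55192800000)) := by
  simp only [dt65, DT.kv, sw65, sw65_2, sl65, sl65_2, sv65, sv65_2]
  ((try push_cast); ring1)
theorem kb_dt65 (x : ℝ) : dt65.kv (263 / 1586) x = (-245194474877 / 159576722240000000 + (x - 25 / 32) * (-2155827367973 / 638306888960000) + (x - 25 / 32) ^ 2 * (14592505191 / 125769800000)) := by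
  simp only [dt65, DT.kv, sw65, sw65_2, sl65, sl65_2, sv65, sv65_2]
  ((try push_cast); ring1)
theorem ka_dt67 (x : ℝ) : dt67.kv (1 / 10) x = (0) :=
  (DT.kv_le (by simp only [Cn.rt_v, Cn.ng_v]; norm_num)).trans (ka_dt64 x)
theorem kb_dt67 (x : ℝ) : dt67.kv (263 / 1586) x = (-245194474877 / 159576722240000000 + (x - 25 / 32) * (-2155827367973 / 638306888960000) + (x - 25 / 32) ^ 2 * (14592505191 / 125769800000)) :=
  (DT.kv_gt (by simp only [Cn.rt_v, Cn.ng_v]; norm_num)).trans (kb_dt65 x)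
theorem ka_dt68 (x : ℝ) : dt68.kv (-1 / 10) x = (0) :=
  (DT.kv_le (by simp only [Cn.rt_v, Cn.ng_v]; norm_num)).trans (ka_dt63 x)
theorem kb_dt68 (x : ℝ) : dt68.kv (263 / 1586) x = (-245194474877 / 159576722240000000 + (x - 25 / 32) * (-2155827367973 / 638306888960000) + (x - 25 / 32) ^ 2 * (14592505191 / 125769800000)) :=
  (DT.kv_gt (by simp only [Cn.rt_v, Cn.ng_v]; norm_num)).trans (kb_dt67 x)
theorem ka_dt69 (x : ℝ) : dt69.kv (-263 / 1586) x = (245194474877 / 159576722240000000 + (x - 25 / 32) * (2155827367973 / 638306888960000) + (x - 25 / 32) ^ 2 * (-14592505191 / 125769800000)) :=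
  (DT.kv_le (by simp only [Cn.rt_v, Cn.ng_v]; norm_num)).trans (ka_dt66 x)
theorem kb_dt69 (x : ℝ) : dt69.kv (263 / 1586) x = (-245194474877 / 159576722240000000 + (x - 25 / 32) * (-2155827367973 / 638306888960000) + (x - 25 / 32) ^ 2 * (14592505191 / 125769800000)) :=
  (DT.kv_gt (by simp only [Cn.rt_v, Cn.ng_v]; norm_num)).trans (kb_dt68 x)
theorem ko_dt61 (x : ℝ) : dt61.KOk x := trivial
theorem ko_dt62 (x : ℝ) : dt62.KOk x := trivial
theorem ko_dt66 (x : ℝ) : dt66.KOk x :=
  DT.kOk_node (v := -3 / 20) (by simp only [Cn.rt_v, Cn.ng_v]; norm_num) (kb_dt61 x) (ka_dt62 x) (by ring1) (ko_dt61 x) (ko_dt62 x)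
theorem ko_dt63 (x : ℝ) : dt63.KOk x := trivial
theorem ko_dt64 (x : ℝ) : dt64.KOk x := trivial
theorem ko_dt65 (x : ℝ) : dt65.KOk x := trivial
theorem ko_dt67 (x : ℝ) : dt67.KOk x :=
  DT.kOk_node (v := 3 / 20) (by simp only [Cn.rt_v, Cn.ng_v]; norm_num) (kb_dt64 x) (ka_dt65 x) (by ring1) (ko_dt64 x) (ko_dt65 x)
theorem ko_dt68 (x : ℝ) : dt68.KOk x :=
  DT.kOk_node (v := 1 / 10) (by simp only [Cn.rt_v, Cn.ng_v]; norm_num) (kb_dt63 x) (ka_dt67 x) (by ring1) (ko_dt63 x) (ko_dt67 x)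
theorem ko_dt69 (x : ℝ) : dt69.KOk x :=
  DT.kOk_node (v := -1 / 10) (by simp only [Cn.rt_v, Cn.ng_v]; norm_num) (kb_dt66 x) (ka_dt68 x) (by ring1) (ko_dt66 x) (ko_dt68 x)
theorem phl0 {p x : ℝ} (h2 : p ≤ -3 / 20) : dt69.kv p x = (2764367460347843 / 105042936960000000 + (x - 25 / 32) * (136746568906747 / 420171747840000) + (x - 25 / 32) ^ 2 * (-7389522343 / 27596400000)) + (3637473848065667 / 10504293696000000 + (x - 25 / 32) * (182167134848251 / 42017174784000) + (x - 25 / 32) ^ 2 * (-14779010371 / 2759640000)) * p + (113127 / 100000 + (x - 25 / 32) * (5773 / 400) + (x - 25 / 32) ^ 2 * (-26777 / 1000)) * p ^ 2 := by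
  refine (DT.kv_le (by simp only [Cn.rt_v, Cn.ng_v]; push_cast; linarith)).trans ?_
  refine (DT.kv_le (by simp only [Cn.rt_v, Cn.ng_v]; push_cast; linarith)).trans ?_
  simp only [dt61, DT.kv, sw61, sw61_2, sl61, sl61_2, sv61, sv61_2]
  ((try push_cast); ring1)
theorem phl1 {p x : ℝ} (h1 : -3 / 20 < p) (h2 : p ≤ -1 / 10) : dt69.kv p x = (-2901295611109 / 4201717478400000 + (x - 25 / 32) * (-1215382354489 / 2100858739200000) + (x - 25 / 32) ^ 2 * (-7389522343 / 27596400000)) + (-145054033954909 / 10504293696000000 + (x - 25 / 32) * (-97355216929 / 8403434956800) + (x - 25 / 32) ^ 2 * (-14779010371 / 2759640000)) * p + (-863 / 12500 + (x - 25 / 32) * (-29 / 500) + (x - 25 / 32) ^ 2 * (-26777 / 1000)) * p ^ 2 := by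
  refine (DT.kv_le (by simp only [Cn.rt_v, Cn.ng_v]; push_cast; linarith)).trans ?_
  refine (DT.kv_gt (by simp only [Cn.rt_v, Cn.ng_v]; push_cast; linarith)).trans ?_
  simp only [dt62, DT.kv, sw62, sw62_2, sl62, sl62_2, sv62, sv62_2]
  ((try push_cast); ring1)
theorem phl2 {p x : ℝ} (h1 : -1 / 10 < p) (h2 : p ≤ 1 / 10) : dt69.kv p x = (0) + (0) * p := by
  refine (DT.kv_gt (by simp only [Cn.rt_v, Cn.ng_v]; push_cast; linarith)).trans ?_
  refine (DT.kv_le (by simp only [Cn.rt_v, Cn.ng_v]; push_cast; linarith)).trans ?_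
  simp only [dt63, DT.kv, sl63, sv63]
  ((try push_cast); ring1)
theorem phl3 {p x : ℝ} (h1 : 1 / 10 < p) (h2 : p ≤ 3 / 20) : dt69.kv p x = (2901295611109 / 4201717478400000 + (x - 25 / 32) * (1215382354489 / 2100858739200000) + (x - 25 / 32) ^ 2 * (7389522343 / 27596400000)) + (-145054033954909 / 10504293696000000 + (x - 25 / 32) * (-97355216929 / 8403434956800) + (x - 25 / 32) ^ 2 * (-14779010371 / 2759640000)) * p + (863 / 12500 + (x - 25 / 32) * (29 / 500) + (x - 25 / 32) ^ 2 * (26777 / 1000)) * p ^ 2 := by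
  refine (DT.kv_gt (by simp only [Cn.rt_v, Cn.ng_v]; push_cast; linarith)).trans ?_
  refine (DT.kv_gt (by simp only [Cn.rt_v, Cn.ng_v]; push_cast; linarith)).trans ?_
  refine (DT.kv_le (by simp only [Cn.rt_v, Cn.ng_v]; push_cast; linarith)).trans ?_
  simp only [dt64, DT.kv, sw64, sw64_2, sl64, sl64_2, sv64, sv64_2]
  ((try push_cast); ring1)
theorem phl4 {p x : ℝ} (h1 : 3 / 20 < p) (h2 : p ≤ 263 / 1586) : dt69.kv p x = (-2764367460347843 / 105042936960000000 + (x - 25 / 32) * (-136746568906747 / 420171747840000) + (x - 25 / 32) ^ 2 * (7389522343 / 27596400000)) + (3637473848065667 / 10504293696000000 + (x - 25 / 32) * (182167134848251 / 42017174784000) + (x - 25 / 32) ^ 2 * (-14779010371 / 2759640000)) * p + (-113127 / 100000 + (x - 25 / 32) * (-5773 / 400) + (x - 25 / 32) ^ 2 * (26777 / 1000)) * p ^ 2 := by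
  refine (DT.kv_gt (by simp only [Cn.rt_v, Cn.ng_v]; push_cast; linarith)).trans ?_
  refine (DT.kv_gt (by simp only [Cn.rt_v, Cn.ng_v]; push_cast; linarith)).trans ?_
  refine (DT.kv_gt (by simp only [Cn.rt_v, Cn.ng_v]; push_cast; linarith)).trans ?_
  simp only [dt65, DT.kv, sw65, sw65_2, sl65, sl65_2, sv65, sv65_2]
  ((try push_cast); ring1)
theorem tvc6 {p x : ℝ} (h1 : -1 / 5 ≤ p) (h2 : p ≤ -3 / 20) : dt60.val (fun p x => kcg.v p x) p (cT p) x = (538581 / 5000000 + (x - 25 / 32) * (61819 / 500000)) + (-3303 / 31250 + (x - 25 / 32) * (7731 / 25000)) * p + (-10841 / 12500 + (x - 25 / 32) * (6117 / 2500)) * p ^ 2 := by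
  rcases eq_or_lt_of_le h1 with h | h1
  · subst h
    refine (DT.val_le (by simp only [Cn.rt_v, Cn.ng_v]; push_cast; linarith)).trans ?_
    refine (DT.val_gt (by simp only [Cn.rt_v, Cn.ng_v]; push_cast; linarith)).trans ?_
    refine (DT.val_le (by simp only [Cn.rt_v, Cn.ng_v]; push_cast; linarith)).trans ?_
    refine (DT.val_gt (by simp only [Cn.rt_v, Cn.ng_v]; push_cast; linarith)).trans ?_
    simp only [dt35, DT.val, sw35, sl35, sv35]
    ((try push_cast); ring1)
  ·
    refine (DT.val_le (by simp only [Cn.rt_v, Cn.ng_v]; push_cast; linarith)).trans ?_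
    refine (DT.val_gt (by simp only [Cn.rt_v, Cn.ng_v]; push_cast; linarith)).trans ?_
    refine (DT.val_gt (by simp only [Cn.rt_v, Cn.ng_v]; push_cast; linarith)).trans ?_
    refine (DT.val_le (by simp only [Cn.rt_v, Cn.ng_v]; push_cast; linarith)).trans ?_
    simp only [dt36, DT.val, sw36, sl36, sv36]
    ((try push_cast); ring1)
theorem tvc7 {p x : ℝ} (h1 : -3 / 20 ≤ p) (h2 : p ≤ -1 / 10) : dt60.val (fun p x => kcg.v p x) p (cT p) x = (538893 / 4000000 + (x - 25 / 32) * (899341 / 2000000)) + (101759 / 400000 + (x - 25 / 32) * (931273 / 200000)) * p + (33303 / 100000 + (x - 25 / 32) * (169373 / 10000)) * p ^ 2 := by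
  rcases eq_or_lt_of_le h1 with h | h1
  · subst h
    refine (DT.val_le (by simp only [Cn.rt_v, Cn.ng_v]; push_cast; linarith)).trans ?_
    refine (DT.val_gt (by simp only [Cn.rt_v, Cn.ng_v]; push_cast; linarith)).trans ?_
    refine (DT.val_gt (by simp only [Cn.rt_v, Cn.ng_v]; push_cast; linarith)).trans ?_
    refine (DT.val_le (by simp only [Cn.rt_v, Cn.ng_v]; push_cast; linarith)).trans ?_
    simp only [dt36, DT.val, sw36, sl36, sv36]
    ((try push_cast); ring1)
  ·
    refine (DT.val_le (by simp only [Cn.rt_v, Cn.ng_v]; push_cast; linarith)).trans ?_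
    refine (DT.val_gt (by simp only [Cn.rt_v, Cn.ng_v]; push_cast; linarith)).trans ?_
    refine (DT.val_gt (by simp only [Cn.rt_v, Cn.ng_v]; push_cast; linarith)).trans ?_
    refine (DT.val_gt (by simp only [Cn.rt_v, Cn.ng_v]; push_cast; linarith)).trans ?_
    simp only [dt37, DT.val, sw37, sl37, sv37]
    ((try push_cast); ring1)
theorem tvc8 {p x : ℝ} (h1 : -1 / 10 ≤ p) (h2 : p ≤ 1 / 10) : dt60.val (fun p x => kcg.v p x) p (cT p) x = (157419 / 1250000 + (x - 25 / 32) * (205511 / 1000000)) + (39319 / 500000 + (x - 25 / 32) * (-5671 / 25000)) * p + (-3411 / 6250 + (x - 25 / 32) * (-18697 / 2500)) * p ^ 2 := by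
  rcases eq_or_lt_of_le h1 with h | h1
  · subst h
    refine (DT.val_le (by simp only [Cn.rt_v, Cn.ng_v]; push_cast; linarith)).trans ?_
    refine (DT.val_gt (by simp only [Cn.rt_v, Cn.ng_v]; push_cast; linarith)).trans ?_
    refine (DT.val_gt (by simp only [Cn.rt_v, Cn.ng_v]; push_cast; linarith)).trans ?_
    refine (DT.val_gt (by simp only [Cn.rt_v, Cn.ng_v]; push_cast; linarith)).trans ?_
    simp only [dt37, DT.val, sw37, sl37, sv37]
    ((try push_cast); ring1)
  ·
    refine (DT.val_gt (by simp only [Cn.rt_v, Cn.ng_v]; push_cast; linarith)).trans ?_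
    refine (DT.val_le (by simp only [Cn.rt_v, Cn.ng_v]; push_cast; linarith)).trans ?_
    refine (DT.val_le (by simp only [Cn.rt_v, Cn.ng_v]; push_cast; linarith)).trans ?_
    refine (DT.val_le (by simp only [Cn.rt_v, Cn.ng_v]; push_cast; linarith)).trans ?_
    simp only [dt38, DT.val, sw38, sl38, sv38]
    ((try push_cast); ring1)
theorem tvc9 {p x : ℝ} (h1 : 1 / 10 ≤ p) (h2 : p ≤ 263 / 1586) : dt60.val (fun p x => kcg.v p x) p (cT p) x = (2815838693303719 / 21008587392000000 + (x - 25 / 32) * (4717394086654723 / 10504293696000000) + (x - 25 / 32) ^ 2 * (-7389522343 / 27596400000)) + (-175027745248231 / 2100858739200000 + (x - 25 / 32) * (-5355571945861507 / 1050429369600000) + (x - 25 / 32) ^ 2 * (14779010371 / 2759640000)) * p + (26399 / 100000 + (x - 25 / 32) * (168793 / 10000) + (x - 25 / 32) ^ 2 * (-26777 / 1000)) * p ^ 2 := by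
  rcases eq_or_lt_of_le h1 with h | h1
  · subst h
    refine (DT.val_gt (by simp only [Cn.rt_v, Cn.ng_v]; push_cast; linarith)).trans ?_
    refine (DT.val_le (by simp only [Cn.rt_v, Cn.ng_v]; push_cast; linarith)).trans ?_
    refine (DT.val_le (by simp only [Cn.rt_v, Cn.ng_v]; push_cast; linarith)).trans ?_
    refine (DT.val_le (by simp only [Cn.rt_v, Cn.ng_v]; push_cast; linarith)).trans ?_
    simp only [dt38, DT.val, sw38, sl38, sv38]
    ((try push_cast); ring1)
  ·
    refine (DT.val_gt (by simp only [Cn.rt_v, Cn.ng_v]; push_cast; linarith)).trans ?_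
    refine (DT.val_le (by simp only [Cn.rt_v, Cn.ng_v]; push_cast; linarith)).trans ?_
    refine (DT.val_le (by simp only [Cn.rt_v, Cn.ng_v]; push_cast; linarith)).trans ?_
    refine (DT.val_gt (by simp only [Cn.rt_v, Cn.ng_v]; push_cast; linarith)).trans ?_
    simp only [dt39, DT.val, sw39, sw39_2, sl39, sl39_2, sv39, sv39_2]
    ((try push_cast); ring1)
theorem ph_ (x : ℝ) : ∀ u, |u| ≤ vv.k2.v → dd.tF x (-u) - dd.tF x u = m0c.v x * u + dt69.kv u x := by
  intro u h
  have h : |u| ≤ 263 / 1586 := by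
    refine h.trans_eq ?_
    show (Cn.rt 263 1586).v = _
    rw [Cn.rt_v]
    norm_num
  obtain ⟨h1, h2⟩ := abs_le.1 h
  show dt60.val (fun p x => kcg.v p x) (-u) (cT (-u)) x - dt60.val (fun p x => kcg.v p x) u (cT u) x = _
  rcases le_or_gt u (-3 / 20) with g0 | g1000
  ·
    rw [tvc9 (p := -u) (by linarith) (by linarith), tvc6 (p := u) (by linarith) (by linarith), phl0 g0]
    simp only [m0c]
    push_cast
    ring
  rcases le_or_gt u (-1 / 10) with g1 | g1001
  ·
    rw [tvc9 (p := -u) (by linarith) (by linarith), tvc7 (p := u) (by linarith) (by linarith), phl1 g1000 g1]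
    simp only [m0c]
    push_cast
    ring
  rcases le_or_gt u (1 / 10) with g2 | g1002
  ·
    rw [tvc8 (p := -u) (by linarith) (by linarith), tvc8 (p := u) (by linarith) (by linarith), phl2 g1001 g2]
    simp only [m0c]
    push_cast
    ring
  rcases le_or_gt u (3 / 20) with g3 | g1003
  ·
    rw [tvc7 (p := -u) (by linarith) (by linarith), tvc9 (p := u) (by linarith) (by linarith), phl3 g1002 g3]
    simp only [m0c]
    push_cast
    ring
  ·
    rw [tvc6 (p := -u) (by linarith) (by linarith), tvc9 (p := u) (by linarith) (by linarith), phl4 g1003 (by linarith)]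
    simp only [m0c]
    push_cast
    ring
theorem kqf_ {y : ℝ} (x : ℝ) (h : OnC (0 : Fin 5) 2 y) : kqf.v y x * c1g.v y = (y - 1) * kcg.v (c1g.v y) x := by
  have h0 : 0 ≤ c1g.v y := by rw [c1g_v]; exact c1n_nn y
  simp only [kqf]
  (try push_cast)
  split_ifs with hh
  · rw [kcl7 (p := c1g.v y) (by linarith) (by linarith)]
    ring
  · have hc : c1g.v y ≠ 0 := by
      intro e
      rw [e] at hh
      exact hh (by norm_num)
    have hi := inv_mul_cancel₀ hc
    linear_combination ((y - 1) * kcg.v (c1g.v y) x) * hi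
theorem sM_ (x : ℝ) : ∀ y, OnC (0 : Fin 5) 2 y → c1n y < crv PP 1 2 y →
    (1 + skm.v y x) * (crv PP 1 2 y - c1n y) = tK 1 2 y x - tK 0 2 y x := by
  intro y h hlt
  rw [yK12 h.1, yK02 h]
  rw [ecv1q2, ← c1g_v] at hlt ⊢
  have hd : 0 < cv1p.v y - c1g.v y := sub_pos.2 hlt
  have hi := inv_mul_cancel₀ hd.ne'
  have hb : |c1g.v y| ≤ 1 / 2 := by rw [c1g_v]; exact bnd_O h
  have eo := odd (x := x) hb
  have hk := kqf_ x h
  simp only [skm, kf1q2, kf0q2, eo]
  (try push_cast)
  linear_combination (cv1p.v y * ((bf1q2.v y x - 1) + kqf.v y x)) * hi + hk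
theorem ok (x : ℝ) : tt.Ok PP tK tL x where
  i0 := rfl
  il := rfl
  rl := by
    show 1 < PP.ρ 3
    have e : PP.ρ 3 = 8 / 5 := rfl
    rw [e]
    norm_num
  ok := dok x
  kh := rfl
  odd := fun p h => odd h
  K0 := K0_ x
  L0 := L0_ x
  Kn := Kn_ x
  Ln := Ln_ x
  f0 := f0_
  fn := fn_
  sK0 := sK0_ x
  sX0 := sX0_ x
  sKn := sKn_ x
  sXn := sXn_ x
  k1 := by
    show 0 ≤ (Cn.rt 1 16).v ∧ (Cn.rt 1 16).v ≤ 1 / 2
    rw [Cn.rt_v]
    constructor <;> norm_num
  kn := kn_ x
  tn := tn_ x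
  vK := vK_ x
  vX := vX_ x
  rK := rK_ x
  rX := rX_ x
  yb := by
    show 0 ≤ (Cn.rt 231 200).v ∧ 1 ≤ 3 / 4 * (Cn.rt 231 200).v ^ 2
    rw [Cn.rt_v]
    constructor <;> norm_num
  flat := flat_ x
  abk := abk_ x
  phk := ko_dt69 x
  ph := ph_ x
  sM := sM_ x
  yz := by
    show (Cn.rt 577 500).v ≤ (Cn.rt 577 500).v ∧ 0 ≤ (Cn.rt 577 500).v ∧ 1 ≤ 3 / 4 * (Cn.rt 577 500).v ^ 2 + (Cn.rt 1 16).v ^ 2
    simp only [Cn.rt_v]
    refine ⟨?_, ?_, ?_⟩ <;> norm_num
theorem okx {x : ℝ} (hx : ((818728140 : ℕ) : ℝ) / S ≤ x) (hx' : x ≤ (((818728140 : ℕ) : ℝ) + (40265320 : ℕ)) / S) : tt.Ok PP tK tL x := ok x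

end Pool.Agent.Strip051.G.I7625_8000.Tab.St
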