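import Pool.Agent.Strip051.G.I7625_8000.StH
import Pool.Agent.Strip051.G.I7625_8000.StF

/-! # Unit strips 1 (generated) -/

set_option linter.all false
set_option maxRecDepth 100000

namespace Pool.Agent.Strip051.G.I7625_8000.Tab.St.C

open Pool.Agent.Strip051.PB Pool.Agent.Strip051.PB.T Pool.Agent.StripNear Pool.Agent.Strip051.LC
open Pool.Agent.Strip051.G.I7625_8000.Tab Pool.Agent.Strip051.G.I7625_8000.Tab.St

noncomputable def cut_A00pp_022_s3 : Cut := Cut.of [[⟨3, 0, 0, 2845415833⟩], [⟨0, 0, 0, 67108864⟩, ⟨1, 1, 0, 67108864⟩, ⟨2, 1, 0, 67108864⟩]]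

noncomputable def xt_A00pp_022_s3 : Ext := strExt dd true true true .u0 .u2 .s2 .pp 0 2 2 rfl rfl gl2 vv ndB0q0 ndB0q2

noncomputable def f_A00pp_022_s3 : ℕ → ℕ → ℕ → ℕ → Bool := onCell 1073741824 536870912 0 536870912 818728140 40265320
    (rowF 2 true true true .pp 0 2 2 (qsf 0 536870912 0 536870912 2) ndB0q0 ndB0q2 pcB2 cut_A00pp_022_s3 xt_A00pp_022_s3)

def k0_A00pp_022_s3 : ∃ t, chk3 f_A00pp_022_s3 t 2 2 1 = true :=
  ⟨(a (l 6) (a (l 6) (b (l 6) (b (l 6) (b (l 6) (a (a (l 6) (l 16585400)) (a (l 16589192) (l 16604168)))))))), by decide +kernel⟩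

def k1_A00pp_022_s3 : ∃ t, chk3 f_A00pp_022_s3 t 4 6 1 = true :=
  ⟨(a (l 1) (a (b (l 1) (b (a (l 1) (b (a (l 1) (a (l 1) (b (l 1) (l 16535288)))) (a (a (l 1) (b (l 1) (l 16549848))) (a (b (l 16542488) (l 16554312)) (b (l 16546904) (l 16558776)))))) (a (a (l 1) (b (a (l 1) (b (l 1) (l 16565136))) (a (b (l 16573112) (a (l 16584816) (l 16587144))) (b (a (l 16576560) (l 16578864)) (l 16590632))))) (b (a (a (b (l 16557392) (a (l 16568552) (l 16570832))) (b (a (l 16560776) (l 16563032)) (l 16574248))) (c (b (l 16571216) (l 16583400)) (b (l 16566032) (l 16578696)))) (a (b (a (l 16582320) (l 16586920)) (c (l 16609824) (l 16606344))) (c (b (l 16595872) (l 16619152)) (a (l 16606616) (l 16611224)))))))) (b (b (l 6) (a (l 6) (b (l 6) (a (l 16551696) (l 16560256))))) (c (a (b (b (a (b (l 16533560) (l 16544904)) (l 16548000)) (a (l 16583352) (l 16592248))) (b (a (b (l 16580256) (l 16592528)) (b (l 16589280) (l 16601648))) (a (b (l 16605096) (l 16628472)) (b (l 16614304) (l 16637768))))) (b (b (a (l 16556720)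 (l 16565432)) (a (l 16601128) (l 16609992))) (a (b (b (l 16598288) (l 16610736)) (b (l 16623488) (l 16647040))) (b (b (l 16607272) (l 16619816)) (b (l 16632648) (a (l 16643496) (l 16648112))))))) (a (b (b (a (b (l 16527112) (l 16538688)) (l 16541584)) (a (b (l 16550488) (l 16562592)) (l 16586384))) (b (a (b (l 16575016) (l 16587784)) (b (l 16584016) (l 16596872))) (a (b (l 16600904) (l 16624880)) (a (l 16625064) (l 16629680))))) (b (b (a (l 16550272) (l 16558976)) (a (l 16595256) (l 16604136))) (a (b (b (l 16593024) (l 16605976)) (b (l 16619280) (l 16643440))) (b (b (l 16602048) (l 16615088)) (b (l 16628480) (a (l 16639920) (l 16644560))))))))))), by decide +kernel⟩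

def k2_A00pp_022_s3 : ∃ t, chk3 f_A00pp_022_s3 t 8 7 1 = true :=
  ⟨(b (a (l 1) (b (a (l 1) (b (l 1) (a (l 1) (b (a (l 1) (a (b (l 1) (l 14)) (b (l 16610456) (l 16617744)))) (a (l 14) (a (l 14) (a (l 14) (l 16629592)))))))) (a (l 14) (b (a (l 14) (c (a (l 14) (a (l 14) (b (l 16644872) (l 16660896)))) (c (a (l 14) (b (l 16643160) (c (l 16659384) (l 16659296)))) (a (l 14) (b (l 16642904) (c (l 16659224) (l 16659168))))))) (c (c (a (l 14) (a (l 14) (a (l 14) (b (l 16677624) (l 16694800))))) (a (l 14) (a (l 14) (a (l 14) (b (l 16677432) (l 16694664)))))) (c (a (l 14) (a (l 14) (a (l 14) (b (l 16677296) (l 16699816))))) (a (l 14) (a (l 14) (a (l 14) (a (l 14) (b (l 16677824) (l 16695136)))))))))))) (b (a (l 14) (b (a (l 14) (a (l 14) (a (l 14) (a (l 14) (a (l 14) (a (l 14) (b (b (l 16708784) (l 16717768)) (b (c (l 16726912) (l 16726800)) (c (l 16736072) (l 16735984)))))))))) (a (l 14) (a (l 14) (a (l 14) (a (l 14) (a (l 14) (a (l 14) (b (b (b (l 16742960) (l 531785743)) (b (l 531773967) (l 531762191)))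 (b (b (l 531750159) (l 531738383)) (b (l 531726351) (l 531714319)))))))))))) (a (l 14) (a (l 14) (b (a (l 14) (b (a (l 14) (a (l 14) (a (l 14) (l 4)))) (l 4))) (l 4)))))), by decide +kernel⟩

def k3_A00pp_022_s3 : ∃ t, chk3 f_A00pp_022_s3 t 9 112 4 = true :=
  ⟨(c (b (b (b (a (a (a (l 16588880) (l 16598344)) (a (l 16607768) (l 16617176))) (a (l 16636480) (a (l 16645208) (l 16654496)))) (b (a (a (a (l 16590072) (l 16599536)) (a (l 16608976) (l 16618392))) (a (l 16637712) (a (l 16646456) (l 16655744)))) (a (a (a (l 16590864) (l 16600336)) (a (l 16609784) (l 16619200))) (a (l 16638528) (a (l 16647280) (l 16656576)))))) (a (a (a (l 16592856) (l 16602344)) (a (l 16611808) (l 16621240))) (a (a (l 16630648) (l 16640016)) (a (l 16649360) (l 16658672))))) (a (a (a (a (l 1) (l 16600056)) (l 16607200)) (a (l 16616696) (l 16626168))) (a (a (l 16635608) (l 16645016)) (a (l 16654392) (l 16663736))))) (b (a (a (a (l 16590568) (l 16600016)) (a (l 16609448) (l 16618864))) (a (a (l 16628248) (l 16637616)) (a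 (l 16646952) (l 16656272)))) (b (b (a (a (a (l 16594608) (l 16604088)) (a (l 16613552) (l 16622992))) (a (a (l 16632408) (l 16641800)) (a (l 16651168) (l 16660512)))) (a (a (a (l 16596232) (l 16605728)) (a (l 16615200) (l 16624656))) (a (a (l 16634080) (l 16643488)) (a (l 16652872) (l 16662224))))) (b (a (a (a (l 16597872) (l 16607376)) (a (l 16616856) (l 16626320))) (a (a (l 16635768) (l 16645184)) (a (l 16654576) (l 16663936)))) (b (a (a (a (l 16599096) (l 16608616)) (a (l 16618104) (l 16627576))) (a (a (l 16637032) (l 16646456)) (a (l 16655856) (l 16665224)))) (a (a (a (l 16599920) (l 16609440)) (a (l 16618944) (l 16628416))) (a (a (l 16637872) (l 16647304)) (a (l 16656712) (l 16666088))))))))), by decide +kernel⟩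

def k4_A00pp_022_s3 : ∃ t, chk3 f_A00pp_022_s3 t 9 226 8 = true :=
  ⟨(c (b (a (a (a (a (l 16600304) (l 16605096)) (l 16612264)) (a (l 16621800) (l 16631312))) (a (a (l 16640784) (l 16650232)) (a (l 16659640) (l 16669016)))) (c (b (a (a (a (l 16605248) (l 16614832)) (a (l 16624384) (l 16633912))) (a (l 16653392) (a (l 16662288) (l 16671680)))) (a (a (a (l 16606904) (l 16616504)) (a (l 16626072) (l 16635608))) (a (a (l 16645112) (l 16654584)) (a (l 16664016) (l 16673416))))) (a (a (a (a (l 16603536) (l 16608336)) (l 16615528)) (a (l 16625080) (l 16634608))) (a (a (l 16644112) (l 16653576)) (a (l 16663008) (l 16672408)))))) (b (b (a (a (a (l 16601592) (l 16611144)) (a (l 16620664) (l 16630160))) (a (a (l 16639624) (l 16649064)) (a (l 16658472) (l 16667848)))) (b (a (a (a (l 16602832) (l 16612384)) (a (l 16621920) (l 16631424))) (a (l 16650880) (a (l 16659760) (l 16669144)))) (a (a (a (l 16603656) (l 16613216)) (a (l 16622752) (l 16632264))) (a (a (l 16641744) (l 16651200)) (a (l 16660624) (l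 16670016)))))) (a (a (a (a (l 16603336) (l 16608136)) (l 16615320)) (a (l 16624864) (l 16634392))) (a (a (l 16643888) (l 16653352)) (a (l 16662792) (l 16672192)))))), by decide +kernel⟩

def k5_A00pp_022_s3 : ∃ t, chk3 f_A00pp_022_s3 t 9 227 8 = true :=
  ⟨(c (b (c (b (a (a (a (l 16608584) (l 16618192)) (a (l 16627768) (l 16637312))) (a (a (l 16646832) (l 16656312)) (a (l 16665760) (l 16675168)))) (a (a (a (l 16610272) (l 16619888)) (a (l 16629480) (l 16639040))) (a (a (l 16648560) (l 16658048)) (a (l 16667512) (l 16676928))))) (b (a (a (a (l 16608456) (l 16618056)) (a (l 16627632) (l 16637176))) (a (a (l 16646688) (l 16656168)) (a (l 16665616) (l 16675032)))) (a (a (a (l 16610152) (l 16619760)) (a (l 16629344) (l 16638896))) (a (a (l 16648424) (l 16657912)) (a (l 16667376) (l 16676800)))))) (c (a (a (a (l 16612832) (l 16622464)) (a (l 16632064) (l 16641640))) (a (a (l 16651176) (l 16660688)) (a (l 16670160) (l 16679592)))) (a (a (a (l 16612712) (l 16622336)) (a (l 16631936) (l 16641512))) (a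 (a (l 16651048) (l 16660552)) (a (l 16670032) (l 16679464)))))) (b (c (a (a (a (l 16609176) (l 16618776)) (a (l 16628352) (l 16637896))) (a (a (l 16647416) (l 16656904)) (a (l 16666360) (l 16675784)))) (a (a (a (l 16609048) (l 16618648)) (a (l 16628216) (l 16637760))) (a (a (l 16647280) (l 16656768)) (a (l 16666224) (l 16675648))))) (a (a (a (l 16612536) (l 16622152)) (a (l 16631744) (l 16641312))) (a (a (l 16650848) (l 16660360)) (a (l 16669832) (l 16679280)))))), by decide +kernel⟩

def k6_A00pp_022_s3 : ∃ t, chk3 f_A00pp_022_s3 t 9 113 9 = true :=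
  ⟨(b (c (b (a (a (a (a (l 16599744) (l 16604520)) (l 16611672)) (a (l 16621192) (l 16630688))) (a (a (l 16640160) (l 16649608)) (a (l 16659024) (l 16668408)))) (b (a (a (a (l 16604632) (l 16614192)) (a (l 16623728) (l 16633240))) (a (a (l 16642728) (l 16652192)) (a (l 16661624) (l 16671032)))) (a (a (a (l 16606320) (l 16615888)) (a (l 16625432) (l 16634960))) (a (a (l 16644456) (l 16653928)) (a (l 16663376) (l 16672784)))))) (a (a (a (a (l 16601136) (l 16605912)) (l 16613064)) (a (l 16622584) (l 16632088))) (a (a (l 16641568) (l 16651024)) (a (l 16660456) (l 16669864))))) (c (b (c (a (a (a (l 16608928) (l 16618512)) (a (l 16628080) (l 16637624))) (a (a (l 16647136) (l 16656624)) (a (l 16666088) (l 16675512)))) (a (a (a (l 16608800) (l 16618384)) (a (l 16627944) (l 16637488))) (a (a (l 16647000) (l 16656488)) (a (l 16665944) (l 16675376))))) (a (a (a (l 16612304) (l 16621912)) (a (l 16631496) (l 16641056))) (a (a (l 16650592) (l 16660096)) (a (l 16669576) (l 16679024))))) (b (a (a (a (l 16619104)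 (l 16618192)) (a (l 16627744) (l 16637280))) (a (a (l 16646792) (l 16656280)) (a (l 16665744) (l 16675176)))) (a (a (a (l 16612072) (l 16621664)) (a (l 16631240) (l 16640792))) (a (a (l 16650328) (l 16659832)) (a (l 16669320) (l 16678776))))))), by decide +kernel⟩

def k7_A00pp_022_s3 : ∃ t, chk3 f_A00pp_022_s3 t 9 112 5 = true :=
  ⟨(a (a (a (a (l 1) (l 16605656)) (l 16602248)) (a (l 16611672) (l 16621080))) (a (a (l 16630488) (l 16639872)) (a (l 16649248) (l 16669080)))), by decide +kernel⟩

def k8_A00pp_022_s3 : ∃ t, chk3 f_A00pp_022_s3 t 9 113 10 = true :=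
  ⟨(b (a (a (a (a (l 16600736) (l 16605504)) (l 16612640)) (a (l 16622144) (l 16631632))) (a (a (l 16641112) (l 16650560)) (a (l 16660000) (l 16669416)))) (c (b (a (a (a (l 16618856) (l 16617928)) (a (l 16627472) (l 16637000))) (a (a (l 16646512) (l 16656000)) (a (l 16665464) (l 16674904)))) (c (a (a (a (l 16611896) (l 16621480)) (a (l 16631048) (l 16640600))) (a (a (l 16650128) (l 16659640)) (a (l 16669120) (l 16678584)))) (a (a (a (l 16611784) (l 16621360)) (a (l 16630928) (l 16640472))) (a (a (l 16650000) (l 16659504)) (a (l 16668992) (l 16678456)))))) (a (a (a (a (l 16607480) (l 16612256)) (l 16619424)) (a (l 16628968) (l 16638496))) (a (a (l 16648016) (l 16657512)) (a (l 16666984) (l 16676440)))))), by decide +kernel⟩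

def k9_A00pp_022_s3 : ∃ t, chk3 f_A00pp_022_s3 t 9 113 11 = true :=
  ⟨(b (b (b (a (a (a (a (l 16597656) (l 16602392)) (l 16609496)) (a (l 16618960) (l 16628416))) (a (a (l 16637864) (l 16647304)) (a (l 16656728) (l 16666136)))) (b (b (b (a (a (a (l 16600984) (l 16610456)) (a (l 16619928) (l 16629392))) (a (a (l 16638848) (l 16648288)) (a (l 16657720) (l 16667128)))) (a (a (a (l 16601192) (l 16610672)) (a (l 16620144) (l 16629608))) (a (a (l 16639064) (l 16648512)) (a (l 16657944) (l 16667352))))) (a (a (a (l 16612000) (l 16610992)) (a (l 16620472) (l 16629936))) (a (a (l 16639392) (l 16648840)) (a (l 16658272) (l 16667688))))) (a (a (a (a (l 16599776) (l 16604520)) (l 16611640)) (a (l 16621120) (l 16630592))) (a (a (l 16640048) (l 16649504)) (a (l 16658936) (l 16668360)))))) (b (b (a (a (a (a (l 16600632) (l 16605384)) (l 16612504)) (a (l 16621984) (l 16631464))) (a (a (l 16640928) (l 16650384)) (a (l 16659824) (l 16669256)))) (a (a (a (a (l 16601488) (l 16606240)) (l 16613368)) (a (l 16622856)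 (l 16632336))) (a (a (l 16641808) (l 16651272)) (a (l 16660720) (l 16670152))))) (a (a (a (a (l 16602784) (l 16607536)) (l 16614672)) (a (l 16624168) (l 16633656))) (a (a (l 16643136) (l 16652608)) (a (l 16662064) (l 16671496)))))) (c (a (a (a (a (l 16607248) (l 16612024)) (l 16619176)) (a (l 16628712) (l 16638232))) (a (a (l 16647744) (l 16657232)) (a (l 16666712) (l 16676176)))) (a (a (a (a (l 16607024) (l 16611784)) (l 16618936)) (a (l 16628456) (l 16637968))) (a (a (l 16647472) (l 16656960)) (a (l 16666440) (l 16675904)))))), by decide +kernel⟩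

def k10_A00pp_022_s3 : ∃ t, chk3 f_A00pp_022_s3 t 9 224 6 = true :=
  ⟨(b (b (a (a (a (l 16585632) (l 16594952)) (a (l 16604280) (l 16613616))) (a (a (l 16622960) (l 16632296)) (a (l 16641632) (l 16650960)))) (b (a (a (a (l 16586880) (l 16596216)) (a (l 16605552) (l 16614896))) (a (a (l 16624248) (l 16633592)) (a (l 16642936) (l 16652272)))) (a (a (a (l 16587720) (l 16597056)) (a (l 16606408) (l 16615752))) (a (a (l 16625104) (l 16634456)) (a (l 16643808) (l 16653152)))))) (a (a (a (l 16589824) (l 16599176)) (a (l 16608536) (l 16617904))) (a (a (l 16627272) (l 16636632)) (a (l 16646000) (l 16655360))))), by decide +kernel⟩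

def k11_A00pp_022_s3 : ∃ t, chk3 f_A00pp_022_s3 t 9 225 6 = true :=
  ⟨(b (b (a (a (a (l 16602840) (l 16601728)) (a (l 16611104) (l 16620488))) (a (a (l 16629872) (l 16639256)) (a (l 16648640) (l 16658008)))) (a (a (a (a (l 1) (l 16596400)) (l 16603440)) (a (l 16612832) (l 16622224))) (a (a (l 16631616) (l 16641016)) (a (l 16650408) (l 16659792))))) (b (b (b (a (a (a (a (l 1) (l 16597464)) (l 16604512)) (a (l 16613912) (l 16623312))) (a (a (l 16632712) (l 16642112)) (a (l 16651512) (l 16660904)))) (a (a (a (a (l 1) (l 16597888)) (l 16604944)) (a (l 16614344) (l 16623744))) (a (a (l 16633152) (l 16642552)) (a (l 16651952) (l 16661352))))) (b (a (a (a (a (l 1) (l 16598320)) (l 16605368)) (a (l 16614776) (l 16624184))) (a (a (l 16633592) (l 16642992)) (a (l 16652400) (l 16661800)))) (a (a (a (a (l 1) (l 16598744)) (l 16605800)) (a (l 16615208) (l 16624616))) (a (a (l 16634024) (l 16643440)) (a (l 16652848) (l 16662248)))))) (b (a (a (a (a (l 1) (l 16599392)) (l 16606448)) (a (l 16615856) (l 16625272)))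 (a (a (l 16634688) (l 16644104)) (a (l 16653512) (l 16662912)))) (a (a (a (a (l 1) (l 16600248)) (l 16607312)) (a (l 16616728) (l 16626144))) (a (a (l 16635568) (l 16644984)) (a (l 16654400) (l 16663816))))))), by decide +kernel⟩

def k12_A00pp_022_s3 : ∃ t, chk3 f_A00pp_022_s3 t 9 113 6 = true :=
  ⟨(c (b (b (a (a (a (a (l 16597968) (l 16602688)) (l 16609768)) (a (l 16619216) (l 16628656))) (a (a (l 16638104) (l 16647536)) (a (l 16656968) (l 16666384)))) (b (a (a (a (a (l 16600552) (l 16605280)) (l 16612384)) (a (l 16621840) (l 16631304))) (a (a (l 16640760) (l 16650216)) (a (l 16659664) (l 16669096)))) (a (a (a (a (l 16602288) (l 16607024)) (l 16614136)) (a (l 16623608) (l 16633080))) (a (a (l 16642552) (l 16652008)) (a (l 16661464) (l 16670912)))))) (a (a (a (a (l 16606688) (l 16611440)) (l 16618568)) (a (l 16628064) (l 16637568))) (a (a (l 16647064) (l 16656552)) (a (l 16666032) (l 16675504))))) (b (a (a (a (a (l 16599176) (l 16603888)) (l 16610952)) (a (l 16620384) (l 16629816))) (a (a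 (l 16639256) (l 16648696)) (a (l 16658136) (l 16667568)))) (a (a (a (a (l 16606248) (l 16610984)) (l 16618080)) (a (l 16627552) (l 16637032))) (a (a (l 16646512) (l 16656000)) (a (l 16665480) (l 16674952)))))), by decide +kernel⟩

def k13_A00pp_022_s3 : ∃ t, chk3 f_A00pp_022_s3 t 9 56 7 = true :=
  ⟨(b (b (a (a (a (a (l 1) (l 16589080)) (l 16596032)) (a (l 16605320) (l 16614624))) (a (a (l 16623952) (l 16633288)) (a (l 16642632) (l 16651992)))) (b (a (a (a (a (l 1) (l 16594280)) (l 16601264)) (a (l 16610584) (l 16619928))) (a (a (l 16629280) (l 16638656)) (a (l 16648032) (l 16657424)))) (b (b (b (a (a (a (a (l 1) (l 16596248)) (l 16603240)) (a (l 16612576) (l 16621928))) (a (a (l 16631296) (l 16640680)) (a (l 16650072) (l 16659472)))) (a (a (a (a (l 1) (l 16596688)) (l 16603680)) (a (l 16613016) (l 16622376))) (a (a (l 16631744) (l 16641128)) (a (l 16650528) (l 16659936))))) (a (a (a (a (l 1) (l 16597344)) (l 16604336)) (a (l 16613680) (l 16623040))) (a (a (l 16632424) (l 16641808)) (a (l 16651208)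 (l 16660616))))) (b (a (a (a (a (l 1) (l 16598224)) (l 16605224)) (a (l 16614568) (l 16623936))) (a (a (l 16633320) (l 16642720)) (a (l 16652120) (l 16661536)))) (a (a (a (a (l 1) (l 16599104)) (l 16606112)) (a (l 16615464) (l 16624832))) (a (a (l 16634224) (l 16643624)) (a (l 16653040) (l 16662456)))))))) (a (a (a (a (a (l 16600840) (l 16603184)) (l 16606704)) (l 16613744)) (a (l 16623144) (l 16632568))) (a (a (l 16642000) (l 16661936)) (a (l 16671392) (a (l 16668000) (l 16672728)))))), by decide +kernel⟩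

def k14_A00pp_022_s3 : ∃ t, chk3 f_A00pp_022_s3 t 9 114 8 = true :=
  ⟨(b (c (b (a (a (a (l 16616224) (l 16625872)) (a (l 16635496) (l 16645088))) (a (a (l 16654648) (l 16664176)) (a (l 16673664) (l 16683120)))) (c (a (a (a (l 16619776) (l 16629456)) (a (l 16639096) (l 16648704))) (a (a (l 16658280) (l 16667824)) (a (l 16677336) (l 16686808)))) (a (a (a (l 16619672) (l 16629344)) (a (l 16638984) (l 16648592))) (a (a (l 16658168) (l 16667712)) (a (l 16677224) (l 16686696)))))) (b (a (a (a (l 16616000) (l 16625648)) (a (l 16635256) (l 16644840))) (a (a (l 16654400) (l 16663928)) (a (l 16673424) (l 16682888)))) (c (a (a (a (l 16619568) (l 16629232)) (a (l 16638872) (l 16648472))) (a (a (l 16658048) (l 16667600)) (a (l 16677112) (l 16686584)))) (a (a (a (l 16619472) (l 16629128)) (a (l 16638760) (l 16648360))) (a (a (l 16657936) (l 16667480)) (a (l 16677000) (l 16686480))))))) (c (b (c (a (a (a (l 16623328) (l 16633016)) (a (l 16642680) (l 16652304))) (a (a (l 16661904) (l 16671464)) (a (l 16680992)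 (l 16690480)))) (a (a (a (l 16623232) (l 16632912)) (a (l 16642576) (l 16652200))) (a (a (l 16661792) (l 16671360)) (a (l 16680888) (l 16690376))))) (a (a (a (l 16626872) (l 16636584)) (a (l 16646256) (l 16655904))) (a (a (l 16665512) (l 16675096)) (a (l 16684640) (l 16694144))))) (b (a (a (a (l 16623088) (l 16632760)) (a (l 16642416) (l 16652040))) (a (a (l 16661632) (l 16671192)) (a (l 16680728) (l 16690224)))) (a (a (a (l 16626696) (l 16636392)) (a (l 16646056) (l 16655696))) (a (a (l 16665312) (l 16674888)) (a (l 16684440) (l 16693952))))))), by decide +kernel⟩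

def k15_A00pp_022_s3 : ∃ t, chk3 f_A00pp_022_s3 t 9 114 9 = true :=
  ⟨(b (c (b (c (a (a (a (l 16615840) (l 16625472)) (a (l 16635080) (l 16644656))) (a (a (l 16654216) (l 16663744)) (a (l 16673240) (l 16682704)))) (a (a (a (l 16615736) (l 16625360)) (a (l 16634960) (l 16644536))) (a (a (l 16654088) (l 16663616)) (a (l 16673120) (l 16682592))))) (c (a (a (a (l 16619368) (l 16629016)) (a (l 16638648) (l 16648248))) (a (a (l 16657816) (l 16667368)) (a (l 16676880) (l 16686368)))) (a (b (a (a (l 16618376) (l 16628016)) (a (l 16637632) (l 16647232))) (a (a (l 16620160) (l 16629808)) (a (l 16639432) (l 16649032)))) (a (a (l 16657704) (l 16667248)) (a (l 16676768) (l 16686256)))))) (b (c (a (a (a (l 16615624) (l 16625240)) (a (l 16634840) (l 16644416))) (a (a (l 16653968) (l 16663496)) (a (l 16673000) (l 16682472)))) (a (a (a (l 16615520) (l 16625128)) (a (l 16634720) (l 16644296))) (a (a (l 16653848) (l 16663376)) (a (l 16672872) (l 16682352))))) (c (a (a (a (l 16619168) (l 16628808)) (a (l 16638424)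 (l 16648016))) (a (a (l 16657584) (l 16667136)) (a (l 16676656) (l 16686144)))) (a (a (a (l 16619064) (l 16628696)) (a (l 16638312) (l 16647904))) (a (a (l 16657472) (l 16667016)) (a (l 16676536) (l 16686032))))))) (c (b (a (a (a (l 16622896) (l 16632560)) (a (l 16642200) (l 16651824))) (a (a (l 16661416) (l 16670976)) (a (l 16680512) (l 16690016)))) (a (a (a (l 16626520) (l 16636200)) (a (l 16645864) (l 16655496))) (a (a (l 16665104) (l 16674688)) (a (l 16684240) (l 16693760))))) (b (a (a (a (l 16622704) (l 16632360)) (a (l 16641992) (l 16651608))) (a (a (l 16661192) (l 16670760)) (a (l 16680296) (l 16689808)))) (a (a (a (l 16626344) (l 16636016)) (a (l 16645664) (l 16655296))) (a (a (l 16664904) (l 16674480)) (a (l 16684040) (l 16693568))))))), by decide +kernel⟩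

def k16_A00pp_022_s3 : ∃ t, chk3 f_A00pp_022_s3 t 9 115 16 = true :=
  ⟨(c (c (c (a (a (a (l 16636144) (l 16645904)) (a (l 16655624) (l 16665304))) (a (a (l 16674960) (l 16684576)) (a (l 16699400) (b (l 16699872) (l 16707536))))) (a (a (a (l 16636128) (l 16645880)) (a (l 16655600) (l 16665288))) (a (a (l 16674936) (l 16684552)) (a (l 16699376) (b (l 16699848) (l 16707520)))))) (c (a (a (a (l 16636112) (l 16645856)) (a (l 16655576) (l 16665264))) (a (a (l 16674912) (l 16684536)) (a (l 16699360) (b (l 16699832) (l 16707496))))) (a (a (a (l 16636088) (l 16645840)) (a (l 16655560) (l 16665240))) (a (a (l 16674896) (l 16684512)) (a (l 16699336) (b (l 16699808) (l 16707480))))))) (c (c (a (a (a (l 16636072) (l 16645816)) (a (l 16655536) (l 16665224))) (a (a (l 16674872) (l 16684488)) (a (l 16699312) (b (l 16699784) (l 16707464))))) (a (a (a (l 16636056) (l 16645800)) (a (l 16655512) (l 16665200))) (a (a (l 16674848) (l 16684472)) (a (l 16699296) (b (l 16699768) (l 16707440)))))) (c (a (a (a (l 16636032)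 (l 16645776)) (a (l 16655496) (l 16665176))) (a (a (l 16674832) (l 16684448)) (a (l 16699272) (b (l 16699744) (l 16707424))))) (a (a (a (l 16636016) (l 16645760)) (a (l 16655472) (l 16665152))) (a (a (l 16674808) (l 16684424)) (a (l 16699256) (b (l 16699720) (l 16707408)))))))), by decide +kernel⟩

def k17_A00pp_022_s3 : ∃ t, chk3 f_A00pp_022_s3 t 9 115 17 = true :=
  ⟨(c (c (c (a (a (a (l 16636000) (l 16645736)) (a (l 16655448) (l 16665136))) (a (a (l 16674784) (l 16684400)) (a (l 16699232) (b (l 16699704) (l 16707392))))) (a (a (a (l 16635976) (l 16645720)) (a (l 16655432) (l 16665112))) (a (a (l 16674760) (l 16684384)) (a (l 16699208) (b (l 16699680) (l 16707368)))))) (c (a (a (a (l 16635960) (l 16645696)) (a (l 16655408) (l 16665088))) (a (a (l 16674744) (l 16684360)) (a (l 16699192) (b (l 16699656) (l 16707352))))) (a (a (a (l 16635936) (l 16645680)) (a (l 16655392) (l 16665072))) (a (a (l 16674720) (l 16684336)) (a (l 16699168) (b (l 16699632) (l 16707336))))))) (c (c (a (a (a (l 16635920)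 (l 16645656)) (a (l 16655368) (l 16665048))) (a (a (l 16674696) (l 16684320)) (a (l 16699152) (b (l 16699616) (l 16707312))))) (a (a (a (l 16635904) (l 16645640)) (a (l 16655344) (l 16665024))) (a (a (l 16674680) (l 16684296)) (a (l 16699128) (b (l 16699592) (l 16707296)))))) (c (a (a (a (l 16635888) (l 16645616)) (a (l 16655328) (l 16665008))) (a (a (l 16674656) (l 16684272)) (a (l 16699104) (b (l 16699568) (l 16707280))))) (a (a (a (l 16635864) (l 16645600)) (a (l 16655304) (l 16664984))) (a (a (l 16674632) (l 16684256)) (a (l 16699088) (b (l 16699552) (l 16707256)))))))), by decide +kernel⟩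

def k18_A00pp_022_s3 : ∃ t, chk3 f_A00pp_022_s3 t 9 115 9 = true :=
  ⟨(c (c (c (c (a (a (a (l 16635848) (l 16645576)) (a (l 16655288) (l 16664960))) (a (a (l 16674608) (l 16684232)) (a (l 16699064) (b (l 16699528) (l 16707240))))) (a (a (a (l 16635832) (l 16645560)) (a (l 16655264) (l 16664944))) (a (a (l 16674592) (l 16684208)) (a (l 16699040) (b (l 16699504) (l 16707224)))))) (a (a (a (l 16635800) (l 16645528)) (a (l 16655232) (l 16664912))) (a (a (l 16674560) (l 16684176)) (a (l 16699008) (b (l 16699472) (l 16707192)))))) (c (a (a (a (l 16635768) (l 16645488)) (a (l 16655192) (l 16664864))) (a (a (l 16674512) (l 16684136)) (a (l 16698968) (b (l 16699432) (l 16707160))))) (a (a (a (l 16635728) (l 16645448)) (a (l 16655152) (l 16664824))) (a (a (l 16674472) (l 16684096)) (a (l 16698928) (b (l 16699384) (l 16707120))))))) (c (c (a (a (a (l 16635696) (l 16645408)) (a (l 16655112) (l 16664784))) (a (a (l 16674432) (l 16684048)) (a (l 16698888) (b (l 16699344) (l 16707080))))) (a (a (a (l 16635656)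 (l 16645376)) (a (l 16655064) (l 16664736))) (a (a (l 16674384) (l 16684008)) (a (l 16698848) (b (l 16699296) (l 16707048)))))) (a (a (a (l 16635600) (l 16645312)) (a (l 16655008) (l 16664672))) (a (a (l 16674320) (l 16689184)) (a (l 16698784) (b (l 16699232) (l 16706992))))))), by decide +kernel⟩

def k19_A00pp_022_s3 : ∃ t, chk3 f_A00pp_022_s3 t 9 114 10 = true :=
  ⟨(b (c (b (c (a (a (a (l 16615408) (l 16625016)) (a (l 16634600) (l 16644176))) (a (a (l 16653720) (l 16663248)) (a (l 16672752) (l 16682232)))) (a (a (a (l 16615304) (l 16624904)) (a (l 16634488) (l 16644048))) (a (a (l 16653600) (l 16663128)) (a (l 16672632) (l 16682112))))) (c (a (a (a (l 16618968) (l 16628592)) (a (l 16638200) (l 16647792))) (a (a (l 16657352) (l 16666904)) (a (l 16676424) (l 16685920)))) (a (a (a (l 16618872) (l 16628488)) (a (l 16638088) (l 16647672))) (a (a (l 16657240) (l 16666784)) (a (l 16676312) (l 16685808)))))) (b (c (a (b (a (a (l 16614312) (l 16623896)) (a (l 16633472) (l 16643032))) (a (a (l 16616088)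 (l 16625688)) (a (l 16635264) (l 16644832)))) (a (a (l 16653472) (l 16663000)) (a (l 16672504) (l 16681992)))) (a (b (a (a (l 16614208) (l 16623784)) (a (l 16633352) (l 16642904))) (c (a (a (l 16616008) (l 16625600)) (a (l 16635176) (l 16644744))) (a (a (l 16615960) (l 16625544)) (a (l 16635120) (l 16644688))))) (a (a (l 16653352) (l 16662880)) (a (l 16672384) (l 16681872))))) (a (a (a (l 16618720) (l 16628328)) (a (l 16637928) (l 16647504))) (a (a (l 16657064) (l 16666608)) (a (l 16676136) (l 16685640)))))) (c (b (a (a (a (l 16622520) (l 16632168)) (a (l 16641784) (l 16651392))) (a (a (l 16660976) (l 16670544)) (a (l 16680080) (l 16689600)))) (a (a (a (l 16626176) (l 16635832)) (a (l 16645472) (l 16655096))) (a (a (l 16664696) (l 16674280)) (a (l 16683840) (l 16693368))))) (b (a (a (a (l 16622344) (l 16631968)) (a (l 16641584) (l 16651184))) (a (a (l 16660760) (l 16670328)) (a (l 16679872) (l 16689392)))) (a (a (a (l 16626000) (l 16635648)) (a (l 16645280) (l 16654896))) (a (a (l 16664496)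 (l 16674080)) (a (l 16683640) (l 16693176))))))), by decide +kernel⟩

def k20_A00pp_022_s3 : ∃ t, chk3 f_A00pp_022_s3 t 9 114 11 = true :=
  ⟨(b (c (b (c (a (a (a (l 16614992) (l 16624568)) (a (l 16634136) (l 16643688))) (a (a (l 16653224) (l 16662752)) (a (l 16672264) (l 16681752)))) (a (a (a (l 16614888) (l 16624456)) (a (l 16634016) (l 16643568))) (a (a (l 16653104) (l 16662632)) (a (l 16672136) (l 16681632))))) (a (a (a (l 16618528) (l 16628120)) (a (l 16637704) (l 16647280))) (a (a (l 16656832) (l 16666376)) (a (l 16675904) (l 16685416))))) (b (c (a (a (a (l 16614784) (l 16624344)) (a (l 16633904) (l 16643448))) (a (a (l 16652984) (l 16662504)) (a (l 16672016) (l 16681504)))) (a (a (a (l 16614680) (l 16624232)) (a (l 16633784) (l 16643328))) (a (a (l 16652856) (l 16662384)) (a (l 16671888) (l 16681384))))) (a (c (a (a (l 16618384) (l 16627968)) (a (l 16637544) (l 16647104))) (a (a (l 16618296) (l 16627864)) (a (l 16637432) (l 16646992)))) (a (a (l 16656608) (l 16666144)) (a (l 16675672)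 (l 16685184)))))) (c (b (c (a (a (a (l 16622208) (l 16631824)) (a (l 16641432) (l 16651024))) (a (a (l 16660600) (l 16670160)) (a (l 16679704) (l 16689232)))) (a (a (a (l 16622120) (l 16631728)) (a (l 16641328) (l 16650912))) (a (a (l 16660488) (l 16670056)) (a (l 16679600) (l 16689128))))) (a (a (a (l 16625840) (l 16635472)) (a (l 16645088) (l 16654696))) (a (a (l 16664296) (l 16673872)) (a (l 16683440) (l 16692976))))) (b (c (a (a (a (l 16622032) (l 16631632)) (a (l 16641224) (l 16650808))) (a (a (l 16660384) (l 16669944)) (a (l 16679488) (l 16689016)))) (a (a (a (l 16621944) (l 16631536)) (a (l 16641128) (l 16650704))) (a (a (l 16660272) (l 16669832)) (a (l 16679384) (l 16688912))))) (a (a (a (l 16625680) (l 16635296)) (a (l 16644904) (l 16654504))) (a (a (l 16664096) (l 16673672)) (a (l 16683232) (l 16692784))))))), by decide +kernel⟩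

def k21_A00pp_022_s3 : ∃ t, chk3 f_A00pp_022_s3 t 9 115 20 = true :=
  ⟨(c (c (c (a (a (a (l 16635560) (l 16645264)) (a (l 16654952) (l 16664624))) (a (a (l 16674272) (l 16683888)) (a (l 16698728) (b (l 16699176) (l 16706944))))) (a (a (a (l 16635544) (l 16645248)) (a (l 16654936) (l 16664600))) (a (a (l 16674248) (l 16683872)) (a (l 16698712) (b (l 16699160) (l 16706920)))))) (c (a (a (a (l 16635520) (l 16645232)) (a (l 16654912) (l 16664584))) (a (a (l 16674224) (l 16683848)) (a (l 16698688) (b (l 16699136) (l 16706904))))) (a (a (a (l 16635504) (l 16645208)) (a (l 16654896) (l 16664560))) (a (a (l 16674208) (l 16683824)) (a (l 16698664) (b (l 16699112) (l 16706888))))))) (c (c (a (a (a (l 16635488) (l 16645192)) (a (l 16654872) (l 16664536))) (a (a (l 16674184) (l 16683808)) (a (l 16698648) (b (l 16699096) (l 16706864))))) (a (a (a (l 16635472) (l 16645168)) (a (l 16654856) (l 16664520))) (a (a (l 16674160) (l 16683784)) (a (l 16698624) (b (l 16699072) (l 16706848)))))) (a (a (a (l 16635448)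 (l 16645144)) (a (l 16654824) (l 16664488))) (a (a (l 16674128) (l 16683752)) (a (l 16698592) (b (l 16699040) (l 16706824))))))), by decide +kernel⟩

def k22_A00pp_022_s3 : ∃ t, chk3 f_A00pp_022_s3 t 9 115 42 = true :=
  ⟨(c (c (c (a (a (a (l 16635424) (l 16645120)) (a (l 16654800) (l 16664464))) (a (a (l 16674104) (l 16683728)) (a (l 16698568) (b (l 16699008) (l 16706800))))) (a (a (a (l 16635416) (l 16645112)) (a (l 16654792) (l 16664448))) (a (a (l 16674096) (l 16683712)) (a (l 16698560) (b (l 16699000) (l 16706792)))))) (c (a (a (a (l 16635408) (l 16645104)) (a (l 16654776) (l 16664440))) (a (a (l 16674080) (l 16683704)) (a (l 16698544) (b (l 16698992) (l 16706776))))) (a (a (a (l 16635400) (l 16645088)) (a (l 16654768) (l 16664432))) (a (a (l 16674072) (l 16683696)) (a (l 16698536) (b (l 16698976) (l 16706768))))))) (c (c (a (a (a (l 16635392) (l 16645080)) (a (l 16654760) (l 16664416))) (a (a (l 16674064) (l 16683680)) (a (l 16698528) (b (l 16698968) (l 16706760))))) (a (a (a (l 16635384)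 (l 16645072)) (a (l 16654752) (l 16664408))) (a (a (l 16674048) (l 16683672)) (a (l 16698512) (b (l 16698960) (l 16706752)))))) (c (a (a (a (l 16635376) (l 16645064)) (a (l 16654736) (l 16664400))) (a (a (l 16674040) (l 16683664)) (a (l 16698504) (b (l 16698944) (l 16706744))))) (a (a (a (l 16635360) (l 16645056)) (a (l 16654728) (l 16664384))) (a (a (l 16674032) (l 16683648)) (a (l 16698496) (b (l 16698936) (l 16706736)))))))), by decide +kernel⟩

def k23_A00pp_022_s3 : ∃ t, chk3 f_A00pp_022_s3 t 9 115 43 = true :=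
  ⟨(c (c (c (a (a (a (l 16635352) (l 16645048)) (a (l 16654720) (l 16664376))) (a (a (l 16674016) (l 16683640)) (a (l 16698480) (b (l 16698920) (l 16706720))))) (a (a (a (l 16635344) (l 16645032)) (a (l 16654712) (l 16664368))) (a (a (l 16674008) (l 16683632)) (a (l 16698472) (b (l 16698912) (l 16706712)))))) (c (a (a (a (l 16635336) (l 16645024)) (a (l 16654696) (l 16664360))) (a (a (l 16674000) (l 16683616)) (a (l 16698464) (b (l 16698904) (l 16706704))))) (a (a (a (l 16635328) (l 16645016)) (a (l 16654688) (l 16664344))) (a (a (l 16673984) (l 16683608)) (a (l 16698456) (b (l 16698888) (l 16706696))))))) (c (c (a (a (a (l 16635320) (l 16645008)) (a (l 16654680) (l 16664336))) (a (a (l 16673976) (l 16683600)) (a (l 16698440) (b (l 16698880) (l 16706688))))) (a (a (a (l 16635312) (l 16645000)) (a (l 16654672) (l 16664328))) (a (a (l 16673968) (l 16683584)) (a (l 16698432) (b (l 16698872) (l 16706680)))))) (c (a (a (a (l 16635304) (l 16644992)) (a (l 16654656) (l 16664312))) (a (a (l 16673952)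 (l 16683576)) (a (l 16698424) (b (l 16698856) (l 16706664))))) (a (a (a (l 16635296) (l 16644976)) (a (l 16654648) (l 16664304))) (a (a (l 16673944) (l 16683568)) (a (l 16698408) (b (l 16698848) (l 16706656)))))))), by decide +kernel⟩

def k24_A00pp_022_s3 : ∃ t, chk3 f_A00pp_022_s3 t 9 115 44 = true :=
  ⟨(c (c (c (a (a (a (l 16635288) (l 16644968)) (a (l 16654640) (l 16664296))) (a (a (l 16673936) (l 16683552)) (a (l 16698400) (b (l 16698832) (l 16706648))))) (a (a (a (l 16635280) (l 16644960)) (a (l 16654632) (l 16664280))) (a (a (l 16673920) (l 16683544)) (a (l 16698392) (b (l 16698824) (l 16706640)))))) (c (a (a (a (l 16635272) (l 16644952)) (a (l 16654616) (l 16664272))) (a (a (l 16673912) (l 16683536)) (a (l 16698376) (b (l 16698816) (l 16706632))))) (a (a (a (l 16635264) (l 16644944)) (a (l 16654608) (l 16664264))) (a (a (l 16673904) (l 16683520)) (a (l 16698368) (b (l 16698800) (l 16706624))))))) (c (c (a (a (a (l 16635256) (l 16644936)) (a (l 16654600) (l 16664256))) (a (a (l 16673888)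 (l 16683512)) (a (l 16698360) (b (l 16698792) (l 16706608))))) (a (a (a (l 16635248) (l 16644920)) (a (l 16654592) (l 16664240))) (a (a (l 16673880) (l 16683504)) (a (l 16698344) (b (l 16698784) (l 16706600)))))) (c (a (a (a (l 16635240) (l 16644912)) (a (l 16654576) (l 16664232))) (a (a (l 16673872) (l 16683488)) (a (l 16698336) (b (l 16698768) (l 16706592))))) (a (a (a (l 16635232) (l 16644904)) (a (l 16654568) (l 16664224))) (a (a (l 16673856) (l 16683480)) (a (l 16698328) (b (l 16698760) (l 16706584)))))))), by decide +kernel⟩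

def k25_A00pp_022_s3 : ∃ t, chk3 f_A00pp_022_s3 t 9 115 45 = true :=
  ⟨(c (c (c (a (a (a (l 16635224) (l 16644896)) (a (l 16654560) (l 16664208))) (a (a (l 16673848) (l 16683472)) (a (l 16698320) (b (l 16698752) (l 16706576))))) (a (a (a (l 16635208) (l 16644888)) (a (l 16654552) (l 16664200))) (a (a (l 16673840) (l 16683456)) (a (l 16698304) (b (l 16698736) (l 16706568)))))) (c (a (a (a (l 16635200) (l 16644880)) (a (l 16654544) (l 16664192))) (a (a (l 16673824) (l 16683448)) (a (l 16698296) (b (l 16698728) (l 16706552))))) (a (a (a (l 16635192) (l 16644872)) (a (l 16654528) (l 16664184))) (a (a (l 16673816) (l 16683440)) (a (l 16698288) (b (l 16698712) (l 16706544))))))) (c (c (a (a (a (l 16635184) (l 16644856)) (a (l 16654520) (l 16664168))) (a (a (l 16673808) (l 16683424)) (a (l 16698272) (b (l 16698704) (l 16706536))))) (a (a (a (l 16635176) (l 16644848)) (a (l 16654512) (l 16664160))) (a (a (l 16673800) (l 16683416)) (a (l 16698264) (b (l 16698696) (l 16706528)))))) (c (a (a (a (l 16635168)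 (l 16644840)) (a (l 16654504) (l 16664152))) (a (a (l 16673784) (l 16683408)) (a (l 16698256) (a (l 16700200) (l 16704984))))) (a (a (a (l 16635160) (l 16644832)) (a (l 16654488) (l 16664136))) (a (a (l 16673776) (l 16683400)) (a (l 16698240) (a (l 16700192) (l 16704976)))))))), by decide +kernel⟩

def k26_A00pp_022_s3 : ∃ t, chk3 f_A00pp_022_s3 t 9 115 46 = true :=
  ⟨(c (c (c (a (a (a (l 16635152) (l 16644824)) (a (l 16654480) (l 16664128))) (a (a (l 16673768) (l 16683384)) (a (l 16698232) (a (l 16700184) (l 16704960))))) (a (a (a (l 16635144) (l 16644816)) (a (l 16654472) (l 16664120))) (a (a (l 16673752) (l 16683376)) (a (l 16698224) (a (l 16700168) (l 16704952)))))) (c (a (a (a (l 16635136) (l 16644808)) (a (l 16654464) (l 16664112))) (a (a (l 16673744) (l 16683368)) (a (l 16698208) (a (l 16700160) (l 16704944))))) (a (a (a (l 16635128) (l 16644792)) (a (l 16654456) (l 16664096))) (a (a (l 16673736) (l 16683352)) (a (l 16698200) (a (l 16700152) (l 16704936))))))) (c (c (a (a (a (l 16635120)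 (l 16644784)) (a (l 16654440) (l 16664088))) (a (a (l 16673720) (l 16683344)) (a (l 16698192) (a (l 16700144) (l 16704920))))) (a (a (a (l 16635112) (l 16644776)) (a (l 16654432) (l 16664080))) (a (a (l 16673712) (l 16683336)) (a (l 16698184) (a (l 16700128) (l 16704912)))))) (c (a (a (a (l 16635104) (l 16644768)) (a (l 16654424) (l 16664072))) (a (a (l 16673704) (l 16683320)) (a (l 16698168) (a (l 16700120) (l 16704904))))) (a (a (a (l 16635096) (l 16644760)) (a (l 16654416) (l 16664056))) (a (a (l 16673688) (l 16683312)) (a (l 16698160) (a (l 16700112) (l 16704896)))))))), by decide +kernel⟩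

def k27_A00pp_022_s3 : ∃ t, chk3 f_A00pp_022_s3 t 9 115 47 = true :=
  ⟨(c (c (c (a (a (a (l 16635088) (l 16644752)) (a (l 16654400) (l 16664048))) (a (a (l 16673680) (l 16683304)) (a (l 16698152) (a (l 16700096) (l 16704880))))) (a (a (a (l 16635080) (l 16644744)) (a (l 16654392) (l 16664040))) (a (a (l 16673672) (l 16683288)) (a (l 16698136) (a (l 16700088) (l 16704872)))))) (c (a (a (a (l 16635072) (l 16644728)) (a (l 16654384) (l 16664024))) (a (a (l 16673656) (l 16683280)) (a (l 16698128) (a (l 16700080) (l 16704864))))) (a (a (a (l 16635064) (l 16644720)) (a (l 16654376) (l 16664016))) (a (a (l 16673648) (l 16683272)) (a (l 16698120) (a (l 16700072) (l 16704856))))))) (c (c (a (a (a (l 16635056) (l 16644712)) (a (l 16654368) (l 16664008))) (a (a (l 16673640) (l 16683256)) (a (l 16698104) (a (l 16700056) (l 16704840))))) (a (a (a (l 16635048) (l 16644704)) (a (l 16654352) (l 16664000))) (a (a (l 16673632) (l 16683248)) (a (l 16698096) (a (l 16700048) (l 16704832)))))) (c (a (a (a (l 16635040)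 (l 16644696)) (a (l 16654344) (l 16663984))) (a (a (l 16673616) (l 16683240)) (a (l 16698088) (a (l 16700040) (l 16704824))))) (a (a (a (l 16635032) (l 16644688)) (a (l 16654336) (l 16663976))) (a (a (l 16673608) (l 16683224)) (a (l 16698080) (a (l 16700024) (l 16704816)))))))), by decide +kernel⟩

def k28_A00pp_022_s3 : ∃ t, chk3 f_A00pp_022_s3 t 9 228 12 = true :=
  ⟨(c (b (c (a (a (a (l 16614584) (l 16624128)) (a (l 16633664) (l 16643208))) (a (a (l 16652736) (l 16662256)) (a (l 16671768) (l 16681264)))) (a (a (a (l 16614480) (l 16624016)) (a (l 16633552) (l 16643088))) (a (a (l 16652608) (l 16662128)) (a (l 16671640) (l 16681144))))) (c (a (a (a (l 16618200) (l 16627768)) (a (l 16637328) (l 16646880))) (a (a (l 16656432) (l 16665976)) (a (l 16675504) (l 16685016)))) (a (a (a (l 16618104) (l 16627664)) (a (l 16637216) (l 16646768))) (a (a (l 16656320) (l 16665856)) (a (l 16675384) (l 16684904)))))) (b (c (a (a (a (l 16614376) (l 16623904)) (a (l 16633440) (l 16642968))) (a (a (l 16652488)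 (l 16662008)) (a (l 16671520) (l 16681016)))) (a (a (a (l 16614280) (l 16623800)) (a (l 16633320) (l 16642840))) (a (a (l 16652368) (l 16661880)) (a (l 16671392) (l 16680896))))) (a (c (a (a (l 16618016) (l 16627560)) (a (l 16637112) (l 16646656))) (a (a (l 16617920) (l 16627464)) (a (l 16637000) (l 16646544)))) (a (a (l 16656144) (l 16665680)) (a (l 16675208) (l 16684728)))))), by decide +kernel⟩

def k29_A00pp_022_s3 : ∃ t, chk3 f_A00pp_022_s3 t 9 228 13 = true :=
  ⟨(c (b (a (b (a (a (l 16613224) (l 16622728)) (a (l 16632232) (l 16641744))) (a (a (l 16615040) (l 16624552)) (a (l 16634072) (l 16643592)))) (a (a (l 16652176) (l 16661696)) (a (l 16671208) (l 16680712)))) (c (a (a (a (l 16617832) (l 16627360)) (a (l 16636896) (l 16646432))) (a (a (l 16655968) (l 16665504)) (a (l 16675032) (l 16684560)))) (a (a (a (l 16617736) (l 16627264)) (a (l 16636792) (l 16646320))) (a (a (l 16655856) (l 16665392)) (a (l 16674920) (l 16684440)))))) (b (a (b (a (a (l 16613024) (l 16622504)) (a (l 16632000)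 (l 16641496))) (a (a (l 16614848) (l 16624344)) (a (l 16633848) (l 16643352)))) (a (a (l 16651936) (l 16661440)) (a (l 16670952) (l 16680464)))) (a (c (a (a (l 16617648) (l 16627160)) (a (l 16636688) (l 16646208))) (b (a (a (l 16616640) (l 16626136)) (a (l 16635648) (l 16645160))) (a (a (l 16618480) (l 16627992)) (a (l 16637512) (l 16647040))))) (a (a (l 16655680) (l 16665216)) (a (l 16674744) (l 16684272)))))), by decide +kernel⟩

def k30_A00pp_022_s3 : ∃ t, chk3 f_A00pp_022_s3 t 9 229 12 = true :=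
  ⟨(c (b (a (c (a (a (l 16621856) (l 16631440)) (a (l 16641024) (l 16650600))) (a (a (l 16621768) (l 16631352)) (a (l 16640920) (l 16650496)))) (a (a (l 16660112) (l 16669672)) (a (l 16679224) (l 16688752)))) (a (a (a (l 16625520) (l 16635120)) (a (l 16644712) (l 16654304))) (a (a (l 16663896) (l 16673472)) (a (l 16683032) (l 16692584))))) (b (a (c (b (a (a (l 16620760) (l 16630328)) (a (l 16639888) (l 16649456))) (a (a (l 16622608) (l 16632184)) (a (l 16641760) (l 16651328)))) (b (a (a (l 16620680) (l 16630232)) (a (l 16639792) (l 16649344))) (c (a (a (l 16622544) (l 16632112)) (a (l 16641688) (l 16651256))) (a (a (l 16622504) (l 16632072)) (a (l 16641640) (l 16651200)))))) (a (a (l 16659896) (l 16669456)) (a (l 16679000) (l 16688544)))) (a (a (a (l 16625360) (l 16634944)) (a (l 16644528) (l 16654112))) (a (a (l 16663696) (l 16673264)) (a (l 16682832) (l 16692384)))))), by decide +kernel⟩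

def k31_A00pp_022_s3 : ∃ t, chk3 f_A00pp_022_s3 t 9 229 13 = true :=
  ⟨(c (b (a (c (b (a (a (l 16620592) (l 16630136)) (a (l 16639688) (l 16649240))) (c (a (a (l 16622464) (l 16632024)) (a (l 16641584) (l 16651152))) (a (a (l 16622424) (l 16631976)) (a (l 16641536) (l 16651096))))) (b (a (a (l 16620504) (l 16630048)) (a (l 16639592) (l 16649136))) (c (a (a (l 16622384) (l 16631936)) (a (l 16641488) (l 16651048))) (a (a (l 16622344) (l 16631888)) (a (l 16641440) (l 16651000)))))) (a (a (l 16659688) (l 16669240)) (a (l 16678784) (l 16688328)))) (a (a (a (l 16625208) (l 16634776)) (a (l 16644344) (l 16653920))) (a (a (l 16663496) (l 16673064)) (a (l 16682632) (l 16692192))))) (b (a (c (b (c (a (a (l 16620440) (l 16629976)) (a (l 16639512) (l 16649056))) (a (a (l 16620400) (l 16629928)) (a (l 16639464) (l 16649008)))) (c (a (a (l 16622304) (l 16631848)) (a (l 16641392) (l 16650944))) (b (a (a (l 16621800) (l 16631328)) (a (l 16640872) (l 16650424))) (a (a (l 16622728) (l 16632272)) (a (l 16641816)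 (l 16651368)))))) (b (c (a (a (l 16620360) (l 16629880)) (a (l 16639416) (l 16648952))) (b (a (a (l 16619856) (l 16629368)) (a (l 16638896) (l 16648424))) (a (a (l 16620784) (l 16630304)) (a (l 16639832) (l 16649376))))) (c (b (a (a (l 16621752) (l 16631288)) (a (l 16640824) (l 16650368))) (a (a (l 16622688) (l 16632224)) (a (l 16641768) (l 16651320)))) (b (c (a (a (l 16621728) (l 16631256)) (a (l 16640792) (l 16650336))) (a (a (l 16621704) (l 16631232)) (a (l 16640768) (l 16650304)))) (a (a (l 16622648) (l 16632184)) (a (l 16641720) (l 16651272))))))) (a (a (l 16659472) (l 16669024)) (a (l 16678568) (l 16688112)))) (a (a (a (l 16625056) (l 16634608)) (a (l 16644160) (l 16653728))) (a (a (l 16663296) (l 16672864)) (a (l 16682432) (l 16691992)))))), by decide +kernel⟩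

def k32_A00pp_022_s3 : ∃ t, chk3 f_A00pp_022_s3 t 9 115 24 = true :=
  ⟨(c (c (c (c (a (a (a (l 16635024) (l 16644680)) (a (l 16654328) (l 16663968))) (a (a (l 16673600) (l 16683216)) (a (l 16698064) (a (l 16700016) (l 16704800))))) (a (a (a (l 16635016) (l 16644672)) (a (l 16654320) (l 16663952))) (a (a (l 16673584) (l 16683208)) (a (l 16698056) (a (l 16700008) (l 16704792)))))) (a (a (a (l 16635000) (l 16644656)) (a (l 16654304) (l 16663944))) (a (a (l 16673568) (l 16683192)) (a (l 16698040) (a (l 16699992) (l 16704776)))))) (c (a (a (a (l 16634984) (l 16644640)) (a (l 16654280) (l 16663920))) (a (a (l 16673552) (l 16683168)) (a (l 16698016) (a (l 16699968) (l 16704760))))) (a (a (a (l 16634968) (l 16644616)) (a (l 16654264) (l 16663904))) (a (a (l 16673528) (l 16683144)) (a (l 16698000) (a (l 16699952) (l 16704736))))))) (c (c (a (a (a (l 16634952) (l 16644600)) (a (l 16654240) (l 16663880))) (a (a (l 16673512) (l 16683128)) (a (l 16697976) (a (l 16699928) (l 16704720))))) (a (a (a (l 16634936)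 (l 16644584)) (a (l 16654224) (l 16663856))) (a (a (l 16673488) (l 16683104)) (a (l 16697960) (a (l 16699912) (l 16704696)))))) (c (a (a (a (l 16634920) (l 16644568)) (a (l 16654208) (l 16663840))) (a (a (l 16673464) (l 16683088)) (a (l 16697936) (a (l 16699888) (l 16704680))))) (a (a (a (l 16634912) (l 16644552)) (a (l 16654184) (l 16663816))) (a (a (l 16673448) (l 16683064)) (a (l 16697912) (a (l 16699872) (l 16704656)))))))), by decide +kernel⟩

def k33_A00pp_022_s3 : ∃ t, chk3 f_A00pp_022_s3 t 9 115 50 = true :=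
  ⟨(c (c (a (a (a (l 16634896) (l 16644528)) (a (l 16654168) (l 16663800))) (a (a (l 16673424) (l 16683040)) (a (l 16697896) (a (l 16699848) (l 16704640))))) (a (a (a (l 16634880) (l 16644512)) (a (l 16654144) (l 16663776))) (a (a (l 16673408) (l 16683024)) (a (l 16697872) (a (l 16699824) (l 16704616)))))) (c (a (a (a (l 16634864) (l 16644496)) (a (l 16654128) (l 16663760))) (a (a (l 16673384) (l 16683000)) (a (l 16697848) (a (l 16699808) (l 16704600))))) (c (a (a (a (l 16634848) (l 16644480)) (a (l 16654112) (l 16663744))) (a (a (l 16673368) (l 16682984)) (a (l 16697840) (a (l 16699792) (l 16704584))))) (a (a (a (l 16634840) (l 16644472)) (a (l 16654104) (l 16663736))) (a (a (l 16673360) (l 16682976)) (a (l 16697824) (a (l 16699784) (l 16704568)))))))), by decide +kernel⟩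

def k34_A00pp_022_s3 : ∃ t, chk3 f_A00pp_022_s3 t 9 115 51 = true :=
  ⟨(c (c (c (a (a (a (l 16634832) (l 16644464)) (a (l 16654096) (l 16663720))) (a (a (l 16673344) (l 16682960)) (a (l 16697816) (a (l 16699768) (l 16704560))))) (a (a (a (l 16634824) (l 16644456)) (a (l 16654088) (l 16663712))) (a (a (l 16673336) (l 16682952)) (a (l 16697808) (a (l 16699760) (l 16704552)))))) (c (a (a (a (l 16634816) (l 16644448)) (a (l 16654080) (l 16663704))) (a (a (l 16673328) (l 16682944)) (a (l 16697792) (a (l 16699752) (l 16704544))))) (a (a (a (l 16634808) (l 16644440)) (a (l 16654064) (l 16663696))) (a (a (l 16673312) (l 16682936)) (a (l 16697784) (a (l 16699744) (l 16704528))))))) (c (c (a (a (a (l 16634800) (l 16644432)) (a (l 16654056) (l 16663680))) (a (a (l 16673304) (l 16682920)) (a (l 16697776) (a (l 16699728) (l 16704520))))) (a (a (a (l 16634792) (l 16644424)) (a (l 16654048) (l 16663672))) (a (a (l 16673296) (l 16682912)) (a (l 16697760) (a (l 16699720) (l 16704512)))))) (c (a (a (a (l 16634784)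 (l 16644416)) (a (l 16654040) (l 16663664))) (a (a (l 16673288) (l 16682904)) (a (l 16697752) (a (l 16699712) (l 16704504))))) (a (a (a (l 16634776) (l 16644408)) (a (l 16654032) (l 16663656))) (a (a (l 16673272) (l 16682888)) (a (l 16697744) (a (l 16699696) (l 16704488)))))))), by decide +kernel⟩

def k35_A00pp_022_s3 : ∃ t, chk3 f_A00pp_022_s3 t 9 115 52 = true :=
  ⟨(c (c (c (a (a (a (l 16634776) (l 16644392)) (a (l 16654016) (l 16663640))) (a (a (l 16673264) (l 16682880)) (a (l 16697728) (a (l 16699688) (l 16704480))))) (a (a (a (l 16634768) (l 16644384)) (a (l 16654008) (l 16663632))) (a (a (l 16673256) (l 16682872)) (a (l 16697720) (a (l 16699680) (l 16704472)))))) (c (a (a (a (l 16634760) (l 16644376)) (a (l 16654000) (l 16663624))) (a (a (l 16673240) (l 16682856)) (a (l 16697712) (a (l 16699672) (l 16704464))))) (a (a (a (l 16634752) (l 16644368)) (a (l 16653992) (l 16663616))) (a (a (l 16673232) (l 16682848)) (a (l 16697704) (a (l 16699656) (l 16704448))))))) (c (c (a (a (a (l 16634744)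 (l 16644360)) (a (l 16653984) (l 16663600))) (a (a (l 16673224) (l 16682840)) (a (l 16697688) (a (l 16699648) (l 16704440))))) (a (a (a (l 16634736) (l 16644352)) (a (l 16653976) (l 16663592))) (a (a (l 16673216) (l 16682824)) (a (l 16697680) (a (l 16699640) (l 16704432)))))) (c (a (a (a (l 16634728) (l 16644344)) (a (l 16653960) (l 16663584))) (a (a (l 16673200) (l 16682816)) (a (l 16697672) (a (l 16699624) (l 16704424))))) (a (a (a (l 16634720) (l 16644336)) (a (l 16653952) (l 16663576))) (a (a (l 16673192) (l 16682808)) (a (l 16697656) (a (l 16699616) (l 16704408)))))))), by decide +kernel⟩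

def k36_A00pp_022_s3 : ∃ t, chk3 f_A00pp_022_s3 t 9 115 106 = true :=
  ⟨(c (c (a (a (a (l 16634712) (l 16644328)) (a (l 16653944) (l 16663560))) (a (a (l 16673184) (l 16682800)) (a (l 16697648) (a (l 16699608) (l 16704400))))) (a (a (a (l 16634704) (l 16644320)) (a (l 16653936) (l 16663552))) (a (a (l 16673168) (l 16682784)) (a (l 16697640) (a (l 16699600) (l 16704392)))))) (c (a (a (a (l 16634696) (l 16644312)) (a (l 16653928) (l 16663544))) (a (a (l 16673160) (l 16682776)) (a (l 16697624) (a (l 16699584) (l 16704376))))) (a (a (a (l 16634688) (l 16644304)) (a (l 16653920) (l 16663536))) (a (a (l 16673152) (l 16682768)) (a (l 16697616) (a (l 16699576) (l 16704368))))))), by decide +kernel⟩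

def k37_A00pp_022_s3 : ∃ t, chk3 f_A00pp_022_s3 t 9 115 107 = true :=
  ⟨(c (c (c (a (a (a (l 16634680) (l 16644296)) (a (l 16653912) (l 16663528))) (a (a (l 16673144) (l 16682760)) (a (l 16697608) (a (l 16699568) (l 16704360))))) (a (a (a (l 16634680) (l 16644288)) (a (l 16653904) (l 16663520))) (a (a (l 16673136) (l 16682752)) (a (l 16697600) (a (l 16699560) (l 16704360)))))) (c (a (a (a (l 16634672) (l 16644288)) (a (l 16653904) (l 16663520))) (a (a (l 16673136) (l 16682744)) (a (l 16697600) (a (l 16699560) (l 16704352))))) (a (a (a (l 16634672) (l 16644280)) (a (l 16653896) (l 16663512))) (a (a (l 16673128) (l 16682744)) (a (l 16697592) (a (l 16699552) (l 16704344))))))) (c (c (a (a (a (l 16634664) (l 16644280)) (a (l 16653888) (l 16663504))) (a (a (l 16673120) (l 16682736)) (a (l 16697592) (a (l 16699544) (l 16704344))))) (a (a (a (l 16634664) (l 16644272)) (a (l 16653888) (l 16663504))) (a (a (l 16673120) (l 16682728)) (a (l 16697584) (a (l 16699544) (l 16704336)))))) (c (a (a (a (l 16634664)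 (l 16644272)) (a (l 16653880) (l 16663496))) (a (a (l 16673112) (l 16682728)) (a (l 16697576) (a (l 16699536) (l 16704328))))) (a (a (a (l 16634656) (l 16644264)) (a (l 16653880) (l 16663488))) (a (a (l 16673104) (l 16682720)) (a (l 16697576) (a (l 16699536) (l 16704328)))))))), by decide +kernel⟩

def k38_A00pp_022_s3 : ∃ t, chk3 f_A00pp_022_s3 t 9 115 54 = true :=
  ⟨(c (c (c (c (a (a (a (l 16634656) (l 16644264)) (a (l 16653872) (l 16663488))) (a (a (l 16673104) (l 16682712)) (a (l 16697568) (a (l 16699528) (l 16704320))))) (a (a (a (l 16634648) (l 16644256)) (a (l 16653864) (l 16663480))) (a (a (l 16673096) (l 16682712)) (a (l 16697560) (a (l 16699520) (l 16704320)))))) (c (a (a (a (l 16634648) (l 16644248)) (a (l 16653864) (l 16663480))) (a (a (l 16673088) (l 16682704)) (a (l 16697560) (a (l 16699520) (l 16704312))))) (a (a (a (l 16634640) (l 16644248)) (a (l 16653856) (l 16663472))) (a (a (l 16673088) (l 16682696)) (a (l 16697552) (a (l 16699512) (l 16704304))))))) (c (c (a (a (a (l 16634640)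 (l 16644240)) (a (l 16653856) (l 16663464))) (a (a (l 16673080) (l 16682696)) (a (l 16697544) (a (l 16699504) (l 16704304))))) (a (a (a (l 16634632) (l 16644240)) (a (l 16653848) (l 16663464))) (a (a (l 16673080) (l 16682688)) (a (l 16697544) (a (l 16699504) (l 16704296)))))) (a (a (a (l 16634632) (l 16644232)) (a (l 16653840) (l 16663456))) (a (a (l 16673072) (l 16682680)) (a (l 16697536) (a (l 16699496) (l 16704288))))))) (c (c (a (a (a (l 16634624) (l 16644224)) (a (l 16653832) (l 16663448))) (a (a (l 16673056) (l 16682672)) (a (l 16697520) (a (l 16699480) (l 16704280))))) (a (a (a (l 16634616) (l 16644216)) (a (l 16653824) (l 16663432))) (a (a (l 16673048) (l 16682664)) (a (l 16697512) (a (l 16699472) (l 16704272)))))) (c (a (a (a (l 16634608) (l 16644208)) (a (l 16653816) (l 16663424))) (a (a (l 16673040) (l 16682648)) (a (l 16697504) (a (l 16699464) (l 16704256))))) (a (a (a (l 16634600) (l 16644200)) (a (l 16653808) (l 16663416))) (a (a (l 16673024) (l 16682640)) (a (l 16697488) (a (l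 16699456) (l 16704248)))))))), by decide +kernel⟩

def k39_A00pp_022_s3 : ∃ t, chk3 f_A00pp_022_s3 t 9 115 55 = true :=
  ⟨(c (c (c (a (a (a (l 16634592) (l 16644192)) (a (l 16653792) (l 16663408))) (a (a (l 16673016) (l 16682632)) (a (l 16697480) (a (l 16699440) (l 16704240))))) (a (a (a (l 16634584) (l 16644184)) (a (l 16653784) (l 16663392))) (a (a (l 16673008) (l 16682616)) (a (l 16697472) (a (l 16699432) (l 16704232)))))) (c (a (a (a (l 16634576) (l 16644176)) (a (l 16653776) (l 16663384))) (a (a (l 16673000) (l 16682608)) (a (l 16697464) (a (l 16699424) (l 16704216))))) (a (a (a (l 16634568) (l 16644168)) (a (l 16653768) (l 16663376))) (a (a (l 16672984) (l 16682600)) (a (l 16697448) (a (l 16699408) (l 16704208))))))) (c (a (a (a (l 16634560) (l 16644152)) (a (l 16653752) (l 16663360))) (a (a (l 16672968) (l 16682584)) (a (l 16697432) (a (l 16699400) (l 16704192))))) (a (a (a (l 16634544) (l 16644136)) (a (l 16653736) (l 16663344))) (a (a (l 16672952) (l 16682560)) (a (l 16697416) (a (l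 16699376) (l 16704176))))))), by decide +kernel⟩

def k40_A00pp_022_s3 : ∃ t, chk3 f_A00pp_022_s3 t 9 228 28 = true :=
  ⟨(b (a (b (a (a (l 16612824) (l 16622288)) (a (l 16631768) (l 16641256))) (a (a (l 16614656) (l 16624136)) (a (l 16633624) (l 16643120)))) (a (a (l 16651688) (l 16661192)) (a (l 16670704) (l 16680208)))) (a (c (b (a (a (l 16616544) (l 16626040)) (a (l 16635536) (l 16645048))) (c (a (a (l 16618416) (l 16627920)) (a (l 16637432) (l 16646960))) (a (a (l 16618376) (l 16627872)) (a (l 16637384) (l 16646904))))) (b (a (a (l 16616456) (l 16625936)) (a (l 16635432) (l 16644936))) (c (a (a (l 16618328) (l 16627824)) (a (l 16637328) (l 16646848))) (a (a (l 16618288) (l 16627776)) (a (l 16637280) (l 16646792)))))) (a (a (l 16655456) (l 16664984)) (a (l 16674512) (l 16684040))))), by decide +kernel⟩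

def k41_A00pp_022_s3 : ∃ t, chk3 f_A00pp_022_s3 t 9 228 29 = true :=
  ⟨(b (a (b (a (a (l 16612632) (l 16622072)) (a (l 16631536) (l 16641008))) (a (a (l 16614472) (l 16623928)) (a (l 16633400) (l 16642888)))) (a (a (l 16651440) (l 16660944)) (a (l 16670448) (l 16679960)))) (a (c (b (a (a (l 16616368) (l 16625840)) (a (l 16635328) (l 16644824))) (c (b (a (a (l 16617784) (l 16627264)) (a (l 16636760) (l 16646264))) (a (a (l 16618712) (l 16628200)) (a (l 16637704) (l 16647216)))) (b (a (a (l 16617736) (l 16627216)) (a (l 16636704) (l 16646216))) (c (a (a (l 16618680) (l 16628160)) (a (l 16637664) (l 16647176))) (a (a (l 16618656) (l 16628136)) (a (l 16637640) (l 16647144))))))) (b (c (a (a (l 16616296) (l 16625768)) (a (l 16635248) (l 16644736))) (a (a (l 16616256) (l 16625712)) (a (l 16635192) (l 16644680)))) (c (b (a (a (l 16617696) (l 16627168)) (a (l 16636656) (l 16646160))) (c (a (a (l 16618640) (l 16628120)) (a (l 16637608) (l 16647120))) (a (a (l 16618616) (l 16628096)) (a (l 16637584)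 (l 16647096))))) (b (a (a (l 16617648) (l 16627120)) (a (l 16636600) (l 16646104))) (c (a (a (l 16618592) (l 16628072)) (a (l 16637560) (l 16647064))) (b (a (a (l 16618344) (l 16627808)) (a (l 16637296) (l 16646800))) (a (a (l 16618808) (l 16628280)) (a (l 16637768) (l 16647280))))))))) (a (a (l 16655224) (l 16664744)) (a (l 16674272) (l 16683800))))), by decide +kernel⟩

def k42_A00pp_022_s3 : ∃ t, chk3 f_A00pp_022_s3 t 18 456 30 = true :=
  ⟨(b (a (a (l 16612440) (l 16621864)) (a (l 16631304) (l 16640768))) (c (a (a (l 16614336) (l 16623776)) (a (l 16633232) (l 16642712))) (c (a (a (l 16614264) (l 16623696)) (a (l 16633152) (l 16642624))) (a (a (l 16614216) (l 16623648)) (a (l 16633096) (l 16642568)))))), by decide +kernel⟩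

def k43_A00pp_022_s3 : ∃ t, chk3 f_A00pp_022_s3 t 18 457 60 = true :=
  ⟨(b (c (a (a (l 16616208) (l 16625664)) (a (l 16635136) (l 16644624))) (b (a (a (l 16615704) (l 16625152)) (a (l 16634616) (l 16644096))) (a (a (l 16616632) (l 16626088)) (a (l 16635560) (l 16645048))))) (c (b (c (a (a (l 16617616) (l 16627080)) (a (l 16636568) (l 16646064))) (b (a (a (l 16617368) (l 16626824)) (a (l 16636304) (l 16645800))) (a (a (l 16617832) (l 16627296)) (a (l 16636776) (l 16646272))))) (c (b (a (a (l 16618320) (l 16627792)) (a (l 16637272) (l 16646776))) (a (a (l 16618792) (l 16628256)) (a (l 16637744) (l 16647248)))) (b (a (a (l 16618296) (l 16627768)) (a (l 16637248) (l 16646744))) (c (a (a (l 16618776) (l 16628240)) (a (l 16637728) (l 16647232))) (a (a (l 16618760) (l 16628232)) (a (l 16637712) (l 16647216))))))) (b (c (b (a (a (l 16617344) (l 16626800)) (a (l 16636280) (l 16645768))) (a (a (l 16617808) (l 16627272)) (a (l 16636752) (l 16646248)))) (b (a (a (l 16617320) (l 16626776)) (a (l 16636248)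 (l 16645744))) (a (a (l 16617792) (l 16627248)) (a (l 16636728) (l 16646216))))) (c (b (a (a (l 16618280) (l 16627744)) (a (l 16637224) (l 16646720))) (c (a (a (l 16618752) (l 16628216)) (a (l 16637704) (l 16647200))) (a (a (l 16618744) (l 16628208)) (a (l 16637688) (l 16647192))))) (b (a (a (l 16618256) (l 16627720)) (a (l 16637200) (l 16646696))) (c (a (a (l 16618728) (l 16628192)) (a (l 16637680) (l 16647176))) (a (a (l 16618720) (l 16628184)) (a (l 16637664) (l 16647160))))))))), by decide +kernel⟩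

def k44_A00pp_022_s3 : ∃ t, chk3 f_A00pp_022_s3 t 18 914 61 = true :=
  ⟨(c (b (a (a (l 16615656) (l 16625096)) (a (l 16634560) (l 16644040))) (c (a (a (l 16616600) (l 16626048)) (a (l 16635520) (l 16645000))) (a (a (l 16616576) (l 16626024)) (a (l 16635488) (l 16644976))))) (b (a (a (l 16615616) (l 16625048)) (a (l 16634512) (l 16643984))) (c (b (a (a (l 16616328) (l 16625768)) (a (l 16635232) (l 16644712))) (a (a (l 16616792) (l 16626240)) (a (l 16635704) (l 16645184)))) (b (a (a (l 16616304) (l 16625744)) (a (l 16635200) (l 16644680))) (a (a (l 16616768) (l 16626216)) (a (l 16635672) (l 16645160))))))), by decide +kernel⟩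

def k45_A00pp_022_s3 : ∃ t, chk3 f_A00pp_022_s3 t 18 915 122 = true :=
  ⟨(b (c (b (a (a (l 16617304) (l 16626752)) (a (l 16636224) (l 16645712))) (a (a (l 16617768) (l 16627224)) (a (l 16636696) (l 16646192)))) (b (a (a (l 16617280) (l 16626728)) (a (l 16636200) (l 16645688))) (c (a (a (l 16617752) (l 16627208)) (a (l 16636680) (l 16646168))) (a (a (l 16617744) (l 16627192)) (a (l 16636664) (l 16646160)))))) (c (b (c (a (a (l 16618240) (l 16627704)) (a (l 16637176) (l 16646672))) (a (a (l 16618232) (l 16627688)) (a (l 16637168) (l 16646664)))) (c (a (a (l 16618712) (l 16628168)) (a (l 16637656) (l 16647152))) (a (a (l 16618704) (l 16628160)) (a (l 16637640) (l 16647136))))) (b (c (a (a (l 16618224) (l 16627680)) (a (l 16637152) (l 16646648))) (b (a (a (l 16618096) (l 16627544)) (a (l 16637024) (l 16646512))) (a (a (l 16618328) (l 16627784)) (a (l 16637256) (l 16646752))))) (c (a (a (l 16618688) (l 16628152)) (a (l 16637624) (l 16647120))) (a (a (l 16618680) (l 16628136)) (a (l 16637616) (l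 16647112))))))), by decide +kernel⟩

def k46_A00pp_022_s3 : ∃ t, chk3 f_A00pp_022_s3 t 18 915 123 = true :=
  ⟨(b (c (b (a (a (l 16617256) (l 16626704)) (a (l 16636176) (l 16645664))) (c (a (a (l 16617736) (l 16627184)) (a (l 16636656) (l 16646144))) (b (a (a (l 16617608) (l 16627056)) (a (l 16636520) (l 16646008))) (a (a (l 16617840) (l 16627288)) (a (l 16636760) (l 16646248)))))) (b (c (a (a (l 16617240) (l 16626688)) (a (l 16636152) (l 16645640))) (a (a (l 16617232) (l 16626680)) (a (l 16636144) (l 16645624)))) (c (b (a (a (l 16617592) (l 16627040)) (a (l 16636512) (l 16646000))) (a (a (l 16617832) (l 16627280)) (a (l 16636744) (l 16646232)))) (b (a (a (l 16617584) (l 16627032)) (a (l 16636496) (l 16645984))) (a (a (l 16617816) (l 16627264)) (a (l 16636736) (l 16646224))))))) (c (b (c (b (a (a (l 16618080) (l 16627536)) (a (l 16637008) (l 16646504))) (a (a (l 16618320) (l 16627776)) (a (l 16637248) (l 16646736)))) (b (a (a (l 16618072) (l 16627528)) (a (l 16637000) (l 16646488))) (a (a (l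 16618304) (l 16627760)) (a (l 16637232) (l 16646728))))) (c (a (a (l 16618672) (l 16628128)) (a (l 16637600) (l 16647096))) (a (a (l 16618656) (l 16628112)) (a (l 16637592) (l 16647080))))) (b (c (b (a (a (l 16618064) (l 16627512)) (a (l 16636984) (l 16646472))) (a (a (l 16618296) (l 16627752)) (a (l 16637224) (l 16646712)))) (b (a (a (l 16618056) (l 16627504)) (a (l 16636968) (l 16646464))) (a (a (l 16618288) (l 16627736)) (a (l 16637208) (l 16646696))))) (c (a (a (l 16618648) (l 16628104)) (a (l 16637576) (l 16647072))) (a (a (l 16618640) (l 16628088)) (a (l 16637568) (l 16647056))))))), by decide +kernel⟩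

def k47_A00pp_022_s3 : ∃ t, chk3 f_A00pp_022_s3 t 19 228 30 = true :=
  ⟨(a (a (l 16653096) (l 16662600)) (a (l 16672112) (l 16681640))), by decide +kernel⟩

def k48_A00pp_022_s3 : ∃ t, chk3 f_A00pp_022_s3 t 18 456 31 = true :=
  ⟨(b (c (a (a (l 16612296) (l 16621704)) (a (l 16631136) (l 16640592))) (a (a (l 16612200) (l 16621600)) (a (l 16631024) (l 16640472)))) (c (c (a (a (l 16614176) (l 16623592)) (a (l 16633040) (l 16642504))) (a (a (l 16614128) (l 16623544)) (a (l 16632984) (l 16642448)))) (c (b (a (a (l 16613616) (l 16623024)) (a (l 16632464) (l 16641920))) (a (a (l 16614552) (l 16623960)) (a (l 16633400) (l 16642864)))) (b (a (a (l 16613568) (l 16622976)) (a (l 16632408) (l 16641856))) (a (a (l 16614504) (l 16623912)) (a (l 16633352) (l 16642808))))))), by decide +kernel⟩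

def k49_A00pp_022_s3 : ∃ t, chk3 f_A00pp_022_s3 t 18 914 62 = true :=
  ⟨(c (b (a (a (l 16615568) (l 16625000)) (a (l 16634456) (l 16643928))) (c (b (a (a (l 16616280) (l 16625720)) (a (l 16635176) (l 16644656))) (a (a (l 16616752) (l 16626192)) (a (l 16635648) (l 16645128)))) (b (a (a (l 16616256) (l 16625696)) (a (l 16635152) (l 16644624))) (a (a (l 16616728) (l 16626168)) (a (l 16635624) (l 16645104)))))) (b (c (a (a (l 16615536) (l 16624968)) (a (l 16634416) (l 16643888))) (b (a (a (l 16615280) (l 16624704)) (a (l 16634152) (l 16643624))) (a (a (l 16615752) (l 16625176)) (a (l 16634624) (l 16644096))))) (c (b (a (a (l 16616240) (l 16625672)) (a (l 16635128) (l 16644600))) (a (a (l 16616704) (l 16626144)) (a (l 16635600) (l 16645072)))) (b (a (a (l 16616216) (l 16625648)) (a (l 16635096) (l 16644568))) (c (a (a (l 16616688) (l 16626120)) (a (l 16635576) (l 16645056))) (a (a (l 16616680) (l 16626112)) (a (l 16635568) (l 16645040)))))))), by decide +kernel⟩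

def k50_A00pp_022_s3 : ∃ t, chk3 f_A00pp_022_s3 t 18 915 124 = true :=
  ⟨(b (c (b (c (a (a (l 16617224) (l 16626664)) (a (l 16636128) (l 16645616))) (a (a (l 16617208) (l 16626656)) (a (l 16636120) (l 16645600)))) (c (b (a (a (l 16617576) (l 16627016)) (a (l 16636488) (l 16645968))) (a (a (l 16617808) (l 16627256)) (a (l 16636720) (l 16646208)))) (b (a (a (l 16617560) (l 16627008)) (a (l 16636472) (l 16645960))) (a (a (l 16617800) (l 16627240)) (a (l 16636712) (l 16646192)))))) (b (c (a (a (l 16617200) (l 16626640)) (a (l 16636104) (l 16645584))) (a (a (l 16617192) (l 16626632)) (a (l 16636088) (l 16645568)))) (c (b (a (a (l 16617552) (l 16626992)) (a (l 16636456) (l 16645944))) (a (a (l 16617784) (l 16627232)) (a (l 16636696) (l 16646184)))) (b (a (a (l 16617544) (l 16626984)) (a (l 16636448) (l 16645928))) (a (a (l 16617776) (l 16627216)) (a (l 16636680) (l 16646168))))))) (c (b (c (b (a (a (l 16618040) (l 16627488)) (a (l 16636960) (l 16646448))) (a (a (l 16618280) (l 16627728)) (a (l 16637200)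 (l 16646688)))) (b (a (a (l 16618032) (l 16627480)) (a (l 16636944) (l 16646432))) (a (a (l 16618264) (l 16627712)) (a (l 16637184) (l 16646672))))) (c (a (a (l 16618632) (l 16628080)) (a (l 16637552) (l 16647040))) (a (a (l 16618616) (l 16628072)) (a (l 16637544) (l 16647032))))) (b (c (b (a (a (l 16618024) (l 16627464)) (a (l 16636936) (l 16646424))) (a (a (l 16618256) (l 16627704)) (a (l 16637168) (l 16646656)))) (b (a (a (l 16618008) (l 16627456)) (a (l 16636920) (l 16646408))) (a (a (l 16618248) (l 16627688)) (a (l 16637160) (l 16646648))))) (c (a (a (l 16618608) (l 16628056)) (a (l 16637528) (l 16647016))) (a (a (l 16618600) (l 16628048)) (a (l 16637512) (l 16647008))))))), by decide +kernel⟩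

def k51_A00pp_022_s3 : ∃ t, chk3 f_A00pp_022_s3 t 18 915 125 = true :=
  ⟨(b (c (b (c (a (a (l 16617176) (l 16626616)) (a (l 16636080) (l 16645560))) (a (a (l 16617168) (l 16626608)) (a (l 16636064) (l 16645544)))) (c (b (a (a (l 16617528) (l 16626968)) (a (l 16636432) (l 16645920))) (a (a (l 16617768) (l 16627208)) (a (l 16636672) (l 16646152)))) (b (a (a (l 16617520) (l 16626960)) (a (l 16636424) (l 16645904))) (a (a (l 16617752) (l 16627192)) (a (l 16636656) (l 16646144)))))) (b (c (a (a (l 16617160) (l 16626592)) (a (l 16636056) (l 16645528))) (a (a (l 16617152) (l 16626584)) (a (l 16636040) (l 16645520)))) (c (b (a (a (l 16617512) (l 16626952)) (a (l 16636408) (l 16645888))) (a (a (l 16617744) (l 16627184)) (a (l 16636648) (l 16646128)))) (b (a (a (l 16617504) (l 16626936)) (a (l 16636392) (l 16645872))) (a (a (l 16617736) (l 16627176)) (a (l 16636632) (l 16646112))))))) (c (b (c (b (a (a (l 16618000) (l 16627440)) (a (l 16636912) (l 16646392))) (a (a (l 16618232) (l 16627680)) (a (l 16637144)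 (l 16646632)))) (b (a (a (l 16617992) (l 16627432)) (a (l 16636896) (l 16646384))) (a (a (l 16618224) (l 16627672)) (a (l 16637136) (l 16646616))))) (c (a (a (l 16618592) (l 16628032)) (a (l 16637504) (l 16646992))) (a (a (l 16618576) (l 16628024)) (a (l 16637488) (l 16646976))))) (b (c (b (a (a (l 16617984) (l 16627424)) (a (l 16636880) (l 16646368))) (a (a (l 16618216) (l 16627656)) (a (l 16637120) (l 16646608)))) (b (a (a (l 16617968) (l 16627408)) (a (l 16636872) (l 16646352))) (a (a (l 16618208) (l 16627648)) (a (l 16637112) (l 16646592))))) (c (a (a (l 16618568) (l 16628008)) (a (l 16637480) (l 16646968))) (a (a (l 16618560) (l 16628000)) (a (l 16637464) (l 16646952))))))), by decide +kernel⟩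

def k52_A00pp_022_s3 : ∃ t, chk3 f_A00pp_022_s3 t 18 914 63 = true :=
  ⟨(c (b (c (b (a (a (l 16615256) (l 16624680)) (a (l 16634128) (l 16643592))) (a (a (l 16615728) (l 16625152)) (a (l 16634600) (l 16644064)))) (b (a (a (l 16615240) (l 16624656)) (a (l 16634096) (l 16643560))) (a (a (l 16615704) (l 16625128)) (a (l 16634568) (l 16644040))))) (c (b (a (a (l 16616192) (l 16625624)) (a (l 16635072) (l 16644544))) (c (a (a (l 16616672) (l 16626096)) (a (l 16635552) (l 16645024))) (a (a (l 16616656) (l 16626088)) (a (l 16635536) (l 16645016))))) (b (a (a (l 16616176) (l 16625600)) (a (l 16635048) (l 16644512))) (c (a (a (l 16616648) (l 16626072)) (a (l 16635528) (l 16645000))) (a (a (l 16616640) (l 16626064)) (a (l 16635512) (l 16644984))))))) (b (c (b (a (a (l 16615216) (l 16624632)) (a (l 16634072) (l 16643536))) (a (a (l 16615688) (l 16625104)) (a (l 16634544) (l 16644008)))) (b (a (a (l 16615192) (l 16624608)) (a (l 16634048) (l 16643504))) (a (a (l 16615664) (l 16625080)) (a (l 16634520)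 (l 16643984))))) (c (b (c (a (a (l 16616160) (l 16625576)) (a (l 16635024) (l 16644496))) (a (a (l 16616144) (l 16625568)) (a (l 16635016) (l 16644480)))) (c (a (a (l 16616624) (l 16626048)) (a (l 16635504) (l 16644968))) (a (a (l 16616616) (l 16626040)) (a (l 16635488) (l 16644960))))) (b (c (a (a (l 16616136) (l 16625552)) (a (l 16635000) (l 16644464))) (a (a (l 16616128) (l 16625544)) (a (l 16634984) (l 16644456)))) (c (a (a (l 16616608) (l 16626024)) (a (l 16635472) (l 16644944))) (a (a (l 16616592) (l 16626016)) (a (l 16635464) (l 16644928)))))))), by decide +kernel⟩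

def k53_A00pp_022_s3 : ∃ t, chk3 f_A00pp_022_s3 t 18 915 126 = true :=
  ⟨(b (c (b (c (a (a (l 16617136) (l 16626568)) (a (l 16636024) (l 16645504))) (a (a (l 16617128) (l 16626560)) (a (l 16636016) (l 16645488)))) (c (b (a (a (l 16617488) (l 16626928)) (a (l 16636384) (l 16645864))) (a (a (l 16617728) (l 16627160)) (a (l 16636624) (l 16646104)))) (b (a (a (l 16617480) (l 16626912)) (a (l 16636368) (l 16645848))) (a (a (l 16617712) (l 16627152)) (a (l 16636608) (l 16646088)))))) (b (c (a (a (l 16617120) (l 16626544)) (a (l 16636000) (l 16645480))) (a (a (l 16617104) (l 16626536)) (a (l 16635992) (l 16645464)))) (c (b (a (a (l 16617472) (l 16626904)) (a (l 16636360) (l 16645832))) (a (a (l 16617704) (l 16627136)) (a (l 16636592) (l 16646072)))) (b (a (a (l 16617456) (l 16626888)) (a (l 16636344) (l 16645824))) (a (a (l 16617696) (l 16627128)) (a (l 16636584) (l 16646064))))))) (c (b (c (b (a (a (l 16617960) (l 16627400)) (a (l 16636856) (l 16646336))) (a (a (l 16618192) (l 16627632)) (a (l 16637096)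 (l 16646576)))) (b (a (a (l 16617952) (l 16627384)) (a (l 16636848) (l 16646328))) (a (a (l 16618184) (l 16627624)) (a (l 16637080) (l 16646568))))) (c (a (a (l 16618552) (l 16627992)) (a (l 16637456) (l 16646936))) (a (a (l 16618536) (l 16627976)) (a (l 16637440) (l 16646928))))) (b (c (b (a (a (l 16617936) (l 16627376)) (a (l 16636832) (l 16646312))) (a (a (l 16618176) (l 16627608)) (a (l 16637072) (l 16646552)))) (b (a (a (l 16617928) (l 16627360)) (a (l 16636824) (l 16646296))) (a (a (l 16618168) (l 16627600)) (a (l 16637056) (l 16646536))))) (c (a (a (l 16618528) (l 16627968)) (a (l 16637432) (l 16646912))) (a (a (l 16618520) (l 16627952)) (a (l 16637416) (l 16646896))))))), by decide +kernel⟩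

def k54_A00pp_022_s3 : ∃ t, chk3 f_A00pp_022_s3 t 18 915 127 = true :=
  ⟨(b (c (b (c (a (a (l 16617096) (l 16626520)) (a (l 16635976) (l 16645448))) (a (a (l 16617088) (l 16626512)) (a (l 16635960) (l 16645432)))) (c (b (a (a (l 16617448) (l 16626880)) (a (l 16636328) (l 16645808))) (a (a (l 16617680) (l 16627112)) (a (l 16636568) (l 16646048)))) (b (a (a (l 16617440) (l 16626864)) (a (l 16636320) (l 16645792))) (a (a (l 16617672) (l 16627104)) (a (l 16636560) (l 16646032)))))) (b (c (a (a (l 16617072) (l 16626504)) (a (l 16635952) (l 16645424))) (a (a (l 16617064) (l 16626488)) (a (l 16635936) (l 16645408)))) (c (b (a (a (l 16617432) (l 16626856)) (a (l 16636304) (l 16645784))) (a (a (l 16617664) (l 16627088)) (a (l 16636544) (l 16646016)))) (b (a (a (l 16617416) (l 16626840)) (a (l 16636296) (l 16645768))) (a (a (l 16617656) (l 16627080)) (a (l 16636528) (l 16646008))))))) (c (b (c (b (a (a (l 16617920) (l 16627352)) (a (l 16636808) (l 16646288))) (a (a (l 16618152) (l 16627584)) (a (l 16637048)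 (l 16646528)))) (b (a (a (l 16617912) (l 16627336)) (a (l 16636792) (l 16646272))) (a (a (l 16618144) (l 16627576)) (a (l 16637032) (l 16646512))))) (c (a (a (l 16618504) (l 16627944)) (a (l 16637400) (l 16646888))) (a (a (l 16618496) (l 16627928)) (a (l 16637392) (l 16646872))))) (b (c (b (a (a (l 16617896) (l 16627328)) (a (l 16636784) (l 16646256))) (a (a (l 16618136) (l 16627568)) (a (l 16637024) (l 16646496)))) (b (a (a (l 16617888) (l 16627320)) (a (l 16636768) (l 16646248))) (a (a (l 16618128) (l 16627552)) (a (l 16637008) (l 16646488))))) (c (a (a (l 16618488) (l 16627920)) (a (l 16637376) (l 16646856))) (a (a (l 16618480) (l 16627912)) (a (l 16637368) (l 16646848))))))), by decide +kernel⟩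

def k55_A00pp_022_s3 : ∃ t, chk3 f_A00pp_022_s3 t 19 228 31 = true :=
  ⟨(a (a (l 16652856) (l 16662352)) (a (l 16671872) (l 16681392))), by decide +kernel⟩

def k56_A00pp_022_s3 : ∃ t, chk3 f_A00pp_022_s3 t 18 458 28 = true :=
  ⟨(c (b (c (b (a (a (l 16619808) (l 16629320)) (a (l 16638840) (l 16648376))) (a (a (l 16620744) (l 16630256)) (a (l 16639784) (l 16649320)))) (b (a (a (l 16619768) (l 16629272)) (a (l 16638792) (l 16648320))) (c (a (a (l 16620712) (l 16630224)) (a (l 16639752) (l 16649280))) (a (a (l 16620688) (l 16630200)) (a (l 16639720) (l 16649256)))))) (c (b (c (a (a (l 16621688) (l 16631208)) (a (l 16640744) (l 16650280))) (a (a (l 16621664) (l 16631184)) (a (l 16640720) (l 16650256)))) (a (a (l 16622608) (l 16632136)) (a (l 16641672) (l 16651216)))) (b (c (a (a (l 16621648) (l 16631160)) (a (l 16640696) (l 16650232))) (a (a (l 16621624) (l 16631144)) (a (l 16640672) (l 16650208)))) (a (a (l 16622576) (l 16632096)) (a (l 16641624) (l 16651168)))))) (b (c (b (a (a (l 16619728)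 (l 16629232)) (a (l 16638744) (l 16648264))) (c (a (a (l 16620672) (l 16630176)) (a (l 16639696) (l 16649232))) (a (a (l 16620648) (l 16630160)) (a (l 16639672) (l 16649200))))) (b (c (a (a (l 16619696) (l 16629192)) (a (l 16638704) (l 16648224))) (a (a (l 16619672) (l 16629168)) (a (l 16638680) (l 16648200)))) (c (a (a (l 16620632) (l 16630136)) (a (l 16639648) (l 16649176))) (b (a (a (l 16620376) (l 16629872)) (a (l 16639392) (l 16648912))) (a (a (l 16620840) (l 16630344)) (a (l 16639864) (l 16649392))))))) (c (b (c (a (a (l 16621608) (l 16631120)) (a (l 16640648) (l 16650176))) (a (a (l 16621584) (l 16631096)) (a (l 16640624) (l 16650152)))) (a (a (l 16622536) (l 16632048)) (a (l 16641584) (l 16651120)))) (b (c (a (a (l 16621568) (l 16631072)) (a (l 16640600) (l 16650128))) (a (a (l 16621544) (l 16631056)) (a (l 16640576) (l 16650104)))) (a (a (l 16622496) (l 16632008)) (a (l 16641536) (l 16651072))))))), by decide +kernel⟩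

def k57_A00pp_022_s3 : ∃ t, chk3 f_A00pp_022_s3 t 19 458 28 = true :=
  ⟨(a (a (l 16659256) (l 16668800)) (a (l 16678352) (l 16687896))), by decide +kernel⟩

def k58_A00pp_022_s3 : ∃ t, chk3 f_A00pp_022_s3 t 9 459 28 = true :=
  ⟨(a (a (a (l 16624904) (l 16634440)) (a (l 16643984) (l 16653536))) (a (a (l 16663096) (l 16672656)) (a (l 16682224) (l 16691792)))), by decide +kernel⟩

def k59_A00pp_022_s3 : ∃ t, chk3 f_A00pp_022_s3 t 18 458 58 = true :=
  ⟨(b (c (b (c (a (a (l 16619656) (l 16629152)) (a (l 16638656) (l 16648176))) (a (a (l 16619632) (l 16629128)) (a (l 16638632) (l 16648152)))) (c (b (a (a (l 16620352) (l 16629856)) (a (l 16639368) (l 16648888))) (a (a (l 16620824) (l 16630320)) (a (l 16639840) (l 16649360)))) (b (a (a (l 16620336) (l 16629832)) (a (l 16639344) (l 16648864))) (a (a (l 16620800) (l 16630304)) (a (l 16639816) (l 16649336)))))) (b (c (b (a (a (l 16619376) (l 16628864)) (a (l 16638368) (l 16647888))) (a (a (l 16619848) (l 16629336)) (a (l 16638840) (l 16648360)))) (b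 (a (a (l 16619360) (l 16628848)) (a (l 16638344) (l 16647856))) (a (a (l 16619824) (l 16629312)) (a (l 16638816) (l 16648336))))) (c (b (a (a (l 16620312) (l 16629808)) (a (l 16639312) (l 16648832))) (a (a (l 16620784) (l 16630280)) (a (l 16639792) (l 16649312)))) (b (a (a (l 16620296) (l 16629784)) (a (l 16639288) (l 16648808))) (a (a (l 16620760) (l 16630256)) (a (l 16639768) (l 16649288))))))) (c (b (c (a (a (l 16621528) (l 16631032)) (a (l 16640552) (l 16650080))) (a (a (l 16621504) (l 16631008)) (a (l 16640528) (l 16650056)))) (a (a (l 16622456) (l 16631968)) (a (l 16641488) (l 16651024)))) (b (c (a (a (l 16621488) (l 16630984)) (a (l 16640504) (l 16650024))) (a (a (l 16621464) (l 16630968)) (a (l 16640480) (l 16650000)))) (a (a (l 16622416) (l 16631920)) (a (l 16641440) (l 16650968)))))), by decide +kernel⟩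

def k60_A00pp_022_s3 : ∃ t, chk3 f_A00pp_022_s3 t 18 916 59 = true :=
  ⟨(c (b (c (b (a (a (l 16619336) (l 16628824)) (a (l 16638320) (l 16647832))) (c (a (a (l 16619808) (l 16629296)) (a (l 16638800) (l 16648312))) (a (a (l 16619800) (l 16629288)) (a (l 16638784) (l 16648304))))) (b (a (a (l 16619320) (l 16628800)) (a (l 16638296) (l 16647808))) (c (a (a (l 16619792) (l 16629272)) (a (l 16638776) (l 16648288))) (a (a (l 16619784) (l 16629264)) (a (l 16638760) (l 16648272)))))) (c (b (a (a (l 16620272) (l 16629760)) (a (l 16639264) (l 16648784))) (a (a (l 16620744) (l 16630232)) (a (l 16639744) (l 16649264)))) (b (a (a (l 16620256) (l 16629744)) (a (l 16639240) (l 16648760))) (a (a (l 16620720) (l 16630216)) (a (l 16639720) (l 16649232)))))) (b (c (b (c (a (a (l 16619304) (l 16628784)) (a (l 16638280) (l 16647784))) (a (a (l 16619296) (l 16628768)) (a (l 16638264) (l 16647776)))) (c (a (a (l 16619768) (l 16629248)) (a (l 16638752) (l 16648264))) (a (a (l 16619760) (l 16629240)) (a (l 16638736)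 (l 16648248))))) (b (c (a (a (l 16619280) (l 16628760)) (a (l 16638248) (l 16647760))) (a (a (l 16619272) (l 16628744)) (a (l 16638240) (l 16647744)))) (c (a (a (l 16619752) (l 16629232)) (a (l 16638728) (l 16648232))) (a (a (l 16619744) (l 16629216)) (a (l 16638712) (l 16648224)))))) (c (b (a (a (l 16620232) (l 16629720)) (a (l 16639216) (l 16648728))) (a (a (l 16620704) (l 16630192)) (a (l 16639696) (l 16649208)))) (b (a (a (l 16620216) (l 16629696)) (a (l 16639192) (l 16648704))) (a (a (l 16620688) (l 16630168)) (a (l 16639672) (l 16649184))))))), by decide +kernel⟩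

def k61_A00pp_022_s3 : ∃ t, chk3 f_A00pp_022_s3 t 18 917 59 = true :=
  ⟨(c (b (c (a (a (l 16621448) (l 16630944)) (a (l 16640456) (l 16649976))) (a (a (l 16621432) (l 16630920)) (a (l 16640432) (l 16649952)))) (a (a (l 16622376) (l 16631880)) (a (l 16641392) (l 16650920)))) (b (c (a (a (l 16621408) (l 16630896)) (a (l 16640408) (l 16649928))) (a (a (l 16621392) (l 16630880)) (a (l 16640384) (l 16649904)))) (a (a (l 16622344) (l 16631832)) (a (l 16641344) (l 16650872))))), by decide +kernel⟩

def k62_A00pp_022_s3 : ∃ t, chk3 f_A00pp_022_s3 t 19 458 29 = true :=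
  ⟨(a (a (l 16659048) (l 16668584)) (a (l 16678128) (l 16687680))), by decide +kernel⟩

def k63_A00pp_022_s3 : ∃ t, chk3 f_A00pp_022_s3 t 9 459 29 = true :=
  ⟨(a (a (a (l 16624760) (l 16634272)) (a (l 16643808) (l 16653344))) (a (a (l 16662896) (l 16672456)) (a (l 16682024) (l 16691592)))), by decide +kernel⟩

def k64_A00pp_022_s3 : ∃ t, chk3 f_A00pp_022_s3 t 18 916 60 = true :=
  ⟨(c (b (c (b (c (a (a (l 16619264) (l 16628736)) (a (l 16638224) (l 16647736))) (a (a (l 16619248) (l 16628720)) (a (l 16638216) (l 16647720)))) (c (a (a (l 16619728) (l 16629208)) (a (l 16638704) (l 16648208))) (a (a (l 16619720) (l 16629192)) (a (l 16638688) (l 16648200))))) (b (c (a (a (l 16619240) (l 16628712)) (a (l 16638200) (l 16647704))) (a (a (l 16619232) (l 16628704)) (a (l 16638192) (l 16647696)))) (c (a (a (l 16619712) (l 16629184)) (a (l 16638672) (l 16648184))) (a (a (l 16619696) (l 16629176)) (a (l 16638664) (l 16648168)))))) (c (b (a (a (l 16620192) (l 16629672)) (a (l 16639168) (l 16648680))) (a (a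 (l 16620664) (l 16630144)) (a (l 16639640) (l 16649160)))) (b (a (a (l 16620176) (l 16629648)) (a (l 16639144) (l 16648656))) (a (a (l 16620648) (l 16630120)) (a (l 16639616) (l 16649136)))))) (b (c (b (c (a (a (l 16619224) (l 16628688)) (a (l 16638176) (l 16647680))) (a (a (l 16619208) (l 16628680)) (a (l 16638168) (l 16647664)))) (c (a (a (l 16619688) (l 16629160)) (a (l 16638648) (l 16648160))) (a (a (l 16619680) (l 16629152)) (a (l 16638640) (l 16648144))))) (b (c (a (a (l 16619200) (l 16628664)) (a (l 16638152) (l 16647656))) (a (a (l 16619192) (l 16628656)) (a (l 16638136) (l 16647640)))) (c (a (a (l 16619672) (l 16629136)) (a (l 16638624) (l 16648128))) (a (a (l 16619656) (l 16629128)) (a (l 16638616) (l 16648120)))))) (c (b (a (a (l 16620152) (l 16629632)) (a (l 16639120) (l 16648632))) (a (a (l 16620624) (l 16630104)) (a (l 16639592) (l 16649104)))) (b (a (a (l 16620136) (l 16629608)) (a (l 16639096) (l 16648600))) (a (a (l 16620608) (l 16630080)) (a (l 16639568) (l 16649080))))))),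 by decide +kernel⟩

def k65_A00pp_022_s3 : ∃ t, chk3 f_A00pp_022_s3 t 18 917 60 = true :=
  ⟨(c (b (c (a (a (l 16621368) (l 16630856)) (a (l 16640360) (l 16649872))) (a (a (l 16621352) (l 16630832)) (a (l 16640336) (l 16649848)))) (a (a (l 16622304) (l 16631792)) (a (l 16641296) (l 16650824)))) (b (c (a (a (l 16621328) (l 16630808)) (a (l 16640312) (l 16649824))) (a (a (l 16621312) (l 16630792)) (a (l 16640288) (l 16649800)))) (a (a (l 16622264) (l 16631752)) (a (l 16641256) (l 16650768))))), by decide +kernel⟩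

def k66_A00pp_022_s3 : ∃ t, chk3 f_A00pp_022_s3 t 18 916 122 = true :=
  ⟨(b (c (b (c (a (a (l 16619176) (l 16628640)) (a (l 16638128) (l 16647624))) (a (a (l 16619168) (l 16628632)) (a (l 16638112) (l 16647616)))) (c (a (a (l 16619648) (l 16629120)) (a (l 16638600) (l 16648104))) (a (a (l 16619640) (l 16629104)) (a (l 16638592) (l 16648088))))) (b (c (a (a (l 16619160) (l 16628624)) (a (l 16638104) (l 16647600))) (a (a (l 16619152) (l 16628608)) (a (l 16638088) (l 16647584)))) (c (a (a (l 16619632) (l 16629096)) (a (l 16638576) (l 16648080))) (a (a (l 16619616) (l 16629080)) (a (l 16638568) (l 16648064)))))) (c (b (c (a (a (l 16620120) (l 16629592)) (a (l 16639080) (l 16648584))) (a (a (l 16620112) (l 16629576)) (a (l 16639064) (l 16648568)))) (a (a (l 16620584) (l 16630056)) (a (l 16639544) (l 16649056)))) (b (c (a (a (l 16620104) (l 16629568)) (a (l 16639056) (l 16648560))) (a (a (l 16620088) (l 16629552)) (a (l 16639040) (l 16648544)))) (a (a (l 16620568) (l 16630032)) (a (l 16639520) (l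 16649032)))))), by decide +kernel⟩

def k67_A00pp_022_s3 : ∃ t, chk3 f_A00pp_022_s3 t 18 916 123 = true :=
  ⟨(b (c (b (c (a (a (l 16619136) (l 16628600)) (a (l 16638080) (l 16647576))) (a (a (l 16619128) (l 16628584)) (a (l 16638064) (l 16647560)))) (c (a (a (l 16619608) (l 16629072)) (a (l 16638552) (l 16648056))) (a (a (l 16619600) (l 16629056)) (a (l 16638544) (l 16648040))))) (b (c (a (a (l 16619120) (l 16628576)) (a (l 16638056) (l 16647552))) (a (a (l 16619112) (l 16628568)) (a (l 16638040) (l 16647536)))) (c (a (a (l 16619592) (l 16629048)) (a (l 16638528) (l 16648024))) (a (a (l 16619576) (l 16629040)) (a (l 16638520) (l 16648016)))))) (c (b (c (a (a (l 16620080) (l 16629544)) (a (l 16639032) (l 16648528))) (a (a (l 16620072) (l 16629536)) (a (l 16639016) (l 16648520)))) (a (a (l 16620544) (l 16630016)) (a (l 16639496) (l 16649008)))) (b (c (a (a (l 16620064) (l 16629520)) (a (l 16639008) (l 16648504))) (a (a (l 16620048) (l 16629512)) (a (l 16638992) (l 16648496)))) (a (a (l 16620528)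 (l 16629992)) (a (l 16639472) (l 16648976)))))), by decide +kernel⟩

def k68_A00pp_022_s3 : ∃ t, chk3 f_A00pp_022_s3 t 18 917 61 = true :=
  ⟨(c (b (c (a (a (l 16621296) (l 16630768)) (a (l 16640264) (l 16649776))) (a (a (l 16621272) (l 16630744)) (a (l 16640240) (l 16649752)))) (a (a (l 16622232) (l 16631704)) (a (l 16641208) (l 16650720)))) (b (c (a (a (l 16621256) (l 16630728)) (a (l 16640216) (l 16649720))) (a (a (l 16621232) (l 16630704)) (a (l 16640192) (l 16649696)))) (a (a (l 16622192) (l 16631664)) (a (l 16641160) (l 16650672))))), by decide +kernel⟩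

def k69_A00pp_022_s3 : ∃ t, chk3 f_A00pp_022_s3 t 19 458 30 = true :=
  ⟨(a (a (l 16658832) (l 16668368)) (a (l 16677912) (l 16687464))), by decide +kernel⟩

def k70_A00pp_022_s3 : ∃ t, chk3 f_A00pp_022_s3 t 9 459 30 = true :=
  ⟨(a (a (a (l 16624616) (l 16634112)) (a (l 16643624) (l 16653160))) (a (a (l 16662704) (l 16672256)) (a (l 16681816) (l 16691384)))), by decide +kernel⟩

def k71_A00pp_022_s3 : ∃ t, chk3 f_A00pp_022_s3 t 18 916 124 = true :=
  ⟨(b (c (b (c (a (a (l 16619096) (l 16628552)) (a (l 16638024) (l 16647520))) (a (a (l 16619088) (l 16628544)) (a (l 16638016) (l 16647512)))) (c (a (a (l 16619568) (l 16629024)) (a (l 16638504) (l 16648000))) (a (a (l 16619560) (l 16629016)) (a (l 16638488) (l 16647984))))) (b (c (a (a (l 16619080) (l 16628528)) (a (l 16638000) (l 16647496))) (a (a (l 16619072) (l 16628520)) (a (l 16637992) (l 16647480)))) (c (a (a (l 16619552) (l 16629000)) (a (l 16638480) (l 16647976))) (a (a (l 16619544) (l 16628992)) (a (l 16638464) (l 16647960)))))) (c (b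 (c (a (a (l 16620040) (l 16629504)) (a (l 16638984) (l 16648480))) (a (a (l 16620032) (l 16629488)) (a (l 16638968) (l 16648464)))) (a (a (l 16620504) (l 16629968)) (a (l 16639448) (l 16648952)))) (b (c (a (a (l 16620024) (l 16629480)) (a (l 16638960) (l 16648456))) (a (a (l 16620008) (l 16629464)) (a (l 16638944) (l 16648440)))) (a (a (l 16620488) (l 16629944)) (a (l 16639424) (l 16648928)))))), by decide +kernel⟩

def k72_A00pp_022_s3 : ∃ t, chk3 f_A00pp_022_s3 t 18 916 125 = true :=
  ⟨(b (c (b (c (a (a (l 16619056) (l 16628504)) (a (l 16637976) (l 16647472))) (a (a (l 16619048) (l 16628496)) (a (l 16637968) (l 16647456)))) (c (a (a (l 16619528) (l 16628984)) (a (l 16638456) (l 16647952))) (a (a (l 16619520) (l 16628968)) (a (l 16638440) (l 16647936))))) (b (c (a (a (l 16619040) (l 16628488)) (a (l 16637952) (l 16647440))) (a (a (l 16619032) (l 16628472)) (a (l 16637944) (l 16647432)))) (c (a (a (l 16619512) (l 16628960)) (a (l 16638432) (l 16647920))) (a (a (l 16619504) (l 16628952)) (a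 (l 16638416) (l 16647912)))))) (c (b (c (a (a (l 16620000) (l 16629456)) (a (l 16638936) (l 16648432))) (a (a (l 16619992) (l 16629448)) (a (l 16638920) (l 16648416)))) (a (a (l 16620472) (l 16629928)) (a (l 16639400) (l 16648904)))) (b (c (a (a (l 16619984) (l 16629432)) (a (l 16638904) (l 16648400))) (a (a (l 16619976) (l 16629424)) (a (l 16638896) (l 16648392)))) (a (a (l 16620448) (l 16629904)) (a (l 16639376) (l 16648880)))))), by decide +kernel⟩

def k73_A00pp_022_s3 : ∃ t, chk3 f_A00pp_022_s3 t 18 917 62 = true :=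
  ⟨(c (b (c (a (a (l 16621216) (l 16630680)) (a (l 16640168) (l 16649672))) (a (a (l 16621200) (l 16630664)) (a (l 16640144) (l 16649648)))) (a (a (l 16622152) (l 16631624)) (a (l 16641112) (l 16650624)))) (b (c (a (a (l 16621176) (l 16630640)) (a (l 16640120) (l 16649624))) (a (a (l 16621160) (l 16630616)) (a (l 16640096) (l 16649600)))) (a (a (l 16622120) (l 16631584)) (a (l 16641064) (l 16650576))))), by decide +kernel⟩

def k74_A00pp_022_s3 : ∃ t, chk3 f_A00pp_022_s3 t 18 916 126 = true :=
  ⟨(b (c (b (c (a (a (l 16619016) (l 16628464)) (a (l 16637928) (l 16647416))) (a (a (l 16619008) (l 16628448)) (a (l 16637920) (l 16647400)))) (c (a (a (l 16619488) (l 16628936)) (a (l 16638408) (l 16647896))) (a (a (l 16619480) (l 16628928)) (a (l 16638392) (l 16647880))))) (b (c (a (a (l 16619000) (l 16628440)) (a (l 16637904) (l 16647392))) (a (a (l 16618992) (l 16628432)) (a (l 16637896) (l 16647376)))) (c (a (a (l 16619472) (l 16628912)) (a (l 16638384) (l 16647872))) (a (a (l 16619464) (l 16628904))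 (a (l 16638368) (l 16647856)))))) (c (b (c (a (a (l 16619960) (l 16629408)) (a (l 16638880) (l 16648376))) (a (a (l 16619952) (l 16629400)) (a (l 16638872) (l 16648360)))) (a (a (l 16620432) (l 16629880)) (a (l 16639352) (l 16648848)))) (b (c (a (a (l 16619944) (l 16629392)) (a (l 16638856) (l 16648352))) (a (a (l 16619936) (l 16629376)) (a (l 16638848) (l 16648336)))) (a (a (l 16620408) (l 16629856)) (a (l 16639336) (l 16648824)))))), by decide +kernel⟩

def k75_A00pp_022_s3 : ∃ t, chk3 f_A00pp_022_s3 t 18 916 127 = true :=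
  ⟨(b (c (b (c (a (a (l 16618976) (l 16628416)) (a (l 16637880) (l 16647368))) (a (a (l 16618968) (l 16628408)) (a (l 16637864) (l 16647352)))) (c (a (a (l 16619448) (l 16628896)) (a (l 16638360) (l 16647848))) (a (a (l 16619440) (l 16628880)) (a (l 16638344) (l 16647832))))) (b (c (a (a (l 16618960) (l 16628392)) (a (l 16637856) (l 16647336))) (a (a (l 16618952) (l 16628384)) (a (l 16637840) (l 16647328)))) (c (a (a (l 16619432) (l 16628872)) (a (l 16638336) (l 16647816))) (a (a (l 16619424) (l 16628856)) (a (l 16638320) (l 16647808)))))) (c (b (c (a (a (l 16619928) (l 16629368)) (a (l 16638832) (l 16648328))) (a (a (l 16619912) (l 16629360)) (a (l 16638824) (l 16648312)))) (a (a (l 16620392) (l 16629840)) (a (l 16639312) (l 16648800)))) (b (c (a (a (l 16619904) (l 16629344)) (a (l 16638808) (l 16648296))) (a (a (l 16619896) (l 16629336)) (a (l 16638800) (l 16648288)))) (a (a (l 16620376) (l 16629816)) (a (l 16639288) (l 16648776)))))), by decide +kernel⟩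

def k76_A00pp_022_s3 : ∃ t, chk3 f_A00pp_022_s3 t 18 917 63 = true :=
  ⟨(c (b (c (a (a (l 16621144) (l 16630592)) (a (l 16640072) (l 16649576))) (a (a (l 16621120) (l 16630576)) (a (l 16640048) (l 16649544)))) (a (a (l 16622080) (l 16631536)) (a (l 16641024) (l 16650528)))) (b (c (a (a (l 16621104) (l 16630552)) (a (l 16640024) (l 16649520))) (a (a (l 16621088) (l 16630528)) (a (l 16640000) (l 16649496)))) (a (a (l 16622040) (l 16631496)) (a (l 16640976) (l 16650472))))), by decide +kernel⟩

def k77_A00pp_022_s3 : ∃ t, chk3 f_A00pp_022_s3 t 19 458 31 = true :=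
  ⟨(a (a (l 16658616) (l 16668152)) (a (l 16677688) (l 16687240))), by decide +kernel⟩

def k78_A00pp_022_s3 : ∃ t, chk3 f_A00pp_022_s3 t 9 459 31 = true :=
  ⟨(a (a (a (l 16624480) (l 16633952)) (a (l 16643448) (l 16652968))) (a (a (l 16662504) (l 16672056)) (a (l 16681616) (l 16691184)))), by decide +kernel⟩

def k79_A00pp_022_s3 : ∃ t, chk3 f_A00pp_022_s3 t 9 115 28 = true :=
  ⟨(c (c (c (a (a (a (l 16634528) (l 16644120)) (a (l 16653720) (l 16663320))) (a (a (l 16672928) (l 16682544)) (a (l 16697392) (a (l 16699352) (l 16704152))))) (a (a (a (l 16634512) (l 16644104)) (a (l 16653696) (l 16663304))) (a (a (l 16672912) (l 16682520)) (a (l 16697376) (a (l 16699336) (l 16704136)))))) (c (a (a (a (l 16634504) (l 16644088)) (a (l 16653680) (l 16663280))) (a (a (l 16672888) (l 16682496)) (a (l 16697352) (a (l 16699312) (l 16704112))))) (a (a (a (l 16634488) (l 16644072)) (a (l 16653664) (l 16663264))) (a (a (l 16672872) (l 16682480)) (a (l 16697328) (a (l 16699296) (l 16704088))))))) (c (c (a (a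 (a (l 16634472) (l 16644056)) (a (l 16653640) (l 16663240))) (a (a (l 16672848) (l 16682456)) (a (l 16697312) (a (l 16699272) (l 16704072))))) (a (a (a (l 16634456) (l 16644040)) (a (l 16653624) (l 16663224))) (a (a (l 16672824) (l 16682440)) (a (l 16697288) (a (l 16699256) (l 16704048)))))) (c (a (a (a (l 16634440) (l 16644016)) (a (l 16653608) (l 16663208))) (a (a (l 16672808) (l 16682416)) (a (l 16697264) (a (l 16699232) (l 16704032))))) (a (a (a (l 16634432) (l 16644000)) (a (l 16653592) (l 16663184))) (a (a (l 16672784) (l 16682392)) (a (l 16697248) (a (l 16699208) (l 16704008)))))))), by decide +kernel⟩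

def k80_A00pp_022_s3 : ∃ t, chk3 f_A00pp_022_s3 t 9 115 29 = true :=
  ⟨(c (c (c (a (a (a (l 16634416) (l 16643984)) (a (l 16653568) (l 16663168))) (a (a (l 16672768) (l 16682376)) (a (l 16697224) (a (l 16699192) (l 16703992))))) (a (a (a (l 16634400) (l 16643968)) (a (l 16653552) (l 16663144))) (a (a (l 16672744) (l 16682352)) (a (l 16697208) (a (l 16699168) (l 16703968)))))) (c (a (a (a (l 16634384) (l 16643952)) (a (l 16653536) (l 16663128))) (a (a (l 16672728) (l 16682336)) (a (l 16697184) (a (l 16699152) (l 16703952))))) (a (a (a (l 16634376) (l 16643936)) (a (l 16653520) (l 16663104))) (a (a (l 16672704) (l 16682312)) (a (l 16697160) (a (l 16699128) (l 16703928))))))) (c (c (a (a (a (l 16634360) (l 16643920)) (a (l 16653496) (l 16663088))) (a (a (l 16672688) (l 16682288)) (a (l 16697144) (a (l 16699104) (l 16703912))))) (a (a (a (l 16634344) (l 16643904)) (a (l 16653480) (l 16663072))) (a (a (l 16672664) (l 16682272)) (a (l 16691880) (a (l 16699088) (l 16703888)))))) (c (a (a (a (l 16634328)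 (l 16643888)) (a (l 16653464) (l 16663048))) (a (a (l 16672648) (l 16682248)) (a (l 16691856) (a (l 16699064) (l 16703872))))) (c (a (a (a (l 16634320) (l 16643880)) (a (l 16653448) (l 16663032))) (a (a (l 16672632) (l 16682232)) (a (l 16691840) (a (l 16699048) (l 16703856))))) (a (a (a (l 16634312) (l 16643872)) (a (l 16653440) (l 16663024))) (a (a (l 16672616) (l 16682224)) (a (l 16691832) (a (l 16699040) (l 16703840))))))))), by decide +kernel⟩

def k81_A00pp_022_s3 : ∃ t, chk3 f_A00pp_022_s3 t 9 115 60 = true :=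
  ⟨(c (c (c (a (a (a (l 16634304) (l 16643864)) (a (l 16653432) (l 16663016))) (a (a (l 16672608) (l 16682216)) (a (l 16691824) (a (l 16699032) (l 16703832))))) (a (a (a (l 16634296) (l 16643856)) (a (l 16653424) (l 16663008))) (a (a (l 16672600) (l 16682200)) (a (l 16691808) (a (l 16699024) (l 16703824)))))) (c (a (a (a (l 16634296) (l 16643848)) (a (l 16653416) (l 16662992))) (a (a (l 16672592) (l 16682192)) (a (l 16691800) (a (l 16699008) (l 16703816))))) (a (a (a (l 16634288) (l 16643840)) (a (l 16653408) (l 16662984))) (a (a (l 16672576) (l 16682184)) (a (l 16691792) (a (l 16699000) (l 16703800))))))) (c (c (a (a (a (l 16634280) (l 16643832)) (a (l 16653392) (l 16662976))) (a (a (l 16672568) (l 16682168)) (a (l 16691784) (a (l 16698992) (l 16703792))))) (a (a (a (l 16634272) (l 16643824)) (a (l 16653384) (l 16662968))) (a (a (l 16672560) (l 16682160)) (a (l 16691768) (a (l 16698976) (l 16703784)))))) (c (a (a (a (l 16634264) (l 16643816)) (a (l 16653376) (l 16662960))) (a (a (l 16672552)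 (l 16682152)) (a (l 16691760) (a (l 16698968) (l 16703768))))) (a (a (a (l 16634256) (l 16643808)) (a (l 16653368) (l 16662944))) (a (a (l 16672536) (l 16682144)) (a (l 16691752) (a (l 16698960) (l 16703760)))))))), by decide +kernel⟩

def k82_A00pp_022_s3 : ∃ t, chk3 f_A00pp_022_s3 t 9 115 61 = true :=
  ⟨(c (c (c (a (a (a (l 16634248) (l 16643800)) (a (l 16653360) (l 16662936))) (a (a (l 16672528) (l 16682128)) (a (l 16691736) (a (l 16698952) (l 16703752))))) (a (a (a (l 16634248) (l 16643792)) (a (l 16653352) (l 16662928))) (a (a (l 16672520) (l 16682120)) (a (l 16691728) (a (l 16698936) (l 16703744)))))) (c (a (a (a (l 16634240) (l 16643784)) (a (l 16653344) (l 16662920))) (a (a (l 16672512) (l 16682112)) (a (l 16691720) (a (l 16698928) (l 16703728))))) (a (a (a (l 16634232) (l 16643776)) (a (l 16653336) (l 16662912))) (a (a (l 16672496) (l 16682096)) (a (l 16691704) (a (l 16698920) (l 16703720))))))) (c (c (a (a (a (l 16634224) (l 16643768)) (a (l 16653328) (l 16662896))) (a (a (l 16672488)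 (l 16682088)) (a (l 16691696) (a (l 16698904) (l 16703712))))) (a (a (a (l 16634216) (l 16643760)) (a (l 16653312) (l 16662888))) (a (a (l 16672480) (l 16682080)) (a (l 16691688) (a (l 16698896) (l 16703704)))))) (c (a (a (a (l 16634208) (l 16643752)) (a (l 16653304) (l 16662880))) (a (a (l 16672472) (l 16682064)) (a (l 16691680) (a (l 16698888) (l 16703688))))) (a (a (a (l 16634208) (l 16643744)) (a (l 16653296) (l 16662872))) (a (a (l 16672456) (l 16682056)) (a (l 16691664) (a (l 16698872) (l 16703680)))))))), by decide +kernel⟩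

def k83_A00pp_022_s3 : ∃ t, chk3 f_A00pp_022_s3 t 9 115 62 = true :=
  ⟨(c (c (c (a (a (a (l 16634200) (l 16643736)) (a (l 16653288) (l 16662864))) (a (a (l 16672448) (l 16682048)) (a (l 16691656) (a (l 16698864) (l 16703672))))) (a (a (a (l 16634192) (l 16643728)) (a (l 16653280) (l 16662848))) (a (a (l 16672440) (l 16682040)) (a (l 16691648) (a (l 16698856) (l 16703656)))))) (c (a (a (a (l 16634184) (l 16643720)) (a (l 16653272) (l 16662840))) (a (a (l 16672432) (l 16682024)) (a (l 16691632) (a (l 16698848) (l 16703648))))) (a (a (a (l 16634176) (l 16643712)) (a (l 16653264) (l 16662832))) (a (a (l 16672416) (l 16682016)) (a (l 16691624) (a (l 16698832) (l 16703640))))))) (c (c (a (a (a (l 16634168) (l 16643704)) (a (l 16653256) (l 16662824))) (a (a (l 16672408) (l 16682008)) (a (l 16691616) (a (l 16698824) (l 16703632))))) (a (a (a (l 16634168) (l 16643696)) (a (l 16653248) (l 16662816))) (a (a (l 16672400) (l 16681992)) (a (l 16691600) (a (l 16698816) (l 16703616)))))) (c (c (a (a (a (l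 16634160) (l 16643688)) (a (l 16653240) (l 16662808))) (a (a (l 16672392) (l 16681984)) (a (l 16691592) (a (l 16698808) (l 16703608))))) (a (a (a (l 16634152) (l 16643688)) (a (l 16653232) (l 16662800))) (a (a (l 16672384) (l 16681984)) (a (l 16691592) (a (l 16698800) (l 16703608)))))) (c (a (a (a (l 16634152) (l 16643680)) (a (l 16653232) (l 16662800))) (a (a (l 16672384) (l 16681976)) (a (l 16691584) (a (l 16698792) (l 16703600))))) (a (a (a (l 16634152) (l 16643680)) (a (l 16653224) (l 16662792))) (a (a (l 16672376) (l 16681976)) (a (l 16691576) (a (l 16698792) (l 16703600))))))))), by decide +kernel⟩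

def k84_A00pp_022_s3 : ∃ t, chk3 f_A00pp_022_s3 t 9 115 126 = true :=
  ⟨(c (c (c (a (a (a (l 16634144) (l 16643672)) (a (l 16653224) (l 16662784))) (a (a (l 16672368) (l 16681968)) (a (l 16691576) (a (l 16698784) (l 16703592))))) (a (a (a (l 16634144) (l 16643672)) (a (l 16653216) (l 16662784))) (a (a (l 16672368) (l 16681960)) (a (l 16691568) (a (l 16698784) (l 16703584)))))) (c (a (a (a (l 16634136) (l 16643664)) (a (l 16653208) (l 16662776))) (a (a (l 16672360) (l 16681960)) (a (l 16691568) (a (l 16698776) (l 16703584))))) (a (a (a (l 16634136) (l 16643664)) (a (l 16653208) (l 16662776))) (a (a (l 16672352) (l 16681952)) (a (l 16691560) (a (l 16698768) (l 16703576))))))) (c (c (a (a (a (l 16634136) (l 16643656)) (a (l 16653200) (l 16662768))) (a (a (l 16672352) (l 16681944)) (a (l 16691552) (a (l 16698768) (l 16703568))))) (a (a (a (l 16634128) (l 16643656)) (a (l 16653200) (l 16662760))) (a (a (l 16672344) (l 16681944)) (a (l 16691552) (a (l 16698760) (l 16703568)))))) (c (a (a (a (l 16634128)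 (l 16643648)) (a (l 16653192) (l 16662760))) (a (a (l 16672344) (l 16681936)) (a (l 16691544) (a (l 16698752) (l 16703560))))) (a (a (a (l 16634120) (l 16643648)) (a (l 16653192) (l 16662752))) (a (a (l 16672336) (l 16681928)) (a (l 16691536) (a (l 16698752) (l 16703552)))))))), by decide +kernel⟩

def k85_A00pp_022_s3 : ∃ t, chk3 f_A00pp_022_s3 t 9 115 127 = true :=
  ⟨(c (c (c (a (a (a (l 16634120) (l 16643640)) (a (l 16653184) (l 16662752))) (a (a (l 16672328) (l 16681928)) (a (l 16691536) (a (l 16698744) (l 16703552))))) (a (a (a (l 16634120) (l 16643640)) (a (l 16653184) (l 16662744))) (a (a (l 16672328) (l 16681920)) (a (l 16691528) (a (l 16698736) (l 16703544)))))) (c (a (a (a (l 16634112) (l 16643632)) (a (l 16653176) (l 16662736))) (a (a (l 16672320) (l 16681912)) (a (l 16691520) (a (l 16698736) (l 16703536))))) (a (a (a (l 16634112) (l 16643632)) (a (l 16653176) (l 16662736))) (a (a (l 16672312) (l 16681912)) (a (l 16691520) (a (l 16698728) (l 16703536))))))) (c (a (a (a (l 16634104)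 (l 16643624)) (a (l 16653168) (l 16662728))) (a (a (l 16672304) (l 16681904)) (a (l 16691512) (a (l 16698720) (l 16703528))))) (a (a (a (l 16634096) (l 16643616)) (a (l 16653160) (l 16662720))) (a (a (l 16672296) (l 16681896)) (a (l 16691496) (a (l 16698712) (l 16703520))))))), by decide +kernel⟩

def k86_A00pp_022_s3 : ∃ t, chk3 f_A00pp_022_s3 t 36 29 1 = true :=
  ⟨(b (a (b (a (b (c (l 16644616) (l 16643856)) (c (l 16652480) (l 16651856))) (c (l 16658672) (c (l 16652848) (l 16652528)))) (a (b (c (l 16660496) (l 16659992)) (c (l 16668672) (l 16673496))) (b (c (l 16665408) (l 16664840)) (c (l 16673592) (l 16673128))))) (b (a (c (l 16663560) (c (l 16657696) (l 16657344))) (c (l 16668432) (c (l 16662544) (l 16662160)))) (a (b (c (l 16670312) (l 16669704)) (c (l 16678512) (l 16678000))) (b (c (l 16675208) (l 16674560)) (c (l 16683424) (l 16682880)))))) (a (c (b (a (a (l 16685240) (l 16682464)) (c (l 16691528) (l 16691304))) (a (b (c (l 16694160) (l 16694000)) (a (l 16701576) (l 16704056))) (b (l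 16704264) (c (l 16707856) (l 16707704))))) (b (a (b (c (l 16676720) (l 16676600)) (c (l 16685240) (l 16685144))) (b (l 16681544) (c (l 16690152) (l 16690032)))) (a (b (c (l 16693880) (l 16693808)) (c (l 16702656) (l 16707832))) (b (c (l 16698808) (l 16698712)) (a (l 16706312) (l 16708784)))))) (b (a (b (c (l 16686856) (l 16686432)) (c (l 16695344) (a (l 16693768) (l 16696216)))) (b (c (l 16691776) (l 16696568)) (c (l 16705520) (a (l 16698672) (l 16701120))))) (a (b (c (l 16709216) (a (l 16702448) (l 16704904))) (a (c (l 16711496) (l 16711248)) (c (l 16713968) (l 16713712)))) (a (b (c (l 16707680) (l 16707368)) (c (l 16716448) (l 16716184))) (b (c (l 16710144) (l 16709824)) (c (l 16718920) (l 16718648)))))))), by decide +kernel⟩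

def k87_A00pp_022_s3 : ∃ t, chk3 f_A00pp_022_s3 t 37 29 1 = true :=
  ⟨(b (a (b (a (c (l 16673312) (b (l 16663152) (l 16671216))) (b (c (l 16668976) (l 16667984)) (c (l 16676904) (l 16676064)))) (a (b (c (l 16680104) (l 16679424)) (c (l 16688328) (l 16687752))) (a (c (l 16687888) (l 16692480)) (b (l 16685840) (l 16699376))))) (c (b (a (b (l 16673832) (l 16681776)) (b (l 16678680) (l 16686640))) (a (b (l 16689880) (l 16698120)) (b (l 16694752) (l 16703008)))) (b (a (b (l 16672808) (l 16680912)) (b (l 16677640) (l 16685752))) (a (b (l 16689144) (l 16702752)) (b (l 16694008) (l 16707624)))))) (a (b (c (a (b (l 16696696) (l 16710448)) (b (l 16706848) (c (l 16710248) (l 16710008)))) (b (a (l 16701456) (c (l 16701216) (l 16701000))) (a (c (l 16704888) (l 16704720)) (a (l 16708480) (l 16710936))))) (a (b (a (c (l 16712616) (l 16712288)) (c (l 16715080) (l 16714744))) (a (c (l 16721392) (c (l 16721176) (l 16721064))) (c (l 16723856) (c (l 16723640) (l 16723528))))) (b (a (c (l 16717544) (l 16717200))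 (c (l 16720008) (l 16719664))) (a (c (l 16726328) (c (l 16726112) (l 16725992))) (c (l 16734040) (c (l 16728576) (l 16728456))))))) (b (c (a (b (l 16711752) (c (l 16715160) (l 16714920))) (b (a (l 16710184) (l 16712632)) (c (l 16720064) (l 16719832)))) (a (a (b (l 16704776) (l 16713384)) (b (l 16707224) (l 16715840))) (b (a (l 16709664) (l 16712112)) (c (l 16719616) (l 16724672))))) (b (b (a (c (l 16726760) (c (l 16721240) (l 16721080))) (a (l 532191759) (l 531922703))) (a (a (c (l 16724648) (l 16724320)) (l 532179471)) (a (l 531910415) (l 531909647)))) (b (a (a (c (l 16729048) (l 16728752)) (l 532166927)) (a (l 531897615) (l 531896847))) (a (a (l 532155663) (l 531886351)) (a (l 531885327) (l 531884559)))))))), by decide +kernel⟩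

def k88_A00pp_022_s3 : ∃ t, chk3 f_A00pp_022_s3 t 38 29 1 = true :=
  ⟨(b (a (c (b (a (b (l 16683528) (l 16691496)) (b (l 16688368) (l 16696352))) (b (a (l 16699624) (l 16704488)) (a (l 16713136) (c (l 16712936) (l 16712600))))) (b (a (b (l 16682472) (l 16690600)) (c (l 16691608) (l 16696384))) (b (a (l 16698864) (l 16708976)) (a (a (l 16706040) (l 16708480)) (c (l 16712288) (l 16711992)))))) (b (a (b (c (l 16693200) (l 16692128)) (c (l 16701200) (l 16700296))) (b (c (l 16698024) (l 16696960)) (c (l 16706040) (l 16705144)))) (a (b (c (l 16714584) (l 16713832)) (a (c (l 16716416) (l 16715792)) (c (l 16718848) (l 16718232)))) (b (a (c (l 16712984) (l 16712240)) (c (l 16715408) (l 16714664))) (a (c (l 16721280) (l 16720672)) (l 532536079)))))) (a (b (a (b (c (c (l 16716440) (l 16716160)) (c (l 16715904) (l 16715664))) (c (c (l 16724960) (l 16729976)) (a (l 16723200) (l 16730896)))) (b (a (c (l 16719968) (l 16719448)) (c (l 16722408) (l 16721896))) (a (a (l 531941647) (l 531941391)) (c (l 16736208)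 (l 532188175))))) (a (b (a (b (l 531921935) (l 531908879)) (b (l 531921423) (l 531908111))) (a (b (l 531896079) (l 531883791)) (b (l 531895311) (l 531882767)))) (b (a (b (l 531920911) (l 531907343)) (b (l 531920143) (l 531906831))) (a (b (l 531894287) (l 531881999)) (l 532155151))))) (a (a (b (b (c (l 16724848) (l 16724336)) (b (l 531948047) (l 531933711))) (b (l 532180751) (l 531885839))) (b (b (c (l 16727280) (l 16726784)) (l 532208143)) (b (l 531911695) (l 531885071)))) (a (b (b (l 531968783) (l 531939599)) (b (l 531911183) (l 531884559))) (b (b (l 532237327) (l 531939343)) (b (l 531910927) (l 531883791))))))), by decide +kernel⟩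

def k89_A00pp_022_s3 : ∃ t, chk3 f_A00pp_022_s3 t 39 29 1 = true :=
  ⟨(b (a (a (a (b (c (l 16710888) (l 16709920)) (b (l 532299023) (l 531999503))) (b (b (l 16703520) (l 532331279)) (b (l 532030991) (l 531999759)))) (a (b (b (l 16711176) (l 532063503)) (b (l 532031759) (l 532000271))) (b (b (l 16713584) (l 532064271)) (b (l 532032271) (l 532001039))))) (b (b (a (a (l 16715992) (l 532098831)) (a (l 532099855) (l 532100623))) (a (a (l 532065295) (l 532066319)) (a (l 532067343) (l 532067855)))) (a (b (a (l 532033295) (l 532034319)) (a (l 532001807) (l 532002575))) (b (a (l 532035087) (l 532035599)) (a (l 532003343) (l 532003599)))))) (a (b (b (a (a (l 531969039) (l 531969295)) (a (l 531969551) (l 531970063))) (a (a (l 531939343) (l 531939343)) (a (l 531939599) (l 531939855)))) (a (b (a (l 531910415) (l 531910415)) (a (l 531883279) (l 531882511))) (b (a (l 531910159) (l 531910159)) (a (l 531881999) (l 531880463))))) (b (a (b (a (l 531970831) (l 531971599)) (a (l 531940367) (l 531941135))) (b (a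 (l 531972367) (l 531972111)) (a (l 531941647) (l 531940367)))) (a (b (a (l 531910671) (l 531911183)) (a (l 531881231) (l 532151055))) (b (a (l 531910927) (l 531908111)) (a (l 531879439) (l 531875599))))))), by decide +kernel⟩

def k90_A00pp_022_s3 : ∃ t, chk3 f_A00pp_022_s3 t 72 60 1 = true :=
  ⟨(b (c (a (b (c (l 16711744) (l 16716864)) (a (l 16719400) (l 16721896))) (b (c (l 16716712) (l 16716584)) (a (l 16724384) (l 16726872)))) (a (b (a (c (l 16710296) (l 16710256)) (l 16712744)) (b (a (l 16717000) (l 16719480)) (a (l 16721520) (l 16724000)))) (b (a (l 16715216) (l 16722936)) (a (c (l 16724248) (l 16724200)) (c (l 16726736) (l 16726672)))))) (a (b (a (b (c (l 16726192) (l 16726064)) (c (l 16730744) (l 16733256))) (b (c (l 16728680) (l 16728552)) (c (l 16733240) (l 16733120)))) (a (b (c (l 16735328) (c (l 16735248) (l 16735216))) (c (l 16742560) (c (l 16739864) (l 16739840)))) (c (c (l 16740168) (l 16740104)) (b (l 16737720) (c (l 16742360) (l 16742328)))))) (a (b (c (c (l 16733504) (l 16733416))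 (c (l 16733352) (l 16733304))) (b (c (l 16740320) (l 16742832)) (a (l 532074255) (l 531805199)))) (a (b (c (l 16735328) (l 16737808)) (b (l 531816207) (l 531804687))) (b (c (l 16736568) (l 16739056)) (b (l 531815695) (l 531803919))))))), by decide +kernel⟩

def k91_A00pp_022_s3 : ∃ t, chk3 f_A00pp_022_s3 t 73 60 1 = true :=
  ⟨(b (c (a (b (c (l 16721680) (l 16726792)) (a (l 16734600) (c (l 16731896) (l 16731784)))) (b (a (l 16725328) (l 16733048)) (a (c (l 16734384) (l 16734272)) (c (l 16736864) (l 16736752))))) (a (a (b (c (l 16720208) (l 16720128)) (c (l 16729216) (l 16729152))) (b (c (l 16722680) (l 16722600)) (c (l 16731696) (l 16731632)))) (b (a (c (l 16725152) (l 16725072)) (c (l 16727632) (l 16727536))) (a (c (l 16734176) (l 16734104)) (c (l 16736656) (l 16736584)))))) (a (b (b (a (c (l 16736152) (l 16736008)) (c (l 16738640) (l 16738488))) (a (c (l 16740720) (l 16743208)) (a (l 531825679) (l 531825167)))) (b (a (a (l 531815183) (l 531814671)) (a (l 531813903) (l 531813391))) (a (a (l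 531803407) (l 531802895)) (a (l 531802127) (l 531801615))))) (a (b (a (b (l 531836175) (l 531824655)) (b (l 531835663) (l 531823887))) (b (a (l 531812879) (l 531812367)) (a (l 531801103) (l 531800591)))) (b (a (b (l 531835151) (l 531823375)) (b (l 531834639) (l 531822863))) (b (a (l 531811599) (l 531811087)) (l 532335631)))))), by decide +kernel⟩

def k92_A00pp_022_s3 : ∃ t, chk3 f_A00pp_022_s3 t 36 61 1 = true :=
  ⟨(a (b (a (a (b (b (a (c (l 16743944) (l 16743872)) (c (l 16745192) (l 16745120))) (a (c (l 16748600) (l 16751160)) (l 532052495))) (b (a (l 532041487) (l 531772431)) (a (l 531761167) (l 531760655)))) (a (b (b (l 532332047) (l 531783439)) (b (l 531771663) (l 531759887))) (b (b (l 532062991) (l 531782927)) (b (l 531771151) (l 531759375))))) (b (a (b (a (l 531793935) (l 531793423)) (a (l 531782159) (l 531781647))) (a (b (l 531792911) (l 531781135)) (b (l 531792143) (l 531780367)))) (a (b (a (l 531770383) (l 531769871)) (a (l 531758607) (l 531758095))) (b (a (l 531769359) (l 531768591))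 (a (l 531757327) (l 531756815)))))) (a (b (a (b (a (l 531749391) (l 531748623)) (a (l 531737359) (l 531736847))) (b (a (l 531748111) (l 531747343)) (a (l 531736079) (l 531735567)))) (a (b (a (l 531725583) (l 531724815)) (a (l 531713551) (l 531712783))) (b (a (l 531724047) (l 531723535)) (a (l 531712271) (l 4))))) (b (a (b (a (l 531746831) (l 531746063)) (a (l 531734799) (l 531734287))) (b (a (l 531745551) (l 531744783)) (l 532269327))) (b (a (a (l 531722767) (l 531722255)) (l 531988751)) (l 4))))) (b (a (b (a (b (a (l 531791631) (l 531791119)) (a (l 531779855) (l 531779343))) (b (a (l 531790351) (l 531789839)) (a (l 531778575) (l 531778063)))) (a (b (a (l 531768079) (l 531767311)) (a (l 531756047) (l 531755535))) (b (l 532302607) (l 532022287)))) (b (a (b (a (l 531789327) (l 531788815)) (l 532044815)) (b (l 532055567) (l 531775247))) (a (b (l 531764495) (l 531752719)) (b (l 531763471) (l 531751439))))) (b (b (a (a (l 532011535) (l 531741967)) (a (l 531740687) (l 4))) (a (a (l 531731215) (l 531729935))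 (l 4))) (l 4)))), by decide +kernel⟩

def k93_A00pp_022_s3 : ∃ t, chk3 f_A00pp_022_s3 t 37 60 1 = true :=
  ⟨(a (b (a (b (a (b (c (l 16728048) (l 16727808)) (c (l 16732520) (l 16732304))) (b (c (l 16730520) (l 16730280)) (c (l 16735000) (l 16734776)))) (a (b (c (l 16737024) (l 16736824)) (c (l 16741544) (l 16743992))) (b (c (l 16739496) (l 16739304)) (c (l 16744024) (l 532100367))))) (b (a (b (c (l 16732992) (l 16732752)) (c (l 16737472) (l 16737256))) (b (c (l 16735464) (l 16735224)) (l 532133391))) (a (b (c (l 16741976) (l 16744400)) (l 532111119)) (b (l 531853327) (l 531841551))))) (b (b (a (a (a (l 531834127) (l 531833615)) (l 532368911)) (a (l 531830799) (l 531830031))) (a (a (a (l 531822351) (l 531821839)) (l 532088591)) (a (l 531819279) (l 531818255)))) (b (a (a (l 532078095) (l 531808527)) (a (l 531807503) (l 531806479))) (a (a (l 531797775) (l 531796751)) (a (l 531795727) (l 531794703)))))) (b (a (a (b (b (l 532143887) (l 531863823)) (b (l 531852303) (l 531840527))) (a (b (l 532137487)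 (l 531845647)) (b (l 531868431) (l 531845135)))) (b (a (b (l 531873807) (l 531862031)) (b (l 531872783) (l 531861263))) (a (b (l 531850511) (l 531838735)) (b (l 531849487) (l 531837711))))) (a (b (a (b (l 531829007) (l 531817231)) (b (l 531827983) (l 531816207))) (a (b (l 531805455) (l 531793423)) (b (l 531804431) (l 531792399)))) (b (a (b (l 531826959) (l 531815183)) (b (l 531825935) (l 531814159))) (a (b (l 531803407) (l 531791375)) (b (l 531802383) (l 531790351))))))), by decide +kernel⟩

def k94_A00pp_022_s3 : ∃ t, chk3 f_A00pp_022_s3 t 37 61 1 = true :=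
  ⟨(a (b (a (a (b (b (l 531785999) (l 531774223)) (b (l 531762191) (l 531750159))) (b (b (l 531784975) (l 531772943)) (b (l 531761167) (l 4)))) (b (a (b (l 531783695) (l 531771919)) (b (l 531782671) (l 531770895))) (a (b (l 531759887) (l 4)) (l 4)))) (l 4)) (b (b (a (a (b (l 531781647) (l 531769615)) (l 532042255)) (a (l 531772943) (l 4))) (l 4)) (l 4))), by decide +kernel⟩

def k95_A00pp_022_s3 : ∃ t, chk3 f_A00pp_022_s3 t 18 31 1 = true :=
  ⟨(l 4), by decide +kernel⟩

def k96_A00pp_022_s3 : ∃ t, chk3 f_A00pp_022_s3 t 19 15 1 = true :=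
  ⟨(b (a (b (a (a (b (b (a (b (l 531872015) (l 531860239)) (b (l 531870991) (l 531859471))) (a (b (l 531848463) (l 531836943)) (l 532109583))) (c (b (a (l 531837199) (l 531837199)) (a (l 531813647) (l 531813391))) (b (a (l 531801615) (l 531799823)) (a (l 531777807) (l 531776271))))) (a (b (b (l 532132111) (l 532108559)) (b (b (l 531823119) (l 531811343)) (l 531792911))) (b (b (l 531862799) (l 531839503)) (b (l 531815695) (l 4))))) (a (b (b (a (l 531862031) (l 531861263)) (a (l 531838479) (l 531837711))) (b (a (l 531814927) (l 531813903)) (l 4))) (b (b (a (l 531860495) (l 531859727)) (a (l 531836943) (l 531836175))) (b (a (l 531813135) (l 4)) (l 4))))) (l 4)) (b (b (a (a (b (a (l 531858959) (l 531858191)) (a (l 531835407) (l 531834639))) (b (a (l 531857423) (l 531856655)) (l 4))) (a (b (a (l 531857679) (l 531852815)) (l 4)) (l 4))) (l 4)) (l 4))) (l 4)), by decide +kernel⟩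

def k97_A00pp_022_s3 : ∃ t, chk3 f_A00pp_022_s3 t 5 12 2 = true :=
  ⟨(a (a (b (l 6) (b (a (l 16533376) (l 16591696)) (a (a (l 16551240) (l 16559648)) (a (l 16567952) (l 16576112))))) (b (a (b (l 6) (l 16543616)) (b (l 16537336) (l 16558376))) (b (a (l 16565368) (l 16622184)) (a (l 16608840) (a (l 16599232) (l 16606648)))))) (a (b (a (b (l 16551400) (l 16572560)) (b (l 16565032) (l 16586440))) (b (a (l 16636624) (l 16650824)) (a (a (l 16613976) (l 16621320)) (a (l 16628688) (l 16636088))))) (b (b (a (l 16578936) (l 16593816)) (a (l 16600672) (l 16615952))) (a (b (l 16644488) (a (l 16643608) (l 16651400))) (b (a (l 16635192) (l 16643448)) (a (l 16680528) (l 16689136))))))), by decide +kernel⟩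

def k98_A00pp_022_s3 : ∃ t, chk3 f_A00pp_022_s3 t 10 13 2 = true :=
  ⟨(a (b (a (b (a (l 16574072) (l 16582616)) (a (l 16618784) (l 16627464))) (b (a (l 16591032) (l 16620288)) (a (l 16636024) (b (l 16617280) (l 16629592))))) (a (b (a (b (l 16616192) (l 16628816)) (b (l 16624992) (l 16637696))) (b (a (l 16652224) (l 16661184)) (a (a (l 16652696) (l 16657256)) (a (l 16661776) (l 16666264))))) (b (a (b (l 16633656) (l 16646432)) (b (l 16642168) (l 16665504))) (a (b (a (l 16657328) (l 16661696)) (c (l 16684152) (l 16682656))) (b (c (l 16679448) (l 16677808)) (a (l 16689976) (l 16694296))))))) (b (a (b (a (l 16607320) (l 16615144)) (a (l 16652576) (b (l 16633304) (l 16645768)))) (b (a (l 16643776) (l 16651344)) (a (c (l 16669192) (l 16667576)) (a (l 16674248) (l 16678168))))) (a (b (a (b (l 16650416) (l 16673840)) (b (l 16658520) (l 16682048))) (b (a (a (l 16674512) (l 16678696)) (a (l 16682872) (l 16687056))) (a (a (l 16698568) (l 16702832)) (a (l 16701848) (b (l 16697376) (l 16704384)))))) (b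 (a (b (l 16677048) (a (l 16677720) (l 16681824))) (b (l 16685112) (a (l 16685944) (l 16690064)))) (a (b (a (l 16691248) (l 16705928)) (a (l 532962319) (l 532680975))) (b (a (l 16710128) (l 16709104)) (a (l 532667407) (l 532384783)))))))), by decide +kernel⟩

def k99_A00pp_022_s3 : ∃ t, chk3 f_A00pp_022_s3 t 11 13 2 = true :=
  ⟨(a (b (a (b (a (l 16658920) (l 16666512)) (a (b (l 16656640) (l 16669512)) (b (l 16664448) (l 16687976)))) (b (a (b (l 16646888) (l 16659440)) (b (l 16654488) (l 16667192))) (a (b (l 16672312) (l 16696000)) (b (l 16690712) (a (l 16691576) (l 16695648)))))) (a (b (a (b (a (l 16680688) (l 16684752)) (a (l 16694200) (l 16698352))) (b (a (l 16688816) (l 16692904)) (a (l 16713000) (l 16711936)))) (a (b (a (l 532436495) (l 532420623)) (a (l 532369935) (l 532354575))) (b (b (l 532880143) (l 532647439)) (a (l 532338447) (l 532321551))))) (b (a (b (c (l 16704528) (l 16709328)) (a (l 532429327) (l 532410383))) (b (a (l 16715752) (l 16714672)) (a (l 532390415) (l 532369679)))) (a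 (a (b (l 532368655) (l 532304143)) (b (l 532349967) (l 532554255))) (b (a (l 532329999) (l 532309007)) (a (l 532534799) (l 532245519))))))) (b (a (a (b (b (l 16662224) (l 16675072)) (b (l 16698760) (l 532989455))) (b (b (l 16670240) (l 16704232)) (b (c (l 16707160) (l 16696608)) (a (l 16718688) (l 16717816))))) (a (b (b (l 16678640) (l 16702312)) (b (c (l 16715912) (l 16715880)) (a (l 532422415) (l 532426767)))) (b (b (l 16687448) (l 532518159)) (b (l 532477455) (l 532435727))))) (a (a (a (b (b (l 532407055) (l 532348431)) (b (l 532287759) (b (l 532240399) (a (l 532213263) (l 532207631))))) (b (b (l 532389647) (l 532332303)) (b (b (l 532289039) (l 532260623)) (b (l 532235023) (l 532208399))))) (b (b (a (l 532377871) (l 532374031)) (a (l 532324623) (l 532326671))) (b (a (b (l 532286991) (l 532262415)) (l 532279567)) (l 532227343)))) (a (b (b (l 532379407) (l 532334351)) (b (l 532288015) (l 532240143))) (b (b (l 532392463) (l 532348175)) (b (l 532302607) (l 532256015))))))), by decide +kernel⟩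

def k100_A00pp_022_s3 : ∃ t, chk3 f_A00pp_022_s3 t 80 6 6 = true :=
  ⟨(b (b (l 6) (l 16576800)) (b (b (l 16569320) (l 16593528)) (b (l 16629368) (b (l 16638704) (l 16652392))))), by decide +kernel⟩

def k101_A00pp_022_s3 : ∃ t, chk3 f_A00pp_022_s3 t 162 6 24 = true :=
  ⟨(a (c (a (c (b (b (l 6) (l 16541344)) (b (l 16587856) (b (l 16625080) (l 16651576)))) (b (b (l 6) (l 16541112)) (b (l 16587664) (b (l 16624928) (l 16651464))))) (a (c (a (b (b (l 6) (l 16542000)) (b (l 16588528) (b (l 16625776) (l 16652288)))) (b (b (l 6) (l 16542256)) (b (l 16588800) (b (l 16626048) (l 16652568))))) (b (b (l 6) (l 16541896)) (b (l 16588472) (b (l 16625760) (l 16652312))))) (c (a (b (b (l 6) (l 16542520)) (b (l 16589072) (b (l 16626328) (l 16652856)))) (b (b (l 6) (l 16542784)) (b (l 16589344) (b (l 16626608) (l 16653136))))) (b (b (l 6) (l 16542424)) (b (l 16589016) (b (l 16626312) (l 16652880))))))) (b (b (l 6) (l 16541288)) (b (l 16608888) (b (l 16625248) (l 16651848))))) (a (c (a (a (b (b (l 6) (l 16542928))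 (b (l 16589520) (b (l 16626808) (l 16653360)))) (b (b (l 6) (l 16543192)) (b (l 16589784) (b (l 16627088) (l 16653640))))) (c (b (b (l 6) (l 16543696)) (b (l 16590288) (b (l 16627576) (l 16654128)))) (b (b (l 6) (l 16543464)) (b (l 16590096) (b (l 16627424) (l 16654008)))))) (b (b (l 6) (l 16542856)) (b (l 16589544) (b (l 16626920) (l 16653552))))) (c (a (a (b (b (l 6) (l 16543976)) (b (l 16590600) (b (l 16627920) (l 16654488)))) (b (b (l 6) (l 16544232)) (b (l 16590864) (b (l 16628192) (l 16654776))))) (c (b (b (l 6) (l 16544744)) (b (l 16591368) (b (l 16628688) (l 16655256)))) (a (b (b (l 6) (l 16544384)) (b (l 16591040) (b (l 16628400) (l 16655000)))) (b (b (l 6) (l 16544640)) (b (l 16591312) (b (l 16628672) (l 16655280))))))) (b (b (l 6) (l 16543904)) (b (l 16590624) (b (l 16628032) (l 16654680))))))), by decide +kernel⟩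

def k102_A00pp_022_s3 : ∃ t, chk3 f_A00pp_022_s3 t 324 6 25 = true :=
  ⟨(a (c (a (b (b (l 6) (l 16540040)) (b (l 16586728) (b (l 16624112) (l 16650768)))) (b (b (l 6) (l 16540560)) (b (l 16587264) (b (l 16624672) (l 16651336))))) (a (c (a (b (b (l 6) (l 16539552)) (b (l 16586304) (b (l 16623744) (l 16650448)))) (b (b (l 6) (l 16539816)) (b (l 16586576) (b (l 16624016) (l 16650728))))) (a (b (b (l 6) (l 16539320)) (b (l 16586104) (b (l 16623584) (l 16650328)))) (b (b (l 6) (l 16539584)) (b (l 16586376) (b (l 16623864) (l 16650608)))))) (c (b (b (l 6) (l 16540208)) (b (l 16586976) (b (l 16624440) (l 16651160)))) (a (b (b (l 6) (l 16539848)) (b (l 16586648) (b (l 16624144) (l 16650896)))) (b (b (l 6) (l 16540112)) (b (l 16586920) (b (l 16624424) (l 16651184)))))))) (c (b (b (l 6) (l 16541344)) (b (l 16588080) (b (l 16625504) (l 16652184)))) (a (c (b (b (l 6) (l 16540736)) (b (l 16587520) (b (l 16624992) (l 16651728)))) (a (b (b (l 6) (l 16540368)) (b (l 16587192) (b (l 16624704) (l 16651464))))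 (b (b (l 6) (l 16540632)) (b (l 16587464) (b (l 16624984) (l 16651752)))))) (c (b (b (l 6) (l 16541256)) (b (l 16588064) (b (l 16625552) (l 16652296)))) (a (b (b (l 6) (l 16540896)) (b (l 16587736) (b (l 16625256) (l 16652032)))) (b (b (l 6) (l 16541160)) (b (l 16588008) (b (l 16625536) (l 16652320))))))))), by decide +kernel⟩

def k103_A00pp_022_s3 : ∃ t, chk3 f_A00pp_022_s3 t 325 6 25 = true :=
  ⟨(a (c (b (b (l 6) (l 16542392)) (b (l 16589160) (b (l 16626616) (l 16653320)))) (a (c (b (b (l 6) (l 16541784)) (b (l 16588608) (b (l 16626112) (l 16652856)))) (b (b (l 6) (l 16541552)) (b (l 16588416) (b (l 16625952) (l 16652744))))) (b (b (l 6) (l 16542192)) (b (l 16589048) (b (l 16626592) (l 16653368)))))) (c (b (b (l 6) (l 16543440)) (b (l 16590240) (b (l 16627728) (l 16654448)))) (a (b (b (l 6) (l 16542712)) (b (l 16589592) (b (l 16627144) (l 16653936)))) (b (b (l 6) (l 16543240)) (b (l 16590136) (b (l 16627704) (l 16654504))))))), by decide +kernel⟩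

def k104_A00pp_022_s3 : ∃ t, chk3 f_A00pp_022_s3 t 326 6 24 = true :=
  ⟨(c (a (a (c (b (b (l 6) (l 16545264)) (b (l 16591904) (b (l 16629240) (l 16655816)))) (a (b (b (l 6) (l 16544904)) (b (l 16591584) (b (l 16628952) (l 16655560)))) (b (b (l 6) (l 16545168)) (b (l 16591848) (b (l 16629232) (l 16655848)))))) (c (b (b (l 6) (l 16545784)) (b (l 16592440) (b (l 16629792) (l 16656384)))) (b (b (l 6) (l 16545552)) (b (l 16592256) (b (l 16629640) (l 16656264)))))) (a (c (b (b (l 6) (l 16546304)) (b (l 16592984) (b (l 16630344) (l 16656944)))) (b (b (l 6) (l 16546080)) (b (l 16592792) (b (l 16630200) (l 16656832))))) (b (b (l 6) (l 16546712)) (b (l 16593424) (b (l 16630824) (l 16657448)))))) (a (b (b (l 6) (l 16544952)) (b (l 16591704) (b (l 16629144) (l 16655808)))) (a (b (b (l 6) (l 16545728)) (b (l 16592512) (b (l 16629976) (l 16656656)))) (c (a (b (b (l 6) (l 16546240)) (b (l 16593008) (b (l 16630464) (l 16657136)))) (b (b (l 6) (l 16546496)) (b (l 16593280) (b (l 16630736) (l 16657416)))))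 (b (b (l 6) (l 16546136)) (b (l 16592960) (b (l 16630448) (l 16657168)))))))), by decide +kernel⟩

def k105_A00pp_022_s3 : ∃ t, chk3 f_A00pp_022_s3 t 327 6 24 = true :=
  ⟨(c (a (a (b (b (l 6) (l 16547232)) (b (l 16593960) (b (l 16631376) (l 16658008)))) (b (b (l 6) (l 16547752)) (b (l 16594504) (b (l 16631928) (l 16658576))))) (b (b (l 6) (l 16548536)) (b (l 16595304) (b (l 16632752) (l 16659416))))) (a (a (a (b (b (l 6) (l 16546648)) (b (l 16593456) (b (l 16630944) (l 16657640)))) (b (b (l 6) (l 16546904)) (b (l 16593720) (b (l 16631216) (l 16657928))))) (c (b (b (l 6) (l 16547408)) (b (l 16594224) (b (l 16631704) (l 16658400)))) (b (b (l 6) (l 16547184)) (b (l 16594032) (b (l 16631560) (l 16658288)))))) (a (c (b (b (l 6) (l 16547928)) (b (l 16594760) (b (l 16632256) (l 16658968)))) (b (b (l 6) (l 16547704)) (b (l 16594568) (b (l 16632112) (l 16658856))))) (c (b (b (l 6) (l 16548448)) (b (l 16595296) (b (l 16632808) (l 16659528)))) (a (b (b (l 6) (l 16548088)) (b (l 16594976) (b (l 16632520)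 (l 16659272)))) (b (b (l 6) (l 16548352)) (b (l 16595240) (b (l 16632800) (l 16659552))))))))), by decide +kernel⟩

def k106_A00pp_022_s3 : ∃ t, chk3 f_A00pp_022_s3 t 163 6 25 = true :=
  ⟨(a (a (c (b (b (l 6) (l 16544488)) (b (l 16591320) (b (l 16628840) (l 16655584)))) (b (b (l 6) (l 16544024)) (b (l 16590944) (b (l 16628536) (l 16655352))))) (b (b (l 6) (l 16545296)) (b (l 16613184) (b (l 16629800) (l 16656592))))) (b (b (l 6) (l 16546864)) (b (l 16593824) (b (l 16631456) (l 16658288))))), by decide +kernel⟩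

def k107_A00pp_022_s3 : ∃ t, chk3 f_A00pp_022_s3 t 324 6 13 = true :=
  ⟨(c (a (c (a (b (b (l 6) (l 16539096)) (b (l 16585952) (b (l 16623488) (l 16650288)))) (b (b (l 6) (l 16539624)) (b (l 16586496) (b (l 16624048) (l 16650856))))) (b (b (l 6) (l 16538888)) (b (l 16585832) (b (l 16623456) (l 16650336))))) (c (a (c (b (b (l 6) (l 16540264)) (b (l 16587136) (b (l 16624688) (l 16651488)))) (b (b (l 6) (l 16540032)) (b (l 16586944) (b (l 16624528) (l 16651368))))) (c (a (b (b (l 6) (l 16540664)) (b (l 16587544) (b (l 16625104) (l 16651912)))) (b (b (l 6) (l 16540920)) (b (l 16587816) (b (l 16625384) (l 16652200))))) (b (b (l 6) (l 16540552)) (b (l 16587488) (b (l 16625088) (l 16651936)))))) (b (b (l 6) (l 16539936)) (b (l 16586920) (b (l 16624576) (l 16651472)))))) (a (b (b (l 6) (l 16538176)) (b (l 16585248) (b (l 16622984) (l 16649968)))) (b (b (l 6) (l 16539224)) (b (l 16586336) (b (l 16624104) (l 16651112)))))), by decide +kernel⟩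

def k108_A00pp_022_s3 : ∃ t, chk3 f_A00pp_022_s3 t 325 6 26 = true :=
  ⟨(a (c (a (c (a (b (b (l 6) (l 16541184)) (b (l 16588088) (b (l 16625664) (l 16652480)))) (b (b (l 6) (l 16541448)) (b (l 16588360) (b (l 16625944) (l 16652768))))) (b (b (l 6) (l 16541080)) (b (l 16588024) (b (l 16625648) (l 16652504))))) (c (a (b (b (l 6) (l 16541712)) (b (l 16588624) (b (l 16626216) (l 16653048)))) (b (b (l 6) (l 16541968)) (b (l 16588896) (b (l 16626496) (l 16653336))))) (b (b (l 6) (l 16541600)) (b (l 16588568) (b (l 16626208) (l 16653072)))))) (a (b (b (l 6) (l 16540728)) (b (l 16587736) (b (l 16625416) (l 16652328)))) (b (b (l 6) (l 16541248)) (b (l 16588280) (b (l 16625968) (l 16652896)))))) (c (a (a (b (b (l 6) (l 16542112)) (b (l 16589072) (b (l 16626696) (l 16653560)))) (c (b (b (l 6) (l 16542496)) (b (l 16589440) (b (l 16627056) (l 16653896)))) (b (b (l 6) (l 16542256)) (b (l 16589248) (b (l 16626904) (l 16653784)))))) (c (b (b (l 6) (l 16542888)) (b (l 16589848) (b (l 16627472) (l 16654328))))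 (a (b (b (l 6) (l 16542520)) (b (l 16589520) (b (l 16627176) (l 16654064)))) (b (b (l 6) (l 16542784)) (b (l 16589792) (b (l 16627456) (l 16654352))))))) (a (b (b (l 6) (l 16541776)) (b (l 16588816) (b (l 16626528) (l 16653464)))) (c (b (b (l 6) (l 16542416)) (b (l 16589456) (b (l 16627160) (l 16654088)))) (b (b (l 6) (l 16542176)) (b (l 16589264) (b (l 16627008) (l 16653968)))))))), by decide +kernel⟩

def k109_A00pp_022_s3 : ∃ t, chk3 f_A00pp_022_s3 t 325 6 27 = true :=
  ⟨(a (b (b (l 6) (l 16540272)) (b (l 16587416) (b (l 16625224) (l 16652248)))) (c (a (b (b (l 6) (l 16541296)) (b (l 16588432) (b (l 16626216) (l 16653224)))) (b (b (l 6) (l 16541824)) (b (l 16588976) (b (l 16626776) (l 16653792))))) (b (b (l 6) (l 16541080)) (b (l 16588312) (b (l 16626184) (l 16653264)))))), by decide +kernel⟩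

def k110_A00pp_022_s3 : ∃ t, chk3 f_A00pp_022_s3 t 326 6 26 = true :=
  ⟨(a (c (a (c (b (b (l 6) (l 16543408)) (b (l 16590384) (b (l 16628032) (l 16654888)))) (a (b (b (l 6) (l 16543040)) (b (l 16590056) (b (l 16627736) (l 16654632)))) (b (b (l 6) (l 16543304)) (b (l 16590328) (b (l 16628016) (l 16654912)))))) (c (b (b (l 6) (l 16543928)) (b (l 16590928) (b (l 16628584) (l 16655456)))) (b (b (l 6) (l 16543696)) (b (l 16590736) (b (l 16628432) (l 16655336)))))) (a (c (a (b (b (l 6) (l 16542808)) (b (l 16589864) (b (l 16627584) (l 16654512)))) (b (b (l 6) (l 16543072)) (b (l 16590136) (b (l 16627864) (l 16654800))))) (b (b (l 6) (l 16542704)) (b (l 16589808) (b (l 16627568) (l 16654536))))) (c (a (b (b (l 6) (l 16543328)) (b (l 16590408) (b (l 16628136) (l 16655080)))) (b (b (l 6) (l 16543592)) (b (l 16590680) (b (l 16628416) (l 16655368))))) (b (b (l 6) (l 16543224)) (b (l 16590352) (b (l 16628120) (l 16655104))))))) (c (a (b (b (l 6) (l 16544336)) (b (l 16591368) (b (l 16629064) (l 16655968))))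 (b (b (l 6) (l 16544856)) (b (l 16591912) (b (l 16629616) (l 16656528))))) (a (c (a (b (b (l 6) (l 16543856)) (b (l 16590944) (b (l 16628696) (l 16655648)))) (b (b (l 6) (l 16544112)) (b (l 16591216) (b (l 16628976) (l 16655928))))) (b (b (l 6) (l 16543752)) (b (l 16590888) (b (l 16628680) (l 16655672))))) (c (b (b (l 6) (l 16544504)) (b (l 16591624) (b (l 16629392) (l 16656352)))) (a (b (b (l 6) (l 16544144)) (b (l 16591296) (b (l 16629096) (l 16656096)))) (b (b (l 6) (l 16544400)) (b (l 16591568) (b (l 16629376) (l 16656376))))))))), by decide +kernel⟩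

def k111_A00pp_022_s3 : ∃ t, chk3 f_A00pp_022_s3 t 326 6 27 = true :=
  ⟨(a (c (b (b (l 6) (l 16542608)) (b (l 16589784) (b (l 16627608) (l 16654640)))) (b (b (l 6) (l 16542128)) (b (l 16589392) (b (l 16627296) (l 16654408))))) (c (a (b (b (l 6) (l 16543392)) (b (l 16590600) (b (l 16628448) (l 16655496)))) (b (b (l 6) (l 16543920)) (b (l 16591136) (b (l 16629000) (l 16656064))))) (b (b (l 6) (l 16543176)) (b (l 16590480) (b (l 16628416) (l 16655536)))))), by decide +kernel⟩

def k112_A00pp_022_s3 : ∃ t, chk3 f_A00pp_022_s3 t 327 6 26 = true :=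
  ⟨(a (c (b (b (l 6) (l 16545640)) (b (l 16592720) (b (l 16630448) (l 16657376)))) (a (c (b (b (l 6) (l 16545032)) (b (l 16592160) (b (l 16629944) (l 16656920)))) (a (b (b (l 6) (l 16544664)) (b (l 16591840) (b (l 16629656) (l 16656664)))) (b (b (l 6) (l 16544928)) (b (l 16592104) (b (l 16629928) (l 16656944)))))) (c (b (b (l 6) (l 16545552)) (b (l 16592704) (b (l 16630496) (l 16657488)))) (a (b (b (l 6) (l 16545184)) (b (l 16592376) (b (l 16630208) (l 16657224)))) (b (b (l 6) (l 16545448)) (b (l 16592648) (b (l 16630488) (l 16657512)))))))) (c (b (b (l 6) (l 16546688)) (b (l 16593800) (b (l 16631560) (l 16658504)))) (a (c (b (b (l 6) (l 16546072)) (b (l 16593240) (b (l 16631056) (l 16658048)))) (b (b (l 6) (l 16545840)) (b (l 16593048) (b (l 16630904) (l 16657936))))) (b (b (l 6) (l 16546480)) (b (l 16593688) (b (l 16631536) (l 16658552))))))), by decide +kernel⟩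

def k113_A00pp_022_s3 : ∃ t, chk3 f_A00pp_022_s3 t 327 6 27 = true :=
  ⟨(a (c (a (c (b (b (l 6) (l 16544560)) (b (l 16591776) (b (l 16629640) (l 16656688)))) (b (b (l 6) (l 16544320)) (b (l 16591584) (b (l 16629480) (l 16656568))))) (c (a (b (b (l 6) (l 16544952)) (b (l 16592184) (b (l 16630056) (l 16657112)))) (b (b (l 6) (l 16545208)) (b (l 16592456) (b (l 16630336) (l 16657392))))) (b (b (l 6) (l 16544840)) (b (l 16592128) (b (l 16630040) (l 16657136)))))) (b (b (l 6) (l 16544224)) (b (l 16591560) (b (l 16629528) (l 16656672))))) (c (a (c (a (b (b (l 6) (l 16545472)) (b (l 16592720) (b (l 16630608) (l 16657672)))) (b (b (l 6) (l 16545736)) (b (l 16592992) (b (l 16630888) (l 16657960))))) (b (b (l 6) (l 16545368)) (b (l 16592664) (b (l 16630592) (l 16657696))))) (c (a (b (b (l 6) (l 16545992)) (b (l 16593264) (b (l 16631168) (l 16658240)))) (b (b (l 6) (l 16546256)) (b (l 16593536) (b (l 16631440) (l 16658520))))) (b (b (l 6) (l 16545888)) (b (l 16593208) (b (l 16631152) (l 16658264))))))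 (a (b (b (l 6) (l 16545008)) (b (l 16592376) (b (l 16630360) (l 16657520)))) (b (b (l 6) (l 16545536)) (b (l 16592912) (b (l 16630920) (l 16658088))))))), by decide +kernel⟩

def k114_A00pp_022_s3 : ∃ t, chk3 f_A00pp_022_s3 t 80 6 7 = true :=
  ⟨(b (b (l 6) (l 16551976)) (b (b (l 16565968) (l 16590488)) (b (l 16626792) (b (l 16636560) (l 16650568))))), by decide +kernel⟩

def k115_A00pp_022_s3 : ∃ t, chk3 f_A00pp_022_s3 t 324 6 28 = true :=
  ⟨(a (c (a (c (b (b (l 6) (l 16537312)) (b (l 16584480) (b (l 16622312) (l 16649384)))) (a (b (b (l 6) (l 16536944)) (b (l 16584144) (b (l 16622008) (l 16649120)))) (b (b (l 6) (l 16537200)) (b (l 16584416) (b (l 16622288) (l 16649400)))))) (c (b (b (l 6) (l 16537840)) (b (l 16585024) (b (l 16622872) (l 16649952)))) (b (b (l 6) (l 16537600)) (b (l 16584824) (b (l 16622712) (l 16649832)))))) (a (c (a (b (b (l 6) (l 16536696)) (b (l 16583944) (b (l 16621848) (l 16648992)))) (b (b (l 6) (l 16536960)) (b (l 16584216) (b (l 16622128) (l 16649280))))) (b (b (l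 6) (l 16536584)) (b (l 16583880) (b (l 16621824) (l 16649016))))) (c (a (b (b (l 6) (l 16537224)) (b (l 16584488) (b (l 16622408) (l 16649568)))) (b (b (l 6) (l 16537488)) (b (l 16584760) (b (l 16622688) (l 16649848))))) (b (b (l 6) (l 16537112)) (b (l 16584424) (b (l 16622392) (l 16649584))))))) (c (a (b (b (l 6) (l 16538240)) (b (l 16585464) (b (l 16623352) (l 16650464)))) (b (b (l 6) (l 16538768)) (b (l 16586016) (b (l 16623912) (l 16651032))))) (a (c (a (b (b (l 6) (l 16537752)) (b (l 16585032) (b (l 16622968) (l 16650136)))) (b (b (l 6) (l 16538016)) (b (l 16585304) (b (l 16623248) (l 16650424))))) (b (b (l 6) (l 16537640)) (b (l 16584968) (b (l 16622952) (l 16650160))))) (c (a (b (b (l 6) (l 16538272)) (b (l 16585576) (b (l 16623528) (l 16650704)))) (b (b (l 6) (l 16538536)) (b (l 16585848) (b (l 16623808) (l 16650992))))) (a (b (b (l 6) (l 16538032)) (b (l 16585376) (b (l 16623368) (l 16650584)))) (b (b (l 6) (l 16538296)) (b (l 16585648) (b (l 16623648) (l 16650872))))))))), by decide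 +kernel⟩

def k116_A00pp_022_s3 : ∃ t, chk3 f_A00pp_022_s3 t 324 6 29 = true :=
  ⟨(a (c (b (b (l 6) (l 16536488)) (b (l 16583848) (b (l 16621864) (l 16649112)))) (b (b (l 6) (l 16535992)) (b (l 16583448) (b (l 16621544) (l 16648864))))) (c (a (b (b (l 6) (l 16537272)) (b (l 16584672) (b (l 16622712) (l 16649968)))) (b (b (l 6) (l 16537800)) (b (l 16585216) (b (l 16623272) (l 16650544))))) (b (b (l 6) (l 16537048)) (b (l 16584536) (b (l 16622664) (l 16650008)))))), by decide +kernel⟩

def k117_A00pp_022_s3 : ∃ t, chk3 f_A00pp_022_s3 t 325 6 14 = true :=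
  ⟨(c (a (c (b (b (l 6) (l 16539552)) (b (l 16586824) (b (l 16624752) (l 16651888)))) (a (c (b (b (l 6) (l 16538928)) (b (l 16586256) (b (l 16624232) (l 16651424)))) (a (b (b (l 6) (l 16538560)) (b (l 16585920) (b (l 16623928) (l 16651152)))) (b (b (l 6) (l 16538824)) (b (l 16586192) (b (l 16624208) (l 16651440)))))) (c (b (b (l 6) (l 16539456)) (b (l 16586800) (b (l 16624792) (l 16651992)))) (a (b (b (l 6) (l 16539080)) (b (l 16586464) (b (l 16624488) (l 16651728)))) (b (b (l 6) (l 16539344)) (b (l 16586736) (b (l 16624768) (l 16652008)))))))) (b (b (l 6) (l 16540360)) (b (l 16608688) (b (l 16625712) (l 16652904))))) (a (c (a (b (b (l 6) (l 16538328)) (b (l 16585760) (b (l 16623832) (l 16651112)))) (c (b (b (l 6) (l 16538968)) (b (l 16586400) (b (l 16624472) (l 16651744)))) (b (b (l 6) (l 16538728)) (b (l 16586200) (b (l 16624312) (l 16651624)))))) (b (b (l 6) (l 16538096)) (b (l 16585624) (b (l 16623792) (l 16651152))))) (c (a (a (b (b (l 6) (l 16539248)) (b (l 16586712) (b (l 16624816) (l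 16652112)))) (c (b (b (l 6) (l 16539632)) (b (l 16587088) (b (l 16625176) (l 16652456)))) (b (b (l 6) (l 16539384)) (b (l 16586880) (b (l 16625016) (l 16652336)))))) (c (a (b (b (l 6) (l 16539888)) (b (l 16587360) (b (l 16625456) (l 16652744)))) (b (b (l 6) (l 16540152)) (b (l 16587632) (b (l 16625736) (l 16653032))))) (b (b (l 6) (l 16539776)) (b (l 16587288) (b (l 16625432) (l 16652768)))))) (a (b (b (l 6) (l 16538888)) (b (l 16586448) (b (l 16624632) (l 16652008)))) (b (b (l 6) (l 16539416)) (b (l 16586992) (b (l 16625192) (l 16652584)))))))), by decide +kernel⟩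

def k118_A00pp_022_s3 : ∃ t, chk3 f_A00pp_022_s3 t 324 6 30 = true :=
  ⟨(b (b (l 6) (l 16535784)) (b (l 16604352) (b (l 16621616) (l 16649064)))), by decide +kernel⟩

def k119_A00pp_022_s3 : ∃ t, chk3 f_A00pp_022_s3 t 324 6 31 = true :=
  ⟨(a (c (a (c (a (b (b (l 6) (l 16534248)) (b (l 16581912) (b (l 16620216) (l 16647744)))) (b (b (l 6) (l 16534512)) (b (l 16582184) (b (l 16620496) (l 16648032))))) (a (b (b (l 6) (l 16534000)) (b (l 16581704) (b (l 16620048) (l 16647616)))) (b (b (l 6) (l 16534256)) (b (l 16581984) (b (l 16620336) (l 16647904)))))) (c (b (b (l 6) (l 16534904)) (b (l 16582600) (b (l 16620920) (l 16648464)))) (a (b (b (l 6) (l 16534520)) (b (l 16582256) (b (l 16620616) (l 16648192)))) (b (b (l 6) (l 16534784)) (b (l 16582528) (b (l 16620896) (l 16648480))))))) (a (b (b (l 6) (l 16533752)) (b (l 16581536) (b (l 16619944) (l 16647568)))) (b (b (l 6) (l 16534280)) (b (l 16582080) (b (l 16620504) (l 16648144)))))) (c (a (c (b (b (l 6) (l 16535432)) (b (l 16583144) (b (l 16621488)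 (l 16649032)))) (a (b (b (l 6) (l 16535048)) (b (l 16582800) (b (l 16621176) (l 16648768)))) (b (b (l 6) (l 16535312)) (b (l 16583072) (b (l 16621464) (l 16649048)))))) (c (b (b (l 6) (l 16535952)) (b (l 16583688) (b (l 16622048) (l 16649608)))) (a (b (b (l 6) (l 16535576)) (b (l 16583344) (b (l 16621744) (l 16649336)))) (b (b (l 6) (l 16535840)) (b (l 16583624) (b (l 16622024) (l 16649624))))))) (a (c (b (b (l 6) (l 16534928)) (b (l 16582728) (b (l 16621152) (l 16648784)))) (b (b (l 6) (l 16534680)) (b (l 16582520) (b (l 16620984) (l 16648656))))) (c (a (b (b (l 6) (l 16535328)) (b (l 16583144) (b (l 16621576) (l 16649216)))) (b (b (l 6) (l 16535592)) (b (l 16583416) (b (l 16621856) (l 16649496))))) (b (b (l 6) (l 16535208)) (b (l 16583072) (b (l 16621552) (l 16649232)))))))), by decide +kernel⟩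

def k120_A00pp_022_s3 : ∃ t, chk3 f_A00pp_022_s3 t 325 6 15 = true :=
  ⟨(a (c (b (b (l 6) (l 16537360)) (b (l 16605992) (b (l 16623304) (l 16650784)))) (c (a (c (b (b (l 6) (l 16536480)) (b (l 16584232) (b (l 16622608) (l 16650184)))) (b (b (l 6) (l 16536232)) (b (l 16584032) (b (l 16622448) (l 16650056))))) (b (b (l 6) (l 16536880)) (b (l 16584680) (b (l 16623088) (l 16650688))))) (a (c (a (b (b (l 6) (l 16535848)) (b (l 16583688) (b (l 16622144) (l 16649784)))) (b (b (l 6) (l 16536112)) (b (l 16583960) (b (l 16622424) (l 16650072))))) (b (b (l 6) (l 16535736)) (b (l 16583616) (b (l 16622112) (l 16649800))))) (c (a (b (b (l 6) (l 16536376)) (b (l 16584232) (b (l 16622704) (l 16650360)))) (b (b (l 6) (l 16536640)) (b (l 16584504) (b (l 16622984) (l 16650648))))) (b (b (l 6) (l 16536256)) (b (l 16584168) (b (l 16622680) (l 16650376)))))))) (c (b (b (l 6) (l 16538416)) (b (l 16607080) (b (l 16624424) (l 16651928)))) (c (a (b (b (l 6) (l 16537408)) (b (l 16585224) (b (l 16623656) (l 16651264))))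 (b (b (l 6) (l 16537936)) (b (l 16585768) (b (l 16624216) (l 16651840))))) (a (a (c (b (b (l 6) (l 16536904)) (b (l 16584784) (b (l 16623264) (l 16650936)))) (b (b (l 6) (l 16536656)) (b (l 16584576) (b (l 16623104) (l 16650808))))) (c (b (b (l 6) (l 16537168)) (b (l 16585056) (b (l 16623552) (l 16651216)))) (b (b (l 6) (l 16536920)) (b (l 16584848) (b (l 16623384) (l 16651096)))))) (c (b (b (l 6) (l 16537560)) (b (l 16585464) (b (l 16623968) (l 16651648)))) (a (b (b (l 6) (l 16537184)) (b (l 16585120) (b (l 16623664) (l 16651384)))) (b (b (l 6) (l 16537440)) (b (l 16585392) (b (l 16623944) (l 16651664)))))))))), by decide +kernel⟩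

def k121_A00pp_022_s3 : ∃ t, chk3 f_A00pp_022_s3 t 326 6 14 = true :=
  ⟨(c (b (b (l 6) (l 16541936)) (b (l 16610312) (b (l 16627384) (l 16654616)))) (a (c (a (c (a (b (b (l 6) (l 16540416)) (b (l 16587904) (b (l 16626016) (l 16653312)))) (b (b (l 6) (l 16540680)) (b (l 16588176) (b (l 16626288) (l 16653600))))) (a (b (b (l 6) (l 16540176)) (b (l 16587704) (b (l 16625856) (l 16653192)))) (b (b (l 6) (l 16540432)) (b (l 16587976) (b (l 16626136) (l 16653480)))))) (c (b (b (l 6) (l 16541072)) (b (l 16588576) (b (l 16626712) (l 16654024)))) (a (b (b (l 6) (l 16540696)) (b (l 16588248) (b (l 16626416) (l 16653760)))) (b (b (l 6) (l 16540960)) (b (l 16588520) (b (l 16626696) (l 16654048))))))) (a (b (b (l 6) (l 16539936)) (b (l 16587536) (b (l 16625752) (l 16653152)))) (b (b (l 6) (l 16540464)) (b (l 16588080) (b (l 16626312) (l 16653720)))))) (c (a (c (b (b (l 6) (l 16541592)) (b (l 16589120) (b (l 16627272) (l 16654600)))) (a (b (b (l 6) (l 16541224)) (b (l 16588792) (b (l 16626968) (l 16654336))))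 (b (b (l 6) (l 16541488)) (b (l 16589056) (b (l 16627248) (l 16654616)))))) (c (b (b (l 6) (l 16542120)) (b (l 16589664) (b (l 16627832) (l 16655168)))) (b (b (l 6) (l 16541880)) (b (l 16589464) (b (l 16627672) (l 16655048)))))) (a (c (b (b (l 6) (l 16541112)) (b (l 16588720) (b (l 16626952) (l 16654352)))) (b (b (l 6) (l 16540864)) (b (l 16588520) (b (l 16626792) (l 16654232))))) (c (a (b (b (l 6) (l 16541504)) (b (l 16589128) (b (l 16627376) (l 16654784)))) (b (b (l 6) (l 16541768)) (b (l 16589400) (b (l 16627648) (l 16655064))))) (b (b (l 6) (l 16541392)) (b (l 16589064) (b (l 16627352) (l 16654800))))))))), by decide +kernel⟩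

def k122_A00pp_022_s3 : ∃ t, chk3 f_A00pp_022_s3 t 327 6 14 = true :=
  ⟨(c (a (b (b (l 6) (l 16543504)) (b (l 16611944) (b (l 16629064) (l 16656320)))) (b (b (l 6) (l 16544552)) (b (l 16613032) (b (l 16630176) (l 16657456))))) (c (a (a (b (b (l 6) (l 16542520)) (b (l 16590112) (b (l 16628312) (l 16655672)))) (b (b (l 6) (l 16543048)) (b (l 16590656) (b (l 16628864) (l 16656240))))) (b (b (l 6) (l 16543832)) (b (l 16612440) (b (l 16629704) (l 16657096))))) (a (a (c (a (b (b (l 6) (l 16542024)) (b (l 16589672) (b (l 16627928) (l 16655352)))) (b (b (l 6) (l 16542288)) (b (l 16589944) (b (l 16628208) (l 16655632))))) (b (b (l 6) (l 16541912)) (b (l 16589608) (b (l 16627912) (l 16655376))))) (c (a (b (b (l 6) (l 16542552)) (b (l 16590216) (b (l 16628488) (l 16655920)))) (b (b (l 6) (l 16542816)) (b (l 16590488) (b (l 16628768) (l 16656208))))) (a (b (b (l 6) (l 16542312)) (b (l 16590016) (b (l 16628328) (l 16655800)))) (b (b (l 6) (l 16542568)) (b (l 16590288) (b (l 16628608) (l 16656088)))))))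 (a (c (b (b (l 6) (l 16543208)) (b (l 16590896) (b (l 16629192) (l 16656632)))) (a (b (b (l 6) (l 16542832)) (b (l 16590560) (b (l 16628888) (l 16656368)))) (b (b (l 6) (l 16543096)) (b (l 16590832) (b (l 16629168) (l 16656656)))))) (c (b (b (l 6) (l 16543728)) (b (l 16591440) (b (l 16629744) (l 16657200)))) (a (b (b (l 6) (l 16543360)) (b (l 16591104) (b (l 16629448) (l 16656936)))) (b (b (l 6) (l 16543616)) (b (l 16591376) (b (l 16629728) (l 16657224)))))))))), by decide +kernel⟩

def k123_A00pp_022_s3 : ∃ t, chk3 f_A00pp_022_s3 t 163 6 15 = true :=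
  ⟨(a (c (a (b (b (l 6) (l 16539464)) (b (l 16608176) (b (l 16625544) (l 16653072)))) (c (b (b (l 6) (l 16540760)) (b (l 16588496) (b (l 16626832) (l 16654336)))) (b (b (l 6) (l 16540272)) (b (l 16588088) (b (l 16626504) (l 16654088)))))) (a (c (b (b (l 6) (l 16538720)) (b (l 16586592) (b (l 16625056) (l 16652696)))) (a (c (b (b (l 6) (l 16538088)) (b (l 16586008) (b (l 16624536) (l 16652224)))) (a (b (b (l 6) (l 16537704)) (b (l 16585664) (b (l 16624224) (l 16651952)))) (b (b (l 6) (l 16537968)) (b (l 16585944) (b (l 16624512) (l 16652240)))))) (c (b (b (l 6) (l 16538616)) (b (l 16586552) (b (l 16625096) (l 16652792)))) (b (b (l 6) (l 16538360)) (b (l 16586352) (b (l 16624928) (l 16652672))))))) (b (b (l 6) (l 16539528)) (b (l 16608448) (b (l 16626016) (l 16653720)))))) (c (a (c (a (b (b (l 6) (l 16541552)) (b (l 16589312) (b (l 16627672) (l 16655192)))) (b (b (l 6) (l 16542072)) (b (l 16589856) (b (l 16628232) (l 16655760))))) (b (b (l 6) (l 16541320)) (b (l 16610152) (b (l 16627632) (l 16655232)))))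 (c (a (c (b (b (l 6) (l 16542720)) (b (l 16590496) (b (l 16628872) (l 16656392)))) (b (b (l 6) (l 16542472)) (b (l 16590296) (b (l 16628712) (l 16656272))))) (c (b (b (l 6) (l 16543240)) (b (l 16591040) (b (l 16629432) (l 16656960)))) (b (b (l 6) (l 16543000)) (b (l 16590840) (b (l 16629272) (l 16656840)))))) (b (b (l 6) (l 16542368)) (b (l 16611240) (b (l 16628752) (l 16656368)))))) (a (b (b (l 6) (l 16540576)) (b (l 16609536) (b (l 16627144) (l 16654864)))) (b (b (l 6) (l 16541624)) (b (l 16610632) (b (l 16628264) (l 16656000))))))), by decide +kernel⟩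

def k124_A00pp_022_s3 : ∃ t, chk3 f_A00pp_022_s3 t 164 6 24 = true :=
  ⟨(a (c (a (b (b (l 6) (l 16549568)) (b (l 16596376) (b (l 16633856) (l 16660536)))) (b (b (l 6) (l 16550608)) (b (l 16618416) (b (l 16634952) (l 16661656))))) (a (a (c (b (b (l 6) (l 16548968)) (b (l 16595832) (b (l 16633360) (l 16660088)))) (b (b (l 6) (l 16548744)) (b (l 16595648) (b (l 16633208) (l 16659976))))) (c (b (b (l 6) (l 16549488)) (b (l 16596368) (b (l 16633912) (l 16660648)))) (b (b (l 6) (l 16549264)) (b (l 16596184) (b (l 16633760) (l 16660536)))))) (a (b (b (l 6) (l 16549896)) (b (l 16596808) (b (l 16634384) (l 16661152)))) (b (b (l 6) (l 16550416)) (b (l 16597344) (b (l 16634936) (l 16661712))))))) (c (b (b (l 6) (l 16552160)) (b (l 16599048) (b (l 16636600) (l 16663328)))) (a (a (b (b (l 6) (l 16550928)) (b (l 16597880) (b (l 16635488) (l 16662272)))) (b (b (l 6) (l 16551448)) (b (l 16598416) (b (l 16636032) (l 16662832))))) (b (b (l 6) (l 16552224)) (b (l 16620184) (b (l 16636856) (l 16663664))))))),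 by decide +kernel⟩

def k125_A00pp_022_s3 : ∃ t, chk3 f_A00pp_022_s3 t 164 6 25 = true :=
  ⟨(a (a (b (b (l 6) (l 16548424)) (b (l 16616416) (b (l 16633112) (l 16659976)))) (c (a (b (b (l 6) (l 16549432)) (b (l 16596440) (b (l 16634088) (l 16660928)))) (c (a (b (b (l 6) (l 16549944)) (b (l 16596936) (b (l 16634576) (l 16661408)))) (b (b (l 6) (l 16550200)) (b (l 16597200) (b (l 16634856) (l 16661688))))) (b (b (l 6) (l 16549840)) (b (l 16596880) (b (l 16634568) (l 16661432)))))) (b (b (l 6) (l 16549232)) (b (l 16617304) (b (l 16634072) (l 16660984)))))) (a (c (a (a (b (b (l 6) (l 16550344)) (b (l 16597376) (b (l 16635056) (l 16661912)))) (b (b (l 6) (l 16550600)) (b (l 16597640) (b (l 16635328) (l 16662192))))) (b (b (l 6) (l 16550992)) (b (l 16598048) (b (l 16635744) (l 16662608))))) (b (b (l 6) (l 16550272)) (b (l 16618376) (b (l 16635168) (l 16662104))))) (c (a (c (b (b (l 6) (l 16551624)) (b (l 16598672) (b (l 16636368) (l 16663224)))) (b (b (l 6) (l 16551400)) (b (l 16598488) (b (l 16636216)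 (l 16663112))))) (c (b (b (l 6) (l 16552144)) (b (l 16599208) (b (l 16636912) (l 16663784)))) (a (b (b (l 6) (l 16551784)) (b (l 16598888) (b (l 16636632) (l 16663528)))) (b (b (l 6) (l 16552048)) (b (l 16599152) (b (l 16636904) (l 16663808))))))) (b (b (l 6) (l 16551312)) (b (l 16619448) (b (l 16636272) (l 16663224))))))), by decide +kernel⟩

def k126_A00pp_022_s3 : ∃ t, chk3 f_A00pp_022_s3 t 165 6 24 = true :=
  ⟨(a (c (a (b (b (l 6) (l 16553712)) (b (l 16600648) (b (l 16638240) (l 16665000)))) (b (b (l 6) (l 16554744)) (b (l 16601712) (b (l 16639328) (l 16666112))))) (a (b (b (l 6) (l 16553264)) (b (l 16600280) (b (l 16637952) (l 16664784)))) (b (b (l 6) (l 16554296)) (b (l 16601352) (b (l 16639048) (l 16665896)))))) (c (a (b (b (l 6) (l 16555776)) (b (l 16602776) (b (l 16640424) (l 16667216)))) (b (b (l 6) (l 16556800)) (b (l 16603832) (b (l 16641512) (l 16668320))))) (b (b (l 6) (l 16555840)) (b (l 16602944) (b (l 16640680) (l 16667560)))))), by decide +kernel⟩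

def k127_A00pp_022_s3 : ∃ t, chk3 f_A00pp_022_s3 t 165 6 25 = true :=
  ⟨(a (a (c (a (c (b (b (l 6) (l 16552664)) (b (l 16599744) (b (l 16637464) (l 16664336)))) (b (b (l 6) (l 16552432)) (b (l 16599560) (b (l 16637320) (l 16664232))))) (c (b (b (l 6) (l 16553176)) (b (l 16600272) (b (l 16638008) (l 16664896)))) (b (b (l 6) (l 16552952)) (b (l 16600088) (b (l 16637864) (l 16664784)))))) (b (b (l 6) (l 16552344)) (b (l 16599544) (b (l 16637368) (l 16664344))))) (c (a (b (b (l 6) (l 16553584)) (b (l 16600712) (b (l 16638488) (l 16665400)))) (b (b (l 6) (l 16554096)) (b (l 16601248) (b (l 16639032) (l 16665952))))) (a (b (b (l 6) (l 16553120)) (b (l 16600344) (b (l 16638192) (l 16665184)))) (c (a (b (b (l 6) (l 16553624)) (b (l 16600840) (b (l 16638680) (l 16665656)))) (b (b (l 6) (l 16553888)) (b (l 16601104) (b (l 16638952) (l 16665928))))) (b (b (l 6) (l 16553528)) (b (l 16600784) (b (l 16638672) (l 16665680)))))))) (a (c (a (b (b (l 6) (l 16554616)) (b (l 16601784) (b (l 16639576) (l 16666512))))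 (b (b (l 6) (l 16555128)) (b (l 16602312) (b (l 16640128) (l 16667064))))) (a (a (b (b (l 6) (l 16554032)) (b (l 16601280) (b (l 16639152) (l 16666160)))) (b (b (l 6) (l 16554288)) (b (l 16601544) (b (l 16639424) (l 16666432))))) (b (b (l 6) (l 16554672)) (b (l 16601944) (b (l 16639840) (l 16666848)))))) (b (b (l 6) (l 16555672)) (b (l 16602928) (b (l 16640800) (l 16667792)))))), by decide +kernel⟩

def k128_A00pp_022_s3 : ∃ t, chk3 f_A00pp_022_s3 t 328 6 26 = true :=
  ⟨(a (c (b (b (l 6) (l 16547728)) (b (l 16594872) (b (l 16632664) (l 16659632)))) (b (b (l 6) (l 16547256)) (b (l 16594496) (b (l 16632360) (l 16659400))))) (c (b (b (l 6) (l 16548768)) (b (l 16616920) (b (l 16633768) (l 16660760)))) (b (b (l 6) (l 16548304)) (b (l 16616544) (b (l 16633472) (l 16660528)))))), by decide +kernel⟩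

def k129_A00pp_022_s3 : ∃ t, chk3 f_A00pp_022_s3 t 328 6 27 = true :=
  ⟨(a (c (a (c (b (b (l 6) (l 16546648)) (b (l 16593936) (b (l 16631856) (l 16658944)))) (a (b (b (l 6) (l 16546280)) (b (l 16593608) (b (l 16631568) (l 16658688)))) (b (b (l 6) (l 16546544)) (b (l 16593880) (b (l 16631848) (l 16658968)))))) (c (b (b (l 6) (l 16547168)) (b (l 16594480) (b (l 16632416) (l 16659512)))) (a (b (b (l 6) (l 16546800)) (b (l 16594152) (b (l 16632120) (l 16659256)))) (b (b (l 6) (l 16547064)) (b (l 16594424) (b (l 16632400) (l 16659536))))))) (a (b (b (l 6) (l 16546056)) (b (l 16593456) (b (l 16631472) (l 16658656)))) (c (b (b (l 6) (l 16546696)) (b (l 16594096) (b (l 16632104) (l 16659280)))) (b (b (l 6) (l 16546456)) (b (l 16593896) (b (l 16631952) (l 16659160))))))) (c (a (c (b (b (l 6) (l 16547688)) (b (l 16595016) (b (l 16632968) (l 16660072)))) (b (b (l 6) (l 16547456)) (b (l 16594824) (b (l 16632816) (l 16659960))))) (b (b (l 6) (l 16548096)) (b (l 16595456) (b (l 16633448) (l 16660584)))))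 (a (c (a (b (b (l 6) (l 16547088)) (b (l 16594496) (b (l 16632520) (l 16659704)))) (b (b (l 6) (l 16547352)) (b (l 16594768) (b (l 16632800) (l 16659984))))) (b (b (l 6) (l 16546984)) (b (l 16594440) (b (l 16632512) (l 16659728))))) (c (a (b (b (l 6) (l 16547608)) (b (l 16595040) (b (l 16633080) (l 16660264)))) (b (b (l 6) (l 16547872)) (b (l 16595304) (b (l 16633352) (l 16660552))))) (b (b (l 6) (l 16547504)) (b (l 16594976) (b (l 16633064) (l 16660296)))))))), by decide +kernel⟩

def k130_A00pp_022_s3 : ∃ t, chk3 f_A00pp_022_s3 t 329 6 13 = true :=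
  ⟨(c (a (b (b (l 6) (l 16549576)) (b (l 16617808) (b (l 16634728) (l 16661768)))) (b (b (l 6) (l 16550616)) (b (l 16597912) (b (l 16635832) (l 16662888))))) (a (c (a (b (b (l 6) (l 16548616)) (b (l 16596000) (b (l 16634000) (l 16661144)))) (b (b (l 6) (l 16549136)) (b (l 16596536) (b (l 16634552) (l 16661704))))) (a (c (a (b (b (l 6) (l 16548128)) (b (l 16595576) (b (l 16633632) (l 16660832)))) (b (b (l 6) (l 16548392)) (b (l 16595848) (b (l 16633912) (l 16661112))))) (b (b (l 6) (l 16548024)) (b (l 16595520) (b (l 16633616) (l 16660856))))) (c (b (b (l 6) (l 16548784)) (b (l 16596248) (b (l 16634320) (l 16661536)))) (a (b (b (l 6) (l 16548416)) (b (l 16595920) (b (l 16634032) (l 16661280)))) (b (b (l 6) (l 16548672)) (b (l 16596192) (b (l 16634312) (l 16661560)))))))) (c (b (b (l 6) (l 16549912)) (b (l 16618312) (b (l 16635376) (l 16662552)))) (a (c (b (b (l 6) (l 16549304)) (b (l 16596784) (b (l 16634880) (l 16662096)))) (a (b (b (l 6) (l 16548936)) (b (l 16596464) (b (l 16634584) (l 16661840))))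 (b (b (l 6) (l 16549200)) (b (l 16596728) (b (l 16634864) (l 16662128)))))) (c (b (b (l 6) (l 16549824)) (b (l 16597328) (b (l 16635432) (l 16662664)))) (a (b (b (l 6) (l 16549456)) (b (l 16597000) (b (l 16635144) (l 16662408)))) (b (b (l 6) (l 16549720)) (b (l 16597272) (b (l 16635416) (l 16662688)))))))))), by decide +kernel⟩

def k131_A00pp_022_s3 : ∃ t, chk3 f_A00pp_022_s3 t 165 6 13 = true :=
  ⟨(a (c (a (b (b (l 6) (l 16551656)) (b (l 16598984) (b (l 16636928) (l 16664008)))) (b (b (l 6) (l 16552688)) (b (l 16600056) (b (l 16638032) (l 16665128))))) (a (c (b (b (l 6) (l 16550952)) (b (l 16598416) (b (l 16636480) (l 16663672)))) (a (c (b (b (l 6) (l 16550344)) (b (l 16597864) (b (l 16635984) (l 16663224)))) (b (b (l 6) (l 16550104)) (b (l 16597672) (b (l 16635832) (l 16663112))))) (c (b (b (l 6) (l 16550864)) (b (l 16598400) (b (l 16636536) (l 16663784)))) (b (b (l 6) (l 16550624)) (b (l 16598208) (b (l 16636384) (l 16663672))))))) (c (b (b (l 6) (l 16551992)) (b (l 16599488) (b (l 16637584)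 (l 16664792)))) (a (b (b (l 6) (l 16551264)) (b (l 16619816) (b (l 16637016) (l 16664288)))) (b (b (l 6) (l 16551784)) (b (l 16620352) (b (l 16637560) (l 16664856)))))))) (c (b (b (l 6) (l 16554240)) (b (l 16622624) (b (l 16639672) (l 16666800)))) (a (c (b (b (l 6) (l 16553032)) (b (l 16600560) (b (l 16638688) (l 16665912)))) (b (b (l 6) (l 16552560)) (b (l 16600184) (b (l 16638392) (l 16665696))))) (b (b (l 6) (l 16553832)) (b (l 16601448) (b (l 16639640) (l 16666920))))))), by decide +kernel⟩

def k132_A00pp_022_s3 : ∃ t, chk3 f_A00pp_022_s3 t 83 6 6 = true :=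
  ⟨(c (a (a (b (b (l 6) (l 16557672)) (b (l 16625856) (b (l 16642720) (l 16669664)))) (b (b (l 6) (l 16559720)) (b (l 16627968) (b (l 16644888) (l 16671864))))) (b (b (l 6) (l 16562792)) (b (b (l 16597776) (l 16622384)) (b (l 16648128) (l 16685648))))) (b (b (l 6) (l 16600888)) (b (b (l 16594160) (l 16618912)) (b (l 16655344) (b (l 16665128) (l 16679144)))))), by decide +kernel⟩

def k133_A00pp_022_s3 : ∃ t, chk3 f_A00pp_022_s3 t 164 6 14 = true :=
  ⟨(a (c (a (c (b (b (l 6) (l 16545840)) (b (l 16614304) (b (l 16631440) (l 16658704)))) (b (b (l 6) (l 16545360)) (b (l 16613912) (b (l 16631136) (l 16658464))))) (c (b (b (l 6) (l 16546880)) (b (l 16615392) (b (l 16632552) (l 16659832)))) (b (b (l 6) (l 16546408)) (b (l 16615000) (b (l 16632248) (l 16659600)))))) (b (b (l 6) (l 16545160)) (b (l 16592896) (b (l 16631224) (l 16658680))))) (c (a (c (a (b (b (l 6) (l 16547664)) (b (l 16595224) (b (l 16633392) (l 16660680)))) (b (b (l 6) (l 16548192)) (b (l 16595768) (b (l 16633944) (l 16661248)))))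 (b (b (l 6) (l 16547448)) (b (l 16616080) (b (l 16633360) (l 16660736))))) (c (a (c (b (b (l 6) (l 16548832)) (b (l 16596400) (b (l 16634576) (l 16661872)))) (b (b (l 6) (l 16548592)) (b (l 16596208) (b (l 16634424) (l 16661752))))) (c (a (b (b (l 6) (l 16549224)) (b (l 16596808) (b (l 16634992) (l 16662296)))) (b (b (l 6) (l 16549480)) (b (l 16597080) (b (l 16635264) (l 16662576))))) (b (b (l 6) (l 16549112)) (b (l 16596752) (b (l 16634976) (l 16662320)))))) (b (b (l 6) (l 16548496)) (b (l 16617160) (b (l 16634472) (l 16661864)))))) (a (b (b (l 6) (l 16546728)) (b (l 16615488) (b (l 16632896) (l 16660384)))) (b (b (l 6) (l 16547776)) (b (l 16595600) (b (l 16634008) (l 16661512))))))), by decide +kernel⟩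

def k134_A00pp_022_s3 : ∃ t, chk3 f_A00pp_022_s3 t 328 6 15 = true :=
  ⟨(c (a (c (a (c (a (b (b (l 6) (l 16543640)) (b (l 16591448) (b (l 16629848) (l 16657384)))) (b (b (l 6) (l 16543896)) (b (l 16591720) (b (l 16630128) (l 16657672))))) (b (b (l 6) (l 16543520)) (b (l 16591384) (b (l 16629832) (l 16657408))))) (c (a (b (b (l 6) (l 16544160)) (b (l 16591992) (b (l 16630408) (l 16657952)))) (b (b (l 6) (l 16544424)) (b (l 16592264) (b (l 16630688) (l 16658240))))) (b (b (l 6) (l 16544048)) (b (l 16591928) (b (l 16630392) (l 16657976)))))) (a (b (b (l 6) (l 16543152)) (b (l 16591080) (b (l 16629592) (l 16657224)))) (b (b (l 6) (l 16543680)) (b (l 16591624) (b (l 16630152) (l 16657800)))))) (c (a (c (a (b (b (l 6) (l 16544688)) (b (l 16592536) (b (l 16630968) (l 16658528)))) (b (b (l 6) (l 16544944)) (b (l 16592808) (b (l 16631248) (l 16658808))))) (a (b (b (l 6) (l 16544440)) (b (l 16592336) (b (l 16630808) (l 16658408)))) (b (b (l 6) (l 16544704)) (b (l 16592608) (b (l 16631088) (l 16658688))))))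 (c (b (b (l 6) (l 16545336)) (b (l 16593216) (b (l 16631664) (l 16659232)))) (a (b (b (l 6) (l 16544968)) (b (l 16592880) (b (l 16631368) (l 16658976)))) (b (b (l 6) (l 16545224)) (b (l 16593152) (b (l 16631648) (l 16659256))))))) (a (b (b (l 6) (l 16544208)) (b (l 16592168) (b (l 16630712) (l 16658368)))) (c (b (b (l 6) (l 16544848)) (b (l 16592816) (b (l 16631352) (l 16658992)))) (b (b (l 6) (l 16544608)) (b (l 16592616) (b (l 16631192) (l 16658872)))))))) (a (b (b (l 6) (l 16542680)) (b (l 16611720) (b (l 16629392) (l 16657144)))) (b (b (l 6) (l 16543728)) (b (l 16612808) (b (l 16630512) (l 16658288)))))), by decide +kernel⟩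

def k135_A00pp_022_s3 : ∃ t, chk3 f_A00pp_022_s3 t 329 6 30 = true :=
  ⟨(a (c (a (c (b (b (l 6) (l 16545864)) (b (l 16593752) (b (l 16632224) (l 16659800)))) (a (b (b (l 6) (l 16545488)) (b (l 16593424) (b (l 16631928) (l 16659544)))) (b (b (l 6) (l 16545752)) (b (l 16593696) (b (l 16632208) (l 16659824)))))) (c (b (b (l 6) (l 16546384)) (b (l 16594296) (b (l 16632784) (l 16660368)))) (b (b (l 6) (l 16546144)) (b (l 16594096) (b (l 16632624) (l 16660248)))))) (a (c (b (b (l 6) (l 16545376)) (b (l 16593360) (b (l 16631904) (l 16659560)))) (b (b (l 6) (l 16545128)) (b (l 16593160) (b (l 16631752) (l 16659448))))) (c (a (b (b (l 6) (l 16545768)) (b (l 16593768) (b (l 16632328) (l 16659992)))) (b (b (l 6) (l 16546032)) (b (l 16594040) (b (l 16632608) (l 16660272))))) (b (b (l 6) (l 16545656)) (b (l 16593704) (b (l 16632304) (l 16660016))))))) (c (a (b (b (l 6) (l 16546784)) (b (l 16594744) (b (l 16633256) (l 16660880)))) (b (b (l 6) (l 16547312)) (b (l 16616256) (b (l 16633816) (l 16661448)))))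 (a (c (a (b (b (l 6) (l 16546288)) (b (l 16594304) (b (l 16632888) (l 16660560)))) (b (b (l 6) (l 16546552)) (b (l 16594576) (b (l 16633160) (l 16660840))))) (b (b (l 6) (l 16546176)) (b (l 16594240) (b (l 16632864) (l 16660584))))) (c (a (b (b (l 6) (l 16546816)) (b (l 16594848) (b (l 16633440) (l 16661128)))) (b (b (l 6) (l 16547080)) (b (l 16595120) (b (l 16633720) (l 16661408))))) (a (b (b (l 6) (l 16546568)) (b (l 16594648) (b (l 16633288) (l 16661008)))) (b (b (l 6) (l 16546832)) (b (l 16594920) (b (l 16633568) (l 16661296))))))))), by decide +kernel⟩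

def k136_A00pp_022_s3 : ∃ t, chk3 f_A00pp_022_s3 t 329 6 31 = true :=
  ⟨(a (c (b (b (l 6) (l 16545024)) (b (l 16614096) (b (l 16631792) (l 16659552)))) (b (b (l 6) (l 16544528)) (b (l 16613696) (b (l 16631472) (l 16659304))))) (c (a (b (b (l 6) (l 16545808)) (b (l 16614912) (b (l 16632632) (l 16660400)))) (b (b (l 6) (l 16546336)) (b (l 16615456) (b (l 16633184) (l 16660968))))) (b (b (l 6) (l 16545576)) (b (l 16614784) (b (l 16632592) (l 16660448)))))), by decide +kernel⟩

def k137_A00pp_022_s3 : ∃ t, chk3 f_A00pp_022_s3 t 165 6 14 = true :=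
  ⟨(a (c (a (c (a (c (a (b (b (l 6) (l 16549744)) (b (l 16597344) (b (l 16635544) (l 16662856)))) (b (b (l 6) (l 16550000)) (b (l 16597616) (b (l 16635816) (l 16663136))))) (b (b (l 6) (l 16549632)) (b (l 16597288) (b (l 16635528) (l 16662880))))) (c (a (b (b (l 6) (l 16550264)) (b (l 16597888) (b (l 16636096) (l 16663416)))) (b (b (l 6) (l 16550520)) (b (l 16598152) (b (l 16636376) (l 16663696))))) (b (b (l 6) (l 16550152)) (b (l 16597824) (b (l 16636080) (l 16663448)))))) (a (b (b (l 6) (l 16549280)) (b (l 16597000) (b (l 16635304) (l 16662712)))) (b (b (l 6) (l 16549800)) (b (l 16618512) (b (l 16635856) (l 16663272)))))) (c (a (c (a (b (b (l 6) (l 16550784)) (b (l 16598424) (b (l 16636648) (l 16663984)))) (b (b (l 6) (l 16551040)) (b (l 16598688) (b (l 16636928) (l 16664264))))) (b (b (l 6) (l 16550672)) (b (l 16598368) (b (l 16636632) (l 16664008))))) (c (b (b (l 6) (l 16551432)) (b (l 16599096) (b (l 16637336) (l 16664680)))) (b (b (l 6) (l 16551192)) (b (l 16598904) (b (l 16637192) (l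 16664568)))))) (a (b (b (l 6) (l 16550320)) (b (l 16619048) (b (l 16636408) (l 16663840)))) (b (b (l 6) (l 16550840)) (b (l 16619584) (b (l 16636960) (l 16664400))))))) (a (b (b (l 6) (l 16548816)) (b (l 16596680) (b (l 16635120) (l 16662648)))) (b (b (l 6) (l 16549864)) (b (l 16597760) (b (l 16636224) (l 16663776)))))) (c (b (b (l 6) (l 16552376)) (b (l 16621120) (b (l 16638496) (l 16665920)))) (b (b (l 6) (l 16551424)) (b (l 16620352) (b (l 16637888) (l 16665464)))))), by decide +kernel⟩

def k138_A00pp_022_s3 : ∃ t, chk3 f_A00pp_022_s3 t 165 6 15 = true :=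
  ⟨(a (c (a (c (b (b (l 6) (l 16548096)) (b (l 16596096) (b (l 16634656) (l 16662296)))) (a (c (b (b (l 6) (l 16547472)) (b (l 16595528) (b (l 16634136) (l 16661840)))) (a (b (b (l 6) (l 16547096)) (b (l 16595192) (b (l 16633840) (l 16661576)))) (b (b (l 6) (l 16547360)) (b (l 16595464) (b (l 16634120) (l 16661864)))))) (c (b (b (l 6) (l 16547992)) (b (l 16596072) (b (l 16634696) (l 16662400)))) (b (b (l 6) (l 16547752)) (b (l 16595872) (b (l 16634544) (l 16662288))))))) (b (b (l 6) (l 16548896)) (b (l 16596984) (b (l 16635608) (l 16663312))))) (a (c (a (b (b (l 6) (l 16546856)) (b (l 16616000) (b (l 16633744) (l 16661544)))) (b (b (l 6) (l 16547384)) (b (l 16616544) (b (l 16634304) (l 16662112))))) (b (b (l 6) (l 16546624)) (b (l 16594896) (b (l 16633712) (l 16661584))))) (b (b (l 6) (l 16547920)) (b (l 16596184) (b (l 16634984) (l 16662840)))))) (b (b (l 6) (l 16549976)) (b (l 16619176) (b (l 16636968) (l 16664776))))), by decide +kernel⟩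

def k139_A00pp_022_s3 : ∃ t, chk3 f_A00pp_022_s3 t 83 6 7 = true :=
  ⟨(b (b (l 6) (l 16587616)) (b (b (l 16591800) (l 16616816)) (b (b (l 16636368) (l 16649872)) (b (l 16674224) (a (l 16675720) (l 16680248)))))), by decide +kernel⟩

def k140_A00pp_022_s3 : ∃ t, chk3 f_A00pp_022_s3 t 21 6 24 = true :=
  ⟨(c (b (b (a (l 16529096) (l 16544600)) (b (a (l 16561984) (l 16577624)) (a (l 16584904) (l 16600728)))) (b (a (b (l 16608640) (a (l 16629176) (l 16637448))) (b (l 16645672) (a (l 16645648) (l 16653776)))) (a (b (a (l 16654928) (l 16673872)) (a (b (l 16675048) (l 16688936)) (b (l 16683664) (l 16697704)))) (a (b (l 16682272) (b (l 16692288) (l 16711720))) (b (b (l 16673416) (l 16686984)) (b (l 16700928) (b (l 16711640) (l 16718912)))))))) (b (b (a (l 16528592) (l 16544192)) (b (a (l 16561576) (l 16577312)) (a (l 16584544) (l 16600456)))) (b (a (b (l 16608320) (a (l 16628872) (l 16637192))) (b (l 16645440) (a (l 16645432) (l 16653600)))) (a (b (a (l 16654688) (l 16673672)) (a (b (l 16674856) (l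 16688784)) (b (l 16683504) (l 16697576)))) (a (b (l 16682104) (b (l 16692160) (l 16711624))) (b (b (l 16673272) (l 16686856)) (b (l 16700824) (b (l 16711552) (l 16718840))))))))), by decide +kernel⟩

def k141_A00pp_022_s3 : ∃ t, chk3 f_A00pp_022_s3 t 21 6 25 = true :=
  ⟨(c (b (b (a (l 16528088) (l 16543792)) (b (a (l 16561160) (l 16576992)) (a (l 16584184) (l 16600184)))) (b (a (b (l 16608000) (a (l 16628576) (l 16636928))) (b (l 16645200) (a (l 16645208) (l 16653416)))) (a (b (a (l 16654440) (l 16662976)) (a (b (l 16674664) (l 16688624)) (b (l 16683344) (l 16697448)))) (a (b (l 16681936) (b (l 16692032) (l 16711520))) (b (b (l 16673120) (l 16686736)) (b (l 16700728) (a (l 16712904) (l 16717336)))))))) (b (b (a (l 16527584) (l 16543384)) (b (a (l 16560744) (l 16576672)) (a (l 16583816) (l 16599912)))) (b (a (b (l 16607672) (a (l 16628272) (l 16636672))) (b (l 16644968) (a (l 16644992) (l 16653240)))) (a (b (a (l 16654200) (l 16662768)) (a (b (l 16674472) (l 16688472)) (b (l 16683184) (l 16697320))))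 (a (b (l 16681760) (b (l 16691904) (l 16711416))) (b (b (l 16672976) (l 16686608)) (b (l 16700624) (a (l 16712824) (l 16717264))))))))), by decide +kernel⟩

def k142_A00pp_022_s3 : ∃ t, chk3 f_A00pp_022_s3 t 21 6 26 = true :=
  ⟨(c (b (b (a (l 16527072) (l 16542968)) (b (a (l 16560328) (l 16576352)) (a (l 16583456) (l 16599632)))) (b (a (b (l 16607352) (a (l 16627968) (l 16636408))) (b (l 16644728) (a (l 16644768) (l 16653056)))) (a (b (a (l 16653952) (l 16662560)) (a (b (l 16674272) (l 16688312)) (b (l 16683024) (l 16697192)))) (a (b (l 16681584) (b (l 16691768) (l 16706072))) (b (b (l 16672824) (l 16686480)) (b (l 16700520) (a (l 16712736) (l 16717192)))))))) (b (a (b (l 16526552) (b (l 16559912) (l 16583080))) (b (l 16542560) (b (l 16576024) (l 16599360)))) (b (a (b (l 16607024) (a (l 16627664) (l 16636144))) (b (l 16644488) (a (l 16644544) (l 16652872)))) (a (b (a (l 16653704) (l 16662344)) (a (b (l 16674080) (l 16688152)) (b (l 16682864) (l 16697064)))) (a (b (l 16681416) (b (l 16691640)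 (l 16705968))) (b (b (l 16672672) (l 16686352)) (b (l 16700416) (a (l 16712656) (l 16717120))))))))), by decide +kernel⟩

def k143_A00pp_022_s3 : ∃ t, chk3 f_A00pp_022_s3 t 21 6 27 = true :=
  ⟨(c (c (b (a (b (l 16526168) (b (l 16559592) (l 16582808))) (b (l 16542248) (b (l 16575776) (l 16599152)))) (b (a (b (l 16606776) (a (l 16627432) (l 16635944))) (b (l 16644304) (a (l 16644376) (l 16652736)))) (a (b (a (l 16653520) (l 16662192)) (a (b (l 16673928) (l 16688032)) (b (l 16682736) (l 16696960)))) (a (b (l 16681280) (b (l 16691536) (l 16705888))) (b (b (l 16672552) (l 16686256)) (b (l 16700336) (l 16720072))))))) (b (a (b (l 16525904) (b (l 16559376) (l 16582616))) (b (l 16542040) (b (l 16575616) (l 16599008)))) (b (a (b (l 16606608) (a (l 16627280) (l 16635808))) (b (l 16644184) (a (l 16644264) (l 16652640)))) (a (b (a (l 16653392) (l 16662080)) (a (b (l 16673832) (l 16687952)) (b (l 16682656) (l 16696896)))) (a (b (l 16681192) (b (l 16691472) (l 16705840))) (b (b (l 16672480) (l 16686192))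 (b (l 16700288) (l 16720032)))))))) (b (a (b (l 16525512) (b (l 16559056) (l 16582336))) (b (l 16541728) (b (l 16575368) (l 16598800)))) (b (a (b (l 16606360) (a (l 16627048) (l 16635608))) (b (l 16644008) (a (l 16644088) (l 16652504)))) (a (b (a (l 16653200) (l 16661920)) (a (b (l 16673680) (l 16687832)) (b (l 16682528) (l 16696800)))) (a (b (l 16681056) (b (l 16691368) (l 16705760))) (b (b (l 16672360) (l 16686088)) (b (l 16700208) (l 16719968)))))))), by decide +kernel⟩

def k144_A00pp_022_s3 : ∃ t, chk3 f_A00pp_022_s3 t 21 6 14 = true :=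
  ⟨(c (c (b (a (b (l 16524992) (b (l 16558632) (l 16581960))) (b (l 16541304) (b (l 16575040) (l 16598520)))) (b (a (b (l 16606024) (a (l 16626736) (l 16635336))) (b (l 16643760) (a (l 16643864) (l 16652312)))) (a (b (a (l 16652952) (l 16661704)) (a (b (l 16673480) (l 16687664)) (b (l 16682360) (l 16696664)))) (a (b (l 16680880) (b (l 16691232) (l 16705656))) (b (b (l 16672208) (l 16685960)) (b (l 16700104) (l 16719888))))))) (b (b (a (l 16524464) (l 16540880)) (b (a (l 16558200) (l 16574704)) (a (l 16581576) (l 16598232)))) (b (a (b (l 16605688) (a (l 16626424) (l 16635064))) (b (l 16643512) (a (l 16643632) (l 16652128)))) (a (b (a (l 16652696) (l 16661488)) (a (b (l 16673280) (l 16687504)) (b (l 16682192) (l 16696528)))) (b (a (l 16680704) (b (l 16672048) (l 16685824))) (a (b (l 16691096) (l 16705544)) (b (l 16699992) (l 16719808)))))))) (c (b (b (a (l 16523936) (l 16540456)) (b (a (l 16557760) (l 16574376)) (a (l 16581200) (l 16597944)))) (b (a (b (l 16605352) (a (l 16626104) (l 16634792)))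 (b (l 16643264) (a (l 16643400) (l 16651936)))) (a (b (a (l 16652432) (l 16661264)) (a (b (l 16673072) (l 16687336)) (b (l 16682024) (l 16696392)))) (b (a (l 16680520) (b (l 16671888) (l 16685696))) (a (b (l 16690960) (l 16705440)) (b (l 16699888) (l 16719728))))))) (b (b (a (l 16523400) (l 16540032)) (b (a (l 16557328) (l 16574040)) (a (l 16580816) (l 16597656)))) (b (a (b (l 16605008) (a (l 16625784) (l 16634512))) (b (l 16643016) (a (l 16643168) (l 16651744)))) (a (b (a (l 16652176) (l 16661048)) (a (b (l 16672864) (l 16687168)) (b (l 16681856) (l 16696256)))) (b (a (l 16680336) (b (l 16671728) (l 16685560))) (a (b (l 16690824) (l 16705336)) (b (l 16699776) (l 16719648))))))))), by decide +kernel⟩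

def k145_A00pp_022_s3 : ∃ t, chk3 f_A00pp_022_s3 t 21 6 30 = true :=
  ⟨(c (b (b (a (l 16522864) (l 16539600)) (b (a (l 16556888) (l 16573696)) (a (l 16580424) (l 16597368)))) (b (a (b (l 16604664) (a (l 16625464) (l 16634232))) (b (l 16642768) (a (l 16642928) (l 16651552)))) (a (b (a (l 16651912) (l 16660824)) (a (b (l 16672664) (l 16687000)) (b (l 16681680) (l 16696120)))) (b (a (l 16680152) (b (l 16671568) (l 16685424))) (a (b (l 16690680) (l 16705224)) (b (l 16699664) (l 16719560))))))) (c (b (b (a (l 16522464) (l 16539280)) (b (a (l 16556560) (l 16573448)) (a (l 16580136) (l 16597152)))) (b (a (b (l 16604400) (a (l 16625216) (l 16634024))) (b (l 16642576) (a (l 16642752) (l 16651408)))) (a (b (a (l 16651720) (l 16660656)) (a (b (l 16672504) (l 16686880)) (b (l 16681552) (l 16696016)))) (a (b (l 16680016) (b (l 16690576) (l 16705144))) (b (l 16688872) (b (l 16699584) (l 16719504))))))) (b (b (a (l 16522192) (l 16539064)) (b (a (l 16556336) (l 16573272)) (a (l 16579944) (l 16597008)))) (b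 (a (b (l 16604232) (a (l 16625056) (l 16633880))) (b (l 16642448) (a (l 16642632) (l 16651312)))) (a (b (a (l 16651584) (l 16660544)) (a (b (l 16672400) (l 16686792)) (b (l 16681464) (l 16695952)))) (a (b (l 16679920) (b (l 16690504) (l 16705088))) (b (l 16688800) (b (l 16699528) (l 16719456))))))))), by decide +kernel⟩

def k146_A00pp_022_s3 : ∃ t, chk3 f_A00pp_022_s3 t 21 6 31 = true :=
  ⟨(c (b (b (a (l 16521784) (l 16580680)) (b (a (l 16556000) (l 16573016)) (a (l 16579648) (l 16596784)))) (b (a (b (l 16603968) (a (l 16624816) (l 16633672))) (b (l 16642256) (a (l 16642456) (l 16651160)))) (a (b (a (l 16651384) (l 16660376)) (a (b (l 16672240) (l 16686664)) (b (l 16681336) (l 16695848)))) (a (b (l 16679776) (b (l 16690400) (l 16705008))) (b (b (l 16671248) (l 16685144)) (b (l 16699448) (l 16719392))))))) (b (b (a (l 16521240) (l 16580248)) (b (a (l 16555552) (l 16572672)) (a (l 16579256) (l 16596488)))) (b (a (b (l 16603616) (a (l 16624480) (l 16633384))) (b (l 16642000) (a (l 16642208) (l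 16650968)))) (a (b (a (l 16651120) (l 16660144)) (a (b (l 16672032) (l 16686496)) (b (l 16681160) (l 16695704)))) (a (b (l 16679592) (b (l 16690256) (l 16704896))) (b (l 16688536) (b (l 16699336) (l 16719312)))))))), by decide +kernel⟩

def k147_A00pp_022_s3 : ∃ t, chk3 f_A00pp_022_s3 t 11 12 3 = true :=
  ⟨(c (a (b (a (b (l 16547512) (l 16569352)) (b (l 16562416) (l 16584424))) (b (a (l 16592072) (l 16607376)) (a (l 16636504) (a (l 16627312) (l 16635176))))) (b (a (b (l 16577440) (l 16599680)) (b (l 16593096) (l 16615608))) (a (b (l 16622920) (a (l 16643104) (l 16651216))) (b (l 16639200) (a (l 16659568) (l 16668224)))))) (c (a (b (a (l 16598608) (l 16614264)) (b (a (l 16590712) (l 16606616)) (a (l 16614424) (l 16651616)))) (b (a (l 16629984) (l 16646160)) (b (a (l 16622664) (l 16639232)) (a (l 16667984) (a (l 16659632) (l 16668312)))))) (a (b (a (l 16597352) (l 16613472)) (b (a (l 16589784) (l 16606112)) (a (l 16613672) (l 16630272)))) (b (a (l 16629600) (l 16646056)) (b (a (l 16622512) (l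 16639280)) (a (l 16667912) (a (l 16659688) (l 16668400)))))))), by decide +kernel⟩

def k148_A00pp_022_s3 : ∃ t, chk3 f_A00pp_022_s3 t 11 13 3 = true :=
  ⟨(a (b (a (a (b (l 16656224) (a (l 16679712) (l 16673448))) (b (l 16664448) (b (l 16662664) (l 16675904)))) (b (a (b (l 16645344) (l 16658048)) (b (l 16653520) (l 16666328))) (a (b (l 16671056) (l 16694896)) (b (l 16679456) (l 532994063))))) (a (a (b (b (l 16691384) (c (l 16705640) (l 16704832))) (b (a (l 16712040) (l 532345103)) (a (l 532291855) (l 532283407)))) (b (b (a (l 16687352) (l 16691664)) (a (l 16701312) (l 16716176))) (b (a (l 532336143) (l 532326671)) (a (l 532274703) (l 532265487))))) (b (a (b (c (l 16708872) (l 16708384)) (a (l 16715312) (l 16719704))) (b (l 533006607) (l 532882959))) (a (b (a (l 532316687) (l 532306191)) (a (l 532255759) (l 532245775))) (b (a (l 532294927) (l 532282895)) (a (l 532234767) (l 532222991))))))) (b (a (b (a (b (l 16661752) (l 16674672)) (b (l 16670136) (l 16683176))) (a (b (l 16698400) (l 532434959))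 (b (l 532740879) (l 532956943)))) (b (a (b (l 16678728) (l 16702376)) (b (l 16687552) (l 16711304))) (a (b (l 532736015) (l 532419599)) (l 532718607)))) (a (a (b (b (l 532648207) (a (l 532329231) (l 532320015))) (b (a (l 532270863) (l 532263951)) (a (b (l 532226063) (l 532195343)) (b (l 532222991) (l 532196111))))) (b (b (a (l 532369679) (l 532367631)) (a (l 532315919) (l 532317455))) (b (a (l 532264207) (l 532267023)) (l 532213007)))) (b (a (b (l 532371215) (l 532322319)) (b (l 532379919) (l 532331279))) (a (b (l 532272399) (l 532221455)) (l 532524559)))))), by decide +kernel⟩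

def k149_A00pp_022_s3 : ∃ t, chk3 f_A00pp_022_s3 t 20 28 1 = true :=
  ⟨(a (b (a (a (b (c (l 16666264) (l 16663384)) (c (l 16690776) (l 16688520))) (b (c (l 16670864) (l 16668040)) (c (b (l 16681344) (l 16688520)) (l 16693208)))) (c (b (a (l 16685920) (l 16690448)) (a (b (l 16685944) (l 16693136)) (b (l 16690496) (l 16697712)))) (b (a (l 16672672) (l 16687760)) (a (b (l 16683648) (l 16691136)) (b (l 16688288) (l 16695800)))))) (a (b (a (b (c (l 16691192) (l 16689352)) (c (l 16698672) (l 16697080))) (b (c (l 16695856) (l 16694072)) (c (l 16703352) (l 16701816)))) (a (b (c (l 16711544) (l 16710192)) (a (l 532134415) (l 532134671))) (b (c (l 16716240) (l 16714944)) (a (l 532134415) (l 532133647))))) (a (b (b (c (l 16700488) (l 16698768)) (c (l 16713240) (l 16711776))) (b (a (l 532167439) (l 532166159)) (a (l 532132367) (l 532130575)))) (b (b (c (l 16715568) (l 16703440)) (c (l 532515599) (l 16716464))) (b (a (l 532164111) (l 532161295)) (a (l 532127759) (l 532124431))))))) (b (a (b (a (c (l 16694936)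 (l 16692352)) (b (c (l 16685416) (l 16682784)) (c (l 16692392) (l 16690080)))) (a (b (c (l 16695016) (l 16692904)) (c (l 16702248) (l 16700432))) (b (c (l 16699496) (l 16697488)) (c (l 16711992) (l 16715520))))) (b (a (b (c (l 16689816) (l 16687304)) (c (l 16696816) (l 16694624))) (b (l 532632591) (l 532594959))) (a (b (l 532562959) (l 532524047)) (b (l 532555791) (l 532516623))))) (a (b (a (b (a (l 16712976) (l 532229903)) (a (l 532195343) (l 532192015))) (b (a (l 532226575) (l 532223247)) (l 532722959))) (a (b (l 532692239) (l 532386831)) (b (l 532416783) (l 532111119)))) (b (a (b (l 532485391) (l 532447247)) (b (l 532477967) (l 532439311))) (a (b (l 532409359) (l 532103183)) (b (l 532132623) (l 532094735))))))), by decide +kernel⟩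

def k150_A00pp_022_s3 : ∃ t, chk3 f_A00pp_022_s3 t 20 29 1 = true :=
  ⟨(a (b (a (a (b (b (a (l 532101135) (l 532100879)) (a (l 532068111) (l 532067599))) (b (a (l 532035343) (l 532034575)) (a (l 532003087) (l 532001551)))) (b (b (a (l 532100367) (l 532099343)) (a (l 532066575) (l 532065039))) (b (a (l 532033039) (l 532030223)) (a (l 531998735) (l 531995407))))) (b (a (b (a (l 532097295) (l 532094735)) (a (l 532062223) (l 532058895))) (b (l 532357135) (l 532321295))) (a (b (l 532292623) (l 531989263)) (b (l 532016911) (l 531981583))))) (a (a (b (b (a (l 531970831) (l 531968015)) (a (l 531937551) (l 531934223))) (b (l 531901967) (b (l 531877647) (l 4)))) (b (b (l 531961871) (l 531927823)) (b (l 531894031) (l 4)))) (a (b (b (l 531954447) (l 531919887)) (b (l 531885839) (l 4))) (b (b (l 531946255) (l 531911439)) (l 4))))) (b (a (b (a (b (l 532081679) (l 532045327)) (b (l 532073999) (l 532037135))) (a (b (l 532009231) (l 531973135)) (b (l 532000783) (l 531964431)))) (b (a (b (l 532065807) (l 532028687))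 (b (l 532056847) (l 532019471))) (a (b (l 531991823) (l 531954959)) (b (l 531982095) (l 531945231))))) (b (a (a (b (l 531937551) (l 531902223)) (b (l 531928335) (l 4))) (a (b (l 531918607) (l 4)) (l 4))) (l 4)))), by decide +kernel⟩

def k151_A00pp_022_s3 : ∃ t, chk3 f_A00pp_022_s3 t 21 14 1 = true :=
  ⟨(b (a (b (b (a (a (b (l 532356879) (l 532319247)) (b (l 532349199) (l 532311311))) (a (b (l 532340751) (l 532302863)) (b (l 532331791) (l 532293647)))) (a (a (b (l 532279823) (l 532240399)) (b (l 532271631) (l 532231951))) (a (b (l 532262927) (l 532222991)) (b (l 532253711) (l 532213519))))) (a (b (a (b (l 532201231) (l 532162575)) (b (l 532192527) (l 532153615))) (a (b (l 532123919) (l 532085519)) (b (l 532114703) (l 532076047)))) (b (a (b (l 532183567) (l 532144143)) (b (l 532173839) (l 532134159))) (a (b (l 532104975) (l 532066063)) (b (l 532094991) (l 532055823)))))) (b (a (b (a (b (l 532322319) (l 532284175)) (b (l 532312591) (l 532274447))) (a (b (l 532243983) (l 532203791)) (b (l 532233999)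 (l 532193551)))) (b (a (b (l 532302095) (l 532263951)) (b (l 532291343) (l 532253199))) (a (b (l 532223247) (l 532182799)) (c (l 532492047) (l 532158479))))) (a (b (a (b (l 532163855) (l 532123919)) (b (l 532153103) (l 532113167))) (b (a (l 532084239) (l 532341775)) (a (l 532044815) (l 532033551)))) (c (b (a (b (l 532173071) (l 532130063)) (b (l 532158735) (l 532115471))) (a (b (l 532087311) (l 532044815)) (b (c (l 532083727) (l 532061199)) (l 4)))) (b (a (b (l 532110863) (l 532073743)) (b (l 532102671) (l 532065551))) (a (l 532017935) (b (l 532028431) (l 4)))))))) (b (a (a (b (a (b (l 532047631) (l 532009743)) (b (l 532037903) (l 531999759))) (b (a (l 531972111) (l 531961871)) (l 4))) (b (a (b (l 532027407) (l 531989007)) (c (l 532293135) (l 531969551))) (l 4))) (a (b (b (a (l 532005647) (l 531994127)) (l 4)) (l 4)) (l 4))) (l 4))), by decide +kernel⟩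

def k152_A00pp_022_s3 : ∃ t, chk3 f_A00pp_022_s3 t 10 15 1 = true :=
  ⟨(l 4), by decide +kernel⟩

def k153_A00pp_022_s3 : ∃ t, chk3 f_A00pp_022_s3 t 11 7 1 = true :=
  ⟨(b (a (b (a (c (b (a (b (a (b (l 532315663) (l 532275215)) (b (l 532300559) (l 532260111))) (a (b (l 532231439) (l 532187407)) (b (l 532216335) (l 532172303)))) (b (b (a (l 532284943) (l 532268815)) (a (l 532245007) (l 532229135))) (a (l 532178447) (l 532162575)))) (a (b (a (b (l 532143887) (l 532100367)) (b (l 532128527) (l 532084751))) (a (b (c (l 532066831) (l 532047375)) (l 4)) (l 4))) (b (a (l 532090383) (l 532073999)) (l 4)))) (b (a (b (a (l 532224783) (l 532216847)) (a (l 532150543) (l 532142095))) (b (a (l 532208399) (l 532199695)) (a (l 532133647) (l 532124943)))) (a (b (a (b (l 532094479) (l 532057103)) (l 532066831)) (a (b (l 532019727) (l 4)) (l 4))) (b (a (l 532057871) (l 532048911)) (l 4))))) (b (c (a (b (b (l 532510991) (a (l 532213007) (l 532196367))) (a (l 532146447) (l 532129807))) (a (b (b (l 532216335) (l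 532177935)) (l 532112911)) (b (b (l 532196367) (a (l 532168719) (a (l 532160015) (l 532419599)))) (b (a (l 532123151) (l 532114447)) (l 4))))) (b (a (b (l 532202511) (l 532167695)) (a (b (l 532188175) (l 532153871)) (b (l 532176911) (c (l 532143119) (l 532136463))))) (a (l 532378639) (a (l 532097295) (c (l 532356879) (l 532085263)))))) (b (a (a (b (l 532069135) (l 4)) (l 4)) (l 4)) (l 4)))) (l 4)) (b (b (b (a (a (a (b (c (a (l 532179727) (l 532448015)) (l 532435215)) (c (c (l 532423439) (l 532148751)) (l 532407823))) (c (b (l 532182543) (l 532156687)) (l 532692751))) (b (l 532450831) (l 4))) (l 4)) (l 4)) (l 4)) (l 4))) (l 4)), by decide +kernel⟩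

def k154_A00pp_022_s3 : ∃ t, chk3 f_A00pp_022_s3 t 12 1 2 = true :=
  ⟨(b (b (l 6) (a (a (b (l 6) (b (l 16541304) (l 16578880))) (b (l 6) (b (l 16557992) (l 16596232)))) (b (b (l 6) (l 16634712)) (a (b (l 16575864) (l 16614552)) (b (l 16594400) (l 16716664)))))) (b (b (a (b (b (a (l 16610296) (l 16627944)) (a (l 16674752) (l 16692776))) (b (a (a (l 16652136) (l 16661088)) (a (l 16670184) (l 16679200))) (a (a (l 16698016) (l 532646159)) (a (l 532665103) (l 532686351))))) (b (a (b (l 16646240) (l 16710848)) (b (l 16664248) (l 532922127))) (b (a (a (l 16688168) (l 16718032)) (l 532850447)) (a (a (l 532709903) (l 532735759)) (l 533581839))))) (a (b (c (a (b (a (l 532553231) (l 532571407)) (a (l 532474383) (l 532493583))) (b (a (l 532592399) (l 532616207)) (a (l 532515343) (l 532539407)))) (a (b (a (l 532550159) (l 532565519)) (a (l 532467727) (l 532483599))) (b (a (l 532582927) (l 532602639)) (a (l 532501775) (l 532522255))))) (a (b (b (a (l 532408335) (l 532426511)) (a (l 532364559) (l 532383759)))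 (a (b (l 532320015) (l 4)) (l 4))) (b (a (b (l 532447247) (l 532405007)) (b (l 532470287) (l 4))) (l 4)))) (b (b (a (a (l 532633103) (l 532659471)) (a (l 532955151) (a (l 532709647) (l 532725263)))) (a (a (l 532555023) (l 532581647)) (a (l 532609807) (b (l 532658447) (l 4))))) (b (a (a (l 532474127) (l 4)) (l 4)) (l 4))))) (l 4))), by decide +kernel⟩

def k155_A00pp_022_s3 : ∃ t, chk3 f_A00pp_022_s3 t 12 1 3 = true :=
  ⟨(b (b (l 6) (a (a (b (l 6) (b (l 16539048) (l 16577712))) (b (l 6) (b (l 16555984) (l 16595016)))) (b (b (l 6) (l 16547624)) (b (a (l 16573592) (l 16591568)) (a (l 16612856) (l 16630608)))))) (b (b (a (b (a (a (l 16658776) (l 16667472)) (b (l 16627184) (l 16692216))) (b (a (a (l 16652152) (l 16660984)) (a (l 16669896) (l 16678736))) (a (a (l 16698080) (l 16707008)) (a (l 16710640) (l 532666895))))) (b (a (b (l 16644992) (l 16709896)) (b (l 16662600) (l 532866831))) (b (a (a (l 16687544) (l 16717272)) (l 532795663)) (a (a (l 532681231) (l 532696847)) (l 533257231))))) (a (b (a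 (a (b (l 532550159) (l 532460047)) (b (l 532560911) (l 532471055))) (b (a (l 532572943) (l 532586255)) (a (l 532483855) (l 532497679)))) (a (b (a (l 532902415) (l 532377359)) (a (l 532267535) (l 4))) (b (a (b (l 532414735) (l 532367631)) (l 532405263)) (l 4)))) (b (b (a (a (l 532600847) (l 532615951)) (a (l 532634127) (l 533722895))) (a (a (l 532513039) (l 532529423)) (a (l 532546831) (b (l 532589327) (l 4))))) (b (a (a (l 532421135) (l 4)) (l 4)) (l 4))))) (l 4))), by decide +kernel⟩

def k156_A00pp_022_s3 : ∃ t, chk3 f_A00pp_022_s3 t 13 1 1 = true :=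
  ⟨(c (b (b (l 6) (a (b (b (l 16558024) (l 16587688)) (b (b (l 16612528) (l 16714352)) (a (l 16734576) (l 16709984)))) (b (b (l 16592928) (l 16559512)) (b (a (l 16647416) (l 16663936)) (a (l 533281295) (l 533342479)))))) (b (b (a (b (b (a (l 16681872) (l 533113103)) (a (l 533251343) (l 533039119))) (a (a (b (l 532897551) (l 532821775)) (b (l 532924431) (l 532847375))) (b (l 532963343) (l 532885519)))) (b (b (a (l 533171983) (l 533234191)) (a (l 533096975) (l 533158415))) (a (b (l 533020175) (l 532941327)) (l 533576207)))) (a (b (b (a (a (l 533280015) (l 532767759)) (b (l 532826127) (l 4))) (l 4)) (l 4)) (l 4))) (l 4))) (b (b (l 6) (b (a (b (l 16553576) (l 16583752)) (b (l 16589464) (l 16535656))) (a (b (a (l 16609400) (l 16627200)) (a (l 16732120) (l 16707784))) (b (a (l 16644928) (l 16662272)) (a (l 533219855) (l 533296655)))))) (b (b (b (a (b (a (l 16680040) (l 533042191)) (a (l 533446671) (l 532973327))) (a (b (l 533115407) (l 533045775)) (b (l 533192719) (l 533122063)))) (a (a (a (b (l 532826383)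 (l 532752911)) (b (l 532855823) (l 532783375))) (b (l 532903951) (l 532831759))) (a (b (l 532974863) (l 532901647)) (l 533280271)))) (a (b (b (a (a (l 533214223) (l 532708623)) (b (l 532776207) (l 4))) (l 4)) (l 4)) (l 4))) (l 4)))), by decide +kernel⟩

def k157_A00pp_022_s3 : ∃ t, chk3 f_A00pp_022_s3 t 7 1 1 = true :=
  ⟨(c (b (b (b (a (l 6) (a (l 16602552) (l 16624856))) (a (a (l 16504264) (l 16616648)) (a (l 16642176) (l 16707528)))) (a (b (a (l 16682152) (b (l 16570760) (l 16684120))) (a (b (l 16719200) (a (l 533404431) (l 533466639))) (b (l 532839439) (a (l 533492239) (l 533510927))))) (b (b (a (l 16680984) (l 16748224)) (a (l 533818639) (l 533840143))) (a (l 533605391) (b (l 533703951) (l 533558799)))))) (b (a (b (a (b (a (b (l 533298447) (l 533222671)) (b (l 533356559) (l 533279503))) (a (b (l 533142031) (l 4)) (l 4))) (b (b (l 533386511) (l 4)) (l 4))) (l 4)) (l 4)) (l 4))) (b (b (b (a (l 6) (a (l 16602304) (l 16624792))) (a (a (l 16502544) (l 16616400)) (a (l 16642640) (l 16708200))))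 (a (b (a (l 16680888) (b (l 16570608) (l 16684024))) (a (b (l 16729016) (a (l 533374735) (l 533186063))) (a (b (l 533630479) (l 533487375)) (l 533315343)))) (b (b (a (l 16681320) (l 16748824)) (a (l 533827855) (l 533863695))) (a (l 533614351) (b (l 533725967) (l 533579279)))))) (b (a (b (a (b (a (l 532700943) (b (l 533346831) (l 533539855))) (b (a (l 533126671) (l 4)) (l 4))) (b (b (l 533384719) (l 4)) (l 4))) (l 4)) (l 4)) (l 4)))), by decide +kernel⟩

theorem t158_A00pp_022_s3 : ∃ t, chk3 f_A00pp_022_s3 t 12 1 1 = true := ex3_c k154_A00pp_022_s3 k155_A00pp_022_s3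

theorem t159_A00pp_022_s3 : ∃ t, chk3 f_A00pp_022_s3 t 6 1 1 = true := ex3_a t158_A00pp_022_s3 k156_A00pp_022_s3

theorem t160_A00pp_022_s3 : ∃ t, chk3 f_A00pp_022_s3 t 3 1 1 = true := ex3_a t159_A00pp_022_s3 k157_A00pp_022_s3

theorem t161_A00pp_022_s3 : ∃ t, chk3 f_A00pp_022_s3 t 20 14 1 = true := ex3_b k149_A00pp_022_s3 k150_A00pp_022_s3

theorem t162_A00pp_022_s3 : ∃ t, chk3 f_A00pp_022_s3 t 10 14 1 = true := ex3_a t161_A00pp_022_s3 k151_A00pp_022_s3

theorem t163_A00pp_022_s3 : ∃ t, chk3 f_A00pp_022_s3 t 10 7 1 = true := ex3_b t162_A00pp_022_s3 k152_A00pp_022_s3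

theorem t164_A00pp_022_s3 : ∃ t, chk3 f_A00pp_022_s3 t 5 7 1 = true := ex3_a t163_A00pp_022_s3 k153_A00pp_022_s3

theorem t165_A00pp_022_s3 : ∃ t, chk3 f_A00pp_022_s3 t 11 6 3 = true := ex3_b k147_A00pp_022_s3 k148_A00pp_022_s3

theorem t166_A00pp_022_s3 : ∃ t, chk3 f_A00pp_022_s3 t 21 6 15 = true := ex3_c k145_A00pp_022_s3 k146_A00pp_022_s3

theorem t167_A00pp_022_s3 : ∃ t, chk3 f_A00pp_022_s3 t 21 6 7 = true := ex3_c k144_A00pp_022_s3 t166_A00pp_022_s3

theorem t168_A00pp_022_s3 : ∃ t, chk3 f_A00pp_022_s3 t 21 6 13 = true := ex3_c k142_A00pp_022_s3 k143_A00pp_022_s3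

theorem t169_A00pp_022_s3 : ∃ t, chk3 f_A00pp_022_s3 t 21 6 12 = true := ex3_c k140_A00pp_022_s3 k141_A00pp_022_s3

theorem t170_A00pp_022_s3 : ∃ t, chk3 f_A00pp_022_s3 t 21 6 6 = true := ex3_c t169_A00pp_022_s3 t168_A00pp_022_s3

theorem t171_A00pp_022_s3 : ∃ t, chk3 f_A00pp_022_s3 t 21 6 3 = true := ex3_c t170_A00pp_022_s3 t167_A00pp_022_s3

theorem t172_A00pp_022_s3 : ∃ t, chk3 f_A00pp_022_s3 t 165 6 7 = true := ex3_c k137_A00pp_022_s3 k138_A00pp_022_s3

theorem t173_A00pp_022_s3 : ∃ t, chk3 f_A00pp_022_s3 t 329 6 15 = true := ex3_c k135_A00pp_022_s3 k136_A00pp_022_s3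

theorem t174_A00pp_022_s3 : ∃ t, chk3 f_A00pp_022_s3 t 164 6 15 = true := ex3_a k134_A00pp_022_s3 t173_A00pp_022_s3

theorem t175_A00pp_022_s3 : ∃ t, chk3 f_A00pp_022_s3 t 164 6 7 = true := ex3_c k133_A00pp_022_s3 t174_A00pp_022_s3

theorem t176_A00pp_022_s3 : ∃ t, chk3 f_A00pp_022_s3 t 82 6 7 = true := ex3_a t175_A00pp_022_s3 t172_A00pp_022_s3

theorem t177_A00pp_022_s3 : ∃ t, chk3 f_A00pp_022_s3 t 41 6 7 = true := ex3_a t176_A00pp_022_s3 k139_A00pp_022_s3

theorem t178_A00pp_022_s3 : ∃ t, chk3 f_A00pp_022_s3 t 328 6 13 = true := ex3_c k128_A00pp_022_s3 k129_A00pp_022_s3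

theorem t179_A00pp_022_s3 : ∃ t, chk3 f_A00pp_022_s3 t 164 6 13 = true := ex3_a t178_A00pp_022_s3 k130_A00pp_022_s3

theorem t180_A00pp_022_s3 : ∃ t, chk3 f_A00pp_022_s3 t 82 6 13 = true := ex3_a t179_A00pp_022_s3 k131_A00pp_022_s3

theorem t181_A00pp_022_s3 : ∃ t, chk3 f_A00pp_022_s3 t 165 6 12 = true := ex3_c k126_A00pp_022_s3 k127_A00pp_022_s3

theorem t182_A00pp_022_s3 : ∃ t, chk3 f_A00pp_022_s3 t 164 6 12 = true := ex3_c k124_A00pp_022_s3 k125_A00pp_022_s3

theorem t183_A00pp_022_s3 : ∃ t, chk3 f_A00pp_022_s3 t 82 6 12 = true := ex3_a t182_A00pp_022_s3 t181_A00pp_022_s3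

theorem t184_A00pp_022_s3 : ∃ t, chk3 f_A00pp_022_s3 t 82 6 6 = true := ex3_c t183_A00pp_022_s3 t180_A00pp_022_s3

theorem t185_A00pp_022_s3 : ∃ t, chk3 f_A00pp_022_s3 t 41 6 6 = true := ex3_a t184_A00pp_022_s3 k132_A00pp_022_s3

theorem t186_A00pp_022_s3 : ∃ t, chk3 f_A00pp_022_s3 t 41 6 3 = true := ex3_c t185_A00pp_022_s3 t177_A00pp_022_s3

theorem t187_A00pp_022_s3 : ∃ t, chk3 f_A00pp_022_s3 t 163 6 14 = true := ex3_a k121_A00pp_022_s3 k122_A00pp_022_s3

theorem t188_A00pp_022_s3 : ∃ t, chk3 f_A00pp_022_s3 t 163 6 7 = true := ex3_c t187_A00pp_022_s3 k123_A00pp_022_s3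

theorem t189_A00pp_022_s3 : ∃ t, chk3 f_A00pp_022_s3 t 324 6 15 = true := ex3_c k118_A00pp_022_s3 k119_A00pp_022_s3

theorem t190_A00pp_022_s3 : ∃ t, chk3 f_A00pp_022_s3 t 162 6 15 = true := ex3_a t189_A00pp_022_s3 k120_A00pp_022_s3

theorem t191_A00pp_022_s3 : ∃ t, chk3 f_A00pp_022_s3 t 324 6 14 = true := ex3_c k115_A00pp_022_s3 k116_A00pp_022_s3

theorem t192_A00pp_022_s3 : ∃ t, chk3 f_A00pp_022_s3 t 162 6 14 = true := ex3_a t191_A00pp_022_s3 k117_A00pp_022_s3

theorem t193_A00pp_022_s3 : ∃ t, chk3 f_A00pp_022_s3 t 162 6 7 = true := ex3_c t192_A00pp_022_s3 t190_A00pp_022_s3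

theorem t194_A00pp_022_s3 : ∃ t, chk3 f_A00pp_022_s3 t 81 6 7 = true := ex3_a t193_A00pp_022_s3 t188_A00pp_022_s3

theorem t195_A00pp_022_s3 : ∃ t, chk3 f_A00pp_022_s3 t 40 6 7 = true := ex3_a k114_A00pp_022_s3 t194_A00pp_022_s3

theorem t196_A00pp_022_s3 : ∃ t, chk3 f_A00pp_022_s3 t 327 6 13 = true := ex3_c k112_A00pp_022_s3 k113_A00pp_022_s3

theorem t197_A00pp_022_s3 : ∃ t, chk3 f_A00pp_022_s3 t 326 6 13 = true := ex3_c k110_A00pp_022_s3 k111_A00pp_022_s3

theorem t198_A00pp_022_s3 : ∃ t, chk3 f_A00pp_022_s3 t 163 6 13 = true := ex3_a t197_A00pp_022_s3 t196_A00pp_022_s3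

theorem t199_A00pp_022_s3 : ∃ t, chk3 f_A00pp_022_s3 t 325 6 13 = true := ex3_c k108_A00pp_022_s3 k109_A00pp_022_s3

theorem t200_A00pp_022_s3 : ∃ t, chk3 f_A00pp_022_s3 t 162 6 13 = true := ex3_a k107_A00pp_022_s3 t199_A00pp_022_s3

theorem t201_A00pp_022_s3 : ∃ t, chk3 f_A00pp_022_s3 t 81 6 13 = true := ex3_a t200_A00pp_022_s3 t198_A00pp_022_s3

theorem t202_A00pp_022_s3 : ∃ t, chk3 f_A00pp_022_s3 t 163 6 24 = true := ex3_a k104_A00pp_022_s3 k105_A00pp_022_s3

theorem t203_A00pp_022_s3 : ∃ t, chk3 f_A00pp_022_s3 t 163 6 12 = true := ex3_c t202_A00pp_022_s3 k106_A00pp_022_s3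

theorem t204_A00pp_022_s3 : ∃ t, chk3 f_A00pp_022_s3 t 162 6 25 = true := ex3_a k102_A00pp_022_s3 k103_A00pp_022_s3

theorem t205_A00pp_022_s3 : ∃ t, chk3 f_A00pp_022_s3 t 162 6 12 = true := ex3_c k101_A00pp_022_s3 t204_A00pp_022_s3

theorem t206_A00pp_022_s3 : ∃ t, chk3 f_A00pp_022_s3 t 81 6 12 = true := ex3_a t205_A00pp_022_s3 t203_A00pp_022_s3

theorem t207_A00pp_022_s3 : ∃ t, chk3 f_A00pp_022_s3 t 81 6 6 = true := ex3_c t206_A00pp_022_s3 t201_A00pp_022_s3

theorem t208_A00pp_022_s3 : ∃ t, chk3 f_A00pp_022_s3 t 40 6 6 = true := ex3_a k100_A00pp_022_s3 t207_A00pp_022_s3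

theorem t209_A00pp_022_s3 : ∃ t, chk3 f_A00pp_022_s3 t 40 6 3 = true := ex3_c t208_A00pp_022_s3 t195_A00pp_022_s3

theorem t210_A00pp_022_s3 : ∃ t, chk3 f_A00pp_022_s3 t 20 6 3 = true := ex3_a t209_A00pp_022_s3 t186_A00pp_022_s3

theorem t211_A00pp_022_s3 : ∃ t, chk3 f_A00pp_022_s3 t 10 6 3 = true := ex3_a t210_A00pp_022_s3 t171_A00pp_022_s3

theorem t212_A00pp_022_s3 : ∃ t, chk3 f_A00pp_022_s3 t 5 6 3 = true := ex3_a t211_A00pp_022_s3 t165_A00pp_022_s3

theorem t213_A00pp_022_s3 : ∃ t, chk3 f_A00pp_022_s3 t 5 13 2 = true := ex3_a k98_A00pp_022_s3 k99_A00pp_022_s3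

theorem t214_A00pp_022_s3 : ∃ t, chk3 f_A00pp_022_s3 t 5 6 2 = true := ex3_b k97_A00pp_022_s3 t213_A00pp_022_s3

theorem t215_A00pp_022_s3 : ∃ t, chk3 f_A00pp_022_s3 t 5 6 1 = true := ex3_c t214_A00pp_022_s3 t212_A00pp_022_s3

theorem t216_A00pp_022_s3 : ∃ t, chk3 f_A00pp_022_s3 t 5 3 1 = true := ex3_b t215_A00pp_022_s3 t164_A00pp_022_s3

theorem t217_A00pp_022_s3 : ∃ t, chk3 f_A00pp_022_s3 t 37 30 1 = true := ex3_b k93_A00pp_022_s3 k94_A00pp_022_s3

theorem t218_A00pp_022_s3 : ∃ t, chk3 f_A00pp_022_s3 t 36 60 1 = true := ex3_a k90_A00pp_022_s3 k91_A00pp_022_s3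

theorem t219_A00pp_022_s3 : ∃ t, chk3 f_A00pp_022_s3 t 36 30 1 = true := ex3_b t218_A00pp_022_s3 k92_A00pp_022_s3

theorem t220_A00pp_022_s3 : ∃ t, chk3 f_A00pp_022_s3 t 18 30 1 = true := ex3_a t219_A00pp_022_s3 t217_A00pp_022_s3

theorem t221_A00pp_022_s3 : ∃ t, chk3 f_A00pp_022_s3 t 18 15 1 = true := ex3_b t220_A00pp_022_s3 k95_A00pp_022_s3

theorem t222_A00pp_022_s3 : ∃ t, chk3 f_A00pp_022_s3 t 9 15 1 = true := ex3_a t221_A00pp_022_s3 k96_A00pp_022_s3

theorem t223_A00pp_022_s3 : ∃ t, chk3 f_A00pp_022_s3 t 19 29 1 = true := ex3_a k88_A00pp_022_s3 k89_A00pp_022_s3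

theorem t224_A00pp_022_s3 : ∃ t, chk3 f_A00pp_022_s3 t 18 29 1 = true := ex3_a k86_A00pp_022_s3 k87_A00pp_022_s3

theorem t225_A00pp_022_s3 : ∃ t, chk3 f_A00pp_022_s3 t 9 29 1 = true := ex3_a t224_A00pp_022_s3 t223_A00pp_022_s3

theorem t226_A00pp_022_s3 : ∃ t, chk3 f_A00pp_022_s3 t 9 115 63 = true := ex3_c k84_A00pp_022_s3 k85_A00pp_022_s3

theorem t227_A00pp_022_s3 : ∃ t, chk3 f_A00pp_022_s3 t 9 115 31 = true := ex3_c k83_A00pp_022_s3 t226_A00pp_022_s3

theorem t228_A00pp_022_s3 : ∃ t, chk3 f_A00pp_022_s3 t 9 115 30 = true := ex3_c k81_A00pp_022_s3 k82_A00pp_022_s3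

theorem t229_A00pp_022_s3 : ∃ t, chk3 f_A00pp_022_s3 t 9 115 15 = true := ex3_c t228_A00pp_022_s3 t227_A00pp_022_s3

theorem t230_A00pp_022_s3 : ∃ t, chk3 f_A00pp_022_s3 t 9 115 14 = true := ex3_c k79_A00pp_022_s3 k80_A00pp_022_s3

theorem t231_A00pp_022_s3 : ∃ t, chk3 f_A00pp_022_s3 t 9 115 7 = true := ex3_c t230_A00pp_022_s3 t229_A00pp_022_s3

theorem t232_A00pp_022_s3 : ∃ t, chk3 f_A00pp_022_s3 t 18 916 63 = true := ex3_c k74_A00pp_022_s3 k75_A00pp_022_s3

theorem t233_A00pp_022_s3 : ∃ t, chk3 f_A00pp_022_s3 t 18 458 63 = true := ex3_b t232_A00pp_022_s3 k76_A00pp_022_s3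

theorem t234_A00pp_022_s3 : ∃ t, chk3 f_A00pp_022_s3 t 18 916 62 = true := ex3_c k71_A00pp_022_s3 k72_A00pp_022_s3

theorem t235_A00pp_022_s3 : ∃ t, chk3 f_A00pp_022_s3 t 18 458 62 = true := ex3_b t234_A00pp_022_s3 k73_A00pp_022_s3

theorem t236_A00pp_022_s3 : ∃ t, chk3 f_A00pp_022_s3 t 18 458 31 = true := ex3_c t235_A00pp_022_s3 t233_A00pp_022_s3

theorem t237_A00pp_022_s3 : ∃ t, chk3 f_A00pp_022_s3 t 9 458 31 = true := ex3_a t236_A00pp_022_s3 k77_A00pp_022_s3

theorem t238_A00pp_022_s3 : ∃ t, chk3 f_A00pp_022_s3 t 9 229 31 = true := ex3_b t237_A00pp_022_s3 k78_A00pp_022_s3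

theorem t239_A00pp_022_s3 : ∃ t, chk3 f_A00pp_022_s3 t 18 916 61 = true := ex3_c k66_A00pp_022_s3 k67_A00pp_022_s3

theorem t240_A00pp_022_s3 : ∃ t, chk3 f_A00pp_022_s3 t 18 458 61 = true := ex3_b t239_A00pp_022_s3 k68_A00pp_022_s3

theorem t241_A00pp_022_s3 : ∃ t, chk3 f_A00pp_022_s3 t 18 458 60 = true := ex3_b k64_A00pp_022_s3 k65_A00pp_022_s3

theorem t242_A00pp_022_s3 : ∃ t, chk3 f_A00pp_022_s3 t 18 458 30 = true := ex3_c t241_A00pp_022_s3 t240_A00pp_022_s3

theorem t243_A00pp_022_s3 : ∃ t, chk3 f_A00pp_022_s3 t 9 458 30 = true := ex3_a t242_A00pp_022_s3 k69_A00pp_022_s3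

theorem t244_A00pp_022_s3 : ∃ t, chk3 f_A00pp_022_s3 t 9 229 30 = true := ex3_b t243_A00pp_022_s3 k70_A00pp_022_s3

theorem t245_A00pp_022_s3 : ∃ t, chk3 f_A00pp_022_s3 t 9 229 15 = true := ex3_c t244_A00pp_022_s3 t238_A00pp_022_s3

theorem t246_A00pp_022_s3 : ∃ t, chk3 f_A00pp_022_s3 t 18 458 59 = true := ex3_b k60_A00pp_022_s3 k61_A00pp_022_s3

theorem t247_A00pp_022_s3 : ∃ t, chk3 f_A00pp_022_s3 t 18 458 29 = true := ex3_c k59_A00pp_022_s3 t246_A00pp_022_s3

theorem t248_A00pp_022_s3 : ∃ t, chk3 f_A00pp_022_s3 t 9 458 29 = true := ex3_a t247_A00pp_022_s3 k62_A00pp_022_s3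

theorem t249_A00pp_022_s3 : ∃ t, chk3 f_A00pp_022_s3 t 9 229 29 = true := ex3_b t248_A00pp_022_s3 k63_A00pp_022_s3

theorem t250_A00pp_022_s3 : ∃ t, chk3 f_A00pp_022_s3 t 9 458 28 = true := ex3_a k56_A00pp_022_s3 k57_A00pp_022_s3

theorem t251_A00pp_022_s3 : ∃ t, chk3 f_A00pp_022_s3 t 9 229 28 = true := ex3_b t250_A00pp_022_s3 k58_A00pp_022_s3

theorem t252_A00pp_022_s3 : ∃ t, chk3 f_A00pp_022_s3 t 9 229 14 = true := ex3_c t251_A00pp_022_s3 t249_A00pp_022_s3

theorem t253_A00pp_022_s3 : ∃ t, chk3 f_A00pp_022_s3 t 9 229 7 = true := ex3_c t252_A00pp_022_s3 t245_A00pp_022_s3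

theorem t254_A00pp_022_s3 : ∃ t, chk3 f_A00pp_022_s3 t 18 915 63 = true := ex3_c k53_A00pp_022_s3 k54_A00pp_022_s3

theorem t255_A00pp_022_s3 : ∃ t, chk3 f_A00pp_022_s3 t 18 457 63 = true := ex3_b k52_A00pp_022_s3 t254_A00pp_022_s3

theorem t256_A00pp_022_s3 : ∃ t, chk3 f_A00pp_022_s3 t 18 915 62 = true := ex3_c k50_A00pp_022_s3 k51_A00pp_022_s3

theorem t257_A00pp_022_s3 : ∃ t, chk3 f_A00pp_022_s3 t 18 457 62 = true := ex3_b k49_A00pp_022_s3 t256_A00pp_022_s3

theorem t258_A00pp_022_s3 : ∃ t, chk3 f_A00pp_022_s3 t 18 457 31 = true := ex3_c t257_A00pp_022_s3 t255_A00pp_022_s3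

theorem t259_A00pp_022_s3 : ∃ t, chk3 f_A00pp_022_s3 t 18 228 31 = true := ex3_b k48_A00pp_022_s3 t258_A00pp_022_s3

theorem t260_A00pp_022_s3 : ∃ t, chk3 f_A00pp_022_s3 t 9 228 31 = true := ex3_a t259_A00pp_022_s3 k55_A00pp_022_s3

theorem t261_A00pp_022_s3 : ∃ t, chk3 f_A00pp_022_s3 t 18 915 61 = true := ex3_c k45_A00pp_022_s3 k46_A00pp_022_s3

theorem t262_A00pp_022_s3 : ∃ t, chk3 f_A00pp_022_s3 t 18 457 61 = true := ex3_b k44_A00pp_022_s3 t261_A00pp_022_s3

theorem t263_A00pp_022_s3 : ∃ t, chk3 f_A00pp_022_s3 t 18 457 30 = true := ex3_c k43_A00pp_022_s3 t262_A00pp_022_s3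

theorem t264_A00pp_022_s3 : ∃ t, chk3 f_A00pp_022_s3 t 18 228 30 = true := ex3_b k42_A00pp_022_s3 t263_A00pp_022_s3

theorem t265_A00pp_022_s3 : ∃ t, chk3 f_A00pp_022_s3 t 9 228 30 = true := ex3_a t264_A00pp_022_s3 k47_A00pp_022_s3

theorem t266_A00pp_022_s3 : ∃ t, chk3 f_A00pp_022_s3 t 9 228 15 = true := ex3_c t265_A00pp_022_s3 t260_A00pp_022_s3

theorem t267_A00pp_022_s3 : ∃ t, chk3 f_A00pp_022_s3 t 9 228 14 = true := ex3_c k40_A00pp_022_s3 k41_A00pp_022_s3

theorem t268_A00pp_022_s3 : ∃ t, chk3 f_A00pp_022_s3 t 9 228 7 = true := ex3_c t267_A00pp_022_s3 t266_A00pp_022_s3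

theorem t269_A00pp_022_s3 : ∃ t, chk3 f_A00pp_022_s3 t 9 114 7 = true := ex3_b t268_A00pp_022_s3 t253_A00pp_022_s3

theorem t270_A00pp_022_s3 : ∃ t, chk3 f_A00pp_022_s3 t 9 57 7 = true := ex3_b t269_A00pp_022_s3 t231_A00pp_022_s3

theorem t271_A00pp_022_s3 : ∃ t, chk3 f_A00pp_022_s3 t 9 115 27 = true := ex3_c k38_A00pp_022_s3 k39_A00pp_022_s3

theorem t272_A00pp_022_s3 : ∃ t, chk3 f_A00pp_022_s3 t 9 115 53 = true := ex3_c k36_A00pp_022_s3 k37_A00pp_022_s3

theorem t273_A00pp_022_s3 : ∃ t, chk3 f_A00pp_022_s3 t 9 115 26 = true := ex3_c k35_A00pp_022_s3 t272_A00pp_022_s3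

theorem t274_A00pp_022_s3 : ∃ t, chk3 f_A00pp_022_s3 t 9 115 13 = true := ex3_c t273_A00pp_022_s3 t271_A00pp_022_s3

theorem t275_A00pp_022_s3 : ∃ t, chk3 f_A00pp_022_s3 t 9 115 25 = true := ex3_c k33_A00pp_022_s3 k34_A00pp_022_s3

theorem t276_A00pp_022_s3 : ∃ t, chk3 f_A00pp_022_s3 t 9 115 12 = true := ex3_c k32_A00pp_022_s3 t275_A00pp_022_s3

theorem t277_A00pp_022_s3 : ∃ t, chk3 f_A00pp_022_s3 t 9 115 6 = true := ex3_c t276_A00pp_022_s3 t274_A00pp_022_s3

theorem t278_A00pp_022_s3 : ∃ t, chk3 f_A00pp_022_s3 t 9 229 6 = true := ex3_c k30_A00pp_022_s3 k31_A00pp_022_s3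

theorem t279_A00pp_022_s3 : ∃ t, chk3 f_A00pp_022_s3 t 9 228 6 = true := ex3_c k28_A00pp_022_s3 k29_A00pp_022_s3

theorem t280_A00pp_022_s3 : ∃ t, chk3 f_A00pp_022_s3 t 9 114 6 = true := ex3_b t279_A00pp_022_s3 t278_A00pp_022_s3

theorem t281_A00pp_022_s3 : ∃ t, chk3 f_A00pp_022_s3 t 9 57 6 = true := ex3_b t280_A00pp_022_s3 t277_A00pp_022_s3

theorem t282_A00pp_022_s3 : ∃ t, chk3 f_A00pp_022_s3 t 9 57 3 = true := ex3_c t281_A00pp_022_s3 t270_A00pp_022_s3

theorem t283_A00pp_022_s3 : ∃ t, chk3 f_A00pp_022_s3 t 9 115 23 = true := ex3_c k26_A00pp_022_s3 k27_A00pp_022_s3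

theorem t284_A00pp_022_s3 : ∃ t, chk3 f_A00pp_022_s3 t 9 115 22 = true := ex3_c k24_A00pp_022_s3 k25_A00pp_022_s3

theorem t285_A00pp_022_s3 : ∃ t, chk3 f_A00pp_022_s3 t 9 115 11 = true := ex3_c t284_A00pp_022_s3 t283_A00pp_022_s3

theorem t286_A00pp_022_s3 : ∃ t, chk3 f_A00pp_022_s3 t 9 115 21 = true := ex3_c k22_A00pp_022_s3 k23_A00pp_022_s3

theorem t287_A00pp_022_s3 : ∃ t, chk3 f_A00pp_022_s3 t 9 115 10 = true := ex3_c k21_A00pp_022_s3 t286_A00pp_022_s3

theorem t288_A00pp_022_s3 : ∃ t, chk3 f_A00pp_022_s3 t 9 115 5 = true := ex3_c t287_A00pp_022_s3 t285_A00pp_022_s3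

theorem t289_A00pp_022_s3 : ∃ t, chk3 f_A00pp_022_s3 t 9 114 5 = true := ex3_c k19_A00pp_022_s3 k20_A00pp_022_s3

theorem t290_A00pp_022_s3 : ∃ t, chk3 f_A00pp_022_s3 t 9 57 5 = true := ex3_b t289_A00pp_022_s3 t288_A00pp_022_s3

theorem t291_A00pp_022_s3 : ∃ t, chk3 f_A00pp_022_s3 t 9 115 8 = true := ex3_c k16_A00pp_022_s3 k17_A00pp_022_s3

theorem t292_A00pp_022_s3 : ∃ t, chk3 f_A00pp_022_s3 t 9 115 4 = true := ex3_c t291_A00pp_022_s3 k18_A00pp_022_s3

theorem t293_A00pp_022_s3 : ∃ t, chk3 f_A00pp_022_s3 t 9 114 4 = true := ex3_c k14_A00pp_022_s3 k15_A00pp_022_s3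

theorem t294_A00pp_022_s3 : ∃ t, chk3 f_A00pp_022_s3 t 9 57 4 = true := ex3_b t293_A00pp_022_s3 t292_A00pp_022_s3

theorem t295_A00pp_022_s3 : ∃ t, chk3 f_A00pp_022_s3 t 9 57 2 = true := ex3_c t294_A00pp_022_s3 t290_A00pp_022_s3

theorem t296_A00pp_022_s3 : ∃ t, chk3 f_A00pp_022_s3 t 9 57 1 = true := ex3_c t295_A00pp_022_s3 t282_A00pp_022_s3

theorem t297_A00pp_022_s3 : ∃ t, chk3 f_A00pp_022_s3 t 9 112 6 = true := ex3_b k10_A00pp_022_s3 k11_A00pp_022_s3

theorem t298_A00pp_022_s3 : ∃ t, chk3 f_A00pp_022_s3 t 9 56 6 = true := ex3_b t297_A00pp_022_s3 k12_A00pp_022_s3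

theorem t299_A00pp_022_s3 : ∃ t, chk3 f_A00pp_022_s3 t 9 56 3 = true := ex3_c t298_A00pp_022_s3 k13_A00pp_022_s3

theorem t300_A00pp_022_s3 : ∃ t, chk3 f_A00pp_022_s3 t 9 113 5 = true := ex3_c k8_A00pp_022_s3 k9_A00pp_022_s3

theorem t301_A00pp_022_s3 : ∃ t, chk3 f_A00pp_022_s3 t 9 56 5 = true := ex3_b k7_A00pp_022_s3 t300_A00pp_022_s3

theorem t302_A00pp_022_s3 : ∃ t, chk3 f_A00pp_022_s3 t 9 113 8 = true := ex3_b k4_A00pp_022_s3 k5_A00pp_022_s3

theorem t303_A00pp_022_s3 : ∃ t, chk3 f_A00pp_022_s3 t 9 113 4 = true := ex3_c t302_A00pp_022_s3 k6_A00pp_022_s3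

theorem t304_A00pp_022_s3 : ∃ t, chk3 f_A00pp_022_s3 t 9 56 4 = true := ex3_b k3_A00pp_022_s3 t303_A00pp_022_s3

theorem t305_A00pp_022_s3 : ∃ t, chk3 f_A00pp_022_s3 t 9 56 2 = true := ex3_c t304_A00pp_022_s3 t301_A00pp_022_s3

theorem t306_A00pp_022_s3 : ∃ t, chk3 f_A00pp_022_s3 t 9 56 1 = true := ex3_c t305_A00pp_022_s3 t299_A00pp_022_s3

theorem t307_A00pp_022_s3 : ∃ t, chk3 f_A00pp_022_s3 t 9 28 1 = true := ex3_b t306_A00pp_022_s3 t296_A00pp_022_s3

theorem t308_A00pp_022_s3 : ∃ t, chk3 f_A00pp_022_s3 t 9 14 1 = true := ex3_b t307_A00pp_022_s3 t225_A00pp_022_s3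

theorem t309_A00pp_022_s3 : ∃ t, chk3 f_A00pp_022_s3 t 9 7 1 = true := ex3_b t308_A00pp_022_s3 t222_A00pp_022_s3

theorem t310_A00pp_022_s3 : ∃ t, chk3 f_A00pp_022_s3 t 4 7 1 = true := ex3_a k2_A00pp_022_s3 t309_A00pp_022_s3

theorem t311_A00pp_022_s3 : ∃ t, chk3 f_A00pp_022_s3 t 4 3 1 = true := ex3_b k1_A00pp_022_s3 t310_A00pp_022_s3

theorem t312_A00pp_022_s3 : ∃ t, chk3 f_A00pp_022_s3 t 2 3 1 = true := ex3_a t311_A00pp_022_s3 t216_A00pp_022_s3

theorem t313_A00pp_022_s3 : ∃ t, chk3 f_A00pp_022_s3 t 2 1 1 = true := ex3_b k0_A00pp_022_s3 t312_A00pp_022_s3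

theorem t314_A00pp_022_s3 : ∃ t, chk3 f_A00pp_022_s3 t 1 1 1 = true := ex3_a t313_A00pp_022_s3 t160_A00pp_022_s3

theorem c_A00pp_022_s3 : CertF 0 536870912 0 536870912 818728140 40265320 true true true .pp 0 2 2
    ndB0q0 ndB0q2 pcB2 cut_A00pp_022_s3 xt_A00pp_022_s3 :=
  certF2 (fam := true) (s1 := true) (s2 := true) (a := 0) (b := 2) (c := 2) (cn := .pp) (n1 := ndB0q0) (n2 := ndB0q2) (pc := pcB2) (cut := cut_A00pp_022_s3) (xt := xt_A00pp_022_s3) (P1 := 0) (W1 := 536870912) (P2 := 0) (W2 := 536870912) (P3 := 818728140) (W3 := 40265320)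
    rfl (fun _ => rfl) t314_A00pp_022_s3

theorem s_A00pp_022_s3 {κ x : ℝ} (hκ : κ * h0 = ken x) (hx : ((818728140 : ℕ) : ℝ) / S ≤ x)
    (hx' : x ≤ (((818728140 : ℕ) : ℝ) + (40265320 : ℕ)) / S)
    (H : CutA (VFD κ) PP tK tL pcB (Cut.of [[⟨0, 0, 0, 67108864⟩, ⟨1, 1, 0, 67108864⟩, ⟨2, 1, 0, 67108864⟩]]) 0 2 2 0 0 (sgb true) (sgb true) x) :
    AltA (VFD κ) PP tK tL pcB [⟨4, 0, 0, 2845415833⟩] 0 2 2 0 0 (sgb true) (sgb true) x :=
  strip_altAD (m := 2845415833) false rfl hκ (SH.κ0 hκ (SH.hx1 hx).le (SH.hx2 hx').le) (SH.hx1 hx).le (SH.hx2 hx') (covB00).cov (covB02).cov hx hx' c_A00pp_022_s3 H ((okx hx hx').extA (T := tt) (sideB hx hx') hκ rfl rfl (.O 0 true) (.O 2 true) (Or.inl rfl))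

end Pool.Agent.Strip051.G.I7625_8000.Tab.St.C
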