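import Pool.Agent.Strip051.G.I7625_8000.StH
import Pool.Agent.Strip051.G.I7625_8000.StF

/-! # Unit strips 10 (generated) -/

set_option linter.all false
set_option maxRecDepth 100000

namespace Pool.Agent.Strip051.G.I7625_8000.Tab.St.C

open Pool.Agent.Strip051.PB Pool.Agent.Strip051.PB.T Pool.Agent.StripNear Pool.Agent.Strip051.LC
open Pool.Agent.Strip051.G.I7625_8000.Tab Pool.Agent.Strip051.G.I7625_8000.Tab.St

noncomputable def cut_A00mm_001_s1 : Cut := Cut.of [[⟨4, 0, 0, 1449551462⟩]]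

noncomputable def f_A00mm_001_s1 : ℕ → ℕ → ℕ → ℕ → Bool := onCell 0 536870912 0 536870912 818728140 40265320
    (rowF 0 true false false .up 0 0 1 (qsf 0 536870912 0 536870912 1) ndB0q0 ndB0q0 pcB1 cut_A00mm_001_s1 Ext.none)

def k0_A00mm_001_s1 : ∃ t, chk3 f_A00mm_001_s1 t 1 1 1 = true :=
  ⟨(l 4), by decide +kernel⟩

theorem c_A00mm_001_s1 : CertF 0 536870912 0 536870912 818728140 40265320 true false false .up 0 0 1
    ndB0q0 ndB0q0 pcB1 cut_A00mm_001_s1 Ext.none :=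
  certF0 (fam := true) (s1 := false) (s2 := false) (a := 0) (b := 0) (c := 1) (cn := .up) (n1 := ndB0q0) (n2 := ndB0q0) (pc := pcB1) (cut := cut_A00mm_001_s1) (xt := Ext.none) (P1 := 0) (W1 := 536870912) (P2 := 0) (W2 := 536870912) (P3 := 818728140) (W3 := 40265320)
    rfl k0_A00mm_001_s1

theorem s_A00mm_001_s1 {κ x : ℝ} (hκ : κ * h0 = ken x) (hx : ((818728140 : ℕ) : ℝ) / S ≤ x)
    (hx' : x ≤ (((818728140 : ℕ) : ℝ) + (40265320 : ℕ)) / S) :
    AltA (VFD κ) PP tK tL pcB [⟨3, 0, 0, 1449551462⟩] 0 0 1 0 0 (sgb false) (sgb false) x :=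
  strip_altAD (m := 1449551462) true rfl hκ (SH.κ0 hκ (SH.hx1 hx).le (SH.hx2 hx').le) (SH.hx1 hx).le (SH.hx2 hx') (covB00).cov (covB00).cov hx hx' c_A00mm_001_s1 cutA_nil (noExt_A)

noncomputable def cut_A00mm_001_s3 : Cut := Cut.of [[⟨3, 0, 0, 2845415833⟩]]

noncomputable def f_A00mm_001_s3 : ℕ → ℕ → ℕ → ℕ → Bool := onCell 0 536870912 0 536870912 818728140 40265320
    (rowF 0 true false false .up 0 0 1 (qsf 0 536870912 0 536870912 1) ndB0q0 ndB0q0 pcB1 cut_A00mm_001_s3 Ext.none)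

def k0_A00mm_001_s3 : ∃ t, chk3 f_A00mm_001_s3 t 1 1 1 = true :=
  ⟨(l 4), by decide +kernel⟩

theorem c_A00mm_001_s3 : CertF 0 536870912 0 536870912 818728140 40265320 true false false .up 0 0 1
    ndB0q0 ndB0q0 pcB1 cut_A00mm_001_s3 Ext.none :=
  certF0 (fam := true) (s1 := false) (s2 := false) (a := 0) (b := 0) (c := 1) (cn := .up) (n1 := ndB0q0) (n2 := ndB0q0) (pc := pcB1) (cut := cut_A00mm_001_s3) (xt := Ext.none) (P1 := 0) (W1 := 536870912) (P2 := 0) (W2 := 536870912) (P3 := 818728140) (W3 := 40265320)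
    rfl k0_A00mm_001_s3

theorem s_A00mm_001_s3 {κ x : ℝ} (hκ : κ * h0 = ken x) (hx : ((818728140 : ℕ) : ℝ) / S ≤ x)
    (hx' : x ≤ (((818728140 : ℕ) : ℝ) + (40265320 : ℕ)) / S) :
    AltA (VFD κ) PP tK tL pcB [⟨4, 0, 0, 2845415833⟩] 0 0 1 0 0 (sgb false) (sgb false) x :=
  strip_altAD (m := 2845415833) false rfl hκ (SH.κ0 hκ (SH.hx1 hx).le (SH.hx2 hx').le) (SH.hx1 hx).le (SH.hx2 hx') (covB00).cov (covB00).cov hx hx' c_A00mm_001_s3 cutA_nil (noExt_A)

noncomputable def cut_A00mm_011_s1 : Cut := Cut.of [[⟨4, 0, 0, 1449551462⟩]]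

noncomputable def f_A00mm_011_s1 : ℕ → ℕ → ℕ → ℕ → Bool := onCell 0 536870912 536870912 536870912 818728140 40265320
    (rowF 0 true false false .pnn 0 1 1 (qsf 0 536870912 536870912 536870912 1) ndB0q0 ndB0q1 pcB1 cut_A00mm_011_s1 Ext.none)

def k0_A00mm_011_s1 : ∃ t, chk3 f_A00mm_011_s1 t 1 1 1 = true :=
  ⟨(l 6), by decide +kernel⟩

theorem c_A00mm_011_s1 : CertF 0 536870912 536870912 536870912 818728140 40265320 true false false .pnn 0 1 1
    ndB0q0 ndB0q1 pcB1 cut_A00mm_011_s1 Ext.none :=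
  certF0 (fam := true) (s1 := false) (s2 := false) (a := 0) (b := 1) (c := 1) (cn := .pnn) (n1 := ndB0q0) (n2 := ndB0q1) (pc := pcB1) (cut := cut_A00mm_011_s1) (xt := Ext.none) (P1 := 0) (W1 := 536870912) (P2 := 536870912) (W2 := 536870912) (P3 := 818728140) (W3 := 40265320)
    rfl k0_A00mm_011_s1

theorem s_A00mm_011_s1 {κ x : ℝ} (hκ : κ * h0 = ken x) (hx : ((818728140 : ℕ) : ℝ) / S ≤ x)
    (hx' : x ≤ (((818728140 : ℕ) : ℝ) + (40265320 : ℕ)) / S) :
    AltA (VFD κ) PP tK tL pcB [⟨3, 0, 0, 1449551462⟩] 0 1 1 0 0 (sgb false) (sgb false) x :=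
  strip_altAD (m := 1449551462) true rfl hκ (SH.κ0 hκ (SH.hx1 hx).le (SH.hx2 hx').le) (SH.hx1 hx).le (SH.hx2 hx') (covB00).cov (covB01).cov hx hx' c_A00mm_011_s1 cutA_nil (noExt_A)

noncomputable def cut_A00mm_011_s3 : Cut := Cut.of [[⟨3, 0, 0, 2845415833⟩]]

noncomputable def f_A00mm_011_s3 : ℕ → ℕ → ℕ → ℕ → Bool := onCell 0 536870912 536870912 536870912 818728140 40265320
    (rowF 0 true false false .pnn 0 1 1 (qsf 0 536870912 536870912 536870912 1) ndB0q0 ndB0q1 pcB1 cut_A00mm_011_s3 Ext.none)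

def k0_A00mm_011_s3 : ∃ t, chk3 f_A00mm_011_s3 t 1 1 1 = true :=
  ⟨(b (l 4) (l 5)), by decide +kernel⟩

theorem c_A00mm_011_s3 : CertF 0 536870912 536870912 536870912 818728140 40265320 true false false .pnn 0 1 1
    ndB0q0 ndB0q1 pcB1 cut_A00mm_011_s3 Ext.none :=
  certF0 (fam := true) (s1 := false) (s2 := false) (a := 0) (b := 1) (c := 1) (cn := .pnn) (n1 := ndB0q0) (n2 := ndB0q1) (pc := pcB1) (cut := cut_A00mm_011_s3) (xt := Ext.none) (P1 := 0) (W1 := 536870912) (P2 := 536870912) (W2 := 536870912) (P3 := 818728140) (W3 := 40265320)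
    rfl k0_A00mm_011_s3

theorem s_A00mm_011_s3 {κ x : ℝ} (hκ : κ * h0 = ken x) (hx : ((818728140 : ℕ) : ℝ) / S ≤ x)
    (hx' : x ≤ (((818728140 : ℕ) : ℝ) + (40265320 : ℕ)) / S) :
    AltA (VFD κ) PP tK tL pcB [⟨4, 0, 0, 2845415833⟩] 0 1 1 0 0 (sgb false) (sgb false) x :=
  strip_altAD (m := 2845415833) false rfl hκ (SH.κ0 hκ (SH.hx1 hx).le (SH.hx2 hx').le) (SH.hx1 hx).le (SH.hx2 hx') (covB00).cov (covB01).cov hx hx' c_A00mm_011_s3 cutA_nil (noExt_A)

noncomputable def cut_A00mm_012_s1 : Cut := Cut.of [[⟨4, 0, 0, 1449551462⟩]]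

noncomputable def f_A00mm_012_s1 : ℕ → ℕ → ℕ → ℕ → Bool := onCell 0 536870912 536870912 536870912 818728140 40265320
    (rowF 0 true false false .pnp 0 1 2 (qsf 0 536870912 536870912 536870912 2) ndB0q0 ndB0q1 pcB2 cut_A00mm_012_s1 Ext.none)

def k0_A00mm_012_s1 : ∃ t, chk3 f_A00mm_012_s1 t 1 1 1 = true :=
  ⟨(l 6), by decide +kernel⟩

theorem c_A00mm_012_s1 : CertF 0 536870912 536870912 536870912 818728140 40265320 true false false .pnp 0 1 2
    ndB0q0 ndB0q1 pcB2 cut_A00mm_012_s1 Ext.none :=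
  certF0 (fam := true) (s1 := false) (s2 := false) (a := 0) (b := 1) (c := 2) (cn := .pnp) (n1 := ndB0q0) (n2 := ndB0q1) (pc := pcB2) (cut := cut_A00mm_012_s1) (xt := Ext.none) (P1 := 0) (W1 := 536870912) (P2 := 536870912) (W2 := 536870912) (P3 := 818728140) (W3 := 40265320)
    rfl k0_A00mm_012_s1

theorem s_A00mm_012_s1 {κ x : ℝ} (hκ : κ * h0 = ken x) (hx : ((818728140 : ℕ) : ℝ) / S ≤ x)
    (hx' : x ≤ (((818728140 : ℕ) : ℝ) + (40265320 : ℕ)) / S) :
    AltA (VFD κ) PP tK tL pcB [⟨3, 0, 0, 1449551462⟩] 0 1 2 0 0 (sgb false) (sgb false) x :=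
  strip_altAD (m := 1449551462) true rfl hκ (SH.κ0 hκ (SH.hx1 hx).le (SH.hx2 hx').le) (SH.hx1 hx).le (SH.hx2 hx') (covB00).cov (covB01).cov hx hx' c_A00mm_012_s1 cutA_nil (noExt_A)

noncomputable def cut_A00mm_012_s3 : Cut := Cut.of [[⟨3, 0, 0, 2845415833⟩]]

noncomputable def f_A00mm_012_s3 : ℕ → ℕ → ℕ → ℕ → Bool := onCell 0 536870912 536870912 536870912 818728140 40265320
    (rowF 0 true false false .pnp 0 1 2 (qsf 0 536870912 536870912 536870912 2) ndB0q0 ndB0q1 pcB2 cut_A00mm_012_s3 Ext.none)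

def k0_A00mm_012_s3 : ∃ t, chk3 f_A00mm_012_s3 t 1 1 1 = true :=
  ⟨(b (l 4) (l 5)), by decide +kernel⟩

theorem c_A00mm_012_s3 : CertF 0 536870912 536870912 536870912 818728140 40265320 true false false .pnp 0 1 2
    ndB0q0 ndB0q1 pcB2 cut_A00mm_012_s3 Ext.none :=
  certF0 (fam := true) (s1 := false) (s2 := false) (a := 0) (b := 1) (c := 2) (cn := .pnp) (n1 := ndB0q0) (n2 := ndB0q1) (pc := pcB2) (cut := cut_A00mm_012_s3) (xt := Ext.none) (P1 := 0) (W1 := 536870912) (P2 := 536870912) (W2 := 536870912) (P3 := 818728140) (W3 := 40265320)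
    rfl k0_A00mm_012_s3

theorem s_A00mm_012_s3 {κ x : ℝ} (hκ : κ * h0 = ken x) (hx : ((818728140 : ℕ) : ℝ) / S ≤ x)
    (hx' : x ≤ (((818728140 : ℕ) : ℝ) + (40265320 : ℕ)) / S) :
    AltA (VFD κ) PP tK tL pcB [⟨4, 0, 0, 2845415833⟩] 0 1 2 0 0 (sgb false) (sgb false) x :=
  strip_altAD (m := 2845415833) false rfl hκ (SH.κ0 hκ (SH.hx1 hx).le (SH.hx2 hx').le) (SH.hx1 hx).le (SH.hx2 hx') (covB00).cov (covB01).cov hx hx' c_A00mm_012_s3 cutA_nil (noExt_A)

noncomputable def cut_A00mm_022_s1 : Cut := Cut.of [[⟨4, 0, 0, 1449551462⟩]]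

noncomputable def f_A00mm_022_s1 : ℕ → ℕ → ℕ → ℕ → Bool := onCell 0 536870912 0 536870912 818728140 40265320
    (rowF 0 true false false .pp 0 2 2 (qsf 0 536870912 0 536870912 2) ndB0q0 ndB0q2 pcB2 cut_A00mm_022_s1 Ext.none)

def k0_A00mm_022_s1 : ∃ t, chk3 f_A00mm_022_s1 t 1 1 1 = true :=
  ⟨(l 5), by decide +kernel⟩

theorem c_A00mm_022_s1 : CertF 0 536870912 0 536870912 818728140 40265320 true false false .pp 0 2 2
    ndB0q0 ndB0q2 pcB2 cut_A00mm_022_s1 Ext.none :=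
  certF0 (fam := true) (s1 := false) (s2 := false) (a := 0) (b := 2) (c := 2) (cn := .pp) (n1 := ndB0q0) (n2 := ndB0q2) (pc := pcB2) (cut := cut_A00mm_022_s1) (xt := Ext.none) (P1 := 0) (W1 := 536870912) (P2 := 0) (W2 := 536870912) (P3 := 818728140) (W3 := 40265320)
    rfl k0_A00mm_022_s1

theorem s_A00mm_022_s1 {κ x : ℝ} (hκ : κ * h0 = ken x) (hx : ((818728140 : ℕ) : ℝ) / S ≤ x)
    (hx' : x ≤ (((818728140 : ℕ) : ℝ) + (40265320 : ℕ)) / S) :
    AltA (VFD κ) PP tK tL pcB [⟨3, 0, 0, 1449551462⟩] 0 2 2 0 0 (sgb false) (sgb false) x :=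
  strip_altAD (m := 1449551462) true rfl hκ (SH.κ0 hκ (SH.hx1 hx).le (SH.hx2 hx').le) (SH.hx1 hx).le (SH.hx2 hx') (covB00).cov (covB02).cov hx hx' c_A00mm_022_s1 cutA_nil (noExt_A)

noncomputable def cut_A00mm_022_s3 : Cut := Cut.of [[⟨3, 0, 0, 2845415833⟩]]

noncomputable def f_A00mm_022_s3 : ℕ → ℕ → ℕ → ℕ → Bool := onCell 0 536870912 0 536870912 818728140 40265320
    (rowF 0 true false false .pp 0 2 2 (qsf 0 536870912 0 536870912 2) ndB0q0 ndB0q2 pcB2 cut_A00mm_022_s3 Ext.none)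

def k0_A00mm_022_s3 : ∃ t, chk3 f_A00mm_022_s3 t 1 1 1 = true :=
  ⟨(l 5), by decide +kernel⟩

theorem c_A00mm_022_s3 : CertF 0 536870912 0 536870912 818728140 40265320 true false false .pp 0 2 2
    ndB0q0 ndB0q2 pcB2 cut_A00mm_022_s3 Ext.none :=
  certF0 (fam := true) (s1 := false) (s2 := false) (a := 0) (b := 2) (c := 2) (cn := .pp) (n1 := ndB0q0) (n2 := ndB0q2) (pc := pcB2) (cut := cut_A00mm_022_s3) (xt := Ext.none) (P1 := 0) (W1 := 536870912) (P2 := 0) (W2 := 536870912) (P3 := 818728140) (W3 := 40265320)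
    rfl k0_A00mm_022_s3

theorem s_A00mm_022_s3 {κ x : ℝ} (hκ : κ * h0 = ken x) (hx : ((818728140 : ℕ) : ℝ) / S ≤ x)
    (hx' : x ≤ (((818728140 : ℕ) : ℝ) + (40265320 : ℕ)) / S) :
    AltA (VFD κ) PP tK tL pcB [⟨4, 0, 0, 2845415833⟩] 0 2 2 0 0 (sgb false) (sgb false) x :=
  strip_altAD (m := 2845415833) false rfl hκ (SH.κ0 hκ (SH.hx1 hx).le (SH.hx2 hx').le) (SH.hx1 hx).le (SH.hx2 hx') (covB00).cov (covB02).cov hx hx' c_A00mm_022_s3 cutA_nil (noExt_A)

noncomputable def cut_A00mm_023_s1 : Cut := Cut.of [[⟨4, 0, 0, 1449551462⟩]]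

noncomputable def f_A00mm_023_s1 : ℕ → ℕ → ℕ → ℕ → Bool := onCell 0 536870912 0 536870912 818728140 40265320
    (rowF 0 true false false .up 0 2 3 (qsf 0 536870912 0 536870912 3) ndB0q0 ndB0q2 pcB3 cut_A00mm_023_s1 Ext.none)

def k0_A00mm_023_s1 : ∃ t, chk3 f_A00mm_023_s1 t 1 1 1 = true :=
  ⟨(l 5), by decide +kernel⟩

theorem c_A00mm_023_s1 : CertF 0 536870912 0 536870912 818728140 40265320 true false false .up 0 2 3
    ndB0q0 ndB0q2 pcB3 cut_A00mm_023_s1 Ext.none :=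
  certF0 (fam := true) (s1 := false) (s2 := false) (a := 0) (b := 2) (c := 3) (cn := .up) (n1 := ndB0q0) (n2 := ndB0q2) (pc := pcB3) (cut := cut_A00mm_023_s1) (xt := Ext.none) (P1 := 0) (W1 := 536870912) (P2 := 0) (W2 := 536870912) (P3 := 818728140) (W3 := 40265320)
    rfl k0_A00mm_023_s1

theorem s_A00mm_023_s1 {κ x : ℝ} (hκ : κ * h0 = ken x) (hx : ((818728140 : ℕ) : ℝ) / S ≤ x)
    (hx' : x ≤ (((818728140 : ℕ) : ℝ) + (40265320 : ℕ)) / S) :
    AltA (VFD κ) PP tK tL pcB [⟨3, 0, 0, 1449551462⟩] 0 2 3 0 0 (sgb false) (sgb false) x :=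
  strip_altAD (m := 1449551462) true rfl hκ (SH.κ0 hκ (SH.hx1 hx).le (SH.hx2 hx').le) (SH.hx1 hx).le (SH.hx2 hx') (covB00).cov (covB02).cov hx hx' c_A00mm_023_s1 cutA_nil (noExt_A)

noncomputable def cut_A00mm_023_s3 : Cut := Cut.of [[⟨3, 0, 0, 2845415833⟩]]

noncomputable def f_A00mm_023_s3 : ℕ → ℕ → ℕ → ℕ → Bool := onCell 0 536870912 0 536870912 818728140 40265320
    (rowF 0 true false false .up 0 2 3 (qsf 0 536870912 0 536870912 3) ndB0q0 ndB0q2 pcB3 cut_A00mm_023_s3 Ext.none)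

def k0_A00mm_023_s3 : ∃ t, chk3 f_A00mm_023_s3 t 1 1 1 = true :=
  ⟨(l 5), by decide +kernel⟩

theorem c_A00mm_023_s3 : CertF 0 536870912 0 536870912 818728140 40265320 true false false .up 0 2 3
    ndB0q0 ndB0q2 pcB3 cut_A00mm_023_s3 Ext.none :=
  certF0 (fam := true) (s1 := false) (s2 := false) (a := 0) (b := 2) (c := 3) (cn := .up) (n1 := ndB0q0) (n2 := ndB0q2) (pc := pcB3) (cut := cut_A00mm_023_s3) (xt := Ext.none) (P1 := 0) (W1 := 536870912) (P2 := 0) (W2 := 536870912) (P3 := 818728140) (W3 := 40265320)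
    rfl k0_A00mm_023_s3

theorem s_A00mm_023_s3 {κ x : ℝ} (hκ : κ * h0 = ken x) (hx : ((818728140 : ℕ) : ℝ) / S ≤ x)
    (hx' : x ≤ (((818728140 : ℕ) : ℝ) + (40265320 : ℕ)) / S) :
    AltA (VFD κ) PP tK tL pcB [⟨4, 0, 0, 2845415833⟩] 0 2 3 0 0 (sgb false) (sgb false) x :=
  strip_altAD (m := 2845415833) false rfl hκ (SH.κ0 hκ (SH.hx1 hx).le (SH.hx2 hx').le) (SH.hx1 hx).le (SH.hx2 hx') (covB00).cov (covB02).cov hx hx' c_A00mm_023_s3 cutA_nil (noExt_A)

noncomputable def cut_A00mm_101_s1 : Cut := Cut.of [[⟨4, 0, 0, 1449551462⟩], [⟨0, 1, 0, 67108864⟩, ⟨1, 0, 0, 67108864⟩, ⟨2, 1, 0, 67108864⟩]]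

noncomputable def f_A00mm_101_s1 : ℕ → ℕ → ℕ → ℕ → Bool := onCell 536870912 536870912 0 536870912 818728140 40265320
    (rowF 0 true false false .npn 1 0 1 (qsf 536870912 536870912 0 536870912 1) ndB0q1 ndB0q0 pcB1 cut_A00mm_101_s1 Ext.none)

def k0_A00mm_101_s1 : ∃ t, chk3 f_A00mm_101_s1 t 1 1 1 = true :=
  ⟨(l 6), by decide +kernel⟩

theorem c_A00mm_101_s1 : CertF 536870912 536870912 0 536870912 818728140 40265320 true false false .npn 1 0 1
    ndB0q1 ndB0q0 pcB1 cut_A00mm_101_s1 Ext.none :=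
  certF0 (fam := true) (s1 := false) (s2 := false) (a := 1) (b := 0) (c := 1) (cn := .npn) (n1 := ndB0q1) (n2 := ndB0q0) (pc := pcB1) (cut := cut_A00mm_101_s1) (xt := Ext.none) (P1 := 536870912) (W1 := 536870912) (P2 := 0) (W2 := 536870912) (P3 := 818728140) (W3 := 40265320)
    rfl k0_A00mm_101_s1

theorem s_A00mm_101_s1 {κ x : ℝ} (hκ : κ * h0 = ken x) (hx : ((818728140 : ℕ) : ℝ) / S ≤ x)
    (hx' : x ≤ (((818728140 : ℕ) : ℝ) + (40265320 : ℕ)) / S)
    (H : CutA (VFD κ) PP tK tL pcB (Cut.of [[⟨0, 1, 0, 67108864⟩, ⟨1, 0, 0, 67108864⟩, ⟨2, 1, 0, 67108864⟩]]) 1 0 1 0 0 (sgb false) (sgb false) x) :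
    AltA (VFD κ) PP tK tL pcB [⟨3, 0, 0, 1449551462⟩] 1 0 1 0 0 (sgb false) (sgb false) x :=
  strip_altAD (m := 1449551462) true rfl hκ (SH.κ0 hκ (SH.hx1 hx).le (SH.hx2 hx').le) (SH.hx1 hx).le (SH.hx2 hx') (covB01).cov (covB00).cov hx hx' c_A00mm_101_s1 H (noExt_A)

noncomputable def cut_A00mm_101_s3 : Cut := Cut.of [[⟨3, 0, 0, 2845415833⟩], [⟨0, 1, 0, 67108864⟩, ⟨1, 0, 0, 67108864⟩, ⟨2, 1, 0, 67108864⟩]]

noncomputable def f_A00mm_101_s3 : ℕ → ℕ → ℕ → ℕ → Bool := onCell 536870912 536870912 0 536870912 818728140 40265320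
    (rowF 0 true false false .npn 1 0 1 (qsf 536870912 536870912 0 536870912 1) ndB0q1 ndB0q0 pcB1 cut_A00mm_101_s3 Ext.none)

def k0_A00mm_101_s3 : ∃ t, chk3 f_A00mm_101_s3 t 1 1 1 = true :=
  ⟨(a (l 4) (b (a (l 4) (b (a (l 4) (b (a (l 4) (b (l 14) (l 4))) (l 4))) (l 4))) (l 4))), by decide +kernel⟩

theorem c_A00mm_101_s3 : CertF 536870912 536870912 0 536870912 818728140 40265320 true false false .npn 1 0 1
    ndB0q1 ndB0q0 pcB1 cut_A00mm_101_s3 Ext.none :=
  certF0 (fam := true) (s1 := false) (s2 := false) (a := 1) (b := 0) (c := 1) (cn := .npn) (n1 := ndB0q1) (n2 := ndB0q0) (pc := pcB1) (cut := cut_A00mm_101_s3) (xt := Ext.none) (P1 := 536870912) (W1 := 536870912) (P2 := 0) (W2 := 536870912) (P3 := 818728140) (W3 := 40265320)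
    rfl k0_A00mm_101_s3

theorem s_A00mm_101_s3 {κ x : ℝ} (hκ : κ * h0 = ken x) (hx : ((818728140 : ℕ) : ℝ) / S ≤ x)
    (hx' : x ≤ (((818728140 : ℕ) : ℝ) + (40265320 : ℕ)) / S)
    (H : CutA (VFD κ) PP tK tL pcB (Cut.of [[⟨0, 1, 0, 67108864⟩, ⟨1, 0, 0, 67108864⟩, ⟨2, 1, 0, 67108864⟩]]) 1 0 1 0 0 (sgb false) (sgb false) x) :
    AltA (VFD κ) PP tK tL pcB [⟨4, 0, 0, 2845415833⟩] 1 0 1 0 0 (sgb false) (sgb false) x :=
  strip_altAD (m := 2845415833) false rfl hκ (SH.κ0 hκ (SH.hx1 hx).le (SH.hx2 hx').le) (SH.hx1 hx).le (SH.hx2 hx') (covB01).cov (covB00).cov hx hx' c_A00mm_101_s3 H (noExt_A)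

noncomputable def cut_A00mm_102_s1 : Cut := Cut.of [[⟨4, 0, 0, 1449551462⟩], [⟨0, 1, 0, 67108864⟩, ⟨1, 0, 0, 67108864⟩, ⟨2, 1, 0, 67108864⟩]]

noncomputable def f_A00mm_102_s1 : ℕ → ℕ → ℕ → ℕ → Bool := onCell 536870912 536870912 0 536870912 818728140 40265320
    (rowF 0 true false false .npp 1 0 2 (qsf 536870912 536870912 0 536870912 2) ndB0q1 ndB0q0 pcB2 cut_A00mm_102_s1 Ext.none)

def k0_A00mm_102_s1 : ∃ t, chk3 f_A00mm_102_s1 t 1 1 1 = true :=
  ⟨(l 6), by decide +kernel⟩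

theorem c_A00mm_102_s1 : CertF 536870912 536870912 0 536870912 818728140 40265320 true false false .npp 1 0 2
    ndB0q1 ndB0q0 pcB2 cut_A00mm_102_s1 Ext.none :=
  certF0 (fam := true) (s1 := false) (s2 := false) (a := 1) (b := 0) (c := 2) (cn := .npp) (n1 := ndB0q1) (n2 := ndB0q0) (pc := pcB2) (cut := cut_A00mm_102_s1) (xt := Ext.none) (P1 := 536870912) (W1 := 536870912) (P2 := 0) (W2 := 536870912) (P3 := 818728140) (W3 := 40265320)
    rfl k0_A00mm_102_s1

theorem s_A00mm_102_s1 {κ x : ℝ} (hκ : κ * h0 = ken x) (hx : ((818728140 : ℕ) : ℝ) / S ≤ x)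
    (hx' : x ≤ (((818728140 : ℕ) : ℝ) + (40265320 : ℕ)) / S)
    (H : CutA (VFD κ) PP tK tL pcB (Cut.of [[⟨0, 1, 0, 67108864⟩, ⟨1, 0, 0, 67108864⟩, ⟨2, 1, 0, 67108864⟩]]) 1 0 2 0 0 (sgb false) (sgb false) x) :
    AltA (VFD κ) PP tK tL pcB [⟨3, 0, 0, 1449551462⟩] 1 0 2 0 0 (sgb false) (sgb false) x :=
  strip_altAD (m := 1449551462) true rfl hκ (SH.κ0 hκ (SH.hx1 hx).le (SH.hx2 hx').le) (SH.hx1 hx).le (SH.hx2 hx') (covB01).cov (covB00).cov hx hx' c_A00mm_102_s1 H (noExt_A)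

noncomputable def cut_A00mm_102_s3 : Cut := Cut.of [[⟨3, 0, 0, 2845415833⟩], [⟨0, 1, 0, 67108864⟩, ⟨1, 0, 0, 67108864⟩, ⟨2, 1, 0, 67108864⟩]]

noncomputable def f_A00mm_102_s3 : ℕ → ℕ → ℕ → ℕ → Bool := onCell 536870912 536870912 0 536870912 818728140 40265320
    (rowF 0 true false false .npp 1 0 2 (qsf 536870912 536870912 0 536870912 2) ndB0q1 ndB0q0 pcB2 cut_A00mm_102_s3 Ext.none)

def k0_A00mm_102_s3 : ∃ t, chk3 f_A00mm_102_s3 t 1 1 1 = true :=
  ⟨(a (l 4) (b (a (l 4) (b (a (l 4) (a (l 4) (b (b (l 14) (l 4)) (l 4)))) (l 4))) (l 4))), by decide +kernel⟩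

theorem c_A00mm_102_s3 : CertF 536870912 536870912 0 536870912 818728140 40265320 true false false .npp 1 0 2
    ndB0q1 ndB0q0 pcB2 cut_A00mm_102_s3 Ext.none :=
  certF0 (fam := true) (s1 := false) (s2 := false) (a := 1) (b := 0) (c := 2) (cn := .npp) (n1 := ndB0q1) (n2 := ndB0q0) (pc := pcB2) (cut := cut_A00mm_102_s3) (xt := Ext.none) (P1 := 536870912) (W1 := 536870912) (P2 := 0) (W2 := 536870912) (P3 := 818728140) (W3 := 40265320)
    rfl k0_A00mm_102_s3

theorem s_A00mm_102_s3 {κ x : ℝ} (hκ : κ * h0 = ken x) (hx : ((818728140 : ℕ) : ℝ) / S ≤ x)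
    (hx' : x ≤ (((818728140 : ℕ) : ℝ) + (40265320 : ℕ)) / S)
    (H : CutA (VFD κ) PP tK tL pcB (Cut.of [[⟨0, 1, 0, 67108864⟩, ⟨1, 0, 0, 67108864⟩, ⟨2, 1, 0, 67108864⟩]]) 1 0 2 0 0 (sgb false) (sgb false) x) :
    AltA (VFD κ) PP tK tL pcB [⟨4, 0, 0, 2845415833⟩] 1 0 2 0 0 (sgb false) (sgb false) x :=
  strip_altAD (m := 2845415833) false rfl hκ (SH.κ0 hκ (SH.hx1 hx).le (SH.hx2 hx').le) (SH.hx1 hx).le (SH.hx2 hx') (covB01).cov (covB00).cov hx hx' c_A00mm_102_s3 H (noExt_A)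

noncomputable def cut_A00mm_112_s1 : Cut := Cut.of [[⟨4, 0, 0, 1449551462⟩]]

noncomputable def f_A00mm_112_s1 : ℕ → ℕ → ℕ → ℕ → Bool := onCell 536870912 536870912 536870912 536870912 818728140 40265320
    (rowF 0 true false false .dn 1 1 2 (qsf 536870912 536870912 536870912 536870912 2) ndB0q1 ndB0q1 pcB2 cut_A00mm_112_s1 Ext.none)

def k0_A00mm_112_s1 : ∃ t, chk3 f_A00mm_112_s1 t 1 1 1 = true :=
  ⟨(l 4), by decide +kernel⟩

theorem c_A00mm_112_s1 : CertF 536870912 536870912 536870912 536870912 818728140 40265320 true false false .dn 1 1 2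
    ndB0q1 ndB0q1 pcB2 cut_A00mm_112_s1 Ext.none :=
  certF0 (fam := true) (s1 := false) (s2 := false) (a := 1) (b := 1) (c := 2) (cn := .dn) (n1 := ndB0q1) (n2 := ndB0q1) (pc := pcB2) (cut := cut_A00mm_112_s1) (xt := Ext.none) (P1 := 536870912) (W1 := 536870912) (P2 := 536870912) (W2 := 536870912) (P3 := 818728140) (W3 := 40265320)
    rfl k0_A00mm_112_s1

theorem s_A00mm_112_s1 {κ x : ℝ} (hκ : κ * h0 = ken x) (hx : ((818728140 : ℕ) : ℝ) / S ≤ x)
    (hx' : x ≤ (((818728140 : ℕ) : ℝ) + (40265320 : ℕ)) / S) :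
    AltA (VFD κ) PP tK tL pcB [⟨3, 0, 0, 1449551462⟩] 1 1 2 0 0 (sgb false) (sgb false) x :=
  strip_altAD (m := 1449551462) true rfl hκ (SH.κ0 hκ (SH.hx1 hx).le (SH.hx2 hx').le) (SH.hx1 hx).le (SH.hx2 hx') (covB01).cov (covB01).cov hx hx' c_A00mm_112_s1 cutA_nil (noExt_A)

noncomputable def cut_A00mm_112_s3 : Cut := Cut.of [[⟨3, 0, 0, 2845415833⟩]]

noncomputable def f_A00mm_112_s3 : ℕ → ℕ → ℕ → ℕ → Bool := onCell 536870912 536870912 536870912 536870912 818728140 40265320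
    (rowF 0 true false false .dn 1 1 2 (qsf 536870912 536870912 536870912 536870912 2) ndB0q1 ndB0q1 pcB2 cut_A00mm_112_s3 Ext.none)

def k0_A00mm_112_s3 : ∃ t, chk3 f_A00mm_112_s3 t 1 1 1 = true :=
  ⟨(l 4), by decide +kernel⟩

theorem c_A00mm_112_s3 : CertF 536870912 536870912 536870912 536870912 818728140 40265320 true false false .dn 1 1 2
    ndB0q1 ndB0q1 pcB2 cut_A00mm_112_s3 Ext.none :=
  certF0 (fam := true) (s1 := false) (s2 := false) (a := 1) (b := 1) (c := 2) (cn := .dn) (n1 := ndB0q1) (n2 := ndB0q1) (pc := pcB2) (cut := cut_A00mm_112_s3) (xt := Ext.none) (P1 := 536870912) (W1 := 536870912) (P2 := 536870912) (W2 := 536870912) (P3 := 818728140) (W3 := 40265320)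
    rfl k0_A00mm_112_s3

theorem s_A00mm_112_s3 {κ x : ℝ} (hκ : κ * h0 = ken x) (hx : ((818728140 : ℕ) : ℝ) / S ≤ x)
    (hx' : x ≤ (((818728140 : ℕ) : ℝ) + (40265320 : ℕ)) / S) :
    AltA (VFD κ) PP tK tL pcB [⟨4, 0, 0, 2845415833⟩] 1 1 2 0 0 (sgb false) (sgb false) x :=
  strip_altAD (m := 2845415833) false rfl hκ (SH.κ0 hκ (SH.hx1 hx).le (SH.hx2 hx').le) (SH.hx1 hx).le (SH.hx2 hx') (covB01).cov (covB01).cov hx hx' c_A00mm_112_s3 cutA_nil (noExt_A)

noncomputable def cut_A00mm_113_s1 : Cut := Cut.of [[⟨4, 0, 0, 1449551462⟩]]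

noncomputable def f_A00mm_113_s1 : ℕ → ℕ → ℕ → ℕ → Bool := onCell 536870912 536870912 536870912 536870912 818728140 40265320
    (rowF 0 true false false .nn 1 1 3 (qsf 536870912 536870912 536870912 536870912 3) ndB0q1 ndB0q1 pcB3 cut_A00mm_113_s1 Ext.none)

def k0_A00mm_113_s1 : ∃ t, chk3 f_A00mm_113_s1 t 1 1 1 = true :=
  ⟨(l 4), by decide +kernel⟩

theorem c_A00mm_113_s1 : CertF 536870912 536870912 536870912 536870912 818728140 40265320 true false false .nn 1 1 3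
    ndB0q1 ndB0q1 pcB3 cut_A00mm_113_s1 Ext.none :=
  certF0 (fam := true) (s1 := false) (s2 := false) (a := 1) (b := 1) (c := 3) (cn := .nn) (n1 := ndB0q1) (n2 := ndB0q1) (pc := pcB3) (cut := cut_A00mm_113_s1) (xt := Ext.none) (P1 := 536870912) (W1 := 536870912) (P2 := 536870912) (W2 := 536870912) (P3 := 818728140) (W3 := 40265320)
    rfl k0_A00mm_113_s1

theorem s_A00mm_113_s1 {κ x : ℝ} (hκ : κ * h0 = ken x) (hx : ((818728140 : ℕ) : ℝ) / S ≤ x)
    (hx' : x ≤ (((818728140 : ℕ) : ℝ) + (40265320 : ℕ)) / S) :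
    AltA (VFD κ) PP tK tL pcB [⟨3, 0, 0, 1449551462⟩] 1 1 3 0 0 (sgb false) (sgb false) x :=
  strip_altAD (m := 1449551462) true rfl hκ (SH.κ0 hκ (SH.hx1 hx).le (SH.hx2 hx').le) (SH.hx1 hx).le (SH.hx2 hx') (covB01).cov (covB01).cov hx hx' c_A00mm_113_s1 cutA_nil (noExt_A)

noncomputable def cut_A00mm_113_s3 : Cut := Cut.of [[⟨3, 0, 0, 2845415833⟩]]

noncomputable def f_A00mm_113_s3 : ℕ → ℕ → ℕ → ℕ → Bool := onCell 536870912 536870912 536870912 536870912 818728140 40265320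
    (rowF 0 true false false .nn 1 1 3 (qsf 536870912 536870912 536870912 536870912 3) ndB0q1 ndB0q1 pcB3 cut_A00mm_113_s3 Ext.none)

def k0_A00mm_113_s3 : ∃ t, chk3 f_A00mm_113_s3 t 1 1 1 = true :=
  ⟨(l 4), by decide +kernel⟩

theorem c_A00mm_113_s3 : CertF 536870912 536870912 536870912 536870912 818728140 40265320 true false false .nn 1 1 3
    ndB0q1 ndB0q1 pcB3 cut_A00mm_113_s3 Ext.none :=
  certF0 (fam := true) (s1 := false) (s2 := false) (a := 1) (b := 1) (c := 3) (cn := .nn) (n1 := ndB0q1) (n2 := ndB0q1) (pc := pcB3) (cut := cut_A00mm_113_s3) (xt := Ext.none) (P1 := 536870912) (W1 := 536870912) (P2 := 536870912) (W2 := 536870912) (P3 := 818728140) (W3 := 40265320)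
    rfl k0_A00mm_113_s3

theorem s_A00mm_113_s3 {κ x : ℝ} (hκ : κ * h0 = ken x) (hx : ((818728140 : ℕ) : ℝ) / S ≤ x)
    (hx' : x ≤ (((818728140 : ℕ) : ℝ) + (40265320 : ℕ)) / S) :
    AltA (VFD κ) PP tK tL pcB [⟨4, 0, 0, 2845415833⟩] 1 1 3 0 0 (sgb false) (sgb false) x :=
  strip_altAD (m := 2845415833) false rfl hκ (SH.κ0 hκ (SH.hx1 hx).le (SH.hx2 hx').le) (SH.hx1 hx).le (SH.hx2 hx') (covB01).cov (covB01).cov hx hx' c_A00mm_113_s3 cutA_nil (noExt_A)

noncomputable def cut_A00mm_123_s1 : Cut := Cut.of [[⟨4, 0, 0, 1449551462⟩]]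

noncomputable def f_A00mm_123_s1 : ℕ → ℕ → ℕ → ℕ → Bool := onCell 536870912 536870912 0 536870912 818728140 40265320
    (rowF 0 true false false .npn 1 2 3 (qsf 536870912 536870912 0 536870912 3) ndB0q1 ndB0q2 pcB3 cut_A00mm_123_s1 Ext.none)

def k0_A00mm_123_s1 : ∃ t, chk3 f_A00mm_123_s1 t 1 1 1 = true :=
  ⟨(l 6), by decide +kernel⟩

theorem c_A00mm_123_s1 : CertF 536870912 536870912 0 536870912 818728140 40265320 true false false .npn 1 2 3
    ndB0q1 ndB0q2 pcB3 cut_A00mm_123_s1 Ext.none :=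
  certF0 (fam := true) (s1 := false) (s2 := false) (a := 1) (b := 2) (c := 3) (cn := .npn) (n1 := ndB0q1) (n2 := ndB0q2) (pc := pcB3) (cut := cut_A00mm_123_s1) (xt := Ext.none) (P1 := 536870912) (W1 := 536870912) (P2 := 0) (W2 := 536870912) (P3 := 818728140) (W3 := 40265320)
    rfl k0_A00mm_123_s1

theorem s_A00mm_123_s1 {κ x : ℝ} (hκ : κ * h0 = ken x) (hx : ((818728140 : ℕ) : ℝ) / S ≤ x)
    (hx' : x ≤ (((818728140 : ℕ) : ℝ) + (40265320 : ℕ)) / S) :
    AltA (VFD κ) PP tK tL pcB [⟨3, 0, 0, 1449551462⟩] 1 2 3 0 0 (sgb false) (sgb false) x :=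
  strip_altAD (m := 1449551462) true rfl hκ (SH.κ0 hκ (SH.hx1 hx).le (SH.hx2 hx').le) (SH.hx1 hx).le (SH.hx2 hx') (covB01).cov (covB02).cov hx hx' c_A00mm_123_s1 cutA_nil (noExt_A)

noncomputable def cut_A00mm_123_s3 : Cut := Cut.of [[⟨3, 0, 0, 2845415833⟩]]

noncomputable def f_A00mm_123_s3 : ℕ → ℕ → ℕ → ℕ → Bool := onCell 536870912 536870912 0 536870912 818728140 40265320
    (rowF 0 true false false .npn 1 2 3 (qsf 536870912 536870912 0 536870912 3) ndB0q1 ndB0q2 pcB3 cut_A00mm_123_s3 Ext.none)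

def k0_A00mm_123_s3 : ∃ t, chk3 f_A00mm_123_s3 t 1 1 1 = true :=
  ⟨(a (l 5) (l 4)), by decide +kernel⟩

theorem c_A00mm_123_s3 : CertF 536870912 536870912 0 536870912 818728140 40265320 true false false .npn 1 2 3
    ndB0q1 ndB0q2 pcB3 cut_A00mm_123_s3 Ext.none :=
  certF0 (fam := true) (s1 := false) (s2 := false) (a := 1) (b := 2) (c := 3) (cn := .npn) (n1 := ndB0q1) (n2 := ndB0q2) (pc := pcB3) (cut := cut_A00mm_123_s3) (xt := Ext.none) (P1 := 536870912) (W1 := 536870912) (P2 := 0) (W2 := 536870912) (P3 := 818728140) (W3 := 40265320)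
    rfl k0_A00mm_123_s3

theorem s_A00mm_123_s3 {κ x : ℝ} (hκ : κ * h0 = ken x) (hx : ((818728140 : ℕ) : ℝ) / S ≤ x)
    (hx' : x ≤ (((818728140 : ℕ) : ℝ) + (40265320 : ℕ)) / S) :
    AltA (VFD κ) PP tK tL pcB [⟨4, 0, 0, 2845415833⟩] 1 2 3 0 0 (sgb false) (sgb false) x :=
  strip_altAD (m := 2845415833) false rfl hκ (SH.κ0 hκ (SH.hx1 hx).le (SH.hx2 hx').le) (SH.hx1 hx).le (SH.hx2 hx') (covB01).cov (covB02).cov hx hx' c_A00mm_123_s3 cutA_nil (noExt_A)

noncomputable def cut_A00mm_202_s1 : Cut := Cut.of [[⟨4, 0, 0, 1449551462⟩], [⟨0, 1, 0, 67108864⟩, ⟨1, 0, 0, 67108864⟩, ⟨2, 1, 0, 67108864⟩]]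

noncomputable def f_A00mm_202_s1 : ℕ → ℕ → ℕ → ℕ → Bool := onCell 0 536870912 0 536870912 818728140 40265320
    (rowF 0 true false false .pp 2 0 2 (qsf 0 536870912 0 536870912 2) ndB0q2 ndB0q0 pcB2 cut_A00mm_202_s1 Ext.none)

def k0_A00mm_202_s1 : ∃ t, chk3 f_A00mm_202_s1 t 1 1 1 = true :=
  ⟨(l 6), by decide +kernel⟩

theorem c_A00mm_202_s1 : CertF 0 536870912 0 536870912 818728140 40265320 true false false .pp 2 0 2
    ndB0q2 ndB0q0 pcB2 cut_A00mm_202_s1 Ext.none :=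
  certF0 (fam := true) (s1 := false) (s2 := false) (a := 2) (b := 0) (c := 2) (cn := .pp) (n1 := ndB0q2) (n2 := ndB0q0) (pc := pcB2) (cut := cut_A00mm_202_s1) (xt := Ext.none) (P1 := 0) (W1 := 536870912) (P2 := 0) (W2 := 536870912) (P3 := 818728140) (W3 := 40265320)
    rfl k0_A00mm_202_s1

theorem s_A00mm_202_s1 {κ x : ℝ} (hκ : κ * h0 = ken x) (hx : ((818728140 : ℕ) : ℝ) / S ≤ x)
    (hx' : x ≤ (((818728140 : ℕ) : ℝ) + (40265320 : ℕ)) / S)
    (H : CutA (VFD κ) PP tK tL pcB (Cut.of [[⟨0, 1, 0, 67108864⟩, ⟨1, 0, 0, 67108864⟩, ⟨2, 1, 0, 67108864⟩]]) 2 0 2 0 0 (sgb false) (sgb false) x) :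
    AltA (VFD κ) PP tK tL pcB [⟨3, 0, 0, 1449551462⟩] 2 0 2 0 0 (sgb false) (sgb false) x :=
  strip_altAD (m := 1449551462) true rfl hκ (SH.κ0 hκ (SH.hx1 hx).le (SH.hx2 hx').le) (SH.hx1 hx).le (SH.hx2 hx') (covB02).cov (covB00).cov hx hx' c_A00mm_202_s1 H (noExt_A)

noncomputable def cut_A00mm_202_s3 : Cut := Cut.of [[⟨3, 0, 0, 2845415833⟩], [⟨0, 1, 0, 67108864⟩, ⟨1, 0, 0, 67108864⟩, ⟨2, 1, 0, 67108864⟩]]

noncomputable def xt_A00mm_202_s3 : Ext := strExt dd true false false .u2 .u0m .s2m .pp 2 0 2 rfl rfl gl2 vv ndB0q2 ndB0q0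

noncomputable def f_A00mm_202_s3 : ℕ → ℕ → ℕ → ℕ → Bool := onCell 0 536870912 0 536870912 818728140 40265320
    (rowF 0 true false false .pp 2 0 2 (qsf 0 536870912 0 536870912 2) ndB0q2 ndB0q0 pcB2 cut_A00mm_202_s3 xt_A00mm_202_s3)

def k0_A00mm_202_s3 : ∃ t, chk3 f_A00mm_202_s3 t 2 2 1 = true :=
  ⟨(b (b (l 6) (a (l 6) (a (l 6) (a (l 6) (b (b (l 6) (a (l 6) (l 16538440))) (b (l 16586920) (l 16601728))))))) (a (b (l 6) (a (l 6) (b (l 6) (a (l 6) (l 16589752))))) (a (b (b (l 6) (a (l 6) (b (l 16554848) (l 16573064)))) (b (a (l 16576640) (b (l 16591096) (l 16608824))) (c (l 16655448) (l 16663768)))) (b (b (a (b (l 16545968) (l 16563168)) (b (a (l 16567760) (l 16583384)) (a (l 16584912) (l 16600488)))) (b (a (l 16581312) (l 16673712)) (a (l 16599448) (a (l 16621048) (l 16636520))))) (b (a (b (l 16617400) (l 16635064)) (c (b (l 16731744) (l 16707264)) (b (l 16729344) (l 16704992)))) (a (b (l 16652320) (l 16669040)) (b (c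 (l 16724112) (l 16722432)) (a (l 16690336) (l 16684560))))))))), by decide +kernel⟩

def k1_A00mm_202_s3 : ∃ t, chk3 f_A00mm_202_s3 t 12 8 1 = true :=
  ⟨(b (a (l 6) (a (l 6) (b (b (l 6) (c (l 16532224) (l 16525232))) (b (c (l 16540800) (l 16533760)) (c (l 16549320) (l 16542296)))))) (b (a (l 6) (a (b (l 16579744) (a (l 16541808) (l 16550136))) (b (c (l 16557760) (l 16550784)) (c (l 16566088) (l 16559232))))) (a (a (l 6) (l 16583256)) (a (b (l 16596064) (l 16562128)) (b (a (l 16566744) (l 16596224)) (a (l 16574888) (l 16583488))))))), by decide +kernel⟩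

def k2_A00mm_202_s3 : ∃ t, chk3 f_A00mm_202_s3 t 26 8 1 = true :=
  ⟨(b (c (b (a (b (l 16539392) (l 16548128)) (b (a (l 16551304) (l 16559344)) (l 16585248))) (a (b (l 16556864) (l 16565552)) (b (l 16594136) (a (l 16577856) (l 16586152))))) (b (a (b (l 16512064) (l 16541712)) (b (a (l 16545360) (l 16553752)) (a (l 16554168) (l 16562640)))) (a (b (l 16529440) (l 16538136)) (b (a (l 16562984) (l 16571544)) (a (l 16571816) (l 16580464)))))) (b (a (b (a (l 16566824) (l 16559512)) (c (l 16582736) (l 16597400))) (b (a (c (l 16586648) (l 16580648)) (c (l 16595056) (l 16589392))) (a (c (l 16595368) (l 16589440)) (c (l 16603888) (l 16598296))))) (a (b (c (l 16612128) (l 16605976)) (a (l 16592152) (c (l 16603704) (l 16597904)))) (a (b (c (l 16603960) (l 16598176)) (c (l 16612424) (l 16606840))) (c (b (l 16612608) (l 16621200)) (b (l 16607144) (l 16615912))))))), by decide +kernel⟩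

def k3_A00mm_202_s3 : ∃ t, chk3 f_A00mm_202_s3 t 27 8 1 = true :=
  ⟨(b (b (a (b (c (a (l 16567440) (l 16575624)) (c (l 16588888) (l 16586376))) (c (a (l 16576488) (l 16584768)) (a (l 16571264) (l 16580056)))) (b (a (b (l 16600560) (l 16584192)) (b (c (l 16589968) (l 16586600)) (c (l 16594648) (l 16591216)))) (a (c (l 16593144) (l 16589016)) (c (l 16612144) (b (l 16595840) (l 16600472)))))) (c (a (b (a (l 16585520) (l 16593896)) (a (l 16594536) (l 16603000))) (a (b (l 16602376) (l 16611584)) (b (l 16621472) (b (l 16617968) (l 16622616))))) (a (b (a (l 16580264) (l 16589136)) (a (l 16589264) (l 16598232))) (a (b (l 16598192) (l 16607376)) (b (b (l 16605104) (l 16609736)) (b (l 16614376) (l 16619008))))))) (a (b (a (b (c (l 16603536) (l 16598288)) (c (l 16612488) (l 16607296))) (c (b (l 16612104) (l 16621160)) (b (l 16607344) (l 16616448)))) (a (c (b (l 16621336) (l 16630056)) (b (l 16616248) (l 16625136))) (c (b (l 16630144)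 (l 16659976)) (b (l 16625512) (l 16655488))))) (b (a (b (b (l 16637376) (l 16631488)) (c (l 16640432) (l 16636248))) (b (a (b (l 16623184) (l 16627816)) (b (l 16627768) (l 16632424))) (a (b (l 16632448) (l 16637080)) (b (l 16637080) (l 16641728))))) (a (c (b (l 16649552) (b (l 16645816) (l 16650288))) (b (l 16645432) (b (l 16641784) (l 16646328)))) (c (a (b (l 16645808) (l 16654920)) (b (l 16650368) (l 16670032))) (a (b (l 16642112) (l 16651320)) (b (l 16646960) (l 16666712)))))))), by decide +kernel⟩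

def k4_A00mm_202_s3 : ∃ t, chk3 f_A00mm_202_s3 t 12 9 1 = true :=
  ⟨(b (a (a (b (l 16540024) (l 16554712)) (b (l 16577744) (a (l 16567352) (l 16575992)))) (a (b (b (l 16570008) (l 16577752)) (c (l 16632984) (l 16629096))) (b (b (l 16587288) (l 16595216)) (b (l 16623960) (l 16631648))))) (a (a (b (l 16569168) (l 16584016)) (b (b (l 16582704) (l 16590056)) (a (l 16596864) (l 16647672)))) (b (a (b (l 16600360) (l 16607864)) (b (l 16639328) (l 16647016))) (a (b (l 16615392) (l 16623048)) (a (b (l 16629056) (l 16636800)) (b (l 16638360) (l 16646160))))))), by decide +kernel⟩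

def k5_A00mm_202_s3 : ∃ t, chk3 f_A00mm_202_s3 t 26 9 1 = true :=
  ⟨(b (a (b (a (b (l 16600368) (l 16608456)) (b (c (l 16611808) (l 16606480)) (l 16617416))) (a (b (l 16616384) (l 16624232)) (b (l 16625464) (l 16654392)))) (b (a (b (b (l 16616056) (l 16620248)) (l 16626472)) (b (c (l 16629632) (l 16624624)) (l 16646128))) (a (b (l 16655608) (l 16653208)) (c (b (l 16645816) (l 16653720)) (b (l 16641928) (l 16650456)))))) (a (a (b (b (l 16632072) (l 16639912)) (b (l 16647768) (l 16676632))) (b (b (l 16662344) (l 16670296)) (c (b (l 16658032) (l 16665760)) (b (l 16656544) (l 16664816))))) (c (b (a (b (l 16652104) (l 16659896)) (b (l 16661632) (l 16669560))) (a (b (l 16667728) (l 16675608)) (b (l 16688016) (l 16696048)))) (b (a (b (l 16649400) (l 16657784)) (b (l 16658960) (l 16667456))) (a (b (l 16666168) (l 16674560)) (b (l 16675952) (l 16694944))))))), by decide +kernel⟩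

def k6_A00mm_202_s3 : ∃ t, chk3 f_A00mm_202_s3 t 27 18 1 = true :=
  ⟨(a (b (a (c (b (l 16659608) (l 16657496)) (b (l 16644432) (l 16653200))) (c (b (l 16658216) (b (l 16654160) (l 16658376))) (b (l 16653928) (b (l 16650072) (l 16654480))))) (a (c (b (l 16655152) (l 16663200)) (b (l 16651432) (l 16660072))) (c (b (l 16675072) (l 16683272)) (b (l 16661104) (l 16680344))))) (b (a (c (b (b (l 16654720) (l 16659112)) (c (l 16676952) (l 16675264))) (b (b (l 16650848) (l 16655344)) (b (l 16659824) (l 16664272)))) (c (b (a (l 16674384) (l 16679080)) (c (l 16686328) (l 16684856))) (a (b (l 16670936) (l 16679976)) (b (l 16675904) (l 532345615))))) (a (c (b (b (l 16682512) (l 16676216)) (b (l 16680400) (l 16684584))) (b (b (l 16679208) (l 16673168)) (b (l 16677608) (l 16682040)))) (c (b (a (l 532497679) (l 532734223)) (b (l 16690200) (l 16704944))) (b (a (l 532365327) (l 532335887)) (a (l 16697896) (l 16697784))))))), by decide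 +kernel⟩

def k7_A00mm_202_s3 : ∃ t, chk3 f_A00mm_202_s3 t 27 19 1 = true :=
  ⟨(a (b (b (a (c (l 16681744) (l 16668696)) (c (b (l 16678944) (l 16683048)) (l 16689088))) (a (c (l 16689824) (l 16687792)) (c (b (l 16687168) (l 16691296)) (b (l 16685144) (l 16689504))))) (a (b (a (c (l 16684952) (l 16683392)) (c (l 16689944) (l 16688424))) (c (c (l 16706376) (l 16705864)) (b (l 16692376) (l 16696696)))) (b (c (a (l 16705456) (l 16705280)) (c (l 16706928) (l 16706160))) (c (b (l 16714240) (l 16713176)) (b (l 16702616) (l 16717480)))))) (b (c (a (b (a (l 16698856) (l 16703824)) (b (l 16707640) (l 16711848))) (a (b (l 532722703) (b (l 16704728) (l 16709000))) (b (l 532961039) (b (l 16709824) (l 16714144))))) (a (b (b (l 16686464) (l 16690896)) (b (l 16695320) (l 16699744))) (a (b (l 16701608) (l 532598287)) (b (l 532313871) (l 532569359))))) (c (a (b (b (l 16710824) (a (l 16707232) (l 16712384))) (a (b (l 16711464) (l 16715712))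 (b (l 16716656) (l 16720944)))) (b (a (b (l 16713280) (l 16717576)) (b (l 16718464) (l 16728048))) (a (b (l 16727136) (l 16731464)) (c (l 532358159) (l 532324623))))) (a (b (b (l 16714664) (l 16713848)) (a (l 532619023) (b (l 16715664) (l 16720120)))) (b (a (b (l 16712016) (l 16716496)) (b (l 16717312) (l 16721824))) (a (b (l 16720976) (l 16725464)) (b (l 16731576) (l 532265999)))))))), by decide +kernel⟩

def k8_A00mm_202_s3 : ∃ t, chk3 f_A00mm_202_s3 t 28 16 1 = true :=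
  ⟨(a (a (b (c (b (b (l 16598496) (l 16603224)) (b (l 16607944) (l 16612672))) (b (b (l 16595824) (l 16600488)) (b (l 16605160) (l 16609832)))) (b (a (b (l 16613664) (l 16618352)) (a (l 532342543) (l 532324623))) (a (b (l 16623032) (l 16627720)) (b (l 16627664) (l 16632368))))) (b (b (a (a (l 532306959) (l 532289295)) (a (l 532271887) (l 532254479))) (a (a (l 532306447) (l 532288527)) (a (l 532270863) (l 532253711)))) (b (a (a (l 532306447) (l 532288527)) (a (l 532270863) (l 532253199))) (a (a (l 532307215) (l 532289295)) (b (l 16647664) (l 16652416)))))) (b (a (b (b (a (l 532430607) (a (l 532204559) (l 532188431))) (c (l 16621432) (l 16619976))) (a (b (l 16633480) (l 16638256)) (a (l 532202767) (l 532186127)))) (c (b (a (a (l 532189455) (l 532172303)) (b (l 14) (l 532146959))) (b (l 16636160) (l 16641016))) (b (a (a (l 532155663) (l 532141327)) (b (l 14) (l 16638208))) (b (l 16645608) (l 16650400))))) (a (b (a (b (l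 16643040) (l 16647816)) (a (l 532201743) (l 532185103))) (a (b (l 16652584) (l 532227343)) (a (l 532201487) (l 532184591)))) (b (a (a (l 532168719) (l 532152335)) (b (l 532397071) (l 532396303))) (a (a (l 532167951) (l 532151567)) (a (l 532135183) (l 532119055))))))), by decide +kernel⟩

def k9_A00mm_202_s3 : ∃ t, chk3 f_A00mm_202_s3 t 29 16 1 = true :=
  ⟨(a (b (a (b (a (b (l 14) (a (l 532109071) (l 14))) (l 14)) (c (b (a (l 16649144) (l 532082191)) (l 16656696)) (a (b (l 532087567) (l 16647976)) (b (l 532328975) (l 16653472))))) (b (l 14) (a (a (b (l 532049167) (l 532047375)) (b (l 14) (l 532033295))) (b (l 14) (a (l 532019471) (l 532006159)))))) (a (a (a (b (l 532104975) (l 532103439)) (b (l 532358159) (l 532087823))) (b (a (l 532074511) (l 532328207)) (a (l 532072463) (l 532057615)))) (a (b (a (l 532313615) (b (l 532031759) (l 532030223))) (a (l 532042767) (l 532028175))) (b (a (l 532285455) (b (l 532004111) (l 532002319)))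 (a (l 532282383) (l 532268559)))))) (a (b (a (b (l 14) (a (b (l 14) (l 531992847)) (l 14))) (l 14)) (a (b (a (b (l 531990799) (l 531989007)) (b (l 531977743) (l 531975695))) (a (b (l 531987215) (l 531985423)) (b (l 531973903) (l 531972111)))) (b (a (b (l 531964943) (l 531962895)) (b (l 531952655) (l 531950351))) (a (b (l 531960847) (l 531959055)) (b (l 531948303) (l 531946255)))))) (b (l 14) (a (b (b (l 14) (a (l 531938063) (l 531926287))) (a (b (l 531936015) (l 531933711)) (b (l 531923983) (l 531921679)))) (b (b (l 14) (a (l 531914767) (l 531903759))) (a (b (l 531912463) (l 531910159)) (b (l 531901199) (l 531898895)))))))), by decide +kernel⟩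

def k10_A00mm_202_s3 : ∃ t, chk3 f_A00mm_202_s3 t 15 16 1 = true :=
  ⟨(b (l 14) (b (a (l 14) (l 14)) (b (a (a (a (a (a (l 531890447) (l 531879695)) (a (l 531868687) (l 14))) (l 14)) (l 14)) (l 14)) (a (a (a (a (a (l 531887887) (l 531877135)) (a (l 531866127) (l 531855375))) (a (a (l 531844367) (l 532101903)) (a (a (l 531825679) (l 14)) (l 14)))) (l 14)) (l 14))))), by decide +kernel⟩

def k11_A00mm_202_s3 : ∃ t, chk3 f_A00mm_202_s3 t 28 17 1 = true :=
  ⟨(a (b (a (b (a (b (l 16632400) (l 16637080)) (b (l 16637072) (l 16641776))) (a (b (l 16641752) (l 16646432)) (b (l 16646480) (l 16661664)))) (b (a (b (l 16652304) (l 16657032)) (b (l 16657160) (l 16661912))) (a (b (l 16661752) (l 16666480)) (b (l 532264719) (l 532265999))))) (a (b (a (b (l 16661584) (l 16666248)) (b (l 16666352) (l 532343823))) (a (c (l 16674696) (l 16671664)) (c (l 532401935) (l 532289295)))) (b (a (b (l 16671192) (l 532306447)) (b (l 532267535) (l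 532269327))) (a (c (l 532361743) (l 532255759)) (b (l 532271631) (l 532273423)))))) (b (a (b (a (b (l 532227599) (l 532228111)) (a (l 532201999) (l 532184847))) (a (b (l 532229135) (l 532230159)) (a (l 532203279) (l 532186127)))) (b (a (a (l 532167951) (l 532151311)) (a (l 532134671) (l 532118543))) (a (a (l 532168975) (l 532151823)) (a (l 532135183) (l 532118543))))) (a (a (b (b (l 532231439) (l 532233231)) (b (l 532235023) (l 532237327))) (b (a (l 532205839) (l 532188175)) (b (l 532199183) (l 532201487)))) (a (b (a (l 532170767) (l 532153615)) (a (l 532174095) (l 532156431))) (b (a (l 532136463) (l 532119823)) (a (l 532139279) (l 532122127))))))), by decide +kernel⟩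

def k12_A00mm_202_s3 : ∃ t, chk3 f_A00mm_202_s3 t 29 17 1 = true :=
  ⟨(a (b (a (a (b (a (l 532102415) (l 532086543)) (a (l 532102415) (l 532086287))) (b (a (l 532071183) (l 532055823)) (a (l 532070415) (l 532054799)))) (a (b (a (l 532040719) (l 532025871)) (a (l 532039439) (l 532024335))) (b (a (l 532011535) (l 531997199)) (a (l 532009487) (l 531994895))))) (a (b (a (a (l 532103183) (l 532086799)) (a (l 532070671) (l 532054543))) (a (a (l 532105231) (l 532088591)) (a (l 532071951) (l 532055567)))) (a (b (a (l 532038927) (l 532023567)) (a (l 532039695) (l 532023823))) (b (a (l 532008463) (l 531993359)) (a (l 532008207) (l 531992847)))))) (a (b (a (b (a (l 532251663) (l 532238095)) (a (l 531980815) (l 532235279))) (b (a (b (l 531957263) (l 531955471)) (b (l 531944207) (l 531942415))) (a (l 532221711) (l 532208399)))) (a (b (a (l 531978767) (l 532232975)) (a (l 531977743) (l 532231439))) (b (a (l 532218895) (l 532205327))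 (a (l 532217103) (l 532203023))))) (a (b (b (a (b (l 531931663) (l 531929871)) (b (l 531919631) (l 531917583))) (a (b (l 531927823) (l 531926031)) (b (l 531915535) (l 531913743)))) (b (a (b (l 531924495) (l 531922959)) (b (l 531911695) (l 531910159))) (a (l 532189455) (l 532176399)))) (b (b (a (b (l 531907855) (l 531905551)) (b (l 531896591) (l 531894287))) (a (b (l 531903503) (l 531901455)) (a (l 531894031) (l 531888399)))) (c (b (a (l 531916559) (l 531904271)) (a (l 531915791) (l 531903247))) (b (a (l 531883023) (l 531872015)) (a (l 531876623) (l 531865359)))))))), by decide +kernel⟩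

def k13_A00mm_202_s3 : ∃ t, chk3 f_A00mm_202_s3 t 15 34 1 = true :=
  ⟨(a (a (a (a (c (b (a (l 531895567) (l 531884303)) (a (l 531894031) (l 531882511))) (b (a (l 531875855) (l 532133903)) (a (l 531868431) (l 531857935)))) (b (a (a (l 531865615) (l 531860239)) (a (l 531854607) (l 531849231))) (a (a (l 531861007) (l 531855375)) (a (l 531849999) (l 531844367))))) (a (b (a (a (l 531843855) (l 531838223)) (a (l 531832847) (l 531827215))) (a (a (l 531838991) (l 531833359)) (a (l 531827983) (l 531822351)))) (a (b (a (l 531821839) (l 531816463)) (a (l 531816975) (l 531811343))) (b (a (l 531810831) (l 531805455)) (a (l 531805711) (l 531800335)))))) (a (a (a (a (b (l 531799823) (l 531794703)) (b (l 531794447) (l 531789071))) (b (a (l 532057359) (b (l 531784719) (l 531781903))) (a (l 531783695) (l 531778063)))) (a (b (b (l 14) (a (l 531776527) (l 531770895))) (a (l 531772431) (l 531767055))) (b (b (l 14) (a (l 531765263) (l 531759887)))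 (a (l 531761423) (l 531755791))))) (a (a (b (b (l 14) (a (l 531754255) (l 531748623))) (a (l 532018703) (b (l 531746063) (l 531743247)))) (b (a (b (l 14) (l 531743247)) (l 14)) (a (b (l 531740431) (l 531737615)) (b (l 531734799) (l 531731983))))) (b (l 14) (a (a (b (l 531729167) (l 531726351)) (b (l 531723535) (l 531720719))) (a (b (l 531718159) (l 531715087)) (b (l 531712527) (l 4)))))))) (b (l 14) (b (b (l 14) (b (l 14) (l 4))) (l 4)))), by decide +kernel⟩

def k14_A00mm_202_s3 : ∃ t, chk3 f_A00mm_202_s3 t 15 35 1 = true :=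
  ⟨(a (a (a (b (a (a (a (l 531878671) (l 531873295)) (a (l 531867663) (l 531862287))) (a (a (l 531856655) (l 531851023)) (a (l 531845647) (l 531840015)))) (a (a (b (l 531872783) (l 531870991)) (b (l 531861775) (l 531859727))) (a (a (l 531852559) (l 531846927)) (a (l 531841295) (l 531835663))))) (a (b (a (a (l 531834383) (l 531828751)) (a (l 531823375) (l 531817743))) (a (a (l 531830287) (l 531824655)) (a (l 531819023) (l 531813391)))) (a (b (a (l 531812111) (l 531806479)) (a (l 531807759) (l 531802127))) (b (a (l 531801103) (l 531795471)) (a (l 531796495) (l 531790863)))))) (b (a (a (a (a (l 531789839) (l 531784207)) (a (l 531778575) (l 531772943))) (a (a (l 531767311) (l 531761935)) (a (l 531756303) (l 531750671)))) (a (a (a (l 531745039) (l 532007695)) (a (l 532002063) (b (l 531729167) (l 4)))) (l 4))) (a (a (a (a (l 531785231) (l 531779599)) (a (l 531773967) (l 531768335))) (a (a (l 531762703) (l 531756815)) (l 4)))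 (l 4)))) (l 4)), by decide +kernel⟩

def k15_A00mm_202_s3 : ∃ t, chk3 f_A00mm_202_s3 t 28 18 1 = true :=
  ⟨(a (b (a (a (b (c (l 532443663) (l 532320015)) (b (l 532649743) (l 532646671))) (b (c (l 532405775) (l 532287759)) (c (l 532404495) (l 532283151)))) (b (a (c (l 532366095) (l 532254479)) (c (l 532326927) (l 532221711))) (a (c (l 532365583) (l 532250127)) (c (l 532326927) (l 532217615))))) (a (a (b (a (l 532915471) (l 532898831)) (a (l 532900879) (l 532884495))) (b (a (l 532881679) (l 532595471)) (c (b (l 532383503) (l 16707000)) (l 532261903)))) (c (a (b (l 532356879) (l 532609295)) (b (l 532318735) (l 532571919))) (a (b (l 532240655) (l 532228367)) (b (l 532208143) (l 532195343)))))) (b (a (a (b (c (l 532288015) (l 532189199)) (c (l 532289039) (l 532185359))) (b (a (l 532212751) (l 532195087)) (a (l 532211983) (l 532194575)))) (a (b (a (l 532177679) (l 532160271)) (a (l 532177423) (l 532160527))) (b (a (l 532143119)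 (l 532125967)) (a (l 532143631) (l 532126735))))) (a (a (b (c (l 532281103) (l 532176143)) (c (l 532534543) (l 532162831))) (b (c (l 532512527) (l 532144399)) (c (l 532632079) (l 532130831)))) (a (b (b (l 532432399) (l 532425999)) (c (l 532729871) (l 532099343))) (a (b (l 532135951) (l 532121615)) (b (l 532119311) (l 532104975))))))), by decide +kernel⟩

def k16_A00mm_202_s3 : ∃ t, chk3 f_A00mm_202_s3 t 29 18 1 = true :=
  ⟨(a (a (b (b (a (c (l 532674831) (l 532599311)) (b (l 532333839) (l 532335631))) (a (a (l 532110095) (l 532093455)) (a (l 532077071) (l 532060687)))) (a (a (b (l 532102671) (l 532088591)) (b (l 532086543) (l 532072207))) (a (b (l 532070159) (l 532055823)) (b (l 532054287) (l 532039951))))) (b (b (a (a (l 532041743) (l 532025359)) (a (l 532009487) (l 531993615))) (a (a (l 532044559) (l 532028431)) (a (l 532012303) (l 531996431)))) (a (a (b (l 532038415) (l 532023823)) (b (l 532022543) (l 532007951)))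 (a (b (l 532006927) (l 531992335)) (b (l 531991567) (l 531976975)))))) (a (b (b (a (a (l 532246543) (l 532231183)) (a (b (l 531947791) (l 531947791)) (b (l 531933455) (l 531932943)))) (a (a (l 532249103) (b (l 531963919) (l 531965199))) (a (b (l 531948303) (l 531949839)) (b (l 531933199) (l 531934223))))) (b (a (a (l 532244495) (l 532229391)) (a (b (l 531949071) (l 531942671)) (b (l 531933967) (l 531927823)))) (a (a (l 531961615) (l 531946255)) (a (l 531931151) (l 531916303))))) (b (b (a (a (b (l 531919375) (l 531918607)) (b (l 531905807) (l 531904783))) (a (b (l 531892751) (l 531891471)) (a (l 531883023) (l 531877135)))) (a (a (b (l 531918351) (l 531918863)) (b (l 531904015) (l 531903759))) (a (b (l 531890191) (l 531889423)) (b (l 531877391) (l 532145423))))) (b (b (a (a (l 531919375) (l 531904527)) (a (b (l 531889423) (l 531889423)) (c (l 531901455) (l 531848463)))) (a (a (l 531913231) (l 531898895)) (a (l 531884559)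 (l 531870479)))) (a (a (l 532169999) (l 532155407)) (a (b (l 531876623) (l 4)) (l 4))))))), by decide +kernel⟩

def k17_A00mm_202_s3 : ∃ t, chk3 f_A00mm_202_s3 t 15 18 1 = true :=
  ⟨(a (a (a (b (b (a (a (l 531868431) (l 532125455)) (a (b (l 531846671) (l 531844879)) (b (l 531835407) (l 531833359)))) (a (a (l 531865103) (l 531853583)) (a (l 532110863) (a (l 531833871) (l 531828239))))) (b (b (a (a (a (l 531865615) (l 531859983)) (l 531851279)) (l 4)) (l 4)) (l 4))) (b (a (b (a (b (l 531824143) (l 531822095)) (a (l 531814927) (l 531809295))) (a (a (l 531822607) (l 531816975)) (l 4))) (a (b (a (l 532071951) (b (l 531798799) (l 4))) (l 4)) (b (b (l 532058383) (l 4)) (l 4)))) (l 4))) (l 4)) (l 4)), by decide +kernel⟩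

def k18_A00mm_202_s3 : ∃ t, chk3 f_A00mm_202_s3 t 56 19 1 = true :=
  ⟨(a (b (c (a (b (b (l 16706280) (l 16710624)) (b (l 16714968) (l 16724568))) (b (b (l 16711376) (l 16721000)) (b (l 16725392) (l 532326415)))) (a (b (l 532283151) (l 532539151)) (b (l 532250895) (l 532506895)))) (a (b (c (a (l 532348687) (l 532332559)) (b (l 16727904) (l 16732448))) (c (a (l 532319503) (l 532303887)) (c (l 532259343) (l 532221967)))) (c (b (a (l 532315407) (l 532297487)) (a (l 532287247) (l 532269327))) (b (a (l 532232719) (l 532216079)) (a (l 532217615) (l 532200975)))))) (b (c (a (b (l 532588047) (a (l 532305167) (l 532286479))) (b (a (l 532291855) (l 532273679)) (a (l 532268047) (l 532249871)))) (a (b (l 532217103) (l 532204559)) (b (l 532183567) (l 532171023)))) (b (a (c (a (l 532279055) (l 532260367)) (l 532190735)) (c (a (l 532241935) (l 532223759)) (l 532425487))) (a (c (a (l 532250895) (l 532232463)) (l 532175375)) (c (c (l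 532488207) (l 532189199)) (a (l 532150287) (l 532133647))))))), by decide +kernel⟩

def k19_A00mm_202_s3 : ∃ t, chk3 f_A00mm_202_s3 t 57 19 1 = true :=
  ⟨(b (a (a (b (c (l 532648719) (l 532150287)) (c (a (l 532231695) (l 532213519)) (l 532406287))) (b (c (a (l 532219151) (l 532201487)) (l 532385807)) (c (a (l 532195599) (l 532177679)) (l 532373263)))) (a (b (c (a (l 532183567) (l 532165903)) (l 532353551)) (c (a (l 532160015) (l 532142351)) (l 532340495))) (b (a (l 532373775) (l 532356879)) (c (a (l 532124943) (l 532107535)) (l 532308239))))) (a (a (b (c (a (l 532205583) (l 532187407)) (a (l 532132111) (l 532115471))) (c (a (l 532177679) (l 532159503)) (a (l 532116751) (l 532100111)))) (b (c (a (l 532169487) (l 532151567)) (a (l 532099087) (l 532082703))) (b (a (l 532118287) (l 532101135)) (c (a (l 532134159) (l 532116239)) (l 532339471))))) (a (b (c (a (l 532133903) (l 532116239)) (a (l 532066319) (l 532049935))) (c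 (a (l 532105999) (l 532088335)) (a (l 532050703) (l 532034319)))) (b (c (a (l 532098831) (l 532081423)) (l 532495375)) (c (a (l 532070671) (l 532053519)) (a (l 532018191) (l 532002063))))))), by decide +kernel⟩

def k20_A00mm_202_s3 : ∃ t, chk3 f_A00mm_202_s3 t 29 19 1 = true :=
  ⟨(a (a (a (a (b (b (l 532340495) (l 532455951)) (b (c (l 532064271) (l 532001807)) (c (l 532036111) (l 531985935)))) (b (b (l 532324111) (l 532305423)) (b (c (l 532047119) (l 531985679)) (c (l 532018959) (l 531969807))))) (b (b (a (l 532576015) (l 532291599)) (a (c (l 532056335) (l 531984655)) (c (l 532039695) (l 531969039)))) (b (c (a (l 532030223) (l 532013327)) (a (l 531970063) (l 531954191))) (l 4)))) (b (a (b (a (l 532275471) (l 532259599)) (a (c (l 532023055) (l 531953679)) (b (l 531976975) (l 531966991)))) (b (a (l 532243727) (l 532228111)) (a (c (l 531989775) (l 531923215)) (b (l 531945487) (l 4))))) (a (b (a (c (l 531996687) (l 531938575))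 (l 4)) (l 4)) (l 4)))) (b (a (a (b (a (l 532212751) (l 532197391)) (a (b (l 531929871) (l 4)) (l 4))) (b (a (l 532182287) (l 532167183)) (l 4))) (l 4)) (l 4))), by decide +kernel⟩

def k21_A00mm_202_s3 : ∃ t, chk3 f_A00mm_202_s3 t 15 19 1 = true :=
  ⟨(l 4), by decide +kernel⟩

def k22_A00mm_202_s3 : ∃ t, chk3 f_A00mm_202_s3 t 12 10 1 = true :=
  ⟨(a (a (b (b (l 16641768) (l 16658832)) (b (l 16676808) (l 16694744))) (b (b (b (l 16613024) (l 16621208)) (c (l 16676224) (l 16676000))) (b (c (l 16694320) (l 16651784)) (c (l 16712368) (l 16711392))))) (b (a (b (b (l 16672896) (l 16681080)) (b (l 16689576) (l 16677440))) (c (b (b (l 16649616) (l 16678656)) (b (l 16687112) (l 16695984))) (b (b (l 16649312) (l 16657688)) (b (l 16687248) (l 16696072))))) (a (b (b (l 16686424) (c (l 16674624) (l 16674248))) (b (l 16704296) (c (l 16692552) (l 16691864)))) (b (a (b (l 16679272) (l 16709200)) (b (l 16709696) (c (l 16697792) (l 16697640))))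 (a (b (l 16718112) (l 16726968)) (c (b (l 16706760) (l 16715672)) (b (l 16706496) (l 16715304)))))))), by decide +kernel⟩

def k23_A00mm_202_s3 : ∃ t, chk3 f_A00mm_202_s3 t 26 10 1 = true :=
  ⟨(b (a (a (b (b (l 16684632) (c (l 16671960) (l 16671912))) (c (b (l 16680440) (l 16689328)) (b (l 16680552) (l 16689416)))) (b (c (b (l 16673640) (l 16702720)) (b (l 16673152) (l 16681616))) (c (b (l 16700728) (l 532785679)) (b (l 16711264) (l 16709680))))) (a (b (c (b (l 16694048) (l 532762383)) (b (l 16693464) (l 16701976))) (b (c (l 532740367) (l 532470031)) (c (l 532471567) (l 532470799)))) (b (c (b (b (l 16691616) (l 16695680)) (c (l 16712456) (l 16712296))) (b (b (l 16690848) (l 16695120)) (l 532704783))) (b (c (b (l 16718728) (l 16723104)) (l 532421391)) (c (l 532693263) (l 532420623)))))) (a (b (b (a (c (l 16698392) (l 16698376)) (c (l 532530447) (l 16718672))) (a (c (l 16728384) (l 16707296)) (c (l 532546831) (l 532538639))))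 (a (c (b (l 16726872) (l 16735776)) (b (l 16726664) (l 16735488))) (a (b (l 532569103) (l 532586511)) (b (l 532545039) (l 532562191))))) (b (b (a (c (l 532484367) (l 532478991)) (c (l 532705295) (l 532428559))) (a (c (l 532499983) (l 532488975)) (c (l 532451855) (l 532438287)))) (a (b (c (l 532518159) (l 532500495)) (c (l 532538639) (l 532513551))) (b (c (l 532469519) (l 532449551)) (c (l 532489487) (l 532462095))))))), by decide +kernel⟩

def k24_A00mm_202_s3 : ∃ t, chk3 f_A00mm_202_s3 t 27 20 1 = true :=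
  ⟨(a (b (a (c (b (b (l 16701808) (l 16716440)) (b (l 16715360) (l 532404239))) (b (c (l 16713856) (l 16713496)) (b (l 16720168) (l 16724536)))) (a (b (c (l 532425487) (l 532379151)) (c (l 532384271) (l 532355855))) (b (c (l 532404495) (l 532355343)) (c (l 532632847) (l 532332559))))) (a (b (c (a (l 532393231) (l 532370191)) (a (l 532384527) (l 532359695))) (c (a (l 532388623) (l 532364047)) (l 532637967))) (b (c (a (l 532347151) (l 532324111)) (a (l 532334607) (l 532309519))) (c (a (l 532339215) (l 532313871)) (a (l 532330767) (l 532304399)))))) (b (a (c (b (a (b (l 16719976) (l 16729496)) (b (l 16730496) (l 532350479))) (a (b (l 16733808) (l 532333071)) (b (l 532331535) (l 532311311)))) (b (a (l 532599311) (l 532842511)) (a (l 532308751) (b (l 532290063) (l 532278543))))) (c (b (a (b (l 532344079) (l 532326415)) (c (l 532792079) (l 532295695))) (a (b (l 532308239) (l 532288783)) (b (a (l 532289807) (l 532276751)) (l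 532533263)))) (b (a (b (l 16735200) (l 532274959)) (c (l 532267535) (l 532237583))) (a (b (l 532264719) (l 532253711)) (b (l 532238351) (l 532228111)))))) (a (a (b (c (l 532569615) (l 532284687)) (c (l 532288015) (l 532277519))) (c (b (b (l 532289807) (l 532269583)) (l 532530191)) (b (l 532259855) (l 532250639)))) (b (c (b (a (l 532268303) (a (l 532251151) (l 532239375))) (a (l 532246031) (l 532491791))) (a (b (l 532241935) (l 532229391)) (b (l 532216847) (l 532204303)))) (c (b (a (l 532233743) (l 532207375)) (a (l 532236815) (l 532209679))) (a (l 532223503) (b (l 532195343) (l 532196879)))))))), by decide +kernel⟩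

def k25_A00mm_202_s3 : ∃ t, chk3 f_A00mm_202_s3 t 27 21 1 = true :=
  ⟨(a (a (a (b (c (l 532675855) (l 532395023)) (b (l 532421135) (l 532974351))) (b (b (l 532637967) (l 532649999)) (b (l 532395535) (l 532948495)))) (b (a (c (b (l 532350223) (l 532364559)) (l 532342543)) (c (b (l 532324623) (l 532338703)) (l 532584463))) (c (b (l 532904975) (l 532655887)) (b (l 532344591) (l 532356623))))) (a (b (c (b (a (l 532298511) (l 532272143)) (a (l 532312335) (l 532285711))) (b (a (l 532284687) (l 532257551)) (l 532816655))) (b (a (l 532853519) (a (l 532296463) (l 532282895))) (l 4))) (b (c (a (b (l 532245263) (l 532258575)) (b (l 532217871) (l 532231183))) (a (b (l 532230159) (l 532238863)) (b (l 532202511) (l 532210959)))) (l 4)))), by decide +kernel⟩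

def k26_A00mm_202_s3 : ∃ t, chk3 f_A00mm_202_s3 t 56 20 1 = true :=
  ⟨(c (a (b (b (a (a (l 532556559) (l 532273167)) (a (l 532256783) (l 532239375))) (a (c (a (l 532264207) (l 532250127)) (a (l 532244495) (l 532230159))) (a (c (l 532234511) (l 532214799)) (l 532476175)))) (a (b (a (b (l 532227087) (l 532206863)) (b (l 532213775) (b (l 532199695) (l 532189711)))) (b (b (l 532184079) (l 532178959)) (l 532181775))) (a (b (b (l 532199439) (c (l 532187151) (l 532176143))) (b (b (a (l 532169999) (l 532164111)) (l 532159759)) (l 532160783))) (b (a (b (l 532187407) (l 532170511)) (l 532169999)) (b (c (a (b (l 532162831) (l 532555535)) (l 532416783)) (a (l 532418831) (l 532141071))) (a (l 532150287) (l 4))))))) (a (b (b (c (l 532224015) (l 532198671)) (c (l 532189199) (l 532170511))) (b (c (l 532152847) (l 532141071)) (b (b (l 532125711) (b (l 532119055) (l 4))) (l 4)))) (b (b (a (l 532184079) (l 532165903)) (c (l 532152335)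 (l 532134415))) (b (c (l 532115983) (l 532104975)) (l 4))))) (a (c (a (b (b (l 532238863) (l 532753423)) (b (a (l 532198415) (l 532722191)) (b (l 532175119) (l 532172047)))) (a (b (b (l 532215567) (l 532194063)) (b (b (l 532177167) (l 532165135)) (b (b (l 532161551) (l 532150031)) (l 532151055)))) (b (b (l 532198671) (l 532177679)) (b (a (l 532159503) (l 532151055)) (b (l 532406799) (a (l 532140559) (l 4))))))) (b (a (b (l 532208911) (l 532194575)) (b (l 532178191) (l 532432911))) (b (a (b (l 532182799) (l 532443407)) (a (l 532155919) (l 532410895))) (a (l 532166415) (b (a (l 532147727) (l 532131087)) (a (l 532144655) (l 532126991))))))) (a (b (b (l 532158991) (l 532141583)) (b (l 532123407) (a (b (c (l 532121103) (l 532114703)) (l 4)) (l 4)))) (b (b (l 532393743) (l 532107791)) (b (l 532089359) (l 4)))))), by decide +kernel⟩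

def k27_A00mm_202_s3 : ∃ t, chk3 f_A00mm_202_s3 t 57 20 1 = true :=
  ⟨(b (a (a (a (b (c (l 532147727) (l 532100367)) (c (l 532116239) (l 532082703))) (b (b (l 532112655) (l 532100623)) (c (l 532098319) (l 532066063)))) (a (b (c (b (l 532119311) (l 532103951)) (l 532067087)) (c (l 532080143) (l 532049423))) (b (c (b (l 532101391) (l 532086031)) (b (l 532054799) (l 532046095))) (c (l 532062479) (l 532032783))))) (b (b (c (a (a (l 532083727) (l 532066063)) (a (l 532048399) (l 4))) (a (a (l 532038159) (l 532021775)) (l 531997199))) (a (a (c (l 532068367) (l 532029711)) (l 4)) (l 4))) (l 4))) (a (a (a (b (b (l 532079887) (l 4)) (l 4)) (l 4)) (l 4)) (l 4))), by decide +kernel⟩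

def k28_A00mm_202_s3 : ∃ t, chk3 f_A00mm_202_s3 t 29 20 1 = true :=
  ⟨(l 4), by decide +kernel⟩

def k29_A00mm_202_s3 : ∃ t, chk3 f_A00mm_202_s3 t 15 20 1 = true :=
  ⟨(l 4), by decide +kernel⟩

def k30_A00mm_202_s3 : ∃ t, chk3 f_A00mm_202_s3 t 7 21 1 = true :=
  ⟨(a (a (a (a (a (b (b (c (l 532189967) (l 532174351)) (l 4)) (l 4)) (l 4)) (l 4)) (l 4)) (l 4)) (l 4)), by decide +kernel⟩

def k31_A00mm_202_s3 : ∃ t, chk3 f_A00mm_202_s3 t 3 11 1 = true :=
  ⟨(a (a (a (b (a (b (b (l 16666104) (l 16674896)) (b (l 16683600) (l 16692216))) (b (b (l 16683160) (l 16733848)) (b (l 16700568) (l 16730112)))) (a (b (b (l 16700736) (l 16709128)) (b (l 16717384) (l 16746472))) (b (b (l 16738576) (l 16746920)) (a (l 533102351) (l 533054735))))) (a (b (a (b (l 533103887) (l 532885519)) (b (l 533327631) (l 532839695))) (b (a (l 532943631) (l 532896015)) (c (l 533275407) (l 533226511)))) (a (b (b (b (l 16735760) (l 532756751)) (l 533329679))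 (b (l 532848143) (a (l 532920847) (l 532896271)))) (b (b (b (c (l 16734976) (l 16745016)) (l 533246991)) (b (l 532733199) (l 532758031))) (l 532560143))))) (a (b (a (a (b (c (c (l 533487631) (l 532930063)) (c (l 532911119) (l 533162255))) (b (b (l 534021647) (l 532691215)) (l 532978191))) (a (b (c (l 532903439) (l 532866575)) (b (l 533722639) (c (l 533509135) (l 532106255)))) (b (b (l 532581135) (l 532870415)) (b (a (l 532630287) (l 532617999)) (c (l 533485071) (l 533153295)))))) (b (a (b (l 532812559) (l 532564495)) (b (c (l 532512015) (l 532476175)) (l 532782351))) (a (b (l 532586255) (c (l 532910607) (l 532846095))) (b (l 532535311) (l 4))))) (a (a (l 532241679) (a (l 532740623) (b (b (c (l 533514255) (l 532369423)) (l 4)) (l 4)))) (l 4))) (b (b (b (a (a (c (a (l 532474127) (l 532448271)) (l 532423695)) (c (a (l 532422415) (l 4)) (l 532638735))) (l 4)) (a (a (a (l 532475151) (l 4)) (l 4)) (l 4))) (l 4)) (l 4)))) (l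 4)), by decide +kernel⟩

def k32_A00mm_202_s3 : ∃ t, chk3 f_A00mm_202_s3 t 1 3 1 = true :=
  ⟨(b (a (a (b (a (b (l 6) (l 16600552)) (b (l 16610536) (l 16678744))) (a (b (l 16623120) (l 16644376)) (b (l 16713200) (a (l 16671464) (l 16736584))))) (a (b (a (b (l 16558728) (l 16670416)) (b (l 16666688) (b (l 16604312) (l 16659744)))) (a (b (l 16738032) (b (l 16714824) (l 16769016))) (a (b (l 16756920) (b (l 16734192) (l 16767768))) (b (l 533803791) (l 533829647))))) (b (b (a (b (l 16643232) (l 533613839)) (b (a (l 16664464) (l 533335567)) (a (l 533491727) (l 533406479)))) (a (b (l 16714792) (l 533666319)) (b (l 532683279) (l 532972815)))) (a (b (l 533693711) (l 533722383)) (a (l 533593359) (b (l 533497615) (l 4))))))) (a (a (b (a (b (a (a (b (l 533266959) (l 533339151)) (c (l 533260815) (l 533230607))) (a (b (l 533171983) (c (l 533252879) (l 533232399))) (l 532889615))) (a (b (l 533364751) (l 533386511)) (b (c (l 533555983)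 (b (l 533267983) (l 533293327))) (l 4)))) (b (a (b (l 532779791) (l 533117199)) (b (c (a (l 532990479) (l 4)) (l 532662543)) (l 4))) (l 4))) (l 4)) (l 4)) (l 4))) (a (a (l 2) (a (l 2) (a (l 2) (l 4)))) (l 4))), by decide +kernel⟩

theorem t33_A00mm_202_s3 : ∃ t, chk3 f_A00mm_202_s3 t 28 20 1 = true := ex3_a k26_A00mm_202_s3 k27_A00mm_202_s3

theorem t34_A00mm_202_s3 : ∃ t, chk3 f_A00mm_202_s3 t 14 20 1 = true := ex3_a t33_A00mm_202_s3 k28_A00mm_202_s3

theorem t35_A00mm_202_s3 : ∃ t, chk3 f_A00mm_202_s3 t 7 20 1 = true := ex3_a t34_A00mm_202_s3 k29_A00mm_202_s3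

theorem t36_A00mm_202_s3 : ∃ t, chk3 f_A00mm_202_s3 t 7 10 1 = true := ex3_b t35_A00mm_202_s3 k30_A00mm_202_s3

theorem t37_A00mm_202_s3 : ∃ t, chk3 f_A00mm_202_s3 t 27 10 1 = true := ex3_b k24_A00mm_202_s3 k25_A00mm_202_s3

theorem t38_A00mm_202_s3 : ∃ t, chk3 f_A00mm_202_s3 t 13 10 1 = true := ex3_a k23_A00mm_202_s3 t37_A00mm_202_s3

theorem t39_A00mm_202_s3 : ∃ t, chk3 f_A00mm_202_s3 t 6 10 1 = true := ex3_a k22_A00mm_202_s3 t38_A00mm_202_s3

theorem t40_A00mm_202_s3 : ∃ t, chk3 f_A00mm_202_s3 t 3 10 1 = true := ex3_a t39_A00mm_202_s3 t36_A00mm_202_s3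

theorem t41_A00mm_202_s3 : ∃ t, chk3 f_A00mm_202_s3 t 3 5 1 = true := ex3_b t40_A00mm_202_s3 k31_A00mm_202_s3

theorem t42_A00mm_202_s3 : ∃ t, chk3 f_A00mm_202_s3 t 28 19 1 = true := ex3_a k18_A00mm_202_s3 k19_A00mm_202_s3

theorem t43_A00mm_202_s3 : ∃ t, chk3 f_A00mm_202_s3 t 14 19 1 = true := ex3_a t42_A00mm_202_s3 k20_A00mm_202_s3

theorem t44_A00mm_202_s3 : ∃ t, chk3 f_A00mm_202_s3 t 7 19 1 = true := ex3_a t43_A00mm_202_s3 k21_A00mm_202_s3

theorem t45_A00mm_202_s3 : ∃ t, chk3 f_A00mm_202_s3 t 14 18 1 = true := ex3_a k15_A00mm_202_s3 k16_A00mm_202_s3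

theorem t46_A00mm_202_s3 : ∃ t, chk3 f_A00mm_202_s3 t 7 18 1 = true := ex3_a t45_A00mm_202_s3 k17_A00mm_202_s3

theorem t47_A00mm_202_s3 : ∃ t, chk3 f_A00mm_202_s3 t 7 9 1 = true := ex3_b t46_A00mm_202_s3 t44_A00mm_202_s3

theorem t48_A00mm_202_s3 : ∃ t, chk3 f_A00mm_202_s3 t 15 17 1 = true := ex3_b k13_A00mm_202_s3 k14_A00mm_202_s3

theorem t49_A00mm_202_s3 : ∃ t, chk3 f_A00mm_202_s3 t 14 17 1 = true := ex3_a k11_A00mm_202_s3 k12_A00mm_202_s3

theorem t50_A00mm_202_s3 : ∃ t, chk3 f_A00mm_202_s3 t 7 17 1 = true := ex3_a t49_A00mm_202_s3 t48_A00mm_202_s3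

theorem t51_A00mm_202_s3 : ∃ t, chk3 f_A00mm_202_s3 t 14 16 1 = true := ex3_a k8_A00mm_202_s3 k9_A00mm_202_s3

theorem t52_A00mm_202_s3 : ∃ t, chk3 f_A00mm_202_s3 t 7 16 1 = true := ex3_a t51_A00mm_202_s3 k10_A00mm_202_s3

theorem t53_A00mm_202_s3 : ∃ t, chk3 f_A00mm_202_s3 t 7 8 1 = true := ex3_b t52_A00mm_202_s3 t50_A00mm_202_s3

theorem t54_A00mm_202_s3 : ∃ t, chk3 f_A00mm_202_s3 t 7 4 1 = true := ex3_b t53_A00mm_202_s3 t47_A00mm_202_s3

theorem t55_A00mm_202_s3 : ∃ t, chk3 f_A00mm_202_s3 t 27 9 1 = true := ex3_b k6_A00mm_202_s3 k7_A00mm_202_s3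

theorem t56_A00mm_202_s3 : ∃ t, chk3 f_A00mm_202_s3 t 13 9 1 = true := ex3_a k5_A00mm_202_s3 t55_A00mm_202_s3

theorem t57_A00mm_202_s3 : ∃ t, chk3 f_A00mm_202_s3 t 6 9 1 = true := ex3_a k4_A00mm_202_s3 t56_A00mm_202_s3

theorem t58_A00mm_202_s3 : ∃ t, chk3 f_A00mm_202_s3 t 13 8 1 = true := ex3_a k2_A00mm_202_s3 k3_A00mm_202_s3

theorem t59_A00mm_202_s3 : ∃ t, chk3 f_A00mm_202_s3 t 6 8 1 = true := ex3_a k1_A00mm_202_s3 t58_A00mm_202_s3

theorem t60_A00mm_202_s3 : ∃ t, chk3 f_A00mm_202_s3 t 6 4 1 = true := ex3_b t59_A00mm_202_s3 t57_A00mm_202_s3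

theorem t61_A00mm_202_s3 : ∃ t, chk3 f_A00mm_202_s3 t 3 4 1 = true := ex3_a t60_A00mm_202_s3 t54_A00mm_202_s3

theorem t62_A00mm_202_s3 : ∃ t, chk3 f_A00mm_202_s3 t 3 2 1 = true := ex3_b t61_A00mm_202_s3 t41_A00mm_202_s3

theorem t63_A00mm_202_s3 : ∃ t, chk3 f_A00mm_202_s3 t 1 2 1 = true := ex3_a k0_A00mm_202_s3 t62_A00mm_202_s3

theorem t64_A00mm_202_s3 : ∃ t, chk3 f_A00mm_202_s3 t 1 1 1 = true := ex3_b t63_A00mm_202_s3 k32_A00mm_202_s3

theorem c_A00mm_202_s3 : CertF 0 536870912 0 536870912 818728140 40265320 true false false .pp 2 0 2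
    ndB0q2 ndB0q0 pcB2 cut_A00mm_202_s3 xt_A00mm_202_s3 :=
  certF0 (fam := true) (s1 := false) (s2 := false) (a := 2) (b := 0) (c := 2) (cn := .pp) (n1 := ndB0q2) (n2 := ndB0q0) (pc := pcB2) (cut := cut_A00mm_202_s3) (xt := xt_A00mm_202_s3) (P1 := 0) (W1 := 536870912) (P2 := 0) (W2 := 536870912) (P3 := 818728140) (W3 := 40265320)
    rfl t64_A00mm_202_s3

theorem s_A00mm_202_s3 {κ x : ℝ} (hκ : κ * h0 = ken x) (hx : ((818728140 : ℕ) : ℝ) / S ≤ x)
    (hx' : x ≤ (((818728140 : ℕ) : ℝ) + (40265320 : ℕ)) / S)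
    (H : CutA (VFD κ) PP tK tL pcB (Cut.of [[⟨0, 1, 0, 67108864⟩, ⟨1, 0, 0, 67108864⟩, ⟨2, 1, 0, 67108864⟩]]) 2 0 2 0 0 (sgb false) (sgb false) x) :
    AltA (VFD κ) PP tK tL pcB [⟨4, 0, 0, 2845415833⟩] 2 0 2 0 0 (sgb false) (sgb false) x :=
  strip_altAD (m := 2845415833) false rfl hκ (SH.κ0 hκ (SH.hx1 hx).le (SH.hx2 hx').le) (SH.hx1 hx).le (SH.hx2 hx') (covB02).cov (covB00).cov hx hx' c_A00mm_202_s3 H ((okx hx hx').extA (T := tt) (sideB hx hx') hκ rfl rfl (.O 2 false) (.O 0 false) (Or.inl rfl))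

noncomputable def cut_A00mm_203_s1 : Cut := Cut.of [[⟨4, 0, 0, 1449551462⟩]]

noncomputable def f_A00mm_203_s1 : ℕ → ℕ → ℕ → ℕ → Bool := onCell 0 536870912 0 536870912 818728140 40265320
    (rowF 0 true false false .up 2 0 3 (qsf 0 536870912 0 536870912 3) ndB0q2 ndB0q0 pcB3 cut_A00mm_203_s1 Ext.none)

def k0_A00mm_203_s1 : ∃ t, chk3 f_A00mm_203_s1 t 1 1 1 = true :=
  ⟨(l 6), by decide +kernel⟩

theorem c_A00mm_203_s1 : CertF 0 536870912 0 536870912 818728140 40265320 true false false .up 2 0 3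
    ndB0q2 ndB0q0 pcB3 cut_A00mm_203_s1 Ext.none :=
  certF0 (fam := true) (s1 := false) (s2 := false) (a := 2) (b := 0) (c := 3) (cn := .up) (n1 := ndB0q2) (n2 := ndB0q0) (pc := pcB3) (cut := cut_A00mm_203_s1) (xt := Ext.none) (P1 := 0) (W1 := 536870912) (P2 := 0) (W2 := 536870912) (P3 := 818728140) (W3 := 40265320)
    rfl k0_A00mm_203_s1

theorem s_A00mm_203_s1 {κ x : ℝ} (hκ : κ * h0 = ken x) (hx : ((818728140 : ℕ) : ℝ) / S ≤ x)
    (hx' : x ≤ (((818728140 : ℕ) : ℝ) + (40265320 : ℕ)) / S) :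
    AltA (VFD κ) PP tK tL pcB [⟨3, 0, 0, 1449551462⟩] 2 0 3 0 0 (sgb false) (sgb false) x :=
  strip_altAD (m := 1449551462) true rfl hκ (SH.κ0 hκ (SH.hx1 hx).le (SH.hx2 hx').le) (SH.hx1 hx).le (SH.hx2 hx') (covB02).cov (covB00).cov hx hx' c_A00mm_203_s1 cutA_nil (noExt_A)

noncomputable def cut_A00mm_203_s3 : Cut := Cut.of [[⟨3, 0, 0, 2845415833⟩]]

noncomputable def xt_A00mm_203_s3 : Ext := strExt dd true false false .u2 .u0m .s2m .up 2 0 3 rfl rfl gl3 vv ndB0q2 ndB0q0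

noncomputable def f_A00mm_203_s3 : ℕ → ℕ → ℕ → ℕ → Bool := onCell 0 536870912 1610612736 536870912 818728140 40265320
    (rowF 1 true false false .up 2 0 3 (qsf 0 536870912 0 536870912 3) ndB0q2 ndB0q0 pcB3 cut_A00mm_203_s3 xt_A00mm_203_s3)

def k0_A00mm_203_s3 : ∃ t, chk3 f_A00mm_203_s3 t 1 1 1 = true :=
  ⟨(a (b (b (a (b (a (b (l 16629720) (a (l 16649224) (l 16669176))) (a (b (l 16664736) (b (l 16686080) (l 16698928))) (b (a (l 16685640) (l 16743360)) (b (l 16714608) (a (l 16719480) (l 16735512)))))) (a (b (a (l 16675000) (l 16736320)) (a (l 16700432) (b (l 16713464) (l 16726800)))) (a (b (b (l 16711232) (l 16744768)) (b (b (l 16733600) (l 16761440)) (l 533838095))) (b (a (b (l 16731968) (c (l 16766032) (l 16765632))) (b (l 533627151) (l 534057487))) (b (a (a (b (l 16751000) (l 16758192)) (b (l 16769608) (l 533368847))) (a (l 533371663) (l 533375503))) (a (l 533549839) (b (a (l 533323791) (l 4)) (l 4)))))))) (b (a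 (a (b (a (b (l 16710408) (l 16693664)) (b (l 533600271) (l 532861199))) (b (a (l 16759976) (b (l 533433103) (l 533703695))) (l 533695503))) (b (a (b (l 533280271) (l 533618703)) (l 533522447)) (b (a (c (l 533682191) (l 533672975)) (l 533612815)) (a (a (l 533680911) (l 4)) (l 4))))) (a (b (a (l 533455631) (l 4)) (l 4)) (l 4))) (a (a (b (a (l 533591055) (l 533599247)) (l 4)) (l 4)) (l 4)))) (a (b (a (b (a (b (l 16720296) (l 16732784)) (a (l 534433039) (l 534310159))) (l 2)) (b (a (l 534059023) (a (l 533764367) (l 4))) (l 2))) (l 2)) (l 4))) (l 2)) (b (l 4) (l 2))), by decide +kernel⟩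

theorem c_A00mm_203_s3 : CertF 0 536870912 0 536870912 818728140 40265320 true false false .up 2 0 3
    ndB0q2 ndB0q0 pcB3 cut_A00mm_203_s3 xt_A00mm_203_s3 :=
  certF1 (fam := true) (s1 := false) (s2 := false) (a := 2) (b := 0) (c := 3) (cn := .up) (n1 := ndB0q2) (n2 := ndB0q0) (pc := pcB3) (cut := cut_A00mm_203_s3) (xt := xt_A00mm_203_s3) (P1 := 0) (W1 := 536870912) (P2 := 0) (W2 := 536870912) (P3 := 818728140) (W3 := 40265320)
    rfl (fun _ => rfl) k0_A00mm_203_s3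

theorem s_A00mm_203_s3 {κ x : ℝ} (hκ : κ * h0 = ken x) (hx : ((818728140 : ℕ) : ℝ) / S ≤ x)
    (hx' : x ≤ (((818728140 : ℕ) : ℝ) + (40265320 : ℕ)) / S) :
    AltA (VFD κ) PP tK tL pcB [⟨4, 0, 0, 2845415833⟩] 2 0 3 0 0 (sgb false) (sgb false) x :=
  strip_altAD (m := 2845415833) false rfl hκ (SH.κ0 hκ (SH.hx1 hx).le (SH.hx2 hx').le) (SH.hx1 hx).le (SH.hx2 hx') (covB02).cov (covB00).cov hx hx' c_A00mm_203_s3 cutA_nil ((okx hx hx').extA (T := tt) (sideB hx hx') hκ rfl rfl (.O 2 false) (.O 0 false) (Or.inr rfl))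

noncomputable def cut_A00mm_213_s1 : Cut := Cut.of [[⟨4, 0, 0, 1449551462⟩]]

noncomputable def f_A00mm_213_s1 : ℕ → ℕ → ℕ → ℕ → Bool := onCell 0 536870912 536870912 536870912 818728140 40265320
    (rowF 0 true false false .pnn 2 1 3 (qsf 0 536870912 536870912 536870912 3) ndB0q2 ndB0q1 pcB3 cut_A00mm_213_s1 Ext.none)

def k0_A00mm_213_s1 : ∃ t, chk3 f_A00mm_213_s1 t 1 1 1 = true :=
  ⟨(l 6), by decide +kernel⟩

theorem c_A00mm_213_s1 : CertF 0 536870912 536870912 536870912 818728140 40265320 true false false .pnn 2 1 3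
    ndB0q2 ndB0q1 pcB3 cut_A00mm_213_s1 Ext.none :=
  certF0 (fam := true) (s1 := false) (s2 := false) (a := 2) (b := 1) (c := 3) (cn := .pnn) (n1 := ndB0q2) (n2 := ndB0q1) (pc := pcB3) (cut := cut_A00mm_213_s1) (xt := Ext.none) (P1 := 0) (W1 := 536870912) (P2 := 536870912) (W2 := 536870912) (P3 := 818728140) (W3 := 40265320)
    rfl k0_A00mm_213_s1

theorem s_A00mm_213_s1 {κ x : ℝ} (hκ : κ * h0 = ken x) (hx : ((818728140 : ℕ) : ℝ) / S ≤ x)
    (hx' : x ≤ (((818728140 : ℕ) : ℝ) + (40265320 : ℕ)) / S) :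
    AltA (VFD κ) PP tK tL pcB [⟨3, 0, 0, 1449551462⟩] 2 1 3 0 0 (sgb false) (sgb false) x :=
  strip_altAD (m := 1449551462) true rfl hκ (SH.κ0 hκ (SH.hx1 hx).le (SH.hx2 hx').le) (SH.hx1 hx).le (SH.hx2 hx') (covB02).cov (covB01).cov hx hx' c_A00mm_213_s1 cutA_nil (noExt_A)

noncomputable def cut_A00mm_213_s3 : Cut := Cut.of [[⟨3, 0, 0, 2845415833⟩]]

noncomputable def xt_A00mm_213_s3 : Ext := strExt dd true false false .u2 .u0m .s2m .pnn 2 1 3 rfl rfl gl3 vv ndB0q2 ndB0q1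

noncomputable def f_A00mm_213_s3 : ℕ → ℕ → ℕ → ℕ → Bool := onCell 0 536870912 536870912 536870912 818728140 40265320
    (rowF 0 true false false .pnn 2 1 3 (qsf 0 536870912 536870912 536870912 3) ndB0q2 ndB0q1 pcB3 cut_A00mm_213_s3 xt_A00mm_213_s3)

def k0_A00mm_213_s3 : ∃ t, chk3 f_A00mm_213_s3 t 1 1 1 = true :=
  ⟨(a (b (b (a (b (a (b (b (a (l 16742632) (a (l 534551055) (l 534523407))) (l 534601743)) (l 534593807)) (b (a (b (l 534249743) (l 4)) (l 4)) (l 4))) (a (b (l 534594319) (l 4)) (l 4))) (l 4)) (l 4)) (l 4)) (l 4)), by decide +kernel⟩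

theorem c_A00mm_213_s3 : CertF 0 536870912 536870912 536870912 818728140 40265320 true false false .pnn 2 1 3
    ndB0q2 ndB0q1 pcB3 cut_A00mm_213_s3 xt_A00mm_213_s3 :=
  certF0 (fam := true) (s1 := false) (s2 := false) (a := 2) (b := 1) (c := 3) (cn := .pnn) (n1 := ndB0q2) (n2 := ndB0q1) (pc := pcB3) (cut := cut_A00mm_213_s3) (xt := xt_A00mm_213_s3) (P1 := 0) (W1 := 536870912) (P2 := 536870912) (W2 := 536870912) (P3 := 818728140) (W3 := 40265320)
    rfl k0_A00mm_213_s3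

theorem s_A00mm_213_s3 {κ x : ℝ} (hκ : κ * h0 = ken x) (hx : ((818728140 : ℕ) : ℝ) / S ≤ x)
    (hx' : x ≤ (((818728140 : ℕ) : ℝ) + (40265320 : ℕ)) / S) :
    AltA (VFD κ) PP tK tL pcB [⟨4, 0, 0, 2845415833⟩] 2 1 3 0 0 (sgb false) (sgb false) x :=
  strip_altAD (m := 2845415833) false rfl hκ (SH.κ0 hκ (SH.hx1 hx).le (SH.hx2 hx').le) (SH.hx1 hx).le (SH.hx2 hx') (covB02).cov (covB01).cov hx hx' c_A00mm_213_s3 cutA_nil ((okx hx hx').extA (T := tt) (sideB hx hx') hκ rfl rfl (.O 2 false) (.O 1 false) (Or.inr rfl))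

noncomputable def cut_A04pp_001_s1 : Cut := Cut.of [[⟨4, 0, 0, 1449551462⟩]]

noncomputable def f_A04pp_001_s1 : ℕ → ℕ → ℕ → ℕ → Bool := onCell 0 536870912 0 536870912 818728140 40265320
    (rowF 0 true true true .up 0 0 1 (qsf 0 536870912 0 536870912 1) ndB0q0 ndB4q0 pcB1 cut_A04pp_001_s1 Ext.none)

def k0_A04pp_001_s1 : ∃ t, chk3 f_A04pp_001_s1 t 1 1 1 = true :=
  ⟨(l 4), by decide +kernel⟩

theorem c_A04pp_001_s1 : CertF 0 536870912 0 536870912 818728140 40265320 true true true .up 0 0 1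
    ndB0q0 ndB4q0 pcB1 cut_A04pp_001_s1 Ext.none :=
  certF0 (fam := true) (s1 := true) (s2 := true) (a := 0) (b := 0) (c := 1) (cn := .up) (n1 := ndB0q0) (n2 := ndB4q0) (pc := pcB1) (cut := cut_A04pp_001_s1) (xt := Ext.none) (P1 := 0) (W1 := 536870912) (P2 := 0) (W2 := 536870912) (P3 := 818728140) (W3 := 40265320)
    rfl k0_A04pp_001_s1

theorem s_A04pp_001_s1 {κ x : ℝ} (hκ : κ * h0 = ken x) (hx : ((818728140 : ℕ) : ℝ) / S ≤ x)
    (hx' : x ≤ (((818728140 : ℕ) : ℝ) + (40265320 : ℕ)) / S) :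
    AltA (VFD κ) PP tK tL pcB [⟨3, 0, 0, 1449551462⟩] 0 0 1 0 4 (sgb true) (sgb true) x :=
  strip_altAD (m := 1449551462) true rfl hκ (SH.κ0 hκ (SH.hx1 hx).le (SH.hx2 hx').le) (SH.hx1 hx).le (SH.hx2 hx') (covB00).cov (covB40).cov hx hx' c_A04pp_001_s1 cutA_nil (noExt_A)

noncomputable def cut_A04pp_011_s1 : Cut := Cut.of [[⟨4, 0, 0, 1449551462⟩]]

noncomputable def f_A04pp_011_s1 : ℕ → ℕ → ℕ → ℕ → Bool := onCell 0 536870912 536870912 536870912 818728140 40265320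
    (rowF 0 true true true .pnn 0 1 1 (qsf 0 536870912 536870912 536870912 1) ndB0q0 ndB4q1 pcB1 cut_A04pp_011_s1 Ext.none)

def k0_A04pp_011_s1 : ∃ t, chk3 f_A04pp_011_s1 t 1 1 1 = true :=
  ⟨(l 4), by decide +kernel⟩

theorem c_A04pp_011_s1 : CertF 0 536870912 536870912 536870912 818728140 40265320 true true true .pnn 0 1 1
    ndB0q0 ndB4q1 pcB1 cut_A04pp_011_s1 Ext.none :=
  certF0 (fam := true) (s1 := true) (s2 := true) (a := 0) (b := 1) (c := 1) (cn := .pnn) (n1 := ndB0q0) (n2 := ndB4q1) (pc := pcB1) (cut := cut_A04pp_011_s1) (xt := Ext.none) (P1 := 0) (W1 := 536870912) (P2 := 536870912) (W2 := 536870912) (P3 := 818728140) (W3 := 40265320)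
    rfl k0_A04pp_011_s1

theorem s_A04pp_011_s1 {κ x : ℝ} (hκ : κ * h0 = ken x) (hx : ((818728140 : ℕ) : ℝ) / S ≤ x)
    (hx' : x ≤ (((818728140 : ℕ) : ℝ) + (40265320 : ℕ)) / S) :
    AltA (VFD κ) PP tK tL pcB [⟨3, 0, 0, 1449551462⟩] 0 1 1 0 4 (sgb true) (sgb true) x :=
  strip_altAD (m := 1449551462) true rfl hκ (SH.κ0 hκ (SH.hx1 hx).le (SH.hx2 hx').le) (SH.hx1 hx).le (SH.hx2 hx') (covB00).cov (covB41).cov hx hx' c_A04pp_011_s1 cutA_nil (noExt_A)

noncomputable def cut_A04pp_012_s1 : Cut := Cut.of [[⟨4, 0, 0, 1449551462⟩]]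

noncomputable def f_A04pp_012_s1 : ℕ → ℕ → ℕ → ℕ → Bool := onCell 0 536870912 536870912 536870912 818728140 40265320
    (rowF 0 true true true .pnp 0 1 2 (qsf 0 536870912 536870912 536870912 2) ndB0q0 ndB4q1 pcB2 cut_A04pp_012_s1 Ext.none)

def k0_A04pp_012_s1 : ∃ t, chk3 f_A04pp_012_s1 t 1 1 1 = true :=
  ⟨(l 4), by decide +kernel⟩

theorem c_A04pp_012_s1 : CertF 0 536870912 536870912 536870912 818728140 40265320 true true true .pnp 0 1 2
    ndB0q0 ndB4q1 pcB2 cut_A04pp_012_s1 Ext.none :=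
  certF0 (fam := true) (s1 := true) (s2 := true) (a := 0) (b := 1) (c := 2) (cn := .pnp) (n1 := ndB0q0) (n2 := ndB4q1) (pc := pcB2) (cut := cut_A04pp_012_s1) (xt := Ext.none) (P1 := 0) (W1 := 536870912) (P2 := 536870912) (W2 := 536870912) (P3 := 818728140) (W3 := 40265320)
    rfl k0_A04pp_012_s1

theorem s_A04pp_012_s1 {κ x : ℝ} (hκ : κ * h0 = ken x) (hx : ((818728140 : ℕ) : ℝ) / S ≤ x)
    (hx' : x ≤ (((818728140 : ℕ) : ℝ) + (40265320 : ℕ)) / S) :
    AltA (VFD κ) PP tK tL pcB [⟨3, 0, 0, 1449551462⟩] 0 1 2 0 4 (sgb true) (sgb true) x :=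
  strip_altAD (m := 1449551462) true rfl hκ (SH.κ0 hκ (SH.hx1 hx).le (SH.hx2 hx').le) (SH.hx1 hx).le (SH.hx2 hx') (covB00).cov (covB41).cov hx hx' c_A04pp_012_s1 cutA_nil (noExt_A)

noncomputable def cut_A04pp_022_s1 : Cut := Cut.of [[⟨4, 0, 0, 1449551462⟩]]

noncomputable def f_A04pp_022_s1 : ℕ → ℕ → ℕ → ℕ → Bool := onCell 0 536870912 1073741824 536870912 818728140 40265320
    (rowF 0 true true true .pp 0 2 2 (qsf 0 536870912 1073741824 536870912 2) ndB0q0 ndB4q2 pcB2 cut_A04pp_022_s1 Ext.none)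

def k0_A04pp_022_s1 : ∃ t, chk3 f_A04pp_022_s1 t 1 1 1 = true :=
  ⟨(l 4), by decide +kernel⟩

theorem c_A04pp_022_s1 : CertF 0 536870912 1073741824 536870912 818728140 40265320 true true true .pp 0 2 2
    ndB0q0 ndB4q2 pcB2 cut_A04pp_022_s1 Ext.none :=
  certF0 (fam := true) (s1 := true) (s2 := true) (a := 0) (b := 2) (c := 2) (cn := .pp) (n1 := ndB0q0) (n2 := ndB4q2) (pc := pcB2) (cut := cut_A04pp_022_s1) (xt := Ext.none) (P1 := 0) (W1 := 536870912) (P2 := 1073741824) (W2 := 536870912) (P3 := 818728140) (W3 := 40265320)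
    rfl k0_A04pp_022_s1

theorem s_A04pp_022_s1 {κ x : ℝ} (hκ : κ * h0 = ken x) (hx : ((818728140 : ℕ) : ℝ) / S ≤ x)
    (hx' : x ≤ (((818728140 : ℕ) : ℝ) + (40265320 : ℕ)) / S) :
    AltA (VFD κ) PP tK tL pcB [⟨3, 0, 0, 1449551462⟩] 0 2 2 0 4 (sgb true) (sgb true) x :=
  strip_altAD (m := 1449551462) true rfl hκ (SH.κ0 hκ (SH.hx1 hx).le (SH.hx2 hx').le) (SH.hx1 hx).le (SH.hx2 hx') (covB00).cov (covB42).cov hx hx' c_A04pp_022_s1 cutA_nil (noExt_A)

noncomputable def cut_A04pp_023_s1 : Cut := Cut.of [[⟨4, 0, 0, 1449551462⟩]]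

noncomputable def f_A04pp_023_s1 : ℕ → ℕ → ℕ → ℕ → Bool := onCell 0 536870912 1073741824 536870912 818728140 40265320
    (rowF 0 true true true .up 0 2 3 (qsf 0 536870912 1073741824 536870912 3) ndB0q0 ndB4q2 pcB3 cut_A04pp_023_s1 Ext.none)

def k0_A04pp_023_s1 : ∃ t, chk3 f_A04pp_023_s1 t 1 1 1 = true :=
  ⟨(l 4), by decide +kernel⟩

theorem c_A04pp_023_s1 : CertF 0 536870912 1073741824 536870912 818728140 40265320 true true true .up 0 2 3
    ndB0q0 ndB4q2 pcB3 cut_A04pp_023_s1 Ext.none :=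
  certF0 (fam := true) (s1 := true) (s2 := true) (a := 0) (b := 2) (c := 3) (cn := .up) (n1 := ndB0q0) (n2 := ndB4q2) (pc := pcB3) (cut := cut_A04pp_023_s1) (xt := Ext.none) (P1 := 0) (W1 := 536870912) (P2 := 1073741824) (W2 := 536870912) (P3 := 818728140) (W3 := 40265320)
    rfl k0_A04pp_023_s1

theorem s_A04pp_023_s1 {κ x : ℝ} (hκ : κ * h0 = ken x) (hx : ((818728140 : ℕ) : ℝ) / S ≤ x)
    (hx' : x ≤ (((818728140 : ℕ) : ℝ) + (40265320 : ℕ)) / S) :
    AltA (VFD κ) PP tK tL pcB [⟨3, 0, 0, 1449551462⟩] 0 2 3 0 4 (sgb true) (sgb true) x :=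
  strip_altAD (m := 1449551462) true rfl hκ (SH.κ0 hκ (SH.hx1 hx).le (SH.hx2 hx').le) (SH.hx1 hx).le (SH.hx2 hx') (covB00).cov (covB42).cov hx hx' c_A04pp_023_s1 cutA_nil (noExt_A)

noncomputable def cut_A04pp_033_s1 : Cut := Cut.of [[⟨4, 0, 0, 1449551462⟩]]

noncomputable def f_A04pp_033_s1 : ℕ → ℕ → ℕ → ℕ → Bool := onCell 0 536870912 0 1230186008 818728140 40265320
    (rowF 0 true true true .pnn 0 3 3 (qsf 0 536870912 0 1230186008 3) ndB0q0 ndB4q3 pcB3 cut_A04pp_033_s1 Ext.none)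

def k0_A04pp_033_s1 : ∃ t, chk3 f_A04pp_033_s1 t 1 1 1 = true :=
  ⟨(l 4), by decide +kernel⟩

theorem c_A04pp_033_s1 : CertF 0 536870912 0 1230186008 818728140 40265320 true true true .pnn 0 3 3
    ndB0q0 ndB4q3 pcB3 cut_A04pp_033_s1 Ext.none :=
  certF0 (fam := true) (s1 := true) (s2 := true) (a := 0) (b := 3) (c := 3) (cn := .pnn) (n1 := ndB0q0) (n2 := ndB4q3) (pc := pcB3) (cut := cut_A04pp_033_s1) (xt := Ext.none) (P1 := 0) (W1 := 536870912) (P2 := 0) (W2 := 1230186008) (P3 := 818728140) (W3 := 40265320)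
    rfl k0_A04pp_033_s1

theorem s_A04pp_033_s1 {κ x : ℝ} (hκ : κ * h0 = ken x) (hx : ((818728140 : ℕ) : ℝ) / S ≤ x)
    (hx' : x ≤ (((818728140 : ℕ) : ℝ) + (40265320 : ℕ)) / S) :
    AltA (VFD κ) PP tK tL pcB [⟨3, 0, 0, 1449551462⟩] 0 3 3 0 4 (sgb true) (sgb true) x :=
  strip_altAD (m := 1449551462) true rfl hκ (SH.κ0 hκ (SH.hx1 hx).le (SH.hx2 hx').le) (SH.hx1 hx).le (SH.hx2 hx') (covB00).cov (covB43).cov hx hx' c_A04pp_033_s1 cutA_nil (noExt_A)

noncomputable def cut_A04pp_101_s1 : Cut := Cut.of [[⟨4, 0, 0, 1449551462⟩]]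

noncomputable def f_A04pp_101_s1 : ℕ → ℕ → ℕ → ℕ → Bool := onCell 536870912 536870912 0 536870912 818728140 40265320
    (rowF 0 true true true .npn 1 0 1 (qsf 536870912 536870912 0 536870912 1) ndB0q1 ndB4q0 pcB1 cut_A04pp_101_s1 Ext.none)

def k0_A04pp_101_s1 : ∃ t, chk3 f_A04pp_101_s1 t 1 1 1 = true :=
  ⟨(l 4), by decide +kernel⟩

theorem c_A04pp_101_s1 : CertF 536870912 536870912 0 536870912 818728140 40265320 true true true .npn 1 0 1
    ndB0q1 ndB4q0 pcB1 cut_A04pp_101_s1 Ext.none :=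
  certF0 (fam := true) (s1 := true) (s2 := true) (a := 1) (b := 0) (c := 1) (cn := .npn) (n1 := ndB0q1) (n2 := ndB4q0) (pc := pcB1) (cut := cut_A04pp_101_s1) (xt := Ext.none) (P1 := 536870912) (W1 := 536870912) (P2 := 0) (W2 := 536870912) (P3 := 818728140) (W3 := 40265320)
    rfl k0_A04pp_101_s1

theorem s_A04pp_101_s1 {κ x : ℝ} (hκ : κ * h0 = ken x) (hx : ((818728140 : ℕ) : ℝ) / S ≤ x)
    (hx' : x ≤ (((818728140 : ℕ) : ℝ) + (40265320 : ℕ)) / S) :
    AltA (VFD κ) PP tK tL pcB [⟨3, 0, 0, 1449551462⟩] 1 0 1 0 4 (sgb true) (sgb true) x :=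
  strip_altAD (m := 1449551462) true rfl hκ (SH.κ0 hκ (SH.hx1 hx).le (SH.hx2 hx').le) (SH.hx1 hx).le (SH.hx2 hx') (covB01).cov (covB40).cov hx hx' c_A04pp_101_s1 cutA_nil (noExt_A)

noncomputable def cut_A04pp_102_s1 : Cut := Cut.of [[⟨4, 0, 0, 1449551462⟩]]

noncomputable def f_A04pp_102_s1 : ℕ → ℕ → ℕ → ℕ → Bool := onCell 536870912 536870912 0 536870912 818728140 40265320
    (rowF 0 true true true .npp 1 0 2 (qsf 536870912 536870912 0 536870912 2) ndB0q1 ndB4q0 pcB2 cut_A04pp_102_s1 Ext.none)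

def k0_A04pp_102_s1 : ∃ t, chk3 f_A04pp_102_s1 t 1 1 1 = true :=
  ⟨(l 4), by decide +kernel⟩

theorem c_A04pp_102_s1 : CertF 536870912 536870912 0 536870912 818728140 40265320 true true true .npp 1 0 2
    ndB0q1 ndB4q0 pcB2 cut_A04pp_102_s1 Ext.none :=
  certF0 (fam := true) (s1 := true) (s2 := true) (a := 1) (b := 0) (c := 2) (cn := .npp) (n1 := ndB0q1) (n2 := ndB4q0) (pc := pcB2) (cut := cut_A04pp_102_s1) (xt := Ext.none) (P1 := 536870912) (W1 := 536870912) (P2 := 0) (W2 := 536870912) (P3 := 818728140) (W3 := 40265320)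
    rfl k0_A04pp_102_s1

theorem s_A04pp_102_s1 {κ x : ℝ} (hκ : κ * h0 = ken x) (hx : ((818728140 : ℕ) : ℝ) / S ≤ x)
    (hx' : x ≤ (((818728140 : ℕ) : ℝ) + (40265320 : ℕ)) / S) :
    AltA (VFD κ) PP tK tL pcB [⟨3, 0, 0, 1449551462⟩] 1 0 2 0 4 (sgb true) (sgb true) x :=
  strip_altAD (m := 1449551462) true rfl hκ (SH.κ0 hκ (SH.hx1 hx).le (SH.hx2 hx').le) (SH.hx1 hx).le (SH.hx2 hx') (covB01).cov (covB40).cov hx hx' c_A04pp_102_s1 cutA_nil (noExt_A)

noncomputable def cut_A04pp_112_s1 : Cut := Cut.of [[⟨4, 0, 0, 1449551462⟩]]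

noncomputable def f_A04pp_112_s1 : ℕ → ℕ → ℕ → ℕ → Bool := onCell 536870912 536870912 536870912 536870912 818728140 40265320
    (rowF 0 true true true .dn 1 1 2 (qsf 536870912 536870912 536870912 536870912 2) ndB0q1 ndB4q1 pcB2 cut_A04pp_112_s1 Ext.none)

def k0_A04pp_112_s1 : ∃ t, chk3 f_A04pp_112_s1 t 1 1 1 = true :=
  ⟨(l 4), by decide +kernel⟩

theorem c_A04pp_112_s1 : CertF 536870912 536870912 536870912 536870912 818728140 40265320 true true true .dn 1 1 2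
    ndB0q1 ndB4q1 pcB2 cut_A04pp_112_s1 Ext.none :=
  certF0 (fam := true) (s1 := true) (s2 := true) (a := 1) (b := 1) (c := 2) (cn := .dn) (n1 := ndB0q1) (n2 := ndB4q1) (pc := pcB2) (cut := cut_A04pp_112_s1) (xt := Ext.none) (P1 := 536870912) (W1 := 536870912) (P2 := 536870912) (W2 := 536870912) (P3 := 818728140) (W3 := 40265320)
    rfl k0_A04pp_112_s1

theorem s_A04pp_112_s1 {κ x : ℝ} (hκ : κ * h0 = ken x) (hx : ((818728140 : ℕ) : ℝ) / S ≤ x)
    (hx' : x ≤ (((818728140 : ℕ) : ℝ) + (40265320 : ℕ)) / S) :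
    AltA (VFD κ) PP tK tL pcB [⟨3, 0, 0, 1449551462⟩] 1 1 2 0 4 (sgb true) (sgb true) x :=
  strip_altAD (m := 1449551462) true rfl hκ (SH.κ0 hκ (SH.hx1 hx).le (SH.hx2 hx').le) (SH.hx1 hx).le (SH.hx2 hx') (covB01).cov (covB41).cov hx hx' c_A04pp_112_s1 cutA_nil (noExt_A)

noncomputable def cut_A04pp_113_s1 : Cut := Cut.of [[⟨4, 0, 0, 1449551462⟩]]

noncomputable def f_A04pp_113_s1 : ℕ → ℕ → ℕ → ℕ → Bool := onCell 536870912 536870912 536870912 536870912 818728140 40265320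
    (rowF 0 true true true .nn 1 1 3 (qsf 536870912 536870912 536870912 536870912 3) ndB0q1 ndB4q1 pcB3 cut_A04pp_113_s1 Ext.none)

def k0_A04pp_113_s1 : ∃ t, chk3 f_A04pp_113_s1 t 1 1 1 = true :=
  ⟨(l 4), by decide +kernel⟩

theorem c_A04pp_113_s1 : CertF 536870912 536870912 536870912 536870912 818728140 40265320 true true true .nn 1 1 3
    ndB0q1 ndB4q1 pcB3 cut_A04pp_113_s1 Ext.none :=
  certF0 (fam := true) (s1 := true) (s2 := true) (a := 1) (b := 1) (c := 3) (cn := .nn) (n1 := ndB0q1) (n2 := ndB4q1) (pc := pcB3) (cut := cut_A04pp_113_s1) (xt := Ext.none) (P1 := 536870912) (W1 := 536870912) (P2 := 536870912) (W2 := 536870912) (P3 := 818728140) (W3 := 40265320)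
    rfl k0_A04pp_113_s1

theorem s_A04pp_113_s1 {κ x : ℝ} (hκ : κ * h0 = ken x) (hx : ((818728140 : ℕ) : ℝ) / S ≤ x)
    (hx' : x ≤ (((818728140 : ℕ) : ℝ) + (40265320 : ℕ)) / S) :
    AltA (VFD κ) PP tK tL pcB [⟨3, 0, 0, 1449551462⟩] 1 1 3 0 4 (sgb true) (sgb true) x :=
  strip_altAD (m := 1449551462) true rfl hκ (SH.κ0 hκ (SH.hx1 hx).le (SH.hx2 hx').le) (SH.hx1 hx).le (SH.hx2 hx') (covB01).cov (covB41).cov hx hx' c_A04pp_113_s1 cutA_nil (noExt_A)

noncomputable def cut_A04pp_123_s1 : Cut := Cut.of [[⟨4, 0, 0, 1449551462⟩]]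

noncomputable def f_A04pp_123_s1 : ℕ → ℕ → ℕ → ℕ → Bool := onCell 536870912 536870912 1073741824 536870912 818728140 40265320
    (rowF 0 true true true .npn 1 2 3 (qsf 536870912 536870912 1073741824 536870912 3) ndB0q1 ndB4q2 pcB3 cut_A04pp_123_s1 Ext.none)

def k0_A04pp_123_s1 : ∃ t, chk3 f_A04pp_123_s1 t 1 1 1 = true :=
  ⟨(l 4), by decide +kernel⟩

theorem c_A04pp_123_s1 : CertF 536870912 536870912 1073741824 536870912 818728140 40265320 true true true .npn 1 2 3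
    ndB0q1 ndB4q2 pcB3 cut_A04pp_123_s1 Ext.none :=
  certF0 (fam := true) (s1 := true) (s2 := true) (a := 1) (b := 2) (c := 3) (cn := .npn) (n1 := ndB0q1) (n2 := ndB4q2) (pc := pcB3) (cut := cut_A04pp_123_s1) (xt := Ext.none) (P1 := 536870912) (W1 := 536870912) (P2 := 1073741824) (W2 := 536870912) (P3 := 818728140) (W3 := 40265320)
    rfl k0_A04pp_123_s1

theorem s_A04pp_123_s1 {κ x : ℝ} (hκ : κ * h0 = ken x) (hx : ((818728140 : ℕ) : ℝ) / S ≤ x)
    (hx' : x ≤ (((818728140 : ℕ) : ℝ) + (40265320 : ℕ)) / S) :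
    AltA (VFD κ) PP tK tL pcB [⟨3, 0, 0, 1449551462⟩] 1 2 3 0 4 (sgb true) (sgb true) x :=
  strip_altAD (m := 1449551462) true rfl hκ (SH.κ0 hκ (SH.hx1 hx).le (SH.hx2 hx').le) (SH.hx1 hx).le (SH.hx2 hx') (covB01).cov (covB42).cov hx hx' c_A04pp_123_s1 cutA_nil (noExt_A)

noncomputable def cut_A04pp_133_s1 : Cut := Cut.of [[⟨4, 0, 0, 1449551462⟩]]

noncomputable def f_A04pp_133_s1 : ℕ → ℕ → ℕ → ℕ → Bool := onCell 536870912 536870912 0 1230186008 818728140 40265320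
    (rowF 0 true true true .dn 1 3 3 (qsf 536870912 536870912 0 1230186008 3) ndB0q1 ndB4q3 pcB3 cut_A04pp_133_s1 Ext.none)

def k0_A04pp_133_s1 : ∃ t, chk3 f_A04pp_133_s1 t 1 1 1 = true :=
  ⟨(l 4), by decide +kernel⟩

theorem c_A04pp_133_s1 : CertF 536870912 536870912 0 1230186008 818728140 40265320 true true true .dn 1 3 3
    ndB0q1 ndB4q3 pcB3 cut_A04pp_133_s1 Ext.none :=
  certF0 (fam := true) (s1 := true) (s2 := true) (a := 1) (b := 3) (c := 3) (cn := .dn) (n1 := ndB0q1) (n2 := ndB4q3) (pc := pcB3) (cut := cut_A04pp_133_s1) (xt := Ext.none) (P1 := 536870912) (W1 := 536870912) (P2 := 0) (W2 := 1230186008) (P3 := 818728140) (W3 := 40265320)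
    rfl k0_A04pp_133_s1

theorem s_A04pp_133_s1 {κ x : ℝ} (hκ : κ * h0 = ken x) (hx : ((818728140 : ℕ) : ℝ) / S ≤ x)
    (hx' : x ≤ (((818728140 : ℕ) : ℝ) + (40265320 : ℕ)) / S) :
    AltA (VFD κ) PP tK tL pcB [⟨3, 0, 0, 1449551462⟩] 1 3 3 0 4 (sgb true) (sgb true) x :=
  strip_altAD (m := 1449551462) true rfl hκ (SH.κ0 hκ (SH.hx1 hx).le (SH.hx2 hx').le) (SH.hx1 hx).le (SH.hx2 hx') (covB01).cov (covB43).cov hx hx' c_A04pp_133_s1 cutA_nil (noExt_A)

noncomputable def cut_A04pp_202_s1 : Cut := Cut.of [[⟨4, 0, 0, 1449551462⟩]]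

noncomputable def f_A04pp_202_s1 : ℕ → ℕ → ℕ → ℕ → Bool := onCell 0 536870912 0 536870912 818728140 40265320
    (rowF 0 true true true .pp 2 0 2 (qsf 0 536870912 0 536870912 2) ndB0q2 ndB4q0 pcB2 cut_A04pp_202_s1 Ext.none)

def k0_A04pp_202_s1 : ∃ t, chk3 f_A04pp_202_s1 t 1 1 1 = true :=
  ⟨(l 4), by decide +kernel⟩

theorem c_A04pp_202_s1 : CertF 0 536870912 0 536870912 818728140 40265320 true true true .pp 2 0 2
    ndB0q2 ndB4q0 pcB2 cut_A04pp_202_s1 Ext.none :=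
  certF0 (fam := true) (s1 := true) (s2 := true) (a := 2) (b := 0) (c := 2) (cn := .pp) (n1 := ndB0q2) (n2 := ndB4q0) (pc := pcB2) (cut := cut_A04pp_202_s1) (xt := Ext.none) (P1 := 0) (W1 := 536870912) (P2 := 0) (W2 := 536870912) (P3 := 818728140) (W3 := 40265320)
    rfl k0_A04pp_202_s1

theorem s_A04pp_202_s1 {κ x : ℝ} (hκ : κ * h0 = ken x) (hx : ((818728140 : ℕ) : ℝ) / S ≤ x)
    (hx' : x ≤ (((818728140 : ℕ) : ℝ) + (40265320 : ℕ)) / S) :
    AltA (VFD κ) PP tK tL pcB [⟨3, 0, 0, 1449551462⟩] 2 0 2 0 4 (sgb true) (sgb true) x :=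
  strip_altAD (m := 1449551462) true rfl hκ (SH.κ0 hκ (SH.hx1 hx).le (SH.hx2 hx').le) (SH.hx1 hx).le (SH.hx2 hx') (covB02).cov (covB40).cov hx hx' c_A04pp_202_s1 cutA_nil (noExt_A)

noncomputable def cut_A04pp_203_s1 : Cut := Cut.of [[⟨4, 0, 0, 1449551462⟩]]

noncomputable def f_A04pp_203_s1 : ℕ → ℕ → ℕ → ℕ → Bool := onCell 0 536870912 0 536870912 818728140 40265320
    (rowF 0 true true true .up 2 0 3 (qsf 0 536870912 0 536870912 3) ndB0q2 ndB4q0 pcB3 cut_A04pp_203_s1 Ext.none)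

def k0_A04pp_203_s1 : ∃ t, chk3 f_A04pp_203_s1 t 1 1 1 = true :=
  ⟨(l 4), by decide +kernel⟩

theorem c_A04pp_203_s1 : CertF 0 536870912 0 536870912 818728140 40265320 true true true .up 2 0 3
    ndB0q2 ndB4q0 pcB3 cut_A04pp_203_s1 Ext.none :=
  certF0 (fam := true) (s1 := true) (s2 := true) (a := 2) (b := 0) (c := 3) (cn := .up) (n1 := ndB0q2) (n2 := ndB4q0) (pc := pcB3) (cut := cut_A04pp_203_s1) (xt := Ext.none) (P1 := 0) (W1 := 536870912) (P2 := 0) (W2 := 536870912) (P3 := 818728140) (W3 := 40265320)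
    rfl k0_A04pp_203_s1

theorem s_A04pp_203_s1 {κ x : ℝ} (hκ : κ * h0 = ken x) (hx : ((818728140 : ℕ) : ℝ) / S ≤ x)
    (hx' : x ≤ (((818728140 : ℕ) : ℝ) + (40265320 : ℕ)) / S) :
    AltA (VFD κ) PP tK tL pcB [⟨3, 0, 0, 1449551462⟩] 2 0 3 0 4 (sgb true) (sgb true) x :=
  strip_altAD (m := 1449551462) true rfl hκ (SH.κ0 hκ (SH.hx1 hx).le (SH.hx2 hx').le) (SH.hx1 hx).le (SH.hx2 hx') (covB02).cov (covB40).cov hx hx' c_A04pp_203_s1 cutA_nil (noExt_A)

noncomputable def cut_A04pp_213_s1 : Cut := Cut.of [[⟨4, 0, 0, 1449551462⟩]]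

noncomputable def f_A04pp_213_s1 : ℕ → ℕ → ℕ → ℕ → Bool := onCell 0 536870912 536870912 536870912 818728140 40265320
    (rowF 0 true true true .pnn 2 1 3 (qsf 0 536870912 536870912 536870912 3) ndB0q2 ndB4q1 pcB3 cut_A04pp_213_s1 Ext.none)

def k0_A04pp_213_s1 : ∃ t, chk3 f_A04pp_213_s1 t 1 1 1 = true :=
  ⟨(l 4), by decide +kernel⟩

theorem c_A04pp_213_s1 : CertF 0 536870912 536870912 536870912 818728140 40265320 true true true .pnn 2 1 3
    ndB0q2 ndB4q1 pcB3 cut_A04pp_213_s1 Ext.none :=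
  certF0 (fam := true) (s1 := true) (s2 := true) (a := 2) (b := 1) (c := 3) (cn := .pnn) (n1 := ndB0q2) (n2 := ndB4q1) (pc := pcB3) (cut := cut_A04pp_213_s1) (xt := Ext.none) (P1 := 0) (W1 := 536870912) (P2 := 536870912) (W2 := 536870912) (P3 := 818728140) (W3 := 40265320)
    rfl k0_A04pp_213_s1

theorem s_A04pp_213_s1 {κ x : ℝ} (hκ : κ * h0 = ken x) (hx : ((818728140 : ℕ) : ℝ) / S ≤ x)
    (hx' : x ≤ (((818728140 : ℕ) : ℝ) + (40265320 : ℕ)) / S) :
    AltA (VFD κ) PP tK tL pcB [⟨3, 0, 0, 1449551462⟩] 2 1 3 0 4 (sgb true) (sgb true) x :=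
  strip_altAD (m := 1449551462) true rfl hκ (SH.κ0 hκ (SH.hx1 hx).le (SH.hx2 hx').le) (SH.hx1 hx).le (SH.hx2 hx') (covB02).cov (covB41).cov hx hx' c_A04pp_213_s1 cutA_nil (noExt_A)

noncomputable def cut_A04pm_001_s1 : Cut := Cut.of [[⟨4, 0, 0, 1449551462⟩]]

noncomputable def xt_A04pm_001_s1 : Ext := strExt dd true true false .u0 .s0m .u0m .up 0 0 1 rfl rfl gf1 vv ndB0q0 ndB4q0

noncomputable def f_A04pm_001_s1 : ℕ → ℕ → ℕ → ℕ → Bool := onCell 0 536870912 536870912 536870912 818728140 40265320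
    (rowF 1 true true false .up 0 0 1 (qsf 0 536870912 0 536870912 1) ndB0q0 ndB4q0 pcB1 cut_A04pm_001_s1 xt_A04pm_001_s1)

def k0_A04pm_001_s1 : ∃ t, chk3 f_A04pm_001_s1 t 1 1 1 = true :=
  ⟨(a (b (l 3) (b (b (l 3) (l 2)) (l 2))) (b (a (b (l 3) (l 3)) (b (l 3) (a (b (l 3) (a (b (l 3) (b (a (l 3) (l 521439503)) (a (l 521805071) (l 521943055)))) (b (l 519791375) (b (l 520866575) (a (l 521641743) (l 521209871)))))) (b (a (a (l 3) (b (l 3) (b (l 3) (l 517885199)))) (b (b (l 3) (l 521401871)) (a (l 519165711) (l 520574991)))) (b (a (a (l 518904847) (b (a (b (l 517515023) (l 518195727)) (l 517795087)) (l 518569487))) (b (a (b (l 518255375) (l 518317327)) (l 519220495)) (a (l 518683663) (l 16722704)))) (a (b (l 519806735) (l 520512527)) (b (a (l 16720272) (l 16600408)) (l 16649024)))))))) (b (a (b (a (a (l 3) (a (l 3) (l 522233103))) (a (l 522283791) (l 522339087))) (a (b (a (l 2) (b (a (l 2) (l 522728975)) (l 2))) (l 2)) (b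 (a (b (l 522790671) (l 522945039)) (l 522949903)) (a (b (l 523003663) (l 2)) (l 523991823))))) (a (b (a (b (l 522149647) (l 522596111)) (b (a (l 522091791) (b (l 16718360) (l 16643248))) (a (l 16687904) (l 16678360)))) (b (a (l 523012111) (l 16630680)) (a (l 523305487) (l 16567792)))) (b (a (b (a (l 521492495) (l 16654856)) (c (l 16628264) (l 16630752))) (b (b (l 16639096) (l 16524496)) (l 16563120))) (a (b (l 16568296) (l 16423520)) (b (l 16420208) (l 16361120)))))) (a (b (a (l 2) (b (a (l 2) (l 32312622199)) (l 2))) (l 2)) (b (a (b (a (l 16474160) (l 16421336)) (a (l 16496712) (l 16362256))) (b (a (l 16363256) (l 16302712)) (a (l 16306256) (l 16247648)))) (a (b (b (l 16495248) (l 2)) (l 2)) (b (l 16414728) (l 48955095527)))))))), by decide +kernel⟩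

theorem c_A04pm_001_s1 : CertF 0 536870912 0 536870912 818728140 40265320 true true false .up 0 0 1
    ndB0q0 ndB4q0 pcB1 cut_A04pm_001_s1 xt_A04pm_001_s1 :=
  certF1 (fam := true) (s1 := true) (s2 := false) (a := 0) (b := 0) (c := 1) (cn := .up) (n1 := ndB0q0) (n2 := ndB4q0) (pc := pcB1) (cut := cut_A04pm_001_s1) (xt := xt_A04pm_001_s1) (P1 := 0) (W1 := 536870912) (P2 := 0) (W2 := 536870912) (P3 := 818728140) (W3 := 40265320)
    rfl (fun _ => rfl) k0_A04pm_001_s1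

theorem s_A04pm_001_s1 {κ x : ℝ} (hκ : κ * h0 = ken x) (hx : ((818728140 : ℕ) : ℝ) / S ≤ x)
    (hx' : x ≤ (((818728140 : ℕ) : ℝ) + (40265320 : ℕ)) / S) :
    AltA (VFD κ) PP tK tL pcB [⟨3, 0, 0, 1449551462⟩] 0 0 1 0 4 (sgb true) (sgb false) x :=
  strip_altAD (m := 1449551462) true rfl hκ (SH.κ0 hκ (SH.hx1 hx).le (SH.hx2 hx').le) (SH.hx1 hx).le (SH.hx2 hx') (covB00).cov (covB40).cov hx hx' c_A04pm_001_s1 cutA_nil ((okx hx hx').extA (T := tt) (sideB hx hx') hκ rfl rfl (.O 0 true) (.N 0 false) (Or.inr rfl))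

noncomputable def cut_A04pm_011_s1 : Cut := Cut.of [[⟨4, 0, 0, 1449551462⟩], [⟨0, 0, 0, 67108864⟩, ⟨1, 1, 0, 67108864⟩, ⟨2, 1, 0, 67108864⟩]]

noncomputable def xt_A04pm_011_s1 : Ext := strExt dd true true false .u0 .s0m .u0m .pnn 0 1 1 rfl rfl gf1 vv ndB0q0 ndB4q1

noncomputable def f_A04pm_011_s1 : ℕ → ℕ → ℕ → ℕ → Bool := onCell 536870912 536870912 536870912 536870912 818728140 40265320
    (rowF 2 true true false .pnn 0 1 1 (qsf 0 536870912 536870912 536870912 1) ndB0q0 ndB4q1 pcB1 cut_A04pm_011_s1 xt_A04pm_011_s1)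

def k0_A04pm_011_s1 : ∃ t, chk3 f_A04pm_011_s1 t 2 1 1 = true :=
  ⟨(l 3), by decide +kernel⟩

def k1_A04pm_011_s1 : ∃ t, chk3 f_A04pm_011_s1 t 3 2 4 = true :=
  ⟨(a (a (b (b (a (l 3) (b (a (l 3) (l 522404623)) (l 3))) (l 3)) (l 3)) (b (b (a (b (l 524355599) (a (b (l 522589711) (l 3)) (l 523826447))) (b (l 523104783) (a (l 522919439) (l 16677512)))) (a (b (a (l 3) (l 522479631)) (l 3)) (b (a (l 522845455) (b (l 16713568) (l 16737376))) (a (l 522443791) (l 522641935))))) (b (a (l 3) (a (l 3) (a (b (l 522439183) (l 3)) (b (l 522554895) (l 522464271))))) (l 3)))) (b (a (b (a (b (l 16583472) (l 16632928)) (b (l 16387224) (l 16437072))) (a (b (a (l 16668016) (l 16568880)) (a (b (l 16661728) (l 16727248)) (l 16658328))) (b (l 16485296) (a (l 16560136) (l 16506320))))) (a (b (b (l 16281704) (l 16335144)) (b (l 16384288) (l 16431920))) (b (l 16291216) (l 16391672)))) (a (b (a (b (a (l 522957583) (l 522909199)) (a (b (l 522577679)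 (l 522528783)) (b (l 522816271) (l 522724623)))) (b (a (l 16648960) (l 16553328)) (a (l 523055375) (l 16641736)))) (a (b (a (l 524008463) (l 522662159)) (a (l 3) (b (l 522615311) (a (l 3) (l 522657807))))) (b (a (b (l 523013903) (l 522990607)) (b (l 16633856) (l 16697088))) (a (a (l 522832143) (l 523815183)) (b (l 523175695) (l 523072783)))))) (b (a (b (l 16562096) (l 16605472)) (b (l 16375320) (l 16416832))) (a (b (a (l 16589904) (l 16535888)) (a (a (l 16687248) (l 16617504)) (l 16618016))) (b (l 16456600) (a (l 16521504) (l 16383736)))))))), by decide +kernel⟩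

def k2_A04pm_011_s1 : ∃ t, chk3 f_A04pm_011_s1 t 3 2 5 = true :=
  ⟨(a (a (b (b (a (l 3) (b (a (l 3) (l 522442511)) (l 3))) (l 3)) (l 3)) (b (b (a (b (l 524383503) (a (b (l 522614799) (l 3)) (l 524105487))) (b (l 523105551) (a (l 522912271) (l 16677152)))) (a (b (a (l 3) (l 522473487)) (l 3)) (b (a (l 523603983) (b (l 16713184) (l 522737935))) (a (l 522407439) (l 522588943))))) (a (l 3) (a (l 3) (b (b (l 524043279) (l 523106319)) (l 3)))))) (b (a (b (a (b (l 16583128) (l 16632328)) (b (l 16387288) (l 16436696))) (a (b (a (l 16667416) (l 16568264)) (a (b (l 16661240) (l 16726888)) (l 16657920))) (b (l 16484880) (a (l 16559928) (l 16506128))))) (a (b (b (l 16282152) (l 16335512)) (b (l 16383392) (l 16431264))) (b (l 16290312) (l 16392408)))) (a (b (a (b (a (l 522653967) (l 522902031)) (a (l 524129039) (l 522792463))) (b (a (l 16649160) (l 16553624)) (a (l 523110927) (l 16600552)))) (a (b (a (l 523203343) (l 522703887))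 (a (l 3) (b (l 522655503) (a (l 3) (l 522702863))))) (b (a (b (l 523084559) (l 523059727)) (b (l 16634096) (l 16697504))) (a (b (l 523046159) (l 523005199)) (b (l 523258127) (l 523187983)))))) (b (a (b (l 16562856) (l 16605728)) (b (l 16375760) (l 16416776))) (a (b (a (l 16590080) (l 16535896)) (a (l 524114191) (l 16576664))) (b (l 16456440) (a (l 16521816) (l 16383832)))))))), by decide +kernel⟩

def k3_A04pm_011_s1 : ∃ t, chk3 f_A04pm_011_s1 t 3 2 3 = true :=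
  ⟨(a (a (b (b (a (l 3) (b (a (l 3) (b (l 522550287) (l 3))) (l 3))) (l 3)) (l 3)) (b (b (a (b (a (l 522747663) (l 522885903)) (a (b (l 522646543) (l 3)) (b (l 522812431) (l 522627087)))) (b (l 523090703) (a (b (l 16722904) (l 522754831)) (l 16676432)))) (a (b (a (l 3) (l 522460175)) (l 3)) (b (a (b (l 522552591) (l 522510863)) (b (l 16712496) (l 522647823))) (a (l 522348303) (b (l 522552079) (l 522471695)))))) (b (a (l 3) (a (l 3) (a (b (l 523654671) (l 3)) (b (l 522406415) (l 522226191))))) (l 3)))) (b (a (b (a (b (l 16582160) (l 16631104)) (b (l 16386800) (l 16519528))) (a (b (a (l 16687312) (l 16567088)) (a (b (l 16660408) (l 522678287)) (l 16657200))) (b (l 16567832) (a (l 16559496) (l 16505656))))) (a (b (b (l 16283520) (l 16333864)) (b (l 16381440) (l 16429880))) (b (l 16373680) (l 16488648)))) (a (b (a (b (a (b (l 522625551) (l 522584847)) (l 522891023)) (a (b (l 522569999) (l 522503951)) (b (l 522879503) (l 522888207))))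 (b (a (l 16649480) (l 16554056)) (a (b (l 16643096) (l 16687040)) (l 16643736)))) (a (b (a (b (l 522448399) (l 3)) (l 523835663)) (a (l 3) (b (l 522705167) (a (l 3) (l 522759183))))) (b (a (b (l 523195663) (l 523163151)) (b (l 16634376) (l 523415567))) (a (b (l 524471823) (l 524150543)) (b (l 523388175) (l 523373327)))))) (b (a (b (l 16562592) (a (l 16548736) (l 16495840))) (b (l 16376904) (l 16417000))) (a (b (a (l 16632272) (l 16536000)) (a (b (l 16622504) (l 16664944)) (l 16619712))) (b (l 16540352) (a (l 16522568) (l 16468240)))))))), by decide +kernel⟩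

def k4_A04pm_011_s1 : ∃ t, chk3 f_A04pm_011_s1 t 6 3 1 = true :=
  ⟨(l 3), by decide +kernel⟩

def k5_A04pm_011_s1 : ∃ t, chk3 f_A04pm_011_s1 t 7 6 1 = true :=
  ⟨(a (a (l 3) (b (b (a (b (a (b (l 523964175) (c (l 522825231) (l 522908943))) (c (l 524417039) (l 523155983))) (a (l 3) (b (l 523140111) (l 523033103)))) (b (a (l 523225103) (l 523225615)) (a (b (l 523235599) (l 523346703)) (b (l 523213327) (l 523233039))))) (a (l 3) (a (b (l 523326223) (l 523199503)) (b (l 523668239) (l 523569679))))) (b (a (l 3) (b (a (l 3) (l 523437839)) (l 3))) (l 3)))) (b (a (b (a (b (a (l 523242255) (l 16650160)) (a (l 523197711) (l 523206671))) (b (l 523336463) (c (l 16669536) (l 16672840)))) (a (b (b (a (l 523260943) (l 16708384)) (a (l 523372303) (l 523292687))) (a (l 523516943) (l 523427855))) (b (a (l 523230479) (l 16636544)) (a (l 523356943) (c (l 16657312) (l 16660200)))))) (b (a (c (l 16613544) (l 16606224)) (a (l 16520736) (l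 16493040))) (a (b (a (l 16608320) (l 16496208)) (a (l 16630312) (l 16602016))) (a (l 16604664) (l 16576400))))) (a (b (a (a (b (l 523705103) (l 523911183)) (b (l 523619599) (l 523776015))) (b (a (l 523546639) (l 523490063)) (a (l 523711247) (l 523664655)))) (a (b (a (l 3) (b (l 523880463) (l 523822095))) (a (l 3) (b (l 523768335) (l 3)))) (b (a (b (l 523849231) (l 523911951)) (l 523806991)) (a (b (l 523961103) (l 523962895)) (b (l 523936783) (l 523989519)))))) (b (a (b (a (l 16673712) (l 16624584)) (a (l 523629327) (l 16667960))) (b (a (l 16596096) (l 16483784)) (c (l 16645168) (l 16606688)))) (a (b (a (l 523786255) (l 523764239)) (a (l 524983823) (l 523902735))) (b (a (l 16641344) (l 16613400)) (a (l 16683608) (l 16635496)))))))), by decide +kernel⟩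

def k6_A04pm_011_s1 : ∃ t, chk3 f_A04pm_011_s1 t 7 7 1 = true :=
  ⟨(a (l 3) (a (b (a (l 3) (b (b (a (b (a (l 523885071) (l 523970319)) (a (l 3) (l 523957263))) (b (l 524033551) (l 524024591))) (a (l 3) (b (a (l 524005647) (l 524049679)) (a (l 3) (l 524030991))))) (b (a (l 3) (b (a (l 3) (l 525348111)) (l 3))) (l 3)))) (l 3)) (a (b (b (b (a (b (l 524034319) (l 524064271)) (b (l 16709328) (l 524068623))) (a (b (l 524044815) (a (l 524050447) (l 524068879))) (b (l 524096015) (l 524064015)))) (b (a (b (a (l 524028431) (l 524048655)) (a (b (l 524055055) (l 524045839)) (l 525095695))) (b (a (l 524067599) (l 16734560)) (a (l 524043791) (l 524063503)))) (a (a (l 3) (b (b (l 524052751) (l 524041231)) (b (l 524026895) (l 3)))) (b (a (b (l 524069391) (l 524059151)) (l 525377295)) (a (b (l 524047119) (l 524032527)) (b (l 524064783) (l 524052239))))))) (b (a (l 3) (b (b (b (a (a (l 3) (l 524053263)) (l 524037135)) (l 14)) (l 14))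 (l 14))) (l 3))) (b (b (b (a (l 525344015) (l 16656280)) (a (b (l 16697168) (l 524098063)) (c (l 16675696) (l 16676104)))) (b (a (b (l 524079375) (a (l 16730800) (l 16718080))) (a (l 16700816) (l 16687952))) (a (b (a (l 524056079) (l 16726992)) (a (b (l 16746288) (l 524069391)) (l 16738464))) (a (c (l 16718600) (l 16718832)) (l 16705928))))) (b (b (b (b (b (a (l 525384719) (l 16722296)) (l 14)) (l 14)) (l 14)) (l 14)) (l 14)))))), by decide +kernel⟩

theorem t7_A04pm_011_s1 : ∃ t, chk3 f_A04pm_011_s1 t 7 3 1 = true := ex3_b k5_A04pm_011_s1 k6_A04pm_011_s1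

theorem t8_A04pm_011_s1 : ∃ t, chk3 f_A04pm_011_s1 t 3 3 1 = true := ex3_a k4_A04pm_011_s1 t7_A04pm_011_s1

theorem t9_A04pm_011_s1 : ∃ t, chk3 f_A04pm_011_s1 t 3 2 2 = true := ex3_c k1_A04pm_011_s1 k2_A04pm_011_s1

theorem t10_A04pm_011_s1 : ∃ t, chk3 f_A04pm_011_s1 t 3 2 1 = true := ex3_c t9_A04pm_011_s1 k3_A04pm_011_s1

theorem t11_A04pm_011_s1 : ∃ t, chk3 f_A04pm_011_s1 t 3 1 1 = true := ex3_b t10_A04pm_011_s1 t8_A04pm_011_s1

theorem t12_A04pm_011_s1 : ∃ t, chk3 f_A04pm_011_s1 t 1 1 1 = true := ex3_a k0_A04pm_011_s1 t11_A04pm_011_s1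

theorem c_A04pm_011_s1 : CertF 0 536870912 536870912 536870912 818728140 40265320 true true false .pnn 0 1 1
    ndB0q0 ndB4q1 pcB1 cut_A04pm_011_s1 xt_A04pm_011_s1 :=
  certF2 (fam := true) (s1 := true) (s2 := false) (a := 0) (b := 1) (c := 1) (cn := .pnn) (n1 := ndB0q0) (n2 := ndB4q1) (pc := pcB1) (cut := cut_A04pm_011_s1) (xt := xt_A04pm_011_s1) (P1 := 0) (W1 := 536870912) (P2 := 536870912) (W2 := 536870912) (P3 := 818728140) (W3 := 40265320)
    rfl (fun _ => rfl) t12_A04pm_011_s1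

theorem s_A04pm_011_s1 {κ x : ℝ} (hκ : κ * h0 = ken x) (hx : ((818728140 : ℕ) : ℝ) / S ≤ x)
    (hx' : x ≤ (((818728140 : ℕ) : ℝ) + (40265320 : ℕ)) / S)
    (H : CutA (VFD κ) PP tK tL pcB (Cut.of [[⟨0, 0, 0, 67108864⟩, ⟨1, 1, 0, 67108864⟩, ⟨2, 1, 0, 67108864⟩]]) 0 1 1 0 4 (sgb true) (sgb false) x) :
    AltA (VFD κ) PP tK tL pcB [⟨3, 0, 0, 1449551462⟩] 0 1 1 0 4 (sgb true) (sgb false) x :=
  strip_altAD (m := 1449551462) true rfl hκ (SH.κ0 hκ (SH.hx1 hx).le (SH.hx2 hx').le) (SH.hx1 hx).le (SH.hx2 hx') (covB00).cov (covB41).cov hx hx' c_A04pm_011_s1 H ((okx hx hx').extA (T := tt) (sideB hx hx') hκ rfl rfl (.O 0 true) (.N 1 false) (Or.inr rfl))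

noncomputable def cut_A04pm_012_s1 : Cut := Cut.of [[⟨4, 0, 0, 1449551462⟩], [⟨0, 0, 0, 67108864⟩, ⟨1, 1, 0, 67108864⟩, ⟨2, 1, 0, 67108864⟩]]

noncomputable def f_A04pm_012_s1 : ℕ → ℕ → ℕ → ℕ → Bool := onCell 1073741824 536870912 536870912 536870912 818728140 40265320
    (rowF 2 true true false .pnp 0 1 2 (qsf 0 536870912 536870912 536870912 2) ndB0q0 ndB4q1 pcB2 cut_A04pm_012_s1 Ext.none)

def k0_A04pm_012_s1 : ∃ t, chk3 f_A04pm_012_s1 t 4 2 1 = true :=
  ⟨(b (a (b (a (b (l 15967528) (l 16030704)) (l 6)) (a (b (l 16089784) (l 16146848)) (l 16252280))) (l 6)) (a (b (a (b (l 16267912) (l 16264464)) (b (l 16165704) (l 16211312))) (a (b (l 16323832) (l 16381472)) (b (l 16250208) (l 16284408)))) (b (a (b (l 16087512) (l 16043504)) (l 6)) (a (b (l 16075800) (l 16185648)) (b (l 16073480) (l 16093688)))))), by decide +kernel⟩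

def k1_A04pm_012_s1 : ∃ t, chk3 f_A04pm_012_s1 t 8 3 1 = true :=
  ⟨(b (b (a (b (a (l 16441728) (l 16402048)) (b (l 16463184) (l 16578960))) (b (l 16316112) (b (l 16255104) (l 16271408)))) (a (a (b (l 16557344) (a (l 16620504) (l 16574560))) (b (l 16482368) (b (l 16513664) (l 16534496)))) (a (b (b (l 16404912) (l 16423520)) (b (l 16442400) (l 16461328))) (b (l 16348184) (l 16465536))))) (b (a (b (b (a (l 16606744) (l 16554144)) (a (a (l 16630704) (l 16625032)) (l 16572280))) (a (a (b (l 16652848) (a (l 16655856) (l 16673632))) (b (l 16644888) (l 16659648))) (b (l 16588248) (a (l 16621376) (l 16583440))))) (b (a (b (l 16480048) (l 16413568)) (b (l 16406936) (l 16423464))) (a (b (l 16513248) (l 16568840)) (b (l 16438568) (l 16452096))))) (a (a (b (a (b (a (l 16699200) (l 16695912)) (l 14)) (b (l 16673248) (b (l 16682888) (l 14)))) (l 14)) (a (b (b (a (l 16602128) (l 16624704)) (a (l 16656240) (l 16636536))) (l 14)) (b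 (b (l 16595872) (b (l 16604416) (l 16609872))) (b (b (l 16615120) (l 14)) (l 14))))) (b (a (a (b (l 16557696) (l 16610376)) (b (l 16519856) (l 16530040))) (b (l 16547384) (b (l 16470880) (l 16559160)))) (a (b (b (a (l 16575800) (l 16536904)) (a (l 16580488) (l 16541240))) (b (a (l 14) (l 16545384)) (l 14))) (a (b (b (l 16498456) (l 16502424)) (b (l 16506208) (l 16551744))) (b (l 16504200) (b (l 16467472) (l 16512656))))))))), by decide +kernel⟩

def k2_A04pm_012_s1 : ∃ t, chk3 f_A04pm_012_s1 t 9 3 1 = true :=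
  ⟨(b (b (a (b (l 16291560) (a (l 16258128) (l 16201576))) (b (l 16108112) (l 16036992))) (a (b (a (l 16283880) (l 16221928)) (a (l 16270528) (l 16245184))) (b (l 16051296) (a (l 16181096) (l 16120256))))) (b (a (b (a (b (l 16334456) (l 16348904)) (l 16206648)) (a (b (l 16362896) (l 16375472)) (b (l 16287440) (l 16298744)))) (a (b (l 16200656) (l 16303840)) (b (l 16134968) (l 16149928)))) (b (a (a (b (l 16386464) (l 16479208)) (b (l 16308600) (l 16316848))) (a (b (l 16233200) (l 16240464)) (b (l 16160280) (l 16166568)))) (a (a (b (b (l 16400784) (l 16487792)) (b (a (l 16427376) (l 16386280)) (a (l 16430152) (l 16388576)))) (b (l 16406816) (b (l 16326296) (l 16411880)))) (b (a (l 16246096) (l 16171376)) (a (b (l 16248832) (l 16250088)) (l 16258416))))))), by decide +kernel⟩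

def k3_A04pm_012_s1 : ∃ t, chk3 f_A04pm_012_s1 t 5 1 1 = true :=
  ⟨(b (b (l 6) (l 6)) (b (a (b (a (a (l 16042256) (l 6)) (l 6)) (a (a (b (l 16053992) (l 16062888)) (a (l 16102704) (a (l 15999352) (l 16154400)))) (b (l 6) (l 15931248)))) (l 6)) (a (b (a (a (b (l 16072560) (l 16083240)) (b (a (l 16027944) (l 15999640)) (a (l 16035408) (b (l 16003720) (l 16006552))))) (b (l 15931824) (b (l 15931552) (l 15931728)))) (a (a (b (b (l 16090744) (l 16095264)) (b (l 16099264) (l 16143720))) (b (a (l 16042536) (a (l 16018232) (l 16002800))) (a (b (l 16046912) (l 16049080)) (b (a (l 16021824) (l 16006000)) (a (l 16023624) (l 16007528)))))) (b (b (l 15932040) (l 15932312)) (b (a (l 15965104) (l 15900176)) (a (l 15965720) (l 15899048)))))) (a (a (b (l 6) (b (l 15842152) (b (l 15837784) (l 15834752)))) (b (l 6) (l 6))) (l 6))))), by decide +kernel⟩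

def k4_A04pm_012_s1 : ∃ t, chk3 f_A04pm_012_s1 t 3 1 1 = true :=
  ⟨(b (l 6) (l 6)), by decide +kernel⟩

theorem t5_A04pm_012_s1 : ∃ t, chk3 f_A04pm_012_s1 t 4 3 1 = true := ex3_a k1_A04pm_012_s1 k2_A04pm_012_s1

theorem t6_A04pm_012_s1 : ∃ t, chk3 f_A04pm_012_s1 t 4 1 1 = true := ex3_b k0_A04pm_012_s1 t5_A04pm_012_s1

theorem t7_A04pm_012_s1 : ∃ t, chk3 f_A04pm_012_s1 t 2 1 1 = true := ex3_a t6_A04pm_012_s1 k3_A04pm_012_s1

theorem t8_A04pm_012_s1 : ∃ t, chk3 f_A04pm_012_s1 t 1 1 1 = true := ex3_a t7_A04pm_012_s1 k4_A04pm_012_s1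

theorem c_A04pm_012_s1 : CertF 0 536870912 536870912 536870912 818728140 40265320 true true false .pnp 0 1 2
    ndB0q0 ndB4q1 pcB2 cut_A04pm_012_s1 Ext.none :=
  certF2 (fam := true) (s1 := true) (s2 := false) (a := 0) (b := 1) (c := 2) (cn := .pnp) (n1 := ndB0q0) (n2 := ndB4q1) (pc := pcB2) (cut := cut_A04pm_012_s1) (xt := Ext.none) (P1 := 0) (W1 := 536870912) (P2 := 536870912) (W2 := 536870912) (P3 := 818728140) (W3 := 40265320)
    rfl (fun _ => rfl) t8_A04pm_012_s1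

theorem s_A04pm_012_s1 {κ x : ℝ} (hκ : κ * h0 = ken x) (hx : ((818728140 : ℕ) : ℝ) / S ≤ x)
    (hx' : x ≤ (((818728140 : ℕ) : ℝ) + (40265320 : ℕ)) / S)
    (H : CutA (VFD κ) PP tK tL pcB (Cut.of [[⟨0, 0, 0, 67108864⟩, ⟨1, 1, 0, 67108864⟩, ⟨2, 1, 0, 67108864⟩]]) 0 1 2 0 4 (sgb true) (sgb false) x) :
    AltA (VFD κ) PP tK tL pcB [⟨3, 0, 0, 1449551462⟩] 0 1 2 0 4 (sgb true) (sgb false) x :=
  strip_altAD (m := 1449551462) true rfl hκ (SH.κ0 hκ (SH.hx1 hx).le (SH.hx2 hx').le) (SH.hx1 hx).le (SH.hx2 hx') (covB00).cov (covB41).cov hx hx' c_A04pm_012_s1 H (noExt_A)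

noncomputable def cut_A04pm_022_s1 : Cut := Cut.of [[⟨4, 0, 0, 1449551462⟩], [⟨0, 0, 0, 67108864⟩, ⟨1, 1, 0, 67108864⟩, ⟨2, 1, 0, 67108864⟩]]

noncomputable def f_A04pm_022_s1 : ℕ → ℕ → ℕ → ℕ → Bool := onCell 1073741824 536870912 1073741824 536870912 818728140 40265320
    (rowF 2 true true false .pp 0 2 2 (qsf 0 536870912 1073741824 536870912 2) ndB0q0 ndB4q2 pcB2 cut_A04pm_022_s1 Ext.none)

def k0_A04pm_022_s1 : ∃ t, chk3 f_A04pm_022_s1 t 4 1 1 = true :=
  ⟨(b (a (b (b (a (b (l 14) (b (l 14) (l 1))) (a (b (l 14) (b (l 14) (a (l 1) (l 750041978791)))) (a (b (l 14) (b (l 14) (l 631393496007))) (b (b (b (l 16528496) (l 16514664)) (a (l 14) (l 16545896))) (b (l 16523856) (l 253436267511)))))) (a (l 1) (b (a (l 1) (b (l 745746942231) (l 1))) (l 1)))) (l 1)) (b (a (b (b (b (a (b (b (l 16480536) (l 16515776)) (a (l 16473992) (l 16432200))) (b (l 16427064) (l 16371504))) (a (b (l 16564416) (l 16591280)) (l 16412680))) (a (b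 (a (l 16483472) (l 16525720)) (l 16596112)) (b (l 16465288) (l 16431328)))) (b (a (b (a (l 471405769351) (l 16615616)) (l 755410553511)) (b (l 16562400) (l 381211375143))) (a (l 1) (l 738230596775)))) (b (b (a (b (b (l 16265192) (l 16293808)) (l 16419232)) (b (l 16288816) (l 16261544))) (a (b (l 16388208) (l 16438440)) (b (l 16315032) (l 16365608)))) (b (a (b (l 16485968) (l 16530736)) (b (l 16413528) (l 16458736))) (a (b (l 342556606599) (l 724808788903)) (b (l 16501160) (l 16438320)))))) (a (l 1) (b (b (a (l 1) (l 719976852743)) (l 1)) (l 1))))) (l 1)), by decide +kernel⟩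

def k1_A04pm_022_s1 : ∃ t, chk3 f_A04pm_022_s1 t 5 1 1 = true :=
  ⟨(b (b (a (b (a (a (b (b (l 16133032) (l 16191088)) (b (l 16245456) (l 16296728))) (b (a (b (l 16080888) (l 16140184)) (b (a (l 16055608) (l 16039848)) (a (l 16115728) (l 16100448)))) (a (l 16221864) (a (l 16198400) (l 16183808))))) (b (b (a (l 15998032) (l 15930624)) (a (l 16059448) (l 15993152))) (b (l 16126160) (l 16139000)))) (b (a (a (l 16368240) (a (l 16319904) (a (l 16297000) (l 16283024)))) (b (l 16189568) (l 16237160))) (a (a (l 16454088) (a (l 16406568) (l 16377824))) (b (l 16281672) (l 16323288))))) (b (b (a (b (b (l 15901688) (l 15849912)) (l 15896808)) (l 6)) (a (b (l 15957128) (l 16013840)) (b (l 6) (l 15894512)))) (b (a (b (l 16066912) (l 16116824)) (b (l 15949672) (l 16001344))) (a (a (l 16213416) (l 16155864)) (b (l 16049504) (l 16094528)))))) (a (b (a (b (a (l 320544585639) (a (l 16463832) (l 16454456))) (a (l 1) (l 598106952711))) (b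 (l 16380808) (l 308733207879))) (a (l 1) (b (l 704944142391) (l 1)))) (a (b (b (l 16264784) (l 16334992)) (b (l 16306352) (l 591126966135))) (b (b (l 16155608) (l 16228248)) (b (l 16288184) (l 16227112)))))) (a (l 1) (b (b (a (l 1) (l 701185633063)) (l 1)) (l 1)))), by decide +kernel⟩

def k2_A04pm_022_s1 : ∃ t, chk3 f_A04pm_022_s1 t 3 1 1 = true :=
  ⟨(a (a (a (b (b (l 6) (b (b (l 16052440) (l 16128224)) (c (l 16218944) (l 16226568)))) (b (b (b (l 16148672) (l 16072864)) (l 1)) (l 1))) (b (b (l 6) (l 6)) (b (b (l 16107456) (l 585758494887)) (l 1)))) (b (l 6) (a (b (l 6) (l 1)) (l 6)))) (b (l 6) (l 6))), by decide +kernel⟩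

theorem t3_A04pm_022_s1 : ∃ t, chk3 f_A04pm_022_s1 t 2 1 1 = true := ex3_a k0_A04pm_022_s1 k1_A04pm_022_s1

theorem t4_A04pm_022_s1 : ∃ t, chk3 f_A04pm_022_s1 t 1 1 1 = true := ex3_a t3_A04pm_022_s1 k2_A04pm_022_s1

theorem c_A04pm_022_s1 : CertF 0 536870912 1073741824 536870912 818728140 40265320 true true false .pp 0 2 2
    ndB0q0 ndB4q2 pcB2 cut_A04pm_022_s1 Ext.none :=
  certF2 (fam := true) (s1 := true) (s2 := false) (a := 0) (b := 2) (c := 2) (cn := .pp) (n1 := ndB0q0) (n2 := ndB4q2) (pc := pcB2) (cut := cut_A04pm_022_s1) (xt := Ext.none) (P1 := 0) (W1 := 536870912) (P2 := 1073741824) (W2 := 536870912) (P3 := 818728140) (W3 := 40265320)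
    rfl (fun _ => rfl) t4_A04pm_022_s1

theorem s_A04pm_022_s1 {κ x : ℝ} (hκ : κ * h0 = ken x) (hx : ((818728140 : ℕ) : ℝ) / S ≤ x)
    (hx' : x ≤ (((818728140 : ℕ) : ℝ) + (40265320 : ℕ)) / S)
    (H : CutA (VFD κ) PP tK tL pcB (Cut.of [[⟨0, 0, 0, 67108864⟩, ⟨1, 1, 0, 67108864⟩, ⟨2, 1, 0, 67108864⟩]]) 0 2 2 0 4 (sgb true) (sgb false) x) :
    AltA (VFD κ) PP tK tL pcB [⟨3, 0, 0, 1449551462⟩] 0 2 2 0 4 (sgb true) (sgb false) x :=
  strip_altAD (m := 1449551462) true rfl hκ (SH.κ0 hκ (SH.hx1 hx).le (SH.hx2 hx').le) (SH.hx1 hx).le (SH.hx2 hx') (covB00).cov (covB42).cov hx hx' c_A04pm_022_s1 H (noExt_A)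

noncomputable def cut_A04pm_023_s1 : Cut := Cut.of [[⟨4, 0, 0, 1449551462⟩]]

noncomputable def f_A04pm_023_s1 : ℕ → ℕ → ℕ → ℕ → Bool := onCell 1610612736 536870912 1073741824 536870912 818728140 40265320
    (rowF 2 true true false .up 0 2 3 (qsf 0 536870912 1073741824 536870912 3) ndB0q0 ndB4q2 pcB3 cut_A04pm_023_s1 Ext.none)

def k0_A04pm_023_s1 : ∃ t, chk3 f_A04pm_023_s1 t 1 1 1 = true :=
  ⟨(a (l 6) (l 6)), by decide +kernel⟩

theorem c_A04pm_023_s1 : CertF 0 536870912 1073741824 536870912 818728140 40265320 true true false .up 0 2 3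
    ndB0q0 ndB4q2 pcB3 cut_A04pm_023_s1 Ext.none :=
  certF2 (fam := true) (s1 := true) (s2 := false) (a := 0) (b := 2) (c := 3) (cn := .up) (n1 := ndB0q0) (n2 := ndB4q2) (pc := pcB3) (cut := cut_A04pm_023_s1) (xt := Ext.none) (P1 := 0) (W1 := 536870912) (P2 := 1073741824) (W2 := 536870912) (P3 := 818728140) (W3 := 40265320)
    rfl (fun _ => rfl) k0_A04pm_023_s1

theorem s_A04pm_023_s1 {κ x : ℝ} (hκ : κ * h0 = ken x) (hx : ((818728140 : ℕ) : ℝ) / S ≤ x)
    (hx' : x ≤ (((818728140 : ℕ) : ℝ) + (40265320 : ℕ)) / S) :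
    AltA (VFD κ) PP tK tL pcB [⟨3, 0, 0, 1449551462⟩] 0 2 3 0 4 (sgb true) (sgb false) x :=
  strip_altAD (m := 1449551462) true rfl hκ (SH.κ0 hκ (SH.hx1 hx).le (SH.hx2 hx').le) (SH.hx1 hx).le (SH.hx2 hx') (covB00).cov (covB42).cov hx hx' c_A04pm_023_s1 cutA_nil (noExt_A)

noncomputable def cut_A04pm_033_s1 : Cut := Cut.of [[⟨4, 0, 0, 1449551462⟩]]

noncomputable def f_A04pm_033_s1 : ℕ → ℕ → ℕ → ℕ → Bool := onCell 1610612736 536870912 0 1230186008 818728140 40265320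
    (rowF 2 true true false .pnn 0 3 3 (qsf 0 536870912 0 1230186008 3) ndB0q0 ndB4q3 pcB3 cut_A04pm_033_s1 Ext.none)

def k0_A04pm_033_s1 : ∃ t, chk3 f_A04pm_033_s1 t 1 1 1 = true :=
  ⟨(b (l 6) (l 6)), by decide +kernel⟩

theorem c_A04pm_033_s1 : CertF 0 536870912 0 1230186008 818728140 40265320 true true false .pnn 0 3 3
    ndB0q0 ndB4q3 pcB3 cut_A04pm_033_s1 Ext.none :=
  certF2 (fam := true) (s1 := true) (s2 := false) (a := 0) (b := 3) (c := 3) (cn := .pnn) (n1 := ndB0q0) (n2 := ndB4q3) (pc := pcB3) (cut := cut_A04pm_033_s1) (xt := Ext.none) (P1 := 0) (W1 := 536870912) (P2 := 0) (W2 := 1230186008) (P3 := 818728140) (W3 := 40265320)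
    rfl (fun _ => rfl) k0_A04pm_033_s1

theorem s_A04pm_033_s1 {κ x : ℝ} (hκ : κ * h0 = ken x) (hx : ((818728140 : ℕ) : ℝ) / S ≤ x)
    (hx' : x ≤ (((818728140 : ℕ) : ℝ) + (40265320 : ℕ)) / S) :
    AltA (VFD κ) PP tK tL pcB [⟨3, 0, 0, 1449551462⟩] 0 3 3 0 4 (sgb true) (sgb false) x :=
  strip_altAD (m := 1449551462) true rfl hκ (SH.κ0 hκ (SH.hx1 hx).le (SH.hx2 hx').le) (SH.hx1 hx).le (SH.hx2 hx') (covB00).cov (covB43).cov hx hx' c_A04pm_033_s1 cutA_nil (noExt_A)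

noncomputable def cut_A04pm_101_s1 : Cut := Cut.of [[⟨4, 0, 0, 1449551462⟩]]

noncomputable def xt_A04pm_101_s1 : Ext := strExt dd true true false .u0 .s0m .u0m .npn 1 0 1 rfl rfl gf1 vv ndB0q1 ndB4q0

noncomputable def f_A04pm_101_s1 : ℕ → ℕ → ℕ → ℕ → Bool := onCell 536870912 536870912 536870912 536870912 818728140 40265320
    (rowF 1 true true false .npn 1 0 1 (qsf 536870912 536870912 0 536870912 1) ndB0q1 ndB4q0 pcB1 cut_A04pm_101_s1 xt_A04pm_101_s1)

def k0_A04pm_101_s1 : ∃ t, chk3 f_A04pm_101_s1 t 1 1 1 = true :=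
  ⟨(b (a (b (a (b (a (l 3) (b (l 1) (l 525174287))) (a (a (a (l 3) (l 524717583)) (l 525105423)) (l 525663247))) (a (b (l 1) (a (a (l 525927695) (l 1)) (l 1))) (l 1))) (a (b (a (b (a (a (b (l 524034319) (l 523288847)) (l 525447695)) (b (l 525047055) (l 524744719))) (a (a (l 521895183) (l 523019023)) (b (l 524370447) (l 16719368)))) (b (l 525765391) (l 526163215))) (a (b (a (b (a (l 16717304) (l 16630520)) (l 520745999)) (b (l 16595928) (l 16555416))) (a (a (l 16612848) (l 16605584)) (l 16660384))) (b (a (l 16616528) (l 16489448)) (a (l 16454200) (l 16415640))))) (b (a (a (b (l 16654304) (l 16511416)) (b (l 16518384) (l 16456448))) (a (l 111702558311) (l 1))) (a (b (a (l 16445040) (l 16391632)) (a (l 16375664) (l 16326440))) (a (l 16467760) (l 16245848)))))) (a (b (l 1) (a (b (l 1) (l 117607934119)) (l 1))) (l 1))) (a (b (b (a (a (a (b (l 16552480) (l 16413208)) (b (l 16402744) (l 16341624))) (b (a (l 16368728) (l 16335920))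 (l 16337232))) (a (a (l 16258440) (l 16216816)) (a (l 16164064) (l 16110800)))) (a (a (b (a (l 16357320) (l 16291896)) (a (l 16300672) (l 16238864))) (b (l 16184832) (l 16139192))) (a (b (l 16098520) (l 15996960)) (b (l 16022784) (l 6))))) (a (b (a (b (l 16299216) (l 16247464)) (b (l 16093288) (l 16048720))) (a (a (l 16205992) (l 16070656)) (b (l 16009288) (l 6)))) (b (a (b (l 15961392) (l 6)) (l 6)) (l 6)))) (a (b (a (l 6) (l 6)) (l 6)) (l 6)))), by decide +kernel⟩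

theorem c_A04pm_101_s1 : CertF 536870912 536870912 0 536870912 818728140 40265320 true true false .npn 1 0 1
    ndB0q1 ndB4q0 pcB1 cut_A04pm_101_s1 xt_A04pm_101_s1 :=
  certF1 (fam := true) (s1 := true) (s2 := false) (a := 1) (b := 0) (c := 1) (cn := .npn) (n1 := ndB0q1) (n2 := ndB4q0) (pc := pcB1) (cut := cut_A04pm_101_s1) (xt := xt_A04pm_101_s1) (P1 := 536870912) (W1 := 536870912) (P2 := 0) (W2 := 536870912) (P3 := 818728140) (W3 := 40265320)
    rfl (fun _ => rfl) k0_A04pm_101_s1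

theorem s_A04pm_101_s1 {κ x : ℝ} (hκ : κ * h0 = ken x) (hx : ((818728140 : ℕ) : ℝ) / S ≤ x)
    (hx' : x ≤ (((818728140 : ℕ) : ℝ) + (40265320 : ℕ)) / S) :
    AltA (VFD κ) PP tK tL pcB [⟨3, 0, 0, 1449551462⟩] 1 0 1 0 4 (sgb true) (sgb false) x :=
  strip_altAD (m := 1449551462) true rfl hκ (SH.κ0 hκ (SH.hx1 hx).le (SH.hx2 hx').le) (SH.hx1 hx).le (SH.hx2 hx') (covB01).cov (covB40).cov hx hx' c_A04pm_101_s1 cutA_nil ((okx hx hx').extA (T := tt) (sideB hx hx') hκ rfl rfl (.O 1 true) (.N 0 false) (Or.inr rfl))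

noncomputable def cut_A04pm_102_s1 : Cut := Cut.of [[⟨4, 0, 0, 1449551462⟩]]

noncomputable def f_A04pm_102_s1 : ℕ → ℕ → ℕ → ℕ → Bool := onCell 536870912 536870912 1073741824 536870912 818728140 40265320
    (rowF 1 true true false .npp 1 0 2 (qsf 536870912 536870912 0 536870912 2) ndB0q1 ndB4q0 pcB2 cut_A04pm_102_s1 Ext.none)

def k0_A04pm_102_s1 : ∃ t, chk3 f_A04pm_102_s1 t 1 1 1 = true :=
  ⟨(a (b (a (b (a (b (b (l 15983520) (l 6)) (l 6)) (l 6)) (l 6)) (l 6)) (l 6)) (l 6)), by decide +kernel⟩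

theorem c_A04pm_102_s1 : CertF 536870912 536870912 0 536870912 818728140 40265320 true true false .npp 1 0 2
    ndB0q1 ndB4q0 pcB2 cut_A04pm_102_s1 Ext.none :=
  certF1 (fam := true) (s1 := true) (s2 := false) (a := 1) (b := 0) (c := 2) (cn := .npp) (n1 := ndB0q1) (n2 := ndB4q0) (pc := pcB2) (cut := cut_A04pm_102_s1) (xt := Ext.none) (P1 := 536870912) (W1 := 536870912) (P2 := 0) (W2 := 536870912) (P3 := 818728140) (W3 := 40265320)
    rfl (fun _ => rfl) k0_A04pm_102_s1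

theorem s_A04pm_102_s1 {κ x : ℝ} (hκ : κ * h0 = ken x) (hx : ((818728140 : ℕ) : ℝ) / S ≤ x)
    (hx' : x ≤ (((818728140 : ℕ) : ℝ) + (40265320 : ℕ)) / S) :
    AltA (VFD κ) PP tK tL pcB [⟨3, 0, 0, 1449551462⟩] 1 0 2 0 4 (sgb true) (sgb false) x :=
  strip_altAD (m := 1449551462) true rfl hκ (SH.κ0 hκ (SH.hx1 hx).le (SH.hx2 hx').le) (SH.hx1 hx).le (SH.hx2 hx') (covB01).cov (covB40).cov hx hx' c_A04pm_102_s1 cutA_nil (noExt_A)

noncomputable def cut_A04pm_112_s1 : Cut := Cut.of [[⟨4, 0, 0, 1449551462⟩]]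

noncomputable def f_A04pm_112_s1 : ℕ → ℕ → ℕ → ℕ → Bool := onCell 536870912 536870912 536870912 536870912 818728140 40265320
    (rowF 0 true true false .dn 1 1 2 (qsf 536870912 536870912 536870912 536870912 2) ndB0q1 ndB4q1 pcB2 cut_A04pm_112_s1 Ext.none)

def k0_A04pm_112_s1 : ∃ t, chk3 f_A04pm_112_s1 t 1 1 1 = true :=
  ⟨(a (b (b (a (a (b (a (l 15965040) (l 6)) (l 6)) (l 6)) (l 6)) (l 6)) (l 6)) (l 6)), by decide +kernel⟩

theorem c_A04pm_112_s1 : CertF 536870912 536870912 536870912 536870912 818728140 40265320 true true false .dn 1 1 2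
    ndB0q1 ndB4q1 pcB2 cut_A04pm_112_s1 Ext.none :=
  certF0 (fam := true) (s1 := true) (s2 := false) (a := 1) (b := 1) (c := 2) (cn := .dn) (n1 := ndB0q1) (n2 := ndB4q1) (pc := pcB2) (cut := cut_A04pm_112_s1) (xt := Ext.none) (P1 := 536870912) (W1 := 536870912) (P2 := 536870912) (W2 := 536870912) (P3 := 818728140) (W3 := 40265320)
    rfl k0_A04pm_112_s1

theorem s_A04pm_112_s1 {κ x : ℝ} (hκ : κ * h0 = ken x) (hx : ((818728140 : ℕ) : ℝ) / S ≤ x)
    (hx' : x ≤ (((818728140 : ℕ) : ℝ) + (40265320 : ℕ)) / S) :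
    AltA (VFD κ) PP tK tL pcB [⟨3, 0, 0, 1449551462⟩] 1 1 2 0 4 (sgb true) (sgb false) x :=
  strip_altAD (m := 1449551462) true rfl hκ (SH.κ0 hκ (SH.hx1 hx).le (SH.hx2 hx').le) (SH.hx1 hx).le (SH.hx2 hx') (covB01).cov (covB41).cov hx hx' c_A04pm_112_s1 cutA_nil (noExt_A)

noncomputable def cut_A04pm_113_s1 : Cut := Cut.of [[⟨4, 0, 0, 1449551462⟩]]

noncomputable def f_A04pm_113_s1 : ℕ → ℕ → ℕ → ℕ → Bool := onCell 536870912 536870912 1610612736 536870912 818728140 40265320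
    (rowF 1 true true false .nn 1 1 3 (qsf 536870912 536870912 536870912 536870912 3) ndB0q1 ndB4q1 pcB3 cut_A04pm_113_s1 Ext.none)

def k0_A04pm_113_s1 : ∃ t, chk3 f_A04pm_113_s1 t 1 1 1 = true :=
  ⟨(l 6), by decide +kernel⟩

theorem c_A04pm_113_s1 : CertF 536870912 536870912 536870912 536870912 818728140 40265320 true true false .nn 1 1 3
    ndB0q1 ndB4q1 pcB3 cut_A04pm_113_s1 Ext.none :=
  certF1 (fam := true) (s1 := true) (s2 := false) (a := 1) (b := 1) (c := 3) (cn := .nn) (n1 := ndB0q1) (n2 := ndB4q1) (pc := pcB3) (cut := cut_A04pm_113_s1) (xt := Ext.none) (P1 := 536870912) (W1 := 536870912) (P2 := 536870912) (W2 := 536870912) (P3 := 818728140) (W3 := 40265320)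
    rfl (fun _ => rfl) k0_A04pm_113_s1

theorem s_A04pm_113_s1 {κ x : ℝ} (hκ : κ * h0 = ken x) (hx : ((818728140 : ℕ) : ℝ) / S ≤ x)
    (hx' : x ≤ (((818728140 : ℕ) : ℝ) + (40265320 : ℕ)) / S) :
    AltA (VFD κ) PP tK tL pcB [⟨3, 0, 0, 1449551462⟩] 1 1 3 0 4 (sgb true) (sgb false) x :=
  strip_altAD (m := 1449551462) true rfl hκ (SH.κ0 hκ (SH.hx1 hx).le (SH.hx2 hx').le) (SH.hx1 hx).le (SH.hx2 hx') (covB01).cov (covB41).cov hx hx' c_A04pm_113_s1 cutA_nil (noExt_A)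

noncomputable def cut_A04pm_123_s1 : Cut := Cut.of [[⟨4, 0, 0, 1449551462⟩]]

noncomputable def f_A04pm_123_s1 : ℕ → ℕ → ℕ → ℕ → Bool := onCell 536870912 536870912 1073741824 536870912 818728140 40265320
    (rowF 0 true true false .npn 1 2 3 (qsf 536870912 536870912 1073741824 536870912 3) ndB0q1 ndB4q2 pcB3 cut_A04pm_123_s1 Ext.none)

def k0_A04pm_123_s1 : ∃ t, chk3 f_A04pm_123_s1 t 1 1 1 = true :=
  ⟨(l 6), by decide +kernel⟩

theorem c_A04pm_123_s1 : CertF 536870912 536870912 1073741824 536870912 818728140 40265320 true true false .npn 1 2 3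
    ndB0q1 ndB4q2 pcB3 cut_A04pm_123_s1 Ext.none :=
  certF0 (fam := true) (s1 := true) (s2 := false) (a := 1) (b := 2) (c := 3) (cn := .npn) (n1 := ndB0q1) (n2 := ndB4q2) (pc := pcB3) (cut := cut_A04pm_123_s1) (xt := Ext.none) (P1 := 536870912) (W1 := 536870912) (P2 := 1073741824) (W2 := 536870912) (P3 := 818728140) (W3 := 40265320)
    rfl k0_A04pm_123_s1

theorem s_A04pm_123_s1 {κ x : ℝ} (hκ : κ * h0 = ken x) (hx : ((818728140 : ℕ) : ℝ) / S ≤ x)
    (hx' : x ≤ (((818728140 : ℕ) : ℝ) + (40265320 : ℕ)) / S) :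
    AltA (VFD κ) PP tK tL pcB [⟨3, 0, 0, 1449551462⟩] 1 2 3 0 4 (sgb true) (sgb false) x :=
  strip_altAD (m := 1449551462) true rfl hκ (SH.κ0 hκ (SH.hx1 hx).le (SH.hx2 hx').le) (SH.hx1 hx).le (SH.hx2 hx') (covB01).cov (covB42).cov hx hx' c_A04pm_123_s1 cutA_nil (noExt_A)

noncomputable def cut_A04pm_133_s1 : Cut := Cut.of [[⟨4, 0, 0, 1449551462⟩]]

noncomputable def f_A04pm_133_s1 : ℕ → ℕ → ℕ → ℕ → Bool := onCell 536870912 536870912 0 1230186008 818728140 40265320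
    (rowF 0 true true false .dn 1 3 3 (qsf 536870912 536870912 0 1230186008 3) ndB0q1 ndB4q3 pcB3 cut_A04pm_133_s1 Ext.none)

def k0_A04pm_133_s1 : ∃ t, chk3 f_A04pm_133_s1 t 1 1 1 = true :=
  ⟨(l 6), by decide +kernel⟩

theorem c_A04pm_133_s1 : CertF 536870912 536870912 0 1230186008 818728140 40265320 true true false .dn 1 3 3
    ndB0q1 ndB4q3 pcB3 cut_A04pm_133_s1 Ext.none :=
  certF0 (fam := true) (s1 := true) (s2 := false) (a := 1) (b := 3) (c := 3) (cn := .dn) (n1 := ndB0q1) (n2 := ndB4q3) (pc := pcB3) (cut := cut_A04pm_133_s1) (xt := Ext.none) (P1 := 536870912) (W1 := 536870912) (P2 := 0) (W2 := 1230186008) (P3 := 818728140) (W3 := 40265320)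
    rfl k0_A04pm_133_s1

theorem s_A04pm_133_s1 {κ x : ℝ} (hκ : κ * h0 = ken x) (hx : ((818728140 : ℕ) : ℝ) / S ≤ x)
    (hx' : x ≤ (((818728140 : ℕ) : ℝ) + (40265320 : ℕ)) / S) :
    AltA (VFD κ) PP tK tL pcB [⟨3, 0, 0, 1449551462⟩] 1 3 3 0 4 (sgb true) (sgb false) x :=
  strip_altAD (m := 1449551462) true rfl hκ (SH.κ0 hκ (SH.hx1 hx).le (SH.hx2 hx').le) (SH.hx1 hx).le (SH.hx2 hx') (covB01).cov (covB43).cov hx hx' c_A04pm_133_s1 cutA_nil (noExt_A)

noncomputable def cut_A04pm_202_s1 : Cut := Cut.of [[⟨4, 0, 0, 1449551462⟩]]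

noncomputable def f_A04pm_202_s1 : ℕ → ℕ → ℕ → ℕ → Bool := onCell 0 536870912 0 536870912 818728140 40265320
    (rowF 0 true true false .pp 2 0 2 (qsf 0 536870912 0 536870912 2) ndB0q2 ndB4q0 pcB2 cut_A04pm_202_s1 Ext.none)

def k0_A04pm_202_s1 : ∃ t, chk3 f_A04pm_202_s1 t 1 1 1 = true :=
  ⟨(l 6), by decide +kernel⟩

theorem c_A04pm_202_s1 : CertF 0 536870912 0 536870912 818728140 40265320 true true false .pp 2 0 2
    ndB0q2 ndB4q0 pcB2 cut_A04pm_202_s1 Ext.none :=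
  certF0 (fam := true) (s1 := true) (s2 := false) (a := 2) (b := 0) (c := 2) (cn := .pp) (n1 := ndB0q2) (n2 := ndB4q0) (pc := pcB2) (cut := cut_A04pm_202_s1) (xt := Ext.none) (P1 := 0) (W1 := 536870912) (P2 := 0) (W2 := 536870912) (P3 := 818728140) (W3 := 40265320)
    rfl k0_A04pm_202_s1

theorem s_A04pm_202_s1 {κ x : ℝ} (hκ : κ * h0 = ken x) (hx : ((818728140 : ℕ) : ℝ) / S ≤ x)
    (hx' : x ≤ (((818728140 : ℕ) : ℝ) + (40265320 : ℕ)) / S) :
    AltA (VFD κ) PP tK tL pcB [⟨3, 0, 0, 1449551462⟩] 2 0 2 0 4 (sgb true) (sgb false) x :=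
  strip_altAD (m := 1449551462) true rfl hκ (SH.κ0 hκ (SH.hx1 hx).le (SH.hx2 hx').le) (SH.hx1 hx).le (SH.hx2 hx') (covB02).cov (covB40).cov hx hx' c_A04pm_202_s1 cutA_nil (noExt_A)

noncomputable def cut_A04pm_203_s1 : Cut := Cut.of [[⟨4, 0, 0, 1449551462⟩]]

noncomputable def f_A04pm_203_s1 : ℕ → ℕ → ℕ → ℕ → Bool := onCell 0 536870912 0 536870912 818728140 40265320
    (rowF 0 true true false .up 2 0 3 (qsf 0 536870912 0 536870912 3) ndB0q2 ndB4q0 pcB3 cut_A04pm_203_s1 Ext.none)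

def k0_A04pm_203_s1 : ∃ t, chk3 f_A04pm_203_s1 t 1 1 1 = true :=
  ⟨(l 6), by decide +kernel⟩

theorem c_A04pm_203_s1 : CertF 0 536870912 0 536870912 818728140 40265320 true true false .up 2 0 3
    ndB0q2 ndB4q0 pcB3 cut_A04pm_203_s1 Ext.none :=
  certF0 (fam := true) (s1 := true) (s2 := false) (a := 2) (b := 0) (c := 3) (cn := .up) (n1 := ndB0q2) (n2 := ndB4q0) (pc := pcB3) (cut := cut_A04pm_203_s1) (xt := Ext.none) (P1 := 0) (W1 := 536870912) (P2 := 0) (W2 := 536870912) (P3 := 818728140) (W3 := 40265320)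
    rfl k0_A04pm_203_s1

theorem s_A04pm_203_s1 {κ x : ℝ} (hκ : κ * h0 = ken x) (hx : ((818728140 : ℕ) : ℝ) / S ≤ x)
    (hx' : x ≤ (((818728140 : ℕ) : ℝ) + (40265320 : ℕ)) / S) :
    AltA (VFD κ) PP tK tL pcB [⟨3, 0, 0, 1449551462⟩] 2 0 3 0 4 (sgb true) (sgb false) x :=
  strip_altAD (m := 1449551462) true rfl hκ (SH.κ0 hκ (SH.hx1 hx).le (SH.hx2 hx').le) (SH.hx1 hx).le (SH.hx2 hx') (covB02).cov (covB40).cov hx hx' c_A04pm_203_s1 cutA_nil (noExt_A)

noncomputable def cut_A04pm_213_s1 : Cut := Cut.of [[⟨4, 0, 0, 1449551462⟩]]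

noncomputable def f_A04pm_213_s1 : ℕ → ℕ → ℕ → ℕ → Bool := onCell 0 536870912 536870912 536870912 818728140 40265320
    (rowF 0 true true false .pnn 2 1 3 (qsf 0 536870912 536870912 536870912 3) ndB0q2 ndB4q1 pcB3 cut_A04pm_213_s1 Ext.none)

def k0_A04pm_213_s1 : ∃ t, chk3 f_A04pm_213_s1 t 1 1 1 = true :=
  ⟨(l 6), by decide +kernel⟩

theorem c_A04pm_213_s1 : CertF 0 536870912 536870912 536870912 818728140 40265320 true true false .pnn 2 1 3
    ndB0q2 ndB4q1 pcB3 cut_A04pm_213_s1 Ext.none :=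
  certF0 (fam := true) (s1 := true) (s2 := false) (a := 2) (b := 1) (c := 3) (cn := .pnn) (n1 := ndB0q2) (n2 := ndB4q1) (pc := pcB3) (cut := cut_A04pm_213_s1) (xt := Ext.none) (P1 := 0) (W1 := 536870912) (P2 := 536870912) (W2 := 536870912) (P3 := 818728140) (W3 := 40265320)
    rfl k0_A04pm_213_s1

theorem s_A04pm_213_s1 {κ x : ℝ} (hκ : κ * h0 = ken x) (hx : ((818728140 : ℕ) : ℝ) / S ≤ x)
    (hx' : x ≤ (((818728140 : ℕ) : ℝ) + (40265320 : ℕ)) / S) :
    AltA (VFD κ) PP tK tL pcB [⟨3, 0, 0, 1449551462⟩] 2 1 3 0 4 (sgb true) (sgb false) x :=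
  strip_altAD (m := 1449551462) true rfl hκ (SH.κ0 hκ (SH.hx1 hx).le (SH.hx2 hx').le) (SH.hx1 hx).le (SH.hx2 hx') (covB02).cov (covB41).cov hx hx' c_A04pm_213_s1 cutA_nil (noExt_A)

noncomputable def cut_A04mm_001_s1 : Cut := Cut.of [[⟨4, 0, 0, 1449551462⟩]]

noncomputable def f_A04mm_001_s1 : ℕ → ℕ → ℕ → ℕ → Bool := onCell 0 536870912 0 536870912 818728140 40265320
    (rowF 0 true false false .up 0 0 1 (qsf 0 536870912 0 536870912 1) ndB0q0 ndB4q0 pcB1 cut_A04mm_001_s1 Ext.none)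

def k0_A04mm_001_s1 : ∃ t, chk3 f_A04mm_001_s1 t 1 1 1 = true :=
  ⟨(l 4), by decide +kernel⟩

theorem c_A04mm_001_s1 : CertF 0 536870912 0 536870912 818728140 40265320 true false false .up 0 0 1
    ndB0q0 ndB4q0 pcB1 cut_A04mm_001_s1 Ext.none :=
  certF0 (fam := true) (s1 := false) (s2 := false) (a := 0) (b := 0) (c := 1) (cn := .up) (n1 := ndB0q0) (n2 := ndB4q0) (pc := pcB1) (cut := cut_A04mm_001_s1) (xt := Ext.none) (P1 := 0) (W1 := 536870912) (P2 := 0) (W2 := 536870912) (P3 := 818728140) (W3 := 40265320)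
    rfl k0_A04mm_001_s1

theorem s_A04mm_001_s1 {κ x : ℝ} (hκ : κ * h0 = ken x) (hx : ((818728140 : ℕ) : ℝ) / S ≤ x)
    (hx' : x ≤ (((818728140 : ℕ) : ℝ) + (40265320 : ℕ)) / S) :
    AltA (VFD κ) PP tK tL pcB [⟨3, 0, 0, 1449551462⟩] 0 0 1 0 4 (sgb false) (sgb false) x :=
  strip_altAD (m := 1449551462) true rfl hκ (SH.κ0 hκ (SH.hx1 hx).le (SH.hx2 hx').le) (SH.hx1 hx).le (SH.hx2 hx') (covB00).cov (covB40).cov hx hx' c_A04mm_001_s1 cutA_nil (noExt_A)

noncomputable def cut_A04mm_011_s1 : Cut := Cut.of [[⟨4, 0, 0, 1449551462⟩]]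

noncomputable def f_A04mm_011_s1 : ℕ → ℕ → ℕ → ℕ → Bool := onCell 0 536870912 536870912 536870912 818728140 40265320
    (rowF 0 true false false .pnn 0 1 1 (qsf 0 536870912 536870912 536870912 1) ndB0q0 ndB4q1 pcB1 cut_A04mm_011_s1 Ext.none)

def k0_A04mm_011_s1 : ∃ t, chk3 f_A04mm_011_s1 t 1 1 1 = true :=
  ⟨(l 4), by decide +kernel⟩

theorem c_A04mm_011_s1 : CertF 0 536870912 536870912 536870912 818728140 40265320 true false false .pnn 0 1 1
    ndB0q0 ndB4q1 pcB1 cut_A04mm_011_s1 Ext.none :=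
  certF0 (fam := true) (s1 := false) (s2 := false) (a := 0) (b := 1) (c := 1) (cn := .pnn) (n1 := ndB0q0) (n2 := ndB4q1) (pc := pcB1) (cut := cut_A04mm_011_s1) (xt := Ext.none) (P1 := 0) (W1 := 536870912) (P2 := 536870912) (W2 := 536870912) (P3 := 818728140) (W3 := 40265320)
    rfl k0_A04mm_011_s1

theorem s_A04mm_011_s1 {κ x : ℝ} (hκ : κ * h0 = ken x) (hx : ((818728140 : ℕ) : ℝ) / S ≤ x)
    (hx' : x ≤ (((818728140 : ℕ) : ℝ) + (40265320 : ℕ)) / S) :
    AltA (VFD κ) PP tK tL pcB [⟨3, 0, 0, 1449551462⟩] 0 1 1 0 4 (sgb false) (sgb false) x :=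
  strip_altAD (m := 1449551462) true rfl hκ (SH.κ0 hκ (SH.hx1 hx).le (SH.hx2 hx').le) (SH.hx1 hx).le (SH.hx2 hx') (covB00).cov (covB41).cov hx hx' c_A04mm_011_s1 cutA_nil (noExt_A)

noncomputable def cut_A04mm_012_s1 : Cut := Cut.of [[⟨4, 0, 0, 1449551462⟩]]

noncomputable def f_A04mm_012_s1 : ℕ → ℕ → ℕ → ℕ → Bool := onCell 0 536870912 536870912 536870912 818728140 40265320
    (rowF 0 true false false .pnp 0 1 2 (qsf 0 536870912 536870912 536870912 2) ndB0q0 ndB4q1 pcB2 cut_A04mm_012_s1 Ext.none)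

def k0_A04mm_012_s1 : ∃ t, chk3 f_A04mm_012_s1 t 1 1 1 = true :=
  ⟨(l 4), by decide +kernel⟩

theorem c_A04mm_012_s1 : CertF 0 536870912 536870912 536870912 818728140 40265320 true false false .pnp 0 1 2
    ndB0q0 ndB4q1 pcB2 cut_A04mm_012_s1 Ext.none :=
  certF0 (fam := true) (s1 := false) (s2 := false) (a := 0) (b := 1) (c := 2) (cn := .pnp) (n1 := ndB0q0) (n2 := ndB4q1) (pc := pcB2) (cut := cut_A04mm_012_s1) (xt := Ext.none) (P1 := 0) (W1 := 536870912) (P2 := 536870912) (W2 := 536870912) (P3 := 818728140) (W3 := 40265320)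
    rfl k0_A04mm_012_s1

theorem s_A04mm_012_s1 {κ x : ℝ} (hκ : κ * h0 = ken x) (hx : ((818728140 : ℕ) : ℝ) / S ≤ x)
    (hx' : x ≤ (((818728140 : ℕ) : ℝ) + (40265320 : ℕ)) / S) :
    AltA (VFD κ) PP tK tL pcB [⟨3, 0, 0, 1449551462⟩] 0 1 2 0 4 (sgb false) (sgb false) x :=
  strip_altAD (m := 1449551462) true rfl hκ (SH.κ0 hκ (SH.hx1 hx).le (SH.hx2 hx').le) (SH.hx1 hx).le (SH.hx2 hx') (covB00).cov (covB41).cov hx hx' c_A04mm_012_s1 cutA_nil (noExt_A)

noncomputable def cut_A04mm_022_s1 : Cut := Cut.of [[⟨4, 0, 0, 1449551462⟩]]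

noncomputable def f_A04mm_022_s1 : ℕ → ℕ → ℕ → ℕ → Bool := onCell 0 536870912 1073741824 536870912 818728140 40265320
    (rowF 0 true false false .pp 0 2 2 (qsf 0 536870912 1073741824 536870912 2) ndB0q0 ndB4q2 pcB2 cut_A04mm_022_s1 Ext.none)

def k0_A04mm_022_s1 : ∃ t, chk3 f_A04mm_022_s1 t 1 1 1 = true :=
  ⟨(l 4), by decide +kernel⟩

theorem c_A04mm_022_s1 : CertF 0 536870912 1073741824 536870912 818728140 40265320 true false false .pp 0 2 2
    ndB0q0 ndB4q2 pcB2 cut_A04mm_022_s1 Ext.none :=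
  certF0 (fam := true) (s1 := false) (s2 := false) (a := 0) (b := 2) (c := 2) (cn := .pp) (n1 := ndB0q0) (n2 := ndB4q2) (pc := pcB2) (cut := cut_A04mm_022_s1) (xt := Ext.none) (P1 := 0) (W1 := 536870912) (P2 := 1073741824) (W2 := 536870912) (P3 := 818728140) (W3 := 40265320)
    rfl k0_A04mm_022_s1

theorem s_A04mm_022_s1 {κ x : ℝ} (hκ : κ * h0 = ken x) (hx : ((818728140 : ℕ) : ℝ) / S ≤ x)
    (hx' : x ≤ (((818728140 : ℕ) : ℝ) + (40265320 : ℕ)) / S) :
    AltA (VFD κ) PP tK tL pcB [⟨3, 0, 0, 1449551462⟩] 0 2 2 0 4 (sgb false) (sgb false) x :=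
  strip_altAD (m := 1449551462) true rfl hκ (SH.κ0 hκ (SH.hx1 hx).le (SH.hx2 hx').le) (SH.hx1 hx).le (SH.hx2 hx') (covB00).cov (covB42).cov hx hx' c_A04mm_022_s1 cutA_nil (noExt_A)

noncomputable def cut_A04mm_023_s1 : Cut := Cut.of [[⟨4, 0, 0, 1449551462⟩]]

noncomputable def f_A04mm_023_s1 : ℕ → ℕ → ℕ → ℕ → Bool := onCell 0 536870912 1073741824 536870912 818728140 40265320
    (rowF 0 true false false .up 0 2 3 (qsf 0 536870912 1073741824 536870912 3) ndB0q0 ndB4q2 pcB3 cut_A04mm_023_s1 Ext.none)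

def k0_A04mm_023_s1 : ∃ t, chk3 f_A04mm_023_s1 t 1 1 1 = true :=
  ⟨(l 4), by decide +kernel⟩

theorem c_A04mm_023_s1 : CertF 0 536870912 1073741824 536870912 818728140 40265320 true false false .up 0 2 3
    ndB0q0 ndB4q2 pcB3 cut_A04mm_023_s1 Ext.none :=
  certF0 (fam := true) (s1 := false) (s2 := false) (a := 0) (b := 2) (c := 3) (cn := .up) (n1 := ndB0q0) (n2 := ndB4q2) (pc := pcB3) (cut := cut_A04mm_023_s1) (xt := Ext.none) (P1 := 0) (W1 := 536870912) (P2 := 1073741824) (W2 := 536870912) (P3 := 818728140) (W3 := 40265320)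
    rfl k0_A04mm_023_s1

theorem s_A04mm_023_s1 {κ x : ℝ} (hκ : κ * h0 = ken x) (hx : ((818728140 : ℕ) : ℝ) / S ≤ x)
    (hx' : x ≤ (((818728140 : ℕ) : ℝ) + (40265320 : ℕ)) / S) :
    AltA (VFD κ) PP tK tL pcB [⟨3, 0, 0, 1449551462⟩] 0 2 3 0 4 (sgb false) (sgb false) x :=
  strip_altAD (m := 1449551462) true rfl hκ (SH.κ0 hκ (SH.hx1 hx).le (SH.hx2 hx').le) (SH.hx1 hx).le (SH.hx2 hx') (covB00).cov (covB42).cov hx hx' c_A04mm_023_s1 cutA_nil (noExt_A)

noncomputable def cut_A04mm_033_s1 : Cut := Cut.of [[⟨4, 0, 0, 1449551462⟩]]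

noncomputable def f_A04mm_033_s1 : ℕ → ℕ → ℕ → ℕ → Bool := onCell 0 536870912 0 1230186008 818728140 40265320
    (rowF 0 true false false .pnn 0 3 3 (qsf 0 536870912 0 1230186008 3) ndB0q0 ndB4q3 pcB3 cut_A04mm_033_s1 Ext.none)

def k0_A04mm_033_s1 : ∃ t, chk3 f_A04mm_033_s1 t 1 1 1 = true :=
  ⟨(l 4), by decide +kernel⟩

theorem c_A04mm_033_s1 : CertF 0 536870912 0 1230186008 818728140 40265320 true false false .pnn 0 3 3
    ndB0q0 ndB4q3 pcB3 cut_A04mm_033_s1 Ext.none :=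
  certF0 (fam := true) (s1 := false) (s2 := false) (a := 0) (b := 3) (c := 3) (cn := .pnn) (n1 := ndB0q0) (n2 := ndB4q3) (pc := pcB3) (cut := cut_A04mm_033_s1) (xt := Ext.none) (P1 := 0) (W1 := 536870912) (P2 := 0) (W2 := 1230186008) (P3 := 818728140) (W3 := 40265320)
    rfl k0_A04mm_033_s1

theorem s_A04mm_033_s1 {κ x : ℝ} (hκ : κ * h0 = ken x) (hx : ((818728140 : ℕ) : ℝ) / S ≤ x)
    (hx' : x ≤ (((818728140 : ℕ) : ℝ) + (40265320 : ℕ)) / S) :
    AltA (VFD κ) PP tK tL pcB [⟨3, 0, 0, 1449551462⟩] 0 3 3 0 4 (sgb false) (sgb false) x :=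
  strip_altAD (m := 1449551462) true rfl hκ (SH.κ0 hκ (SH.hx1 hx).le (SH.hx2 hx').le) (SH.hx1 hx).le (SH.hx2 hx') (covB00).cov (covB43).cov hx hx' c_A04mm_033_s1 cutA_nil (noExt_A)

noncomputable def cut_A04mm_101_s1 : Cut := Cut.of [[⟨4, 0, 0, 1449551462⟩]]

noncomputable def f_A04mm_101_s1 : ℕ → ℕ → ℕ → ℕ → Bool := onCell 536870912 536870912 0 536870912 818728140 40265320
    (rowF 0 true false false .npn 1 0 1 (qsf 536870912 536870912 0 536870912 1) ndB0q1 ndB4q0 pcB1 cut_A04mm_101_s1 Ext.none)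

def k0_A04mm_101_s1 : ∃ t, chk3 f_A04mm_101_s1 t 1 1 1 = true :=
  ⟨(l 4), by decide +kernel⟩

theorem c_A04mm_101_s1 : CertF 536870912 536870912 0 536870912 818728140 40265320 true false false .npn 1 0 1
    ndB0q1 ndB4q0 pcB1 cut_A04mm_101_s1 Ext.none :=
  certF0 (fam := true) (s1 := false) (s2 := false) (a := 1) (b := 0) (c := 1) (cn := .npn) (n1 := ndB0q1) (n2 := ndB4q0) (pc := pcB1) (cut := cut_A04mm_101_s1) (xt := Ext.none) (P1 := 536870912) (W1 := 536870912) (P2 := 0) (W2 := 536870912) (P3 := 818728140) (W3 := 40265320)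
    rfl k0_A04mm_101_s1

theorem s_A04mm_101_s1 {κ x : ℝ} (hκ : κ * h0 = ken x) (hx : ((818728140 : ℕ) : ℝ) / S ≤ x)
    (hx' : x ≤ (((818728140 : ℕ) : ℝ) + (40265320 : ℕ)) / S) :
    AltA (VFD κ) PP tK tL pcB [⟨3, 0, 0, 1449551462⟩] 1 0 1 0 4 (sgb false) (sgb false) x :=
  strip_altAD (m := 1449551462) true rfl hκ (SH.κ0 hκ (SH.hx1 hx).le (SH.hx2 hx').le) (SH.hx1 hx).le (SH.hx2 hx') (covB01).cov (covB40).cov hx hx' c_A04mm_101_s1 cutA_nil (noExt_A)

noncomputable def cut_A04mm_102_s1 : Cut := Cut.of [[⟨4, 0, 0, 1449551462⟩]]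

noncomputable def f_A04mm_102_s1 : ℕ → ℕ → ℕ → ℕ → Bool := onCell 536870912 536870912 0 536870912 818728140 40265320
    (rowF 0 true false false .npp 1 0 2 (qsf 536870912 536870912 0 536870912 2) ndB0q1 ndB4q0 pcB2 cut_A04mm_102_s1 Ext.none)

def k0_A04mm_102_s1 : ∃ t, chk3 f_A04mm_102_s1 t 1 1 1 = true :=
  ⟨(l 4), by decide +kernel⟩

theorem c_A04mm_102_s1 : CertF 536870912 536870912 0 536870912 818728140 40265320 true false false .npp 1 0 2
    ndB0q1 ndB4q0 pcB2 cut_A04mm_102_s1 Ext.none :=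
  certF0 (fam := true) (s1 := false) (s2 := false) (a := 1) (b := 0) (c := 2) (cn := .npp) (n1 := ndB0q1) (n2 := ndB4q0) (pc := pcB2) (cut := cut_A04mm_102_s1) (xt := Ext.none) (P1 := 536870912) (W1 := 536870912) (P2 := 0) (W2 := 536870912) (P3 := 818728140) (W3 := 40265320)
    rfl k0_A04mm_102_s1

theorem s_A04mm_102_s1 {κ x : ℝ} (hκ : κ * h0 = ken x) (hx : ((818728140 : ℕ) : ℝ) / S ≤ x)
    (hx' : x ≤ (((818728140 : ℕ) : ℝ) + (40265320 : ℕ)) / S) :
    AltA (VFD κ) PP tK tL pcB [⟨3, 0, 0, 1449551462⟩] 1 0 2 0 4 (sgb false) (sgb false) x :=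
  strip_altAD (m := 1449551462) true rfl hκ (SH.κ0 hκ (SH.hx1 hx).le (SH.hx2 hx').le) (SH.hx1 hx).le (SH.hx2 hx') (covB01).cov (covB40).cov hx hx' c_A04mm_102_s1 cutA_nil (noExt_A)

noncomputable def cut_A04mm_112_s1 : Cut := Cut.of [[⟨4, 0, 0, 1449551462⟩]]

noncomputable def f_A04mm_112_s1 : ℕ → ℕ → ℕ → ℕ → Bool := onCell 536870912 536870912 536870912 536870912 818728140 40265320
    (rowF 0 true false false .dn 1 1 2 (qsf 536870912 536870912 536870912 536870912 2) ndB0q1 ndB4q1 pcB2 cut_A04mm_112_s1 Ext.none)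

def k0_A04mm_112_s1 : ∃ t, chk3 f_A04mm_112_s1 t 1 1 1 = true :=
  ⟨(l 4), by decide +kernel⟩

theorem c_A04mm_112_s1 : CertF 536870912 536870912 536870912 536870912 818728140 40265320 true false false .dn 1 1 2
    ndB0q1 ndB4q1 pcB2 cut_A04mm_112_s1 Ext.none :=
  certF0 (fam := true) (s1 := false) (s2 := false) (a := 1) (b := 1) (c := 2) (cn := .dn) (n1 := ndB0q1) (n2 := ndB4q1) (pc := pcB2) (cut := cut_A04mm_112_s1) (xt := Ext.none) (P1 := 536870912) (W1 := 536870912) (P2 := 536870912) (W2 := 536870912) (P3 := 818728140) (W3 := 40265320)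
    rfl k0_A04mm_112_s1

theorem s_A04mm_112_s1 {κ x : ℝ} (hκ : κ * h0 = ken x) (hx : ((818728140 : ℕ) : ℝ) / S ≤ x)
    (hx' : x ≤ (((818728140 : ℕ) : ℝ) + (40265320 : ℕ)) / S) :
    AltA (VFD κ) PP tK tL pcB [⟨3, 0, 0, 1449551462⟩] 1 1 2 0 4 (sgb false) (sgb false) x :=
  strip_altAD (m := 1449551462) true rfl hκ (SH.κ0 hκ (SH.hx1 hx).le (SH.hx2 hx').le) (SH.hx1 hx).le (SH.hx2 hx') (covB01).cov (covB41).cov hx hx' c_A04mm_112_s1 cutA_nil (noExt_A)

noncomputable def cut_A04mm_113_s1 : Cut := Cut.of [[⟨4, 0, 0, 1449551462⟩]]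

noncomputable def f_A04mm_113_s1 : ℕ → ℕ → ℕ → ℕ → Bool := onCell 536870912 536870912 536870912 536870912 818728140 40265320
    (rowF 0 true false false .nn 1 1 3 (qsf 536870912 536870912 536870912 536870912 3) ndB0q1 ndB4q1 pcB3 cut_A04mm_113_s1 Ext.none)

def k0_A04mm_113_s1 : ∃ t, chk3 f_A04mm_113_s1 t 1 1 1 = true :=
  ⟨(l 4), by decide +kernel⟩

theorem c_A04mm_113_s1 : CertF 536870912 536870912 536870912 536870912 818728140 40265320 true false false .nn 1 1 3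
    ndB0q1 ndB4q1 pcB3 cut_A04mm_113_s1 Ext.none :=
  certF0 (fam := true) (s1 := false) (s2 := false) (a := 1) (b := 1) (c := 3) (cn := .nn) (n1 := ndB0q1) (n2 := ndB4q1) (pc := pcB3) (cut := cut_A04mm_113_s1) (xt := Ext.none) (P1 := 536870912) (W1 := 536870912) (P2 := 536870912) (W2 := 536870912) (P3 := 818728140) (W3 := 40265320)
    rfl k0_A04mm_113_s1

theorem s_A04mm_113_s1 {κ x : ℝ} (hκ : κ * h0 = ken x) (hx : ((818728140 : ℕ) : ℝ) / S ≤ x)
    (hx' : x ≤ (((818728140 : ℕ) : ℝ) + (40265320 : ℕ)) / S) :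
    AltA (VFD κ) PP tK tL pcB [⟨3, 0, 0, 1449551462⟩] 1 1 3 0 4 (sgb false) (sgb false) x :=
  strip_altAD (m := 1449551462) true rfl hκ (SH.κ0 hκ (SH.hx1 hx).le (SH.hx2 hx').le) (SH.hx1 hx).le (SH.hx2 hx') (covB01).cov (covB41).cov hx hx' c_A04mm_113_s1 cutA_nil (noExt_A)

noncomputable def cut_A04mm_123_s1 : Cut := Cut.of [[⟨4, 0, 0, 1449551462⟩]]

noncomputable def f_A04mm_123_s1 : ℕ → ℕ → ℕ → ℕ → Bool := onCell 536870912 536870912 1073741824 536870912 818728140 40265320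
    (rowF 0 true false false .npn 1 2 3 (qsf 536870912 536870912 1073741824 536870912 3) ndB0q1 ndB4q2 pcB3 cut_A04mm_123_s1 Ext.none)

def k0_A04mm_123_s1 : ∃ t, chk3 f_A04mm_123_s1 t 1 1 1 = true :=
  ⟨(l 4), by decide +kernel⟩

theorem c_A04mm_123_s1 : CertF 536870912 536870912 1073741824 536870912 818728140 40265320 true false false .npn 1 2 3
    ndB0q1 ndB4q2 pcB3 cut_A04mm_123_s1 Ext.none :=
  certF0 (fam := true) (s1 := false) (s2 := false) (a := 1) (b := 2) (c := 3) (cn := .npn) (n1 := ndB0q1) (n2 := ndB4q2) (pc := pcB3) (cut := cut_A04mm_123_s1) (xt := Ext.none) (P1 := 536870912) (W1 := 536870912) (P2 := 1073741824) (W2 := 536870912) (P3 := 818728140) (W3 := 40265320)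
    rfl k0_A04mm_123_s1

theorem s_A04mm_123_s1 {κ x : ℝ} (hκ : κ * h0 = ken x) (hx : ((818728140 : ℕ) : ℝ) / S ≤ x)
    (hx' : x ≤ (((818728140 : ℕ) : ℝ) + (40265320 : ℕ)) / S) :
    AltA (VFD κ) PP tK tL pcB [⟨3, 0, 0, 1449551462⟩] 1 2 3 0 4 (sgb false) (sgb false) x :=
  strip_altAD (m := 1449551462) true rfl hκ (SH.κ0 hκ (SH.hx1 hx).le (SH.hx2 hx').le) (SH.hx1 hx).le (SH.hx2 hx') (covB01).cov (covB42).cov hx hx' c_A04mm_123_s1 cutA_nil (noExt_A)

noncomputable def cut_A04mm_133_s1 : Cut := Cut.of [[⟨4, 0, 0, 1449551462⟩]]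

noncomputable def f_A04mm_133_s1 : ℕ → ℕ → ℕ → ℕ → Bool := onCell 536870912 536870912 0 1230186008 818728140 40265320
    (rowF 0 true false false .dn 1 3 3 (qsf 536870912 536870912 0 1230186008 3) ndB0q1 ndB4q3 pcB3 cut_A04mm_133_s1 Ext.none)

def k0_A04mm_133_s1 : ∃ t, chk3 f_A04mm_133_s1 t 1 1 1 = true :=
  ⟨(l 4), by decide +kernel⟩

theorem c_A04mm_133_s1 : CertF 536870912 536870912 0 1230186008 818728140 40265320 true false false .dn 1 3 3
    ndB0q1 ndB4q3 pcB3 cut_A04mm_133_s1 Ext.none :=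
  certF0 (fam := true) (s1 := false) (s2 := false) (a := 1) (b := 3) (c := 3) (cn := .dn) (n1 := ndB0q1) (n2 := ndB4q3) (pc := pcB3) (cut := cut_A04mm_133_s1) (xt := Ext.none) (P1 := 536870912) (W1 := 536870912) (P2 := 0) (W2 := 1230186008) (P3 := 818728140) (W3 := 40265320)
    rfl k0_A04mm_133_s1

theorem s_A04mm_133_s1 {κ x : ℝ} (hκ : κ * h0 = ken x) (hx : ((818728140 : ℕ) : ℝ) / S ≤ x)
    (hx' : x ≤ (((818728140 : ℕ) : ℝ) + (40265320 : ℕ)) / S) :
    AltA (VFD κ) PP tK tL pcB [⟨3, 0, 0, 1449551462⟩] 1 3 3 0 4 (sgb false) (sgb false) x :=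
  strip_altAD (m := 1449551462) true rfl hκ (SH.κ0 hκ (SH.hx1 hx).le (SH.hx2 hx').le) (SH.hx1 hx).le (SH.hx2 hx') (covB01).cov (covB43).cov hx hx' c_A04mm_133_s1 cutA_nil (noExt_A)

noncomputable def cut_A04mm_202_s1 : Cut := Cut.of [[⟨4, 0, 0, 1449551462⟩]]

noncomputable def f_A04mm_202_s1 : ℕ → ℕ → ℕ → ℕ → Bool := onCell 0 536870912 0 536870912 818728140 40265320
    (rowF 0 true false false .pp 2 0 2 (qsf 0 536870912 0 536870912 2) ndB0q2 ndB4q0 pcB2 cut_A04mm_202_s1 Ext.none)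

def k0_A04mm_202_s1 : ∃ t, chk3 f_A04mm_202_s1 t 1 1 1 = true :=
  ⟨(l 4), by decide +kernel⟩

theorem c_A04mm_202_s1 : CertF 0 536870912 0 536870912 818728140 40265320 true false false .pp 2 0 2
    ndB0q2 ndB4q0 pcB2 cut_A04mm_202_s1 Ext.none :=
  certF0 (fam := true) (s1 := false) (s2 := false) (a := 2) (b := 0) (c := 2) (cn := .pp) (n1 := ndB0q2) (n2 := ndB4q0) (pc := pcB2) (cut := cut_A04mm_202_s1) (xt := Ext.none) (P1 := 0) (W1 := 536870912) (P2 := 0) (W2 := 536870912) (P3 := 818728140) (W3 := 40265320)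
    rfl k0_A04mm_202_s1

theorem s_A04mm_202_s1 {κ x : ℝ} (hκ : κ * h0 = ken x) (hx : ((818728140 : ℕ) : ℝ) / S ≤ x)
    (hx' : x ≤ (((818728140 : ℕ) : ℝ) + (40265320 : ℕ)) / S) :
    AltA (VFD κ) PP tK tL pcB [⟨3, 0, 0, 1449551462⟩] 2 0 2 0 4 (sgb false) (sgb false) x :=
  strip_altAD (m := 1449551462) true rfl hκ (SH.κ0 hκ (SH.hx1 hx).le (SH.hx2 hx').le) (SH.hx1 hx).le (SH.hx2 hx') (covB02).cov (covB40).cov hx hx' c_A04mm_202_s1 cutA_nil (noExt_A)

noncomputable def cut_A04mm_203_s1 : Cut := Cut.of [[⟨4, 0, 0, 1449551462⟩]]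

noncomputable def f_A04mm_203_s1 : ℕ → ℕ → ℕ → ℕ → Bool := onCell 0 536870912 0 536870912 818728140 40265320
    (rowF 0 true false false .up 2 0 3 (qsf 0 536870912 0 536870912 3) ndB0q2 ndB4q0 pcB3 cut_A04mm_203_s1 Ext.none)

def k0_A04mm_203_s1 : ∃ t, chk3 f_A04mm_203_s1 t 1 1 1 = true :=
  ⟨(l 4), by decide +kernel⟩

theorem c_A04mm_203_s1 : CertF 0 536870912 0 536870912 818728140 40265320 true false false .up 2 0 3
    ndB0q2 ndB4q0 pcB3 cut_A04mm_203_s1 Ext.none :=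
  certF0 (fam := true) (s1 := false) (s2 := false) (a := 2) (b := 0) (c := 3) (cn := .up) (n1 := ndB0q2) (n2 := ndB4q0) (pc := pcB3) (cut := cut_A04mm_203_s1) (xt := Ext.none) (P1 := 0) (W1 := 536870912) (P2 := 0) (W2 := 536870912) (P3 := 818728140) (W3 := 40265320)
    rfl k0_A04mm_203_s1

theorem s_A04mm_203_s1 {κ x : ℝ} (hκ : κ * h0 = ken x) (hx : ((818728140 : ℕ) : ℝ) / S ≤ x)
    (hx' : x ≤ (((818728140 : ℕ) : ℝ) + (40265320 : ℕ)) / S) :
    AltA (VFD κ) PP tK tL pcB [⟨3, 0, 0, 1449551462⟩] 2 0 3 0 4 (sgb false) (sgb false) x :=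
  strip_altAD (m := 1449551462) true rfl hκ (SH.κ0 hκ (SH.hx1 hx).le (SH.hx2 hx').le) (SH.hx1 hx).le (SH.hx2 hx') (covB02).cov (covB40).cov hx hx' c_A04mm_203_s1 cutA_nil (noExt_A)

noncomputable def cut_A04mm_213_s1 : Cut := Cut.of [[⟨4, 0, 0, 1449551462⟩]]

noncomputable def f_A04mm_213_s1 : ℕ → ℕ → ℕ → ℕ → Bool := onCell 0 536870912 536870912 536870912 818728140 40265320
    (rowF 0 true false false .pnn 2 1 3 (qsf 0 536870912 536870912 536870912 3) ndB0q2 ndB4q1 pcB3 cut_A04mm_213_s1 Ext.none)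

def k0_A04mm_213_s1 : ∃ t, chk3 f_A04mm_213_s1 t 1 1 1 = true :=
  ⟨(l 4), by decide +kernel⟩

theorem c_A04mm_213_s1 : CertF 0 536870912 536870912 536870912 818728140 40265320 true false false .pnn 2 1 3
    ndB0q2 ndB4q1 pcB3 cut_A04mm_213_s1 Ext.none :=
  certF0 (fam := true) (s1 := false) (s2 := false) (a := 2) (b := 1) (c := 3) (cn := .pnn) (n1 := ndB0q2) (n2 := ndB4q1) (pc := pcB3) (cut := cut_A04mm_213_s1) (xt := Ext.none) (P1 := 0) (W1 := 536870912) (P2 := 536870912) (W2 := 536870912) (P3 := 818728140) (W3 := 40265320)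
    rfl k0_A04mm_213_s1

theorem s_A04mm_213_s1 {κ x : ℝ} (hκ : κ * h0 = ken x) (hx : ((818728140 : ℕ) : ℝ) / S ≤ x)
    (hx' : x ≤ (((818728140 : ℕ) : ℝ) + (40265320 : ℕ)) / S) :
    AltA (VFD κ) PP tK tL pcB [⟨3, 0, 0, 1449551462⟩] 2 1 3 0 4 (sgb false) (sgb false) x :=
  strip_altAD (m := 1449551462) true rfl hκ (SH.κ0 hκ (SH.hx1 hx).le (SH.hx2 hx').le) (SH.hx1 hx).le (SH.hx2 hx') (covB02).cov (covB41).cov hx hx' c_A04mm_213_s1 cutA_nil (noExt_A)

noncomputable def cut_B00pp_001_s1 : Cut := Cut.of [[⟨4, 0, 0, 1449551462⟩]]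

noncomputable def f_B00pp_001_s1 : ℕ → ℕ → ℕ → ℕ → Bool := onCell 0 536870912 0 536870912 818728140 40265320
    (rowF 1 false true true .up 0 0 1 (qsf 0 536870912 536870912 536870912 0) ndB0q0 ndB0q1 pcB0 cut_B00pp_001_s1 Ext.none)

def k0_B00pp_001_s1 : ∃ t, chk3 f_B00pp_001_s1 t 1 1 1 = true :=
  ⟨(l 3), by decide +kernel⟩

theorem c_B00pp_001_s1 : CertF 0 536870912 536870912 536870912 818728140 40265320 false true true .up 0 0 1
    ndB0q0 ndB0q1 pcB0 cut_B00pp_001_s1 Ext.none :=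
  certF1 (fam := false) (s1 := true) (s2 := true) (a := 0) (b := 0) (c := 1) (cn := .up) (n1 := ndB0q0) (n2 := ndB0q1) (pc := pcB0) (cut := cut_B00pp_001_s1) (xt := Ext.none) (P1 := 0) (W1 := 536870912) (P2 := 536870912) (W2 := 536870912) (P3 := 818728140) (W3 := 40265320)
    rfl (fun _ => rfl) k0_B00pp_001_s1

theorem s_B00pp_001_s1 {κ x : ℝ} (hκ : κ * h0 = ken x) (hx : ((818728140 : ℕ) : ℝ) / S ≤ x)
    (hx' : x ≤ (((818728140 : ℕ) : ℝ) + (40265320 : ℕ)) / S) :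
    AltB (VFD κ) PP tK tL pcB [⟨3, 0, 0, 1449551462⟩] 0 0 1 0 0 (sgb true) (sgb true) x :=
  strip_altBD (m := 1449551462) true rfl hκ (SH.κ0 hκ (SH.hx1 hx).le (SH.hx2 hx').le) (SH.hx1 hx).le (SH.hx2 hx') (covB00).cov (covB01).cov hx hx' c_B00pp_001_s1 cutB_nil (noExt_B)

noncomputable def cut_B00pp_001_s3 : Cut := Cut.of [[⟨3, 0, 0, 2845415833⟩]]

noncomputable def f_B00pp_001_s3 : ℕ → ℕ → ℕ → ℕ → Bool := onCell 0 536870912 536870912 536870912 818728140 40265320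
    (rowF 0 false true true .up 0 0 1 (qsf 0 536870912 536870912 536870912 0) ndB0q0 ndB0q1 pcB0 cut_B00pp_001_s3 Ext.none)

def k0_B00pp_001_s3 : ∃ t, chk3 f_B00pp_001_s3 t 1 1 1 = true :=
  ⟨(l 6), by decide +kernel⟩

theorem c_B00pp_001_s3 : CertF 0 536870912 536870912 536870912 818728140 40265320 false true true .up 0 0 1
    ndB0q0 ndB0q1 pcB0 cut_B00pp_001_s3 Ext.none :=
  certF0 (fam := false) (s1 := true) (s2 := true) (a := 0) (b := 0) (c := 1) (cn := .up) (n1 := ndB0q0) (n2 := ndB0q1) (pc := pcB0) (cut := cut_B00pp_001_s3) (xt := Ext.none) (P1 := 0) (W1 := 536870912) (P2 := 536870912) (W2 := 536870912) (P3 := 818728140) (W3 := 40265320)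
    rfl k0_B00pp_001_s3

theorem s_B00pp_001_s3 {κ x : ℝ} (hκ : κ * h0 = ken x) (hx : ((818728140 : ℕ) : ℝ) / S ≤ x)
    (hx' : x ≤ (((818728140 : ℕ) : ℝ) + (40265320 : ℕ)) / S) :
    AltB (VFD κ) PP tK tL pcB [⟨4, 0, 0, 2845415833⟩] 0 0 1 0 0 (sgb true) (sgb true) x :=
  strip_altBD (m := 2845415833) false rfl hκ (SH.κ0 hκ (SH.hx1 hx).le (SH.hx2 hx').le) (SH.hx1 hx).le (SH.hx2 hx') (covB00).cov (covB01).cov hx hx' c_B00pp_001_s3 cutB_nil (noExt_B)

noncomputable def cut_B00pp_011_s1 : Cut := Cut.of [[⟨4, 0, 0, 1449551462⟩], [⟨0, 0, 0, 67108864⟩, ⟨1, 1, 0, 67108864⟩, ⟨2, 1, 0, 67108864⟩]]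

noncomputable def f_B00pp_011_s1 : ℕ → ℕ → ℕ → ℕ → Bool := onCell 536870912 536870912 536870912 536870912 818728140 40265320
    (rowF 2 false true true .pnn 0 1 1 (qsf 0 536870912 536870912 536870912 1) ndB0q0 ndB0q1 pcB1 cut_B00pp_011_s1 Ext.none)

def k0_B00pp_011_s1 : ∃ t, chk3 f_B00pp_011_s1 t 1 1 1 = true :=
  ⟨(a (l 3) (b (l 3) (a (l 3) (b (l 3) (b (l 3) (a (l 3) (b (l 3) (a (l 3) (l 14))))))))), by decide +kernel⟩

theorem c_B00pp_011_s1 : CertF 0 536870912 536870912 536870912 818728140 40265320 false true true .pnn 0 1 1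
    ndB0q0 ndB0q1 pcB1 cut_B00pp_011_s1 Ext.none :=
  certF2 (fam := false) (s1 := true) (s2 := true) (a := 0) (b := 1) (c := 1) (cn := .pnn) (n1 := ndB0q0) (n2 := ndB0q1) (pc := pcB1) (cut := cut_B00pp_011_s1) (xt := Ext.none) (P1 := 0) (W1 := 536870912) (P2 := 536870912) (W2 := 536870912) (P3 := 818728140) (W3 := 40265320)
    rfl (fun _ => rfl) k0_B00pp_011_s1

theorem s_B00pp_011_s1 {κ x : ℝ} (hκ : κ * h0 = ken x) (hx : ((818728140 : ℕ) : ℝ) / S ≤ x)
    (hx' : x ≤ (((818728140 : ℕ) : ℝ) + (40265320 : ℕ)) / S)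
    (H : CutB (VFD κ) PP tK tL pcB (Cut.of [[⟨0, 0, 0, 67108864⟩, ⟨1, 1, 0, 67108864⟩, ⟨2, 1, 0, 67108864⟩]]) 0 1 1 0 0 (sgb true) (sgb true) x) :
    AltB (VFD κ) PP tK tL pcB [⟨3, 0, 0, 1449551462⟩] 0 1 1 0 0 (sgb true) (sgb true) x :=
  strip_altBD (m := 1449551462) true rfl hκ (SH.κ0 hκ (SH.hx1 hx).le (SH.hx2 hx').le) (SH.hx1 hx).le (SH.hx2 hx') (covB00).cov (covB01).cov hx hx' c_B00pp_011_s1 H (noExt_B)

noncomputable def cut_B00pp_011_s3 : Cut := Cut.of [[⟨3, 0, 0, 2845415833⟩], [⟨0, 0, 0, 67108864⟩, ⟨1, 1, 0, 67108864⟩, ⟨2, 1, 0, 67108864⟩]]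

noncomputable def f_B00pp_011_s3 : ℕ → ℕ → ℕ → ℕ → Bool := onCell 0 536870912 536870912 536870912 818728140 40265320
    (rowF 0 false true true .pnn 0 1 1 (qsf 0 536870912 536870912 536870912 1) ndB0q0 ndB0q1 pcB1 cut_B00pp_011_s3 Ext.none)

def k0_B00pp_011_s3 : ∃ t, chk3 f_B00pp_011_s3 t 1 1 1 = true :=
  ⟨(l 6), by decide +kernel⟩

theorem c_B00pp_011_s3 : CertF 0 536870912 536870912 536870912 818728140 40265320 false true true .pnn 0 1 1
    ndB0q0 ndB0q1 pcB1 cut_B00pp_011_s3 Ext.none :=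
  certF0 (fam := false) (s1 := true) (s2 := true) (a := 0) (b := 1) (c := 1) (cn := .pnn) (n1 := ndB0q0) (n2 := ndB0q1) (pc := pcB1) (cut := cut_B00pp_011_s3) (xt := Ext.none) (P1 := 0) (W1 := 536870912) (P2 := 536870912) (W2 := 536870912) (P3 := 818728140) (W3 := 40265320)
    rfl k0_B00pp_011_s3

theorem s_B00pp_011_s3 {κ x : ℝ} (hκ : κ * h0 = ken x) (hx : ((818728140 : ℕ) : ℝ) / S ≤ x)
    (hx' : x ≤ (((818728140 : ℕ) : ℝ) + (40265320 : ℕ)) / S)
    (H : CutB (VFD κ) PP tK tL pcB (Cut.of [[⟨0, 0, 0, 67108864⟩, ⟨1, 1, 0, 67108864⟩, ⟨2, 1, 0, 67108864⟩]]) 0 1 1 0 0 (sgb true) (sgb true) x) :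
    AltB (VFD κ) PP tK tL pcB [⟨4, 0, 0, 2845415833⟩] 0 1 1 0 0 (sgb true) (sgb true) x :=
  strip_altBD (m := 2845415833) false rfl hκ (SH.κ0 hκ (SH.hx1 hx).le (SH.hx2 hx').le) (SH.hx1 hx).le (SH.hx2 hx') (covB00).cov (covB01).cov hx hx' c_B00pp_011_s3 H (noExt_B)

end Pool.Agent.Strip051.G.I7625_8000.Tab.St.C
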