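import Pool.Agent.Strip051.G.I7625_8000.StH
import Pool.Agent.Strip051.G.I7625_8000.StF

/-! # Unit strips 3 (generated) -/

set_option linter.all false
set_option maxRecDepth 100000

namespace Pool.Agent.Strip051.G.I7625_8000.Tab.St.C

open Pool.Agent.Strip051.PB Pool.Agent.Strip051.PB.T Pool.Agent.StripNear Pool.Agent.Strip051.LC
open Pool.Agent.Strip051.G.I7625_8000.Tab Pool.Agent.Strip051.G.I7625_8000.Tab.St

noncomputable def cut_A00pm_012_s1 : Cut := Cut.of [[⟨4, 0, 0, 1449551462⟩], [⟨0, 0, 0, 67108864⟩, ⟨1, 1, 0, 67108864⟩, ⟨2, 1, 0, 67108864⟩]]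

noncomputable def xt_A00pm_012_s1 : Ext := strExt dd true true false .u0 .u0m .u2 .pnp 0 1 2 rfl rfl gf2 vv ndB0q0 ndB0q1

noncomputable def f_A00pm_012_s1 : ℕ → ℕ → ℕ → ℕ → Bool := onCell 1073741824 536870912 536870912 536870912 818728140 40265320
    (rowF 2 true true false .pnp 0 1 2 (qsf 0 536870912 536870912 536870912 2) ndB0q0 ndB0q1 pcB2 cut_A00pm_012_s1 xt_A00pm_012_s1)

def k0_A00pm_012_s1 : ∃ t, chk3 f_A00pm_012_s1 t 4 2 1 = true :=
  ⟨(a (l 3) (l 3)), by decide +kernel⟩

def k1_A00pm_012_s1 : ∃ t, chk3 f_A00pm_012_s1 t 4 12 1 = true :=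
  ⟨(c (a (l 3) (a (l 3) (a (l 3) (a (b (l 3) (a (l 3) (b (l 3) (b (l 3) (a (l 3) (b (l 3) (a (l 3) (l 531438719)))))))) (b (l 3) (b (a (l 3) (a (b (l 3) (a (l 3) (b (l 3) (l 531611519)))) (b (b (l 3) (a (l 3) (l 530997887))) (b (l 531029007) (l 531590783))))) (a (a (b (l 3) (a (b (l 3) (l 531441935)) (b (l 531689343) (l 531445119)))) (b (a (b (l 3) (l 531398783)) (l 531186559)) (b (l 531692927) (l 531717391)))) (a (b (l 531116303) (l 531699583)) (l 531380607))))))))) (a (l 3) (a (l 3) (a (l 3) (a (b (l 3) (a (l 3) (b (l 3) (b (l 3) (a (l 3) (b (l 3) (a (l 3) (c (l 531710079) (l 531687551))))))))) (b (l 3) (a (b (l 3) (a (b (l 3) (a (b (l 3) (a (l 531705471) (b (l 531704847) (l 531711871)))) (b (l 531698191) (c (l 531720319) (l 531699583))))) (b (a (b (l 3) (l 531688319)) (l 531484031)) (b (l 531437183) (a (l 531717759) (l 531722879)))))) (a (b (b (l 3) (a (l 3) (l 531661695))) (b (l 531423103) (l 531722111))) (b (b (a (l 3) (l 531634559)) (l 531666815)) (l 531714687)))))))))), by decide +kernel⟩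

def k2_A00pm_012_s1 : ∃ t, chk3 f_A00pm_012_s1 t 8 26 2 = true :=
  ⟨(l 3), by decide +kernel⟩

def k3_A00pm_012_s1 : ∃ t, chk3 f_A00pm_012_s1 t 9 26 2 = true :=
  ⟨(a (l 3) (a (b (l 3) (a (l 3) (a (b (l 3) (l 531705615)) (b (c (b (l 3) (l 531739007)) (l 531727887)) (l 531712271))))) (a (b (b (a (l 3) (a (b (l 3) (c (a (l 531567631) (l 531739519)) (l 531741311))) (a (l 531435279) (l 531741567)))) (a (b (a (l 3) (a (l 3) (c (l 531620223) (l 531751551)))) (c (a (b (l 3) (b (l 3) (l 531766655))) (b (a (a (a (l 3) (a (l 3) (l 531766143))) (l 531767935)) (l 531772031)) (a (c (b (a (b (l 531771663) (l 531773711)) (l 531775503)) (l 531772687)) (b (a (l 531705359) (l 531775503)) (l 531502863))) (b (l 531780223) (l 531783183))))) (a (b (l 3) (c (l 531499791) (l 531490943))) (b (a (a (a (l 3) (a (l 3) (l 531758463))) (l 531760511)) (l 531765631)) (a (b (c (a (l 531767567) (l 531771007)) (a (l 531758351) (l 531762047))) (c (l 531765519) (l 531755279))) (b (l 531772287) (l 531773567))))))) (b (a (l 531494927)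 (l 531773311)) (b (a (l 531779711) (l 531789951)) (c (a (l 531789695) (l 531782527)) (l 531788671)))))) (a (a (b (c (l 531752063) (l 531732095)) (l 531717503)) (a (b (c (b (c (l 531763471) (l 531759119)) (l 531751039)) (b (c (l 531481871) (l 531468559)) (l 531725439))) (l 531720319)) (b (b (a (c (l 531768591) (l 531751951)) (b (l 531773199) (l 531762191))) (l 531746319)) (l 531724415)))) (b (b (a (b (a (l 531646735) (l 531791231)) (l 531774479)) (c (l 531802239) (l 531798143))) (a (a (l 531754511) (l 531763583)) (l 531777919))) (a (l 531734287) (l 531750159))))) (b (a (b (a (a (l 531745151) (l 531748735)) (l 531216767)) (a (b (l 531781759) (l 531804287)) (l 531800447))) (b (l 531193871) (l 531777919))) (a (b (b (a (l 531813503) (l 531824767)) (l 531805967)) (l 531776271)) (b (l 531826959) (l 531809407))))))), by decide +kernel⟩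

def k4_A00pm_012_s1 : ∃ t, chk3 f_A00pm_012_s1 t 4 27 2 = true :=
  ⟨(a (l 3) (a (a (l 3) (a (l 3) (b (l 3) (a (l 3) (b (l 3) (l 531671567)))))) (a (a (b (b (a (l 3) (c (l 531696655) (l 531667839))) (l 531673871)) (c (l 532240511) (l 531924751))) (b (a (b (b (l 531693439) (l 531687951)) (l 531683855)) (b (l 531695487) (l 531687807))) (a (b (l 531686415) (l 531698191)) (b (l 531689599) (l 531700863))))) (a (b (a (a (l 531693439) (l 531696399)) (b (l 531718159) (l 531704959))) (a (b (l 531693327) (b (l 16752832) (l 16750320))) (b (l 16751360) (b (l 16747664) (l 16745152))))) (b (a (b (l 531745919) (l 16751064)) (b (l 16750688) (l 16746000))) (a (b (l 16741000) (b (l 16742544) (l 16740032))) (b (l 16735920) (a (l 16732224) (b (l 16736176) (l 16733664)))))))))), by decide +kernel⟩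

def k5_A00pm_012_s1 : ∃ t, chk3 f_A00pm_012_s1 t 4 26 3 = true :=
  ⟨(a (l 3) (a (l 3) (a (b (l 3) (a (l 3) (a (b (l 3) (l 531631487)) (b (c (l 531428111) (l 531381631)) (l 531619087))))) (a (b (b (a (l 3) (a (b (l 3) (l 531845759)) (b (l 531443215) (l 531725183)))) (a (b (a (l 3) (a (l 3) (l 531712895))) (a (b (l 3) (c (b (l 3) (l 531728511)) (l 531695631))) (a (a (c (b (a (l 3) (l 531732239)) (c (l 531744015) (l 531725583))) (b (c (l 531700239) (l 531673983)) (c (l 531702543) (l 531675151)))) (b (l 531715711) (c (b (l 531739919) (l 531734543)) (b (l 531695119) (l 531687551))))) (b (l 531721855) (c (b (l 531745919) (l 531745919)) (l 531700751)))))) (b (a (l 531724159) (l 531738239)) (b (l 531472511) (a (l 531737615) (l 531753855)))))) (a (a (b (c (l 531694975) (l 531640959)) (l 531611775)) (b (b (c (a (a (l 531436815) (l 531711503)) (l 531486223)) (c (b (l 531687439) (l 531665679)) (l 531913743))) (a (l 531653135) (l 531658255))) (b (l 531355663) (l 531596927)))) (a (b (b (b (a (l 531719807) (l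 531733631)) (l 531704079)) (c (l 531701631) (l 531639935))) (l 531420175)) (b (b (b (l 531748479) (l 531730559)) (l 531697279)) (l 531639823))))) (b (a (b (a (a (l 531727743) (b (l 531726719) (l 531740543))) (l 531607567)) (a (b (l 531751295) (l 531764351)) (l 531501439))) (b (a (l 531752063) (l 531761279)) (l 531785743))) (a (b (b (a (l 531760511) (l 16766752)) (a (l 531722623) (l 16761992))) (l 531672847)) (b (a (l 531785087) (l 16763248)) (l 531717503)))))))), by decide +kernel⟩

def k6_A00pm_012_s1 : ∃ t, chk3 f_A00pm_012_s1 t 4 27 3 = true :=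
  ⟨(a (l 3) (a (a (l 3) (a (l 3) (a (l 3) (b (l 3) (b (l 3) (l 532141327)))))) (a (a (a (b (l 531609359) (l 531580287)) (b (b (l 531606799) (l 531578239)) (b (l 531561599) (l 531557247)))) (b (a (b (l 531589647) (l 531290639)) (b (l 531574143) (l 531004543))) (a (b (l 531540239) (l 530728463)) (b (l 530983807) (l 531512847))))) (a (b (a (a (l 531545983) (l 531273487)) (b (l 531305231) (l 16758096))) (a (b (l 531238159) (b (l 531498511) (l 531228687))) (b (l 531237391) (b (l 16735952) (l 16733280))))) (b (a (b (l 531605119) (l 16750192)) (b (l 16749992) (l 16734496))) (a (b (b (l 16746352) (l 16743728)) (b (l 16741072) (l 16727896))) (b (b (l 16741096) (l 16738448)) (b (l 16725280) (a (l 16734376) (l 16731720)))))))))), by decide +kernel⟩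

def k7_A00pm_012_s1 : ∃ t, chk3 f_A00pm_012_s1 t 8 14 1 = true :=
  ⟨(b (l 3) (b (l 3) (a (l 3) (a (l 3) (a (a (l 3) (b (l 3) (c (l 531257215) (l 531309439)))) (a (a (b (l 3) (l 531243647)) (b (c (l 531570559) (l 531662095)) (c (l 531724159) (l 531512959)))) (c (b (a (l 531537535) (l 531500415)) (c (l 531389055) (l 531416959))) (b (c (l 531322751) (l 531377279)) (c (l 531448847) (l 531484687)))))))))), by decide +kernel⟩

def k8_A00pm_012_s1 : ∃ t, chk3 f_A00pm_012_s1 t 16 15 1 = true :=
  ⟨(b (b (l 3) (a (l 3) (a (l 3) (a (l 3) (a (b (l 3) (b (l 3) (c (l 532340095) (l 532375935)))) (b (l 3) (b (l 3) (a (l 532347775) (l 532342399))))))))) (b (a (l 14) (b (b (a (l 3) (a (l 14) (a (l 14) (c (l 532358527) (l 532390527))))) (l 14)) (l 14))) (l 14))), by decide +kernel⟩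

def k9_A00pm_012_s1 : ∃ t, chk3 f_A00pm_012_s1 t 34 30 1 = true :=
  ⟨(b (b (l 3) (a (l 3) (a (a (l 3) (l 532133247)) (c (l 532118655) (l 532394623))))) (b (b (a (a (l 3) (a (l 3) (l 532214543))) (a (c (l 532210047) (l 532215167)) (l 532530447))) (a (a (a (l 3) (l 532270207)) (a (l 532259455) (l 532513919))) (c (a (l 532519039) (l 532237951)) (a (l 532250895) (l 532227967))))) (a (b (a (a (l 532307839) (l 532297087)) (a (l 532286079) (l 532275839))) (a (a (a (l 532337023) (l 532331647)) (l 532323855)) (a (l 532312959) (l 532302207)))) (c (c (a (l 532809231) (a (l 532265599) (b (l 16762688) (l 16759072)))) (b (a (l 532266367) (l 532254591)) (a (l 532288127) (a (l 16761320) (l 16759056))))) (c (b (a (l 532268671) (l 532250751)) (a (l 532291199) (a (l 16761320) (c (l 16759048) (l 16759040))))) (b (a (l 532271487) (l 532247423)) (a (l 532295295) (a (l 16761312) (b (l 16754664) (a (l 16758656) (l 16752248))))))))))), by decide +kernel⟩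

def k10_A00pm_012_s1 : ∃ t, chk3 f_A00pm_012_s1 t 35 30 1 = true :=
  ⟨(b (b (a (a (c (l 531972223) (l 531996543)) (c (l 531394943) (l 531955327))) (a (c (l 531338623) (l 531365647)) (c (l 530997007) (a (l 531586687) (l 531551615))))) (a (a (c (l 532092287) (l 532093823)) (c (l 532049535) (l 532050559))) (a (c (l 531453311) (l 531458575)) (c (l 530839935) (c (l 531655551) (l 531396735)))))) (a (b (a (a (l 532458255) (l 532439311)) (a (l 532551039) (l 532123775))) (a (b (l 532494351) (b (c (a (l 16752392) (l 16755104)) (a (c (l 16757600) (l 16752336)) (a (l 16750520) (l 16749112)))) (b (a (c (l 16756144) (l 16756088)) (l 16747960)) (a (a (l 16750376) (l 16754112)) (l 16751776))))) (b (b (a (l 532189055) (a (l 16754656) (l 16748152))) (b (a (c (l 16755176) (l 16755096)) (c (l 16752440) (l 16747080))) (a (c (l 16743640) (l 16748792)) (l 16751096)))) (a (b (a (l 16747680) (l 16751392)) (l 16744136)) (b (l 16743800) (l 16746264)))))) (b (a (b (c (l 532064127) (l 531788927)) (b (a (l 532105343) (c (l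 16752648) (l 16752600))) (a (c (l 16753416) (l 16748104)) (a (l 16746112) (l 16744608))))) (b (a (l 531736703) (b (l 531685759) (a (l 16744576) (a (l 16748744) (l 16747984))))) (b (a (c (l 16749888) (l 16744608)) (c (l 16746832) (l 16746760))) (a (l 16747512) (l 16744304))))) (a (b (a (b (a (l 16746728) (l 16750464)) (l 16743376)) (b (l 16748112) (l 16745464))) (c (a (l 16744704) (l 16741624)) (a (l 16744368) (l 16741208)))) (c (b (a (l 16743768) (l 16740632)) (l 16737000)) (b (a (l 16743480) (l 16740272)) (c (l 16736600) (l 16736336)))))))), by decide +kernel⟩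

def k11_A00pm_012_s1 : ∃ t, chk3 f_A00pm_012_s1 t 34 62 1 = true :=
  ⟨(a (b (a (b (a (c (l 532349311) (l 532376959)) (l 532619535)) (a (l 14) (l 532646927))) (b (a (l 532340095) (l 532328831)) (a (b (l 532361087) (b (c (l 16762552) (l 16762608)) (l 14))) (b (a (l 16762272) (c (l 16761128) (l 16761176))) (b (a (b (l 16755864) (l 16760496)) (l 16759344)) (a (l 16754160) (l 16757848))))))) (b (a (l 14) (b (a (l 14) (c (l 16751088) (a (l 14) (l 16755504)))) (l 14))) (l 14))) (b (b (a (a (l 532317823) (b (l 532301183) (a (b (l 16760040) (l 16759048)) (b (l 16758880) (l 16752368))))) (b (a (b (l 532287103) (a (l 16753440) (l 16752120))) (a (b (l 16751968) (l 16755904)) (l 16749800))) (a (a (b (l 16752256) (l 16756088)) (l 16750024)) (c (l 16752992) (l 16752872))))) (b (a (a (a (b (c (l 16760464) (l 16755264)) (l 16759272)) (b (l 16759168) (l 16757768))) (c (l 16750960) (c (l 16750928) (l 16750912)))) (a (c (l 16753136) (l 16753024)) (l 16749976))) (a (c (a (l 16751048) (l 16753224)) (a (a (l 16757040)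 (l 16755472)) (l 16753112))) (a (l 16750072) (l 16746984))))) (a (a (b (b (c (l 16753256) (l 16753152)) (l 16750096)) (l 14)) (b (b (l 16750112) (l 16747016)) (c (l 16742480) (l 16742136)))) (c (b (b (l 16745640) (l 16742600)) (l 16737976)) (b (b (l 16745352) (l 16742240)) (b (l 16739104) (l 16735920))))))), by decide +kernel⟩

def k12_A00pm_012_s1 : ∃ t, chk3 f_A00pm_012_s1 t 35 62 1 = true :=
  ⟨(b (b (a (a (a (b (l 16747496) (l 16749824)) (b (c (l 16749736) (l 16749528)) (l 16746736))) (c (a (l 16745264) (l 16742224)) (a (l 16744936) (l 16741808)))) (c (a (l 16737672) (l 16731608)) (a (l 16742368) (l 16730888)))) (c (a (a (l 16749280) (l 16738008)) (a (l 16732008) (l 16726040))) (a (a (b (l 16745192) (l 16742184)) (b (l 16738976) (l 16735992))) (a (l 16731304) (l 16725144))))) (b (a (a (c (l 16738096) (l 16742848)) (c (l 16732112) (l 16731448))) (a (c (l 16726192) (l 16725336)) (c (l 16720296) (l 16719232)))) (a (c (a (l 16732008) (l 16726088)) (a (l 16731376) (l 16725280))) (a (l 16724952) (c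 (l 16714400) (l 16713184)))))), by decide +kernel⟩

def k13_A00pm_012_s1 : ∃ t, chk3 f_A00pm_012_s1 t 17 63 1 = true :=
  ⟨(a (b (a (l 14) (a (l 14) (b (c (l 16731680) (l 16736320)) (l 14)))) (l 14)) (b (a (a (b (c (l 16725776) (l 16725000)) (c (l 16719392) (l 16718472))) (b (c (l 16719920) (l 16718960)) (c (l 16713608) (l 16712488)))) (a (b (l 16713528) (l 16707200)) (c (b (l 16708352) (l 16702160)) (b (l 16706976) (l 16700624))))) (a (a (l 14) (b (l 16711744) (l 14))) (b (c (l 16709128) (a (l 16699984) (l 16694128))) (c (l 16702616) (a (l 16693272) (l 16687488))))))), by decide +kernel⟩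

def k14_A00pm_012_s1 : ∃ t, chk3 f_A00pm_012_s1 t 18 28 1 = true :=
  ⟨(a (a (l 3) (b (l 3) (c (a (l 531568255) (l 531632511)) (a (l 532039039) (l 531966735))))) (a (b (b (l 3) (a (a (l 3) (l 531385871)) (l 531671935))) (a (c (b (l 531660671) (l 531699583)) (c (l 531991935) (l 532024079))) (c (b (l 531420175) (l 531862655)) (b (c (l 531455103) (l 531478399)) (l 531796239))))) (b (b (a (l 531655039) (c (l 532210303) (l 531643663))) (a (l 532020863) (a (l 531689343) (l 531689231)))) (a (b (c (l 531705215) (l 531879551)) (c (l 531745919) (l 531806735))) (a (b (l 531729535) (l 531914511)) (b (l 531729791) (l 531780367))))))), by decide +kernel⟩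

def k15_A00pm_012_s1 : ∃ t, chk3 f_A00pm_012_s1 t 36 29 1 = true :=
  ⟨(a (a (b (b (l 3) (c (b (l 531386239) (l 531492991)) (b (l 531522687) (l 530795391)))) (b (c (l 531619711) (l 531697279)) (c (l 531772687) (a (l 531758863) (l 531598463))))) (b (b (c (l 531543311) (l 531908623)) (b (c (l 532130575) (c (l 531936895) (l 532124287))) (c (l 531700239) (l 532041743)))) (b (a (l 531814415) (a (l 531874575) (l 531906063))) (c (l 531998735) (a (l 531422591) (l 532035199)))))) (b (b (a (c (l 531101311) (l 531731327)) (c (l 531705983) (l 531795839))) (b (c (a (l 531690623) (l 531756671)) (a (l 531787391) (l 531851391))) (a (c (l 532022799) (a (l 531838847) (l 531869311))) (c (l 531829631) (l 532179327))))) (c (a (b (c (l 532745599) (l 531956751)) (c (l 532409215) (l 532134671))) (b (c (l 532528255) (l 532681343)) (c (l 532621439) (l 532156431)))) (b (a (a (l 532362111) (l 531997199)) (c (l 532027663) (l 532312079))) (a (a (l 532094991) (l 532141839)) (c (l 532469263) (c (l 532457599) (l 532179983)))))))),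 by decide +kernel⟩

def k16_A00pm_012_s1 : ∃ t, chk3 f_A00pm_012_s1 t 74 29 1 = true :=
  ⟨(b (b (a (c (l 531752575) (l 532107135)) (c (l 531782927) (c (l 531843455) (l 531616271)))) (b (a (c (l 531803775) (l 532163199)) (c (l 531834751) (l 531920143))) (c (a (l 531868799) (l 531894911)) (a (l 531949583) (l 532173583))))) (c (b (a (c (l 532013695) (l 532303999)) (c (l 532560767) (l 532449807))) (a (a (l 532067599) (l 532313615)) (a (b (l 16742360) (b (l 16742320) (a (l 16741224) (l 16740200)))) (b (l 16739904) (b (a (l 16740504) (l 16739528)) (l 16738920)))))) (b (a (a (l 532327951) (l 532337935)) (c (a (l 532066431) (l 532070783)) (a (l 532354687) (l 532291711)))) (b (a (c (l 532184191) (l 532188431)) (a (l 532203023) (l 532204047))) (a (c (l 532439423) (l 532526863)) (c (a (b (l 16743240) (a (l 16742208) (l 16741248))) (a (b (l 16741488) (l 16740408)) (b (l 16740560) (l 16739208)))) (a (b (l 16738656) (a (a (l 16743176) (l 16742648)) (c (l 16741808) (l 16739168)))) (b (a (a (l 16742432) (l 16739296))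 (b (l 16741352) (l 16740448))) (l 16739680))))))))), by decide +kernel⟩

def k17_A00pm_012_s1 : ∃ t, chk3 f_A00pm_012_s1 t 75 58 1 = true :=
  ⟨(b (c (a (l 531801103) (a (l 531809151) (l 531812735))) (a (a (l 531604495) (l 531606543)) (a (l 531874431) (l 531602447)))) (a (c (a (l 532210559) (l 532150031)) (c (a (l 531933055) (l 531936127)) (b (l 531681551) (l 532098431)))) (c (a (l 532154639) (l 532157711)) (a (b (l 531662095) (l 531979279)) (b (l 531658511) (c (l 16741768) (l 531719807))))))), by decide +kernel⟩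

def k18_A00pm_012_s1 : ∃ t, chk3 f_A00pm_012_s1 t 75 118 1 = true :=
  ⟨(a (c (a (l 532510479) (b (l 16741136) (c (l 16740896) (l 16736112)))) (c (a (l 532072575) (b (l 16741392) (b (l 16742080) (l 16740824)))) (a (l 532292367) (a (l 532223871) (b (l 16743568) (c (l 16740904) (l 16738312))))))) (b (a (c (l 16738704) (c (l 16738960) (l 532052095))) (a (c (l 16739496) (l 532038015)) (b (l 531998479) (b (l 532026639) (c (l 16737344) (l 16734968)))))) (c (a (a (b (l 16740088) (l 16738616)) (b (l 16738888) (l 16737424))) (a (b (l 16734952) (l 16735928)) (b (l 16736136) (l 16734384)))) (c (a (a (b (l 16740264) (l 16736320)) (b (l 16739056) (l 16737512))) (a (b (l 16735112) (l 16730752)) (b (l 16736272) (l 16734432)))) (a (b (c (l 16739736) (l 16737152)) (a (b (l 16734136) (l 16735976)) (b (l 16735392) (l 16737088)))) (b (a (a (b (l 16738544) (l 16735184)) (b (l 16737912) (l 16737056))) (b (c (l 16736800) (l 16734208)) (l 16735880))) (a (l 16733384) (l 16734424)))))))), by decide +kernel⟩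

def k19_A00pm_012_s1 : ∃ t, chk3 f_A00pm_012_s1 t 75 119 1 = true :=
  ⟨(a (b (c (a (b (l 16740976) (a (l 16739880) (l 16738928))) (b (a (l 16739248) (l 16738336)) (l 16737744))) (a (b (c (l 16741856) (l 16739320)) (a (b (l 16741520) (l 16738184)) (b (l 16737704) (l 16739440)))) (b (c (b (a (l 16740488) (l 16739176)) (l 16736392)) (a (c (l 16737488) (l 16737472)) (b (l 16736552) (l 16738264)))) (c (l 16737672) (l 16737560))))) (c (a (l 16737848) (l 16735168)) (c (a (l 16737896) (l 16734864)) (b (a (l 16738656) (a (l 16736360) (l 16734816))) (a (c (l 16731504) (l 16731344)) (l 16728368)))))) (c (b (a (l 16735592) (a (l 16733288) (l 16731752))) (a (l 16732120) (c (l 16723920) (l 16723712)))) (b (c (a (l 16735520) (b (l 16728104) (l 16731480))) (a (a (a (l 16736600) (b (l 16736800) (l 16734840))) (b (l 16735624) (l 16733672))) (b (a (l 16734056) (l 16732480)) (l 16731320)))) (b (c (a (l 16732720) (l 16729624)) (a (l 16732488) (l 16729368))) (a (c (l 16730856) (l 16730520)) (l 16727592)))))), by decide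 +kernel⟩

def k20_A00pm_012_s1 : ∃ t, chk3 f_A00pm_012_s1 t 36 60 1 = true :=
  ⟨(a (a (c (b (l 532174207) (a (l 531946111) (b (l 16747760) (l 16749744)))) (c (a (l 531901711) (b (l 531971967) (b (l 16752936) (b (l 16750456) (l 16748776))))) (a (b (l 531870591) (l 531954815)) (b (l 531972735) (b (l 16747656) (b (l 16750392) (l 16748688))))))) (a (b (c (l 532087679) (l 532066943)) (b (l 532159359) (a (b (l 16743960) (l 16747376)) (b (l 16748336) (l 16746296))))) (b (c (l 532183935) (l 532146303)) (b (c (l 16749560) (b (l 16749976) (l 16748424))) (c (l 16745872) (b (l 16741256) (l 16744256))))))) (b (a (a (c (l 532261503) (l 532211215)) (b (c (l 16751200) (l 532235903)) (a (l 532308095) (b (l 16748520) (l 16744272))))) (b (c (l 532111631) (c (l 532235135) (l 532276495))) (c (a (b (l 16745960) (l 16744536)) (b (l 16743440) (l 16742400))) (a (b (l 16741816) (a (l 16740888) (l 16739680))) (b (c (l 16739144) (b (l 16740024) (l 16739088))) (l 16742960)))))) (a (a (b (c (b (l 16748304) (l 16746808)) (b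 (l 16748104) (c (l 16746424) (l 16740888)))) (c (l 16743688) (l 16742944))) (b (b (c (l 16745736) (c (l 16746096) (l 16740536))) (l 16738976)) (c (l 16741360) (l 16740408)))) (c (b (l 16741920) (l 16737776)) (c (b (l 16741264) (b (l 16727496) (l 16735752))) (b (b (l 16741896) (l 16734392)) (b (l 16732104) (l 16735024)))))))), by decide +kernel⟩

def k21_A00pm_012_s1 : ∃ t, chk3 f_A00pm_012_s1 t 36 61 1 = true :=
  ⟨(a (a (b (b (b (a (c (l 16748744) (l 16743472)) (c (l 16746864) (l 16741360))) (c (l 16735096) (a (l 16746488) (l 16744216)))) (c (l 16742064) (c (l 16741728) (l 16741496)))) (c (b (l 16737144) (l 16732040)) (b (l 16736448) (l 16731120)))) (b (b (c (l 16732104) (a (l 16737832) (l 16735432))) (c (l 16737960) (b (l 16738208) (l 16735712)))) (b (c (l 16733152) (l 16731888)) (c (l 16728152) (l 16726632))))) (a (b (b (c (l 16738160) (a (l 16732984) (l 16730496))) (c (l 16723168) (b (l 16733384) (l 16730928)))) (c (b (l 16728952) (l 16724064)) (b (l 16727168) (l 16722000)))) (b (b (c (l 16723040)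 (a (l 16722728) (l 16720160))) (c (l 16718656) (b (l 16728400) (l 16725992)))) (c (b (l 16724560) (l 16719776)) (b (l 16722296) (l 16717216)))))), by decide +kernel⟩

def k22_A00pm_012_s1 : ∃ t, chk3 f_A00pm_012_s1 t 37 60 1 = true :=
  ⟨(a (b (a (a (b (b (c (l 532050303) (l 16742568)) (c (l 16742440) (a (a (l 16744504) (l 16743952)) (a (l 16740832) (l 16742992))))) (c (l 16740952) (c (l 16741496) (l 16741056)))) (b (b (c (c (l 16741224) (l 16741872)) (a (a (l 16743632) (l 16740456)) (a (l 16739968) (l 16742144)))) (c (l 16740448) (l 16739000))) (c (l 16739144) (c (l 16738744) (l 16738232))))) (c (b (b (l 16736208) (l 16737904)) (c (l 16735520) (l 16735048))) (b (b (c (l 16736840) (a (l 16740608) (l 16737656))) (a (l 16738752) (l 16735840))) (a (b (l 16736696) (l 16729376)) (b (l 16728568) (l 16726512)))))) (c (b (a (l 16736824) (l 16731512)) (a (l 16732808) (l 16727632))) (b (c (a (l 16735944) (b (l 16720984) (l 16729408))) (a (b (l 16731136) (l 16728920)) (a (l 16725808) (l 16728192)))) (a (c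 (l 16726408) (a (l 16732144) (l 16729408))) (b (a (l 16728224) (l 16725440)) (a (l 16726040) (l 16723280))))))) (b (c (a (a (b (l 16734656) (l 16731072)) (b (l 16731696) (l 16728192))) (b (a (l 16728704) (a (l 16721184) (l 16724904))) (a (l 16720016) (b (l 16723120) (l 16721416))))) (b (a (a (c (l 16734088) (b (l 16729416) (l 16732624))) (b (c (l 16732040) (l 16731616)) (l 16724640))) (a (c (l 16722816) (l 16730168)) (b (l 16725680) (l 16723768)))) (a (a (b (l 16725632) (l 16728848)) (b (l 16727904) (l 16725904))) (a (b (l 16724896) (l 16722920)) (c (l 16721240) (l 16720464)))))) (c (a (a (b (l 16727392) (l 16713128)) (b (l 16714096) (l 16720864))) (b (b (l 16710664) (l 16708888)) (b (l 16717568) (l 16715736)))) (a (b (a (b (l 16726800) (l 16724720)) (b (l 16723880) (l 16721824))) (a (l 16726792) (l 16718688))) (b (a (c (l 16720392) (l 16719400)) (l 16716920)) (c (l 16714952) (l 16713688))))))), by decide +kernel⟩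

def k23_A00pm_012_s1 : ∃ t, chk3 f_A00pm_012_s1 t 37 61 1 = true :=
  ⟨(b (a (b (a (c (l 16718200) (b (l 16717376) (l 16725576))) (c (l 16713152) (b (l 16722464) (l 16720224)))) (a (c (l 16713936) (c (l 16722696) (l 16721440))) (c (l 16709016) (c (l 16717520) (l 16716064))))) (c (a (b (b (l 16719360) (l 16717400)) (l 16703888)) (b (b (l 16713872) (l 16711976)) (l 16709048))) (b (a (b (l 16716904) (l 16714720)) (c (l 16710880) (l 16709360))) (a (c (l 16712168) (l 16710552)) (l 16705792))))) (a (a (c (b (l 16719960) (l 16715296)) (b (l 16717264) (l 16712272))) (c (b (l 16715160) (l 16710616)) (b (l 16712088) (l 16707184)))) (c (b (a (l 16710168) (l 16704968)) (a (l 16705744) (l 16700680))) (b (a (l 16706752) (l 16701272)) (a (l 16701952) (l 16696568)))))), by decide +kernel⟩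

def k24_A00pm_012_s1 : ∃ t, chk3 f_A00pm_012_s1 t 18 62 1 = true :=
  ⟨(a (a (b (b (a (c (l 16726752) (l 16725616)) (c (l 16722960) (l 16721216))) (a (c (l 16721280) (l 16719952)) (c (l 16717584) (l 16715624)))) (b (a (c (l 16715632) (l 16714120)) (c (l 16712024) (l 16709864))) (a (c (l 16709800) (l 16708120)) (c (l 16706272) (l 16703928))))) (b (b (a (c (l 16718976) (l 16716656)) (c (l 16714800) (l 16711960))) (a (c (l 16713704) (l 16711144)) (c (l 16709632) (l 16706528)))) (b (a (c (l 16708232) (l 16705464)) (c (l 16704264) (l 16700920))) (c (l 16700664) (a (l 16699600) (l 16695136)))))) (b (a (c (b (a (l 16710432) (l 16705872)) (a (l 16705368) (l 16700920))) (b (a (l 16707104) (l 16702112)) (a (l 16701760) (l 16696856)))) (c (a (b (l 16701120) (l 16696288)) (b (l 16696176) (l 16691464))) (b (a (l 16696968) (l 16691680)) (a (l 16691800) (l 16686608))))) (c (a (b (l 16697968) (a (l 16694648) (l 16690416))) (b (a (l 16691248) (l 16686544)) (a (l 16686008) (l 16681416)))) (a (b (a (l 16696240) (l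 16691416)) (a (l 16690536) (l 16685800))) (b (a (l 16686456) (l 16681352)) (a (l 16680920) (l 16675912))))))), by decide +kernel⟩

def k25_A00pm_012_s1 : ∃ t, chk3 f_A00pm_012_s1 t 18 63 1 = true :=
  ⟨(a (c (b (a (b (a (l 16703816) (l 16700344)) (a (l 16697672) (l 16694256))) (b (l 16694864) (l 16688872))) (a (b (l 16689720) (l 16683312)) (b (l 16682712) (l 16676392)))) (b (a (a (b (l 16701976) (l 16695672)) (b (l 16697832) (l 16691576))) (b (a (l 16693568) (l 16689176)) (a (l 16687368) (l 16683048)))) (a (b (a (l 16689224) (l 16685160)) (a (l 16682632) (l 16678608))) (b (a (l 16681008) (l 16676736)) (a (l 16674480) (l 16670264)))))) (b (c (a (b (l 16686952) (l 16681144)) (b (l 16673104) (l 16672744))) (a (b (a (l 16684656) (l 16680000)) (a (l 16678592) (l 16674016))) (b (a (l 16675208) (l 16670288)) (a (l 16669312) (l 16664480))))) (c (a (b (l 16675144) (l 16668944)) (b (l 16666944) (l 16660936))) (a (b (a (l 16672360) (l 16667856)) (a (l 16665936) (l 16661512))) (b (a (l 16663232) (l 16658488))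 (a (l 16656968) (l 16652304))))))), by decide +kernel⟩

def k26_A00pm_012_s1 : ∃ t, chk3 f_A00pm_012_s1 t 38 28 1 = true :=
  ⟨(b (a (a (b (b (c (l 531695487) (l 531594879)) (l 531662351)) (c (l 531698047) (l 531670543))) (b (b (l 531641215) (l 531653903)) (c (l 531708287) (l 531641103)))) (a (b (c (l 531712527) (c (l 531594879) (l 531233663))) (c (l 531717135) (c (l 531101823) (l 531307535)))) (c (b (l 531715087) (b (l 531722255) (l 531727631))) (a (b (l 531533951) (l 531316751)) (b (l 531254399) (l 531302927)))))) (c (a (a (b (l 531990655) (l 531896079)) (b (l 531729679) (a (l 531765887) (l 531768191)))) (b (a (b (l 531729679) (l 531743247)) (a (l 531739919) (b (l 16740864) (l 16732848)))) (b (a (a (l 16742968) (l 16740416)) (a (l 16732616) (l 531497487))) (a (a (l 16740160) (l 531514895)) (a (a (l 16730456) (l 16729184)) (c (l 16727360) (l 16727176))))))) (a (b (a (l 531728399) (c (l 531174015) (l 531425039))) (a (a (l 531393151) (l 531786367)) (a (l 531506447) (b (l 531477119) (l 531511679)))))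 (b (a (a (l 531412751) (l 531398159)) (a (b (l 16737536) (l 16734856)) (b (l 16734792) (l 16732136)))) (a (a (b (l 531463807) (l 531499023)) (b (l 531718671) (l 531486223))) (a (b (l 531437071) (b (l 16735384) (l 16728792))) (b (b (l 16735376) (l 16734032)) (b (l 16727448) (a (l 16732016) (l 16730680)))))))))), by decide +kernel⟩

def k27_A00pm_012_s1 : ∃ t, chk3 f_A00pm_012_s1 t 39 112 1 = true :=
  ⟨(a (b (a (a (l 16743280) (l 16740624)) (a (l 16737968) (l 16735336))) (a (c (l 16745144) (b (l 16739296) (l 16737968))) (c (l 16734752) (a (l 16739760) (l 16737040))))) (c (a (b (l 16732240) (a (l 16736152) (l 16733600))) (c (b (l 16727544) (b (l 16725616) (a (l 16730816) (c (l 16723256) (l 16722832))))) (b (l 16726688) (b (l 16724728) (a (l 16729928) (l 16722112)))))) (c (a (b (l 16736184) (l 16723032)) (b (l 16720416) (a (l 16729544) (b (l 16727576) (l 16726232))))) (a (b (l 16735136) (l 16732424)) (b (l 16729704) (a (l 16728320) (l 16720368))))))), by decide +kernel⟩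

def k28_A00pm_012_s1 : ∃ t, chk3 f_A00pm_012_s1 t 78 113 1 = true :=
  ⟨(b (a (c (l 16737232) (b (l 16736632) (l 16735312))) (c (l 16732096) (a (l 16737096) (l 16734376)))) (a (c (c (l 16740016) (l 16734264)) (a (l 16739936) (l 16737184))) (c (a (l 16735928) (b (l 16734048) (l 16732696))) (a (l 16734448) (l 16726480))))), by decide +kernel⟩

def k29_A00pm_012_s1 : ∃ t, chk3 f_A00pm_012_s1 t 79 113 1 = true :=
  ⟨(a (b (c (c (a (l 16733880) (l 16726112)) (a (l 16733096) (l 16730520))) (a (l 16731664) (b (l 16729632) (l 16728296)))) (b (c (a (l 16731496) (c (l 16729344) (l 16728512))) (a (l 16729664) (l 16726960))) (a (c (l 16724904) (l 16728344)) (a (c (c (l 16723376) (l 16727808)) (l 16726312)) (c (b (c (a (l 16728016) (l 16724744)) (l 16726848)) (c (a (l 16724680) (l 16726560)) (l 16726080))) (b (l 16725280) (l 16727136))))))) (b (a (a (c (c (l 16729464) (l 16728576)) (l 16726936)) (a (c (c (l 16723280) (l 16727616)) (l 16728552)) (c (b (l 16728112) (b (l 16721872) (c (l 16724224) (l 16725928))))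 (b (l 16725928) (l 16727184))))) (c (b (a (c (c (l 16727808) (l 16727384)) (l 16726664)) (c (b (c (l 16724208) (l 16726400)) (a (l 16726224) (l 16725456))) (b (l 16725656) (l 16724864)))) (c (a (b (a (l 16724280) (l 16726168)) (l 16725712)) (c (l 16724784) (l 16724336))) (a (b (l 16725576) (l 16724760)) (l 16723576)))) (b (a (l 16727536) (b (l 16723856) (l 16723048))) (a (b (l 16723824) (l 16722992)) (l 16721752))))) (c (a (b (a (b (c (l 16722552) (l 16726912)) (c (c (l 16724640) (l 16726856)) (a (l 16726552) (l 16725832)))) (c (b (a (c (l 16724368) (l 16726576)) (l 16726032)) (l 16725560)) (l 16725048))) (a (b (a (c (l 16724024) (l 16725776)) (l 16725440)) (l 16724960)) (l 16726424))) (b (a (b (l 16724392) (l 16723520)) (l 16722352)) (l 16726632))) (a (b (a (b (l 16725272) (l 16727168)) (l 16725968)) (a (l 16723296) (l 16721616))) (l 16725200))))), by decide +kernel⟩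

def k30_A00pm_012_s1 : ∃ t, chk3 f_A00pm_012_s1 t 78 114 1 = true :=
  ⟨(a (c (a (b (l 16738304) (l 531484175)) (c (b (l 16735984) (l 16727944)) (b (l 16730240) (l 16727504)))) (c (a (l 531391503) (b (l 16734880) (l 16726968))) (a (l 531321359) (b (l 16734192) (l 16726344))))) (c (a (a (b (l 16733832) (b (l 16726520) (l 16725136))) (b (l 16727312) (b (l 16725248) (b (l 16729456) (c (l 16729000) (l 16728488)))))) (c (b (l 16725720) (b (a (l 16729504) (b (l 16728600) (a (l 16728192) (l 16727464)))) (a (a (b (l 16728768) (l 16727976)) (b (l 16728088) (l 16727208))) (l 16729112)))) (b (l 16725056) (b (a (l 16728912) (b (l 16727960) (a (l 16727576) (l 16726832)))) (a (b (a (l 16728208) (l 16727512)) (l 16727032)) (l 16725880)))))) (c (b (a (l 16732200) (l 16729520)) (a (a (l 16730208) (b (l 16729536) (l 16728208))) (b (a (l 16728200) (b (l 16727192) (l 16726440))) (a (b (l 16727168) (l 16726368)) (l 16725152))))) (a (b (l 16731392) (b (l 16729456) (a (l 16728864) (l 16727472)))) (b (l 16728616) (b (a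 (l 16727368) (b (l 16726296) (l 16725568))) (a (b (l 16726368) (l 16725592)) (l 16724312)))))))), by decide +kernel⟩

def k31_A00pm_012_s1 : ∃ t, chk3 f_A00pm_012_s1 t 78 115 1 = true :=
  ⟨(a (b (a (c (b (l 16728200) (l 16726816)) (c (l 16726968) (l 16726512))) (a (c (c (l 16725768) (l 16725408)) (c (l 16724968) (l 16724440))) (c (b (l 16725016) (b (c (l 16729392) (l 16729008)) (a (b (l 16729008) (l 16728600)) (l 16728040)))) (b (l 16729256) (b (a (l 16728608) (l 16727912)) (a (l 16727896) (l 16727096))))))) (a (c (b (b (l 16725768) (a (l 16730952) (a (l 16730000) (l 16729320)))) (a (b (l 16725008) (c (l 16726936) (l 16726720))) (b (a (l 16729216) (l 16728440)) (l 16727904)))) (b (a (l 16730672) (b (l 16729648) (a (l 16729320) (l 16728608)))) (b (a (l 16729664) (a (l 16728568) (l 16727760))) (a (a (l 16729296) (l 16728512)) (l 16727264))))) (b (c (a (b (a (l 16729408) (l 16728688)) (l 16728168)) (c (l 16727208) (l 16726856))) (a (b (a (l 16728624) (l 16727864)) (l 16727400)) (l 16726168))) (c (c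 (l 16728728) (l 16725792)) (l 16727816))))) (b (a (b (b (c (a (l 16729336) (a (a (l 16728536) (l 16728184)) (l 16727608))) (a (l 16728232) (a (l 16727176) (l 16726392)))) (a (c (c (c (l 16726280) (l 16726088)) (l 16725744)) (a (l 16727912) (l 16727168))) (c (l 16727096) (l 16725928)))) (c (a (b (a (l 16728152) (l 16727368)) (l 16726840)) (l 16728320)) (a (b (l 16726720) (l 16725832)) (l 16724584)))) (b (c (a (c (l 16726208) (l 16725672)) (l 16726968)) (c (l 16724200) (l 16723432))) (c (a (l 16724088) (l 16722480)) (l 16727280)))) (b (a (c (c (l 16727440) (l 16724408)) (c (l 16723912) (l 16723328))) (c (l 16724016) (l 16720224))) (a (c (c (l 16722920) (l 16722528)) (l 16727048)) (c (l 16719496) (l 16718400)))))), by decide +kernel⟩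

def k32_A00pm_012_s1 : ∃ t, chk3 f_A00pm_012_s1 t 79 57 1 = true :=
  ⟨(b (a (b (a (b (a (c (l 16724176) (l 16727704)) (c (c (b (l 16728856) (c (l 16728328) (l 16727992))) (l 16727752)) (b (l 16726672) (l 16726008)))) (b (c (a (l 16728400) (a (c (l 16727768) (l 16727032)) (c (l 16727040) (l 16726288)))) (a (l 16726712) (a (l 16725672) (l 16724888)))) (c (a (a (l 16728032) (a (l 16727536) (l 16727168))) (a (l 16726584) (l 16725792))) (a (a (l 16726400) (l 16725664)) (l 16724440))))) (c (b (a (a (b (c (l 16727912) (l 16727120)) (c (l 16727136) (l 16726352))) (c (b (l 16724600) (l 16726368)) (l 16725984))) (c (l 16728248) (l 16724792))) (c (a (l 16725408) (l 16723832)) (l 16723816))) (b (a (b (a (l 16725656) (l 16724920)) (l 16724480)) (l 16723248)) (l 16727576)))) (c (a (b (a (b (c (a (l 16727576) (l 16726816)) (l 16726504)) (l 16725976)) (l 16727448)) (c (l 16726736) (l 16723440))) (c (c (l 16727288) (l 16726928)) (l 16726328))) (a (b (a (b (l 16725240) (l 16724376)) (l 16723112)) (l 16722192))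 (l 16724912)))) (c (b (a (b (a (l 16726248) (l 16722016)) (l 16726264)) (c (l 16724416) (l 16718184))) (a (b (l 16719192) (l 16717344)) (l 16720272))) (a (b (l 16725056) (l 16721496)) (b (l 16726896) (l 16712824))))) (b (a (c (a (b (c (l 16722248) (l 16721600)) (c (l 16720352) (l 16719736))) (c (l 16723360) (l 16717392))) (c (a (l 16725168) (l 16716552)) (c (l 16722816) (l 16722344)))) (c (c (l 16718560) (l 16717696)) (a (l 16712648) (l 16709208)))) (a (c (a (c (l 16722720) (l 16716912)) (c (l 16714272) (l 16713624))) (c (a (l 16716256) (l 16712872)) (l 16719008))) (c (c (a (l 16711064) (l 16707840)) (l 16713904)) (b (l 16718688) (l 16716856)))))), by decide +kernel⟩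

def k33_A00pm_012_s1 : ∃ t, chk3 f_A00pm_012_s1 t 76 58 1 = true :=
  ⟨(a (b (a (a (l 531908111) (l 531940623)) (b (l 531821583) (a (l 531587599) (l 531854463)))) (c (a (b (l 16739120) (l 16736376)) (b (l 16736624) (a (l 16737144) (b (l 16736568) (l 16732584))))) (c (b (a (l 16742024) (l 531634303)) (a (l 16739280) (b (l 16737440) (a (l 16736728) (b (l 16735808) (c (l 16735032) (l 16735096))))))) (a (b (l 531664767) (l 531710735)) (b (l 531653759) (b (l 16734960) (a (l 16736864) (b (l 16735928) (l 16732552))))))))) (b (c (a (l 531819535) (c (l 531547151) (l 531556879))) (a (b (l 531559183) (l 531596047)) (b (l 531547663) (b (l 531575567) (l 531594767))))) (b (c (a (l 531904639) (b (l 16729696) (b (c (l 16728568) (a (l 16734576) (l 16733280))) (a (l 16728568) (l 16732360))))) (a (c (l 531627647) (l 531641103)) (c (b (l 16735080) (a (b (l 16734680) (l 16733976)) (b (l 16733360) (l 16732496)))) (b (l 16735136) (a (b (l 16734760) (l 16731440)) (b (l 16730792) (l 16732552))))))) (c (a (b (a (l 16730080)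 (b (l 16729160) (c (l 16733536) (l 16733672)))) (a (a (l 16731544) (a (l 16728368) (l 16733232))) (l 16727000))) (b (a (c (l 16727208) (b (l 16733048) (l 16732120))) (l 16730952)) (a (l 16730664) (l 16729072)))) (a (a (b (c (l 16735544) (l 16735656)) (b (a (l 16732248) (l 16734128)) (l 16733592))) (b (b (l 16732024) (a (l 16731616) (l 16733472))) (c (l 16732408) (l 16732488)))) (a (b (b (a (l 16730968) (l 16732808)) (l 16732256)) (l 16730824)) (b (l 16731104) (l 16729200)))))))), by decide +kernel⟩

def k34_A00pm_012_s1 : ∃ t, chk3 f_A00pm_012_s1 t 77 116 1 = true :=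
  ⟨(a (c (b (a (l 531539215) (b (l 16730264) (l 16728864))) (a (b (l 16729992) (c (l 16728560) (l 16728616))) (a (b (l 16733336) (b (l 16727032) (a (l 16731832) (l 16731072)))) (b (b (l 16732416) (c (l 16731688) (l 16731672))) (b (l 16728200) (l 16729872)))))) (b (a (b (l 16732760) (l 16731384)) (a (l 531794959) (l 531789071))) (a (a (l 531576591) (b (l 16734600) (b (l 16733568) (l 16730256)))) (b (a (l 16733280) (b (l 16732296) (a (l 16731944) (l 16731232)))) (a (b (a (l 16732576) (l 16731904)) (a (l 16731824) (l 16731040))) (b (a (l 16731144) (l 16730336)) (l 16729800))))))) (b (a (c (b (l 16727720) (a (l 16726960) (b (l 16731280) (a (l 16730856) (l 16730112))))) (a (c (l 16727504) (l 16727336)) (b (l 16732008) (b (l 16730992) (a (l 16730608) (l 16729832)))))) (b (a (b (l 16725992) (a (l 16730880) (b (l 16730392) (l 16727376)))) (a (c (b (l 16730448) (l 16729608)) (b (l 16730000) (l 16729184))) (b (c (l 16729736) (l 16729248)) (l 16728616)))) (a (a (b (c (l 16730240) (l 16729904)) (l 16729184))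 (b (l 16729312) (l 16728368))) (c (l 16727784) (l 16727384))))) (b (a (a (b (c (c (l 16731104) (l 16731056)) (a (l 16731288) (l 16730536))) (c (l 16730200) (l 16730032))) (c (l 16729080) (l 16728848))) (c (a (l 16727472) (l 16725864)) (c (l 16726448) (l 16726232)))) (a (c (a (l 16728752) (l 16727152)) (c (l 16727848) (l 16727720))) (c (l 16724736) (l 16727080)))))), by decide +kernel⟩

def k35_A00pm_012_s1 : ∃ t, chk3 f_A00pm_012_s1 t 77 117 1 = true :=
  ⟨(a (b (a (c (b (a (b (l 16733408) (c (l 16732592) (l 16732672))) (b (c (l 16732008) (l 16732064)) (l 16731128))) (a (b (l 16731744) (l 16730784)) (l 16729672))) (b (b (a (l 16733504) (c (l 16729472) (l 16729456))) (a (c (l 16730104) (l 16730128)) (l 16731184))) (a (c (l 16731360) (l 16731392)) (l 16729744)))) (c (b (a (l 16730016) (l 16728416)) (a (l 16728072) (l 16726472))) (b (c (l 16729208) (l 16729168)) (c (l 16727288) (l 16727256))))) (a (c (b (a (l 16729360) (l 16727760)) (l 16726688)) (b (c (l 16728640) (l 16728656)) (l 16729368))) (b (c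 (l 16725360) (l 16725368)) (c (l 16723488) (l 16723464))))) (b (a (b (c (l 16726008) (l 16728504)) (c (l 16724064) (l 16723968))) (b (c (l 16722784) (l 16722552)) (c (l 16720840) (l 16720640)))) (a (c (b (l 16722152) (l 16720272)) (b (l 16722056) (l 16720168))) (b (c (l 16718920) (l 16718736)) (c (l 16717040) (l 16716848)))))), by decide +kernel⟩

def k36_A00pm_012_s1 : ∃ t, chk3 f_A00pm_012_s1 t 76 118 1 = true :=
  ⟨(a (b (c (a (a (b (l 16737680) (l 16733688)) (b (l 16736432) (l 16734840))) (a (b (c (l 16734960) (l 16732496)) (l 16728048)) (b (l 16733544) (l 16731728)))) (c (a (a (b (l 16737920) (b (l 16731688) (l 16730872))) (b (b (l 16737000) (l 16731072)) (c (l 16734984) (l 16735032)))) (a (b (b (c (l 16735656) (l 16735720)) (l 16734840)) (l 16733440)) (b (l 16733720) (l 16731840)))) (a (b (a (l 16738056) (b (l 16737136) (l 16733808))) (a (b (c (l 16737016) (l 16734440)) (l 16733576)) (a (l 16732872) (l 16734704)))) (b (a (b (l 16733184) (l 16734936)) (l 16733808)) (a (l 16733504) (l 16731888))))))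 (b (c (a (l 16733840) (c (l 16730680) (l 16730736))) (a (c (a (l 16734728) (l 16733152)) (a (l 16734776) (l 16733176))) (a (l 16731576) (l 16729976)))) (a (c (l 16726816) (c (l 16732072) (l 16734664))) (c (l 16728936) (c (l 16728904) (l 16728848)))))) (c (b (b (a (a (l 16731976) (l 16730392)) (l 16728016)) (a (a (l 16730152) (l 16728576)) (l 16726200))) (a (b (l 16727568) (l 16725792)) (c (l 16723528) (l 16723496)))) (b (b (c (a (l 16731320) (l 16728104)) (a (l 16734008) (l 16728128))) (a (c (l 16729448) (l 16729464)) (l 16728848))) (a (b (l 16727568) (l 16725680)) (c (l 16723440) (l 16723352)))))), by decide +kernel⟩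

def k37_A00pm_012_s1 : ∃ t, chk3 f_A00pm_012_s1 t 76 119 1 = true :=
  ⟨(c (b (b (a (a (l 16725056) (l 16727184)) (a (l 16724040) (l 16720880))) (a (a (l 16728560) (l 16725448)) (c (l 16720816) (l 16720648)))) (a (a (b (l 16726840) (l 16725128)) (c (l 16722992) (l 16722736))) (a (l 16719744) (l 16716592)))) (a (b (b (a (c (l 16730208) (l 16730104)) (l 16726992)) (a (c (l 16728352) (l 16728168)) (l 16725104))) (a (c (l 16725576) (l 16725248)) (c (l 16722432) (l 16722088)))) (b (a (c (l 16722944) (l 16722752)) (c (l 16719752) (l 16719528))) (a (c (l 16719272) (l 16718904)) (c (l 16716088) (l 16715696)))))), by decide +kernel⟩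

def k38_A00pm_012_s1 : ∃ t, chk3 f_A00pm_012_s1 t 77 59 1 = true :=
  ⟨(c (b (a (b (a (b (l 16724832) (l 16723016)) (b (l 16721632) (l 16719816))) (a (b (l 16721224) (l 16719448)) (l 16719752))) (b (a (l 16720120) (l 16716888)) (a (l 16713912) (l 16710680)))) (b (a (a (l 16716840) (l 16713640)) (a (l 16710424) (l 16707192))) (a (a (l 16713424) (l 16710232)) (a (l 16707016) (l 16703792))))) (b (a (b (a (c (l 16723920) (l 16723896)) (b (l 16721576) (l 16719696))) (a (b (l 16721088) (l 16719216)) (b (l 16717824) (l 16715960)))) (a (b (b (l 16718280) (l 16716408)) (l 16713600)) (b (l 16719272) (l 16710304)))) (a (a (b (a (l 16717224) (l 16715600)) (l 16712680)) (b (l 16713160) (l 16709440))) (b (a (l 16709888) (l 16706600)) (a (l 16706184) (l 16702904)))))), by decide +kernel⟩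

def k39_A00pm_012_s1 : ∃ t, chk3 f_A00pm_012_s1 t 39 58 1 = true :=
  ⟨(a (b (a (a (b (b (c (a (l 16730704) (l 16726480)) (c (l 16726888) (l 16726544))) (c (a (l 16726176) (l 16724568)) (l 16727488))) (b (c (l 16723448) (l 16722992)) (c (l 16721504) (l 16721104)))) (b (c (b (a (l 16724864) (l 16723248)) (l 16722144)) (c (l 16725240) (l 16727456))) (c (b (l 16720208) (l 16718264)) (b (l 16719624) (l 16717736))))) (b (b (c (a (l 16720824) (l 16717576)) (c (l 16723768) (l 16717984))) (c (a (l 16718896) (l 16715648)) (a (l 16718112) (l 16714704)))) (c (a (b (l 16716960) (l 16715008)) (c (l 16712896) (l 16712536))) (c (a (l 16715488) (l 16712128)) (l 16718616))))) (a (b (a (c (b (l 16719552) (l 16717600)) (b (l 16719200) (l 16717288))) (c (b (l 16716304) (l 16714352)) (c (l 16715008) (l 16714744)))) (c (a (b (l 16715680) (l 16713792)) (c (l 16711552) (l 16711392))) (a (b (l 16715392) (l 16713504)) (l 16716328)))) (c (b (a (b (l 16713048) (l 16711088)) (c (l 16708936) (l 16708632))) (c (a (l 16708312)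 (l 16705056)) (a (l 16708096) (l 16704784)))) (b (c (l 16715216) (l 16714864)) (c (l 16706168) (l 16705856)))))) (b (a (c (b (c (a (l 16713592) (l 16710368)) (a (l 16713104) (l 16709792))) (c (a (l 16709656) (l 16706416)) (l 16712816))) (b (c (l 16716080) (l 16720632)) (c (l 16707048) (l 16706464)))) (c (b (c (l 16710760) (l 16704816)) (c (l 16706776) (l 16700912))) (b (c (l 16704024) (l 16703152)) (c (l 16700232) (l 16699480))))) (c (a (b (c (a (l 16705680) (l 16702424)) (l 16708896)) (c (a (l 16701792) (l 16698512)) (l 16699800))) (b (c (l 16702752) (l 16696976)) (c (l 16698824) (l 16693104)))) (a (b (c (l 16703216) (l 16702720)) (c (l 16699408) (l 16698976))) (b (c (l 16696392) (l 16695752)) (l 16702792)))))), by decide +kernel⟩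

def k40_A00pm_012_s1 : ∃ t, chk3 f_A00pm_012_s1 t 39 59 1 = true :=
  ⟨(a (b (a (b (c (a (l 16713648) (l 16710384)) (a (l 16710696) (l 16707344))) (c (a (l 16707432) (l 16704168)) (a (l 16706976) (l 16703632)))) (b (c (a (l 16707112) (l 16703824)) (c (l 16702432) (l 16702120))) (c (c (l 16699392) (l 16699088)) (c (l 16698760) (l 16698400))))) (c (a (b (a (l 16703944) (l 16700680)) (a (l 16700544) (l 16697288))) (b (c (l 16695944) (l 16695560)) (a (l 16694008) (l 16690712)))) (a (b (a (l 16703288) (l 16699952)) (a (l 16699608) (l 16696288))) (b (c (l 16695144) (l 16694688)) (c (l 16691560) (l 16690976)))))) (c (b (a (b (c (l 16699040) (l 16696064)) (c (l 16692824) (l 16692432))) (b (c (l 16689824) (l 16689352)) (c (l 16686208) (l 16685720)))) (a (b (c (l 16689368) (l 16688904)) (c (l 16686024) (l 16685448))) (b (c (l 16682736) (l 16682184)) (c (l 16679384) (l 16678728))))) (a (b (b (c (l 16695672) (l 16695256)) (c (l 16692016) (l 16691560))) (b (l 16693384) (l 16684512))) (b (b (l 16699080) (l 16684920))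 (b (l 16681288) (l 16677680)))))), by decide +kernel⟩

def k41_A00pm_012_s1 : ∃ t, chk3 f_A00pm_012_s1 t 38 60 1 = true :=
  ⟨(a (b (a (c (b (a (b (l 16723432) (l 16721744)) (l 16719488)) (a (l 16719224) (l 16716152))) (c (b (a (l 16721880) (l 16718752)) (l 16719256)) (b (a (l 16721336) (l 16718192)) (a (l 16717384) (l 16714264))))) (c (b (a (l 16716376) (l 16713232)) (a (l 16713040) (l 16709912))) (b (c (l 16714024) (a (l 16715024) (l 16711840))) (c (l 16710368) (l 16709536))))) (b (c (a (a (l 16715832) (l 16712800)) (a (l 16709736) (l 16706624))) (a (c (l 16712880) (l 16711808)) (c (l 16706696) (l 16705592)))) (a (c (a (l 16712320) (l 16709376)) (c (l 16709048) (l 16707704))) (c (c (l 16705400) (l 16704232)) (c (l 16702952) (l 16701568)))))) (b (a (b (c (a (l 16710072) (l 16706888)) (c (l 16707648) (l 16707016))) (c (a (l 16706760) (l 16703592)) (c (l 16704024) (l 16703160)))) (b (c (a (l 16703680) (l 16700456)) (a (l 16702480) (l 16699224))) (c (a (l 16700392) (l 16697184)) (a (l 16698768) (l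 16695520))))) (c (a (b (c (l 16702368) (l 16701416)) (l 16703888)) (b (a (l 16697136) (l 16693936)) (a (l 16693896) (l 16690704)))) (a (b (c (l 16700384) (l 16699256)) (c (l 16696720) (l 16695304))) (b (c (l 16693976) (l 16692832)) (c (l 16690352) (l 16688920))))))), by decide +kernel⟩

def k42_A00pm_012_s1 : ∃ t, chk3 f_A00pm_012_s1 t 38 61 1 = true :=
  ⟨(a (b (c (b (a (l 16712512) (l 16701400)) (a (l 16703520) (l 16697792))) (a (b (c (l 16705080) (l 16703472)) (l 16705296)) (b (c (l 16699120) (l 16697440)) (l 16694160)))) (c (b (a (l 16699576) (l 16693984)) (a (l 16695416) (l 16689952))) (a (b (l 16695632) (l 16691032)) (b (l 16689848) (l 16685344))))) (a (b (b (c (l 16700552) (c (l 16692968) (l 16691256))) (c (l 16691864) (l 16688112))) (b (c (l 16688192) (l 16683904)) (c (l 16684304) (l 16679512)))) (b (b (c (l 16694304) (a (l 16687424) (l 16684240))) (c (l 16685712) (l 16681904))) (b (c (l 16682200) (l 16677816)) (c (l 16678448) (l 16673528)))))), by decide +kernel⟩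

def k43_A00pm_012_s1 : ∃ t, chk3 f_A00pm_012_s1 t 39 30 1 = true :=
  ⟨(b (a (b (a (b (c (a (l 16697224) (l 16693960)) (a (l 16695936) (l 16692624))) (c (a (l 16693952) (l 16690696)) (l 16695848))) (c (b (a (l 16690688) (l 16687400)) (a (l 16687432) (l 16684144))) (b (l 16692872) (l 16683984)))) (a (b (c (l 16694336) (l 16686912)) (c (l 16685880) (l 16683184))) (b (c (l 16687816) (l 16680320)) (c (l 16679376) (l 16676624))))) (b (a (c (b (c (l 16682784) (l 16682064)) (c (l 16679616) (l 16678728))) (b (l 16680896) (l 16677280))) (c (b (c (l 16676136) (l 16675352)) (c (l 16672968) (l 16672016))) (b (l 16674088) (l 16670488)))) (c (a (b (l 16681216) (l 16672800)) (b (l 16674552) (l 16666144))) (a (b (l 16673640) (l 16669984)) (b (l 16666888) (l 16663256)))))) (a (b (a (c (b (l 16682664) (l 16679416)) (b (l 16679400) (l 16675552))) (c (b (l 16676192) (l 16672968)) (b (l 16672880) (l 16669072)))) (a (c (c (l 16685752) (l 16678312)) (b (l 16671552) (l 16667384))) (c (b (l 16669648) (l 16666160)) (b (l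 16665152) (l 16661072))))) (b (a (b (c (l 16669632) (l 16666280)) (c (l 16666432) (l 16662504))) (b (c (l 16662992) (l 16659584)) (c (l 16659816) (l 16655848)))) (a (c (b (l 16663144) (l 16659760)) (b (l 16658624) (l 16654632))) (c (b (l 16656552) (l 16653192)) (b (l 16652008) (l 16648056))))))), by decide +kernel⟩

def k44_A00pm_012_s1 : ∃ t, chk3 f_A00pm_012_s1 t 38 31 1 = true :=
  ⟨(b (b (a (c (a (b (l 16691040) (l 16686456)) (b (l 16685712) (l 16681256))) (a (b (l 16686240) (l 16681272)) (b (l 16680664) (l 16675792)))) (a (b (c (l 16680192) (l 16674936)) (c (l 16675872) (l 16670168))) (c (b (l 16674480) (l 16670296)) (b (l 16669056) (l 16664400))))) (a (b (c (a (l 16681656) (l 16676592)) (a (l 16676112) (l 16670728))) (c (a (l 16676648) (l 16671704)) (a (l 16670768) (l 16665488)))) (a (c (b (l 16671328) (l 16666576)) (b (l 16665208) (l 16660064))) (c (b (l 16665888) (l 16661264)) (b (l 16659544) (l 16654504)))))) (b (c (a (b (a (l 16671432) (l 16666608)) (l 16663672)) (a (b (l 16661600) (l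 16656416)) (b (l 16656424) (l 16651360)))) (a (b (a (l 16665240) (l 16660048)) (a (l 16659520) (l 16654424))) (a (b (l 16654728) (l 16649208)) (b (l 16649272) (l 16643848))))) (c (a (b (l 16658088) (l 16654920)) (a (b (l 16651008) (l 16645392)) (b (l 16646080) (l 16640584)))) (a (b (a (l 16653616) (l 16648616)) (a (l 16647520) (l 16642608))) (b (a (l 16643488) (l 16638232)) (a (l 16637584) (l 16632424))))))), by decide +kernel⟩

def k45_A00pm_012_s1 : ∃ t, chk3 f_A00pm_012_s1 t 39 31 1 = true :=
  ⟨(b (a (b (c (a (b (l 16668584) (l 16664544)) (b (l 16662496) (l 16658592))) (a (b (l 16663024) (l 16658464)) (b (l 16656832) (l 16652384)))) (c (b (a (l 16660272) (l 16654472)) (a (l 16655784) (l 16650120))) (a (b (l 16653720) (l 16648792)) (b (l 16647752) (l 16642920))))) (b (c (a (b (l 16656192) (l 16652456)) (b (l 16649736) (l 16646096))) (a (b (l 16650472) (l 16646152)) (b (l 16643984) (l 16639752)))) (c (a (b (l 16648472) (l 16644272)) (b (l 16642288) (l 16638232))) (a (b (l 16641632) (l 16636912))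 (b (l 16635352) (l 16630752)))))) (b (c (a (a (b (l 16651080) (l 16646152)) (b (l 16645552) (l 16640760))) (b (a (l 16639848) (l 16633944)) (a (l 16635192) (l 16629440)))) (a (b (a (l 16643664) (l 16637904)) (a (l 16638344) (l 16632688))) (a (b (l 16632008) (l 16626904)) (b (l 16625960) (l 16620968))))) (c (a (b (a (l 16641000) (l 16635752)) (a (l 16635632) (l 16630512))) (b (a (l 16630320) (l 16624712)) (a (l 16625224) (l 16619752)))) (a (b (a (l 16632832) (l 16627288)) (a (l 16627120) (l 16621680))) (b (a (l 16621600) (l 16615784)) (a (l 16616104) (l 16610400))))))), by decide +kernel⟩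

def k46_A00pm_012_s1 : ∃ t, chk3 f_A00pm_012_s1 t 10 4 1 = true :=
  ⟨(a (a (l 3) (l 2)) (l 2)), by decide +kernel⟩

def k47_A00pm_012_s1 : ∃ t, chk3 f_A00pm_012_s1 t 40 10 1 = true :=
  ⟨(l 3), by decide +kernel⟩

def k48_A00pm_012_s1 : ∃ t, chk3 f_A00pm_012_s1 t 41 20 1 = true :=
  ⟨(c (a (l 3) (b (l 2) (b (a (a (l 3) (l 2)) (l 2)) (b (a (a (l 3) (a (l 530423167) (a (l 531927679) (l 532176767)))) (a (a (a (a (l 532326783) (l 2)) (l 2)) (l 2)) (l 2))) (a (a (l 3) (a (l 530418303) (a (l 531652735) (l 531910271)))) (a (a (a (a (l 532074623) (l 532152959)) (l 532222079)) (a (l 532274047) (l 16773496))) (a (l 16772608) (l 16771424)))))))) (a (l 3) (b (l 2) (b (a (a (l 3) (l 2)) (l 2)) (b (a (a (l 3) (a (l 530230655) (a (l 531670143) (l 531876223)))) (a (a (a (a (l 531996031) (l 2)) (l 2)) (l 2)) (l 2))) (a (a (l 3) (a (l 530242431) (a (l 531412095) (l 531626111)))) (a (a (a (a (l 531758975) (l 531820671)) (l 531874431)) (b (l 16773688) (l 16773360))) (b (l 16771752) (l 16771400))))))))), by decide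 +kernel⟩

def k49_A00pm_012_s1 : ∃ t, chk3 f_A00pm_012_s1 t 41 21 2 = true :=
  ⟨(a (b (l 3) (b (a (l 3) (a (l 3) (a (l 3) (a (l 3) (l 528062591))))) (a (l 3) (a (l 3) (a (a (l 3) (b (l 3) (a (a (l 3) (a (l 3) (b (l 3) (l 527035775)))) (l 527157375)))) (a (l 527449215) (l 527766399))))))) (a (a (a (b (a (l 3) (l 529356927)) (a (b (l 528408959) (l 528090495)) (b (l 528763775) (l 528422015)))) (b (a (l 529761663) (l 530149247)) (a (b (l 528859263) (l 528761471)) (b (l 529501823) (l 529110143))))) (b (a (a (l 530442367) (l 530726783)) (a (a (l 530931839) (l 531064959)) (a (l 531194239) (l 531319167)))) (a (a (l 529643903) (l 529612415)) (a (c (l 529609343) (l 529543295)) (a (b (l 530496127) (l 530088575)) (b (l 530612863) (l 530196351))))))) (b (b (b (a (a (a (a (l 531819135) (l 531907711)) (l 531993471)) (a (l 532062591) (l 16772832))) (a (l 16771920) (l 16770704))) (a (a (a (a (l 531564927) (l 531660415)) (l 531759487)) (a (l 16772720) (l 16772096))) (a (l 16771160) (l 16769912)))) (b (a (a (a (a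 (l 531315327) (l 531414911)) (l 531523967)) (a (l 16771912) (l 16771280))) (a (l 16770328) (l 16769056))) (a (a (a (a (l 531073151) (l 531174527)) (l 531290239)) (a (l 16771024) (l 16770384))) (a (l 16769416) (l 16768120))))) (b (b (a (a (a (a (l 530839935) (l 530941567)) (l 531061119)) (a (l 16770056) (l 16769408))) (a (l 16768424) (l 16767104))) (a (a (a (a (l 530616959) (l 16770112)) (l 530838655)) (a (l 16769000) (l 16768344))) (a (l 16767352) (l 16766016)))) (b (a (a (a (b (l 16769424) (l 16768840)) (l 530624383)) (a (l 16767864) (l 16767208))) (a (l 16766200) (l 16764840))) (a (a (a (b (l 16768240) (l 16767616)) (l 530419327)) (l 16766320)) (a (l 16764968) (l 16763592)))))))), by decide +kernel⟩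

def k50_A00pm_012_s1 : ∃ t, chk3 f_A00pm_012_s1 t 41 21 3 = true :=
  ⟨(b (a (l 3) (a (a (a (a (l 3) (l 529265279)) (a (l 529708415) (l 530075775))) (a (a (l 530327679) (l 530301823)) (a (a (l 530743679) (l 530855295)) (a (l 530963071) (l 531066239))))) (b (b (a (a (a (a (l 531519359) (l 531590271)) (l 531658111)) (b (l 16773016) (l 16772656))) (b (l 16771032) (l 16770648))) (a (a (a (a (l 531281535) (l 531358591)) (l 531437695)) (a (l 531504511) (l 16771736))) (a (l 16773336) (l 16769352)))) (b (a (a (a (a (l 531048831) (l 531129471)) (l 531216767)) (a (l 531294591) (l 16770888))) (a (l 16772472) (l 16768456))) (a (a (a (a (l 530823039) (l 530905471)) (l 530998399)) (a (l 16770672) (l 16769968))) (b (l 16768440) (l 16767944))))))) (a (a (l 3) (a (l 3) (a (a (l 3) (b (l 3) (a (b (l 3) (a (l 3) (l 526822015))) (l 526991999)))) (b (a (l 3) (l 527892607)) (a (l 527247231) (l 527593343)))))) (a (a (a (a (b (l 528270719) (l 527947391)) (b (l 528658815) (l 528309887))) (a (b (l 529057151) (l 528681599))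 (b (l 529467007) (l 529063807)))) (a (a (l 529041279) (l 528972415)) (a (c (l 529472639) (l 529397631)) (a (b (l 530311295) (l 529931903)) (b (l 530407551) (l 530020223)))))) (b (b (a (a (a (a (l 530605951) (l 530688383)) (l 530784895)) (a (l 16769680) (l 16768968))) (b (l 16767432) (l 16766896))) (a (a (a (a (l 530398591) (l 530479999)) (l 530578047)) (a (l 16768608) (l 16767880))) (b (l 16766344) (l 16765768)))) (b (a (a (a (a (l 530201727) (l 530281087)) (l 530378879)) (a (l 16767456) (l 16766720))) (a (l 16765616) (l 16764120))) (a (a (a (b (l 16767968) (l 16767344)) (l 530188927)) (a (l 16766224) (l 16765480))) (a (l 16764360) (l 16762840)))))))), by decide +kernel⟩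

def k51_A00pm_012_s1 : ∃ t, chk3 f_A00pm_012_s1 t 40 22 1 = true :=
  ⟨(l 3), by decide +kernel⟩

def k52_A00pm_012_s1 : ∃ t, chk3 f_A00pm_012_s1 t 80 23 1 = true :=
  ⟨(l 3), by decide +kernel⟩

def k53_A00pm_012_s1 : ∃ t, chk3 f_A00pm_012_s1 t 162 23 1 = true :=
  ⟨(b (l 3) (b (l 3) (c (a (l 3) (a (b (l 3) (a (l 3) (l 530508047))) (b (a (l 3) (b (l 3) (l 530538879))) (l 530434831)))) (a (l 3) (a (b (l 3) (l 531451263)) (l 530901375)))))), by decide +kernel⟩

def k54_A00pm_012_s1 : ∃ t, chk3 f_A00pm_012_s1 t 163 46 1 = true :=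
  ⟨(b (a (l 3) (a (l 3) (c (c (l 530492287) (l 530492031)) (l 530893583)))) (b (a (l 3) (a (l 3) (c (l 530834559) (l 531103103)))) (a (l 3) (a (c (c (a (a (b (l 3) (a (l 3) (l 530754431))) (l 530701951)) (l 530653823)) (a (c (l 531219327) (l 531113855)) (l 530958463))) (a (a (a (l 3) (l 531024911)) (l 531285887)) (l 531269247))) (c (l 530966543) (l 531234431)))))), by decide +kernel⟩

def k55_A00pm_012_s1 : ∃ t, chk3 f_A00pm_012_s1 t 163 47 1 = true :=
  ⟨(a (b (b (a (l 3) (c (c (b (a (l 3) (b (l 3) (l 530805119))) (l 530823439)) (b (b (l 3) (l 531126911)) (l 531141759))) (b (b (l 3) (c (l 531306623) (l 531419263))) (l 531007503)))) (c (c (a (a (b (l 3) (l 530877055)) (l 530862463)) (l 530857343)) (a (l 531180159) (l 531171199))) (a (b (l 530989071) (l 531136895)) (l 531128959)))) (c (a (b (l 530388495) (l 531099263)) (l 530535807)) (a (l 531437695) (l 531437183)))) (b (a (c (b (c (b (b (a (a (b (a (l 530788223) (l 530789503)) (l 530793231)) (c (l 530697855) (l 530851199))) (l 530729599)) (a (a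 (l 530801935) (a (l 530797695) (l 530787967))) (l 530755711))) (a (a (l 530819199) (l 530411279)) (a (l 530796159) (l 530773631)))) (a (b (a (b (a (l 531111039) (l 531115135)) (l 531120511)) (b (l 531090559) (l 531111807))) (a (l 531135871) (l 531129471))) (b (b (l 531037823) (l 531065471)) (l 531095423)))) (a (a (l 530470271) (l 530734463)) (c (l 530293775) (l 531139199)))) (b (b (a (a (b (a (c (l 531032959) (b (l 531413375) (l 531414143))) (c (l 531167615) (b (l 531413119) (l 531413887)))) (c (l 531305087) (a (l 531418751) (l 531418495)))) (b (l 531088399) (a (l 530961423) (l 531361919)))) (b (l 531342975) (l 531085183))) (a (a (a (l 530973311) (l 530973311)) (a (l 531106943) (l 531105407))) (a (l 531102079) (l 531364735)))) (a (a (l 531128447) (l 531127679)) (c (l 531334783) (l 531173903))))) (b (c (b (c (a (l 530682239) (l 530620799)) (l 530942847)) (c (l 530706447) (l 531001727))) (b (a (l 531334015) (l 531313023)) (l 531078671))) (c (c (a (l 530792831) (l 530746751)) (l 531066127)) (a (l 531114623)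 (l 531371903))))) (c (a (a (l 530396543) (l 531054463)) (c (l 531133967) (l 531159823))) (a (a (l 531168383) (l 531434623)) (a (l 531429903) (l 531423871)))))), by decide +kernel⟩

def k56_A00pm_012_s1 : ∃ t, chk3 f_A00pm_012_s1 t 164 22 1 = true :=
  ⟨(b (l 3) (a (a (l 3) (b (l 3) (c (l 529715839) (l 530134911)))) (c (a (c (l 529282943) (l 529434751)) (c (l 529114495) (l 529234303))) (c (l 528139647) (l 529643135))))), by decide +kernel⟩

def k57_A00pm_012_s1 : ∃ t, chk3 f_A00pm_012_s1 t 330 22 1 = true :=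
  ⟨(a (b (b (l 3) (c (l 528601983) (l 528428159))) (c (b (l 528779647) (l 529190271)) (l 528641407))) (b (b (c (c (b (l 3) (l 527746687)) (l 527576447)) (l 527526271)) (c (c (l 528109183) (l 528108159)) (l 528119935))) (c (b (l 528577663) (l 529009791)) (l 527840383)))), by decide +kernel⟩

def k58_A00pm_012_s1 : ∃ t, chk3 f_A00pm_012_s1 t 331 22 1 = true :=
  ⟨(b (a (b (c (a (c (l 527438975) (l 527364479)) (b (b (a (b (b (a (l 3) (c (a (l 527080319) (l 527337231)) (l 526943103))) (l 527338255)) (l 527124495)) (b (c (b (l 527155471) (l 527163263)) (l 527314303)) (c (a (l 527159935) (l 527201919)) (l 527069311)))) (a (l 527233151) (a (l 527199359) (l 527218303)))) (a (l 527443071) (l 527402111)))) (a (l 527261055) (b (b (a (b (a (l 526855039) (b (l 526771215) (l 526831999))) (l 526918527)) (b (b (l 526875775) (l 526884735)) (a (l 526883967) (l 526927487)))) (a (l 527045247) (a (l 526996095) (l 527012223)))) (a (l 527290751) (l 527230335))))) (a (c (l 527933823) (l 527881855)) (c (c (l 527847295)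 (l 527795839)) (a (l 527760511) (l 527692927))))) (b (b (b (c (a (b (c (l 527366415) (l 527263103)) (c (l 527357567) (l 527252351))) (b (l 527619711) (l 527594367))) (a (b (l 527111807) (l 527099263)) (b (l 527445119) (l 527415935)))) (a (c (a (l 527278975) (l 527389311)) (a (l 527074687) (l 527192191))) (c (l 527584895) (l 527404159)))) (a (c (a (b (l 527374719) (l 527487615)) (l 527498367)) (b (l 527492479) (l 527342975))) (a (a (l 527477119) (l 527529343)) (l 527614847)))) (a (c (b (l 527951487) (l 527920255)) (b (l 527541119) (l 527818623))) (b (c (l 527801727) (l 527657087)) (c (l 527996287) (l 527884927)))))) (a (a (c (l 528648319) (l 528712575)) (b (c (l 528320383) (l 528308095)) (c (l 528780927) (l 528843647)))) (b (a (c (l 528274559) (l 528232319)) (c (l 528310911) (l 528252799))) (a (c (l 528728447) (l 528761215)) (c (l 528736383) (l 528749695)))))), by decide +kernel⟩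

def k59_A00pm_012_s1 : ∃ t, chk3 f_A00pm_012_s1 t 83 44 2 = true :=
  ⟨(a (a (b (a (b (a (b (l 527915647) (l 527871871)) (b (l 528233599) (l 528176255))) (a (l 527883135) (l 528152191))) (b (a (b (l 528559231) (l 528493183)) (l 528852863)) (a (l 528441471) (l 528746623)))) (a (a (b (l 527984255) (l 528135295)) (b (l 528206207) (l 528317055))) (a (b (l 528456063) (l 528530303)) (l 529277311)))) (a (b (a (b (l 529192831) (l 529065599)) (b (l 529479807) (l 16767456))) (a (b (l 16766736) (l 529027967)) (l 529307263))) (b (a (b (l 16767992) (l 16766808)) (b (l 16767320) (l 16766144))) (a (l 529617279) (l 529860735))))) (b (b (a (a (a (b (l 16766984) (l 16766376)) (l 530239615)) (l 16765056)) (a (l 16763696) (l 16762304))) (a (a (a (b (l 16765800) (l 16765248)) (l 530172543)) (l 16763896)) (a (l 16762544) (l 16761128)))) (b (a (a (a (l 16764424) (l 530168191)) (l 16762840)) (a (l 16761496) (l 16760112))) (a (a (a (l 16763344) (l 16760120)) (l 16761800)) (l 16759824))))), by decide +kernel⟩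

def k60_A00pm_012_s1 : ∃ t, chk3 f_A00pm_012_s1 t 83 44 3 = true :=
  ⟨(a (a (b (a (b (a (b (l 527769215) (l 527717247)) (b (l 528116863) (l 528050815))) (a (l 527729791) (l 528021887))) (b (a (b (l 528473215) (l 528398463)) (l 528796287)) (a (l 528337535) (l 528671359)))) (a (a (b (l 527848063) (l 528025215)) (b (l 528085375) (l 528215423))) (a (b (l 528354943) (l 528442751)) (a (l 528593279) (l 528736895))))) (a (b (a (b (l 529169535) (l 529021567)) (b (l 529408639) (l 16767448))) (a (l 528963455) (l 529282687))) (b (a (b (l 529310591) (l 16766720)) (b (l 530008335) (l 16765984))) (a (l 529622143) (b (l 16764944) (l 16763920)))))) (b (b (a (a (a (b (l 16766704) (l 16766104)) (l 530027391)) (a (l 16764960) (l 16764216))) (a (l 16763080) (l 16761544))) (a (a (a (b (l 16765552) (l 16765024)) (l 530000767)) (l 16766088)) (a (l 16761952) (l 16760392)))) (b (a (a (a (l 16764256) (l 530045567)) (l 16762488)) (l 16765464)) (a (a (a (l 16763248) (l 16759952)) (l 16761520)) (l 16759328))))), by decide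 +kernel⟩

def k61_A00pm_012_s1 : ∃ t, chk3 f_A00pm_012_s1 t 83 45 1 = true :=
  ⟨(c (a (b (a (a (a (b (l 528311679) (l 528500351)) (b (l 528460159) (l 528621951))) (a (l 528973695) (l 529167743))) (a (a (l 529385087) (b (l 529332095) (l 16762368))) (a (l 529613695) (l 530161023)))) (a (a (a (l 528790143) (l 528881023)) (a (l 529002111) (l 529149823))) (a (a (l 529320319) (l 530049151)) (b (l 16760496) (l 16759328))))) (b (b (a (a (a (l 16762280) (l 16761688)) (l 16760760)) (l 16758832)) (a (a (c (l 16760928) (l 16760952)) (l 16759736)) (l 16757840))) (a (a (a (l 16759488) (l 16759128)) (l 16758224)) (l 16756368)))) (a (a (a (b (a (b (l 528231807) (l 528452735)) (b (l 528383615) (l 528573567))) (a (l 528791935) (l 528877183))) (a (b (l 528917375) (l 528998271)) (b (l 528854143) (l 529149823)))) (a (b (a (l 529354879) (b (l 529046143) (l 16762360))) (a (l 529328511) (l 528726143))) (a (b (l 529622911) (l 529758079)) (b (l 529926015) (l 16759872))))) (b (b (a (a (a (l 16762264) (l 16761608)) (l 16760576))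 (l 16758432)) (a (a (a (l 16761304) (l 16760656)) (l 16759648)) (l 16757544))) (a (a (b (l 16760048) (l 16759016)) (l 16758288)) (l 16756240))))), by decide +kernel⟩

def k62_A00pm_012_s1 : ∃ t, chk3 f_A00pm_012_s1 t 41 46 1 = true :=
  ⟨(a (a (a (c (a (b (a (l 529970703) (l 529892879)) (l 529415807)) (b (l 528969487) (a (l 530382463) (l 530310783)))) (a (c (l 530739583) (l 531023231)) (c (l 530548607) (l 530803071)))) (c (b (a (l 529886591) (l 529728127)) (a (l 530203263) (l 530059903))) (b (l 530445951) (a (l 530643583) (l 530443647))))) (a (b (c (a (l 529568383) (l 529407103)) (l 528653071)) (c (a (l 529916287) (l 529772927)) (l 529061903))) (b (a (c (l 529246591) (l 529393535)) (c (a (l 529152383) (l 529145727)) (l 529771903))) (a (c (l 529631359) (l 529837951)) (c (l 529532175) (l 529687935)))))) (a (a (a (c (b (a (l 529176191) (l 529238143)) (b (l 529476111) (l 16761200))) (a (b (l 529242495) (l 529674623)) (b (l 529294975) (l 529705599)))) (a (c (b (l 529326719) (l 529655423)) (b (l 529379199)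 (l 529763711))) (b (b (l 16762704) (l 16761600)) (b (l 16760520) (l 16756848))))) (b (a (a (b (l 16762064) (l 16760968)) (c (l 529995647) (l 529787519))) (a (b (l 16755824) (l 16754736)) (c (l 16757440) (l 16757672)))) (a (a (b (l 16759896) (l 16756232)) (b (l 16756736) (l 16755696))) (c (b (l 16761184) (l 16754848)) (l 16755760))))) (b (c (a (a (b (l 16757616) (l 16756480)) (l 16756272)) (l 16754448)) (a (a (b (l 16757904) (l 16756824)) (l 16756552)) (l 16754560))) (a (a (c (c (l 16754696) (l 16754920)) (l 16757896)) (a (l 16757328) (l 16756952))) (a (l 16756016) (l 16752120)))))), by decide +kernel⟩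

def k63_A00pm_012_s1 : ∃ t, chk3 f_A00pm_012_s1 t 41 47 1 = true :=
  ⟨(a (a (a (b (b (a (c (c (l 529753983) (l 530828415)) (l 531665423)) (c (l 529753215) (l 531079039))) (a (c (l 530806655) (l 531351935)) (c (l 530150783) (l 531227263)))) (a (c (c (l 530256255) (l 531071871)) (l 531411471)) (c (l 530836095) (l 531389567)))) (b (b (c (a (l 530425215) (l 530292607)) (l 530796815)) (a (l 530801423) (l 530651407))) (c (a (l 530734719) (l 530092671)) (a (l 531245951) (l 16767872))))) (c (a (b (a (l 529430799) (l 529036415)) (a (l 16765024) (l 530415743))) (b (a (b (l 529900927) (l 16760176)) (b (l 16759272) (l 16758160))) (a (l 529505663) (l 530231055)))) (a (b (a (l 530609023) (l 529621887)) (l 530859791)) (b (a (l 529174143) (b (l 16759776) (l 16758784))) (a (l 16759368) (l 529703551)))))) (a (b (a (a (c (b (l 16757472) (l 16756384)) (b (l 16757928) (l 16756968))) (c (b (l 16755936) (l 16754872)) (b (l 16756384) (l 16755448)))) (a (c (b (l 16754704) (l 16753648)) (b (l 16755168) (l 16754240))) (b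 (c (l 16753784) (l 16754304)) (l 16747808)))) (a (a (c (c (l 16754600) (l 16754984)) (l 16750360)) (b (l 16748944) (l 16747992))) (a (b (l 16747744) (l 16746800)) (b (l 16746848) (l 16751152))))) (c (b (a (a (c (l 16752488) (l 16752816)) (l 16752120)) (l 16750704)) (a (a (l 16750560) (l 16750000)) (l 16748648))) (b (a (a (l 16753312) (l 16752872)) (l 16751312)) (a (a (l 16751496) (l 16751016)) (l 16749424)))))), by decide +kernel⟩

def k64_A00pm_012_s1 : ∃ t, chk3 f_A00pm_012_s1 t 21 10 1 = true :=
  ⟨(a (b (a (a (a (b (l 2) (b (l 2) (b (l 2) (l 16771960)))) (l 2)) (l 2)) (l 2)) (b (a (b (a (b (c (l 16772936) (l 16772136)) (c (l 16772056) (l 16771208))) (b (l 16762400) (l 16761336))) (b (a (c (l 16771120) (l 16770224)) (l 16760224)) (a (b (l 16769912) (l 16769376)) (l 16759040)))) (a (b (l 16757080) (l 16754520)) (b (l 2) (l 16749584)))) (b (b (a (a (c (l 16769024) (a (l 16764256) (l 16761360))) (l 16757800)) (l 16749840)) (a (a (c (l 16767872) (a (l 16763088) (l 16760128))) (l 16756488)) (l 16758792)))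 (a (a (b (c (l 16766640) (a (l 16761856) (l 16758824))) (c (l 16765336) (l 16764240))) (b (l 16755112) (l 16753664))) (b (l 16757192) (l 16755528)))))) (b (l 2) (b (a (b (l 2) (l 16742632)) (l 2)) (a (b (l 16738928) (l 16735104)) (b (l 16729616) (l 16725048)))))), by decide +kernel⟩

def k65_A00pm_012_s1 : ∃ t, chk3 f_A00pm_012_s1 t 21 11 1 = true :=
  ⟨(b (a (b (a (b (a (b (c (l 16763992) (l 16762880)) (a (l 16763752) (l 16755464))) (b (l 16752200) (l 16750888))) (b (a (a (l 16762776) (l 16754472)) (l 16749808)) (a (a (l 16756656) (l 16753600)) (l 16748944)))) (b (b (l 16753864) (l 16752352)) (c (l 16762208) (l 16749344)))) (a (b (b (a (l 16759544) (l 16748168)) (a (l 16758688) (l 16747464))) (a (c (l 16757656) (l 16757168)) (l 16756832))) (b (c (l 16739472) (l 16758344)) (a (l 16740312) (l 16734048))))) (b (b (a (l 16741760) (l 16720592)) (a (l 16728120) (l 16716832))) (a (b (l 16725960) (l 16724680)) (b (l 16714104) (l 16712280))))) (a (a (c (b (b (b (l 16758832) (l 16757960)) (l 16751408)) (b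 (l 16749624) (l 16742384))) (b (b (b (l 16758336) (l 16757616)) (l 16751312)) (b (l 16744592) (l 16742832)))) (b (b (l 16756992) (l 16755744)) (b (l 16754400) (l 16731776)))) (a (b (b (l 16723688) (l 16722944)) (b (l 16721920) (l 16720552))) (b (b (l 16711320) (l 16710624)) (b (l 16710096) (l 16709032)))))), by decide +kernel⟩

def k66_A00pm_012_s1 : ∃ t, chk3 f_A00pm_012_s1 t 11 2 1 = true :=
  ⟨(b (l 2) (b (a (a (b (l 2) (b (l 2) (b (l 2) (l 16753368)))) (l 2)) (l 2)) (a (b (b (a (b (a (l 16710640) (l 16701528)) (a (l 16706248) (l 16696400))) (b (l 2) (l 16683080))) (a (b (a (l 16702928) (l 16692456)) (a (l 16700536) (l 16689472))) (b (l 16678376) (l 16674224)))) (b (a (b (a (l 16699024) (l 16687400)) (a (l 16698352) (l 16686184))) (b (l 16671264) (l 16711144))) (a (b (a (l 16697856) (l 16685696)) (a (l 16697272) (l 16685128))) (b (l 16667904) (l 16709160))))) (b (a (b (l 2) (b (l 2) (l 16656496))) (l 2)) (a (a (b (l 16655128) (l 16692592)) (b (l 16646280) (l 16640392))) (b (b (l 2) (l 16631728))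 (b (l 16628272) (l 16624960)))))))), by decide +kernel⟩

def k67_A00pm_012_s1 : ∃ t, chk3 f_A00pm_012_s1 t 80 12 1 = true :=
  ⟨(b (b (b (l 3) (a (l 3) (a (l 3) (b (b (l 3) (c (a (l 3) (c (l 530704767) (l 531402623))) (l 531257359))) (c (a (a (l 3) (b (l 3) (l 530755087))) (l 530740239)) (l 531273487)))))) (b (a (l 3) (a (c (c (b (a (l 3) (c (l 531114111) (l 531254911))) (a (l 530957183) (l 531215999))) (l 531204223)) (l 531570815)) (c (c (a (a (l 530924415) (l 530786175)) (l 530914319)) (l 531202831)) (l 531439119)))) (a (a (l 3) (c (a (b (l 3) (l 530908287)) (b (l 530869375) (l 531434367))) (l 531606399))) (a (c (c (l 530730111) (l 531529599)) (l 531610239)) (a (l 530623615) (l 530624127)))))) (a (b (c (a (b (a (b (l 530958863) (l 531521663)) (l 530959487)) (l 531553663)) (b (l 530808959) (l 531532927))) (a (b (l 531638399) (l 531672959)) (l 531660671))) (a (l 530911503) (l 531721343))) (c (b (a (l 531487871) (l 531474559)) (l 531590015)) (a (l 531699327) (l 531704191))))), by decide +kernel⟩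

def k68_A00pm_012_s1 : ∃ t, chk3 f_A00pm_012_s1 t 81 12 1 = true :=
  ⟨(b (a (c (b (a (b (c (a (a (l 3) (b (l 3) (l 531052159))) (b (a (l 3) (l 531007103)) (l 531046527))) (a (l 531071103) (l 531330175))) (b (a (l 530699279) (l 531228799)) (l 530594063))) (b (a (b (l 530613775) (l 531186815)) (l 530624895)) (l 530966543))) (a (b (b (l 530760719) (l 531330943)) (l 531377023)) (b (l 531304063) (l 531369087)))) (b (a (a (l 531241343) (l 531510143)) (b (l 531219071) (l 531533951))) (a (l 531595791) (l 531598351)))) (c (a (b (c (l 530507903) (l 531338367)) (l 531330431)) (b (a (b (l 531144063) (l 531221375)) (l 531171343)) (a (l 531328127) (l 531316095)))) (a (b (l 531511423) (l 531600767)) (b (a (b (l 531487615) (l 531535743)) (l 531509375)) (l 531602703))))) (a (b (a (c (l 531465599) (l 531673983)) (l 531103359)) (a (l 531731327) (l 531733631))) (a (b (l 531641727) (l 531735679)) (b (l 531374607) (l 531737359))))), by decide +kernel⟩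

def k69_A00pm_012_s1 : ∃ t, chk3 f_A00pm_012_s1 t 80 13 1 = true :=
  ⟨(b (b (a (b (l 531781903) (l 531822095)) (a (l 531809407) (l 531813503))) (a (c (b (l 531793023) (l 16750200)) (b (l 16759456) (l 16749768))) (c (b (l 16748808) (l 16745048)) (b (l 16749160) (l 16744768))))) (b (a (c (b (l 16745704) (l 16730480)) (b (l 16744952) (l 16729344))) (c (b (l 16730208) (b (l 16737152) (l 16724256))) (b (l 16739904) (b (l 16736040) (l 16722928))))) (b (a (c (b (l 16737336) (l 16724384)) (b (l 16735896) (l 16722736))) (c (a (b (l 16733552) (l 16731072)) (b (l 16731032) (b (l 16729168) (l 16725296)))) (b (l 16720256) (a (l 16729312) (l 16726720))))) (b (b (c (a (l 16727760) (a (l 16729200) (a (l 16727288) (a (l 16726336) (a (l 16725840) (l 16725488)))))) (a (l 16731184) (a (l 16727264) (a (l 16725304) (l 16723968))))) (c (a (l 16726504) (a (l 16725312) (a (b (l 16726344) (c (l 16726072) (l 16725208))) (c (l 16724960) (l 16724088))))) (a (l 16729824) (a (l 16725888) (a (l 16723888) (l 16722384)))))) (c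 (a (a (b (l 16731752) (l 16730488)) (c (l 16723744) (l 16722872))) (a (a (a (b (l 16727624) (c (l 16726784) (l 16725856))) (b (l 16726984) (c (b (l 16726456) (l 16725760)) (l 16725168)))) (b (b (l 16726344) (c (a (l 16726448) (l 16725752)) (l 16725192))) (c (l 16724984) (l 16724032)))) (c (b (a (l 16724984) (l 16723440)) (l 16722664)) (b (l 16728512) (l 16721648))))) (a (a (l 16729072) (b (l 16727128) (l 16725744))) (a (a (b (l 16725152) (l 16726344)) (b (l 16726424) (l 16722208))) (b (l 16726720) (l 16719744))))))))), by decide +kernel⟩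

def k70_A00pm_012_s1 : ∃ t, chk3 f_A00pm_012_s1 t 81 13 1 = true :=
  ⟨(c (b (a (b (l 531688831) (b (l 16743576) (l 16729392))) (b (b (l 16745592) (l 16742064)) (b (l 16727976) (l 16724360)))) (b (a (a (b (l 16736952) (b (l 16733392) (l 16730968))) (b (l 16723952) (b (l 16730896) (c (l 16723432) (l 16717680))))) (a (b (l 16721448) (b (c (l 16723304) (l 16728152)) (a (b (l 16727168) (l 16725856)) (a (l 16725464) (l 16724728))))) (b (b (l 16730544) (c (l 16722928) (l 16728064))) (b (a (c (l 16723952) (l 16726176)) (l 16724960)) (l 16722832))))) (b (a (b (b (a (l 16729120) (a (l 16727224) (a (l 16726256) (l 16725560)))) (a (l 16722640) (a (c (l 16726232) (l 16725576)) (l 16724472)))) (a (a (b (l 16727264) (a (l 16726328) (l 16725648))) (b (a (l 16726312) (l 16725624)) (l 16724528))) (c (l 16723336) (l 16727792)))) (a (b (l 16722920) (l 16719864)) (l 16718296))) (a (a (a (b (b (l 16724544) (l 16723000)) (l 16720616)) (b (l 16722216) (l 16724280))) (b (l 16719864) (l 16727152))) (b (l 16725624) (l 16722376))))))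 (b (a (b (l 531811967) (b (l 16744088) (l 16739744))) (b (b (l 16746416) (l 16742832)) (b (l 16739000) (l 16734688)))) (b (a (b (l 16734888) (b (l 16720520) (c (l 16718256) (l 16727856)))) (b (b (l 16720640) (a (l 16729856) (l 16716824))) (b (a (l 16727216) (a (l 16725224) (l 16723744))) (a (b (l 16725112) (l 16723592)) (l 16721296))))) (b (a (b (a (l 16726880) (b (l 16724960) (l 16723440))) (a (b (l 16724800) (a (l 16724056) (l 16722552))) (l 16726224))) (a (c (l 16730504) (l 16718848)) (l 16716240))) (a (b (a (l 16726040) (l 16717552)) (l 16726160)) (a (l 16722984) (l 16709200))))))), by decide +kernel⟩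

def k71_A00pm_012_s1 : ∃ t, chk3 f_A00pm_012_s1 t 82 6 2 = true :=
  ⟨(b (b (a (a (b (b (a (l 531056255) (l 530987391)) (l 531671055)) (l 531276047)) (b (a (l 531519615) (l 530911615)) (l 531740175))) (a (b (b (l 530699535) (l 16756424)) (b (l 16753816) (l 16751136))) (b (b (a (l 16750888) (l 16749032)) (l 16755440)) (b (l 16750392) (l 16747880))))) (b (a (a (l 531441791) (l 531408767)) (a (b (l 16748368) (l 16745528)) (b (l 16745296) (l 16742632)))) (a (b (l 16741568) (l 16738368)) (a (b (l 16742600) (l 16739592)) (b (l 16739880) (l 16737048)))))) (b (a (a (b (l 531712271) (b (l 16734736) (l 16720728))) (b (b (l 16739040) (l 16735712)) (b (l 16721832) (b (l 16724456) (a (l 16728224) (l 16726816)))))) (a (b (b (l 16736496) (l 16733304)) (b (b (l 16730904) (a (l 16729752) (l 16728376))) (b (l 16726920) (l 16724568)))) (b (b (l 16734128) (b (l 16731880) (a (l 16730816) (l 16729448)))) (b (a (b (l 16728976) (l 16726920)) (l 16726496)) (l 16722744))))) (b (a (b (a (b (c (l 16722528) (l 16727832)) (a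 (l 16726192) (l 16724712))) (b (l 16725080) (l 16722440))) (a (l 16721248) (l 16718176))) (b (l 16719176) (l 16723992))) (b (a (a (l 16725664) (l 16712064)) (l 16707280)) (a (l 16717624) (l 16700648)))))), by decide +kernel⟩

def k72_A00pm_012_s1 : ∃ t, chk3 f_A00pm_012_s1 t 82 6 3 = true :=
  ⟨(b (b (a (a (b (a (b (l 531476351) (l 531531647)) (l 531765519)) (l 531604095)) (b (a (l 531487615) (l 531403135)) (l 531871503))) (a (b (b (l 16765464) (l 16757976)) (c (l 16756568) (l 16759912))) (b (b (l 16756368) (l 16754320)) (b (l 16752184) (l 16749976))))) (a (a (b (l 531689087) (l 16747656)) (b (l 16751408) (l 16745056))) (a (b (b (l 16750256) (l 16747240)) (l 16737216)) (b (b (l 16747568) (l 16744592)) (b (l 16741472) (l 16738200)))))) (b (b (b (a (l 16741264) (a (l 16737392) (l 16734776))) (a (l 16737704) (a (l 16733832) (l 16731168)))) (a (b (l 16733896) (a (l 16730864) (b (l 16729416) (l 16727008)))) (b (a (l 16729968) (l 16727072)) (a (l 16725272) (l 16722128))))) (b (a (b (a (b (l 16727248)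 (l 16729720)) (l 16722848)) (a (l 16730264) (l 16716592))) (b (l 16728552) (l 16711768))) (b (a (l 16732392) (l 16704848)) (a (l 16704216) (l 16697496)))))), by decide +kernel⟩

def k73_A00pm_012_s1 : ∃ t, chk3 f_A00pm_012_s1 t 166 12 1 = true :=
  ⟨(b (a (b (b (c (a (l 16747392) (l 16745984)) (l 16753016)) (a (l 16753736) (l 16749776))) (a (b (l 16748960) (l 16746736)) (b (l 16747688) (l 16745528)))) (a (b (b (c (l 16744824) (l 16751216)) (l 16748664)) (b (l 16746632) (l 16744512))) (b (b (l 16749744) (l 16747808)) (b (l 16745784) (l 16743696))))) (c (c (c (b (a (b (l 16741824) (l 16739208)) (b (l 16739816) (l 16737288))) (b (a (l 16736520) (l 16734744)) (a (l 16733744) (a (l 16732496) (l 16733984))))) (b (a (b (l 16742368) (l 16739832)) (b (l 16740392) (l 16737936))) (b (a (l 16737208) (l 16735352)) (a (l 16734504) (a (l 16732904) (l 16731552)))))) (b (a (b (l 16743232) (l 16740800)) (b (l 16741280) (l 16738672))) (b (a (l 16738288) (l 16735656)) (a (l 16735192) (a (l 16733168) (l 16731776))))))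 (c (b (a (l 16743232) (b (l 16741984) (l 16739064))) (a (l 16731832) (b (l 16735976) (l 16735304)))) (a (b (l 16743560) (l 16737256)) (b (l 16740856) (b (l 16736184) (l 16732784))))))), by decide +kernel⟩

def k74_A00pm_012_s1 : ∃ t, chk3 f_A00pm_012_s1 t 334 12 1 = true :=
  ⟨(a (b (b (b (l 16751744) (l 16747168)) (b (l 16745136) (l 16742528))) (b (b (l 16739768) (c (l 16736448) (l 16737168))) (b (c (b (l 16734216) (l 16732672)) (l 16733992)) (l 16730416)))) (a (b (b (b (l 16748704) (l 16746656)) (b (l 16744160) (l 16741528))) (b (b (l 16738760) (b (l 16736592) (l 16735088))) (b (l 16732696) (l 16729264)))) (a (a (b (b (b (l 16748520) (l 16746256)) (b (l 16743752) (l 16741120))) (b (b (l 16738344) (l 16735416)) (l 16730520))) (a (b (b (b (l 16748472) (l 16746136)) (b (l 16743632) (l 16740992))) (b (b (l 16738216) (l 16735280)) (l 16730376))) (a (b (b (b (l 16748440) (l 16746072)) (b (l 16743568) (l 16740928))) (b (b (l 16738152) (l 16735216)) (l 16730296))) (b (b (b (l 16748408) (l 16746032)) (b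 (l 16743528) (l 16740888))) (b (b (l 16738112) (l 16735176)) (l 16730248)))))) (b (b (b (l 16748232) (l 16745856)) (b (l 16743344) (l 16740704))) (b (b (b (l 16738632) (l 16737216)) (l 16734976)) (l 16730024)))))), by decide +kernel⟩

def k75_A00pm_012_s1 : ∃ t, chk3 f_A00pm_012_s1 t 335 12 1 = true :=
  ⟨(a (a (b (b (b (l 16747768) (l 16745368)) (a (b (l 16743016) (c (l 16739936) (l 16740760))) (a (b (l 16742776) (b (l 16740816) (l 16739480))) (a (b (a (l 16742680) (b (l 16743280) (l 16742016))) (l 16740064)) (b (l 16742592) (l 16740000)))))) (a (b (b (b (l 16738320) (l 16736888)) (l 16734608)) (l 16729600)) (b (b (l 16737288) (l 16723736)) (b (l 16720408) (a (l 16727448) (l 16727168)))))) (a (a (b (b (b (l 16747376) (l 16744968)) (b (l 16742472) (l 16739880))) (b (l 16735496) (b (l 16730568) (l 16726952)))) (a (b (b (b (l 16747256) (l 16744848)) (b (l 16742352) (l 16739752))) (b (l 16735368) (b (l 16730440) (l 16726816)))) (a (b (b (b (l 16747192) (l 16744792)) (b (l 16742288) (l 16739688))) (b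 (l 16735304) (b (l 16730376) (l 16726752)))) (b (b (b (l 16747160) (l 16744752)) (b (l 16742248) (l 16739648))) (b (l 16735264) (b (l 16730328) (l 16726712))))))) (b (b (b (l 16746976) (l 16744568)) (b (l 16742064) (l 16739456))) (b (l 16735072) (b (l 16730136) (l 16726512)))))) (b (b (b (l 16746184) (l 16743760)) (b (l 16741240) (l 16738624))) (b (l 16734224) (b (l 16729272) (l 16725648))))), by decide +kernel⟩

def k76_A00pm_012_s1 : ∃ t, chk3 f_A00pm_012_s1 t 166 13 1 = true :=
  ⟨(b (b (a (b (c (a (l 16732424) (c (l 16733520) (l 16731184))) (l 16732056)) (c (a (b (l 16729848) (l 16728008)) (l 16727488)) (l 16733504))) (b (a (b (l 16730752) (l 16728912)) (l 16728320)) (l 16725232))) (a (b (l 16724152) (l 16719352)) (l 16718600))) (b (a (l 16710936) (l 16728552)) (b (l 16699456) (l 16692336)))), by decide +kernel⟩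

def k77_A00pm_012_s1 : ∃ t, chk3 f_A00pm_012_s1 t 167 26 1 = true :=
  ⟨(b (a (b (l 16725912) (l 16700968)) (b (a (a (a (l 16724008) (a (l 16723608) (b (l 16724296) (l 16722304)))) (l 16722808)) (l 16721760)) (b (a (a (a (l 16720984) (a (l 16720560) (l 16720232))) (l 16719728)) (l 16718672)) (a (a (a (l 16718880) (a (l 16718440) (b (l 16718640) (l 16717552)))) (l 16717584)) (l 16716528))))) (a (a (l 16695120) (b (l 16716720) (l 16711720))) (a (a (b (a (l 16715496) (a (l 16715032) (b (c (l 16716264) (l 16715400)) (a (a (l 16713576) (l 16713440)) (l 16713336))))) (a (l 16710448) (a (l 16709960) (b (c (b (l 16712120) (l 16710856)) (l 16710280)) (a (a (l 16708320) (l 16708176)) (l 16708072)))))) (a (a (b (b (l 16715608) (l 16713208)) (b (l 16710648) (l 16707936))) (a (b (b (l 16715472) (l 16713072)) (b (l 16710520) (l 16707808))) (a (b (b (l 16715408) (l 16713008)) (b (l 16710448) (l 16707736))) (b (b (l 16715360) (l 16712960)) (b (l 16710408) (l 16707696)))))) (b (b (l 16715168) (l 16712768)) (b (l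 16710208) (l 16707496))))) (b (b (l 16714288) (l 16711888)) (b (l 16709328) (l 16706616)))))), by decide +kernel⟩

def k78_A00pm_012_s1 : ∃ t, chk3 f_A00pm_012_s1 t 167 27 1 = true :=
  ⟨(b (a (a (l 16704960) (b (l 16706096) (l 16699880))) (a (a (b (a (l 16704776) (b (a (l 16705744) (a (a (l 16705464) (l 16705320)) (l 16705208))) (a (l 16702752) (c (l 16703264) (l 16701352))))) (a (l 16698520) (a (l 16697984) (a (a (b (l 16699312) (l 16696024)) (b (l 16699160) (l 16695864))) (b (l 16699040) (l 16695752)))))) (a (a (b (b (l 16705072) (l 16702064)) (b (l 16698912) (l 16695616))) (a (b (b (l 16704944) (l 16701936)) (b (l 16698776) (l 16695480))) (a (b (b (l 16704880) (l 16701864)) (b (l 16698712) (l 16695416))) (b (b (l 16704832) (l 16701824)) (b (l 16698664) (l 16695368)))))) (b (b (l 16704632) (l 16701624)) (b (l 16698464) (l 16695168))))) (b (b (l 16703752) (l 16700736)) (b (l 16697584) (l 16694288))))) (a (b (l 16683544) (a (l 16687848) (l 16685808))) (a (a (b (a (l 16691704) (a (l 16691152) (c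 (b (l 16693832) (l 16690440)) (b (l 16691040) (l 16687312))))) (b (a (l 16686248) (a (l 16685680) (l 16685232))) (a (l 16682480) (a (l 16681904) (l 16686688))))) (a (a (b (b (l 16692184) (l 16688624)) (b (l 16684928) (l 16681136))) (a (b (b (l 16692048) (l 16688488)) (b (l 16684792) (l 16681000))) (a (b (b (l 16691984) (l 16688424)) (b (l 16684728) (l 16680928))) (b (l 16695408) (b (l 16684680) (l 16680888)))))) (b (b (l 16691736) (l 16688176)) (b (l 16684480) (l 16680688))))) (b (b (l 16690848) (l 16687288)) (b (l 16683592) (l 16679792)))))), by decide +kernel⟩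

def k79_A00pm_012_s1 : ∃ t, chk3 f_A00pm_012_s1 t 21 6 1 = true :=
  ⟨(b (b (b (b (a (a (a (l 16742976) (l 16737736)) (l 16729728)) (l 16734120)) (a (a (a (l 16740512) (l 16735280)) (l 16727304)) (l 16732032))) (a (b (a (c (l 16740248) (l 16735560)) (l 16745640)) (a (l 16732592) (l 16721824))) (b (l 16729512) (l 16747720)))) (b (a (b (l 16734728) (a (l 16747464) (l 16715568))) (b (l 16744712) (l 16741296))) (b (a (a (l 16733560) (l 16712096)) (l 16716792)) (a (a (b (l 16720352) (l 16718456)) (l 16708384)) (l 16713024))))) (b (b (a (a (b (c (l 16726256) (l 16725648)) (b (a (l 16715176) (l 16709600)) (a (l 16713024) (l 16707440)))) (b (l 16725392) (b (l 16701288) (l 16699120)))) (b (a (l 16693464) (l 16682640)) (c (l 16705488) (l 16704048)))) (a (a (a (b (b (l 16710776) (l 16718856)) (b (l 16711048) (l 16713576))) (b (b (l 16705184) (l 16702768)) (c (l 16699600) (l 16698040)))) (b (c (l 16696320) (l 16694952)) (c (l 16691336) (l 16689600)))) (b (c (l 16701024) (l 16699312)) (a (l 16679464) (l 16668568)))))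 (b (a (a (b (a (b (l 16700216) (l 16697200)) (b (l 16694592) (l 16691576))) (a (b (l 16694040) (l 16690744)) (l 16686768))) (b (a (l 16687504) (l 16681944)) (l 16699352))) (b (a (l 16673672) (l 16662760)) (a (l 16667312) (l 16656384)))) (a (a (b (a (c (l 16687032) (l 16683952)) (l 16679888)) (b (l 16677224) (a (l 16676232) (l 16670576)))) (b (l 16692464) (l 16685064))) (b (a (l 16660408) (l 16649472)) (a (l 16653000) (l 16642056))))))), by decide +kernel⟩

def k80_A00pm_012_s1 : ∃ t, chk3 f_A00pm_012_s1 t 11 6 1 = true :=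
  ⟨(b (a (b (a (a (b (l 16695216) (l 16690984)) (b (l 16683680) (l 16679968))) (b (a (l 16713552) (l 16659952)) (b (l 16664064) (l 16662176)))) (b (a (c (l 16722272) (l 16721216)) (b (l 16659824) (l 16656976))) (a (b (l 16716560) (l 16670696)) (b (l 16653600) (l 16649880))))) (b (b (a (a (l 16648272) (l 16636784)) (c (l 16624880) (l 16617232))) (a (b (l 16640728) (l 16639144)) (b (l 16618000) (l 16616504)))) (b (a (b (l 16637672) (l 16635344)) (b (l 16614880) (l 16612872))) (a (l 16651872) (l 16651472))))) (b (b (a (a (b (l 16666640) (l 16704304)) (b (l 16645872) (l 16641456))) (a (b (l 16625328) (l 16621120)) (c (l 16604768) (l 16601256)))) (a (a (b (l 16699664) (l 16694432)) (b (l 16636784) (l 16631528))) (a (b (l 16616504) (l 16611120)) (c (l 16595920) (l 16592120))))) (b (a (a (a (l 16690792) (l 16638208)) (b (l 16625672) (l 16619256))) (a (l 16644032) (l 16624360))) (a (a (b (l 16633344) (l 16625912)) (b (l 16612312) (l 16604872))) (b (l 16623824) (l 16658312)))))), by decide +kernel⟩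

def k81_A00pm_012_s1 : ∃ t, chk3 f_A00pm_012_s1 t 80 56 1 = true :=
  ⟨(b (a (b (b (c (a (l 16726584) (a (l 16724672) (a (c (l 16726784) (l 16725832)) (c (b (l 16726464) (l 16725744)) (l 16725136))))) (a (l 16727016) (a (l 16725024) (b (l 16724048) (l 16723288))))) (b (c (a (l 16725616) (a (c (l 16726768) (l 16725808)) (c (l 16725336) (l 16724344)))) (a (l 16725992) (a (l 16723992) (l 16722472)))) (a (c (a (l 16728224) (l 16724328)) (l 16725304)) (a (c (c (a (l 16726432) (l 16725704)) (l 16725080)) (l 16723224)) (c (l 16724056) (l 16721608)))))) (c (a (a (b (c (l 16727704) (l 16726744)) (c (a (c (l 16724264) (l 16723824)) (b (l 16726360) (l 16725560))) (b (l 16725720) (l 16724944)))) (b (c (b (a (l 16727072) (l 16726416)) (a (l 16726392) (l 16725648))) (b (l 16725768) (l 16725016))) (c (l 16724800) (l 16723784)))) (c (b (c (l 16724320) (l 16729096)) (l 16727680)) (b (l 16728296) (l 16721360)))) (b (a (a (l 16724952) (b (l 16723944) (l 16723168))) (l 16726368)) (a (a (b (l 16723896) (l 16723104))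 (l 16721896)) (l 16719384))))) (c (b (a (a (b (c (l 16724976) (l 16723984)) (l 16722880)) (c (l 16722616) (l 16721560))) (c (l 16725512) (l 16719152))) (c (a (l 16725368) (l 16716960)) (l 16722608))) (a (b (b (l 16726536) (l 16719552)) (l 16716912)) (c (l 16726576) (l 16725008))))) (a (c (b (a (c (b (l 16723904) (l 16727440)) (l 16727256)) (c (l 16725136) (l 16718768))) (a (c (l 16724816) (l 16718504)) (l 16721080))) (a (b (l 16725344) (l 16727048)) (b (l 16716736) (l 16713168)))) (b (c (a (l 16721384) (l 16712912)) (l 16722152)) (c (l 16716216) (l 16708064))))), by decide +kernel⟩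

def k82_A00pm_012_s1 : ∃ t, chk3 f_A00pm_012_s1 t 81 56 1 = true :=
  ⟨(b (c (b (a (a (l 16721800) (l 16713360)) (l 16708536)) (a (l 16722040) (l 16705080))) (a (c (l 16721608) (l 16719936)) (l 16724560))) (a (c (c (l 16717432) (l 16716016)) (l 16713536)) (c (l 16710192) (l 16696200)))), by decide +kernel⟩

def k83_A00pm_012_s1 : ∃ t, chk3 f_A00pm_012_s1 t 40 57 1 = true :=
  ⟨(b (b (a (a (c (c (l 16719624) (l 16723752)) (l 16721768)) (c (l 16717816) (l 16704432))) (a (l 16709720) (l 16692456))) (a (a (c (a (l 16711776) (l 16708512)) (l 16718152)) (c (l 16703600) (l 16700768))) (a (l 16705976) (l 16688664)))) (a (a (c (b (l 16711608) (l 16707752)) (b (l 16704016) (l 16700344))) (c (b (l 16699784) (l 16695904)) (b (l 16697080) (l 16693360)))) (c (a (b (l 16693152) (l 16689232)) (l 16684472)) (a (l 16688216) (l 16681152))))), by decide +kernel⟩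

def k84_A00pm_012_s1 : ∃ t, chk3 f_A00pm_012_s1 t 40 29 1 = true :=
  ⟨(b (b (a (c (b (a (c (l 16699016) (l 16698136)) (l 16691952)) (a (c (l 16694992) (l 16694208)) (c (l 16688416) (l 16687456)))) (a (b (l 16707128) (l 16692896)) (b (l 16689624) (l 16685864)))) (c (a (b (l 16685256) (l 16681224)) (l 16676456)) (a (l 16680664) (l 16673528)))) (a (c (b (a (c (l 16690928) (l 16690248)) (c (l 16684320) (l 16683464))) (a (c (l 16686968) (l 16686352)) (c (l 16680312) (l 16679552)))) (a (b (l 16689112) (l 16685344)) (b (l 16682072) (l 16678312)))) (c (a (b (l 16677152) (l 16683648)) (b (l 16670328) (l 16666304))) (a (c (l 16673616) (l 16672528)) (l 16665888))))) (a (c (a (b (b (c (l 16683176) (l 16682592)) (c (l 16679544) (l 16678944))) (b (c (l 16676056) (l 16675400)) (c (l 16672688) (l 16671944)))) (b (b (c (l 16676496) (l 16675768)) (c (l 16672832) (l 16672104))) (b (c (l 16669320) (l 16668552)) (c (l 16665928) (l 16665096))))) (b (a (b (l 16681640) (l 16677984)) (c (l 16673168) (l 16672384))) (a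 (c (l 16683416) (l 16672176)) (c (l 16665984) (l 16665128))))) (c (c (b (a (b (l 16669752) (l 16666064)) (b (l 16662952) (l 16659224))) (a (b (l 16662520) (l 16659112)) (b (l 16655648) (l 16652216)))) (b (a (l 16667024) (l 16660056)) (a (l 16659888) (l 16652880)))) (b (a (c (l 16666128) (l 16665208)) (l 16658456)) (a (c (l 16658952) (l 16657992)) (l 16651288)))))), by decide +kernel⟩

def k85_A00pm_012_s1 : ∃ t, chk3 f_A00pm_012_s1 t 41 14 1 = true :=
  ⟨(b (a (b (a (b (a (l 16721296) (l 16696984)) (l 16701760)) (b (l 16712856) (l 16684376))) (b (a (l 16704648) (l 16676664)) (a (c (l 16677656) (l 16674024)) (l 16668792)))) (b (b (a (l 16684864) (a (l 16700128) (a (a (a (l 16676712) (a (l 16676112) (c (l 16677712) (l 16673456)))) (a (l 16685720) (l 16674872))) (l 16684448)))) (a (l 16677208) (a (l 16671368) (a (a (a (l 16668856) (a (l 16668240) (l 16667752))) (l 16667152)) (l 16666040))))) (b (a (l 16669368) (a (l 16663408) (a (c (l 16662224) (l 16678544)) (l 16657952)))) (a (l 16661376) (a (l 16655312)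 (b (l 16653080) (l 16648968))))))) (a (b (c (b (a (l 16669568) (l 16662528)) (a (l 16661376) (l 16654272))) (b (l 16678312) (a (l 16658592) (l 16651152)))) (c (b (a (c (l 16654152) (l 16652976)) (l 16656896)) (a (c (l 16646928) (l 16645760)) (c (l 16639800) (l 16638480)))) (b (a (l 16651144) (l 16643648)) (a (l 16643968) (l 16636456))))) (c (b (a (b (l 16655168) (l 16646832)) (a (l 16644832) (b (l 16644832) (l 16636360)))) (b (a (l 16638912) (a (l 16632736) (l 16628336))) (a (l 16631576) (a (l 16625360) (l 16620920))))) (b (a (l 16626304) (a (l 16640984) (b (l 16640624) (l 16632592)))) (a (b (l 16635824) (l 16628616)) (a (l 16625752) (l 16621208))))))), by decide +kernel⟩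

def k86_A00pm_012_s1 : ∃ t, chk3 f_A00pm_012_s1 t 21 14 1 = true :=
  ⟨(b (a (b (b (a (c (l 16669696) (l 16686184)) (l 16656200)) (a (b (l 16661464) (l 16657400)) (l 16647992))) (b (a (l 16651232) (l 16639552)) (a (l 16642920) (l 16631024)))) (b (b (l 16681592) (l 16673240)) (b (l 16622728) (l 16613952)))) (b (a (b (l 16628464) (l 16620000)) (b (l 16605000) (l 16596176))) (a (b (l 16611960) (l 16604456)) (b (l 16587800) (l 16579992))))), by decide +kernel⟩

def k87_A00pm_012_s1 : ∃ t, chk3 f_A00pm_012_s1 t 40 30 1 = true :=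
  ⟨(b (a (c (b (b (a (c (l 16669432) (l 16668568)) (c (l 16662656) (l 16661712))) (a (c (l 16666256) (l 16665240)) (l 16664184))) (a (b (l 16667808) (l 16659408)) (b (l 16666240) (l 16652600)))) (b (a (b (l 16667200) (l 16663624)) (c (l 16658984) (l 16657888))) (a (b (l 16660040) (l 16656440)) (b (l 16653112) (l 16649536))))) (c (b (a (b (l 16665792) (l 16652048)) (b (l 16648336) (l 16645064))) (a (b (l 16648856) (l 16645712)) (c (l 16646264) (l 16639528)))) (b (a (c (l 16651968) (l 16650792)) (l 16644224)) (a (c (l 16645072) (l 16643536)) (l 16637192))))) (a (c (b (a (b (l 16656272) (l 16653120)) (b (l 16649480) (l 16646336))) (a (b (l 16649880) (l 16646544)) (b (l 16643112) (l 16639808)))) (b (b (a (l 16652808) (l 16645936)) (a (l 16649104) (l 16642264))) (b (a (l 16645304) (l 16638504)) (a (l 16641392) (l 16634632))))) (c (b (a (b (l 16642592) (l 16639456)) (c (l 16645464) (l 16633080))) (a (b (l 16636256) (l 16632976)) (b (l 16629296) (l 16626024)))) (b (a (b (l 16638968) (l 16635328)) (l 16630080))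 (a (l 16640176) (l 16622696)))))), by decide +kernel⟩

def k88_A00pm_012_s1 : ∃ t, chk3 f_A00pm_012_s1 t 40 31 1 = true :=
  ⟨(b (a (b (a (b (c (l 16643120) (l 16637368)) (c (l 16639584) (l 16633216))) (c (b (l 16636408) (l 16632904)) (b (l 16630648) (l 16626552)))) (c (a (b (l 16635880) (l 16631984)) (b (l 16629304) (l 16625520))) (b (a (l 16628912) (l 16622336)) (a (l 16624440) (l 16617952))))) (a (b (c (b (l 16629600) (l 16626128)) (b (l 16623832) (l 16619776))) (b (c (l 16622560) (l 16615608)) (c (l 16618888) (l 16611320)))) (b (c (b (l 16622672) (l 16619232)) (l 16614896)) (c (b (l 16615696) (l 16612064)) (b (l 16608768) (l 16604528)))))) (a (b (c (a (b (l 16627856) (l 16623496)) (b (l 16621560) (l 16617352))) (b (a (l 16619760) (l 16613400)) (a (l 16614888) (l 16608648)))) (c (a (b (l 16618912) (l 16614104)) (b (l 16612920) (l 16608256))) (b (a (l 16609816) (l 16603696)) (a (l 16604544) (l 16598544))))) (b (c (a (b (l 16615032) (l 16611000)) (b (l 16608320) (l 16604400))) (b (a (l 16606864)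 (l 16600168)) (a (l 16602240) (l 16595640)))) (c (a (b (l 16606720) (l 16602216)) (b (l 16600296) (l 16595952))) (b (a (l 16597408) (l 16590952)) (a (l 16592384) (l 16586048))))))), by decide +kernel⟩

def k89_A00pm_012_s1 : ∃ t, chk3 f_A00pm_012_s1 t 41 30 1 = true :=
  ⟨(a (b (c (b (a (c (l 16640240) (l 16638936)) (c (l 16633040) (l 16631624))) (a (c (l 16633952) (l 16632384)) (c (l 16626712) (l 16625048)))) (b (a (l 16636936) (l 16629456)) (a (l 16629936) (l 16622496)))) (c (b (a (c (l 16627896) (l 16625944)) (c (l 16620640) (l 16618616))) (a (c (l 16621760) (l 16619360)) (l 16623776))) (b (a (l 16622880) (l 16615480)) (a (l 16615552) (l 16608216))))) (c (a (b (b (l 16624728) (l 16639216)) (b (a (l 16614000) (l 16610048)) (l 16605640))) (b (a (a (l 16626872) (l 16614056)) (b (l 16613992) (l 16607432))) (b (a (l 16605656) (l 16601136)) (a (l 16599328) (l 16594800))))) (a (b (b (l 16621616) (l 16614680)) (b (l 16607712) (l 16600512))) (b (a (l 16611688) (l 16607080)) (a (a (l 16599008) (l 16596664))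 (b (l 16596768) (l 16589640))))))), by decide +kernel⟩

def k90_A00pm_012_s1 : ∃ t, chk3 f_A00pm_012_s1 t 41 31 1 = true :=
  ⟨(a (b (b (c (a (b (l 16615616) (l 16612200)) (c (l 16608104) (l 16605192))) (a (l 16607832) (l 16600576))) (c (a (b (l 16608696) (l 16605096)) (b (l 16601488) (l 16597928))) (a (l 16599688) (l 16592528)))) (c (b (a (b (l 16601392) (l 16597584)) (b (l 16594264) (l 16590504))) (a (b (l 16593600) (l 16589432)) (b (l 16586632) (l 16582592)))) (b (a (b (l 16593280) (l 16588856)) (l 16594512)) (a (b (l 16584264) (l 16579504)) (b (l 16577352) (l 16572696)))))) (a (b (b (c (a (l 16601056) (l 16597120)) (l 16592952)) (c (a (l 16594144) (l 16590240)) (l 16584992))) (b (c (a (l 16586880) (l 16583016)) (l 16597584)) (b (c (l 16579232) (l 16570032)) (c (l 16575312) (l 16565496))))) (c (b (b (a (l 16592752) (l 16588232)) (a (l 16585904) (l 16581400))) (b (a (l 16578728) (a (l 16575064) (l 16572928))) (a (a (l 16572400) (l 16570144)) (b (l 16568696) (l 16564856))))) (c (b (a (l 16584440)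 (l 16590424)) (a (a (l 16574880) (l 16567400)) (b (l 16568208) (l 16559864)))) (b (a (l 16581040) (l 16576576)) (a (a (l 16565032) (l 16562816)) (b (l 16563984) (l 16555008)))))))), by decide +kernel⟩

def k91_A00pm_012_s1 : ∃ t, chk3 f_A00pm_012_s1 t 21 15 1 = true :=
  ⟨(b (b (a (b (c (l 16599448) (l 16595272)) (c (l 16592784) (l 16588312))) (b (l 16572640) (l 16565624))) (a (b (c (l 16586400) (l 16581368)) (c (l 16579944) (l 16574336))) (b (c (l 16561960) (l 16555624)) (c (l 16555360) (l 16548520))))) (a (c (b (b (l 16573328) (l 16566488)) (b (l 16559384) (a (l 16558288) (l 16545656)))) (b (b (l 16566936) (l 16559192)) (b (l 16551088) (l 16542576)))) (b (c (b (l 16548608) (l 16541624)) (b (l 16541136) (l 16533552))) (b (c (l 16534480) (l 16525584)) (a (l 16549416) (c (l 16520984) (l 16511000))))))), by decide +kernel⟩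

def k92_A00pm_012_s1 : ∃ t, chk3 f_A00pm_012_s1 t 11 7 1 = true :=
  ⟨(b (b (a (a (b (b (l 16618032) (l 16609752)) (b (l 16601120) (l 16592112))) (b (l 16676768) (l 16575648))) (b (c (l 16649832) (l 16642792)) (a (l 16555200) (l 16535320)))) (a (b (a (l 16620296) (l 16599096)) (a (b (l 16565008) (l 16556864)) (b (l 16543656) (l 16535192)))) (a (b (l 16536904) (b (l 16523320) (l 16514672))) (b (l 16517072) (l 16499224))))) (b (a (b (a (b (l 16549200) (l 16541904)) (b (l 16527120) (l 16519504))) (a (b (l 16534864) (l 16527824)) (b (l 16512176) (l 16504888)))) (b (b (a (l 16506464) (l 16486808)) (a (l 16498560) (l 16478736))) (b (a (l 16490840) (l 16470912)) (a (l 16483256) (l 16463056))))) (a (a (b (b (c (l 16524984) (l 16516200)) (c (l 16528360) (l 16508568))) (b (c (a (l 16516432) (l 16504784)) (l 16500648)) (a (c (l 16508992) (l 16498616)) (c (l 16497264) (l 16486400))))) (b (b (l 16497488) (c (l 16495288) (l 16484504))) (b (a (c (l 16493408) (l 16482488)) (l 16476568)) (a (c (l 16485832) (l 16474328))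 (c (l 16474680) (l 16462488)))))) (b (a (b (l 16475592) (c (l 16473808) (l 16461720))) (b (l 16455040) (l 16467984))) (a (b (c (l 16466240) (l 16453520)) (c (l 16479480) (l 16445200))) (b (c (l 16445768) (l 16431856)) (l 6))))))), by decide +kernel⟩

def k93_A00pm_012_s1 : ∃ t, chk3 f_A00pm_012_s1 t 3 1 1 = true :=
  ⟨(b (a (b (l 2) (b (l 2) (a (b (l 2) (a (b (l 2) (a (b (l 2) (l 16608160)) (l 2))) (l 2))) (l 2)))) (l 2)) (b (a (b (a (b (a (b (a (b (l 16604480) (l 16600824)) (l 16586608)) (a (l 16638328) (l 16620688))) (b (l 2) (a (l 16562960) (l 2)))) (a (b (a (b (l 16592760) (l 16590848)) (l 16613488)) (a (c (l 16590288) (l 16584760)) (b (l 16567296) (l 16564840)))) (b (a (l 16596384) (l 16539160)) (a (b (l 16548296) (l 16544776)) (c (l 16535488) (l 16524432)))))) (b (l 2) (a (b (l 2) (a (l 16557144) (l 2))) (l 2)))) (a (b (a (b (a (l 16624096) (c (l 16564016) (l 16557576))) (a (l 16616104) (l 16595896))) (c (b (a (l 16544448) (l 16526344)) (a (l 16537048) (l 16518200))) (b (a (l 16536104) (l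 16516032)) (a (l 16529504) (l 16508736))))) (a (b (a (l 16604864) (l 16543680)) (a (l 16633056) (l 16530240))) (b (a (l 16524096) (c (l 16508640) (l 16499592))) (a (l 16511600) (l 16492672))))) (a (a (b (b (c (l 16511264) (l 16499352)) (l 16537032)) (b (c (l 16490544) (l 16479552)) (l 6))) (l 6)) (l 6)))) (l 6)) (a (a (b (b (a (b (a (l 16533200) (l 16514664)) (l 16590528)) (b (a (l 16496344) (l 16478328)) (a (l 16479384) (l 6)))) (a (b (l 16572352) (b (l 16475016) (l 16466560))) (b (b (l 16457216) (l 16447776)) (l 6)))) (b (a (a (b (l 16463720) (b (l 16451976) (l 16443976))) (b (l 16445240) (l 6))) (l 6)) (l 6))) (b (l 6) (l 6))) (l 6)))), by decide +kernel⟩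

theorem t94_A00pm_012_s1 : ∃ t, chk3 f_A00pm_012_s1 t 41 15 1 = true := ex3_b k89_A00pm_012_s1 k90_A00pm_012_s1

theorem t95_A00pm_012_s1 : ∃ t, chk3 f_A00pm_012_s1 t 40 15 1 = true := ex3_b k87_A00pm_012_s1 k88_A00pm_012_s1

theorem t96_A00pm_012_s1 : ∃ t, chk3 f_A00pm_012_s1 t 20 15 1 = true := ex3_a t95_A00pm_012_s1 t94_A00pm_012_s1

theorem t97_A00pm_012_s1 : ∃ t, chk3 f_A00pm_012_s1 t 10 15 1 = true := ex3_a t96_A00pm_012_s1 k91_A00pm_012_s1

theorem t98_A00pm_012_s1 : ∃ t, chk3 f_A00pm_012_s1 t 40 56 1 = true := ex3_a k81_A00pm_012_s1 k82_A00pm_012_s1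

theorem t99_A00pm_012_s1 : ∃ t, chk3 f_A00pm_012_s1 t 40 28 1 = true := ex3_b t98_A00pm_012_s1 k83_A00pm_012_s1

theorem t100_A00pm_012_s1 : ∃ t, chk3 f_A00pm_012_s1 t 40 14 1 = true := ex3_b t99_A00pm_012_s1 k84_A00pm_012_s1

theorem t101_A00pm_012_s1 : ∃ t, chk3 f_A00pm_012_s1 t 20 14 1 = true := ex3_a t100_A00pm_012_s1 k85_A00pm_012_s1

theorem t102_A00pm_012_s1 : ∃ t, chk3 f_A00pm_012_s1 t 10 14 1 = true := ex3_a t101_A00pm_012_s1 k86_A00pm_012_s1

theorem t103_A00pm_012_s1 : ∃ t, chk3 f_A00pm_012_s1 t 10 7 1 = true := ex3_b t102_A00pm_012_s1 t97_A00pm_012_s1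

theorem t104_A00pm_012_s1 : ∃ t, chk3 f_A00pm_012_s1 t 5 7 1 = true := ex3_a t103_A00pm_012_s1 k92_A00pm_012_s1

theorem t105_A00pm_012_s1 : ∃ t, chk3 f_A00pm_012_s1 t 167 13 1 = true := ex3_b k77_A00pm_012_s1 k78_A00pm_012_s1

theorem t106_A00pm_012_s1 : ∃ t, chk3 f_A00pm_012_s1 t 83 13 1 = true := ex3_a k76_A00pm_012_s1 t105_A00pm_012_s1

theorem t107_A00pm_012_s1 : ∃ t, chk3 f_A00pm_012_s1 t 167 12 1 = true := ex3_a k74_A00pm_012_s1 k75_A00pm_012_s1

theorem t108_A00pm_012_s1 : ∃ t, chk3 f_A00pm_012_s1 t 83 12 1 = true := ex3_a k73_A00pm_012_s1 t107_A00pm_012_s1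

theorem t109_A00pm_012_s1 : ∃ t, chk3 f_A00pm_012_s1 t 83 6 1 = true := ex3_b t108_A00pm_012_s1 t106_A00pm_012_s1

theorem t110_A00pm_012_s1 : ∃ t, chk3 f_A00pm_012_s1 t 82 6 1 = true := ex3_c k71_A00pm_012_s1 k72_A00pm_012_s1

theorem t111_A00pm_012_s1 : ∃ t, chk3 f_A00pm_012_s1 t 41 6 1 = true := ex3_a t110_A00pm_012_s1 t109_A00pm_012_s1

theorem t112_A00pm_012_s1 : ∃ t, chk3 f_A00pm_012_s1 t 40 13 1 = true := ex3_a k69_A00pm_012_s1 k70_A00pm_012_s1

theorem t113_A00pm_012_s1 : ∃ t, chk3 f_A00pm_012_s1 t 40 12 1 = true := ex3_a k67_A00pm_012_s1 k68_A00pm_012_s1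

theorem t114_A00pm_012_s1 : ∃ t, chk3 f_A00pm_012_s1 t 40 6 1 = true := ex3_b t113_A00pm_012_s1 t112_A00pm_012_s1

theorem t115_A00pm_012_s1 : ∃ t, chk3 f_A00pm_012_s1 t 20 6 1 = true := ex3_a t114_A00pm_012_s1 t111_A00pm_012_s1

theorem t116_A00pm_012_s1 : ∃ t, chk3 f_A00pm_012_s1 t 10 6 1 = true := ex3_a t115_A00pm_012_s1 k79_A00pm_012_s1

theorem t117_A00pm_012_s1 : ∃ t, chk3 f_A00pm_012_s1 t 5 6 1 = true := ex3_a t116_A00pm_012_s1 k80_A00pm_012_s1

theorem t118_A00pm_012_s1 : ∃ t, chk3 f_A00pm_012_s1 t 5 3 1 = true := ex3_b t117_A00pm_012_s1 t104_A00pm_012_s1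

theorem t119_A00pm_012_s1 : ∃ t, chk3 f_A00pm_012_s1 t 21 5 1 = true := ex3_b k64_A00pm_012_s1 k65_A00pm_012_s1

theorem t120_A00pm_012_s1 : ∃ t, chk3 f_A00pm_012_s1 t 41 23 1 = true := ex3_b k62_A00pm_012_s1 k63_A00pm_012_s1

theorem t121_A00pm_012_s1 : ∃ t, chk3 f_A00pm_012_s1 t 83 44 1 = true := ex3_c k59_A00pm_012_s1 k60_A00pm_012_s1

theorem t122_A00pm_012_s1 : ∃ t, chk3 f_A00pm_012_s1 t 83 22 1 = true := ex3_b t121_A00pm_012_s1 k61_A00pm_012_s1

theorem t123_A00pm_012_s1 : ∃ t, chk3 f_A00pm_012_s1 t 165 22 1 = true := ex3_a k57_A00pm_012_s1 k58_A00pm_012_s1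

theorem t124_A00pm_012_s1 : ∃ t, chk3 f_A00pm_012_s1 t 82 22 1 = true := ex3_a k56_A00pm_012_s1 t123_A00pm_012_s1

theorem t125_A00pm_012_s1 : ∃ t, chk3 f_A00pm_012_s1 t 41 22 1 = true := ex3_a t124_A00pm_012_s1 t122_A00pm_012_s1

theorem t126_A00pm_012_s1 : ∃ t, chk3 f_A00pm_012_s1 t 41 11 1 = true := ex3_b t125_A00pm_012_s1 t120_A00pm_012_s1

theorem t127_A00pm_012_s1 : ∃ t, chk3 f_A00pm_012_s1 t 163 23 1 = true := ex3_b k54_A00pm_012_s1 k55_A00pm_012_s1

theorem t128_A00pm_012_s1 : ∃ t, chk3 f_A00pm_012_s1 t 81 23 1 = true := ex3_a k53_A00pm_012_s1 t127_A00pm_012_s1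

theorem t129_A00pm_012_s1 : ∃ t, chk3 f_A00pm_012_s1 t 40 23 1 = true := ex3_a k52_A00pm_012_s1 t128_A00pm_012_s1

theorem t130_A00pm_012_s1 : ∃ t, chk3 f_A00pm_012_s1 t 40 11 1 = true := ex3_b k51_A00pm_012_s1 t129_A00pm_012_s1

theorem t131_A00pm_012_s1 : ∃ t, chk3 f_A00pm_012_s1 t 20 11 1 = true := ex3_a t130_A00pm_012_s1 t126_A00pm_012_s1

theorem t132_A00pm_012_s1 : ∃ t, chk3 f_A00pm_012_s1 t 41 21 1 = true := ex3_c k49_A00pm_012_s1 k50_A00pm_012_s1

theorem t133_A00pm_012_s1 : ∃ t, chk3 f_A00pm_012_s1 t 41 10 1 = true := ex3_b k48_A00pm_012_s1 t132_A00pm_012_s1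

theorem t134_A00pm_012_s1 : ∃ t, chk3 f_A00pm_012_s1 t 20 10 1 = true := ex3_a k47_A00pm_012_s1 t133_A00pm_012_s1

theorem t135_A00pm_012_s1 : ∃ t, chk3 f_A00pm_012_s1 t 20 5 1 = true := ex3_b t134_A00pm_012_s1 t131_A00pm_012_s1

theorem t136_A00pm_012_s1 : ∃ t, chk3 f_A00pm_012_s1 t 10 5 1 = true := ex3_a t135_A00pm_012_s1 t119_A00pm_012_s1

theorem t137_A00pm_012_s1 : ∃ t, chk3 f_A00pm_012_s1 t 10 2 1 = true := ex3_b k46_A00pm_012_s1 t136_A00pm_012_s1

theorem t138_A00pm_012_s1 : ∃ t, chk3 f_A00pm_012_s1 t 5 2 1 = true := ex3_a t137_A00pm_012_s1 k66_A00pm_012_s1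

theorem t139_A00pm_012_s1 : ∃ t, chk3 f_A00pm_012_s1 t 5 1 1 = true := ex3_b t138_A00pm_012_s1 t118_A00pm_012_s1

theorem t140_A00pm_012_s1 : ∃ t, chk3 f_A00pm_012_s1 t 19 31 1 = true := ex3_a k44_A00pm_012_s1 k45_A00pm_012_s1

theorem t141_A00pm_012_s1 : ∃ t, chk3 f_A00pm_012_s1 t 38 30 1 = true := ex3_b k41_A00pm_012_s1 k42_A00pm_012_s1

theorem t142_A00pm_012_s1 : ∃ t, chk3 f_A00pm_012_s1 t 19 30 1 = true := ex3_a t141_A00pm_012_s1 k43_A00pm_012_s1

theorem t143_A00pm_012_s1 : ∃ t, chk3 f_A00pm_012_s1 t 19 15 1 = true := ex3_b t142_A00pm_012_s1 t140_A00pm_012_s1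

theorem t144_A00pm_012_s1 : ∃ t, chk3 f_A00pm_012_s1 t 39 29 1 = true := ex3_b k39_A00pm_012_s1 k40_A00pm_012_s1

theorem t145_A00pm_012_s1 : ∃ t, chk3 f_A00pm_012_s1 t 76 59 1 = true := ex3_b k36_A00pm_012_s1 k37_A00pm_012_s1

theorem t146_A00pm_012_s1 : ∃ t, chk3 f_A00pm_012_s1 t 38 59 1 = true := ex3_a t145_A00pm_012_s1 k38_A00pm_012_s1

theorem t147_A00pm_012_s1 : ∃ t, chk3 f_A00pm_012_s1 t 77 58 1 = true := ex3_b k34_A00pm_012_s1 k35_A00pm_012_s1

theorem t148_A00pm_012_s1 : ∃ t, chk3 f_A00pm_012_s1 t 38 58 1 = true := ex3_a k33_A00pm_012_s1 t147_A00pm_012_s1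

theorem t149_A00pm_012_s1 : ∃ t, chk3 f_A00pm_012_s1 t 38 29 1 = true := ex3_b t148_A00pm_012_s1 t146_A00pm_012_s1

theorem t150_A00pm_012_s1 : ∃ t, chk3 f_A00pm_012_s1 t 19 29 1 = true := ex3_a t149_A00pm_012_s1 t144_A00pm_012_s1

theorem t151_A00pm_012_s1 : ∃ t, chk3 f_A00pm_012_s1 t 78 57 1 = true := ex3_b k30_A00pm_012_s1 k31_A00pm_012_s1

theorem t152_A00pm_012_s1 : ∃ t, chk3 f_A00pm_012_s1 t 39 57 1 = true := ex3_a t151_A00pm_012_s1 k32_A00pm_012_s1

theorem t153_A00pm_012_s1 : ∃ t, chk3 f_A00pm_012_s1 t 39 113 1 = true := ex3_a k28_A00pm_012_s1 k29_A00pm_012_s1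

theorem t154_A00pm_012_s1 : ∃ t, chk3 f_A00pm_012_s1 t 39 56 1 = true := ex3_b k27_A00pm_012_s1 t153_A00pm_012_s1

theorem t155_A00pm_012_s1 : ∃ t, chk3 f_A00pm_012_s1 t 39 28 1 = true := ex3_b t154_A00pm_012_s1 t152_A00pm_012_s1

theorem t156_A00pm_012_s1 : ∃ t, chk3 f_A00pm_012_s1 t 19 28 1 = true := ex3_a k26_A00pm_012_s1 t155_A00pm_012_s1

theorem t157_A00pm_012_s1 : ∃ t, chk3 f_A00pm_012_s1 t 19 14 1 = true := ex3_b t156_A00pm_012_s1 t150_A00pm_012_s1

theorem t158_A00pm_012_s1 : ∃ t, chk3 f_A00pm_012_s1 t 19 7 1 = true := ex3_b t157_A00pm_012_s1 t143_A00pm_012_s1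

theorem t159_A00pm_012_s1 : ∃ t, chk3 f_A00pm_012_s1 t 18 31 1 = true := ex3_b k24_A00pm_012_s1 k25_A00pm_012_s1

theorem t160_A00pm_012_s1 : ∃ t, chk3 f_A00pm_012_s1 t 37 30 1 = true := ex3_b k22_A00pm_012_s1 k23_A00pm_012_s1

theorem t161_A00pm_012_s1 : ∃ t, chk3 f_A00pm_012_s1 t 36 30 1 = true := ex3_b k20_A00pm_012_s1 k21_A00pm_012_s1

theorem t162_A00pm_012_s1 : ∃ t, chk3 f_A00pm_012_s1 t 18 30 1 = true := ex3_a t161_A00pm_012_s1 t160_A00pm_012_s1

theorem t163_A00pm_012_s1 : ∃ t, chk3 f_A00pm_012_s1 t 18 15 1 = true := ex3_b t162_A00pm_012_s1 t159_A00pm_012_s1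

theorem t164_A00pm_012_s1 : ∃ t, chk3 f_A00pm_012_s1 t 75 59 1 = true := ex3_b k18_A00pm_012_s1 k19_A00pm_012_s1

theorem t165_A00pm_012_s1 : ∃ t, chk3 f_A00pm_012_s1 t 75 29 1 = true := ex3_b k17_A00pm_012_s1 t164_A00pm_012_s1

theorem t166_A00pm_012_s1 : ∃ t, chk3 f_A00pm_012_s1 t 37 29 1 = true := ex3_a k16_A00pm_012_s1 t165_A00pm_012_s1

theorem t167_A00pm_012_s1 : ∃ t, chk3 f_A00pm_012_s1 t 18 29 1 = true := ex3_a k15_A00pm_012_s1 t166_A00pm_012_s1

theorem t168_A00pm_012_s1 : ∃ t, chk3 f_A00pm_012_s1 t 18 14 1 = true := ex3_b k14_A00pm_012_s1 t167_A00pm_012_s1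

theorem t169_A00pm_012_s1 : ∃ t, chk3 f_A00pm_012_s1 t 18 7 1 = true := ex3_b t168_A00pm_012_s1 t163_A00pm_012_s1

theorem t170_A00pm_012_s1 : ∃ t, chk3 f_A00pm_012_s1 t 9 7 1 = true := ex3_a t169_A00pm_012_s1 t158_A00pm_012_s1

theorem t171_A00pm_012_s1 : ∃ t, chk3 f_A00pm_012_s1 t 17 62 1 = true := ex3_a k11_A00pm_012_s1 k12_A00pm_012_s1

theorem t172_A00pm_012_s1 : ∃ t, chk3 f_A00pm_012_s1 t 17 31 1 = true := ex3_b t171_A00pm_012_s1 k13_A00pm_012_s1

theorem t173_A00pm_012_s1 : ∃ t, chk3 f_A00pm_012_s1 t 17 30 1 = true := ex3_a k9_A00pm_012_s1 k10_A00pm_012_s1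

theorem t174_A00pm_012_s1 : ∃ t, chk3 f_A00pm_012_s1 t 17 15 1 = true := ex3_b t173_A00pm_012_s1 t172_A00pm_012_s1

theorem t175_A00pm_012_s1 : ∃ t, chk3 f_A00pm_012_s1 t 8 15 1 = true := ex3_a k8_A00pm_012_s1 t174_A00pm_012_s1

theorem t176_A00pm_012_s1 : ∃ t, chk3 f_A00pm_012_s1 t 8 7 1 = true := ex3_b k7_A00pm_012_s1 t175_A00pm_012_s1

theorem t177_A00pm_012_s1 : ∃ t, chk3 f_A00pm_012_s1 t 4 7 1 = true := ex3_a t176_A00pm_012_s1 t170_A00pm_012_s1

theorem t178_A00pm_012_s1 : ∃ t, chk3 f_A00pm_012_s1 t 4 13 3 = true := ex3_b k5_A00pm_012_s1 k6_A00pm_012_s1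

theorem t179_A00pm_012_s1 : ∃ t, chk3 f_A00pm_012_s1 t 4 26 2 = true := ex3_a k2_A00pm_012_s1 k3_A00pm_012_s1

theorem t180_A00pm_012_s1 : ∃ t, chk3 f_A00pm_012_s1 t 4 13 2 = true := ex3_b t179_A00pm_012_s1 k4_A00pm_012_s1

theorem t181_A00pm_012_s1 : ∃ t, chk3 f_A00pm_012_s1 t 4 13 1 = true := ex3_c t180_A00pm_012_s1 t178_A00pm_012_s1

theorem t182_A00pm_012_s1 : ∃ t, chk3 f_A00pm_012_s1 t 4 6 1 = true := ex3_b k1_A00pm_012_s1 t181_A00pm_012_s1

theorem t183_A00pm_012_s1 : ∃ t, chk3 f_A00pm_012_s1 t 4 3 1 = true := ex3_b t182_A00pm_012_s1 t177_A00pm_012_s1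

theorem t184_A00pm_012_s1 : ∃ t, chk3 f_A00pm_012_s1 t 4 1 1 = true := ex3_b k0_A00pm_012_s1 t183_A00pm_012_s1

theorem t185_A00pm_012_s1 : ∃ t, chk3 f_A00pm_012_s1 t 2 1 1 = true := ex3_a t184_A00pm_012_s1 t139_A00pm_012_s1

theorem t186_A00pm_012_s1 : ∃ t, chk3 f_A00pm_012_s1 t 1 1 1 = true := ex3_a t185_A00pm_012_s1 k93_A00pm_012_s1

theorem c_A00pm_012_s1 : CertF 0 536870912 536870912 536870912 818728140 40265320 true true false .pnp 0 1 2
    ndB0q0 ndB0q1 pcB2 cut_A00pm_012_s1 xt_A00pm_012_s1 :=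
  certF2 (fam := true) (s1 := true) (s2 := false) (a := 0) (b := 1) (c := 2) (cn := .pnp) (n1 := ndB0q0) (n2 := ndB0q1) (pc := pcB2) (cut := cut_A00pm_012_s1) (xt := xt_A00pm_012_s1) (P1 := 0) (W1 := 536870912) (P2 := 536870912) (W2 := 536870912) (P3 := 818728140) (W3 := 40265320)
    rfl (fun _ => rfl) t186_A00pm_012_s1

theorem s_A00pm_012_s1 {κ x : ℝ} (hκ : κ * h0 = ken x) (hx : ((818728140 : ℕ) : ℝ) / S ≤ x)
    (hx' : x ≤ (((818728140 : ℕ) : ℝ) + (40265320 : ℕ)) / S)
    (H : CutA (VFD κ) PP tK tL pcB (Cut.of [[⟨0, 0, 0, 67108864⟩, ⟨1, 1, 0, 67108864⟩, ⟨2, 1, 0, 67108864⟩]]) 0 1 2 0 0 (sgb true) (sgb false) x) :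
    AltA (VFD κ) PP tK tL pcB [⟨3, 0, 0, 1449551462⟩] 0 1 2 0 0 (sgb true) (sgb false) x :=
  strip_altAD (m := 1449551462) true rfl hκ (SH.κ0 hκ (SH.hx1 hx).le (SH.hx2 hx').le) (SH.hx1 hx).le (SH.hx2 hx') (covB00).cov (covB01).cov hx hx' c_A00pm_012_s1 H ((okx hx hx').extA (T := tt) (sideB hx hx') hκ rfl rfl (.O 0 true) (.O 1 false) rfl)

end Pool.Agent.Strip051.G.I7625_8000.Tab.St.C
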