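import Pool.Agent.Strip051.G.I7625_8000.StH
import Pool.Agent.Strip051.G.I7625_8000.StF

/-! # Unit strips 5 (generated) -/

set_option linter.all false
set_option maxRecDepth 100000

namespace Pool.Agent.Strip051.G.I7625_8000.Tab.St.C

open Pool.Agent.Strip051.PB Pool.Agent.Strip051.PB.T Pool.Agent.StripNear Pool.Agent.Strip051.LC
open Pool.Agent.Strip051.G.I7625_8000.Tab Pool.Agent.Strip051.G.I7625_8000.Tab.St

noncomputable def cut_A00pm_102_s1 : Cut := Cut.of [[⟨4, 0, 0, 1449551462⟩], [⟨0, 1, 0, 67108864⟩, ⟨1, 0, 0, 67108864⟩, ⟨2, 1, 0, 67108864⟩]]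

noncomputable def xt_A00pm_102_s1 : Ext := strExt dd true true false .u0 .u0m .u2 .npp 1 0 2 rfl rfl gf2 vv ndB0q1 ndB0q0

noncomputable def f_A00pm_102_s1 : ℕ → ℕ → ℕ → ℕ → Bool := onCell 536870912 536870912 1073741824 536870912 818728140 40265320
    (rowF 1 true true false .npp 1 0 2 (qsf 536870912 536870912 0 536870912 2) ndB0q1 ndB0q0 pcB2 cut_A00pm_102_s1 xt_A00pm_102_s1)

def k0_A00pm_102_s1 : ∃ t, chk3 f_A00pm_102_s1 t 2 4 1 = true :=
  ⟨(b (l 3) (l 3)), by decide +kernel⟩

def k1_A00pm_102_s1 : ∃ t, chk3 f_A00pm_102_s1 t 4 10 1 = true :=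
  ⟨(b (b (l 3) (l 2)) (l 2)), by decide +kernel⟩

def k2_A00pm_102_s1 : ∃ t, chk3 f_A00pm_102_s1 t 10 40 1 = true :=
  ⟨(l 3), by decide +kernel⟩

def k3_A00pm_102_s1 : ∃ t, chk3 f_A00pm_102_s1 t 20 41 1 = true :=
  ⟨(c (b (l 3) (a (l 2) (a (b (b (l 3) (l 2)) (l 2)) (a (b (b (l 3) (b (l 530423695) (b (l 531927695) (l 532176783)))) (b (b (b (b (l 532326799) (l 2)) (l 2)) (l 2)) (l 2))) (b (b (l 3) (b (l 530418831) (b (l 531652751) (l 531910287)))) (b (b (b (b (l 532074639) (l 532152975)) (l 532222095)) (b (l 532274063) (l 16773496))) (b (l 16772608) (l 16771424)))))))) (b (l 3) (a (l 2) (a (b (b (l 3) (l 2)) (l 2)) (a (b (b (l 3) (b (l 530231183) (b (l 531670415) (l 531876239)))) (b (b (b (b (l 531996047) (l 2)) (l 2)) (l 2)) (l 2))) (b (b (l 3) (b (l 530242703) (b (l 531412111) (l 531626127)))) (b (b (b (b (l 531758735) (l 531820687)) (l 531874447)) (a (l 16773688) (l 16773360))) (a (l 16771752) (l 16771400))))))))), by decide +kernel⟩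

def k4_A00pm_102_s1 : ∃ t, chk3 f_A00pm_102_s1 t 21 82 2 = true :=
  ⟨(b (l 3) (a (l 3) (b (l 3) (b (a (l 3) (c (b (l 3) (a (l 3) (b (a (l 3) (a (l 3) (a (l 3) (a (l 3) (b (l 3) (l 527057551)))))) (l 527214991)))) (c (b (l 3) (a (l 3) (b (a (l 3) (a (l 3) (a (l 3) (l 526985103)))) (l 527128975)))) (b (l 3) (a (l 3) (b (a (l 3) (a (l 3) (b (l 3) (l 526893967)))) (l 527072399))))))) (a (b (l 3) (l 528062095)) (b (l 527448975) (l 527766159))))))), by decide +kernel⟩

def k5_A00pm_102_s1 : ∃ t, chk3 f_A00pm_102_s1 t 21 83 2 = true :=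
  ⟨(b (b (b (a (b (l 3) (l 529355407)) (b (a (l 528408463) (l 528089999)) (a (l 528763279) (l 528421519)))) (a (b (l 529760143) (l 530147983)) (b (a (l 528859023) (l 528761231)) (a (l 529501327) (l 529109647))))) (a (b (b (l 530441103) (l 530725775)) (b (b (l 530930575) (l 531063695)) (b (l 531192975) (l 531317903)))) (a (b (b (l 529826447) (l 530075279)) (b (b (l 530257039) (l 530377359)) (b (l 530495887) (l 530612623)))) (b (b (l 529468047) (l 529705103)) (b (l 529926543) (b (l 530088335) (l 530196111))))))) (a (a (a (b (b (b (b (l 531818895) (l 531907727)) (l 531993487)) (b (l 532062607) (l 16772832))) (b (l 16771920) (l 16770704))) (b (b (b (b (l 531564687) (l 531660431)) (l 531759503)) (b (l 16772720) (l 16772096))) (b (l 16771160) (l 16769912)))) (a (b (b (b (b (l 531315343) (l 531414927)) (l 531523983)) (b (l 16771912) (l 16771280))) (b (l 16770328) (l 16769056))) (b (b (b (b (l 531073167) (l 531174543)) (l 531290255)) (b (l 16771024) (l 16770384))) (b (l 16769416) (l 16768120))))) (a (a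 (b (b (b (b (l 530839951) (l 530941583)) (l 531061135)) (b (l 16770056) (l 16769408))) (b (l 16768424) (l 16767104))) (b (b (b (b (l 530616975) (l 16770112)) (l 530838671)) (b (l 16769000) (l 16768344))) (b (l 16767352) (l 16766016)))) (a (b (b (b (a (l 16769424) (l 16768840)) (l 530624399)) (b (l 16767864) (l 16767208))) (b (l 16766200) (l 16764840))) (b (b (b (a (l 16768240) (l 16767616)) (l 530419343)) (l 16766320)) (b (l 16764968) (l 16763592))))))), by decide +kernel⟩

def k6_A00pm_102_s1 : ∃ t, chk3 f_A00pm_102_s1 t 21 41 3 = true :=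
  ⟨(a (b (l 3) (b (b (b (b (l 3) (l 529263503)) (b (l 529706639) (l 530074767))) (b (b (l 530326671) (l 530300815)) (b (b (l 530742415) (l 530854287)) (b (l 530962063) (l 531065231))))) (a (a (b (b (b (b (l 531519375) (l 531590287)) (l 531658127)) (b (l 532248975) (l 531747215))) (a (l 16771032) (l 16770648))) (b (b (b (b (l 531281551) (l 531358607)) (l 531437711)) (b (l 531504527) (l 16771736))) (b (l 16773336) (l 16769352)))) (a (b (b (b (b (l 531048847) (l 531129487)) (l 531216783)) (b (l 531294607) (l 16770888))) (b (l 16772472) (l 16768456))) (b (b (b (b (l 530823055) (l 530905487)) (l 530998415)) (b (l 16770672) (l 16769968))) (a (l 16768440) (l 16767944))))))) (b (b (l 3) (b (l 3) (b (a (l 3) (b (l 3) (b (b (l 3) (b (l 3) (b (b (l 3) (l 526881679)) (l 526897295)))) (l 526991759)))) (a (b (l 3) (l 527892367)) (b (l 527246735) (l 527593103)))))) (b (b (b (a (b (l 528270479) (l 528658319)) (b (l 527947151) (l 528309647))) (b (a (l 529056911) (l 528681359)) (a (l 529466767) (l 529063311)))) (b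 (b (a (l 529749135) (l 529424527)) (a (l 529959567) (l 529613199))) (b (b (l 529385615) (a (l 530212751) (l 529841807))) (b (a (l 530311055) (l 529931663)) (a (l 530407311) (l 530019983)))))) (a (a (b (b (b (b (l 530605967) (l 530688399)) (l 530784911)) (b (l 16769680) (l 16768968))) (a (l 16767432) (l 16766896))) (b (b (b (b (l 530398607) (l 530480015)) (l 530578063)) (b (l 16768608) (l 16767880))) (a (l 16766344) (l 16765768)))) (a (b (b (b (b (l 530201743) (l 530281103)) (l 530378895)) (b (l 16767456) (l 16766720))) (b (l 16765616) (l 16764120))) (b (b (b (a (l 16767968) (l 16767344)) (l 530188943)) (b (l 16766224) (l 16765480))) (b (l 16764360) (l 16762840)))))))), by decide +kernel⟩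

def k7_A00pm_102_s1 : ∃ t, chk3 f_A00pm_102_s1 t 22 40 1 = true :=
  ⟨(l 3), by decide +kernel⟩

def k8_A00pm_102_s1 : ∃ t, chk3 f_A00pm_102_s1 t 23 80 1 = true :=
  ⟨(l 3), by decide +kernel⟩

def k9_A00pm_102_s1 : ∃ t, chk3 f_A00pm_102_s1 t 23 162 1 = true :=
  ⟨(a (l 3) (a (l 3) (c (b (l 3) (a (b (l 3) (b (l 3) (a (l 3) (l 530538895)))) (b (b (l 3) (a (l 3) (l 530584719))) (l 530434847)))) (b (l 3) (b (a (l 3) (l 531451279)) (l 530901391)))))), by decide +kernel⟩

def k10_A00pm_102_s1 : ∃ t, chk3 f_A00pm_102_s1 t 46 163 1 = true :=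
  ⟨(b (l 3) (b (a (l 3) (b (a (l 3) (a (l 3) (c (c (b (b (l 3) (a (l 3) (l 530506895))) (l 530732175)) (b (b (l 3) (l 531088271)) (l 531047055))) (b (b (l 3) (l 531192719)) (l 531316111))))) (c (c (a (l 3) (l 530653839)) (l 530892687)) (l 531206031)))) (c (a (a (l 3) (l 530427791)) (c (l 530761615) (l 530776207))) (a (a (l 3) (l 530965391)) (l 531169167))))), by decide +kernel⟩

def k11_A00pm_102_s1 : ∃ t, chk3 f_A00pm_102_s1 t 47 163 1 = true :=
  ⟨(b (a (b (a (l 3) (c (b (a (l 3) (l 530360975)) (c (l 530862479) (l 531177615))) (a (l 530989087) (l 531136911)))) (b (a (a (l 3) (c (b (l 3) (l 530444431)) (l 531108751))) (c (l 530476687) (l 531397775))) (a (a (a (l 3) (b (l 3) (c (l 530692751) (l 531365775)))) (c (l 530441247) (l 531107983))) (c (l 530741391) (l 531397263))))) (c (b (a (l 530388511) (l 531099279)) (l 530267279)) (b (l 531437711) (l 531437199)))) (a (b (c (a (c (b (b (a (a (c (l 530713487) (l 530868623)) (c (l 530725263) (l 530879887))) (l 530819215)) (a (a (c (l 530702223) (l 530856335))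 (l 531061279)) (l 530813327))) (a (a (l 530729615) (l 530756239)) (l 530248591))) (b (a (c (b (a (l 530760079) (l 531039119)) (l 531154575)) (b (l 531197071) (l 531183503))) (b (l 531135887) (l 531128719))) (a (a (l 531037839) (l 531065743)) (l 531095439)))) (b (b (l 530738831) (l 530734479)) (c (l 530830735) (l 531138959)))) (a (b (b (a (c (a (b (l 531297167) (l 531296911)) (l 531305103)) (a (b (a (l 531410831) (l 531414159)) (l 531412111)) (b (l 531418767) (l 531418511)))) (b (l 531107727) (l 531107471))) (a (a (a (l 531352975) (l 531088527)) (b (l 531095951) (l 531361935))) (c (l 531315599) (l 531426959)))) (a (a (l 531341199) (l 531085199)) (b (l 531370383) (l 531364751)))) (b (b (l 531128463) (l 531127695)) (b (l 531393679) (l 531390095))))) (a (a (c (c (b (l 530683023) (l 530621071)) (l 530943375)) (b (l 531330191) (l 531310991))) (c (c (l 530035743) (l 531002255)) (l 530944543))) (c (c (b (l 530792847) (l 530746767)) (l 531066767)) (b (l 531382927) (l 531371919))))) (b (b (c (a (l 531047567)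 (l 531088527)) (l 531168143)) (c (a (l 531031951) (l 531076751)) (l 531434639))) (c (c (l 530060943) (l 531160207)) (b (l 531430031) (l 531423631)))))), by decide +kernel⟩

def k12_A00pm_102_s1 : ∃ t, chk3 f_A00pm_102_s1 t 22 164 1 = true :=
  ⟨(a (l 3) (a (b (l 3) (c (c (l 529013903) (l 529404559)) (l 529343375))) (b (a (l 3) (b (l 3) (c (l 529801359) (l 530230927)))) (c (b (l 529543055) (l 529367951)) (l 529778063))))), by decide +kernel⟩

def k13_A00pm_102_s1 : ∃ t, chk3 f_A00pm_102_s1 t 22 165 1 = true :=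
  ⟨(b (b (a (a (l 3) (c (l 528333455) (l 528428175))) (c (a (l 528779663) (l 529190287)) (l 528373647))) (a (a (a (l 3) (b (l 3) (c (l 527667855) (l 527596943)))) (c (c (l 528109199) (l 528108175)) (l 528119951))) (c (a (l 528577679) (l 529009807)) (l 527572367)))) (a (c (a (b (a (c (b (c (l 527328143) (l 527284111)) (b (a (b (l 527157903) (c (l 527157391) (l 527100559))) (l 527282319)) (a (b (a (a (a (l 527121039) (l 527113615)) (l 527124111)) (l 527160207)) (a (l 527185039) (l 527201935))) (b (l 527251855) (l 527271567))))) (b (l 527220111) (b (l 527109775) (b (a (l 527024271) (l 527147407)) (a (a (l 527072143) (l 527090319)) (l 527165839)))))) (b (l 527540111) (b (l 527443087) (l 527402127)))) (a (b (a (b (a (l 527238031) (l 527235215)) (l 527377039)) (b (l 527278991) (l 527389327))) (a (l 527872911) (l 527584911))) (b (b (l 527429519) (l 527498383)) (b (l 527591311) (l 527699855))))) (b (b (l 527933839) (c (l 527847311) (l 527795855))) (b (a (l 527682959) (l 527920271)) (a (l 527801743) (l 527996303)))))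 (a (b (b (a (a (l 527016335) (l 527181967)) (l 527423119)) (a (b (c (l 527009679) (l 526912911)) (a (b (c (l 526912655) (l 527072143)) (a (l 526907535) (l 526927503))) (l 527002255))) (b (l 527290767) (l 527230351)))) (a (b (a (a (l 527111567) (l 527097231)) (b (l 527074703) (l 527192207))) (a (l 527427471) (l 527404175))) (b (b (l 527250575) (l 527319439)) (b (l 527416719) (l 527532431))))) (b (b (l 527882127) (b (l 527760527) (l 527693199))) (b (a (l 527541135) (l 527818639)) (a (l 527657103) (l 527884943)))))) (a (b (b (l 528970639) (c (l 528320399) (l 528308367))) (b (c (l 528274575) (l 528232335)) (c (l 528310927) (l 528253071)))) (b (c (l 529096591) (l 529177743)) (c (b (l 528728719) (l 528736655)) (b (l 528761487) (l 528749967))))))), by decide +kernel⟩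

def k14_A00pm_102_s1 : ∃ t, chk3 f_A00pm_102_s1 t 44 83 2 = true :=
  ⟨(b (b (a (b (a (b (a (l 527914895) (l 527871631)) (a (l 528233871) (l 528175759))) (b (l 527883151) (l 528152207))) (a (b (a (l 528560783) (l 528491919)) (l 528851599)) (b (l 528441487) (l 528746383)))) (b (b (a (l 527984271) (l 528135311)) (a (l 528206223) (l 528317071))) (b (l 529022607) (l 529008527)))) (b (a (b (a (l 529192335) (l 529065615)) (a (l 529480079) (l 16767456))) (b (a (l 16766736) (l 529027983)) (l 529307023))) (b (a (a (l 16767992) (l 16766808)) (l 529617039)) (a (a (l 16767320) (l 16766144)) (l 529860495))))) (a (a (b (b (b (a (l 16766984) (l 16766376)) (l 530239631)) (l 16765056)) (b (l 16763696) (l 16762304))) (b (b (b (a (l 16765800) (l 16765248)) (l 530172047)) (l 16763896)) (b (l 16762544) (l 16761128)))) (a (b (b (b (l 16764424) (l 530168207)) (l 16762840)) (b (l 16761496) (l 16760112))) (b (b (b (l 16763344) (l 16760120)) (l 16761800)) (l 16759824))))), by decide +kernel⟩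

def k15_A00pm_102_s1 : ∃ t, chk3 f_A00pm_102_s1 t 44 83 3 = true :=
  ⟨(b (b (a (b (a (b (a (l 527767695) (l 527717007)) (a (l 528117647) (l 528050063))) (b (l 527729807) (l 528021903))) (a (b (a (l 527939215) (l 528397199)) (l 528793231)) (b (l 528337295) (l 528671375)))) (b (b (a (l 527848079) (l 528025231)) (a (l 528085391) (l 528215439))) (b (a (l 528354959) (l 528442767)) (l 529202063)))) (b (a (a (b (l 529168015) (l 529409167)) (b (l 529021583) (l 16767448))) (b (l 528963471) (l 529282447))) (b (a (a (c (l 16767896) (l 16767824)) (l 16766720)) (l 529621903)) (a (a (a (l 16767416) (l 16766808)) (l 16765984)) (l 530230159))))) (a (a (b (b (b (a (l 16766704) (l 16766104)) (l 530027151)) (b (l 16764960) (l 16764216))) (b (l 16763080) (l 16761544))) (b (b (b (a (l 16765552) (l 16765024)) (l 530000271)) (l 16766088)) (b (l 16761952) (l 16760392)))) (a (b (b (b (l 16764256) (l 530045583)) (l 16762488)) (l 16765464)) (b (b (b (l 16763248) (l 16759952)) (l 16761520)) (l 16759328))))), by decide +kernel⟩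

def k16_A00pm_102_s1 : ∃ t, chk3 f_A00pm_102_s1 t 45 83 1 = true :=
  ⟨(c (b (a (b (b (b (l 528671887) (a (l 528460175) (l 528621967))) (b (b (l 528660111) (l 528750735)) (b (l 528847759) (l 528950671)))) (b (b (l 529116559) (a (l 529332111) (l 16762368))) (b (l 529613455) (l 529892239)))) (b (b (b (l 528790415) (l 528881039)) (b (l 529002127) (l 529418127))) (b (b (a (l 16761736) (l 16760552)) (a (l 16761168) (l 16759992))) (a (l 16760496) (l 16759328))))) (a (a (b (b (b (l 16762280) (l 16761688)) (l 16760760)) (l 16758832)) (b (b (c (l 16760928) (l 16760952)) (l 16759736)) (l 16757840))) (b (b (a (l 16759920) (l 16758768)) (l 16758224)) (l 16756368)))) (b (b (b (a (b (l 528339599) (l 529011855)) (b (l 528791951) (l 528877199))) (b (a (a (l 528573839) (l 528732559)) (l 528998287)) (a (a (l 528795279) (l 16763560)) (l 529149839)))) (b (b (a (l 529086351) (l 529865359)) (a (l 528269199) (a (l 16761192) (l 16760056)))) (b (a (l 529622671) (l 529757839)) (a (l 529925775) (l 16759872))))) (a (a (b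 (b (b (l 16762264) (l 16761608)) (l 16760576)) (l 16758432)) (b (b (a (l 16761216) (l 16760744)) (l 16759648)) (l 16757544))) (b (b (a (l 16760048) (l 16759016)) (l 16758288)) (l 16756240))))), by decide +kernel⟩

def k17_A00pm_102_s1 : ∃ t, chk3 f_A00pm_102_s1 t 46 41 1 = true :=
  ⟨(b (b (b (b (a (c (a (c (l 530008463) (l 530245775)) (l 530007183)) (a (l 530633359) (l 530801039))) (c (l 529415823) (l 531038863))) (a (c (c (l 529938831) (l 530153103)) (l 530503567)) (c (b (l 530382479) (l 530310799)) (l 530841999)))) (a (a (c (a (l 529144207) (l 529762847)) (l 530081935)) (c (l 530156575) (l 530273167))) (c (b (l 530203279) (l 530059919)) (l 531348879)))) (b (a (c (b (l 529568399) (l 529407119)) (b (l 529845647) (l 529620111))) (c (b (l 529916303) (l 529772943)) (b (l 530242447) (l 530039695)))) (a (b (c (b (l 529285263) (l 529204879)) (l 529930639)) (c (b (l 529152399) (l 529145999)) (b (l 529254031) (l 529226639)))) (b (c (l 529631375) (l 529837967)) (c (a (l 529441679) (l 16763032)) (l 529956495))))))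 (b (b (b (a (c (b (l 529176463) (l 529238159)) (a (l 529965711) (l 16763632))) (c (a (l 530012959) (l 16761200)) (a (l 16762576) (l 16758928)))) (a (b (c (l 529595279) (l 529379215)) (a (l 16762704) (l 16761600))) (c (a (l 16758120) (l 16757024)) (a (l 16758368) (l 16757360))))) (a (b (a (b (l 16762064) (l 16761520)) (c (l 16760592) (l 16758152))) (b (a (l 16755824) (l 16754736)) (c (l 16757440) (l 16757672)))) (b (c (a (l 16756856) (l 16755768)) (a (l 16757120) (l 16756128))) (c (a (l 16761184) (l 16754848)) (l 16755760))))) (a (c (b (b (a (l 16757616) (l 16756480)) (l 16756272)) (l 16754448)) (b (b (c (l 16759904) (l 16757440)) (l 16756552)) (l 16754560))) (b (b (c (c (l 16754696) (l 16754920)) (l 16757896)) (b (l 16757328) (l 16756952))) (b (l 16756016) (l 16752120)))))), by decide +kernel⟩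

def k18_A00pm_102_s1 : ∃ t, chk3 f_A00pm_102_s1 t 47 41 1 = true :=
  ⟨(b (b (c (b (a (a (b (c (l 530023823) (l 530830479)) (l 530559631)) (b (l 530806671) (l 530419343))) (b (c (l 530524559) (l 531071631)) (l 530835855))) (a (b (l 531035279) (a (l 530291087) (l 530440591))) (c (l 529496207) (l 530800015)))) (b (a (b (a (l 531266447) (l 531351951)) (a (l 531080847) (l 531227535))) (b (l 531411599) (l 531389583))) (a (a (l 530795039) (l 530968207)) (l 531168031)))) (b (a (c (b (a (l 530160271) (l 530315919)) (l 528767775)) (b (l 530613647) (l 530430095))) (c (b (l 16765024) (l 530415759)) (l 531939727))) (a (c (b (a (l 529900943) (l 16760176)) (a (l 16759272) (l 16758160))) (b (a (l 16756648) (l 16760872)) (a (l 16759776) (l 16758784)))) (c (b (l 529505935) (l 530500127)) (b (l 16759368) (l 529704591)))))) (b (b (b (c (a (a (l 16757472) (l 16756384)) (c (l 16754600) (l 16754984))) (a (a (l 16757928) (l 16756968)) (l 16750360))) (a (c (a (l 16755936) (l 16754872)) (a (l 16756384) (l 16755448))) (a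 (l 16748944) (l 16747992)))) (b (a (c (a (l 16754704) (l 16753648)) (a (l 16755168) (l 16754240))) (a (l 16747744) (l 16746800))) (a (a (c (l 16753784) (l 16754304)) (l 16747808)) (a (l 16746848) (l 16751152))))) (c (a (b (b (c (l 16752488) (l 16752816)) (l 16752120)) (l 16750704)) (b (b (l 16750560) (l 16750000)) (l 16748648))) (a (b (b (l 16753312) (l 16752872)) (l 16751312)) (b (b (l 16751496) (l 16751016)) (l 16749424)))))), by decide +kernel⟩

def k19_A00pm_102_s1 : ∃ t, chk3 f_A00pm_102_s1 t 10 21 1 = true :=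
  ⟨(b (a (b (b (b (a (l 2) (a (l 2) (a (l 2) (l 16771960)))) (l 2)) (l 2)) (l 2)) (a (b (a (b (a (c (l 16772936) (l 16772136)) (c (l 16772056) (l 16771208))) (a (l 16762400) (l 16761336))) (a (b (c (l 16771120) (l 16770224)) (l 16760224)) (b (a (l 16769912) (l 16769376)) (l 16759040)))) (a (b (l 16757080) (l 2)) (a (l 16752736) (l 16751312)))) (a (a (b (b (c (l 16769024) (b (l 16764256) (l 16761360))) (l 16757800)) (l 16749840)) (b (b (c (l 16767872) (b (l 16763088) (l 16760128))) (l 16756488)) (l 16758792))) (b (b (a (c (l 16766640) (b (l 16761856) (l 16758824))) (c (l 16765336) (l 16764240))) (a (l 16755112) (l 16753664))) (a (l 16757192) (l 16755528)))))) (a (l 2) (a (b (a (l 2) (l 16742632)) (l 2)) (b (a (l 16738928) (l 16735104)) (a (l 16729616) (l 16725048)))))), by decide +kernel⟩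

def k20_A00pm_102_s1 : ∃ t, chk3 f_A00pm_102_s1 t 11 21 1 = true :=
  ⟨(a (b (a (b (a (b (a (c (l 16763992) (l 16762880)) (b (l 16763752) (l 16755464))) (a (l 16752200) (l 16750888))) (a (b (b (l 16762776) (l 16754472)) (l 16749808)) (b (b (l 16756656) (l 16753600)) (l 16748944)))) (a (a (l 16753864) (l 16752352)) (c (l 16762208) (l 16749344)))) (b (a (a (b (l 16759544) (l 16748168)) (b (l 16758688) (l 16747464))) (b (c (l 16757656) (l 16757168)) (l 16756832))) (a (c (l 16739472) (l 16758344)) (b (l 16740312) (l 16734048))))) (a (a (b (l 16741760) (l 16720592)) (b (l 16728120) (l 16716832))) (b (a (l 16725960) (l 16724680)) (a (l 16714104) (l 16712280))))) (b (b (c (a (a (a (l 16758832) (l 16757960)) (l 16751408)) (a (l 16749624) (l 16742384))) (a (a (a (l 16758336) (l 16757616)) (l 16751312)) (a (l 16744592) (l 16742832)))) (a (a (l 16756992) (l 16755744)) (a (l 16754400) (l 16731776)))) (b (a (a (l 16723688) (l 16722944)) (a (l 16721920) (l 16720552))) (a (a (l 16711320) (l 16710624)) (a (l 16710096)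 (l 16709032)))))), by decide +kernel⟩

def k21_A00pm_102_s1 : ∃ t, chk3 f_A00pm_102_s1 t 2 11 1 = true :=
  ⟨(a (l 2) (a (b (b (a (l 2) (a (l 2) (a (l 2) (l 16753368)))) (l 2)) (l 2)) (b (a (a (b (a (b (l 16710640) (l 16701528)) (b (l 16706248) (l 16696400))) (a (l 2) (l 16683080))) (b (a (b (l 16702928) (l 16692456)) (b (l 16700536) (l 16689472))) (a (l 16678376) (l 16674224)))) (a (b (a (b (l 16699024) (l 16687400)) (b (l 16698352) (l 16686184))) (a (l 16671264) (l 16711144))) (b (a (b (l 16697856) (l 16685696)) (b (l 16697272) (l 16685128))) (a (l 16667904) (l 16709160))))) (a (b (a (l 2) (a (l 2) (l 16656496))) (l 2)) (b (a (a (l 16652496) (l 16649008)) (a (l 16646560) (l 16644640))) (a (a (l 2) (l 16631728)) (a (l 16628272) (l 16624960)))))))), by decide +kernel⟩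

def k22_A00pm_102_s1 : ∃ t, chk3 f_A00pm_102_s1 t 2 3 1 = true :=
  ⟨(a (l 2) (b (a (l 2) (b (a (l 2) (b (a (l 2) (b (a (l 2) (l 16608160)) (l 2))) (l 2))) (l 2))) (l 2))), by decide +kernel⟩

def k23_A00pm_102_s1 : ∃ t, chk3 f_A00pm_102_s1 t 12 4 1 = true :=
  ⟨(c (b (l 3) (b (l 3) (b (l 3) (b (a (l 3) (a (l 3) (b (l 3) (a (l 3) (b (l 3) (a (l 3) (b (l 3) (a (l 3) (l 531712911))))))))) (a (l 3) (a (b (l 3) (a (b (l 3) (a (l 3) (b (l 3) (l 530997903)))) (b (a (l 3) (b (l 3) (l 531611535))) (b (l 531048079) (l 531571343))))) (b (a (b (l 3) (b (a (l 3) (l 531398799)) (a (l 531375503) (l 531669135)))) (b (a (b (l 3) (l 531689359)) (b (b (l 531709583) (l 531442831)) (l 531310735))) (a (l 531692943) (b (l 531716239) (l 531718799))))) (a (b (a (l 531105679) (l 531665807)) (l 531626383)) (a (l 531674143) (b (l 531711375) (l 531686031))))))))))) (b (l 3) (b (l 3) (b (l 3) (b (a (l 3) (b (l 3) (a (l 3) (a (l 3) (b (l 3) (a (l 3) (a (l 3) (b (l 3) (l 531704719))))))))) (a (l 3) (b (a (l 3) (b (a (l 3) (a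 (b (l 3) (c (l 531703695) (l 531687567))) (b (a (a (b (l 3) (l 531703183)) (l 531705231)) (l 531710607)) (c (l 531720335) (a (l 531696783) (l 531702671)))))) (a (b (a (l 3) (l 531688335)) (a (l 531677583) (l 531692943))) (a (l 531437199) (a (l 531448207) (l 531723919)))))) (a (b (a (l 3) (b (l 3) (l 531661455))) (a (b (l 3) (l 531634319)) (l 531398031))) (a (b (l 531422863) (l 531699087)) (a (l 531181967) (b (l 531729807) (l 531738511)))))))))))), by decide +kernel⟩

def k24_A00pm_102_s1 : ∃ t, chk3 f_A00pm_102_s1 t 26 8 2 = true :=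
  ⟨(l 3), by decide +kernel⟩

def k25_A00pm_102_s1 : ∃ t, chk3 f_A00pm_102_s1 t 26 18 2 = true :=
  ⟨(l 3), by decide +kernel⟩

def k26_A00pm_102_s1 : ∃ t, chk3 f_A00pm_102_s1 t 26 38 2 = true :=
  ⟨(a (l 3) (b (l 3) (b (a (l 3) (l 531705231)) (a (a (l 3) (b (l 3) (l 531732879))) (l 531711887))))), by decide +kernel⟩

def k27_A00pm_102_s1 : ∃ t, chk3 f_A00pm_102_s1 t 26 78 2 = true :=
  ⟨(a (a (b (l 3) (b (a (l 3) (b (a (l 3) (l 531476367)) (l 531744143))) (a (b (l 531457935) (l 531730063)) (l 531750799)))) (b (a (b (l 3) (b (l 3) (c (l 531620239) (l 531751567)))) (c (b (a (l 3) (a (l 3) (l 531766671))) (a (b (b (b (l 3) (b (l 3) (l 531766159))) (l 531767951)) (l 531772047)) (b (c (b (c (b (l 531770767) (l 531839375)) (l 531772047)) (a (l 531676959) (l 531774607))) (b (a (c (l 531638927) (l 531637647)) (l 531769743)) (a (l 531643535) (l 531773583)))) (a (l 531582863) (l 531647007))))) (b (a (l 3) (a (l 3) (l 531756175))) (a (b (b (a (l 3) (c (l 531763343) (l 531754639))) (l 531760527)) (l 531765647))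 (b (c (b (a (c (l 531501199) (l 531497615)) (l 531763855)) (a (l 531773583) (l 531767951))) (b (b (l 531755407) (l 531555471)) (a (l 531764879) (l 531757967)))) (a (l 531777167) (l 531771279))))))) (b (a (c (l 531761551) (l 531760783)) (a (l 531779727) (c (b (l 531790479) (l 531794063)) (l 531788431)))) (a (l 531773071) (c (l 531777423) (l 531790479)))))) (b (b (a (c (l 531752079) (l 531731855)) (l 531717007)) (a (c (a (b (b (l 531762319) (l 531764879)) (a (l 531775119) (l 531767183))) (b (l 531751055) (l 531756687))) (a (b (b (l 531745423) (l 531747727)) (a (l 531761295) (l 531748239))) (b (l 531725455) (l 531731343)))) (c (l 531738511) (l 531432335)))) (b (a (a (c (a (l 531787919) (l 531780495)) (b (l 531764623) (l 531774863))) (c (l 531768463) (l 531744399))) (a (l 531741839) (l 531727759))) (a (a (c (l 531799695) (l 531788943)) (l 531509391)) (l 531750031))))), by decide +kernel⟩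

def k28_A00pm_102_s1 : ∃ t, chk3 f_A00pm_102_s1 t 26 79 2 = true :=
  ⟨(a (b (a (b (b (l 531744911) (l 531748495)) (b (l 531751823) (l 531754895))) (b (a (l 531781775) (l 531804303)) (l 531800463))) (a (b (l 531744655) (l 531720335)) (l 531777935))) (b (a (a (a (l 531819407) (l 531817871)) (l 531805327)) (a (l 531785359) (l 16764360))) (a (b (l 531830671) (l 16763336)) (l 531808911)))), by decide +kernel⟩

def k29_A00pm_102_s1 : ∃ t, chk3 f_A00pm_102_s1 t 27 4 2 = true :=
  ⟨(b (l 3) (b (b (l 3) (a (l 3) (b (l 3) (a (l 3) (b (l 3) (c (l 531688079) (l 531656335))))))) (b (b (a (a (b (l 3) (c (l 531696271) (l 531667599))) (l 531942175)) (a (l 531676559) (b (l 531693967) (l 531692687)))) (a (a (b (a (l 531693455) (l 531687823)) (l 531695247)) (b (l 531683471) (l 531687567))) (b (a (l 531685775) (l 531697551)) (a (l 531689103) (l 531700367))))) (b (a (b (a (b (l 531699343) (l 531702671)) (l 531691919)) (a (l 531717519) (l 531704719))) (b (a (l 531692831) (a (l 16752832) (l 16750320))) (a (l 16751360)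 (a (l 16747664) (l 16745152))))) (a (b (a (l 531745679) (l 16751064)) (a (l 16750688) (l 16746000))) (b (a (l 16741000) (a (l 16742544) (l 16740032))) (a (l 16735920) (a (l 16726968) (b (l 16736208) (l 16733664)))))))))), by decide +kernel⟩

def k30_A00pm_102_s1 : ∃ t, chk3 f_A00pm_102_s1 t 26 4 3 = true :=
  ⟨(b (l 3) (b (l 3) (b (a (l 3) (b (l 3) (b (a (l 3) (l 531631247)) (a (c (a (l 3) (l 531683471)) (l 531381391)) (l 531081615))))) (b (a (a (b (l 3) (b (a (l 3) (l 531778447)) (b (l 531714959) (l 531721359)))) (b (a (b (l 3) (b (l 3) (l 531712655))) (a (b (l 3) (b (b (b (l 3) (b (l 3) (l 531713167))) (l 531715727)) (l 531721871))) (a (b (l 3) (c (b (c (b (l 531744911) (l 531751567)) (b (l 531726479) (l 531733647))) (l 531751567)) (b (b (a (l 531822879) (l 531689615)) (l 531698831)) (l 531708047)))) (b (c (l 531728527) (l 531683727)) (c (b (b (l 531729551) (l 531734159)) (l 531743119)) (b (b (l 531682447) (l 531687055)) (l 531696783))))))) (a (b (l 531724175) (l 531738255)) (a (l 531472527) (b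 (a (l 531738255) (l 531739791)) (l 531753871)))))) (b (b (a (c (l 531694735) (l 531640719)) (l 531611535)) (a (c (a (b (b (l 531710351) (l 531712399)) (a (l 531729039) (l 531711119))) (b (l 531681679) (l 531687311))) (a (b (b (l 531657871) (l 531659151)) (l 531666831)) (l 531890463))) (c (l 531644815) (l 531570575)))) (a (b (a (b (a (l 531719823) (l 531697551)) (l 531451535)) (c (l 531701391) (l 531639695))) (a (l 531065887) (l 531697039))) (c (b (l 531656335) (l 531674511)) (b (l 531581071) (l 531600015)))))) (a (b (a (b (b (l 531727503) (l 531733391)) (b (l 531739023) (l 531744143))) (b (a (l 531751311) (l 531764367)) (l 531769487))) (a (b (l 531751823) (l 531761039)) (l 531248671))) (b (a (b (a (l 531760271) (l 531722383)) (l 531758735)) (b (l 531392399) (l 531683471))) (a (b (l 531777423) (l 16763248)) (l 531716751)))))))), by decide +kernel⟩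

def k31_A00pm_102_s1 : ∃ t, chk3 f_A00pm_102_s1 t 27 4 3 = true :=
  ⟨(b (l 3) (b (b (l 3) (a (l 3) (b (l 3) (a (l 3) (b (l 3) (a (l 531611791) (c (l 531626639) (l 531590287)))))))) (b (b (a (a (c (l 531634207) (l 531593359)) (l 531823135)) (b (a (l 531583631) (l 532237455)) (a (l 531561359) (l 531557007)))) (a (a (b (a (l 531598991) (l 531580815)) (l 531305615)) (b (l 531021711) (l 531272591))) (b (a (b (l 531545231) (l 531534735)) (l 531532943)) (a (l 531252111) (l 530706831))))) (b (a (b (a (b (l 531565199) (l 531561359)) (l 530722959)) (a (a (l 531317647) (l 16759168)) (l 16758096))) (b (a (a (l 16757072) (l 531234191)) (b (l 531499663) (l 531224719))) (a (a (l 16741184) (l 16738592)) (a (l 16735952) (l 16733280))))) (a (b (a (l 531604879) (l 16750192)) (a (l 16749992) (l 16734496))) (b (a (a (l 16746352) (l 16743728)) (a (l 16741072) (l 16727896))) (a (b (l 16730592) (l 16727976)) (a (l 16725280) (b (l 16734376) (l 16731720)))))))))), by decide +kernel⟩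

def k32_A00pm_102_s1 : ∃ t, chk3 f_A00pm_102_s1 t 14 8 1 = true :=
  ⟨(a (l 3) (b (l 3) (b (l 3) (a (l 3) (b (a (l 3) (b (l 3) (c (l 531793039) (l 532113807)))) (a (a (b (l 3) (c (l 531479695) (l 531587215))) (b (c (l 531358863) (c (l 531686543) (l 531731343))) (c (b (l 531577743) (l 531540111)) (c (l 531624847) (l 531405711))))) (a (b (c (l 531704463) (l 531768207)) (c (l 530830479) (c (l 531687823) (l 531459471)))) (b (c (l 531508623) (l 531824783)) (c (l 531169679) (b (l 531778447) (l 531744399))))))))))), by decide +kernel⟩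

def k33_A00pm_102_s1 : ∃ t, chk3 f_A00pm_102_s1 t 15 16 1 = true :=
  ⟨(a (a (l 3) (b (l 3) (b (l 3) (a (l 3) (a (l 3) (b (l 3) (a (b (l 3) (c (l 532325007) (l 532356239))) (b (l 532364687) (l 532353679))))))))) (a (b (l 14) (a (b (l 14) (a (a (b (l 14) (b (l 14) (l 532367247))) (l 14)) (l 14))) (l 14))) (l 14))), by decide +kernel⟩

def k34_A00pm_102_s1 : ∃ t, chk3 f_A00pm_102_s1 t 30 34 1 = true :=
  ⟨(a (b (l 3) (a (l 3) (a (b (l 3) (c (l 532091535) (l 532103823))) (b (c (l 532158863) (l 532171663)) (c (l 532147343) (l 532149903)))))) (a (a (b (a (l 3) (b (l 3) (b (l 3) (l 532228495)))) (b (c (l 532497295) (l 532697119)) (c (l 532198031) (l 532192399)))) (a (b (b (l 3) (b (l 532253327) (l 532243343))) (b (b (l 532236943) (l 532237199)) (l 532561951))) (b (c (b (l 532275599) (l 532258703)) (b (l 532299663) (l 532273295))) (b (b (l 532249999) (l 532247695)) (l 532575119))))) (b (a (a (c (b (l 532288911) (l 532271759)) (b (l 532313487) (l 532286863))) (c (b (l 532302479) (l 532284815)) (b (l 532327055)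 (l 532300175)))) (a (b (b (l 532328847) (l 532317839)) (b (l 532306831) (l 532295823))) (b (b (l 532610959) (l 532331407)) (b (l 532320143) (l 532309135))))) (c (c (c (a (b (l 532263055) (l 532258447)) (b (l 532284815) (b (l 16761328) (l 16759072)))) (a (b (l 532263567) (l 532256399)) (b (l 532285583) (b (l 16761328) (l 16759064))))) (c (a (b (l 532264335) (l 532254351)) (b (l 532286863) (b (l 16761320) (l 16759056)))) (a (b (l 532265359) (l 532252303)) (a (l 532286095) (b (l 532295823) (l 16759280)))))) (c (a (b (l 532267151) (l 532249487)) (b (a (l 532285839) (l 532298383)) (a (l 532264591) (a (l 16759704) (l 16758816))))) (c (a (b (l 532269455) (l 532247183)) (a (l 532287119) (a (l 532296079) (b (l 16763400) (l 16758808))))) (b (a (l 532271247) (b (l 532568207) (l 16763624))) (a (l 532245647) (a (l 16761072) (b (l 16755160) (l 16752848))))))))))), by decide +kernel⟩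

def k35_A00pm_102_s1 : ∃ t, chk3 f_A00pm_102_s1 t 60 35 1 = true :=
  ⟨(b (a (a (b (l 532223119) (l 532182671)) (b (l 532349071) (l 532240527))) (c (b (a (l 531796879) (l 532120207)) (a (l 531754639) (l 531808399))) (b (a (l 532071823) (l 532117135)) (a (l 531760271) (l 531536271))))) (a (b (c (l 531873679) (a (l 531878031) (l 531659407))) (b (a (l 531809423) (l 531596175)) (c (l 530705295) (a (l 531795855) (l 531843983))))) (b (c (a (l 531964303) (l 531748239)) (a (l 531705999) (l 531480463))) (b (a (l 531378831) (l 531425423)) (c (l 531888527) (a (l 531620239) (l 531929743))))))), by decide +kernel⟩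

def k36_A00pm_102_s1 : ∃ t, chk3 f_A00pm_102_s1 t 61 35 1 = true :=
  ⟨(b (b (c (a (a (l 532169871) (l 532210575)) (a (l 532232847) (a (b (l 16752392) (l 16755104)) (b (b (l 16756216) (l 16744304)) (l 16752560))))) (a (a (l 532158607) (l 532462735)) (a (b (l 532224911) (l 16757944)) (a (b (c (l 16757600) (l 16752336)) (b (l 16750520) (l 16749112))) (b (a (l 16756088) (l 16749560)) (l 16752424)))))) (a (c (a (l 532125327) (l 532165519)) (a (l 532113807) (l 532148879))) (a (a (b (l 532188815) (b (l 16754656) (l 16748152))) (a (b (c (l 16755176) (l 16755096)) (c (l 16752440) (l 16747080))) (b (c (l 16743640) (l 16748792)) (l 16751096)))) (a (b (a (l 16747592) (l 16751480)) (l 16743800)) (b (l 16744136) (l 16746264)))))) (a (b (a (b (l 531538063) (l 531370271)) (a (a (l 531548559) (b (l 16754696) (l 16752168))) (a (b (l 16753808) (l 16745944)) (b (l 16747672) (l 16744776))))) (a (b (c (l 16747432) (l 532005263)) (a (l 531685775) (b (l 16744576) (a (l 16748920) (l 16747824))))) (a (b (c (l 16749888)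 (l 16744608)) (c (l 16746832) (l 16746760))) (b (l 16747512) (l 16744304))))) (b (a (a (b (a (l 16746592) (l 16750608)) (l 16748112)) (b (l 16743376) (l 16745464))) (c (b (l 16744704) (l 16741624)) (b (l 16744368) (l 16741208)))) (c (a (b (l 16743768) (l 16740632)) (l 16737000)) (a (b (l 16743480) (l 16740272)) (c (l 16736600) (l 16736336))))))), by decide +kernel⟩

def k37_A00pm_102_s1 : ∃ t, chk3 f_A00pm_102_s1 t 62 34 1 = true :=
  ⟨(b (a (a (a (b (b (l 532356239) (l 532344975)) (c (l 532324751) (l 532608911))) (b (b (l 532369807) (l 532358543)) (b (l 532347279) (l 532336015)))) (a (c (c (b (l 532364431) (b (l 16763928) (l 16761696))) (b (l 532375951) (b (l 16763952) (l 16761720)))) (b (c (l 532388751) (l 532671631)) (b (l 532370575) (b (l 16762296) (l 16761176))))) (b (l 14) (b (a (c (l 16762552) (l 16762608)) (l 14)) (a (b (a (l 16755864) (l 16760496)) (l 16759344)) (b (l 16754160) (l 16757848))))))) (a (b (l 14) (a (b (l 14) (c (l 16751088) (b (l 14) (l 16755504)))) (l 14))) (l 14))) (a (a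 (b (a (c (l 532306063) (l 532312719)) (a (b (l 16761760) (c (l 16759472) (l 16759488))) (b (l 16760832) (b (l 16759048) (l 16752368))))) (a (b (a (l 532287119) (b (l 16753440) (l 16752120))) (a (b (l 16751968) (l 16755768)) (l 16749880))) (a (b (a (l 16757088) (l 16751168)) (l 16753664)) (b (l 16750064) (l 16752192))))) (a (b (b (a (b (c (l 16760464) (l 16755264)) (l 16759168)) (b (l 16759272) (l 16757768))) (c (l 16750960) (c (l 16750928) (l 16750912)))) (b (c (l 16753136) (l 16753024)) (l 16749976))) (b (c (b (l 16751048) (l 16753224)) (b (b (l 16757040) (l 16755472)) (l 16753112))) (b (l 16750064) (l 16746984))))) (b (b (a (a (c (l 16753256) (l 16753152)) (l 16750096)) (l 14)) (a (a (l 16750112) (l 16747016)) (c (l 16742480) (l 16742136)))) (c (a (a (l 16745640) (l 16742600)) (l 16737976)) (a (a (l 16745352) (l 16742240)) (a (l 16739104) (l 16735920))))))), by decide +kernel⟩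

def k38_A00pm_102_s1 : ∃ t, chk3 f_A00pm_102_s1 t 62 35 1 = true :=
  ⟨(a (a (b (b (b (a (l 16747496) (l 16749824)) (a (c (l 16749736) (l 16749528)) (l 16746736))) (c (b (l 16745264) (l 16742224)) (b (l 16744936) (l 16741808)))) (c (b (l 16737672) (l 16731608)) (b (l 16742368) (l 16730888)))) (c (b (b (l 16749280) (l 16738008)) (b (l 16732008) (l 16726040))) (b (b (a (l 16745192) (l 16742184)) (a (l 16738976) (l 16735992))) (b (l 16731304) (l 16725144))))) (a (b (b (c (l 16738096) (l 16742848)) (c (l 16732112) (l 16731448))) (b (c (l 16726192) (l 16725336)) (c (l 16720296) (l 16719232)))) (b (c (b (l 16732008) (l 16726088)) (b (l 16731376) (l 16725280))) (b (l 16724952) (c (l 16714400) (l 16713184)))))), by decide +kernel⟩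

def k39_A00pm_102_s1 : ∃ t, chk3 f_A00pm_102_s1 t 63 17 1 = true :=
  ⟨(b (a (b (l 14) (b (l 14) (a (c (l 16731680) (l 16736320)) (l 14)))) (l 14)) (a (b (b (a (c (l 16725776) (l 16725000)) (c (l 16719392) (l 16718472))) (a (c (l 16719920) (l 16718960)) (c (l 16713608) (l 16712488)))) (b (a (l 16713528) (l 16707200)) (c (a (l 16708352) (l 16702160)) (a (l 16706976) (l 16700624))))) (b (a (b (l 14) (l 16711744)) (l 14)) (a (c (l 16709128) (b (l 16699984) (l 16694128))) (c (l 16702616) (b (l 16693272) (l 16687488))))))), by decide +kernel⟩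

def k40_A00pm_102_s1 : ∃ t, chk3 f_A00pm_102_s1 t 28 18 1 = true :=
  ⟨(b (b (l 3) (a (l 3) (c (b (a (l 3) (l 531588751)) (a (l 531616911) (l 531654031))) (b (a (l 3) (l 531666831)) (a (l 531670671) (l 531729551)))))) (b (a (a (l 3) (b (c (l 531635087) (l 531657359)) (l 532074383))) (b (c (a (l 531660175) (l 531698831)) (a (a (l 531429263) (l 531457935)) (l 532039823))) (c (a (l 531688079) (l 531996447)) (a (c (l 531454607) (l 531477903)) (c (l 531778447) (l 531812751)))))) (a (a (b (l 531654799) (c (b (l 531672719) (l 531679375)) (b (l 531642255) (l 531634319)))) (b (l 531953439) (b (l 531688847) (l 531957135)))) (b (a (c (l 531838863) (a (l 531462799) (l 531491727))) (c (l 532013711) (c (l 531790735) (l 531820943)))) (b (a (c (l 531712143) (l 531744911)) (c (l 531752847) (l 531940239))) (a (c (l 531715727) (l 531741327)) (c (l 531756431) (l 531802255)))))))), by decide +kernel⟩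

def k41_A00pm_102_s1 : ∃ t, chk3 f_A00pm_102_s1 t 29 36 1 = true :=
  ⟨(a (b (a (b (l 3) (c (l 531542159) (l 531907727))) (a (a (b (l 3) (b (c (l 531546767) (l 531652239)) (l 531119247))) (b (c (l 531425679) (l 531549839)) (c (b (l 531050639) (l 531644559)) (c (l 531694735) (l 531742863))))) (b (c (l 531493007) (l 530795407)) (c (b (l 531656079) (l 531726479)) (b (l 530930575) (l 531798927)))))) (a (c (b (l 531637391) (l 531705231)) (b (l 531730575) (l 532063631))) (b (a (a (l 531993631) (b (l 531996047) (l 531767439))) (c (b (l 531765135) (l 531792783)) (c (l 532110223) (l 532281999)))) (c (a (l 531756687) (l 532097935)) (a (l 532119695) (c (l 531890319) (l 531931535))))))) (b (b (a (c (c (l 531601551) (l 531636879)) (c (l 531675535) (l 531986319))) (c (a (l 531736975) (l 531808655)) (a (c (l 531773839) (l 531533199)) (l 532111503)))) (b (a (a (l 532045711) (l 531851919)) (a (l 532190351) (l 532121743))) (a (a (l 532119183) (l 532198799)) (c (l 532307343) (a (l 532005263) (l 532064655)))))) (a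 (a (b (c (l 531896719) (c (l 531930255) (l 531951759))) (c (l 532211343) (c (l 531981455) (l 532006031)))) (b (c (l 532001167) (c (l 532014223) (l 532020879))) (c (l 532597647) (c (l 532075151) (l 532081807))))) (a (b (c (l 532094863) (c (l 532090511) (l 532084111))) (c (b (l 16752432) (l 16752496)) (c (l 532161167) (l 532453919)))) (c (b (l 532717199) (b (l 16751784) (l 16749152))) (b (c (l 532160143) (l 532142735)) (b (l 532548239) (c (l 16749856) (l 532229263))))))))), by decide +kernel⟩

def k42_A00pm_102_s1 : ∃ t, chk3 f_A00pm_102_s1 t 29 74 1 = true :=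
  ⟨(a (a (b (c (l 531751823) (c (l 531816079) (l 531860367))) (c (l 532050319) (c (l 531842703) (l 531883663)))) (a (b (c (l 531803791) (l 532162959)) (c (l 531834511) (c (l 531898255) (l 531941519)))) (b (c (l 532271247) (c (l 531929231) (l 531969935))) (c (b (l 531889295) (l 531899535)) (b (l 532236175) (l 531975311)))))) (c (a (a (b (l 532369807) (b (l 16748360) (l 16745960))) (b (b (l 16750520) (l 16748176)) (b (l 16745808) (l 16743376)))) (a (b (b (l 16749960) (l 16744840)) (b (l 16742360) (l 16739904))) (a (b (l 16743488) (b (l 16742320) (a (l 16740344) (l 16739688)))) (b (l 16741760) (b (c (l 16740424) (l 16741072)) (l 16738920)))))) (a (a (b (c (l 532009871) (l 532037263)) (b (l 532306063) (a (l 16749584) (l 16745616)))) (b (c (l 532103311) (l 532381327)) (c (l 532381583) (b (l 532123023) (l 532126095))))) (b (a (c (l 532586639) (c (l 532190607) (l 532185487))) (c (b (l 16747336) (l 16744848)) (b (l 532249999) (l 532521103)))) (a (a (b (l 16744016) (l 532317071)) (c (l 532159375) (l 532420895)))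 (c (b (a (l 16743240) (a (l 16742024) (l 16741432))) (b (a (l 16741488) (l 16740408)) (a (l 16740560) (l 16739208)))) (b (a (l 16738656) (a (b (l 16743280) (l 16742192)) (b (l 16742568) (l 16741416)))) (a (a (b (l 16742544) (l 16741352)) (b (l 16741832) (l 16740448))) (l 16739680))))))))), by decide +kernel⟩

def k43_A00pm_102_s1 : ∃ t, chk3 f_A00pm_102_s1 t 58 75 1 = true :=
  ⟨(a (b (c (c (l 531781775) (l 531818383)) (c (l 531854991) (l 532093471))) (c (b (l 532076687) (l 532012943)) (b (a (l 531588495) (l 531557007)) (a (l 531584911) (l 531620495))))) (a (c (b (l 532155023) (b (l 16744088) (l 16741608))) (b (c (l 531911055) (l 531949711)) (b (l 532064399) (c (l 16744536) (l 16744736))))) (c (b (b (l 16746200) (l 16743760)) (b (l 16741304) (l 16738848))) (b (c (l 531963023) (l 532132127)) (b (a (l 16745032) (l 16743664)) (c (l 16741768) (a (l 16737408) (l 531733135)))))))), by decide +kernel⟩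

def k44_A00pm_102_s1 : ∃ t, chk3 f_A00pm_102_s1 t 118 75 1 = true :=
  ⟨(b (c (a (b (l 16743552) (l 16741136)) (b (l 532345231) (a (l 16741896) (l 16740304)))) (c (b (a (l 16746432) (l 532114831)) (a (l 16741392) (a (l 16742080) (l 16740824)))) (b (a (l 532057743) (l 532259983)) (b (a (l 16744784) (l 16739496)) (a (l 16743568) (c (l 16740904) (l 16738312))))))) (a (b (c (l 16738704) (c (l 16738960) (b (l 16742344) (l 16741120)))) (a (c (l 16739520) (l 532070431)) (a (c (l 16738584) (l 16738872)) (b (l 16736096) (c (l 16737344) (l 16734968)))))) (c (b (a (c (l 16739328) (l 16739560)) (b (l 16738616) (l 16737424))) (b (a (l 16734952) (l 16735928)) (a (l 16736136) (l 16734384)))) (c (a (b (c (l 16739640) (l 16739688)) (b (l 16735112) (l 16736272))) (b (b (l 16736320) (l 16737512)) (c (l 16729968) (l 16729976)))) (b (a (c (l 16739736) (l 16737152)) (b (a (l 16734136) (l 16735976)) (a (l 16735392) (l 16737088)))) (a (b (a (c (l 16738208) (l 16738248)) (b (l 16735184) (l 16737056))) (a (c (l 16736800)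 (l 16734208)) (l 16735880))) (b (l 16733384) (l 16734424)))))))), by decide +kernel⟩

def k45_A00pm_102_s1 : ∃ t, chk3 f_A00pm_102_s1 t 119 75 1 = true :=
  ⟨(b (a (c (b (a (l 16740976) (a (l 16739720) (l 16739080))) (a (b (l 16739248) (l 16738336)) (l 16737744))) (a (b (c (l 16741856) (l 16739320)) (c (a (b (l 16740488) (l 16739176)) (l 16736392)) (b (c (l 16737488) (l 16737472)) (a (l 16736552) (l 16738264))))) (c (b (b (l 16740832) (l 16739896)) (l 16737672)) (b (b (c (l 16735968) (l 16738536)) (a (l 16737664) (l 16739384))) (l 16737560))))) (c (b (l 16737848) (l 16735168)) (c (b (l 16737896) (l 16734864)) (a (b (l 16738656) (a (l 16730840) (l 16735096))) (b (c (l 16731504) (l 16731344)) (l 16728368)))))) (c (a (b (l 16735592) (a (l 16733400) (l 16726408))) (b (l 16732120) (c (l 16723920) (l 16723712)))) (a (c (b (l 16735520) (a (l 16728104) (l 16731480))) (b (b (a (a (l 16737680) (l 16736704)) (l 16735232)) (a (l 16735624) (l 16733672))) (a (b (l 16734056) (l 16732480)) (l 16731320)))) (a (c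 (b (l 16732720) (l 16729624)) (b (l 16732488) (l 16729368))) (b (c (l 16730856) (l 16730520)) (l 16727592)))))), by decide +kernel⟩

def k46_A00pm_102_s1 : ∃ t, chk3 f_A00pm_102_s1 t 60 36 1 = true :=
  ⟨(b (b (c (c (a (l 531901071) (a (l 16753880) (l 16750592))) (a (l 531906703) (a (l 16753872) (l 16750560)))) (c (a (a (l 531621263) (l 531673487)) (a (l 16753864) (a (l 16746096) (b (l 16750496) (l 16748776))))) (a (a (l 531364495) (l 531409807)) (a (l 531183759) (a (l 16746072) (b (l 16750504) (l 16748688))))))) (c (b (a (l 532353679) (a (l 16751272) (a (l 16748912) (l 16746984)))) (a (a (l 16755560) (l 16752552)) (a (l 16749560) (l 16745872)))) (a (a (c (l 532090255) (l 532076943)) (b (l 16754264) (l 532171663))) (b (a (l 16751056) (a (l 16748632) (l 16741368))) (a (a (l 16749976) (l 16748424)) (a (l 16741256) (l 16744256))))))) (a (b (a (c (l 532917903) (c (l 532224655) (l 532465807))) (b (c (l 16750704) (l 532237711)) (c (l 16747912) (a (l 16749144) (l 16747680))))) (a (c (b (l 16748472) (l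 16745776)) (c (l 532637327) (c (l 532285327) (l 532266383)))) (c (b (a (l 16745960) (l 16744536)) (a (l 16743440) (l 16742400))) (b (a (l 16741816) (a (l 16740696) (l 16739808))) (a (c (l 16739144) (a (l 16740024) (l 16739088))) (l 16742960)))))) (b (b (a (c (a (l 16748304) (l 16746808)) (a (l 16748104) (c (l 16746424) (l 16740888)))) (c (l 16743688) (l 16742944))) (a (a (c (l 16745736) (c (l 16746096) (l 16740536))) (l 16738976)) (c (l 16741360) (l 16740408)))) (c (a (l 16741920) (l 16737776)) (c (a (l 16741264) (a (l 16727496) (l 16735752))) (a (a (l 16741896) (l 16734392)) (a (l 16732104) (l 16735024)))))))), by decide +kernel⟩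

def k47_A00pm_102_s1 : ∃ t, chk3 f_A00pm_102_s1 t 61 36 1 = true :=
  ⟨(b (b (a (a (a (b (c (l 16748744) (l 16743472)) (c (l 16746864) (l 16741360))) (c (l 16735096) (b (l 16746488) (l 16744216)))) (c (l 16742064) (c (l 16741728) (l 16741496)))) (c (a (l 16737144) (l 16732040)) (a (l 16736448) (l 16731120)))) (a (a (c (l 16732104) (a (l 16737848) (l 16740664))) (c (l 16737960) (a (l 16738208) (l 16735712)))) (a (c (l 16733152) (l 16731888)) (c (l 16728152) (l 16726632))))) (b (a (a (c (l 16738160) (a (l 16732928) (l 16735800))) (c (l 16723168) (a (l 16733384) (l 16730928)))) (c (a (l 16728952) (l 16724064)) (a (l 16727168) (l 16722000)))) (a (a (c (l 16723040) (b (l 16722728) (l 16720160))) (c (l 16718656) (a (l 16728400) (l 16725992)))) (c (a (l 16724560) (l 16719776)) (a (l 16722296) (l 16717216)))))), by decide +kernel⟩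

def k48_A00pm_102_s1 : ∃ t, chk3 f_A00pm_102_s1 t 60 37 1 = true :=
  ⟨(b (a (b (b (a (a (c (l 532050319) (l 16742568)) (c (l 16742440) (a (b (l 16744600) (l 16743440)) (b (l 16743888) (l 16742968))))) (c (l 16740952) (c (l 16741496) (l 16741056)))) (a (a (c (c (l 16741224) (l 16741872)) (a (b (l 16743736) (l 16742592)) (b (l 16743008) (l 16742112)))) (c (l 16740448) (l 16739000))) (c (l 16739144) (c (l 16738744) (l 16738232))))) (c (a (a (l 16736208) (l 16737904)) (c (l 16735520) (l 16735048))) (a (a (c (l 16736840) (b (l 16740608) (l 16737656))) (b (l 16738752) (l 16735840))) (a (b (l 16736696) (l 16728568)) (b (l 16729376) (l 16726512)))))) (c (a (b (l 16736824) (l 16731512)) (b (l 16732808) (l 16727632))) (a (c (b (l 16735944) (a (l 16720984) (l 16729408))) (b (a (l 16731136) (l 16728920)) (b (l 16725808) (l 16728192)))) (b (c (l 16726408) (a (l 16731920) (l 16729640))) (a (b (l 16728224) (l 16725440)) (b (l 16726040) (l 16723280))))))) (a (c (b (a (c (l 16733336) (l 16732992)) (a (l 16730536)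 (l 16728736))) (a (b (l 16728704) (a (l 16726504) (l 16724816))) (b (l 16720016) (a (l 16723120) (l 16721416))))) (a (b (b (c (l 16734088) (a (l 16729416) (l 16732624))) (a (c (l 16732040) (l 16731616)) (l 16724640))) (b (c (l 16722816) (l 16730168)) (a (l 16725680) (l 16723768)))) (b (a (b (l 16725632) (l 16727904)) (b (l 16728848) (l 16725904))) (b (a (l 16724896) (l 16722920)) (c (l 16721240) (l 16720464)))))) (c (b (a (a (l 16726912) (l 16714584)) (a (l 16712712) (l 16710808))) (a (a (l 16710664) (l 16708888)) (a (l 16717568) (l 16715736)))) (b (a (b (a (l 16726800) (l 16724720)) (a (l 16723880) (l 16721824))) (b (l 16726792) (l 16718688))) (a (b (c (l 16720392) (l 16719400)) (l 16716920)) (c (l 16714952) (l 16713688))))))), by decide +kernel⟩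

def k49_A00pm_102_s1 : ∃ t, chk3 f_A00pm_102_s1 t 61 37 1 = true :=
  ⟨(a (b (a (b (c (l 16718200) (a (l 16717376) (l 16725576))) (c (l 16713152) (a (l 16722464) (l 16720224)))) (b (c (l 16713936) (c (l 16722696) (l 16721440))) (c (l 16709016) (c (l 16717520) (l 16716064))))) (c (b (a (a (l 16719360) (l 16717400)) (l 16703888)) (a (a (l 16713872) (l 16711976)) (l 16709048))) (a (b (a (l 16716904) (l 16714720)) (c (l 16710880) (l 16709360))) (b (c (l 16712168) (l 16710552)) (l 16705792))))) (b (b (c (a (l 16719960) (l 16715296)) (a (l 16717264) (l 16712272))) (c (a (l 16715160) (l 16710616)) (a (l 16712088) (l 16707184)))) (c (a (b (l 16710168) (l 16704968)) (b (l 16705744) (l 16700680))) (a (b (l 16706752) (l 16701272)) (b (l 16701952) (l 16696568)))))), by decide +kernel⟩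

def k50_A00pm_102_s1 : ∃ t, chk3 f_A00pm_102_s1 t 62 18 1 = true :=
  ⟨(b (b (a (a (b (c (l 16726752) (l 16725616)) (c (l 16722960) (l 16721216))) (b (c (l 16721280) (l 16719952)) (c (l 16717584) (l 16715624)))) (a (b (c (l 16715632) (l 16714120)) (c (l 16712024) (l 16709864))) (b (c (l 16709800) (l 16708120)) (c (l 16706272) (l 16703928))))) (a (a (b (c (l 16718976) (l 16716656)) (c (l 16714800) (l 16711960))) (b (c (l 16713704) (l 16711144)) (c (l 16709632) (l 16706528)))) (a (b (c (l 16708232) (l 16705464)) (c (l 16704264) (l 16700920))) (c (l 16700664) (b (l 16699600) (l 16695136)))))) (a (b (c (a (b (l 16710432) (l 16705872)) (b (l 16705368) (l 16700920))) (a (b (l 16707104) (l 16702112)) (b (l 16701760) (l 16696856)))) (c (b (a (l 16701120) (l 16696288)) (a (l 16696176) (l 16691464))) (a (b (l 16696968) (l 16691680)) (b (l 16691800) (l 16686608))))) (c (b (a (l 16697968) (b (l 16694648) (l 16690416))) (a (b (l 16691248) (l 16686544)) (b (l 16686008) (l 16681416)))) (b (a (b (l 16696240) (l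 16691416)) (b (l 16690536) (l 16685800))) (a (b (l 16686456) (l 16681352)) (b (l 16680920) (l 16675912))))))), by decide +kernel⟩

def k51_A00pm_102_s1 : ∃ t, chk3 f_A00pm_102_s1 t 63 18 1 = true :=
  ⟨(b (c (a (b (a (b (l 16703816) (l 16700344)) (b (l 16697672) (l 16694256))) (a (l 16694864) (l 16688872))) (b (a (l 16689720) (l 16683312)) (a (l 16682712) (l 16676392)))) (a (b (b (a (l 16701976) (l 16695672)) (a (l 16697832) (l 16691576))) (a (b (l 16693568) (l 16689176)) (b (l 16687368) (l 16683048)))) (b (a (b (l 16689224) (l 16685160)) (b (l 16682632) (l 16678608))) (a (b (l 16681008) (l 16676736)) (b (l 16674480) (l 16670264)))))) (a (c (b (a (l 16686952) (l 16681144)) (a (l 16673104) (l 16672744))) (b (a (b (l 16684656) (l 16680000)) (b (l 16678592) (l 16674016))) (a (b (l 16675208) (l 16670288)) (b (l 16669312) (l 16664480))))) (c (b (a (l 16675144) (l 16668944)) (a (l 16666944) (l 16660936))) (b (a (b (l 16672360) (l 16667856)) (b (l 16665936) (l 16661512))) (a (b (l 16663232) (l 16658488))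 (b (l 16656968) (l 16652304))))))), by decide +kernel⟩

def k52_A00pm_102_s1 : ∃ t, chk3 f_A00pm_102_s1 t 56 38 1 = true :=
  ⟨(b (a (b (c (a (l 531689871) (l 531690383)) (a (l 531871631) (l 531629199))) (c (l 532237455) (a (l 531570319) (l 531596175)))) (b (c (l 531697551) (l 532005663)) (c (l 532110223) (c (l 531659407) (l 531619727))))) (a (a (b (c (l 531708815) (l 531006607)) (c (l 16752936) (l 530983311))) (b (c (l 531712143) (l 531027087)) (c (l 16750312) (l 530732431)))) (a (b (c (l 531714959) (l 531056015)) (c (l 531721871) (b (l 16742840) (l 16745336)))) (b (c (l 531720079) (l 531087759)) (c (c (l 16745072) (l 16744720)) (b (l 16740192) (l 16737448))))))), by decide +kernel⟩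

def k53_A00pm_102_s1 : ∃ t, chk3 f_A00pm_102_s1 t 57 38 1 = true :=
  ⟨(c (b (b (a (a (l 531714959) (l 531730831)) (a (l 531750799) (l 531774351))) (a (a (l 531722639) (l 531737487)) (a (b (l 16748072) (l 16745520)) (b (l 16745248) (l 16742704))))) (b (a (c (a (l 16747360) (l 16744552)) (a (l 16747184) (l 16744424))) (a (b (l 16742968) (l 16740416)) (b (l 16740160) (a (l 16733072) (l 16731664))))) (b (a (a (l 16743424) (l 16740648)) (a (l 16732616) (a (l 16730520) (l 16729120)))) (a (a (l 16740864) (l 16732848)) (c (a (l 16735416) (l 16727360)) (a (l 16729936) (l 16727176))))))) (b (b (a (a (l 531713423) (l 531743631)) (a (l 531842191) (b (l 531544207) (l 531534735)))) (a (a (l 531821199) (b (l 531457167) (l 531443599))) (a (b (l 531489679) (l 531476879)) (b (l 531523727) (c (l 16737472) (l 16737448)))))) (a (a (b (b (l 16742960) (l 16740256)) (b (l 16737536) (l 16734792))) (b (b (l 531429519) (l 16737568)) (b (l 16734856) (l 16732136)))) (c (c (a (b (l 531472271) (l 531458591)) (b (a (l 16734248)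 (l 16732872)) (b (l 16734864) (l 16726992)))) (a (b (l 531462031) (b (l 16737480) (l 16734792))) (b (a (l 16739440) (l 16732824)) (b (l 16734760) (l 16726856))))) (a (b (b (l 16742720) (l 16740000)) (b (l 16737264) (l 16734512))) (b (b (l 16734768) (l 16737304)) (b (l 16729344) (b (l 16732544) (l 16725936))))))))), by decide +kernel⟩

def k54_A00pm_102_s1 : ∃ t, chk3 f_A00pm_102_s1 t 112 39 1 = true :=
  ⟨(b (a (b (b (l 16743280) (l 16740624)) (b (l 16737968) (l 16735336))) (b (c (l 16745144) (a (l 16739296) (l 16737968))) (c (l 16734752) (b (l 16739760) (l 16737040))))) (c (c (a (b (l 16737840) (l 16727544)) (b (l 16730016) (a (l 16725616) (b (l 16730816) (c (l 16723256) (l 16722832)))))) (a (b (l 16726600) (l 16726688)) (b (l 16729224) (a (l 16724728) (b (l 16729928) (l 16722112)))))) (c (b (a (l 16736184) (l 16723032)) (a (l 16720416) (b (l 16729544) (a (l 16727576) (l 16726232))))) (b (a (l 16735136) (l 16732424)) (a (l 16729704) (b (l 16728320) (l 16720368))))))), by decide +kernel⟩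

def k55_A00pm_102_s1 : ∃ t, chk3 f_A00pm_102_s1 t 113 78 1 = true :=
  ⟨(a (b (c (l 16737232) (a (l 16736632) (l 16735312))) (c (l 16732096) (a (l 16731160) (l 16729832)))) (b (c (b (l 16741048) (l 16738488)) (b (l 16739936) (l 16737184))) (c (b (l 16735928) (a (l 16734048) (l 16732696))) (b (l 16734448) (l 16726480))))), by decide +kernel⟩

def k56_A00pm_102_s1 : ∃ t, chk3 f_A00pm_102_s1 t 113 79 1 = true :=
  ⟨(b (a (c (c (b (l 16733880) (l 16726112)) (b (l 16733096) (l 16730520))) (b (l 16731664) (a (l 16729632) (l 16728296)))) (a (c (c (b (l 16731864) (l 16729344)) (l 16724560)) (b (l 16729664) (l 16726960))) (b (c (l 16724904) (l 16728344)) (b (c (c (l 16723376) (l 16727808)) (l 16726312)) (c (a (c (b (l 16728016) (l 16724744)) (l 16726848)) (c (b (l 16724680) (l 16726560)) (l 16726080))) (a (l 16725280) (l 16727136))))))) (a (b (b (c (c (l 16729464) (l 16728576)) (l 16726936)) (b (c (c (l 16723280) (l 16727616)) (l 16728552)) (c (a (l 16728112) (a (l 16721872) (c (l 16724224) (l 16725928))))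 (a (l 16725928) (l 16727184))))) (c (a (b (c (c (l 16727808) (l 16727384)) (l 16726664)) (c (a (c (l 16724208) (l 16726400)) (b (l 16726224) (l 16725456))) (a (l 16725656) (l 16724864)))) (c (b (a (b (l 16724280) (l 16726168)) (l 16725712)) (c (l 16724784) (l 16724336))) (b (a (l 16725576) (l 16724760)) (l 16723576)))) (a (b (l 16727536) (a (l 16723856) (l 16723048))) (b (a (l 16723824) (l 16722992)) (l 16721752))))) (c (b (a (b (a (c (l 16722552) (l 16726912)) (c (c (l 16724640) (l 16726856)) (b (l 16726552) (l 16725832)))) (c (a (b (c (l 16724368) (l 16726576)) (l 16726032)) (l 16725560)) (l 16725048))) (b (a (b (c (l 16724024) (l 16725776)) (l 16725440)) (l 16724960)) (l 16726424))) (a (b (a (l 16724392) (l 16723520)) (l 16722352)) (l 16726632))) (b (a (b (a (l 16725272) (l 16727168)) (l 16725968)) (b (l 16723296) (l 16721616))) (l 16725200))))), by decide +kernel⟩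

def k57_A00pm_102_s1 : ∃ t, chk3 f_A00pm_102_s1 t 114 78 1 = true :=
  ⟨(b (c (b (a (l 16738304) (a (l 16730984) (l 16729592))) (a (c (l 16735984) (l 16730240)) (c (l 16727944) (l 16727504)))) (b (a (l 16732048) (a (l 16735312) (l 16733984))) (a (a (l 16735208) (l 16733888)) (a (l 16732576) (l 16731256))))) (c (b (b (a (l 16733832) (a (l 16726520) (l 16725136))) (a (l 16727312) (a (l 16725248) (a (l 16729456) (c (l 16729000) (l 16728488)))))) (c (a (l 16725720) (a (b (l 16729504) (a (l 16728600) (a (l 16725416) (l 16727616)))) (b (a (a (l 16728624) (l 16725616)) (b (l 16727976) (l 16727208))) (l 16729112)))) (a (l 16725056) (a (b (l 16728912) (a (l 16727960) (b (l 16727576) (l 16726832)))) (b (a (a (l 16728048) (l 16727672)) (l 16727032)) (l 16725880)))))) (c (a (b (l 16732200) (l 16729520)) (b (a (l 16730200) (b (l 16729544) (l 16728208))) (a (b (l 16728200) (a (l 16727192) (l 16726440))) (b (a (l 16727168) (l 16726368)) (l 16725152))))) (b (a (l 16731392) (a (l 16729456) (b (l 16728864) (l 16727472))))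 (a (l 16728616) (a (b (l 16727368) (a (l 16726296) (l 16725568))) (b (a (l 16726368) (l 16725592)) (l 16724312)))))))), by decide +kernel⟩

def k58_A00pm_102_s1 : ∃ t, chk3 f_A00pm_102_s1 t 115 78 1 = true :=
  ⟨(b (a (b (c (c (l 16727648) (l 16727344)) (c (l 16726968) (l 16726512))) (b (c (c (l 16725768) (l 16725408)) (c (l 16724968) (l 16724440))) (c (a (l 16725016) (a (c (l 16729392) (l 16729008)) (b (a (l 16729008) (l 16728600)) (l 16728040)))) (a (l 16729256) (a (b (l 16728608) (l 16727912)) (b (l 16727896) (l 16727096))))))) (b (c (a (a (l 16725768) (b (l 16730952) (b (l 16730000) (l 16729320)))) (b (a (l 16725008) (c (l 16726936) (l 16726720))) (a (b (l 16729216) (l 16728440)) (l 16727904)))) (a (b (l 16730672) (a (l 16729648) (b (l 16729320) (l 16728608)))) (a (b (l 16729664) (b (l 16728568) (l 16727760))) (b (b (l 16729296) (l 16728512)) (l 16727264))))) (a (c (a (b (b (l 16729408) (l 16728688)) (l 16727512)) (b (l 16728168) (l 16726568))) (b (a (b (l 16728624) (l 16727864)) (l 16727400))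 (l 16726168))) (c (c (l 16728728) (l 16725792)) (l 16727816))))) (a (b (a (a (c (b (l 16729336) (b (a (l 16728552) (l 16728160)) (l 16727608))) (b (l 16728232) (b (l 16727176) (l 16726392)))) (b (c (c (c (l 16726280) (l 16726088)) (l 16725744)) (b (l 16727912) (l 16727168))) (c (l 16727096) (l 16725928)))) (c (b (a (b (l 16728152) (l 16727368)) (l 16726840)) (l 16728320)) (b (a (l 16726720) (l 16725832)) (l 16724584)))) (a (c (b (c (l 16726208) (l 16725672)) (l 16726968)) (c (l 16724200) (l 16723432))) (c (b (l 16724088) (l 16722480)) (l 16727280)))) (a (b (c (c (l 16727440) (l 16724408)) (c (l 16723912) (l 16723328))) (c (l 16724016) (l 16720224))) (b (c (c (l 16722920) (l 16722528)) (l 16727048)) (c (l 16719496) (l 16718400)))))), by decide +kernel⟩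

def k59_A00pm_102_s1 : ∃ t, chk3 f_A00pm_102_s1 t 57 79 1 = true :=
  ⟨(a (b (a (b (a (a (c (l 16723880) (l 16727352)) (c (c (b (l 16729424) (c (l 16728328) (l 16727992))) (l 16728064)) (b (l 16727376) (l 16726008)))) (a (c (b (l 16728400) (b (c (l 16727768) (l 16727032)) (c (l 16727040) (l 16726288)))) (b (l 16726712) (b (l 16725672) (l 16724888)))) (c (b (b (l 16728032) (a (l 16727552) (l 16727152))) (a (l 16726408) (l 16725960))) (b (b (l 16726400) (l 16725664)) (l 16724440))))) (c (a (b (b (a (c (l 16727912) (l 16727120)) (c (l 16727136) (l 16726352))) (c (a (l 16724600) (l 16726368)) (l 16725984))) (c (l 16728248) (l 16724792))) (c (b (l 16725408) (l 16723832)) (l 16723816))) (a (b (a (b (l 16725656) (l 16724920)) (l 16724480)) (l 16723248)) (l 16727576)))) (c (b (a (b (a (c (b (l 16727576) (l 16726816)) (l 16726504)) (l 16725976)) (l 16727448)) (c (l 16726736) (l 16723440))) (c (c (l 16727288) (l 16726928)) (l 16726328))) (b (a (b (a (l 16725240) (l 16724376)) (l 16723112)) (l 16722192))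 (l 16724912)))) (c (a (a (b (b (l 16726248) (l 16722016)) (l 16719600)) (b (l 16726264) (l 16717792))) (b (a (l 16719192) (l 16717344)) (l 16720272))) (b (a (l 16725056) (l 16721496)) (a (l 16726896) (l 16712824))))) (a (b (c (b (a (c (l 16722248) (l 16721600)) (c (l 16720352) (l 16719736))) (c (l 16723360) (l 16717392))) (c (b (l 16725168) (l 16716552)) (c (l 16722816) (l 16722344)))) (c (c (l 16718560) (l 16717696)) (b (l 16712648) (l 16709208)))) (b (c (b (c (l 16722720) (l 16716912)) (c (l 16714272) (l 16713624))) (c (b (l 16716256) (l 16712872)) (l 16719008))) (c (c (b (l 16711064) (l 16707840)) (l 16713904)) (a (l 16718688) (l 16716856)))))), by decide +kernel⟩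

def k60_A00pm_102_s1 : ∃ t, chk3 f_A00pm_102_s1 t 58 152 1 = true :=
  ⟨(a (c (a (l 531935887) (b (l 16744600) (l 16742088))) (a (b (l 531578255) (l 531569439)) (b (c (l 16739608) (l 531626127)) (c (l 16737064) (l 531614607))))) (c (a (b (l 16739120) (l 16736624)) (a (b (l 16739664) (l 16737184)) (b (l 16738344) (b (l 16736488) (l 16732584))))) (c (c (a (b (l 16736736) (l 16734216)) (a (l 16738656) (b (l 16738568) (b (l 16736696) (a (l 16735768) (l 16735032)))))) (b (a (l 16736824) (l 16734080)) (a (l 16734288) (a (l 16737472) (b (l 16736768) (a (l 16735840) (l 16735096))))))) (b (a (a (l 16742904) (l 16741504)) (a (l 531698319) (l 531724175))) (a (a (l 16740344) (l 16738952)) (a (l 16734960) (b (l 16736864) (a (l 16735928) (l 16732552))))))))), by decide +kernel⟩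

def k61_A00pm_102_s1 : ∃ t, chk3 f_A00pm_102_s1 t 58 153 1 = true :=
  ⟨(a (c (a (b (l 16742408) (l 531806351)) (b (l 531835535) (c (l 16737008) (l 16731856)))) (a (b (c (l 16737288) (l 16737352)) (a (l 16735400) (l 16734016))) (b (c (l 16734496) (l 531601295)) (c (l 531581727) (a (l 16737896) (l 16736520)))))) (a (c (a (b (l 16732208) (l 16729696)) (b (l 16736048) (a (c (l 16728568) (b (l 16734576) (l 16733280))) (b (l 16728568) (l 16732360))))) (a (b (c (l 16737648) (l 16737752)) (c (l 16735080) (l 16735136))) (a (b (l 16734040) (b (l 16734728) (a (l 16733592) (l 16730576)))) (b (l 16733352) (b (l 16731400) (c (l 16732496) (l 16732552))))))) (c (b (a (b (l 16730080) (a (l 16729160) (c (l 16733536) (l 16733672)))) (b (a (c (l 16728912) (l 16734304)) (l 16733360)) (l 16727000))) (a (b (c (l 16727208) (a (l 16733048) (l 16732120))) (l 16730952)) (b (l 16730664) (l 16729072)))) (b (b (a (c (l 16735544) (l 16735656)) (a (a (l 16732088) (l 16734288)) (l 16733592))) (a (a (l 16732024) (a (l 16731448)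 (l 16733632))) (c (l 16732408) (l 16732488)))) (a (b (a (b (l 16730968) (l 16732808)) (l 16732256)) (l 16731104)) (c (l 16729984) (l 16730032))))))), by decide +kernel⟩

def k62_A00pm_102_s1 : ∃ t, chk3 f_A00pm_102_s1 t 116 77 1 = true :=
  ⟨(b (c (a (b (a (l 16732808) (l 16731400)) (a (l 16730264) (l 16728864))) (b (a (l 16729992) (c (l 16728560) (l 16728616))) (b (a (l 16733336) (a (l 16727032) (b (l 16731832) (l 16731072)))) (a (a (l 16732416) (c (l 16731688) (l 16731672))) (a (l 16728200) (l 16729872)))))) (a (b (a (l 16732760) (l 16731384)) (a (l 16730104) (c (l 16734024) (l 16733928)))) (b (a (a (l 16735600) (l 16734912)) (a (l 16734224) (b (l 16734192) (l 16730256)))) (a (b (l 16733280) (a (l 16732296) (b (l 16731944) (l 16731232)))) (b (a (b (l 16732576) (l 16731904)) (b (l 16731824) (l 16731040))) (a (b (l 16731144) (l 16730336)) (l 16729800))))))) (a (b (c (a (l 16727720) (b (l 16726960) (a (l 16731280) (b (l 16730856) (l 16730112))))) (b (c (l 16727504) (l 16727336)) (a (l 16732008) (a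 (l 16730992) (b (l 16730608) (l 16729832)))))) (a (b (a (l 16725992) (b (l 16730880) (a (l 16730392) (l 16727376)))) (b (c (a (l 16730448) (l 16729608)) (a (l 16730000) (l 16729184))) (a (c (l 16729736) (l 16729248)) (l 16728616)))) (b (a (b (c (l 16730240) (l 16729904)) (l 16729312)) (a (l 16729016) (l 16728544))) (c (l 16727784) (l 16727384))))) (a (b (b (a (c (c (l 16731104) (l 16731056)) (b (l 16731288) (l 16730536))) (c (l 16730200) (l 16730032))) (c (l 16729080) (l 16728848))) (c (b (l 16727472) (l 16725864)) (c (l 16726448) (l 16726232)))) (b (c (b (l 16728752) (l 16727152)) (c (l 16727848) (l 16727720))) (c (l 16724736) (l 16727080)))))), by decide +kernel⟩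

def k63_A00pm_102_s1 : ∃ t, chk3 f_A00pm_102_s1 t 117 77 1 = true :=
  ⟨(b (a (b (c (a (b (a (l 16733408) (c (l 16732592) (l 16732672))) (a (c (l 16732008) (l 16732064)) (l 16731128))) (b (a (l 16731744) (l 16730784)) (l 16729672))) (a (a (b (l 16733504) (c (l 16729472) (l 16729456))) (b (c (l 16730104) (l 16730128)) (l 16731184))) (b (c (l 16731360) (l 16731392)) (l 16729744)))) (c (a (b (l 16730016) (l 16728416)) (b (l 16728072) (l 16726472))) (a (c (l 16729208) (l 16729168)) (c (l 16727288) (l 16727256))))) (b (c (a (b (l 16729360) (l 16727760)) (l 16726688)) (a (c (l 16728640) (l 16728656)) (l 16729368))) (a (c (l 16725360) (l 16725368)) (c (l 16723488) (l 16723464))))) (a (b (a (c (l 16726008) (l 16728504)) (c (l 16724064) (l 16723968))) (a (c (l 16722784) (l 16722552)) (c (l 16720840) (l 16720640)))) (b (c (a (l 16722152) (l 16720272)) (a (l 16722056) (l 16720168))) (a (c (l 16718920) (l 16718736)) (c (l 16717040) (l 16716848)))))), by decide +kernel⟩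

def k64_A00pm_102_s1 : ∃ t, chk3 f_A00pm_102_s1 t 118 76 1 = true :=
  ⟨(b (a (c (b (a (c (l 16736976) (l 16731896)) (b (l 16733688) (l 16734840))) (b (a (c (l 16734960) (l 16732496)) (l 16728048)) (a (l 16733544) (l 16731728)))) (c (b (b (a (l 16737920) (a (l 16731688) (l 16730872))) (a (a (l 16737000) (l 16731072)) (c (l 16734984) (l 16735032)))) (b (a (a (c (l 16735656) (l 16735720)) (l 16734840)) (l 16733440)) (a (l 16733720) (l 16731840)))) (a (b (b (l 16738056) (a (l 16737136) (l 16733808))) (b (a (l 16733184) (l 16734936)) (l 16733808))) (b (b (a (c (l 16737016) (l 16734440)) (l 16733576)) (b (l 16732872) (l 16734704))) (b (l 16733504) (l 16731888)))))) (a (c (b (l 16733840) (c (l 16730680) (l 16730736))) (b (c (b (l 16734728) (l 16733152)) (b (l 16734776) (l 16733176))) (b (l 16731576) (l 16729976)))) (b (c (l 16726816) (c (l 16732072) (l 16734664))) (c (l 16728936) (c (l 16728904) (l 16728848)))))) (c (a (a (b (a (l 16726400) (l 16730728)) (l 16728016)) (b (b (l 16730152) (l 16728576))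 (l 16726200))) (b (a (l 16727568) (l 16725792)) (c (l 16723528) (l 16723496)))) (a (a (c (b (l 16731320) (l 16728104)) (b (l 16734008) (l 16728128))) (b (c (l 16729448) (l 16729464)) (l 16728848))) (b (a (l 16727568) (l 16725680)) (c (l 16723440) (l 16723352)))))), by decide +kernel⟩

def k65_A00pm_102_s1 : ∃ t, chk3 f_A00pm_102_s1 t 119 76 1 = true :=
  ⟨(c (a (a (b (b (l 16725056) (l 16727184)) (b (l 16724040) (l 16720880))) (b (b (l 16728560) (l 16725448)) (c (l 16720816) (l 16720648)))) (b (b (a (l 16726840) (l 16725128)) (c (l 16722992) (l 16722736))) (b (l 16719744) (l 16716592)))) (b (a (a (b (c (l 16730208) (l 16730104)) (l 16726992)) (b (c (l 16728352) (l 16728168)) (l 16725104))) (b (c (l 16725576) (l 16725248)) (c (l 16722432) (l 16722088)))) (a (b (c (l 16722944) (l 16722752)) (c (l 16719752) (l 16719528))) (b (c (l 16719272) (l 16718904)) (c (l 16716088) (l 16715696)))))), by decide +kernel⟩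

def k66_A00pm_102_s1 : ∃ t, chk3 f_A00pm_102_s1 t 59 77 1 = true :=
  ⟨(c (a (b (a (b (a (l 16724832) (l 16723016)) (a (l 16721632) (l 16719816))) (b (a (l 16721224) (l 16719448)) (l 16719752))) (a (b (l 16720120) (l 16716888)) (b (l 16713912) (l 16710680)))) (a (b (b (l 16716840) (l 16713640)) (b (l 16710424) (l 16707192))) (b (b (l 16713424) (l 16710232)) (b (l 16707016) (l 16703792))))) (a (b (a (b (c (l 16723920) (l 16723896)) (a (l 16721576) (l 16719696))) (b (a (l 16721088) (l 16719216)) (a (l 16717824) (l 16715960)))) (b (a (a (l 16718280) (l 16716408)) (l 16713600)) (a (l 16719272) (l 16710304)))) (b (a (b (a (l 16717344) (l 16715480)) (l 16713160)) (c (l 16711272) (l 16716088))) (a (b (l 16709888) (l 16706600)) (b (l 16706184) (l 16702904)))))), by decide +kernel⟩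

def k67_A00pm_102_s1 : ∃ t, chk3 f_A00pm_102_s1 t 58 39 1 = true :=
  ⟨(b (a (b (b (a (a (c (b (l 16730704) (l 16726480)) (c (l 16726888) (l 16726544))) (c (b (l 16726176) (l 16724568)) (l 16727488))) (a (c (l 16723448) (l 16722992)) (c (l 16721504) (l 16721104)))) (a (c (a (b (l 16724864) (l 16723248)) (l 16722144)) (c (l 16725240) (l 16727456))) (c (a (l 16720208) (l 16718264)) (a (l 16719624) (l 16717736))))) (a (a (c (b (l 16720824) (l 16717576)) (c (l 16723768) (l 16717984))) (c (b (l 16718896) (l 16715648)) (b (l 16718112) (l 16714704)))) (c (b (a (l 16716960) (l 16715008)) (c (l 16712896) (l 16712536))) (c (b (l 16715488) (l 16712128)) (l 16718616))))) (b (a (b (c (a (l 16719552) (l 16717600)) (a (l 16719200) (l 16717288))) (c (a (l 16716304) (l 16714352)) (c (l 16715008) (l 16714744)))) (c (b (a (l 16715680) (l 16713792)) (c (l 16711552) (l 16711392))) (b (a (l 16715392) (l 16713504)) (l 16716328)))) (c (a (b (a (l 16713048) (l 16711088)) (c (l 16708936) (l 16708632))) (c (b (l 16708312)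 (l 16705056)) (b (l 16708096) (l 16704784)))) (a (c (l 16715216) (l 16714864)) (c (l 16706168) (l 16705856)))))) (a (b (c (a (c (b (l 16713592) (l 16710368)) (b (l 16713104) (l 16709792))) (c (b (l 16709656) (l 16706416)) (l 16712816))) (a (c (l 16716080) (l 16720632)) (c (l 16707048) (l 16706464)))) (c (a (c (l 16710760) (l 16704816)) (c (l 16706776) (l 16700912))) (a (c (l 16704024) (l 16703152)) (c (l 16700232) (l 16699480))))) (c (b (a (c (b (l 16705680) (l 16702424)) (l 16708896)) (c (b (l 16701792) (l 16698512)) (l 16699800))) (a (c (l 16702752) (l 16696976)) (c (l 16698824) (l 16693104)))) (b (a (c (l 16703216) (l 16702720)) (c (l 16699408) (l 16698976))) (a (c (l 16696392) (l 16695752)) (l 16702792)))))), by decide +kernel⟩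

def k68_A00pm_102_s1 : ∃ t, chk3 f_A00pm_102_s1 t 59 39 1 = true :=
  ⟨(b (a (b (a (c (b (l 16713648) (l 16710384)) (b (l 16710696) (l 16707344))) (c (b (l 16707432) (l 16704168)) (b (l 16706976) (l 16703632)))) (a (c (b (l 16707112) (l 16703824)) (c (l 16702432) (l 16702120))) (c (c (l 16699392) (l 16699088)) (c (l 16698760) (l 16698400))))) (c (b (a (b (l 16703944) (l 16700680)) (b (l 16700544) (l 16697288))) (a (c (l 16695944) (l 16695560)) (b (l 16694008) (l 16690712)))) (b (a (b (l 16703288) (l 16699952)) (b (l 16699608) (l 16696288))) (a (c (l 16695144) (l 16694688)) (c (l 16691560) (l 16690976)))))) (c (a (b (a (c (l 16699040) (l 16696064)) (c (l 16692824) (l 16692432))) (a (c (l 16689824) (l 16689352)) (c (l 16686208) (l 16685720)))) (b (a (c (l 16689368) (l 16688904)) (c (l 16686024) (l 16685448))) (a (c (l 16682736) (l 16682184)) (c (l 16679384) (l 16678728))))) (b (a (a (c (l 16695672) (l 16695256)) (c (l 16692016) (l 16691560))) (a (l 16693384) (l 16684512))) (a (a (l 16699080) (l 16684920))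 (a (l 16681288) (l 16677680)))))), by decide +kernel⟩

def k69_A00pm_102_s1 : ∃ t, chk3 f_A00pm_102_s1 t 60 38 1 = true :=
  ⟨(b (a (b (c (a (b (a (l 16723432) (l 16721744)) (l 16719488)) (b (l 16719224) (l 16716152))) (c (a (b (l 16721880) (l 16718752)) (l 16719256)) (a (b (l 16721336) (l 16718192)) (b (l 16717384) (l 16714264))))) (c (a (b (l 16716376) (l 16713232)) (b (l 16713040) (l 16709912))) (a (c (l 16714024) (b (l 16715024) (l 16711840))) (c (l 16710368) (l 16709536))))) (a (c (b (b (l 16715832) (l 16712800)) (b (l 16709736) (l 16706624))) (b (c (l 16712880) (l 16711808)) (c (l 16706696) (l 16705592)))) (b (c (b (l 16712320) (l 16709376)) (c (l 16709048) (l 16707704))) (c (c (l 16705400) (l 16704232)) (c (l 16702952) (l 16701568)))))) (a (b (a (c (b (l 16710072) (l 16706888)) (c (l 16707648) (l 16707016))) (c (b (l 16706760) (l 16703592)) (c (l 16704024) (l 16703160)))) (a (c (b (l 16703680) (l 16700456)) (b (l 16702480) (l 16699224))) (c (b (l 16700392) (l 16697184)) (b (l 16698768) (l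 16695520))))) (c (b (a (c (l 16702368) (l 16701416)) (l 16703888)) (a (b (l 16697136) (l 16693936)) (b (l 16693896) (l 16690704)))) (b (a (c (l 16700384) (l 16699256)) (c (l 16696720) (l 16695304))) (a (c (l 16693976) (l 16692832)) (c (l 16690352) (l 16688920))))))), by decide +kernel⟩

def k70_A00pm_102_s1 : ∃ t, chk3 f_A00pm_102_s1 t 61 38 1 = true :=
  ⟨(b (a (c (a (b (l 16712512) (l 16701400)) (b (l 16703520) (l 16697792))) (b (a (c (l 16705080) (l 16703472)) (l 16705296)) (a (c (l 16699120) (l 16697440)) (l 16694160)))) (c (a (b (l 16699576) (l 16693984)) (b (l 16695416) (l 16689952))) (a (b (l 16695632) (l 16689848)) (b (l 16691032) (l 16685344))))) (b (a (a (c (l 16700552) (c (l 16692968) (l 16691256))) (c (l 16691864) (l 16688112))) (a (c (l 16688192) (l 16683904)) (c (l 16684304) (l 16679512)))) (a (a (c (l 16694304) (b (l 16687424) (l 16684240))) (c (l 16685712) (l 16681904))) (a (c (l 16682200) (l 16677816)) (c (l 16678448) (l 16673528)))))), by decide +kernel⟩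

def k71_A00pm_102_s1 : ∃ t, chk3 f_A00pm_102_s1 t 30 39 1 = true :=
  ⟨(a (b (a (b (a (c (b (l 16697224) (l 16693960)) (b (l 16695936) (l 16692624))) (c (b (l 16693952) (l 16690696)) (l 16695848))) (c (a (b (l 16690688) (l 16687400)) (b (l 16687432) (l 16684144))) (a (l 16692872) (l 16683984)))) (b (a (c (l 16694336) (l 16686912)) (c (l 16685880) (l 16683184))) (a (c (l 16687816) (l 16680320)) (c (l 16679376) (l 16676624))))) (a (b (c (a (c (l 16682784) (l 16682064)) (c (l 16679616) (l 16678728))) (a (l 16680896) (l 16677280))) (c (a (c (l 16676136) (l 16675352)) (c (l 16672968) (l 16672016))) (a (l 16674088) (l 16670488)))) (c (b (a (l 16681216) (l 16672800)) (a (l 16674552) (l 16666144))) (b (a (l 16673640) (l 16669984)) (a (l 16666888) (l 16663256)))))) (b (a (b (c (a (l 16682664) (l 16679416)) (a (l 16679400) (l 16675552))) (c (a (l 16676192) (l 16672968)) (a (l 16672880) (l 16669072)))) (b (c (c (l 16685752) (l 16678312)) (a (l 16671552) (l 16667384))) (c (a (l 16669648) (l 16666160)) (a (l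 16665152) (l 16661072))))) (a (b (a (c (l 16669632) (l 16666280)) (c (l 16666432) (l 16662504))) (a (c (l 16662992) (l 16659584)) (c (l 16659816) (l 16655848)))) (b (c (a (l 16663144) (l 16659760)) (a (l 16658624) (l 16654632))) (c (a (l 16656552) (l 16653192)) (a (l 16652008) (l 16648056))))))), by decide +kernel⟩

def k72_A00pm_102_s1 : ∃ t, chk3 f_A00pm_102_s1 t 31 38 1 = true :=
  ⟨(a (a (b (c (b (a (l 16691040) (l 16686456)) (a (l 16685712) (l 16681256))) (b (a (l 16686240) (l 16681272)) (a (l 16680664) (l 16675792)))) (b (a (c (l 16680192) (l 16674936)) (c (l 16675872) (l 16670168))) (c (a (l 16674480) (l 16670296)) (a (l 16669056) (l 16664400))))) (b (a (c (b (l 16681656) (l 16676592)) (b (l 16676112) (l 16670728))) (c (b (l 16676648) (l 16671704)) (b (l 16670768) (l 16665488)))) (b (c (a (l 16671328) (l 16666576)) (a (l 16665208) (l 16660064))) (c (a (l 16665888) (l 16661264)) (a (l 16659544) (l 16654504)))))) (a (c (b (a (b (l 16671432) (l 16666608)) (l 16663672)) (b (a (l 16661600) (l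 16656416)) (a (l 16656424) (l 16651360)))) (b (a (b (l 16665240) (l 16660048)) (b (l 16659520) (l 16654424))) (b (a (l 16654728) (l 16649208)) (a (l 16649272) (l 16643848))))) (c (b (a (l 16658088) (l 16654920)) (b (a (l 16651008) (l 16645392)) (a (l 16646080) (l 16640584)))) (b (a (b (l 16653616) (l 16648616)) (b (l 16647520) (l 16642608))) (a (b (l 16643488) (l 16638232)) (b (l 16637584) (l 16632424))))))), by decide +kernel⟩

def k73_A00pm_102_s1 : ∃ t, chk3 f_A00pm_102_s1 t 31 39 1 = true :=
  ⟨(a (b (a (c (b (a (l 16668584) (l 16664544)) (a (l 16662496) (l 16658592))) (b (a (l 16663024) (l 16658464)) (a (l 16656832) (l 16652384)))) (c (a (b (l 16660272) (l 16654472)) (b (l 16655784) (l 16650120))) (b (a (l 16653720) (l 16648792)) (a (l 16647752) (l 16642920))))) (a (c (b (a (l 16656192) (l 16652456)) (a (l 16649736) (l 16646096))) (b (a (l 16650472) (l 16646152)) (a (l 16643984) (l 16639752)))) (c (b (a (l 16648472) (l 16644272)) (a (l 16642288) (l 16638232))) (b (a (l 16641632) (l 16636912))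 (a (l 16635352) (l 16630752)))))) (a (c (b (b (a (l 16651080) (l 16646152)) (a (l 16645552) (l 16640760))) (a (b (l 16639848) (l 16633944)) (b (l 16635192) (l 16629440)))) (b (a (b (l 16643664) (l 16637904)) (b (l 16638344) (l 16632688))) (b (a (l 16632008) (l 16626904)) (a (l 16625960) (l 16620968))))) (c (b (a (b (l 16641000) (l 16635752)) (b (l 16635632) (l 16630512))) (a (b (l 16630320) (l 16624712)) (b (l 16625224) (l 16619752)))) (b (a (b (l 16632832) (l 16627288)) (b (l 16627120) (l 16621680))) (a (b (l 16621600) (l 16615784)) (b (l 16616104) (l 16610400))))))), by decide +kernel⟩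

def k74_A00pm_102_s1 : ∃ t, chk3 f_A00pm_102_s1 t 12 80 1 = true :=
  ⟨(a (a (a (l 3) (b (l 3) (b (l 3) (c (a (a (l 3) (b (l 3) (b (l 3) (l 530714255)))) (b (a (l 3) (b (l 3) (l 530755215))) (l 530740255))) (b (a (l 3) (l 531541647)) (l 531531407)))))) (b (b (l 3) (a (l 3) (c (b (a (l 3) (l 530908303)) (a (l 530835855) (l 531434127))) (l 531606415)))) (b (a (c (c (a (b (l 3) (c (l 531114127) (l 531254927))) (b (l 530957199) (l 531216015))) (l 531204239)) (l 531570831)) (c (c (l 530729247) (l 531529615)) (l 531609999))) (b (a (c (a (b (l 530783119) (l 530744863)) (l 530811279)) (l 531572623)) (l 530623631)) (a (c (c (a (l 531166863) (l 531199887)) (l 531470479)) (l 531573903)) (l 531295119)))))) (a (b (b (a (c (b (a (l 530958879) (l 531521679)) (l 530959247)) (l 531369871)) (c (l 531553423) (l 531672975))) (a (c (l 530808975) (l 531643279)) (l 530849935))) (b (c (l 530681743) (l 531665039)) (c (l 531473807) (l 531669391)))) (b (a (b (l 531695759) (l 531699855)) (b (l 531201167) (l 531742863))) (a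 (b (l 531703439) (l 531706511)) (b (l 531746959) (l 531750543)))))), by decide +kernel⟩

def k75_A00pm_102_s1 : ∃ t, chk3 f_A00pm_102_s1 t 13 80 1 = true :=
  ⟨(a (a (b (a (c (l 531692687) (l 531772815)) (c (l 531740815) (l 531803023))) (a (l 531791135) (l 531831439))) (b (c (a (l 531792783) (l 16750200)) (a (l 16759456) (l 16749768))) (c (a (l 16748808) (l 16745048)) (a (l 16749160) (l 16744768))))) (a (b (a (a (l 16746568) (l 16744160)) (a (l 16731232) (l 16733984))) (c (a (l 16730208) (a (l 16737152) (l 16724256))) (a (l 16739904) (a (l 16736040) (l 16722928))))) (a (a (b (b (l 16737968) (l 16735424)) (c (b (l 16733552) (l 16731032)) (l 16720256))) (b (c (l 16724384) (l 16722736)) (c (b (l 16731072) (a (l 16729168) (l 16725296))) (b (l 16729312) (l 16726720))))) (a (a (c (b (l 16727760) (b (l 16729200) (b (l 16727288) (a (l 16726336) (a (l 16725840) (l 16725496)))))) (b (l 16731184) (b (l 16727264) (b (l 16725304) (l 16723968))))) (c (b (l 16726504) (b (l 16725312) (b (a (l 16726344) (c (l 16726072)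 (l 16725208))) (c (l 16724960) (l 16724088))))) (b (l 16729824) (b (l 16725888) (b (l 16723888) (l 16722384)))))) (c (b (c (b (l 16731520) (l 16723744)) (b (l 16730680) (l 16722872))) (b (b (b (a (l 16727624) (c (l 16726784) (l 16725856))) (a (l 16726984) (c (a (l 16726456) (l 16725760)) (l 16725168)))) (a (a (l 16726344) (c (b (l 16726448) (l 16725752)) (l 16725192))) (c (l 16724984) (l 16724032)))) (c (a (b (l 16724984) (l 16723440)) (l 16722664)) (a (l 16728512) (l 16721648))))) (b (c (b (l 16729656) (l 16727048)) (l 16716632)) (b (a (b (l 16725152) (l 16726424)) (b (l 16726344) (l 16722208))) (a (l 16726720) (l 16719744))))))))), by decide +kernel⟩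

def k76_A00pm_102_s1 : ∃ t, chk3 f_A00pm_102_s1 t 12 81 1 = true :=
  ⟨(a (b (a (c (b (a (c (b (a (l 3) (a (l 3) (l 530661007))) (a (b (l 3) (l 531007119)) (l 531046543))) (b (l 531071119) (l 531330191))) (a (b (l 530699295) (l 531228815)) (l 530594079))) (a (b (a (l 530479647) (l 531186831)) (l 530624911)) (l 530429471))) (b (a (b (l 531487119) (l 531487375)) (l 531532431)) (a (l 531219087) (l 531533711)))) (b (a (c (a (c (l 530888591) (l 531445391)) (l 531330959)) (l 531575439)) (c (l 531377039) (l 531616399))) (a (c (l 531304079) (l 531577743)) (l 531027855)))) (c (a (b (a (b (l 531155855) (l 531150735)) (l 531227535)) (a (b (l 531144079) (l 531111567)) (b (l 531221135) (l 531199375)))) (b (l 530522655) (a (l 531290255) (l 531362447)))) (b (a (l 531510671) (l 531600015)) (a (b (a (l 531487375) (l 531535759)) (l 531643023)) (b (l 531601807) (l 531602831)))))) (b (a (b (c (l 531464591) (l 531673231)) (l 530565663)) (b (l 531730319) (l 531732879))) (a (b (l 531640975) (a (l 531618447) (l 16760248)))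 (b (l 531734927) (a (l 16751808) (l 16748504)))))), by decide +kernel⟩

def k77_A00pm_102_s1 : ∃ t, chk3 f_A00pm_102_s1 t 13 81 1 = true :=
  ⟨(c (a (a (b (l 532224399) (a (l 16745592) (l 16742064))) (b (a (l 16743576) (l 16729392)) (a (l 16727976) (l 16724360)))) (a (b (b (a (l 16736952) (a (l 16733392) (l 16730968))) (a (l 16723952) (a (l 16730896) (c (l 16723432) (l 16717680))))) (b (a (l 16721448) (a (c (l 16723304) (l 16728152)) (a (b (l 16727168) (l 16725808)) (b (l 16725856) (l 16724384))))) (a (a (l 16730544) (c (l 16722928) (l 16728064))) (a (b (c (l 16723952) (l 16726176)) (l 16724960)) (l 16722832))))) (a (b (a (a (b (l 16729120) (b (l 16727224) (a (l 16726248) (l 16725568)))) (b (l 16722640) (b (c (l 16726232) (l 16725576)) (l 16724472)))) (b (b (a (l 16727264) (a (l 16726320) (l 16725648))) (a (a (l 16726304) (l 16725632)) (l 16724528))) (c (l 16723336) (l 16727792)))) (b (a (l 16722920) (l 16719864)) (l 16718296))) (b (b (a (a (b (l 16724544) (l 16722992)) (l 16722216)) (c (l 16725568)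 (l 16719280))) (a (l 16719864) (l 16727152))) (a (l 16725624) (l 16722376)))))) (a (a (b (l 531810959) (a (l 16746416) (l 16742832))) (b (a (l 16744088) (l 16739744)) (a (l 16739000) (l 16734688)))) (a (b (a (l 16734888) (a (l 16720520) (c (l 16718256) (l 16727856)))) (a (a (l 16720640) (b (l 16729856) (l 16716824))) (a (b (l 16727216) (b (l 16725224) (l 16723744))) (b (a (l 16725112) (l 16723592)) (l 16721296))))) (a (b (a (b (l 16726880) (a (l 16724960) (l 16723440))) (b (a (l 16724800) (a (l 16726312) (l 16722904))) (l 16726224))) (b (c (l 16730504) (l 16718848)) (l 16716240))) (a (b (b (l 16726040) (l 16717552)) (l 16712640)) (b (l 16726160) (l 16709056))))))), by decide +kernel⟩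

def k78_A00pm_102_s1 : ∃ t, chk3 f_A00pm_102_s1 t 6 82 2 = true :=
  ⟨(a (a (b (a (b (b (a (l 531056015) (l 531159951)) (l 531049103)) (a (l 531676559) (l 531022991))) (b (a (l 531235215) (l 16757488)) (l 532011663))) (b (a (a (l 530705039) (l 16756424)) (a (l 16753816) (l 16751136))) (a (a (b (l 16750888) (l 16749032)) (l 16755440)) (a (l 16750392) (l 16747880))))) (a (b (b (l 531440783) (l 531676303)) (b (a (l 16748368) (l 16745528)) (a (l 16745296) (l 16742632)))) (b (a (l 16741568) (l 16738368)) (b (a (l 16742600) (l 16739592)) (a (l 16739880) (l 16737048)))))) (a (b (b (a (a (l 16741664) (l 16738232)) (a (l 16734736) (l 16720728))) (a (a (l 16739040) (l 16735712)) (a (l 16721832) (a (l 16724456) (b (l 16728224) (l 16726816)))))) (b (a (a (l 16736496) (l 16733304)) (a (a (l 16730904) (b (l 16729752) (l 16728376))) (a (l 16726920) (l 16724568)))) (a (a (l 16734128) (a (l 16731880) (b (l 16730816) (l 16729448)))) (a (b (a (l 16728976) (l 16726920)) (l 16726496)) (l 16722744))))) (a (b (a (b (a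 (c (l 16722528) (l 16727832)) (b (l 16726192) (l 16724712))) (a (l 16725080) (l 16722440))) (b (l 16721248) (l 16718176))) (a (l 16719176) (l 16723992))) (a (b (b (l 16725664) (l 16712064)) (l 16707280)) (b (l 16717624) (l 16700648)))))), by decide +kernel⟩

def k79_A00pm_102_s1 : ∃ t, chk3 f_A00pm_102_s1 t 6 82 3 = true :=
  ⟨(a (a (b (a (b (b (l 531504015) (l 531496591)) (b (l 531487119) (l 531402895))) (b (a (l 531580559) (l 16758576)) (l 531602575))) (b (a (a (l 16765464) (l 16757976)) (c (l 16756568) (l 16759912))) (a (a (l 16756368) (l 16754320)) (a (l 16752184) (l 16749976))))) (b (b (a (l 531688335) (l 16747656)) (a (l 16751408) (l 16745056))) (b (a (a (l 16750256) (l 16747240)) (l 16737216)) (a (a (l 16747568) (l 16744592)) (a (l 16741472) (l 16738200)))))) (a (b (c (a (a (l 16741256) (l 16737736)) (a (l 16733976) (b (l 16710056) (l 16728368)))) (a (a (l 16741240) (l 16737640)) (a (l 16712808) (b (l 16730664) (a (l 16729240) (l 16726776)))))) (a (a (a (l 16736968) (l 16735224)) (b (l 16733832)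 (l 16731168))) (a (b (l 16729968) (l 16727072)) (b (l 16725272) (l 16722128))))) (a (b (a (b (a (l 16727248) (l 16729720)) (l 16722848)) (b (l 16730264) (l 16716592))) (a (l 16728552) (l 16711768))) (a (b (l 16732392) (l 16704848)) (b (l 16704216) (l 16697496)))))), by decide +kernel⟩

def k80_A00pm_102_s1 : ∃ t, chk3 f_A00pm_102_s1 t 12 166 1 = true :=
  ⟨(a (b (a (a (c (b (l 16747392) (l 16745984)) (l 16753016)) (b (l 16753736) (l 16749776))) (b (a (l 16748960) (l 16746736)) (a (l 16747688) (l 16745528)))) (a (b (a (c (l 16744824) (l 16751216)) (l 16748664)) (a (l 16749744) (l 16747808))) (b (a (l 16746632) (l 16744512)) (a (l 16745784) (l 16743696))))) (c (c (c (a (b (a (l 16741824) (l 16739208)) (a (l 16739816) (l 16737288))) (a (b (l 16736520) (l 16734744)) (b (l 16733744) (b (l 16732496) (l 16733984))))) (a (b (a (l 16742368) (l 16739832)) (a (l 16740392) (l 16737936))) (a (b (l 16737208) (l 16735352)) (b (l 16734504) (b (l 16732904) (l 16731552)))))) (a (b (a (l 16743232) (l 16740800)) (a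 (l 16741280) (l 16738672))) (a (b (l 16738288) (l 16735656)) (b (l 16735192) (b (l 16733168) (l 16731776)))))) (c (a (b (l 16743232) (a (l 16741984) (l 16739064))) (b (l 16731832) (a (l 16735976) (l 16735304)))) (a (b (l 16743560) (l 16740856)) (b (l 16737256) (a (l 16736184) (l 16732784))))))), by decide +kernel⟩

def k81_A00pm_102_s1 : ∃ t, chk3 f_A00pm_102_s1 t 12 334 1 = true :=
  ⟨(b (a (a (a (l 16751744) (l 16747168)) (a (l 16745136) (l 16742528))) (a (a (l 16739768) (c (l 16736448) (l 16737168))) (a (c (a (l 16734216) (l 16732672)) (l 16733992)) (l 16730416)))) (b (a (a (a (l 16748704) (l 16746656)) (a (l 16744160) (l 16741528))) (a (a (l 16738760) (a (l 16736592) (l 16735088))) (a (l 16732696) (l 16729264)))) (b (b (a (a (a (l 16748520) (l 16746256)) (a (l 16743752) (l 16741120))) (a (a (l 16738344) (l 16735416)) (l 16730520))) (b (a (a (a (l 16748472) (l 16746136)) (a (l 16743632) (l 16740992))) (a (a (l 16738216) (l 16735280)) (l 16730376))) (b (a (a (a (l 16748440) (l 16746072)) (a (l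 16743568) (l 16740928))) (a (a (l 16738152) (l 16735216)) (l 16730296))) (a (a (a (l 16748408) (l 16746032)) (a (l 16743528) (l 16740888))) (a (a (l 16738112) (l 16735176)) (l 16730248)))))) (a (a (a (l 16748232) (l 16745856)) (a (l 16743344) (l 16740704))) (a (a (a (l 16738632) (l 16737216)) (l 16734976)) (l 16730024)))))), by decide +kernel⟩

def k82_A00pm_102_s1 : ∃ t, chk3 f_A00pm_102_s1 t 12 335 1 = true :=
  ⟨(b (b (a (a (a (l 16747768) (l 16745368)) (b (a (l 16743016) (c (l 16739936) (l 16740760))) (b (a (l 16742776) (a (l 16740816) (l 16739480))) (b (a (b (l 16742680) (a (l 16743280) (l 16742016))) (l 16740064)) (a (l 16742592) (l 16740000)))))) (b (a (a (a (l 16738320) (l 16736888)) (l 16734608)) (l 16729600)) (a (a (l 16737288) (l 16723736)) (a (l 16720408) (b (l 16727448) (l 16727168)))))) (b (b (a (a (a (l 16747376) (l 16744968)) (a (l 16742472) (l 16739880))) (a (l 16735496) (a (l 16730568) (l 16726952)))) (b (a (a (a (l 16747256) (l 16744848)) (a (l 16742352) (l 16739752))) (a (l 16735368)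 (a (l 16730440) (l 16726816)))) (b (a (a (a (l 16747192) (l 16744792)) (a (l 16742288) (l 16739688))) (a (l 16735304) (a (l 16730376) (l 16726752)))) (a (a (a (l 16747160) (l 16744752)) (a (l 16742248) (l 16739648))) (a (l 16735264) (a (l 16730328) (l 16726712))))))) (a (a (a (l 16746976) (l 16744568)) (a (l 16742064) (l 16739456))) (a (l 16735072) (a (l 16730136) (l 16726512)))))) (a (a (a (l 16746184) (l 16743760)) (a (l 16741240) (l 16738624))) (a (l 16734224) (a (l 16729272) (l 16725648))))), by decide +kernel⟩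

def k83_A00pm_102_s1 : ∃ t, chk3 f_A00pm_102_s1 t 13 166 1 = true :=
  ⟨(a (a (b (a (c (b (l 16732424) (c (l 16733520) (l 16731184))) (l 16732056)) (c (b (a (l 16729848) (l 16728008)) (l 16727488)) (l 16733504))) (a (b (a (l 16730752) (l 16728912)) (l 16728320)) (l 16725232))) (b (a (l 16724152) (l 16719352)) (l 16718600))) (a (b (l 16710936) (l 16728552)) (a (l 16699456) (l 16692336)))), by decide +kernel⟩

def k84_A00pm_102_s1 : ∃ t, chk3 f_A00pm_102_s1 t 26 167 1 = true :=
  ⟨(a (b (a (l 16725912) (l 16700968)) (a (b (b (b (l 16724008) (b (l 16723608) (a (l 16724296) (l 16722304)))) (l 16722808)) (l 16721760)) (a (b (b (b (l 16720984) (b (l 16720560) (l 16720232))) (l 16719728)) (l 16718672)) (b (b (b (l 16718880) (b (l 16718440) (a (l 16718640) (l 16717552)))) (l 16717584)) (l 16716528))))) (b (b (l 16695120) (a (l 16716720) (l 16711720))) (b (b (a (b (l 16715496) (b (l 16715032) (a (c (l 16716264) (l 16715400)) (b (b (l 16713576) (l 16713440)) (l 16713336))))) (b (l 16710448) (b (l 16709960)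 (a (c (a (l 16712120) (l 16710856)) (l 16710280)) (b (b (l 16708320) (l 16708176)) (l 16708072)))))) (b (b (a (a (l 16715608) (l 16713208)) (a (l 16710648) (l 16707936))) (b (a (a (l 16715472) (l 16713072)) (a (l 16710520) (l 16707808))) (b (a (a (l 16715408) (l 16713008)) (a (l 16710448) (l 16707736))) (a (a (l 16715360) (l 16712960)) (a (l 16710408) (l 16707696)))))) (a (a (l 16715168) (l 16712768)) (a (l 16710208) (l 16707496))))) (a (a (l 16714288) (l 16711888)) (a (l 16709328) (l 16706616)))))), by decide +kernel⟩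

def k85_A00pm_102_s1 : ∃ t, chk3 f_A00pm_102_s1 t 27 167 1 = true :=
  ⟨(a (b (b (l 16704960) (a (l 16706096) (l 16699880))) (b (b (a (b (l 16704776) (a (b (l 16705744) (b (b (l 16705464) (l 16705320)) (l 16705208))) (b (l 16702752) (c (l 16703264) (l 16701352))))) (b (l 16698520) (b (l 16697984) (a (c (l 16700248) (l 16698064)) (a (l 16696744) (l 16695064)))))) (b (b (a (a (l 16705072) (l 16702064)) (a (l 16698912) (l 16695616))) (b (a (a (l 16704944) (l 16701936)) (a (l 16698776) (l 16695480))) (b (a (a (l 16704880) (l 16701864)) (a (l 16698712) (l 16695416))) (a (a (l 16704832) (l 16701824)) (a (l 16698664) (l 16695368)))))) (a (a (l 16704632) (l 16701624)) (a (l 16698464) (l 16695168))))) (a (a (l 16703752) (l 16700736)) (a (l 16697584) (l 16694288))))) (b (a (l 16683544) (b (l 16687848) (l 16685808))) (b (b (a (b (l 16691704) (b (l 16691152) (c (a (l 16693832) (l 16690440)) (a (l 16691040) (l 16687312))))) (a (b (l 16686248) (b (l 16685680) (l 16685232))) (b (l 16682480) (b (l 16681904) (l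 16686688))))) (b (b (a (a (l 16692184) (l 16688624)) (a (l 16684928) (l 16681136))) (b (a (a (l 16692048) (l 16688488)) (a (l 16684792) (l 16681000))) (b (a (a (l 16691984) (l 16688424)) (a (l 16684728) (l 16680928))) (a (l 16695408) (a (l 16684680) (l 16680888)))))) (a (a (l 16691736) (l 16688176)) (a (l 16684480) (l 16680688))))) (a (a (l 16690848) (l 16687288)) (a (l 16683592) (l 16679792)))))), by decide +kernel⟩

def k86_A00pm_102_s1 : ∃ t, chk3 f_A00pm_102_s1 t 6 21 1 = true :=
  ⟨(a (a (a (a (b (b (b (l 16742976) (l 16737736)) (l 16729728)) (l 16734120)) (b (b (b (l 16740512) (l 16735280)) (l 16727304)) (l 16732032))) (b (a (b (c (l 16740248) (l 16735560)) (l 16745640)) (b (l 16732592) (l 16721824))) (a (l 16729512) (l 16747720)))) (a (b (a (l 16734728) (b (l 16747464) (l 16715568))) (a (l 16744712) (l 16741296))) (a (b (b (l 16733560) (l 16712096)) (l 16716792)) (b (b (a (l 16720352) (l 16718456)) (l 16708384)) (l 16713024))))) (a (a (b (b (a (c (l 16726256) (l 16725648)) (a (b (l 16715176)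 (l 16709600)) (b (l 16713024) (l 16707440)))) (a (l 16725392) (a (l 16701288) (l 16699120)))) (a (b (l 16693464) (l 16682640)) (c (l 16705488) (l 16704048)))) (b (b (b (a (a (l 16710776) (l 16718856)) (a (l 16711048) (l 16713576))) (a (a (l 16705184) (l 16702768)) (c (l 16699600) (l 16698040)))) (a (c (l 16696320) (l 16694952)) (c (l 16691336) (l 16689600)))) (a (c (l 16701024) (l 16699312)) (b (l 16679464) (l 16668568))))) (a (b (b (a (b (a (l 16700216) (l 16697200)) (a (l 16694592) (l 16691576))) (b (a (l 16694040) (l 16690744)) (l 16686768))) (a (b (l 16687504) (l 16681944)) (l 16699352))) (a (b (l 16673672) (l 16662760)) (b (l 16667312) (l 16656384)))) (b (b (a (b (c (l 16687032) (l 16683952)) (l 16679888)) (a (l 16677224) (b (l 16676232) (l 16670576)))) (a (l 16692464) (l 16685064))) (a (b (l 16660408) (l 16649472)) (b (l 16653000) (l 16642056))))))), by decide +kernel⟩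

def k87_A00pm_102_s1 : ∃ t, chk3 f_A00pm_102_s1 t 6 11 1 = true :=
  ⟨(a (b (a (b (a (a (l 16690216) (l 16688656)) (a (l 16686664) (l 16684264))) (a (b (l 16713552) (l 16659952)) (a (l 16664064) (l 16662176)))) (a (b (c (l 16722272) (l 16721216)) (a (l 16659824) (l 16656976))) (b (a (l 16716560) (l 16670696)) (a (l 16653600) (l 16649880))))) (a (a (a (b (l 16643056) (l 16622272)) (b (l 16641960) (l 16619960))) (b (a (l 16640728) (l 16639144)) (a (l 16618000) (l 16616504)))) (a (b (a (l 16637672) (l 16635344)) (a (l 16614880) (l 16612872))) (b (l 16651872) (l 16651472))))) (a (a (b (b (a (l 16666640) (l 16704304)) (a (l 16645872) (l 16641456))) (b (a (l 16625328) (l 16621120)) (c (l 16604768) (l 16601256)))) (b (b (a (l 16699664) (l 16694432)) (a (l 16636784) (l 16631528))) (b (a (l 16616504) (l 16611120)) (c (l 16595920) (l 16592120))))) (a (b (a (b (l 16646664) (l 16625672)) (b (l 16640272) (l 16619256))) (b (l 16644032) (l 16624360))) (b (b (a (l 16633344) (l 16625912)) (a (l 16612312) (l 16604872)))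 (a (l 16623824) (l 16658312)))))), by decide +kernel⟩

def k88_A00pm_102_s1 : ∃ t, chk3 f_A00pm_102_s1 t 56 80 1 = true :=
  ⟨(a (b (a (a (c (b (l 16726584) (a (c (c (l 16725000) (l 16721960)) (l 16726488)) (b (l 16726968) (c (a (l 16726280) (l 16725920)) (l 16725120))))) (b (l 16727016) (b (l 16725024) (a (l 16724048) (l 16723288))))) (a (c (b (l 16725616) (b (c (l 16726768) (l 16725808)) (c (l 16725336) (l 16724344)))) (b (l 16725992) (b (l 16723992) (l 16722472)))) (b (c (b (l 16728224) (l 16724328)) (l 16725304)) (b (c (c (b (l 16726432) (l 16725704)) (l 16725080)) (l 16723224)) (c (l 16724056) (l 16721608)))))) (c (b (b (a (c (l 16727704) (l 16726744)) (c (a (b (l 16727040) (l 16726360)) (c (l 16726152) (l 16725704))) (a (l 16725720) (l 16724944)))) (a (c (a (b (l 16727072) (l 16726416)) (b (l 16726392) (l 16725648))) (a (l 16725768) (l 16725016))) (c (l 16724800) (l 16723784)))) (c (a (c (l 16724320) (l 16729096)) (l 16727680)) (a (l 16728296) (l 16721360)))) (a (b (b (l 16724952) (a (l 16723944)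 (l 16723168))) (l 16726368)) (b (b (a (l 16723896) (l 16723104)) (l 16721896)) (l 16719384))))) (c (a (b (b (a (c (l 16724976) (l 16723984)) (l 16722880)) (c (l 16722616) (l 16721560))) (c (l 16725512) (l 16719152))) (c (b (l 16725368) (l 16716960)) (l 16722608))) (b (a (a (l 16726536) (l 16719552)) (l 16716912)) (c (l 16726576) (l 16725008))))) (b (c (a (b (c (a (l 16723904) (l 16727440)) (l 16727256)) (c (l 16725136) (l 16718768))) (b (c (l 16724816) (l 16718504)) (l 16721080))) (b (a (l 16725344) (l 16727048)) (a (l 16716736) (l 16713168)))) (a (c (b (l 16721384) (l 16712912)) (l 16722152)) (c (l 16716216) (l 16708064))))), by decide +kernel⟩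

def k89_A00pm_102_s1 : ∃ t, chk3 f_A00pm_102_s1 t 56 81 1 = true :=
  ⟨(a (c (a (b (b (l 16721800) (l 16713360)) (l 16708536)) (b (l 16722040) (l 16705080))) (b (c (l 16721608) (l 16719936)) (l 16724560))) (b (c (c (l 16717432) (l 16716016)) (l 16713536)) (c (l 16710192) (l 16696200)))), by decide +kernel⟩

def k90_A00pm_102_s1 : ∃ t, chk3 f_A00pm_102_s1 t 57 40 1 = true :=
  ⟨(a (a (b (b (c (c (l 16719624) (l 16723752)) (l 16721768)) (c (l 16717816) (l 16704432))) (b (l 16709720) (l 16692456))) (b (b (c (b (l 16711776) (l 16708512)) (l 16718152)) (c (l 16703600) (l 16700768))) (b (l 16705976) (l 16688664)))) (b (b (c (a (l 16711608) (l 16707752)) (a (l 16704016) (l 16700344))) (c (a (l 16699784) (l 16695904)) (a (l 16697080) (l 16693360)))) (c (b (a (l 16693152) (l 16689232)) (l 16684472)) (b (l 16688216) (l 16681152))))), by decide +kernel⟩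

def k91_A00pm_102_s1 : ∃ t, chk3 f_A00pm_102_s1 t 29 40 1 = true :=
  ⟨(a (a (b (c (a (b (c (l 16699016) (l 16698136)) (l 16691952)) (b (c (l 16694992) (l 16694208)) (c (l 16688416) (l 16687456)))) (b (a (l 16707128) (l 16692896)) (a (l 16689624) (l 16685864)))) (c (b (a (l 16685256) (l 16681224)) (l 16676456)) (b (l 16680664) (l 16673528)))) (b (c (a (b (c (l 16690928) (l 16690248)) (c (l 16684320) (l 16683464))) (b (c (l 16686968) (l 16686352)) (c (l 16680312) (l 16679552)))) (b (a (l 16689112) (l 16685344)) (a (l 16682072) (l 16678312)))) (c (b (a (l 16677152) (l 16683648)) (a (l 16670328) (l 16666304))) (b (c (l 16673616) (l 16672528)) (l 16665888))))) (b (c (b (a (a (c (l 16683176) (l 16682592)) (c (l 16679544) (l 16678944))) (a (c (l 16676056) (l 16675400)) (c (l 16672688) (l 16671944)))) (a (a (c (l 16676496) (l 16675768)) (c (l 16672832) (l 16672104))) (a (c (l 16669320) (l 16668552)) (c (l 16665928) (l 16665096))))) (a (b (a (l 16681640) (l 16677984)) (c (l 16673168) (l 16672384))) (b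 (c (l 16683416) (l 16672176)) (c (l 16665984) (l 16665128))))) (c (c (a (b (a (l 16669752) (l 16666064)) (a (l 16662952) (l 16659224))) (b (a (l 16662520) (l 16659112)) (a (l 16655648) (l 16652216)))) (a (b (l 16667024) (l 16660056)) (b (l 16659888) (l 16652880)))) (a (b (c (l 16666128) (l 16665208)) (l 16658456)) (b (c (l 16658952) (l 16657992)) (l 16651288)))))), by decide +kernel⟩

def k92_A00pm_102_s1 : ∃ t, chk3 f_A00pm_102_s1 t 14 41 1 = true :=
  ⟨(a (b (a (a (b (a (l 16700464) (l 16696832)) (l 16712856)) (b (l 16701760) (l 16684376))) (a (b (l 16704648) (l 16676664)) (b (c (l 16677656) (l 16674024)) (l 16668792)))) (a (a (b (l 16684864) (b (l 16700128) (b (b (b (l 16676712) (b (l 16676112) (c (l 16677712) (l 16673456)))) (b (l 16685720) (l 16674872))) (l 16684448)))) (b (l 16677208) (b (l 16671368) (b (b (b (l 16668856) (b (l 16668240) (l 16667752))) (l 16667152)) (l 16666040))))) (a (b (l 16669368) (b (l 16663408) (a (a (l 16672728) (l 16660216)) (l 16657168)))) (b (l 16661376) (b (l 16655312)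 (a (l 16653080) (l 16648968))))))) (b (a (c (a (b (l 16669568) (l 16662528)) (b (l 16661376) (l 16654272))) (a (l 16678312) (b (l 16658592) (l 16651152)))) (c (a (b (c (l 16654152) (l 16652976)) (l 16656896)) (b (c (l 16646928) (l 16645760)) (c (l 16639800) (l 16638480)))) (a (b (l 16651144) (l 16643648)) (b (l 16643968) (l 16636456))))) (c (a (b (a (l 16655168) (l 16646832)) (b (l 16644832) (a (l 16644832) (l 16636360)))) (a (b (l 16638912) (b (l 16632736) (l 16628336))) (b (l 16631576) (b (l 16625360) (l 16620920))))) (a (b (l 16626304) (b (l 16640984) (a (l 16640624) (l 16632592)))) (b (a (l 16635824) (l 16628616)) (b (l 16625752) (l 16621208))))))), by decide +kernel⟩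

def k93_A00pm_102_s1 : ∃ t, chk3 f_A00pm_102_s1 t 14 21 1 = true :=
  ⟨(a (b (a (a (b (c (l 16669696) (l 16686184)) (l 16656200)) (b (a (l 16661464) (l 16657400)) (l 16647992))) (a (b (l 16651232) (l 16639552)) (b (l 16642920) (l 16631024)))) (a (a (l 16681592) (l 16673240)) (a (l 16622728) (l 16613952)))) (a (b (a (l 16628464) (l 16620000)) (a (l 16605000) (l 16596176))) (b (a (l 16611960) (l 16604456)) (a (l 16587800) (l 16579992))))), by decide +kernel⟩

def k94_A00pm_102_s1 : ∃ t, chk3 f_A00pm_102_s1 t 30 40 1 = true :=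
  ⟨(a (b (c (a (a (b (c (l 16669432) (l 16668568)) (c (l 16662656) (l 16661712))) (b (c (l 16666256) (l 16665240)) (l 16664184))) (a (b (l 16667808) (l 16666240)) (b (l 16659408) (l 16652600)))) (a (b (a (l 16667200) (l 16663624)) (c (l 16658984) (l 16657888))) (b (a (l 16660040) (l 16656440)) (a (l 16653112) (l 16649536))))) (c (a (a (b (l 16665792) (l 16648336)) (b (l 16652048) (l 16645064))) (a (b (l 16648856) (l 16641872)) (b (l 16645712) (l 16638720)))) (a (b (c (l 16651968) (l 16650792)) (l 16644224)) (b (c (l 16645072) (l 16643536)) (l 16637192))))) (b (c (a (b (a (l 16656272) (l 16653120)) (a (l 16649480) (l 16646336))) (b (a (l 16649880) (l 16646544)) (a (l 16643112) (l 16639808)))) (a (a (b (l 16652808) (l 16645936)) (b (l 16649104) (l 16642264))) (a (b (l 16645304) (l 16638504)) (b (l 16641392) (l 16634632))))) (c (a (b (a (l 16642592) (l 16639456)) (c (l 16645464) (l 16633080))) (b (a (l 16636256) (l 16632976)) (a (l 16629296) (l 16626024)))) (a (b (a (l 16638968) (l 16635328)) (l 16630080))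 (b (l 16640176) (l 16622696)))))), by decide +kernel⟩

def k95_A00pm_102_s1 : ∃ t, chk3 f_A00pm_102_s1 t 31 40 1 = true :=
  ⟨(a (b (a (b (a (c (l 16643120) (l 16637368)) (c (l 16639584) (l 16633216))) (c (a (l 16636408) (l 16632904)) (a (l 16630648) (l 16626552)))) (c (b (a (l 16635880) (l 16631984)) (a (l 16629304) (l 16625520))) (a (b (l 16628912) (l 16622336)) (b (l 16624440) (l 16617952))))) (b (a (c (a (l 16629600) (l 16626128)) (a (l 16623832) (l 16619776))) (a (c (l 16622560) (l 16615608)) (c (l 16618888) (l 16611320)))) (a (c (a (l 16622672) (l 16619232)) (l 16614896)) (c (a (l 16615696) (l 16612064)) (a (l 16608768) (l 16604528)))))) (b (a (c (b (a (l 16627856) (l 16623496)) (a (l 16621560) (l 16617352))) (a (b (l 16619760) (l 16613400)) (b (l 16614888) (l 16608648)))) (c (b (a (l 16618912) (l 16614104)) (a (l 16612920) (l 16608256))) (a (b (l 16609816) (l 16603696)) (b (l 16604544) (l 16598544))))) (a (c (b (a (l 16615032) (l 16611000)) (a (l 16608320) (l 16604400))) (a (b (l 16606864)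 (l 16600168)) (b (l 16602240) (l 16595640)))) (c (b (a (l 16606720) (l 16602216)) (a (l 16600296) (l 16595952))) (a (b (l 16597408) (l 16590952)) (b (l 16592384) (l 16586048))))))), by decide +kernel⟩

def k96_A00pm_102_s1 : ∃ t, chk3 f_A00pm_102_s1 t 30 41 1 = true :=
  ⟨(b (a (c (a (b (c (l 16640240) (l 16638936)) (c (l 16633040) (l 16631624))) (b (c (l 16633952) (l 16632384)) (c (l 16626712) (l 16625048)))) (a (b (l 16636936) (l 16629456)) (b (l 16629936) (l 16622496)))) (c (a (b (c (l 16627896) (l 16625944)) (c (l 16620640) (l 16618616))) (b (c (l 16621760) (l 16619360)) (l 16623776))) (a (b (l 16622880) (l 16615480)) (b (l 16615552) (l 16608216))))) (c (b (a (a (l 16624728) (l 16639216)) (a (b (l 16614000) (l 16610048)) (l 16605640))) (a (a (b (l 16618456) (l 16613992)) (b (l 16611936) (l 16607432))) (a (b (l 16605656) (l 16601136)) (b (l 16599328) (l 16594800))))) (b (a (a (l 16621616) (l 16614680)) (a (l 16607712) (l 16600512))) (a (b (l 16611688) (l 16607080)) (a (b (l 16601336) (l 16596768))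 (b (l 16594184) (l 16589640))))))), by decide +kernel⟩

def k97_A00pm_102_s1 : ∃ t, chk3 f_A00pm_102_s1 t 31 41 1 = true :=
  ⟨(b (a (a (c (b (a (l 16615616) (l 16612200)) (c (l 16608104) (l 16605192))) (b (l 16607832) (l 16600576))) (c (b (a (l 16608696) (l 16605096)) (a (l 16601488) (l 16597928))) (b (l 16599688) (l 16592528)))) (c (a (b (a (l 16601392) (l 16597584)) (a (l 16594264) (l 16590504))) (b (a (l 16593600) (l 16589432)) (a (l 16586632) (l 16582592)))) (a (b (a (l 16593280) (l 16588856)) (l 16594512)) (b (a (l 16584264) (l 16579504)) (a (l 16577352) (l 16572696)))))) (b (a (a (c (b (l 16601056) (l 16597120)) (l 16592952)) (c (b (l 16594144) (l 16590240)) (l 16584992))) (a (c (b (l 16586880) (l 16583016)) (l 16597584)) (a (c (l 16579232) (l 16570032)) (c (l 16575312) (l 16565496))))) (c (a (a (b (l 16592752) (l 16588232)) (b (l 16585904) (l 16581400))) (a (b (l 16578728) (b (l 16575064) (l 16572928))) (a (b (l 16573120) (l 16568696)) (b (l 16569248) (l 16564856))))) (c (a (b (l 16584440)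 (l 16590424)) (a (b (l 16572632) (l 16568208)) (b (l 16564216) (l 16559864)))) (a (b (l 16581040) (l 16576576)) (a (b (l 16568360) (l 16563984)) (b (l 16559304) (l 16555008)))))))), by decide +kernel⟩

def k98_A00pm_102_s1 : ∃ t, chk3 f_A00pm_102_s1 t 15 21 1 = true :=
  ⟨(a (a (b (a (c (l 16599448) (l 16595272)) (c (l 16592784) (l 16588312))) (a (l 16572640) (l 16565624))) (b (a (c (l 16586400) (l 16581368)) (c (l 16579944) (l 16574336))) (a (c (l 16561960) (l 16555624)) (c (l 16555360) (l 16548520))))) (b (c (a (a (l 16573328) (l 16566488)) (a (l 16559384) (b (l 16558288) (l 16545656)))) (a (a (l 16566936) (l 16559192)) (a (l 16551088) (l 16542576)))) (a (c (a (l 16548608) (l 16541624)) (a (l 16541136) (l 16533552))) (a (c (l 16534480) (l 16525584)) (b (l 16549416) (c (l 16520984) (l 16511000))))))), by decide +kernel⟩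

def k99_A00pm_102_s1 : ∃ t, chk3 f_A00pm_102_s1 t 7 11 1 = true :=
  ⟨(a (a (b (b (a (a (l 16618032) (l 16609752)) (a (l 16601120) (l 16592112))) (a (l 16676768) (l 16575648))) (a (c (l 16649832) (l 16642792)) (b (l 16555200) (l 16535320)))) (b (a (b (l 16620296) (l 16599096)) (b (a (l 16565008) (l 16556864)) (a (l 16543656) (l 16535192)))) (b (a (l 16536904) (a (l 16523320) (l 16514672))) (a (l 16517072) (l 16499224))))) (b (b (a (a (a (l 16549200) (l 16541904)) (a (l 16534864) (l 16527824))) (a (a (c (l 16524984) (l 16516200)) (c (l 16528360) (l 16508568))) (a (c (b (l 16516432) (l 16504784)) (l 16500648)) (b (c (l 16508992) (l 16498616)) (c (l 16497264) (l 16486400)))))) (a (a (a (l 16527120) (l 16519504)) (a (l 16512176) (l 16504888))) (a (a (l 16497488) (c (l 16495288) (l 16484504))) (a (b (c (l 16493408) (l 16482488)) (l 16476568)) (b (c (l 16485832) (l 16474328)) (c (l 16474680) (l 16462488))))))) (a (a (a (b (l 16506464) (l 16486808)) (b (l 16498560) (l 16478736))) (a (b (l 16490840) (l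 16470912)) (b (l 16483256) (l 16463056)))) (a (b (a (l 16475592) (c (l 16473808) (l 16461720))) (a (l 16455040) (l 16467984))) (b (a (c (l 16466240) (l 16453520)) (c (l 16479480) (l 16445200))) (a (c (l 16445768) (l 16431856)) (l 6))))))), by decide +kernel⟩

def k100_A00pm_102_s1 : ∃ t, chk3 f_A00pm_102_s1 t 3 3 1 = true :=
  ⟨(a (b (a (b (a (b (a (b (a (l 16604480) (l 16600824)) (l 16586608)) (b (l 16638328) (l 16620688))) (a (l 2) (b (l 16562960) (l 2)))) (b (a (b (a (l 16592760) (l 16590848)) (l 16613488)) (b (c (l 16590288) (l 16584760)) (a (l 16567296) (l 16564840)))) (a (b (l 16596384) (l 16539160)) (b (a (l 16548296) (l 16544776)) (c (l 16535488) (l 16524432)))))) (a (l 2) (b (a (l 2) (b (l 16557144) (l 2))) (l 2)))) (b (a (b (a (b (l 16624096) (c (l 16564016) (l 16557576))) (b (l 16616104) (l 16595896))) (c (a (b (l 16544448) (l 16526344)) (b (l 16537048) (l 16518200))) (a (b (l 16536104) (l 16516032)) (b (l 16529504) (l 16508736))))) (b (a (b (l 16604864) (l 16543680)) (b (l 16633056)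 (l 16530240))) (a (b (l 16524096) (c (l 16508640) (l 16499592))) (b (l 16511600) (l 16492672))))) (b (b (a (a (c (l 16511264) (l 16499352)) (l 16537032)) (a (c (l 16490544) (l 16479552)) (l 6))) (l 6)) (l 6)))) (l 6)) (b (b (a (a (b (a (b (l 16533200) (l 16514664)) (l 16590528)) (a (b (l 16496344) (l 16478328)) (b (l 16479384) (l 6)))) (b (a (l 16572352) (a (l 16475016) (l 16466560))) (a (a (l 16457216) (l 16447776)) (l 6)))) (a (b (a (a (l 16458440) (l 16492488)) (b (a (l 16451976) (l 16443976)) (l 6))) (l 6)) (l 6))) (a (l 6) (l 6))) (l 6))), by decide +kernel⟩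

theorem t101_A00pm_102_s1 : ∃ t, chk3 f_A00pm_102_s1 t 15 41 1 = true := ex3_a k96_A00pm_102_s1 k97_A00pm_102_s1

theorem t102_A00pm_102_s1 : ∃ t, chk3 f_A00pm_102_s1 t 15 40 1 = true := ex3_a k94_A00pm_102_s1 k95_A00pm_102_s1

theorem t103_A00pm_102_s1 : ∃ t, chk3 f_A00pm_102_s1 t 15 20 1 = true := ex3_b t102_A00pm_102_s1 t101_A00pm_102_s1

theorem t104_A00pm_102_s1 : ∃ t, chk3 f_A00pm_102_s1 t 15 10 1 = true := ex3_b t103_A00pm_102_s1 k98_A00pm_102_s1

theorem t105_A00pm_102_s1 : ∃ t, chk3 f_A00pm_102_s1 t 56 40 1 = true := ex3_b k88_A00pm_102_s1 k89_A00pm_102_s1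

theorem t106_A00pm_102_s1 : ∃ t, chk3 f_A00pm_102_s1 t 28 40 1 = true := ex3_a t105_A00pm_102_s1 k90_A00pm_102_s1

theorem t107_A00pm_102_s1 : ∃ t, chk3 f_A00pm_102_s1 t 14 40 1 = true := ex3_a t106_A00pm_102_s1 k91_A00pm_102_s1

theorem t108_A00pm_102_s1 : ∃ t, chk3 f_A00pm_102_s1 t 14 20 1 = true := ex3_b t107_A00pm_102_s1 k92_A00pm_102_s1

theorem t109_A00pm_102_s1 : ∃ t, chk3 f_A00pm_102_s1 t 14 10 1 = true := ex3_b t108_A00pm_102_s1 k93_A00pm_102_s1

theorem t110_A00pm_102_s1 : ∃ t, chk3 f_A00pm_102_s1 t 7 10 1 = true := ex3_a t109_A00pm_102_s1 t104_A00pm_102_s1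

theorem t111_A00pm_102_s1 : ∃ t, chk3 f_A00pm_102_s1 t 7 5 1 = true := ex3_b t110_A00pm_102_s1 k99_A00pm_102_s1

theorem t112_A00pm_102_s1 : ∃ t, chk3 f_A00pm_102_s1 t 13 167 1 = true := ex3_a k84_A00pm_102_s1 k85_A00pm_102_s1

theorem t113_A00pm_102_s1 : ∃ t, chk3 f_A00pm_102_s1 t 13 83 1 = true := ex3_b k83_A00pm_102_s1 t112_A00pm_102_s1

theorem t114_A00pm_102_s1 : ∃ t, chk3 f_A00pm_102_s1 t 12 167 1 = true := ex3_b k81_A00pm_102_s1 k82_A00pm_102_s1

theorem t115_A00pm_102_s1 : ∃ t, chk3 f_A00pm_102_s1 t 12 83 1 = true := ex3_b k80_A00pm_102_s1 t114_A00pm_102_s1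

theorem t116_A00pm_102_s1 : ∃ t, chk3 f_A00pm_102_s1 t 6 83 1 = true := ex3_a t115_A00pm_102_s1 t113_A00pm_102_s1

theorem t117_A00pm_102_s1 : ∃ t, chk3 f_A00pm_102_s1 t 6 82 1 = true := ex3_c k78_A00pm_102_s1 k79_A00pm_102_s1

theorem t118_A00pm_102_s1 : ∃ t, chk3 f_A00pm_102_s1 t 6 41 1 = true := ex3_b t117_A00pm_102_s1 t116_A00pm_102_s1

theorem t119_A00pm_102_s1 : ∃ t, chk3 f_A00pm_102_s1 t 6 81 1 = true := ex3_a k76_A00pm_102_s1 k77_A00pm_102_s1

theorem t120_A00pm_102_s1 : ∃ t, chk3 f_A00pm_102_s1 t 6 80 1 = true := ex3_a k74_A00pm_102_s1 k75_A00pm_102_s1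

theorem t121_A00pm_102_s1 : ∃ t, chk3 f_A00pm_102_s1 t 6 40 1 = true := ex3_b t120_A00pm_102_s1 t119_A00pm_102_s1

theorem t122_A00pm_102_s1 : ∃ t, chk3 f_A00pm_102_s1 t 6 20 1 = true := ex3_b t121_A00pm_102_s1 t118_A00pm_102_s1

theorem t123_A00pm_102_s1 : ∃ t, chk3 f_A00pm_102_s1 t 6 10 1 = true := ex3_b t122_A00pm_102_s1 k86_A00pm_102_s1

theorem t124_A00pm_102_s1 : ∃ t, chk3 f_A00pm_102_s1 t 6 5 1 = true := ex3_b t123_A00pm_102_s1 k87_A00pm_102_s1

theorem t125_A00pm_102_s1 : ∃ t, chk3 f_A00pm_102_s1 t 3 5 1 = true := ex3_a t124_A00pm_102_s1 t111_A00pm_102_s1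

theorem t126_A00pm_102_s1 : ∃ t, chk3 f_A00pm_102_s1 t 31 19 1 = true := ex3_b k72_A00pm_102_s1 k73_A00pm_102_s1

theorem t127_A00pm_102_s1 : ∃ t, chk3 f_A00pm_102_s1 t 30 38 1 = true := ex3_a k69_A00pm_102_s1 k70_A00pm_102_s1

theorem t128_A00pm_102_s1 : ∃ t, chk3 f_A00pm_102_s1 t 30 19 1 = true := ex3_b t127_A00pm_102_s1 k71_A00pm_102_s1

theorem t129_A00pm_102_s1 : ∃ t, chk3 f_A00pm_102_s1 t 15 19 1 = true := ex3_a t128_A00pm_102_s1 t126_A00pm_102_s1

theorem t130_A00pm_102_s1 : ∃ t, chk3 f_A00pm_102_s1 t 29 39 1 = true := ex3_a k67_A00pm_102_s1 k68_A00pm_102_s1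

theorem t131_A00pm_102_s1 : ∃ t, chk3 f_A00pm_102_s1 t 59 76 1 = true := ex3_a k64_A00pm_102_s1 k65_A00pm_102_s1

theorem t132_A00pm_102_s1 : ∃ t, chk3 f_A00pm_102_s1 t 59 38 1 = true := ex3_b t131_A00pm_102_s1 k66_A00pm_102_s1

theorem t133_A00pm_102_s1 : ∃ t, chk3 f_A00pm_102_s1 t 58 77 1 = true := ex3_a k62_A00pm_102_s1 k63_A00pm_102_s1

theorem t134_A00pm_102_s1 : ∃ t, chk3 f_A00pm_102_s1 t 58 76 1 = true := ex3_b k60_A00pm_102_s1 k61_A00pm_102_s1

theorem t135_A00pm_102_s1 : ∃ t, chk3 f_A00pm_102_s1 t 58 38 1 = true := ex3_b t134_A00pm_102_s1 t133_A00pm_102_s1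

theorem t136_A00pm_102_s1 : ∃ t, chk3 f_A00pm_102_s1 t 29 38 1 = true := ex3_a t135_A00pm_102_s1 t132_A00pm_102_s1

theorem t137_A00pm_102_s1 : ∃ t, chk3 f_A00pm_102_s1 t 29 19 1 = true := ex3_b t136_A00pm_102_s1 t130_A00pm_102_s1

theorem t138_A00pm_102_s1 : ∃ t, chk3 f_A00pm_102_s1 t 57 78 1 = true := ex3_a k57_A00pm_102_s1 k58_A00pm_102_s1

theorem t139_A00pm_102_s1 : ∃ t, chk3 f_A00pm_102_s1 t 57 39 1 = true := ex3_b t138_A00pm_102_s1 k59_A00pm_102_s1

theorem t140_A00pm_102_s1 : ∃ t, chk3 f_A00pm_102_s1 t 113 39 1 = true := ex3_b k55_A00pm_102_s1 k56_A00pm_102_s1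

theorem t141_A00pm_102_s1 : ∃ t, chk3 f_A00pm_102_s1 t 56 39 1 = true := ex3_a k54_A00pm_102_s1 t140_A00pm_102_s1

theorem t142_A00pm_102_s1 : ∃ t, chk3 f_A00pm_102_s1 t 28 39 1 = true := ex3_a t141_A00pm_102_s1 t139_A00pm_102_s1

theorem t143_A00pm_102_s1 : ∃ t, chk3 f_A00pm_102_s1 t 28 38 1 = true := ex3_a k52_A00pm_102_s1 k53_A00pm_102_s1

theorem t144_A00pm_102_s1 : ∃ t, chk3 f_A00pm_102_s1 t 28 19 1 = true := ex3_b t143_A00pm_102_s1 t142_A00pm_102_s1

theorem t145_A00pm_102_s1 : ∃ t, chk3 f_A00pm_102_s1 t 14 19 1 = true := ex3_a t144_A00pm_102_s1 t137_A00pm_102_s1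

theorem t146_A00pm_102_s1 : ∃ t, chk3 f_A00pm_102_s1 t 7 19 1 = true := ex3_a t145_A00pm_102_s1 t129_A00pm_102_s1

theorem t147_A00pm_102_s1 : ∃ t, chk3 f_A00pm_102_s1 t 31 18 1 = true := ex3_a k50_A00pm_102_s1 k51_A00pm_102_s1

theorem t148_A00pm_102_s1 : ∃ t, chk3 f_A00pm_102_s1 t 30 37 1 = true := ex3_a k48_A00pm_102_s1 k49_A00pm_102_s1

theorem t149_A00pm_102_s1 : ∃ t, chk3 f_A00pm_102_s1 t 30 36 1 = true := ex3_a k46_A00pm_102_s1 k47_A00pm_102_s1

theorem t150_A00pm_102_s1 : ∃ t, chk3 f_A00pm_102_s1 t 30 18 1 = true := ex3_b t149_A00pm_102_s1 t148_A00pm_102_s1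

theorem t151_A00pm_102_s1 : ∃ t, chk3 f_A00pm_102_s1 t 15 18 1 = true := ex3_a t150_A00pm_102_s1 t147_A00pm_102_s1

theorem t152_A00pm_102_s1 : ∃ t, chk3 f_A00pm_102_s1 t 59 75 1 = true := ex3_a k44_A00pm_102_s1 k45_A00pm_102_s1

theorem t153_A00pm_102_s1 : ∃ t, chk3 f_A00pm_102_s1 t 29 75 1 = true := ex3_a k43_A00pm_102_s1 t152_A00pm_102_s1

theorem t154_A00pm_102_s1 : ∃ t, chk3 f_A00pm_102_s1 t 29 37 1 = true := ex3_b k42_A00pm_102_s1 t153_A00pm_102_s1

theorem t155_A00pm_102_s1 : ∃ t, chk3 f_A00pm_102_s1 t 29 18 1 = true := ex3_b k41_A00pm_102_s1 t154_A00pm_102_s1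

theorem t156_A00pm_102_s1 : ∃ t, chk3 f_A00pm_102_s1 t 14 18 1 = true := ex3_a k40_A00pm_102_s1 t155_A00pm_102_s1

theorem t157_A00pm_102_s1 : ∃ t, chk3 f_A00pm_102_s1 t 7 18 1 = true := ex3_a t156_A00pm_102_s1 t151_A00pm_102_s1

theorem t158_A00pm_102_s1 : ∃ t, chk3 f_A00pm_102_s1 t 7 9 1 = true := ex3_b t157_A00pm_102_s1 t146_A00pm_102_s1

theorem t159_A00pm_102_s1 : ∃ t, chk3 f_A00pm_102_s1 t 62 17 1 = true := ex3_b k37_A00pm_102_s1 k38_A00pm_102_s1

theorem t160_A00pm_102_s1 : ∃ t, chk3 f_A00pm_102_s1 t 31 17 1 = true := ex3_a t159_A00pm_102_s1 k39_A00pm_102_s1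

theorem t161_A00pm_102_s1 : ∃ t, chk3 f_A00pm_102_s1 t 30 35 1 = true := ex3_a k35_A00pm_102_s1 k36_A00pm_102_s1

theorem t162_A00pm_102_s1 : ∃ t, chk3 f_A00pm_102_s1 t 30 17 1 = true := ex3_b k34_A00pm_102_s1 t161_A00pm_102_s1

theorem t163_A00pm_102_s1 : ∃ t, chk3 f_A00pm_102_s1 t 15 17 1 = true := ex3_a t162_A00pm_102_s1 t160_A00pm_102_s1

theorem t164_A00pm_102_s1 : ∃ t, chk3 f_A00pm_102_s1 t 15 8 1 = true := ex3_b k33_A00pm_102_s1 t163_A00pm_102_s1

theorem t165_A00pm_102_s1 : ∃ t, chk3 f_A00pm_102_s1 t 7 8 1 = true := ex3_a k32_A00pm_102_s1 t164_A00pm_102_s1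

theorem t166_A00pm_102_s1 : ∃ t, chk3 f_A00pm_102_s1 t 7 4 1 = true := ex3_b t165_A00pm_102_s1 t158_A00pm_102_s1

theorem t167_A00pm_102_s1 : ∃ t, chk3 f_A00pm_102_s1 t 13 4 3 = true := ex3_a k30_A00pm_102_s1 k31_A00pm_102_s1

theorem t168_A00pm_102_s1 : ∃ t, chk3 f_A00pm_102_s1 t 26 39 2 = true := ex3_b k27_A00pm_102_s1 k28_A00pm_102_s1

theorem t169_A00pm_102_s1 : ∃ t, chk3 f_A00pm_102_s1 t 26 19 2 = true := ex3_b k26_A00pm_102_s1 t168_A00pm_102_s1

theorem t170_A00pm_102_s1 : ∃ t, chk3 f_A00pm_102_s1 t 26 9 2 = true := ex3_b k25_A00pm_102_s1 t169_A00pm_102_s1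

theorem t171_A00pm_102_s1 : ∃ t, chk3 f_A00pm_102_s1 t 26 4 2 = true := ex3_b k24_A00pm_102_s1 t170_A00pm_102_s1

theorem t172_A00pm_102_s1 : ∃ t, chk3 f_A00pm_102_s1 t 13 4 2 = true := ex3_a t171_A00pm_102_s1 k29_A00pm_102_s1

theorem t173_A00pm_102_s1 : ∃ t, chk3 f_A00pm_102_s1 t 13 4 1 = true := ex3_c t172_A00pm_102_s1 t167_A00pm_102_s1

theorem t174_A00pm_102_s1 : ∃ t, chk3 f_A00pm_102_s1 t 6 4 1 = true := ex3_a k23_A00pm_102_s1 t173_A00pm_102_s1

theorem t175_A00pm_102_s1 : ∃ t, chk3 f_A00pm_102_s1 t 3 4 1 = true := ex3_a t174_A00pm_102_s1 t166_A00pm_102_s1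

theorem t176_A00pm_102_s1 : ∃ t, chk3 f_A00pm_102_s1 t 3 2 1 = true := ex3_b t175_A00pm_102_s1 t125_A00pm_102_s1

theorem t177_A00pm_102_s1 : ∃ t, chk3 f_A00pm_102_s1 t 3 1 1 = true := ex3_b t176_A00pm_102_s1 k100_A00pm_102_s1

theorem t178_A00pm_102_s1 : ∃ t, chk3 f_A00pm_102_s1 t 5 21 1 = true := ex3_a k19_A00pm_102_s1 k20_A00pm_102_s1

theorem t179_A00pm_102_s1 : ∃ t, chk3 f_A00pm_102_s1 t 23 41 1 = true := ex3_a k17_A00pm_102_s1 k18_A00pm_102_s1

theorem t180_A00pm_102_s1 : ∃ t, chk3 f_A00pm_102_s1 t 44 83 1 = true := ex3_c k14_A00pm_102_s1 k15_A00pm_102_s1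

theorem t181_A00pm_102_s1 : ∃ t, chk3 f_A00pm_102_s1 t 22 83 1 = true := ex3_a t180_A00pm_102_s1 k16_A00pm_102_s1

theorem t182_A00pm_102_s1 : ∃ t, chk3 f_A00pm_102_s1 t 22 82 1 = true := ex3_b k12_A00pm_102_s1 k13_A00pm_102_s1

theorem t183_A00pm_102_s1 : ∃ t, chk3 f_A00pm_102_s1 t 22 41 1 = true := ex3_b t182_A00pm_102_s1 t181_A00pm_102_s1

theorem t184_A00pm_102_s1 : ∃ t, chk3 f_A00pm_102_s1 t 11 41 1 = true := ex3_a t183_A00pm_102_s1 t179_A00pm_102_s1

theorem t185_A00pm_102_s1 : ∃ t, chk3 f_A00pm_102_s1 t 23 163 1 = true := ex3_a k10_A00pm_102_s1 k11_A00pm_102_s1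

theorem t186_A00pm_102_s1 : ∃ t, chk3 f_A00pm_102_s1 t 23 81 1 = true := ex3_b k9_A00pm_102_s1 t185_A00pm_102_s1

theorem t187_A00pm_102_s1 : ∃ t, chk3 f_A00pm_102_s1 t 23 40 1 = true := ex3_b k8_A00pm_102_s1 t186_A00pm_102_s1

theorem t188_A00pm_102_s1 : ∃ t, chk3 f_A00pm_102_s1 t 11 40 1 = true := ex3_a k7_A00pm_102_s1 t187_A00pm_102_s1

theorem t189_A00pm_102_s1 : ∃ t, chk3 f_A00pm_102_s1 t 11 20 1 = true := ex3_b t188_A00pm_102_s1 t184_A00pm_102_s1

theorem t190_A00pm_102_s1 : ∃ t, chk3 f_A00pm_102_s1 t 21 41 2 = true := ex3_b k4_A00pm_102_s1 k5_A00pm_102_s1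

theorem t191_A00pm_102_s1 : ∃ t, chk3 f_A00pm_102_s1 t 21 41 1 = true := ex3_c t190_A00pm_102_s1 k6_A00pm_102_s1

theorem t192_A00pm_102_s1 : ∃ t, chk3 f_A00pm_102_s1 t 10 41 1 = true := ex3_a k3_A00pm_102_s1 t191_A00pm_102_s1

theorem t193_A00pm_102_s1 : ∃ t, chk3 f_A00pm_102_s1 t 10 20 1 = true := ex3_b k2_A00pm_102_s1 t192_A00pm_102_s1

theorem t194_A00pm_102_s1 : ∃ t, chk3 f_A00pm_102_s1 t 5 20 1 = true := ex3_a t193_A00pm_102_s1 t189_A00pm_102_s1

theorem t195_A00pm_102_s1 : ∃ t, chk3 f_A00pm_102_s1 t 5 10 1 = true := ex3_b t194_A00pm_102_s1 t178_A00pm_102_s1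

theorem t196_A00pm_102_s1 : ∃ t, chk3 f_A00pm_102_s1 t 2 10 1 = true := ex3_a k1_A00pm_102_s1 t195_A00pm_102_s1

theorem t197_A00pm_102_s1 : ∃ t, chk3 f_A00pm_102_s1 t 2 5 1 = true := ex3_b t196_A00pm_102_s1 k21_A00pm_102_s1

theorem t198_A00pm_102_s1 : ∃ t, chk3 f_A00pm_102_s1 t 2 2 1 = true := ex3_b k0_A00pm_102_s1 t197_A00pm_102_s1

theorem t199_A00pm_102_s1 : ∃ t, chk3 f_A00pm_102_s1 t 2 1 1 = true := ex3_b t198_A00pm_102_s1 k22_A00pm_102_s1

theorem t200_A00pm_102_s1 : ∃ t, chk3 f_A00pm_102_s1 t 1 1 1 = true := ex3_a t199_A00pm_102_s1 t177_A00pm_102_s1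

theorem c_A00pm_102_s1 : CertF 536870912 536870912 0 536870912 818728140 40265320 true true false .npp 1 0 2
    ndB0q1 ndB0q0 pcB2 cut_A00pm_102_s1 xt_A00pm_102_s1 :=
  certF1 (fam := true) (s1 := true) (s2 := false) (a := 1) (b := 0) (c := 2) (cn := .npp) (n1 := ndB0q1) (n2 := ndB0q0) (pc := pcB2) (cut := cut_A00pm_102_s1) (xt := xt_A00pm_102_s1) (P1 := 536870912) (W1 := 536870912) (P2 := 0) (W2 := 536870912) (P3 := 818728140) (W3 := 40265320)
    rfl (fun _ => rfl) t200_A00pm_102_s1

theorem s_A00pm_102_s1 {κ x : ℝ} (hκ : κ * h0 = ken x) (hx : ((818728140 : ℕ) : ℝ) / S ≤ x)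
    (hx' : x ≤ (((818728140 : ℕ) : ℝ) + (40265320 : ℕ)) / S)
    (H : CutA (VFD κ) PP tK tL pcB (Cut.of [[⟨0, 1, 0, 67108864⟩, ⟨1, 0, 0, 67108864⟩, ⟨2, 1, 0, 67108864⟩]]) 1 0 2 0 0 (sgb true) (sgb false) x) :
    AltA (VFD κ) PP tK tL pcB [⟨3, 0, 0, 1449551462⟩] 1 0 2 0 0 (sgb true) (sgb false) x :=
  strip_altAD (m := 1449551462) true rfl hκ (SH.κ0 hκ (SH.hx1 hx).le (SH.hx2 hx').le) (SH.hx1 hx).le (SH.hx2 hx') (covB01).cov (covB00).cov hx hx' c_A00pm_102_s1 H ((okx hx hx').extA (T := tt) (sideB hx hx') hκ rfl rfl (.O 1 true) (.O 0 false) rfl)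

end Pool.Agent.Strip051.G.I7625_8000.Tab.St.C
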