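import Pool.Agent.Strip051.G.I7625_8000.StH
import Pool.Agent.Strip051.G.I7625_8000.StF

/-! # Unit strips 6 (generated) -/

set_option linter.all false
set_option maxRecDepth 100000

namespace Pool.Agent.Strip051.G.I7625_8000.Tab.St.C

open Pool.Agent.Strip051.PB Pool.Agent.Strip051.PB.T Pool.Agent.StripNear Pool.Agent.Strip051.LC
open Pool.Agent.Strip051.G.I7625_8000.Tab Pool.Agent.Strip051.G.I7625_8000.Tab.St

noncomputable def cut_A00pm_102_s3 : Cut := Cut.of [[⟨3, 0, 0, 2845415833⟩], [⟨0, 1, 0, 67108864⟩, ⟨1, 0, 0, 67108864⟩, ⟨2, 1, 0, 67108864⟩]]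

noncomputable def f_A00pm_102_s3 : ℕ → ℕ → ℕ → ℕ → Bool := onCell 536870912 536870912 0 536870912 818728140 40265320
    (rowF 0 true true false .npp 1 0 2 (qsf 536870912 536870912 0 536870912 2) ndB0q1 ndB0q0 pcB2 cut_A00pm_102_s3 Ext.none)

def k0_A00pm_102_s3 : ∃ t, chk3 f_A00pm_102_s3 t 1 1 1 = true :=
  ⟨(l 6), by decide +kernel⟩

theorem c_A00pm_102_s3 : CertF 536870912 536870912 0 536870912 818728140 40265320 true true false .npp 1 0 2
    ndB0q1 ndB0q0 pcB2 cut_A00pm_102_s3 Ext.none :=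
  certF0 (fam := true) (s1 := true) (s2 := false) (a := 1) (b := 0) (c := 2) (cn := .npp) (n1 := ndB0q1) (n2 := ndB0q0) (pc := pcB2) (cut := cut_A00pm_102_s3) (xt := Ext.none) (P1 := 536870912) (W1 := 536870912) (P2 := 0) (W2 := 536870912) (P3 := 818728140) (W3 := 40265320)
    rfl k0_A00pm_102_s3

theorem s_A00pm_102_s3 {κ x : ℝ} (hκ : κ * h0 = ken x) (hx : ((818728140 : ℕ) : ℝ) / S ≤ x)
    (hx' : x ≤ (((818728140 : ℕ) : ℝ) + (40265320 : ℕ)) / S)
    (H : CutA (VFD κ) PP tK tL pcB (Cut.of [[⟨0, 1, 0, 67108864⟩, ⟨1, 0, 0, 67108864⟩, ⟨2, 1, 0, 67108864⟩]]) 1 0 2 0 0 (sgb true) (sgb false) x) :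
    AltA (VFD κ) PP tK tL pcB [⟨4, 0, 0, 2845415833⟩] 1 0 2 0 0 (sgb true) (sgb false) x :=
  strip_altAD (m := 2845415833) false rfl hκ (SH.κ0 hκ (SH.hx1 hx).le (SH.hx2 hx').le) (SH.hx1 hx).le (SH.hx2 hx') (covB01).cov (covB00).cov hx hx' c_A00pm_102_s3 H (noExt_A)

noncomputable def cut_A00pm_112_s1 : Cut := Cut.of [[⟨4, 0, 0, 1449551462⟩]]

noncomputable def xt_A00pm_112_s1 : Ext := strExt dd true true false .u0 .u0m .u2 .dn 1 1 2 rfl rfl gf2 vv ndB0q1 ndB0q1

noncomputable def f_A00pm_112_s1 : ℕ → ℕ → ℕ → ℕ → Bool := onCell 536870912 536870912 1073741824 536870912 818728140 40265320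
    (rowF 1 true true false .dn 1 1 2 (qsf 536870912 536870912 536870912 536870912 2) ndB0q1 ndB0q1 pcB2 cut_A00pm_112_s1 xt_A00pm_112_s1)

def k0_A00pm_112_s1 : ∃ t, chk3 f_A00pm_112_s1 t 2 4 1 = true :=
  ⟨(b (l 3) (l 3)), by decide +kernel⟩

def k1_A00pm_112_s1 : ∃ t, chk3 f_A00pm_112_s1 t 4 40 1 = true :=
  ⟨(l 3), by decide +kernel⟩

def k2_A00pm_112_s1 : ∃ t, chk3 f_A00pm_112_s1 t 4 82 1 = true :=
  ⟨(l 3), by decide +kernel⟩

def k3_A00pm_112_s1 : ∃ t, chk3 f_A00pm_112_s1 t 16 83 2 = true :=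
  ⟨(a (b (b (l 3) (b (l 3) (a (b (l 532119423) (l 532325759)) (b (l 3) (a (l 532712831) (a (l 532909695) (l 3))))))) (a (a (b (b (b (b (l 532318847) (l 532368767)) (l 532400255)) (a (l 16774024) (l 16774312))) (b (l 16775464) (l 16771504))) (b (b (b (b (l 532561791) (l 532594047)) (l 532606847)) (b (l 532607103) (l 532601727))) (a (l 16772648) (l 16775560)))) (b (a (b (b (b (b (l 532779135) (a (l 532741247) (l 532844671))) (l 532798847)) (l 532796543)) (b (l 532788863) (l 532780159))) (b (b (b (a (l 534034191) (l 532990591)) (l 532974463)) (l 532972671)) (b (l 532969343) (l 532965503)))) (a (a (l 16775840) (l 16776104)) (a (l 16776360) (l 16776576)))))) (b (l 3) (b (l 533021759) (b (b (l 533023023) (b (b (l 533023535) (a (a (l 16774600) (l 16774896)) (a (l 16775176) (l 16775432)))) (l 533023839))) (b (c (a (a (l 16774032) (l 16774328)) (l 533125983)) (a (a (l 16773880) (l 16774192)) (l 532948575))) (a (a (l 16773392) (l 16773696))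 (l 533038687))))))), by decide +kernel⟩

def k4_A00pm_112_s1 : ∃ t, chk3 f_A00pm_112_s1 t 16 83 3 = true :=
  ⟨(a (b (b (l 3) (b (l 3) (a (b (l 531850623) (l 532015119)) (b (l 3) (a (l 532382591) (a (l 532572287) (l 3))))))) (a (a (b (b (b (b (l 531988863) (l 532024703)) (l 532044671)) (a (l 16773760) (l 16774064))) (a (l 16774200) (l 16774544))) (b (b (b (b (l 532218495) (l 532239231)) (l 532244351)) (b (l 532239999) (b (l 532234111) (l 16773976)))) (a (l 16774872) (l 16775184)))) (b (a (b (b (b (b (l 532428671) (a (l 532386175) (l 532485503))) (l 532437375)) (l 532431999)) (b (l 532422527) (l 532412799))) (b (b (b (a (b (l 532602239) (l 532578431)) (l 532630399)) (l 532614783)) (l 532612479)) (b (l 532609663) (l 532606079)))) (a (a (l 16775480) (l 16775768)) (a (l 16776040) (a (l 16773608) (l 16776344))))))) (b (l 3) (b (l 532659519) (b (b (l 532662063) (b (b (l 532662575) (a (a (l 16774352) (l 16774680)) (a (l 16774984) (l 16775264))))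 (l 532663135))) (a (a (l 16773344) (l 16773672)) (l 532676447)))))), by decide +kernel⟩

def k5_A00pm_112_s1 : ∃ t, chk3 f_A00pm_112_s1 t 17 83 1 = true :=
  ⟨(b (l 3) (b (b (l 3) (l 532899903)) (b (b (l 532901679) (b (b (l 532902447) (b (l 532902703) (b (l 532902959) (a (a (a (a (l 16775480) (l 16775600)) (a (l 16775712) (l 16775824))) (a (a (l 16775920) (l 16776016)) (a (l 16776112) (l 16776192)))) (a (a (a (l 16776272) (l 16776352)) (a (l 16776416) (c (l 16776520) (l 16776448)))) (a (a (c (l 16776576) (l 16776512)) (c (l 16776624) (l 16776568))) (a (c (l 16776672) (l 16776616)) (c (l 16776712) (l 16776664))))))))) (l 532903263))) (l 532904799)))), by decide +kernel⟩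

def k6_A00pm_112_s1 : ∃ t, chk3 f_A00pm_112_s1 t 9 83 1 = true :=
  ⟨(b (l 3) (b (a (l 3) (b (l 3) (l 532894543))) (b (b (l 532912943) (b (b (l 532914223) (b (l 532914735) (b (l 532914991) (a (a (a (a (a (c (l 16776752) (l 16776704)) (c (l 16776784) (l 16776744))) (a (c (l 16776808) (l 16776768)) (c (l 16776832) (l 16776800)))) (b (a (a (c (l 16776856) (l 16776824)) (a (l 16776856) (l 16776856))) (a (a (l 16776864) (l 16776864)) (c (l 16776888) (l 16776848)))) (l 532933471))) (a (a (a (a (l 16776856) (l 16776856)) (a (l 16776856) (l 16776848))) (a (a (l 16776840) (l 16776832)) (c (l 16776840) (l 16776808)))) (a (a (c (l 16776824) (l 16776784)) (c (l 16776792) (l 16776752))) (a (c (l 16776768) (l 16776720)) (c (l 16776728) (l 16776680)))))) (a (a (a (a (c (l 16776688) (l 16776640)) (c (l 16776640) (l 16776584))) (a (c (l 16776592) (l 16776536)) (c (l 16776536) (l 16776472)))) (a (a (c (l 16776480) (l 16776408)) (l 16776376)) (a (l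 16776304) (l 16776224)))) (a (a (a (l 16776144) (l 16776056)) (a (l 16775960) (l 16775856))) (a (a (l 16775752) (l 16775640)) (a (l 16775528) (l 16775408))))))))) (l 532915551))) (l 532917599)))), by decide +kernel⟩

def k7_A00pm_112_s1 : ∃ t, chk3 f_A00pm_112_s1 t 4 21 1 = true :=
  ⟨(a (b (a (b (b (b (a (a (a (c (l 16769472) (l 16768816)) (c (l 16770200) (l 16769584))) (a (c (l 16770864) (l 16770296)) (c (l 16771480) (l 16770952)))) (c (a (a (l 16771952) (l 16772288)) (l 533040735)) (a (a (l 16771472) (l 16771824)) (l 532679263)))) (a (a (a (l 16766272) (l 16767136)) (a (l 16767936) (l 16768688))) (a (a (l 16769272) (l 16769712)) (l 532865375)))) (a (a (a (l 16761872) (l 16762896)) (a (l 16763872) (l 16764784))) (a (a (l 16765568) (l 16766112)) (l 532870239)))) (a (b (a (l 16756448) (l 16758856)) (a (l 16750320) (l 16753168))) (b (a (l 16760840) (l 16761976)) (a (l 16755600) (l 16757128))))) (l 532921695)) (a (a (b (a (l 16740736)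 (l 16744248)) (a (l 16727288) (l 16731680))) (b (a (l 16747344) (l 16749608)) (a (l 16735656) (l 16738808)))) (a (b (l 532924255) (l 16762664)) (l 532977759)))) (l 533503071)), by decide +kernel⟩

def k8_A00pm_112_s1 : ∃ t, chk3 f_A00pm_112_s1 t 10 40 1 = true :=
  ⟨(l 3), by decide +kernel⟩

def k9_A00pm_112_s1 : ∃ t, chk3 f_A00pm_112_s1 t 20 41 2 = true :=
  ⟨(b (l 3) (a (b (b (l 3) (a (l 3) (b (l 3) (a (l 3) (b (l 3) (a (l 3) (l 532878991))))))) (a (a (b (l 533031759) (b (b (l 533036847) (l 16775288)) (l 16774496))) (b (l 533019215) (b (b (l 533024303) (l 16775016)) (l 16774232)))) (a (b (l 533005647) (b (b (l 533010991) (l 16774728)) (l 16773944))) (a (b (l 532995151) (l 16776856)) (b (b (b (b (l 532944015) (l 532951439)) (l 532960143)) (b (l 532969359) (l 16775384))) (l 16776680)))))) (b (b (l 3) (a (b (l 3) (b (l 532348047) (l 532570255))) (b (l 530544927) (b (l 531788431) (l 532040735))))) (a (b (b (b (b (b (l 532669327) (l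 532690575)) (a (l 532816783) (l 532614287))) (b (l 533538959) (l 532743567))) (b (a (l 532843919) (l 532664975)) (b (l 532765583) (l 532772239)))) (a (a (l 16776480) (l 16776232)) (a (l 16775976) (l 16773080)))) (a (b (b (b (b (l 532326799) (l 532390543)) (l 532440207)) (b (l 533012111) (l 532498063))) (b (l 16775840) (l 16772072))) (b (b (b (b (l 532074383) (l 532152719)) (l 532222095)) (b (l 532274063) (l 532306831))) (b (l 16775224) (l 16771424)))))))), by decide +kernel⟩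

def k10_A00pm_112_s1 : ∃ t, chk3 f_A00pm_112_s1 t 20 41 3 = true :=
  ⟨(b (l 3) (a (b (b (l 3) (a (l 3) (a (l 3) (b (l 3) (b (l 3) (a (l 3) (l 532541071))))))) (a (b (l 532662863) (a (b (b (l 532674607) (b (l 16775248) (l 16774960))) (l 16774240)) (b (b (l 532663343) (l 16774816)) (l 16773952)))) (a (b (l 532644943) (b (b (l 532651055) (l 16774496)) (l 16773632))) (b (b (b (a (l 532631375) (b (l 533121679) (l 532590991))) (l 532630415)) (b (l 532639631) (l 532648079))) (b (a (l 16774536) (l 16774344)) (l 16773296)))))) (b (b (l 3) (a (b (l 3) (b (l 532065935) (l 532246303))) (b (l 530362399) (b (l 531539599) (l 531748639))))) (a (a (b (b (b (b (l 532974879) (l 532455055)) (b (l 532462479) (l 532469135))) (b (l 532478863) (l 532491407))) (a (l 16776168) (l 16775904))) (b (b (b (b (l 532225423) (l 532258447)) (b (l 532274575) (l 532285327))) (b (l 532297615) (l 532311695))) (a (l 16775632) (l 16775336)))) (a (b (b (b (b (l 531996047)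 (l 532045199)) (l 532083087)) (b (a (l 16774600) (l 16774312)) (l 532128911))) (a (l 16775032) (l 16772088))) (a (b (b (b (b (l 531818639) (l 531877519)) (l 531927439)) (l 16773688)) (l 16771752)) (b (b (l 1) (l 16773360)) (l 16771400)))))))), by decide +kernel⟩

def k11_A00pm_112_s1 : ∃ t, chk3 f_A00pm_112_s1 t 21 41 1 = true :=
  ⟨(a (b (l 1) (b (l 1) (b (l 1) (b (l 1) (a (a (l 55868120983) (l 1)) (l 1)))))) (l 1)), by decide +kernel⟩

def k12_A00pm_112_s1 : ∃ t, chk3 f_A00pm_112_s1 t 11 20 1 = true :=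
  ⟨(l 1), by decide +kernel⟩

def k13_A00pm_112_s1 : ∃ t, chk3 f_A00pm_112_s1 t 5 21 1 = true :=
  ⟨(a (b (a (b (b (a (a (l 532869215) (a (l 532851039) (a (l 16770800) (l 16770624)))) (a (a (a (l 16775624) (l 16775360)) (a (l 16775040) (l 16774688))) (a (c (l 16774496) (l 16773792)) (c (l 16773744) (l 16772992))))) (a (l 532876127) (b (a (l 16771880) (l 16770256)) (a (l 16764416) (l 16762768))))) (a (l 532903775) (a (l 16769528) (a (l 16757728) (l 16756656))))) (a (a (b (b (a (c (l 16772936) (l 16772136)) (l 50499409015)) (c (l 16772984) (l 8623467559))) (b (l 16757080) (l 16752520))) (b (b (l 1) (l 56941846439)) (b (l 16765008) (l 16749584)))) (a (b (l 1) (l 51036255783)) (l 1)))) (a (a (l 532958559) (a (l 16767120) (l 16765296))) (a (b (a (l 16745872) (l 16742632)) (a (l 16737360) (l 16733744))) (b (a (l 16738928) (l 16745592)) (a (l 16729624) (l 16725048)))))) (a (a (a (a (b (l 1) (l 46741264903)) (l 1)) (l 1)) (l 1)) (l 1))),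 by decide +kernel⟩

def k14_A00pm_112_s1 : ∃ t, chk3 f_A00pm_112_s1 t 2 11 1 = true :=
  ⟨(a (a (b (a (a (b (a (b (l 16713072) (l 16699032)) (b (l 16718328) (l 16704208))) (a (l 16678072) (l 16683664))) (b (a (l 16758552) (l 16721080)) (a (l 16688896) (l 16694576)))) (a (b (c (l 16770336) (l 16765768)) (l 16744376)) (b (l 532995679) (l 16709672)))) (a (a (b (a (l 16652192) (l 16656400)) (a (l 16627944) (l 16631696))) (b (a (l 16661392) (l 16667496)) (l 16638192))) (b (a (l 16717592) (l 16686400)) (a (l 16649568) (l 16660072))))) (b (a (b (l 533054815) (l 533089631)) (l 533087071)) (a (b (l 533090415) (a (l 16670792) (l 16677864))) (l 533192031)))) (a (a (a (l 533119839) (b (b (l 16770416) (l 16711984)) (l 16771712))) (a (b (b (c (l 16767320) (l 16762584)) (l 16706568)) (l 16766480)) (b (b (a (l 16758472) (l 16732400)) (l 16739528)) (b (l 16681536) (l 16665944))))) (b (a (a (b (a (l 38688180999) (l 30098236487)) (a (l 16688728) (l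 16683088))) (b (a (l 44593743863) (l 1)) (a (l 16720328) (l 16716176)))) (b (l 1) (a (a (l 16713224) (l 1)) (l 1)))) (a (a (a (l 16748792) (l 16700944)) (b (a (l 16661328) (l 16656504)) (l 16643176))) (b (a (a (l 16652504) (l 16649016)) (a (l 16646576) (l 1))) (a (a (l 16635880) (l 16631736)) (a (l 16628280) (l 16624976)))))))), by decide +kernel⟩

def k15_A00pm_112_s1 : ∃ t, chk3 f_A00pm_112_s1 t 2 3 1 = true :=
  ⟨(a (b (a (b (b (a (a (b (a (l 16604200) (l 16607824)) (l 16582296)) (b (l 16614192) (l 16632488))) (a (b (l 16623000) (l 16599456)) (b (l 16634464) (l 16608384)))) (a (a (b (l 16558336) (l 16534208)) (b (l 16567632) (l 16544144))) (a (b (l 16576288) (l 16553864)) (b (l 16585336) (l 16562680))))) (b (a (a (b (a (l 16507512) (l 16512528)) (l 6)) (b (l 16520488) (c (l 16503872) (l 16490232)))) (a (c (l 16526296) (l 16511960)) (b (l 16540776) (l 16518312)))) (l 6))) (b (a (b (a (b (l 16644968) (l 16619880)) (b (l 16655584)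 (l 16630320))) (a (b (l 16594328) (l 16571832)) (b (l 16605800) (l 16580848)))) (b (b (l 16747608) (l 16644352)) (a (l 16603880) (l 16613784)))) (b (a (a (b (l 16549736) (l 16528408)) (b (l 16558952) (l 16537472))) (a (l 16557208) (l 16569048))) (l 6)))) (l 6)) (b (a (b (b (a (l 533296495) (a (l 16651936) (l 16643320))) (a (a (l 16622576) (l 16625272)) (a (l 16622840) (l 16615896)))) (b (a (a (l 16577544) (l 16586000)) (a (l 16590344) (l 16586264))) (l 6))) (b (a (b (a (l 16715792) (l 16662576)) (a (l 16603616) (l 16592496))) (b (a (b (l 16618512) (l 16603832)) (b (a (l 16612120) (l 16608168)) (l 16595256))) (a (l 16582888) (b (l 16581064) (l 16567512))))) (b (a (a (l 16577440) (l 16567704)) (a (l 16557096) (l 16548352))) (l 6)))) (l 6))), by decide +kernel⟩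

def k16_A00pm_112_s1 : ∃ t, chk3 f_A00pm_112_s1 t 3 1 1 = true :=
  ⟨(b (a (b (l 1) (b (l 1) (a (a (a (a (b (l 1) (b (l 1) (l 16622288))) (l 1)) (l 1)) (l 1)) (l 1)))) (l 1)) (a (b (a (b (a (b (b (a (l 23655609847) (l 44056691495)) (a (l 16628560) (l 17749981511))) (a (b (l 16572328) (l 16558632)) (b (l 16562968) (l 16549152)))) (b (a (b (l 1) (c (l 16575944) (l 16567224))) (l 1)) (a (b (l 16596400) (l 16539168)) (b (c (l 16593168) (l 16541832)) (c (l 16577448) (l 16524448)))))) (b (a (a (l 16539344) (l 16571568)) (a (c (l 16610424) (l 16512208)) (b (c (l 16521520) (l 16508888)) (l 16502336)))) (l 6))) (b (a (b (l 1) (a (b (l 1) (l 33319122807)) (l 1))) (l 1)) (b (b (a (a (c (l 16511272) (l 16499368)) (c (l 16500864) (l 16489424))) (l 1)) (l 6)) (l 6)))) (l 6)) (b (a (b (l 1) (l 6)) (l 1)) (l 6)))), by decide +kernel⟩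

theorem t17_A00pm_112_s1 : ∃ t, chk3 f_A00pm_112_s1 t 20 41 1 = true := ex3_c k9_A00pm_112_s1 k10_A00pm_112_s1

theorem t18_A00pm_112_s1 : ∃ t, chk3 f_A00pm_112_s1 t 10 41 1 = true := ex3_a t17_A00pm_112_s1 k11_A00pm_112_s1

theorem t19_A00pm_112_s1 : ∃ t, chk3 f_A00pm_112_s1 t 10 20 1 = true := ex3_b k8_A00pm_112_s1 t18_A00pm_112_s1

theorem t20_A00pm_112_s1 : ∃ t, chk3 f_A00pm_112_s1 t 5 20 1 = true := ex3_a t19_A00pm_112_s1 k12_A00pm_112_s1

theorem t21_A00pm_112_s1 : ∃ t, chk3 f_A00pm_112_s1 t 5 10 1 = true := ex3_b t20_A00pm_112_s1 k13_A00pm_112_s1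

theorem t22_A00pm_112_s1 : ∃ t, chk3 f_A00pm_112_s1 t 16 83 1 = true := ex3_c k3_A00pm_112_s1 k4_A00pm_112_s1

theorem t23_A00pm_112_s1 : ∃ t, chk3 f_A00pm_112_s1 t 8 83 1 = true := ex3_a t22_A00pm_112_s1 k5_A00pm_112_s1

theorem t24_A00pm_112_s1 : ∃ t, chk3 f_A00pm_112_s1 t 4 83 1 = true := ex3_a t23_A00pm_112_s1 k6_A00pm_112_s1

theorem t25_A00pm_112_s1 : ∃ t, chk3 f_A00pm_112_s1 t 4 41 1 = true := ex3_b k2_A00pm_112_s1 t24_A00pm_112_s1

theorem t26_A00pm_112_s1 : ∃ t, chk3 f_A00pm_112_s1 t 4 20 1 = true := ex3_b k1_A00pm_112_s1 t25_A00pm_112_s1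

theorem t27_A00pm_112_s1 : ∃ t, chk3 f_A00pm_112_s1 t 4 10 1 = true := ex3_b t26_A00pm_112_s1 k7_A00pm_112_s1

theorem t28_A00pm_112_s1 : ∃ t, chk3 f_A00pm_112_s1 t 2 10 1 = true := ex3_a t27_A00pm_112_s1 t21_A00pm_112_s1

theorem t29_A00pm_112_s1 : ∃ t, chk3 f_A00pm_112_s1 t 2 5 1 = true := ex3_b t28_A00pm_112_s1 k14_A00pm_112_s1

theorem t30_A00pm_112_s1 : ∃ t, chk3 f_A00pm_112_s1 t 2 2 1 = true := ex3_b k0_A00pm_112_s1 t29_A00pm_112_s1

theorem t31_A00pm_112_s1 : ∃ t, chk3 f_A00pm_112_s1 t 2 1 1 = true := ex3_b t30_A00pm_112_s1 k15_A00pm_112_s1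

theorem t32_A00pm_112_s1 : ∃ t, chk3 f_A00pm_112_s1 t 1 1 1 = true := ex3_a t31_A00pm_112_s1 k16_A00pm_112_s1

theorem c_A00pm_112_s1 : CertF 536870912 536870912 536870912 536870912 818728140 40265320 true true false .dn 1 1 2
    ndB0q1 ndB0q1 pcB2 cut_A00pm_112_s1 xt_A00pm_112_s1 :=
  certF1 (fam := true) (s1 := true) (s2 := false) (a := 1) (b := 1) (c := 2) (cn := .dn) (n1 := ndB0q1) (n2 := ndB0q1) (pc := pcB2) (cut := cut_A00pm_112_s1) (xt := xt_A00pm_112_s1) (P1 := 536870912) (W1 := 536870912) (P2 := 536870912) (W2 := 536870912) (P3 := 818728140) (W3 := 40265320)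
    rfl (fun _ => rfl) t32_A00pm_112_s1

theorem s_A00pm_112_s1 {κ x : ℝ} (hκ : κ * h0 = ken x) (hx : ((818728140 : ℕ) : ℝ) / S ≤ x)
    (hx' : x ≤ (((818728140 : ℕ) : ℝ) + (40265320 : ℕ)) / S) :
    AltA (VFD κ) PP tK tL pcB [⟨3, 0, 0, 1449551462⟩] 1 1 2 0 0 (sgb true) (sgb false) x :=
  strip_altAD (m := 1449551462) true rfl hκ (SH.κ0 hκ (SH.hx1 hx).le (SH.hx2 hx').le) (SH.hx1 hx).le (SH.hx2 hx') (covB01).cov (covB01).cov hx hx' c_A00pm_112_s1 cutA_nil ((okx hx hx').extA (T := tt) (sideB hx hx') hκ rfl rfl (.O 1 true) (.O 1 false) rfl)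

noncomputable def cut_A00pm_112_s3 : Cut := Cut.of [[⟨3, 0, 0, 2845415833⟩]]

noncomputable def f_A00pm_112_s3 : ℕ → ℕ → ℕ → ℕ → Bool := onCell 536870912 536870912 1073741824 536870912 818728140 40265320
    (rowF 1 true true false .dn 1 1 2 (qsf 536870912 536870912 536870912 536870912 2) ndB0q1 ndB0q1 pcB2 cut_A00pm_112_s3 Ext.none)

def k0_A00pm_112_s3 : ∃ t, chk3 f_A00pm_112_s3 t 1 1 1 = true :=
  ⟨(l 6), by decide +kernel⟩

theorem c_A00pm_112_s3 : CertF 536870912 536870912 536870912 536870912 818728140 40265320 true true false .dn 1 1 2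
    ndB0q1 ndB0q1 pcB2 cut_A00pm_112_s3 Ext.none :=
  certF1 (fam := true) (s1 := true) (s2 := false) (a := 1) (b := 1) (c := 2) (cn := .dn) (n1 := ndB0q1) (n2 := ndB0q1) (pc := pcB2) (cut := cut_A00pm_112_s3) (xt := Ext.none) (P1 := 536870912) (W1 := 536870912) (P2 := 536870912) (W2 := 536870912) (P3 := 818728140) (W3 := 40265320)
    rfl (fun _ => rfl) k0_A00pm_112_s3

theorem s_A00pm_112_s3 {κ x : ℝ} (hκ : κ * h0 = ken x) (hx : ((818728140 : ℕ) : ℝ) / S ≤ x)
    (hx' : x ≤ (((818728140 : ℕ) : ℝ) + (40265320 : ℕ)) / S) :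
    AltA (VFD κ) PP tK tL pcB [⟨4, 0, 0, 2845415833⟩] 1 1 2 0 0 (sgb true) (sgb false) x :=
  strip_altAD (m := 2845415833) false rfl hκ (SH.κ0 hκ (SH.hx1 hx).le (SH.hx2 hx').le) (SH.hx1 hx).le (SH.hx2 hx') (covB01).cov (covB01).cov hx hx' c_A00pm_112_s3 cutA_nil (noExt_A)

noncomputable def cut_A00pm_113_s1 : Cut := Cut.of [[⟨4, 0, 0, 1449551462⟩], [⟨0, 1, 0, 67108864⟩, ⟨1, 1, 0, 67108864⟩, ⟨2, 2, 0, 16777216⟩], [⟨0, 0, 1, 26214400⟩, ⟨1, 1, 0, 33554432⟩, ⟨2, 1, 1, 26214400⟩], [⟨0, 1, 0, 33554432⟩, ⟨1, 0, 1, 26214400⟩, ⟨2, 1, 1, 26214400⟩]]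

noncomputable def f_A00pm_113_s1 : ℕ → ℕ → ℕ → ℕ → Bool := onCell 536870912 536870912 1610612736 536870912 818728140 40265320
    (rowF 1 true true false .nn 1 1 3 (qsf 536870912 536870912 536870912 536870912 3) ndB0q1 ndB0q1 pcB3 cut_A00pm_113_s1 Ext.none)

def k0_A00pm_113_s1 : ∃ t, chk3 f_A00pm_113_s1 t 1 1 1 = true :=
  ⟨(b (a (b (l 6) (l 6)) (l 6)) (l 6)), by decide +kernel⟩

theorem c_A00pm_113_s1 : CertF 536870912 536870912 536870912 536870912 818728140 40265320 true true false .nn 1 1 3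
    ndB0q1 ndB0q1 pcB3 cut_A00pm_113_s1 Ext.none :=
  certF1 (fam := true) (s1 := true) (s2 := false) (a := 1) (b := 1) (c := 3) (cn := .nn) (n1 := ndB0q1) (n2 := ndB0q1) (pc := pcB3) (cut := cut_A00pm_113_s1) (xt := Ext.none) (P1 := 536870912) (W1 := 536870912) (P2 := 536870912) (W2 := 536870912) (P3 := 818728140) (W3 := 40265320)
    rfl (fun _ => rfl) k0_A00pm_113_s1

theorem s_A00pm_113_s1 {κ x : ℝ} (hκ : κ * h0 = ken x) (hx : ((818728140 : ℕ) : ℝ) / S ≤ x)
    (hx' : x ≤ (((818728140 : ℕ) : ℝ) + (40265320 : ℕ)) / S)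
    (H : CutA (VFD κ) PP tK tL pcB (Cut.of [[⟨0, 1, 0, 67108864⟩, ⟨1, 1, 0, 67108864⟩, ⟨2, 2, 0, 16777216⟩], [⟨0, 0, 1, 26214400⟩, ⟨1, 1, 0, 33554432⟩, ⟨2, 1, 1, 26214400⟩], [⟨0, 1, 0, 33554432⟩, ⟨1, 0, 1, 26214400⟩, ⟨2, 1, 1, 26214400⟩]]) 1 1 3 0 0 (sgb true) (sgb false) x) :
    AltA (VFD κ) PP tK tL pcB [⟨3, 0, 0, 1449551462⟩] 1 1 3 0 0 (sgb true) (sgb false) x :=
  strip_altAD (m := 1449551462) true rfl hκ (SH.κ0 hκ (SH.hx1 hx).le (SH.hx2 hx').le) (SH.hx1 hx).le (SH.hx2 hx') (covB01).cov (covB01).cov hx hx' c_A00pm_113_s1 H (noExt_A)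

noncomputable def cut_A00pm_113_s3 : Cut := Cut.of [[⟨3, 0, 0, 2845415833⟩], [⟨0, 1, 0, 67108864⟩, ⟨1, 1, 0, 67108864⟩, ⟨2, 2, 0, 16777216⟩], [⟨0, 0, 1, 26214400⟩, ⟨1, 1, 0, 33554432⟩, ⟨2, 1, 1, 26214400⟩], [⟨0, 1, 0, 33554432⟩, ⟨1, 0, 1, 26214400⟩, ⟨2, 1, 1, 26214400⟩]]

noncomputable def f_A00pm_113_s3 : ℕ → ℕ → ℕ → ℕ → Bool := onCell 536870912 536870912 536870912 536870912 818728140 40265320
    (rowF 0 true true false .nn 1 1 3 (qsf 536870912 536870912 536870912 536870912 3) ndB0q1 ndB0q1 pcB3 cut_A00pm_113_s3 Ext.none)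

def k0_A00pm_113_s3 : ∃ t, chk3 f_A00pm_113_s3 t 2 1 1 = true :=
  ⟨(l 6), by decide +kernel⟩

def k1_A00pm_113_s3 : ∃ t, chk3 f_A00pm_113_s3 t 3 2 1 = true :=
  ⟨(l 6), by decide +kernel⟩

def k2_A00pm_113_s3 : ∃ t, chk3 f_A00pm_113_s3 t 6 3 1 = true :=
  ⟨(b (l 6) (b (l 6) (a (l 6) (b (l 6) (a (l 6) (b (l 6) (b (l 6) (b (l 6) (a (l 6) (a (l 6) (a (a (l 6) (a (l 6) (b (l 6) (b (l 6) (c (l 16729896) (l 16715256)))))) (c (b (a (l 6) (l 16736904)) (l 16732984)) (b (a (l 6) (l 16723184)) (c (l 16722376) (l 16715168))))))))))))))), by decide +kernel⟩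

def k3_A00pm_113_s3 : ∃ t, chk3 f_A00pm_113_s3 t 7 6 1 = true :=
  ⟨(a (l 6) (b (l 6) (a (l 6) (b (l 6) (a (l 6) (a (l 6) (a (l 6) (b (l 6) (b (l 6) (b (b (l 6) (b (l 6) (a (l 6) (a (l 6) (c (l 16729896) (l 16715256)))))) (c (a (b (l 6) (l 16736904)) (l 16732984)) (a (b (l 6) (l 16723184)) (c (l 16722376) (l 16715168)))))))))))))), by decide +kernel⟩

def k4_A00pm_113_s3 : ∃ t, chk3 f_A00pm_113_s3 t 14 7 1 = true :=
  ⟨(b (l 6) (b (a (l 6) (b (a (l 6) (l 16793256)) (a (b (a (l 6) (l 16844216)) (a (b (l 16804200) (l 16819008)) (b (l 16792424) (l 16785952)))) (b (l 16812912) (a (b (l 16841784) (l 16793472)) (l 16843984)))))) (a (b (a (a (l 6) (l 6)) (a (b (l 6) (c (l 16741632) (l 16753504))) (b (c (l 16804232) (l 16754752)) (l 16766808)))) (a (b (b (a (l 6) (a (l 16727248) (l 16763120))) (b (a (l 6) (l 16714320)) (a (a (l 6) (l 16746744)) (l 16721608)))) (a (a (b (b (a (l 6) (l 16740472)) (c (l 16742776) (l 16729768))) (c (l 16738264)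 (c (l 16728176) (l 16721320)))) (c (l 16708432) (b (l 16735792) (l 16728984)))) (c (a (l 16748960) (l 16752752)) (c (l 16710312) (l 16704112))))) (b (a (a (l 16732696) (l 16726328)) (c (l 16779264) (l 16769192))) (a (c (l 16716408) (l 16715192)) (c (l 16765560) (l 16733184)))))) (b (a (a (b (l 16788488) (l 16775112)) (b (c (l 16821456) (l 16814264)) (c (l 16808008) (l 16799552)))) (b (a (c (l 16807464) (l 16821672)) (b (l 16813568) (l 16827544))) (a (c (l 16814464) (l 16806432)) (c (l 16819528) (l 16812288))))) (a (a (b (c (l 16786784) (l 16776888)) (c (l 16772384) (l 16740176))) (b (c (l 16793760) (l 16784008)) (b (l 16756256) (l 16748144)))) (b (a (c (l 16799528) (l 16790184)) (c (l 16803912) (l 16784848))) (a (c (l 16783712) (l 16752040)) (c (l 16766424) (l 16766952))))))))), by decide +kernel⟩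

def k5_A00pm_113_s3 : ∃ t, chk3 f_A00pm_113_s3 t 15 14 1 = true :=
  ⟨(a (b (l 6) (a (b (l 6) (l 16793256)) (b (a (b (l 6) (l 16844216)) (b (a (l 16804200) (l 16819008)) (a (l 16792424) (l 16785952)))) (a (l 16812912) (b (a (l 16841784) (l 16793472)) (l 16843984)))))) (b (a (b (b (l 6) (l 6)) (b (a (l 6) (c (l 16741632) (l 16753504))) (a (c (l 16804232) (l 16754752)) (l 16766808)))) (b (a (a (b (l 6) (b (l 16727248) (l 16763120))) (a (b (l 6) (l 16714320)) (b (b (l 6) (l 16746744)) (l 16721608)))) (b (b (a (a (b (l 6) (l 16740472)) (c (l 16742776) (l 16729768))) (c (l 16738264) (c (l 16728176) (l 16721320)))) (c (l 16708432) (a (l 16735792) (l 16728984)))) (c (b (l 16748960) (l 16752752)) (c (l 16710312) (l 16704112))))) (a (b (b (l 16732696) (l 16726328)) (c (l 16779264) (l 16769192))) (b (c (l 16716408) (l 16715192)) (c (l 16765560) (l 16733184)))))) (a (b (b (a (l 16788488) (l 16775112)) (a (c (l 16821456) (l 16814264)) (c (l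 16808008) (l 16799552)))) (a (b (c (l 16807464) (l 16821672)) (a (l 16813568) (l 16827544))) (b (c (l 16814464) (l 16806432)) (c (l 16819528) (l 16812288))))) (b (b (a (c (l 16786784) (l 16776888)) (c (l 16772384) (l 16740176))) (a (c (l 16793760) (l 16784008)) (a (l 16756256) (l 16748144)))) (a (b (c (l 16799528) (l 16790184)) (c (l 16803912) (l 16784848))) (b (c (l 16783712) (l 16752040)) (c (l 16766424) (l 16766952)))))))), by decide +kernel⟩

def k6_A00pm_113_s3 : ∃ t, chk3 f_A00pm_113_s3 t 30 15 1 = true :=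
  ⟨(b (a (b (l 16885096) (b (l 16862248) (l 16806744))) (b (a (l 16862248) (l 16806744)) (a (l 16856208) (l 16849128)))) (b (b (a (a (b (l 16838184) (a (l 16810152) (l 16832752))) (l 16815944)) (a (l 16795040) (l 16835656))) (a (a (b (c (l 16827288) (l 16821464)) (l 16816264)) (b (a (l 16806224) (l 16807248)) (c (l 16822232) (l 16817032)))) (a (b (a (l 16828568) (l 16828208)) (a (l 16811160) (b (l 16824120) (l 16820592)))) (b (l 16827056) (a (l 16811616) (l 16821200)))))) (a (c (a (b (l 16796656) (l 16779440)) (b (b (l 16813744) (l 16805032)) (b (l 16796080) (l 16786880)))) (a (b (l 16799616) (b (l 16785752) (l 16776184))) (b (a (l 16802312) (l 16803912)) (b (l 16788728) (l 16778792))))) (b (a (b (a (l 16812664) (l 16813720)) (c (l 16806352) (l 16795896))) (b (a (b (l 16817032) (l 16812296)) (b (l 16806648) (l 16813128))) (a (l 16804992) (c (l 16807384) (l 16803968))))) (a (b (a (l 16793752) (l 16794432)) (a (l 16773432) (l 16773920)))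 (b (a (l 16789792) (c (l 16797624) (l 16793424))) (a (l 16779576) (c (l 16787600) (l 16782600))))))))), by decide +kernel⟩

def k7_A00pm_113_s3 : ∃ t, chk3 f_A00pm_113_s3 t 31 30 1 = true :=
  ⟨(a (a (b (b (a (l 16838184) (b (l 16810152) (l 16832752))) (l 16815944)) (b (l 16795040) (l 16835656))) (b (b (a (c (l 16827288) (l 16821464)) (l 16816264)) (a (b (l 16806224) (l 16807248)) (c (l 16822232) (l 16817032)))) (b (a (b (l 16828568) (l 16828208)) (b (l 16811160) (a (l 16824120) (l 16820592)))) (a (l 16827056) (b (l 16811616) (l 16821200)))))) (b (c (b (a (l 16796656) (l 16779440)) (a (a (l 16813744) (l 16805032)) (a (l 16796080) (l 16786880)))) (b (a (l 16799616) (a (l 16785752) (l 16776184))) (a (b (l 16802312) (l 16803912)) (a (l 16788728) (l 16778792))))) (a (b (a (b (l 16812664) (l 16813720)) (c (l 16806352) (l 16795896))) (a (b (a (l 16817032) (l 16812296)) (a (l 16806648) (l 16813128))) (b (l 16804992) (c (l 16807384) (l 16803968)))))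 (b (a (b (l 16793752) (l 16794432)) (b (l 16773432) (l 16773920))) (a (b (l 16789792) (c (l 16797624) (l 16793424))) (b (l 16779576) (c (l 16787600) (l 16782600)))))))), by decide +kernel⟩

def k8_A00pm_113_s3 : ∃ t, chk3 f_A00pm_113_s3 t 62 31 1 = true :=
  ⟨(b (a (b (l 16833008) (l 16800648)) (b (l 16800648) (l 16817400))) (b (a (b (a (b (l 16816088) (l 16802712)) (l 16792176)) (a (b (l 16808872) (l 16803800)) (b (a (l 16798704) (l 16798384)) (l 16793832)))) (b (l 16809808) (a (b (l 16807560) (a (l 16794088) (b (l 16805272) (l 16792944)))) (b (l 16805040) (a (l 16798216) (l 16802192)))))) (a (b (a (c (l 16797728) (l 16794224)) (b (l 16799048) (l 16793712))) (a (c (l 16787520) (l 16777960)) (b (l 16788304) (l 16777584)))) (b (b (a (a (l 16799304) (l 16788960)) (a (c (l 16789752) (l 16788336)) (b (l 16795168) (l 16793032)))) (a (c (l 16795080) (l 16792744)) (a (l 16794048) (a (l 16794080) (l 16788848))))) (c (a (b (l 16789776) (l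 16784408)) (b (l 16789480) (l 16781384))) (a (b (l 16787016) (l 16781216)) (b (l 16787384) (l 16778848)))))))), by decide +kernel⟩

def k9_A00pm_113_s3 : ∃ t, chk3 f_A00pm_113_s3 t 63 62 1 = true :=
  ⟨(a (b (a (b (a (l 16816088) (l 16802712)) (l 16792176)) (b (a (l 16808872) (l 16803800)) (a (b (l 16798704) (l 16798384)) (l 16793832)))) (a (l 16809808) (b (a (l 16807560) (b (l 16794088) (a (l 16805272) (l 16792944)))) (a (l 16805040) (b (l 16798216) (l 16802192)))))) (b (a (b (c (l 16797728) (l 16794224)) (a (l 16799048) (l 16793712))) (b (c (l 16787520) (l 16777960)) (a (l 16788304) (l 16777584)))) (a (a (b (b (l 16799304) (l 16788960)) (b (c (l 16789752) (l 16788336)) (a (l 16795168) (l 16793032)))) (b (c (l 16795080) (l 16792744)) (b (l 16794048) (a (l 16795488) (l 16792688))))) (c (b (a (l 16789776) (l 16784408)) (a (l 16789480) (l 16781384))) (b (a (l 16787016) (l 16781216)) (a (l 16787384) (l 16778848))))))), by decide +kernel⟩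

def k10_A00pm_113_s3 : ∃ t, chk3 f_A00pm_113_s3 t 63 63 1 = true :=
  ⟨(b (a (a (b (l 16805520) (l 16800976)) (a (l 16779424) (l 16798248))) (a (b (a (b (a (l 16799176) (a (l 16798336) (l 16797464))) (l 16797088)) (b (a (l 16790264) (l 16792688)) (a (b (l 16790160) (l 16789760)) (l 16787408)))) (a (l 16794424) (b (a (l 16793904) (b (l 16787320) (c (l 16789864) (l 16789288)))) (a (l 16791896) (l 14))))) (b (a (a (b (l 16789832) (l 16784528)) (b (l 16786960) (l 16786872))) (a (b (l 16784072) (l 16783960)) (b (l 16781168) (l 14)))) (a (b (a (b (l 16784464) (l 14)) (l 14)) (l 14)) (l 14))))) (a (b (a (b (a (b (l 16799176) (b (l 16798336) (l 16797464))) (l 16797088)) (a (b (l 16790264) (l 16792688)) (b (a (l 16790160) (l 16789760)) (l 16787408)))) (b (l 16794424) (a (b (l 16793904) (a (l 16787320) (c (l 16789864) (l 16789288)))) (b (l 16791896) (l 14))))) (a (b (b (a (l 16789832) (l 16784528)) (a (l 16786960) (l 16786872))) (a (c (l 16783624)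 (l 16781576)) (b (l 16783960) (l 14)))) (b (a (b (a (l 16784464) (l 14)) (l 14)) (l 14)) (l 14)))) (b (a (a (l 16785152) (l 14)) (l 14)) (l 14)))), by decide +kernel⟩

theorem t11_A00pm_113_s3 : ∃ t, chk3 f_A00pm_113_s3 t 63 31 1 = true := ex3_b k9_A00pm_113_s3 k10_A00pm_113_s3

theorem t12_A00pm_113_s3 : ∃ t, chk3 f_A00pm_113_s3 t 31 31 1 = true := ex3_a k8_A00pm_113_s3 t11_A00pm_113_s3

theorem t13_A00pm_113_s3 : ∃ t, chk3 f_A00pm_113_s3 t 31 15 1 = true := ex3_b k7_A00pm_113_s3 t12_A00pm_113_s3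

theorem t14_A00pm_113_s3 : ∃ t, chk3 f_A00pm_113_s3 t 15 15 1 = true := ex3_a k6_A00pm_113_s3 t13_A00pm_113_s3

theorem t15_A00pm_113_s3 : ∃ t, chk3 f_A00pm_113_s3 t 15 7 1 = true := ex3_b k5_A00pm_113_s3 t14_A00pm_113_s3

theorem t16_A00pm_113_s3 : ∃ t, chk3 f_A00pm_113_s3 t 7 7 1 = true := ex3_a k4_A00pm_113_s3 t15_A00pm_113_s3

theorem t17_A00pm_113_s3 : ∃ t, chk3 f_A00pm_113_s3 t 7 3 1 = true := ex3_b k3_A00pm_113_s3 t16_A00pm_113_s3

theorem t18_A00pm_113_s3 : ∃ t, chk3 f_A00pm_113_s3 t 3 3 1 = true := ex3_a k2_A00pm_113_s3 t17_A00pm_113_s3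

theorem t19_A00pm_113_s3 : ∃ t, chk3 f_A00pm_113_s3 t 3 1 1 = true := ex3_b k1_A00pm_113_s3 t18_A00pm_113_s3

theorem t20_A00pm_113_s3 : ∃ t, chk3 f_A00pm_113_s3 t 1 1 1 = true := ex3_a k0_A00pm_113_s3 t19_A00pm_113_s3

theorem c_A00pm_113_s3 : CertF 536870912 536870912 536870912 536870912 818728140 40265320 true true false .nn 1 1 3
    ndB0q1 ndB0q1 pcB3 cut_A00pm_113_s3 Ext.none :=
  certF0 (fam := true) (s1 := true) (s2 := false) (a := 1) (b := 1) (c := 3) (cn := .nn) (n1 := ndB0q1) (n2 := ndB0q1) (pc := pcB3) (cut := cut_A00pm_113_s3) (xt := Ext.none) (P1 := 536870912) (W1 := 536870912) (P2 := 536870912) (W2 := 536870912) (P3 := 818728140) (W3 := 40265320)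
    rfl t20_A00pm_113_s3

theorem s_A00pm_113_s3 {κ x : ℝ} (hκ : κ * h0 = ken x) (hx : ((818728140 : ℕ) : ℝ) / S ≤ x)
    (hx' : x ≤ (((818728140 : ℕ) : ℝ) + (40265320 : ℕ)) / S)
    (H : CutA (VFD κ) PP tK tL pcB (Cut.of [[⟨0, 1, 0, 67108864⟩, ⟨1, 1, 0, 67108864⟩, ⟨2, 2, 0, 16777216⟩], [⟨0, 0, 1, 26214400⟩, ⟨1, 1, 0, 33554432⟩, ⟨2, 1, 1, 26214400⟩], [⟨0, 1, 0, 33554432⟩, ⟨1, 0, 1, 26214400⟩, ⟨2, 1, 1, 26214400⟩]]) 1 1 3 0 0 (sgb true) (sgb false) x) :
    AltA (VFD κ) PP tK tL pcB [⟨4, 0, 0, 2845415833⟩] 1 1 3 0 0 (sgb true) (sgb false) x :=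
  strip_altAD (m := 2845415833) false rfl hκ (SH.κ0 hκ (SH.hx1 hx).le (SH.hx2 hx').le) (SH.hx1 hx).le (SH.hx2 hx') (covB01).cov (covB01).cov hx hx' c_A00pm_113_s3 H (noExt_A)

noncomputable def cut_A00pm_123_s1 : Cut := Cut.of [[⟨4, 0, 0, 1449551462⟩], [⟨0, 1, 0, 67108864⟩, ⟨1, 1, 0, 67108864⟩, ⟨2, 2, 0, 16777216⟩], [⟨0, 0, 1, 26214400⟩, ⟨1, 1, 0, 33554432⟩, ⟨2, 1, 1, 26214400⟩]]

noncomputable def f_A00pm_123_s1 : ℕ → ℕ → ℕ → ℕ → Bool := onCell 536870912 536870912 0 536870912 818728140 40265320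
    (rowF 0 true true false .npn 1 2 3 (qsf 536870912 536870912 0 536870912 3) ndB0q1 ndB0q2 pcB3 cut_A00pm_123_s1 Ext.none)

def k0_A00pm_123_s1 : ∃ t, chk3 f_A00pm_123_s1 t 1 1 1 = true :=
  ⟨(l 6), by decide +kernel⟩

theorem c_A00pm_123_s1 : CertF 536870912 536870912 0 536870912 818728140 40265320 true true false .npn 1 2 3
    ndB0q1 ndB0q2 pcB3 cut_A00pm_123_s1 Ext.none :=
  certF0 (fam := true) (s1 := true) (s2 := false) (a := 1) (b := 2) (c := 3) (cn := .npn) (n1 := ndB0q1) (n2 := ndB0q2) (pc := pcB3) (cut := cut_A00pm_123_s1) (xt := Ext.none) (P1 := 536870912) (W1 := 536870912) (P2 := 0) (W2 := 536870912) (P3 := 818728140) (W3 := 40265320)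
    rfl k0_A00pm_123_s1

theorem s_A00pm_123_s1 {κ x : ℝ} (hκ : κ * h0 = ken x) (hx : ((818728140 : ℕ) : ℝ) / S ≤ x)
    (hx' : x ≤ (((818728140 : ℕ) : ℝ) + (40265320 : ℕ)) / S)
    (H : CutA (VFD κ) PP tK tL pcB (Cut.of [[⟨0, 1, 0, 67108864⟩, ⟨1, 1, 0, 67108864⟩, ⟨2, 2, 0, 16777216⟩], [⟨0, 0, 1, 26214400⟩, ⟨1, 1, 0, 33554432⟩, ⟨2, 1, 1, 26214400⟩]]) 1 2 3 0 0 (sgb true) (sgb false) x) :
    AltA (VFD κ) PP tK tL pcB [⟨3, 0, 0, 1449551462⟩] 1 2 3 0 0 (sgb true) (sgb false) x :=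
  strip_altAD (m := 1449551462) true rfl hκ (SH.κ0 hκ (SH.hx1 hx).le (SH.hx2 hx').le) (SH.hx1 hx).le (SH.hx2 hx') (covB01).cov (covB02).cov hx hx' c_A00pm_123_s1 H (noExt_A)

end Pool.Agent.Strip051.G.I7625_8000.Tab.St.C
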