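import Pool.Agent.Strip051.G.I7625_8000.StH
import Pool.Agent.Strip051.G.I7625_8000.StF

/-! # Unit strips 7 (generated) -/

set_option linter.all false
set_option maxRecDepth 100000

namespace Pool.Agent.Strip051.G.I7625_8000.Tab.St.C

open Pool.Agent.Strip051.PB Pool.Agent.Strip051.PB.T Pool.Agent.StripNear Pool.Agent.Strip051.LC
open Pool.Agent.Strip051.G.I7625_8000.Tab Pool.Agent.Strip051.G.I7625_8000.Tab.St

noncomputable def cut_A00pm_123_s3 : Cut := Cut.of [[⟨3, 0, 0, 2845415833⟩], [⟨0, 1, 0, 67108864⟩, ⟨1, 1, 0, 67108864⟩, ⟨2, 2, 0, 16777216⟩], [⟨0, 0, 1, 26214400⟩, ⟨1, 1, 0, 33554432⟩, ⟨2, 1, 1, 26214400⟩]]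

noncomputable def xt_A00pm_123_s3 : Ext := strExt dd true true false .u0 .u2 .s2 .npn 1 2 3 rfl rfl gl3 vv ndB0q1 ndB0q2

noncomputable def f_A00pm_123_s3 : ℕ → ℕ → ℕ → ℕ → Bool := onCell 1610612736 536870912 0 536870912 818728140 40265320
    (rowF 2 true true false .npn 1 2 3 (qsf 536870912 536870912 0 536870912 3) ndB0q1 ndB0q2 pcB3 cut_A00pm_123_s3 xt_A00pm_123_s3)

def k0_A00pm_123_s3 : ∃ t, chk3 f_A00pm_123_s3 t 2 1 1 = true :=
  ⟨(a (b (b (l 1) (l 6)) (l 6)) (b (a (b (b (a (l 534665487) (l 534705423)) (a (l 16659232) (l 534681359))) (b (a (l 16611040) (b (l 16640352) (l 16615672))) (l 6))) (b (b (l 534684943) (b (l 534676495) (a (l 16685576) (l 16705496)))) (b (a (l 16729920) (b (l 16678312) (l 16654224))) (a (l 16681240) (b (l 16630712) (l 16606056)))))) (b (a (l 6) (l 6)) (l 6)))), by decide +kernel⟩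

def k1_A00pm_123_s3 : ∃ t, chk3 f_A00pm_123_s3 t 6 4 1 = true :=
  ⟨(a (b (a (l 534696975) (b (l 4) (a (l 534846991) (l 4)))) (a (b (l 534683919) (a (l 16721120) (l 534321679))) (b (a (l 534571279) (l 534500367)) (b (a (l 534302735) (l 534232079)) (a (l 534121231) (l 534064911)))))) (b (l 4) (a (b (a (a (l 534492431) (l 4)) (l 4)) (a (b (c (l 534478351) (l 534305551)) (a (b (l 534115599) (l 534065423)) (b (l 534169359) (l 534134287)))) (b (a (b (l 4) (l 534342415)) (l 4)) (a (c (l 534561039) (l 533987855)) (l 534477839))))) (b (l 4) (l 4))))), by decide +kernel⟩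

def k2_A00pm_123_s3 : ∃ t, chk3 f_A00pm_123_s3 t 12 5 1 = true :=
  ⟨(b (a (a (l 16724528) (b (l 16705272) (l 16682488))) (b (a (a (l 16714136) (l 16720552)) (b (l 534003983) (l 534029327))) (a (l 16695784) (b (l 16716616) (l 16707792))))) (b (a (l 16696160) (a (l 16676160) (a (l 16690088) (l 16700312)))) (a (a (l 16624560) (l 16639400)) (a (l 16657256) (a (l 16673456) (l 16685424)))))), by decide +kernel⟩

def k3_A00pm_123_s3 : ∃ t, chk3 f_A00pm_123_s3 t 26 5 1 = true :=
  ⟨(b (a (b (a (b (l 534075151) (l 16738368)) (b (l 534183183) (l 534291471))) (a (b (l 16729808) (l 16722024)) (b (l 534414863) (c (l 16736360) (l 16727608))))) (b (a (b (a (l 534320143) (l 534437647)) (l 534512399)) (c (l 534984207) (l 534366991))) (b (a (l 534637839) (l 534856975)) (a (c (l 16745952) (l 16737224)) (l 534957071))))) (b (a (a (l 16711160) (a (l 16719216) (c (l 16730424) (l 16718904)))) (a (c (l 16738352) (l 16726448)) (c (b (l 16749856) (l 16745888)) (l 16746248)))) (a (a (l 16697440) (c (b (l 16719832) (l 16715088)) (l 16701568)))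 (a (b (l 16723616) (l 16718352)) (c (b (l 16742480) (l 16739720)) (l 16723136)))))), by decide +kernel⟩

def k4_A00pm_123_s3 : ∃ t, chk3 f_A00pm_123_s3 t 27 5 1 = true :=
  ⟨(b (b (a (c (b (l 535312655) (l 535451407)) (l 534666767)) (a (c (l 535661583) (l 534990351)) (l 4))) (a (a (b (l 535085327) (c (l 535528463) (l 534856975))) (b (b (l 535297551) (l 535356943)) (c (l 535811855) (l 535056143)))) (a (b (b (l 535556367) (c (l 535941647) (l 535227151))) (a (l 535610639) (a (l 535698447) (l 535717391)))) (b (b (a (l 535638799) (c (l 536074511) (l 535339535))) (a (c (l 536046607) (l 535372559)) (c (l 536111375) (l 535372303)))) (a (b (l 535732751) (l 535746831)) (c (l 536142351) (l 535389711))))))) (a (b (b (a (c (l 16757888) (l 16747320)) (c (l 535881743) (l 535109647))) (a (c (l 16754832) (l 16741280)) (c (l 535922703) (l 16749360)))) (a (b (c (l 16752440) (l 16735584)) (c (l 16750584) (l 16730304))) (b (c (l 535951631) (l 16744312)) (c (l 16756544) (l 16739832))))) (b (a (b (c (l 536024847) (l 535311631)) (c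 (a (l 16765128) (l 16761784)) (l 535357967))) (b (c (a (l 536110607) (l 536179727)) (a (l 535405839) (l 535408143))) (c (a (l 536145167) (l 536214031)) (a (l 535421711) (l 535422479))))) (a (b (a (c (l 16762672) (l 16750408)) (c (l 16764776) (l 16753720))) (c (c (l 16764888) (l 16758264)) (l 16737664))) (b (c (a (l 16756288) (l 536246543)) (a (l 16755576) (l 16757488))) (c (c (l 536437775) (l 16762568)) (c (l 16755496) (l 16748360)))))))), by decide +kernel⟩

def k5_A00pm_123_s3 : ∃ t, chk3 f_A00pm_123_s3 t 14 4 1 = true :=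
  ⟨(l 4), by decide +kernel⟩

def k6_A00pm_123_s3 : ∃ t, chk3 f_A00pm_123_s3 t 28 5 1 = true :=
  ⟨(b (a (b (l 4) (a (a (b (b (l 4) (l 535513871)) (l 535805199)) (b (l 4) (l 535844111))) (b (l 4) (c (l 536399887) (l 535406607))))) (l 4)) (b (a (a (b (c (l 536290063) (l 535415567)) (c (l 536325647) (l 535429903))) (c (b (c (l 536692751) (l 536184335)) (c (l 536734479) (l 536215055))) (b (l 535421967) (l 535434255)))) (c (a (a (b (l 536550159) (l 536318735)) (b (l 536089615) (l 536395279))) (b (c (a (l 537027599) (l 4)) (l 536410895)) (c (l 536587279) (l 536441615)))) (a (b (c (l 535713295) (l 535133455)) (a (l 535432975) (l 535430927))) (b (c (l 535747343) (l 535091471)) (c (l 535763471) (l 535091471)))))) (a (a (b (c (c (l 536586255) (l 536130319)) (l 535440911)) (c (c (l 536622095) (l 536155663)) (l 535448591))) (b (c (c (l 536774159) (l 536242959)) (c (l 535709967) (l 535176463))) (c (c (l 536542479) (l 536268303)) (a (l 535448335) (l 535447055))))) (a (a (b (c (l 536621327) (l 535440399)) (c (l 536652815)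 (l 535444495))) (b (c (l 536429839) (l 535437327)) (c (l 536193295) (l 535440143)))) (c (b (c (a (l 537113359) (l 537214735)) (l 536201487)) (a (c (l 537152527) (l 536464399)) (c (l 537254415) (l 536521743)))) (b (a (l 535432719) (l 535426831)) (a (l 535434511) (c (l 535791119) (l 535064847))))))))), by decide +kernel⟩

def k7_A00pm_123_s3 : ∃ t, chk3 f_A00pm_123_s3 t 29 5 1 = true :=
  ⟨(b (l 4) (a (b (b (l 4) (a (a (b (l 4) (c (l 536908815) (l 535417615))) (l 4)) (l 4))) (c (a (b (a (c (l 537318159) (l 536554255)) (c (l 537423631) (l 536612623))) (a (c (l 537358351) (l 536579343)) (c (l 537196303) (l 536637711)))) (b (a (c (l 537263375) (l 536671759)) (c (c (l 537872399) (l 537414415)) (l 536195087))) (a (b (c (l 537562895) (l 536690447)) (c (l 537583119) (l 536702223))) (b (c (l 537674767) (l 536750607)) (c (l 537695247) (l 536762383)))))) (a (b (a (c (l 535795983) (l 535045391)) (c (l 535809039) (l 535015439))) (a (c (l 535804175) (l 535035151)) (c (l 535816463) (l 535003151)))) (b (a (c (l 535821327) (l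 534983183)) (c (l 535832847) (b (l 4) (l 534945039)))) (a (b (c (l 535826191) (l 534972943)) (c (l 535828495) (l 534964495))) (b (c (l 535836943) (l 534936847)) (c (l 535838735) (l 534927631)))))))) (c (a (b (l 4) (b (l 4) (a (c (b (l 537521167) (l 537273615)) (b (l 536811791) (l 536286735))) (a (b (l 4) (c (l 537629967) (l 536869647))) (l 4))))) (l 4)) (a (b (l 4) (b (l 4) (a (b (c (l 535846927) (a (l 534908175) (l 4))) (c (a (l 535845391) (l 535849999)) (a (l 534898191) (l 534609423)))) (a (b (l 4) (c (l 535586063) (b (l 4) (a (l 534859023) (l 534848271))))) (l 4))))) (l 4))))), by decide +kernel⟩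

def k8_A00pm_123_s3 : ∃ t, chk3 f_A00pm_123_s3 t 15 2 1 = true :=
  ⟨(l 4), by decide +kernel⟩

def k9_A00pm_123_s3 : ∃ t, chk3 f_A00pm_123_s3 t 12 3 1 = true :=
  ⟨(b (b (a (b (a (l 16599832) (l 16617392)) (a (l 6) (l 16594864))) (b (a (b (l 16643640) (l 16635168)) (b (l 16668424) (a (l 16654736) (l 16668560)))) (a (l 16621544) (a (l 16643568) (l 16658376))))) (a (l 6) (b (a (l 16602432) (b (l 16639624) (l 16632232))) (a (l 6) (b (l 16625080) (l 6)))))) (l 6)), by decide +kernel⟩

def k10_A00pm_123_s3 : ∃ t, chk3 f_A00pm_123_s3 t 26 6 1 = true :=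
  ⟨(b (b (a (a (b (l 16688064) (b (l 16683520) (l 16680624))) (a (b (l 16697568) (b (l 16693440) (l 16690776))) (b (l 16703904) (c (l 16710656) (l 16687360))))) (c (b (a (l 16724528) (l 16737736)) (a (l 16722056) (l 16736624))) (b (a (l 16702976) (l 16714520)) (a (l 16696976) (l 16709352))))) (a (a (b (l 16676112) (l 16670048)) (a (b (l 16686792) (l 16681512)) (b (a (l 16692152) (l 16695936)) (l 16710344)))) (b (a (c (b (l 16720504) (l 16719512)) (l 16691200)) (c (b (l 16733912) (l 16731504)) (b (l 16705704) (l 16703424)))) (c (a (l 16716984) (l 16727432)) (a (l 16685696) (l 16700640)))))) (a (b (a (b (l 16664136) (l 16658600)) (b (c (l 16697600) (l 16664072)) (c (l 16692136) (l 16658000)))) (a (l 16662864) (b (l 16674272) (l 16673600)))) (b (b (c (a (l 16710488) (l 16721296)) (a (l 16680680) (l 16697560))) (c (a (l 16703416) (l 16714824)) (l 16686256))) (b (c (l 16702104) (l 16685328)) (c (l 16694648) (l 16686288)))))), by decide +kernel⟩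

def k11_A00pm_123_s3 : ∃ t, chk3 f_A00pm_123_s3 t 27 6 1 = true :=
  ⟨(b (a (b (a (b (c (l 16747656) (l 16725504)) (c (l 16744744) (l 16721384))) (b (c (l 16754104) (l 16736056)) (c (l 16751648) (l 16733096)))) (b (c (a (b (l 16742240) (l 16740400)) (l 16748944)) (a (b (l 16718592) (l 16716984)) (l 16729800))) (a (c (l 16736728) (l 16715408)) (b (c (l 16735856) (l 16725608)) (l 16733920))))) (b (a (b (c (c (l 16763568) (l 16755664)) (l 16743576)) (c (c (l 16762400) (l 16753176)) (l 16739056))) (b (c (c (l 16768824) (l 16760352)) (c (l 16751768) (l 16743088))) (c (c (l 16768240) (l 16758240)) (c (l 16748104) (l 16737832))))) (c (a (b (c (l 16760928) (l 16750304)) (b (l 16753672) (l 16751760))) (b (c (l 16767344) (l 16755744)) (b (l 16759856) (l 16758704)))) (a (b (l 16734000) (b (l 16729712) (l 16727072))) (b (c (l 16743952) (l 16731992)) (b (l 16733656) (l 16730792))))))) (a (b (c (b (a (l 16731296) (l 16740424)) (a (l 16725376) (l 16735056))) (b (a (l 16714688) (l 16720536)) (a (l 16710192) (l 16716176))))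 (b (c (a (l 16719016) (l 16729264)) (l 16708464)) (c (l 16717968) (l 16703688)))) (b (b (a (c (l 16748656) (l 16724680)) (c (b (l 16756656) (l 16754728)) (b (l 16728320) (l 16727088)))) (c (a (l 16743864) (l 16751376)) (a (l 16721248) (l 16725056)))) (b (a (c (l 16738632) (l 16717768)) (c (l 16746448) (l 16722296))) (a (l 16723872) (c (l 16741256) (l 16719640))))))), by decide +kernel⟩

def k12_A00pm_123_s3 : ∃ t, chk3 f_A00pm_123_s3 t 13 14 1 = true :=
  ⟨(a (b (a (a (l 6) (b (l 16665632) (l 6))) (b (c (l 16687168) (l 16679872)) (l 16677384))) (b (a (l 6) (b (l 16673632) (l 6))) (l 6))) (b (a (b (a (l 16700160) (l 16710264)) (a (l 16695176) (l 16706040))) (b (a (l 16719504) (c (l 16736040) (l 16717216))) (a (l 16716048) (l 16723808)))) (b (a (a (l 16691536) (l 16661216)) (a (l 16692968) (b (l 16722464) (l 16679952)))) (a (b (a (b (l 16647800) (l 16668192)) (b (l 16701848) (l 16680480))) (a (b (c (l 16650880) (l 16642576)) (l 6)) (c (a (c (l 16704920) (l 16700224)) (a (l 16707376) (l 16710528))) (b (l 16654328)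 (a (l 16672152) (l 16698912)))))) (a (b (b (l 16713104) (l 16691936)) (c (b (l 16718296) (a (l 16715008) (l 16721016))) (a (l 16683552) (l 16688848)))) (b (c (l 16686104) (l 16673320)) (a (b (l 16699480) (c (a (l 16725400) (l 16727264)) (l 16693696))) (b (l 16722912) (l 16702096))))))))), by decide +kernel⟩

def k13_A00pm_123_s3 : ∃ t, chk3 f_A00pm_123_s3 t 26 15 1 = true :=
  ⟨(l 6), by decide +kernel⟩

def k14_A00pm_123_s3 : ∃ t, chk3 f_A00pm_123_s3 t 54 30 1 = true :=
  ⟨(b (a (l 6) (a (b (a (l 6) (c (b (b (l 16708928) (l 16703600)) (l 16703520)) (b (b (l 16694408) (l 16694176)) (l 16693744)))) (l 6)) (b (b (a (c (b (l 16706928) (l 16706824)) (b (l 16697360) (l 16697168))) (c (b (l 16710128) (l 16710008)) (b (l 16700256) (l 16700112)))) (c (l 16708296) (l 16698192))) (c (b (l 16708120) (l 16707976)) (b (l 16697568) (l 16696984)))))) (a (l 6) (a (l 6) (b (c (l 16707864) (l 16696216)) (l 6))))), by decide +kernel⟩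

def k15_A00pm_123_s3 : ∃ t, chk3 f_A00pm_123_s3 t 55 30 1 = true :=
  ⟨(b (a (b (c (b (a (b (a (l 16713264) (l 16716352)) (a (l 16713144) (b (l 16716272) (l 16716216)))) (a (b (l 16719384) (b (l 16719320) (l 16719280))) (c (l 16725088) (l 16719616)))) (a (l 16714520) (a (l 16719120) (c (l 16724920) (l 16719448))))) (b (a (b (l 16683528) (c (a (l 16705544) (l 16708456)) (a (l 16700488) (l 16703264)))) (b (l 16689000) (a (a (l 16707968) (l 16709352)) (a (l 16710736) (l 16712104))))) (a (l 16714488) (a (l 16708304) (c (l 16713944) (l 16708416)))))) (c (a (b (l 16714304) (l 16714112)) (b (l 16720424) (l 16720240))) (a (b (l 16703368) (l 16702776)) (b (l 16709152) (l 16708608))))) (b (a (b (c (a (a (l 16724600) (l 16726080)) (b (l 16727248) (l 16727256))) (a (c (l 16716904) (l 16711232)) (b (l 16715768) (l 16715976)))) (b (c (a (c (l 16728056) (l 16722536)) (a (l 16726968) (l 16727544))) (a (c (l 16722224) (b (l 16711464) (l 16711352))) (c (l 16718912) (l 16713304)))) (a (c (l 16725168) (l 16713928)) (c (l 16727160)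 (l 16715920))))) (c (b (a (l 16728376) (l 16729520)) (a (b (l 16728408) (l 16728352)) (l 16729560))) (c (b (l 16720440) (a (l 16720064) (l 16721320))) (b (l 16714704) (a (l 16714472) (l 16715776)))))) (c (a (a (b (l 16725000) (l 16724800)) (b (l 16727008) (l 16726848))) (l 16728840)) (a (a (b (l 16713504) (l 16712984)) (b (l 16715528) (l 16715056))) (l 16717424))))) (a (a (c (b (l 16713968) (l 16713944)) (b (l 16702040) (l 16701272))) (c (b (l 16720072) (l 16720016)) (b (l 16718416) (l 16707216)))) (c (b (a (a (l 16724616) (l 16726704)) (l 16728776)) (a (a (l 16724528) (l 16726664)) (l 16728888))) (b (a (a (l 16712336) (l 16714480)) (l 16716800)) (a (a (l 16711664) (l 16713888)) (l 16716408)))))), by decide +kernel⟩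

def k16_A00pm_123_s3 : ∃ t, chk3 f_A00pm_123_s3 t 27 31 1 = true :=
  ⟨(b (a (l 6) (a (a (l 6) (b (c (l 16720168) (l 16706752)) (c (l 16720512) (b (l 16706544) (l 16706488))))) (a (a (b (c (l 16724640) (l 16711216)) (c (l 16724928) (l 16711008))) (b (c (l 16726816) (l 16713520)) (c (l 16727144) (l 16713376)))) (b (c (l 16729184) (l 16716224)) (c (l 16729656) (l 16716248)))))) (a (l 6) (a (l 6) (b (c (a (a (b (l 16725256) (l 16725536)) (l 16727648)) (l 16730280)) (c (a (a (l 16714648) (l 16717032)) (l 16719960)) (a (a (l 16707352) (l 16709824)) (l 16712952)))) (a (a (l 6) (c (b (l 16728120) (l 16728488)) (b (l 16708368) (c (l 16717512) (b (l 16710000) (l 16710080)))))) (b (c (l 16730840) (l 16706256)) (c (c (l 16734760) (l 16727736)) (c (a (l 16719568) (l 16721624)) (a (l 16712248) (l 16714440)))))))))), by decide +kernel⟩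

def k17_A00pm_123_s3 : ∃ t, chk3 f_A00pm_123_s3 t 28 24 1 = true :=
  ⟨(a (b (a (c (c (l 536655375) (l 536177935)) (c (l 16755752) (l 16746872))) (a (c (l 536528655) (l 535451151)) (c (l 536336399) (l 535448591)))) (a (c (c (a (l 16772064) (l 16774328)) (l 16752296)) (c (l 16752200) (l 16741512))) (c (c (c (l 16769448) (l 16774664)) (a (l 16765784) (l 16767600))) (b (c (l 16756872) (l 16746632)) (c (l 16755096) (l 16743816)))))) (c (b (a (a (c (l 536988943) (l 536373263)) (c (l 537088015) (l 536429839))) (a (c (l 537188623) (l 536486415)) (c (l 537291023) (l 536543759)))) (a (b (c (l 537064207) (l 536417295)) (a (l 16763912) (l 536786447))) (a (b (l 536588815) (l 536327951)) (b (l 536131855) (c (l 16783264) (l 16773104)))))) (b (a (a (l 535444751) (c (l 535769615) (l 535109135))) (a (c (l 535783695) (l 535081743)) (c (l 535796751) (l 535052303)))) (a (b (a (l 535442447) (l 535436047)) (a (l 16752256) (l 535427855))) (b (a (l 535428111) (l 535418639)) (a (l 535418639) (c (l 16762920) (l 16752728)))))))), by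 decide +kernel⟩

def k18_A00pm_123_s3 : ∃ t, chk3 f_A00pm_123_s3 t 28 25 1 = true :=
  ⟨(a (b (a (c (c (l 16772864) (l 16760592)) (c (l 16748152) (l 16735560))) (c (c (b (l 16777432) (l 16777352)) (b (l 16765336) (l 16764208))) (c (b (l 16753104) (l 16750920)) (l 16739192)))) (a (c (c (l 16771928) (l 16757736)) (c (l 16743328) (l 16728696))) (c (c (l 16777016) (l 16762272)) (c (l 16747328) (l 16732200))))) (c (b (a (a (c (l 16780256) (l 16767600)) (c (l 16781824) (l 16769272))) (a (c (l 16772664) (l 16770784)) (b (l 535998735) (l 536386319)))) (a (c (l 16760176) (l 16766192)) (c (b (l 16784152) (l 16784312)) (b (l 16770016) (l 16768872))))) (b (a (a (c (l 16754840) (l 16741976)) (c (l 16756616) (l 16743888))) (a (c (l 16758344) (l 16745856)) (b (l 535381519) (l 535344399)))) (a (c (l 16751064) (l 16735808)) (c (b (l 16755768) (l 16753296)) (b (l 16741448) (l 16737608))))))), by decide +kernel⟩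

def k19_A00pm_123_s3 : ∃ t, chk3 f_A00pm_123_s3 t 28 13 1 = true :=
  ⟨(b (a (b (c (a (b (l 16742104) (l 16760912)) (b (l 16768176) (l 16745856))) (a (b (l 16731504) (l 16729304)) (b (l 16734880) (l 16731936)))) (c (a (l 16757480) (l 16763328)) (a (l 16727520) (l 16729600)))) (b (c (c (a (l 16780864) (l 16784400)) (a (l 16763456) (l 16766952))) (c (a (l 16745816) (l 16749312)) (a (l 16727952) (l 16731512)))) (c (a (b (l 16728024) (l 16767520)) (b (l 16732672) (l 16730568))) (a (b (l 16732184) (l 16730752)) (b (l 16735248) (l 16732376)))))) (a (c (b (a (l 16752264) (l 16757800)) (a (l 16746776) (l 16752000))) (b (a (l 16724976) (l 16727272)) (a (l 16722552) (l 16725064)))) (b (c (a (l 16763144) (l 16726288)) (a (l 16729224) (l 16730768))) (c (a (l 16756944) (l 16740952)) (a (l 16727144) (l 16729176)))))), by decide +kernel⟩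

def k20_A00pm_123_s3 : ∃ t, chk3 f_A00pm_123_s3 t 58 24 1 = true :=
  ⟨(c (b (a (a (b (l 536185615) (l 536199695)) (c (l 536965903) (b (l 536654095) (l 536664079)))) (a (c (b (l 537602319) (l 537621007)) (b (l 536713231) (l 536723215))) (c (b (l 537446415) (l 537465359)) (b (l 536773135) (l 536783119))))) (a (b (a (c (l 537421071) (l 536615183)) (c (l 537528591) (l 536673295))) (a (c (l 16773392) (l 16763720)) (c (l 537538831) (l 536674831)))) (c (b (a (l 537638671) (l 537214991)) (a (l 537648399) (l 537223439))) (b (a (l 536732175) (l 536792335)) (a (l 536732687) (l 536791055)))))) (a (b (a (b (l 535415311) (c (l 535809039) (l 535015951))) (b (c (l 535819279) (l 534990863)) (c (l 535820047) (l 534981647)))) (b (a (c (l 535809551) (l 535006479)) (c (l 535820047) (l 534970895))) (a (c (l 535802383) (l 534988815)) (c (l 535811599) (l 534951183))))) (b (a (b (c (l 535829775) (l 534955279)) (c (l 535830287) (l 534944783))) (b (c (l 535571215) (a (l 534926607) (l 534906895))) (c (l 535839503) (a (l 534915343) (l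 534895119))))) (b (a (c (l 535829519) (l 534933007)) (c (l 535704079) (a (l 534902543) (l 534881807)))) (a (c (l 535819279) (l 534910991)) (c (l 535825935) (a (l 534878479) (l 534856207)))))))), by decide +kernel⟩

def k21_A00pm_123_s3 : ∃ t, chk3 f_A00pm_123_s3 t 58 25 1 = true :=
  ⟨(c (b (a (b (a (c (l 16784656) (l 16773664)) (c (l 16774648) (l 16774688))) (c (c (l 16778144) (l 16782592)) (a (l 16772944) (l 16774040)))) (c (a (b (l 537640719) (l 16775736)) (b (l 537480975) (l 16775792))) (a (b (l 536714511) (l 16774984)) (b (l 536769039) (l 536735247))))) (a (c (b (l 16775664) (l 16786560)) (a (l 16771584) (l 16762304))) (c (b (c (l 16779680) (l 16773496)) (l 16777256)) (b (a (l 16774240) (l 16775104)) (a (l 16773344) (l 16774280)))))) (a (a (b (b (c (l 16762648) (l 16751632)) (c (l 16760560) (l 16748160))) (c (l 16757104) (l 16742568))) (b (b (c (l 535785231) (l 534912271)) (c (l 16762168) (l 16750304))) (b (c (l 16759904) (l 16746568)) (l 16750056)))) (b (a (b (c (l 535789327) (l 534867471)) (c (l 16763744)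 (l 16752528))) (b (c (l 535791119) (l 534684431)) (c (l 535743759) (l 534755855)))) (a (b (c (l 16761496) (l 16748760)) (c (l 16759072) (l 16744784))) (c (b (l 16763064) (l 16760656)) (b (l 16751040) (l 16747024))))))), by decide +kernel⟩

def k22_A00pm_123_s3 : ∃ t, chk3 f_A00pm_123_s3 t 58 13 1 = true :=
  ⟨(b (c (a (b (c (l 16766048) (l 16748976)) (b (l 16735584) (l 16734944))) (b (c (b (l 16767272) (l 16788720)) (b (l 16772784) (l 16771696))) (c (l 16747344) (l 16769968)))) (a (a (b (c (l 16751880) (l 16734376)) (b (l 16737752) (l 16734368))) (b (c (l 16753536) (l 16736384)) (l 16737744))) (b (a (c (l 16755112) (l 16738416)) (c (l 16756760) (l 16740648))) (c (l 16750464) (l 16730800))))) (c (b (a (a (l 16729976) (l 16732224)) (b (l 16736968) (a (l 16775584) (l 16736032)))) (a (c (l 16775632) (l 16758192)) (l 16730416))) (b (a (b (l 16711600) (l 16731864)) (b (a (l 16734608) (l 16736440)) (l 16691520))) (a (b (l 16731296) (l 16730944)) (b (l 16733336) (l 16733368)))))), by decide +kernel⟩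

def k23_A00pm_123_s3 : ∃ t, chk3 f_A00pm_123_s3 t 59 24 2 = true :=
  ⟨(b (b (c (a (a (a (l 537800463) (l 537590799)) (a (l 537650447) (l 537711119))) (a (a (l 537504527) (l 4)) (l 4))) (a (a (a (l 536818191) (l 536849167)) (a (l 536611855) (l 536911887))) (a (c (l 537238031) (l 536685327)) (l 4)))) (c (a (a (l 537044751) (a (l 537670159) (l 537731087))) (a (a (l 537524751) (l 537587983)) (a (l 537384207) (l 4)))) (a (a (a (l 536828175) (l 536859151)) (a (l 536890383) (l 536921871))) (a (c (l 537250831) (l 536692495)) (a (l 537019663) (l 4)))))) (a (c (b (a (c (l 538123023) (l 537614095)) (a (l 537420303) (l 537212943))) (a (c (l 538132239) (l 537618447)) (c (l 537728015) (l 537452815)))) (b (a (a (l 536837135) (l 536868111)) (b (l 536913423) (l 536380687))) (a (c (l 537105935) (l 536594447)) (c (l 537179407) (l 536639247))))) (c (a (b (c (b (l 538124559) (l 537866255)) (b (l 537824783) (l 537832463))) (b (a (l 537548047) (l 537609487)) (c (l 538125583) (l 537817871)))) (b (b (a (l 537667343) (l 537464847))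 (b (a (l 537674511) (c (l 538314767) (l 537972495))) (a (l 537408527) (c (l 538047503) (l 537972495))))) (a (b (l 537401871) (l 537653007)) (a (b (l 537445647) (l 537693455)) (c (l 538041103) (l 537688847)))))) (b (a (b (l 536306703) (c (l 537264399) (l 536699151))) (b (c (l 537341199) (l 536747791)) (a (b (l 537029391) (l 537029135)) (c (b (l 537365007) (l 537363471)) (b (l 536761615) (l 536758543)))))) (a (b (c (l 537259279) (l 536690959)) (c (l 537243407) (l 536671759))) (a (b (l 537017615) (l 536993295)) (a (b (l 537036559) (l 537008655)) (c (l 537339919) (l 536725775))))))))), by decide +kernel⟩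

def k24_A00pm_123_s3 : ∃ t, chk3 f_A00pm_123_s3 t 59 24 6 = true :=
  ⟨(b (a (a (b (a (l 535845903) (l 535581711)) (a (l 535845391) (l 535849231))) (b (a (b (l 535854351) (l 535854095)) (l 535858191)) (a (l 535853071) (l 535856911)))) (a (b (a (l 535862031) (l 4)) (a (l 535860239) (l 535863567))) (b (l 4) (a (l 535866639) (l 4))))) (a (b (a (a (l 535843599) (l 535847183)) (b (l 535853839) (l 535717647))) (a (a (l 535829263) (l 535831311)) (b (l 535842319) (l 535823119)))) (b (a (b (l 535860239) (a (l 535855887) (l 535858447))) (b (a (l 535864079) (l 535866895)) (a (b (l 535862543) (l 535858703)) (b (a (l 535864335) (l 535865359)) (c (l 535889167) (l 535293199)))))) (a (b (a (l 535843599) (l 535843599)) (a (l 535820559) (l 535816719))) (a (b (l 535841551) (l 535809295)) (a (b (l 535836943) (l 535800591)) (c (l 536115727) (l 535375887)))))))), by decide +kernel⟩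

def k25_A00pm_123_s3 : ∃ t, chk3 f_A00pm_123_s3 t 59 24 7 = true :=
  ⟨(b (a (a (b (a (b (l 534889743) (l 534883599)) (b (l 534869007) (l 534862607))) (a (l 534874127) (l 534584335))) (b (a (b (a (l 534852879) (l 534573583)) (l 534841103)) (b (l 534825487) (l 534818575))) (a (b (l 534834191) (l 534826767)) (l 534807823)))) (b (a (a (b (l 4) (l 534795535)) (l 4)) (l 4)) (a (a (l 534515727) (b (l 534764047) (l 534755599))) (a (b (l 4) (l 534730511)) (l 4))))) (a (b (a (a (l 534860303) (l 534569743)) (b (a (l 534819343) (l 534796047)) (a (l 534811151) (l 534787343)))) (a (a (l 534832911) (l 534808591)) (b (a (l 534795023) (l 534769679)) (a (l 534769423) (l 534741263))))) (b (b (a (a (l 534771983) (l 534747151)) (a (l 534721551) (l 534695183))) (a (a (l 534762767) (l 534737423)) (a (b (l 534714383) (l 534706959)) (b (a (l 534694415) (l 534680847)) (a (l 534685199) (a (l 534673679) (l 534664207))))))) (a (b (a (l 534742799) (l 534714383)) (a (l 534711311) (l 534678799))) (a (b (l 534683407) (l 534641679)) (b (a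 (l 534656271) (a (l 534641167) (l 534629135))) (a (l 534610447) (l 534590479)))))))), by decide +kernel⟩

def k26_A00pm_123_s3 : ∃ t, chk3 f_A00pm_123_s3 t 59 25 1 = true :=
  ⟨(c (a (b (c (a (b (l 537054479) (l 537565199)) (b (c (l 537977615) (l 537696527)) (l 537402127))) (a (b (l 536151567) (l 536783631)) (b (c (l 537148175) (l 536601359)) (l 536828687)))) (a (b (c (l 16776552) (l 16765328)) (c (l 16766928) (l 16775056))) (b (c (l 537365519) (l 536777999)) (c (l 16766712) (l 16775736))))) (b (c (a (b (c (l 537834511) (l 537253391)) (b (l 537514767) (l 537495567))) (c (b (a (l 538194703) (l 538529551)) (l 537929743)) (b (a (l 537857039) (l 537906191)) (l 537308175)))) (a (b (b (l 536129295) (l 536103439)) (a (l 536857871) (l 536877839))) (b (a (b (l 536965391) (l 536938255)) (c (l 537285647) (l 536667663))) (a (l 536901135) (l 536929295))))) (c (a (b (l 537201423) (l 16776744)) (b (l 537052431) (l 537295631))) (a (b (l 536550415) (l 16765856)) (b (a (l 16771880) (l 536886799)) (l 536832271)))))) (a (b (a (b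 (c (a (l 535790095) (l 535788815)) (a (l 534778639) (l 534750479))) (c (l 535736591) (l 534694927))) (b (c (a (l 535785999) (l 535781903)) (a (l 534720271) (l 534688271))) (c (l 535723535) (l 534491663)))) (a (b (c (l 535676431) (l 534617615)) (c (l 16762200) (l 16749360))) (b (c (l 535656719) (l 534540559)) (c (l 16763800) (l 16751888))))) (b (a (b (c (a (l 535775759) (l 535766543)) (a (l 534653455) (b (l 534637071) (l 534592271)))) (c (a (l 535707407) (l 535696143)) (a (l 534566415) (l 534525199)))) (b (c (a (b (l 535773199) (l 535737615)) (b (l 535763727) (l 535730703))) (a (b (l 534595855) (l 534550799)) (b (l 534555919) (l 534513167)))) (c (a (l 535687695) (l 535683599)) (a (l 534486031) (l 534450959))))) (a (c (b (l 535635727) (l 535574799)) (b (b (l 534480911) (l 16757632)) (l 534379791))) (b (c (a (l 535625487) (l 535623695)) (a (l 534404367) (l 534371087))) (c (l 535567887) (l 534310671))))))), by decide +kernel⟩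

def k27_A00pm_123_s3 : ∃ t, chk3 f_A00pm_123_s3 t 59 13 2 = true :=
  ⟨(a (b (b (a (b (l 16760464) (l 16760352)) (c (l 16768208) (b (l 16775008) (l 16774256)))) (c (l 16769712) (l 16751520))) (b (a (c (l 16770560) (l 16770160)) (c (l 16771496) (l 16771568))) (a (l 16745104) (b (a (l 16748528) (c (l 16771288) (l 16770240))) (l 16756928))))) (c (a (b (b (c (l 16792464) (l 16785704)) (l 16791272)) (b (l 16772152) (b (b (l 16773200) (a (l 16793232) (a (l 16773384) (l 16779160)))) (a (l 16790480) (l 16771208))))) (b (b (b (l 16767040) (l 16789400)) (l 16791392)) (b (b (l 16772088) (c (l 16778112) (l 16789152))) (a (c (b (l 16789952) (b (a (l 16799816) (b (l 16801104) (l 16800312))) (l 16798128))) (b (l 16789648) (b (a (l 16788856) (l 16789552)) (l 16787608)))) (c (c (b (l 16803232) (b (b (l 16804256) (a (l 16803848) (b (l 16804608) (a (l 16804352) (l 16804704))))) (l 16807880))) (b (l 16797968) (b (b (l 16798776) (a (l 16798336) (b (l 16799080) (l 16798960)))) (l 16797296)))) (b (l 16790040) (b (b (l 16790504) (a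 (l 16790032) (b (l 16790752) (a (l 16790488) (l 16790824))))) (a (l 16788816) (l 16789624))))))))) (a (b (b (b (l 16775800) (l 16775216)) (l 16774312)) (b (l 16772992) (b (a (l 16774080) (b (l 16772560) (l 16772248))) (l 16770240)))) (b (b (b (l 16755568) (l 16776120)) (l 16775456)) (b (c (l 16779248) (l 16769592)) (a (b (b (l 16773368) (l 16773168)) (b (c (l 16778064) (l 16761656)) (l 16771632))) (c (b (l 16779400) (b (b (l 16779400) (a (l 16778880) (a (l 16779376) (b (l 16779640) (l 16779608))))) (a (l 16778024) (l 16778720)))) (b (l 16768688) (b (b (l 16768216) (a (l 16767632) (b (l 16768304) (l 16768144)))) (l 16767416)))))))))), by decide +kernel⟩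

def k28_A00pm_123_s3 : ∃ t, chk3 f_A00pm_123_s3 t 59 13 3 = true :=
  ⟨(a (a (b (b (b (c (l 16759680) (l 16745152)) (l 534765839)) (c (l 16753184) (l 16734392))) (b (b (l 16738768) (l 16735952)) (l 16735144))) (b (b (b (a (l 16753984) (l 16734120)) (c (l 16758872) (l 16743472))) (c (l 16755168) (l 16737144))) (b (c (l 16750432) (l 16729096)) (b (b (l 16741560) (l 16736176)) (l 16736552))))) (c (a (b (b (b (l 16763168) (l 16760800)) (l 16757256)) (b (l 16752656) (b (b (l 16749944) (l 16751688)) (l 16748736)))) (b (b (b (l 16765088) (l 16762832)) (l 16759448)) (b (b (l 16756072) (l 16753928)) (b (b (l 16752360) (a (l 16750760) (l 16751992))) (a (b (a (l 16749752) (l 16750240)) (l 16749960)) (b (a (b (l 16750968) (l 16747976)) (b (l 16751584) (b (l 16753872) (c (l 16756768) (l 16745320))))) (c (l 16756368) (l 16745232)))))))) (a (b (b (b (l 16750552) (l 16746376)) (l 16740144)) (b (l 16732144) (b (a (l 16705272) (l 16727552)) (l 16726832)))) (b (b (b (l 534237455) (l 16749552)) (l 16743400)) (b (b (l 16737392)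 (l 16733552)) (b (b (l 16725496) (a (l 16728080) (l 16729800))) (a (b (a (l 16726936) (l 16722080)) (l 16727912)) (b (a (b (l 16728032) (l 16727616)) (b (l 16728896) (c (b (l 16734032) (l 16733800)) (l 16722392)))) (a (l 16728248) (l 16733712)))))))))), by decide +kernel⟩

def k29_A00pm_123_s3 : ∃ t, chk3 f_A00pm_123_s3 t 28 14 1 = true :=
  ⟨(b (a (b (a (c (l 16741264) (l 16720352)) (c (l 16746064) (l 16722960))) (a (a (l 16726976) (l 16728872)) (c (l 16699448) (l 16680008)))) (b (c (a (l 16750920) (l 16755800)) (a (l 16725544) (l 16728064))) (a (c (l 16725144) (l 16704032)) (c (l 16751168) (l 16717872))))) (a (b (a (l 16684448) (a (l 16687472) (l 16689616))) (a (b (l 16684128) (a (l 16704264) (l 16727552))) (c (l 16695488) (l 16682344)))) (b (a (c (l 16701472) (l 16684280)) (c (l 16706632) (l 16709376))) (a (b (l 16693416) (l 16694184)) (c (l 16705744) (l 16691856)))))), by decide +kernel⟩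

def k30_A00pm_123_s3 : ∃ t, chk3 f_A00pm_123_s3 t 29 14 1 = true :=
  ⟨(c (c (a (b (b (a (l 16768248) (l 16774320)) (a (l 16762368) (l 16768304))) (b (b (l 16720280) (l 16718712)) (b (l 16717648) (l 16716912)))) (b (a (b (l 16780640) (l 16774384)) (b (a (b (l 16787360) (l 16783648)) (b (a (l 16789872) (b (c (l 16797672) (l 16787464)) (l 16790584))) (a (l 16786104) (l 16787752)))) (a (l 16779104) (b (l 16783672) (l 16780984))))) (a (b (l 16770256) (l 16767840)) (b (a (l 16774808) (l 16756992)) (l 16763368))))) (a (b (b (a (l 16753640) (l 16758488)) (b (l 16711592) (l 16710560))) (b (b (l 16709976) (l 16730744)) (b (l 16730912) (l 16710424)))) (b (a (b (l 16763512) (l 16718768)) (a (b (l 16767344) (l 16764624)) (b (b (a (l 16770152) (b (l 16771928) (l 16770968))) (l 16769024)) (b (l 16767696) (l 16766824))))) (a (b (l 16759704) (l 16760136)) (b (a (l 16763656) (l 16766312)) (l 16744472)))))) (c (a (b (b (a (l 16738568) (l 16742168)) (b (l 16719088) (l 16719488))) (b (b (l 16699320) (l 16721496)) (b (l 16722968)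 (l 16724728)))) (a (b (b (l 16745880) (l 16704616)) (b (l 16706816) (l 16752168))) (b (b (a (l 16727696) (b (a (l 16749952) (b (l 16750824) (l 16750872))) (l 16745368))) (a (l 16749648) (b (l 16751192) (l 16752152)))) (b (a (l 16752088) (l 16754216)) (l 16735736))))) (a (b (b (b (l 16702640) (l 16703712)) (b (l 16705184) (l 16707056))) (b (a (l 16729584) (l 16691680)) (a (l 16693080) (l 16697688)))) (b (a (b (l 16727752) (l 16690000)) (b (a (l 16708536) (b (c (l 16740048) (l 16724280)) (l 16721208))) (c (l 16728408) (l 16720392)))) (a (b (l 16695496) (l 16701976)) (b (l 16730424) (l 16726680))))))), by decide +kernel⟩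

def k31_A00pm_123_s3 : ∃ t, chk3 f_A00pm_123_s3 t 28 15 1 = true :=
  ⟨(b (a (c (b (a (b (b (l 16701008) (a (a (l 16730752) (l 16731944)) (l 16733768))) (a (l 16731392) (l 16733952))) (b (b (l 16737360) (l 16695536)) (b (l 16706208) (l 16737936)))) (a (b (l 16732928) (l 16733344)) (l 16702184))) (b (a (b (b (l 16700152) (a (b (l 16720376) (l 16720560)) (l 16723056))) (a (l 16720296) (l 16723216))) (a (b (l 16725224) (l 16726128)) (b (l 16727792) (l 16729064)))) (a (b (l 16721528) (l 16721496)) (l 16696696)))) (b (a (b (a (l 16704384) (l 16696504)) (b (a (l 16705216) (l 16697424)) (l 16738472))) (b (c (l 16747720) (l 16737016)) (c (l 16716648) (b (l 16738824) (l 16697824))))) (a (c (l 16713024) (l 16703328)) (c (l 16708064) (l 16699264))))) (b (b (a (a (c (l 16733920) (l 16721656)) (c (l 16740120) (l 16728904))) (a (c (l 16746232) (l 16735984)) (l 16705592))) (a (a (c (a (l 16732976) (l 16736256)) (a (l 16720072) (l 16723912))) (c (l 16741168) (a (l 16727696) (l 16731440)))) (c (a (l 16747600) (l 16753920))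 (a (l 16736920) (l 16743832))))) (a (a (b (a (b (l 16726992) (c (l 16733960) (l 16720608))) (c (l 16737200) (l 16724488))) (c (a (b (l 16734424) (l 16734936)) (b (l 16737992) (l 16738576))) (b (a (l 16720896) (l 16724984)) (a (c (l 16724672) (l 16717696)) (l 16725328))))) (b (c (a (l 16740640) (l 16744032)) (b (l 16730128) (l 16730544))) (c (b (l 16743320) (l 16744024)) (b (l 16730936) (a (l 16729352) (l 16733264)))))) (b (c (a (l 16749112) (l 16755688)) (a (l 16737840) (l 16744864))) (a (c (l 16750728) (b (l 16738496) (l 16738944))) (c (l 16757504) (l 16745864))))))), by decide +kernel⟩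

def k32_A00pm_123_s3 : ∃ t, chk3 f_A00pm_123_s3 t 29 15 1 = true :=
  ⟨(a (b (b (a (b (a (l 16704432) (l 16707072)) (c (l 16711400) (l 16723928))) (c (b (l 16758408) (l 16758640)) (a (l 16705536) (l 16707984)))) (b (a (a (l 16749176) (l 16709976)) (b (l 16734488) (l 16756320))) (a (l 16752088) (l 16757648)))) (b (a (c (l 16727664) (l 16718312)) (c (l 16733360) (l 16724240))) (a (b (c (l 16761976) (l 16751424)) (c (l 16763936) (l 16752480))) (b (c (l 16768016) (l 16757536)) (c (l 16769920) (l 16758568)))))) (b (b (a (c (b (l 16763912) (l 16764072)) (b (l 16710080) (l 16712808))) (c (a (l 16726152) (l 16749840)) (c (l 16739760) (l 16744168)))) (a (b (c (l 16722720) (l 16736224)) (l 16762816)) (b (a (a (l 16722024) (l 16723200)) (c (l 16770848) (l 16720856))) (l 16725656)))) (b (a (b (l 16764688) (l 16745568)) (b (l 16748512) (l 16750112))) (a (b (c (l 16773200) (l 16762888)) (c (l 16774888) (l 16763808))) (b (c (l 16777344) (l 16767384)) (b (l 16752144) (l 16752480))))))), by decide +kernel⟩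

def k33_A00pm_123_s3 : ∃ t, chk3 f_A00pm_123_s3 t 120 24 2 = true :=
  ⟨(b (l 4) (c (a (b (b (l 4) (b (a (a (a (c (l 538086927) (l 537737231)) (b (l 4) (l 537774351))) (a (b (l 4) (l 537506319)) (l 4))) (l 4)) (a (a (c (l 538077967) (l 537996047)) (c (l 538345231) (l 537998095))) (a (c (l 538344463) (l 538001167)) (l 4))))) (c (a (a (l 538057999) (l 538325007)) (b (a (l 538332175) (l 538331919)) (l 538316815))) (a (a (l 537971727) (l 537973775)) (b (a (l 537986319) (l 537989647)) (l 537969167))))) (b (l 4) (a (a (b (b (l 4) (c (l 538328079) (l 537988367))) (c (l 538316559) (l 537974287))) (b (l 4) (c (b (l 538320655) (l 538312975)) (b (l 537982991) (l 537973775))))) (a (b (l 4) (b (l 4) (c (l 538179599) (l 537978383)))) (l 4))))) (a (b (b (l 4) (a (a (c (b (a (l 537391119) (l 537391119)) (l 537380367)) (b (a (l 536780303) (l 536782095)) (l 536768527))) (c (c (l 537543439) (l 536970255)) (b (l 536789263) (l 536776975)))) (a (b (l 4) (c (l 537392143) (l 536786703))) (l 4)))) (a (c (a (l 537351439) (l 537356815))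 (a (l 536734735) (l 536743183))) (b (c (a (l 537374479) (l 537381391)) (a (l 536766223) (l 536776207))) (c (l 537355535) (l 536744719))))) (b (l 4) (a (b (a (a (c (l 537386511) (l 536783887)) (l 4)) (l 4)) (c (a (l 537366031) (l 537373455)) (a (l 536760079) (l 536771087)))) (a (a (b (l 4) (c (l 537379343) (l 536779279))) (l 4)) (l 4))))))), by decide +kernel⟩

def k34_A00pm_123_s3 : ∃ t, chk3 f_A00pm_123_s3 t 120 24 3 = true :=
  ⟨(c (b (l 4) (a (b (b (l 4) (b (a (a (c (a (l 536040207) (l 536043023)) (a (l 535304975) (l 535376399))) (c (l 536119567) (l 535421199))) (l 4)) (a (a (c (l 536161039) (l 535558671)) (l 535872015)) (a (c (l 536185103) (l 535587855)) (l 4))))) (c (a (b (l 536076303) (l 536112399)) (b (l 536100879) (l 536137231))) (a (b (l 535404559) (l 535503375)) (b (a (l 535560975) (l 535576591)) (l 535533583))))) (b (l 4) (a (a (a (b (b (l 4) (l 536012047)) (l 535853071)) (b (l 4) (l 535994895))) (b (l 4) (c (l 536171279) (l 535574799)))) (a (b (l 4) (c (b (l 4) (l 536178191)) (l 535692815))) (l 4))))))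 (b (l 4) (a (b (b (l 4) (a (a (a (b (c (b (l 534974735) (l 534974479)) (b (l 534385935) (l 534384655))) (c (l 534957839) (l 534365967))) (b (b (l 4) (l 534684943)) (l 534669071))) (b (b (l 4) (l 534698511)) (l 534682639))) (b (l 4) (a (c (l 534995471) (l 534408719)) (l 4))))) (a (a (c (l 534910735) (l 534313231)) (l 534695695)) (b (a (l 534669071) (c (l 534983183) (l 534394895))) (l 534669583)))) (b (l 4) (a (b (a (c (l 535002127) (l 534416143)) (l 4)) (c (a (l 534962191) (l 534981903)) (l 534650639))) (a (b (l 4) (c (l 535002127) (l 534415631))) (l 4))))))), by decide +kernel⟩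

def k35_A00pm_123_s3 : ∃ t, chk3 f_A00pm_123_s3 t 121 24 1 = true :=
  ⟨(l 4), by decide +kernel⟩

def k36_A00pm_123_s3 : ∃ t, chk3 f_A00pm_123_s3 t 120 25 2 = true :=
  ⟨(b (c (c (a (b (a (l 538295823) (l 538295055)) (l 538001935)) (a (b (b (l 538302479) (l 538288399)) (l 538537999)) (b (b (c (l 538455311) (l 538152719)) (l 538290191)) (l 538002959)))) (a (b (a (l 537935887) (l 537942287)) (l 537638671)) (b (a (b (l 537958671) (l 537941263)) (b (c (l 538118671) (l 537816591)) (l 537950479))) (a (l 537917199) (l 537926671))))) (c (a (b (a (l 537309967) (l 537323023)) (l 537276943)) (b (a (b (l 537348111) (l 537327119)) (b (a (l 537359887) (l 537368335)) (l 537343503))) (a (l 537297423) (l 537314063)))) (a (b (a (l 536686863) (l 536706319)) (l 536648975)) (b (a (l 536727567) (b (a (l 536756751) (l 536768783)) (l 536738063))) (a (l 536679183) (l 536702735)))))) (a (c (b (a (l 537655823) (l 537659663)) (a (l 16775240) (l 538173711))) (b (a (l 536911631) (l 536928527)) (l 536615183))) (a (c (b (l 537395983) (l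 537910287)) (b (l 536947215) (l 536909839))) (c (b (b (l 537676303) (l 537932815)) (l 537648399)) (b (b (l 536977167) (l 536957711)) (l 536930319)))))), by decide +kernel⟩

def k37_A00pm_123_s3 : ∃ t, chk3 f_A00pm_123_s3 t 120 25 3 = true :=
  ⟨(b (a (b (c (a (a (l 535751695) (l 535765263)) (b (l 535802639) (l 535770895))) (a (a (l 534525967) (l 534544143)) (b (l 534594063) (l 534552591)))) (c (a (l 535696655) (l 535725071)) (a (l 534453519) (l 534491919)))) (c (b (c (a (l 536052751) (b (a (l 536155919) (l 536171023)) (l 536134671))) (a (l 535313679) (b (a (l 535557903) (l 535576079)) (l 535533583)))) (a (l 535755791) (b (l 535803151) (l 535773455)))) (b (a (b (a (l 534624015) (l 534645007)) (l 534593551)) (b (c (a (l 534962959) (l 534983695)) (l 534383119)) (c (l 534935055) (l 534339599)))) (a (l 534533135) (b (l 534596623) (l 534556943)))))) (a (b (c (a (l 535637775) (l 535666447)) (a (l 534374415) (l 534413327))) (c (l 535597839) (l 534318863))) (c (b (a (l 535697423) (l 535730447)) (a (l 535642639) (l 535675919)))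 (b (a (l 534454799) (l 534499087)) (l 534402831))))), by decide +kernel⟩

def k38_A00pm_123_s3 : ∃ t, chk3 f_A00pm_123_s3 t 121 25 2 = true :=
  ⟨(b (c (a (b (a (b (l 4) (c (c (l 538443023) (l 538142735)) (c (l 538110991) (l 537810959)))) (l 4)) (c (a (b (l 538011919) (l 538268431)) (b (c (l 538433295) (l 538403855)) (l 538272527))) (a (b (l 537944847) (l 537929487)) (b (a (l 537953295) (l 537959695)) (l 537941775))))) (b (l 4) (b (l 4) (a (c (a (l 538275855) (l 538144527)) (a (l 537951247) (l 537958415))) (l 4))))) (a (a (b (b (l 4) (c (a (l 537356559) (l 537365775)) (l 536763151))) (c (b (l 537341455) (l 537322511)) (l 536727823))) (b (l 4) (b (c (l 537428239) (l 536766223)) (c (l 537342223) (l 536743183))))) (b (l 4) (a (b (l 4) (c (l 537363727) (l 536772111))) (l 4))))) (c (a (a (b (b (l 537415183) (l 537671695)) (l 537387535)) (b (b (c (l 538261775) (l 537927439)) (c (l 538251791) (l 537913871))) (b (l 537669647) (l 537659663)))) (b (a (b (c (l 537998863) (l 537941007)) (c (l 537989135) (l 537927951)))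 (b (a (c (b (l 538542351) (l 538268943)) (l 537951759)) (a (b (l 4) (c (l 538271503) (l 537954063))) (l 4))) (a (c (l 538127631) (l 537938703)) (c (l 538265615) (l 537946639))))) (b (a (a (l 537676559) (l 537413391)) (a (l 537418767) (l 537693199))) (a (l 537669903) (a (l 537946127) (l 537683727)))))) (a (b (b (c (a (l 537304335) (l 537324303)) (l 536708623)) (a (l 536979727) (l 537003535))) (a (l 536952847) (b (l 536985359) (l 536967951)))) (a (b (b (c (l 537345807) (l 536750351)) (c (l 537328911) (l 536729103))) (a (l 537129487) (l 537142799))) (b (b (a (c (l 537362703) (l 536772879)) (a (b (l 4) (l 537274639)) (l 4))) (a (c (l 537345807) (l 536751887)) (l 537331471))) (a (b (l 537030927) (l 537013775)) (l 537036815))))))), by decide +kernel⟩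

def k39_A00pm_123_s3 : ∃ t, chk3 f_A00pm_123_s3 t 121 25 3 = true :=
  ⟨(c (b (a (b (b (l 4) (a (c (l 536032015) (l 535302671)) (l 4))) (a (c (l 535990287) (l 535254287)) (b (a (l 535865359) (l 536018703)) (l 535979791)))) (b (l 4) (a (b (l 4) (a (l 535874831) (l 535895055))) (l 4)))) (a (b (a (b (l 535779599) (l 535751695)) (b (l 535816975) (l 535789327))) (a (l 535711503) (l 535749391))) (b (a (b (b (l 535863567) (l 535849743)) (a (l 535818511) (l 535838991))) (b (a (b (l 535894543) (l 535880719)) (c (l 536202511) (l 535616015))) (a (l 535860239) (l 535881999)))) (a (a (l 535778831) (l 535799567)) (a (l 535820815) (l 535842575)))))) (b (a (b (a (b (l 4) (c (l 534978319) (l 534388239))) (l 4)) (a (b (l 534575887) (l 534603535)) (b (c (l 534987279) (l 534397455)) (l 534384399)))) (b (l 4) (a (b (l 4) (l 534638095)) (l 4)))) (a (b (a (b (l 534564879) (l 534526991)) (b (l 534614543) (l 534576911))) (a (l 534471695) (l 534253583))) (b (a (b (l 534532623) (l 534495247)) (b (a (l 534976271) (c (l 535029519) (l 534443535)))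 (a (l 534670607) (l 534699279)))) (a (a (l 534561039) (l 534588431)) (a (l 534616335) (l 534645007))))))), by decide +kernel⟩

def k40_A00pm_123_s3 : ∃ t, chk3 f_A00pm_123_s3 t 61 12 1 = true :=
  ⟨(b (l 4) (a (c (b (l 4) (a (c (a (b (b (l 4) (c (c (l 538416911) (l 538395407)) (a (l 537954831) (l 537963535)))) (c (b (l 538129423) (l 538255887)) (b (l 537947663) (l 537936399)))) (b (l 4) (c (a (b (l 538135311) (l 538262031)) (b (c (l 538450703) (l 538399759)) (l 538132751))) (b (a (l 537960463) (l 538037007)) (a (l 537949455) (l 537958927)))))) (a (b (b (l 4) (a (l 537077519) (l 537360911))) (b (a (l 537059855) (l 537074959)) (l 537185039))) (b (l 4) (b (a (l 537224719) (a (l 537370639) (l 4))) (a (l 537073679) (l 537223951)))))) (a (a (b (l 4) (b (l 4) (b (l 4) (c (c (l 538270223) (l 537966095)) (l 537370639))))) (l 4)) (l 4)))) (b (l 4) (b (b (l 4) (a (a (c (l 536050447) (l 534475535)) (l 4)) (l 4))) (a (c (a (b (l 535889679) (l 535864079)) (b (a (l 535924495) (l 535948815)) (l 536046095))) (a (b (l 534707727)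 (l 534672399)) (b (a (l 534753807) (l 534785807)) (l 534600719)))) (a (a (b (l 4) (c (l 535948815) (l 534783759))) (l 4)) (l 4)))))) (l 4))), by decide +kernel⟩

def k41_A00pm_123_s3 : ∃ t, chk3 f_A00pm_123_s3 t 60 26 1 = true :=
  ⟨(a (c (b (a (c (b (l 537885455) (l 16777832)) (b (l 536849423) (l 16766264))) (c (b (l 537359887) (l 537881871)) (b (l 536887823) (l 536858127)))) (a (c (b (l 16768792) (l 16791088)) (b (l 16776408) (l 16776024))) (c (b (l 16777536) (l 16789368)) (b (l 16766384) (l 16776576))))) (b (a (b (c (l 535546127) (l 534246415)) (c (l 535497743) (l 534177551))) (c (b (l 535609103) (l 535561743)) (b (l 534331151) (l 534263311)))) (a (b (a (l 16734368) (l 16741512)) (a (l 16752272) (l 16754264))) (b (c (l 535519503) (l 534202383)) (c (l 16763680) (l 16750704)))))) (c (b (a (c (b (a (l 537637903) (l 537647119)) (a (l 16774744) (l 538170127))) (b (a (l 536919567) (l 536943887)) (a (l 536890383) (l 536914959)))) (c (a (b (c (l 538499343) (l 537889039)) (b (l 537915151) (l 16778568))) (b (c (l 538238479)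 (l 537904911)) (c (l 538497039) (l 537888015)))) (a (b (l 536969999) (l 536941327)) (b (a (l 536990223) (l 537004559)) (l 536969743))))) (a (c (b (c (l 16778032) (l 16773544)) (l 16777160)) (b (l 536878351) (l 16766568))) (c (b (a (l 538167311) (c (l 16780408) (l 16777208))) (a (l 16775856) (l 16774976))) (b (a (l 536915727) (l 536944143)) (a (l 16777360) (l 536919311)))))) (c (b (a (b (a (l 535660815) (l 535698959)) (a (l 535613967) (l 535652367))) (a (b (l 535739663) (l 535693327)) (b (l 535782415) (l 535736591)))) (a (b (l 535593231) (l 535561743)) (b (a (l 535653135) (l 535696911)) (a (l 16768280) (l 535668495))))) (b (a (b (a (l 534401039) (l 534451471)) (l 534360079)) (b (a (l 534504975) (l 534293263)) (a (l 534438671) (l 534495759)))) (a (b (l 534300687) (l 534259471)) (b (a (l 534380815) (l 534170639)) (a (l 16759112) (l 534404111)))))))), by decide +kernel⟩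

def k42_A00pm_123_s3 : ∃ t, chk3 f_A00pm_123_s3 t 120 27 2 = true :=
  ⟨(a (c (a (c (b (l 16797880) (b (b (l 16799720) (l 16789976)) (b (a (b (l 16801312) (c (l 16804424) (l 16798992))) (l 16800912)) (b (c (a (c (l 16805504) (l 16802784)) (b (l 16804064) (l 16804016))) (a (b (l 16798976) (l 16798592)) (b (l 16798720) (l 16798664)))) (l 16800552))))) (b (l 16788880) (b (l 16789976) (b (a (b (l 16790568) (l 16790792)) (l 16790400)) (b (a (b (a (l 16790720) (l 16790800)) (l 16790408)) (b (l 16790664) (l 16790592))) (l 16789904)))))) (b (l 16776800) (b (b (l 16772936) (l 16783984)) (c (b (l 16800040) (b (c (l 16803168) (l 16798048)) (a (c (l 16803320) (l 16798104)) (c (l 16803184) (l 16798064))))) (b (l 16790008) (b (l 16790312) (a (l 16790232) (l 16790344)))))))) (b (c (l 16779848) (l 16771056)) (b (a (c (l 16779768) (l 16769496)) (l 16775040)) (b (a (a (b (l 16774304) (c (l 16779776) (l 16768680))) (a (l 16777040) (l 16774528))) (l 16774792)) (c (a (b (a (b (a (l 16779592) (l 16779752)) (l 16779416)) (b (l 16779832)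 (l 16779736))) (l 16779152)) (b (l 16779920) (a (l 16779656) (l 16779968)))) (a (b (a (a (l 16768264) (l 16768504)) (b (l 16768920) (l 16768792))) (l 16768304)) (b (l 16769440) (a (l 16768976) (l 16769496))))))))) (b (c (b (l 16790616) (l 16770824)) (l 16755160)) (c (b (c (l 16776240) (l 16788632)) (a (b (l 16783704) (c (l 16799616) (l 16789872))) (b (l 16772376) (l 16783432)))) (b (l 16775624) (a (c (l 16780016) (l 16770264)) (l 16775560)))))), by decide +kernel⟩

def k43_A00pm_123_s3 : ∃ t, chk3 f_A00pm_123_s3 t 121 27 2 = true :=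
  ⟨(b (a (c (b (l 16767936) (l 16790096)) (b (l 16776824) (l 16776584))) (c (b (c (l 16789624) (l 16784728)) (l 16767408)) (b (l 536079631) (l 16766664)))) (a (c (b (l 16770272) (c (l 16775432) (l 16788368))) (b (l 16776352) (a (l 16775968) (l 16776352)))) (b (c (l 16789568) (l 16777008)) (c (l 16769784) (l 16776896))))), by decide +kernel⟩

def k44_A00pm_123_s3 : ∃ t, chk3 f_A00pm_123_s3 t 60 27 3 = true :=
  ⟨(c (a (b (a (b (l 16758784) (l 16756752)) (l 16739864)) (a (b (c (l 16754592) (l 16744504)) (b (a (a (c (l 16757696) (l 16746536)) (l 16752952)) (l 16754224)) (a (b (a (b (c (l 16757240) (l 16745904)) (l 16751536)) (b (l 16752384) (c (l 16757760) (l 16746640)))) (l 16749232)) (b (l 16753552) (a (a (l 16752608) (l 16750352)) (b (l 16753648) (l 16753488))))))) (b (l 16758048) (a (b (l 16755896) (l 16755048)) (l 16757152))))) (b (a (b (l 16764592) (l 16762864)) (b (a (l 16766632) (l 16767944)) (l 16765736))) (a (c (l 16764432) (l 16756432)) (b (l 16764208) (l 16762744))))) (a (b (a (b (l 16741832) (l 16738112))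 (b (l 16747104) (l 16743616))) (a (a (b (l 16733064) (b (a (c (l 16735312) (l 16724024)) (l 16731144)) (b (a (c (l 16734520) (l 16723080)) (b (l 16730072) (l 16732440))) (l 16729616)))) (b (l 16735952) (b (l 16733368) (b (c (l 16737488) (l 16726696)) (a (b (l 16730888) (l 16730936)) (b (l 16732232) (l 16731968))))))) (b (l 16740240) (a (b (l 16736304) (l 16729448)) (l 16733200))))) (b (a (b (l 16752224) (l 16748968)) (b (a (l 16755936) (l 16758344)) (l 534067471))) (a (b (l 16745824) (b (l 16743512) (l 16742008))) (b (l 16751200) (l 16748320)))))), by decide +kernel⟩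

def k45_A00pm_123_s3 : ∃ t, chk3 f_A00pm_123_s3 t 122 52 2 = true :=
  ⟨(c (a (b (c (a (l 537978383) (b (l 537990415) (l 538253327))) (a (l 537922063) (b (l 537944847) (l 537935887)))) (c (a (l 538505743) (l 537978895)) (a (l 537905679) (l 537656079)))) (b (a (c (b (a (l 538265615) (c (l 538413327) (l 538397199))) (a (l 538528783) (l 538265871))) (b (a (l 537958927) (l 537969167)) (a (l 537949967) (l 537960207)))) (c (b (a (b (l 4) (a (l 538273807) (l 4))) (l 4)) (a (b (l 538138639) (l 538270479)) (c (b (l 538418959) (l 538685711)) (l 538438927)))) (b (a (b (l 4) (l 537977359)) (l 4)) (a (l 537970959) (b (l 538051087) (l 537979919)))))) (c (a (b (l 537991183) (l 538256143)) (b (a (l 538267407) (c (l 538683407) (l 538400527))) (b (l 538000143) (l 538267151)))) (a (b (l 537947919) (l 537941007)) (b (a (l 537963279) (l 537974287)) (a (l 537956367) (l 537967631))))))) (a (b (a (b (l 537035023) (l 537019919)) (b (a (l 537057807) (l 537073935)) (l 537185807))) (a (l 536999695) (b (l 537037839) (l 537025039)))) (b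 (a (b (a (l 537224975) (a (l 537371663) (l 537246223))) (a (l 537075983) (l 537227535))) (b (a (c (b (l 4) (l 537407759)) (l 536705039)) (l 4)) (a (a (l 537106191) (l 537249551)) (c (l 537414415) (l 536709135))))) (a (b (a (l 537062159) (l 537079567)) (a (l 537049615) (l 537067023))) (b (a (l 537231631) (b (l 537253135) (l 537112335))) (c (l 537384975) (l 536535055))))))), by decide +kernel⟩

def k46_A00pm_123_s3 : ∃ t, chk3 f_A00pm_123_s3 t 122 52 3 = true :=
  ⟨(a (c (b (a (l 535827983) (b (l 535887375) (l 535863823))) (a (l 535782415) (b (l 535841295) (l 535819791)))) (b (a (l 534352911) (b (l 534432271) (l 534667279))) (a (l 534287375) (l 534552079)))) (c (a (b (b (a (l 535924495) (l 535950351)) (a (l 535900943) (l 535927055))) (b (l 535891983) (l 535870735))) (b (b (a (a (l 535970063) (l 535983375)) (l 4)) (a (l 535953679) (a (l 535973903) (l 535987727)))) (b (a (l 535931407) (l 535958799)) (a (l 535910159) (l 535937807))))) (b (a (b (a (l 534749711) (l 534783503)) (a (l 534716431) (l 534750479))) (b (a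 (l 534617103) (l 4)) (a (l 534785551) (c (l 535112207) (l 534529807))))) (a (b (l 534433039) (l 534401807)) (b (a (l 534753551) (l 534789391)) (a (l 534722319) (l 534758671))))))), by decide +kernel⟩

def k47_A00pm_123_s3 : ∃ t, chk3 f_A00pm_123_s3 t 122 53 1 = true :=
  ⟨(c (a (a (c (b (c (l 538493967) (l 537888783)) (l 537997839)) (b (l 536974351) (l 536949263))) (c (b (b (l 537673743) (l 537661711)) (c (l 538472975) (l 537879567))) (b (b (l 537012495) (l 536999439)) (l 536980751)))) (b (b (c (c (a (l 538249743) (l 537991951)) (a (l 537932559) (l 537953295))) (a (l 537113615) (a (l 537072399) (l 537090575)))) (c (a (l 537406735) (c (l 538242831) (l 537937423))) (a (l 537032975) (a (l 537058575) (l 537076495))))) (c (a (b (l 537658639) (l 537641487)) (b (c (l 538223119) (l 537920271)) (l 537653007))) (a (b (l 537019919) (l 537007119)) (b (l 537054479) (l 537042191)))))) (a (c (b (a (l 535743503) (b (l 535800335) (l 535784975))) (a (l 535716367) (l 535767567))) (b (a (l 534232335) (b (l 534575887) (l 534557199)))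 (a (l 534469135) (l 534270223)))) (b (c (a (b (l 535852047) (l 535837711)) (b (a (l 535891983) (l 535920143)) (l 535894031))) (a (b (l 534375695) (l 534627855)) (b (a (l 534697487) (l 534734863)) (l 534502927)))) (c (a (b (l 535826447) (l 535817231)) (b (l 535884047) (l 535874831))) (a (b (l 534617103) (l 534609935)) (a (l 534404111) (l 534444559))))))), by decide +kernel⟩

def k48_A00pm_123_s3 : ∃ t, chk3 f_A00pm_123_s3 t 123 52 2 = true :=
  ⟨(a (c (b (b (l 4) (b (l 4) (b (l 4) (a (a (a (c (l 538280463) (l 537987087)) (l 4)) (l 4)) (l 4))))) (a (c (c (b (a (b (l 538689039) (l 538687759)) (b (l 4) (l 538424591))) (a (l 538417423) (b (l 538692111) (l 538693903)))) (b (a (l 538408207) (b (l 4) (l 538414863))) (a (l 538404111) (b (l 538413071) (l 538413583))))) (b (a (b (l 537987599) (l 537984015)) (b (l 4) (l 538062863))) (a (l 537979151) (b (l 537992463) (l 537991183))))) (b (l 4) (b (a (c (c (a (l 538695951) (l 538698767)) (l 538421263)) (a (l 538001423) (l 538007567))) (l 4)) (a (c (a (c (l 538695951) (l 538417935))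 (c (l 538428175) (l 538420495))) (c (l 538140175) (l 537726735))) (a (c (c (c (l 538769167) (l 538631951)) (l 538425359)) (b (l 538012687) (l 538008591))) (l 4))))))) (b (a (a (b (l 4) (b (l 4) (c (l 537360399) (l 536860431)))) (l 4)) (l 4)) (a (c (b (a (l 537419279) (b (l 4) (l 537433359))) (a (l 537408783) (b (l 537428239) (l 537424143)))) (b (a (b (l 536852751) (l 536845327)) (b (l 4) (l 536867087))) (a (l 536834575) (b (l 536859919) (l 536853007))))) (b (l 4) (c (a (b (l 537378575) (a (l 537436431) (l 537310223))) (b (l 4) (a (l 537386511) (l 4)))) (a (b (l 536882191) (a (l 536869647) (l 536880911))) (b (l 4) (a (b (l 536894223) (l 536890639)) (l 4))))))))) (l 4)), by decide +kernel⟩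

def k49_A00pm_123_s3 : ∃ t, chk3 f_A00pm_123_s3 t 123 52 3 = true :=
  ⟨(c (a (b (a (b (l 4) (a (a (b (l 4) (l 535996175)) (l 4)) (l 4))) (l 4)) (a (b (a (b (l 535992335) (l 535981583)) (b (l 4) (a (l 536003087) (l 536017679)))) (a (l 535999759) (b (l 535932943) (l 535989007)))) (b (l 4) (a (b (a (l 536022031) (l 536171535)) (a (l 535877391) (b (l 535962127) (l 536025871)))) (a (b (l 4) (c (l 536326927) (l 535757327))) (l 4)))))) (l 4)) (a (b (a (a (a (b (l 4) (l 534848783)) (l 4)) (l 4)) (l 4)) (a (b (a (c (l 535117839) (l 534534415)) (b (l 4) (l 535125007))) (a (l 534561039) (b (l 534841103) (a (l 534817039) (l 534833679))))) (b (l 4) (a (b (a (l 534870287) (l 534889999)) (a (l 534854415) (b (l 534877967) (l 534874383)))) (a (b (l 4) (b (l 535031311) (l 534893839))) (l 4)))))) (l 4))), by decide +kernel⟩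

def k50_A00pm_123_s3 : ∃ t, chk3 f_A00pm_123_s3 t 246 53 2 = true :=
  ⟨(c (b (a (c (a (b (l 538266127) (l 538514703)) (b (b (l 538275343) (l 538533647)) (l 538249743))) (b (a (l 537967631) (b (l 537982223) (l 537973263))) (a (l 537950223) (l 537959951)))) (c (b (a (b (a (l 538278671) (l 538280719)) (l 538269199)) (a (b (l 538150671) (l 538543631)) (c (l 538421263) (l 538416655)))) (a (l 537987343) (c (l 538668815) (l 538396431)))) (b (a (b (l 538025743) (l 537983503)) (b (l 538072847) (l 537997071))) (a (l 537971471) (l 537985295))))) (a (c (b (l 537961743) (l 538214159)) (b (l 537939471) (l 537925647))) (c (b (a (l 538507023) (l 538247951)) (a (l 538492431) (l 538502159))) (b (a (l 537956367) (l 537970703)) (a (l 537943311) (l 537957647)))))) (b (a (c (b (a (l 537396239) (l 537412367)) (a (l 537381135) (l 537396751))) (b (a (l 536820751) (l 536573967)) (l 536718095))) (c (b (a (b (l 537298191) (l 537424655)) (b (l 537450767) (l 537443087))) (a (l 537413903) (l 537164047))) (b (a (b (l 536868111) (l 536861199))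 (b (l 536891407) (l 536884495))) (a (l 536851727) (l 536875023))))) (a (b (a (l 537081359) (l 537100559)) (a (l 537069327) (l 537088783))) (b (a (l 537120527) (b (l 537144591) (l 537138703))) (a (l 537109263) (l 537130511)))))), by decide +kernel⟩

def k51_A00pm_123_s3 : ∃ t, chk3 f_A00pm_123_s3 t 247 53 4 = true :=
  ⟨(b (a (c (b (b (a (a (c (l 538699023) (l 538426895)) (l 4)) (l 4)) (a (c (l 538423311) (l 538420751)) (a (b (l 4) (l 4)) (l 4)))) (a (b (c (l 538682383) (l 538411791)) (l 538270223)) (c (b (a (l 538689039) (l 538694159)) (l 538683151)) (b (l 538423823) (l 538415631))))) (b (a (b (a (l 538016527) (l 4)) (a (l 538007823) (l 538015503))) (b (l 4) (a (l 538023183) (l 4)))) (a (b (l 538003727) (l 537996303)) (b (a (l 538015247) (l 538022927)) (l 538011663))))) (a (b (l 4) (b (l 4) (c (c (c (l 538759695) (l 538627343)) (l 538428431)) (a (l 538023439) (l 538031887))))) (l 4))) (a (a (b (c (l 538057231) (l 537985551)) (c (l 538512911) (l 537973007))) (b (c (c (l 538402831) (l 538404367)) (b (l 538004495)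 (l 537997839))) (c (l 538255631) (l 537988879)))) (c (c (b (a (b (l 538685455) (l 538677775)) (b (a (l 538693391) (l 4)) (l 538689039))) (a (l 538667791) (l 538410767))) (b (a (b (l 538420751) (l 538413583)) (b (l 538434063) (l 538426895))) (a (l 538403855) (l 538417679)))) (b (a (b (l 538020879) (l 538014223)) (b (a (l 538033167) (l 4)) (l 538031119))) (a (l 538005263) (b (l 538025231) (l 538019599))))))), by decide +kernel⟩

def k52_A00pm_123_s3 : ∃ t, chk3 f_A00pm_123_s3 t 247 53 5 = true :=
  ⟨(b (b (a (a (b (a (c (l 537465103) (l 536909071)) (l 4)) (c (l 537395471) (l 536942095))) (b (l 4) (a (c (l 537477391) (l 536926479)) (l 4)))) (l 4)) (a (a (c (b (l 537455375) (l 537448463)) (b (l 536901903) (l 536895759))) (c (b (a (l 537469967) (l 537480207)) (l 537468687)) (b (a (l 536920079) (l 536932367)) (l 536920335)))) (b (l 4) (a (a (c (l 537483791) (l 536939023)) (c (l 537494287) (l 536951823))) (l 4))))) (a (c (b (a (l 537438991) (l 537392143)) (a (l 537427471) (l 537447695))) (b (a (l 536887055) (l 536710415))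 (a (l 536876303) (l 536901135)))) (c (b (a (b (l 537348879) (l 537476879)) (b (a (l 537498639) (l 4)) (l 537364239))) (a (l 537200399) (b (l 537493007) (l 537487631)))) (b (a (b (l 536939791) (l 536934159)) (b (a (l 536958735) (l 4)) (l 536960271))) (a (l 536658191) (b (l 536954895) (l 536950031))))))), by decide +kernel⟩

def k53_A00pm_123_s3 : ∃ t, chk3 f_A00pm_123_s3 t 123 53 6 = true :=
  ⟨(a (b (a (b (a (l 535949583) (b (l 535848463) (l 535976719))) (a (l 535938319) (l 535700495))) (b (a (b (a (l 536005391) (l 536021263)) (l 535873807)) (b (a (l 536036367) (l 536051471)) (a (l 536030479) (l 536045583)))) (a (l 535932431) (b (l 535898127) (l 536026895))))) (a (b (a (l 535928335) (l 535958543)) (l 535934223)) (b (a (l 535988751) (l 535884815)) (a (l 535978767) (l 536008975))))) (b (a (b (a (b (a (c (l 536348431) (l 535783695)) (l 4)) (a (l 536060687) (l 536143119))) (b (l 4) (a (c (l 536370959) (l 535811087)) (l 4)))) (a (b (a (l 536055055) (l 536070415)) (l 535923215)) (b (a (l 536086031) (c (l 536379919)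 (l 535822351))) (a (l 536080399) (l 536096271))))) (b (l 4) (a (b (l 4) (a (l 536145679) (c (l 536403983) (l 535851279)))) (l 4)))) (a (b (a (b (l 536051983) (l 536046863)) (a (l 535938319) (l 535987727))) (a (l 535771151) (l 536003855))) (b (a (b (a (l 536106767) (l 536122895)) (a (l 536101647) (l 536117775))) (b (a (l 536038671) (l 4)) (a (l 536134159) (l 536150543)))) (a (b (l 535970831) (l 536100367)) (b (a (l 536129295) (l 536145679)) (l 535998735))))))), by decide +kernel⟩

def k54_A00pm_123_s3 : ∃ t, chk3 f_A00pm_123_s3 t 123 53 7 = true :=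
  ⟨(a (b (a (b (a (l 534506511) (b (l 534885135) (l 534813199))) (a (l 534765327) (l 534807311))) (b (b (a (a (l 534849039) (l 534870543)) (a (l 534889999) (l 534909199))) (a (l 534855439) (l 535029007))) (a (a (l 534838031) (l 534857999)) (b (l 534889743) (l 534884623))))) (a (b (a (l 534757647) (l 534798351)) (l 534501135)) (b (a (l 534838543) (l 535011343)) (a (l 534828559) (l 534867215))))) (b (a (b (b (a (a (l 534928655) (l 4)) (l 4)) (a (a (l 534923535) (l 534943247)) (a (l 535097103) (l 4)))) (a (b (a (l 534918415) (l 534938127)) (l 534923535)) (b (a (l 534957839) (l 534977807)) (a (l 534952975) (l 534972943))))) (b (l 4) (a (b (l 4) (a (l 534992911) (l 535147535))) (l 4)))) (a (b (a (b (l 534918415) (l 534913551)) (a (l 534945551) (l 535099663))) (a (l 534906127) (b (l 534948111) (l 534943247)))) (b (a (b (a (l 534988047) (l 535008527)) (a (l 534983183) (l 535003407))) (b (a (l 535029007) (l 4)) (a (l 535024143) (l 535044879)))) (a (b (l 534988559) (l 534983695)) (b (a (l 535019279) (l 535040015)) (l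 535024911))))))), by decide +kernel⟩

def k55_A00pm_123_s3 : ∃ t, chk3 f_A00pm_123_s3 t 122 27 1 = true :=
  ⟨(b (c (a (b (c (c (l 538172687) (l 537309455)) (a (l 536926479) (l 536957967))) (c (c (l 16778408) (l 16773928)) (a (l 16777512) (l 16777720)))) (b (c (a (c (l 16780344) (l 16777280)) (c (l 537915663) (l 537886735))) (a (l 536991247) (b (l 537031439) (l 537021967)))) (c (a (c (l 16787200) (l 16783504)) (c (l 16780840) (l 16777640))) (a (l 536974607) (l 536474383))))) (c (a (b (a (l 535697167) (l 535749903)) (a (l 16767760) (l 16769040))) (b (a (l 535805199) (b (l 535865871) (l 535857679))) (a (l 535790095) (l 535846927)))) (a (b (a (l 534450703) (l 534255375)) (a (l 16757848) (l 16760224))) (b (a (l 534331407) (a (l 534657039) (l 534427919))) (a (l 534315791) (l 534391823)))))) (a (c (b (c (l 16777400) (l 16767080)) (c (l 16768176) (l 16777552))) (b (a (l 535050511) (c (l 16767696) (l 16757512))) (c (l 16765688) (l 16753576)))) (c (b (c (a (l 16776160) (l 16775320)) (a (l 16777912) (l 537001231))) (c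 (b (l 16776696) (l 16766880)) (a (l 16777968) (l 16778200)))) (b (a (c (l 16768984) (l 16759880)) (b (l 535110159) (l 535237135))) (a (c (l 16767744) (l 16757296)) (c (l 16769040) (l 16759672))))))), by decide +kernel⟩

def k56_A00pm_123_s3 : ∃ t, chk3 f_A00pm_123_s3 t 123 54 2 = true :=
  ⟨(a (b (c (a (b (l 537387023) (l 537645071)) (c (b (l 538217743) (l 538207759)) (b (l 537940495) (l 537931023)))) (a (b (l 537069583) (l 537060623)) (b (a (l 537099279) (l 537120527)) (a (l 537090575) (l 537112079))))) (c (a (c (l 537910287) (l 537893135)) (b (l 537391631) (l 537654543))) (a (b (l 537052943) (l 537046799)) (b (l 537094927) (l 537089039))))) (b (b (c (a (c (a (l 538500879) (l 538512399)) (a (l 537961999) (l 537978127))) (c (a (l 538256143) (l 538000399)) (a (l 537994767) (l 538012175)))) (a (a (l 537142799) (l 537165327)) (a (b (l 537190927) (l 537186319)) (b (l 537214735) (l 537210383))))) (c (a (c (l 537961487) (l 537962255)) (c (b (l 537987855) (l 538252303)) (a (l 537986063) (l 538003471)))) (a (a (l 537134351)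 (l 537157135)) (a (l 537180687) (b (l 537206287) (l 537202703)))))) (c (a (b (b (l 537419791) (l 537416719)) (c (l 538217231) (l 537950223))) (a (b (l 537707535) (l 537971215)) (b (l 537454607) (l 537718287)))) (a (b (a (l 537127183) (l 537150223)) (a (l 537121551) (l 537144591))) (b (a (l 537173775) (l 537198095)) (a (l 537168399) (l 537192719))))))), by decide +kernel⟩

def k57_A00pm_123_s3 : ∃ t, chk3 f_A00pm_123_s3 t 123 54 3 = true :=
  ⟨(a (a (b (b (c (l 535925007) (l 534491919)) (a (l 535318287) (l 535352847))) (b (a (l 535309839) (l 535344143)) (a (l 535301647) (l 535335951)))) (c (b (b (a (l 535969295) (l 535999503)) (l 535976463)) (b (l 535968527) (l 535961359))) (b (b (a (l 534818831) (l 534857231)) (l 534560271)) (b (l 534550543) (l 534541071))))) (b (c (a (b (a (l 536030223) (l 535793167)) (a (l 536021519) (l 536053007))) (b (a (l 535959567) (b (l 536128527) (l 536124175))) (a (l 535816719) (l 535983887)))) (a (b (a (l 534896399) (l 534936079)) (a (l 534886671) (l 534926351))) (b (a (b (l 534978831)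 (l 534973967)) (b (l 535020047) (l 535015183))) (a (l 534966799) (b (l 535010319) (l 535005455)))))) (c (a (b (a (l 536013839) (l 536045327)) (l 536023311)) (b (a (l 536077583) (l 536110351)) (a (l 536070415) (l 536103439)))) (a (b (a (l 534876943) (l 534916623)) (l 534619407)) (b (a (l 534957327) (l 534998543)) (a (l 534947599) (l 534989071))))))), by decide +kernel⟩

def k58_A00pm_123_s3 : ∃ t, chk3 f_A00pm_123_s3 t 123 55 1 = true :=
  ⟨(c (a (b (c (a (c (l 16776120) (l 16783288)) (c (l 16780264) (l 16777416))) (a (c (l 16779928) (l 16776528)) (b (l 537084687) (l 16773120)))) (c (a (l 16775824) (c (l 16787168) (l 16783744))) (a (l 16778384) (b (l 16778464) (l 16778568))))) (b (a (c (b (l 537410319) (l 537677839)) (b (l 537129999) (l 537127183))) (c (c (b (l 538240271) (l 538240015)) (b (l 537981711) (l 537980943))) (b (a (l 537164303) (l 537188879)) (a (l 16775792) (l 537186319))))) (b (c (a (l 16778992) (c (l 16779248) (l 16776904))) (a (l 537126159) (l 537174543))) (a (a (l 536860431) (l 536611343)) (a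 (l 536363023) (l 536115215)))))) (c (a (b (a (l 535691023) (b (l 535954959) (l 16772160))) (a (l 16770264) (b (l 16771648) (l 16771144)))) (b (a (b (l 536016911) (l 536011535)) (b (a (l 536064271) (l 536097295)) (l 536076559))) (a (b (l 536006671) (l 16772232)) (b (l 536071951) (l 536067855))))) (a (b (a (b (l 16764920) (l 16763720)) (a (l 534507023) (l 534545423))) (a (l 16761944) (b (l 16764672) (l 16763536)))) (b (a (b (l 534609935) (l 534600463)) (b (a (l 534938127) (l 534979599)) (l 534681871))) (a (b (l 534590991) (l 16765624)) (b (l 534672399) (l 534663183))))))), by decide +kernel⟩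

def k59_A00pm_123_s3 : ∃ t, chk3 f_A00pm_123_s3 t 120 28 1 = true :=
  ⟨(c (b (c (a (b (c (b (c (l 16801488) (l 16796440)) (l 16796840)) (b (b (l 16789280) (l 16788488)) (l 16787208))) (c (l 16793680) (l 16784816))) (c (b (b (a (b (a (c (l 16802512) (l 16797520)) (l 16799880)) (l 16799168)) (b (l 16799016) (c (l 16801560) (l 16796856)))) (b (l 16787776) (l 16797360))) (l 16794872)) (b (b (a (b (a (l 16789984) (l 16790056)) (l 16789392)) (b (l 16789656) (l 16789752))) (l 16788400)) (l 16786296)))) (b (a (b (c (l 16778560) (a (l 16767776) (l 16768736))) (a (l 16772080) (l 16773000))) (b (a (b (a (b (l 16774880) (l 16774672)) (b (l 16775112) (l 16775088))) (l 16774528)) (b (l 16775424) (a (l 16775176) (l 16775544)))) (c (l 16778984) (l 16764224)))) (a (l 16773912) (l 16773192)))) (b (c (a (l 16786080) (l 16787608)) (a (l 16770016) (l 16772016))) (c (a (l 16783472) (l 16785176)) (l 16770240)))) (b (b (c (a (b (a (l 16751888) (b (l 16753088) (l 16753144))) (c (l 16757608) (l 16747520))) (b (a (b (a (b (l 16754136)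 (l 16754032)) (l 16752288)) (l 16754352)) (b (l 16756128) (a (c (l 16760368) (l 16750384)) (l 16756216)))) (c (l 16759832) (l 16750104)))) (a (a (b (l 16730352) (l 16731384)) (b (a (l 16731560) (l 16732352)) (l 16732976))) (b (a (b (a (a (l 16732752) (l 16733320)) (l 16734336)) (l 16733792)) (b (l 16736480) (b (l 16730744) (l 16730544)))) (b (a (l 16734320) (l 16735888)) (l 16735624))))) (c (a (c (l 16757472) (l 16748112)) (l 16750064)) (a (l 16728608) (l 16731728)))) (a (b (b (l 16749760) (l 16745384)) (l 16746832)) (b (b (l 16747272) (l 16748096)) (l 16749496))))), by decide +kernel⟩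

def k60_A00pm_123_s3 : ∃ t, chk3 f_A00pm_123_s3 t 121 28 1 = true :=
  ⟨(c (b (c (b (c (a (b (l 16797520) (a (a (l 16787752) (l 16787768)) (l 16787352))) (l 16774768)) (a (b (l 16789008) (a (b (l 16789544) (l 16789040)) (l 16789304))) (l 16788248))) (a (b (c (b (l 16786696) (l 16796488)) (l 16788176)) (l 16791136)) (a (b (c (l 16786664) (l 16789000)) (l 16792120)) (b (l 16782272) (a (l 16771504) (l 16782160)))))) (b (a (a (b (l 16775840) (b (a (l 16775632) (l 16775944)) (l 16775416))) (b (l 16776256) (b (l 16776232) (l 16776264)))) (a (l 16776648) (l 16777040))) (a (a (l 16774600) (c (l 16779552) (l 16765864))) (b (a (b (l 16776728) (l 16776456)) (l 16777184)) (a (l 16776112) (b (l 16777040) (l 16776872))))))) (a (b (c (l 16789096) (l 16773968)) (c (l 16786832) (l 16773304))) (c (b (l 16769552) (l 16788424)) (b (l 16775856) (l 16775264))))) (c (b (b (a (b (l 16758448) (a (b (a (l 16756704) (l 16757504)) (l 16756888)) (b (l 16758712) (l 16758448)))) (a (l 16760520) (l 16762104))) (a (b (a (l 16757040) (b (l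 16752928) (l 16758296))) (l 16757856)) (b (a (b (l 16754512) (l 16754240)) (l 16761216)) (a (l 16759656) (b (l 16755568) (l 16760896)))))) (b (b (l 16759344) (l 16749240)) (a (l 16759288) (l 16761632)))) (b (b (a (a (b (l 16739048) (b (a (l 16737392) (l 16738696)) (l 16737968))) (b (l 16741944) (b (l 16740840) (l 16735016)))) (b (l 16746168) (l 16734272))) (a (b (a (l 16738728) (l 16734984)) (l 16740544)) (b (a (b (l 16737152) (l 16736872)) (l 16739624)) (a (l 16742776) (b (l 16738952) (l 16744496)))))) (b (c (l 16737232) (l 16729208)) (a (l 16744792) (l 16747536)))))), by decide +kernel⟩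

def k61_A00pm_123_s3 : ∃ t, chk3 f_A00pm_123_s3 t 60 29 1 = true :=
  ⟨(c (a (b (c (b (l 16782320) (l 16780744)) (c (l 16751848) (l 16745896))) (c (b (l 16779536) (l 16778640)) (l 16759872))) (b (c (b (l 16785936) (l 16784640)) (b (l 16774032) (l 16774088))) (c (b (l 16783672) (l 16782976)) (l 16764248)))) (c (a (b (c (l 16739824) (l 16733640)) (l 16740240)) (b (c (l 16744408) (l 16738464)) (b (l 16764736) (l 16766496)))) (a (b (c (l 16727344) (l 16720936)) (a (l 16750496) (l 16752856))) (b (c (l 16732416) (l 16726248)) (a (l 16734184) (l 16736400)))))), by decide +kernel⟩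

def k62_A00pm_123_s3 : ∃ t, chk3 f_A00pm_123_s3 t 122 28 1 = true :=
  ⟨(c (b (a (c (b (l 16769472) (a (b (l 16791912) (b (l 16771608) (l 16782232))) (l 16770600))) (b (l 16777576) (a (b (l 16777496) (b (l 16777656) (l 16777648))) (l 16777968)))) (b (c (l 16767896) (l 16767704)) (c (l 16769424) (l 16778464)))) (a (c (b (b (a (l 16792040) (b (l 16782128) (l 16771344))) (l 16791328)) (l 16789928)) (b (b (a (l 16777352) (b (l 16778272) (l 16778080))) (l 16777488)) (l 16777144))) (b (b (a (c (l 16781832) (l 16778856)) (l 16764352)) (c (a (l 16781592) (b (l 16771400) (l 16771448))) (a (l 16778640) (b (l 16779480) (l 16779456))))) (c (l 16770344) (l 16778920))))) (b (c (a (b (l 16764384) (b (l 16763480) (a (b (l 16762328) (l 16756920)) (l 16763736)))) (b (l 16767232) (l 16766192))) (a (b (l 16750896) (a (b (l 16747560) (b (l 16746624) (l 16741040))) (l 16749656))) (b (a (l 16754752) (l 16757216)) (l 16753592)))) (b (a (b (a (c (l 16762224) (l 16746672)) (c (b (l 16763520) (l 16763416)) (b (l 16743128) (l 16748344))))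 (c (l 16763200) (l 16748488))) (c (b (a (l 16764992) (l 16766328)) (a (l 16759528) (b (l 16766192) (l 16766072)))) (b (a (b (l 16750856) (l 16739968)) (l 16753208)) (a (l 16745256) (b (l 16752520) (l 16741808)))))) (a (b (l 16756680) (l 16757528)) (c (l 16766088) (l 16742344)))))), by decide +kernel⟩

def k63_A00pm_123_s3 : ∃ t, chk3 f_A00pm_123_s3 t 123 28 1 = true :=
  ⟨(a (c (a (c (b (b (l 16787664) (l 16789216)) (b (l 16770312) (b (a (l 16771328) (l 16781976)) (l 16791912)))) (b (b (l 16778560) (l 16778888)) (b (l 16779648) (b (b (l 16780168) (l 16780096)) (l 16780112))))) (b (b (c (l 16776360) (l 16778744)) (c (l 16788400) (l 16779112))) (c (b (l 16790424) (b (l 16781816) (l 16771312))) (b (l 16779864) (b (l 16770288) (l 16780744)))))) (b (b (a (c (l 16769192) (l 16759592)) (c (l 16770408) (l 16761864))) (a (b (l 16763192) (l 16762456)) (c (l 16769544) (l 16759696)))) (a (b (c (l 16767648) (l 16755296)) (b (c (b (l 16767432) (l 16767456)) (b (l 16749064) (l 16754408))) (l 16761624))) (b (c (l 16768960)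 (l 16757736)) (b (c (l 16763616) (b (l 16756592) (l 16745840))) (c (l 16768792) (l 16751200))))))) (c (b (b (a (c (l 16775504) (b (l 16778808) (l 16778952))) (c (c (l 16776128) (l 16778344)) (b (l 16773632) (l 16779040)))) (a (c (l 16766592) (l 16779288)) (c (l 16776208) (l 16768920)))) (b (c (l 16778656) (c (l 16782424) (l 16777848))) (a (b (l 16765216) (b (a (l 16766088) (l 16765872)) (c (l 16771680) (l 16771056)))) (b (l 16764864) (l 16765872))))) (c (b (b (a (b (l 16771776) (l 16771328)) (b (l 16772816) (l 16772408))) (a (l 16770752) (b (l 16772032) (l 16771728)))) (a (b (l 16770240) (b (l 16770032) (b (l 16770080) (l 16770040)))) (b (l 16771440) (l 16771272)))) (a (b (b (b (l 16764560) (l 16763496)) (l 16761968)) (b (l 16760104) (b (l 16758824) (b (l 16758320) (l 16752904))))) (b (b (b (l 534653967) (l 16765584)) (b (l 16759360) (l 16763672))) (b (l 16762376) (l 16760808))))))), by decide +kernel⟩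

def k64_A00pm_123_s3 : ∃ t, chk3 f_A00pm_123_s3 t 61 29 1 = true :=
  ⟨(a (b (c (c (b (a (l 16788432) (l 16789952)) (l 16767184)) (b (l 16777880) (l 16778016))) (c (b (l 16766120) (l 16746480)) (b (a (l 16752672) (l 16755144)) (l 16735496)))) (c (c (b (l 16787464) (l 16786832)) (a (l 16756832) (l 16758632))) (a (b (l 16763040) (l 16744304)) (b (l 16744168) (l 16746200))))) (b (a (c (b (c (l 16791336) (l 16780488)) (b (l 16764720) (l 16764576))) (c (b (l 16769224) (l 16770488)) (b (l 16757544) (l 16759880)))) (b (a (c (c (l 16792240) (l 16781656)) (c (l 16770664) (l 16748784))) (c (b (a (c (l 16771720) (l 16782056)) (b (l 16766640) (l 16766776))) (l 16766592)) (b (c (b (l 16771368) (l 16771384)) (b (a (l 16759496) (l 16760544)) (l 16760120))) (l 16766464)))) (c (b (l 16766096) (l 16765944)) (c (l 16772296) (l 16762008))))) (c (a (c (l 16768408) (l 16781128)) (b (a (l 16765408) (l 16765928)) (l 16765224))) (c (a (l 16751520) (a (l 16752728) (l 16753416))) (a (c (l 16744800) (l 16750688)) (c (l 16746536) (l 16752536))))))),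 by decide +kernel⟩

def k65_A00pm_123_s3 : ∃ t, chk3 f_A00pm_123_s3 t 30 15 1 = true :=
  ⟨(b (a (c (a (b (a (l 16762880) (b (l 16775688) (l 16775728))) (b (a (l 16773320) (l 16775576)) (b (l 16753856) (l 16775832)))) (b (c (l 16771688) (l 16765360)) (b (l 16757616) (b (l 16757216) (l 16778528))))) (c (b (a (c (l 16745952) (l 16742672)) (c (l 16749952) (l 16746592))) (a (a (l 16746928) (l 16748848)) (b (l 16771504) (l 16772704)))) (b (a (b (l 16714784) (l 16739192)) (b (l 16739856) (l 16742808))) (a (b (l 16742504) (l 16744592)) (b (l 16766552) (l 16747736)))))) (c (b (a (b (a (l 16781888) (l 16783480)) (a (l 16781568) (l 16782896))) (a (c (l 16787424) (l 16760232)) (b (l 16764576) (l 16784616)))) (a (b (b (l 16760680) (l 16760168)) (c (l 16761304) (l 16757696))) (a (b (l 16782784) (l 16760424)) (b (l 16762400) (l 16760864))))) (b (c (a (a (l 16750872) (l 16752448)) (a (l 16753712) (l 16765248))) (a (b (l 16753944) (l 16745920)) (a (a (l 16746552) (l 16747200)) (c (l 16749808) (l 16756896))))) (b (a (a (l 16750080)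 (l 16751184)) (a (l 16752136) (l 16763424))) (a (a (l 16751512) (l 16762912)) (a (l 16763592) (l 16764120))))))) (a (b (a (b (l 16752344) (l 16753648)) (b (l 16754936) (l 16761208))) (c (a (b (l 16780096) (l 16780816)) (b (l 16781696) (l 16761168))) (a (b (l 16770840) (l 16750288)) (b (l 16773408) (a (l 16773152) (l 16774192)))))) (b (c (a (b (l 16780808) (l 16781728)) (b (a (l 16780920) (l 16770360)) (l 16771128))) (a (a (l 16753008) (l 16753752)) (b (a (l 16753776) (b (l 16775008) (l 16775400))) (l 16765288)))) (a (b (a (l 16757624) (l 16763272)) (c (a (l 16782520) (l 16782600)) (a (l 16775056) (l 16775808)))) (b (a (b (l 16779104) (l 16779312)) (b (l 16779192) (l 16779424))) (a (b (l 16779464) (l 16779576)) (b (l 16779624) (l 16779792)))))))), by decide +kernel⟩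

def k66_A00pm_123_s3 : ∃ t, chk3 f_A00pm_123_s3 t 31 12 1 = true :=
  ⟨(l 4), by decide +kernel⟩

def k67_A00pm_123_s3 : ∃ t, chk3 f_A00pm_123_s3 t 62 26 1 = true :=
  ⟨(a (b (l 4) (a (c (c (b (l 4) (b (b (l 4) (b (l 4) (a (a (a (c (l 538565647) (l 538042383)) (l 4)) (l 4)) (l 4)))) (a (b (a (c (c (l 538693903) (l 538434575)) (l 538042895)) (l 4)) (c (a (c (l 538687759) (l 538428687)) (c (l 538700303) (l 538443535))) (a (l 538037263) (l 538055695)))) (l 4)))) (b (l 4) (a (a (b (b (l 4) (a (c (l 537514767) (l 536979727)) (l 4))) (b (c (l 537380879) (l 536746767)) (a (l 537237519) (l 537250063)))) (b (l 4) (b (l 4) (c (l 537398799) (l 536735759))))) (l 4)))) (b (l 4) (a (b (a (a (a (b (l 4) (c (l 536163087) (l 535060495))) (l 4)) (l 4)) (l 4)) (b (a (c (a (l 536162319) (l 536179215)) (a (l 535060751) (l 535081999))) (l 4)) (a (c (a (l 536157711) (l 536174607)) (a (l 535055887) (l 535077135))) (c (a (l 536191759) (l 536208911)) (a (l 535098639) (l 535120143)))))) (l 4)))) (l 4))) (l 4)), by decide +kernel⟩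

def k68_A00pm_123_s3 : ∃ t, chk3 f_A00pm_123_s3 t 248 54 2 = true :=
  ⟨(c (b (a (c (b (a (c (l 538679567) (l 538421007)) (b (l 538163983) (l 538293263))) (a (l 538273039) (b (l 538557455) (l 538553615)))) (b (a (l 538029839) (b (l 538050575) (l 538045967))) (a (l 538021647) (l 538040335)))) (b (a (c (b (c (l 538707983) (l 538453775)) (l 538307855)) (b (l 538069775) (l 538065167))) (l 4)) (a (b (c (l 538572047) (l 538061071)) (c (l 538568207) (l 538057743))) (b (c (c (l 538712591) (l 538461199)) (l 538081039)) (c (a (l 538579215) (l 538587151)) (l 538077455)))))) (a (b (c (b (l 538007823) (l 538005007)) (a (l 538014991) (l 538033935))) (a (l 537466127) (c (l 538544911) (l 538029583)))) (c (b (a (b (l 538565135) (l 538562575)) (c (l 538436367) (l 538453775))) (a (l 538560015) (l 538307343))) (b (a (l 538053391) (b (l 538074639) (l 538072079))) (a (l 538049295) (l 538069519)))))) (b (a (c (b (a (l 537368847) (b (l 537528335) (l 537523983))) (a (l 537495055) (l 537384207))) (b (a (l 536701711) (b (l 536999695)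 (l 536995599))) (a (l 536962319) (l 536721679)))) (a (b (b (a (l 537283855) (l 4)) (a (l 537279503) (l 537292815))) (b (a (l 537275663) (l 537288975)) (l 537279247))) (b (l 4) (b (a (l 537302287) (l 537315855)) (a (l 537298959) (l 537312527)))))) (a (b (a (l 537222927) (b (l 537249807) (l 537246991))) (a (l 537217807) (l 537243407))) (c (b (a (l 537401871) (l 537493519)) (a (l 537531407) (l 537287695))) (b (a (l 536743439) (l 536839695)) (a (l 537006607) (l 536767503))))))), by decide +kernel⟩

def k69_A00pm_123_s3 : ∃ t, chk3 f_A00pm_123_s3 t 248 54 3 = true :=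
  ⟨(b (a (b (a (a (c (l 536016911) (l 535048975)) (c (l 536033807) (l 535137039))) (c (b (a (l 536187151) (l 536204559)) (l 536057615)) (b (a (l 535093775) (l 535115279)) (a (l 535088911) (l 535110671))))) (a (c (b (l 536153359) (l 536149519)) (b (l 535052303) (l 535047695))) (c (a (l 535908367) (l 536059919)) (b (l 535095311) (l 535090447))))) (a (b (c (b (a (l 536221967) (l 4)) (a (l 536217615) (l 536235279))) (b (a (l 535137039) (l 4)) (a (l 535132431) (l 535154447)))) (c (b (l 536088591) (l 536084495)) (b (a (l 535127567) (l 535149583)) (l 535134223)))) (b (l 4) (c (b (a (l 536249103) (l 536267279)) (a (l 536245263) (l 536263439))) (b (a (l 535171855) (l 535194383)) (a (l 535167247) (l 535189775))))))) (b (c (a (a (l 535875599) (l 536111375)) (a (b (l 535946767) (l 536211471)) (a (l 535971599) (l 536123919)))) (a (a (b (l 535042831) (l 535037967)) (b (l 535085583) (l 535080975))) (a (b (l 535129359) (l 535124751)) (a (b (l 535162639) (l 535157775)) (b (l 535185167) (l 535180303)))))) (c (a (a (l 536137231)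 (l 535903247)) (a (l 536072719) (b (l 535975695) (l 536241167)))) (a (a (l 535031055) (b (l 535076367) (l 535071503))) (a (a (l 535106575) (l 535128591)) (a (l 535150863) (l 535173391))))))), by decide +kernel⟩

def k70_A00pm_123_s3 : ∃ t, chk3 f_A00pm_123_s3 t 249 54 2 = true :=
  ⟨(b (b (l 4) (b (l 4) (a (a (a (c (c (l 538594831) (l 538092559)) (l 537326095)) (l 4)) (l 4)) (l 4)))) (c (a (c (b (a (c (l 538451215) (l 538470927)) (b (l 538076175) (l 538342415))) (a (l 538323471) (b (l 538340623) (l 538607887)))) (b (a (b (l 538095375) (l 538092815)) (b (l 538116623) (l 538114319))) (a (l 538090511) (b (l 538112271) (l 538110991))))) (b (l 4) (c (a (b (l 538358031) (l 538357007)) (b (l 4) (l 538374927))) (a (b (l 538134543) (l 538133263)) (b (l 4) (l 538156047)))))) (a (c (b (a (l 537518863) (b (l 537344783) (l 537610511))) (a (l 537313295) (l 537473807))) (b (a (l 536869647) (b (l 536834575) (l 537100047))) (a (l 536797711) (b (l 537097743) (l 537095439))))) (b (l 4) (a (b (a (l 537375247) (l 4)) (a (l 537373455)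 (l 537388303))) (b (l 4) (a (l 537403151) (l 4)))))))), by decide +kernel⟩

def k71_A00pm_123_s3 : ∃ t, chk3 f_A00pm_123_s3 t 249 54 3 = true :=
  ⟨(c (b (a (b (l 4) (a (b (l 4) (a (l 536281615) (l 4))) (l 4))) (l 4)) (b (a (a (a (l 536142351) (l 536194319)) (a (b (l 536315407) (l 536312079)) (b (l 4) (l 536331023)))) (l 4)) (a (a (a (l 536001551) (l 536019983)) (a (l 536173071) (b (l 536327695) (l 536324879)))) (a (a (b (l 536347151) (l 536344079)) (b (l 4) (l 536363535))) (a (b (l 4) (l 536114959)) (l 4)))))) (b (a (b (l 4) (a (b (l 4) (a (l 535212559) (l 4))) (l 4))) (l 4)) (b (a (a (a (b (l 535207951) (l 535203087)) (b (l 535230991) (l 535226127))) (a (b (l 535254287) (l 535249423)) (b (l 4) (l 535272975)))) (l 4)) (a (a (a (b (l 535198479) (l 535193871)) (b (l 535221519) (l 535216911))) (a (b (l 535244815) (l 535240207)) (b (l 535268367) (l 535263759)))) (a (a (b (l 535292175) (l 535287567)) (b (l 4) (l 535177487))) (a (b (l 4) (a (l 535330063) (l 4))) (l 4))))))), by decide +kernel⟩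

def k72_A00pm_123_s3 : ∃ t, chk3 f_A00pm_123_s3 t 248 55 1 = true :=
  ⟨(c (b (b (a (c (c (l 538000399) (l 537482255)) (a (l 537213967) (l 537239823))) (c (a (l 537498127) (c (l 538305807) (l 538067471))) (a (l 537266447) (a (l 537286159) (l 537299983))))) (a (c (c (l 538000655) (l 538018575)) (a (l 537211663) (l 537237775))) (c (a (l 537766927) (l 537516815)) (a (l 537264399) (l 537291791))))) (a (c (c (b (l 538271759) (l 16778936)) (b (l 538020111) (l 16776768))) (b (a (l 537210895) (l 537237007)) (a (l 16778704) (l 537237775)))) (c (b (a (l 537769231) (l 537787919)) (a (l 538042383) (l 537792783))) (b (a (l 537263887) (l 537291279)) (a (l 537264911) (l 537292559)))))) (b (a (c (b (a (l 536131087) (l 536165647)) (a (l 536125711) (l 536160271))) (b (a (l 535021583) (l 535064591)) (a (l 535012367) (l 535055375)))) (c (b (a (l 535932431) (l 536102671)) (a (l 535927311) (l 535963407))) (b (a (a (l 535097103) (l 535119119)) (a (l 535141647) (l 535164175))) (a (b (l 535101199) (l 535096591)) (a (l 535132175) (l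 535154703)))))) (a (c (b (a (l 536121103) (l 536155919)) (a (l 16773928) (l 536152079))) (b (a (l 535002895) (l 535045903)) (a (l 534993423) (l 535036431)))) (c (b (a (l 536191247) (l 535959055)) (a (l 536187663) (l 535955471))) (b (a (b (l 535091983) (l 535087119)) (a (l 535122959) (l 535145487))) (a (l 535080463) (a (l 535113487) (l 535136015)))))))), by decide +kernel⟩

def k73_A00pm_123_s3 : ∃ t, chk3 f_A00pm_123_s3 t 249 55 2 = true :=
  ⟨(b (c (a (b (a (b (l 537535247) (l 537803279)) (c (l 538339343) (l 538110223))) (a (l 537401615) (c (l 538340623) (l 538110735)))) (b (c (a (l 538088463) (b (l 538374415) (l 538374927))) (a (b (l 538132495) (l 538132239)) (b (l 538155279) (l 538155279)))) (c (a (l 538358543) (l 538108431)) (a (l 538133263) (l 537887759))))) (a (b (a (b (l 537321999) (l 537320719)) (b (l 537350671) (l 537349391))) (a (b (l 537319951) (l 537319439)) (b (l 537348623) (l 537348111)))) (b (c (a (l 537498127) (a (l 537652495) (l 537398031))) (a (b (l 537125391) (l 537123855)) (b (l 536889359)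 (l 537156623)))) (a (b (l 537378063) (l 537377807)) (b (a (l 537400079) (l 537415439)) (l 537273871)))))) (a (a (c (b (l 537807119) (l 537812239)) (b (l 537319695) (l 537320975))) (c (c (b (l 538344207) (l 538350351)) (b (l 538113039) (l 538117391))) (b (b (l 537348111) (l 537348367)) (l 537349903)))) (c (b (c (a (l 538362383) (l 538649359)) (a (l 538135823) (l 538159119))) (c (a (l 538368783) (l 538656015)) (a (l 538140431) (l 538163983)))) (b (a (b (l 537377807) (l 537378063)) (b (l 537408015) (l 537408527))) (a (b (l 537378831) (l 537380111)) (b (l 537409551) (l 537410831))))))), by decide +kernel⟩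

def k74_A00pm_123_s3 : ∃ t, chk3 f_A00pm_123_s3 t 249 55 3 = true :=
  ⟨(c (b (a (a (b (a (l 536264207) (l 536282639)) (l 536134671)) (b (a (l 536033295) (l 536052239)) (a (l 536296719) (l 536047375)))) (a (b (a (l 536205839) (b (l 536360719) (l 536358159))) (a (l 536066575) (l 536086287))) (b (a (b (l 536380431) (l 536377871)) (b (l 536132111) (l 536397839))) (a (b (l 536375567) (l 536373263)) (b (l 536395535) (l 536393231)))))) (a (b (a (l 535996175) (b (l 536303119) (l 536301327))) (a (l 535992591) (l 536030735))) (b (a (b (l 536073487) (l 536071695)) (b (l 536113423) (l 536111375))) (a (a (l 536327439) (l 536078863)) (b (l 536109839) (l 536108303)))))) (b (a (b (a (a (l 535186959) (b (l 535212303) (l 535207695))) (a (b (l 535235599) (l 535230991)) (b (l 535259151) (l 535254543)))) (a (a (l 535177743) (l 535200783)) (a (b (l 535226383) (l 535221519)) (b (l 535249935) (l 535245327))))) (b (a (a (b (l 535282959) (l 535278351)) (b (l 535307279) (l 535302671))) (a (b (a (l 535325455) (l 535337743)) (l 535326991))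 (b (a (l 535350031) (l 535362575)) (a (l 535345423) (l 535357967))))) (a (a (b (l 535273743) (l 535269135)) (b (l 535298063) (l 535293199))) (a (b (l 535322383) (l 535317775)) (b (l 535078671) (l 535342607)))))) (a (b (a (a (l 535168271) (l 535191311)) (a (l 535214863) (b (l 535240719) (l 535235855)))) (a (b (l 535173135) (l 535168527)) (b (l 535219983) (l 535215119)))) (b (a (a (b (l 535264527) (l 535259919)) (b (l 535288591) (l 535283983))) (a (b (l 535313167) (l 535308559)) (b (l 535337999) (l 535333391)))) (a (b (a (l 535255311) (l 535279375)) (a (l 535250447) (l 535274767))) (b (a (l 535303951) (l 535328783)) (a (l 535299343) (l 535323919)))))))), by decide +kernel⟩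

def k75_A00pm_123_s3 : ∃ t, chk3 f_A00pm_123_s3 t 125 54 1 = true :=
  ⟨(l 4), by decide +kernel⟩

def k76_A00pm_123_s3 : ∃ t, chk3 f_A00pm_123_s3 t 250 55 2 = true :=
  ⟨(b (c (c (a (b (a (b (l 4) (l 538393359)) (l 4)) (a (l 538127119) (b (l 538413583) (l 538415375)))) (l 4)) (a (b (a (b (l 4) (l 538178831)) (l 4)) (a (b (l 538179087) (l 538180111)) (b (l 538203407) (l 538204431)))) (l 4))) (a (a (b (b (l 4) (a (l 537431567) (l 4))) (b (a (l 537430799) (l 537446415)) (a (l 537430543) (l 537446415)))) (b (l 4) (b (a (l 537462287) (l 4)) (a (l 537462287) (l 537478415))))) (l 4))) (a (c (b (a (c (l 538131727) (l 537914639)) (b (a (l 537904143) (l 537915151)) (l 537644559))) (a (b (l 537893903) (l 537897487)) (a (l 537911567) (l 537922831)))) (b (a (b (a (l 537430799) (l 537446415)) (l 537305615)) (b (a (l 537462543) (l 537478671)) (a (l 537463055) (l 537479183)))) (a (b (l 537440783) (l 537442063)) (a (l 537196559) (l 537246223))))) (a (c (b (c (c (l 538825743) (l 538321423)) (b (l 538231055) (l 538233359)))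 (c (l 538581263) (l 537701391))) (b (b (a (l 537494799) (l 4)) (a (l 537495567) (l 537512207))) (b (a (l 537496591) (l 537513231)) (a (l 537498127) (l 537514767))))) (b (l 4) (c (b (l 537693455) (l 537697551)) (b (a (l 537530127) (l 537547023)) (a (l 537531663) (l 537548559)))))))), by decide +kernel⟩

def k77_A00pm_123_s3 : ∃ t, chk3 f_A00pm_123_s3 t 250 55 6 = true :=
  ⟨(c (b (a (b (a (b (l 4) (a (l 536674319) (l 4))) (l 4)) (a (b (a (l 536672271) (l 536691727)) (a (l 536670735) (l 536689935))) (b (a (l 536711183) (l 4)) (a (l 536709647) (l 536729615))))) (l 4)) (a (b (a (b (l 536679439) (l 536678415)) (b (a (l 536708367) (l 536728079)) (a (l 536707087) (l 536727055)))) (a (b (l 536677391) (l 536676623)) (b (l 536716815) (l 536716303)))) (b (a (b (a (l 536748303) (l 4)) (a (l 536747279) (l 536767759))) (l 4)) (a (b (a (l 536746511) (l 536766735)) (a (l 536745743) (l 536766223))) (b (a (l 536787471) (l 536808463)) (a (l 536786959) (l 536807951))))))) (b (a (b (a (b (l 4) (a (l 536160527) (l 4))) (l 4)) (a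 (b (a (l 536157455) (l 536179215)) (a (l 536154895) (l 536176655))) (b (a (l 536201487) (l 4)) (a (l 536198671) (l 536220943))))) (l 4)) (a (b (a (b (a (l 536152335) (l 536174095)) (l 536161295)) (b (a (l 536196111) (l 536218383)) (a (l 536193807) (l 536216079)))) (a (b (l 536158991) (l 536156687)) (b (a (l 536191503) (l 536213775)) (a (l 536189199) (l 536211727))))) (b (a (b (a (l 536241167) (l 4)) (a (l 536238863) (l 536261647))) (l 4)) (a (b (a (l 536236559) (l 536259599)) (a (l 536234255) (l 536257295))) (b (a (l 536282895) (l 536306447)) (a (l 536280847) (l 536304399)))))))), by decide +kernel⟩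

def k78_A00pm_123_s3 : ∃ t, chk3 f_A00pm_123_s3 t 250 55 7 = true :=
  ⟨(b (a (a (b (a (b (l 4) (a (l 535370511) (l 535383055))) (l 4)) (a (b (c (l 535635727) (l 535107087)) (l 534897935)) (b (c (l 535660047) (l 535133455)) (a (l 535386383) (l 535399183))))) (b (l 4) (a (a (b (l 535148303) (l 535412239)) (b (l 4) (l 535156495))) (b (l 4) (b (l 4) (l 534973711)))))) (l 4)) (a (b (a (a (b (l 535363087) (l 535358479)) (b (l 534851599) (l 534846991))) (a (b (a (l 535407631) (l 535420431)) (l 534872591)) (b (b (l 534971407) (l 534902031)) (a (l 535428879) (l 535441935))))) (a (b (a (l 535353871) (l 535379215)) (a (l 535349007) (l 535374607))) (b (a (l 534867983) (l 534894095)) (a (l 535400207) (l 534889487))))) (b (a (a (b (a (l 534990095) (l 535003407)) (b (l 534993423) (l 534924047))) (b (l 4) (a (l 534945039) (l 535025679)))) (l 4)) (a (a (b (l 534987535) (l 534915855)) (b (b (l 534948367) (l 534946063)) (a (l 535472655) (l 535486223)))) (a (b (a (l 534967567) (l 534981135)) (a (l 534962959) (l 534976527))) (b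 (a (l 535062031) (l 4)) (a (l 534990351) (l 535004175)))))))), by decide +kernel⟩

def k79_A00pm_123_s3 : ∃ t, chk3 f_A00pm_123_s3 t 251 55 1 = true :=
  ⟨(c (a (b (l 4) (b (l 4) (a (a (a (c (l 537977615) (l 537292047)) (l 4)) (l 4)) (l 4)))) (l 4)) (a (a (a (a (b (l 4) (b (l 4) (b (l 4) (c (l 536573967) (l 535085327))))) (l 4)) (l 4)) (l 4)) (l 4))), by decide +kernel⟩

def k80_A00pm_123_s3 : ∃ t, chk3 f_A00pm_123_s3 t 63 13 1 = true :=
  ⟨(l 4), by decide +kernel⟩

def k81_A00pm_123_s3 : ∃ t, chk3 f_A00pm_123_s3 t 248 56 1 = true :=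
  ⟨(c (b (a (c (b (c (l 16785040) (l 16782600)) (l 16779312)) (b (c (l 16774880) (l 16777608)) (l 536964111))) (c (b (a (l 16777864) (l 538068239)) (c (l 16779464) (l 16777216))) (b (a (l 16773584) (l 537295119)) (c (l 16780168) (l 16772608))))) (a (c (b (l 16774848) (l 16775744)) (c (l 16781056) (l 16767360))) (c (b (l 16779128) (l 16774784)) (b (c (l 16780560) (l 16777960)) (l 16774368))))) (b (b (a (a (c (l 16773544) (l 16768048)) (c (l 16773992) (l 535027215))) (a (c (l 16774424) (l 535070991)) (a (l 535393295) (l 535413775)))) (a (a (l 535279119) (c (l 16773632) (l 16768048))) (a (c (l 16774080) (l 535061775)) (a (l 535655951) (l 535408143))))) (a (b (c (l 16773056) (a (l 16766136) (l 16767128))) (c (l 16772792) (l 16760512))) (a (b (c (l 16773768) (l 16768088)) (c (l 16773528) (l 16767248))) (a (b (l 535654159) (l 535663119)) (b (l 535406351) (l 535415823))))))), by decide +kernel⟩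

def k82_A00pm_123_s3 : ∃ t, chk3 f_A00pm_123_s3 t 249 56 1 = true :=
  ⟨(c (b (a (c (b (c (l 538620687) (l 537577999)) (a (l 16777592) (l 538185231))) (b (a (l 537323791) (l 537352975)) (a (l 537328143) (l 537357583)))) (c (b (c (a (l 538646031) (l 538665231)) (a (l 538147087) (l 538170895))) (a (c (l 538657295) (l 538156047)) (l 537624335))) (b (a (l 537114383) (b (l 537412367) (l 537414415))) (a (l 537387535) (l 537150223))))) (a (c (b (c (l 16779144) (l 16777080)) (c (l 16785424) (l 16777856))) (b (a (l 16779200) (l 537370127)) (c (l 16780728) (l 16773080)))) (a (b (c (l 538160911) (l 537401103)) (c (l 16778232) (l 16774176))) (c (b (l 538049807) (l 16777688)) (b (l 537164815) (l 537205007)))))) (a (c (b (b (a (l 535989775) (l 536027919)) (a (l 535987983) (l 536026127))) (b (a (l 16774632) (l 536029967)) (a (l 16774432) (l 16774840)))) (b (b (a (b (l 535163663) (l 535159055)) (b (l 535210511) (l 535205903))) (a (c (l 16771800) (l 16769696)) (b (l 535201295) (l 535196431)))) (b (a (c (l 16771104) (l 16768720))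 (c (l 16771856) (l 16769704))) (a (c (l 16770472) (l 16767784)) (c (l 16771248) (l 16768800)))))) (b (c (b (a (l 536067087) (b (l 536107023) (l 536374543))) (a (l 536065295) (b (l 536373519) (l 536373007)))) (b (a (b (a (l 535245839) (l 535270159)) (l 535253775)) (b (a (l 535294479) (l 535319311)) (a (l 535289871) (l 535314703)))) (a (b (l 535248911) (l 535244303)) (b (a (l 535285263) (l 535309839)) (a (l 535280399) (l 535305231)))))) (c (b (a (l 536069647) (b (l 536375311) (l 536382991))) (a (l 536359695) (l 536134671))) (b (b (a (l 535241231) (c (l 16773400) (l 535014159))) (a (l 535241231) (c (l 16773104) (l 16771360)))) (a (c (l 16771984) (l 16769784)) (c (l 16770072) (c (l 16771232) (l 16770240))))))))), by decide +kernel⟩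

def k83_A00pm_123_s3 : ∃ t, chk3 f_A00pm_123_s3 t 124 57 1 = true :=
  ⟨(a (b (c (a (c (l 16777328) (l 16769824)) (c (l 16776376) (b (l 16780064) (l 16780600)))) (a (c (l 16767312) (b (l 16764928) (l 16764152))) (b (c (l 16773616) (a (l 16766464) (l 16767448))) (c (l 16773536) (l 16760992))))) (a (c (b (l 16764464) (l 16765488)) (c (l 16772480) (l 16763088))) (c (c (l 16768360) (l 16771096)) (c (l 16773544) (b (l 16765552) (l 16764904)))))) (c (b (a (c (b (l 16780048) (l 16775936)) (b (l 16774752) (l 16770072))) (b (c (c (l 16780048) (l 16777904)) (c (l 16780960) (l 16773496))) (c (l 16780112) (b (l 16775032) (l 16770088))))) (a (c (l 16777816) (l 16771056)) (b (c (l 16776056) (l 16775800)) (c (l 16787776) (l 16771216))))) (c (b (a (b (a (l 16774304) (l 16774736)) (l 16769232)) (b (a (l 16775136) (l 536439055)) (a (l 16775120) (l 16775512)))) (a (b (l 16774496) (l 16774536)) (b (a (l 16775144) (l 16775544)) (l 16775392)))) (b (a (b (a (l 16768400) (c (l 16770696) (l 16767944))) (a (l 16767712) (l 16768664)))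 (b (a (c (l 16771464) (l 16768960)) (c (l 16772200) (l 16769944))) (a (l 16764344) (c (l 16771744) (l 16769184))))) (a (b (l 16767560) (l 16756464)) (b (a (l 16768984) (l 16764640)) (a (l 16768400) (l 16769312)))))))), by decide +kernel⟩

def k84_A00pm_123_s3 : ∃ t, chk3 f_A00pm_123_s3 t 124 29 1 = true :=
  ⟨(b (a (b (c (c (a (b (l 16792472) (l 16782288)) (b (l 16791352) (l 16782248))) (a (b (l 16772264) (b (l 16772480) (l 16783112))) (b (l 16782656) (b (l 16783240) (l 16773064))))) (a (b (c (l 16772656) (b (l 16762216) (l 16751536))) (b (c (l 16767368) (a (l 16761472) (l 16762296))) (l 16767632))) (a (b (l 16768592) (b (l 16768392) (c (l 16773480) (l 16763144)))) (c (l 16774040) (b (l 16764808) (l 16764280)))))) (b (c (a (l 16766944) (c (l 16771736) (l 16772992))) (a (l 16768192) (a (l 16768840) (c (l 16774080) (l 16753680))))) (c (a (l 16766712) (l 16767088)) (c (l 16774112) (l 16764456))))) (c (b (a (c (l 16790904) (l 16761960)) (c (l 16779152) (l 16772216))) (a (b (c (b (l 16792600) (l 16782224)) (b (l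 16773408) (l 16773432))) (a (l 16767304) (l 16767360))) (b (l 16777128) (c (b (l 16781320) (l 16781768)) (b (l 16773712) (l 16773616)))))) (a (b (c (l 16774648) (b (l 16766352) (l 16765752))) (b (b (c (l 16774832) (l 16760184)) (c (a (l 16774552) (l 16775024)) (a (l 16764864) (l 16755152)))) (c (l 16775016) (l 16765728)))) (b (c (b (l 16775448) (l 16775504)) (b (l 16768288) (l 16757224))) (b (c (l 16775568) (l 16767136)) (b (c (a (l 16775440) (l 16775832)) (a (l 16761120) (l 16767216))) (a (l 16771136) (c (l 16775824) (l 16761832))))))))) (c (b (a (a (l 16766344) (l 16766672)) (c (l 16781288) (l 16773528))) (c (a (l 16790456) (l 16790616)) (a (l 16783216) (l 16783744)))) (a (c (c (l 16766872) (l 16762744)) (b (l 16755384) (l 16746712))) (b (c (l 16775896) (a (l 16767056) (l 16767800))) (c (l 16766056) (l 16758520)))))), by decide +kernel⟩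

def k85_A00pm_123_s3 : ∃ t, chk3 f_A00pm_123_s3 t 250 56 2 = true :=
  ⟨(b (a (c (b (a (l 537635855) (c (l 538704911) (l 538220303))) (a (l 537646607) (c (l 538717199) (l 538230031)))) (b (a (b (l 537443855) (l 537445903)) (b (l 537476111) (l 537478159))) (a (b (l 537448463) (l 537451279)) (b (l 537480719) (l 537483791))))) (b (c (a (c (l 538725647) (l 537977359)) (b (l 537702159) (l 537975567))) (a (b (l 537240591) (l 537242895)) (b (a (l 537533455) (l 537550607)) (l 537142543)))) (c (a (c (l 538738191) (l 537987343)) (b (l 537981455) (l 537987855))) (a (b (l 537513999) (l 537517327)) (b (l 537279503) (l 537283087)))))) (a (a (c (b (c (l 538723599) (l 538227471)) (l 538268431)) (b (c (l 16776840) (l 536939791)) (l 536973839))) (b (c (l 537428239) (b (l 537492239) (l 537510415))) (c (l 538031887) (l 536476687)))) (b (c (a (l 537454863) (c (l 538800143) (l 537780495))) (a (b (l 537526799) (l 537547791)) (b (l 537294351) (l 537319695)))) (c (a (l 537799695) (l 537838351)) (a (b (l 537576463) (l 537610511)) (b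 (l 537621775) (l 537656847))))))), by decide +kernel⟩

def k86_A00pm_123_s3 : ∃ t, chk3 f_A00pm_123_s3 t 250 56 6 = true :=
  ⟨(b (a (b (a (b (l 536147983) (l 536146959)) (b (l 536122895) (l 536188943))) (a (b (l 536146191) (l 536145679)) (b (l 536188175) (l 536187663)))) (b (a (b (a (l 536489999) (l 536511759)) (a (l 536488975) (l 536510735))) (b (a (l 536533775) (l 536287759)) (a (l 536532751) (l 536555279)))) (a (b (l 536063503) (l 536230927)) (b (a (l 536531983) (l 536554511)) (a (l 536531727) (l 536553999)))))) (a (b (a (b (l 536148239) (l 536157199)) (b (l 536190991) (l 536201487))) (a (a (l 536435727) (l 536190479)) (b (l 536217359) (l 536236815)))) (b (a (b (l 536235023) (l 536247823)) (b (a (l 536536847) (l 536560143)) (a (l 536551951) (l 536577295)))) (a (b (l 536266255) (l 536288527)) (b (l 536318991) (l 536610575)))))), by decide +kernel⟩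

def k87_A00pm_123_s3 : ∃ t, chk3 f_A00pm_123_s3 t 250 56 7 = true :=
  ⟨(b (a (b (a (b (a (l 535344399) (l 535369743)) (a (l 535339791) (l 535365135))) (b (a (l 535395599) (l 534884879)) (a (l 535390991) (l 535417103)))) (a (b (a (l 535334927) (l 535360527)) (a (l 535330319) (l 535355663))) (b (a (l 535386127) (l 535412239)) (a (l 535381519) (l 535407631))))) (b (a (b (a (l 534911247) (l 534938127)) (a (l 534906639) (l 534933519))) (a (b (b (l 534966287) (l 534963983)) (l 534960655)) (b (a (l 534985743) (l 534999567)) (b (l 534989327) (l 534987023))))) (a (b (a (l 535438863) (l 534928655)) (a (l 535433999) (l 534924047))) (b (a (l 534956047) (l 534983439)) (a (l 534951183) (l 534978831)))))) (a (b (a (b (a (l 535327503) (l 535353103)) (a (l 535328783) (l 535354895))) (b (a (l 535379215) (l 535405583)) (a (l 535381263) (l 535408143)))) (a (b (c (l 16773496) (l 535068175)) (c (l 16773248) (l 16771456))) (b (a (l 535386639) (l 535414287)) (c (l 16771272) (l 535129615))))) (b (a (b (a (l 535432207) (l 534922511))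 (a (l 535435791) (l 535463695))) (b (a (c (l 535752719) (l 535219471)) (c (l 535779599) (l 535248911))) (a (l 534955535) (c (l 535789071) (l 535252751))))) (a (b (a (l 535442703) (l 535471631)) (a (l 535452175) (l 535481871))) (b (a (l 535501839) (l 534995471)) (a (l 535512335) (l 535542543))))))), by decide +kernel⟩

def k88_A00pm_123_s3 : ∃ t, chk3 f_A00pm_123_s3 t 251 56 2 = true :=
  ⟨(b (a (b (b (a (c (l 537725967) (a (l 537568015) (l 537585423))) (l 4)) (c (a (l 537731343) (l 537755663)) (a (a (l 537570319) (l 537587983)) (a (l 537605647) (l 4))))) (c (a (b (l 538005519) (l 537744911)) (b (l 537761807) (l 537492751))) (a (b (l 537046031) (l 537050127)) (b (a (l 537608463) (l 537626639)) (b (l 537620751) (l 537084943)))))) (a (b (l 4) (b (l 4) (c (l 537521423) (a (l 537379599) (l 537392399))))) (l 4))) (a (b (a (c (a (l 537778447) (l 537796111)) (b (a (l 537590287) (l 537610767)) (l 537096975))) (c (b (l 537541135) (l 538117391)) (b (a (l 537634319) (l 537660175)) (l 537145871)))) (c (a (l 537876495) (l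 537639951)) (a (b (l 537400335) (l 537701647)) (b (l 537175567) (l 537474319))))) (a (c (b (b (l 538096399) (l 538404879)) (l 537659151)) (b (b (l 536879119) (l 537177871)) (b (l 537207311) (l 537236751)))) (c (b (b (l 538106127) (l 538414863)) (l 537669135)) (b (b (l 536903951) (l 537202703)) (b (l 537232399) (l 537261327))))))), by decide +kernel⟩

def k89_A00pm_123_s3 : ∃ t, chk3 f_A00pm_123_s3 t 251 112 3 = true :=
  ⟨(c (a (b (a (b (a (l 536310287) (l 536333327)) (a (l 536309519) (l 536332559))) (b (l 4) (a (l 536355855) (l 4)))) (a (b (a (l 536577295) (l 536331791)) (a (l 536576783) (l 536332047))) (b (a (l 536355087) (l 536378895)) (a (l 536080655) (b (l 536646927) (l 536647439)))))) (b (l 4) (a (b (l 4) (a (b (l 536398863) (l 536405775)) (b (l 4) (l 536694543)))) (l 4)))) (a (b (a (a (b (a (l 535013647) (l 535027727)) (a (l 535009039) (l 535023119))) (b (b (l 4) (a (l 535577615) (l 535591951))) (a (l 535037455) (l 535051791)))) (a (b (l 4) (a (b (l 535604239) (l 535601679)) (b (l 4) (l 535616271))))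 (l 4))) (a (b (a (b (l 535012623) (l 535010319)) (a (l 535032591) (l 535046927))) (a (a (l 535536655) (l 535282191)) (b (l 535036431) (l 535034383)))) (b (a (a (l 535061519) (l 535076111)) (a (b (l 535628815) (l 535626255)) (a (l 535101711) (l 535109135)))) (a (b (l 535065359) (b (l 535063567) (l 535063311))) (b (c (l 535888399) (l 535372559)) (a (l 535353359) (l 535100431))))))) (b (l 4) (a (b (l 4) (b (a (a (l 535653647) (l 4)) (l 4)) (a (a (l 535117071) (l 535131407)) (a (l 535144975) (l 4))))) (l 4))))), by decide +kernel⟩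

def k90_A00pm_123_s3 : ∃ t, chk3 f_A00pm_123_s3 t 251 113 3 = true :=
  ⟨(c (a (b (a (b (a (l 536584207) (l 536341007)) (a (l 536604175) (l 536631823))) (b (a (l 536368399) (l 536398095)) (a (l 536659471) (l 536686095)))) (a (b (l 535970831) (l 536395023)) (b (a (l 536680975) (l 536706063)) (a (l 536700943) (l 536725007))))) (b (a (a (b (l 536420879) (l 536440591)) (b (l 536441359) (l 536729615))) (b (a (l 536461327) (l 4)) (a (l 536481039) (l 536500751)))) (a (b (a (l 536728591) (l 536748559)) (a (l 536747023) (l 536766991))) (b (a (l 536768527) (l 536788239)) (a (l 536786959) (l 536806671)))))) (a (b (a (b (a (c (l 535807247) (l 535278863)) (b (l 535035407) (l 535038991))) (a (c (l 535818767) (l 535284495)) (c (l 535849231) (l 535317007)))) (b (a (b (l 535065615) (l 535070735)) (a (l 535092239) (l 535109135))) (a (a (l 535607823) (l 535623695)) (a (l 535102479) (l 535117583))))) (a (b (a (l 535026703) (c (l 535862799) (l 535324175))) (a (c (l 535845391) (l 535298319)) (c (l 535874831) (l 535329807)))) (b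 (a (c (l 535892495) (l 535356175)) (a (l 535648015) (l 535662863))) (a (c (l 535903759) (l 535361295)) (c (l 535932175) (l 535392271)))))) (b (a (b (a (a (l 535123727) (l 535138063)) (a (l 535151887) (a (l 535162127) (l 535169039)))) (a (a (l 535132431) (l 535146511)) (a (l 535160079) (l 535173903)))) (b (a (a (a (l 535175951) (l 4)) (l 4)) (l 4)) (b (a (c (l 535986703) (l 535470863)) (l 4)) (a (l 535196943) (a (l 535754511) (l 4)))))) (a (b (a (a (l 535677199) (l 535422735)) (a (l 535168015) (l 535181583))) (a (a (l 535684367) (l 535698191)) (a (l 535712015) (l 535725583)))) (b (a (a (l 535195407) (l 535209487)) (a (l 535223311) (l 535237391))) (a (a (l 535202575) (l 535216399)) (a (l 535230479) (l 535244303)))))))), by decide +kernel⟩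

def k91_A00pm_123_s3 : ∃ t, chk3 f_A00pm_123_s3 t 250 57 1 = true :=
  ⟨(c (b (a (b (a (c (l 16778152) (l 537304079)) (c (l 16777560) (l 537080335))) (c (b (l 16778664) (l 16779232)) (a (l 16775016) (l 16774864)))) (b (a (a (l 536561679) (l 536582159)) (a (l 536602127) (l 536621839))) (a (c (l 16778000) (l 537188367)) (b (l 536666127) (l 536700175))))) (a (b (c (l 16780080) (b (l 16775384) (l 16775680))) (a (l 16773688) (l 16773256))) (b (a (c (l 16773840) (l 16775232)) (c (l 16778368) (l 16774984))) (c (l 16779816) (c (l 16776736) (l 16779872)))))) (b (a (b (a (c (l 535951119) (c (l 16772904) (c (l 16771392) (l 16770376)))) (a (b (l 535426319) (l 535442703)) (b (l 535185423) (l 535469839)))) (a (c (l 16773240) (c (l 16772464) (l 16770152))) (c (l 536044815) (c (l 16773144) (l 16768456))))) (b (a (b (c (l 536311311) (a (l 535462159) (l 535491855))) (a (l 535228943) (l 535256335))) (c (b (l 536632079) (l 536652303)) (b (a (l 535521551) (l 535551503)) (a (l 535529999) (l 535559439))))) (a (a (b (l 535511567)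 (l 535524879)) (b (l 535270159) (l 535282959))) (a (b (l 535162895) (l 535309583)) (b (c (l 16776736) (l 535566351)) (l 535067663)))))) (c (a (b (a (l 16775896) (l 16776208)) (a (l 16775936) (l 16776248))) (b (a (b (l 16776472) (l 16776488)) (b (l 16776704) (l 16776720))) (a (l 16776528) (l 16771520)))) (a (b (a (b (l 16770888) (l 16770600)) (a (l 16766120) (l 16766520))) (a (l 16764944) (b (l 16771152) (l 16770888)))) (b (a (c (l 16773392) (l 16768664)) (c (l 16771376) (c (l 16772616) (l 16771680)))) (a (b (l 16766704) (l 16771680)) (c (l 16773632) (l 16771496)))))))), by decide +kernel⟩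

def k92_A00pm_123_s3 : ∃ t, chk3 f_A00pm_123_s3 t 251 57 2 = true :=
  ⟨(b (a (b (a (a (l 536640527) (l 536658447)) (a (l 536674831) (l 536689423))) (a (b (l 536701199) (l 536733711)) (a (l 536739855) (l 536752911)))) (a (b (a (l 536700687) (l 536709903)) (a (l 536763919) (l 536772879))) (b (a (l 536718351) (l 536726031)) (a (l 536781327) (l 536789263))))) (b (a (a (c (l 16777616) (l 537053199)) (b (l 536793359) (l 536822799))) (a (b (l 536814607) (l 536843791)) (b (l 536831759) (l 536860943)))) (a (a (c (l 16778664) (l 16775256)) (c (l 16777856) (l 536865807))) (a (a (l 536880399) (l 536889359)) (b (l 536889359) (l 536916751)))))), by decide +kernel⟩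

def k93_A00pm_123_s3 : ∃ t, chk3 f_A00pm_123_s3 t 251 114 3 = true :=
  ⟨(a (c (b (a (b (l 536415247) (l 536702479)) (b (l 536195855) (l 536213519))) (a (b (l 536720399) (l 536737295)) (b (l 536498703) (l 536783119)))) (b (a (b (a (l 535581455) (c (l 535885839) (l 535334671))) (a (l 535588879) (l 535618319))) (b (a (c (l 535913999) (l 535365647)) (c (l 535941903) (l 535396111))) (a (c (l 535923471) (l 535369231)) (c (l 535950863) (l 535399439))))) (a (b (a (l 535595535) (l 535624463)) (a (l 535601167) (l 535629839))) (b (a (l 535653135) (c (l 535959055) (l 535401999))) (a (l 535658255) (l 535686415)))))) (c (b (a (a (l 535968271) (l 535854095)) (b (a (l 536804623) (l 536824335)) (l 535758863))) (a (b (l 536272399) (l 536556303)) (b (l 536043791) (l 536327695)))) (b (a (b (a (c (l 535968271) (l 535425807)) (c (l 535993871) (l 535455247))) (a (c (l 535976975) (l 535428879)) (c (l 536002575) (l 535458063)))) (b (a (a (l 535746063) (l 535759887)) (a (l 535773711) (l 535250959))) (a (c (l 536028175) (l 535487503))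 (a (l 535779599) (l 535793423))))) (a (b (a (c (l 535985167) (l 535431183)) (c (l 536010511) (l 535460367))) (a (c (l 16775688) (l 535432975)) (c (l 536017935) (l 535462159)))) (b (a (c (l 536036111) (l 535489807)) (c (l 536061967) (l 535519759))) (a (c (l 536043535) (l 535491599)) (c (l 536069391) (l 535521295)))))))), by decide +kernel⟩

def k94_A00pm_123_s3 : ∃ t, chk3 f_A00pm_123_s3 t 251 115 3 = true :=
  ⟨(a (b (b (a (a (l 535104527) (l 534861839)) (c (l 536798479) (a (l 535662607) (l 535690511)))) (a (a (l 535114255) (l 535139855)) (a (l 534896399) (l 534920975)))) (a (a (b (l 535391759) (l 535399951)) (b (l 535148559) (l 535156495))) (a (b (l 535173391) (l 535181071)) (b (l 534929167) (l 535205135))))) (c (b (a (b (l 536571407) (l 536854031)) (b (l 536342799) (l 536356879))) (a (b (l 536867599) (l 536880399)) (b (l 536638735) (l 536651535)))) (b (a (b (a (l 535717903) (c (l 16775744) (l 535463183))) (a (l 535721231) (c (l 16775576) (l 535463439)))) (b (a (c (l 536050191) (l 535492367)) (c (l 536076047)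 (l 535522063))) (a (c (l 16775800) (l 535492623)) (c (l 536081935) (l 535522319))))) (a (a (b (l 535723791) (l 535725583)) (b (l 535750927) (l 535752719))) (b (a (c (l 16775640) (l 16774536)) (c (l 16775856) (l 535521807))) (a (l 535779855) (c (l 16775704) (l 16774600)))))))), by decide +kernel⟩

def k95_A00pm_123_s3 : ∃ t, chk3 f_A00pm_123_s3 t 250 58 1 = true :=
  ⟨(c (b (a (c (l 16777760) (c (l 16773352) (l 16780824))) (b (c (l 16775680) (l 16776280)) (c (l 16776368) (l 16771640)))) (a (b (l 16776184) (c (l 16779208) (l 16773528))) (c (l 16777104) (l 16772560)))) (b (a (b (c (l 16770904) (a (l 16769632) (l 16770488))) (c (l 16776208) (a (l 16769088) (l 16769952)))) (b (c (a (l 16776576) (l 16776816)) (a (l 16766056) (b (l 16772192) (l 16771936)))) (c (a (l 16776632) (l 16776872)) (a (l 16770784) (l 16766328))))) (a (a (b (l 16761864) (c (l 16776248) (l 16757584))) (c (l 16776456) (l 16769160))) (c (c (l 16767944) (l 16770032)) (b (a (l 16770264) (l 16771072)) (l 16770160)))))), by decide +kernel⟩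

def k96_A00pm_123_s3 : ∃ t, chk3 f_A00pm_123_s3 t 251 58 1 = true :=
  ⟨(b (a (c (c (a (l 16779864) (l 16778920)) (b (c (l 16776584) (l 16774720)) (l 16776232))) (c (b (a (l 16777016) (b (l 16777152) (l 16777184))) (a (l 16777080) (l 16777240))) (b (a (a (l 16767376) (l 16767728)) (c (l 16774416) (c (l 16773008) (l 16772056)))) (a (b (l 16772432) (l 16772192)) (b (l 16767888) (l 16767656)))))) (c (b (a (c (l 16777712) (l 16775096)) (a (l 537219599) (l 537227791))) (a (c (l 16783568) (l 16775664)) (c (l 16777448) (l 16775240)))) (a (b (a (b (l 535235599) (l 535241487)) (b (l 534990607) (l 535264783))) (c (l 16772120) (c (l 16774616) (l 16770112)))) (b (a (b (l 535013903) (l 535019791)) (b (l 534769167) (l 535043343))) (a (b (l 535024911) (l 535297551)) (b (l 535048207) (l 535052559))))))) (a (c (c (b (l 16774992) (l 16775488)) (c (l 16783600) (l 16775872))) (a (c (l 16771944) (b (l 16766592) (l 16771352))) (b (c (l 16777312) (l 16767320)) (c (l 16777384) (l 16766856))))) (a (c (c (l 16779136) (l 16776528)) (b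 (c (l 16777440) (b (l 16768104) (l 16773128))) (c (l 16777520) (l 16767560)))) (c (c (l 16778280) (c (l 16782248) (l 16775168))) (b (c (l 16772296) (c (l 16774808) (l 16770328))) (c (l 16777624) (b (l 16768328) (l 16773360)))))))), by decide +kernel⟩

def k97_A00pm_123_s3 : ∃ t, chk3 f_A00pm_123_s3 t 250 59 1 = true :=
  ⟨(c (b (a (b (a (c (l 16780992) (l 16773672)) (b (l 16777544) (l 16777488))) (l 16777344)) (a (b (b (l 16766424) (l 16777376)) (c (l 16779560) (l 16773640))) (b (l 16776528) (b (c (l 16777624) (l 16773728)) (l 16777032))))) (c (l 16779888) (l 16773480))) (c (b (a (b (b (a (l 16776176) (l 16776592)) (a (l 16776376) (l 16776504))) (l 16776688)) (b (a (b (l 16776784) (l 16776896)) (l 16777056)) (b (a (l 16776808) (l 16771912)) (l 16776976)))) (a (l 16777088) (l 16777384))) (b (a (b (b (a (l 16762520) (l 16758080)) (a (l 16768136) (l 16763200))) (l 16768856)) (a (b (b (l 16769344) (b (l 16769160) (l 16758616))) (l 16764000)) (b (l 16770056) (b (b (l 16769784) (l 16764456)) (l 16769744))))) (a (l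 16769920) (l 16760000))))), by decide +kernel⟩

def k98_A00pm_123_s3 : ∃ t, chk3 f_A00pm_123_s3 t 251 59 1 = true :=
  ⟨(b (c (a (a (b (l 16775896) (b (l 16776512) (c (l 16776952) (l 16773624)))) (b (l 16775240) (l 16776040))) (b (c (l 16779448) (l 16777144)) (a (l 16775336) (l 16774608)))) (a (b (c (l 16777360) (b (l 16771376) (l 16771128))) (a (b (l 16763448) (b (c (l 16777384) (l 16770368)) (c (l 16777336) (a (l 16770088) (l 16770432))))) (c (l 16777504) (l 16771160)))) (b (a (c (l 16777592) (l 16767120)) (c (l 16777704) (l 16767808))) (c (l 16772472) (c (l 16773656) (l 16765624)))))) (c (a (b (a (l 16776640) (b (a (l 16776648) (l 16776504)) (l 16776448))) (l 16776256)) (b (a (b (l 16775920) (a (l 16776304) (l 16776160))) (l 16775376)) (a (l 16775984) (b (a (b (l 16776008) (l 16775936)) (l 16775784)) (l 16775704))))) (b (a (c (a (l 16777376) (b (b (l 16777600) (l 16772288)) (l 16777552))) (a (l 16765256) (b (b (l 16765688) (a (l 16770672) (l 16770984))) (l 16770936)))) (a (c (b (l 16777696) (a (l 16772424)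 (l 16777816))) (b (l 16771560) (b (l 16766224) (a (l 16771224) (l 16766264))))) (c (l 16777832) (l 16772176)))) (a (c (l 16777696) (l 16771304)) (a (c (l 16777760) (l 16766368)) (b (a (b (c (l 16777864) (l 16766520)) (l 16769568)) (b (l 16775008) (c (l 16777928) (l 16766776)))) (c (l 16777864) (l 16771976)))))))), by decide +kernel⟩

def k99_A00pm_123_s3 : ∃ t, chk3 f_A00pm_123_s3 t 62 30 1 = true :=
  ⟨(a (b (c (a (b (l 16770368) (l 16764088)) (b (a (l 16765336) (l 16765384)) (a (l 16785208) (l 16764256)))) (c (a (a (l 16755408) (l 16766272)) (c (l 16768240) (l 16765272))) (a (b (l 16748400) (l 16770872)) (b (l 16759976) (l 16761264))))) (c (a (c (l 16763912) (l 16770560)) (b (l 16773352) (a (l 16782192) (l 16761232)))) (a (b (a (l 16753456) (l 16753760)) (b (l 16754000) (l 16754208))) (b (a (l 16764528) (l 16764784)) (a (l 16764920) (l 16765104)))))) (b (a (c (c (c (l 16779048) (l 16781792)) (b (l 16772976) (l 16782744))) (b (c (l 16777600) (a (l 16771216) (l 16771688))) (c (l 16767288) (a (l 16772352) (l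 16772736))))) (c (b (c (a (l 16788616) (l 16777736)) (a (l 16772904) (l 16783256))) (c (l 16776432) (a (l 16782664) (l 16782536)))) (b (a (c (l 16777896) (l 16761648)) (c (l 16778040) (b (l 16772304) (l 16772784)))) (a (c (l 16778000) (l 16762608)) (c (l 16778096) (l 16762952)))))) (a (c (b (b (l 16773616) (l 16772864)) (a (l 16761184) (l 16782088))) (b (c (l 16767232) (a (l 16773296) (l 16773592))) (c (l 16766976) (a (l 16774056) (l 16774272))))) (c (b (c (l 16774696) (l 16771160)) (a (l 16771504) (l 16771376))) (b (a (b (l 16765336) (l 16765456)) (b (l 16765520) (l 16765616))) (a (a (l 16765536) (l 16765608)) (c (l 16777672) (l 16764216)))))))), by decide +kernel⟩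

def k100_A00pm_123_s3 : ∃ t, chk3 f_A00pm_123_s3 t 62 31 1 = true :=
  ⟨(b (a (b (a (c (a (l 16780720) (l 16759672)) (b (l 16764912) (l 16754600))) (c (c (l 16771256) (l 16768960)) (b (l 16765136) (a (l 16775680) (l 16775792))))) (a (c (l 16781104) (l 16776224)) (c (l 16780592) (l 16776368)))) (b (b (a (c (l 16770320) (a (l 16775824) (l 16775952))) (c (a (l 16780744) (l 16780688)) (a (l 16776088) (l 16765736)))) (a (c (l 16774752) (a (l 16775904) (l 16775992))) (c (a (l 16779896) (l 16779880)) (a (l 16776080) (l 16765728))))) (a (a (l 16767840) (b (b (l 16767312) (l 16778040)) (l 16778376))) (c (b (a (l 16779360) (l 16768736)) (l 16779544)) (b (a (l 16765680) (c (l 16777024) (l 16775480))) (l 16776632)))))) (a (b (a (b (l 16779168) (l 16779448)) (b (l 16779064) (l 16779392))) (a (b (l 16779696) (l 16769432)) (b (l 16769208) (c (l 16781952) (l 16777872))))) (b (a (b (l 16778864) (c (l 16780960) (l 16777464))) (b (c (l 16779992) (l 16777112)) (a (l 16779072) (l 16778928)))) (a (b (c (l 16781288) (l 16777832))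 (c (l 16781576) (l 16778152))) (b (a (l 16779448) (l 16779328)) (a (c (l 16781224) (l 16778296)) (c (l 16780960) (l 16778352)))))))), by decide +kernel⟩

def k101_A00pm_123_s3 : ∃ t, chk3 f_A00pm_123_s3 t 252 56 1 = true :=
  ⟨(c (b (l 4) (b (l 4) (a (a (c (l 537675535) (a (l 537263375) (l 537274383))) (l 4)) (l 4)))) (b (l 4) (a (a (b (l 4) (a (b (a (c (l 536802831) (l 535251471)) (l 4)) (c (l 536826383) (a (l 535258639) (l 535272719)))) (b (l 4) (a (b (l 4) (l 534997519)) (l 4))))) (l 4)) (l 4)))), by decide +kernel⟩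

def k102_A00pm_123_s3 : ∃ t, chk3 f_A00pm_123_s3 t 252 57 2 = true :=
  ⟨(b (b (a (a (a (l 536733455) (l 536740111)) (a (l 536746255) (l 536751887))) (l 4)) (a (a (a (l 536796687) (l 536803343)) (a (l 536809487) (l 536815119))) (a (a (l 536819983) (l 536824335)) (l 4)))) (a (b (a (a (l 536856591) (l 536863247)) (a (l 536869391) (l 536875023))) (a (a (l 536913167) (l 536920079)) (a (l 536926223) (c (l 538985743) (l 537502223))))) (a (b (c (l 537898255) (b (l 537458959) (l 537214735))) (a (a (l 537471759) (l 537474063)) (a (l 537744655) (l 537478159)))) (a (a (b (l 537154831) (l 537748495)) (b (l 537156367) (l 537750287))) (b (c (l 538965007) (l 537491727)) (l 536947983)))))), by decide +kernel⟩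

def k103_A00pm_123_s3 : ∃ t, chk3 f_A00pm_123_s3 t 504 57 3 = true :=
  ⟨(b (c (b (a (b (a (l 536844047) (l 536863759)) (a (l 536861199) (l 536880655))) (b (a (l 536883471) (l 4)) (a (l 536900367) (l 536920079)))) (a (b (a (l 536877327) (l 536897039)) (l 535830543)) (b (a (l 536916751) (l 536936207)) (a (l 536932111) (l 536951823))))) (b (a (b (a (a (l 535265039) (l 535279119)) (a (l 535293199) (l 535307535))) (a (a (l 535807503) (l 535821583)) (a (l 535299087) (l 535313423)))) (b (a (a (l 535322127) (l 4)) (l 4)) (a (a (l 535327759) (l 535342095)) (a (l 535356687) (l 4))))) (a (b (a (a (l 535812623) (l 535826703)) (a (l 535841039) (l 535855119))) (a (c (l 536095247) (l 535551247)) (a (l 535845391) (l 535859727)))) (b (a (a (l 535869711) (l 535615759)) (a (l 535361807) (l 535376399))) (a (a (l 535874063) (l 535888399)) (a (l 535902991) (l 535917583))))))) (c (a (b (b (l 536113679) (l 536127759)) (b (l 536141327) (l 536422415))) (b (b (a (l 536946959) (l 536966415)) (a (l 536961039) (l 536980495))) (b (l 535643663)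 (l 535924495)))) (b (a (b (a (c (l 536101903) (l 535552271)) (c (l 536128015) (l 535582735))) (a (c (l 536107791) (l 535552271)) (c (l 536133903) (l 535582735)))) (b (a (a (l 535877647) (l 535891983)) (a (l 535906575) (l 535921167))) (a (c (l 536160015) (l 535613711)) (a (l 535909391) (l 535923983))))) (a (b (a (c (l 536112911) (l 535551759)) (c (l 536139023) (l 535582223))) (a (c (l 16775912) (l 535550479)) (c (l 16776104) (l 535580943)))) (b (a (c (l 536165135) (l 535612943)) (c (l 536191759) (l 535912719))) (a (c (l 536169487) (l 535611663)) (c (l 536196111) (l 535642895)))))))), by decide +kernel⟩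

def k104_A00pm_123_s3 : ∃ t, chk3 f_A00pm_123_s3 t 505 57 3 = true :=
  ⟨(b (b (l 4) (a (c (a (b (l 536955919) (l 536971279)) (b (l 4) (l 536990991))) (b (a (c (l 536194319) (b (l 535674639) (l 535675407))) (l 4)) (a (a (l 535932431) (l 535947279)) (c (l 536228879) (b (l 535708687) (l 535709199)))))) (l 4))) (a (b (c (b (a (l 536986127) (l 537005583)) (a (l 536999951) (l 537019663))) (a (b (a (l 535936015) (l 535950863)) (b (l 535945743) (l 535947023))) (b (c (l 536235279) (b (l 535709455) (l 535709711))) (c (l 536241167) (a (l 535701007) (l 535717391)))))) (a (a (b (l 535405839) (l 535412751)) (b (l 535418127) (l 535425039))) (a (b (l 535161871) (l 535437327)) (b (l 535174159) (l 535449615))))) (b (a (b (a (b (l 535436815) (l 535172623)) (l 4)) (a (a (l 535712527) (l 535718927)) (l 535191567))) (b (l 4) (a (l 535204367) (l 4)))) (a (a (b (l 535186703) (l 535462159)) (b (l 535199247) (l 535474703))) (a (b (l 535212047) (l 535218959)) (b (l 534956303) (l 535231503))))))), by decide +kernel⟩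

def k105_A00pm_123_s3 : ∃ t, chk3 f_A00pm_123_s3 t 253 28 1 = true :=
  ⟨(b (l 4) (a (c (b (l 4) (a (b (l 4) (a (a (l 537754127) (l 537755151)) (a (l 537487631) (l 4)))) (l 4))) (b (l 4) (a (b (l 4) (a (b (a (a (l 535770895) (l 535777295)) (l 4)) (a (l 534976015) (a (l 535790607) (l 535528719)))) (a (b (l 4) (a (l 535535119) (l 535541775))) (l 4)))) (l 4)))) (l 4))), by decide +kernel⟩

def k106_A00pm_123_s3 : ∃ t, chk3 f_A00pm_123_s3 t 504 58 1 = true :=
  ⟨(c (b (a (a (b (l 536966671) (l 537285135)) (b (l 536973583) (l 537023503))) (b (a (l 536979727) (l 536985359)) (a (l 537029647) (l 537035535)))) (b (a (c (l 16777168) (l 16775344)) (a (l 537076239) (l 537082127))) (c (a (l 16777712) (l 16776888)) (a (l 16775896) (l 16775408))))) (b (a (b (a (b (l 534792719) (l 534798351)) (a (b (l 535615247) (l 535889423)) (b (l 535627279) (l 535901455)))) (a (b (l 534803471) (l 535075855)) (b (l 534827023) (l 534831119)))) (a (c (b (l 536199439) (l 536219663)) (b (b (c (l 16776160) (l 535609615)) (c (l 16776032) (l 16775064)))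 (c (l 16773224) (c (l 16774984) (l 16774408))))) (c (b (l 535950351) (l 535970575)) (b (b (c (l 536199695) (l 535640847)) (c (l 16776216) (l 535637775))) (b (c (l 16776096) (l 16775128)) (l 535650575)))))) (c (a (b (b (l 16772328) (l 16777616)) (l 16772448)) (b (a (l 16777616) (l 535987727)) (b (l 16772448) (l 16777744)))) (b (a (c (l 16772648) (c (l 16774080) (l 16773280))) (a (c (l 16775592) (l 16774208)) (b (l 535648015) (l 535644943)))) (a (a (l 16768696) (l 16768992)) (b (a (l 16774616) (l 16774896)) (a (l 16774432) (l 14)))))))), by decide +kernel⟩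

def k107_A00pm_123_s3 : ∃ t, chk3 f_A00pm_123_s3 t 505 58 1 = true :=
  ⟨(b (c (a (a (b (l 536990479) (l 537040399)) (b (l 536994831) (l 537045007))) (a (b (l 536998671) (c (l 538857487) (l 537883151))) (b (c (l 538915343) (l 537851151)) (c (l 538856463) (l 537623311))))) (a (a (c (b (l 535701263) (l 535721487)) (b (b (c (l 536226319) (l 535672591)) (c (l 536229135) (l 535669519))) (b (l 535681295) (l 535679503)))) (b (b (c (l 537057039) (l 535712015)) (c (l 537067791) (l 535712015))) (b (c (l 537078031) (l 535710991)) (c (l 16774904) (l 535709199))))) (b (c (a (b (l 537076495) (l 537087247)) (b (l 537095951) (l 537106959))) (a (b (l 534937103) (l 535473679)) (b (a (l 536033295) (l 536048911)) (a (l 536033039) (l 536048655))))) (c (a (b (l 537097487) (l 537106703)) (b (l 537116943) (l 537126159))) (a (b (l 535472655) (l 535470863)) (b (a (l 536031759) (l 536047375)) (a (l 536029967) (l 536045327)))))))) (a (a (c (b (c (l 16775712) (l 16774488)) (c (l 16781528) (l 16780264))) (b (b (c (l 16777592) (l 535676943))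 (c (l 16777648) (l 535673615))) (c (l 16772488) (c (l 16775752) (l 16774400))))) (b (c (c (l 538803727) (l 537911567)) (b (c (l 16777584) (l 535706383)) (c (l 16777640) (l 535703055)))) (l 14))) (b (a (c (c (l 538802191) (l 537651983)) (b (c (l 16774944) (l 535736591)) (c (l 16775000) (l 535733007)))) (b (c (l 538428943) (a (l 535509775) (l 535254031))) (l 14))) (l 14)))), by decide +kernel⟩

def k108_A00pm_123_s3 : ∃ t, chk3 f_A00pm_123_s3 t 253 58 1 = true :=
  ⟨(a (b (c (a (c (b (a (l 538915087) (l 538915855)) (a (l 538856463) (l 538857231))) (a (b (l 537725199) (l 537631503)) (b (c (l 538377231) (l 537622543)) (c (l 538422799) (l 537389583))))) (a (a (b (l 537542415) (l 537324047)) (b (l 537274127) (l 537324559))) (a (b (l 537274383) (l 537324559)) (b (l 4) (l 537056271))))) (a (b (a (a (b (l 534981903) (l 535255823)) (b (l 534994959) (l 535000079))) (c (b (l 537135631) (l 537146383)) (c (b (l 536366863) (l 536637711)) (b (a (l 535832079) (l 535849999)) (a (l 535828495) (l 535846415)))))) (a (b (a (l 535260175)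 (l 535004687)) (a (l 535263759) (l 535276559))) (b (a (l 535017487) (a (l 535563791) (l 535570447))) (a (l 535021071) (a (l 535835919) (l 535574031)))))) (b (c (a (b (l 537155599) (l 537166351)) (b (l 4) (l 537186575))) (a (b (a (c (l 536388623) (l 535868175)) (l 4)) (a (c (l 536390927) (l 535864591)) (c (l 536406031) (l 535883023)))) (a (a (b (l 4) (l 536158223)) (l 4)) (l 4)))) (c (a (b (l 537176335) (l 537185295)) (b (l 537196559) (l 14))) (a (b (a (c (l 536392463) (l 535860495)) (c (l 536407311) (l 535878671))) (b (a (l 536125967) (l 536142607)) (l 14))) (b (a (a (l 536156943) (l 536165391)) (b (l 536178959) (l 536177935))) (l 14))))))) (b (b (a (a (c (l 538162959) (a (l 535266575) (l 535279375))) (l 14)) (l 14)) (l 14)) (l 14))) (b (a (a (b (l 4) (b (b (l 4) (l 14)) (l 14))) (l 4)) (l 4)) (l 14))), by decide +kernel⟩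

def k109_A00pm_123_s3 : ∃ t, chk3 f_A00pm_123_s3 t 126 59 1 = true :=
  ⟨(a (c (a (a (b (c (l 16778424) (l 16776728)) (a (b (l 16774800) (b (l 16775352) (b (l 16775616) (l 16775536)))) (l 14))) (l 14)) (l 14)) (c (b (a (a (a (l 16772568) (l 14)) (l 14)) (l 14)) (c (a (a (b (l 16779152) (b (l 16779280) (b (l 16779408) (l 16774096)))) (l 14)) (l 14)) (a (b (l 16771544) (a (b (l 16776632) (a (l 16771304) (l 14))) (l 14))) (l 14)))) (c (a (a (a (b (l 16774480) (b (l 16774024) (b (l 16773792) (b (l 16773720) (l 16773680))))) (l 14)) (l 14)) (l 14)) (a (a (a (b (l 16766952) (b (l 16771368) (b (l 16770944) (b (l 16770792) (l 16770760))))) (l 14)) (l 14)) (l 14))))) (l 14)), by decide +kernel⟩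

def k110_A00pm_123_s3 : ∃ t, chk3 f_A00pm_123_s3 t 126 15 1 = true :=
  ⟨(b (a (a (a (a (a (b (b (c (l 16775096) (b (l 16764840) (l 16775592))) (c (l 16774008) (b (l 16775808) (l 16775976)))) (b (c (l 16772712) (l 16765672)) (c (l 16781776) (l 16765800)))) (l 14)) (l 14)) (l 14)) (l 14)) (l 14)) (a (a (a (a (b (b (c (l 16780264) (l 16771072)) (b (c (l 16779128) (l 16776304)) (l 16777896))) (b (l 16773376) (b (l 16779232) (l 16779600)))) (l 14)) (l 14)) (l 14)) (l 14))), by decide +kernel⟩

def k111_A00pm_123_s3 : ∃ t, chk3 f_A00pm_123_s3 t 127 7 1 = true :=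
  ⟨(b (b (l 4) (b (b (l 4) (l 14)) (l 14))) (l 14)), by decide +kernel⟩

theorem t112_A00pm_123_s3 : ∃ t, chk3 f_A00pm_123_s3 t 252 58 1 = true := ex3_a k106_A00pm_123_s3 k107_A00pm_123_s3

theorem t113_A00pm_123_s3 : ∃ t, chk3 f_A00pm_123_s3 t 126 58 1 = true := ex3_a t112_A00pm_123_s3 k108_A00pm_123_s3

theorem t114_A00pm_123_s3 : ∃ t, chk3 f_A00pm_123_s3 t 126 29 1 = true := ex3_b t113_A00pm_123_s3 k109_A00pm_123_s3

theorem t115_A00pm_123_s3 : ∃ t, chk3 f_A00pm_123_s3 t 252 57 3 = true := ex3_a k103_A00pm_123_s3 k104_A00pm_123_s3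

theorem t116_A00pm_123_s3 : ∃ t, chk3 f_A00pm_123_s3 t 252 57 1 = true := ex3_c k102_A00pm_123_s3 t115_A00pm_123_s3

theorem t117_A00pm_123_s3 : ∃ t, chk3 f_A00pm_123_s3 t 252 28 1 = true := ex3_b k101_A00pm_123_s3 t116_A00pm_123_s3

theorem t118_A00pm_123_s3 : ∃ t, chk3 f_A00pm_123_s3 t 126 28 1 = true := ex3_a t117_A00pm_123_s3 k105_A00pm_123_s3

theorem t119_A00pm_123_s3 : ∃ t, chk3 f_A00pm_123_s3 t 126 14 1 = true := ex3_b t118_A00pm_123_s3 t114_A00pm_123_s3

theorem t120_A00pm_123_s3 : ∃ t, chk3 f_A00pm_123_s3 t 126 7 1 = true := ex3_b t119_A00pm_123_s3 k110_A00pm_123_s3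

theorem t121_A00pm_123_s3 : ∃ t, chk3 f_A00pm_123_s3 t 63 7 1 = true := ex3_a t120_A00pm_123_s3 k111_A00pm_123_s3

theorem t122_A00pm_123_s3 : ∃ t, chk3 f_A00pm_123_s3 t 62 15 1 = true := ex3_b k99_A00pm_123_s3 k100_A00pm_123_s3

theorem t123_A00pm_123_s3 : ∃ t, chk3 f_A00pm_123_s3 t 125 59 1 = true := ex3_a k97_A00pm_123_s3 k98_A00pm_123_s3

theorem t124_A00pm_123_s3 : ∃ t, chk3 f_A00pm_123_s3 t 125 58 1 = true := ex3_a k95_A00pm_123_s3 k96_A00pm_123_s3

theorem t125_A00pm_123_s3 : ∃ t, chk3 f_A00pm_123_s3 t 125 29 1 = true := ex3_b t124_A00pm_123_s3 t123_A00pm_123_s3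

theorem t126_A00pm_123_s3 : ∃ t, chk3 f_A00pm_123_s3 t 251 57 3 = true := ex3_b k93_A00pm_123_s3 k94_A00pm_123_s3

theorem t127_A00pm_123_s3 : ∃ t, chk3 f_A00pm_123_s3 t 251 57 1 = true := ex3_c k92_A00pm_123_s3 t126_A00pm_123_s3

theorem t128_A00pm_123_s3 : ∃ t, chk3 f_A00pm_123_s3 t 125 57 1 = true := ex3_a k91_A00pm_123_s3 t127_A00pm_123_s3

theorem t129_A00pm_123_s3 : ∃ t, chk3 f_A00pm_123_s3 t 251 56 3 = true := ex3_b k89_A00pm_123_s3 k90_A00pm_123_s3

theorem t130_A00pm_123_s3 : ∃ t, chk3 f_A00pm_123_s3 t 251 56 1 = true := ex3_c k88_A00pm_123_s3 t129_A00pm_123_s3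

theorem t131_A00pm_123_s3 : ∃ t, chk3 f_A00pm_123_s3 t 250 56 3 = true := ex3_c k86_A00pm_123_s3 k87_A00pm_123_s3

theorem t132_A00pm_123_s3 : ∃ t, chk3 f_A00pm_123_s3 t 250 56 1 = true := ex3_c k85_A00pm_123_s3 t131_A00pm_123_s3

theorem t133_A00pm_123_s3 : ∃ t, chk3 f_A00pm_123_s3 t 125 56 1 = true := ex3_a t132_A00pm_123_s3 t130_A00pm_123_s3

theorem t134_A00pm_123_s3 : ∃ t, chk3 f_A00pm_123_s3 t 125 28 1 = true := ex3_b t133_A00pm_123_s3 t128_A00pm_123_s3

theorem t135_A00pm_123_s3 : ∃ t, chk3 f_A00pm_123_s3 t 125 14 1 = true := ex3_b t134_A00pm_123_s3 t125_A00pm_123_s3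

theorem t136_A00pm_123_s3 : ∃ t, chk3 f_A00pm_123_s3 t 124 56 1 = true := ex3_a k81_A00pm_123_s3 k82_A00pm_123_s3

theorem t137_A00pm_123_s3 : ∃ t, chk3 f_A00pm_123_s3 t 124 28 1 = true := ex3_b t136_A00pm_123_s3 k83_A00pm_123_s3

theorem t138_A00pm_123_s3 : ∃ t, chk3 f_A00pm_123_s3 t 124 14 1 = true := ex3_b t137_A00pm_123_s3 k84_A00pm_123_s3

theorem t139_A00pm_123_s3 : ∃ t, chk3 f_A00pm_123_s3 t 62 14 1 = true := ex3_a t138_A00pm_123_s3 t135_A00pm_123_s3

theorem t140_A00pm_123_s3 : ∃ t, chk3 f_A00pm_123_s3 t 62 7 1 = true := ex3_b t139_A00pm_123_s3 t122_A00pm_123_s3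

theorem t141_A00pm_123_s3 : ∃ t, chk3 f_A00pm_123_s3 t 31 7 1 = true := ex3_a t140_A00pm_123_s3 t121_A00pm_123_s3

theorem t142_A00pm_123_s3 : ∃ t, chk3 f_A00pm_123_s3 t 250 55 3 = true := ex3_c k77_A00pm_123_s3 k78_A00pm_123_s3

theorem t143_A00pm_123_s3 : ∃ t, chk3 f_A00pm_123_s3 t 250 55 1 = true := ex3_c k76_A00pm_123_s3 t142_A00pm_123_s3

theorem t144_A00pm_123_s3 : ∃ t, chk3 f_A00pm_123_s3 t 125 55 1 = true := ex3_a t143_A00pm_123_s3 k79_A00pm_123_s3

theorem t145_A00pm_123_s3 : ∃ t, chk3 f_A00pm_123_s3 t 125 27 1 = true := ex3_b k75_A00pm_123_s3 t144_A00pm_123_s3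

theorem t146_A00pm_123_s3 : ∃ t, chk3 f_A00pm_123_s3 t 249 55 1 = true := ex3_c k73_A00pm_123_s3 k74_A00pm_123_s3

theorem t147_A00pm_123_s3 : ∃ t, chk3 f_A00pm_123_s3 t 124 55 1 = true := ex3_a k72_A00pm_123_s3 t146_A00pm_123_s3

theorem t148_A00pm_123_s3 : ∃ t, chk3 f_A00pm_123_s3 t 249 54 1 = true := ex3_c k70_A00pm_123_s3 k71_A00pm_123_s3

theorem t149_A00pm_123_s3 : ∃ t, chk3 f_A00pm_123_s3 t 248 54 1 = true := ex3_c k68_A00pm_123_s3 k69_A00pm_123_s3

theorem t150_A00pm_123_s3 : ∃ t, chk3 f_A00pm_123_s3 t 124 54 1 = true := ex3_a t149_A00pm_123_s3 t148_A00pm_123_s3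

theorem t151_A00pm_123_s3 : ∃ t, chk3 f_A00pm_123_s3 t 124 27 1 = true := ex3_b t150_A00pm_123_s3 t147_A00pm_123_s3

theorem t152_A00pm_123_s3 : ∃ t, chk3 f_A00pm_123_s3 t 62 27 1 = true := ex3_a t151_A00pm_123_s3 t145_A00pm_123_s3

theorem t153_A00pm_123_s3 : ∃ t, chk3 f_A00pm_123_s3 t 62 13 1 = true := ex3_b k67_A00pm_123_s3 t152_A00pm_123_s3

theorem t154_A00pm_123_s3 : ∃ t, chk3 f_A00pm_123_s3 t 31 13 1 = true := ex3_a t153_A00pm_123_s3 k80_A00pm_123_s3

theorem t155_A00pm_123_s3 : ∃ t, chk3 f_A00pm_123_s3 t 31 6 1 = true := ex3_b k66_A00pm_123_s3 t154_A00pm_123_s3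

theorem t156_A00pm_123_s3 : ∃ t, chk3 f_A00pm_123_s3 t 31 3 1 = true := ex3_b t155_A00pm_123_s3 t141_A00pm_123_s3

theorem t157_A00pm_123_s3 : ∃ t, chk3 f_A00pm_123_s3 t 61 28 1 = true := ex3_a k62_A00pm_123_s3 k63_A00pm_123_s3

theorem t158_A00pm_123_s3 : ∃ t, chk3 f_A00pm_123_s3 t 61 14 1 = true := ex3_b t157_A00pm_123_s3 k64_A00pm_123_s3

theorem t159_A00pm_123_s3 : ∃ t, chk3 f_A00pm_123_s3 t 60 28 1 = true := ex3_a k59_A00pm_123_s3 k60_A00pm_123_s3

theorem t160_A00pm_123_s3 : ∃ t, chk3 f_A00pm_123_s3 t 60 14 1 = true := ex3_b t159_A00pm_123_s3 k61_A00pm_123_s3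

theorem t161_A00pm_123_s3 : ∃ t, chk3 f_A00pm_123_s3 t 30 14 1 = true := ex3_a t160_A00pm_123_s3 t158_A00pm_123_s3

theorem t162_A00pm_123_s3 : ∃ t, chk3 f_A00pm_123_s3 t 30 7 1 = true := ex3_b t161_A00pm_123_s3 k65_A00pm_123_s3

theorem t163_A00pm_123_s3 : ∃ t, chk3 f_A00pm_123_s3 t 123 54 1 = true := ex3_c k56_A00pm_123_s3 k57_A00pm_123_s3

theorem t164_A00pm_123_s3 : ∃ t, chk3 f_A00pm_123_s3 t 123 27 1 = true := ex3_b t163_A00pm_123_s3 k58_A00pm_123_s3

theorem t165_A00pm_123_s3 : ∃ t, chk3 f_A00pm_123_s3 t 61 27 1 = true := ex3_a k55_A00pm_123_s3 t164_A00pm_123_s3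

theorem t166_A00pm_123_s3 : ∃ t, chk3 f_A00pm_123_s3 t 123 53 3 = true := ex3_c k53_A00pm_123_s3 k54_A00pm_123_s3

theorem t167_A00pm_123_s3 : ∃ t, chk3 f_A00pm_123_s3 t 247 53 2 = true := ex3_c k51_A00pm_123_s3 k52_A00pm_123_s3

theorem t168_A00pm_123_s3 : ∃ t, chk3 f_A00pm_123_s3 t 123 53 2 = true := ex3_a k50_A00pm_123_s3 t167_A00pm_123_s3

theorem t169_A00pm_123_s3 : ∃ t, chk3 f_A00pm_123_s3 t 123 53 1 = true := ex3_c t168_A00pm_123_s3 t166_A00pm_123_s3

theorem t170_A00pm_123_s3 : ∃ t, chk3 f_A00pm_123_s3 t 123 52 1 = true := ex3_c k48_A00pm_123_s3 k49_A00pm_123_s3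

theorem t171_A00pm_123_s3 : ∃ t, chk3 f_A00pm_123_s3 t 123 26 1 = true := ex3_b t170_A00pm_123_s3 t169_A00pm_123_s3

theorem t172_A00pm_123_s3 : ∃ t, chk3 f_A00pm_123_s3 t 122 52 1 = true := ex3_c k45_A00pm_123_s3 k46_A00pm_123_s3

theorem t173_A00pm_123_s3 : ∃ t, chk3 f_A00pm_123_s3 t 122 26 1 = true := ex3_b t172_A00pm_123_s3 k47_A00pm_123_s3

theorem t174_A00pm_123_s3 : ∃ t, chk3 f_A00pm_123_s3 t 61 26 1 = true := ex3_a t173_A00pm_123_s3 t171_A00pm_123_s3

theorem t175_A00pm_123_s3 : ∃ t, chk3 f_A00pm_123_s3 t 61 13 1 = true := ex3_b t174_A00pm_123_s3 t165_A00pm_123_s3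

theorem t176_A00pm_123_s3 : ∃ t, chk3 f_A00pm_123_s3 t 60 27 2 = true := ex3_a k42_A00pm_123_s3 k43_A00pm_123_s3

theorem t177_A00pm_123_s3 : ∃ t, chk3 f_A00pm_123_s3 t 60 27 1 = true := ex3_c t176_A00pm_123_s3 k44_A00pm_123_s3

theorem t178_A00pm_123_s3 : ∃ t, chk3 f_A00pm_123_s3 t 60 13 1 = true := ex3_b k41_A00pm_123_s3 t177_A00pm_123_s3

theorem t179_A00pm_123_s3 : ∃ t, chk3 f_A00pm_123_s3 t 30 13 1 = true := ex3_a t178_A00pm_123_s3 t175_A00pm_123_s3

theorem t180_A00pm_123_s3 : ∃ t, chk3 f_A00pm_123_s3 t 121 25 1 = true := ex3_c k38_A00pm_123_s3 k39_A00pm_123_s3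

theorem t181_A00pm_123_s3 : ∃ t, chk3 f_A00pm_123_s3 t 120 25 1 = true := ex3_c k36_A00pm_123_s3 k37_A00pm_123_s3

theorem t182_A00pm_123_s3 : ∃ t, chk3 f_A00pm_123_s3 t 60 25 1 = true := ex3_a t181_A00pm_123_s3 t180_A00pm_123_s3

theorem t183_A00pm_123_s3 : ∃ t, chk3 f_A00pm_123_s3 t 120 24 1 = true := ex3_c k33_A00pm_123_s3 k34_A00pm_123_s3

theorem t184_A00pm_123_s3 : ∃ t, chk3 f_A00pm_123_s3 t 60 24 1 = true := ex3_a t183_A00pm_123_s3 k35_A00pm_123_s3

theorem t185_A00pm_123_s3 : ∃ t, chk3 f_A00pm_123_s3 t 60 12 1 = true := ex3_b t184_A00pm_123_s3 t182_A00pm_123_s3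

theorem t186_A00pm_123_s3 : ∃ t, chk3 f_A00pm_123_s3 t 30 12 1 = true := ex3_a t185_A00pm_123_s3 k40_A00pm_123_s3

theorem t187_A00pm_123_s3 : ∃ t, chk3 f_A00pm_123_s3 t 30 6 1 = true := ex3_b t186_A00pm_123_s3 t179_A00pm_123_s3

theorem t188_A00pm_123_s3 : ∃ t, chk3 f_A00pm_123_s3 t 30 3 1 = true := ex3_b t187_A00pm_123_s3 t162_A00pm_123_s3

theorem t189_A00pm_123_s3 : ∃ t, chk3 f_A00pm_123_s3 t 15 3 1 = true := ex3_a t188_A00pm_123_s3 t156_A00pm_123_s3

theorem t190_A00pm_123_s3 : ∃ t, chk3 f_A00pm_123_s3 t 14 15 1 = true := ex3_a k31_A00pm_123_s3 k32_A00pm_123_s3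

theorem t191_A00pm_123_s3 : ∃ t, chk3 f_A00pm_123_s3 t 14 14 1 = true := ex3_a k29_A00pm_123_s3 k30_A00pm_123_s3

theorem t192_A00pm_123_s3 : ∃ t, chk3 f_A00pm_123_s3 t 14 7 1 = true := ex3_b t191_A00pm_123_s3 t190_A00pm_123_s3

theorem t193_A00pm_123_s3 : ∃ t, chk3 f_A00pm_123_s3 t 59 13 1 = true := ex3_c k27_A00pm_123_s3 k28_A00pm_123_s3

theorem t194_A00pm_123_s3 : ∃ t, chk3 f_A00pm_123_s3 t 59 24 3 = true := ex3_c k24_A00pm_123_s3 k25_A00pm_123_s3

theorem t195_A00pm_123_s3 : ∃ t, chk3 f_A00pm_123_s3 t 59 24 1 = true := ex3_c k23_A00pm_123_s3 t194_A00pm_123_s3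

theorem t196_A00pm_123_s3 : ∃ t, chk3 f_A00pm_123_s3 t 59 12 1 = true := ex3_b t195_A00pm_123_s3 k26_A00pm_123_s3

theorem t197_A00pm_123_s3 : ∃ t, chk3 f_A00pm_123_s3 t 59 6 1 = true := ex3_b t196_A00pm_123_s3 t193_A00pm_123_s3

theorem t198_A00pm_123_s3 : ∃ t, chk3 f_A00pm_123_s3 t 58 12 1 = true := ex3_b k20_A00pm_123_s3 k21_A00pm_123_s3

theorem t199_A00pm_123_s3 : ∃ t, chk3 f_A00pm_123_s3 t 58 6 1 = true := ex3_b t198_A00pm_123_s3 k22_A00pm_123_s3

theorem t200_A00pm_123_s3 : ∃ t, chk3 f_A00pm_123_s3 t 29 6 1 = true := ex3_a t199_A00pm_123_s3 t197_A00pm_123_s3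

theorem t201_A00pm_123_s3 : ∃ t, chk3 f_A00pm_123_s3 t 28 12 1 = true := ex3_b k17_A00pm_123_s3 k18_A00pm_123_s3

theorem t202_A00pm_123_s3 : ∃ t, chk3 f_A00pm_123_s3 t 28 6 1 = true := ex3_b t201_A00pm_123_s3 k19_A00pm_123_s3

theorem t203_A00pm_123_s3 : ∃ t, chk3 f_A00pm_123_s3 t 14 6 1 = true := ex3_a t202_A00pm_123_s3 t200_A00pm_123_s3

theorem t204_A00pm_123_s3 : ∃ t, chk3 f_A00pm_123_s3 t 14 3 1 = true := ex3_b t203_A00pm_123_s3 t192_A00pm_123_s3

theorem t205_A00pm_123_s3 : ∃ t, chk3 f_A00pm_123_s3 t 7 3 1 = true := ex3_a t204_A00pm_123_s3 t189_A00pm_123_s3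

theorem t206_A00pm_123_s3 : ∃ t, chk3 f_A00pm_123_s3 t 27 30 1 = true := ex3_a k14_A00pm_123_s3 k15_A00pm_123_s3

theorem t207_A00pm_123_s3 : ∃ t, chk3 f_A00pm_123_s3 t 27 15 1 = true := ex3_b t206_A00pm_123_s3 k16_A00pm_123_s3

theorem t208_A00pm_123_s3 : ∃ t, chk3 f_A00pm_123_s3 t 13 15 1 = true := ex3_a k13_A00pm_123_s3 t207_A00pm_123_s3

theorem t209_A00pm_123_s3 : ∃ t, chk3 f_A00pm_123_s3 t 13 7 1 = true := ex3_b k12_A00pm_123_s3 t208_A00pm_123_s3

theorem t210_A00pm_123_s3 : ∃ t, chk3 f_A00pm_123_s3 t 13 6 1 = true := ex3_a k10_A00pm_123_s3 k11_A00pm_123_s3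

theorem t211_A00pm_123_s3 : ∃ t, chk3 f_A00pm_123_s3 t 13 3 1 = true := ex3_b t210_A00pm_123_s3 t209_A00pm_123_s3

theorem t212_A00pm_123_s3 : ∃ t, chk3 f_A00pm_123_s3 t 6 3 1 = true := ex3_a k9_A00pm_123_s3 t211_A00pm_123_s3

theorem t213_A00pm_123_s3 : ∃ t, chk3 f_A00pm_123_s3 t 3 3 1 = true := ex3_a t212_A00pm_123_s3 t205_A00pm_123_s3

theorem t214_A00pm_123_s3 : ∃ t, chk3 f_A00pm_123_s3 t 14 5 1 = true := ex3_a k6_A00pm_123_s3 k7_A00pm_123_s3

theorem t215_A00pm_123_s3 : ∃ t, chk3 f_A00pm_123_s3 t 14 2 1 = true := ex3_b k5_A00pm_123_s3 t214_A00pm_123_s3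

theorem t216_A00pm_123_s3 : ∃ t, chk3 f_A00pm_123_s3 t 7 2 1 = true := ex3_a t215_A00pm_123_s3 k8_A00pm_123_s3

theorem t217_A00pm_123_s3 : ∃ t, chk3 f_A00pm_123_s3 t 13 5 1 = true := ex3_a k3_A00pm_123_s3 k4_A00pm_123_s3

theorem t218_A00pm_123_s3 : ∃ t, chk3 f_A00pm_123_s3 t 6 5 1 = true := ex3_a k2_A00pm_123_s3 t217_A00pm_123_s3

theorem t219_A00pm_123_s3 : ∃ t, chk3 f_A00pm_123_s3 t 6 2 1 = true := ex3_b k1_A00pm_123_s3 t218_A00pm_123_s3

theorem t220_A00pm_123_s3 : ∃ t, chk3 f_A00pm_123_s3 t 3 2 1 = true := ex3_a t219_A00pm_123_s3 t216_A00pm_123_s3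

theorem t221_A00pm_123_s3 : ∃ t, chk3 f_A00pm_123_s3 t 3 1 1 = true := ex3_b t220_A00pm_123_s3 t213_A00pm_123_s3

theorem t222_A00pm_123_s3 : ∃ t, chk3 f_A00pm_123_s3 t 1 1 1 = true := ex3_a k0_A00pm_123_s3 t221_A00pm_123_s3

theorem c_A00pm_123_s3 : CertF 536870912 536870912 0 536870912 818728140 40265320 true true false .npn 1 2 3
    ndB0q1 ndB0q2 pcB3 cut_A00pm_123_s3 xt_A00pm_123_s3 :=
  certF2 (fam := true) (s1 := true) (s2 := false) (a := 1) (b := 2) (c := 3) (cn := .npn) (n1 := ndB0q1) (n2 := ndB0q2) (pc := pcB3) (cut := cut_A00pm_123_s3) (xt := xt_A00pm_123_s3) (P1 := 536870912) (W1 := 536870912) (P2 := 0) (W2 := 536870912) (P3 := 818728140) (W3 := 40265320)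
    rfl (fun _ => rfl) t222_A00pm_123_s3

theorem s_A00pm_123_s3 {κ x : ℝ} (hκ : κ * h0 = ken x) (hx : ((818728140 : ℕ) : ℝ) / S ≤ x)
    (hx' : x ≤ (((818728140 : ℕ) : ℝ) + (40265320 : ℕ)) / S)
    (H : CutA (VFD κ) PP tK tL pcB (Cut.of [[⟨0, 1, 0, 67108864⟩, ⟨1, 1, 0, 67108864⟩, ⟨2, 2, 0, 16777216⟩], [⟨0, 0, 1, 26214400⟩, ⟨1, 1, 0, 33554432⟩, ⟨2, 1, 1, 26214400⟩]]) 1 2 3 0 0 (sgb true) (sgb false) x) :
    AltA (VFD κ) PP tK tL pcB [⟨4, 0, 0, 2845415833⟩] 1 2 3 0 0 (sgb true) (sgb false) x :=
  strip_altAD (m := 2845415833) false rfl hκ (SH.κ0 hκ (SH.hx1 hx).le (SH.hx2 hx').le) (SH.hx1 hx).le (SH.hx2 hx') (covB01).cov (covB02).cov hx hx' c_A00pm_123_s3 H ((okx hx hx').extA (T := tt) (sideB hx hx') hκ rfl rfl (.O 1 true) (.O 2 false) (Or.inr rfl))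

end Pool.Agent.Strip051.G.I7625_8000.Tab.St.C
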