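import Pool.Agent.Strip051.G.I7625_8000.StH
import Pool.Agent.Strip051.G.I7625_8000.StF

/-! # Unit strips 9 (generated) -/

set_option linter.all false
set_option maxRecDepth 100000

namespace Pool.Agent.Strip051.G.I7625_8000.Tab.St.C

open Pool.Agent.Strip051.PB Pool.Agent.Strip051.PB.T Pool.Agent.StripNear Pool.Agent.Strip051.LC
open Pool.Agent.Strip051.G.I7625_8000.Tab Pool.Agent.Strip051.G.I7625_8000.Tab.St

noncomputable def cut_A00pm_213_s3 : Cut := Cut.of [[⟨3, 0, 0, 2845415833⟩], [⟨0, 1, 0, 67108864⟩, ⟨1, 1, 0, 67108864⟩, ⟨2, 2, 0, 16777216⟩], [⟨0, 1, 0, 33554432⟩, ⟨1, 0, 1, 26214400⟩, ⟨2, 1, 1, 26214400⟩]]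

noncomputable def xt_A00pm_213_s3 : Ext := strExt dd true true false .u2 .u0m .s2m .pnn 2 1 3 rfl rfl gl3 vv ndB0q2 ndB0q1

noncomputable def f_A00pm_213_s3 : ℕ → ℕ → ℕ → ℕ → Bool := onCell 0 536870912 1610612736 536870912 818728140 40265320
    (rowF 1 true true false .pnn 2 1 3 (qsf 0 536870912 536870912 536870912 3) ndB0q2 ndB0q1 pcB3 cut_A00pm_213_s3 xt_A00pm_213_s3)

def k0_A00pm_213_s3 : ∃ t, chk3 f_A00pm_213_s3 t 2 2 1 = true :=
  ⟨(b (a (l 1) (l 6)) (b (a (a (b (b (l 1) (l 16705368)) (l 534709263)) (b (l 16659232) (b (l 16673760) (l 16682784)))) (a (b (l 16611040) (a (l 16640352) (l 16615672))) (l 6))) (a (a (b (l 534691855) (l 534685711)) (a (b (l 16710112) (b (l 16724952) (l 16735080))) (b (l 16685576) (l 16705496)))) (a (b (l 16729920) (a (l 16678312) (l 16654224))) (b (l 16681240) (a (l 16630712) (l 16606056))))))), by decide +kernel⟩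

def k1_A00pm_213_s3 : ∃ t, chk3 f_A00pm_213_s3 t 4 3 1 = true :=
  ⟨(b (b (a (b (a (l 534683407) (l 534709775)) (b (a (l 4) (l 534742031)) (l 4))) (b (a (a (b (l 16750768) (l 534685199)) (b (l 16740160) (l 16761048))) (b (l 16721120) (a (l 16738488) (l 16725040)))) (a (b (a (b (l 534704911) (a (l 534729743) (l 534605071))) (l 534754319)) (l 534500367)) (a (b (l 534303503) (l 534232079)) (b (b (l 16733200) (l 16739032)) (b (l 16745424) (a (l 16755192) (l 16749096)))))))) (a (l 4) (b (a (b (b (l 534492687) (l 4)) (l 4)) (b (a (b (a (l 534281487) (l 534197775)) (c (l 534514703) (a (l 534092559) (l 534006287)))) (a (b (l 534115599) (a (l 534183439) (l 534147599))) (b (l 534065423) (b (l 16761592) (l 534160399))))) (a (b (a (l 4) (l 534333711)) (l 4)) (b (a (a (l 534280207) (c (l 534543375) (l 533969935))) (b (a (l 534223119) (l 534244623)) (b (l 534320143) (l 534364431)))) (a (a (l 4) (l 534455823)) (l 534505743)))))) (a (l 4) (l 4))))) (l 4)), by decide +kernel⟩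

def k2_A00pm_213_s3 : ∃ t, chk3 f_A00pm_213_s3 t 5 12 1 = true :=
  ⟨(b (a (b (l 16724528) (a (l 16705272) (l 16682488))) (a (l 16696160) (b (l 16624560) (l 16639400)))) (b (c (a (a (l 16720944) (l 16700392)) (a (l 16681968) (l 16664608))) (a (a (l 16713936) (l 16691216)) (a (l 16670448) (l 16650024)))) (a (a (b (l 16727672) (a (l 16740536) (l 16730136))) (a (l 16716616) (l 16707792))) (a (b (l 16690088) (l 16700312)) (b (l 16673456) (l 16685424)))))), by decide +kernel⟩

def k3_A00pm_213_s3 : ∃ t, chk3 f_A00pm_213_s3 t 10 13 1 = true :=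
  ⟨(b (a (b (a (b (c (l 16750440) (l 16745800)) (b (l 16753888) (a (l 534195471) (l 534247695)))) (b (l 16738368) (b (l 16744664) (l 534338575)))) (b (a (b (l 534321679) (l 534437647)) (c (l 534785295) (l 534245135))) (a (l 534605071) (l 534733327)))) (b (a (b (l 16729808) (b (l 16736656) (l 16741304))) (b (l 16722024) (c (l 16736360) (l 16727608)))) (a (b (c (l 16751392) (l 16744528)) (a (l 534826511) (l 534886671))) (b (c (l 16745952) (l 16737224)) (c (l 16754304) (l 16745848)))))) (a (a (b (c (l 535311631) (l 534597903)) (l 4)) (b (c (b (l 535311119) (l 535560975)) (l 534732559)) (b (c (l 535739151) (l 535055631)) (l 4)))) (b (a (a (c (l 535539471) (l 534829839)) (c (b (l 535457551) (l 535741199)) (b (l 534790671) (l 534995215)))) (b (c (c (l 16763616) (l 16759456)) (c (l 16755528) (l 16751832))) (a (c (l 535789839) (l 535038991)) (c (l 535832335) (l 535070991))))) (a (a (b (l 535556367) (b (l 535638799) (b (l 535675919) (l 4)))) (b (a (c (l 535908623) (l 535199247)) (c (l 535937039) (l 535223567))) (c (b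 (a (l 536031759) (l 536054031)) (a (c (l 536292623) (l 535926031)) (b (l 536098063) (l 536134927)))) (b (a (l 535356943) (l 535378703)) (a (b (l 535102735) (a (l 535370511) (l 535373327))) (b (l 535372815) (l 535377423))))))) (b (a (c (b (l 535926799) (l 536004111)) (b (l 16766552) (l 535303695))) (c (l 535994639) (l 535277071))) (b (a (c (l 536071439) (l 535390479)) (c (l 536089359) (l 535399439))) (b (c (l 536125199) (l 535389199)) (l 535507215)))))))), by decide +kernel⟩

def k4_A00pm_213_s3 : ∃ t, chk3 f_A00pm_213_s3 t 11 13 1 = true :=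
  ⟨(b (a (c (b (b (l 16716992) (a (l 16730440) (l 16724992))) (b (l 16738352) (a (l 16749856) (l 16745888)))) (b (b (l 16705440) (l 16716128)) (b (l 16726448) (l 16746248)))) (b (b (l 16697440) (c (a (l 16719832) (l 16715088)) (l 16701568))) (b (a (l 16723616) (l 16718352)) (c (a (l 16742480) (l 16739720)) (l 16723136))))) (a (b (a (b (c (l 16757888) (l 16747320)) (c (c (l 16766152) (l 16762160)) (c (l 16757176) (l 16752512)))) (b (c (l 16754832) (l 16741280)) (c (c (l 16763816) (l 16759200)) (l 16749360)))) (b (a (c (b (l 16762504) (l 536054799)) (b (l 16759824) (l 535363087))) (c (b (l 16765128) (l 16761784)) (c (l 16759640) (l 16753648)))) (a (b (c (l 536113423) (l 535409423)) (c (l 536179215) (l 535407375))) (c (b (l 536145167) (l 536214031)) (b (l 535421967) (l 535422735)))))) (b (a (b (c (l 16752440) (l 16735584)) (c (c (l 16761584) (l 16756656)) (l 16744312))) (b (c (l 16750584) (l 16730304)) (c (l 16756544) (l 16739832)))) (a (b (c (c (l 16766464) (l 16761080)) (c (l 16755632) (l 16748480))) (c (b (l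 16756288) (l 536246543)) (b (l 16755576) (l 16757488)))) (b (c (c (l 16764888) (l 16758264)) (l 16737664)) (c (b (l 16764992) (c (l 16770608) (l 16763584))) (c (l 16755496) (l 16748360)))))))), by decide +kernel⟩

def k5_A00pm_213_s3 : ∃ t, chk3 f_A00pm_213_s3 t 10 14 1 = true :=
  ⟨(b (a (l 4) (b (a (a (l 4) (b (a (a (l 4) (l 535800335)) (l 535806223)) (l 4))) (b (c (l 536251919) (l 535398415)) (c (l 536131343) (l 535406351)))) (l 4))) (l 4)), by decide +kernel⟩

def k6_A00pm_213_s3 : ∃ t, chk3 f_A00pm_213_s3 t 11 28 1 = true :=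
  ⟨(a (b (a (b (c (a (l 536280335) (l 536298511)) (l 535415567)) (a (c (l 536428559) (l 535417871)) (c (l 536178959) (l 535424783)))) (b (c (c (l 536548111) (l 536102415)) (l 535429903)) (c (a (l 536197135) (l 535946255)) (a (l 535430927) (l 535436303))))) (b (a (a (b (l 535173135) (l 4)) (c (b (l 536559375) (l 536635919)) (l 535425039))) (c (c (a (l 536914703) (l 536935695)) (a (l 536319759) (l 536334351))) (c (l 535328015) (l 535136271)))) (b (a (c (c (l 537027855) (l 536380943)) (l 535419151)) (c (c (l 537071887) (l 536411663)) (l 535427855))) (a (l 4) (c (c (l 537172495) (l 536468751)) (a (l 535421199) (l 535424015))))))) (b (a (a (b (c (l 536350223) (l 535437839)) (c (c (l 536763663) (l 536235535)) (l 535440911))) (b (c (l 536366095) (l 535442703)) (c (c (l 536782863) (l 536248847)) (l 535444495)))) (b (c (a (l 535844623) (c (l 16773376) (l 16765928))) (b (l 16754840) (l 535448335))) (c (a (c (l 536801295) (l 536261647)) (b (l 16761696) (l 536583439))) (a (l 535447311) (b (l 16757504) (l 535447823))))))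 (b (a (c (b (c (l 536916495) (l 536326159)) (c (l 537014287) (l 536382735))) (a (l 534901263) (b (l 535441679) (l 535438095)))) (c (b (a (l 536644879) (l 536659983)) (c (l 536515599) (l 536407823))) (a (b (l 535443471) (l 535439631)) (b (l 535444751) (l 535440143))))) (a (c (b (c (l 536845071) (l 536439567)) (c (l 536677903) (l 536496911))) (b (a (l 535431695) (l 535433487)) (a (l 535426063) (l 535427087)))) (a (c (c (l 536657935) (l 536488207)) (b (l 535434255) (l 535427343))) (c (b (l 536547343) (l 536358415)) (b (l 535434255) (l 535426575)))))))), by decide +kernel⟩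

def k7_A00pm_213_s3 : ∃ t, chk3 f_A00pm_213_s3 t 11 29 1 = true :=
  ⟨(b (a (b (b (a (l 4) (a (l 4) (c (l 536640527) (l 535417615)))) (l 4)) (l 4)) (c (a (a (b (c (b (l 537307151) (l 537412623)) (l 536309263)) (l 4)) (b (b (l 536138511) (c (l 537433871) (l 536619023))) (b (c (l 537542159) (l 536677903)) (c (l 537384975) (l 536738063))))) (c (b (a (b (l 537348111) (l 537454095)) (b (l 537367567) (l 537474063))) (a (b (l 537562895) (l 537406223)) (b (l 537583119) (l 537426703)))) (b (a (b (l 536573199) (l 536631311)) (b (l 536584719) (l 536643087))) (a (b (l 536690447) (l 536750607)) (b (l 536702223) (l 536762127)))))) (a (a (b (b (l 535418895) (l 535410447)) (l 4)) (b (b (l 535419407) (l 535410447)) (b (c (l 535822863) (l 534979855)) (c (l 535834127) (l 534945039))))) (b (b (a (l 535419151) (c (l 535805455) (l 535031567))) (a (c (l 535814671) (l 535006479)) (c (l 535817231) (l 534999311)))) (a (b (c (l 535826191) (l 534972687)) (c (l 535836943) (l 534936847))) (b (c (l 535828495) (l 534964495)) (c (l 535838735)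 (b (l 534936847) (l 534917903))))))))) (a (l 4) (c (b (a (l 4) (c (b (a (l 537252623) (b (l 537511951) (l 537570575))) (a (l 4) (b (l 537361679) (l 4)))) (b (a (l 536543247) (c (l 537069327) (l 536578319))) (a (l 4) (b (l 536332559) (l 4)))))) (l 4)) (a (l 4) (b (b (b (a (c (l 535844111) (l 534908175)) (c (l 535845391) (a (l 534900751) (l 534895375)))) (a (l 4) (c (l 535849999) (a (l 534880527) (l 534874895))))) (a (l 4) (a (l 4) (b (c (l 535854351) (b (l 534859023) (l 534848527))) (l 4))))) (l 4)))))), by decide +kernel⟩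

def k8_A00pm_213_s3 : ∃ t, chk3 f_A00pm_213_s3 t 5 15 1 = true :=
  ⟨(l 4), by decide +kernel⟩

def k9_A00pm_213_s3 : ∃ t, chk3 f_A00pm_213_s3 t 3 2 1 = true :=
  ⟨(b (l 6) (a (b (l 6) (l 6)) (l 6))), by decide +kernel⟩

def k10_A00pm_213_s3 : ∃ t, chk3 f_A00pm_213_s3 t 6 12 1 = true :=
  ⟨(a (b (a (b (l 16599832) (l 16617392)) (b (l 6) (l 16594864))) (a (b (a (l 16643640) (l 16635168)) (a (l 16668424) (b (l 16654736) (l 16668560)))) (b (l 16621544) (b (l 16643568) (l 16658376))))) (b (l 6) (a (b (l 16602432) (a (l 16639624) (l 16632232))) (b (l 6) (a (l 16625080) (l 6)))))), by decide +kernel⟩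

def k11_A00pm_213_s3 : ∃ t, chk3 f_A00pm_213_s3 t 6 26 1 = true :=
  ⟨(a (a (a (b (b (l 16688064) (c (l 16710832) (l 16690912))) (b (c (l 16724528) (l 16702976)) (c (l 16737736) (l 16714520)))) (b (b (a (l 16683520) (l 16680624)) (a (a (l 16697408) (l 16696136)) (b (l 16690776) (l 16697640)))) (c (b (l 16722056) (l 16736624)) (b (l 16696976) (l 16709352))))) (b (b (a (l 16676112) (l 16670048)) (a (c (b (l 16699760) (l 16707480)) (l 16677488)) (b (l 16681512) (l 16710344)))) (a (b (c (a (l 16720504) (l 16719512)) (l 16691200)) (c (a (l 16733912) (l 16731504)) (a (l 16705704) (l 16703424)))) (c (b (l 16716984) (l 16727432)) (b (l 16685696) (l 16700640)))))) (b (a (b (a (l 16664136) (l 16658600)) (a (c (l 16697600) (l 16664072)) (c (l 16692136) (l 16658000)))) (b (l 16662864) (a (l 16674272) (l 16673600)))) (a (a (c (b (l 16710488) (l 16721296)) (b (l 16680680) (l 16697560))) (c (b (l 16703416) (l 16714824)) (l 16686256))) (a (c (l 16702104) (l 16685328)) (c (l 16694648) (l 16686288)))))), by decide +kernel⟩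

def k12_A00pm_213_s3 : ∃ t, chk3 f_A00pm_213_s3 t 6 27 1 = true :=
  ⟨(a (b (a (a (b (c (l 16747656) (l 16725504)) (c (l 16754104) (l 16736056))) (c (b (l 16744744) (l 16751648)) (b (l 16721384) (l 16733096)))) (a (c (b (a (l 16742240) (l 16740400)) (l 16748944)) (b (a (l 16718592) (l 16716984)) (l 16729800))) (b (c (l 16736728) (l 16715408)) (a (c (l 16735856) (l 16725608)) (l 16733920))))) (b (c (a (a (c (l 16763568) (l 16755664)) (c (l 16762400) (l 16753176))) (a (a (l 16756208) (l 16754960)) (a (l 16753672) (l 16751760)))) (a (a (l 16743576) (l 16739056)) (a (l 16734000) (a (l 16729712) (l 16727072))))) (c (a (a (c (l 16768824) (l 16760352)) (c (l 16768240) (l 16758240))) (b (a (l 16760144) (l 16736952)) (a (l 16762920) (l 16760760)))) (a (a (c (l 16751768) (l 16743088)) (c (l 16748104) (l 16737832))) (b (a (l 16736992) (l 16731408)) (a (l 16738968) (l 16733168))))))) (b (a (c (a (b (l 16731296) (l 16740424)) (b (l 16725376) (l 16735056))) (a (b (l 16714688) (l 16720536)) (b (l 16710192) (l 16716176))))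 (a (c (b (l 16719016) (l 16729264)) (l 16708464)) (c (l 16717968) (l 16703688)))) (a (a (b (c (l 16748656) (l 16724680)) (c (a (l 16756656) (l 16754728)) (a (l 16728320) (l 16727088)))) (c (b (l 16743864) (l 16751376)) (b (l 16721248) (l 16725056)))) (a (b (c (l 16738632) (l 16717768)) (c (l 16746448) (l 16722296))) (b (l 16723872) (c (l 16741256) (l 16719640))))))), by decide +kernel⟩

def k13_A00pm_213_s3 : ∃ t, chk3 f_A00pm_213_s3 t 6 56 1 = true :=
  ⟨(a (a (a (b (c (a (c (l 16773280) (l 16764984)) (c (l 16773224) (l 16764072))) (c (l 16755752) (l 16746872))) (c (a (b (l 16771816) (l 536597775)) (b (l 16771496) (l 16762656))) (a (c (l 16760320) (l 16752072)) (c (l 16758584) (l 16749344))))) (c (b (c (b (l 16772064) (l 16774328)) (l 16752296)) (a (c (l 16777144) (l 16767056)) (c (l 16777360) (l 16766280)))) (b (c (l 16752200) (l 16741512)) (a (c (l 16756872) (l 16746632)) (c (l 16755096) (l 16743816)))))) (a (b (c (c (l 16772864) (l 16760592)) (c (l 16748152) (l 16735560))) (c (a (c (l 16777432) (l 16765336))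 (c (l 16777352) (l 16764208))) (c (a (l 16753104) (l 16750920)) (l 16739192)))) (b (c (c (l 16771928) (l 16757736)) (c (l 16743328) (l 16728696))) (c (c (l 16777016) (l 16762272)) (c (l 16747328) (l 16732200)))))) (a (a (c (b (a (l 16742104) (l 16760912)) (a (l 16768176) (l 16745856))) (b (a (l 16731504) (l 16729304)) (a (l 16734880) (l 16731936)))) (c (b (l 16757480) (l 16763328)) (b (l 16727520) (l 16729600)))) (c (a (b (l 16752264) (l 16757800)) (b (l 16746776) (l 16752000))) (a (b (l 16724976) (l 16727272)) (b (l 16722552) (l 16725064)))))), by decide +kernel⟩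

def k14_A00pm_213_s3 : ∃ t, chk3 f_A00pm_213_s3 t 12 57 1 = true :=
  ⟨(a (a (b (b (c (a (l 536674319) (l 536687887)) (c (l 16762120) (l 16753720))) (c (a (l 536751887) (l 536497167)) (a (l 535439887) (l 535438351)))) (c (a (b (l 536293391) (c (l 537281807) (l 536538127))) (b (l 536307471) (c (l 537299215) (l 536548367)))) (a (b (l 535433231) (l 535492111)) (b (l 535431183) (c (l 535797263) (l 535048207)))))) (c (b (b (c (l 16769232) (l 16769264)) (a (c (l 16780720) (l 16771032)) (c (l 16781264) (l 16770448)))) (a (b (c (l 16781712) (l 16772360)) (c (l 16771968) (l 16773536))) (c (c (l 16780192) (l 16775024)) (b (l 16771848) (l 16773104))))) (b (a (b (l 534905615) (c (l 16761296) (l 16751536))) (b (l 16752256) (c (l 16759568) (l 16748648)))) (a (b (c (l 16762976) (l 16753584)) (c (l 16764608) (l 16755688))) (c (b (l 16761264) (l 16762920)) (b (l 16750664) (l 16752728))))))) (c (c (a (a (b (l 16770440) (b (l 16782912) (l 16783912))) (b (l 16781104) (l 16773384))) (b (l 16760176) (a (l 16784152) (l 16784312))))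 (a (b (a (l 16768888) (l 16767912)) (b (l 16770784) (a (l 16772488) (l 16771696)))) (b (l 16766192) (a (l 16770016) (l 16768872))))) (c (a (b (a (l 16756752) (l 16754600)) (b (l 16758344) (a (l 16761016) (l 16758912)))) (b (l 16751064) (a (l 16755768) (l 16753296)))) (a (b (a (l 16744552) (l 16741200)) (b (l 16745856) (a (l 16749528) (l 16746096)))) (b (l 16735808) (a (l 16741448) (l 16737608))))))), by decide +kernel⟩

def k15_A00pm_213_s3 : ∃ t, chk3 f_A00pm_213_s3 t 13 57 1 = true :=
  ⟨(a (a (c (c (b (l 16780864) (l 16784400)) (b (l 16763456) (l 16766952))) (c (b (l 16745816) (l 16749312)) (b (l 16727952) (l 16731512)))) (c (b (a (l 16728024) (l 16767520)) (a (l 16732672) (l 16730568))) (b (a (l 16732184) (l 16730752)) (a (l 16735248) (l 16732376))))) (a (c (b (l 16763144) (l 16726288)) (b (l 16729224) (l 16730768))) (c (b (l 16756944) (l 16740952)) (b (l 16727144) (l 16729176))))), by decide +kernel⟩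

def k16_A00pm_213_s3 : ∃ t, chk3 f_A00pm_213_s3 t 24 58 1 = true :=
  ⟨(c (a (b (b (a (c (l 537386255) (l 536595727)) (c (l 537404175) (l 536605967))) (a (c (l 537493007) (l 536654095)) (c (l 537511183) (l 536664079)))) (c (a (b (l 537334031) (l 537177871)) (b (l 537352463) (l 537196815))) (a (b (l 536712975) (b (l 536757519) (l 536787727))) (b (l 536723215) (b (l 536767503) (l 536797711)))))) (a (b (b (c (l 537152783) (l 536615183)) (c (l 536857615) (c (l 16777368) (l 16773520)))) (b (c (a (l 537634063) (l 537642767)) (a (l 536729871) (l 536734223))) (c (a (l 537747215) (l 537487375)) (a (l 536789775) (l 536793871))))) (b (c (b (l 16773392) (c (l 16786488) (l 16781960))) (b (l 16763720) (c (l 16777424) (l 16772896)))) (b (c (c (l 16781136) (l 16782208)) (c (l 16778040) (l 16773880))) (c (a (l 537491727) (l 537490191)) (a (l 536793615) (l 536786703))))))) (a (b (a (b (c (l 535807759) (l 535024399)) (c (l 535819279) (l 534990863))) (b (c (l 535809039) (l 535015951)) (c (l 535820047) (l 534981391)))) (b (a (c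 (l 535829775) (b (l 534964239) (l 534945807))) (c (l 535830287) (b (l 534953999) (l 534934799)))) (a (c (b (l 535836687) (l 535841551)) (b (l 534926607) (l 534638607))) (c (b (l 535836687) (l 535841039)) (b (l 534915343) (l 534895119)))))) (b (a (b (c (l 535809551) (l 535006479)) (c (c (l 16769672) (l 16765840)) (b (l 16759536) (l 534961423)))) (b (c (l 535802383) (l 534988815)) (c (b (l 16765712) (l 16766488)) (b (l 16756520) (l 16757648))))) (a (b (c (a (l 535829519) (l 535829007)) (a (l 534936079) (l 534929679))) (a (c (l 535838479) (l 534895887)) (c (l 535837455) (b (l 534899215) (l 534878223))))) (b (c (b (l 16767264) (l 535820559)) (a (l 534918671) (l 534901519))) (c (a (l 535831311) (l 535818767)) (a (l 534876687) (l 534857231)))))))), by decide +kernel⟩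

def k17_A00pm_213_s3 : ∃ t, chk3 f_A00pm_213_s3 t 25 58 1 = true :=
  ⟨(c (a (b (a (c (b (l 16784656) (l 16774648)) (b (l 16773664) (l 16774688))) (c (c (l 16778144) (l 16782592)) (b (l 16772944) (l 16774040)))) (a (c (b (a (l 16774592) (l 16775080)) (c (l 16777016) (l 16783016))) (b (c (l 16778008) (l 16773120)) (c (l 16778528) (l 16774040)))) (c (b (l 16775736) (l 16775792)) (b (l 16774984) (c (l 16778400) (l 16773152)))))) (b (b (a (l 16757944) (l 16757600)) (c (l 16776296) (l 16762304))) (a (c (c (l 16779680) (l 16773496)) (b (l 16774240) (l 16775104))) (c (l 16777256) (b (l 16773344) (l 16774280)))))) (a (b (a (c (b (l 16762648) (a (l 16764720) (l 16763736))) (b (l 16751632) (a (l 16754640) (l 16752944)))) (c (b (l 16760560) (l 16762168)) (b (l 16748160) (l 16750304)))) (a (c (b (a (l 16766272) (l 16765296)) (c (l 16769568) (l 535547407))) (b (b (l 16755496) (l 16756648)) (a (l 534832399) (l 534803983)))) (c (b (l 16763744) (a (l 16765816) (l 16764744))) (b (l 16752528) (a (l 16755752) (l 16753904))))))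 (b (b (c (l 16757104) (l 16742568)) (a (a (l 16754000) (l 16752448)) (l 16750056))) (a (c (b (l 16761496) (l 16763064)) (b (l 16748760) (l 16751040))) (c (b (l 16759072) (l 16760656)) (b (l 16744784) (l 16747024))))))), by decide +kernel⟩

def k18_A00pm_213_s3 : ∃ t, chk3 f_A00pm_213_s3 t 13 58 1 = true :=
  ⟨(a (c (a (b (c (l 16766048) (l 16748976)) (a (c (l 16767272) (l 16772784)) (b (l 16737840) (l 16738688)))) (b (a (l 16735584) (l 16734944)) (b (l 16737120) (l 16759168)))) (a (b (a (c (l 16754048) (l 16737488)) (c (l 16751304) (l 16733208))) (a (c (l 16757248) (l 16741656)) (c (l 16754560) (l 16737336)))) (b (a (l 16738656) (a (l 16735880) (l 16734344))) (c (l 16750464) (l 16730800))))) (c (a (a (b (l 16732560) (l 16736968)) (b (l 16771720) (a (l 16735440) (l 16776184)))) (b (c (l 16775632) (l 16758192)) (l 16730416))) (a (b (a (l 16711600) (l 16731864)) (a (b (l 16734608) (l 16736440)) (l 16691520))) (b (a (l 16731296) (l 16730944)) (a (l 16733336) (l 16733368)))))), by decide +kernel⟩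

def k19_A00pm_213_s3 : ∃ t, chk3 f_A00pm_213_s3 t 48 59 1 = true :=
  ⟨(c (c (a (b (b (c (l 537812495) (l 537580559)) (b (l 537381903) (l 537442831))) (b (b (l 537504527) (l 4)) (l 4))) (a (b (b (l 537576463) (l 537159439)) (b (c (l 538102543) (l 537807631)) (l 4))) (b (b (l 537585935) (l 537437455)) (b (c (l 538113551) (l 537816335)) (b (l 537657359) (l 4)))))) (b (b (a (b (l 536818191) (l 536580623)) (b (l 536828175) (l 536859151))) (a (b (a (l 536877583) (l 536882703)) (l 536911887)) (b (l 536890383) (l 536921871)))) (b (a (b (l 536675599) (l 4)) (c (l 536982287) (l 536692495))) (a (l 4) (b (c (l 537310735) (l 536729615)) (l 4)))))) (b (b (a (c (b (l 535577359) (a (l 535850255) (l 535849999))) (b (a (l 534889743) (l 534883599)) (a (l 534600463) (l 534862607)))) (b (c (l 535845391) (a (l 534877455) (l 534870799))) (c (l 535849231) (a (l 534856207) (l 534849295))))) (b (a (c (a (l 535854351) (l 535854095)) (a (b (l 534852879) (b (l 534844687) (l 534839311))) (l 534572559))) (c (l 535853071) (a (l 534834191)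 (l 534826767)))) (a (c (l 535656975) (a (l 534557199) (l 534818575))) (c (l 535856911) (a (l 534811407) (l 534803727)))))) (c (b (a (b (a (l 4) (l 535861519)) (l 4)) (b (l 535726095) (a (l 535864079) (l 535862799)))) (a (l 4) (b (a (l 4) (l 535865871)) (l 4)))) (a (b (b (a (l 4) (l 534795535)) (l 4)) (l 4)) (b (b (a (l 534788111) (l 534780175)) (a (l 534763791) (l 534755599))) (b (a (l 4) (l 534730511)) (l 4))))))), by decide +kernel⟩

def k20_A00pm_213_s3 : ∃ t, chk3 f_A00pm_213_s3 t 49 118 2 = true :=
  ⟨(a (c (b (a (l 537595151) (c (l 538127631) (l 537617423))) (a (l 537446927) (b (l 537424655) (l 537485839)))) (b (a (l 536850959) (c (l 537108751) (l 536601615))) (a (l 536913423) (c (l 537185295) (l 536649999))))) (c (b (a (l 537339151) (l 537067279)) (c (a (l 537997583) (l 537992719)) (a (l 537723919) (l 537716239)))) (b (a (l 536584975) (b (l 16776928) (l 536858127))) (a (c (l 537183503) (l 536645135)) (c (l 537172751) (l 536631311)))))), by decide +kernel⟩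

def k21_A00pm_213_s3 : ∃ t, chk3 f_A00pm_213_s3 t 49 119 2 = true :=
  ⟨(c (a (b (a (c (l 538124303) (l 537824783)) (c (a (l 538132239) (l 538136079)) (a (l 537830671) (l 537833487)))) (a (b (l 537667343) (l 537464847)) (c (b (a (l 538240271) (l 538243343)) (a (a (l 538313487) (c (l 538468879) (l 538162703))) (b (l 538297615) (a (l 538334479) (l 538331919))))) (b (a (l 537914639) (l 537916431)) (a (a (l 537971471) (c (l 538125583) (l 537820687))) (b (l 537958159) (a (l 537987087) (l 537983759)))))))) (a (b (c (b (l 538367759) (l 538168591)) (b (l 537802511) (l 537856015))) (b (c (l 537969423) (l 537640207)) (b (c (l 538287631) (l 537945871)) (c (l 538319887) (l 537969423))))) (b (c (l 537857039) (l 537280783)) (b (c (l 538221839) (l 537889551)) (c (l 538285327) (l 537935887)))))) (a (a (b (c (l 537259279) (l 536696847)) (c (l 537340943) (l 536747535))) (b (a (c (l 537263375) (l 536698895)) (c (l 537264655) (l 536698639))) (b (a (c (l 537323535) (l 536736015)) (c (l 537323791) (l 536734735))) (c (a (a (l 537364495)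 (b (l 537355279) (l 537375759))) (b (l 537353487) (a (l 537374479) (l 537370383)))) (a (a (l 536761359) (b (l 536755471) (l 536767759))) (b (l 536752655) (a (l 536765967) (l 536760847)))))))) (b (a (c (b (l 537239567) (l 537277199)) (l 536690703)) (c (l 537243407) (l 536671503))) (a (b (c (l 537313807) (l 536722191)) (c (b (l 537338639) (l 537353743)) (b (l 536734991) (l 536741647)))) (b (c (l 537291023) (l 536695567)) (c (l 537320719) (l 536708879))))))), by decide +kernel⟩

def k22_A00pm_213_s3 : ∃ t, chk3 f_A00pm_213_s3 t 49 59 6 = true :=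
  ⟨(b (a (b (a (l 535846415) (b (l 535842831) (l 535846415))) (a (l 535853583) (a (l 535852559) (l 535850511)))) (b (a (l 535703311) (b (l 535821071) (l 535822351))) (a (b (l 535840783) (l 535842575)) (c (l 536091919) (l 535286543))))) (a (a (b (b (l 535858191) (l 535861263)) (b (l 535864079) (l 535866639))) (b (a (b (l 535856911) (l 535859727)) (b (l 535854351) (l 535856911))) (b (a (l 535862543) (c (l 536149775) (l 535568911))) (c (a (a (l 536162831) (b (l 536160015) (l 536030223))) (b (l 536155663) (a (l 536161551) (l 536155663)))) (a (a (l 535569167) (b (l 535569167) (a (l 535566863) (l 535566095)))) (b (l 535563535) (a (l 535562255) (l 535555087)))))))) (c (b (a (l 536125455) (l 536102671)) (a (b (l 536134159) (b (l 536135183) (l 536133647))) (b (l 536103439) (l 536100623)))) (b (a (b (l 535566863) (l 535559695)) (b (l 535541775) (l 535530511))) (a (b (l 535281935) (b (l 535539727) (l 535530511))) (b (l 535515407) (l 535496719))))))), by decide +kernel⟩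

def k23_A00pm_213_s3 : ∃ t, chk3 f_A00pm_213_s3 t 49 59 7 = true :=
  ⟨(b (a (b (a (b (l 534863887) (l 534841871)) (b (l 534856463) (l 534834191))) (a (b (l 534819343) (l 534796047)) (a (l 534566927) (b (l 534808335) (l 534784271))))) (b (a (b (l 534842895) (l 534819343)) (b (l 534821135) (l 534795791))) (a (b (l 534795023) (l 534769679)) (b (l 534769423) (l 534741263))))) (a (a (b (b (l 534771983) (l 534747151)) (b (l 534721551) (l 534695183))) (b (a (b (l 534765327) (l 534740239)) (b (l 534759439) (l 534733839))) (b (a (a (l 534715663) (l 534713103)) (c (l 534992911) (l 534422287))) (c (a (a (l 534980879) (b (l 534983695) (a (l 534974479) (l 534972943)))) (b (l 534976783) (a (l 534968335) (l 534960143)))) (a (a (l 534398735) (b (l 534404111) (a (l 534387727) (l 534385935)))) (b (l 534395407) (a (l 534380559) (l 534371087)))))))) (c (b (a (b (l 535016463) (l 534994959)) (b (l 534987279) (l 534961679))) (a (b (l 534769679) (b (l 534949391) (l 534932495))) (b (l 534931471) (l 534897679)))) (b (a (a (l 534192143)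 (l 534176527)) (b (l 534436623) (l 534396943))) (a (b (a (l 534406415) (l 534386703)) (b (l 534364431) (l 534340111))) (b (l 534352655) (l 534304015))))))), by decide +kernel⟩

def k24_A00pm_213_s3 : ∃ t, chk3 f_A00pm_213_s3 t 50 59 1 = true :=
  ⟨(c (b (c (a (b (a (l 537327887) (l 537316879)) (a (c (l 538251535) (l 537703695)) (c (l 16781136) (l 16777440)))) (b (a (l 16775264) (l 16775808)) (c (l 16782384) (l 16778080)))) (a (b (a (l 536830735) (l 536813583)) (a (c (l 537157135) (l 536612111)) (c (l 16779000) (l 16775320)))) (b (c (l 16778816) (l 16774008)) (c (l 537105935) (l 536551951))))) (b (c (a (a (b (l 537524239) (l 537310735)) (b (l 16778600) (l 537559311))) (c (l 537798927) (l 537479439))) (c (a (a (l 537222415) (l 537198095)) (l 537161231)) (a (a (l 536646927) (l 536618767)) (l 536576015)))) (b (c (a (c (l 538194191) (l 537856527)) (l 537318415)) (a (c (l 537252623) (l 536651279)) (l 536632847))) (a (c (a (l 537420559) (l 537671951)) (c (l 537285391) (l 536667407))) (c (l 537380111) (l 536392463))))))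 (c (b (a (b (a (l 535801615) (l 535777551)) (a (b (l 535799311) (l 535796239)) (b (l 16769464) (l 535766799)))) (b (b (l 16766440) (l 16767192)) (a (b (l 16768456) (l 16769200)) (l 535706895)))) (a (b (a (c (l 536073999) (l 535235855)) (b (l 535759375) (l 535748623))) (b (a (l 535772687) (l 535737615)) (a (l 535763727) (l 535730703)))) (b (a (b (l 16769944) (l 535713039)) (l 535684623)) (b (l 535687695) (l 535683343))))) (b (a (b (a (b (l 16761120) (l 534766607)) (l 534748431)) (a (b (l 534737679) (l 534706959)) (b (l 16761912) (l 534668559)))) (b (c (l 16759648) (l 16754888)) (a (b (l 16760088) (l 16761392)) (b (l 16758208) (l 16759496))))) (a (b (a (b (l 534673679) (l 534569999)) (b (l 534632463) (l 534592015))) (b (a (l 534595599) (l 534550543)) (a (l 534555919) (l 534513167)))) (b (a (b (l 534588687) (l 534546959)) (l 534523663)) (b (l 534486031) (l 534450959))))))), by decide +kernel⟩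

def k25_A00pm_213_s3 : ∃ t, chk3 f_A00pm_213_s3 t 51 59 1 = true :=
  ⟨(c (b (c (a (b (l 16776552) (a (l 16775864) (l 16765920))) (c (l 16780416) (l 16774216))) (a (b (l 16765328) (c (l 16778928) (l 16773800))) (b (l 16775056) (l 16775736)))) (a (c (b (c (l 16777776) (l 16773192)) (b (l 16774856) (l 537351951))) (b (c (l 16779096) (l 16774528)) (b (l 16771880) (l 536886543)))) (c (b (l 16776744) (c (l 16789008) (l 16763192))) (b (l 16765856) (b (l 16776776) (l 16777056)))))) (b (a (c (b (a (l 16765160) (l 16764008)) (a (l 16766672) (l 16765536))) (b (a (l 16754400) (l 16752424)) (b (l 16755280) (l 16756576)))) (c (b (l 16762200) (l 16763800)) (b (l 16749360) (l 16751888)))) (a (b (c (b (l 16767288) (l 16768104)) (a (l 534480911) (l 16757632))) (c (a (l 535639311) (l 535609871)) (a (l 534407439) (l 534368015)))) (b (c (b (l 16765032) (l 16765912)) (b (l 16753920) (l 16755376))) (c (b (l 16766816) (l 16767752)) (b (l 16756904) (l 16758504))))))), by decide +kernel⟩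

def k26_A00pm_213_s3 : ∃ t, chk3 f_A00pm_213_s3 t 13 59 2 = true :=
  ⟨(b (c (a (a (b (l 16768136) (l 16768208)) (l 16769712)) (a (b (l 16770560) (l 16771496)) (b (l 16786648) (a (b (l 16790816) (l 16771288)) (l 16787960))))) (b (a (a (l 16752824) (l 16771856)) (a (l 16770160) (l 16766368))) (a (a (a (l 16775008) (l 16774256)) (l 16773104)) (a (l 16771568) (a (l 16769584) (l 16767728)))))) (c (b (a (a (a (l 16788432) (l 16789600)) (l 16791272)) (a (l 16772152) (a (a (l 16773200) (b (l 16793232) (b (l 16773384) (l 16779160)))) (b (l 16790480) (l 16771208))))) (a (a (a (l 16767040) (l 16789400)) (l 16791392)) (b (a (l 16777808) (c (a (l 16789952) (a (b (l 16799816) (a (l 16801104) (l 16800312))) (l 16798128))) (a (l 16789648) (a (b (l 16788856) (l 16789552)) (l 16787608))))) (c (a (l 16798448) (c (a (l 16803232) (a (a (l 16804256) (b (l 16803848) (a (l 16804608) (b (l 16804352) (l 16804704))))) (l 16807880))) (a (l 16797968) (a (a (l 16798776) (b (l 16798336) (a (l 16799080) (l 16798960)))) (l 16797296))))) (a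 (l 16789016) (a (l 16790040) (a (a (l 16790504) (b (l 16790032) (a (l 16790752) (b (l 16790488) (l 16790824))))) (b (l 16788816) (l 16789624))))))))) (b (a (a (a (l 16775800) (l 16775216)) (l 16774312)) (a (l 16772992) (a (b (l 16774080) (a (l 16772560) (l 16772248))) (l 16770240)))) (c (a (a (l 16779480) (l 16779440)) (a (l 16779248) (b (a (l 16778776) (a (l 16778064) (l 16776984))) (a (l 16779400) (a (a (l 16779400) (b (l 16778880) (b (l 16779376) (a (l 16779640) (l 16779608))))) (b (l 16778024) (l 16778720))))))) (a (a (l 16773280) (l 16771456)) (a (l 16769592) (b (a (l 16767832) (a (l 16761656) (l 16766248))) (a (l 16768688) (a (a (l 16768216) (b (l 16767632) (a (l 16768304) (l 16768144)))) (l 16767416)))))))))), by decide +kernel⟩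

def k27_A00pm_213_s3 : ∃ t, chk3 f_A00pm_213_s3 t 13 59 3 = true :=
  ⟨(b (c (a (a (a (b (l 16759680) (l 16761360)) (l 16757952)) (a (l 16755392) (l 16752872))) (a (b (l 16748520) (l 16750432)) (b (l 16745656) (a (l 16747400) (l 16747048))))) (a (a (a (b (l 16745152) (l 16747712)) (b (l 16740824) (l 16743472))) (a (l 16737824) (l 16733624))) (a (b (l 16726648) (l 16729096)) (b (l 16724528) (a (l 16724888) (l 16725944)))))) (c (b (a (a (a (l 16763168) (l 16760800)) (l 16757256)) (a (l 16752656) (a (a (l 16749944) (l 16751688)) (l 16748736)))) (c (b (a (a (l 16766656) (l 16762960)) (a (l 16759352) (a (l 16756816) (a (l 16755648) (l 16755416))))) (a (a (l 16767520) (l 16763936)) (a (l 16760432) (a (l 16757912) (a (a (l 16756960) (b (l 16756296) (a (l 16756952) (l 16756768)))) (l 16756368)))))) (a (a (l 16760896) (l 16755440)) (a (l 16750160) (a (a (l 16746976) (l 16740592)) (b (a (l 16744312) (l 16744480)) (a (a (l 16745616) (b (l 16744880) (a (l 16745528) (l 16745320)))) (l 16745232)))))))) (b (a (a (a (l 16750552)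 (l 16746376)) (l 16740144)) (a (l 16732144) (a (b (l 16705272) (l 16727552)) (l 16726832)))) (a (a (a (b (l 16752864) (l 16754496)) (l 16749552)) (l 16743400)) (a (a (l 16737392) (l 16733552)) (a (a (l 16725496) (b (l 16728080) (l 16729800))) (b (a (b (l 16726936) (l 16722080)) (l 16727912)) (a (b (a (l 16728032) (l 16727616)) (a (l 16728896) (c (a (l 16734032) (l 16733800)) (l 16722392)))) (b (l 16728248) (l 16733712)))))))))), by decide +kernel⟩

def k28_A00pm_213_s3 : ∃ t, chk3 f_A00pm_213_s3 t 48 60 2 = true :=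
  ⟨(l 4), by decide +kernel⟩

def k29_A00pm_213_s3 : ∃ t, chk3 f_A00pm_213_s3 t 49 120 4 = true :=
  ⟨(a (a (l 4) (b (a (b (c (b (b (a (l 538350351) (l 538352911)) (a (l 4) (l 538351631))) (a (l 4) (l 538082319))) (b (a (b (c (l 538155023) (l 537846799)) (l 4)) (b (l 538002703) (l 538003215))) (a (l 4) (l 537736463)))) (l 4)) (b (b (b (c (l 538219791) (l 537734415)) (c (l 538341135) (l 537991183))) (c (l 538345231) (l 537998095))) (b (c (l 538344463) (l 538001167)) (l 4)))) (l 4))) (b (c (b (b (a (l 538335503) (l 538586383)) (l 538056463)) (a (b (l 538332175) (l 538197775)) (l 538316815))) (b (b (a (l 537982479) (l 537961487)) (l 537436687)) (a (c (l 538141199) (l 537835535)) (l 537969167)))) (b (a (a (l 4) (b (c (l 538193935) (l 537988367)) (l 4))) (c (c (l 538469391) (l 538164751)) (c (l 538128655) (l 537824783)))) (b (b (a (l 4) (a (l 4) (c (l 538313487) (l 537977103)))) (l 4)) (l 4))))), by decide +kernel⟩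

def k30_A00pm_213_s3 : ∃ t, chk3 f_A00pm_213_s3 t 49 120 5 = true :=
  ⟨(a (a (l 4) (b (a (b (c (b (a (b (l 537386511) (l 4)) (b (l 537387791) (l 537389839))) (a (l 4) (l 537393935))) (b (a (b (l 536776207) (l 4)) (b (l 536776463) (l 536780047))) (a (l 4) (l 536786703)))) (l 4)) (b (b (c (b (l 537386767) (l 537376271)) (b (l 536774415) (l 536765199))) (c (l 537385743) (l 536776975))) (b (c (l 537392143) (l 536786703)) (l 4)))) (l 4))) (b (b (b (c (a (l 537363983) (l 537339407)) (a (l 536749327) (l 536720911))) (c (a (l 537368079) (l 537345295)) (l 536743183))) (a (c (b (l 537374479) (l 537398031)) (b (l 536766223) (l 536776207))) (c (l 537355535) (l 536744719)))) (b (a (a (l 4) (b (c (l 537382671) (l 536779791)) (l 4))) (c (c (l 537521423) (l 537084431)) (b (l 536760079) (l 536771087)))) (a (l 4) (a (l 4) (b (c (l 537376015) (l 536775951)) (l 4))))))), by decide +kernel⟩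

def k31_A00pm_213_s3 : ∃ t, chk3 f_A00pm_213_s3 t 49 121 2 = true :=
  ⟨(l 4), by decide +kernel⟩

def k32_A00pm_213_s3 : ∃ t, chk3 f_A00pm_213_s3 t 24 60 3 = true :=
  ⟨(a (l 4) (c (b (a (a (l 4) (b (a (b (c (b (a (b (l 536170255) (l 4)) (b (l 536169999) (l 536174863))) (a (l 4) (l 536049679))) (b (b (a (l 535569679) (l 535568399)) (a (l 4) (l 535574799))) (a (l 4) (l 535384335)))) (l 4)) (b (b (b (c (l 536032271) (l 535362063)) (l 535923727)) (c (l 536172559) (l 535572751))) (b (c (l 536185103) (l 535587855)) (l 4)))) (l 4))) (c (b (b (b (a (l 536138767) (l 536105999)) (l 536133391)) (a (b (l 536161295) (l 536040207)) (l 536137231))) (a (b (b (a (l 4) (l 536179983)) (l 4)) (l 4)) (b (b (l 536157199) (l 536070671)) (b (a (l 4) (l 536178191)) (l 4))))) (b (b (b (a (l 535533071) (l 535495695)) (l 535393551)) (a (b (l 535560975) (l 535576591)) (l 535533583))) (a (b (a (l 4) (b (l 535584015) (l 4))) (l 4)) (b (a (l 535373583) (l 535557647)) (b (a (l 4) (l 535583503)) (l 4))))))) (l 4)) (b (a (b (a (l 4) (a (b (a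 (b (b (c (l 534974735) (l 534385935)) (l 4)) (l 4)) (b (b (c (l 534972431) (l 534382607)) (l 534684943)) (a (l 4) (l 534830607)))) (l 4)) (b (b (b (c (l 534697487) (a (l 534377743) (l 534361615))) (l 534663695)) (l 534682639)) (a (l 4) (c (l 534999567) (l 534413327)))))) (l 4)) (b (b (b (a (b (l 534628879) (l 534636559)) (l 534589199)) (a (l 534650127) (l 534607375))) (c (a (b (l 534965007) (l 534983183)) (l 534934031)) (a (b (l 534374415) (l 534394895)) (l 534339343)))) (a (a (l 4) (a (l 4) (b (c (l 535131151) (l 534409999)) (l 4)))) (a (b (c (l 534981903) (l 534393359)) (l 4)) (b (c (l 534962191) (l 534370831)) (a (l 4) (c (l 534997775) (l 534410767)))))))) (l 4)))), by decide +kernel⟩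

def k33_A00pm_213_s3 : ∃ t, chk3 f_A00pm_213_s3 t 25 120 2 = true :=
  ⟨(a (c (c (b (a (b (l 538329359) (l 538026511)) (a (l 538007823) (l 538532111))) (a (a (b (l 538033935) (b (l 538168847) (c (l 538454799) (l 538421519)))) (b (l 538288399) (l 538155791))) (b (l 538000911) (a (l 538277135) (l 538533647))))) (b (a (b (l 537667343) (l 537405455)) (b (l 537902095) (l 537909007))) (a (b (a (l 537690127) (l 537941263)) (a (c (b (l 538116367) (l 538120207)) (l 537816591)) (c (l 538102287) (l 537798671)))) (a (b (l 537924879) (l 537934095)) (l 537914895))))) (b (a (b (c (l 537309967) (l 536686863)) (c (a (l 537333519) (l 537312271)) (l 536706319))) (b (c (l 537269007) (l 536637967)) (c (l 537282319) (l 536657679)))) (a (b (c (a (l 537348111) (l 537327119)) (a (l 536739855) (l 536715023))) (a (c (c (l 537447951) (l 537079567)) (b (l 536756751) (l 536768527))) (c (l 537343503) (l 536738063)))) (b (c (l 537297423) (l 536679183)) (c (a (l 537323535) (l 537304335)) (a (l 536713999) (l 536690959))))))) (a (c (b (a (l 537396751)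 (l 537384207)) (c (a (l 538254351) (l 538512399)) (a (l 537900303) (l 537886479)))) (b (a (b (l 536921359) (l 536938255)) (l 536642831)) (a (c (l 537278479) (l 536657679)) (c (l 537261071) (l 536636175))))) (c (b (a (l 537641231) (l 537899023)) (c (b (l 16780272) (l 538498831)) (l 537197071))) (b (b (l 16772000) (l 536890895)) (b (l 536909839) (a (l 536939023) (l 536921359))))))), by decide +kernel⟩

def k34_A00pm_213_s3 : ∃ t, chk3 f_A00pm_213_s3 t 25 120 3 = true :=
  ⟨(a (b (a (c (b (c (l 536067087) (l 535182863)) (c (l 536092431) (l 535347727))) (b (a (l 534556175) (l 534514447)) (a (l 534594063) (l 534552591)))) (c (b (l 535696655) (a (l 535740175) (l 535709967))) (b (l 534453263) (l 534491919)))) (a (c (c (a (b (l 536134415) (b (l 536155919) (l 536036879))) (b (l 536105231) (l 536134671))) (a (b (l 535531791) (a (l 535340559) (l 535558415))) (b (l 535497999) (l 535533583)))) (b (a (c (l 534932751) (l 534337551)) (l 534593551)) (a (c (a (l 534983183) (l 534963727)) (a (l 534394127) (l 534372111))) (c (l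 534935055) (l 534339599))))) (c (a (c (l 536025103) (l 535349263)) (b (l 535740687) (l 535773455))) (b (a (l 534552847) (l 534513167)) (a (l 534529551) (l 534556943)))))) (a (b (c (a (l 535667215) (l 535638799)) (a (l 534413839) (l 534375183))) (c (a (b (l 535711503) (l 535744527)) (b (l 535683343) (l 535716367))) (a (b (l 534473999) (l 534518031)) (b (l 534435599) (l 534479887))))) (b (c (b (l 535582223) (l 535611407)) (b (l 534298383) (l 534337807))) (c (a (l 535673103) (l 535646735)) (a (l 534420751) (l 534384143)))))), by decide +kernel⟩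

def k35_A00pm_213_s3 : ∃ t, chk3 f_A00pm_213_s3 t 50 121 2 = true :=
  ⟨(c (a (b (b (a (l 4) (c (b (a (l 538295055) (l 538288399)) (a (l 4) (l 538289935))) (c (a (l 538114831) (l 538106895)) (l 537810959)))) (l 4)) (l 4)) (a (b (c (b (b (l 538278927) (l 538280719)) (a (b (l 538285583) (l 4)) (l 538146831))) (b (c (l 538095631) (l 537794063)) (c (l 538105871) (l 537807887)))) (l 4)) (b (b (c (l 538268431) (l 537929487)) (c (l 538138383) (l 537941775))) (b (c (c (l 538425615) (l 538398479)) (a (l 537958671) (l 537951503))) (l 4))))) (a (b (b (a (l 4) (b (c (l 537356559) (l 536756239)) (c (l 537432847) (l 536702223)))) (l 4)) (l 4)) (a (b (c (b (l 537341455) (a (l 537366031) (l 537356303))) (b (l 536739087) (l 536774415))) (l 4)) (b (c (b (l 537322511) (l 537342223)) (b (l 536716047) (l 536743183))) (b (c (l 537430799) (l 536772111)) (l 4)))))), by decide +kernel⟩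

def k36_A00pm_213_s3 : ∃ t, chk3 f_A00pm_213_s3 t 51 121 2 = true :=
  ⟨(c (b (a (a (c (a (l 537995023) (l 537989647)) (b (l 537915151) (l 537927439))) (b (c (l 538515727) (l 537901327)) (c (l 538251791) (l 537913871)))) (b (c (l 537965583) (l 537883151)) (a (l 537401103) (l 537659663)))) (a (b (a (c (a (l 538269711) (a (l 538534159) (l 538263311))) (a (l 537944335) (l 537937423))) (b (c (l 538255375) (l 537923855)) (c (l 537990159) (l 537931023)))) (c (a (b (a (l 538274063) (a (l 538538511) (l 538267663))) (a (l 4) (b (a (l 538272527) (l 538270223)) (l 4)))) (b (a (l 538264079) (l 538528015)) (l 538265615))) (a (b (a (l 537955087) (a (l 537949967) (l 537946639))) (a (l 4) (a (l 537957903) (l 537954575)))) (b (l 537938703) (l 537946639))))) (b (a (c (l 538248719) (l 537915407)) (l 537669903)) (a (b (l 537418767) (l 537424655)) (b (l 537677839) (l 537683727)))))) (b (b (a (a (c (l 537304335) (l 536693775)) (l 536979727)) (a (l 536961295) (l 536943887))) (a (a (c (l 537324303) (l 536721167)) (c (l 537307151) (l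 536699919))) (a (l 536985359) (l 536967951)))) (a (b (a (c (a (l 537350159) (l 537341455)) (a (l 536755471) (l 536744719))) (b (a (l 537026575) (l 537017359)) (a (l 537308175) (l 537030671)))) (a (a (b (l 537340943) (l 4)) (b (c (l 537358351) (l 536767503)) (c (a (l 537372431) (l 537368079)) (l 536783375)))) (b (c (l 537345807) (l 536751887)) (c (l 537357839) (l 536768015))))) (b (a (b (l 537003791) (l 537017103)) (l 536993807)) (b (a (l 537030927) (l 537013775)) (a (l 537045007) (l 537028111))))))), by decide +kernel⟩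

def k37_A00pm_213_s3 : ∃ t, chk3 f_A00pm_213_s3 t 25 121 3 = true :=
  ⟨(a (b (c (a (a (l 4) (b (c (a (l 536038927) (l 536158991)) (a (l 535579407) (l 535562767))) (l 4))) (a (b (c (l 536137999) (l 535538447)) (c (l 536037647) (l 535310351))) (b (l 535942671) (a (l 535986959) (l 535838223))))) (a (b (a (l 4) (c (a (l 534987791) (l 534968847)) (l 534656783))) (l 4)) (a (b (c (l 534940943) (l 534345487)) (c (l 534987023) (l 534397455))) (b (l 534469391) (c (l 534950415) (l 534355727)))))) (a (l 4) (a (l 4) (b (b (c (l 536008975) (l 534691599)) (c (l 536046095) (l 534986767))) (l 4))))) (b (a (c (a (b (l 535779599) (a (l 535823887) (l 535809807))) (b (l 535751695) (a (l 535795983) (l 535782415)))) (a (b (l 534564879) (c (l 534914575) (l 534314511))) (b (l 534526991) (l 534509583)))) (c (b (a (l 535724559) (l 535698191)) (a (l 535762191) (l 535736335))) (b (a (l 534489871) (l 534453519)) (a (l 534539791) (l 534503951))))) (a (c (b (a (a (l 535863567) (a (l 535853071) (l 535846159))) (b (l 535818511) (a (l 535845903)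 (l 535832335)))) (a (a (b (l 535894543) (l 4)) (b (a (l 535884047) (l 535944207)) (c (l 536196111) (l 535608591)))) (b (c (l 536157455) (l 535562767)) (l 535949071)))) (b (a (c (l 535165455) (l 534370063)) (c (l 534929167) (l 534329871))) (a (a (b (l 534717455) (l 4)) (b (a (l 534703119) (l 534693903)) (c (l 535020815) (l 534433295)))) (b (c (l 534968079) (l 534373391)) (l 534699279))))) (c (b (a (l 535802383) (l 535776527)) (b (l 535954959) (l 535842575))) (b (a (l 534592783) (l 534556943)) (b (l 534347791) (l 534376719))))))), by decide +kernel⟩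

def k38_A00pm_213_s3 : ∃ t, chk3 f_A00pm_213_s3 t 12 61 1 = true :=
  ⟨(a (l 4) (b (c (a (l 4) (b (c (a (b (a (l 4) (c (b (l 538269455) (c (l 538417935) (l 538397455))) (b (l 537954831) (l 537963279)))) (l 4)) (c (b (a (b (l 538260751) (l 538265103)) (l 538255887)) (a (a (b (l 538271503) (l 4)) (c (l 538414095) (l 538395151))) (b (l 538262031) (a (l 538268687) (l 538265103))))) (b (a (l 537947663) (l 537936399)) (a (b (l 537960463) (a (l 4) (l 537966863))) (b (l 537949455) (l 537958927)))))) (a (a (l 4) (b (c (l 537377295) (l 536525071)) (l 4))) (b (a (b (l 537059855) (l 537074703)) (b (l 537042703) (l 537058063))) (c (a (b (l 537380879) (l 537394703)) (l 537373711)) (a (b (l 536799503) (l 536817679)) (l 536521743)))))) (a (l 4) (a (l 4) (a (l 4) (b (b (c (c (l 538136079) (l 537966095)) (l 537370639)) (l 4)) (l 4))))))) (a (l 4) (b (a (a (l 4) (b (c (l 536050191) (l 534475535)) (l 4))) (c (b (a (l 535889679) (l 535864079)) (a (b (l 535924495) (l 536015887)) (b (l 535899151) (l 535923471)))) (a (b (l 534707727)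 (b (l 534753807) (l 534785807))) (b (l 534672399) (l 534600719))))) (b (a (l 4) (a (l 4) (b (c (l 536015887) (l 534783759)) (l 4)))) (l 4))))) (l 4))), by decide +kernel⟩

def k39_A00pm_213_s3 : ∃ t, chk3 f_A00pm_213_s3 t 26 120 1 = true :=
  ⟨(a (c (b (c (a (c (l 16778768) (l 16773880)) (l 16777832)) (a (l 535775503) (l 16766264))) (c (a (c (l 538483983) (l 537846031)) (c (l 16778424) (l 16773712))) (a (b (l 16766768) (l 536896783)) (l 536052751)))) (b (a (c (b (l 16766688) (l 16767872)) (b (l 16756448) (l 16758648))) (c (l 535497999) (l 534177551))) (a (c (b (l 16769032) (l 535624975)) (b (l 534308111) (l 534353167))) (c (l 535293199) (l 533994767))))) (c (b (a (c (l 16768792) (l 16776408)) (b (l 16762744) (l 16741488))) (a (c (l 16777536) (l 16766384)) (c (l 16789368) (l 16776576)))) (b (a (b (l 16734368) (l 16741512)) (c (l 16760872) (l 16745656))) (a (c (l 535519503) (l 534202383)) (c (l 16763680) (l 16750704)))))), by decide +kernel⟩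

def k40_A00pm_213_s3 : ∃ t, chk3 f_A00pm_213_s3 t 26 121 1 = true :=
  ⟨(a (c (b (a (c (c (b (l 16779976) (l 538492943)) (b (l 16776880) (l 537874447))) (b (l 536919567) (l 536943887))) (c (b (l 16774744) (l 537901583)) (b (l 536890127) (l 536914959)))) (c (a (b (a (l 537661199) (l 537921807)) (a (l 537404175) (l 537665039))) (b (a (l 538183439) (l 16778568)) (a (l 537658383) (l 537921295)))) (a (b (a (l 536977423) (l 536962063)) (a (l 537005327) (l 536990223))) (b (l 536941327) (a (l 536975887) (l 536962831)))))) (b (a (c (b (l 535660815) (l 535698959)) (b (l 534400783) (l 534451471))) (c (b (l 535613967) (l 535652367)) (b (l 534333455) (l 534384655)))) (a (b (c (l 535739407) (l 534504975)) (c (a (l 535794191) (l 535770383)) (a (l 534578447) (l 534544655)))) (c (b (l 535693327) (a (l 535747343) (l 535725583))) (b (l 534438671) (l 534495503)))))) (c (b (a (c (c (l 16778032) (l 16773544)) (b (l 16777168) (l 16777344))) (c (l 16777160) (l 16766568))) (a (c (b (l 537831695) (c (l 16780408) (l 16777208))) (b (l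 536915727) (c (l 16779224) (l 16775984)))) (c (b (l 16775856) (l 16774976)) (b (l 16777360) (l 536650767))))) (a (b (c (b (l 16767552) (l 16768776)) (b (l 16757888) (l 16760152))) (c (b (l 535652879) (l 535696911)) (b (l 534380815) (l 534438927)))) (b (c (b (l 16765704) (l 16767016)) (b (l 16754376) (l 16756768))) (b (c (l 16768280) (l 16759112)) (c (l 535668239) (l 534403855))))))), by decide +kernel⟩

def k41_A00pm_213_s3 : ∃ t, chk3 f_A00pm_213_s3 t 27 120 2 = true :=
  ⟨(b (c (b (c (a (l 16797880) (a (a (l 16799720) (l 16789976)) (a (b (a (l 16801312) (c (l 16804424) (l 16798992))) (l 16800912)) (a (c (b (c (l 16805504) (l 16802784)) (a (l 16804064) (l 16804016))) (b (a (l 16798976) (l 16798592)) (a (l 16798720) (l 16798664)))) (l 16800552))))) (a (l 16788880) (a (l 16789976) (a (b (a (l 16790568) (l 16790792)) (l 16790400)) (a (b (a (b (l 16790720) (l 16790800)) (l 16790408)) (a (l 16790664) (l 16790592))) (l 16789904)))))) (a (l 16776800) (a (a (l 16772936) (l 16783984)) (c (a (l 16800040) (a (c (l 16803168)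 (l 16798048)) (b (c (l 16803320) (l 16798104)) (c (l 16803184) (l 16798064))))) (a (l 16790008) (a (l 16790312) (b (l 16790232) (l 16790344)))))))) (a (c (l 16779848) (l 16771056)) (c (a (l 16779808) (b (a (b (a (l 16779744) (l 16779776)) (l 16779808)) (a (b (a (b (l 16779592) (l 16779752)) (l 16779416)) (a (l 16779832) (l 16779736))) (l 16779152))) (a (l 16779880) (a (l 16779920) (b (l 16779656) (l 16779968)))))) (a (b (l 16769496) (l 16770208)) (a (b (c (l 16771688) (l 16766240)) (l 16769680)) (b (a (b (b (l 16768264) (l 16768504)) (a (l 16768920) (l 16768792))) (l 16768304)) (a (l 16769440) (b (l 16768976) (l 16769496))))))))) (a (c (a (l 16790616) (l 16770824)) (l 16755160)) (c (a (b (l 16772384) (l 16771544)) (a (c (l 16787800) (l 16789200)) (b (c (l 16799616) (l 16789872)) (l 16783432)))) (a (l 16775624) (b (c (l 16780016) (l 16770264)) (l 16775560)))))), by decide +kernel⟩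

def k42_A00pm_213_s3 : ∃ t, chk3 f_A00pm_213_s3 t 27 121 2 = true :=
  ⟨(a (b (a (c (l 16767936) (l 16776824)) (c (l 16790096) (l 16776584))) (a (c (b (l 16787624) (l 16765776)) (b (l 16777200) (l 16777416))) (c (l 16767408) (l 16766664)))) (a (b (c (l 16770272) (l 16776352)) (c (l 16789568) (l 16777008))) (b (c (b (l 16771840) (l 16771008)) (b (l 16775968) (l 16776352))) (c (l 16769784) (l 16776896))))), by decide +kernel⟩

def k43_A00pm_213_s3 : ∃ t, chk3 f_A00pm_213_s3 t 27 60 3 = true :=
  ⟨(c (b (a (b (a (l 16758784) (l 16756752)) (l 16739864)) (a (b (c (l 16754592) (l 16744504)) (l 16758048)) (b (a (b (b (c (l 16757696) (l 16746536)) (l 16752952)) (l 16754224)) (b (a (b (a (c (l 16757240) (l 16745904)) (l 16751536)) (a (l 16752384) (c (l 16757760) (l 16746640)))) (l 16749232)) (a (l 16753552) (b (b (l 16752608) (l 16750352)) (a (l 16753648) (l 16753488)))))) (a (l 16756736) (b (l 16755048) (l 16756736)))))) (a (a (b (l 16764592) (b (l 16766632) (l 16767944))) (b (l 16762864) (l 16765736))) (b (c (l 16764432)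 (l 16756432)) (a (l 16764208) (l 16762744))))) (b (a (a (b (l 16741832) (l 16747104)) (b (l 16738112) (l 16743616))) (b (a (b (l 16733064) (l 16735952)) (a (b (a (l 16730840) (c (l 16735584) (l 16724352))) (l 16733368)) (b (a (b (c (l 16734520) (l 16723080)) (a (l 16730072) (l 16732440))) (l 16729616)) (a (c (l 16737488) (l 16726696)) (b (a (l 16730888) (l 16730936)) (a (l 16732232) (l 16731968))))))) (a (l 16740240) (a (l 16737784) (b (l 16729448) (l 16737648)))))) (a (a (b (l 16752224) (b (l 16755936) (l 16758344))) (b (l 16748968) (b (l 16752864) (l 16755392)))) (a (b (l 16745824) (l 16751200)) (b (a (l 16743512) (l 16742008)) (l 16748320)))))), by decide +kernel⟩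

def k44_A00pm_213_s3 : ∃ t, chk3 f_A00pm_213_s3 t 52 122 2 = true :=
  ⟨(b (b (a (c (a (c (l 538249231) (l 537926415)) (l 537409551)) (a (l 537035023) (l 537019919))) (c (a (l 537671695) (l 537666063)) (a (l 537005839) (l 536993039)))) (a (c (a (c (b (l 538255631) (l 538260495)) (l 537944847)) (c (l 538253071) (l 537935887))) (a (b (l 537057807) (l 537073935)) (b (l 537042959) (l 537059343)))) (c (a (c (l 538248719) (l 537927695)) (c (l 538245135) (l 537920783))) (a (l 537037839) (l 537025039))))) (c (a (b (c (a (b (c (l 538677519) (l 538390543)) (a (c (l 538682895) (l 538398735)) (l 538269711))) (b (l 538260239) (l 538131727))) (a (b (l 537958927) (a (l 537971471) (l 537966607))) (b (l 537949967) (l 537960207)))) (c (a (a (l 4) (b (b (l 538273807) (l 4)) (l 4))) (c (b (l 538413327) (a (l 538486287) (l 538685711))) (b (l 538398223) (a (l 538406671) (l 538404111))))) (a (b (a (l 4) (l 537977359)) (l 4)) (b (a (l 537973007) (l 537968911)) (a (l 538051087) (l 537979919)))))) (a (c (b (l 537990927) (b (l 537999119)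 (a (l 538274319) (l 538272527)))) (b (l 537947919) (b (l 537963279) (l 538024719)))) (c (b (l 537987599) (a (l 538000143) (l 538267151))) (b (l 537941007) (a (l 537964047) (l 537960975)))))) (a (b (c (a (b (l 537380879) (l 537395727)) (l 537376015)) (a (b (l 536800015) (l 536819471)) (l 536659215))) (a (b (a (l 4) (b (l 537385487) (l 4))) (l 4)) (c (b (l 537398543) (a (l 537417231) (l 537411343))) (b (l 536822799) (a (l 536847375) (l 536839183)))))) (b (a (b (l 537062159) (l 537079567)) (b (l 537049615) (l 537067023))) (c (a (b (l 537387023) (l 537402895)) (a (l 537387279) (l 537382415))) (a (b (l 536807183) (l 536827919)) (b (l 536792591) (l 536544783)))))))), by decide +kernel⟩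

def k45_A00pm_213_s3 : ∃ t, chk3 f_A00pm_213_s3 t 52 122 3 = true :=
  ⟨(c (b (a (b (a (l 535839503) (l 535815695)) (a (l 536021519) (l 535863823))) (b (a (l 535793167) (l 535771407)) (a (l 535841295) (l 535819791)))) (a (b (a (b (l 535924495) (l 536017423)) (b (l 535900943) (l 535927055))) (a (b (a (l 4) (l 535970831)) (l 4)) (b (l 536003855) (a (l 535986703) (l 535975183))))) (b (a (b (l 535878671) (l 535904527)) (b (l 535857167) (l 535883279))) (a (b (l 535931407) (a (l 535964175) (l 535953423))) (a (l 535929359) (l 535919119)))))) (b (a (b (a (l 534637839) (l 534604303)) (a (l 534432271) (l 534398991))) (b (a (l 534571535) (l 534539791)) (a (l 534634767) (l 534603279)))) (a (b (a (b (l 534749711) (l 534515215)) (b (l 534716431) (l 534750479))) (a (b (a (l 4) (l 534810127)) (l 4)) (b (l 534517007) (a (l 534829327) (l 534813199))))) (b (a (l 534500111) (l 534536207)) (a (b (l 534753551) (l 534554639)) (a (l 534479887) (l 534531855))))))), by decide +kernel⟩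

def k46_A00pm_213_s3 : ∃ t, chk3 f_A00pm_213_s3 t 53 122 1 = true :=
  ⟨(c (b (a (c (a (b (l 537659407) (c (l 538239503) (l 537912591))) (c (l 538360079) (l 537625359))) (b (a (l 536980495) (l 536967439)) (a (l 537012495) (l 536999439)))) (c (c (b (l 16775784) (l 538472719)) (b (l 16772360) (l 537611023))) (b (c (l 16779400) (l 16775928)) (a (l 536986639) (l 536974351))))) (a (c (b (c (a (l 538249743) (l 538235663)) (a (l 537932303) (l 537918991))) (a (c (b (l 538256911) (l 538262031)) (b (l 537947151) (l 537957647))) (c (l 537974287) (l 537937423)))) (b (a (b (l 537037071) (l 537054479)) (l 537066511)) (a (c (l 537373455) (l 536521231)) (b (l 537058575) (l 537076495))))) (c (b (a (c (l 538486543) (l 537903375)) (l 537641487)) (a (c (l 538222863) (l 537920271)) (l 537384463))) (b (a (l 537019919) (l 537007119)) (a (b (l 537045007) (l 537062671)) (l 537042191)))))) (a (b (c (b (a (l 535751695) (l 535735567)) (a (l 535800335) (l 535784975))) (b (a (l 534511631) (l 534490895)) (a (l 534575887) (l 534557199))))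 (c (b (a (l 535852047) (l 535837711)) (a (b (l 535891983) (l 535920143)) (b (l 535878927) (l 535908111)))) (b (a (l 534375695) (l 534359311)) (a (a (l 534452495) (l 534444047)) (b (l 534683663) (l 534723855)))))) (b (c (b (l 535582223) (a (l 535772687) (l 535762191))) (b (l 534318095) (a (l 534543631) (l 534533903)))) (c (b (a (l 535826447) (l 535817231)) (a (l 535884047) (l 535874831))) (b (a (l 534348815) (l 534609935)) (a (l 534428431) (l 534420751))))))), by decide +kernel⟩

def k47_A00pm_213_s3 : ∃ t, chk3 f_A00pm_213_s3 t 52 123 2 = true :=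
  ⟨(b (c (a (a (l 4) (a (l 4) (a (l 4) (b (b (b (c (l 538146319) (l 537987087)) (l 4)) (l 4)) (l 4))))) (b (a (a (b (c (c (l 538689039) (l 538409231)) (l 537987599)) (l 4)) (c (b (c (l 538687759) (l 538406927)) (c (l 538424591) (l 538414863))) (b (l 537984015) (b (l 537992463) (l 537998607))))) (c (a (b (l 538277391) (c (l 538692111) (l 538413071))) (b (l 538276111) (a (l 538283279) (l 538281999)))) (b (a (l 537980687) (l 537977615)) (a (l 537992463) (a (l 537990159) (l 537988367)))))) (a (l 4) (a (b (c (c (b (l 538695951) (l 538698767)) (l 538421263)) (b (l 538001423) (l 538074895))) (l 4)) (c (b (a (c (l 538696975) (l 538419983)) (c (l 538427151) (l 538418447))) (a (b (c (l 538433295) (l 538426895)) (l 4)) (c (l 538700559) (l 538426127)))) (b (b (l 538031887) (a (l 538005263) (l 538003215))) (a (b (l 538045711) (l 4)) (l 538079503)))))))) (a (a (l 4) (b (b (a (l 4) (b (c (l 537423375) (l 536854799)) (l 4))) (l 4)) (l 4))) (b (c (a (b (a (l 537421839) (l 537416463)) (a (l 4) (l 537433359))) (a (b (l 537411343)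 (l 537428239)) (b (l 537406223) (l 537423119)))) (a (b (a (l 536852751) (l 536845327)) (a (l 4) (l 536867087))) (a (b (l 536837903) (l 536859919)) (b (l 536830991) (l 536584463))))) (a (l 4) (a (b (b (c (l 537441039) (l 536876303)) (c (l 537449743) (l 536887823))) (l 4)) (b (c (a (l 537307663) (l 537304847)) (b (l 536869391) (l 536712975))) (a (b (c (l 537455375) (l 536894223)) (l 4)) (c (l 537456655) (l 536896527))))))))) (l 4)), by decide +kernel⟩

def k48_A00pm_213_s3 : ∃ t, chk3 f_A00pm_213_s3 t 52 123 3 = true :=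
  ⟨(c (b (a (b (a (l 4) (b (a (l 4) (b (l 535996175) (l 4))) (l 4))) (l 4)) (a (b (b (a (l 535992335) (l 535981583)) (a (l 4) (b (l 536003087) (l 536017679)))) (l 4)) (b (a (b (l 535971087) (l 535932943)) (b (l 535960847) (b (l 535848463) (l 535997199)))) (b (a (b (l 536022031) (b (l 536033295) (l 4))) (a (b (l 536014351) (l 535962383)) (b (l 536009999) (l 535957775)))) (a (l 4) (b (a (c (l 536328719) (l 535759375)) (l 536040719)) (l 4))))))) (l 4)) (b (a (b (a (l 4) (b (a (l 4) (c (l 535139599) (l 534560015))) (l 4))) (l 4)) (b (a (b (a (l 534834191) (l 534818575)) (a (l 4) (l 534990863))) (a (b (l 534803215) (l 534841103)) (b (l 534788111) (a (l 534829839) (l 534822927))))) (a (l 4) (b (a (c (l 535169039) (l 534590479)) (a (c (l 535158543) (l 534578191)) (b (l 534852623) (l 535006479)))) (a (l 4) (b (a (c (l 535186191) (l 534609167)) (l 534893839)) (l 4))))))) (l 4))), by decide +kernel⟩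

def k49_A00pm_213_s3 : ∃ t, chk3 f_A00pm_213_s3 t 53 246 2 = true :=
  ⟨(c (a (b (a (c (a (b (l 538539535) (c (l 538687247) (l 538407183))) (b (l 538530575) (l 538265103))) (b (a (l 537971983) (l 537963791)) (a (l 537984783) (l 537973263)))) (c (b (l 538246159) (l 538249487)) (b (l 537950223) (l 537959951)))) (a (c (b (a (b (l 538278415) (l 538144015)) (l 538269199)) (a (c (l 538424335) (l 538418959)) (c (l 538682639) (l 538409487)))) (b (a (b (l 537989903) (l 537993487)) (l 537983503)) (a (b (l 538001935) (l 538009103)) (l 537997071)))) (b (c (c (l 538660879) (l 538385935)) (l 537971215)) (a (c (l 538268687) (l 537988879)) (c (l 538528271) (l 537981199)))))) (b (c (a (l 537961743) (l 538214159)) (a (l 537939471) (l 537925647))) (c (a (b (l 538238479) (l 537979663)) (a (l 538233103) (l 538226447))) (a (b (l 537956367) (l 537970447)) (b (l 537943311) (l 537957647)))))) (a (b (a (a (b (l 537112591) (a (l 537267727) (l 537129743))) (b (l 537105423) (l 537124111))) (b (l 537161743) (a (l 537116943) (l 537110031))))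 (c (a (b (a (l 537297935) (l 537424655)) (a (l 537383695) (l 537443087))) (b (l 537413903) (l 537432591))) (a (b (a (l 536868111) (l 536861199)) (a (l 536891407) (l 536884495))) (b (l 536583183) (l 536707087))))) (b (a (b (l 537081103) (l 537100559)) (b (l 537069327) (l 537088783))) (c (a (b (l 537400335) (l 537150991)) (l 537382159)) (a (b (l 536839439) (l 536862991)) (l 536706831)))))), by decide +kernel⟩

def k50_A00pm_213_s3 : ∃ t, chk3 f_A00pm_213_s3 t 53 247 4 = true :=
  ⟨(a (b (c (a (a (a (l 4) (b (c (l 538430479) (l 538427663)) (l 4))) (b (c (l 538490383) (l 538420751)) (a (l 4) (a (l 4) (l 4))))) (b (a (c (l 538682383) (l 538411791)) (l 538136079)) (c (a (c (l 538758671) (l 538625039)) (l 538683151)) (a (l 538423823) (l 538415631))))) (a (b (a (b (l 538016527) (l 4)) (b (l 538007823) (l 538015503))) (a (l 4) (b (l 538056719) (l 4)))) (b (a (l 538003727) (l 537996047)) (a (b (l 538015247) (l 538022927)) (l 538011663))))) (b (a (l 4) (a (l 4) (c (c (c (l 538759695) (l 538627343)) (l 538428431)) (b (l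 538023439) (l 538031887))))) (l 4))) (b (c (a (b (a (l 538262031) (l 538522895)) (a (c (l 538674959) (l 538407951)) (l 538265615))) (a (b (l 538515983) (l 538527247)) (l 537979407))) (a (b (a (l 537988879) (l 537982223)) (a (l 538004495) (l 537997839))) (b (l 537973007) (l 537988879)))) (a (b (c (a (c (l 538685455) (l 538420751)) (c (l 538677775) (l 538413583))) (a (l 538054415) (l 538014223))) (c (c (a (c (l 538761743) (l 538630927)) (l 538689039)) (a (l 538434063) (l 538426895))) (a (b (l 538033167) (l 4)) (b (l 538026511) (l 538035215))))) (a (c (b (l 538270479) (c (l 538682127) (l 538420495))) (b (l 538008079) (l 538025231))) (c (b (l 538532623) (l 538276879)) (b (l 538002447) (l 538019343))))))), by decide +kernel⟩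

def k51_A00pm_213_s3 : ∃ t, chk3 f_A00pm_213_s3 t 53 247 5 = true :=
  ⟨(a (b (c (a (b (a (b (l 537465103) (l 4)) (l 537395471)) (a (l 4) (b (l 537477391) (l 4)))) (b (a (l 537455375) (l 537448463)) (a (b (l 537469967) (l 537480207)) (l 537334287)))) (a (b (a (b (l 536909071) (l 4)) (b (l 536902159) (l 536914191))) (a (l 4) (b (l 536926479) (l 4)))) (b (a (l 536901903) (l 536895759)) (a (b (l 536920079) (l 536932367)) (l 536920335))))) (a (l 4) (b (a (l 4) (b (c (l 537483791) (l 536939023)) (c (l 537494287) (l 536951823)))) (l 4)))) (b (c (a (b (l 537304847) (a (l 537462031) (l 537456143))) (a (l 537306895) (l 537167119))) (a (b (l 536618511) (a (l 536914447) (l 536908815))) (a (l 536623375) (l 536618255)))) (b (c (a (a (l 537348879) (l 537476879)) (a (l 537471247) (l 537465871))) (a (a (l 536939791) (l 536934159)) (a (l 536928783) (l 536923919)))) (a (a (b (c (l 537498639) (l 536958735)) (l 4)) (c (l 537431311) (l 536725263))) (a (b (l 537218319) (l 537297423)) (b (l 537213199) (l 537225231))))))), by decide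 +kernel⟩

def k52_A00pm_213_s3 : ∃ t, chk3 f_A00pm_213_s3 t 53 123 6 = true :=
  ⟨(b (a (b (a (b (a (l 535952399) (l 535945999)) (a (l 535997967) (l 535976719))) (b (l 535938319) (l 535969039))) (a (b (a (b (l 536005647) (l 536022287)) (l 535873807)) (a (c (l 536327439) (l 535759375)) (b (l 536030479) (l 536045583)))) (b (a (l 536002319) (l 535996687)) (a (l 535898127) (l 536026895))))) (b (a (b (l 535928335) (l 535958543)) (a (l 535936527) (l 535931663))) (a (b (l 535988751) (l 536018959)) (b (l 535710223) (l 535740431))))) (a (b (a (b (a (b (c (l 536348431) (l 535783695)) (l 4)) (c (l 536416783) (l 535786255))) (a (l 4) (b (c (l 536370959) (l 535811087)) (l 4)))) (b (a (b (l 536055055) (l 536070415)) (l 535990287)) (a (b (c (l 536365071) (l 535805711)) (c (l 536379919) (l 535822351))) (b (l 536080399) (l 535961871))))) (a (l 4) (b (a (l 4) (b (c (l 536388879) (l 535834127)) (c (l 536403983) (l 535851279)))) (l 4)))) (b (a (b (a (l 536051983) (l 536046863)) (a (b (l 536075023) (l 536090895)) (l 535943951)))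 (b (l 535972367) (a (l 536073231) (l 536068367)))) (a (b (a (b (l 536106767) (l 536022287)) (b (l 536101647) (l 536117775))) (a (b (c (l 536413711) (l 535863567)) (l 4)) (b (l 536134159) (l 536049935)))) (b (a (l 535970831) (l 536100367)) (a (b (l 536129295) (l 536145679)) (l 535998735))))))), by decide +kernel⟩

def k53_A00pm_213_s3 : ∃ t, chk3 f_A00pm_213_s3 t 53 123 7 = true :=
  ⟨(b (a (b (a (a (b (l 534777103) (a (l 534818831) (l 534816015))) (b (l 534770959) (l 534813199))) (b (l 534497039) (l 534538767))) (a (b (a (b (l 534849295) (l 534872847)) (l 534855439)) (a (b (l 534889999) (l 534909199)) (b (l 534884879) (l 534904079)))) (b (a (l 534850831) (l 534845967)) (a (l 534889487) (l 534884623))))) (b (a (b (l 534757647) (l 534798351)) (b (l 534748943) (l 534789135))) (a (b (l 534569999) (a (l 534879503) (l 534874639))) (a (l 534582287) (l 534577423))))) (a (b (a (b (a (b (l 535062799) (l 4)) (b (l 534923535) (l 534943247))) (a (l 4) (b (a (l 4) (l 4)) (l 4)))) (b (a (b (l 534918415) (l 534938127)) (l 534990607))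 (a (b (l 534957839) (l 535111951)) (b (l 534952975) (l 534972943))))) (a (l 4) (b (a (l 4) (b (l 534992911) (a (l 4) (l 535012111)))) (l 4)))) (b (a (b (a (l 534918415) (l 534913551)) (a (b (l 534947855) (l 534967823)) (l 534953231))) (a (b (l 534908431) (l 534948111)) (b (l 534903567) (l 534943247)))) (a (b (a (b (l 534988047) (l 535008527)) (b (l 534983183) (l 535003407))) (a (b (l 535163151) (l 4)) (b (l 535024143) (l 535044879)))) (a (b (l 535055631) (b (l 535019279) (l 535040015))) (b (l 534983695) (b (l 535014159) (l 535035151)))))))), by decide +kernel⟩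

def k54_A00pm_213_s3 : ∃ t, chk3 f_A00pm_213_s3 t 27 122 1 = true :=
  ⟨(a (c (a (b (c (b (l 16775376) (c (l 16776264) (l 16783176))) (a (b (l 16777608) (l 16777744)) (l 536402191))) (c (b (c (l 16780344) (l 16777280)) (a (l 537638927) (l 537627407))) (b (a (l 536995855) (l 16772616)) (a (l 537031439) (l 537021967))))) (b (c (b (l 16766128) (l 16775744)) (b (l 16777512) (l 16777720))) (c (b (c (l 16787200) (l 16783504)) (c (l 16780840) (l 16777640))) (b (c (l 16779768) (l 16775992)) (c (l 16779648) (l 16776376)))))) (a (a (b (b (l 535079439) (c (l 16770744) (l 16763640))) (b (b (l 535190799) (l 535224335)) (c (l 535866127) (l 534412815)))) (b (b (l 535072271) (l 535135247)) (b (c (l 16771216) (l 16764472)) (b (l 535249935) (l 535283983))))) (b (b (c (l 16767760) (l 16757848)) (c (l 16769040) (l 16760224))) (b (a (c (l 16770568) (l 16763144)) (c (l 16769928) (l 16761832))) (a (b (l 535241999) (l 535275791)) (c (l 16771096) (l 16764032))))))) (c (a (b (c (l 16777400) (l 16767080)) (c (b (l 16776160) (l 16775320))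 (b (l 16777912) (c (l 16780040) (l 16776144))))) (b (c (l 16768176) (l 16777552)) (c (a (l 16776696) (l 16766880)) (b (l 16777968) (l 16778200))))) (a (b (b (c (l 16766344) (l 16755048)) (c (l 16767696) (l 16757512))) (b (c (l 16768984) (l 16759880)) (a (c (l 16770496) (l 16762768)) (c (l 16769904) (l 16761520))))) (b (c (l 16765688) (l 16753576)) (b (c (l 16767744) (l 16757296)) (c (l 16769040) (l 16759672))))))), by decide +kernel⟩

def k55_A00pm_213_s3 : ∃ t, chk3 f_A00pm_213_s3 t 54 123 2 = true :=
  ⟨(a (b (c (b (a (c (l 538200847) (l 537913615)) (l 537376527)) (c (a (l 537949199) (l 538207759)) (a (l 537940495) (l 537931279)))) (b (a (b (l 537058831) (l 537078543)) (l 537060623)) (a (b (l 537099023) (l 537120527)) (b (l 537090319) (l 537112079))))) (c (b (a (c (a (l 538241807) (l 538236431)) (b (l 537961999) (l 537978127))) (b (l 537417487) (a (l 537701903) (l 537966351)))) (a (c (b (l 537987599) (c (l 538398991) (l 538406415))) (b (l 537994767) (a (l 538014223) (l 538009615)))) (c (b (l 538246671) (l 537991183))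 (a (l 537997583) (l 537993743))))) (b (a (b (l 537142543) (a (l 537167631) (l 537163023))) (b (l 537134095) (l 537157135))) (a (b (a (l 537190927) (l 537186319)) (a (l 537214735) (l 537210383))) (b (a (l 537182223) (l 537178639)) (a (l 537206287) (l 537202703))))))) (b (c (b (a (l 537636623) (l 537630479)) (a (c (l 538199823) (l 537923855)) (l 537385999))) (b (a (l 537052943) (l 537047055)) (a (b (l 537083151) (l 537104911)) (l 537089039)))) (c (b (a (c (l 537954063) (l 537955343)) (c (l 538217231) (l 537950223))) (a (c (b (l 538508047) (l 538252559)) (b (l 537979151) (l 537996815))) (c (l 537974287) (l 537716239)))) (b (a (b (l 537127183) (l 537149967)) (b (l 537121551) (l 537144591))) (a (b (l 537173775) (a (l 537199375) (l 537196303))) (b (l 537168143) (l 537192719))))))), by decide +kernel⟩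

def k56_A00pm_213_s3 : ∃ t, chk3 f_A00pm_213_s3 t 54 123 3 = true :=
  ⟨(b (a (c (b (a (l 535925007) (l 535916559)) (a (a (l 535987215) (l 535982607)) (b (l 535960591) (l 535990799)))) (b (a (l 534491919) (l 534482703)) (a (b (l 534818575) (l 534857231)) (b (l 534808847) (l 534847503))))) (c (b (a (l 535908623) (l 535901199)) (a (l 535968527) (l 535961359))) (b (a (l 534473231) (l 534463759)) (a (l 534550543) (l 534541071))))) (a (c (b (a (b (l 535761679) (l 535927311)) (b (l 535753231) (l 535784719))) (a (b (a (l 536095759) (l 536091407)) (a (l 535859983) (l 536124175))) (b (l 536018191) (a (l 536119823) (l 536115983))))) (b (a (a (b (l 534898703) (l 534938383)) (l 534645775)) (a (l 534640911) (b (l 534884111) (l 534923791)))) (a (a (b (l 534978831) (l 535020047)) (b (l 534973967) (l 535015183))) (a (b (l 534969103) (l 535010319)) (b (l 534964239) (l 535005455)))))) (c (b (a (a (l 535763471) (l 535759887)) (b (l 536006671) (l 536038159))) (a (b (l 535809039) (l 535976207)) (b (l 535802127) (l 535834895))))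 (b (a (b (l 534876943) (l 534916623)) (b (l 534867215) (l 534907151))) (a (b (a (l 534959631) (l 534954767)) (a (l 535000847) (l 534995983))) (b (l 534947599) (a (l 534991119) (l 534986511)))))))), by decide +kernel⟩

def k57_A00pm_213_s3 : ∃ t, chk3 f_A00pm_213_s3 t 55 123 1 = true :=
  ⟨(c (b (a (c (b (c (l 16776120) (l 16783288)) (c (l 16780264) (l 16777416))) (b (c (l 16779928) (l 16776528)) (a (l 537084687) (l 16773120)))) (c (b (l 16775824) (a (l 16774616) (l 16775312))) (b (l 16778384) (a (l 16778464) (l 16778568))))) (a (c (b (a (b (l 16777824) (l 537953295)) (c (l 16779544) (l 16782264))) (a (c (l 537971983) (l 537981711)) (b (l 16777608) (l 537715215)))) (b (a (b (l 16778296) (l 537140495)) (l 536993039)) (a (b (l 537164303) (l 537188879)) (b (l 16775792) (l 537186319))))) (c (c (b (l 16780824) (a (l 16779248) (l 16785344))) (b (l 16777872) (a (l 16776904) (l 16782720)))) (b (c (l 16780128) (l 16777096)) (a (c (l 16779760) (l 16772104)) (c (l 16780056) (l 16777352))))))) (b (a (b (a (c (l 16771624)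 (l 16764920)) (c (l 16771072) (l 16763720))) (a (c (l 535954959) (l 534531343)) (c (l 16772160) (l 534521871)))) (b (c (l 16770264) (l 16761944)) (a (c (l 16771648) (l 16764672)) (c (l 16771144) (l 16763536))))) (c (a (b (a (l 535882767) (l 536011535)) (a (a (l 535814671) (l 535811599)) (b (l 16773864) (l 536091919)))) (b (a (l 536006671) (l 16772232)) (a (b (l 16773424) (l 16773888)) (b (l 16772992) (l 16773472))))) (a (b (a (l 534609935) (l 534600463)) (a (b (l 534938127) (b (l 16770912) (l 534989583))) (b (l 16769200) (l 534970127)))) (b (a (l 534591247) (l 16765624)) (a (b (l 16765536) (l 534960655)) (b (l 16767120) (l 16765464)))))))), by decide +kernel⟩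

def k58_A00pm_213_s3 : ∃ t, chk3 f_A00pm_213_s3 t 12 31 1 = true :=
  ⟨(l 4), by decide +kernel⟩

def k59_A00pm_213_s3 : ∃ t, chk3 f_A00pm_213_s3 t 26 62 1 = true :=
  ⟨(b (a (l 4) (b (c (a (l 4) (b (c (b (a (a (l 4) (a (l 4) (b (c (l 538565647) (l 538042383)) (l 4)))) (c (a (c (l 538693903) (l 538434575)) (c (l 538687759) (l 538428687))) (a (b (l 538038031) (l 538046991)) (l 538037263)))) (a (l 4) (a (l 4) (c (c (l 538700303) (l 538443535)) (l 538055695))))) (a (a (l 4) (a (l 4) (b (b (l 537313807) (l 4)) (l 4)))) (b (a (c (l 537447951) (l 536746767)) (b (l 537237519) (l 537317135))) (a (l 4) (c (l 537398799) (l 536769295)))))) (l 4))) (a (l 4) (b (a (b (b (a (l 4) (a (l 4) (c (l 536165903) (l 535064335)))) (l 4)) (l 4)) (b (c (a (b (l 536162319) (c (l 536450319) (l 535906831))) (a (l 536033295) (l 536030991))) (a (b (l 535060751) (l 535081999)) (b (l 535055887) (l 535077135)))) (a (l 4) (c (b (l 536191759) (l 536091407)) (b (l 535098639) (l 535120143)))))) (l 4)))) (l 4))) (l 4)), by decide +kernel⟩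

def k60_A00pm_213_s3 : ∃ t, chk3 f_A00pm_213_s3 t 54 248 2 = true :=
  ⟨(a (c (b (a (b (c (a (l 538284303) (l 538547727)) (a (l 538032143) (l 538027535))) (c (a (c (l 538694671) (l 538438159)) (l 538293263)) (a (l 538050575) (l 538045967)))) (b (a (c (l 538543375) (l 538023183)) (c (l 538539535) (l 538019599))) (a (c (l 538557455) (l 538041871)) (c (l 538553615) (l 538038287))))) (b (a (c (a (c (l 538707983) (l 538453775)) (l 538039311)) (a (l 538069519) (l 538065167))) (a (c (l 538303503) (l 538061071)) (c (l 538299919) (l 538057743)))) (a (l 4) (a (b (c (l 538582799) (l 538075663)) (c (l 538322191) (l 538085647))) (c (c (l 538709007) (l 538457615)) (b (l 538072079) (l 538082319))))))) (b (a (b (a (b (l 537232911) (l 537245455)) (l 537235215)) (a (b (l 537257999) (l 537270799)) (b (l 537253647) (l 537266703)))) (a (b (l 537231119) (l 537256463)) (b (l 537227535) (l 537252879)))) (a (b (a (c (l 537417743) (l 536759567)) (b (l 537279503) (l 537292815))) (l 4)) (b (a (b (l 537275663) (l 537288975)) (a (l 537279759)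 (l 537278223))) (a (b (l 537302287) (b (l 537312271) (l 4))) (b (l 537298703) (a (l 537313295) (l 537311503)))))))) (b (c (c (a (a (l 538007567) (l 538005007)) (b (l 538261775) (l 538276367))) (a (b (l 538014991) (l 538033935)) (b (l 538010383) (l 538029583)))) (a (b (a (l 537224207) (l 537221391)) (a (l 537249807) (l 537246991))) (b (a (l 537218575) (l 537216527)) (a (l 537244431) (l 537242127))))) (a (c (b (a (c (l 538565135) (l 538054671)) (c (l 538562575) (l 538051855))) (c (b (l 538306575) (l 538045967)) (a (l 538074639) (l 538072079)))) (b (a (l 537275919) (l 537273103)) (a (b (l 537295631) (l 537309455)) (b (l 537292815) (l 537306639))))) (c (b (a (l 537769231) (l 537767695)) (c (l 538038799) (a (l 538070031) (l 538068495)))) (b (a (l 537270799) (l 537268495)) (a (l 537297679) (l 537295631))))))), by decide +kernel⟩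

def k61_A00pm_213_s3 : ∃ t, chk3 f_A00pm_213_s3 t 54 248 3 = true :=
  ⟨(c (a (b (a (b (a (l 536061199) (l 535889167)) (a (a (l 536062735) (l 536060687)) (l 536057615))) (a (b (l 536153359) (l 535919119)) (b (l 536149519) (l 535915279)))) (a (b (a (b (l 536221967) (l 4)) (b (l 536217615) (l 536235279))) (l 4)) (b (a (l 536088591) (b (l 536209679) (l 536227343))) (a (b (l 536249103) (b (l 536262671) (l 4))) (b (l 536245263) (l 536129295)))))) (a (b (b (a (l 536145679) (l 536142095)) (a (l 536179983) (l 536176399))) (b (a (l 535946767) (l 536211471)) (a (b (l 536241679) (l 536259855)) (l 536113167)))) (b (b (l 535868687) (a (l 536173071) (l 536169743))) (b (a (l 536208143) (l 536205071)) (a (l 535975695) (l 536241167)))))) (a (b (a (a (b (b (l 535051279) (l 535072271)) (b (l 535093775) (l 535115279))) (b (l 535057167) (b (l 535088911) (l 535110415)))) (a (b (l 535052303) (l 535095311)) (b (l 535047695) (l 535090447)))) (a (b (a (b (l 535137039) (l 4)) (b (l 535132431) (l 535154447))) (l 4)) (a (b (b (l 535127567)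 (l 535149583)) (b (l 535171855) (b (l 535188751) (l 4)))) (b (b (l 535122959) (l 535144975)) (b (l 535167247) (a (l 535190799) (l 535188495))))))) (b (a (a (b (l 535042831) (l 535085583)) (b (l 535037967) (l 535080975))) (b (a (l 535033359) (l 535028495)) (a (l 535076367) (l 535071503)))) (a (b (a (b (l 535118095) (l 535140111)) (l 535124751)) (a (b (l 535162639) (l 535185167)) (b (l 535157775) (l 535180303)))) (b (a (l 535119887) (l 535115279)) (a (b (l 535153167) (l 535175695)) (l 535160079))))))), by decide +kernel⟩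

def k62_A00pm_213_s3 : ∃ t, chk3 f_A00pm_213_s3 t 54 249 2 = true :=
  ⟨(a (a (l 4) (a (l 4) (b (b (c (c (c (l 538723599) (l 538474767)) (l 538098191)) (c (l 537455887) (l 536840463))) (l 4)) (l 4)))) (c (c (a (b (b (b (l 538053903) (l 538129167)) (a (l 538076175) (l 538342415))) (l 4)) (b (b (c (l 538447631) (l 538467343)) (a (l 538340623) (l 538607887))) (b (a (l 538357775) (l 538357007)) (a (l 4) (l 538374671))))) (a (b (b (a (l 538095119) (l 538092815)) (a (l 538116623) (l 538114319))) (l 4)) (b (b (a (l 538091023) (l 538089487)) (a (l 538112271) (l 538110991))) (b (a (l 538134543) (l 538133263)) (a (l 4) (l 538156047)))))) (b (a (c (b (a (l 537587215) (l 537584655)) (a (l 537344527) (l 537610511))) (b (a (l 537072143) (l 537069327)) (a (l 536834319) (l 537100047)))) (b (a (l 537292047) (l 537323535)) (a (b (l 537346319) (l 537360655)) (b (l 537344527) (l 537358863))))) (a (l 4) (a (b (b (l 537375247) (l 4)) (l 4)) (c (b (l 537633807) (l 537392911)) (b (l 537127183) (l 536891151)))))))), by decide +kernel⟩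

def k63_A00pm_213_s3 : ∃ t, chk3 f_A00pm_213_s3 t 54 249 3 = true :=
  ⟨(c (a (b (a (l 4) (b (a (l 4) (b (l 536147471) (l 4))) (l 4))) (l 4)) (b (a (b (a (b (l 536278031) (l 536296719)) (l 536150031)) (a (b (l 536315407) (l 4)) (b (l 536312079) (l 536062479)))) (b (a (l 536146703) (l 536009487)) (a (b (l 536308751) (l 536327695)) (l 536181263)))) (a (l 4) (b (a (b (l 536078607) (l 4)) (b (l 536344079) (l 536094991))) (a (l 4) (b (l 536182031) (l 4))))))) (a (b (a (l 4) (b (a (l 4) (b (l 535212559) (l 4))) (l 4))) (l 4)) (b (a (b (a (b (l 535207951) (l 535230991)) (b (l 535203087) (l 535226127))) (a (b (l 535254287) (l 4)) (b (l 535249423) (l 535205903)))) (a (b (b (l 535198479) (l 535221519)) (b (l 535244815) (l 535268367))) (b (b (l 535193871) (l 535216911)) (b (l 535240207) (l 535263759))))) (a (l 4) (b (a (b (a (l 535293455) (l 535291151)) (l 4)) (b (l 535287567) (a (l 535312911) (l 535310607)))) (a (l 4) (b (a (l 4) (l 535334927)) (l 4)))))))), by decide +kernel⟩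

def k64_A00pm_213_s3 : ∃ t, chk3 f_A00pm_213_s3 t 55 248 1 = true :=
  ⟨(c (a (b (c (a (b (l 537463567) (l 537480719)) (b (l 537731855) (l 537749007))) (a (b (l 537213967) (l 537239823)) (b (l 537211663) (l 537237775)))) (b (c (a (c (l 538289679) (l 538046991)) (l 537498383)) (a (a (l 537266959) (l 537265423)) (l 537129999))) (c (a (c (l 538305807) (l 538067471)) (c (l 538306575) (l 538067471))) (a (a (l 537294095) (l 537292815)) (a (l 537291791) (l 537291279)))))) (b (c (a (b (l 537733647) (l 537751055)) (c (l 16778936) (l 16776768))) (a (b (l 537210895) (l 537237007)) (b (l 16778704) (l 537237775)))) (c (a (c (a (l 538301967) (l 538304271)) (b (l 16778224) (l 538069263))) (c (l 538443279) (l 537527823))) (a (b (l 537263887) (a (l 537291023) (l 537291279))) (b (l 537264911) (l 537292559)))))) (a (b (c (a (b (l 535862543) (l 535897103)) (b (l 535857167) (l 535891983))) (a (b (a (l 535023887) (l 535019279)) (a (l 535066895) (l 535062031))) (b (c (l 16771928) (l 16772664)) (a (l 535057423) (l 535052815))))) (c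 (a (b (l 536066575) (b (l 535958799) (l 535977231))) (b (l 535927311) (b (l 535953679) (l 535972111)))) (a (a (b (l 535110671) (l 535155215)) (b (l 535106063) (l 535150607))) (a (b (l 535101199) (l 535145999)) (b (l 535096591) (l 535141391)))))) (b (a (b (a (l 535567119) (l 535563791)) (a (c (l 16774824) (l 535047951)) (l 535434767))) (a (b (l 535560463) (l 535330831)) (b (l 535557391) (l 535596303)))) (c (a (b (l 535922703) (l 536093199)) (b (l 535919119) (l 535955471))) (a (b (a (l 535091983) (l 535087375)) (a (l 535136783) (l 535131919))) (b (c (l 16771808) (l 16769800)) (a (l 535127311) (l 535122703)))))))), by decide +kernel⟩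

def k65_A00pm_213_s3 : ∃ t, chk3 f_A00pm_213_s3 t 55 249 2 = true :=
  ⟨(a (c (a (b (c (b (l 538053903) (l 538070799)) (b (l 538088463) (a (l 538110223) (l 538109967)))) (c (b (a (l 538356495) (l 538625039)) (a (l 538374415) (l 538374927))) (b (a (l 538132495) (l 538132239)) (a (l 538155279) (l 538155279))))) (a (b (c (l 538064655) (l 537832463)) (b (l 537574927) (c (l 538375695) (l 538155535)))) (b (c (l 538065679) (l 538101519)) (b (l 537575951) (l 537596687))))) (b (a (b (a (l 537321999) (l 537320719)) (a (l 537283343) (l 537349391))) (b (a (l 537319951) (l 537319439)) (a (l 537348623) (l 537348111)))) (a (c (b (a (l 537632527) (l 537631759)) (a (l 537391887) (l 537659407))) (b (a (l 537125391) (l 537123855)) (a (l 536889359) (l 537156367)))) (a (b (l 537243919) (b (l 537400079) (l 537415439))) (b (l 537377807) (b (l 537399823) (l 537415183))))))) (b (c (a (c (b (l 538326799) (l 538612751)) (b (l 538090767) (l 538113039))) (c (b (l 538332431) (l 538618895)) (b (l 538095119) (l 538117391)))) (a (b (a (l 537319183)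 (l 537319439)) (a (l 537348111) (l 537348367))) (b (a (l 537320207) (l 537321231)) (a (l 537349135) (l 537350159))))) (c (a (b (a (l 537846031) (l 537848335)) (a (l 537598479) (l 537869327))) (b (a (l 537850895) (l 537854223)) (a (l 537872143) (l 537875471)))) (a (a (b (l 537377807) (l 537139727)) (b (l 537378063) (l 537408527))) (a (b (l 537378831) (l 537409551)) (b (l 537380111) (l 537410831))))))), by decide +kernel⟩

def k66_A00pm_213_s3 : ∃ t, chk3 f_A00pm_213_s3 t 55 249 6 = true :=
  ⟨(a (b (a (b (a (l 536006671) (l 536272399)) (a (l 536178447) (l 536041743))) (b (a (l 536269839) (l 536267535)) (a (l 536039183) (l 536036879)))) (a (b (a (b (l 536341263) (l 536360719)) (b (l 536338447) (l 536358159))) (a (b (l 536112143) (l 536199183)) (b (l 536377871) (l 536129551)))) (b (a (l 536211983) (l 536075535)) (a (b (l 536375567) (l 536395535)) (b (l 536373263) (l 536393231)))))) (b (a (b (a (l 536265231) (l 536263439)) (a (l 536303119) (l 536301327))) (b (a (l 536261647) (l 536260111)) (a (l 536299535) (l 536297999))))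 (a (b (a (l 536073487) (l 536071695)) (a (l 536180495) (l 536111375))) (b (a (l 536070159) (l 536336911)) (a (l 536109839) (l 536108303)))))), by decide +kernel⟩

def k67_A00pm_213_s3 : ∃ t, chk3 f_A00pm_213_s3 t 55 249 7 = true :=
  ⟨(a (b (a (a (b (b (l 535189263) (l 535212303)) (b (l 535235599) (l 535259151))) (b (b (l 535184399) (l 535207695)) (b (l 535230991) (l 535254543)))) (a (b (l 535191823) (b (l 535226383) (l 535249935))) (b (l 535186959) (b (l 535221519) (l 535245327))))) (a (b (a (b (l 535282959) (a (l 535308303) (l 535305999))) (b (l 535278351) (l 535302671))) (a (b (a (l 535332623) (l 535330319)) (a (l 4) (l 535355151))) (b (a (l 535328015) (l 535325711)) (a (l 535352847) (l 535350543))))) (b (a (b (l 535273743) (l 535298063)) (b (l 535269135) (l 535293199))) (a (b (l 534785551) (c (l 535611919) (l 535080719))) (b (l 535317775) (l 534805775)))))) (b (a (a (b (l 535182351) (b (l 535216911) (l 535240719))) (b (l 535177743) (b (l 535212303) (l 535235855)))) (a (b (l 535173135) (b (l 535207695) (l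 535231247))) (b (l 535168527) (l 535215119)))) (a (b (a (b (l 535264527) (l 535288591)) (b (l 535259919) (l 535283983))) (a (a (l 534857231) (l 534854927)) (b (l 535308559) (l 535333391)))) (b (a (b (l 535255311) (l 535279375)) (b (l 535250447) (l 535274767))) (a (b (l 535303951) (l 535328527)) (b (l 535299343) (l 535323919))))))), by decide +kernel⟩

def k68_A00pm_213_s3 : ∃ t, chk3 f_A00pm_213_s3 t 54 125 1 = true :=
  ⟨(l 4), by decide +kernel⟩

def k69_A00pm_213_s3 : ∃ t, chk3 f_A00pm_213_s3 t 55 250 2 = true :=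
  ⟨(a (c (c (a (b (b (a (l 4) (l 538393359)) (l 4)) (l 4)) (b (b (a (l 538394383) (l 538396175)) (a (l 538413583) (l 538415375))) (l 4))) (b (a (b (a (l 4) (l 538178831)) (l 4)) (b (a (l 538179087) (l 538180111)) (a (l 538203407) (l 538204431)))) (l 4))) (b (b (a (a (l 4) (b (l 537431567) (l 4))) (a (b (l 537430799) (l 537446415)) (b (l 537430543) (l 537446415)))) (a (l 4) (a (b (l 537462287) (l 4)) (b (l 537462287) (l 537478159))))) (l 4))) (c (c (b (a (b (a (l 538398223) (l 538669583)) (a (l 538417935) (l 538689295))) (a (b (l 538673167) (l 538692879)) (l 538152975))) (b (a (b (l 538165007) (l 538175247)) (l 538178575)) (a (l 4) (a (l 538733583) (l 538738191))))) (a (b (b (a (l 538181647) (l 538183695)) (a (l 538206223) (l 538208271))) (b (a (l 538231055) (l 538233359)) (l 4))) (b (b (l 537651215) (a (l 538210831) (l 538214159))) (b (a (l 538236175) (l 538239503)) (a (l 538262031) (l 538265359)))))) (a (b (b (a (b (l 537430799) (l 537446415)) (b (l 537431311) (l 537447183))) (a (b (l 537462543) (l 537478671))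 (b (l 537463055) (l 537479183)))) (b (a (b (l 537494799) (l 4)) (a (l 537302799) (l 537236239))) (l 4))) (b (b (a (l 537172239) (l 537442063)) (a (b (l 537464079) (l 537480207)) (l 537205775))) (b (a (b (l 537496591) (l 537513231)) (b (l 537498127) (l 537514767))) (a (b (l 537530127) (l 537547023)) (b (l 537531663) (l 537548559)))))))), by decide +kernel⟩

def k70_A00pm_213_s3 : ∃ t, chk3 f_A00pm_213_s3 t 55 250 6 = true :=
  ⟨(a (b (a (b (a (l 4) (b (l 536149775) (l 4))) (l 4)) (b (a (b (l 536147471) (l 536167951)) (b (l 536145167) (l 536165903))) (a (b (a (l 4) (l 536456463)) (l 4)) (b (l 536186639) (l 536207631))))) (l 4)) (b (a (b (a (b (l 536411663) (l 536163855)) (b (l 536409871) (l 536430351))) (a (b (l 536184591) (l 536205839)) (b (l 536182799) (l 536204047)))) (b (a (b (l 536408335) (l 536428815)) (l 536149263)) (a (b (l 536449807) (l 536202511)) (b (l 536448271) (l 536469519))))) (a (b (a (b (l 536227087) (l 4)) (b (l 536225551) (l 536247055))) (l 4)) (b (a (b (l 536224015) (l 536245775)) (b (l 536222735)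 (l 536244239))) (a (b (l 536267791) (b (l 536284175) (l 4))) (b (l 536266511) (l 536288783))))))), by decide +kernel⟩

def k71_A00pm_213_s3 : ∃ t, chk3 f_A00pm_213_s3 t 55 250 7 = true :=
  ⟨(a (b (a (b (a (l 4) (b (a (l 535243791) (l 535375631)) (l 4))) (l 4)) (b (a (b (c (l 535635727) (l 535107087)) (c (l 535659791) (a (l 535134735) (l 535132175)))) (b (a (l 535368719) (l 535366415)) (a (l 535394063) (l 535391759)))) (a (a (l 4) (a (l 4) (b (l 535421455) (l 4)))) (b (b (l 534942223) (l 534955279)) (a (l 4) (c (l 535704335) (l 535181071))))))) (l 4)) (b (a (b (a (b (l 534825999) (a (l 535389455) (l 535387151))) (b (l 534821391) (l 534846991))) (a (b (a (l 535415311) (l 535413007)) (a (l 534971407) (l 534902031))) (b (l 534939663) (b (l 534892047) (l 534905103))))) (b (a (b (l 535353615) (l 534842383)) (b (l 535349007) (l 534837519))) (a (b (l 534867983) (l 534961167)) (b (l 534863375) (l 534889487))))) (a (b (a (b (a (b (l 535460879) (l 4)) (l 534995727)) (l 4)) (b (a (l 534993423) (l 534924047)) (a (b (l 535483151)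 (l 4)) (l 535017743)))) (l 4)) (b (a (b (b (l 534913807) (l 534927119)) (a (l 534948367) (l 534946063))) (b (l 534982927) (b (l 534935823) (l 534949391)))) (a (b (a (l 535042831) (l 535040527)) (a (l 4) (b (l 535530767) (l 4)))) (b (a (l 534970895) (l 534968591)) (a (b (l 535528463) (l 535542287)) (l 534996239)))))))), by decide +kernel⟩

def k72_A00pm_213_s3 : ∃ t, chk3 f_A00pm_213_s3 t 55 251 1 = true :=
  ⟨(c (b (b (a (l 4) (a (l 4) (a (l 4) (c (l 537721103) (b (l 537565967) (l 4)))))) (l 4)) (l 4)) (b (a (l 4) (a (l 4) (b (a (l 4) (b (c (l 536177167) (a (l 4) (b (l 535554063) (l 4)))) (l 4))) (l 4)))) (l 4))), by decide +kernel⟩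

def k73_A00pm_213_s3 : ∃ t, chk3 f_A00pm_213_s3 t 13 63 1 = true :=
  ⟨(l 4), by decide +kernel⟩

def k74_A00pm_213_s3 : ∃ t, chk3 f_A00pm_213_s3 t 7 12 1 = true :=
  ⟨(l 6), by decide +kernel⟩

def k75_A00pm_213_s3 : ∃ t, chk3 f_A00pm_213_s3 t 14 13 1 = true :=
  ⟨(b (a (b (b (l 6) (a (l 16665632) (l 6))) (a (c (l 16687168) (l 16679872)) (l 16677384))) (a (b (l 6) (a (l 16673632) (l 6))) (l 6))) (a (b (a (b (l 16700160) (l 16710264)) (b (l 16695176) (l 16706040))) (a (b (l 16719504) (c (l 16736040) (l 16717216))) (b (l 16716048) (l 16723808)))) (a (b (b (l 16691536) (l 16661216)) (b (l 16692968) (a (l 16722464) (l 16679952)))) (b (a (b (a (l 16647800) (l 16668192)) (a (l 16701848) (l 16680480))) (b (a (c (l 16650880) (l 16642576)) (l 6)) (c (a (l 16705984) (a (l 16684720) (b (l 16702232) (l 16708696)))) (a (l 16654328) (b (l 16672152) (l 16698912)))))) (b (a (a (l 16713104) (l 16691936)) (c (a (l 16718296) (b (l 16715008) (l 16721016))) (b (l 16683552) (l 16688848)))) (a (c (l 16686104) (l 16673320)) (b (a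 (l 16699480) (c (b (l 16725400) (l 16727264)) (l 16693696))) (a (l 16722912) (l 16702096))))))))), by decide +kernel⟩

def k76_A00pm_213_s3 : ∃ t, chk3 f_A00pm_213_s3 t 15 26 1 = true :=
  ⟨(l 6), by decide +kernel⟩

def k77_A00pm_213_s3 : ∃ t, chk3 f_A00pm_213_s3 t 30 54 1 = true :=
  ⟨(a (b (l 6) (b (a (b (l 6) (c (a (a (l 16708928) (l 16703600)) (l 16703520)) (a (a (l 16694408) (l 16694176)) (l 16693744)))) (l 6)) (a (a (b (c (a (l 16706928) (l 16706824)) (a (l 16697360) (l 16697168))) (c (a (l 16710128) (l 16710008)) (a (l 16700256) (l 16700112)))) (c (l 16708296) (l 16698192))) (c (a (l 16708120) (l 16707976)) (a (l 16697568) (l 16696984)))))) (b (l 6) (a (a (c (l 16704800) (l 16672568)) (l 6)) (l 6)))), by decide +kernel⟩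

def k78_A00pm_213_s3 : ∃ t, chk3 f_A00pm_213_s3 t 30 55 1 = true :=
  ⟨(a (b (a (c (a (b (a (b (l 16713264) (l 16716352)) (b (l 16713144) (a (l 16716272) (l 16716216)))) (b (a (l 16719384) (a (l 16719320) (l 16719280))) (c (l 16725088) (l 16719616)))) (b (l 16714520) (b (l 16719120) (c (l 16724920) (l 16719448))))) (a (b (a (l 16683528) (c (b (l 16705544) (l 16708456)) (b (l 16700488) (l 16703264)))) (a (l 16689000) (b (b (l 16707968) (l 16709352)) (b (l 16710736) (l 16712104))))) (b (l 16714488) (b (l 16708304) (c (l 16713944) (l 16708416)))))) (c (b (a (l 16714304) (l 16714112)) (a (l 16720424) (l 16720240))) (b (a (l 16703368) (l 16702776)) (a (l 16709152) (l 16708608))))) (a (b (a (c (b (b (l 16724600) (l 16726080)) (a (l 16727248) (l 16727256))) (b (c (l 16716904) (l 16711232)) (a (l 16715768) (l 16715976)))) (a (c (b (c (l 16728056) (l 16722536)) (b (l 16726968) (l 16727544))) (b (c (l 16722224) (a (l 16711464) (l 16711352))) (c (l 16718912) (l 16713304)))) (b (c (l 16725168) (l 16713928)) (c (l 16727160)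 (l 16715920))))) (c (a (b (l 16728376) (l 16729520)) (b (a (l 16728408) (l 16728352)) (l 16729560))) (c (a (l 16720440) (b (l 16720064) (l 16721320))) (a (l 16714704) (b (l 16714472) (l 16715776)))))) (c (b (b (a (l 16725000) (l 16724800)) (a (l 16727008) (l 16726848))) (l 16728840)) (b (b (a (l 16713504) (l 16712984)) (a (l 16715528) (l 16715056))) (l 16717424))))) (b (b (c (a (l 16713968) (l 16713944)) (a (l 16702040) (l 16701272))) (c (a (l 16720072) (l 16720016)) (a (l 16718416) (l 16707216)))) (c (a (b (b (l 16724616) (l 16726704)) (l 16728776)) (b (b (l 16724528) (l 16726664)) (l 16728888))) (a (b (b (l 16712336) (l 16714480)) (l 16716800)) (b (b (l 16711664) (l 16713888)) (l 16716408)))))), by decide +kernel⟩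

def k79_A00pm_213_s3 : ∃ t, chk3 f_A00pm_213_s3 t 31 27 1 = true :=
  ⟨(a (b (l 6) (b (b (l 6) (a (c (l 16720168) (l 16706752)) (c (l 16720512) (a (l 16706544) (l 16706488))))) (b (a (c (b (l 16724640) (l 16726816)) (b (l 16711216) (l 16713520))) (c (b (l 16724928) (l 16727144)) (b (l 16711008) (l 16713376)))) (a (c (l 16729184) (l 16716224)) (c (l 16729656) (l 16716248)))))) (b (l 6) (b (l 6) (a (c (b (b (a (l 16725256) (l 16725536)) (l 16727648)) (l 16730280)) (c (b (b (l 16714648) (l 16717032)) (l 16719960)) (b (b (l 16707352) (l 16709824)) (l 16712952)))) (b (b (l 6) (c (a (l 16728120) (l 16728488)) (a (l 16708368) (c (l 16717512) (a (l 16710000) (l 16710080)))))) (a (c (l 16730840) (l 16706256)) (c (c (l 16734760) (l 16727736)) (c (b (l 16719568) (l 16721624)) (b (l 16712248) (l 16714440)))))))))), by decide +kernel⟩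

def k80_A00pm_213_s3 : ∃ t, chk3 f_A00pm_213_s3 t 14 28 1 = true :=
  ⟨(a (b (a (b (c (l 16741264) (l 16720352)) (c (l 16746064) (l 16722960))) (b (b (l 16726976) (l 16728872)) (c (l 16699448) (l 16680008)))) (a (c (b (l 16750920) (l 16755800)) (b (l 16725544) (l 16728064))) (b (c (l 16725144) (l 16704032)) (c (l 16751168) (l 16717872))))) (b (a (b (l 16684448) (b (l 16687472) (l 16689616))) (b (a (l 16684128) (b (l 16704264) (l 16727552))) (c (l 16695488) (l 16682344)))) (a (b (c (l 16701472) (l 16684280)) (c (l 16706632) (l 16709376))) (b (a (l 16693416) (l 16694184)) (c (l 16705744) (l 16691856)))))), by decide +kernel⟩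

def k81_A00pm_213_s3 : ∃ t, chk3 f_A00pm_213_s3 t 14 29 1 = true :=
  ⟨(c (c (b (a (a (b (l 16768248) (l 16774320)) (b (l 16762368) (l 16768304))) (a (a (l 16720280) (l 16718712)) (a (l 16717648) (l 16716912)))) (a (b (a (l 16780640) (l 16774384)) (a (b (a (l 16787360) (l 16783648)) (a (b (l 16789872) (a (c (l 16797672) (l 16787464)) (l 16790584))) (b (l 16786104) (l 16787752)))) (b (l 16779104) (a (l 16783672) (l 16780984))))) (b (a (l 16770256) (l 16767840)) (a (b (l 16774808) (l 16756992)) (l 16763368))))) (b (a (a (b (l 16753640) (l 16758488)) (a (l 16711592) (l 16710560))) (a (a (l 16709976) (l 16730744)) (a (l 16730912) (l 16710424)))) (a (b (a (l 16763512) (l 16718768)) (b (a (l 16767344) (l 16764624)) (a (a (b (l 16770152) (a (l 16771928) (l 16770968))) (l 16769024)) (a (l 16767696) (l 16766824))))) (b (a (l 16759704) (l 16760136)) (a (b (l 16763656) (l 16766312)) (l 16744472)))))) (c (b (a (a (b (l 16738568) (l 16742168)) (a (l 16719088) (l 16719488))) (a (a (l 16699320) (l 16721496)) (a (l 16722968)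 (l 16724728)))) (b (a (a (l 16745880) (l 16704616)) (a (l 16706816) (l 16752168))) (a (a (b (l 16727696) (a (b (l 16749952) (a (l 16750824) (l 16750872))) (l 16745368))) (b (l 16749648) (a (l 16751192) (l 16752152)))) (a (b (l 16752088) (l 16754216)) (l 16735736))))) (b (a (a (a (l 16702640) (l 16703712)) (a (l 16705184) (l 16707056))) (a (b (l 16729584) (l 16691680)) (b (l 16693080) (l 16697688)))) (a (b (a (l 16727752) (l 16690000)) (a (b (l 16708536) (a (c (l 16740048) (l 16724280)) (l 16721208))) (c (l 16728408) (l 16720392)))) (b (a (l 16695496) (l 16701976)) (a (l 16730424) (l 16726680))))))), by decide +kernel⟩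

def k82_A00pm_213_s3 : ∃ t, chk3 f_A00pm_213_s3 t 15 28 1 = true :=
  ⟨(a (b (c (a (b (a (a (l 16701008) (b (b (l 16730752) (l 16731944)) (l 16733768))) (b (l 16731392) (l 16733952))) (a (a (l 16737360) (l 16695536)) (a (l 16706208) (l 16737936)))) (b (a (l 16732928) (l 16733344)) (l 16702184))) (a (b (a (a (l 16700152) (b (a (l 16720376) (l 16720560)) (l 16723056))) (b (l 16720296) (l 16723216))) (a (a (l 16726072) (l 16695480)) (b (l 16726128) (l 16729064)))) (b (a (l 16721528) (l 16721496)) (l 16696696)))) (a (b (a (b (l 16704384) (l 16696504)) (a (b (l 16705216) (l 16697424)) (l 16738472))) (a (c (l 16747720) (l 16737016)) (c (l 16716648) (a (l 16738824) (l 16697824))))) (b (c (l 16713024) (l 16703328)) (c (l 16708064) (l 16699264))))) (a (a (b (b (c (l 16733920) (l 16721656)) (c (l 16740120) (l 16728904))) (b (c (l 16746232) (l 16735984)) (l 16705592))) (b (b (c (b (l 16732976) (l 16736256)) (b (l 16720072) (l 16723912))) (c (l 16741168) (b (l 16727696) (l 16731440)))) (c (b (l 16747600) (l 16753920)) (b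 (l 16736920) (l 16743832))))) (b (b (a (b (a (l 16726992) (c (l 16733960) (l 16720608))) (c (l 16737200) (l 16724488))) (c (b (a (l 16734424) (l 16734936)) (a (l 16737992) (l 16738576))) (a (b (l 16720896) (l 16724984)) (b (c (l 16724672) (l 16717696)) (l 16725328))))) (a (c (b (l 16740640) (l 16744032)) (a (l 16730128) (l 16730544))) (c (a (l 16743320) (l 16744024)) (a (l 16730936) (b (l 16729352) (l 16733264)))))) (a (c (b (l 16749112) (l 16755688)) (b (l 16737840) (l 16744864))) (b (c (l 16750728) (a (l 16738496) (l 16738944))) (c (l 16757504) (l 16745864))))))), by decide +kernel⟩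

def k83_A00pm_213_s3 : ∃ t, chk3 f_A00pm_213_s3 t 15 29 1 = true :=
  ⟨(b (a (a (b (a (b (l 16704432) (l 16707072)) (c (l 16711400) (l 16723928))) (c (a (l 16758408) (l 16758640)) (b (l 16705536) (l 16707984)))) (a (b (b (l 16749176) (l 16709976)) (a (l 16734488) (l 16756320))) (b (l 16752088) (l 16757648)))) (a (b (c (l 16727664) (l 16718312)) (c (l 16733360) (l 16724240))) (b (a (c (l 16761976) (l 16751424)) (c (l 16763936) (l 16752480))) (a (c (l 16768016) (l 16757536)) (c (l 16769920) (l 16758568)))))) (a (a (b (c (a (l 16763912) (l 16764072)) (a (l 16710080) (l 16712808))) (c (b (l 16726152) (l 16749840)) (c (l 16739760) (l 16744168)))) (b (a (c (l 16722720) (l 16736224)) (l 16762816)) (a (b (b (l 16722024) (l 16723200)) (c (l 16770848) (l 16720856))) (l 16725656)))) (a (b (a (l 16764688) (l 16745568)) (a (l 16748512) (l 16750112))) (b (a (c (l 16773200) (l 16762888)) (c (l 16774888) (l 16763808))) (a (c (l 16777344) (l 16767384)) (a (l 16752144) (l 16752480))))))), by decide +kernel⟩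

def k84_A00pm_213_s3 : ∃ t, chk3 f_A00pm_213_s3 t 28 120 1 = true :=
  ⟨(c (a (c (b (a (c (a (c (l 16801488) (l 16796440)) (l 16796840)) (a (a (l 16789280) (l 16788488)) (l 16787208))) (c (l 16793680) (l 16784816))) (c (a (a (b (a (b (c (l 16802512) (l 16797520)) (l 16799880)) (l 16799168)) (a (l 16799016) (c (l 16801560) (l 16796856)))) (a (l 16787776) (l 16797360))) (l 16794872)) (a (a (b (a (b (l 16789984) (l 16790056)) (l 16789392)) (a (l 16789656) (l 16789752))) (l 16788400)) (l 16786296)))) (a (b (a (c (l 16778560) (b (l 16767776) (l 16768736))) (b (l 16772080) (l 16773000))) (a (b (a (b (a (l 16774880) (l 16774672)) (a (l 16775112) (l 16775088))) (l 16774528)) (a (l 16775424) (b (l 16775176) (l 16775544)))) (c (l 16778984) (l 16764224)))) (b (l 16773912) (l 16773192)))) (a (c (b (l 16786080) (l 16787608)) (b (l 16770016) (l 16772016))) (c (b (l 16783472) (l 16785176)) (l 16770240)))) (a (a (c (b (a (b (l 16751888) (a (l 16753088) (l 16753144))) (c (l 16757608) (l 16747520))) (a (b (a (b (a (l 16754136)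 (l 16754032)) (l 16752288)) (l 16754352)) (a (l 16756128) (b (c (l 16760368) (l 16750384)) (l 16756216)))) (c (l 16759832) (l 16750104)))) (b (a (a (b (l 16730104) (l 16731696)) (l 16726168)) (b (l 16731384) (l 16732976))) (a (b (a (b (a (l 16733056) (l 16733032)) (l 16734336)) (l 16733792)) (a (l 16736480) (a (l 16730744) (l 16730544)))) (a (b (l 16734320) (l 16735888)) (l 16735624))))) (c (b (c (l 16757472) (l 16748112)) (l 16750064)) (b (l 16728608) (l 16731728)))) (a (b (a (l 16749760) (l 16745384)) (a (l 16747272) (l 16748096))) (b (l 16746832) (l 16749496))))), by decide +kernel⟩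

def k85_A00pm_213_s3 : ∃ t, chk3 f_A00pm_213_s3 t 28 121 1 = true :=
  ⟨(c (a (c (a (c (b (a (l 16797520) (b (b (l 16787752) (l 16787768)) (l 16787352))) (l 16774768)) (b (a (l 16789008) (b (a (l 16789544) (l 16789040)) (l 16789304))) (l 16788248))) (b (a (c (a (l 16786696) (l 16796488)) (l 16788176)) (l 16791136)) (b (a (c (l 16786664) (l 16789000)) (l 16792120)) (a (l 16782272) (b (l 16771504) (l 16782160)))))) (a (b (b (a (l 16775840) (a (b (l 16775632) (l 16775944)) (l 16775416))) (a (l 16776256) (a (l 16776232) (l 16776264)))) (b (l 16776648) (l 16777040))) (b (a (c (l 16779552) (l 16765576)) (l 16774728)) (a (b (a (l 16776728) (l 16776456)) (l 16777184)) (b (l 16776112) (a (l 16777040) (l 16776872))))))) (b (a (c (l 16789096) (l 16773968)) (c (l 16786832) (l 16773304))) (c (a (l 16769552) (l 16788424)) (a (l 16775856) (l 16775264))))) (c (a (a (a (b (l 16758448) (l 16761664)) (b (b (a (b (l 16756704) (l 16757504)) (l 16756888)) (a (l 16758712) (l 16758448))) (l 16760976))) (b (a (b (l 16757040) (a (l 16752928)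 (l 16758296))) (l 16757856)) (a (b (a (l 16754512) (l 16754240)) (l 16761216)) (b (l 16759656) (a (l 16755568) (l 16760896)))))) (a (a (l 16759344) (l 16749240)) (b (l 16759288) (l 16761632)))) (a (a (a (b (b (l 16739048) (l 16741944)) (l 16746168)) (b (b (a (b (l 16737392) (l 16738696)) (l 16737968)) (a (l 16740840) (l 16735016))) (l 16734272))) (b (a (b (l 16738728) (l 16734984)) (l 16740544)) (a (b (a (l 16737152) (l 16736872)) (l 16739624)) (b (l 16742776) (a (l 16738952) (l 16744496)))))) (a (c (l 16737232) (l 16729208)) (b (l 16744792) (l 16747536)))))), by decide +kernel⟩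

def k86_A00pm_213_s3 : ∃ t, chk3 f_A00pm_213_s3 t 29 60 1 = true :=
  ⟨(c (b (a (c (a (l 16782320) (l 16780744)) (c (l 16751848) (l 16745896))) (c (a (l 16779536) (l 16778640)) (l 16759872))) (a (c (a (l 16785936) (l 16784640)) (a (l 16774032) (l 16774088))) (c (a (l 16783672) (l 16782976)) (l 16764248)))) (c (b (a (c (l 16739824) (l 16733640)) (l 16740240)) (a (c (l 16744408) (l 16738464)) (a (l 16764736) (l 16766496)))) (b (a (c (l 16727344) (l 16720936)) (b (l 16750496) (l 16752856))) (a (c (l 16732416) (l 16726248)) (b (l 16734184) (l 16736400)))))), by decide +kernel⟩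

def k87_A00pm_213_s3 : ∃ t, chk3 f_A00pm_213_s3 t 28 122 1 = true :=
  ⟨(c (a (a (b (c (l 16769472) (l 16777576)) (c (l 16767896) (l 16767704))) (c (b (b (a (l 16791912) (a (l 16771608) (l 16782232))) (l 16770600)) (l 16769424)) (b (b (a (l 16777496) (a (l 16777656) (l 16777648))) (l 16777968)) (l 16778464)))) (b (c (a (a (b (l 16792040) (a (l 16782128) (l 16771344))) (l 16791328)) (l 16789928)) (a (a (b (l 16777352) (a (l 16778272) (l 16778080))) (l 16777488)) (l 16777144))) (a (a (b (c (l 16781832) (l 16778856)) (l 16764352)) (c (b (l 16781592) (a (l 16771400) (l 16771448))) (b (l 16778640) (a (l 16779480) (l 16779456))))) (c (l 16770344) (l 16778920))))) (a (c (b (a (l 16764384) (a (l 16763480) (b (a (l 16762328) (l 16756920)) (l 16763736)))) (a (l 16767232) (l 16766192))) (b (a (l 16750896) (b (a (l 16747560) (a (l 16746624) (l 16741040))) (l 16749656))) (a (b (l 16754752) (l 16757216)) (l 16753592)))) (a (b (a (b (c (l 16762224) (l 16746672)) (c (a (l 16763520) (l 16763416)) (a (l 16743128) (l 16748344))))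 (c (l 16763200) (l 16748488))) (c (a (b (l 16764992) (l 16766328)) (b (l 16759528) (a (l 16766192) (l 16766072)))) (a (b (a (l 16750856) (l 16739968)) (l 16753208)) (b (l 16745256) (a (l 16752520) (l 16741808)))))) (b (a (l 16756680) (l 16757528)) (c (l 16766088) (l 16742344)))))), by decide +kernel⟩

def k88_A00pm_213_s3 : ∃ t, chk3 f_A00pm_213_s3 t 28 123 1 = true :=
  ⟨(b (c (a (a (c (a (l 16776416) (l 16777120)) (b (l 16778560) (l 16778744))) (c (l 16778312) (l 16768512))) (c (a (b (l 16770312) (l 16790424)) (a (b (b (l 16771328) (l 16781976)) (l 16781816)) (b (l 16791912) (l 16771312)))) (a (a (l 16779496) (l 16769552)) (a (b (a (l 16780168) (l 16780096)) (l 16770288)) (b (l 16780112) (l 16780744)))))) (a (a (b (c (l 16769192) (l 16759592)) (c (l 16770408) (l 16761864))) (a (c (l 16769096) (l 16759056)) (c (l 16768712) (l 16757992)))) (b (a (c (l 16767648) (l 16755296)) (a (c (a (l 16767432) (l 16767456)) (a (l 16749064) (l 16754408))) (l 16761624))) (c (a (l 16768960) (a (l 16763616) (l 16768792))) (a (l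 16757736) (a (a (l 16756592) (l 16745840)) (l 16751200))))))) (c (b (a (a (c (l 16775504) (a (l 16778808) (l 16778952))) (c (l 16766592) (l 16779288))) (a (a (l 16763488) (l 16764304)) (a (l 16765216) (a (b (l 16766088) (l 16765872)) (c (l 16771680) (l 16771056)))))) (a (a (c (a (l 16774272) (l 16774992)) (c (l 16780512) (l 16772144))) (c (l 16776208) (l 16768920))) (c (a (l 16788720) (l 16791192)) (a (l 16780224) (l 16781400))))) (c (a (a (a (b (l 16771776) (l 16772816)) (b (l 16771328) (l 16772408))) (b (l 16770752) (a (l 16772032) (l 16771728)))) (b (a (l 16770240) (a (l 16770032) (a (l 16770080) (l 16770040)))) (a (l 16771440) (l 16771272)))) (b (a (a (a (l 16764560) (l 16763496)) (l 16761968)) (a (l 16760104) (a (l 16758824) (a (l 16758320) (l 16752904))))) (a (a (a (b (l 16766096) (l 16767088)) (l 16765584)) (a (l 16759360) (l 16763672))) (a (l 16762376) (l 16760808))))))), by decide +kernel⟩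

def k89_A00pm_213_s3 : ∃ t, chk3 f_A00pm_213_s3 t 29 61 1 = true :=
  ⟨(b (a (c (c (a (b (l 16788432) (l 16789952)) (l 16767184)) (a (l 16777880) (l 16778016))) (c (a (l 16766120) (l 16746480)) (a (b (l 16752672) (l 16755144)) (l 16735496)))) (c (c (a (l 16787464) (l 16786832)) (b (l 16756832) (l 16758632))) (b (a (l 16763040) (l 16744304)) (a (l 16744168) (l 16746200))))) (a (b (c (a (c (l 16791336) (l 16780488)) (a (l 16764720) (l 16764576))) (c (a (l 16769224) (l 16770488)) (a (l 16757544) (l 16759880)))) (a (b (c (c (l 16792240) (l 16781656)) (c (l 16770664) (l 16748784))) (c (a (a (c (l 16771816) (l 16771784)) (b (l 16766576) (l 16766776))) (l 16766592)) (a (c (a (l 16771368) (l 16771384)) (a (b (l 16759496) (l 16760544)) (l 16760120))) (l 16766464)))) (c (a (l 16766096) (l 16765944)) (c (l 16772296) (l 16762008))))) (c (b (c (l 16768408) (l 16781128)) (a (b (l 16765408) (l 16765928)) (l 16765224))) (c (b (l 16751520) (b (l 16752728) (l 16753416))) (b (c (l 16744800) (l 16750688)) (c (l 16746536) (l 16752536))))))),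 by decide +kernel⟩

def k90_A00pm_213_s3 : ∃ t, chk3 f_A00pm_213_s3 t 15 30 1 = true :=
  ⟨(a (b (c (b (a (b (l 16762880) (a (l 16775688) (l 16775728))) (a (b (l 16773320) (l 16775576)) (a (l 16753856) (l 16775832)))) (a (c (l 16771688) (l 16765360)) (a (l 16757616) (a (l 16757216) (l 16778528))))) (c (a (b (c (l 16745952) (l 16742672)) (c (l 16749952) (l 16746592))) (b (b (l 16746928) (l 16748848)) (a (l 16771504) (l 16772704)))) (a (b (a (l 16714784) (l 16739192)) (a (l 16739856) (l 16742808))) (b (a (l 16742504) (l 16744592)) (a (l 16766552) (l 16747736)))))) (c (a (b (a (b (l 16781888) (l 16783480)) (b (l 16781568) (l 16782896))) (b (c (l 16787424) (l 16760232)) (a (l 16764576) (l 16784616)))) (b (a (a (l 16760680) (l 16760168)) (c (l 16761304) (l 16757696))) (b (a (l 16782784) (l 16760424)) (a (l 16762400) (l 16760864))))) (a (c (b (b (l 16750872) (l 16752448)) (b (l 16753712) (l 16765248))) (b (a (l 16753944) (l 16745920)) (b (b (l 16746552) (l 16747200)) (c (l 16749808) (l 16756896))))) (a (b (b (l 16750080)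 (l 16751184)) (b (l 16752136) (l 16763424))) (b (b (l 16751512) (l 16762912)) (b (l 16763592) (l 16764120))))))) (b (a (b (a (l 16752344) (l 16753648)) (a (l 16754936) (l 16761208))) (c (b (a (l 16780096) (l 16780816)) (a (l 16781696) (l 16761168))) (b (a (l 16770840) (l 16750288)) (a (l 16773408) (b (l 16773152) (l 16774192)))))) (a (c (b (a (l 16780808) (l 16781728)) (a (b (l 16780920) (l 16770360)) (l 16771128))) (b (b (l 16753008) (l 16753752)) (a (b (l 16753776) (a (l 16775008) (l 16775400))) (l 16765288)))) (b (a (b (l 16757624) (l 16763272)) (c (b (l 16782520) (l 16782600)) (b (l 16775056) (l 16775808)))) (a (b (a (l 16779104) (l 16779312)) (a (l 16779192) (l 16779424))) (b (a (l 16779464) (l 16779576)) (a (l 16779624) (l 16779792)))))))), by decide +kernel⟩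

def k91_A00pm_213_s3 : ∃ t, chk3 f_A00pm_213_s3 t 56 248 1 = true :=
  ⟨(c (a (b (c (a (c (l 16785040) (l 16782600)) (l 16779312)) (a (c (l 16774880) (l 16777608)) (c (l 16780448) (l 16777664)))) (c (a (c (l 538585615) (l 537802511)) (c (l 16779464) (l 16777216))) (a (b (l 16773584) (l 537295119)) (c (l 16780168) (l 16772608))))) (c (c (b (l 16787328) (l 16780896)) (b (l 16773728) (l 16778248))) (a (b (l 16779288) (c (l 16780560) (l 16777960))) (b (l 16779616) (l 16774368))))) (a (c (b (a (b (l 16773544) (l 16773992)) (b (l 16773160) (l 16773632))) (a (b (l 16774424) (l 535952655)) (b (l 16774080) (l 16774504)))) (b (a (b (l 16768048) (c (l 16770248) (l 16767712))) (b (l 16767080) (l 16768048))) (a (b (c (l 16771032) (l 16768736)) (c (l 16771792) (l 16769728))) (b (c (l 16770264) (l 16767680)) (c (l 16771048) (l 16768704)))))) (b (a (c (l 16773056) (b (l 16766136) (l 16767128))) (c (l 16772792) (l 16760512))) (a (c (b (l 16773768) (l 16774208)) (b (l 16768088) (c (l 16770328) (l 16767696)))) (c (b (l 16773528)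 (l 16773992)) (b (l 16767248) (l 16768208))))))), by decide +kernel⟩

def k92_A00pm_213_s3 : ∃ t, chk3 f_A00pm_213_s3 t 112 249 1 = true :=
  ⟨(c (a (b (c (c (l 538352399) (b (l 16781256) (l 538123791))) (b (l 537055247) (a (l 537351695) (l 537353487)))) (c (b (l 537592335) (a (l 537879567) (l 537884175))) (b (a (l 537381647) (l 537383695)) (a (l 537412367) (l 537414415))))) (b (c (c (l 538631951) (l 537318415)) (b (l 537059599) (l 536552207))) (c (c (a (l 538665999) (l 538672655)) (b (l 538156047) (l 538180111))) (b (c (l 16779512) (l 16775352)) (a (l 537416719) (l 537419791)))))) (b (c (a (b (l 535989775) (a (l 536296719) (l 536295695))) (b (l 535987983) (c (l 16776176) (l 16771744)))) (a (a (b (l 535163663) (l 535210511)) (b (l 535159055) (l 535205903))) (a (b (l 535154447) (l 535201295)) (b (l 16767912) (l 535196431))))) (a (c (b (a (l 536335631) (l 536334607)) (a (l 536107279) (l 536105999))) (b (a (b (l 535245839) (l 535270159)) (b (l 535241231) (l 535265295))) (a (b (l 535294479) (l 535319311)) (b (l 535289871)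 (l 535314703))))) (c (b (a (l 536333583) (l 536333071)) (a (l 536373775) (l 536373007))) (b (a (c (l 16773376) (l 534972943)) (c (l 16773048) (l 16771344))) (a (b (l 535285263) (l 535309839)) (b (l 535280399) (l 535305231)))))))), by decide +kernel⟩

def k93_A00pm_213_s3 : ∃ t, chk3 f_A00pm_213_s3 t 113 249 1 = true :=
  ⟨(c (b (a (c (c (l 16779144) (l 16777080)) (b (l 16779200) (l 536833295))) (c (c (l 16785424) (l 16777856)) (c (l 16780728) (l 16773080)))) (a (c (b (c (l 16783432) (l 16781696)) (l 537378575)) (b (c (l 16779928) (l 16778136)) (c (l 16779704) (l 16775512)))) (c (b (l 16778232) (l 16777688)) (b (l 16774176) (c (l 16780232) (l 16778392)))))) (b (a (c (b (l 16774632) (a (l 16775072) (l 16774968))) (a (b (l 16770120) (l 535193103)) (b (l 16769712) (l 16767968)))) (c (b (l 16774432) (l 16774840)) (b (a (l 16769320) (l 16768944)) (a (l 16770208) (l 16769848))))) (a (c (b (c (l 16776312) (l 16774456)) (a (l 536375311) (l 536382991))) (b (c (l 16769952) (c (l 16771136) (l 16770176))) (a (c (l 16773400)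 (l 535014159)) (c (l 16773104) (l 16771360))))) (b (a (c (l 16775256) (l 16768448)) (c (l 16775192) (l 16768096))) (c (a (l 16775608) (l 16775552)) (c (l 16770072) (c (l 16771232) (l 16770240)))))))), by decide +kernel⟩

def k94_A00pm_213_s3 : ∃ t, chk3 f_A00pm_213_s3 t 57 124 1 = true :=
  ⟨(a (b (b (c (c (l 16777328) (l 16769824)) (c (l 16767312) (a (l 16764928) (l 16764152)))) (c (c (l 16776376) (c (l 16781984) (l 16778664))) (a (c (l 16773616) (b (l 16766464) (l 16767448))) (c (l 16773536) (l 16760992))))) (c (b (a (c (l 16780048) (l 16774752)) (c (l 16775936) (l 16770072))) (a (c (c (l 16780048) (l 16777904)) (c (l 16780960) (l 16773496))) (c (l 16780112) (a (l 16775032) (l 16770088))))) (c (a (b (b (l 16774304) (l 16774736)) (b (l 16775136) (a (l 16775520) (l 16775504)))) (b (l 16769232) (b (l 16775120) (l 16775512)))) (b (a (b (l 16768400) (a (l 16769496) (l 16769152))) (b (l 16767712) (l 16768664))) (a (b (a (l 16770376) (l 16770048)) (c (l 16772200) (l 16769944))) (b (l 16764344) (a (l 16770616) (l 16770320))))))))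 (c (c (b (b (l 16790320) (l 16768360)) (b (l 16777816) (a (l 16776056) (l 16787776)))) (b (c (l 16773176) (l 16768976)) (b (l 16771056) (c (l 16772336) (l 16779880))))) (c (b (b (l 16772480) (l 16773544)) (a (b (l 16774496) (b (l 16775144) (l 16775544))) (b (l 16774536) (l 16775392)))) (b (b (l 16763088) (a (l 16765552) (l 16764904))) (a (b (l 16767560) (b (l 16768984) (l 16764640))) (b (l 16756464) (b (l 16768400) (l 16769312)))))))), by decide +kernel⟩

def k95_A00pm_213_s3 : ∃ t, chk3 f_A00pm_213_s3 t 29 124 1 = true :=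
  ⟨(a (b (a (c (c (b (a (l 16792472) (l 16782288)) (a (l 16791352) (l 16782248))) (b (a (l 16772264) (a (l 16772480) (l 16783112))) (a (l 16782656) (a (l 16783240) (l 16773064))))) (b (a (c (l 16772656) (a (l 16762216) (l 16751536))) (a (c (l 16767368) (b (l 16761472) (l 16762296))) (l 16767632))) (b (a (l 16768592) (a (l 16768392) (c (l 16773480) (l 16763144)))) (c (l 16774040) (a (l 16764808) (l 16764280)))))) (a (c (b (l 16766944) (c (l 16771736) (l 16772992))) (b (l 16768192) (b (l 16768840) (c (l 16774080) (l 16753680))))) (c (b (l 16766712) (l 16767088)) (c (l 16774112) (l 16764456))))) (c (a (b (a (l 16775960) (l 16776960)) (c (l 16779152) (l 16772216))) (b (a (c (a (l 16792600) (l 16782224)) (a (l 16773408) (l 16773432))) (b (l 16767304) (l 16767360))) (a (l 16777128) (c (a (l 16781320) (l 16781768)) (a (l 16773712) (l 16773616)))))) (b (a (c (l 16774648) (c (l 16768240) (l 16763872))) (a (a (c (l 16774832) (l 16760184)) (c (b (l 16774552) (l 16775024)) (b (l 16764864) (l 16755152)))) (c (l 16775016)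 (l 16765728)))) (a (a (c (l 16775448) (l 16768288)) (c (l 16775504) (l 16757224))) (a (c (l 16775568) (l 16767136)) (a (c (b (l 16775440) (l 16775832)) (b (l 16761120) (l 16767216))) (b (l 16771136) (c (l 16775824) (l 16761832))))))))) (c (a (b (b (l 16766344) (l 16766672)) (c (l 16781288) (l 16773528))) (c (b (l 16790456) (l 16790616)) (b (l 16783216) (l 16783744)))) (b (c (c (l 16766872) (l 16762744)) (a (l 16755384) (l 16746712))) (a (c (l 16775896) (b (l 16767056) (l 16767800))) (c (l 16766056) (l 16758520)))))), by decide +kernel⟩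

def k96_A00pm_213_s3 : ∃ t, chk3 f_A00pm_213_s3 t 112 250 2 = true :=
  ⟨(b (a (c (c (b (l 538684943) (l 538704911)) (a (l 537536783) (l 537675279))) (b (a (l 537443855) (l 537445903)) (a (l 537476111) (l 537478159)))) (c (a (c (l 538706191) (l 537948687)) (c (l 538713103) (l 537954063))) (b (a (l 537448463) (l 537451279)) (a (l 537480719) (l 537483791))))) (a (c (a (b (l 537947151) (l 537702159)) (b (l 537952015) (l 537975567))) (b (a (l 537240591) (l 537242895)) (a (b (l 537533455) (l 537550607)) (l 537142543)))) (c (b (a (l 537957647) (l 538232335)) (a (l 537981455) (l 537987855))) (b (a (l 537513999) (l 537517327)) (a (l 537279503) (l 537283087)))))), by decide +kernel⟩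

def k97_A00pm_213_s3 : ∃ t, chk3 f_A00pm_213_s3 t 112 250 3 = true :=
  ⟨(c (b (a (b (a (l 536147983) (l 536146959)) (a (b (l 536447247) (l 536468495)) (l 536188943))) (b (a (l 536146191) (l 536145679)) (a (l 536188175) (l 536187663)))) (a (b (a (b (l 536489999) (l 536243215)) (b (l 536488975) (l 536510735))) (a (b (l 536265231) (l 536287759)) (b (l 536264463) (l 536286735)))) (b (a (a (l 536231183) (l 536230927)) (a (l 536230671) (l 536230671))) (a (b (l 536531983) (l 536285967)) (b (l 536531727) (l 536285711)))))) (b (a (b (a (b (l 535344399) (l 535369743)) (b (l 535339791) (l 535365135))) (a (b (l 534858767) (l 534884879)) (b (l 535390991) (l 534880015)))) (b (a (b (l 535334927) (l 535360527)) (b (l 535330319) (l 535355663))) (a (b (l 535386127) (l 534875407)) (c (l 535797519) (b (l 535110671) (l 535138063)))))) (a (b (a (b (l 534911247) (a (l 535475983) (l 535473679))) (b (l 534906639) (l 534933519))) (a (b (a (l 534966287) (l 534963983)) (a (l 534993935) (l 534991631))) (b (b (l 534953487) (l 534967311))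 (a (l 534989327) (l 534987023))))) (b (a (b (l 534901775) (l 534928655)) (c (b (l 535700495) (l 535726095)) (b (l 535165711) (l 535193615)))) (b (a (c (l 535755535) (l 535227919)) (c (l 535751951) (l 535222287))) (a (b (l 534976271) (l 534990351)) (b (l 534971663) (l 534985743)))))))), by decide +kernel⟩

def k98_A00pm_213_s3 : ∃ t, chk3 f_A00pm_213_s3 t 113 250 1 = true :=
  ⟨(c (b (a (c (b (c (l 538723599) (l 537958927)) (c (l 538746639) (l 537718031))) (b (c (l 16776840) (l 536939791)) (a (l 537492239) (l 537510415)))) (c (a (b (l 16776872) (l 538549007)) (l 537232655)) (b (c (l 16779992) (l 16775760)) (c (l 16777112) (l 536753167))))) (a (c (a (b (l 538246671) (l 538138895)) (b (l 538275343) (l 538307087))) (b (a (l 537526799) (l 537547791)) (a (l 537025807) (l 537319695)))) (c (b (a (l 538582031) (l 538627087)) (a (l 538620175) (l 538665999))) (b (a (l 537576463) (l 537610511)) (a (l 537353743) (l 537656847)))))) (a (b (c (b (a (l 536148239) (l 536157455)) (a (l 536190991) (l 536201487))) (b (a (b (l 535327503)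 (l 535353103)) (b (l 535328783) (l 535354895))) (a (c (l 535662607) (b (l 535106831) (l 535134223))) (b (l 535381263) (l 535408143))))) (c (b (a (l 536033807) (l 535979535)) (a (b (l 536536847) (l 536291855)) (a (l 536291855) (l 536301583)))) (b (a (c (b (l 535700239) (l 535726095)) (b (l 535162127) (l 535190543))) (c (b (l 16774824) (l 535732751)) (b (l 535163407) (l 535192591)))) (a (a (b (l 535486479) (l 535514383)) (b (l 535487759) (l 535516431))) (c (b (l 535760399) (l 535789071)) (b (l 535222287) (l 535252751))))))) (b (b (c (a (l 536171023) (l 536456719)) (a (c (l 16773496) (l 535068175)) (c (l 16773248) (l 16771456)))) (c (a (l 536217359) (l 536236815)) (a (b (l 535386639) (l 535414287)) (c (l 16771272) (l 535397903))))) (c (b (a (l 536266255) (l 536557071)) (a (l 536050703) (l 536610575))) (b (b (a (l 535442703) (l 535452175)) (a (c (l 16774880) (l 535197455)) (l 535482127))) (a (c (b (l 535772943) (l 535802639)) (b (l 535228431) (l 535260175))) (c (b (l 16774944) (l 535815951)) (b (l 535235599) (l 535267087))))))))),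 by decide +kernel⟩

def k99_A00pm_213_s3 : ∃ t, chk3 f_A00pm_213_s3 t 112 251 2 = true :=
  ⟨(b (a (c (b (a (l 537725967) (l 537731343)) (a (l 4) (l 537755663))) (b (a (b (l 537568015) (l 537585423)) (b (l 537570319) (l 537587983))) (a (l 4) (b (l 537605647) (l 4))))) (a (c (b (l 538005519) (l 538030095)) (b (l 537046031) (b (l 537608463) (l 537626639)))) (c (b (c (l 538785551) (l 538312719)) (l 537768975)) (b (c (l 537831183) (l 537072655)) (a (l 537620751) (l 537086735)))))) (a (l 4) (b (a (l 4) (b (c (l 538189583) (l 537112335)) (a (l 4) (l 537065999)))) (l 4)))), by decide +kernel⟩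

def k100_A00pm_213_s3 : ∃ t, chk3 f_A00pm_213_s3 t 112 251 3 = true :=
  ⟨(c (b (a (b (a (b (l 536310287) (l 536333327)) (b (l 536309519) (l 536332559))) (a (l 4) (b (l 536355855) (l 4)))) (b (a (b (l 536308751) (l 536331791)) (b (l 536308495) (l 536063759))) (a (b (l 536355087) (l 536378895)) (b (a (l 536623119) (l 536624399)) (a (l 536646927) (l 536378895)))))) (a (l 4) (a (l 4) (b (b (a (l 536401935) (l 536403727)) (a (l 4) (l 536694543))) (l 4))))) (b (a (b (b (a (a (b (l 535551759) (l 535565839)) (l 535019535)) (a (l 535017231) (l 535014927))) (a (a (l 4) (c (l 535842063) (l 535191823))) (a (c (l 535840271) (l 535323151)) (l 535043343)))) (a (l 4) (b (a (b (l 535335695) (l 4)) (c (l 535865871) (l 535216399))) (l 4)))) (b (b (a (a (l 535012623) (l 535010319)) (a (l 535276303) (l 535005711))) (a (a (l 535041039) (l 535038735)) (a (l 535036431) (l 535034383)))) (b (a (a (c (l 535864079) (l 535347727)) (l 535067663)) (a (l 535065359) (a (l 535063567) (l 535063311)))) (b (a (a (l 535360271) (l 535626255)) (a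 (l 535623951) (l 535085583))) (a (a (l 4) (l 535372815)) (a (l 535638799) (l 535099919))))))) (a (l 4) (b (a (l 4) (b (b (a (l 535653647) (l 535115279)) (a (l 4) (a (l 535130127) (l 535669263)))) (a (l 4) (b (l 535144975) (l 4))))) (l 4))))), by decide +kernel⟩

def k101_A00pm_213_s3 : ∃ t, chk3 f_A00pm_213_s3 t 113 251 2 = true :=
  ⟨(b (c (b (a (a (l 537761551) (l 538344975)) (a (l 538659343) (l 538702863))) (a (a (c (l 538823439) (l 538085391)) (l 538382863)) (a (l 538693647) (l 538734095)))) (a (b (a (b (l 537590287) (l 537610255)) (l 537097231)) (a (a (l 536823567) (l 537654799)) (l 537143567))) (b (a (l 537400335) (l 537433359)) (b (l 536643087) (l 536662287))))) (a (b (a (b (b (l 536816655) (l 537085967)) (l 536824591)) (b (l 536850703) (l 536859919))) (a (b (l 536833039) (l 4)) (b (l 536868367) (l 536876303)))) (b (a (b (l 536885519) (l 536894735)) (b (l 536919567) (l 536928527))) (a (b (l 536902927) (l 536910863)) (b (l 536936975) (l 536944655)))))), by decide +kernel⟩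

def k102_A00pm_213_s3 : ∃ t, chk3 f_A00pm_213_s3 t 113 251 6 = true :=
  ⟨(a (b (b (a (b (l 536315663) (l 536340495)) (b (l 536604175) (l 536363535))) (a (b (a (l 536630031) (l 536641807)) (l 536127503)) (b (l 536390927) (l 536417551)))) (b (a (b (l 536157455) (l 536441359)) (b (l 536440847) (l 536461071))) (a (b (l 536461327) (l 4)) (b (l 536481039) (l 536500751))))) (b (b (a (a (l 536367631) (l 536378895)) (l 536126735)) (a (b (l 536680975) (l 536706063)) (a (l 536440591) (l 536450063)))) (b (a (b (l 536460047) (l 536480271)) (a (l 536484623) (l 536493839))) (a (b (l 536499983) (l 536519951)) (b (l 536786959) (l 536538127)))))), by decide +kernel⟩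

def k103_A00pm_213_s3 : ∃ t, chk3 f_A00pm_213_s3 t 113 251 7 = true :=
  ⟨(b (a (b (b (a (a (l 535006223) (l 535277071)) (a (l 535549967) (l 535555343))) (a (a (l 535035407) (l 535038991)) (a (l 535581455) (l 535586831)))) (b (a (a (c (l 535862287) (l 535340303)) (l 535070991)) (a (l 535076367) (l 535350031))) (a (a (c (l 535893775) (l 535373839)) (l 535102991)) (a (l 535107855) (l 535112463))))) (b (a (c (b (l 535832847) (l 535862799)) (b (l 535291919) (l 535324175))) (c (b (l 535845391) (l 535874831)) (b (l 535298319) (l 535329807)))) (a (a (b (l 535623183) (l 535116559)) (b (l 535627535) (l 535657487))) (a (b (l 535631631) (l 535661327)) (b (l 535635471) (l 535664911)))))) (a (b (b (a (a (b (l 535121679) (l 535672591)) (c (l 535928847) (l 535408655))) (a (l 535137551) (l 535141647))) (a (a (a (l 535155471) (l 535157775)) (c (l 535955215) (l 535438351))) (a (l 535165199) (l 535169295)))) (b (a (a (l 4) (a (l 4) (l 535189775))) (a (c (l 535986703) (l 535470863)) (l 535196943))) (a (l 4) (a (l 4) (a (l 4) (l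 535225615)))))) (b (b (a (a (l 535145487) (l 535149327)) (a (l 535689743) (l 535693327))) (a (a (l 535173135) (l 535176719)) (a (l 535180303) (l 535452175)))) (a (a (b (l 535200783) (l 535228687)) (b (l 535204367) (l 535232271))) (a (b (l 535207951) (l 535235855)) (b (l 535211279) (l 535239183))))))), by decide +kernel⟩

def k104_A00pm_213_s3 : ∃ t, chk3 f_A00pm_213_s3 t 114 250 1 = true :=
  ⟨(c (b (a (c (b (l 16778152) (l 16777560)) (b (c (l 16780632) (l 16778752)) (a (l 16774168) (l 16774440)))) (c (a (l 16778664) (l 16779232)) (b (l 16775016) (l 16774864)))) (b (a (a (b (l 536809999) (l 536830991)) (l 536591631)) (a (l 536628495) (l 536663823))) (a (c (l 537926415) (a (l 537690127) (l 537721359))) (a (l 536666127) (l 536700175))))) (a (c (b (b (a (l 16775864) (l 16775856)) (c (l 16774408) (l 16772688))) (b (a (l 536579855) (l 536601359)) (a (l 536632079) (l 536652303)))) (b (b (c (l 16772904) (c (l 16771392) (l 16770376))) (a (c (l 16773672) (l 16769352)) (c (l 16773456) (l 16771608)))) (b (a (b (l 535462159)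 (l 535491855)) (b (l 16770480) (l 535500559))) (b (a (l 535521551) (l 535529999)) (a (c (l 16775008) (l 535272719)) (l 535559439)))))) (c (b (b (l 16773240) (a (l 16776176) (l 16776184))) (a (b (l 16773832) (l 536671503)) (b (l 16776456) (l 536689423)))) (b (b (c (l 16772464) (l 16770152)) (c (l 16773144) (l 16768456))) (b (a (c (l 16773880) (l 16772136)) (c (l 16773680) (l 16771792))) (a (b (l 535537423) (l 535566351)) (c (l 16774280) (l 16770016)))))))), by decide +kernel⟩

def k105_A00pm_213_s3 : ∃ t, chk3 f_A00pm_213_s3 t 115 250 1 = true :=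
  ⟨(b (c (a (c (l 16780080) (c (l 16781928) (l 16779616))) (b (l 16773688) (l 16773256))) (a (b (c (l 16775896) (a (l 16770888) (l 16770600))) (c (l 16776208) (b (l 16766120) (l 16766520)))) (b (c (l 16775936) (l 16764944)) (c (l 16776248) (a (l 16771152) (l 16770888)))))) (c (a (c (b (l 16773840) (l 16778368)) (b (l 16775232) (l 16774984))) (c (l 16779816) (c (l 16776736) (l 16779872)))) (c (a (b (a (l 16776472) (l 16776488)) (a (l 16776704) (l 16776720))) (b (l 16776528) (l 16771520))) (a (b (c (l 16773392) (l 16768664)) (c (l 16771376) (c (l 16772616) (l 16771680)))) (b (a (l 16766704) (l 16771680)) (c (l 16773632) (l 16771496))))))), by decide +kernel⟩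

def k106_A00pm_213_s3 : ∃ t, chk3 f_A00pm_213_s3 t 114 251 1 = true :=
  ⟨(c (a (b (b (a (b (l 536890895) (l 536909071)) (l 536667663)) (c (l 537719055) (a (l 537503247) (l 537531407)))) (b (a (b (l 536952591) (l 536961551)) (l 536722191)) (a (b (l 536969999) (l 536977935)) (l 536739343)))) (b (b (a (l 536701199) (l 536733711)) (a (l 536731919) (l 536763151))) (b (a (l 536753935) (l 536784655)) (a (l 536771087) (l 536801807))))) (b (c (a (b (a (l 536415247) (l 536702479)) (a (l 536195855) (l 536481807))) (b (a (l 536720399) (l 536737295)) (a (l 536498703) (l 536783119)))) (a (b (a (c (b (l 535856911) (l 535885839)) (b (l 535303695) (l 535334671))) (c (b (l 16775080) (l 16775336)) (b (l 535308047) (l 535338767)))) (a (c (b (l 535913999) (l 535941903)) (b (l 535365647) (l 535396111))) (b (c (l 535923471) (l 535369231)) (c (l 535950863) (l 535399439))))) (b (b (a (l 535595535) (l 535601167)) (a (c (l 16775152) (l 16773944)) (c (l 16774960) (l 16773624)))) (a (b (c (l 16775400) (l 535372047)) (c (l 535959055) (l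 535401999))) (b (c (l 16775216) (l 16774000)) (c (l 16775456) (l 535403791))))))) (c (a (b (a (l 535836175) (l 536256015)) (a (a (l 536811023) (l 536819727)) (l 535758863))) (b (a (l 536272399) (l 536556559)) (a (l 536043791) (l 536327951)))) (a (b (a (a (b (l 535696399) (l 535723791)) (b (l 535699727) (l 535727119))) (a (b (l 535702543) (l 535729935)) (b (l 535705359) (l 535732751)))) (a (a (b (l 535214607) (l 535242511)) (b (l 535754511) (l 535245583))) (a (b (l 535757583) (l 535785231)) (b (l 535760143) (l 535788047))))) (b (a (b (c (l 535985167) (l 535431183)) (c (l 536010511) (l 535460367))) (b (c (l 16775688) (l 535432975)) (c (l 536017935) (l 535462159)))) (a (a (b (l 535762959) (l 535790607)) (b (l 535765263) (l 535793167))) (a (b (l 535767567) (l 535795215)) (b (l 535769615) (l 535797263))))))))), by decide +kernel⟩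

def k107_A00pm_213_s3 : ∃ t, chk3 f_A00pm_213_s3 t 115 251 1 = true :=
  ⟨(c (b (a (a (b (l 536765199) (l 536793359)) (b (l 536795407) (l 536822799))) (a (b (l 536824847) (l 536851471)) (b (l 537121551) (l 536879119)))) (a (b (a (l 536814607) (l 536843791)) (a (l 536831759) (l 536860943))) (a (b (l 536872207) (l 536889359)) (b (l 536899599) (l 536917007))))) (b (a (c (b (b (l 16774248) (l 16774328)) (a (l 536798479) (l 536812815))) (b (a (b (l 16771096) (l 535634447)) (c (l 16774472) (l 16770176))) (a (b (c (l 16775040) (l 16773696)) (c (l 16775288) (l 16774064))) (c (l 16772368) (c (l 16773928) (l 16773216)))))) (c (b (a (l 16776944) (l 16776968)) (c (l 16777888) (l 16773704))) (c (b (l 16771584) (a (l 16774824) (l 16774656))) (b (c (l 16772808) (l 16771864)) (b (l 16772936) (l 16770696)))))) (a (c (b (a (l 536571407) (l 536854031)) (a (l 536342799) (l 536356879))) (b (a (b (c (l 16775520) (l 535433999)) (c (l 16775744) (l 535463183))) (b (c (l 16775352) (l 16774120)) (c (l 16775576) (l 535463439)))) (a (b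 (c (l 536050191) (l 535492367)) (c (l 536076047) (l 535522063))) (b (c (l 16775800) (l 535492623)) (c (l 536081935) (l 535522319)))))) (c (b (a (l 536867599) (l 536880399)) (a (l 536638735) (l 536651535))) (b (c (b (l 16775112) (l 16772728)) (a (c (l 16774336) (l 16773688)) (c (l 16774080) (l 16773368)))) (a (b (c (l 16775640) (l 16774536)) (c (l 16775856) (l 535521807))) (a (l 535257359) (l 535526415)))))))), by decide +kernel⟩

def k108_A00pm_213_s3 : ∃ t, chk3 f_A00pm_213_s3 t 58 250 1 = true :=
  ⟨(c (a (b (c (l 16777760) (c (l 16773352) (l 16780824))) (a (c (l 16775680) (l 16776280)) (c (l 16776368) (l 16771640)))) (b (a (l 16776184) (c (l 16779208) (l 16773528))) (c (l 16777104) (l 16772560)))) (a (b (a (c (l 16770904) (b (l 16769632) (l 16770488))) (c (l 16776208) (b (l 16769088) (l 16769952)))) (a (c (b (l 16776576) (l 16776816)) (b (l 16766056) (a (l 16772192) (l 16771936)))) (c (b (l 16776632) (l 16776872)) (b (l 16770784) (l 16766328))))) (b (b (a (l 16761864) (c (l 16776248) (l 16757584))) (c (l 16776456)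 (l 16769160))) (a (c (l 16776824) (b (l 16770264) (l 16771072))) (c (l 16776880) (l 16770160)))))), by decide +kernel⟩

def k109_A00pm_213_s3 : ∃ t, chk3 f_A00pm_213_s3 t 58 251 1 = true :=
  ⟨(a (b (b (c (c (l 16779864) (l 16776136)) (a (c (l 16777016) (b (l 16767376) (l 16767728))) (c (l 16777080) (a (l 16772432) (l 16772192))))) (c (c (l 16778920) (c (l 16781952) (l 16774840))) (a (a (b (l 534919439) (l 534943503)) (b (l 534925583) (l 534949647))) (c (l 16777240) (a (l 16767888) (l 16767656)))))) (c (a (a (b (l 536926223) (l 536943631)) (b (l 536952079) (l 536969487))) (b (c (l 16783568) (l 16775664)) (c (l 16777448) (l 16775240)))) (c (a (b (a (l 16772024) (l 16777304)) (a (l 536663567) (l 536674575))) (b (l 16772120) (a (l 16772184) (l 16777464)))) (a (b (a (c (l 16774992) (l 16770816)) (b (l 16773848) (l 16774152))) (a (a (l 535526927) (l 535527439)) (a (l 535527439) (l 535527439)))) (b (c (l 16774616) (l 16770112)) (c (l 16772472) (a (l 16773616) (l 16773352)))))))) (b (a (c (c (l 16774992) (l 16776816))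 (c (c (l 16778456) (l 16775992)) (b (l 16766592) (l 16767320)))) (c (c (l 16775488) (l 16772160)) (c (l 16772056) (b (l 16771352) (l 16766856))))) (a (c (b (c (l 16784128) (l 16770992)) (c (l 16783264) (l 16775800))) (b (c (l 16777440) (a (l 16768104) (l 16773128))) (c (l 16772296) (c (l 16774808) (l 16770328))))) (c (c (l 16778976) (l 16776576)) (c (c (l 16778648) (l 16771240)) (b (l 16767560) (a (l 16768328) (l 16773360)))))))), by decide +kernel⟩

def k110_A00pm_213_s3 : ∃ t, chk3 f_A00pm_213_s3 t 59 250 1 = true :=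
  ⟨(c (a (b (a (b (c (l 16780992) (l 16773672)) (a (l 16777544) (l 16777488))) (l 16777344)) (b (a (a (l 16766424) (l 16777376)) (c (l 16779560) (l 16773640))) (a (l 16776528) (a (c (l 16777624) (l 16773728)) (l 16777032))))) (c (l 16779888) (l 16773480))) (c (a (b (a (a (b (l 16776176) (l 16776592)) (b (l 16776376) (l 16776504))) (l 16776688)) (a (b (a (l 16776784) (l 16776896)) (l 16777056)) (a (b (l 16776808) (l 16771912)) (l 16776976)))) (b (l 16777088) (l 16777384))) (a (b (a (a (b (l 16762520) (l 16758080)) (b (l 16768136) (l 16763200))) (l 16768856)) (b (a (a (l 16769344) (a (l 16769160) (l 16758616))) (l 16764000)) (a (l 16770056) (a (a (l 16769784) (l 16764456)) (l 16769744))))) (b (l 16769920) (l 16760000))))), by decide +kernel⟩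

def k111_A00pm_213_s3 : ∃ t, chk3 f_A00pm_213_s3 t 59 251 1 = true :=
  ⟨(a (c (b (a (b (l 16775896) (l 16775240)) (b (a (l 16776512) (c (l 16776952) (l 16773624))) (l 16776040))) (a (c (l 16779448) (l 16777144)) (b (l 16775336) (l 16774608)))) (a (b (c (l 16777360) (c (l 16772808) (l 16769688))) (c (c (l 16778856) (l 16776432)) (b (l 16767120) (l 16767808)))) (b (b (a (l 16763448) (a (c (l 16777384) (l 16770368)) (c (l 16777336) (b (l 16770088) (l 16770432))))) (c (l 16777504) (l 16771160))) (c (l 16772472) (c (l 16773656) (l 16765624)))))) (c (b (a (b (l 16776640) (a (b (l 16776648) (l 16776504)) (l 16776448))) (l 16776256)) (a (b (a (l 16775920) (b (l 16776304) (l 16776160))) (l 16775376)) (b (l 16775984) (a (b (a (l 16776008) (l 16775936)) (l 16775784)) (l 16775704))))) (a (b (c (b (l 16777376) (a (a (l 16777600) (l 16772288)) (l 16777552))) (b (l 16765256) (a (a (l 16765688) (b (l 16770672) (l 16770984))) (l 16770936)))) (b (c (a (l 16777696) (b (l 16772424) (l 16777816))) (a (l 16771560) (a (l 16766224)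 (b (l 16771224) (l 16766264))))) (c (l 16777832) (l 16772176)))) (b (c (l 16777696) (l 16771304)) (b (c (l 16777760) (l 16766368)) (a (b (a (c (l 16777864) (l 16766520)) (l 16769568)) (a (l 16775008) (c (l 16777928) (l 16766776)))) (c (l 16777864) (l 16771976)))))))), by decide +kernel⟩

def k112_A00pm_213_s3 : ∃ t, chk3 f_A00pm_213_s3 t 30 62 1 = true :=
  ⟨(b (a (c (b (a (l 16770368) (l 16764088)) (a (b (l 16765336) (l 16765384)) (b (l 16785208) (l 16764256)))) (c (b (b (l 16755408) (l 16766272)) (c (l 16768240) (l 16765272))) (b (a (l 16748400) (l 16770872)) (a (l 16759976) (l 16761264))))) (c (b (c (l 16763912) (l 16770560)) (a (l 16773352) (b (l 16782192) (l 16761232)))) (b (a (b (l 16753456) (l 16753760)) (a (l 16754000) (l 16754208))) (a (b (l 16764528) (l 16764784)) (b (l 16764920) (l 16765104)))))) (a (b (c (c (c (l 16779048) (l 16781792)) (a (l 16772976) (l 16782744))) (a (c (l 16777600) (b (l 16771216) (l 16771688))) (c (l 16767288) (b (l 16772352) (l 16772736))))) (c (a (c (b (l 16788616) (l 16777736))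 (b (l 16772904) (l 16783256))) (c (l 16776432) (b (l 16782664) (l 16782536)))) (a (b (c (l 16777896) (l 16761648)) (c (l 16778040) (a (l 16772304) (l 16772784)))) (b (c (l 16778000) (l 16762608)) (c (l 16778096) (l 16762952)))))) (b (c (a (a (l 16773616) (l 16772864)) (b (l 16761184) (l 16782088))) (a (c (l 16767232) (b (l 16773296) (l 16773592))) (c (l 16766976) (b (l 16774056) (l 16774272))))) (c (a (c (l 16774696) (l 16771160)) (b (l 16771504) (l 16771376))) (a (b (a (l 16765336) (l 16765456)) (a (l 16765520) (l 16765616))) (b (b (l 16765536) (l 16765608)) (c (l 16777672) (l 16764216)))))))), by decide +kernel⟩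

def k113_A00pm_213_s3 : ∃ t, chk3 f_A00pm_213_s3 t 31 62 1 = true :=
  ⟨(a (b (a (b (c (b (l 16780720) (l 16759672)) (a (l 16764912) (l 16754600))) (c (c (l 16771256) (l 16768960)) (a (l 16765136) (b (l 16775680) (l 16775792))))) (b (c (l 16781104) (l 16776224)) (c (l 16780592) (l 16776368)))) (a (a (b (c (l 16770320) (b (l 16775824) (l 16775952))) (c (b (l 16780744) (l 16780688)) (b (l 16776088) (l 16765736)))) (b (c (l 16774752) (b (l 16775904) (l 16775992))) (c (b (l 16779896) (l 16779880)) (b (l 16776080) (l 16765728))))) (b (b (l 16767840) (a (a (l 16767312) (l 16778040)) (l 16778376))) (c (a (b (l 16779360) (l 16768736)) (l 16779544)) (a (b (l 16765680) (c (l 16777024) (l 16775480))) (l 16776632)))))) (b (a (b (a (l 16779168) (l 16779448)) (a (l 16779064) (l 16779392))) (b (a (l 16779696) (l 16769432)) (a (l 16769208) (c (l 16781952) (l 16777872))))) (a (b (a (l 16778864) (c (l 16780960) (l 16777464))) (a (c (l 16779992) (l 16777112)) (b (l 16779072) (l 16778928)))) (b (a (c (l 16781288) (l 16777832))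 (c (l 16781576) (l 16778152))) (a (b (l 16779448) (l 16779328)) (b (c (l 16781224) (l 16778296)) (c (l 16780960) (l 16778352)))))))), by decide +kernel⟩

def k114_A00pm_213_s3 : ∃ t, chk3 f_A00pm_213_s3 t 56 126 1 = true :=
  ⟨(b (a (l 4) (c (a (l 4) (b (b (a (a (l 4) (l 536662799)) (b (l 536952079) (l 536958735))) (l 4)) (l 4))) (a (l 4) (b (b (a (a (l 4) (b (c (l 536812559) (l 535260431)) (l 4))) (b (c (l 536558095) (a (l 535264015) (l 535267343))) (a (l 4) (b (l 534997519) (l 4))))) (l 4)) (l 4))))) (l 4)), by decide +kernel⟩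

def k115_A00pm_213_s3 : ∃ t, chk3 f_A00pm_213_s3 t 114 252 1 = true :=
  ⟨(c (b (a (b (c (l 537751567) (a (l 537312527) (l 537608207))) (c (l 537755151) (a (l 537333775) (l 537361167)))) (b (a (l 536785679) (l 536816655)) (a (a (l 537058319) (l 537073935)) (l 536828943)))) (a (l 4) (b (c (l 538096911) (a (l 537407759) (l 537433615))) (l 4)))) (b (c (a (b (a (b (l 536844047) (l 536595471)) (a (l 536867599) (l 536876047))) (a (b (l 536614927) (l 4)) (b (l 536900367) (l 536920079)))) (b (a (l 535814927) (l 536098831)) (a (b (l 536916751) (l 536936207)) (b (l 536932111) (l 536951823))))) (a (b (a (a (b (l 535270671) (l 535299087)) (b (l 535273743) (l 535302159))) (a (b (l 535276559) (l 535304975)) (b (l 535816207) (l 535307791)))) (a (a (l 4) (b (l 535331087) (l 4))) (a (b (l 535333903) (l 4)) (b (l 535336463) (l 535365647))))) (b (a (a (b (l 535818767) (l 535310351)) (b (l 535821071) (l 535849487))) (a (b (l 535823375) (l 535851791)) (b (l 535825423) (l 535853583)))) (a (a (b (l 535339023) (l 535368207)) (b (l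 535341327) (l 535370511))) (a (b (l 535880463) (c (l 536172559) (l 535643919))) (b (l 535882511) (l 535911439))))))) (b (c (a (l 4) (a (b (l 536955919) (l 4)) (b (l 536971279) (l 536990991)))) (b (a (l 4) (a (c (l 536194319) (a (l 535674639) (l 535675407))) (c (l 536201487) (a (l 535676175) (l 535676431))))) (a (l 4) (a (l 4) (c (l 536228879) (a (l 535708687) (l 535709199))))))) (l 4)))), by decide +kernel⟩

def k116_A00pm_213_s3 : ∃ t, chk3 f_A00pm_213_s3 t 115 252 2 = true :=
  ⟨(b (a (b (a (l 536846607) (l 536875791)) (a (c (l 538953231) (l 537438991)) (c (l 538987279) (l 537463567)))) (b (c (l 538457871) (a (l 537465615) (l 537488655))) (c (l 538180111) (a (l 537487119) (l 537509903))))) (a (b (a (c (l 538953743) (l 537458703)) (c (l 538987791) (l 537483279))) (a (c (l 538950927) (l 537208591)) (c (l 538984975) (l 537501199)))) (a (a (b (l 536919311) (l 537195279)) (b (l 537201935) (l 537209359))) (a (b (l 537215759) (l 537223183)) (b (l 537497615) (l 537237007)))))), by decide +kernel⟩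

def k117_A00pm_213_s3 : ∃ t, chk3 f_A00pm_213_s3 t 115 252 3 = true :=
  ⟨(b (b (a (a (b (a (l 535028239) (l 535032847)) (a (l 534783759) (l 534788367))) (b (a (l 535037199) (l 535041295)) (b (l 534788367) (l 534800399)))) (a (b (b (l 535041039) (l 535052815)) (a (l 535069199) (l 535341327))) (a (b (l 535321103) (l 535344911)) (b (l 535324687) (l 535348495))))) (a (c (a (l 535884559) (b (l 536961039) (l 536980495))) (a (a (b (l 535884303) (l 535913231)) (b (l 535885839) (l 535915023))) (a (b (l 535887375) (l 535916303)) (b (l 535888655) (l 535917583))))) (a (b (a (l 535093263) (l 535097103)) (b (l 534844431) (l 534856719))) (b (a (l 535100687) (l 535372303)) (a (l 535124751) (l 535128079)))))) (a (b (c (a (b (l 536986127) (l 537005583)) (b (l 536999951) (l 537019663))) (a (b (a (l 535942671) (l 535944463)) (c (l 536235279) (a (l 535709455) (l 535709711)))) (b (a (l 535945743) (l 535947023)) (c (l 536240911) (a (l 535709455) (l 535709199)))))) (a (b (b (a (l 535436815) (l 534904335)) (l 4)) (l 4)) (c (b (l 537039119)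 (l 537058831)) (b (c (a (l 536267279) (l 536269839)) (a (l 535742735) (l 535742479))) (c (l 536296975) (a (l 4) (l 535776527))))))) (b (a (b (a (c (l 537009935) (l 535948047)) (l 534877199)) (c (l 537032719) (a (l 535977999) (l 535978767)))) (a (b (l 534880783) (l 534905359)) (b (l 535152399) (l 535176975)))) (c (a (b (l 537052431) (l 537072143)) (b (l 537064719) (l 537084431))) (a (b (a (c (l 536272399) (l 535741967)) (l 536009231)) (c (l 536301839) (a (l 535776015) (l 535775247)))) (b (a (l 536009999) (l 536010255)) (c (l 536305935) (a (l 535774479) (l 535773455))))))))), by decide +kernel⟩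

def k118_A00pm_213_s3 : ∃ t, chk3 f_A00pm_213_s3 t 57 253 1 = true :=
  ⟨(a (l 4) (c (b (b (a (l 4) (a (a (l 4) (l 537214479)) (a (l 537228303) (l 537241871)))) (l 4)) (l 4)) (b (b (a (l 4) (a (a (l 4) (b (b (l 535776015) (l 4)) (l 4))) (b (c (l 537104143) (c (l 536334607) (a (l 535809039) (l 535808015)))) (a (l 4) (b (l 535808527) (l 4)))))) (l 4)) (l 4)))), by decide +kernel⟩

def k119_A00pm_213_s3 : ∃ t, chk3 f_A00pm_213_s3 t 116 252 1 = true :=
  ⟨(c (b (b (a (a (l 536958479) (l 536984335)) (a (l 537009423) (l 537033743))) (a (a (a (l 537500943) (l 537513999)) (c (l 538908431) (l 538089999))) (a (b (l 16775296) (l 538096399)) (b (l 16775672) (l 538389007))))) (b (a (a (c (l 538932239) (l 537954319)) (c (l 538902031) (l 538109711))) (a (c (l 538872591) (l 538130191)) (c (l 538843919) (l 538149647)))) (a (a (c (l 538928655) (l 537972495)) (c (l 538898447) (l 537859343))) (a (c (l 538869007) (l 537879823)) (c (l 538840335) (l 537899279)))))) (b (a (a (c (b (l 536434191) (l 536204815)) (b (a (b (l 535835919)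 (l 535864079)) (l 534777615)) (b (c (l 16776160) (l 535609615)) (l 535653135)))) (c (b (l 536445455) (l 536215823)) (b (a (l 534777615) (l 535045903)) (b (l 535624207) (l 535653135))))) (a (c (b (l 536455695) (l 536226063)) (b (a (l 535314191) (l 535313679)) (b (l 535623439) (l 535652111)))) (c (b (l 536465167) (l 536235535)) (b (b (l 16769384) (l 535593743)) (b (l 535621903) (l 535650575)))))) (a (b (c (a (l 535975439) (l 535986447)) (a (b (l 535682319) (l 534906895)) (b (l 535682319) (l 535174927)))) (c (a (b (l 537076495) (l 537095951)) (b (l 537087247) (l 537106959))) (a (b (a (l 536010511) (l 536010511)) (a (l 536041487) (l 536041487))) (b (a (l 536010511) (l 536010255)) (a (l 536041231) (l 536040975)))))) (b (c (a (l 535996687) (l 535737615)) (a (b (l 535681295) (l 535442447)) (b (l 535679503) (l 535440655)))) (c (a (b (l 537097487) (l 537116943)) (b (l 537106703) (l 537126159))) (a (b (a (l 536009743) (l 536008975)) (a (l 536040463) (l 536039695))) (b (a (l 536007951) (l 536006927)) (a (l 536038671) (l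 536037391))))))))), by decide +kernel⟩

def k120_A00pm_213_s3 : ∃ t, chk3 f_A00pm_213_s3 t 117 252 1 = true :=
  ⟨(c (b (a (c (b (l 16777168) (c (l 16781104) (l 16781896))) (b (l 16775344) (c (l 16780704) (l 16779496)))) (c (b (l 16777712) (l 16776888)) (b (l 16775896) (l 16775408)))) (b (a (a (c (l 538816015) (l 538168335)) (b (l 16775688) (l 538444303))) (a (b (l 16776064) (l 14)) (l 14))) (a (a (c (l 538812687) (l 537917967)) (c (l 538785807) (l 537935887))) (l 14)))) (b (a (c (a (b (l 16772328) (l 536244239)) (b (l 16777616) (l 536251919))) (b (c (l 16772648) (a (l 16773808) (l 16773552))) (a (b (l 535619599) (l 535648015)) (b (l 16774808) (l 535644943))))) (c (b (l 16772448) (a (l 16772448) (l 16777744))) (b (b (l 16768696) (l 16768992)) (a (b (l 16774616) (l 16774896)) (b (l 16774432) (l 14)))))) (a (a (b (c (l 535746063) (b (l 535677199) (l 535438095))) (a (b (l 535222543) (l 534979087)) (b (l 535223823) (l 534980367)))) (b (b (c (l 16777648) (l 535673615)) (c (l 16777640) (l 535434767))) (a (b (l 535224847)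 (l 14)) (l 14)))) (a (b (b (c (l 16777696) (l 535669519)) (l 14)) (l 14)) (l 14))))), by decide +kernel⟩

def k121_A00pm_213_s3 : ∃ t, chk3 f_A00pm_213_s3 t 58 253 1 = true :=
  ⟨(a (b (c (a (b (a (a (l 537255439) (l 537268495)) (c (l 538897935) (l 537741583))) (a (a (l 4) (l 537002511)) (a (l 537015567) (l 537028367)))) (a (b (c (l 538868495) (l 537694991)) (b (l 538117903) (l 537849871))) (b (c (l 538840079) (l 537647375)) (b (l 538142223) (l 14))))) (a (c (b (a (b (l 537115663) (l 537135631)) (b (l 537126671) (l 537146383))) (a (b (l 537155599) (l 4)) (b (l 537166351) (l 537186575)))) (b (c (a (b (l 536337679) (a (l 536366095) (l 536367375))) (b (l 536340239) (a (l 536368655) (l 536369679)))) (a (b (a (l 535806735) (l 535805199)) (a (l 535842063) (l 535840527))) (b (a (l 535803663) (l 535801615)) (a (l 535838991) (l 535836943))))) (a (b (a (l 4) (c (l 536397071) (l 535877135))) (l 4)) (b (a (c (l 536398351) (l 535875343)) (c (l 536399375) (l 535873295))) (a (l 4) (b (l 536162319) (l 4))))))) (a (c (b (b (l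 537136399) (l 537156367)) (b (l 537176335) (l 537196559))) (b (c (b (l 536342031) (a (l 536370447) (l 536370959))) (b (a (l 535799567) (l 535797263)) (a (l 535834895) (l 535832591)))) (b (a (c (l 536400143) (l 535871247)) (c (l 536400655) (l 535868943))) (b (a (l 536161551) (l 536160783)) (a (l 536178959) (l 536177935)))))) (c (b (b (l 537145615) (l 537165327)) (b (l 537185295) (l 14))) (b (c (b (l 536611087) (a (l 536371471) (l 536371471))) (b (a (l 535794959) (l 535792143)) (a (l 535830031) (l 535827215)))) (b (b (l 535856911) (l 535605263)) (l 14))))))) (a (l 4) (a (a (l 4) (l 14)) (l 14)))) (a (a (a (b (b (b (c (l 538693647) (c (l 537151759) (l 536335887))) (l 14)) (l 14)) (l 14)) (l 14)) (l 14)) (l 14))), by decide +kernel⟩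

def k122_A00pm_213_s3 : ∃ t, chk3 f_A00pm_213_s3 t 59 126 1 = true :=
  ⟨(b (c (b (b (a (c (l 16778424) (l 16776728)) (b (a (l 16774800) (a (l 16775352) (a (l 16775616) (l 16775536)))) (l 14))) (l 14)) (l 14)) (c (a (b (b (a (l 16777776) (l 16777856)) (l 14)) (l 14)) (c (b (b (a (l 16779152) (a (l 16779280) (a (l 16779408) (l 16774096)))) (l 14)) (l 14)) (b (a (l 16771544) (b (a (l 16776632) (b (l 16771304) (l 14))) (l 14))) (l 14)))) (c (b (b (b (a (l 16774480) (a (l 16774024) (a (l 16773792) (a (l 16773720) (l 16773680))))) (l 14)) (l 14)) (l 14)) (b (b (b (a (l 16766952) (a (l 16771368) (a (l 16770944) (a (l 16770792) (l 16770760))))) (l 14)) (l 14)) (l 14))))) (l 14)), by decide +kernel⟩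

def k123_A00pm_213_s3 : ∃ t, chk3 f_A00pm_213_s3 t 15 126 1 = true :=
  ⟨(a (b (b (b (b (b (a (a (c (l 16775096) (a (l 16764840) (l 16775592))) (c (l 16774008) (a (l 16775808) (l 16775976)))) (a (c (l 16772712) (l 16765672)) (c (l 16781776) (l 16765800)))) (l 14)) (l 14)) (l 14)) (l 14)) (l 14)) (b (b (b (b (a (a (c (l 16780264) (l 16771072)) (a (c (l 16779128) (l 16776304)) (l 16777896))) (a (l 16773376) (a (l 16779232) (l 16779600)))) (l 14)) (l 14)) (l 14)) (l 14))), by decide +kernel⟩

def k124_A00pm_213_s3 : ∃ t, chk3 f_A00pm_213_s3 t 7 127 1 = true :=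
  ⟨(a (a (l 4) (a (a (l 4) (l 14)) (l 14))) (l 14)), by decide +kernel⟩

theorem t125_A00pm_213_s3 : ∃ t, chk3 f_A00pm_213_s3 t 58 252 1 = true := ex3_a k119_A00pm_213_s3 k120_A00pm_213_s3

theorem t126_A00pm_213_s3 : ∃ t, chk3 f_A00pm_213_s3 t 58 126 1 = true := ex3_b t125_A00pm_213_s3 k121_A00pm_213_s3

theorem t127_A00pm_213_s3 : ∃ t, chk3 f_A00pm_213_s3 t 29 126 1 = true := ex3_a t126_A00pm_213_s3 k122_A00pm_213_s3

theorem t128_A00pm_213_s3 : ∃ t, chk3 f_A00pm_213_s3 t 115 252 1 = true := ex3_c k116_A00pm_213_s3 k117_A00pm_213_s3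

theorem t129_A00pm_213_s3 : ∃ t, chk3 f_A00pm_213_s3 t 57 252 1 = true := ex3_a k115_A00pm_213_s3 t128_A00pm_213_s3

theorem t130_A00pm_213_s3 : ∃ t, chk3 f_A00pm_213_s3 t 57 126 1 = true := ex3_b t129_A00pm_213_s3 k118_A00pm_213_s3

theorem t131_A00pm_213_s3 : ∃ t, chk3 f_A00pm_213_s3 t 28 126 1 = true := ex3_a k114_A00pm_213_s3 t130_A00pm_213_s3

theorem t132_A00pm_213_s3 : ∃ t, chk3 f_A00pm_213_s3 t 14 126 1 = true := ex3_a t131_A00pm_213_s3 t127_A00pm_213_s3

theorem t133_A00pm_213_s3 : ∃ t, chk3 f_A00pm_213_s3 t 7 126 1 = true := ex3_a t132_A00pm_213_s3 k123_A00pm_213_s3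

theorem t134_A00pm_213_s3 : ∃ t, chk3 f_A00pm_213_s3 t 7 63 1 = true := ex3_b t133_A00pm_213_s3 k124_A00pm_213_s3

theorem t135_A00pm_213_s3 : ∃ t, chk3 f_A00pm_213_s3 t 15 62 1 = true := ex3_a k112_A00pm_213_s3 k113_A00pm_213_s3

theorem t136_A00pm_213_s3 : ∃ t, chk3 f_A00pm_213_s3 t 59 125 1 = true := ex3_b k110_A00pm_213_s3 k111_A00pm_213_s3

theorem t137_A00pm_213_s3 : ∃ t, chk3 f_A00pm_213_s3 t 58 125 1 = true := ex3_b k108_A00pm_213_s3 k109_A00pm_213_s3

theorem t138_A00pm_213_s3 : ∃ t, chk3 f_A00pm_213_s3 t 29 125 1 = true := ex3_a t137_A00pm_213_s3 t136_A00pm_213_s3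

theorem t139_A00pm_213_s3 : ∃ t, chk3 f_A00pm_213_s3 t 57 251 1 = true := ex3_a k106_A00pm_213_s3 k107_A00pm_213_s3

theorem t140_A00pm_213_s3 : ∃ t, chk3 f_A00pm_213_s3 t 57 250 1 = true := ex3_a k104_A00pm_213_s3 k105_A00pm_213_s3

theorem t141_A00pm_213_s3 : ∃ t, chk3 f_A00pm_213_s3 t 57 125 1 = true := ex3_b t140_A00pm_213_s3 t139_A00pm_213_s3

theorem t142_A00pm_213_s3 : ∃ t, chk3 f_A00pm_213_s3 t 113 251 3 = true := ex3_c k102_A00pm_213_s3 k103_A00pm_213_s3

theorem t143_A00pm_213_s3 : ∃ t, chk3 f_A00pm_213_s3 t 113 251 1 = true := ex3_c k101_A00pm_213_s3 t142_A00pm_213_s3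

theorem t144_A00pm_213_s3 : ∃ t, chk3 f_A00pm_213_s3 t 112 251 1 = true := ex3_c k99_A00pm_213_s3 k100_A00pm_213_s3

theorem t145_A00pm_213_s3 : ∃ t, chk3 f_A00pm_213_s3 t 56 251 1 = true := ex3_a t144_A00pm_213_s3 t143_A00pm_213_s3

theorem t146_A00pm_213_s3 : ∃ t, chk3 f_A00pm_213_s3 t 112 250 1 = true := ex3_c k96_A00pm_213_s3 k97_A00pm_213_s3

theorem t147_A00pm_213_s3 : ∃ t, chk3 f_A00pm_213_s3 t 56 250 1 = true := ex3_a t146_A00pm_213_s3 k98_A00pm_213_s3

theorem t148_A00pm_213_s3 : ∃ t, chk3 f_A00pm_213_s3 t 56 125 1 = true := ex3_b t147_A00pm_213_s3 t145_A00pm_213_s3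

theorem t149_A00pm_213_s3 : ∃ t, chk3 f_A00pm_213_s3 t 28 125 1 = true := ex3_a t148_A00pm_213_s3 t141_A00pm_213_s3

theorem t150_A00pm_213_s3 : ∃ t, chk3 f_A00pm_213_s3 t 14 125 1 = true := ex3_a t149_A00pm_213_s3 t138_A00pm_213_s3

theorem t151_A00pm_213_s3 : ∃ t, chk3 f_A00pm_213_s3 t 56 249 1 = true := ex3_a k92_A00pm_213_s3 k93_A00pm_213_s3

theorem t152_A00pm_213_s3 : ∃ t, chk3 f_A00pm_213_s3 t 56 124 1 = true := ex3_b k91_A00pm_213_s3 t151_A00pm_213_s3

theorem t153_A00pm_213_s3 : ∃ t, chk3 f_A00pm_213_s3 t 28 124 1 = true := ex3_a t152_A00pm_213_s3 k94_A00pm_213_s3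

theorem t154_A00pm_213_s3 : ∃ t, chk3 f_A00pm_213_s3 t 14 124 1 = true := ex3_a t153_A00pm_213_s3 k95_A00pm_213_s3

theorem t155_A00pm_213_s3 : ∃ t, chk3 f_A00pm_213_s3 t 14 62 1 = true := ex3_b t154_A00pm_213_s3 t150_A00pm_213_s3

theorem t156_A00pm_213_s3 : ∃ t, chk3 f_A00pm_213_s3 t 7 62 1 = true := ex3_a t155_A00pm_213_s3 t135_A00pm_213_s3

theorem t157_A00pm_213_s3 : ∃ t, chk3 f_A00pm_213_s3 t 7 31 1 = true := ex3_b t156_A00pm_213_s3 t134_A00pm_213_s3

theorem t158_A00pm_213_s3 : ∃ t, chk3 f_A00pm_213_s3 t 28 61 1 = true := ex3_b k87_A00pm_213_s3 k88_A00pm_213_s3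

theorem t159_A00pm_213_s3 : ∃ t, chk3 f_A00pm_213_s3 t 14 61 1 = true := ex3_a t158_A00pm_213_s3 k89_A00pm_213_s3

theorem t160_A00pm_213_s3 : ∃ t, chk3 f_A00pm_213_s3 t 28 60 1 = true := ex3_b k84_A00pm_213_s3 k85_A00pm_213_s3

theorem t161_A00pm_213_s3 : ∃ t, chk3 f_A00pm_213_s3 t 14 60 1 = true := ex3_a t160_A00pm_213_s3 k86_A00pm_213_s3

theorem t162_A00pm_213_s3 : ∃ t, chk3 f_A00pm_213_s3 t 14 30 1 = true := ex3_b t161_A00pm_213_s3 t159_A00pm_213_s3

theorem t163_A00pm_213_s3 : ∃ t, chk3 f_A00pm_213_s3 t 7 30 1 = true := ex3_a t162_A00pm_213_s3 k90_A00pm_213_s3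

theorem t164_A00pm_213_s3 : ∃ t, chk3 f_A00pm_213_s3 t 7 15 1 = true := ex3_b t163_A00pm_213_s3 t157_A00pm_213_s3

theorem t165_A00pm_213_s3 : ∃ t, chk3 f_A00pm_213_s3 t 15 14 1 = true := ex3_b k82_A00pm_213_s3 k83_A00pm_213_s3

theorem t166_A00pm_213_s3 : ∃ t, chk3 f_A00pm_213_s3 t 14 14 1 = true := ex3_b k80_A00pm_213_s3 k81_A00pm_213_s3

theorem t167_A00pm_213_s3 : ∃ t, chk3 f_A00pm_213_s3 t 7 14 1 = true := ex3_a t166_A00pm_213_s3 t165_A00pm_213_s3

theorem t168_A00pm_213_s3 : ∃ t, chk3 f_A00pm_213_s3 t 7 7 1 = true := ex3_b t167_A00pm_213_s3 t164_A00pm_213_s3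

theorem t169_A00pm_213_s3 : ∃ t, chk3 f_A00pm_213_s3 t 30 27 1 = true := ex3_b k77_A00pm_213_s3 k78_A00pm_213_s3

theorem t170_A00pm_213_s3 : ∃ t, chk3 f_A00pm_213_s3 t 15 27 1 = true := ex3_a t169_A00pm_213_s3 k79_A00pm_213_s3

theorem t171_A00pm_213_s3 : ∃ t, chk3 f_A00pm_213_s3 t 15 13 1 = true := ex3_b k76_A00pm_213_s3 t170_A00pm_213_s3

theorem t172_A00pm_213_s3 : ∃ t, chk3 f_A00pm_213_s3 t 7 13 1 = true := ex3_a k75_A00pm_213_s3 t171_A00pm_213_s3

theorem t173_A00pm_213_s3 : ∃ t, chk3 f_A00pm_213_s3 t 7 6 1 = true := ex3_b k74_A00pm_213_s3 t172_A00pm_213_s3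

theorem t174_A00pm_213_s3 : ∃ t, chk3 f_A00pm_213_s3 t 7 3 1 = true := ex3_b t173_A00pm_213_s3 t168_A00pm_213_s3

theorem t175_A00pm_213_s3 : ∃ t, chk3 f_A00pm_213_s3 t 55 250 3 = true := ex3_c k70_A00pm_213_s3 k71_A00pm_213_s3

theorem t176_A00pm_213_s3 : ∃ t, chk3 f_A00pm_213_s3 t 55 250 1 = true := ex3_c k69_A00pm_213_s3 t175_A00pm_213_s3

theorem t177_A00pm_213_s3 : ∃ t, chk3 f_A00pm_213_s3 t 55 125 1 = true := ex3_b t176_A00pm_213_s3 k72_A00pm_213_s3

theorem t178_A00pm_213_s3 : ∃ t, chk3 f_A00pm_213_s3 t 27 125 1 = true := ex3_a k68_A00pm_213_s3 t177_A00pm_213_s3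

theorem t179_A00pm_213_s3 : ∃ t, chk3 f_A00pm_213_s3 t 55 249 3 = true := ex3_c k66_A00pm_213_s3 k67_A00pm_213_s3

theorem t180_A00pm_213_s3 : ∃ t, chk3 f_A00pm_213_s3 t 55 249 1 = true := ex3_c k65_A00pm_213_s3 t179_A00pm_213_s3

theorem t181_A00pm_213_s3 : ∃ t, chk3 f_A00pm_213_s3 t 55 124 1 = true := ex3_b k64_A00pm_213_s3 t180_A00pm_213_s3

theorem t182_A00pm_213_s3 : ∃ t, chk3 f_A00pm_213_s3 t 54 249 1 = true := ex3_c k62_A00pm_213_s3 k63_A00pm_213_s3

theorem t183_A00pm_213_s3 : ∃ t, chk3 f_A00pm_213_s3 t 54 248 1 = true := ex3_c k60_A00pm_213_s3 k61_A00pm_213_s3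

theorem t184_A00pm_213_s3 : ∃ t, chk3 f_A00pm_213_s3 t 54 124 1 = true := ex3_b t183_A00pm_213_s3 t182_A00pm_213_s3

theorem t185_A00pm_213_s3 : ∃ t, chk3 f_A00pm_213_s3 t 27 124 1 = true := ex3_a t184_A00pm_213_s3 t181_A00pm_213_s3

theorem t186_A00pm_213_s3 : ∃ t, chk3 f_A00pm_213_s3 t 27 62 1 = true := ex3_b t185_A00pm_213_s3 t178_A00pm_213_s3

theorem t187_A00pm_213_s3 : ∃ t, chk3 f_A00pm_213_s3 t 13 62 1 = true := ex3_a k59_A00pm_213_s3 t186_A00pm_213_s3

theorem t188_A00pm_213_s3 : ∃ t, chk3 f_A00pm_213_s3 t 13 31 1 = true := ex3_b t187_A00pm_213_s3 k73_A00pm_213_s3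

theorem t189_A00pm_213_s3 : ∃ t, chk3 f_A00pm_213_s3 t 6 31 1 = true := ex3_a k58_A00pm_213_s3 t188_A00pm_213_s3

theorem t190_A00pm_213_s3 : ∃ t, chk3 f_A00pm_213_s3 t 54 123 1 = true := ex3_c k55_A00pm_213_s3 k56_A00pm_213_s3

theorem t191_A00pm_213_s3 : ∃ t, chk3 f_A00pm_213_s3 t 27 123 1 = true := ex3_a t190_A00pm_213_s3 k57_A00pm_213_s3

theorem t192_A00pm_213_s3 : ∃ t, chk3 f_A00pm_213_s3 t 27 61 1 = true := ex3_b k54_A00pm_213_s3 t191_A00pm_213_s3

theorem t193_A00pm_213_s3 : ∃ t, chk3 f_A00pm_213_s3 t 53 123 3 = true := ex3_c k52_A00pm_213_s3 k53_A00pm_213_s3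

theorem t194_A00pm_213_s3 : ∃ t, chk3 f_A00pm_213_s3 t 53 247 2 = true := ex3_c k50_A00pm_213_s3 k51_A00pm_213_s3

theorem t195_A00pm_213_s3 : ∃ t, chk3 f_A00pm_213_s3 t 53 123 2 = true := ex3_b k49_A00pm_213_s3 t194_A00pm_213_s3

theorem t196_A00pm_213_s3 : ∃ t, chk3 f_A00pm_213_s3 t 53 123 1 = true := ex3_c t195_A00pm_213_s3 t193_A00pm_213_s3

theorem t197_A00pm_213_s3 : ∃ t, chk3 f_A00pm_213_s3 t 52 123 1 = true := ex3_c k47_A00pm_213_s3 k48_A00pm_213_s3

theorem t198_A00pm_213_s3 : ∃ t, chk3 f_A00pm_213_s3 t 26 123 1 = true := ex3_a t197_A00pm_213_s3 t196_A00pm_213_s3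

theorem t199_A00pm_213_s3 : ∃ t, chk3 f_A00pm_213_s3 t 52 122 1 = true := ex3_c k44_A00pm_213_s3 k45_A00pm_213_s3

theorem t200_A00pm_213_s3 : ∃ t, chk3 f_A00pm_213_s3 t 26 122 1 = true := ex3_a t199_A00pm_213_s3 k46_A00pm_213_s3

theorem t201_A00pm_213_s3 : ∃ t, chk3 f_A00pm_213_s3 t 26 61 1 = true := ex3_b t200_A00pm_213_s3 t198_A00pm_213_s3

theorem t202_A00pm_213_s3 : ∃ t, chk3 f_A00pm_213_s3 t 13 61 1 = true := ex3_a t201_A00pm_213_s3 t192_A00pm_213_s3

theorem t203_A00pm_213_s3 : ∃ t, chk3 f_A00pm_213_s3 t 27 60 2 = true := ex3_b k41_A00pm_213_s3 k42_A00pm_213_s3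

theorem t204_A00pm_213_s3 : ∃ t, chk3 f_A00pm_213_s3 t 27 60 1 = true := ex3_c t203_A00pm_213_s3 k43_A00pm_213_s3

theorem t205_A00pm_213_s3 : ∃ t, chk3 f_A00pm_213_s3 t 26 60 1 = true := ex3_b k39_A00pm_213_s3 k40_A00pm_213_s3

theorem t206_A00pm_213_s3 : ∃ t, chk3 f_A00pm_213_s3 t 13 60 1 = true := ex3_a t205_A00pm_213_s3 t204_A00pm_213_s3

theorem t207_A00pm_213_s3 : ∃ t, chk3 f_A00pm_213_s3 t 13 30 1 = true := ex3_b t206_A00pm_213_s3 t202_A00pm_213_s3

theorem t208_A00pm_213_s3 : ∃ t, chk3 f_A00pm_213_s3 t 25 121 2 = true := ex3_a k35_A00pm_213_s3 k36_A00pm_213_s3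

theorem t209_A00pm_213_s3 : ∃ t, chk3 f_A00pm_213_s3 t 25 121 1 = true := ex3_c t208_A00pm_213_s3 k37_A00pm_213_s3

theorem t210_A00pm_213_s3 : ∃ t, chk3 f_A00pm_213_s3 t 25 120 1 = true := ex3_c k33_A00pm_213_s3 k34_A00pm_213_s3

theorem t211_A00pm_213_s3 : ∃ t, chk3 f_A00pm_213_s3 t 25 60 1 = true := ex3_b t210_A00pm_213_s3 t209_A00pm_213_s3

theorem t212_A00pm_213_s3 : ∃ t, chk3 f_A00pm_213_s3 t 49 120 2 = true := ex3_c k29_A00pm_213_s3 k30_A00pm_213_s3

theorem t213_A00pm_213_s3 : ∃ t, chk3 f_A00pm_213_s3 t 49 60 2 = true := ex3_b t212_A00pm_213_s3 k31_A00pm_213_s3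

theorem t214_A00pm_213_s3 : ∃ t, chk3 f_A00pm_213_s3 t 24 60 2 = true := ex3_a k28_A00pm_213_s3 t213_A00pm_213_s3

theorem t215_A00pm_213_s3 : ∃ t, chk3 f_A00pm_213_s3 t 24 60 1 = true := ex3_c t214_A00pm_213_s3 k32_A00pm_213_s3

theorem t216_A00pm_213_s3 : ∃ t, chk3 f_A00pm_213_s3 t 12 60 1 = true := ex3_a t215_A00pm_213_s3 t211_A00pm_213_s3

theorem t217_A00pm_213_s3 : ∃ t, chk3 f_A00pm_213_s3 t 12 30 1 = true := ex3_b t216_A00pm_213_s3 k38_A00pm_213_s3

theorem t218_A00pm_213_s3 : ∃ t, chk3 f_A00pm_213_s3 t 6 30 1 = true := ex3_a t217_A00pm_213_s3 t207_A00pm_213_s3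

theorem t219_A00pm_213_s3 : ∃ t, chk3 f_A00pm_213_s3 t 6 15 1 = true := ex3_b t218_A00pm_213_s3 t189_A00pm_213_s3

theorem t220_A00pm_213_s3 : ∃ t, chk3 f_A00pm_213_s3 t 13 59 1 = true := ex3_c k26_A00pm_213_s3 k27_A00pm_213_s3

theorem t221_A00pm_213_s3 : ∃ t, chk3 f_A00pm_213_s3 t 25 59 1 = true := ex3_a k24_A00pm_213_s3 k25_A00pm_213_s3

theorem t222_A00pm_213_s3 : ∃ t, chk3 f_A00pm_213_s3 t 49 59 3 = true := ex3_c k22_A00pm_213_s3 k23_A00pm_213_s3

theorem t223_A00pm_213_s3 : ∃ t, chk3 f_A00pm_213_s3 t 49 59 2 = true := ex3_b k20_A00pm_213_s3 k21_A00pm_213_s3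

theorem t224_A00pm_213_s3 : ∃ t, chk3 f_A00pm_213_s3 t 49 59 1 = true := ex3_c t223_A00pm_213_s3 t222_A00pm_213_s3

theorem t225_A00pm_213_s3 : ∃ t, chk3 f_A00pm_213_s3 t 24 59 1 = true := ex3_a k19_A00pm_213_s3 t224_A00pm_213_s3

theorem t226_A00pm_213_s3 : ∃ t, chk3 f_A00pm_213_s3 t 12 59 1 = true := ex3_a t225_A00pm_213_s3 t221_A00pm_213_s3

theorem t227_A00pm_213_s3 : ∃ t, chk3 f_A00pm_213_s3 t 6 59 1 = true := ex3_a t226_A00pm_213_s3 t220_A00pm_213_s3

theorem t228_A00pm_213_s3 : ∃ t, chk3 f_A00pm_213_s3 t 12 58 1 = true := ex3_a k16_A00pm_213_s3 k17_A00pm_213_s3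

theorem t229_A00pm_213_s3 : ∃ t, chk3 f_A00pm_213_s3 t 6 58 1 = true := ex3_a t228_A00pm_213_s3 k18_A00pm_213_s3

theorem t230_A00pm_213_s3 : ∃ t, chk3 f_A00pm_213_s3 t 6 29 1 = true := ex3_b t229_A00pm_213_s3 t227_A00pm_213_s3

theorem t231_A00pm_213_s3 : ∃ t, chk3 f_A00pm_213_s3 t 6 57 1 = true := ex3_a k14_A00pm_213_s3 k15_A00pm_213_s3

theorem t232_A00pm_213_s3 : ∃ t, chk3 f_A00pm_213_s3 t 6 28 1 = true := ex3_b k13_A00pm_213_s3 t231_A00pm_213_s3

theorem t233_A00pm_213_s3 : ∃ t, chk3 f_A00pm_213_s3 t 6 14 1 = true := ex3_b t232_A00pm_213_s3 t230_A00pm_213_s3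

theorem t234_A00pm_213_s3 : ∃ t, chk3 f_A00pm_213_s3 t 6 7 1 = true := ex3_b t233_A00pm_213_s3 t219_A00pm_213_s3

theorem t235_A00pm_213_s3 : ∃ t, chk3 f_A00pm_213_s3 t 6 13 1 = true := ex3_b k11_A00pm_213_s3 k12_A00pm_213_s3

theorem t236_A00pm_213_s3 : ∃ t, chk3 f_A00pm_213_s3 t 6 6 1 = true := ex3_b k10_A00pm_213_s3 t235_A00pm_213_s3

theorem t237_A00pm_213_s3 : ∃ t, chk3 f_A00pm_213_s3 t 6 3 1 = true := ex3_b t236_A00pm_213_s3 t234_A00pm_213_s3

theorem t238_A00pm_213_s3 : ∃ t, chk3 f_A00pm_213_s3 t 3 3 1 = true := ex3_a t237_A00pm_213_s3 t174_A00pm_213_s3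

theorem t239_A00pm_213_s3 : ∃ t, chk3 f_A00pm_213_s3 t 3 1 1 = true := ex3_b k9_A00pm_213_s3 t238_A00pm_213_s3

theorem t240_A00pm_213_s3 : ∃ t, chk3 f_A00pm_213_s3 t 11 14 1 = true := ex3_b k6_A00pm_213_s3 k7_A00pm_213_s3

theorem t241_A00pm_213_s3 : ∃ t, chk3 f_A00pm_213_s3 t 5 14 1 = true := ex3_a k5_A00pm_213_s3 t240_A00pm_213_s3

theorem t242_A00pm_213_s3 : ∃ t, chk3 f_A00pm_213_s3 t 5 7 1 = true := ex3_b t241_A00pm_213_s3 k8_A00pm_213_s3

theorem t243_A00pm_213_s3 : ∃ t, chk3 f_A00pm_213_s3 t 5 13 1 = true := ex3_a k3_A00pm_213_s3 k4_A00pm_213_s3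

theorem t244_A00pm_213_s3 : ∃ t, chk3 f_A00pm_213_s3 t 5 6 1 = true := ex3_b k2_A00pm_213_s3 t243_A00pm_213_s3

theorem t245_A00pm_213_s3 : ∃ t, chk3 f_A00pm_213_s3 t 5 3 1 = true := ex3_b t244_A00pm_213_s3 t242_A00pm_213_s3

theorem t246_A00pm_213_s3 : ∃ t, chk3 f_A00pm_213_s3 t 2 3 1 = true := ex3_a k1_A00pm_213_s3 t245_A00pm_213_s3

theorem t247_A00pm_213_s3 : ∃ t, chk3 f_A00pm_213_s3 t 2 1 1 = true := ex3_b k0_A00pm_213_s3 t246_A00pm_213_s3

theorem t248_A00pm_213_s3 : ∃ t, chk3 f_A00pm_213_s3 t 1 1 1 = true := ex3_a t247_A00pm_213_s3 t239_A00pm_213_s3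

theorem c_A00pm_213_s3 : CertF 0 536870912 536870912 536870912 818728140 40265320 true true false .pnn 2 1 3
    ndB0q2 ndB0q1 pcB3 cut_A00pm_213_s3 xt_A00pm_213_s3 :=
  certF1 (fam := true) (s1 := true) (s2 := false) (a := 2) (b := 1) (c := 3) (cn := .pnn) (n1 := ndB0q2) (n2 := ndB0q1) (pc := pcB3) (cut := cut_A00pm_213_s3) (xt := xt_A00pm_213_s3) (P1 := 0) (W1 := 536870912) (P2 := 536870912) (W2 := 536870912) (P3 := 818728140) (W3 := 40265320)
    rfl (fun _ => rfl) t248_A00pm_213_s3

theorem s_A00pm_213_s3 {κ x : ℝ} (hκ : κ * h0 = ken x) (hx : ((818728140 : ℕ) : ℝ) / S ≤ x)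
    (hx' : x ≤ (((818728140 : ℕ) : ℝ) + (40265320 : ℕ)) / S)
    (H : CutA (VFD κ) PP tK tL pcB (Cut.of [[⟨0, 1, 0, 67108864⟩, ⟨1, 1, 0, 67108864⟩, ⟨2, 2, 0, 16777216⟩], [⟨0, 1, 0, 33554432⟩, ⟨1, 0, 1, 26214400⟩, ⟨2, 1, 1, 26214400⟩]]) 2 1 3 0 0 (sgb true) (sgb false) x) :
    AltA (VFD κ) PP tK tL pcB [⟨4, 0, 0, 2845415833⟩] 2 1 3 0 0 (sgb true) (sgb false) x :=
  strip_altAD (m := 2845415833) false rfl hκ (SH.κ0 hκ (SH.hx1 hx).le (SH.hx2 hx').le) (SH.hx1 hx).le (SH.hx2 hx') (covB02).cov (covB01).cov hx hx' c_A00pm_213_s3 H ((okx hx hx').extA (T := tt) (sideB hx hx') hκ rfl rfl (.O 2 true) (.O 1 false) (Or.inr rfl))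

end Pool.Agent.Strip051.G.I7625_8000.Tab.St.C
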