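import Pool.Agent.Strip051.G.I7625_8000.Tab
import Pool.Agent.Strip051.PB.StripB

/-! # Strips, near vertex: certificates 0 (generated) -/

set_option linter.all false
set_option maxRecDepth 100000

namespace Pool.Agent.Strip051.G.I7625_8000.Tab.CS.BA00

open Pool.Agent.Strip051.PB Pool.Agent.Strip051.PB.T
open Pool.Agent.Strip051.G.I7625_8000.Tab

noncomputable def cut_pp_001_s : Cut := Cut.of [[⟨4, 0, 0, 1449551462⟩]]

noncomputable def f_pp_001_s : ℕ → ℕ → ℕ → ℕ → Bool := onCell 0 536870912 0 536870912 818728140 40265320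
    (rowNE 3 eng mog cd0q0 cd0q0 pd1 0 true true true .up 0 0 1 (qsf 0 536870912 0 536870912 1) ndB0q0 ndB0q0 pcB1 cut_pp_001_s Ext.none)

def k0_pp_001_s : ∃ t, chk3 f_pp_001_s t 1 1 1 = true :=
  ⟨(l 4), by decide +kernel⟩

theorem c_pp_001_s : CertNE 0 536870912 0 536870912 818728140 40265320 3 eng mog cd0q0 cd0q0 pd1 true true true .up 0 0 1
    ndB0q0 ndB0q0 pcB1 cut_pp_001_s Ext.none :=
  certNE0 (fam := true) (s1 := true) (s2 := true) (a := 0) (b := 0) (c := 1) (cn := .up) (n1 := ndB0q0) (n2 := ndB0q0) (pc := pcB1) (cut := cut_pp_001_s) (xt := Ext.none) (P1 := 0) (W1 := 536870912) (P2 := 0) (W2 := 536870912) (P3 := 818728140) (W3 := 40265320) (N0 := 3) (En := eng) (mo := mog) (C1 := cd0q0) (C2 := cd0q0) (C3 := pd1)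
    rfl k0_pp_001_s

noncomputable def cut_pp_001_t : Cut := Cut.of [[⟨3, 0, 0, 2845415833⟩]]

noncomputable def f_pp_001_t : ℕ → ℕ → ℕ → ℕ → Bool := onCell 0 536870912 0 536870912 818728140 40265320
    (rowNE 3 eng mog cd0q0 cd0q0 pd1 0 true true true .up 0 0 1 (qsf 0 536870912 0 536870912 1) ndB0q0 ndB0q0 pcB1 cut_pp_001_t Ext.none)

def k0_pp_001_t : ∃ t, chk3 f_pp_001_t t 1 1 1 = true :=
  ⟨(l 4), by decide +kernel⟩

theorem c_pp_001_t : CertNE 0 536870912 0 536870912 818728140 40265320 3 eng mog cd0q0 cd0q0 pd1 true true true .up 0 0 1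
    ndB0q0 ndB0q0 pcB1 cut_pp_001_t Ext.none :=
  certNE0 (fam := true) (s1 := true) (s2 := true) (a := 0) (b := 0) (c := 1) (cn := .up) (n1 := ndB0q0) (n2 := ndB0q0) (pc := pcB1) (cut := cut_pp_001_t) (xt := Ext.none) (P1 := 0) (W1 := 536870912) (P2 := 0) (W2 := 536870912) (P3 := 818728140) (W3 := 40265320) (N0 := 3) (En := eng) (mo := mog) (C1 := cd0q0) (C2 := cd0q0) (C3 := pd1)
    rfl k0_pp_001_t

noncomputable def cut_pp_011_s : Cut := Cut.of [[⟨4, 0, 0, 1449551462⟩], [⟨0, 0, 0, 67108864⟩, ⟨1, 1, 0, 67108864⟩, ⟨2, 1, 0, 67108864⟩]]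

noncomputable def f_pp_011_s : ℕ → ℕ → ℕ → ℕ → Bool := onCell 0 536870912 536870912 536870912 818728140 40265320
    (rowNE 3 eng mog cd0q0 cd0q1 pd1 0 true true true .pnn 0 1 1 (qsf 0 536870912 536870912 536870912 1) ndB0q0 ndB0q1 pcB1 cut_pp_011_s Ext.none)

def k0_pp_011_s : ∃ t, chk3 f_pp_011_s t 1 1 1 = true :=
  ⟨(l 6), by decide +kernel⟩

theorem c_pp_011_s : CertNE 0 536870912 536870912 536870912 818728140 40265320 3 eng mog cd0q0 cd0q1 pd1 true true true .pnn 0 1 1
    ndB0q0 ndB0q1 pcB1 cut_pp_011_s Ext.none :=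
  certNE0 (fam := true) (s1 := true) (s2 := true) (a := 0) (b := 1) (c := 1) (cn := .pnn) (n1 := ndB0q0) (n2 := ndB0q1) (pc := pcB1) (cut := cut_pp_011_s) (xt := Ext.none) (P1 := 0) (W1 := 536870912) (P2 := 536870912) (W2 := 536870912) (P3 := 818728140) (W3 := 40265320) (N0 := 3) (En := eng) (mo := mog) (C1 := cd0q0) (C2 := cd0q1) (C3 := pd1)
    rfl k0_pp_011_s

noncomputable def cut_pp_011_t : Cut := Cut.of [[⟨3, 0, 0, 2845415833⟩], [⟨0, 0, 0, 67108864⟩, ⟨1, 1, 0, 67108864⟩, ⟨2, 1, 0, 67108864⟩]]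

noncomputable def f_pp_011_t : ℕ → ℕ → ℕ → ℕ → Bool := onCell 0 536870912 536870912 536870912 818728140 40265320
    (rowNE 3 eng mog cd0q0 cd0q1 pd1 0 true true true .pnn 0 1 1 (qsf 0 536870912 536870912 536870912 1) ndB0q0 ndB0q1 pcB1 cut_pp_011_t Ext.none)

def k0_pp_011_t : ∃ t, chk3 f_pp_011_t t 1 1 1 = true :=
  ⟨(b (l 4) (a (b (l 4) (a (b (l 4) (a (b (l 4) (a (l 14) (l 4))) (l 4))) (l 4))) (l 4))), by decide +kernel⟩

theorem c_pp_011_t : CertNE 0 536870912 536870912 536870912 818728140 40265320 3 eng mog cd0q0 cd0q1 pd1 true true true .pnn 0 1 1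
    ndB0q0 ndB0q1 pcB1 cut_pp_011_t Ext.none :=
  certNE0 (fam := true) (s1 := true) (s2 := true) (a := 0) (b := 1) (c := 1) (cn := .pnn) (n1 := ndB0q0) (n2 := ndB0q1) (pc := pcB1) (cut := cut_pp_011_t) (xt := Ext.none) (P1 := 0) (W1 := 536870912) (P2 := 536870912) (W2 := 536870912) (P3 := 818728140) (W3 := 40265320) (N0 := 3) (En := eng) (mo := mog) (C1 := cd0q0) (C2 := cd0q1) (C3 := pd1)
    rfl k0_pp_011_t

noncomputable def cut_pp_012_s : Cut := Cut.of [[⟨4, 0, 0, 1449551462⟩], [⟨0, 0, 0, 67108864⟩, ⟨1, 1, 0, 67108864⟩, ⟨2, 1, 0, 67108864⟩]]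

noncomputable def f_pp_012_s : ℕ → ℕ → ℕ → ℕ → Bool := onCell 0 536870912 536870912 536870912 818728140 40265320
    (rowNE 3 eng mog cd0q0 cd0q1 pd2 0 true true true .pnp 0 1 2 (qsf 0 536870912 536870912 536870912 2) ndB0q0 ndB0q1 pcB2 cut_pp_012_s Ext.none)

def k0_pp_012_s : ∃ t, chk3 f_pp_012_s t 1 1 1 = true :=
  ⟨(l 6), by decide +kernel⟩

theorem c_pp_012_s : CertNE 0 536870912 536870912 536870912 818728140 40265320 3 eng mog cd0q0 cd0q1 pd2 true true true .pnp 0 1 2
    ndB0q0 ndB0q1 pcB2 cut_pp_012_s Ext.none :=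
  certNE0 (fam := true) (s1 := true) (s2 := true) (a := 0) (b := 1) (c := 2) (cn := .pnp) (n1 := ndB0q0) (n2 := ndB0q1) (pc := pcB2) (cut := cut_pp_012_s) (xt := Ext.none) (P1 := 0) (W1 := 536870912) (P2 := 536870912) (W2 := 536870912) (P3 := 818728140) (W3 := 40265320) (N0 := 3) (En := eng) (mo := mog) (C1 := cd0q0) (C2 := cd0q1) (C3 := pd2)
    rfl k0_pp_012_s

noncomputable def cut_pp_012_t : Cut := Cut.of [[⟨3, 0, 0, 2845415833⟩], [⟨0, 0, 0, 67108864⟩, ⟨1, 1, 0, 67108864⟩, ⟨2, 1, 0, 67108864⟩]]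

noncomputable def f_pp_012_t : ℕ → ℕ → ℕ → ℕ → Bool := onCell 0 536870912 536870912 536870912 818728140 40265320
    (rowNE 3 eng mog cd0q0 cd0q1 pd2 0 true true true .pnp 0 1 2 (qsf 0 536870912 536870912 536870912 2) ndB0q0 ndB0q1 pcB2 cut_pp_012_t Ext.none)

def k0_pp_012_t : ∃ t, chk3 f_pp_012_t t 1 1 1 = true :=
  ⟨(b (l 4) (a (b (l 4) (a (b (l 4) (a (b (l 4) (a (l 14) (l 4))) (l 4))) (l 4))) (l 4))), by decide +kernel⟩

theorem c_pp_012_t : CertNE 0 536870912 536870912 536870912 818728140 40265320 3 eng mog cd0q0 cd0q1 pd2 true true true .pnp 0 1 2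
    ndB0q0 ndB0q1 pcB2 cut_pp_012_t Ext.none :=
  certNE0 (fam := true) (s1 := true) (s2 := true) (a := 0) (b := 1) (c := 2) (cn := .pnp) (n1 := ndB0q0) (n2 := ndB0q1) (pc := pcB2) (cut := cut_pp_012_t) (xt := Ext.none) (P1 := 0) (W1 := 536870912) (P2 := 536870912) (W2 := 536870912) (P3 := 818728140) (W3 := 40265320) (N0 := 3) (En := eng) (mo := mog) (C1 := cd0q0) (C2 := cd0q1) (C3 := pd2)
    rfl k0_pp_012_t

noncomputable def cut_pp_022_s : Cut := Cut.of [[⟨4, 0, 0, 1449551462⟩], [⟨0, 0, 0, 67108864⟩, ⟨1, 1, 0, 67108864⟩, ⟨2, 1, 0, 67108864⟩]]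

noncomputable def f_pp_022_s : ℕ → ℕ → ℕ → ℕ → Bool := onCell 0 536870912 0 536870912 818728140 40265320
    (rowNE 3 eng mog cd0q0 cd0q2 pd2 0 true true true .pp 0 2 2 (qsf 0 536870912 0 536870912 2) ndB0q0 ndB0q2 pcB2 cut_pp_022_s Ext.none)

def k0_pp_022_s : ∃ t, chk3 f_pp_022_s t 1 1 1 = true :=
  ⟨(l 6), by decide +kernel⟩

theorem c_pp_022_s : CertNE 0 536870912 0 536870912 818728140 40265320 3 eng mog cd0q0 cd0q2 pd2 true true true .pp 0 2 2
    ndB0q0 ndB0q2 pcB2 cut_pp_022_s Ext.none :=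
  certNE0 (fam := true) (s1 := true) (s2 := true) (a := 0) (b := 2) (c := 2) (cn := .pp) (n1 := ndB0q0) (n2 := ndB0q2) (pc := pcB2) (cut := cut_pp_022_s) (xt := Ext.none) (P1 := 0) (W1 := 536870912) (P2 := 0) (W2 := 536870912) (P3 := 818728140) (W3 := 40265320) (N0 := 3) (En := eng) (mo := mog) (C1 := cd0q0) (C2 := cd0q2) (C3 := pd2)
    rfl k0_pp_022_s

noncomputable def cut_pp_022_t : Cut := Cut.of [[⟨3, 0, 0, 2845415833⟩], [⟨0, 0, 0, 67108864⟩, ⟨1, 1, 0, 67108864⟩, ⟨2, 1, 0, 67108864⟩]]

noncomputable def f_pp_022_t : ℕ → ℕ → ℕ → ℕ → Bool := onCell 0 536870912 0 536870912 818728140 40265320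
    (rowNE 3 eng mog cd0q0 cd0q2 pd2 0 true true true .pp 0 2 2 (qsf 0 536870912 0 536870912 2) ndB0q0 ndB0q2 pcB2 cut_pp_022_t Ext.none)

def k0_pp_022_t : ∃ t, chk3 f_pp_022_t t 2 2 1 = true :=
  ⟨(a (b (l 6) (a (l 6) (b (l 6) (b (l 6) (a (a (l 6) (b (l 6) (l 16538440))) (a (b (l 16537104) (l 16552736)) (b (l 16551912) (l 16567560)))))))) (b (a (l 6) (b (l 6) (a (l 6) (b (l 6) (l 16589752))))) (a (a (b (l 6) (b (a (l 16545968) (l 16563168)) (a (b (l 16567760) (l 16583384)) (a (l 16588296) (l 16597192))))) (b (b (l 6) (a (l 16554848) (l 16573064))) (a (b (l 16581312) (l 16673712)) (b (l 16599448) (a (l 16624312) (l 16633288)))))) (b (c (a (b (l 16578592) (l 16559864)) (l 16644960)) (a (b (l 16574616) (l 16577256)) (l 16663768))) (a (b (a (l 16617400) (l 16635064)) (a (b (l 16638920) (l 16654320)) (b (l 16656496) (l 16671824)))) (a (b (l 16652320) (b (l 16673680) (l 16688928))) (b (l 16669040) (c (l 16656560) (l 16676456))))))))), by decide +kernel⟩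

def k1_pp_022_t : ∃ t, chk3 f_pp_022_t t 8 6 1 = true :=
  ⟨(b (a (b (l 6) (b (l 6) (a (a (l 6) (l 16528792)) (c (l 16529352) (l 16524936))))) (a (b (l 6) (b (a (l 16537800) (l 16546008)) (c (l 16551464) (l 16544544)))) (b (b (l 6) (l 16541312)) (b (a (l 16554120) (l 16562128)) (a (l 16560552) (l 16572672)))))) (a (a (b (b (a (c (l 16539392) (l 16533040)) (c (l 16548128) (l 16541712))) (a (a (l 16571272) (l 16575712)) (c (l 16564272) (l 16558440)))) (b (a (c (l 16592544) (l 16587640)) (c (l 16580664) (l 16596664))) (a (c (b (l 16583904) (l 16592312)) (b (l 16579856) (l 16588912))) (c (b (l 16593144) (l 16601656)) (b (l 16589016) (l 16598168)))))) (b (b (a (b (l 16549544) (l 16557768)) (c (l 16565552) (l 16559104))) (a (c (l 16573168) (l 16567296)) (c (l 16582048) (l 16576176)))) (b (a (b (l 16582936) (l 16612528)) (c (l 16598808) (l 16614752))) (a (c (b (l 16602376) (l 16610992)) (b (l 16598192) (l 16607424))) (c (b (l 16611584) (l 16620296)) (b (l 16607376) (l 16616696))))))) (b (a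 (b (a (c (l 16574200) (l 16567792)) (c (l 16582736) (l 16576424))) (a (c (l 16590888) (l 16585048)) (c (l 16599664) (l 16593904)))) (b (a (c (l 16591160) (l 16585000)) (b (l 16592152) (l 16579920))) (a (c (l 16608328) (l 16602688)) (c (l 16616848) (l 16611408))))) (b (a (a (c (l 16628824) (l 16623816)) (c (l 16637824) (l 16606656))) (a (c (l 16646752) (l 16615672)) (c (l 16655544) (l 16627896)))) (a (a (c (b (l 16620776) (l 16629592)) (b (l 16616568) (l 16625976))) (c (b (l 16629944) (l 16638872)) (b (l 16625768) (l 16635272)))) (a (c (b (l 16639064) (l 16648096)) (a (l 16658432) (l 16663040))) (c (a (l 16671392) (l 16675896)) (c (l 16670896) (l 16668936))))))))), by decide +kernel⟩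

def k2_pp_022_t : ∃ t, chk3 f_pp_022_t t 18 6 1 = true :=
  ⟨(a (b (b (b (l 16540024) (l 16556776)) (b (l 16563432) (a (l 16587288) (l 16595216)))) (b (b (a (b (l 16600368) (l 16588248)) (l 16602480)) (a (c (l 16646168) (l 16609592)) (c (l 16633312) (l 16628728)))) (c (b (a (b (l 16638640) (l 16647728)) (c (l 16673600) (l 16650688))) (b (a (l 16656928) (l 16665640)) (a (l 16666256) (l 16675120)))) (b (a (b (l 16633944) (l 16643440)) (c (l 16648616) (l 16667392))) (a (a (l 16676752) (l 16681280)) (b (l 16651568) (l 16692984))))))) (b (b (b (l 16554712) (l 16550728)) (b (a (l 16585352) (l 16592856)) (a (l 16602992) (l 16610680)))) (b (b (a (b (l 16616384) (l 16625464)) (b (l 16624232) (l 16633424))) (a (c (l 16641232) (l 16637288)) (a (l 16666392) (l 16670456)))) (b (a (c (l 16659904) (l 16656296)) (c (l 16689000) (l 16675480))) (a (c (b (l 16695104) (l 16694280)) (b (l 16668336) (a (l 16678752) (l 16683232)))) (b (c (l 16682496) (l 16679832)) (c (l 16692336) (l 16689984)))))))), by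 decide +kernel⟩

def k3_pp_022_t : ∃ t, chk3 f_pp_022_t t 19 6 1 = true :=
  ⟨(b (a (b (b (l 16569168) (a (l 16582704) (l 16590056))) (b (a (l 16600360) (l 16607864)) (c (l 16644328) (l 16610552)))) (b (b (l 16584016) (a (l 16597512) (l 16605136))) (b (a (l 16615392) (l 16623048)) (c (l 16659120) (l 16637104))))) (b (b (a (c (a (l 16638056) (l 16645656)) (a (l 16635376) (l 16643600))) (c (a (l 16653288) (l 16660960)) (a (l 16651824) (l 16660048)))) (b (a (a (l 16650792) (l 16658864)) (a (l 16666968) (l 16696064))) (a (a (l 16660336) (l 16668544)) (a (l 16697736) (l 16695512))))) (a (b (a (b (l 16690992) (c (l 16681000) (l 16678600))) (b (l 16688840) (c (l 16689240) (l 16687328)))) (a (c (b (l 16690864) (l 16700872)) (b (l 16688688) (l 16698968))) (b (c (l 16699264) (l 16697544)) (c (l 16709432) (l 16707944))))) (c (b (b (a (l 16687456) (l 16695632)) (a (l 16697512) (l 16705848))) (a (b (l 16707704) (l 16725912)) (b (l 16726688) (a (l 16724536) (l 16728888))))) (b (a (b (l 16685920)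 (l 16696064)) (b (l 16694544) (l 16704808))) (b (a (l 16706400) (l 16725752)) (a (a (l 16714672) (l 16719168)) (a (l 16723664) (l 16728168))))))))), by decide +kernel⟩

def k4_pp_022_t : ∃ t, chk3 f_pp_022_t t 16 28 1 = true :=
  ⟨(a (b (a (c (a (l 16623880) (l 16628632)) (a (l 16621568) (l 16626256))) (c (a (l 16633384) (l 16638128)) (b (l 16607504) (l 16638088)))) (a (b (a (c (l 16616608) (l 16615224)) (c (l 16621432) (l 16619976))) (a (c (l 16626432) (l 16625544)) (c (l 16631296) (l 16630328)))) (b (c (a (l 16626248) (l 16631064)) (a (l 16624736) (l 16629488))) (c (a (l 16636160) (l 16641016)) (a (l 16635120) (l 16639920)))))) (b (a (c (a (l 16642872) (l 16647608)) (b (l 16616856) (l 16626552))) (c (b (l 16629160) (l 16638288)) (b (l 16626216) (l 16636000)))) (a (b (c (a (l 16635880) (l 16640688)) (a (l 16634248) (l 16639008))) (c (a (l 16645872) (l 16650712)) (a (l 16644712) (l 16649512)))) (b (c (a (l 16645488) (l 16650280)) (a (l 16643776) (l 16648544))) (c (a (l 16655552) (l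 16660392)) (a (l 16654312) (l 16659112))))))), by decide +kernel⟩

def k5_pp_022_t : ∃ t, chk3 f_pp_022_t t 16 29 1 = true :=
  ⟨(a (b (a (b (a (l 14) (c (l 16652152) (l 16641072))) (l 14)) (b (a (c (l 16657048) (l 16635744)) (c (l 16651448) (l 16650728))) (b (a (c (l 16654648) (l 16654208)) (c (l 16659560) (l 16659064))) (a (l 14) (c (l 16665120) (l 16664744)))))) (a (l 14) (a (l 14) (a (l 14) (b (b (l 16671840) (l 14)) (l 14)))))) (a (b (b (c (a (l 16656336) (l 16661216)) (a (l 16655560) (l 16660392))) (c (a (l 16667264) (l 16672176)) (a (l 16666768) (l 16682120)))) (b (a (c (a (l 16687856) (l 16690328)) (a (l 16687592) (l 16690032))) (c (b (l 16680656) (l 16686440)) (b (l 16680280) (l 16686152)))) (a (l 14) (b (c (l 16692328) (l 16697352)) (a (l 14) (a (l 16698824) (l 16700056))))))) (b (b (c (a (l 16666096) (l 16670968)) (a (l 16665224) (l 16670064))) (c (a (l 16677080) (l 16692472)) (a (l 16686992) (l 16691856)))) (b (a (c (b (l 16685584) (l 16691384)) (b (l 16685168) (l 16691056)))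 (c (b (l 16690504) (l 16696320)) (b (l 16690056) (l 16695960)))) (a (b (c (l 16697280) (l 16697032)) (c (l 16708520) (a (l 16701840) (l 16704304)))) (c (c (l 16715816) (l 16710408)) (b (l 16701944) (l 16718496)))))))), by decide +kernel⟩

def k6_pp_022_t : ∃ t, chk3 f_pp_022_t t 17 28 1 = true :=
  ⟨(b (a (b (a (c (l 16638552) (l 16635584)) (c (l 16647928) (l 16644960))) (a (a (l 16665224) (l 16659472)) (c (l 16678224) (l 16644424)))) (a (c (b (l 16657280) (l 16677192)) (b (l 16675304) (a (l 16662000) (l 16666736)))) (b (c (l 16687536) (l 16674168)) (c (a (l 16673760) (l 16678448)) (a (l 16671456) (l 16676176)))))) (a (a (b (c (a (l 16655072) (l 16659856)) (a (l 16653304) (l 16658072))) (c (a (l 16665224) (l 16670048)) (a (l 16663920) (l 16668720)))) (b (c (a (l 16664640) (l 16669416)) (a (l 16662840) (l 16667616))) (c (a (l 16674864) (l 16679680)) (a (l 16673528) (l 16678336))))) (a (b (c (a (l 16674184) (l 16678944)) (a (l 16672384) (l 16677152))) (c (a (l 16684488) (l 16689288))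 (a (l 16683136) (l 16687944)))) (b (c (a (l 16683696) (l 16688440)) (a (l 16681920) (l 16686688))) (c (c (l 16707312) (l 16706648)) (a (l 16692744) (l 16708040))))))), by decide +kernel⟩

def k7_pp_022_t : ∃ t, chk3 f_pp_022_t t 34 29 1 = true :=
  ⟨(a (b (b (c (a (l 16675832) (l 16680696)) (b (l 16666664) (l 16674872))) (c (a (l 16697368) (l 16702256)) (a (l 16691480) (c (l 16691264) (l 16690960))))) (b (b (c (a (l 16695424) (l 16700336)) (a (l 16694952) (l 16699840))) (a (c (l 16701256) (l 16700864)) (c (l 16706176) (l 16705776)))) (a (c (b (l 16707176) (l 16713192)) (c (l 16715216) (l 16710192))) (b (c (l 16712112) (l 16711784)) (c (l 16718144) (c (l 16717928) (l 16717824))))))) (b (b (c (a (l 16685544) (l 16690392)) (a (l 16684576) (l 16699904))) (c (a (l 16701896) (b (l 16698696) (l 16704368))) (a (c (l 16696136) (l 16695824)) (c (l 16701008) (l 16700688))))) (b (a (c (b (l 16705240) (l 16711096)) (b (l 16704736) (l 16710680))) (c (a (l 16722336) (l 16724784)) (c (l 16723208) (l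 16712512)))) (c (a (b (l 16717048) (l 16728328)) (b (l 16721968) (l 16733264))) (b (a (l 16721944) (l 16725552)) (a (c (l 16722864) (l 16722752)) (c (l 16727800) (l 16727680)))))))), by decide +kernel⟩

def k8_pp_022_t : ∃ t, chk3 f_pp_022_t t 35 29 1 = true :=
  ⟨(b (a (b (c (a (l 16695240) (l 16710560)) (a (l 16704744) (l 16709576))) (b (a (c (l 16703560) (l 16702808)) (c (l 16708424) (l 16707664))) (a (c (l 16709248) (l 16708616)) (c (l 16714120) (l 16713496))))) (b (c (a (l 16715384) (l 16720208)) (a (l 16709176) (c (l 16709000) (l 16708536)))) (a (c (b (l 16713272) (l 16718992)) (c (l 16715616) (l 16715296))) (c (a (l 16730256) (l 16732680)) (c (l 16720480) (l 16720168)))))) (a (b (c (a (c (l 16723352) (l 16723096)) (c (l 16723000) (l 16722752))) (b (a (l 16714512) (l 16719408)) (a (l 16725736) (l 16729328)))) (a (b (c (l 16732128) (c (l 16726624) (l 16726472))) (c (c (l 16733032) (l 16732872)) (c (l 16732736) (l 16732616)))) (c (b (l 16737040) (c (l 16737952) (l 16737800))) (b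 (c (l 16731536) (l 16731392)) (c (l 16737664) (l 16737544)))))) (b (c (b (a (l 16724800) (l 16729672)) (a (l 16735952) (l 16740840))) (b (a (l 16729536) (l 16733120)) (a (c (l 16730392) (l 16730208)) (c (l 16735296) (l 16735112))))) (c (b (a (c (l 16736792) (l 16736616)) (c (l 16741688) (l 16741520))) (a (c (l 16742864) (l 16742720)) (a (l 16746472) (l 16754168)))) (a (b (c (l 16736456) (l 16736304)) (c (l 16742592) (l 16743952))) (b (c (l 16741368) (l 16743848)) (c (l 16749488) (a (l 16746176) (l 16748640))))))))), by decide +kernel⟩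

def k9_pp_022_t : ∃ t, chk3 f_pp_022_t t 16 15 1 = true :=
  ⟨(b (a (l 14) (b (a (l 14) (b (a (a (b (c (l 16708096) (l 16707952)) (l 14)) (b (c (l 16710584) (l 16710424)) (c (l 16716728) (l 16716600)))) (b (c (l 16724800) (c (l 16714168) (l 16714104))) (c (a (l 16719216) (l 16721704)) (a (l 16719080) (l 16721560))))) (a (l 14) (a (b (c (l 16725416) (l 16730552)) (l 14)) (b (c (l 16733152) (c (l 16727816) (l 16727784))) (c (l 16736792) (c (l 16734104) (l 16734080)))))))) (l 14))) (l 14)), by decide +kernel⟩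

def k10_pp_022_t : ∃ t, chk3 f_pp_022_t t 34 60 1 = true :=
  ⟨(a (b (a (b (c (l 16724528) (c (l 16719120) (l 16719048))) (c (c (l 16725496) (l 16725392)) (c (l 16725312) (l 16725256)))) (b (c (l 16729488) (c (l 16724072) (l 16723984))) (c (c (l 16730472) (l 16730360)) (c (l 16730272) (l 16730208))))) (c (a (b (c (l 16731704) (l 16731616)) (a (c (l 16736712) (l 16736640)) (l 16744416))) (b (c (l 16736688) (l 16736600)) (a (l 16746912) (l 16746784)))) (a (b (c (l 16731552) (l 16731512)) (a (c (l 16736600) (l 16736568)) (c (l 16739088) (l 16739064)))) (a (b (l 16740496) (c (l 16741584) (l 16741552))) (b (l 16740360) (c (l 16744080) (l 16744048))))))) (c (b (a (b (c (l 16729272) (l 16729136)) (c (l 16735440) (l 16735328))) (b (c (l 16734216) (l 16734080)) (c (l 16740392) (l 16740288)))) (a (b (a (l 16745616) (l 16748096)) (a (c (l 16746696) (l 16746624)) (c (l 16749184) (l 16749120)))) (a (b (l 16745344) (c (l 16751680) (l 16751616))) (b (c (l 16747872) (l 16747784)) (c (l 16756784) (l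 16756728)))))) (b (b (a (c (l 16729024) (l 16728928)) (c (l 16733968) (l 16733872))) (a (c (l 16735232) (l 16735160)) (c (l 16740200) (l 16741512)))) (a (c (b (l 16742816) (a (l 16746576) (l 16749064))) (b (a (l 16740200) (l 16742688)) (a (l 16746536) (l 16751648)))) (b (b (c (l 16744896) (l 16744832)) (c (l 16748048) (l 16748000))) (b (a (l 16752568) (l 16752440)) (a (l 16753376) (c (l 16755640) (l 16755608))))))))), by decide +kernel⟩

def k11_pp_022_t : ∃ t, chk3 f_pp_022_t t 68 61 1 = true :=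
  ⟨(b (a (b (a (b (c (l 16741408) (l 16741336)) (l 14)) (c (b (l 16743912) (l 16752328)) (c (l 16748064) (b (l 16743824) (l 16747016))))) (l 14)) (a (b (b (c (l 16746408) (l 16746328)) (c (l 16754840) (c (l 16749536) (l 16749520)))) (b (c (c (l 16752808) (l 16752768)) (c (l 16752744) (l 16752728))) (c (c (l 16756016) (l 16755984)) (c (l 16755960) (l 16757264))))) (b (b (c (l 16748912) (l 16751448)) (c (l 16752096) (l 16752192))) (c (b (l 16755296) (c (l 16758528) (l 16758496))) (b (c (l 16755248) (l 16755232)) (c (l 16758472) (a (l 16757832) (l 16759088)))))))) (b (a (l 14) (a (l 14) (a (b (b (c (l 16760296) (l 16760264)) (l 14)) (l 14)) (b (c (c (l 16762376) (l 16762352)) (c (l 16762336) (l 16763640))) (a (l 14) (b (c (l 16765104) (l 16765080)) (l 14))))))) (l 14))), by decide +kernel⟩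

def k12_pp_022_t : ∃ t, chk3 f_pp_022_t t 69 122 1 = true :=
  ⟨(c (b (a (b (c (l 16752688) (l 16752632)) (a (l 16754600) (l 16757096))) (b (a (l 16756400) (l 16761520)) (a (c (l 16759616) (l 16759576)) (c (l 16762112) (l 16762072))))) (a (b (a (l 16760424) (c (l 16760320) (l 16760288))) (a (c (l 16761032) (l 16761000)) (c (l 16766160) (l 16766128)))) (a (a (b (l 16762176) (l 16766712)) (b (l 16763432) (b (l 16765840) (l 16767456)))) (a (b (l 16767296) (b (l 16767096) (l 16768712))) (b (l 16767240) (b (l 16768344) (l 16769960))))))) (a (b (c (b (l 16753904) (a (l 16754544) (l 16757040))) (b (a (l 16751312) (l 16753816)) (a (l 16754520) (l 16757024)))) (a (b (c (l 16757752) (l 16757736)) (c (l 16760984) (c (l 16760968) (l 16760968)))) (c (b (l 16760256) (l 16764632)) (b (l 16761552) (c (l 16764792) (l 16764784)))))) (c (b (b (a (l 16756336) (l 16758840)) (a (l 16759544) (l 16762048))) (b (a (l 16764072) (b (l 16764456) (l 16766072))) (a (b (l 16765184) (l 16766808)) (a (l 16769184)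 (b (l 16768320) (l 16769936)))))) (b (b (a (l 16756312) (l 16758808)) (a (l 16760832) (c (l 16762032) (l 16762016)))) (b (a (c (l 16762752) (l 16764056)) (a (l 16765936) (l 16766864))) (a (b (l 16765824) (c (l 16766800) (l 16768104))) (b (a (l 16767056) (l 16768304)) (a (l 16768672) (l 16770584))))))))), by decide +kernel⟩

def k13_pp_022_t : ∃ t, chk3 f_pp_022_t t 276 123 1 = true :=
  ⟨(b (c (b (a (l 16766240) (l 16766184)) (b (a (l 16766048) (l 16767304)) (a (l 16768984) (l 16770240)))) (b (c (c (l 16764224) (l 16764216)) (b (l 16763400) (l 16765680))) (c (a (b (l 16766032) (l 16767656)) (b (l 16767288) (l 16768920))) (b (a (l 16766024) (l 16767280)) (a (l 16768312) (l 16769568)))))) (a (l 14) (b (b (c (c (l 16770568) (l 16770560)) (c (l 16771208) (a (l 16770232) (l 16771512)))) (a (l 14) (b (c (l 16772104) (a (l 16771936) (l 16772248))) (l 14)))) (l 14)))), by decide +kernel⟩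

def k14_pp_022_t : ∃ t, chk3 f_pp_022_t t 554 123 1 = true :=
  ⟨(b (b (c (b (l 16765320) (l 16766936)) (c (l 16766104) (c (l 16766096) (l 16766096)))) (b (c (l 16768560) (c (l 16768544) (l 16768536))) (c (c (l 16770192) (l 16770184)) (c (l 16770176) (c (l 16770168) (l 16770168)))))) (b (b (c (c (l 16771824) (l 16771816)) (c (l 16770496) (a (l 16772144) (l 16772608)))) (a (c (c (l 16773144) (l 16773136)) (c (l 16771824) (b (l 16772720) (l 16773864)))) (c (l 16772128) (c (l 16772448) (b (l 16773352) (a (l 16774008) (l 16774328))))))) (a (a (l 14) (b (b (c (l 16774520) (b (l 16774312) (l 16774720))) (l 14)) (l 14))) (b (b (c (l 16773688) (a (b (l 16774624) (l 16775368)) (b (l 16774944) (l 16775352)))) (c (a (l 16774344) (l 16774664)) (c (l 16774504) (a (b (l 16775448) (l 14)) (b (l 16775768) (l 16775848)))))) (b (a (l 14) (c (l 16776792) (c (l 16776792) (c (l 16776792) (b (l 16775928) (l 14)))))) (l 14)))))), by decide +kernel⟩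

def k15_pp_022_t : ∃ t, chk3 f_pp_022_t t 555 123 1 = true :=
  ⟨(b (b (c (b (l 16766568) (l 16768192)) (b (l 16766952) (c (l 16768168) (l 16768160)))) (b (c (l 16767848) (c (l 16769800) (l 16770448))) (c (c (l 16771448) (l 16771440)) (c (l 16771432) (c (l 16771424) (l 16771920)))))) (b (c (b (c (l 16771112) (l 16771760)) (l 16774712)) (a (c (b (l 16772752) (l 16773080)) (b (c (l 16772752) (l 16773400)) (b (l 16774632) (a (l 16774640) (l 16774960))))) (b (c (l 16773384) (b (l 16772968) (l 16773784))) (c (l 16773712) (a (b (l 16774448) (l 16774616)) (c (l 16773864) (b (l 16774768) (l 16774928)))))))) (b (a (c (l 16776032) (c (l 16776032) (c (l 16776032) (b (a (l 16775464) (l 16775120)) (l 16776440))))) (b (c (l 16776256) (c (l 16774944) (c (l 16774936) (c (l 16775592) (b (l 16775392) (l 16775800)))))) (a (c (l 16776904) (b (l 16776712) (b (l 16777056) (a (l 16777304) (a (l 89892323655) (l 161296154967)))))) (b (c (l 16777016) (a (l 16776944) (a (l 16777144) (b (l 16777040) (l 71638712663)))))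 (a (b (c (l 16777224) (a (l 16777360) (l 116735869255))) (l 4)) (l 4)))))) (b (a (b (c (l 16777688) (a (c (l 16776904) (l 16776904)) (b (a (l 16777032) (a (l 16777152) (l 62511907143))) (a (a (l 16777352) (l 108682805559)) (l 4))))) (a (c (l 16777656) (a (a (l 14) (b (l 16777328) (l 4))) (b (b (l 66806874439) (l 176865411367)) (l 4)))) (l 4))) (c (l 205856441047) (c (l 211762021063) (c (l 214446375623) (b (a (l 207467053383) (l 4)) (l 4)))))) (l 4))))), by decide +kernel⟩

def k16_pp_022_t : ∃ t, chk3 f_pp_022_t t 556 123 1 = true :=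
  ⟨(b (b (b (c (l 16767824) (a (l 16767480) (l 16768112))) (c (l 16769448) (a (l 16769112) (l 16770392)))) (b (c (c (l 16771080) (l 16771064)) (c (l 16771056) (c (l 16771048) (l 16771704)))) (c (c (l 16771392) (l 16770072)) (a (b (l 16771960) (l 16773112)) (b (l 16773248) (a (l 16773256) (l 16773568))))))) (b (c (b (a (l 16772704) (a (l 16773176) (l 16773488))) (c (l 16776256) (l 16776128))) (c (b (a (l 16772696) (l 16773328)) (b (l 16774240) (l 16776368))) (b (c (b (l 16773912) (l 16773424)) (a (b (l 16773600) (l 16774416)) (b (l 16774224) (l 16774312)))) (a (b (a (l 16775080) (l 16774736)) (c (l 16774752) (a (l 16775248) (l 16775560)))) (b (b (l 16775008) (a (l 16775912) (l 16775576))) (a (l 16776528) (a (l 16776768) (b (l 16776064) (a (l 16777088) (b (l 16777064) (l 100629741863))))))))))) (b (b (c (b (a (l 16776680) (l 65196262007)) (a (l 16777712) (l 204782699031))) (c (a (c (l 16776856) (l 16777184)) (a (a (l 63048778023) (l 101166613495)) (l 192971538903))) (a (b (l 16776672)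 (a (l 16776928) (b (a (l 16777064) (a (l 16777168) (l 91502936343))) (a (a (l 16777208) (l 132841996583)) (l 4))))) (b (b (a (l 16777040) (a (a (l 16777384) (l 141968802103)) (l 4))) (a (a (l 16777160) (l 133915738471)) (l 4))) (a (l 214983246183) (l 4)))))) (a (a (c (l 112977773943) (b (c (l 16777584) (b (a (l 16777152) (l 117809611143)) (l 203172086007))) (l 4))) (l 4)) (l 4))) (l 4)))), by decide +kernel⟩

def k17_pp_022_t : ∃ t, chk3 f_pp_022_t t 557 123 1 = true :=
  ⟨(b (b (b (c (l 16769080) (c (l 16769056) (l 16769048))) (c (a (l 16770384) (l 16771008)) (c (l 16770680) (c (l 16770680) (l 16770672))))) (c (a (b (l 16772008) (l 16772328)) (b (l 16772640) (l 16772960))) (b (c (l 16771000) (a (l 16772648) (a (l 16772464) (l 16772776)))) (a (c (l 16773632) (b (l 16773216) (l 16774040))) (c (l 16772952) (c (l 16772944) (b (l 16773848) (l 16774664)))))))) (b (c (b (c (l 16775592) (l 16775584)) (b (b (l 16776928) (a (l 16776704) (l 72175584503))) (a (b (l 16777736) (l 115662128407))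 (l 4)))) (b (c (l 16775584) (b (a (a (l 16774696) (l 16775016)) (a (l 16774672) (l 16774984))) (a (a (l 16774864) (a (l 16775096) (l 16775256))) (c (l 16774992) (b (l 16775448) (l 16775856)))))) (a (b (c (l 16776496) (c (l 16776496) (l 16776496))) (c (b (l 16777736) (l 119957095527)) (a (b (l 16777032) (a (b (l 16777336) (l 184918475095)) (l 197266505975))) (b (a (b (l 16777088) (l 101166612887)) (b (a (l 16777192) (l 109756547383)) (l 4))) (l 4))))) (b (c (b (l 16776912) (a (l 16777144) (l 142505673479))) (b (a (l 16776768) (a (l 16777000) (b (l 16777056) (l 78618034567)))) (b (a (l 16777064) (a (l 115662127479) (l 4))) (a (a (l 16777344) (l 147874382215)) (l 4))))) (l 4))))) (l 4))), by decide +kernel⟩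

def k18_pp_022_t : ∃ t, chk3 f_pp_022_t t 279 246 1 = true :=
  ⟨(a (c (b (b (l 16768360) (a (l 16771640) (l 16772264))) (b (c (l 16772272) (l 16772264)) (l 16775208))) (c (b (b (l 16770312) (l 16769320)) (a (b (l 16773256) (l 16773576)) (b (l 16773880) (l 16774208)))) (b (a (b (l 16769992) (l 16771616)) (b (l 16770616) (l 16772736))) (b (b (a (l 16772840) (l 16773472)) (a (l 16773656) (l 16773632))) (b (c (l 16773480) (a (l 16774480) (l 16774448))) (a (a (l 16775136) (l 16774800)) (a (l 16775112) (a (l 16775352) (l 16775504))))))))) (c (b (b (c (l 16771584) (l 16771576)) (c (l 16770584) (l 16770576))) (b (l 16774832) (b (l 16776056) (b (l 16776984) (a (l 16776760) (l 85597357303)))))) (c (b (b (l 16771568) (l 16771552)) (b (c (l 16772208) (l 16773184)) (b (l 16776048) (b (l 16776656) (a (l 16776760) (l 87207969223)))))) (b (b (c (l 16771560) (l 16772208)) (a (c (l 16772872) (l 16773528)) (b (l 16773096) (l 16773912)))) (a (c (b (l 16773200) (l 16776144)) (b (b (l 16774096) (l 16774264))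 (b (c (l 16774424) (l 16775080)) (l 16776552)))) (b (a (b (l 16774568) (l 16774736)) (b (l 16774888) (l 16775048))) (b (l 16776320) (b (b (l 16776872) (a (l 16776920) (a (l 16777152) (l 127473287511)))) (a (b (c (l 16777120) (l 16777280)) (a (l 74859938183) (l 4))) (l 208540795223)))))))))), by decide +kernel⟩

def k19_pp_022_t : ∃ t, chk3 f_pp_022_t t 279 247 1 = true :=
  ⟨(b (b (a (b (c (c (l 16776424) (l 16776424)) (c (l 16776672) (a (c (l 16774808) (a (l 16775304) (l 16775616))) (b (l 16776536) (a (l 16776792) (a (l 16777024) (b (l 16777080) (l 98482258311)))))))) (a (c (c (l 16777568) (l 16776912)) (c (c (l 16776904) (l 16777400)) (b (l 16776728) (a (c (l 16776976) (l 16777144)) (a (b (l 16777112) (l 128547029351)) (b (l 90966065527) (l 4))))))) (b (c (l 77007422759) (a (c (l 16777168) (b (l 16777256) (a (l 56069456263) (l 180086636887)))) (c (l 156464317143) (c (l 161296155303) (l 202635215159))))) (l 4)))) (a (b (c (a (l 48016393463) (l 110830290279)) (c (b (l 16777776) (l 134989481047))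 (a (b (a (l 16776936) (l 16777288)) (a (b (l 69491229031) (l 4)) (l 4))) (b (a (b (l 16777136) (l 143042544007)) (b (l 111367160183) (l 4))) (l 4))))) (l 4)) (l 4))) (b (b (b (a (a (a (c (l 16777240) (a (a (l 16777168) (l 77007421783)) (l 157538058647))) (l 4)) (l 4)) (l 4)) (l 4)) (l 4)) (l 4))) (l 4)), by decide +kernel⟩

def k20_pp_022_t : ∃ t, chk3 f_pp_022_t t 35 120 1 = true :=
  ⟨(b (c (a (a (c (l 16739152) (l 16739024)) (a (l 16748032) (l 16745256))) (a (a (l 16750344) (c (l 16750240) (l 16750128))) (b (c (l 16752376) (l 16752272)) (a (l 16754192) (l 16756656))))) (a (a (c (l 16738912) (l 16741600)) (c (l 16746480) (a (l 16742528) (l 16745000)))) (a (b (c (l 16747240) (l 16747144)) (c (l 16750360) (l 16750272))) (b (c (l 16752176) (l 16754704)) (a (l 16754024) (c (l 16756528) (l 16756456))))))) (c (a (a (a (l 16749296) (l 16746528)) (b (a (l 16747440) (l 16749912)) (c (l 16751840) (l 16751752)))) (a (b (c (l 16753656) (l 16753568)) (a (l 16755504) (l 16757968))) (a (b (l 16757312)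 (l 16760440)) (b (l 16759768) (c (l 16762936) (l 16762880)))))) (a (c (a (l 16746792) (a (l 16748872) (l 16751344))) (a (a (l 16743840) (l 16746320)) (a (l 16748800) (l 16753896)))) (a (a (c (l 16753824) (l 16755392)) (b (l 16754688) (c (l 16757872) (l 16757816)))) (b (a (c (l 16757200) (l 16757136)) (c (l 16759672) (l 16759616))) (a (c (l 16760352) (l 16760296)) (c (l 16762824) (l 16764088)))))))), by decide +kernel⟩

def k21_pp_022_t : ∃ t, chk3 f_pp_022_t t 70 121 1 = true :=
  ⟨(c (b (a (b (c (l 16750016) (l 16749936)) (c (l 16753160) (l 16753088))) (b (a (l 16753688) (l 16756168)) (a (l 16756840) (l 16759320)))) (a (b (a (l 16755032) (l 16757520)) (a (l 16758200) (c (l 16760720) (l 16760672)))) (a (b (l 16762624) (c (l 16763200) (l 16763160))) (b (c (l 16762504) (l 16762456)) (c (l 16768304) (l 16768264)))))) (b (a (b (c (l 16749864) (l 16751768)) (a (l 16754376) (l 16754568))) (c (b (l 16756144) (a (l 16756752) (l 16759240))) (b (a (l 16753528) (l 16756016)) (a (l 16756704) (l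 16759192))))) (a (c (b (a (l 16754952) (l 16757440)) (a (l 16758136) (l 16760632))) (b (a (l 16754904) (l 16757400)) (a (l 16758104) (l 16761904)))) (a (b (c (l 16759928) (l 16759888)) (c (l 16763120) (c (l 16763096) (l 16763088)))) (b (c (l 16762416) (l 16763528)) (c (b (l 16764808) (l 16766416)) (b (l 16764784) (l 16767040)))))))), by decide +kernel⟩

def k22_pp_022_t : ∃ t, chk3 f_pp_022_t t 71 121 2 = true :=
  ⟨(b (a (b (a (l 16758640) (l 16763736)) (a (c (l 16761824) (l 16761768)) (c (l 16764296) (l 16764248)))) (b (a (c (l 16763608) (l 16763560)) (c (l 16768696) (l 16766032))) (b (a (l 16765952) (a (l 16767800) (l 16769040))) (a (a (l 16766912) (l 16768152)) (c (l 16770024) (l 16769992)))))) (b (b (a (a (l 16764168) (a (l 16766024) (l 16767264))) (a (c (l 16769136) (l 16769104)) (a (l 16770976) (l 16769592)))) (a (a (l 16768376) (a (l 16767616) (l 16768856))) (a (c (l 16768104) (l 16768080)) (a (l 16769944) (l 16771184))))) (a (b (a (a (l 16766728) (l 16767968)) (a (l 16769208)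 (l 16770448))) (a (a (l 16768320) (l 16769560)) (a (l 16770800) (l 16769424)))) (a (a (b (l 16769064) (l 16770664)) (l 16773720)) (b (a (l 16772192) (l 16775400)) (a (l 16775760) (b (l 16776584) (a (l 16777040) (l 129083901639))))))))), by decide +kernel⟩

def k23_pp_022_t : ∃ t, chk3 f_pp_022_t t 142 121 3 = true :=
  ⟨(b (c (a (b (l 16758552) (l 16761720)) (b (l 16761032) (l 16764208))) (b (a (l 16758496) (l 16760984)) (a (l 16762992) (c (l 16764176) (l 16765472))))) (b (a (c (l 16766216) (c (l 16764880) (l 16766176))) (c (b (l 16766592) (l 16768192)) (b (l 16767872) (a (l 16767544) (l 16768792))))) (b (a (a (l 16766664) (l 16768896)) (a (a (l 16768848) (l 16769472)) (a (l 16770096) (l 16770712)))) (a (c (l 16766280) (a (l 16768256) (l 16769504))) (c (a (l 16770776) (l 16772016)) (a (l 16772064) (c (l 16772008) (l 16773312)))))))), by decide +kernel⟩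

def k24_pp_022_t : ∃ t, chk3 f_pp_022_t t 143 121 3 = true :=
  ⟨(a (a (b (b (l 16764176) (c (l 16766064) (l 16767344))) (b (c (l 16766640) (b (l 16768432) (l 16770040))) (a (c (l 16769528) (b (l 16771328) (l 16771632))) (c (l 16770152) (b (l 16771952) (c (l 16773568) (l 16773560))))))) (b (c (b (l 16764128) (l 16767312)) (b (l 16764088) (l 16768592))) (b (c (b (l 16769704) (l 16771296)) (b (l 16769680) (c (l 16771288) (l 16771280)))) (b (c (l 16772904) (b (l 16772488) (l 16771984))) (c (l 16771888) (c (l 16773192) (b (l 16772784) (c (l 16774904) (l 16773592))))))))) (c (b (a (b (l 16765368) (l 16768552)) (b (l 16766608) (l 16767168))) (b (c (a (l 16769128) (l 16770368)) (b (l 16768936) (l 16770544))) (a (l 16774952) (b (l 16772768) (b (l 16776576) (a (l 16777040) (l 136063223223))))))) (b (b (c (l 16765968) (l 16767096)) (a (b (l 16767728) (l 16769320)) (b (l 16768968) (l 16770568)))) (a (b (b (l 16772232) (a (l 16772216) (l 16772840))) (c (l 16774864) (b (a (l 16773824) (l 16773136))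 (c (l 16775752) (l 16775744))))) (b (b (c (l 16772176) (l 16772168)) (b (l 16772064) (a (l 16773864) (l 16774488)))) (b (a (b (l 16774672) (l 16774168)) (b (l 16773984) (l 16775440))) (b (a (l 16775296) (a (l 16776744) (a (l 16777296) (b (l 16776936) (l 104387838551))))) (b (a (l 16776880) (a (a (l 85060485623) (l 147874382407)) (l 4))) (a (a (l 16777440) (l 134452609735)) (l 4)))))))))), by decide +kernel⟩

def k25_pp_022_t : ∃ t, chk3 f_pp_022_t t 70 244 1 = true :=
  ⟨(a (c (a (b (c (l 16761408) (l 16761368)) (c (l 16767224) (l 16767192))) (b (b (l 16763080) (l 16767296)) (c (c (l 16769728) (l 16769712)) (b (l 16766264) (l 16767872))))) (c (b (a (l 16761336) (l 16766448)) (a (c (l 16764552) (l 16764544)) (a (l 16766416) (l 16767672)))) (b (a (l 16762288) (c (l 16763808) (l 16765112))) (a (b (l 16763720) (l 16766640)) (b (l 16767040) (a (l 16767208) (l 16768456))))))) (a (a (b (c (l 16768368) (c (l 16765704) (l 16766992))) (c (b (l 16768144) (l 16769752)) (c (b (l 16768112) (l 16769728))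 (b (l 16768096) (l 16769712))))) (b (c (b (l 16766192) (l 16767792)) (c (l 16766952) (c (l 16766936) (l 16766920)))) (b (c (l 16769392) (c (l 16769360) (l 16769344))) (c (l 16768376) (a (l 16771312) (a (l 16771120) (l 16771440))))))) (a (b (c (b (l 16767432) (l 16769032)) (c (l 16768200) (b (l 16767368) (l 16768984)))) (b (c (l 16770632) (c (l 16770608) (l 16771248))) (c (l 16770280) (c (l 16772224) (a (l 16771904) (l 16773184)))))) (c (b (b (l 16768672) (l 16770272)) (b (l 16769256) (c (l 16770872) (l 16770864)))) (b (c (b (l 16768640) (l 16770248)) (b (l 16768616) (l 16771544))) (b (c (l 16771856) (c (l 16771848) (l 16772496))) (c (l 16770848) (c (l 16772160) (b (l 16773056) (l 16772888)))))))))), by decide +kernel⟩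

def k26_pp_022_t : ∃ t, chk3 f_pp_022_t t 140 245 1 = true :=
  ⟨(a (a (b (c (b (l 16766368) (l 16767984)) (c (l 16767144) (c (l 16767136) (l 16768440)))) (b (c (l 16769592) (c (l 16769568) (l 16769560))) (c (c (l 16771216) (l 16771208)) (c (l 16771192) (c (l 16771184) (l 16771840)))))) (b (c (c (l 16768440) (l 16768416)) (c (b (l 16767584) (l 16769200)) (b (l 16767576) (l 16769192)))) (b (c (l 16768224) (c (l 16770824) (c (l 16770816) (l 16770816)))) (c (c (l 16772464) (l 16772456)) (c (l 16769824) (c (l 16771128) (b (l 16772032) (l 16772848)))))))) (a (c (b (b (l 16768864) (l 16770480)) (b (c (l 16772096) (l 16772088)) (c (l 16771096) (l 16771088)))) (b (c (b (l 16768840) (l 16770456)) (b (l 16768824) (l 16771104))) (b (c (l 16772080) (a (l 16771752) (l 16773040))) (c (l 16771736) (a (b (l 16772976) (l 16773792)) (b (l 16773600) (l 16773104))))))) (b (b (c (l 16770112) (c (l 16770088) (l 16771384))) (c (l 16769760) (c (l 16771704) (c (l 16771704) (l 16772352))))) (c (b (c (l 16770728)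 (l 16770712)) (l 16774960)) (b (c (l 16772016) (a (c (l 16773008) (l 16773008)) (b (l 16773232) (l 16774040)))) (b (c (l 16771928) (a (l 16774232) (l 16774200))) (c (l 16774048) (c (l 16774048) (a (l 16775040) (l 16775016)))))))))), by decide +kernel⟩

def k27_pp_022_t : ∃ t, chk3 f_pp_022_t t 141 490 1 = true :=
  ⟨(a (c (a (b (l 16768736) (a (l 16772664) (l 16773288))) (b (c (l 16772616) (l 16772600)) (c (l 16771600) (l 16771592)))) (c (a (b (l 16771336) (l 16770336)) (b (l 16769968) (l 16772896))) (b (a (c (l 16771328) (l 16771328)) (c (l 16772584) (b (l 16772176) (l 16772984)))) (b (a (l 16773200) (a (l 16773488) (l 16774112))) (a (c (l 16773360) (l 16773352)) (a (l 16774296) (l 16774272))))))) (a (c (a (l 16774352) (l 16774976)) (c (b (l 16771216) (l 16775464)) (b (a (b (l 16773112) (l 16773928)) (b (l 16773744) (l 16774552))) (a (c (l 16773832) (b (l 16774736) (l 16774896))) (c (l 16774464) (b (l 16774056) (l 16775360))))))) (b (c (l 16775096) (c (l 16773128) (a (b (l 16774368)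 (l 16774520)) (c (l 16774088) (b (l 16774992) (l 16775152)))))) (b (c (l 16776312) (c (l 16776304) (c (l 16776304) (a (l 16775336) (l 16776616))))) (a (c (l 16776792) (a (l 16776648) (b (l 16776760) (b (l 16777056) (a (l 16777176) (l 136600093095)))))) (a (c (l 16777840) (c (l 16777672) (b (a (l 16776992) (l 16777456)) (l 188139700487)))) (c (l 124252063063) (b (a (b (l 16777184) (l 4)) (l 159685542551)) (l 4))))))))), by decide +kernel⟩

def k28_pp_022_t : ∃ t, chk3 f_pp_022_t t 141 491 1 = true :=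
  ⟨(b (a (c (c (l 16775216) (l 16775208)) (c (c (l 16775208) (l 16775208)) (a (a (b (l 16773856) (l 16774016)) (c (l 16773584) (b (l 16774480) (l 16773984)))) (c (l 16775832) (a (b (l 16775112) (l 16775264)) (b (l 16775080) (l 16776552))))))) (a (b (c (c (l 16777312) (l 16777312)) (c (a (l 16776368) (l 16777608)) (a (l 16776360) (b (l 16776784) (a (l 16777192) (a (a (l 63048778183) (l 100629742055)) (l 146263769671))))))) (b (a (c (l 16776960) (a (l 16776816) (b (l 16777024) (a (l 16777144) (l 109219676615))))) (c (l 138210706631) (c (l 140358190183) (c (l 190287184263) (a (l 182234120407) (l 4)))))) (a (c (l 84523615479) (c (l 87207969863) (a (a (l 16777456) (b (l 16777184) (l 4))) (l 206393311559)))) (l 4)))) (a (b (b (c (l 90429195543) (c (l 93113549943) (a (b (l 16777136) (l 119420224039)) (l 218741342567)))) (l 4)) (l 4)) (l 4)))) (a (b (a (c (l 16775808) (c (l 16774488) (a (a (l 16775328) (l 16774984)) (a (l 16775296) (l 16775616))))) (c (a (l 16776736) (a (l 16777808) (l 109756548439)))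 (b (a (l 16776536) (c (l 16777120) (a (l 16777000) (b (a (l 16777128) (l 103314096519)) (l 152169349655))))) (a (b (l 16776840) (a (l 16776888) (a (l 16777120) (l 87744840135)))) (a (a (b (l 16777368) (l 4)) (l 175791669863)) (l 4)))))) (b (c (a (l 16776416) (a (l 16777864) (l 4))) (a (c (l 16776408) (c (l 16776408) (l 16776408))) (a (a (b (l 16777248) (a (l 16777360) (l 159685542295))) (c (l 16777528) (l 196729635111))) (l 4)))) (a (c (l 16777536) (a (l 16776504) (c (l 16777088) (a (l 16776968) (b (a (l 16777104) (l 16777392)) (l 131231384135)))))) (l 4)))) (l 4))), by decide +kernel⟩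

def k29_pp_022_t : ∃ t, chk3 f_pp_022_t t 142 488 1 = true :=
  ⟨(a (a (b (c (l 16769920) (a (l 16769568) (l 16770192))) (c (l 16768896) (c (l 16771496) (c (l 16771488) (l 16771480))))) (b (c (l 16771160) (c (l 16771136) (l 16772016))) (c (l 16770792) (c (l 16772744) (c (l 16772736) (b (l 16772328) (l 16773136))))))) (b (a (c (l 16769776) (c (l 16772376) (a (l 16772056) (l 16772680)))) (c (l 16771672) (c (l 16771000) (c (l 16772304) (a (l 16773304) (l 16772616)))))) (c (b (l 16774224) (l 16775024)) (c (l 16774616) (b (a (c (l 16773576) (l 16773576)) (a (l 16774512) (l 16773832))) (a (a (l 16774072) (l 16774696)) (a (l 16774008) (l 16774968)))))))), by decide +kernel⟩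

def k30_pp_022_t : ∃ t, chk3 f_pp_022_t t 142 489 1 = true :=
  ⟨(b (a (c (b (c (l 16771384) (l 16770720)) (l 16774144)) (a (c (l 16770488) (c (l 16771792) (a (l 16772784) (l 16773408)))) (c (l 16771736) (a (b (l 16773632) (l 16774440)) (b (l 16774256) (l 16773752)))))) (a (c (l 16775608) (c (l 16775600) (a (b (l 16773568) (l 16774704)) (b (l 16774848) (a (l 16774848) (l 16775816)))))) (b (c (l 16776440) (a (l 16776136) (c (l 16776752) (c (l 16776744) (b (l 16775240) (a (l 16775496) (l 16777424))))))) (c (a (l 16776912) (l 103314097927)) (b (a (l 16776736) (c (l 16777912) (a (a (l 16777112) (l 87744840199)) (l 200487731511)))) (a (a (l 16776984) (b (a (l 16777120) (l 16777400)) (l 132305126055))) (l 4))))))) (a (a (c (l 16774736) (c (l 16773408) (a (b (l 16774000) (l 16773496)) (b (l 16774624) (l 16774776))))) (c (l 16776304) (c (l 16775968) (c (l 16776128) (a (b (l 16775248) (l 16775408)) (b (l 16774560) (b (l 16775176) (l 16777048)))))))) (b (c (a (c (l 16777760) (l 16777432)) (l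 189213442935)) (c (a (a (l 16776504) (l 16777888)) (l 194582152023)) (a (a (l 16776504) (b (a (l 16776768) (l 16777392)) (a (b (l 16777064) (l 81302389255)) (l 191360925959)))) (a (a (a (b (l 95261033015) (l 4)) (l 213909504471)) (l 4)) (l 4))))) (a (a (c (l 67343745959) (b (a (l 16776952) (b (l 16777472) (a (l 93113549271) (l 4)))) (a (a (b (l 16777168) (l 166664864167)) (l 146800640631)) (l 4)))) (l 4)) (l 4))))), by decide +kernel⟩

def k31_pp_022_t : ∃ t, chk3 f_pp_022_t t 143 244 1 = true :=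
  ⟨(b (b (a (a (c (l 16774880) (c (l 16772248) (a (b (l 16774152) (l 16773648)) (b (l 16774776) (l 16774272))))) (c (c (l 16776120) (l 16776112)) (c (l 16776112) (b (a (l 16774088) (l 16775368)) (b (l 16776312) (a (l 16775096) (b (l 16776928) (a (l 16776976) (l 86671098391))))))))) (b (c (a (a (l 16776648) (l 63585650167)) (l 207467054087)) (a (a (c (l 16776648) (l 16776728)) (b (a (l 16776912) (b (l 16777112) (l 97408516759))) (a (a (a (l 16777176) (l 83449872903)) (l 124788933271)) (l 4)))) (c (l 213372634087) (a (c (l 214983246503) (l 216056988327)) (l 4))))) (a (a (c (l 85060486919) (c (l 88818583015) (b (a (l 16777408) (c (l 16777632) (l 123178320535))) (l 201561473463)))) (l 4)) (l 4)))) (a (b (a (c (l 16776088) (c (l 16776080) (c (l 16776080) (l 16776072)))) (a (c (l 16776976) (c (l 16776976) (b (l 16776808) (a (l 16777048) (a (l 89892323863) (l 158074929719)))))) (a (c (l 101703484775) (b (b (l 16777488) (l 124252062343)) (l 4))) (l 4)))) (c (a (c (l 16777904) (l 16777824))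 (l 196192764855)) (b (a (c (l 16776672) (a (l 16775056) (c (l 16776976) (a (l 16776840) (l 16777496))))) (c (l 198340248279) (a (c (l 194045280663) (l 195655893399)) (l 4)))) (a (a (l 16776776) (c (l 16777608) (a (a (l 16777144) (l 99019129399)) (l 214446375255)))) (l 4))))) (l 4))) (a (a (a (b (b (c (l 75396810407) (a (b (l 16777264) (a (a (l 94724162103) (l 134452609607)) (l 4))) (b (a (a (l 16777432) (l 89355452967)) (l 138747576935)) (l 4)))) (l 4)) (l 4)) (l 4)) (l 4)) (l 4))), by decide +kernel⟩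

def k32_pp_022_t : ∃ t, chk3 f_pp_022_t t 71 245 1 = true :=
  ⟨(a (b (a (a (b (c (a (l 16776032) (c (l 16777280) (l 16777280))) (c (b (l 16775936) (a (l 16776432) (l 16777664))) (a (c (l 16776024) (l 16776024)) (a (b (l 16775432) (c (l 16776888) (b (l 16775384) (l 16777416)))) (b (l 16775744) (b (l 16777000) (b (l 96334774839) (l 4)))))))) (b (b (a (c (l 16777016) (a (l 16776888) (b (l 16777088) (a (l 16777192) (l 163443638695))))) (c (l 154853704887) (c (l 162369897479) (c (l 204245828039) (l 205856440775))))) (c (l 173107315239) (c (l 177402282519) (a (a (b (l 16777496) (l 133378867783)) (l 4)) (l 4))))) (l 4))) (b (a (c (b (l 16776856) (l 124252063431)) (c (b (l 16776848) (l 131768255911)) (a (b (l 16776712) (b (b (l 55532584823) (l 154853704215)) (l 4))) (b (b (l 16776824) (b (l 16777120) (l 102777225815))) (l 4))))) (b (b (c (l 16777208) (c (l 16777208) (a (b (l 16777032) (l 61438164887)) (a (l 124252062247) (l 4))))) (c (l 161296155879) (c (l 177402282983) (l 213372633575))))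 (l 4))) (l 4))) (l 4)) (l 4)) (l 4)), by decide +kernel⟩

def k33_pp_022_t : ∃ t, chk3 f_pp_022_t t 560 246 1 = true :=
  ⟨(c (a (b (b (l 16772520) (l 16772832)) (b (l 16775768) (b (a (l 16776832) (l 16777760)) (l 190287184503)))) (b (b (l 16770520) (l 16773456)) (a (b (l 16776240) (b (l 96871646551) (l 4))) (b (l 16777200) (l 211762021399))))) (b (b (c (l 16771512) (b (l 16773064) (c (l 16773224) (l 16773872)))) (b (c (l 16774040) (a (l 16773720) (l 16773696))) (c (l 16773544) (c (l 16773544) (a (l 16774536) (l 16774512)))))) (b (b (c (l 16774360) (a (c (l 16775360) (l 16774704)) (a (l 16775176) (c (l 16776144) (l 16775488))))) (c (a (l 16774864) (l 16776792)) (b (c (l 16776288) (l 16776280)) (b (a (l 16775624) (l 16777008)) (a (l 16775824) (a (l 16776952) (a (l 16777176) (l 143042543991)))))))) (a (c (b (c (l 16776960) (l 16777608)) (l 195655893607)) (a (a (b (l 16776760) (b (b (l 90429194599) (l 4)) (l 4))) (b (c (l 16776904) (b (l 16776712) (l 16777352))) (l 4))) (b (b (l 16776944)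 (a (b (l 16777160) (l 167201735031)) (l 192971538663))) (l 4)))) (b (b (c (l 93113549943) (a (b (c (l 16777144) (l 16777384)) (a (l 94724161927) (l 4))) (l 218741342583))) (l 4)) (l 4)))))), by decide +kernel⟩

def k34_pp_022_t : ∃ t, chk3 f_pp_022_t t 561 246 1 = true :=
  ⟨(b (c (c (l 16774984) (l 16774896)) (c (c (l 16774888) (l 16774888)) (b (a (b (l 16773344) (l 16774160)) (b (l 16773976) (a (l 16774632) (l 16774944)))) (c (l 16775704) (a (b (l 16774976) (c (l 16774488) (l 16775136))) (b (l 16774784) (l 16776424))))))) (b (b (c (a (l 16776616) (a (l 16777048) (l 82913002839))) (a (c (l 16776616) (c (l 16776608) (b (l 16775752) (l 16776896)))) (a (b (l 16776880) (a (b (l 16777104) (l 115125256615)) (b (a (l 16777208) (l 123178320215)) (l 4)))) (b (a (c (l 16777104) (l 16777352)) (b (l 16777160) (l 158611800487))) (l 4))))) (a (a (c (l 58753811735) (c (l 62511907255) (b (a (l 16776992) (b (l 16777048) (l 74323067255))) (c (l 146800640679) (l 191360925959))))) (b (b (c (l 16777232)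 (a (l 1845494119) (l 151095607703))) (l 4)) (l 4))) (l 4))) (l 4))), by decide +kernel⟩

def k35_pp_022_t : ∃ t, chk3 f_pp_022_t t 281 246 1 = true :=
  ⟨(b (b (c (a (l 16775336) (a (l 16776272) (b (l 16776488) (a (l 16777104) (l 96334775639))))) (b (c (l 16775544) (a (a (l 16773944) (a (l 16775072) (l 16775384))) (a (a (l 16775048) (l 16775360)) (l 16776488)))) (a (c (l 16774424) (a (a (l 16775264) (l 16774920)) (a (l 16775232) (l 16775552)))) (a (c (l 16776672) (c (l 16776672) (b (l 16775816) (a (l 16776064) (l 16777192))))) (a (b (l 16777024) (a (b (l 16777160) (l 159685542295)) (c (l 16777320) (l 146263769671)))) (b (b (c (l 16777136) (l 16777384)) (a (l 87744840135) (l 4))) (l 4))))))) (a (a (c (a (l 16776480) (b (l 16776400) (l 16777808))) (a (c (l 16776480) (b (l 16775424) (a (l 16776816) (b (l 16776112) (b (l 16777072) (l 95797903735)))))) (b (l 16776392) (c (l 51774489591) (b (l 16777160) (a (b (l 16777368) (l 4)) (l 217667600679))))))) (b (c (l 16776848) (c (l 16776840) (a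 (l 16776704) (b (l 16776816) (b (l 16777272) (a (l 16777376) (l 4))))))) (b (a (c (l 16777248) (a (b (l 16777136) (l 131231384007)) (b (l 100629742007) (l 4)))) (l 4)) (l 4)))) (a (b (a (c (l 73249326327) (c (l 72712454663) (b (a (l 16777048) (b (l 16777104) (l 123178320215))) (l 206930182471)))) (a (b (b (c (l 16777232) (l 79154905527)) (l 4)) (l 4)) (l 4))) (l 4)) (l 4)))) (a (a (a (b (b (b (c (l 16777696) (c (l 154853704391) (l 198340247847))) (l 4)) (l 4)) (l 4)) (l 4)) (l 4)) (l 4))), by decide +kernel⟩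

def k36_pp_022_t : ∃ t, chk3 f_pp_022_t t 140 247 1 = true :=
  ⟨(l 4), by decide +kernel⟩

def k37_pp_022_t : ∃ t, chk3 f_pp_022_t t 141 123 1 = true :=
  ⟨(b (b (b (a (a (b (c (a (c (l 16777720) (l 16777712)) (l 180623508007)) (b (b (a (l 16776808) (a (a (l 16777184) (l 151095607687)) (l 4))) (a (a (l 16776856) (a (l 16777088) (l 72712454551))) (l 4))) (a (b (a (l 16777056) (a (l 100092871095) (l 4))) (a (a (l 16777168) (l 130694513095)) (l 4))) (l 4)))) (a (a (b (c (l 16777568) (l 213909504375)) (l 4)) (l 4)) (l 4))) (l 4)) (l 4)) (l 4)) (l 4)) (l 4)), by decide +kernel⟩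

def k38_pp_022_t : ∃ t, chk3 f_pp_022_t t 71 123 1 = true :=
  ⟨(l 4), by decide +kernel⟩

def k39_pp_022_t : ∃ t, chk3 f_pp_022_t t 17 31 1 = true :=
  ⟨(b (a (b (a (l 14) (a (a (l 14) (a (l 14) (l 4))) (l 4))) (l 4)) (l 4)) (l 4)), by decide +kernel⟩

def k40_pp_022_t : ∃ t, chk3 f_pp_022_t t 18 28 1 = true :=
  ⟨(a (c (b (b (a (l 16696696) (l 16695224)) (a (a (l 16683096) (l 16687720)) (a (l 16692304) (l 16696848)))) (a (b (a (l 16693168) (l 16697856)) (a (l 16714128) (l 16718888))) (b (c (l 16715696) (l 16704440)) (a (l 16723608) (b (l 16715080) (l 16720520)))))) (b (a (b (l 16683448) (a (l 16680872) (l 16685552))) (b (a (l 16679856) (l 16684432)) (a (l 16690208) (l 16694840)))) (a (b (b (l 16680632) (l 16692568)) (a (l 16712840) (l 16713696))) (b (a (l 16711376) (l 16716064)) (a (b (l 16709104) (l 16714696)) (c (l 16716944) (l 16716360))))))) (b (c (a (b (b (l 16712088) (l 16706536)) (c (l 16714512) (l 16713632))) (b (a (l 16700128) (l 16704480)) (a (l 16720760) (l 16725200))))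 (a (b (c (l 16691856) (l 16701120)) (c (l 16702224) (l 16701264))) (b (a (l 16687560) (l 16702600)) (a (c (l 16709048) (l 16708184)) (b (l 16710528) (l 16715912)))))) (c (a (b (a (l 16722184) (l 16726728)) (a (b (l 16719704) (l 16725176)) (a (l 16736384) (l 16738688)))) (b (a (l 16727000) (a (l 16734656) (l 16736920))) (b (a (l 16728888) (l 16733480)) (a (l 16734432) (l 16739056))))) (a (b (a (l 16709912) (c (l 16715232) (l 16714536))) (a (c (l 16721648) (l 16721096)) (c (l 16726328) (l 16725824)))) (b (a (c (l 16719848) (l 16719208)) (c (l 16724472) (l 16729136))) (b (a (l 16727920) (l 16743096)) (a (l 16738864) (c (l 16738520) (l 16738160))))))))), by decide +kernel⟩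

def k41_pp_022_t : ∃ t, chk3 f_pp_022_t t 36 29 2 = true :=
  ⟨(b (a (b (a (b (l 16711760) (l 16717312)) (b (l 16716552) (l 16722120))) (b (a (l 16722952) (l 16727784)) (a (l 16728704) (l 16744032)))) (b (b (c (l 16734408) (l 16733952)) (a (l 16726920) (l 16731680))) (a (b (l 16743088) (c (l 16738520) (l 16738248))) (b (l 16742640) (c (l 16743320) (l 16743080)))))) (b (a (b (a (l 16739784) (c (l 16739512) (l 16739288))) (a (c (l 16740568) (l 16740376)) (c (l 16745432) (l 16745256)))) (a (b (c (l 16744360) (l 16744152)) (c (l 16755536) (l 16755376))) (b (c (l 16754424) (l 16748992)) (a (c (l 16753920) (l 16753776)) (b (l 16754768) (l 16757776)))))) (b (a (a (c (l 16746568) (l 16746416)) (a (l 16750152) (l 16755216))) (a (b (c (l 16754792) (l 16754672)) (a (l 16756552) (l 16758992))) (a (b (l 16758376) (l 16761432)) (b (l 16760808) (l 16766480))))) (b (a (a (c (l 16751128) (l 16751000)) (a (l 16754728) (l 16757176))) (a (a (l 16759616) (l 16762056)) (a (c (l 16764536) (l 16764464)) (c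 (l 16766960) (l 16766904))))) (a (a (c (l 16754192) (l 16754088)) (a (l 16757808) (l 16760256))) (a (a (l 16765328) (c (l 16765176) (l 16765120))) (a (c (l 16764992) (l 16767560)) (a (l 16766800) (a (l 16770336) (l 16768320)))))))))), by decide +kernel⟩

def k42_pp_022_t : ∃ t, chk3 f_pp_022_t t 36 29 3 = true :=
  ⟨(b (a (b (a (b (l 16710744) (l 16716456)) (c (l 16718664) (l 16718208))) (b (a (l 16722248) (l 16732344)) (a (l 16733360) (c (l 16733128) (l 16732856))))) (a (b (c (l 16723472) (l 16723040)) (b (c (l 16732112) (l 16731792)) (c (l 16737992) (l 16737736)))) (b (c (l 16728256) (l 16732432)) (b (c (l 16736944) (l 16736640)) (c (l 16742840) (l 16742600)))))) (b (a (b (a (c (l 16734184) (l 16733960)) (c (l 16739064) (l 16738856))) (a (c (l 16740192) (l 16740016)) (c (l 16745088) (l 16747544)))) (a (b (c (l 16743944) (l 16746368)) (c (l 16752600) (a (l 16748600) (l 16751056)))) (b (c (l 16754056) (a (l 16747408) (l 16749856))) (b (c (l 16753336) (l 16753200)) (a (l 16755096) (l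 16760168)))))) (b (a (a (c (l 16751520) (a (l 16744912) (l 16747376))) (c (a (l 16749960) (l 16752408)) (a (l 16749832) (l 16752296)))) (a (b (c (l 16754552) (l 16757056)) (c (l 16760248) (a (l 16756296) (l 16758760)))) (a (c (l 16762384) (b (l 16758120) (l 16761216))) (b (c (l 16760664) (l 16760576)) (c (l 16763752) (l 16766304)))))) (a (a (b (c (l 16750888) (l 16750784)) (c (l 16753984) (l 16755208))) (b (a (l 16754528) (l 16759608)) (a (c (l 16757680) (l 16757600)) (c (l 16760136) (l 16760064))))) (a (b (c (a (l 16759488) (l 16761944)) (a (l 16759408) (l 16761872))) (a (c (l 16762600) (l 16762536)) (c (l 16765056) (c (l 16765016) (l 16764992))))) (a (b (c (l 16764400) (l 16765648)) (c (l 16764896) (a (l 16766856) (l 16769400)))) (b (c (l 16766848) (c (l 16766816) (l 16768096))) (b (a (l 16768552) (l 16771096)) (c (l 16770752) (a (l 16770104) (l 16771336))))))))))), by decide +kernel⟩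

def k43_pp_022_t : ∃ t, chk3 f_pp_022_t t 37 58 1 = true :=
  ⟨(a (c (b (b (a (l 16730744) (l 16745888)) (a (l 16741640) (c (l 16741240) (l 16740944)))) (a (b (c (l 16742280) (l 16742008)) (b (l 16751752) (l 16754688))) (b (c (l 16746992) (l 16746752)) (a (l 16751544) (l 16759160))))) (b (c (a (l 16738256) (b (l 16734848) (l 16740640))) (b (a (l 16729712) (l 16734472)) (a (l 16735552) (l 16740344)))) (a (b (c (l 16741736) (l 16741464)) (c (l 16747664) (a (l 16746240) (l 16748664)))) (b (c (l 16746512) (l 16748904)) (c (a (l 16751264) (l 16753664)) (a (l 16751080) (l 16753496))))))) (a (b (c (b (l 16740064) (c (l 16745912) (l 16745656))) (b (c (l 16739568) (l 16739240)) (c (l 16745392) (l 16745128)))) (b (c (c (l 16756936) (l 16756736)) (c (l 16756536) (a (l 16749888) (l 16752296)))) (c (c (c (l 16762840) (l 16762768)) (c (l 16762696) (l 16762624))) (b (c (l 16755768) (l 16758232)) (a (l 16757496) (l 16761880)))))) (a (b (c (b (l 16743552) (l 16749296)) (b (l 16742960) (l 16748840)))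 (b (c (l 16760376) (c (l 16754880) (l 16754704))) (b (c (l 16759560) (l 16759296)) (c (l 16762536) (c (l 16762384) (l 16762280)))))) (b (c (b (l 16745880) (l 16751648)) (b (l 16745336) (l 16753848))) (b (c (b (l 16756024) (l 16758968)) (c (l 16757272) (l 16759736))) (b (c (l 16761936) (c (l 16761768) (l 16761656))) (c (l 16760992) (c (l 16764792) (l 16764704))))))))), by decide +kernel⟩

def k44_pp_022_t : ∃ t, chk3 f_pp_022_t t 74 118 1 = true :=
  ⟨(a (a (b (c (l 16757944) (c (l 16752448) (l 16752288))) (c (b (l 16757184) (l 16760200)) (c (l 16761136) (c (l 16758432) (l 16761000))))) (b (c (c (l 16755176) (l 16755016)) (c (l 16754872) (l 16757344))) (b (c (l 16759592) (c (l 16759416) (l 16759304))) (c (l 16765232) (c (l 16762480) (l 16762384)))))) (a (b (c (b (l 16755992) (l 16758976)) (c (l 16757280) (l 16759120))) (b (c (l 16761992) (a (l 16761184) (l 16762400))) (c (c (l 16765064) (l 16764984)) (c (l 16764904) (l 16766144))))) (b (c (c (l 16765176) (l 16759816)) (c (l 16762320)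 (b (l 16758048) (l 16761112)))) (b (c (c (l 16764432) (l 16764352)) (a (l 16763616) (l 16767456))) (c (c (l 16767464) (l 16767400)) (c (l 16767336) (c (l 16767288) (l 16769880)))))))), by decide +kernel⟩

def k45_pp_022_t : ∃ t, chk3 f_pp_022_t t 74 238 1 = true :=
  ⟨(a (c (a (b (l 16765856) (c (l 16766328) (l 16766264))) (a (b (l 16765056) (l 16768112)) (b (l 16766264) (l 16766704)))) (a (b (c (l 16763112) (l 16763032)) (c (l 16766200) (c (l 16766152) (l 16768744)))) (b (c (l 16765552) (c (l 16765504) (l 16765472))) (c (l 16764712) (a (l 16767984) (c (l 16769224) (l 16769200))))))) (b (c (a (c (l 16765480) (l 16762800)) (a (l 16767256) (l 16768464))) (b (a (c (l 16767216) (l 16767152)) (a (l 16769016) (l 16767616))) (a (a (l 16768120) (l 16769344)) (c (l 16771200) (c (l 16771168) (l 16768536)))))) (c (a (a (l 16767256) (c (l 16769144) (l 16766488))) (c (l 16773576) (l 16773552))) (b (a (c (l 16770312) (c (l 16770280) (l 16770264))) (c (l 16770128) (a (l 16772112) (l 16770720)))) (a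 (c (l 16769240) (a (l 16771216) (l 16769824))) (a (c (l 16773696) (l 16772368)) (l 16774912))))))), by decide +kernel⟩

def k46_pp_022_t : ∃ t, chk3 f_pp_022_t t 74 239 1 = true :=
  ⟨(a (c (a (b (a (l 16766136) (l 16766704)) (l 16772464)) (b (l 16771880) (a (l 16774296) (b (l 16774728) (l 16776272))))) (c (a (b (b (l 16768528) (l 16770080)) (c (l 16769816) (l 16769144))) (b (c (l 16766520) (l 16769128)) (b (l 16771480) (l 16775656)))) (a (a (b (l 16769960) (b (l 16771000) (l 16769952))) (b (a (l 16769568) (l 16768224)) (c (l 16770400) (b (l 16772224) (l 16771184))))) (a (b (b (l 16770328) (l 16771896)) (b (l 16771496) (c (l 16772424) (l 16773728)))) (b (b (l 16771552) (l 16771816)) (a (l 16775016) (b (l 16773696) (a (l 16776424) (b (l 16773720) (l 16777744)))))))))) (b (c (a (c (l 16774240) (l 16774216)) (b (a (l 16775272) (l 16777768)) (a (c (l 16778064) (l 16778064)) (c (l 167201735415) (l 168275477223))))) (a (c (l 16774200) (c (l 16774192) (b (a (l 16772776) (l 16771392)) (l 16774968))))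 (c (b (a (l 16770016) (l 16776448)) (a (c (l 16776744) (l 16778056)) (l 168812348119))) (b (b (l 16775136) (a (l 16774328) (a (l 16776560) (a (l 16777000) (l 77007422583))))) (b (a (l 16776416) (a (a (l 16777792) (l 111904031943)) (l 4))) (a (a (l 16776880) (a (l 90966066183) (l 195119022519))) (l 4))))))) (a (a (c (b (l 16775944) (a (l 53385102455) (l 112440904295))) (b (c (l 16775936) (l 16775928)) (c (b (l 16778336) (l 131231385751)) (b (a (l 16776792) (b (l 9361687559) (l 147337512023))) (a (l 166664863399) (l 4)))))) (b (a (c (l 16776808) (c (l 16776808) (b (l 16776456) (a (l 16777056) (l 95261033543))))) (c (l 78618035463) (b (a (l 16776912) (a (l 16777768) (l 79691776983))) (l 204782699111)))) (l 4))) (a (a (c (l 197266507367) (b (c (l 188139701047) (b (l 179012895159) (l 4))) (l 4))) (l 4)) (l 4))))), by decide +kernel⟩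

def k47_pp_022_t : ∃ t, chk3 f_pp_022_t t 150 118 1 = true :=
  ⟨(a (c (b (b (l 16760760) (c (l 16763816) (l 16763720))) (b (c (l 16766824) (l 16766760)) (c (l 16767240) (l 16764568)))) (b (c (b (l 16760592) (l 16763632)) (b (l 16760480) (l 16763544))) (b (c (l 16766688) (c (l 16766640) (l 16766608))) (c (l 16767144) (b (l 16766320) (c (l 16770504) (l 16770488))))))) (c (b (b (l 16763152) (c (l 16766200) (l 16766128))) (b (c (l 16763976) (l 16763928)) (l 16772248))) (b (b (c (l 16763000) (l 16762904)) (c (l 16766048) (c (l 16766000) (l 16765960)))) (b (c (l 16763872) (a (l 16768456) (l 16767056))) (c (c (l 16766968) (l 16766952)) (a (c (l 16771568) (l 16768928)) (b (l 16772000) (l 16770936)))))))), by decide +kernel⟩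

def k48_pp_022_t : ∃ t, chk3 f_pp_022_t t 150 119 1 = true :=
  ⟨(b (c (b (a (l 16772904) (a (l 16774712) (b (l 16775152) (l 16777952)))) (a (a (l 16775376) (b (l 16775816) (a (l 16778288) (l 98482260551)))) (b (a (a (l 16776688) (l 65196263927)) (l 178476024791)) (l 206393312535)))) (b (b (c (l 16772648) (a (a (l 16771440) (l 16772664)) (l 16774504))) (a (c (l 16771016) (a (l 16770384) (l 16772920))) (a (c (l 16775464) (l 16775456)) (b (l 16776296) (a (l 16776760) (a (l 56606326727) (l 120493966567))))))) (a (a (c (l 16775352) (b (l 16772600) (b (l 16774432) (l 16776512)))) (b (c (l 16775800) (l 16775792)) (b (a (l 16776664) (a (l 16777736) (l 97408516727))) (a (a (a (l 16777816) (l 91502937127)) (l 131231384887)) (l 4))))) (b (b (a (c (l 16776616) (c (l 16776616) (l 16776608))) (a (a (l 88281711271) (l 161296155911)) (l 4))) (a (c (l 73249327335) (a (a (l 16776936) (l 16777656)) (l 183844733383))) (l 4))) (a (c (l 211762021671) (l 213909505303)) (l 4)))))) (b (b (a (a (b (c (l 63585651191)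 (c (l 16778120) (a (l 16777624) (c (l 124252063031) (l 125862675751))))) (c (l 151632480711) (c (l 155927447655) (l 198877119287)))) (l 4)) (l 4)) (l 4)) (l 4))), by decide +kernel⟩

def k49_pp_022_t : ∃ t, chk3 f_pp_022_t t 151 59 1 = true :=
  ⟨(a (b (c (c (b (b (l 16765584) (l 16768592)) (b (l 16767688) (l 16774664))) (b (b (l 16765496) (l 16768528)) (b (l 16768960) (l 16774648)))) (c (b (b (l 16765416) (l 16763232)) (b (l 16768920) (l 16774632))) (b (b (l 16767960) (a (l 16767808) (l 16769024))) (b (c (l 16768240) (a (l 16770888) (l 16769488))) (c (l 16774624) (c (l 16774616) (l 16774608))))))) (b (b (b (a (c (l 16776336) (c (l 16776328) (b (l 16775952) (c (l 16776712) (l 16777360))))) (c (c (l 82376132231) (l 81839262631)) (b (a (l 16776856) (a (l 79154906327) (l 144653157575))) (c (l 139284449399) (l 184918475431))))) (b (a (c (l 85060487735) (a (a (l 16777032) (l 83449873671)) (l 193508409927))) (l 4)) (l 4))) (l 4)) (l 4))) (b (b (b (c (c (l 16767960) (l 16767896)) (c (l 16767832)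 (c (l 16767784) (l 16767760)))) (c (c (l 16768360) (l 16765696)) (c (l 16765656) (c (l 16768240) (b (l 16770072) (l 16769000)))))) (b (c (l 16774008) (c (l 16773976) (a (b (l 16772568) (l 16771496)) (l 16774568)))) (c (b (a (l 16775696) (l 16778624)) (a (c (l 57680068791) (l 57143200487)) (l 197803377847))) (b (a (l 16775680) (c (l 16778128) (a (l 16777232) (b (l 16776800) (l 117809612215))))) (b (a (a (l 16776544) (a (l 16776976) (l 71101842679))) (c (l 152706222183) (l 195119022871))) (a (a (a (l 16777120) (l 103314097479)) (l 4)) (l 4))))))) (l 4))), by decide +kernel⟩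

def k50_pp_022_t : ∃ t, chk3 f_pp_022_t t 19 56 1 = true :=
  ⟨(b (a (a (c (l 16718880) (c (l 16709848) (l 16709016))) (c (a (l 16717560) (l 16721936)) (a (l 16716256) (l 16720808)))) (a (c (a (l 16726328) (l 16730736)) (a (l 16725360) (l 16729920))) (a (c (l 16745640) (l 16739728)) (c (l 16744840) (b (l 16736304) (l 16741800)))))) (a (a (c (a (l 16719152) (l 16723600)) (a (l 16717832) (l 16722448))) (c (a (l 16728048) (l 16732512)) (a (l 16727064) (l 16736920)))) (b (a (a (l 16739152) (a (l 16737312) (l 16739584))) (c (a (l 16743248) (l 16747752)) (a (l 16742736) (l 16747352)))) (a (c (a (l 16739696) (l 16744216)) (a (l 16739064) (l 16743696))) (a (a (l 16752640) (l 16749696)) (c (l 16753296) (l 16758240))))))), by decide +kernel⟩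

def k51_pp_022_t : ∃ t, chk3 f_pp_022_t t 38 57 1 = true :=
  ⟨(a (a (b (b (l 16731832) (c (l 16743032) (l 16730976))) (c (b (l 16738072) (c (l 16743832) (l 16743528))) (c (b (l 16737504) (l 16743224)) (b (l 16737112) (l 16742904))))) (b (c (l 16739600) (c (l 16733728) (l 16733296))) (c (b (l 16742656) (a (l 16747152) (l 16749472))) (b (l 16742016) (a (l 16746608) (l 16748984)))))) (b (c (b (a (l 16736136) (l 16740664)) (a (l 16741648) (l 16746216))) (b (a (l 16735360) (l 16740024)) (a (l 16741008) (l 16745696)))) (a (b (c (l 16747256) (l 16746736)) (c (l 16758192) (c (l 16752648) (l 16752440)))) (c (b (l 16751864) (b (l 16756152) (l 16759040))) (b (l 16754080) (c (l 16757368) (l 16761152))))))), by decide +kernel⟩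

def k52_pp_022_t : ∃ t, chk3 f_pp_022_t t 39 57 1 = true :=
  ⟨(a (a (b (c (b (l 16745208) (l 16750800)) (b (l 16744688) (l 16755640))) (a (c (b (l 16755328) (l 16761088)) (b (l 16755000) (b (l 16759376) (l 16762328)))) (c (b (l 16757640) (l 16758184)) (b (l 16757360) (b (l 16761752) (l 16764712)))))) (c (b (b (l 16749760) (l 16760648)) (a (b (l 16759960) (b (l 16764304) (l 16767224))) (b (l 16762288) (c (l 16762896) (l 16762840))))) (b (b (l 16749360) (c (l 16755168) (l 16755016))) (b (c (l 16755720) (b (l 16759384) (l 16762320))) (a (b (l 16764128) (l 16767096)) (b (l 16766512) (l 16764240))))))) (b (c (a (b (l 16754336) (b (l 16758584) (l 16761448))) (b (b (l 16757512) (l 16760352)) (b (l 16757968) (l 16760856)))) (a (a (b (l 16752856) (l 16758624)) (b (l 16755200) (l 16755736))) (b (a (l 16757536) (l 16759880)) (c (l 16759304) (a (l 16763288) (l 16760416)))))) (b (c (a (a (l 16759376) (l 16761704)) (a (c (l 16764072) (l 16764024)) (l 16771632))) (a (a (c (l 16764496) (l 16759176))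 (b (l 16765352) (l 16768304))) (a (b (l 16767720) (l 16765432)) (b (l 16764848) (l 16769120))))) (a (c (c (l 16771656) (l 16771624)) (b (a (l 16763648) (l 16768648)) (c (l 16773072) (l 16773048)))) (b (c (a (l 16773688) (l 16778592)) (a (l 16773656) (a (l 16775432) (b (l 16775888) (l 69491230183))))) (b (a (c (l 16775888) (l 16775872)) (c (l 115662131559) (c (l 114588389383) (l 163443637751)))) (a (c (l 67880617543) (a (l 16778040) (a (l 103314098407) (l 4)))) (l 4)))))))), by decide +kernel⟩

def k53_pp_022_t : ∃ t, chk3 f_pp_022_t t 76 58 1 = true :=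
  ⟨(a (b (b (c (c (l 16749504) (l 16749264)) (c (l 16749024) (l 16754024))) (c (c (l 16760504) (l 16760328)) (c (a (l 16753712) (l 16756096)) (a (l 16753520) (l 16755920))))) (a (b (c (b (l 16758384) (l 16761336)) (c (l 16759664) (l 16762152))) (b (c (l 16764312) (c (l 16764168) (l 16764080))) (c (c (l 16767344) (l 16767272)) (c (l 16767200) (c (l 16767152) (l 16767120)))))) (c (b (b (l 16760744) (l 16763712)) (b (l 16762760) (c (l 16764480) (l 16764424)))) (b (c (l 16756816) (b (l 16760432) (l 16763456))) (b (a (l 16765936) (l 16764520)) (c (l 16764376) (a (l 16768952) (l 16767552)))))))) (b (a (b (c (l 16758128) (c (l 16752568) (l 16752360))) (c (b (l 16757232) (l 16760160)) (c (l 16758472) (l 16760944)))) (b (c (l 16760464) (c (l 16754944) (l 16754752))) (b (c (l 16759584) (l 16761920)) (c (l 16762520) (l 16764912))))) (b (b (a (c (l 16763112) (a (l 16762296) (l 16763496))) (c (l 16765480) (c (l 16765344) (l 16765256)))) (a (c (l 16760840) (c (l 16765960) (l 16765872))) (c (l 16764528)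 (c (l 16768360) (c (l 16768312) (l 16768280)))))) (c (a (b (c (l 16769104) (l 16769040)) (l 16772088)) (a (l 16772368) (l 16773568))) (b (a (c (l 16768984) (c (l 16768944) (l 16766288))) (c (l 16766152) (a (l 16768128) (l 16769344)))) (c (l 16773240) (c (l 16773224) (a (b (l 16771216) (l 16770136)) (l 16774424))))))))), by decide +kernel⟩

def k54_pp_022_t : ∃ t, chk3 f_pp_022_t t 77 116 1 = true :=
  ⟨(c (a (b (c (l 16764040) (l 16763896)) (a (b (l 16761936) (l 16759640)) (b (l 16764288) (l 16767240)))) (b (a (l 16756992) (b (l 16763112) (l 16766048))) (a (a (l 16762296) (l 16763472)) (b (l 16769008) (l 16766736))))) (a (a (b (l 16757232) (c (l 16758000) (b (l 16761632) (l 16764640)))) (b (l 16762248) (b (l 16764088) (c (l 16767128) (l 16767056))))) (a (b (b (l 16760520) (l 16763496)) (c (l 16762784) (b (l 16766448) (l 16764232)))) (b (b (l 16762912) (l 16765888)) (c (l 16765184) (b (l 16768864) (l 16769272))))))), by decide +kernel⟩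

def k55_pp_022_t : ∃ t, chk3 f_pp_022_t t 77 117 1 = true :=
  ⟨(b (b (a (b (a (c (l 16767104) (c (l 16766992) (l 16766912))) (c (l 16769472) (l 16769360))) (c (l 16769784) (c (l 16765768) (a (l 16768432) (l 16768232))))) (c (a (l 16767352) (l 16774968)) (c (l 16773744) (c (l 16773728) (a (l 16769888) (l 16774928)))))) (a (c (a (c (l 16765616) (l 16765568)) (l 16773216)) (c (l 16771968) (a (c (l 16765488) (l 16768088)) (l 16773144)))) (a (c (a (l 16775008) (l 16777456)) (c (l 16776848) (a (l 16774968) (a (l 16775864) (b (l 16775720) (l 59290682055)))))) (a (c (b (l 16776592) (l 131768257447)) (b (c (l 16776584) (l 16777232)) (c (l 132305128167) (l 178476024615)))) (c (l 170959832279) (b (c (l 105998453415) (l 157001186439)) (l 4))))))) (a (b (a (c (l 16773848) (c (l 16773808) (l 16773784))) (a (c (l 16775624) (c (l 16775608) (b (l 16772216) (l 16776352)))) (b (c (l 16776072) (l 16776056)) (c (l 83449875799) (b (a (l 16776888) (l 100629743239)) (l 181160379047)))))) (b (a (c (a (l 16775512)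 (l 16776656)) (a (l 16775488) (a (l 16776392) (b (l 16776624) (l 81302390407))))) (a (b (c (l 16777296) (a (l 16777784) (l 161296156263))) (l 4)) (l 4))) (a (c (a (l 16778240) (l 177939153863)) (a (b (l 16776624) (a (l 16777056) (l 133915739799))) (c (l 139284450135) (l 183844733831)))) (l 4)))) (a (b (b (c (a (l 61975039351) (l 202098345143)) (a (b (l 16778152) (a (l 75396810487) (l 4))) (l 204782699655))) (l 4)) (l 4)) (l 4)))), by decide +kernel⟩

def k56_pp_022_t : ∃ t, chk3 f_pp_022_t t 39 58 1 = true :=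
  ⟨(b (b (a (b (a (c (b (l 16760656) (l 16762128)) (a (l 16765296) (l 16762440))) (c (l 16771344) (a (l 16766144) (c (l 16767240) (l 16767216))))) (a (a (c (l 16768408) (l 16765664)) (c (l 16765520) (a (l 16770080) (l 16771280)))) (c (a (l 16767888) (l 16775464)) (c (l 16774920) (a (l 16770448) (b (l 16769472) (a (l 16770384) (l 16778072)))))))) (a (a (c (b (l 16774888) (b (c (l 9898561175) (l 16779560)) (l 176328541447))) (b (l 16774856) (b (a (l 16776488) (a (l 75396810951) (l 141431933063))) (c (l 178476025047) (l 180086637751))))) (b (b (c (l 16776440) (c (l 16776432) (a (l 16775904) (l 6677334295)))) (c (l 98482261207) (a (c (l 16777136) (l 71638713623)) (l 4)))) (l 4))) (b (a (c (l 199413991655) (b (l 189750314455) (l 4))) (l 4)) (l 4)))) (a (a (c (a (l 16772864) (b (l 16773736) (a (l 16776088) (b (l 16776544) (l 124788935671))))) (a (b (c (l 16771312) (l 16768648)) (l 16774320)) (b (l 16773696) (b (a (l 16772744) (l 16777840)) (a (b (l 16776496) (l 61438165735)) (l 170422960855))))))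 (b (b (a (c (l 16775360) (l 16775344)) (c (c (l 85597357495) (l 84523618279)) (a (a (l 16776800) (l 77544294631)) (l 188139701223)))) (a (a (c (l 16776256) (l 16776240)) (c (l 16778488) (a (l 8824817591) (l 112440903831)))) (l 4))) (b (a (a (c (l 99019131863) (a (l 79691776999) (l 146263771319))) (l 4)) (l 4)) (l 4)))) (l 4))) (a (b (a (b (c (a (b (l 16778480) (l 153779961207)) (l 203172088183)) (a (b (a (l 16775992) (b (l 16776784) (l 95261033303))) (a (a (a (l 16777000) (l 74323068695)) (l 117272741463)) (l 4))) (b (a (l 199413990455) (l 4)) (l 4)))) (l 4)) (l 4)) (l 4)) (l 4))), by decide +kernel⟩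

def k57_pp_022_t : ∃ t, chk3 f_pp_022_t t 38 59 1 = true :=
  ⟨(b (a (b (a (c (b (c (l 16771544) (l 16771504)) (a (l 16773360) (a (l 16775160) (a (l 16776040) (b (l 16775896) (l 16778520)))))) (b (c (l 16771464) (a (a (l 16769600) (l 16768192)) (c (l 16770032) (b (l 16769240) (l 16770784))))) (b (a (a (l 16769304) (l 16771176)) (c (l 16774976) (l 16774960))) (a (a (c (l 16773480) (l 16770840)) (l 16774688)) (a (l 16775904) (c (l 16778632) (b (l 16776704) (a (l 16777784) (l 196729635367))))))))) (a (b (c (b (l 16774352) (l 16777168)) (c (l 16775080) (c (l 16775728) (b (l 16771680) (a (l 16772616) (l 16777088)))))) (c (b (a (l 16778048) (l 115662130583)) (l 189213443719)) (b (a (a (l 16776480) (b (l 16776704) (l 97945387991))) (a (b (l 70564970839) (l 4)) (l 4))) (a (c (l 188139701271) (b (l 183844733591) (l 4))) (l 4))))) (b (a (b (c (l 16776144) (c (l 16776136) (l 16776128))) (c (l 89892325479) (b (a (l 16776960) (l 114051516071)) (l 189750313751)))) (b (c (l 65733134375) (b (a (l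 16776664) (l 63048779399)) (c (l 16778080) (l 163443638679)))) (l 4))) (l 4)))) (a (b (b (a (c (l 16775640) (c (l 16775624) (a (l 16772392) (l 16776552)))) (a (c (c (l 74323069783) (l 74323069767)) (c (l 73786197527) (b (a (l 16776752) (l 79154906583)) (l 173107315223)))) (l 4))) (a (c (a (l 16776536) (c (l 99556002775) (l 99019131863))) (c (a (l 16776528) (l 98482259655)) (a (a (l 16776256) (b (l 16776480) (l 65733133623))) (a (b (l 16777040) (l 209614537319)) (l 191360926503))))) (l 4))) (b (a (a (c (l 169886090055) (c (l 173107315495) (b (a (l 88818582983) (l 4)) (l 4)))) (l 4)) (l 4)) (l 4))) (l 4))) (b (a (b (a (a (b (c (l 205856441623) (l 209077667047)) (l 4)) (l 4)) (l 4)) (l 4)) (l 4)) (l 4))) (l 4)), by decide +kernel⟩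

def k58_pp_022_t : ∃ t, chk3 f_pp_022_t t 39 59 1 = true :=
  ⟨(l 4), by decide +kernel⟩

def k59_pp_022_t : ∃ t, chk3 f_pp_022_t t 72 120 1 = true :=
  ⟨(b (c (a (b (a (l 16756000) (l 16758456)) (a (l 16759112) (l 16764192))) (a (b (l 16760912) (c (l 16764056) (l 16763992))) (b (l 16765984) (b (l 16765696) (l 16767256))))) (a (c (b (l 16759728) (a (l 16759000) (l 16761472))) (b (a (l 16755792) (l 16758264)) (a (l 16758936) (l 16761408)))) (b (a (c (l 16760800) (l 16760736)) (c (l 16763264) (l 16764520))) (c (a (l 16763936) (l 16763128)) (a (l 16765192) (c (l 16766368) (l 16767656))))))) (a (a (b (c (l 16764856) (c (l 16762144) (l 16764712))) (c (b (l 16764584) (l 16766152)) (c (l 16765296) (c (l 16765272) (l 16766560))))) (c (a (b (l 16764080) (l 16767216)) (b (l 16765304) (b (l 16767656) (l 16769232)))) (b (c (l 16764616) (c (l 16764576) (l 16764560))) (a (c (l 16767152) (l 16768432)) (b (l 16767584) (l 16769824)))))) (b (a (a (c (l 16766536) (c (l 16766464) (l 16766424))) (c (l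 16765144) (c (l 16767704) (l 16768976)))) (b (a (c (l 16768208) (l 16768128)) (c (l 16769432) (l 16770680))) (c (c (l 16770408) (l 16770376)) (c (l 16770344) (a (l 16769696) (l 16770936)))))) (b (c (a (a (l 16768888) (l 16770120)) (c (l 16769352) (l 16769328))) (c (a (l 16769456) (l 16769304)) (a (c (l 16769432) (l 16770728)) (a (l 16771288) (c (l 16772528) (l 16772520)))))) (c (a (c (l 16768472) (l 16768440)) (l 16773536)) (a (c (l 16768416) (a (l 16770400) (a (l 16771328) (l 16771944)))) (a (c (l 16772896) (c (l 16772880) (l 16771568))) (c (l 16771512) (a (l 16772496) (l 16773120)))))))))), by decide +kernel⟩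

def k60_pp_022_t : ∃ t, chk3 f_pp_022_t t 73 240 1 = true :=
  ⟨(b (a (a (c (b (l 16765032) (l 16766584)) (c (l 16765728) (c (l 16765688) (l 16768288)))) (a (c (l 16767640) (c (l 16767576) (l 16768840))) (c (l 16766240) (b (l 16768000) (l 16770880))))) (b (c (a (c (l 16769936) (l 16769896)) (c (l 16769752) (l 16769728))) (a (c (l 16769864) (c (l 16769840) (l 16769824))) (c (l 16769704) (a (l 16771680) (l 16771608))))) (c (c (l 16772712) (l 16772688)) (a (c (l 16768816) (a (l 16770792) (l 16772024))) (c (l 16771272) (c (c (l 16771264) (l 16771256)) (a (l 16773256) (l 16773184)))))))) (a (b (a (c (l 16765520) (a (l 16767440) (l 16768680))) (c (c (l 16770608) (l 16770576)) (c (l 16770544) (a (l 16769896) (l 16771136))))) (c (a (c (l 16769728) (l 16769688)) (c (l 16769552) (l 16769520))) (a (c (l 16769656) (c (l 16769632) (l 16770928))) (c (l 16769496) (a (l 16771480) (c (l 16772720) (l 16772712))))))) (a (c (c (l 16773832) (l 16773816)) (c (l 16773800) (a (b (l 16771056) (a (l 16773648)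 (l 16772952))) (a (b (l 16773296) (l 16773576)) (b (l 16773920) (l 16774192)))))) (b (c (a (l 16774872) (l 16776088)) (c (l 16775464) (c (l 16775464) (c (l 16775624) (a (l 16773528) (l 16776400)))))) (c (a (l 16777392) (b (l 59827553287) (l 189213442887))) (b (a (l 16776032) (a (a (l 16776800) (b (l 16776920) (l 81839260503))) (c (l 112440903095) (c (l 118883353863) (l 167738605207))))) (a (a (l 16776520) (b (l 16776928) (a (l 16777152) (l 140895060807)))) (c (l 193508410167) (a (l 189750313463) (l 4)))))))))), by decide +kernel⟩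

def k61_pp_022_t : ∃ t, chk3 f_pp_022_t t 146 241 1 = true :=
  ⟨(a (a (c (b (c (l 16768840) (l 16768808)) (l 16774592)) (b (c (l 16768784) (b (l 16770592) (c (l 16772184) (l 16772168)))) (b (c (l 16773784) (a (l 16773456) (l 16772768))) (a (b (l 16773344) (l 16774144)) (l 16775672))))) (c (b (c (l 16770064) (l 16770040)) (b (l 16775032) (c (l 16777792) (l 16777872)))) (b (c (l 16770016) (b (l 16770520) (c (l 16773416) (l 16772104)))) (a (c (l 16775496) (b (l 16773384) (b (l 16774584) (l 16776688)))) (b (b (l 16773616) (l 16774408)) (b (l 16776512) (c (l 16777184) (b (a (l 16776952) (l 16777568)) (a (l 97945387767) (l 4)))))))))) (b (c (c (l 16774520) (l 16774504)) (c (l 16774496) (c (c (l 16774488) (l 16774480)) (b (a (l 16771752) (c (l 16771680) (l 16772992))) (a (c (l 16772032) (l 16773344)) (l 16775896)))))) (b (a (c (l 16776240) (c (l 16776240) (a (l 16775936) (a (l 16776400) (b (l 16775000) (b (l 16776912) (l 83449873127))))))) (a (b (c (l 16776776) (c (l 16776768) (l 16777096)))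 (c (l 107609065127) (a (b (l 58216940263) (l 4)) (l 208003924471)))) (b (c (l 16777904) (a (b (l 16777032) (l 126936417079)) (c (l 16777368) (l 174717927735)))) (l 4)))) (b (a (c (c (l 76470551399) (l 76470552711)) (a (b (l 16777248) (a (l 16777472) (l 140895060807))) (c (l 144653157783) (c (l 189750313479) (l 191360926215))))) (l 4)) (l 4))))), by decide +kernel⟩

def k62_pp_022_t : ∃ t, chk3 f_pp_022_t t 147 241 1 = true :=
  ⟨(b (a (b (a (c (l 16775560) (c (l 16775552) (l 16775544))) (a (c (l 16776464) (c (l 16776464) (b (l 16774760) (c (l 16776848) (l 16777176))))) (b (c (l 16776696) (l 16776688)) (c (l 16777968) (b (a (l 16777112) (l 126936417079)) (l 206393311687)))))) (b (c (a (l 16776712) (l 180623508199)) (a (a (l 16776424) (a (l 16776880) (b (l 16776992) (l 109219677015)))) (c (l 184381604567) (a (c (l 133378868503) (l 179012895127)) (l 4))))) (a (c (c (l 87207970919) (l 87207970919)) (c (c (l 93650421527) (l 94187291111)) (a (b (l 16777000) (a (l 16777528) (l 4))) (l 202635215447))))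 (l 4)))) (a (a (b (b (c (l 16777184) (a (b (l 16776952) (l 96334775111)) (b (l 70564971287) (l 4)))) (l 4)) (l 4)) (l 4)) (l 4))) (l 4)), by decide +kernel⟩

def k63_pp_022_t : ∃ t, chk3 f_pp_022_t t 144 242 1 = true :=
  ⟨(b (b (a (a (c (l 16767112) (l 16767040)) (c (l 16768344) (l 16768280))) (c (c (l 16770208) (l 16770176)) (c (l 16767528) (a (l 16769504) (l 16770752))))) (c (a (a (l 16768688) (l 16769928)) (c (l 16769168) (l 16769144))) (c (a (l 16769264) (l 16769200)) (a (c (l 16769240) (l 16770544)) (a (l 16771104) (c (l 16772352) (l 16772344))))))) (c (a (a (c (l 16768456) (l 16768432)) (b (l 16771504) (l 16770472))) (c (l 16774160) (l 16774144))) (a (c (b (l 16768232) (c (l 16769832) (l 16769824))) (a (b (l 16770216) (c (l 16771816) (l 16771808))) (a (b (l 16771144) (l 16772744)) (b (l 16771768) (l 16772056))))) (c (c (l 16774136) (l 16774128)) (a (b (a (l 16772392) (l 16773008)) (b (l 16772592) (c (l 16774704) (l 16773392)))) (b (a (l 16772320) (a (l 16774096) (l 16773096)))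 (b (c (l 16775144) (l 16773832)) (l 16775944)))))))), by decide +kernel⟩

def k64_pp_022_t : ∃ t, chk3 f_pp_022_t t 145 242 1 = true :=
  ⟨(b (b (a (c (c (l 16770048) (l 16770024)) (c (c (l 16770008) (l 16770000)) (a (c (l 16771992) (l 16771984)) (a (l 16772920) (l 16772232))))) (c (l 16775120) (c (l 16775104) (c (l 16775096) (a (a (l 16774160) (l 16773472)) (l 16775712)))))) (c (a (l 16774240) (a (l 16776080) (b (l 16778176) (c (l 110830290983) (l 111367161879))))) (a (a (c (l 16773600) (a (l 16773280) (l 16772584))) (c (l 16772216) (b (l 16773120) (a (l 16774920) (l 16774232))))) (a (c (l 16776072) (c (l 16776064) (b (l 16774360) (a (l 16774848) (l 16777096))))) (c (b (l 16777848) (a (l 81839261127) (l 4))) (b (a (l 16776600) (b (c (l 16777008) (l 16777328)) (a (l 70564971223) (l 4)))) (a (b (a (l 16777040) (l 99556000503)) (l 190287184247)) (l 4)))))))) (a (b (c (a (l 16775208) (c (l 16777064) (l 16777064))) (a (c (l 16772576) (c (l 16773880) (b (l 16773472) (l 16774272)))) (a (c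 (l 16776120) (l 16776120)) (b (l 16776344) (c (l 16777080) (b (l 16776928) (a (l 16777480) (l 154316833463)))))))) (a (c (b (l 16776392) (a (l 16776864) (l 95797905063))) (c (a (l 16776472) (b (l 16776696) (l 97945388503))) (a (a (l 16776320) (b (l 16774920) (b (l 16776832) (l 62511906839)))) (b (l 16776856) (a (b (l 16777120) (l 175791669943)) (l 194045280695)))))) (a (b (c (l 16777856) (c (l 16777928) (b (a (l 16776960) (l 73249325783)) (c (l 125862675447) (l 176865411351))))) (l 4)) (l 4)))) (a (b (a (b (c (l 16776936) (a (l 16776800) (b (l 16776920) (c (l 16777240) (l 86134227687))))) (a (c (l 16777736) (c (l 137673835623) (l 185455346039))) (l 4))) (c (l 176865411831) (c (l 180623508199) (b (a (b (l 60901294743) (l 4)) (l 212835762695)) (l 4))))) (l 4)) (l 4)))), by decide +kernel⟩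

def k65_pp_022_t : ∃ t, chk3 f_pp_022_t t 73 242 1 = true :=
  ⟨(a (b (b (a (b (a (c (l 16776552) (a (l 16776248) (a (l 16776712) (b (l 16776824) (l 59290681431))))) (a (c (l 94187292311) (b (a (l 16777112) (l 124252062567)) (l 202635215319))) (l 4))) (a (c (a (l 16777008) (l 124252063367)) (c (a (l 16777008) (l 130157643143)) (a (a (l 16776880) (b (l 16777000) (l 115662127847))) (a (b (l 83986744039) (l 4)) (l 4))))) (l 4))) (l 4)) (a (a (c (l 204782699863) (c (l 210688279863) (b (a (l 203708957287) (l 4)) (l 4)))) (l 4)) (l 4))) (l 4)) (l 4)), by decide +kernel⟩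

def k66_pp_022_t : ∃ t, chk3 f_pp_022_t t 36 486 1 = true :=
  ⟨(a (b (a (a (c (l 16774064) (a (c (l 16770808) (c (l 16773416) (b (l 16773008) (l 16773816)))) (c (l 16772048) (c (l 16773352) (b (l 16772944) (l 16773752)))))) (a (c (l 16775920) (c (l 16775912) (c (l 16775904) (c (l 16775904) (l 16775904))))) (c (b (l 16777376) (a (l 16777792) (l 158611801719))) (a (b (l 16776440) (b (a (l 16776888) (a (l 16777104) (l 75933680247))) (a (a (l 16777512) (l 115662127735)) (l 4)))) (c (b (l 16777016) (l 172033574247)) (a (b (l 16777224) (l 204245828071)) (b (b (l 16777008) (l 119957095159)) (l 4)))))))) (b (a (a (c (l 182770991895) (c (l 187602830071) (a (c (l 181160378807) (b (l 169349217879) (l 4))) (l 4)))) (l 4)) (l 4)) (l 4))) (a (a (c (a (l 16775040) (c (l 16776264) (l 16776256))) (a (c (l 16772408) (c (l 16773712) (b (l 16773304) (c (l 16774112) (l 16774112))))) (c (l 16776824) (a (l 16775960) (b (l 16774864) (a (l 16776824) (b (l 16776936) (a (l 16777536) (l 142505673271)))))))))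 (a (c (b (a (l 16776792) (l 83986744967)) (l 175791669943)) (b (c (a (l 16776792) (l 83986744791)) (a (c (l 16776784) (b (l 16775288) (l 16777352))) (b (a (l 16777056) (l 110293418695)) (l 194045280663)))) (a (a (b (a (l 16777152) (l 95261033111)) (l 4)) (l 213372633639)) (l 4)))) (l 4))) (l 4))) (l 4)), by decide +kernel⟩

def k67_pp_022_t : ∃ t, chk3 f_pp_022_t t 36 487 1 = true :=
  ⟨(a (a (a (a (b (b (c (l 16776240) (c (l 16776232) (l 16776232))) (a (c (l 16776720) (c (l 16776720) (c (l 16776712) (l 16776880)))) (c (l 72175584871) (c (l 71638713799) (b (a (l 16776984) (a (l 16777184) (l 124788933175))) (c (l 131768255479) (l 181697249591))))))) (b (b (a (c (l 16777232) (a (b (l 16777064) (l 79691776583)) (a (l 129083900583) (l 4)))) (l 4)) (l 4)) (l 4))) (b (b (c (a (l 16777760) (l 142505674439)) (b (c (c (l 16777800) (l 62511906999)) (a (c (l 16776952) (l 16777272)) (c (l 141968802807) (l 189213442407)))) (a (a (a (l 16777120) (l 84523614807)) (l 155927446311)) (l 4)))) (l 4))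 (l 4))) (l 4)) (l 4)) (l 4)), by decide +kernel⟩

def k68_pp_022_t : ∃ t, chk3 f_pp_022_t t 37 60 1 = true :=
  ⟨(b (a (b (a (b (a (a (c (l 16774968) (c (l 16774952) (b (c (l 16774152) (l 16772840)) (l 16775728)))) (a (c (l 16776728) (c (l 16775856) (b (l 16773768) (a (l 16776496) (b (l 16773792) (a (l 16777096) (l 70028100535))))))) (b (c (l 16775712) (l 16775696)) (c (l 59290682439) (c (l 60901294839) (b (l 16777184) (l 177939153303))))))) (a (c (b (c (l 16777896) (l 16776576)) (l 176328541111)) (b (c (l 16777888) (a (l 16776304) (b (l 16776536) (b (l 16777088) (l 123178320967))))) (a (b (a (a (l 70564970759) (l 107072193479)) (l 145190028503)) (l 4)) (l 4)))) (b (b (c (a (l 16777096) (l 139284448999)) (c (l 79691778183) (a (b (l 16776936) (l 85060486151)) (l 190287184391)))) (l 4)) (l 4)))) (a (b (b (c (a (l 16776872) (l 197803377575)) (a (a (l 16776608) (b (l 16777504) (a (l 16777536) (l 4)))) (c (l 207467053975) (l 205856441223)))) (a (c (l 104387840503) (c (l 107072194727) (a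 (c (l 86671099159) (b (l 7214203735) (l 151095608231))) (l 4)))) (l 4))) (l 4)) (l 4))) (l 4)) (l 4)) (l 4)) (l 4)), by decide +kernel⟩

def k69_pp_022_t : ∃ t, chk3 f_pp_022_t t 18 61 1 = true :=
  ⟨(l 4), by decide +kernel⟩

def k70_pp_022_t : ∃ t, chk3 f_pp_022_t t 19 30 1 = true :=
  ⟨(l 4), by decide +kernel⟩

def k71_pp_022_t : ∃ t, chk3 f_pp_022_t t 9 31 1 = true :=
  ⟨(l 4), by decide +kernel⟩

def k72_pp_022_t : ∃ t, chk3 f_pp_022_t t 10 12 1 = true :=
  ⟨(b (b (a (a (l 16599824) (l 16611648)) (a (l 16633552) (l 16673776))) (a (a (a (l 16613024) (l 16621208)) (a (l 16629704) (l 16638544))) (a (a (l 16647536) (l 16656512)) (a (l 16665448) (l 16674336))))) (b (a (a (a (l 16630952) (l 16639136)) (a (l 16647632) (l 16656472))) (a (c (l 16691104) (l 16690816)) (a (l 16683320) (l 16692184)))) (a (a (a (l 16670408) (l 16678624)) (a (l 16687144) (l 16696000))) (a (a (l 16704992) (c (l 16693096) (l 16692912))) (a (b (l 16697144) (l 16706608)) (b (l 16706000) (l 16715472))))))), by decide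 +kernel⟩

def k73_pp_022_t : ∃ t, chk3 f_pp_022_t t 20 13 1 = true :=
  ⟨(b (a (b (a (b (l 16663664) (l 16694360)) (b (l 16671912) (l 16676424))) (a (c (l 16701736) (l 16703736)) (c (b (l 16691720) (l 16701888)) (b (l 16691488) (l 16701584))))) (a (b (c (l 16706336) (l 16685440)) (c (b (l 16700240) (l 16710424)) (b (l 16700208) (l 16710336)))) (b (c (l 16715232) (l 16715296)) (c (a (l 16732984) (l 16737528)) (a (l 16732960) (l 16737480)))))) (a (a (a (b (b (l 16701424) (l 16722256)) (b (c (l 16722616) (l 16721928)) (c (l 16733256) (l 16732680)))) (b (b (l 16705656) (l 16714760)) (b (c (l 16726928) (l 16726384)) (c (l 16737648) (l 16747680))))) (b (c (b (l 16712216) (l 16733216)) (b (l 16711872) (l 16732856))) (a (b (c (l 16731248) (l 16730840)) (b (l 16744400) (a (l 16743496) (l 16745744)))) (b (c (l 16735600) (l 16735312)) (c (b (l 16743744) (l 16749232)) (b (l 16743488) (l 16749008))))))) (b (c (a (b (l 16731288) (a (l 16729200) (l 16733592))) (a (b (l 16727496) (l 16738104)) (b (l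 16732056) (l 16742680)))) (a (b (l 16720680) (a (l 16729016) (l 16733488))) (a (b (l 16727424) (l 16738032)) (b (l 16731984) (l 16742608))))) (a (a (b (c (l 16739976) (l 16739792)) (b (a (l 16746976) (l 16749224)) (c (l 16753720) (l 16753576)))) (b (b (l 16752104) (a (l 16745952) (l 16748208))) (b (a (l 16751472) (l 16753736)) (c (l 16747736) (l 16747656))))) (c (a (b (b (l 16746192) (l 16751664)) (b (l 16757192) (l 16757536))) (b (c (l 16744368) (l 16743032)) (l 16764608))) (c (b (b (l 16748440) (l 16743432)) (l 16764896)) (a (b (l 16748856) (b (l 16757128) (l 16752248))) (b (l 16742968) (b (l 16761752) (l 16762128)))))))))), by decide +kernel⟩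

def k74_pp_022_t : ∃ t, chk3 f_pp_022_t t 21 26 1 = true :=
  ⟨(b (a (a (c (l 16724296) (b (l 16698376) (l 16708184))) (b (l 16707336) (c (l 16717248) (l 16717136)))) (b (a (l 16737240) (c (l 16725288) (l 16725000))) (c (a (l 16726216) (l 16735112)) (a (l 16726040) (l 16734888))))) (a (a (c (b (l 16718248) (l 16738960)) (b (l 16718176) (l 16717896))) (b (b (l 16745640) (l 16740224)) (c (a (l 16735256) (l 16739768)) (a (l 16735144) (l 16739640))))) (a (b (c (l 16725776) (l 16715128)) (c (c (l 16736064) (l 16725504)) (c (l 16725432) (l 16735856)))) (b (c (b (l 16742616) (l 16747688)) (b (l 16742416) (l 16747512))) (c (b (l 16742328) (l 16747512)) (a (l 16742568) (l 16747000))))))), by decide +kernel⟩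

def k75_pp_022_t : ∃ t, chk3 f_pp_022_t t 21 54 1 = true :=
  ⟨(a (a (c (b (a (l 16736616) (l 16741168)) (a (l 16736776) (b (l 16749128) (l 16754504)))) (b (b (l 16736168) (l 16741440)) (a (l 16736696) (b (l 16749040) (l 16754432))))) (a (b (c (l 16745704) (l 16745600)) (c (c (l 16745904) (l 16745864)) (b (l 16753584) (l 16758992)))) (b (c (l 16739736) (l 16739632)) (c (c (l 16750424) (l 16750392)) (c (l 16750360) (l 16750328)))))) (a (b (a (c (l 16744240) (l 16744136)) (c (l 16748720) (c (l 16738160) (l 16748600)))) (c (a (l 16765408) (l 16769888)) (b (l 16764888) (a (l 16757568) (l 16772560))))) (c (b (a (l 16753176) (l 16768088)) (b (a (l 16771648) (a (l 16774920) (l 58753818135))) (a (a (l 16775792) (l 82913009751)) (l 211762018951)))) (b (c (l 16765832) (l 16765792)) (b (a (l 16771608) (a (l 16774904) (b (l 16775784) (l 110293423511)))) (a (b (l 16779504) (a (l 16779536) (l 226257532487))) (l 222499433559))))))), by decide +kernel⟩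

def k76_pp_022_t : ∃ t, chk3 f_pp_022_t t 21 55 1 = true :=
  ⟨(b (a (a (c (b (a (l 16755368) (l 16759944)) (l 16763160)) (a (b (l 16755312) (l 16750328)) (b (l 16759888) (l 16760160)))) (a (c (l 16767256) (b (l 16753968) (l 16769976))) (a (c (l 16770664) (l 16770632)) (b (l 16770152) (b (l 16774288) (c (l 16776856) (l 19562238839))))))) (a (a (c (b (l 16773520) (b (a (l 16776440) (l 121030842055)) (l 203708957559))) (a (b (l 16772400) (b (l 16776424) (l 218204469911))) (b (l 16774624) (l 210151405399)))) (b (a (b (l 16775520) (a (l 82376133975) (l 150558741127))) (c (l 158074928983) (l 168275474551))) (l 4))) (l 4))) (a (a (a (a (c (l 16768064) (l 16768040)) (c (l 16770368) (l 16770344))) (b (c (l 16771000) (l 16770976)) (a (c (l 16779288) (b (l 16774040) (c (l 16776688) (l 9898561943)))) (b (c (l 16776248) (l 16776240)) (c (l 136600098599) (l 190824054551)))))) (a (a (b (c (l 16774400) (l 16774384)) (c (l 169886091575) (l 187065957735))) (b (b (l 16775288) (c (l 92039812903) (c (l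 16779704) (l 92576683255)))) (l 4))) (b (b (a (c (l 16779648) (l 71638715239)) (l 4)) (l 4)) (l 4)))) (l 4))), by decide +kernel⟩

def k77_pp_022_t : ∃ t, chk3 f_pp_022_t t 11 12 1 = true :=
  ⟨(b (a (a (a (b (l 16666104) (l 16683160)) (b (l 16674896) (l 16691904))) (b (a (l 16683600) (l 16692216)) (c (l 16684568) (l 16683264)))) (a (c (l 16734944) (l 16739104)) (a (l 16746776) (l 16757488)))) (b (a (a (a (c (l 16701400) (l 16700584)) (c (l 16710168) (l 16709240))) (a (b (l 16713776) (l 16722840)) (b (l 16722312) (l 16731368)))) (a (c (l 16739768) (l 16739168)) (a (l 16751752) (l 16759776)))) (a (a (a (c (l 16698832) (l 16698328)) (b (l 16723488) (c (l 16733208) (l 16732720)))) (b (a (l 16711128) (l 16719648)) (c (l 16746080) (l 16749568)))) (a (a (c (l 16753944) (l 16753568)) (b (l 16746816) (l 16766736))) (b (a (l 16765448) (c (l 16773288) (b (l 16771088) (l 27615309607)))) (a (a (l 16772776) (b (l 16774448) (l 90966075943))) (a (l 172570436007) (l 4)))))))), by decide +kernel⟩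

def k78_pp_022_t : ∃ t, chk3 f_pp_022_t t 11 13 1 = true :=
  ⟨(a (a (b (b (a (c (b (l 16734096) (l 16722952)) (b (l 16733768) (l 16722704))) (c (l 16758224) (l 16757264))) (a (c (a (l 16762152) (l 16764232)) (b (b (l 16730248) (l 16745848)) (a (l 16751416) (l 16766304)))) (b (c (l 16762664) (l 16762520)) (a (c (l 16770736) (l 16770672)) (b (l 16772440) (b (a (l 16775256) (l 65733133111)) (c (l 103314104887) (l 104387843959)))))))) (b (b (b (a (a (l 16769816) (c (l 16774168) (l 16774136))) (a (a (b (l 16776096) (l 117272746311)) (b (l 98482263095) (l 4))) (l 4))) (a (a (c (l 16780256) (b (l 16773776) (c (l 16776264) (l 8824821735)))) (c (l 155927443767) (c (l 165054247943) (l 170959827095)))) (l 4))) (a (a (a (c (l 199950858039) (l 214983239559)) (l 4)) (l 4)) (l 4))) (l 4))) (b (a (a (b (b (l 16738600) (l 16758960)) (b (c (l 16769104) (l 16769008)) (b (c (l 25467823959) (a (l 16775560) (l 73786198807))) (l 218741335543)))) (b (c (l 16758448) (l 16763432)) (b (b (l 16770776) (a (l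 16774776) (b (l 16775640) (l 93650426423)))) (c (l 213909496599) (l 212298879463))))) (b (b (c (l 16759872) (l 16759600)) (c (l 16774888) (a (l 16767424) (l 16771640)))) (b (c (b (a (l 16774944) (l 93113560279)) (l 176328533527)) (a (b (l 16780144) (l 176328534471)) (a (l 188139693111) (l 210688267159)))) (l 4)))) (l 4))) (b (b (a (b (c (a (l 16768192) (b (l 16773848) (l 73786208983))) (a (l 16768056) (b (l 16773784) (a (l 16776432) (l 198340239399))))) (a (b (c (l 18488504615) (a (l 16773368) (l 59290690807))) (a (b (l 37815852295) (l 132841995591)) (l 4))) (b (l 208003911463) (l 4)))) (b (a (b (l 193508399495) (l 4)) (l 4)) (l 4))) (l 4)) (l 4))), by decide +kernel⟩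

def k79_pp_022_t : ∃ t, chk3 f_pp_022_t t 40 56 1 = true :=
  ⟨(a (c (b (b (a (l 16741328) (l 16745792)) (a (l 16746776) (l 16751280))) (a (b (l 16752280) (b (l 16756456) (l 16759280))) (b (l 16751584) (c (l 16757256) (l 16751944))))) (b (a (b (l 16740864) (l 16746392)) (b (l 16745424) (l 16750992))) (a (b (l 16751984) (a (l 16756488) (l 16758816))) (a (b (l 16755456) (l 16761152)) (b (l 16757768) (l 16758240)))))) (b (b (a (c (l 16750272) (l 16750000)) (c (l 16754768) (l 16754592))) (a (c (l 16755800) (l 16747736)) (c (l 16753800) (c (l 16760248) (l 16760184))))) (c (b (a (b (l 16759984) (l 16762808)) (c (l 16760768) (l 16755488))) (a (a (l 16760672) (l 16762992)) (l 16771712))) (b (a (c (l 16761296) (l 16755976)) (a (l 16759496) (l 16761824))) (a (a (l 16760576) (a (l 16762328) (l 16763504))) (c (l 16771688) (l 16771672))))))), by decide +kernel⟩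

def k80_pp_022_t : ∃ t, chk3 f_pp_022_t t 40 57 1 = true :=
  ⟨(b (a (c (a (b (a (l 16762392) (l 16759456)) (l 16769312)) (a (b (l 16761776) (l 16772816)) (b (l 16764104) (a (l 16774552) (b (l 16763792) (l 60364427303)))))) (b (a (a (l 16756984) (a (l 16763984) (l 16765160))) (c (l 16762880) (b (l 16761376) (l 16764296)))) (a (a (a (l 16762216) (l 16763400)) (b (l 16768944) (l 16766640))) (a (l 16772776) (b (l 16773664) (a (l 16775992) (b (l 16776448) (l 114051517367)))))))) (b (a (c (a (l 16771672) (l 16773992)) (a (l 16771632) (b (l 16767272) (l 16776728)))) (b (a (c (l 16774888) (l 16774872)) (b (c (l 16776432) (l 16777728)) (c (l 96334778951) (c (l 16779376) (l 98482260583))))) (a (a (b (l 16777768) (a (l 100092873223) (l 4))) (c (l 116735873639) (l 161296155511))) (l 4)))) (a (b (c (a (l 16778584) (l 151095608087)) (a (a (l 16775440) (b (l 16775888) (l 67343747895))) (a (b (l 16776960) (l 168812350183)) (l 196192765431)))) (a (c (l 169886090743) (b (l 158074928583) (l 4))) (l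 4))) (l 4)))) (a (b (a (b (c (l 16773688) (c (l 16773656) (l 16773640))) (a (c (l 16775424) (c (l 16775408) (l 16776712))) (c (b (l 16779528) (l 173107315879)) (a (b (l 16776448) (l 114051517399)) (b (l 90429197207) (l 4)))))) (b (a (b (a (l 16775880) (c (l 16776968) (l 16776960))) (c (l 95797908055) (c (l 97408520103) (l 148411250487)))) (c (l 197803378823) (l 198877119223))) (l 4))) (a (b (b (a (c (l 83449876679) (a (a (l 16776744) (l 16777152)) (l 140895062919))) (l 4)) (l 4)) (l 4)) (l 4))) (l 4))), by decide +kernel⟩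

def k81_pp_022_t : ∃ t, chk3 f_pp_022_t t 41 28 1 = true :=
  ⟨(b (b (a (a (b (c (l 16748808) (a (l 16758032) (l 16760328))) (a (b (l 16762312) (l 16759904)) (c (l 16755584) (l 16760760)))) (c (c (l 16766680) (l 16766664)) (b (c (l 16763800) (l 16758528)) (l 16769488)))) (a (a (c (l 16770128) (b (l 16762008) (l 16772968))) (b (c (l 16759096) (l 16764320)) (b (l 16773864) (c (l 16779200) (a (l 16776112) (l 63048776695)))))) (b (c (l 16773048) (a (l 16771888) (l 16774192))) (a (b (c (l 16776104) (c (l 16776096) (l 16776088))) (c (l 170959832615) (l 174717928455))) (b (c (l 107072198823) (c (l 108145939895) (l 162369896503))) (l 4)))))) (a (b (a (c (l 16770608) (c (l 16770576) (l 16770560))) (b (c (l 16773800) (l 16773792)) (a (c (l 16775496) (l 16775488)) (c (l 81839263287) (a (c (l 16776952) (l 62511910551)) (l 119420228007)))))) (a (c (b (a (l 16773760) (l 16776008)) (a (l 16779784) (l 169349219831))) (c (b (l 16774856) (a (l 16776496) (l 170959832487))) (a (a (l 16774584) (b (l 16763832)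 (l 59290682519))) (b (l 16777960) (l 172570445175))))) (a (b (c (l 103850972039) (c (l 103314101799) (l 153243089047))) (l 4)) (l 4)))) (b (a (b (a (c (l 62511907271) (a (l 16779224) (l 90429197399))) (c (l 198877120631) (l 202098345735))) (l 4)) (l 4)) (l 4)))) (b (a (b (a (b (a (c (l 197266507879) (l 198340249575)) (l 4)) (l 4)) (l 4)) (l 4)) (l 4)) (l 4))), by decide +kernel⟩

def k82_pp_022_t : ∃ t, chk3 f_pp_022_t t 21 28 1 = true :=
  ⟨(b (a (b (a (b (a (b (c (a (l 16775096) (l 66806879751)) (c (l 16780328) (a (l 16775088) (l 65733134759)))) (a (c (l 86134233015) (a (l 66806878215) (l 124252066231))) (l 4))) (c (l 203708961159) (l 224646922215))) (l 4)) (l 4)) (l 4)) (l 4)) (l 4)), by decide +kernel⟩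

def k83_pp_022_t : ∃ t, chk3 f_pp_022_t t 10 29 1 = true :=
  ⟨(l 4), by decide +kernel⟩

def k84_pp_022_t : ∃ t, chk3 f_pp_022_t t 10 15 1 = true :=
  ⟨(l 4), by decide +kernel⟩

def k85_pp_022_t : ∃ t, chk3 f_pp_022_t t 11 7 1 = true :=
  ⟨(l 4), by decide +kernel⟩

def k86_pp_022_t : ∃ t, chk3 f_pp_022_t t 3 1 1 = true :=
  ⟨(b (a (b (a (b (a (l 6) (l 16600552)) (a (l 16610536) (l 16657768))) (b (a (l 16623120) (l 16644376)) (a (l 16702712) (b (l 16671464) (l 16694640))))) (a (b (a (b (l 16600672) (l 16666688)) (b (l 16670416) (l 16716128))) (a (a (b (l 16664208) (l 16714008)) (b (l 16658528) (l 16750360))) (a (b (l 16714792) (c (l 16743928) (l 16764856))) (b (l 16728536) (a (l 16775344) (b (l 16753624) (l 16768912))))))) (b (b (a (l 16696088) (l 16762928)) (a (a (l 16714968) (l 16728024)) (a (l 16740880) (l 16774536)))) (a (b (a (l 16763040) (b (l 16748224) (l 16762504))) (a (b (l 16784864) (b (c (l 43184579863) (l 78617974407)) (a (l 91502956103) (l 4)))) (b (b (a (l 16770232)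 (l 16776400)) (a (l 88281665095) (l 4))) (l 4)))) (b (a (b (l 16761288) (c (a (l 16772256) (l 82913026679)) (l 87207893479))) (b (c (l 52311390727) (l 83986676791)) (b (l 157538039511) (l 4)))) (a (b (b (l 163443614935) (l 4)) (l 4)) (l 4))))))) (b (l 2) (b (l 2) (b (l 2) (l 4))))) (a (b (b (a (a (b (b (a (l 16737416) (l 16763240)) (b (a (l 16749800) (l 16770288)) (a (l 16758328) (a (l 16769776) (a (l 16775160) (l 82376145111)))))) (b (a (c (b (l 16767096) (a (l 16772064) (l 77544312599))) (b (l 16767000) (a (l 16772008) (b (l 56069469607) (l 182770978999))))) (a (a (b (l 47479534311) (l 4)) (l 176328522615)) (l 4))) (a (a (a (c (l 178476010519) (l 183307845415)) (l 195655869399)) (l 4)) (l 4)))) (b (a (a (b (l 16763712) (b (c (l 16775632) (l 16775592)) (l 173107297559))) (b (b (l 16766800) (l 26541571671)) (l 168812323111))) (b (a (b (l 16773720) (l 109756568519)) (l 160222394151)) (l 4))) (l 4))) (l 4)) (l 4)) (l 4)) (l 4))), by decide +kernel⟩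

theorem s87_pp_022_t : ∃ t, chk3 f_pp_022_t t 40 28 1 = true := ex3_b k79_pp_022_t k80_pp_022_t

theorem s88_pp_022_t : ∃ t, chk3 f_pp_022_t t 20 28 1 = true := ex3_a s87_pp_022_t k81_pp_022_t

theorem s89_pp_022_t : ∃ t, chk3 f_pp_022_t t 10 28 1 = true := ex3_a s88_pp_022_t k82_pp_022_t

theorem s90_pp_022_t : ∃ t, chk3 f_pp_022_t t 10 14 1 = true := ex3_b s89_pp_022_t k83_pp_022_t

theorem s91_pp_022_t : ∃ t, chk3 f_pp_022_t t 10 7 1 = true := ex3_b s90_pp_022_t k84_pp_022_t

theorem s92_pp_022_t : ∃ t, chk3 f_pp_022_t t 5 7 1 = true := ex3_a s91_pp_022_t k85_pp_022_t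

theorem s93_pp_022_t : ∃ t, chk3 f_pp_022_t t 11 6 1 = true := ex3_b k77_pp_022_t k78_pp_022_t

theorem s94_pp_022_t : ∃ t, chk3 f_pp_022_t t 21 27 1 = true := ex3_b k75_pp_022_t k76_pp_022_t

theorem s95_pp_022_t : ∃ t, chk3 f_pp_022_t t 21 13 1 = true := ex3_b k74_pp_022_t s94_pp_022_t

theorem s96_pp_022_t : ∃ t, chk3 f_pp_022_t t 10 13 1 = true := ex3_a k73_pp_022_t s95_pp_022_t

theorem s97_pp_022_t : ∃ t, chk3 f_pp_022_t t 10 6 1 = true := ex3_b k72_pp_022_t s96_pp_022_t

theorem s98_pp_022_t : ∃ t, chk3 f_pp_022_t t 5 6 1 = true := ex3_a s97_pp_022_t s93_pp_022_t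

theorem s99_pp_022_t : ∃ t, chk3 f_pp_022_t t 5 3 1 = true := ex3_b s98_pp_022_t s92_pp_022_t

theorem s100_pp_022_t : ∃ t, chk3 f_pp_022_t t 36 243 1 = true := ex3_b k66_pp_022_t k67_pp_022_t

theorem s101_pp_022_t : ∃ t, chk3 f_pp_022_t t 72 242 1 = true := ex3_a k63_pp_022_t k64_pp_022_t

theorem s102_pp_022_t : ∃ t, chk3 f_pp_022_t t 36 242 1 = true := ex3_a s101_pp_022_t k65_pp_022_t

theorem s103_pp_022_t : ∃ t, chk3 f_pp_022_t t 36 121 1 = true := ex3_b s102_pp_022_t s100_pp_022_t

theorem s104_pp_022_t : ∃ t, chk3 f_pp_022_t t 73 241 1 = true := ex3_a k61_pp_022_t k62_pp_022_t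

theorem s105_pp_022_t : ∃ t, chk3 f_pp_022_t t 73 120 1 = true := ex3_b k60_pp_022_t s104_pp_022_t

theorem s106_pp_022_t : ∃ t, chk3 f_pp_022_t t 36 120 1 = true := ex3_a k59_pp_022_t s105_pp_022_t

theorem s107_pp_022_t : ∃ t, chk3 f_pp_022_t t 36 60 1 = true := ex3_b s106_pp_022_t s103_pp_022_t

theorem s108_pp_022_t : ∃ t, chk3 f_pp_022_t t 18 60 1 = true := ex3_a s107_pp_022_t k68_pp_022_t

theorem s109_pp_022_t : ∃ t, chk3 f_pp_022_t t 18 30 1 = true := ex3_b s108_pp_022_t k69_pp_022_t

theorem s110_pp_022_t : ∃ t, chk3 f_pp_022_t t 9 30 1 = true := ex3_a s109_pp_022_t k70_pp_022_t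

theorem s111_pp_022_t : ∃ t, chk3 f_pp_022_t t 9 15 1 = true := ex3_b s110_pp_022_t k71_pp_022_t

theorem s112_pp_022_t : ∃ t, chk3 f_pp_022_t t 19 59 1 = true := ex3_a k57_pp_022_t k58_pp_022_t

theorem s113_pp_022_t : ∃ t, chk3 f_pp_022_t t 77 58 1 = true := ex3_b k54_pp_022_t k55_pp_022_t

theorem s114_pp_022_t : ∃ t, chk3 f_pp_022_t t 38 58 1 = true := ex3_a k53_pp_022_t s113_pp_022_t

theorem s115_pp_022_t : ∃ t, chk3 f_pp_022_t t 19 58 1 = true := ex3_a s114_pp_022_t k56_pp_022_t

theorem s116_pp_022_t : ∃ t, chk3 f_pp_022_t t 19 29 1 = true := ex3_b s115_pp_022_t s112_pp_022_t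

theorem s117_pp_022_t : ∃ t, chk3 f_pp_022_t t 19 57 1 = true := ex3_a k51_pp_022_t k52_pp_022_t

theorem s118_pp_022_t : ∃ t, chk3 f_pp_022_t t 19 28 1 = true := ex3_b k50_pp_022_t s117_pp_022_t

theorem s119_pp_022_t : ∃ t, chk3 f_pp_022_t t 19 14 1 = true := ex3_b s118_pp_022_t s116_pp_022_t

theorem s120_pp_022_t : ∃ t, chk3 f_pp_022_t t 150 59 1 = true := ex3_b k47_pp_022_t k48_pp_022_t

theorem s121_pp_022_t : ∃ t, chk3 f_pp_022_t t 75 59 1 = true := ex3_a s120_pp_022_t k49_pp_022_t

theorem s122_pp_022_t : ∃ t, chk3 f_pp_022_t t 74 119 1 = true := ex3_b k45_pp_022_t k46_pp_022_t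

theorem s123_pp_022_t : ∃ t, chk3 f_pp_022_t t 74 59 1 = true := ex3_b k44_pp_022_t s122_pp_022_t

theorem s124_pp_022_t : ∃ t, chk3 f_pp_022_t t 37 59 1 = true := ex3_a s123_pp_022_t s121_pp_022_t

theorem s125_pp_022_t : ∃ t, chk3 f_pp_022_t t 37 29 1 = true := ex3_b k43_pp_022_t s124_pp_022_t

theorem s126_pp_022_t : ∃ t, chk3 f_pp_022_t t 36 29 1 = true := ex3_c k41_pp_022_t k42_pp_022_t

theorem s127_pp_022_t : ∃ t, chk3 f_pp_022_t t 18 29 1 = true := ex3_a s126_pp_022_t s125_pp_022_t

theorem s128_pp_022_t : ∃ t, chk3 f_pp_022_t t 18 14 1 = true := ex3_b k40_pp_022_t s127_pp_022_t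

theorem s129_pp_022_t : ∃ t, chk3 f_pp_022_t t 9 14 1 = true := ex3_a s128_pp_022_t s119_pp_022_t

theorem s130_pp_022_t : ∃ t, chk3 f_pp_022_t t 9 7 1 = true := ex3_b s129_pp_022_t s111_pp_022_t

theorem s131_pp_022_t : ∃ t, chk3 f_pp_022_t t 280 246 1 = true := ex3_a k33_pp_022_t k34_pp_022_t

theorem s132_pp_022_t : ∃ t, chk3 f_pp_022_t t 140 246 1 = true := ex3_a s131_pp_022_t k35_pp_022_t

theorem s133_pp_022_t : ∃ t, chk3 f_pp_022_t t 140 123 1 = true := ex3_b s132_pp_022_t k36_pp_022_t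

theorem s134_pp_022_t : ∃ t, chk3 f_pp_022_t t 70 123 1 = true := ex3_a s133_pp_022_t k37_pp_022_t

theorem s135_pp_022_t : ∃ t, chk3 f_pp_022_t t 35 123 1 = true := ex3_a s134_pp_022_t k38_pp_022_t

theorem s136_pp_022_t : ∃ t, chk3 f_pp_022_t t 142 244 1 = true := ex3_b k29_pp_022_t k30_pp_022_t

theorem s137_pp_022_t : ∃ t, chk3 f_pp_022_t t 71 244 1 = true := ex3_a s136_pp_022_t k31_pp_022_t

theorem s138_pp_022_t : ∃ t, chk3 f_pp_022_t t 71 122 1 = true := ex3_b s137_pp_022_t k32_pp_022_t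

theorem s139_pp_022_t : ∃ t, chk3 f_pp_022_t t 141 245 1 = true := ex3_b k27_pp_022_t k28_pp_022_t

theorem s140_pp_022_t : ∃ t, chk3 f_pp_022_t t 70 245 1 = true := ex3_a k26_pp_022_t s139_pp_022_t

theorem s141_pp_022_t : ∃ t, chk3 f_pp_022_t t 70 122 1 = true := ex3_b k25_pp_022_t s140_pp_022_t

theorem s142_pp_022_t : ∃ t, chk3 f_pp_022_t t 35 122 1 = true := ex3_a s141_pp_022_t s138_pp_022_t

theorem s143_pp_022_t : ∃ t, chk3 f_pp_022_t t 35 61 1 = true := ex3_b s142_pp_022_t s135_pp_022_t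

theorem s144_pp_022_t : ∃ t, chk3 f_pp_022_t t 71 121 3 = true := ex3_a k23_pp_022_t k24_pp_022_t

theorem s145_pp_022_t : ∃ t, chk3 f_pp_022_t t 71 121 1 = true := ex3_c k22_pp_022_t s144_pp_022_t

theorem s146_pp_022_t : ∃ t, chk3 f_pp_022_t t 35 121 1 = true := ex3_a k21_pp_022_t s145_pp_022_t

theorem s147_pp_022_t : ∃ t, chk3 f_pp_022_t t 35 60 1 = true := ex3_b k20_pp_022_t s146_pp_022_t

theorem s148_pp_022_t : ∃ t, chk3 f_pp_022_t t 35 30 1 = true := ex3_b s147_pp_022_t s143_pp_022_t

theorem s149_pp_022_t : ∃ t, chk3 f_pp_022_t t 279 123 1 = true := ex3_b k18_pp_022_t k19_pp_022_t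

theorem s150_pp_022_t : ∃ t, chk3 f_pp_022_t t 278 123 1 = true := ex3_a k16_pp_022_t k17_pp_022_t

theorem s151_pp_022_t : ∃ t, chk3 f_pp_022_t t 139 123 1 = true := ex3_a s150_pp_022_t s149_pp_022_t

theorem s152_pp_022_t : ∃ t, chk3 f_pp_022_t t 277 123 1 = true := ex3_a k14_pp_022_t k15_pp_022_t

theorem s153_pp_022_t : ∃ t, chk3 f_pp_022_t t 138 123 1 = true := ex3_a k13_pp_022_t s152_pp_022_t

theorem s154_pp_022_t : ∃ t, chk3 f_pp_022_t t 69 123 1 = true := ex3_a s153_pp_022_t s151_pp_022_t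

theorem s155_pp_022_t : ∃ t, chk3 f_pp_022_t t 69 61 1 = true := ex3_b k12_pp_022_t s154_pp_022_t

theorem s156_pp_022_t : ∃ t, chk3 f_pp_022_t t 34 61 1 = true := ex3_a k11_pp_022_t s155_pp_022_t

theorem s157_pp_022_t : ∃ t, chk3 f_pp_022_t t 34 30 1 = true := ex3_b k10_pp_022_t s156_pp_022_t

theorem s158_pp_022_t : ∃ t, chk3 f_pp_022_t t 17 30 1 = true := ex3_a s157_pp_022_t s148_pp_022_t

theorem s159_pp_022_t : ∃ t, chk3 f_pp_022_t t 17 15 1 = true := ex3_b s158_pp_022_t k39_pp_022_t

theorem s160_pp_022_t : ∃ t, chk3 f_pp_022_t t 8 15 1 = true := ex3_a k9_pp_022_t s159_pp_022_t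

theorem s161_pp_022_t : ∃ t, chk3 f_pp_022_t t 17 29 1 = true := ex3_a k7_pp_022_t k8_pp_022_t

theorem s162_pp_022_t : ∃ t, chk3 f_pp_022_t t 17 14 1 = true := ex3_b k6_pp_022_t s161_pp_022_t

theorem s163_pp_022_t : ∃ t, chk3 f_pp_022_t t 16 14 1 = true := ex3_b k4_pp_022_t k5_pp_022_t

theorem s164_pp_022_t : ∃ t, chk3 f_pp_022_t t 8 14 1 = true := ex3_a s163_pp_022_t s162_pp_022_t

theorem s165_pp_022_t : ∃ t, chk3 f_pp_022_t t 8 7 1 = true := ex3_b s164_pp_022_t s160_pp_022_t

theorem s166_pp_022_t : ∃ t, chk3 f_pp_022_t t 4 7 1 = true := ex3_a s165_pp_022_t s130_pp_022_t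

theorem s167_pp_022_t : ∃ t, chk3 f_pp_022_t t 9 6 1 = true := ex3_a k2_pp_022_t k3_pp_022_t

theorem s168_pp_022_t : ∃ t, chk3 f_pp_022_t t 4 6 1 = true := ex3_a k1_pp_022_t s167_pp_022_t

theorem s169_pp_022_t : ∃ t, chk3 f_pp_022_t t 4 3 1 = true := ex3_b s168_pp_022_t s166_pp_022_t

theorem s170_pp_022_t : ∃ t, chk3 f_pp_022_t t 2 3 1 = true := ex3_a s169_pp_022_t s99_pp_022_t

theorem s171_pp_022_t : ∃ t, chk3 f_pp_022_t t 2 1 1 = true := ex3_b k0_pp_022_t s170_pp_022_t

theorem s172_pp_022_t : ∃ t, chk3 f_pp_022_t t 1 1 1 = true := ex3_a s171_pp_022_t k86_pp_022_t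

theorem c_pp_022_t : CertNE 0 536870912 0 536870912 818728140 40265320 3 eng mog cd0q0 cd0q2 pd2 true true true .pp 0 2 2
    ndB0q0 ndB0q2 pcB2 cut_pp_022_t Ext.none :=
  certNE0 (fam := true) (s1 := true) (s2 := true) (a := 0) (b := 2) (c := 2) (cn := .pp) (n1 := ndB0q0) (n2 := ndB0q2) (pc := pcB2) (cut := cut_pp_022_t) (xt := Ext.none) (P1 := 0) (W1 := 536870912) (P2 := 0) (W2 := 536870912) (P3 := 818728140) (W3 := 40265320) (N0 := 3) (En := eng) (mo := mog) (C1 := cd0q0) (C2 := cd0q2) (C3 := pd2)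
    rfl s172_pp_022_t

noncomputable def cut_pp_023_s : Cut := Cut.of [[⟨4, 0, 0, 1449551462⟩]]

noncomputable def f_pp_023_s : ℕ → ℕ → ℕ → ℕ → Bool := onCell 0 536870912 0 536870912 818728140 40265320
    (rowNE 3 eng mog cd0q0 cd0q2 pd3 0 true true true .up 0 2 3 (qsf 0 536870912 0 536870912 3) ndB0q0 ndB0q2 pcB3 cut_pp_023_s Ext.none)

def k0_pp_023_s : ∃ t, chk3 f_pp_023_s t 1 1 1 = true :=
  ⟨(l 6), by decide +kernel⟩

theorem c_pp_023_s : CertNE 0 536870912 0 536870912 818728140 40265320 3 eng mog cd0q0 cd0q2 pd3 true true true .up 0 2 3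
    ndB0q0 ndB0q2 pcB3 cut_pp_023_s Ext.none :=
  certNE0 (fam := true) (s1 := true) (s2 := true) (a := 0) (b := 2) (c := 3) (cn := .up) (n1 := ndB0q0) (n2 := ndB0q2) (pc := pcB3) (cut := cut_pp_023_s) (xt := Ext.none) (P1 := 0) (W1 := 536870912) (P2 := 0) (W2 := 536870912) (P3 := 818728140) (W3 := 40265320) (N0 := 3) (En := eng) (mo := mog) (C1 := cd0q0) (C2 := cd0q2) (C3 := pd3)
    rfl k0_pp_023_s

noncomputable def cut_pp_023_t : Cut := Cut.of [[⟨3, 0, 0, 2845415833⟩]]

noncomputable def f_pp_023_t : ℕ → ℕ → ℕ → ℕ → Bool := onCell 1610612736 536870912 0 536870912 818728140 40265320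
    (rowNE 3 eng mog cd0q0 cd0q2 pd3 2 true true true .up 0 2 3 (qsf 0 536870912 0 536870912 3) ndB0q0 ndB0q2 pcB3 cut_pp_023_t Ext.none)

def k0_pp_023_t : ∃ t, chk3 f_pp_023_t t 1 1 1 = true :=
  ⟨(a (b (a (a (b (a (b (l 16629720) (b (l 16664736) (l 16735488))) (b (a (l 16652304) (l 16665672)) (a (l 16742920) (b (l 16698928) (l 16727520))))) (b (a (b (c (l 16747520) (l 16747112)) (b (a (l 16744592) (l 16758936)) (a (l 16783488) (a (l 84523562711) (a (l 88818524807) (l 96871578999)))))) (a (b (l 16776168) (a (b (l 16769152) (l 154853682903)) (b (l 88818523255) (l 4)))) (a (b (l 16757360) (c (l 155390544647) (l 153779929879))) (b (a (l 16762248) (l 59290637079)) (l 4))))) (a (b (a (b (a (a (l 85060429879) (l 94724096679)) (l 144116269063)) (l 4)) (l 4)) (l 4)) (l 4)))) (b (a (b (a (l 16678144) (l 16690560)) (b (a (l 16711232) (l 16723792)) (a (l 16761144) (l 16774248)))) (b (a (l 16703192) (l 16716200)) (b (a (l 16737128) (l 16751072)) (a (b (l 16758704) (a (l 16772224) (l 89892257591)))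 (b (l 86671034599) (l 159148642551)))))) (b (b (a (a (b (l 16765336) (a (l 89892259751) (l 153243072055))) (b (a (l 87744786503) (l 96871572103)) (l 4))) (l 4)) (l 4)) (l 4)))) (a (b (b (a (b (l 16726696) (a (l 16740680) (l 16753248))) (l 2)) (a (b (b (a (l 16758176) (l 16770688)) (a (l 16771488) (l 94187211623))) (a (b (l 143042523351) (l 4)) (l 4))) (l 2))) (l 4)) (l 2))) (l 4)) (l 2)), by decide +kernel⟩

theorem c_pp_023_t : CertNE 0 536870912 0 536870912 818728140 40265320 3 eng mog cd0q0 cd0q2 pd3 true true true .up 0 2 3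
    ndB0q0 ndB0q2 pcB3 cut_pp_023_t Ext.none :=
  certNE2 (fam := true) (s1 := true) (s2 := true) (a := 0) (b := 2) (c := 3) (cn := .up) (n1 := ndB0q0) (n2 := ndB0q2) (pc := pcB3) (cut := cut_pp_023_t) (xt := Ext.none) (P1 := 0) (W1 := 536870912) (P2 := 0) (W2 := 536870912) (P3 := 818728140) (W3 := 40265320) (N0 := 3) (En := eng) (mo := mog) (C1 := cd0q0) (C2 := cd0q2) (C3 := pd3)
    rfl (fun _ => rfl) k0_pp_023_t

noncomputable def cut_pp_101_s : Cut := Cut.of [[⟨4, 0, 0, 1449551462⟩]]

noncomputable def f_pp_101_s : ℕ → ℕ → ℕ → ℕ → Bool := onCell 536870912 536870912 0 536870912 818728140 40265320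
    (rowNE 3 eng mog cd0q1 cd0q0 pd1 0 true true true .npn 1 0 1 (qsf 536870912 536870912 0 536870912 1) ndB0q1 ndB0q0 pcB1 cut_pp_101_s Ext.none)

def k0_pp_101_s : ∃ t, chk3 f_pp_101_s t 1 1 1 = true :=
  ⟨(l 6), by decide +kernel⟩

theorem c_pp_101_s : CertNE 536870912 536870912 0 536870912 818728140 40265320 3 eng mog cd0q1 cd0q0 pd1 true true true .npn 1 0 1
    ndB0q1 ndB0q0 pcB1 cut_pp_101_s Ext.none :=
  certNE0 (fam := true) (s1 := true) (s2 := true) (a := 1) (b := 0) (c := 1) (cn := .npn) (n1 := ndB0q1) (n2 := ndB0q0) (pc := pcB1) (cut := cut_pp_101_s) (xt := Ext.none) (P1 := 536870912) (W1 := 536870912) (P2 := 0) (W2 := 536870912) (P3 := 818728140) (W3 := 40265320) (N0 := 3) (En := eng) (mo := mog) (C1 := cd0q1) (C2 := cd0q0) (C3 := pd1)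
    rfl k0_pp_101_s

noncomputable def cut_pp_101_t : Cut := Cut.of [[⟨3, 0, 0, 2845415833⟩]]

noncomputable def f_pp_101_t : ℕ → ℕ → ℕ → ℕ → Bool := onCell 536870912 536870912 0 536870912 818728140 40265320
    (rowNE 3 eng mog cd0q1 cd0q0 pd1 0 true true true .npn 1 0 1 (qsf 536870912 536870912 0 536870912 1) ndB0q1 ndB0q0 pcB1 cut_pp_101_t Ext.none)

def k0_pp_101_t : ∃ t, chk3 f_pp_101_t t 1 1 1 = true :=
  ⟨(a (l 4) (l 5)), by decide +kernel⟩

theorem c_pp_101_t : CertNE 536870912 536870912 0 536870912 818728140 40265320 3 eng mog cd0q1 cd0q0 pd1 true true true .npn 1 0 1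
    ndB0q1 ndB0q0 pcB1 cut_pp_101_t Ext.none :=
  certNE0 (fam := true) (s1 := true) (s2 := true) (a := 1) (b := 0) (c := 1) (cn := .npn) (n1 := ndB0q1) (n2 := ndB0q0) (pc := pcB1) (cut := cut_pp_101_t) (xt := Ext.none) (P1 := 536870912) (W1 := 536870912) (P2 := 0) (W2 := 536870912) (P3 := 818728140) (W3 := 40265320) (N0 := 3) (En := eng) (mo := mog) (C1 := cd0q1) (C2 := cd0q0) (C3 := pd1)
    rfl k0_pp_101_t

noncomputable def cut_pp_102_s : Cut := Cut.of [[⟨4, 0, 0, 1449551462⟩]]

noncomputable def f_pp_102_s : ℕ → ℕ → ℕ → ℕ → Bool := onCell 536870912 536870912 0 536870912 818728140 40265320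
    (rowNE 3 eng mog cd0q1 cd0q0 pd2 0 true true true .npp 1 0 2 (qsf 536870912 536870912 0 536870912 2) ndB0q1 ndB0q0 pcB2 cut_pp_102_s Ext.none)

def k0_pp_102_s : ∃ t, chk3 f_pp_102_s t 1 1 1 = true :=
  ⟨(l 6), by decide +kernel⟩

theorem c_pp_102_s : CertNE 536870912 536870912 0 536870912 818728140 40265320 3 eng mog cd0q1 cd0q0 pd2 true true true .npp 1 0 2
    ndB0q1 ndB0q0 pcB2 cut_pp_102_s Ext.none :=
  certNE0 (fam := true) (s1 := true) (s2 := true) (a := 1) (b := 0) (c := 2) (cn := .npp) (n1 := ndB0q1) (n2 := ndB0q0) (pc := pcB2) (cut := cut_pp_102_s) (xt := Ext.none) (P1 := 536870912) (W1 := 536870912) (P2 := 0) (W2 := 536870912) (P3 := 818728140) (W3 := 40265320) (N0 := 3) (En := eng) (mo := mog) (C1 := cd0q1) (C2 := cd0q0) (C3 := pd2)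
    rfl k0_pp_102_s

noncomputable def cut_pp_102_t : Cut := Cut.of [[⟨3, 0, 0, 2845415833⟩]]

noncomputable def f_pp_102_t : ℕ → ℕ → ℕ → ℕ → Bool := onCell 536870912 536870912 0 536870912 818728140 40265320
    (rowNE 3 eng mog cd0q1 cd0q0 pd2 0 true true true .npp 1 0 2 (qsf 536870912 536870912 0 536870912 2) ndB0q1 ndB0q0 pcB2 cut_pp_102_t Ext.none)

def k0_pp_102_t : ∃ t, chk3 f_pp_102_t t 1 1 1 = true :=
  ⟨(a (l 4) (l 5)), by decide +kernel⟩

theorem c_pp_102_t : CertNE 536870912 536870912 0 536870912 818728140 40265320 3 eng mog cd0q1 cd0q0 pd2 true true true .npp 1 0 2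
    ndB0q1 ndB0q0 pcB2 cut_pp_102_t Ext.none :=
  certNE0 (fam := true) (s1 := true) (s2 := true) (a := 1) (b := 0) (c := 2) (cn := .npp) (n1 := ndB0q1) (n2 := ndB0q0) (pc := pcB2) (cut := cut_pp_102_t) (xt := Ext.none) (P1 := 536870912) (W1 := 536870912) (P2 := 0) (W2 := 536870912) (P3 := 818728140) (W3 := 40265320) (N0 := 3) (En := eng) (mo := mog) (C1 := cd0q1) (C2 := cd0q0) (C3 := pd2)
    rfl k0_pp_102_t

noncomputable def cut_pp_112_s : Cut := Cut.of [[⟨4, 0, 0, 1449551462⟩]]

noncomputable def f_pp_112_s : ℕ → ℕ → ℕ → ℕ → Bool := onCell 536870912 536870912 536870912 536870912 818728140 40265320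
    (rowNE 3 eng mog cd0q1 cd0q1 pd2 0 true true true .dn 1 1 2 (qsf 536870912 536870912 536870912 536870912 2) ndB0q1 ndB0q1 pcB2 cut_pp_112_s Ext.none)

def k0_pp_112_s : ∃ t, chk3 f_pp_112_s t 1 1 1 = true :=
  ⟨(l 4), by decide +kernel⟩

theorem c_pp_112_s : CertNE 536870912 536870912 536870912 536870912 818728140 40265320 3 eng mog cd0q1 cd0q1 pd2 true true true .dn 1 1 2
    ndB0q1 ndB0q1 pcB2 cut_pp_112_s Ext.none :=
  certNE0 (fam := true) (s1 := true) (s2 := true) (a := 1) (b := 1) (c := 2) (cn := .dn) (n1 := ndB0q1) (n2 := ndB0q1) (pc := pcB2) (cut := cut_pp_112_s) (xt := Ext.none) (P1 := 536870912) (W1 := 536870912) (P2 := 536870912) (W2 := 536870912) (P3 := 818728140) (W3 := 40265320) (N0 := 3) (En := eng) (mo := mog) (C1 := cd0q1) (C2 := cd0q1) (C3 := pd2)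
    rfl k0_pp_112_s

noncomputable def cut_pp_112_t : Cut := Cut.of [[⟨3, 0, 0, 2845415833⟩]]

noncomputable def f_pp_112_t : ℕ → ℕ → ℕ → ℕ → Bool := onCell 536870912 536870912 536870912 536870912 818728140 40265320
    (rowNE 3 eng mog cd0q1 cd0q1 pd2 0 true true true .dn 1 1 2 (qsf 536870912 536870912 536870912 536870912 2) ndB0q1 ndB0q1 pcB2 cut_pp_112_t Ext.none)

def k0_pp_112_t : ∃ t, chk3 f_pp_112_t t 1 1 1 = true :=
  ⟨(l 4), by decide +kernel⟩

theorem c_pp_112_t : CertNE 536870912 536870912 536870912 536870912 818728140 40265320 3 eng mog cd0q1 cd0q1 pd2 true true true .dn 1 1 2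
    ndB0q1 ndB0q1 pcB2 cut_pp_112_t Ext.none :=
  certNE0 (fam := true) (s1 := true) (s2 := true) (a := 1) (b := 1) (c := 2) (cn := .dn) (n1 := ndB0q1) (n2 := ndB0q1) (pc := pcB2) (cut := cut_pp_112_t) (xt := Ext.none) (P1 := 536870912) (W1 := 536870912) (P2 := 536870912) (W2 := 536870912) (P3 := 818728140) (W3 := 40265320) (N0 := 3) (En := eng) (mo := mog) (C1 := cd0q1) (C2 := cd0q1) (C3 := pd2)
    rfl k0_pp_112_t

noncomputable def cut_pp_113_s : Cut := Cut.of [[⟨4, 0, 0, 1449551462⟩]]

noncomputable def f_pp_113_s : ℕ → ℕ → ℕ → ℕ → Bool := onCell 536870912 536870912 536870912 536870912 818728140 40265320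
    (rowNE 3 eng mog cd0q1 cd0q1 pd3 0 true true true .nn 1 1 3 (qsf 536870912 536870912 536870912 536870912 3) ndB0q1 ndB0q1 pcB3 cut_pp_113_s Ext.none)

def k0_pp_113_s : ∃ t, chk3 f_pp_113_s t 1 1 1 = true :=
  ⟨(l 4), by decide +kernel⟩

theorem c_pp_113_s : CertNE 536870912 536870912 536870912 536870912 818728140 40265320 3 eng mog cd0q1 cd0q1 pd3 true true true .nn 1 1 3
    ndB0q1 ndB0q1 pcB3 cut_pp_113_s Ext.none :=
  certNE0 (fam := true) (s1 := true) (s2 := true) (a := 1) (b := 1) (c := 3) (cn := .nn) (n1 := ndB0q1) (n2 := ndB0q1) (pc := pcB3) (cut := cut_pp_113_s) (xt := Ext.none) (P1 := 536870912) (W1 := 536870912) (P2 := 536870912) (W2 := 536870912) (P3 := 818728140) (W3 := 40265320) (N0 := 3) (En := eng) (mo := mog) (C1 := cd0q1) (C2 := cd0q1) (C3 := pd3)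
    rfl k0_pp_113_s

noncomputable def cut_pp_113_t : Cut := Cut.of [[⟨3, 0, 0, 2845415833⟩]]

noncomputable def f_pp_113_t : ℕ → ℕ → ℕ → ℕ → Bool := onCell 536870912 536870912 536870912 536870912 818728140 40265320
    (rowNE 3 eng mog cd0q1 cd0q1 pd3 0 true true true .nn 1 1 3 (qsf 536870912 536870912 536870912 536870912 3) ndB0q1 ndB0q1 pcB3 cut_pp_113_t Ext.none)

def k0_pp_113_t : ∃ t, chk3 f_pp_113_t t 1 1 1 = true :=
  ⟨(l 4), by decide +kernel⟩

theorem c_pp_113_t : CertNE 536870912 536870912 536870912 536870912 818728140 40265320 3 eng mog cd0q1 cd0q1 pd3 true true true .nn 1 1 3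
    ndB0q1 ndB0q1 pcB3 cut_pp_113_t Ext.none :=
  certNE0 (fam := true) (s1 := true) (s2 := true) (a := 1) (b := 1) (c := 3) (cn := .nn) (n1 := ndB0q1) (n2 := ndB0q1) (pc := pcB3) (cut := cut_pp_113_t) (xt := Ext.none) (P1 := 536870912) (W1 := 536870912) (P2 := 536870912) (W2 := 536870912) (P3 := 818728140) (W3 := 40265320) (N0 := 3) (En := eng) (mo := mog) (C1 := cd0q1) (C2 := cd0q1) (C3 := pd3)
    rfl k0_pp_113_t

noncomputable def cut_pp_123_s : Cut := Cut.of [[⟨4, 0, 0, 1449551462⟩]]

noncomputable def f_pp_123_s : ℕ → ℕ → ℕ → ℕ → Bool := onCell 536870912 536870912 0 536870912 818728140 40265320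
    (rowNE 3 eng mog cd0q1 cd0q2 pd3 0 true true true .npn 1 2 3 (qsf 536870912 536870912 0 536870912 3) ndB0q1 ndB0q2 pcB3 cut_pp_123_s Ext.none)

def k0_pp_123_s : ∃ t, chk3 f_pp_123_s t 1 1 1 = true :=
  ⟨(l 6), by decide +kernel⟩

theorem c_pp_123_s : CertNE 536870912 536870912 0 536870912 818728140 40265320 3 eng mog cd0q1 cd0q2 pd3 true true true .npn 1 2 3
    ndB0q1 ndB0q2 pcB3 cut_pp_123_s Ext.none :=
  certNE0 (fam := true) (s1 := true) (s2 := true) (a := 1) (b := 2) (c := 3) (cn := .npn) (n1 := ndB0q1) (n2 := ndB0q2) (pc := pcB3) (cut := cut_pp_123_s) (xt := Ext.none) (P1 := 536870912) (W1 := 536870912) (P2 := 0) (W2 := 536870912) (P3 := 818728140) (W3 := 40265320) (N0 := 3) (En := eng) (mo := mog) (C1 := cd0q1) (C2 := cd0q2) (C3 := pd3)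
    rfl k0_pp_123_s

noncomputable def cut_pp_123_t : Cut := Cut.of [[⟨3, 0, 0, 2845415833⟩]]

noncomputable def f_pp_123_t : ℕ → ℕ → ℕ → ℕ → Bool := onCell 536870912 536870912 0 536870912 818728140 40265320
    (rowNE 3 eng mog cd0q1 cd0q2 pd3 0 true true true .npn 1 2 3 (qsf 536870912 536870912 0 536870912 3) ndB0q1 ndB0q2 pcB3 cut_pp_123_t Ext.none)

def k0_pp_123_t : ∃ t, chk3 f_pp_123_t t 1 1 1 = true :=
  ⟨(a (b (b (a (a (b (a (b (l 16747792) (a (l 16762400) (l 85597298103))) (b (a (l 16762720) (l 74859888391)) (a (l 111904019911) (l 4)))) (a (b (a (b (l 92576619767) (l 4)) (l 4)) (l 4)) (l 4))) (b (a (b (a (l 115662116391) (l 4)) (l 4)) (l 4)) (l 4))) (l 4)) (l 4)) (l 4)) (l 4)), by decide +kernel⟩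

theorem c_pp_123_t : CertNE 536870912 536870912 0 536870912 818728140 40265320 3 eng mog cd0q1 cd0q2 pd3 true true true .npn 1 2 3
    ndB0q1 ndB0q2 pcB3 cut_pp_123_t Ext.none :=
  certNE0 (fam := true) (s1 := true) (s2 := true) (a := 1) (b := 2) (c := 3) (cn := .npn) (n1 := ndB0q1) (n2 := ndB0q2) (pc := pcB3) (cut := cut_pp_123_t) (xt := Ext.none) (P1 := 536870912) (W1 := 536870912) (P2 := 0) (W2 := 536870912) (P3 := 818728140) (W3 := 40265320) (N0 := 3) (En := eng) (mo := mog) (C1 := cd0q1) (C2 := cd0q2) (C3 := pd3)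
    rfl k0_pp_123_t

noncomputable def cut_pp_202_s : Cut := Cut.of [[⟨4, 0, 0, 1449551462⟩]]

noncomputable def f_pp_202_s : ℕ → ℕ → ℕ → ℕ → Bool := onCell 0 536870912 0 536870912 818728140 40265320
    (rowNE 3 eng mog cd0q2 cd0q0 pd2 0 true true true .pp 2 0 2 (qsf 0 536870912 0 536870912 2) ndB0q2 ndB0q0 pcB2 cut_pp_202_s Ext.none)

def k0_pp_202_s : ∃ t, chk3 f_pp_202_s t 1 1 1 = true :=
  ⟨(l 5), by decide +kernel⟩

theorem c_pp_202_s : CertNE 0 536870912 0 536870912 818728140 40265320 3 eng mog cd0q2 cd0q0 pd2 true true true .pp 2 0 2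
    ndB0q2 ndB0q0 pcB2 cut_pp_202_s Ext.none :=
  certNE0 (fam := true) (s1 := true) (s2 := true) (a := 2) (b := 0) (c := 2) (cn := .pp) (n1 := ndB0q2) (n2 := ndB0q0) (pc := pcB2) (cut := cut_pp_202_s) (xt := Ext.none) (P1 := 0) (W1 := 536870912) (P2 := 0) (W2 := 536870912) (P3 := 818728140) (W3 := 40265320) (N0 := 3) (En := eng) (mo := mog) (C1 := cd0q2) (C2 := cd0q0) (C3 := pd2)
    rfl k0_pp_202_s

noncomputable def cut_pp_202_t : Cut := Cut.of [[⟨3, 0, 0, 2845415833⟩]]

noncomputable def f_pp_202_t : ℕ → ℕ → ℕ → ℕ → Bool := onCell 0 536870912 0 536870912 818728140 40265320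
    (rowNE 3 eng mog cd0q2 cd0q0 pd2 0 true true true .pp 2 0 2 (qsf 0 536870912 0 536870912 2) ndB0q2 ndB0q0 pcB2 cut_pp_202_t Ext.none)

def k0_pp_202_t : ∃ t, chk3 f_pp_202_t t 1 1 1 = true :=
  ⟨(l 5), by decide +kernel⟩

theorem c_pp_202_t : CertNE 0 536870912 0 536870912 818728140 40265320 3 eng mog cd0q2 cd0q0 pd2 true true true .pp 2 0 2
    ndB0q2 ndB0q0 pcB2 cut_pp_202_t Ext.none :=
  certNE0 (fam := true) (s1 := true) (s2 := true) (a := 2) (b := 0) (c := 2) (cn := .pp) (n1 := ndB0q2) (n2 := ndB0q0) (pc := pcB2) (cut := cut_pp_202_t) (xt := Ext.none) (P1 := 0) (W1 := 536870912) (P2 := 0) (W2 := 536870912) (P3 := 818728140) (W3 := 40265320) (N0 := 3) (En := eng) (mo := mog) (C1 := cd0q2) (C2 := cd0q0) (C3 := pd2)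
    rfl k0_pp_202_t

noncomputable def cut_pp_203_s : Cut := Cut.of [[⟨4, 0, 0, 1449551462⟩]]

noncomputable def f_pp_203_s : ℕ → ℕ → ℕ → ℕ → Bool := onCell 0 536870912 0 536870912 818728140 40265320
    (rowNE 3 eng mog cd0q2 cd0q0 pd3 0 true true true .up 2 0 3 (qsf 0 536870912 0 536870912 3) ndB0q2 ndB0q0 pcB3 cut_pp_203_s Ext.none)

def k0_pp_203_s : ∃ t, chk3 f_pp_203_s t 1 1 1 = true :=
  ⟨(l 5), by decide +kernel⟩

theorem c_pp_203_s : CertNE 0 536870912 0 536870912 818728140 40265320 3 eng mog cd0q2 cd0q0 pd3 true true true .up 2 0 3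
    ndB0q2 ndB0q0 pcB3 cut_pp_203_s Ext.none :=
  certNE0 (fam := true) (s1 := true) (s2 := true) (a := 2) (b := 0) (c := 3) (cn := .up) (n1 := ndB0q2) (n2 := ndB0q0) (pc := pcB3) (cut := cut_pp_203_s) (xt := Ext.none) (P1 := 0) (W1 := 536870912) (P2 := 0) (W2 := 536870912) (P3 := 818728140) (W3 := 40265320) (N0 := 3) (En := eng) (mo := mog) (C1 := cd0q2) (C2 := cd0q0) (C3 := pd3)
    rfl k0_pp_203_s

noncomputable def cut_pp_203_t : Cut := Cut.of [[⟨3, 0, 0, 2845415833⟩]]

noncomputable def f_pp_203_t : ℕ → ℕ → ℕ → ℕ → Bool := onCell 0 536870912 0 536870912 818728140 40265320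
    (rowNE 3 eng mog cd0q2 cd0q0 pd3 0 true true true .up 2 0 3 (qsf 0 536870912 0 536870912 3) ndB0q2 ndB0q0 pcB3 cut_pp_203_t Ext.none)

def k0_pp_203_t : ∃ t, chk3 f_pp_203_t t 1 1 1 = true :=
  ⟨(l 5), by decide +kernel⟩

theorem c_pp_203_t : CertNE 0 536870912 0 536870912 818728140 40265320 3 eng mog cd0q2 cd0q0 pd3 true true true .up 2 0 3
    ndB0q2 ndB0q0 pcB3 cut_pp_203_t Ext.none :=
  certNE0 (fam := true) (s1 := true) (s2 := true) (a := 2) (b := 0) (c := 3) (cn := .up) (n1 := ndB0q2) (n2 := ndB0q0) (pc := pcB3) (cut := cut_pp_203_t) (xt := Ext.none) (P1 := 0) (W1 := 536870912) (P2 := 0) (W2 := 536870912) (P3 := 818728140) (W3 := 40265320) (N0 := 3) (En := eng) (mo := mog) (C1 := cd0q2) (C2 := cd0q0) (C3 := pd3)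
    rfl k0_pp_203_t

noncomputable def cut_pp_213_s : Cut := Cut.of [[⟨4, 0, 0, 1449551462⟩]]

noncomputable def f_pp_213_s : ℕ → ℕ → ℕ → ℕ → Bool := onCell 0 536870912 536870912 536870912 818728140 40265320
    (rowNE 3 eng mog cd0q2 cd0q1 pd3 0 true true true .pnn 2 1 3 (qsf 0 536870912 536870912 536870912 3) ndB0q2 ndB0q1 pcB3 cut_pp_213_s Ext.none)

def k0_pp_213_s : ∃ t, chk3 f_pp_213_s t 1 1 1 = true :=
  ⟨(l 6), by decide +kernel⟩

theorem c_pp_213_s : CertNE 0 536870912 536870912 536870912 818728140 40265320 3 eng mog cd0q2 cd0q1 pd3 true true true .pnn 2 1 3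
    ndB0q2 ndB0q1 pcB3 cut_pp_213_s Ext.none :=
  certNE0 (fam := true) (s1 := true) (s2 := true) (a := 2) (b := 1) (c := 3) (cn := .pnn) (n1 := ndB0q2) (n2 := ndB0q1) (pc := pcB3) (cut := cut_pp_213_s) (xt := Ext.none) (P1 := 0) (W1 := 536870912) (P2 := 536870912) (W2 := 536870912) (P3 := 818728140) (W3 := 40265320) (N0 := 3) (En := eng) (mo := mog) (C1 := cd0q2) (C2 := cd0q1) (C3 := pd3)
    rfl k0_pp_213_s

noncomputable def cut_pp_213_t : Cut := Cut.of [[⟨3, 0, 0, 2845415833⟩]]

noncomputable def f_pp_213_t : ℕ → ℕ → ℕ → ℕ → Bool := onCell 0 536870912 536870912 536870912 818728140 40265320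
    (rowNE 3 eng mog cd0q2 cd0q1 pd3 0 true true true .pnn 2 1 3 (qsf 0 536870912 536870912 536870912 3) ndB0q2 ndB0q1 pcB3 cut_pp_213_t Ext.none)

def k0_pp_213_t : ∃ t, chk3 f_pp_213_t t 1 1 1 = true :=
  ⟨(a (l 5) (l 4)), by decide +kernel⟩

theorem c_pp_213_t : CertNE 0 536870912 536870912 536870912 818728140 40265320 3 eng mog cd0q2 cd0q1 pd3 true true true .pnn 2 1 3
    ndB0q2 ndB0q1 pcB3 cut_pp_213_t Ext.none :=
  certNE0 (fam := true) (s1 := true) (s2 := true) (a := 2) (b := 1) (c := 3) (cn := .pnn) (n1 := ndB0q2) (n2 := ndB0q1) (pc := pcB3) (cut := cut_pp_213_t) (xt := Ext.none) (P1 := 0) (W1 := 536870912) (P2 := 536870912) (W2 := 536870912) (P3 := 818728140) (W3 := 40265320) (N0 := 3) (En := eng) (mo := mog) (C1 := cd0q2) (C2 := cd0q1) (C3 := pd3)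
    rfl k0_pp_213_t

noncomputable def cut_pm_001_s : Cut := Cut.of [[⟨4, 0, 0, 1449551462⟩]]

noncomputable def f_pm_001_s : ℕ → ℕ → ℕ → ℕ → Bool := onCell 0 536870912 0 536870912 818728140 40265320
    (rowNE 3 eng mog cd0q0 cd0q0 pd1 0 true true false .up 0 0 1 (qsf 0 536870912 0 536870912 1) ndB0q0 ndB0q0 pcB1 cut_pm_001_s Ext.none)

def k0_pm_001_s : ∃ t, chk3 f_pm_001_s t 1 1 1 = true :=
  ⟨(l 3), by decide +kernel⟩

theorem c_pm_001_s : CertNE 0 536870912 0 536870912 818728140 40265320 3 eng mog cd0q0 cd0q0 pd1 true true false .up 0 0 1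
    ndB0q0 ndB0q0 pcB1 cut_pm_001_s Ext.none :=
  certNE0 (fam := true) (s1 := true) (s2 := false) (a := 0) (b := 0) (c := 1) (cn := .up) (n1 := ndB0q0) (n2 := ndB0q0) (pc := pcB1) (cut := cut_pm_001_s) (xt := Ext.none) (P1 := 0) (W1 := 536870912) (P2 := 0) (W2 := 536870912) (P3 := 818728140) (W3 := 40265320) (N0 := 3) (En := eng) (mo := mog) (C1 := cd0q0) (C2 := cd0q0) (C3 := pd1)
    rfl k0_pm_001_s

noncomputable def cut_pm_001_t : Cut := Cut.of [[⟨3, 0, 0, 2845415833⟩]]

noncomputable def f_pm_001_t : ℕ → ℕ → ℕ → ℕ → Bool := onCell 0 536870912 0 536870912 818728140 40265320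
    (rowNE 3 eng mog cd0q0 cd0q0 pd1 0 true true false .up 0 0 1 (qsf 0 536870912 0 536870912 1) ndB0q0 ndB0q0 pcB1 cut_pm_001_t Ext.none)

def k0_pm_001_t : ∃ t, chk3 f_pm_001_t t 1 1 1 = true :=
  ⟨(l 3), by decide +kernel⟩

theorem c_pm_001_t : CertNE 0 536870912 0 536870912 818728140 40265320 3 eng mog cd0q0 cd0q0 pd1 true true false .up 0 0 1
    ndB0q0 ndB0q0 pcB1 cut_pm_001_t Ext.none :=
  certNE0 (fam := true) (s1 := true) (s2 := false) (a := 0) (b := 0) (c := 1) (cn := .up) (n1 := ndB0q0) (n2 := ndB0q0) (pc := pcB1) (cut := cut_pm_001_t) (xt := Ext.none) (P1 := 0) (W1 := 536870912) (P2 := 0) (W2 := 536870912) (P3 := 818728140) (W3 := 40265320) (N0 := 3) (En := eng) (mo := mog) (C1 := cd0q0) (C2 := cd0q0) (C3 := pd1)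
    rfl k0_pm_001_t

noncomputable def cut_pm_011_s : Cut := Cut.of [[⟨4, 0, 0, 1449551462⟩], [⟨0, 0, 0, 67108864⟩, ⟨1, 1, 0, 67108864⟩, ⟨2, 1, 0, 67108864⟩]]

noncomputable def f_pm_011_s : ℕ → ℕ → ℕ → ℕ → Bool := onCell 536870912 536870912 536870912 536870912 818728140 40265320
    (rowNE 3 eng mog cd0q0 cd0q1 pd1 2 true true false .pnn 0 1 1 (qsf 0 536870912 536870912 536870912 1) ndB0q0 ndB0q1 pcB1 cut_pm_011_s Ext.none)

def k0_pm_011_s : ∃ t, chk3 f_pm_011_s t 1 1 1 = true :=
  ⟨(a (l 3) (b (l 3) (a (l 3) (b (l 3) (a (l 3) (b (l 3) (a (l 3) (b (l 3) (l 14))))))))), by decide +kernel⟩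

theorem c_pm_011_s : CertNE 0 536870912 536870912 536870912 818728140 40265320 3 eng mog cd0q0 cd0q1 pd1 true true false .pnn 0 1 1
    ndB0q0 ndB0q1 pcB1 cut_pm_011_s Ext.none :=
  certNE2 (fam := true) (s1 := true) (s2 := false) (a := 0) (b := 1) (c := 1) (cn := .pnn) (n1 := ndB0q0) (n2 := ndB0q1) (pc := pcB1) (cut := cut_pm_011_s) (xt := Ext.none) (P1 := 0) (W1 := 536870912) (P2 := 536870912) (W2 := 536870912) (P3 := 818728140) (W3 := 40265320) (N0 := 3) (En := eng) (mo := mog) (C1 := cd0q0) (C2 := cd0q1) (C3 := pd1)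
    rfl (fun _ => rfl) k0_pm_011_s

noncomputable def cut_pm_011_t : Cut := Cut.of [[⟨3, 0, 0, 2845415833⟩], [⟨0, 0, 0, 67108864⟩, ⟨1, 1, 0, 67108864⟩, ⟨2, 1, 0, 67108864⟩]]

noncomputable def f_pm_011_t : ℕ → ℕ → ℕ → ℕ → Bool := onCell 0 536870912 536870912 536870912 818728140 40265320
    (rowNE 3 eng mog cd0q0 cd0q1 pd1 0 true true false .pnn 0 1 1 (qsf 0 536870912 536870912 536870912 1) ndB0q0 ndB0q1 pcB1 cut_pm_011_t Ext.none)

def k0_pm_011_t : ∃ t, chk3 f_pm_011_t t 1 1 1 = true :=
  ⟨(l 6), by decide +kernel⟩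

theorem c_pm_011_t : CertNE 0 536870912 536870912 536870912 818728140 40265320 3 eng mog cd0q0 cd0q1 pd1 true true false .pnn 0 1 1
    ndB0q0 ndB0q1 pcB1 cut_pm_011_t Ext.none :=
  certNE0 (fam := true) (s1 := true) (s2 := false) (a := 0) (b := 1) (c := 1) (cn := .pnn) (n1 := ndB0q0) (n2 := ndB0q1) (pc := pcB1) (cut := cut_pm_011_t) (xt := Ext.none) (P1 := 0) (W1 := 536870912) (P2 := 536870912) (W2 := 536870912) (P3 := 818728140) (W3 := 40265320) (N0 := 3) (En := eng) (mo := mog) (C1 := cd0q0) (C2 := cd0q1) (C3 := pd1)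
    rfl k0_pm_011_t

end Pool.Agent.Strip051.G.I7625_8000.Tab.CS.BA00

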