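import Pool.Agent.Strip051.G.I7625_8000.Tab
import Pool.Agent.Strip051.PB.StripB

/-! # Strips, near vertex: certificates 1 (generated) -/

set_option linter.all false
set_option maxRecDepth 100000

namespace Pool.Agent.Strip051.G.I7625_8000.Tab.CS.BA00

open Pool.Agent.Strip051.PB Pool.Agent.Strip051.PB.T
open Pool.Agent.Strip051.G.I7625_8000.Tab

noncomputable def cut_pm_012_s : Cut := Cut.of [[⟨4, 0, 0, 1449551462⟩], [⟨0, 0, 0, 67108864⟩, ⟨1, 1, 0, 67108864⟩, ⟨2, 1, 0, 67108864⟩]]

noncomputable def f_pm_012_s : ℕ → ℕ → ℕ → ℕ → Bool := onCell 1073741824 536870912 536870912 536870912 818728140 40265320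
    (rowNE 3 eng mog cd0q0 cd0q1 pd2 2 true true false .pnp 0 1 2 (qsf 0 536870912 536870912 536870912 2) ndB0q0 ndB0q1 pcB2 cut_pm_012_s Ext.none)

def k0_pm_012_s : ∃ t, chk3 f_pm_012_s t 4 2 1 = true :=
  ⟨(b (l 3) (l 3)), by decide +kernel⟩

def k1_pm_012_s : ∃ t, chk3 f_pm_012_s t 8 6 1 = true :=
  ⟨(l 3), by decide +kernel⟩

def k2_pm_012_s : ∃ t, chk3 f_pm_012_s t 18 6 1 = true :=
  ⟨(b (l 3) (b (l 3) (a (l 3) (a (l 3) (b (l 3) (b (l 3) (a (l 3) (c (c (a (b (l 3) (a (l 160155306807) (l 16776696))) (b (l 90898959191) (l 16774880))) (b (l 143512311447) (l 16781216))) (b (l 137069861767) (l 16775984)))))))))), by decide +kernel⟩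

def k3_pm_012_s : ∃ t, chk3 f_pm_012_s t 19 12 1 = true :=
  ⟨(b (l 3) (a (l 3) (b (a (l 3) (c (a (l 3) (c (l 105931334247) (l 16775632))) (l 135459260695))) (a (c (a (l 3) (l 229411645335)) (l 209010572679)) (c (a (b (l 137606733767) (l 16775656)) (a (l 16773736) (l 16771112))) (a (l 16776344) (l 16772488))))))), by decide +kernel⟩

def k4_pm_012_s : ∃ t, chk3 f_pm_012_s t 19 13 1 = true :=
  ⟨(b (b (a (l 3) (c (b (a (a (l 3) (c (l 71571611575) (l 16776688))) (a (l 16772232) (l 16766984))) (a (a (a (l 212231786407) (l 16780744)) (l 16773584)) (c (l 16765552) (l 16765912)))) (a (a (l 151565383431) (l 16775288)) (l 16767824)))) (a (a (l 3) (c (a (b (l 3) (c (l 241759682615) (l 224042948183))) (c (b (l 171429589719) (c (l 16780632) (l 16775416))) (b (l 174650825319) (l 16775472)))) (a (l 229948534071) (b (l 16775712) (l 16775576))))) (c (a (b (a (c (l 16774608) (l 16774720)) (l 16769568)) (a (l 16770432) (l 16765288))) (a (a (l 16763640) (l 16761112)) (l 16762584))) (a (a (l 16772600) (l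 16767296)) (l 16759616))))) (a (a (b (a (b (l 3) (c (l 300278612471) (l 307794804599))) (c (b (a (l 3) (l 269676970199)) (c (a (b (l 273435068087) (l 16776792)) (l 16778176)) (l 55465484343))) (b (l 264845137335) (l 16776440)))) (c (c (a (a (b (b (l 3) (l 82309025287)) (l 16773592)) (b (b (l 70497865287) (l 16774776)) (l 16771024))) (b (l 16772136) (l 16767176))) (a (b (a (l 135996118183) (l 16775880)) (l 16772264)) (b (l 16772088) (l 16767064)))) (b (a (l 16781856) (l 16772000)) (l 16769544)))) (a (b (a (c (b (b (l 210621172663) (l 16776416)) (l 16773040)) (l 16775288)) (c (b (l 16775088) (l 16770440)) (l 16772672))) (c (b (l 16766928) (l 16761952)) (l 16764032))) (b (c (b (l 16771176) (l 16766544)) (l 16768656)) (c (b (l 16761736) (l 16756768)) (l 16758608))))) (b (a (c (a (b (l 16765984) (l 16761344)) (a (l 16759784) (l 16757216))) (a (l 16763272) (l 16757928))) (c (b (l 16753216) (l 16748544)) (l 16750096))) (a (c (b (c (l 16754128) (l 16753776)) (c (l 16749240) (l 16748752))) (b (l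 16753096) (l 16747832))) (c (c (b (l 16743960) (l 16739080)) (l 16740920)) (l 16739728)))))), by decide +kernel⟩

def k5_pm_012_s : ∃ t, chk3 f_pm_012_s t 16 14 1 = true :=
  ⟨(l 3), by decide +kernel⟩

def k6_pm_012_s : ∃ t, chk3 f_pm_012_s t 17 28 1 = true :=
  ⟨(l 3), by decide +kernel⟩

def k7_pm_012_s : ∃ t, chk3 f_pm_012_s t 34 29 1 = true :=
  ⟨(l 3), by decide +kernel⟩

def k8_pm_012_s : ∃ t, chk3 f_pm_012_s t 35 58 1 = true :=
  ⟨(l 3), by decide +kernel⟩

def k9_pm_012_s : ∃ t, chk3 f_pm_012_s t 70 59 1 = true :=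
  ⟨(b (l 3) (a (l 3) (b (l 3) (c (a (b (l 3) (a (l 3) (b (l 3) (c (c (l 299204868871) (l 297594257431)) (l 291688677383))))) (a (b (l 3) (c (a (b (l 3) (c (b (l 170355850871) (l 16776896)) (l 16777056))) (b (b (l 273971937287) (a (l 168745238743) (l 16776984))) (l 16776488))) (l 121500598199))) (c (b (b (l 330343381783) (b (c (a (l 3) (l 117742500919)) (l 199883751719)) (c (a (l 196662526135) (l 16776760)) (l 16777024)))) (c (b (l 16776840) (l 16775560)) (l 16776000))) (b (l 191293817671) (l 16776000))))) (a (l 335712092039) (b (l 220284847815) (l 16779192))))))), by decide +kernel⟩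

def k10_pm_012_s : ∃ t, chk3 f_pm_012_s t 71 118 1 = true :=
  ⟨(b (a (l 3) (a (l 3) (c (c (b (a (l 3) (c (b (l 348060123239) (a (l 275582550055) (l 16777400))) (l 215989878679))) (c (a (b (l 256255197191) (a (l 152639111607) (l 16776664))) (b (l 16776544) (l 16775664))) (a (b (l 249812746567) (l 16776984)) (l 16776112)))) (b (l 243907166135) (a (l 144049177719) (l 16776120)))) (a (l 195588786407) (l 16779440))))) (a (a (l 3) (c (b (l 3) (c (a (l 3) (b (l 3) (a (l 279877517335) (b (l 163376529143) (l 16776896))))) (l 251960229783))) (l 263234518855))) (c (c (a (b (a (b (l 3) (c (a (l 3) (l 227264167895)) (l 258939551735))) (c (b (a (l 285783097383) (l 95730793655)) (l 16777240)) (b (l 165524013607) (l 16776584)))) (a (b (a (b (l 253570842871) (l 81772151255)) (l 16776688)) (l 16776136)) (l 16775264))) (c (b (l 16775344) (l 16773280)) (l 16774160))) (a (b (a (l 275582550007) (l 16776936)) (l 16775960)) (l 16774176))) (a (b (l 145122921031) (l 16775976)) (l 16774216))))), by decide +kernel⟩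

def k11_pm_012_s : ∃ t, chk3 f_pm_012_s t 71 119 1 = true :=
  ⟨(c (a (b (a (c (b (a (l 3) (l 349670735959)) (a (b (l 3) (c (a (l 3) (b (l 320142835751) (l 134922371431))) (l 243907166151))) (c (a (b (l 269676969991) (l 16776840)) (a (b (l 127406177351) (l 16776352)) (l 16776472))) (b (l 156397208135) (l 16776520))))) (b (l 352891961367) (a (l 266455744471) (l 16777864)))) (c (c (b (a (a (a (l 272361323255) (b (l 3) (l 98952020327))) (b (l 222432329671) (l 16776656))) (b (c (l 16777224) (l 16776576)) (l 16775688))) (a (l 16775672) (l 16774392))) (b (a (b (l 255718326247) (l 16777608)) (l 16776136)) (l 16775040))) (b (a (l 145122919511) (l 16776144)) (l 16775048)))) (b (c (a (a (b (a (c (b (l 218674233463) (l 16777016)) (l 16777120)) (l 16776592)) (l 16776040)) (l 16775216)) (c (l 16773304) (l 16773312))) (a (l 16775880) (l 16773328))) (c (a (c (l 16774112) (l 16774120)) (l 16771592)) (l 16772880)))) (c (b (a (b (b (l 16774616) (l 16773752)) (l 16772456)) (c (l 16770688) (l 16770704))) (b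 (a (c (l 16768104) (l 16765504)) (l 16765496)) (a (l 16765744) (l 16761160)))) (b (a (l 16773344) (l 16770736)) (l 16768616)))) (a (b (a (b (l 348596993959) (l 141901695479)) (c (l 16778624) (l 16776024))) (a (l 16775024) (l 16772504))) (a (l 16770360) (l 16769096)))), by decide +kernel⟩

def k12_pm_012_s : ∃ t, chk3 f_pm_012_s t 32 30 1 = true :=
  ⟨(l 3), by decide +kernel⟩

def k13_pm_012_s : ∃ t, chk3 f_pm_012_s t 33 30 1 = true :=
  ⟨(b (l 3) (a (l 3) (b (l 3) (a (l 3) (b (l 3) (a (b (l 3) (b (l 3) (l 14))) (a (a (b (l 3) (b (c (a (b (l 3) (l 14)) (c (b (l 357723799623) (a (l 14) (a (l 14) (c (l 16777104) (l 16777024))))) (l 177335172167))) (l 204178719191)) (l 14))) (b (c (b (l 3) (c (b (l 3) (c (a (l 3) (a (l 3) (b (l 3) (b (l 3) (l 180019527751))))) (l 309942288455))) (l 321216577623))) (l 329269641287)) (c (c (c (b (b (a (b (l 309942288423) (a (a (l 248202133527) (b (l 300815482775) (l 16777168))) (l 16777240))) (a (b (b (l 223506071591) (l 16777152)) (l 16776984)) (l 16776960)))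 (l 16776704)) (l 16776016)) (b (b (a (l 183240752679) (l 16777024)) (l 16776704)) (l 16776016))) (b (b (l 16777424) (l 16776704)) (l 16776016))) (l 16776488)))) (c (b (b (c (a (l 3) (b (l 3) (c (a (l 348060123207) (b (l 295446773799) (a (b (l 279877517351) (l 16777176)) (l 16777112)))) (a (l 348060123191) (l 175187688983))))) (l 284172483351)) (c (a (a (b (l 3) (c (b (a (l 348596994087) (b (l 302962966343) (l 101099503719))) (a (b (l 140291080279) (l 16777104)) (l 16777024))) (b (l 224042942535) (l 16777088)))) (c (b (a (l 312626642983) (b (l 3) (b (l 211694911527) (l 16777144)))) (c (b (l 16777128) (l 16776816)) (l 16776936))) (b (l 235317231687) (l 16776936)))) (a (b (c (b (a (b (l 3) (l 170892722231)) (b (l 127943049303) (l 16777096))) (l 16777000)) (l 16777336)) (l 16776648)) (c (l 16776520) (l 16776600)))) (a (b (l 265382002695) (l 16777032)) (l 16776760)))) (c (c (a (b (a (l 16776440) (l 16776240)) (l 16775456)) (b (l 16775824) (l 16774904))) (b (l 16776104) (l 16775184))) (l 16775648)))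 (b (b (l 280414388231) (a (l 145659790055) (l 16776752))) (l 16775656)))))))))), by decide +kernel⟩

def k14_pm_012_s : ∃ t, chk3 f_pm_012_s t 16 31 1 = true :=
  ⟨(a (l 14) (b (a (l 14) (b (a (l 14) (b (b (a (l 14) (a (l 14) (a (l 14) (c (c (l 16773520) (l 16773528)) (l 16773544))))) (l 14)) (l 14))) (l 14))) (l 14))), by decide +kernel⟩

def k15_pm_012_s : ∃ t, chk3 f_pm_012_s t 68 60 1 = true :=
  ⟨(l 3), by decide +kernel⟩

def k16_pm_012_s : ∃ t, chk3 f_pm_012_s t 69 120 1 = true :=
  ⟨(l 3), by decide +kernel⟩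

def k17_pm_012_s : ∃ t, chk3 f_pm_012_s t 138 121 1 = true :=
  ⟨(b (l 3) (a (l 3) (c (b (a (l 3) (c (b (l 3) (a (l 3) (b (l 323900931479) (c (a (b (l 3) (l 175187689591)) (b (l 119353114119) (l 16776984))) (l 135996113223))))) (l 269676968647))) (b (c (a (a (l 3) (b (l 3) (c (a (l 3) (c (b (l 3) (l 168208367719)) (l 223506071607))) (l 254644584599)))) (c (a (b (a (l 313700384807) (b (l 235317231687) (l 16777112))) (c (a (b (l 112910663159) (l 16776968)) (l 16776792)) (l 16776952))) (c (l 16776576) (l 16776576))) (a (b (l 196662526119) (l 16776952)) (l 16776576)))) (a (l 297057386519) (l 16777816))) (c (a (c (a (b (l 317995352119) (a (a (l 287393710103) (b (l 345375768599) (l 16777160))) (c (b (l 98952019479) (l 16776952)) (l 16777064)))) (a (b (b (l 224579813447) (l 16777104)) (l 16776776)) (l 16776712))) (a (b (l 317458481191) (l 123648082327)) (l 16777520))) (c (l 16775992) (l 16775992))) (a (a (l 185925108151) (l 16776864)) (l 16775992))))) (b (l 279877517239) (a (b (l 279877518279)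 (l 16777000)) (l 16776456)))))), by decide +kernel⟩

def k18_pm_012_s : ∃ t, chk3 f_pm_012_s t 278 121 1 = true :=
  ⟨(b (a (l 3) (b (l 3) (c (c (a (b (l 3) (b (l 326048415783) (c (a (a (l 316384739351) (l 205789331511)) (a (l 95193923159) (l 16777024))) (l 138680467783)))) (b (c (b (l 3) (a (l 3) (l 235317231591))) (l 289541193751)) (b (a (b (l 240685940807) (a (l 111300051127) (l 16777056))) (l 16776952)) (l 16776656)))) (b (l 300278611991) (l 111836921559))) (l 167671498343)))) (c (c (b (a (b (a (c (b (l 3) (a (l 3) (c (l 237464714583) (l 233706618935)))) (l 290078064663)) (c (b (a (l 322827190311) (a (l 205789331511) (l 95730794071))) (a (b (l 121500598439) (l 16776984)) (l 16776808))) (b (l 201494364327) (l 16776960)))) (a (b (c (a (b (l 241759682631) (l 16777120)) (l 16776952)) (l 16777064)) (l 16776656)) (l 16776296))) (c (b (a (l 16776752) (l 16776008)) (l 16775424)) (l 16775864))) (c (a (b (l 16775712) (l 16774840)) (l 16774120)) (l 16774696))) (b (a (b (l 171966463447) (l 16776608))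 (l 16775864)) (l 16774696))) (b (a (l 88214601191) (l 16775864)) (l 16774696)))), by decide +kernel⟩

def k19_pm_012_s : ∃ t, chk3 f_pm_012_s t 279 121 1 = true :=
  ⟨(c (b (c (b (a (b (l 3) (a (l 3) (b (l 319605964839) (c (a (l 231559135207) (l 16777368)) (l 16777376))))) (a (b (c (b (l 3) (a (l 3) (l 220821717047))) (l 283635613719)) (b (a (b (l 227264168007) (l 16777280)) (l 16776936)) (l 16776640))) (b (a (c (b (l 305110450199) (l 16777072)) (l 153712853319)) (b (b (l 213305524327) (l 16777104)) (l 16776776))) (l 16776272)))) (b (c (a (a (b (a (l 320142835751) (a (l 197736267895) (l 88751472903))) (a (a (l 90898955895) (l 16777024)) (l 16776800))) (l 16776576)) (l 16775696)) (a (a (b (l 198810009767) (l 16776960)) (l 16776584)) (l 16775696))) (c (a (l 16776000) (l 16774832)) (l 16775416)))) (b (a (l 268066357223) (b (l 166597755623) (l 16776584))) (a (c (l 16777784) (l 16776480)) (l 16775264)))) (c (b (c (a (l 16774696) (l 16773528)) (l 16774112)) (c (l 16772376) (l 16772376))) (l 16772920)))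 (b (b (a (l 249812747543) (l 16778168)) (l 16775888)) (l 16773248))), by decide +kernel⟩

def k20_pm_012_s : ∃ t, chk3 f_pm_012_s t 136 122 1 = true :=
  ⟨(b (l 3) (a (l 3) (b (l 3) (c (a (l 3) (b (l 3) (c (a (l 3) (b (l 3) (c (a (l 3) (b (l 345375768615) (c (a (l 235854102567) (l 16777272)) (l 144049176743)))) (l 249812746231)))) (l 295446773815)))) (l 330343383095))))), by decide +kernel⟩

def k21_pm_012_s : ∃ t, chk3 f_pm_012_s t 137 244 1 = true :=
  ⟨(a (l 3) (b (l 3) (c (a (a (l 3) (b (l 3) (c (c (l 336785834071) (l 336785834055)) (l 342691414071)))) (c (b (a (l 3) (b (l 3) (c (a (l 343228284983) (b (l 279877517335) (a (l 154786594935) (l 16777096)))) (l 218137362551)))) (c (a (a (b (l 3) (b (l 252497100807) (a (l 120963727463) (l 16777064)))) (b (a (l 326585286695) (b (l 3) (l 134385500311))) (l 16777128))) (a (b (a (b (l 233169748007) (l 16777080)) (l 16777216)) (l 16776672)) (l 16776616))) (a (b (l 272898195463) (c (l 16777392) (l 16777064))) (l 16776768)))) (b (l 278266904583)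 (a (l 154249724519) (l 16776768))))) (a (l 348060123175) (b (l 261623907255) (l 16776936)))))), by decide +kernel⟩

def k22_pm_012_s : ∃ t, chk3 f_pm_012_s t 274 245 1 = true :=
  ⟨(a (b (l 3) (c (a (b (l 3) (c (c (b (a (l 311016030247) (a (b (l 3) (a (l 146196660295) (l 16777152))) (b (l 199346880567) (l 16777048)))) (a (a (b (a (l 227264167975) (l 122037469303)) (l 16777016)) (l 16776992)) (l 16776776))) (b (a (l 311016030247) (l 138143596791)) (l 16776928))) (l 107005082999))) (c (b (a (b (l 3) (b (l 3) (a (l 297057386519) (b (l 223506071591) (l 16777160))))) (b (l 341617672247) (b (c (a (l 229948522535) (l 16777312)) (l 16777168)) (l 16777000)))) (c (b (c (a (l 16777032) (l 16776664)) (l 16776808)) (l 16776360)) (l 16776584))) (b (l 205252460855) (l 16776584)))) (b (l 234780361367) (l 16776816)))) (c (b (b (l 3) (c (a (b (l 3) (a (l 3) (a (l 3) (b (l 3) (c (l 189146333239) (l 16777200)))))) (c (a (b (l 3) (b (a (l 298667998999) (a (l 167671496759) (l 16777160))) (l 16777056))) (b (a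 (l 268066356599) (b (l 315310997527) (l 16777136))) (l 16776880))) (b (l 242833424359) (l 16777336)))) (a (l 307257933879) (l 134922371623)))) (b (c (a (a (b (c (b (l 285246226455) (a (a (l 218674233383) (l 16777264)) (l 16777104))) (l 169818980503)) (l 16776832)) (c (b (a (a (b (l 133311758423) (l 16776992)) (l 16777032)) (l 16776928)) (l 16776552)) (l 16776776))) (c (l 16776352) (l 16776352))) (l 16777304)) (c (c (c (l 16775736) (l 16775736)) (l 16775736)) (l 16775736)))) (b (l 240685940615) (l 16776208)))), by decide +kernel⟩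

def k23_pm_012_s : ∃ t, chk3 f_pm_012_s t 275 245 1 = true :=
  ⟨(b (a (c (c (b (a (b (l 3) (c (a (l 296520515623) (b (a (l 343765155863) (l 167134625879)) (l 16777256))) (l 186461978167))) (c (b (a (a (l 299204870167) (b (l 3) (l 16777288))) (a (b (l 191830687799) (l 16777040)) (l 16777016))) (l 16776784)) (b (c (l 133848629575) (l 16777296)) (l 16776784)))) (c (a (b (a (a (b (l 143512305767) (l 16777000)) (l 16776976)) (l 16776760)) (l 16776456)) (l 16776112)) (l 16776560))) (b (a (l 232096006391) (l 16776960)) (l 16776400))) (b (l 133311759447) (l 16776400))) (c (c (c (b (a (l 16776432) (l 16775864)) (l 16775256)) (l 16775704)) (l 16775704)) (l 16775712))) (c (c (a (c (b (l 16775496) (l 16774600)) (l 16775048)) (c (l 16773912) (l 16773920))) (l 16774488)) (l 16774496))), by decide +kernel⟩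

def k24_pm_012_s : ∃ t, chk3 f_pm_012_s t 272 246 1 = true :=
  ⟨(b (l 3) (c (a (a (l 3) (b (l 3) (c (b (c (l 336785834071) (l 336785834055)) (b (a (l 3) (c (a (b (l 316384739111) (l 129553662039)) (l 16777296)) (l 16777160))) (a (c (a (l 257328939063) (b (l 173577076791) (l 16777128))) (l 16777264)) (l 16776976)))) (b (l 343228284983) (l 133311758727))))) (c (b (a (b (l 3) (c (a (l 3) (a (l 355039445047) (b (l 3) (b (l 302962966343) (l 16777184))))) (l 288467451943))) (a (b (l 3) (c (b (a (l 283098742807) (b (l 205789331495) (l 16777144))) (l 16777048)) (l 97878277143))) (c (b (b (l 334101479463) (c (a (b (l 3) (l 162302787639)) (l 16777264)) (l 134385500327))) (l 16776880)) (b (l 200420622455) (l 16776880))))) (c (a (b (a (b (a (l 3) (l 240685940775)) (a (b (l 234780360743) (l 16777160)) (l 16777080))) (a (b (b (l 153175982119) (l 16777112)) (l 16776936)) (l 16776912))) (l 16776664)) (c (l 16776336) (l 16776336))) (a (a (b (l 160155303463) (l 16776808)) (l 16776760)) (l 16776336)))) (b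 (a (l 305647321143) (b (l 237464715447) (l 16777000))) (a (l 16777536) (l 16776336))))) (a (l 270750710471) (b (l 184851366759) (l 16776624))))), by decide +kernel⟩

def k25_pm_012_s : ∃ t, chk3 f_pm_012_s t 273 246 1 = true :=
  ⟨(c (b (a (b (c (c (l 355576316071) (l 358260670599)) (l 357723799655)) (b (c (a (l 3) (c (a (a (l 320679706663) (b (l 3) (a (l 181093269559) (l 16777168)))) (b (a (l 232096006183) (a (l 106468212823) (l 16777128))) (l 16777000))) (a (l 239612198983) (l 16777088)))) (l 224042941063)) (b (c (a (a (l 3) (a (l 3) (b (l 313163513639) (a (l 201494364199) (l 16777176))))) (a (c (l 16777144) (l 16777064)) (l 16776776))) (l 122574339351)) (c (a (c (a (l 284709355543) (a (b (l 171429593143) (l 16777128)) (l 16777040))) (l 149954756199)) (l 16776688)) (l 16776944))))) (c (b (a (a (b (l 3) (c (b (l 291688677399) (a (a (l 225653555239) (l 120963727479)) (l 16777104))) (l 173040205991))) (c (b (a (l 3) (a (l 306721062951) (b (l 3) (l 167671496759)))) (a (a (b (l 146733531207)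 (l 16777000)) (l 16777048)) (l 16776936))) (b (l 274508808295) (l 16777008)))) (b (a (c (b (a (l 304036708375) (a (l 186461978679) (l 16777168))) (l 16777232)) (l 105394471239)) (c (l 16776896) (l 16776896))) (c (l 16776584) (l 16776584)))) (c (c (a (l 16776464) (l 16775904)) (l 16776184)) (l 16776184))) (b (a (l 173577075831) (l 16776816)) (l 16776192)))) (c (a (c (b (a (a (b (a (b (b (l 262160777255) (l 16777168)) (l 16777008)) (l 16776984)) (l 16776600)) (l 16776544)) (l 16776120)) (c (l 16775496) (l 16775496))) (b (a (l 16776856) (l 16776120)) (l 16775496))) (c (b (l 16775280) (l 16774368)) (l 16774824))) (a (l 16775960) (l 16774832)))) (b (a (b (l 358260670519) (l 139754207767)) (b (l 98415150183) (l 16776192))) (l 16775400))), by decide +kernel⟩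

def k26_pm_012_s : ∃ t, chk3 f_pm_012_s t 136 247 1 = true :=
  ⟨(c (c (a (b (a (b (c (a (b (b (a (l 3) (a (l 321753448487) (b (l 259476422695) (l 16777168)))) (a (a (l 3) (b (l 330880253735) (l 155323465783))) (a (b (l 109152567399) (l 16777088)) (l 16777008)))) (a (a (b (b (l 198273138711) (l 16777136)) (l 16776968)) (l 16776944)) (l 16776728))) (b (c (a (l 16776912) (l 16776632)) (l 16776768)) (l 16776312))) (a (b (a (l 283098742807) (l 117205630583)) (l 16776880)) (l 16776544))) (c (a (l 16776144) (l 16775624)) (l 16775904))) (c (b (a (l 16775984) (l 16775424)) (l 16774784)) (l 16774920))) (a (c (b (l 16774984) (l 16774064)) (l 16774528)) (c (l 16773408) (l 16773416)))) (b (c (a (b (l 16774584) (l 16773664)) (l 16773000)) (a (l 16774128) (l 16773008))) (a (l 16772296) (l 16771168)))) (a (b (a (b (a (b (l 173040206199) (l 16776880)) (l 16776544)) (l 16775912)) (l 16775248)) (a (l 16774536) (l 16773424))) (b (l 16773576) (l 16771744)))) (a (b (a (b (l 16778088) (l 16775912)) (l 16775256))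 (l 16773992)) (c (l 16772672) (l 16772680)))), by decide +kernel⟩

def k27_pm_012_s : ∃ t, chk3 f_pm_012_s t 137 123 1 = true :=
  ⟨(c (b (a (c (b (c (a (b (a (l 16776248) (l 16775680)) (l 16775056)) (b (l 16774832) (l 16773928))) (a (l 16775512) (l 16774384))) (c (a (l 16773696) (l 16772568)) (l 16773136))) (b (l 16774952) (l 16773144))) (c (b (c (a (l 16773248) (l 16772120)) (l 16772688)) (a (l 16771440) (l 16770312))) (b (l 16772688) (l 16770880)))) (c (a (b (a (l 16771880) (l 16770752)) (l 16769488)) (b (l 16769056) (l 16767224))) (a (b (l 16771328) (l 16769496)) (l 16768152)))) (b (a (c (l 16774056) (l 16774064)) (l 16771800)) (a (l 16770432) (l 16768176)))), by decide +kernel⟩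

def k28_pm_012_s : ∃ t, chk3 f_pm_012_s t 138 122 1 = true :=
  ⟨(c (b (a (b (b (a (l 3) (a (c (b (l 3) (a (l 3) (a (c (l 272361324551) (l 268603228247)) (b (l 312089771719) (l 16777312))))) (l 270213840903)) (c (c (b (a (l 293836161047) (b (l 211694911543) (l 16777088))) (a (a (b (l 145122918503) (l 16777008)) (l 16776976)) (l 16776760))) (b (l 181093269767) (l 16776912))) (l 16777040)))) (c (a (a (l 3) (c (a (b (l 3) (a (l 254107713543) (b (l 299204869911) (l 16777128)))) (b (l 279877516679) (c (b (l 16777304) (l 16776912)) (l 16777024)))) (b (l 298667999271) (l 108078824551)))) (c (a (a (b (b (a (l 308331675415) (l 131164274807)) (l 16777072)) (l 16776736)) (l 16776672)) (l 16776240)) (a (l 16777160) (l 16776240)))) (a (l 228874779255) (l 16776544)))) (c (c (a (b (a (b (a (b (l 3) (c (l 228337909783) (l 227801038871))) (a (b (l 269140099127) (l 16777112)) (l 16777328))) (a (a (l 16777232) (l 16776920)) (l 16776704))) (l 16776504)) (c (l 16775904) (l 16775904))) (b (l 16775648) (l 16774768)))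 (a (b (a (b (c (l 161765916951) (l 161229046039)) (l 16776856)) (l 16776504)) (l 16775904)) (l 16775208))) (a (b (c (l 16777424) (l 16776768)) (l 16775904)) (l 16775208)))) (c (b (c (a (b (a (l 16776592) (l 16775976)) (l 16775384)) (c (l 16774680) (l 16774680))) (a (l 16775824) (l 16774680))) (c (a (l 16774064) (l 16772928)) (l 16773496))) (b (l 16775248) (l 16773496)))) (c (a (b (c (a (b (l 16775016) (l 16774120)) (l 16773432)) (l 16774000)) (a (l 16772784) (l 16771648))) (b (c (l 16771736) (l 16771736)) (l 16769952))) (a (b (l 16774008) (l 16772216)) (l 16770840)))) (b (a (b (a (l 255181455271) (b (l 154249725095) (l 16776544))) (a (l 16776384) (l 16775208))) (b (l 16775256) (l 16773496))) (a (l 16772216) (l 16770840)))), by decide +kernel⟩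

def k29_pm_012_s : ∃ t, chk3 f_pm_012_s t 139 122 1 = true :=
  ⟨(c (b (c (a (b (c (a (l 16773528) (l 16772376)) (l 16772952)) (c (l 16771208) (l 16771208))) (b (l 16770640) (l 16768904))) (a (l 16772080) (l 16769768))) (c (a (b (l 16769456) (l 16767680)) (l 16766272)) (a (l 16768560) (l 16766256)))) (b (a (l 16772072) (l 16769760)) (a (l 16768544) (l 16766232)))), by decide +kernel⟩

def k30_pm_012_s : ∃ t, chk3 f_pm_012_s t 69 123 1 = true :=
  ⟨(a (c (b (c (a (b (l 16770416) (l 16768608)) (b (l 16768152) (l 16766344))) (a (l 16769520) (l 16767248))) (c (a (l 16765880) (l 16763608)) (a (l 16765888) (l 16763608)))) (b (a (l 16769528) (l 16767248)) (a (l 16765904) (l 16763616)))) (c (b (c (a (l 16764976) (l 16762688)) (l 16763824)) (a (l 16761320) (b (l 16754704) (l 16758120)))) (b (l 16763152) (a (l 16761312) (l 16759040))))), by decide +kernel⟩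

def k31_pm_012_s : ∃ t, chk3 f_pm_012_s t 140 120 1 = true :=
  ⟨(b (b (l 3) (a (l 3) (c (c (a (b (l 3) (l 344838897079)) (a (b (l 3) (c (b (l 258939551735) (a (l 139754209495) (l 16776936))) (l 149954757063))) (c (b (a (l 318532223015) (b (l 3) (l 116131889399))) (l 16776704)) (b (l 229411651783) (l 16776704))))) (a (l 351818219559) (b (l 261087035351) (l 16776944)))) (a (l 348596994007) (l 140827952807))))) (c (a (b (a (l 3) (c (b (l 3) (a (l 3) (c (b (l 287393710103) (a (l 177872044215) (l 16777008))) (l 170355851671)))) (l 256792068039))) (c (b (a (a (l 3) (c (b (l 3) (a (l 3) (l 194515042455))) (l 272361324551))) (a (c (b (a (l 279877517319) (l 96804536007)) (l 16776888)) (l 96267664567)) (l 16776504))) (a (c (a (b (l 309942288423) (a (l 208473686135) (l 16777056))) (a (b (l 112910663303) (l 16776760)) (l 16776680))) (a (l 185388237159) (l 16776848))) (c (l 16775936) (l 16775936)))) (a (b (l 287930580999) (l 102710117335)) (l 16776400)))) (c (b (c (a (b (a (b (l 3) (a (l 354502574119)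 (l 162839658647))) (a (b (l 241759682631) (l 16776976)) (l 16777224))) (a (b (c (l 16777368) (l 16777000)) (l 16776552)) (l 16776176))) (l 16775704)) (a (b (a (l 255718326247) (l 16777008)) (l 16776480)) (l 16775704))) (c (a (l 16775176) (l 16773976)) (l 16774576))) (b (a (b (l 144586048327) (l 16776480)) (l 16775704)) (l 16774584)))) (a (b (l 270213840775) (a (l 160155305543) (l 16776400))) (b (l 16778960) (l 16774584))))), by decide +kernel⟩

def k32_pm_012_s : ∃ t, chk3 f_pm_012_s t 141 120 1 = true :=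
  ⟨(c (c (b (a (b (a (b (l 3) (a (c (l 311016030247) (l 309405417511)) (c (b (l 224042942423) (l 16777336)) (l 124184953335)))) (a (b (b (l 333027737639) (a (l 235317231767) (l 16777424))) (l 16776608)) (a (b (b (l 128479919783) (l 16776792)) (l 16776144)) (l 16776352)))) (c (a (a (a (b (b (l 191830687895) (l 16776896)) (l 16776240)) (l 16776536)) (l 16775912)) (l 16775000)) (a (l 16776936) (l 16775000)))) (c (b (a (l 16775504) (l 16774264)) (l 16773160)) (l 16774024))) (a (b (a (l 16774496) (l 16773280)) (l 16772656)) (c (l 16771240) (l 16770584)))) (b (a (b (a (l 235317231495) (l 16778032)) (l 16775632)) (l 16774032)) (a (l 16773032) (l 16770592)))) (b (a (a (b (l 215453009015) (l 16776248)) (l 16775920)) (l 16774048)) (a (l 16773040) (l 16770616)))), by decide +kernel⟩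

def k33_pm_012_s : ∃ t, chk3 f_pm_012_s t 70 121 1 = true :=
  ⟨(c (a (b (c (a (b (c (a (b (l 16776256) (l 16775392)) (l 16774640)) (l 16775232)) (c (a (l 16774088) (l 16772912)) (l 16773504))) (c (b (l 16772856) (l 16771128)) (l 16771992))) (a (b (l 16775232) (l 16773504)) (l 16771992))) (c (a (b (c (l 16771776) (l 16771768)) (l 16770040)) (b (l 16769408) (l 16767680))) (a (l 16770904) (l 16768536)))) (c (b (a (c (l 16769592) (l 16769592)) (l 16767160)) (b (l 16765808) (l 16764088))) (b (l 16768712) (l 16764944)))) (a (b (a (l 16774368) (l 16772000)) (a (l 16770904) (l 16768536))) (b (l 16768392) (l 16764936)))), by decide +kernel⟩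

def k34_pm_012_s : ∃ t, chk3 f_pm_012_s t 71 60 1 = true :=
  ⟨(b (b (c (a (c (a (b (l 16773056) (l 16770680)) (l 16770328)) (a (l 16771552) (l 16769040))) (c (a (a (l 16764472) (l 16760552)) (c (l 16758576) (l 16763840))) (l 16765192))) (a (l 16770344) (l 16765272))) (c (a (c (a (l 16768112) (a (l 16763600) (l 16759712))) (l 16766880)) (a (c (l 16757784) (l 16763056)) (c (l 16755160) (l 16760448)))) (a (l 16766912) (l 16761840)))) (c (a (c (a (b (c (l 16760752) (l 16759448)) (l 16756008)) (l 16762416)) (b (l 16763448) (l 16754760))) (b (c (a (l 16759600) (l 16756968)) (l 16753080)) (a (l 16750912) (l 16748280)))) (a (b (l 16763472) (l 16760000)) (b (l 16758384) (l 16744416))))), by decide +kernel⟩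

def k35_pm_012_s : ∃ t, chk3 f_pm_012_s t 35 61 1 = true :=
  ⟨(a (b (c (c (a (b (a (l 16768104) (l 16765096)) (a (l 16763952) (l 16761608))) (b (l 16761504) (l 16758016))) (a (b (a (l 16767440) (l 16765080)) (l 16762760)) (b (l 16761480) (l 16757976)))) (a (b (l 16766248) (l 16762728)) (b (l 16761448) (l 16757928)))) (b (a (c (c (l 16759208) (l 16759176)) (l 16759136)) (c (b (l 16755320) (a (l 16754640) (l 16741288))) (b (l 16755248) (l 16753040)))) (a (c (b (a (l 16752392) (l 16755104)) (a (l 16755472) (l 16752560))) (b (l 16756304) (l 16753840))) (c (c (a (l 16740392) (l 16747848)) (l 16740056)) (l 16749064))))) (a (b (c (a (c (l 16757408) (l 16756072)) (b (l 16750024) (l 16751632))) (b (l 16746024) (l 16752896))) (b (c (b (c (l 16739232) (l 16739152)) (l 16747168)) (l 16748168)) (c (c (l 16743256) (l 16743072)) (l 16742792)))) (b (b (c (c (l 16751376) (l 16751376)) (l 16751392)) (c (a (a (l 16738984) (l 16747944)) (l 16745608)) (l 16746960))) (b (c (c (l 16742288) (l 16742120)) (l 16741880))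 (c (l 16737000) (l 16736464)))))), by decide +kernel⟩

def k36_pm_012_s : ∃ t, chk3 f_pm_012_s t 34 62 1 = true :=
  ⟨(a (b (b (a (c (a (c (b (a (c (l 16772680) (l 16772688)) (l 16771568)) (a (l 14) (l 16769712))) (b (l 16772136) (l 16770288))) (c (b (l 16770056) (l 16768040)) (b (l 16769904) (l 16768056)))) (a (b (l 16772160) (l 16770320)) (l 16769016))) (c (a (c (b (l 16767648) (l 16765792)) (l 16766736)) (c (l 16764464) (l 16764480))) (a (l 16766768) (l 16764504)))) (a (a (l 14) (b (c (l 16766352) (l 16766240)) (l 14))) (c (b (a (l 16763944) (l 16761712)) (a (b (l 16762552) (l 14)) (a (l 16760024) (l 16753336)))) (b (a (l 16763992) (l 16761760)) (a (l 16762080) (l 16759272)))))) (b (b (a (l 14) (a (l 14) (c (l 16756328) (l 16756288)))) (l 14)) (l 14))) (b (b (a (c (a (c (l 16762200) (l 16762208)) (b (l 16755608) (l 16758848))) (a (l 16762232) (l 16759896))) (c (b (a (l 16758528) (l 16755760)) (a (l 16756008) (l 16752992))) (b (l 16757056) (l 16754384)))) (b (a (c (a (c (l 16759088) (l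 16759096)) (l 16750960)) (a (l 16759104) (l 16756160))) (c (a (l 16753136) (l 16750072)) (l 16751456))) (a (c (c (l 16749536) (l 16744256)) (l 16744200)) (c (l 16748640) (l 16748416))))) (a (b (a (c (b (l 16753256) (l 16750184)) (l 16751584)) (c (l 16748672) (l 16748464))) (c (c (l 16744072) (l 16743912)) (l 16746304))) (c (b (c (l 16744208) (l 16744040)) (l 16737976)) (b (l 16743800) (l 16737512)))))), by decide +kernel⟩

def k37_pm_012_s : ∃ t, chk3 f_pm_012_s t 35 62 1 = true :=
  ⟨(b (c (a (b (a (a (l 16746120) (l 16743072)) (c (l 16743840) (l 16743648))) (a (l 16747968) (l 16738008))) (a (b (l 16737672) (l 16732008)) (b (l 16731608) (l 16726040)))) (a (a (b (l 16739152) (l 16743696)) (b (l 16743376) (l 16737488))) (a (b (l 16737128) (l 16731304)) (a (l 16729568) (l 16726472))))) (a (c (a (b (l 16738096) (l 16732008)) (b (l 16732112) (l 16726088))) (c (b (l 16734672) (l 16728504)) (b (l 16734392) (l 16728152)))) (c (b (a (l 16726192) (l 16720296)) (a (l 16720216) (l 16714400))) (a (b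 (l 16725336) (l 16719208)) (c (l 16716496) (l 16715928)))))), by decide +kernel⟩

def k38_pm_012_s : ∃ t, chk3 f_pm_012_s t 17 63 1 = true :=
  ⟨(a (b (b (a (l 14) (a (l 14) (c (l 16731680) (l 16731080)))) (l 14)) (l 14)) (b (a (c (b (a (l 16725776) (l 16719920)) (a (l 16719392) (l 16713608))) (b (c (l 16722192) (l 16721768)) (a (l 16718472) (l 16712488)))) (c (b (a (l 16714112) (l 16708352)) (a (l 16707864) (l 16702160))) (b (c (l 16710280) (l 16709648)) (c (l 16703944) (l 16703232))))) (a (a (l 14) (b (c (l 16707136) (l 16705872)) (l 14))) (c (b (a (l 16701464) (l 16695832)) (a (l 16694912) (l 16689344))) (b (c (l 16697456) (l 16696672)) (a (l 16693272) (l 16687488))))))), by decide +kernel⟩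

def k39_pm_012_s : ∃ t, chk3 f_pm_012_s t 36 28 1 = true :=
  ⟨(a (l 3) (b (l 3) (a (a (l 3) (b (l 3) (b (l 3) (c (c (b (l 306184192311) (a (l 243370295399) (c (l 16778072) (l 16776760)))) (l 165524015031)) (l 156397211879))))) (a (b (l 3) (c (c (b (b (l 3) (a (l 326585286919) (c (l 108078826807) (l 16777056)))) (c (b (a (l 74792827863) (l 16775728)) (l 16774848)) (l 16777624))) (b (l 218137362359) (l 16775664))) (b (l 187535724167) (l 16775688)))) (b (c (b (l 3) (c (b (l 3) (a (l 3) (l 158544692679))) (l 241222811767))) (l 253570842679)) (c (c (b (a (c (b (l 134922372423) (l 16775952)) (l 16777928)) (l 16775416)) (l 16773048)) (b (l 16776064) (l 16773080))) (l 16774648))))))), by decide +kernel⟩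

def k40_pm_012_s : ∃ t, chk3 f_pm_012_s t 37 28 1 = true :=
  ⟨(a (b (b (l 3) (b (a (l 3) (c (c (a (l 317458481655) (c (b (l 154786597159) (l 16776456)) (l 87140863495))) (a (l 322290319719) (l 16776872))) (l 135996120391))) (a (c (a (l 3) (c (l 304036708807) (l 308868546871))) (l 314237255815)) (c (a (c (c (b (l 139217339431) (l 16776296)) (l 78014055111)) (l 16776744)) (c (l 16774424) (l 16774432))) (l 16775640))))) (c (b (a (c (b (b (a (l 3) (a (l 228337910871) (l 16776768))) (a (l 250886488263) (l 16776048))) (a (a (b (l 182167012759) (l 16776360)) (l 16775800)) (l 16773856))) (a (b (l 290614935783) (l 16776336)) (b (l 16776560) (l 16773872)))) (c (b (a (l 16774168) (l 16771600)) (l 16770016)) (l 16771480))) (a (c (b (a (l 16773488) (l 16770928)) (c (l 16769224) (l 16769248))) (l 16770768)) (c (b (l 16767112) (l 16764176)) (l 16765720)))) (b (a (b (l 122037476215) (l 16775224)) (l 16771520)) (a (l 16770832) (l 16765832))))) (b (c (c (b (a (a (b (l 3) (a (l 157470950871) (l 16778568)))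 (b (a (l 162839661191) (l 16779288)) (l 16774760))) (b (l 16773568) (l 16770896))) (a (b (a (l 16774624) (l 16772040)) (l 16770568)) (b (l 16768184) (l 16765424)))) (b (a (b (l 147270408327) (l 30232549751)) (l 16772224)) (a (l 16771960) (l 16766808)))) (a (b (a (l 139217346375) (l 16775944)) (l 16771968)) (b (l 16772176) (l 16766816)))) (c (b (c (a (b (l 16767760) (l 16764912)) (l 16761216)) (a (l 16766376) (l 16761264))) (c (a (b (l 16762024) (l 16759120)) (l 16755496)) (a (l 16760672) (l 16755608)))) (b (a (l 16766440) (l 16761328)) (a (l 16760816) (l 16755760)))))), by decide +kernel⟩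

def k41_pm_012_s : ∃ t, chk3 f_pm_012_s t 72 58 1 = true :=
  ⟨(b (b (l 3) (a (l 3) (c (a (b (l 3) (c (c (l 305110450471) (l 307257934055)) (l 306184192151))) (c (b (a (l 330880254199) (c (b (l 202031235799) (l 16776880)) (l 117742503159))) (a (c (b (l 141364822967) (l 16776592)) (l 16776912)) (l 16775680))) (b (l 169818982567) (l 16776392)))) (a (l 312626642951) (l 88751477719))))) (b (a (b (l 3) (c (a (l 3) (a (l 3) (c (b (l 284172484711) (a (l 205252461095) (l 16776912))) (l 16777768)))) (l 276656286375))) (c (b (c (a (a (c (b (l 3) (l 180556399319)) (l 219211105079)) (c (b (l 82309021383) (l 16776256)) (l 16776696))) (l 16774712)) (a (l 111300053655) (l 16774736))) (c (a (c (a (l 16777328) (l 16775024)) (l 16775688)) (l 16773104)) (l 16774416))) (a (l 16779704) (l 16773984)))) (a (c (b (a (c (a (l 3) (l 331417125015)) (l 336785834071)) (c (a (c (b (l 223506071527) (a (l 16777456) (l 16776536))) (l 122574338663)) (l 16776304)) (l 16778600))) (c (a (a (c (b (l 3) (l 242296553479)) (l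 266455744551)) (b (a (l 249812746263) (l 16777512)) (l 16777144))) (c (l 16774952) (l 16774960))) (a (a (l 251423359959) (l 16776888)) (l 16774968)))) (a (b (l 318532225527) (l 128479923719)) (l 16775888))) (c (c (a (c (l 16773232) (l 16773248)) (l 16770736)) (l 16772008)) (l 16772072))))), by decide +kernel⟩

def k42_pm_012_s : ∃ t, chk3 f_pm_012_s t 73 58 1 = true :=
  ⟨(c (b (b (a (c (a (b (a (l 3) (c (l 213842395111) (l 193978172487))) (a (c (b (l 269140099191) (l 98415150087)) (l 155323466983)) (l 16776280))) (b (c (a (l 16776560) (l 16775240)) (l 16775912)) (l 16774336))) (a (b (l 225116685959) (l 16776784)) (l 16775144))) (c (a (l 16772552) (l 16770008)) (l 16771328))) (a (c (a (b (l 16775664) (l 16773752)) (l 16771984)) (l 16773304)) (c (a (l 16769456) (l 16766944)) (l 16768280)))) (a (c (b (a (l 16771352) (l 16768832)) (a (l 16768256) (l 16765792))) (b (l 16770160) (l 16767104))) (c (b (l 16765104) (l 16762112)) (l 16763720)))) (b (a (a (b (l 124184957527) (l 16774608)) (l 16773640))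 (l 16769904)) (a (b (l 16770264) (l 16767216)) (l 16763896)))), by decide +kernel⟩

def k43_pm_012_s : ∃ t, chk3 f_pm_012_s t 36 59 1 = true :=
  ⟨(a (c (b (c (a (b (a (a (b (a (b (a (l 197736268151) (l 16777104)) (l 16776408)) (l 16776184)) (l 16774776)) (c (l 16774344) (l 16774352))) (c (l 16772456) (l 16772472))) (a (c (l 16772880) (l 16771584)) (l 16769176))) (b (a (l 16770032) (l 16767648)) (a (l 16766864) (l 16764592)))) (a (b (a (l 16776336) (l 16772496)) (l 16770408)) (b (l 16768880) (l 16765760)))) (a (c (b (a (l 16768192) (l 16765920)) (b (l 16764576) (l 16762928))) (b (l 16767096) (l 16763792))) (c (b (l 16762648) (l 16759592)) (l 16760424)))) (b (a (b (a (l 16775064) (l 16772544)) (l 16770480)) (c (l 16767352) (l 16767392))) (a (c (l 16765488) (l 16765536)) (l 16761120)))) (c (b (a (c (b (a (l 16765272) (l 16762880)) (l 16761192)) (b (l 16764128) (l 16761224))) (c (b (l 16759304) (l 16756592)) (l 16758008))) (a (c (b (l 16758328) (l 16755496)) (l 16756880)) (c (b (l 16753600)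 (l 16750256)) (l 16752320)))) (b (a (l 16762712) (l 16758104)) (a (l 16756816) (l 16752480))))), by decide +kernel⟩

def k44_pm_012_s : ∃ t, chk3 f_pm_012_s t 37 29 1 = true :=
  ⟨(b (a (c (b (c (a (b (l 16766232) (l 16763208)) (b (l 16761216) (l 16758232))) (a (l 16764816) (l 16759856))) (c (a (b (l 16760168) (l 16757240)) (b (l 16755248) (l 16752376))) (a (l 16758856) (l 16753992)))) (b (a (l 16764976) (l 16760064)) (a (l 16759088) (l 16754280)))) (c (b (c (a (l 16754720) (l 16749712)) (a (l 16754880) (l 16749880))) (c (a (l 16748896) (l 16743968)) (a (l 16749112) (l 16744184)))) (b (a (l 16755128) (l 16750136)) (a (l 16749424) (l 16744496))))) (b (a (c (a (c (b (l 16754504) (l 16751928)) (l 16753320)) (c (l 16745800) (l 16748560))) (a (l 16753464) (l 16748744))) (c (a (c (l 16738408) (l 16743800)) (b (l 16740128) (c (l 16737256) (l 16737352)))) (a (l 16744008) (l 16738896)))) (a (c (a (c (l 16745480) (l 16747272)) (b (l 16743744) (c (l 16740320) (l 16740968)))) (a (l 16748032) (b (l 16744832)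 (l 16741920)))) (c (a (b (c (l 16739064) (l 16739696)) (l 16736648)) (c (l 16732368) (l 16732248))) (a (l 16732672) (l 16732008)))))), by decide +kernel⟩

def k45_pm_012_s : ∃ t, chk3 f_pm_012_s t 18 15 2 = true :=
  ⟨(b (a (b (a (b (a (c (b (l 16760464) (l 16757176)) (b (l 16760496) (l 16757192))) (c (b (l 16756552) (l 16753512)) (l 16754968))) (a (b (l 16755184) (a (l 16740872) (l 16749744))) (b (l 16750440) (c (l 16746936) (l 16746736))))) (b (a (b (l 16749952) (l 16746680)) (b (l 16747120) (c (l 16743912) (l 16744496)))) (b (a (c (l 16746336) (l 16746384)) (l 16741920)) (l 16738872)))) (a (b (a (b (b (l 16747768) (l 16735096)) (l 16742064)) (b (l 16732104) (l 16737960))) (a (b (l 16737144) (l 16732040)) (b (l 16733152) (l 16728152)))) (a (b (l 16737232) (b (l 16728952) (l 16724064))) (b (l 16731344) (b (l 16724560) (l 16719776)))))) (b (a (b (a (b (c (l 16741888) (l 16742536)) (l 16740048)) (c (l 16737040) (l 16736936))) (c (l 16731256) (l 16731872))) (b (c (a (l 16731584) (l 16725712))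 (l 16728200)) (c (l 16721768) (l 16720864)))) (b (a (a (l 16726568) (l 16721584)) (c (a (l 16706528) (l 16701192)) (c (l 16702904) (l 16691720)))) (b (a (a (l 16719960) (l 16715160)) (a (l 16710168) (l 16704968))) (a (a (l 16715296) (l 16710616)) (l 16713728)))))) (b (a (b (a (b (a (l 16726752) (l 16722960)) (a (l 16721280) (l 16717584))) (b (l 16722160) (l 16711696))) (a (b (a (l 16715632) (l 16712024)) (a (l 16709800) (l 16706272))) (b (l 16706272) (l 16700664)))) (b (a (a (l 16718400) (l 16713896)) (c (l 16707824) (l 16695240))) (a (b (l 16697968) (l 16692560)) (b (l 16688920) (l 16683736))))) (a (b (a (b (a (l 16703816) (l 16700344)) (a (l 16697672) (l 16694256))) (b (l 16694864) (l 16688872))) (a (b (l 16689720) (l 16693792)) (b (l 16682712) (l 16676392)))) (b (a (b (l 16686952) (l 16681144)) (b (l 16678344) (l 16672744))) (a (b (l 16675144) (l 16668944)) (b (l 16666944) (l 16660936))))))), by decide +kernel⟩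

def k46_pm_012_s : ∃ t, chk3 f_pm_012_s t 18 15 3 = true :=
  ⟨(b (a (b (a (b (a (b (l 16760544) (l 16757216)) (l 16754856)) (a (b (l 16753864) (l 16750512)) (b (l 16750168) (l 16746392)))) (b (a (l 16750912) (b (l 16748176) (l 16745040))) (a (b (l 16745944) (l 16741680)) (l 16738784)))) (a (b (a (b (l 16746400) (l 16741616)) (c (l 16718688) (l 16718232))) (a (b (l 16736448) (l 16731120)) (b (l 16731888) (l 16726632)))) (a (b (l 16724096) (l 16714112)) (b (l 16719088) (l 16719768))))) (b (a (b (a (b (l 16743584) (l 16739896)) (l 16736264)) (l 16730688)) (b (l 16727368) (l 16719328))) (a (b (c (l 16701424) (l 16700160)) (a (l 16714784) (l 16709648))) (b (c (l 16690616) (l 16710008)) (c (l 16702664) (l 16700640)))))) (a (b (a (b (b (l 16723440) (l 16715192)) (b (l 16722504) (l 16716528))) (b (b (l 16714328) (l 16708856)) (c (l 16701136) (l 16699472)))) (b (a (b (l 16693368) (a (l 16695672) (l 16691576))) (b (l 16691392) (l 16685224))) (a (b (l 16687216) (l 16680640)) (b (l 16678888) (l 16672400)))))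 (b (a (b (b (l 16704632) (l 16699328)) (c (l 16692136) (l 16689888))) (b (c (l 16692984) (l 16690576)) (c (l 16682544) (l 16679808)))) (b (a (b (l 16682344) (l 16676328)) (c (l 16671344) (l 16668328))) (a (b (l 16670128) (l 16663744)) (b (l 16660880) (l 16654656))))))), by decide +kernel⟩

def k47_pm_012_s : ∃ t, chk3 f_pm_012_s t 19 28 1 = true :=
  ⟨(a (b (a (c (b (c (a (l 16765800) (l 16762008)) (a (l 16767040) (l 16761856))) (c (a (l 16761680) (l 16756600)) (l 16759088))) (b (l 16764280) (l 16758928))) (a (c (b (l 16756792) (c (l 16751520) (l 16751288))) (l 16753496)) (c (b (l 16751624) (l 16741024)) (l 16748040)))) (a (c (b (c (a (l 16756112) (l 16751024)) (l 16753576)) (c (a (l 16750432) (l 16745368)) (l 16747976))) (b (l 16753536) (l 16748040))) (c (c (b (a (l 16745952) (l 16740904)) (a (l 16740312) (l 16735280))) (b (l 16743232) (l 16737712))) (b (l 16742792) (l 16737440))))) (b (b (a (c (c (l 16744168) (l 16743576)) (l 16742480)) (c (c (l 16734056) (l 16733224)) (l 16731680))) (a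 (c (c (l 16738856) (l 16738264)) (l 16737160)) (c (a (l 16720408) (c (l 16725784) (l 16724840))) (l 16725960)))) (b (a (c (a (l 16730400) (c (l 16730752) (l 16730160))) (l 16726616)) (c (a (c (l 16725104) (l 16724336)) (l 16718488)) (l 16719552))) (a (c (a (c (b (l 16731632) (l 16728424)) (l 16729648)) (c (l 16720168) (l 16723624))) (a (l 16729040) (l 16722728))) (c (a (b (l 16708896) (l 16715584)) (a (l 16712616) (l 16709352))) (l 16691584)))))), by decide +kernel⟩

def k48_pm_012_s : ∃ t, chk3 f_pm_012_s t 19 29 1 = true :=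
  ⟨(a (b (a (b (c (c (a (l 16744696) (l 16739680)) (l 16742328)) (l 16742488)) (c (a (c (l 16733808) (l 16739240)) (b (l 16730232) (c (l 16732152) (l 16732280)))) (a (l 16739496) (l 16733984)))) (c (b (a (c (b (l 16736072) (l 16733152)) (l 16734624)) (c (b (l 16730824) (l 16727296)) (l 16728888))) (b (c (a (l 16729704) (l 16723440)) (l 16726520)) (a (l 16715536) (l 16719592)))) (b (a (l 16734576) (l 16728656)) (a (l 16727880) (l 16700384))))) (a (b (c (a (b (c (l 16734680) (l 16734816)) (l 16731384)) (c (l 16726856) (l 16726888))) (a (l 16733112) (l 16726888))) (c (c (a (l 16726208) (l 16709480)) (l 16722920)) (l 16722568))) (a (b (c (b (l 16711840) (l 16718736)) (l 16720392)) (c (c (l 16713640) (l 16713384)) (l 16712920))) (b (c (c (l 16714120) (l 16714016)) (l 16713808)) (c (c (l 16707248) (l 16706928)) (l 16706392)))))) (b (a (c (c (b (a (l 16722888) (b (l 16718424) (l 16714512))) (a (l 16725576) (l 16708616))) (b (l 16714096) (a (l 16714952) (l 16708360)))) (b (l 16718800) (a (l 16714664)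 (l 16707912)))) (b (c (c (a (l 16710008) (l 16703536)) (l 16727168)) (a (l 16708632) (l 16701720))) (c (c (b (l 16700784) (l 16696864)) (l 16698384)) (l 16697640)))) (a (b (c (c (a (l 16707664) (l 16701160)) (l 16704192)) (a (l 16707152) (l 16700424))) (c (c (a (l 16700784) (l 16694256)) (l 16697120)) (l 16696440))) (c (b (c (a (l 16694600) (l 16687992)) (l 16690872)) (a (l 16692664) (l 16680744))) (b (l 16690192) (l 16682904)))))), by decide +kernel⟩

def k49_pm_012_s : ∃ t, chk3 f_pm_012_s t 19 30 1 = true :=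
  ⟨(b (b (a (a (c (a (c (l 16709160) (l 16719096)) (c (l 16713408) (l 16712832))) (c (l 16694408) (l 16693704))) (c (c (a (l 16707112) (l 16700736)) (a (l 16706504) (l 16700088))) (a (l 16705464) (l 16699000)))) (c (a (a (l 16699192) (l 16697888)) (c (l 16688352) (l 16677032))) (a (l 16689128) (l 16675688)))) (a (a (a (c (c (l 16702552) (l 16712040)) (l 16710360)) (c (c (l 16707024) (l 16705976)) (l 16704216))) (c (a (c (l 16700816) (l 16699736)) (l 16704400)) (c (l 16695400) (l 16694120)))) (c (a (c (l 16692656) (l 16683648)) (c (l 16671656) (l 16670432))) (a (l 16681768) (l 16668448))))) (a (a (a (b (c (b (l 16707264) (l 16703520)) (l 16702184)) (c (l 16708000) (l 16693344))) (b (c (l 16707472) (l 16696240)) (c (l 16691984) (l 16687608)))) (b (c (a (l 16704048) (l 16697880)) (c (l 16687936) (l 16686056))) (c (c (l 16694864) (l 16682240)) (c (l 16679944) (l 16677472))))) (a (c (b (c (l 16689176) (l 16677016)) (c (l 16672168) (l 16669944))) (b (l 16674272) (l 16666312))) (c (b (c (l 16665568)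 (l 16663848)) (c (l 16659344) (l 16657072))) (b (l 16661064) (l 16653376)))))), by decide +kernel⟩

def k50_pm_012_s : ∃ t, chk3 f_pm_012_s t 19 31 1 = true :=
  ⟨(b (a (c (b (a (b (l 16688400) (l 16683880)) (a (l 16678048) (l 16672408))) (a (b (l 16679152) (l 16674200)) (a (l 16668968) (l 16663592)))) (a (b (c (l 16682376) (l 16679632)) (l 16670808)) (b (l 16669672) (l 16659864)))) (a (c (b (c (l 16664944) (l 16662200)) (l 16665688)) (b (l 16657712) (l 16648328))) (c (b (c (l 16652520) (l 16649704)) (l 16653840)) (b (l 16645104) (l 16636192))))) (b (a (a (c (l 16676864) (c (l 16661552) (l 16658088))) (c (l 16656496) (l 16644056))) (c (a (l 16666896) (l 16634648)) (a (l 16627696) (l 16626488)))) (a (a (c (l 16665696) (c (l 16649968) (l 16646224))) (c (l 16656296) (c (l 16640008) (l 16635856)))) (c (a (l 16635760) (l 16625040)) (a (l 16619392) (l 16616000)))))), by decide +kernel⟩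

def k51_pm_012_s : ∃ t, chk3 f_pm_012_s t 5 4 1 = true :=
  ⟨(a (a (a (l 3) (l 2)) (l 2)) (l 2)), by decide +kernel⟩

def k52_pm_012_s : ∃ t, chk3 f_pm_012_s t 5 10 1 = true :=
  ⟨(a (a (a (l 3) (b (a (l 3) (b (l 2) (a (a (l 3) (l 16776816)) (a (a (l 16775712) (l 16774512)) (l 16772872))))) (b (a (l 3) (a (a (l 16775648) (l 16775080)) (a (a (l 16773112) (l 16771824)) (l 16769848)))) (a (a (l 3) (a (l 3) (l 16785544))) (a (a (l 16774552) (l 16771264)) (a (a (l 16769224) (l 16767880)) (l 16765776))))))) (a (b (b (l 2) (l 16762520)) (b (b (l 16759720) (l 16757056)) (c (l 16753872) (l 16752088)))) (b (l 2) (b (l 16718880) (a (l 16737024) (l 16727544)))))) (a (b (l 2) (b (l 2) (a (l 16714024) (l 2)))) (l 2))), by decide +kernel⟩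

def k53_pm_012_s : ∃ t, chk3 f_pm_012_s t 5 11 1 = true :=
  ⟨(a (a (a (a (l 3) (b (l 3) (b (c (a (l 3) (l 95193944855)) (l 148344177975)) (a (c (l 115058164487) (l 16773744)) (c (c (l 16774544) (l 16774664)) (l 16774856)))))) (b (b (a (a (l 3) (a (l 16786376) (l 16773648))) (a (a (l 16769320) (l 16766568)) (a (a (l 16764720) (l 16763376)) (l 16761256)))) (a (a (c (l 16786336) (l 16775680)) (c (l 16770272) (l 16770312))) (a (a (l 16764104) (l 16761496)) (a (a (l 16760456) (l 16759192)) (l 16757208))))) (b (a (a (c (l 16773304) (l 16773552)) (c (l 16765184) (l 16765496))) (a (a (l 16759504) (l 16757008)) (a (a (l 16756104) (l 16755504)) (l 16753608)))) (a (c (a (l 16768200) (l 16760448)) (a (l 16768960) (l 16761232))) (a (c (a (l 16755056) (l 16752640)) (l 16754256)) (a (a (l 16752016) (l 16751520)) (l 16749928))))))) (b (a (a (b (l 16753816) (l 16749752)) (b (l 16741480) (l 16716744))) (b (l 16766184) (c (l 16742144) (l 16717704)))) (b (a (c (l 16741560) (l 16740896)) (c (l 16739216) (l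 16715736))) (a (c (l 16738088) (l 16738112)) (c (l 16716072) (l 16714744)))))) (b (a (a (b (l 16725160) (l 16696128)) (b (l 16686056) (l 16676504))) (b (l 2) (a (l 16658808) (l 2)))) (a (b (a (l 16734872) (l 16670104)) (a (c (l 16692864) (l 16689736)) (l 16688680))) (b (a (l 16650952) (l 16633704)) (a (l 16645440) (l 16626776)))))), by decide +kernel⟩

def k54_pm_012_s : ∃ t, chk3 f_pm_012_s t 40 6 1 = true :=
  ⟨(b (a (b (c (b (a (l 3) (l 129016805559)) (c (a (l 125795578679) (l 16774552)) (a (l 16774584) (l 16774672)))) (b (l 150491645831) (l 65666047287))) (c (b (a (c (l 16773704) (l 16773872)) (l 16768392)) (a (l 16767040) (l 16761584))) (b (l 16771392) (l 16764656)))) (a (c (b (b (l 16774904) (l 16769144)) (b (l 16762808) (l 16756120))) (b (b (l 16775128) (l 16769536)) (l 16760096))) (c (b (b (l 16769272) (l 16763408)) (b (l 16757224) (l 16750712))) (b (l 16766920) (l 16754816))))) (a (b (b (c (a (l 16759768) (l 16754400)) (l 16757552)) (c (a (l 16752240) (l 16746936)) (l 16749472)))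 (b (c (a (l 16743392) (l 16738360)) (l 16739936)) (c (b (l 16723104) (a (l 16731120) (l 16725776))) (b (l 16731984) (l 16726328))))) (b (b (c (a (l 16749072) (l 16743832)) (l 16747280)) (c (a (l 16741728) (l 16736664)) (l 16739448))) (b (c (a (l 16722864) (b (l 16730664) (l 16725608))) (a (l 16732320) (l 16727040))) (a (c (b (l 16725744) (l 16719832)) (l 16720600)) (b (l 16718936) (l 16717528))))))), by decide +kernel⟩

def k55_pm_012_s : ∃ t, chk3 f_pm_012_s t 41 6 1 = true :=
  ⟨(a (b (a (c (b (b (l 16762928) (l 16757344)) (b (l 16751448) (l 16745224))) (b (l 16761384) (l 16749552))) (c (b (b (l 16755720) (l 16750696)) (b (l 16745360) (l 16739704))) (b (l 16754912) (l 16744312)))) (b (a (b (c (l 16738640) (l 16739552)) (c (l 16731944) (l 16731752))) (c (b (l 16733792) (c (l 16726448) (l 16726432))) (b (l 16734368) (l 16726120)))) (b (c (a (b (l 16725200) (l 16719712)) (l 16716400)) (a (l 16721232) (l 16714984))) (c (c (l 16707792) (l 16706616)) (l 16704520))))) (b (a (b (a (b (l 16751424)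 (l 16747200)) (b (l 16749176) (l 16745136))) (a (b (l 16742664) (l 16736944)) (b (l 16740336) (l 16734216)))) (a (a (b (c (l 16741376) (l 16746792)) (b (l 16738320) (l 16732112))) (b (c (l 16744552) (l 16745472)) (b (l 16736976) (l 16730608)))) (b (b (l 16745656) (c (l 16750672) (l 16740936))) (b (c (l 16734680) (l 16735120)) (l 16728304))))) (a (b (b (a (a (l 16730920) (l 16729488)) (l 16727240)) (l 16720192)) (b (l 16714480) (b (l 16699456) (l 16692336)))) (c (b (b (a (l 16724080) (l 16699928)) (a (l 16715544) (l 16704256))) (b (a (l 16704832) (l 16722176)) (a (l 16712928) (c (l 16709896) (l 16687360))))) (b (b (l 16722184) (l 16686688)) (b (a (l 16702944) (l 16699160)) (a (l 16688728) (l 16684808)))))))), by decide +kernel⟩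

def k56_pm_012_s : ∃ t, chk3 f_pm_012_s t 21 6 1 = true :=
  ⟨(b (a (c (b (b (l 16733688) (l 16749560)) (b (l 16722648) (a (l 16721376) (l 16710512)))) (b (b (l 16734056) (l 16728976)) (l 16740136))) (b (b (c (l 16712432) (l 16711888)) (b (l 16729512) (l 16726752))) (b (a (l 16706392) (l 16716744)) (l 16725416)))) (b (a (b (b (l 16730928) (l 16726744)) (b (l 16722192) (l 16722288))) (b (c (l 16686656) (l 16685352)) (c (l 16677608) (l 16675720)))) (b (a (c (b (l 16691328) (l 16685264)) (l 16686000)) (c (l 16666480) (l 16663656))) (a (c (b (l 16678688) (l 16671576)) (l 16713344)) (c (l 16674280) (l 16649168)))))), by decide +kernel⟩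

def k57_pm_012_s : ∃ t, chk3 f_pm_012_s t 11 6 1 = true :=
  ⟨(b (b (a (a (b (l 16710448) (l 16706472)) (b (l 16665776) (l 16663160))) (a (b (l 16642736) (l 16639944)) (b (l 16621048) (l 16617472)))) (a (b (a (c (l 16680328) (l 16679272)) (l 16679424)) (a (c (l 16673488) (l 16672184)) (c (l 16652744) (l 16650864)))) (a (b (l 16636552) (l 16630896)) (b (l 16613888) (l 16609528))))) (b (a (a (b (l 16706528) (l 16686632)) (b (c (l 16645000) (l 16642832)) (l 16634224))) (a (b (c (l 16624736) (l 16621984)) (c (l 16615656) (l 16612448))) (b (l 16602960) (l 16614944)))) (b (a (c (a (l 16645152) (l 16624392)) (l 16652224)) (a (l 16602088) (c (l 16584760) (l 16580136)))) (a (c (a (l 16631952) (l 16611152)) (a (l 16627336) (l 16606080))) (c (l 16623032) (l 16575328)))))), by decide +kernel⟩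

def k58_pm_012_s : ∃ t, chk3 f_pm_012_s t 20 14 1 = true :=
  ⟨(a (b (b (a (c (b (a (l 16723704) (l 16719648)) (a (l 16719208) (l 16697032))) (b (l 16720032) (l 16713200))) (c (b (l 16710032) (a (l 16706264) (l 16699712))) (b (l 16706936) (l 16699616)))) (a (c (a (b (l 16722488) (l 16704440)) (b (l 16705472) (l 16697848))) (b (l 16706032) (l 16698696))) (c (b (l 16716528) (l 16708792)) (l 16709392)))) (b (c (a (c (b (l 16704200) (b (l 16687632) (l 16683632))) (b (l 16692800) (l 16684904))) (c (b (l 16680464) (l 16693216)) (b (l 16679184) (l 16671176)))) (a (b (l 16691256) (l 16683688)) (b (l 16677088) (l 16669472)))) (c (c (a (b (l 16688472) (l 16670976)) (b (l 16685456) (l 16657336))) (a (b (l 16677328) (l 16670232)) (b (l 16663528) (l 16656368)))) (a (b (l 16676288) (l 16669064)) (b (l 16662040) (l 16654872)))))) (a (b (b (a (b (l 16719624) (l 16712248)) (c (l 16710984) (l 16686080))) (c (b (l 16682032) (l 16674136)) (l 16674192))) (b (c (b (l 16686976) (c (l 16658472) (l 16657064)))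 (b (l 16662584) (l 16654824))) (c (b (c (l 16650568) (l 16649304)) (c (l 16664304) (l 16642080))) (b (l 16647352) (l 16640160))))) (b (b (a (c (l 16683048) (l 16678872)) (a (c (l 16677376) (l 16673008)) (c (b (l 16677216) (l 16669496)) (l 16668896)))) (a (c (l 16688432) (l 16663136)) (a (c (l 16661544) (l 16657032)) (c (b (l 16661488) (l 16653248)) (l 16652728))))) (b (a (c (b (l 16655168) (l 16646832)) (l 16647280)) (c (a (b (l 16649120) (l 16640712)) (b (l 16644832) (l 16636360))) (a (l 16640984) (l 16636536)))) (c (a (b (l 16638912) (l 16631576)) (a (b (l 16632736) (l 16625360)) (b (l 16628336) (l 16620920)))) (a (l 16632160) (a (l 16625752) (l 16621208)))))))), by decide +kernel⟩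

def k59_pm_012_s : ∃ t, chk3 f_pm_012_s t 21 14 1 = true :=
  ⟨(a (b (b (c (a (l 16686784) (l 16654560)) (l 16676296)) (c (b (l 16647896) (l 16639448)) (l 16638520))) (b (c (b (l 16630848) (l 16622216)) (l 16621824)) (c (b (l 16614048) (l 16606512)) (l 16606064)))) (b (b (c (b (l 16642168) (l 16634048)) (l 16632624)) (b (l 16643704) (l 16645408))) (b (b (l 16625976) (l 16619768)) (c (b (l 16590472) (l 16582696)) (l 16581112))))), by decide +kernel⟩

def k60_pm_012_s : ∃ t, chk3 f_pm_012_s t 20 30 1 = true :=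
  ⟨(a (b (c (a (b (c (l 16664440) (l 16663464)) (c (l 16658224) (l 16656896))) (b (c (l 16650728) (l 16649584)) (c (l 16644488) (l 16643032)))) (a (b (l 16661928) (l 16654784)) (b (l 16647800) (l 16640744)))) (c (a (b (c (l 16652176) (l 16650392)) (c (l 16645976) (l 16643680))) (b (c (l 16638448) (l 16636576)) (c (l 16632296) (l 16629944)))) (a (b (l 16647536) (l 16639968)) (b (l 16633608) (l 16626192))))) (a (c (b (b (c (l 16636592) (l 16635232)) (c (l 16630288) (l 16628672))) (b (c (l 16624224) (l 16622240)) (c (l 16618088) (l 16615664)))) (b (b (l 16633152) (l 16626176)) (b (l 16619144) (l 16611848)))) (c (a (b (b (l 16624728) (l 16618240)) (b (l 16611976) (l 16605640))) (b (a (b (l 16618456) (l 16611936)) (b (l 16613992) (l 16607432))) (a (b (l 16605656) (l 16599328)) (b (l 16601136) (l 16594800))))) (a (b (l 16618112) (l 16625080)) (b (a (l 16611688) (l 16607080)) (a (l 16597744) (l 16593192))))))), by decide +kernel⟩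

def k61_pm_012_s : ∃ t, chk3 f_pm_012_s t 20 31 1 = true :=
  ⟨(a (b (c (a (b (c (l 16639472) (l 16636608)) (c (l 16632360) (l 16628952))) (b (c (l 16625824) (l 16622952)) (c (l 16619040) (l 16615608)))) (a (b (l 16631984) (l 16623424)) (b (l 16618352) (l 16610088)))) (a (b (c (l 16622600) (l 16614200)) (c (l 16613584) (l 16604176))) (b (c (c (l 16611656) (l 16607664)) (l 16601232)) (c (l 16622296) (l 16591720))))) (a (b (c (b (c (l 16611680) (l 16608776)) (c (l 16604952) (l 16601528))) (b (l 16604168) (l 16596072))) (c (b (a (l 16599512) (l 16592384)) (a (l 16591496) (l 16584624))) (b (l 16587544) (l 16578432)))) (a (b (c (b (l 16599048) (l 16592144)) (l 16609960)) (c (b (l 16584904) (l 16577296)) (b (l 16576616) (l 16567784)))) (b (a (c (b (l 16592752) (l 16585904)) (l 16582752)) (c (b (l 16588232) (l 16581400)) (l 16578272))) (a (c (b (l 16578728) (l 16571184)) (l 16587136)) (c (b (l 16574264) (l 16566776)) (b (l 16566120) (l 16557456)))))))), by decide +kernel⟩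

def k62_pm_012_s : ∃ t, chk3 f_pm_012_s t 21 15 1 = true :=
  ⟨(b (b (a (c (b (c (l 16600496) (l 16598408)) (c (l 16593904) (l 16591672))) (b (l 16595272) (l 16588312))) (c (b (l 16575440) (l 16568584)) (l 16566184))) (a (c (b (c (l 16587640) (l 16585144)) (l 16585184)) (b (l 16581368) (l 16574336))) (c (b (c (l 16563528) (l 16560392)) (c (l 16557032) (l 16553664))) (b (l 16555624) (l 16548520))))) (b (a (c (b (l 16573328) (l 16566488)) (b (l 16566936) (l 16559192))) (c (b (c (l 16550432) (l 16546768)) (c (l 16543592) (l 16539640))) (b (l 16541136) (l 16533552)))) (a (c (b (c (l 16561376) (l 16557360)) (a (l 16558288) (l 16545656))) (b (l 16551088) (l 16542576))) (c (b (c (l 16536624) (l 16532296)) (c (l 16529448) (l 16524688))) (b (l 16525584) (l 16517264)))))), by decide +kernel⟩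

def k63_pm_012_s : ∃ t, chk3 f_pm_012_s t 11 7 1 = true :=
  ⟨(b (b (a (a (b (c (l 16616824) (l 16610944)) (c (l 16599712) (l 16593248))) (b (c (l 16596024) (l 16589672)) (c (l 16579072) (l 16572160)))) (b (c (l 16586920) (l 16558912)) (c (l 16570000) (l 16541416)))) (a (a (b (c (l 16602472) (l 16575144)) (c (b (l 16568144) (l 16560088)) (l 16557640))) (b (c (l 16581568) (l 16553664)) (c (b (l 16547128) (l 16538816)) (l 16535784)))) (b (c (a (l 16540576) (l 16521000)) (l 16523152)) (c (a (b (l 16527048) (l 16518592)) (l 16503288)) (a (l 16514968) (l 16495144)))))) (a (b (b (c (a (b (l 16552584) (l 16545512)) (b (l 16530968) (l 16523640))) (a (l 16541960) (l 16519216))) (a (c (b (l 16538720) (l 16531944)) (l 16527256)) (c (b (l 16516624) (l 16509648)) (l 16503808)))) (b (a (c (b (c (l 16527128) (l 16522824)) (c (l 16520144) (l 16515584))) (b (l 16516200) (l 16508568))) (c (b (l 16502544) (l 16495288)) (l 16488408))) (a (c (b (c (l 16513032) (l 16508168)) (c (l 16505672) (l 16500512))) (b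 (l 16500648) (l 16492504))) (c (b (c (l 16490576) (l 16485072)) (c (l 16483096) (l 16477336))) (b (l 16476568) (l 16468400)))))) (b (b (c (a (b (l 16510648) (l 16503080)) (b (l 16491256) (l 16483568))) (a (l 16498056) (l 16477936))) (c (a (b (l 16495752) (l 16488544)) (b (l 16476160) (l 16468744))) (a (l 16481816) (l 16461400)))) (b (c (a (b (l 16481240) (l 16473808)) (b (l 16461152) (l 16453512))) (a (l 16465760) (l 16444560))) (a (c (b (l 16466240) (l 16458512)) (b (l 16453520) (l 16445200))) (c (b (l 16445768) (l 6)) (l 16448528))))))), by decide +kernel⟩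

def k64_pm_012_s : ∃ t, chk3 f_pm_012_s t 3 1 1 = true :=
  ⟨(a (b (b (l 2) (b (l 2) (a (b (l 2) (a (b (l 2) (l 16644128)) (l 2))) (l 2)))) (b (a (b (b (a (b (a (l 16602896) (l 16586608)) (a (l 16596384) (l 16578744))) (b (l 2) (l 16597584))) (a (b (a (l 16592016) (l 16571544)) (a (l 16587480) (l 16566280))) (b (a (l 16554440) (l 16539160)) (a (l 16546480) (l 16529952))))) (b (a (b (a (l 16582152) (l 16560744)) (c (l 16587720) (l 16561632))) (b (a (l 16540232) (l 16521160)) (a (l 16533216) (l 16513424)))) (a (b (c (l 16598024) (l 16550456)) (c (a (l 16552416) (l 16533824)) (l 16536368))) (b (a (l 16524096) (l 16504056)) (c (l 16506488) (l 16498008)))))) (a (a (b (b (l 2) (b (l 2) (l 16515200))) (b (b (l 16505288) (l 16495088)) (b (l 16485000) (l 6)))) (b (l 2) (l 6))) (l 6))) (b (a (b (a (b (a (l 16533200) (c (l 16518800) (l 16510568))) (c (l 16510936) (l 16502352))) (b (c (l 16512920) (l 16482640)) (c (l 16496352) (l 16465752)))) (a (b (c (l 16513736) (l 16484184)) (c (a (l 16484368) (l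 16466032)) (l 16466312))) (b (a (l 16461072) (l 6)) (l 6)))) (l 6)) (a (b (a (b (c (a (l 16468608) (l 16450384)) (l 16449432)) (a (c (b (l 16457496) (l 16449976)) (l 16442000)) (l 6))) (l 6)) (l 6)) (l 6))))) (b (l 2) (l 6))), by decide +kernel⟩

theorem s65_pm_012_s : ∃ t, chk3 f_pm_012_s t 20 15 1 = true := ex3_b k60_pm_012_s k61_pm_012_s

theorem s66_pm_012_s : ∃ t, chk3 f_pm_012_s t 10 15 1 = true := ex3_a s65_pm_012_s k62_pm_012_s

theorem s67_pm_012_s : ∃ t, chk3 f_pm_012_s t 10 14 1 = true := ex3_a k58_pm_012_s k59_pm_012_s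

theorem s68_pm_012_s : ∃ t, chk3 f_pm_012_s t 10 7 1 = true := ex3_b s67_pm_012_s s66_pm_012_s

theorem s69_pm_012_s : ∃ t, chk3 f_pm_012_s t 5 7 1 = true := ex3_a s68_pm_012_s k63_pm_012_s

theorem s70_pm_012_s : ∃ t, chk3 f_pm_012_s t 20 6 1 = true := ex3_a k54_pm_012_s k55_pm_012_s

theorem s71_pm_012_s : ∃ t, chk3 f_pm_012_s t 10 6 1 = true := ex3_a s70_pm_012_s k56_pm_012_s

theorem s72_pm_012_s : ∃ t, chk3 f_pm_012_s t 5 6 1 = true := ex3_a s71_pm_012_s k57_pm_012_s

theorem s73_pm_012_s : ∃ t, chk3 f_pm_012_s t 5 3 1 = true := ex3_b s72_pm_012_s s69_pm_012_s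

theorem s74_pm_012_s : ∃ t, chk3 f_pm_012_s t 5 5 1 = true := ex3_b k52_pm_012_s k53_pm_012_s

theorem s75_pm_012_s : ∃ t, chk3 f_pm_012_s t 5 2 1 = true := ex3_b k51_pm_012_s s74_pm_012_s

theorem s76_pm_012_s : ∃ t, chk3 f_pm_012_s t 5 1 1 = true := ex3_b s75_pm_012_s s73_pm_012_s

theorem s77_pm_012_s : ∃ t, chk3 f_pm_012_s t 19 15 1 = true := ex3_b k49_pm_012_s k50_pm_012_s

theorem s78_pm_012_s : ∃ t, chk3 f_pm_012_s t 19 14 1 = true := ex3_b k47_pm_012_s k48_pm_012_s

theorem s79_pm_012_s : ∃ t, chk3 f_pm_012_s t 19 7 1 = true := ex3_b s78_pm_012_s s77_pm_012_s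

theorem s80_pm_012_s : ∃ t, chk3 f_pm_012_s t 18 15 1 = true := ex3_c k45_pm_012_s k46_pm_012_s

theorem s81_pm_012_s : ∃ t, chk3 f_pm_012_s t 36 58 1 = true := ex3_a k41_pm_012_s k42_pm_012_s

theorem s82_pm_012_s : ∃ t, chk3 f_pm_012_s t 36 29 1 = true := ex3_b s81_pm_012_s k43_pm_012_s

theorem s83_pm_012_s : ∃ t, chk3 f_pm_012_s t 18 29 1 = true := ex3_a s82_pm_012_s k44_pm_012_s

theorem s84_pm_012_s : ∃ t, chk3 f_pm_012_s t 18 28 1 = true := ex3_a k39_pm_012_s k40_pm_012_s

theorem s85_pm_012_s : ∃ t, chk3 f_pm_012_s t 18 14 1 = true := ex3_b s84_pm_012_s s83_pm_012_s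

theorem s86_pm_012_s : ∃ t, chk3 f_pm_012_s t 18 7 1 = true := ex3_b s85_pm_012_s s80_pm_012_s

theorem s87_pm_012_s : ∃ t, chk3 f_pm_012_s t 9 7 1 = true := ex3_a s86_pm_012_s s79_pm_012_s

theorem s88_pm_012_s : ∃ t, chk3 f_pm_012_s t 17 62 1 = true := ex3_a k36_pm_012_s k37_pm_012_s

theorem s89_pm_012_s : ∃ t, chk3 f_pm_012_s t 17 31 1 = true := ex3_b s88_pm_012_s k38_pm_012_s

theorem s90_pm_012_s : ∃ t, chk3 f_pm_012_s t 70 120 1 = true := ex3_a k31_pm_012_s k32_pm_012_s

theorem s91_pm_012_s : ∃ t, chk3 f_pm_012_s t 70 60 1 = true := ex3_b s90_pm_012_s k33_pm_012_s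

theorem s92_pm_012_s : ∃ t, chk3 f_pm_012_s t 35 60 1 = true := ex3_a s91_pm_012_s k34_pm_012_s

theorem s93_pm_012_s : ∃ t, chk3 f_pm_012_s t 35 30 1 = true := ex3_b s92_pm_012_s k35_pm_012_s

theorem s94_pm_012_s : ∃ t, chk3 f_pm_012_s t 69 122 1 = true := ex3_a k28_pm_012_s k29_pm_012_s

theorem s95_pm_012_s : ∃ t, chk3 f_pm_012_s t 69 61 1 = true := ex3_b s94_pm_012_s k30_pm_012_s

theorem s96_pm_012_s : ∃ t, chk3 f_pm_012_s t 136 246 1 = true := ex3_a k24_pm_012_s k25_pm_012_s

theorem s97_pm_012_s : ∃ t, chk3 f_pm_012_s t 136 123 1 = true := ex3_b s96_pm_012_s k26_pm_012_s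

theorem s98_pm_012_s : ∃ t, chk3 f_pm_012_s t 68 123 1 = true := ex3_a s97_pm_012_s k27_pm_012_s

theorem s99_pm_012_s : ∃ t, chk3 f_pm_012_s t 137 245 1 = true := ex3_a k22_pm_012_s k23_pm_012_s

theorem s100_pm_012_s : ∃ t, chk3 f_pm_012_s t 137 122 1 = true := ex3_b k21_pm_012_s s99_pm_012_s

theorem s101_pm_012_s : ∃ t, chk3 f_pm_012_s t 68 122 1 = true := ex3_a k20_pm_012_s s100_pm_012_s

theorem s102_pm_012_s : ∃ t, chk3 f_pm_012_s t 68 61 1 = true := ex3_b s101_pm_012_s s98_pm_012_s

theorem s103_pm_012_s : ∃ t, chk3 f_pm_012_s t 34 61 1 = true := ex3_a s102_pm_012_s s95_pm_012_s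

theorem s104_pm_012_s : ∃ t, chk3 f_pm_012_s t 139 121 1 = true := ex3_a k18_pm_012_s k19_pm_012_s

theorem s105_pm_012_s : ∃ t, chk3 f_pm_012_s t 69 121 1 = true := ex3_a k17_pm_012_s s104_pm_012_s

theorem s106_pm_012_s : ∃ t, chk3 f_pm_012_s t 69 60 1 = true := ex3_b k16_pm_012_s s105_pm_012_s

theorem s107_pm_012_s : ∃ t, chk3 f_pm_012_s t 34 60 1 = true := ex3_a k15_pm_012_s s106_pm_012_s

theorem s108_pm_012_s : ∃ t, chk3 f_pm_012_s t 34 30 1 = true := ex3_b s107_pm_012_s s103_pm_012_s

theorem s109_pm_012_s : ∃ t, chk3 f_pm_012_s t 17 30 1 = true := ex3_a s108_pm_012_s s93_pm_012_s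

theorem s110_pm_012_s : ∃ t, chk3 f_pm_012_s t 17 15 1 = true := ex3_b s109_pm_012_s s89_pm_012_s

theorem s111_pm_012_s : ∃ t, chk3 f_pm_012_s t 16 30 1 = true := ex3_a k12_pm_012_s k13_pm_012_s

theorem s112_pm_012_s : ∃ t, chk3 f_pm_012_s t 16 15 1 = true := ex3_b s111_pm_012_s k14_pm_012_s

theorem s113_pm_012_s : ∃ t, chk3 f_pm_012_s t 8 15 1 = true := ex3_a s112_pm_012_s s110_pm_012_s

theorem s114_pm_012_s : ∃ t, chk3 f_pm_012_s t 71 59 1 = true := ex3_b k10_pm_012_s k11_pm_012_s

theorem s115_pm_012_s : ∃ t, chk3 f_pm_012_s t 35 59 1 = true := ex3_a k9_pm_012_s s114_pm_012_s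

theorem s116_pm_012_s : ∃ t, chk3 f_pm_012_s t 35 29 1 = true := ex3_b k8_pm_012_s s115_pm_012_s

theorem s117_pm_012_s : ∃ t, chk3 f_pm_012_s t 17 29 1 = true := ex3_a k7_pm_012_s s116_pm_012_s

theorem s118_pm_012_s : ∃ t, chk3 f_pm_012_s t 17 14 1 = true := ex3_b k6_pm_012_s s117_pm_012_s

theorem s119_pm_012_s : ∃ t, chk3 f_pm_012_s t 8 14 1 = true := ex3_a k5_pm_012_s s118_pm_012_s

theorem s120_pm_012_s : ∃ t, chk3 f_pm_012_s t 8 7 1 = true := ex3_b s119_pm_012_s s113_pm_012_s

theorem s121_pm_012_s : ∃ t, chk3 f_pm_012_s t 4 7 1 = true := ex3_a s120_pm_012_s s87_pm_012_s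

theorem s122_pm_012_s : ∃ t, chk3 f_pm_012_s t 19 6 1 = true := ex3_b k3_pm_012_s k4_pm_012_s

theorem s123_pm_012_s : ∃ t, chk3 f_pm_012_s t 9 6 1 = true := ex3_a k2_pm_012_s s122_pm_012_s

theorem s124_pm_012_s : ∃ t, chk3 f_pm_012_s t 4 6 1 = true := ex3_a k1_pm_012_s s123_pm_012_s

theorem s125_pm_012_s : ∃ t, chk3 f_pm_012_s t 4 3 1 = true := ex3_b s124_pm_012_s s121_pm_012_s

theorem s126_pm_012_s : ∃ t, chk3 f_pm_012_s t 4 1 1 = true := ex3_b k0_pm_012_s s125_pm_012_s

theorem s127_pm_012_s : ∃ t, chk3 f_pm_012_s t 2 1 1 = true := ex3_a s126_pm_012_s s76_pm_012_s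

theorem s128_pm_012_s : ∃ t, chk3 f_pm_012_s t 1 1 1 = true := ex3_a s127_pm_012_s k64_pm_012_s

theorem c_pm_012_s : CertNE 0 536870912 536870912 536870912 818728140 40265320 3 eng mog cd0q0 cd0q1 pd2 true true false .pnp 0 1 2
    ndB0q0 ndB0q1 pcB2 cut_pm_012_s Ext.none :=
  certNE2 (fam := true) (s1 := true) (s2 := false) (a := 0) (b := 1) (c := 2) (cn := .pnp) (n1 := ndB0q0) (n2 := ndB0q1) (pc := pcB2) (cut := cut_pm_012_s) (xt := Ext.none) (P1 := 0) (W1 := 536870912) (P2 := 536870912) (W2 := 536870912) (P3 := 818728140) (W3 := 40265320) (N0 := 3) (En := eng) (mo := mog) (C1 := cd0q0) (C2 := cd0q1) (C3 := pd2)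
    rfl (fun _ => rfl) s128_pm_012_s

noncomputable def cut_pm_012_t : Cut := Cut.of [[⟨3, 0, 0, 2845415833⟩], [⟨0, 0, 0, 67108864⟩, ⟨1, 1, 0, 67108864⟩, ⟨2, 1, 0, 67108864⟩]]

noncomputable def f_pm_012_t : ℕ → ℕ → ℕ → ℕ → Bool := onCell 0 536870912 536870912 536870912 818728140 40265320
    (rowNE 3 eng mog cd0q0 cd0q1 pd2 0 true true false .pnp 0 1 2 (qsf 0 536870912 536870912 536870912 2) ndB0q0 ndB0q1 pcB2 cut_pm_012_t Ext.none)

def k0_pm_012_t : ∃ t, chk3 f_pm_012_t t 1 1 1 = true :=
  ⟨(l 6), by decide +kernel⟩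

theorem c_pm_012_t : CertNE 0 536870912 536870912 536870912 818728140 40265320 3 eng mog cd0q0 cd0q1 pd2 true true false .pnp 0 1 2
    ndB0q0 ndB0q1 pcB2 cut_pm_012_t Ext.none :=
  certNE0 (fam := true) (s1 := true) (s2 := false) (a := 0) (b := 1) (c := 2) (cn := .pnp) (n1 := ndB0q0) (n2 := ndB0q1) (pc := pcB2) (cut := cut_pm_012_t) (xt := Ext.none) (P1 := 0) (W1 := 536870912) (P2 := 536870912) (W2 := 536870912) (P3 := 818728140) (W3 := 40265320) (N0 := 3) (En := eng) (mo := mog) (C1 := cd0q0) (C2 := cd0q1) (C3 := pd2)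
    rfl k0_pm_012_t

noncomputable def cut_pm_022_s : Cut := Cut.of [[⟨4, 0, 0, 1449551462⟩], [⟨0, 0, 0, 67108864⟩, ⟨1, 1, 0, 67108864⟩, ⟨2, 1, 0, 67108864⟩]]

noncomputable def f_pm_022_s : ℕ → ℕ → ℕ → ℕ → Bool := onCell 1073741824 536870912 0 536870912 818728140 40265320
    (rowNE 3 eng mog cd0q0 cd0q2 pd2 2 true true false .pp 0 2 2 (qsf 0 536870912 0 536870912 2) ndB0q0 ndB0q2 pcB2 cut_pm_022_s Ext.none)

def k0_pm_022_s : ∃ t, chk3 f_pm_022_s t 8 1 1 = true :=
  ⟨(b (l 1) (b (l 1) (b (a (l 1) (b (a (l 1) (b (l 1) (a (l 1) (b (c (l 16574520) (l 16558152)) (a (l 14) (l 16568912)))))) (a (l 14) (a (l 14) (a (l 14) (b (b (l 16592592) (l 16605656)) (b (l 16618640) (l 16631544)))))))) (a (l 14) (a (l 14) (a (l 14) (a (l 14) (b (b (b (l 16644440) (l 16657376)) (l 16640240)) (b (l 16680880) (b (l 16694040) (c (l 16688736) (l 16687672)))))))))))), by decide +kernel⟩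

def k1_pm_022_s : ∃ t, chk3 f_pm_022_s t 9 2 1 = true :=
  ⟨(l 6), by decide +kernel⟩

def k2_pm_022_s : ∃ t, chk3 f_pm_022_s t 9 6 1 = true :=
  ⟨(a (b (l 1) (b (a (l 1) (b (a (l 1) (b (l 1) (l 16456816))) (a (b (l 1) (l 16469888)) (b (l 56404387639) (l 128881985543))))) (a (a (l 1) (b (c (l 16498208) (l 16480312)) (b (c (l 16516672) (l 16499832)) (a (l 16521888) (l 16520728))))) (b (a (b (l 26876513431) (l 98280368759)) (b (l 16480784) (l 16492680))) (a (b (l 16506520) (l 16519056)) (l 16529232)))))) (b (l 6) (b (a (b (a (b (l 6) (l 16467128)) (l 6)) (a (b (l 16457120) (l 16468320)) (l 16462184))) (l 6)) (a (b (a (l 16485560) (l 16484440)) (a (l 16509056) (l 16507344))) (b (l 16482888) (l 16504976)))))), by decide +kernel⟩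

def k3_pm_022_s : ∃ t, chk3 f_pm_022_s t 9 14 1 = true :=
  ⟨(a (b (a (b (a (b (c (l 16545272) (l 16528544)) (a (l 16551320) (l 16549704))) (b (c (l 16541928) (l 16526392)) (l 16547352))) (a (b (c (l 16571232) (l 16555936)) (c (l 16583864) (l 16569480))) (b (l 16560232) (l 16572944)))) (b (a (b (l 16531720) (l 16544392)) (l 16535488)) (a (l 16563160) (l 16559856)))) (a (b (a (c (l 16602480) (l 16589704)) (c (l 16597416) (l 16585912))) (a (b (l 16615328) (l 16627984)) (l 16606000))) (b (a (l 16587592) (l 16583616)) (a (l 16611576) (l 16606920))))) (b (a (b (a (l 16533016) (l 16530696)) (a (l 16556744) (l 16553800))) (b (l 16548432) (l 16570672))) (a (b (a (l 16579856) (l 16576304)) (a (l 16602520) (l 16598352))) (b (l 16550376) (a (l 16594416) (l 16590696)))))), by decide +kernel⟩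

def k4_pm_022_s : ∃ t, chk3 f_pm_022_s t 9 15 1 = true :=
  ⟨(a (b (a (b (a (c (l 16650704) (l 16643136)) (l 16646312)) (b (a (l 16666048) (l 16659504)) (c (l 16655928) (l 16652608)))) (b (c (l 16634880) (l 16630424)) (b (l 16650312) (l 16641152)))) (a (b (a (b (l 16691632) (l 16693248)) (l 16664968)) (b (a (a (l 16689576) (l 16685992)) (l 16690920)) (a (c (b (l 16684112) (l 16681432)) (b (l 16682672) (l 16679120))) (c (l 16675944) (l 16672760))))) (b (a (l 16659984) (b (l 16670672) (l 16670296))) (b (c (a (l 16673928) (l 16666288)) (a (l 16671312) (l 16662576))) (a (c (l 16668624) (l 16643272)) (c (l 16660792) (l 16655312))))))) (b (b (a (c (l 16623696) (l 16621424)) (b (l 16587256) (l 16597752))) (a (a (l 16647520) (l 16642056)) (c (l 16633408) (l 16635944)))) (a (b (a (b (l 16664368) (l 16661888)) (b (l 16658456) (l 16653072))) (c (b (a (l 16658160) (l 16649464)) (a (l 16652416) (l 16643408))) (a (b (l 16653464) (l 16645968)) (b (l 16643920) (l 16636144))))) (b (c (b (l 16646696) (l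 16641320)) (l 16597920)) (a (c (b (l 16640208) (l 16633808)) (b (l 16633888) (l 16625808))) (c (b (l 16630368) (l 16623568)) (b (l 16623368) (l 16614944)))))))), by decide +kernel⟩

def k5_pm_022_s : ∃ t, chk3 f_pm_022_s t 5 2 1 = true :=
  ⟨(l 6), by decide +kernel⟩

def k6_pm_022_s : ∃ t, chk3 f_pm_022_s t 5 6 1 = true :=
  ⟨(a (b (l 6) (a (a (b (l 6) (b (l 6) (l 16502208))) (l 6)) (l 6))) (l 6)), by decide +kernel⟩

def k7_pm_022_s : ∃ t, chk3 f_pm_022_s t 10 7 1 = true :=
  ⟨(b (a (a (b (b (c (l 16527168) (l 16520088)) (a (l 16545992) (l 16543736))) (b (c (l 16567056) (l 16563880)) (c (l 16586168) (l 16585376)))) (b (b (a (l 16521224) (l 6)) (a (l 16541792) (a (l 16540640) (a (l 16540384) (l 16540504))))) (a (b (l 16561864) (l 16581688)) (a (b (l 16560592) (l 16580304)) (a (b (l 16560336) (l 16580048)) (b (l 16560464) (l 16580192))))))) (a (b (l 6) (b (l 16559032) (l 16578400))) (b (l 6) (c (l 16565112) (l 16567328))))) (b (c (a (a (b (l 16584112) (l 16624200)) (a (l 16588784) (a (l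 16608048) (b (l 16598152) (l 16605064))))) (b (l 16592552) (a (l 16590408) (l 16568208)))) (a (a (b (l 16606800) (l 16628384)) (a (l 16613672) (a (l 16612304) (l 16566920)))) (b (l 16591104) (l 16545384)))) (a (a (a (b (c (l 16629496) (l 16624288)) (b (l 16637208) (c (l 16612632) (l 16603544)))) (b (c (l 16618960) (l 16613280)) (b (l 16625800) (c (l 16600928) (l 16591536))))) (a (c (b (l 16607600) (b (l 16596544) (l 16588280))) (b (l 16601592) (b (l 16588424) (l 16578760)))) (a (b (b (l 16599280) (l 16591336)) (c (l 16603288) (l 16573520))) (b (a (l 16548152) (c (l 16589168) (l 16583072))) (a (c (l 16576576) (l 16567840)) (c (b (l 16576864) (l 16567728)) (l 16563696))))))) (a (a (b (l 16599384) (c (l 16585096) (l 16555448))) (b (l 16587536) (c (l 16551672) (l 16542928)))) (c (b (l 16551864) (b (l 16538216) (l 16528408))) (b (l 16545432) (l 16524400))))))), by decide +kernel⟩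

def k8_pm_022_s : ∃ t, chk3 f_pm_022_s t 11 7 1 = true :=
  ⟨(b (l 6) (b (a (a (b (l 16559832) (l 16564576)) (l 6)) (l 6)) (a (b (a (c (l 16528736) (l 16521912)) (c (l 16506448) (l 16498912))) (a (c (a (l 16515472) (l 16503840)) (l 16500096)) (c (b (l 16491976) (c (l 16484464) (l 16478928))) (l 16476320)))) (b (l 6) (a (c (b (l 6) (c (l 16463048) (l 16456872))) (l 16453400)) (l 6)))))), by decide +kernel⟩

def k9_pm_022_s : ∃ t, chk3 f_pm_022_s t 3 1 1 = true :=
  ⟨(b (l 6) (l 6)), by decide +kernel⟩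

theorem s10_pm_022_s : ∃ t, chk3 f_pm_022_s t 5 7 1 = true := ex3_a k7_pm_022_s k8_pm_022_s

theorem s11_pm_022_s : ∃ t, chk3 f_pm_022_s t 5 3 1 = true := ex3_b k6_pm_022_s s10_pm_022_s

theorem s12_pm_022_s : ∃ t, chk3 f_pm_022_s t 5 1 1 = true := ex3_b k5_pm_022_s s11_pm_022_s

theorem s13_pm_022_s : ∃ t, chk3 f_pm_022_s t 9 7 1 = true := ex3_b k3_pm_022_s k4_pm_022_s

theorem s14_pm_022_s : ∃ t, chk3 f_pm_022_s t 9 3 1 = true := ex3_b k2_pm_022_s s13_pm_022_s

theorem s15_pm_022_s : ∃ t, chk3 f_pm_022_s t 9 1 1 = true := ex3_b k1_pm_022_s s14_pm_022_s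

theorem s16_pm_022_s : ∃ t, chk3 f_pm_022_s t 4 1 1 = true := ex3_a k0_pm_022_s s15_pm_022_s

theorem s17_pm_022_s : ∃ t, chk3 f_pm_022_s t 2 1 1 = true := ex3_a s16_pm_022_s s12_pm_022_s

theorem s18_pm_022_s : ∃ t, chk3 f_pm_022_s t 1 1 1 = true := ex3_a s17_pm_022_s k9_pm_022_s

theorem c_pm_022_s : CertNE 0 536870912 0 536870912 818728140 40265320 3 eng mog cd0q0 cd0q2 pd2 true true false .pp 0 2 2
    ndB0q0 ndB0q2 pcB2 cut_pm_022_s Ext.none :=
  certNE2 (fam := true) (s1 := true) (s2 := false) (a := 0) (b := 2) (c := 2) (cn := .pp) (n1 := ndB0q0) (n2 := ndB0q2) (pc := pcB2) (cut := cut_pm_022_s) (xt := Ext.none) (P1 := 0) (W1 := 536870912) (P2 := 0) (W2 := 536870912) (P3 := 818728140) (W3 := 40265320) (N0 := 3) (En := eng) (mo := mog) (C1 := cd0q0) (C2 := cd0q2) (C3 := pd2)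
    rfl (fun _ => rfl) s18_pm_022_s

noncomputable def cut_pm_022_t : Cut := Cut.of [[⟨3, 0, 0, 2845415833⟩], [⟨0, 0, 0, 67108864⟩, ⟨1, 1, 0, 67108864⟩, ⟨2, 1, 0, 67108864⟩]]

noncomputable def f_pm_022_t : ℕ → ℕ → ℕ → ℕ → Bool := onCell 1073741824 536870912 0 536870912 818728140 40265320
    (rowNE 3 eng mog cd0q0 cd0q2 pd2 2 true true false .pp 0 2 2 (qsf 0 536870912 0 536870912 2) ndB0q0 ndB0q2 pcB2 cut_pm_022_t Ext.none)

def k0_pm_022_t : ∃ t, chk3 f_pm_022_t t 1 1 1 = true :=
  ⟨(a (l 6) (b (l 6) (l 6))), by decide +kernel⟩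

theorem c_pm_022_t : CertNE 0 536870912 0 536870912 818728140 40265320 3 eng mog cd0q0 cd0q2 pd2 true true false .pp 0 2 2
    ndB0q0 ndB0q2 pcB2 cut_pm_022_t Ext.none :=
  certNE2 (fam := true) (s1 := true) (s2 := false) (a := 0) (b := 2) (c := 2) (cn := .pp) (n1 := ndB0q0) (n2 := ndB0q2) (pc := pcB2) (cut := cut_pm_022_t) (xt := Ext.none) (P1 := 0) (W1 := 536870912) (P2 := 0) (W2 := 536870912) (P3 := 818728140) (W3 := 40265320) (N0 := 3) (En := eng) (mo := mog) (C1 := cd0q0) (C2 := cd0q2) (C3 := pd2)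
    rfl (fun _ => rfl) k0_pm_022_t

noncomputable def cut_pm_023_s : Cut := Cut.of [[⟨4, 0, 0, 1449551462⟩]]

noncomputable def f_pm_023_s : ℕ → ℕ → ℕ → ℕ → Bool := onCell 1610612736 536870912 0 536870912 818728140 40265320
    (rowNE 3 eng mog cd0q0 cd0q2 pd3 2 true true false .up 0 2 3 (qsf 0 536870912 0 536870912 3) ndB0q0 ndB0q2 pcB3 cut_pm_023_s Ext.none)

def k0_pm_023_s : ∃ t, chk3 f_pm_023_s t 1 1 1 = true :=
  ⟨(l 6), by decide +kernel⟩

theorem c_pm_023_s : CertNE 0 536870912 0 536870912 818728140 40265320 3 eng mog cd0q0 cd0q2 pd3 true true false .up 0 2 3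
    ndB0q0 ndB0q2 pcB3 cut_pm_023_s Ext.none :=
  certNE2 (fam := true) (s1 := true) (s2 := false) (a := 0) (b := 2) (c := 3) (cn := .up) (n1 := ndB0q0) (n2 := ndB0q2) (pc := pcB3) (cut := cut_pm_023_s) (xt := Ext.none) (P1 := 0) (W1 := 536870912) (P2 := 0) (W2 := 536870912) (P3 := 818728140) (W3 := 40265320) (N0 := 3) (En := eng) (mo := mog) (C1 := cd0q0) (C2 := cd0q2) (C3 := pd3)
    rfl (fun _ => rfl) k0_pm_023_s

noncomputable def cut_pm_023_t : Cut := Cut.of [[⟨3, 0, 0, 2845415833⟩]]

noncomputable def f_pm_023_t : ℕ → ℕ → ℕ → ℕ → Bool := onCell 0 536870912 0 536870912 818728140 40265320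
    (rowNE 3 eng mog cd0q0 cd0q2 pd3 0 true true false .up 0 2 3 (qsf 0 536870912 0 536870912 3) ndB0q0 ndB0q2 pcB3 cut_pm_023_t Ext.none)

def k0_pm_023_t : ∃ t, chk3 f_pm_023_t t 1 1 1 = true :=
  ⟨(a (l 1) (b (a (b (a (l 1) (b (a (l 1) (b (l 16598048) (l 6))) (l 6))) (l 6)) (b (b (a (a (l 16621136) (l 16647928)) (a (l 16672376) (a (l 16691472) (l 16703632)))) (a (l 6) (a (l 16631160) (l 16654512)))) (a (l 6) (l 6)))) (l 6))), by decide +kernel⟩

theorem c_pm_023_t : CertNE 0 536870912 0 536870912 818728140 40265320 3 eng mog cd0q0 cd0q2 pd3 true true false .up 0 2 3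
    ndB0q0 ndB0q2 pcB3 cut_pm_023_t Ext.none :=
  certNE0 (fam := true) (s1 := true) (s2 := false) (a := 0) (b := 2) (c := 3) (cn := .up) (n1 := ndB0q0) (n2 := ndB0q2) (pc := pcB3) (cut := cut_pm_023_t) (xt := Ext.none) (P1 := 0) (W1 := 536870912) (P2 := 0) (W2 := 536870912) (P3 := 818728140) (W3 := 40265320) (N0 := 3) (En := eng) (mo := mog) (C1 := cd0q0) (C2 := cd0q2) (C3 := pd3)
    rfl k0_pm_023_t

noncomputable def cut_pm_101_s : Cut := Cut.of [[⟨4, 0, 0, 1449551462⟩], [⟨0, 1, 0, 67108864⟩, ⟨1, 0, 0, 67108864⟩, ⟨2, 1, 0, 67108864⟩]]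

noncomputable def f_pm_101_s : ℕ → ℕ → ℕ → ℕ → Bool := onCell 536870912 536870912 536870912 536870912 818728140 40265320
    (rowNE 3 eng mog cd0q1 cd0q0 pd1 1 true true false .npn 1 0 1 (qsf 536870912 536870912 0 536870912 1) ndB0q1 ndB0q0 pcB1 cut_pm_101_s Ext.none)

def k0_pm_101_s : ∃ t, chk3 f_pm_101_s t 1 1 1 = true :=
  ⟨(b (l 3) (a (l 3) (b (l 3) (a (l 3) (b (l 3) (a (l 3) (b (l 3) (a (l 3) (l 14))))))))), by decide +kernel⟩

theorem c_pm_101_s : CertNE 536870912 536870912 0 536870912 818728140 40265320 3 eng mog cd0q1 cd0q0 pd1 true true false .npn 1 0 1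
    ndB0q1 ndB0q0 pcB1 cut_pm_101_s Ext.none :=
  certNE1 (fam := true) (s1 := true) (s2 := false) (a := 1) (b := 0) (c := 1) (cn := .npn) (n1 := ndB0q1) (n2 := ndB0q0) (pc := pcB1) (cut := cut_pm_101_s) (xt := Ext.none) (P1 := 536870912) (W1 := 536870912) (P2 := 0) (W2 := 536870912) (P3 := 818728140) (W3 := 40265320) (N0 := 3) (En := eng) (mo := mog) (C1 := cd0q1) (C2 := cd0q0) (C3 := pd1)
    rfl (fun _ => rfl) k0_pm_101_s

noncomputable def cut_pm_101_t : Cut := Cut.of [[⟨3, 0, 0, 2845415833⟩], [⟨0, 1, 0, 67108864⟩, ⟨1, 0, 0, 67108864⟩, ⟨2, 1, 0, 67108864⟩]]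

noncomputable def f_pm_101_t : ℕ → ℕ → ℕ → ℕ → Bool := onCell 536870912 536870912 0 536870912 818728140 40265320
    (rowNE 3 eng mog cd0q1 cd0q0 pd1 0 true true false .npn 1 0 1 (qsf 536870912 536870912 0 536870912 1) ndB0q1 ndB0q0 pcB1 cut_pm_101_t Ext.none)

def k0_pm_101_t : ∃ t, chk3 f_pm_101_t t 1 1 1 = true :=
  ⟨(l 6), by decide +kernel⟩

theorem c_pm_101_t : CertNE 536870912 536870912 0 536870912 818728140 40265320 3 eng mog cd0q1 cd0q0 pd1 true true false .npn 1 0 1
    ndB0q1 ndB0q0 pcB1 cut_pm_101_t Ext.none :=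
  certNE0 (fam := true) (s1 := true) (s2 := false) (a := 1) (b := 0) (c := 1) (cn := .npn) (n1 := ndB0q1) (n2 := ndB0q0) (pc := pcB1) (cut := cut_pm_101_t) (xt := Ext.none) (P1 := 536870912) (W1 := 536870912) (P2 := 0) (W2 := 536870912) (P3 := 818728140) (W3 := 40265320) (N0 := 3) (En := eng) (mo := mog) (C1 := cd0q1) (C2 := cd0q0) (C3 := pd1)
    rfl k0_pm_101_t

end Pool.Agent.Strip051.G.I7625_8000.Tab.CS.BA00

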