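import Pool.Agent.Strip051.G.I7625_8000.Tab
import Pool.Agent.Strip051.PB.StripB
import Pool.Agent.Strip051.PB.ExtD2

/-! # Strips, near vertex: certificates 2 (generated) -/

set_option linter.all false
set_option maxRecDepth 100000

namespace Pool.Agent.Strip051.G.I7625_8000.Tab.CS.BA00

open Pool.Agent.Strip051.PB Pool.Agent.Strip051.PB.T
open Pool.Agent.Strip051.G.I7625_8000.Tab

noncomputable def cut_pm_102_s : Cut := Cut.of [[⟨4, 0, 0, 1449551462⟩], [⟨0, 1, 0, 67108864⟩, ⟨1, 0, 0, 67108864⟩, ⟨2, 1, 0, 67108864⟩]]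

noncomputable def f_pm_102_s : ℕ → ℕ → ℕ → ℕ → Bool := onCell 536870912 536870912 1073741824 536870912 818728140 40265320
    (rowNE 3 eng mog cd0q1 cd0q0 pd2 1 true true false .npp 1 0 2 (qsf 536870912 536870912 0 536870912 2) ndB0q1 ndB0q0 pcB2 cut_pm_102_s Ext.none)

def k0_pm_102_s : ∃ t, chk3 f_pm_102_s t 2 4 1 = true :=
  ⟨(a (l 3) (l 3)), by decide +kernel⟩

def k1_pm_102_s : ∃ t, chk3 f_pm_102_s t 4 5 1 = true :=
  ⟨(b (b (b (l 3) (l 2)) (l 2)) (l 2)), by decide +kernel⟩

def k2_pm_102_s : ∃ t, chk3 f_pm_102_s t 10 5 1 = true :=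
  ⟨(b (b (b (l 3) (a (b (l 3) (a (l 2) (b (b (l 3) (l 16776816)) (a (l 2) (b (l 16782744) (l 16772128)))))) (a (b (l 3) (b (b (l 16775648) (l 16775080)) (b (b (l 16773112) (l 16771824)) (l 16769848)))) (b (b (l 3) (c (l 113447568103) (l 112910698119))) (b (b (l 16784872) (l 16771264)) (b (b (l 16769224) (l 16767880)) (l 16765776))))))) (b (a (a (l 2) (l 16762520)) (a (a (l 16759720) (l 16757056)) (c (l 16774840) (l 16752088)))) (a (l 2) (a (b (l 16744288) (l 2)) (b (l 16737024) (l 16727544)))))) (b (a (l 2) (a (l 2) (b (l 16714024) (l 2)))) (l 2))), by decide +kernel⟩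

def k3_pm_102_s : ∃ t, chk3 f_pm_102_s t 11 5 1 = true :=
  ⟨(b (b (b (b (l 3) (a (l 3) (a (b (l 3) (c (l 95193944855) (l 135996131479))) (b (c (c (l 116668775831) (l 16774048)) (l 121500612711)) (c (c (l 16774544) (l 16774664)) (c (l 16774792) (l 16774920))))))) (b (a (a (b (l 3) (a (b (l 16784832) (l 16774984)) (b (l 16776808) (l 16772152)))) (c (b (l 16788960) (l 16770272)) (b (l 16786168) (l 16770312)))) (a (c (b (l 16773304) (l 16765184)) (b (l 16773552) (l 16765496))) (c (b (l 16768200) (l 16760448)) (b (l 16768960) (l 16761232))))) (b (b (a (a (a (l 16770624) (l 16767896)) (a (l 16765336) (l 16762912))) (a (c (l 16759416) (l 16759608)) (c (l 16755056) (l 16755728)))) (a (c (a (l 16766576) (l 16761488)) (a (l 16766560) (l 16761512))) (a (c (l 16756880) (l 16757136)) (c (l 16752640) (l 16753344))))) (b (b (a (a (l 16764720) (a (l 16761456) (l 16759464))) (a (c (l 16755912) (l 16756304)) (c (l 16751616) (l 16752432)))) (a (a (l 16763376) (l 16759192)) (a (c (l 16755312) (l 16755704)) (c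 (l 16751072) (l 16751976))))) (a (a (l 16761256) (l 16757208)) (a (c (l 16753488) (l 16753728)) (c (l 16749600) (l 16750256)))))))) (a (b (a (c (b (l 16754448) (l 16742664)) (b (l 16753168) (l 16740280))) (c (l 16744496) (l 16743064))) (a (a (l 16725848) (l 16722392)) (a (l 16719952) (l 16739536)))) (a (b (c (l 16741560) (l 16740896)) (c (l 16739216) (l 16736704))) (b (c (l 16738088) (l 16738112)) (a (l 16737024) (l 16735800)))))) (a (b (a (b (l 16725160) (l 16686056)) (b (l 16717096) (l 16676504))) (a (l 2) (b (l 16658808) (l 2)))) (b (a (b (c (l 16695184) (l 16690664)) (l 16691080)) (b (c (l 16692864) (l 16689736)) (c (l 16670264) (l 16665160)))) (a (b (l 16650952) (l 16633704)) (b (l 16645440) (l 16626776)))))), by decide +kernel⟩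

def k4_pm_102_s : ∃ t, chk3 f_pm_102_s t 2 3 1 = true :=
  ⟨(a (l 2) (b (a (l 2) (b (a (l 2) (b (a (l 2) (b (l 16610000) (l 2))) (l 2))) (l 2))) (l 2))), by decide +kernel⟩

def k5_pm_102_s : ∃ t, chk3 f_pm_102_s t 6 8 1 = true :=
  ⟨(l 3), by decide +kernel⟩

def k6_pm_102_s : ∃ t, chk3 f_pm_102_s t 6 18 1 = true :=
  ⟨(a (l 3) (a (l 3) (b (l 3) (b (l 3) (b (l 3) (a (l 3) (a (l 3) (c (c (a (b (l 3) (l 90898959847)) (b (a (l 160692177623) (l 16776688)) (l 16774880))) (a (l 143512311447) (l 16781216))) (c (c (l 81772159303) (l 16781800)) (l 16776544)))))))))), by decide +kernel⟩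

def k7_pm_102_s : ∃ t, chk3 f_pm_102_s t 6 38 1 = true :=
  ⟨(a (l 3) (b (a (l 3) (a (a (a (l 3) (b (l 3) (c (l 273435066567) (l 261087039415)))) (c (b (l 300278612471) (c (b (a (l 273435068087) (l 16776792)) (l 16778176)) (l 55465484343))) (b (l 307794804599) (c (l 54928613127) (l 16776448))))) (a (b (b (a (l 3) (c (a (l 142438566599) (l 16779248)) (l 16776872))) (c (c (a (l 70497865287) (l 16774776)) (l 16775880)) (l 16781160))) (c (c (l 16772136) (l 16772088)) (l 16772000))) (b (c (c (a (l 16773576) (l 16771032)) (l 16772264)) (l 16772184)) (c (c (l 16767176) (l 16767064)) (l 16766848)))))) (a (a (l 3) (a (a (l 3) (b (l 3) (c (l 149954762919) (l 159081567559)))) (c (b (c (l 241759682615) (l 224042948183)) (c (c (l 16780632) (l 16775416)) (l 16775472))) (b (l 225116690711) (l 16780824))))) (c (b (a (a (b (a (l 210621172663) (l 16776416)) (l 16775088)) (c (l 16771768) (l 16771712))) (a (l 16766928) (l 16759328))) (a (a (l 16771176) (l 16766544)) (a (l 16761736) (l 16756768)))) (c (a (b (a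 (l 16776064) (l 16771648)) (l 16768720)) (a (l 16764072) (l 16758936))) (a (b (l 16774072) (l 16768584)) (l 16761184))))))), by decide +kernel⟩

def k8_pm_102_s : ∃ t, chk3 f_pm_102_s t 6 39 1 = true :=
  ⟨(a (a (l 3) (a (b (l 3) (b (l 3) (c (c (l 105931334247) (l 16775632)) (l 111300063431)))) (b (b (l 3) (c (l 229411645335) (l 211694919527))) (b (a (c (l 137606733767) (l 16775208)) (c (l 16775656) (l 16775808))) (c (c (l 16772280) (l 16772480)) (l 16772488)))))) (a (b (a (b (a (l 3) (c (a (l 182703887079) (l 89288350647)) (l 125795573847))) (c (a (c (l 71571611575) (l 16776688)) (l 16773584)) (c (l 16775240) (l 16775344)))) (c (a (b (c (l 16774608) (l 16774720)) (l 16769568)) (b (l 16770432) (l 16765288))) (c (a (l 16772128) (l 16767736)) (l 16769936)))) (b (c (a (a (l 16772232) (l 16768456)) (a (l 16764488) (l 16760240))) (a (l 16770384) (l 16762144))) (a (c (c (l 16764824) (l 16765264)) (l 16765232)) (c (l 16762584) (l 16757064))))) (a (b (b (c (a (l 16765984) (l 16761344)) (l 16763272))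 (c (c (l 16758608) (l 16758384)) (l 16757928))) (c (a (l 16758456) (l 16748544)) (c (l 16750336) (l 16749832)))) (a (b (c (c (l 16754128) (l 16753776)) (l 16753096)) (c (l 16743712) (l 16742416))) (b (c (c (l 16749240) (l 16748752)) (l 16747832)) (c (c (l 16739080) (l 16738392)) (l 16737072))))))), by decide +kernel⟩

def k9_pm_102_s : ∃ t, chk3 f_pm_102_s t 14 16 1 = true :=
  ⟨(l 3), by decide +kernel⟩

def k10_pm_102_s : ∃ t, chk3 f_pm_102_s t 28 17 1 = true :=
  ⟨(l 3), by decide +kernel⟩

def k11_pm_102_s : ∃ t, chk3 f_pm_102_s t 29 34 1 = true :=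
  ⟨(l 3), by decide +kernel⟩

def k12_pm_102_s : ∃ t, chk3 f_pm_102_s t 58 35 1 = true :=
  ⟨(l 3), by decide +kernel⟩

def k13_pm_102_s : ∃ t, chk3 f_pm_102_s t 59 70 1 = true :=
  ⟨(a (l 3) (a (l 3) (b (l 3) (b (a (l 3) (b (l 3) (a (l 3) (c (c (c (l 299204868871) (l 297594257431)) (l 291688677383)) (l 299204870919))))) (b (a (l 3) (c (a (b (l 3) (c (a (l 273971937287) (b (l 168745238743) (l 16776984))) (l 16777128))) (c (c (b (a (l 170355850871) (l 16776896)) (l 16776488)) (l 16777480)) (l 16776824))) (c (l 118279374023) (l 16777000)))) (c (c (a (a (l 330343381783) (a (c (b (l 3) (l 117742500919)) (l 199883751719)) (c (b (l 196662526135) (l 16776760)) (l 16777024)))) (c (a (l 16776840) (l 16775560)) (l 16776000))) (a (l 191293817671) (l 16776000))) (c (c (l 87140861831) (l 16776696)) (l 16776688)))))))), by decide +kernel⟩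

def k14_pm_102_s : ∃ t, chk3 f_pm_102_s t 118 71 1 = true :=
  ⟨(a (b (l 3) (b (l 3) (c (c (a (b (l 3) (c (a (l 348060123239) (b (l 275582550055) (l 16777400))) (l 215989878679))) (c (b (a (l 256255197191) (b (l 152639111607) (l 16776664))) (a (l 16776544) (l 16775664))) (b (a (l 249812746567) (l 16776984)) (l 16776112)))) (a (l 243907166135) (b (l 144049177719) (l 16776120)))) (c (c (l 139754211607) (l 138143598919)) (l 134922374071))))) (b (a (l 3) (a (l 3) (b (l 3) (b (l 3) (c (c (b (l 279877517335) (a (l 163376529143) (l 16776896))) (l 16777104)) (l 147807274103)))))) (b (c (c (a (b (a (l 3) (c (b (l 3) (l 227264167895)) (l 258939551735))) (c (a (b (l 285783097383) (l 95730793655)) (l 16777240)) (a (l 165524013607) (l 16776584)))) (b (a (b (a (l 253570842871) (l 81772151255)) (l 16776688)) (l 16776136)) (l 16775264))) (a (b (l 275582550007) (l 16776936)) (l 16775960))) (c (c (l 87140857095) (l 86067120503)) (l 16776608))) (c (c (c (a (l 16775344) (l 16773280)) (l 16774160)) (l 16774176))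 (c (l 16774200) (l 16774232)))))), by decide +kernel⟩

def k15_pm_102_s : ∃ t, chk3 f_pm_102_s t 119 71 1 = true :=
  ⟨(c (b (a (b (c (a (b (l 3) (l 349670735959)) (b (a (l 3) (c (b (l 3) (a (l 320142835751) (l 134922371431))) (l 243907166151))) (c (a (b (l 269676969991) (a (l 151028498727) (l 16776848))) (b (l 16776840) (l 16776192))) (a (l 156397208135) (l 16776520))))) (a (l 352891961367) (b (l 266455744471) (l 16777864)))) (c (c (a (b (a (b (l 3) (l 222432329671)) (a (b (l 247128391831) (l 16776880)) (l 16777424))) (a (c (l 16777224) (l 16776576)) (l 16775688))) (b (l 16775672) (l 16774392))) (a (b (a (l 255718326247) (l 16777608)) (l 16776136)) (l 16775040))) (a (b (l 145122919511) (l 16776144)) (l 16775048)))) (a (c (b (b (a (b (c (a (l 218674233463) (l 16777016)) (l 16777120)) (l 16776592)) (l 16776040)) (l 16775216)) (c (l 16773304) (l 16773312))) (b (l 16775880) (l 16773328))) (c (b (c (l 16774112) (l 16774120)) (l 16771592)) (l 16772880)))) (c (a (b (a (a (l 16774616) (l 16773752))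 (l 16772456)) (c (l 16770688) (l 16770704))) (a (b (c (l 16768104) (l 16765504)) (l 16765496)) (b (l 16765744) (l 16761160)))) (a (b (l 16773344) (l 16770736)) (l 16769928)))) (b (c (c (a (b (l 215453007479) (l 16776000)) (l 16773760)) (a (b (l 203104978183) (l 16776008)) (l 16773776))) (a (b (l 198810011415) (l 16776024)) (l 16773784))) (c (c (l 16770360) (l 16770376)) (l 16770416)))), by decide +kernel⟩

def k16_pm_102_s : ∃ t, chk3 f_pm_102_s t 30 32 1 = true :=
  ⟨(l 3), by decide +kernel⟩

def k17_pm_102_s : ∃ t, chk3 f_pm_102_s t 60 33 1 = true :=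
  ⟨(l 3), by decide +kernel⟩

def k18_pm_102_s : ∃ t, chk3 f_pm_102_s t 61 66 1 = true :=
  ⟨(l 3), by decide +kernel⟩

def k19_pm_102_s : ∃ t, chk3 f_pm_102_s t 122 67 1 = true :=
  ⟨(l 3), by decide +kernel⟩

def k20_pm_102_s : ∃ t, chk3 f_pm_102_s t 123 134 1 = true :=
  ⟨(l 3), by decide +kernel⟩

def k21_pm_102_s : ∃ t, chk3 f_pm_102_s t 246 135 1 = true :=
  ⟨(l 3), by decide +kernel⟩

def k22_pm_102_s : ∃ t, chk3 f_pm_102_s t 247 135 1 = true :=
  ⟨(b (a (l 3) (a (l 3) (l 14))) (b (a (b (l 3) (a (l 3) (a (l 3) (c (c (c (a (l 3) (a (l 3) (b (l 3) (b (l 3) (l 180019527751))))) (l 309942288455)) (l 306721062967)) (l 309942287431))))) (a (c (b (b (a (l 3) (l 14)) (c (a (l 357723799623) (b (l 14) (b (l 14) (c (l 16777024) (l 16777024))))) (l 177335172167))) (a (c (c (b (a (l 309942288423) (b (a (l 308331675463) (a (l 164987142199) (l 16777168))) (l 16777240))) (a (a (b (l 223506071591) (l 16777128)) (l 16777088)) (l 16776912))) (b (l 183240752679) (l 16777024))) (l 108078825943)) (c (c (l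 16776704) (l 16776704)) (l 16776704)))) (c (c (l 128479918279) (l 128479920887)) (l 125258695623))) (b (l 14) (c (c (b (l 14) (l 16775880)) (l 16776016)) (l 16776024))))) (c (a (a (c (b (l 3) (a (l 3) (c (b (l 348060123207) (a (l 295446773799) (b (a (l 279877517351) (l 16777176)) (l 16777112)))) (b (l 348060123191) (l 175187688983))))) (l 284172483351)) (c (b (b (a (l 3) (c (a (a (l 317458481191) (b (l 322827190055) (l 101099503719))) (a (b (l 140291080279) (l 16777080)) (l 16777040))) (a (l 224042942535) (l 16777088)))) (c (a (a (l 3) (b (l 285246226455) (a (l 211694911527) (l 16777144)))) (c (a (l 16777128) (l 16776816)) (l 16776936))) (a (l 235317231687) (l 16776936)))) (b (a (c (a (a (b (l 3) (l 127943049303)) (b (l 170892722231) (l 16777096))) (l 16777000)) (l 16777336)) (l 16776648)) (c (l 16776520) (l 16776600)))) (b (a (l 265382002695) (l 16777032)) (l 16776760)))) (c (c (a (b (a (l 16776608) (l 16776152)) (l 16775824)) (c (l 16775176) (l 16775184))) (a (l 16776104) (l 16775184))) (l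 16775648))) (a (a (c (l 284172483319) (l 286319968247)) (c (c (l 4462740327) (l 16776912)) (l 16776904))) (c (l 16775648) (l 16775656)))))), by decide +kernel⟩

def k23_pm_102_s : ∃ t, chk3 f_pm_102_s t 31 16 1 = true :=
  ⟨(b (l 14) (a (b (l 14) (b (l 14) (b (l 14) (b (l 14) (b (l 14) (a (a (a (c (c (l 16773520) (l 16773528)) (l 16772888)) (l 14)) (l 14)) (l 14))))))) (l 14))), by decide +kernel⟩

def k24_pm_102_s : ∃ t, chk3 f_pm_102_s t 60 68 1 = true :=
  ⟨(l 3), by decide +kernel⟩

def k25_pm_102_s : ∃ t, chk3 f_pm_102_s t 120 69 1 = true :=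
  ⟨(l 3), by decide +kernel⟩

def k26_pm_102_s : ∃ t, chk3 f_pm_102_s t 121 138 1 = true :=
  ⟨(b (l 3) (a (l 3) (a (a (l 3) (b (l 3) (c (c (b (l 3) (a (l 323900931479) (c (a (b (l 3) (l 119353114119)) (b (l 175187689591) (l 16776984))) (l 135996113223)))) (l 241222811575)) (c (l 231559135719) (l 16777160))))) (a (c (c (b (b (l 3) (a (l 3) (c (b (l 3) (c (a (l 3) (l 168208367719)) (l 223506071607))) (l 254644584599)))) (c (b (a (a (l 277730033687) (b (l 297057386519) (l 16777112))) (a (b (l 109152566823) (l 16776904)) (l 16776824))) (c (l 16776576) (l 16776576))) (b (a (l 196662526119) (l 16776952)) (l 16776576)))) (b (l 297057386519) (c (l 16777488) (l 16776832)))) (c (b (l 303499835799) (l 16778144)) (l 146733532743))) (c (c (b (c (b (a (l 317995352119) (a (b (l 352891961383) (c (l 98952019479) (l 16777152))) (b (a (l 218137362503) (l 16777168)) (l 16776952)))) (a (a (b (l 224579813447) (l 16777040)) (l 16777136)) (l 16776632))) (b (a (l 317458481191) (l 123648082327)) (l 16777520))) (c (l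 16775992) (l 16775992))) (b (b (l 185925108151) (l 16776864)) (l 16775992))) (c (c (l 16776536) (l 16776536)) (l 16776528))))))), by decide +kernel⟩

def k27_pm_102_s : ∃ t, chk3 f_pm_102_s t 121 278 1 = true :=
  ⟨(a (a (l 3) (b (l 3) (c (c (b (a (l 3) (a (l 326048415783) (c (a (b (l 3) (l 122037469351)) (b (l 181630140535) (l 16776984))) (l 138680467783)))) (a (c (a (l 3) (b (l 3) (l 235317231591))) (l 289541193751)) (a (a (b (l 240685940807) (l 16777064)) (c (l 16776992) (l 16776992))) (l 16776656)))) (a (l 300278611991) (l 111836921559))) (c (c (l 178945786679) (l 177872044855)) (l 174113948775))))) (a (c (c (b (a (b (c (a (l 3) (b (l 3) (c (l 237464714583) (l 233706618935)))) (l 290078064663)) (c (a (a (l 283635613719) (b (l 309942288407) (l 16777128))) (a (b (l 121500598439) (l 16776912)) (l 16776840))) (a (l 201494364327) (l 16776960)))) (b (a (c (a (b (l 241759682631) (l 16777064)) (l 16777160)) (l 16777064)) (l 16776656)) (l 16776296))) (c (a (b (l 16776592) (l 16776008)) (l 16775424))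 (l 16775864))) (b (a (l 171966463447) (l 16776608)) (l 16775864))) (c (c (b (l 16776864) (l 16775864)) (l 16777704)) (l 16776392))) (c (c (c (b (a (l 16775712) (l 16774840)) (l 16774120)) (l 16774696)) (l 16774696)) (c (l 16774696) (l 16774696))))), by decide +kernel⟩

def k28_pm_102_s : ∃ t, chk3 f_pm_102_s t 121 279 1 = true :=
  ⟨(c (a (c (a (b (a (l 3) (b (l 3) (a (l 319605964839) (c (b (l 231559135207) (l 16777368)) (l 16777376))))) (b (a (c (a (l 3) (b (l 3) (l 220821717047))) (l 283635613719)) (a (b (a (l 227264168007) (l 16777280)) (l 16776936)) (l 16776640))) (a (a (b (l 300815482903) (a (l 213305524327) (l 16777104))) (c (a (l 16777368) (l 16776816)) (l 16776936))) (l 16776272)))) (a (c (b (b (a (a (l 279877517335) (b (l 305647321111) (l 16777120))) (a (b (l 118816243879) (l 16776912)) (l 16776840))) (l 16776576)) (l 16775696)) (b (b (a (l 198810009767) (l 16776960)) (l 16776584)) (l 16775696))) (c (b (l 16776000) (l 16774832)) (l 16775416)))) (a (b (l 268066357223) (a (l 166597755623)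 (l 16776584))) (b (c (l 16777784) (l 16776480)) (l 16775264)))) (c (a (c (b (l 16774696) (l 16773528)) (l 16774112)) (c (l 16772376) (l 16772376))) (a (l 16774112) (l 16772376)))) (a (c (b (a (l 266455744439) (l 16777464)) (c (l 16777472) (l 16776160))) (a (l 154249725751) (l 16775888))) (c (l 16772592) (l 16773248)))), by decide +kernel⟩

def k29_pm_102_s : ∃ t, chk3 f_pm_102_s t 122 136 1 = true :=
  ⟨(a (l 3) (b (l 3) (b (l 3) (b (l 3) (b (l 3) (a (l 3) (a (l 3) (a (l 3) (c (c (c (a (l 345375768615) (c (b (l 235854102567) (l 16777272)) (l 144049176743))) (l 208473686103)) (l 16777192)) (l 197199397095)))))))))), by decide +kernel⟩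

def k30_pm_102_s : ∃ t, chk3 f_pm_102_s t 244 137 1 = true :=
  ⟨(a (l 3) (b (l 3) (b (a (l 3) (a (l 3) (c (c (c (l 342691414119) (l 344838897751)) (l 344302026807)) (l 344302026775)))) (c (c (a (b (l 3) (a (l 3) (c (a (l 305110450215) (b (l 337859575847) (a (l 140827951207) (l 16777112)))) (l 218137362551)))) (c (b (b (a (l 3) (a (l 252497100807) (b (l 120963727463) (l 16777064)))) (a (a (l 3) (b (l 313163513639) (l 134385500311))) (l 16777128))) (a (a (b (a (l 206326202439) (l 91972698247)) (l 16776944)) (l 16776864)) (l 16776536))) (b (a (l 273435066375) (c (l 16777392) (l 16777064))) (l 16776768)))) (a (l 278266904583) (a (l 134385499639) (l 16776824)))) (c (c (l 162839656855) (l 161765917655)) (l 159618434231)))))), by decide +kernel⟩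

def k31_pm_102_s : ∃ t, chk3 f_pm_102_s t 245 274 2 = true :=
  ⟨(a (a (l 3) (b (l 3) (c (b (a (l 3) (a (l 3) (a (l 340007059495) (b (l 3) (c (l 200420622391) (l 16777200)))))) (c (b (a (l 3) (a (a (l 256792068151) (a (l 175724560423) (l 96804536487))) (l 16777056))) (a (a (l 326585286695) (b (l 217063620631) (l 16777136))) (l 16776880))) (a (l 242833424359) (l 16777336)))) (b (l 307257933879) (l 134922370311))))) (a (b (b (l 3) (c (b (a (l 3) (a (l 3) (b (l 297057386519) (a (l 223506071591) (l 16777160))))) (a (l 341617672247) (a (c (b (l 229948522535) (l 16777312)) (l 16777168)) (l 16777000)))) (l 205252460855))) (c (b (b (a (c (a (l 285246226455) (a (a (l 180556398647) (l 113984405591)) (l 16777112))) (l 169818980503)) (l 16776832)) (c (a (a (a (a (l 101099503783) (l 16777136)) (l 16777056)) (l 16776888)) (l 16776552)) (l 16776776))) (c (l 16776352) (l 16776352))) (l 16777304))) (c (b (c (b (a (b (l 311016030247) (a (b (l 3) (l 199346880567)) (a (b (l 180556398647) (l 16777104)) (l 16777064))))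 (a (b (a (b (l 278803775527) (l 16777160)) (l 16777120)) (l 16776896)) (l 16776808))) (a (c (b (l 16777032) (l 16776664)) (l 16776808)) (l 16776360))) (b (a (b (l 311016030247) (l 138143596791)) (l 16776928)) (l 16776584))) (c (c (l 16775736) (l 16775736)) (l 16775736))) (b (b (l 107005082999) (l 16776584)) (l 16775736))))), by decide +kernel⟩

def k32_pm_102_s : ∃ t, chk3 f_pm_102_s t 245 275 2 = true :=
  ⟨(a (b (c (a (b (a (l 3) (c (b (l 296520515623) (a (a (l 306721062935) (l 185388236839)) (l 16777256))) (l 186461978167))) (c (a (b (a (l 3) (b (l 263234519095) (l 16777288))) (a (b (l 191830687799) (l 16777128)) (l 16776968))) (l 16776784)) (a (c (l 133848629575) (l 16777296)) (l 16776784)))) (c (b (a (a (b (b (l 143512305767) (l 16777088)) (l 16776872)) (l 16776792)) (l 16776456)) (l 16776112)) (l 16776560))) (a (a (l 205252460935) (l 86067117559)) (l 16776400))) (c (c (a (b (l 16776432) (l 16775864)) (l 16775256)) (l 16775704)) (l 16775704))) (c (b (c (a (l 16775496) (l 16774600)) (l 16775048))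 (c (l 16773912) (l 16773920))) (l 16774488))), by decide +kernel⟩

def k33_pm_102_s : ∃ t, chk3 f_pm_102_s t 245 137 3 = true :=
  ⟨(b (a (c (c (l 270750711767) (l 270750711735)) (l 270213840775)) (c (a (b (a (l 360945025079) (l 213305524535)) (l 16776648)) (c (l 16776328) (l 16776320))) (b (l 140291078647) (l 16776208)))) (c (a (a (b (a (l 203641848183) (l 83919635207)) (l 16776152)) (l 16775832)) (l 16774488)) (a (b (l 16776728) (l 16775712)) (l 16774496)))), by decide +kernel⟩

def k34_pm_102_s : ∃ t, chk3 f_pm_102_s t 246 272 1 = true :=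
  ⟨(a (l 3) (b (b (l 3) (a (l 3) (c (c (a (c (l 336785834071) (l 336785834055)) (a (b (l 3) (c (b (a (l 316384739111) (l 129553662039)) (l 16777296)) (l 16777160))) (b (c (b (l 257328939063) (a (l 173577076791) (l 16777128))) (l 16777264)) (l 16776976)))) (a (l 343228284983) (l 133311758727))) (c (l 196125654103) (l 16777144))))) (c (c (a (b (a (l 3) (c (a (l 3) (a (l 333564608567) (b (l 3) (b (l 324974673703) (l 16777184))))) (l 288467451943))) (b (a (l 3) (c (a (a (l 258939551751) (b (l 251423358999) (l 16777144))) (l 16777048)) (l 97878277143))) (c (a (a (l 334101479463) (c (b (a (l 3) (l 162302787639)) (l 16777264)) (l 134385500327))) (l 16776880)) (a (l 200420622455) (l 16776880))))) (c (b (a (b (a (b (l 3) (l 240685940775)) (a (b (l 234780360743) (l 16777136)) (l 16777096))) (a (a (b (l 153175982119) (l 16777080)) (l 16777040)) (l 16776872))) (l 16776664)) (c (l 16776336) (l 16776336))) (a (b (b (l 160155303463) (l 16776992)) (l 16776560)) (l 16776392)))) (a (b (l 305647321143) (a (l 237464715447)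 (l 16777000))) (b (l 16777536) (l 16776336)))) (c (c (a (l 194515042695) (l 16776632)) (a (l 193978171815) (l 16776624))) (a (l 190756946535) (l 16776624)))))), by decide +kernel⟩

def k35_pm_102_s : ∃ t, chk3 f_pm_102_s t 247 272 1 = true :=
  ⟨(c (c (a (b (a (c (b (a (a (a (l 317995352119) (b (l 3) (b (l 307257933639) (l 16777168)))) (b (a (l 358797541415) (b (l 3) (l 155323465783))) (a (b (l 109152567399) (l 16777064)) (l 16777016)))) (b (b (a (a (l 198273138711) (l 16777136)) (l 16776968)) (l 16776944)) (l 16776728))) (a (c (b (l 16776912) (l 16776632)) (l 16776768)) (l 16776312))) (b (a (b (l 283098742807) (l 117205630583)) (l 16776880)) (l 16776544))) (c (b (l 16776144) (l 16775624)) (l 16775904))) (c (a (a (l 16775928) (l 16775472)) (l 16774784)) (l 16774920))) (b (c (a (l 16774984) (l 16774064)) (l 16774528)) (c (l 16773408) (l 16773416)))) (a (a (b (a (b (l 173040206199) (l 16776776)) (l 16776600)) (l 16775704)) (l 16775352)) (b (l 16774536) (l 16773424)))) (c (a (a (c (l 16776936)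 (l 16776280)) (l 16775360)) (c (l 16773984) (l 16773992))) (a (l 16776504) (l 16774000)))), by decide +kernel⟩

def k36_pm_102_s : ∃ t, chk3 f_pm_102_s t 123 273 2 = true :=
  ⟨(a (a (a (b (c (c (l 355576316071) (l 358260670599)) (l 357723799655)) (c (b (b (a (l 3) (c (a (l 291688677399) (a (b (l 277193162791) (l 16777160)) (l 16777120))) (l 173040205991))) (c (a (a (l 3) (c (b (l 3) (l 202031235127)) (l 243907166247))) (a (a (b (l 181630140471) (l 16777104)) (l 16777064)) (l 16776896))) (a (l 274508808295) (l 16777008)))) (a (b (c (a (a (l 275045679127) (b (l 292762419047) (l 16777160))) (l 16777232)) (l 105394471239)) (c (l 16776896) (l 16776896))) (c (l 16776584) (l 16776584)))) (b (l 173577075831) (l 16776816)))) (c (b (b (a (l 3) (a (a (l 343228284983) (b (l 3) (b (l 3) (a (l 177872044103) (l 16777176))))) (c (b (l 284709355543) (a (b (l 171429593143) (l 16777096)) (l 16777056))) (l 149954756199)))) (c (a (b (a (l 3) (a (l 270750711831) (b (l 271287582759) (l 16777152)))) (a (b (l 232096006183)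 (a (l 140291080231) (l 16777104))) (l 16777000))) (a (b (l 16777144) (l 16776776)) (l 16776688))) (a (b (l 239612198983) (l 16777088)) (l 16776808)))) (c (c (b (l 16776464) (l 16775904)) (l 16776184)) (l 16776184))) (b (a (l 224042941063) (b (l 191293817079) (l 16776808))) (l 16776192)))) (c (b (c (a (b (b (a (a (a (b (l 262160777255) (l 16777152)) (l 16777112)) (l 16776936)) (l 16776600)) (l 16776544)) (l 16776120)) (c (l 16775496) (l 16775496))) (a (b (l 16776856) (l 16776120)) (l 16775496))) (c (a (l 16775280) (l 16774368)) (l 16774824))) (b (l 16776080) (l 16774832)))) (c (a (c (b (a (l 16774584) (l 16773664)) (l 16773000)) (b (l 16774128) (l 16773008))) (b (l 16772296) (l 16771168))) (a (l 16773576) (l 16771744)))), by decide +kernel⟩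

def k37_pm_102_s : ∃ t, chk3 f_pm_102_s t 123 273 3 = true :=
  ⟨(a (a (b (a (l 358260670519) (c (c (l 148344144503) (l 145659790023)) (l 16777032))) (c (c (l 16777896) (l 16777896)) (l 16776584))) (c (c (l 16775400) (l 16775400)) (l 16775408))) (c (c (l 16772664) (l 16772672)) (l 16772680))), by decide +kernel⟩

def k38_pm_102_s : ∃ t, chk3 f_pm_102_s t 123 137 1 = true :=
  ⟨(c (a (b (c (a (c (a (b (a (l 16776192) (l 16775736)) (l 16774832)) (b (l 16775056) (l 16773928))) (b (l 16775512) (l 16774384))) (c (b (l 16773696) (l 16772568)) (l 16773136))) (a (l 16774624) (l 16773144))) (c (a (c (b (l 16773248) (l 16772120)) (l 16772688)) (b (l 16771440) (l 16770312))) (a (l 16772688) (l 16770880)))) (c (b (a (b (l 16771880) (l 16770752)) (l 16769488)) (a (l 16769056) (l 16767224))) (b (a (l 16771328) (l 16769496)) (l 16768152)))) (a (c (b (c (l 16774056) (l 16774056)) (c (l 16771792) (l 16771800))) (b (l 16774064) (l 16771800))) (c (b (c (l 16770424) (l 16770432)) (l 16768168)) (b (l 16770440)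 (l 16768184))))), by decide +kernel⟩

def k39_pm_102_s : ∃ t, chk3 f_pm_102_s t 122 138 2 = true :=
  ⟨(a (b (b (a (a (l 3) (b (l 3) (c (c (b (a (l 3) (a (l 305647321111) (a (l 167671496823) (l 16777136)))) (a (l 279877516679) (c (a (l 16777304) (l 16776912)) (l 16777024)))) (a (l 298667999271) (l 108078824551))) (l 171966464535)))) (c (c (a (b (a (b (a (l 3) (c (l 228337909783) (l 227801038871))) (a (a (l 241222811687) (l 116668760247)) (l 16777040))) (a (b (l 16777264) (l 16776816)) (l 16776736))) (l 16776504)) (c (l 16775904) (l 16775904))) (a (b (a (c (l 161765916951) (l 161229046039)) (l 16776856)) (l 16776504)) (l 16775904))) (a (c (l 16777424) (l 16776768)) (l 16775904)))) (c (a (a (b (a (l 3) (a (l 337859575847) (b (l 3) (c (a (l 198273138743) (l 16777152)) (l 16777176))))) (c (a (b (l 293836161047) (a (l 211694911543) (l 16777088))) (a (a (b (l 120963727543) (l 16776920)) (l 16776960)) (l 16776792))) (a (l 181093269767) (l 16776912)))) (c (b (b (a (a (a (l 268603228215) (l 149954756711))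 (l 16777072)) (l 16776736)) (l 16776672)) (l 16776240)) (b (l 16777160) (l 16776240)))) (c (a (l 16775648) (l 16774768)) (l 16775208))) (a (a (a (l 241759682519) (l 114521277271)) (l 16776544)) (l 16775208)))) (c (a (c (b (a (b (l 16776592) (l 16775976)) (l 16775384)) (c (l 16774680) (l 16774680))) (b (l 16775824) (l 16774680))) (c (b (l 16774064) (l 16772928)) (l 16773496))) (a (l 16775248) (l 16773496)))) (c (b (a (c (b (a (l 16775016) (l 16774120)) (l 16773432)) (l 16774000)) (b (l 16772784) (l 16771648))) (a (c (l 16771736) (l 16771736)) (l 16769952))) (b (a (l 16774008) (l 16772216)) (l 16770840)))), by decide +kernel⟩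

def k40_pm_102_s : ∃ t, chk3 f_pm_102_s t 122 138 3 = true :=
  ⟨(a (c (b (a (b (a (l 3) (l 218674233799)) (c (l 88751473991) (l 16776824))) (c (l 16775800) (l 16775800))) (c (l 16774376) (l 16774376))) (b (a (b (l 260550164375) (l 16776816)) (l 16775808)) (l 16774376))) (c (b (c (l 16773112) (l 16773112)) (l 16770840)) (b (l 16773120) (l 16770840)))), by decide +kernel⟩

def k41_pm_102_s : ∃ t, chk3 f_pm_102_s t 122 139 1 = true :=
  ⟨(c (a (c (b (a (c (b (l 16773528) (l 16772376)) (l 16772952)) (c (l 16771208) (l 16771208))) (a (l 16770640) (l 16768904))) (b (a (l 16772952) (l 16771200)) (l 16769768))) (c (b (a (l 16769456) (l 16767680)) (l 16766272)) (b (l 16768560) (l 16766256)))) (c (a (c (l 16770928) (l 16770928)) (c (l 16767408) (l 16767400))) (a (l 16770920) (l 16767392)))), by decide +kernel⟩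

def k42_pm_102_s : ∃ t, chk3 f_pm_102_s t 123 69 1 = true :=
  ⟨(c (b (a (c (b (a (l 16770416) (l 16768608)) (a (l 16768152) (l 16766344))) (b (l 16769520) (l 16767248))) (c (b (l 16765880) (l 16763608)) (b (l 16765888) (l 16763608)))) (a (c (b (l 16764976) (l 16762688)) (l 16764152)) (b (l 16761320) (a (l 16754704) (l 16758120))))) (b (c (a (b (l 16769528) (l 16767248)) (b (l 16765896) (l 16763616))) (a (l 16768400) (l 16764768))) (a (c (l 16763816) (l 16763800)) (c (b (l 16761320) (l 16759048)) (l 16760224))))), by decide +kernel⟩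

def k43_pm_102_s : ∃ t, chk3 f_pm_102_s t 120 140 1 = true :=
  ⟨(b (a (l 3) (a (b (l 3) (c (c (a (l 3) (b (l 3) (c (a (l 287393710103) (b (l 178408915127) (l 16777008))) (l 170355851671)))) (l 256792068039)) (c (l 247128392407) (l 247128392375)))) (c (c (a (b (b (l 3) (c (a (l 3) (b (l 3) (l 194515042455))) (l 272361324551))) (b (c (a (b (l 279877517319) (l 96804536007)) (l 16776888)) (l 96267664567)) (l 16776504))) (b (c (b (a (l 309942288423) (b (l 208473686135) (l 16777056))) (a (b (l 112910663303) (l 16776896)) (l 16776608))) (b (l 185388237159) (l 16776848))) (c (l 16775936) (l 16775936)))) (b (a (l 287930580999) (l 102710117335)) (l 16776400))) (c (c (l 94657051911) (l 93583312695)) (l 16778048))))) (c (a (a (l 3) (c (b (a (l 3) (l 344838897079)) (b (a (l 3) (c (a (l 258939551735) (a (l 116131888775) (l 16776984))) (l 149954757063))) (c (a (a (l 3) (a (l 258939551735) (l 137069855015))) (l 16776704)) (a (l 229411651783) (l 16776704))))) (b (l 351818219559) (a (l 261087035351) (l 16776944)))))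 (c (a (c (b (a (b (a (l 3) (b (l 354502574119) (l 162839658647))) (a (a (l 206863073399) (l 93046439575)) (l 16776824))) (b (a (c (l 16777368) (l 16777000)) (l 16776552)) (l 16776176))) (l 16775704)) (b (a (b (l 256255197159) (l 16777008)) (l 16776480)) (l 16775704))) (c (b (l 16775176) (l 16773976)) (l 16774576))) (a (b (a (l 144586048327) (l 16776480)) (l 16775704)) (l 16774584)))) (a (c (c (l 248739001559) (l 248202133239)) (l 246054649543)) (c (c (l 16776808) (l 16775504)) (l 16775504))))), by decide +kernel⟩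

def k44_pm_102_s : ∃ t, chk3 f_pm_102_s t 120 141 1 = true :=
  ⟨(b (c (a (a (c (b (a (l 3) (b (c (l 311016030247) (l 309405417511)) (c (a (l 224042942423) (l 16777336)) (l 124184953335)))) (b (a (a (l 333027737639) (b (l 235317231767) (l 16777424))) (l 16776608)) (a (a (b (l 128479919783) (l 16776920)) (l 16776640)) (l 16775992)))) (b (l 235317231495) (l 16778032))) (c (a (b (a (b (b (a (l 313163513511) (l 16777344)) (l 16777032)) (l 16776568)) (l 16776440)) (l 16775432)) (c (l 16775184) (l 16775184))) (l 16775632))) (c (a (b (l 16774496) (l 16773280)) (l 16772656)) (l 16773032))) (c (a (a (b (l 224042943127) (l 16776720)) (l 16775632)) (l 16773040)) (a (a (l 16778168) (l 16775640)) (l 16773048)))) (c (c (a (c (a (b (l 16775504) (l 16774264)) (l 16773160)) (l 16774024)) (c (l 16771240) (l 16770584))) (a (l 16774032) (l 16770592))) (c (a (l 16774040) (l 16770608)) (l 16772328)))), by decide +kernel⟩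

def k45_pm_102_s : ∃ t, chk3 f_pm_102_s t 121 70 1 = true :=
  ⟨(c (b (a (c (b (a (c (b (a (l 16776256) (l 16775392)) (l 16774640)) (l 16775232)) (c (b (l 16774088) (l 16772912)) (l 16773504))) (c (a (l 16772856) (l 16771128)) (l 16771992))) (b (a (l 16775232) (l 16773504)) (l 16771992))) (c (b (a (c (l 16771776) (l 16771768)) (l 16770040)) (a (l 16769408) (l 16767680))) (b (l 16770904) (l 16768536)))) (c (a (b (c (l 16769592) (l 16769592)) (l 16767160)) (a (l 16765808) (l 16764088))) (a (b (l 16769592) (l 16767160)) (l 16764944)))) (b (c (a (c (l 16773184) (l 16773192)) (c (l 16769728) (l 16769728))) (a (l 16773192) (l 16769728))) (c (c (l 16766656) (l 16766656)) (l 16766664)))), by decide +kernel⟩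

def k46_pm_102_s : ∃ t, chk3 f_pm_102_s t 61 70 1 = true :=
  ⟨(a (c (c (b (a (b (l 16768104) (l 16765096)) (b (l 16763952) (l 16761608))) (a (l 16761504) (l 16758016))) (b (a (b (l 16767440) (l 16765080)) (l 16762760)) (a (l 16761480) (l 16757976)))) (b (c (a (c (l 16766256) (l 16766248)) (l 16762736)) (a (l 16766240) (l 16762712))) (c (a (l 16761464) (l 16757944)) (l 16759672)))) (a (b (c (c (l 16759208) (l 16759176)) (c (l 16759152) (l 16759120))) (c (a (l 16755320) (b (l 16754640) (l 16741288))) (c (a (l 16755264) (l 16753064)) (l 16754072)))) (c (a (b (b (l 16752392) (l 16755104)) (c (l 16740224) (l 16740128))) (b (b (l 16755472) (l 16752560)) (l 16747952))) (b (c (a (l 16756320) (l 16753864)) (a (l 16756288) (l 16753808))) (c (l 16739944) (l 16738528)))))), by decide +kernel⟩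

def k47_pm_102_s : ∃ t, chk3 f_pm_102_s t 30 71 1 = true :=
  ⟨(c (a (a (a (b (b (c (a (l 16773056) (l 16770680)) (l 16771552)) (c (l 16770328) (l 16769040))) (c (a (b (l 16764688) (l 16764688)) (b (l 16765592) (l 16762976))) (l 16765192))) (b (c (a (b (l 16766344) (l 16761208)) (l 16766008)) (l 16766880)) (b (c (l 16757784) (l 16763056)) (c (l 16755160) (l 16760448))))) (b (c (b (a (c (l 16760752) (l 16759448)) (l 16756008)) (l 16762416)) (a (l 16763448) (l 16754760))) (c (a (b (l 16759600) (l 16756968)) (c (l 16749600) (l 16744360))) (l 16758552)))) (a (b (b (c (l 16757408) (l 16756072)) (a (l 16750024) (l 16751632))) (a (c (l 16751376) (l 16751376)) (a (c (l 16737848) (l 16737808)) (l 16745992)))) (b (a (a (c (l 16739232) (l 16739152)) (l 16747168)) (c (l 16743256) (l 16743072))) (a (c (l 16742288) (l 16742120)) (l 16737000))))) (a (a (b (c (c (l 16768600) (l 16768616)) (l 16768632)) (c (a (l 16765240) (l 16755256)) (l 16763576))) (b (c (a (l 16763464) (l 16754760)) (l 16761736)) (c (l 16757928)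 (l 16756656)))) (a (b (a (c (l 16746032) (l 16735536)) (c (l 16752912) (l 16752880))) (a (c (l 16751384) (l 16751400)) (b (l 16740712) (l 16745480)))) (b (a (c (c (l 16737760) (l 16737704)) (l 16737632)) (c (l 16742880) (l 16742696))) (c (a (l 16741960) (l 16736600)) (l 16728592)))))), by decide +kernel⟩

def k48_pm_102_s : ∃ t, chk3 f_pm_102_s t 62 34 1 = true :=
  ⟨(b (a (b (b (a (c (c (a (b (c (l 16772680) (l 16772688)) (l 16771568)) (b (l 14) (l 16769712))) (a (l 16772136) (l 16770288))) (c (c (l 16771224) (l 16771240)) (l 16771256))) (l 14)) (c (a (c (a (l 16770056) (l 16768040)) (a (l 16769904) (l 16768056))) (c (l 16765560) (l 16765264))) (a (c (c (l 16769000) (l 16769008)) (l 16769024)) (c (l 16765296) (l 16765328))))) (a (c (c (b (a (l 16767648) (l 16765792)) (l 16764464)) (b (l 16766736) (l 16764480))) (c (b (l 16766760) (l 16764496)) (l 16765656))) (b (a (c (l 16763944) (l 16763992)) (a (c (l 16762552) (l 16762608)) (l 14))) (c (a (l 16761712) (b (l 16760024) (l 16753336))) (a (l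 16761760) (c (l 16759272) (l 16759280))))))) (b (l 14) (b (l 14) (a (a (c (l 16756328) (l 16756288)) (l 14)) (l 14))))) (a (c (b (a (b (c (l 16762200) (l 16762208)) (a (l 16755608) (l 16758192))) (a (b (c (l 16759088) (l 16759096)) (l 16750960)) (c (l 16749536) (l 16744256)))) (b (a (a (l 16758528) (l 16756008)) (c (l 16751688) (l 16751608))) (a (a (l 16755760) (l 16752992)) (l 16748592)))) (b (a (b (c (l 16762224) (l 16762240)) (a (l 16760864) (l 16758856))) (a (b (c (l 16759104) (l 16759112)) (l 16750920)) (c (l 16744216) (l 16754672)))) (a (a (c (l 16755752) (l 16757048)) (c (l 16754400) (l 16754368))) (c (l 16742120) (l 16749896))))) (b (a (a (c (b (l 16753256) (l 16750200)) (c (l 16751624) (l 16751560))) (c (l 16748664) (l 16753696))) (a (c (l 16745560) (l 16745280)) (l 14))) (c (a (c (l 16744208) (l 16744040)) (l 16737976)) (c (a (l 16743880) (l 16737624)) (a (l 16743720) (l 16737400))))))), by decide +kernel⟩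

def k49_pm_102_s : ∃ t, chk3 f_pm_102_s t 62 35 1 = true :=
  ⟨(a (a (b (c (b (b (l 16746120) (l 16743072)) (c (l 16743840) (l 16743648))) (c (b (l 16739208) (l 16743464)) (b (l 16739104) (l 16743280)))) (b (c (l 16737672) (l 16737128)) (c (l 16731608) (l 16730888)))) (c (b (b (c (l 16744128) (l 16743952)) (l 16738008)) (c (l 16734464) (l 16739312))) (b (b (a (l 16745192) (l 16742184)) (l 16742728)) (c (l 16733664) (l 16728024))))) (b (c (b (a (l 16738096) (l 16732008)) (a (l 16732112) (l 16726088))) (b (a (l 16737608) (l 16731376)) (a (l 16731448) (l 16725280)))) (c (a (b (l 16726192) (l 16720296)) (b (l 16720216) (l 16714400))) (b (a (l 16725336) (l 16719208)) (c (l 16716496) (l 16715928)))))), by decide +kernel⟩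

def k50_pm_102_s : ∃ t, chk3 f_pm_102_s t 63 17 1 = true :=
  ⟨(b (a (a (b (l 14) (b (l 14) (c (l 16731680) (l 16736320)))) (l 14)) (l 14)) (a (b (a (c (b (l 16725776) (l 16719920)) (c (l 16722192) (l 16721768))) (c (b (l 16719392) (l 16713608)) (c (l 16715736) (l 16715240)))) (c (a (b (l 16714112) (l 16708352)) (b (l 16707864) (l 16702160))) (a (c (l 16710280) (l 16709648)) (c (l 16703944) (l 16703232))))) (a (a (b (c (l 16711640) (l 16710512)) (c (l 16700256) (l 16698712))) (b (l 14) (c (l 16697032) (l 16695408)))) (b (l 14) (c (b (l 16694912) (l 16689344)) (c (l 16690816) (l 16689952))))))), by decide +kernel⟩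

def k51_pm_102_s : ∃ t, chk3 f_pm_102_s t 56 18 1 = true :=
  ⟨(b (l 3) (a (b (l 3) (b (c (a (b (l 3) (c (a (l 162302790279) (l 16777968)) (l 16776848))) (c (b (a (l 161229048423) (l 16778544)) (l 16774760)) (l 30232547127))) (c (c (l 84993384487) (l 84456513399)) (l 83382772743))) (c (c (a (l 16773568) (l 16770896)) (l 16772224)) (c (l 16772192) (l 16772160))))) (b (b (a (l 3) (a (l 3) (c (c (l 307257934359) (l 312089772391)) (l 311552901223)))) (c (b (c (a (l 317458481655) (c (a (l 139217339431) (l 16776296)) (l 78014055111))) (a (l 322290319719) (l 16776744))) (c (a (c (a (l 154786597159) (l 16776456)) (l 87140863495)) (l 16774424)) (a (l 16776872) (l 16774432)))) (c (c (a (l 145122923415) (l 16775632)) (l 80698411671)) (l 80698417703)))) (c (c (b (a (b (l 16774624) (l 16772040)) (l 16770568)) (a (l 16768184) (l 16765424))) (b (l 16771960) (l 16766808))) (c (b (l 16771968) (l 16766816)) (l 16769424)))))), by decide +kernel⟩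

def k52_pm_102_s : ∃ t, chk3 f_pm_102_s t 57 18 1 = true :=
  ⟨(b (b (l 3) (a (a (l 3) (a (l 3) (b (l 3) (b (l 3) (b (l 3) (c (c (l 158544692679) (l 16777120)) (l 16777096))))))) (b (a (l 3) (b (l 3) (c (c (a (l 306184192311) (b (l 243370295399) (c (l 16778072) (l 16776760)))) (a (l 310479159495) (l 118816246279))) (c (l 162839661703) (l 16776976))))) (a (c (c (a (b (l 3) (c (b (l 134922372423) (l 16776160)) (l 16778000))) (b (b (l 326585286919) (c (l 108078826807) (l 16777056))) (l 16775312))) (b (l 218137362359) (l 16776064))) (c (c (l 100025766967) (l 98952025111)) (l 16779936))) (c (c (b (c (a (b (l 74792827863) (l 16775728)) (l 16774848)) (l 16777624)) (l 16773048)) (b (l 16775664) (l 16773080))) (c (l 16775720) (l 16774432))))))) (b (c (a (b (c (a (a (b (l 3) (b (l 228337910871) (l 16776768))) (b (l 250886488263) (l 16776048))) (b (a (b (l 182167012759) (l 16776536)) (l 16775712)) (l 16773856))) (b (a (l 290614935783) (l 16776336)) (a (l 16776560) (l 16773872)))) (c (a (b (l 16774168)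 (l 16771600)) (l 16770016)) (l 16771480))) (b (c (a (b (l 16773488) (l 16770928)) (c (l 16769224) (l 16769248))) (l 16770768)) (c (a (l 16767112) (l 16764176)) (l 16765720)))) (a (c (b (c (a (l 128479925175) (l 16775216)) (a (l 127943054135) (l 16775216))) (l 16771504)) (b (a (l 16779320) (l 16775224)) (l 16771528))) (c (b (l 16770808) (l 16765792)) (l 16768384)))) (c (a (c (b (a (l 16767760) (l 16764912)) (l 16761216)) (b (l 16766376) (l 16761264))) (c (b (a (l 16762024) (l 16759120)) (l 16755496)) (b (l 16760672) (l 16755608)))) (c (a (c (l 16763872) (l 16763896)) (c (l 16758240) (l 16758288))) (a (l 16763936) (l 16758368)))))), by decide +kernel⟩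

def k53_pm_102_s : ∃ t, chk3 f_pm_102_s t 58 72 1 = true :=
  ⟨(b (a (l 3) (a (a (l 3) (b (l 3) (c (b (l 3) (c (a (l 284172484711) (b (l 205252461095) (l 16776912))) (l 16777768))) (c (l 208473687495) (l 16777096))))) (a (c (b (c (b (l 3) (l 331417125015)) (l 336785834071)) (c (b (c (a (l 223506071527) (b (l 16777456) (l 16776536))) (l 122574338663)) (l 16776304)) (l 53317995047))) (b (l 330343382983) (c (l 16776624) (l 16776616)))) (c (c (b (b (c (a (l 3) (l 242296553479)) (l 266455744551)) (a (b (l 249812746263) (l 16777512)) (l 16777144))) (c (l 16774952) (l 16774960))) (b (b (l 251423359959) (l 16776888)) (l 16774968))) (c (c (l 51170510503) (l 16778880)) (l 16778872)))))) (a (a (l 3) (c (b (a (l 3) (c (c (l 305110450471) (l 307257934055)) (l 306184192151))) (c (a (b (l 330880254199) (c (a (l 202031235799) (l 16776880)) (l 117742503159))) (b (c (a (l 141364822967) (l 16776592)) (l 16776912)) (l 16775680))) (a (l 169818982567) (l 16776392)))) (c (b (l 319069093975) (c (l 16776816) (l 16776808)))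 (l 153175987463)))) (c (c (a (b (c (a (b (a (l 3) (l 180556399319)) (a (l 82309021383) (l 16776256))) (b (l 16777328) (l 16775024))) (a (b (l 219211105079) (l 16776696)) (l 16775688))) (c (l 16773904) (l 16773920))) (b (c (l 16773232) (l 16773248)) (l 16770736))) (a (a (b (l 111300053655) (l 16774736)) (l 16774416)) (l 16772008))) (c (a (c (l 16779256) (l 16775336)) (l 16772048)) (a (l 16775360) (l 16772096)))))), by decide +kernel⟩

def k54_pm_102_s : ∃ t, chk3 f_pm_102_s t 58 73 1 = true :=
  ⟨(c (a (a (b (c (b (a (b (l 3) (c (l 213842395111) (l 193978172487))) (b (c (a (l 269140099191) (l 98415150087)) (l 155323466983)) (l 16776280))) (a (c (b (l 16776560) (l 16775240)) (l 16775912)) (l 16774336))) (b (a (l 225116685959) (l 16776784)) (l 16775144))) (c (b (l 16772552) (l 16770008)) (l 16771328))) (b (c (b (a (l 16775664) (l 16773752)) (l 16771984)) (l 16773304)) (c (b (l 16769456) (l 16766944)) (l 16768280)))) (b (c (a (b (l 16771352) (l 16768832)) (b (l 16768256) (l 16765792))) (a (l 16770160)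 (l 16767104))) (c (a (l 16765104) (l 16762112)) (l 16763720)))) (a (b (a (c (c (l 60297317143) (l 60834190343)) (l 16781408)) (c (l 16773336) (l 16773376))) (c (l 16767248) (l 16769936))) (c (b (c (l 16768696) (l 16768728)) (l 16763832)) (b (l 16768784) (l 16763952))))), by decide +kernel⟩

def k55_pm_102_s : ∃ t, chk3 f_pm_102_s t 59 36 1 = true :=
  ⟨(b (c (a (c (b (a (b (b (a (a (a (b (l 224042942791) (l 16776832)) (l 16777392)) (l 16776080)) (l 16774776)) (c (l 16774344) (l 16774352))) (c (l 16772456) (l 16772472))) (b (c (l 16772880) (l 16771584)) (l 16769176))) (a (b (l 16770032) (l 16767648)) (b (l 16766864) (l 16764592)))) (b (a (b (a (l 16775888) (l 16774160)) (l 16772496)) (l 16770408)) (a (l 16768880) (l 16765760)))) (b (c (a (b (l 16768192) (l 16765920)) (a (l 16764576) (l 16762928))) (a (l 16767096) (l 16763792))) (c (a (l 16762648) (l 16759592)) (a (l 16762664) (l 16759584))))) (a (b (c (a (c (l 16773776) (l 16773792)) (l 16770456)) (a (l 16773816) (l 16770504))) (c (c (l 16767336)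 (l 16767360)) (l 16767392))) (c (b (c (l 16765472) (l 16765496)) (l 16759808)) (b (l 16765536) (l 16761120))))) (c (a (b (c (a (b (l 16765272) (l 16762880)) (l 16761192)) (a (l 16764128) (l 16761224))) (c (a (l 16759304) (l 16756592)) (l 16758008))) (b (c (a (l 16758328) (l 16755496)) (l 16756880)) (c (a (l 16753600) (l 16750256)) (l 16752320)))) (a (c (b (l 16760064) (l 16758072)) (b (l 16762736) (l 16758136))) (c (b (l 16756840) (l 16752520)) (l 16749392))))), by decide +kernel⟩

def k56_pm_102_s : ∃ t, chk3 f_pm_102_s t 29 37 1 = true :=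
  ⟨(a (b (c (a (c (b (a (l 16766232) (l 16763208)) (a (l 16761216) (l 16758232))) (b (l 16764816) (l 16759856))) (c (b (a (l 16760168) (l 16757240)) (a (l 16755248) (l 16752376))) (b (l 16758856) (l 16753992)))) (a (c (b (l 16764928) (l 16759992)) (l 16762608)) (c (b (l 16759008) (l 16754184)) (l 16756792)))) (c (a (c (b (l 16754720) (l 16749712)) (b (l 16754880) (l 16749880))) (c (b (l 16748896) (l 16743968)) (b (l 16749112) (l 16744184)))) (b (c (a (l 16755048) (l 16749320)) (l 16752320)) (a (l 16750136) (l 16740560))))) (a (b (c (b (c (a (l 16754504) (l 16751928)) (l 16753320)) (c (l 16745800) (l 16748560))) (c (b (l 16753416) (l 16748688)) (l 16751200))) (c (b (c (l 16738408) (l 16743800)) (a (l 16734888) (c (l 16737256) (l 16737352)))) (c (b (l 16743944) (l 16738840)) (l 16736240)))) (b (c (b (c (l 16745480) (l 16747272)) (a (l 16743744) (c (l 16740320) (l 16740968)))) (b (c (l 16747776) (l 16747992)) (c (l 16736248) (l 16743304)))) (c (b (a (c (l 16739064) (l 16739696)) (l 16736648)) (c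 (l 16732368) (l 16732248))) (b (c (l 16732744) (l 16737832)) (l 16732008)))))), by decide +kernel⟩

def k57_pm_102_s : ∃ t, chk3 f_pm_102_s t 30 18 2 = true :=
  ⟨(b (a (b (a (b (c (a (l 16760464) (l 16757176)) (a (l 16760496) (l 16757192))) (c (a (l 16756552) (l 16753512)) (l 16754968))) (b (a (l 16755184) (b (l 16740872) (l 16749744))) (a (l 16750440) (c (l 16746936) (l 16746736))))) (a (a (b (l 16751256) (l 16747120)) (b (l 16746680) (c (l 16743912) (l 16744496)))) (b (a (c (l 16746336) (l 16746384)) (l 16742536)) (c (l 16740088) (l 16739608))))) (b (a (a (b (a (l 16747768) (l 16735096)) (l 16732104)) (c (l 16729728) (l 16729384))) (b (a (l 16737144) (l 16732040)) (a (l 16733152) (l 16728152)))) (a (c (l 16734016) (l 16733296)) (a (b (l 16728952) (l 16724560)) (b (l 16724064) (l 16719776)))))) (a (b (a (b (a (c (l 16741888) (l 16742536)) (l 16740048)) (c (l 16737040) (l 16736936))) (c (l 16731256) (l 16731872))) (a (c (b (l 16731584) (l 16725712)) (l 16728200)) (c (l 16721768) (l 16720864))))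 (a (b (b (l 16726568) (l 16721584)) (c (b (l 16706528) (l 16701192)) (c (l 16702904) (l 16691720)))) (a (b (b (l 16719960) (l 16715160)) (b (l 16710168) (l 16704968))) (b (b (l 16715296) (l 16710616)) (l 16713728)))))), by decide +kernel⟩

def k58_pm_102_s : ∃ t, chk3 f_pm_102_s t 31 18 2 = true :=
  ⟨(a (b (a (b (a (b (l 16726752) (l 16722960)) (b (l 16721280) (l 16717584))) (a (l 16722160) (l 16711696))) (b (a (b (l 16715632) (l 16712024)) (b (l 16709800) (l 16706272))) (a (l 16706272) (l 16700664)))) (a (b (b (l 16718400) (l 16713896)) (c (l 16707824) (l 16695240))) (b (a (l 16697968) (l 16692560)) (a (l 16688920) (l 16683736))))) (b (a (b (a (b (l 16703816) (l 16700344)) (b (l 16697672) (l 16694256))) (a (l 16694864) (l 16688872))) (b (a (l 16689720) (l 16683312)) (a (l 16682712) (l 16676392)))) (a (b (a (l 16686952) (l 16681144)) (a (l 16678344) (l 16672744))) (b (a (l 16675144) (l 16668944)) (a (l 16666944) (l 16660936)))))), by decide +kernel⟩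

def k59_pm_102_s : ∃ t, chk3 f_pm_102_s t 30 18 3 = true :=
  ⟨(b (a (b (a (c (b (c (l 16758856) (l 16758872)) (l 16754896)) (b (l 16758896) (l 16754816))) (b (c (b (l 16742584) (l 16751320)) (l 16752224)) (a (l 16750168) (c (l 16746512) (l 16746272))))) (a (b (c (l 16751000) (l 16750824)) (a (l 16748176) (c (l 16745128) (l 16744872)))) (b (a (c (l 16746096) (l 16745776)) (l 16741680)) (c (l 16739072) (l 16738480))))) (b (b (a (a (c (l 16735968) (l 16725376)) (l 16741616)) (c (l 16734000) (l 16733584))) (a (c (l 16729168) (l 16718232)) (a (l 16731888) (l 16726632)))) (a (c (b (l 16724448) (l 16719560)) (l 16715952)) (c (a (l 16725288) (l 16720240)) (l 16705888))))) (a (b (a (b (c (a (l 16743224) (l 16740120)) (l 16741472)) (c (l 16736504) (l 16736008))) (c (l 16731104) (l 16730256))) (a (c (l 16727664) (l 16727056)) (c (c (l 16699152) (l 16698624)) (l 16697800)))) (b (a (c (c (l 16701720) (l 16701112)) (l 16700160)) (c (a (l 16715464) (l 16710608)) (l 16711408))) (a (c (b (l 16714344) (l 16708776))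 (l 16710008)) (c (l 16713152) (l 16700640)))))), by decide +kernel⟩

def k60_pm_102_s : ∃ t, chk3 f_pm_102_s t 31 18 3 = true :=
  ⟨(b (a (b (a (c (a (l 16723808) (l 16718232)) (b (l 16722480) (l 16717936))) (c (a (l 16712488) (l 16706560)) (a (l 16711536) (l 16705528)))) (a (c (a (l 16715008) (l 16709600)) (l 16710880)) (c (l 16701136) (l 16699472)))) (a (b (c (a (l 16700480) (l 16694248)) (a (l 16699360) (l 16693048))) (a (l 16701880) (l 16695704))) (b (a (c (l 16687848) (l 16686568)) (c (l 16681312) (l 16679952))) (a (l 16669712) (c (l 16673424) (l 16671352)))))) (a (b (a (c (l 16702968) (l 16700992)) (c (l 16692136) (l 16689888))) (a (c (l 16692984) (l 16690576)) (c (l 16682544) (l 16679808)))) (a (b (c (l 16680576) (l 16678096)) (c (l 16671344) (l 16668328))) (b (a (l 16670128) (l 16663744)) (c (l 16659384) (l 16656136)))))), by decide +kernel⟩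

def k61_pm_102_s : ∃ t, chk3 f_pm_102_s t 28 19 1 = true :=
  ⟨(b (a (c (b (a (c (b (l 16765800) (l 16762008)) (b (l 16767040) (l 16761856))) (c (b (l 16761680) (l 16756600)) (b (l 16761656) (l 16756480)))) (a (b (l 16756792) (l 16751624)) (c (b (l 16751520) (l 16746440)) (l 16748696)))) (b (c (a (c (l 16764376) (l 16764312)) (l 16758992)) (a (l 16764208) (l 16758872))) (c (a (l 16753664) (l 16748344)) (l 16750576)))) (b (c (a (c (b (l 16756112) (l 16751024)) (l 16753576)) (c (b (l 16750432) (l 16745368)) (l 16747976))) (c (a (l 16753552) (l 16748024)) (l 16745528))) (c (c (a (b (l 16745952) (l 16740904)) (b (l 16740312) (l 16735280))) (a (l 16743232) (l 16732472))) (c (a (l 16742952) (l 16737544)) (l 16729448))))) (a (a (b (c (c (l 16744168) (l 16743576)) (l 16742480)) (c (c (l 16734056) (l 16733224)) (l 16731680))) (b (c (c (l 16738856) (l 16738264)) (l 16737160)) (c (b (l 16720408) (c (l 16725784) (l 16724840))) (b (l 16708008) (l 16723096))))) (a (b (b (c (l 16730560) (l 16734600)) (c (c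 (l 16730752) (l 16730160)) (l 16729064))) (c (b (c (l 16725104) (l 16724336)) (l 16718488)) (c (l 16720096) (l 16697992)))) (b (c (b (c (a (l 16731632) (l 16728424)) (l 16729648)) (c (l 16718856) (l 16723624))) (c (b (l 16729264) (l 16702080)) (l 16725456))) (c (a (b (l 16708896) (l 16712896)) (b (l 16715584) (l 16709064))) (c (l 16692040) (l 16712064))))))), by decide +kernel⟩

def k62_pm_102_s : ∃ t, chk3 f_pm_102_s t 29 19 1 = true :=
  ⟨(b (a (b (c (a (c (b (l 16744696) (l 16739680)) (l 16742328)) (b (c (l 16733808) (l 16739240)) (a (l 16732848) (c (l 16732152) (l 16732280))))) (a (c (l 16742440) (l 16742536)) (c (b (l 16739416) (l 16733936)) (l 16736744)))) (c (a (b (c (a (l 16736072) (l 16733152)) (l 16734624)) (c (a (l 16730824) (l 16727296)) (l 16728888))) (a (c (b (l 16729704) (l 16723440)) (l 16726520)) (b (l 16715536) (l 16719592)))) (a (c (b (l 16734600) (l 16728744)) (l 16731456)) (c (a (l 16726496) (l 16701816)) (l 16724520))))) (b (c (a (b (a (c (l 16734680) (l 16734816)) (l 16731384))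 (c (l 16726856) (l 16726888))) (c (b (l 16726208) (l 16709480)) (l 16722920))) (a (c (b (l 16733088) (l 16705928)) (l 16729912)) (c (l 16722688) (l 16701456)))) (b (c (a (a (l 16711840) (l 16718736)) (c (l 16713640) (l 16713384))) (c (c (l 16695776) (l 16695688)) (l 16695544))) (c (c (a (l 16714120) (l 16707248)) (a (l 16714016) (l 16706928))) (c (c (l 16689264) (l 16689152)) (l 16688952)))))) (a (a (b (c (a (c (l 16721584) (l 16721272)) (b (l 16710368) (l 16714360))) (c (l 16718992) (l 16697624))) (c (c (a (l 16708760) (l 16704784)) (l 16727168)) (c (l 16705528) (l 16704784)))) (c (b (c (b (l 16725576) (l 16708616)) (b (l 16714952) (l 16708360))) (c (a (l 16700784) (l 16696864)) (l 16698384))) (c (b (b (l 16714768) (l 16708072)) (l 16697896)) (b (l 16711160) (l 16697376))))) (a (c (b (c (b (l 16707664) (l 16701160)) (l 16714672)) (c (b (l 16694600) (l 16687992)) (l 16690872))) (c (b (l 16703936) (l 16690424)) (b (l 16703648) (l 16689944)))) (c (b (c (b (l 16700784) (l 16694256)) (l 16697120))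 (b (l 16692664) (l 16691232))) (c (b (l 16696680) (l 16683216)) (b (l 16696200) (l 16682592))))))), by decide +kernel⟩

def k63_pm_102_s : ∃ t, chk3 f_pm_102_s t 15 19 2 = true :=
  ⟨(a (b (b (b (a (a (c (l 16709160) (l 16698128)) (a (l 16714304) (l 16710856))) (a (a (l 16707264) (l 16703520)) (l 16708000))) (a (a (c (l 16713408) (l 16712832)) (c (l 16707024) (l 16705976))) (a (l 16706656) (l 16691984)))) (a (a (c (b (l 16707112) (l 16700736)) (b (l 16706504) (l 16700088))) (b (c (l 16700816) (l 16699736)) (l 16704400))) (a (b (l 16704048) (l 16697880)) (c (l 16694864) (l 16682240))))) (b (b (a (a (l 16699192) (l 16697968)) (a (l 16691544) (l 16674192))) (a (a (l 16697888) (l 16680968)) (a (l 16674576) (l 16667920)))) (a (a (c (l 16688352) (l 16677032)) (c (l 16671656) (l 16670432))) (a (c (l 16665568) (l 16663848)) (c (l 16659344) (l 16657072)))))) (a (b (a (b (a (l 16688400) (l 16683880)) (b (l 16678048) (l 16672408))) (b (a (l 16679152) (l 16674200)) (b (l 16668968) (l 16663592)))) (b (a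 (c (l 16664944) (l 16662200)) (l 16665688)) (a (c (l 16652520) (l 16649704)) (l 16653840)))) (b (a (b (l 16676864) (l 16656496)) (b (l 16665696) (l 16666776))) (a (b (l 16666896) (l 16634648)) (b (l 16635760) (l 16625040)))))), by decide +kernel⟩

def k64_pm_102_s : ∃ t, chk3 f_pm_102_s t 15 19 3 = true :=
  ⟨(a (c (a (b (b (a (c (l 16694576) (l 16715216)) (b (l 16710944) (l 16704832))) (a (l 16702616) (l 16695400))) (b (a (l 16689536) (l 16682416)) (a (l 16676152) (l 16669128)))) (b (b (a (l 16710592) (l 16691632)) (a (l 16687936) (l 16679944))) (a (b (l 16675216) (l 16662024)) (b (l 16667560) (l 16654648))))) (a (b (b (a (l 16693704) (l 16706688)) (a (l 16701856) (l 16694120))) (b (a (l 16688704) (l 16681096)) (l 16671464))) (b (b (a (l 16698320) (l 16689328)) (a (l 16686056) (l 16677472))) (a (b (l 16673296) (l 16660080)) (b (l 16665016) (l 16652064)))))) (a (b (b (a (c (l 16682376) (l 16679632)) (c (l 16672352) (l 16669216))) (a (c (l 16671144) (l 16668160)) (c (l 16661552) (l 16658120))))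 (a (b (c (l 16659256) (l 16656112)) (c (l 16646688) (l 16643480))) (b (c (l 16650136) (l 16646472)) (l 16629640)))) (b (a (b (c (l 16661552) (l 16658088)) (c (l 16651184) (l 16647360))) (b (c (l 16649968) (l 16646224)) (c (l 16640008) (l 16635856)))) (a (b (c (l 16640208) (l 16636096)) (l 16618296)) (b (c (l 16629480) (l 16624976)) (c (l 16618360) (l 16613576))))))), by decide +kernel⟩

def k65_pm_102_s : ∃ t, chk3 f_pm_102_s t 24 5 1 = true :=
  ⟨(a (b (b (b (b (b (l 3) (c (l 129016805559) (l 138143608247))) (b (c (l 16774904) (l 16775128)) (c (l 16769272) (l 16769744)))) (b (c (b (l 16762928) (l 16755720)) (b (l 16764128) (l 16757088))) (b (c (b (l 16750792) (l 16748520)) (l 16755992)) (b (c (b (l 16747456) (l 16746840)) (l 16748560)) (c (l 16745208) (l 16746072)))))) (c (b (l 16733688) (l 16712432)) (b (l 16734056) (l 16711888)))) (b (b (c (l 16690416) (l 16688592)) (c (l 16667600) (l 16663992))) (b (c (l 16645544) (l 16639960)) (l 16621048)))) (b (b (b (b (b (c (c (l 125795578679) (l 16774584))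 (l 131701157431)) (c (c (l 16774552) (l 16774672)) (l 16774872))) (c (b (l 16769144) (l 16763408)) (b (l 16769536) (l 16764096)))) (b (c (b (l 16757344) (l 16750696)) (b (l 16758648) (l 16752648))) (b (c (l 16745048) (l 16747000)) (b (c (l 16742688) (l 16743608)) (c (l 16750672) (l 16740936)))))) (c (b (l 16749560) (b (l 16712624) (l 16702032))) (b (l 16749944) (b (l 16712488) (l 16701552))))) (b (c (b (l 16686088) (l 16664376)) (b (l 16684968) (l 16662008))) (b (a (l 16640728) (l 16639144)) (l 16659416))))), by decide +kernel⟩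

def k66_pm_102_s : ∃ t, chk3 f_pm_102_s t 25 5 1 = true :=
  ⟨(a (b (b (b (b (c (b (c (l 16773704) (l 16773872)) (l 16768392)) (c (l 16771368) (l 16771400))) (c (b (l 16762808) (l 16757224)) (b (l 16763384) (l 16758056)))) (b (b (c (l 16751448) (l 16752736)) (c (l 16745360) (l 16747424))) (b (c (l 16740336) (l 16742064)) (b (c (b (l 16737888) (l 16736600)) (b (l 16738656) (l 16737272))) (c (l 16734680) (l 16735120)))))) (b (c (l 16722648) (l 16722640)) (c (b (l 16706592) (l 16696088)) (b (l 16706184) (l 16695464))))) (b (b (c (l 16680328) (l 16679272)) (c (l 16659376) (l 16657584))) (b (c (l 16638088) (l 16635088)) (c (l 16616288) (l 16611552))))) (b (b (b (b (c (b (l 16767040) (l 16761584)) (c (l 16764648) (l 16764648))) (c (b (l 16756120) (l 16750712)) (b (l 16756800) (l 16751568)))) (b (b (c (l 16745224) (l 16746360)) (c (l 16739704) (l 16741160))) (b (c (b (l 16736248) (l 16733896)) (l 16735784)) (b (c (b (l 16731856) (l 16730448)) (l 16744552)) (c (l 16728280) (l 16728264)))))) (c (b (b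 (l 16721376) (l 16710512)) (l 16694400)) (b (l 16694568) (l 16693504)))) (b (b (c (l 16673488) (l 16672184)) (c (l 16652744) (l 16650864))) (c (l 16663864) (b (l 16629632) (l 16607664)))))), by decide +kernel⟩

def k67_pm_102_s : ∃ t, chk3 f_pm_102_s t 13 20 1 = true :=
  ⟨(b (a (c (a (a (b (l 16758872) (l 16748176)) (b (l 16755168) (l 16744600))) (b (b (l 16752240) (l 16746936)) (b (l 16741728) (l 16736664)))) (a (b (c (l 16757576) (l 16757504)) (c (l 16747296) (l 16747224))) (b (c (l 16749592) (l 16749328)) (c (l 16739568) (l 16739288))))) (c (b (a (b (l 16743392) (l 16738360)) (a (l 16723104) (b (l 16731120) (l 16725776)))) (a (b (l 16722864) (a (l 16730664) (l 16725608))) (a (b (l 16725744) (l 16719840)) (b (l 16719832) (l 16713528))))) (a (b (c (l 16740232) (l 16739600)) (b (l 16732320) (l 16727040))) (b (a (l 16731984) (c (l 16726920) (l 16725688))) (a (b (l 16723936) (l 16717840)) (l 16714080)))))) (b (a (b (a (c (l 16738640) (l 16739552)) (c (l 16731944) (l 16731752))) (c (a (l 16733792)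 (c (l 16726448) (l 16726432))) (a (l 16734368) (l 16726120)))) (a (c (b (a (l 16725200) (l 16719712)) (l 16716400)) (b (l 16721232) (l 16714984))) (c (c (l 16707792) (l 16706616)) (a (l 16708096) (l 16700816))))) (b (a (c (a (c (l 16738960) (l 16728648)) (l 16720432)) (a (l 16739160) (l 16719816))) (a (c (l 16710000) (l 16708328)) (c (a (l 16700704) (l 16693936)) (l 16694312)))) (a (c (a (b (l 16724080) (l 16699928)) (b (l 16715544) (b (l 16691840) (l 16711152)))) (a (b (l 16723840) (l 16720416)) (b (l 16714640) (l 16711024)))) (a (c (b (l 16704832) (l 16716928)) (b (l 16702944) (l 16699160))) (c (b (l 16712928) (c (l 16709896) (l 16687360))) (b (l 16688728) (l 16675632)))))))), by decide +kernel⟩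

def k68_pm_102_s : ∃ t, chk3 f_pm_102_s t 13 21 1 = true :=
  ⟨(a (c (a (b (b (l 16713824) (l 16702864)) (l 16686656)) (b (a (l 16701816) (l 16696848)) (l 16677608))) (a (b (b (l 16713112) (l 16701904)) (l 16685352)) (b (l 16718952) (l 16675720)))) (c (a (b (a (l 16691328) (l 16685264)) (l 16666480)) (b (a (l 16678688) (l 16671576)) (l 16674280))) (a (b (l 16706976) (l 16663656)) (b (a (l 16675424) (l 16667584)) (l 16649168))))), by decide +kernel⟩

def k69_pm_102_s : ∃ t, chk3 f_pm_102_s t 13 11 1 = true :=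
  ⟨(a (b (a (b (c (l 16665480) (l 16663704)) (c (l 16645000) (l 16642832))) (c (b (l 16656344) (l 16635632)) (b (l 16654000) (l 16632832)))) (c (a (b (l 16624736) (l 16604768)) (b (l 16615656) (l 16595920))) (b (a (l 16621984) (l 16612448)) (a (l 16601256) (l 16592120))))) (a (b (c (b (l 16645152) (l 16624392)) (b (l 16641872) (l 16620656))) (b (c (l 16604200) (l 16600000)) (c (l 16584760) (l 16580136)))) (b (c (b (l 16631952) (l 16611152)) (b (l 16627336) (l 16606080))) (c (l 16623032) (l 16596296))))), by decide +kernel⟩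

def k70_pm_102_s : ∃ t, chk3 f_pm_102_s t 14 40 1 = true :=
  ⟨(a (a (b (c (a (b (c (l 16726144) (l 16725144)) (l 16719648)) (b (l 16719208) (l 16697032))) (a (c (l 16720744) (l 16719280)) (l 16713200))) (c (a (l 16710032) (b (l 16706264) (l 16699712))) (b (a (l 16710312) (l 16703056)) (l 16720856)))) (c (b (a (b (l 16722488) (l 16705472)) (c (l 16701680) (l 16700576))) (a (l 16716528) (l 16708792))) (b (a (l 16727000) (l 16698696)) (c (l 16710264) (l 16687504))))) (a (c (b (c (a (l 16704200) (a (l 16687632) (l 16683632))) (a (l 16692800) (l 16684904))) (c (a (l 16680464) (l 16693216)) (a (l 16679184) (l 16671176)))) (b (c (a (l 16691792) (l 16684104)) (l 16686944)) (a (l 16677088) (c (l 16670056) (l 16668880))))) (c (c (b (a (l 16688472) (l 16670976)) (a (l 16685456) (l 16657336))) (b (a (l 16677328) (l 16670232)) (a (l 16663528) (l 16656368)))) (c (b (a (l 16676648) (l 16669456)) (a (l 16662544) (l 16655376))) (b (l 16672256) (l 16657840)))))), by decide +kernel⟩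

def k71_pm_102_s : ∃ t, chk3 f_pm_102_s t 14 41 1 = true :=
  ⟨(b (a (a (a (c (l 16717920) (l 16693328)) (c (l 16689656) (l 16685736))) (a (c (l 16682032) (l 16678072)) (c (l 16674136) (l 16670344)))) (a (c (a (l 16686976) (c (l 16658472) (l 16657064))) (c (l 16680440) (l 16657800))) (a (c (c (l 16650568) (l 16649304)) (l 16668328)) (c (c (l 16643328) (l 16642080)) (l 16661128))))) (a (a (b (c (l 16683048) (l 16678872)) (b (c (l 16677376) (l 16673008)) (c (a (l 16677216) (l 16669496)) (l 16668896)))) (b (c (l 16688432) (l 16663136)) (c (b (l 16661544) (a (l 16661488) (l 16653248))) (b (l 16657032) (l 16652728))))) (a (b (c (a (l 16655168) (l 16646832)) (l 16647280)) (c (b (a (l 16649120) (l 16640712)) (a (l 16644832) (l 16636360))) (b (l 16640984) (l 16636536)))) (c (b (a (l 16638912) (l 16631576)) (b (a (l 16632736) (l 16625360)) (a (l 16628336) (l 16620920)))) (b (a (l 16635824) (l 16628616)) (b (l 16625752) (l 16621208))))))), by decide +kernel⟩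

def k72_pm_102_s : ∃ t, chk3 f_pm_102_s t 14 21 1 = true :=
  ⟨(a (a (b (a (c (l 16664096) (l 16659472)) (c (l 16656184) (l 16651176))) (c (a (l 16642168) (l 16634048)) (l 16653600))) (c (b (a (l 16647896) (l 16639448)) (a (l 16625600) (l 16616848))) (b (a (l 16642720) (l 16634352)) (l 16636328)))) (a (c (b (a (l 16630848) (l 16622216)) (a (l 16607856) (l 16598912))) (b (a (l 16626016) (l 16617760)) (l 16597672))) (c (b (a (l 16614048) (l 16606512)) (a (l 16590472) (l 16582696))) (b (l 16627032) (l 16581112))))), by decide +kernel⟩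

def k73_pm_102_s : ∃ t, chk3 f_pm_102_s t 30 20 1 = true :=
  ⟨(b (a (a (c (b (c (l 16664440) (l 16663464)) (c (l 16650728) (l 16649584))) (b (l 16672408) (l 16668768))) (c (b (c (l 16658224) (l 16656896)) (c (l 16644488) (l 16643032))) (b (l 16665272) (l 16640744)))) (c (b (a (c (l 16652176) (l 16650392)) (c (l 16645976) (l 16643680))) (a (c (l 16638448) (l 16636576)) (c (l 16632296) (l 16629944)))) (b (a (l 16658016) (l 16660936)) (a (l 16633608) (l 16626192))))) (b (c (a (a (c (l 16636592) (l 16635232)) (c (l 16630288) (l 16628672))) (a (c (l 16624224) (l 16622240)) (c (l 16618088) (l 16615664)))) (a (a (l 16654128) (l 16647152)) (a (l 16619144) (l 16611848)))) (c (b (a (a (l 16624728) (l 16618240)) (a (l 16611976) (l 16605640))) (a (b (a (l 16618456) (l 16611936)) (a (l 16613992) (l 16607432))) (b (a (l 16605656) (l 16599328)) (a (l 16601136) (l 16594800))))) (b (a (c (l 16618944) (l 16617280)) (a (l 16607712) (l 16600512))) (a (b (c (l 16612552) (l 16610832)) (c (l 16607968) (l 16606184)))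 (b (a (l 16601336) (l 16594184)) (a (l 16596768) (l 16589640)))))))), by decide +kernel⟩

def k74_pm_102_s : ∃ t, chk3 f_pm_102_s t 31 20 1 = true :=
  ⟨(b (a (c (b (a (c (l 16639472) (l 16636608)) (c (l 16632360) (l 16628952))) (a (c (l 16625824) (l 16622952)) (c (l 16619040) (l 16615608)))) (b (a (l 16642472) (l 16633904)) (a (l 16618352) (l 16631056)))) (b (c (a (l 16622600) (l 16613584)) (a (l 16624688) (c (l 16606632) (l 16601656)))) (c (a (c (l 16611656) (l 16607664)) (l 16601320)) (a (l 16601232) (l 16602200))))) (b (a (c (a (c (l 16611680) (l 16608776)) (c (l 16604952) (l 16601528))) (a (l 16604168) (l 16596072))) (c (a (b (l 16599512) (l 16592384)) (b (l 16591496) (l 16584624))) (a (l 16608520) (c (l 16580928) (l 16575872))))) (b (a (c (a (l 16599048) (l 16592144)) (a (l 16592952) (l 16584992))) (c (a (l 16584904) (l 16577296)) (a (l 16576616) (l 16567784)))) (a (c (b (a (l 16592752) (l 16585904)) (a (l 16588232) (l 16581400))) (b (l 16603720) (a (l 16582176) (l 16574344)))) (c (b (a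 (l 16578728) (l 16571184)) (a (l 16574264) (l 16566776))) (b (a (l 16570512) (l 16561784)) (a (l 16566120) (l 16557456)))))))), by decide +kernel⟩

def k75_pm_102_s : ∃ t, chk3 f_pm_102_s t 15 21 1 = true :=
  ⟨(a (a (b (c (a (c (l 16600496) (l 16598408)) (c (l 16593904) (l 16591672))) (c (l 16592832) (l 16590680))) (c (a (l 16575440) (l 16568584)) (l 16587152))) (b (c (a (c (l 16587640) (l 16585144)) (c (l 16581320) (l 16578552))) (a (l 16581368) (l 16574336))) (c (a (c (l 16563528) (l 16560392)) (c (l 16557032) (l 16553664))) (c (l 16574688) (l 16550392))))) (a (c (b (a (l 16583816) (l 16571728)) (a (c (l 16550432) (l 16546768)) (c (l 16543592) (l 16539640)))) (b (a (l 16566936) (l 16559192)) (a (l 16541136) (l 16533552)))) (b (c (a (c (l 16561376) (l 16557360)) (b (l 16558288) (l 16545656))) (a (l 16551088) (l 16542576))) (c (a (c (l 16536624) (l 16532296)) (c (l 16529448) (l 16524688))) (a (l 16525584) (l 16517264)))))), by decide +kernel⟩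

def k76_pm_102_s : ∃ t, chk3 f_pm_102_s t 7 11 1 = true :=
  ⟨(a (a (b (b (a (c (l 16616824) (l 16610944)) (c (l 16599712) (l 16593248))) (c (a (l 16596024) (l 16579072)) (a (l 16589672) (l 16572160)))) (a (c (l 16607888) (l 16558912)) (c (l 16570000) (l 16541416)))) (b (b (a (c (l 16602472) (l 16575144)) (c (a (l 16568144) (l 16560088)) (l 16557640))) (a (c (l 16581568) (l 16553664)) (c (a (l 16547128) (l 16538816)) (l 16535784)))) (a (c (b (l 16540576) (l 16521000)) (l 16565096)) (c (b (a (l 16527048) (l 16518592)) (l 16503288)) (b (l 16514968) (l 16495144)))))) (b (a (a (c (b (a (l 16552584) (l 16545512)) (a (l 16530968) (l 16523640))) (b (l 16541960) (l 16519216))) (c (b (a (l 16538720) (l 16531944)) (a (l 16516624) (l 16509648))) (b (a (l 16530936) (l 16523624)) (l 16524784)))) (a (b (c (a (c (l 16527128) (l 16522824)) (c (l 16520144) (l 16515584))) (a (l 16516200) (l 16508568))) (c (a (l 16502544) (l 16495288)) (a (l 16492320) (l 16484504)))) (c (b (a (c (l 16513032) (l 16508168)) (c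 (l 16505672) (l 16500512))) (a (c (l 16490576) (l 16485072)) (c (l 16483096) (l 16477336)))) (b (a (l 16500648) (l 16492504)) (a (l 16476568) (l 16468400)))))) (b (a (a (c (a (l 16510648) (l 16503080)) (l 16498056)) (c (a (l 16495752) (l 16488544)) (l 16481816))) (a (c (a (l 16481240) (l 16473808)) (l 16465760)) (c (a (l 16466240) (l 16458512)) (a (l 16453520) (l 16445200))))) (a (a (c (a (l 16491256) (l 16483568)) (l 16477936)) (c (a (l 16476160) (l 16468744)) (l 16461400))) (a (c (a (l 16461152) (l 16453512)) (l 16444560)) (a (c (l 16445768) (l 16431856)) (l 6))))))), by decide +kernel⟩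

def k77_pm_102_s : ∃ t, chk3 f_pm_102_s t 3 3 1 = true :=
  ⟨(b (a (b (a (a (b (a (b (l 16602896) (l 16586608)) (b (l 16596384) (l 16578744))) (a (l 2) (b (l 16562960) (l 2)))) (b (a (b (c (l 16595384) (l 16588696)) (l 16571544)) (c (b (l 16590288) (l 16570024)) (b (l 16584760) (l 16562600)))) (a (b (l 16554440) (l 16539160)) (b (l 16546480) (l 16529952))))) (a (b (a (c (b (l 16584568) (l 16564016)) (b (l 16579856) (l 16557576))) (c (l 16587720) (l 16603576))) (a (b (a (l 16541448) (l 16538472)) (l 16521160)) (c (l 16548448) (l 16539960)))) (b (c (a (b (l 16565576) (l 16546752)) (b (l 16552416) (l 16533824))) (a (b (l 16560352) (l 16540720)) (b (l 16545968) (l 16526744)))) (a (c (b (l 16527800) (l 16508640)) (b (l 16520520) (l 16499592))) (c (l 16527464) (l 16518984)))))) (b (b (a (a (l 2) (a (l 2) (l 16515200))) (a (a (l 16505288) (l 16495088)) (a (c (l 16490544) (l 16479552)) (l 6)))) (a (l 2) (l 6))) (l 6))) (a (b (a (b (a (c (b (l 16537096) (l 16518800)) (b (l 16529312) (l 16510568))) (c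 (l 16510936) (l 16502352))) (c (a (l 16533896) (l 16517328)) (a (b (l 16491936) (l 16473504)) (b (l 16474752) (l 6))))) (b (a (c (l 16534712) (l 16484184)) (c (b (l 16484368) (l 16466032)) (l 16487280))) (a (b (a (l 16465704) (l 16456544)) (l 6)) (l 6)))) (l 6)) (b (a (b (b (a (c (l 16468608) (l 16458800)) (c (a (l 16457496) (l 16449976)) (l 16442000))) (a (c (l 16450384) (l 16440072)) (l 6))) (l 6)) (l 6)) (l 6)))) (l 6)), by decide +kernel⟩

theorem s78_pm_102_s : ∃ t, chk3 f_pm_102_s t 15 20 1 = true := ex3_a k73_pm_102_s k74_pm_102_s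

theorem s79_pm_102_s : ∃ t, chk3 f_pm_102_s t 15 10 1 = true := ex3_b s78_pm_102_s k75_pm_102_s

theorem s80_pm_102_s : ∃ t, chk3 f_pm_102_s t 14 20 1 = true := ex3_b k70_pm_102_s k71_pm_102_s

theorem s81_pm_102_s : ∃ t, chk3 f_pm_102_s t 14 10 1 = true := ex3_b s80_pm_102_s k72_pm_102_s

theorem s82_pm_102_s : ∃ t, chk3 f_pm_102_s t 7 10 1 = true := ex3_a s81_pm_102_s s79_pm_102_s

theorem s83_pm_102_s : ∃ t, chk3 f_pm_102_s t 7 5 1 = true := ex3_b s82_pm_102_s k76_pm_102_s

theorem s84_pm_102_s : ∃ t, chk3 f_pm_102_s t 13 10 1 = true := ex3_b k67_pm_102_s k68_pm_102_s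

theorem s85_pm_102_s : ∃ t, chk3 f_pm_102_s t 13 5 1 = true := ex3_b s84_pm_102_s k69_pm_102_s

theorem s86_pm_102_s : ∃ t, chk3 f_pm_102_s t 12 5 1 = true := ex3_a k65_pm_102_s k66_pm_102_s

theorem s87_pm_102_s : ∃ t, chk3 f_pm_102_s t 6 5 1 = true := ex3_a s86_pm_102_s s85_pm_102_s

theorem s88_pm_102_s : ∃ t, chk3 f_pm_102_s t 3 5 1 = true := ex3_a s87_pm_102_s s83_pm_102_s

theorem s89_pm_102_s : ∃ t, chk3 f_pm_102_s t 15 19 1 = true := ex3_c k63_pm_102_s k64_pm_102_s

theorem s90_pm_102_s : ∃ t, chk3 f_pm_102_s t 14 19 1 = true := ex3_a k61_pm_102_s k62_pm_102_s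

theorem s91_pm_102_s : ∃ t, chk3 f_pm_102_s t 7 19 1 = true := ex3_a s90_pm_102_s s89_pm_102_s

theorem s92_pm_102_s : ∃ t, chk3 f_pm_102_s t 15 18 3 = true := ex3_a k59_pm_102_s k60_pm_102_s

theorem s93_pm_102_s : ∃ t, chk3 f_pm_102_s t 15 18 2 = true := ex3_a k57_pm_102_s k58_pm_102_s

theorem s94_pm_102_s : ∃ t, chk3 f_pm_102_s t 15 18 1 = true := ex3_c s93_pm_102_s s92_pm_102_s

theorem s95_pm_102_s : ∃ t, chk3 f_pm_102_s t 58 36 1 = true := ex3_b k53_pm_102_s k54_pm_102_s

theorem s96_pm_102_s : ∃ t, chk3 f_pm_102_s t 29 36 1 = true := ex3_a s95_pm_102_s k55_pm_102_s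

theorem s97_pm_102_s : ∃ t, chk3 f_pm_102_s t 29 18 1 = true := ex3_b s96_pm_102_s k56_pm_102_s

theorem s98_pm_102_s : ∃ t, chk3 f_pm_102_s t 28 18 1 = true := ex3_a k51_pm_102_s k52_pm_102_s

theorem s99_pm_102_s : ∃ t, chk3 f_pm_102_s t 14 18 1 = true := ex3_a s98_pm_102_s s97_pm_102_s

theorem s100_pm_102_s : ∃ t, chk3 f_pm_102_s t 7 18 1 = true := ex3_a s99_pm_102_s s94_pm_102_s

theorem s101_pm_102_s : ∃ t, chk3 f_pm_102_s t 7 9 1 = true := ex3_b s100_pm_102_s s91_pm_102_s

theorem s102_pm_102_s : ∃ t, chk3 f_pm_102_s t 62 17 1 = true := ex3_b k48_pm_102_s k49_pm_102_s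

theorem s103_pm_102_s : ∃ t, chk3 f_pm_102_s t 31 17 1 = true := ex3_a s102_pm_102_s k50_pm_102_s

theorem s104_pm_102_s : ∃ t, chk3 f_pm_102_s t 120 70 1 = true := ex3_b k43_pm_102_s k44_pm_102_s

theorem s105_pm_102_s : ∃ t, chk3 f_pm_102_s t 60 70 1 = true := ex3_a s104_pm_102_s k45_pm_102_s

theorem s106_pm_102_s : ∃ t, chk3 f_pm_102_s t 30 70 1 = true := ex3_a s105_pm_102_s k46_pm_102_s

theorem s107_pm_102_s : ∃ t, chk3 f_pm_102_s t 30 35 1 = true := ex3_b s106_pm_102_s k47_pm_102_s

theorem s108_pm_102_s : ∃ t, chk3 f_pm_102_s t 122 138 1 = true := ex3_c k39_pm_102_s k40_pm_102_s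

theorem s109_pm_102_s : ∃ t, chk3 f_pm_102_s t 122 69 1 = true := ex3_b s108_pm_102_s k41_pm_102_s

theorem s110_pm_102_s : ∃ t, chk3 f_pm_102_s t 61 69 1 = true := ex3_a s109_pm_102_s k42_pm_102_s

theorem s111_pm_102_s : ∃ t, chk3 f_pm_102_s t 123 273 1 = true := ex3_c k36_pm_102_s k37_pm_102_s

theorem s112_pm_102_s : ∃ t, chk3 f_pm_102_s t 123 272 1 = true := ex3_a k34_pm_102_s k35_pm_102_s

theorem s113_pm_102_s : ∃ t, chk3 f_pm_102_s t 123 136 1 = true := ex3_b s112_pm_102_s s111_pm_102_s

theorem s114_pm_102_s : ∃ t, chk3 f_pm_102_s t 123 68 1 = true := ex3_b s113_pm_102_s k38_pm_102_s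

theorem s115_pm_102_s : ∃ t, chk3 f_pm_102_s t 245 137 2 = true := ex3_b k31_pm_102_s k32_pm_102_s

theorem s116_pm_102_s : ∃ t, chk3 f_pm_102_s t 245 137 1 = true := ex3_c s115_pm_102_s k33_pm_102_s

theorem s117_pm_102_s : ∃ t, chk3 f_pm_102_s t 122 137 1 = true := ex3_a k30_pm_102_s s116_pm_102_s

theorem s118_pm_102_s : ∃ t, chk3 f_pm_102_s t 122 68 1 = true := ex3_b k29_pm_102_s s117_pm_102_s

theorem s119_pm_102_s : ∃ t, chk3 f_pm_102_s t 61 68 1 = true := ex3_a s118_pm_102_s s114_pm_102_s

theorem s120_pm_102_s : ∃ t, chk3 f_pm_102_s t 61 34 1 = true := ex3_b s119_pm_102_s s110_pm_102_s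

theorem s121_pm_102_s : ∃ t, chk3 f_pm_102_s t 121 139 1 = true := ex3_b k27_pm_102_s k28_pm_102_s

theorem s122_pm_102_s : ∃ t, chk3 f_pm_102_s t 121 69 1 = true := ex3_b k26_pm_102_s s121_pm_102_s

theorem s123_pm_102_s : ∃ t, chk3 f_pm_102_s t 60 69 1 = true := ex3_a k25_pm_102_s s122_pm_102_s

theorem s124_pm_102_s : ∃ t, chk3 f_pm_102_s t 60 34 1 = true := ex3_b k24_pm_102_s s123_pm_102_s

theorem s125_pm_102_s : ∃ t, chk3 f_pm_102_s t 30 34 1 = true := ex3_a s124_pm_102_s s120_pm_102_s

theorem s126_pm_102_s : ∃ t, chk3 f_pm_102_s t 30 17 1 = true := ex3_b s125_pm_102_s s107_pm_102_s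

theorem s127_pm_102_s : ∃ t, chk3 f_pm_102_s t 15 17 1 = true := ex3_a s126_pm_102_s s103_pm_102_s

theorem s128_pm_102_s : ∃ t, chk3 f_pm_102_s t 123 135 1 = true := ex3_a k21_pm_102_s k22_pm_102_s

theorem s129_pm_102_s : ∃ t, chk3 f_pm_102_s t 123 67 1 = true := ex3_b k20_pm_102_s s128_pm_102_s

theorem s130_pm_102_s : ∃ t, chk3 f_pm_102_s t 61 67 1 = true := ex3_a k19_pm_102_s s129_pm_102_s

theorem s131_pm_102_s : ∃ t, chk3 f_pm_102_s t 61 33 1 = true := ex3_b k18_pm_102_s s130_pm_102_s

theorem s132_pm_102_s : ∃ t, chk3 f_pm_102_s t 30 33 1 = true := ex3_a k17_pm_102_s s131_pm_102_s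

theorem s133_pm_102_s : ∃ t, chk3 f_pm_102_s t 30 16 1 = true := ex3_b k16_pm_102_s s132_pm_102_s

theorem s134_pm_102_s : ∃ t, chk3 f_pm_102_s t 15 16 1 = true := ex3_a s133_pm_102_s k23_pm_102_s

theorem s135_pm_102_s : ∃ t, chk3 f_pm_102_s t 15 8 1 = true := ex3_b s134_pm_102_s s127_pm_102_s

theorem s136_pm_102_s : ∃ t, chk3 f_pm_102_s t 59 71 1 = true := ex3_a k14_pm_102_s k15_pm_102_s

theorem s137_pm_102_s : ∃ t, chk3 f_pm_102_s t 59 35 1 = true := ex3_b k13_pm_102_s s136_pm_102_s

theorem s138_pm_102_s : ∃ t, chk3 f_pm_102_s t 29 35 1 = true := ex3_a k12_pm_102_s s137_pm_102_s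

theorem s139_pm_102_s : ∃ t, chk3 f_pm_102_s t 29 17 1 = true := ex3_b k11_pm_102_s s138_pm_102_s

theorem s140_pm_102_s : ∃ t, chk3 f_pm_102_s t 14 17 1 = true := ex3_a k10_pm_102_s s139_pm_102_s

theorem s141_pm_102_s : ∃ t, chk3 f_pm_102_s t 14 8 1 = true := ex3_b k9_pm_102_s s140_pm_102_s

theorem s142_pm_102_s : ∃ t, chk3 f_pm_102_s t 7 8 1 = true := ex3_a s141_pm_102_s s135_pm_102_s

theorem s143_pm_102_s : ∃ t, chk3 f_pm_102_s t 7 4 1 = true := ex3_b s142_pm_102_s s101_pm_102_s

theorem s144_pm_102_s : ∃ t, chk3 f_pm_102_s t 6 19 1 = true := ex3_b k7_pm_102_s k8_pm_102_s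

theorem s145_pm_102_s : ∃ t, chk3 f_pm_102_s t 6 9 1 = true := ex3_b k6_pm_102_s s144_pm_102_s

theorem s146_pm_102_s : ∃ t, chk3 f_pm_102_s t 6 4 1 = true := ex3_b k5_pm_102_s s145_pm_102_s

theorem s147_pm_102_s : ∃ t, chk3 f_pm_102_s t 3 4 1 = true := ex3_a s146_pm_102_s s143_pm_102_s

theorem s148_pm_102_s : ∃ t, chk3 f_pm_102_s t 3 2 1 = true := ex3_b s147_pm_102_s s88_pm_102_s

theorem s149_pm_102_s : ∃ t, chk3 f_pm_102_s t 3 1 1 = true := ex3_b s148_pm_102_s k77_pm_102_s

theorem s150_pm_102_s : ∃ t, chk3 f_pm_102_s t 5 5 1 = true := ex3_a k2_pm_102_s k3_pm_102_s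

theorem s151_pm_102_s : ∃ t, chk3 f_pm_102_s t 2 5 1 = true := ex3_a k1_pm_102_s s150_pm_102_s

theorem s152_pm_102_s : ∃ t, chk3 f_pm_102_s t 2 2 1 = true := ex3_b k0_pm_102_s s151_pm_102_s

theorem s153_pm_102_s : ∃ t, chk3 f_pm_102_s t 2 1 1 = true := ex3_b s152_pm_102_s k4_pm_102_s

theorem s154_pm_102_s : ∃ t, chk3 f_pm_102_s t 1 1 1 = true := ex3_a s153_pm_102_s s149_pm_102_s

theorem c_pm_102_s : CertNE 536870912 536870912 0 536870912 818728140 40265320 3 eng mog cd0q1 cd0q0 pd2 true true false .npp 1 0 2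
    ndB0q1 ndB0q0 pcB2 cut_pm_102_s Ext.none :=
  certNE1 (fam := true) (s1 := true) (s2 := false) (a := 1) (b := 0) (c := 2) (cn := .npp) (n1 := ndB0q1) (n2 := ndB0q0) (pc := pcB2) (cut := cut_pm_102_s) (xt := Ext.none) (P1 := 536870912) (W1 := 536870912) (P2 := 0) (W2 := 536870912) (P3 := 818728140) (W3 := 40265320) (N0 := 3) (En := eng) (mo := mog) (C1 := cd0q1) (C2 := cd0q0) (C3 := pd2)
    rfl (fun _ => rfl) s154_pm_102_s

noncomputable def cut_pm_102_t : Cut := Cut.of [[⟨3, 0, 0, 2845415833⟩], [⟨0, 1, 0, 67108864⟩, ⟨1, 0, 0, 67108864⟩, ⟨2, 1, 0, 67108864⟩]]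

noncomputable def f_pm_102_t : ℕ → ℕ → ℕ → ℕ → Bool := onCell 536870912 536870912 0 536870912 818728140 40265320
    (rowNE 3 eng mog cd0q1 cd0q0 pd2 0 true true false .npp 1 0 2 (qsf 536870912 536870912 0 536870912 2) ndB0q1 ndB0q0 pcB2 cut_pm_102_t Ext.none)

def k0_pm_102_t : ∃ t, chk3 f_pm_102_t t 1 1 1 = true :=
  ⟨(l 6), by decide +kernel⟩

theorem c_pm_102_t : CertNE 536870912 536870912 0 536870912 818728140 40265320 3 eng mog cd0q1 cd0q0 pd2 true true false .npp 1 0 2
    ndB0q1 ndB0q0 pcB2 cut_pm_102_t Ext.none :=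
  certNE0 (fam := true) (s1 := true) (s2 := false) (a := 1) (b := 0) (c := 2) (cn := .npp) (n1 := ndB0q1) (n2 := ndB0q0) (pc := pcB2) (cut := cut_pm_102_t) (xt := Ext.none) (P1 := 536870912) (W1 := 536870912) (P2 := 0) (W2 := 536870912) (P3 := 818728140) (W3 := 40265320) (N0 := 3) (En := eng) (mo := mog) (C1 := cd0q1) (C2 := cd0q0) (C3 := pd2)
    rfl k0_pm_102_t

noncomputable def cut_pm_112_s : Cut := Cut.of [[⟨4, 0, 0, 1449551462⟩]]

noncomputable def f_pm_112_s : ℕ → ℕ → ℕ → ℕ → Bool := onCell 1073741824 536870912 536870912 536870912 818728140 40265320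
    (rowNE 3 eng mog cd0q1 cd0q1 pd2 2 true true false .dn 1 1 2 (qsf 536870912 536870912 536870912 536870912 2) ndB0q1 ndB0q1 pcB2 cut_pm_112_s Ext.none)

def k0_pm_112_s : ∃ t, chk3 f_pm_112_s t 4 2 1 = true :=
  ⟨(b (l 3) (l 3)), by decide +kernel⟩

def k1_pm_112_s : ∃ t, chk3 f_pm_112_s t 5 4 1 = true :=
  ⟨(a (a (a (l 3) (a (l 3) (a (a (l 3) (b (b (c (l 16796712) (l 16796512)) (l 3)) (l 3))) (a (b (a (b (l 16797800) (l 3)) (b (l 16796568) (l 16776848))) (b (l 3) (b (l 16796960) (l 61371078007)))) (b (b (l 16794704) (l 16775848)) (b (l 16776480) (l 16775816))))))) (b (b (a (b (l 16760576) (l 16763792)) (b (a (l 16742584) (l 16729568)) (l 16722024))) (a (a (l 16770120) (l 16782984)) (b (l 16746560) (l 16748528)))) (b (b (l 16757496) (l 16757720)) (b (l 16757544) (l 16777928))))) (b (b (a (b (a (l 16708552) (l 16681640)) (a (l 16718904) (l 16691712))) (a (b (l 16654208) (l 16665208)) (b (l 16629768) (l 16638192)))) (b (a (a (l 16726128) (l 16702432)) (a (l 16675648) (l 16649568))) (a (a (l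 16729704) (l 16709672)) (l 16714680)))) (a (b (b (a (l 16731616) (l 16713192)) (a (l 16731664) (l 16714968))) (a (l 16710600) (l 16714712))) (b (b (l 16682448) (l 16687192)) (b (l 16689800) (l 16691272)))))), by decide +kernel⟩

def k2_pm_112_s : ∃ t, chk3 f_pm_112_s t 5 5 1 = true :=
  ⟨(b (b (b (a (a (a (l 3) (a (l 3) (a (l 102173281719) (a (a (l 16777176) (l 16776104)) (l 16774384))))) (a (l 16764752) (l 16747520))) (a (l 16722264) (l 16689608))) (a (a (a (l 3) (a (l 3) (a (c (l 86067149655) (l 16775032)) (a (a (l 16775712) (l 16774520)) (l 16772872))))) (a (l 16762528) (l 16745336))) (a (l 16741128) (l 16687824)))) (a (a (a (l 1) (a (l 1) (a (l 1) (a (l 1) (b (l 16769856) (l 1)))))) (b (a (b (l 16759728) (l 16757072)) (l 16703160)) (a (c (l 16774872) (l 16752120)) (a (l 16737032) (l 16727560))))) (a (b (l 16735712) (a (l 16714032) (l 16697584))) (b (l 16682592) (l 16673664))))) (a (a (l 1) (a (l 1) (b (b (l 16766216) (l 1)) (l 1)))) (a (a (b (b (l 16725176) (l 16717136)) (l 1)) (b (b (l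 16686064) (l 16676528)) (b (l 16670136) (l 1)))) (b (b (l 16662144) (a (l 16658816) (l 16643176))) (b (a (l 16650968) (l 16633712)) (a (l 16645472) (l 16626792))))))), by decide +kernel⟩

def k3_pm_112_s : ∃ t, chk3 f_pm_112_s t 2 3 1 = true :=
  ⟨(a (l 1) (b (a (l 1) (b (b (a (l 1) (a (l 1) (b (l 16621080) (l 1)))) (l 1)) (l 1))) (l 1))), by decide +kernel⟩

def k4_pm_112_s : ∃ t, chk3 f_pm_112_s t 3 1 1 = true :=
  ⟨(a (a (b (a (b (b (b (b (a (l 16605672) (l 16582296)) (l 16644128)) (b (l 16611120) (l 16644112))) (b (b (l 16632136) (l 16642456)) (b (l 16651840) (l 16656080)))) (b (b (b (l 16658136) (l 16658040)) (l 16689888)) (b (b (l 16631904) (l 16620640)) (b (l 16611088) (l 16665112))))) (b (b (b (b (l 16567096) (l 16555744)) (b (l 16585160) (l 16573824))) (b (b (l 16582968) (l 16595024)) (b (l 16603880) (l 16613784)))) (b (b (l 16707224) (l 16703672)) (b (l 16619760) (b (l 16582888) (l 16574184)))))) (b (b (b (a (b (a (l 16602912) (l 16586616)) (a (l 16596416) (l 16578760))) (b (l 16565392)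 (l 16618568))) (a (b (a (l 1) (l 16571568)) (l 1)) (b (a (l 16554456) (l 16539168)) (a (l 16546504) (l 16529968))))) (b (a (l 1) (b (a (l 1) (l 16521184)) (l 1))) (l 1))) (l 1))) (a (b (b (b (b (b (a (l 16510256) (l 6)) (a (l 16520488) (l 16497056))) (b (l 16519144) (l 16529400))) (a (b (l 16554208) (l 16575304)) (b (l 16532096) (l 16551112)))) (b (b (l 16602824) (l 16609008)) (b (l 16678256) (l 16552600)))) (b (b (b (l 16555400) (b (l 16519392) (a (l 16515208) (l 16502336)))) (a (b (b (l 16505304) (l 16495112)) (l 1)) (l 6))) (l 1))) (b (b (b (l 6) (l 6)) (l 6)) (b (l 6) (l 6))))) (b (b (l 6) (l 6)) (l 6))), by decide +kernel⟩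

theorem s5_pm_112_s : ∃ t, chk3 f_pm_112_s t 5 2 1 = true := ex3_b k1_pm_112_s k2_pm_112_s

theorem s6_pm_112_s : ∃ t, chk3 f_pm_112_s t 2 2 1 = true := ex3_a k0_pm_112_s s5_pm_112_s

theorem s7_pm_112_s : ∃ t, chk3 f_pm_112_s t 2 1 1 = true := ex3_b s6_pm_112_s k3_pm_112_s

theorem s8_pm_112_s : ∃ t, chk3 f_pm_112_s t 1 1 1 = true := ex3_a s7_pm_112_s k4_pm_112_s

theorem c_pm_112_s : CertNE 536870912 536870912 536870912 536870912 818728140 40265320 3 eng mog cd0q1 cd0q1 pd2 true true false .dn 1 1 2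
    ndB0q1 ndB0q1 pcB2 cut_pm_112_s Ext.none :=
  certNE2 (fam := true) (s1 := true) (s2 := false) (a := 1) (b := 1) (c := 2) (cn := .dn) (n1 := ndB0q1) (n2 := ndB0q1) (pc := pcB2) (cut := cut_pm_112_s) (xt := Ext.none) (P1 := 536870912) (W1 := 536870912) (P2 := 536870912) (W2 := 536870912) (P3 := 818728140) (W3 := 40265320) (N0 := 3) (En := eng) (mo := mog) (C1 := cd0q1) (C2 := cd0q1) (C3 := pd2)
    rfl (fun _ => rfl) s8_pm_112_s

noncomputable def cut_pm_112_t : Cut := Cut.of [[⟨3, 0, 0, 2845415833⟩]]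

noncomputable def f_pm_112_t : ℕ → ℕ → ℕ → ℕ → Bool := onCell 536870912 536870912 1073741824 536870912 818728140 40265320
    (rowNE 3 eng mog cd0q1 cd0q1 pd2 1 true true false .dn 1 1 2 (qsf 536870912 536870912 536870912 536870912 2) ndB0q1 ndB0q1 pcB2 cut_pm_112_t Ext.none)

def k0_pm_112_t : ∃ t, chk3 f_pm_112_t t 1 1 1 = true :=
  ⟨(l 6), by decide +kernel⟩

theorem c_pm_112_t : CertNE 536870912 536870912 536870912 536870912 818728140 40265320 3 eng mog cd0q1 cd0q1 pd2 true true false .dn 1 1 2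
    ndB0q1 ndB0q1 pcB2 cut_pm_112_t Ext.none :=
  certNE1 (fam := true) (s1 := true) (s2 := false) (a := 1) (b := 1) (c := 2) (cn := .dn) (n1 := ndB0q1) (n2 := ndB0q1) (pc := pcB2) (cut := cut_pm_112_t) (xt := Ext.none) (P1 := 536870912) (W1 := 536870912) (P2 := 536870912) (W2 := 536870912) (P3 := 818728140) (W3 := 40265320) (N0 := 3) (En := eng) (mo := mog) (C1 := cd0q1) (C2 := cd0q1) (C3 := pd2)
    rfl (fun _ => rfl) k0_pm_112_t

noncomputable def cut_pm_113_s : Cut := Cut.of [[⟨4, 0, 0, 1449551462⟩], [⟨0, 1, 0, 67108864⟩, ⟨1, 1, 0, 67108864⟩, ⟨2, 2, 0, 16777216⟩], [⟨0, 0, 1, 26214400⟩, ⟨1, 1, 0, 33554432⟩, ⟨2, 1, 1, 26214400⟩], [⟨0, 1, 0, 33554432⟩, ⟨1, 0, 1, 26214400⟩, ⟨2, 1, 1, 26214400⟩]]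

noncomputable def f_pm_113_s : ℕ → ℕ → ℕ → ℕ → Bool := onCell 1610612736 536870912 536870912 536870912 818728140 40265320
    (rowNE 3 eng mog cd0q1 cd0q1 pd3 2 true true false .nn 1 1 3 (qsf 536870912 536870912 536870912 536870912 3) ndB0q1 ndB0q1 pcB3 cut_pm_113_s Ext.none)

def k0_pm_113_s : ∃ t, chk3 f_pm_113_s t 1 1 1 = true :=
  ⟨(a (b (a (l 6) (l 6)) (l 6)) (l 6)), by decide +kernel⟩

theorem c_pm_113_s : CertNE 536870912 536870912 536870912 536870912 818728140 40265320 3 eng mog cd0q1 cd0q1 pd3 true true false .nn 1 1 3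
    ndB0q1 ndB0q1 pcB3 cut_pm_113_s Ext.none :=
  certNE2 (fam := true) (s1 := true) (s2 := false) (a := 1) (b := 1) (c := 3) (cn := .nn) (n1 := ndB0q1) (n2 := ndB0q1) (pc := pcB3) (cut := cut_pm_113_s) (xt := Ext.none) (P1 := 536870912) (W1 := 536870912) (P2 := 536870912) (W2 := 536870912) (P3 := 818728140) (W3 := 40265320) (N0 := 3) (En := eng) (mo := mog) (C1 := cd0q1) (C2 := cd0q1) (C3 := pd3)
    rfl (fun _ => rfl) k0_pm_113_s

noncomputable def cut_pm_113_t : Cut := Cut.of [[⟨3, 0, 0, 2845415833⟩], [⟨0, 1, 0, 67108864⟩, ⟨1, 1, 0, 67108864⟩, ⟨2, 2, 0, 16777216⟩], [⟨0, 0, 1, 26214400⟩, ⟨1, 1, 0, 33554432⟩, ⟨2, 1, 1, 26214400⟩], [⟨0, 1, 0, 33554432⟩, ⟨1, 0, 1, 26214400⟩, ⟨2, 1, 1, 26214400⟩]]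

noncomputable def xt_pm_113_t : Ext := extD2 3 ⟨4, 1, 1, 5, 13, 5, 23, 25, 43, 100, 1, 8⟩ eng cd0q1 cd0q1 pd3 true true false .nn 1 1 3 rfl ndB0q1 ndB0q1 pcB3

noncomputable def f_pm_113_t : ℕ → ℕ → ℕ → ℕ → Bool := onCell 536870912 536870912 536870912 536870912 818728140 40265320
    (rowNE 3 eng mog cd0q1 cd0q1 pd3 0 true true false .nn 1 1 3 (qsf 536870912 536870912 536870912 536870912 3) ndB0q1 ndB0q1 pcB3 cut_pm_113_t xt_pm_113_t)

def k0_pm_113_t : ∃ t, chk3 f_pm_113_t t 2 1 1 = true :=
  ⟨(l 6), by decide +kernel⟩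

def k1_pm_113_t : ∃ t, chk3 f_pm_113_t t 3 2 1 = true :=
  ⟨(l 6), by decide +kernel⟩

def k2_pm_113_t : ∃ t, chk3 f_pm_113_t t 6 3 1 = true :=
  ⟨(b (l 6) (b (l 6) (a (l 6) (b (l 6) (a (l 6) (b (l 6) (a (l 6) (b (l 6) (b (l 6) (a (l 6) (b (a (l 6) (a (l 6) (c (l 16736904) (l 144001972627276111)))) (a (b (l 6) (a (l 6) (a (l 6) (c (l 144013242635206991) (l 143873673347973455))))) (c (l 144047052624085327) (c (l 143950570457022799) (l 143881026331803983))))))))))))))), by decide +kernel⟩

def k3_pm_113_t : ∃ t, chk3 f_pm_113_t t 7 6 1 = true :=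
  ⟨(a (l 6) (b (l 6) (a (l 6) (b (l 6) (a (l 6) (b (l 6) (b (l 6) (a (l 6) (a (l 6) (a (b (l 6) (b (l 6) (c (l 16736904) (l 144001972627276127)))) (b (a (l 6) (b (l 6) (b (l 6) (c (l 144013242635207007) (l 143873673347973471))))) (c (l 144047052624085343) (c (l 143950570457022815) (l 143881026331803999)))))))))))))), by decide +kernel⟩

def k4_pm_113_t : ∃ t, chk3 f_pm_113_t t 14 7 1 = true :=
  ⟨(b (l 6) (b (a (l 6) (b (a (l 6) (l 16856176)) (a (b (a (l 6) (l 16844216)) (a (l 16801072) (l 16831104))) (c (l 16808928) (l 16804104))))) (a (a (b (a (l 6) (l 6)) (a (b (a (l 6) (a (l 6) (b (l 6) (l 16749360)))) (b (a (b (a (l 6) (l 144064644825465167)) (c (l 16742776) (l 144106288806445391))) (c (l 16748184) (l 144179337622552911))) (c (c (l 144148276434665807) (l 144095362424209743)) (a (c (l 144022313602613583) (l 143959710145265999)) (l 143845154793242959))))) (c (b (c (l 16765880) (l 16760512)) (a (l 144056054908256591) (l 144083542706716943))) (b (b (l 16755616) (l 16749032)) (a (a (l 143946653473866063)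 (l 143962596396712271)) (l 143985754866647375)))))) (b (b (a (l 6) (l 16779512)) (a (l 16758072) (l 16787784))) (b (a (a (l 16722208) (l 16726328)) (l 16753304)) (c (a (a (l 16756496) (l 16760176)) (l 143993039182086415)) (a (a (l 144015372969296143) (l 144043479243211023)) (a (l 144070004968915215) (l 144095087585345807))))))) (b (b (a (l 16792904) (a (l 16825104) (l 16830968))) (a (c (l 16783408) (l 16795816)) (a (l 16810504) (l 16815968)))) (a (a (b (l 16760920) (c (l 144128210406801679) (a (l 144118520934072591) (l 16741832)))) (b (l 16767984) (c (l 16757680) (a (l 16745056) (l 16748056))))) (b (a (l 16773960) (l 16799696)) (a (c (l 16762744) (a (l 16750776) (l 16774200))) (c (l 16766424) (a (l 16755440) (l 16757424)))))))))), by decide +kernel⟩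

def k5_pm_113_t : ∃ t, chk3 f_pm_113_t t 15 14 1 = true :=
  ⟨(a (b (l 6) (a (b (l 6) (l 16856176)) (b (a (b (l 6) (l 16844216)) (b (l 16801072) (l 16831104))) (c (l 16808928) (l 16804104))))) (b (b (b (a (l 6) (a (a (l 6) (a (l 6) (b (l 6) (l 16746744)))) (a (b (a (b (l 6) (l 144064644825465183)) (c (l 16742776) (l 144106288806445407))) (c (l 16748184) (l 144179337622552927))) (c (c (l 144148276434665823) (l 144095362424209759)) (b (c (l 144022313602613599) (l 143959710145266015)) (l 143845154793242975)))))) (a (l 6) (c (a (a (l 16766168) (l 16760232)) (b (l 144056054908256607) (l 144083542706716959))) (a (a (l 16755616) (l 16749032)) (b (b (l 143946653473866079) (l 143962596396712287)) (l 143985754866647391)))))) (a (a (b (l 6) (l 16779512)) (b (l 16750208) (l 16787784))) (a (b (b (l 16722208) (l 16726328)) (l 16753304)) (c (b (b (l 16756496) (l 16760176)) (l 143993039182086431)) (a (b (l 16750336) (l 16758008)) (b (l 143950226901745951) (l 144001972682735903))))))) (a (a (b (l 16782416)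 (b (l 16825104) (l 16830968))) (b (c (l 16783408) (l 16795816)) (b (l 16810504) (l 16815968)))) (b (b (a (l 16760920) (c (l 144128210406801695) (b (l 144118520934072607) (l 16741832)))) (a (l 16767984) (c (l 16757680) (b (l 16745056) (l 16748056))))) (a (b (l 16773960) (l 16778728)) (b (c (l 16762744) (b (l 16750776) (l 16753232))) (c (l 16766424) (b (l 16755440) (l 16757424))))))))), by decide +kernel⟩

def k6_pm_113_t : ∃ t, chk3 f_pm_113_t t 30 15 1 = true :=
  ⟨(b (a (b (l 16864120) (l 16813344)) (b (l 16813344) (l 16834880))) (b (a (b (a (l 16834968) (l 16836920)) (a (l 16820176) (l 16802576))) (b (l 16836544) (a (l 16803936) (l 16824392)))) (a (b (a (l 16782472) (l 16774880)) (b (a (l 16769152) (l 16771504)) (a (c (l 16785488) (l 16776184)) (c (l 16786880) (l 16757816))))) (b (a (c (l 16789928) (l 16785088)) (b (l 16793768) (l 16784400))) (b (a (l 16773144) (l 16774352)) (a (a (l 16762944) (l 16763440)) (a (l 16763848) (l 16769424)))))))), by decide +kernel⟩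

def k7_pm_113_t : ∃ t, chk3 f_pm_113_t t 31 15 1 = true :=
  ⟨(b (a (b (a (b (l 16834968) (l 16836920)) (b (l 16799208) (l 16802576))) (a (l 16836544) (b (l 16803936) (l 16803416)))) (b (a (b (l 16782472) (l 16774880)) (a (b (l 16769152) (l 16771504)) (b (c (l 16785488) (l 16776184)) (c (l 16786880) (l 16757816))))) (a (b (c (l 16789928) (l 16785088)) (a (l 16793768) (l 16784400))) (a (b (l 16773144) (l 16774352)) (b (b (l 16762944) (l 16763440)) (b (l 16763848) (c (l 16787600) (l 16782600)))))))) (a (b (a (l 16806160) (l 16798752)) (b (a (b (l 16813776) (a (l 16785312) (l 16785576))) (b (l 16809808) (b (l 16806152) (l 16792888)))) (a (b (c (l 16776792) (l 16773640)) (a (a (l 16764376) (l 16764480)) (a (l 16764560) (l 16775104)))) (b (a (l 16775696) (a (l 16775800) (l 16784200))) (b (a (l 16788424) (l 16777968)) (a (l 16772360) (c (l 16784000) (l 16781464)))))))) (b (a (b (a (l 16813776) (b (l 16785312) (l 16785576))) (a (l 16809808) (b (l 16784776) (l 16803912)))) (b (a (c (l 16776792) (l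 16773640)) (b (b (l 16764376) (l 16764480)) (b (l 16764560) (l 16775104)))) (a (b (l 16775696) (a (l 16799328) (l 16773104))) (a (b (l 16788424) (l 16777968)) (b (l 16772360) (b (l 16782792) (l 16772240))))))) (b (a (l 16791032) (a (b (a (l 16797688) (l 16784752)) (a (l 16794424) (b (l 16782512) (l 16791376)))) (b (a (l 16777880) (b (l 16772136) (c (l 16783336) (l 16781608)))) (a (b (l 16777728) (l 14)) (l 14))))) (a (b (a (b (l 16797688) (l 16784752)) (b (l 16794424) (a (l 16782512) (l 16791376)))) (a (b (l 16777880) (a (l 16772136) (l 16774136))) (b (a (l 16777728) (l 14)) (l 14)))) (b (a (l 16784192) (l 14)) (l 14))))))), by decide +kernel⟩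

theorem s8_pm_113_t : ∃ t, chk3 f_pm_113_t t 15 15 1 = true := ex3_a k6_pm_113_t k7_pm_113_t

theorem s9_pm_113_t : ∃ t, chk3 f_pm_113_t t 15 7 1 = true := ex3_b k5_pm_113_t s8_pm_113_t

theorem s10_pm_113_t : ∃ t, chk3 f_pm_113_t t 7 7 1 = true := ex3_a k4_pm_113_t s9_pm_113_t

theorem s11_pm_113_t : ∃ t, chk3 f_pm_113_t t 7 3 1 = true := ex3_b k3_pm_113_t s10_pm_113_t

theorem s12_pm_113_t : ∃ t, chk3 f_pm_113_t t 3 3 1 = true := ex3_a k2_pm_113_t s11_pm_113_t

theorem s13_pm_113_t : ∃ t, chk3 f_pm_113_t t 3 1 1 = true := ex3_b k1_pm_113_t s12_pm_113_t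

theorem s14_pm_113_t : ∃ t, chk3 f_pm_113_t t 1 1 1 = true := ex3_a k0_pm_113_t s13_pm_113_t

theorem c_pm_113_t : CertNE 536870912 536870912 536870912 536870912 818728140 40265320 3 eng mog cd0q1 cd0q1 pd3 true true false .nn 1 1 3
    ndB0q1 ndB0q1 pcB3 cut_pm_113_t xt_pm_113_t :=
  certNE0 (fam := true) (s1 := true) (s2 := false) (a := 1) (b := 1) (c := 3) (cn := .nn) (n1 := ndB0q1) (n2 := ndB0q1) (pc := pcB3) (cut := cut_pm_113_t) (xt := xt_pm_113_t) (P1 := 536870912) (W1 := 536870912) (P2 := 536870912) (W2 := 536870912) (P3 := 818728140) (W3 := 40265320) (N0 := 3) (En := eng) (mo := mog) (C1 := cd0q1) (C2 := cd0q1) (C3 := pd3)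
    rfl s14_pm_113_t

noncomputable def cut_pm_123_s : Cut := Cut.of [[⟨4, 0, 0, 1449551462⟩], [⟨0, 1, 0, 67108864⟩, ⟨1, 1, 0, 67108864⟩, ⟨2, 2, 0, 16777216⟩], [⟨0, 0, 1, 26214400⟩, ⟨1, 1, 0, 33554432⟩, ⟨2, 1, 1, 26214400⟩]]

noncomputable def f_pm_123_s : ℕ → ℕ → ℕ → ℕ → Bool := onCell 536870912 536870912 0 536870912 818728140 40265320
    (rowNE 3 eng mog cd0q1 cd0q2 pd3 0 true true false .npn 1 2 3 (qsf 536870912 536870912 0 536870912 3) ndB0q1 ndB0q2 pcB3 cut_pm_123_s Ext.none)

def k0_pm_123_s : ∃ t, chk3 f_pm_123_s t 1 1 1 = true :=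
  ⟨(l 6), by decide +kernel⟩

theorem c_pm_123_s : CertNE 536870912 536870912 0 536870912 818728140 40265320 3 eng mog cd0q1 cd0q2 pd3 true true false .npn 1 2 3
    ndB0q1 ndB0q2 pcB3 cut_pm_123_s Ext.none :=
  certNE0 (fam := true) (s1 := true) (s2 := false) (a := 1) (b := 2) (c := 3) (cn := .npn) (n1 := ndB0q1) (n2 := ndB0q2) (pc := pcB3) (cut := cut_pm_123_s) (xt := Ext.none) (P1 := 536870912) (W1 := 536870912) (P2 := 0) (W2 := 536870912) (P3 := 818728140) (W3 := 40265320) (N0 := 3) (En := eng) (mo := mog) (C1 := cd0q1) (C2 := cd0q2) (C3 := pd3)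
    rfl k0_pm_123_s

noncomputable def cut_pm_123_t : Cut := Cut.of [[⟨3, 0, 0, 2845415833⟩], [⟨0, 1, 0, 67108864⟩, ⟨1, 1, 0, 67108864⟩, ⟨2, 2, 0, 16777216⟩], [⟨0, 0, 1, 26214400⟩, ⟨1, 1, 0, 33554432⟩, ⟨2, 1, 1, 26214400⟩]]

noncomputable def xt_pm_123_t : Ext := extD2 3 ⟨4, 1, 1, 5, 13, 5, 23, 25, 43, 100, 1, 8⟩ eng cd0q1 cd0q2 pd3 true true false .npn 1 2 3 rfl ndB0q1 ndB0q2 pcB3

noncomputable def f_pm_123_t : ℕ → ℕ → ℕ → ℕ → Bool := onCell 1610612736 536870912 0 536870912 818728140 40265320
    (rowNE 3 eng mog cd0q1 cd0q2 pd3 2 true true false .npn 1 2 3 (qsf 536870912 536870912 0 536870912 3) ndB0q1 ndB0q2 pcB3 cut_pm_123_t xt_pm_123_t)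

def k0_pm_123_t : ∃ t, chk3 f_pm_123_t t 2 1 1 = true :=
  ⟨(a (b (b (l 1) (l 6)) (l 6)) (b (a (b (b (a (a (l 1) (l 16705368)) (l 16741856)) (a (l 16659232) (l 16678448))) (b (a (l 16611040) (l 16649328)) (l 6))) (b (b (a (b (l 16748888) (l 16730256)) (b (a (l 16763864) (l 75933628919)) (l 16750192))) (a (l 16696976) (l 16737848))) (b (a (l 16646032) (l 16666264)) (a (l 16597352) (l 16660432))))) (a (l 6) (b (l 6) (l 6))))), by decide +kernel⟩

def k1_pm_123_t : ∃ t, chk3 f_pm_123_t t 6 2 1 = true :=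
  ⟨(a (b (b (a (b (a (l 121567694119) (l 4)) (a (l 16765328) (l 77544234551))) (b (l 4) (a (l 125325787127) (l 4)))) (a (b (l 16750520) (l 16726464)) (b (a (l 16765936) (b (l 101166549751) (l 16772072))) (a (l 16742696) (l 16754920))))) (a (b (a (l 16682584) (l 16693848)) (b (l 16654224) (l 16631600))) (a (b (l 16706816) (l 16666824)) (b (a (l 16717688) (l 16725888)) (l 16687888))))) (b (b (l 4) (b (a (a (a (l 139284428935) (l 4)) (l 4)) (l 4)) (a (a (b (a (l 16770552) (l 16755960)) (l 16783624)) (b (a (l 100629672999) (l 4)) (a (l 16773040) (l 99019069431)))) (l 4)))) (a (b (a (a (l 16734472) (b (l 16751448) (l 16735456))) (b (a (l 16759256) (l 16766400)) (a (l 16744536) (l 16752928)))) (a (a (l 16704448) (l 16715384)) (b (l 16737120) (l 16726568)))) (b (a (b (b (a (l 68417441447) (l 100629672887)) (a (l 16768928) (l 16774184))) (a (l 16760112) (l 16766264))) (a (b (b (l 4) (c (l 97408464839) (l 16751392))) (l 16771272)) (b (l 4) (b (b (l 114588422103) (l 16775712)) (l 16772712))))) (a (b (l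 16754064) (l 16746712)) (b (a (l 16763824) (l 16767408)) (a (l 16756840) (l 16760704)))))))), by decide +kernel⟩

def k2_pm_123_t : ∃ t, chk3 f_pm_123_t t 7 2 1 = true :=
  ⟨(a (b (l 4) (a (b (a (b (l 4) (a (b (b (l 4) (l 126936447735)) (l 67343786791)) (b (l 4) (a (l 94187245255) (l 100629684471))))) (l 4)) (a (a (b (l 16770608) (l 16764472)) (b (a (l 16772832) (l 16761136)) (l 16767824))) (b (a (b (b (a (l 16775816) (l 4)) (l 81839302663)) (l 16774552)) (b (b (l 4) (a (l 110830246151) (l 4))) (b (a (l 16777368) (l 131231405303)) (l 72712494599)))) (a (c (l 16775800) (l 16765760)) (c (l 16777176) (l 16769520)))))) (b (l 4) (a (b (a (b (l 4) (b (l 4) (a (l 122104604103) (l 4)))) (l 4)) (a (b (b (a (l 16776584) (l 115125285991)) (l 49090172183)) (c (l 16777848) (l 16770928))) (b (b (l 4) (a (l 100629774903) (l 109219697655))) (a (l 16775840) (b (l 97408552295) (l 16776232)))))) (a (b (l 4) (b (l 4) (a (b (b (l 4) (l 151632498375)) (l 93650455623)) (b (l 4) (a (l 130694531671) (l 4)))))) (l 4))))))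 (l 4)), by decide +kernel⟩

def k3_pm_123_t : ∃ t, chk3 f_pm_123_t t 12 3 1 = true :=
  ⟨(b (a (b (b (l 16608744) (l 16583512)) (l 6)) (b (b (a (l 16640008) (l 16665048)) (a (l 16621544) (l 16651008))) (b (a (l 16602432) (l 16636008)) (a (l 6) (l 16622096))))) (l 6)), by decide +kernel⟩

def k4_pm_123_t : ∃ t, chk3 f_pm_123_t t 13 6 1 = true :=
  ⟨(a (b (a (b (l 16691712) (l 16680664)) (b (l 16717776) (l 16711416))) (a (b (a (l 16661296) (l 16678848)) (a (l 16652376) (l 16673816))) (b (l 16687248) (l 16694144)))) (b (b (a (l 16721568) (c (l 16761648) (l 16743512))) (a (b (l 16736704) (l 16731824)) (c (l 16737120) (l 16734008)))) (b (a (l 16693312) (b (l 16739264) (l 16735664))) (a (c (l 16721336) (l 16706248)) (c (l 16740208) (l 16718816)))))), by decide +kernel⟩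

def k5_pm_123_t : ∃ t, chk3 f_pm_123_t t 13 7 1 = true :=
  ⟨(a (b (b (a (a (l 6) (l 16662184)) (b (l 16683472) (l 16677384))) (a (l 6) (b (c (l 16675744) (l 16669656)) (l 6)))) (l 6)) (a (a (b (b (l 16697784) (b (l 16691536) (c (l 16672208) (l 16663856)))) (l 6)) (b (b (l 16708264) (b (l 16682184) (a (l 16677360) (l 16683344)))) (b (b (b (l 16679408) (l 16699640)) (b (l 16699048) (l 6))) (l 6)))) (a (b (b (b (l 16719504) (l 16716048)) (b (l 16692968) (a (l 16689120) (l 16694632)))) (b (b (b (l 16699296) (l 16711728)) (c (l 16717064) (l 16683696))) (b (a (l 6) (b (l 16713496) (c (l 16720512) (l 16706528)))) (l 6)))) (b (b (b (l 16726744) (l 16723808)) (b (l 16722112) (c (l 16706976) (l 16694600)))) (b (b (b (c (l 16727600) (l 16695384)) (l 16721648)) (c (b (l 16727232) (l 16727264)) (l 16693920))) (a (b (b (c (l 16725736) (l 16712376)) (c (l 16726048) (a (l 16711008) (l 16713376)))) (a (b (c (l 16725408) (b (l 16710976) (l 143832853970141519))) (l 6)) (c (b (l 16727648) (b (l 16728120) (l 143992420630872399)))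 (b (b (l 16713392) (l 16702992)) (b (c (l 16717280) (l 143812650441687375)) (c (l 143887004931080527) (b (l 143811550930239823) (l 143811550930403663)))))))) (b (b (l 16722744) (b (l 16722896) (l 16723072))) (b (c (l 16730280) (b (l 16716376) (l 143879033469780303))) (b (c (l 16730840) (c (l 16715064) (l 143841237750645071))) (c (c (l 16734760) (l 143979089050845519)) (c (a (l 143903909926568271) (l 143920608763625807)) (a (l 143831548302573903) (l 143851270796886351))))))))))))), by decide +kernel⟩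

def k6_pm_123_t : ∃ t, chk3 f_pm_123_t t 28 6 1 = true :=
  ⟨(b (a (b (c (l 16770680) (l 16730240)) (c (l 16747488) (l 16741096))) (b (c (a (l 16775464) (l 16777680)) (a (l 16756816) (l 16760536))) (c (a (l 16774456) (l 16777480)) (a (l 16746616) (l 16750280))))) (b (a (b (c (l 16764832) (l 16732296)) (l 16723744)) (c (b (l 16768968) (l 16728976)) (b (l 16738808) (l 16711944)))) (a (c (l 16731496) (l 16725192)) (c (b (l 16765576) (l 16759472)) (b (l 16729840) (l 16728176)))))), by decide +kernel⟩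

def k7_pm_123_t : ∃ t, chk3 f_pm_123_t t 29 6 1 = true :=
  ⟨(b (a (b (a (c (l 16779080) (l 16764304)) (c (b (l 16778824) (l 16780016)) (b (l 16770256) (l 16765688)))) (c (a (l 16779696) (l 16781072)) (a (l 16733008) (b (l 16760552) (l 16754536))))) (b (a (a (b (l 16775856) (l 16774312)) (b (c (l 16767896) (l 16775504)) (l 16775184))) (b (a (b (a (l 126936437975) (l 4)) (a (l 16776784) (l 16777600))) (b (l 4) (a (l 125862698231) (l 4)))) (a (c (l 16779144) (l 16772808)) (a (l 16776456) (b (l 74323096951) (l 16776424)))))) (a (c (b (l 16780984) (l 16781584)) (b (l 16764400) (l 16737464))) (c (a (l 16770888) (b (l 16780168) (l 16781496))) (b (a (l 16767600) (l 16769840)) (a (l 16761640) (l 16764032))))))) (c (a (b (a (b (l 16778504) (l 16777432)) (c (l 16789128) (l 16771312))) (b (a (l 16772840) (l 16735664)) (l 16727720))) (b (a (b (l 16781760) (l 16781600)) (b (l 16761488) (l 16762160))) (a (b (a (l 16759912) (l 16761080)) (l 16735504)) (b (c (l 16793408) (l 16773720)) (b (a (l 16762072) (l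 16742584)) (a (l 16780840) (l 16741424))))))) (a (b (a (b (l 16744056) (l 16737128)) (b (l 16747736) (l 16740648))) (b (a (l 16732080) (l 16734800)) (l 16732232))) (b (a (b (l 16730864) (l 16744968)) (c (b (l 16762992) (l 16758344)) (b (l 16750024) (l 16741752)))) (a (b (c (l 16749672) (l 16728088)) (a (l 16735144) (l 16736216))) (b (c (l 16753840) (l 16733800)) (a (b (l 16738368) (l 16737832)) (b (l 16740936) (l 16739232))))))))), by decide +kernel⟩

def k8_pm_123_t : ∃ t, chk3 f_pm_123_t t 14 14 1 = true :=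
  ⟨(b (a (a (b (a (l 16730952) (l 16734680)) (c (l 16739072) (l 16720440))) (b (c (l 16753440) (l 16726888)) (c (l 16748648) (l 16726672)))) (a (c (b (l 16721800) (a (l 16756472) (l 16761984))) (b (l 16732336) (c (l 16719312) (l 16706152)))) (c (a (b (l 16772144) (l 16767608)) (b (c (l 16766168) (l 16768632)) (c (l 16780720) (l 16765952)))) (a (b (l 16736880) (l 16739312)) (b (a (l 16739152) (l 16740656)) (a (l 16741976) (l 16743696))))))) (a (a (b (a (l 16705416) (l 16709528)) (a (l 16705304) (l 16709944))) (b (c (l 16725040) (l 16707320)) (a (l 16714824) (l 16730344)))) (a (c (b (a (l 16753936) (l 16759408)) (a (l 16732040) (l 16737496))) (b (a (l 16734608) (l 16717976)) (a (l 16717744) (l 16722544)))) (c (a (b (l 16765024) (l 16743056)) (b (a (l 16769288) (l 16772192)) (b (l 16769752) (l 16748536)))) (a (b (l 16743144) (l 16727104)) (b (b (l 16745880) (l 16748232)) (a (l 16730240) (l 16732200)))))))), by decide +kernel⟩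

def k9_pm_123_t : ∃ t, chk3 f_pm_123_t t 28 15 1 = true :=
  ⟨(a (a (b (b (b (l 16706048) (l 16706272)) (b (l 16727264) (l 16727456))) (b (b (l 16727824) (b (l 16728192) (c (l 16734800) (l 16716872)))) (a (b (b (l 16687672) (c (l 16733960) (l 143912156265906511))) (c (c (l 144062789394596175) (l 144005546056728911)) (b (c (l 16724312) (l 143878896032694607)) (c (l 143945279062016335) (l 143880201703260495))))) (b (c (l 16737200) (b (l 16724312) (l 16724632))) (c (c (l 16741512) (l 144031728185016655)) (c (l 143975378200658255) (a (l 143906658708095311) (l 143923563703648591)))))))) (b (b (b (l 16711032) (l 16711752)) (b (l 16733208) (l 16733800))) (b (c (b (l 16740120) (l 16741168)) (b (l 16728904) (a (l 16727696) (l 16731440)))) (b (c (c (l 16745336) (l 16739400)) (b (l 16730128) (b (l 16730440) (l 16730632)))) (c (c (l 144119964017115407) (l 144071104456540495)) (c (b (l 16734072) (l 144020389470323023)) (b (l 143961840462283087) (l 143963008694026575)))))))) (b (b (a (b (l 16716184) (l 16717264))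 (b (l 16721440) (c (l 16748104) (l 16718352)))) (c (a (l 16744480) (l 16750008)) (c (l 16719440) (l 16714784)))) (b (b (a (c (l 16746232) (l 16735984)) (l 16747536)) (a (c (l 16747600) (l 16736920)) (b (l 16748544) (l 16749240)))) (c (a (b (l 16749112) (c (l 16753648) (l 144120719933423887))) (b (l 16755688) (c (l 16760336) (l 16754640)))) (b (a (b (l 16737584) (l 16738040)) (l 16744864)) (a (b (l 144043273064153359) (c (l 16742032) (l 144020045875544335))) (b (l 16745592) (c (l 16749096) (l 16743032))))))))), by decide +kernel⟩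

def k10_pm_123_t : ∃ t, chk3 f_pm_123_t t 29 15 1 = true :=
  ⟨(b (a (b (a (c (l 16732248) (a (l 16721400) (l 16723992))) (c (l 16737576) (l 16727768))) (b (a (a (l 16749176) (l 16751912)) (b (l 16734488) (l 16756320))) (l 16736592))) (b (a (c (l 16743040) (l 16732464)) (c (c (l 16751320) (l 16745640)) (c (l 16739760) (l 16733680)))) (a (b (a (l 16738728) (l 16741200)) (l 16762816)) (b (c (l 16748704) (b (l 16740088) (l 16741312))) (l 16746632))))) (a (b (b (c (l 16771464) (l 16731168)) (c (b (l 16762464) (l 16763480)) (l 16732416))) (a (c (b (l 16761976) (c (l 16766712) (l 16761128))) (b (l 16751424) (c (l 16755400) (l 144110755612901647)))) (b (c (l 16768016) (l 143975103382225167)) (a (c (l 16768480) (l 16757096)) (b (l 16765312) (l 144053306164068559)))))) (b (a (b (l 16764688) (l 16745568)) (c (l 16753816) (l 16748496))) (a (b (b (l 16746768) (l 16747480)) (c (l 16774888) (b (l 16763600) (l 16763952)))) (b (b (l 16772144) (l 16751712)) (b (l 16752144) (a (l 16772592) (l 16774216)))))))),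 by decide +kernel⟩

def k11_pm_123_t : ∃ t, chk3 f_pm_123_t t 60 6 1 = true :=
  ⟨(b (a (b (b (l 4) (a (b (b (l 4) (a (l 16776808) (l 16762424))) (a (l 16776752) (l 16790584))) (b (l 4) (a (b (l 107609033767) (l 16776824)) (c (l 111367124183) (l 16759336)))))) (b (a (c (l 16779328) (l 16772336)) (b (a (l 16776752) (l 78081190423)) (l 16770968))) (a (c (l 16780952) (l 16766856)) (c (l 16780096) (l 16769872))))) (b (l 4) (b (a (b (a (b (l 4) (l 16776696)) (l 4)) (a (l 16776784) (b (l 16787136) (l 16776960)))) (b (l 4) (a (b (l 4) (l 138210724823)) (l 4)))) (a (c (l 16779168) (l 16772704)) (b (a (l 16776856) (b (l 146800658919) (l 16777064))) (c (l 16778592) (l 16774160))))))) (b (b (a (c (c (l 16765728) (l 16777088)) (a (l 16739944) (l 16764344))) (c (a (l 16780784) (l 16769448)) (a (l 16767608) (l 16770672)))) (a (c (a (l 16783384) (l 16782776)) (c (l 16742368) (l 16729160))) (c (c (l 16765136) (l 16777368)) (a (l 16741352) (l 16744856))))) (b (a (c (c (l 16792080) (l 16754816)) (a (l 16727936)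 (l 16753120))) (a (c (l 16783176) (l 16736240)) (c (l 16761600) (l 16734920)))) (a (c (a (b (l 16763792) (l 16743104)) (l 16742624)) (a (c (l 16754304) (l 16733344)) (c (l 16757224) (l 16738648)))) (c (a (l 16763144) (l 16762672)) (a (l 16720952) (l 16725208))))))), by decide +kernel⟩

def k12_pm_123_t : ∃ t, chk3 f_pm_123_t t 61 12 1 = true :=
  ⟨(a (b (l 4) (b (l 4) (a (b (a (b (l 4) (l 156464334791)) (l 4)) (a (c (l 16777904) (l 16776088)) (b (c (l 122641426775) (l 16775496)) (l 16785152)))) (b (l 4) (a (b (l 4) (b (l 4) (l 172033587191))) (l 4)))))) (l 4)), by decide +kernel⟩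

def k13_pm_123_t : ∃ t, chk3 f_pm_123_t t 61 13 1 = true :=
  ⟨(b (a (c (b (a (c (l 16780352) (l 16777624)) (b (a (l 16777960) (b (l 136600066983) (l 16777088))) (l 16773096))) (a (l 16772728) (c (l 16781552) (l 16777816)))) (b (a (b (l 16774552) (l 16772376)) (b (a (l 16776552) (c (l 90966039367) (l 87207942775))) (l 16775024))) (a (b (l 16770160) (l 16747016)) (c (l 16774016) (l 16770176))))) (b (a (b (a (c (l 252027328727) (l 257396037223)) (l 4)) (a (b (c (l 105998431847) (l 16766224)) (l 16771792)) (b (l 4) (c (a (l 16776888) (l 143042524743)) (l 127473264983))))) (l 4)) (a (b (a (c (l 16778440) (l 16774992)) (b (c (l 16777712) (l 16776648)) (l 16776912))) (c (c (l 16780296) (l 16777752)) (l 16773840))) (b (a (b (c (a (l 89355437079) (l 144116264103)) (c (l 133915716215) (l 134452587079))) (c (a (l 16777632) (l 16777168)) (l 16771808))) (a (b (l 4) (b (l 4) (l 174181066471))) (l 4))) (a (c (l 16778200) (l 16775640)) (a (b (l 16783144) (l 16777032)) (b (b (l 136063226215) (l 16782496))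 (l 16777128)))))))) (a (c (b (a (l 16771424) (c (l 16784304) (l 16777968))) (a (l 16762144) (c (l 16786920) (l 16757120)))) (b (a (a (l 16742952) (l 16744728)) (b (l 16769152) (l 16746264))) (a (c (l 16766400) (l 16754968)) (a (l 16742568) (l 16744352))))) (b (a (c (c (l 16772016) (l 16778080)) (c (l 16773568) (l 16768960))) (c (c (a (l 16781112) (l 16780136)) (a (l 16778040) (l 16777928))) (c (l 16775288) (b (l 16773576) (l 16771416))))) (c (a (c (l 16785240) (l 16778416)) (c (l 16775616) (l 16778536))) (a (b (l 16747680) (l 16745992)) (c (l 16773464) (b (l 16769280) (l 16767168)))))))), by decide +kernel⟩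

def k14_pm_123_t : ∃ t, chk3 f_pm_123_t t 60 14 1 = true :=
  ⟨(b (a (c (b (a (a (l 16760344) (l 16740096)) (b (l 16742088) (l 16781960))) (a (l 16756272) (l 16758096))) (c (b (a (l 16752632) (l 16754960)) (l 16755192)) (b (a (l 16732744) (l 16735984)) (l 16739248)))) (b (c (b (c (l 16772016) (l 16755744)) (a (l 16762344) (b (l 16764008) (l 16763296)))) (b (a (c (l 16758360) (l 16740216)) (l 16753432)) (a (l 16748816) (c (l 16760352) (l 16743760))))) (c (b (l 16761456) (l 16760048)) (c (l 16760024) (l 16744984))))) (a (c (b (c (l 16781536) (l 16769856)) (c (l 16779152) (l 16749392))) (b (a (l 16750184) (l 16752728)) (c (l 16740240) (l 16730728)))) (c (b (c (l 16785296) (l 16774080)) (c (l 16783392) (l 16753760))) (b (c (l 16762424) (l 16729344)) (c (l 16744720) (l 16735312)))))), by decide +kernel⟩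

def k15_pm_123_t : ∃ t, chk3 f_pm_123_t t 61 14 1 = true :=
  ⟨(a (b (c (b (a (c (l 16770568) (l 16757056)) (a (l 16763200) (l 16762952))) (b (a (l 16752960) (b (l 16764624) (l 16764608))) (l 16752936))) (a (b (c (l 16743184) (l 16728984)) (c (l 16763152) (l 16748912))) (b (c (l 16766736) (l 16754824)) (b (c (l 16765736) (l 16752032)) (l 16759504))))) (b (c (a (l 16761544) (l 16763256)) (c (l 16766824) (l 16755240))) (c (b (l 16762024) (l 16761928)) (c (l 16769864) (b (l 16759160) (l 16761848)))))) (b (b (c (a (b (l 16762008) (l 16762968)) (b (l 16771768) (l 16762288))) (a (b (l 16744336) (l 16742784)) (c (l 16750768) (l 16748376)))) (a (b (c (l 16759200) (c (l 16768376) (l 16756592))) (c (b (l 16760152) (l 16765168)) (a (l 16740184) (b (l 16762760) (l 16762664))))) (c (b (l 16763712) (c (l 16770824) (l 16760584))) (b (c (l 16770848) (l 16761264)) (a (c (l 16770256) (l 16758768)) (l 16766080)))))) (b (a (c (a (l 16764544) (l 16765240)) (b (l 16763432) (l 16765232))) (c (b (c (l 16771072) (l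 16760704)) (l 16766016)) (b (b (a (l 16764592) (l 16744840)) (l 16765960)) (l 16767200)))) (c (b (b (l 16765112) (l 16765008)) (a (l 16785160) (l 16765224))) (b (c (l 16772600) (l 16742216)) (a (l 16768896) (l 16770392))))))), by decide +kernel⟩

def k16_pm_123_t : ∃ t, chk3 f_pm_123_t t 30 15 1 = true :=
  ⟨(b (a (b (a (c (a (l 16752392) (l 16754896)) (a (l 16739768) (l 16741960))) (c (c (l 16761200) (l 16754880)) (b (l 16743648) (l 16745960)))) (b (a (a (c (l 16773320) (l 16743816)) (l 16750176)) (c (l 16757616) (l 16748080))) (a (b (a (l 16749168) (l 16751024)) (l 16771992)) (c (l 16757472) (b (l 16749464) (l 16750080)))))) (c (a (b (b (l 16761672) (l 16761304)) (b (l 16760456) (b (l 16759568) (l 16759208)))) (b (b (b (l 16764328) (l 16763984)) (a (l 16783904) (l 16784616))) (b (a (l 16782784) (l 16783376)) (c (l 16762448) (l 16758968))))) (a (b (b (b (l 16767744) (l 16747784)) (b (l 16748680) (l 16749512))) (b (b (l 16750280) (l 16750976)) (a (l 16751512) (l 16752424)))) (b (b (a (l 16749560)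 (l 16771792)) (a (l 16771952) (l 16752000))) (b (a (l 16773104) (l 16752936)) (a (l 16753104) (l 16753632))))))) (a (b (a (b (l 16752344) (l 16753648)) (b (l 16754936) (l 16761208))) (b (a (c (l 16780096) (l 16770840)) (a (l 16756216) (l 16757024))) (a (c (l 16780816) (b (l 16771160) (l 16771288))) (c (l 16782136) (c (l 16775880) (l 16751840)))))) (b (a (b (l 16756448) (c (l 16781728) (l 16774680))) (c (b (a (l 16780920) (l 16759872)) (l 16760648)) (b (a (l 16753776) (l 16764664)) (l 16765288)))) (a (b (c (l 16782328) (l 16759472)) (c (a (l 16782520) (l 16782600)) (a (l 16775056) (l 16775808)))) (b (c (l 16766432) (a (l 16776088) (l 16776536))) (a (b (l 16779464) (l 16779576)) (c (l 16782384) (l 16776960)))))))), by decide +kernel⟩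

def k17_pm_123_t : ∃ t, chk3 f_pm_123_t t 62 12 1 = true :=
  ⟨(l 4), by decide +kernel⟩

def k18_pm_123_t : ∃ t, chk3 f_pm_123_t t 124 13 1 = true :=
  ⟨(b (a (b (l 4) (b (l 4) (a (b (c (l 269744070951) (a (l 144116264023) (l 4))) (c (a (l 16777208) (l 116735850039)) (a (l 16777408) (l 116735850231)))) (l 4)))) (l 4)) (a (b (b (a (b (c (l 34594608647) (l 16776680)) (c (l 16778144) (l 16775928))) (a (b (b (c (l 143042529191) (l 16775664)) (l 116735880855)) (l 16777168)) (b (l 4) (c (b (l 16771352) (l 16777488)) (l 16777224))))) (a (c (l 16778864) (l 16774904)) (c (l 16778224) (l 16775960)))) (c (c (a (l 16782072) (l 16770584)) (a (l 16778472) (l 16778344))) (c (a (l 16774776) (l 16775528)) (b (l 16772736) (l 16749880))))) (b (a (b (a (b (l 4) (c (c (l 147337492375) (l 147337492935)) (l 146800619927))) (l 4)) (b (a (c (l 16777656) (l 16777120)) (c (a (l 97408503927) (l 129620754887)) (l 111367142199))) (c (l 16777784) (l 16776608)))) (b (l 4) (b (l 4) (c (a (c (l 88818568519) (l 89355439431))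 (l 298198231559)) (a (l 90966049959) (l 158074906551)))))) (b (a (c (l 16773288) (l 16775728)) (a (c (l 16778000) (l 16776432)) (b (c (b (l 92576666711) (l 16777504)) (l 72175570583)) (l 16777240)))) (c (a (l 16779528) (l 16773592)) (a (l 16774576) (l 16775600))))))), by decide +kernel⟩

def k19_pm_123_t : ∃ t, chk3 f_pm_123_t t 125 13 1 = true :=
  ⟨(b (l 4) (b (l 4) (a (a (a (b (a (b (b (l 4) (l 162906774535)) (l 16777240)) (b (l 4) (c (l 16777408) (l 16777296)))) (c (l 16778272) (l 16776280))) (b (b (l 4) (c (b (l 163980491591) (c (l 99555989207) (l 16771392))) (c (l 118346465095) (l 117809594183)))) (b (c (l 16777640) (l 16776952)) (l 16777304)))) (b (l 4) (a (a (b (c (b (l 16771256) (l 16777432)) (l 16771808)) (l 16777288)) (b (b (l 4) (l 160222420439)) (l 16777272))) (b (l 4) (b (c (c (l 118346469239) (l 117272727671)) (l 116198984311)) (c (l 103314103815) (l 16777232))))))) (a (a (b (l 4) (b (l 4) (c (c (l 328263002663) (l 328263002535)) (l 315378100471)))) (l 4)) (l 4))))), by decide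 +kernel⟩

def k20_pm_123_t : ∃ t, chk3 f_pm_123_t t 63 6 1 = true :=
  ⟨(l 4), by decide +kernel⟩

def k21_pm_123_t : ∃ t, chk3 f_pm_123_t t 124 7 1 = true :=
  ⟨(a (b (c (b (b (c (b (l 16783688) (l 16785288)) (b (l 16778928) (l 16779448))) (b (b (l 16762464) (l 16763296)) (l 16770008))) (b (b (a (a (l 16766752) (l 16766912)) (l 16770704)) (a (l 16787808) (l 16767008))) (b (l 16766520) (l 16765912)))) (b (b (a (c (l 16773280) (l 16767152)) (c (l 16753224) (l 16769040))) (c (b (l 16773072) (l 16773024)) (b (l 16765592) (l 16764184)))) (b (b (a (b (l 16767480) (l 16746416)) (b (l 16768992) (l 16747944))) (a (l 16768568) (l 16753504))) (b (l 16749408) (l 16771696))))) (b (b (c (b (l 16765128) (l 16785056)) (b (l 16772872) (l 16752872))) (c (b (l 16783720) (l 16761136)) (b (l 16753608) (l 16764608)))) (b (b (c (a (l 16780720) (l 16759672)) (a (l 16754440) (l 16765080))) (l 16768224)) (b (l 16768840) (c (l 16782160) (l 16777400)))))) (b (b (b (b (c (a (l 16780496) (l 16779840)) (a (l 16773432) (l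 16774552))) (c (c (l 16772776) (l 16779256)) (c (l 16775112) (l 16760352)))) (c (b (a (l 16783096) (l 16772016)) (a (l 16763976) (l 16763304))) (b (a (l 16750568) (l 16762376)) (a (l 16749952) (l 16761792))))) (b (b (c (a (l 16765984) (l 16765232)) (a (l 16749424) (l 16750816))) (c (a (b (l 16767336) (l 16788264)) (b (l 16787616) (l 16767240))) (a (b (c (l 16774848) (l 16765432)) (l 16770416)) (b (l 16771392) (a (l 16749992) (l 16750640)))))) (c (b (l 16766968) (l 16766248)) (b (c (l 16775896) (l 16767432)) (l 16762328))))) (b (b (c (b (l 16765368) (l 16764256)) (b (l 16763304) (l 16764096))) (c (b (l 16762872) (l 16761232)) (b (l 16764656) (a (l 16775408) (l 16754616))))) (b (b (c (a (l 16759616) (l 16770032)) (b (l 16765136) (l 16765264))) (l 16768032)) (b (c (l 16781288) (l 16777128)) (b (l 16779688) (l 16769472))))))), by decide +kernel⟩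

def k22_pm_123_t : ∃ t, chk3 f_pm_123_t t 125 28 1 = true :=
  ⟨(a (b (a (c (b (c (l 16779960) (l 16778240)) (l 16775024)) (b (l 16775544) (l 16774688))) (b (c (c (l 16773496) (l 16777824)) (c (l 16776880) (l 16775904))) (c (c (l 16780408) (l 16778552)) (l 16775648)))) (c (a (b (l 16771304) (l 16773040)) (b (c (l 16782352) (l 16779512)) (l 16774744))) (c (a (l 16776064) (c (l 16777456) (l 16765208))) (a (b (l 16772016) (l 16770896)) (b (l 16773504) (l 16772464)))))) (b (b (b (a (a (a (c (l 16777568) (l 16777128)) (c (b (l 136063211447) (l 16777448)) (l 92576665991))) (a (c (b (l 4) (l 125862664871)) (l 138747559991)) (l 4))) (l 4)) (a (c (a (l 16777904) (a (l 16777576) (b (l 113514634583) (l 16777464)))) (a (l 16776760) (c (l 16772224) (l 16777248)))) (a (a (b (l 4) (c (l 103850958823) (l 16776872))) (c (l 372286417767) (l 367454579319))) (l 4)))) (a (c (a (l 16773592) (c (l 16778760) (l 16777928))) (c (l 16776992) (l 16775880))) (a (a (c (l 16777976) (l 16776856)) (b (c (b (l 95261024695)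 (l 16777536)) (l 16773424)) (l 16777448))) (a (b (b (c (l 184918462199) (l 182234107831)) (c (l 87744832519) (l 16777176))) (l 16777376)) (b (b (l 4) (c (l 182770979031) (l 180086624599))) (c (b (l 16773896) (l 16777608)) (l 16777256))))))) (a (c (b (c (l 16775736) (l 16779008)) (b (l 16770648) (l 16771448))) (c (b (l 16776960) (l 16777024)) (b (l 16774840) (l 16773864)))) (b (c (a (l 16773936) (c (l 16779048) (l 16778136))) (c (l 16777168) (l 16775968))) (c (a (l 16770176) (l 16774792)) (c (l 16777240) (l 16775072))))))), by decide +kernel⟩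

def k23_pm_123_t : ∃ t, chk3 f_pm_123_t t 125 29 1 = true :=
  ⟨(b (a (c (b (a (l 16764352) (l 16773824)) (a (l 16773520) (l 16775552))) (a (b (l 16762544) (b (l 16772656) (l 16756800))) (c (l 16766360) (b (l 16771448) (l 16770432))))) (c (a (b (l 16775304) (l 16774344)) (b (a (l 16771744) (l 16771080)) (a (l 16773360) (l 16772664)))) (a (b (a (l 16764344) (l 16764768)) (a (l 16763936) (l 16764392))) (b (a (l 16765152) (l 16765496)) (a (l 16764800) (l 16765168)))))) (a (b (a (b (c (l 16772192) (c (l 16765864) (l 16768232))) (c (l 16787832) (l 16772808))) (c (b (l 16776984) (c (l 16768440) (l 16784024))) (b (a (l 16752216) (l 16773592)) (a (l 16773080) (b (l 16752536) (l 16773456)))))) (c (l 16766240) (b (l 16752544) (l 16752984)))) (b (a (c (b (l 16765080) (a (l 16766312) (l 16786528))) (a (c (l 16767040) (l 16760376)) (l 16763992))) (c (l 16775576) (a (l 16764432) (l 16764840)))) (c (a (a (l 16765944) (b (l 16776400) (l 16786680))) (a (b (l 16776168) (l 16786472)) (b (l 16785856) (l 16775672))))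 (a (b (a (l 16773976) (b (l 16763800) (l 16774280))) (l 16774536)) (b (b (l 16764384) (a (l 16764144) (l 16774984))) (b (a (l 16774640) (b (l 16764504) (l 16764408))) (l 16764360)))))))), by decide +kernel⟩

def k24_pm_123_t : ∃ t, chk3 f_pm_123_t t 125 15 1 = true :=
  ⟨(b (b (a (c (b (l 16775792) (l 16774656)) (b (c (l 16777600) (l 16771456)) (a (l 16775048) (l 16775328)))) (c (b (a (l 16765064) (l 16775288)) (a (l 16763936) (l 16774176))) (b (c (l 16777968) (l 16772344)) (c (l 16778048) (l 16762776))))) (a (c (b (l 16773264) (b (l 16782536) (l 16760712))) (b (a (l 16754528) (l 16765224)) (a (l 16765264) (l 16765424)))) (c (b (a (l 16762560) (l 16772848)) (c (l 16783296) (l 16770056))) (b (c (l 16767432) (l 16763512)) (a (l 16765576) (l 16765720)))))) (b (b (a (c (b (l 16770320) (l 16769504)) (b (l 16765408) (a (l 16775904) (l 16775992)))) (c (c (l 16770808) (l 16768824)) (c (l 16766752) (l 16769824)))) (a (a (l 16778328) (c (l 16779816) (l 16765888))) (b (c (b (l 16768864) (l 16768736)) (a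 (l 16776168) (l 16765776))) (l 16767632)))) (b (a (c (l 16780792) (l 16766800)) (b (l 16768096) (l 16773760))) (a (c (l 16770968) (b (l 16777832) (l 16778152))) (c (b (l 16780768) (l 16781104)) (b (l 16777960) (l 16778328))))))), by decide +kernel⟩

def k25_pm_123_t : ∃ t, chk3 f_pm_123_t t 126 28 1 = true :=
  ⟨(a (b (b (l 4) (b (l 4) (a (a (a (b (c (c (l 161833014887) (l 158611789367)) (l 153243079351)) (c (l 16777256) (l 16777344))) (b (l 4) (c (c (l 160759273255) (l 157538047735)) (l 152169337735)))) (l 4)) (l 4)))) (b (b (a (a (a (l 16774792) (c (c (l 16777576) (l 16777520)) (l 16777216))) (a (b (c (c (l 158611789751) (l 155390564407)) (l 150558725159)) (c (l 16777360) (l 16777288))) (b (l 4) (c (b (l 4) (l 143579406647)) (l 149484983431))))) (l 4)) (a (c (a (l 16778320) (c (a (l 16778056) (l 16777608)) (l 16774992))) (a (l 16776856) (c (l 16777296) (l 16776968)))) (a (a (b (c (a (l 143042536087) (l 205319559463)) (l 150021854391)) (c (l 16777384) (l 16777280))) (b (l 4) (c (a (l 145190019575)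 (l 208540784903)) (l 151632467031)))) (l 4)))) (a (c (a (c (l 16780056) (l 16778712)) (c (l 16779184) (l 16778272))) (c (l 16774696) (l 16776104))) (a (a (c (l 16774304) (l 16776992)) (b (c (c (l 16777584) (l 16777536)) (l 16774600)) (c (l 16778224) (l 16777008)))) (b (b (a (a (c (l 148948115927) (l 16773992)) (l 4)) (l 4)) (a (c (l 83986748839) (l 16777304)) (a (b (l 4) (l 122104572439)) (l 4)))) (a (c (l 16777880) (l 16777088)) (b (a (l 16777320) (b (l 126936410583) (l 16777280))) (l 16777424)))))))) (b (l 4) (b (l 4) (b (l 4) (a (a (a (a (b (b (l 4) (l 132305130071)) (l 16777320)) (b (l 4) (c (l 103850972007) (l 16777104)))) (a (b (l 4) (c (b (l 4) (l 16776824)) (l 163443629335))) (l 4))) (l 4)) (l 4)))))), by decide +kernel⟩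

def k26_pm_123_t : ∃ t, chk3 f_pm_123_t t 126 29 1 = true :=
  ⟨(a (b (a (c (a (b (l 16775648) (l 16771944)) (b (l 16774944) (l 16776448))) (c (b (l 16777480) (l 16777664)) (b (l 16775336) (l 16769344)))) (a (c (b (c (l 16779792) (l 16778824)) (c (l 16781040) (l 16779880))) (b (l 16776776) (c (l 16777680) (l 16775384)))) (b (c (c (l 16776328) (l 16778320)) (c (l 16777424) (l 16776496))) (b (a (l 16774480) (l 16775640)) (l 14))))) (a (a (b (c (l 16773488) (l 16765200)) (b (c (l 16785096) (l 16775424)) (c (l 16775400) (c (l 16767632) (l 16767384))))) (l 14)) (l 14))) (b (a (b (b (a (a (c (l 16777848) (l 16777120)) (b (a (l 16777320) (a (l 142505677735) (b (l 16773928) (l 16777256)))) (l 16777408))) (a (a (b (c (b (l 4) (l 16774384)) (l 174181047223)) (l 81839264167)) (b (l 4) (c (b (l 180086630391) (l 16777200)) (l 123715183847)))) (b (l 4) (c (c (l 430805349047) (l 431342219847)) (l 425973510583))))) (a (c (c (l 16778472) (l 16778032)) (l 16777064)) (b (a (l 16777400) (a (c (l 16777280) (l 16777304))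 (b (a (l 16774488) (l 4)) (l 172033577143)))) (a (l 16777552) (l 14))))) (a (a (c (l 16774352) (l 16776904)) (l 14)) (l 14))) (b (b (l 4) (b (b (l 4) (l 14)) (l 14))) (l 14))) (l 14))), by decide +kernel⟩

def k27_pm_123_t : ∃ t, chk3 f_pm_123_t t 127 14 1 = true :=
  ⟨(b (l 4) (b (b (l 4) (l 14)) (l 14))), by decide +kernel⟩

def k28_pm_123_t : ∃ t, chk3 f_pm_123_t t 63 15 1 = true :=
  ⟨(a (a (a (a (b (c (b (b (l 16774912) (l 16763464)) (b (l 16772664) (l 16781744))) (b (b (b (l 16764808) (l 16775632)) (l 16775944)) (b (l 16776192) (l 16765832)))) (b (b (c (l 16780256) (l 16765848)) (b (c (l 16779136) (l 16776328)) (l 16777872))) (b (l 16773352) (c (l 16780584) (l 16778192))))) (l 14)) (l 14)) (l 14)) (l 14)), by decide +kernel⟩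

theorem s29_pm_123_t : ∃ t, chk3 f_pm_123_t t 126 14 1 = true := ex3_b k25_pm_123_t k26_pm_123_t

theorem s30_pm_123_t : ∃ t, chk3 f_pm_123_t t 63 14 1 = true := ex3_a s29_pm_123_t k27_pm_123_t

theorem s31_pm_123_t : ∃ t, chk3 f_pm_123_t t 63 7 1 = true := ex3_b s30_pm_123_t k28_pm_123_t

theorem s32_pm_123_t : ∃ t, chk3 f_pm_123_t t 125 14 1 = true := ex3_b k22_pm_123_t k23_pm_123_t

theorem s33_pm_123_t : ∃ t, chk3 f_pm_123_t t 125 7 1 = true := ex3_b s32_pm_123_t k24_pm_123_t

theorem s34_pm_123_t : ∃ t, chk3 f_pm_123_t t 62 7 1 = true := ex3_a k21_pm_123_t s33_pm_123_t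

theorem s35_pm_123_t : ∃ t, chk3 f_pm_123_t t 31 7 1 = true := ex3_a s34_pm_123_t s31_pm_123_t

theorem s36_pm_123_t : ∃ t, chk3 f_pm_123_t t 62 13 1 = true := ex3_a k18_pm_123_t k19_pm_123_t

theorem s37_pm_123_t : ∃ t, chk3 f_pm_123_t t 62 6 1 = true := ex3_b k17_pm_123_t s36_pm_123_t

theorem s38_pm_123_t : ∃ t, chk3 f_pm_123_t t 31 6 1 = true := ex3_a s37_pm_123_t k20_pm_123_t

theorem s39_pm_123_t : ∃ t, chk3 f_pm_123_t t 31 3 1 = true := ex3_b s38_pm_123_t s35_pm_123_t

theorem s40_pm_123_t : ∃ t, chk3 f_pm_123_t t 30 14 1 = true := ex3_a k14_pm_123_t k15_pm_123_t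

theorem s41_pm_123_t : ∃ t, chk3 f_pm_123_t t 30 7 1 = true := ex3_b s40_pm_123_t k16_pm_123_t

theorem s42_pm_123_t : ∃ t, chk3 f_pm_123_t t 61 6 1 = true := ex3_b k12_pm_123_t k13_pm_123_t

theorem s43_pm_123_t : ∃ t, chk3 f_pm_123_t t 30 6 1 = true := ex3_a k11_pm_123_t s42_pm_123_t

theorem s44_pm_123_t : ∃ t, chk3 f_pm_123_t t 30 3 1 = true := ex3_b s43_pm_123_t s41_pm_123_t

theorem s45_pm_123_t : ∃ t, chk3 f_pm_123_t t 15 3 1 = true := ex3_a s44_pm_123_t s39_pm_123_t

theorem s46_pm_123_t : ∃ t, chk3 f_pm_123_t t 14 15 1 = true := ex3_a k9_pm_123_t k10_pm_123_t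

theorem s47_pm_123_t : ∃ t, chk3 f_pm_123_t t 14 7 1 = true := ex3_b k8_pm_123_t s46_pm_123_t

theorem s48_pm_123_t : ∃ t, chk3 f_pm_123_t t 14 6 1 = true := ex3_a k6_pm_123_t k7_pm_123_t

theorem s49_pm_123_t : ∃ t, chk3 f_pm_123_t t 14 3 1 = true := ex3_b s48_pm_123_t s47_pm_123_t

theorem s50_pm_123_t : ∃ t, chk3 f_pm_123_t t 7 3 1 = true := ex3_a s49_pm_123_t s45_pm_123_t

theorem s51_pm_123_t : ∃ t, chk3 f_pm_123_t t 13 3 1 = true := ex3_b k4_pm_123_t k5_pm_123_t

theorem s52_pm_123_t : ∃ t, chk3 f_pm_123_t t 6 3 1 = true := ex3_a k3_pm_123_t s51_pm_123_t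

theorem s53_pm_123_t : ∃ t, chk3 f_pm_123_t t 3 3 1 = true := ex3_a s52_pm_123_t s50_pm_123_t

theorem s54_pm_123_t : ∃ t, chk3 f_pm_123_t t 3 2 1 = true := ex3_a k1_pm_123_t k2_pm_123_t

theorem s55_pm_123_t : ∃ t, chk3 f_pm_123_t t 3 1 1 = true := ex3_b s54_pm_123_t s53_pm_123_t

theorem s56_pm_123_t : ∃ t, chk3 f_pm_123_t t 1 1 1 = true := ex3_a k0_pm_123_t s55_pm_123_t

theorem c_pm_123_t : CertNE 536870912 536870912 0 536870912 818728140 40265320 3 eng mog cd0q1 cd0q2 pd3 true true false .npn 1 2 3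
    ndB0q1 ndB0q2 pcB3 cut_pm_123_t xt_pm_123_t :=
  certNE2 (fam := true) (s1 := true) (s2 := false) (a := 1) (b := 2) (c := 3) (cn := .npn) (n1 := ndB0q1) (n2 := ndB0q2) (pc := pcB3) (cut := cut_pm_123_t) (xt := xt_pm_123_t) (P1 := 536870912) (W1 := 536870912) (P2 := 0) (W2 := 536870912) (P3 := 818728140) (W3 := 40265320) (N0 := 3) (En := eng) (mo := mog) (C1 := cd0q1) (C2 := cd0q2) (C3 := pd3)
    rfl (fun _ => rfl) s56_pm_123_t

end Pool.Agent.Strip051.G.I7625_8000.Tab.CS.BA00

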