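import Pool.Agent.Strip051.G.I7625_8000.Tab
import Pool.Agent.Strip051.PB.StripB
import Pool.Agent.Strip051.PB.ExtD2

/-! # Strips, near vertex: certificates 3 (generated) -/

set_option linter.all false
set_option maxRecDepth 100000

namespace Pool.Agent.Strip051.G.I7625_8000.Tab.CS.BA00

open Pool.Agent.Strip051.PB Pool.Agent.Strip051.PB.T
open Pool.Agent.Strip051.G.I7625_8000.Tab

noncomputable def cut_pm_202_s : Cut := Cut.of [[⟨4, 0, 0, 1449551462⟩], [⟨0, 1, 0, 67108864⟩, ⟨1, 0, 0, 67108864⟩, ⟨2, 1, 0, 67108864⟩]]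

noncomputable def f_pm_202_s : ℕ → ℕ → ℕ → ℕ → Bool := onCell 0 536870912 1073741824 536870912 818728140 40265320
    (rowNE 3 eng mog cd0q2 cd0q0 pd2 1 true true false .pp 2 0 2 (qsf 0 536870912 0 536870912 2) ndB0q2 ndB0q0 pcB2 cut_pm_202_s Ext.none)

def k0_pm_202_s : ∃ t, chk3 f_pm_202_s t 1 8 1 = true :=
  ⟨(a (l 1) (a (l 1) (a (b (l 1) (a (b (l 1) (b (l 1) (a (l 1) (a (b (l 1) (c (l 16573960) (l 16557808))) (b (l 14) (c (l 16586848) (l 16571600))))))) (b (l 14) (b (l 14) (b (l 14) (a (a (l 16592592) (l 16605656)) (a (l 16618640) (l 16631544)))))))) (b (l 14) (b (l 14) (b (l 14) (b (l 14) (b (l 14) (a (a (l 16650552) (l 16655496)) (a (l 16700544) (a (l 16692680) (a (l 16688320) (l 16685256))))))))))))), by decide +kernel⟩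

def k1_pm_202_s : ∃ t, chk3 f_pm_202_s t 2 9 1 = true :=
  ⟨(l 6), by decide +kernel⟩

def k2_pm_202_s : ∃ t, chk3 f_pm_202_s t 3 18 1 = true :=
  ⟨(a (a (l 1) (a (b (l 1) (a (b (l 1) (a (l 1) (c (l 16455648) (l 16436704)))) (c (b (a (l 1) (l 16478760)) (a (l 16466416) (l 16477472))) (b (l 16454600) (l 87006011719))))) (b (b (l 1) (a (a (l 1) (b (l 1) (l 16495280))) (a (c (l 16516672) (l 16499832)) (b (l 16521888) (l 16520728))))) (c (a (b (a (l 16490376) (l 16502224)) (l 16494544)) (b (l 16520384) (l 16517936))) (a (b (l 49961951303) (l 16478704)) (b (l 16504968) (l 16503568))))))) (a (a (b (a (b (a (b (l 1) (l 16536384)) (c (l 16558360) (l 16542288))) (a (c (l 16541928) (l 16526392)) (l 16547352))) (b (a (c (l 16571232) (l 16555936)) (c (l 16583864) (l 16569480))) (a (l 16560232) (l 16572944)))) (a (b (a (l 16531720) (l 16544392)) (l 16535488)) (b (l 16578888) (l 16559856)))) (b (a (b (c (l 16602480) (l 16589704)) (c (l 16597416) (l 16585912))) (b (c (l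 16626704) (l 16616400)) (l 16611248))) (a (b (l 16587592) (l 16583616)) (b (l 16611576) (l 16606920))))) (a (c (a (b (b (l 16650704) (l 16644120)) (l 16634880)) (b (a (l 16665032) (l 16655928)) (l 16657024))) (a (b (b (l 16643136) (l 16637856)) (l 16630424)) (b (c (l 16636552) (l 16623920)) (l 16655440)))) (a (a (b (a (l 16684728) (l 16691032)) (l 16673928)) (b (c (l 16689264) (l 16690128)) (c (l 16675088) (l 16673632)))) (b (c (b (a (l 16687904) (a (l 16684112) (l 16681432))) (a (l 16681136) (l 16675944))) (b (a (l 16687744) (a (l 16682672) (l 16679120))) (a (l 16679704) (l 16662272)))) (b (c (a (l 16673928) (l 16668624)) (a (l 16671312) (l 16660304))) (c (a (l 16666288) (l 16660792)) (a (l 16662576) (l 16644824))))))))), by decide +kernel⟩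

def k3_pm_202_s : ∃ t, chk3 f_pm_202_s t 3 19 1 = true :=
  ⟨(a (a (l 6) (a (b (a (b (a (l 6) (c (l 16455016) (l 16437000))) (l 6)) (b (c (l 16470896) (l 16454328)) (c (l 16469888) (l 16454240)))) (l 6)) (b (a (b (c (l 16492872) (l 16478000)) (l 16484440)) (b (l 16509056) (l 16507344))) (a (b (l 16483392) (l 16482424)) (c (l 16510280) (l 16499520)))))) (c (a (a (b (a (l 16537424) (l 16559984)) (a (l 16532016) (l 16553384))) (a (b (l 16581728) (l 16573968)) (b (l 16602840) (l 16593896)))) (a (a (b (l 16623696) (l 16613624)) (b (l 16644448) (l 16633408))) (b (a (a (l 16660040) (l 16659152)) (a (b (l 16658160) (l 16649464)) (b (l 16652416) (l 16643408)))) (a (l 16623112) (a (b (l 16640208) (l 16630368)) (b (l 16633808) (l 16623568))))))) (a (a (b (a (l 16526008) (l 16550296)) (a (l 16522768) (l 16545888))) (a (b (l 16574208) (l 16568640)) (b (l 16597848) (l 16591072)))) (a (b (a (l 16621424) (l 16645024)) (a (l 16613456) (l 16635944))) (b (a (a (l 16662216)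 (l 16655752)) (a (b (l 16653464) (l 16643920)) (b (l 16645968) (l 16636144)))) (a (b (l 16644832) (l 16634784)) (b (a (l 16633888) (l 16625808)) (a (l 16623368) (l 16614944))))))))), by decide +kernel⟩

def k4_pm_202_s : ∃ t, chk3 f_pm_202_s t 2 5 1 = true :=
  ⟨(l 6), by decide +kernel⟩

def k5_pm_202_s : ∃ t, chk3 f_pm_202_s t 6 5 1 = true :=
  ⟨(b (a (l 6) (b (b (a (l 6) (a (l 6) (c (l 16506472) (l 16497864)))) (l 6)) (l 6))) (l 6)), by decide +kernel⟩

def k6_pm_202_s : ∃ t, chk3 f_pm_202_s t 7 10 1 = true :=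
  ⟨(a (b (b (a (a (c (l 16527168) (l 16520088)) (c (l 16547448) (l 16542152))) (a (c (l 16567056) (l 16563880)) (c (l 16586168) (l 16585376)))) (a (a (b (l 16521224) (l 6)) (b (l 16541792) (b (l 16540640) (b (l 16540384) (l 16540504))))) (b (a (l 16561864) (l 16581688)) (b (a (l 16560592) (l 16580304)) (b (a (l 16560336) (l 16580048)) (a (l 16560464) (l 16580192))))))) (b (a (l 6) (a (l 16538064) (l 16578400))) (a (l 6) (c (l 16565112) (l 16567328))))) (c (b (b (a (a (l 16584112) (l 16624200)) (a (a (l 16627256) (l 16621096)) (b (a (l 16619880) (l 16612632)) (a (l 16608664) (l 16600928))))) (a (b (l 16588784) (b (l 16608048) (a (l 16598152) (l 16605064)))) (b (a (l 16607600) (a (l 16596544) (l 16588280))) (b (a (l 16598336) (l 16603288)) (a (b (l 16593056) (l 16589168)) (b (l 16576576) (a (l 16576864) (l 16567728)))))))) (a (a (l 16613520) (b (l 16590408) (l 16568208))) (a (b (l 16596520) (l 16551864)) (b (b (l 16585096) (l 16551672)) (a (l 16538216) (l 16528408))))))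 (b (b (a (a (l 16606800) (l 16628384)) (a (b (l 16624288) (l 16613280)) (b (a (l 16612344) (l 16603544)) (a (l 16600744) (l 16591536))))) (b (a (l 16613672) (a (l 16601592) (a (l 16588424) (l 16578760)))) (a (b (l 16612304) (l 16556432)) (b (a (l 16592208) (l 16573520)) (a (l 16543144) (b (l 16567840) (l 16563696))))))) (a (b (a (l 16599816) (l 16586720)) (l 16499048)) (b (a (l 16569320) (a (l 16554512) (l 16543872))) (a (l 16545432) (a (l 16529896) (l 16518768)))))))), by decide +kernel⟩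

def k7_pm_202_s : ∃ t, chk3 f_pm_202_s t 7 11 1 = true :=
  ⟨(a (l 6) (a (b (b (a (l 16559832) (a (l 16547832) (l 16539264))) (l 6)) (l 6)) (b (a (c (b (l 16528736) (l 16506448)) (b (l 16521912) (l 16498912))) (b (c (a (l 16514624) (l 16504544)) (l 16500096)) (c (a (l 16491976) (c (l 16484464) (l 16478928))) (a (l 16482256) (l 16470352))))) (a (l 6) (a (l 6) (a (l 6) (b (c (l 16457288) (l 16444168)) (l 6)))))))), by decide +kernel⟩

def k8_pm_202_s : ∃ t, chk3 f_pm_202_s t 1 3 1 = true :=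
  ⟨(a (l 6) (l 6)), by decide +kernel⟩

theorem s9_pm_202_s : ∃ t, chk3 f_pm_202_s t 7 5 1 = true := ex3_b k6_pm_202_s k7_pm_202_s

theorem s10_pm_202_s : ∃ t, chk3 f_pm_202_s t 3 5 1 = true := ex3_a k5_pm_202_s s9_pm_202_s

theorem s11_pm_202_s : ∃ t, chk3 f_pm_202_s t 1 5 1 = true := ex3_a k4_pm_202_s s10_pm_202_s

theorem s12_pm_202_s : ∃ t, chk3 f_pm_202_s t 3 9 1 = true := ex3_b k2_pm_202_s k3_pm_202_s

theorem s13_pm_202_s : ∃ t, chk3 f_pm_202_s t 1 9 1 = true := ex3_a k1_pm_202_s s12_pm_202_s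

theorem s14_pm_202_s : ∃ t, chk3 f_pm_202_s t 1 4 1 = true := ex3_b k0_pm_202_s s13_pm_202_s

theorem s15_pm_202_s : ∃ t, chk3 f_pm_202_s t 1 2 1 = true := ex3_b s14_pm_202_s s11_pm_202_s

theorem s16_pm_202_s : ∃ t, chk3 f_pm_202_s t 1 1 1 = true := ex3_b s15_pm_202_s k8_pm_202_s

theorem c_pm_202_s : CertNE 0 536870912 0 536870912 818728140 40265320 3 eng mog cd0q2 cd0q0 pd2 true true false .pp 2 0 2
    ndB0q2 ndB0q0 pcB2 cut_pm_202_s Ext.none :=
  certNE1 (fam := true) (s1 := true) (s2 := false) (a := 2) (b := 0) (c := 2) (cn := .pp) (n1 := ndB0q2) (n2 := ndB0q0) (pc := pcB2) (cut := cut_pm_202_s) (xt := Ext.none) (P1 := 0) (W1 := 536870912) (P2 := 0) (W2 := 536870912) (P3 := 818728140) (W3 := 40265320) (N0 := 3) (En := eng) (mo := mog) (C1 := cd0q2) (C2 := cd0q0) (C3 := pd2)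
    rfl (fun _ => rfl) s16_pm_202_s

noncomputable def cut_pm_202_t : Cut := Cut.of [[⟨3, 0, 0, 2845415833⟩], [⟨0, 1, 0, 67108864⟩, ⟨1, 0, 0, 67108864⟩, ⟨2, 1, 0, 67108864⟩]]

noncomputable def f_pm_202_t : ℕ → ℕ → ℕ → ℕ → Bool := onCell 0 536870912 1073741824 536870912 818728140 40265320
    (rowNE 3 eng mog cd0q2 cd0q0 pd2 1 true true false .pp 2 0 2 (qsf 0 536870912 0 536870912 2) ndB0q2 ndB0q0 pcB2 cut_pm_202_t Ext.none)

def k0_pm_202_t : ∃ t, chk3 f_pm_202_t t 1 1 1 = true :=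
  ⟨(b (l 6) (a (l 6) (l 6))), by decide +kernel⟩

theorem c_pm_202_t : CertNE 0 536870912 0 536870912 818728140 40265320 3 eng mog cd0q2 cd0q0 pd2 true true false .pp 2 0 2
    ndB0q2 ndB0q0 pcB2 cut_pm_202_t Ext.none :=
  certNE1 (fam := true) (s1 := true) (s2 := false) (a := 2) (b := 0) (c := 2) (cn := .pp) (n1 := ndB0q2) (n2 := ndB0q0) (pc := pcB2) (cut := cut_pm_202_t) (xt := Ext.none) (P1 := 0) (W1 := 536870912) (P2 := 0) (W2 := 536870912) (P3 := 818728140) (W3 := 40265320) (N0 := 3) (En := eng) (mo := mog) (C1 := cd0q2) (C2 := cd0q0) (C3 := pd2)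
    rfl (fun _ => rfl) k0_pm_202_t

noncomputable def cut_pm_203_s : Cut := Cut.of [[⟨4, 0, 0, 1449551462⟩]]

noncomputable def f_pm_203_s : ℕ → ℕ → ℕ → ℕ → Bool := onCell 0 536870912 1610612736 536870912 818728140 40265320
    (rowNE 3 eng mog cd0q2 cd0q0 pd3 1 true true false .up 2 0 3 (qsf 0 536870912 0 536870912 3) ndB0q2 ndB0q0 pcB3 cut_pm_203_s Ext.none)

def k0_pm_203_s : ∃ t, chk3 f_pm_203_s t 1 1 1 = true :=
  ⟨(l 6), by decide +kernel⟩

theorem c_pm_203_s : CertNE 0 536870912 0 536870912 818728140 40265320 3 eng mog cd0q2 cd0q0 pd3 true true false .up 2 0 3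
    ndB0q2 ndB0q0 pcB3 cut_pm_203_s Ext.none :=
  certNE1 (fam := true) (s1 := true) (s2 := false) (a := 2) (b := 0) (c := 3) (cn := .up) (n1 := ndB0q2) (n2 := ndB0q0) (pc := pcB3) (cut := cut_pm_203_s) (xt := Ext.none) (P1 := 0) (W1 := 536870912) (P2 := 0) (W2 := 536870912) (P3 := 818728140) (W3 := 40265320) (N0 := 3) (En := eng) (mo := mog) (C1 := cd0q2) (C2 := cd0q0) (C3 := pd3)
    rfl (fun _ => rfl) k0_pm_203_s

noncomputable def cut_pm_203_t : Cut := Cut.of [[⟨3, 0, 0, 2845415833⟩]]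

noncomputable def f_pm_203_t : ℕ → ℕ → ℕ → ℕ → Bool := onCell 0 536870912 0 536870912 818728140 40265320
    (rowNE 3 eng mog cd0q2 cd0q0 pd3 0 true true false .up 2 0 3 (qsf 0 536870912 0 536870912 3) ndB0q2 ndB0q0 pcB3 cut_pm_203_t Ext.none)

def k0_pm_203_t : ∃ t, chk3 f_pm_203_t t 1 1 1 = true :=
  ⟨(a (b (l 1) (b (a (b (l 1) (a (b (l 1) (a (l 16598048) (l 6))) (l 6))) (l 6)) (a (a (b (b (c (l 16623344) (l 16619032)) (l 16647928)) (b (l 16735296) (b (l 16691472) (l 16703632)))) (b (l 6) (b (l 16631160) (l 16654512)))) (b (l 6) (l 6))))) (l 6)), by decide +kernel⟩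

theorem c_pm_203_t : CertNE 0 536870912 0 536870912 818728140 40265320 3 eng mog cd0q2 cd0q0 pd3 true true false .up 2 0 3
    ndB0q2 ndB0q0 pcB3 cut_pm_203_t Ext.none :=
  certNE0 (fam := true) (s1 := true) (s2 := false) (a := 2) (b := 0) (c := 3) (cn := .up) (n1 := ndB0q2) (n2 := ndB0q0) (pc := pcB3) (cut := cut_pm_203_t) (xt := Ext.none) (P1 := 0) (W1 := 536870912) (P2 := 0) (W2 := 536870912) (P3 := 818728140) (W3 := 40265320) (N0 := 3) (En := eng) (mo := mog) (C1 := cd0q2) (C2 := cd0q0) (C3 := pd3)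
    rfl k0_pm_203_t

noncomputable def cut_pm_213_s : Cut := Cut.of [[⟨4, 0, 0, 1449551462⟩], [⟨0, 1, 0, 67108864⟩, ⟨1, 1, 0, 67108864⟩, ⟨2, 2, 0, 16777216⟩], [⟨0, 1, 0, 33554432⟩, ⟨1, 0, 1, 26214400⟩, ⟨2, 1, 1, 26214400⟩]]

noncomputable def f_pm_213_s : ℕ → ℕ → ℕ → ℕ → Bool := onCell 0 536870912 536870912 536870912 818728140 40265320
    (rowNE 3 eng mog cd0q2 cd0q1 pd3 0 true true false .pnn 2 1 3 (qsf 0 536870912 536870912 536870912 3) ndB0q2 ndB0q1 pcB3 cut_pm_213_s Ext.none)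

def k0_pm_213_s : ∃ t, chk3 f_pm_213_s t 1 1 1 = true :=
  ⟨(l 6), by decide +kernel⟩

theorem c_pm_213_s : CertNE 0 536870912 536870912 536870912 818728140 40265320 3 eng mog cd0q2 cd0q1 pd3 true true false .pnn 2 1 3
    ndB0q2 ndB0q1 pcB3 cut_pm_213_s Ext.none :=
  certNE0 (fam := true) (s1 := true) (s2 := false) (a := 2) (b := 1) (c := 3) (cn := .pnn) (n1 := ndB0q2) (n2 := ndB0q1) (pc := pcB3) (cut := cut_pm_213_s) (xt := Ext.none) (P1 := 0) (W1 := 536870912) (P2 := 536870912) (W2 := 536870912) (P3 := 818728140) (W3 := 40265320) (N0 := 3) (En := eng) (mo := mog) (C1 := cd0q2) (C2 := cd0q1) (C3 := pd3)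
    rfl k0_pm_213_s

noncomputable def cut_pm_213_t : Cut := Cut.of [[⟨3, 0, 0, 2845415833⟩], [⟨0, 1, 0, 67108864⟩, ⟨1, 1, 0, 67108864⟩, ⟨2, 2, 0, 16777216⟩], [⟨0, 1, 0, 33554432⟩, ⟨1, 0, 1, 26214400⟩, ⟨2, 1, 1, 26214400⟩]]

noncomputable def xt_pm_213_t : Ext := extD2 3 ⟨4, 1, 1, 5, 13, 5, 23, 25, 43, 100, 1, 8⟩ eng cd0q2 cd0q1 pd3 true true false .pnn 2 1 3 rfl ndB0q2 ndB0q1 pcB3

noncomputable def f_pm_213_t : ℕ → ℕ → ℕ → ℕ → Bool := onCell 0 536870912 1610612736 536870912 818728140 40265320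
    (rowNE 3 eng mog cd0q2 cd0q1 pd3 1 true true false .pnn 2 1 3 (qsf 0 536870912 536870912 536870912 3) ndB0q2 ndB0q1 pcB3 cut_pm_213_t xt_pm_213_t)

def k0_pm_213_t : ∃ t, chk3 f_pm_213_t t 2 2 1 = true :=
  ⟨(b (a (l 1) (l 6)) (b (a (b (a (b (l 1) (l 16705368)) (l 16659232)) (a (l 16762832) (l 16678448))) (a (b (l 16611040) (l 16670296)) (l 6))) (a (a (b (a (l 16748888) (l 16730256)) (a (b (l 16763864) (l 75933628919)) (l 16750192))) (b (l 16696976) (l 16758824))) (b (a (l 16646032) (l 16597352)) (a (l 16687232) (l 16660432)))))), by decide +kernel⟩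

def k1_pm_213_t : ∃ t, chk3 f_pm_213_t t 4 3 1 = true :=
  ⟨(b (a (b (b (a (b (l 121567694119) (l 4)) (b (l 16765328) (l 77544234551))) (a (l 4) (b (l 125325787127) (l 4)))) (l 4)) (a (b (b (l 16750520) (b (l 16765936) (a (l 101166549751) (l 16772072)))) (b (b (b (l 139284428935) (l 4)) (l 4)) (l 4))) (b (b (l 16726464) (b (l 16742696) (l 16754920))) (b (b (a (b (l 16770552) (l 16755960)) (l 16783624)) (a (b (l 100629672999) (l 4)) (b (l 16773040) (l 99019069431)))) (l 4))))) (l 4)), by decide +kernel⟩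

def k2_pm_213_t : ∃ t, chk3 f_pm_213_t t 5 3 1 = true :=
  ⟨(b (b (b (a (b (l 16682584) (l 16693848)) (a (l 16654224) (l 16631600))) (a (b (l 16706816) (a (l 16731432) (l 16712168))) (b (l 16666824) (l 16687888)))) (b (a (b (b (l 16734472) (a (l 16751448) (l 16735456))) (a (b (l 16759256) (l 16766400)) (b (l 16744536) (l 16752928)))) (b (b (l 16704448) (l 16715384)) (a (l 16737120) (l 16726568)))) (a (b (a (a (b (l 68417441447) (l 100629672887)) (b (l 16768928) (l 16774184))) (b (l 16760112) (l 16766264))) (b (a (a (l 4) (c (l 97408464839) (l 97408465767))) (l 16771272)) (a (l 4) (a (a (l 114588422103) (l 16775712)) (l 16772712))))) (b (a (l 16754064) (l 16725744)) (a (b (l 16763824) (l 16767408)) (b (l 16756840) (l 16760704))))))) (b (b (a (b (a (l 4) (b (a (a (l 4) (l 126936447735)) (l 67343786791)) (a (l 4) (b (l 94187245255) (l 100629684471))))) (l 4)) (b (a (b (l 16770608) (a (l 16796000) (l 16771912))) (b (l 16764472) (l 16767824))) (a (b (a (a (b (l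 16775816) (l 4)) (l 81839302663)) (l 16774552)) (a (a (l 4) (b (l 110830246151) (l 4))) (a (b (l 16777368) (l 131231405303)) (l 72712494599)))) (b (c (l 16775800) (l 16765760)) (c (l 16777176) (l 16769520)))))) (a (l 4) (b (a (b (a (l 4) (a (l 4) (b (l 122104604103) (l 4)))) (l 4)) (b (a (b (l 16776024) (a (l 115125285991) (l 16776384))) (c (l 16777848) (l 16770928))) (a (a (l 4) (b (l 100629774903) (a (l 4) (l 159685558407)))) (b (l 16775840) (a (l 96871681383) (l 16776232)))))) (b (a (l 4) (a (l 4) (b (a (a (l 4) (l 151632498375)) (l 93650455623)) (a (l 4) (b (l 130694531671) (l 4)))))) (l 4))))) (l 4))), by decide +kernel⟩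

def k3_pm_213_t : ∃ t, chk3 f_pm_213_t t 3 2 1 = true :=
  ⟨(b (l 6) (b (l 6) (a (l 6) (l 6)))), by decide +kernel⟩

def k4_pm_213_t : ∃ t, chk3 f_pm_213_t t 6 6 1 = true :=
  ⟨(b (b (a (a (l 16608744) (l 16583512)) (l 6)) (a (a (b (l 16640008) (l 16665048)) (b (l 16621544) (l 16651008))) (a (b (l 16602432) (l 16636008)) (b (l 6) (l 16622096))))) (b (a (b (a (l 16691712) (l 16680664)) (a (l 16717776) (l 16711416))) (b (a (b (l 16661296) (l 16678848)) (b (l 16652376) (l 16673816))) (a (l 16687248) (l 16694144)))) (a (a (b (l 16721568) (c (l 16761648) (l 16743512))) (b (a (l 16736704) (l 16731824)) (c (l 16737120) (l 16734008)))) (a (b (c (l 16733416) (l 16715944)) (a (l 16718288) (l 16735664))) (b (c (l 16721336) (l 16706248)) (c (l 16740208) (l 16718816))))))), by decide +kernel⟩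

def k5_pm_213_t : ∃ t, chk3 f_pm_213_t t 6 28 1 = true :=
  ⟨(a (b (a (c (l 16770680) (l 16730240)) (c (l 16747488) (l 16741096))) (a (c (b (l 16775464) (l 16777680)) (b (l 16756816) (l 16760536))) (c (b (l 16774456) (l 16777480)) (b (l 16746616) (l 16750280))))) (a (b (a (c (l 16764832) (l 16732296)) (l 16702776)) (c (a (l 16768968) (b (l 16768480) (l 16773616))) (a (l 16738808) (b (l 16731360) (l 16734088))))) (b (c (a (l 16755096) (l 16749448)) (l 16725192)) (c (b (l 16739064) (l 16723280)) (a (l 16729840) (l 16728176)))))), by decide +kernel⟩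

def k6_pm_213_t : ∃ t, chk3 f_pm_213_t t 6 29 1 = true :=
  ⟨(a (b (a (b (c (l 16779080) (l 16764304)) (c (a (l 16778824) (l 16780016)) (a (l 16770256) (l 16765688)))) (c (b (l 16779696) (l 16781072)) (b (l 16733008) (a (l 16760552) (l 16754536))))) (a (b (a (b (l 16775856) (c (l 16762648) (l 16775504))) (c (l 16779864) (l 16769688))) (a (b (a (b (l 126936437975) (l 4)) (b (l 16776784) (l 16777600))) (a (l 4) (b (l 125862698231) (l 4)))) (b (c (l 16779144) (l 16772808)) (b (l 16776456) (a (l 74323096951) (l 16776424)))))) (b (c (a (l 16780984) (l 16781584)) (a (l 16764400) (l 16737464))) (c (b (l 16770888) (a (l 16780168) (l 16781496))) (a (b (l 16767600) (l 16769840)) (b (l 16761640) (l 16764032))))))) (c (b (a (b (a (l 16778504) (l 16756456)) (c (l 16789128) (l 16750336))) (a (b (l 16751864) (l 16735664)) (l 16727720))) (a (b (a (l 16781760) (l 16781600)) (a (l 16761488) (l 16762160))) (b (a (b (l 16759912) (l 16761080)) (a (l 16737088) (l 16776456))) (a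 (c (l 16793408) (l 16773720)) (a (b (l 16762072) (l 16742584)) (b (l 16780840) (l 16741424))))))) (b (a (b (a (l 16744056) (l 16737128)) (a (l 16747736) (l 16740648))) (a (b (l 16732080) (l 16713824)) (l 16732232))) (a (b (c (l 16736056) (l 16719344)) (c (a (l 16762992) (l 16758344)) (a (l 16750024) (l 16741752)))) (b (a (c (l 16749672) (l 16728088)) (b (l 16735144) (l 16736216))) (a (c (l 16753840) (l 16733800)) (b (a (l 16738368) (l 16737832)) (a (l 16740936) (l 16739232))))))))), by decide +kernel⟩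

def k7_pm_213_t : ∃ t, chk3 f_pm_213_t t 6 60 1 = true :=
  ⟨(a (b (a (a (l 4) (b (a (a (l 4) (b (l 16776808) (l 16762424))) (b (l 16776752) (l 16790584))) (a (l 4) (b (a (l 107609033767) (l 16776824)) (c (l 111367124183) (l 16759336)))))) (a (b (c (l 16779328) (l 16772336)) (a (b (l 16776752) (l 78081190423)) (l 16768344))) (b (c (l 16780952) (l 16766856)) (c (l 16780096) (l 16769872))))) (a (l 4) (a (b (a (b (a (l 4) (l 16776696)) (l 4)) (a (b (l 16776936) (l 16787136)) (l 16789232))) (a (l 4) (b (a (l 4) (l 138210724823)) (l 4)))) (b (c (l 16779168) (l 16772704)) (a (b (l 16776856) (a (l 146800658919) (l 16777064))) (c (l 16778592) (l 16774160))))))) (a (a (b (c (b (l 16782288) (l 16781560)) (b (l 16739944) (l 16764344))) (c (b (l 16780784) (l 16769448)) (b (l 16767608) (l 16770672)))) (b (c (b (l 16783384) (l 16782776)) (c (l 16742368) (l 16729160))) (c (c (l 16765136) (l 16777368)) (b (l 16741352) (l 16744856))))) (b (a (c (c (l 16792080) (l 16754816))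 (b (l 16727936) (l 16753120))) (c (b (a (l 16763792) (l 16743104)) (l 16742624)) (b (c (l 16754304) (l 16733344)) (c (l 16757224) (l 16738648))))) (c (a (b (l 16783176) (l 16761600)) (b (l 16763144) (l 16762672))) (a (c (l 16744216) (b (l 16750624) (l 16755688))) (b (l 16720952) (l 16725208))))))), by decide +kernel⟩

def k8_pm_213_t : ∃ t, chk3 f_pm_213_t t 12 61 1 = true :=
  ⟨(b (a (l 4) (a (l 4) (b (a (b (a (l 4) (l 156464334791)) (l 4)) (b (c (l 16777904) (l 16776088)) (a (c (l 122641426775) (l 16775496)) (l 16785152)))) (a (l 4) (b (a (l 4) (a (l 4) (l 172033587191))) (l 4)))))) (l 4)), by decide +kernel⟩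

def k9_pm_213_t : ∃ t, chk3 f_pm_213_t t 13 61 1 = true :=
  ⟨(a (b (c (a (b (c (l 16780352) (l 16777624)) (a (b (l 16772720) (a (l 136600066983) (l 16771840))) (l 16773096))) (b (c (l 16783416) (l 16777752)) (c (l 16781552) (l 16777816)))) (a (b (a (l 16774552) (l 16772376)) (a (b (l 16776552) (c (l 90966039367) (l 87207942775))) (l 16775024))) (b (a (l 16770160) (l 16747016)) (c (l 16774016) (l 16770176))))) (a (b (a (b (c (l 252027328727) (l 257396037223)) (l 4)) (b (a (c (l 105998452823) (l 16768848)) (l 26541542743)) (a (l 4) (c (b (l 16776888) (l 143579395655)) (l 127473275463))))) (l 4)) (b (a (b (c (l 16778440) (l 16774992)) (a (c (l 16777712) (l 16776648)) (l 16776912))) (c (c (l 16780296) (l 16777752)) (l 16773840))) (a (b (a (c (b (l 89355437079) (l 144116264103)) (c (l 133915716215) (l 134452587079))) (c (b (l 16777632) (l 16777168)) (l 16770496))) (a (l 4) (a (l 4) (b (l 174181066471) (l 4))))) (b (c (l 16778200) (l 16775640)) (a (b (l 75933692119)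 (a (l 136063226215) (l 16782496))) (c (l 16777816) (l 16776328)))))))) (b (c (a (b (l 16771424) (c (l 16784304) (l 16777968))) (b (l 16762144) (c (l 16786920) (l 16757120)))) (a (b (b (l 16742952) (l 16744728)) (a (l 16769152) (l 16746264))) (b (c (l 16766400) (l 16754968)) (b (l 16742568) (l 16744352))))) (a (b (c (c (l 16772016) (l 16778080)) (c (l 16773568) (l 16768960))) (c (b (c (l 16781112) (l 16778040)) (a (l 16778536) (l 16779440))) (c (l 16772664) (a (l 16773576) (l 16771416))))) (c (b (c (l 16785240) (l 16778416)) (c (a (l 16782720) (l 16784136)) (l 16778536))) (b (a (l 16747680) (l 16745992)) (c (l 16773464) (b (l 16767296) (l 16769192)))))))), by decide +kernel⟩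

def k10_pm_213_t : ∃ t, chk3 f_pm_213_t t 12 62 1 = true :=
  ⟨(l 4), by decide +kernel⟩

def k11_pm_213_t : ∃ t, chk3 f_pm_213_t t 13 124 1 = true :=
  ⟨(a (b (a (l 4) (a (l 4) (b (a (c (l 269744070951) (b (l 144116264023) (l 4))) (c (b (l 16771968) (l 116735850039)) (b (l 16777408) (l 116735850231)))) (l 4)))) (l 4)) (b (b (c (a (a (b (l 16778080) (l 16772576)) (l 16778864)) (a (l 16779784) (l 16780696))) (a (a (b (l 16776032) (l 16776584)) (l 16774904)) (a (l 16773528) (l 16751200)))) (a (a (b (a (a (c (l 143042529191) (l 16775664)) (l 116735880855)) (l 16777168)) (a (l 4) (c (a (l 16771352) (l 16777488)) (l 16777224)))) (c (l 16778224) (l 16775960))) (c (c (l 16770584) (l 16778344)) (c (l 16775528) (l 16772648))))) (a (b (a (a (l 4) (a (l 4) (b (a (l 152706204327) (l 192971546503)) (l 4)))) (a (b (c (l 16777656) (l 16777120)) (c (a (l 154316816423) (l 91502925079)) (l 111367142199))) (c (l 16773200) (l 16776608)))) (a (l 4) (a (l 4) (c (b (c (l 88818568519)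 (l 89355439431)) (l 298198231559)) (b (l 90966049959) (l 158074906551)))))) (a (b (c (l 16773288) (l 16775728)) (b (c (l 16778000) (l 16776432)) (a (c (a (l 92576666711) (l 16777504)) (l 72175570583)) (l 16777240)))) (c (b (l 16779528) (l 16773592)) (b (l 16774576) (l 16775600))))))), by decide +kernel⟩

def k12_pm_213_t : ∃ t, chk3 f_pm_213_t t 13 125 1 = true :=
  ⟨(a (l 4) (a (l 4) (b (b (b (a (b (a (a (l 4) (l 162906774535)) (l 16777240)) (a (l 4) (c (l 16777408) (l 16777296)))) (c (l 16778272) (l 16776280))) (a (a (l 4) (c (a (l 163980491591) (c (l 99555989207) (l 16771392))) (c (l 118346465095) (l 117809594183)))) (a (c (l 16777640) (l 16776952)) (l 16777304)))) (a (l 4) (b (b (a (c (a (l 16773880) (l 16777432)) (l 16771808)) (l 16777288)) (a (a (l 4) (l 160222420439)) (l 16777272))) (a (l 4) (a (b (l 138747584343) (a (l 4) (l 167738595575))) (c (l 103314103815) (l 16777232))))))) (b (b (a (l 4) (a (l 4) (c (c (l 328263002663) (l 328263002535)) (l 315378100471))))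 (l 4)) (l 4))))), by decide +kernel⟩

def k13_pm_213_t : ∃ t, chk3 f_pm_213_t t 6 63 1 = true :=
  ⟨(l 4), by decide +kernel⟩

def k14_pm_213_t : ∃ t, chk3 f_pm_213_t t 7 6 1 = true :=
  ⟨(b (l 6) (b (a (b (a (b (l 6) (l 16662184)) (l 6)) (a (a (l 16683472) (l 16677384)) (a (c (l 16675744) (l 16669656)) (l 6)))) (l 6)) (b (b (a (a (l 16697784) (a (l 16691536) (c (l 16672208) (l 16663856)))) (l 6)) (a (a (l 16708264) (a (l 16682184) (b (l 16677360) (l 16683344)))) (a (a (a (l 16679408) (l 16699640)) (a (l 16699048) (l 6))) (l 6)))) (a (a (a (b (l 16719504) (l 16726744)) (b (l 16716048) (l 16723808))) (a (b (l 16692968) (l 16722112)) (b (c (l 16697480) (l 16686200)) (c (l 16706976) (l 16694600))))) (a (a (b (a (a (l 16691576) (l 16691296)) (l 16711728)) (a (c (l 16727600) (l 16695384)) (l 16721648))) (b (c (l 16717064) (l 16683696)) (c (a (l 16727232) (l 16727264)) (l 16693920)))) (b (a (b (l 6) (a (l 16713496) (c (l 16720512) (l 16706528)))) (l 6)) (b (a (a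 (c (l 16725736) (l 16712376)) (c (l 16726048) (c (l 16715696) (l 16708680)))) (b (a (c (l 16725408) (a (l 16710976) (l 143832853970141535))) (l 6)) (c (a (l 16727648) (a (l 16728120) (l 143992420630872415))) (a (a (l 16713392) (l 16702992)) (a (c (l 16712040) (l 143812650441687391)) (c (l 143887004931080543) (a (l 143811550930239839) (l 143811550930403679)))))))) (a (a (l 16722744) (a (l 16722896) (l 16723072))) (a (c (l 16730280) (b (l 143872642545500511) (l 143888860356870495))) (a (c (l 16730840) (c (l 143912293704237407) (l 143841237750645087))) (c (c (l 16734760) (l 143979089050845535)) (c (b (l 143903909926568287) (l 143920608763625823)) (b (l 143831548302573919) (l 143851270796886367)))))))))))))), by decide +kernel⟩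

def k15_pm_213_t : ∃ t, chk3 f_pm_213_t t 14 14 1 = true :=
  ⟨(a (b (b (a (b (l 16730952) (l 16734680)) (b (l 16727856) (l 16731800))) (a (b (l 16738424) (l 16710680)) (c (l 16748648) (l 16726672)))) (b (c (a (b (l 16761000) (l 16766464)) (b (l 16756472) (l 16761984))) (a (b (l 16730864) (l 16733832)) (c (l 16719312) (l 16706152)))) (c (b (a (l 16772144) (l 16767608)) (a (a (l 16737400) (l 16734624)) (c (l 16780720) (l 16765952)))) (b (a (l 16736880) (l 16739312)) (a (b (l 16739152) (l 16740656)) (b (l 16741976) (l 16743696))))))) (b (b (a (b (l 16705416) (l 16709528)) (b (l 16705304) (l 16709944))) (a (c (l 16725040) (l 16707320)) (b (l 16714824) (l 16730344)))) (b (c (a (b (l 16753936) (l 16759408)) (b (l 16732040) (l 16737496))) (a (b (l 16734608) (l 16717976)) (b (l 16717744) (l 16722544)))) (c (b (a (l 16765024) (l 16743056)) (a (b (l 16769288) (l 16772192)) (a (l 16769752) (l 16748536)))) (b (a (l 16743144) (l 16727104)) (a (a (l 16745880) (l 16748232))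 (b (l 16730240) (l 16732200)))))))), by decide +kernel⟩

def k16_pm_213_t : ∃ t, chk3 f_pm_213_t t 15 28 1 = true :=
  ⟨(b (a (a (b (a (l 16706048) (l 16706272)) (a (l 16711032) (l 16711752))) (c (b (l 16733176) (l 16738880)) (b (l 16721552) (l 16728160)))) (a (c (b (b (l 16732688) (c (l 16738848) (l 16732872))) (a (l 16740120) (l 16741168))) (a (b (l 16721656) (l 16728904)) (b (c (l 16725216) (l 16718848)) (b (l 16727696) (l 16731440))))) (a (b (b (a (l 16687672) (c (l 16733960) (l 143912156265906527))) (c (l 16737200) (a (l 16724312) (l 16724632)))) (c (c (l 16745336) (l 16739400)) (a (l 16730128) (a (l 16730440) (l 16730632))))) (b (c (b (c (l 144062789394596191) (l 144005546056728927)) (c (l 16741512) (l 144031728185016671))) (a (c (l 143959435277582687) (b (l 143878896032694623) (l 16721664))) (c (b (l 143945279062016351) (l 143976546432139615)) (b (l 143880201703260511) (l 143915660961972575))))) (c (c (l 144119964017115423) (l 144071104456540511)) (c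 (a (l 16734072) (l 144020389470323039)) (a (l 143961840462283103) (l 143963008694026591)))))))) (a (a (b (a (l 16716184) (l 16717264)) (a (l 16721440) (c (l 16748104) (l 16718352)))) (c (b (l 16744480) (l 16750008)) (a (l 16716584) (l 16717504)))) (a (a (b (c (l 16746232) (l 16735984)) (l 16747536)) (b (c (l 16747600) (l 16736920)) (a (l 16748544) (l 16749240)))) (c (b (a (l 16749112) (c (l 16753648) (l 144120719933423903))) (a (l 16755688) (c (l 16760336) (l 16754640)))) (a (b (a (l 16737584) (l 16738040)) (l 16744864)) (b (a (l 144043273064153375) (c (l 16742032) (l 144020045875544351))) (a (l 16745592) (c (l 16749096) (l 16743032))))))))), by decide +kernel⟩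

def k17_pm_213_t : ∃ t, chk3 f_pm_213_t t 15 29 1 = true :=
  ⟨(a (b (a (b (a (l 16726736) (a (l 16727760) (l 16728496))) (c (l 16737576) (l 16727768))) (a (b (b (l 16749176) (l 16751912)) (a (l 16734488) (l 16756320))) (b (l 16752088) (l 16757648)))) (a (b (c (l 16743040) (b (l 16752280) (l 16733560))) (c (c (l 16751320) (l 16745640)) (c (l 16739760) (l 16733680)))) (b (a (b (l 16738728) (l 16741200)) (l 16762816)) (a (c (l 16753944) (a (l 16740088) (l 16741312))) (l 16746632))))) (b (a (a (a (l 16735176) (l 16736008)) (c (a (l 16762464) (l 16763480)) (l 16732416))) (b (c (a (l 16761976) (c (l 16766712) (l 16761128))) (a (l 16751424) (c (l 16755400) (l 144110755612901663)))) (a (c (l 16768016) (l 143975103382225183)) (b (c (l 16768480) (l 16757096)) (a (l 16765312) (l 144053306164068575)))))) (a (a (b (l 16764688) (l 16748512)) (b (l 16745568) (b (l 16770064) (l 16772136)))) (b (a (a (l 16746768) (l 16747480)) (c (l 16774888) (a (l 16763600) (l 16763952))))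 (a (b (l 16750504) (l 16773312)) (a (l 16752144) (b (l 16772592) (l 16774216)))))))), by decide +kernel⟩

def k18_pm_213_t : ∃ t, chk3 f_pm_213_t t 28 30 1 = true :=
  ⟨(b (b (c (a (b (b (l 16760344) (l 16740096)) (a (l 16742088) (l 16781960))) (b (l 16756272) (l 16758096))) (c (a (a (l 16732672) (l 16754056)) (l 16755192)) (a (b (l 16732744) (l 16735984)) (l 16739248)))) (a (c (a (c (l 16777256) (l 16755744)) (b (l 16762344) (a (l 16764008) (l 16763296)))) (a (b (c (l 16758360) (l 16740216)) (l 16753432)) (b (l 16748816) (c (l 16760352) (l 16743760))))) (c (a (l 16761456) (l 16760048)) (c (l 16760024) (l 16744984))))) (b (b (c (a (c (l 16770568) (l 16757056)) (c (l 16769344) (l 16755984))) (a (c (l 16743184) (a (l 16750896) (l 16748608))) (c (l 16763152) (l 16748912)))) (a (c (b (l 16763200) (l 16762952)) (c (l 16766736) (l 16754824))) (a (c (a (l 16764624) (l 16764608)) (c (l 16765736) (l 16752032))) (c (l 16764200) (l 16759504))))) (c (a (b (a (l 16762008)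 (l 16762968)) (c (l 16775872) (l 16779160))) (b (a (l 16760512) (c (l 16770872) (l 16759240))) (a (l 16763712) (c (l 16770824) (l 16760584))))) (a (b (a (l 16744336) (l 16742784)) (c (l 16761248) (a (l 16765080) (l 16763072)))) (b (a (c (l 16768376) (l 16756592)) (a (c (l 16768192) (l 16755600)) (l 16762040))) (a (c (l 16770848) (l 16761264)) (b (a (l 16764472) (l 16764264)) (l 16766080)))))))), by decide +kernel⟩

def k19_pm_213_t : ∃ t, chk3 f_pm_213_t t 29 30 1 = true :=
  ⟨(b (b (c (a (c (l 16781536) (l 16769856)) (c (l 16779152) (l 16749392))) (a (b (l 16750184) (l 16752728)) (c (l 16740240) (l 16730728)))) (c (a (c (l 16785296) (l 16774080)) (c (l 16783392) (l 16753760))) (a (c (l 16762424) (l 16729344)) (c (l 16744720) (l 16735312))))) (b (a (c (b (l 16761544) (l 16763256)) (c (l 16766824) (l 16755240))) (c (a (l 16762024) (l 16761928)) (c (l 16769864) (a (l 16759160) (l 16761848))))) (a (b (c (b (l 16764544) (l 16765240)) (a (l 16763432) (l 16765232)))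 (c (a (c (l 16771072) (l 16760704)) (l 16766016)) (a (a (b (l 16764592) (l 16744840)) (l 16765960)) (l 16767200)))) (c (a (a (l 16765112) (l 16765008)) (b (l 16785160) (l 16765224))) (a (c (l 16772600) (l 16742216)) (b (l 16768896) (l 16770392))))))), by decide +kernel⟩

def k20_pm_213_t : ∃ t, chk3 f_pm_213_t t 15 30 1 = true :=
  ⟨(a (b (a (b (c (b (l 16752392) (l 16754896)) (b (l 16739768) (l 16741960))) (c (c (l 16761200) (l 16754880)) (a (l 16743648) (l 16745960)))) (a (b (b (c (l 16773320) (l 16743816)) (l 16750176)) (c (l 16757616) (l 16748080))) (b (a (b (l 16749168) (l 16751024)) (l 16771992)) (c (l 16767952) (a (l 16749464) (l 16750080)))))) (c (b (a (a (l 16761672) (l 16761304)) (a (l 16760456) (a (l 16759568) (l 16759208)))) (a (a (a (l 16764328) (l 16763984)) (b (l 16783904) (l 16784616))) (a (b (l 16782784) (l 16783376)) (c (l 16762448) (l 16758968))))) (b (a (a (a (l 16767744) (l 16747784)) (a (l 16748680) (l 16749512))) (a (a (l 16750280) (l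 16750976)) (b (l 16751512) (l 16752424)))) (a (a (b (l 16749560) (l 16771792)) (b (l 16771952) (l 16752000))) (a (b (l 16773104) (l 16752936)) (b (l 16753104) (l 16753632))))))) (b (a (b (a (l 16752344) (l 16753648)) (a (l 16754936) (c (l 16780896) (l 16772824)))) (a (b (c (l 16780096) (l 16770840)) (b (l 16756216) (l 16757024))) (b (c (l 16780816) (a (l 16771160) (l 16771288))) (c (l 16761168) (c (l 16775880) (l 16751840)))))) (a (b (a (l 16766936) (a (l 16757096) (l 16757448))) (c (a (b (l 16780920) (l 16759872)) (l 16760648)) (a (b (l 16753776) (l 16764664)) (l 16765288)))) (b (a (c (l 16782328) (l 16759472)) (c (b (l 16782520) (l 16782600)) (b (l 16775056) (l 16775808)))) (a (c (l 16771016) (b (l 16776088) (l 16776536))) (a (b (l 16779464) (l 16779624)) (b (l 16779576) (l 16779792)))))))), by decide +kernel⟩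

def k21_pm_213_t : ∃ t, chk3 f_pm_213_t t 28 124 1 = true :=
  ⟨(a (a (b (c (b (l 16781592) (l 16781072)) (b (l 16770832) (l 16751216))) (c (b (l 16780496) (l 16779840)) (b (l 16773432) (l 16774552)))) (b (c (c (l 16785288) (l 16779448)) (c (l 16773408) (l 16767192))) (c (b (l 16781600) (l 16770488)) (c (l 16775112) (l 16760352))))) (a (b (c (a (l 16762464) (l 16763296)) (c (l 16773072) (l 16765592))) (c (b (l 16783096) (l 16772016)) (b (l 16750568) (l 16762376)))) (b (c (l 16770008) (c (l 16773024) (l 16764184))) (b (c (l 16763976) (l 16749952)) (c (l 16763304) (l 16761792)))))), by decide +kernel⟩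

def k22_pm_213_t : ∃ t, chk3 f_pm_213_t t 28 125 1 = true :=
  ⟨(b (a (b (c (a (c (l 16779960) (l 16778240)) (l 16775024)) (a (l 16775544) (l 16774688))) (a (c (c (l 16773496) (l 16777824)) (c (l 16776880) (l 16775904))) (c (c (l 16780408) (l 16778552)) (l 16775648)))) (c (b (a (l 16776552) (l 16773040)) (a (c (l 16782352) (l 16779512)) (l 16774744))) (c (b (l 16776064) (c (l 16777456) (l 16765208))) (b (a (l 16772016) (l 16770896)) (a (l 16773504) (l 16772464)))))) (a (b (b (a (b (a (c (l 16777568) (l 16777128)) (l 16777360)) (a (c (a (l 136063211447) (l 16777448)) (l 92576665991)) (l 16777328))) (c (l 16773592) (l 16776264))) (a (b (a (a (l 4) (a (l 173644175335) (l 158074935319))) (c (l 16777576) (l 16777024))) (a (l 4) (c (a (l 113514634583) (l 16777464)) (l 78618023655)))) (c (c (l 16778760) (l 16777928)) (l 16776616)))) (b (a (a (l 4) (b (a (l 4) (c (l 103850958823) (l 16776872))) (c (l 372286417767) (l 367454579319)))) (b (c (l 16777976) (l 16776856))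 (a (c (a (l 95261024695) (l 16777536)) (l 66806865223)) (l 16777448)))) (a (l 4) (b (a (a (c (l 184918462199) (l 182234107831)) (c (l 87744832519) (l 16777176))) (l 16777376)) (a (a (l 4) (c (l 182770979031) (l 180086624599))) (c (a (l 81302381943) (l 16777608)) (l 16774640))))))) (b (c (a (c (l 16775736) (l 16779008)) (a (l 16770648) (l 16771448))) (c (a (l 16776960) (l 16777024)) (a (l 16774840) (l 16773864)))) (a (c (b (l 16773936) (c (l 16779048) (l 16778136))) (c (l 16777168) (l 16775968))) (c (b (l 16775416) (l 16774792)) (c (l 16777240) (l 16775072))))))), by decide +kernel⟩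

def k23_pm_213_t : ∃ t, chk3 f_pm_213_t t 29 124 1 = true :=
  ⟨(a (b (a (b (c (a (l 16766680) (l 16766912)) (a (l 16767480) (l 16746416))) (a (c (l 16787048) (l 16768992)) (c (l 16767176) (l 16749256)))) (c (b (l 16787808) (l 16767008)) (c (l 16773656) (l 16763800)))) (a (c (b (l 16765984) (l 16765232)) (b (l 16749424) (l 16750816))) (c (b (a (l 16767336) (l 16788264)) (c (l 16776008) (l 16770976))) (b (a (a (l 16770176) (l 16749088)) (l 16770416)) (a (l 16771392) (b (l 16749992) (l 16750640))))))) (c (b (a (l 16766520) (l 16765912)) (a (l 16766968) (l 16766248))) (b (a (l 16749408) (l 16771696)) (a (c (l 16775896) (l 16767432)) (l 16762328))))), by decide +kernel⟩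

def k24_pm_213_t : ∃ t, chk3 f_pm_213_t t 29 125 1 = true :=
  ⟨(a (b (c (a (b (l 16764352) (l 16773824)) (b (a (l 16786664) (l 16766720)) (l 16775552))) (b (a (l 16757296) (a (l 16772656) (l 16756800))) (c (l 16766360) (a (l 16771448) (l 16770432))))) (c (b (a (a (l 16772256) (l 16773088)) (l 16774344)) (a (b (l 16771744) (l 16771080)) (b (l 16773360) (l 16772664)))) (b (a (b (l 16764344) (l 16764768)) (b (l 16763936) (l 16764392))) (a (b (l 16765152) (l 16765496)) (b (l 16764800) (l 16765168)))))) (b (a (b (a (c (l 16772192) (c (l 16765864) (l 16757744))) (c (l 16787832) (l 16772808))) (c (a (l 16776984) (a (l 16777144) (l 16766536))) (a (b (l 16752216) (l 16773592)) (a (b (l 16773000) (l 16752536)) (l 16752336))))) (c (l 16766240) (a (l 16752544) (l 16752984)))) (b (a (c (a (l 16765080) (b (l 16766312) (l 16786528))) (b (c (l 16767040) (l 16760376)) (l 16763992))) (a (c (a (l 16776560) (l 16765976)) (a (b (l 16773888) (l 16763800)) (l 16753184))) (c (l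 16786744) (l 16774536)))) (a (c (b (l 16764472) (l 16774232)) (b (l 16764432) (l 16764840))) (c (a (c (l 16774920) (l 16773160)) (b (l 16786472) (l 16775016))) (a (a (l 16764384) (b (l 16764144) (l 16774984))) (a (b (l 16774640) (a (l 16764504) (l 16764408))) (l 16764360)))))))), by decide +kernel⟩

def k25_pm_213_t : ∃ t, chk3 f_pm_213_t t 15 62 1 = true :=
  ⟨(a (c (b (a (b (a (l 16765128) (l 16785056)) (a (l 16765368) (l 16764256))) (b (a (l 16783720) (l 16761136)) (a (l 16762872) (l 16761232)))) (a (b (c (l 16777808) (l 16770040)) (a (b (l 16765064) (l 16775288)) (b (l 16763936) (l 16774176)))) (b (a (l 16773264) (a (l 16782536) (l 16760712))) (a (b (l 16762560) (l 16772848)) (c (l 16783296) (l 16770056)))))) (b (a (a (b (l 16772872) (l 16763304)) (b (l 16752872) (l 16764096))) (b (a (l 16753608) (l 16764608)) (a (l 16764656) (b (l 16775408) (l 16754616))))) (c (a (a (b (l 16777600) (l 16777968)) (b (l 16777768) (l 16778048))) (b (b (l 16767096) (l 16767216))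 (a (l 16767432) (l 16767160)))) (a (b (a (l 16771456) (l 16772544)) (a (l 16772344) (l 16762776))) (b (a (l 16773448) (l 16763672)) (a (l 16763512) (l 16769352))))))) (a (b (a (b (c (b (l 16780720) (l 16759672)) (b (l 16754440) (l 16765080))) (c (b (l 16759616) (l 16770032)) (a (l 16765136) (l 16765264)))) (b (l 16768224) (l 16768032))) (a (b (c (a (l 16770320) (l 16769504)) (a (l 16765408) (b (l 16775904) (l 16775992)))) (c (c (l 16770808) (l 16768824)) (c (l 16766752) (l 16769824)))) (b (a (c (l 16779752) (l 16765640)) (l 16778456)) (a (c (a (l 16768864) (l 16768736)) (b (l 16776168) (l 16765776))) (l 16767632))))) (b (a (c (b (l 16781688) (l 16781288)) (b (l 16776872) (l 16777128))) (a (b (l 16779696) (l 16779688)) (b (l 16779920) (l 16769472)))) (a (a (b (l 16778864) (l 16773336)) (b (l 16768760) (l 16773760))) (b (c (l 16773016) (a (l 16777832) (l 16778152))) (c (a (l 16780768) (l 16781104)) (a (l 16777960) (l 16778328)))))))), by decide +kernel⟩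

def k26_pm_213_t : ∃ t, chk3 f_pm_213_t t 28 126 1 = true :=
  ⟨(a (a (l 4) (a (l 4) (b (b (b (b (a (c (c (l 161833014887) (l 158611789367)) (l 153243079351)) (c (l 16774640) (l 16777344))) (a (l 4) (c (c (l 160759273255) (l 157538047735)) (l 152169337735)))) (l 4)) (l 4)) (l 4)))) (a (b (a (b (b (b (l 16774792) (c (c (l 16777576) (l 16777520)) (l 16777216))) (b (a (c (c (l 158611789751) (l 155927435319)) (l 150558725159)) (c (l 16777360) (l 16777288))) (a (l 4) (c (a (l 4) (l 143579406647)) (l 149484983431))))) (l 4)) (b (c (b (l 16778320) (c (b (l 16778056) (l 16777608)) (l 41037064247))) (b (l 16776856) (c (l 16777296) (l 16776968)))) (b (b (a (c (a (l 204245817303) (l 143579406679)) (l 150021854391)) (c (l 16774760) (l 16777280))) (a (l 4) (a (b (l 204245819991) (l 4)) (b (l 16777032) (l 205856432551))))) (l 4)))) (l 4)) (b (b (c (b (c (l 16780056) (l 16778712)) (c (l 16779184) (l 16778272))) (b (l 16776600) (l 16776840))) (b (b (c (l 16774960) (l 16776992))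 (a (c (c (l 16777584) (l 16777536)) (l 16774600)) (c (l 16778224) (l 16777008)))) (a (b (b (a (a (l 208540787063) (l 16779632)) (l 16777320)) (a (l 4) (c (l 16777176) (l 16777272)))) (b (a (l 4) (a (l 4) (l 122104572439))) (l 4))) (b (c (l 16777880) (l 16777088)) (a (a (b (l 16777280) (l 126936410583)) (l 16777320)) (l 16777424)))))) (a (l 4) (b (b (b (b (a (a (l 4) (l 132305130071)) (l 16777320)) (a (l 4) (c (l 103850966775) (l 16777104)))) (a (l 4) (a (l 4) (b (a (l 16774360) (l 16777024)) (l 4))))) (l 4)) (l 4)))))), by decide +kernel⟩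

def k27_pm_213_t : ∃ t, chk3 f_pm_213_t t 29 126 1 = true :=
  ⟨(b (a (a (b (b (c (l 16775648) (l 16776280)) (c (l 16775352) (l 16776552))) (c (b (c (l 16779792) (l 16778824)) (a (l 16775768) (l 16773848))) (b (l 16776776) (c (l 16777424) (l 16776496))))) (b (c (b (l 16771944) (l 16776448)) (c (l 16777664) (l 16769344))) (a (c (c (l 16775776) (l 16779328)) (b (l 16776592) (l 16776808))) (b (b (l 16771144) (l 14)) (l 14))))) (b (b (a (c (l 16773488) (l 16765200)) (c (a (l 16785096) (l 16774088)) (a (l 16775424) (a (l 16775288) (c (l 16778032) (l 16772448)))))) (l 14)) (l 14))) (a (a (b (a (b (b (c (l 16777848) (l 16777120)) (a (a (b (l 16777296) (a (l 209614530839) (l 16776968))) (l 96334779095)) (l 16777408))) (b (b (a (c (a (l 4) (l 169349212487)) (l 174181047223)) (l 81839264167)) (a (l 4) (c (a (l 180086630391) (l 16777200)) (l 123715183847)))) (a (l 4) (c (c (l 430805349047) (l 431342219847)) (l 425973510583))))) (b (c (c (l 16778472) (l 16778032)) (l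 16777064)) (a (b (l 16777400) (b (c (l 16777280) (l 16777304)) (c (a (l 216593851703) (l 16777040)) (l 143579406807)))) (b (l 16777552) (l 14))))) (a (l 4) (a (a (l 4) (l 14)) (l 14)))) (a (b (b (c (l 16776416) (l 16776976)) (l 14)) (l 14)) (l 14))) (l 14))), by decide +kernel⟩

def k28_pm_213_t : ∃ t, chk3 f_pm_213_t t 14 127 1 = true :=
  ⟨(a (l 4) (a (a (l 4) (l 14)) (l 14))), by decide +kernel⟩

def k29_pm_213_t : ∃ t, chk3 f_pm_213_t t 15 63 1 = true :=
  ⟨(b (b (b (b (a (c (a (a (l 16774912) (l 16763464)) (a (l 16772664) (l 16781744))) (a (a (a (l 16764808) (l 16775632)) (l 16775944)) (a (l 16776192) (l 16765832)))) (a (a (c (l 16780256) (l 16765848)) (a (c (l 16779136) (l 16776328)) (l 16777872))) (a (l 16773352) (a (l 16779208) (l 16779584))))) (l 14)) (l 14)) (l 14)) (l 14)), by decide +kernel⟩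

theorem s30_pm_213_t : ∃ t, chk3 f_pm_213_t t 14 126 1 = true := ex3_a k26_pm_213_t k27_pm_213_t

theorem s31_pm_213_t : ∃ t, chk3 f_pm_213_t t 14 63 1 = true := ex3_b s30_pm_213_t k28_pm_213_t

theorem s32_pm_213_t : ∃ t, chk3 f_pm_213_t t 7 63 1 = true := ex3_a s31_pm_213_t k29_pm_213_t

theorem s33_pm_213_t : ∃ t, chk3 f_pm_213_t t 29 62 1 = true := ex3_b k23_pm_213_t k24_pm_213_t

theorem s34_pm_213_t : ∃ t, chk3 f_pm_213_t t 28 62 1 = true := ex3_b k21_pm_213_t k22_pm_213_t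

theorem s35_pm_213_t : ∃ t, chk3 f_pm_213_t t 14 62 1 = true := ex3_a s34_pm_213_t s33_pm_213_t

theorem s36_pm_213_t : ∃ t, chk3 f_pm_213_t t 7 62 1 = true := ex3_a s35_pm_213_t k25_pm_213_t

theorem s37_pm_213_t : ∃ t, chk3 f_pm_213_t t 7 31 1 = true := ex3_b s36_pm_213_t s32_pm_213_t

theorem s38_pm_213_t : ∃ t, chk3 f_pm_213_t t 14 30 1 = true := ex3_a k18_pm_213_t k19_pm_213_t

theorem s39_pm_213_t : ∃ t, chk3 f_pm_213_t t 7 30 1 = true := ex3_a s38_pm_213_t k20_pm_213_t

theorem s40_pm_213_t : ∃ t, chk3 f_pm_213_t t 7 15 1 = true := ex3_b s39_pm_213_t s37_pm_213_t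

theorem s41_pm_213_t : ∃ t, chk3 f_pm_213_t t 15 14 1 = true := ex3_b k16_pm_213_t k17_pm_213_t

theorem s42_pm_213_t : ∃ t, chk3 f_pm_213_t t 7 14 1 = true := ex3_a k15_pm_213_t s41_pm_213_t

theorem s43_pm_213_t : ∃ t, chk3 f_pm_213_t t 7 7 1 = true := ex3_b s42_pm_213_t s40_pm_213_t

theorem s44_pm_213_t : ∃ t, chk3 f_pm_213_t t 7 3 1 = true := ex3_b k14_pm_213_t s43_pm_213_t

theorem s45_pm_213_t : ∃ t, chk3 f_pm_213_t t 13 62 1 = true := ex3_b k11_pm_213_t k12_pm_213_t

theorem s46_pm_213_t : ∃ t, chk3 f_pm_213_t t 6 62 1 = true := ex3_a k10_pm_213_t s45_pm_213_t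

theorem s47_pm_213_t : ∃ t, chk3 f_pm_213_t t 6 31 1 = true := ex3_b s46_pm_213_t k13_pm_213_t

theorem s48_pm_213_t : ∃ t, chk3 f_pm_213_t t 6 61 1 = true := ex3_a k8_pm_213_t k9_pm_213_t

theorem s49_pm_213_t : ∃ t, chk3 f_pm_213_t t 6 30 1 = true := ex3_b k7_pm_213_t s48_pm_213_t

theorem s50_pm_213_t : ∃ t, chk3 f_pm_213_t t 6 15 1 = true := ex3_b s49_pm_213_t s47_pm_213_t

theorem s51_pm_213_t : ∃ t, chk3 f_pm_213_t t 6 14 1 = true := ex3_b k5_pm_213_t k6_pm_213_t

theorem s52_pm_213_t : ∃ t, chk3 f_pm_213_t t 6 7 1 = true := ex3_b s51_pm_213_t s50_pm_213_t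

theorem s53_pm_213_t : ∃ t, chk3 f_pm_213_t t 6 3 1 = true := ex3_b k4_pm_213_t s52_pm_213_t

theorem s54_pm_213_t : ∃ t, chk3 f_pm_213_t t 3 3 1 = true := ex3_a s53_pm_213_t s44_pm_213_t

theorem s55_pm_213_t : ∃ t, chk3 f_pm_213_t t 3 1 1 = true := ex3_b k3_pm_213_t s54_pm_213_t

theorem s56_pm_213_t : ∃ t, chk3 f_pm_213_t t 2 3 1 = true := ex3_a k1_pm_213_t k2_pm_213_t

theorem s57_pm_213_t : ∃ t, chk3 f_pm_213_t t 2 1 1 = true := ex3_b k0_pm_213_t s56_pm_213_t

theorem s58_pm_213_t : ∃ t, chk3 f_pm_213_t t 1 1 1 = true := ex3_a s57_pm_213_t s55_pm_213_t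

theorem c_pm_213_t : CertNE 0 536870912 536870912 536870912 818728140 40265320 3 eng mog cd0q2 cd0q1 pd3 true true false .pnn 2 1 3
    ndB0q2 ndB0q1 pcB3 cut_pm_213_t xt_pm_213_t :=
  certNE1 (fam := true) (s1 := true) (s2 := false) (a := 2) (b := 1) (c := 3) (cn := .pnn) (n1 := ndB0q2) (n2 := ndB0q1) (pc := pcB3) (cut := cut_pm_213_t) (xt := xt_pm_213_t) (P1 := 0) (W1 := 536870912) (P2 := 536870912) (W2 := 536870912) (P3 := 818728140) (W3 := 40265320) (N0 := 3) (En := eng) (mo := mog) (C1 := cd0q2) (C2 := cd0q1) (C3 := pd3)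
    rfl (fun _ => rfl) s58_pm_213_t

noncomputable def cut_mm_001_s : Cut := Cut.of [[⟨4, 0, 0, 1449551462⟩]]

noncomputable def f_mm_001_s : ℕ → ℕ → ℕ → ℕ → Bool := onCell 0 536870912 0 536870912 818728140 40265320
    (rowNE 3 eng mog cd0q0 cd0q0 pd1 0 true false false .up 0 0 1 (qsf 0 536870912 0 536870912 1) ndB0q0 ndB0q0 pcB1 cut_mm_001_s Ext.none)

def k0_mm_001_s : ∃ t, chk3 f_mm_001_s t 1 1 1 = true :=
  ⟨(l 4), by decide +kernel⟩

theorem c_mm_001_s : CertNE 0 536870912 0 536870912 818728140 40265320 3 eng mog cd0q0 cd0q0 pd1 true false false .up 0 0 1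
    ndB0q0 ndB0q0 pcB1 cut_mm_001_s Ext.none :=
  certNE0 (fam := true) (s1 := false) (s2 := false) (a := 0) (b := 0) (c := 1) (cn := .up) (n1 := ndB0q0) (n2 := ndB0q0) (pc := pcB1) (cut := cut_mm_001_s) (xt := Ext.none) (P1 := 0) (W1 := 536870912) (P2 := 0) (W2 := 536870912) (P3 := 818728140) (W3 := 40265320) (N0 := 3) (En := eng) (mo := mog) (C1 := cd0q0) (C2 := cd0q0) (C3 := pd1)
    rfl k0_mm_001_s

noncomputable def cut_mm_001_t : Cut := Cut.of [[⟨3, 0, 0, 2845415833⟩]]

noncomputable def f_mm_001_t : ℕ → ℕ → ℕ → ℕ → Bool := onCell 0 536870912 0 536870912 818728140 40265320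
    (rowNE 3 eng mog cd0q0 cd0q0 pd1 0 true false false .up 0 0 1 (qsf 0 536870912 0 536870912 1) ndB0q0 ndB0q0 pcB1 cut_mm_001_t Ext.none)

def k0_mm_001_t : ∃ t, chk3 f_mm_001_t t 1 1 1 = true :=
  ⟨(l 4), by decide +kernel⟩

theorem c_mm_001_t : CertNE 0 536870912 0 536870912 818728140 40265320 3 eng mog cd0q0 cd0q0 pd1 true false false .up 0 0 1
    ndB0q0 ndB0q0 pcB1 cut_mm_001_t Ext.none :=
  certNE0 (fam := true) (s1 := false) (s2 := false) (a := 0) (b := 0) (c := 1) (cn := .up) (n1 := ndB0q0) (n2 := ndB0q0) (pc := pcB1) (cut := cut_mm_001_t) (xt := Ext.none) (P1 := 0) (W1 := 536870912) (P2 := 0) (W2 := 536870912) (P3 := 818728140) (W3 := 40265320) (N0 := 3) (En := eng) (mo := mog) (C1 := cd0q0) (C2 := cd0q0) (C3 := pd1)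
    rfl k0_mm_001_t

noncomputable def cut_mm_011_s : Cut := Cut.of [[⟨4, 0, 0, 1449551462⟩]]

noncomputable def f_mm_011_s : ℕ → ℕ → ℕ → ℕ → Bool := onCell 0 536870912 536870912 536870912 818728140 40265320
    (rowNE 3 eng mog cd0q0 cd0q1 pd1 0 true false false .pnn 0 1 1 (qsf 0 536870912 536870912 536870912 1) ndB0q0 ndB0q1 pcB1 cut_mm_011_s Ext.none)

def k0_mm_011_s : ∃ t, chk3 f_mm_011_s t 1 1 1 = true :=
  ⟨(l 6), by decide +kernel⟩

theorem c_mm_011_s : CertNE 0 536870912 536870912 536870912 818728140 40265320 3 eng mog cd0q0 cd0q1 pd1 true false false .pnn 0 1 1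
    ndB0q0 ndB0q1 pcB1 cut_mm_011_s Ext.none :=
  certNE0 (fam := true) (s1 := false) (s2 := false) (a := 0) (b := 1) (c := 1) (cn := .pnn) (n1 := ndB0q0) (n2 := ndB0q1) (pc := pcB1) (cut := cut_mm_011_s) (xt := Ext.none) (P1 := 0) (W1 := 536870912) (P2 := 536870912) (W2 := 536870912) (P3 := 818728140) (W3 := 40265320) (N0 := 3) (En := eng) (mo := mog) (C1 := cd0q0) (C2 := cd0q1) (C3 := pd1)
    rfl k0_mm_011_s

noncomputable def cut_mm_011_t : Cut := Cut.of [[⟨3, 0, 0, 2845415833⟩]]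

noncomputable def f_mm_011_t : ℕ → ℕ → ℕ → ℕ → Bool := onCell 0 536870912 536870912 536870912 818728140 40265320
    (rowNE 3 eng mog cd0q0 cd0q1 pd1 0 true false false .pnn 0 1 1 (qsf 0 536870912 536870912 536870912 1) ndB0q0 ndB0q1 pcB1 cut_mm_011_t Ext.none)

def k0_mm_011_t : ∃ t, chk3 f_mm_011_t t 1 1 1 = true :=
  ⟨(b (l 4) (l 5)), by decide +kernel⟩

theorem c_mm_011_t : CertNE 0 536870912 536870912 536870912 818728140 40265320 3 eng mog cd0q0 cd0q1 pd1 true false false .pnn 0 1 1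
    ndB0q0 ndB0q1 pcB1 cut_mm_011_t Ext.none :=
  certNE0 (fam := true) (s1 := false) (s2 := false) (a := 0) (b := 1) (c := 1) (cn := .pnn) (n1 := ndB0q0) (n2 := ndB0q1) (pc := pcB1) (cut := cut_mm_011_t) (xt := Ext.none) (P1 := 0) (W1 := 536870912) (P2 := 536870912) (W2 := 536870912) (P3 := 818728140) (W3 := 40265320) (N0 := 3) (En := eng) (mo := mog) (C1 := cd0q0) (C2 := cd0q1) (C3 := pd1)
    rfl k0_mm_011_t

noncomputable def cut_mm_012_s : Cut := Cut.of [[⟨4, 0, 0, 1449551462⟩]]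

noncomputable def f_mm_012_s : ℕ → ℕ → ℕ → ℕ → Bool := onCell 0 536870912 536870912 536870912 818728140 40265320
    (rowNE 3 eng mog cd0q0 cd0q1 pd2 0 true false false .pnp 0 1 2 (qsf 0 536870912 536870912 536870912 2) ndB0q0 ndB0q1 pcB2 cut_mm_012_s Ext.none)

def k0_mm_012_s : ∃ t, chk3 f_mm_012_s t 1 1 1 = true :=
  ⟨(l 6), by decide +kernel⟩

theorem c_mm_012_s : CertNE 0 536870912 536870912 536870912 818728140 40265320 3 eng mog cd0q0 cd0q1 pd2 true false false .pnp 0 1 2
    ndB0q0 ndB0q1 pcB2 cut_mm_012_s Ext.none :=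
  certNE0 (fam := true) (s1 := false) (s2 := false) (a := 0) (b := 1) (c := 2) (cn := .pnp) (n1 := ndB0q0) (n2 := ndB0q1) (pc := pcB2) (cut := cut_mm_012_s) (xt := Ext.none) (P1 := 0) (W1 := 536870912) (P2 := 536870912) (W2 := 536870912) (P3 := 818728140) (W3 := 40265320) (N0 := 3) (En := eng) (mo := mog) (C1 := cd0q0) (C2 := cd0q1) (C3 := pd2)
    rfl k0_mm_012_s

noncomputable def cut_mm_012_t : Cut := Cut.of [[⟨3, 0, 0, 2845415833⟩]]

noncomputable def f_mm_012_t : ℕ → ℕ → ℕ → ℕ → Bool := onCell 0 536870912 536870912 536870912 818728140 40265320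
    (rowNE 3 eng mog cd0q0 cd0q1 pd2 0 true false false .pnp 0 1 2 (qsf 0 536870912 536870912 536870912 2) ndB0q0 ndB0q1 pcB2 cut_mm_012_t Ext.none)

def k0_mm_012_t : ∃ t, chk3 f_mm_012_t t 1 1 1 = true :=
  ⟨(b (l 4) (l 5)), by decide +kernel⟩

theorem c_mm_012_t : CertNE 0 536870912 536870912 536870912 818728140 40265320 3 eng mog cd0q0 cd0q1 pd2 true false false .pnp 0 1 2
    ndB0q0 ndB0q1 pcB2 cut_mm_012_t Ext.none :=
  certNE0 (fam := true) (s1 := false) (s2 := false) (a := 0) (b := 1) (c := 2) (cn := .pnp) (n1 := ndB0q0) (n2 := ndB0q1) (pc := pcB2) (cut := cut_mm_012_t) (xt := Ext.none) (P1 := 0) (W1 := 536870912) (P2 := 536870912) (W2 := 536870912) (P3 := 818728140) (W3 := 40265320) (N0 := 3) (En := eng) (mo := mog) (C1 := cd0q0) (C2 := cd0q1) (C3 := pd2)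
    rfl k0_mm_012_t

noncomputable def cut_mm_022_s : Cut := Cut.of [[⟨4, 0, 0, 1449551462⟩]]

noncomputable def f_mm_022_s : ℕ → ℕ → ℕ → ℕ → Bool := onCell 0 536870912 0 536870912 818728140 40265320
    (rowNE 3 eng mog cd0q0 cd0q2 pd2 0 true false false .pp 0 2 2 (qsf 0 536870912 0 536870912 2) ndB0q0 ndB0q2 pcB2 cut_mm_022_s Ext.none)

def k0_mm_022_s : ∃ t, chk3 f_mm_022_s t 1 1 1 = true :=
  ⟨(l 5), by decide +kernel⟩

theorem c_mm_022_s : CertNE 0 536870912 0 536870912 818728140 40265320 3 eng mog cd0q0 cd0q2 pd2 true false false .pp 0 2 2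
    ndB0q0 ndB0q2 pcB2 cut_mm_022_s Ext.none :=
  certNE0 (fam := true) (s1 := false) (s2 := false) (a := 0) (b := 2) (c := 2) (cn := .pp) (n1 := ndB0q0) (n2 := ndB0q2) (pc := pcB2) (cut := cut_mm_022_s) (xt := Ext.none) (P1 := 0) (W1 := 536870912) (P2 := 0) (W2 := 536870912) (P3 := 818728140) (W3 := 40265320) (N0 := 3) (En := eng) (mo := mog) (C1 := cd0q0) (C2 := cd0q2) (C3 := pd2)
    rfl k0_mm_022_s

noncomputable def cut_mm_022_t : Cut := Cut.of [[⟨3, 0, 0, 2845415833⟩]]

noncomputable def f_mm_022_t : ℕ → ℕ → ℕ → ℕ → Bool := onCell 0 536870912 0 536870912 818728140 40265320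
    (rowNE 3 eng mog cd0q0 cd0q2 pd2 0 true false false .pp 0 2 2 (qsf 0 536870912 0 536870912 2) ndB0q0 ndB0q2 pcB2 cut_mm_022_t Ext.none)

def k0_mm_022_t : ∃ t, chk3 f_mm_022_t t 1 1 1 = true :=
  ⟨(l 5), by decide +kernel⟩

theorem c_mm_022_t : CertNE 0 536870912 0 536870912 818728140 40265320 3 eng mog cd0q0 cd0q2 pd2 true false false .pp 0 2 2
    ndB0q0 ndB0q2 pcB2 cut_mm_022_t Ext.none :=
  certNE0 (fam := true) (s1 := false) (s2 := false) (a := 0) (b := 2) (c := 2) (cn := .pp) (n1 := ndB0q0) (n2 := ndB0q2) (pc := pcB2) (cut := cut_mm_022_t) (xt := Ext.none) (P1 := 0) (W1 := 536870912) (P2 := 0) (W2 := 536870912) (P3 := 818728140) (W3 := 40265320) (N0 := 3) (En := eng) (mo := mog) (C1 := cd0q0) (C2 := cd0q2) (C3 := pd2)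
    rfl k0_mm_022_t

noncomputable def cut_mm_023_s : Cut := Cut.of [[⟨4, 0, 0, 1449551462⟩]]

noncomputable def f_mm_023_s : ℕ → ℕ → ℕ → ℕ → Bool := onCell 0 536870912 0 536870912 818728140 40265320
    (rowNE 3 eng mog cd0q0 cd0q2 pd3 0 true false false .up 0 2 3 (qsf 0 536870912 0 536870912 3) ndB0q0 ndB0q2 pcB3 cut_mm_023_s Ext.none)

def k0_mm_023_s : ∃ t, chk3 f_mm_023_s t 1 1 1 = true :=
  ⟨(l 5), by decide +kernel⟩

theorem c_mm_023_s : CertNE 0 536870912 0 536870912 818728140 40265320 3 eng mog cd0q0 cd0q2 pd3 true false false .up 0 2 3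
    ndB0q0 ndB0q2 pcB3 cut_mm_023_s Ext.none :=
  certNE0 (fam := true) (s1 := false) (s2 := false) (a := 0) (b := 2) (c := 3) (cn := .up) (n1 := ndB0q0) (n2 := ndB0q2) (pc := pcB3) (cut := cut_mm_023_s) (xt := Ext.none) (P1 := 0) (W1 := 536870912) (P2 := 0) (W2 := 536870912) (P3 := 818728140) (W3 := 40265320) (N0 := 3) (En := eng) (mo := mog) (C1 := cd0q0) (C2 := cd0q2) (C3 := pd3)
    rfl k0_mm_023_s

noncomputable def cut_mm_023_t : Cut := Cut.of [[⟨3, 0, 0, 2845415833⟩]]

noncomputable def f_mm_023_t : ℕ → ℕ → ℕ → ℕ → Bool := onCell 0 536870912 0 536870912 818728140 40265320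
    (rowNE 3 eng mog cd0q0 cd0q2 pd3 0 true false false .up 0 2 3 (qsf 0 536870912 0 536870912 3) ndB0q0 ndB0q2 pcB3 cut_mm_023_t Ext.none)

def k0_mm_023_t : ∃ t, chk3 f_mm_023_t t 1 1 1 = true :=
  ⟨(l 5), by decide +kernel⟩

theorem c_mm_023_t : CertNE 0 536870912 0 536870912 818728140 40265320 3 eng mog cd0q0 cd0q2 pd3 true false false .up 0 2 3
    ndB0q0 ndB0q2 pcB3 cut_mm_023_t Ext.none :=
  certNE0 (fam := true) (s1 := false) (s2 := false) (a := 0) (b := 2) (c := 3) (cn := .up) (n1 := ndB0q0) (n2 := ndB0q2) (pc := pcB3) (cut := cut_mm_023_t) (xt := Ext.none) (P1 := 0) (W1 := 536870912) (P2 := 0) (W2 := 536870912) (P3 := 818728140) (W3 := 40265320) (N0 := 3) (En := eng) (mo := mog) (C1 := cd0q0) (C2 := cd0q2) (C3 := pd3)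
    rfl k0_mm_023_t

noncomputable def cut_mm_101_s : Cut := Cut.of [[⟨4, 0, 0, 1449551462⟩], [⟨0, 1, 0, 67108864⟩, ⟨1, 0, 0, 67108864⟩, ⟨2, 1, 0, 67108864⟩]]

noncomputable def f_mm_101_s : ℕ → ℕ → ℕ → ℕ → Bool := onCell 536870912 536870912 0 536870912 818728140 40265320
    (rowNE 3 eng mog cd0q1 cd0q0 pd1 0 true false false .npn 1 0 1 (qsf 536870912 536870912 0 536870912 1) ndB0q1 ndB0q0 pcB1 cut_mm_101_s Ext.none)

def k0_mm_101_s : ∃ t, chk3 f_mm_101_s t 1 1 1 = true :=
  ⟨(l 6), by decide +kernel⟩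

theorem c_mm_101_s : CertNE 536870912 536870912 0 536870912 818728140 40265320 3 eng mog cd0q1 cd0q0 pd1 true false false .npn 1 0 1
    ndB0q1 ndB0q0 pcB1 cut_mm_101_s Ext.none :=
  certNE0 (fam := true) (s1 := false) (s2 := false) (a := 1) (b := 0) (c := 1) (cn := .npn) (n1 := ndB0q1) (n2 := ndB0q0) (pc := pcB1) (cut := cut_mm_101_s) (xt := Ext.none) (P1 := 536870912) (W1 := 536870912) (P2 := 0) (W2 := 536870912) (P3 := 818728140) (W3 := 40265320) (N0 := 3) (En := eng) (mo := mog) (C1 := cd0q1) (C2 := cd0q0) (C3 := pd1)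
    rfl k0_mm_101_s

noncomputable def cut_mm_101_t : Cut := Cut.of [[⟨3, 0, 0, 2845415833⟩], [⟨0, 1, 0, 67108864⟩, ⟨1, 0, 0, 67108864⟩, ⟨2, 1, 0, 67108864⟩]]

noncomputable def f_mm_101_t : ℕ → ℕ → ℕ → ℕ → Bool := onCell 536870912 536870912 0 536870912 818728140 40265320
    (rowNE 3 eng mog cd0q1 cd0q0 pd1 0 true false false .npn 1 0 1 (qsf 536870912 536870912 0 536870912 1) ndB0q1 ndB0q0 pcB1 cut_mm_101_t Ext.none)

def k0_mm_101_t : ∃ t, chk3 f_mm_101_t t 1 1 1 = true :=
  ⟨(a (l 4) (b (a (l 4) (b (a (l 4) (b (a (l 4) (b (l 14) (l 4))) (l 4))) (l 4))) (l 4))), by decide +kernel⟩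

theorem c_mm_101_t : CertNE 536870912 536870912 0 536870912 818728140 40265320 3 eng mog cd0q1 cd0q0 pd1 true false false .npn 1 0 1
    ndB0q1 ndB0q0 pcB1 cut_mm_101_t Ext.none :=
  certNE0 (fam := true) (s1 := false) (s2 := false) (a := 1) (b := 0) (c := 1) (cn := .npn) (n1 := ndB0q1) (n2 := ndB0q0) (pc := pcB1) (cut := cut_mm_101_t) (xt := Ext.none) (P1 := 536870912) (W1 := 536870912) (P2 := 0) (W2 := 536870912) (P3 := 818728140) (W3 := 40265320) (N0 := 3) (En := eng) (mo := mog) (C1 := cd0q1) (C2 := cd0q0) (C3 := pd1)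
    rfl k0_mm_101_t

noncomputable def cut_mm_102_s : Cut := Cut.of [[⟨4, 0, 0, 1449551462⟩], [⟨0, 1, 0, 67108864⟩, ⟨1, 0, 0, 67108864⟩, ⟨2, 1, 0, 67108864⟩]]

noncomputable def f_mm_102_s : ℕ → ℕ → ℕ → ℕ → Bool := onCell 536870912 536870912 0 536870912 818728140 40265320
    (rowNE 3 eng mog cd0q1 cd0q0 pd2 0 true false false .npp 1 0 2 (qsf 536870912 536870912 0 536870912 2) ndB0q1 ndB0q0 pcB2 cut_mm_102_s Ext.none)

def k0_mm_102_s : ∃ t, chk3 f_mm_102_s t 1 1 1 = true :=
  ⟨(l 6), by decide +kernel⟩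

theorem c_mm_102_s : CertNE 536870912 536870912 0 536870912 818728140 40265320 3 eng mog cd0q1 cd0q0 pd2 true false false .npp 1 0 2
    ndB0q1 ndB0q0 pcB2 cut_mm_102_s Ext.none :=
  certNE0 (fam := true) (s1 := false) (s2 := false) (a := 1) (b := 0) (c := 2) (cn := .npp) (n1 := ndB0q1) (n2 := ndB0q0) (pc := pcB2) (cut := cut_mm_102_s) (xt := Ext.none) (P1 := 536870912) (W1 := 536870912) (P2 := 0) (W2 := 536870912) (P3 := 818728140) (W3 := 40265320) (N0 := 3) (En := eng) (mo := mog) (C1 := cd0q1) (C2 := cd0q0) (C3 := pd2)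
    rfl k0_mm_102_s

noncomputable def cut_mm_102_t : Cut := Cut.of [[⟨3, 0, 0, 2845415833⟩], [⟨0, 1, 0, 67108864⟩, ⟨1, 0, 0, 67108864⟩, ⟨2, 1, 0, 67108864⟩]]

noncomputable def f_mm_102_t : ℕ → ℕ → ℕ → ℕ → Bool := onCell 536870912 536870912 0 536870912 818728140 40265320
    (rowNE 3 eng mog cd0q1 cd0q0 pd2 0 true false false .npp 1 0 2 (qsf 536870912 536870912 0 536870912 2) ndB0q1 ndB0q0 pcB2 cut_mm_102_t Ext.none)

def k0_mm_102_t : ∃ t, chk3 f_mm_102_t t 1 1 1 = true :=
  ⟨(a (l 4) (b (a (l 4) (b (a (l 4) (b (a (l 4) (b (l 14) (l 4))) (l 4))) (l 4))) (l 4))), by decide +kernel⟩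

theorem c_mm_102_t : CertNE 536870912 536870912 0 536870912 818728140 40265320 3 eng mog cd0q1 cd0q0 pd2 true false false .npp 1 0 2
    ndB0q1 ndB0q0 pcB2 cut_mm_102_t Ext.none :=
  certNE0 (fam := true) (s1 := false) (s2 := false) (a := 1) (b := 0) (c := 2) (cn := .npp) (n1 := ndB0q1) (n2 := ndB0q0) (pc := pcB2) (cut := cut_mm_102_t) (xt := Ext.none) (P1 := 536870912) (W1 := 536870912) (P2 := 0) (W2 := 536870912) (P3 := 818728140) (W3 := 40265320) (N0 := 3) (En := eng) (mo := mog) (C1 := cd0q1) (C2 := cd0q0) (C3 := pd2)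
    rfl k0_mm_102_t

noncomputable def cut_mm_112_s : Cut := Cut.of [[⟨4, 0, 0, 1449551462⟩]]

noncomputable def f_mm_112_s : ℕ → ℕ → ℕ → ℕ → Bool := onCell 536870912 536870912 536870912 536870912 818728140 40265320
    (rowNE 3 eng mog cd0q1 cd0q1 pd2 0 true false false .dn 1 1 2 (qsf 536870912 536870912 536870912 536870912 2) ndB0q1 ndB0q1 pcB2 cut_mm_112_s Ext.none)

def k0_mm_112_s : ∃ t, chk3 f_mm_112_s t 1 1 1 = true :=
  ⟨(l 4), by decide +kernel⟩

theorem c_mm_112_s : CertNE 536870912 536870912 536870912 536870912 818728140 40265320 3 eng mog cd0q1 cd0q1 pd2 true false false .dn 1 1 2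
    ndB0q1 ndB0q1 pcB2 cut_mm_112_s Ext.none :=
  certNE0 (fam := true) (s1 := false) (s2 := false) (a := 1) (b := 1) (c := 2) (cn := .dn) (n1 := ndB0q1) (n2 := ndB0q1) (pc := pcB2) (cut := cut_mm_112_s) (xt := Ext.none) (P1 := 536870912) (W1 := 536870912) (P2 := 536870912) (W2 := 536870912) (P3 := 818728140) (W3 := 40265320) (N0 := 3) (En := eng) (mo := mog) (C1 := cd0q1) (C2 := cd0q1) (C3 := pd2)
    rfl k0_mm_112_s

noncomputable def cut_mm_112_t : Cut := Cut.of [[⟨3, 0, 0, 2845415833⟩]]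

noncomputable def f_mm_112_t : ℕ → ℕ → ℕ → ℕ → Bool := onCell 536870912 536870912 536870912 536870912 818728140 40265320
    (rowNE 3 eng mog cd0q1 cd0q1 pd2 0 true false false .dn 1 1 2 (qsf 536870912 536870912 536870912 536870912 2) ndB0q1 ndB0q1 pcB2 cut_mm_112_t Ext.none)

def k0_mm_112_t : ∃ t, chk3 f_mm_112_t t 1 1 1 = true :=
  ⟨(l 4), by decide +kernel⟩

theorem c_mm_112_t : CertNE 536870912 536870912 536870912 536870912 818728140 40265320 3 eng mog cd0q1 cd0q1 pd2 true false false .dn 1 1 2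
    ndB0q1 ndB0q1 pcB2 cut_mm_112_t Ext.none :=
  certNE0 (fam := true) (s1 := false) (s2 := false) (a := 1) (b := 1) (c := 2) (cn := .dn) (n1 := ndB0q1) (n2 := ndB0q1) (pc := pcB2) (cut := cut_mm_112_t) (xt := Ext.none) (P1 := 536870912) (W1 := 536870912) (P2 := 536870912) (W2 := 536870912) (P3 := 818728140) (W3 := 40265320) (N0 := 3) (En := eng) (mo := mog) (C1 := cd0q1) (C2 := cd0q1) (C3 := pd2)
    rfl k0_mm_112_t

noncomputable def cut_mm_113_s : Cut := Cut.of [[⟨4, 0, 0, 1449551462⟩]]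

noncomputable def f_mm_113_s : ℕ → ℕ → ℕ → ℕ → Bool := onCell 536870912 536870912 536870912 536870912 818728140 40265320
    (rowNE 3 eng mog cd0q1 cd0q1 pd3 0 true false false .nn 1 1 3 (qsf 536870912 536870912 536870912 536870912 3) ndB0q1 ndB0q1 pcB3 cut_mm_113_s Ext.none)

def k0_mm_113_s : ∃ t, chk3 f_mm_113_s t 1 1 1 = true :=
  ⟨(l 4), by decide +kernel⟩

theorem c_mm_113_s : CertNE 536870912 536870912 536870912 536870912 818728140 40265320 3 eng mog cd0q1 cd0q1 pd3 true false false .nn 1 1 3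
    ndB0q1 ndB0q1 pcB3 cut_mm_113_s Ext.none :=
  certNE0 (fam := true) (s1 := false) (s2 := false) (a := 1) (b := 1) (c := 3) (cn := .nn) (n1 := ndB0q1) (n2 := ndB0q1) (pc := pcB3) (cut := cut_mm_113_s) (xt := Ext.none) (P1 := 536870912) (W1 := 536870912) (P2 := 536870912) (W2 := 536870912) (P3 := 818728140) (W3 := 40265320) (N0 := 3) (En := eng) (mo := mog) (C1 := cd0q1) (C2 := cd0q1) (C3 := pd3)
    rfl k0_mm_113_s

noncomputable def cut_mm_113_t : Cut := Cut.of [[⟨3, 0, 0, 2845415833⟩]]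

noncomputable def f_mm_113_t : ℕ → ℕ → ℕ → ℕ → Bool := onCell 536870912 536870912 536870912 536870912 818728140 40265320
    (rowNE 3 eng mog cd0q1 cd0q1 pd3 0 true false false .nn 1 1 3 (qsf 536870912 536870912 536870912 536870912 3) ndB0q1 ndB0q1 pcB3 cut_mm_113_t Ext.none)

def k0_mm_113_t : ∃ t, chk3 f_mm_113_t t 1 1 1 = true :=
  ⟨(l 4), by decide +kernel⟩

theorem c_mm_113_t : CertNE 536870912 536870912 536870912 536870912 818728140 40265320 3 eng mog cd0q1 cd0q1 pd3 true false false .nn 1 1 3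
    ndB0q1 ndB0q1 pcB3 cut_mm_113_t Ext.none :=
  certNE0 (fam := true) (s1 := false) (s2 := false) (a := 1) (b := 1) (c := 3) (cn := .nn) (n1 := ndB0q1) (n2 := ndB0q1) (pc := pcB3) (cut := cut_mm_113_t) (xt := Ext.none) (P1 := 536870912) (W1 := 536870912) (P2 := 536870912) (W2 := 536870912) (P3 := 818728140) (W3 := 40265320) (N0 := 3) (En := eng) (mo := mog) (C1 := cd0q1) (C2 := cd0q1) (C3 := pd3)
    rfl k0_mm_113_t

noncomputable def cut_mm_123_s : Cut := Cut.of [[⟨4, 0, 0, 1449551462⟩]]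

noncomputable def f_mm_123_s : ℕ → ℕ → ℕ → ℕ → Bool := onCell 536870912 536870912 0 536870912 818728140 40265320
    (rowNE 3 eng mog cd0q1 cd0q2 pd3 0 true false false .npn 1 2 3 (qsf 536870912 536870912 0 536870912 3) ndB0q1 ndB0q2 pcB3 cut_mm_123_s Ext.none)

def k0_mm_123_s : ∃ t, chk3 f_mm_123_s t 1 1 1 = true :=
  ⟨(l 6), by decide +kernel⟩

theorem c_mm_123_s : CertNE 536870912 536870912 0 536870912 818728140 40265320 3 eng mog cd0q1 cd0q2 pd3 true false false .npn 1 2 3
    ndB0q1 ndB0q2 pcB3 cut_mm_123_s Ext.none :=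
  certNE0 (fam := true) (s1 := false) (s2 := false) (a := 1) (b := 2) (c := 3) (cn := .npn) (n1 := ndB0q1) (n2 := ndB0q2) (pc := pcB3) (cut := cut_mm_123_s) (xt := Ext.none) (P1 := 536870912) (W1 := 536870912) (P2 := 0) (W2 := 536870912) (P3 := 818728140) (W3 := 40265320) (N0 := 3) (En := eng) (mo := mog) (C1 := cd0q1) (C2 := cd0q2) (C3 := pd3)
    rfl k0_mm_123_s

noncomputable def cut_mm_123_t : Cut := Cut.of [[⟨3, 0, 0, 2845415833⟩]]

noncomputable def f_mm_123_t : ℕ → ℕ → ℕ → ℕ → Bool := onCell 536870912 536870912 0 536870912 818728140 40265320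
    (rowNE 3 eng mog cd0q1 cd0q2 pd3 0 true false false .npn 1 2 3 (qsf 536870912 536870912 0 536870912 3) ndB0q1 ndB0q2 pcB3 cut_mm_123_t Ext.none)

def k0_mm_123_t : ∃ t, chk3 f_mm_123_t t 1 1 1 = true :=
  ⟨(a (l 5) (l 4)), by decide +kernel⟩

theorem c_mm_123_t : CertNE 536870912 536870912 0 536870912 818728140 40265320 3 eng mog cd0q1 cd0q2 pd3 true false false .npn 1 2 3
    ndB0q1 ndB0q2 pcB3 cut_mm_123_t Ext.none :=
  certNE0 (fam := true) (s1 := false) (s2 := false) (a := 1) (b := 2) (c := 3) (cn := .npn) (n1 := ndB0q1) (n2 := ndB0q2) (pc := pcB3) (cut := cut_mm_123_t) (xt := Ext.none) (P1 := 536870912) (W1 := 536870912) (P2 := 0) (W2 := 536870912) (P3 := 818728140) (W3 := 40265320) (N0 := 3) (En := eng) (mo := mog) (C1 := cd0q1) (C2 := cd0q2) (C3 := pd3)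
    rfl k0_mm_123_t

noncomputable def cut_mm_202_s : Cut := Cut.of [[⟨4, 0, 0, 1449551462⟩], [⟨0, 1, 0, 67108864⟩, ⟨1, 0, 0, 67108864⟩, ⟨2, 1, 0, 67108864⟩]]

noncomputable def f_mm_202_s : ℕ → ℕ → ℕ → ℕ → Bool := onCell 0 536870912 0 536870912 818728140 40265320
    (rowNE 3 eng mog cd0q2 cd0q0 pd2 0 true false false .pp 2 0 2 (qsf 0 536870912 0 536870912 2) ndB0q2 ndB0q0 pcB2 cut_mm_202_s Ext.none)

def k0_mm_202_s : ∃ t, chk3 f_mm_202_s t 1 1 1 = true :=
  ⟨(l 6), by decide +kernel⟩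

theorem c_mm_202_s : CertNE 0 536870912 0 536870912 818728140 40265320 3 eng mog cd0q2 cd0q0 pd2 true false false .pp 2 0 2
    ndB0q2 ndB0q0 pcB2 cut_mm_202_s Ext.none :=
  certNE0 (fam := true) (s1 := false) (s2 := false) (a := 2) (b := 0) (c := 2) (cn := .pp) (n1 := ndB0q2) (n2 := ndB0q0) (pc := pcB2) (cut := cut_mm_202_s) (xt := Ext.none) (P1 := 0) (W1 := 536870912) (P2 := 0) (W2 := 536870912) (P3 := 818728140) (W3 := 40265320) (N0 := 3) (En := eng) (mo := mog) (C1 := cd0q2) (C2 := cd0q0) (C3 := pd2)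
    rfl k0_mm_202_s

end Pool.Agent.Strip051.G.I7625_8000.Tab.CS.BA00

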