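import Pool.Agent.Strip051.G.I7625_8000.Tab
import Pool.Agent.Strip051.PB.StripB

/-! # Strips, near vertex: certificates 4 (generated) -/

set_option linter.all false
set_option maxRecDepth 100000

namespace Pool.Agent.Strip051.G.I7625_8000.Tab.CS.BA00

open Pool.Agent.Strip051.PB Pool.Agent.Strip051.PB.T
open Pool.Agent.Strip051.G.I7625_8000.Tab

noncomputable def cut_mm_202_t : Cut := Cut.of [[⟨3, 0, 0, 2845415833⟩], [⟨0, 1, 0, 67108864⟩, ⟨1, 0, 0, 67108864⟩, ⟨2, 1, 0, 67108864⟩]]

noncomputable def f_mm_202_t : ℕ → ℕ → ℕ → ℕ → Bool := onCell 0 536870912 0 536870912 818728140 40265320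
    (rowNE 3 eng mog cd0q2 cd0q0 pd2 0 true false false .pp 2 0 2 (qsf 0 536870912 0 536870912 2) ndB0q2 ndB0q0 pcB2 cut_mm_202_t Ext.none)

def k0_mm_202_t : ∃ t, chk3 f_mm_202_t t 2 2 1 = true :=
  ⟨(b (b (l 6) (a (l 6) (a (l 6) (a (l 6) (b (b (l 6) (a (l 6) (l 16538440))) (b (a (l 16537104) (l 16552736)) (a (l 16551912) (l 16567560)))))))) (a (b (l 6) (a (l 6) (b (l 6) (a (l 6) (l 16589752))))) (b (b (a (l 6) (a (b (l 16545968) (l 16563168)) (b (a (l 16567760) (l 16583384)) (b (l 16588296) (l 16597192))))) (a (a (l 6) (b (l 16554848) (l 16573064))) (b (a (l 16581312) (b (l 16606248) (l 16615296))) (a (l 16599448) (b (l 16624312) (l 16633288)))))) (a (b (a (b (l 16567728) (l 16585384)) (b (l 16591096) (l 16608824))) (a (l 16569048) (b (l 16626128) (l 16642872)))) (b (a (b (l 16617400) (l 16635064)) (b (a (l 16638920) (l 16654320)) (a (l 16656496) (l 16671824)))) (b (a (l 16652320) (a (l 16673680) (l 16688928))) (a (l 16669040) (c (l 16656560) (l 16655488))))))))), by decide +kernel⟩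

def k1_mm_202_t : ∃ t, chk3 f_mm_202_t t 6 8 1 = true :=
  ⟨(a (b (a (l 6) (a (l 6) (b (b (l 6) (l 16528792)) (b (l 16516376) (l 16524912))))) (b (a (l 6) (a (b (l 16537800) (l 16525040)) (b (l 16533384) (l 16541768)))) (a (a (l 6) (l 16541312)) (a (b (l 16554120) (l 16562128)) (b (l 16560552) (a (l 16574888) (l 16583488))))))) (b (b (a (a (b (a (l 16532200) (l 16540256)) (c (l 16548128) (l 16541712))) (b (b (l 16571272) (l 16575712)) (c (l 16564272) (l 16558440)))) (a (b (c (l 16592544) (l 16587640)) (c (l 16601640) (l 16596664))) (b (a (c (l 16583904) (l 16579856)) (c (l 16592312) (l 16588912))) (c (a (l 16593144) (l 16601656)) (a (l 16589016) (l 16598168)))))) (a (a (b (a (l 16549544) (l 16557768)) (c (l 16565552) (l 16559104))) (b (c (l 16573168) (l 16567296)) (c (l 16582048) (l 16576176)))) (a (b (c (l 16589744) (l 16605704)) (c (l 16598808) (l 16614752))) (b (c (a (l 16602376) (l 16610992)) (a (l 16598192) (l 16607424))) (c (a (l 16611584) (l 16620296)) (a (l 16607376) (l 16616696)))))))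 (a (b (a (b (c (l 16574200) (l 16567792)) (c (l 16582736) (l 16576424))) (b (c (l 16590888) (l 16585048)) (c (l 16599664) (l 16593904)))) (a (b (c (l 16591160) (l 16585000)) (a (l 16592152) (l 16579920))) (b (c (l 16608328) (l 16602688)) (c (l 16616848) (l 16611408))))) (a (b (b (c (l 16628824) (l 16623816)) (c (l 16637824) (l 16606656))) (b (c (l 16646752) (l 16615672)) (c (l 16655544) (l 16627896)))) (b (b (c (a (l 16620776) (l 16629592)) (a (l 16616568) (l 16625976))) (c (a (l 16629944) (l 16638872)) (a (l 16625768) (l 16635272)))) (b (c (c (l 16665488) (l 16663656)) (b (l 16658432) (l 16663040))) (c (b (l 16671392) (l 16675896)) (c (l 16670896) (l 16668936))))))))), by decide +kernel⟩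

def k2_mm_202_t : ∃ t, chk3 f_mm_202_t t 6 18 1 = true :=
  ⟨(b (a (a (a (l 16540024) (l 16556776)) (a (l 16566056) (b (l 16587288) (l 16595216)))) (a (a (b (a (l 16600368) (l 16598736)) (l 16607728)) (b (c (l 16646168) (l 16609592)) (c (l 16633312) (l 16628728)))) (c (a (b (a (l 16638640) (l 16647728)) (c (l 16673600) (l 16650688))) (a (b (l 16656928) (l 16665640)) (b (l 16666256) (l 16675120)))) (a (b (a (l 16633944) (l 16643440)) (c (l 16648616) (l 16667392))) (b (c (l 16679960) (l 16657104)) (a (l 16651568) (l 16692984))))))) (a (a (a (l 16554712) (l 16555968)) (a (b (l 16585352) (l 16592856)) (b (l 16602992) (l 16610680)))) (a (a (b (a (l 16616384) (l 16625464)) (a (l 16624232) (l 16633424))) (b (c (l 16641232) (l 16637288)) (b (l 16666392) (l 16670456)))) (a (b (c (l 16659904) (l 16656296)) (a (l 16682656) (l 16681856))) (b (c (a (l 16695104) (l 16694280)) (a (l 16668336) (b (l 16678752) (l 16683232)))) (a (c (l 16682496) (l 16679832)) (c (l 16692336) (l 16689984)))))))), by decide +kernel⟩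

def k3_mm_202_t : ∃ t, chk3 f_mm_202_t t 6 19 1 = true :=
  ⟨(a (b (a (a (l 16569168) (b (l 16582704) (l 16590056))) (a (b (l 16600360) (l 16607864)) (c (l 16644328) (l 16610552)))) (a (a (l 16584016) (b (l 16597512) (l 16605136))) (a (b (l 16615392) (l 16623048)) (b (l 16633720) (l 16662480))))) (a (a (b (c (b (l 16638056) (l 16645656)) (b (l 16635376) (l 16643600))) (c (b (l 16653288) (l 16660960)) (b (l 16651824) (l 16660048)))) (b (c (b (l 16656904) (l 16685736)) (b (l 16654208) (l 16662648))) (b (a (l 16666968) (l 16697736)) (c (l 16701592) (l 16700512))))) (b (a (b (a (l 16690992) (c (l 16681000) (l 16678600))) (a (l 16688840) (c (l 16689240) (l 16687328)))) (b (c (a (l 16690864) (l 16700872)) (a (l 16688688) (l 16698968))) (a (c (l 16699264) (l 16697544)) (c (l 16709432) (l 16707944))))) (c (a (a (b (l 16687456) (l 16695632)) (b (l 16697512) (l 16705848))) (b (a (l 16707704) (b (l 16715880) (l 16720200))) (a (l 16726688) (b (l 16724536) (l 16728888))))) (a (b (a (l 16685920) (l 16696064))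 (a (l 16694544) (l 16704808))) (a (b (l 16706400) (l 16725752)) (b (c (l 16717216) (l 16716624)) (b (l 16723664) (l 16728168))))))))), by decide +kernel⟩

def k4_mm_202_t : ∃ t, chk3 f_mm_202_t t 28 16 1 = true :=
  ⟨(b (a (b (a (b (l 16618128) (l 16601856)) (b (l 16622024) (l 16632016))) (c (a (l 16610312) (l 16640216)) (a (l 16607504) (l 16638088)))) (b (a (b (c (l 16616608) (l 16615224)) (c (l 16621432) (l 16619976))) (b (c (l 16626432) (l 16625544)) (c (l 16631296) (l 16630328)))) (a (c (b (l 16626248) (l 16631064)) (b (l 16624736) (l 16629488))) (c (b (l 16636160) (l 16641016)) (b (l 16635120) (l 16639920)))))) (a (b (c (a (l 16619744) (l 16628776)) (a (l 16616856) (l 16626552))) (c (a (l 16629160) (l 16638288)) (a (l 16626216) (l 16636000)))) (b (a (c (b (l 16635880) (l 16640688)) (b (l 16634248) (l 16639008))) (c (b (l 16645872) (l 16650712)) (b (l 16644712) (l 16649512)))) (a (c (b (l 16645488) (l 16650280)) (b (l 16643776) (l 16648544))) (c (b (l 16655552) (l 16660392)) (b (l 16654312)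 (l 16659112))))))), by decide +kernel⟩

def k5_mm_202_t : ∃ t, chk3 f_mm_202_t t 29 16 1 = true :=
  ⟨(b (a (b (a (b (l 14) (c (l 16652152) (l 16651560))) (l 14)) (a (b (c (l 16657048) (l 16635744)) (c (l 16651448) (l 16650728))) (a (b (c (l 16654648) (l 16654208)) (c (l 16659560) (l 16659064))) (b (l 14) (c (l 16665120) (l 16664744)))))) (b (l 14) (b (l 14) (a (a (b (l 14) (l 16671840)) (l 14)) (l 14))))) (b (a (a (c (b (l 16656336) (l 16661216)) (b (l 16655560) (l 16660392))) (c (b (l 16667264) (l 16672176)) (b (l 16666768) (l 16682120)))) (a (b (c (b (l 16687856) (l 16690328)) (b (l 16687592) (l 16690032))) (c (a (l 16680656) (l 16686440)) (a (l 16680280) (l 16686152)))) (b (l 14) (a (c (l 16702816) (l 16697352)) (b (l 14) (a (l 16697928) (l 16700952))))))) (a (a (c (b (l 16666096) (l 16670968)) (b (l 16665224) (l 16670064))) (c (b (l 16687568) (l 16692472)) (b (l 16686992) (l 16691856)))) (a (b (c (a (l 16685584) (l 16691384)) (a (l 16685168) (l 16691056))) (c (a (l 16690504) (l 16696320))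 (a (l 16690056) (l 16695960)))) (b (a (c (l 16697280) (l 16697032)) (c (l 16708520) (b (l 16701840) (l 16704304)))) (c (c (l 16715816) (l 16710408)) (a (l 16701944) (l 16713248)))))))), by decide +kernel⟩

def k6_mm_202_t : ∃ t, chk3 f_mm_202_t t 28 17 1 = true :=
  ⟨(a (b (a (b (c (l 16638552) (l 16635584)) (b (l 16665088) (l 16669768))) (b (c (l 16668752) (l 16655944)) (c (l 16678224) (l 16644424)))) (b (c (a (l 16678248) (l 16679816)) (a (l 16675304) (b (l 16662000) (l 16666736)))) (a (c (l 16687536) (l 16674168)) (c (b (l 16673760) (l 16678448)) (b (l 16671456) (l 16676176)))))) (b (b (a (c (b (l 16655072) (l 16659856)) (b (l 16653304) (l 16658072))) (c (b (l 16665224) (l 16670048)) (b (l 16663920) (l 16668720)))) (a (c (b (l 16664640) (l 16669416)) (b (l 16662840) (l 16667616))) (c (b (l 16674864) (l 16679680)) (b (l 16673528) (l 16678336))))) (b (a (c (b (l 16674184) (l 16678944)) (b (l 16672384) (l 16677152))) (c (b (l 16684488) (l 16689288)) (b (l 16683136) (l 16687944)))) (a (c (b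 (l 16683696) (l 16688440)) (b (l 16681920) (l 16686688))) (c (c (l 16707312) (l 16706648)) (b (l 16692744) (l 16708040))))))), by decide +kernel⟩

def k7_mm_202_t : ∃ t, chk3 f_mm_202_t t 29 34 1 = true :=
  ⟨(b (a (a (c (b (l 16675832) (l 16680696)) (a (l 16666664) (l 16674872))) (c (b (l 16697368) (l 16702256)) (b (l 16691480) (c (l 16691264) (l 16690960))))) (a (a (c (b (l 16695424) (l 16700336)) (b (l 16694952) (l 16699840))) (b (c (l 16701256) (l 16700864)) (c (l 16706176) (l 16705776)))) (b (c (a (l 16707176) (l 16713192)) (c (l 16715216) (l 16710352))) (a (c (l 16712112) (l 16711784)) (c (l 16728624) (c (l 16717928) (l 16717824))))))) (a (a (c (b (l 16685544) (l 16690392)) (b (l 16684576) (l 16699904))) (c (b (l 16701896) (a (l 16698696) (l 16704368))) (b (c (l 16696136) (l 16695824)) (c (l 16701008) (l 16700688))))) (a (b (c (b (l 16717424) (l 16719880)) (a (l 16704736) (l 16710680))) (c (b (l 16722336) (l 16724784)) (c (l 16723208) (l 16712512)))) (c (b (a (l 16717048) (l 16728328))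 (a (l 16732456) (l 16731952))) (a (b (l 16721944) (l 16725552)) (b (c (l 16722864) (l 16722752)) (c (l 16727800) (l 16727680)))))))), by decide +kernel⟩

def k8_mm_202_t : ∃ t, chk3 f_mm_202_t t 29 35 1 = true :=
  ⟨(a (b (a (c (b (l 16695240) (l 16710560)) (b (l 16704744) (l 16709576))) (b (c (a (l 16703560) (l 16709248)) (c (l 16705880) (l 16705560))) (c (a (l 16708424) (l 16714120)) (b (l 16719848) (l 16722288))))) (a (c (b (l 16715384) (l 16720208)) (b (l 16710488) (c (l 16709000) (l 16708536)))) (b (c (a (l 16713272) (l 16718992)) (c (l 16715616) (l 16715296))) (c (b (l 16730256) (l 16732680)) (c (l 16720480) (l 16720168)))))) (b (a (c (b (c (l 16723352) (l 16723096)) (a (l 16719920) (l 16736304))) (a (b (l 16714512) (l 16719408)) (b (l 16725736) (l 16729488)))) (b (a (c (l 16732128) (c (l 16726624) (l 16726472))) (c (c (l 16733032) (l 16732872)) (c (l 16732736) (l 16732616)))) (c (a (c (l 16731896) (l 16731712)) (c (l 16737952) (l 16737800))) (a (c (l 16731536) (l 16731392)) (c (l 16737664)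 (l 16737544)))))) (a (c (a (b (l 16724800) (l 16740160)) (b (l 16735952) (l 16739528))) (a (b (l 16729536) (l 16733120)) (b (c (l 16730392) (l 16730208)) (c (l 16735296) (l 16735112))))) (c (a (b (c (l 16736792) (l 16736616)) (c (l 16741688) (l 16741520))) (b (c (l 16742864) (l 16742720)) (b (l 16746472) (l 16754168)))) (b (a (c (l 16736456) (l 16736304)) (c (l 16742592) (l 16743952))) (a (c (l 16741368) (l 16743848)) (c (l 16749488) (b (l 16746176) (l 16748640))))))))), by decide +kernel⟩

def k9_mm_202_t : ∃ t, chk3 f_mm_202_t t 15 16 1 = true :=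
  ⟨(a (b (l 14) (a (b (l 14) (a (a (b (c (b (l 16708096) (l 16710584)) (c (l 16709216) (l 16709168))) (c (l 16724800) (c (l 16714168) (l 16714104)))) (b (a (c (l 16713936) (l 16713808)) (l 14)) (c (b (l 16719216) (l 16721704)) (b (l 16719080) (l 16721560))))) (b (l 14) (b (a (c (l 16725416) (l 16730552)) (l 14)) (a (c (l 16733152) (c (l 16727816) (l 16727784))) (c (l 16737448) (c (l 16734104) (l 16734080)))))))) (l 14))) (l 14)), by decide +kernel⟩

def k10_mm_202_t : ∃ t, chk3 f_mm_202_t t 60 34 1 = true :=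
  ⟨(b (a (b (a (c (l 16724528) (c (l 16719120) (l 16719048))) (c (c (l 16725496) (l 16725392)) (c (l 16725312) (l 16725256)))) (a (c (c (l 16724312) (l 16724184)) (c (l 16724072) (l 16723984))) (c (c (l 16730472) (l 16730360)) (c (l 16730272) (l 16730208))))) (c (b (a (c (l 16731704) (l 16731616)) (b (c (l 16736712) (l 16736640)) (l 16744416))) (a (c (l 16736688) (l 16736600)) (b (l 16746912) (l 16746784)))) (b (a (c (l 16731552) (l 16731512)) (b (c (l 16736600) (l 16736568)) (c (l 16739088) (l 16739064)))) (b (a (l 16740496) (c (l 16741584) (l 16741552))) (a (l 16740360) (c (l 16744080) (l 16744048))))))) (c (a (b (a (c (l 16729272) (l 16729136)) (c (l 16735440) (l 16735328))) (a (c (l 16734216) (l 16734080)) (c (l 16740392) (l 16740288)))) (b (a (b (l 16745616) (l 16748096)) (b (c (l 16746696) (l 16746624)) (c (l 16749184) (l 16749120)))) (b (a (l 16747960) (c (l 16751680) (l 16751616))) (a (c (l 16747872) (l 16747784)) (c (l 16756784) (l 16756728)))))) (a (a (b (c (l 16729024) (l 16728928))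 (c (l 16733968) (l 16733872))) (b (c (l 16735232) (l 16735160)) (c (l 16740200) (l 16741512)))) (b (c (a (l 16742816) (b (l 16746576) (l 16749064))) (a (b (l 16740200) (l 16742688)) (b (l 16746536) (l 16751648)))) (a (a (c (l 16744896) (l 16744832)) (c (l 16748048) (l 16748000))) (a (b (l 16752568) (l 16752440)) (b (l 16753376) (c (l 16755640) (l 16755608))))))))), by decide +kernel⟩

def k11_mm_202_t : ∃ t, chk3 f_mm_202_t t 61 68 1 = true :=
  ⟨(a (b (a (b (a (c (l 16741408) (l 16741336)) (l 14)) (c (c (l 16748152) (l 16745480)) (c (l 16747408) (a (l 16743824) (l 16747016))))) (l 14)) (b (a (a (c (l 16746408) (l 16746328)) (c (l 16752216) (c (l 16749536) (l 16749520)))) (a (c (c (l 16752808) (l 16752768)) (c (l 16752744) (l 16752728))) (c (c (l 16756016) (l 16755984)) (c (l 16755960) (l 16757264))))) (a (a (c (l 16748912) (l 16751448)) (c (l 16752096) (l 16752232))) (c (a (l 16755296) (c (l 16758528) (l 16758496))) (a (c (l 16755248) (l 16755232)) (c (l 16758472) (b (l 16757832) (l 16759088))))))))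 (a (b (l 14) (b (l 14) (b (a (a (c (l 16760296) (l 16760264)) (l 14)) (l 14)) (a (c (c (l 16762376) (l 16762352)) (c (l 16762336) (l 16763640))) (a (a (c (l 16764384) (l 16764360)) (l 14)) (l 14)))))) (l 14))), by decide +kernel⟩

def k12_mm_202_t : ∃ t, chk3 f_mm_202_t t 122 69 1 = true :=
  ⟨(a (a (b (b (c (l 16751408) (l 16751328)) (c (l 16753904) (c (l 16753840) (l 16753816)))) (c (b (l 16756400) (l 16761520)) (b (c (l 16756336) (l 16756312)) (c (l 16758840) (l 16758808))))) (b (c (b (l 16754600) (l 16757096)) (b (c (l 16754544) (l 16754520)) (c (l 16757040) (l 16757024)))) (c (b (c (l 16759616) (l 16759576)) (c (l 16762112) (l 16762072))) (b (c (l 16759544) (l 16760832)) (c (l 16762048) (c (l 16762032) (l 16762016))))))) (a (b (c (b (l 16759768) (c (l 16760320) (l 16760288))) (b (c (l 16757752) (l 16757736)) (c (l 16760256) (l 16761552)))) (b (c (c (l 16762824) (l 16762792)) (c (l 16764072) (c (l 16762752) (l 16764056)))) (b (c (l 16767296) (c (l 16764640) (l 16765936))) (c (c (l 16765944)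 (l 16765912)) (c (l 16765896) (l 16766864)))))) (c (b (b (c (l 16761032) (l 16761000)) (c (l 16766160) (l 16766128))) (b (c (b (l 16765416) (l 16766664)) (a (l 16765208) (l 16766824))) (a (b (l 16767096) (l 16768344)) (b (l 16768712) (l 16769960))))) (b (c (b (l 16760984) (l 16764632)) (b (c (l 16760968) (l 16760968)) (c (l 16764792) (l 16764784)))) (a (c (b (l 16765184) (l 16769000)) (b (l 16765824) (b (l 16767056) (l 16768304)))) (b (c (l 16766808) (c (l 16766800) (l 16768104))) (c (b (l 16768688) (l 16769936)) (b (l 16768672) (l 16770584))))))))), by decide +kernel⟩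

def k13_mm_202_t : ∃ t, chk3 f_mm_202_t t 246 138 1 = true :=
  ⟨(a (c (c (b (l 16765568) (a (l 16765952) (l 16767576))) (b (l 16765544) (a (l 16765936) (l 16767560)))) (b (c (c (l 16764224) (l 16764216)) (a (l 16763400) (l 16765680))) (a (b (l 16765288) (l 16766952)) (c (l 16768856) (b (l 16766904) (l 16768160)))))) (b (c (a (b (l 16766048) (l 16767304)) (b (l 16768984) (l 16770240))) (c (b (a (l 16766032) (l 16767656)) (a (l 16767288) (l 16768920))) (a (b (l 16766024) (l 16767280)) (b (l 16768960) (l 16769568))))) (b (a (c (l 16768560) (c (l 16768544) (l 16768536))) (c (c (l 16770192) (l 16770184)) (c (l 16770176) (c (l 16770168) (l 16770168))))) (a (c (c (l 16769824) (l 16769808)) (c (l 16769800) (l 16770448))) (c (c (l 16771448) (l 16771440)) (c (l 16771432) (c (l 16771424) (l 16771920)))))))), by decide +kernel⟩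

def k14_mm_202_t : ∃ t, chk3 f_mm_202_t t 494 138 1 = true :=
  ⟨(b (b (l 14) (a (c (c (l 16770568) (l 16770560)) (c (l 16771208) (a (l 16770136) (l 16771280)))) (a (b (l 14) (c (l 16772104) (a (l 16771888) (l 16772296)))) (l 14)))) (b (c (b (a (l 16771504) (c (l 16773144) (l 16773136))) (a (l 16772136) (c (l 16773768) (l 16773768)))) (c (a (l 16770496) (b (l 16771824) (l 16772448))) (a (b (l 16772144) (l 16772608)) (c (b (l 16773784) (l 16772448)) (a (l 16773440) (b (l 16773536) (l 16774168))))))) (c (a (c (l 16771440) (l 16771760)) (l 16774712)) (b (c (a (l 16772752) (l 16773080)) (a (c (l 16772752) (l 16773400)) (a (l 16774632) (a (l 16774592) (l 16775000))))) (a (c (l 16773384) (a (l 16772968) (l 16773784))) (c (l 16773712) (a (c (l 16774608) (l 16774608)) (a (l 16774568) (a (l 16775528) (l 16775080)))))))))), by decide +kernel⟩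

def k15_mm_202_t : ∃ t, chk3 f_mm_202_t t 495 138 1 = true :=
  ⟨(b (l 14) (b (b (b (l 14) (a (a (c (l 16774520) (a (l 16774312) (l 16774720))) (l 14)) (l 14))) (a (a (c (l 16773688) (a (b (l 16774624) (l 16774944)) (b (l 16775368) (l 16775352)))) (c (a (l 16774296) (l 16774712)) (c (l 16774504) (a (b (l 16775448) (l 16775768)) (b (l 14) (l 16775848)))))) (a (b (l 14) (c (l 16776792) (a (a (a (l 16776104) (l 16776208)) (l 14)) (l 14)))) (l 14)))) (a (b (c (l 16776032) (c (l 16776032) (c (l 16776032) (a (a (l 16775416) (l 16775168)) (l 16776440))))) (a (c (l 16776256) (c (l 16774944) (c (l 16774936) (c (l 16775592) (a (l 16775392) (l 16775800)))))) (b (c (l 16776904) (a (l 16776712) (a (l 16777056) (b (l 16777304) (a (l 82913001783) (l 4)))))) (a (c (l 16777016) (a (l 16776920) (a (l 16777072) (b (l 16777104) (l 85597356359))))) (a (b (c (l 16777224) (a (l 16777192) (l 128547029335))) (l 4)) (l 4)))))) (a (a (b (c (l 16777648) (b (c (l 16776904) (l 16776904)) (a (a (l 16777064) (b (l 16777088)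 (l 71101841751))) (b (a (l 16777184) (l 118883352903)) (l 4))))) (c (l 198877118983) (c (l 204245828087) (c (l 208540795383) (b (l 207467053383) (l 4)))))) (b (b (c (l 16777656) (b (a (a (l 16777080) (l 16777336)) (l 14)) (a (a (l 66806874439) (l 176865411367)) (l 4)))) (l 4)) (l 4))) (l 4))))), by decide +kernel⟩

def k16_mm_202_t : ∃ t, chk3 f_mm_202_t t 246 139 2 = true :=
  ⟨(b (b (a (a (l 16767824) (l 16769448)) (a (c (l 16771080) (l 16771064)) (c (l 16771392) (l 16770072)))) (a (a (l 16769080) (a (l 16770296) (l 16771104))) (a (c (l 16772328) (l 16772320)) (b (l 16772328) (l 16772960))))) (b (a (a (l 16768360) (a (l 16771544) (l 16772360))) (a (c (l 16771616) (l 16772264)) (l 16775208))) (a (a (c (l 16771584) (l 16771576)) (c (l 16771896) (l 16770576))) (a (l 16774832) (a (l 16776056) (a (l 16777144) (b (l 16776760) (l 85597357303)))))))), by decide +kernel⟩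

def k17_mm_202_t : ∃ t, chk3 f_mm_202_t t 246 139 3 = true :=
  ⟨(b (b (a (c (a (l 16767800) (l 16769424)) (a (l 16767792) (l 16770728))) (a (c (l 16771056) (c (l 16771048) (l 16771704))) (a (b (l 16771960) (l 16773248)) (b (l 16773112) (a (l 16773208) (l 16773616)))))) (a (c (a (l 16769056) (l 16770680)) (a (l 16769048) (c (l 16770680) (l 16770672)))) (a (c (l 16771000) (a (l 16772552) (a (l 16772512) (l 16772920)))) (b (c (l 16773632) (a (l 16773216) (l 16774040))) (c (l 16772952) (c (l 16772944) (a (l 16773848) (l 16774664)))))))) (c (a (a (b (l 16770312) (l 16771568)) (b (l 16769320) (a (l 16772784) (l 16773600)))) (a (b (c (l 16773568) (l 16772256)) (c (l 16772208) (l 16773184))) (a (b (l 16773480) (l 16776048)) (b (l 16774304) (a (l 16776656) (b (l 16776760) (l 87207969223))))))) (a (a (b (l 16770872) (c (l 16771560) (l 16772208))) (a (b (l 16771528) (c (l 16772784) (l 16772776))) (b (l 16772992) (b (l 16773280) (l 16773912))))) (b (a (a (b (l 16772840) (l 16773472)) (b (l 16773656)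 (l 16773632))) (a (c (l 16773480) (b (l 16774480) (l 16774448))) (a (b (l 16775088) (l 16775064)) (c (l 16774504) (b (l 16775504) (l 16775472)))))) (b (c (a (l 16773200) (l 16776144)) (a (a (l 16774096) (l 16774264)) (a (c (l 16774424) (l 16775080)) (l 16776552)))) (a (a (a (l 16774520) (l 16774928)) (a (l 16774688) (l 16775096))) (a (l 16776320) (a (a (l 16776872) (b (l 16776920) (b (l 16777152) (l 127473287511)))) (b (a (c (l 16777120) (l 16777280)) (b (l 74859938183) (l 4))) (l 208540795223)))))))))), by decide +kernel⟩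

def k18_mm_202_t : ∃ t, chk3 f_mm_202_t t 494 278 1 = true :=
  ⟨(a (c (c (c (l 16774960) (l 16774960)) (c (l 16774960) (l 16774960))) (c (b (a (l 16772608) (l 16773424)) (l 16775584)) (a (b (b (l 16773600) (a (l 16774024) (l 16774432))) (a (b (l 16774648) (l 16774624)) (b (l 16775064) (l 16775032)))) (b (c (l 16773424) (b (l 16774416) (l 16774312))) (b (a (l 16774816) (a (l 16775120) (l 16775328))) (c (l 16774992) (a (l 16775448) (l 16775856)))))))) (b (a (c (l 16775560) (c (l 16774240) (a (b (l 16775032) (l 16775008)) (c (l 16774448) (b (l 16775440) (l 16775416)))))) (c (c (l 16776376) (l 16776368)) (c (l 16776536) (b (c (l 16774752) (a (l 16775200) (l 16775608))) (b (l 16776528) (b (l 16776768) (a (l 16776064) (a (l 16777024) (a (l 16777176) (l 111367160119)))))))))) (a (c (a (l 16776928) (b (l 16776704) (l 72175584503))) (b (c (l 16776496) (c (l 16776496) (l 16776496))) (c (a (l 16776912) (a (l 16777824) (l 109756548023))) (a (b (l 16776768) (b (l 16777000) (a (l 16777056) (l 78618034567))))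 (a (b (l 16777064) (b (l 115662127479) (l 4))) (b (b (l 16777344) (l 147874382215)) (l 4))))))) (b (c (a (l 16777736) (l 115662128407)) (c (a (l 16777736) (l 119957095527)) (b (a (l 16777032) (b (a (l 16777336) (l 184918475095)) (l 197266505975))) (a (a (a (l 16777112) (b (l 16777136) (l 126936416551))) (b (l 101166612887) (l 4))) (l 4))))) (l 4))))), by decide +kernel⟩

def k19_mm_202_t : ∃ t, chk3 f_mm_202_t t 494 279 1 = true :=
  ⟨(a (a (b (c (c (l 16776424) (l 16776424)) (c (l 16776672) (b (c (l 16774808) (a (l 16775256) (l 16775664))) (a (l 16776536) (b (l 16776792) (b (l 16777024) (a (l 16777080) (l 98482258311)))))))) (b (c (a (l 16777784) (l 126399546711)) (c (a (l 16777776) (l 134989481047)) (b (a (a (l 16776912) (l 16777312)) (a (b (l 69491229031) (l 4)) (l 4))) (a (b (a (l 16777136) (l 143042544007)) (a (l 111367160183) (l 4))) (l 4))))) (l 4))) (b (a (b (c (l 16776728) (c (l 16776728) (l 16776728))) (c (l 77007422759) (b (c (l 16777168) (a (l 16777256) (b (l 56069456263) (l 180086636887))))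 (c (l 156464317143) (c (l 161296155303) (l 202635215159)))))) (b (c (l 16777760) (c (l 16777752) (b (c (l 16776976) (l 16777144)) (b (a (l 16777112) (l 128547029351)) (a (l 90966065527) (l 4)))))) (l 4))) (l 4))) (a (a (a (b (b (b (c (l 16777240) (b (a (l 16777160) (l 98482258215)) (l 157538058647))) (l 4)) (l 4)) (l 4)) (l 4)) (l 4)) (l 4))), by decide +kernel⟩

def k20_mm_202_t : ∃ t, chk3 f_mm_202_t t 495 139 1 = true :=
  ⟨(a (b (b (a (c (a (b (l 16776680) (c (l 65196262535) (l 65196262535))) (b (l 16777712) (l 204782699031))) (c (a (b (l 16776672) (a (l 16777160) (l 102777226135))) (b (l 16777712) (l 213372633623))) (b (a (l 16776672) (b (l 16776928) (a (a (l 16777088) (b (l 16777112) (l 100092870951))) (a (b (l 16777200) (l 4)) (l 163443638711))))) (a (a (b (l 16777040) (a (b (l 16777208) (l 4)) (l 170422960583))) (b (b (l 16777160) (l 133915738471)) (l 4))) (b (l 214983246183) (l 4)))))) (b (a (c (l 107072193863) (b (c (l 16777584) (a (b (l 16777152) (l 117809611143)) (l 203172086007)))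 (l 4))) (l 4)) (l 4))) (l 4)) (l 4)) (l 4)), by decide +kernel⟩

def k21_mm_202_t : ∃ t, chk3 f_mm_202_t t 120 35 1 = true :=
  ⟨(a (c (b (b (c (l 16739152) (l 16739024)) (b (l 16748032) (l 16745256))) (b (b (l 16750344) (c (l 16750240) (l 16750128))) (a (c (l 16752376) (l 16752272)) (b (l 16754192) (l 16756656))))) (b (b (c (l 16738912) (l 16741600)) (c (l 16746480) (b (l 16742528) (l 16745000)))) (b (a (c (l 16747240) (l 16747144)) (c (l 16750360) (l 16750272))) (a (c (l 16752176) (l 16754704)) (b (l 16754024) (c (l 16756528) (l 16756456))))))) (c (b (b (b (l 16749296) (l 16746528)) (a (b (l 16747440) (l 16749912)) (c (l 16751840) (l 16751752)))) (b (a (c (l 16753656) (l 16753568)) (b (l 16755504) (l 16757968))) (b (a (l 16757312) (l 16760440)) (a (l 16759768) (c (l 16762936) (l 16762880)))))) (b (c (b (l 16746792) (b (l 16748872) (l 16751344))) (b (b (l 16743840) (l 16746320)) (b (l 16748800) (l 16753896)))) (b (a (b (l 16754832) (l 16754688)) (c (l 16758272) (b (l 16755328) (l 16757816))))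 (a (b (c (l 16757200) (l 16757136)) (c (l 16759672) (l 16759616))) (b (c (l 16760352) (l 16760296)) (c (l 16762824) (l 16764088)))))))), by decide +kernel⟩

def k22_mm_202_t : ∃ t, chk3 f_mm_202_t t 242 35 1 = true :=
  ⟨(c (b (b (a (c (l 16750016) (l 16749936)) (c (l 16753160) (l 16753088))) (a (b (l 16753688) (l 16756168)) (b (l 16756840) (l 16759320)))) (a (b (b (l 16758640) (l 16763736)) (b (c (l 16763608) (l 16763560)) (c (l 16768696) (l 16768656)))) (a (b (b (l 16761000) (l 16763480)) (b (l 16768576) (b (l 16767800) (l 16769040)))) (b (b (l 16762584) (l 16765056)) (b (b (l 16766912) (l 16768152)) (c (l 16770024) (l 16769992))))))) (b (b (a (c (l 16749864) (l 16751768)) (b (l 16754376) (l 16754568))) (c (a (l 16756144) (b (l 16756752) (l 16759240))) (a (b (l 16753528) (l 16756016)) (b (l 16756704) (l 16759192))))) (c (b (a (b (l 16758552) (l 16761032)) (b (l 16761720) (l 16764208))) (a (b (l 16763512) (a (l 16765200) (l 16766784))) (a (b (l 16765896) (l 16768376)) (b (l 16767488) (l 16767344)))))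 (b (a (b (l 16758496) (l 16760984)) (b (l 16762992) (c (l 16764176) (l 16765472)))) (a (b (c (l 16763480) (l 16763464)) (c (l 16765968) (l 16767096))) (b (b (l 16767344) (l 16768592)) (a (b (l 16767728) (l 16768968)) (b (l 16769320) (l 16770568))))))))), by decide +kernel⟩

def k23_mm_202_t : ∃ t, chk3 f_mm_202_t t 243 70 1 = true :=
  ⟨(c (b (a (b (l 16755032) (l 16757520)) (b (l 16758200) (c (l 16760720) (l 16760672)))) (b (a (l 16762624) (c (l 16763200) (l 16763160))) (a (c (l 16762504) (l 16762456)) (c (l 16768304) (l 16768264))))) (b (c (a (b (l 16754952) (l 16757440)) (b (l 16758136) (l 16760632))) (a (b (l 16754904) (l 16757400)) (b (l 16758104) (l 16761904)))) (b (a (c (l 16759928) (l 16759888)) (c (l 16763120) (c (l 16763096) (l 16763088)))) (a (c (l 16762416) (l 16763528)) (c (a (l 16764808) (l 16766416)) (a (l 16764784) (l 16767040))))))), by decide +kernel⟩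

def k24_mm_202_t : ∃ t, chk3 f_mm_202_t t 243 142 1 = true :=
  ⟨(a (b (c (a (l 16764168) (l 16768376)) (c (l 16766216) (c (l 16764880) (l 16766176)))) (c (c (a (l 16766664) (l 16768248)) (a (l 16766624) (l 16768216))) (c (a (l 16766592) (l 16768192)) (a (l 16767872) (b (l 16767544) (l 16768792)))))) (a (b (b (c (l 16766728) (l 16766664)) (c (l 16767968) (l 16768896))) (b (c (l 16769208) (a (l 16768760) (l 16769560))) (c (l 16770448) (a (l 16770000) (l 16771464))))) (b (c (b (l 16768320) (l 16769560)) (c (l 16766280) (b (l 16768256) (l 16769504)))) (b (c (l 16770800) (c (l 16770776) (l 16772064))) (c (l 16769424) (c (l 16772016) (c (l 16772008) (l 16773312)))))))), by decide +kernel⟩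

def k25_mm_202_t : ∃ t, chk3 f_mm_202_t t 243 143 1 = true :=
  ⟨(c (a (a (b (b (l 16768504) (l 16769736)) (b (l 16770976) (l 16769592))) (b (c (l 16768104) (l 16768080)) (b (l 16769944) (l 16771184)))) (b (b (a (l 16769064) (l 16770664)) (l 16773720)) (a (b (l 16772192) (l 16775400)) (b (l 16775760) (a (l 16776584) (b (l 16777040) (l 129083901639))))))) (b (b (a (c (l 16766640) (a (l 16768432) (l 16770040))) (b (c (l 16769528) (a (l 16771328) (l 16771632))) (c (l 16770808) (a (l 16771952) (c (l 16773568) (l 16773560)))))) (a (c (a (l 16769704) (l 16771296)) (a (l 16769680) (c (l 16771288) (l 16771280)))) (a (c (l 16772904) (a (l 16772488) (l 16771984))) (c (l 16771888) (c (l 16773192) (a (l 16772784) (c (l 16774904) (l 16773592)))))))) (c (a (c (b (l 16769128) (l 16770368)) (a (l 16768936) (l 16770544))) (b (l 16774952) (a (l 16772768) (a (l 16776576) (b (l 16777040) (l 136063223223)))))) (b (a (a (l 16772232) (a (l 16772128) (l 16772928))) (c (l 16774864) (a (a (l 16773736) (l 16773224))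 (c (l 16775752) (l 16775744))))) (a (a (c (l 16772176) (l 16772168)) (a (l 16772064) (a (l 16773976) (l 16773064)))) (a (a (b (l 16774672) (l 16773984)) (b (l 16774168) (l 16775440))) (a (b (l 16775296) (b (l 16776744) (a (l 16776856) (a (l 16777144) (l 121567707687))))) (a (b (l 16776880) (a (b (l 16777536) (l 4)) (l 214983246215))) (b (b (l 16777440) (l 134452609735)) (l 4)))))))))), by decide +kernel⟩

def k26_mm_202_t : ∃ t, chk3 f_mm_202_t t 244 70 1 = true :=
  ⟨(b (b (c (a (c (l 16761408) (l 16761368)) (c (l 16767224) (l 16767192))) (c (a (l 16761336) (c (l 16764552) (l 16764544))) (a (l 16762288) (a (l 16763720) (l 16766640))))) (c (a (a (l 16763080) (l 16767296)) (c (c (l 16769728) (l 16769712)) (a (l 16766264) (l 16767872)))) (a (c (l 16765144) (c (l 16763808) (l 16765112))) (a (b (l 16765600) (l 16768160)) (c (l 16767848) (b (l 16767208) (l 16768456))))))) (a (a (b (c (l 16768192) (c (l 16765520) (l 16766808))) (c (b (l 16767432) (l 16768672)) (c (l 16768016) (b (l 16767368) (l 16768616)))))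 (b (c (b (l 16766544) (l 16767792)) (c (l 16767128) (c (l 16767112) (l 16767104)))) (b (c (l 16769032) (a (l 16768584) (l 16769392))) (c (l 16770272) (c (l 16770248) (l 16771544)))))) (c (b (a (b (l 16768144) (l 16769392)) (b (l 16769752) (l 16768376))) (b (a (l 16770632) (l 16770280)) (a (l 16769256) (c (l 16770872) (l 16770864))))) (c (b (c (a (l 16768744) (l 16770352)) (a (l 16768736) (l 16767728))) (a (a (l 16768208) (l 16769016)) (b (l 16772224) (l 16770848)))) (b (a (b (l 16768096) (l 16769344)) (b (l 16769712) (c (l 16770968) (l 16770960)))) (b (a (l 16771248) (b (l 16771904) (l 16773184))) (c (a (l 16771848) (l 16772160)) (a (l 16772496) (a (l 16773056) (l 16772888)))))))))), by decide +kernel⟩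

def k27_mm_202_t : ∃ t, chk3 f_mm_202_t t 245 140 1 = true :=
  ⟨(b (b (a (c (a (l 16766368) (l 16767984)) (c (l 16767144) (c (l 16767136) (l 16768440)))) (a (c (l 16769592) (c (l 16769568) (l 16769560))) (c (c (l 16771216) (l 16771208)) (c (l 16771192) (c (l 16771184) (l 16771840)))))) (a (c (c (l 16768440) (l 16768416)) (c (a (l 16767584) (l 16769200)) (a (l 16767576) (l 16769192)))) (a (c (l 16768880) (c (l 16770824) (c (l 16770816) (l 16770816)))) (c (c (l 16772464) (l 16772456)) (c (l 16769824) (c (l 16771128) (a (l 16772032) (l 16772848)))))))) (b (c (a (a (l 16768864) (l 16767856)) (a (c (l 16772096) (l 16772088)) (c (l 16771096) (l 16771088)))) (a (c (a (l 16768840) (l 16770456)) (a (l 16768824) (l 16771104))) (a (c (l 16772080) (a (l 16771664) (l 16773128))) (c (l 16771736) (a (c (l 16773288) (l 16773288)) (b (l 16773792) (l 16773104))))))) (a (a (c (l 16770112) (c (l 16770088) (l 16771384))) (c (a (l 16771320) (l 16772128)) (c (l 16771704) (c (l 16771704) (l 16772352))))) (c (a (c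 (l 16770728) (l 16770712)) (l 16774960)) (a (c (l 16772016) (a (c (l 16772920) (l 16772912)) (b (l 16773416) (l 16774040)))) (a (c (l 16771928) (b (l 16774232) (l 16774200))) (c (l 16774048) (c (l 16774048) (b (l 16775040) (l 16775016)))))))))), by decide +kernel⟩

def k28_mm_202_t : ∃ t, chk3 f_mm_202_t t 490 141 1 = true :=
  ⟨(b (c (b (a (l 16768736) (a (l 16772568) (l 16770752))) (a (c (l 16772616) (l 16772600)) (c (l 16771600) (l 16771592)))) (c (a (b (l 16771336) (l 16769968)) (b (l 16770336) (l 16772896))) (a (b (c (l 16771328) (l 16771328)) (c (l 16772584) (a (l 16772176) (l 16772984)))) (a (b (l 16773200) (b (l 16773488) (l 16774112))) (b (c (l 16773360) (l 16773352)) (b (l 16774296) (l 16774272))))))) (b (c (b (l 16774352) (l 16774976)) (c (a (l 16772528) (l 16775464)) (a (a (c (l 16773432) (l 16773424)) (b (l 16773928) (l 16774552))) (a (b (l 16773424) (a (l 16775160) (l 16775568))) (c (l 16774552) (b (l 16774896) (l 16775360))))))) (a (c (l 16775096) (c (l 16773288) (b (a (l 16774368)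 (l 16774520)) (c (l 16774088) (a (l 16774992) (l 16775152)))))) (a (c (l 16776312) (c (l 16776304) (c (l 16776304) (b (l 16775336) (l 16776616))))) (b (c (l 16776792) (a (l 16776600) (b (l 16776848) (a (l 16777056) (b (l 16777176) (l 136600093095)))))) (b (c (l 16777840) (c (l 16777672) (a (a (l 16776968) (l 16777480)) (l 188139700487)))) (c (l 124252063063) (a (a (b (l 16777184) (l 153243091335)) (l 4)) (l 4))))))))), by decide +kernel⟩

def k29_mm_202_t : ∃ t, chk3 f_mm_202_t t 491 141 1 = true :=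
  ⟨(a (b (c (c (l 16775296) (l 16775208)) (c (c (l 16775208) (l 16775208)) (b (a (b (l 16773856) (l 16774480)) (b (l 16774016) (a (l 16775096) (l 16775496)))) (c (l 16775832) (b (a (l 16775112) (l 16775264)) (a (l 16775080) (l 16776552))))))) (b (a (c (c (l 16777312) (l 16777312)) (c (b (l 16776368) (l 16777608)) (b (l 16776360) (a (l 16776784) (b (l 16777192) (a (a (l 16777176) (l 96334774759)) (l 175254798823))))))) (a (b (c (l 16776960) (b (l 16776816) (a (l 16777024) (b (l 16777144) (l 109219676615))))) (c (l 138210706631) (c (l 140358190183) (c (l 190287184263) (b (l 182234120407) (l 4)))))) (b (c (l 84523615479) (c (l 87207969863) (b (a (l 16777112) (a (l 84523614663) (l 155390574999))) (l 206393311559)))) (l 4)))) (a (a (b (c (l 90429195543) (b (c (l 16777200) (a (l 16777136) (l 119420224039))) (l 215520117095))) (l 4)) (l 4)) (l 4)))) (b (a (b (c (l 16775808) (c (l 16774488) (a (b (l 16775280) (l 16775248)) (b (l 16775032) (l 16775656))))) (c (b (l 16776736) (a (l 16777120) (l 125325804871)))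 (a (b (l 16776536) (c (l 16777120) (b (l 16777000) (a (a (l 16777152) (l 81839260087)) (l 152169349655))))) (b (a (l 16776840) (b (l 16776888) (b (l 16777120) (l 87744840135)))) (a (b (b (l 16777368) (l 171496702375)) (l 4)) (l 4)))))) (b (c (c (l 16777256) (l 16777248)) (a (c (l 16776408) (c (l 16776408) (l 16776408))) (b (l 16776504) (c (l 16777088) (b (l 16776968) (a (a (l 16777128) (l 59827552727)) (l 131231384135))))))) (a (b (c (l 75933680919) (b (a (l 16777248) (b (l 16777360) (l 159685542295))) (c (l 16777528) (l 196729635111)))) (l 4)) (l 4)))) (l 4))), by decide +kernel⟩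

def k30_mm_202_t : ∃ t, chk3 f_mm_202_t t 488 142 1 = true :=
  ⟨(a (b (b (c (l 16769920) (a (l 16769472) (l 16771592))) (c (l 16771160) (c (l 16771136) (l 16772016)))) (b (c (l 16769776) (c (l 16772376) (a (l 16771960) (l 16772768)))) (c (c (l 16771024) (l 16771016)) (c (l 16771000) (c (l 16772304) (a (l 16773208) (l 16772704))))))) (b (b (c (l 16768896) (c (l 16771496) (c (l 16771488) (l 16771480)))) (c (l 16770792) (c (l 16772744) (c (l 16772736) (a (l 16772328) (l 16773136)))))) (c (a (l 16774224) (l 16774864)) (c (l 16774616) (a (b (c (l 16773576) (l 16773576)) (b (l 16774512) (l 16773832))) (b (b (l 16774072) (l 16774696)) (b (l 16774008) (l 16774968)))))))), by decide +kernel⟩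

def k31_mm_202_t : ∃ t, chk3 f_mm_202_t t 489 142 1 = true :=
  ⟨(a (b (c (a (b (l 16772720) (l 16771344)) (l 16774144)) (b (c (l 16770488) (c (l 16771792) (a (l 16772688) (l 16773496)))) (c (l 16771736) (a (a (l 16773744) (l 16772832)) (b (l 16774440) (l 16773752)))))) (b (c (l 16775608) (c (l 16775600) (b (a (l 16773568) (l 16774704)) (a (l 16774848) (a (l 16774800) (l 16775864)))))) (a (c (l 16776440) (b (l 16776136) (c (l 16776752) (c (l 16776744) (a (l 16775240) (b (l 16775496) (l 16777424))))))) (c (b (l 16776912) (l 103314097927)) (a (b (l 16776736) (c (l 16777912) (b (a (l 16777096) (l 93650420279)) (l 200487731511)))) (b (b (l 16776984) (a (a (l 16777136) (l 72175583719)) (l 132305126055))) (l 4))))))) (b (b (c (l 16774736) (c (l 16773408) (a (b (l 16774000) (l 16774624)) (b (l 16773496) (l 16774776))))) (c (l 16776216) (c (l 16775968) (c (l 16776128) (a (b (l 16775248) (l 16774560)) (b (l 16775408) (a (l 16775176) (l 16777048)))))))) (a (c (b (c (l 16777760) (l 16777432)) (l 189213442935))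 (c (b (b (l 16776504) (l 16777888)) (l 194582152023)) (b (b (l 16776504) (a (b (l 16776768) (l 16777392)) (b (a (l 16777064) (l 81302389255)) (l 191360925959)))) (b (a (a (b (l 88281711127) (l 4)) (l 4)) (l 4)) (l 4))))) (b (b (c (l 67343745959) (a (b (l 16776952) (a (l 16777472) (a (l 101166613063) (l 170422960631)))) (b (a (a (l 16777512) (l 97408516663)) (l 169349218919)) (l 4)))) (l 4)) (l 4))))), by decide +kernel⟩

def k32_mm_202_t : ∃ t, chk3 f_mm_202_t t 244 143 1 = true :=
  ⟨(a (a (b (b (c (l 16774880) (c (l 16772248) (a (c (l 16774464) (l 16773152)) (b (l 16773648) (l 16774272))))) (c (c (l 16776120) (l 16776112)) (c (l 16776112) (a (b (l 16774088) (l 16775368)) (a (l 16776312) (b (l 16775096) (a (l 16776928) (b (l 16776976) (l 86671098391))))))))) (a (c (b (b (l 16776648) (l 63585650167)) (l 206930183175)) (b (b (c (l 16776648) (l 16776728)) (a (b (l 16776912) (a (l 16777112) (l 97408516759))) (b (a (a (l 16777152) (l 16777472)) (l 144653156967)) (l 4)))) (c (l 213372634087) (b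 (c (l 214983246503) (l 216056988327)) (l 4))))) (b (b (c (l 85060486919) (c (l 88818583015) (a (b (l 16777408) (c (l 16777632) (l 123178320535))) (l 201024602551)))) (l 4)) (l 4)))) (b (a (b (c (l 16776088) (c (l 16776080) (c (l 16776080) (l 16776072)))) (b (c (l 16776976) (c (l 16776976) (a (l 16776808) (b (l 16777048) (a (l 81839260151) (l 182770991607)))))) (a (c (l 16777960) (b (a (l 16777488) (l 124252062343)) (l 4))) (l 4)))) (c (b (b (l 16776576) (l 16777944)) (l 196192764855)) (a (b (c (l 16776672) (b (l 16775056) (c (l 16776976) (b (l 16776840) (l 16777496))))) (c (l 198340248279) (b (c (l 194045280663) (l 195655893399)) (l 4)))) (b (b (l 16776776) (c (l 16777608) (a (b (l 16777128) (l 176328540647)) (l 183844733207)))) (l 4))))) (l 4))) (a (a (b (b (b (c (l 75396810407) (b (a (l 16777264) (a (a (l 81839260183) (l 140895060503)) (l 4))) (a (a (a (l 16777168) (l 87207969303)) (l 152706220663)) (l 4)))) (l 4)) (l 4)) (l 4)) (l 4)) (l 4))), by decide +kernel⟩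

def k33_mm_202_t : ∃ t, chk3 f_mm_202_t t 245 71 1 = true :=
  ⟨(b (a (b (a (b (c (a (l 16775944) (c (l 16777376) (l 16777368))) (c (a (l 16775936) (b (l 16776432) (l 16777664))) (b (c (l 16776024) (l 16776024)) (b (a (l 16775432) (c (l 16776888) (a (l 16775384) (l 16777416)))) (a (l 16775744) (a (l 16777000) (a (l 96334774839) (l 4)))))))) (b (c (a (l 16776856) (l 124252063431)) (c (a (l 16776848) (l 131768255911)) (b (a (l 16776712) (a (a (l 55532584823) (l 154853704215)) (l 4))) (a (a (l 16776824) (a (l 16777120) (l 102777225815))) (l 4))))) (a (a (c (l 16777208) (c (l 16777208) (b (a (l 16777032) (l 61438164887)) (a (l 116735869463) (l 4))))) (c (l 161296155879) (c (l 176865412071) (l 213372633575)))) (l 4)))) (a (b (a (b (c (l 16777016) (b (l 16776888) (a (l 16777088) (b (l 16777192) (l 163443638695))))) (c (l 154853704887) (c (l 162369897479) (c (l 204245828039) (l 205856440775))))) (b (b (c (l 16777224) (c (l 16777224) (a (l 16777496) (l 133378867783)))) (l 4)) (l 4))) (l 4)) (l 4)))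 (l 4)) (l 4)) (l 4)), by decide +kernel⟩

def k34_mm_202_t : ∃ t, chk3 f_mm_202_t t 492 280 1 = true :=
  ⟨(c (b (a (c (l 16770216) (l 16770208)) (a (l 16772736) (l 16773224))) (a (c (l 16772776) (l 16772768)) (l 16775712))) (c (a (b (l 16771512) (a (l 16773664) (l 16771856))) (c (l 16775080) (l 16775072))) (a (a (b (l 16773064) (b (l 16773344) (l 16773976))) (b (c (l 16773224) (l 16773872)) (b (l 16774160) (a (l 16774584) (l 16774992))))) (a (b (b (l 16773720) (l 16773696)) (c (l 16773984) (b (l 16774976) (l 16774784)))) (b (c (l 16773544) (b (l 16774536) (l 16774512))) (b (a (l 16774936) (l 16775344)) (l 16776424))))))), by decide +kernel⟩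

def k35_mm_202_t : ∃ t, chk3 f_mm_202_t t 492 281 1 = true :=
  ⟨(a (c (b (l 16775336) (b (l 16776272) (a (l 16776488) (a (l 16777064) (l 110293419335))))) (c (a (l 16775544) (b (l 16774424) (a (l 16777256) (b (l 16776872) (l 117809611847))))) (a (b (b (l 16773944) (a (l 16775024) (l 16775432))) (b (a (l 16775000) (l 16775408)) (l 16776488))) (b (a (b (l 16775216) (l 16775184)) (b (l 16774968) (l 16775592))) (b (c (l 16776672) (a (l 16775816) (b (l 16776064) (l 16777192)))) (b (a (l 16776936) (b (a (l 16777160) (l 162906767735)) (l 146263769671))) (a (a (l 16777384) (a (l 100092871143) (l 168275476935))) (l 4)))))))) (b (b (c (a (l 16776240) (c (l 16777664) (l 16777664))) (b (c (l 16776480) (a (l 16775424) (b (l 16776816) (a (l 16776112) (a (l 16777072) (l 95797903735)))))) (a (l 16776392) (c (l 51774489591) (a (l 16777160) (a (b (l 16777368) (l 184381604183)) (l 4))))))) (a (c (l 16776848) (c (l 16776840) (b (l 16776704) (a (l 16776816) (a (l 16777272) (a (l 84523614663) (l 155390574999)))))))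 (a (b (c (l 16777248) (c (l 16777248) (a (a (l 16777152) (l 82376130999)) (l 153243091479)))) (l 4)) (l 4)))) (a (b (b (c (l 73249326327) (c (l 72712454663) (a (b (l 16777048) (a (l 16777104) (l 123178320215))) (l 206930182471)))) (a (a (b (c (l 16777232) (l 79154905527)) (l 4)) (l 4)) (l 4))) (l 4)) (l 4)))), by decide +kernel⟩

def k36_mm_202_t : ∃ t, chk3 f_mm_202_t t 492 141 1 = true :=
  ⟨(a (b (b (b (b (a (c (l 16776944) (a (l 16776752) (a (l 16777056) (b (l 16777168) (l 130694513095))))) (a (c (l 16777568) (l 213909504375)) (l 4))) (a (c (l 16777840) (c (l 63048778807) (a (a (l 16776968) (l 16777440)) (c (l 145190027943) (l 189750313223))))) (l 4))) (b (c (l 188676571943) (c (l 192971539223) (a (b (a (a (l 16777184) (l 4)) (l 4)) (l 212298891719)) (l 4)))) (l 4))) (l 4)) (l 4)) (l 4)), by decide +kernel⟩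

def k37_mm_202_t : ∃ t, chk3 f_mm_202_t t 492 71 1 = true :=
  ⟨(l 4), by decide +kernel⟩

def k38_mm_202_t : ∃ t, chk3 f_mm_202_t t 493 35 1 = true :=
  ⟨(b (b (b (b (b (c (a (l 16775768) (a (a (l 16776792) (l 16777800)) (l 190287184503))) (c (a (l 16774456) (a (c (l 16776960) (l 16777608)) (l 195655893607))) (a (a (a (l 16775152) (l 16774904)) (a (l 16775312) (c (l 16775072) (l 16775720)))) (b (b (a (l 16776760) (a (a (l 90429194599) (l 4)) (l 4))) (a (c (l 16776904) (a (l 16776712) (l 16777352))) (l 4))) (a (a (l 16776944) (b (a (l 16777160) (l 167201735031)) (l 192971538663))) (l 4)))))) (a (b (c (l 16776240) (c (l 16776240) (c (l 16776240) (l 16776152)))) (c (l 16776872) (a (a (l 16775280) (l 16775688)) (a (l 16776752) (a (l 16777184) (b (l 16777336) (l 137673834919))))))) (a (a (c (l 89892324647) (c (l 93113549943) (b (a (c (l 16777144) (l 16777384)) (b (l 94724161927) (l 4))) (l 218741342583)))) (l 4)) (l 4)))) (a (a (c (b (l 16776616) (a (l 16777016) (l 95797904711))) (c (a (l 16777040)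 (b (l 16776816) (l 107609064439))) (b (c (l 16776608) (a (l 16775752) (l 16776896))) (a (b (l 16776880) (a (l 16777088) (b (l 16777192) (l 164517380471)))) (b (c (l 76470551207) (a (a (l 16777128) (l 66270003591)) (l 139821318647))) (l 4)))))) (b (b (c (l 58753811735) (c (l 62511907255) (a (a (l 16776968) (b (l 16777088) (l 74323067255))) (c (l 146800640679) (l 191360925959))))) (a (c (l 16777288) (a (b (l 1845494119) (l 150558736791)) (l 4))) (l 4))) (l 4))) (l 4))) (a (a (a (b (b (b (c (l 16777696) (c (l 154853704391) (l 198340247847))) (l 4)) (l 4)) (l 4)) (l 4)) (l 4)) (l 4))) (l 4)) (l 4)), by decide +kernel⟩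

def k39_mm_202_t : ∃ t, chk3 f_mm_202_t t 247 35 1 = true :=
  ⟨(l 4), by decide +kernel⟩

def k40_mm_202_t : ∃ t, chk3 f_mm_202_t t 31 17 1 = true :=
  ⟨(a (b (a (b (l 14) (b (b (l 14) (b (l 14) (l 4))) (l 4))) (l 4)) (l 4)) (l 4)), by decide +kernel⟩

def k41_mm_202_t : ∃ t, chk3 f_mm_202_t t 28 18 1 = true :=
  ⟨(b (c (a (a (b (l 16686208) (l 16695224)) (b (b (l 16683096) (l 16687720)) (b (l 16692304) (l 16696848)))) (b (a (b (l 16693168) (l 16697856)) (b (l 16714128) (l 16718888))) (a (b (l 16702504) (l 16717608)) (b (l 16718360) (a (l 16715080) (l 16720520)))))) (a (b (a (l 16683448) (b (l 16680872) (l 16685552))) (a (b (l 16679856) (l 16684432)) (b (l 16690208) (l 16694840)))) (b (a (c (l 16694248) (l 16703864)) (b (l 16712840) (c (l 16707456) (l 16706816)))) (a (b (l 16711376) (l 16716064)) (b (a (l 16709104) (l 16714696)) (c (l 16716944) (l 16716360))))))) (a (c (b (a (a (l 16712088) (l 16706536)) (c (l 16714512) (l 16713632))) (a (b (l 16700128) (l 16704480)) (b (l 16720760) (l 16722576))))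 (b (a (c (l 16691856) (l 16701120)) (c (l 16702224) (l 16701264))) (a (b (l 16687560) (l 16702600)) (b (c (l 16709048) (l 16708184)) (a (l 16710528) (l 16715912)))))) (c (b (a (b (l 16722184) (l 16726728)) (b (a (l 16719704) (l 16725176)) (b (l 16736384) (l 16738688)))) (a (b (c (l 16721072) (l 16720472)) (b (l 16734656) (l 16736920))) (a (b (l 16728888) (l 16733480)) (b (l 16734432) (l 16739056))))) (b (a (b (l 16709912) (c (l 16715232) (l 16714536))) (b (c (l 16721648) (l 16721096)) (c (l 16726328) (l 16725824)))) (a (b (c (l 16719848) (l 16719208)) (c (l 16724472) (l 16729136))) (a (b (l 16727920) (l 16737856)) (b (l 16738864) (c (l 16738520) (l 16738160))))))))), by decide +kernel⟩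

def k42_mm_202_t : ∃ t, chk3 f_mm_202_t t 58 36 1 = true :=
  ⟨(c (b (a (b (a (l 16711760) (l 16717312)) (a (l 16716552) (l 16722120))) (a (b (l 16722952) (l 16727784)) (b (l 16728704) (l 16744032)))) (a (a (c (l 16734408) (l 16733952)) (b (l 16726920) (l 16731680))) (b (a (l 16743088) (c (l 16738520) (l 16738248))) (a (l 16742640) (c (l 16743320) (l 16743080)))))) (b (a (b (a (l 16710744) (l 16716456)) (c (l 16718664) (l 16718208))) (a (b (l 16722248) (l 16732344)) (b (l 16733360) (c (l 16733128) (l 16732856))))) (a (a (c (l 16723008) (l 16723192)) (b (l 16736608) (l 16736176))) (b (a (c (l 16732112) (l 16731792)) (c (l 16737992) (l 16737736))) (a (c (l 16736944) (l 16736640)) (c (l 16742840) (l 16742600))))))), by decide +kernel⟩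

def k43_mm_202_t : ∃ t, chk3 f_mm_202_t t 118 36 1 = true :=
  ⟨(c (b (a (b (l 16739784) (c (l 16739512) (l 16739288))) (b (c (l 16740568) (l 16740376)) (c (l 16745432) (l 16745256)))) (b (a (c (l 16744360) (l 16744152)) (c (l 16755536) (l 16755376))) (a (c (l 16754424) (l 16748992)) (b (c (l 16753920) (l 16753776)) (a (l 16754768) (l 16757776)))))) (b (a (b (c (l 16734184) (l 16733960)) (c (l 16739064) (l 16738856))) (b (c (l 16740192) (l 16740016)) (c (l 16745088) (l 16747544)))) (b (a (c (l 16743944) (l 16746368)) (c (l 16752600) (b (l 16748600) (l 16751056)))) (a (c (l 16754056) (b (l 16747408) (l 16749856))) (a (c (l 16753336) (l 16753200)) (b (l 16755096) (l 16760168))))))), by decide +kernel⟩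

def k44_mm_202_t : ∃ t, chk3 f_mm_202_t t 119 36 1 = true :=
  ⟨(b (b (a (c (c (l 16746568) (l 16746416)) (c (l 16751520) (b (l 16744912) (l 16747376)))) (c (b (c (l 16751440) (l 16751320)) (c (l 16753880) (l 16753768))) (a (c (l 16750888) (l 16750784)) (c (l 16753984) (l 16755208))))) (a (c (c (l 16753416) (l 16753280)) (c (b (l 16749960) (l 16752408)) (b (l 16749832) (l 16752296)))) (c (a (b (l 16754728) (l 16757176)) (b (l 16757808) (l 16760256))) (a (b (l 16754528) (l 16759608)) (b (c (l 16757680) (l 16757600)) (c (l 16760136) (l 16760064))))))) (a (b (c (a (c (l 16754792) (l 16754672)) (b (l 16756552) (l 16758992))) (a (c (l 16754552) (l 16757056)) (c (l 16760248) (b (l 16756296) (l 16758760))))) (b (c (a (l 16758376) (l 16761432)) (c (l 16762384) (a (l 16758120) (l 16761216)))) (a (c (l 16760808) (c (l 16760664) (l 16760576))) (c (l 16766480) (c (l 16763752) (l 16766304)))))) (b (c (a (b (l 16759616) (l 16762056)) (b (l 16765328) (c (l 16765176) (l 16765120)))) (a (c (b (l 16759488)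 (l 16761944)) (b (l 16759408) (l 16761872))) (b (c (l 16762600) (l 16762536)) (c (l 16765056) (c (l 16765016) (l 16764992)))))) (b (c (a (c (l 16764536) (l 16764464)) (c (l 16764992) (l 16767560))) (a (c (l 16764400) (l 16765648)) (c (l 16764896) (a (l 16766680) (l 16769568))))) (a (c (c (l 16766960) (l 16766904)) (c (l 16766848) (c (l 16766816) (l 16768096)))) (a (c (l 16766632) (b (l 16768552) (l 16771096))) (c (a (l 16767792) (l 16768568)) (c (l 16770752) (b (l 16770104) (l 16771336)))))))))), by decide +kernel⟩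

def k45_mm_202_t : ∃ t, chk3 f_mm_202_t t 58 37 1 = true :=
  ⟨(b (c (a (a (b (l 16730744) (l 16745888)) (b (l 16741640) (c (l 16741240) (l 16740944)))) (b (a (c (l 16742280) (l 16742008)) (a (l 16751752) (l 16754688))) (a (c (l 16746992) (l 16746752)) (b (l 16751544) (l 16759160))))) (a (c (b (l 16735632) (a (l 16734848) (l 16740640))) (a (b (l 16729712) (l 16734472)) (b (l 16735552) (l 16740344)))) (b (a (c (l 16741736) (l 16741464)) (c (l 16747664) (b (l 16746240) (l 16748664)))) (a (c (l 16746512) (l 16748904)) (c (b (l 16751264) (l 16753664)) (b (l 16751080) (l 16753496))))))) (b (a (c (a (l 16745304) (c (l 16745912) (l 16745656))) (a (c (l 16739568) (l 16739240)) (c (l 16745392) (l 16745128)))) (a (c (c (l 16756936) (l 16756736)) (c (l 16756536) (b (l 16749888) (l 16752296)))) (c (c (c (l 16762840) (l 16762768)) (c (l 16762696) (l 16762624))) (b (c (l 16756064) (l 16758536)) (c (l 16758472) (l 16760304)))))) (b (a (c (a (l 16743552) (l 16749296)) (a (l 16742960) (l 16748840))) (a (c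 (l 16760376) (a (l 16753296) (l 16756288))) (a (c (l 16759560) (l 16759296)) (c (l 16762536) (c (l 16762384) (l 16762280)))))) (a (c (a (l 16745880) (l 16751648)) (a (l 16745336) (l 16753848))) (a (c (a (l 16756024) (l 16758968)) (c (l 16757272) (l 16759736))) (a (c (l 16761936) (a (l 16760952) (l 16762464))) (c (l 16760992) (c (l 16764792) (l 16764704))))))))), by decide +kernel⟩

def k46_mm_202_t : ∃ t, chk3 f_mm_202_t t 118 74 1 = true :=
  ⟨(b (b (a (c (l 16757944) (c (l 16752448) (l 16752288))) (c (a (l 16757184) (l 16760200)) (c (l 16761136) (c (l 16758432) (l 16761000))))) (a (c (c (l 16755176) (l 16755016)) (c (l 16754872) (l 16757344))) (a (c (l 16759592) (c (l 16759416) (l 16759304))) (c (l 16765232) (c (l 16762480) (l 16762384)))))) (b (a (c (a (l 16755992) (l 16758976)) (c (l 16757280) (l 16759120))) (a (c (l 16761992) (c (l 16761840) (l 16761744))) (c (c (l 16765064) (l 16764984)) (c (l 16764904) (l 16766144))))) (a (c (c (l 16765176) (l 16759816)) (c (l 16762320) (a (l 16758048)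 (l 16761112)))) (a (c (c (l 16764432) (l 16764352)) (c (l 16764264) (l 16766808))) (c (c (l 16767464) (l 16767400)) (c (l 16767336) (c (l 16767288) (l 16769880)))))))), by decide +kernel⟩

def k47_mm_202_t : ∃ t, chk3 f_mm_202_t t 118 75 1 = true :=
  ⟨(a (a (c (b (b (l 16760760) (l 16763152)) (b (c (l 16765584) (l 16765496)) (c (l 16767960) (l 16767896)))) (b (c (b (l 16760592) (l 16763000)) (b (l 16760480) (l 16762904))) (b (b (l 16764768) (l 16768608)) (c (l 16767832) (c (l 16767784) (l 16767760)))))) (c (b (b (a (l 16763016) (l 16764520)) (a (l 16765408) (l 16766920))) (b (c (l 16763344) (l 16768528)) (c (l 16768360) (l 16765696)))) (c (b (b (l 16763632) (l 16766048)) (b (l 16763232) (l 16765656))) (b (b (l 16763544) (c (l 16766000) (l 16765960))) (a (b (l 16767648) (l 16767464)) (b (l 16766568) (a (l 16771240) (l 16769392)))))))) (a (b (b (c (c (l 16766824) (l 16766760)) (c (l 16766688) (c (l 16766640) (l 16766608)))) (c (c (l 16763976) (l 16763928)) (c (l 16763872) (b (l 16768456) (l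 16767056))))) (b (c (b (l 16768376) (l 16769576)) (c (l 16768920) (c (l 16768240) (a (l 16770720) (l 16769656))))) (c (l 16774008) (c (l 16773976) (a (c (l 16770560) (l 16770552)) (l 16774728)))))) (c (b (b (c (l 16765928) (l 16764568)) (l 16772248)) (b (c (l 16774664) (l 16774648)) (a (b (l 16775696) (l 16778704)) (b (c (l 57680070103) (l 57143200487)) (l 197803377847))))) (b (b (c (l 16767144) (a (l 16766320) (a (l 16770112) (l 16768264)))) (c (c (l 16766968) (l 16766952)) (a (c (l 16771400) (l 16768760)) (b (l 16772336) (l 16770936))))) (b (c (l 16774632) (c (l 16774624) (c (l 16774616) (l 16774608)))) (a (b (l 16775680) (c (l 16778128) (b (l 16777232) (a (l 16776800) (l 117809612215))))) (a (a (b (l 16776648) (l 186529088103)) (b (b (l 16776736) (l 81839260919)) (l 4))) (b (b (a (l 16777088) (l 120493966551)) (l 4)) (l 4))))))))), by decide +kernel⟩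

def k48_mm_202_t : ∃ t, chk3 f_mm_202_t t 238 74 1 = true :=
  ⟨(b (c (a (b (l 16765856) (c (l 16765696) (l 16765624))) (b (a (l 16765528) (l 16767056)) (b (l 16768112) (l 16766704)))) (a (b (c (l 16763112) (l 16763032)) (c (l 16765552) (c (l 16765504) (l 16765472)))) (b (c (l 16766200) (c (l 16766152) (l 16768744))) (c (l 16764712) (a (l 16769128) (c (l 16769384) (l 16769368))))))) (c (a (b (c (l 16765480) (l 16762800)) (b (l 16767256) (l 16768464))) (c (b (c (l 16768544) (l 16768528)) (l 16773576)) (b (c (l 16765888) (l 16765872)) (l 16773552)))) (a (a (b (b (l 16766576) (l 16767792)) (b (l 16769016) (l 16767616))) (b (b (l 16768120) (l 16769344)) (c (l 16771200) (c (l 16771168) (l 16768536))))) (a (b (c (l 16770312) (c (l 16770280) (l 16770264))) (c (l 16770128) (b (l 16772112) (l 16770720)))) (b (c (l 16769240) (b (l 16771216) (l 16769824))) (b (c (l 16773696) (l 16772368)) (l 16774952))))))), by decide +kernel⟩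

def k49_mm_202_t : ∃ t, chk3 f_mm_202_t t 238 75 1 = true :=
  ⟨(a (b (c (b (l 16772904) (b (l 16774712) (a (l 16775152) (l 16777952)))) (a (c (l 16772648) (b (b (l 16771440) (l 16772664)) (l 16774504))) (b (c (l 16771016) (b (l 16770384) (l 16772920))) (b (c (l 16775464) (l 16775456)) (a (l 16776296) (b (l 16776760) (a (l 16777792) (l 131231384871)))))))) (b (a (b (c (l 16776336) (c (l 16776328) (a (l 16775952) (c (l 16776712) (l 16777360))))) (a (c (l 16778400) (b (l 16776856) (a (l 69491229943) (l 161833026807)))) (c (l 132841998967) (c (l 139284449399) (l 184918475431))))) (a (b (c (l 85060487735) (b (a (l 16777000) (l 95261033719)) (l 193508409927))) (l 4)) (l 4))) (l 4))) (b (b (b (c (l 16775376) (c (l 16775352) (a (l 16772600) (a (l 16774432) (l 16776512))))) (a (c (l 16775816) (c (l 16775800) (l 16775792))) (a (c (l 16776920) (b (l 16776664) (a (l 16777056) (l 106535322967)))) (c (l 111367162407) (b (a (a (l 16777120) (l 89355453479)) (l 147337512215)) (l 4)))))) (a (a (c (b (l 16776624)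 (l 120493968039)) (b (c (l 16776616) (c (l 16776616) (l 16776608))) (a (b (l 82913002759) (l 4)) (l 4)))) (b (c (l 74323069463) (c (l 73249327335) (b (a (l 16776904) (l 16777696)) (l 183844733383)))) (l 4))) (b (c (l 206930183495) (c (l 211762021671) (l 213909505303))) (l 4)))) (l 4))), by decide +kernel⟩

def k50_mm_202_t : ∃ t, chk3 f_mm_202_t t 239 74 1 = true :=
  ⟨(b (c (b (a (c (a (l 16768624) (l 16770160)) (l 16765416)) (l 16772464)) (b (c (l 16772760) (l 16772736)) (a (c (l 16769800) (l 16767152)) (a (l 16774728) (l 16776272))))) (c (a (b (a (l 16768528) (l 16770080)) (c (l 16766520) (l 16769128))) (b (c (l 16769816) (l 16769144)) (a (l 16771480) (l 16775656)))) (a (b (b (l 16769960) (a (l 16769096) (l 16770664))) (b (a (l 16770328) (l 16771896)) (a (l 16771552) (l 16771816)))) (b (b (a (l 16771000) (l 16769952)) (c (l 16770400) (a (l 16772224) (l 16771184)))) (b (a (l 16771496) (c (l 16772424) (l 16773728))) (b (l 16775016) (a (l 16773696) (a (l 16773568) (c (l 16776944) (l 16777600))))))))))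 (a (c (b (c (l 16774240) (l 16774216)) (a (b (l 16775272) (l 16777768)) (b (c (l 16778064) (l 16778064)) (c (l 167201735415) (l 168275477223))))) (b (c (l 16774200) (a (b (l 16770160) (l 16772376)) (c (l 16774976) (l 16774968)))) (c (a (b (l 16770016) (l 16776448)) (b (c (l 16776744) (l 16778056)) (l 168812348119))) (a (a (l 16775464) (b (l 16774328) (a (l 16776664) (b (l 16776760) (l 90966066215))))) (a (b (l 16776416) (a (b (l 16777112) (l 4)) (l 188676571735))) (b (b (l 16776880) (a (l 83449873367) (l 214446375383))) (l 4))))))) (b (b (c (a (l 16775944) (a (l 16778344) (l 126936418871))) (a (c (l 16775936) (l 16775928)) (c (a (l 16778336) (l 131231385751)) (a (b (l 16776792) (a (l 9361687559) (l 147337512023))) (b (l 166664863399) (l 4)))))) (a (a (c (l 16776744) (b (l 16776464) (a (l 16776872) (a (l 16777136) (l 93113549895))))) (c (l 87744842343) (c (l 91502938231) (b (a (l 16777024) (l 103314097287)) (l 208540795495))))) (l 4))) (a (b (c (l 188139701383) (c (l 192434668647) (a (b (l 179012895159)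 (l 4)) (l 4)))) (l 4)) (l 4))))), by decide +kernel⟩

def k51_mm_202_t : ∃ t, chk3 f_mm_202_t t 239 75 1 = true :=
  ⟨(b (a (a (b (b (a (c (l 63585651191) (c (l 16778280) (b (l 16777624) (c (l 124252063031) (l 125862675751))))) (c (l 151632480711) (c (l 155927447655) (l 198877119287)))) (l 4)) (l 4)) (l 4)) (l 4)) (l 4)), by decide +kernel⟩

def k52_mm_202_t : ∃ t, chk3 f_mm_202_t t 28 38 1 = true :=
  ⟨(a (b (a (c (b (l 16708832) (l 16713192)) (c (l 16709848) (l 16709016))) (c (b (l 16719152) (l 16723600)) (b (l 16717832) (l 16722448)))) (a (c (b (l 16717560) (l 16721936)) (b (l 16716256) (l 16720808))) (c (b (l 16728048) (l 16732512)) (b (l 16727064) (l 16736920))))) (b (b (a (a (l 16731832) (c (l 16743032) (l 16730976))) (c (a (l 16738072) (c (l 16743832) (l 16743528))) (c (a (l 16737504) (l 16743224)) (a (l 16737112) (l 16742904))))) (a (c (l 16739600) (c (l 16733728) (l 16733296))) (c (a (l 16742656) (b (l 16747152) (l 16749472))) (a (l 16742016) (b (l 16746608) (l 16748984)))))) (a (c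 (a (b (l 16736136) (l 16740664)) (b (l 16741648) (l 16746216))) (a (b (l 16735360) (l 16740024)) (b (l 16741008) (l 16745696)))) (b (a (c (l 16747256) (l 16746736)) (c (l 16758192) (c (l 16752648) (l 16752440)))) (c (a (l 16751864) (a (l 16756152) (l 16759040))) (a (l 16754408) (c (l 16757368) (l 16761152)))))))), by decide +kernel⟩

def k53_mm_202_t : ∃ t, chk3 f_mm_202_t t 28 78 1 = true :=
  ⟨(c (b (a (a (l 16726328) (l 16742240)) (b (a (l 16752104) (a (l 16755328) (l 16761088))) (a (l 16753080) (a (l 16757640) (l 16758184))))) (a (a (l 16730736) (a (l 16738760) (l 16744216))) (a (a (l 16749760) (l 16760648)) (b (a (l 16759960) (a (l 16764304) (l 16767224))) (a (l 16762288) (c (l 16762896) (l 16762840))))))) (b (a (a (l 16725360) (c (l 16736472) (l 16736112))) (a (a (l 16744688) (l 16755640)) (b (a (l 16755000) (a (l 16759376) (l 16762328))) (a (l 16757360) (a (l 16761752) (l 16764712)))))) (a (a (l 16729920) (a (l 16738128) (l 16743696))) (a (a (l 16749360) (c (l 16755168) (l 16755016)))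 (a (c (l 16755720) (a (l 16759384) (l 16762320))) (a (b (l 16764128) (l 16766512)) (b (l 16767096) (l 16764240)))))))), by decide +kernel⟩

def k54_mm_202_t : ∃ t, chk3 f_mm_202_t t 28 79 1 = true :=
  ⟨(c (a (a (b (l 16745640) (l 16744840)) (a (b (l 16743248) (l 16747752)) (b (l 16748744) (l 16753296)))) (a (b (a (l 16759584) (a (l 16758584) (l 16761448))) (a (a (l 16757512) (l 16760352)) (a (l 16757968) (l 16760856)))) (a (a (b (l 16759088) (c (l 16763776) (l 16763736))) (b (a (l 16761264) (l 16762720)) (l 16771928))) (b (c (l 16771656) (l 16771624)) (b (b (l 16774560) (a (l 16769032) (l 61438166503))) (a (a (l 16775312) (l 16779296)) (l 172033574455))))))) (b (a (a (l 16739728) (a (l 16742736) (l 16748344))) (a (a (c (l 16754112) (l 16753952)) (b (l 16758624) (l 16755736))) (a (a (a (l 16763440) (l 16759664)) (b (l 16765928) (l 16768304))) (a (b (l 16763648) (l 16768648)) (c (l 16773072) (l 16773048)))))) (a (a (a (l 16736304) (l 16741800)) (a (l 16747352) (l 16758240))) (a (a (a (l 16757272)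 (l 16760152)) (c (l 16759304) (a (l 16763008) (l 16760696)))) (a (a (b (l 16767720) (l 16764848)) (b (l 16765432) (l 16769120))) (a (a (l 16773440) (b (l 16774400) (b (l 16776176) (l 69491230183)))) (a (b (l 16775872) (c (l 114588389383) (l 163443637751))) (b (b (l 16778040) (a (l 98482260119) (l 4))) (l 4))))))))), by decide +kernel⟩

def k55_mm_202_t : ∃ t, chk3 f_mm_202_t t 58 76 1 = true :=
  ⟨(b (a (a (c (c (l 16749504) (l 16749264)) (c (l 16749024) (l 16754024))) (c (c (l 16759192) (l 16760328)) (c (b (l 16753712) (l 16756096)) (b (l 16753520) (l 16755920))))) (b (a (c (a (l 16758384) (l 16761336)) (c (l 16759664) (l 16762152))) (a (c (l 16764312) (c (l 16764168) (l 16764080))) (c (c (l 16767344) (l 16767272)) (c (l 16767200) (c (l 16767152) (l 16767120)))))) (c (a (a (l 16760744) (l 16763712)) (a (l 16762760) (c (l 16764480) (l 16764424)))) (a (c (l 16756816) (a (l 16760432) (l 16763456))) (a (b (l 16765936) (l 16764520)) (c (l 16764376) (a (l 16768792) (l 16767712)))))))) (b (c (a (a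 (l 16758128) (a (l 16757232) (l 16760160))) (a (a (l 16763112) (l 16760840)) (a (c (l 16769104) (l 16769040)) (l 16772088)))) (a (a (c (l 16752568) (l 16752360)) (c (l 16758472) (l 16760944))) (a (a (a (l 16762144) (l 16763648)) (a (l 16765160) (l 16763400))) (a (c (l 16768984) (c (l 16768944) (l 16766288))) (c (l 16766792) (c (l 16769384) (a (l 16771216) (l 16770136)))))))) (c (a (a (l 16760464) (a (l 16759584) (l 16762520))) (a (a (l 16760232) (c (l 16768488) (l 16768424))) (b (l 16772368) (l 16773568)))) (a (a (c (l 16754944) (l 16754752)) (a (l 16761920) (l 16764912))) (c (a (c (l 16761632) (l 16761592)) (l 16772920)) (a (a (l 16765256) (c (l 16768312) (l 16768280))) (a (a (l 16767968) (l 16769496)) (c (l 16774432) (l 16774424))))))))), by decide +kernel⟩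

def k56_mm_202_t : ∃ t, chk3 f_mm_202_t t 58 154 1 = true :=
  ⟨(a (c (a (c (l 16764040) (l 16763896)) (a (b (l 16761936) (l 16764288)) (b (l 16759640) (l 16767240)))) (b (a (l 16757232) (c (l 16758000) (a (l 16761632) (l 16764640)))) (a (l 16762248) (a (l 16764088) (c (l 16767128) (l 16767056)))))) (b (a (c (a (c (l 16767880) (l 16767816)) (c (l 16765616) (l 16765568))) (a (c (l 16767744) (c (l 16767688) (l 16765032))) (c (l 16765520) (c (l 16765488) (l 16768088))))) (a (c (l 16773848) (c (l 16773808) (l 16773784))) (a (c (b (l 16775512) (l 16776656)) (b (l 16775488) (a (l 16776320) (b (l 16776776) (l 81302390407))))) (c (b (l 16778240) (l 177939153863)) (b (a (l 16776624) (b (l 16777056) (l 133915739799))) (c (l 139284450135) (l 183844733831))))))) (a (c (b (l 16771128) (l 16772312)) (c (l 16771664) (a (a (l 16769328) (l 16768232)) (l 16773144)))) (b (a (c (l 16775624) (c (l 16775608) (a (l 16772216) (l 16776352)))) (a (a (c (l 16777296) (b (l 16777784) (l 161296156263))) (l 4)) (l 4)))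 (a (a (c (l 16776072) (l 16776056)) (c (l 83449875799) (a (b (l 16776888) (l 100629743239)) (l 181160379047)))) (l 4)))))), by decide +kernel⟩

def k57_mm_202_t : ∃ t, chk3 f_mm_202_t t 58 155 1 = true :=
  ⟨(a (b (a (c (a (l 16760776) (l 16763696)) (a (l 16760520) (l 16763496))) (a (c (l 16766640) (l 16766488)) (c (l 16764368) (c (l 16769528) (l 16764232))))) (a (a (a (l 16762272) (l 16765056)) (c (l 16766048) (l 16765888))) (c (a (l 16769008) (l 16766736)) (c (l 16765184) (a (l 16768864) (l 16769272)))))) (a (a (c (b (l 16767352) (l 16774968)) (c (l 16773744) (c (l 16773728) (b (l 16769888) (l 16774928))))) (b (c (b (l 16775008) (l 16777456)) (c (l 16776848) (a (l 16772184) (a (l 16775952) (b (l 16776120) (l 71638711511)))))) (b (c (a (l 16776592) (l 131768257447)) (a (c (l 16776584) (l 16777232)) (c (l 132305128167) (l 178476024615)))) (c (l 170959832279) (a (c (l 105461582503) (l 157001186439)) (l 4)))))) (b (a (a (c (b (l 61975039351) (l 202098345143)) (b (a (l 16778152) (a (l 87207970583)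 (l 136600094967))) (l 204782699655))) (l 4)) (l 4)) (l 4)))), by decide +kernel⟩

def k58_mm_202_t : ∃ t, chk3 f_mm_202_t t 118 38 1 = true :=
  ⟨(b (a (a (b (c (c (l 16771544) (l 16771504)) (c (l 16771464) (b (a (l 16769432) (l 16768352)) (c (l 16770032) (a (l 16769240) (l 16770784)))))) (b (c (a (l 16774352) (l 16776840)) (c (l 16775080) (c (l 16775728) (b (l 16771848) (a (l 16772288) (l 16777088)))))) (b (a (c (l 16776144) (c (l 16776136) (l 16776128))) (c (l 89892325479) (a (b (l 16776960) (l 114051516071)) (l 189750313751)))) (a (c (l 65733134375) (a (b (l 16776664) (l 63048779399)) (c (l 16778080) (l 163443638679)))) (l 4))))) (b (c (b (l 16773360) (a (l 16775000) (a (l 16776128) (b (l 16776304) (l 16778592))))) (a (b (b (l 16769304) (l 16771176)) (c (l 16774976) (l 16774960))) (b (b (c (l 16773480) (l 16770840)) (l 16774688)) (b (l 16775904) (c (l 16778472) (a (l 16776704) (b (l 16777784) (l 196729635367)))))))) (b (a (c (b (l 16778048) (l 115662130583)) (b (a (l 16776408) (b (l 16776856)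 (l 97945387991))) (a (b (a (l 16777096) (l 119957095639)) (l 4)) (l 4)))) (a (c (l 185992217863) (b (c (l 138747578471) (l 183844733591)) (l 4))) (l 4))) (l 4)))) (b (a (a (b (c (l 16775640) (c (l 16775624) (b (l 16772392) (l 16776552)))) (b (c (c (l 74323069783) (l 74323069767)) (c (l 73786197527) (a (b (l 16776752) (l 79154906583)) (l 173107315223)))) (l 4))) (b (c (b (l 16776536) (c (l 99556002775) (l 99019131863))) (c (b (l 16776528) (l 98482259655)) (b (a (l 16776176) (b (l 16776648) (l 65733133623))) (a (b (l 16777040) (l 134989481447)) (l 211762021239))))) (l 4))) (a (b (b (c (l 169886090055) (c (l 173107315495) (a (b (l 88818582983) (l 4)) (l 4)))) (l 4)) (l 4)) (l 4))) (l 4))) (a (b (a (a (b (b (c (l 205856441623) (l 209077667047)) (l 4)) (l 4)) (l 4)) (l 4)) (l 4)) (l 4))), by decide +kernel⟩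

def k59_mm_202_t : ∃ t, chk3 f_mm_202_t t 119 38 1 = true :=
  ⟨(l 4), by decide +kernel⟩

def k60_mm_202_t : ∃ t, chk3 f_mm_202_t t 29 39 1 = true :=
  ⟨(a (a (b (b (a (a (b (b (l 16764784) (l 16767280)) (c (l 16767808) (l 16762440))) (b (c (l 16768408) (l 16765664)) (c (l 16765520) (a (l 16769928) (l 16766192))))) (c (b (l 16772864) (a (l 16773736) (b (l 16776088) (a (l 16776544) (l 124788935671))))) (b (a (c (l 16771312) (l 16768648)) (l 16774320)) (a (l 16773696) (a (b (l 16772744) (l 16777840)) (b (a (l 16776496) (l 61438165735)) (l 170422960855))))))) (a (c (b (l 16771648) (a (l 16767280) (l 16775464))) (a (b (l 16766144) (c (l 16767240) (l 16767216))) (c (l 16774920) (a (l 16773512) (a (l 16774648) (b (l 16774200) (l 16778024))))))) (a (b (a (c (l 16775360) (l 16775344)) (b (c (l 16776256) (l 16776240)) (c (l 16778488) (a (l 16777000) (l 122641451191))))) (a (c (c (l 85597357495) (l 84523618279)) (b (a (l 16776736) (l 90429196327)) (l 188139701223))) (l 4))) (a (b (b (c (l 99019131863)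 (a (l 72712453751) (l 168275478551))) (l 4)) (l 4)) (l 4))))) (a (b (b (c (a (l 16774888) (a (c (l 9898561175) (l 16779560)) (l 176328541447))) (a (l 16774856) (a (b (l 16776488) (a (l 68954359911) (l 163980511287))) (c (l 178476025047) (l 180086637751))))) (a (a (c (l 16776440) (c (l 16776432) (b (l 16775904) (l 6677334295)))) (c (l 98482261207) (b (c (l 16777136) (l 71638713623)) (l 4)))) (l 4))) (a (b (c (l 199413991655) (a (l 189750314455) (l 4))) (l 4)) (l 4))) (l 4))) (b (a (b (a (c (b (a (l 16778808) (l 153779961207)) (l 203172088183)) (b (a (b (l 16775992) (a (l 16776784) (l 95261033303))) (b (a (a (l 16776912) (l 71638714023)) (l 130157643959)) (l 4))) (a (b (l 199413990455) (l 4)) (l 4)))) (l 4)) (l 4)) (l 4)) (l 4))) (l 4)), by decide +kernel⟩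

def k61_mm_202_t : ∃ t, chk3 f_mm_202_t t 120 72 1 = true :=
  ⟨(a (c (b (a (b (l 16756000) (l 16758456)) (b (l 16759112) (l 16764192))) (b (a (l 16760912) (c (l 16764056) (l 16763992))) (a (c (l 16763392) (l 16763328)) (a (l 16765696) (l 16764632))))) (b (c (a (l 16759728) (b (l 16759000) (l 16761472))) (a (b (l 16755792) (l 16758264)) (b (l 16758936) (l 16761408)))) (a (b (c (l 16760800) (l 16760736)) (c (l 16763264) (l 16764520))) (c (b (l 16763936) (l 16763128)) (b (l 16765192) (c (l 16766368) (l 16767656))))))) (b (a (b (c (l 16764856) (c (l 16762144) (l 16764712))) (c (c (l 16764720) (l 16764664)) (c (l 16764616) (c (l 16764576) (l 16764560))))) (b (c (a (l 16764584) (l 16766152)) (c (l 16765296) (c (l 16765272) (l 16766560)))) (c (c (a (l 16767064) (l 16768640)) (a (l 16767024) (l 16768600))) (a (c (l 16766984) (l 16768256)) (b (l 16767928) (l 16769824)))))) (a (b (b (c (l 16766536) (c (l 16766464) (l 16766424))) (c (l 16765144) (c (l 16767704) (l 16768976)))) (a (b (c (l 16768208)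 (l 16768128)) (c (l 16769432) (l 16770680))) (c (c (l 16770408) (l 16770376)) (c (l 16767720) (b (l 16769696) (l 16770936)))))) (a (c (b (b (l 16768888) (l 16770120)) (c (l 16769352) (l 16769328))) (c (b (l 16769456) (l 16769304)) (b (c (l 16769432) (l 16770728)) (b (l 16771288) (c (l 16772528) (l 16772520)))))) (c (b (c (l 16768472) (l 16768440)) (l 16773536)) (b (c (l 16768416) (b (l 16770400) (a (l 16771240) (l 16772032)))) (b (c (l 16772896) (c (l 16772880) (l 16771568))) (c (l 16771512) (a (l 16772408) (l 16773208)))))))))), by decide +kernel⟩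

def k62_mm_202_t : ∃ t, chk3 f_mm_202_t t 240 73 1 = true :=
  ⟨(a (b (b (c (a (l 16765032) (l 16766584)) (c (l 16765728) (c (l 16765688) (l 16768288)))) (b (c (l 16767640) (c (l 16767576) (l 16768840))) (c (l 16766240) (a (l 16768000) (l 16770880))))) (a (c (b (c (l 16769936) (l 16769896)) (c (l 16769752) (l 16769728))) (b (c (l 16769864) (c (l 16769840) (l 16769824))) (c (l 16769704) (b (l 16771680) (l 16771608))))) (c (c (l 16772712) (l 16772688)) (b (c (l 16768816) (b (l 16770792) (l 16772024))) (c (l 16771272) (c (c (l 16771264) (l 16771256)) (b (l 16773256) (l 16773184)))))))) (b (a (b (c (l 16765520) (c (l 16768080) (l 16769352))) (c (c (l 16770608) (l 16770576)) (c (l 16770544) (b (l 16769896) (l 16771136))))) (c (b (b (l 16769096) (l 16770320)) (c (l 16769552) (l 16769520))) (b (c (l 16769656) (c (l 16769632) (l 16770928))) (c (l 16769496) (b (l 16771480) (a (l 16772320) (l 16773112))))))) (b (c (c (l 16773832) (l 16773816)) (c (l 16773800) (b (a (l 16771056) (a (l 16773560) (l 16773040)))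 (a (c (l 16773608) (l 16772296)) (a (l 16773488) (l 16774280)))))) (a (c (b (l 16774872) (l 16776088)) (c (l 16775464) (c (l 16775464) (c (l 16775624) (b (l 16773528) (l 16776400)))))) (c (b (l 16777392) (a (c (l 58753812535) (l 16778424)) (l 189213442887))) (a (b (l 16776032) (b (a (l 16776760) (b (l 16777000) (l 81302389591))) (c (l 112440903095) (c (l 118883353863) (l 167738605207))))) (b (b (l 16776520) (a (l 16776928) (b (l 16777152) (l 140895060807)))) (c (l 193508410167) (b (l 189750313463) (l 4)))))))))), by decide +kernel⟩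

def k63_mm_202_t : ∃ t, chk3 f_mm_202_t t 482 73 1 = true :=
  ⟨(b (b (b (c (c (l 16768840) (l 16768808)) (c (l 16768784) (a (l 16770592) (c (l 16772184) (l 16772168))))) (c (c (l 16770064) (l 16770040)) (c (l 16770016) (a (l 16770520) (c (l 16773416) (l 16772104)))))) (c (c (l 16774520) (l 16774504)) (c (l 16774496) (c (c (l 16774488) (l 16774480)) (a (b (l 16771752) (c (l 16771680) (l 16772992))) (b (c (l 16772032) (l 16773344)) (l 16775896))))))) (b (b (a (c (l 16775560) (c (l 16775552) (l 16775544))) (b (c (l 16778096) (a (l 16776424) (a (c (l 16777000) (l 16777000)) (b (l 69491229463) (l 4))))) (b (c (l 63048779703) (a (l 16776880) (l 195119022535))) (c (l 98482260007) (a (a (l 16776992) (l 109219677015)) (l 4)))))) (b (c (a (l 16776464) (l 183307862855)) (a (c (l 16776464) (a (l 16774760) (c (l 16776848) (l 16777176)))) (c (l 187065959223) (a (c (l 133378868503) (l 179012895127)) (l 4))))) (a (a (c (l 16776696) (l 16776856)) (c (l 16777968) (a (b (l 16777112) (l 126936417079)) (l 206393311687))))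 (l 4)))) (a (a (b (b (c (l 16777184) (a (c (l 16777080) (l 16777568)) (b (l 96334775111) (l 4)))) (l 4)) (l 4)) (l 4)) (l 4)))), by decide +kernel⟩

def k64_mm_202_t : ∃ t, chk3 f_mm_202_t t 483 73 1 = true :=
  ⟨(b (a (c (b (l 16774416) (b (l 16776896) (a (c (l 16778320) (l 16778320)) (l 172570444423)))) (b (b (c (l 16773784) (a (l 16773368) (l 16772856))) (a (b (l 16774304) (l 16773616)) (b (l 16773792) (l 16774408)))) (b (c (l 16776240) (b (l 16775936) (b (l 16776400) (a (l 16775000) (a (l 16776912) (l 83449873127)))))) (b (a (c (l 16776768) (l 16777096)) (a (b (l 58216940263) (l 158611800871)) (l 4))) (a (b (a (l 16777032) (l 126936417079)) (c (l 16777368) (l 174717927735))) (l 4)))))) (b (c (b (l 16775384) (c (l 16777792) (l 16777872))) (a (c (l 16775592) (b (l 16773648) (l 16776200))) (b (b (l 16774144) (l 16776072)) (c (l 16778080) (b (l 16776688) (a (b (l 16776952) (l 16777568)) (a (l 107609064327) (l 213909504391)))))))) (a (b (c (c (l 76470551399) (l 76470552711)) (a (b (l 16777248)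 (c (l 16777376) (l 180623507767))) (b (b (l 16777472) (l 140895060807)) (l 4)))) (l 4)) (l 4)))) (l 4)), by decide +kernel⟩

def k65_mm_202_t : ∃ t, chk3 f_mm_202_t t 121 288 1 = true :=
  ⟨(b (a (a (a (c (l 16767112) (l 16767040)) (c (l 16768688) (l 16769288))) (c (c (l 16768456) (l 16768432)) (c (a (l 16770232) (l 16771832)) (a (l 16770216) (c (l 16771816) (l 16771808)))))) (a (c (a (l 16770824) (l 16775040)) (a (c (l 16770808) (c (l 16773416) (a (l 16773008) (l 16773816)))) (c (l 16772408) (c (l 16773712) (a (l 16773304) (c (l 16774112) (l 16774112))))))) (a (a (c (l 16776240) (c (l 16776232) (l 16776232))) (b (c (l 16776720) (c (l 16776720) (c (l 16776712) (l 16776880)))) (c (l 72175584871) (c (l 71638713799) (a (a (l 16777360) (b (l 16777080) (l 140358189607))) (c (l 131768255479) (l 181697249591))))))) (a (b (a (c (l 16777232) (a (b (l 16777064) (l 124788933255)) (b (l 79691776583) (l 4)))) (l 4)) (l 4)) (l 4))))) (a (a (c (a (l 16768344) (l 16769928)) (c (l 16769088) (c (l 16769072)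 (l 16770368)))) (a (c (l 16771504) (c (l 16771472) (c (l 16771464) (l 16771448)))) (c (l 16770472) (c (l 16773072) (a (l 16772656) (l 16772144)))))) (a (c (a (l 16772720) (c (l 16776264) (l 16776256))) (c (a (l 16772048) (l 16776824)) (a (c (l 16773352) (a (l 16772944) (l 16773752))) (b (l 16775960) (a (l 16774864) (b (l 16776824) (a (l 16776936) (a (l 16777200) (l 163980509703))))))))) (a (a (c (b (l 16777760) (l 142505674439)) (a (c (c (l 16777800) (l 62511906999)) (b (c (l 16776952) (l 16777272)) (c (l 141968802807) (l 189213442407)))) (b (b (a (l 16777096) (l 90966065799)) (l 155927446311)) (l 4)))) (l 4)) (l 4))))), by decide +kernel⟩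

def k66_mm_202_t : ∃ t, chk3 f_mm_202_t t 121 289 1 = true :=
  ⟨(a (a (b (c (c (l 16767760) (l 16770352)) (c (l 16767704) (a (l 16769504) (l 16771104)))) (c (c (l 16768992) (l 16768968)) (c (a (l 16770768) (l 16772360)) (a (l 16770752) (c (l 16772352) (l 16772344)))))) (c (c (l 16774160) (l 16774144)) (c (c (l 16774136) (l 16774128)) (a (a (b (l 16772296) (l 16772232)) (c (l 16771760) (b (l 16773096) (l 16773032)))) (c (l 16774928) (a (b (l 16773896) (l 16773832)) (b (l 16773392) (c (l 16774632) (l 16774632))))))))) (b (a (a (c (l 16775920) (c (l 16775912) (c (l 16775904) (c (l 16775904) (l 16775904))))) (c (a (b (l 16776792) (l 83986744967)) (l 175791669943)) (b (a (c (l 16776792) (c (l 16776784) (a (l 16775288) (l 16777352)))) (a (b (a (l 16777136) (l 112440902247)) (l 175791670007)) (l 4))) (a (c (l 83986744791) (a (b (l 16777056) (l 110293418695)) (l 194045280663))) (l 4))))) (l 4)) (a (a (c (a (l 16777376) (b (l 16777792) (l 158611801719))) (b (a (l 16776440) (a (a (l 16776936) (b (l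 16776984) (l 86671098487))) (b (a (l 16777168) (l 126399546007)) (l 4)))) (c (a (l 16777016) (l 172033574247)) (b (a (l 16777224) (l 204245828071)) (a (a (l 16777008) (l 119957095159)) (l 4)))))) (l 4)) (l 4)))), by decide +kernel⟩

def k67_mm_202_t : ∃ t, chk3 f_mm_202_t t 242 145 1 = true :=
  ⟨(b (b (a (a (c (l 16772040) (c (l 16772008) (c (l 16771992) (l 16771984)))) (c (l 16771000) (c (l 16773600) (a (l 16773184) (l 16772672))))) (a (c (l 16775208) (c (l 16772576) (c (l 16773880) (a (l 16773472) (l 16774272))))) (c (a (l 16776392) (b (l 16776864) (l 95797905063))) (c (b (l 16776472) (a (l 16776696) (l 97945388503))) (a (b (l 16774768) (l 16776856)) (b (a (l 16776680) (b (l 16776928) (l 62511906839))) (b (a (l 16777120) (l 175791669943)) (l 194045280695)))))))) (a (c (l 16774064) (a (c (l 16773248) (a (l 16772832) (l 16772320))) (c (l 16772216) (a (l 16773120) (a (l 16773720) (l 16774120)))))) (a (c (c (l 16777064) (l 16777064)) (b (c (l 16776120) (l 16776120)) (a (l 16776344) (c (l 16777080)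 (a (l 16776928) (b (l 16777480) (l 154316833463))))))) (a (b (c (l 16777856) (c (l 16777928) (a (b (l 16776960) (l 73249325783)) (c (l 125862675447) (l 176865411351))))) (l 4)) (l 4))))) (b (a (c (a (l 16771880) (l 16776080)) (c (l 16775280) (c (a (l 16771856) (l 16776072)) (a (a (l 16774072) (l 16773560)) (a (l 16774360) (b (l 16774848) (l 16777096))))))) (a (a (b (c (l 16776936) (a (l 16776760) (b (l 16777000) (c (l 16777240) (l 86134227687))))) (c (l 108682806967) (a (b (a (l 16777120) (l 99019129495)) (l 164517380919)) (l 4)))) (a (b (c (l 16777384) (c (l 16777384) (l 182770991431))) (l 4)) (l 4))) (l 4))) (a (c (a (l 16775728) (a (l 16778176) (c (l 110830290983) (l 111367161879)))) (a (c (l 16775720) (c (l 16775720) (l 16775712))) (a (b (l 16776608) (c (l 16777128) (a (c (l 16777008) (l 16777328)) (b (l 70564971223) (l 4))))) (b (b (a (l 16777040) (l 128010158919)) (c (l 16777704) (l 177402282295))) (l 4))))) (l 4)))), by decide +kernel⟩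

def k68_mm_202_t : ∃ t, chk3 f_mm_202_t t 243 145 1 = true :=
  ⟨(a (a (a (b (b (c (l 182770991895) (c (l 187602830071) (b (c (l 181160378807) (a (l 169349217879) (l 4))) (l 4)))) (l 4)) (l 4)) (l 4)) (l 4)) (l 4)), by decide +kernel⟩

def k69_mm_202_t : ∃ t, chk3 f_mm_202_t t 121 73 1 = true :=
  ⟨(a (b (a (b (a (a (b (c (l 16776552) (a (l 16776280) (b (l 16776448) (b (l 16776912) (l 59290681431))))) (b (c (l 94187292311) (a (b (l 16777112) (l 124252062567)) (l 202635215319))) (l 4))) (b (b (c (l 16777008) (a (l 16776840) (b (l 16777072) (a (l 16777568) (l 4))))) (a (b (c (l 16777240) (a (l 16777184) (l 143579415127))) (l 4)) (l 4))) (l 4))) (b (c (l 204782699863) (c (l 210688279863) (a (b (l 203708957287) (l 4)) (l 4)))) (l 4))) (l 4)) (l 4)) (l 4)) (l 4)), by decide +kernel⟩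

def k70_mm_202_t : ∃ t, chk3 f_mm_202_t t 60 37 1 = true :=
  ⟨(a (b (a (b (b (a (c (a (l 16774800) (a (l 16776616) (b (l 16776144) (l 67880617095)))) (b (c (l 16774952) (a (c (l 16774152) (l 16772840)) (l 16775728))) (b (c (l 16775856) (a (l 16773768) (a (l 16774952) (a (l 16776848) (a (l 16777120) (l 89892324231)))))) (a (l 16775696) (c (l 60901294839) (a (l 16777184) (l 177939153303))))))) (a (a (c (b (l 16778184) (l 197803377575)) (b (b (l 16776608) (a (l 16777504) (b (l 16777536) (l 4)))) (c (l 207467053975) (l 205856441223)))) (b (c (l 104387840503) (c (l 107072194727) (b (c (l 86671099159) (a (l 7214203735) (l 151095608231))) (l 4)))) (l 4))) (l 4))) (a (b (c (a (c (l 16777896) (l 16776576)) (l 176328541111)) (a (c (l 16777888) (b (l 16776304) (a (l 16776536) (a (l 16777088) (l 123178320967))))) (a (b (a (a (l 16777648) (l 104924709831)) (l 166127994039)) (l 4)) (l 4)))) (a (a (c (a (l 16778440) (l 110293420183)) (c (l 79691778183) (b (a (l 16776936) (l 85060486151)) (l 190287184391))))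 (l 4)) (l 4))) (l 4))) (l 4)) (l 4)) (l 4)) (l 4)), by decide +kernel⟩

def k71_mm_202_t : ∃ t, chk3 f_mm_202_t t 61 18 1 = true :=
  ⟨(l 4), by decide +kernel⟩

def k72_mm_202_t : ∃ t, chk3 f_mm_202_t t 30 19 1 = true :=
  ⟨(l 4), by decide +kernel⟩

def k73_mm_202_t : ∃ t, chk3 f_mm_202_t t 31 9 1 = true :=
  ⟨(l 4), by decide +kernel⟩

def k74_mm_202_t : ∃ t, chk3 f_mm_202_t t 12 10 1 = true :=
  ⟨(a (a (b (b (l 16578856) (l 16612960)) (b (b (l 16630344) (l 16639344)) (l 16673776))) (b (b (a (l 16612656) (l 16621480)) (b (l 16629704) (l 16638544))) (b (b (l 16647536) (l 16656512)) (b (l 16665448) (l 16674336))))) (a (b (b (b (l 16630952) (l 16639136)) (b (l 16647632) (l 16656472))) (b (c (l 16691104) (l 16690816)) (b (l 16683320) (l 16713160)))) (b (b (b (l 16670408) (l 16678624)) (b (l 16687144) (l 16696000))) (b (b (l 16704992) (c (l 16693096) (l 16692912))) (b (a (l 16697144) (l 16706608)) (a (l 16706000) (l 16715472))))))), by decide +kernel⟩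

def k75_mm_202_t : ∃ t, chk3 f_mm_202_t t 26 10 1 = true :=
  ⟨(a (b (b (b (a (l 16663664) (l 16694360)) (a (l 16671912) (l 16679048))) (b (c (l 16706336) (l 16685440)) (c (l 16715232) (l 16715296)))) (a (b (b (l 16698360) (l 16707336)) (b (l 16737240) (c (l 16725288) (l 16725000)))) (b (b (c (l 16708216) (l 16708184)) (c (l 16717248) (l 16717136))) (c (b (l 16726216) (l 16735112)) (b (l 16726040) (l 16734888)))))) (b (c (b (b (a (l 16683568) (l 16693640)) (a (l 16691720) (l 16701888))) (a (b (l 16700240) (l 16709160)) (b (l 16710424) (l 16719368)))) (b (b (l 16701112) (a (l 16691488) (l 16701584))) (a (b (l 16700208) (l 16709152)) (b (l 16710336) (l 16719320))))) (b (b (c (a (l 16718248) (l 16738960)) (a (l 16718176) (l 16717896))) (a (c (l 16727280) (l 16727160)) (c (b (l 16735256) (l 16739768)) (b (l 16735144) (l 16739640))))) (b (a (c (l 16725776) (l 16715128)) (c (c (l 16736064) (l 16725504)) (c (l 16725432) (l 16735856)))) (a (c (a (l 16742616) (l 16747688)) (a (l 16742416) (l 16747512)))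 (c (a (l 16742328) (l 16747512)) (b (l 16742568) (l 16747000)))))))), by decide +kernel⟩

def k76_mm_202_t : ∃ t, chk3 f_mm_202_t t 54 10 1 = true :=
  ⟨(b (b (b (c (a (l 16703880) (l 16714256)) (a (l 16703192) (l 16713576))) (a (c (l 16712216) (l 16711872)) (c (l 16733216) (l 16732856)))) (c (b (a (l 16731288) (b (l 16729200) (l 16733592))) (a (b (l 16727496) (l 16732056)) (b (l 16738104) (l 16742680)))) (b (a (l 16720680) (b (l 16729016) (l 16733488))) (a (b (l 16727424) (l 16731984)) (b (l 16738032) (l 16742608)))))) (b (b (c (a (b (l 16736616) (l 16741168)) (b (l 16736776) (a (l 16749128) (l 16754504)))) (a (a (l 16736168) (l 16741440)) (b (l 16736696) (a (l 16749040) (l 16754432))))) (b (a (c (l 16745704) (l 16745600)) (c (c (l 16745904) (l 16745864)) (a (l 16753584) (l 16758992)))) (a (c (l 16739736) (l 16739632)) (c (c (l 16750424) (l 16750392)) (c (l 16750360) (l 16750328)))))) (a (b (b (c (l 16744240) (l 16744136)) (c (l 16748720) (c (l 16738160) (l 16748600)))) (c (b (l 16753176)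 (l 16768088)) (c (l 16765832) (l 16765792)))) (c (b (b (l 16765408) (l 16769888)) (a (a (l 16772512) (b (l 16772992) (l 66270010775))) (b (a (l 16775592) (l 90429202631)) (l 211762018951)))) (b (a (l 16764888) (b (l 16757568) (l 16772560))) (a (b (l 16771608) (a (l 16774688) (a (l 16779832) (l 86671102023)))) (b (a (l 16779504) (b (l 16779536) (l 226257532487))) (l 222499433559)))))))), by decide +kernel⟩

def k77_mm_202_t : ∃ t, chk3 f_mm_202_t t 55 20 1 = true :=
  ⟨(b (b (b (a (c (l 16722616) (l 16721928)) (c (l 16733256) (l 16732680))) (a (c (l 16726928) (l 16726384)) (c (l 16737648) (l 16747680)))) (b (a (c (l 16731248) (l 16730840)) (a (l 16744400) (a (l 16743248) (l 16751240)))) (a (c (l 16735600) (l 16735312)) (c (a (l 16743744) (l 16749232)) (a (l 16743488) (l 16749008)))))) (a (b (b (c (l 16739976) (l 16739792)) (a (l 16746856) (a (l 16745704) (l 16748456)))) (b (c (a (l 16746192) (l 16751664)) (a (l 16746120) (l 16751600))) (a (a (l 16749384) (l 16746872)) (b (l 16755080) (l 16752144)))))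 (c (b (a (b (l 16748184) (l 16752648)) (b (l 16753720) (l 16747736))) (b (a (l 16757192) (l 16757536)) (l 16764608))) (b (a (b (l 16748016) (l 16752560)) (b (l 16753576) (l 16747656))) (c (l 16764896) (a (b (l 16757128) (l 16761752)) (b (l 16752248) (l 16762128)))))))), by decide +kernel⟩

def k78_mm_202_t : ∃ t, chk3 f_mm_202_t t 55 21 1 = true :=
  ⟨(b (b (a (c (a (b (l 16755368) (l 16759944)) (l 16763160)) (a (b (l 16755312) (l 16759888)) (b (l 16750328) (l 16760160)))) (b (b (c (l 16768064) (l 16768040)) (c (l 16770368) (l 16770344))) (a (c (l 16771000) (l 16770976)) (a (c (l 16775136) (c (l 16775128) (l 16777736))) (c (b (l 16776704) (l 136600098599)) (b (c (l 16776688) (l 9898561943)) (l 190824054551))))))) (a (b (c (l 16767256) (a (l 16753968) (l 16769976))) (b (c (l 16770664) (l 16770632)) (a (l 16770152) (c (l 16775560) (a (l 16774280) (l 19562238839)))))) (b (b (a (c (l 16774400) (l 16774384)) (c (l 169886091575) (l 187065957735))) (a (a (l 16775288) (c (l 92039812903) (c (l 16779704)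 (l 92576683255)))) (l 4))) (a (a (b (c (l 16779648) (l 71638715239)) (l 4)) (l 4)) (l 4))))) (a (b (b (c (a (l 16773520) (a (b (l 16776440) (l 121030842055)) (l 203708957559))) (a (a (l 16772152) (l 16774864)) (a (b (l 16776424) (l 119957100215)) (l 223036307271)))) (a (a (b (l 16775520) (b (l 58753809527) (l 112977777335))) (c (l 166664863751) (l 179012892711))) (l 4))) (l 4)) (l 4))), by decide +kernel⟩

def k79_mm_202_t : ∃ t, chk3 f_mm_202_t t 6 22 1 = true :=
  ⟨(a (b (a (a (b (l 16666104) (l 16674896)) (b (l 16683160) (l 16691904))) (a (b (c (l 16701400) (l 16700584)) (c (l 16710168) (l 16709240))) (b (a (l 16714784) (l 16708528)) (a (l 16702520) (c (l 16733208) (l 16732720)))))) (a (a (b (l 16683600) (l 16692216)) (c (l 16684568) (l 16683264))) (a (b (a (l 16713776) (l 16722840)) (a (l 16722312) (l 16731368))) (a (b (l 16716376) (l 16730128)) (c (l 16746080) (l 16749728)))))) (b (a (a (b (c (a (l 16734096) (l 16722952)) (a (l 16733768) (l 16722704))) (c (l 16758224) (a (l 16721488) (c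 (l 16731472) (l 16731360))))) (b (c (a (c (l 16743528) (l 16732944)) (l 16764216)) (a (a (l 16730248) (l 16745848)) (b (l 16751416) (l 16766304)))) (a (c (l 16762664) (l 16762520)) (b (c (l 16770736) (l 16770672)) (a (l 16772440) (a (b (l 16775256) (l 65733135735)) (c (l 103314104887) (l 104387843959)))))))) (a (a (a (b (b (l 16769816) (c (l 16774168) (l 16774136))) (b (b (a (l 16776096) (l 117272746311)) (c (l 179549763511) (l 191360921751))) (l 4))) (b (b (c (l 16780256) (a (l 16773776) (c (l 16776264) (l 8824821735)))) (c (l 155927443767) (c (l 165054247943) (l 170959827095)))) (l 4))) (b (a (b (c (l 178476022071) (l 191360921303)) (l 4)) (l 4)) (l 4))) (l 4))) (a (a (a (b (l 16756480) (c (l 16759872) (l 16759600))) (b (c (l 16761216) (l 16761016)) (c (l 16772264) (b (l 16767424) (l 16771640))))) (a (b (a (c (l 16768704) (l 16768592)) (b (l 16771600) (a (l 16774584) (b (l 16776040) (l 93650426423))))) (c (a (b (l 16774944) (l 93113560279)) (l 176328533527)) (b (a (l 16780144) (l 176328534471))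 (b (l 188139693111) (l 210688267159))))) (b (b (a (c (l 25467823959) (a (l 16775376) (l 79691781831))) (l 218741335543)) (c (l 213909496599) (l 212298879463))) (l 4)))) (l 4)))), by decide +kernel⟩

def k80_mm_202_t : ∃ t, chk3 f_mm_202_t t 6 23 1 = true :=
  ⟨(a (b (c (a (l 16734944) (a (l 16739768) (b (l 16753944) (l 16762144)))) (a (l 16739104) (a (l 16739168) (b (l 16753568) (l 16761920))))) (a (b (l 16746776) (l 16757488)) (a (b (l 16751752) (l 16759776)) (a (b (l 16765448) (c (l 16773288) (a (l 16771088) (l 27615309607)))) (b (b (l 16772776) (a (l 16774448) (l 90966075943))) (b (l 172570436007) (l 4))))))) (a (a (b (a (c (b (l 16768192) (a (l 16773848) (l 73786208983))) (b (l 16768056) (a (l 16773784) (b (l 16776432) (l 198340239399))))) (b (a (b (l 16773400) (a (l 16776184) (l 94187298935))) (b (a (l 37815852295) (l 132841995591)) (l 4))) (a (l 208003911463) (l 4)))) (a (b (a (l 193508399495) (l 4)) (l 4)) (l 4))) (l 4)) (l 4))), by decide +kernel⟩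

def k81_mm_202_t : ∃ t, chk3 f_mm_202_t t 56 40 1 = true :=
  ⟨(b (c (a (a (b (l 16741328) (l 16745792)) (b (l 16746776) (l 16751280))) (b (a (l 16752280) (a (l 16756456) (l 16759280))) (a (l 16750272) (c (l 16757256) (l 16751944))))) (a (a (b (l 16740864) (l 16745424)) (b (l 16746392) (l 16750992))) (b (a (l 16751984) (a (l 16756224) (l 16759080))) (a (c (l 16756672) (l 16756560)) (a (l 16760880) (l 16758512)))))) (a (c (a (b (l 16750272) (l 16754768)) (b (l 16745320) (a (l 16758952) (l 16761752)))) (b (a (l 16750000) (l 16747736)) (a (l 16754592) (a (l 16758800) (l 16761632))))) (c (a (b (c (l 16750944) (l 16761360)) (c (l 16760768) (l 16755488))) (b (b (l 16760672) (l 16762992)) (l 16771712))) (a (b (c (l 16761296) (l 16755976)) (b (l 16759496) (l 16761824))) (b (a (l 16760304) (a (l 16762464) (l 16763912))) (c (l 16771688) (l 16771672))))))), by decide +kernel⟩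

def k82_mm_202_t : ∃ t, chk3 f_mm_202_t t 57 40 1 = true :=
  ⟨(a (b (c (b (a (a (l 16762112) (l 16759736)) (l 16769312)) (b (a (l 16761776) (l 16772816)) (a (l 16764104) (a (l 16773696) (a (l 16775872) (l 65733136631)))))) (a (b (a (l 16756712) (a (l 16764120) (l 16760328))) (c (l 16762880) (a (l 16761376) (l 16764296)))) (b (a (c (l 16767784) (l 16762496)) (b (l 16764272) (l 16766640))) (b (l 16772776) (a (l 16773664) (a (l 16775864) (b (l 16776712) (l 114051517367)))))))) (a (b (c (b (l 16771672) (l 16773992)) (b (l 16771632) (a (l 16767272) (l 16776728)))) (b (a (c (l 16774888) (l 16774872)) (b (a (l 16777440) (c (l 16777504) (l 114588388279))) (c (l 116735873639) (l 161296155511)))) (a (a (c (l 16776432) (l 16777728)) (b (a (l 16776952) (l 109219678855)) (l 4))) (l 4)))) (b (a (c (b (l 16778584) (l 151095605463)) (b (a (l 16775296) (b (l 16776168) (l 67343747895))) (a (b (l 16776960) (l 138747579319)) (l 207467054727)))) (b (c (l 169886090743) (a (b (l 90429197191) (l 4)) (l 4))) (l 4)))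 (l 4)))) (b (b (a (a (c (l 16773688) (c (l 16773656) (l 16773640))) (b (c (l 16775424) (c (l 16775408) (l 16776712))) (c (a (l 16779528) (l 173107315879)) (a (b (l 16776448) (l 90429197207)) (b (l 114051517399) (l 4)))))) (a (a (b (c (l 83449876679) (b (a (l 16776680) (l 16778528)) (l 140895062919))) (l 4)) (l 4)) (l 4))) (a (a (b (a (b (l 16775880) (c (l 16776968) (l 16776960))) (c (l 95797908055) (c (l 97408520103) (l 148411250487)))) (c (l 197803378823) (l 198877119223))) (l 4)) (l 4))) (l 4))), by decide +kernel⟩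

def k83_mm_202_t : ∃ t, chk3 f_mm_202_t t 28 41 1 = true :=
  ⟨(a (a (b (b (a (c (l 16754056) (a (l 16757768) (l 16760592))) (a (b (l 16762312) (l 16759376)) (c (l 16761088) (l 16761024)))) (c (c (l 16766680) (l 16766664)) (a (c (l 16763800) (l 16758528)) (l 16769488)))) (a (c (b (l 16768440) (l 16774360)) (c (b (l 16757928) (l 16773040)) (b (l 16761848) (l 16774344)))) (b (b (c (l 16772984) (l 16772968)) (a (l 16773864) (c (l 16779200) (a (l 16775992) (l 68954359559))))) (b (a (c (l 16776104) (c (l 16776096) (l 16776088))) (c (l 170959832615) (l 174717928455))) (a (c (l 107072198823) (c (l 108145939895) (l 162369896503))) (l 4)))))) (b (a (b (c (l 16770608) (c (l 16770576) (l 16770560))) (a (c (l 16773800) (l 16773792)) (b (c (l 16775496) (l 16775488)) (c (l 81839263287) (a (a (l 16776696) (l 74859941415)) (l 130694517191)))))) (b (b (b (c (l 16774600) (l 16775896)) (a (l 16774328) (a (l 16776480) (a (l 95797906039) (l 4))))) (a (c (l 16776008) (c (l 16776000) (l 16778616))) (c (l 169349219831)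 (c (l 170959832487) (l 172570445175))))) (a (b (c (l 103850972039) (c (l 103314101799) (l 152706218135))) (l 4)) (l 4)))) (a (b (a (b (c (l 62511907271) (a (l 16776488) (l 97408518167))) (c (l 198877120631) (l 202098345735))) (l 4)) (l 4)) (l 4)))) (a (b (a (b (a (b (c (l 197266507879) (l 198340249575)) (l 4)) (l 4)) (l 4)) (l 4)) (l 4)) (l 4))), by decide +kernel⟩

def k84_mm_202_t : ∃ t, chk3 f_mm_202_t t 28 21 1 = true :=
  ⟨(a (b (a (b (a (b (a (c (b (l 16775096) (l 66806879751)) (c (l 16780328) (b (l 16775088) (l 65733134759)))) (b (c (l 86134233015) (a (l 16778968) (l 136063226247))) (l 4))) (c (l 203708961159) (l 224646922215))) (l 4)) (l 4)) (l 4)) (l 4)) (l 4)), by decide +kernel⟩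

def k85_mm_202_t : ∃ t, chk3 f_mm_202_t t 29 10 1 = true :=
  ⟨(l 4), by decide +kernel⟩

def k86_mm_202_t : ∃ t, chk3 f_mm_202_t t 15 10 1 = true :=
  ⟨(l 4), by decide +kernel⟩

def k87_mm_202_t : ∃ t, chk3 f_mm_202_t t 7 11 1 = true :=
  ⟨(l 4), by decide +kernel⟩

def k88_mm_202_t : ∃ t, chk3 f_mm_202_t t 2 3 1 = true :=
  ⟨(b (a (b (a (b (l 6) (l 16600552)) (b (l 16631504) (l 16678744))) (a (b (l 16623120) (l 16644376)) (b (a (l 16649272) (l 16671224)) (a (l 16671464) (l 16694640))))) (b (a (b (a (l 16579704) (l 16666688)) (a (l 16670416) (b (l 16667224) (l 16680720)))) (b (a (a (l 16686056) (l 16720808)) (b (l 16734976) (a (l 16700824) (l 16736912)))) (b (a (l 16714792) (a (l 16736272) (l 16772440))) (a (l 16728536) (a (l 16750184) (c (l 16786432) (l 16765456))))))) (a (b (a (l 16717056) (b (l 16714968) (l 16728024))) (a (b (l 16714824) (l 16727072)) (b (l 16761856) (c (l 16774384) (l 16753704))))) (a (b (b (l 16768288) (a (l 16748224) (l 16783480))) (a (b (l 16782264) (c (c (c (l 51774517895)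 (l 49627033895)) (l 85597289607)) (l 83986676791))) (c (b (a (l 16785008) (a (l 64659413415) (l 94724186999))) (l 161832999063)) (b (l 87207893479) (l 160222384007))))) (b (a (b (c (l 16763880) (l 16763912)) (b (c (l 45868928791) (l 16773696)) (a (l 61975052631) (l 4)))) (b (a (c (b (l 16771904) (l 82376148231)) (l 78617974407)) (c (l 145190005607) (l 147337495495))) (l 4))) (a (b (b (l 165054226391) (l 4)) (l 4)) (l 4))))))) (a (l 2) (a (l 2) (a (l 2) (l 4))))), by decide +kernel⟩

def k89_mm_202_t : ∃ t, chk3 f_mm_202_t t 3 3 1 = true :=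
  ⟨(b (a (a (b (b (a (a (b (l 16737416) (b (l 16727968) (l 16756440))) (b (b (l 16729184) (l 16757920)) (b (l 16776016) (a (l 16768744) (b (l 16775160) (l 82376145111)))))) (b (a (c (a (l 16767096) (b (l 16772064) (l 77007441687))) (a (l 16767000) (b (l 16772008) (a (l 56069469607) (l 182770978999))))) (a (b (c (l 141431922727) (l 146263759031)) (l 4)) (l 4))) (a (a (b (b (l 47479534311) (l 105461595399)) (l 4)) (l 4)) (l 4)))) (a (b (b (a (l 16763712) (a (c (l 16775632) (l 16775592)) (l 173107297559))) (a (c (l 16781208) (l 16770688)) (a (l 164517365879) (l 4)))) (a (b (a (l 16784200) (a (l 99019144695) (l 4))) (b (l 157001172887) (l 169886066391))) (l 4))) (l 4))) (l 4)) (l 4)) (l 4)) (l 4)), by decide +kernel⟩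

theorem s90_mm_202_t : ∃ t, chk3 f_mm_202_t t 1 3 1 = true := ex3_a k88_mm_202_t k89_mm_202_t

theorem s91_mm_202_t : ∃ t, chk3 f_mm_202_t t 28 40 1 = true := ex3_a k81_mm_202_t k82_mm_202_t

theorem s92_mm_202_t : ∃ t, chk3 f_mm_202_t t 28 20 1 = true := ex3_b s91_mm_202_t k83_mm_202_t

theorem s93_mm_202_t : ∃ t, chk3 f_mm_202_t t 28 10 1 = true := ex3_b s92_mm_202_t k84_mm_202_t

theorem s94_mm_202_t : ∃ t, chk3 f_mm_202_t t 14 10 1 = true := ex3_a s93_mm_202_t k85_mm_202_t

theorem s95_mm_202_t : ∃ t, chk3 f_mm_202_t t 7 10 1 = true := ex3_a s94_mm_202_t k86_mm_202_t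

theorem s96_mm_202_t : ∃ t, chk3 f_mm_202_t t 7 5 1 = true := ex3_b s95_mm_202_t k87_mm_202_t

theorem s97_mm_202_t : ∃ t, chk3 f_mm_202_t t 6 11 1 = true := ex3_b k79_mm_202_t k80_mm_202_t

theorem s98_mm_202_t : ∃ t, chk3 f_mm_202_t t 55 10 1 = true := ex3_b k77_mm_202_t k78_mm_202_t

theorem s99_mm_202_t : ∃ t, chk3 f_mm_202_t t 27 10 1 = true := ex3_a k76_mm_202_t s98_mm_202_t

theorem s100_mm_202_t : ∃ t, chk3 f_mm_202_t t 13 10 1 = true := ex3_a k75_mm_202_t s99_mm_202_t

theorem s101_mm_202_t : ∃ t, chk3 f_mm_202_t t 6 10 1 = true := ex3_a k74_mm_202_t s100_mm_202_t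

theorem s102_mm_202_t : ∃ t, chk3 f_mm_202_t t 6 5 1 = true := ex3_b s101_mm_202_t s97_mm_202_t

theorem s103_mm_202_t : ∃ t, chk3 f_mm_202_t t 3 5 1 = true := ex3_a s102_mm_202_t s96_mm_202_t

theorem s104_mm_202_t : ∃ t, chk3 f_mm_202_t t 121 145 1 = true := ex3_a k67_mm_202_t k68_mm_202_t

theorem s105_mm_202_t : ∃ t, chk3 f_mm_202_t t 121 144 1 = true := ex3_b k65_mm_202_t k66_mm_202_t

theorem s106_mm_202_t : ∃ t, chk3 f_mm_202_t t 121 72 1 = true := ex3_b s105_mm_202_t s104_mm_202_t

theorem s107_mm_202_t : ∃ t, chk3 f_mm_202_t t 121 36 1 = true := ex3_b s106_mm_202_t k69_mm_202_t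

theorem s108_mm_202_t : ∃ t, chk3 f_mm_202_t t 241 73 1 = true := ex3_a k63_mm_202_t k64_mm_202_t

theorem s109_mm_202_t : ∃ t, chk3 f_mm_202_t t 120 73 1 = true := ex3_a k62_mm_202_t s108_mm_202_t

theorem s110_mm_202_t : ∃ t, chk3 f_mm_202_t t 120 36 1 = true := ex3_b k61_mm_202_t s109_mm_202_t

theorem s111_mm_202_t : ∃ t, chk3 f_mm_202_t t 60 36 1 = true := ex3_a s110_mm_202_t s107_mm_202_t

theorem s112_mm_202_t : ∃ t, chk3 f_mm_202_t t 60 18 1 = true := ex3_b s111_mm_202_t k70_mm_202_t

theorem s113_mm_202_t : ∃ t, chk3 f_mm_202_t t 30 18 1 = true := ex3_a s112_mm_202_t k71_mm_202_t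

theorem s114_mm_202_t : ∃ t, chk3 f_mm_202_t t 30 9 1 = true := ex3_b s113_mm_202_t k72_mm_202_t

theorem s115_mm_202_t : ∃ t, chk3 f_mm_202_t t 15 9 1 = true := ex3_a s114_mm_202_t k73_mm_202_t

theorem s116_mm_202_t : ∃ t, chk3 f_mm_202_t t 59 38 1 = true := ex3_a k58_mm_202_t k59_mm_202_t

theorem s117_mm_202_t : ∃ t, chk3 f_mm_202_t t 58 77 1 = true := ex3_b k56_mm_202_t k57_mm_202_t

theorem s118_mm_202_t : ∃ t, chk3 f_mm_202_t t 58 38 1 = true := ex3_b k55_mm_202_t s117_mm_202_t

theorem s119_mm_202_t : ∃ t, chk3 f_mm_202_t t 29 38 1 = true := ex3_a s118_mm_202_t s116_mm_202_t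

theorem s120_mm_202_t : ∃ t, chk3 f_mm_202_t t 29 19 1 = true := ex3_b s119_mm_202_t k60_mm_202_t

theorem s121_mm_202_t : ∃ t, chk3 f_mm_202_t t 28 39 1 = true := ex3_b k53_mm_202_t k54_mm_202_t

theorem s122_mm_202_t : ∃ t, chk3 f_mm_202_t t 28 19 1 = true := ex3_b k52_mm_202_t s121_mm_202_t

theorem s123_mm_202_t : ∃ t, chk3 f_mm_202_t t 14 19 1 = true := ex3_a s122_mm_202_t s120_mm_202_t

theorem s124_mm_202_t : ∃ t, chk3 f_mm_202_t t 239 37 1 = true := ex3_b k50_mm_202_t k51_mm_202_t

theorem s125_mm_202_t : ∃ t, chk3 f_mm_202_t t 238 37 1 = true := ex3_b k48_mm_202_t k49_mm_202_t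

theorem s126_mm_202_t : ∃ t, chk3 f_mm_202_t t 119 37 1 = true := ex3_a s125_mm_202_t s124_mm_202_t

theorem s127_mm_202_t : ∃ t, chk3 f_mm_202_t t 118 37 1 = true := ex3_b k46_mm_202_t k47_mm_202_t

theorem s128_mm_202_t : ∃ t, chk3 f_mm_202_t t 59 37 1 = true := ex3_a s127_mm_202_t s126_mm_202_t

theorem s129_mm_202_t : ∃ t, chk3 f_mm_202_t t 29 37 1 = true := ex3_a k45_mm_202_t s128_mm_202_t

theorem s130_mm_202_t : ∃ t, chk3 f_mm_202_t t 59 36 1 = true := ex3_a k43_mm_202_t k44_mm_202_t

theorem s131_mm_202_t : ∃ t, chk3 f_mm_202_t t 29 36 1 = true := ex3_a k42_mm_202_t s130_mm_202_t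

theorem s132_mm_202_t : ∃ t, chk3 f_mm_202_t t 29 18 1 = true := ex3_b s131_mm_202_t s129_mm_202_t

theorem s133_mm_202_t : ∃ t, chk3 f_mm_202_t t 14 18 1 = true := ex3_a k41_mm_202_t s132_mm_202_t

theorem s134_mm_202_t : ∃ t, chk3 f_mm_202_t t 14 9 1 = true := ex3_b s133_mm_202_t s123_mm_202_t

theorem s135_mm_202_t : ∃ t, chk3 f_mm_202_t t 7 9 1 = true := ex3_a s134_mm_202_t s115_mm_202_t

theorem s136_mm_202_t : ∃ t, chk3 f_mm_202_t t 492 140 1 = true := ex3_b k34_mm_202_t k35_mm_202_t

theorem s137_mm_202_t : ∃ t, chk3 f_mm_202_t t 492 70 1 = true := ex3_b s136_mm_202_t k36_mm_202_t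

theorem s138_mm_202_t : ∃ t, chk3 f_mm_202_t t 492 35 1 = true := ex3_b s137_mm_202_t k37_mm_202_t

theorem s139_mm_202_t : ∃ t, chk3 f_mm_202_t t 246 35 1 = true := ex3_a s138_mm_202_t k38_mm_202_t

theorem s140_mm_202_t : ∃ t, chk3 f_mm_202_t t 123 35 1 = true := ex3_a s139_mm_202_t k39_mm_202_t

theorem s141_mm_202_t : ∃ t, chk3 f_mm_202_t t 244 142 1 = true := ex3_a k30_mm_202_t k31_mm_202_t

theorem s142_mm_202_t : ∃ t, chk3 f_mm_202_t t 244 71 1 = true := ex3_b s141_mm_202_t k32_mm_202_t

theorem s143_mm_202_t : ∃ t, chk3 f_mm_202_t t 122 71 1 = true := ex3_a s142_mm_202_t k33_mm_202_t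

theorem s144_mm_202_t : ∃ t, chk3 f_mm_202_t t 245 141 1 = true := ex3_a k28_mm_202_t k29_mm_202_t

theorem s145_mm_202_t : ∃ t, chk3 f_mm_202_t t 245 70 1 = true := ex3_b k27_mm_202_t s144_mm_202_t

theorem s146_mm_202_t : ∃ t, chk3 f_mm_202_t t 122 70 1 = true := ex3_a k26_mm_202_t s145_mm_202_t

theorem s147_mm_202_t : ∃ t, chk3 f_mm_202_t t 122 35 1 = true := ex3_b s146_mm_202_t s143_mm_202_t

theorem s148_mm_202_t : ∃ t, chk3 f_mm_202_t t 61 35 1 = true := ex3_a s147_mm_202_t s140_mm_202_t

theorem s149_mm_202_t : ∃ t, chk3 f_mm_202_t t 243 71 1 = true := ex3_b k24_mm_202_t k25_mm_202_t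

theorem s150_mm_202_t : ∃ t, chk3 f_mm_202_t t 243 35 1 = true := ex3_b k23_mm_202_t s149_mm_202_t

theorem s151_mm_202_t : ∃ t, chk3 f_mm_202_t t 121 35 1 = true := ex3_a k22_mm_202_t s150_mm_202_t

theorem s152_mm_202_t : ∃ t, chk3 f_mm_202_t t 60 35 1 = true := ex3_a k21_mm_202_t s151_mm_202_t

theorem s153_mm_202_t : ∃ t, chk3 f_mm_202_t t 30 35 1 = true := ex3_a s152_mm_202_t s148_mm_202_t

theorem s154_mm_202_t : ∃ t, chk3 f_mm_202_t t 494 139 1 = true := ex3_b k18_mm_202_t k19_mm_202_t

theorem s155_mm_202_t : ∃ t, chk3 f_mm_202_t t 247 139 1 = true := ex3_a s154_mm_202_t k20_mm_202_t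

theorem s156_mm_202_t : ∃ t, chk3 f_mm_202_t t 246 139 1 = true := ex3_c k16_mm_202_t k17_mm_202_t

theorem s157_mm_202_t : ∃ t, chk3 f_mm_202_t t 123 139 1 = true := ex3_a s156_mm_202_t s155_mm_202_t

theorem s158_mm_202_t : ∃ t, chk3 f_mm_202_t t 247 138 1 = true := ex3_a k14_mm_202_t k15_mm_202_t

theorem s159_mm_202_t : ∃ t, chk3 f_mm_202_t t 123 138 1 = true := ex3_a k13_mm_202_t s158_mm_202_t

theorem s160_mm_202_t : ∃ t, chk3 f_mm_202_t t 123 69 1 = true := ex3_b s159_mm_202_t s157_mm_202_t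

theorem s161_mm_202_t : ∃ t, chk3 f_mm_202_t t 61 69 1 = true := ex3_a k12_mm_202_t s160_mm_202_t

theorem s162_mm_202_t : ∃ t, chk3 f_mm_202_t t 61 34 1 = true := ex3_b k11_mm_202_t s161_mm_202_t

theorem s163_mm_202_t : ∃ t, chk3 f_mm_202_t t 30 34 1 = true := ex3_a k10_mm_202_t s162_mm_202_t

theorem s164_mm_202_t : ∃ t, chk3 f_mm_202_t t 30 17 1 = true := ex3_b s163_mm_202_t s153_mm_202_t

theorem s165_mm_202_t : ∃ t, chk3 f_mm_202_t t 15 17 1 = true := ex3_a s164_mm_202_t k40_mm_202_t

theorem s166_mm_202_t : ∃ t, chk3 f_mm_202_t t 15 8 1 = true := ex3_b k9_mm_202_t s165_mm_202_t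

theorem s167_mm_202_t : ∃ t, chk3 f_mm_202_t t 29 17 1 = true := ex3_b k7_mm_202_t k8_mm_202_t

theorem s168_mm_202_t : ∃ t, chk3 f_mm_202_t t 14 17 1 = true := ex3_a k6_mm_202_t s167_mm_202_t

theorem s169_mm_202_t : ∃ t, chk3 f_mm_202_t t 14 16 1 = true := ex3_a k4_mm_202_t k5_mm_202_t

theorem s170_mm_202_t : ∃ t, chk3 f_mm_202_t t 14 8 1 = true := ex3_b s169_mm_202_t s168_mm_202_t

theorem s171_mm_202_t : ∃ t, chk3 f_mm_202_t t 7 8 1 = true := ex3_a s170_mm_202_t s166_mm_202_t

theorem s172_mm_202_t : ∃ t, chk3 f_mm_202_t t 7 4 1 = true := ex3_b s171_mm_202_t s135_mm_202_t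

theorem s173_mm_202_t : ∃ t, chk3 f_mm_202_t t 6 9 1 = true := ex3_b k2_mm_202_t k3_mm_202_t

theorem s174_mm_202_t : ∃ t, chk3 f_mm_202_t t 6 4 1 = true := ex3_b k1_mm_202_t s173_mm_202_t

theorem s175_mm_202_t : ∃ t, chk3 f_mm_202_t t 3 4 1 = true := ex3_a s174_mm_202_t s172_mm_202_t

theorem s176_mm_202_t : ∃ t, chk3 f_mm_202_t t 3 2 1 = true := ex3_b s175_mm_202_t s103_mm_202_t

theorem s177_mm_202_t : ∃ t, chk3 f_mm_202_t t 1 2 1 = true := ex3_a k0_mm_202_t s176_mm_202_t

theorem s178_mm_202_t : ∃ t, chk3 f_mm_202_t t 1 1 1 = true := ex3_b s177_mm_202_t s90_mm_202_t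

theorem c_mm_202_t : CertNE 0 536870912 0 536870912 818728140 40265320 3 eng mog cd0q2 cd0q0 pd2 true false false .pp 2 0 2
    ndB0q2 ndB0q0 pcB2 cut_mm_202_t Ext.none :=
  certNE0 (fam := true) (s1 := false) (s2 := false) (a := 2) (b := 0) (c := 2) (cn := .pp) (n1 := ndB0q2) (n2 := ndB0q0) (pc := pcB2) (cut := cut_mm_202_t) (xt := Ext.none) (P1 := 0) (W1 := 536870912) (P2 := 0) (W2 := 536870912) (P3 := 818728140) (W3 := 40265320) (N0 := 3) (En := eng) (mo := mog) (C1 := cd0q2) (C2 := cd0q0) (C3 := pd2)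
    rfl s178_mm_202_t

noncomputable def cut_mm_203_s : Cut := Cut.of [[⟨4, 0, 0, 1449551462⟩]]

noncomputable def f_mm_203_s : ℕ → ℕ → ℕ → ℕ → Bool := onCell 0 536870912 0 536870912 818728140 40265320
    (rowNE 3 eng mog cd0q2 cd0q0 pd3 0 true false false .up 2 0 3 (qsf 0 536870912 0 536870912 3) ndB0q2 ndB0q0 pcB3 cut_mm_203_s Ext.none)

def k0_mm_203_s : ∃ t, chk3 f_mm_203_s t 1 1 1 = true :=
  ⟨(l 6), by decide +kernel⟩

theorem c_mm_203_s : CertNE 0 536870912 0 536870912 818728140 40265320 3 eng mog cd0q2 cd0q0 pd3 true false false .up 2 0 3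
    ndB0q2 ndB0q0 pcB3 cut_mm_203_s Ext.none :=
  certNE0 (fam := true) (s1 := false) (s2 := false) (a := 2) (b := 0) (c := 3) (cn := .up) (n1 := ndB0q2) (n2 := ndB0q0) (pc := pcB3) (cut := cut_mm_203_s) (xt := Ext.none) (P1 := 0) (W1 := 536870912) (P2 := 0) (W2 := 536870912) (P3 := 818728140) (W3 := 40265320) (N0 := 3) (En := eng) (mo := mog) (C1 := cd0q2) (C2 := cd0q0) (C3 := pd3)
    rfl k0_mm_203_s

noncomputable def cut_mm_203_t : Cut := Cut.of [[⟨3, 0, 0, 2845415833⟩]]

noncomputable def f_mm_203_t : ℕ → ℕ → ℕ → ℕ → Bool := onCell 0 536870912 1610612736 536870912 818728140 40265320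
    (rowNE 3 eng mog cd0q2 cd0q0 pd3 1 true false false .up 2 0 3 (qsf 0 536870912 0 536870912 3) ndB0q2 ndB0q0 pcB3 cut_mm_203_t Ext.none)

def k0_mm_203_t : ∃ t, chk3 f_mm_203_t t 1 1 1 = true :=
  ⟨(b (a (b (b (a (b (a (a (l 16619240) (l 16640432)) (a (l 16664736) (b (l 16686024) (l 16658856)))) (a (b (l 16652304) (l 16665672)) (b (a (l 16686080) (l 16714608)) (a (l 16698928) (c (l 16727736) (l 16727320)))))) (a (b (a (b (c (l 16677240) (l 16697664)) (l 16754520)) (a (b (l 16744592) (l 16779912)) (c (b (l 16762584) (b (l 85597306103) (a (l 16775144) (l 99555939191)))) (b (l 16762456) (b (l 16772640) (l 89892253031)))))) (a (b (c (l 16768376) (l 16747256)) (c (a (l 16752264) (b (l 16765664) (l 16761616))) (a (l 16752144) (l 16768840)))) (b (a (c (c (b (l 16769184) (l 87744784199)) (l 86671031879)) (l 86134160151)) (b (b (l 154316815607) (l 4)) (l 4))) (a (c (c (l 139284418663) (l 134452590295)) (l 138210685783)) (l 4))))) (b (a (b (a (c (a (b (l 16772784) (l 89355401623)) (l 152169330791))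 (a (l 86134162775) (l 152706200215))) (l 4)) (l 4)) (l 4)) (l 4)))) (a (b (a (a (l 16675000) (l 16736320)) (a (b (l 16711232) (l 16723792)) (b (c (l 16740368) (l 16739984)) (a (l 16744856) (l 16782640))))) (a (b (l 16703192) (l 16758144)) (a (b (l 16758104) (l 16772048)) (a (b (l 16758704) (b (l 16769640) (l 16750240))) (b (b (l 16756168) (l 89892257591)) (b (l 130157582823) (l 4))))))) (a (a (b (b (a (c (l 16765376) (l 16765288)) (b (c (l 89355390215) (l 16743744)) (l 153243072055))) (a (b (l 87744786503) (c (l 96871574215) (l 96334701703))) (l 4))) (l 4)) (l 4)) (l 4)))) (b (a (a (b (b (a (l 16720296) (l 16740680)) (l 16763488)) (l 2)) (b (a (b (a (l 16758176) (l 78081115767)) (a (l 16770688) (l 94187211623))) (b (a (l 143042523351) (l 4)) (l 4))) (l 2))) (l 4)) (l 2))) (l 4)) (l 2)), by decide +kernel⟩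

theorem c_mm_203_t : CertNE 0 536870912 0 536870912 818728140 40265320 3 eng mog cd0q2 cd0q0 pd3 true false false .up 2 0 3
    ndB0q2 ndB0q0 pcB3 cut_mm_203_t Ext.none :=
  certNE1 (fam := true) (s1 := false) (s2 := false) (a := 2) (b := 0) (c := 3) (cn := .up) (n1 := ndB0q2) (n2 := ndB0q0) (pc := pcB3) (cut := cut_mm_203_t) (xt := Ext.none) (P1 := 0) (W1 := 536870912) (P2 := 0) (W2 := 536870912) (P3 := 818728140) (W3 := 40265320) (N0 := 3) (En := eng) (mo := mog) (C1 := cd0q2) (C2 := cd0q0) (C3 := pd3)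
    rfl (fun _ => rfl) k0_mm_203_t

noncomputable def cut_mm_213_s : Cut := Cut.of [[⟨4, 0, 0, 1449551462⟩]]

noncomputable def f_mm_213_s : ℕ → ℕ → ℕ → ℕ → Bool := onCell 0 536870912 536870912 536870912 818728140 40265320
    (rowNE 3 eng mog cd0q2 cd0q1 pd3 0 true false false .pnn 2 1 3 (qsf 0 536870912 536870912 536870912 3) ndB0q2 ndB0q1 pcB3 cut_mm_213_s Ext.none)

def k0_mm_213_s : ∃ t, chk3 f_mm_213_s t 1 1 1 = true :=
  ⟨(l 6), by decide +kernel⟩

theorem c_mm_213_s : CertNE 0 536870912 536870912 536870912 818728140 40265320 3 eng mog cd0q2 cd0q1 pd3 true false false .pnn 2 1 3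
    ndB0q2 ndB0q1 pcB3 cut_mm_213_s Ext.none :=
  certNE0 (fam := true) (s1 := false) (s2 := false) (a := 2) (b := 1) (c := 3) (cn := .pnn) (n1 := ndB0q2) (n2 := ndB0q1) (pc := pcB3) (cut := cut_mm_213_s) (xt := Ext.none) (P1 := 0) (W1 := 536870912) (P2 := 536870912) (W2 := 536870912) (P3 := 818728140) (W3 := 40265320) (N0 := 3) (En := eng) (mo := mog) (C1 := cd0q2) (C2 := cd0q1) (C3 := pd3)
    rfl k0_mm_213_s

noncomputable def cut_mm_213_t : Cut := Cut.of [[⟨3, 0, 0, 2845415833⟩]]

noncomputable def f_mm_213_t : ℕ → ℕ → ℕ → ℕ → Bool := onCell 0 536870912 536870912 536870912 818728140 40265320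
    (rowNE 3 eng mog cd0q2 cd0q1 pd3 0 true false false .pnn 2 1 3 (qsf 0 536870912 536870912 536870912 3) ndB0q2 ndB0q1 pcB3 cut_mm_213_t Ext.none)

def k0_mm_213_t : ∃ t, chk3 f_mm_213_t t 1 1 1 = true :=
  ⟨(a (b (a (b (b (a (b (a (l 16768760) (b (l 16762400) (l 85597298103))) (a (b (l 16762720) (l 74859888391)) (b (l 111904019911) (l 4)))) (b (a (b (a (l 92576619767) (l 4)) (l 4)) (l 4)) (l 4))) (a (b (a (b (l 115662116391) (l 4)) (l 4)) (l 4)) (l 4))) (l 4)) (l 4)) (l 4)) (l 4)), by decide +kernel⟩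

theorem c_mm_213_t : CertNE 0 536870912 536870912 536870912 818728140 40265320 3 eng mog cd0q2 cd0q1 pd3 true false false .pnn 2 1 3
    ndB0q2 ndB0q1 pcB3 cut_mm_213_t Ext.none :=
  certNE0 (fam := true) (s1 := false) (s2 := false) (a := 2) (b := 1) (c := 3) (cn := .pnn) (n1 := ndB0q2) (n2 := ndB0q1) (pc := pcB3) (cut := cut_mm_213_t) (xt := Ext.none) (P1 := 0) (W1 := 536870912) (P2 := 536870912) (W2 := 536870912) (P3 := 818728140) (W3 := 40265320) (N0 := 3) (En := eng) (mo := mog) (C1 := cd0q2) (C2 := cd0q1) (C3 := pd3)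
    rfl k0_mm_213_t

end Pool.Agent.Strip051.G.I7625_8000.Tab.CS.BA00

namespace Pool.Agent.Strip051.G.I7625_8000.Tab.CS.BA04

open Pool.Agent.Strip051.PB Pool.Agent.Strip051.PB.T
open Pool.Agent.Strip051.G.I7625_8000.Tab

noncomputable def cut_pp_001_s : Cut := Cut.of [[⟨4, 0, 0, 1449551462⟩]]

noncomputable def f_pp_001_s : ℕ → ℕ → ℕ → ℕ → Bool := onCell 0 536870912 0 536870912 818728140 40265320
    (rowNE 3 eng mog cd0q0 cd4q0 pd1 0 true true true .up 0 0 1 (qsf 0 536870912 0 536870912 1) ndB0q0 ndB4q0 pcB1 cut_pp_001_s Ext.none)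

def k0_pp_001_s : ∃ t, chk3 f_pp_001_s t 1 1 1 = true :=
  ⟨(l 4), by decide +kernel⟩

theorem c_pp_001_s : CertNE 0 536870912 0 536870912 818728140 40265320 3 eng mog cd0q0 cd4q0 pd1 true true true .up 0 0 1
    ndB0q0 ndB4q0 pcB1 cut_pp_001_s Ext.none :=
  certNE0 (fam := true) (s1 := true) (s2 := true) (a := 0) (b := 0) (c := 1) (cn := .up) (n1 := ndB0q0) (n2 := ndB4q0) (pc := pcB1) (cut := cut_pp_001_s) (xt := Ext.none) (P1 := 0) (W1 := 536870912) (P2 := 0) (W2 := 536870912) (P3 := 818728140) (W3 := 40265320) (N0 := 3) (En := eng) (mo := mog) (C1 := cd0q0) (C2 := cd4q0) (C3 := pd1)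
    rfl k0_pp_001_s

noncomputable def cut_pp_011_s : Cut := Cut.of [[⟨4, 0, 0, 1449551462⟩]]

noncomputable def f_pp_011_s : ℕ → ℕ → ℕ → ℕ → Bool := onCell 0 536870912 536870912 536870912 818728140 40265320
    (rowNE 3 eng mog cd0q0 cd4q1 pd1 0 true true true .pnn 0 1 1 (qsf 0 536870912 536870912 536870912 1) ndB0q0 ndB4q1 pcB1 cut_pp_011_s Ext.none)

def k0_pp_011_s : ∃ t, chk3 f_pp_011_s t 1 1 1 = true :=
  ⟨(l 4), by decide +kernel⟩

theorem c_pp_011_s : CertNE 0 536870912 536870912 536870912 818728140 40265320 3 eng mog cd0q0 cd4q1 pd1 true true true .pnn 0 1 1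
    ndB0q0 ndB4q1 pcB1 cut_pp_011_s Ext.none :=
  certNE0 (fam := true) (s1 := true) (s2 := true) (a := 0) (b := 1) (c := 1) (cn := .pnn) (n1 := ndB0q0) (n2 := ndB4q1) (pc := pcB1) (cut := cut_pp_011_s) (xt := Ext.none) (P1 := 0) (W1 := 536870912) (P2 := 536870912) (W2 := 536870912) (P3 := 818728140) (W3 := 40265320) (N0 := 3) (En := eng) (mo := mog) (C1 := cd0q0) (C2 := cd4q1) (C3 := pd1)
    rfl k0_pp_011_s

noncomputable def cut_pp_012_s : Cut := Cut.of [[⟨4, 0, 0, 1449551462⟩]]

noncomputable def f_pp_012_s : ℕ → ℕ → ℕ → ℕ → Bool := onCell 0 536870912 536870912 536870912 818728140 40265320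
    (rowNE 3 eng mog cd0q0 cd4q1 pd2 0 true true true .pnp 0 1 2 (qsf 0 536870912 536870912 536870912 2) ndB0q0 ndB4q1 pcB2 cut_pp_012_s Ext.none)

def k0_pp_012_s : ∃ t, chk3 f_pp_012_s t 1 1 1 = true :=
  ⟨(l 4), by decide +kernel⟩

theorem c_pp_012_s : CertNE 0 536870912 536870912 536870912 818728140 40265320 3 eng mog cd0q0 cd4q1 pd2 true true true .pnp 0 1 2
    ndB0q0 ndB4q1 pcB2 cut_pp_012_s Ext.none :=
  certNE0 (fam := true) (s1 := true) (s2 := true) (a := 0) (b := 1) (c := 2) (cn := .pnp) (n1 := ndB0q0) (n2 := ndB4q1) (pc := pcB2) (cut := cut_pp_012_s) (xt := Ext.none) (P1 := 0) (W1 := 536870912) (P2 := 536870912) (W2 := 536870912) (P3 := 818728140) (W3 := 40265320) (N0 := 3) (En := eng) (mo := mog) (C1 := cd0q0) (C2 := cd4q1) (C3 := pd2)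
    rfl k0_pp_012_s

noncomputable def cut_pp_022_s : Cut := Cut.of [[⟨4, 0, 0, 1449551462⟩]]

noncomputable def f_pp_022_s : ℕ → ℕ → ℕ → ℕ → Bool := onCell 0 536870912 1073741824 536870912 818728140 40265320
    (rowNE 3 eng mog cd0q0 cd4q2 pd2 0 true true true .pp 0 2 2 (qsf 0 536870912 1073741824 536870912 2) ndB0q0 ndB4q2 pcB2 cut_pp_022_s Ext.none)

def k0_pp_022_s : ∃ t, chk3 f_pp_022_s t 1 1 1 = true :=
  ⟨(l 4), by decide +kernel⟩

theorem c_pp_022_s : CertNE 0 536870912 1073741824 536870912 818728140 40265320 3 eng mog cd0q0 cd4q2 pd2 true true true .pp 0 2 2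
    ndB0q0 ndB4q2 pcB2 cut_pp_022_s Ext.none :=
  certNE0 (fam := true) (s1 := true) (s2 := true) (a := 0) (b := 2) (c := 2) (cn := .pp) (n1 := ndB0q0) (n2 := ndB4q2) (pc := pcB2) (cut := cut_pp_022_s) (xt := Ext.none) (P1 := 0) (W1 := 536870912) (P2 := 1073741824) (W2 := 536870912) (P3 := 818728140) (W3 := 40265320) (N0 := 3) (En := eng) (mo := mog) (C1 := cd0q0) (C2 := cd4q2) (C3 := pd2)
    rfl k0_pp_022_s

noncomputable def cut_pp_023_s : Cut := Cut.of [[⟨4, 0, 0, 1449551462⟩]]

noncomputable def f_pp_023_s : ℕ → ℕ → ℕ → ℕ → Bool := onCell 0 536870912 1073741824 536870912 818728140 40265320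
    (rowNE 3 eng mog cd0q0 cd4q2 pd3 0 true true true .up 0 2 3 (qsf 0 536870912 1073741824 536870912 3) ndB0q0 ndB4q2 pcB3 cut_pp_023_s Ext.none)

def k0_pp_023_s : ∃ t, chk3 f_pp_023_s t 1 1 1 = true :=
  ⟨(l 4), by decide +kernel⟩

theorem c_pp_023_s : CertNE 0 536870912 1073741824 536870912 818728140 40265320 3 eng mog cd0q0 cd4q2 pd3 true true true .up 0 2 3
    ndB0q0 ndB4q2 pcB3 cut_pp_023_s Ext.none :=
  certNE0 (fam := true) (s1 := true) (s2 := true) (a := 0) (b := 2) (c := 3) (cn := .up) (n1 := ndB0q0) (n2 := ndB4q2) (pc := pcB3) (cut := cut_pp_023_s) (xt := Ext.none) (P1 := 0) (W1 := 536870912) (P2 := 1073741824) (W2 := 536870912) (P3 := 818728140) (W3 := 40265320) (N0 := 3) (En := eng) (mo := mog) (C1 := cd0q0) (C2 := cd4q2) (C3 := pd3)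
    rfl k0_pp_023_s

noncomputable def cut_pp_033_s : Cut := Cut.of [[⟨4, 0, 0, 1449551462⟩]]

noncomputable def f_pp_033_s : ℕ → ℕ → ℕ → ℕ → Bool := onCell 0 536870912 0 1230186008 818728140 40265320
    (rowNE 3 eng mog cd0q0 cd4q3 pd3 0 true true true .pnn 0 3 3 (qsf 0 536870912 0 1230186008 3) ndB0q0 ndB4q3 pcB3 cut_pp_033_s Ext.none)

def k0_pp_033_s : ∃ t, chk3 f_pp_033_s t 1 1 1 = true :=
  ⟨(l 4), by decide +kernel⟩

theorem c_pp_033_s : CertNE 0 536870912 0 1230186008 818728140 40265320 3 eng mog cd0q0 cd4q3 pd3 true true true .pnn 0 3 3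
    ndB0q0 ndB4q3 pcB3 cut_pp_033_s Ext.none :=
  certNE0 (fam := true) (s1 := true) (s2 := true) (a := 0) (b := 3) (c := 3) (cn := .pnn) (n1 := ndB0q0) (n2 := ndB4q3) (pc := pcB3) (cut := cut_pp_033_s) (xt := Ext.none) (P1 := 0) (W1 := 536870912) (P2 := 0) (W2 := 1230186008) (P3 := 818728140) (W3 := 40265320) (N0 := 3) (En := eng) (mo := mog) (C1 := cd0q0) (C2 := cd4q3) (C3 := pd3)
    rfl k0_pp_033_s

noncomputable def cut_pp_101_s : Cut := Cut.of [[⟨4, 0, 0, 1449551462⟩]]

noncomputable def f_pp_101_s : ℕ → ℕ → ℕ → ℕ → Bool := onCell 536870912 536870912 0 536870912 818728140 40265320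
    (rowNE 3 eng mog cd0q1 cd4q0 pd1 0 true true true .npn 1 0 1 (qsf 536870912 536870912 0 536870912 1) ndB0q1 ndB4q0 pcB1 cut_pp_101_s Ext.none)

def k0_pp_101_s : ∃ t, chk3 f_pp_101_s t 1 1 1 = true :=
  ⟨(l 4), by decide +kernel⟩

theorem c_pp_101_s : CertNE 536870912 536870912 0 536870912 818728140 40265320 3 eng mog cd0q1 cd4q0 pd1 true true true .npn 1 0 1
    ndB0q1 ndB4q0 pcB1 cut_pp_101_s Ext.none :=
  certNE0 (fam := true) (s1 := true) (s2 := true) (a := 1) (b := 0) (c := 1) (cn := .npn) (n1 := ndB0q1) (n2 := ndB4q0) (pc := pcB1) (cut := cut_pp_101_s) (xt := Ext.none) (P1 := 536870912) (W1 := 536870912) (P2 := 0) (W2 := 536870912) (P3 := 818728140) (W3 := 40265320) (N0 := 3) (En := eng) (mo := mog) (C1 := cd0q1) (C2 := cd4q0) (C3 := pd1)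
    rfl k0_pp_101_s

noncomputable def cut_pp_102_s : Cut := Cut.of [[⟨4, 0, 0, 1449551462⟩]]

noncomputable def f_pp_102_s : ℕ → ℕ → ℕ → ℕ → Bool := onCell 536870912 536870912 0 536870912 818728140 40265320
    (rowNE 3 eng mog cd0q1 cd4q0 pd2 0 true true true .npp 1 0 2 (qsf 536870912 536870912 0 536870912 2) ndB0q1 ndB4q0 pcB2 cut_pp_102_s Ext.none)

def k0_pp_102_s : ∃ t, chk3 f_pp_102_s t 1 1 1 = true :=
  ⟨(l 4), by decide +kernel⟩

theorem c_pp_102_s : CertNE 536870912 536870912 0 536870912 818728140 40265320 3 eng mog cd0q1 cd4q0 pd2 true true true .npp 1 0 2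
    ndB0q1 ndB4q0 pcB2 cut_pp_102_s Ext.none :=
  certNE0 (fam := true) (s1 := true) (s2 := true) (a := 1) (b := 0) (c := 2) (cn := .npp) (n1 := ndB0q1) (n2 := ndB4q0) (pc := pcB2) (cut := cut_pp_102_s) (xt := Ext.none) (P1 := 536870912) (W1 := 536870912) (P2 := 0) (W2 := 536870912) (P3 := 818728140) (W3 := 40265320) (N0 := 3) (En := eng) (mo := mog) (C1 := cd0q1) (C2 := cd4q0) (C3 := pd2)
    rfl k0_pp_102_s

noncomputable def cut_pp_112_s : Cut := Cut.of [[⟨4, 0, 0, 1449551462⟩]]

noncomputable def f_pp_112_s : ℕ → ℕ → ℕ → ℕ → Bool := onCell 536870912 536870912 536870912 536870912 818728140 40265320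
    (rowNE 3 eng mog cd0q1 cd4q1 pd2 0 true true true .dn 1 1 2 (qsf 536870912 536870912 536870912 536870912 2) ndB0q1 ndB4q1 pcB2 cut_pp_112_s Ext.none)

def k0_pp_112_s : ∃ t, chk3 f_pp_112_s t 1 1 1 = true :=
  ⟨(l 4), by decide +kernel⟩

theorem c_pp_112_s : CertNE 536870912 536870912 536870912 536870912 818728140 40265320 3 eng mog cd0q1 cd4q1 pd2 true true true .dn 1 1 2
    ndB0q1 ndB4q1 pcB2 cut_pp_112_s Ext.none :=
  certNE0 (fam := true) (s1 := true) (s2 := true) (a := 1) (b := 1) (c := 2) (cn := .dn) (n1 := ndB0q1) (n2 := ndB4q1) (pc := pcB2) (cut := cut_pp_112_s) (xt := Ext.none) (P1 := 536870912) (W1 := 536870912) (P2 := 536870912) (W2 := 536870912) (P3 := 818728140) (W3 := 40265320) (N0 := 3) (En := eng) (mo := mog) (C1 := cd0q1) (C2 := cd4q1) (C3 := pd2)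
    rfl k0_pp_112_s

noncomputable def cut_pp_113_s : Cut := Cut.of [[⟨4, 0, 0, 1449551462⟩]]

noncomputable def f_pp_113_s : ℕ → ℕ → ℕ → ℕ → Bool := onCell 536870912 536870912 536870912 536870912 818728140 40265320
    (rowNE 3 eng mog cd0q1 cd4q1 pd3 0 true true true .nn 1 1 3 (qsf 536870912 536870912 536870912 536870912 3) ndB0q1 ndB4q1 pcB3 cut_pp_113_s Ext.none)

def k0_pp_113_s : ∃ t, chk3 f_pp_113_s t 1 1 1 = true :=
  ⟨(l 4), by decide +kernel⟩

theorem c_pp_113_s : CertNE 536870912 536870912 536870912 536870912 818728140 40265320 3 eng mog cd0q1 cd4q1 pd3 true true true .nn 1 1 3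
    ndB0q1 ndB4q1 pcB3 cut_pp_113_s Ext.none :=
  certNE0 (fam := true) (s1 := true) (s2 := true) (a := 1) (b := 1) (c := 3) (cn := .nn) (n1 := ndB0q1) (n2 := ndB4q1) (pc := pcB3) (cut := cut_pp_113_s) (xt := Ext.none) (P1 := 536870912) (W1 := 536870912) (P2 := 536870912) (W2 := 536870912) (P3 := 818728140) (W3 := 40265320) (N0 := 3) (En := eng) (mo := mog) (C1 := cd0q1) (C2 := cd4q1) (C3 := pd3)
    rfl k0_pp_113_s

noncomputable def cut_pp_123_s : Cut := Cut.of [[⟨4, 0, 0, 1449551462⟩]]

noncomputable def f_pp_123_s : ℕ → ℕ → ℕ → ℕ → Bool := onCell 536870912 536870912 1073741824 536870912 818728140 40265320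
    (rowNE 3 eng mog cd0q1 cd4q2 pd3 0 true true true .npn 1 2 3 (qsf 536870912 536870912 1073741824 536870912 3) ndB0q1 ndB4q2 pcB3 cut_pp_123_s Ext.none)

def k0_pp_123_s : ∃ t, chk3 f_pp_123_s t 1 1 1 = true :=
  ⟨(l 4), by decide +kernel⟩

theorem c_pp_123_s : CertNE 536870912 536870912 1073741824 536870912 818728140 40265320 3 eng mog cd0q1 cd4q2 pd3 true true true .npn 1 2 3
    ndB0q1 ndB4q2 pcB3 cut_pp_123_s Ext.none :=
  certNE0 (fam := true) (s1 := true) (s2 := true) (a := 1) (b := 2) (c := 3) (cn := .npn) (n1 := ndB0q1) (n2 := ndB4q2) (pc := pcB3) (cut := cut_pp_123_s) (xt := Ext.none) (P1 := 536870912) (W1 := 536870912) (P2 := 1073741824) (W2 := 536870912) (P3 := 818728140) (W3 := 40265320) (N0 := 3) (En := eng) (mo := mog) (C1 := cd0q1) (C2 := cd4q2) (C3 := pd3)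
    rfl k0_pp_123_s

noncomputable def cut_pp_133_s : Cut := Cut.of [[⟨4, 0, 0, 1449551462⟩]]

noncomputable def f_pp_133_s : ℕ → ℕ → ℕ → ℕ → Bool := onCell 536870912 536870912 0 1230186008 818728140 40265320
    (rowNE 3 eng mog cd0q1 cd4q3 pd3 0 true true true .dn 1 3 3 (qsf 536870912 536870912 0 1230186008 3) ndB0q1 ndB4q3 pcB3 cut_pp_133_s Ext.none)

def k0_pp_133_s : ∃ t, chk3 f_pp_133_s t 1 1 1 = true :=
  ⟨(l 4), by decide +kernel⟩

theorem c_pp_133_s : CertNE 536870912 536870912 0 1230186008 818728140 40265320 3 eng mog cd0q1 cd4q3 pd3 true true true .dn 1 3 3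
    ndB0q1 ndB4q3 pcB3 cut_pp_133_s Ext.none :=
  certNE0 (fam := true) (s1 := true) (s2 := true) (a := 1) (b := 3) (c := 3) (cn := .dn) (n1 := ndB0q1) (n2 := ndB4q3) (pc := pcB3) (cut := cut_pp_133_s) (xt := Ext.none) (P1 := 536870912) (W1 := 536870912) (P2 := 0) (W2 := 1230186008) (P3 := 818728140) (W3 := 40265320) (N0 := 3) (En := eng) (mo := mog) (C1 := cd0q1) (C2 := cd4q3) (C3 := pd3)
    rfl k0_pp_133_s

noncomputable def cut_pp_202_s : Cut := Cut.of [[⟨4, 0, 0, 1449551462⟩]]

noncomputable def f_pp_202_s : ℕ → ℕ → ℕ → ℕ → Bool := onCell 0 536870912 0 536870912 818728140 40265320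
    (rowNE 3 eng mog cd0q2 cd4q0 pd2 0 true true true .pp 2 0 2 (qsf 0 536870912 0 536870912 2) ndB0q2 ndB4q0 pcB2 cut_pp_202_s Ext.none)

def k0_pp_202_s : ∃ t, chk3 f_pp_202_s t 1 1 1 = true :=
  ⟨(l 4), by decide +kernel⟩

theorem c_pp_202_s : CertNE 0 536870912 0 536870912 818728140 40265320 3 eng mog cd0q2 cd4q0 pd2 true true true .pp 2 0 2
    ndB0q2 ndB4q0 pcB2 cut_pp_202_s Ext.none :=
  certNE0 (fam := true) (s1 := true) (s2 := true) (a := 2) (b := 0) (c := 2) (cn := .pp) (n1 := ndB0q2) (n2 := ndB4q0) (pc := pcB2) (cut := cut_pp_202_s) (xt := Ext.none) (P1 := 0) (W1 := 536870912) (P2 := 0) (W2 := 536870912) (P3 := 818728140) (W3 := 40265320) (N0 := 3) (En := eng) (mo := mog) (C1 := cd0q2) (C2 := cd4q0) (C3 := pd2)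
    rfl k0_pp_202_s

noncomputable def cut_pp_203_s : Cut := Cut.of [[⟨4, 0, 0, 1449551462⟩]]

noncomputable def f_pp_203_s : ℕ → ℕ → ℕ → ℕ → Bool := onCell 0 536870912 0 536870912 818728140 40265320
    (rowNE 3 eng mog cd0q2 cd4q0 pd3 0 true true true .up 2 0 3 (qsf 0 536870912 0 536870912 3) ndB0q2 ndB4q0 pcB3 cut_pp_203_s Ext.none)

def k0_pp_203_s : ∃ t, chk3 f_pp_203_s t 1 1 1 = true :=
  ⟨(l 4), by decide +kernel⟩

theorem c_pp_203_s : CertNE 0 536870912 0 536870912 818728140 40265320 3 eng mog cd0q2 cd4q0 pd3 true true true .up 2 0 3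
    ndB0q2 ndB4q0 pcB3 cut_pp_203_s Ext.none :=
  certNE0 (fam := true) (s1 := true) (s2 := true) (a := 2) (b := 0) (c := 3) (cn := .up) (n1 := ndB0q2) (n2 := ndB4q0) (pc := pcB3) (cut := cut_pp_203_s) (xt := Ext.none) (P1 := 0) (W1 := 536870912) (P2 := 0) (W2 := 536870912) (P3 := 818728140) (W3 := 40265320) (N0 := 3) (En := eng) (mo := mog) (C1 := cd0q2) (C2 := cd4q0) (C3 := pd3)
    rfl k0_pp_203_s

noncomputable def cut_pp_213_s : Cut := Cut.of [[⟨4, 0, 0, 1449551462⟩]]

noncomputable def f_pp_213_s : ℕ → ℕ → ℕ → ℕ → Bool := onCell 0 536870912 536870912 536870912 818728140 40265320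
    (rowNE 3 eng mog cd0q2 cd4q1 pd3 0 true true true .pnn 2 1 3 (qsf 0 536870912 536870912 536870912 3) ndB0q2 ndB4q1 pcB3 cut_pp_213_s Ext.none)

def k0_pp_213_s : ∃ t, chk3 f_pp_213_s t 1 1 1 = true :=
  ⟨(l 4), by decide +kernel⟩

theorem c_pp_213_s : CertNE 0 536870912 536870912 536870912 818728140 40265320 3 eng mog cd0q2 cd4q1 pd3 true true true .pnn 2 1 3
    ndB0q2 ndB4q1 pcB3 cut_pp_213_s Ext.none :=
  certNE0 (fam := true) (s1 := true) (s2 := true) (a := 2) (b := 1) (c := 3) (cn := .pnn) (n1 := ndB0q2) (n2 := ndB4q1) (pc := pcB3) (cut := cut_pp_213_s) (xt := Ext.none) (P1 := 0) (W1 := 536870912) (P2 := 536870912) (W2 := 536870912) (P3 := 818728140) (W3 := 40265320) (N0 := 3) (En := eng) (mo := mog) (C1 := cd0q2) (C2 := cd4q1) (C3 := pd3)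
    rfl k0_pp_213_s

noncomputable def cut_pm_001_s : Cut := Cut.of [[⟨4, 0, 0, 1449551462⟩]]

noncomputable def f_pm_001_s : ℕ → ℕ → ℕ → ℕ → Bool := onCell 0 536870912 536870912 536870912 818728140 40265320
    (rowNE 3 eng mog cd0q0 cd4q0 pd1 1 true true false .up 0 0 1 (qsf 0 536870912 0 536870912 1) ndB0q0 ndB4q0 pcB1 cut_pm_001_s Ext.none)

def k0_pm_001_s : ∃ t, chk3 f_pm_001_s t 2 1 1 = true :=
  ⟨(b (l 3) (b (b (l 3) (l 2)) (l 2))), by decide +kernel⟩

def k1_pm_001_s : ∃ t, chk3 f_pm_001_s t 3 2 1 = true :=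
  ⟨(b (l 3) (a (l 3) (b (a (l 3) (b (a (l 3) (a (l 3) (b (l 3) (b (l 3) (a (l 3) (b (l 552607925815) (l 309405376023))))))) (a (b (l 3) (a (l 3) (b (a (l 3) (l 620790516599)) (a (l 614884939207) (b (l 308868493847) (l 16769864)))))) (b (a (b (l 3) (a (l 3) (b (l 519858803655) (l 257865772311)))) (a (b (b (l 547776089031) (l 307794763895)) (l 16763064)) (b (l 16765624) (l 16747392)))) (a (b (a (b (l 469392940631) (l 16760696)) (l 16760032)) (a (l 16756464) (l 16738808))) (b (l 16777384) (l 16714560))))))) (a (b (a (l 3) (b (l 3) (a (l 3) (b (a (l 3) (b (l 602536914199) (l 307794754167))) (a (b (l 575156503015) (l 305647277543)) (l 16765184)))))) (a (b (a (l 3) (b (l 3) (a (l 3) (l 570861527879)))) (a (b (l 3) (a (l 3) (b (l 594483851271) (l 311015980359)))) (b (a (l 553681664519) (b (l 311015987111) (l 16768168))) (a (l 181093232231) (l 16755240))))) (b (a (b (a (l 595020713047) (b (l 505363289975) (l 261623870615))) (a (b (l 309942237511) (l 16771016)) (l 16760416))) (b (a (l 16762800) (l 16746480))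 (l 16757552))) (a (a (b (l 16757976) (l 16740784)) (l 16776112)) (l 16752184))))) (b (a (b (a (b (a (l 3) (l 593946977991)) (a (l 553144788583) (b (l 260550120823) (l 16765040)))) (b (a (b (l 307257883703) (l 16767272)) (l 16753528)) (a (b (l 16756696) (l 16746296)) (l 16732232)))) (a (a (b (l 125795529927) (l 16748168)) (b (l 16749832) (l 16730264))) (c (l 16753168) (l 16752896)))) (b (a (c (l 16778760) (l 16771832)) (l 16723568)) (a (l 16715432) (l 16638816)))) (a (b (a (l 16753008) (l 16695048)) (a (l 16696800) (l 16640400))) (b (a (l 16636384) (l 16600408)) (l 16649024)))))))), by decide +kernel⟩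

def k2_pm_001_s : ∃ t, chk3 f_pm_001_s t 6 6 1 = true :=
  ⟨(b (a (b (l 3) (a (l 3) (b (l 3) (a (l 3) (b (l 3) (a (b (l 3) (l 2)) (b (l 561734732631) (a (l 295983604519) (l 16771552))))))))) (b (a (l 3) (b (a (l 3) (b (l 3) (a (l 596094457959) (b (l 446307492903) (l 16772224))))) (a (b (a (l 3) (l 561197856055)) (a (b (l 605221269447) (l 303499785047)) (b (l 272361287623) (l 16765168)))) (b (a (b (l 305110403271) (l 16768760)) (l 16759592)) (l 16758656))))) (a (b (a (b (l 3) (a (l 3) (b (l 3) (l 560124119991)))) (b (a (l 622401127383) (b (l 541870510119) (l 277729993111))) (a (b (a (l 569787799047) (l 16775544)) (l 16770432)) (l 16761856)))) (a (b (a (b (l 628843586807) (a (l 574082765911) (l 279340614919))) (b (l 278266860631) (l 16766424))) (a (b (l 16781064) (l 16762304)) (l 16753992))) (b (a (l 16757968) (l 16745248)) (l 16756096)))) (b (a (b (a (l 16765640) (l 16752608)) (l 16763472)) (l 16761160)) (a (l 16749168) (l 16691536)))))) (a (b (a (l 2) (b (a (l 2) (b (a (l 2) (l 16767472))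 (l 2))) (l 2))) (l 2)) (b (a (b (a (b (l 16764728) (l 16727352)) (l 16742056)) (a (l 16744648) (l 16677880))) (b (c (l 16724184) (l 16735624)) (l 16702792))) (b (a (c (l 46808315511) (l 54324508295)) (l 16627984)) (a (l 2) (l 16573824)))))), by decide +kernel⟩

def k3_pm_001_s : ∃ t, chk3 f_pm_001_s t 7 6 1 = true :=
  ⟨(b (a (a (b (b (a (b (a (b (l 561734732023) (l 264308218903)) (l 16766184)) (a (l 16762936) (l 16749208))) (b (l 16755744) (l 16728304))) (a (c (l 16772344) (l 16773056)) (l 16724048))) (a (a (l 16740176) (l 16716104)) (l 16716408))) (a (b (b (l 16749648) (l 16674296)) (l 16666936)) (b (b (l 16676416) (l 16643248)) (l 16594472)))) (a (b (a (l 16688880) (l 16633880)) (a (l 16561792) (l 16528840))) (b (a (l 16557096) (l 16522176)) (l 16521176)))) (a (b (a (a (l 16658392) (l 16610368)) (l 16630680)) (a (b (l 16554984) (l 16522456)) (l 16525856))) (b (a (l 16526352) (l 16420208)) (a (l 16423520) (l 16361120))))), by decide +kernel⟩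

def k4_pm_001_s : ∃ t, chk3 f_pm_001_s t 3 7 1 = true :=
  ⟨(a (b (a (l 2) (b (a (l 2) (b (l 16540648) (l 2))) (l 2))) (l 2)) (b (a (b (a (l 16537080) (l 16421336)) (a (l 16496712) (l 16362256))) (b (a (l 16363256) (l 16302712)) (a (l 16306256) (l 16247648)))) (a (a (l 2) (b (l 16310344) (l 2))) (b (a (l 16254728) (l 16198240)) (a (l 16205856) (l 16151704)))))), by decide +kernel⟩

theorem s5_pm_001_s : ∃ t, chk3 f_pm_001_s t 3 6 1 = true := ex3_a k2_pm_001_s k3_pm_001_s

theorem s6_pm_001_s : ∃ t, chk3 f_pm_001_s t 3 3 1 = true := ex3_b s5_pm_001_s k4_pm_001_s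

theorem s7_pm_001_s : ∃ t, chk3 f_pm_001_s t 3 1 1 = true := ex3_b k1_pm_001_s s6_pm_001_s

theorem s8_pm_001_s : ∃ t, chk3 f_pm_001_s t 1 1 1 = true := ex3_a k0_pm_001_s s7_pm_001_s

theorem c_pm_001_s : CertNE 0 536870912 0 536870912 818728140 40265320 3 eng mog cd0q0 cd4q0 pd1 true true false .up 0 0 1
    ndB0q0 ndB4q0 pcB1 cut_pm_001_s Ext.none :=
  certNE1 (fam := true) (s1 := true) (s2 := false) (a := 0) (b := 0) (c := 1) (cn := .up) (n1 := ndB0q0) (n2 := ndB4q0) (pc := pcB1) (cut := cut_pm_001_s) (xt := Ext.none) (P1 := 0) (W1 := 536870912) (P2 := 0) (W2 := 536870912) (P3 := 818728140) (W3 := 40265320) (N0 := 3) (En := eng) (mo := mog) (C1 := cd0q0) (C2 := cd4q0) (C3 := pd1)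
    rfl (fun _ => rfl) s8_pm_001_s

end Pool.Agent.Strip051.G.I7625_8000.Tab.CS.BA04

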