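import Pool.Agent.Strip051.G.I7625_8000.StH
import Pool.Agent.Strip051.G.I7625_8000.StF

/-! # Unit strips 11 (generated) -/

set_option linter.all false
set_option maxRecDepth 100000

namespace Pool.Agent.Strip051.G.I7625_8000.Tab.St.C

open Pool.Agent.Strip051.PB Pool.Agent.Strip051.PB.T Pool.Agent.StripNear Pool.Agent.Strip051.LC
open Pool.Agent.Strip051.G.I7625_8000.Tab Pool.Agent.Strip051.G.I7625_8000.Tab.St

noncomputable def cut_B00pp_012_s1 : Cut := Cut.of [[⟨4, 0, 0, 1449551462⟩], [⟨0, 0, 0, 67108864⟩, ⟨1, 1, 0, 67108864⟩, ⟨2, 1, 0, 67108864⟩]]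

noncomputable def xt_B00pp_012_s1 : Ext := strExt dd false true true .u0 .u2 .u0m .pnp 0 1 2 rfl rfl gf1 vv ndB0q0 ndB0q2

noncomputable def f_B00pp_012_s1 : ℕ → ℕ → ℕ → ℕ → Bool := onCell 536870912 536870912 0 536870912 818728140 40265320
    (rowF 2 false true true .pnp 0 1 2 (qsf 0 536870912 0 536870912 1) ndB0q0 ndB0q2 pcB1 cut_B00pp_012_s1 xt_B00pp_012_s1)

def k0_B00pp_012_s1 : ∃ t, chk3 f_B00pp_012_s1 t 2 1 2 = true :=
  ⟨(a (b (b (l 2) (l 3)) (l 3)) (b (b (a (b (a (a (l 2) (l 533384975)) (a (b (l 16745336) (l 533078799)) (b (l 16730632) (l 533386255)))) (a (b (a (l 2) (l 532817935)) (l 3)) (b (a (l 532822031) (l 532859663)) (b (l 532622095) (a (l 3) (b (l 532535567) (l 3))))))) (b (a (b (a (l 16675488) (l 16663904)) (a (a (l 16748344) (l 16699512)) (l 16731800))) (b (a (l 16653224) (l 16642928)) (a (l 16719792) (l 16666424)))) (a (b (a (a (l 532905743) (l 532984847)) (l 533906959)) (a (a (b (l 532701967) (b (l 532600591) (l 532592655))) (b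 (l 532803855) (l 532720399))) (b (l 532943375) (l 532875535)))) (b (a (l 533520143) (l 16733440)) (a (b (l 533118479) (l 533054991)) (b (l 533267215) (l 533203727))))))) (a (l 3) (b (a (b (l 532951567) (l 3)) (b (a (l 532970767) (b (l 533144079) (a (l 533050639) (l 533093391)))) (a (b (l 533150479) (l 3)) (b (a (l 532985615) (l 533021967)) (l 532921359))))) (l 3)))) (l 3))), by decide +kernel⟩

def k1_B00pp_012_s1 : ∃ t, chk3 f_B00pp_012_s1 t 2 1 3 = true :=
  ⟨(a (b (b (l 2) (l 3)) (l 3)) (b (b (a (b (a (a (l 2) (l 532980751)) (a (b (l 16742864) (l 532950031)) (b (l 16727976) (l 533007119)))) (a (b (a (l 2) (l 532679695)) (l 3)) (b (a (l 532699151) (l 532755471)) (b (a (l 532492303) (l 532545551)) (a (l 3) (b (l 532441871) (l 3))))))) (b (a (a (b (l 16672936) (a (l 16746544) (l 16697784))) (b (l 16661640) (l 533261071))) (b (a (l 16651200) (l 16640920)) (a (l 533401615) (l 16665064)))) (a (b (a (a (l 532816655) (l 532912399)) (b (l 16751192) (l 532995599)))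 (a (a (b (l 532620559) (b (l 532523023) (l 532515599))) (b (l 532740111) (l 532658191))) (b (l 533166607) (l 532829711)))) (b (a (l 532946447) (l 532822031)) (b (a (l 533088783) (l 533243663)) (a (l 533023759) (l 533177103))))))) (a (l 3) (b (a (b (l 532618255) (l 3)) (b (a (l 532931599) (b (l 533111311) (a (l 533012239) (l 533046799)))) (a (b (b (l 532852239) (l 532817679)) (l 3)) (b (a (l 533209359) (l 532967951)) (l 532869903))))) (l 3)))) (l 3))), by decide +kernel⟩

def k2_B00pp_012_s1 : ∃ t, chk3 f_B00pp_012_s1 t 12 1 1 = true :=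
  ⟨(c (b (b (a (b (b (l 16711904) (a (l 16655240) (l 16644472))) (b (b (l 16709056) (l 533491471)) (a (l 533064207) (l 533154831)))) (b (b (l 16609464) (a (l 16634272) (l 16624640))) (b (a (l 16656192) (l 16645528)) (b (l 533318159) (l 533507599))))) (b (b (a (b (l 533539343) (a (l 533156111) (l 16745160))) (b (l 533426191) (l 533344527))) (a (b (l 533117199) (l 533037327)) (l 533490703))) (b (a (l 532914959) (l 533059599)) (a (l 3) (l 532894223))))) (b (b (b (a (l 3) (b (l 532769551) (l 3))) (l 3)) (l 3)) (l 3))) (b (b (b (a (b (l 16709496) (a (l 16653608) (l 16642424))) (b (l 16605952) (l 16584616))) (b (a (a (l 16657208) (l 16665976)) (a (l 16654248) (l 16643016))) (a (a (l 533027343) (l 533107727)) (a (l 16656856) (l 16665376))))) (b (b (a (b (l 533485583) (a (l 533100559) (l 16744184))) (b (l 533350927) (l 533261583))) (a (b (l 533319951) (l 532968975)) (l 533134607))) (b (a (l 532844303) (l 532968975)) (a (l 3) (l 532801295))))) (b (b (b (a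 (l 3) (b (l 532675343) (l 3))) (l 3)) (l 3)) (l 3)))), by decide +kernel⟩

def k3_B00pp_012_s1 : ∃ t, chk3 f_B00pp_012_s1 t 13 1 2 = true :=
  ⟨(c (b (b (b (a (l 16624568) (a (l 16550600) (l 6))) (a (a (l 16667616) (l 16636552)) (b (l 16613368) (l 16630808)))) (b (a (b (a (l 16678784) (l 16666736)) (a (l 533350415) (l 533417487))) (a (b (l 16654792) (l 16675760)) (b (l 16643456) (l 16663168)))) (a (a (b (l 533188367) (l 533024015)) (b (l 533253391) (l 532818447))) (b (a (l 533290511) (l 16642800)) (a (l 533112079) (l 533169935)))))) (b (b (a (b (a (b (l 532900111) (l 532817423)) (b (l 532961807) (l 532856079))) (a (l 3) (l 532748303))) (b (b (l 533336847) (a (l 532905743) (l 532974863))) (a (l 532258831) (b (l 532905999) (l 532834319))))) (a (l 3) (b (a (l 3) (b (l 531953679) (l 532951311))) (l 3)))) (l 3))) (b (b (b (a (l 16601568) (l 16586432)) (a (a (l 16666208) (l 16634816)) (b (l 16569048) (l 16628488)))) (b (a (b (a (l 16677544) (l 16665152))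 (a (l 533303823) (l 533366543))) (b (a (l 16652768) (l 16640976)) (a (l 16674024) (l 16660968)))) (a (a (b (l 533140239) (l 532974607)) (b (l 533200655) (l 532764175))) (b (a (l 533229071) (l 16682976)) (a (l 533047823) (l 533101583)))))) (b (b (a (b (a (b (l 532849935) (l 532767247)) (b (l 532907023) (l 532797967))) (a (l 3) (l 532697103))) (b (a (b (l 532917007) (l 532843535)) (b (l 532979215) (l 532910351))) (a (b (l 532774927) (l 532704015)) (b (l 532845583) (l 532777231))))) (a (l 3) (b (a (l 3) (b (l 532167695) (l 532627471))) (l 3)))) (l 3)))), by decide +kernel⟩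

def k4_B00pp_012_s1 : ∃ t, chk3 f_B00pp_012_s1 t 13 1 3 = true :=
  ⟨(b (b (b (a (l 16619240) (l 16602896)) (a (a (b (l 16632344) (l 16653456)) (b (l 16622064) (l 16641872))) (b (l 16554552) (a (l 16630344) (l 16619224))))) (b (a (b (a (l 16675440) (l 16662472)) (a (l 533225487) (l 533280527))) (b (a (l 16649360) (l 16636784)) (a (l 16629168) (l 16657296)))) (a (a (b (l 533060111) (l 532893199)) (b (l 533112335) (a (l 532933647) (l 532932623)))) (b (a (l 533126927) (l 16638096)) (a (b (l 16692224) (l 532897039)) (l 532720399)))))) (b (b (a (b (a (b (l 532768015) (a (l 3) (l 532702735))) (b (l 532280079) (l 532703247))) (a (l 3) (b (l 532649487) (l 3)))) (b (a (b (l 532810767) (l 532741903)) (b (l 532868623) (l 532805391))) (a (b (l 532680463) (l 532615439)) (b (l 532479503) (l 532148751))))) (a (l 3) (b (a (l 3) (a (b (l 532597007) (l 3)) (b (l 532105999) (b (l 532317711) (l 3))))) (l 3)))) (l 3))), by decide +kernel⟩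

def k5_B00pp_012_s1 : ∃ t, chk3 f_B00pp_012_s1 t 7 2 1 = true :=
  ⟨(a (b (b (l 6) (a (b (l 16594384) (l 16629840)) (a (b (l 6) (l 16600096)) (l 6)))) (b (a (b (l 16645048) (a (l 16605920) (l 16595688))) (b (a (l 16612880) (l 16608392)) (a (l 16629336) (l 16623536)))) (a (b (a (l 16627160) (l 16615824)) (a (l 16691936) (l 16679584))) (b (a (l 16648296) (l 16641344)) (a (l 16668960) (l 16660880)))))) (b (l 6) (b (a (a (c (l 16569136) (l 16610696)) (b (l 6) (l 16603808))) (a (b (l 6) (l 16584904)) (l 6))) (a (a (a (l 16647680) (l 16640168)) (a (l 16630976) (l 16621360))) (a (b (l 16599472) (l 16614608)) (b (l 16579952) (l 16511496))))))), by decide +kernel⟩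

def k6_B00pp_012_s1 : ∃ t, chk3 f_B00pp_012_s1 t 14 6 2 = true :=
  ⟨(b (a (b (b (a (l 16669176) (l 16655896)) (a (l 16733864) (l 16709632))) (b (a (l 532971791) (l 533078287)) (a (l 533173263) (l 533013007)))) (b (a (l 16712864) (l 16682776)) (a (b (l 16708888) (l 533169679)) (a (l 16727744) (l 16719808))))) (a (b (b (a (l 532823567) (l 533411855)) (a (l 532216335) (a (l 532846863) (l 532920335)))) (a (b (b (a (l 3) (l 532728335)) (l 3)) (l 3)) (b (b (a (l 532792847) (l 532867599)) (l 532787727)) (a (b (l 532711183) (l 3)) (b (l 532786703) (l 532741647)))))) (b (a (a (b (l 533065999) (l 533003535)) (b (l 533158927) (l 533100047))) (b (a (l 16722552) (l 16713712)) (a (l 533132559) (l 533036047)))) (a (b (a (l 532932367) (b (l 533051407) (l 533018895))) (b (a (l 532872207) (b (l 532989199) (l 532968207))) (a (l 532827663) (a (l 532902927) (b (l 532990479) (l 532977423)))))) (a (a (b (l 533058831) (b (l 532992527) (l 532954639))) (b (l 533006095) (b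 (l 532937999) (l 532909327)))) (b (b (l 532953615) (l 532906255)) (b (a (l 532892431) (l 532854287)) (b (l 532320015) (a (l 532871183) (l 532840719)))))))))), by decide +kernel⟩

def k7_B00pp_012_s1 : ∃ t, chk3 f_B00pp_012_s1 t 14 7 2 = true :=
  ⟨(b (a (l 3) (b (a (b (b (b (a (l 532792335) (a (l 533136399) (l 532958735))) (a (a (l 3) (l 532791055)) (a (a (l 532827663) (l 533127439)) (b (l 532945167) (l 532924943))))) (a (l 3) (a (a (l 3) (l 532801295)) (l 532865807)))) (l 3)) (b (a (a (b (b (l 532942351) (l 532952591)) (l 532679695)) (b (b (l 532906511) (l 532920847)) (l 532695823))) (b (b (a (l 532875279) (l 532847375)) (a (l 532891663) (l 532864783))) (a (c (l 532888335) (l 532980751)) (c (l 532859663) (l 532952591))))) (b (a (a (b (l 532878095) (a (l 3) (l 532852495))) (b (l 532955919) (a (l 532891407) (l 532929039)))) (a (b (l 532706319) (a (l 532697103) (l 532723983))) (b (l 532944399) (c (l 532929295) (l 533009423))))) (b (a (a (l 3) (a (l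 3) (b (l 532761103) (l 532806159)))) (a (a (b (l 532931855) (l 532909583)) (l 532687631)) (l 532722703))) (a (l 3) (a (a (l 532876815) (l 532912143)) (l 532962575))))))) (a (l 3) (b (a (l 3) (a (l 3) (b (a (a (l 532605455) (l 532622095)) (l 532579599)) (l 3)))) (l 3))))) (l 3)), by decide +kernel⟩

def k8_B00pp_012_s1 : ∃ t, chk3 f_B00pp_012_s1 t 15 12 2 = true :=
  ⟨(a (b (a (l 16667296) (l 16647736)) (a (b (l 16680080) (a (l 16694312) (l 16642784))) (b (a (l 16665496) (l 16655680)) (a (l 16674968) (l 16665400))))) (b (a (b (l 16623960) (l 16632344)) (b (l 16604904) (l 16613592))) (a (b (l 16641432) (a (l 16656048) (l 16646872))) (b (l 16623008) (a (l 16637840) (l 16628888)))))), by decide +kernel⟩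

def k9_B00pp_012_s1 : ∃ t, chk3 f_B00pp_012_s1 t 30 13 2 = true :=
  ⟨(b (a (b (a (l 16704376) (l 532977935)) (a (b (l 16712304) (l 532646671)) (b (l 532893455) (l 532576015)))) (b (a (b (l 16682648) (l 16688016)) (b (l 16673248) (l 16678736))) (a (b (l 532566543) (l 531986191)) (b (l 16684432) (c (l 16689368) (l 16691392)))))) (a (b (a (b (l 532330767) (a (l 532848143) (l 532815631))) (b (l 531998479) (a (l 532787471) (l 532495119)))) (b (a (a (l 532552975) (l 532524559)) (a (l 532231951) (b (l 532750863) (l 532747023)))) (a (a (a (l 532550927) (l 532537871)) (l 532251151)) (a (b (l 532765967) (l 532770063)) (b (l 532747279) (l 532752399)))))) (a (b (b (a (l 16718168) (l 16703176)) (a (l 532474639) (l 532457999))) (b (a (c (l 532677903) (l 16726232)) (c (l 532664079) (l 16716656))) (a (b (l 532731151) (l 532737295)) (b (l 532718351) (l 532725007))))) (b (b (a (l 16698712) (l 16694288)) (c (a (l 16704144) (l 16699744)) (a (l 16705944) (l 16701616))))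 (b (a (c (l 532923919) (l 16712352)) (c (l 16711608) (l 16708072))) (a (b (l 532710159) (l 532449039)) (b (l 532437007) (l 532444943)))))))), by decide +kernel⟩

def k10_B00pp_012_s1 : ∃ t, chk3 f_B00pp_012_s1 t 31 13 2 = true :=
  ⟨(b (a (b (a (b (l 16664056) (l 16669648)) (b (l 16655024) (l 16660712))) (a (b (l 16675448) (c (l 16680432) (l 16682584))) (b (l 16687576) (c (l 16671648) (l 16673872))))) (b (a (c (l 16647856) (l 16650136)) (c (l 16639064) (l 16641328))) (a (b (l 16678832) (c (l 16662976) (l 16665216))) (b (l 16670128) (c (l 16654360) (l 16656568)))))) (a (b (a (b (a (l 16689904) (l 16685552)) (c (a (l 16695384) (l 16691064)) (l 16705656))) (b (a (l 16681224) (l 16676920)) (c (a (l 16686776) (l 16682504)) (l 16686632)))) (c (a (b (a (l 16707312) (l 16708280)) (a (c (l 16713800) (l 16709288)) (c (l 16709576) (l 16705072)))) (b (a (l 16704032) (l 16699808)) (a (c (l 16705368) (l 16700880)) (c (l 16701184) (l 16696696))))) (a (b (a (l 16703816)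 (l 16699584)) (a (l 16710464) (l 16706272))) (b (c (l 16692784) (l 16693736)) (a (l 16702088) (l 16697912)))))) (b (a (b (a (l 16672624) (l 16668344)) (a (l 16689712) (l 16685464))) (b (a (l 16664056) (l 16659776)) (a (l 16681216) (c (l 16665512) (l 16667448))))) (a (b (c (a (l 16685112) (l 16680896)) (l 16684816)) (a (c (c (l 16691760) (l 16692520)) (l 16693728)) (c (c (l 16687592) (l 16688336)) (l 16689528)))) (b (a (c (l 16676688) (l 16678464)) (c (l 16672448) (l 16674192))) (a (b (l 16688000) (l 16691504)) (a (l 16691800) (l 16689648)))))))), by decide +kernel⟩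

def k11_B00pp_012_s1 : ∃ t, chk3 f_B00pp_012_s1 t 30 28 2 = true :=
  ⟨(a (b (b (b (a (a (l 532822543) (l 532800271)) (a (l 532780559) (l 532763407))) (a (a (l 532572175) (l 532818447)) (a (l 532798735) (l 532513039)))) (a (a (b (l 532866831) (l 532624143)) (a (l 532325135) (l 532448015))) (a (b (l 532823311) (l 532578319)) (b (l 532536591) (a (l 532832783) (l 532823567)))))) (b (a (a (b (l 532648463) (l 532671247)) (b (l 532488975) (l 532644879))) (a (b (l 532466191) (l 532486927)) (c (b (l 532807439) (l 532829455)) (l 532899599)))) (a (a (a (l 532709903) (l 532695311)) (b (l 532665103) (l 532952079))) (a (b (l 532640271) (l 532657679)) (b (l 532483855) (l 532634639)))))) (b (c (a (b (a (b (l 532699151) (l 532718863)) (b (l 532688143) (l 532707599))) (a (b (l 532743695) (l 532767759)) (b (l 532731919) (l 532754959)))) (b (a (b (l 532682255) (l 532701711)) (b (l 532679951) (l 532967951))) (a (b (l 532725263) (l 532479759)) (b (l 532454415) (l 532476943)))))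 (a (b (a (l 532538639) (l 532525583)) (a (l 532576783) (l 532562447))) (b (a (l 532517135) (l 532511759)) (a (l 532553231) (b (l 532807951) (l 532825615)))))) (a (c (b (a (b (l 532790287) (l 532542735)) (b (l 532508175) (l 532528399))) (a (b (l 532562191) (l 532579599)) (b (l 532546831) (l 532563727)))) (b (a (l 532478223) (b (l 532858127) (l 532873743))) (a (l 532910607) (l 532993807)))) (c (b (a (b (l 532501007) (l 532587791)) (b (a (l 532767759) (l 16731152)) (l 532617999))) (a (b (l 532538895) (l 532555279)) (b (a (l 532805391) (l 532804623)) (a (l 532822031) (l 532821263))))) (b (a (b (l 532848143) (l 532863503)) (b (l 532841999) (l 532857103))) (a (a (l 532886031) (l 532881679)) (b (l 532870927) (l 532883215)))))))), by decide +kernel⟩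

def k12_B00pp_012_s1 : ∃ t, chk3 f_B00pp_012_s1 t 60 29 2 = true :=
  ⟨(b (a (a (b (a (l 532678671) (l 532977679)) (b (l 532632847) (l 3))) (b (b (l 532969231) (l 532984335)) (a (l 532590863) (l 532686607)))) (a (a (b (l 532955919) (l 532712719)) (b (l 532674319) (l 532698639))) (a (b (l 532594959) (l 532685071)) (c (b (l 532886799) (l 532912143)) (b (l 532952079) (l 532970767)))))) (a (l 3) (b (b (a (l 532669711) (l 532959503)) (a (a (l 3) (l 532915471)) (l 532683791))) (a (l 3) (b (a (l 532905999) (l 532930063)) (l 3)))))), by decide +kernel⟩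

def k13_B00pp_012_s1 : ∃ t, chk3 f_B00pp_012_s1 t 61 29 2 = true :=
  ⟨(b (a (b (a (b (c (l 532863759) (l 532930319)) (l 532572943)) (c (b (l 532578575) (l 532591887)) (b (l 532912143) (l 532921871)))) (c (a (b (l 532889615) (l 532899855)) (b (l 532603151) (l 532881167))) (a (b (l 532949519) (l 532956431)) (b (l 532930063) (l 532936463))))) (b (a (a (b (l 532872207) (l 532883727)) (b (l 532868879) (l 532880399))) (a (b (l 532866319) (l 532878095)) (b (l 532864783) (l 532876559)))) (c (a (b (b (l 532593423) (l 532598799)) (a (l 532876559) (l 532874511))) (b (b (l 532590607) (l 532596495)) (a (l 532873743) (l 532872719)))) (a (b (l 532919311) (l 532926223)) (b (l 532913167) (l 532920335)))))) (a (c (b (b (a (l 532907791) (l 532888847)) (a (l 532913679) (a (l 532899087) (l 532894479)))) (b (a (l 532917263) (a (l 532902671) (l 532900111))) (a (b (l 532919567) (l 532919823)) (a (l 532903439) (l 532901647))))) (b (b (a (l 532961551) (l 532941583)) (a (l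 532965135) (l 532944399))) (b (a (l 533169679) (a (l 532951055) (l 532946959))) (a (b (l 532910863) (l 532894991)) (a (l 532932623) (l 532941839)))))) (b (c (b (a (l 532882959) (l 532946959)) (a (l 532890127) (l 532984591))) (b (a (l 532932367) (l 532925455)) (a (l 532936719) (l 532927247)))) (b (a (a (l 532919567) (l 532914703)) (a (l 532908815) (l 532902159))) (a (a (l 532918543) (l 532909839)) (a (l 532901903) (l 532893967))))))), by decide +kernel⟩

def k14_B00pp_012_s1 : ∃ t, chk3 f_B00pp_012_s1 t 30 15 2 = true :=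
  ⟨(b (a (l 3) (b (a (b (a (a (l 3) (a (l 3) (b (l 532918543) (l 3)))) (a (b (l 532918543) (l 3)) (b (l 532910863) (l 532894223)))) (l 3)) (b (b (b (a (l 532902415) (a (l 532891663) (l 532883471))) (a (l 532893967) (a (l 532883215) (l 532875023)))) (a (a (l 532886031) (l 532877839)) (a (l 532869391) (l 532726799)))) (b (a (a (l 532869135) (l 532860687)) (b (a (l 532857615) (l 532849167)) (a (l 532849167) (l 532840463)))) (a (l 3) (b (a (l 532840463) (l 532831759)) (a (l 532832015) (l 532823055))))))) (a (l 3) (a (l 3) (a (l 3) (a (l 3) (l 14))))))) (l 3)), by decide +kernel⟩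

def k15_B00pp_012_s1 : ∃ t, chk3 f_B00pp_012_s1 t 62 28 2 = true :=
  ⟨(b (a (b (a (c (b (l 532680719) (l 532968463)) (l 532508431)) (a (b (l 16716928) (l 532743183)) (b (l 16714848) (l 532743695)))) (a (c (b (l 532991759) (l 532476943)) (b (l 16722312) (l 16728272))) (a (b (l 532763663) (l 532783375)) (b (l 532764175) (l 532783631))))) (b (a (c (c (b (l 16705472) (l 16709080)) (l 16713168)) (l 16714184)) (c (c (b (l 16701320) (l 16704944)) (l 16703776)) (l 16704792))) (a (a (b (l 532764431) (l 532783887)) (b (l 532765199) (l 532784143))) (a (b (l 532765711) (l 532784655)) (b (l 532766479) (l 532784655)))))) (a (c (b (a (b (c (l 532480783) (l 16728280)) (a (l 532786447) (l 16730384))) (a (a (l 532575759) (l 532576271)) (b (l 16722960) (l 16726312)))) (a (b (a (l 532804367) (l 532804623)) (a (l 532821007) (l 532821263))) (b (a (l 532805135) (l 16729600)) (a (l 532821519) (l 532822031))))) (b (a (b (l 532837903) (l 532852751)) (b (l 16727480) (l 532849935)))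 (a (b (l 532866319) (l 532610319)) (b (l 532594703) (l 532606735))))) (c (a (b (b (a (l 16720912) (l 16718872)) (c (l 16723080) (l 16723448))) (b (a (l 16727576) (l 16725544)) (a (l 16730808) (l 16728768)))) (b (b (c (l 16718216) (l 16716016)) (a (l 16720200) (l 16718144))) (b (c (l 16722304) (l 16722632)) (a (l 16726720) (l 16724656))))) (a (b (b (l 16720784) (l 16726664)) (b (l 532591375) (l 532602127))) (b (b (l 16716688) (l 16719952)) (b (l 16723152) (l 16728912))))))), by decide +kernel⟩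

def k16_B00pp_012_s1 : ∃ t, chk3 f_B00pp_012_s1 t 63 28 2 = true :=
  ⟨(b (b (a (a (c (b (l 16697496) (l 16706352)) (l 16700640)) (c (b (l 16693328) (l 16696944)) (l 16696456))) (a (c (b (l 16689120) (l 16692728)) (l 16692232)) (c (b (l 16684864) (l 16688464)) (l 16687936)))) (a (a (c (b (c (l 16704440) (l 16704976)) (l 16710856)) (l 16712776)) (c (b (l 16700536) (c (l 16703832) (l 16704296))) (l 16703352))) (a (c (b (l 16696320) (l 16697216)) (l 16699112)) (c (a (l 16700136) (l 16697984)) (l 16694816))))) (a (c (c (b (a (b (l 16711464) (l 16714856)) (b (l 16707296) (l 16710680))) (a (b (l 16718168) (l 16721408)) (a (l 16716664) (l 16714560)))) (b (a (c (l 16713464) (l 16713664)) (c (l 16709280) (l 16709480))) (a (b (l 16718496) (l 16721696)) (b (l 16714304) (l 16717504))))) (b (a (c (l 16713976) (l 16714416)) (c (l 16709792) (l 16710224))) (a (b (l 16719016) (l 16722152)) (c (l 16718848) (l 16716560))))) (b (a (c (c (b (l 16703072) (l 16706448))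 (l 16705152)) (l 16711000)) (c (c (a (l 16701568) (l 16699416)) (l 16700864)) (l 16701456))) (a (b (a (l 16711296) (l 16711784)) (a (l 16714472) (l 16712336))) (b (a (l 16707016) (l 14)) (l 14)))))), by decide +kernel⟩

def k17_B00pp_012_s1 : ∃ t, chk3 f_B00pp_012_s1 t 62 29 2 = true :=
  ⟨(b (a (c (b (a (b (a (l 532836111) (l 532836111)) (b (l 532577551) (l 532583951))) (b (a (l 532836367) (l 532835599)) (b (l 532576015) (l 532581391)))) (a (b (b (l 532589583) (l 532594703)) (b (l 532598799) (l 532602127))) (b (b (l 532585743) (l 532589327)) (a (l 532864783) (l 532592143))))) (b (a (a (l 532627471) (l 532625167)) (b (l 532617231) (l 532625423))) (a (b (l 532907791) (l 532912911)) (b (l 532899599) (l 532902415))))) (b (b (a (a (l 532589327) (l 532586255)) (a (l 532582671) (l 532578575))) (a (a (l 532866319) (l 532593935)) (a (l 532589327) (l 532584207)))) (a (a (b (l 532603663) (l 532606479)) (b (l 532598543) (l 532600591))) (b (a (l 532593167) (c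 (l 532568847) (l 16734352))) (a (c (l 532576271) (l 532881423)) (c (l 532570127) (l 16737280))))))) (a (a (a (b (b (l 532897807) (l 532898831)) (b (l 532895247) (l 532885775))) (b (b (l 532892943) (l 532892431)) (b (l 532887823) (l 532877327)))) (a (b (b (l 532887311) (l 532885775)) (b (l 532879887) (l 532868879))) (b (b (l 532881423) (l 532878607)) (b (l 532871695) (c (l 532574223) (l 532878351)))))) (a (a (b (b (l 532606479) (l 532938255)) (a (b (l 532598031) (l 532585999)) (b (l 532593935) (l 532581647)))) (b (b (c (l 532581903) (l 532886287)) (c (l 532578063) (l 532612623))) (b (a (l 532589583) (l 532585231)) (l 14)))) (b (b (a (c (l 532575247) (l 532878351)) (a (l 532587535) (l 532583439))) (a (c (l 532603919) (l 532603919)) (l 14))) (l 14))))), by decide +kernel⟩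

def k18_B00pp_012_s1 : ∃ t, chk3 f_B00pp_012_s1 t 63 29 2 = true :=
  ⟨(b (a (b (a (b (c (a (l 16725744) (l 16723664)) (l 16727848)) (a (c (l 16728840) (l 16729296)) (c (l 16726752) (l 16727208)))) (b (c (c (l 16720392) (l 16720640)) (l 16721032)) (c (a (l 16724656) (l 16722544)) (l 16726680)))) (a (b (c (a (l 16731872) (l 16729784)) (a (l 16732272) (l 16730192))) (a (a (l 532582927) (l 532579343)) (a (l 532575503) (l 14)))) (b (a (c (l 16727688) (l 16728088)) (l 14)) (l 14)))) (a (b (a (c (b (l 16717336) (l 14)) (l 16719368)) (l 14)) (l 14)) (l 14))) (a (a (a (a (b (b (l 532579599) (l 14)) (l 14)) (l 14)) (l 14)) (l 14)) (l 14))), by decide +kernel⟩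

def k19_B00pp_012_s1 : ∃ t, chk3 f_B00pp_012_s1 t 31 15 2 = true :=
  ⟨(a (b (b (a (a (b (b (a (l 532869647) (l 532626191)) (a (b (l 532857871) (l 532849167)) (b (l 532849167) (l 532840463)))) (b (a (b (l 532840463) (l 532831759)) (b (l 532831503) (l 14))) (a (b (l 532823055) (l 14)) (l 14)))) (b (b (a (c (l 532632591) (l 532871183)) (a (l 532846607) (l 532841999))) (a (c (l 532882959) (l 532853775)) (l 14))) (l 14))) (l 14)) (l 14)) (l 14)) (l 14)), by decide +kernel⟩

def k20_B00pp_012_s1 : ∃ t, chk3 f_B00pp_012_s1 t 14 6 3 = true :=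
  ⟨(b (a (b (b (a (l 16666824) (l 16653912)) (a (l 532909583) (l 16708272))) (b (a (l 532856591) (l 533022735)) (a (a (l 532498959) (l 532848911)) (l 532969999)))) (b (a (l 16711696) (l 16702384)) (a (b (l 16708344) (l 533145871)) (b (l 16698064) (l 534164495))))) (a (b (b (a (l 532746255) (b (l 532923663) (l 532617999))) (a (l 532393743) (a (l 532781327) (l 532865039)))) (a (b (a (l 3) (b (l 532633359) (l 3))) (l 3)) (b (b (a (l 532713231) (l 532797711)) (a (l 532665615) (l 532750351))) (a (b (l 532616207) (l 3)) (b (l 532701199) (l 532650255)))))) (b (a (b (a (l 533036303) (l 533129487)) (a (l 532953103) (l 533047823))) (a (b (l 16722592) (l 533167375)) (b (l 16720808) (l 533191183)))) (a (b (a (l 532862223) (b (l 532982543) (l 532939279))) (b (a (l 532790543) (a (l 532862223) (l 532922895))) (a (l 532471567) (a (l 532813071) (b (l 532889615) (l 532869903)))))) (a (b (b (l 533109519) (l 533071631)) (b (l 533033231) (a (l 532956175) (l 533026575))))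 (b (b (l 533143567) (l 533115663)) (b (l 533094671) (a (l 533091855) (l 533071631))))))))), by decide +kernel⟩

def k21_B00pp_012_s1 : ∃ t, chk3 f_B00pp_012_s1 t 15 6 3 = true :=
  ⟨(b (a (b (a (l 16669920) (l 16651664)) (a (a (l 16712616) (l 16682784)) (b (l 16664472) (l 16684608)))) (b (a (l 16633128) (l 16572832)) (a (a (l 16624160) (l 16604728)) (a (l 16595784) (l 16628744))))) (a (b (a (a (b (l 16706912) (l 533120527)) (b (l 16698112) (l 533061903))) (b (a (l 16668224) (l 16659400)) (a (b (l 16676672) (l 533003279)) (a (l 16673056) (l 16668744))))) (a (b (b (a (l 533077263) (l 533024015)) (a (l 533054223) (l 533004815))) (b (a (l 533038607) (c (l 532929807) (l 533058575))) (a (a (l 533046287) (l 533023247)) (c (l 532927759) (l 533055247))))) (b (a (b (l 532981007) (l 532964623)) (b (l 532948239) (c (l 16695320) (l 16687056)))) (c (a (b (l 532355599) (l 532892943)) (b (l 532597775) (a (l 16709992) (l 16716320)))) (a (a (l 533027343) (l 16728512))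 (b (l 16703592) (l 532988943))))))) (b (a (b (a (l 16650632) (l 16662856)) (a (c (l 16681960) (l 16684616)) (c (l 16673304) (l 16676064)))) (b (a (l 16654088) (l 16645264)) (a (l 16645040) (l 16636312)))) (a (b (a (b (l 16671352) (c (l 16697320) (l 16699680))) (c (b (l 16682544) (l 16688848)) (l 16667240))) (c (a (b (l 532312335) (a (l 16712160) (l 16708008))) (b (l 16695264) (a (l 16703848) (l 16699672)))) (a (b (l 16684832) (l 16701488)) (a (l 16681688) (l 16677512))))) (b (a (a (l 16659560) (l 16655280)) (c (l 16689528) (l 16671056))) (a (b (c (l 16686824) (l 16689032)) (c (l 16682904) (l 16695320))) (b (c (l 16678288) (l 16680448)) (c (l 16684864) (l 16686744))))))))), by decide +kernel⟩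

def k22_B00pp_012_s1 : ∃ t, chk3 f_B00pp_012_s1 t 14 7 3 = true :=
  ⟨(b (a (l 3) (b (a (b (b (b (a (l 532701199) (a (l 532774415) (l 532846863))) (a (c (l 532431375) (l 532378895)) (a (c (l 532773903) (l 532451599)) (l 532823567)))) (a (l 3) (a (a (l 3) (l 532708879)) (l 532492047)))) (l 3)) (b (b (b (a (l 532684303) (l 533077007)) (a (l 532919311) (l 532772623))) (a (a (l 532827151) (l 532890639)) (a (l 532951311) (l 533009167)))) (a (b (a (c (l 532507663) (l 532448527)) (b (l 532830991) (a (l 532776463) (l 532807439)))) (a (l 3) (b (a (l 3) (b (l 532778511) (l 532759567))) (l 3)))) (b (a (b (l 532891663) (c (l 532619023) (l 532815887))) (b (l 532949519) (l 532641807))) (a (b (c (l 532578575) (l 532510735)) (a (l 532761615) (l 532791311))) (b (l 532603407) (l 532565519))))))) (a (l 3) (b (a (l 3) (b (a (l 3) (b (c (l 532561167) (l 532494607)) (a (l 3) (l 532775183)))) (l 3))) (l 3))))) (l 3)), by decide +kernel⟩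

def k23_B00pp_012_s1 : ∃ t, chk3 f_B00pp_012_s1 t 30 28 3 = true :=
  ⟨(a (b (a (b (a (l 533054991) (l 533032719)) (a (l 533064207) (l 533058575))) (a (b (l 533012239) (l 533036559)) (b (l 532993039) (l 533016079)))) (b (a (a (b (l 533004559) (l 532965135)) (b (l 533056527) (l 533017359))) (a (l 532790543) (l 533037071))) (b (a (a (l 532926735) (l 532978703)) (a (l 533028111) (l 533051151))) (a (a (l 532888847) (l 532941071)) (a (l 532990479) (l 533037071)))))) (b (a (a (b (l 532975119) (l 532996879)) (b (l 532959247) (l 532979983))) (a (b (l 532946447) (l 532966159)) (b (l 532935695) (l 532954895)))) (a (a (b (l 533016591) (l 532763407)) (b (l 532998159) (l 532743695))) (a (b (l 532983567) (l 532728591)) (b (l 532971791) (l 532984591)))))), by decide +kernel⟩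

def k24_B00pp_012_s1 : ∃ t, chk3 f_B00pp_012_s1 t 30 29 3 = true :=
  ⟨(a (b (b (a (a (b (l 532583439) (b (l 532556559) (l 532538639))) (b (l 532904207) (l 532599567))) (b (a (l 532953615) (l 533000207)) (a (l 532917519) (l 532964111)))) (a (a (b (a (l 3) (l 532794383)) (l 3)) (b (a (l 532820495) (l 532577551)) (a (l 532517647) (l 532543247)))) (a (b (l 532613903) (a (l 532568079) (l 532860431))) (b (l 532929039) (l 532626447))))) (a (l 3) (b (a (b (a (l 532534799) (l 532558863)) (a (l 3) (l 532526607))) (b (a (l 532850703) (l 532873487)) (a (l 532550159) (l 532841231)))) (a (l 3) (b (a (l 532518927) (l 532541711)) (l 3)))))) (b (a (b (a (b (l 533041935) (l 533007887)) (b (l 533021455) (l 533025039))) (b (a (l 532972815) (l 533012495)) (a (l 532938767) (l 532978191)))) (a (b (b (l 533006095) (l 533009935)) (b (l 533012495) (l 533008399))) (a (b (l 532998415) (l 533004047)) (b (l 532992783) (l 532998159))))) (a (b (b (a (l 532771343) (l 532944399))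 (a (a (l 532863503) (l 532884751)) (a (l 532904207) (l 532919823)))) (b (a (a (l 532563983) (l 532853775)) (a (l 532872975) (l 532886543))) (a (a (a (l 532528911) (l 532539663)) (a (l 532550415) (l 532560911))) (a (a (l 532570383) (l 532845071)) (l 532855311))))) (b (b (a (l 532973327) (l 532999695)) (a (l 532939023) (l 532966671))) (b (a (a (l 532900111) (l 532914447)) (b (l 532943887) (l 532929551))) (a (b (l 532884495) (l 532871695)) (b (l 532915983) (l 532903951)))))))), by decide +kernel⟩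

def k25_B00pp_012_s1 : ∃ t, chk3 f_B00pp_012_s1 t 30 15 3 = true :=
  ⟨(b (a (l 3) (b (a (b (a (a (l 3) (b (b (a (l 3) (l 532540431)) (l 3)) (l 3))) (b (a (l 532547599) (l 532831759)) (a (l 3) (a (l 532538383) (l 532814607))))) (l 3)) (b (b (a (a (l 532847631) (l 532863759)) (a (l 532880143) (l 532896527))) (a (a (l 532557839) (l 532573967)) (a (l 532858895) (l 532875279)))) (b (b (a (a (l 532810767) (l 532826895)) (a (l 532843279) (l 532859663))) (a (a (l 3) (l 532816143)) (a (l 532832527) (l 532849167)))) (b (a (l 3) (a (a (l 532818191) (l 532826383)) (l 532570127))) (a (l 3) (a (l 532542991) (l 532827919))))))) (a (l 3) (a (l 3) (a (l 3) (a (l 3) (l 14))))))) (l 3)), by decide +kernel⟩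

def k26_B00pp_012_s1 : ∃ t, chk3 f_B00pp_012_s1 t 31 28 3 = true :=
  ⟨(a (b (a (a (b (l 532926479) (l 532945167)) (b (l 532918031) (l 532935951))) (a (b (l 532910095) (l 532927247)) (b (l 16696576) (l 532918287)))) (a (a (b (l 532961295) (l 532973839)) (b (l 532951567) (c (l 532929807) (l 16734320)))) (a (b (l 532942095) (c (l 532921103) (l 16730296))) (b (l 533065743) (c (l 532910095) (l 16715728)))))) (b (a (b (a (l 16692416) (l 16688208)) (a (l 532908303) (l 16694648))) (a (b (l 16694432) (l 16690376)) (b (l 16690096) (l 16696528)))) (a (c (b (a (l 16704624) (l 16710904)) (a (l 533031183) (l 16711856))) (b (b (l 16702016) (l 16705040)) (a (l 16711584) (l 16707376)))) (b (a (l 16696640) (l 16692304)) (a (c (l 16712832) (l 16713592)) (c (l 16708512) (l 16709256))))))), by decide +kernel⟩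

def k27_B00pp_012_s1 : ∃ t, chk3 f_B00pp_012_s1 t 31 29 3 = true :=
  ⟨(a (b (a (a (a (b (l 532987151) (l 532992015)) (b (l 532981775) (l 532985103))) (a (b (l 532976143) (l 532977679)) (b (l 532969743) (l 532969487)))) (b (a (a (l 532962831) (l 532955407)) (a (l 16732752) (l 532939023))) (b (a (l 532958479) (l 532940303)) (a (l 532955151) (l 533070095))))) (a (a (b (b (l 532986895) (l 533250831)) (b (c (l 532952079) (l 532940303)) (b (l 532948495) (l 532936719)))) (a (b (c (l 532947727) (l 532994575)) (b (l 532961551) (l 532949519))) (b (c (l 532938767) (l 532984079)) (b (l 532951055) (l 532938255))))) (a (b (b (a (l 532957199) (l 16744784)) (c (l 532921359) (l 532963599))) (b (a (l 532940047) (l 532929039)) (a (l 532926991) (l 14)))) (b (b (c (l 16741544) (l 16741912)) (a (l 532928527) (l 14))) (l 14))))) (b (a (a (a (b (l 532930319) (a (l 16734904) (l 16733872))) (b (l 532921103) (l 16732304))) (b (b (l 16716680) (l 16719600)) (c (a (l 16724736)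 (l 14)) (l 16729384)))) (a (b (b (l 16707168) (l 14)) (l 14)) (l 14))) (a (a (a (b (b (l 16738624) (l 14)) (l 14)) (l 14)) (l 14)) (l 14)))), by decide +kernel⟩

def k28_B00pp_012_s1 : ∃ t, chk3 f_B00pp_012_s1 t 31 15 3 = true :=
  ⟨(a (b (b (a (a (a (b (b (l 532912911) (l 532891919)) (a (b (l 532866831) (l 532845839)) (b (l 532875279) (l 14)))) (b (b (l 532929551) (l 532908559)) (b (b (l 532893199) (l 14)) (l 14)))) (a (b (b (l 532933647) (l 532917007)) (l 14)) (b (b (l 532922127) (l 14)) (l 14)))) (l 14)) (l 14)) (l 14)) (l 14)), by decide +kernel⟩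

theorem t29_B00pp_012_s1 : ∃ t, chk3 f_B00pp_012_s1 t 31 14 3 = true := ex3_b k26_B00pp_012_s1 k27_B00pp_012_s1

theorem t30_B00pp_012_s1 : ∃ t, chk3 f_B00pp_012_s1 t 31 7 3 = true := ex3_b t29_B00pp_012_s1 k28_B00pp_012_s1

theorem t31_B00pp_012_s1 : ∃ t, chk3 f_B00pp_012_s1 t 30 14 3 = true := ex3_b k23_B00pp_012_s1 k24_B00pp_012_s1

theorem t32_B00pp_012_s1 : ∃ t, chk3 f_B00pp_012_s1 t 30 7 3 = true := ex3_b t31_B00pp_012_s1 k25_B00pp_012_s1

theorem t33_B00pp_012_s1 : ∃ t, chk3 f_B00pp_012_s1 t 15 7 3 = true := ex3_a t32_B00pp_012_s1 t30_B00pp_012_s1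

theorem t34_B00pp_012_s1 : ∃ t, chk3 f_B00pp_012_s1 t 7 7 3 = true := ex3_a k22_B00pp_012_s1 t33_B00pp_012_s1

theorem t35_B00pp_012_s1 : ∃ t, chk3 f_B00pp_012_s1 t 7 6 3 = true := ex3_a k20_B00pp_012_s1 k21_B00pp_012_s1

theorem t36_B00pp_012_s1 : ∃ t, chk3 f_B00pp_012_s1 t 7 3 3 = true := ex3_b t35_B00pp_012_s1 t34_B00pp_012_s1

theorem t37_B00pp_012_s1 : ∃ t, chk3 f_B00pp_012_s1 t 31 29 2 = true := ex3_a k17_B00pp_012_s1 k18_B00pp_012_s1

theorem t38_B00pp_012_s1 : ∃ t, chk3 f_B00pp_012_s1 t 31 28 2 = true := ex3_a k15_B00pp_012_s1 k16_B00pp_012_s1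

theorem t39_B00pp_012_s1 : ∃ t, chk3 f_B00pp_012_s1 t 31 14 2 = true := ex3_b t38_B00pp_012_s1 t37_B00pp_012_s1

theorem t40_B00pp_012_s1 : ∃ t, chk3 f_B00pp_012_s1 t 31 7 2 = true := ex3_b t39_B00pp_012_s1 k19_B00pp_012_s1

theorem t41_B00pp_012_s1 : ∃ t, chk3 f_B00pp_012_s1 t 30 29 2 = true := ex3_a k12_B00pp_012_s1 k13_B00pp_012_s1

theorem t42_B00pp_012_s1 : ∃ t, chk3 f_B00pp_012_s1 t 30 14 2 = true := ex3_b k11_B00pp_012_s1 t41_B00pp_012_s1

theorem t43_B00pp_012_s1 : ∃ t, chk3 f_B00pp_012_s1 t 30 7 2 = true := ex3_b t42_B00pp_012_s1 k14_B00pp_012_s1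

theorem t44_B00pp_012_s1 : ∃ t, chk3 f_B00pp_012_s1 t 15 7 2 = true := ex3_a t43_B00pp_012_s1 t40_B00pp_012_s1

theorem t45_B00pp_012_s1 : ∃ t, chk3 f_B00pp_012_s1 t 15 13 2 = true := ex3_a k9_B00pp_012_s1 k10_B00pp_012_s1

theorem t46_B00pp_012_s1 : ∃ t, chk3 f_B00pp_012_s1 t 15 6 2 = true := ex3_b k8_B00pp_012_s1 t45_B00pp_012_s1

theorem t47_B00pp_012_s1 : ∃ t, chk3 f_B00pp_012_s1 t 15 3 2 = true := ex3_b t46_B00pp_012_s1 t44_B00pp_012_s1

theorem t48_B00pp_012_s1 : ∃ t, chk3 f_B00pp_012_s1 t 14 3 2 = true := ex3_b k6_B00pp_012_s1 k7_B00pp_012_s1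

theorem t49_B00pp_012_s1 : ∃ t, chk3 f_B00pp_012_s1 t 7 3 2 = true := ex3_a t48_B00pp_012_s1 t47_B00pp_012_s1

theorem t50_B00pp_012_s1 : ∃ t, chk3 f_B00pp_012_s1 t 7 3 1 = true := ex3_c t49_B00pp_012_s1 t36_B00pp_012_s1

theorem t51_B00pp_012_s1 : ∃ t, chk3 f_B00pp_012_s1 t 7 1 1 = true := ex3_b k5_B00pp_012_s1 t50_B00pp_012_s1

theorem t52_B00pp_012_s1 : ∃ t, chk3 f_B00pp_012_s1 t 13 1 1 = true := ex3_c k3_B00pp_012_s1 k4_B00pp_012_s1

theorem t53_B00pp_012_s1 : ∃ t, chk3 f_B00pp_012_s1 t 6 1 1 = true := ex3_a k2_B00pp_012_s1 t52_B00pp_012_s1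

theorem t54_B00pp_012_s1 : ∃ t, chk3 f_B00pp_012_s1 t 3 1 1 = true := ex3_a t53_B00pp_012_s1 t51_B00pp_012_s1

theorem t55_B00pp_012_s1 : ∃ t, chk3 f_B00pp_012_s1 t 2 1 1 = true := ex3_c k0_B00pp_012_s1 k1_B00pp_012_s1

theorem t56_B00pp_012_s1 : ∃ t, chk3 f_B00pp_012_s1 t 1 1 1 = true := ex3_a t55_B00pp_012_s1 t54_B00pp_012_s1

theorem c_B00pp_012_s1 : CertF 0 536870912 0 536870912 818728140 40265320 false true true .pnp 0 1 2
    ndB0q0 ndB0q2 pcB1 cut_B00pp_012_s1 xt_B00pp_012_s1 :=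
  certF2 (fam := false) (s1 := true) (s2 := true) (a := 0) (b := 1) (c := 2) (cn := .pnp) (n1 := ndB0q0) (n2 := ndB0q2) (pc := pcB1) (cut := cut_B00pp_012_s1) (xt := xt_B00pp_012_s1) (P1 := 0) (W1 := 536870912) (P2 := 0) (W2 := 536870912) (P3 := 818728140) (W3 := 40265320)
    rfl (fun _ => rfl) t56_B00pp_012_s1

theorem s_B00pp_012_s1 {κ x : ℝ} (hκ : κ * h0 = ken x) (hx : ((818728140 : ℕ) : ℝ) / S ≤ x)
    (hx' : x ≤ (((818728140 : ℕ) : ℝ) + (40265320 : ℕ)) / S)
    (H : CutB (VFD κ) PP tK tL pcB (Cut.of [[⟨0, 0, 0, 67108864⟩, ⟨1, 1, 0, 67108864⟩, ⟨2, 1, 0, 67108864⟩]]) 0 1 2 0 0 (sgb true) (sgb true) x) :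
    AltB (VFD κ) PP tK tL pcB [⟨3, 0, 0, 1449551462⟩] 0 1 2 0 0 (sgb true) (sgb true) x :=
  strip_altBD (m := 1449551462) true rfl hκ (SH.κ0 hκ (SH.hx1 hx).le (SH.hx2 hx').le) (SH.hx1 hx).le (SH.hx2 hx') (covB00).cov (covB02).cov hx hx' c_B00pp_012_s1 H ((okx hx hx').extB (T := tt) (sideB hx hx') hκ rfl rfl (.O 0 true) (.O 2 true) (Or.inr rfl))

noncomputable def cut_B00pp_012_s3 : Cut := Cut.of [[⟨3, 0, 0, 2845415833⟩], [⟨0, 0, 0, 67108864⟩, ⟨1, 1, 0, 67108864⟩, ⟨2, 1, 0, 67108864⟩]]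

noncomputable def f_B00pp_012_s3 : ℕ → ℕ → ℕ → ℕ → Bool := onCell 0 536870912 0 536870912 818728140 40265320
    (rowF 0 false true true .pnp 0 1 2 (qsf 0 536870912 0 536870912 1) ndB0q0 ndB0q2 pcB1 cut_B00pp_012_s3 Ext.none)

def k0_B00pp_012_s3 : ∃ t, chk3 f_B00pp_012_s3 t 1 1 1 = true :=
  ⟨(l 6), by decide +kernel⟩

theorem c_B00pp_012_s3 : CertF 0 536870912 0 536870912 818728140 40265320 false true true .pnp 0 1 2
    ndB0q0 ndB0q2 pcB1 cut_B00pp_012_s3 Ext.none :=
  certF0 (fam := false) (s1 := true) (s2 := true) (a := 0) (b := 1) (c := 2) (cn := .pnp) (n1 := ndB0q0) (n2 := ndB0q2) (pc := pcB1) (cut := cut_B00pp_012_s3) (xt := Ext.none) (P1 := 0) (W1 := 536870912) (P2 := 0) (W2 := 536870912) (P3 := 818728140) (W3 := 40265320)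
    rfl k0_B00pp_012_s3

theorem s_B00pp_012_s3 {κ x : ℝ} (hκ : κ * h0 = ken x) (hx : ((818728140 : ℕ) : ℝ) / S ≤ x)
    (hx' : x ≤ (((818728140 : ℕ) : ℝ) + (40265320 : ℕ)) / S)
    (H : CutB (VFD κ) PP tK tL pcB (Cut.of [[⟨0, 0, 0, 67108864⟩, ⟨1, 1, 0, 67108864⟩, ⟨2, 1, 0, 67108864⟩]]) 0 1 2 0 0 (sgb true) (sgb true) x) :
    AltB (VFD κ) PP tK tL pcB [⟨4, 0, 0, 2845415833⟩] 0 1 2 0 0 (sgb true) (sgb true) x :=
  strip_altBD (m := 2845415833) false rfl hκ (SH.κ0 hκ (SH.hx1 hx).le (SH.hx2 hx').le) (SH.hx1 hx).le (SH.hx2 hx') (covB00).cov (covB02).cov hx hx' c_B00pp_012_s3 H (noExt_B)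

noncomputable def cut_B00pp_022_s1 : Cut := Cut.of [[⟨4, 0, 0, 1449551462⟩], [⟨0, 0, 0, 67108864⟩, ⟨1, 1, 0, 67108864⟩, ⟨2, 1, 0, 67108864⟩]]

noncomputable def f_B00pp_022_s1 : ℕ → ℕ → ℕ → ℕ → Bool := onCell 1073741824 536870912 0 536870912 818728140 40265320
    (rowF 2 false true true .pp 0 2 2 (qsf 0 536870912 0 536870912 2) ndB0q0 ndB0q2 pcB2 cut_B00pp_022_s1 Ext.none)

def k0_B00pp_022_s1 : ∃ t, chk3 f_B00pp_022_s1 t 4 2 1 = true :=
  ⟨(b (l 6) (a (a (b (l 6) (b (l 6) (a (a (b (l 16475456) (l 16491944)) (l 16502088)) (l 16444056)))) (l 6)) (l 6))), by decide +kernel⟩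

def k1_B00pp_022_s1 : ∃ t, chk3 f_B00pp_022_s1 t 8 3 1 = true :=
  ⟨(b (a (b (a (b (b (a (l 16508680) (l 16526344)) (a (a (l 16521152) (l 16529984)) (l 16542848))) (a (b (a (b (l 16533744) (c (l 16544752) (l 16539232))) (b (l 16542416) (l 16550560))) (a (b (l 16550264) (l 16558544)) (c (l 16564752) (l 16560792)))) (b (a (l 16554960) (l 16563184)) (a (l 16570896) (l 16578848))))) (a (b (l 16551408) (b (l 16575152) (l 16590488))) (b (l 16483352) (l 16619168)))) (b (a (b (a (c (l 16576968) (l 16530712)) (l 16590408)) (a (c (l 16592672) (l 16588584)) (l 16605616))) (c (l 16535576) (l 16536888))) (a (b (a (a (l 16602584) (l 16609904)) (l 16620672)) (a (a (l 16618336) (l 16625384)) (l 16635736))) (c (l 16584392) (l 16587128))))) (b (b (a (l 16589704) (l 16557760)) (a (b (l 16604520) (l 16608568)) (b (l 16560728) (l 16500512)))) (b (a (l 16532200) (b (l 16567272) (l 16571600))) (a (b (l 16624208) (l 16545752)) (a (l 16548752) (l 16544824)))))) (a (b (b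 (a (a (b (c (l 16638368) (l 16637016)) (b (l 16649960) (l 14))) (b (l 16650952) (l 16625088))) (b (l 16628040) (l 16632816))) (l 14)) (l 14)) (a (b (b (b (b (l 16549720) (l 16552192)) (b (l 16575272) (l 14))) (l 14)) (l 14)) (b (a (b (b (l 16597472) (l 16600928)) (l 14)) (b (b (l 16571824) (b (l 16574176) (l 16575264))) (b (l 46204071863) (l 1)))) (l 1))))), by decide +kernel⟩

def k2_B00pp_022_s1 : ∃ t, chk3 f_B00pp_022_s1 t 9 3 1 = true :=
  ⟨(b (b (a (b (l 6) (a (b (l 16514648) (l 16494984)) (b (l 6) (l 16466360)))) (l 6)) (a (b (a (b (l 16518480) (l 16521600)) (b (a (l 16480376) (l 16454352)) (l 16469112))) (a (b (l 16482864) (a (l 16541576) (l 16514240))) (b (l 16470856) (l 1)))) (b (a (b (a (l 16427872) (l 1)) (l 1)) (l 1)) (l 1)))) (b (a (b (a (b (a (l 16544840) (l 16516680)) (a (l 16547080) (l 1))) (l 1)) (l 1)) (l 1)) (l 1))), by decide +kernel⟩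

def k3_B00pp_022_s1 : ∃ t, chk3 f_B00pp_022_s1 t 5 1 1 = true :=
  ⟨(b (l 6) (b (l 1) (l 1))), by decide +kernel⟩

def k4_B00pp_022_s1 : ∃ t, chk3 f_B00pp_022_s1 t 3 1 1 = true :=
  ⟨(l 1), by decide +kernel⟩

theorem t5_B00pp_022_s1 : ∃ t, chk3 f_B00pp_022_s1 t 4 3 1 = true := ex3_a k1_B00pp_022_s1 k2_B00pp_022_s1

theorem t6_B00pp_022_s1 : ∃ t, chk3 f_B00pp_022_s1 t 4 1 1 = true := ex3_b k0_B00pp_022_s1 t5_B00pp_022_s1

theorem t7_B00pp_022_s1 : ∃ t, chk3 f_B00pp_022_s1 t 2 1 1 = true := ex3_a t6_B00pp_022_s1 k3_B00pp_022_s1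

theorem t8_B00pp_022_s1 : ∃ t, chk3 f_B00pp_022_s1 t 1 1 1 = true := ex3_a t7_B00pp_022_s1 k4_B00pp_022_s1

theorem c_B00pp_022_s1 : CertF 0 536870912 0 536870912 818728140 40265320 false true true .pp 0 2 2
    ndB0q0 ndB0q2 pcB2 cut_B00pp_022_s1 Ext.none :=
  certF2 (fam := false) (s1 := true) (s2 := true) (a := 0) (b := 2) (c := 2) (cn := .pp) (n1 := ndB0q0) (n2 := ndB0q2) (pc := pcB2) (cut := cut_B00pp_022_s1) (xt := Ext.none) (P1 := 0) (W1 := 536870912) (P2 := 0) (W2 := 536870912) (P3 := 818728140) (W3 := 40265320)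
    rfl (fun _ => rfl) t8_B00pp_022_s1

theorem s_B00pp_022_s1 {κ x : ℝ} (hκ : κ * h0 = ken x) (hx : ((818728140 : ℕ) : ℝ) / S ≤ x)
    (hx' : x ≤ (((818728140 : ℕ) : ℝ) + (40265320 : ℕ)) / S)
    (H : CutB (VFD κ) PP tK tL pcB (Cut.of [[⟨0, 0, 0, 67108864⟩, ⟨1, 1, 0, 67108864⟩, ⟨2, 1, 0, 67108864⟩]]) 0 2 2 0 0 (sgb true) (sgb true) x) :
    AltB (VFD κ) PP tK tL pcB [⟨3, 0, 0, 1449551462⟩] 0 2 2 0 0 (sgb true) (sgb true) x :=
  strip_altBD (m := 1449551462) true rfl hκ (SH.κ0 hκ (SH.hx1 hx).le (SH.hx2 hx').le) (SH.hx1 hx).le (SH.hx2 hx') (covB00).cov (covB02).cov hx hx' c_B00pp_022_s1 H (noExt_B)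

noncomputable def cut_B00pp_022_s3 : Cut := Cut.of [[⟨3, 0, 0, 2845415833⟩], [⟨0, 0, 0, 67108864⟩, ⟨1, 1, 0, 67108864⟩, ⟨2, 1, 0, 67108864⟩]]

noncomputable def f_B00pp_022_s3 : ℕ → ℕ → ℕ → ℕ → Bool := onCell 0 536870912 0 536870912 818728140 40265320
    (rowF 0 false true true .pp 0 2 2 (qsf 0 536870912 0 536870912 2) ndB0q0 ndB0q2 pcB2 cut_B00pp_022_s3 Ext.none)

def k0_B00pp_022_s3 : ∃ t, chk3 f_B00pp_022_s3 t 1 1 1 = true :=
  ⟨(l 6), by decide +kernel⟩

theorem c_B00pp_022_s3 : CertF 0 536870912 0 536870912 818728140 40265320 false true true .pp 0 2 2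
    ndB0q0 ndB0q2 pcB2 cut_B00pp_022_s3 Ext.none :=
  certF0 (fam := false) (s1 := true) (s2 := true) (a := 0) (b := 2) (c := 2) (cn := .pp) (n1 := ndB0q0) (n2 := ndB0q2) (pc := pcB2) (cut := cut_B00pp_022_s3) (xt := Ext.none) (P1 := 0) (W1 := 536870912) (P2 := 0) (W2 := 536870912) (P3 := 818728140) (W3 := 40265320)
    rfl k0_B00pp_022_s3

theorem s_B00pp_022_s3 {κ x : ℝ} (hκ : κ * h0 = ken x) (hx : ((818728140 : ℕ) : ℝ) / S ≤ x)
    (hx' : x ≤ (((818728140 : ℕ) : ℝ) + (40265320 : ℕ)) / S)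
    (H : CutB (VFD κ) PP tK tL pcB (Cut.of [[⟨0, 0, 0, 67108864⟩, ⟨1, 1, 0, 67108864⟩, ⟨2, 1, 0, 67108864⟩]]) 0 2 2 0 0 (sgb true) (sgb true) x) :
    AltB (VFD κ) PP tK tL pcB [⟨4, 0, 0, 2845415833⟩] 0 2 2 0 0 (sgb true) (sgb true) x :=
  strip_altBD (m := 2845415833) false rfl hκ (SH.κ0 hκ (SH.hx1 hx).le (SH.hx2 hx').le) (SH.hx1 hx).le (SH.hx2 hx') (covB00).cov (covB02).cov hx hx' c_B00pp_022_s3 H (noExt_B)

noncomputable def cut_B00pp_101_s1 : Cut := Cut.of [[⟨4, 0, 0, 1449551462⟩]]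

noncomputable def f_B00pp_101_s1 : ℕ → ℕ → ℕ → ℕ → Bool := onCell 536870912 536870912 536870912 536870912 818728140 40265320
    (rowF 0 false true true .npn 1 0 1 (qsf 536870912 536870912 536870912 536870912 0) ndB0q1 ndB0q1 pcB0 cut_B00pp_101_s1 Ext.none)

def k0_B00pp_101_s1 : ∃ t, chk3 f_B00pp_101_s1 t 1 1 1 = true :=
  ⟨(l 3), by decide +kernel⟩

theorem c_B00pp_101_s1 : CertF 536870912 536870912 536870912 536870912 818728140 40265320 false true true .npn 1 0 1
    ndB0q1 ndB0q1 pcB0 cut_B00pp_101_s1 Ext.none :=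
  certF0 (fam := false) (s1 := true) (s2 := true) (a := 1) (b := 0) (c := 1) (cn := .npn) (n1 := ndB0q1) (n2 := ndB0q1) (pc := pcB0) (cut := cut_B00pp_101_s1) (xt := Ext.none) (P1 := 536870912) (W1 := 536870912) (P2 := 536870912) (W2 := 536870912) (P3 := 818728140) (W3 := 40265320)
    rfl k0_B00pp_101_s1

theorem s_B00pp_101_s1 {κ x : ℝ} (hκ : κ * h0 = ken x) (hx : ((818728140 : ℕ) : ℝ) / S ≤ x)
    (hx' : x ≤ (((818728140 : ℕ) : ℝ) + (40265320 : ℕ)) / S) :
    AltB (VFD κ) PP tK tL pcB [⟨3, 0, 0, 1449551462⟩] 1 0 1 0 0 (sgb true) (sgb true) x :=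
  strip_altBD (m := 1449551462) true rfl hκ (SH.κ0 hκ (SH.hx1 hx).le (SH.hx2 hx').le) (SH.hx1 hx).le (SH.hx2 hx') (covB01).cov (covB01).cov hx hx' c_B00pp_101_s1 cutB_nil (noExt_B)

noncomputable def cut_B00pp_101_s3 : Cut := Cut.of [[⟨3, 0, 0, 2845415833⟩]]

noncomputable def f_B00pp_101_s3 : ℕ → ℕ → ℕ → ℕ → Bool := onCell 536870912 536870912 536870912 536870912 818728140 40265320
    (rowF 0 false true true .npn 1 0 1 (qsf 536870912 536870912 536870912 536870912 0) ndB0q1 ndB0q1 pcB0 cut_B00pp_101_s3 Ext.none)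

def k0_B00pp_101_s3 : ∃ t, chk3 f_B00pp_101_s3 t 1 1 1 = true :=
  ⟨(l 3), by decide +kernel⟩

theorem c_B00pp_101_s3 : CertF 536870912 536870912 536870912 536870912 818728140 40265320 false true true .npn 1 0 1
    ndB0q1 ndB0q1 pcB0 cut_B00pp_101_s3 Ext.none :=
  certF0 (fam := false) (s1 := true) (s2 := true) (a := 1) (b := 0) (c := 1) (cn := .npn) (n1 := ndB0q1) (n2 := ndB0q1) (pc := pcB0) (cut := cut_B00pp_101_s3) (xt := Ext.none) (P1 := 536870912) (W1 := 536870912) (P2 := 536870912) (W2 := 536870912) (P3 := 818728140) (W3 := 40265320)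
    rfl k0_B00pp_101_s3

theorem s_B00pp_101_s3 {κ x : ℝ} (hκ : κ * h0 = ken x) (hx : ((818728140 : ℕ) : ℝ) / S ≤ x)
    (hx' : x ≤ (((818728140 : ℕ) : ℝ) + (40265320 : ℕ)) / S) :
    AltB (VFD κ) PP tK tL pcB [⟨4, 0, 0, 2845415833⟩] 1 0 1 0 0 (sgb true) (sgb true) x :=
  strip_altBD (m := 2845415833) false rfl hκ (SH.κ0 hκ (SH.hx1 hx).le (SH.hx2 hx').le) (SH.hx1 hx).le (SH.hx2 hx') (covB01).cov (covB01).cov hx hx' c_B00pp_101_s3 cutB_nil (noExt_B)

noncomputable def cut_B00pp_102_s1 : Cut := Cut.of [[⟨4, 0, 0, 1449551462⟩]]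

noncomputable def f_B00pp_102_s1 : ℕ → ℕ → ℕ → ℕ → Bool := onCell 0 536870912 0 536870912 818728140 40265320
    (rowF 2 false true true .npp 1 0 2 (qsf 536870912 536870912 0 536870912 0) ndB0q1 ndB0q2 pcB0 cut_B00pp_102_s1 Ext.none)

def k0_B00pp_102_s1 : ∃ t, chk3 f_B00pp_102_s1 t 1 1 1 = true :=
  ⟨(a (b (l 3) (l 3)) (l 3)), by decide +kernel⟩

theorem c_B00pp_102_s1 : CertF 536870912 536870912 0 536870912 818728140 40265320 false true true .npp 1 0 2
    ndB0q1 ndB0q2 pcB0 cut_B00pp_102_s1 Ext.none :=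
  certF2 (fam := false) (s1 := true) (s2 := true) (a := 1) (b := 0) (c := 2) (cn := .npp) (n1 := ndB0q1) (n2 := ndB0q2) (pc := pcB0) (cut := cut_B00pp_102_s1) (xt := Ext.none) (P1 := 536870912) (W1 := 536870912) (P2 := 0) (W2 := 536870912) (P3 := 818728140) (W3 := 40265320)
    rfl (fun _ => rfl) k0_B00pp_102_s1

theorem s_B00pp_102_s1 {κ x : ℝ} (hκ : κ * h0 = ken x) (hx : ((818728140 : ℕ) : ℝ) / S ≤ x)
    (hx' : x ≤ (((818728140 : ℕ) : ℝ) + (40265320 : ℕ)) / S) :
    AltB (VFD κ) PP tK tL pcB [⟨3, 0, 0, 1449551462⟩] 1 0 2 0 0 (sgb true) (sgb true) x :=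
  strip_altBD (m := 1449551462) true rfl hκ (SH.κ0 hκ (SH.hx1 hx).le (SH.hx2 hx').le) (SH.hx1 hx).le (SH.hx2 hx') (covB01).cov (covB02).cov hx hx' c_B00pp_102_s1 cutB_nil (noExt_B)

noncomputable def cut_B00pp_102_s3 : Cut := Cut.of [[⟨3, 0, 0, 2845415833⟩]]

noncomputable def f_B00pp_102_s3 : ℕ → ℕ → ℕ → ℕ → Bool := onCell 536870912 536870912 0 536870912 818728140 40265320
    (rowF 0 false true true .npp 1 0 2 (qsf 536870912 536870912 0 536870912 0) ndB0q1 ndB0q2 pcB0 cut_B00pp_102_s3 Ext.none)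

def k0_B00pp_102_s3 : ∃ t, chk3 f_B00pp_102_s3 t 1 1 1 = true :=
  ⟨(l 6), by decide +kernel⟩

theorem c_B00pp_102_s3 : CertF 536870912 536870912 0 536870912 818728140 40265320 false true true .npp 1 0 2
    ndB0q1 ndB0q2 pcB0 cut_B00pp_102_s3 Ext.none :=
  certF0 (fam := false) (s1 := true) (s2 := true) (a := 1) (b := 0) (c := 2) (cn := .npp) (n1 := ndB0q1) (n2 := ndB0q2) (pc := pcB0) (cut := cut_B00pp_102_s3) (xt := Ext.none) (P1 := 536870912) (W1 := 536870912) (P2 := 0) (W2 := 536870912) (P3 := 818728140) (W3 := 40265320)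
    rfl k0_B00pp_102_s3

theorem s_B00pp_102_s3 {κ x : ℝ} (hκ : κ * h0 = ken x) (hx : ((818728140 : ℕ) : ℝ) / S ≤ x)
    (hx' : x ≤ (((818728140 : ℕ) : ℝ) + (40265320 : ℕ)) / S) :
    AltB (VFD κ) PP tK tL pcB [⟨4, 0, 0, 2845415833⟩] 1 0 2 0 0 (sgb true) (sgb true) x :=
  strip_altBD (m := 2845415833) false rfl hκ (SH.κ0 hκ (SH.hx1 hx).le (SH.hx2 hx').le) (SH.hx1 hx).le (SH.hx2 hx') (covB01).cov (covB02).cov hx hx' c_B00pp_102_s3 cutB_nil (noExt_B)

noncomputable def cut_B00pp_112_s1 : Cut := Cut.of [[⟨4, 0, 0, 1449551462⟩]]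

noncomputable def xt_B00pp_112_s1 : Ext := strExt dd false true true .u0 .u2 .u0m .dn 1 1 2 rfl rfl gf1 vv ndB0q1 ndB0q2

noncomputable def f_B00pp_112_s1 : ℕ → ℕ → ℕ → ℕ → Bool := onCell 536870912 536870912 0 536870912 818728140 40265320
    (rowF 0 false true true .dn 1 1 2 (qsf 536870912 536870912 0 536870912 1) ndB0q1 ndB0q2 pcB1 cut_B00pp_112_s1 xt_B00pp_112_s1)

def k0_B00pp_112_s1 : ∃ t, chk3 f_B00pp_112_s1 t 1 1 1 = true :=
  ⟨(a (b (a (b (a (b (a (a (l 534394639) (l 532986383)) (l 532858639)) (a (a (b (b (l 534193679) (l 3)) (l 3)) (l 3)) (l 3))) (b (a (l 532637199) (l 3)) (l 3))) (l 3)) (l 3)) (l 3)) (l 1)), by decide +kernel⟩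

theorem c_B00pp_112_s1 : CertF 536870912 536870912 0 536870912 818728140 40265320 false true true .dn 1 1 2
    ndB0q1 ndB0q2 pcB1 cut_B00pp_112_s1 xt_B00pp_112_s1 :=
  certF0 (fam := false) (s1 := true) (s2 := true) (a := 1) (b := 1) (c := 2) (cn := .dn) (n1 := ndB0q1) (n2 := ndB0q2) (pc := pcB1) (cut := cut_B00pp_112_s1) (xt := xt_B00pp_112_s1) (P1 := 536870912) (W1 := 536870912) (P2 := 0) (W2 := 536870912) (P3 := 818728140) (W3 := 40265320)
    rfl k0_B00pp_112_s1

theorem s_B00pp_112_s1 {κ x : ℝ} (hκ : κ * h0 = ken x) (hx : ((818728140 : ℕ) : ℝ) / S ≤ x)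
    (hx' : x ≤ (((818728140 : ℕ) : ℝ) + (40265320 : ℕ)) / S) :
    AltB (VFD κ) PP tK tL pcB [⟨3, 0, 0, 1449551462⟩] 1 1 2 0 0 (sgb true) (sgb true) x :=
  strip_altBD (m := 1449551462) true rfl hκ (SH.κ0 hκ (SH.hx1 hx).le (SH.hx2 hx').le) (SH.hx1 hx).le (SH.hx2 hx') (covB01).cov (covB02).cov hx hx' c_B00pp_112_s1 cutB_nil ((okx hx hx').extB (T := tt) (sideB hx hx') hκ rfl rfl (.O 1 true) (.O 2 true) (Or.inr rfl))

noncomputable def cut_B00pp_112_s3 : Cut := Cut.of [[⟨3, 0, 0, 2845415833⟩]]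

noncomputable def f_B00pp_112_s3 : ℕ → ℕ → ℕ → ℕ → Bool := onCell 536870912 536870912 0 536870912 818728140 40265320
    (rowF 0 false true true .dn 1 1 2 (qsf 536870912 536870912 0 536870912 1) ndB0q1 ndB0q2 pcB1 cut_B00pp_112_s3 Ext.none)

def k0_B00pp_112_s3 : ∃ t, chk3 f_B00pp_112_s3 t 1 1 1 = true :=
  ⟨(l 6), by decide +kernel⟩

theorem c_B00pp_112_s3 : CertF 536870912 536870912 0 536870912 818728140 40265320 false true true .dn 1 1 2
    ndB0q1 ndB0q2 pcB1 cut_B00pp_112_s3 Ext.none :=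
  certF0 (fam := false) (s1 := true) (s2 := true) (a := 1) (b := 1) (c := 2) (cn := .dn) (n1 := ndB0q1) (n2 := ndB0q2) (pc := pcB1) (cut := cut_B00pp_112_s3) (xt := Ext.none) (P1 := 536870912) (W1 := 536870912) (P2 := 0) (W2 := 536870912) (P3 := 818728140) (W3 := 40265320)
    rfl k0_B00pp_112_s3

theorem s_B00pp_112_s3 {κ x : ℝ} (hκ : κ * h0 = ken x) (hx : ((818728140 : ℕ) : ℝ) / S ≤ x)
    (hx' : x ≤ (((818728140 : ℕ) : ℝ) + (40265320 : ℕ)) / S) :
    AltB (VFD κ) PP tK tL pcB [⟨4, 0, 0, 2845415833⟩] 1 1 2 0 0 (sgb true) (sgb true) x :=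
  strip_altBD (m := 2845415833) false rfl hκ (SH.κ0 hκ (SH.hx1 hx).le (SH.hx2 hx').le) (SH.hx1 hx).le (SH.hx2 hx') (covB01).cov (covB02).cov hx hx' c_B00pp_112_s3 cutB_nil (noExt_B)

noncomputable def cut_B00pp_202_s1 : Cut := Cut.of [[⟨4, 0, 0, 1449551462⟩]]

noncomputable def f_B00pp_202_s1 : ℕ → ℕ → ℕ → ℕ → Bool := onCell 0 536870912 0 536870912 818728140 40265320
    (rowF 0 false true true .pp 2 0 2 (qsf 0 536870912 0 536870912 0) ndB0q2 ndB0q2 pcB0 cut_B00pp_202_s1 Ext.none)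

def k0_B00pp_202_s1 : ∃ t, chk3 f_B00pp_202_s1 t 1 1 1 = true :=
  ⟨(l 3), by decide +kernel⟩

theorem c_B00pp_202_s1 : CertF 0 536870912 0 536870912 818728140 40265320 false true true .pp 2 0 2
    ndB0q2 ndB0q2 pcB0 cut_B00pp_202_s1 Ext.none :=
  certF0 (fam := false) (s1 := true) (s2 := true) (a := 2) (b := 0) (c := 2) (cn := .pp) (n1 := ndB0q2) (n2 := ndB0q2) (pc := pcB0) (cut := cut_B00pp_202_s1) (xt := Ext.none) (P1 := 0) (W1 := 536870912) (P2 := 0) (W2 := 536870912) (P3 := 818728140) (W3 := 40265320)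
    rfl k0_B00pp_202_s1

theorem s_B00pp_202_s1 {κ x : ℝ} (hκ : κ * h0 = ken x) (hx : ((818728140 : ℕ) : ℝ) / S ≤ x)
    (hx' : x ≤ (((818728140 : ℕ) : ℝ) + (40265320 : ℕ)) / S) :
    AltB (VFD κ) PP tK tL pcB [⟨3, 0, 0, 1449551462⟩] 2 0 2 0 0 (sgb true) (sgb true) x :=
  strip_altBD (m := 1449551462) true rfl hκ (SH.κ0 hκ (SH.hx1 hx).le (SH.hx2 hx').le) (SH.hx1 hx).le (SH.hx2 hx') (covB02).cov (covB02).cov hx hx' c_B00pp_202_s1 cutB_nil (noExt_B)

noncomputable def cut_B00pp_202_s3 : Cut := Cut.of [[⟨3, 0, 0, 2845415833⟩]]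

noncomputable def f_B00pp_202_s3 : ℕ → ℕ → ℕ → ℕ → Bool := onCell 0 536870912 0 536870912 818728140 40265320
    (rowF 0 false true true .pp 2 0 2 (qsf 0 536870912 0 536870912 0) ndB0q2 ndB0q2 pcB0 cut_B00pp_202_s3 Ext.none)

def k0_B00pp_202_s3 : ∃ t, chk3 f_B00pp_202_s3 t 1 1 1 = true :=
  ⟨(l 3), by decide +kernel⟩

theorem c_B00pp_202_s3 : CertF 0 536870912 0 536870912 818728140 40265320 false true true .pp 2 0 2
    ndB0q2 ndB0q2 pcB0 cut_B00pp_202_s3 Ext.none :=
  certF0 (fam := false) (s1 := true) (s2 := true) (a := 2) (b := 0) (c := 2) (cn := .pp) (n1 := ndB0q2) (n2 := ndB0q2) (pc := pcB0) (cut := cut_B00pp_202_s3) (xt := Ext.none) (P1 := 0) (W1 := 536870912) (P2 := 0) (W2 := 536870912) (P3 := 818728140) (W3 := 40265320)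
    rfl k0_B00pp_202_s3

theorem s_B00pp_202_s3 {κ x : ℝ} (hκ : κ * h0 = ken x) (hx : ((818728140 : ℕ) : ℝ) / S ≤ x)
    (hx' : x ≤ (((818728140 : ℕ) : ℝ) + (40265320 : ℕ)) / S) :
    AltB (VFD κ) PP tK tL pcB [⟨4, 0, 0, 2845415833⟩] 2 0 2 0 0 (sgb true) (sgb true) x :=
  strip_altBD (m := 2845415833) false rfl hκ (SH.κ0 hκ (SH.hx1 hx).le (SH.hx2 hx').le) (SH.hx1 hx).le (SH.hx2 hx') (covB02).cov (covB02).cov hx hx' c_B00pp_202_s3 cutB_nil (noExt_B)

noncomputable def cut_B00pm_001_s1 : Cut := Cut.of [[⟨4, 0, 0, 1449551462⟩]]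

noncomputable def f_B00pm_001_s1 : ℕ → ℕ → ℕ → ℕ → Bool := onCell 0 536870912 536870912 536870912 818728140 40265320
    (rowF 0 false true false .up 0 0 1 (qsf 0 536870912 536870912 536870912 0) ndB0q0 ndB0q1 pcB0 cut_B00pm_001_s1 Ext.none)

def k0_B00pm_001_s1 : ∃ t, chk3 f_B00pm_001_s1 t 1 1 1 = true :=
  ⟨(l 6), by decide +kernel⟩

theorem c_B00pm_001_s1 : CertF 0 536870912 536870912 536870912 818728140 40265320 false true false .up 0 0 1
    ndB0q0 ndB0q1 pcB0 cut_B00pm_001_s1 Ext.none :=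
  certF0 (fam := false) (s1 := true) (s2 := false) (a := 0) (b := 0) (c := 1) (cn := .up) (n1 := ndB0q0) (n2 := ndB0q1) (pc := pcB0) (cut := cut_B00pm_001_s1) (xt := Ext.none) (P1 := 0) (W1 := 536870912) (P2 := 536870912) (W2 := 536870912) (P3 := 818728140) (W3 := 40265320)
    rfl k0_B00pm_001_s1

theorem s_B00pm_001_s1 {κ x : ℝ} (hκ : κ * h0 = ken x) (hx : ((818728140 : ℕ) : ℝ) / S ≤ x)
    (hx' : x ≤ (((818728140 : ℕ) : ℝ) + (40265320 : ℕ)) / S) :
    AltB (VFD κ) PP tK tL pcB [⟨3, 0, 0, 1449551462⟩] 0 0 1 0 0 (sgb true) (sgb false) x :=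
  strip_altBD (m := 1449551462) true rfl hκ (SH.κ0 hκ (SH.hx1 hx).le (SH.hx2 hx').le) (SH.hx1 hx).le (SH.hx2 hx') (covB00).cov (covB01).cov hx hx' c_B00pm_001_s1 cutB_nil (noExt_B)

noncomputable def cut_B00pm_001_s3 : Cut := Cut.of [[⟨3, 0, 0, 2845415833⟩]]

noncomputable def xt_B00pm_001_s3 : Ext := strExt dd false true false .u0 .u0m .s0m .up 0 0 1 rfl rfl gl0 vv ndB0q0 ndB0q1

noncomputable def f_B00pm_001_s3 : ℕ → ℕ → ℕ → ℕ → Bool := onCell 0 536870912 536870912 536870912 818728140 40265320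
    (rowF 0 false true false .up 0 0 1 (qsf 0 536870912 536870912 536870912 0) ndB0q0 ndB0q1 pcB0 cut_B00pm_001_s3 xt_B00pm_001_s3)

def k0_B00pm_001_s3 : ∃ t, chk3 f_B00pm_001_s3 t 2 1 1 = true :=
  ⟨(b (l 4) (b (b (l 4) (l 2)) (l 2))), by decide +kernel⟩

def k1_B00pm_001_s3 : ∃ t, chk3 f_B00pm_001_s3 t 6 2 1 = true :=
  ⟨(b (l 4) (l 4)), by decide +kernel⟩

def k2_B00pm_001_s3 : ∃ t, chk3 f_B00pm_001_s3 t 7 4 1 = true :=
  ⟨(l 4), by decide +kernel⟩

def k3_B00pm_001_s3 : ∃ t, chk3 f_B00pm_001_s3 t 14 5 1 = true :=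
  ⟨(b (l 4) (b (a (l 4) (a (l 4) (b (l 4) (c (l 531100687) (l 530811407))))) (a (b (b (l 4) (b (l 4) (a (l 4) (a (l 4) (a (l 4) (a (l 4) (l 531373583))))))) (a (b (l 4) (l 531397647)) (a (c (l 531457039) (l 531372815)) (a (l 531438095) (b (a (l 531427599) (c (l 531499791) (l 531394063))) (l 531474447)))))) (b (a (c (a (l 531344911) (l 531333903)) (l 531160591)) (c (l 531319567) (l 531098639))) (a (b (a (c (b (l 531471375) (l 531504655)) (b (l 531342607) (l 531387151))) (c (l 531482383) (l 531336719))) (a (a (l 531484175) (l 531486223)) (c (l 531543823) (l 531417615)))) (a (b (c (l 531475215) (l 531308559)) (c (l 531542543) (l 531395087))) (b (l 531376143) (l 531457807)))))))), by decide +kernel⟩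

def k4_B00pm_001_s3 : ∃ t, chk3 f_B00pm_001_s3 t 15 10 1 = true :=
  ⟨(a (b (l 4) (b (l 4) (a (l 4) (a (a (l 4) (a (l 4) (b (l 4) (b (l 4) (l 530535951))))) (b (l 530818319) (l 530692111)))))) (b (b (l 4) (a (l 4) (l 531973391))) (a (b (a (l 4) (l 531427599)) (c (b (a (l 531297807) (l 531513871)) (a (l 531165455) (l 531381007))) (a (b (l 530752015) (l 530628879)) (b (l 530952207) (l 530828559))))) (b (l 531731727) (b (l 531544079) (a (l 531313423) (l 531520527))))))), by decide +kernel⟩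

def k5_B00pm_001_s3 : ∃ t, chk3 f_B00pm_001_s3 t 30 11 1 = true :=
  ⟨(b (a (b (c (l 530860303) (l 530446095)) (c (l 531084559) (l 530745103))) (b (b (a (a (l 530567183) (a (l 530561295) (b (b (c (l 530755599) (l 530253071)) (l 530547727)) (l 530592271)))) (a (b (b (l 530579727) (l 530849295)) (a (l 530603023) (l 530628623))) (b (l 530934799) (l 530679823)))) (a (a (l 530699023) (l 530690831)) (a (b (l 530670607) (l 530730511)) (b (l 530719503) (l 530768655))))) (a (c (l 531077135) (l 530698511)) (a (c (l 531084047) (l 530685711)) (c (l 531112975) (l 530701583)))))) (b (a (c (l 531302415) (l 531035663)) (a (c (l 531292943) (l 530987791)) (c (l 531302159) (l 530970895)))) (a (b (c (l 531456783) (l 531239695)) (c (l 531535631) (l 531341583))) (a (c (l 531490319) (l 531252239)) (b (l 531581967) (l 531410447)))))), by decide +kernel⟩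

def k6_B00pm_001_s3 : ∃ t, chk3 f_B00pm_001_s3 t 31 11 1 = true :=
  ⟨(b (b (a (b (a (b (c (l 531077135) (l 530549007)) (c (l 531062031) (l 530546959))) (b (c (l 531288079) (l 530743567)) (l 531529487))) (a (b (c (l 531073039) (l 530574863)) (c (l 531096847) (l 530617615))) (c (l 531254799) (l 530743311)))) (b (a (b (l 531222799) (l 531189775)) (l 531407631)) (a (c (l 531442959) (l 530911247)) (c (l 531640335) (l 531089935))))) (a (a (b (c (l 531146511) (l 530696207)) (c (l 531226383) (l 530814479))) (b (c (l 531288591) (l 530812943)) (c (l 531345935) (l 530908175)))) (a (b (c (l 531453967) (l 530954767)) (c (l 16697816) (l 16700576))) (b (c (l 16701920) (l 16703888)) (c (l 16678400) (l 16669192)))))) (a (b (a (c (b (l 531314447) (l 531406351)) (b (l 530939407) (l 531066895))) (c (b (l 16694624) (l 16671488)) (b (l 16687800) (l 16664336)))) (a (b (c (l 531497487) (l 531192847)) (c (l 16656928) (l 16650712))) (b (c (l 531573775) (l 531243279)) (a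 (l 16645664) (l 16661440))))) (b (a (b (c (l 16674472) (l 16666264)) (c (l 16661952) (l 16653432))) (b (c (l 16665696) (l 16656000)) (c (l 16653320) (l 16643304)))) (a (b (c (l 16649704) (l 16641000)) (a (l 16635488) (l 16630712))) (b (c (l 16641192) (l 16631008)) (l 16623944)))))), by decide +kernel⟩

def k7_B00pm_001_s3 : ∃ t, chk3 f_B00pm_001_s3 t 6 12 1 = true :=
  ⟨(a (a (l 4) (b (l 4) (a (l 4) (b (l 4) (l 531288847))))) (a (b (l 4) (a (l 531939855) (l 531490831))) (a (b (l 532210959) (l 531559951)) (b (b (l 531412751) (l 531498255)) (l 531885327))))), by decide +kernel⟩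

def k8_B00pm_001_s3 : ∃ t, chk3 f_B00pm_001_s3 t 7 12 1 = true :=
  ⟨(a (a (b (a (b (l 531462159) (l 531546895)) (a (l 531542287) (b (l 531530255) (l 531612175)))) (a (b (l 531629583) (l 531709199)) (b (l 531679247) (l 531758863)))) (b (a (b (a (b (l 531531791) (l 531574799)) (b (l 531536399) (l 531584527))) (a (l 531636239) (l 531650319))) (b (a (b (l 531532047) (l 531585807)) (c (b (l 531597583) (l 16688160)) (l 532018447))) (a (l 531657231) (b (l 16694792) (l 16660608))))) (a (b (a (l 531716367) (l 531733263)) (l 531804687)) (b (a (l 531744271) (l 531751183)) (c (l 531860239) (l 16660928)))))) (a (b (c (a (b (b (l 531599119) (a (l 531651855) (l 531655439))) (a (l 531721743) (l 531997199))) (b (a (l 531628815) (l 531636239)) (a (b (l 16641136) (l 531758863)) (l 531746319)))) (a (b (b (l 531421711) (l 531490831)) (a (l 531592207) (l 531579407))) (b (a (l 531432207) (l 531419919)) (a (l 531566863) (l 531560463))))) (a (b (a (l 531754767) (b (l 16624688)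 (l 16611744))) (c (l 16620320) (l 16638336))) (b (a (b (l 16613128) (l 16600312)) (b (a (l 16604488) (l 16598896)) (l 16588976))) (a (l 16581072) (l 16569912))))) (b (a (b (a (b (l 16641248) (l 16628672)) (b (l 16630608) (l 16618152))) (a (b (l 16616072) (l 16603456)) (b (l 16605680) (l 16593192)))) (b (a (b (a (l 16623144) (l 16618416)) (l 16608416)) (b (a (l 16613904) (l 16609608)) (l 16620472))) (a (b (l 16596056) (l 16583672)) (b (l 16587240) (l 16574960))))) (b (a (a (b (l 16590832) (a (l 16580840) (l 16575640))) (b (l 16580688) (l 16568176))) (a (l 16606984) (l 16598408))) (a (a (l 16601256) (b (l 16555664) (l 16543168))) (a (b (l 16546440) (l 16534024)) (b (l 16537992) (l 16525648)))))))), by decide +kernel⟩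

def k9_B00pm_001_s3 : ∃ t, chk3 f_B00pm_001_s3 t 3 13 1 = true :=
  ⟨(a (a (b (b (a (l 2) (a (l 2) (b (l 531266063) (l 2)))) (l 2)) (l 2)) (b (b (a (a (l 531419663) (l 531548687)) (l 532220687)) (a (a (b (l 531388943) (l 2)) (l 531533327)) (a (l 531664143) (l 531763215)))) (a (b (a (l 2) (a (l 2) (l 16690656))) (l 2)) (b (a (l 531610127) (l 16658360)) (a (l 16682904) (l 16666248)))))) (b (a (a (b (a (l 531783439) (l 531836431)) (a (l 531839759) (l 16649768))) (b (a (l 531883023) (b (l 16600200) (l 16587080))) (a (l 16629664) (l 16567144)))) (a (b (a (b (l 16578504) (l 16565600)) (b (l 16556392) (l 16543696))) (a (l 16546016) (l 16524432))) (b (a (b (l 16535464) (l 16522936)) (b (a (l 16521592) (l 16513296)) (l 16504936))) (a (l 16503872) (b (l 16492408) (l 6)))))) (a (b (a (a (l 16681560) (l 16578672)) (a (l 16559352) (l 16539448))) (a (a (l 16565248) (l 16547624)) (a (l 16529448) (l 16510528)))) (a (b (a (l 16518912) (l 16497808)) (a (l 16490808)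 (l 6))) (b (a (l 16477520) (l 6)) (l 6)))))), by decide +kernel⟩

def k10_B00pm_001_s3 : ∃ t, chk3 f_B00pm_001_s3 t 3 7 1 = true :=
  ⟨(a (a (l 2) (b (b (a (l 2) (b (a (l 2) (l 16544888)) (l 2))) (l 2)) (l 2))) (b (a (b (b (a (a (l 16530072) (l 16514416)) (a (l 16497896) (l 16480240))) (a (b (l 16578792) (l 84925822887)) (l 6))) (a (b (l 157403330231) (l 2)) (l 6))) (l 6)) (l 6))), by decide +kernel⟩

theorem t11_B00pm_001_s3 : ∃ t, chk3 f_B00pm_001_s3 t 3 12 1 = true := ex3_a k7_B00pm_001_s3 k8_B00pm_001_s3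

theorem t12_B00pm_001_s3 : ∃ t, chk3 f_B00pm_001_s3 t 3 6 1 = true := ex3_b t11_B00pm_001_s3 k9_B00pm_001_s3

theorem t13_B00pm_001_s3 : ∃ t, chk3 f_B00pm_001_s3 t 3 3 1 = true := ex3_b t12_B00pm_001_s3 k10_B00pm_001_s3

theorem t14_B00pm_001_s3 : ∃ t, chk3 f_B00pm_001_s3 t 15 11 1 = true := ex3_a k5_B00pm_001_s3 k6_B00pm_001_s3

theorem t15_B00pm_001_s3 : ∃ t, chk3 f_B00pm_001_s3 t 15 5 1 = true := ex3_b k4_B00pm_001_s3 t14_B00pm_001_s3

theorem t16_B00pm_001_s3 : ∃ t, chk3 f_B00pm_001_s3 t 7 5 1 = true := ex3_a k3_B00pm_001_s3 t15_B00pm_001_s3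

theorem t17_B00pm_001_s3 : ∃ t, chk3 f_B00pm_001_s3 t 7 2 1 = true := ex3_b k2_B00pm_001_s3 t16_B00pm_001_s3

theorem t18_B00pm_001_s3 : ∃ t, chk3 f_B00pm_001_s3 t 3 2 1 = true := ex3_a k1_B00pm_001_s3 t17_B00pm_001_s3

theorem t19_B00pm_001_s3 : ∃ t, chk3 f_B00pm_001_s3 t 3 1 1 = true := ex3_b t18_B00pm_001_s3 t13_B00pm_001_s3

theorem t20_B00pm_001_s3 : ∃ t, chk3 f_B00pm_001_s3 t 1 1 1 = true := ex3_a k0_B00pm_001_s3 t19_B00pm_001_s3

theorem c_B00pm_001_s3 : CertF 0 536870912 536870912 536870912 818728140 40265320 false true false .up 0 0 1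
    ndB0q0 ndB0q1 pcB0 cut_B00pm_001_s3 xt_B00pm_001_s3 :=
  certF0 (fam := false) (s1 := true) (s2 := false) (a := 0) (b := 0) (c := 1) (cn := .up) (n1 := ndB0q0) (n2 := ndB0q1) (pc := pcB0) (cut := cut_B00pm_001_s3) (xt := xt_B00pm_001_s3) (P1 := 0) (W1 := 536870912) (P2 := 536870912) (W2 := 536870912) (P3 := 818728140) (W3 := 40265320)
    rfl t20_B00pm_001_s3

theorem s_B00pm_001_s3 {κ x : ℝ} (hκ : κ * h0 = ken x) (hx : ((818728140 : ℕ) : ℝ) / S ≤ x)
    (hx' : x ≤ (((818728140 : ℕ) : ℝ) + (40265320 : ℕ)) / S) :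
    AltB (VFD κ) PP tK tL pcB [⟨4, 0, 0, 2845415833⟩] 0 0 1 0 0 (sgb true) (sgb false) x :=
  strip_altBD (m := 2845415833) false rfl hκ (SH.κ0 hκ (SH.hx1 hx).le (SH.hx2 hx').le) (SH.hx1 hx).le (SH.hx2 hx') (covB00).cov (covB01).cov hx hx' c_B00pm_001_s3 cutB_nil ((okx hx hx').extB (T := tt) (sideB hx hx') hκ rfl rfl (.O 0 true) (.O 1 false) (Or.inl rfl))

noncomputable def cut_B00pm_011_s1 : Cut := Cut.of [[⟨4, 0, 0, 1449551462⟩], [⟨0, 0, 0, 67108864⟩, ⟨1, 1, 0, 67108864⟩, ⟨2, 1, 0, 67108864⟩]]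

noncomputable def f_B00pm_011_s1 : ℕ → ℕ → ℕ → ℕ → Bool := onCell 0 536870912 536870912 536870912 818728140 40265320
    (rowF 0 false true false .pnn 0 1 1 (qsf 0 536870912 536870912 536870912 1) ndB0q0 ndB0q1 pcB1 cut_B00pm_011_s1 Ext.none)

def k0_B00pm_011_s1 : ∃ t, chk3 f_B00pm_011_s1 t 1 1 1 = true :=
  ⟨(l 6), by decide +kernel⟩

theorem c_B00pm_011_s1 : CertF 0 536870912 536870912 536870912 818728140 40265320 false true false .pnn 0 1 1
    ndB0q0 ndB0q1 pcB1 cut_B00pm_011_s1 Ext.none :=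
  certF0 (fam := false) (s1 := true) (s2 := false) (a := 0) (b := 1) (c := 1) (cn := .pnn) (n1 := ndB0q0) (n2 := ndB0q1) (pc := pcB1) (cut := cut_B00pm_011_s1) (xt := Ext.none) (P1 := 0) (W1 := 536870912) (P2 := 536870912) (W2 := 536870912) (P3 := 818728140) (W3 := 40265320)
    rfl k0_B00pm_011_s1

theorem s_B00pm_011_s1 {κ x : ℝ} (hκ : κ * h0 = ken x) (hx : ((818728140 : ℕ) : ℝ) / S ≤ x)
    (hx' : x ≤ (((818728140 : ℕ) : ℝ) + (40265320 : ℕ)) / S)
    (H : CutB (VFD κ) PP tK tL pcB (Cut.of [[⟨0, 0, 0, 67108864⟩, ⟨1, 1, 0, 67108864⟩, ⟨2, 1, 0, 67108864⟩]]) 0 1 1 0 0 (sgb true) (sgb false) x) :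
    AltB (VFD κ) PP tK tL pcB [⟨3, 0, 0, 1449551462⟩] 0 1 1 0 0 (sgb true) (sgb false) x :=
  strip_altBD (m := 1449551462) true rfl hκ (SH.κ0 hκ (SH.hx1 hx).le (SH.hx2 hx').le) (SH.hx1 hx).le (SH.hx2 hx') (covB00).cov (covB01).cov hx hx' c_B00pm_011_s1 H (noExt_B)

noncomputable def cut_B00pm_011_s3 : Cut := Cut.of [[⟨3, 0, 0, 2845415833⟩], [⟨0, 0, 0, 67108864⟩, ⟨1, 1, 0, 67108864⟩, ⟨2, 1, 0, 67108864⟩]]

noncomputable def xt_B00pm_011_s3 : Ext := strExt dd false true false .u0 .u0m .s0m .pnn 0 1 1 rfl rfl gl1 vv ndB0q0 ndB0q1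

noncomputable def f_B00pm_011_s3 : ℕ → ℕ → ℕ → ℕ → Bool := onCell 0 536870912 536870912 536870912 818728140 40265320
    (rowF 0 false true false .pnn 0 1 1 (qsf 0 536870912 536870912 536870912 1) ndB0q0 ndB0q1 pcB1 cut_B00pm_011_s3 xt_B00pm_011_s3)

def k0_B00pm_011_s3 : ∃ t, chk3 f_B00pm_011_s3 t 1 2 1 = true :=
  ⟨(a (l 4) (a (a (l 4) (l 1)) (l 1))), by decide +kernel⟩

def k1_B00pm_011_s3 : ∃ t, chk3 f_B00pm_011_s3 t 2 6 1 = true :=
  ⟨(b (l 4) (a (l 4) (a (l 4) (b (l 4) (a (b (l 4) (a (l 4) (c (b (l 4) (a (l 4) (l 531250959))) (l 531402767)))) (a (b (l 4) (b (l 531256335) (c (l 530502927) (l 530683663)))) (b (b (l 531326479) (l 531327759)) (b (l 531332367) (l 531340303))))))))), by decide +kernel⟩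

def k2_B00pm_011_s3 : ∃ t, chk3 f_B00pm_011_s3 t 4 14 1 = true :=
  ⟨(b (l 4) (b (l 4) (b (l 4) (a (l 4) (a (l 4) (a (l 4) (c (a (a (l 4) (l 530697999)) (a (l 530721551) (l 530747919))) (a (a (l 4) (l 530803983)) (l 530829583))))))))), by decide +kernel⟩

def k3_B00pm_011_s3 : ∃ t, chk3 f_B00pm_011_s3 t 8 30 1 = true :=
  ⟨(b (l 4) (a (l 4) (a (l 4) (a (l 4) (b (l 4) (a (l 4) (b (l 4) (a (l 530728719) (l 530733839))))))))), by decide +kernel⟩

def k4_B00pm_011_s3 : ∃ t, chk3 f_B00pm_011_s3 t 8 62 1 = true :=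
  ⟨(a (b (l 4) (l 14)) (b (a (a (l 4) (a (l 4) (a (l 4) (b (l 4) (l 531551247))))) (a (a (b (l 4) (a (l 531287311) (l 531023375))) (a (b (l 530733583) (l 531027727)) (b (l 530738447) (l 530764047)))) (a (b (a (l 530743311) (l 530748431)) (a (l 530768911) (l 530773775))) (b (a (l 530753551) (l 530758671)) (a (l 530778639) (l 530783503)))))) (a (a (b (b (l 4) (l 14)) (l 14)) (a (a (b (c (l 530651919) (l 530882319)) (l 14)) (b (c (l 530657039) (l 530885135)) (c (l 530682127) (l 530915087)))) (a (b (c (l 530662415) (l 530887951)) (c (l 530687247) (l 530917903))) (b (c (l 530667791) (l 530891023)) (c (l 530692367) (l 530920719)))))) (a (a (b (a (c (l 530673167) (l 530894095)) (l 531586575)) (a (c (l 530697743) (l 530923535)) (c (l 530702863) (l 530926351)))) (b (a (l 531322383) (l 531058447)) (a (c (l 530708239) (l 530929423)) (l 531621903)))) (c (a (a (b (l 530695439) (l 530719247)) (b (l 530701327) (l 530724879))) (b (l 531245071) (b (l 530726671) (a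 (l 16735264) (l 16737472))))) (a (a (b (l 530907151) (l 530935823)) (b (l 530910735) (l 530939151))) (b (a (l 530914319) (l 530917903)) (b (l 530936079) (a (l 16741968) (b (l 16735184) (l 16732416))))))))))), by decide +kernel⟩

def k5_B00pm_011_s3 : ∃ t, chk3 f_B00pm_011_s3 t 8 63 1 = true :=
  ⟨(a (l 14) (b (a (a (l 14) (a (l 14) (a (l 14) (b (b (l 530821391) (l 14)) (l 14))))) (b (a (b (a (a (l 530825231) (l 530829071)) (a (l 530833167) (b (l 16745856) (c (l 16737080) (l 16738544))))) (a (a (b (l 530835727) (l 14)) (b (c (l 16740216) (l 16741592)) (b (a (l 16739488) (l 16738072)) (l 16737368)))) (b (b (a (l 16738616) (a (l 16736400) (l 16734992))) (a (a (l 16737944) (l 16736536)) (l 16734296))) (c (l 16732920) (l 16734512))))) (b (a (b (a (l 16742896) (c (l 16733952) (l 16735480))) (a (c (l 16739312) (l 16740864)) (b (l 16737856) (l 16731216)))) (b (a (c (l 16736184) (l 16737808)) (b (l 16734760) (l 16728128))) (c (l 16726712) (l 16728448)))) (a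 (c (l 16728416) (l 16735360)) (c (l 16722536) (l 16724376))))) (a (a (a (l 14) (a (l 14) (b (l 16738368) (l 14)))) (b (c (l 16728672) (a (l 16731816) (l 16728936))) (c (l 16722984) (l 16730064)))) (a (b (c (l 16722784) (l 16729872)) (c (l 16717120) (l 16719104))) (b (c (l 16716936) (l 16718912)) (c (l 16711288) (l 16713416))))))) (a (l 14) (b (b (a (a (l 14) (c (l 16717248) (l 16719232))) (a (c (l 16711416) (l 16713544)) (c (l 16705616) (l 16707888)))) (a (l 14) (a (c (l 16705616) (l 16713144)) (c (l 16699832) (l 16707496))))) (a (l 14) (b (a (b (l 16707720) (l 14)) (l 16695328)) (a (l 14) (c (l 16688608) (l 16690712))))))))), by decide +kernel⟩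

def k6_B00pm_011_s3 : ∃ t, chk3 f_B00pm_011_s3 t 18 30 1 = true :=
  ⟨(a (b (l 4) (a (b (l 4) (a (b (l 4) (a (l 530739471) (l 530744847))) (b (a (l 530726671) (l 530732559)) (a (l 530750479) (l 530756111))))) (b (b (l 4) (a (c (l 530637839) (l 530808847)) (c (l 530652431) (l 530819343)))) (a (b (c (l 530658831) (l 530834191)) (c (l 530680079) (l 530859791))) (b (c (l 530673167) (l 530844175)) (c (l 530694159) (l 530869519))))))) (b (a (l 4) (b (l 4) (a (c (l 531438351) (l 531051791)) (c (l 530929935) (l 530804239))))) (b (a (a (b (c (a (l 4) (l 530645263)) (l 531069199)) (a (l 530740239) (l 531012111))) (b (c (l 530660623) (l 530816015)) (c (l 531225103) (l 531113743)))) (a (b (c (l 530683663) (l 530833167)) (c (l 530710031) (l 530861071))) (b (c (l 530710031) (l 530852367)) (c (l 530736655) (l 530880527))))) (a (a (c (b (l 530687759) (l 530708495)) (b (l 530854671) (l 530879759))) (b (c (l 530703631) (l 530866191)) (c (l 530724111) (l 530890767))))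 (a (b (c (l 530727951) (l 530883599)) (c (l 530744591) (l 530905615))) (b (c (l 530754575) (l 530902799)) (c (l 530770191) (l 530923791)))))))), by decide +kernel⟩

def k7_B00pm_011_s3 : ∃ t, chk3 f_B00pm_011_s3 t 19 30 1 = true :=
  ⟨(b (a (a (b (l 4) (a (c (l 530692111) (l 530827023)) (c (l 530725135) (l 530851343)))) (b (c (a (l 530699279) (l 530738703)) (a (l 530817807) (l 530846991))) (a (c (l 530760207) (l 530877199)) (c (l 530797583) (l 530904847))))) (a (b (c (a (l 530775567) (l 530805263)) (a (l 530874383) (l 530896655))) (c (a (l 530837007) (l 530878479)) (a (l 530934031) (l 530964751)))) (b (c (a (l 530829071) (l 530851087)) (a (l 530914319) (l 530930959))) (c (a (l 530917391) (l 530949135)) (a (l 530993679) (l 531017231)))))) (a (a (b (b (a (c (l 530738703) (l 530873359)) (c (l 530769679) (l 530896143))) (a (c (l 530764815) (l 530900751)) (c (l 530795023) (l 530923023)))) (a (c (b (l 530782479) (l 530798095)) (b (l 530922767) (l 530943759)))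 (c (b (l 530812431) (l 530827279)) (b (l 530944527) (l 530964751))))) (a (b (c (b (l 530803215) (l 530827535)) (l 531469839)) (c (b (l 530844687) (l 530858767)) (b (l 530968079) (l 530987535)))) (b (b (l 530887439) (l 531448847)) (c (b (l 530878991) (l 530892559)) (l 531538447))))) (a (b (c (a (l 530887439) (l 530926863)) (a (l 530986255) (l 531015439))) (a (c (l 531189519) (l 531296527)) (c (l 530959631) (l 531055887)))) (a (b (c (l 530968591) (l 531046159)) (c (l 530999823) (l 531085583))) (b (c (l 531012111) (l 531078415)) (b (l 531068687) (a (l 531073551) (b (l 16690632) (l 16685344))))))))), by decide +kernel⟩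

def k8_B00pm_011_s3 : ∃ t, chk3 f_B00pm_011_s3 t 36 62 1 = true :=
  ⟨(b (a (a (b (a (l 530763791) (l 530769167)) (a (l 530788623) (l 530793743))) (b (a (l 530774543) (l 530780175)) (a (l 530799119) (l 530804495)))) (a (b (c (l 530701839) (l 530885647)) (a (l 530809871) (l 530815247))) (b (c (l 530715407) (l 530895119)) (c (l 530736911) (l 530920975))))) (a (a (b (a (l 530813711) (l 530818831)) (b (a (l 530833423) (l 530838287)) (b (a (l 16731440) (l 16733696)) (a (b (l 16729312) (l 16733208)) (b (l 16731656) (l 16725032)))))) (b (a (l 530823951) (l 530829071)) (b (a (l 530843151) (b (l 16728152) (l 16730576))) (b (a (b (l 16726200) (l 16735352)) (b (l 16733800) (l 16721944))) (l 16726608))))) (b (a (a (l 530834191) (l 530839567)) (a (l 530844943) (b (l 530844943) (b (l 16721896) (l 16719096))))) (b (a (b (a (l 16725200) (l 16727456)) (a (b (l 16723080) (l 16732248)) (b (l 16720208) (l 16718840)))) (b (a (b (l 16719968) (l 16718648)) (b (l 16717096)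 (l 16715744))) (l 16725672))) (a (c (l 16716032) (l 16717968)) (c (l 16710224) (l 16712288))))))), by decide +kernel⟩

def k9_B00pm_011_s3 : ∃ t, chk3 f_B00pm_011_s3 t 37 62 1 = true :=
  ⟨(b (a (a (b (c (l 530729487) (l 530904847)) (c (l 530750735) (l 530930447))) (b (c (l 530744591) (l 530915599)) (c (l 530765327) (l 530940687)))) (b (a (c (l 530764047) (l 530929167)) (c (l 530786575) (l 530945295))) (b (a (l 530857231) (l 530875919)) (a (l 531136783) (a (l 16716272) (a (l 16708864) (l 16712624))))))) (b (a (b (a (l 531120911) (a (l 530862095) (b (l 16715648) (l 16712864)))) (a (a (b (l 16718952) (b (l 16716848) (l 16715544))) (b (l 16721216) (b (l 16713992) (l 16712640)))) (b (a (c (l 16712160) (l 16714096)) (b (l 16710888) (l 16709552))) (l 16714256)))) (b (a (c (b (l 16710336) (a (l 16709064) (l 16706296))) (b (l 16712232) (a (l 16711024) (l 16708296)))) (b (a (c (l 16706008) (l 16707984)) (l 16714680)) (l 16702928))) (a (c (l 16703680) (l 16705776))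 (c (l 16698048) (l 16700216))))) (a (a (c (b (l 16709824) (l 16704456)) (b (l 16711864) (l 16706632))) (c (l 16706648) (b (l 16706216) (l 16701016)))) (c (a (l 16706216) (l 16690144)) (a (l 16703280) (l 16703000)))))), by decide +kernel⟩

def k10_B00pm_011_s3 : ∃ t, chk3 f_B00pm_011_s3 t 19 62 1 = true :=
  ⟨(b (a (c (a (b (a (l 530813199) (l 530842127)) (b (a (l 16708472) (l 16707920)) (a (b (l 16704272) (a (l 16703000) (l 16700288))) (b (a (l 16700040) (l 16697360)) (l 16696064))))) (b (a (l 530872335) (b (l 16702424) (l 16696912))) (b (a (b (l 16698408) (l 16706312)) (b (l 16703480) (l 16690360))) (l 16699664)))) (a (b (a (l 530964239) (l 530984975)) (a (b (l 16710240) (b (l 16706168) (a (l 16704968) (l 16702272)))) (b (l 16709752) (b (l 16711136) (l 16698072))))) (b (a (l 531006735) (b (l 16703976) (l 16698624))) (b (a (b (l 16700224) (l 16708200)) (b (l 16694816) (l 16692248))) (l 16701656))))) (b (a (a (b (l 530989071) (c (b (l 16692776) (l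 16690232)) (b (l 16694432) (l 16691952)))) (b (c (l 16691376) (l 16692896)) (b (a (l 16689512) (l 16686952)) (l 16685664)))) (b (a (c (l 16696576) (b (l 16688800) (l 16686360))) (b (l 16693384) (l 16680328))) (c (l 16678448) (l 16679968)))) (a (c (a (l 16683752) (l 16678512)) (a (l 16685632) (l 16680336))) (c (l 16681304) (l 16682992))))) (a (a (b (c (a (l 16705584) (l 16689584)) (a (l 16707728) (l 16691760))) (c (a (l 16684632) (l 16679176)) (c (l 16694136) (l 16695552)))) (b (c (a (l 16684128) (l 16678752)) (a (l 16686320) (l 16680928))) (c (a (l 16673760) (l 16668400)) (a (l 16676232) (l 16670848))))) (a (b (c (a (l 16673456) (l 16668248)) (a (l 16675592) (l 16670320))) (c (l 16671008) (l 16673384))) (b (c (l 16671088) (l 16662536)) (c (l 16650336) (l 16652520)))))), by decide +kernel⟩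

def k11_B00pm_011_s3 : ∃ t, chk3 f_B00pm_011_s3 t 18 63 1 = true :=
  ⟨(a (b (b (a (b (a (c (l 16722224) (l 16724056)) (c (l 16716384) (l 16718344))) (a (c (l 16716688) (l 16718656)) (c (l 16710872) (l 16712968)))) (a (b (c (l 16710576) (l 16712656)) (c (l 16705088) (l 16707312))) (c (l 16707312) (b (l 16707000) (l 16701680))))) (a (a (b (c (l 16711112) (l 16713224)) (c (l 16705496) (l 16707760))) (c (b (l 16705320) (l 16699736)) (b (l 16707568) (l 16702128)))) (c (b (l 16701936) (l 16701632)) (a (b (l 16701936) (l 16696520)) (l 16698880))))) (b (a (b (c (a (l 16699840) (l 16694104)) (a (l 16702256) (l 16696648))) (c (b (l 16692688) (l 16689936)) (a (l 16701896) (l 16691096)))) (b (c (l 16685560) (l 16693536)) (b (c (l 16681336) (l 16694640)) (l 16679872)))) (a (b (c (l 16685696) (l 16688152)) (c (a (l 16682928) (l 16677272)) (a (l 16685120) (l 16679560)))) (b (c (l 16674424) (l 16677032)) (c (l 16668856) (a (l 16674016) (l 16668504))))))) (b (a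 (b (c (a (l 16706824) (l 16690648)) (a (b (l 16701376) (l 16696080)) (l 16703632))) (c (c (l 16692488) (l 16693664)) (a (l 16693320) (l 16693032)))) (b (c (a (l 16685032) (l 16679488)) (c (l 16694632) (l 16696136))) (c (a (l 16674192) (l 16668704)) (a (l 16677072) (l 16671664))))) (a (b (b (c (l 16684728) (a (l 16680000) (l 16674480))) (c (a (l 16671632) (l 16666040)) (a (l 16674544) (l 16669024)))) (c (a (l 16663272) (l 16657744)) (b (l 16666024) (a (l 16663016) (l 16657568))))) (b (b (c (l 16673664) (a (l 16669024) (l 16663648))) (c (l 16657784) (l 16660840))) (a (c (l 16652280) (l 16655016)) (b (l 16650960) (l 16650624))))))), by decide +kernel⟩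

def k12_B00pm_011_s3 : ∃ t, chk3 f_B00pm_011_s3 t 19 63 1 = true :=
  ⟨(a (b (a (b (c (a (l 16674032) (l 16668656)) (a (l 16676744) (l 16671408))) (c (l 16671112) (a (l 16666312) (l 16661024)))) (b (c (l 16671144) (a (l 16666088) (l 16660760))) (c (l 16660616) (l 16663672)))) (a (b (b (c (l 16652520) (l 16666208)) (c (l 16647120) (l 16650192))) (c (b (l 16641704) (l 16636256)) (b (l 16644568) (l 16638920)))) (b (b (c (l 16642232) (l 16645392)) (l 16638176)) (b (c (l 16631432) (l 16634232)) (c (l 16626024) (l 16628624)))))) (c (b (b (a (l 16650160) (l 16640024)) (a (l 16650176) (b (l 16632264) (l 16627024)))) (a (b (l 16629456) (l 16618824)) (b (l 16619376) (l 16609048)))) (b (b (a (l 16652816) (l 16642480)) (a (l 16653136) (l 16642760))) (a (b (b (l 16635048) (l 16629584)) (l 16626592)) (b (l 16621984) (l 16611288)))))), by decide +kernel⟩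

def k13_B00pm_011_s3 : ∃ t, chk3 f_B00pm_011_s3 t 10 14 1 = true :=
  ⟨(b (a (l 4) (b (l 4) (b (a (l 4) (c (l 531041039) (l 531011599))) (a (c (l 531185935) (l 530922767)) (c (l 531048207) (l 531038479)))))) (a (b (b (a (l 4) (a (l 4) (a (l 4) (l 530852623)))) (b (a (l 4) (a (c (l 530733839) (l 530811919)) (a (c (a (l 530778895) (l 530812943)) (l 530865679)) (c (l 530844431) (l 530899215))))) (a (l 4) (a (l 531080207) (a (l 530874127) (a (l 530903567) (l 531184911))))))) (a (a (c (a (b (l 530675983) (l 530777103)) (b (l 530710799) (l 530808847))) (b (l 531325455) (l 531142415))) (c (b (l 531302927) (c (l 530848271) (l 530873615))) (b (l 530845455) (l 530926351)))) (a (b (c (l 530848783) (l 530908943)) (c (l 531474959) (l 530985743))) (c (b (a (l 530916623) (l 531768847)) (a (l 531003407) (l 531045903))) (b (a (l 530961679) (l 530997775)) (l 531051279)))))) (b (a (b (a (l 531172623) (l 530971151)) (b (a (a (l 531845391) (l 530937871)) (l 531255823))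 (a (c (l 531200015) (l 530974479)) (l 531281423)))) (b (c (l 531059471) (l 531066895)) (c (a (l 531050767) (l 531114255)) (a (l 531075343) (l 531131919))))) (a (b (a (a (b (l 530983951) (l 531027983)) (b (l 531010319) (l 531055887))) (c (b (l 531039503) (l 531085839)) (l 531084559))) (c (a (a (l 531082767) (l 531115279)) (a (l 531144975) (l 531171599))) (a (l 531379983) (l 531162895)))) (b (c (a (l 531120911) (l 531178767)) (a (l 531138063) (l 531191055))) (c (a (l 531209999) (l 531265039)) (a (l 531211535) (l 531262479)))))))), by decide +kernel⟩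

def k14_B00pm_011_s3 : ∃ t, chk3 f_B00pm_011_s3 t 11 14 1 = true :=
  ⟨(b (a (b (a (a (l 531354639) (l 531134735)) (l 532274959)) (a (c (a (l 531130383) (l 531182351)) (l 531397647)) (c (l 531788559) (l 531226639)))) (a (a (b (c (l 532110863) (l 530418703)) (b (l 531295503) (l 531318799))) (b (b (l 531297551) (l 531314703)) (l 532420111))) (a (b (l 531879183) (l 532457999)) (b (l 531378703) (l 532225551))))) (a (b (a (a (b (l 531150607) (l 531715855)) (b (l 531203855) (l 531233039))) (b (l 532081423) (c (l 531303439) (l 531312655)))) (b (c (a (a (l 531234575) (l 16695344)) (l 531627535)) (a (l 531535119) (l 531366159))) (a (c (a (l 16688320) (l 16667448)) (l 531871759)) (a (l 531679759) (l 16667840))))) (a (a (b (b (l 531345423) (l 16691904)) (b (l 16653632) (l 16636736))) (b (b (l 16698912) (l 16681456)) (b (l 16643360) (l 16626664)))) (b (b (l 532516879) (a (l 16650096) (l 16639752))) (b (l 16649008) (a (l 16616640) (l 16606448))))))), by decide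 +kernel⟩

def k15_B00pm_011_s3 : ∃ t, chk3 f_B00pm_011_s3 t 10 30 1 = true :=
  ⟨(a (b (a (a (b (c (a (l 530876431) (l 530904847)) (l 531227151)) (a (c (l 530974735) (l 531036431)) (l 531559695))) (b (c (a (l 530935823) (l 530969615)) (l 531005711)) (c (l 531308047) (l 531084303)))) (a (b (c (l 531292175) (l 531060751)) (c (l 531106063) (l 531133967))) (a (b (l 531362575) (l 531436815)) (b (l 531667983) (l 531471631))))) (a (a (b (c (a (l 531053071) (l 531087119)) (a (l 531108623) (l 531133967))) (b (a (l 531107599) (l 531148303)) (a (b (l 16686704) (b (l 16682744) (l 16701280))) (b (l 16691952) (b (l 16677784) (l 16675240)))))) (b (c (a (l 531115023) (l 531141135)) (a (l 531154447) (l 531173647))) (b (a (l 531184655) (b (l 16681168) (l 16676216))) (b (a (c (l 16676192) (l 16676888)) (l 16692600)) (a (l 16671552) (l 16666696)))))) (b (a (c (l 531453455) (l 531205903)) (a (l 531776271) (b (l 16677008) (l 16677880)))) (a (b (b (a (l 16675832) (l 16670488))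 (a (l 16691944) (l 16665992))) (c (l 16661328) (l 16661680))) (b (b (c (l 16684048) (l 16684064)) (l 16658368)) (l 16672464)))))) (b (a (a (b (c (a (l 531164431) (l 531198479)) (l 531450639)) (c (b (l 16698616) (l 16678808)) (l 531517455))) (b (c (l 531780879) (l 531235599)) (c (l 531857679) (l 531302159)))) (b (c (a (l 531568399) (l 16681168)) (a (l 531285519) (l 16691304))) (a (c (l 16673576) (l 16683512)) (b (l 16657144) (l 16669016))))) (a (b (a (b (c (l 16669480) (l 16669248)) (b (l 16672624) (a (l 16660080) (l 16655288)))) (a (b (l 16661704) (l 16668424)) (b (l 16656528) (l 16647816)))) (a (c (l 16646576) (l 16646152)) (c (l 16637136) (l 16636312)))) (a (b (b (c (l 16670480) (l 16669704)) (l 16640360)) (l 16648128)) (b (b (b (l 16641640) (l 16637224)) (l 16630760)) (l 16617712)))))), by decide +kernel⟩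

def k16_B00pm_011_s3 : ∃ t, chk3 f_B00pm_011_s3 t 10 31 1 = true :=
  ⟨(a (b (a (b (a (b (c (l 16670984) (l 16672184)) (c (l 16660896) (l 16662320))) (b (c (l 16661384) (l 16662224)) (c (l 16651384) (l 16652432)))) (a (b (c (l 16650752) (l 16652408)) (c (l 16640552) (l 16642448))) (c (b (l 16641320) (l 16631200)) (b (l 16642584) (l 16632688))))) (b (a (b (c (l 16651896) (l 16652328)) (c (l 16642232) (l 16642800))) (b (l 16642264) (c (l 16633016) (l 16633064)))) (a (b (c (l 16632336) (l 16633088)) (c (l 16622304) (l 16623272))) (b (c (l 16623528) (l 16623696)) (c (l 16613808) (l 16614144)))))) (b (a (b (a (c (l 16630296) (l 16632448)) (c (l 16621016) (l 16622744))) (a (c (b (l 16622576) (l 16617456)) (l 16632768)) (c (l 16621248) (l 16612680)))) (a (b (c (l 16612208) (l 16613392)) (c (l 16602136) (l 16603456))) (b (c (l 16603880) (l 16604416)) (b (l 16617528) (l 16591616))))) (b (a (a (c (l 16609808) (l 16612000)) (c (l 16600736) (l 16602392))) (a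 (l 16603040) (l 16584128))) (a (a (c (l 16599592) (l 16601408)) (c (l 16590616) (l 16591896))) (a (c (l 16582160) (l 16582784)) (c (l 16574232) (l 16574072))))))) (b (a (a (b (c (l 16628376) (l 16627888)) (b (l 16614232) (l 16625864))) (b (c (l 16619184) (l 16618224)) (c (l 16600880) (l 16599928)))) (a (b (l 16630320) (l 16591256)) (b (l 16600120) (l 16582248)))) (a (b (b (a (c (l 16595576) (l 16595416)) (l 16586424)) (a (b (l 16609216) (l 16583360)) (b (l 16579520) (l 16574776)))) (a (c (l 16571448) (l 16570696)) (b (l 16567680) (l 16558040)))) (b (b (a (l 16577400) (l 16568560)) (a (l 16568336) (l 16559600))) (a (b (l 16559064) (l 16549728)) (b (l 16550472) (l 16541264))))))), by decide +kernel⟩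

def k17_B00pm_011_s3 : ∃ t, chk3 f_B00pm_011_s3 t 11 15 1 = true :=
  ⟨(b (b (b (a (a (c (a (l 16660440) (l 16650304)) (l 532478991)) (a (l 16660960) (l 16650784))) (a (a (l 16640816) (l 16631208)) (b (l 16641592) (l 16591536)))) (a (a (a (b (l 16647064) (c (l 16638736) (l 16637760))) (b (l 16636944) (l 16649752))) (b (a (l 16648176) (l 16617728)) (l 16635056))) (a (l 16598912) (l 16579632)))) (a (a (b (c (l 16642376) (l 16620000)) (c (l 16604608) (l 16602752))) (b (c (l 16602472) (l 16600960)) (c (l 16586144) (l 16584096)))) (a (b (l 16582808) (l 16566640)) (b (l 16563920) (l 16548152))))) (a (b (a (b (c (l 16587536) (l 16585304)) (c (l 16570152) (l 16567640))) (b (c (l 16569560) (l 16567040)) (c (l 16552688) (l 16549768)))) (a (a (b (b (l 16559840) (l 16550968)) (l 16537408)) (b (b (l 16551208) (l 16542400)) (l 16529024))) (a (b (a (l 16540608) (l 16536320)) (l 16520672)) (b (l 16529904) (l 16512352))))) (b (a (b (l 16550248) (l 16533536)) (b (l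 16532184) (l 16515792))) (b (a (b (l 16521184) (l 16512624)) (l 16499664)) (a (b (l 16504144) (l 16495600)) (l 16483152)))))), by decide +kernel⟩

def k18_B00pm_011_s3 : ∃ t, chk3 f_B00pm_011_s3 t 3 6 1 = true :=
  ⟨(a (b (a (a (l 4) (b (l 4) (a (l 4) (l 531477519)))) (a (b (l 1) (a (l 531528207) (l 1))) (l 1))) (a (b (a (b (l 4) (c (l 531458063) (l 531430671))) (b (a (a (b (l 4) (c (l 531557903) (l 531547151))) (l 531557903)) (b (l 531575567) (l 531613199))) (a (c (a (l 531589391) (l 531611919)) (a (l 531836431) (l 531588623))) (c (l 532182287) (b (l 531630607) (l 531625231)))))) (a (b (c (a (l 531427087) (l 531501071)) (a (l 531374607) (l 531448335))) (a (c (l 531444495) (l 531369487)) (c (l 531514127) (l 531439119)))) (b (a (c (l 531570703) (l 531782671)) (c (l 531654671) (l 531605775))) (a (a (l 531529999) (l 531565839)) (b (l 16678032) (l 16661928)))))) (b (a (b (a (l 531643919) (l 531693839)) (a (l 531698959) (l 531753487))) (b (l 1) (l 532367119)))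 (c (a (b (l 532290831) (l 532300047)) (b (l 531870223) (l 531891983))) (a (b (l 532517135) (l 532501007)) (b (l 531836943) (l 531834639))))))) (b (l 1) (b (l 1) (a (a (b (l 1) (l 532523535)) (l 1)) (l 1))))), by decide +kernel⟩

def k19_B00pm_011_s3 : ∃ t, chk3 f_B00pm_011_s3 t 3 7 1 = true :=
  ⟨(a (b (a (a (b (b (a (c (l 531468559) (l 531390479)) (b (l 531490063) (l 16691736))) (a (c (l 531762447) (l 531447823)) (b (l 16675064) (l 16637352)))) (a (b (b (l 16662248) (l 16645280)) (b (l 16607744) (c (l 16633640) (l 16591456)))) (b (b (l 16620568) (l 16603840)) (b (l 16587320) (l 16592944))))) (b (a (b (b (l 16708232) (l 16649824)) (b (l 16633272) (l 16616664))) (b (b (l 16645664) (l 16629296)) (l 16646528))) (b (a (b (l 16600048) (l 16583512)) (b (l 16579920) (l 16563368))) (a (b (l 16609256) (l 16551704)) (b (l 16547816) (l 16532056)))))) (b (b (a (b (l 16678448) (l 16641288)) (a (l 16578128) (l 16558952))) (a (b (l 16625008) (l 16608744)) (a (l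 16546096) (l 16527144)))) (b (a (a (b (l 16560256) (l 16543992)) (b (l 16540848) (l 16525144))) (a (l 16556296) (l 16495984))) (a (b (l 16560616) (l 16545456)) (a (l 16483368) (l 6)))))) (a (b (b (a (a (b (l 16575848) (l 16560312)) (b (l 16556152) (l 16540936))) (a (l 16549856) (l 16509616))) (a (a (b (l 16544968) (l 16529584)) (b (l 16525936) (l 16510912))) (a (b (l 16506840) (l 16492152)) (b (l 16487992) (l 6))))) (a (b (a (b (l 16514024) (l 16498048)) (b (l 16495720) (l 6))) (a (b (l 16482352) (l 6)) (l 6))) (b (l 6) (l 6)))) (a (b (b (a (l 16490856) (l 16472600)) (l 6)) (l 6)) (l 6)))) (b (a (b (a (b (a (l 16540008) (l 16521288)) (a (l 16508640) (l 16490600))) (b (l 1) (l 6))) (a (b (l 16468840) (l 6)) (l 6))) (l 6)) (l 6))), by decide +kernel⟩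

theorem t20_B00pm_011_s3 : ∃ t, chk3 f_B00pm_011_s3 t 3 3 1 = true := ex3_b k18_B00pm_011_s3 k19_B00pm_011_s3

theorem t21_B00pm_011_s3 : ∃ t, chk3 f_B00pm_011_s3 t 10 15 1 = true := ex3_b k15_B00pm_011_s3 k16_B00pm_011_s3

theorem t22_B00pm_011_s3 : ∃ t, chk3 f_B00pm_011_s3 t 5 15 1 = true := ex3_a t21_B00pm_011_s3 k17_B00pm_011_s3

theorem t23_B00pm_011_s3 : ∃ t, chk3 f_B00pm_011_s3 t 5 14 1 = true := ex3_a k13_B00pm_011_s3 k14_B00pm_011_s3

theorem t24_B00pm_011_s3 : ∃ t, chk3 f_B00pm_011_s3 t 5 7 1 = true := ex3_b t23_B00pm_011_s3 t22_B00pm_011_s3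

theorem t25_B00pm_011_s3 : ∃ t, chk3 f_B00pm_011_s3 t 9 63 1 = true := ex3_a k11_B00pm_011_s3 k12_B00pm_011_s3

theorem t26_B00pm_011_s3 : ∃ t, chk3 f_B00pm_011_s3 t 18 62 1 = true := ex3_a k8_B00pm_011_s3 k9_B00pm_011_s3

theorem t27_B00pm_011_s3 : ∃ t, chk3 f_B00pm_011_s3 t 9 62 1 = true := ex3_a t26_B00pm_011_s3 k10_B00pm_011_s3

theorem t28_B00pm_011_s3 : ∃ t, chk3 f_B00pm_011_s3 t 9 31 1 = true := ex3_b t27_B00pm_011_s3 t25_B00pm_011_s3

theorem t29_B00pm_011_s3 : ∃ t, chk3 f_B00pm_011_s3 t 9 30 1 = true := ex3_a k6_B00pm_011_s3 k7_B00pm_011_s3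

theorem t30_B00pm_011_s3 : ∃ t, chk3 f_B00pm_011_s3 t 9 15 1 = true := ex3_b t29_B00pm_011_s3 t28_B00pm_011_s3

theorem t31_B00pm_011_s3 : ∃ t, chk3 f_B00pm_011_s3 t 8 31 1 = true := ex3_b k4_B00pm_011_s3 k5_B00pm_011_s3

theorem t32_B00pm_011_s3 : ∃ t, chk3 f_B00pm_011_s3 t 8 15 1 = true := ex3_b k3_B00pm_011_s3 t31_B00pm_011_s3

theorem t33_B00pm_011_s3 : ∃ t, chk3 f_B00pm_011_s3 t 4 15 1 = true := ex3_a t32_B00pm_011_s3 t30_B00pm_011_s3

theorem t34_B00pm_011_s3 : ∃ t, chk3 f_B00pm_011_s3 t 4 7 1 = true := ex3_b k2_B00pm_011_s3 t33_B00pm_011_s3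

theorem t35_B00pm_011_s3 : ∃ t, chk3 f_B00pm_011_s3 t 2 7 1 = true := ex3_a t34_B00pm_011_s3 t24_B00pm_011_s3

theorem t36_B00pm_011_s3 : ∃ t, chk3 f_B00pm_011_s3 t 2 3 1 = true := ex3_b k1_B00pm_011_s3 t35_B00pm_011_s3

theorem t37_B00pm_011_s3 : ∃ t, chk3 f_B00pm_011_s3 t 1 3 1 = true := ex3_a t36_B00pm_011_s3 t20_B00pm_011_s3

theorem t38_B00pm_011_s3 : ∃ t, chk3 f_B00pm_011_s3 t 1 1 1 = true := ex3_b k0_B00pm_011_s3 t37_B00pm_011_s3

theorem c_B00pm_011_s3 : CertF 0 536870912 536870912 536870912 818728140 40265320 false true false .pnn 0 1 1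
    ndB0q0 ndB0q1 pcB1 cut_B00pm_011_s3 xt_B00pm_011_s3 :=
  certF0 (fam := false) (s1 := true) (s2 := false) (a := 0) (b := 1) (c := 1) (cn := .pnn) (n1 := ndB0q0) (n2 := ndB0q1) (pc := pcB1) (cut := cut_B00pm_011_s3) (xt := xt_B00pm_011_s3) (P1 := 0) (W1 := 536870912) (P2 := 536870912) (W2 := 536870912) (P3 := 818728140) (W3 := 40265320)
    rfl t38_B00pm_011_s3

theorem s_B00pm_011_s3 {κ x : ℝ} (hκ : κ * h0 = ken x) (hx : ((818728140 : ℕ) : ℝ) / S ≤ x)
    (hx' : x ≤ (((818728140 : ℕ) : ℝ) + (40265320 : ℕ)) / S)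
    (H : CutB (VFD κ) PP tK tL pcB (Cut.of [[⟨0, 0, 0, 67108864⟩, ⟨1, 1, 0, 67108864⟩, ⟨2, 1, 0, 67108864⟩]]) 0 1 1 0 0 (sgb true) (sgb false) x) :
    AltB (VFD κ) PP tK tL pcB [⟨4, 0, 0, 2845415833⟩] 0 1 1 0 0 (sgb true) (sgb false) x :=
  strip_altBD (m := 2845415833) false rfl hκ (SH.κ0 hκ (SH.hx1 hx).le (SH.hx2 hx').le) (SH.hx1 hx).le (SH.hx2 hx') (covB00).cov (covB01).cov hx hx' c_B00pm_011_s3 H ((okx hx hx').extB (T := tt) (sideB hx hx') hκ rfl rfl (.O 0 true) (.O 1 false) (Or.inr rfl))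

noncomputable def cut_B00pm_012_s1 : Cut := Cut.of [[⟨4, 0, 0, 1449551462⟩], [⟨0, 0, 0, 67108864⟩, ⟨1, 1, 0, 67108864⟩, ⟨2, 1, 0, 67108864⟩]]

noncomputable def xt_B00pm_012_s1 : Ext := strExt dd false true false .u0 .u2 .u0m .pnp 0 1 2 rfl rfl gf1 vv ndB0q0 ndB0q2

noncomputable def f_B00pm_012_s1 : ℕ → ℕ → ℕ → ℕ → Bool := onCell 0 536870912 0 536870912 818728140 40265320
    (rowF 0 false true false .pnp 0 1 2 (qsf 0 536870912 0 536870912 1) ndB0q0 ndB0q2 pcB1 cut_B00pm_012_s1 xt_B00pm_012_s1)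

def k0_B00pm_012_s1 : ∃ t, chk3 f_B00pm_012_s1 t 1 1 1 = true :=
  ⟨(a (l 6) (b (a (b (a (l 6) (b (a (l 6) (b (l 16590088) (l 6))) (l 6))) (l 6)) (b (a (b (a (b (l 16690872) (l 6)) (b (a (l 16620528) (l 16629544)) (c (l 16689464) (l 16686544)))) (l 6)) (b (a (a (l 534259215) (b (l 16648672) (l 16624024))) (a (l 533490703) (l 533403407))) (a (b (a (l 16594208) (l 16600712)) (l 6)) (b (a (l 16608584) (l 16618304)) (a (l 16583424) (l 16591080)))))) (l 6))) (l 6))), by decide +kernel⟩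

theorem c_B00pm_012_s1 : CertF 0 536870912 0 536870912 818728140 40265320 false true false .pnp 0 1 2
    ndB0q0 ndB0q2 pcB1 cut_B00pm_012_s1 xt_B00pm_012_s1 :=
  certF0 (fam := false) (s1 := true) (s2 := false) (a := 0) (b := 1) (c := 2) (cn := .pnp) (n1 := ndB0q0) (n2 := ndB0q2) (pc := pcB1) (cut := cut_B00pm_012_s1) (xt := xt_B00pm_012_s1) (P1 := 0) (W1 := 536870912) (P2 := 0) (W2 := 536870912) (P3 := 818728140) (W3 := 40265320)
    rfl k0_B00pm_012_s1

theorem s_B00pm_012_s1 {κ x : ℝ} (hκ : κ * h0 = ken x) (hx : ((818728140 : ℕ) : ℝ) / S ≤ x)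
    (hx' : x ≤ (((818728140 : ℕ) : ℝ) + (40265320 : ℕ)) / S)
    (H : CutB (VFD κ) PP tK tL pcB (Cut.of [[⟨0, 0, 0, 67108864⟩, ⟨1, 1, 0, 67108864⟩, ⟨2, 1, 0, 67108864⟩]]) 0 1 2 0 0 (sgb true) (sgb false) x) :
    AltB (VFD κ) PP tK tL pcB [⟨3, 0, 0, 1449551462⟩] 0 1 2 0 0 (sgb true) (sgb false) x :=
  strip_altBD (m := 1449551462) true rfl hκ (SH.κ0 hκ (SH.hx1 hx).le (SH.hx2 hx').le) (SH.hx1 hx).le (SH.hx2 hx') (covB00).cov (covB02).cov hx hx' c_B00pm_012_s1 H ((okx hx hx').extB (T := tt) (sideB hx hx') hκ rfl rfl (.O 0 true) (.O 2 false) (Or.inr rfl))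

noncomputable def cut_B00pm_012_s3 : Cut := Cut.of [[⟨3, 0, 0, 2845415833⟩], [⟨0, 0, 0, 67108864⟩, ⟨1, 1, 0, 67108864⟩, ⟨2, 1, 0, 67108864⟩]]

noncomputable def f_B00pm_012_s3 : ℕ → ℕ → ℕ → ℕ → Bool := onCell 0 536870912 0 536870912 818728140 40265320
    (rowF 0 false true false .pnp 0 1 2 (qsf 0 536870912 0 536870912 1) ndB0q0 ndB0q2 pcB1 cut_B00pm_012_s3 Ext.none)

def k0_B00pm_012_s3 : ∃ t, chk3 f_B00pm_012_s3 t 2 2 1 = true :=
  ⟨(l 6), by decide +kernel⟩

def k1_B00pm_012_s3 : ∃ t, chk3 f_B00pm_012_s3 t 4 6 1 = true :=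
  ⟨(a (l 2) (b (l 6) (a (b (l 6) (l 6)) (l 6)))), by decide +kernel⟩

def k2_B00pm_012_s3 : ∃ t, chk3 f_B00pm_012_s3 t 8 7 1 = true :=
  ⟨(b (a (l 2) (a (b (l 2) (l 14)) (b (b (l 2) (a (l 2) (b (a (l 2) (b (l 16537904) (l 16544496))) (a (l 14) (l 16533464))))) (b (a (l 14) (a (l 14) (b (l 16567776) (l 16581280)))) (a (l 14) (a (l 14) (b (l 16594968) (l 16608872)))))))) (a (l 14) (a (l 14) (a (l 14) (a (l 14) (a (l 14) (b (b (b (l 16622792) (l 16637280)) (b (l 16610192) (l 16667352))) (b (b (l 16682920) (l 16684208)) (b (l 16684848) (b (l 16685152) (l 16685264))))))))))), by decide +kernel⟩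

def k3_B00pm_012_s3 : ∃ t, chk3 f_B00pm_012_s3 t 9 14 1 = true :=
  ⟨(a (b (b (a (a (b (a (l 2) (b (l 16512544) (l 16518832))) (a (b (l 16525008) (l 16531464)) (l 16528392))) (b (a (l 16516000) (l 6)) (a (l 16528512) (l 16528600)))) (a (b (l 6) (a (l 16528664) (l 6))) (l 6))) (a (a (b (a (l 16541208) (l 16541176)) (a (l 16554256) (l 16554048))) (b (a (l 16541120) (l 16541032)) (l 16532720))) (a (b (l 16540864) (l 16553128)) (b (l 16540464) (l 16552384))))) (a (b (a (b (a (l 16567424) (l 16567048)) (l 16569992)) (b (l 16566432) (l 16579320))) (a (b (l 16583416) (l 16607536)) (b (l 16592392) (l 16605672)))) (b (a (b (l 16565520) (l 16578056)) (b (l 16564424) (l 16576616))) (a (b (l 16590776) (l 16561760)) (b (l 16588984) (l 16559608)))))) (b (b (l 6) (a (a (b (l 6) (l 16551376)) (l 6)) (l 6))) (c (a (b (a (l 16575384) (l 16573432)) (l 16576368)) (b (l 16527840) (l 16591256))) (a (b (a (l 16562224) (l 16560480)) (a (l 16587048) (l 16584584))) (b (l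 16557336) (l 16538416)))))), by decide +kernel⟩

def k4_B00pm_012_s3 : ∃ t, chk3 f_B00pm_012_s3 t 9 15 1 = true :=
  ⟨(b (a (a (b (a (b (l 16579520) (l 16593768)) (b (l 16577288) (l 16591176))) (b (a (l 16608384) (l 16605416)) (a (l 16623360) (l 16661936)))) (b (a (b (l 16574960) (l 16588472)) (a (l 16579752) (l 16578336))) (a (a (l 16610288) (l 16650552)) (l 16602808)))) (a (b (a (l 16576080) (l 16572792)) (a (l 16593160) (l 16583824))) (b (l 16567224) (a (l 16574832) (l 16566208))))) (b (a (a (a (b (l 16676680) (b (l 16677296) (l 16656656))) (b (l 16666168) (a (l 16648464) (l 16643144)))) (a (b (l 16613824) (b (l 16614168) (l 16656256))) (b (l 16603616) (c (l 16643104) (l 16648776))))) (a (a (b (l 16593696) (l 16635696)) (b (l 16584080) (l 16625904))) (a (b (l 16616760) (l 16616448)) (b (l 16607864) (l 16607376))))) (a (b (a (b (a (l 16677888) (l 16667056)) (a (l 16678080) (l 16667160))) (a (b (l 16656336) (l 16656352)) (b (l 16645808) (l 16645736))))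 (a (b (a (a (l 16680984) (l 16675448)) (l 16672440)) (c (a (b (l 16677032) (l 16677200)) (l 16665944)) (a (b (l 16679656) (l 16682120)) (b (l 16668664) (l 16668464))))) (a (c (a (l 16657544) (l 16652080)) (b (l 16658112) (b (l 16657784) (l 16662776)))) (a (c (l 16646688) (l 16655104)) (b (l 16642960) (l 16647968)))))) (b (a (a (b (l 16635568) (l 16635400)) (l 16636008)) (a (l 16615888) (l 16606616))) (a (a (b (l 16640408) (c (l 16633536) (l 16636432))) (b (l 16625056) (c (l 16623376) (l 16626208)))) (a (c (l 16613696) (l 16627176)) (c (l 16604248) (l 16617440)))))))), by decide +kernel⟩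

def k5_B00pm_012_s3 : ∃ t, chk3 f_B00pm_012_s3 t 5 3 1 = true :=
  ⟨(b (l 6) (a (b (a (b (l 6) (b (l 6) (a (l 16536800) (l 6)))) (l 6)) (b (b (a (a (l 16554160) (l 16582040)) (a (l 16568872) (l 6))) (a (a (a (l 16599928) (l 16592096)) (b (l 16581288) (l 16538472))) (a (l 16566768) (l 16511136)))) (a (b (a (b (a (l 16599360) (l 16591120)) (a (l 16598616) (l 16590024))) (a (l 16582464) (l 16574776))) (b (a (a (l 16597504) (l 16588616)) (a (l 16580176) (l 16572208))) (a (a (c (l 16594984) (l 16597280)) (c (l 16586160) (l 16587920))) (a (a (l 16580408) (l 16576208)) (a (l 16572136) (l 16568160)))))) (b (a (b (l 16564560) (l 16562768)) (a (l 16552848) (l 16545624))) (a (a (b (l 16564512) (a (l 16564224) (l 16560312))) (b (l 16556928) (l 16554488))) (b (l 16566448) (a (l 16546600) (l 16538392)))))))) (b (l 6) (b (l 6) (a (b (a (l 16555320) (l 6)) (a (b (l 16529624) (a (l 16530160) (l 16521992))) (a (l 16536792) (l 16528784)))) (b (l 6) (a (b (l 6) (l 16493592))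 (l 6)))))))), by decide +kernel⟩

def k6_B00pm_012_s3 : ∃ t, chk3 f_B00pm_012_s3 t 3 1 1 = true :=
  ⟨(b (l 6) (a (l 6) (l 6))), by decide +kernel⟩

theorem t7_B00pm_012_s3 : ∃ t, chk3 f_B00pm_012_s3 t 9 7 1 = true := ex3_b k3_B00pm_012_s3 k4_B00pm_012_s3

theorem t8_B00pm_012_s3 : ∃ t, chk3 f_B00pm_012_s3 t 4 7 1 = true := ex3_a k2_B00pm_012_s3 t7_B00pm_012_s3

theorem t9_B00pm_012_s3 : ∃ t, chk3 f_B00pm_012_s3 t 4 3 1 = true := ex3_b k1_B00pm_012_s3 t8_B00pm_012_s3

theorem t10_B00pm_012_s3 : ∃ t, chk3 f_B00pm_012_s3 t 2 3 1 = true := ex3_a t9_B00pm_012_s3 k5_B00pm_012_s3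

theorem t11_B00pm_012_s3 : ∃ t, chk3 f_B00pm_012_s3 t 2 1 1 = true := ex3_b k0_B00pm_012_s3 t10_B00pm_012_s3

theorem t12_B00pm_012_s3 : ∃ t, chk3 f_B00pm_012_s3 t 1 1 1 = true := ex3_a t11_B00pm_012_s3 k6_B00pm_012_s3

theorem c_B00pm_012_s3 : CertF 0 536870912 0 536870912 818728140 40265320 false true false .pnp 0 1 2
    ndB0q0 ndB0q2 pcB1 cut_B00pm_012_s3 Ext.none :=
  certF0 (fam := false) (s1 := true) (s2 := false) (a := 0) (b := 1) (c := 2) (cn := .pnp) (n1 := ndB0q0) (n2 := ndB0q2) (pc := pcB1) (cut := cut_B00pm_012_s3) (xt := Ext.none) (P1 := 0) (W1 := 536870912) (P2 := 0) (W2 := 536870912) (P3 := 818728140) (W3 := 40265320)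
    rfl t12_B00pm_012_s3

theorem s_B00pm_012_s3 {κ x : ℝ} (hκ : κ * h0 = ken x) (hx : ((818728140 : ℕ) : ℝ) / S ≤ x)
    (hx' : x ≤ (((818728140 : ℕ) : ℝ) + (40265320 : ℕ)) / S)
    (H : CutB (VFD κ) PP tK tL pcB (Cut.of [[⟨0, 0, 0, 67108864⟩, ⟨1, 1, 0, 67108864⟩, ⟨2, 1, 0, 67108864⟩]]) 0 1 2 0 0 (sgb true) (sgb false) x) :
    AltB (VFD κ) PP tK tL pcB [⟨4, 0, 0, 2845415833⟩] 0 1 2 0 0 (sgb true) (sgb false) x :=
  strip_altBD (m := 2845415833) false rfl hκ (SH.κ0 hκ (SH.hx1 hx).le (SH.hx2 hx').le) (SH.hx1 hx).le (SH.hx2 hx') (covB00).cov (covB02).cov hx hx' c_B00pm_012_s3 H (noExt_B)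

noncomputable def cut_B00pm_022_s1 : Cut := Cut.of [[⟨4, 0, 0, 1449551462⟩], [⟨0, 0, 0, 67108864⟩, ⟨1, 1, 0, 67108864⟩, ⟨2, 1, 0, 67108864⟩]]

noncomputable def f_B00pm_022_s1 : ℕ → ℕ → ℕ → ℕ → Bool := onCell 1073741824 536870912 0 536870912 818728140 40265320
    (rowF 2 false true false .pp 0 2 2 (qsf 0 536870912 0 536870912 2) ndB0q0 ndB0q2 pcB2 cut_B00pm_022_s1 Ext.none)

def k0_B00pm_022_s1 : ∃ t, chk3 f_B00pm_022_s1 t 1 1 1 = true :=
  ⟨(l 6), by decide +kernel⟩

theorem c_B00pm_022_s1 : CertF 0 536870912 0 536870912 818728140 40265320 false true false .pp 0 2 2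
    ndB0q0 ndB0q2 pcB2 cut_B00pm_022_s1 Ext.none :=
  certF2 (fam := false) (s1 := true) (s2 := false) (a := 0) (b := 2) (c := 2) (cn := .pp) (n1 := ndB0q0) (n2 := ndB0q2) (pc := pcB2) (cut := cut_B00pm_022_s1) (xt := Ext.none) (P1 := 0) (W1 := 536870912) (P2 := 0) (W2 := 536870912) (P3 := 818728140) (W3 := 40265320)
    rfl (fun _ => rfl) k0_B00pm_022_s1

theorem s_B00pm_022_s1 {κ x : ℝ} (hκ : κ * h0 = ken x) (hx : ((818728140 : ℕ) : ℝ) / S ≤ x)
    (hx' : x ≤ (((818728140 : ℕ) : ℝ) + (40265320 : ℕ)) / S)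
    (H : CutB (VFD κ) PP tK tL pcB (Cut.of [[⟨0, 0, 0, 67108864⟩, ⟨1, 1, 0, 67108864⟩, ⟨2, 1, 0, 67108864⟩]]) 0 2 2 0 0 (sgb true) (sgb false) x) :
    AltB (VFD κ) PP tK tL pcB [⟨3, 0, 0, 1449551462⟩] 0 2 2 0 0 (sgb true) (sgb false) x :=
  strip_altBD (m := 1449551462) true rfl hκ (SH.κ0 hκ (SH.hx1 hx).le (SH.hx2 hx').le) (SH.hx1 hx).le (SH.hx2 hx') (covB00).cov (covB02).cov hx hx' c_B00pm_022_s1 H (noExt_B)

noncomputable def cut_B00pm_022_s3 : Cut := Cut.of [[⟨3, 0, 0, 2845415833⟩], [⟨0, 0, 0, 67108864⟩, ⟨1, 1, 0, 67108864⟩, ⟨2, 1, 0, 67108864⟩]]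

noncomputable def f_B00pm_022_s3 : ℕ → ℕ → ℕ → ℕ → Bool := onCell 0 536870912 0 536870912 818728140 40265320
    (rowF 0 false true false .pp 0 2 2 (qsf 0 536870912 0 536870912 2) ndB0q0 ndB0q2 pcB2 cut_B00pm_022_s3 Ext.none)

def k0_B00pm_022_s3 : ∃ t, chk3 f_B00pm_022_s3 t 2 2 1 = true :=
  ⟨(l 6), by decide +kernel⟩

def k1_B00pm_022_s3 : ∃ t, chk3 f_B00pm_022_s3 t 4 6 1 = true :=
  ⟨(a (a (b (l 6) (b (a (b (a (b (l 6) (l 16501344)) (l 6)) (a (a (c (l 16554184) (l 16549232)) (l 16517032)) (l 16527656))) (b (l 6) (a (l 16583320) (l 6)))) (a (a (a (b (b (l 16564000) (l 16572344)) (b (l 16580824) (a (l 16587712) (l 16591200)))) (b (l 16554320) (b (l 16587808) (l 16596376)))) (b (b (l 16539640) (l 16547808)) (b (l 16566592) (b (l 16562424) (l 16566696))))) (a (b (l 16597840) (l 16608104)) (b (l 16575800) (a (l 16591096) (l 16537608))))))) (b (l 6) (b (l 6) (a (b (c (a (l 16557264) (l 16535512)) (a (l 16548760) (l 16523824))) (c (a (l 16566680) (l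 16544216)) (a (l 16556912) (l 16531248)))) (b (l 6) (a (c (l 16521176) (l 16504928)) (b (l 6) (a (l 16496160) (l 16483288))))))))) (b (l 6) (a (b (l 6) (l 6)) (l 6)))), by decide +kernel⟩

def k2_B00pm_022_s3 : ∃ t, chk3 f_B00pm_022_s3 t 4 7 1 = true :=
  ⟨(a (b (a (a (b (b (a (b (a (c (l 16599216) (l 16597352)) (c (l 16605296) (l 16604984))) (a (a (b (l 16603312) (l 16607968)) (c (l 16609472) (l 16608696))) (c (l 16613968) (l 16614352)))) (b (b (l 16571016) (l 16575384)) (b (l 16579816) (l 16584376)))) (b (b (a (a (a (l 16612744) (l 16616136)) (l 16621160)) (l 16599544)) (l 14)) (l 14))) (l 14)) (b (b (a (b (l 16616304) (l 16579960)) (c (l 16557568) (l 16549456))) (b (a (l 16595944) (a (l 16609392) (l 16597176))) (l 14))) (l 14))) (b (a (b (a (c (l 16576896) (a (l 16572152) (l 16559104))) (c (b (l 16551280) (l 16556104)) (l 16523488))) (b (b (a (l 16577392) (l 16541656)) (l 14)) (l 14))) (b (a (c (b (l 16527688) (l 16532136)) (b (l 16510304) (l 16513992)))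 (c (b (l 16503512) (a (l 16513784) (l 16501368))) (b (l 16482768) (a (l 16493120) (l 16479000))))) (b (a (c (l 16536416) (l 16517608)) (c (a (l 16517784) (l 16505184)) (a (l 16496448) (l 16482136)))) (a (l 14) (a (l 14) (a (l 14) (l 1))))))) (a (l 14) (a (l 14) (a (l 14) (l 1)))))) (a (l 14) (a (l 14) (l 1)))) (b (a (b (a (b (a (c (b (a (l 16485008) (l 16472496)) (a (l 16488808) (l 16476104))) (b (a (l 16461696) (l 16447440)) (a (l 16464720) (l 16450272)))) (b (b (l 6) (l 1)) (l 1))) (a (a (b (b (l 16479528) (l 1)) (l 1)) (l 1)) (l 1))) (l 1)) (l 1)) (l 1)) (l 1))), by decide +kernel⟩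

def k3_B00pm_022_s3 : ∃ t, chk3 f_B00pm_022_s3 t 5 3 1 = true :=
  ⟨(b (l 1) (l 1)), by decide +kernel⟩

def k4_B00pm_022_s3 : ∃ t, chk3 f_B00pm_022_s3 t 3 1 1 = true :=
  ⟨(l 1), by decide +kernel⟩

theorem t5_B00pm_022_s3 : ∃ t, chk3 f_B00pm_022_s3 t 4 3 1 = true := ex3_b k1_B00pm_022_s3 k2_B00pm_022_s3

theorem t6_B00pm_022_s3 : ∃ t, chk3 f_B00pm_022_s3 t 2 3 1 = true := ex3_a t5_B00pm_022_s3 k3_B00pm_022_s3

theorem t7_B00pm_022_s3 : ∃ t, chk3 f_B00pm_022_s3 t 2 1 1 = true := ex3_b k0_B00pm_022_s3 t6_B00pm_022_s3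

theorem t8_B00pm_022_s3 : ∃ t, chk3 f_B00pm_022_s3 t 1 1 1 = true := ex3_a t7_B00pm_022_s3 k4_B00pm_022_s3

theorem c_B00pm_022_s3 : CertF 0 536870912 0 536870912 818728140 40265320 false true false .pp 0 2 2
    ndB0q0 ndB0q2 pcB2 cut_B00pm_022_s3 Ext.none :=
  certF0 (fam := false) (s1 := true) (s2 := false) (a := 0) (b := 2) (c := 2) (cn := .pp) (n1 := ndB0q0) (n2 := ndB0q2) (pc := pcB2) (cut := cut_B00pm_022_s3) (xt := Ext.none) (P1 := 0) (W1 := 536870912) (P2 := 0) (W2 := 536870912) (P3 := 818728140) (W3 := 40265320)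
    rfl t8_B00pm_022_s3

theorem s_B00pm_022_s3 {κ x : ℝ} (hκ : κ * h0 = ken x) (hx : ((818728140 : ℕ) : ℝ) / S ≤ x)
    (hx' : x ≤ (((818728140 : ℕ) : ℝ) + (40265320 : ℕ)) / S)
    (H : CutB (VFD κ) PP tK tL pcB (Cut.of [[⟨0, 0, 0, 67108864⟩, ⟨1, 1, 0, 67108864⟩, ⟨2, 1, 0, 67108864⟩]]) 0 2 2 0 0 (sgb true) (sgb false) x) :
    AltB (VFD κ) PP tK tL pcB [⟨4, 0, 0, 2845415833⟩] 0 2 2 0 0 (sgb true) (sgb false) x :=
  strip_altBD (m := 2845415833) false rfl hκ (SH.κ0 hκ (SH.hx1 hx).le (SH.hx2 hx').le) (SH.hx1 hx).le (SH.hx2 hx') (covB00).cov (covB02).cov hx hx' c_B00pm_022_s3 H (noExt_B)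

noncomputable def cut_B00pm_101_s1 : Cut := Cut.of [[⟨4, 0, 0, 1449551462⟩], [⟨0, 1, 0, 53687091⟩, ⟨1, 0, 0, 53687091⟩, ⟨2, 1, 0, 53687091⟩], [⟨0, 0, 1, 26214400⟩, ⟨1, 1, 2, 26214400⟩, ⟨2, 1, 0, 33554432⟩]]

noncomputable def f_B00pm_101_s1 : ℕ → ℕ → ℕ → ℕ → Bool := onCell 536870912 536870912 536870912 536870912 818728140 40265320
    (rowF 0 false true false .npn 1 0 1 (qsf 536870912 536870912 536870912 536870912 0) ndB0q1 ndB0q1 pcB0 cut_B00pm_101_s1 Ext.none)

def k0_B00pm_101_s1 : ∃ t, chk3 f_B00pm_101_s1 t 2 1 1 = true :=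
  ⟨(l 6), by decide +kernel⟩

def k1_B00pm_101_s1 : ∃ t, chk3 f_B00pm_101_s1 t 3 2 1 = true :=
  ⟨(l 6), by decide +kernel⟩

def k2_B00pm_101_s1 : ∃ t, chk3 f_B00pm_101_s1 t 6 3 1 = true :=
  ⟨(b (l 6) (a (l 6) (b (l 6) (b (l 6) (a (l 6) (b (l 6) (a (l 6) (b (l 6) (b (l 6) (a (l 6) (c (c (l 16740056) (l 16692504)) (b (l 16691248) (a (a (l 6) (l 16722896)) (a (l 16725144) (l 16727328))))))))))))))), by decide +kernel⟩

def k3_B00pm_101_s1 : ∃ t, chk3 f_B00pm_101_s1 t 7 6 1 = true :=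
  ⟨(a (l 6) (l 1)), by decide +kernel⟩

def k4_B00pm_101_s1 : ∃ t, chk3 f_B00pm_101_s1 t 7 14 1 = true :=
  ⟨(a (l 6) (a (a (a (a (a (l 6) (l 1)) (l 1)) (l 1)) (l 1)) (l 1))), by decide +kernel⟩

def k5_B00pm_101_s1 : ∃ t, chk3 f_B00pm_101_s1 t 14 15 1 = true :=
  ⟨(b (a (l 6) (a (b (l 6) (b (l 16803712) (l 16775256))) (b (b (a (l 6) (l 16816096)) (b (a (l 6) (b (l 16808376) (l 16853112))) (l 16826320))) (b (l 16816176) (l 16786936))))) (a (b (a (b (l 6) (l 6)) (b (a (l 6) (l 16824400)) (a (l 16753208) (l 16717752)))) (b (a (a (c (l 16764528) (l 16714568)) (c (l 16771832) (l 16722856))) (a (l 16754200) (l 16739248))) (a (a (b (l 16705760) (c (l 16745104) (a (l 16695792) (l 16736560)))) (b (l 16713208) (c (l 16751816) (l 16700328)))) (c (a (l 16719392) (l 16724264)) (b (a (l 16758032) (l 16764424)) (a (l 16749208) (l 16755392))))))) (b (b (a (c (l 16832424) (l 16750320)) (l 16802000)) (a (a (l 16723440) (l 16812360)) (c (l 16776584) (l 16778776))))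 (a (b (a (l 16744488) (l 16749064)) (a (c (l 16738784) (l 16744416)) (b (l 16776512) (a (l 16766568) (l 16768504))))) (b (a (l 16753480) (l 16799792)) (a (b (l 16780608) (b (l 16773672) (l 16790184))) (b (l 16784664) (c (l 16776120) (l 16774504))))))))), by decide +kernel⟩

def k6_B00pm_101_s1 : ∃ t, chk3 f_B00pm_101_s1 t 15 15 1 = true :=
  ⟨(b (a (a (b (a (b (a (l 16802296) (c (l 16799008) (l 16787224))) (b (b (b (a (l 16836152) (l 16805728)) (a (l 16836384) (l 16827136))) (l 16792680)) (l 16798288))) (b (a (b (l 1) (l 176127272423)) (l 1)) (b (a (b (b (a (l 16798736) (l 1)) (l 156799900471)) (l 16805184)) (b (l 1) (l 259879145239))) (a (l 16805488) (l 212634495031))))) (b (a (l 16808816) (b (a (l 16833472) (l 16803416)) (l 16793600))) (a (l 16779616) (l 16802904)))) (b (b (l 1) (b (l 1) (b (l 1) (l 14)))) (l 14))) (b (l 1) (l 14))) (a (a (b (b (l 16801488) (a (l 16784648) (l 16788800))) (b (a (l 16761992) (b (l 16813240) (l 16802296))) (a (b (l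 16788496) (c (l 16779448) (l 16778440))) (b (l 16770968) (c (l 16782496) (l 16781872)))))) (l 14)) (l 14))), by decide +kernel⟩

theorem t7_B00pm_101_s1 : ∃ t, chk3 f_B00pm_101_s1 t 7 15 1 = true := ex3_a k5_B00pm_101_s1 k6_B00pm_101_s1

theorem t8_B00pm_101_s1 : ∃ t, chk3 f_B00pm_101_s1 t 7 7 1 = true := ex3_b k4_B00pm_101_s1 t7_B00pm_101_s1

theorem t9_B00pm_101_s1 : ∃ t, chk3 f_B00pm_101_s1 t 7 3 1 = true := ex3_b k3_B00pm_101_s1 t8_B00pm_101_s1

theorem t10_B00pm_101_s1 : ∃ t, chk3 f_B00pm_101_s1 t 3 3 1 = true := ex3_a k2_B00pm_101_s1 t9_B00pm_101_s1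

theorem t11_B00pm_101_s1 : ∃ t, chk3 f_B00pm_101_s1 t 3 1 1 = true := ex3_b k1_B00pm_101_s1 t10_B00pm_101_s1

theorem t12_B00pm_101_s1 : ∃ t, chk3 f_B00pm_101_s1 t 1 1 1 = true := ex3_a k0_B00pm_101_s1 t11_B00pm_101_s1

theorem c_B00pm_101_s1 : CertF 536870912 536870912 536870912 536870912 818728140 40265320 false true false .npn 1 0 1
    ndB0q1 ndB0q1 pcB0 cut_B00pm_101_s1 Ext.none :=
  certF0 (fam := false) (s1 := true) (s2 := false) (a := 1) (b := 0) (c := 1) (cn := .npn) (n1 := ndB0q1) (n2 := ndB0q1) (pc := pcB0) (cut := cut_B00pm_101_s1) (xt := Ext.none) (P1 := 536870912) (W1 := 536870912) (P2 := 536870912) (W2 := 536870912) (P3 := 818728140) (W3 := 40265320)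
    rfl t12_B00pm_101_s1

theorem s_B00pm_101_s1 {κ x : ℝ} (hκ : κ * h0 = ken x) (hx : ((818728140 : ℕ) : ℝ) / S ≤ x)
    (hx' : x ≤ (((818728140 : ℕ) : ℝ) + (40265320 : ℕ)) / S)
    (H : CutB (VFD κ) PP tK tL pcB (Cut.of [[⟨0, 1, 0, 53687091⟩, ⟨1, 0, 0, 53687091⟩, ⟨2, 1, 0, 53687091⟩], [⟨0, 0, 1, 26214400⟩, ⟨1, 1, 2, 26214400⟩, ⟨2, 1, 0, 33554432⟩]]) 1 0 1 0 0 (sgb true) (sgb false) x) :
    AltB (VFD κ) PP tK tL pcB [⟨3, 0, 0, 1449551462⟩] 1 0 1 0 0 (sgb true) (sgb false) x :=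
  strip_altBD (m := 1449551462) true rfl hκ (SH.κ0 hκ (SH.hx1 hx).le (SH.hx2 hx').le) (SH.hx1 hx).le (SH.hx2 hx') (covB01).cov (covB01).cov hx hx' c_B00pm_101_s1 H (noExt_B)

end Pool.Agent.Strip051.G.I7625_8000.Tab.St.C
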