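import Pool.Agent.Strip051.G.I7625_8000.StH
import Pool.Agent.Strip051.G.I7625_8000.StF

/-! # Unit strips 12 (generated) -/

set_option linter.all false
set_option maxRecDepth 100000

namespace Pool.Agent.Strip051.G.I7625_8000.Tab.St.C

open Pool.Agent.Strip051.PB Pool.Agent.Strip051.PB.T Pool.Agent.StripNear Pool.Agent.Strip051.LC
open Pool.Agent.Strip051.G.I7625_8000.Tab Pool.Agent.Strip051.G.I7625_8000.Tab.St

noncomputable def cut_B00pm_101_s3 : Cut := Cut.of [[⟨3, 0, 0, 2845415833⟩], [⟨0, 1, 0, 53687091⟩, ⟨1, 0, 0, 53687091⟩, ⟨2, 1, 0, 53687091⟩], [⟨0, 0, 1, 26214400⟩, ⟨1, 1, 2, 26214400⟩, ⟨2, 1, 0, 33554432⟩]]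

noncomputable def xt_B00pm_101_s3 : Ext := strExt dd false true false .u0 .u0m .s0m .npn 1 0 1 rfl rfl gl0 vv ndB0q1 ndB0q1

noncomputable def f_B00pm_101_s3 : ℕ → ℕ → ℕ → ℕ → Bool := onCell 536870912 536870912 536870912 536870912 818728140 40265320
    (rowF 0 false true false .npn 1 0 1 (qsf 536870912 536870912 536870912 536870912 0) ndB0q1 ndB0q1 pcB0 cut_B00pm_101_s3 xt_B00pm_101_s3)

def k0_B00pm_101_s3 : ∃ t, chk3 f_B00pm_101_s3 t 4 4 1 = true :=
  ⟨(b (a (l 4) (a (a (l 4) (l 1)) (l 1))) (a (a (a (l 4) (b (l 4) (l 532507407))) (b (l 532609807) (l 532722447))) (a (b (a (l 532922895) (l 533171727)) (l 533350927)) (b (a (l 533466639) (l 1)) (a (l 533431823) (l 533710607)))))), by decide +kernel⟩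

def k1_B00pm_101_s3 : ∃ t, chk3 f_B00pm_101_s3 t 4 5 1 = true :=
  ⟨(b (a (b (a (b (a (a (l 4) (l 532511247)) (l 532619279)) (a (l 532314639) (b (l 532628495) (l 533137167)))) (b (l 532825359) (b (l 532864015) (l 532854799)))) (a (a (b (l 532119823) (l 531886095)) (b (a (l 532380431) (l 532516111)) (b (l 532305679) (l 532199439)))) (b (a (l 532690959) (l 532899343)) (a (l 532537871) (l 532790031))))) (b (b (a (l 533157903) (l 533582863)) (a (l 533201167) (l 533612559))) (b (a (l 533196815) (l 533633551)) (a (l 533679375) (l 533894415))))) (a (b (a (b (a (b (l 531714063) (a (l 531559183) (l 531754511))) (b (l 532095503) (l 532030735))) (a (b (a (l 531551247) (l 531735055)) (a (l 531572239) (l 531743247))) (b (a (l 16662576) (l 16655464)) (a (l 16649704) (l 16642784))))) (b (a (b (l 532406799) (l 532345871)) (c (l 532988431) (l 532315663))) (a (b (l 532311055) (l 532296719)) (b (l 16633768) (l 16621864))))) (a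 (b (a (b (a (l 531612687) (l 16665328)) (a (c (l 16645584) (l 16633968)) (l 16632104))) (a (b (l 16637224) (l 16625128)) (b (l 16630480) (l 16618552)))) (a (b (a (l 16648664) (l 16620168)) (a (l 16615672) (l 16608272))) (b (a (l 16613336) (l 16606912)) (a (l 16601584) (l 16595304))))) (b (a (b (a (l 16624144) (l 16618232)) (a (l 16612384) (l 16606656))) (a (l 16648992) (l 16602208))) (a (b (a (l 16600904) (l 16595344)) (l 16628648)) (b (l 16587936) (l 16576904)))))) (b (a (b (b (l 533073935) (l 533033999)) (a (b (l 16623984) (l 16612584)) (l 533131279))) (b (a (l 533452047) (l 16707528)) (a (l 16606456) (l 16604976)))) (a (b (a (b (l 16601456) (l 16590600)) (b (l 16595056) (l 16584664))) (a (b (l 16579952) (l 16569304)) (b (l 16574464) (l 16564240)))) (b (a (l 16628432) (l 16586360)) (a (b (l 16571856) (l 16562104)) (l 6))))))), by decide +kernel⟩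

def k2_B00pm_101_s3 : ∃ t, chk3 f_B00pm_101_s3 t 5 2 1 = true :=
  ⟨(b (a (b (l 1) (a (a (b (l 1) (l 534846735)) (l 1)) (l 1))) (l 1)) (b (a (a (a (b (b (l 533998607) (l 534003215)) (b (l 534025743) (l 16723304))) (b (b (l 534343695) (l 534320655)) (b (l 534334223) (l 16725872)))) (b (b (l 1) (a (l 535272975) (l 1))) (b (a (l 534723343) (b (l 1) (l 16767600))) (a (l 534732303) (l 6))))) (a (b (l 1) (l 6)) (l 1))) (a (b (a (b (a (l 16707800) (l 16712560)) (a (l 16607176) (l 6))) (l 6)) (l 6)) (l 6)))), by decide +kernel⟩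

def k3_B00pm_101_s3 : ∃ t, chk3 f_B00pm_101_s3 t 2 3 1 = true :=
  ⟨(a (b (b (a (b (a (a (b (a (b (l 16603576) (l 16591432)) (b (l 16596296) (l 16584272))) (a (b (l 16579272) (l 16567088)) (b (l 16572192) (l 16560096)))) (b (a (b (l 16589736) (l 16577832)) (l 16598680)) (b (l 16583840) (a (l 16553840) (l 16548056))))) (a (b (a (l 16614016) (l 16566904)) (a (l 16548624) (l 16543744))) (b (a (l 16562248) (l 16558136)) (a (l 16539384) (l 16535592))))) (a (a (b (a (l 16548720) (l 16541864)) (a (l 16524192) (l 16517456))) (b (b (a (l 16541792) (l 16536088)) (l 16537328)) (b (l 16514752) (l 16502616)))) (a (b (b (l 16528456) (l 16516576)) (b (l 16504656) (l 6))) (b (a (l 16516128) (l 6)) (l 6))))) (b (a (a (b (a (l 16554616) (l 16551712)) (l 16573000)) (b (l 16590600) (l 6))) (l 6)) (l 6))) (a (b (a (b (a (a (b (l 16505792) (l 16493496)) (l 16535000)) (l 6)) (l 6)) (l 6)) (l 6)) (l 6))) (l 6)) (b (l 6) (l 6))), by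 decide +kernel⟩

def k4_B00pm_101_s3 : ∃ t, chk3 f_B00pm_101_s3 t 3 1 1 = true :=
  ⟨(b (a (b (l 1) (l 6)) (l 1)) (l 6)), by decide +kernel⟩

theorem t5_B00pm_101_s3 : ∃ t, chk3 f_B00pm_101_s3 t 4 2 1 = true := ex3_b k0_B00pm_101_s3 k1_B00pm_101_s3

theorem t6_B00pm_101_s3 : ∃ t, chk3 f_B00pm_101_s3 t 2 2 1 = true := ex3_a t5_B00pm_101_s3 k2_B00pm_101_s3

theorem t7_B00pm_101_s3 : ∃ t, chk3 f_B00pm_101_s3 t 2 1 1 = true := ex3_b t6_B00pm_101_s3 k3_B00pm_101_s3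

theorem t8_B00pm_101_s3 : ∃ t, chk3 f_B00pm_101_s3 t 1 1 1 = true := ex3_a t7_B00pm_101_s3 k4_B00pm_101_s3

theorem c_B00pm_101_s3 : CertF 536870912 536870912 536870912 536870912 818728140 40265320 false true false .npn 1 0 1
    ndB0q1 ndB0q1 pcB0 cut_B00pm_101_s3 xt_B00pm_101_s3 :=
  certF0 (fam := false) (s1 := true) (s2 := false) (a := 1) (b := 0) (c := 1) (cn := .npn) (n1 := ndB0q1) (n2 := ndB0q1) (pc := pcB0) (cut := cut_B00pm_101_s3) (xt := xt_B00pm_101_s3) (P1 := 536870912) (W1 := 536870912) (P2 := 536870912) (W2 := 536870912) (P3 := 818728140) (W3 := 40265320)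
    rfl t8_B00pm_101_s3

theorem s_B00pm_101_s3 {κ x : ℝ} (hκ : κ * h0 = ken x) (hx : ((818728140 : ℕ) : ℝ) / S ≤ x)
    (hx' : x ≤ (((818728140 : ℕ) : ℝ) + (40265320 : ℕ)) / S)
    (H : CutB (VFD κ) PP tK tL pcB (Cut.of [[⟨0, 1, 0, 53687091⟩, ⟨1, 0, 0, 53687091⟩, ⟨2, 1, 0, 53687091⟩], [⟨0, 0, 1, 26214400⟩, ⟨1, 1, 2, 26214400⟩, ⟨2, 1, 0, 33554432⟩]]) 1 0 1 0 0 (sgb true) (sgb false) x) :
    AltB (VFD κ) PP tK tL pcB [⟨4, 0, 0, 2845415833⟩] 1 0 1 0 0 (sgb true) (sgb false) x :=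
  strip_altBD (m := 2845415833) false rfl hκ (SH.κ0 hκ (SH.hx1 hx).le (SH.hx2 hx').le) (SH.hx1 hx).le (SH.hx2 hx') (covB01).cov (covB01).cov hx hx' c_B00pm_101_s3 H ((okx hx hx').extB (T := tt) (sideB hx hx') hκ rfl rfl (.O 1 true) (.O 1 false) (Or.inl rfl))

noncomputable def cut_B00pm_102_s1 : Cut := Cut.of [[⟨4, 0, 0, 1449551462⟩], [⟨0, 1, 0, 67108864⟩, ⟨1, 0, 0, 67108864⟩, ⟨2, 1, 0, 67108864⟩], [⟨0, 0, 1, 26214400⟩, ⟨1, 1, 2, 26214400⟩, ⟨2, 1, 0, 33554432⟩]]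

noncomputable def xt_B00pm_102_s1 : Ext := strExt dd false true false .u0 .u2 .u0m .npp 1 0 2 rfl rfl gf0 vv ndB0q1 ndB0q2

noncomputable def f_B00pm_102_s1 : ℕ → ℕ → ℕ → ℕ → Bool := onCell 536870912 536870912 0 536870912 818728140 40265320
    (rowF 0 false true false .npp 1 0 2 (qsf 536870912 536870912 0 536870912 0) ndB0q1 ndB0q2 pcB0 cut_B00pm_102_s1 xt_B00pm_102_s1)

def k0_B00pm_102_s1 : ∃ t, chk3 f_B00pm_102_s1 t 2 2 1 = true :=
  ⟨(a (b (l 2) (a (l 2) (b (l 2) (a (l 2) (b (l 2) (a (l 2) (l 16559312))))))) (b (a (b (a (a (l 2) (l 3)) (l 3)) (a (a (l 2) (b (l 533069839) (b (l 532830991) (l 532660239)))) (b (a (l 532764943) (l 3)) (a (b (l 532466959) (b (l 532339727) (l 532313615))) (b (l 532132111) (a (l 532331023) (l 531999759))))))) (b (l 3) (a (b (l 3) (b (l 3) (a (l 531875599) (l 3)))) (l 3)))) (a (b (a (b (a (b (l 2) (l 16667952)) (b (l 16721944) (l 16702328))) (a (l 16661360) (b (l 16662936) (l 16645032))))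 (b (a (b (l 532338191) (l 532417807)) (a (l 532240655) (l 532343055))) (a (b (l 16701104) (l 16661808)) (b (l 532280335) (l 16701880))))) (a (b (a (l 16604528) (l 16618288)) (a (l 16569448) (l 16582344))) (b (a (l 16676472) (c (l 16694840) (l 16694200))) (a (l 16597616) (l 16614616))))) (b (a (b (c (l 532051471) (l 531998735)) (a (b (l 532289295) (l 532398607)) (b (l 532467215) (l 532313871)))) (b (a (l 531940111) (l 3)) (a (a (b (l 532174863) (l 532284687)) (b (l 531953935) (l 532266511))) (b (c (l 532260111) (l 532198159)) (l 532315151))))) (a (b (a (b (l 16702576) (l 16662008)) (b (l 532388111) (l 16703304))) (a (l 16674616) (l 532795407))) (b (a (a (l 532387343) (l 532379919)) (l 532430607)) (a (b (l 16716072) (l 16706832)) (l 532579087)))))))), by decide +kernel⟩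

def k1_B00pm_102_s1 : ∃ t, chk3 f_B00pm_102_s1 t 2 3 1 = true :=
  ⟨(a (b (l 6) (l 6)) (b (a (b (a (b (a (b (l 16542184) (l 6)) (b (l 16554912) (l 16535904))) (l 6)) (b (a (l 16601872) (l 16617944)) (a (b (l 16530672) (l 6)) (b (l 16545272) (l 16525528))))) (l 6)) (b (a (b (a (l 16635440) (l 16655208)) (a (b (l 16563456) (l 16542328)) (l 16615040))) (b (a (b (l 16645536) (l 16626488)) (l 532723727)) (a (l 16597608) (l 16666600)))) (a (b (a (l 16509008) (b (l 16542696) (l 16519216))) (l 6)) (b (a (b (l 16567112) (l 16547160)) (b (l 16596984) (l 16578120))) (a (l 16511840) (l 16545832)))))) (l 6))), by decide +kernel⟩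

def k2_B00pm_102_s1 : ∃ t, chk3 f_B00pm_102_s1 t 3 2 1 = true :=
  ⟨(a (b (l 3) (a (b (a (b (l 3) (b (l 3) (l 532530959))) (l 3)) (a (b (a (l 532568335) (l 532790543)) (a (l 532736271) (l 532979727))) (a (b (l 533107215) (l 533319439)) (b (l 3) (l 533763855))))) (l 3))) (l 3)), by decide +kernel⟩

def k3_B00pm_102_s1 : ∃ t, chk3 f_B00pm_102_s1 t 12 6 1 = true :=
  ⟨(b (a (b (a (l 532904975) (l 533175823)) (a (l 16695376) (b (l 16690224) (l 16674960)))) (b (b (l 533706511) (a (l 533607695) (b (l 534065423) (l 534134287)))) (a (b (l 16717400) (l 16704336)) (b (l 534226703) (l 16731264))))) (a (b (a (l 16661288) (l 16653688)) (a (b (l 16595760) (l 16575080)) (b (a (l 16624952) (l 16644672)) (l 16620736)))) (b (a (b (l 16692448) (l 16682344)) (b (l 16722496) (l 16716120))) (a (b (l 16674792) (b (a (l 16659656) (l 16681680)) (a (l 16653632) (b (l 16680752) (l 16678336))))) (a (b (l 16703736) (b (l 16703344) (b (l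 16703992) (a (l 16698472) (l 16710728))))) (b (l 16722384) (b (l 16724128) (a (l 16763592) (l 16773504))))))))), by decide +kernel⟩

def k4_B00pm_102_s1 : ∃ t, chk3 f_B00pm_102_s1 t 13 6 1 = true :=
  ⟨(b (a (b (a (b (l 534522639) (c (a (l 534892047) (l 535241231)) (a (l 534240015) (l 534512655)))) (b (l 3) (c (l 535855631) (l 534997519)))) (a (b (c (l 535224079) (l 534460943)) (a (l 16748824) (l 16769224))) (b (l 535611663) (c (a (l 536117263) (l 536557327)) (a (l 535143183) (l 535494927)))))) (b (l 3) (a (b (c (l 536939023) (l 535827983)) (c (l 537204495) (l 536014351))) (a (b (l 3) (l 537312783)) (l 3))))) (a (b (a (b (a (l 16742608) (l 16764872)) (a (l 16739376) (b (l 16753016) (l 16752880)))) (b (a (l 535859471) (l 536243983)) (a (l 16763248) (l 536506127)))) (a (b (a (b (l 16739392) (l 16782272)) (b (l 16753320) (l 16754392))) (a (b (l 16783808) (l 16743992)) (b (l 16756536) (l 16759944)))) (b (a (l 16765712)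 (b (l 16774800) (l 16778336))) (c (a (l 16790936) (l 16792968)) (a (l 16754632) (l 16768864)))))) (b (a (b (a (l 536390415) (l 537132303)) (a (l 536971535) (b (l 537402383) (l 537476879)))) (b (a (l 537458191) (a (l 537478415) (l 536949775))) (a (b (l 537485583) (l 537509135)) (c (l 537267471) (c (l 537510415) (l 537494799)))))) (b (a (a (b (l 16783280) (l 16788136)) (b (l 16764456) (l 537533199))) (a (b (l 537533967) (c (l 16785808) (l 16785824))) (c (a (l 537566735) (l 537576975)) (a (l 537557263) (l 537555983))))) (a (a (b (l 16790952) (l 16793440)) (b (l 16768680) (l 16771104))) (a (c (l 16778528) (b (l 16788056) (l 16790472))) (a (a (l 537613839) (l 537615887)) (l 537214735)))))))), by decide +kernel⟩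

def k5_B00pm_102_s1 : ∃ t, chk3 f_B00pm_102_s1 t 12 7 1 = true :=
  ⟨(b (a (b (a (l 16630680) (b (l 16604176) (l 16590536))) (l 6)) (b (a (b (a (l 16644208) (l 16672344)) (a (l 16634448) (b (l 16750760) (c (l 16731224) (l 16638376))))) (b (a (b (b (l 16745608) (l 16743880)) (a (l 16692544) (c (l 16729768) (l 16683128)))) (b (a (b (b (a (c (l 16742544) (l 16699672)) (b (l 16726456) (l 16726712))) (a (l 16720656) (l 16726480))) (l 16721976)) (b (l 16775216) (c (l 16755856) (l 16710496)))) (c (l 16748208) (l 16700744)))) (a (b (c (l 16741208) (l 16670816)) (l 16691224)) (c (b (l 16746072) (l 16744776)) (l 16692880))))) (a (b (a (b (l 16713720) (l 6)) (b (c (l 16687544) (l 16632968)) (l 16656048))) (l 6)) (b (a (c (l 16714984) (l 16656640)) (c (b (l 16744488) (l 16738408)) (l 16684632))) (a (b (l 16724144) (l 6)) (c (b (l 16728920) (l 16719760)) (l 16679904))))))) (l 6)), by decide +kernel⟩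

def k6_B00pm_102_s1 : ∃ t, chk3 f_B00pm_102_s1 t 26 28 1 = true :=
  ⟨(a (b (b (a (b (l 16746320) (a (c (l 16792384) (l 16720656)) (l 16752824))) (c (l 16786856) (l 16742848))) (a (a (c (l 16766368) (l 16718216)) (b (c (b (l 16777952) (l 16778608)) (l 16730536)) (l 16753792))) (b (a (b (l 16764048) (c (l 16789640) (l 16741328))) (l 16774224)) (a (c (a (l 16787992) (l 16794224)) (l 16741248)) (b (c (l 16800272) (l 16752360)) (a (l 16775472) (c (l 16800656) (l 16756056)))))))) (a (c (b (l 16772224) (l 16768848)) (b (l 16720344) (l 16717208))) (b (c (a (l 16787592) (l 16792728)) (a (l 16739568) (l 16752552))) (c (a (l 16776448) (l 16781488)) (l 16744888))))) (b (a (a (b (l 16777696) (b (l 16783480) (c (l 16801064) (l 16763008)))) (b (l 16786048) (b (l 16792552) (l 16797600)))) (c (b (l 16796816) (l 16799872)) (b (l 16776912) (l 16784656)))) (b (b (a (a (a (c (l 16799424) (l 16762384)) (b (b (l 16793616) (l 16799896))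 (l 16795376))) (b (l 16801784) (a (c (l 16802448) (l 16774984)) (c (l 16803280) (l 16780576))))) (c (l 16802568) (l 16770968))) (a (a (c (l 16794896) (l 16765648)) (a (l 16798800) (c (l 16800992) (l 16782296)))) (a (b (a (c (l 16803744) (l 16788048)) (l 16783592)) (a (l 16802216) (c (l 16803896) (l 16785248)))) (b (l 16783288) (a (c (l 16804736) (l 16801592)) (l 16805160)))))) (a (c (a (l 16786456) (l 16791272)) (a (l 16766128) (l 16780368))) (b (a (c (l 16798760) (l 16793744)) (b (a (c (l 16803632) (l 16803600)) (c (l 16805048) (b (l 16806248) (l 16805848)))) (l 16802152))) (a (l 16793144) (l 16776784))))))), by decide +kernel⟩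

def k7_B00pm_102_s1 : ∃ t, chk3 f_B00pm_102_s1 t 26 29 1 = true :=
  ⟨(a (b (a (c (b (l 16758368) (l 16748360)) (l 16735056)) (c (b (l 16768352) (l 16758192)) (b (l 16744616) (l 16745424)))) (a (c (b (l 16738728) (l 16729416)) (b (l 16713112) (l 16714048))) (c (b (l 16748400) (l 16738920)) (b (l 16744856) (l 16734232))))) (b (a (b (c (a (l 16775688) (l 16780408)) (l 16775360)) (c (l 16767728) (l 16765856))) (b (c (b (l 16789888) (l 16784512)) (b (l 16789696) (l 16783856))) (c (l 16776664) (l 16775264)))) (a (b (c (l 16757768) (l 16754824)) (c (l 16748104) (l 16744008))) (b (c (l 16766504) (l 16764032)) (c (l 16756648) (l 16753000)))))), by decide +kernel⟩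

def k8_B00pm_102_s1 : ∃ t, chk3 f_B00pm_102_s1 t 27 28 1 = true :=
  ⟨(a (b (a (c (b (l 16795864) (l 16798832)) (b (l 16792416) (l 16799728))) (b (c (l 16794400) (l 16795064)) (c (l 16797272) (l 16798120)))) (a (b (c (a (l 16802784) (l 16802072)) (a (l 16803728) (l 16803000))) (b (a (b (c (l 16805272) (l 16806152)) (c (a (l 16805016) (l 16805888)) (a (l 16784816) (l 16785728)))) (c (l 16805152) (l 16805976))) (a (c (l 16802048) (l 16802568)) (b (c (l 16800808) (a (l 16796272) (l 16807184))) (c (l 16804848) (l 16805408)))))) (b (c (l 16800760) (l 16801608)) (a (b (l 16804608) (c (l 16806104) (a (b (l 16806848) (l 16807368)) (l 16806856)))) (c (l 16804360) (l 16804976)))))) (c (b (a (l 16783464) (b (l 16790464) (l 16793128))) (a (b (l 16798704) (l 16802656)) (b (l 16796360) (l 16800160)))) (a (b (b (l 16793080) (l 16795984)) (b (l 16799312) (l 16803072))) (b (b (l 16790664) (l 16793408)) (b (l 16796576) (l 16800176)))))),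 by decide +kernel⟩

def k9_B00pm_102_s1 : ∃ t, chk3 f_B00pm_102_s1 t 27 29 1 = true :=
  ⟨(a (b (a (b (b (c (l 16798544) (l 16798704)) (c (l 16793056) (l 16792744))) (b (l 16787224) (l 16781688))) (b (b (a (c (l 16804648) (b (a (l 16805592) (l 16807216)) (l 16803584))) (a (b (l 16807392) (l 16806464)) (b (l 16807048) (l 16807480)))) (c (l 16801168) (l 16801080))) (b (l 16774360) (l 16789680)))) (a (b (b (l 16776232) (l 16770848)) (a (l 16760888) (l 16764808))) (b (b (l 16784112) (l 16778600)) (b (l 16773152) (l 16725800))))) (b (b (a (b (c (l 16805856) (l 16806040)) (a (c (l 16806312) (b (l 16807344) (l 16805576))) (c (l 16765168) (l 16807008)))) (c (l 16804464) (l 16804160))) (b (a (c (l 16803448) (l 16792488)) (a (b (l 16807464) (l 16806864)) (a (l 16807112) (l 16806472)))) (a (l 16797288) (a (l 16802816) (b (c (l 16796880) (a (l 16806560) (l 16796400))) (l 16804984)))))) (a (b (c (l 16789736) (l 16787880))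 (c (l 16779304) (l 16776272))) (b (c (l 16797024) (l 16774200)) (c (l 16786864) (l 16783864)))))), by decide +kernel⟩

def k10_B00pm_102_s1 : ∃ t, chk3 f_B00pm_102_s1 t 13 15 1 = true :=
  ⟨(a (b (a (b (a (b (c (l 16720288) (l 16713760)) (l 6)) (b (c (l 16729616) (l 16723720)) (c (l 16699408) (l 16713240)))) (l 6)) (b (a (b (c (l 16717632) (l 16733288)) (c (l 16708184) (l 16722592))) (b (c (l 16704992) (l 16742064)) (c (l 16716304) (l 16731136)))) (a (b (c (l 16698712) (l 16711840)) (l 6)) (a (b (l 16700816) (a (l 16689432) (l 16691344))) (b (l 16704680) (l 16704656)))))) (b (a (l 6) (a (l 6) (b (a (l 6) (b (l 16686192) (l 6))) (l 6)))) (l 6))) (b (a (b (a (b (a (l 16750392) (l 16712248)) (c (l 16702840) (l 16738952))) (b (b (l 16720416) (l 16715056)) (a (l 16705080) (l 16709240)))) (a (b (a (l 16708384) (l 16711920)) (a (c (l 16681192) (l 16672720)) (c (l 16685968) (l 16677696)))) (b (a (l 16716384) (l 16742320))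 (l 16710928)))) (b (a (b (c (l 16727608) (l 16765304)) (l 16716120)) (b (l 16775704) (l 16745824))) (a (b (l 16707768) (l 16721160)) (c (l 16737384) (l 16751384))))) (a (b (a (b (b (a (l 16691072) (l 16718024)) (l 16690624)) (c (b (l 16713584) (l 6)) (l 16680608))) (b (c (l 16729440) (l 16720376)) (c (l 16681864) (l 16671728)))) (a (l 6) (a (l 6) (b (b (l 16717504) (l 6)) (l 6))))) (b (a (b (l 16714376) (b (l 16699344) (l 16696576))) (c (a (l 16702096) (l 16706512)) (a (l 16692984) (l 16697472)))) (b (a (c (l 16687744) (l 16687424)) (c (l 16697336) (b (l 16729992) (l 16727496)))) (b (a (c (l 16726808) (l 16715272)) (c (l 16736424) (a (l 16722896) (l 16727480)))) (a (l 6) (a (c (l 16732560) (b (l 16721320) (a (l 6) (l 16721488)))) (c (l 16736800) (c (l 16728200) (l 16722408))))))))))), by decide +kernel⟩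

def k11_B00pm_102_s1 : ∃ t, chk3 f_B00pm_102_s1 t 7 6 1 = true :=
  ⟨(b (l 3) (a (a (b (a (b (l 3) (a (l 537525519) (l 537521679))) (l 3)) (a (c (b (a (l 537589007) (l 537592079)) (a (l 537628175) (l 537626383))) (b (a (l 537545487) (l 537528335)) (a (l 537605391) (l 537587727)))) (b (a (c (l 537580815) (l 537506831)) (l 3)) (a (l 537050639) (l 537560335))))) (b (l 3) (a (a (b (l 3) (l 537525263)) (l 3)) (l 3)))) (l 3))), by decide +kernel⟩

def k12_B00pm_102_s1 : ∃ t, chk3 f_B00pm_102_s1 t 28 14 1 = true :=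
  ⟨(b (a (b (a (c (l 537679887) (l 537403919)) (c (l 537673743) (l 537654799))) (a (c (b (l 16793784) (l 16797408)) (b (l 16793616) (l 16797040))) (c (b (l 16790960) (l 16794416)) (b (l 16790664) (l 16793912))))) (b (a (b (l 537626895) (l 537661967)) (b (l 537598735) (l 537368079))) (a (b (l 537451279) (c (l 16791288) (l 16790840))) (b (c (l 537711375) (l 537694735)) (c (l 16777704) (l 537762831)))))) (a (a (b (a (b (l 16801984) (b (l 16805240) (c (l 16807008) (b (l 16806400) (l 16806504))))) (c (l 16803008) (l 16802112))) (b (b (a (l 16804568) (c (l 16807104) (b (l 16806096) (l 16805632)))) (l 16800512)) (c (l 16794232) (l 16791360)))) (b (b (l 16787440) (l 16791600)) (b (b (c (l 16805456) (l 16804024)) (a (c (l 16806448) (b (l 16795176) (l 16803160))) (c (l 16806448) (b (l 16805184) (l 16805416))))) (c (l 16800760) (b (l 16800728) (l 16795512)))))) (b (a (c (b (l 16795008) (l 16799128)) (b (l 16794296) (l 16798104)))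 (c (b (l 16791664) (l 16795488)) (b (l 16770136) (l 16794688)))) (b (c (a (l 16803560) (l 16799672)) (a (l 16802216) (l 16798600))) (a (b (a (c (l 16795776) (b (l 16804976) (l 16762272))) (c (l 16805304) (l 16803768))) (c (l 16793640) (a (l 16800160) (b (l 16783368) (l 16801808))))) (b (l 16802368) (a (c (l 16805208) (b (l 16803864) (l 16793656))) (l 16782440)))))))), by decide +kernel⟩

def k13_B00pm_102_s1 : ∃ t, chk3 f_B00pm_102_s1 t 29 14 1 = true :=
  ⟨(a (b (a (b (b (l 537563407) (a (l 537078031) (b (l 537579023) (l 537376271)))) (a (b (l 537690895) (l 537771535)) (b (c (l 537700111) (l 537689103)) (l 537222671)))) (a (b (c (b (l 537511951) (l 537578767)) (b (l 537532687) (l 537595919))) (b (c (l 537653775) (l 537664015)) (l 537732111))) (b (b (l 3) (l 537543439)) (b (l 537622287) (l 537701647))))) (a (c (b (a (l 537629199) (l 537879311)) (b (l 16785040) (l 16778440))) (b (b (a (l 16788720) (l 16787080))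 (l 16780744)) (b (l 16784392) (l 16788216)))) (a (b (b (l 537806351) (l 537876239)) (c (l 537948175) (b (l 16791800) (l 16795224)))) (b (b (l 537777167) (l 537835279)) (c (l 537617679) (l 537913103)))))) (b (b (a (b (l 3) (a (l 537510415) (l 3))) (l 3)) (a (c (b (l 537551887) (l 537628687)) (b (l 537613583) (l 537415183))) (b (l 3) (a (l 537600015) (l 537565199))))) (b (a (a (b (l 537739279) (l 537788431)) (c (l 537418767) (l 537757711))) (a (b (l 537657871) (l 537714447)) (b (l 537626895) (l 537687567)))) (a (c (a (l 537563151) (l 537516815)) (a (l 537617935) (l 537865231))) (a (c (l 537478159) (l 537849359)) (c (l 537447439) (l 537570063))))))), by decide +kernel⟩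

def k14_B00pm_102_s1 : ∃ t, chk3 f_B00pm_102_s1 t 28 30 1 = true :=
  ⟨(a (b (a (b (c (l 16785272) (l 16781256)) (l 16753568)) (b (c (l 16791728) (l 16788144)) (l 16760416))) (a (b (l 16745600) (l 16738424)) (b (l 16752640) (b (l 16726344) (l 16722984))))) (b (a (b (c (l 16797264) (l 16794360)) (c (l 16789416) (l 16785416))) (b (a (c (l 16800888) (l 16798616)) (b (b (a (l 16783840) (l 16783408)) (l 16782368)) (l 16799744))) (c (l 16793560) (l 16790712)))) (b (a (b (l 16760576) (l 16756792)) (c (l 16785784) (l 16782224))) (a (b (l 16732160) (l 16770560)) (l 16766160))))), by decide +kernel⟩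

def k15_B00pm_102_s1 : ∃ t, chk3 f_B00pm_102_s1 t 58 30 1 = true :=
  ⟨(b (b (a (b (a (c (l 16802968) (b (l 16802392) (l 16802592))) (l 16779584)) (a (c (l 16781264) (l 16790640)) (c (b (l 16801528) (l 16780656)) (b (l 16801216) (a (l 16801040) (l 16790888)))))) (a (a (b (l 16798496) (l 16799912)) (l 16798040)) (a (l 537703183) (l 537684495)))) (a (c (l 16795992) (l 16797424)) (a (b (b (c (l 16789336) (a (l 16779504) (l 16789568))) (l 16798384)) (l 16795296)) (b (b (l 16798288) (a (b (l 16788768) (l 16798904)) (l 16787736))) (c (l 16775576) (c (l 16786608) (l 16797536))))))) (a (b (c (l 16788336) (l 16765472)) (c (l 16781544) (l 16757984))) (b (c (l 16779800) (c (l 16790120) (l 16790080))) (c (l 16783720) (a (l 16781880) (l 16783712)))))), by decide +kernel⟩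

def k16_B00pm_102_s1 : ∃ t, chk3 f_B00pm_102_s1 t 59 30 1 = true :=
  ⟨(b (a (b (c (c (l 16791840) (l 16781872)) (a (l 16794304) (l 537677327))) (c (b (l 16784040) (a (b (l 16785904) (l 16785912)) (l 16784008))) (a (b (l 16797024) (b (a (a (l 16788232) (l 16798352)) (l 16797752)) (a (l 16797200) (b (l 16787672) (l 16797592))))) (b (l 16794904) (c (l 16785248) (b (l 16796752) (a (l 16787336) (l 16797216)))))))) (c (b (a (l 16778472) (l 537801999)) (a (l 16781600) (l 16779632))) (b (a (l 537666319) (l 537660431)) (a (c (l 16793344) (l 16794288)) (c (l 16780912) (l 16792344)))))) (b (a (b (a (l 16794040) (b (a (a (l 16795840) (l 16791088)) (c (l 16784744) (b (l 16797136) (l 16786744)))) (l 16789272))) (c (l 16790656) (l 16791680))) (b (c (a (b (l 16793888) (a (l 16784192) (l 16783560))) (l 16792536)) (a (b (l 16785384) (a (b (l 16791624) (l 16796128)) (c (l 16785096) (b (l 16796872) (l 16791784))))) (l 16784120)))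 (b (a (c (l 16793376) (l 16790040)) (c (a (c (l 16782792) (l 16783784)) (l 16793048)) (a (b (l 16790752) (l 16790768)) (l 16790032)))) (a (l 16802928) (a (l 16793520) (a (l 16804632) (b (a (l 16789432) (l 16805024)) (l 16793984)))))))) (b (a (c (l 16787480) (l 16782880)) (c (l 16784680) (a (l 16790744) (l 16792408)))) (a (c (l 16784512) (l 16784784)) (c (l 16787056) (a (l 16787464) (l 16789168))))))), by decide +kernel⟩

def k17_B00pm_102_s1 : ∃ t, chk3 f_B00pm_102_s1 t 14 31 1 = true :=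
  ⟨(a (b (a (a (b (l 16732032) (b (l 16717264) (l 16714592))) (b (c (l 16763896) (l 16756224)) (b (l 16713672) (l 16752816)))) (a (b (l 16744632) (l 16738824)) (b (c (l 16772616) (l 16767704)) (l 16743608)))) (a (b (a (c (l 16747288) (l 16705752)) (c (l 16753576) (l 16744520))) (a (c (l 16701344) (b (l 16733624) (c (l 16734256) (l 16692056)))) (b (l 16703928) (c (l 16748960) (l 16697136))))) (b (a (c (l 16758784) (l 16751016)) (c (l 16763072) (l 16756776))) (a (c (l 16755208) (l 16715304)) (a (l 16713080) (l 16715496)))))) (a (c (b (a (b (l 16775632) (l 16770624)) (a (l 16753960) (l 16765656))) (b (a (l 16766544) (l 16769384)) (a (l 16763432) (l 16766480)))) (b (a (a (l 16747312) (l 16760000)) (b (l 16765896) (l 16749880))) (a (b (l 16761824) (l 16757984)) (b (l 16766256) (l 16762608))))) (c (b (a (b (l 16780480) (l 16775896)) (b (a (l 16782496) (l 16783848)) (l 16778752))) (b (a (l 16772240) (l 16775272)) (a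 (l 16769536) (l 16783240)))) (b (a (b (a (l 16779256) (l 16781136)) (l 16764360)) (b (b (l 16780032) (l 16782464)) (l 16768168))) (a (b (l 16770416) (l 16766944)) (b (l 16774392) (l 16771080))))))), by decide +kernel⟩

def k18_B00pm_102_s1 : ∃ t, chk3 f_B00pm_102_s1 t 15 14 1 = true :=
  ⟨(b (l 3) (a (a (a (b (a (c (l 537297679) (l 537706767)) (c (l 537273103) (l 537700367))) (a (c (l 537424143) (c (l 537527055) (l 537872143))) (c (l 537676815) (b (l 537802255) (l 537868047))))) (a (b (b (l 3) (l 537646095)) (b (l 537448463) (c (l 537706767) (l 537874191)))) (b (l 3) (b (l 536914191) (c (l 537708047) (l 537885199)))))) (a (b (l 3) (a (b (l 3) (a (l 537802255) (a (l 537808143) (l 537816335)))) (l 3))) (l 3))) (l 3))), by decide +kernel⟩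

def k19_B00pm_102_s1 : ∃ t, chk3 f_B00pm_102_s1 t 60 60 1 = true :=
  ⟨(a (c (a (b (l 537785615) (l 537567759)) (b (l 537507599) (l 537561103))) (a (b (l 537659407) (b (l 16789096) (l 16790848))) (b (l 537931535) (c (l 537678095) (l 537764367))))) (a (b (c (l 537505039) (l 537939983)) (c (l 537561103) (c (l 537685519) (l 537777167)))) (b (c (l 537513999) (b (l 537670159) (l 537969423))) (c (c (l 537525775) (l 537607695)) (a (l 537741071) (l 537748751)))))), by decide +kernel⟩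

def k20_B00pm_102_s1 : ∃ t, chk3 f_B00pm_102_s1 t 60 61 1 = true :=
  ⟨(a (b (a (c (b (l 16790656) (b (l 16791896) (a (l 16787568) (l 16792296)))) (b (l 16792672) (a (b (l 16794584) (a (b (l 16795440) (l 16795568)) (l 16789800))) (l 16794096)))) (a (c (l 16779648) (l 537775887)) (c (l 16778768) (l 537780495)))) (b (a (b (a (l 16793360) (b (a (a (l 16799368) (l 16799256)) (l 16793712)) (c (l 16792592) (l 16789664)))) (c (l 16791072) (l 16793168))) (c (b (b (l 16791584) (l 16781208)) (a (l 16786920) (b (l 16791832) (l 16781600)))) (b (a (b (l 16794352) (a (l 16789624) (l 16794608))) (l 16793632)) (a (b (a (l 16794536) (l 16789536)) (l 16793896)) (b (l 16788944) (c (l 16788576) (a (l 16795176) (l 16789816)))))))) (c (a (l 16788984) (l 16790224)) (a (l 16790784) (l 16792304))))) (a (a (b (c (l 537884175) (l 537786383)) (b (c (l 16790840) (c (l 16792480) (l 16793688))) (b (c (b (l 16786488) (l 16791560)) (b (a (c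 (l 16793680) (l 16789712)) (l 16793992)) (l 16788608))) (l 16791496)))) (b (c (l 537886479) (l 537927183)) (c (b (l 16790048) (b (l 16785808) (l 16785984))) (b (l 16786936) (b (b (l 16793432) (c (l 16787800) (a (l 16789344) (l 16794248)))) (a (l 16793128) (b (b (l 16788648) (l 16793640)) (l 16793088)))))))) (c (b (b (l 537611535) (l 537641999)) (b (l 16783512) (b (l 16790080) (a (b (l 16790976) (a (l 16791224) (l 16791216))) (l 16790416))))) (b (a (l 537801487) (l 537810959)) (c (b (l 16784936) (b (l 16791640) (a (b (l 16792640) (a (l 16792880) (l 16792888))) (l 16792008)))) (b (l 16791224) (b (l 16792784) (a (b (l 16788616) (a (l 16794104) (a (l 16788976) (l 16794064)))) (l 16793184))))))))), by decide +kernel⟩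

def k21_B00pm_102_s1 : ∃ t, chk3 f_B00pm_102_s1 t 61 30 1 = true :=
  ⟨(a (b (b (a (c (a (l 537509647) (l 537790223)) (a (l 537961231) (l 537974543))) (c (l 537541647) (c (l 537677583) (l 538046223)))) (a (c (a (l 537844239) (l 537854479)) (a (l 537758479) (l 537770511))) (c (b (l 537591055) (l 537623311)) (a (l 537784847) (l 537799439))))) (a (a (c (b (l 537907215) (l 537971471)) (b (l 537821967) (b (l 538140431) (l 16791208)))) (c (b (l 537918735) (l 537983503)) (b (l 537834767) (c (l 538119183) (l 537950479))))) (c (b (a (l 537932559) (l 537946639)) (a (l 537997327) (l 537742863))) (b (a (l 537849103) (l 538065167)) (a (c (l 538133519) (l 537964815)) (b (l 538182671) (l 537946895))))))) (b (a (a (b (b (l 3) (l 537938959)) (c (l 537896463) (l 537814031))) (b (l 3) (b (l 537985551) (l 538067983)))) (b (l 3) (a (c (l 537924879) (c (l 538062351) (l 537894671))) (b (l 3) (l 538114063))))) (b (a (c (a (l 537960719)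 (l 537706511)) (a (c (l 538097423) (l 537929487)) (c (l 537843471) (l 537944335)))) (b (a (a (l 538061327) (l 538068751)) (l 538179855)) (l 14))) (a (a (c (l 537756943) (c (l 537893903) (l 537994255))) (l 14)) (l 14))))), by decide +kernel⟩

def k22_B00pm_102_s1 : ∃ t, chk3 f_B00pm_102_s1 t 30 31 1 = true :=
  ⟨(b (a (b (a (c (b (l 16781784) (l 16784688)) (a (l 16796880) (b (l 16789352) (l 16786632)))) (a (c (l 16798208) (b (l 16801272) (l 16788096))) (b (a (c (l 16789752) (l 16791776)) (b (c (b (c (l 16779952) (l 16786208)) (l 16790632)) (b (a (b (l 16788176) (l 16793120)) (c (l 16792472) (c (l 16793360) (l 16788736)))) (l 16792784))) (l 16795904))) (c (l 16787760) (l 16799904))))) (a (c (l 16792072) (a (l 16781328) (l 16782968))) (c (b (l 16795616) (l 16783312)) (a (l 16794968) (b (l 16786984) (l 16784776)))))) (b (a (b (b (a (c (a (b (l 16790376) (c (l 16790088) (l 16785832))) (l 16789736)) (a (b (l 16792496)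 (a (b (l 16787760) (l 16793048)) (l 16792632))) (l 16791736))) (c (l 16783144) (c (l 16789680) (l 16785384)))) (a (c (a (a (l 16790088) (l 16785240)) (b (l 16784960) (a (l 16790304) (l 14)))) (a (a (l 16792136) (b (b (c (l 16792352) (l 16793504)) (l 16792584)) (l 16792080))) (b (a (c (l 16786776) (b (l 16793160) (l 16788072))) (l 16792264)) (a (l 16792360) (l 14))))) (l 14))) (a (c (l 16788808) (c (l 16790120) (l 16796336))) (l 14))) (l 14)) (l 14))) (a (b (a (c (l 16778264) (l 16788512)) (c (l 16770528) (a (l 16780464) (l 14)))) (a (b (l 16754968) (c (l 16775464) (l 16774216))) (l 14))) (l 14))), by decide +kernel⟩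

def k23_B00pm_102_s1 : ∃ t, chk3 f_B00pm_102_s1 t 31 15 1 = true :=
  ⟨(b (b (l 3) (l 14)) (l 14)), by decide +kernel⟩

theorem t24_B00pm_102_s1 : ∃ t, chk3 f_B00pm_102_s1 t 60 30 1 = true := ex3_b k19_B00pm_102_s1 k20_B00pm_102_s1

theorem t25_B00pm_102_s1 : ∃ t, chk3 f_B00pm_102_s1 t 30 30 1 = true := ex3_a t24_B00pm_102_s1 k21_B00pm_102_s1

theorem t26_B00pm_102_s1 : ∃ t, chk3 f_B00pm_102_s1 t 30 15 1 = true := ex3_b t25_B00pm_102_s1 k22_B00pm_102_s1

theorem t27_B00pm_102_s1 : ∃ t, chk3 f_B00pm_102_s1 t 15 15 1 = true := ex3_a t26_B00pm_102_s1 k23_B00pm_102_s1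

theorem t28_B00pm_102_s1 : ∃ t, chk3 f_B00pm_102_s1 t 15 7 1 = true := ex3_b k18_B00pm_102_s1 t27_B00pm_102_s1

theorem t29_B00pm_102_s1 : ∃ t, chk3 f_B00pm_102_s1 t 29 30 1 = true := ex3_a k15_B00pm_102_s1 k16_B00pm_102_s1

theorem t30_B00pm_102_s1 : ∃ t, chk3 f_B00pm_102_s1 t 14 30 1 = true := ex3_a k14_B00pm_102_s1 t29_B00pm_102_s1

theorem t31_B00pm_102_s1 : ∃ t, chk3 f_B00pm_102_s1 t 14 15 1 = true := ex3_b t30_B00pm_102_s1 k17_B00pm_102_s1

theorem t32_B00pm_102_s1 : ∃ t, chk3 f_B00pm_102_s1 t 14 14 1 = true := ex3_a k12_B00pm_102_s1 k13_B00pm_102_s1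

theorem t33_B00pm_102_s1 : ∃ t, chk3 f_B00pm_102_s1 t 14 7 1 = true := ex3_b t32_B00pm_102_s1 t31_B00pm_102_s1

theorem t34_B00pm_102_s1 : ∃ t, chk3 f_B00pm_102_s1 t 7 7 1 = true := ex3_a t33_B00pm_102_s1 t28_B00pm_102_s1

theorem t35_B00pm_102_s1 : ∃ t, chk3 f_B00pm_102_s1 t 7 3 1 = true := ex3_b k11_B00pm_102_s1 t34_B00pm_102_s1

theorem t36_B00pm_102_s1 : ∃ t, chk3 f_B00pm_102_s1 t 27 14 1 = true := ex3_b k8_B00pm_102_s1 k9_B00pm_102_s1

theorem t37_B00pm_102_s1 : ∃ t, chk3 f_B00pm_102_s1 t 26 14 1 = true := ex3_b k6_B00pm_102_s1 k7_B00pm_102_s1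

theorem t38_B00pm_102_s1 : ∃ t, chk3 f_B00pm_102_s1 t 13 14 1 = true := ex3_a t37_B00pm_102_s1 t36_B00pm_102_s1

theorem t39_B00pm_102_s1 : ∃ t, chk3 f_B00pm_102_s1 t 13 7 1 = true := ex3_b t38_B00pm_102_s1 k10_B00pm_102_s1

theorem t40_B00pm_102_s1 : ∃ t, chk3 f_B00pm_102_s1 t 6 7 1 = true := ex3_a k5_B00pm_102_s1 t39_B00pm_102_s1

theorem t41_B00pm_102_s1 : ∃ t, chk3 f_B00pm_102_s1 t 6 6 1 = true := ex3_a k3_B00pm_102_s1 k4_B00pm_102_s1

theorem t42_B00pm_102_s1 : ∃ t, chk3 f_B00pm_102_s1 t 6 3 1 = true := ex3_b t41_B00pm_102_s1 t40_B00pm_102_s1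

theorem t43_B00pm_102_s1 : ∃ t, chk3 f_B00pm_102_s1 t 3 3 1 = true := ex3_a t42_B00pm_102_s1 t35_B00pm_102_s1

theorem t44_B00pm_102_s1 : ∃ t, chk3 f_B00pm_102_s1 t 3 1 1 = true := ex3_b k2_B00pm_102_s1 t43_B00pm_102_s1

theorem t45_B00pm_102_s1 : ∃ t, chk3 f_B00pm_102_s1 t 2 1 1 = true := ex3_b k0_B00pm_102_s1 k1_B00pm_102_s1

theorem t46_B00pm_102_s1 : ∃ t, chk3 f_B00pm_102_s1 t 1 1 1 = true := ex3_a t45_B00pm_102_s1 t44_B00pm_102_s1

theorem c_B00pm_102_s1 : CertF 536870912 536870912 0 536870912 818728140 40265320 false true false .npp 1 0 2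
    ndB0q1 ndB0q2 pcB0 cut_B00pm_102_s1 xt_B00pm_102_s1 :=
  certF0 (fam := false) (s1 := true) (s2 := false) (a := 1) (b := 0) (c := 2) (cn := .npp) (n1 := ndB0q1) (n2 := ndB0q2) (pc := pcB0) (cut := cut_B00pm_102_s1) (xt := xt_B00pm_102_s1) (P1 := 536870912) (W1 := 536870912) (P2 := 0) (W2 := 536870912) (P3 := 818728140) (W3 := 40265320)
    rfl t46_B00pm_102_s1

theorem s_B00pm_102_s1 {κ x : ℝ} (hκ : κ * h0 = ken x) (hx : ((818728140 : ℕ) : ℝ) / S ≤ x)
    (hx' : x ≤ (((818728140 : ℕ) : ℝ) + (40265320 : ℕ)) / S)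
    (H : CutB (VFD κ) PP tK tL pcB (Cut.of [[⟨0, 1, 0, 67108864⟩, ⟨1, 0, 0, 67108864⟩, ⟨2, 1, 0, 67108864⟩], [⟨0, 0, 1, 26214400⟩, ⟨1, 1, 2, 26214400⟩, ⟨2, 1, 0, 33554432⟩]]) 1 0 2 0 0 (sgb true) (sgb false) x) :
    AltB (VFD κ) PP tK tL pcB [⟨3, 0, 0, 1449551462⟩] 1 0 2 0 0 (sgb true) (sgb false) x :=
  strip_altBD (m := 1449551462) true rfl hκ (SH.κ0 hκ (SH.hx1 hx).le (SH.hx2 hx').le) (SH.hx1 hx).le (SH.hx2 hx') (covB01).cov (covB02).cov hx hx' c_B00pm_102_s1 H ((okx hx hx').extB (T := tt) (sideB hx hx') hκ rfl rfl (.O 1 true) (.O 2 false) (Or.inl rfl))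

noncomputable def cut_B00pm_102_s3 : Cut := Cut.of [[⟨3, 0, 0, 2845415833⟩], [⟨0, 1, 0, 67108864⟩, ⟨1, 0, 0, 67108864⟩, ⟨2, 1, 0, 67108864⟩], [⟨0, 0, 1, 26214400⟩, ⟨1, 1, 2, 26214400⟩, ⟨2, 1, 0, 33554432⟩]]

noncomputable def f_B00pm_102_s3 : ℕ → ℕ → ℕ → ℕ → Bool := onCell 536870912 536870912 0 536870912 818728140 40265320
    (rowF 0 false true false .npp 1 0 2 (qsf 536870912 536870912 0 536870912 0) ndB0q1 ndB0q2 pcB0 cut_B00pm_102_s3 Ext.none)

def k0_B00pm_102_s3 : ∃ t, chk3 f_B00pm_102_s3 t 1 1 1 = true :=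
  ⟨(l 6), by decide +kernel⟩

theorem c_B00pm_102_s3 : CertF 536870912 536870912 0 536870912 818728140 40265320 false true false .npp 1 0 2
    ndB0q1 ndB0q2 pcB0 cut_B00pm_102_s3 Ext.none :=
  certF0 (fam := false) (s1 := true) (s2 := false) (a := 1) (b := 0) (c := 2) (cn := .npp) (n1 := ndB0q1) (n2 := ndB0q2) (pc := pcB0) (cut := cut_B00pm_102_s3) (xt := Ext.none) (P1 := 536870912) (W1 := 536870912) (P2 := 0) (W2 := 536870912) (P3 := 818728140) (W3 := 40265320)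
    rfl k0_B00pm_102_s3

theorem s_B00pm_102_s3 {κ x : ℝ} (hκ : κ * h0 = ken x) (hx : ((818728140 : ℕ) : ℝ) / S ≤ x)
    (hx' : x ≤ (((818728140 : ℕ) : ℝ) + (40265320 : ℕ)) / S)
    (H : CutB (VFD κ) PP tK tL pcB (Cut.of [[⟨0, 1, 0, 67108864⟩, ⟨1, 0, 0, 67108864⟩, ⟨2, 1, 0, 67108864⟩], [⟨0, 0, 1, 26214400⟩, ⟨1, 1, 2, 26214400⟩, ⟨2, 1, 0, 33554432⟩]]) 1 0 2 0 0 (sgb true) (sgb false) x) :
    AltB (VFD κ) PP tK tL pcB [⟨4, 0, 0, 2845415833⟩] 1 0 2 0 0 (sgb true) (sgb false) x :=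
  strip_altBD (m := 2845415833) false rfl hκ (SH.κ0 hκ (SH.hx1 hx).le (SH.hx2 hx').le) (SH.hx1 hx).le (SH.hx2 hx') (covB01).cov (covB02).cov hx hx' c_B00pm_102_s3 H (noExt_B)

noncomputable def cut_B00pm_112_s1 : Cut := Cut.of [[⟨4, 0, 0, 1449551462⟩]]

noncomputable def xt_B00pm_112_s1 : Ext := strExt dd false true false .u0 .u2 .u0m .dn 1 1 2 rfl rfl gf1 vv ndB0q1 ndB0q2

noncomputable def f_B00pm_112_s1 : ℕ → ℕ → ℕ → ℕ → Bool := onCell 536870912 536870912 0 536870912 818728140 40265320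
    (rowF 2 false true false .dn 1 1 2 (qsf 536870912 536870912 0 536870912 1) ndB0q1 ndB0q2 pcB1 cut_B00pm_112_s1 xt_B00pm_112_s1)

def k0_B00pm_112_s1 : ∃ t, chk3 f_B00pm_112_s1 t 1 1 1 = true :=
  ⟨(a (b (a (b (a (b (a (a (b (l 3) (b (l 3) (l 532238095))) (l 532362767)) (b (l 532567823) (l 532692495))) (b (a (a (l 532189199) (b (l 532498703) (l 532463119))) (a (b (l 532686863) (l 532687119)) (l 533401615))) (a (a (b (l 532110095) (a (l 531975439) (l 532144655))) (b (l 532422415) (l 532381967))) (b (a (l 532666127) (l 532865551)) (a (l 532639503) (l 16675768)))))) (b (a (l 532915471) (l 533135631)) (b (a (b (l 533064975) (l 533096207)) (l 533313551)) (a (b (l 533109775) (c (l 533178383) (l 533052431))) (a (l 16669632) (l 16616232)))))) (a (b (a (b (a (b (a (l 16699448) (l 16670352)) (a (l 16653136) (l 16645752))) (b (l 532385039) (l 16656648))) (a (b (a (l 16628608) (l 16621960)) (l 16622520)) (b (l 16612912)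 (l 16590640)))) (b (b (a (l 16666552) (l 16633008)) (a (l 16623320) (l 16611968))) (a (b (l 16601840) (l 16580864)) (b (l 16591696) (l 16571936))))) (b (b (a (a (l 16619936) (l 16568528)) (a (l 16560088) (l 16552408))) (a (a (l 16554608) (l 16546624)) (a (l 16539544) (l 6)))) (b (a (a (l 16531424) (l 16524944)) (l 6)) (a (a (a (l 16509848) (l 6)) (l 6)) (l 6))))) (a (b (b (a (c (l 16655800) (l 16608832)) (l 16642816)) (a (b (l 16582296) (l 16563688)) (l 16564688))) (l 6)) (b (b (a (l 16591000) (l 16581568)) (a (l 16556888) (l 6))) (l 6))))) (a (b (b (a (a (l 533265679) (l 533339663)) (l 1)) (a (b (a (l 16679712) (l 16625704)) (a (l 16605208) (l 16595144))) (l 1))) (b (a (b (a (l 16572600) (l 6)) (l 6)) (l 1)) (l 6))) (l 1))) (a (b (l 6) (l 6)) (l 6))) (l 1)), by decide +kernel⟩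

theorem c_B00pm_112_s1 : CertF 536870912 536870912 0 536870912 818728140 40265320 false true false .dn 1 1 2
    ndB0q1 ndB0q2 pcB1 cut_B00pm_112_s1 xt_B00pm_112_s1 :=
  certF2 (fam := false) (s1 := true) (s2 := false) (a := 1) (b := 1) (c := 2) (cn := .dn) (n1 := ndB0q1) (n2 := ndB0q2) (pc := pcB1) (cut := cut_B00pm_112_s1) (xt := xt_B00pm_112_s1) (P1 := 536870912) (W1 := 536870912) (P2 := 0) (W2 := 536870912) (P3 := 818728140) (W3 := 40265320)
    rfl (fun _ => rfl) k0_B00pm_112_s1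

theorem s_B00pm_112_s1 {κ x : ℝ} (hκ : κ * h0 = ken x) (hx : ((818728140 : ℕ) : ℝ) / S ≤ x)
    (hx' : x ≤ (((818728140 : ℕ) : ℝ) + (40265320 : ℕ)) / S) :
    AltB (VFD κ) PP tK tL pcB [⟨3, 0, 0, 1449551462⟩] 1 1 2 0 0 (sgb true) (sgb false) x :=
  strip_altBD (m := 1449551462) true rfl hκ (SH.κ0 hκ (SH.hx1 hx).le (SH.hx2 hx').le) (SH.hx1 hx).le (SH.hx2 hx') (covB01).cov (covB02).cov hx hx' c_B00pm_112_s1 cutB_nil ((okx hx hx').extB (T := tt) (sideB hx hx') hκ rfl rfl (.O 1 true) (.O 2 false) (Or.inr rfl))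

noncomputable def cut_B00pm_112_s3 : Cut := Cut.of [[⟨3, 0, 0, 2845415833⟩]]

noncomputable def f_B00pm_112_s3 : ℕ → ℕ → ℕ → ℕ → Bool := onCell 536870912 536870912 0 536870912 818728140 40265320
    (rowF 0 false true false .dn 1 1 2 (qsf 536870912 536870912 0 536870912 1) ndB0q1 ndB0q2 pcB1 cut_B00pm_112_s3 Ext.none)

def k0_B00pm_112_s3 : ∃ t, chk3 f_B00pm_112_s3 t 1 1 1 = true :=
  ⟨(l 6), by decide +kernel⟩

theorem c_B00pm_112_s3 : CertF 536870912 536870912 0 536870912 818728140 40265320 false true false .dn 1 1 2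
    ndB0q1 ndB0q2 pcB1 cut_B00pm_112_s3 Ext.none :=
  certF0 (fam := false) (s1 := true) (s2 := false) (a := 1) (b := 1) (c := 2) (cn := .dn) (n1 := ndB0q1) (n2 := ndB0q2) (pc := pcB1) (cut := cut_B00pm_112_s3) (xt := Ext.none) (P1 := 536870912) (W1 := 536870912) (P2 := 0) (W2 := 536870912) (P3 := 818728140) (W3 := 40265320)
    rfl k0_B00pm_112_s3

theorem s_B00pm_112_s3 {κ x : ℝ} (hκ : κ * h0 = ken x) (hx : ((818728140 : ℕ) : ℝ) / S ≤ x)
    (hx' : x ≤ (((818728140 : ℕ) : ℝ) + (40265320 : ℕ)) / S) :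
    AltB (VFD κ) PP tK tL pcB [⟨4, 0, 0, 2845415833⟩] 1 1 2 0 0 (sgb true) (sgb false) x :=
  strip_altBD (m := 2845415833) false rfl hκ (SH.κ0 hκ (SH.hx1 hx).le (SH.hx2 hx').le) (SH.hx1 hx).le (SH.hx2 hx') (covB01).cov (covB02).cov hx hx' c_B00pm_112_s3 cutB_nil (noExt_B)

noncomputable def cut_B00pm_202_s1 : Cut := Cut.of [[⟨4, 0, 0, 1449551462⟩], [⟨0, 1, 0, 67108864⟩, ⟨1, 0, 0, 67108864⟩, ⟨2, 1, 0, 67108864⟩]]

noncomputable def f_B00pm_202_s1 : ℕ → ℕ → ℕ → ℕ → Bool := onCell 0 536870912 0 536870912 818728140 40265320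
    (rowF 0 false true false .pp 2 0 2 (qsf 0 536870912 0 536870912 0) ndB0q2 ndB0q2 pcB0 cut_B00pm_202_s1 Ext.none)

def k0_B00pm_202_s1 : ∃ t, chk3 f_B00pm_202_s1 t 1 1 1 = true :=
  ⟨(a (l 3) (b (l 3) (b (l 3) (a (l 3) (b (l 3) (a (l 3) (l 14))))))), by decide +kernel⟩

theorem c_B00pm_202_s1 : CertF 0 536870912 0 536870912 818728140 40265320 false true false .pp 2 0 2
    ndB0q2 ndB0q2 pcB0 cut_B00pm_202_s1 Ext.none :=
  certF0 (fam := false) (s1 := true) (s2 := false) (a := 2) (b := 0) (c := 2) (cn := .pp) (n1 := ndB0q2) (n2 := ndB0q2) (pc := pcB0) (cut := cut_B00pm_202_s1) (xt := Ext.none) (P1 := 0) (W1 := 536870912) (P2 := 0) (W2 := 536870912) (P3 := 818728140) (W3 := 40265320)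
    rfl k0_B00pm_202_s1

theorem s_B00pm_202_s1 {κ x : ℝ} (hκ : κ * h0 = ken x) (hx : ((818728140 : ℕ) : ℝ) / S ≤ x)
    (hx' : x ≤ (((818728140 : ℕ) : ℝ) + (40265320 : ℕ)) / S)
    (H : CutB (VFD κ) PP tK tL pcB (Cut.of [[⟨0, 1, 0, 67108864⟩, ⟨1, 0, 0, 67108864⟩, ⟨2, 1, 0, 67108864⟩]]) 2 0 2 0 0 (sgb true) (sgb false) x) :
    AltB (VFD κ) PP tK tL pcB [⟨3, 0, 0, 1449551462⟩] 2 0 2 0 0 (sgb true) (sgb false) x :=
  strip_altBD (m := 1449551462) true rfl hκ (SH.κ0 hκ (SH.hx1 hx).le (SH.hx2 hx').le) (SH.hx1 hx).le (SH.hx2 hx') (covB02).cov (covB02).cov hx hx' c_B00pm_202_s1 H (noExt_B)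

noncomputable def cut_B00pm_202_s3 : Cut := Cut.of [[⟨3, 0, 0, 2845415833⟩], [⟨0, 1, 0, 67108864⟩, ⟨1, 0, 0, 67108864⟩, ⟨2, 1, 0, 67108864⟩]]

noncomputable def f_B00pm_202_s3 : ℕ → ℕ → ℕ → ℕ → Bool := onCell 0 536870912 0 536870912 818728140 40265320
    (rowF 0 false true false .pp 2 0 2 (qsf 0 536870912 0 536870912 0) ndB0q2 ndB0q2 pcB0 cut_B00pm_202_s3 Ext.none)

def k0_B00pm_202_s3 : ∃ t, chk3 f_B00pm_202_s3 t 1 1 1 = true :=
  ⟨(l 6), by decide +kernel⟩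

theorem c_B00pm_202_s3 : CertF 0 536870912 0 536870912 818728140 40265320 false true false .pp 2 0 2
    ndB0q2 ndB0q2 pcB0 cut_B00pm_202_s3 Ext.none :=
  certF0 (fam := false) (s1 := true) (s2 := false) (a := 2) (b := 0) (c := 2) (cn := .pp) (n1 := ndB0q2) (n2 := ndB0q2) (pc := pcB0) (cut := cut_B00pm_202_s3) (xt := Ext.none) (P1 := 0) (W1 := 536870912) (P2 := 0) (W2 := 536870912) (P3 := 818728140) (W3 := 40265320)
    rfl k0_B00pm_202_s3

theorem s_B00pm_202_s3 {κ x : ℝ} (hκ : κ * h0 = ken x) (hx : ((818728140 : ℕ) : ℝ) / S ≤ x)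
    (hx' : x ≤ (((818728140 : ℕ) : ℝ) + (40265320 : ℕ)) / S)
    (H : CutB (VFD κ) PP tK tL pcB (Cut.of [[⟨0, 1, 0, 67108864⟩, ⟨1, 0, 0, 67108864⟩, ⟨2, 1, 0, 67108864⟩]]) 2 0 2 0 0 (sgb true) (sgb false) x) :
    AltB (VFD κ) PP tK tL pcB [⟨4, 0, 0, 2845415833⟩] 2 0 2 0 0 (sgb true) (sgb false) x :=
  strip_altBD (m := 2845415833) false rfl hκ (SH.κ0 hκ (SH.hx1 hx).le (SH.hx2 hx').le) (SH.hx1 hx).le (SH.hx2 hx') (covB02).cov (covB02).cov hx hx' c_B00pm_202_s3 H (noExt_B)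

noncomputable def cut_B00mm_001_s1 : Cut := Cut.of [[⟨4, 0, 0, 1449551462⟩]]

noncomputable def f_B00mm_001_s1 : ℕ → ℕ → ℕ → ℕ → Bool := onCell 0 536870912 0 536870912 818728140 40265320
    (rowF 1 false false false .up 0 0 1 (qsf 0 536870912 536870912 536870912 0) ndB0q0 ndB0q1 pcB0 cut_B00mm_001_s1 Ext.none)

def k0_B00mm_001_s1 : ∃ t, chk3 f_B00mm_001_s1 t 1 1 1 = true :=
  ⟨(l 3), by decide +kernel⟩

theorem c_B00mm_001_s1 : CertF 0 536870912 536870912 536870912 818728140 40265320 false false false .up 0 0 1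
    ndB0q0 ndB0q1 pcB0 cut_B00mm_001_s1 Ext.none :=
  certF1 (fam := false) (s1 := false) (s2 := false) (a := 0) (b := 0) (c := 1) (cn := .up) (n1 := ndB0q0) (n2 := ndB0q1) (pc := pcB0) (cut := cut_B00mm_001_s1) (xt := Ext.none) (P1 := 0) (W1 := 536870912) (P2 := 536870912) (W2 := 536870912) (P3 := 818728140) (W3 := 40265320)
    rfl (fun _ => rfl) k0_B00mm_001_s1

theorem s_B00mm_001_s1 {κ x : ℝ} (hκ : κ * h0 = ken x) (hx : ((818728140 : ℕ) : ℝ) / S ≤ x)
    (hx' : x ≤ (((818728140 : ℕ) : ℝ) + (40265320 : ℕ)) / S) :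
    AltB (VFD κ) PP tK tL pcB [⟨3, 0, 0, 1449551462⟩] 0 0 1 0 0 (sgb false) (sgb false) x :=
  strip_altBD (m := 1449551462) true rfl hκ (SH.κ0 hκ (SH.hx1 hx).le (SH.hx2 hx').le) (SH.hx1 hx).le (SH.hx2 hx') (covB00).cov (covB01).cov hx hx' c_B00mm_001_s1 cutB_nil (noExt_B)

noncomputable def cut_B00mm_001_s3 : Cut := Cut.of [[⟨3, 0, 0, 2845415833⟩]]

noncomputable def f_B00mm_001_s3 : ℕ → ℕ → ℕ → ℕ → Bool := onCell 0 536870912 536870912 536870912 818728140 40265320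
    (rowF 0 false false false .up 0 0 1 (qsf 0 536870912 536870912 536870912 0) ndB0q0 ndB0q1 pcB0 cut_B00mm_001_s3 Ext.none)

def k0_B00mm_001_s3 : ∃ t, chk3 f_B00mm_001_s3 t 1 1 1 = true :=
  ⟨(l 6), by decide +kernel⟩

theorem c_B00mm_001_s3 : CertF 0 536870912 536870912 536870912 818728140 40265320 false false false .up 0 0 1
    ndB0q0 ndB0q1 pcB0 cut_B00mm_001_s3 Ext.none :=
  certF0 (fam := false) (s1 := false) (s2 := false) (a := 0) (b := 0) (c := 1) (cn := .up) (n1 := ndB0q0) (n2 := ndB0q1) (pc := pcB0) (cut := cut_B00mm_001_s3) (xt := Ext.none) (P1 := 0) (W1 := 536870912) (P2 := 536870912) (W2 := 536870912) (P3 := 818728140) (W3 := 40265320)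
    rfl k0_B00mm_001_s3

theorem s_B00mm_001_s3 {κ x : ℝ} (hκ : κ * h0 = ken x) (hx : ((818728140 : ℕ) : ℝ) / S ≤ x)
    (hx' : x ≤ (((818728140 : ℕ) : ℝ) + (40265320 : ℕ)) / S) :
    AltB (VFD κ) PP tK tL pcB [⟨4, 0, 0, 2845415833⟩] 0 0 1 0 0 (sgb false) (sgb false) x :=
  strip_altBD (m := 2845415833) false rfl hκ (SH.κ0 hκ (SH.hx1 hx).le (SH.hx2 hx').le) (SH.hx1 hx).le (SH.hx2 hx') (covB00).cov (covB01).cov hx hx' c_B00mm_001_s3 cutB_nil (noExt_B)

noncomputable def cut_B00mm_011_s1 : Cut := Cut.of [[⟨4, 0, 0, 1449551462⟩]]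

noncomputable def f_B00mm_011_s1 : ℕ → ℕ → ℕ → ℕ → Bool := onCell 0 536870912 536870912 536870912 818728140 40265320
    (rowF 1 false false false .pnn 0 1 1 (qsf 0 536870912 536870912 536870912 1) ndB0q0 ndB0q1 pcB1 cut_B00mm_011_s1 Ext.none)

def k0_B00mm_011_s1 : ∃ t, chk3 f_B00mm_011_s1 t 1 1 1 = true :=
  ⟨(l 5), by decide +kernel⟩

theorem c_B00mm_011_s1 : CertF 0 536870912 536870912 536870912 818728140 40265320 false false false .pnn 0 1 1
    ndB0q0 ndB0q1 pcB1 cut_B00mm_011_s1 Ext.none :=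
  certF1 (fam := false) (s1 := false) (s2 := false) (a := 0) (b := 1) (c := 1) (cn := .pnn) (n1 := ndB0q0) (n2 := ndB0q1) (pc := pcB1) (cut := cut_B00mm_011_s1) (xt := Ext.none) (P1 := 0) (W1 := 536870912) (P2 := 536870912) (W2 := 536870912) (P3 := 818728140) (W3 := 40265320)
    rfl (fun _ => rfl) k0_B00mm_011_s1

theorem s_B00mm_011_s1 {κ x : ℝ} (hκ : κ * h0 = ken x) (hx : ((818728140 : ℕ) : ℝ) / S ≤ x)
    (hx' : x ≤ (((818728140 : ℕ) : ℝ) + (40265320 : ℕ)) / S) :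
    AltB (VFD κ) PP tK tL pcB [⟨3, 0, 0, 1449551462⟩] 0 1 1 0 0 (sgb false) (sgb false) x :=
  strip_altBD (m := 1449551462) true rfl hκ (SH.κ0 hκ (SH.hx1 hx).le (SH.hx2 hx').le) (SH.hx1 hx).le (SH.hx2 hx') (covB00).cov (covB01).cov hx hx' c_B00mm_011_s1 cutB_nil (noExt_B)

noncomputable def cut_B00mm_011_s3 : Cut := Cut.of [[⟨3, 0, 0, 2845415833⟩]]

noncomputable def f_B00mm_011_s3 : ℕ → ℕ → ℕ → ℕ → Bool := onCell 0 536870912 536870912 536870912 818728140 40265320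
    (rowF 0 false false false .pnn 0 1 1 (qsf 0 536870912 536870912 536870912 1) ndB0q0 ndB0q1 pcB1 cut_B00mm_011_s3 Ext.none)

def k0_B00mm_011_s3 : ∃ t, chk3 f_B00mm_011_s3 t 1 1 1 = true :=
  ⟨(l 6), by decide +kernel⟩

theorem c_B00mm_011_s3 : CertF 0 536870912 536870912 536870912 818728140 40265320 false false false .pnn 0 1 1
    ndB0q0 ndB0q1 pcB1 cut_B00mm_011_s3 Ext.none :=
  certF0 (fam := false) (s1 := false) (s2 := false) (a := 0) (b := 1) (c := 1) (cn := .pnn) (n1 := ndB0q0) (n2 := ndB0q1) (pc := pcB1) (cut := cut_B00mm_011_s3) (xt := Ext.none) (P1 := 0) (W1 := 536870912) (P2 := 536870912) (W2 := 536870912) (P3 := 818728140) (W3 := 40265320)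
    rfl k0_B00mm_011_s3

theorem s_B00mm_011_s3 {κ x : ℝ} (hκ : κ * h0 = ken x) (hx : ((818728140 : ℕ) : ℝ) / S ≤ x)
    (hx' : x ≤ (((818728140 : ℕ) : ℝ) + (40265320 : ℕ)) / S) :
    AltB (VFD κ) PP tK tL pcB [⟨4, 0, 0, 2845415833⟩] 0 1 1 0 0 (sgb false) (sgb false) x :=
  strip_altBD (m := 2845415833) false rfl hκ (SH.κ0 hκ (SH.hx1 hx).le (SH.hx2 hx').le) (SH.hx1 hx).le (SH.hx2 hx') (covB00).cov (covB01).cov hx hx' c_B00mm_011_s3 cutB_nil (noExt_B)

noncomputable def cut_B00mm_012_s1 : Cut := Cut.of [[⟨4, 0, 0, 1449551462⟩]]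

noncomputable def f_B00mm_012_s1 : ℕ → ℕ → ℕ → ℕ → Bool := onCell 0 536870912 0 536870912 818728140 40265320
    (rowF 0 false false false .pnp 0 1 2 (qsf 0 536870912 0 536870912 1) ndB0q0 ndB0q2 pcB1 cut_B00mm_012_s1 Ext.none)

def k0_B00mm_012_s1 : ∃ t, chk3 f_B00mm_012_s1 t 1 1 1 = true :=
  ⟨(l 5), by decide +kernel⟩

theorem c_B00mm_012_s1 : CertF 0 536870912 0 536870912 818728140 40265320 false false false .pnp 0 1 2
    ndB0q0 ndB0q2 pcB1 cut_B00mm_012_s1 Ext.none :=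
  certF0 (fam := false) (s1 := false) (s2 := false) (a := 0) (b := 1) (c := 2) (cn := .pnp) (n1 := ndB0q0) (n2 := ndB0q2) (pc := pcB1) (cut := cut_B00mm_012_s1) (xt := Ext.none) (P1 := 0) (W1 := 536870912) (P2 := 0) (W2 := 536870912) (P3 := 818728140) (W3 := 40265320)
    rfl k0_B00mm_012_s1

theorem s_B00mm_012_s1 {κ x : ℝ} (hκ : κ * h0 = ken x) (hx : ((818728140 : ℕ) : ℝ) / S ≤ x)
    (hx' : x ≤ (((818728140 : ℕ) : ℝ) + (40265320 : ℕ)) / S) :
    AltB (VFD κ) PP tK tL pcB [⟨3, 0, 0, 1449551462⟩] 0 1 2 0 0 (sgb false) (sgb false) x :=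
  strip_altBD (m := 1449551462) true rfl hκ (SH.κ0 hκ (SH.hx1 hx).le (SH.hx2 hx').le) (SH.hx1 hx).le (SH.hx2 hx') (covB00).cov (covB02).cov hx hx' c_B00mm_012_s1 cutB_nil (noExt_B)

noncomputable def cut_B00mm_012_s3 : Cut := Cut.of [[⟨3, 0, 0, 2845415833⟩]]

noncomputable def f_B00mm_012_s3 : ℕ → ℕ → ℕ → ℕ → Bool := onCell 0 536870912 0 536870912 818728140 40265320
    (rowF 0 false false false .pnp 0 1 2 (qsf 0 536870912 0 536870912 1) ndB0q0 ndB0q2 pcB1 cut_B00mm_012_s3 Ext.none)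

def k0_B00mm_012_s3 : ∃ t, chk3 f_B00mm_012_s3 t 1 1 1 = true :=
  ⟨(l 5), by decide +kernel⟩

theorem c_B00mm_012_s3 : CertF 0 536870912 0 536870912 818728140 40265320 false false false .pnp 0 1 2
    ndB0q0 ndB0q2 pcB1 cut_B00mm_012_s3 Ext.none :=
  certF0 (fam := false) (s1 := false) (s2 := false) (a := 0) (b := 1) (c := 2) (cn := .pnp) (n1 := ndB0q0) (n2 := ndB0q2) (pc := pcB1) (cut := cut_B00mm_012_s3) (xt := Ext.none) (P1 := 0) (W1 := 536870912) (P2 := 0) (W2 := 536870912) (P3 := 818728140) (W3 := 40265320)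
    rfl k0_B00mm_012_s3

theorem s_B00mm_012_s3 {κ x : ℝ} (hκ : κ * h0 = ken x) (hx : ((818728140 : ℕ) : ℝ) / S ≤ x)
    (hx' : x ≤ (((818728140 : ℕ) : ℝ) + (40265320 : ℕ)) / S) :
    AltB (VFD κ) PP tK tL pcB [⟨4, 0, 0, 2845415833⟩] 0 1 2 0 0 (sgb false) (sgb false) x :=
  strip_altBD (m := 2845415833) false rfl hκ (SH.κ0 hκ (SH.hx1 hx).le (SH.hx2 hx').le) (SH.hx1 hx).le (SH.hx2 hx') (covB00).cov (covB02).cov hx hx' c_B00mm_012_s3 cutB_nil (noExt_B)

noncomputable def cut_B00mm_022_s1 : Cut := Cut.of [[⟨4, 0, 0, 1449551462⟩]]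

noncomputable def f_B00mm_022_s1 : ℕ → ℕ → ℕ → ℕ → Bool := onCell 0 536870912 0 536870912 818728140 40265320
    (rowF 0 false false false .pp 0 2 2 (qsf 0 536870912 0 536870912 2) ndB0q0 ndB0q2 pcB2 cut_B00mm_022_s1 Ext.none)

def k0_B00mm_022_s1 : ∃ t, chk3 f_B00mm_022_s1 t 1 1 1 = true :=
  ⟨(l 5), by decide +kernel⟩

theorem c_B00mm_022_s1 : CertF 0 536870912 0 536870912 818728140 40265320 false false false .pp 0 2 2
    ndB0q0 ndB0q2 pcB2 cut_B00mm_022_s1 Ext.none :=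
  certF0 (fam := false) (s1 := false) (s2 := false) (a := 0) (b := 2) (c := 2) (cn := .pp) (n1 := ndB0q0) (n2 := ndB0q2) (pc := pcB2) (cut := cut_B00mm_022_s1) (xt := Ext.none) (P1 := 0) (W1 := 536870912) (P2 := 0) (W2 := 536870912) (P3 := 818728140) (W3 := 40265320)
    rfl k0_B00mm_022_s1

theorem s_B00mm_022_s1 {κ x : ℝ} (hκ : κ * h0 = ken x) (hx : ((818728140 : ℕ) : ℝ) / S ≤ x)
    (hx' : x ≤ (((818728140 : ℕ) : ℝ) + (40265320 : ℕ)) / S) :
    AltB (VFD κ) PP tK tL pcB [⟨3, 0, 0, 1449551462⟩] 0 2 2 0 0 (sgb false) (sgb false) x :=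
  strip_altBD (m := 1449551462) true rfl hκ (SH.κ0 hκ (SH.hx1 hx).le (SH.hx2 hx').le) (SH.hx1 hx).le (SH.hx2 hx') (covB00).cov (covB02).cov hx hx' c_B00mm_022_s1 cutB_nil (noExt_B)

noncomputable def cut_B00mm_022_s3 : Cut := Cut.of [[⟨3, 0, 0, 2845415833⟩]]

noncomputable def f_B00mm_022_s3 : ℕ → ℕ → ℕ → ℕ → Bool := onCell 0 536870912 0 536870912 818728140 40265320
    (rowF 0 false false false .pp 0 2 2 (qsf 0 536870912 0 536870912 2) ndB0q0 ndB0q2 pcB2 cut_B00mm_022_s3 Ext.none)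

def k0_B00mm_022_s3 : ∃ t, chk3 f_B00mm_022_s3 t 1 1 1 = true :=
  ⟨(l 5), by decide +kernel⟩

theorem c_B00mm_022_s3 : CertF 0 536870912 0 536870912 818728140 40265320 false false false .pp 0 2 2
    ndB0q0 ndB0q2 pcB2 cut_B00mm_022_s3 Ext.none :=
  certF0 (fam := false) (s1 := false) (s2 := false) (a := 0) (b := 2) (c := 2) (cn := .pp) (n1 := ndB0q0) (n2 := ndB0q2) (pc := pcB2) (cut := cut_B00mm_022_s3) (xt := Ext.none) (P1 := 0) (W1 := 536870912) (P2 := 0) (W2 := 536870912) (P3 := 818728140) (W3 := 40265320)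
    rfl k0_B00mm_022_s3

theorem s_B00mm_022_s3 {κ x : ℝ} (hκ : κ * h0 = ken x) (hx : ((818728140 : ℕ) : ℝ) / S ≤ x)
    (hx' : x ≤ (((818728140 : ℕ) : ℝ) + (40265320 : ℕ)) / S) :
    AltB (VFD κ) PP tK tL pcB [⟨4, 0, 0, 2845415833⟩] 0 2 2 0 0 (sgb false) (sgb false) x :=
  strip_altBD (m := 2845415833) false rfl hκ (SH.κ0 hκ (SH.hx1 hx).le (SH.hx2 hx').le) (SH.hx1 hx).le (SH.hx2 hx') (covB00).cov (covB02).cov hx hx' c_B00mm_022_s3 cutB_nil (noExt_B)

noncomputable def cut_B00mm_101_s1 : Cut := Cut.of [[⟨4, 0, 0, 1449551462⟩]]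

noncomputable def f_B00mm_101_s1 : ℕ → ℕ → ℕ → ℕ → Bool := onCell 536870912 536870912 536870912 536870912 818728140 40265320
    (rowF 0 false false false .npn 1 0 1 (qsf 536870912 536870912 536870912 536870912 0) ndB0q1 ndB0q1 pcB0 cut_B00mm_101_s1 Ext.none)

def k0_B00mm_101_s1 : ∃ t, chk3 f_B00mm_101_s1 t 1 1 1 = true :=
  ⟨(l 3), by decide +kernel⟩

theorem c_B00mm_101_s1 : CertF 536870912 536870912 536870912 536870912 818728140 40265320 false false false .npn 1 0 1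
    ndB0q1 ndB0q1 pcB0 cut_B00mm_101_s1 Ext.none :=
  certF0 (fam := false) (s1 := false) (s2 := false) (a := 1) (b := 0) (c := 1) (cn := .npn) (n1 := ndB0q1) (n2 := ndB0q1) (pc := pcB0) (cut := cut_B00mm_101_s1) (xt := Ext.none) (P1 := 536870912) (W1 := 536870912) (P2 := 536870912) (W2 := 536870912) (P3 := 818728140) (W3 := 40265320)
    rfl k0_B00mm_101_s1

theorem s_B00mm_101_s1 {κ x : ℝ} (hκ : κ * h0 = ken x) (hx : ((818728140 : ℕ) : ℝ) / S ≤ x)
    (hx' : x ≤ (((818728140 : ℕ) : ℝ) + (40265320 : ℕ)) / S) :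
    AltB (VFD κ) PP tK tL pcB [⟨3, 0, 0, 1449551462⟩] 1 0 1 0 0 (sgb false) (sgb false) x :=
  strip_altBD (m := 1449551462) true rfl hκ (SH.κ0 hκ (SH.hx1 hx).le (SH.hx2 hx').le) (SH.hx1 hx).le (SH.hx2 hx') (covB01).cov (covB01).cov hx hx' c_B00mm_101_s1 cutB_nil (noExt_B)

noncomputable def cut_B00mm_101_s3 : Cut := Cut.of [[⟨3, 0, 0, 2845415833⟩]]

noncomputable def f_B00mm_101_s3 : ℕ → ℕ → ℕ → ℕ → Bool := onCell 536870912 536870912 536870912 536870912 818728140 40265320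
    (rowF 0 false false false .npn 1 0 1 (qsf 536870912 536870912 536870912 536870912 0) ndB0q1 ndB0q1 pcB0 cut_B00mm_101_s3 Ext.none)

def k0_B00mm_101_s3 : ∃ t, chk3 f_B00mm_101_s3 t 1 1 1 = true :=
  ⟨(l 3), by decide +kernel⟩

theorem c_B00mm_101_s3 : CertF 536870912 536870912 536870912 536870912 818728140 40265320 false false false .npn 1 0 1
    ndB0q1 ndB0q1 pcB0 cut_B00mm_101_s3 Ext.none :=
  certF0 (fam := false) (s1 := false) (s2 := false) (a := 1) (b := 0) (c := 1) (cn := .npn) (n1 := ndB0q1) (n2 := ndB0q1) (pc := pcB0) (cut := cut_B00mm_101_s3) (xt := Ext.none) (P1 := 536870912) (W1 := 536870912) (P2 := 536870912) (W2 := 536870912) (P3 := 818728140) (W3 := 40265320)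
    rfl k0_B00mm_101_s3

theorem s_B00mm_101_s3 {κ x : ℝ} (hκ : κ * h0 = ken x) (hx : ((818728140 : ℕ) : ℝ) / S ≤ x)
    (hx' : x ≤ (((818728140 : ℕ) : ℝ) + (40265320 : ℕ)) / S) :
    AltB (VFD κ) PP tK tL pcB [⟨4, 0, 0, 2845415833⟩] 1 0 1 0 0 (sgb false) (sgb false) x :=
  strip_altBD (m := 2845415833) false rfl hκ (SH.κ0 hκ (SH.hx1 hx).le (SH.hx2 hx').le) (SH.hx1 hx).le (SH.hx2 hx') (covB01).cov (covB01).cov hx hx' c_B00mm_101_s3 cutB_nil (noExt_B)

noncomputable def cut_B00mm_102_s1 : Cut := Cut.of [[⟨4, 0, 0, 1449551462⟩]]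

noncomputable def f_B00mm_102_s1 : ℕ → ℕ → ℕ → ℕ → Bool := onCell 536870912 536870912 0 536870912 818728140 40265320
    (rowF 0 false false false .npp 1 0 2 (qsf 536870912 536870912 0 536870912 0) ndB0q1 ndB0q2 pcB0 cut_B00mm_102_s1 Ext.none)

def k0_B00mm_102_s1 : ∃ t, chk3 f_B00mm_102_s1 t 1 1 1 = true :=
  ⟨(a (l 5) (l 3)), by decide +kernel⟩

theorem c_B00mm_102_s1 : CertF 536870912 536870912 0 536870912 818728140 40265320 false false false .npp 1 0 2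
    ndB0q1 ndB0q2 pcB0 cut_B00mm_102_s1 Ext.none :=
  certF0 (fam := false) (s1 := false) (s2 := false) (a := 1) (b := 0) (c := 2) (cn := .npp) (n1 := ndB0q1) (n2 := ndB0q2) (pc := pcB0) (cut := cut_B00mm_102_s1) (xt := Ext.none) (P1 := 536870912) (W1 := 536870912) (P2 := 0) (W2 := 536870912) (P3 := 818728140) (W3 := 40265320)
    rfl k0_B00mm_102_s1

theorem s_B00mm_102_s1 {κ x : ℝ} (hκ : κ * h0 = ken x) (hx : ((818728140 : ℕ) : ℝ) / S ≤ x)
    (hx' : x ≤ (((818728140 : ℕ) : ℝ) + (40265320 : ℕ)) / S) :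
    AltB (VFD κ) PP tK tL pcB [⟨3, 0, 0, 1449551462⟩] 1 0 2 0 0 (sgb false) (sgb false) x :=
  strip_altBD (m := 1449551462) true rfl hκ (SH.κ0 hκ (SH.hx1 hx).le (SH.hx2 hx').le) (SH.hx1 hx).le (SH.hx2 hx') (covB01).cov (covB02).cov hx hx' c_B00mm_102_s1 cutB_nil (noExt_B)

noncomputable def cut_B00mm_102_s3 : Cut := Cut.of [[⟨3, 0, 0, 2845415833⟩]]

noncomputable def f_B00mm_102_s3 : ℕ → ℕ → ℕ → ℕ → Bool := onCell 536870912 536870912 0 536870912 818728140 40265320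
    (rowF 0 false false false .npp 1 0 2 (qsf 536870912 536870912 0 536870912 0) ndB0q1 ndB0q2 pcB0 cut_B00mm_102_s3 Ext.none)

def k0_B00mm_102_s3 : ∃ t, chk3 f_B00mm_102_s3 t 1 1 1 = true :=
  ⟨(l 6), by decide +kernel⟩

theorem c_B00mm_102_s3 : CertF 536870912 536870912 0 536870912 818728140 40265320 false false false .npp 1 0 2
    ndB0q1 ndB0q2 pcB0 cut_B00mm_102_s3 Ext.none :=
  certF0 (fam := false) (s1 := false) (s2 := false) (a := 1) (b := 0) (c := 2) (cn := .npp) (n1 := ndB0q1) (n2 := ndB0q2) (pc := pcB0) (cut := cut_B00mm_102_s3) (xt := Ext.none) (P1 := 536870912) (W1 := 536870912) (P2 := 0) (W2 := 536870912) (P3 := 818728140) (W3 := 40265320)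
    rfl k0_B00mm_102_s3

theorem s_B00mm_102_s3 {κ x : ℝ} (hκ : κ * h0 = ken x) (hx : ((818728140 : ℕ) : ℝ) / S ≤ x)
    (hx' : x ≤ (((818728140 : ℕ) : ℝ) + (40265320 : ℕ)) / S) :
    AltB (VFD κ) PP tK tL pcB [⟨4, 0, 0, 2845415833⟩] 1 0 2 0 0 (sgb false) (sgb false) x :=
  strip_altBD (m := 2845415833) false rfl hκ (SH.κ0 hκ (SH.hx1 hx).le (SH.hx2 hx').le) (SH.hx1 hx).le (SH.hx2 hx') (covB01).cov (covB02).cov hx hx' c_B00mm_102_s3 cutB_nil (noExt_B)

noncomputable def cut_B00mm_112_s1 : Cut := Cut.of [[⟨4, 0, 0, 1449551462⟩]]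

noncomputable def f_B00mm_112_s1 : ℕ → ℕ → ℕ → ℕ → Bool := onCell 536870912 536870912 0 536870912 818728140 40265320
    (rowF 2 false false false .dn 1 1 2 (qsf 536870912 536870912 0 536870912 1) ndB0q1 ndB0q2 pcB1 cut_B00mm_112_s1 Ext.none)

def k0_B00mm_112_s1 : ∃ t, chk3 f_B00mm_112_s1 t 1 1 1 = true :=
  ⟨(l 5), by decide +kernel⟩

theorem c_B00mm_112_s1 : CertF 536870912 536870912 0 536870912 818728140 40265320 false false false .dn 1 1 2
    ndB0q1 ndB0q2 pcB1 cut_B00mm_112_s1 Ext.none :=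
  certF2 (fam := false) (s1 := false) (s2 := false) (a := 1) (b := 1) (c := 2) (cn := .dn) (n1 := ndB0q1) (n2 := ndB0q2) (pc := pcB1) (cut := cut_B00mm_112_s1) (xt := Ext.none) (P1 := 536870912) (W1 := 536870912) (P2 := 0) (W2 := 536870912) (P3 := 818728140) (W3 := 40265320)
    rfl (fun _ => rfl) k0_B00mm_112_s1

theorem s_B00mm_112_s1 {κ x : ℝ} (hκ : κ * h0 = ken x) (hx : ((818728140 : ℕ) : ℝ) / S ≤ x)
    (hx' : x ≤ (((818728140 : ℕ) : ℝ) + (40265320 : ℕ)) / S) :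
    AltB (VFD κ) PP tK tL pcB [⟨3, 0, 0, 1449551462⟩] 1 1 2 0 0 (sgb false) (sgb false) x :=
  strip_altBD (m := 1449551462) true rfl hκ (SH.κ0 hκ (SH.hx1 hx).le (SH.hx2 hx').le) (SH.hx1 hx).le (SH.hx2 hx') (covB01).cov (covB02).cov hx hx' c_B00mm_112_s1 cutB_nil (noExt_B)

noncomputable def cut_B00mm_112_s3 : Cut := Cut.of [[⟨3, 0, 0, 2845415833⟩]]

noncomputable def f_B00mm_112_s3 : ℕ → ℕ → ℕ → ℕ → Bool := onCell 536870912 536870912 0 536870912 818728140 40265320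
    (rowF 0 false false false .dn 1 1 2 (qsf 536870912 536870912 0 536870912 1) ndB0q1 ndB0q2 pcB1 cut_B00mm_112_s3 Ext.none)

def k0_B00mm_112_s3 : ∃ t, chk3 f_B00mm_112_s3 t 1 1 1 = true :=
  ⟨(l 6), by decide +kernel⟩

theorem c_B00mm_112_s3 : CertF 536870912 536870912 0 536870912 818728140 40265320 false false false .dn 1 1 2
    ndB0q1 ndB0q2 pcB1 cut_B00mm_112_s3 Ext.none :=
  certF0 (fam := false) (s1 := false) (s2 := false) (a := 1) (b := 1) (c := 2) (cn := .dn) (n1 := ndB0q1) (n2 := ndB0q2) (pc := pcB1) (cut := cut_B00mm_112_s3) (xt := Ext.none) (P1 := 536870912) (W1 := 536870912) (P2 := 0) (W2 := 536870912) (P3 := 818728140) (W3 := 40265320)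
    rfl k0_B00mm_112_s3

theorem s_B00mm_112_s3 {κ x : ℝ} (hκ : κ * h0 = ken x) (hx : ((818728140 : ℕ) : ℝ) / S ≤ x)
    (hx' : x ≤ (((818728140 : ℕ) : ℝ) + (40265320 : ℕ)) / S) :
    AltB (VFD κ) PP tK tL pcB [⟨4, 0, 0, 2845415833⟩] 1 1 2 0 0 (sgb false) (sgb false) x :=
  strip_altBD (m := 2845415833) false rfl hκ (SH.κ0 hκ (SH.hx1 hx).le (SH.hx2 hx').le) (SH.hx1 hx).le (SH.hx2 hx') (covB01).cov (covB02).cov hx hx' c_B00mm_112_s3 cutB_nil (noExt_B)

noncomputable def cut_B00mm_202_s1 : Cut := Cut.of [[⟨4, 0, 0, 1449551462⟩]]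

noncomputable def f_B00mm_202_s1 : ℕ → ℕ → ℕ → ℕ → Bool := onCell 0 536870912 0 536870912 818728140 40265320
    (rowF 0 false false false .pp 2 0 2 (qsf 0 536870912 0 536870912 0) ndB0q2 ndB0q2 pcB0 cut_B00mm_202_s1 Ext.none)

def k0_B00mm_202_s1 : ∃ t, chk3 f_B00mm_202_s1 t 1 1 1 = true :=
  ⟨(l 3), by decide +kernel⟩

theorem c_B00mm_202_s1 : CertF 0 536870912 0 536870912 818728140 40265320 false false false .pp 2 0 2
    ndB0q2 ndB0q2 pcB0 cut_B00mm_202_s1 Ext.none :=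
  certF0 (fam := false) (s1 := false) (s2 := false) (a := 2) (b := 0) (c := 2) (cn := .pp) (n1 := ndB0q2) (n2 := ndB0q2) (pc := pcB0) (cut := cut_B00mm_202_s1) (xt := Ext.none) (P1 := 0) (W1 := 536870912) (P2 := 0) (W2 := 536870912) (P3 := 818728140) (W3 := 40265320)
    rfl k0_B00mm_202_s1

theorem s_B00mm_202_s1 {κ x : ℝ} (hκ : κ * h0 = ken x) (hx : ((818728140 : ℕ) : ℝ) / S ≤ x)
    (hx' : x ≤ (((818728140 : ℕ) : ℝ) + (40265320 : ℕ)) / S) :
    AltB (VFD κ) PP tK tL pcB [⟨3, 0, 0, 1449551462⟩] 2 0 2 0 0 (sgb false) (sgb false) x :=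
  strip_altBD (m := 1449551462) true rfl hκ (SH.κ0 hκ (SH.hx1 hx).le (SH.hx2 hx').le) (SH.hx1 hx).le (SH.hx2 hx') (covB02).cov (covB02).cov hx hx' c_B00mm_202_s1 cutB_nil (noExt_B)

noncomputable def cut_B00mm_202_s3 : Cut := Cut.of [[⟨3, 0, 0, 2845415833⟩]]

noncomputable def f_B00mm_202_s3 : ℕ → ℕ → ℕ → ℕ → Bool := onCell 0 536870912 0 536870912 818728140 40265320
    (rowF 0 false false false .pp 2 0 2 (qsf 0 536870912 0 536870912 0) ndB0q2 ndB0q2 pcB0 cut_B00mm_202_s3 Ext.none)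

def k0_B00mm_202_s3 : ∃ t, chk3 f_B00mm_202_s3 t 1 1 1 = true :=
  ⟨(l 3), by decide +kernel⟩

theorem c_B00mm_202_s3 : CertF 0 536870912 0 536870912 818728140 40265320 false false false .pp 2 0 2
    ndB0q2 ndB0q2 pcB0 cut_B00mm_202_s3 Ext.none :=
  certF0 (fam := false) (s1 := false) (s2 := false) (a := 2) (b := 0) (c := 2) (cn := .pp) (n1 := ndB0q2) (n2 := ndB0q2) (pc := pcB0) (cut := cut_B00mm_202_s3) (xt := Ext.none) (P1 := 0) (W1 := 536870912) (P2 := 0) (W2 := 536870912) (P3 := 818728140) (W3 := 40265320)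
    rfl k0_B00mm_202_s3

theorem s_B00mm_202_s3 {κ x : ℝ} (hκ : κ * h0 = ken x) (hx : ((818728140 : ℕ) : ℝ) / S ≤ x)
    (hx' : x ≤ (((818728140 : ℕ) : ℝ) + (40265320 : ℕ)) / S) :
    AltB (VFD κ) PP tK tL pcB [⟨4, 0, 0, 2845415833⟩] 2 0 2 0 0 (sgb false) (sgb false) x :=
  strip_altBD (m := 2845415833) false rfl hκ (SH.κ0 hκ (SH.hx1 hx).le (SH.hx2 hx').le) (SH.hx1 hx).le (SH.hx2 hx') (covB02).cov (covB02).cov hx hx' c_B00mm_202_s3 cutB_nil (noExt_B)

noncomputable def cut_B04pp_001_s1 : Cut := Cut.of [[⟨4, 0, 0, 1449551462⟩]]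

noncomputable def f_B04pp_001_s1 : ℕ → ℕ → ℕ → ℕ → Bool := onCell 0 536870912 0 536870912 818728140 40265320
    (rowF 1 false true true .up 0 0 1 (qsf 0 536870912 536870912 536870912 0) ndB0q0 ndB4q1 pcB0 cut_B04pp_001_s1 Ext.none)

def k0_B04pp_001_s1 : ∃ t, chk3 f_B04pp_001_s1 t 1 1 1 = true :=
  ⟨(l 3), by decide +kernel⟩

theorem c_B04pp_001_s1 : CertF 0 536870912 536870912 536870912 818728140 40265320 false true true .up 0 0 1
    ndB0q0 ndB4q1 pcB0 cut_B04pp_001_s1 Ext.none :=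
  certF1 (fam := false) (s1 := true) (s2 := true) (a := 0) (b := 0) (c := 1) (cn := .up) (n1 := ndB0q0) (n2 := ndB4q1) (pc := pcB0) (cut := cut_B04pp_001_s1) (xt := Ext.none) (P1 := 0) (W1 := 536870912) (P2 := 536870912) (W2 := 536870912) (P3 := 818728140) (W3 := 40265320)
    rfl (fun _ => rfl) k0_B04pp_001_s1

theorem s_B04pp_001_s1 {κ x : ℝ} (hκ : κ * h0 = ken x) (hx : ((818728140 : ℕ) : ℝ) / S ≤ x)
    (hx' : x ≤ (((818728140 : ℕ) : ℝ) + (40265320 : ℕ)) / S) :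
    AltB (VFD κ) PP tK tL pcB [⟨3, 0, 0, 1449551462⟩] 0 0 1 0 4 (sgb true) (sgb true) x :=
  strip_altBD (m := 1449551462) true rfl hκ (SH.κ0 hκ (SH.hx1 hx).le (SH.hx2 hx').le) (SH.hx1 hx).le (SH.hx2 hx') (covB00).cov (covB41).cov hx hx' c_B04pp_001_s1 cutB_nil (noExt_B)

noncomputable def cut_B04pp_011_s1 : Cut := Cut.of [[⟨4, 0, 0, 1449551462⟩], [⟨0, 0, 0, 67108864⟩, ⟨1, 1, 0, 67108864⟩, ⟨2, 1, 0, 67108864⟩]]

noncomputable def f_B04pp_011_s1 : ℕ → ℕ → ℕ → ℕ → Bool := onCell 0 536870912 536870912 536870912 818728140 40265320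
    (rowF 1 false true true .pnn 0 1 1 (qsf 0 536870912 536870912 536870912 1) ndB0q0 ndB4q1 pcB1 cut_B04pp_011_s1 Ext.none)

def k0_B04pp_011_s1 : ∃ t, chk3 f_B04pp_011_s1 t 1 1 1 = true :=
  ⟨(b (l 3) (a (b (l 3) (a (b (l 3) (a (a (b (l 3) (l 14)) (l 3)) (l 3))) (l 3))) (l 3))), by decide +kernel⟩

theorem c_B04pp_011_s1 : CertF 0 536870912 536870912 536870912 818728140 40265320 false true true .pnn 0 1 1
    ndB0q0 ndB4q1 pcB1 cut_B04pp_011_s1 Ext.none :=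
  certF1 (fam := false) (s1 := true) (s2 := true) (a := 0) (b := 1) (c := 1) (cn := .pnn) (n1 := ndB0q0) (n2 := ndB4q1) (pc := pcB1) (cut := cut_B04pp_011_s1) (xt := Ext.none) (P1 := 0) (W1 := 536870912) (P2 := 536870912) (W2 := 536870912) (P3 := 818728140) (W3 := 40265320)
    rfl (fun _ => rfl) k0_B04pp_011_s1

theorem s_B04pp_011_s1 {κ x : ℝ} (hκ : κ * h0 = ken x) (hx : ((818728140 : ℕ) : ℝ) / S ≤ x)
    (hx' : x ≤ (((818728140 : ℕ) : ℝ) + (40265320 : ℕ)) / S)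
    (H : CutB (VFD κ) PP tK tL pcB (Cut.of [[⟨0, 0, 0, 67108864⟩, ⟨1, 1, 0, 67108864⟩, ⟨2, 1, 0, 67108864⟩]]) 0 1 1 0 4 (sgb true) (sgb true) x) :
    AltB (VFD κ) PP tK tL pcB [⟨3, 0, 0, 1449551462⟩] 0 1 1 0 4 (sgb true) (sgb true) x :=
  strip_altBD (m := 1449551462) true rfl hκ (SH.κ0 hκ (SH.hx1 hx).le (SH.hx2 hx').le) (SH.hx1 hx).le (SH.hx2 hx') (covB00).cov (covB41).cov hx hx' c_B04pp_011_s1 H (noExt_B)

noncomputable def cut_B04pp_012_s1 : Cut := Cut.of [[⟨4, 0, 0, 1449551462⟩], [⟨0, 0, 0, 67108864⟩, ⟨1, 1, 0, 67108864⟩, ⟨2, 1, 0, 67108864⟩]]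

noncomputable def f_B04pp_012_s1 : ℕ → ℕ → ℕ → ℕ → Bool := onCell 0 536870912 536870912 536870912 818728140 40265320
    (rowF 1 false true true .pnp 0 1 2 (qsf 0 536870912 1073741824 536870912 1) ndB0q0 ndB4q2 pcB1 cut_B04pp_012_s1 Ext.none)

def k0_B04pp_012_s1 : ∃ t, chk3 f_B04pp_012_s1 t 1 1 1 = true :=
  ⟨(b (l 3) (a (b (l 3) (a (a (a (b (l 1) (b (l 3) (l 14))) (l 3)) (l 3)) (l 3))) (l 3))), by decide +kernel⟩

theorem c_B04pp_012_s1 : CertF 0 536870912 1073741824 536870912 818728140 40265320 false true true .pnp 0 1 2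
    ndB0q0 ndB4q2 pcB1 cut_B04pp_012_s1 Ext.none :=
  certF1 (fam := false) (s1 := true) (s2 := true) (a := 0) (b := 1) (c := 2) (cn := .pnp) (n1 := ndB0q0) (n2 := ndB4q2) (pc := pcB1) (cut := cut_B04pp_012_s1) (xt := Ext.none) (P1 := 0) (W1 := 536870912) (P2 := 1073741824) (W2 := 536870912) (P3 := 818728140) (W3 := 40265320)
    rfl (fun _ => rfl) k0_B04pp_012_s1

theorem s_B04pp_012_s1 {κ x : ℝ} (hκ : κ * h0 = ken x) (hx : ((818728140 : ℕ) : ℝ) / S ≤ x)
    (hx' : x ≤ (((818728140 : ℕ) : ℝ) + (40265320 : ℕ)) / S)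
    (H : CutB (VFD κ) PP tK tL pcB (Cut.of [[⟨0, 0, 0, 67108864⟩, ⟨1, 1, 0, 67108864⟩, ⟨2, 1, 0, 67108864⟩]]) 0 1 2 0 4 (sgb true) (sgb true) x) :
    AltB (VFD κ) PP tK tL pcB [⟨3, 0, 0, 1449551462⟩] 0 1 2 0 4 (sgb true) (sgb true) x :=
  strip_altBD (m := 1449551462) true rfl hκ (SH.κ0 hκ (SH.hx1 hx).le (SH.hx2 hx').le) (SH.hx1 hx).le (SH.hx2 hx') (covB00).cov (covB42).cov hx hx' c_B04pp_012_s1 H (noExt_B)

noncomputable def cut_B04pp_022_s1 : Cut := Cut.of [[⟨4, 0, 0, 1449551462⟩], [⟨0, 0, 0, 67108864⟩, ⟨1, 1, 0, 67108864⟩, ⟨2, 1, 0, 67108864⟩]]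

noncomputable def xt_B04pp_022_s1 : Ext := strExt dd false true true .u0 .s2 .u2 .pp 0 2 2 rfl rfl gf2 vv ndB0q0 ndB4q2

noncomputable def f_B04pp_022_s1 : ℕ → ℕ → ℕ → ℕ → Bool := onCell 0 536870912 1073741824 536870912 818728140 40265320
    (rowF 1 false true true .pp 0 2 2 (qsf 0 536870912 1073741824 536870912 2) ndB0q0 ndB4q2 pcB2 cut_B04pp_022_s1 xt_B04pp_022_s1)

def k0_B04pp_022_s1 : ∃ t, chk3 f_B04pp_022_s1 t 8 8 1 = true :=
  ⟨(b (a (b (l 14) (a (l 14) (b (l 14) (a (l 14) (b (l 14) (a (l 14) (l 16745352))))))) (a (a (b (l 14) (b (a (l 14) (b (l 14) (l 524376191))) (a (b (l 524383615) (l 16749256)) (b (l 524382591) (l 16753176))))) (b (l 3) (b (a (b (l 524370047) (l 524373631)) (b (l 3) (l 524370559))) (a (l 524412287) (l 524409471))))) (b (l 3) (a (a (b (l 525442943) (l 524406399)) (b (l 3) (l 524402815))) (b (l 3) (a (l 524399231) (l 524395391))))))) (a (a (a (b (l 14) (b (l 16663096) (l 16644688)))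 (b (b (l 14) (l 16649672)) (b (l 16673152) (l 16654688)))) (b (b (a (l 16720064) (b (l 16734296) (l 16725200))) (a (l 16680568) (l 16711296))) (a (l 16673808) (l 16704448)))) (b (b (a (c (a (b (l 16742784) (l 16734264)) (b (l 16755848) (l 16742168))) (a (b (l 16742856) (l 16734312)) (b (l 16753272) (l 16742208)))) (a (a (l 524417407) (l 524415103)) (a (l 524412799) (l 524409983)))) (a (a (b (l 16725312) (l 16716184)) (b (l 16733752) (l 16725104))) (a (b (l 16741456) (l 16732968)) (b (l 524399231) (l 16740648))))) (a (b (a (l 16702232) (l 16711424)) (l 16688312)) (b (a (l 16720080) (l 16738384)) (a (l 16701920) (l 16710504))))))), by decide +kernel⟩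

def k1_B04pp_022_s1 : ∃ t, chk3 f_B04pp_022_s1 t 9 8 1 = true :=
  ⟨(a (b (b (l 3) (a (b (l 3) (a (b (l 3) (l 524358015)) (l 3))) (l 3))) (b (a (b (a (l 526004095) (l 524390271)) (a (l 524684927) (l 524435839))) (b (a (l 524372863) (l 3)) (a (l 524433535) (l 524387455)))) (a (a (b (l 524472703) (l 16728848)) (b (l 524501375) (l 524508543))) (b (a (l 524479615) (l 524437887)) (a (l 524493951) (l 524454527)))))) (b (l 3) (b (a (b (l 3) (l 524276095)) (l 3)) (a (b (l 524329855) (a (l 524403071) (l 524340351))) (b (l 524180863) (b (l 524203391) (l 524211327))))))), by decide +kernel⟩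

def k2_B04pp_022_s1 : ∃ t, chk3 f_B04pp_022_s1 t 5 8 1 = true :=
  ⟨(a (b (l 3) (b (l 3) (a (a (b (l 3) (b (l 524015487) (l 524026495))) (l 3)) (l 3)))) (l 3)), by decide +kernel⟩

def k3_B04pp_022_s1 : ∃ t, chk3 f_B04pp_022_s1 t 8 18 1 = true :=
  ⟨(a (a (b (l 16647608) (l 16597096)) (b (l 16645976) (l 16616032))) (b (a (b (l 16671832) (l 16657136)) (b (l 16689816) (l 16674824))) (a (l 16634120) (l 16669120)))), by decide +kernel⟩

def k4_B04pp_022_s1 : ∃ t, chk3 f_B04pp_022_s1 t 9 36 1 = true :=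
  ⟨(b (a (a (a (l 16702488) (l 16709600)) (a (l 16716920) (l 524714367))) (a (a (l 524655999) (l 524585855)) (b (l 524335487) (l 524543871)))) (c (b (a (a (l 16690688) (l 16704720)) (a (l 16719600) (l 16744776))) (c (a (a (l 16680472) (l 16694008)) (a (l 16709264) (l 16724336))) (a (a (l 16681640) (l 16694976)) (a (l 16710072) (l 16724952))))) (b (c (b (a (a (l 16694384) (l 16708384)) (a (l 16722992) (l 16737368))) (a (a (l 16689728) (l 16703456)) (a (l 16718168) (l 16732664)))) (b (a (a (l 16695328) (l 16709192)) (a (l 16723632) (l 16737832))) (c (a (a (l 16690560) (l 16704152)) (a (l 16718728) (l 16733080))) (b (c (b (c (b (c (b (a (l 16699624) (a (l 16721168) (l 16735416))) (a (l 16699336) (a (l 16720872) (l 16735128)))) (a (l 16699552) (a (l 16721064) (l 16735304)))) (a (l 16698944) (a (l 16720456) (l 16734712)))) (b (a (l 16699640) (a (l 16721128) (l 16735352))) (a (l 16699072) (a (l 16720544) (l 16734776)))))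 (c (a (l 16698088) (a (l 16719568) (l 16733848))) (a (l 16698224) (a (l 16719664) (l 16733912))))) (b (c (b (a (l 16699768) (a (l 16721224) (l 16735416))) (a (l 16699200) (a (l 16720640) (l 16734848)))) (b (a (l 16699896) (a (l 16721320) (l 16735488))) (a (l 16699328) (a (l 16720736) (l 16734912))))) (c (a (l 16698360) (a (l 16719768) (l 16733984))) (b (a (l 16698768) (a (l 16720152) (l 16734344))) (a (l 16698208) (a (l 16719576) (l 16733776))))))) (c (a (l 16696464) (a (l 16717856) (l 16732152))) (a (l 16696752) (a (l 16718064) (l 16732304)))))))) (c (a (a (l 16682912) (l 16696040)) (a (l 16710936) (l 16725600))) (b (a (a (l 16686432) (l 16699592)) (a (l 16714224) (l 16728608))) (a (a (l 16682072) (l 16694840)) (a (l 16709536) (l 16724000)))))))), by decide +kernel⟩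

def k5_B04pp_022_s1 : ∃ t, chk3 f_B04pp_022_s1 t 9 37 1 = true :=
  ⟨(a (a (b (l 16668808) (l 16651680)) (b (a (l 16678096) (l 16684768)) (l 16664088))) (c (c (b (a (l 16694344) (l 16709840)) (a (l 16675304) (l 16691144))) (c (a (b (l 16695144) (l 16676368)) (b (l 16710456) (l 16691928))) (a (b (l 16695704) (l 16677120)) (b (l 16710880) (l 16692464))))) (c (c (a (b (l 16696288) (l 16677896)) (b (l 16711320) (l 16693024))) (a (b (l 16696888) (l 16678696)) (b (l 16711768) (l 16693592)))) (c (a (b (l 16697520) (l 16679528)) (b (l 16712232) (l 16694184))) (a (b (l 16698160) (l 16680392)) (b (l 16712712) (l 16694792))))))), by decide +kernel⟩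

def k6_B04pp_022_s1 : ∃ t, chk3 f_B04pp_022_s1 t 4 19 1 = true :=
  ⟨(a (a (a (b (l 16565512) (l 16531696)) (b (l 16583936) (l 16549592))) (a (b (l 16601416) (l 16566280)) (b (l 16614848) (l 16581696)))) (a (b (a (l 16627344) (l 16682104)) (a (l 16595792) (l 16608336))) (a (b (b (l 16660896) (l 16645904)) (l 16620352)) (b (b (l 16674928) (l 16659136)) (l 16632304))))), by decide +kernel⟩

def k7_B04pp_022_s1 : ∃ t, chk3 f_B04pp_022_s1 t 5 9 2 = true :=
  ⟨(b (a (a (b (a (b (l 524174207) (l 524245375)) (b (a (l 524017535) (l 523840639)) (a (l 524085887) (l 524032383)))) (a (b (l 524158079) (l 16707200)) (b (l 524181631) (l 524265087)))) (b (b (a (l 523815039) (l 3)) (l 523980415)) (b (a (l 524120959) (l 524128639)) (a (l 524203391) (l 524213631))))) (b (l 3) (a (b (l 525000831) (a (l 524265343) (l 524369791))) (b (l 3) (l 525828367))))) (b (a (a (c (c (a (b (l 16688640) (l 16670864)) (b (l 16702584) (l 16684072)))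 (a (b (l 16689088) (l 16671464)) (b (l 16702920) (l 16684448)))) (a (b (l 16689776) (l 16672384)) (b (l 16703424) (l 16685016)))) (b (a (l 16737424) (l 524289151)) (a (l 16697920) (l 16711272)))) (a (b (a (l 524350591) (l 524460927)) (a (l 16745440) (l 524548735))) (b (l 524585087) (l 524688511)))) (b (a (b (a (l 16675064) (l 16706440)) (a (l 16675984) (l 16681424))) (a (a (l 16705936) (l 16718816)) (a (l 16752176) (l 524879743)))) (a (a (l 16682336) (a (l 16660736) (l 16674200))) (a (a (l 16687464) (l 16700376)) (a (l 16712800) (l 16724792))))))), by decide +kernel⟩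

def k8_B04pp_022_s1 : ∃ t, chk3 f_B04pp_022_s1 t 5 9 3 = true :=
  ⟨(b (a (a (b (a (b (l 524294783) (l 524525951)) (b (a (l 524193151) (l 524073599)) (l 525627263))) (a (b (l 524438655) (l 16708648)) (b (l 524417663) (l 524499583)))) (b (b (a (l 524032639) (l 3)) (l 524179327)) (b (a (l 524343679) (l 524305535)) (a (l 524423551) (l 524385151))))) (b (l 3) (b (a (l 524265599) (l 3)) (a (a (l 524365695) (l 524346495)) (a (l 524426879) (l 3)))))) (b (a (c (b (a (a (l 16690704) (l 16704104)) (l 525992575)) (a (a (l 16673536) (l 16685760)) (l 526034703))) (b (a (a (l 16691656) (l 16704784)) (a (l 16717696) (l 16741032))) (b (a (l 16684992) (l 16720800)) (a (l 16675808) (l 16701000))))) (a (b (a (l 524421503) (l 524410751)) (a (l 16745520) (l 524480127))) (b (l 524573567) (l 524675199)))) (b (a (b (a (l 16666064) (l 16712448)) (a (l 16656496) (l 16682136))) (a (a (l 16705816) (l 16718472)) (a (l 16752024) (l 524900479))))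 (a (a (l 16683752) (a (l 16661648) (l 16674416))) (a (a (l 16687120) (l 16699888)) (a (l 16712624) (l 16724984))))))), by decide +kernel⟩

def k9_B04pp_022_s1 : ∃ t, chk3 f_B04pp_022_s1 t 2 5 1 = true :=
  ⟨(a (b (b (a (b (a (l 16504240) (l 16536104)) (a (b (l 16474520) (l 16452096)) (b (l 16505392) (l 16482224)))) (b (a (l 16625392) (a (l 16579984) (l 16591632))) (a (b (l 16530952) (l 16550016)) (b (l 16554376) (b (l 16538104) (l 16442640)))))) (a (a (l 16484640) (l 16430512)) (a (a (l 16366264) (l 16378184)) (a (l 16390872) (b (l 16507448) (l 16468720)))))) (a (a (b (l 16322240) (l 16075864)) (b (l 16351352) (l 16188576))) (a (b (b (l 16396616) (l 16358000)) (l 16217912)) (b (b (l 16423656) (l 16386288)) (l 16332184))))) (b (b (b (a (a (a (l 16604240) (l 16617872)) (b (a (l 16641976) (l 16655656)) (l 16676688))) (a (a (b (l 16668864) (l 16650240)) (b (l 16681800) (l 16663480))) (b (a (l 16694480) (l 16706744))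 (a (l 16676280) (l 16688648))))) (a (b (a (l 16580640) (l 16609880)) (a (b (l 16481088) (b (l 16472856) (l 16467224))) (b (l 16595000) (l 16584792)))) (b (a (a (l 16631400) (l 16645192)) (a (l 16679312) (l 16691816))) (b (a (l 16624512) (l 16651840)) (a (l 16615200) (l 16643536)))))) (a (a (a (b (l 16521504) (l 16483368)) (b (l 16536800) (l 16499320))) (b (a (l 16552976) (l 16569096)) (l 16440880))) (a (b (l 16592824) (l 16474248)) (b (l 16622440) (l 16588720))))) (a (a (b (b (l 16454544) (l 16418640)) (l 16283288)) (b (b (l 16489400) (l 16455216)) (l 16321688))) (b (a (l 16507672) (l 16539712)) (a (l 16442928) (l 16392432)))))), by decide +kernel⟩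

def k10_B04pp_022_s1 : ∃ t, chk3 f_B04pp_022_s1 t 2 3 1 = true :=
  ⟨(b (a (b (a (a (b (l 16165400) (l 16091336)) (b (l 16197656) (l 16126608))) (a (b (l 16229864) (l 16162408)) (b (l 16263728) (l 16198952)))) (a (l 6) (a (b (l 16098736) (l 6)) (l 15940736)))) (b (a (a (b (l 16301288) (l 16238960)) (b (l 16342024) (l 16281232))) (b (l 16483560) (l 16427816))) (a (b (a (l 16179360) (l 16224664)) (l 6)) (a (l 54859847495) (l 2))))) (l 6)), by decide +kernel⟩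

def k11_B04pp_022_s1 : ∃ t, chk3 f_B04pp_022_s1 t 3 4 1 = true :=
  ⟨(a (a (b (l 3) (b (l 3) (b (a (b (c (l 525920127) (l 524945279)) (c (a (l 524907903) (l 525078911)) (l 525636479))) (l 3)) (a (a (b (b (l 525064575) (l 525131647)) (b (l 525189247) (l 16732040))) (b (c (b (l 525219711) (l 525248895)) (b (l 525385087) (l 525438847))) (b (l 525442687) (l 525474687)))) (b (a (c (b (a (l 525344127) (l 525354111)) (l 525356671)) (b (l 526130959) (l 525624447))) (b (l 3) (l 525523583))) (a (b (l 525516415) (l 525534335)) (l 525538175))))))) (b (l 3) (b (l 3) (b (l 3) (b (l 3) (a (b (l 525542271) (l 525543551)) (l 3))))))) (a (l 3) (l 3))), by decide +kernel⟩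

def k12_B04pp_022_s1 : ∃ t, chk3 f_B04pp_022_s1 t 3 5 1 = true :=
  ⟨(b (a (b (b (a (a (b (a (l 16739488) (c (l 16749632) (l 16750976))) (a (l 16700464) (l 16711416))) (b (a (l 525567871) (l 525569151)) (b (l 525595519) (l 526965631)))) (b (a (l 525554559) (b (l 525525887) (l 525519999))) (b (a (l 525572479) (l 525519231)) (a (l 525589887) (b (l 525521279) (l 525516927)))))) (b (a (a (b (l 16713464) (l 16714904)) (b (a (l 16707376) (l 16716384)) (l 16733584))) (b (a (l 525548159) (b (l 525437823) (l 525296511))) (a (c (l 16738320) (l 16741168)) (a (l 16730424) (l 2))))) (b (a (a (a (l 16669720) (l 16680080)) (a (l 16689256) (l 16697416))) (a (a (l 16705280) (l 16712808)) (a (l 16730496) (l 2)))) (a (a (b (l 16669512) (l 16666016)) (b (b (l 16688600) (l 16686960)) (l 16684744))) (a (a (b (l 16699720) (l 16696280)) (b (l 16707280) (l 16703720))) (a (b (l 16714424) (l 16711000)) (l 2))))))) (a (a (b (l 16647568)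 (l 16614568)) (b (l 16666840) (l 16634552))) (b (a (a (l 16678784) (l 16686632)) (b (l 16726392) (l 2))) (a (l 16652224) (l 2))))) (b (b (b (b (l 3) (l 2)) (l 2)) (l 2)) (l 2))) (a (b (a (a (l 16566368) (l 16588512)) (a (l 16692504) (l 2))) (a (a (l 16421880) (l 16531216)) (l 2))) (l 2))), by decide +kernel⟩

def k13_B04pp_022_s1 : ∃ t, chk3 f_B04pp_022_s1 t 3 3 1 = true :=
  ⟨(a (a (a (b (b (l 16424320) (l 2)) (l 2)) (l 2)) (l 2)) (l 2)), by decide +kernel⟩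

theorem t14_B04pp_022_s1 : ∃ t, chk3 f_B04pp_022_s1 t 3 2 1 = true := ex3_b k11_B04pp_022_s1 k12_B04pp_022_s1

theorem t15_B04pp_022_s1 : ∃ t, chk3 f_B04pp_022_s1 t 3 1 1 = true := ex3_b t14_B04pp_022_s1 k13_B04pp_022_s1

theorem t16_B04pp_022_s1 : ∃ t, chk3 f_B04pp_022_s1 t 5 9 1 = true := ex3_c k7_B04pp_022_s1 k8_B04pp_022_s1

theorem t17_B04pp_022_s1 : ∃ t, chk3 f_B04pp_022_s1 t 9 18 1 = true := ex3_b k4_B04pp_022_s1 k5_B04pp_022_s1

theorem t18_B04pp_022_s1 : ∃ t, chk3 f_B04pp_022_s1 t 4 18 1 = true := ex3_a k3_B04pp_022_s1 t17_B04pp_022_s1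

theorem t19_B04pp_022_s1 : ∃ t, chk3 f_B04pp_022_s1 t 4 9 1 = true := ex3_b t18_B04pp_022_s1 k6_B04pp_022_s1

theorem t20_B04pp_022_s1 : ∃ t, chk3 f_B04pp_022_s1 t 2 9 1 = true := ex3_a t19_B04pp_022_s1 t16_B04pp_022_s1

theorem t21_B04pp_022_s1 : ∃ t, chk3 f_B04pp_022_s1 t 4 8 1 = true := ex3_a k0_B04pp_022_s1 k1_B04pp_022_s1

theorem t22_B04pp_022_s1 : ∃ t, chk3 f_B04pp_022_s1 t 2 8 1 = true := ex3_a t21_B04pp_022_s1 k2_B04pp_022_s1

theorem t23_B04pp_022_s1 : ∃ t, chk3 f_B04pp_022_s1 t 2 4 1 = true := ex3_b t22_B04pp_022_s1 t20_B04pp_022_s1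

theorem t24_B04pp_022_s1 : ∃ t, chk3 f_B04pp_022_s1 t 2 2 1 = true := ex3_b t23_B04pp_022_s1 k9_B04pp_022_s1

theorem t25_B04pp_022_s1 : ∃ t, chk3 f_B04pp_022_s1 t 2 1 1 = true := ex3_b t24_B04pp_022_s1 k10_B04pp_022_s1

theorem t26_B04pp_022_s1 : ∃ t, chk3 f_B04pp_022_s1 t 1 1 1 = true := ex3_a t25_B04pp_022_s1 t15_B04pp_022_s1

theorem c_B04pp_022_s1 : CertF 0 536870912 1073741824 536870912 818728140 40265320 false true true .pp 0 2 2
    ndB0q0 ndB4q2 pcB2 cut_B04pp_022_s1 xt_B04pp_022_s1 :=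
  certF1 (fam := false) (s1 := true) (s2 := true) (a := 0) (b := 2) (c := 2) (cn := .pp) (n1 := ndB0q0) (n2 := ndB4q2) (pc := pcB2) (cut := cut_B04pp_022_s1) (xt := xt_B04pp_022_s1) (P1 := 0) (W1 := 536870912) (P2 := 1073741824) (W2 := 536870912) (P3 := 818728140) (W3 := 40265320)
    rfl (fun _ => rfl) t26_B04pp_022_s1

theorem s_B04pp_022_s1 {κ x : ℝ} (hκ : κ * h0 = ken x) (hx : ((818728140 : ℕ) : ℝ) / S ≤ x)
    (hx' : x ≤ (((818728140 : ℕ) : ℝ) + (40265320 : ℕ)) / S)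
    (H : CutB (VFD κ) PP tK tL pcB (Cut.of [[⟨0, 0, 0, 67108864⟩, ⟨1, 1, 0, 67108864⟩, ⟨2, 1, 0, 67108864⟩]]) 0 2 2 0 4 (sgb true) (sgb true) x) :
    AltB (VFD κ) PP tK tL pcB [⟨3, 0, 0, 1449551462⟩] 0 2 2 0 4 (sgb true) (sgb true) x :=
  strip_altBD (m := 1449551462) true rfl hκ (SH.κ0 hκ (SH.hx1 hx).le (SH.hx2 hx').le) (SH.hx1 hx).le (SH.hx2 hx') (covB00).cov (covB42).cov hx hx' c_B04pp_022_s1 H ((okx hx hx').extB (T := tt) (sideB hx hx') hκ rfl rfl (.O 0 true) (.N 2 true) rfl)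

noncomputable def cut_B04pp_023_s1 : Cut := Cut.of [[⟨4, 0, 0, 1449551462⟩]]

noncomputable def xt_B04pp_023_s1 : Ext := strExt dd false true true .u0 .s2 .u2 .up 0 2 3 rfl rfl gf2 vv ndB0q0 ndB4q3

noncomputable def f_B04pp_023_s1 : ℕ → ℕ → ℕ → ℕ → Bool := onCell 1073741824 536870912 0 1230186008 818728140 40265320
    (rowF 2 false true true .up 0 2 3 (qsf 0 536870912 0 1230186008 2) ndB0q0 ndB4q3 pcB2 cut_B04pp_023_s1 xt_B04pp_023_s1)

def k0_B04pp_023_s1 : ∃ t, chk3 f_B04pp_023_s1 t 1 2 1 = true :=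
  ⟨(a (l 2) (a (l 2) (l 6))), by decide +kernel⟩

def k1_B04pp_023_s1 : ∃ t, chk3 f_B04pp_023_s1 t 4 3 1 = true :=
  ⟨(b (l 2) (b (l 2) (l 3))), by decide +kernel⟩

def k2_B04pp_023_s1 : ∃ t, chk3 f_B04pp_023_s1 t 5 6 1 = true :=
  ⟨(a (l 2) (b (l 2) (a (l 2) (b (l 2) (l 381815438439))))), by decide +kernel⟩

def k3_B04pp_023_s1 : ∃ t, chk3 f_B04pp_023_s1 t 40 7 1 = true :=
  ⟨(a (b (l 3) (b (l 3) (b (l 3) (b (l 3) (a (l 3) (l 525487231)))))) (b (l 3) (b (l 3) (a (b (l 3) (b (l 525428863) (l 525486207))) (b (b (a (l 3) (b (l 3) (l 524684415))) (b (a (l 3) (l 525033599)) (a (l 525364351) (c (l 524893311) (l 525679487))))) (b (a (l 525424511) (b (l 525465471) (l 525427071))) (a (l 525490047) (l 525485439)))))))), by decide +kernel⟩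

def k4_B04pp_023_s1 : ∃ t, chk3 f_B04pp_023_s1 t 41 14 1 = true :=
  ⟨(a (l 3) (a (b (l 2) (b (l 2) (a (b (l 3) (l 523626111)) (b (a (l 526987391) (l 528429951)) (b (l 526082063) (l 525232655)))))) (b (l 2) (a (b (l 2) (b (b (a (a (l 530927999) (l 530228863)) (l 15133046599)) (a (a (l 528922639) (l 529321599)) (a (l 529527679) (l 16771496)))) (b (a (a (l 529023871) (l 16771432)) (l 16764792)) (a (b (l 16770216) (l 16768992)) (l 16762480))))) (a (b (l 2) (b (b (l 16771768) (l 16770152)) (b (l 16768152) (l 16765768)))) (b (l 2) (b (b (l 16770064) (l 16768344)) (l 16775536)))))))), by decide +kernel⟩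

def k5_B04pp_023_s1 : ∃ t, chk3 f_B04pp_023_s1 t 41 15 1 = true :=
  ⟨(b (b (a (a (l 3) (b (a (l 3) (a (l 3) (l 521290623))) (a (l 3) (b (l 521665039) (a (l 519820415) (l 520364159)))))) (a (b (a (a (l 522020991) (l 522792319)) (a (l 523770239) (b (l 525276543) (l 16768616)))) (a (b (a (l 521261183) (l 521974399)) (a (l 520930687) (l 521603711))) (a (b (l 522808959) (l 16766824)) (b (l 16762560) (l 16758920))))) (b (b (a (a (l 16769584) (l 16765000)) (l 16761944)) (a (a (l 16763888) (l 16761864)) (l 16758696))) (a (a (b (l 16760408) (l 16756800)) (a (l 524997503) (l 16761304))) (a (l 16759736) (l 16752376)))))) (a (a (b (l 3) (l 523086975)) (a (l 522987391) (b (a (l 521000063) (b (l 520499583) (l 521203327))) (b (l 521801599) (l 522327423))))) (a (a (b (a (l 522354303) (l 521786495)) (b (l 522102911) (l 16757784))) (b (b (c (l 16756672) (l 16756576)) (l 16753224)) (b (l 16749880) (l 16746592)))) (b (a (a (l 16756760)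 (l 16749536)) (l 16746472)) (a (a (l 16744832) (l 16742824)) (l 16739824)))))) (b (a (a (b (c (l 523702655) (l 524233343)) (b (a (l 524701311) (l 524379263)) (a (l 525001087) (l 524696447)))) (b (a (l 523412607) (l 523071871)) (a (b (l 16762112) (l 16753192)) (c (l 16757736) (l 16758528))))) (b (a (a (b (l 16749176) (l 16745864)) (l 16752240)) (a (a (l 16738448) (l 16736440)) (l 16733440))) (a (a (c (l 16740464) (l 16741232)) (l 16735248)) (a (a (l 16731960) (l 16729928)) (l 16726928))))) (a (a (b (a (l 525225855) (l 524994175)) (a (l 525390719) (l 16756280))) (b (a (l 524748671) (l 16740312)) (c (l 16745184) (l 16747064)))) (b (a (a (l 16733736) (l 16728272)) (a (l 16734336) (l 16719824))) (a (c (l 16743152) (l 16724152)) (a (l 16716232) (l 16711976))))))), by decide +kernel⟩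

def k6_B04pp_023_s1 : ∃ t, chk3 f_B04pp_023_s1 t 21 7 1 = true :=
  ⟨(b (a (b (l 2) (b (b (l 2) (a (l 244913794999) (l 16751576))) (a (a (b (a (l 16777056) (l 16742016)) (b (l 16761448) (l 16758744))) (b (l 16757528) (l 16752064))) (b (l 16746312) (l 16697208))))) (b (l 532037487) (b (l 531209567) (b (l 16679992) (l 16713632))))) (b (b (a (b (a (a (b (l 16755648) (l 16752120)) (l 16745048)) (l 16731744)) (a (b (l 16765192) (l 16761688)) (l 16724608))) (b (l 16704992) (l 16698384))) (a (b (a (l 16735872) (l 16718552)) (a (l 16729464) (l 16712488))) (b (l 16692832) (l 16602792)))) (a (b (b (l 16735552) (l 16707568)) (b (l 16699656) (l 16691048))) (b (l 16675720) (l 16657704))))), by decide +kernel⟩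

def k7_B04pp_023_s1 : ∃ t, chk3 f_B04pp_023_s1 t 11 7 1 = true :=
  ⟨(b (b (a (b (l 16712672) (l 531769439)) (b (l 16665528) (l 16647328))) (a (b (l 16750544) (a (l 16600184) (l 16649616))) (b (l 16624864) (l 16601536)))) (b (b (a (a (l 16583888) (l 16634288)) (l 16584304)) (a (a (l 16655208) (l 16620952)) (l 16568168))) (b (a (l 16621120) (l 16546392)) (a (l 16642640) (l 16436320))))), by decide +kernel⟩

def k8_B04pp_023_s1 : ∃ t, chk3 f_B04pp_023_s1 t 3 3 1 = true :=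
  ⟨(b (a (b (a (l 2) (b (l 16586608) (l 251355262023))) (b (a (l 16642416) (l 16309832)) (a (b (l 327054314839) (l 16437768)) (a (l 16541088) (l 6))))) (l 6)) (a (b (a (a (b (l 16431400) (a (l 16564824) (l 16533912))) (b (l 16539640) (l 16318024))) (a (b (l 16483592) (l 16424880)) (l 6))) (a (b (a (l 16506760) (b (l 16449160) (l 16421856))) (b (a (l 16469432) (l 16387040)) (a (l 16267256) (l 16345880)))) (a (b (l 16359984) (a (l 16047336) (l 16084080))) (l 6)))) (l 6))), by decide +kernel⟩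

theorem t9_B04pp_023_s1 : ∃ t, chk3 f_B04pp_023_s1 t 41 7 1 = true := ex3_b k4_B04pp_023_s1 k5_B04pp_023_s1

theorem t10_B04pp_023_s1 : ∃ t, chk3 f_B04pp_023_s1 t 20 7 1 = true := ex3_a k3_B04pp_023_s1 t9_B04pp_023_s1

theorem t11_B04pp_023_s1 : ∃ t, chk3 f_B04pp_023_s1 t 10 7 1 = true := ex3_a t10_B04pp_023_s1 k6_B04pp_023_s1

theorem t12_B04pp_023_s1 : ∃ t, chk3 f_B04pp_023_s1 t 5 7 1 = true := ex3_a t11_B04pp_023_s1 k7_B04pp_023_s1

theorem t13_B04pp_023_s1 : ∃ t, chk3 f_B04pp_023_s1 t 5 3 1 = true := ex3_b k2_B04pp_023_s1 t12_B04pp_023_s1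

theorem t14_B04pp_023_s1 : ∃ t, chk3 f_B04pp_023_s1 t 2 3 1 = true := ex3_a k1_B04pp_023_s1 t13_B04pp_023_s1

theorem t15_B04pp_023_s1 : ∃ t, chk3 f_B04pp_023_s1 t 1 3 1 = true := ex3_a t14_B04pp_023_s1 k8_B04pp_023_s1

theorem t16_B04pp_023_s1 : ∃ t, chk3 f_B04pp_023_s1 t 1 1 1 = true := ex3_b k0_B04pp_023_s1 t15_B04pp_023_s1

theorem c_B04pp_023_s1 : CertF 0 536870912 0 1230186008 818728140 40265320 false true true .up 0 2 3
    ndB0q0 ndB4q3 pcB2 cut_B04pp_023_s1 xt_B04pp_023_s1 :=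
  certF2 (fam := false) (s1 := true) (s2 := true) (a := 0) (b := 2) (c := 3) (cn := .up) (n1 := ndB0q0) (n2 := ndB4q3) (pc := pcB2) (cut := cut_B04pp_023_s1) (xt := xt_B04pp_023_s1) (P1 := 0) (W1 := 536870912) (P2 := 0) (W2 := 1230186008) (P3 := 818728140) (W3 := 40265320)
    rfl (fun _ => rfl) t16_B04pp_023_s1

theorem s_B04pp_023_s1 {κ x : ℝ} (hκ : κ * h0 = ken x) (hx : ((818728140 : ℕ) : ℝ) / S ≤ x)
    (hx' : x ≤ (((818728140 : ℕ) : ℝ) + (40265320 : ℕ)) / S) :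
    AltB (VFD κ) PP tK tL pcB [⟨3, 0, 0, 1449551462⟩] 0 2 3 0 4 (sgb true) (sgb true) x :=
  strip_altBD (m := 1449551462) true rfl hκ (SH.κ0 hκ (SH.hx1 hx).le (SH.hx2 hx').le) (SH.hx1 hx).le (SH.hx2 hx') (covB00).cov (covB43).cov hx hx' c_B04pp_023_s1 cutB_nil ((okx hx hx').extB (T := tt) (sideB hx hx') hκ rfl rfl (.O 0 true) (.N 3 true) rfl)

noncomputable def cut_B04pp_033_s1 : Cut := Cut.of [[⟨4, 0, 0, 1449551462⟩]]

noncomputable def f_B04pp_033_s1 : ℕ → ℕ → ℕ → ℕ → Bool := onCell 1610612736 536870912 0 1230186008 818728140 40265320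
    (rowF 2 false true true .pnn 0 3 3 (qsf 0 536870912 0 1230186008 3) ndB0q0 ndB4q3 pcB3 cut_B04pp_033_s1 Ext.none)

def k0_B04pp_033_s1 : ∃ t, chk3 f_B04pp_033_s1 t 1 1 1 = true :=
  ⟨(b (l 6) (l 6)), by decide +kernel⟩

theorem c_B04pp_033_s1 : CertF 0 536870912 0 1230186008 818728140 40265320 false true true .pnn 0 3 3
    ndB0q0 ndB4q3 pcB3 cut_B04pp_033_s1 Ext.none :=
  certF2 (fam := false) (s1 := true) (s2 := true) (a := 0) (b := 3) (c := 3) (cn := .pnn) (n1 := ndB0q0) (n2 := ndB4q3) (pc := pcB3) (cut := cut_B04pp_033_s1) (xt := Ext.none) (P1 := 0) (W1 := 536870912) (P2 := 0) (W2 := 1230186008) (P3 := 818728140) (W3 := 40265320)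
    rfl (fun _ => rfl) k0_B04pp_033_s1

theorem s_B04pp_033_s1 {κ x : ℝ} (hκ : κ * h0 = ken x) (hx : ((818728140 : ℕ) : ℝ) / S ≤ x)
    (hx' : x ≤ (((818728140 : ℕ) : ℝ) + (40265320 : ℕ)) / S) :
    AltB (VFD κ) PP tK tL pcB [⟨3, 0, 0, 1449551462⟩] 0 3 3 0 4 (sgb true) (sgb true) x :=
  strip_altBD (m := 1449551462) true rfl hκ (SH.κ0 hκ (SH.hx1 hx).le (SH.hx2 hx').le) (SH.hx1 hx).le (SH.hx2 hx') (covB00).cov (covB43).cov hx hx' c_B04pp_033_s1 cutB_nil (noExt_B)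

noncomputable def cut_B04pp_101_s1 : Cut := Cut.of [[⟨4, 0, 0, 1449551462⟩]]

noncomputable def f_B04pp_101_s1 : ℕ → ℕ → ℕ → ℕ → Bool := onCell 536870912 536870912 536870912 536870912 818728140 40265320
    (rowF 0 false true true .npn 1 0 1 (qsf 536870912 536870912 536870912 536870912 0) ndB0q1 ndB4q1 pcB0 cut_B04pp_101_s1 Ext.none)

def k0_B04pp_101_s1 : ∃ t, chk3 f_B04pp_101_s1 t 1 1 1 = true :=
  ⟨(a (l 3) (l 5)), by decide +kernel⟩

theorem c_B04pp_101_s1 : CertF 536870912 536870912 536870912 536870912 818728140 40265320 false true true .npn 1 0 1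
    ndB0q1 ndB4q1 pcB0 cut_B04pp_101_s1 Ext.none :=
  certF0 (fam := false) (s1 := true) (s2 := true) (a := 1) (b := 0) (c := 1) (cn := .npn) (n1 := ndB0q1) (n2 := ndB4q1) (pc := pcB0) (cut := cut_B04pp_101_s1) (xt := Ext.none) (P1 := 536870912) (W1 := 536870912) (P2 := 536870912) (W2 := 536870912) (P3 := 818728140) (W3 := 40265320)
    rfl k0_B04pp_101_s1

theorem s_B04pp_101_s1 {κ x : ℝ} (hκ : κ * h0 = ken x) (hx : ((818728140 : ℕ) : ℝ) / S ≤ x)
    (hx' : x ≤ (((818728140 : ℕ) : ℝ) + (40265320 : ℕ)) / S) :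
    AltB (VFD κ) PP tK tL pcB [⟨3, 0, 0, 1449551462⟩] 1 0 1 0 4 (sgb true) (sgb true) x :=
  strip_altBD (m := 1449551462) true rfl hκ (SH.κ0 hκ (SH.hx1 hx).le (SH.hx2 hx').le) (SH.hx1 hx).le (SH.hx2 hx') (covB01).cov (covB41).cov hx hx' c_B04pp_101_s1 cutB_nil (noExt_B)

noncomputable def cut_B04pp_102_s1 : Cut := Cut.of [[⟨4, 0, 0, 1449551462⟩]]

noncomputable def f_B04pp_102_s1 : ℕ → ℕ → ℕ → ℕ → Bool := onCell 536870912 536870912 1073741824 536870912 818728140 40265320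
    (rowF 0 false true true .npp 1 0 2 (qsf 536870912 536870912 1073741824 536870912 0) ndB0q1 ndB4q2 pcB0 cut_B04pp_102_s1 Ext.none)

def k0_B04pp_102_s1 : ∃ t, chk3 f_B04pp_102_s1 t 1 1 1 = true :=
  ⟨(a (l 3) (b (l 5) (l 3))), by decide +kernel⟩

theorem c_B04pp_102_s1 : CertF 536870912 536870912 1073741824 536870912 818728140 40265320 false true true .npp 1 0 2
    ndB0q1 ndB4q2 pcB0 cut_B04pp_102_s1 Ext.none :=
  certF0 (fam := false) (s1 := true) (s2 := true) (a := 1) (b := 0) (c := 2) (cn := .npp) (n1 := ndB0q1) (n2 := ndB4q2) (pc := pcB0) (cut := cut_B04pp_102_s1) (xt := Ext.none) (P1 := 536870912) (W1 := 536870912) (P2 := 1073741824) (W2 := 536870912) (P3 := 818728140) (W3 := 40265320)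
    rfl k0_B04pp_102_s1

theorem s_B04pp_102_s1 {κ x : ℝ} (hκ : κ * h0 = ken x) (hx : ((818728140 : ℕ) : ℝ) / S ≤ x)
    (hx' : x ≤ (((818728140 : ℕ) : ℝ) + (40265320 : ℕ)) / S) :
    AltB (VFD κ) PP tK tL pcB [⟨3, 0, 0, 1449551462⟩] 1 0 2 0 4 (sgb true) (sgb true) x :=
  strip_altBD (m := 1449551462) true rfl hκ (SH.κ0 hκ (SH.hx1 hx).le (SH.hx2 hx').le) (SH.hx1 hx).le (SH.hx2 hx') (covB01).cov (covB42).cov hx hx' c_B04pp_102_s1 cutB_nil (noExt_B)

noncomputable def cut_B04pp_112_s1 : Cut := Cut.of [[⟨4, 0, 0, 1449551462⟩]]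

noncomputable def f_B04pp_112_s1 : ℕ → ℕ → ℕ → ℕ → Bool := onCell 536870912 536870912 1073741824 536870912 818728140 40265320
    (rowF 0 false true true .dn 1 1 2 (qsf 536870912 536870912 1073741824 536870912 1) ndB0q1 ndB4q2 pcB1 cut_B04pp_112_s1 Ext.none)

def k0_B04pp_112_s1 : ∃ t, chk3 f_B04pp_112_s1 t 1 1 1 = true :=
  ⟨(a (l 3) (b (l 5) (l 3))), by decide +kernel⟩

theorem c_B04pp_112_s1 : CertF 536870912 536870912 1073741824 536870912 818728140 40265320 false true true .dn 1 1 2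
    ndB0q1 ndB4q2 pcB1 cut_B04pp_112_s1 Ext.none :=
  certF0 (fam := false) (s1 := true) (s2 := true) (a := 1) (b := 1) (c := 2) (cn := .dn) (n1 := ndB0q1) (n2 := ndB4q2) (pc := pcB1) (cut := cut_B04pp_112_s1) (xt := Ext.none) (P1 := 536870912) (W1 := 536870912) (P2 := 1073741824) (W2 := 536870912) (P3 := 818728140) (W3 := 40265320)
    rfl k0_B04pp_112_s1

theorem s_B04pp_112_s1 {κ x : ℝ} (hκ : κ * h0 = ken x) (hx : ((818728140 : ℕ) : ℝ) / S ≤ x)
    (hx' : x ≤ (((818728140 : ℕ) : ℝ) + (40265320 : ℕ)) / S) :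
    AltB (VFD κ) PP tK tL pcB [⟨3, 0, 0, 1449551462⟩] 1 1 2 0 4 (sgb true) (sgb true) x :=
  strip_altBD (m := 1449551462) true rfl hκ (SH.κ0 hκ (SH.hx1 hx).le (SH.hx2 hx').le) (SH.hx1 hx).le (SH.hx2 hx') (covB01).cov (covB42).cov hx hx' c_B04pp_112_s1 cutB_nil (noExt_B)

noncomputable def cut_B04pp_113_s1 : Cut := Cut.of [[⟨4, 0, 0, 1449551462⟩], [⟨0, 1, 0, 67108864⟩, ⟨1, 1, 0, 67108864⟩, ⟨2, 2, 0, 16777216⟩]]

noncomputable def f_B04pp_113_s1 : ℕ → ℕ → ℕ → ℕ → Bool := onCell 536870912 536870912 0 1230186008 818728140 40265320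
    (rowF 2 false true true .nn 1 1 3 (qsf 536870912 536870912 0 1230186008 1) ndB0q1 ndB4q3 pcB1 cut_B04pp_113_s1 Ext.none)

def k0_B04pp_113_s1 : ∃ t, chk3 f_B04pp_113_s1 t 1 1 1 = true :=
  ⟨(b (a (l 2) (a (l 2) (b (a (l 2) (a (l 2) (b (l 14) (l 3)))) (l 3)))) (a (b (a (l 2) (b (l 2) (a (l 2) (l 3)))) (a (b (l 2) (l 3)) (l 3))) (b (a (l 3) (l 3)) (l 3)))), by decide +kernel⟩

theorem c_B04pp_113_s1 : CertF 536870912 536870912 0 1230186008 818728140 40265320 false true true .nn 1 1 3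
    ndB0q1 ndB4q3 pcB1 cut_B04pp_113_s1 Ext.none :=
  certF2 (fam := false) (s1 := true) (s2 := true) (a := 1) (b := 1) (c := 3) (cn := .nn) (n1 := ndB0q1) (n2 := ndB4q3) (pc := pcB1) (cut := cut_B04pp_113_s1) (xt := Ext.none) (P1 := 536870912) (W1 := 536870912) (P2 := 0) (W2 := 1230186008) (P3 := 818728140) (W3 := 40265320)
    rfl (fun _ => rfl) k0_B04pp_113_s1

theorem s_B04pp_113_s1 {κ x : ℝ} (hκ : κ * h0 = ken x) (hx : ((818728140 : ℕ) : ℝ) / S ≤ x)
    (hx' : x ≤ (((818728140 : ℕ) : ℝ) + (40265320 : ℕ)) / S)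
    (H : CutB (VFD κ) PP tK tL pcB (Cut.of [[⟨0, 1, 0, 67108864⟩, ⟨1, 1, 0, 67108864⟩, ⟨2, 2, 0, 16777216⟩]]) 1 1 3 0 4 (sgb true) (sgb true) x) :
    AltB (VFD κ) PP tK tL pcB [⟨3, 0, 0, 1449551462⟩] 1 1 3 0 4 (sgb true) (sgb true) x :=
  strip_altBD (m := 1449551462) true rfl hκ (SH.κ0 hκ (SH.hx1 hx).le (SH.hx2 hx').le) (SH.hx1 hx).le (SH.hx2 hx') (covB01).cov (covB43).cov hx hx' c_B04pp_113_s1 H (noExt_B)

noncomputable def cut_B04pp_123_s1 : Cut := Cut.of [[⟨4, 0, 0, 1449551462⟩], [⟨0, 1, 0, 67108864⟩, ⟨1, 1, 0, 67108864⟩, ⟨2, 2, 0, 16777216⟩]]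

noncomputable def xt_B04pp_123_s1 : Ext := strExt dd false true true .u0 .s2 .u2 .npn 1 2 3 rfl rfl gf2 vv ndB0q1 ndB4q3

noncomputable def f_B04pp_123_s1 : ℕ → ℕ → ℕ → ℕ → Bool := onCell 1073741824 536870912 0 1230186008 818728140 40265320
    (rowF 2 false true true .npn 1 2 3 (qsf 536870912 536870912 0 1230186008 2) ndB0q1 ndB4q3 pcB2 cut_B04pp_123_s1 xt_B04pp_123_s1)

def k0_B04pp_123_s1 : ∃ t, chk3 f_B04pp_123_s1 t 4 4 1 = true :=
  ⟨(a (b (a (l 14) (a (l 14) (b (l 16729992) (b (l 16752576) (a (l 14) (b (l 16758752) (l 16765632))))))) (a (l 3) (b (a (l 14) (b (a (l 536102287) (b (a (l 16783768) (l 16769504)) (l 535834255))) (a (l 535979151) (l 535744799)))) (l 3)))) (b (a (b (l 16711944) (a (l 16744152) (l 16730416))) (l 16779728)) (a (b (a (b (a (b (l 16764208) (a (l 16771200) (l 16768976))) (l 16760768)) (a (b (a (l 535757455) (l 16772848)) (l 535812383)) (b (l 16769344) (a (l 16773384) (l 16772344)))))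 (b (l 16748872) (a (l 16764608) (l 16756624)))) (a (a (b (l 535714079) (l 3)) (b (l 535952783) (l 535856015))) (b (a (b (l 16771808) (l 16773440)) (l 16767216)) (a (l 535964047) (b (l 16772296) (l 535965583)))))) (b (a (l 16737480) (l 16719952)) (a (b (l 16754304) (a (b (l 16767376) (l 16770608)) (l 16761352))) (l 16741568)))))), by decide +kernel⟩

def k1_B04pp_123_s1 : ∃ t, chk3 f_B04pp_123_s1 t 4 5 1 = true :=
  ⟨(a (l 3) (c (a (b (b (a (l 3) (b (l 535917855) (l 535822111))) (l 3)) (l 3)) (a (b (b (b (a (l 535942543) (l 16769976)) (l 535881247)) (b (l 535771679) (b (l 535699999) (l 535658783)))) (l 3)) (a (b (b (b (l 16763944) (l 16769984)) (b (l 535788063) (l 535688991))) (b (b (a (l 535584031) (l 535630223)) (l 3)) (l 3))) (b (b (l 16801608) (b (l 16769864) (l 535792015))) (b (l 535639071) (b (l 535446415) (l 3))))))) (a (b (b (a (l 3) (b (l 535861535) (l 535753503))) (l 3)) (l 3)) (a (b (b (b (a (l 535803023)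 (l 16768016)) (l 535625759)) (b (l 535538463) (b (l 535471903) (l 535436063)))) (l 3)) (a (b (b (b (l 16760824) (l 16767616)) (b (l 535467807) (l 535371295))) (b (b (a (l 535282207) (l 535327375)) (l 3)) (l 3))) (b (b (l 16755936) (b (l 16767520) (l 535486863))) (b (b (l 535399823) (l 535289999)) (b (l 535174287) (l 3))))))))), by decide +kernel⟩

def k2_B04pp_123_s1 : ∃ t, chk3 f_B04pp_123_s1 t 5 2 1 = true :=
  ⟨(b (b (a (a (a (l 16675728) (a (l 16666936) (l 16660840))) (l 16645928)) (l 6)) (a (a (a (l 16711896) (b (l 16685424) (l 16618920))) (l 16587464)) (l 16642928))) (a (a (a (b (b (l 16744416) (a (b (l 16763704) (l 16768656)) (b (l 16755408) (l 16763256)))) (b (a (b (l 535604367) (l 535493519)) (b (l 16767480) (a (l 16770864) (l 16768944)))) (a (b (l 535374991) (l 535247247)) (a (b (l 535392143) (l 535267727)) (b (l 16771352) (l 535282207)))))) (b (b (a (l 16729344) (l 16633688)) (a (l 16749264) (l 16767776)))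 (a (b (b (l 16802960) (a (l 16767000) (l 16764472))) (a (b (l 16769448) (l 16782352)) (b (l 16767584) (l 16769104)))) (a (b (l 16756376) (b (l 16764600) (l 16767536))) (b (l 16748952) (b (a (l 16760728) (l 16756808)) (a (l 16765096) (l 16762384)))))))) (b (b (l 16696352) (l 16629240)) (a (b (l 16736160) (l 16749064)) (b (l 16719480) (l 16646480))))) (b (b (l 16490496) (a (l 16683424) (l 16651664))) (a (b (l 16694616) (l 16616488)) (b (l 16659328) (l 16665136)))))), by decide +kernel⟩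

def k3_B04pp_123_s1 : ∃ t, chk3 f_B04pp_123_s1 t 3 2 1 = true :=
  ⟨(a (b (l 6) (a (a (b (l 16537560) (a (l 16473648) (l 16623608))) (b (l 6) (l 16439296))) (l 6))) (l 6)), by decide +kernel⟩

def k4_B04pp_123_s1 : ∃ t, chk3 f_B04pp_123_s1 t 4 6 1 = true :=
  ⟨(l 3), by decide +kernel⟩

def k5_B04pp_123_s1 : ∃ t, chk3 f_B04pp_123_s1 t 40 6 1 = true :=
  ⟨(a (l 3) (b (b (b (a (l 535130767) (b (l 535181343) (l 535111199))) (a (l 3) (a (l 3) (l 534915871)))) (l 3)) (l 3))), by decide +kernel⟩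

def k6_B04pp_123_s1 : ∃ t, chk3 f_B04pp_123_s1 t 41 12 1 = true :=
  ⟨(b (a (b (a (b (l 535179039) (l 534804767)) (b (l 16769712) (l 16780808))) (a (l 534325023) (a (l 533943951) (b (l 16770264) (l 16771376))))) (b (a (a (l 16767960) (l 16767760)) (a (l 16767632) (l 16765560))) (a (a (b (l 16768688) (l 16769640)) (l 16768864)) (a (a (l 16769560) (l 16768528)) (l 16766792))))) (a (b (a (l 533526303) (a (l 532994447) (b (l 533058079) (l 532453407)))) (a (l 3) (b (a (l 532134287) (b (l 531949855) (l 531693343))) (a (l 3) (a (l 3) (l 532335247)))))) (b (a (a (b (l 16770912) (a (l 16775560) (l 16772320))) (b (l 16770552) (l 16772216))) (a (a (b (l 16770504) (l 16771024)) (l 16769336)) (l 16767384))) (a (a (b (a (l 532810383) (l 533423503)) (l 533391503)) (b (a (l 16773928) (l 16773144)) (a (l 534152591) (l 533981839)))) (b (a (a (l 16771840) (l 16770496)) (l 16768408)) (a (a (l 16773080) (l 16771752)) (l 16769704))))))),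 by decide +kernel⟩

def k7_B04pp_123_s1 : ∃ t, chk3 f_B04pp_123_s1 t 82 13 1 = true :=
  ⟨(l 3), by decide +kernel⟩

def k8_B04pp_123_s1 : ∃ t, chk3 f_B04pp_123_s1 t 166 13 1 = true :=
  ⟨(b (b (a (b (l 533741967) (l 3)) (b (l 534052127) (l 534021407))) (a (l 3) (b (a (l 3) (l 533664655)) (l 3)))) (l 3)), by decide +kernel⟩

def k9_B04pp_123_s1 : ∃ t, chk3 f_B04pp_123_s1 t 334 13 1 = true :=
  ⟨(a (b (b (b (l 534403103) (a (l 533492879) (l 533286543))) (a (b (l 533144207) (a (l 532914975) (l 532899727))) (b (l 531483791) (l 532914319)))) (b (l 532653647) (l 3))) (a (b (b (b (l 16773240) (l 534233487)) (b (l 532926095) (l 532934287))) (b (l 532682319) (l 3))) (a (a (b (b (b (l 16772832) (l 16768648)) (b (l 532903823) (l 532869519))) (b (l 532695119) (l 3))) (a (b (b (b (l 16772704) (l 16768536)) (b (l 532901519) (l 532872847))) (b (l 532698447) (l 3))) (a (b (b (b (l 16772648) (l 16768472)) (b (l 532900495) (l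 532874127))) (b (l 532699727) (l 3))) (b (b (b (l 16772600) (l 16768432)) (b (l 532899727) (l 532874639))) (b (l 532700495) (l 3)))))) (b (b (b (l 16772416) (l 16768256)) (b (l 532898703) (l 532875407))) (b (l 532702031) (l 532436303)))))), by decide +kernel⟩

def k10_B04pp_123_s1 : ∃ t, chk3 f_B04pp_123_s1 t 335 13 1 = true :=
  ⟨(a (a (b (b (b (l 16771920) (l 16767776)) (b (b (l 16773840) (l 16774408)) (b (l 16774928) (l 16775352)))) (b (l 532704559) (l 532439087))) (a (a (b (b (b (l 16771504) (l 16772624)) (b (l 16768536) (b (l 16774568) (l 16774992)))) (b (b (l 532767023) (l 532644399)) (b (l 532511791) (l 532368431)))) (a (b (b (b (l 16771376) (l 16772504)) (b (l 16768424) (b (l 16774456) (l 16774880)))) (b (b (b (l 16775272) (l 16775632)) (b (l 16775944) (l 16776216))) (b (b (l 532546607) (l 532477487)) (b (l 532405807) (l 532331311))))) (a (b (b (b (l 16771312) (l 16772440)) (b (l 16773608) (b (l 16774400)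 (l 16774824)))) (b (b (b (l 16775216) (l 16775576)) (b (l 16775888) (b (l 16776096) (l 16776224)))) (b (b (b (l 16776336) (l 16776440)) (b (l 16776536) (l 16776616))) (b (b (l 16776680) (l 16776736)) (b (l 16776784) (b (l 16776808) (l 16776824))))))) (b (b (b (l 16771272) (l 16772400)) (b (l 16768328) (b (l 16774368) (l 16774784)))) (b (b (b (l 16775184) (l 16775536)) (b (l 16775848) (l 16773504))) (b (b (b (l 16776296) (l 16776400)) (b (l 16776496) (l 16776576))) (b (b (l 16776640) (l 16776696)) (b (l 16776744) (l 16776776))))))))) (b (b (b (l 16771088) (l 16772224)) (b (l 16773408) (b (l 16774208) (l 16774624)))) (b (b (b (l 16775016) (l 16775368)) (b (l 16775680) (l 16773328))) (b (b (l 532547679) (l 532478815)) (b (l 532407135) (l 532332639))))))) (b (b (b (l 16770256) (l 16771440)) (b (l 16772672) (b (l 16773480) (l 16773896)))) (b (l 532712287) (l 532446047)))), by decide +kernel⟩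

def k11_B04pp_123_s1 : ∃ t, chk3 f_B04pp_123_s1 t 21 6 1 = true :=
  ⟨(b (a (b (b (l 16755176) (l 16754688)) (b (a (l 16760400) (l 16749048)) (b (l 16755744) (l 16778512)))) (b (b (l 16734064) (l 16733352)) (b (l 16732512) (l 16737144)))) (b (b (a (b (l 16769864) (b (l 16781920) (l 16761808))) (l 16658728)) (b (a (a (l 16767488) (l 16758608)) (l 16745536)) (a (a (l 16773792) (l 16759424)) (l 16746016)))) (a (l 532630367) (b (l 16745992) (l 16703296))))), by decide +kernel⟩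

def k12_B04pp_123_s1 : ∃ t, chk3 f_B04pp_123_s1 t 11 6 1 = true :=
  ⟨(b (a (b (l 16747288) (l 16751168)) (b (l 16669312) (l 16681408))) (a (b (a (l 16664784) (l 16711392)) (b (l 16718744) (l 16716112))) (b (l 16603824) (a (l 16606992) (l 16671360))))), by decide +kernel⟩

def k13_B04pp_123_s1 : ∃ t, chk3 f_B04pp_123_s1 t 3 6 1 = true :=
  ⟨(a (b (a (b (l 16631744) (l 16728024)) (b (l 16586560) (a (l 16600264) (l 6)))) (b (a (l 16726176) (l 16560544)) (a (a (b (l 16646864) (l 16630752)) (l 16589872)) (l 1)))) (l 6)), by decide +kernel⟩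

def k14_B04pp_123_s1 : ∃ t, chk3 f_B04pp_123_s1 t 4 7 1 = true :=
  ⟨(b (l 3) (l 3)), by decide +kernel⟩

def k15_B04pp_123_s1 : ∃ t, chk3 f_B04pp_123_s1 t 40 7 1 = true :=
  ⟨(b (l 3) (b (l 3) (l 1))), by decide +kernel⟩

def k16_B04pp_123_s1 : ∃ t, chk3 f_B04pp_123_s1 t 82 14 1 = true :=
  ⟨(l 3), by decide +kernel⟩

def k17_B04pp_123_s1 : ∃ t, chk3 f_B04pp_123_s1 t 166 14 1 = true :=
  ⟨(b (l 3) (b (b (l 3) (a (l 3) (a (l 3) (b (l 3) (l 529963023))))) (b (a (l 3) (a (l 526987391) (l 528429951))) (l 1)))), by decide +kernel⟩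

def k18_B04pp_123_s1 : ∃ t, chk3 f_B04pp_123_s1 t 167 28 1 = true :=
  ⟨(a (b (l 3) (l 531806783)) (a (a (b (l 532129839) (l 531773231)) (a (a (b (b (l 532213551) (l 532047407)) (b (l 531868975) (l 531678767))) (a (b (b (b (l 532253999) (l 532173871)) (b (l 532090671) (l 532004399))) (b (b (l 531915311) (l 531823151)) (b (l 16775856) (l 16772824)))) (a (b (b (c (b (b (l 16776848) (l 16776856)) (b (l 16776840) (l 16776816))) (b (b (l 16776816) (l 16776824)) (b (l 16776808) (l 16776784)))) (b (b (b (l 16776776) (l 16776752)) (l 16776712)) (b (l 16776640) (l 16776560)))) (b (b (b (l 16776456) (l 16776344)) (b (l 16776208) (l 16776056))) (b (l 16775792) (l 16772752)))) (b (b (b (b (l 16776792) (l 16776792)) (b (l 16776784) (l 16776760))) (b (b (l 16776720) (l 16776672)) (b (l 16776600) (l 16776520)))) (b (b (b (l 16776416) (l 16776296)) (b (l 16776160) (l 16776008))) (b (l 16775744) (l 16772704))))))) (b (b (b (l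 532255071) (l 532174943)) (b (l 532091743) (l 532005471))) (b (b (l 531916383) (l 531824223)) (b (l 16775544) (l 16772504)))))) (b (l 532135775) (l 531778399)))), by decide +kernel⟩

def k19_B04pp_123_s1 : ∃ t, chk3 f_B04pp_123_s1 t 167 29 1 = true :=
  ⟨(a (a (b (b (l 531504959) (b (l 531342655) (a (l 532344847) (l 531225215)))) (b (a (b (l 530927999) (l 528922639)) (b (l 530228863) (l 1))) (l 1))) (a (b (b (l 531486015) (b (l 531324735) (l 531017087))) (b (b (l 530343551) (l 1)) (l 1))) (a (a (b (b (l 531477311) (b (l 531316543) (l 16774552))) (b (b (l 16768120) (l 1)) (l 1))) (a (b (b (l 531474495) (b (l 531313983) (l 16774400))) (b (l 531092351) (l 1))) (a (b (b (l 531473727) (l 532530303)) (b (l 530562687) (l 1))) (b (b (l 531473471) (l 532530303)) (b (l 530836095) (l 1)))))) (b (b (l 531473967) (b (l 16774896) (l 16774048))) (b (b (l 16772832) (l 1)) (l 1)))))) (a (a (b (b (l 531475247) (b (l 531312687)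 (l 16768208))) (b (b (l 16772192) (l 1)) (l 1))) (a (a (b (b (l 531476271) (b (l 16773848) (l 16772952))) (b (b (l 16771664) (l 1)) (l 1))) (a (b (b (b (l 16774944) (l 16774368)) (b (l 16773704) (l 16772800))) (b (b (l 16771504) (l 1)) (l 1))) (a (b (b (b (l 16774880) (l 16774296)) (b (l 16773632) (l 16772728))) (b (b (l 16771424) (l 1)) (l 1))) (b (b (b (l 16774832) (l 16774248)) (b (l 16773584) (l 16772672))) (b (b (l 16771368) (l 1)) (l 1)))))) (b (b (b (l 16774624) (l 16774040)) (b (l 16773376) (l 16772448))) (b (b (l 16771128) (l 1)) (l 1))))) (b (b (l 531479903) (b (l 16772416) (l 16771440))) (b (b (l 16770064) (l 1)) (l 1))))), by decide +kernel⟩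

def k20_B04pp_123_s1 : ∃ t, chk3 f_B04pp_123_s1 t 41 15 1 = true :=
  ⟨(l 1), by decide +kernel⟩

def k21_B04pp_123_s1 : ∃ t, chk3 f_B04pp_123_s1 t 21 7 1 = true :=
  ⟨(b (a (b (l 531995999) (b (b (l 531478623) (a (b (l 16775920) (l 16774552)) (l 16751568))) (a (b (c (l 16772152) (l 7012864151)) (l 1)) (l 1)))) (b (l 532037487) (b (l 531209567) (l 1)))) (l 1)), by decide +kernel⟩

def k22_B04pp_123_s1 : ∃ t, chk3 f_B04pp_123_s1 t 11 7 1 = true :=
  ⟨(b (b (a (b (l 532313951) (l 531769439)) (b (l 16665416) (l 1))) (l 1)) (l 1)), by decide +kernel⟩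

def k23_B04pp_123_s1 : ∃ t, chk3 f_B04pp_123_s1 t 3 7 1 = true :=
  ⟨(l 1), by decide +kernel⟩

theorem t24_B04pp_123_s1 : ∃ t, chk3 f_B04pp_123_s1 t 167 14 1 = true := ex3_b k18_B04pp_123_s1 k19_B04pp_123_s1

theorem t25_B04pp_123_s1 : ∃ t, chk3 f_B04pp_123_s1 t 83 14 1 = true := ex3_a k17_B04pp_123_s1 t24_B04pp_123_s1

theorem t26_B04pp_123_s1 : ∃ t, chk3 f_B04pp_123_s1 t 41 14 1 = true := ex3_a k16_B04pp_123_s1 t25_B04pp_123_s1

theorem t27_B04pp_123_s1 : ∃ t, chk3 f_B04pp_123_s1 t 41 7 1 = true := ex3_b t26_B04pp_123_s1 k20_B04pp_123_s1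

theorem t28_B04pp_123_s1 : ∃ t, chk3 f_B04pp_123_s1 t 20 7 1 = true := ex3_a k15_B04pp_123_s1 t27_B04pp_123_s1

theorem t29_B04pp_123_s1 : ∃ t, chk3 f_B04pp_123_s1 t 10 7 1 = true := ex3_a t28_B04pp_123_s1 k21_B04pp_123_s1

theorem t30_B04pp_123_s1 : ∃ t, chk3 f_B04pp_123_s1 t 5 7 1 = true := ex3_a t29_B04pp_123_s1 k22_B04pp_123_s1

theorem t31_B04pp_123_s1 : ∃ t, chk3 f_B04pp_123_s1 t 2 7 1 = true := ex3_a k14_B04pp_123_s1 t30_B04pp_123_s1

theorem t32_B04pp_123_s1 : ∃ t, chk3 f_B04pp_123_s1 t 1 7 1 = true := ex3_a t31_B04pp_123_s1 k23_B04pp_123_s1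

theorem t33_B04pp_123_s1 : ∃ t, chk3 f_B04pp_123_s1 t 167 13 1 = true := ex3_a k9_B04pp_123_s1 k10_B04pp_123_s1

theorem t34_B04pp_123_s1 : ∃ t, chk3 f_B04pp_123_s1 t 83 13 1 = true := ex3_a k8_B04pp_123_s1 t33_B04pp_123_s1

theorem t35_B04pp_123_s1 : ∃ t, chk3 f_B04pp_123_s1 t 41 13 1 = true := ex3_a k7_B04pp_123_s1 t34_B04pp_123_s1

theorem t36_B04pp_123_s1 : ∃ t, chk3 f_B04pp_123_s1 t 41 6 1 = true := ex3_b k6_B04pp_123_s1 t35_B04pp_123_s1

theorem t37_B04pp_123_s1 : ∃ t, chk3 f_B04pp_123_s1 t 20 6 1 = true := ex3_a k5_B04pp_123_s1 t36_B04pp_123_s1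

theorem t38_B04pp_123_s1 : ∃ t, chk3 f_B04pp_123_s1 t 10 6 1 = true := ex3_a t37_B04pp_123_s1 k11_B04pp_123_s1

theorem t39_B04pp_123_s1 : ∃ t, chk3 f_B04pp_123_s1 t 5 6 1 = true := ex3_a t38_B04pp_123_s1 k12_B04pp_123_s1

theorem t40_B04pp_123_s1 : ∃ t, chk3 f_B04pp_123_s1 t 2 6 1 = true := ex3_a k4_B04pp_123_s1 t39_B04pp_123_s1

theorem t41_B04pp_123_s1 : ∃ t, chk3 f_B04pp_123_s1 t 1 6 1 = true := ex3_a t40_B04pp_123_s1 k13_B04pp_123_s1

theorem t42_B04pp_123_s1 : ∃ t, chk3 f_B04pp_123_s1 t 1 3 1 = true := ex3_b t41_B04pp_123_s1 t32_B04pp_123_s1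

theorem t43_B04pp_123_s1 : ∃ t, chk3 f_B04pp_123_s1 t 4 2 1 = true := ex3_b k0_B04pp_123_s1 k1_B04pp_123_s1

theorem t44_B04pp_123_s1 : ∃ t, chk3 f_B04pp_123_s1 t 2 2 1 = true := ex3_a t43_B04pp_123_s1 k2_B04pp_123_s1

theorem t45_B04pp_123_s1 : ∃ t, chk3 f_B04pp_123_s1 t 1 2 1 = true := ex3_a t44_B04pp_123_s1 k3_B04pp_123_s1

theorem t46_B04pp_123_s1 : ∃ t, chk3 f_B04pp_123_s1 t 1 1 1 = true := ex3_b t45_B04pp_123_s1 t42_B04pp_123_s1

theorem c_B04pp_123_s1 : CertF 536870912 536870912 0 1230186008 818728140 40265320 false true true .npn 1 2 3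
    ndB0q1 ndB4q3 pcB2 cut_B04pp_123_s1 xt_B04pp_123_s1 :=
  certF2 (fam := false) (s1 := true) (s2 := true) (a := 1) (b := 2) (c := 3) (cn := .npn) (n1 := ndB0q1) (n2 := ndB4q3) (pc := pcB2) (cut := cut_B04pp_123_s1) (xt := xt_B04pp_123_s1) (P1 := 536870912) (W1 := 536870912) (P2 := 0) (W2 := 1230186008) (P3 := 818728140) (W3 := 40265320)
    rfl (fun _ => rfl) t46_B04pp_123_s1

theorem s_B04pp_123_s1 {κ x : ℝ} (hκ : κ * h0 = ken x) (hx : ((818728140 : ℕ) : ℝ) / S ≤ x)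
    (hx' : x ≤ (((818728140 : ℕ) : ℝ) + (40265320 : ℕ)) / S)
    (H : CutB (VFD κ) PP tK tL pcB (Cut.of [[⟨0, 1, 0, 67108864⟩, ⟨1, 1, 0, 67108864⟩, ⟨2, 2, 0, 16777216⟩]]) 1 2 3 0 4 (sgb true) (sgb true) x) :
    AltB (VFD κ) PP tK tL pcB [⟨3, 0, 0, 1449551462⟩] 1 2 3 0 4 (sgb true) (sgb true) x :=
  strip_altBD (m := 1449551462) true rfl hκ (SH.κ0 hκ (SH.hx1 hx).le (SH.hx2 hx').le) (SH.hx1 hx).le (SH.hx2 hx') (covB01).cov (covB43).cov hx hx' c_B04pp_123_s1 H ((okx hx hx').extB (T := tt) (sideB hx hx') hκ rfl rfl (.O 1 true) (.N 3 true) rfl)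

noncomputable def cut_B04pp_133_s1 : Cut := Cut.of [[⟨4, 0, 0, 1449551462⟩]]

noncomputable def f_B04pp_133_s1 : ℕ → ℕ → ℕ → ℕ → Bool := onCell 1610612736 536870912 0 1230186008 818728140 40265320
    (rowF 2 false true true .dn 1 3 3 (qsf 536870912 536870912 0 1230186008 3) ndB0q1 ndB4q3 pcB3 cut_B04pp_133_s1 Ext.none)

def k0_B04pp_133_s1 : ∃ t, chk3 f_B04pp_133_s1 t 1 1 1 = true :=
  ⟨(b (l 6) (l 1)), by decide +kernel⟩

theorem c_B04pp_133_s1 : CertF 536870912 536870912 0 1230186008 818728140 40265320 false true true .dn 1 3 3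
    ndB0q1 ndB4q3 pcB3 cut_B04pp_133_s1 Ext.none :=
  certF2 (fam := false) (s1 := true) (s2 := true) (a := 1) (b := 3) (c := 3) (cn := .dn) (n1 := ndB0q1) (n2 := ndB4q3) (pc := pcB3) (cut := cut_B04pp_133_s1) (xt := Ext.none) (P1 := 536870912) (W1 := 536870912) (P2 := 0) (W2 := 1230186008) (P3 := 818728140) (W3 := 40265320)
    rfl (fun _ => rfl) k0_B04pp_133_s1

theorem s_B04pp_133_s1 {κ x : ℝ} (hκ : κ * h0 = ken x) (hx : ((818728140 : ℕ) : ℝ) / S ≤ x)
    (hx' : x ≤ (((818728140 : ℕ) : ℝ) + (40265320 : ℕ)) / S) :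
    AltB (VFD κ) PP tK tL pcB [⟨3, 0, 0, 1449551462⟩] 1 3 3 0 4 (sgb true) (sgb true) x :=
  strip_altBD (m := 1449551462) true rfl hκ (SH.κ0 hκ (SH.hx1 hx).le (SH.hx2 hx').le) (SH.hx1 hx).le (SH.hx2 hx') (covB01).cov (covB43).cov hx hx' c_B04pp_133_s1 cutB_nil (noExt_B)

noncomputable def cut_B04pp_202_s1 : Cut := Cut.of [[⟨4, 0, 0, 1449551462⟩]]

noncomputable def f_B04pp_202_s1 : ℕ → ℕ → ℕ → ℕ → Bool := onCell 0 536870912 1073741824 536870912 818728140 40265320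
    (rowF 0 false true true .pp 2 0 2 (qsf 0 536870912 1073741824 536870912 0) ndB0q2 ndB4q2 pcB0 cut_B04pp_202_s1 Ext.none)

def k0_B04pp_202_s1 : ∃ t, chk3 f_B04pp_202_s1 t 1 1 1 = true :=
  ⟨(l 5), by decide +kernel⟩

theorem c_B04pp_202_s1 : CertF 0 536870912 1073741824 536870912 818728140 40265320 false true true .pp 2 0 2
    ndB0q2 ndB4q2 pcB0 cut_B04pp_202_s1 Ext.none :=
  certF0 (fam := false) (s1 := true) (s2 := true) (a := 2) (b := 0) (c := 2) (cn := .pp) (n1 := ndB0q2) (n2 := ndB4q2) (pc := pcB0) (cut := cut_B04pp_202_s1) (xt := Ext.none) (P1 := 0) (W1 := 536870912) (P2 := 1073741824) (W2 := 536870912) (P3 := 818728140) (W3 := 40265320)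
    rfl k0_B04pp_202_s1

theorem s_B04pp_202_s1 {κ x : ℝ} (hκ : κ * h0 = ken x) (hx : ((818728140 : ℕ) : ℝ) / S ≤ x)
    (hx' : x ≤ (((818728140 : ℕ) : ℝ) + (40265320 : ℕ)) / S) :
    AltB (VFD κ) PP tK tL pcB [⟨3, 0, 0, 1449551462⟩] 2 0 2 0 4 (sgb true) (sgb true) x :=
  strip_altBD (m := 1449551462) true rfl hκ (SH.κ0 hκ (SH.hx1 hx).le (SH.hx2 hx').le) (SH.hx1 hx).le (SH.hx2 hx') (covB02).cov (covB42).cov hx hx' c_B04pp_202_s1 cutB_nil (noExt_B)

noncomputable def cut_B04pp_203_s1 : Cut := Cut.of [[⟨4, 0, 0, 1449551462⟩]]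

noncomputable def f_B04pp_203_s1 : ℕ → ℕ → ℕ → ℕ → Bool := onCell 0 536870912 0 1230186008 818728140 40265320
    (rowF 0 false true true .up 2 0 3 (qsf 0 536870912 0 1230186008 0) ndB0q2 ndB4q3 pcB0 cut_B04pp_203_s1 Ext.none)

def k0_B04pp_203_s1 : ∃ t, chk3 f_B04pp_203_s1 t 1 1 1 = true :=
  ⟨(b (l 2) (b (l 2) (a (l 5) (l 3)))), by decide +kernel⟩

theorem c_B04pp_203_s1 : CertF 0 536870912 0 1230186008 818728140 40265320 false true true .up 2 0 3
    ndB0q2 ndB4q3 pcB0 cut_B04pp_203_s1 Ext.none :=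
  certF0 (fam := false) (s1 := true) (s2 := true) (a := 2) (b := 0) (c := 3) (cn := .up) (n1 := ndB0q2) (n2 := ndB4q3) (pc := pcB0) (cut := cut_B04pp_203_s1) (xt := Ext.none) (P1 := 0) (W1 := 536870912) (P2 := 0) (W2 := 1230186008) (P3 := 818728140) (W3 := 40265320)
    rfl k0_B04pp_203_s1

theorem s_B04pp_203_s1 {κ x : ℝ} (hκ : κ * h0 = ken x) (hx : ((818728140 : ℕ) : ℝ) / S ≤ x)
    (hx' : x ≤ (((818728140 : ℕ) : ℝ) + (40265320 : ℕ)) / S) :
    AltB (VFD κ) PP tK tL pcB [⟨3, 0, 0, 1449551462⟩] 2 0 3 0 4 (sgb true) (sgb true) x :=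
  strip_altBD (m := 1449551462) true rfl hκ (SH.κ0 hκ (SH.hx1 hx).le (SH.hx2 hx').le) (SH.hx1 hx).le (SH.hx2 hx') (covB02).cov (covB43).cov hx hx' c_B04pp_203_s1 cutB_nil (noExt_B)

noncomputable def cut_B04pp_213_s1 : Cut := Cut.of [[⟨4, 0, 0, 1449551462⟩], [⟨0, 1, 0, 67108864⟩, ⟨1, 1, 0, 67108864⟩, ⟨2, 2, 0, 16777216⟩]]

noncomputable def f_B04pp_213_s1 : ℕ → ℕ → ℕ → ℕ → Bool := onCell 0 536870912 0 1230186008 818728140 40265320
    (rowF 0 false true true .pnn 2 1 3 (qsf 0 536870912 0 1230186008 1) ndB0q2 ndB4q3 pcB1 cut_B04pp_213_s1 Ext.none)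

def k0_B04pp_213_s1 : ∃ t, chk3 f_B04pp_213_s1 t 1 1 1 = true :=
  ⟨(a (b (l 3) (l 5)) (b (b (a (l 3) (b (a (l 3) (l 14)) (l 3))) (l 3)) (b (l 3) (l 3)))), by decide +kernel⟩

theorem c_B04pp_213_s1 : CertF 0 536870912 0 1230186008 818728140 40265320 false true true .pnn 2 1 3
    ndB0q2 ndB4q3 pcB1 cut_B04pp_213_s1 Ext.none :=
  certF0 (fam := false) (s1 := true) (s2 := true) (a := 2) (b := 1) (c := 3) (cn := .pnn) (n1 := ndB0q2) (n2 := ndB4q3) (pc := pcB1) (cut := cut_B04pp_213_s1) (xt := Ext.none) (P1 := 0) (W1 := 536870912) (P2 := 0) (W2 := 1230186008) (P3 := 818728140) (W3 := 40265320)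
    rfl k0_B04pp_213_s1

theorem s_B04pp_213_s1 {κ x : ℝ} (hκ : κ * h0 = ken x) (hx : ((818728140 : ℕ) : ℝ) / S ≤ x)
    (hx' : x ≤ (((818728140 : ℕ) : ℝ) + (40265320 : ℕ)) / S)
    (H : CutB (VFD κ) PP tK tL pcB (Cut.of [[⟨0, 1, 0, 67108864⟩, ⟨1, 1, 0, 67108864⟩, ⟨2, 2, 0, 16777216⟩]]) 2 1 3 0 4 (sgb true) (sgb true) x) :
    AltB (VFD κ) PP tK tL pcB [⟨3, 0, 0, 1449551462⟩] 2 1 3 0 4 (sgb true) (sgb true) x :=
  strip_altBD (m := 1449551462) true rfl hκ (SH.κ0 hκ (SH.hx1 hx).le (SH.hx2 hx').le) (SH.hx1 hx).le (SH.hx2 hx') (covB02).cov (covB43).cov hx hx' c_B04pp_213_s1 H (noExt_B)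

noncomputable def cut_B04pm_001_s1 : Cut := Cut.of [[⟨4, 0, 0, 1449551462⟩]]

noncomputable def f_B04pm_001_s1 : ℕ → ℕ → ℕ → ℕ → Bool := onCell 0 536870912 536870912 536870912 818728140 40265320
    (rowF 0 false true false .up 0 0 1 (qsf 0 536870912 536870912 536870912 0) ndB0q0 ndB4q1 pcB0 cut_B04pm_001_s1 Ext.none)

def k0_B04pm_001_s1 : ∃ t, chk3 f_B04pm_001_s1 t 1 1 1 = true :=
  ⟨(l 4), by decide +kernel⟩

theorem c_B04pm_001_s1 : CertF 0 536870912 536870912 536870912 818728140 40265320 false true false .up 0 0 1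
    ndB0q0 ndB4q1 pcB0 cut_B04pm_001_s1 Ext.none :=
  certF0 (fam := false) (s1 := true) (s2 := false) (a := 0) (b := 0) (c := 1) (cn := .up) (n1 := ndB0q0) (n2 := ndB4q1) (pc := pcB0) (cut := cut_B04pm_001_s1) (xt := Ext.none) (P1 := 0) (W1 := 536870912) (P2 := 536870912) (W2 := 536870912) (P3 := 818728140) (W3 := 40265320)
    rfl k0_B04pm_001_s1

theorem s_B04pm_001_s1 {κ x : ℝ} (hκ : κ * h0 = ken x) (hx : ((818728140 : ℕ) : ℝ) / S ≤ x)
    (hx' : x ≤ (((818728140 : ℕ) : ℝ) + (40265320 : ℕ)) / S) :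
    AltB (VFD κ) PP tK tL pcB [⟨3, 0, 0, 1449551462⟩] 0 0 1 0 4 (sgb true) (sgb false) x :=
  strip_altBD (m := 1449551462) true rfl hκ (SH.κ0 hκ (SH.hx1 hx).le (SH.hx2 hx').le) (SH.hx1 hx).le (SH.hx2 hx') (covB00).cov (covB41).cov hx hx' c_B04pm_001_s1 cutB_nil (noExt_B)

noncomputable def cut_B04pm_011_s1 : Cut := Cut.of [[⟨4, 0, 0, 1449551462⟩]]

noncomputable def f_B04pm_011_s1 : ℕ → ℕ → ℕ → ℕ → Bool := onCell 0 536870912 536870912 536870912 818728140 40265320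
    (rowF 0 false true false .pnn 0 1 1 (qsf 0 536870912 536870912 536870912 1) ndB0q0 ndB4q1 pcB1 cut_B04pm_011_s1 Ext.none)

def k0_B04pm_011_s1 : ∃ t, chk3 f_B04pm_011_s1 t 1 1 1 = true :=
  ⟨(l 4), by decide +kernel⟩

theorem c_B04pm_011_s1 : CertF 0 536870912 536870912 536870912 818728140 40265320 false true false .pnn 0 1 1
    ndB0q0 ndB4q1 pcB1 cut_B04pm_011_s1 Ext.none :=
  certF0 (fam := false) (s1 := true) (s2 := false) (a := 0) (b := 1) (c := 1) (cn := .pnn) (n1 := ndB0q0) (n2 := ndB4q1) (pc := pcB1) (cut := cut_B04pm_011_s1) (xt := Ext.none) (P1 := 0) (W1 := 536870912) (P2 := 536870912) (W2 := 536870912) (P3 := 818728140) (W3 := 40265320)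
    rfl k0_B04pm_011_s1

theorem s_B04pm_011_s1 {κ x : ℝ} (hκ : κ * h0 = ken x) (hx : ((818728140 : ℕ) : ℝ) / S ≤ x)
    (hx' : x ≤ (((818728140 : ℕ) : ℝ) + (40265320 : ℕ)) / S) :
    AltB (VFD κ) PP tK tL pcB [⟨3, 0, 0, 1449551462⟩] 0 1 1 0 4 (sgb true) (sgb false) x :=
  strip_altBD (m := 1449551462) true rfl hκ (SH.κ0 hκ (SH.hx1 hx).le (SH.hx2 hx').le) (SH.hx1 hx).le (SH.hx2 hx') (covB00).cov (covB41).cov hx hx' c_B04pm_011_s1 cutB_nil (noExt_B)

noncomputable def cut_B04pm_012_s1 : Cut := Cut.of [[⟨4, 0, 0, 1449551462⟩]]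

noncomputable def f_B04pm_012_s1 : ℕ → ℕ → ℕ → ℕ → Bool := onCell 0 536870912 1073741824 536870912 818728140 40265320
    (rowF 0 false true false .pnp 0 1 2 (qsf 0 536870912 1073741824 536870912 1) ndB0q0 ndB4q2 pcB1 cut_B04pm_012_s1 Ext.none)

def k0_B04pm_012_s1 : ∃ t, chk3 f_B04pm_012_s1 t 1 1 1 = true :=
  ⟨(l 4), by decide +kernel⟩

theorem c_B04pm_012_s1 : CertF 0 536870912 1073741824 536870912 818728140 40265320 false true false .pnp 0 1 2
    ndB0q0 ndB4q2 pcB1 cut_B04pm_012_s1 Ext.none :=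
  certF0 (fam := false) (s1 := true) (s2 := false) (a := 0) (b := 1) (c := 2) (cn := .pnp) (n1 := ndB0q0) (n2 := ndB4q2) (pc := pcB1) (cut := cut_B04pm_012_s1) (xt := Ext.none) (P1 := 0) (W1 := 536870912) (P2 := 1073741824) (W2 := 536870912) (P3 := 818728140) (W3 := 40265320)
    rfl k0_B04pm_012_s1

theorem s_B04pm_012_s1 {κ x : ℝ} (hκ : κ * h0 = ken x) (hx : ((818728140 : ℕ) : ℝ) / S ≤ x)
    (hx' : x ≤ (((818728140 : ℕ) : ℝ) + (40265320 : ℕ)) / S) :
    AltB (VFD κ) PP tK tL pcB [⟨3, 0, 0, 1449551462⟩] 0 1 2 0 4 (sgb true) (sgb false) x :=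
  strip_altBD (m := 1449551462) true rfl hκ (SH.κ0 hκ (SH.hx1 hx).le (SH.hx2 hx').le) (SH.hx1 hx).le (SH.hx2 hx') (covB00).cov (covB42).cov hx hx' c_B04pm_012_s1 cutB_nil (noExt_B)

noncomputable def cut_B04pm_022_s1 : Cut := Cut.of [[⟨4, 0, 0, 1449551462⟩]]

noncomputable def f_B04pm_022_s1 : ℕ → ℕ → ℕ → ℕ → Bool := onCell 0 536870912 1073741824 536870912 818728140 40265320
    (rowF 0 false true false .pp 0 2 2 (qsf 0 536870912 1073741824 536870912 2) ndB0q0 ndB4q2 pcB2 cut_B04pm_022_s1 Ext.none)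

def k0_B04pm_022_s1 : ∃ t, chk3 f_B04pm_022_s1 t 1 1 1 = true :=
  ⟨(l 4), by decide +kernel⟩

theorem c_B04pm_022_s1 : CertF 0 536870912 1073741824 536870912 818728140 40265320 false true false .pp 0 2 2
    ndB0q0 ndB4q2 pcB2 cut_B04pm_022_s1 Ext.none :=
  certF0 (fam := false) (s1 := true) (s2 := false) (a := 0) (b := 2) (c := 2) (cn := .pp) (n1 := ndB0q0) (n2 := ndB4q2) (pc := pcB2) (cut := cut_B04pm_022_s1) (xt := Ext.none) (P1 := 0) (W1 := 536870912) (P2 := 1073741824) (W2 := 536870912) (P3 := 818728140) (W3 := 40265320)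
    rfl k0_B04pm_022_s1

theorem s_B04pm_022_s1 {κ x : ℝ} (hκ : κ * h0 = ken x) (hx : ((818728140 : ℕ) : ℝ) / S ≤ x)
    (hx' : x ≤ (((818728140 : ℕ) : ℝ) + (40265320 : ℕ)) / S) :
    AltB (VFD κ) PP tK tL pcB [⟨3, 0, 0, 1449551462⟩] 0 2 2 0 4 (sgb true) (sgb false) x :=
  strip_altBD (m := 1449551462) true rfl hκ (SH.κ0 hκ (SH.hx1 hx).le (SH.hx2 hx').le) (SH.hx1 hx).le (SH.hx2 hx') (covB00).cov (covB42).cov hx hx' c_B04pm_022_s1 cutB_nil (noExt_B)

noncomputable def cut_B04pm_023_s1 : Cut := Cut.of [[⟨4, 0, 0, 1449551462⟩]]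

noncomputable def f_B04pm_023_s1 : ℕ → ℕ → ℕ → ℕ → Bool := onCell 0 536870912 0 1230186008 818728140 40265320
    (rowF 0 false true false .up 0 2 3 (qsf 0 536870912 0 1230186008 2) ndB0q0 ndB4q3 pcB2 cut_B04pm_023_s1 Ext.none)

def k0_B04pm_023_s1 : ∃ t, chk3 f_B04pm_023_s1 t 1 1 1 = true :=
  ⟨(l 6), by decide +kernel⟩

theorem c_B04pm_023_s1 : CertF 0 536870912 0 1230186008 818728140 40265320 false true false .up 0 2 3
    ndB0q0 ndB4q3 pcB2 cut_B04pm_023_s1 Ext.none :=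
  certF0 (fam := false) (s1 := true) (s2 := false) (a := 0) (b := 2) (c := 3) (cn := .up) (n1 := ndB0q0) (n2 := ndB4q3) (pc := pcB2) (cut := cut_B04pm_023_s1) (xt := Ext.none) (P1 := 0) (W1 := 536870912) (P2 := 0) (W2 := 1230186008) (P3 := 818728140) (W3 := 40265320)
    rfl k0_B04pm_023_s1

theorem s_B04pm_023_s1 {κ x : ℝ} (hκ : κ * h0 = ken x) (hx : ((818728140 : ℕ) : ℝ) / S ≤ x)
    (hx' : x ≤ (((818728140 : ℕ) : ℝ) + (40265320 : ℕ)) / S) :
    AltB (VFD κ) PP tK tL pcB [⟨3, 0, 0, 1449551462⟩] 0 2 3 0 4 (sgb true) (sgb false) x :=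
  strip_altBD (m := 1449551462) true rfl hκ (SH.κ0 hκ (SH.hx1 hx).le (SH.hx2 hx').le) (SH.hx1 hx).le (SH.hx2 hx') (covB00).cov (covB43).cov hx hx' c_B04pm_023_s1 cutB_nil (noExt_B)

noncomputable def cut_B04pm_033_s1 : Cut := Cut.of [[⟨4, 0, 0, 1449551462⟩]]

noncomputable def f_B04pm_033_s1 : ℕ → ℕ → ℕ → ℕ → Bool := onCell 0 536870912 0 1230186008 818728140 40265320
    (rowF 0 false true false .pnn 0 3 3 (qsf 0 536870912 0 1230186008 3) ndB0q0 ndB4q3 pcB3 cut_B04pm_033_s1 Ext.none)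

def k0_B04pm_033_s1 : ∃ t, chk3 f_B04pm_033_s1 t 1 1 1 = true :=
  ⟨(l 6), by decide +kernel⟩

theorem c_B04pm_033_s1 : CertF 0 536870912 0 1230186008 818728140 40265320 false true false .pnn 0 3 3
    ndB0q0 ndB4q3 pcB3 cut_B04pm_033_s1 Ext.none :=
  certF0 (fam := false) (s1 := true) (s2 := false) (a := 0) (b := 3) (c := 3) (cn := .pnn) (n1 := ndB0q0) (n2 := ndB4q3) (pc := pcB3) (cut := cut_B04pm_033_s1) (xt := Ext.none) (P1 := 0) (W1 := 536870912) (P2 := 0) (W2 := 1230186008) (P3 := 818728140) (W3 := 40265320)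
    rfl k0_B04pm_033_s1

theorem s_B04pm_033_s1 {κ x : ℝ} (hκ : κ * h0 = ken x) (hx : ((818728140 : ℕ) : ℝ) / S ≤ x)
    (hx' : x ≤ (((818728140 : ℕ) : ℝ) + (40265320 : ℕ)) / S) :
    AltB (VFD κ) PP tK tL pcB [⟨3, 0, 0, 1449551462⟩] 0 3 3 0 4 (sgb true) (sgb false) x :=
  strip_altBD (m := 1449551462) true rfl hκ (SH.κ0 hκ (SH.hx1 hx).le (SH.hx2 hx').le) (SH.hx1 hx).le (SH.hx2 hx') (covB00).cov (covB43).cov hx hx' c_B04pm_033_s1 cutB_nil (noExt_B)

noncomputable def cut_B04pm_101_s1 : Cut := Cut.of [[⟨4, 0, 0, 1449551462⟩]]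

noncomputable def f_B04pm_101_s1 : ℕ → ℕ → ℕ → ℕ → Bool := onCell 536870912 536870912 536870912 536870912 818728140 40265320
    (rowF 0 false true false .npn 1 0 1 (qsf 536870912 536870912 536870912 536870912 0) ndB0q1 ndB4q1 pcB0 cut_B04pm_101_s1 Ext.none)

def k0_B04pm_101_s1 : ∃ t, chk3 f_B04pm_101_s1 t 1 1 1 = true :=
  ⟨(l 4), by decide +kernel⟩

theorem c_B04pm_101_s1 : CertF 536870912 536870912 536870912 536870912 818728140 40265320 false true false .npn 1 0 1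
    ndB0q1 ndB4q1 pcB0 cut_B04pm_101_s1 Ext.none :=
  certF0 (fam := false) (s1 := true) (s2 := false) (a := 1) (b := 0) (c := 1) (cn := .npn) (n1 := ndB0q1) (n2 := ndB4q1) (pc := pcB0) (cut := cut_B04pm_101_s1) (xt := Ext.none) (P1 := 536870912) (W1 := 536870912) (P2 := 536870912) (W2 := 536870912) (P3 := 818728140) (W3 := 40265320)
    rfl k0_B04pm_101_s1

theorem s_B04pm_101_s1 {κ x : ℝ} (hκ : κ * h0 = ken x) (hx : ((818728140 : ℕ) : ℝ) / S ≤ x)
    (hx' : x ≤ (((818728140 : ℕ) : ℝ) + (40265320 : ℕ)) / S) :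
    AltB (VFD κ) PP tK tL pcB [⟨3, 0, 0, 1449551462⟩] 1 0 1 0 4 (sgb true) (sgb false) x :=
  strip_altBD (m := 1449551462) true rfl hκ (SH.κ0 hκ (SH.hx1 hx).le (SH.hx2 hx').le) (SH.hx1 hx).le (SH.hx2 hx') (covB01).cov (covB41).cov hx hx' c_B04pm_101_s1 cutB_nil (noExt_B)

noncomputable def cut_B04pm_102_s1 : Cut := Cut.of [[⟨4, 0, 0, 1449551462⟩]]

noncomputable def f_B04pm_102_s1 : ℕ → ℕ → ℕ → ℕ → Bool := onCell 536870912 536870912 1073741824 536870912 818728140 40265320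
    (rowF 0 false true false .npp 1 0 2 (qsf 536870912 536870912 1073741824 536870912 0) ndB0q1 ndB4q2 pcB0 cut_B04pm_102_s1 Ext.none)

def k0_B04pm_102_s1 : ∃ t, chk3 f_B04pm_102_s1 t 1 1 1 = true :=
  ⟨(l 6), by decide +kernel⟩

theorem c_B04pm_102_s1 : CertF 536870912 536870912 1073741824 536870912 818728140 40265320 false true false .npp 1 0 2
    ndB0q1 ndB4q2 pcB0 cut_B04pm_102_s1 Ext.none :=
  certF0 (fam := false) (s1 := true) (s2 := false) (a := 1) (b := 0) (c := 2) (cn := .npp) (n1 := ndB0q1) (n2 := ndB4q2) (pc := pcB0) (cut := cut_B04pm_102_s1) (xt := Ext.none) (P1 := 536870912) (W1 := 536870912) (P2 := 1073741824) (W2 := 536870912) (P3 := 818728140) (W3 := 40265320)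
    rfl k0_B04pm_102_s1

theorem s_B04pm_102_s1 {κ x : ℝ} (hκ : κ * h0 = ken x) (hx : ((818728140 : ℕ) : ℝ) / S ≤ x)
    (hx' : x ≤ (((818728140 : ℕ) : ℝ) + (40265320 : ℕ)) / S) :
    AltB (VFD κ) PP tK tL pcB [⟨3, 0, 0, 1449551462⟩] 1 0 2 0 4 (sgb true) (sgb false) x :=
  strip_altBD (m := 1449551462) true rfl hκ (SH.κ0 hκ (SH.hx1 hx).le (SH.hx2 hx').le) (SH.hx1 hx).le (SH.hx2 hx') (covB01).cov (covB42).cov hx hx' c_B04pm_102_s1 cutB_nil (noExt_B)

noncomputable def cut_B04pm_112_s1 : Cut := Cut.of [[⟨4, 0, 0, 1449551462⟩]]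

noncomputable def f_B04pm_112_s1 : ℕ → ℕ → ℕ → ℕ → Bool := onCell 536870912 536870912 1073741824 536870912 818728140 40265320
    (rowF 0 false true false .dn 1 1 2 (qsf 536870912 536870912 1073741824 536870912 1) ndB0q1 ndB4q2 pcB1 cut_B04pm_112_s1 Ext.none)

def k0_B04pm_112_s1 : ∃ t, chk3 f_B04pm_112_s1 t 1 1 1 = true :=
  ⟨(l 6), by decide +kernel⟩

theorem c_B04pm_112_s1 : CertF 536870912 536870912 1073741824 536870912 818728140 40265320 false true false .dn 1 1 2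
    ndB0q1 ndB4q2 pcB1 cut_B04pm_112_s1 Ext.none :=
  certF0 (fam := false) (s1 := true) (s2 := false) (a := 1) (b := 1) (c := 2) (cn := .dn) (n1 := ndB0q1) (n2 := ndB4q2) (pc := pcB1) (cut := cut_B04pm_112_s1) (xt := Ext.none) (P1 := 536870912) (W1 := 536870912) (P2 := 1073741824) (W2 := 536870912) (P3 := 818728140) (W3 := 40265320)
    rfl k0_B04pm_112_s1

theorem s_B04pm_112_s1 {κ x : ℝ} (hκ : κ * h0 = ken x) (hx : ((818728140 : ℕ) : ℝ) / S ≤ x)
    (hx' : x ≤ (((818728140 : ℕ) : ℝ) + (40265320 : ℕ)) / S) :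
    AltB (VFD κ) PP tK tL pcB [⟨3, 0, 0, 1449551462⟩] 1 1 2 0 4 (sgb true) (sgb false) x :=
  strip_altBD (m := 1449551462) true rfl hκ (SH.κ0 hκ (SH.hx1 hx).le (SH.hx2 hx').le) (SH.hx1 hx).le (SH.hx2 hx') (covB01).cov (covB42).cov hx hx' c_B04pm_112_s1 cutB_nil (noExt_B)

noncomputable def cut_B04pm_113_s1 : Cut := Cut.of [[⟨4, 0, 0, 1449551462⟩], [⟨0, 1, 0, 67108864⟩, ⟨1, 1, 0, 67108864⟩, ⟨2, 2, 0, 16777216⟩]]

noncomputable def f_B04pm_113_s1 : ℕ → ℕ → ℕ → ℕ → Bool := onCell 536870912 536870912 0 1230186008 818728140 40265320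
    (rowF 0 false true false .nn 1 1 3 (qsf 536870912 536870912 0 1230186008 1) ndB0q1 ndB4q3 pcB1 cut_B04pm_113_s1 Ext.none)

def k0_B04pm_113_s1 : ∃ t, chk3 f_B04pm_113_s1 t 1 1 1 = true :=
  ⟨(b (a (l 2) (a (l 2) (b (a (l 2) (a (l 2) (b (l 14) (b (l 14) (l 16763984))))) (a (l 6) (b (a (l 6) (b (l 16768800) (l 6))) (l 6)))))) (b (l 6) (l 6))), by decide +kernel⟩

theorem c_B04pm_113_s1 : CertF 536870912 536870912 0 1230186008 818728140 40265320 false true false .nn 1 1 3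
    ndB0q1 ndB4q3 pcB1 cut_B04pm_113_s1 Ext.none :=
  certF0 (fam := false) (s1 := true) (s2 := false) (a := 1) (b := 1) (c := 3) (cn := .nn) (n1 := ndB0q1) (n2 := ndB4q3) (pc := pcB1) (cut := cut_B04pm_113_s1) (xt := Ext.none) (P1 := 536870912) (W1 := 536870912) (P2 := 0) (W2 := 1230186008) (P3 := 818728140) (W3 := 40265320)
    rfl k0_B04pm_113_s1

theorem s_B04pm_113_s1 {κ x : ℝ} (hκ : κ * h0 = ken x) (hx : ((818728140 : ℕ) : ℝ) / S ≤ x)
    (hx' : x ≤ (((818728140 : ℕ) : ℝ) + (40265320 : ℕ)) / S)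
    (H : CutB (VFD κ) PP tK tL pcB (Cut.of [[⟨0, 1, 0, 67108864⟩, ⟨1, 1, 0, 67108864⟩, ⟨2, 2, 0, 16777216⟩]]) 1 1 3 0 4 (sgb true) (sgb false) x) :
    AltB (VFD κ) PP tK tL pcB [⟨3, 0, 0, 1449551462⟩] 1 1 3 0 4 (sgb true) (sgb false) x :=
  strip_altBD (m := 1449551462) true rfl hκ (SH.κ0 hκ (SH.hx1 hx).le (SH.hx2 hx').le) (SH.hx1 hx).le (SH.hx2 hx') (covB01).cov (covB43).cov hx hx' c_B04pm_113_s1 H (noExt_B)

noncomputable def cut_B04pm_123_s1 : Cut := Cut.of [[⟨4, 0, 0, 1449551462⟩], [⟨0, 1, 0, 67108864⟩, ⟨1, 1, 0, 67108864⟩, ⟨2, 2, 0, 16777216⟩]]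

noncomputable def f_B04pm_123_s1 : ℕ → ℕ → ℕ → ℕ → Bool := onCell 1073741824 536870912 0 1230186008 818728140 40265320
    (rowF 2 false true false .npn 1 2 3 (qsf 536870912 536870912 0 1230186008 2) ndB0q1 ndB4q3 pcB2 cut_B04pm_123_s1 Ext.none)

def k0_B04pm_123_s1 : ∃ t, chk3 f_B04pm_123_s1 t 1 1 1 = true :=
  ⟨(b (a (a (b (a (b (a (l 14) (b (l 16616520) (l 16654688))) (a (b (l 14) (l 16550880)) (b (l 16596992) (l 6)))) (b (a (l 16652048) (l 16539672)) (l 6))) (b (l 6) (l 6))) (b (b (l 6) (l 6)) (l 6))) (l 6)) (l 6)), by decide +kernel⟩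

theorem c_B04pm_123_s1 : CertF 536870912 536870912 0 1230186008 818728140 40265320 false true false .npn 1 2 3
    ndB0q1 ndB4q3 pcB2 cut_B04pm_123_s1 Ext.none :=
  certF2 (fam := false) (s1 := true) (s2 := false) (a := 1) (b := 2) (c := 3) (cn := .npn) (n1 := ndB0q1) (n2 := ndB4q3) (pc := pcB2) (cut := cut_B04pm_123_s1) (xt := Ext.none) (P1 := 536870912) (W1 := 536870912) (P2 := 0) (W2 := 1230186008) (P3 := 818728140) (W3 := 40265320)
    rfl (fun _ => rfl) k0_B04pm_123_s1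

theorem s_B04pm_123_s1 {κ x : ℝ} (hκ : κ * h0 = ken x) (hx : ((818728140 : ℕ) : ℝ) / S ≤ x)
    (hx' : x ≤ (((818728140 : ℕ) : ℝ) + (40265320 : ℕ)) / S)
    (H : CutB (VFD κ) PP tK tL pcB (Cut.of [[⟨0, 1, 0, 67108864⟩, ⟨1, 1, 0, 67108864⟩, ⟨2, 2, 0, 16777216⟩]]) 1 2 3 0 4 (sgb true) (sgb false) x) :
    AltB (VFD κ) PP tK tL pcB [⟨3, 0, 0, 1449551462⟩] 1 2 3 0 4 (sgb true) (sgb false) x :=
  strip_altBD (m := 1449551462) true rfl hκ (SH.κ0 hκ (SH.hx1 hx).le (SH.hx2 hx').le) (SH.hx1 hx).le (SH.hx2 hx') (covB01).cov (covB43).cov hx hx' c_B04pm_123_s1 H (noExt_B)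

noncomputable def cut_B04pm_133_s1 : Cut := Cut.of [[⟨4, 0, 0, 1449551462⟩]]

noncomputable def f_B04pm_133_s1 : ℕ → ℕ → ℕ → ℕ → Bool := onCell 1610612736 536870912 0 1230186008 818728140 40265320
    (rowF 2 false true false .dn 1 3 3 (qsf 536870912 536870912 0 1230186008 3) ndB0q1 ndB4q3 pcB3 cut_B04pm_133_s1 Ext.none)

def k0_B04pm_133_s1 : ∃ t, chk3 f_B04pm_133_s1 t 1 1 1 = true :=
  ⟨(l 6), by decide +kernel⟩

theorem c_B04pm_133_s1 : CertF 536870912 536870912 0 1230186008 818728140 40265320 false true false .dn 1 3 3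
    ndB0q1 ndB4q3 pcB3 cut_B04pm_133_s1 Ext.none :=
  certF2 (fam := false) (s1 := true) (s2 := false) (a := 1) (b := 3) (c := 3) (cn := .dn) (n1 := ndB0q1) (n2 := ndB4q3) (pc := pcB3) (cut := cut_B04pm_133_s1) (xt := Ext.none) (P1 := 536870912) (W1 := 536870912) (P2 := 0) (W2 := 1230186008) (P3 := 818728140) (W3 := 40265320)
    rfl (fun _ => rfl) k0_B04pm_133_s1

theorem s_B04pm_133_s1 {κ x : ℝ} (hκ : κ * h0 = ken x) (hx : ((818728140 : ℕ) : ℝ) / S ≤ x)
    (hx' : x ≤ (((818728140 : ℕ) : ℝ) + (40265320 : ℕ)) / S) :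
    AltB (VFD κ) PP tK tL pcB [⟨3, 0, 0, 1449551462⟩] 1 3 3 0 4 (sgb true) (sgb false) x :=
  strip_altBD (m := 1449551462) true rfl hκ (SH.κ0 hκ (SH.hx1 hx).le (SH.hx2 hx').le) (SH.hx1 hx).le (SH.hx2 hx') (covB01).cov (covB43).cov hx hx' c_B04pm_133_s1 cutB_nil (noExt_B)

noncomputable def cut_B04pm_202_s1 : Cut := Cut.of [[⟨4, 0, 0, 1449551462⟩]]

noncomputable def f_B04pm_202_s1 : ℕ → ℕ → ℕ → ℕ → Bool := onCell 0 536870912 1073741824 536870912 818728140 40265320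
    (rowF 0 false true false .pp 2 0 2 (qsf 0 536870912 1073741824 536870912 0) ndB0q2 ndB4q2 pcB0 cut_B04pm_202_s1 Ext.none)

def k0_B04pm_202_s1 : ∃ t, chk3 f_B04pm_202_s1 t 1 1 1 = true :=
  ⟨(a (b (l 6) (b (l 6) (l 6))) (l 6)), by decide +kernel⟩

theorem c_B04pm_202_s1 : CertF 0 536870912 1073741824 536870912 818728140 40265320 false true false .pp 2 0 2
    ndB0q2 ndB4q2 pcB0 cut_B04pm_202_s1 Ext.none :=
  certF0 (fam := false) (s1 := true) (s2 := false) (a := 2) (b := 0) (c := 2) (cn := .pp) (n1 := ndB0q2) (n2 := ndB4q2) (pc := pcB0) (cut := cut_B04pm_202_s1) (xt := Ext.none) (P1 := 0) (W1 := 536870912) (P2 := 1073741824) (W2 := 536870912) (P3 := 818728140) (W3 := 40265320)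
    rfl k0_B04pm_202_s1

theorem s_B04pm_202_s1 {κ x : ℝ} (hκ : κ * h0 = ken x) (hx : ((818728140 : ℕ) : ℝ) / S ≤ x)
    (hx' : x ≤ (((818728140 : ℕ) : ℝ) + (40265320 : ℕ)) / S) :
    AltB (VFD κ) PP tK tL pcB [⟨3, 0, 0, 1449551462⟩] 2 0 2 0 4 (sgb true) (sgb false) x :=
  strip_altBD (m := 1449551462) true rfl hκ (SH.κ0 hκ (SH.hx1 hx).le (SH.hx2 hx').le) (SH.hx1 hx).le (SH.hx2 hx') (covB02).cov (covB42).cov hx hx' c_B04pm_202_s1 cutB_nil (noExt_B)

noncomputable def cut_B04pm_203_s1 : Cut := Cut.of [[⟨4, 0, 0, 1449551462⟩]]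

noncomputable def f_B04pm_203_s1 : ℕ → ℕ → ℕ → ℕ → Bool := onCell 0 536870912 0 1230186008 818728140 40265320
    (rowF 0 false true false .up 2 0 3 (qsf 0 536870912 0 1230186008 0) ndB0q2 ndB4q3 pcB0 cut_B04pm_203_s1 Ext.none)

def k0_B04pm_203_s1 : ∃ t, chk3 f_B04pm_203_s1 t 1 1 1 = true :=
  ⟨(b (l 2) (b (l 2) (a (b (b (l 2) (a (a (b (l 2) (l 16699136)) (l 16658256)) (a (l 16522232) (l 6)))) (a (b (a (b (l 16671680) (l 16636960)) (l 16600608)) (a (b (l 16606784) (l 16573352)) (l 6))) (l 6))) (l 6)))), by decide +kernel⟩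

theorem c_B04pm_203_s1 : CertF 0 536870912 0 1230186008 818728140 40265320 false true false .up 2 0 3
    ndB0q2 ndB4q3 pcB0 cut_B04pm_203_s1 Ext.none :=
  certF0 (fam := false) (s1 := true) (s2 := false) (a := 2) (b := 0) (c := 3) (cn := .up) (n1 := ndB0q2) (n2 := ndB4q3) (pc := pcB0) (cut := cut_B04pm_203_s1) (xt := Ext.none) (P1 := 0) (W1 := 536870912) (P2 := 0) (W2 := 1230186008) (P3 := 818728140) (W3 := 40265320)
    rfl k0_B04pm_203_s1

theorem s_B04pm_203_s1 {κ x : ℝ} (hκ : κ * h0 = ken x) (hx : ((818728140 : ℕ) : ℝ) / S ≤ x)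
    (hx' : x ≤ (((818728140 : ℕ) : ℝ) + (40265320 : ℕ)) / S) :
    AltB (VFD κ) PP tK tL pcB [⟨3, 0, 0, 1449551462⟩] 2 0 3 0 4 (sgb true) (sgb false) x :=
  strip_altBD (m := 1449551462) true rfl hκ (SH.κ0 hκ (SH.hx1 hx).le (SH.hx2 hx').le) (SH.hx1 hx).le (SH.hx2 hx') (covB02).cov (covB43).cov hx hx' c_B04pm_203_s1 cutB_nil (noExt_B)

noncomputable def cut_B04pm_213_s1 : Cut := Cut.of [[⟨4, 0, 0, 1449551462⟩], [⟨0, 1, 0, 67108864⟩, ⟨1, 1, 0, 67108864⟩, ⟨2, 2, 0, 16777216⟩]]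

noncomputable def xt_B04pm_213_s1 : Ext := strExt dd false true false .u2 .s2m .u0m .pnn 2 1 3 rfl rfl gf1 vv ndB0q2 ndB4q3

noncomputable def f_B04pm_213_s1 : ℕ → ℕ → ℕ → ℕ → Bool := onCell 0 536870912 0 1230186008 818728140 40265320
    (rowF 0 false true false .pnn 2 1 3 (qsf 0 536870912 0 1230186008 1) ndB0q2 ndB4q3 pcB1 cut_B04pm_213_s1 xt_B04pm_213_s1)

def k0_B04pm_213_s1 : ∃ t, chk3 f_B04pm_213_s1 t 1 2 1 = true :=
  ⟨(a (a (l 3) (b (l 3) (b (l 3) (a (a (l 3) (b (l 3) (l 535787279))) (b (l 535921679) (l 535880975)))))) (b (b (a (l 3) (a (a (l 3) (l 14)) (l 14))) (a (a (l 3) (a (l 3) (b (l 3) (l 536913423)))) (a (a (b (a (l 537017359) (l 537022991)) (a (l 537021199) (l 537019407))) (b (a (l 537038095) (l 14)) (a (l 537285135) (l 16781808)))) (b (a (a (l 14) (l 14)) (l 16784896)) (a (l 16785576) (l 16794080)))))) (b (a (a (a (b (l 3) (c (l 536196367) (l 535971855))) (b (a (l 3) (l 536476175)) (b (l 536376335)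 (a (l 536272655) (l 536410639))))) (b (a (l 536666639) (l 536872719)) (a (b (l 536634383) (l 16773056)) (l 16755736)))) (b (a (a (b (l 16779496) (l 16780536)) (l 16783136)) (a (l 16788192) (l 16798288))) (a (a (l 16781648) (l 16785280)) (l 16796176)))) (a (a (a (b (a (l 536029199) (l 536084239)) (l 16761600)) (b (b (l 16770496) (l 16765800)) (l 16757264))) (b (a (l 16768928) (l 16773688)) (l 16761384))) (a (b (l 16782256) (l 16777800)) (b (l 6) (l 6))))))), by decide +kernel⟩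

def k1_B04pm_213_s1 : ∃ t, chk3 f_B04pm_213_s1 t 1 3 1 = true :=
  ⟨(b (a (a (b (a (l 3) (b (l 3) (a (l 3) (b (l 536166159) (l 535344399))))) (a (b (l 534618383) (l 534446351)) (b (a (l 534717711) (b (l 535096335) (l 16749552))) (a (l 534216207) (l 16720608))))) (b (a (b (a (b (l 3) (l 535869455)) (b (l 535696143) (l 535681807))) (a (b (l 535643663) (l 535441167)) (b (l 16761880) (l 16748960)))) (b (a (b (l 535787279) (l 16759360)) (l 16754040)) (b (l 16742624) (l 16729184)))) (a (b (b (l 16761448) (l 16722272)) (l 16689360)) (b (l 16700712) (l 16647072))))) (a (b (a (b (l 16743240) (l 16716744)) (b (l 16746592) (l 16712824))) (a (b (l 16676552) (l 6)) (l 6))) (a (l 6) (l 6)))) (a (b (a (a (b (l 534190095) (b (l 16695768) (l 16660024))) (b (l 16766848) (b (l 16633408) (l 16587120)))) (a (b (l 16544288) (l 16478808)) (l 6))) (a (l 1) (l 6))) (l 6))), by decide +kernel⟩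

theorem t2_B04pm_213_s1 : ∃ t, chk3 f_B04pm_213_s1 t 1 1 1 = true := ex3_b k0_B04pm_213_s1 k1_B04pm_213_s1

theorem c_B04pm_213_s1 : CertF 0 536870912 0 1230186008 818728140 40265320 false true false .pnn 2 1 3
    ndB0q2 ndB4q3 pcB1 cut_B04pm_213_s1 xt_B04pm_213_s1 :=
  certF0 (fam := false) (s1 := true) (s2 := false) (a := 2) (b := 1) (c := 3) (cn := .pnn) (n1 := ndB0q2) (n2 := ndB4q3) (pc := pcB1) (cut := cut_B04pm_213_s1) (xt := xt_B04pm_213_s1) (P1 := 0) (W1 := 536870912) (P2 := 0) (W2 := 1230186008) (P3 := 818728140) (W3 := 40265320)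
    rfl t2_B04pm_213_s1

theorem s_B04pm_213_s1 {κ x : ℝ} (hκ : κ * h0 = ken x) (hx : ((818728140 : ℕ) : ℝ) / S ≤ x)
    (hx' : x ≤ (((818728140 : ℕ) : ℝ) + (40265320 : ℕ)) / S)
    (H : CutB (VFD κ) PP tK tL pcB (Cut.of [[⟨0, 1, 0, 67108864⟩, ⟨1, 1, 0, 67108864⟩, ⟨2, 2, 0, 16777216⟩]]) 2 1 3 0 4 (sgb true) (sgb false) x) :
    AltB (VFD κ) PP tK tL pcB [⟨3, 0, 0, 1449551462⟩] 2 1 3 0 4 (sgb true) (sgb false) x :=
  strip_altBD (m := 1449551462) true rfl hκ (SH.κ0 hκ (SH.hx1 hx).le (SH.hx2 hx').le) (SH.hx1 hx).le (SH.hx2 hx') (covB02).cov (covB43).cov hx hx' c_B04pm_213_s1 H ((okx hx hx').extB (T := tt) (sideB hx hx') hκ rfl rfl (.O 2 true) (.N 3 false) (Or.inr rfl))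

noncomputable def cut_B04mm_001_s1 : Cut := Cut.of [[⟨4, 0, 0, 1449551462⟩]]

noncomputable def f_B04mm_001_s1 : ℕ → ℕ → ℕ → ℕ → Bool := onCell 0 536870912 0 536870912 818728140 40265320
    (rowF 1 false false false .up 0 0 1 (qsf 0 536870912 536870912 536870912 0) ndB0q0 ndB4q1 pcB0 cut_B04mm_001_s1 Ext.none)

def k0_B04mm_001_s1 : ∃ t, chk3 f_B04mm_001_s1 t 1 1 1 = true :=
  ⟨(l 3), by decide +kernel⟩

theorem c_B04mm_001_s1 : CertF 0 536870912 536870912 536870912 818728140 40265320 false false false .up 0 0 1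
    ndB0q0 ndB4q1 pcB0 cut_B04mm_001_s1 Ext.none :=
  certF1 (fam := false) (s1 := false) (s2 := false) (a := 0) (b := 0) (c := 1) (cn := .up) (n1 := ndB0q0) (n2 := ndB4q1) (pc := pcB0) (cut := cut_B04mm_001_s1) (xt := Ext.none) (P1 := 0) (W1 := 536870912) (P2 := 536870912) (W2 := 536870912) (P3 := 818728140) (W3 := 40265320)
    rfl (fun _ => rfl) k0_B04mm_001_s1

theorem s_B04mm_001_s1 {κ x : ℝ} (hκ : κ * h0 = ken x) (hx : ((818728140 : ℕ) : ℝ) / S ≤ x)
    (hx' : x ≤ (((818728140 : ℕ) : ℝ) + (40265320 : ℕ)) / S) :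
    AltB (VFD κ) PP tK tL pcB [⟨3, 0, 0, 1449551462⟩] 0 0 1 0 4 (sgb false) (sgb false) x :=
  strip_altBD (m := 1449551462) true rfl hκ (SH.κ0 hκ (SH.hx1 hx).le (SH.hx2 hx').le) (SH.hx1 hx).le (SH.hx2 hx') (covB00).cov (covB41).cov hx hx' c_B04mm_001_s1 cutB_nil (noExt_B)

noncomputable def cut_B04mm_011_s1 : Cut := Cut.of [[⟨4, 0, 0, 1449551462⟩]]

noncomputable def f_B04mm_011_s1 : ℕ → ℕ → ℕ → ℕ → Bool := onCell 0 536870912 536870912 536870912 818728140 40265320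
    (rowF 1 false false false .pnn 0 1 1 (qsf 0 536870912 536870912 536870912 1) ndB0q0 ndB4q1 pcB1 cut_B04mm_011_s1 Ext.none)

def k0_B04mm_011_s1 : ∃ t, chk3 f_B04mm_011_s1 t 1 1 1 = true :=
  ⟨(l 5), by decide +kernel⟩

theorem c_B04mm_011_s1 : CertF 0 536870912 536870912 536870912 818728140 40265320 false false false .pnn 0 1 1
    ndB0q0 ndB4q1 pcB1 cut_B04mm_011_s1 Ext.none :=
  certF1 (fam := false) (s1 := false) (s2 := false) (a := 0) (b := 1) (c := 1) (cn := .pnn) (n1 := ndB0q0) (n2 := ndB4q1) (pc := pcB1) (cut := cut_B04mm_011_s1) (xt := Ext.none) (P1 := 0) (W1 := 536870912) (P2 := 536870912) (W2 := 536870912) (P3 := 818728140) (W3 := 40265320)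
    rfl (fun _ => rfl) k0_B04mm_011_s1

theorem s_B04mm_011_s1 {κ x : ℝ} (hκ : κ * h0 = ken x) (hx : ((818728140 : ℕ) : ℝ) / S ≤ x)
    (hx' : x ≤ (((818728140 : ℕ) : ℝ) + (40265320 : ℕ)) / S) :
    AltB (VFD κ) PP tK tL pcB [⟨3, 0, 0, 1449551462⟩] 0 1 1 0 4 (sgb false) (sgb false) x :=
  strip_altBD (m := 1449551462) true rfl hκ (SH.κ0 hκ (SH.hx1 hx).le (SH.hx2 hx').le) (SH.hx1 hx).le (SH.hx2 hx') (covB00).cov (covB41).cov hx hx' c_B04mm_011_s1 cutB_nil (noExt_B)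

noncomputable def cut_B04mm_012_s1 : Cut := Cut.of [[⟨4, 0, 0, 1449551462⟩]]

noncomputable def f_B04mm_012_s1 : ℕ → ℕ → ℕ → ℕ → Bool := onCell 0 536870912 1073741824 536870912 818728140 40265320
    (rowF 0 false false false .pnp 0 1 2 (qsf 0 536870912 1073741824 536870912 1) ndB0q0 ndB4q2 pcB1 cut_B04mm_012_s1 Ext.none)

def k0_B04mm_012_s1 : ∃ t, chk3 f_B04mm_012_s1 t 1 1 1 = true :=
  ⟨(l 5), by decide +kernel⟩

theorem c_B04mm_012_s1 : CertF 0 536870912 1073741824 536870912 818728140 40265320 false false false .pnp 0 1 2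
    ndB0q0 ndB4q2 pcB1 cut_B04mm_012_s1 Ext.none :=
  certF0 (fam := false) (s1 := false) (s2 := false) (a := 0) (b := 1) (c := 2) (cn := .pnp) (n1 := ndB0q0) (n2 := ndB4q2) (pc := pcB1) (cut := cut_B04mm_012_s1) (xt := Ext.none) (P1 := 0) (W1 := 536870912) (P2 := 1073741824) (W2 := 536870912) (P3 := 818728140) (W3 := 40265320)
    rfl k0_B04mm_012_s1

theorem s_B04mm_012_s1 {κ x : ℝ} (hκ : κ * h0 = ken x) (hx : ((818728140 : ℕ) : ℝ) / S ≤ x)
    (hx' : x ≤ (((818728140 : ℕ) : ℝ) + (40265320 : ℕ)) / S) :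
    AltB (VFD κ) PP tK tL pcB [⟨3, 0, 0, 1449551462⟩] 0 1 2 0 4 (sgb false) (sgb false) x :=
  strip_altBD (m := 1449551462) true rfl hκ (SH.κ0 hκ (SH.hx1 hx).le (SH.hx2 hx').le) (SH.hx1 hx).le (SH.hx2 hx') (covB00).cov (covB42).cov hx hx' c_B04mm_012_s1 cutB_nil (noExt_B)

noncomputable def cut_B04mm_022_s1 : Cut := Cut.of [[⟨4, 0, 0, 1449551462⟩]]

noncomputable def f_B04mm_022_s1 : ℕ → ℕ → ℕ → ℕ → Bool := onCell 0 536870912 1073741824 536870912 818728140 40265320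
    (rowF 0 false false false .pp 0 2 2 (qsf 0 536870912 1073741824 536870912 2) ndB0q0 ndB4q2 pcB2 cut_B04mm_022_s1 Ext.none)

def k0_B04mm_022_s1 : ∃ t, chk3 f_B04mm_022_s1 t 1 1 1 = true :=
  ⟨(l 5), by decide +kernel⟩

theorem c_B04mm_022_s1 : CertF 0 536870912 1073741824 536870912 818728140 40265320 false false false .pp 0 2 2
    ndB0q0 ndB4q2 pcB2 cut_B04mm_022_s1 Ext.none :=
  certF0 (fam := false) (s1 := false) (s2 := false) (a := 0) (b := 2) (c := 2) (cn := .pp) (n1 := ndB0q0) (n2 := ndB4q2) (pc := pcB2) (cut := cut_B04mm_022_s1) (xt := Ext.none) (P1 := 0) (W1 := 536870912) (P2 := 1073741824) (W2 := 536870912) (P3 := 818728140) (W3 := 40265320)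
    rfl k0_B04mm_022_s1

theorem s_B04mm_022_s1 {κ x : ℝ} (hκ : κ * h0 = ken x) (hx : ((818728140 : ℕ) : ℝ) / S ≤ x)
    (hx' : x ≤ (((818728140 : ℕ) : ℝ) + (40265320 : ℕ)) / S) :
    AltB (VFD κ) PP tK tL pcB [⟨3, 0, 0, 1449551462⟩] 0 2 2 0 4 (sgb false) (sgb false) x :=
  strip_altBD (m := 1449551462) true rfl hκ (SH.κ0 hκ (SH.hx1 hx).le (SH.hx2 hx').le) (SH.hx1 hx).le (SH.hx2 hx') (covB00).cov (covB42).cov hx hx' c_B04mm_022_s1 cutB_nil (noExt_B)

noncomputable def cut_B04mm_023_s1 : Cut := Cut.of [[⟨4, 0, 0, 1449551462⟩]]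

noncomputable def f_B04mm_023_s1 : ℕ → ℕ → ℕ → ℕ → Bool := onCell 0 536870912 0 1230186008 818728140 40265320
    (rowF 0 false false false .up 0 2 3 (qsf 0 536870912 0 1230186008 2) ndB0q0 ndB4q3 pcB2 cut_B04mm_023_s1 Ext.none)

def k0_B04mm_023_s1 : ∃ t, chk3 f_B04mm_023_s1 t 1 1 1 = true :=
  ⟨(l 5), by decide +kernel⟩

theorem c_B04mm_023_s1 : CertF 0 536870912 0 1230186008 818728140 40265320 false false false .up 0 2 3
    ndB0q0 ndB4q3 pcB2 cut_B04mm_023_s1 Ext.none :=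
  certF0 (fam := false) (s1 := false) (s2 := false) (a := 0) (b := 2) (c := 3) (cn := .up) (n1 := ndB0q0) (n2 := ndB4q3) (pc := pcB2) (cut := cut_B04mm_023_s1) (xt := Ext.none) (P1 := 0) (W1 := 536870912) (P2 := 0) (W2 := 1230186008) (P3 := 818728140) (W3 := 40265320)
    rfl k0_B04mm_023_s1

theorem s_B04mm_023_s1 {κ x : ℝ} (hκ : κ * h0 = ken x) (hx : ((818728140 : ℕ) : ℝ) / S ≤ x)
    (hx' : x ≤ (((818728140 : ℕ) : ℝ) + (40265320 : ℕ)) / S) :
    AltB (VFD κ) PP tK tL pcB [⟨3, 0, 0, 1449551462⟩] 0 2 3 0 4 (sgb false) (sgb false) x :=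
  strip_altBD (m := 1449551462) true rfl hκ (SH.κ0 hκ (SH.hx1 hx).le (SH.hx2 hx').le) (SH.hx1 hx).le (SH.hx2 hx') (covB00).cov (covB43).cov hx hx' c_B04mm_023_s1 cutB_nil (noExt_B)

noncomputable def cut_B04mm_033_s1 : Cut := Cut.of [[⟨4, 0, 0, 1449551462⟩]]

noncomputable def f_B04mm_033_s1 : ℕ → ℕ → ℕ → ℕ → Bool := onCell 0 536870912 0 1230186008 818728140 40265320
    (rowF 0 false false false .pnn 0 3 3 (qsf 0 536870912 0 1230186008 3) ndB0q0 ndB4q3 pcB3 cut_B04mm_033_s1 Ext.none)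

def k0_B04mm_033_s1 : ∃ t, chk3 f_B04mm_033_s1 t 1 1 1 = true :=
  ⟨(l 5), by decide +kernel⟩

theorem c_B04mm_033_s1 : CertF 0 536870912 0 1230186008 818728140 40265320 false false false .pnn 0 3 3
    ndB0q0 ndB4q3 pcB3 cut_B04mm_033_s1 Ext.none :=
  certF0 (fam := false) (s1 := false) (s2 := false) (a := 0) (b := 3) (c := 3) (cn := .pnn) (n1 := ndB0q0) (n2 := ndB4q3) (pc := pcB3) (cut := cut_B04mm_033_s1) (xt := Ext.none) (P1 := 0) (W1 := 536870912) (P2 := 0) (W2 := 1230186008) (P3 := 818728140) (W3 := 40265320)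
    rfl k0_B04mm_033_s1

theorem s_B04mm_033_s1 {κ x : ℝ} (hκ : κ * h0 = ken x) (hx : ((818728140 : ℕ) : ℝ) / S ≤ x)
    (hx' : x ≤ (((818728140 : ℕ) : ℝ) + (40265320 : ℕ)) / S) :
    AltB (VFD κ) PP tK tL pcB [⟨3, 0, 0, 1449551462⟩] 0 3 3 0 4 (sgb false) (sgb false) x :=
  strip_altBD (m := 1449551462) true rfl hκ (SH.κ0 hκ (SH.hx1 hx).le (SH.hx2 hx').le) (SH.hx1 hx).le (SH.hx2 hx') (covB00).cov (covB43).cov hx hx' c_B04mm_033_s1 cutB_nil (noExt_B)

noncomputable def cut_B04mm_101_s1 : Cut := Cut.of [[⟨4, 0, 0, 1449551462⟩], [⟨0, 1, 0, 67108864⟩, ⟨1, 0, 0, 67108864⟩, ⟨2, 1, 0, 67108864⟩]]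

noncomputable def f_B04mm_101_s1 : ℕ → ℕ → ℕ → ℕ → Bool := onCell 536870912 536870912 0 536870912 818728140 40265320
    (rowF 1 false false false .npn 1 0 1 (qsf 536870912 536870912 536870912 536870912 0) ndB0q1 ndB4q1 pcB0 cut_B04mm_101_s1 Ext.none)

def k0_B04mm_101_s1 : ∃ t, chk3 f_B04mm_101_s1 t 1 1 1 = true :=
  ⟨(a (l 3) (b (a (l 3) (b (a (l 3) (b (b (a (l 3) (l 14)) (l 3)) (l 3))) (l 3))) (l 3))), by decide +kernel⟩

theorem c_B04mm_101_s1 : CertF 536870912 536870912 536870912 536870912 818728140 40265320 false false false .npn 1 0 1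
    ndB0q1 ndB4q1 pcB0 cut_B04mm_101_s1 Ext.none :=
  certF1 (fam := false) (s1 := false) (s2 := false) (a := 1) (b := 0) (c := 1) (cn := .npn) (n1 := ndB0q1) (n2 := ndB4q1) (pc := pcB0) (cut := cut_B04mm_101_s1) (xt := Ext.none) (P1 := 536870912) (W1 := 536870912) (P2 := 536870912) (W2 := 536870912) (P3 := 818728140) (W3 := 40265320)
    rfl (fun _ => rfl) k0_B04mm_101_s1

theorem s_B04mm_101_s1 {κ x : ℝ} (hκ : κ * h0 = ken x) (hx : ((818728140 : ℕ) : ℝ) / S ≤ x)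
    (hx' : x ≤ (((818728140 : ℕ) : ℝ) + (40265320 : ℕ)) / S)
    (H : CutB (VFD κ) PP tK tL pcB (Cut.of [[⟨0, 1, 0, 67108864⟩, ⟨1, 0, 0, 67108864⟩, ⟨2, 1, 0, 67108864⟩]]) 1 0 1 0 4 (sgb false) (sgb false) x) :
    AltB (VFD κ) PP tK tL pcB [⟨3, 0, 0, 1449551462⟩] 1 0 1 0 4 (sgb false) (sgb false) x :=
  strip_altBD (m := 1449551462) true rfl hκ (SH.κ0 hκ (SH.hx1 hx).le (SH.hx2 hx').le) (SH.hx1 hx).le (SH.hx2 hx') (covB01).cov (covB41).cov hx hx' c_B04mm_101_s1 H (noExt_B)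

noncomputable def cut_B04mm_102_s1 : Cut := Cut.of [[⟨4, 0, 0, 1449551462⟩], [⟨0, 1, 0, 67108864⟩, ⟨1, 0, 0, 67108864⟩, ⟨2, 1, 0, 67108864⟩]]

noncomputable def f_B04mm_102_s1 : ℕ → ℕ → ℕ → ℕ → Bool := onCell 536870912 536870912 0 536870912 818728140 40265320
    (rowF 1 false false false .npp 1 0 2 (qsf 536870912 536870912 1073741824 536870912 0) ndB0q1 ndB4q2 pcB0 cut_B04mm_102_s1 Ext.none)

def k0_B04mm_102_s1 : ∃ t, chk3 f_B04mm_102_s1 t 1 1 1 = true :=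
  ⟨(a (l 3) (b (a (l 3) (b (a (l 3) (a (l 3) (b (b (l 14) (l 3)) (l 3)))) (l 3))) (l 3))), by decide +kernel⟩

theorem c_B04mm_102_s1 : CertF 536870912 536870912 1073741824 536870912 818728140 40265320 false false false .npp 1 0 2
    ndB0q1 ndB4q2 pcB0 cut_B04mm_102_s1 Ext.none :=
  certF1 (fam := false) (s1 := false) (s2 := false) (a := 1) (b := 0) (c := 2) (cn := .npp) (n1 := ndB0q1) (n2 := ndB4q2) (pc := pcB0) (cut := cut_B04mm_102_s1) (xt := Ext.none) (P1 := 536870912) (W1 := 536870912) (P2 := 1073741824) (W2 := 536870912) (P3 := 818728140) (W3 := 40265320)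
    rfl (fun _ => rfl) k0_B04mm_102_s1

theorem s_B04mm_102_s1 {κ x : ℝ} (hκ : κ * h0 = ken x) (hx : ((818728140 : ℕ) : ℝ) / S ≤ x)
    (hx' : x ≤ (((818728140 : ℕ) : ℝ) + (40265320 : ℕ)) / S)
    (H : CutB (VFD κ) PP tK tL pcB (Cut.of [[⟨0, 1, 0, 67108864⟩, ⟨1, 0, 0, 67108864⟩, ⟨2, 1, 0, 67108864⟩]]) 1 0 2 0 4 (sgb false) (sgb false) x) :
    AltB (VFD κ) PP tK tL pcB [⟨3, 0, 0, 1449551462⟩] 1 0 2 0 4 (sgb false) (sgb false) x :=
  strip_altBD (m := 1449551462) true rfl hκ (SH.κ0 hκ (SH.hx1 hx).le (SH.hx2 hx').le) (SH.hx1 hx).le (SH.hx2 hx') (covB01).cov (covB42).cov hx hx' c_B04mm_102_s1 H (noExt_B)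

noncomputable def cut_B04mm_112_s1 : Cut := Cut.of [[⟨4, 0, 0, 1449551462⟩]]

noncomputable def f_B04mm_112_s1 : ℕ → ℕ → ℕ → ℕ → Bool := onCell 536870912 536870912 1073741824 536870912 818728140 40265320
    (rowF 2 false false false .dn 1 1 2 (qsf 536870912 536870912 1073741824 536870912 1) ndB0q1 ndB4q2 pcB1 cut_B04mm_112_s1 Ext.none)

def k0_B04mm_112_s1 : ∃ t, chk3 f_B04mm_112_s1 t 1 1 1 = true :=
  ⟨(a (l 3) (l 5)), by decide +kernel⟩

theorem c_B04mm_112_s1 : CertF 536870912 536870912 1073741824 536870912 818728140 40265320 false false false .dn 1 1 2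
    ndB0q1 ndB4q2 pcB1 cut_B04mm_112_s1 Ext.none :=
  certF2 (fam := false) (s1 := false) (s2 := false) (a := 1) (b := 1) (c := 2) (cn := .dn) (n1 := ndB0q1) (n2 := ndB4q2) (pc := pcB1) (cut := cut_B04mm_112_s1) (xt := Ext.none) (P1 := 536870912) (W1 := 536870912) (P2 := 1073741824) (W2 := 536870912) (P3 := 818728140) (W3 := 40265320)
    rfl (fun _ => rfl) k0_B04mm_112_s1

theorem s_B04mm_112_s1 {κ x : ℝ} (hκ : κ * h0 = ken x) (hx : ((818728140 : ℕ) : ℝ) / S ≤ x)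
    (hx' : x ≤ (((818728140 : ℕ) : ℝ) + (40265320 : ℕ)) / S) :
    AltB (VFD κ) PP tK tL pcB [⟨3, 0, 0, 1449551462⟩] 1 1 2 0 4 (sgb false) (sgb false) x :=
  strip_altBD (m := 1449551462) true rfl hκ (SH.κ0 hκ (SH.hx1 hx).le (SH.hx2 hx').le) (SH.hx1 hx).le (SH.hx2 hx') (covB01).cov (covB42).cov hx hx' c_B04mm_112_s1 cutB_nil (noExt_B)

noncomputable def cut_B04mm_113_s1 : Cut := Cut.of [[⟨4, 0, 0, 1449551462⟩]]

noncomputable def f_B04mm_113_s1 : ℕ → ℕ → ℕ → ℕ → Bool := onCell 536870912 536870912 0 1230186008 818728140 40265320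
    (rowF 0 false false false .nn 1 1 3 (qsf 536870912 536870912 0 1230186008 1) ndB0q1 ndB4q3 pcB1 cut_B04mm_113_s1 Ext.none)

def k0_B04mm_113_s1 : ∃ t, chk3 f_B04mm_113_s1 t 1 1 1 = true :=
  ⟨(b (l 5) (a (l 5) (b (a (l 5) (l 3)) (l 3)))), by decide +kernel⟩

theorem c_B04mm_113_s1 : CertF 536870912 536870912 0 1230186008 818728140 40265320 false false false .nn 1 1 3
    ndB0q1 ndB4q3 pcB1 cut_B04mm_113_s1 Ext.none :=
  certF0 (fam := false) (s1 := false) (s2 := false) (a := 1) (b := 1) (c := 3) (cn := .nn) (n1 := ndB0q1) (n2 := ndB4q3) (pc := pcB1) (cut := cut_B04mm_113_s1) (xt := Ext.none) (P1 := 536870912) (W1 := 536870912) (P2 := 0) (W2 := 1230186008) (P3 := 818728140) (W3 := 40265320)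
    rfl k0_B04mm_113_s1

theorem s_B04mm_113_s1 {κ x : ℝ} (hκ : κ * h0 = ken x) (hx : ((818728140 : ℕ) : ℝ) / S ≤ x)
    (hx' : x ≤ (((818728140 : ℕ) : ℝ) + (40265320 : ℕ)) / S) :
    AltB (VFD κ) PP tK tL pcB [⟨3, 0, 0, 1449551462⟩] 1 1 3 0 4 (sgb false) (sgb false) x :=
  strip_altBD (m := 1449551462) true rfl hκ (SH.κ0 hκ (SH.hx1 hx).le (SH.hx2 hx').le) (SH.hx1 hx).le (SH.hx2 hx') (covB01).cov (covB43).cov hx hx' c_B04mm_113_s1 cutB_nil (noExt_B)

noncomputable def cut_B04mm_123_s1 : Cut := Cut.of [[⟨4, 0, 0, 1449551462⟩]]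

noncomputable def f_B04mm_123_s1 : ℕ → ℕ → ℕ → ℕ → Bool := onCell 1073741824 536870912 0 1230186008 818728140 40265320
    (rowF 2 false false false .npn 1 2 3 (qsf 536870912 536870912 0 1230186008 2) ndB0q1 ndB4q3 pcB2 cut_B04mm_123_s1 Ext.none)

def k0_B04mm_123_s1 : ∃ t, chk3 f_B04mm_123_s1 t 1 1 1 = true :=
  ⟨(b (l 5) (l 5)), by decide +kernel⟩

theorem c_B04mm_123_s1 : CertF 536870912 536870912 0 1230186008 818728140 40265320 false false false .npn 1 2 3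
    ndB0q1 ndB4q3 pcB2 cut_B04mm_123_s1 Ext.none :=
  certF2 (fam := false) (s1 := false) (s2 := false) (a := 1) (b := 2) (c := 3) (cn := .npn) (n1 := ndB0q1) (n2 := ndB4q3) (pc := pcB2) (cut := cut_B04mm_123_s1) (xt := Ext.none) (P1 := 536870912) (W1 := 536870912) (P2 := 0) (W2 := 1230186008) (P3 := 818728140) (W3 := 40265320)
    rfl (fun _ => rfl) k0_B04mm_123_s1

theorem s_B04mm_123_s1 {κ x : ℝ} (hκ : κ * h0 = ken x) (hx : ((818728140 : ℕ) : ℝ) / S ≤ x)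
    (hx' : x ≤ (((818728140 : ℕ) : ℝ) + (40265320 : ℕ)) / S) :
    AltB (VFD κ) PP tK tL pcB [⟨3, 0, 0, 1449551462⟩] 1 2 3 0 4 (sgb false) (sgb false) x :=
  strip_altBD (m := 1449551462) true rfl hκ (SH.κ0 hκ (SH.hx1 hx).le (SH.hx2 hx').le) (SH.hx1 hx).le (SH.hx2 hx') (covB01).cov (covB43).cov hx hx' c_B04mm_123_s1 cutB_nil (noExt_B)

noncomputable def cut_B04mm_133_s1 : Cut := Cut.of [[⟨4, 0, 0, 1449551462⟩]]

noncomputable def f_B04mm_133_s1 : ℕ → ℕ → ℕ → ℕ → Bool := onCell 1610612736 536870912 0 1230186008 818728140 40265320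
    (rowF 2 false false false .dn 1 3 3 (qsf 536870912 536870912 0 1230186008 3) ndB0q1 ndB4q3 pcB3 cut_B04mm_133_s1 Ext.none)

def k0_B04mm_133_s1 : ∃ t, chk3 f_B04mm_133_s1 t 1 1 1 = true :=
  ⟨(l 5), by decide +kernel⟩

theorem c_B04mm_133_s1 : CertF 536870912 536870912 0 1230186008 818728140 40265320 false false false .dn 1 3 3
    ndB0q1 ndB4q3 pcB3 cut_B04mm_133_s1 Ext.none :=
  certF2 (fam := false) (s1 := false) (s2 := false) (a := 1) (b := 3) (c := 3) (cn := .dn) (n1 := ndB0q1) (n2 := ndB4q3) (pc := pcB3) (cut := cut_B04mm_133_s1) (xt := Ext.none) (P1 := 536870912) (W1 := 536870912) (P2 := 0) (W2 := 1230186008) (P3 := 818728140) (W3 := 40265320)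
    rfl (fun _ => rfl) k0_B04mm_133_s1

theorem s_B04mm_133_s1 {κ x : ℝ} (hκ : κ * h0 = ken x) (hx : ((818728140 : ℕ) : ℝ) / S ≤ x)
    (hx' : x ≤ (((818728140 : ℕ) : ℝ) + (40265320 : ℕ)) / S) :
    AltB (VFD κ) PP tK tL pcB [⟨3, 0, 0, 1449551462⟩] 1 3 3 0 4 (sgb false) (sgb false) x :=
  strip_altBD (m := 1449551462) true rfl hκ (SH.κ0 hκ (SH.hx1 hx).le (SH.hx2 hx').le) (SH.hx1 hx).le (SH.hx2 hx') (covB01).cov (covB43).cov hx hx' c_B04mm_133_s1 cutB_nil (noExt_B)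

noncomputable def cut_B04mm_202_s1 : Cut := Cut.of [[⟨4, 0, 0, 1449551462⟩], [⟨0, 1, 0, 67108864⟩, ⟨1, 0, 0, 67108864⟩, ⟨2, 1, 0, 67108864⟩]]

noncomputable def xt_B04mm_202_s1 : Ext := strExt dd false false false .u2 .s2m .u0m .pp 2 0 2 rfl rfl gf0 vv ndB0q2 ndB4q2

noncomputable def f_B04mm_202_s1 : ℕ → ℕ → ℕ → ℕ → Bool := onCell 0 536870912 0 536870912 818728140 40265320
    (rowF 1 false false false .pp 2 0 2 (qsf 0 536870912 1073741824 536870912 0) ndB0q2 ndB4q2 pcB0 cut_B04mm_202_s1 xt_B04mm_202_s1)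

def k0_B04mm_202_s1 : ∃ t, chk3 f_B04mm_202_s1 t 2 1 1 = true :=
  ⟨(b (a (b (l 6) (b (l 6) (b (l 16481624) (l 16525704)))) (b (b (b (l 6) (a (l 6) (a (l 6) (l 16432576)))) (a (b (l 6) (l 16437840)) (b (l 16458792) (l 16505656)))) (b (a (b (l 16485104) (l 16532864)) (b (l 16555840) (b (l 16592424) (l 16616216)))) (a (b (l 16579448) (l 16617856)) (a (b (l 16629528) (l 16662600)) (b (l 16660888) (l 16691992))))))) (b (a (b (a (l 16588088) (b (l 16587448) (l 16614888))) (a (l 203037607319) (b (l 16473752) (l 16502016)))) (b (a (b (a (l 16633432) (l 16662208)) (l 16674096)) (b (b (l 16699032) (a (l 16697464) (l 16728016))) (a (l 16801632) (l 532441359)))) (a (a (b (l 16686944) (l 327054756423)) (b (l 16716368) (l 533025807))) (a (l 532715791) (l 532403471))))) (a (l 2) (a (l 2) (a (l 2) (l 3)))))), by decide +kernel⟩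

def k1_B04mm_202_s1 : ∃ t, chk3 f_B04mm_202_s1 t 6 2 1 = true :=
  ⟨(b (b (a (b (b (a (l 16422032) (l 16465848)) (l 16376736)) (l 16322688)) (a (b (l 16519032) (l 16555768)) (b (a (l 16554016) (l 16578560)) (l 16605888)))) (a (b (a (l 16512760) (l 16553680)) (l 16666368)) (a (b (l 16600544) (b (l 16639872) (l 16662456))) (b (b (l 16640760) (l 16728800)) (b (a (l 16675096) (l 16698288)) (l 16747688)))))) (b (a (a (b (l 16615720) (b (l 16648296) (l 16667544))) (b (b (l 16643912) (l 16663848)) (l 16733224))) (b (a (b (l 16683352) (l 16702064)) (a (b (l 16713864) (l 16732008)) (b (l 530700815) (l 530874895)))) (a (a (l 531385359) (l 531194127)) (a (l 531009551) (l 530832911))))) (a (a (b (l 16691568) (b (l 16715352) (l 16730752))) (b (b (l 16716584) (l 531747087)) (l 531765263))) (a (b (a (l 532496399) (l 531222543)) (a (l 531434767) (l 3))) (b (a (l 531029519) (l 3)) (l 3)))))), by decide +kernel⟩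

def k2_B04mm_202_s1 : ∃ t, chk3 f_B04mm_202_s1 t 7 2 1 = true :=
  ⟨(b (b (a (b (b (a (l 16607400) (a (l 16644856) (l 16669704))) (a (l 16627096) (l 16720944))) (a (b (l 16648848) (a (l 16658336) (b (l 16680320) (l 16693224)))) (a (b (l 16689448) (b (l 16708360) (l 16717520))) (b (b (l 16710344) (l 16722392)) (a (l 16750936) (l 16767952)))))) (b (a (a (b (l 14) (b (l 14) (b (l 16721816) (l 16728640)))) (l 14)) (l 14)) (a (a (b (a (b (l 16730736) (l 16739912)) (b (l 16741888) (l 16751016))) (a (l 530471439) (l 530374159))) (a (b (b (l 16764080) (l 530374159)) (a (l 530318095) (l 530269455))) (a (b (l 530315535) (l 530220047)) (b (l 530266127) (l 3))))) (b (a (a (a (l 530751759) (a (l 530191375) (l 530166543))) (l 3)) (l 3)) (l 3))))) (a (a (b (a (b (l 16683440) (l 16702144)) (b (l 16749248) (l 16767768))) (a (b (l 16720840) (l 530630159)) (a (l 530570767) (l 530537487)))) (a (b (b (l 530599439) (l 530514447))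 (a (l 530497807) (l 530451727))) (b (a (b (l 530562063) (l 530449167)) (b (l 530472207) (l 530387471))) (a (l 530398223) (l 3))))) (b (a (a (a (b (l 530378255) (l 530297615)) (b (l 530278415) (l 3))) (l 3)) (l 3)) (l 3)))) (b (a (a (b (a (b (a (l 530659855) (l 530637839)) (a (l 530675215) (l 530652175))) (b (l 530594831) (a (l 530634511) (l 3)))) (a (a (l 530713615) (l 3)) (l 3))) (l 3)) (l 3)) (l 3))), by decide +kernel⟩

def k3_B04mm_202_s1 : ∃ t, chk3 f_B04mm_202_s1 t 3 3 1 = true :=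
  ⟨(a (b (a (b (a (b (a (l 532331791) (l 532116751)) (a (l 532204047) (l 532033039))) (b (l 531748111) (l 3))) (l 3)) (l 3)) (l 3)) (l 3)), by decide +kernel⟩

theorem t4_B04mm_202_s1 : ∃ t, chk3 f_B04mm_202_s1 t 3 2 1 = true := ex3_a k1_B04mm_202_s1 k2_B04mm_202_s1

theorem t5_B04mm_202_s1 : ∃ t, chk3 f_B04mm_202_s1 t 3 1 1 = true := ex3_b t4_B04mm_202_s1 k3_B04mm_202_s1

theorem t6_B04mm_202_s1 : ∃ t, chk3 f_B04mm_202_s1 t 1 1 1 = true := ex3_a k0_B04mm_202_s1 t5_B04mm_202_s1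

theorem c_B04mm_202_s1 : CertF 0 536870912 1073741824 536870912 818728140 40265320 false false false .pp 2 0 2
    ndB0q2 ndB4q2 pcB0 cut_B04mm_202_s1 xt_B04mm_202_s1 :=
  certF1 (fam := false) (s1 := false) (s2 := false) (a := 2) (b := 0) (c := 2) (cn := .pp) (n1 := ndB0q2) (n2 := ndB4q2) (pc := pcB0) (cut := cut_B04mm_202_s1) (xt := xt_B04mm_202_s1) (P1 := 0) (W1 := 536870912) (P2 := 1073741824) (W2 := 536870912) (P3 := 818728140) (W3 := 40265320)
    rfl (fun _ => rfl) t6_B04mm_202_s1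

theorem s_B04mm_202_s1 {κ x : ℝ} (hκ : κ * h0 = ken x) (hx : ((818728140 : ℕ) : ℝ) / S ≤ x)
    (hx' : x ≤ (((818728140 : ℕ) : ℝ) + (40265320 : ℕ)) / S)
    (H : CutB (VFD κ) PP tK tL pcB (Cut.of [[⟨0, 1, 0, 67108864⟩, ⟨1, 0, 0, 67108864⟩, ⟨2, 1, 0, 67108864⟩]]) 2 0 2 0 4 (sgb false) (sgb false) x) :
    AltB (VFD κ) PP tK tL pcB [⟨3, 0, 0, 1449551462⟩] 2 0 2 0 4 (sgb false) (sgb false) x :=
  strip_altBD (m := 1449551462) true rfl hκ (SH.κ0 hκ (SH.hx1 hx).le (SH.hx2 hx').le) (SH.hx1 hx).le (SH.hx2 hx') (covB02).cov (covB42).cov hx hx' c_B04mm_202_s1 H ((okx hx hx').extB (T := tt) (sideB hx hx') hκ rfl rfl (.O 2 false) (.N 2 false) (Or.inl rfl))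

noncomputable def cut_B04mm_203_s1 : Cut := Cut.of [[⟨4, 0, 0, 1449551462⟩]]

noncomputable def xt_B04mm_203_s1 : Ext := strExt dd false false false .u2 .s2m .u0m .up 2 0 3 rfl rfl gf0 vv ndB0q2 ndB4q3

noncomputable def f_B04mm_203_s1 : ℕ → ℕ → ℕ → ℕ → Bool := onCell 0 536870912 0 1230186008 818728140 40265320
    (rowF 0 false false false .up 2 0 3 (qsf 0 536870912 0 1230186008 0) ndB0q2 ndB4q3 pcB0 cut_B04mm_203_s1 xt_B04mm_203_s1)

def k0_B04mm_203_s1 : ∃ t, chk3 f_B04mm_203_s1 t 1 1 1 = true :=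
  ⟨(b (l 2) (b (l 2) (a (a (b (b (l 2) (b (l 2) (a (l 534623759) (a (l 534268431) (l 3))))) (a (b (b (l 16759280) (l 16518208)) (b (l 16569496) (l 16538528))) (b (b (a (l 534951439) (a (b (l 533664783) (b (l 533504015) (l 16773232))) (l 533325583))) (a (l 16723280) (c (a (l 533754895) (l 533411855)) (l 533070095)))) (b (a (l 16692408) (a (l 16630976) (l 533214735))) (l 16677944))))) (b (l 3) (b (a (b (l 3) (a (l 533250575) (l 3))) (l 3)) (a (b (a (b (l 533230095) (l 533204239)) (b (a (l 533230607) (l 3)) (l 534787855))) (a (b (l 16736464) (l 16720776)) (l 533081103))) (a (b (l 3) (b (l 3) (l 532811535))) (l 3)))))) (l 3)))), by decide +kernel⟩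

theorem c_B04mm_203_s1 : CertF 0 536870912 0 1230186008 818728140 40265320 false false false .up 2 0 3
    ndB0q2 ndB4q3 pcB0 cut_B04mm_203_s1 xt_B04mm_203_s1 :=
  certF0 (fam := false) (s1 := false) (s2 := false) (a := 2) (b := 0) (c := 3) (cn := .up) (n1 := ndB0q2) (n2 := ndB4q3) (pc := pcB0) (cut := cut_B04mm_203_s1) (xt := xt_B04mm_203_s1) (P1 := 0) (W1 := 536870912) (P2 := 0) (W2 := 1230186008) (P3 := 818728140) (W3 := 40265320)
    rfl k0_B04mm_203_s1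

theorem s_B04mm_203_s1 {κ x : ℝ} (hκ : κ * h0 = ken x) (hx : ((818728140 : ℕ) : ℝ) / S ≤ x)
    (hx' : x ≤ (((818728140 : ℕ) : ℝ) + (40265320 : ℕ)) / S) :
    AltB (VFD κ) PP tK tL pcB [⟨3, 0, 0, 1449551462⟩] 2 0 3 0 4 (sgb false) (sgb false) x :=
  strip_altBD (m := 1449551462) true rfl hκ (SH.κ0 hκ (SH.hx1 hx).le (SH.hx2 hx').le) (SH.hx1 hx).le (SH.hx2 hx') (covB02).cov (covB43).cov hx hx' c_B04mm_203_s1 cutB_nil ((okx hx hx').extB (T := tt) (sideB hx hx') hκ rfl rfl (.O 2 false) (.N 3 false) (Or.inl rfl))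

noncomputable def cut_B04mm_213_s1 : Cut := Cut.of [[⟨4, 0, 0, 1449551462⟩]]

noncomputable def xt_B04mm_213_s1 : Ext := strExt dd false false false .u2 .s2m .u0m .pnn 2 1 3 rfl rfl gf1 vv ndB0q2 ndB4q3

noncomputable def f_B04mm_213_s1 : ℕ → ℕ → ℕ → ℕ → Bool := onCell 0 536870912 0 1230186008 818728140 40265320
    (rowF 0 false false false .pnn 2 1 3 (qsf 0 536870912 0 1230186008 1) ndB0q2 ndB4q3 pcB1 cut_B04mm_213_s1 xt_B04mm_213_s1)

def k0_B04mm_213_s1 : ∃ t, chk3 f_B04mm_213_s1 t 1 1 1 = true :=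
  ⟨(b (a (l 3) (b (l 5) (l 3))) (b (b (l 3) (a (a (l 3) (l 3)) (l 3))) (a (a (b (b (a (l 534256399) (l 3)) (a (b (b (l 534007311) (l 533862415)) (a (l 16712832) (l 533695759))) (a (l 533836559) (b (l 3) (l 3))))) (l 1)) (b (l 3) (b (a (l 1) (l 3)) (l 1)))) (l 3)))), by decide +kernel⟩

theorem c_B04mm_213_s1 : CertF 0 536870912 0 1230186008 818728140 40265320 false false false .pnn 2 1 3
    ndB0q2 ndB4q3 pcB1 cut_B04mm_213_s1 xt_B04mm_213_s1 :=
  certF0 (fam := false) (s1 := false) (s2 := false) (a := 2) (b := 1) (c := 3) (cn := .pnn) (n1 := ndB0q2) (n2 := ndB4q3) (pc := pcB1) (cut := cut_B04mm_213_s1) (xt := xt_B04mm_213_s1) (P1 := 0) (W1 := 536870912) (P2 := 0) (W2 := 1230186008) (P3 := 818728140) (W3 := 40265320)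
    rfl k0_B04mm_213_s1

theorem s_B04mm_213_s1 {κ x : ℝ} (hκ : κ * h0 = ken x) (hx : ((818728140 : ℕ) : ℝ) / S ≤ x)
    (hx' : x ≤ (((818728140 : ℕ) : ℝ) + (40265320 : ℕ)) / S) :
    AltB (VFD κ) PP tK tL pcB [⟨3, 0, 0, 1449551462⟩] 2 1 3 0 4 (sgb false) (sgb false) x :=
  strip_altBD (m := 1449551462) true rfl hκ (SH.κ0 hκ (SH.hx1 hx).le (SH.hx2 hx').le) (SH.hx1 hx).le (SH.hx2 hx') (covB02).cov (covB43).cov hx hx' c_B04mm_213_s1 cutB_nil ((okx hx hx').extB (T := tt) (sideB hx hx') hκ rfl rfl (.O 2 false) (.N 3 false) (Or.inr rfl))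

noncomputable def cut_B40pp_001_s1 : Cut := Cut.of [[⟨4, 0, 0, 1449551462⟩]]

noncomputable def xt_B40pp_001_s1 : Ext := strExt dd false true true .s0 .u0 .u0m .up 0 0 1 rfl rfl gf0 vv ndB4q0 ndB0q1

noncomputable def f_B40pp_001_s1 : ℕ → ℕ → ℕ → ℕ → Bool := onCell 0 536870912 536870912 536870912 818728140 40265320
    (rowF 2 false true true .up 0 0 1 (qsf 0 536870912 536870912 536870912 0) ndB4q0 ndB0q1 pcB0 cut_B40pp_001_s1 xt_B40pp_001_s1)

def k0_B40pp_001_s1 : ∃ t, chk3 f_B40pp_001_s1 t 1 1 1 = true :=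
  ⟨(a (b (l 3) (b (b (l 3) (l 2)) (l 2))) (b (b (l 3) (a (l 3) (b (a (l 3) (a (b (l 3) (b (l 3) (a (l 3) (a (l 521988367) (l 521905423))))) (b (l 523716879) (l 522730767)))) (a (b (a (l 3) (l 523271695)) (a (b (l 524866319) (l 525203983)) (b (l 524331023) (l 525503759)))) (a (b (a (l 522775055) (b (l 522093071) (l 522920207))) (b (l 523787535) (a (l 16726072) (l 16736312)))) (b (a (b (l 522321423) (l 16728112)) (b (l 522661391) (l 16655344))) (a (l 523927311) (l 16691256)))))))) (a (b (b (a (a (l 3) (l 526821135)) (a (l 526374671) (l 526062863))) (a (b (a (l 2) (l 528345871)) (l 2)) (b (a (l 528699919) (l 526764047)) (a (b (l 84926222551) (l 2)) (l 527158543))))) (b (a (l 2) (b (a (l 2) (l 16520352)) (l 2))) (l 2))) (b (b (a (a (l 525853967) (b (a (l 525481743) (l 525310479)) (l 525955087))) (a (b (b (l 16719832) (l 525264399)) (l 525763087)) (b (a (l 16574128) (l 16545872)) (l 16580976)))) (a (b (a (l 526578959)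 (l 526465807)) (a (l 526980879) (l 526888463))) (b (a (l 16490568) (l 16434208)) (a (l 16423080) (l 16368712))))) (b (a (b (a (l 527370511) (l 16408272)) (a (l 16224664) (l 16336072))) (b (a (l 16352744) (l 16300152)) (a (l 16281712) (l 16230104)))) (a (b (a (l 2) (l 16181280)) (l 2)) (b (a (l 16213552) (l 6)) (l 6)))))))), by decide +kernel⟩

theorem c_B40pp_001_s1 : CertF 0 536870912 536870912 536870912 818728140 40265320 false true true .up 0 0 1
    ndB4q0 ndB0q1 pcB0 cut_B40pp_001_s1 xt_B40pp_001_s1 :=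
  certF2 (fam := false) (s1 := true) (s2 := true) (a := 0) (b := 0) (c := 1) (cn := .up) (n1 := ndB4q0) (n2 := ndB0q1) (pc := pcB0) (cut := cut_B40pp_001_s1) (xt := xt_B40pp_001_s1) (P1 := 0) (W1 := 536870912) (P2 := 536870912) (W2 := 536870912) (P3 := 818728140) (W3 := 40265320)
    rfl (fun _ => rfl) k0_B40pp_001_s1

theorem s_B40pp_001_s1 {κ x : ℝ} (hκ : κ * h0 = ken x) (hx : ((818728140 : ℕ) : ℝ) / S ≤ x)
    (hx' : x ≤ (((818728140 : ℕ) : ℝ) + (40265320 : ℕ)) / S) :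
    AltB (VFD κ) PP tK tL pcB [⟨3, 0, 0, 1449551462⟩] 0 0 1 4 0 (sgb true) (sgb true) x :=
  strip_altBD (m := 1449551462) true rfl hκ (SH.κ0 hκ (SH.hx1 hx).le (SH.hx2 hx').le) (SH.hx1 hx).le (SH.hx2 hx') (covB40).cov (covB01).cov hx hx' c_B40pp_001_s1 cutB_nil ((okx hx hx').extB (T := tt) (sideB hx hx') hκ rfl rfl (.N 0 true) (.O 1 true) (Or.inl rfl))

noncomputable def cut_B40pp_011_s1 : Cut := Cut.of [[⟨4, 0, 0, 1449551462⟩]]

noncomputable def xt_B40pp_011_s1 : Ext := strExt dd false true true .s0 .u0 .u0m .pnn 0 1 1 rfl rfl gf1 vv ndB4q0 ndB0q1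

noncomputable def f_B40pp_011_s1 : ℕ → ℕ → ℕ → ℕ → Bool := onCell 536870912 536870912 536870912 536870912 818728140 40265320
    (rowF 2 false true true .pnn 0 1 1 (qsf 0 536870912 536870912 536870912 1) ndB4q0 ndB0q1 pcB1 cut_B40pp_011_s1 xt_B40pp_011_s1)

def k0_B40pp_011_s1 : ∃ t, chk3 f_B40pp_011_s1 t 1 1 1 = true :=
  ⟨(a (b (a (b (a (b (l 3) (a (a (l 3) (l 524751119)) (l 525167631))) (b (b (l 1) (l 526109967)) (l 526010895))) (b (a (a (b (a (l 523879183) (b (l 524896783) (l 524523279))) (l 522872591)) (b (l 525339919) (l 524359439))) (b (b (l 525936399) (l 525964047)) (a (l 525310479) (l 16554896)))) (a (b (a (b (a (l 16737040) (l 16624272)) (l 522738959)) (b (l 16583912) (l 16544536))) (a (a (l 16647032) (l 16536480)) (l 16496080))) (b (a (l 16602968) (l 16476856)) (a (l 16441008) (l 16393352)))))) (b (a (b (l 1) (a (l 526689039) (l 1))) (l 1)) (a (b (b (a (l 16655776) (l 16528456)) (a (l 16507784) (l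 16458624))) (b (a (l 16433312) (l 16383528)) (a (l 16354648) (l 16309944)))) (b (a (l 131566824775) (l 1)) (b (a (l 16332968) (l 16296688)) (l 16322016)))))) (a (b (a (b (a (b (l 16567792) (l 16416320)) (b (l 16434808) (l 16371664))) (b (a (l 16347896) (l 16306224)) (a (l 16276272) (l 16237384)))) (b (b (a (l 16382984) (l 16328448)) (l 16382512)) (b (l 16239096) (l 16174704)))) (b (a (b (l 16349720) (l 16445304)) (b (l 6) (l 6))) (l 6))) (b (b (a (b (l 16187968) (l 16104768)) (a (l 16147384) (l 16103496))) (a (b (l 16136304) (l 6)) (l 6))) (l 6)))) (b (a (b (l 1) (a (b (l 1) (b (l 1) (l 16173072))) (l 1))) (l 1)) (b (a (b (l 6) (l 6)) (l 6)) (l 6)))), by decide +kernel⟩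

theorem c_B40pp_011_s1 : CertF 0 536870912 536870912 536870912 818728140 40265320 false true true .pnn 0 1 1
    ndB4q0 ndB0q1 pcB1 cut_B40pp_011_s1 xt_B40pp_011_s1 :=
  certF2 (fam := false) (s1 := true) (s2 := true) (a := 0) (b := 1) (c := 1) (cn := .pnn) (n1 := ndB4q0) (n2 := ndB0q1) (pc := pcB1) (cut := cut_B40pp_011_s1) (xt := xt_B40pp_011_s1) (P1 := 0) (W1 := 536870912) (P2 := 536870912) (W2 := 536870912) (P3 := 818728140) (W3 := 40265320)
    rfl (fun _ => rfl) k0_B40pp_011_s1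

theorem s_B40pp_011_s1 {κ x : ℝ} (hκ : κ * h0 = ken x) (hx : ((818728140 : ℕ) : ℝ) / S ≤ x)
    (hx' : x ≤ (((818728140 : ℕ) : ℝ) + (40265320 : ℕ)) / S) :
    AltB (VFD κ) PP tK tL pcB [⟨3, 0, 0, 1449551462⟩] 0 1 1 4 0 (sgb true) (sgb true) x :=
  strip_altBD (m := 1449551462) true rfl hκ (SH.κ0 hκ (SH.hx1 hx).le (SH.hx2 hx').le) (SH.hx1 hx).le (SH.hx2 hx') (covB40).cov (covB01).cov hx hx' c_B40pp_011_s1 cutB_nil ((okx hx hx').extB (T := tt) (sideB hx hx') hκ rfl rfl (.N 0 true) (.O 1 true) (Or.inr rfl))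

noncomputable def cut_B40pp_012_s1 : Cut := Cut.of [[⟨4, 0, 0, 1449551462⟩]]

noncomputable def f_B40pp_012_s1 : ℕ → ℕ → ℕ → ℕ → Bool := onCell 0 536870912 0 536870912 818728140 40265320
    (rowF 0 false true true .pnp 0 1 2 (qsf 0 536870912 0 536870912 1) ndB4q0 ndB0q2 pcB1 cut_B40pp_012_s1 Ext.none)

def k0_B40pp_012_s1 : ∃ t, chk3 f_B40pp_012_s1 t 1 1 1 = true :=
  ⟨(a (l 6) (l 6)), by decide +kernel⟩

theorem c_B40pp_012_s1 : CertF 0 536870912 0 536870912 818728140 40265320 false true true .pnp 0 1 2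
    ndB4q0 ndB0q2 pcB1 cut_B40pp_012_s1 Ext.none :=
  certF0 (fam := false) (s1 := true) (s2 := true) (a := 0) (b := 1) (c := 2) (cn := .pnp) (n1 := ndB4q0) (n2 := ndB0q2) (pc := pcB1) (cut := cut_B40pp_012_s1) (xt := Ext.none) (P1 := 0) (W1 := 536870912) (P2 := 0) (W2 := 536870912) (P3 := 818728140) (W3 := 40265320)
    rfl k0_B40pp_012_s1

theorem s_B40pp_012_s1 {κ x : ℝ} (hκ : κ * h0 = ken x) (hx : ((818728140 : ℕ) : ℝ) / S ≤ x)
    (hx' : x ≤ (((818728140 : ℕ) : ℝ) + (40265320 : ℕ)) / S) :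
    AltB (VFD κ) PP tK tL pcB [⟨3, 0, 0, 1449551462⟩] 0 1 2 4 0 (sgb true) (sgb true) x :=
  strip_altBD (m := 1449551462) true rfl hκ (SH.κ0 hκ (SH.hx1 hx).le (SH.hx2 hx').le) (SH.hx1 hx).le (SH.hx2 hx') (covB40).cov (covB02).cov hx hx' c_B40pp_012_s1 cutB_nil (noExt_B)

noncomputable def cut_B40pp_022_s1 : Cut := Cut.of [[⟨4, 0, 0, 1449551462⟩]]

noncomputable def f_B40pp_022_s1 : ℕ → ℕ → ℕ → ℕ → Bool := onCell 1073741824 536870912 0 536870912 818728140 40265320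
    (rowF 2 false true true .pp 0 2 2 (qsf 0 536870912 0 536870912 2) ndB4q0 ndB0q2 pcB2 cut_B40pp_022_s1 Ext.none)

def k0_B40pp_022_s1 : ∃ t, chk3 f_B40pp_022_s1 t 1 1 1 = true :=
  ⟨(l 6), by decide +kernel⟩

theorem c_B40pp_022_s1 : CertF 0 536870912 0 536870912 818728140 40265320 false true true .pp 0 2 2
    ndB4q0 ndB0q2 pcB2 cut_B40pp_022_s1 Ext.none :=
  certF2 (fam := false) (s1 := true) (s2 := true) (a := 0) (b := 2) (c := 2) (cn := .pp) (n1 := ndB4q0) (n2 := ndB0q2) (pc := pcB2) (cut := cut_B40pp_022_s1) (xt := Ext.none) (P1 := 0) (W1 := 536870912) (P2 := 0) (W2 := 536870912) (P3 := 818728140) (W3 := 40265320)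
    rfl (fun _ => rfl) k0_B40pp_022_s1

theorem s_B40pp_022_s1 {κ x : ℝ} (hκ : κ * h0 = ken x) (hx : ((818728140 : ℕ) : ℝ) / S ≤ x)
    (hx' : x ≤ (((818728140 : ℕ) : ℝ) + (40265320 : ℕ)) / S) :
    AltB (VFD κ) PP tK tL pcB [⟨3, 0, 0, 1449551462⟩] 0 2 2 4 0 (sgb true) (sgb true) x :=
  strip_altBD (m := 1449551462) true rfl hκ (SH.κ0 hκ (SH.hx1 hx).le (SH.hx2 hx').le) (SH.hx1 hx).le (SH.hx2 hx') (covB40).cov (covB02).cov hx hx' c_B40pp_022_s1 cutB_nil (noExt_B)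

noncomputable def cut_B40pp_101_s1 : Cut := Cut.of [[⟨4, 0, 0, 1449551462⟩], [⟨0, 1, 0, 67108864⟩, ⟨1, 0, 0, 67108864⟩, ⟨2, 1, 0, 67108864⟩]]

noncomputable def xt_B40pp_101_s1 : Ext := strExt dd false true true .s0 .u0 .u0m .npn 1 0 1 rfl rfl gf0 vv ndB4q1 ndB0q1

noncomputable def f_B40pp_101_s1 : ℕ → ℕ → ℕ → ℕ → Bool := onCell 0 536870912 536870912 536870912 818728140 40265320
    (rowF 2 false true true .npn 1 0 1 (qsf 536870912 536870912 536870912 536870912 0) ndB4q1 ndB0q1 pcB0 cut_B40pp_101_s1 xt_B40pp_101_s1)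

def k0_B40pp_101_s1 : ∃ t, chk3 f_B40pp_101_s1 t 2 1 1 = true :=
  ⟨(b (l 3) (a (b (l 3) (b (b (l 3) (a (l 3) (a (l 3) (b (l 3) (l 528696079))))) (a (b (b (l 3) (a (l 3) (a (l 3) (l 529511183)))) (b (a (b (l 3) (l 14)) (a (a (b (l 3) (l 529677071)) (b (l 529558799) (l 529666319))) (a (l 529531151) (l 529521935)))) (a (l 14) (a (b (a (l 14) (l 529768207)) (l 14)) (b (b (l 16765344) (l 16735584)) (l 16722328)))))) (b (a (a (b (l 3) (l 529229583)) (b (l 529029135) (l 529201935))) (b (l 528852239) (l 529036815))) (b (a (a (l 529436943) (l 529423375)) (a (l 16749784) (l 16687552))) (a (a (b (l 16720840) (l 16703032)) (l 16692352)) (a (l 16672280) (l 16651776)))))))) (b (b (l 3) (a (l 3) (b (l 3) (a (b (l 3) (l 527886607)) (b (l 527908367) (l 528094223)))))) (a (b (b (a (l 3) (l 528039183)) (a (b (a (l 3) (l 528366351)) (l 528580111)) (b (l 528418063) (a (l 528523279) (l 16740808))))) (b (a (a (l 528894223) (l 528856079))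 (b (l 528710415) (l 16649096))) (a (b (l 16697856) (l 16619456)) (b (l 16613512) (l 16576224))))) (b (b (a (l 528210191) (b (l 528297487) (l 528507919))) (a (b (l 528557071) (l 528764175)) (b (l 16714280) (l 16639952)))) (a (b (b (l 16644816) (l 16609920)) (l 16649240)) (b (l 16589888) (l 16517200)))))))), by decide +kernel⟩

def k1_B40pp_101_s1 : ∃ t, chk3 f_B40pp_101_s1 t 3 1 1 = true :=
  ⟨(b (a (l 3) (l 1)) (a (b (b (a (a (l 3) (l 526821135)) (a (l 526374671) (l 1))) (a (b (a (l 527821071) (l 528345871)) (a (l 528115471) (b (l 527749903) (l 527893263)))) (b (a (l 528699919) (l 175590229927)) (a (b (l 16660968) (l 16627728)) (l 16632688))))) (b (a (b (a (l 528473103) (l 528404239)) (a (l 528874511) (l 16646984))) (b (a (l 16576872) (l 527814159)) (a (l 16382080) (l 16450864)))) (a (b (a (l 16549504) (l 16494568)) (b (l 16594392) (l 16425744))) (a (b (l 16269416) (l 16359248)) (b (l 16378216) (l 16300904))))))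 (b (b (l 1) (a (b (l 1) (a (l 424697711815) (l 1))) (l 1))) (b (a (b (a (l 16465224) (l 16409256)) (a (l 16393696) (l 16337224))) (b (l 1) (l 422549855831))) (a (b (a (l 16321048) (l 16266552)) (l 16134176)) (b (l 16106520) (l 6))))))), by decide +kernel⟩

theorem t2_B40pp_101_s1 : ∃ t, chk3 f_B40pp_101_s1 t 1 1 1 = true := ex3_a k0_B40pp_101_s1 k1_B40pp_101_s1

theorem c_B40pp_101_s1 : CertF 536870912 536870912 536870912 536870912 818728140 40265320 false true true .npn 1 0 1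
    ndB4q1 ndB0q1 pcB0 cut_B40pp_101_s1 xt_B40pp_101_s1 :=
  certF2 (fam := false) (s1 := true) (s2 := true) (a := 1) (b := 0) (c := 1) (cn := .npn) (n1 := ndB4q1) (n2 := ndB0q1) (pc := pcB0) (cut := cut_B40pp_101_s1) (xt := xt_B40pp_101_s1) (P1 := 536870912) (W1 := 536870912) (P2 := 536870912) (W2 := 536870912) (P3 := 818728140) (W3 := 40265320)
    rfl (fun _ => rfl) t2_B40pp_101_s1

theorem s_B40pp_101_s1 {κ x : ℝ} (hκ : κ * h0 = ken x) (hx : ((818728140 : ℕ) : ℝ) / S ≤ x)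
    (hx' : x ≤ (((818728140 : ℕ) : ℝ) + (40265320 : ℕ)) / S)
    (H : CutB (VFD κ) PP tK tL pcB (Cut.of [[⟨0, 1, 0, 67108864⟩, ⟨1, 0, 0, 67108864⟩, ⟨2, 1, 0, 67108864⟩]]) 1 0 1 4 0 (sgb true) (sgb true) x) :
    AltB (VFD κ) PP tK tL pcB [⟨3, 0, 0, 1449551462⟩] 1 0 1 4 0 (sgb true) (sgb true) x :=
  strip_altBD (m := 1449551462) true rfl hκ (SH.κ0 hκ (SH.hx1 hx).le (SH.hx2 hx').le) (SH.hx1 hx).le (SH.hx2 hx') (covB41).cov (covB01).cov hx hx' c_B40pp_101_s1 H ((okx hx hx').extB (T := tt) (sideB hx hx') hκ rfl rfl (.N 1 true) (.O 1 true) (Or.inl rfl))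

noncomputable def cut_B40pp_102_s1 : Cut := Cut.of [[⟨4, 0, 0, 1449551462⟩], [⟨0, 1, 0, 67108864⟩, ⟨1, 0, 0, 67108864⟩, ⟨2, 1, 0, 67108864⟩]]

noncomputable def f_B40pp_102_s1 : ℕ → ℕ → ℕ → ℕ → Bool := onCell 0 536870912 0 536870912 818728140 40265320
    (rowF 2 false true true .npp 1 0 2 (qsf 536870912 536870912 0 536870912 0) ndB4q1 ndB0q2 pcB0 cut_B40pp_102_s1 Ext.none)

def k0_B40pp_102_s1 : ∃ t, chk3 f_B40pp_102_s1 t 1 1 1 = true :=
  ⟨(a (b (a (l 6) (l 6)) (a (b (a (l 2) (b (l 6) (a (b (l 16115504) (l 16215128)) (b (l 6) (l 16187688))))) (b (a (a (l 2) (a (b (l 2) (l 14)) (b (l 16340680) (l 16404128)))) (b (a (a (l 16326072) (l 16311200)) (l 16288296)) (a (a (l 16430272) (l 16414096)) (l 16389128)))) (a (a (l 14) (a (l 14) (b (b (l 16525224) (l 16578784)) (b (l 16633016) (l 16688192))))) (b (a (a (l 16535184) (l 16517680)) (l 16490568)) (b (a (l 16605544) (l 16567392)) (a (a (l 16669248) (l 16649792))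 (l 16619528))))))) (a (b (a (b (l 6) (l 16112208)) (l 6)) (b (a (b (l 16256592) (l 16354336)) (a (l 16279288) (l 16263832))) (b (a (l 16452464) (l 16412824)) (a (l 16552016) (l 16508024))))) (b (l 6) (a (b (l 16163728) (l 16508344)) (b (l 16225872) (l 16391704))))))) (b (l 6) (a (b (l 6) (b (l 6) (a (a (l 16356264) (l 16303248)) (b (l 6) (l 16255472))))) (l 6)))), by decide +kernel⟩

theorem c_B40pp_102_s1 : CertF 536870912 536870912 0 536870912 818728140 40265320 false true true .npp 1 0 2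
    ndB4q1 ndB0q2 pcB0 cut_B40pp_102_s1 Ext.none :=
  certF2 (fam := false) (s1 := true) (s2 := true) (a := 1) (b := 0) (c := 2) (cn := .npp) (n1 := ndB4q1) (n2 := ndB0q2) (pc := pcB0) (cut := cut_B40pp_102_s1) (xt := Ext.none) (P1 := 536870912) (W1 := 536870912) (P2 := 0) (W2 := 536870912) (P3 := 818728140) (W3 := 40265320)
    rfl (fun _ => rfl) k0_B40pp_102_s1

theorem s_B40pp_102_s1 {κ x : ℝ} (hκ : κ * h0 = ken x) (hx : ((818728140 : ℕ) : ℝ) / S ≤ x)
    (hx' : x ≤ (((818728140 : ℕ) : ℝ) + (40265320 : ℕ)) / S)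
    (H : CutB (VFD κ) PP tK tL pcB (Cut.of [[⟨0, 1, 0, 67108864⟩, ⟨1, 0, 0, 67108864⟩, ⟨2, 1, 0, 67108864⟩]]) 1 0 2 4 0 (sgb true) (sgb true) x) :
    AltB (VFD κ) PP tK tL pcB [⟨3, 0, 0, 1449551462⟩] 1 0 2 4 0 (sgb true) (sgb true) x :=
  strip_altBD (m := 1449551462) true rfl hκ (SH.κ0 hκ (SH.hx1 hx).le (SH.hx2 hx').le) (SH.hx1 hx).le (SH.hx2 hx') (covB41).cov (covB02).cov hx hx' c_B40pp_102_s1 H (noExt_B)

noncomputable def cut_B40pp_112_s1 : Cut := Cut.of [[⟨4, 0, 0, 1449551462⟩]]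

noncomputable def f_B40pp_112_s1 : ℕ → ℕ → ℕ → ℕ → Bool := onCell 536870912 536870912 0 536870912 818728140 40265320
    (rowF 2 false true true .dn 1 1 2 (qsf 536870912 536870912 0 536870912 1) ndB4q1 ndB0q2 pcB1 cut_B40pp_112_s1 Ext.none)

def k0_B40pp_112_s1 : ∃ t, chk3 f_B40pp_112_s1 t 1 1 1 = true :=
  ⟨(b (l 6) (l 6)), by decide +kernel⟩

theorem c_B40pp_112_s1 : CertF 536870912 536870912 0 536870912 818728140 40265320 false true true .dn 1 1 2
    ndB4q1 ndB0q2 pcB1 cut_B40pp_112_s1 Ext.none :=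
  certF2 (fam := false) (s1 := true) (s2 := true) (a := 1) (b := 1) (c := 2) (cn := .dn) (n1 := ndB4q1) (n2 := ndB0q2) (pc := pcB1) (cut := cut_B40pp_112_s1) (xt := Ext.none) (P1 := 536870912) (W1 := 536870912) (P2 := 0) (W2 := 536870912) (P3 := 818728140) (W3 := 40265320)
    rfl (fun _ => rfl) k0_B40pp_112_s1

theorem s_B40pp_112_s1 {κ x : ℝ} (hκ : κ * h0 = ken x) (hx : ((818728140 : ℕ) : ℝ) / S ≤ x)
    (hx' : x ≤ (((818728140 : ℕ) : ℝ) + (40265320 : ℕ)) / S) :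
    AltB (VFD κ) PP tK tL pcB [⟨3, 0, 0, 1449551462⟩] 1 1 2 4 0 (sgb true) (sgb true) x :=
  strip_altBD (m := 1449551462) true rfl hκ (SH.κ0 hκ (SH.hx1 hx).le (SH.hx2 hx').le) (SH.hx1 hx).le (SH.hx2 hx') (covB41).cov (covB02).cov hx hx' c_B40pp_112_s1 cutB_nil (noExt_B)

noncomputable def cut_B40pp_202_s1 : Cut := Cut.of [[⟨4, 0, 0, 1449551462⟩], [⟨0, 1, 0, 67108864⟩, ⟨1, 0, 0, 67108864⟩, ⟨2, 1, 0, 67108864⟩]]

noncomputable def f_B40pp_202_s1 : ℕ → ℕ → ℕ → ℕ → Bool := onCell 0 536870912 0 536870912 818728140 40265320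
    (rowF 2 false true true .pp 2 0 2 (qsf 1073741824 536870912 0 536870912 0) ndB4q2 ndB0q2 pcB0 cut_B40pp_202_s1 Ext.none)

def k0_B40pp_202_s1 : ∃ t, chk3 f_B40pp_202_s1 t 1 1 1 = true :=
  ⟨(a (b (a (l 6) (l 6)) (b (a (a (b (a (b (l 16352400) (l 16399456)) (b (l 6) (l 16273064))) (a (a (l 16413392) (l 16435312)) (b (l 16313488) (l 16358080)))) (b (l 6) (a (b (l 16167888) (l 16212296)) (l 260951657239)))) (l 1)) (a (a (a (b (b (a (l 16568600) (l 16506232)) (l 14)) (l 14)) (a (b (b (l 16440296) (l 14)) (l 14)) (b (b (l 16370792) (l 16502072)) (l 1)))) (b (a (b (l 16207112) (l 1)) (l 1)) (l 1))) (l 1)))) (l 1)), by decide +kernel⟩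

theorem c_B40pp_202_s1 : CertF 1073741824 536870912 0 536870912 818728140 40265320 false true true .pp 2 0 2
    ndB4q2 ndB0q2 pcB0 cut_B40pp_202_s1 Ext.none :=
  certF2 (fam := false) (s1 := true) (s2 := true) (a := 2) (b := 0) (c := 2) (cn := .pp) (n1 := ndB4q2) (n2 := ndB0q2) (pc := pcB0) (cut := cut_B40pp_202_s1) (xt := Ext.none) (P1 := 1073741824) (W1 := 536870912) (P2 := 0) (W2 := 536870912) (P3 := 818728140) (W3 := 40265320)
    rfl (fun _ => rfl) k0_B40pp_202_s1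

theorem s_B40pp_202_s1 {κ x : ℝ} (hκ : κ * h0 = ken x) (hx : ((818728140 : ℕ) : ℝ) / S ≤ x)
    (hx' : x ≤ (((818728140 : ℕ) : ℝ) + (40265320 : ℕ)) / S)
    (H : CutB (VFD κ) PP tK tL pcB (Cut.of [[⟨0, 1, 0, 67108864⟩, ⟨1, 0, 0, 67108864⟩, ⟨2, 1, 0, 67108864⟩]]) 2 0 2 4 0 (sgb true) (sgb true) x) :
    AltB (VFD κ) PP tK tL pcB [⟨3, 0, 0, 1449551462⟩] 2 0 2 4 0 (sgb true) (sgb true) x :=
  strip_altBD (m := 1449551462) true rfl hκ (SH.κ0 hκ (SH.hx1 hx).le (SH.hx2 hx').le) (SH.hx1 hx).le (SH.hx2 hx') (covB42).cov (covB02).cov hx hx' c_B40pp_202_s1 H (noExt_B)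

noncomputable def cut_B40pm_001_s1 : Cut := Cut.of [[⟨4, 0, 0, 1449551462⟩]]

noncomputable def f_B40pm_001_s1 : ℕ → ℕ → ℕ → ℕ → Bool := onCell 0 536870912 536870912 536870912 818728140 40265320
    (rowF 0 false true false .up 0 0 1 (qsf 0 536870912 536870912 536870912 0) ndB4q0 ndB0q1 pcB0 cut_B40pm_001_s1 Ext.none)

def k0_B40pm_001_s1 : ∃ t, chk3 f_B40pm_001_s1 t 1 1 1 = true :=
  ⟨(l 4), by decide +kernel⟩

theorem c_B40pm_001_s1 : CertF 0 536870912 536870912 536870912 818728140 40265320 false true false .up 0 0 1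
    ndB4q0 ndB0q1 pcB0 cut_B40pm_001_s1 Ext.none :=
  certF0 (fam := false) (s1 := true) (s2 := false) (a := 0) (b := 0) (c := 1) (cn := .up) (n1 := ndB4q0) (n2 := ndB0q1) (pc := pcB0) (cut := cut_B40pm_001_s1) (xt := Ext.none) (P1 := 0) (W1 := 536870912) (P2 := 536870912) (W2 := 536870912) (P3 := 818728140) (W3 := 40265320)
    rfl k0_B40pm_001_s1

theorem s_B40pm_001_s1 {κ x : ℝ} (hκ : κ * h0 = ken x) (hx : ((818728140 : ℕ) : ℝ) / S ≤ x)
    (hx' : x ≤ (((818728140 : ℕ) : ℝ) + (40265320 : ℕ)) / S) :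
    AltB (VFD κ) PP tK tL pcB [⟨3, 0, 0, 1449551462⟩] 0 0 1 4 0 (sgb true) (sgb false) x :=
  strip_altBD (m := 1449551462) true rfl hκ (SH.κ0 hκ (SH.hx1 hx).le (SH.hx2 hx').le) (SH.hx1 hx).le (SH.hx2 hx') (covB40).cov (covB01).cov hx hx' c_B40pm_001_s1 cutB_nil (noExt_B)

noncomputable def cut_B40pm_011_s1 : Cut := Cut.of [[⟨4, 0, 0, 1449551462⟩]]

noncomputable def f_B40pm_011_s1 : ℕ → ℕ → ℕ → ℕ → Bool := onCell 0 536870912 536870912 536870912 818728140 40265320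
    (rowF 0 false true false .pnn 0 1 1 (qsf 0 536870912 536870912 536870912 1) ndB4q0 ndB0q1 pcB1 cut_B40pm_011_s1 Ext.none)

def k0_B40pm_011_s1 : ∃ t, chk3 f_B40pm_011_s1 t 1 1 1 = true :=
  ⟨(l 4), by decide +kernel⟩

theorem c_B40pm_011_s1 : CertF 0 536870912 536870912 536870912 818728140 40265320 false true false .pnn 0 1 1
    ndB4q0 ndB0q1 pcB1 cut_B40pm_011_s1 Ext.none :=
  certF0 (fam := false) (s1 := true) (s2 := false) (a := 0) (b := 1) (c := 1) (cn := .pnn) (n1 := ndB4q0) (n2 := ndB0q1) (pc := pcB1) (cut := cut_B40pm_011_s1) (xt := Ext.none) (P1 := 0) (W1 := 536870912) (P2 := 536870912) (W2 := 536870912) (P3 := 818728140) (W3 := 40265320)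
    rfl k0_B40pm_011_s1

theorem s_B40pm_011_s1 {κ x : ℝ} (hκ : κ * h0 = ken x) (hx : ((818728140 : ℕ) : ℝ) / S ≤ x)
    (hx' : x ≤ (((818728140 : ℕ) : ℝ) + (40265320 : ℕ)) / S) :
    AltB (VFD κ) PP tK tL pcB [⟨3, 0, 0, 1449551462⟩] 0 1 1 4 0 (sgb true) (sgb false) x :=
  strip_altBD (m := 1449551462) true rfl hκ (SH.κ0 hκ (SH.hx1 hx).le (SH.hx2 hx').le) (SH.hx1 hx).le (SH.hx2 hx') (covB40).cov (covB01).cov hx hx' c_B40pm_011_s1 cutB_nil (noExt_B)

noncomputable def cut_B40pm_012_s1 : Cut := Cut.of [[⟨4, 0, 0, 1449551462⟩]]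

noncomputable def f_B40pm_012_s1 : ℕ → ℕ → ℕ → ℕ → Bool := onCell 0 536870912 0 536870912 818728140 40265320
    (rowF 0 false true false .pnp 0 1 2 (qsf 0 536870912 0 536870912 1) ndB4q0 ndB0q2 pcB1 cut_B40pm_012_s1 Ext.none)

def k0_B40pm_012_s1 : ∃ t, chk3 f_B40pm_012_s1 t 1 1 1 = true :=
  ⟨(l 6), by decide +kernel⟩

theorem c_B40pm_012_s1 : CertF 0 536870912 0 536870912 818728140 40265320 false true false .pnp 0 1 2
    ndB4q0 ndB0q2 pcB1 cut_B40pm_012_s1 Ext.none :=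
  certF0 (fam := false) (s1 := true) (s2 := false) (a := 0) (b := 1) (c := 2) (cn := .pnp) (n1 := ndB4q0) (n2 := ndB0q2) (pc := pcB1) (cut := cut_B40pm_012_s1) (xt := Ext.none) (P1 := 0) (W1 := 536870912) (P2 := 0) (W2 := 536870912) (P3 := 818728140) (W3 := 40265320)
    rfl k0_B40pm_012_s1

theorem s_B40pm_012_s1 {κ x : ℝ} (hκ : κ * h0 = ken x) (hx : ((818728140 : ℕ) : ℝ) / S ≤ x)
    (hx' : x ≤ (((818728140 : ℕ) : ℝ) + (40265320 : ℕ)) / S) :
    AltB (VFD κ) PP tK tL pcB [⟨3, 0, 0, 1449551462⟩] 0 1 2 4 0 (sgb true) (sgb false) x :=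
  strip_altBD (m := 1449551462) true rfl hκ (SH.κ0 hκ (SH.hx1 hx).le (SH.hx2 hx').le) (SH.hx1 hx).le (SH.hx2 hx') (covB40).cov (covB02).cov hx hx' c_B40pm_012_s1 cutB_nil (noExt_B)

noncomputable def cut_B40pm_022_s1 : Cut := Cut.of [[⟨4, 0, 0, 1449551462⟩]]

noncomputable def f_B40pm_022_s1 : ℕ → ℕ → ℕ → ℕ → Bool := onCell 0 536870912 0 536870912 818728140 40265320
    (rowF 0 false true false .pp 0 2 2 (qsf 0 536870912 0 536870912 2) ndB4q0 ndB0q2 pcB2 cut_B40pm_022_s1 Ext.none)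

def k0_B40pm_022_s1 : ∃ t, chk3 f_B40pm_022_s1 t 1 1 1 = true :=
  ⟨(l 6), by decide +kernel⟩

theorem c_B40pm_022_s1 : CertF 0 536870912 0 536870912 818728140 40265320 false true false .pp 0 2 2
    ndB4q0 ndB0q2 pcB2 cut_B40pm_022_s1 Ext.none :=
  certF0 (fam := false) (s1 := true) (s2 := false) (a := 0) (b := 2) (c := 2) (cn := .pp) (n1 := ndB4q0) (n2 := ndB0q2) (pc := pcB2) (cut := cut_B40pm_022_s1) (xt := Ext.none) (P1 := 0) (W1 := 536870912) (P2 := 0) (W2 := 536870912) (P3 := 818728140) (W3 := 40265320)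
    rfl k0_B40pm_022_s1

theorem s_B40pm_022_s1 {κ x : ℝ} (hκ : κ * h0 = ken x) (hx : ((818728140 : ℕ) : ℝ) / S ≤ x)
    (hx' : x ≤ (((818728140 : ℕ) : ℝ) + (40265320 : ℕ)) / S) :
    AltB (VFD κ) PP tK tL pcB [⟨3, 0, 0, 1449551462⟩] 0 2 2 4 0 (sgb true) (sgb false) x :=
  strip_altBD (m := 1449551462) true rfl hκ (SH.κ0 hκ (SH.hx1 hx).le (SH.hx2 hx').le) (SH.hx1 hx).le (SH.hx2 hx') (covB40).cov (covB02).cov hx hx' c_B40pm_022_s1 cutB_nil (noExt_B)

noncomputable def cut_B40pm_101_s1 : Cut := Cut.of [[⟨4, 0, 0, 1449551462⟩]]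

noncomputable def f_B40pm_101_s1 : ℕ → ℕ → ℕ → ℕ → Bool := onCell 536870912 536870912 536870912 536870912 818728140 40265320
    (rowF 0 false true false .npn 1 0 1 (qsf 536870912 536870912 536870912 536870912 0) ndB4q1 ndB0q1 pcB0 cut_B40pm_101_s1 Ext.none)

def k0_B40pm_101_s1 : ∃ t, chk3 f_B40pm_101_s1 t 1 1 1 = true :=
  ⟨(l 4), by decide +kernel⟩

theorem c_B40pm_101_s1 : CertF 536870912 536870912 536870912 536870912 818728140 40265320 false true false .npn 1 0 1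
    ndB4q1 ndB0q1 pcB0 cut_B40pm_101_s1 Ext.none :=
  certF0 (fam := false) (s1 := true) (s2 := false) (a := 1) (b := 0) (c := 1) (cn := .npn) (n1 := ndB4q1) (n2 := ndB0q1) (pc := pcB0) (cut := cut_B40pm_101_s1) (xt := Ext.none) (P1 := 536870912) (W1 := 536870912) (P2 := 536870912) (W2 := 536870912) (P3 := 818728140) (W3 := 40265320)
    rfl k0_B40pm_101_s1

theorem s_B40pm_101_s1 {κ x : ℝ} (hκ : κ * h0 = ken x) (hx : ((818728140 : ℕ) : ℝ) / S ≤ x)
    (hx' : x ≤ (((818728140 : ℕ) : ℝ) + (40265320 : ℕ)) / S) :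
    AltB (VFD κ) PP tK tL pcB [⟨3, 0, 0, 1449551462⟩] 1 0 1 4 0 (sgb true) (sgb false) x :=
  strip_altBD (m := 1449551462) true rfl hκ (SH.κ0 hκ (SH.hx1 hx).le (SH.hx2 hx').le) (SH.hx1 hx).le (SH.hx2 hx') (covB41).cov (covB01).cov hx hx' c_B40pm_101_s1 cutB_nil (noExt_B)

noncomputable def cut_B40pm_102_s1 : Cut := Cut.of [[⟨4, 0, 0, 1449551462⟩]]

noncomputable def f_B40pm_102_s1 : ℕ → ℕ → ℕ → ℕ → Bool := onCell 536870912 536870912 0 536870912 818728140 40265320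
    (rowF 0 false true false .npp 1 0 2 (qsf 536870912 536870912 0 536870912 0) ndB4q1 ndB0q2 pcB0 cut_B40pm_102_s1 Ext.none)

def k0_B40pm_102_s1 : ∃ t, chk3 f_B40pm_102_s1 t 1 1 1 = true :=
  ⟨(l 6), by decide +kernel⟩

theorem c_B40pm_102_s1 : CertF 536870912 536870912 0 536870912 818728140 40265320 false true false .npp 1 0 2
    ndB4q1 ndB0q2 pcB0 cut_B40pm_102_s1 Ext.none :=
  certF0 (fam := false) (s1 := true) (s2 := false) (a := 1) (b := 0) (c := 2) (cn := .npp) (n1 := ndB4q1) (n2 := ndB0q2) (pc := pcB0) (cut := cut_B40pm_102_s1) (xt := Ext.none) (P1 := 536870912) (W1 := 536870912) (P2 := 0) (W2 := 536870912) (P3 := 818728140) (W3 := 40265320)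
    rfl k0_B40pm_102_s1

theorem s_B40pm_102_s1 {κ x : ℝ} (hκ : κ * h0 = ken x) (hx : ((818728140 : ℕ) : ℝ) / S ≤ x)
    (hx' : x ≤ (((818728140 : ℕ) : ℝ) + (40265320 : ℕ)) / S) :
    AltB (VFD κ) PP tK tL pcB [⟨3, 0, 0, 1449551462⟩] 1 0 2 4 0 (sgb true) (sgb false) x :=
  strip_altBD (m := 1449551462) true rfl hκ (SH.κ0 hκ (SH.hx1 hx).le (SH.hx2 hx').le) (SH.hx1 hx).le (SH.hx2 hx') (covB41).cov (covB02).cov hx hx' c_B40pm_102_s1 cutB_nil (noExt_B)

noncomputable def cut_B40pm_112_s1 : Cut := Cut.of [[⟨4, 0, 0, 1449551462⟩]]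

noncomputable def f_B40pm_112_s1 : ℕ → ℕ → ℕ → ℕ → Bool := onCell 536870912 536870912 0 536870912 818728140 40265320
    (rowF 0 false true false .dn 1 1 2 (qsf 536870912 536870912 0 536870912 1) ndB4q1 ndB0q2 pcB1 cut_B40pm_112_s1 Ext.none)

def k0_B40pm_112_s1 : ∃ t, chk3 f_B40pm_112_s1 t 1 1 1 = true :=
  ⟨(l 6), by decide +kernel⟩

theorem c_B40pm_112_s1 : CertF 536870912 536870912 0 536870912 818728140 40265320 false true false .dn 1 1 2
    ndB4q1 ndB0q2 pcB1 cut_B40pm_112_s1 Ext.none :=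
  certF0 (fam := false) (s1 := true) (s2 := false) (a := 1) (b := 1) (c := 2) (cn := .dn) (n1 := ndB4q1) (n2 := ndB0q2) (pc := pcB1) (cut := cut_B40pm_112_s1) (xt := Ext.none) (P1 := 536870912) (W1 := 536870912) (P2 := 0) (W2 := 536870912) (P3 := 818728140) (W3 := 40265320)
    rfl k0_B40pm_112_s1

theorem s_B40pm_112_s1 {κ x : ℝ} (hκ : κ * h0 = ken x) (hx : ((818728140 : ℕ) : ℝ) / S ≤ x)
    (hx' : x ≤ (((818728140 : ℕ) : ℝ) + (40265320 : ℕ)) / S) :
    AltB (VFD κ) PP tK tL pcB [⟨3, 0, 0, 1449551462⟩] 1 1 2 4 0 (sgb true) (sgb false) x :=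
  strip_altBD (m := 1449551462) true rfl hκ (SH.κ0 hκ (SH.hx1 hx).le (SH.hx2 hx').le) (SH.hx1 hx).le (SH.hx2 hx') (covB41).cov (covB02).cov hx hx' c_B40pm_112_s1 cutB_nil (noExt_B)

noncomputable def cut_B40pm_202_s1 : Cut := Cut.of [[⟨4, 0, 0, 1449551462⟩]]

noncomputable def f_B40pm_202_s1 : ℕ → ℕ → ℕ → ℕ → Bool := onCell 0 536870912 0 536870912 818728140 40265320
    (rowF 2 false true false .pp 2 0 2 (qsf 1073741824 536870912 0 536870912 0) ndB4q2 ndB0q2 pcB0 cut_B40pm_202_s1 Ext.none)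

def k0_B40pm_202_s1 : ∃ t, chk3 f_B40pm_202_s1 t 1 1 1 = true :=
  ⟨(l 6), by decide +kernel⟩

theorem c_B40pm_202_s1 : CertF 1073741824 536870912 0 536870912 818728140 40265320 false true false .pp 2 0 2
    ndB4q2 ndB0q2 pcB0 cut_B40pm_202_s1 Ext.none :=
  certF2 (fam := false) (s1 := true) (s2 := false) (a := 2) (b := 0) (c := 2) (cn := .pp) (n1 := ndB4q2) (n2 := ndB0q2) (pc := pcB0) (cut := cut_B40pm_202_s1) (xt := Ext.none) (P1 := 1073741824) (W1 := 536870912) (P2 := 0) (W2 := 536870912) (P3 := 818728140) (W3 := 40265320)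
    rfl (fun _ => rfl) k0_B40pm_202_s1

theorem s_B40pm_202_s1 {κ x : ℝ} (hκ : κ * h0 = ken x) (hx : ((818728140 : ℕ) : ℝ) / S ≤ x)
    (hx' : x ≤ (((818728140 : ℕ) : ℝ) + (40265320 : ℕ)) / S) :
    AltB (VFD κ) PP tK tL pcB [⟨3, 0, 0, 1449551462⟩] 2 0 2 4 0 (sgb true) (sgb false) x :=
  strip_altBD (m := 1449551462) true rfl hκ (SH.κ0 hκ (SH.hx1 hx).le (SH.hx2 hx').le) (SH.hx1 hx).le (SH.hx2 hx') (covB42).cov (covB02).cov hx hx' c_B40pm_202_s1 cutB_nil (noExt_B)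

noncomputable def cut_B40mm_001_s1 : Cut := Cut.of [[⟨4, 0, 0, 1449551462⟩]]

noncomputable def f_B40mm_001_s1 : ℕ → ℕ → ℕ → ℕ → Bool := onCell 0 536870912 536870912 536870912 818728140 40265320
    (rowF 0 false false false .up 0 0 1 (qsf 0 536870912 536870912 536870912 0) ndB4q0 ndB0q1 pcB0 cut_B40mm_001_s1 Ext.none)

def k0_B40mm_001_s1 : ∃ t, chk3 f_B40mm_001_s1 t 1 1 1 = true :=
  ⟨(l 5), by decide +kernel⟩

theorem c_B40mm_001_s1 : CertF 0 536870912 536870912 536870912 818728140 40265320 false false false .up 0 0 1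
    ndB4q0 ndB0q1 pcB0 cut_B40mm_001_s1 Ext.none :=
  certF0 (fam := false) (s1 := false) (s2 := false) (a := 0) (b := 0) (c := 1) (cn := .up) (n1 := ndB4q0) (n2 := ndB0q1) (pc := pcB0) (cut := cut_B40mm_001_s1) (xt := Ext.none) (P1 := 0) (W1 := 536870912) (P2 := 536870912) (W2 := 536870912) (P3 := 818728140) (W3 := 40265320)
    rfl k0_B40mm_001_s1

theorem s_B40mm_001_s1 {κ x : ℝ} (hκ : κ * h0 = ken x) (hx : ((818728140 : ℕ) : ℝ) / S ≤ x)
    (hx' : x ≤ (((818728140 : ℕ) : ℝ) + (40265320 : ℕ)) / S) :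
    AltB (VFD κ) PP tK tL pcB [⟨3, 0, 0, 1449551462⟩] 0 0 1 4 0 (sgb false) (sgb false) x :=
  strip_altBD (m := 1449551462) true rfl hκ (SH.κ0 hκ (SH.hx1 hx).le (SH.hx2 hx').le) (SH.hx1 hx).le (SH.hx2 hx') (covB40).cov (covB01).cov hx hx' c_B40mm_001_s1 cutB_nil (noExt_B)

noncomputable def cut_B40mm_011_s1 : Cut := Cut.of [[⟨4, 0, 0, 1449551462⟩]]

noncomputable def f_B40mm_011_s1 : ℕ → ℕ → ℕ → ℕ → Bool := onCell 0 536870912 536870912 536870912 818728140 40265320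
    (rowF 0 false false false .pnn 0 1 1 (qsf 0 536870912 536870912 536870912 1) ndB4q0 ndB0q1 pcB1 cut_B40mm_011_s1 Ext.none)

def k0_B40mm_011_s1 : ∃ t, chk3 f_B40mm_011_s1 t 1 1 1 = true :=
  ⟨(l 5), by decide +kernel⟩

theorem c_B40mm_011_s1 : CertF 0 536870912 536870912 536870912 818728140 40265320 false false false .pnn 0 1 1
    ndB4q0 ndB0q1 pcB1 cut_B40mm_011_s1 Ext.none :=
  certF0 (fam := false) (s1 := false) (s2 := false) (a := 0) (b := 1) (c := 1) (cn := .pnn) (n1 := ndB4q0) (n2 := ndB0q1) (pc := pcB1) (cut := cut_B40mm_011_s1) (xt := Ext.none) (P1 := 0) (W1 := 536870912) (P2 := 536870912) (W2 := 536870912) (P3 := 818728140) (W3 := 40265320)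
    rfl k0_B40mm_011_s1

theorem s_B40mm_011_s1 {κ x : ℝ} (hκ : κ * h0 = ken x) (hx : ((818728140 : ℕ) : ℝ) / S ≤ x)
    (hx' : x ≤ (((818728140 : ℕ) : ℝ) + (40265320 : ℕ)) / S) :
    AltB (VFD κ) PP tK tL pcB [⟨3, 0, 0, 1449551462⟩] 0 1 1 4 0 (sgb false) (sgb false) x :=
  strip_altBD (m := 1449551462) true rfl hκ (SH.κ0 hκ (SH.hx1 hx).le (SH.hx2 hx').le) (SH.hx1 hx).le (SH.hx2 hx') (covB40).cov (covB01).cov hx hx' c_B40mm_011_s1 cutB_nil (noExt_B)

noncomputable def cut_B40mm_012_s1 : Cut := Cut.of [[⟨4, 0, 0, 1449551462⟩]]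

noncomputable def f_B40mm_012_s1 : ℕ → ℕ → ℕ → ℕ → Bool := onCell 0 536870912 0 536870912 818728140 40265320
    (rowF 0 false false false .pnp 0 1 2 (qsf 0 536870912 0 536870912 1) ndB4q0 ndB0q2 pcB1 cut_B40mm_012_s1 Ext.none)

def k0_B40mm_012_s1 : ∃ t, chk3 f_B40mm_012_s1 t 1 1 1 = true :=
  ⟨(l 5), by decide +kernel⟩

theorem c_B40mm_012_s1 : CertF 0 536870912 0 536870912 818728140 40265320 false false false .pnp 0 1 2
    ndB4q0 ndB0q2 pcB1 cut_B40mm_012_s1 Ext.none :=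
  certF0 (fam := false) (s1 := false) (s2 := false) (a := 0) (b := 1) (c := 2) (cn := .pnp) (n1 := ndB4q0) (n2 := ndB0q2) (pc := pcB1) (cut := cut_B40mm_012_s1) (xt := Ext.none) (P1 := 0) (W1 := 536870912) (P2 := 0) (W2 := 536870912) (P3 := 818728140) (W3 := 40265320)
    rfl k0_B40mm_012_s1

theorem s_B40mm_012_s1 {κ x : ℝ} (hκ : κ * h0 = ken x) (hx : ((818728140 : ℕ) : ℝ) / S ≤ x)
    (hx' : x ≤ (((818728140 : ℕ) : ℝ) + (40265320 : ℕ)) / S) :
    AltB (VFD κ) PP tK tL pcB [⟨3, 0, 0, 1449551462⟩] 0 1 2 4 0 (sgb false) (sgb false) x :=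
  strip_altBD (m := 1449551462) true rfl hκ (SH.κ0 hκ (SH.hx1 hx).le (SH.hx2 hx').le) (SH.hx1 hx).le (SH.hx2 hx') (covB40).cov (covB02).cov hx hx' c_B40mm_012_s1 cutB_nil (noExt_B)

noncomputable def cut_B40mm_022_s1 : Cut := Cut.of [[⟨4, 0, 0, 1449551462⟩]]

noncomputable def f_B40mm_022_s1 : ℕ → ℕ → ℕ → ℕ → Bool := onCell 0 536870912 0 536870912 818728140 40265320
    (rowF 0 false false false .pp 0 2 2 (qsf 0 536870912 0 536870912 2) ndB4q0 ndB0q2 pcB2 cut_B40mm_022_s1 Ext.none)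

def k0_B40mm_022_s1 : ∃ t, chk3 f_B40mm_022_s1 t 1 1 1 = true :=
  ⟨(l 5), by decide +kernel⟩

theorem c_B40mm_022_s1 : CertF 0 536870912 0 536870912 818728140 40265320 false false false .pp 0 2 2
    ndB4q0 ndB0q2 pcB2 cut_B40mm_022_s1 Ext.none :=
  certF0 (fam := false) (s1 := false) (s2 := false) (a := 0) (b := 2) (c := 2) (cn := .pp) (n1 := ndB4q0) (n2 := ndB0q2) (pc := pcB2) (cut := cut_B40mm_022_s1) (xt := Ext.none) (P1 := 0) (W1 := 536870912) (P2 := 0) (W2 := 536870912) (P3 := 818728140) (W3 := 40265320)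
    rfl k0_B40mm_022_s1

theorem s_B40mm_022_s1 {κ x : ℝ} (hκ : κ * h0 = ken x) (hx : ((818728140 : ℕ) : ℝ) / S ≤ x)
    (hx' : x ≤ (((818728140 : ℕ) : ℝ) + (40265320 : ℕ)) / S) :
    AltB (VFD κ) PP tK tL pcB [⟨3, 0, 0, 1449551462⟩] 0 2 2 4 0 (sgb false) (sgb false) x :=
  strip_altBD (m := 1449551462) true rfl hκ (SH.κ0 hκ (SH.hx1 hx).le (SH.hx2 hx').le) (SH.hx1 hx).le (SH.hx2 hx') (covB40).cov (covB02).cov hx hx' c_B40mm_022_s1 cutB_nil (noExt_B)

noncomputable def cut_B40mm_101_s1 : Cut := Cut.of [[⟨4, 0, 0, 1449551462⟩]]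

noncomputable def f_B40mm_101_s1 : ℕ → ℕ → ℕ → ℕ → Bool := onCell 0 536870912 536870912 536870912 818728140 40265320
    (rowF 2 false false false .npn 1 0 1 (qsf 536870912 536870912 536870912 536870912 0) ndB4q1 ndB0q1 pcB0 cut_B40mm_101_s1 Ext.none)

def k0_B40mm_101_s1 : ∃ t, chk3 f_B40mm_101_s1 t 1 1 1 = true :=
  ⟨(l 5), by decide +kernel⟩

theorem c_B40mm_101_s1 : CertF 536870912 536870912 536870912 536870912 818728140 40265320 false false false .npn 1 0 1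
    ndB4q1 ndB0q1 pcB0 cut_B40mm_101_s1 Ext.none :=
  certF2 (fam := false) (s1 := false) (s2 := false) (a := 1) (b := 0) (c := 1) (cn := .npn) (n1 := ndB4q1) (n2 := ndB0q1) (pc := pcB0) (cut := cut_B40mm_101_s1) (xt := Ext.none) (P1 := 536870912) (W1 := 536870912) (P2 := 536870912) (W2 := 536870912) (P3 := 818728140) (W3 := 40265320)
    rfl (fun _ => rfl) k0_B40mm_101_s1

theorem s_B40mm_101_s1 {κ x : ℝ} (hκ : κ * h0 = ken x) (hx : ((818728140 : ℕ) : ℝ) / S ≤ x)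
    (hx' : x ≤ (((818728140 : ℕ) : ℝ) + (40265320 : ℕ)) / S) :
    AltB (VFD κ) PP tK tL pcB [⟨3, 0, 0, 1449551462⟩] 1 0 1 4 0 (sgb false) (sgb false) x :=
  strip_altBD (m := 1449551462) true rfl hκ (SH.κ0 hκ (SH.hx1 hx).le (SH.hx2 hx').le) (SH.hx1 hx).le (SH.hx2 hx') (covB41).cov (covB01).cov hx hx' c_B40mm_101_s1 cutB_nil (noExt_B)

noncomputable def cut_B40mm_102_s1 : Cut := Cut.of [[⟨4, 0, 0, 1449551462⟩]]

noncomputable def f_B40mm_102_s1 : ℕ → ℕ → ℕ → ℕ → Bool := onCell 536870912 536870912 0 536870912 818728140 40265320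
    (rowF 0 false false false .npp 1 0 2 (qsf 536870912 536870912 0 536870912 0) ndB4q1 ndB0q2 pcB0 cut_B40mm_102_s1 Ext.none)

def k0_B40mm_102_s1 : ∃ t, chk3 f_B40mm_102_s1 t 1 1 1 = true :=
  ⟨(l 5), by decide +kernel⟩

theorem c_B40mm_102_s1 : CertF 536870912 536870912 0 536870912 818728140 40265320 false false false .npp 1 0 2
    ndB4q1 ndB0q2 pcB0 cut_B40mm_102_s1 Ext.none :=
  certF0 (fam := false) (s1 := false) (s2 := false) (a := 1) (b := 0) (c := 2) (cn := .npp) (n1 := ndB4q1) (n2 := ndB0q2) (pc := pcB0) (cut := cut_B40mm_102_s1) (xt := Ext.none) (P1 := 536870912) (W1 := 536870912) (P2 := 0) (W2 := 536870912) (P3 := 818728140) (W3 := 40265320)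
    rfl k0_B40mm_102_s1

theorem s_B40mm_102_s1 {κ x : ℝ} (hκ : κ * h0 = ken x) (hx : ((818728140 : ℕ) : ℝ) / S ≤ x)
    (hx' : x ≤ (((818728140 : ℕ) : ℝ) + (40265320 : ℕ)) / S) :
    AltB (VFD κ) PP tK tL pcB [⟨3, 0, 0, 1449551462⟩] 1 0 2 4 0 (sgb false) (sgb false) x :=
  strip_altBD (m := 1449551462) true rfl hκ (SH.κ0 hκ (SH.hx1 hx).le (SH.hx2 hx').le) (SH.hx1 hx).le (SH.hx2 hx') (covB41).cov (covB02).cov hx hx' c_B40mm_102_s1 cutB_nil (noExt_B)

noncomputable def cut_B40mm_112_s1 : Cut := Cut.of [[⟨4, 0, 0, 1449551462⟩]]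

noncomputable def f_B40mm_112_s1 : ℕ → ℕ → ℕ → ℕ → Bool := onCell 536870912 536870912 0 536870912 818728140 40265320
    (rowF 0 false false false .dn 1 1 2 (qsf 536870912 536870912 0 536870912 1) ndB4q1 ndB0q2 pcB1 cut_B40mm_112_s1 Ext.none)

def k0_B40mm_112_s1 : ∃ t, chk3 f_B40mm_112_s1 t 1 1 1 = true :=
  ⟨(l 5), by decide +kernel⟩

theorem c_B40mm_112_s1 : CertF 536870912 536870912 0 536870912 818728140 40265320 false false false .dn 1 1 2
    ndB4q1 ndB0q2 pcB1 cut_B40mm_112_s1 Ext.none :=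
  certF0 (fam := false) (s1 := false) (s2 := false) (a := 1) (b := 1) (c := 2) (cn := .dn) (n1 := ndB4q1) (n2 := ndB0q2) (pc := pcB1) (cut := cut_B40mm_112_s1) (xt := Ext.none) (P1 := 536870912) (W1 := 536870912) (P2 := 0) (W2 := 536870912) (P3 := 818728140) (W3 := 40265320)
    rfl k0_B40mm_112_s1

theorem s_B40mm_112_s1 {κ x : ℝ} (hκ : κ * h0 = ken x) (hx : ((818728140 : ℕ) : ℝ) / S ≤ x)
    (hx' : x ≤ (((818728140 : ℕ) : ℝ) + (40265320 : ℕ)) / S) :
    AltB (VFD κ) PP tK tL pcB [⟨3, 0, 0, 1449551462⟩] 1 1 2 4 0 (sgb false) (sgb false) x :=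
  strip_altBD (m := 1449551462) true rfl hκ (SH.κ0 hκ (SH.hx1 hx).le (SH.hx2 hx').le) (SH.hx1 hx).le (SH.hx2 hx') (covB41).cov (covB02).cov hx hx' c_B40mm_112_s1 cutB_nil (noExt_B)

noncomputable def cut_B40mm_202_s1 : Cut := Cut.of [[⟨4, 0, 0, 1449551462⟩]]

noncomputable def f_B40mm_202_s1 : ℕ → ℕ → ℕ → ℕ → Bool := onCell 1073741824 536870912 0 536870912 818728140 40265320
    (rowF 0 false false false .pp 2 0 2 (qsf 1073741824 536870912 0 536870912 0) ndB4q2 ndB0q2 pcB0 cut_B40mm_202_s1 Ext.none)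

def k0_B40mm_202_s1 : ∃ t, chk3 f_B40mm_202_s1 t 1 1 1 = true :=
  ⟨(l 5), by decide +kernel⟩

theorem c_B40mm_202_s1 : CertF 1073741824 536870912 0 536870912 818728140 40265320 false false false .pp 2 0 2
    ndB4q2 ndB0q2 pcB0 cut_B40mm_202_s1 Ext.none :=
  certF0 (fam := false) (s1 := false) (s2 := false) (a := 2) (b := 0) (c := 2) (cn := .pp) (n1 := ndB4q2) (n2 := ndB0q2) (pc := pcB0) (cut := cut_B40mm_202_s1) (xt := Ext.none) (P1 := 1073741824) (W1 := 536870912) (P2 := 0) (W2 := 536870912) (P3 := 818728140) (W3 := 40265320)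
    rfl k0_B40mm_202_s1

theorem s_B40mm_202_s1 {κ x : ℝ} (hκ : κ * h0 = ken x) (hx : ((818728140 : ℕ) : ℝ) / S ≤ x)
    (hx' : x ≤ (((818728140 : ℕ) : ℝ) + (40265320 : ℕ)) / S) :
    AltB (VFD κ) PP tK tL pcB [⟨3, 0, 0, 1449551462⟩] 2 0 2 4 0 (sgb false) (sgb false) x :=
  strip_altBD (m := 1449551462) true rfl hκ (SH.κ0 hκ (SH.hx1 hx).le (SH.hx2 hx').le) (SH.hx1 hx).le (SH.hx2 hx') (covB42).cov (covB02).cov hx hx' c_B40mm_202_s1 cutB_nil (noExt_B)

end Pool.Agent.Strip051.G.I7625_8000.Tab.St.C
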