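import Pool.Agent.Strip051.G.I7625_8000.Tab
import Pool.Agent.Strip051.PB.StripB

/-! # Strips, near vertex: certificates 5 (generated) -/

set_option linter.all false
set_option maxRecDepth 100000

namespace Pool.Agent.Strip051.G.I7625_8000.Tab.CS.BA04

open Pool.Agent.Strip051.PB Pool.Agent.Strip051.PB.T
open Pool.Agent.Strip051.G.I7625_8000.Tab

noncomputable def cut_pm_011_s : Cut := Cut.of [[⟨4, 0, 0, 1449551462⟩], [⟨0, 0, 0, 67108864⟩, ⟨1, 1, 0, 67108864⟩, ⟨2, 1, 0, 67108864⟩]]

noncomputable def f_pm_011_s : ℕ → ℕ → ℕ → ℕ → Bool := onCell 0 536870912 536870912 536870912 818728140 40265320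
    (rowNE 3 eng mog cd0q0 cd4q1 pd1 1 true true false .pnn 0 1 1 (qsf 0 536870912 536870912 536870912 1) ndB0q0 ndB4q1 pcB1 cut_pm_011_s Ext.none)

def k0_pm_011_s : ∃ t, chk3 f_pm_011_s t 1 2 1 = true :=
  ⟨(a (l 3) (b (l 1) (a (l 3) (l 1)))), by decide +kernel⟩

def k1_pm_011_s : ∃ t, chk3 f_pm_011_s t 2 6 1 = true :=
  ⟨(a (l 3) (b (l 3) (a (l 3) (b (l 3) (a (b (l 3) (a (l 3) (b (l 3) (a (l 3) (b (l 3) (a (l 3) (a (c (l 598241962295) (l 624011764119)) (b (l 640654764855) (l 16777952))))))))) (b (a (l 3) (b (a (l 3) (b (l 3) (l 669645797159))) (a (a (l 693804984167) (b (l 3) (a (l 575693383287) (b (l 602000059847) (l 16774880))))) (b (a (l 602536925863) (a (b (l 271824463991) (l 16774624)) (l 16773808))) (a (b (l 16774752) (l 16770480)) (l 16766744)))))) (a (b (a (l 3) (b (a (l 3) (l 617032442359)) (a (a (l 607905637495) (b (l 625622379287) (l 16775224))) (b (c (l 16780408) (l 16775144)) (l 16770872))))) (a (b (b (a (l 3) (a (l 636359797447) (l 82309028391))) (a (l 583209577207) (l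 16773864))) (a (b (c (a (l 87140866871) (l 16773904)) (l 16780888)) (l 16771032)) (l 16767424))) (b (a (l 16770232) (l 16764440)) (l 16758760)))) (a (b (b (b (a (a (l 613811219479) (l 16776440)) (l 16772064)) (l 16773328)) (l 16766896)) (l 16759944)) (b (c (l 16767408) (l 16756768)) (l 16739744)))))))))), by decide +kernel⟩

def k2_pm_011_s : ∃ t, chk3 f_pm_011_s t 8 14 1 = true :=
  ⟨(l 3), by decide +kernel⟩

def k3_pm_011_s : ∃ t, chk3 f_pm_011_s t 9 28 1 = true :=
  ⟨(l 3), by decide +kernel⟩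

def k4_pm_011_s : ∃ t, chk3 f_pm_011_s t 18 29 1 = true :=
  ⟨(l 3), by decide +kernel⟩

def k5_pm_011_s : ∃ t, chk3 f_pm_011_s t 19 58 1 = true :=
  ⟨(l 3), by decide +kernel⟩

def k6_pm_011_s : ∃ t, chk3 f_pm_011_s t 38 59 1 = true :=
  ⟨(l 3), by decide +kernel⟩

def k7_pm_011_s : ∃ t, chk3 f_pm_011_s t 39 118 1 = true :=
  ⟨(l 3), by decide +kernel⟩

def k8_pm_011_s : ∃ t, chk3 f_pm_011_s t 78 119 1 = true :=
  ⟨(b (l 3) (a (l 3) (b (l 3) (a (a (l 3) (a (l 3) (b (l 3) (b (l 3) (a (l 3) (c (l 506973913879) (l 319605966967))))))) (a (b (l 3) (a (b (l 3) (b (a (l 601463194295) (l 198810010743)) (l 16777520))) (b (b (l 3) (a (l 338933319159) (l 16777704))) (c (l 16776600) (l 16776600))))) (b (a (l 3) (b (l 3) (b (l 574619648871) (a (l 221358589095) (l 16777040))))) (b (a (b (a (l 278803776855) (l 16777128)) (l 16776760)) (l 16776416)) (c (l 16775696) (l 16775688))))))))), by decide +kernel⟩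

def k9_pm_011_s : ∃ t, chk3 f_pm_011_s t 158 119 1 = true :=
  ⟨(b (l 3) (b (a (a (l 3) (b (l 3) (b (l 3) (a (a (l 593947001943) (b (l 3) (l 181093270583))) (b (a (l 320142837175) (l 16777176)) (l 16776824)))))) (b (b (a (l 3) (a (l 3) (a (l 3) (b (l 3) (l 214916138135))))) (b (a (l 3) (a (a (l 3) (l 275045680455)) (l 16776968))) (c (a (l 575693391191) (l 16777408)) (a (l 585893938487) (l 16776752))))) (a (a (b (b (l 600389452743) (a (l 258402682135) (l 16777088))) (l 16776472)) (c (c (b (l 16777544) (l 16775872)) (l 16776384)) (l 16776384))) (c (l 16775472) (l 16775464))))) (b (a (a (b (b (a (l 3) (a (l 3) (l 239612200167))) (a (l 517174461127) (l 16777664))) (c (c (a (l 16777496) (l 16776240)) (l 16776544)) (l 16776536))) (b (c (l 16776688) (l 16776352)) (l 16775328))) (c (l 16774528) (l 16774024))) (c (a (c (l 16774408) (l 16774408)) (l 16772008)) (a (l 16774392) (l 16771984)))))), by decide +kernel⟩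

def k10_pm_011_s : ∃ t, chk3 f_pm_011_s t 159 119 1 = true :=
  ⟨(a (b (b (l 3) (b (l 3) (b (a (l 3) (b (c (l 549923587319) (l 568177198311)) (a (l 577840874359) (l 11442062551)))) (c (b (a (l 3) (c (l 16777704) (l 16776888))) (a (a (l 3) (l 175187690823)) (l 16776376))) (a (l 484962206823) (l 16776632)))))) (b (b (b (a (a (b (a (l 352355091991) (l 16777224)) (l 16776872)) (l 16776520)) (l 16775608)) (c (l 16775192) (l 16775184))) (c (l 16773664) (l 16773648))) (c (c (l 16770584) (l 16770616)) (l 16770584)))) (b (b (a (l 3) (b (l 3) (a (l 3) (b (l 3) (l 599315711367))))) (b (b (a (l 3) (a (c (c (l 451676209815) (l 263771392247)) (l 257328941463)) (c (c (l 16777624) (l 16776968)) (l 16776976)))) (a (a (c (l 515026977783) (l 323900934903)) (b (a (l 380809250407) (l 16777912)) (l 16776912))) (c (l 16776248) (l 16776248)))) (c (c (a (l 16776424) (l 16774712)) (l 16775320)) (l 16775312)))) (b (c (c (l 16772904) (l 16772256)) (l 16772240)) (c (l 16768168) (l 16768168))))), by decide +kernel⟩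

def k11_pm_011_s : ∃ t, chk3 f_pm_011_s t 16 30 1 = true :=
  ⟨(l 3), by decide +kernel⟩

def k12_pm_011_s : ∃ t, chk3 f_pm_011_s t 17 60 1 = true :=
  ⟨(l 3), by decide +kernel⟩

def k13_pm_011_s : ∃ t, chk3 f_pm_011_s t 34 61 1 = true :=
  ⟨(l 3), by decide +kernel⟩

def k14_pm_011_s : ∃ t, chk3 f_pm_011_s t 35 122 1 = true :=
  ⟨(l 3), by decide +kernel⟩

def k15_pm_011_s : ∃ t, chk3 f_pm_011_s t 70 123 1 = true :=
  ⟨(l 3), by decide +kernel⟩

def k16_pm_011_s : ∃ t, chk3 f_pm_011_s t 71 246 1 = true :=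
  ⟨(l 3), by decide +kernel⟩

def k17_pm_011_s : ∃ t, chk3 f_pm_011_s t 142 247 1 = true :=
  ⟨(l 3), by decide +kernel⟩

def k18_pm_011_s : ∃ t, chk3 f_pm_011_s t 143 494 1 = true :=
  ⟨(l 3), by decide +kernel⟩

def k19_pm_011_s : ∃ t, chk3 f_pm_011_s t 286 495 1 = true :=
  ⟨(a (l 3) (b (l 3) (b (l 3) (a (a (l 3) (b (l 3) (c (b (c (l 584820195767) (l 589115163063)) (b (a (l 404431569367) (l 16777360)) (c (l 16777328) (l 16777144)))) (b (l 600389452199) (a (l 212768653831) (l 16777136)))))) (b (b (b (l 3) (a (l 3) (a (l 3) (c (l 291688677735) (l 16777272))))) (a (b (l 3) (c (l 548312973591) (l 358260671159))) (b (a (c (l 307257934215) (l 16777448)) (l 16777152)) (c (l 16777096) (l 16777096))))) (b (a (b (a (c (l 360945025447) (l 363629380007)) (l 16777336)) (c (l 16777280) (l 16777120))) (l 16776904)) (c (l 16776792) (l 16776792)))))))), by decide +kernel⟩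

def k20_pm_011_s : ∃ t, chk3 f_pm_011_s t 287 990 1 = true :=
  ⟨(a (l 3) (b (b (l 3) (b (l 3) (a (l 3) (a (l 3) (c (c (l 604147548631) (l 609516257751)) (l 617032450519)))))) (b (a (l 3) (a (b (l 3) (b (a (l 3) (c (l 214916137255) (l 16777240))) (a (c (l 242833424695) (l 16777248)) (l 16777120)))) (b (b (a (l 3) (c (l 135996113191) (l 16777216))) (a (a (l 265918873943) (l 16777192)) (l 16777096))) (l 16777016)))) (a (a (b (l 3) (b (a (l 3) (c (l 315310997879) (l 16777280))) (a (c (l 331417125271) (l 16777456)) (l 16777328)))) (b (b (a (l 3) (c (l 259476422999) (l 16777256))) (a (c (l 287393710439) (l 16777272)) (l 16777144))) (c (l 16777016) (l 16777024)))) (c (c (c (l 16776728) (l 16776728)) (l 16776728)) (l 16776728)))))), by decide +kernel⟩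

def k21_pm_011_s : ∃ t, chk3 f_pm_011_s t 287 991 1 = true :=
  ⟨(b (a (a (b (l 3) (b (b (l 3) (a (l 3) (a (l 3) (c (l 193978171671) (l 16777232))))) (a (b (l 3) (a (l 3) (c (l 237464715591) (l 16777248)))) (b (a (c (l 221358588199) (l 16777240)) (l 16777104)) (l 16777048))))) (a (b (a (l 3) (b (l 3) (c (b (l 403894698455) (l 16777368)) (l 212768653831)))) (b (a (a (b (l 238001586503) (l 16777128)) (l 16777208)) (l 16777024)) (l 16776840))) (c (b (b (b (l 565492842791) (a (l 386714829239) (l 16777184))) (c (c (l 16777232) (l 16777064)) (l 16777064))) (l 16776688)) (b (b (a (l 398525989543) (l 179482657239)) (l 16777064)) (l 16776688))))) (b (a (c (c (c (a (l 16777040) (l 16776640)) (l 16776856)) (l 16776864)) (l 16776776)) (c (l 16776224) (l 16776224))) (c (c (l 16775992) (l 16775992)) (l 16775992)))) (a (a (a (b (b (a (b (c (l 264845132119) (l 16777264)) (l 16777144)) (l 16777064)) (l 16776880)) (l 16776504)) (c (c (l 16776480) (l 16776480)) (l 16776480))) (c (c (l 16776064) (l 16776064))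 (l 16776064))) (c (c (l 16775232) (l 16775240)) (l 16775232)))), by decide +kernel⟩

def k22_pm_011_s : ∃ t, chk3 f_pm_011_s t 16 31 1 = true :=
  ⟨(b (b (l 3) (l 14)) (l 14)), by decide +kernel⟩

def k23_pm_011_s : ∃ t, chk3 f_pm_011_s t 68 124 1 = true :=
  ⟨(l 3), by decide +kernel⟩

def k24_pm_011_s : ∃ t, chk3 f_pm_011_s t 69 248 1 = true :=
  ⟨(l 3), by decide +kernel⟩

def k25_pm_011_s : ∃ t, chk3 f_pm_011_s t 138 249 1 = true :=
  ⟨(l 3), by decide +kernel⟩

def k26_pm_011_s : ∃ t, chk3 f_pm_011_s t 278 249 1 = true :=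
  ⟨(l 3), by decide +kernel⟩

def k27_pm_011_s : ∃ t, chk3 f_pm_011_s t 279 498 1 = true :=
  ⟨(l 3), by decide +kernel⟩

def k28_pm_011_s : ∃ t, chk3 f_pm_011_s t 279 998 1 = true :=
  ⟨(l 3), by decide +kernel⟩

def k29_pm_011_s : ∃ t, chk3 f_pm_011_s t 279 1998 1 = true :=
  ⟨(a (l 3) (b (a (l 3) (a (l 3) (b (l 3) (b (a (l 3) (a (l 3) (b (l 426980147447) (l 16777216)))) (a (b (l 3) (c (l 297594257655) (l 16777336))) (c (l 16777240) (l 16777152))))))) (a (a (l 3) (b (l 3) (a (a (l 3) (c (l 582135841015) (l 425369534967))) (b (a (l 3) (c (l 358260670759) (l 361481896231))) (a (b (l 299204870391) (l 16777192)) (l 16777160)))))) (b (b (a (b (l 3) (a (l 3) (c (l 322290319623) (l 292762419495)))) (a (c (l 16777288) (l 16777168)) (l 16777032))) (a (a (b (l 3) (c (l 345912639767) (l 317995352375))) (c (c (l 16777256) (l 16777176)) (l 16777176))) (l 16776968))) (a (b (a (a (a (l 212231782599) (l 16777280)) (l 16777152)) (l 16777048)) (l 16776984)) (l 16776776)))))), by decide +kernel⟩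

def k30_pm_011_s : ∃ t, chk3 f_pm_011_s t 279 1999 1 = true :=
  ⟨(b (a (b (l 3) (b (l 3) (a (l 3) (a (l 3) (a (l 3) (a (b (l 3) (l 16777304)) (c (l 16777192) (l 16777192)))))))) (a (a (a (b (c (c (l 606295032151) (l 614348095831)) (l 617569321303)) (b (a (b (l 3) (l 16777296)) (l 16777304)) (l 16777088))) (b (b (a (l 3) (a (l 3) (l 387251700007))) (a (b (l 420537696487) (l 16777208)) (l 16777256))) (l 16777016))) (b (b (a (a (b (l 384567345367) (l 16777200)) (l 16777168)) (l 16777064)) (l 16777008)) (l 16776832))) (c (c (l 16776528) (l 16776536)) (l 16776536)))) (a (a (a (l 3) (b (l 3) (b (l 3) (a (l 3) (a (c (l 391546667319) (l 395304763703)) (b (l 311016030455) (l 16777192))))))) (a (b (b (l 3) (a (l 3) (a (c (l 343765156119) (l 319605965111)) (b (l 234243490007) (l 16777176))))) (b (a (a (c (l 367924347175) (l 371145572647)) (b (l 272361324775) (l 16777184))) (l 16777120)) (a (l 21642608551) (l 16776992)))) (b (b (a (a (b (l 3) (l 220821717191)) (c (l 16777280) (l 16777200))) (l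 16777096)) (c (l 16777040) (l 16777040))) (c (l 16776848) (l 16776848))))) (a (c (c (l 16776608) (l 16776568)) (l 16776568)) (c (l 16776024) (l 16776032))))), by decide +kernel⟩

def k31_pm_011_s : ∃ t, chk3 f_pm_011_s t 68 125 1 = true :=
  ⟨(b (b (l 3) (l 14)) (l 14)), by decide +kernel⟩

def k32_pm_011_s : ∃ t, chk3 f_pm_011_s t 276 250 1 = true :=
  ⟨(b (l 3) (b (b (b (l 3) (l 14)) (l 14)) (l 14))), by decide +kernel⟩

def k33_pm_011_s : ∃ t, chk3 f_pm_011_s t 277 500 1 = true :=
  ⟨(b (l 3) (b (a (l 3) (a (l 3) (b (l 3) (a (b (l 3) (b (b (l 3) (a (l 3) (a (l 3) (l 288467452135)))) (a (a (l 3) (b (l 3) (l 355039445207))) (a (b (l 300815483127) (l 16777192)) (l 16777160))))) (b (b (b (l 3) (a (l 3) (a (l 3) (l 217600491719)))) (a (a (l 3) (b (l 3) (l 253033971927))) (a (b (l 230485393623) (l 16777176)) (l 16777144)))) (a (b (a (b (l 265382002919) (l 16777184)) (l 16777152)) (l 16777056)) (l 16776984))))))) (a (a (l 3) (b (l 3) (b (b (l 3) (a (l 3) (a (l 3) (a (b (l 3) (l 236390973655))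 (b (l 214379266263) (l 16777176)))))) (a (b (l 3) (a (l 3) (a (b (l 3) (l 305110450423)) (b (l 293299290343) (l 16777192))))) (b (a (a (b (l 3) (l 270750712039)) (b (l 258939551959) (l 16777184))) (l 16777152)) (c (l 16777096) (l 16777056))))))) (b (a (a (a (l 3) (b (l 3) (b (l 3) (a (b (l 3) (l 168208367799)) (c (l 16777272) (l 16777192)))))) (a (b (c (a (l 3) (l 609516257559)) (l 616495579479)) (b (a (b (l 3) (l 16777296)) (c (l 16777184) (l 16777184))) (l 16777088))) (b (b (a (l 3) (c (l 402820956487) (l 424295792951))) (a (b (l 413021503719) (l 16777288)) (l 16777256))) (c (l 16777016) (l 16777016))))) (a (b (a (b (a (b (l 381882990807) (l 16777200)) (l 16777248)) (l 16777072)) (l 16777000)) (c (l 16776816) (l 16776816))) (c (l 16776672) (l 16776672)))) (a (a (b (b (a (a (b (l 3) (l 202568106183)) (b (l 180019527879) (l 16777168))) (l 16777096)) (c (l 16777040) (l 16777040))) (c (l 16776848) (l 16776848))) (c (c (l 16776704) (l 16776704)) (l 16776704))) (c (l 16776336) (l 16776296))))))),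 by decide +kernel⟩

def k34_pm_011_s : ∃ t, chk3 f_pm_011_s t 277 501 1 = true :=
  ⟨(b (b (a (b (a (a (b (l 3) (b (l 3) (b (l 3) (a (l 3) (a (l 3) (l 146196660407)))))) (a (b (l 3) (b (a (l 3) (b (l 442012532967) (l 16777296))) (c (l 16777256) (l 16777152)))) (b (b (l 3) (a (c (l 423222051143) (l 428590760263)) (b (l 389936054503) (l 16777208)))) (c (c (l 16777160) (l 16777080)) (l 16777080))))) (b (b (a (a (a (b (l 3) (l 385641087191)) (b (l 359334412503) (l 16777200))) (c (l 16777128) (l 16777128))) (l 16776928)) (a (c (c (l 16777152) (l 16777072)) (l 16777072)) (l 16776800))) (c (c (l 16776744) (l 16776744)) (l 16776744)))) (a (a (a (l 14) (a (l 14) (c (l 16776952) (l 16776936)))) (c (c (l 16776768) (l 16776768)) (l 16776768))) (c (c (l 16776360) (l 16776360)) (l 16776360)))) (a (c (a (b (l 16776464) (l 16775952)) (l 16775936)) (a (l 16776216) (l 16775944))) (c (l 16775528) (l 16775536)))) (a (a (a (l 14) (b (l 16776296) (l 14))) (c (c (l 16775592) (l 16775592)) (l 16775600))) (c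 (l 16774896) (l 16774792)))) (a (a (l 14) (b (l 16774576) (l 14))) (c (l 16773408) (l 16773264)))), by decide +kernel⟩

def k35_pm_011_s : ∃ t, chk3 f_pm_011_s t 278 2000 1 = true :=
  ⟨(a (l 3) (b (b (l 3) (b (l 3) (b (l 3) (a (l 3) (a (l 3) (a (l 3) (a (l 3) (l 179482656967)))))))) (a (b (l 3) (a (l 3) (a (l 3) (c (c (c (l 590725775671) (l 592873259319)) (l 595557613879)) (l 601463193911))))) (b (b (a (l 3) (a (a (l 3) (b (l 3) (l 216526749911))) (c (c (l 16777248) (l 16777168)) (l 16777168)))) (a (a (l 3) (a (l 3) (c (l 348596994327) (l 351818219799)))) (a (a (b (l 240149070039) (l 16777176)) (l 16777144)) (l 16777040)))) (a (a (b (a (l 3) (c (l 371145572647) (l 375440539943))) (a (b (l 314774126839) (l 16777192)) (l 16777160))) (b (a (b (l 277730033895) (l 16777184)) (l 16777152)) (l 16777056))) (c (l 16776920) (l 16776920))))))), by decide +kernel⟩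

def k36_pm_011_s : ∃ t, chk3 f_pm_011_s t 278 2001 1 = true :=
  ⟨(b (a (l 3) (a (a (b (a (l 3) (c (c (l 611126870359) (l 617032450391)) (l 624548643159))) (b (a (l 3) (a (b (l 3) (l 16777304)) (c (l 16777184) (l 16777184)))) (a (a (b (l 3) (l 179482656967)) (c (l 16777272) (l 16777192))) (l 16777096)))) (b (a (b (a (l 3) (a (l 3) (l 397989118247))) (a (b (l 434496340199) (l 16777216)) (l 16777256))) (b (a (b (l 352355090695) (l 16777208)) (l 16777248)) (l 16777072))) (c (l 16776952) (l 16776952)))) (c (a (a (l 16776872) (l 16776736)) (l 16776536)) (l 16776672)))) (a (a (l 3) (a (b (l 3) (b (a (l 3) (a (c (l 368998088999) (l 372756185383)) (b (l 275582550247) (l 16777184)))) (a (a (c (l 391009796407) (l 395304763703)) (b (l 311552901367) (l 16777192))) (c (l 16777128) (l 16777128))))) (a (b (b (l 3) (a (b (l 3) (l 251960230119)) (b (l 239075328215) (l 16777176)))) (c (l 16777056) (l 16777056))) (b (b (a (b (l 3) (l 215989878999)) (c (l 16777320) (l 16777200))) (l 16777112)) (l 16776920)))))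 (a (a (c (b (l 16776968) (l 16776712)) (l 16776840)) (c (l 16776568) (l 16776576))) (c (l 16776160) (l 16776168))))), by decide +kernel⟩

def k37_pm_011_s : ∃ t, chk3 f_pm_011_s t 278 1001 1 = true :=
  ⟨(b (a (b (a (a (b (l 3) (b (b (l 3) (a (l 3) (a (l 3) (l 16777304)))) (a (a (l 3) (b (l 3) (l 182703882423))) (c (c (l 16777240) (l 16777160)) (l 16777160))))) (a (b (b (l 3) (a (c (l 424832663895) (l 430738243927)) (b (l 428053889255) (l 16777296)))) (b (c (l 16777232) (l 16777152)) (l 16777024))) (b (b (a (c (l 412484632903) (l 417853342023)) (b (l 395304763607) (l 16777200))) (c (l 16777144) (l 16777144))) (l 16776952)))) (b (a (c (c (l 16777080) (l 16777000)) (l 16777000)) (l 16776728)) (c (l 16776608) (l 16776616)))) (a (b (a (b (a (a (b (l 195051913415) (l 16777168)) (l 16777136)) (l 16777032)) (l 16776976)) (l 16776784)) (c (l 16776648) (l 16776648))) (c (l 16776232) (l 16776232)))) (a (c (b (l 16776192) (l 16775680)) (l 16775944)) (c (l 16775392) (l 16775408)))) (a (a (b (c (l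 16776264) (l 16776264)) (l 16775792)) (c (l 16775464) (l 16775472))) (c (l 16774648) (l 16774664)))), by decide +kernel⟩

def k38_pm_011_s : ∃ t, chk3 f_pm_011_s t 279 500 1 = true :=
  ⟨(b (b (b (a (a (a (b (b (l 3) (a (l 3) (a (c (l 425906405719) (l 435570082135)) (b (l 431811985639) (l 16777208))))) (b (a (a (l 3) (b (l 3) (l 16777304))) (c (l 16777232) (l 16777152))) (a (c (l 16777280) (l 16777160)) (l 16777024)))) (a (b (b (a (c (l 414632116551) (l 419463954759)) (b (l 349133865223) (l 16777200))) (c (l 16777144) (l 16777144))) (l 16776952)) (b (c (l 16777152) (l 16777072)) (l 16776816)))) (c (a (l 16776760) (l 16776464)) (l 16776608))) (a (a (l 16776200) (l 16775928)) (l 16775520))) (a (a (c (c (c (l 16776632) (l 16776640)) (l 16776640)) (l 16776640)) (c (l 16776096) (l 16776096))) (c (l 16775272) (l 16775288)))) (a (a (c (c (l 16775872) (l 16775872)) (l 16775880)) (c (l 16775328) (l 16775336))) (c (l 16774512) (l 16774528)))) (a (b (c (l 16774576) (l 16774592)) (l 16773568)) (c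 (l 16772976) (l 16773000)))), by decide +kernel⟩

def k39_pm_011_s : ∃ t, chk3 f_pm_011_s t 139 501 1 = true :=
  ⟨(c (a (a (b (b (l 16774792) (l 16773688)) (l 16772152)) (b (l 16773112) (l 16771064))) (b (l 16771640) (l 16769432))) (a (b (a (a (l 16774488) (l 16773944)) (l 16773136)) (l 16771640)) (b (l 16771512) (l 16769472)))), by decide +kernel⟩

def k40_pm_011_s : ∃ t, chk3 f_pm_011_s t 69 251 1 = true :=
  ⟨(a (a (l 14) (a (l 14) (b (b (l 16771208) (l 14)) (l 14)))) (b (c (a (b (l 16769560) (l 16767512)) (l 16766360)) (a (l 16768584) (l 16766416))) (c (l 16763344) (l 16763416)))), by decide +kernel⟩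

def k41_pm_011_s : ∃ t, chk3 f_pm_011_s t 140 248 1 = true :=
  ⟨(l 3), by decide +kernel⟩

def k42_pm_011_s : ∃ t, chk3 f_pm_011_s t 141 496 1 = true :=
  ⟨(l 3), by decide +kernel⟩

def k43_pm_011_s : ∃ t, chk3 f_pm_011_s t 141 994 1 = true :=
  ⟨(a (l 3) (a (l 3) (a (l 3) (b (l 3) (b (l 3) (a (b (l 3) (c (b (l 3) (c (l 570861551927) (l 575156519223))) (l 589652033959))) (a (b (l 3) (b (a (l 3) (a (l 406042181943) (l 291688677623))) (c (l 16777344) (l 16777184)))) (b (b (l 3) (a (l 3) (a (l 384567345431) (l 253033971943)))) (c (l 16777232) (l 16777112)))))))))), by decide +kernel⟩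

def k44_pm_011_s : ∃ t, chk3 f_pm_011_s t 282 995 1 = true :=
  ⟨(a (l 3) (a (l 3) (a (l 3) (b (l 3) (b (l 3) (b (l 3) (b (c (l 591799517527) (l 609516257607)) (a (a (l 3) (l 440938791255)) (a (a (l 302962966775) (l 16777304)) (l 16777176)))))))))), by decide +kernel⟩

def k45_pm_011_s : ∃ t, chk3 f_pm_011_s t 283 1990 1 = true :=
  ⟨(a (a (l 3) (a (l 3) (b (l 3) (b (l 3) (b (a (l 3) (c (a (l 379198636327) (l 16777296)) (l 16777408))) (a (a (l 367924347271) (c (l 16777328) (l 16777224))) (l 16777128))))))) (b (a (a (l 3) (b (a (l 3) (c (l 598778839383) (l 432348856983))) (b (a (l 3) (c (c (l 137069854967) (l 16777208)) (l 16777208))) (a (a (a (l 349133865239) (l 235854102743)) (l 16777192)) (l 16777088))))) (b (a (b (a (a (l 3) (l 355576316295)) (c (l 16777336) (l 16777192))) (a (a (a (l 291688677607) (l 16777296)) (l 16777168)) (l 16777064))) (l 16776928)) (c (l 16776808) (l 16776808)))) (a (a (b (b (a (l 3) (a (a (l 388325441831) (l 273435066599)) (l 16777280))) (a (a (c (l 348060123415)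 (l 16777272)) (l 16777328)) (l 16777104))) (a (l 16777096) (l 16776920))) (c (l 16776840) (l 16776840))) (c (l 16776424) (l 16776432))))), by decide +kernel⟩

def k46_pm_011_s : ∃ t, chk3 f_pm_011_s t 283 1991 1 = true :=
  ⟨(a (a (a (b (l 3) (b (b (c (c (l 569250939175) (l 573545906471)) (c (l 399062860407) (l 400673473143))) (a (c (c (l 379198636471) (l 381346120119)) (l 388862312887)) (c (l 17347641543) (l 16777184)))) (a (a (b (a (l 266992615655) (l 16777216)) (l 16777104)) (l 16777184)) (l 16777000)))) (b (b (l 3) (b (a (l 3) (a (l 3) (c (l 259476422951) (l 16777256)))) (a (a (l 3) (c (l 290078064951) (l 16777264))) (c (l 16777168) (l 16777168))))) (b (a (a (c (l 16777272) (l 16777152)) (l 16777080)) (l 16776976)) (l 16776792)))) (a (b (b (b (a (l 3) (a (l 452213080391) (c (l 206326202615) (l 16777232)))) (a (a (l 3) (c (l 236927844615) (l 16777248))) (l 16777232))) (a (c (l 16777176) (l 16777096)) (l 16776960))) (c (l 16776648) (l 16776648))) (b (b (c (l 16777088) (l 16777008))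 (l 16776752)) (l 16776376)))) (a (c (b (l 16776504) (l 16775960)) (l 16776216)) (c (l 16775664) (l 16775672)))), by decide +kernel⟩

def k47_pm_011_s : ∃ t, chk3 f_pm_011_s t 280 498 1 = true :=
  ⟨(l 3), by decide +kernel⟩

def k48_pm_011_s : ∃ t, chk3 f_pm_011_s t 281 996 1 = true :=
  ⟨(l 3), by decide +kernel⟩

def k49_pm_011_s : ∃ t, chk3 f_pm_011_s t 281 1994 1 = true :=
  ⟨(a (l 3) (a (b (l 3) (a (b (l 3) (b (a (l 3) (a (l 3) (c (l 265918873895) (l 16777256)))) (a (a (l 3) (c (l 294909903159) (l 16777344))) (c (l 16777248) (l 16777168))))) (b (b (a (l 3) (a (l 442549403991) (c (l 208473686279) (l 16777240)))) (a (a (l 3) (c (l 236927844631) (l 16777248))) (c (l 16777152) (l 16777152)))) (c (c (c (l 16777112) (l 16777024)) (l 16777032)) (l 16777032))))) (a (b (b (l 3) (b (a (l 3) (a (l 396915376439) (c (l 163376529623) (l 16777224)))) (a (a (l 424832663879) (c (l 179482657015) (l 16777232))) (l 16777216)))) (b (a (b (l 16777224) (l 16777016)) (l 16776944)) (l 16776760))) (b (b (b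 (a (l 3) (c (a (l 299741741367) (l 16777200)) (l 16777400))) (a (c (a (l 352891961639) (l 16777296)) (l 219211104567)) (l 16777112))) (c (l 16776992) (l 16776992))) (c (l 16776608) (l 16776608)))))), by decide +kernel⟩

def k50_pm_011_s : ∃ t, chk3 f_pm_011_s t 281 1995 1 = true :=
  ⟨(a (b (a (l 3) (a (b (l 3) (a (c (l 606295032151) (l 615958708567)) (b (a (l 3) (l 432885727543)) (a (c (l 211694911735) (l 16777240)) (l 16777176))))) (a (b (a (l 3) (a (l 3) (b (l 3) (l 345375768855)))) (b (a (a (l 264308261095) (l 16777296)) (l 16777168)) (l 16777072))) (b (b (a (l 3) (c (l 323900932423) (l 327122157895))) (c (c (l 16777312) (l 16777184)) (l 16777184))) (l 16777000))))) (a (a (b (l 3) (b (l 3) (a (l 3) (c (a (l 314774126919) (l 16777288)) (l 218674233639))))) (a (b (l 3) (b (c (a (l 286856839479) (l 16777200)) (l 16777352)) (l 16777112))) (b (b (l 3) (a (c (l 258402681127) (l 16777256)) (l 16777312))) (l 16777040)))) (a (b (a (b (a (c (l 229948522775) (l 16777248)) (l 16777264)) (l 16777088))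 (l 16777016)) (l 16776832)) (c (l 16776688) (l 16776688))))) (a (b (b (a (a (c (c (c (l 16777240) (l 16777112)) (l 16777112)) (l 16777112)) (l 16776976)) (l 16776776)) (a (l 16776792) (l 16776520))) (c (l 16776272) (l 16776280))) (c (c (l 16775976) (l 16775984)) (l 16775992)))), by decide +kernel⟩

def k51_pm_011_s : ∃ t, chk3 f_pm_011_s t 140 1996 1 = true :=
  ⟨(b (a (a (l 3) (a (l 3) (b (b (l 3) (a (l 3) (a (l 3) (c (a (l 404968440119) (l 172503335143)) (l 260013293895))))) (b (a (l 3) (a (a (l 447918113095) (c (l 199346880759) (l 16777232))) (l 16777216))) (a (a (l 3) (a (l 3) (c (l 226727297287) (l 16777240)))) (c (l 16777160) (l 16777080))))))) (a (a (b (a (a (b (c (a (l 378661765415) (l 145659789527)) (l 239075328311)) (l 16777128)) (c (l 16777056) (l 16777056))) (l 16776872)) (c (l 16776728) (l 16776736))) (c (l 16776312) (l 16776320))) (c (l 16775488) (l 16775504)))) (a (a (l 3) (a (b (a (l 3) (a (l 3) (b (l 3) (a (l 3) (c (l 282025001255) (l 16777344)))))) (b (a (l 3) (a (a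 (l 3) (c (l 309942288695) (l 312626643255))) (c (l 16777296) (l 16777176)))) (a (c (c (b (l 3) (l 567640326391)) (l 574619648311)) (l 579988357431)) (a (a (a (l 217063620807) (l 16777200)) (l 16777152)) (l 16777048))))) (a (a (b (b (a (l 3) (c (l 254644584727) (l 16777248))) (c (l 16777248) (l 16777168))) (l 16776976)) (b (a (b (l 16777272) (l 16777064)) (l 16777056)) (l 16776840))) (c (l 16776760) (l 16776760))))) (a (a (c (l 16776352) (l 16776352)) (l 16775808)) (c (l 16774984) (l 16774992))))), by decide +kernel⟩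

def k52_pm_011_s : ∃ t, chk3 f_pm_011_s t 140 1997 1 = true :=
  ⟨(a (a (b (a (l 3) (a (l 3) (a (b (l 3) (b (a (l 3) (l 444696887639)) (b (c (l 275582550247) (l 16777248)) (l 16777312)))) (b (c (c (l 600926323015) (l 605758161223)) (l 611663741255)) (b (a (c (l 212231782663) (l 16777240)) (l 16777256)) (l 16777088)))))) (a (a (l 3) (b (l 3) (b (a (l 3) (c (a (l 320679706951) (l 16777312)) (l 224042942759))) (a (c (a (l 384030474535) (l 151028498647)) (l 243370295607)) (l 16777120))))) (a (b (b (a (l 3) (c (b (l 300815483127) (l 16777280)) (l 184851366151))) (a (c (a (l 293299290423) (l 16777288)) (l 204178718999)) (l 16777104))) (c (l 16776976) (l 16776984))) (c (c (l 16776832) (l 16776832)) (l 16776832))))) (a (b (b (b (a (a (a (l 3) (a (l 3) (l 361481896215))) (a (a (l 249275875543) (l 16777288)) (l 16777160))) (l 16776992)) (a (a (a (c (l 184851366135) (l 16777232)) (l 16777168)) (l 16777064)) (l 16776864))) (c (a (l 16776944) (l 16776672)) (l 16776808))) (a (a (l 16776648) (l 16776496))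 (l 16776288))) (b (c (l 16776424) (l 16776392)) (a (l 16776016) (l 16775744))))) (a (c (c (l 16775392) (l 16775312)) (l 16775320)) (c (l 16774216) (l 16774232)))), by decide +kernel⟩

def k53_pm_011_s : ∃ t, chk3 f_pm_011_s t 140 999 1 = true :=
  ⟨(a (b (a (a (b (b (b (a (a (l 3) (c (a (l 408726536503) (l 176261431527)) (l 262697648455))) (c (l 16777064) (l 16777064))) (a (a (a (l 450065596743) (c (l 202031235319) (l 16777232))) (c (l 16777136) (l 16777136))) (l 16776936))) (a (c (a (a (l 16777200) (l 16777048)) (l 16776944)) (l 16777016)) (l 16776744))) (c (c (l 16776496) (l 16776496)) (l 16776504))) (a (b (b (l 16776728) (l 16776472)) (l 16776088)) (b (l 16776328) (l 16775816)))) (a (c (l 16775744) (l 16775672)) (a (l 16775256) (l 16774984)))) (a (c (a (a (l 16775864) (l 16775592)) (l 16775184)) (a (l 16775744) (l 16775200))) (c (l 16774368) (l 16774384)))) (a (c (c (l 16773776) (l 16773784)) (l 16773800)) (c (l 16772688) (l 16772712)))), by decide +kernel⟩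

def k54_pm_011_s : ∃ t, chk3 f_pm_011_s t 564 498 1 = true :=
  ⟨(b (b (b (l 3) (b (l 3) (b (l 3) (b (l 3) (a (l 3) (a (l 3) (a (l 3) (c (l 251960230167) (l 16777248))))))))) (b (a (b (l 3) (a (l 3) (b (l 3) (c (c (l 580525228359) (l 585357066567)) (l 598241968439))))) (b (b (a (l 3) (a (a (l 3) (c (l 270213841191) (l 16777256))) (c (l 16777160) (l 16777160)))) (a (a (l 3) (a (l 3) (a (l 415168987431) (l 284709355767)))) (c (c (l 16777184) (l 16777104)) (l 16777104)))) (b (a (a (a (l 3) (l 370608701735)) (c (l 16777304) (l 16777176))) (l 16776976)) (a (a (a (a (l 241222811863) (l 16777208)) (l 16777160)) (l 16777056)) (l 16776848))))) (a (a (b (a (l 3) (c (l 608979386711) (l 623474901335))) (b (a (l 3) (a (c (l 240685941015) (l 16777248)) (l 16777264))) (a (a (c (l 270213841191) (l 16777256)) (l 16777280)) (l 16777096)))) (a (b (b (a (l 3) (l 428053889351)) (a (a (l 311016030455) (l 156934078695)) (l 16777176))) (l 16777024)) (b (b (a (a (l 276119421159) (l 16777296)) (l 16777168)) (l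 16777072)) (l 16776880)))) (c (c (l 16776704) (l 16776672)) (l 16776672))))) (b (b (a (c (c (c (l 16776704) (l 16776704)) (l 16776704)) (l 16776712)) (c (l 16776160) (l 16776168))) (c (c (l 16775920) (l 16775928)) (l 16775928))) (c (c (l 16775160) (l 16775160)) (l 16775168)))), by decide +kernel⟩

def k55_pm_011_s : ∃ t, chk3 f_pm_011_s t 565 498 1 = true :=
  ⟨(b (b (b (a (b (l 3) (b (l 3) (a (l 3) (a (l 3) (a (l 367387476263) (c (l 16777296) (l 16777216))))))) (b (b (a (l 3) (a (a (a (l 339470188807) (l 225653555399)) (l 16777184)) (l 16777080))) (a (a (l 3) (a (c (l 266455744807) (l 16777256)) (l 16777272))) (l 16777024))) (a (a (b (a (c (l 297057386807) (l 16777264)) (l 16777328)) (l 16777112)) (l 16777040)) (l 16776832)))) (a (b (b (a (l 3) (a (a (l 396915376439) (c (l 16777304) (l 16777224))) (l 16777120))) (a (a (l 3) (a (l 426443276615) (c (l 180556398839) (l 16777232)))) (c (l 16777064) (l 16777064)))) (a (b (a (a (l 443623145815) (c (l 210084299015) (l 16777240))) (l 16777224))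 (c (l 16777168) (l 16777080))) (l 16776872))) (c (c (l 16776584) (l 16776592)) (l 16776592)))) (a (b (c (c (l 16776624) (l 16776632)) (l 16776632)) (c (l 16776120) (l 16776128))) (c (c (l 16775824) (l 16775824)) (l 16775832)))) (a (b (b (l 16775616) (l 16775104)) (l 16774344)) (b (l 16774816) (l 16773800)))), by decide +kernel⟩

def k56_pm_011_s : ∃ t, chk3 f_pm_011_s t 283 498 1 = true :=
  ⟨(a (c (a (b (b (b (a (l 16776688) (l 16776408)) (l 16776040)) (l 16775280)) (l 16773752)) (b (b (l 16775824) (l 16774728)) (l 16773200))) (b (b (a (a (l 16776432) (l 16776160)) (l 16775752)) (l 16775016)) (l 16773496))) (c (b (b (l 16775000) (l 16773904)) (l 16772376)) (b (c (l 16774424) (l 16774416)) (l 16772408)))), by decide +kernel⟩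

def k57_pm_011_s : ∃ t, chk3 f_pm_011_s t 141 499 1 = true :=
  ⟨(a (c (b (a (a (l 16773904) (l 16773360)) (l 16772536)) (l 16771040)) (b (c (l 16773104) (l 16773104)) (l 16771080))) (b (a (l 16771456) (l 16770360)) (l 16768872))), by decide +kernel⟩

def k58_pm_011_s : ∃ t, chk3 f_pm_011_s t 142 992 1 = true :=
  ⟨(b (l 3) (a (l 3) (a (l 3) (a (a (l 3) (b (l 3) (a (l 3) (b (l 3) (b (l 3) (a (l 328195899767) (l 16777336))))))) (a (b (l 3) (b (b (l 3) (a (l 3) (a (l 259476422999) (l 16777192)))) (a (b (a (l 293836161383) (l 16777368)) (l 16777112)) (l 16777040)))) (b (b (l 3) (c (b (l 589115162967) (a (l 409263407591) (l 58686701799))) (a (l 420537696967) (l 211158041079)))) (b (a (a (b (l 232096006455) (l 16777128)) (l 16777200)) (l 16777016)) (l 16776832)))))))), by decide +kernel⟩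

def k59_pm_011_s : ∃ t, chk3 f_pm_011_s t 142 993 1 = true :=
  ⟨(b (a (l 3) (a (a (b (l 3) (b (l 3) (a (l 3) (c (c (l 603610677703) (l 611126870471)) (l 618106192327))))) (a (b (l 3) (b (a (l 3) (c (l 569787810087) (l 388325442199))) (b (a (c (l 386177958343) (l 390472925639)) (c (l 16777352) (l 16777192))) (a (a (l 183240753431) (l 16777168)) (l 16777064))))) (a (b (l 3) (b (c (b (l 347523252631) (l 16777176)) (l 169282109895)) (l 16776992))) (b (a (l 3) (b (l 3) (b (l 3) (l 256255197511)))) (b (c (l 16777184) (l 16777104)) (l 16776856)))))) (a (b (b (a (b (l 3) (a (l 3) (a (l 450602467655) (l 188609462567)))) (a (b (a (l 362555638151) (l 161229046023)) (l 16777136)) (l 16777144))) (a (b (a (a (l 3) (l 221895459127)) (l 16777144)) (a (l 16777320) (l 16777024))) (l 16776880))) (a (b (l 16776904) (l 16776648)) (l 16776536))) (c (a (b (l 16776728) (l 16776224)) (l 16776200)) (l 16776336))))) (a (b (l 3) (a (l 3) (a (l 3) (a (b (l 3) (b (a (l 3) (a (l 442012533079) (l 201494364455))) (a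 (a (l 3) (l 234780361015)) (l 16777232)))) (b (b (a (l 3) (a (l 336785834375) (l 135996113159))) (a (a (l 421074567495) (l 168745238807)) (l 16777128))) (c (l 16777008) (l 16777008))))))) (a (a (b (a (b (l 3) (b (a (l 3) (a (l 276656292183) (l 16777200))) (a (a (l 309942288743) (l 16777288)) (l 16777112)))) (a (b (b (l 3) (a (l 243370295623) (l 16777192))) (l 16777032)) (b (a (b (l 210084299063) (l 16777120)) (l 16777200)) (l 16776896)))) (c (a (a (l 16776928) (l 16776792)) (l 16776584)) (l 16776720))) (b (c (c (l 16776680) (l 16776680)) (l 16776680)) (c (l 16776168) (l 16776176)))) (c (c (c (l 16775592) (l 16775600)) (l 16775600)) (l 16775600))))), by decide +kernel⟩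

def k60_pm_011_s : ∃ t, chk3 f_pm_011_s t 142 1988 1 = true :=
  ⟨(a (a (a (l 3) (b (l 3) (a (a (l 3) (b (l 3) (b (l 3) (a (a (l 397989118247) (l 284709355751)) (l 16777280))))) (b (b (c (l 606295032151) (l 425369535175)) (a (l 3) (c (c (l 142438564087) (l 16777216)) (l 16777216)))) (b (a (c (c (l 166597755143) (l 16777224)) (l 16777224)) (l 16777088)) (l 16777032)))))) (a (a (b (b (l 3) (a (c (l 584820195655) (l 410874020519)) (b (a (l 3) (l 326585287031)) (c (l 16777352) (l 16777192))))) (b (a (a (b (a (l 280951259383) (l 16777216)) (l 16777112)) (l 16777192)) (l 16777008)) (l 16776816))) (b (b (b (a (l 3) (c (c (l 322290319751) (l 323364061575)) (l 334638350727))) (a (c (c (l 339470188967) (l 341080801703)) (l 346986381735)) (c (l 16777168) (l 16777168)))) (c (c (c (l 16777176) (l 16777048)) (l 16777048)) (l 16777048))) (c (l 16776672) (l 16776672)))) (b (a (b (a (b (l 16777280) (l 16777032)) (l 16776960)) (l 16776776)) (c (l 16776624) (l 16776632))) (c (l 16776256) (l 16776256)))))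 (a (c (c (c (l 16775808) (l 16775680)) (l 16775688)) (c (l 16775688) (l 16775688))) (c (l 16774584) (l 16774592)))), by decide +kernel⟩

def k61_pm_011_s : ∃ t, chk3 f_pm_011_s t 142 1989 1 = true :=
  ⟨(a (a (b (a (b (b (l 3) (a (l 3) (a (l 3) (a (l 339470188935) (l 139217338631))))) (b (a (l 3) (a (a (l 423222051143) (a (l 269140099303) (l 16777216))) (l 16777128))) (a (a (l 3) (a (l 442549403991) (a (l 307794804983) (l 16777304)))) (c (l 16777072) (l 16777072))))) (b (a (a (b (a (l 313700385127) (l 16777336)) (l 16777120)) (l 16777048)) (l 16776840)) (c (l 16776720) (l 16776728)))) (a (b (a (b (a (a (l 3) (a (l 346449510663) (l 192367558903))) (l 16777232)) (c (l 16777176) (l 16777096))) (l 16776880)) (a (l 16776904) (l 16776632))) (c (l 16776344) (l 16776344)))) (a (b (a (l 16776440) (l 16776168)) (l 16775792)) (b (l 16775752) (l 16775248)))) (a (c (l 16774672) (l 16774680)) (l 16773576))), by decide +kernel⟩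

def k62_pm_011_s : ∃ t, chk3 f_pm_011_s t 142 995 1 = true :=
  ⟨(a (a (b (a (c (b (l 16776384) (l 16775872)) (l 16776136)) (c (l 16775576) (l 16775584))) (c (l 16774840) (l 16774848))) (b (c (l 16774752) (l 16774760)) (l 16773744))) (c (c (l 16772912) (l 16772600)) (l 16772776))), by decide +kernel⟩

def k63_pm_011_s : ∃ t, chk3 f_pm_011_s t 143 248 1 = true :=
  ⟨(b (b (b (a (a (b (a (l 3) (a (l 3) (b (l 3) (b (a (l 3) (c (l 218674233639) (l 16777240))) (a (a (l 342691414391) (l 16777344)) (l 16777120)))))) (a (a (l 3) (b (l 3) (b (a (l 3) (c (l 312626643319) (l 16777400))) (a (c (l 327122157975) (l 328732770711)) (l 16777328))))) (b (b (a (a (l 3) (a (l 422685180231) (l 169818980631))) (l 16777144)) (a (a (a (l 443623145815) (l 204178719015)) (l 16777144)) (l 16776936))) (c (c (l 16776984) (l 16776880)) (l 16776880))))) (a (b (b (a (b (a (l 3) (c (l 165524013319) (l 16777216))) (a (c (l 192367558935) (l 16777232)) (l 16777096))) (l 16776952)) (c (l 16776840) (l 16776840))) (c (l 16776456)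 (l 16776456))) (c (c (l 16776240) (l 16776160)) (l 16776160)))) (a (a (b (l 16775864) (l 16775352)) (l 16775136)) (a (l 16774504) (l 16773952)))) (a (a (a (b (c (b (b (a (l 561734746407) (l 16777272)) (a (a (l 378661765559) (l 16777184)) (l 16776976))) (a (a (a (l 16777328) (l 16777096)) (l 16776992)) (l 16776792))) (b (a (a (l 394767893159) (l 175724560855)) (l 16777040)) (l 16777088))) (c (l 16776584) (l 16776544))) (b (c (l 16776504) (l 16776504)) (l 16776040))) (c (c (l 16775416) (l 16775424)) (l 16775424))) (c (c (l 16773752) (l 16773760)) (l 16773760)))) (c (a (a (b (a (l 16775784) (l 16775232)) (l 16774496)) (a (l 16774176) (l 16773616))) (c (l 16772232) (l 16772240))) (a (a (b (l 16775512) (l 16774496)) (l 16773904)) (l 16772248)))) (c (a (b (c (l 16772408) (l 16772424)) (l 16770384)) (b (l 16770200) (l 16768168))) (a (b (l 16772432) (l 16770416)) (l 16769216)))), by decide +kernel⟩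

def k64_pm_011_s : ∃ t, chk3 f_pm_011_s t 71 249 1 = true :=
  ⟨(a (b (c (a (b (a (l 16773312) (l 16772208)) (l 16770728)) (b (l 16770560) (l 16768520))) (a (b (c (l 16772784) (l 16772776)) (l 16770760)) (l 16769744))) (c (a (l 16767664) (l 16765464)) (a (l 16767720) (l 16765528)))) (a (b (b (l 16768376) (l 16766344)) (l 16763288)) (b (l 16765480) (l 16761080)))), by decide +kernel⟩

def k65_pm_011_s : ∃ t, chk3 f_pm_011_s t 35 125 1 = true :=
  ⟨(a (b (a (a (b (b (a (b (a (l 16774720) (l 16774176)) (l 16773424)) (b (l 16773352) (l 16772336))) (c (l 16771336) (l 16771376))) (c (l 16768600) (l 16768320))) (b (b (a (l 16771920) (l 16770664)) (l 16769176)) (c (l 16766080) (l 16766144)))) (c (b (a (l 16767984) (l 16765784)) (l 16762792)) (b (a (l 16768032) (l 16765848)) (l 16762872)))) (b (a (c (l 16763080) (l 16763152)) (l 16759232)) (a (c (l 16758976) (l 16759072)) (l 16754640)))) (a (b (b (a (l 16763616) (l 16761424)) (l 16758440)) (c (l 16752240) (l 16752368))) (b (c (l 16756016) (l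 16756136)) (l 16747888)))), by decide +kernel⟩

def k66_pm_011_s : ∃ t, chk3 f_pm_011_s t 17 63 1 = true :=
  ⟨(b (a (a (l 14) (b (a (l 14) (c (b (l 16759224) (l 14)) (l 16757600))) (l 14))) (a (b (c (a (l 16752800) (l 16748416)) (a (l 16752920) (l 16748552))) (c (l 16742344) (l 16742504))) (b (c (l 16741800) (l 16741968)) (l 16734936)))) (a (l 14) (b (a (c (l 16734048) (l 16734224)) (l 16725336)) (a (l 14) (l 16717008))))), by decide +kernel⟩

def k67_pm_011_s : ∃ t, chk3 f_pm_011_s t 36 60 1 = true :=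
  ⟨(l 3), by decide +kernel⟩

def k68_pm_011_s : ∃ t, chk3 f_pm_011_s t 37 120 1 = true :=
  ⟨(l 3), by decide +kernel⟩

def k69_pm_011_s : ∃ t, chk3 f_pm_011_s t 74 121 1 = true :=
  ⟨(l 3), by decide +kernel⟩

def k70_pm_011_s : ∃ t, chk3 f_pm_011_s t 75 242 1 = true :=
  ⟨(l 3), by decide +kernel⟩

def k71_pm_011_s : ∃ t, chk3 f_pm_011_s t 75 486 1 = true :=
  ⟨(a (l 3) (a (a (l 3) (a (l 3) (b (l 3) (b (l 3) (b (l 3) (a (b (l 3) (a (l 339470189287) (l 16777536))) (b (a (l 286856839863) (l 16777176)) (l 16777000)))))))) (b (a (l 3) (b (l 3) (a (b (l 3) (a (l 3) (c (c (l 468856078711) (l 292762420311)) (l 291151807639)))) (a (b (l 3) (b (a (l 300278612663) (l 16777184)) (l 16777008))) (b (b (l 599315710423) (c (l 145659789927) (l 16777216))) (l 16776840)))))) (b (a (b (a (l 3) (a (l 3) (a (l 3) (b (l 3) (l 247128392311))))) (b (a (l 3) (a (c (l 332490867591) (l 16777704)) (l 16777440))) (a (c (l 570861552263) (l 586967679623)) (c (l 16777328) (l 16777000))))) (b (a (a (b (c (l 262160777991)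 (l 16777312)) (l 16777080)) (l 16777080)) (l 16776480)) (c (l 16776264) (l 16776256)))) (c (a (a (b (b (a (l 596094484935) (l 16777504)) (a (l 135996113511) (l 16776928))) (l 16776696)) (l 16776376)) (l 16775512)) (a (a (a (b (l 234780361751) (l 16776832)) (l 16776800)) (l 16776368)) (l 16775496))))))), by decide +kernel⟩

def k72_pm_011_s : ∃ t, chk3 f_pm_011_s t 75 974 1 = true :=
  ⟨(a (b (l 3) (b (l 3) (b (l 3) (a (l 3) (a (l 3) (a (l 3) (a (l 3) (a (l 321216578263) (l 16777528))))))))) (a (a (a (b (l 3) (a (b (l 3) (b (a (l 276119421591) (l 16777168)) (l 16776984))) (b (b (l 575693390263) (c (l 124721824343) (l 16777200))) (l 16776824)))) (b (b (l 3) (a (c (l 563882230359) (l 381882992007)) (b (a (l 3) (l 282561872551)) (c (l 16777136) (l 16777136))))) (c (c (c (b (l 16777232) (l 16776400)) (l 16776976)) (l 16776976)) (l 16776648)))) (a (b (b (a (a (l 3) (b (l 3) (l 236390974055))) (b (a (l 382419862311) (l 189683204647)) (l 16777072))) (c (c (l 16776832) (l 16776832)) (l 16776832)))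 (c (l 16776080) (l 16776072))) (c (c (b (l 16776512) (l 16775504)) (l 16776008)) (l 16776000)))) (a (c (b (l 16775856) (l 16774648)) (l 16775128)) (c (l 16774328) (l 16773976))))), by decide +kernel⟩

def k73_pm_011_s : ∃ t, chk3 f_pm_011_s t 75 975 1 = true :=
  ⟨(a (a (l 3) (b (a (b (l 3) (a (l 3) (a (l 3) (a (l 3) (b (l 3) (l 312089772743)))))) (a (b (a (l 3) (a (l 3) (b (l 3) (l 215989879383)))) (b (a (a (l 3) (l 266992616071)) (l 16777416)) (c (c (l 16776984) (l 16776984)) (l 16776984)))) (a (b (b (a (l 367387476759) (l 170892722711)) (l 16777056)) (l 16776680)) (c (l 16776808) (l 16776640))))) (a (b (b (a (l 3) (a (l 562271617431) (c (l 16777480) (l 16777160)))) (a (c (l 599852581591) (l 610589999831)) (a (a (l 205789332039) (l 16777120)) (l 16776904)))) (b (a (a (l 3) (a (l 255718326903) (l 16777152))) (l 16776792)) (a (a (a (l 300278612663) (l 16777512)) (l 16776976)) (l 16776544)))) (c (c (l 16776144) (l 16776064)) (l 16776056))))) (c (a (c (a (b (l 16775928) (l 16774920)) (l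 16774272)) (a (l 16775424) (l 16774280))) (c (l 16772552) (l 16772560))) (a (c (a (l 16775416) (l 16774264)) (l 16774832)) (l 16772528)))), by decide +kernel⟩

def k74_pm_011_s : ∃ t, chk3 f_pm_011_s t 72 122 1 = true :=
  ⟨(l 3), by decide +kernel⟩

def k75_pm_011_s : ∃ t, chk3 f_pm_011_s t 73 244 1 = true :=
  ⟨(l 3), by decide +kernel⟩

def k76_pm_011_s : ∃ t, chk3 f_pm_011_s t 73 490 1 = true :=
  ⟨(a (l 3) (a (l 3) (a (l 3) (b (l 3) (b (l 3) (a (b (l 3) (a (l 3) (b (l 3) (a (l 3) (b (l 393694151175) (l 16777208)))))) (b (b (l 3) (a (l 3) (c (a (l 341080801943) (l 141364822423)) (l 207399944887)))) (b (a (a (c (l 394767893159) (l 397452247719)) (b (l 346986381767) (l 16777184))) (l 16777200)) (c (c (l 16776928) (l 16776928)) (l 16776920)))))))))), by decide +kernel⟩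

def k77_pm_011_s : ∃ t, chk3 f_pm_011_s t 73 982 1 = true :=
  ⟨(a (l 3) (a (b (l 3) (b (l 3) (a (l 3) (a (l 3) (b (a (l 3) (a (b (l 3) (l 270750712215)) (c (l 36138123639) (l 16777200)))) (a (a (b (l 3) (l 331417125319)) (b (l 306184192423) (l 16777168))) (l 16777096))))))) (b (a (b (b (l 3) (a (l 3) (a (l 3) (c (l 527911878999) (l 352891962183))))) (b (a (l 3) (a (c (l 560661004679) (l 385104216951)) (a (b (l 292762419623) (l 16777160)) (l 16777080)))) (a (a (l 3) (c (l 586967679431) (l 417316471719))) (a (a (b (l 355039445463) (l 16777192)) (l 16777112)) (l 16776904))))) (b (b (a (a (a (l 3) (b (l 3) (l 16777400))) (c (l 16777256) (l 16777096))) (l 16776672)) (a (a (a (a (l 159618433415) (l 16777160)) (l 16777056)) (l 16776840)) (l 16776416))) (c (c (l 16776320) (l 16776328)) (l 16776320)))) (a (a (b (b (a (l 3) (a (b (l 428590760423) (l 16777376)) (l 16777304))) (a (a (b (l 3) (l 193978171783)) (c (l 16777168) (l 16777168))) (l 16776960))) (c (l 16776720) (l 16776720))) (c (c (l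 16776408) (l 16776416)) (l 16776408))) (c (c (l 16775568) (l 16775568)) (l 16775560)))))), by decide +kernel⟩

def k78_pm_011_s : ∃ t, chk3 f_pm_011_s t 73 983 1 = true :=
  ⟨(a (b (l 3) (b (l 3) (b (l 3) (a (l 3) (a (l 3) (a (l 3) (a (l 3) (a (b (l 3) (l 204715590023)) (c (l 16777336) (l 16777176)))))))))) (a (a (a (b (l 3) (a (b (a (l 3) (c (l 600389452327) (l 608442516007))) (b (a (b (l 3) (l 16777384)) (c (l 16777144) (l 16777144))) (l 16776968))) (b (b (c (l 565492842903) (l 395304764279)) (a (b (l 363092509159) (l 16777192)) (l 16777280))) (l 16776832)))) (b (b (l 3) (b (a (l 3) (a (l 3) (b (l 3) (l 201494364551)))) (a (c (l 534354329959) (l 364703122247)) (a (b (l 229948522919) (l 16777136)) (l 16777064))))) (a (b (b (a (b (l 313700385191) (l 16777168)) (l 16777088)) (l 16776904)) (l 16776528)) (c (l 16776504) (l 16776496))))) (b (b (b (a (a (l 3) (a (c (l 402284085943) (l 405505311415)) (b (l 367387476439) (l 16777192)))) (c (l 16777072) (l 16776904))) (a (a (a (l 3) (b (l 433422598631)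 (l 16777384))) (c (l 16777240) (l 16777072))) (l 16776656))) (a (a (b (c (l 16777344) (l 16777104)) (l 16776848)) (l 16776696)) (l 16776360))) (c (c (l 16775960) (l 16775800)) (l 16775792)))) (a (b (c (a (l 16775968) (l 16775400)) (l 16775672)) (a (l 16774952) (l 16774392))) (c (c (l 16774048) (l 16774056)) (l 16774040))))), by decide +kernel⟩

def k79_pm_011_s : ∃ t, chk3 f_pm_011_s t 144 246 1 = true :=
  ⟨(l 3), by decide +kernel⟩

def k80_pm_011_s : ∃ t, chk3 f_pm_011_s t 145 492 1 = true :=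
  ⟨(l 3), by decide +kernel⟩

def k81_pm_011_s : ∃ t, chk3 f_pm_011_s t 145 986 1 = true :=
  ⟨(a (l 3) (b (a (l 3) (a (a (l 3) (b (l 3) (b (l 3) (c (a (b (l 3) (l 16777400)) (l 16777320)) (l 142975435351))))) (b (b (a (l 3) (c (c (l 554218553735) (l 557976650119)) (l 382956733287))) (a (c (l 582672712119) (l 597168226727)) (a (b (l 348596994503) (l 16777184)) (l 16777272)))) (b (a (b (a (l 423758922199) (l 16777360)) (a (l 114521276743) (l 16777072))) (l 16776928)) (c (l 16776816) (l 16776808)))))) (a (a (a (l 3) (b (l 3) (b (l 3) (a (l 603073806679) (b (l 387788571111) (l 16777368)))))) (a (b (l 3) (b (a (b (l 3) (l 356113187287)) (b (l 324437803463) (l 16777176))) (c (l 16777224) (l 16777056)))) (b (b (l 3) (b (a (l 3) (a (l 440938791255) (l 16777400))) (a (l 302962966951) (l 16777152)))) (c (c (l 16776904) (l 16776904)) (l 16776904))))) (a (b (b (a (a (b (l 3) (c (l 253033972055) (l 16777256))) (a (b (l 326585287031) (l 16777160)) (l 16777320))) (l 16776976)) (c (l 16776864) (l 16776864)))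 (c (l 16776488) (l 16776488))) (c (c (l 16776176) (l 16776184)) (l 16776176)))))), by decide +kernel⟩

def k82_pm_011_s : ∃ t, chk3 f_pm_011_s t 145 987 1 = true :=
  ⟨(a (b (a (l 3) (a (b (l 3) (b (l 3) (a (l 3) (c (c (l 564955971991) (l 568714068375)) (l 392620409719))))) (b (b (l 3) (b (l 3) (a (l 3) (a (l 3) (c (l 235317231943) (l 16777248)))))) (a (a (b (l 3) (b (c (l 319069094279) (l 16777288)) (l 16777168))) (b (b (l 3) (c (l 298667999591) (l 16777272))) (l 16777176))) (b (a (b (c (l 266992615767) (l 16777264)) (l 16777144)) (l 16777064)) (l 16776880)))))) (a (a (l 3) (b (l 3) (b (a (l 3) (b (a (l 3) (c (l 191293817111) (l 16777224))) (a (a (l 310479159655) (l 16777208)) (l 16777104)))) (a (a (b (l 3) (c (l 273435066711) (l 16777264))) (b (c (l 242296553799) (l 16777248)) (l 16777128))) (l 16777024))))) (a (b (b (a (c (l 591799517639) (l 606295032247)) (b (a (l 366850605527) (l 16777344)) (c (l 16777288) (l 16777120)))) (a (b (a (l 424832664039) (l 24863834423)) (a (a (l 236927844663)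 (l 16777184)) (l 16777080))) (l 16776936))) (c (c (l 16776696) (l 16776696)) (l 16776696))) (c (b (l 16776640) (l 16776136)) (l 16776392))))) (a (b (a (b (b (a (b (l 3) (a (l 3) (c (l 16777392) (l 16777224)))) (c (c (l 16777248) (l 16777080)) (l 16777080))) (a (a (a (b (l 301889225063) (l 16777152)) (l 16777304)) (l 16777040)) (l 16776832))) (c (l 16776592) (l 16776592))) (c (c (l 16776288) (l 16776288)) (l 16776280))) (c (c (l 16775552) (l 16775560)) (l 16775552))) (c (c (b (l 16775448) (l 16774432)) (l 16775112)) (c (l 16774944) (l 16774928))))), by decide +kernel⟩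

def k83_pm_011_s : ∃ t, chk3 f_pm_011_s t 72 988 1 = true :=
  ⟨(a (a (l 3) (b (a (l 3) (a (l 3) (b (l 3) (a (a (l 3) (b (l 3) (b (l 3) (c (l 191830688023) (l 16777224))))) (a (b (l 607905644887) (c (c (l 16777320) (l 16777152)) (l 16777152))) (b (b (l 391009796599) (c (l 16777208) (l 16777208))) (l 16777016))))))) (a (a (l 3) (b (l 3) (b (a (l 3) (c (c (l 565492842903) (l 569250939287)) (l 579451486599))) (a (c (l 596631355831) (l 605221290423)) (b (a (c (l 368998089143) (l 16777472)) (l 16777344)) (c (l 16777288) (l 16777120))))))) (a (a (b (b (l 3) (a (l 3) (a (l 3) (b (l 3) (l 213305524535))))) (b (a (b (c (l 320679707015) (l 16777288)) (l 16777168)) (l 16777216)) (l 16776912))) (b (b (b (l 3) (a (l 3) (c (l 241222811975) (l 16777248)))) (a (b (c (l 271824453975) (l 16777264)) (l 16777144)) (l 16777072))) (c (l 16776760) (l 16776760)))) (b (b (a (a (b (c (l 222432330023) (l 16777240)) (l 16777120)) (l 16777040)) (l 16776832)) (c (l 16776720) (l 16776720))) (c (l 16776344) (l 16776336)))))))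 (a (a (b (a (a (b (b (l 3) (b (a (l 3) (a (l 3) (l 288467452263))) (a (l 370071830999) (l 16777344)))) (c (c (c (l 16777096) (l 16776936)) (l 16776936)) (l 16776936))) (b (b (b (a (l 3) (c (l 292762419575) (l 16777272))) (a (c (l 323900932487) (l 16777288)) (l 16777160))) (c (l 16777040) (l 16777040))) (l 16776696))) (c (a (b (l 16776968) (l 16776376)) (l 16776352)) (l 16776576))) (c (c (c (l 16775760) (l 16775760)) (l 16775760)) (l 16775760))) (b (c (a (l 16775936) (l 16775376)) (l 16775656)) (c (l 16774648) (l 16774640)))) (c (c (a (l 16774032) (l 16772912)) (l 16773648)) (c (l 16773480) (l 16773464))))), by decide +kernel⟩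

def k84_pm_011_s : ∃ t, chk3 f_pm_011_s t 72 989 1 = true :=
  ⟨(a (b (a (b (l 3) (b (l 3) (a (l 3) (a (l 3) (a (l 3) (b (a (l 3) (c (l 291688677735) (l 16777272))) (a (c (l 309942288775) (l 16777280)) (l 16777152)))))))) (a (b (b (a (l 3) (a (a (b (l 434496340439) (a (l 231559135543) (l 16777184))) (c (l 16777304) (l 16777144))) (l 16776936))) (a (a (l 3) (a (b (l 3) (c (l 214379266343) (l 16777240))) (c (c (l 16777368) (l 16777168)) (l 16777168)))) (c (l 16776824) (l 16776816)))) (a (a (b (b (a (l 3) (c (l 244444037431) (l 16777248))) (a (c (l 262160777559) (l 16777256)) (l 16777128))) (c (l 16777008) (l 16777008))) (c (l 16776856) (l 16776856))) (c (l 16776440) (l 16776440)))) (a (b (a (l 16776528) (l 16776256)) (l 16775888)) (b (l 16775840) (l 16775336))))) (a (b (a (l 3) (a (a (l 3) (b (l 3) (b (a (l 3) (l 403357827527)) (a (l 428590760407) (c (l 16777200) (l 16777200)))))) (a (b (b (a (l 3) (c (l 338933318039) (l 16777296))) (a (c (l 367924347303) (l 16777464)) (l 16777344))) (c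 (c (l 16777224) (l 16777056)) (l 16777056))) (b (c (l 16777112) (l 16777032)) (l 16776784))))) (a (b (l 3) (b (l 3) (a (l 3) (a (l 3) (a (l 3) (c (l 227801039159) (l 16777240))))))) (a (b (a (b (l 3) (a (l 3) (c (l 181093269767) (l 16777224)))) (c (c (c (l 16777240) (l 16777080)) (l 16777080)) (l 16777080))) (a (a (b (c (l 210084299031) (l 16777232)) (l 16777112)) (l 16777040)) (l 16776832))) (c (l 16776536) (l 16776536))))) (a (a (b (a (l 16776672) (l 16776352)) (l 16775984)) (b (l 16775936) (l 16775432))) (c (l 16774848) (l 16774848))))) (c (a (a (c (l 16774400) (l 16774248)) (l 16773128)) (l 16771456)) (a (c (l 16773848) (l 16773672)) (l 16771448)))), by decide +kernel⟩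

def k85_pm_011_s : ∃ t, chk3 f_pm_011_s t 72 495 1 = true :=
  ⟨(b (b (a (a (a (a (a (b (l 3) (a (b (l 3) (c (b (l 404431569351) (l 16777368)) (l 211158041079))) (b (c (l 571398422839) (l 392083538599)) (c (l 16777296) (l 16777128))))) (b (b (l 3) (a (l 3) (a (l 3) (b (l 3) (l 257865810263))))) (b (b (a (c (l 348060123559) (l 16777424)) (l 16777336)) (c (l 16777280) (l 16777112))) (l 16776928)))) (a (a (b (b (l 3) (b (c (l 302426095991) (l 16777280)) (l 16777160))) (l 16776848)) (b (b (b (l 3) (c (l 273971937639) (l 16777264))) (l 16777168)) (l 16776704))) (b (b (b (a (c (l 256792068423) (l 16777256)) (l 16777120)) (l 16777152)) (l 16776880)) (l 16776496)))) (a (c (b (l 16776584) (l 16776080)) (l 16776336)) (c (l 16775776) (l 16775776)))) (a (c (l 16774944) (l 16774944)) (l 16773848))) (a (a (l 16772736) (l 16771624)) (l 16769952))) (a (a (a (a (c (a (b (l 16776824) (l 16776312)) (l 16776376)) (l 16776432)) (c (l 16775960) (l 16775872))) (c (l 16775208) (l 16775040))) (c (l 16773544)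 (l 16773376))) (a (l 16771168) (l 16768944)))) (a (c (a (a (c (b (l 16775136) (l 16774120)) (l 16774640)) (l 16773688)) (l 16772104)) (a (a (c (l 16774640) (l 16774624)) (l 16773528)) (l 16771864))) (c (a (l 16769632) (l 16767400)) (l 16768528)))), by decide +kernel⟩

def k86_pm_011_s : ∃ t, chk3 f_pm_011_s t 146 984 1 = true :=
  ⟨(a (b (l 3) (b (l 3) (b (l 3) (a (l 3) (a (l 3) (a (l 3) (b (l 3) (l 588578292055)))))))) (b (a (b (l 3) (b (l 3) (b (l 3) (a (l 3) (a (l 3) (a (l 3) (l 16777384))))))) (b (b (a (l 3) (a (a (b (l 3) (l 264845132215)) (b (l 232632877479) (l 16777144))) (l 16776992))) (a (a (l 3) (a (b (l 3) (l 339470188999)) (b (l 315310997927) (l 16777168)))) (c (l 16776880) (l 16776880)))) (b (a (a (a (c (l 404431569591) (l 407115924151)) (b (l 363629380071) (l 16777192))) (c (l 16777048) (l 16777048))) (l 16776632)) (c (c (a (l 16777120) (l 16776376)) (l 16776824)) (l 16776816))))) (a (a (a (b (l 3) (b (c (l 563882230167) (l 392620409719)) (a (b (l 367924347351) (l 16777192))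 (l 16777280)))) (b (a (l 3) (b (l 3) (b (l 3) (l 276656292247)))) (b (a (b (l 311016030631) (l 16777168)) (l 16777088)) (l 16776904)))) (a (b (b (b (l 3) (a (l 3) (l 202568106375))) (a (b (l 229948522919) (l 16777136)) (l 16777064))) (l 16776752)) (b (a (b (b (l 170355851639) (l 16777112)) (l 16776920)) (l 16776912)) (l 16776472)))) (c (a (a (l 16776448) (l 16776168)) (l 16775744)) (l 16776016))))), by decide +kernel⟩

def k87_pm_011_s : ∃ t, chk3 f_pm_011_s t 146 985 1 = true :=
  ⟨(a (b (a (l 3) (a (b (l 3) (b (a (l 3) (a (b (l 3) (l 253570843063)) (b (l 226727297431) (l 16777136)))) (a (a (b (l 3) (l 333564608951)) (b (l 300278612391) (l 16777160))) (c (l 16777016) (l 16777016))))) (b (b (a (l 3) (a (b (l 431811985895) (l 137069855063)) (c (l 16777144) (l 16777144)))) (a (a (b (l 3) (l 195588784519)) (c (l 16777416) (l 16777168))) (l 16776960))) (c (c (l 16776720) (l 16776728)) (l 16776720))))) (a (a (b (l 3) (b (b (l 3) (a (l 3) (a (l 3) (l 188072591735)))) (b (a (l 3) (a (a (l 344838898055)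 (l 16777216)) (l 16777120))) (a (a (l 3) (c (l 276119421271) (l 16777264))) (l 16777064))))) (b (b (a (l 3) (a (b (l 3) (l 380809249271)) (b (l 356113187287) (l 16777192)))) (a (b (l 606295032167) (a (l 3) (l 130627404103))) (c (l 16777232) (l 16777072)))) (a (a (b (b (l 156934078823) (l 16777104)) (l 16776912)) (l 16776904)) (l 16776696)))) (a (c (c (c (b (l 16776856) (l 16776272)) (l 16776648)) (l 16776608)) (l 16776608)) (c (l 16775968) (l 16775960))))) (c (a (b (a (b (l 16776672) (l 16776168)) (l 16775856)) (l 16775128)) (c (l 16774672) (l 16774512))) (a (c (b (l 16776136) (l 16775120)) (l 16775624)) (l 16774496)))), by decide +kernel⟩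

def k88_pm_011_s : ∃ t, chk3 f_pm_011_s t 146 493 1 = true :=
  ⟨(b (a (a (a (a (b (b (b (b (a (l 293836161431) (l 16777144)) (l 16777256)) (l 16776896)) (l 16776520)) (l 16775848)) (b (c (c (l 16776496) (l 16776496)) (l 16776488)) (l 16775488))) (b (c (l 16776160) (l 16776072)) (l 16775064))) (c (b (l 16775400) (l 16774224)) (l 16774888))) (c (c (l 16773376) (l 16773056)) (l 16773200))) (c (a (c (a (l 16773824) (l 16772704)) (l 16773272)) (l 16771032)) (a (c (l 16773264) (l 16773248)) (l 16771016)))), by decide +kernel⟩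

def k89_pm_011_s : ∃ t, chk3 f_pm_011_s t 147 246 1 = true :=
  ⟨(b (b (a (a (b (c (c (c (l 16775912) (l 16775912)) (l 16775912)) (l 16775904)) (c (l 16774904) (l 16774896))) (c (c (l 16774280) (l 16774288)) (l 16774272))) (a (a (l 16773608) (l 16772880)) (l 16772032))) (c (a (c (l 16772824) (l 16772832)) (l 16770584)) (a (l 16772808) (l 16770552)))) (c (a (c (l 16769784) (l 16769808)) (l 16767552)) (a (l 16769776) (l 16767520)))), by decide +kernel⟩

def k90_pm_011_s : ∃ t, chk3 f_pm_011_s t 73 247 1 = true :=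
  ⟨(b (a (a (b (a (l 16771816) (l 16770704)) (l 16769240)) (b (l 16769032) (l 16767008))) (c (l 16765280) (l 16764616))) (a (c (a (l 16766176) (l 16763936)) (l 16765072)) (c (l 16760568) (l 16760592)))), by decide +kernel⟩

def k91_pm_011_s : ∃ t, chk3 f_pm_011_s t 148 244 1 = true :=
  ⟨(a (l 3) (b (l 3) (b (l 3) (b (b (l 3) (b (l 3) (a (l 3) (a (l 3) (a (l 3) (c (a (l 370608702151) (l 182167011767)) (l 235854103271))))))) (a (b (l 3) (a (l 3) (a (l 3) (c (c (l 570861552231) (l 574619648615)) (l 578377744999))))) (a (b (a (l 3) (a (l 3) (b (l 3) (a (l 351281349159) (l 215453008327))))) (b (a (a (l 3) (c (l 297594258023) (l 16777312))) (c (l 16777440) (l 16777120))) (a (a (a (l 199346880951) (l 16777184)) (l 16777080)) (l 16776864)))) (a (b (c (b (a (l 400136602359) (l 221358588407)) (l 16777088)) (a (l 186998850391) (l 16777136))) (l 16776704)) (b (c (l 16777096) (l 16776928)) (l 16776424))))))))), by decide +kernel⟩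

def k92_pm_011_s : ∃ t, chk3 f_pm_011_s t 148 490 1 = true :=
  ⟨(b (b (a (l 3) (a (a (b (l 3) (b (a (l 3) (a (c (l 269676970567) (l 16777296)) (l 16777416))) (a (c (a (l 315310998135) (l 16777360)) (l 16777584)) (l 16776984)))) (b (b (a (l 587504550327) (a (a (l 255181455847) (l 16777376)) (l 16777112))) (a (a (a (l 306721063463) (l 174650819015)) (l 16777136)) (l 16776928))) (c (l 16776688) (l 16776688)))) (c (a (a (l 16776520) (l 16776240)) (l 16775816)) (l 16776088)))) (a (a (l 3) (a (b (l 3) (b (b (l 3) (a (l 3) (a (l 3) (l 16777224)))) (a (a (l 3) (c (l 284709356119) (l 16777304))) (c (l 16777272) (l 16777112))))) (b (a (b (l 3) (c (a (l 399062860487) (l 199883751911)) (l 253570843399))) (b (c (a (l 357723800247) (l 154786595255)) (l 219747975895)) (l 16777216))) (c (c (l 16776976) (l 16776816)) (l 16776808))))) (c (a (c (a (l 16776584) (l 16775936)) (l 16776216)) (l 16775088)) (a (l 16776208) (l 16775072))))) (a (b (a (a (a (l 3) (b (l 3) (b (l 608979386839) (a (a (l 352355090983)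 (l 216526750151)) (l 16777400))))) (b (b (a (l 3) (c (l 542407393655) (l 373829927767))) (a (c (l 576230261159) (l 401210344343)) (a (c (l 168208368071) (l 16777232)) (l 16777096)))) (b (a (a (c (l 212768653815) (l 16777264)) (l 16777128)) (l 16776920)) (l 16776808)))) (b (a (a (a (b (a (l 175187689927) (l 16777176)) (l 16776960)) (l 16776944)) (l 16776728)) (l 16776304)) (c (l 16776088) (l 16776080)))) (a (a (b (a (b (a (a (l 400673473111) (l 266455745031)) (c (l 16777352) (l 16777184))) (l 16777008)) (l 16776888)) (c (l 16776488) (l 16776480))) (c (l 16776176) (l 16776168))) (c (l 16775328) (l 16775320)))) (a (b (a (l 16775568) (l 16774920)) (l 16774192)) (b (l 16774232) (l 16773064))))), by decide +kernel⟩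

def k93_pm_011_s : ∃ t, chk3 f_pm_011_s t 148 491 1 = true :=
  ⟨(c (a (a (b (b (l 16775616) (l 16774440)) (l 16772928)) (b (l 16773816) (l 16771800))) (c (b (l 16772120) (l 16770096)) (l 16771448))) (a (b (a (l 16774928) (l 16773800)) (l 16772336)) (c (l 16771096) (l 16771064)))), by decide +kernel⟩

def k94_pm_011_s : ∃ t, chk3 f_pm_011_s t 298 122 1 = true :=
  ⟨(b (b (l 3) (b (a (a (l 3) (b (l 3) (b (l 3) (b (a (l 3) (c (l 556366037383) (l 370608702407))) (a (c (l 586967679431) (l 403357828087)) (a (a (l 257328939559) (l 16777376)) (l 16777112))))))) (a (b (l 3) (b (b (b (l 3) (a (l 3) (a (l 3) (l 16777232)))) (a (a (l 3) (a (l 384567345831) (l 273971937831))) (c (l 16777448) (l 16777120)))) (c (c (c (a (l 16777272) (l 16776744)) (l 16777208)) (l 16776880)) (l 16776880)))) (b (b (l 3) (a (b (l 3) (c (a (l 400673473271) (l 224579813879)) (l 273435067159))) (c (b (a (l 372219314887) (l 183777624503)) (l 16777056)) (l 46875542247)))) (c (b (c (l 16777024) (l 16776824)) (l 16776320))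 (l 16776560))))) (a (b (a (b (b (l 3) (a (l 3) (c (a (l 284172485207) (l 16777176)) (l 16777240)))) (c (a (b (a (l 330343383687) (l 16777368)) (l 16777024)) (l 16776864)) (c (l 16777496) (l 16777008)))) (b (a (b (a (c (l 244444037655) (l 16777272)) (l 16777304)) (l 16776960)) (l 16776824)) (c (l 16776440) (l 16776440)))) (c (c (c (l 16775968) (l 16775968)) (l 16775968)) (l 16775960))) (b (c (c (l 16775928) (l 16775840)) (l 16775832)) (c (l 16774840) (l 16774824)))))) (b (b (a (c (a (l 16774904) (l 16774176)) (l 16774440)) (c (l 16773328) (l 16773304))) (a (a (l 16772720) (l 16772152)) (l 16771304))) (c (c (l 16768840) (l 16768864)) (l 16768808)))), by decide +kernel⟩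

def k95_pm_011_s : ∃ t, chk3 f_pm_011_s t 299 122 1 = true :=
  ⟨(b (b (b (l 3) (b (a (l 3) (b (b (l 3) (a (l 3) (a (l 3) (a (l 360408154887) (a (l 222969201143) (l 16777192)))))) (b (a (l 3) (a (a (l 392620409671) (a (l 277193163319) (l 16777384))) (l 16777216))) (a (b (l 3) (a (l 3) (a (l 3) (l 16777232)))) (c (l 16777184) (l 16776944)))))) (a (a (l 3) (b (a (l 3) (a (l 3) (c (l 562808488423) (l 381346120823)))) (b (a (c (l 583746453959) (l 401747215351)) (c (c (l 18958254583) (l 16777176)) (l 16777176))) (a (a (a (l 311016030807) (l 188609462743)) (l 16777144)) (l 16776928))))) (b (b (a (a (a (l 3) (a (l 381882991271) (l 266992615975))) (c (l 16777440) (l 16777112))) (l 16776688)) (a (a (c (l 16777472) (l 16777144)) (l 16776864)) (l 16776432))) (c (c (l 16776344) (l 16776344)) (l 16776336)))))) (a (b (b (a (b (a (b (l 3) (c (a (l 330880254599) (l 16777200)) (l 16777264))) (b (a (a (l 365239992983) (l 241759683095)) (l 16777416)) (l 16776992))) (c (l 16776880) (l 16776752))) (b (a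 (l 16776832) (l 16776552)) (l 16776264))) (c (a (l 16776000) (l 16775432)) (l 16775704))) (c (c (l 16774200) (l 16774208)) (l 16774184))) (c (b (c (c (l 16775248) (l 16775088)) (l 16775080)) (l 16773072)) (b (c (l 16775072) (l 16775064)) (l 16773040))))) (c (b (b (l 16771944) (l 16769600)) (l 16766576)) (b (c (l 16770592) (l 16770560)) (l 16766544)))), by decide +kernel⟩

def k96_pm_011_s : ∃ t, chk3 f_pm_011_s t 75 244 1 = true :=
  ⟨(a (b (a (b (b (a (l 3) (a (b (l 3) (a (c (c (l 539186168359) (l 546165490199)) (l 359871284551)) (c (b (a (l 3) (l 249812746775)) (l 16777104)) (l 158544692039)))) (b (a (b (l 3) (a (l 382419862327) (a (l 258402681383) (l 16777216)))) (b (a (l 343765156599) (l 148881015287)) (l 16777040))) (c (c (l 16776808) (l 16776808)) (l 16776800))))) (a (a (b (l 3) (b (l 3) (a (l 3) (a (a (l 355039445639) (l 231022264839)) (l 16777496))))) (b (b (a (l 3) (a (l 3) (l 329269641959))) (a (l 574619648439) (c (c (l 16777496) (l 16777168)) (l 16777168)))) (c (a (a (b (l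 233169748487) (l 16777024)) (l 16777008)) (l 16776792)) (l 16776936)))) (a (c (c (c (b (l 16777112) (l 16776368)) (l 16776784)) (l 16776944)) (l 16776616)) (c (l 16776048) (l 16776040))))) (a (a (a (b (b (b (a (a (l 393157280439) (l 290078065207)) (l 46875541959)) (l 16777016)) (l 16776640)) (l 16775960)) (b (c (l 16776608) (l 16776600)) (l 16775592))) (b (c (l 16776184) (l 16776176)) (l 16775328))) (c (b (l 16775488) (l 16774320)) (l 16774808)))) (b (a (b (c (a (a (l 16776632) (l 16776344)) (l 16775912)) (l 16776192)) (c (l 16775192) (l 16775176))) (c (a (l 16775008) (l 16774272)) (l 16774536))) (c (c (l 16773432) (l 16773112)) (l 16773408)))) (c (b (a (c (a (l 16773944) (l 16772800)) (l 16773376)) (l 16771088)) (a (l 16771360) (l 16769064))) (a (c (b (l 16773360) (l 16771344)) (l 16772656)) (l 16770376)))) (c (b (a (b (a (l 16773408) (l 16772264)) (l 16770816)) (c (l 16769512) (l 16769536))) (c (l 16767264) (l 16766640))) (b (a (c (l 16772136) (l 16771784)) (l 16769496)) (a (l 16767760)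 (l 16765472))))), by decide +kernel⟩

def k97_pm_011_s : ∃ t, chk3 f_pm_011_s t 75 245 1 = true :=
  ⟨(c (a (b (a (l 16768984) (l 16766032)) (l 16763136)) (b (l 16762568) (l 16758512))) (a (b (a (l 16768304) (l 16766024)) (l 16763136)) (b (l 16762600) (l 16758592)))), by decide +kernel⟩

def k98_pm_011_s : ∃ t, chk3 f_pm_011_s t 37 123 1 = true :=
  ⟨(a (b (a (c (b (a (c (l 16769328) (l 16769352)) (l 16767080)) (l 16764824)) (b (a (l 16769304) (l 16767040)) (l 16764136))) (c (b (l 16764328) (l 16759632)) (b (l 16763640) (l 16759616)))) (c (a (b (l 16760120) (l 16756064)) (l 16753560)) (a (l 16758104) (l 16753600)))) (c (b (a (b (l 16759088) (l 16755048)) (l 16752432)) (a (l 16748968) (l 16744320))) (b (a (l 16757112) (l 16752592)) (l 16746840)))), by decide +kernel⟩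

def k99_pm_011_s : ∃ t, chk3 f_pm_011_s t 76 120 1 = true :=
  ⟨(l 3), by decide +kernel⟩

def k100_pm_011_s : ∃ t, chk3 f_pm_011_s t 154 120 1 = true :=
  ⟨(b (l 3) (b (a (l 3) (a (l 3) (a (l 3) (b (l 3) (b (l 3) (b (a (l 3) (l 559050392167)) (a (b (l 382419862663) (l 16777536)) (l 16777376)))))))) (b (a (b (l 3) (a (l 3) (a (l 3) (a (l 3) (b (l 3) (b (l 3) (l 16777600))))))) (a (a (b (l 3) (b (a (l 576767132311) (b (l 330343384135) (l 16777160))) (c (l 16777256) (l 16776928)))) (b (b (l 3) (a (l 522006299143) (b (l 249812747191) (l 16777080)))) (c (l 16776920) (l 16776592)))) (b (a (b (a (b (l 3) (l 210621170535)) (c (l 16777456) (l 16777128))) (l 16776768)) (c (l 16776432) (l 16776432))) (c (l 16775712) (l 16775704))))) (b (a (a (b (l 3) (a (l 3) (c (l 556902908727) (l 564419101479)))) (a (b (c (c (l 518785073831) (l 520932557479)) (l 336248964887)) (a (b (l 272898196455) (l 16777104)) (l 16776936))) (a (b (b (l 193978172247) (l 16777024)) (l 16776640)) (l 16776688)))) (a (c (l 16775872)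 (l 16775864)) (l 16775024))) (a (a (b (a (c (l 597168227271) (l 609516258231)) (a (b (l 357186929735) (l 16777504)) (l 16777344))) (a (a (b (l 3) (l 176798303015)) (c (l 16777424) (l 16777096))) (l 16776656))) (c (l 16776032) (l 16776024))) (c (l 16774608) (l 16774256))))))), by decide +kernel⟩

def k101_pm_011_s : ∃ t, chk3 f_pm_011_s t 155 120 1 = true :=
  ⟨(b (a (l 3) (b (l 3) (b (l 3) (a (b (l 3) (a (l 3) (a (l 3) (b (l 3) (l 570861552263))))) (a (b (l 3) (b (c (l 540259910391) (l 359334414183)) (a (a (l 247665263655) (l 16777528)) (l 16776984)))) (b (b (l 3) (c (l 496773366375) (l 316384741079))) (c (c (c (l 16777280) (l 16776792)) (l 16776792)) (l 16776792)))))))) (b (b (b (a (l 3) (a (a (b (l 3) (c (a (l 302962967767) (l 16777144)) (l 16777936))) (b (a (a (l 316921611463) (l 192904430519)) (l 16777392)) (l 16776704))) (c (l 16776072) (l 16776064)))) (a (a (l 3) (b (a (l 3) (a (l 539723039271) (a (l 207399945175) (l 16777152)))) (a (c (c (l 450065596855) (l 257865811495)) (l 256792069751))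 (c (l 16776872) (l 16776872))))) (c (c (a (l 16776240) (l 16775064)) (l 16775648)) (l 16775640)))) (a (b (a (b (a (l 3) (a (l 3) (b (l 3) (l 16777584)))) (a (c (l 530059363047) (l 349133866839)) (c (a (l 16777584) (l 16776888)) (l 16777032)))) (c (c (a (l 16777024) (l 16776112)) (l 16776400)) (l 16776400))) (b (a (a (a (b (l 302962967575) (l 16777136)) (l 16776968)) (l 16776520)) (l 16775640)) (c (c (l 16775728) (l 16775720)) (l 16775712)))) (c (c (l 16774456) (l 16774128)) (l 16774112)))) (c (a (b (c (a (l 16775048) (l 16773872)) (l 16774456)) (l 16772440)) (c (l 16771736) (l 16771096))) (a (b (l 16774440) (l 16772408)) (l 16771056))))), by decide +kernel⟩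

def k102_pm_011_s : ∃ t, chk3 f_pm_011_s t 152 242 1 = true :=
  ⟨(a (b (l 3) (a (l 3) (b (l 3) (a (b (l 3) (b (l 3) (b (a (l 3) (a (l 298131129031) (l 16777184))) (a (a (l 348060123911) (l 16777216)) (l 16777008))))) (a (b (l 3) (b (c (b (l 393694151703) (l 16777544)) (l 239075329063)) (l 16776840))) (b (a (l 3) (b (l 3) (l 563882230263))) (b (c (l 16777384) (l 16777064)) (l 16776552)))))))) (b (l 3) (b (a (a (l 3) (b (l 3) (b (l 3) (b (l 3) (c (a (l 3) (l 227801039559)) (l 279340647783)))))) (a (b (l 3) (b (a (l 3) (c (b (l 391546668055) (l 16777544)) (l 239075329047))) (a (a (b (l 298667999927) (l 16777080)) (l 16777384)) (l 16776840)))) (b (b (l 3) (b (c (l 544018006615) (l 379735508343)) (a (l 359334413383) (l 16777472)))) (c (c (c (l 16776984) (l 16776656)) (l 16776656)) (l 16776656))))) (a (b (b (a (a (l 3) (c (l 520932557303) (l 340007060775))) (a (b (a (l 387251700551) (l 16777576)) (l 16777080)) (l 16776912))) (a (c (b (a (l 334638351255) (l 16777112)) (l 16777336)) (l 16777744))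 (l 16776552))) (c (c (l 16776088) (l 16776088)) (l 16776080))) (c (c (b (l 16775936) (l 16774928)) (l 16775432)) (l 16775416)))))), by decide +kernel⟩

def k103_pm_011_s : ∃ t, chk3 f_pm_011_s t 153 242 1 = true :=
  ⟨(b (b (a (l 3) (a (b (l 3) (b (a (l 3) (a (l 3) (b (l 373293057127) (l 16777528)))) (a (a (l 3) (b (l 3) (l 192367559495))) (c (c (l 16777296) (l 16776968)) (l 16776968))))) (b (a (b (l 3) (a (c (l 554755424839) (l 373829928311)) (b (l 291688678407) (l 16777120)))) (b (a (b (l 3) (l 254107714487)) (b (l 214379266935) (l 16777048))) (c (l 16776816) (l 16776808)))) (c (c (a (l 16776968) (l 16776056)) (l 16776344)) (l 16776336))))) (a (b (a (l 3) (b (a (l 3) (a (l 3) (c (l 510732009943) (l 330343384327)))) (a (c (c (l 575693390695) (l 578377745255)) (l 590725776231)) (a (b (a (l 3) (l 279340647079)) (l 16777136)) (l 16777304))))) (b (a (l 3) (a (b (a (l 385641088119) (l 16777504)) (c (l 16777560) (l 16777064))) (l 16776608))) (a (a (l 3) (a (a (l 556902908391) (b (l 3) (l 16777216)))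 (c (c (l 16777448) (l 16777120)) (l 16777120)))) (c (l 16776400) (l 16776392))))) (b (b (a (c (a (a (a (l 170892722983) (l 16777112)) (l 16776896)) (l 16776456)) (l 16777408)) (l 16775744)) (c (c (l 16775832) (l 16775664)) (l 16775648))) (c (c (l 16775232) (l 16774904)) (l 16774888))))) (b (a (b (c (a (a (b (b (l 496236495303) (a (l 294373032775) (l 16777072))) (l 16776840)) (l 16776512)) (l 16775640)) (a (a (a (b (l 337859577111) (l 16776984)) (l 16776944)) (l 16776504)) (l 16775624))) (c (a (l 16775792) (l 16774632)) (l 16775192))) (c (c (l 16773384) (l 16773392)) (l 16773368))) (c (a (c (l 16774104) (l 16773696)) (l 16771368)) (a (l 16773672) (l 16771336))))), by decide +kernel⟩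

def k104_pm_011_s : ∃ t, chk3 f_pm_011_s t 76 243 1 = true :=
  ⟨(b (a (b (a (a (b (b (a (l 3) (a (c (l 522006299127) (l 341080802599)) (b (c (l 262697648919) (l 16777320)) (l 16777080)))) (a (b (c (l 548849844823) (l 381346121095)) (a (a (l 3) (l 346986382087)) (l 16777520))) (c (l 16777088) (l 16776840)))) (b (c (c (a (l 16777288) (l 16776344)) (l 16776632)) (l 16776624)) (c (l 16776128) (l 16776112)))) (b (c (c (c (l 16776232) (l 16776232)) (l 16776232)) (l 16776224)) (c (l 16775224) (l 16775208)))) (c (c (a (l 16774568) (l 16773408)) (l 16773992)) (c (l 16773976) (l 16773960)))) (c (a (c (a (l 16774864) (l 16773704)) (l 16774616)) (l 16772304)) (a (c (l 16774272) (l 16774256)) (l 16771944)))) (a (c (c (l 16771304) (l 16770680)) (l 16771288)) (c (l 16768328) (l 16768304)))) (c (a (a (c (b (l 16772264) (l 16770232)) (l 16771264)) (l 16769512)) (c (l 16765416) (l 16765464))) (a (a (c (l 16771240) (l 16771208)) (l 16768912)) (l 16765440)))), by decide +kernel⟩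

def k105_pm_011_s : ∃ t, chk3 f_pm_011_s t 77 121 1 = true :=
  ⟨(b (a (c (b (a (b (a (c (b (l 16776192) (l 16775176)) (l 16775680)) (l 16774848)) (c (l 16773072) (l 16773080))) (b (l 16773176) (l 16770736))) (c (a (l 16770032) (l 16767672)) (l 16769544))) (b (a (b (c (l 16775088) (l 16775080)) (l 16773048)) (c (l 16771728) (l 16771704))) (c (l 16768864) (l 16768824)))) (c (b (a (l 16770048) (l 16767024)) (l 16764144)) (b (c (l 16768216) (l 16768168)) (l 16764168)))) (c (a (b (l 16765784) (l 16760728)) (b (l 16760056) (l 16755960))) (a (b (l 16764816) (l 16760808)) (l 16758168)))), by decide +kernel⟩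

def k106_pm_011_s : ∃ t, chk3 f_pm_011_s t 156 120 1 = true :=
  ⟨(b (a (b (l 3) (b (b (a (l 3) (a (l 3) (b (c (l 590725776295) (l 396915378183)) (a (a (l 321753449671) (l 197736268727)) (l 16777072))))) (a (a (l 3) (b (l 3) (c (a (l 366313735543) (l 167134626647)) (l 218674234871)))) (a (b (a (a (l 395304764695) (l 268066358359)) (l 33453769559)) (l 16776792)) (l 16776536)))) (a (a (b (b (a (l 3) (a (l 286319969399) (l 162839659367))) (c (l 16776960) (l 16776960))) (l 16776200)) (c (c (l 16776448) (l 16776112)) (l 16776112))) (c (c (l 16775232) (l 16775224)) (l 16775216))))) (b (b (l 3) (b (a (l 3) (a (b (l 3) (a (l 601463194327) (a (l 283098743927) (l 16777568)))) (b (a (l 351281350167) (a (l 211158041559) (l 16777160))) (l 16777200)))) (a (b (a (l 3) (c (l 496773366375) (l 305647322919))) (a (c (l 539186168583) (l 358260672375)) (c (l 16777696) (l 16777048)))) (c (c (l 16776736) (l 16776408)) (l 16776400))))) (c (b (a (b (a (a (b (l 194515043239) (l 16776768)) (l 16776728)) (l 16776280))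 (l 16775560)) (l 16774880)) (c (l 16773448) (l 16773448))) (b (a (c (l 16776072) (l 16776064)) (l 16774872)) (l 16773424))))) (c (b (a (c (b (l 16773792) (l 16771760)) (l 16773432)) (c (l 16770392) (l 16770416))) (c (l 16768816) (l 16767552))) (b (a (c (l 16772760) (l 16772744)) (l 16770376)) (l 16768168)))), by decide +kernel⟩

def k107_pm_011_s : ∃ t, chk3 f_pm_011_s t 157 120 1 = true :=
  ⟨(b (a (b (b (a (b (a (l 3) (b (l 3) (l 586967679879))) (a (b (l 3) (a (a (l 384567346439) (l 262697649223)) (l 16777472))) (b (a (a (l 314774127799) (l 16777680)) (l 16777056)) (l 16776696)))) (a (b (b (c (l 532743717623) (l 351818221415)) (a (l 176798303287) (l 16776968))) (l 16776352)) (c (c (b (l 16777432) (l 16775760)) (l 16776264)) (l 16776264)))) (c (c (a (l 16775728) (l 16774536)) (l 16775128)) (l 16775112))) (c (b (l 16773760) (l 16771072)) (l 16772712))) (b (c (b (c (a (l 16775376) (l 16774176)) (l 16774768)) (l 16772744)) (b (l 16774760) (l 16772720))) (c (l 16770344) (l 16769664)))) (c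 (b (c (l 16766784) (l 16766840)) (l 16762720)) (b (l 16766808) (l 16762784)))), by decide +kernel⟩

def k108_pm_011_s : ∃ t, chk3 f_pm_011_s t 79 120 1 = true :=
  ⟨(b (a (c (a (b (c (l 16771344) (l 16771360)) (l 16767280)) (b (l 16768944) (l 16764848))) (b (c (l 16770144) (l 16770120)) (l 16766080))) (c (b (l 16766600) (l 16761176)) (b (l 16765320) (l 16761296)))) (c (a (b (l 16761968) (l 16757856)) (l 16754992)) (a (l 16760048) (l 16755312)))), by decide +kernel⟩

def k109_pm_011_s : ∃ t, chk3 f_pm_011_s t 39 121 1 = true :=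
  ⟨(a (c (b (a (b (l 16763448) (l 16759352)) (l 16756568)) (a (l 16753200) (l 16748328))) (b (a (b (l 16763488) (l 16759488)) (l 16756792)) (l 16752400))) (c (b (a (l 16751672) (l 16746712)) (l 16740904)) (b (l 16749592) (l 16741416)))), by decide +kernel⟩

def k110_pm_011_s : ∃ t, chk3 f_pm_011_s t 19 61 1 = true :=
  ⟨(a (b (a (b (c (a (b (c (l 16766024) (l 16766064)) (l 16761984)) (b (l 16761368) (l 16757288))) (a (b (l 16766696) (l 16762032)) (l 16760752))) (c (a (l 16755872) (l 16751160)) (a (l 16756040) (l 16751400)))) (c (b (a (l 16754592) (l 16749808)) (l 16744000)) (b (a (l 16754824) (l 16750104)) (l 16744344)))) (a (c (b (l 16747992) (l 16737240)) (b (l 16745640) (l 16737552))) (c (b (l 16735792) (l 16727592)) (l 16732144)))) (b (c (a (b (l 16742512) (l 16734248)) (l 16733000)) (a (b (l 16742936) (l 16734768)) (l 16729104))) (c (a (l 16721856) (l 16711768)) (a (l 16722504) (l 16712656))))), by decide +kernel⟩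

def k111_pm_011_s : ∃ t, chk3 f_pm_011_s t 9 31 1 = true :=
  ⟨(a (b (a (b (a (b (a (c (b (a (b (c (l 16772040) (l 16772056)) (l 16770016)) (b (l 16769824) (l 16767800))) (a (l 16766968) (l 16764744))) (b (a (b (l 16772056) (l 16770040)) (l 16768832)) (l 16766232))) (c (b (a (l 16766584) (l 16764352)) (l 16761408)) (b (l 16765504) (l 16761480)))) (a (b (a (l 16762936) (l 16760720)) (l 16757760)) (b (l 16757384) (l 16753320)))) (b (c (a (b (l 16761000) (l 16756936)) (l 16754480)) (a (l 16759040) (l 16754584))) (c (a (l 16750824) (l 16746336)) (l 16748736)))) (a (b (c (a (l 16751584) (l 16747128)) (l 16749504)) (c (l 16741152) (l 16741328))) (b (c (l 16740408) (l 16740592)) (l 16732312)))) (b (b (a (c (a (l 16749976) (l 16745440)) (l 16747864)) (c (l 16738520) (l 16738752))) (a (c (l 16739568) (l 16739752)) (l 16730504))) (a (c (l 16729920) (l 16727528)) (c (l 16718120) (l 16718408))))) (a (b (a (b (l 16733016) (l 16724768)) (b (l 16724088) (l 16715832))) (a (b (l 16716472) (l 16708144))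 (b (l 16707544) (l 16699216)))) (b (a (c (l 16710840) (l 16711104)) (l 16701816)) (a (l 16694384) (l 16685240))))) (b (a (b (a (c (l 16725016) (l 16725376)) (c (l 16715328) (l 16715864))) (c (a (l 16708656) (l 16698928)) (l 16709560))) (b (c (l 16706848) (l 16701192)) (c (l 16683832) (l 16684784)))) (a (b (a (l 16692424) (l 16682752)) (c (l 16670840) (l 16671328))) (b (c (l 16667280) (l 16668272)) (l 16661656))))), by decide +kernel⟩

def k112_pm_011_s : ∃ t, chk3 f_pm_011_s t 10 28 1 = true :=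
  ⟨(a (l 3) (b (l 3) (a (b (l 3) (a (l 3) (b (l 3) (a (b (l 3) (b (l 3) (a (l 3) (a (l 615421836743) (b (l 214379269783) (l 16776520)))))) (b (a (c (l 737828404775) (l 766282559815)) (a (b (l 3) (b (l 270213845047) (l 16776768))) (b (l 549923585367) (l 16775952)))) (b (a (a (b (l 768430046519) (l 152639114391)) (l 16778472)) (l 16774496)) (c (l 16773696) (l 16773720)))))))) (b (a (a (l 3) (a (l 3) (b (l 3) (c (l 718501049031) (l 714742948407))))) (b (a (l 3) (b (l 3) (a (l 727627853879) (b (l 564955969847) (c (l 16776256) (l 16776264)))))) (a (a (b (l 3) (b (c (l 483351592311) (l 227264174567)) (c (l 16775912) (l 16775912)))) (b (a (l 679309473239) (b (l 760913852183) (l 16776776))) (l 16775232))) (b (a (a (b (l 185388241431) (l 16775408)) (l 16775104)) (l 16773048)) (l 16772120))))) (a (b (a (b (l 3) (b (a (l 3) (a (l 619179932663) (a (l 106468216263) (l 16776632)))) (a (a (l 772725013127) (a (l 260013298087) (l 87677734055))) (l 16776816)))) (b (a (b (l 732459693991) (a (a (l 620253674631)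 (l 174113951223)) (l 16776392))) (a (a (b (l 193441304247) (l 16775376)) (l 16777408)) (l 16774744))) (c (l 16773160) (l 16772528)))) (b (a (a (c (b (c (l 16776064) (l 16776072)) (l 16773928)) (l 16775016)) (l 16772312)) (l 16770232)) (c (a (l 16769384) (l 16763992)) (l 16769384)))) (b (a (c (b (l 16771336) (l 16767064)) (l 16769240)) (c (l 16763736) (l 16763816))) (c (a (l 16760688) (l 16755248)) (l 16758104)))))))), by decide +kernel⟩

def k113_pm_011_s : ∃ t, chk3 f_pm_011_s t 40 58 1 = true :=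
  ⟨(l 3), by decide +kernel⟩

def k114_pm_011_s : ∃ t, chk3 f_pm_011_s t 41 116 1 = true :=
  ⟨(a (l 3) (b (l 3) (a (l 3) (b (l 3) (a (c (b (l 3) (a (l 3) (l 581062100455))) (l 734070308343)) (a (b (l 3) (b (a (l 3) (l 203104979527)) (l 16778016))) (b (c (c (l 480667239463) (l 509658268167)) (l 542407393015)) (l 16776744)))))))), by decide +kernel⟩

def k115_pm_011_s : ∃ t, chk3 f_pm_011_s t 82 117 1 = true :=
  ⟨(b (a (l 3) (b (l 3) (b (l 3) (b (l 3) (a (l 3) (a (l 3) (a (a (l 371682446087) (l 247128393975)) (l 16777024)))))))) (a (a (b (l 3) (b (l 3) (b (c (a (l 3) (c (l 433422598983) (l 240149073111))) (l 531133105255)) (a (a (l 3) (a (l 351818222103) (l 225653557207))) (a (l 16778256) (l 16776312)))))) (c (b (b (l 3) (a (l 3) (c (l 591262649207) (l 595557616455)))) (b (b (a (l 3) (a (l 241222814119) (l 16776904))) (a (a (l 321753451271) (l 16777128)) (l 16776168))) (c (l 16775240) (l 16775240)))) (b (l 697026217047) (b (a (l 482814722711) (l 16778016)) (l 16775248))))) (b (a (a (b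 (l 3) (b (c (l 517711332855) (l 327122161719)) (c (c (l 14663288871) (l 16776992)) (l 16776992)))) (c (b (b (l 3) (l 462413628487)) (c (l 16777544) (l 16776240))) (b (l 577840874087) (l 16776240)))) (a (b (b (a (l 575693390647) (l 144586049831)) (l 16777512)) (l 16774952)) (c (l 16775040) (l 16774720)))) (c (a (c (l 16773728) (l 16773736)) (l 16771184)) (a (l 16773744) (l 16771200)))))), by decide +kernel⟩

def k116_pm_011_s : ∃ t, chk3 f_pm_011_s t 83 117 1 = true :=
  ⟨(b (a (a (b (l 3) (b (b (c (a (l 3) (l 501605205079)) (l 642265383191)) (a (l 600926323607) (a (l 16778336) (l 16776544)))) (a (a (b (l 199346883191) (l 16776376)) (l 16776912)) (l 16775288)))) (b (b (l 3) (a (a (l 668035187719) (b (l 3) (l 176798304775))) (b (a (l 314774129767) (l 16778424)) (l 16776384)))) (c (b (c (l 16775440) (l 16775448)) (l 16773344)) (l 16774408)))) (b (a (b (a (b (l 649781576279) (a (l 231022267127) (l 16776872))) (c (c (l 16777736) (l 16776424)) (l 16776432))) (c (l 16774952) (l 16774968))) (c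 (l 16773640) (l 16773424))) (c (c (l 16771792) (l 16770504)) (l 16770536)))) (a (c (b (a (c (l 16772776) (l 16772792)) (l 16770208)) (l 16768616)) (b (l 16771848) (l 16767384))) (c (c (l 16765432) (l 16764280)) (l 16764328)))), by decide +kernel⟩

def k117_pm_011_s : ∃ t, chk3 f_pm_011_s t 80 118 1 = true :=
  ⟨(b (l 3) (a (b (l 3) (b (l 3) (b (l 3) (a (l 3) (a (l 3) (a (c (l 531669976167) (l 342154546007)) (a (b (l 385104217799) (l 16777112)) (l 5536482695)))))))) (b (b (l 3) (a (l 3) (a (a (l 3) (b (l 3) (b (l 3) (l 214916138727)))) (b (a (l 3) (b (l 370608703783) (l 16777824))) (c (c (l 16777688) (l 16776712)) (l 16776712)))))) (b (a (a (l 3) (b (c (c (l 555829167799) (l 557439780519)) (l 573009036935)) (a (b (l 371145574679) (l 16777824)) (l 16777632)))) (b (a (a (b (l 262697650087) (l 16776968)) (l 16776600)) (l 16775672)) (c (l 16775264) (l 16775256)))) (a (b (a (a (c (l 464024240887) (l 273971939815)) (b (l 163376530967) (l 16776752))) (l 16776088)) (a (a (l 16776600) (l 16775976))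 (l 16775056))) (c (l 16773720) (l 16773712))))))), by decide +kernel⟩

def k118_pm_011_s : ∃ t, chk3 f_pm_011_s t 81 118 1 = true :=
  ⟨(a (b (b (l 3) (a (l 3) (b (a (l 3) (a (l 3) (b (l 3) (b (l 3) (l 211158042327))))) (a (b (c (l 550997329591) (l 569787811479)) (a (b (l 372219316503) (l 16777168)) (l 16776808))) (a (b (b (l 261623908247) (l 16776960)) (l 16776176)) (l 16776400)))))) (b (a (b (b (a (l 3) (c (a (l 465097982727) (l 16777664)) (l 158007823047))) (a (a (l 531669976183) (b (l 264308262823) (l 16776968))) (l 16776616))) (a (a (b (l 16777464) (l 16775776)) (l 16775672)) (l 16775392))) (c (c (b (l 16774936) (l 16772872)) (l 16773904)) (l 16773904))) (c (c (a (l 16772264) (l 16769760)) (l 16772352)) (c (l 16771032) (l 16771024))))) (b (b (b (a (l 3) (b (c (a (l 3) (l 539186169463)) (l 617569322887)) (c (a (l 594483873799) (a (l 200420624439) (l 16776760))) (a (l 646560351703) (l 16777072))))) (b (a (l 3) (a (a (a (l 361481898583) (l 238001588231)) (l 16777960)) (l 16776032)))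 (a (a (l 3) (a (l 521469428823) (a (l 198810011479) (l 16777040)))) (c (l 16775616) (l 16775624))))) (a (b (a (b (a (l 597168227799) (a (l 277193165111) (l 159081563815))) (c (l 16777672) (l 16776688))) (c (l 16776608) (l 16775952))) (c (l 16774504) (l 16774504))) (c (b (l 16774064) (l 16772000)) (l 16773032)))) (b (c (a (l 16772072) (l 16768896)) (l 16771472)) (a (l 16768632) (l 16764848))))), by decide +kernel⟩

def k119_pm_011_s : ∃ t, chk3 f_pm_011_s t 40 119 1 = true :=
  ⟨(a (b (a (b (b (b (a (l 3) (a (a (l 599852582327) (b (l 544554877751) (l 16777888))) (c (l 16777144) (l 16776488)))) (a (a (l 3) (a (l 3) (c (l 459729273543) (l 267529488839)))) (c (a (c (c (l 16777504) (l 16776688)) (l 16776696)) (l 16775464)) (l 16776728)))) (a (b (a (a (l 3) (c (l 525227525175) (l 335175224103))) (a (b (a (l 385104217751) (l 16777288)) (l 16776936)) (l 16776576))) (a (b (a (l 534354330375) (l 16777032)) (c (l 16777480) (l 16776824))) (l 16775856))) (c (c (l 16774536) (l 16774536)) (l 16774528))))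 (c (a (c (b (l 16774936) (l 16772880)) (l 16773904)) (c (l 16771456) (l 16771464))) (a (c (l 16773904) (l 16773896)) (l 16771448)))) (c (b (a (b (l 16774128) (l 16772088)) (l 16770648)) (c (l 16767728) (l 16767800))) (b (a (l 16773096) (l 16770632)) (l 16767776)))) (c (a (b (c (l 16769872) (l 16768624)) (l 16764480)) (b (l 16763640) (l 16759496))) (a (b (l 16768592) (l 16764536)) (l 16763016)))) (b (c (a (b (l 16768216) (l 16762760)) (l 16761728)) (a (b (l 16766936) (l 16762880)) (l 16759992))) (c (a (l 16759152) (l 16751408)) (a (l 16756856) (l 16751904))))), by decide +kernel⟩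

def k120_pm_011_s : ∃ t, chk3 f_pm_011_s t 41 59 1 = true :=
  ⟨(b (a (b (a (c (b (a (b (c (a (b (l 16778160) (l 16775808)) (l 16775056)) (l 16777008)) (l 16773616)) (l 16772776)) (c (l 16770520) (l 16769264))) (b (a (b (l 16777008) (l 16773616)) (l 16772128)) (l 16769264))) (c (c (b (l 16768248) (l 16764040)) (l 16767568)) (b (l 16768336) (l 16764240)))) (c (a (c (l 16764232) (l 16763056)) (l 16757808)) (a (l 16763136) (l 16758160)))) (c (b (a (c (l 16760896) (l 16761080)) (l 16755720)) (a (l 16752544) (l 16747224))) (b (a (l 16761248) (l 16756192)) (l 16750552)))) (a (c (b (a (l 16754616) (l 16749384)) (l 16748824)) (b (l 16752552) (l 16744304))) (c (b (l 16741392) (l 16732864)) (b (l 16742256) (l 16733936))))), by decide +kernel⟩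

def k121_pm_011_s : ∃ t, chk3 f_pm_011_s t 21 58 1 = true :=
  ⟨(a (b (a (b (a (l 3) (b (a (l 3) (c (b (l 3) (a (l 3) (l 531669975287))) (l 703468664631))) (a (a (b (l 3) (a (l 599852580807) (b (l 727627857847) (l 16776976)))) (b (l 678235733783) (b (l 45264931559) (l 16775984)))) (b (a (b (a (l 3) (l 16778488)) (l 16776792)) (l 16775992)) (l 16774536))))) (a (b (b (a (l 3) (a (c (l 566566585095) (l 635822931367)) (a (b (l 341080804743) (l 16776832)) (l 16778344)))) (a (a (l 705079279959) (b (l 598778839175) (a (l 16778536) (l 16776688)))) (c (c (l 16775560) (l 16775568)) (l 16775576)))) (a (b (a (a (b (l 254107716423) (l 16776536)) (l 16776408)) (l 16775424)) (l 16774208)) (c (l 16772384) (l 16772416)))) (c (b (a (l 16773984) (l 16771336)) (l 16768424)) (b (l 16772696) (l 16768488))))) (a (b (a (b (b (a (l 761450724743) (b (l 660518993543) (l 16778368))) (a (b (l 157470952615) (l 16776256)) (l 16775464))) (c (l 16772928) (l 16772960))) (b (c (b (l 16775584) (l 16773456)) (l 16774536))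 (l 16770288))) (c (c (l 16767840) (l 16765264)) (l 16765328))) (b (c (b (l 16771816) (l 16766264)) (l 16769096)) (c (l 16759928) (l 16760056))))) (a (b (a (c (c (b (l 16769448) (l 16765240)) (l 16768688)) (b (l 16769520) (l 16765344))) (c (l 16764728) (l 16762216))) (c (a (l 16758984) (l 16753760)) (a (l 16759176) (l 16753992)))) (c (b (a (l 16756840) (l 16751552)) (l 16745872)) (b (l 16754376) (l 16746200))))) (b (a (c (b (a (l 16763016) (l 16757640)) (l 16757160)) (b (l 16763080) (l 16752112))) (c (b (l 16749536) (l 16741168)) (l 16750832))) (a (c (b (l 16743584) (l 16735288)) (l 16739784)) (c (l 16728816) (l 16729224))))), by decide +kernel⟩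

def k122_pm_011_s : ∃ t, chk3 f_pm_011_s t 21 59 1 = true :=
  ⟨(a (b (b (a (c (l 16750472) (l 16748528)) (l 16741720)) (a (c (l 16739288) (l 16740224)) (l 16729280))) (c (a (l 16731616) (l 16715752)) (a (l 16727656) (l 16717232)))) (b (c (a (l 16722488) (l 16711856)) (l 16723600)) (c (l 16710304) (l 16701456)))), by decide +kernel⟩

def k123_pm_011_s : ∃ t, chk3 f_pm_011_s t 22 28 1 = true :=
  ⟨(b (a (b (l 3) (a (b (l 3) (a (c (l 755545137191) (l 746418326343)) (b (c (l 663740215031) (l 669108921591)) (b (a (l 627232994919) (l 16775920)) (a (a (l 16778504) (l 16775856)) (l 16773776)))))) (b (a (a (l 743733980455) (b (l 3) (a (l 560661001879) (b (l 287393716263) (l 16776080))))) (b (a (l 627232993367) (a (b (l 305647327351) (l 16776168)) (l 16775840))) (c (l 16776272) (l 16773656)))) (a (b (a (a (b (l 270750717767) (l 16775976)) (l 16775656)) (l 16773560)) (l 16770672)) (c (l 16767216) (l 16767232)))))) (b (a (b (a (l 3) (c (c (l 646023472199) (l 646023470727)) (l 643875984855))) (a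 (a (c (b (l 3) (l 429664500455)) (l 623474894135)) (b (l 644949732887) (c (l 16775208) (l 16775200)))) (b (b (c (a (l 189146339815) (l 16774920)) (l 46875548583)) (l 16774184)) (l 16770968)))) (a (b (b (a (l 646560345175) (b (l 212768660535) (l 16775672))) (c (l 16776504) (l 16773864))) (c (l 16767456) (l 16767424))) (b (c (l 16770336) (l 16770296)) (l 16761744)))) (a (b (a (c (l 16771488) (l 16770176)) (l 16769784)) (c (l 16764048) (l 16758832))) (b (c (l 16756056) (l 16756040)) (l 16758024))))) (a (b (b (a (a (b (a (c (l 556366033831) (l 594483868535)) (a (b (l 237464720471) (l 16775720)) (l 16775408))) (c (l 16774504) (l 16773208))) (c (b (l 16771944) (l 16767656)) (l 16769824))) (a (l 16766888) (l 16758704))) (a (a (c (l 16766768) (l 16766824)) (l 16761288)) (c (l 16752936) (l 16753056)))) (a (b (a (l 16758312) (l 16752824)) (l 16752400)) (c (l 16745472) (l 16740488)))) (a (b (c (l 16751256) (l 16746144)) (l 16734536)) (b (c (l 16734760) (l 16734944)) (l 16718128))))), by decide +kernel⟩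

def k124_pm_011_s : ∃ t, chk3 f_pm_011_s t 23 28 1 = true :=
  ⟨(b (a (a (b (b (c (l 16761776) (l 16761672)) (l 16753176)) (l 16748264)) (b (a (l 16759304) (l 16743040)) (l 16728944))) (b (l 16744264) (l 16732576))) (a (b (a (l 16723528) (l 16712120)) (l 16722192)) (a (l 16713272) (l 16680744)))), by decide +kernel⟩

def k125_pm_011_s : ∃ t, chk3 f_pm_011_s t 11 29 1 = true :=
  ⟨(a (b (a (b (a (c (l 16734472) (l 16734832)) (l 16734240)) (c (l 16723104) (l 16713248))) (b (c (l 16706896) (l 16707608)) (c (l 16690656) (l 16691648)))) (a (b (c (l 16695840) (l 16697064)) (c (l 16678696) (l 16680240))) (c (l 16686952) (l 16667024)))) (a (b (c (l 16697208) (l 16677400)) (l 16665912)) (b (l 16675072) (l 16623384)))), by decide +kernel⟩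

def k126_pm_011_s : ∃ t, chk3 f_pm_011_s t 5 15 1 = true :=
  ⟨(a (b (a (b (a (b (a (c (b (a (b (l 16760352) (l 16756224)) (l 16753272)) (l 16750104)) (b (a (l 16758512) (l 16753672)) (l 16747960))) (c (b (l 16748232) (l 16737216)) (b (l 16746200) (l 16737968)))) (c (a (b (l 16739136) (l 16730768)) (l 16729816)) (a (l 16738272) (l 16725560)))) (b (c (a (b (l 16735128) (l 16726648)) (l 16720040)) (a (l 16731880) (l 16721416))) (c (a (l 16713888) (l 16702880)) (a (l 16715232) (l 16704648))))) (a (b (c (a (l 16718176) (l 16707656)) (a (l 16719144) (l 16708944))) (c (l 16706600) (l 16697480))) (b (c (l 16701736) (l 16693168)) (c (l 16674144) (l 16676384))))) (b (a (b (c (a (l 16709112) (l 16698312)) (l 16716040)) (c (l 16696776) (l 16688616))) (b (c (l 16682392) (l 16684472)) (c (l 16664776) (l 16667352)))) (a (c (b (l 16668880) (l 16620048)) (b (l 16671624) (l 16654648))) (c (l 16659200) (l 16641552))))) (a (b (a (b (c (l 16679336) (l 16680896)) (c (l 16662608) (l 16664304))) (b (a (l 16663872)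 (l 16652712)) (l 16651920))) (a (b (l 16657224) (l 16630104)) (b (l 16624592) (l 16607752)))) (b (a (b (l 16656832) (l 16618784)) (a (l 16610608) (l 16599624))) (a (b (l 16601744) (l 16584728)) (a (l 16523800) (l 16523104)))))) (b (a (b (a (b (l 16683232) (l 16644824)) (c (l 16631672) (l 16633232))) (c (a (l 16617112) (l 16596456)) (a (l 16620208) (l 16598816)))) (b (a (l 16611216) (l 16590088)) (a (l 16576912) (l 16556280)))) (a (b (a (a (l 16588784) (l 16578128)) (l 16562496)) (a (l 16569528) (b (l 16515056) (l 16518456)))) (b (a (l 16541952) (l 16500976)) (l 16538752))))), by decide +kernel⟩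

def k127_pm_011_s : ∃ t, chk3 f_pm_011_s t 3 6 1 = true :=
  ⟨(a (b (a (b (l 3) (a (l 3) (b (l 3) (a (l 3) (b (l 3) (a (l 636896661847) (b (l 563345345367) (a (l 295983604519) (l 16771552))))))))) (b (l 1) (a (b (l 1) (a (b (l 1) (a (l 107407709495) (l 1))) (l 1))) (l 1)))) (a (b (a (b (l 3) (a (b (l 3) (a (l 3) (b (l 3) (a (l 636359788567) (b (l 525227519207) (l 16774976)))))) (b (a (b (l 3) (l 625622375975)) (b (a (l 3) (b (l 604684410967) (l 16781904))) (a (b (l 204178731207) (l 16773968)) (l 16770112)))) (a (b (a (l 477982875431) (l 295446748551)) (l 16768184)) (l 16766392))))) (b (a (b (a (l 3) (b (l 3) (l 574619634263))) (a (b (l 630991072183) (a (l 556902899223) (l 293299260023))) (b (a (l 291151766759) (l 16771080)) (l 16765832)))) (b (a (b (a (l 571398412023) (l 283635582023)) (l 16765024)) (l 16762200)) (a (l 16768384) (l 16745728)))) (a (b (a (b (a (l 16772480) (l 16766528)) (l 16761168)) (l 16753392)) (l 16763592)) (b (l 16756296) (l 16718600))))) (b (a (a (b (a (a (b (l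 3) (b (l 600926315799) (l 60834193223))) (b (l 563345350823) (l 16771992))) (b (a (c (b (l 123111220231) (l 16772464)) (l 16781096)) (l 16768640)) (l 16763120))) (a (b (l 16766440) (l 16757904)) (l 16750336))) (b (a (l 16765968) (l 16743576)) (l 16753488))) (a (a (l 16744088) (l 16711168)) (l 16693208))) (b (a (a (b (l 16764432) (l 16734912)) (l 16715456)) (l 16721584)) (a (a (l 16743080) (l 16698400)) (l 16683568))))) (b (a (b (a (b (l 16764672) (l 16727288)) (l 16731488)) (a (l 16723552) (l 16677768))) (b (l 1) (l 16660688))) (a (b (l 16698696) (l 16643920)) (b (l 16606808) (l 16573568)))))) (b (l 1) (a (b (l 1) (a (l 16601416) (l 1))) (l 1)))), by decide +kernel⟩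

def k128_pm_011_s : ∃ t, chk3 f_pm_011_s t 3 7 1 = true :=
  ⟨(a (b (a (b (a (a (b (a (l 16702480) (l 16690712)) (l 16684232)) (b (l 16672952) (l 16639656))) (b (a (l 16649088) (l 16625160)) (l 16624872))) (a (b (a (l 16630976) (l 16607472)) (a (l 16601048) (l 16577632))) (b (l 16571760) (l 16562928)))) (a (b (b (l 16589200) (l 16556000)) (b (l 16523944) (l 16494168))) (b (l 16565768) (l 16481920)))) (a (b (a (b (l 16579608) (l 16525704)) (b (l 16515224) (l 16485264))) (a (b (l 16492240) (l 16458232)) (l 16499832))) (a (b (a (l 16466840) (l 16442984)) (l 16397016)) (b (l 16407256) (l 16354192))))) (b (a (b (a (l 16473760) (l 16421136)) (a (l 16412224) (l 16361872))) (b (l 1) (l 16403096))) (a (b (a (l 16359432) (l 16310840)) (l 16431152)) (b (l 16289880) (l 16263496))))), by decide +kernel⟩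

theorem s129_pm_011_s : ∃ t, chk3 f_pm_011_s t 3 3 1 = true := ex3_b k127_pm_011_s k128_pm_011_s

theorem s130_pm_011_s : ∃ t, chk3 f_pm_011_s t 11 28 1 = true := ex3_a k123_pm_011_s k124_pm_011_s

theorem s131_pm_011_s : ∃ t, chk3 f_pm_011_s t 11 14 1 = true := ex3_b s130_pm_011_s k125_pm_011_s

theorem s132_pm_011_s : ∃ t, chk3 f_pm_011_s t 21 29 1 = true := ex3_b k121_pm_011_s k122_pm_011_s

theorem s133_pm_011_s : ∃ t, chk3 f_pm_011_s t 40 118 1 = true := ex3_a k117_pm_011_s k118_pm_011_s

theorem s134_pm_011_s : ∃ t, chk3 f_pm_011_s t 40 59 1 = true := ex3_b s133_pm_011_s k119_pm_011_s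

theorem s135_pm_011_s : ∃ t, chk3 f_pm_011_s t 20 59 1 = true := ex3_a s134_pm_011_s k120_pm_011_s

theorem s136_pm_011_s : ∃ t, chk3 f_pm_011_s t 41 117 1 = true := ex3_a k115_pm_011_s k116_pm_011_s

theorem s137_pm_011_s : ∃ t, chk3 f_pm_011_s t 41 58 1 = true := ex3_b k114_pm_011_s s136_pm_011_s

theorem s138_pm_011_s : ∃ t, chk3 f_pm_011_s t 20 58 1 = true := ex3_a k113_pm_011_s s137_pm_011_s

theorem s139_pm_011_s : ∃ t, chk3 f_pm_011_s t 20 29 1 = true := ex3_b s138_pm_011_s s135_pm_011_s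

theorem s140_pm_011_s : ∃ t, chk3 f_pm_011_s t 10 29 1 = true := ex3_a s139_pm_011_s s132_pm_011_s

theorem s141_pm_011_s : ∃ t, chk3 f_pm_011_s t 10 14 1 = true := ex3_b k112_pm_011_s s140_pm_011_s

theorem s142_pm_011_s : ∃ t, chk3 f_pm_011_s t 5 14 1 = true := ex3_a s141_pm_011_s s131_pm_011_s

theorem s143_pm_011_s : ∃ t, chk3 f_pm_011_s t 5 7 1 = true := ex3_b s142_pm_011_s k126_pm_011_s

theorem s144_pm_011_s : ∃ t, chk3 f_pm_011_s t 78 120 1 = true := ex3_a k106_pm_011_s k107_pm_011_s

theorem s145_pm_011_s : ∃ t, chk3 f_pm_011_s t 39 120 1 = true := ex3_a s144_pm_011_s k108_pm_011_s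

theorem s146_pm_011_s : ∃ t, chk3 f_pm_011_s t 39 60 1 = true := ex3_b s145_pm_011_s k109_pm_011_s

theorem s147_pm_011_s : ∃ t, chk3 f_pm_011_s t 76 242 1 = true := ex3_a k102_pm_011_s k103_pm_011_s

theorem s148_pm_011_s : ∃ t, chk3 f_pm_011_s t 76 121 1 = true := ex3_b s147_pm_011_s k104_pm_011_s

theorem s149_pm_011_s : ∃ t, chk3 f_pm_011_s t 38 121 1 = true := ex3_a s148_pm_011_s k105_pm_011_s

theorem s150_pm_011_s : ∃ t, chk3 f_pm_011_s t 77 120 1 = true := ex3_a k100_pm_011_s k101_pm_011_s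

theorem s151_pm_011_s : ∃ t, chk3 f_pm_011_s t 38 120 1 = true := ex3_a k99_pm_011_s s150_pm_011_s

theorem s152_pm_011_s : ∃ t, chk3 f_pm_011_s t 38 60 1 = true := ex3_b s151_pm_011_s s149_pm_011_s

theorem s153_pm_011_s : ∃ t, chk3 f_pm_011_s t 19 60 1 = true := ex3_a s152_pm_011_s s146_pm_011_s

theorem s154_pm_011_s : ∃ t, chk3 f_pm_011_s t 19 30 1 = true := ex3_b s153_pm_011_s k110_pm_011_s

theorem s155_pm_011_s : ∃ t, chk3 f_pm_011_s t 75 122 1 = true := ex3_b k96_pm_011_s k97_pm_011_s

theorem s156_pm_011_s : ∃ t, chk3 f_pm_011_s t 149 122 1 = true := ex3_a k94_pm_011_s k95_pm_011_s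

theorem s157_pm_011_s : ∃ t, chk3 f_pm_011_s t 148 245 1 = true := ex3_b k92_pm_011_s k93_pm_011_s

theorem s158_pm_011_s : ∃ t, chk3 f_pm_011_s t 148 122 1 = true := ex3_b k91_pm_011_s s157_pm_011_s

theorem s159_pm_011_s : ∃ t, chk3 f_pm_011_s t 74 122 1 = true := ex3_a s158_pm_011_s s156_pm_011_s

theorem s160_pm_011_s : ∃ t, chk3 f_pm_011_s t 37 122 1 = true := ex3_a s159_pm_011_s s155_pm_011_s

theorem s161_pm_011_s : ∃ t, chk3 f_pm_011_s t 37 61 1 = true := ex3_b s160_pm_011_s k98_pm_011_s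

theorem s162_pm_011_s : ∃ t, chk3 f_pm_011_s t 146 492 1 = true := ex3_b k86_pm_011_s k87_pm_011_s

theorem s163_pm_011_s : ∃ t, chk3 f_pm_011_s t 146 246 1 = true := ex3_b s162_pm_011_s k88_pm_011_s

theorem s164_pm_011_s : ∃ t, chk3 f_pm_011_s t 73 246 1 = true := ex3_a s163_pm_011_s k89_pm_011_s

theorem s165_pm_011_s : ∃ t, chk3 f_pm_011_s t 73 123 1 = true := ex3_b s164_pm_011_s k90_pm_011_s

theorem s166_pm_011_s : ∃ t, chk3 f_pm_011_s t 72 494 1 = true := ex3_b k83_pm_011_s k84_pm_011_s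

theorem s167_pm_011_s : ∃ t, chk3 f_pm_011_s t 72 247 1 = true := ex3_b s166_pm_011_s k85_pm_011_s

theorem s168_pm_011_s : ∃ t, chk3 f_pm_011_s t 145 493 1 = true := ex3_b k81_pm_011_s k82_pm_011_s

theorem s169_pm_011_s : ∃ t, chk3 f_pm_011_s t 145 246 1 = true := ex3_b k80_pm_011_s s168_pm_011_s

theorem s170_pm_011_s : ∃ t, chk3 f_pm_011_s t 72 246 1 = true := ex3_a k79_pm_011_s s169_pm_011_s

theorem s171_pm_011_s : ∃ t, chk3 f_pm_011_s t 72 123 1 = true := ex3_b s170_pm_011_s s167_pm_011_s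

theorem s172_pm_011_s : ∃ t, chk3 f_pm_011_s t 36 123 1 = true := ex3_a s171_pm_011_s s165_pm_011_s

theorem s173_pm_011_s : ∃ t, chk3 f_pm_011_s t 73 491 1 = true := ex3_b k77_pm_011_s k78_pm_011_s

theorem s174_pm_011_s : ∃ t, chk3 f_pm_011_s t 73 245 1 = true := ex3_b k76_pm_011_s s173_pm_011_s

theorem s175_pm_011_s : ∃ t, chk3 f_pm_011_s t 73 122 1 = true := ex3_b k75_pm_011_s s174_pm_011_s

theorem s176_pm_011_s : ∃ t, chk3 f_pm_011_s t 36 122 1 = true := ex3_a k74_pm_011_s s175_pm_011_s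

theorem s177_pm_011_s : ∃ t, chk3 f_pm_011_s t 36 61 1 = true := ex3_b s176_pm_011_s s172_pm_011_s

theorem s178_pm_011_s : ∃ t, chk3 f_pm_011_s t 18 61 1 = true := ex3_a s177_pm_011_s s161_pm_011_s

theorem s179_pm_011_s : ∃ t, chk3 f_pm_011_s t 75 487 1 = true := ex3_b k72_pm_011_s k73_pm_011_s

theorem s180_pm_011_s : ∃ t, chk3 f_pm_011_s t 75 243 1 = true := ex3_b k71_pm_011_s s179_pm_011_s

theorem s181_pm_011_s : ∃ t, chk3 f_pm_011_s t 75 121 1 = true := ex3_b k70_pm_011_s s180_pm_011_s

theorem s182_pm_011_s : ∃ t, chk3 f_pm_011_s t 37 121 1 = true := ex3_a k69_pm_011_s s181_pm_011_s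

theorem s183_pm_011_s : ∃ t, chk3 f_pm_011_s t 37 60 1 = true := ex3_b k68_pm_011_s s182_pm_011_s

theorem s184_pm_011_s : ∃ t, chk3 f_pm_011_s t 18 60 1 = true := ex3_a k67_pm_011_s s183_pm_011_s

theorem s185_pm_011_s : ∃ t, chk3 f_pm_011_s t 18 30 1 = true := ex3_b s184_pm_011_s s178_pm_011_s

theorem s186_pm_011_s : ∃ t, chk3 f_pm_011_s t 9 30 1 = true := ex3_a s185_pm_011_s s154_pm_011_s

theorem s187_pm_011_s : ∃ t, chk3 f_pm_011_s t 9 15 1 = true := ex3_b s186_pm_011_s k111_pm_011_s

theorem s188_pm_011_s : ∃ t, chk3 f_pm_011_s t 142 994 1 = true := ex3_b k60_pm_011_s k61_pm_011_s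

theorem s189_pm_011_s : ∃ t, chk3 f_pm_011_s t 142 497 1 = true := ex3_b s188_pm_011_s k62_pm_011_s

theorem s190_pm_011_s : ∃ t, chk3 f_pm_011_s t 142 496 1 = true := ex3_b k58_pm_011_s k59_pm_011_s

theorem s191_pm_011_s : ∃ t, chk3 f_pm_011_s t 142 248 1 = true := ex3_b s190_pm_011_s s189_pm_011_s

theorem s192_pm_011_s : ∃ t, chk3 f_pm_011_s t 71 248 1 = true := ex3_a s191_pm_011_s k63_pm_011_s

theorem s193_pm_011_s : ∃ t, chk3 f_pm_011_s t 71 124 1 = true := ex3_b s192_pm_011_s k64_pm_011_s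

theorem s194_pm_011_s : ∃ t, chk3 f_pm_011_s t 282 498 1 = true := ex3_a k54_pm_011_s k55_pm_011_s

theorem s195_pm_011_s : ∃ t, chk3 f_pm_011_s t 141 498 1 = true := ex3_a s194_pm_011_s k56_pm_011_s

theorem s196_pm_011_s : ∃ t, chk3 f_pm_011_s t 141 249 1 = true := ex3_b s195_pm_011_s k57_pm_011_s

theorem s197_pm_011_s : ∃ t, chk3 f_pm_011_s t 140 998 1 = true := ex3_b k51_pm_011_s k52_pm_011_s

theorem s198_pm_011_s : ∃ t, chk3 f_pm_011_s t 140 499 1 = true := ex3_b s197_pm_011_s k53_pm_011_s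

theorem s199_pm_011_s : ∃ t, chk3 f_pm_011_s t 281 997 1 = true := ex3_b k49_pm_011_s k50_pm_011_s

theorem s200_pm_011_s : ∃ t, chk3 f_pm_011_s t 281 498 1 = true := ex3_b k48_pm_011_s s199_pm_011_s

theorem s201_pm_011_s : ∃ t, chk3 f_pm_011_s t 140 498 1 = true := ex3_a k47_pm_011_s s200_pm_011_s

theorem s202_pm_011_s : ∃ t, chk3 f_pm_011_s t 140 249 1 = true := ex3_b s201_pm_011_s s198_pm_011_s

theorem s203_pm_011_s : ∃ t, chk3 f_pm_011_s t 70 249 1 = true := ex3_a s202_pm_011_s s196_pm_011_s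

theorem s204_pm_011_s : ∃ t, chk3 f_pm_011_s t 283 995 1 = true := ex3_b k45_pm_011_s k46_pm_011_s

theorem s205_pm_011_s : ∃ t, chk3 f_pm_011_s t 141 995 1 = true := ex3_a k44_pm_011_s s204_pm_011_s

theorem s206_pm_011_s : ∃ t, chk3 f_pm_011_s t 141 497 1 = true := ex3_b k43_pm_011_s s205_pm_011_s

theorem s207_pm_011_s : ∃ t, chk3 f_pm_011_s t 141 248 1 = true := ex3_b k42_pm_011_s s206_pm_011_s

theorem s208_pm_011_s : ∃ t, chk3 f_pm_011_s t 70 248 1 = true := ex3_a k41_pm_011_s s207_pm_011_s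

theorem s209_pm_011_s : ∃ t, chk3 f_pm_011_s t 70 124 1 = true := ex3_b s208_pm_011_s s203_pm_011_s

theorem s210_pm_011_s : ∃ t, chk3 f_pm_011_s t 35 124 1 = true := ex3_a s209_pm_011_s s193_pm_011_s

theorem s211_pm_011_s : ∃ t, chk3 f_pm_011_s t 35 62 1 = true := ex3_b s210_pm_011_s k65_pm_011_s

theorem s212_pm_011_s : ∃ t, chk3 f_pm_011_s t 278 1000 1 = true := ex3_b k35_pm_011_s k36_pm_011_s

theorem s213_pm_011_s : ∃ t, chk3 f_pm_011_s t 278 500 1 = true := ex3_b s212_pm_011_s k37_pm_011_s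

theorem s214_pm_011_s : ∃ t, chk3 f_pm_011_s t 139 500 1 = true := ex3_a s213_pm_011_s k38_pm_011_s

theorem s215_pm_011_s : ∃ t, chk3 f_pm_011_s t 139 250 1 = true := ex3_b s214_pm_011_s k39_pm_011_s

theorem s216_pm_011_s : ∃ t, chk3 f_pm_011_s t 277 250 1 = true := ex3_b k33_pm_011_s k34_pm_011_s

theorem s217_pm_011_s : ∃ t, chk3 f_pm_011_s t 138 250 1 = true := ex3_a k32_pm_011_s s216_pm_011_s

theorem s218_pm_011_s : ∃ t, chk3 f_pm_011_s t 69 250 1 = true := ex3_a s217_pm_011_s s215_pm_011_s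

theorem s219_pm_011_s : ∃ t, chk3 f_pm_011_s t 69 125 1 = true := ex3_b s218_pm_011_s k40_pm_011_s

theorem s220_pm_011_s : ∃ t, chk3 f_pm_011_s t 34 125 1 = true := ex3_a k31_pm_011_s s219_pm_011_s

theorem s221_pm_011_s : ∃ t, chk3 f_pm_011_s t 279 999 1 = true := ex3_b k29_pm_011_s k30_pm_011_s

theorem s222_pm_011_s : ∃ t, chk3 f_pm_011_s t 279 499 1 = true := ex3_b k28_pm_011_s s221_pm_011_s

theorem s223_pm_011_s : ∃ t, chk3 f_pm_011_s t 279 249 1 = true := ex3_b k27_pm_011_s s222_pm_011_s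

theorem s224_pm_011_s : ∃ t, chk3 f_pm_011_s t 139 249 1 = true := ex3_a k26_pm_011_s s223_pm_011_s

theorem s225_pm_011_s : ∃ t, chk3 f_pm_011_s t 69 249 1 = true := ex3_a k25_pm_011_s s224_pm_011_s

theorem s226_pm_011_s : ∃ t, chk3 f_pm_011_s t 69 124 1 = true := ex3_b k24_pm_011_s s225_pm_011_s

theorem s227_pm_011_s : ∃ t, chk3 f_pm_011_s t 34 124 1 = true := ex3_a k23_pm_011_s s226_pm_011_s

theorem s228_pm_011_s : ∃ t, chk3 f_pm_011_s t 34 62 1 = true := ex3_b s227_pm_011_s s220_pm_011_s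

theorem s229_pm_011_s : ∃ t, chk3 f_pm_011_s t 17 62 1 = true := ex3_a s228_pm_011_s s211_pm_011_s

theorem s230_pm_011_s : ∃ t, chk3 f_pm_011_s t 17 31 1 = true := ex3_b s229_pm_011_s k66_pm_011_s

theorem s231_pm_011_s : ∃ t, chk3 f_pm_011_s t 8 31 1 = true := ex3_a k22_pm_011_s s230_pm_011_s

theorem s232_pm_011_s : ∃ t, chk3 f_pm_011_s t 287 495 1 = true := ex3_b k20_pm_011_s k21_pm_011_s

theorem s233_pm_011_s : ∃ t, chk3 f_pm_011_s t 143 495 1 = true := ex3_a k19_pm_011_s s232_pm_011_s

theorem s234_pm_011_s : ∃ t, chk3 f_pm_011_s t 143 247 1 = true := ex3_b k18_pm_011_s s233_pm_011_s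

theorem s235_pm_011_s : ∃ t, chk3 f_pm_011_s t 71 247 1 = true := ex3_a k17_pm_011_s s234_pm_011_s

theorem s236_pm_011_s : ∃ t, chk3 f_pm_011_s t 71 123 1 = true := ex3_b k16_pm_011_s s235_pm_011_s

theorem s237_pm_011_s : ∃ t, chk3 f_pm_011_s t 35 123 1 = true := ex3_a k15_pm_011_s s236_pm_011_s

theorem s238_pm_011_s : ∃ t, chk3 f_pm_011_s t 35 61 1 = true := ex3_b k14_pm_011_s s237_pm_011_s

theorem s239_pm_011_s : ∃ t, chk3 f_pm_011_s t 17 61 1 = true := ex3_a k13_pm_011_s s238_pm_011_s

theorem s240_pm_011_s : ∃ t, chk3 f_pm_011_s t 17 30 1 = true := ex3_b k12_pm_011_s s239_pm_011_s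

theorem s241_pm_011_s : ∃ t, chk3 f_pm_011_s t 8 30 1 = true := ex3_a k11_pm_011_s s240_pm_011_s

theorem s242_pm_011_s : ∃ t, chk3 f_pm_011_s t 8 15 1 = true := ex3_b s241_pm_011_s s231_pm_011_s

theorem s243_pm_011_s : ∃ t, chk3 f_pm_011_s t 4 15 1 = true := ex3_a s242_pm_011_s s187_pm_011_s

theorem s244_pm_011_s : ∃ t, chk3 f_pm_011_s t 79 119 1 = true := ex3_a k9_pm_011_s k10_pm_011_s

theorem s245_pm_011_s : ∃ t, chk3 f_pm_011_s t 39 119 1 = true := ex3_a k8_pm_011_s s244_pm_011_s

theorem s246_pm_011_s : ∃ t, chk3 f_pm_011_s t 39 59 1 = true := ex3_b k7_pm_011_s s245_pm_011_s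

theorem s247_pm_011_s : ∃ t, chk3 f_pm_011_s t 19 59 1 = true := ex3_a k6_pm_011_s s246_pm_011_s

theorem s248_pm_011_s : ∃ t, chk3 f_pm_011_s t 19 29 1 = true := ex3_b k5_pm_011_s s247_pm_011_s

theorem s249_pm_011_s : ∃ t, chk3 f_pm_011_s t 9 29 1 = true := ex3_a k4_pm_011_s s248_pm_011_s

theorem s250_pm_011_s : ∃ t, chk3 f_pm_011_s t 9 14 1 = true := ex3_b k3_pm_011_s s249_pm_011_s

theorem s251_pm_011_s : ∃ t, chk3 f_pm_011_s t 4 14 1 = true := ex3_a k2_pm_011_s s250_pm_011_s

theorem s252_pm_011_s : ∃ t, chk3 f_pm_011_s t 4 7 1 = true := ex3_b s251_pm_011_s s243_pm_011_s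

theorem s253_pm_011_s : ∃ t, chk3 f_pm_011_s t 2 7 1 = true := ex3_a s252_pm_011_s s143_pm_011_s

theorem s254_pm_011_s : ∃ t, chk3 f_pm_011_s t 2 3 1 = true := ex3_b k1_pm_011_s s253_pm_011_s

theorem s255_pm_011_s : ∃ t, chk3 f_pm_011_s t 1 3 1 = true := ex3_a s254_pm_011_s s129_pm_011_s

theorem s256_pm_011_s : ∃ t, chk3 f_pm_011_s t 1 1 1 = true := ex3_b k0_pm_011_s s255_pm_011_s

theorem c_pm_011_s : CertNE 0 536870912 536870912 536870912 818728140 40265320 3 eng mog cd0q0 cd4q1 pd1 true true false .pnn 0 1 1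
    ndB0q0 ndB4q1 pcB1 cut_pm_011_s Ext.none :=
  certNE1 (fam := true) (s1 := true) (s2 := false) (a := 0) (b := 1) (c := 1) (cn := .pnn) (n1 := ndB0q0) (n2 := ndB4q1) (pc := pcB1) (cut := cut_pm_011_s) (xt := Ext.none) (P1 := 0) (W1 := 536870912) (P2 := 536870912) (W2 := 536870912) (P3 := 818728140) (W3 := 40265320) (N0 := 3) (En := eng) (mo := mog) (C1 := cd0q0) (C2 := cd4q1) (C3 := pd1)
    rfl (fun _ => rfl) s256_pm_011_s

noncomputable def cut_pm_012_s : Cut := Cut.of [[⟨4, 0, 0, 1449551462⟩], [⟨0, 0, 0, 67108864⟩, ⟨1, 1, 0, 67108864⟩, ⟨2, 1, 0, 67108864⟩]]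

noncomputable def f_pm_012_s : ℕ → ℕ → ℕ → ℕ → Bool := onCell 1073741824 536870912 536870912 536870912 818728140 40265320
    (rowNE 3 eng mog cd0q0 cd4q1 pd2 2 true true false .pnp 0 1 2 (qsf 0 536870912 536870912 536870912 2) ndB0q0 ndB4q1 pcB2 cut_pm_012_s Ext.none)

def k0_pm_012_s : ∃ t, chk3 f_pm_012_s t 2 2 1 = true :=
  ⟨(a (b (a (a (b (b (l 15967528) (l 16030704)) (b (l 16089784) (l 16188792))) (b (l 6) (a (l 16101432) (l 16067968)))) (l 6)) (a (b (b (a (a (l 16188176) (l 16201568)) (l 16165704)) (a (l 16264464) (l 16211312))) (a (b (a (l 16327936) (l 16318512)) (a (l 16386104) (l 16363672))) (b (l 16250208) (l 16284408)))) (b (a (b (l 16087512) (l 16001560)) (l 6)) (a (b (a (l 16181104) (l 16137384)) (l 16185648)) (b (l 16073480) (l 16135632)))))) (b (l 6) (l 6))), by decide +kernel⟩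

def k1_pm_012_s : ∃ t, chk3 f_pm_012_s t 4 6 1 = true :=
  ⟨(a (b (a (a (b (l 16441728) (b (l 16480000) (l 16503576))) (b (l 16402048) (b (l 16431240) (l 16451408)))) (a (b (l 16281304) (l 16293984)) (b (l 16288368) (l 16316800)))) (a (b (b (a (l 16525776) (l 16471968)) (a (l 16546808) (l 16492792))) (b (a (a (l 16568624) (l 16564880)) (l 16513664)) (a (a (l 16546632) (l 16584416)) (l 16534496)))) (a (b (b (l 16404912) (l 16423520)) (b (l 16442400) (l 16482296))) (b (b (l 16340048) (l 16356360)) (b (l 16373088) (l 16390064)))))) (a (b (b (a (l 16234248) (l 16182584)) (a (l 16258128) (l 16201576))) (b (a (l 16283880) (l 16221928)) (a (b (l 16305056) (l 16319720)) (b (l 16239048) (l 16251176))))) (b (b (l 16108112) (a (l 16147344) (l 16095920))) (b (a (l 16163352) (l 16107464)) (a (l 16181096) (l 16120256)))))), by decide +kernel⟩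

def k2_pm_012_s : ∃ t, chk3 f_pm_012_s t 8 14 1 = true :=
  ⟨(a (b (b (a (c (l 16616680) (l 16607360)) (c (l 16555336) (l 16552872))) (a (a (a (l 16611144) (l 16608352)) (l 16625032)) (a (l 16590976) (l 16553560)))) (a (a (b (b (l 16647248) (l 16658432)) (a (b (l 16671240) (l 16682480)) (l 16673632))) (b (l 16644888) (c (l 16661064) (l 16658112)))) (a (b (l 16607064) (l 16621376)) (b (l 16590376) (a (l 16592904) (l 16573968)))))) (b (a (b (a (l 16498480) (l 16461640)) (a (l 16516240) (l 16478912))) (b (l 16406936) (c (l 16427936) (l 16418832)))) (a (b (a (l 16531912) (l 16494552)) (a (l 16545672) (l 16508104))) (b (a (l 16457312) (l 16420080)) (a (l 16470704) (l 16433456)))))), by decide +kernel⟩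

def k3_pm_012_s : ∃ t, chk3 f_pm_012_s t 8 15 1 = true :=
  ⟨(a (b (a (b (b (a (a (l 16672680) (l 16690376)) (l 16669920)) (a (a (l 14) (l 16701448)) (l 16676504))) (a (l 14) (a (l 14) (b (l 16672976) (l 14))))) (b (a (b (a (l 16640856) (l 16621592)) (l 16658400)) (c (l 16599736) (l 16591800))) (a (b (a (l 16653256) (l 16633640)) (a (l 14) (l 16639360))) (b (l 16604416) (l 16609872))))) (a (l 14) (b (a (l 14) (b (c (l 16619448) (l 16610584)) (l 14))) (l 14)))) (b (a (b (a (b (l 16554856) (l 16560488)) (l 16506752)) (a (b (l 16565824) (l 16570904)) (b (l 16527608) (l 16532384)))) (b (c (l 16455016) (l 16434928)) (c (a (l 16499320) (l 16462584)) (a (l 16484320) (l 16445624))))) (a (b (a (b (l 16596768) (c (l 16586128) (l 16574608))) (b (l 16536904) (c (l 16548008) (l 16534184)))) (b (a (l 14) (c (l 16552320) (l 16538144))) (l 14))) (a (b (b (l 16498456) (l 16523400)) (a (b (l 16536928) (l 14)) (b (l 16496480) (b (l 16499120) (l 14))))) (b (b (l 16460376) (c (l 16472944) (l 16454776)))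 (b (c (l 16476576) (l 16457984)) (c (l 16501000) (l 16481976)))))))), by decide +kernel⟩

def k4_pm_012_s : ∃ t, chk3 f_pm_012_s t 9 7 1 = true :=
  ⟨(b (a (b (a (b (l 16334456) (l 16348904)) (b (l 16263480) (l 16275664))) (a (b (l 16425816) (a (l 16395192) (l 16356104))) (b (l 16287440) (l 16340688)))) (b (a (b (l 16195720) (l 16205608)) (b (l 16131184) (l 16138784))) (a (b (l 16215248) (l 16224472)) (b (l 16146256) (l 16153488))))) (b (a (a (b (a (l 16406200) (l 16366816)) (a (b (l 16413192) (l 16417312)) (l 16396400))) (b (c (l 16317976) (l 16298936)) (c (l 16327208) (l 16306136)))) (a (b (c (l 16243360) (l 16222824)) (c (l 16251704) (l 16228928))) (b (l 16202224) (c (l 16178576) (l 16154320))))) (a (b (a (a (b (l 16421024) (l 16445320)) (b (l 16380688) (l 16383680))) (b (c (l 16332496) (l 16310248)) (c (l 16335408) (l 16312488)))) (a (b (a (c (l 16437312) (l 16417040)) (c (l 16396856) (l 16375304))) (a (c (l 16440304) (l 16419592)) (c (l 16399384) (l 16377376)))) (b (c (l 16337840)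 (l 16314344)) (c (a (l 16359432) (l 16320368)) (a (l 16336104) (l 16295704)))))) (b (a (c (b (l 16256920) (l 16259536)) (l 16254480)) (c (l 16226408) (l 16157960))) (a (c (b (l 16261624) (l 16299896)) (b (l 16235656) (l 16236576))) (c (b (l 16187824) (l 16189208)) (b (l 16159728) (l 16160256)))))))), by decide +kernel⟩

def k5_pm_012_s : ∃ t, chk3 f_pm_012_s t 5 3 1 = true :=
  ⟨(b (a (b (a (a (b (l 6) (l 16046096)) (l 6)) (l 6)) (a (a (b (l 16053992) (l 16062888)) (b (a (l 16015928) (l 6)) (a (l 16021640) (l 15995296)))) (b (l 6) (l 15952216)))) (l 6)) (b (a (a (a (b (l 16072560) (b (l 16080576) (l 16085784))) (b (a (l 16027944) (a (l 16006464) (l 15992664))) (a (b (l 16033512) (l 16037248)) (b (l 16003720) (a (l 16013880) (l 15998984)))))) (b (b (l 15931832) (l 15931784)) (b (l 15931552) (l 15931728)))) (l 6)) (a (a (a (b (b (l 16090744) (c (l 16107984) (l 16082360))) (b (c (l 16113128) (l 16085120)) (c (b (l 16116064) (l 16117576)) (b (l 16086304) (l 16086672))))) (b (a (b (l 16040832)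 (l 16044112)) (b (a (l 16016832) (l 16001568)) (a (l 16019528) (l 16045904)))) (a (b (l 16046912) (c (l 16064680) (l 16033160))) (b (a (l 16021824) (c (l 16021016) (l 15990776))) (a (c (l 16039536) (l 16007408)) (a (l 16053400) (c (l 16019944) (l 15987272)))))))) (b (b (a (l 15962776) (l 15901800)) (c (l 15989664) (l 15916776))) (b (c (a (l 15980680) (l 15916872)) (a (l 15949328) (l 15883312))) (a (c (l 15982320) (l 15948848)) (c (l 15916488) (l 15881376)))))) (a (a (b (b (l 6) (l 15840672)) (b (c (l 15855672) (l 15819744)) (c (l 15853328) (l 15815976)))) (l 6)) (l 6))))), by decide +kernel⟩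

def k6_pm_012_s : ∃ t, chk3 f_pm_012_s t 3 1 1 = true :=
  ⟨(b (l 6) (l 6)), by decide +kernel⟩

theorem s7_pm_012_s : ∃ t, chk3 f_pm_012_s t 8 7 1 = true := ex3_b k2_pm_012_s k3_pm_012_s

theorem s8_pm_012_s : ∃ t, chk3 f_pm_012_s t 4 7 1 = true := ex3_a s7_pm_012_s k4_pm_012_s

theorem s9_pm_012_s : ∃ t, chk3 f_pm_012_s t 4 3 1 = true := ex3_b k1_pm_012_s s8_pm_012_s

theorem s10_pm_012_s : ∃ t, chk3 f_pm_012_s t 2 3 1 = true := ex3_a s9_pm_012_s k5_pm_012_s

theorem s11_pm_012_s : ∃ t, chk3 f_pm_012_s t 2 1 1 = true := ex3_b k0_pm_012_s s10_pm_012_s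

theorem s12_pm_012_s : ∃ t, chk3 f_pm_012_s t 1 1 1 = true := ex3_a s11_pm_012_s k6_pm_012_s

theorem c_pm_012_s : CertNE 0 536870912 536870912 536870912 818728140 40265320 3 eng mog cd0q0 cd4q1 pd2 true true false .pnp 0 1 2
    ndB0q0 ndB4q1 pcB2 cut_pm_012_s Ext.none :=
  certNE2 (fam := true) (s1 := true) (s2 := false) (a := 0) (b := 1) (c := 2) (cn := .pnp) (n1 := ndB0q0) (n2 := ndB4q1) (pc := pcB2) (cut := cut_pm_012_s) (xt := Ext.none) (P1 := 0) (W1 := 536870912) (P2 := 536870912) (W2 := 536870912) (P3 := 818728140) (W3 := 40265320) (N0 := 3) (En := eng) (mo := mog) (C1 := cd0q0) (C2 := cd4q1) (C3 := pd2)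
    rfl (fun _ => rfl) s12_pm_012_s

noncomputable def cut_pm_022_s : Cut := Cut.of [[⟨4, 0, 0, 1449551462⟩], [⟨0, 0, 0, 67108864⟩, ⟨1, 1, 0, 67108864⟩, ⟨2, 1, 0, 67108864⟩]]

noncomputable def f_pm_022_s : ℕ → ℕ → ℕ → ℕ → Bool := onCell 1073741824 536870912 1073741824 536870912 818728140 40265320
    (rowNE 3 eng mog cd0q0 cd4q2 pd2 2 true true false .pp 0 2 2 (qsf 0 536870912 1073741824 536870912 2) ndB0q0 ndB4q2 pcB2 cut_pm_022_s Ext.none)

def k0_pm_022_s : ∃ t, chk3 f_pm_022_s t 4 2 1 = true :=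
  ⟨(a (b (b (a (b (l 14) (b (l 14) (l 1))) (b (a (l 14) (a (l 14) (a (l 14) (a (l 14) (b (b (l 16492928) (l 16500112)) (l 16541072)))))) (a (b (l 14) (a (l 1) (l 782791104423))) (b (a (l 14) (b (l 16542528) (l 16620360))) (a (b (l 14) (l 680785607111)) (b (l 16645072) (l 453152264679))))))) (a (l 1) (b (a (l 1) (b (a (l 1) (l 781717288343)) (l 1))) (l 1)))) (l 1)) (b (a (b (b (a (b (b (a (c (l 16455368) (l 16435864)) (c (l 16414176) (l 16393392))) (a (c (l 16482176) (l 16465480)) (l 16453168))) (a (b (l 16501512) (l 16528360)) (b (l 16459752) (l 16486648)))) (b (c (b (a (l 16374056) (l 16334888)) (l 16402296)) (b (a (l 16351936) (l 16311400)) (l 16382336))) (b (c (l 16407536) (l 16390408)) (l 16447048)))) (a (a (b (b (l 16554536) (l 16580032)) (l 16596000)) (b (l 16546696) (l 16554480))) (b (b (l 16452384) (l 16478024)) (a (l 16535000) (l 16495600))))) (b (a (b (a (l 633540910615) (l 204580951719)) (l 822519417511)) (b (a (l 16582112) (l 16542864)) (a (l 497712388359) (l 16564864))))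 (a (l 1) (b (l 788159620023) (l 1))))) (b (b (a (b (c (b (a (l 16296600) (l 16259048)) (l 16305016)) (b (l 16273200) (l 16282272))) (b (a (l 16340648) (l 16302856)) (l 16385520))) (b (c (b (l 16204016) (l 16231960)) (b (l 16175976) (l 16206552))) (c (l 16272064) (l 16250744)))) (a (b (a (l 16407064) (l 16369496)) (l 16480384)) (b (c (l 16322888) (l 16307000)) (l 16365608)))) (b (a (b (l 16569856) (l 16530736)) (b (l 16413528) (l 16374856))) (a (b (a (l 473553125543) (l 16553968)) (l 759705398183)) (b (l 16501160) (l 400001716567)))))) (a (l 1) (b (b (a (l 1) (l 739841076487)) (l 1)) (l 1))))), by decide +kernel⟩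

def k1_pm_022_s : ∃ t, chk3 f_pm_022_s t 5 4 1 = true :=
  ⟨(a (b (a (b (a (b (c (b (l 16132832) (l 16161624)) (b (l 16102616) (l 16133840))) (c (l 16202928) (l 16178960))) (a (b (c (l 16095984) (l 16065440)) (l 16140184)) (b (a (c (l 16071040) (l 16039824)) (a (c (l 16059368) (l 16027736)) (c (l 16051920) (l 16020032)))) (a (l 16115728) (a (l 16104200) (l 16096888)))))) (a (b (c (l 16254696) (l 16236008)) (l 16296728)) (a (b (l 16195648) (l 16247600)) (b (a (l 16171792) (l 16156992)) (a (l 16224280) (l 16209880)))))) (b (b (a (c (l 16040416) (l 15981536)) (c (l 15947488) (l 15913504))) (a (c (l 16073504) (l 16045088)) (c (l 16007976) (l 15978080)))) (b (a (l 16117144) (l 16052032)) (a (l 16170856) (l 16107272))))) (a (b (a (b (l 16345096) (l 16390792)) (a (l 16319904) (b (l 16329696) (l 16313280)))) (a (b (l 16370832) (l 16473872)) (a (l 16406568) (b (l 16357072) (l 16398072))))) (b (b (l 16252480) (l 16237160)) (b (l 16302640) (l 16239400))))) (b (b (a (b (c (a (l 15883272) (l 15821704))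 (a (l 15847600) (l 15783784))) (c (l 15954720) (l 15880672))) (l 6)) (a (b (a (l 15988240) (l 15925920)) (a (l 16044600) (l 15983296))) (b (l 6) (l 15894512)))) (a (b (b (a (l 16097384) (l 16037144)) (l 16116824)) (b (l 16162744) (l 16205688))) (b (b (l 15991616) (l 16001344)) (b (l 16049504) (l 16094528)))))), by decide +kernel⟩

def k2_pm_022_s : ∃ t, chk3 f_pm_022_s t 5 5 1 = true :=
  ⟨(a (b (a (b (a (b (l 387116731399) (l 724808646695)) (a (l 16353736) (b (l 16436344) (l 16441736)))) (a (l 1) (b (l 627634868007) (l 1)))) (b (b (l 16362280) (l 16398776)) (a (l 411275613031) (l 16380008)))) (a (l 1) (b (l 711923464247) (l 1)))) (b (b (a (b (l 16245704) (l 16283208)) (b (l 16135904) (l 16174736))) (a (l 16334992) (l 16228248))) (a (b (c (l 16166432) (l 16152160)) (l 603475374599)) (b (l 16288184) (l 351145674151))))), by decide +kernel⟩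

def k3_pm_022_s : ∃ t, chk3 f_pm_022_s t 3 2 1 = true :=
  ⟨(a (a (b (l 6) (a (b (b (b (l 6) (l 16072736)) (l 16002400)) (b (l 16193976) (l 16212728))) (l 6))) (l 6)) (l 6)), by decide +kernel⟩

def k4_pm_022_s : ∃ t, chk3 f_pm_022_s t 1 3 1 = true :=
  ⟨(a (a (l 1) (a (l 1) (b (b (b (a (l 1) (l 581463682023)) (l 1)) (l 1)) (l 1)))) (a (a (b (b (b (a (l 16075272) (l 16138568)) (l 481605371223)) (b (l 582000053111) (l 1))) (l 1)) (a (b (l 6) (l 1)) (l 6))) (l 6))), by decide +kernel⟩

theorem s5_pm_022_s : ∃ t, chk3 f_pm_022_s t 5 2 1 = true := ex3_b k1_pm_022_s k2_pm_022_s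

theorem s6_pm_022_s : ∃ t, chk3 f_pm_022_s t 2 2 1 = true := ex3_a k0_pm_022_s s5_pm_022_s

theorem s7_pm_022_s : ∃ t, chk3 f_pm_022_s t 1 2 1 = true := ex3_a s6_pm_022_s k3_pm_022_s

theorem s8_pm_022_s : ∃ t, chk3 f_pm_022_s t 1 1 1 = true := ex3_b s7_pm_022_s k4_pm_022_s

theorem c_pm_022_s : CertNE 0 536870912 1073741824 536870912 818728140 40265320 3 eng mog cd0q0 cd4q2 pd2 true true false .pp 0 2 2
    ndB0q0 ndB4q2 pcB2 cut_pm_022_s Ext.none :=
  certNE2 (fam := true) (s1 := true) (s2 := false) (a := 0) (b := 2) (c := 2) (cn := .pp) (n1 := ndB0q0) (n2 := ndB4q2) (pc := pcB2) (cut := cut_pm_022_s) (xt := Ext.none) (P1 := 0) (W1 := 536870912) (P2 := 1073741824) (W2 := 536870912) (P3 := 818728140) (W3 := 40265320) (N0 := 3) (En := eng) (mo := mog) (C1 := cd0q0) (C2 := cd4q2) (C3 := pd2)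
    rfl (fun _ => rfl) s8_pm_022_s

noncomputable def cut_pm_023_s : Cut := Cut.of [[⟨4, 0, 0, 1449551462⟩]]

noncomputable def f_pm_023_s : ℕ → ℕ → ℕ → ℕ → Bool := onCell 1610612736 536870912 1073741824 536870912 818728140 40265320
    (rowNE 3 eng mog cd0q0 cd4q2 pd3 2 true true false .up 0 2 3 (qsf 0 536870912 1073741824 536870912 3) ndB0q0 ndB4q2 pcB3 cut_pm_023_s Ext.none)

def k0_pm_023_s : ∃ t, chk3 f_pm_023_s t 1 1 1 = true :=
  ⟨(a (l 6) (l 6)), by decide +kernel⟩

theorem c_pm_023_s : CertNE 0 536870912 1073741824 536870912 818728140 40265320 3 eng mog cd0q0 cd4q2 pd3 true true false .up 0 2 3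
    ndB0q0 ndB4q2 pcB3 cut_pm_023_s Ext.none :=
  certNE2 (fam := true) (s1 := true) (s2 := false) (a := 0) (b := 2) (c := 3) (cn := .up) (n1 := ndB0q0) (n2 := ndB4q2) (pc := pcB3) (cut := cut_pm_023_s) (xt := Ext.none) (P1 := 0) (W1 := 536870912) (P2 := 1073741824) (W2 := 536870912) (P3 := 818728140) (W3 := 40265320) (N0 := 3) (En := eng) (mo := mog) (C1 := cd0q0) (C2 := cd4q2) (C3 := pd3)
    rfl (fun _ => rfl) k0_pm_023_s

noncomputable def cut_pm_033_s : Cut := Cut.of [[⟨4, 0, 0, 1449551462⟩]]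

noncomputable def f_pm_033_s : ℕ → ℕ → ℕ → ℕ → Bool := onCell 1610612736 536870912 0 1230186008 818728140 40265320
    (rowNE 3 eng mog cd0q0 cd4q3 pd3 2 true true false .pnn 0 3 3 (qsf 0 536870912 0 1230186008 3) ndB0q0 ndB4q3 pcB3 cut_pm_033_s Ext.none)

def k0_pm_033_s : ∃ t, chk3 f_pm_033_s t 1 1 1 = true :=
  ⟨(b (l 6) (l 6)), by decide +kernel⟩

theorem c_pm_033_s : CertNE 0 536870912 0 1230186008 818728140 40265320 3 eng mog cd0q0 cd4q3 pd3 true true false .pnn 0 3 3
    ndB0q0 ndB4q3 pcB3 cut_pm_033_s Ext.none :=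
  certNE2 (fam := true) (s1 := true) (s2 := false) (a := 0) (b := 3) (c := 3) (cn := .pnn) (n1 := ndB0q0) (n2 := ndB4q3) (pc := pcB3) (cut := cut_pm_033_s) (xt := Ext.none) (P1 := 0) (W1 := 536870912) (P2 := 0) (W2 := 1230186008) (P3 := 818728140) (W3 := 40265320) (N0 := 3) (En := eng) (mo := mog) (C1 := cd0q0) (C2 := cd4q3) (C3 := pd3)
    rfl (fun _ => rfl) k0_pm_033_s

end Pool.Agent.Strip051.G.I7625_8000.Tab.CS.BA04

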