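import Pool.Agent.Strip051.G.I7625_8000.Tab
import Pool.Agent.Strip051.PB.StripB

/-! # Strips, near vertex: certificates 6 (generated) -/

set_option linter.all false
set_option maxRecDepth 100000

namespace Pool.Agent.Strip051.G.I7625_8000.Tab.CS.BA04

open Pool.Agent.Strip051.PB Pool.Agent.Strip051.PB.T
open Pool.Agent.Strip051.G.I7625_8000.Tab

noncomputable def cut_pm_101_s : Cut := Cut.of [[⟨4, 0, 0, 1449551462⟩]]

noncomputable def f_pm_101_s : ℕ → ℕ → ℕ → ℕ → Bool := onCell 536870912 536870912 536870912 536870912 818728140 40265320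
    (rowNE 3 eng mog cd0q1 cd4q0 pd1 1 true true false .npn 1 0 1 (qsf 536870912 536870912 0 536870912 1) ndB0q1 ndB4q0 pcB1 cut_pm_101_s Ext.none)

def k0_pm_101_s : ∃ t, chk3 f_pm_101_s t 2 4 1 = true :=
  ⟨(a (b (a (l 3) (a (a (l 3) (l 1)) (l 1))) (a (a (b (l 3) (b (l 3) (a (l 3) (b (l 3) (a (l 3) (l 486572805543)))))) (b (b (l 3) (a (l 3) (b (l 3) (a (l 3) (l 517711315879))))) (b (a (b (l 3) (a (l 3) (l 511268865847))) (b (a (l 515563832599) (b (l 305110417223) (l 16770936))) (a (b (l 300278579751) (l 16770552)) (l 16761160)))) (a (b (a (l 499994577415) (b (l 246591489399) (l 16770024))) (a (b (l 232095976359) (l 16769352)) (l 16759952))) (b (l 16754264) (l 16761880)))))) (b (a (b (a (b (l 3) (a (l 3) (l 519858799303))) (b (l 1) (a (b (l 1) (l 16771392)) (l 1)))) (a (b (a (l 518785057511) (b (l 304036674487) (l 16771312))) (a (b (l 305647287511) (l 16771184)) (l 16761704))) (a (b (l 16761768) (l 16748888)) (l 16763568)))) (b (l 1) (l 93449088359))) (a (a (b (a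 (b (l 16761512) (l 16748480)) (l 16763232)) (l 16743336)) (b (l 16744112) (l 16697248))) (a (l 16726768) (l 16681144)))))) (a (b (l 1) (a (b (l 1) (l 16730120)) (l 1))) (l 1))), by decide +kernel⟩

def k1_pm_101_s : ∃ t, chk3 f_pm_101_s t 2 5 1 = true :=
  ⟨(a (b (a (b (a (b (a (b (l 3) (a (l 3) (l 449528693991))) (b (a (l 470466679303) (l 145659759639)) (a (l 131701117463) (l 16758040)))) (a (b (a (l 435570051351) (l 108078799175)) (a (l 16765144) (l 16754048))) (a (l 16754072) (l 16756920)))) (b (a (a (l 16757472) (l 16760488)) (l 16741576)) (a (l 16737872) (l 16692008)))) (b (a (a (b (a (l 16750928) (l 16737256)) (l 16746984)) (l 16730088)) (l 16734720)) (a (a (l 16738624) (l 16671640)) (l 16656456)))) (b (a (a (l 16765496) (l 16698984)) (l 16703600)) (a (b (l 16623776) (l 16589008)) (l 16559552)))) (a (b (a (b (a (l 16654392) (l 16630520)) (l 16645768)) (b (l 16595928) (l 16555416))) (a (a (l 16591872) (l 16521696)) (l 16534552))) (b (a (l 16553616) (l 16489448))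 (a (l 16454200) (l 16415640))))) (a (b (b (a (l 16612368) (l 16518384)) (a (l 16511416) (l 16456448))) (a (b (l 16445040) (l 16375664)) (b (l 16391632) (l 16326440)))) (b (a (b (l 1) (l 16398824)) (l 1)) (a (b (l 16330168) (l 16266048)) (l 16413616))))), by decide +kernel⟩

def k2_pm_101_s : ∃ t, chk3 f_pm_101_s t 3 2 1 = true :=
  ⟨(a (b (l 1) (a (b (l 1) (b (l 1) (l 16144872))) (l 1))) (l 1)), by decide +kernel⟩

def k3_pm_101_s : ∃ t, chk3 f_pm_101_s t 1 3 1 = true :=
  ⟨(a (b (a (b (a (a (b (l 16531512) (l 16413208)) (b (l 16402744) (l 16341624))) (a (b (l 16368728) (l 16268184)) (l 16352192))) (a (b (a (l 16357320) (l 16291896)) (a (l 16300672) (l 16238864))) (b (l 16268720) (l 16202104)))) (b (a (a (l 16258440) (l 16216816)) (a (l 16164064) (l 16110800))) (a (a (l 16181192) (l 16030152)) (a (l 16033416) (l 6))))) (a (b (a (b (a (l 16244440) (l 16185608)) (l 16289408)) (b (l 16093288) (l 16048720))) (a (a (l 16205992) (l 16070656)) (b (l 16009288) (l 6)))) (b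 (a (a (l 15975632) (l 6)) (l 6)) (l 6)))) (a (b (a (l 6) (l 6)) (l 6)) (l 6))), by decide +kernel⟩

theorem s4_pm_101_s : ∃ t, chk3 f_pm_101_s t 2 2 1 = true := ex3_b k0_pm_101_s k1_pm_101_s

theorem s5_pm_101_s : ∃ t, chk3 f_pm_101_s t 1 2 1 = true := ex3_a s4_pm_101_s k2_pm_101_s

theorem s6_pm_101_s : ∃ t, chk3 f_pm_101_s t 1 1 1 = true := ex3_b s5_pm_101_s k3_pm_101_s

theorem c_pm_101_s : CertNE 536870912 536870912 0 536870912 818728140 40265320 3 eng mog cd0q1 cd4q0 pd1 true true false .npn 1 0 1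
    ndB0q1 ndB4q0 pcB1 cut_pm_101_s Ext.none :=
  certNE1 (fam := true) (s1 := true) (s2 := false) (a := 1) (b := 0) (c := 1) (cn := .npn) (n1 := ndB0q1) (n2 := ndB4q0) (pc := pcB1) (cut := cut_pm_101_s) (xt := Ext.none) (P1 := 536870912) (W1 := 536870912) (P2 := 0) (W2 := 536870912) (P3 := 818728140) (W3 := 40265320) (N0 := 3) (En := eng) (mo := mog) (C1 := cd0q1) (C2 := cd4q0) (C3 := pd1)
    rfl (fun _ => rfl) s6_pm_101_s

noncomputable def cut_pm_102_s : Cut := Cut.of [[⟨4, 0, 0, 1449551462⟩]]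

noncomputable def f_pm_102_s : ℕ → ℕ → ℕ → ℕ → Bool := onCell 536870912 536870912 1073741824 536870912 818728140 40265320
    (rowNE 3 eng mog cd0q1 cd4q0 pd2 1 true true false .npp 1 0 2 (qsf 536870912 536870912 0 536870912 2) ndB0q1 ndB4q0 pcB2 cut_pm_102_s Ext.none)

def k0_pm_102_s : ∃ t, chk3 f_pm_102_s t 1 1 1 = true :=
  ⟨(a (b (a (b (a (b (b (a (l 6) (l 6)) (l 6)) (l 6)) (l 6)) (l 6)) (l 6)) (l 6)) (l 6)), by decide +kernel⟩

theorem c_pm_102_s : CertNE 536870912 536870912 0 536870912 818728140 40265320 3 eng mog cd0q1 cd4q0 pd2 true true false .npp 1 0 2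
    ndB0q1 ndB4q0 pcB2 cut_pm_102_s Ext.none :=
  certNE1 (fam := true) (s1 := true) (s2 := false) (a := 1) (b := 0) (c := 2) (cn := .npp) (n1 := ndB0q1) (n2 := ndB4q0) (pc := pcB2) (cut := cut_pm_102_s) (xt := Ext.none) (P1 := 536870912) (W1 := 536870912) (P2 := 0) (W2 := 536870912) (P3 := 818728140) (W3 := 40265320) (N0 := 3) (En := eng) (mo := mog) (C1 := cd0q1) (C2 := cd4q0) (C3 := pd2)
    rfl (fun _ => rfl) k0_pm_102_s

noncomputable def cut_pm_112_s : Cut := Cut.of [[⟨4, 0, 0, 1449551462⟩]]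

noncomputable def f_pm_112_s : ℕ → ℕ → ℕ → ℕ → Bool := onCell 536870912 536870912 536870912 536870912 818728140 40265320
    (rowNE 3 eng mog cd0q1 cd4q1 pd2 0 true true false .dn 1 1 2 (qsf 536870912 536870912 536870912 536870912 2) ndB0q1 ndB4q1 pcB2 cut_pm_112_s Ext.none)

def k0_pm_112_s : ∃ t, chk3 f_pm_112_s t 1 1 1 = true :=
  ⟨(a (b (b (a (a (b (a (l 15965040) (l 6)) (l 6)) (l 6)) (l 6)) (l 6)) (l 6)) (l 6)), by decide +kernel⟩

theorem c_pm_112_s : CertNE 536870912 536870912 536870912 536870912 818728140 40265320 3 eng mog cd0q1 cd4q1 pd2 true true false .dn 1 1 2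
    ndB0q1 ndB4q1 pcB2 cut_pm_112_s Ext.none :=
  certNE0 (fam := true) (s1 := true) (s2 := false) (a := 1) (b := 1) (c := 2) (cn := .dn) (n1 := ndB0q1) (n2 := ndB4q1) (pc := pcB2) (cut := cut_pm_112_s) (xt := Ext.none) (P1 := 536870912) (W1 := 536870912) (P2 := 536870912) (W2 := 536870912) (P3 := 818728140) (W3 := 40265320) (N0 := 3) (En := eng) (mo := mog) (C1 := cd0q1) (C2 := cd4q1) (C3 := pd2)
    rfl k0_pm_112_s

noncomputable def cut_pm_113_s : Cut := Cut.of [[⟨4, 0, 0, 1449551462⟩]]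

noncomputable def f_pm_113_s : ℕ → ℕ → ℕ → ℕ → Bool := onCell 536870912 536870912 1610612736 536870912 818728140 40265320
    (rowNE 3 eng mog cd0q1 cd4q1 pd3 1 true true false .nn 1 1 3 (qsf 536870912 536870912 536870912 536870912 3) ndB0q1 ndB4q1 pcB3 cut_pm_113_s Ext.none)

def k0_pm_113_s : ∃ t, chk3 f_pm_113_s t 1 1 1 = true :=
  ⟨(l 6), by decide +kernel⟩

theorem c_pm_113_s : CertNE 536870912 536870912 536870912 536870912 818728140 40265320 3 eng mog cd0q1 cd4q1 pd3 true true false .nn 1 1 3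
    ndB0q1 ndB4q1 pcB3 cut_pm_113_s Ext.none :=
  certNE1 (fam := true) (s1 := true) (s2 := false) (a := 1) (b := 1) (c := 3) (cn := .nn) (n1 := ndB0q1) (n2 := ndB4q1) (pc := pcB3) (cut := cut_pm_113_s) (xt := Ext.none) (P1 := 536870912) (W1 := 536870912) (P2 := 536870912) (W2 := 536870912) (P3 := 818728140) (W3 := 40265320) (N0 := 3) (En := eng) (mo := mog) (C1 := cd0q1) (C2 := cd4q1) (C3 := pd3)
    rfl (fun _ => rfl) k0_pm_113_s

noncomputable def cut_pm_123_s : Cut := Cut.of [[⟨4, 0, 0, 1449551462⟩]]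

noncomputable def f_pm_123_s : ℕ → ℕ → ℕ → ℕ → Bool := onCell 536870912 536870912 1073741824 536870912 818728140 40265320
    (rowNE 3 eng mog cd0q1 cd4q2 pd3 0 true true false .npn 1 2 3 (qsf 536870912 536870912 1073741824 536870912 3) ndB0q1 ndB4q2 pcB3 cut_pm_123_s Ext.none)

def k0_pm_123_s : ∃ t, chk3 f_pm_123_s t 1 1 1 = true :=
  ⟨(l 6), by decide +kernel⟩

theorem c_pm_123_s : CertNE 536870912 536870912 1073741824 536870912 818728140 40265320 3 eng mog cd0q1 cd4q2 pd3 true true false .npn 1 2 3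
    ndB0q1 ndB4q2 pcB3 cut_pm_123_s Ext.none :=
  certNE0 (fam := true) (s1 := true) (s2 := false) (a := 1) (b := 2) (c := 3) (cn := .npn) (n1 := ndB0q1) (n2 := ndB4q2) (pc := pcB3) (cut := cut_pm_123_s) (xt := Ext.none) (P1 := 536870912) (W1 := 536870912) (P2 := 1073741824) (W2 := 536870912) (P3 := 818728140) (W3 := 40265320) (N0 := 3) (En := eng) (mo := mog) (C1 := cd0q1) (C2 := cd4q2) (C3 := pd3)
    rfl k0_pm_123_s

noncomputable def cut_pm_133_s : Cut := Cut.of [[⟨4, 0, 0, 1449551462⟩]]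

noncomputable def f_pm_133_s : ℕ → ℕ → ℕ → ℕ → Bool := onCell 536870912 536870912 0 1230186008 818728140 40265320
    (rowNE 3 eng mog cd0q1 cd4q3 pd3 0 true true false .dn 1 3 3 (qsf 536870912 536870912 0 1230186008 3) ndB0q1 ndB4q3 pcB3 cut_pm_133_s Ext.none)

def k0_pm_133_s : ∃ t, chk3 f_pm_133_s t 1 1 1 = true :=
  ⟨(l 6), by decide +kernel⟩

theorem c_pm_133_s : CertNE 536870912 536870912 0 1230186008 818728140 40265320 3 eng mog cd0q1 cd4q3 pd3 true true false .dn 1 3 3
    ndB0q1 ndB4q3 pcB3 cut_pm_133_s Ext.none :=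
  certNE0 (fam := true) (s1 := true) (s2 := false) (a := 1) (b := 3) (c := 3) (cn := .dn) (n1 := ndB0q1) (n2 := ndB4q3) (pc := pcB3) (cut := cut_pm_133_s) (xt := Ext.none) (P1 := 536870912) (W1 := 536870912) (P2 := 0) (W2 := 1230186008) (P3 := 818728140) (W3 := 40265320) (N0 := 3) (En := eng) (mo := mog) (C1 := cd0q1) (C2 := cd4q3) (C3 := pd3)
    rfl k0_pm_133_s

noncomputable def cut_pm_202_s : Cut := Cut.of [[⟨4, 0, 0, 1449551462⟩]]

noncomputable def f_pm_202_s : ℕ → ℕ → ℕ → ℕ → Bool := onCell 0 536870912 0 536870912 818728140 40265320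
    (rowNE 3 eng mog cd0q2 cd4q0 pd2 0 true true false .pp 2 0 2 (qsf 0 536870912 0 536870912 2) ndB0q2 ndB4q0 pcB2 cut_pm_202_s Ext.none)

def k0_pm_202_s : ∃ t, chk3 f_pm_202_s t 1 1 1 = true :=
  ⟨(l 6), by decide +kernel⟩

theorem c_pm_202_s : CertNE 0 536870912 0 536870912 818728140 40265320 3 eng mog cd0q2 cd4q0 pd2 true true false .pp 2 0 2
    ndB0q2 ndB4q0 pcB2 cut_pm_202_s Ext.none :=
  certNE0 (fam := true) (s1 := true) (s2 := false) (a := 2) (b := 0) (c := 2) (cn := .pp) (n1 := ndB0q2) (n2 := ndB4q0) (pc := pcB2) (cut := cut_pm_202_s) (xt := Ext.none) (P1 := 0) (W1 := 536870912) (P2 := 0) (W2 := 536870912) (P3 := 818728140) (W3 := 40265320) (N0 := 3) (En := eng) (mo := mog) (C1 := cd0q2) (C2 := cd4q0) (C3 := pd2)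
    rfl k0_pm_202_s

noncomputable def cut_pm_203_s : Cut := Cut.of [[⟨4, 0, 0, 1449551462⟩]]

noncomputable def f_pm_203_s : ℕ → ℕ → ℕ → ℕ → Bool := onCell 0 536870912 0 536870912 818728140 40265320
    (rowNE 3 eng mog cd0q2 cd4q0 pd3 0 true true false .up 2 0 3 (qsf 0 536870912 0 536870912 3) ndB0q2 ndB4q0 pcB3 cut_pm_203_s Ext.none)

def k0_pm_203_s : ∃ t, chk3 f_pm_203_s t 1 1 1 = true :=
  ⟨(l 6), by decide +kernel⟩

theorem c_pm_203_s : CertNE 0 536870912 0 536870912 818728140 40265320 3 eng mog cd0q2 cd4q0 pd3 true true false .up 2 0 3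
    ndB0q2 ndB4q0 pcB3 cut_pm_203_s Ext.none :=
  certNE0 (fam := true) (s1 := true) (s2 := false) (a := 2) (b := 0) (c := 3) (cn := .up) (n1 := ndB0q2) (n2 := ndB4q0) (pc := pcB3) (cut := cut_pm_203_s) (xt := Ext.none) (P1 := 0) (W1 := 536870912) (P2 := 0) (W2 := 536870912) (P3 := 818728140) (W3 := 40265320) (N0 := 3) (En := eng) (mo := mog) (C1 := cd0q2) (C2 := cd4q0) (C3 := pd3)
    rfl k0_pm_203_s

noncomputable def cut_pm_213_s : Cut := Cut.of [[⟨4, 0, 0, 1449551462⟩]]

noncomputable def f_pm_213_s : ℕ → ℕ → ℕ → ℕ → Bool := onCell 0 536870912 536870912 536870912 818728140 40265320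
    (rowNE 3 eng mog cd0q2 cd4q1 pd3 0 true true false .pnn 2 1 3 (qsf 0 536870912 536870912 536870912 3) ndB0q2 ndB4q1 pcB3 cut_pm_213_s Ext.none)

def k0_pm_213_s : ∃ t, chk3 f_pm_213_s t 1 1 1 = true :=
  ⟨(l 6), by decide +kernel⟩

theorem c_pm_213_s : CertNE 0 536870912 536870912 536870912 818728140 40265320 3 eng mog cd0q2 cd4q1 pd3 true true false .pnn 2 1 3
    ndB0q2 ndB4q1 pcB3 cut_pm_213_s Ext.none :=
  certNE0 (fam := true) (s1 := true) (s2 := false) (a := 2) (b := 1) (c := 3) (cn := .pnn) (n1 := ndB0q2) (n2 := ndB4q1) (pc := pcB3) (cut := cut_pm_213_s) (xt := Ext.none) (P1 := 0) (W1 := 536870912) (P2 := 536870912) (W2 := 536870912) (P3 := 818728140) (W3 := 40265320) (N0 := 3) (En := eng) (mo := mog) (C1 := cd0q2) (C2 := cd4q1) (C3 := pd3)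
    rfl k0_pm_213_s

noncomputable def cut_mm_001_s : Cut := Cut.of [[⟨4, 0, 0, 1449551462⟩]]

noncomputable def f_mm_001_s : ℕ → ℕ → ℕ → ℕ → Bool := onCell 0 536870912 0 536870912 818728140 40265320
    (rowNE 3 eng mog cd0q0 cd4q0 pd1 0 true false false .up 0 0 1 (qsf 0 536870912 0 536870912 1) ndB0q0 ndB4q0 pcB1 cut_mm_001_s Ext.none)

def k0_mm_001_s : ∃ t, chk3 f_mm_001_s t 1 1 1 = true :=
  ⟨(l 4), by decide +kernel⟩

theorem c_mm_001_s : CertNE 0 536870912 0 536870912 818728140 40265320 3 eng mog cd0q0 cd4q0 pd1 true false false .up 0 0 1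
    ndB0q0 ndB4q0 pcB1 cut_mm_001_s Ext.none :=
  certNE0 (fam := true) (s1 := false) (s2 := false) (a := 0) (b := 0) (c := 1) (cn := .up) (n1 := ndB0q0) (n2 := ndB4q0) (pc := pcB1) (cut := cut_mm_001_s) (xt := Ext.none) (P1 := 0) (W1 := 536870912) (P2 := 0) (W2 := 536870912) (P3 := 818728140) (W3 := 40265320) (N0 := 3) (En := eng) (mo := mog) (C1 := cd0q0) (C2 := cd4q0) (C3 := pd1)
    rfl k0_mm_001_s

noncomputable def cut_mm_011_s : Cut := Cut.of [[⟨4, 0, 0, 1449551462⟩]]

noncomputable def f_mm_011_s : ℕ → ℕ → ℕ → ℕ → Bool := onCell 0 536870912 536870912 536870912 818728140 40265320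
    (rowNE 3 eng mog cd0q0 cd4q1 pd1 0 true false false .pnn 0 1 1 (qsf 0 536870912 536870912 536870912 1) ndB0q0 ndB4q1 pcB1 cut_mm_011_s Ext.none)

def k0_mm_011_s : ∃ t, chk3 f_mm_011_s t 1 1 1 = true :=
  ⟨(l 4), by decide +kernel⟩

theorem c_mm_011_s : CertNE 0 536870912 536870912 536870912 818728140 40265320 3 eng mog cd0q0 cd4q1 pd1 true false false .pnn 0 1 1
    ndB0q0 ndB4q1 pcB1 cut_mm_011_s Ext.none :=
  certNE0 (fam := true) (s1 := false) (s2 := false) (a := 0) (b := 1) (c := 1) (cn := .pnn) (n1 := ndB0q0) (n2 := ndB4q1) (pc := pcB1) (cut := cut_mm_011_s) (xt := Ext.none) (P1 := 0) (W1 := 536870912) (P2 := 536870912) (W2 := 536870912) (P3 := 818728140) (W3 := 40265320) (N0 := 3) (En := eng) (mo := mog) (C1 := cd0q0) (C2 := cd4q1) (C3 := pd1)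
    rfl k0_mm_011_s

noncomputable def cut_mm_012_s : Cut := Cut.of [[⟨4, 0, 0, 1449551462⟩]]

noncomputable def f_mm_012_s : ℕ → ℕ → ℕ → ℕ → Bool := onCell 0 536870912 536870912 536870912 818728140 40265320
    (rowNE 3 eng mog cd0q0 cd4q1 pd2 0 true false false .pnp 0 1 2 (qsf 0 536870912 536870912 536870912 2) ndB0q0 ndB4q1 pcB2 cut_mm_012_s Ext.none)

def k0_mm_012_s : ∃ t, chk3 f_mm_012_s t 1 1 1 = true :=
  ⟨(l 4), by decide +kernel⟩

theorem c_mm_012_s : CertNE 0 536870912 536870912 536870912 818728140 40265320 3 eng mog cd0q0 cd4q1 pd2 true false false .pnp 0 1 2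
    ndB0q0 ndB4q1 pcB2 cut_mm_012_s Ext.none :=
  certNE0 (fam := true) (s1 := false) (s2 := false) (a := 0) (b := 1) (c := 2) (cn := .pnp) (n1 := ndB0q0) (n2 := ndB4q1) (pc := pcB2) (cut := cut_mm_012_s) (xt := Ext.none) (P1 := 0) (W1 := 536870912) (P2 := 536870912) (W2 := 536870912) (P3 := 818728140) (W3 := 40265320) (N0 := 3) (En := eng) (mo := mog) (C1 := cd0q0) (C2 := cd4q1) (C3 := pd2)
    rfl k0_mm_012_s

noncomputable def cut_mm_022_s : Cut := Cut.of [[⟨4, 0, 0, 1449551462⟩]]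

noncomputable def f_mm_022_s : ℕ → ℕ → ℕ → ℕ → Bool := onCell 0 536870912 1073741824 536870912 818728140 40265320
    (rowNE 3 eng mog cd0q0 cd4q2 pd2 0 true false false .pp 0 2 2 (qsf 0 536870912 1073741824 536870912 2) ndB0q0 ndB4q2 pcB2 cut_mm_022_s Ext.none)

def k0_mm_022_s : ∃ t, chk3 f_mm_022_s t 1 1 1 = true :=
  ⟨(l 4), by decide +kernel⟩

theorem c_mm_022_s : CertNE 0 536870912 1073741824 536870912 818728140 40265320 3 eng mog cd0q0 cd4q2 pd2 true false false .pp 0 2 2
    ndB0q0 ndB4q2 pcB2 cut_mm_022_s Ext.none :=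
  certNE0 (fam := true) (s1 := false) (s2 := false) (a := 0) (b := 2) (c := 2) (cn := .pp) (n1 := ndB0q0) (n2 := ndB4q2) (pc := pcB2) (cut := cut_mm_022_s) (xt := Ext.none) (P1 := 0) (W1 := 536870912) (P2 := 1073741824) (W2 := 536870912) (P3 := 818728140) (W3 := 40265320) (N0 := 3) (En := eng) (mo := mog) (C1 := cd0q0) (C2 := cd4q2) (C3 := pd2)
    rfl k0_mm_022_s

noncomputable def cut_mm_023_s : Cut := Cut.of [[⟨4, 0, 0, 1449551462⟩]]

noncomputable def f_mm_023_s : ℕ → ℕ → ℕ → ℕ → Bool := onCell 0 536870912 1073741824 536870912 818728140 40265320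
    (rowNE 3 eng mog cd0q0 cd4q2 pd3 0 true false false .up 0 2 3 (qsf 0 536870912 1073741824 536870912 3) ndB0q0 ndB4q2 pcB3 cut_mm_023_s Ext.none)

def k0_mm_023_s : ∃ t, chk3 f_mm_023_s t 1 1 1 = true :=
  ⟨(l 4), by decide +kernel⟩

theorem c_mm_023_s : CertNE 0 536870912 1073741824 536870912 818728140 40265320 3 eng mog cd0q0 cd4q2 pd3 true false false .up 0 2 3
    ndB0q0 ndB4q2 pcB3 cut_mm_023_s Ext.none :=
  certNE0 (fam := true) (s1 := false) (s2 := false) (a := 0) (b := 2) (c := 3) (cn := .up) (n1 := ndB0q0) (n2 := ndB4q2) (pc := pcB3) (cut := cut_mm_023_s) (xt := Ext.none) (P1 := 0) (W1 := 536870912) (P2 := 1073741824) (W2 := 536870912) (P3 := 818728140) (W3 := 40265320) (N0 := 3) (En := eng) (mo := mog) (C1 := cd0q0) (C2 := cd4q2) (C3 := pd3)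
    rfl k0_mm_023_s

noncomputable def cut_mm_033_s : Cut := Cut.of [[⟨4, 0, 0, 1449551462⟩]]

noncomputable def f_mm_033_s : ℕ → ℕ → ℕ → ℕ → Bool := onCell 0 536870912 0 1230186008 818728140 40265320
    (rowNE 3 eng mog cd0q0 cd4q3 pd3 0 true false false .pnn 0 3 3 (qsf 0 536870912 0 1230186008 3) ndB0q0 ndB4q3 pcB3 cut_mm_033_s Ext.none)

def k0_mm_033_s : ∃ t, chk3 f_mm_033_s t 1 1 1 = true :=
  ⟨(l 4), by decide +kernel⟩

theorem c_mm_033_s : CertNE 0 536870912 0 1230186008 818728140 40265320 3 eng mog cd0q0 cd4q3 pd3 true false false .pnn 0 3 3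
    ndB0q0 ndB4q3 pcB3 cut_mm_033_s Ext.none :=
  certNE0 (fam := true) (s1 := false) (s2 := false) (a := 0) (b := 3) (c := 3) (cn := .pnn) (n1 := ndB0q0) (n2 := ndB4q3) (pc := pcB3) (cut := cut_mm_033_s) (xt := Ext.none) (P1 := 0) (W1 := 536870912) (P2 := 0) (W2 := 1230186008) (P3 := 818728140) (W3 := 40265320) (N0 := 3) (En := eng) (mo := mog) (C1 := cd0q0) (C2 := cd4q3) (C3 := pd3)
    rfl k0_mm_033_s

noncomputable def cut_mm_101_s : Cut := Cut.of [[⟨4, 0, 0, 1449551462⟩]]

noncomputable def f_mm_101_s : ℕ → ℕ → ℕ → ℕ → Bool := onCell 536870912 536870912 0 536870912 818728140 40265320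
    (rowNE 3 eng mog cd0q1 cd4q0 pd1 0 true false false .npn 1 0 1 (qsf 536870912 536870912 0 536870912 1) ndB0q1 ndB4q0 pcB1 cut_mm_101_s Ext.none)

def k0_mm_101_s : ∃ t, chk3 f_mm_101_s t 1 1 1 = true :=
  ⟨(l 4), by decide +kernel⟩

theorem c_mm_101_s : CertNE 536870912 536870912 0 536870912 818728140 40265320 3 eng mog cd0q1 cd4q0 pd1 true false false .npn 1 0 1
    ndB0q1 ndB4q0 pcB1 cut_mm_101_s Ext.none :=
  certNE0 (fam := true) (s1 := false) (s2 := false) (a := 1) (b := 0) (c := 1) (cn := .npn) (n1 := ndB0q1) (n2 := ndB4q0) (pc := pcB1) (cut := cut_mm_101_s) (xt := Ext.none) (P1 := 536870912) (W1 := 536870912) (P2 := 0) (W2 := 536870912) (P3 := 818728140) (W3 := 40265320) (N0 := 3) (En := eng) (mo := mog) (C1 := cd0q1) (C2 := cd4q0) (C3 := pd1)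
    rfl k0_mm_101_s

noncomputable def cut_mm_102_s : Cut := Cut.of [[⟨4, 0, 0, 1449551462⟩]]

noncomputable def f_mm_102_s : ℕ → ℕ → ℕ → ℕ → Bool := onCell 536870912 536870912 0 536870912 818728140 40265320
    (rowNE 3 eng mog cd0q1 cd4q0 pd2 0 true false false .npp 1 0 2 (qsf 536870912 536870912 0 536870912 2) ndB0q1 ndB4q0 pcB2 cut_mm_102_s Ext.none)

def k0_mm_102_s : ∃ t, chk3 f_mm_102_s t 1 1 1 = true :=
  ⟨(l 4), by decide +kernel⟩

theorem c_mm_102_s : CertNE 536870912 536870912 0 536870912 818728140 40265320 3 eng mog cd0q1 cd4q0 pd2 true false false .npp 1 0 2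
    ndB0q1 ndB4q0 pcB2 cut_mm_102_s Ext.none :=
  certNE0 (fam := true) (s1 := false) (s2 := false) (a := 1) (b := 0) (c := 2) (cn := .npp) (n1 := ndB0q1) (n2 := ndB4q0) (pc := pcB2) (cut := cut_mm_102_s) (xt := Ext.none) (P1 := 536870912) (W1 := 536870912) (P2 := 0) (W2 := 536870912) (P3 := 818728140) (W3 := 40265320) (N0 := 3) (En := eng) (mo := mog) (C1 := cd0q1) (C2 := cd4q0) (C3 := pd2)
    rfl k0_mm_102_s

noncomputable def cut_mm_112_s : Cut := Cut.of [[⟨4, 0, 0, 1449551462⟩]]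

noncomputable def f_mm_112_s : ℕ → ℕ → ℕ → ℕ → Bool := onCell 536870912 536870912 536870912 536870912 818728140 40265320
    (rowNE 3 eng mog cd0q1 cd4q1 pd2 0 true false false .dn 1 1 2 (qsf 536870912 536870912 536870912 536870912 2) ndB0q1 ndB4q1 pcB2 cut_mm_112_s Ext.none)

def k0_mm_112_s : ∃ t, chk3 f_mm_112_s t 1 1 1 = true :=
  ⟨(l 4), by decide +kernel⟩

theorem c_mm_112_s : CertNE 536870912 536870912 536870912 536870912 818728140 40265320 3 eng mog cd0q1 cd4q1 pd2 true false false .dn 1 1 2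
    ndB0q1 ndB4q1 pcB2 cut_mm_112_s Ext.none :=
  certNE0 (fam := true) (s1 := false) (s2 := false) (a := 1) (b := 1) (c := 2) (cn := .dn) (n1 := ndB0q1) (n2 := ndB4q1) (pc := pcB2) (cut := cut_mm_112_s) (xt := Ext.none) (P1 := 536870912) (W1 := 536870912) (P2 := 536870912) (W2 := 536870912) (P3 := 818728140) (W3 := 40265320) (N0 := 3) (En := eng) (mo := mog) (C1 := cd0q1) (C2 := cd4q1) (C3 := pd2)
    rfl k0_mm_112_s

noncomputable def cut_mm_113_s : Cut := Cut.of [[⟨4, 0, 0, 1449551462⟩]]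

noncomputable def f_mm_113_s : ℕ → ℕ → ℕ → ℕ → Bool := onCell 536870912 536870912 536870912 536870912 818728140 40265320
    (rowNE 3 eng mog cd0q1 cd4q1 pd3 0 true false false .nn 1 1 3 (qsf 536870912 536870912 536870912 536870912 3) ndB0q1 ndB4q1 pcB3 cut_mm_113_s Ext.none)

def k0_mm_113_s : ∃ t, chk3 f_mm_113_s t 1 1 1 = true :=
  ⟨(l 4), by decide +kernel⟩

theorem c_mm_113_s : CertNE 536870912 536870912 536870912 536870912 818728140 40265320 3 eng mog cd0q1 cd4q1 pd3 true false false .nn 1 1 3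
    ndB0q1 ndB4q1 pcB3 cut_mm_113_s Ext.none :=
  certNE0 (fam := true) (s1 := false) (s2 := false) (a := 1) (b := 1) (c := 3) (cn := .nn) (n1 := ndB0q1) (n2 := ndB4q1) (pc := pcB3) (cut := cut_mm_113_s) (xt := Ext.none) (P1 := 536870912) (W1 := 536870912) (P2 := 536870912) (W2 := 536870912) (P3 := 818728140) (W3 := 40265320) (N0 := 3) (En := eng) (mo := mog) (C1 := cd0q1) (C2 := cd4q1) (C3 := pd3)
    rfl k0_mm_113_s

noncomputable def cut_mm_123_s : Cut := Cut.of [[⟨4, 0, 0, 1449551462⟩]]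

noncomputable def f_mm_123_s : ℕ → ℕ → ℕ → ℕ → Bool := onCell 536870912 536870912 1073741824 536870912 818728140 40265320
    (rowNE 3 eng mog cd0q1 cd4q2 pd3 0 true false false .npn 1 2 3 (qsf 536870912 536870912 1073741824 536870912 3) ndB0q1 ndB4q2 pcB3 cut_mm_123_s Ext.none)

def k0_mm_123_s : ∃ t, chk3 f_mm_123_s t 1 1 1 = true :=
  ⟨(l 4), by decide +kernel⟩

theorem c_mm_123_s : CertNE 536870912 536870912 1073741824 536870912 818728140 40265320 3 eng mog cd0q1 cd4q2 pd3 true false false .npn 1 2 3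
    ndB0q1 ndB4q2 pcB3 cut_mm_123_s Ext.none :=
  certNE0 (fam := true) (s1 := false) (s2 := false) (a := 1) (b := 2) (c := 3) (cn := .npn) (n1 := ndB0q1) (n2 := ndB4q2) (pc := pcB3) (cut := cut_mm_123_s) (xt := Ext.none) (P1 := 536870912) (W1 := 536870912) (P2 := 1073741824) (W2 := 536870912) (P3 := 818728140) (W3 := 40265320) (N0 := 3) (En := eng) (mo := mog) (C1 := cd0q1) (C2 := cd4q2) (C3 := pd3)
    rfl k0_mm_123_s

noncomputable def cut_mm_133_s : Cut := Cut.of [[⟨4, 0, 0, 1449551462⟩]]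

noncomputable def f_mm_133_s : ℕ → ℕ → ℕ → ℕ → Bool := onCell 536870912 536870912 0 1230186008 818728140 40265320
    (rowNE 3 eng mog cd0q1 cd4q3 pd3 0 true false false .dn 1 3 3 (qsf 536870912 536870912 0 1230186008 3) ndB0q1 ndB4q3 pcB3 cut_mm_133_s Ext.none)

def k0_mm_133_s : ∃ t, chk3 f_mm_133_s t 1 1 1 = true :=
  ⟨(l 4), by decide +kernel⟩

theorem c_mm_133_s : CertNE 536870912 536870912 0 1230186008 818728140 40265320 3 eng mog cd0q1 cd4q3 pd3 true false false .dn 1 3 3
    ndB0q1 ndB4q3 pcB3 cut_mm_133_s Ext.none :=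
  certNE0 (fam := true) (s1 := false) (s2 := false) (a := 1) (b := 3) (c := 3) (cn := .dn) (n1 := ndB0q1) (n2 := ndB4q3) (pc := pcB3) (cut := cut_mm_133_s) (xt := Ext.none) (P1 := 536870912) (W1 := 536870912) (P2 := 0) (W2 := 1230186008) (P3 := 818728140) (W3 := 40265320) (N0 := 3) (En := eng) (mo := mog) (C1 := cd0q1) (C2 := cd4q3) (C3 := pd3)
    rfl k0_mm_133_s

noncomputable def cut_mm_202_s : Cut := Cut.of [[⟨4, 0, 0, 1449551462⟩]]

noncomputable def f_mm_202_s : ℕ → ℕ → ℕ → ℕ → Bool := onCell 0 536870912 0 536870912 818728140 40265320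
    (rowNE 3 eng mog cd0q2 cd4q0 pd2 0 true false false .pp 2 0 2 (qsf 0 536870912 0 536870912 2) ndB0q2 ndB4q0 pcB2 cut_mm_202_s Ext.none)

def k0_mm_202_s : ∃ t, chk3 f_mm_202_s t 1 1 1 = true :=
  ⟨(l 4), by decide +kernel⟩

theorem c_mm_202_s : CertNE 0 536870912 0 536870912 818728140 40265320 3 eng mog cd0q2 cd4q0 pd2 true false false .pp 2 0 2
    ndB0q2 ndB4q0 pcB2 cut_mm_202_s Ext.none :=
  certNE0 (fam := true) (s1 := false) (s2 := false) (a := 2) (b := 0) (c := 2) (cn := .pp) (n1 := ndB0q2) (n2 := ndB4q0) (pc := pcB2) (cut := cut_mm_202_s) (xt := Ext.none) (P1 := 0) (W1 := 536870912) (P2 := 0) (W2 := 536870912) (P3 := 818728140) (W3 := 40265320) (N0 := 3) (En := eng) (mo := mog) (C1 := cd0q2) (C2 := cd4q0) (C3 := pd2)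
    rfl k0_mm_202_s

noncomputable def cut_mm_203_s : Cut := Cut.of [[⟨4, 0, 0, 1449551462⟩]]

noncomputable def f_mm_203_s : ℕ → ℕ → ℕ → ℕ → Bool := onCell 0 536870912 0 536870912 818728140 40265320
    (rowNE 3 eng mog cd0q2 cd4q0 pd3 0 true false false .up 2 0 3 (qsf 0 536870912 0 536870912 3) ndB0q2 ndB4q0 pcB3 cut_mm_203_s Ext.none)

def k0_mm_203_s : ∃ t, chk3 f_mm_203_s t 1 1 1 = true :=
  ⟨(l 4), by decide +kernel⟩

theorem c_mm_203_s : CertNE 0 536870912 0 536870912 818728140 40265320 3 eng mog cd0q2 cd4q0 pd3 true false false .up 2 0 3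
    ndB0q2 ndB4q0 pcB3 cut_mm_203_s Ext.none :=
  certNE0 (fam := true) (s1 := false) (s2 := false) (a := 2) (b := 0) (c := 3) (cn := .up) (n1 := ndB0q2) (n2 := ndB4q0) (pc := pcB3) (cut := cut_mm_203_s) (xt := Ext.none) (P1 := 0) (W1 := 536870912) (P2 := 0) (W2 := 536870912) (P3 := 818728140) (W3 := 40265320) (N0 := 3) (En := eng) (mo := mog) (C1 := cd0q2) (C2 := cd4q0) (C3 := pd3)
    rfl k0_mm_203_s

noncomputable def cut_mm_213_s : Cut := Cut.of [[⟨4, 0, 0, 1449551462⟩]]

noncomputable def f_mm_213_s : ℕ → ℕ → ℕ → ℕ → Bool := onCell 0 536870912 536870912 536870912 818728140 40265320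
    (rowNE 3 eng mog cd0q2 cd4q1 pd3 0 true false false .pnn 2 1 3 (qsf 0 536870912 536870912 536870912 3) ndB0q2 ndB4q1 pcB3 cut_mm_213_s Ext.none)

def k0_mm_213_s : ∃ t, chk3 f_mm_213_s t 1 1 1 = true :=
  ⟨(l 4), by decide +kernel⟩

theorem c_mm_213_s : CertNE 0 536870912 536870912 536870912 818728140 40265320 3 eng mog cd0q2 cd4q1 pd3 true false false .pnn 2 1 3
    ndB0q2 ndB4q1 pcB3 cut_mm_213_s Ext.none :=
  certNE0 (fam := true) (s1 := false) (s2 := false) (a := 2) (b := 1) (c := 3) (cn := .pnn) (n1 := ndB0q2) (n2 := ndB4q1) (pc := pcB3) (cut := cut_mm_213_s) (xt := Ext.none) (P1 := 0) (W1 := 536870912) (P2 := 536870912) (W2 := 536870912) (P3 := 818728140) (W3 := 40265320) (N0 := 3) (En := eng) (mo := mog) (C1 := cd0q2) (C2 := cd4q1) (C3 := pd3)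
    rfl k0_mm_213_s

end Pool.Agent.Strip051.G.I7625_8000.Tab.CS.BA04

namespace Pool.Agent.Strip051.G.I7625_8000.Tab.CS.BB00

open Pool.Agent.Strip051.PB Pool.Agent.Strip051.PB.T
open Pool.Agent.Strip051.G.I7625_8000.Tab

noncomputable def cut_pp_001_s : Cut := Cut.of [[⟨4, 0, 0, 1449551462⟩]]

noncomputable def f_pp_001_s : ℕ → ℕ → ℕ → ℕ → Bool := onCell 0 536870912 0 536870912 818728140 40265320
    (rowNE 3 eng mog cd0q0 cd0q1 pd0 1 false true true .up 0 0 1 (qsf 0 536870912 536870912 536870912 0) ndB0q0 ndB0q1 pcB0 cut_pp_001_s Ext.none)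

def k0_pp_001_s : ∃ t, chk3 f_pp_001_s t 1 1 1 = true :=
  ⟨(l 3), by decide +kernel⟩

theorem c_pp_001_s : CertNE 0 536870912 536870912 536870912 818728140 40265320 3 eng mog cd0q0 cd0q1 pd0 false true true .up 0 0 1
    ndB0q0 ndB0q1 pcB0 cut_pp_001_s Ext.none :=
  certNE1 (fam := false) (s1 := true) (s2 := true) (a := 0) (b := 0) (c := 1) (cn := .up) (n1 := ndB0q0) (n2 := ndB0q1) (pc := pcB0) (cut := cut_pp_001_s) (xt := Ext.none) (P1 := 0) (W1 := 536870912) (P2 := 536870912) (W2 := 536870912) (P3 := 818728140) (W3 := 40265320) (N0 := 3) (En := eng) (mo := mog) (C1 := cd0q0) (C2 := cd0q1) (C3 := pd0)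
    rfl (fun _ => rfl) k0_pp_001_s

noncomputable def cut_pp_001_t : Cut := Cut.of [[⟨3, 0, 0, 2845415833⟩]]

noncomputable def f_pp_001_t : ℕ → ℕ → ℕ → ℕ → Bool := onCell 0 536870912 536870912 536870912 818728140 40265320
    (rowNE 3 eng mog cd0q0 cd0q1 pd0 0 false true true .up 0 0 1 (qsf 0 536870912 536870912 536870912 0) ndB0q0 ndB0q1 pcB0 cut_pp_001_t Ext.none)

def k0_pp_001_t : ∃ t, chk3 f_pp_001_t t 1 1 1 = true :=
  ⟨(l 6), by decide +kernel⟩

theorem c_pp_001_t : CertNE 0 536870912 536870912 536870912 818728140 40265320 3 eng mog cd0q0 cd0q1 pd0 false true true .up 0 0 1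
    ndB0q0 ndB0q1 pcB0 cut_pp_001_t Ext.none :=
  certNE0 (fam := false) (s1 := true) (s2 := true) (a := 0) (b := 0) (c := 1) (cn := .up) (n1 := ndB0q0) (n2 := ndB0q1) (pc := pcB0) (cut := cut_pp_001_t) (xt := Ext.none) (P1 := 0) (W1 := 536870912) (P2 := 536870912) (W2 := 536870912) (P3 := 818728140) (W3 := 40265320) (N0 := 3) (En := eng) (mo := mog) (C1 := cd0q0) (C2 := cd0q1) (C3 := pd0)
    rfl k0_pp_001_t

noncomputable def cut_pp_011_s : Cut := Cut.of [[⟨4, 0, 0, 1449551462⟩], [⟨0, 0, 0, 67108864⟩, ⟨1, 1, 0, 67108864⟩, ⟨2, 1, 0, 67108864⟩]]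

noncomputable def f_pp_011_s : ℕ → ℕ → ℕ → ℕ → Bool := onCell 536870912 536870912 536870912 536870912 818728140 40265320
    (rowNE 3 eng mog cd0q0 cd0q1 pd1 2 false true true .pnn 0 1 1 (qsf 0 536870912 536870912 536870912 1) ndB0q0 ndB0q1 pcB1 cut_pp_011_s Ext.none)

def k0_pp_011_s : ∃ t, chk3 f_pp_011_s t 1 1 1 = true :=
  ⟨(a (l 3) (b (l 3) (a (l 3) (b (l 3) (b (l 3) (a (l 3) (b (l 3) (a (l 3) (l 14))))))))), by decide +kernel⟩

theorem c_pp_011_s : CertNE 0 536870912 536870912 536870912 818728140 40265320 3 eng mog cd0q0 cd0q1 pd1 false true true .pnn 0 1 1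
    ndB0q0 ndB0q1 pcB1 cut_pp_011_s Ext.none :=
  certNE2 (fam := false) (s1 := true) (s2 := true) (a := 0) (b := 1) (c := 1) (cn := .pnn) (n1 := ndB0q0) (n2 := ndB0q1) (pc := pcB1) (cut := cut_pp_011_s) (xt := Ext.none) (P1 := 0) (W1 := 536870912) (P2 := 536870912) (W2 := 536870912) (P3 := 818728140) (W3 := 40265320) (N0 := 3) (En := eng) (mo := mog) (C1 := cd0q0) (C2 := cd0q1) (C3 := pd1)
    rfl (fun _ => rfl) k0_pp_011_s

noncomputable def cut_pp_011_t : Cut := Cut.of [[⟨3, 0, 0, 2845415833⟩], [⟨0, 0, 0, 67108864⟩, ⟨1, 1, 0, 67108864⟩, ⟨2, 1, 0, 67108864⟩]]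

noncomputable def f_pp_011_t : ℕ → ℕ → ℕ → ℕ → Bool := onCell 0 536870912 536870912 536870912 818728140 40265320
    (rowNE 3 eng mog cd0q0 cd0q1 pd1 0 false true true .pnn 0 1 1 (qsf 0 536870912 536870912 536870912 1) ndB0q0 ndB0q1 pcB1 cut_pp_011_t Ext.none)

def k0_pp_011_t : ∃ t, chk3 f_pp_011_t t 1 1 1 = true :=
  ⟨(l 6), by decide +kernel⟩

theorem c_pp_011_t : CertNE 0 536870912 536870912 536870912 818728140 40265320 3 eng mog cd0q0 cd0q1 pd1 false true true .pnn 0 1 1
    ndB0q0 ndB0q1 pcB1 cut_pp_011_t Ext.none :=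
  certNE0 (fam := false) (s1 := true) (s2 := true) (a := 0) (b := 1) (c := 1) (cn := .pnn) (n1 := ndB0q0) (n2 := ndB0q1) (pc := pcB1) (cut := cut_pp_011_t) (xt := Ext.none) (P1 := 0) (W1 := 536870912) (P2 := 536870912) (W2 := 536870912) (P3 := 818728140) (W3 := 40265320) (N0 := 3) (En := eng) (mo := mog) (C1 := cd0q0) (C2 := cd0q1) (C3 := pd1)
    rfl k0_pp_011_t

noncomputable def cut_pp_012_s : Cut := Cut.of [[⟨4, 0, 0, 1449551462⟩], [⟨0, 0, 0, 67108864⟩, ⟨1, 1, 0, 67108864⟩, ⟨2, 1, 0, 67108864⟩]]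

noncomputable def f_pp_012_s : ℕ → ℕ → ℕ → ℕ → Bool := onCell 536870912 536870912 0 536870912 818728140 40265320
    (rowNE 3 eng mog cd0q0 cd0q2 pd1 2 false true true .pnp 0 1 2 (qsf 0 536870912 0 536870912 1) ndB0q0 ndB0q2 pcB1 cut_pp_012_s Ext.none)

def k0_pp_012_s : ∃ t, chk3 f_pp_012_s t 2 1 1 = true :=
  ⟨(b (b (a (l 2) (a (a (a (l 2) (b (b (l 16675960) (l 16749904)) (b (b (a (l 2) (l 16770016)) (l 179482633863)) (l 3)))) (a (b (b (l 16702128) (l 16754072)) (b (b (l 16757184) (a (l 81235288503) (l 16769144))) (b (l 185388212727) (l 3)))) (b (c (l 16734600) (l 16721960)) (a (b (l 16752408) (b (c (l 70497890247) (l 16775720)) (l 3))) (b (l 16743800) (b (l 16768144) (l 172503319383))))))) (b (a (a (c (l 16710160) (l 16687080)) (b (l 16662720) (l 16647096))) (a (l 16690864) (l 16674800))) (b (a (a (l 16757944) (l 16717016)) (c (a (l 16683128) (l 16670520)) (l 16696848))) (a (a (a (b (l 16759416) (a (l 80161541367) (l 16783992))) (a (l 16771776) (l 16757136)))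 (c (l 16747264) (l 16746936))) (a (c (l 16732400) (l 16732048)) (l 16740480))))))) (a (l 3) (a (l 3) (b (a (b (a (b (a (l 3) (l 164450258695)) (l 3)) (b (a (b (l 16770936) (l 86067139495)) (l 16766552)) (a (l 3) (c (l 148881006215) (l 100025793735))))) (l 3)) (b (c (a (b (l 16754664) (a (b (l 16769936) (l 16784504)) (l 16765648))) (a (l 16750616) (l 16716848))) (a (b (l 16754456) (l 16769200)) (l 16746440))) (a (b (a (l 200957471095) (c (b (l 16781432) (l 198273126487)) (l 94657081143))) (l 3)) (b (c (c (a (l 16772088) (l 16764400)) (l 16789032)) (l 16767952)) (a (b (l 185925096183) (l 3)) (c (c (l 83382777543) (l 83919658279)) (l 16786224))))))) (l 3))))) (l 3)), by decide +kernel⟩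

def k1_pp_012_s : ∃ t, chk3 f_pp_012_s t 12 2 1 = true :=
  ⟨(a (b (b (c (l 16670520) (l 16637040)) (b (a (l 16657720) (l 16666704)) (c (l 16719280) (l 16697368)))) (b (c (b (a (a (l 16714656) (l 16728352)) (b (l 16711080) (l 16724192))) (a (b (l 16752648) (a (l 16770624) (l 16762816))) (l 16765368))) (b (l 16744840) (a (l 16759384) (l 16743760)))) (b (a (b (b (c (a (l 109152589159) (l 16773328)) (l 73182241271)) (c (l 176261418839) (l 112910699959))) (l 3)) (b (c (a (l 16768968) (l 16761112)) (l 16764760)) (c (a (l 168208358023) (b (l 16771544) (l 79624683671))) (a (l 103783888135) (l 16774600))))) (l 3)))) (b (b (l 16649488) (b (c (l 16608824) (l 16627576)) (l 16698736))) (c (b (a (b (l 16682984) (b (l 16723000) (l 16715144))) (c (l 16736736) (l 16723768))) (b (a (a (l 16770768) (l 16752536)) (l 16762120)) (a (b (a (b (l 67813511511) (l 212231771559)) (b (l 16769544) (c (l 34527523223) (l 16776160)))) (l 212231773495)) (b (l 16766360) (a (b (l 26474458327) (l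 179482650423)) (a (l 16781888) (l 16768808))))))) (a (b (l 16752336) (b (l 16755920) (b (a (l 88214628023) (l 16772696)) (l 211694884967)))) (b (l 16722344) (b (l 16740240) (b (l 16760712) (a (l 69424142503) (l 16770544))))))))), by decide +kernel⟩

def k2_pp_012_s : ∃ t, chk3 f_pp_012_s t 13 2 1 = true :=
  ⟨(b (a (b (l 16621472) (a (l 16670696) (l 16654848))) (a (b (l 16588704) (l 16623488)) (b (l 6) (l 16613592)))) (a (b (a (b (l 16634936) (a (l 16683064) (l 16676200))) (b (l 16664304) (c (l 16667328) (l 16685424)))) (c (a (b (a (l 16709104) (l 16701896)) (a (l 16766728) (l 16769528))) (b (b (l 16705944) (l 16697104)) (c (l 16758288) (l 16736728)))) (a (b (l 16704104) (l 16751752)) (b (l 16688952) (l 16735768))))) (b (b (a (l 16651688) (l 16618672)) (c (a (l 16674912) (l 16662096)) (l 16664032))) (a (a (b (l 16678968) (b (l 16718216) (l 16709952))) (b (l 16692584) (c (l 16697032) (l 16715784)))) (c (b (l 16662904) (a (l 16710704) (l 16703640))) (l 16723888)))))),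 by decide +kernel⟩

def k3_pp_012_s : ∃ t, chk3 f_pp_012_s t 12 6 1 = true :=
  ⟨(b (a (l 3) (b (a (l 3) (a (l 3) (b (c (l 192367545479) (l 199346868007)) (l 3)))) (l 3))) (l 3)), by decide +kernel⟩

def k4_pp_012_s : ∃ t, chk3 f_pp_012_s t 13 12 1 = true :=
  ⟨(b (a (a (b (c (a (b (l 16772952) (a (l 211158036119) (l 61907937447))) (c (l 16768456) (l 16768344))) (a (l 47412431335) (l 16768160))) (a (l 3) (b (a (l 184314491239) (c (l 44191195703) (l 16776344))) (l 3)))) (a (c (b (l 16760424) (b (l 16770464) (a (c (l 82309034023) (l 16776496)) (l 16780376)))) (b (l 16759928) (l 16784088))) (c (b (l 16741944) (l 16770984)) (l 16758584)))) (a (a (c (b (l 16723552) (l 16757688)) (l 16750312)) (c (l 16759064) (l 16742144))) (b (l 16740200) (c (l 16748640) (l 16736744))))) (a (a (l 3) (b (c (a (l 208473682663) (a (b (a (l 88214611831) (l 52244257767)) (l 3)) (b (l 16773784) (l 164450271383)))) (a (l 213842383159) (b (l 16775640) (l 109689460311)))) (l 3))) (c (a (b (a (c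 (b (l 16767752) (a (l 42043711463) (l 16772400))) (l 16781464)) (b (l 16749144) (l 16766264))) (a (b (a (l 3) (c (l 124721825127) (l 75329711879))) (l 3)) (b (c (a (l 16780216) (l 16770944)) (l 16772880)) (a (l 180556402263) (b (l 16778504) (l 137606727799)))))) (a (b (l 16755008) (a (b (l 16766840) (l 16776744)) (l 16770560))) (b (c (l 16731720) (l 16726016)) (c (l 16765512) (l 16760024))))) (a (b (a (l 16770832) (l 16762528)) (a (l 187535716295) (b (l 16772784) (l 68887266903)))) (b (l 16750200) (a (l 16767880) (l 16759632))))))), by decide +kernel⟩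

def k5_pp_012_s : ∃ t, chk3 f_pp_012_s t 13 13 1 = true :=
  ⟨(a (l 3) (b (a (l 3) (b (a (b (c (a (c (b (l 72108482535) (l 3)) (l 104320742711)) (b (l 16774352) (a (l 105931348647) (l 16779256)))) (l 48486170039)) (l 3)) (c (c (b (l 16769952) (a (b (c (l 30232548903) (l 16776848)) (l 174113952071)) (b (l 16772808) (c (l 16778688) (l 16776056))))) (b (l 16769848) (a (l 67276647671) (l 16774400)))) (b (l 16769688) (a (l 16783008) (l 16774336))))) (a (l 3) (b (c (a (l 3) (c (b (a (l 3) (l 82845899191)) (l 3)) (l 170892727799))) (l 182167018343)) (l 3))))) (l 3))), by decide +kernel⟩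

def k6_pp_012_s : ∃ t, chk3 f_pp_012_s t 6 7 1 = true :=
  ⟨(l 3), by decide +kernel⟩

def k7_pp_012_s : ∃ t, chk3 f_pp_012_s t 7 2 1 = true :=
  ⟨(a (b (b (l 6) (a (b (l 16594384) (l 16608872)) (a (l 16593752) (l 6)))) (a (b (b (l 16645048) (a (l 16605920) (l 16616656))) (b (c (l 16690848) (l 16660888)) (a (l 16691936) (l 16700552)))) (b (a (b (l 16612880) (l 16629336)) (b (l 16608392) (l 16623536))) (a (b (l 16648296) (l 16668960)) (b (l 16641344) (l 16660880)))))) (b (l 6) (a (a (b (b (l 16605368) (l 16620448)) (b (l 16636808) (l 16652520))) (b (b (l 6) (l 16603808)) (b (l 16618664) (l 16633792)))) (b (a (b (l 6) (l 16584904)) (l 6)) (a (b (l 16599472) (l 16593640)) (b (l 16538008) (c (l 16592464) (l 16598680)))))))), by decide +kernel⟩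

def k8_pp_012_s : ∃ t, chk3 f_pp_012_s t 28 12 1 = true :=
  ⟨(a (b (c (b (l 16690144) (l 16723376)) (l 16736368)) (c (a (c (b (l 16718920) (l 16752464)) (l 16761584)) (b (l 16716480) (l 16755144))) (a (l 16755688) (l 16737704)))) (c (b (b (l 16676864) (l 16709632)) (b (l 16732096) (a (l 16737272) (l 16730232)))) (b (l 16702192) (a (l 16730592) (l 16723824))))), by decide +kernel⟩

def k9_pp_012_s : ∃ t, chk3 f_pp_012_s t 28 26 1 = true :=
  ⟨(b (a (c (a (c (b (l 16761968) (a (l 16770400) (l 16766384))) (l 16765072)) (c (b (l 16754136) (l 16760448)) (l 16757160))) (a (l 16764848) (l 16756904))) (b (c (a (l 16746472) (l 16739232)) (l 16742432)) (c (a (l 16752680) (l 16745288)) (l 16748600)))) (a (a (a (b (c (c (b (l 16777872) (a (l 183777627559) (c (l 61907931879) (l 16777416)))) (b (l 16775224) (l 79087805047))) (l 16776848)) (l 3)) (c (b (c (c (l 16772832) (l 16772808)) (l 16772776)) (c (b (a (l 146196662455) (l 10368323431)) (l 3)) (l 132238019591))) (b (l 16772696)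 (l 82309035687)))) (c (c (b (a (l 16768800) (l 16764832)) (a (b (l 16773600) (a (a (l 146733532839) (l 59223576391)) (l 16775800))) (l 16771184))) (b (l 16766712) (a (l 16780440) (l 16771128)))) (b (l 16766560) (l 16778328)))) (c (a (c (b (l 16758984) (a (l 16767208) (l 16763296))) (b (l 16758856) (l 16765144))) (c (b (l 16751456) (l 16757568)) (l 16754400))) (a (l 16761840) (l 16754160))))), by decide +kernel⟩

def k10_pp_012_s : ∃ t, chk3 f_pp_012_s t 28 27 1 = true :=
  ⟨(a (b (a (l 3) (b (c (a (b (c (a (l 3) (l 161229048487)) (l 183777628279)) (l 3)) (c (b (a (a (l 68887250247) (l 16776472)) (l 16774944)) (a (l 3) (b (l 61907930551) (l 199346883143)))) (b (l 16775952) (l 149417888583)))) (a (l 193441306871) (l 58686712647))) (l 3))) (l 3)) (b (c (a (b (c (a (b (l 16771928) (a (c (l 16776112) (l 16776112)) (l 16774088))) (l 16769536)) (a (l 16773488) (l 16769472))) (a (b (c (a (l 188072594535) (b (l 16776464) (l 147270403303))) (l 81772159031)) (l 3)) (c (b (l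 16774640) (a (b (c (l 79087799879) (l 16777480)) (l 3)) (a (b (l 16776080) (l 89825217415)) (l 16775864)))) (b (l 16774200) (l 61907928791))))) (c (b (a (l 16765624) (l 16761784)) (a (b (l 16770256) (l 16773360)) (c (l 16767912) (l 16767880)))) (b (l 16763584) (l 16769776)))) (a (b (l 16771376) (a (l 147807276711) (l 16781048))) (b (l 16763400) (l 16769664)))) (a (b (c (a (l 3) (b (c (a (l 3) (l 199883754951)) (l 205252465495)) (l 3))) (l 211158050487)) (l 3)) (a (b (c (c (a (b (b (c (l 16776720) (l 16776712)) (l 162302789191)) (l 3)) (b (l 16776464) (b (c (l 141901693815) (l 91435831191)) (l 3)))) (b (l 1778390695) (l 168208371159))) (b (l 16776488) (l 116668770663))) (l 3)) (b (c (c (b (l 16772496) (a (a (b (l 16776304) (l 107541957831)) (l 16777400)) (l 16774584))) (b (l 16772448) (l 16775584))) (l 16773976)) (b (c (c (a (b (l 209010559543) (l 3)) (a (b (l 74792830295) (l 3)) (b (l 16776400) (l 164450272343)))) (l 147807272455)) (l 95193933127)) (l 3))))))), by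 decide +kernel⟩

def k11_pp_012_s : ∃ t, chk3 f_pp_012_s t 29 12 1 = true :=
  ⟨(b (a (c (l 16712864) (l 16690720)) (c (l 16682776) (l 16681408))) (b (a (a (l 16711648) (l 16705832)) (a (l 16700776) (l 16694904))) (a (a (l 16733904) (l 16717272)) (a (l 16711888) (l 16704432))))), by decide +kernel⟩

def k12_pp_012_s : ∃ t, chk3 f_pp_012_s t 29 26 1 = true :=
  ⟨(a (c (a (b (c (l 16735432) (l 16735272)) (c (b (l 16744288) (l 16750232)) (l 16747120))) (b (l 16728896) (a (l 16744656) (l 16738816)))) (a (b (l 16735016) (l 16746824)) (b (l 16728488) (l 16739888)))) (c (a (b (l 16722552) (c (l 16732792) (l 16733512))) (b (l 16713712) (c (l 16734256) (l 16724752)))) (a (b (l 16722592) (l 16733600)) (b (l 16715568) (l 16726400))))), by decide +kernel⟩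

def k13_pp_012_s : ∃ t, chk3 f_pp_012_s t 29 27 1 = true :=
  ⟨(a (b (c (a (b (a (l 16757968) (l 16754296)) (c (a (l 16764056) (l 16760312)) (l 16762040))) (c (b (l 16749136) (a (l 16756664) (l 16753088))) (b (l 16748912) (l 16754728)))) (a (b (l 16755760) (l 16761824)) (b (l 16748520) (l 16754368)))) (a (c (a (b (c (b (l 16768584) (l 16771624)) (l 16770048)) (c (b (a (c (b (l 16774904) (l 16777768)) (l 16775680)) (l 16773696)) (b (a (c (a (l 212231784359) (l 83919634455)) (l 103783862423)) (l 16775984)) (a (l 3) (c (a (l 173040207047) (l 16778320)) (l 79624670775))))) (b (l 16774664) (a (l 166597757143) (l 16776752))))) (c (a (b (l 16767224) (b (l 16771736) (l 16774768))) (b (l 16765328) (c (l 16771320) (l 16771296)))) (b (l 16766176) (l 16772232)))) (b (l 16767952) (a (a (l 58149834055) (l 16775200)) (l 16772152)))) (c (c (b (a (c (l 16762560) (l 16762496)) (l 16758840)) (a (c (b (l 16766968) (l 16769928)) (l 16768416)) (a (l 16765664) (l 16763632)))) (b (l 16760576)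 (a (l 16768344) (l 16764656)))) (b (l 16760288) (a (l 16768192) (l 16764392)))))) (c (a (b (a (b (l 16743544) (l 16749192)) (b (l 16739232) (l 16744904))) (c (b (a (l 16754656) (l 16750384)) (a (c (l 16760456) (l 16760648)) (c (l 16756224) (l 16756480)))) (b (l 16753120) (a (l 16760960) (l 16756880))))) (b (c (b (l 16732104) (a (l 16729616) (l 16725136))) (l 16735960)) (c (b (c (a (l 16735352) (l 16730952)) (l 16744048)) (a (l 16752120) (a (l 16743680) (l 16741536)))) (b (l 16744696) (l 16750704))))) (a (b (l 16744792) (b (l 16753248) (l 16758944))) (b (b (l 16734752) (l 16740384)) (b (l 16746104) (l 16751880)))))), by decide +kernel⟩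

def k14_pp_012_s : ∃ t, chk3 f_pp_012_s t 15 12 1 = true :=
  ⟨(b (a (a (a (l 16673088) (l 16663912)) (a (l 16654384) (l 16644784))) (a (c (b (l 16623960) (l 16632344)) (l 16633128)) (b (l 16565680) (a (l 16620768) (l 16611576))))) (a (a (c (a (l 16699920) (l 16695664)) (a (l 16691640) (l 16682784))) (b (a (l 16667152) (l 16636672)) (c (a (l 16674968) (l 16665400)) (l 16674120)))) (a (b (a (l 16627344) (l 16639120)) (c (a (l 16656048) (l 16646872)) (l 16635288))) (b (a (l 16630008) (l 16620936)) (c (a (l 16637840) (l 16628888)) (l 16617504)))))), by decide +kernel⟩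

def k15_pp_012_s : ∃ t, chk3 f_pp_012_s t 15 26 1 = true :=
  ⟨(b (a (a (a (c (l 16704376) (l 16706912)) (c (c (l 16673208) (l 16674664)) (l 16698112))) (b (a (l 16663480) (l 16654336)) (c (a (l 16688016) (l 16678736)) (l 16687576)))) (a (c (a (l 16682544) (l 16678808)) (b (l 16643424) (l 16649120))) (c (a (l 16648960) (b (l 16637272) (l 16643112))) (a (l 16654088) (l 16645264))))) (a (a (a (c (b (l 16712304) (l 16717800)) (l 16717880)) (c (b (l 16681936) (c (l 16707816) (l 16709400))) (l 16709208))) (c (a (c (a (l 16697912) (l 16693256)) (l 16676440)) (a (l 16710592) (l 16706088))) (a (l 16700528) (l 16670904)))) (a (c (a (b (l 16675448) (l 16681480)) (c (l 16679032) (l 16670800))) (a (l 16662288) (l 16653680))) (c (a (a (l 16684080) (l 16679744)) (a (l 16675408) (l 16671072))) (a (l 16666008) (l 16657288)))))), by decide +kernel⟩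

def k16_pp_012_s : ∃ t, chk3 f_pp_012_s t 15 27 1 = true :=
  ⟨(b (c (a (a (b (a (a (l 16715312) (l 16710784)) (a (l 16716736) (l 16712208))) (a (c (a (l 16731128) (l 16726624)) (l 16719608)) (a (l 16712304) (l 16707840)))) (a (a (b (l 16707680) (l 16713872)) (b (l 16703176) (l 16709424))) (b (c (l 16695544) (l 16697496)) (a (l 16705016) (l 16700656))))) (a (c (a (a (l 16692120) (l 16687776)) (a (l 16683456) (l 16679168))) (a (b (l 16688792) (l 16695168)) (l 16693872))) (c (a (b (l 16669440) (l 16676128)) (b (l 16660912) (l 16657160))) (a (l 16674840) (l 16666288))))) (a (a (a (l 16729224) (l 16720808)) (a (l 16712320) (l 16703840))) (a (a (l 16674416) (l 16665944)) (a (l 16657424) (b (l 16666624) (l 16672952)))))) (b (c (a (a (a (c (a (b (l 16735704) (l 16738808)) (l 16722344)) (l 16725656)) (c (a (l 16728400) (l 16723960)) (l 16717016))) (a (c (a (l 16719520) (l 16715088)) (l 16708336)) (a (l 16721992) (l 16707200)))) (a (c (a (l 16699928) (l 16701920)) (a (l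 16701704) (l 16693256))) (a (c (l 16693488) (l 16684816)) (a (l 16677552) (l 16673296))))) (a (a (a (l 16737976) (l 16729728)) (a (l 16721392) (l 16713048))) (a (a (l 16683736) (l 16675368)) (a (l 16687904) (l 16679344))))) (a (a (c (c (a (c (a (l 16735480) (l 16733744)) (b (l 16729536) (l 16735352))) (a (b (l 16733232) (l 16736504)) (l 16735744))) (a (l 16742320) (b (l 16721752) (l 16724952)))) (a (l 16743888) (l 16735760))) (a (c (c (a (l 16726128) (l 16721768)) (a (l 16727416) (l 16723144))) (l 16727528)) (c (c (a (l 16717448) (l 16713168)) (l 16706296)) (l 16719264)))) (a (a (c (a (l 16714912) (l 16715952)) (l 16690040)) (c (a (l 16701272) (l 16697088)) (l 16681736))) (a (c (c (l 16690056) (l 16691640)) (l 16673360)) (c (a (l 16684504) (l 16680240)) (l 16664808))))))), by decide +kernel⟩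

def k17_pp_012_s : ∃ t, chk3 f_pp_012_s t 28 14 1 = true :=
  ⟨(l 3), by decide +kernel⟩

def k18_pp_012_s : ∃ t, chk3 f_pp_012_s t 58 28 1 = true :=
  ⟨(b (a (a (l 3) (b (c (a (b (c (a (b (a (l 119889988215) (l 72645345991)) (l 3)) (b (l 16776560) (l 178408916263))) (l 85530247607)) (l 3)) (b (c (a (b (l 16775560) (a (l 76403442423) (l 16776840))) (l 16775336)) (l 16775824)) (c (b (c (a (l 3) (l 147270399975)) (l 163376530727)) (l 3)) (l 175187691895)))) (b (l 16780736) (l 179482660471))) (l 3))) (a (a (b (c (c (b (l 16773856) (a (b (l 16777272) (l 184314496359)) (b (l 16775624) (a (b (l 16777000) (l 161229047655)) (l 16777536))))) (b (l 16773824) (c (l 16779464) (l 16776848)))) (l 16780600)) (l 3)) (b (c (c (b (l 16771936) (c (l 16774912) (l 16774904))) (l 16773384)) (l 16773312)) (b (c (a (b (c (b (l 77477183831) (l 215453009095)) (l 16777504)) (l 3)) (c (b (c (l 16776664) (l 16776664)) (c (l 191293818263) (l 190756947319))) (l 75329703911))) (l 88751478887))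 (l 3)))) (c (b (c (a (b (l 16770056) (l 16773000)) (b (l 16768056) (l 16771048))) (l 16770512)) (b (c (a (b (l 16775192) (a (b (l 16776800) (a (l 215989879655) (l 16777912))) (l 16776192))) (c (l 16774016) (l 16774000))) (l 16776264)) (c (a (b (a (l 3) (c (b (l 80161537127) (l 221358589159)) (l 107005086423))) (l 3)) (b (c (a (b (l 16776328) (l 16777704)) (l 16775728)) (l 16776216)) (a (c (l 195588785575) (l 195051914631)) (b (l 16776832) (a (l 222432330615) (l 86603990343)))))) (a (l 182167013767) (a (l 78014058503) (l 16776472)))))) (b (l 16770368) (b (l 16774904) (a (l 131701152823) (l 16776912))))))) (l 3)), by decide +kernel⟩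

def k19_pp_012_s : ∃ t, chk3 f_pp_012_s t 59 56 1 = true :=
  ⟨(a (c (b (c (a (c (b (l 16764952) (l 16768016)) (l 16766624)) (c (b (l 16760840) (l 16763960)) (l 16762584))) (a (l 16766824) (l 16762872))) (a (c (b (a (l 16771424) (l 16770112)) (c (a (b (l 16774288) (l 16775744)) (l 16773080)) (l 16772736))) (b (l 16771112) (l 16774016))) (c (c (b (l 16767072) (a (l 16771112) (l 16769128))) (b (l 16767192) (l 16770200))) (l 16768832)))) (b (a (l 16766576) (l 16762880)) (a (l 16772456) (l 16768600)))) (c (c (b (a (c (l 16758264) (l 16758496)) (a (l 16755264) (b (l 16751544) (l 16749520)))) (a (c (b (l 16763024) (l 16766128)) (l 16764720)) (c (b (l 16758912) (l 16762072)) (l 16760688)))) (b (a (l 16758856) (l 16754800)) (a (l 16764944) (l 16760976)))) (b (a (l 16759304) (l 16755768)) (a (l 16764864) (l 16761224))))), by decide +kernel⟩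

def k20_pp_012_s : ∃ t, chk3 f_pp_012_s t 118 57 1 = true :=
  ⟨(b (c (a (a (b (a (b (c (a (l 191293817911) (b (l 16777072) (l 223506072455))) (l 16777536)) (l 3)) (c (b (a (b (l 16776592) (l 88751474007)) (l 16776480)) (c (l 199346881959) (l 198810011015))) (l 80698410455))) (l 3)) (b (c (b (l 16774616) (a (c (b (l 16776848) (l 164450271751)) (l 72108476551)) (l 16776248))) (l 16776008)) (c (b (a (l 3) (b (a (l 134385501751) (l 16777744)) (l 3))) (l 3)) (l 188072593751)))) (c (b (c (a (l 16773424) (l 16772128)) (l 16771824)) (a (b (a (a (b (l 16776608) (a (l 126332437655) (l 16777848))) (l 16776496)) (l 16775768)) (a (b (l 192904429799) (l 3)) (c (b (l 16776848) (l 167671495895)) (l 73719086663)))) (c (b (l 16774336) (l 16775616)) (l 16775048)))) (a (b (l 16774048) (b (l 16776248) (l 100025765671))) (l 16773584)))) (a (b (a (l 94120187879) (l 16775984)) (l 191293820439)) (b (l 16772984) (a (l 16779552) (l 16774976))))) (b (a (l 3) (a (l 3) (c (c (a (b (b (a (l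 183240753671) (a (l 74255958951) (l 16776976))) (l 3)) (l 3)) (a (b (c (b (l 16776616) (l 95193923559)) (l 16776960)) (l 3)) (b (l 16776496) (b (l 183240753671) (l 3))))) (b (l 74255955879) (l 219747977191))) (l 98415154983)))) (l 3))), by decide +kernel⟩

def k21_pp_012_s : ∃ t, chk3 f_pp_012_s t 119 57 1 = true :=
  ⟨(c (b (c (a (b (c (a (l 16770160) (l 16768176)) (l 16769256)) (c (a (l 16772464) (l 16771168)) (l 16770888))) (c (b (l 16765168) (a (l 16769192) (l 16767200))) (b (l 16765296) (l 16768288)))) (a (b (l 16769344) (l 16772160)) (l 16765656))) (a (b (c (a (c (b (l 16775304) (a (b (l 16777504) (a (l 229411652455) (l 97341407111))) (l 16776256))) (b (l 16775288) (c (a (l 76940311959) (l 16776248)) (l 16778344)))) (c (b (l 16773368) (l 16774816)) (l 16774104))) (a (b (l 16775264) (l 16776712)) (l 16774064))) (b (c (a (a (l 3) (b (a (l 182703882743) (a (l 72108473991) (l 16776968))) (l 229948523687))) (a (b (l 16776368) (a (b (l 16777136) (l 150491628583))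 (l 16776840))) (l 16775112))) (a (l 178408916247) (l 16776248))) (a (l 3) (b (c (a (c (l 195051914055) (l 152102242311)) (c (a (l 16777720) (l 16776600)) (l 16776832))) (l 16778528)) (c (a (l 3) (a (l 229948523319) (b (l 16777120) (l 148344144919)))) (l 184314496087)))))) (c (c (b (a (l 16771488) (l 16770184)) (a (b (l 16774328) (a (l 16776240) (l 16775280))) (b (l 16772384) (l 16773832)))) (b (l 16770568) (a (l 16775040) (l 16773144)))) (b (l 16771232) (l 16772744))))) (b (a (l 16770584) (l 16766792)) (a (b (l 16774992) (a (l 187535722647) (c (l 16779520) (l 16776904)))) (c (l 16772568) (l 16772488))))), by decide +kernel⟩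

def k22_pp_012_s : ∃ t, chk3 f_pp_012_s t 29 29 1 = true :=
  ⟨(a (l 3) (b (a (l 3) (b (a (l 3) (b (a (a (c (c (b (c (b (a (l 181630140871) (l 16777624)) (l 229411652727)) (l 163376528663)) (l 3)) (l 183777625623)) (l 135996117831)) (c (c (b (b (l 16776344) (a (b (l 16777440) (l 145122919431)) (l 16776824))) (b (c (a (l 3) (l 179482657207)) (l 191830688519)) (l 3))) (b (l 16776704) (l 200420623575))) (l 81772154791))) (c (a (c (b (l 16775416) (a (c (b (c (l 16777528) (l 16777040)) (l 225653555975)) (l 98952020487)) (b (l 16776568) (b (l 16777424) (l 141901693271))))) (l 16778080)) (c (b (l 16774792) (c (l 16776208) (l 16776208))) (l 16775480))) (l 16775960))) (b (c (a (l 3) (c (a (l 3) (c (b (a (l 176798302615) (b (l 16776856) (l 16777560))) (l 219747976247)) (b (l 86067119543) (l 227801039911)))) (l 177335174295))) (l 190756947015)) (l 3)))) (l 3))) (l 3))), by decide +kernel⟩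

def k23_pp_012_s : ∃ t, chk3 f_pp_012_s t 14 15 1 = true :=
  ⟨(l 3), by decide +kernel⟩

def k24_pp_012_s : ∃ t, chk3 f_pp_012_s t 60 28 1 = true :=
  ⟨(c (b (b (b (a (c (a (l 16743128) (l 16738864)) (l 16747032)) (c (a (l 16739816) (l 16735512)) (l 16728168))) (a (a (a (l 16752976) (l 16745656)) (a (l 16743568) (l 16741472))) (c (a (l 16737920) (l 16738888)) (l 16731416)))) (a (c (c (a (l 16756368) (b (l 16745320) (l 16748576))) (a (l 16756600) (a (l 16748264) (l 16746192)))) (a (l 16756960) (l 16752904))) (c (a (c (a (l 16743800) (l 16741696)) (b (l 16746672) (l 16749928))) (b (l 16737024) (c (l 16745424) (l 16745752)))) (a (l 16748808) (l 16734192))))) (a (b (c (b (a (c (l 16761112) (l 16761280)) (l 16757112)) (a (c (l 16764192) (l 16764320)) (c (l 16760136) (l 16760304)))) (a (l 16763032) (l 16759056))) (c (a (c (b (a (l 16768208) (l 16766216)) (a (l 16770504) (l 16769192))) (b (l 16767304) (l 16769584))) (c (b (l 16763200) (a (l 16767208) (l 16765208))) (b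 (l 16763328) (l 16766304)))) (a (b (l 16767448) (l 16770288)) (l 16763688)))) (b (c (c (a (l 16754792) (b (l 16743456) (l 16746664))) (a (l 16754680) (a (l 16746352) (l 16744288)))) (a (l 16755032) (l 16750976))) (c (b (a (a (l 16760240) (l 16754272)) (l 16755144)) (a (c (l 16762192) (l 16762320)) (a (l 16759224) (l 16753264)))) (a (l 16761056) (l 16757064)))))) (b (a (b (a (l 16751840) (l 16747864)) (a (l 16757680) (l 16753856))) (b (l 16741848) (a (l 16749912) (l 16745928)))) (a (b (a (l 16763096) (l 16759488)) (a (l 16767376) (l 16764944))) (b (a (l 16755816) (l 16751888)) (a (l 16761288) (l 16757688)))))), by decide +kernel⟩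

def k25_pp_012_s : ∃ t, chk3 f_pp_012_s t 61 28 1 = true :=
  ⟨(c (b (a (c (b (a (b (l 16731192) (l 16734608)) (b (l 16726880) (l 16730328))) (c (a (b (l 16737816) (l 16741192)) (l 16739192)) (a (l 16729416) (l 16735688)))) (a (b (l 16723488) (l 16730040)) (b (l 16729752) (l 16725880)))) (a (b (c (l 16729600) (l 16725560)) (c (b (l 16729560) (l 16732968)) (l 16721736))) (c (b (l 16720128) (b (l 16725376) (l 16728816))) (b (l 16721384) (l 16728104))))) (a (b (a (b (a (l 16740776) (l 16738696)) (c (b (l 16741832) (l 16743424)) (l 16737960))) (c (b (l 16735224) (c (l 16743568) (l 16743872))) (l 16732296))) (c (b (c (a (l 16745672) (l 16746784)) (l 16749096)) (a (a (l 16752536) (l 16747864)) (c (l 16744688) (l 16744912)))) (a (l 16753032) (l 16748984)))) (b (a (c (b (l 16736312) (l 16734344)) (l 16728208)) (c (b (l 16732184) (l 16735488)) (l 16724136))) (a (a (b (l 16738872) (l 16741984)) (b (l 16736840) (l 16739960))) (c (b (l 16733488) (l 16736672)) (l 16730432))))))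 (b (a (b (l 16733720) (l 16738584)) (b (l 16725552) (l 16731816))) (a (b (a (l 16747920) (l 16743928)) (a (l 16753776) (l 16749832))) (b (a (l 16739928) (l 16735928)) (a (l 16745872) (l 16741912)))))), by decide +kernel⟩

def k26_pp_012_s : ∃ t, chk3 f_pp_012_s t 120 116 1 = true :=
  ⟨(c (a (c (b (b (c (a (l 16773336) (l 16771384)) (l 16772400)) (c (a (l 16774112) (l 16772832)) (l 16772848))) (a (b (c (a (a (b (l 16776552) (b (l 16777080) (l 139754210199))) (l 16776432)) (l 16775712)) (a (l 16777312) (l 16775712))) (b (a (c (a (l 3) (b (l 103246988119) (l 3))) (l 188072592071)) (a (a (b (l 16776952) (l 113984406119)) (l 16776896)) (l 16776536))) (a (l 3) (a (l 211694912199) (b (l 16777464) (a (l 3) (l 111836922439))))))) (c (b (l 16773608) (a (l 16776008) (l 16775208))) (l 16774336)))) (b (l 16771776) (a (b (l 16776192) (a (l 198273139863) (l 16778392))) (l 16774960)))) (c (b (c (a (l 16770152) (l 16768176)) (l 16768576)) (c (a (b (l 16772320) (l 16773104)) (b (l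 16770368) (l 16771808))) (a (l 16773072) (l 16771136)))) (b (l 16769336) (l 16770800)))) (a (a (b (l 16773960) (a (l 81235283815) (l 16776424))) (l 16773464)) (c (l 16770624) (l 16770496)))), by decide +kernel⟩

def k27_pp_012_s : ∃ t, chk3 f_pp_012_s t 120 117 1 = true :=
  ⟨(a (a (l 3) (b (c (c (b (a (a (b (a (l 206326202887) (b (l 16777160) (l 3))) (l 3)) (a (b (b (l 16776936) (l 102173246087)) (l 3)) (b (l 16776872) (l 203641848311)))) (b (l 16775944) (a (b (l 16777384) (a (l 3) (l 97341407207))) (l 16776736)))) (a (l 3) (b (a (l 3) (a (l 201494364631) (b (l 16777136) (l 231559135623)))) (l 3)))) (b (a (l 109152569847) (l 16776624)) (l 204178720455))) (b (l 16779664) (l 201494365831))) (l 3))) (b (c (c (a (b (c (a (l 16775664) (l 16774704)) (l 16775192)) (c (a (b (a (b (l 16776784) (l 16777536)) (l 16776488)) (a (l 205252461175) (a (b (l 16777128) (l 187535721159)) (l 16777512)))) (l 16775792)) (a (a (b (l 16776952) (l 168208368967)) (l 16777480)) (l 16776120))))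 (c (b (l 16772592) (c (l 16774336) (l 16774680))) (l 16772672))) (a (b (l 16775168) (a (l 16778344) (l 16776104))) (l 16773960))) (a (l 16775872) (l 16773880))) (b (c (a (a (l 3) (c (a (b (a (c (l 196125655479) (l 157470950423)) (b (l 16777112) (l 179482657495))) (l 3)) (c (b (b (l 16776760) (l 16777504)) (b (l 188609462599) (l 3))) (b (l 16776928) (l 163913401623)))) (l 105394470743))) (c (a (b (l 16775888) (a (a (b (l 16777096) (l 171966464743)) (c (l 16777440) (l 16777032))) (l 16776680))) (c (l 16775608) (l 16775608))) (l 16776088))) (a (l 126332440551) (l 16776056))) (a (l 3) (c (c (b (a (c (a (l 3) (a (l 189683204487) (b (l 16777080) (l 168208368295)))) (l 177335173639)) (a (a (c (l 16777344) (l 16777016)) (l 16776784)) (l 16776424))) (a (l 3) (c (a (b (l 180556398871) (l 3)) (a (b (l 16777064) (l 162839659143)) (l 16777328))) (c (l 100025761991) (l 98952021479))))) (a (l 191293817815) (l 16778120))) (l 90362086551)))))), by decide +kernel⟩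

def k28_pp_012_s : ∃ t, chk3 f_pp_012_s t 121 58 1 = true :=
  ⟨(c (c (b (a (b (c (a (l 16766184) (l 16764184)) (l 16765288)) (c (a (l 16769120) (l 16767144)) (l 16767552))) (c (b (l 16761168) (a (l 16765152) (l 16763144))) (b (l 16761296) (l 16764248)))) (a (b (c (a (b (l 16771296) (l 16772728)) (b (l 16769328) (l 16770776))) (a (l 16772048) (l 16770104))) (a (c (b (c (l 16773824) (l 16774160)) (a (l 16775728) (l 16775088))) (c (l 16773568) (l 16774880))) (c (b (l 16772208) (c (l 16772968) (l 16773640))) (l 16771640)))) (b (c (a (l 16768080) (l 16766088)) (l 16766504)) (c (a (b (l 16770248) (l 16771680)) (l 16768664)) (a (l 16771008) (l 16769048)))))) (b (a (b (l 16765440) (l 16768320)) (b (l 16761504) (l 16764408))) (a (b (l 16769816) (a (l 16774856) (l 16772952))) (b (l 16767280) (l 16768800))))) (b (a (c (l 16766864) (l 16766664)) (l 16761744)) (a (b (l 16770968) (l 16771200)) (c (l 16766016) (l 16768480))))), by decide +kernel⟩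

def k29_pp_012_s : ∃ t, chk3 f_pp_012_s t 120 59 1 = true :=
  ⟨(l 3), by decide +kernel⟩

def k30_pp_012_s : ∃ t, chk3 f_pp_012_s t 242 118 1 = true :=
  ⟨(b (c (a (a (b (a (c (b (c (b (a (l 109689438775) (l 16777048)) (l 203641848231)) (l 104857601111)) (l 3)) (l 136532985895)) (c (c (a (b (l 16777304) (l 3)) (b (l 16776744) (b (l 102710116903) (l 3)))) (b (l 16776864) (l 149417886983))) (l 16778464))) (l 3)) (c (b (c (b (l 16776144) (a (a (b (l 16777032) (l 147270402679)) (l 16777288)) (l 16776608))) (b (l 16776144) (l 16776840))) (b (c (a (l 235317232391) (b (a (l 96804536183) (l 16777008)) (l 195051913575))) (a (l 236927845127) (l 98952021015))) (l 3))) (b (l 16776496) (l 185925108583)))) (a (c (b (c (l 16775208) (l 16775544)) (a (a (b (c (l 16776944) (l 16776944)) (l 229948523079)) (b (l 16776712) (b (b (l 16777144) (l 137606726103)) (l 3)))) (c (b (l 16776344) (a (b (l 16776992) (l 134922371639)) (l 16776920))) (l 16776688)))) (b (l 16775528) (c (l 16778216)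 (l 16776904)))) (c (c (b (l 16774568) (c (l 16775648) (l 16775976))) (l 16773976)) (l 16775272)))) (a (b (c (l 16776920) (l 16776928)) (l 196125656503)) (c (l 16775752) (l 16775720)))) (a (l 3) (b (b (c (c (a (c (a (l 3) (l 222432330455)) (l 233169748999)) (a (c (a (b (a (l 107541955031) (l 16777144)) (l 3)) (b (l 16776968) (l 128479920007))) (l 89288343303)) (c (l 16776864) (l 16776784)))) (a (l 235317232631) (l 16777000))) (l 98952022999)) (c (c (a (l 3) (c (a (l 3) (a (l 215453008407) (b (a (l 97878278583) (l 16777128)) (l 3)))) (l 192367559319))) (l 205252461831)) (l 164450274615))) (l 3)))), by decide +kernel⟩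

def k31_pp_012_s : ∃ t, chk3 f_pp_012_s t 243 118 1 = true :=
  ⟨(c (a (b (c (c (b (c (l 16772440) (l 16773112)) (a (l 16774352) (l 16774032))) (b (l 16773136) (l 16774536))) (l 16773832)) (b (c (a (c (b (l 16776064) (a (a (b (l 16776952) (a (l 156934078951) (l 93046440359))) (l 16776880)) (l 16776520))) (b (l 16776072) (l 16776760))) (c (l 16775120) (l 16775456))) (l 16775936)) (c (b (a (c (a (b (l 207936815527) (l 3)) (b (a (a (l 88214602135) (l 16777104)) (l 16776928)) (a (l 3) (a (l 144049177063) (l 16777448))))) (a (l 215453008519) (l 81772150471))) (c (a (l 16776744) (l 16776256)) (l 16776504))) (a (l 3) (a (b (c (a (l 150491628151) (l 16777384)) (l 16777224)) (l 235854103063)) (c (a (b (l 16776904) (a (l 130627404263) (l 16777512))) (l 16776840)) (l 16776952))))) (a (l 179482657511) (c (l 16778136) (l 16776824)))))) (c (b (c (b (l 16771144) (l 16772248)) (l 16770584)) (a (c (b (l 16774472) (a (l 16775800) (l 16775640))) (l 16774536)) (c (b (l 16773504) (l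 16774584)) (l 16772920)))) (b (l 16771936) (l 16773392)))) (b (l 16771136) (a (a (b (l 16776400) (l 134385502999)) (l 16776144)) (l 16774648)))), by decide +kernel⟩

def k32_pp_012_s : ∃ t, chk3 f_pp_012_s t 121 119 1 = true :=
  ⟨(a (l 3) (b (b (b (c (a (c (a (l 3) (a (l 3) (b (b (c (l 186998849767) (l 16777328)) (l 3)) (l 3)))) (l 220821718503)) (c (c (a (a (a (b (l 16777440) (l 220821717335)) (b (l 16776880) (a (l 123648082343) (l 16777160)))) (l 16776696)) (l 16775968)) (a (c (a (l 16777800) (l 16776696)) (l 16776912)) (l 16775976))) (l 16776448))) (a (l 218674234807) (l 16776448))) (a (l 3) (c (c (c (a (a (l 3) (b (a (a (l 181093269991) (l 111836922327)) (l 16777088)) (l 218674233815))) (a (a (a (b (l 16776920) (l 105931341623)) (l 16777128)) (l 16776792)) (l 16776424))) (a (c (l 182167010535) (l 181630140935)) (l 16776664))) (a (l 138143598375) (l 16776672))) (l 3389000327)))) (b (a (l 3) (a (l 3) (c (c (b (a (a (l 3) (b (a (l 135996113239) (l 16777160)) (l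 190220075511))) (c (l 16777112) (l 16776952))) (c (a (l 3) (a (l 202568106263) (a (l 93583310615) (l 16777112)))) (l 181093269911))) (l 101636376119)) (l 16777264)))) (l 3))) (l 3))), by decide +kernel⟩

def k33_pp_012_s : ∃ t, chk3 f_pp_012_s t 61 58 1 = true :=
  ⟨(a (c (b (a (c (c (b (l 16757104) (l 16760120)) (b (l 16757264) (l 16760248))) (l 16758992)) (c (c (c (l 16754512) (l 16754600)) (l 16754728)) (l 16754992))) (a (c (b (c (a (l 16764096) (l 16762088)) (l 16763192)) (c (a (l 16767016) (l 16765016)) (a (l 16767080) (l 16765104)))) (b (l 16763352) (l 16766216))) (a (c (b (l 16760128) (l 16763064)) (l 16761832)) (c (b (l 16758128) (l 16761080)) (l 16759856))))) (b (a (l 16759416) (l 16755592)) (a (c (l 16764920) (l 16764688)) (c (l 16761104) (l 16760952))))) (c (c (b (b (c (a (l 16743728) (l 16744928)) (l 16747168)) (a (a (l 16747888) (l 16745880)) (c (l 16742784) (l 16742976)))) (a (b (a (l 16752200) (l 16751512)) (c (l 16758040) (l 16758160))) (b (l 16751152)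 (a (l 16755128) (l 16750520))))) (b (a (l 16751008) (l 16747024)) (a (l 16755592) (l 16752960)))) (b (a (l 16751680) (l 16747752)) (a (l 16754744) (l 16753480))))), by decide +kernel⟩

def k34_pp_012_s : ∃ t, chk3 f_pp_012_s t 122 118 1 = true :=
  ⟨(c (c (a (b (c (a (b (l 16769176) (l 16770608)) (l 16767584)) (a (l 16769944) (l 16767976))) (c (a (b (l 16771704) (a (l 16773936) (l 16772960))) (b (l 16770064) (l 16771160))) (a (b (l 16772064) (l 16773472)) (l 16770160)))) (b (c (a (l 16765928) (l 16763944)) (l 16764360)) (c (a (b (l 16768088) (l 16769520)) (l 16766184)) (a (l 16768856) (l 16766896))))) (a (b (a (l 16770016) (l 16768072)) (a (l 16772800) (l 16770880))) (b (l 16765136) (l 16766824)))) (a (c (b (l 16769000) (l 16771768)) (l 16767656)) (b (l 16765144) (l 16765264)))), by decide +kernel⟩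

def k35_pp_012_s : ∃ t, chk3 f_pp_012_s t 244 238 1 = true :=
  ⟨(c (c (a (c (b (c (a (l 16775016) (l 16774368)) (l 16774208)) (b (a (l 16776152) (l 16775432)) (a (a (b (a (a (l 149954757111) (l 83919634247)) (l 16777040)) (a (l 3) (l 194515042535))) (a (a (b (l 16776864) (l 83919634151)) (l 16776920)) (l 16776736))) (l 16775800)))) (b (l 16774224) (a (a (b (l 16776648) (a (l 144586048455) (l 16777592))) (l 16776512)) (l 16775792)))) (c (b (a (l 16773400) (l 16772416)) (a (c (l 16774472) (l 16774808)) (l 16773176))) (c (l 16772976) (l 16772328)))) (a (b (l 16774872) (a (b (l 16776400) (l 16778376)) (l 16775784))) (l 16772344))) (a (b (l 16774816) (l 16776264)) (l 16773576))), by decide +kernel⟩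

def k36_pp_012_s : ∃ t, chk3 f_pp_012_s t 244 239 1 = true :=
  ⟨(b (c (a (b (c (b (a (a (l 3) (a (l 237464715655) (c (b (l 16777168) (l 162839658919)) (l 16777224)))) (c (a (l 16776896) (l 16776416)) (l 16776656))) (a (l 3) (a (c (a (b (l 119353115031) (l 3)) (b (l 16777040) (l 86603988647))) (l 16777536)) (l 16776600)))) (a (l 202031235815) (l 16776824))) (a (l 3) (c (c (a (b (l 227801039351) (l 3)) (b (a (b (l 16777144) (l 151028498807)) (l 16776992)) (a (l 3) (b (l 107005083351) (l 3))))) (a (l 236390974167) (c (l 96804536007) (l 96267666407)))) (l 124184954583)))) (c (c (b (a (l 16775528) (l 16774888)) (a (c (a (b (l 16776624) (a (l 16777336) (l 16776856))) (l 16776312)) (l 16776560)) (l 16775256))) (a (l 16776216) (l 16775248))) (l 16775736))) (a (a (l 210084299895) (l 16778424)) (l 16775696))) (a (l 3) (a (c (c (b (c (b (a (a (l 213305524535) (b (l 16777112) (l 125795565991))) (l 16776840)) (a (l 3) (a (b (l 85530246903) (l 224579813623)) (l 16777232))))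 (a (l 181093269847) (l 16777656))) (a (l 3) (c (b (a (l 3) (l 203641848071)) (l 3)) (l 220284846727)))) (b (l 84993376519) (l 224042943415))) (l 115595020935)) (c (a (c (c (b (l 16776528) (b (a (a (b (l 16777144) (l 175724560695)) (l 16777112)) (l 16776936)) (a (l 3) (b (a (l 114521276711) (l 16777136)) (l 175187689927))))) (b (l 16776536) (a (l 117205631847) (l 16777088)))) (l 16777512)) (c (c (b (l 16776040) (c (b (l 16776568) (l 16776920)) (l 16776744))) (l 16776400)) (l 16776400))) (l 16776640))))), by decide +kernel⟩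

def k37_pp_012_s : ∃ t, chk3 f_pp_012_s t 245 119 1 = true :=
  ⟨(c (c (b (c (a (b (l 16770288) (a (l 16772848) (l 16771872))) (b (l 16768984) (l 16769752))) (a (b (l 16770984) (l 16772392)) (l 16768424))) (a (c (a (b (l 16773936) (b (l 16775312) (l 16775848))) (b (l 16773280) (c (l 16774360) (l 16774696)))) (b (l 16772480) (l 16774616))) (c (b (l 16771448) (a (l 16773056) (l 16772736))) (b (l 16771848) (l 16773248))))) (b (b (l 16767456) (l 16770160)) (a (l 16773848) (l 16772584)))) (b (c (l 16770704) (l 16770600)) (c (l 16770864) (l 16773432)))), by decide +kernel⟩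

def k38_pp_012_s : ∃ t, chk3 f_pp_012_s t 123 59 1 = true :=
  ⟨(c (b (a (c (b (a (l 16762016) (l 16760040)) (c (a (l 16764872) (l 16762896)) (l 16763304))) (b (l 16761232) (l 16764080))) (c (b (c (l 16757024) (l 16757128)) (c (l 16759600) (l 16760016))) (b (l 16757304) (l 16760160)))) (a (c (b (a (c (b (l 16767016) (l 16768440)) (l 16767784)) (c (l 16765760) (l 16765824))) (a (c (b (l 16769856) (l 16770936)) (l 16769936)) (c (b (l 16767888) (l 16769288)) (l 16768632)))) (b (c (l 16764240) (l 16766920)) (b (l 16766368) (l 16769056)))) (c (b (c (a (l 16763784) (l 16761792)) (l 16761552)) (c (a (l 16765952) (l 16764616)) (a (l 16766656) (l 16764680)))) (b (l 16762976) (l 16764776))))) (b (a (c (l 16760232) (l 16762624)) (b (l 16757680) (l 16760320))) (a (b (l 16765496) (c (l 16769624) (l 16769512))) (b (l 16763008) (l 16763112))))), by decide +kernel⟩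

def k39_pp_012_s : ∃ t, chk3 f_pp_012_s t 62 28 1 = true :=
  ⟨(b (a (a (c (c (b (l 16715936) (l 16728200)) (b (l 16717224) (l 16723992))) (l 16722584)) (c (c (b (l 16711760) (l 16718832)) (b (l 16713080) (l 16719888))) (l 16718496))) (b (c (a (c (l 16707600) (l 16708936)) (c (l 16703456) (l 16704792))) (l 16688168)) (c (a (c (l 16714712) (l 16715784)) (c (l 16710608) (l 16711672))) (l 16715552)))) (a (c (b (a (c (b (l 16728072) (l 16731400)) (l 16720064)) (b (l 16713920) (l 16722464))) (c (a (b (l 16734664) (l 16737872)) (b (l 16730616) (l 16733840))) (l 16735056))) (b (l 16729904) (a (l 16737936) (l 16733936)))) (c (a (b (a (l 16715152) (l 16710488)) (b (l 16721648) (l 16724832))) (b (c (l 16717488) (l 16718328)) (a (l 16714944) (l 16712880)))) (b (l 16721792) (a (l 16729896) (l 16704848)))))), by decide +kernel⟩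

def k40_pp_012_s : ∃ t, chk3 f_pp_012_s t 62 29 1 = true :=
  ⟨(b (b (b (a (c (c (a (l 16735784) (l 16737000)) (l 16739528)) (l 16740376)) (c (a (l 16727960) (l 16723864)) (l 16732320))) (a (c (a (a (l 16740080) (l 16738088)) (c (l 16734864) (l 16740544))) (l 16740664)) (c (a (l 16731024) (l 16726928)) (l 16735232)))) (a (c (a (c (b (c (l 16741832) (l 16742008)) (l 16750152)) (l 16748992)) (b (c (l 16737904) (l 16733040)) (l 16745968))) (a (l 16749552) (l 16745584))) (c (c (a (b (l 16733840) (l 16736824)) (a (l 16732264) (l 16730200))) (a (l 16740952) (l 16731608))) (a (l 16741560) (l 16737488))))) (b (a (c (a (c (b (l 16753096) (c (l 16755936) (l 16756040))) (l 16753472)) (c (b (l 16749072) (l 16751960)) (l 16750776))) (a (l 16752552) (l 16751208))) (a (c (b (l 16745152) (c (l 16747896) (l 16748152))) (l 16747192)) (c (a (l 16743512) (l 16741448)) (l 16743120)))) (a (c (a (c (b (c (l 16758384) (l 16758880)) (c (a (l 16762616) (l 16760608)) (l 16760376))) (b (l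 16759016) (l 16761800))) (b (a (l 16755264) (l 16753904)) (c (a (l 16758632) (l 16756608)) (l 16757800)))) (a (b (l 16759280) (l 16761960)) (b (l 16755360) (l 16758096)))) (a (c (a (b (l 16751872) (l 16754672)) (b (l 16749832) (l 14))) (b (l 16751352) (l 16754088))) (l 14))))), by decide +kernel⟩

def k41_pp_012_s : ∃ t, chk3 f_pp_012_s t 63 14 1 = true :=
  ⟨(b (b (b (a (c (a (l 16705208) (l 16701024)) (l 16679832)) (c (a (l 16691568) (l 16687288)) (l 16671304))) (a (c (a (c (l 16706472) (l 16707536)) (l 16708056)) (l 16691504)) (c (a (l 16698584) (l 16694304)) (l 16688224)))) (a (b (c (a (c (l 16713368) (l 16714192)) (c (l 16709184) (l 16710000))) (l 16703024)) (a (c (c (l 16719952) (l 16720584)) (l 16700704)) (c (c (l 16715760) (l 16716392)) (l 16696496)))) (a (c (b (l 16707968) (c (l 16711528) (l 16712144))) (c (l 16699280) (l 16689656))) (c (b (l 16703680) (c (l 16707240) (l 16707840))) (c (l 16694960) (l 16685312)))))) (b (a (c (b (a (a (l 16722296) (l 16720208))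 (c (l 16715512) (l 16722552))) (b (a (l 16725784) (l 16721584)) (a (l 16728744) (l 14)))) (b (l 16724840) (a (l 16733352) (l 16729152)))) (b (a (a (b (l 16718128) (l 14)) (l 14)) (l 14)) (l 14))) (b (b (a (a (a (l 16738264) (l 14)) (l 14)) (l 14)) (l 14)) (l 14)))), by decide +kernel⟩

def k42_pp_012_s : ∃ t, chk3 f_pp_012_s t 60 30 1 = true :=
  ⟨(l 3), by decide +kernel⟩

def k43_pp_012_s : ∃ t, chk3 f_pp_012_s t 122 480 1 = true :=
  ⟨(a (a (l 3) (a (l 3) (c (c (b (a (l 3) (c (b (a (c (b (l 139754209639) (l 3)) (l 155860337239)) (a (b (l 16777120) (l 147807273271)) (l 16777080))) (l 237464715799)) (b (l 95730795255) (l 240685941255)))) (l 3)) (l 202568106359)) (l 201494365143)))) (c (c (a (a (c (b (b (l 16776208) (a (a (b (l 16777320) (l 159081562519)) (l 16777008)) (l 16776648))) (a (b (a (l 3) (a (l 222969200919) (b (l 16777200) (l 3)))) (l 3)) (a (b (a (b (l 16777088) (l 125795565831)) (l 16777056)) (l 221358588231)) (b (l 16776872) (b (l 16777128) (a (l 3)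 (l 108615696663))))))) (a (b (l 16776944) (l 209547428407)) (b (l 16776472) (b (l 16776992) (l 118816244503))))) (c (b (l 16775408) (a (l 16776600) (l 16776192))) (l 16776096))) (c (a (a (l 16775032) (l 16774536)) (l 16773808)) (l 16773984))) (a (a (b (l 16776712) (l 108615696631)) (l 16776096)) (l 16774648))) (a (a (l 16778320) (l 16776072)) (l 16774592)))), by decide +kernel⟩

def k44_pp_012_s : ∃ t, chk3 f_pp_012_s t 122 481 1 = true :=
  ⟨(a (l 3) (a (a (l 3) (c (a (c (b (c (a (b (a (l 209010557159) (b (l 16777176) (l 215453008135))) (l 3)) (b (c (b (l 16777000) (l 16777328)) (l 16777080)) (l 210621169943))) (b (l 16777552) (l 218137362871))) (l 3)) (l 188609462887)) (c (b (c (b (l 16776720) (b (l 16776976) (a (a (l 192367558951) (l 16777208)) (l 16777032)))) (l 16776888)) (c (b (a (l 3) (b (a (l 131164274951) (l 16777144)) (l 218137362647))) (l 3)) (l 198810010071))) (b (l 16776888) (l 161765917879)))) (l 105931344167))) (c (c (b (c (a (c (l 16775832) (l 16776160))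 (l 16774856)) (l 16775024)) (c (a (a (a (b (l 16777208) (a (l 3) (b (l 118816243959) (l 3)))) (b (l 16776808) (a (b (l 16777128) (l 163913400599)) (l 16777096)))) (l 16776288)) (l 16775720)) (a (a (b (l 16776928) (l 102710117047)) (l 16776616)) (l 16775888)))) (a (l 16777160) (l 16775552))) (l 16776016)))), by decide +kernel⟩

def k45_pp_012_s : ∃ t, chk3 f_pp_012_s t 122 241 1 = true :=
  ⟨(a (l 3) (a (l 3) (b (c (a (b (c (b (c (a (l 241759683095) (a (b (a (l 100025762055) (l 16777112)) (l 164987142567)) (l 16777016))) (a (l 243907166743) (l 16777120))) (a (l 3) (c (a (l 3) (a (l 229948522775) (b (l 16777368) (l 3)))) (l 166597755719)))) (l 174113948039)) (l 3)) (b (c (c (b (l 16776080) (a (a (a (b (l 16777096) (l 131164274967)) (l 16777064)) (l 16776880)) (l 16776512))) (l 16776584)) (l 16776584)) (b (c (c (a (a (l 224579813719) (b (l 16777296) (a (l 3) (l 120963727607)))) (l 16776864)) (a (l 126332437191) (l 16776864))) (l 16777080)) (c (a (l 3) (c (a (a (l 214379266279)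 (b (l 16777176) (l 221358588183))) (a (b (l 16777064) (l 101636374791)) (l 16777024))) (l 81235279239))) (l 127943050455))))) (a (l 154249726359) (l 16778208))) (c (a (l 3) (c (b (a (l 3) (c (b (a (l 3) (c (l 212768653607) (l 212231782695))) (l 3)) (l 226727297687))) (l 3)) (l 242296554871))) (l 249812748183))))), by decide +kernel⟩

def k46_pp_012_s : ∃ t, chk3 f_pp_012_s t 122 121 1 = true :=
  ⟨(l 3), by decide +kernel⟩

def k47_pp_012_s : ∃ t, chk3 f_pp_012_s t 246 120 1 = true :=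
  ⟨(c (c (b (a (c (b (a (l 16773152) (l 16772168)) (a (c (l 16774216) (l 16774552)) (l 16773240))) (b (l 16772680) (l 16773416))) (c (b (l 16770360) (a (l 16772584) (l 16771592))) (b (l 16770720) (l 16772112)))) (a (b (b (c (a (l 16775272) (l 16774616)) (l 16774464)) (c (a (a (l 16776216) (l 16776056)) (l 16774992)) (l 16775160))) (a (a (b (b (a (c (b (l 16777104) (a (l 207936815351) (l 90362085607))) (l 16777176)) (l 16776912)) (c (a (l 3) (a (l 198273138871) (b (l 16777144) (l 178945786167)))) (l 148881015527))) (l 3)) (b (c (a (b (l 16776704) (b (l 16776968) (l 16777320))) (l 16776632)) (l 16776760)) (c (b (a (a (l 3) (b (l 121500598519) (l 3))) (a (b (l 16777128) (l 166060884247)) (l 16777256))) (l 243370295831)) (b (c (l 103246987959) (l 16777232)) (l 244980908567))))) (c (b (a (l 16776264) (l 16775768)) (a (b (l 16776792) (a (a (b (l 101099503879) (l 3)) (b (l 16777112) (l 146196660519))) (l 16777096))) (l 16776144))) (b (l 16776024) (a (b (l 16776792) (l 16777448))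 (l 16776480)))))) (c (b (a (l 16773736) (l 16772336)) (a (c (b (l 16775032) (l 16775568)) (l 16774728)) (a (l 16774312) (l 16774144)))) (b (l 16772848) (c (l 16774240) (l 16774904)))))) (b (a (l 16772104) (l 16770152)) (b (a (l 16775480) (l 16773536)) (a (a (b (c (l 16777624) (l 16776976)) (l 192904430151)) (l 16776376)) (l 16774920))))) (b (c (l 16769768) (l 16772320)) (a (a (b (l 16775944) (l 91972699095)) (l 16775664)) (l 16774184)))), by decide +kernel⟩

def k48_pp_012_s : ∃ t, chk3 f_pp_012_s t 247 120 1 = true :=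
  ⟨(c (c (b (a (c (b (l 16768712) (l 16769448)) (l 16768792)) (c (b (l 16766720) (l 16768120)) (l 16767464))) (a (c (b (a (l 16772000) (l 16771008)) (a (l 16773080) (l 16772408))) (b (l 16771536) (l 16772272))) (c (b (l 16768864) (a (l 16771416) (l 16770416))) (b (l 16769552) (l 16770952))))) (b (b (l 16765216) (l 16767904)) (a (l 16770960) (l 16770304)))) (b (c (l 16768552) (l 16768424)) (c (l 16769992) (l 16771216)))), by decide +kernel⟩

def k49_pp_012_s : ∃ t, chk3 f_pp_012_s t 492 242 1 = true :=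
  ⟨(a (l 3) (b (c (b (b (c (c (b (a (a (l 3) (a (l 207399944439) (l 89288343783))) (l 16776912)) (a (l 3) (a (a (l 130627404055) (l 16777144)) (l 16776960)))) (a (l 202568106327) (l 16776992))) (l 86067117927)) (c (a (l 3) (c (a (l 226727297351) (a (b (l 16777360) (l 3)) (b (l 16777080) (l 119353114871)))) (l 126332436535))) (l 192367559111))) (l 3)) (l 139754210375)) (l 3))), by decide +kernel⟩

def k50_pp_012_s : ∃ t, chk3 f_pp_012_s t 493 242 1 = true :=
  ⟨(c (b (c (a (b (c (a (b (l 16776504) (l 16776816)) (l 16775864)) (l 16776440)) (a (b (a (b (c (a (l 163913400599) (l 16777176)) (l 16777216)) (l 238001586439)) (b (l 16777000) (a (b (l 16777272) (l 163376529607)) (l 16777112)))) (c (a (l 3) (b (l 200420622503) (l 3))) (l 220821717431))) (c (b (l 16776712) (a (b (l 16777096) (a (l 203641848055) (a (l 119889985735) (l 16777184)))) (l 16776944))) (l 16777208)))) (c (b (l 16775280) (a (l 16776072) (l 16775904))) (l 16775152))) (a (a (b (l 16776688) (l 118279373863))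 (l 16776544)) (l 16775816))) (a (c (b (b (a (l 3) (c (a (l 3) (b (a (l 130090533127) (l 16777144)) (l 217600491735))) (l 144049176727))) (l 3)) (l 3)) (l 220284847287)) (c (a (b (b (c (a (a (b (l 16777024) (l 16777312)) (l 16776984)) (l 16776800)) (l 16776920)) (c (a (a (l 3) (a (l 211694911687) (b (l 16777208) (l 3)))) (a (b (l 16777120) (l 159081562391)) (l 16777208))) (c (l 102173244807) (l 16777552)))) (b (c (a (l 3) (l 239612199287)) (l 244444037639)) (l 3))) (b (c (l 16776440) (l 16776608)) (b (b (a (a (b (l 16777264) (l 156397207751)) (l 16777104)) (l 16776920)) (c (a (a (l 3) (l 140291080471)) (l 16777096)) (l 86067118599))) (c (a (l 3) (a (l 227264168199) (b (a (l 116668760247) (l 16777176)) (l 3)))) (l 200957493575))))) (b (l 16777496) (a (l 248739005143) (l 102173246455)))))) (b (a (l 16776768) (l 16775800)) (a (l 220821718151) (c (l 79087796855) (l 16778424))))), by decide +kernel⟩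

def k51_pp_012_s : ∃ t, chk3 f_pp_012_s t 247 242 1 = true :=
  ⟨(c (a (c (b (b (c (a (l 16774456) (l 16773464)) (l 16773976)) (c (a (l 16774832) (l 16774168)) (l 16774024))) (c (a (b (a (l 16775784) (l 16775616)) (a (a (b (l 16776760) (a (b (l 16777088) (a (l 181093269687) (l 108078825639))) (l 16777048))) (l 16776360)) (l 16776152))) (c (b (l 16774864) (l 16775408)) (l 16774568))) (a (b (l 16775864) (a (l 16776808) (l 16776320))) (l 16775232)))) (b (l 16774352) (a (l 16776224) (l 16775248)))) (c (c (a (b (l 16772488) (a (l 16774144) (l 16773976))) (b (l 16771824) (l 16772896))) (b (l 16771688) (c (l 16773080) (l 16773744)))) (c (l 16771752) (l 16773088)))) (a (c (l 16775040) (l 16775008)) (l 16770448))), by decide +kernel⟩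

def k52_pp_012_s : ∃ t, chk3 f_pp_012_s t 246 243 1 = true :=
  ⟨(l 3), by decide +kernel⟩

def k53_pp_012_s : ∃ t, chk3 f_pp_012_s t 247 486 1 = true :=
  ⟨(c (a (c (a (b (b (c (a (a (b (l 215453008071) (l 3)) (a (b (l 16777304) (l 225116684567)) (b (l 16777064) (a (l 144586047719) (l 16777200))))) (c (l 16776760) (l 16776840))) (a (a (l 196125655607) (l 16777192)) (l 16776848))) (a (l 3) (a (c (b (a (l 155323465991) (l 16777168)) (l 232096006391)) (l 129553662471)) (c (a (a (b (l 16777080) (l 127406178503)) (l 16777096)) (l 16777008)) (l 16777064))))) (a (l 3) (b (c (a (l 3) (a (l 3) (a (l 225653555431) (b (l 118816243895) (l 3))))) (l 217600491943)) (l 3)))) (a (b (c (l 16776360) (l 16776528)) (b (c (a (b (l 16777088) (a (l 186461978887) (a (l 110226309287) (l 16777168)))) (l 16776928)) (l 16777040)) (a (l 3) (c (b (a (a (l 161765916887) (l 101099503767)) (l 16777128)) (l 209010557127)) (l 115595018695))))) (c (b (l 16775696) (a (a (b (l 16776736) (b (l 16777000)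 (l 16777336))) (l 16776792)) (l 16776280))) (l 16776216)))) (a (a (l 206326203159) (b (l 16777000) (l 225116684919))) (a (b (l 16776528) (l 84456505015)) (l 16776384)))) (c (c (b (a (c (l 16774952) (l 16775280)) (l 16774280)) (a (a (l 16776064) (l 16775736)) (l 16774824))) (a (l 16774984) (l 16774648))) (l 16773848))) (a (a (b (l 16777832) (l 231022265223)) (l 16776624)) (l 16775152))), by decide +kernel⟩

def k54_pp_012_s : ∃ t, chk3 f_pp_012_s t 247 487 1 = true :=
  ⟨(b (a (c (a (l 3) (a (l 3) (c (a (b (c (a (l 241222811943) (b (a (l 135996113111) (l 16777192)) (l 3))) (l 158544691735)) (l 3)) (c (b (a (b (l 16777104) (a (l 200957493463) (l 127406178503))) (l 16777152)) (l 232096006487)) (b (l 16777120) (l 214379266551)))) (l 131701146647)))) (l 210084299879)) (c (c (a (c (a (b (l 16776432) (a (a (b (a (l 118279372983) (l 16777176)) (l 3)) (b (l 16777088) (a (l 182703882423) (l 109689438375)))) (l 16776984))) (l 16776272)) (a (b (l 16776760) (c (l 16777424) (l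 16777096))) (l 16776440))) (a (b (l 16775600) (l 14)) (l 14))) (a (l 16776688) (l 16775712))) (l 16776200))) (a (l 3) (a (c (a (c (b (c (a (l 3) (a (l 219211104487) (b (a (l 100562632855) (l 16777152)) (l 244444037319)))) (l 197199397159)) (l 3)) (l 209547428359)) (b (a (b (c (l 16777000) (l 16777008)) (l 14)) (l 14)) (l 14))) (l 107005085239)) (l 14)))), by decide +kernel⟩

def k55_pp_012_s : ∃ t, chk3 f_pp_012_s t 61 61 1 = true :=
  ⟨(a (l 3) (a (l 3) (a (l 3) (a (l 3) (l 14))))), by decide +kernel⟩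

def k56_pp_012_s : ∃ t, chk3 f_pp_012_s t 30 31 1 = true :=
  ⟨(l 3), by decide +kernel⟩

def k57_pp_012_s : ∃ t, chk3 f_pp_012_s t 31 15 1 = true :=
  ⟨(b (a (b (a (a (b (c (a (c (b (c (l 16764768) (l 16765472)) (c (b (l 16767520) (l 16768920)) (l 16767608))) (b (l 16765560) (l 16768328))) (c (b (c (l 16763408) (l 16763472)) (c (l 16765880) (l 16766256))) (b (l 16763576) (l 16766336)))) (b (l 16763368) (c (l 16764824) (l 16767344)))) (b (c (c (b (a (c (l 16769992) (l 16770352)) (c (l 16768312) (l 16768352))) (a (c (a (l 16772224) (l 16771224)) (l 16771096)) (l 14))) (a (l 16769792) (l 16769112))) (c (l 16768872) (l 16767488))) (a (a (b (c (a (b (c (l 16773544) (l 16773576)) (l 14)) (l 14)) (l 16773680)) (l 14)) (l 14)) (l 14)))) (b (b (c (c (a (l 16761096) (l 16759400)) (l 16759256)) (l 16758208)) (a (a (b (c (l 16764080) (l 16764352)) (l 14)) (l 14)) (l 14))) (l 14))) (l 14)) (l 14)) (l 14)) (l 14)), by decide +kernel⟩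

theorem s58_pp_012_s : ∃ t, chk3 f_pp_012_s t 247 243 1 = true := ex3_b k53_pp_012_s k54_pp_012_s

theorem s59_pp_012_s : ∃ t, chk3 f_pp_012_s t 123 243 1 = true := ex3_a k52_pp_012_s s58_pp_012_s

theorem s60_pp_012_s : ∃ t, chk3 f_pp_012_s t 246 242 1 = true := ex3_a k49_pp_012_s k50_pp_012_s

theorem s61_pp_012_s : ∃ t, chk3 f_pp_012_s t 123 242 1 = true := ex3_a s60_pp_012_s k51_pp_012_s

theorem s62_pp_012_s : ∃ t, chk3 f_pp_012_s t 123 121 1 = true := ex3_b s61_pp_012_s s59_pp_012_s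

theorem s63_pp_012_s : ∃ t, chk3 f_pp_012_s t 123 120 1 = true := ex3_a k47_pp_012_s k48_pp_012_s

theorem s64_pp_012_s : ∃ t, chk3 f_pp_012_s t 123 60 1 = true := ex3_b s63_pp_012_s s62_pp_012_s

theorem s65_pp_012_s : ∃ t, chk3 f_pp_012_s t 122 240 1 = true := ex3_b k43_pp_012_s k44_pp_012_s

theorem s66_pp_012_s : ∃ t, chk3 f_pp_012_s t 122 120 1 = true := ex3_b s65_pp_012_s k45_pp_012_s

theorem s67_pp_012_s : ∃ t, chk3 f_pp_012_s t 122 60 1 = true := ex3_b s66_pp_012_s k46_pp_012_s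

theorem s68_pp_012_s : ∃ t, chk3 f_pp_012_s t 61 60 1 = true := ex3_a s67_pp_012_s s64_pp_012_s

theorem s69_pp_012_s : ∃ t, chk3 f_pp_012_s t 61 30 1 = true := ex3_b s68_pp_012_s k55_pp_012_s

theorem s70_pp_012_s : ∃ t, chk3 f_pp_012_s t 30 30 1 = true := ex3_a k42_pp_012_s s69_pp_012_s

theorem s71_pp_012_s : ∃ t, chk3 f_pp_012_s t 30 15 1 = true := ex3_b s70_pp_012_s k56_pp_012_s

theorem s72_pp_012_s : ∃ t, chk3 f_pp_012_s t 15 15 1 = true := ex3_a s71_pp_012_s k57_pp_012_s

theorem s73_pp_012_s : ∃ t, chk3 f_pp_012_s t 62 14 1 = true := ex3_b k39_pp_012_s k40_pp_012_s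

theorem s74_pp_012_s : ∃ t, chk3 f_pp_012_s t 31 14 1 = true := ex3_a s73_pp_012_s k41_pp_012_s

theorem s75_pp_012_s : ∃ t, chk3 f_pp_012_s t 244 119 1 = true := ex3_b k35_pp_012_s k36_pp_012_s

theorem s76_pp_012_s : ∃ t, chk3 f_pp_012_s t 122 119 1 = true := ex3_a s75_pp_012_s k37_pp_012_s

theorem s77_pp_012_s : ∃ t, chk3 f_pp_012_s t 122 59 1 = true := ex3_b k34_pp_012_s s76_pp_012_s

theorem s78_pp_012_s : ∃ t, chk3 f_pp_012_s t 61 59 1 = true := ex3_a s77_pp_012_s k38_pp_012_s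

theorem s79_pp_012_s : ∃ t, chk3 f_pp_012_s t 61 29 1 = true := ex3_b k33_pp_012_s s78_pp_012_s

theorem s80_pp_012_s : ∃ t, chk3 f_pp_012_s t 121 118 1 = true := ex3_a k30_pp_012_s k31_pp_012_s

theorem s81_pp_012_s : ∃ t, chk3 f_pp_012_s t 121 59 1 = true := ex3_b s80_pp_012_s k32_pp_012_s

theorem s82_pp_012_s : ∃ t, chk3 f_pp_012_s t 60 59 1 = true := ex3_a k29_pp_012_s s81_pp_012_s

theorem s83_pp_012_s : ∃ t, chk3 f_pp_012_s t 120 58 1 = true := ex3_b k26_pp_012_s k27_pp_012_s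

theorem s84_pp_012_s : ∃ t, chk3 f_pp_012_s t 60 58 1 = true := ex3_a s83_pp_012_s k28_pp_012_s

theorem s85_pp_012_s : ∃ t, chk3 f_pp_012_s t 60 29 1 = true := ex3_b s84_pp_012_s s82_pp_012_s

theorem s86_pp_012_s : ∃ t, chk3 f_pp_012_s t 30 29 1 = true := ex3_a s85_pp_012_s s79_pp_012_s

theorem s87_pp_012_s : ∃ t, chk3 f_pp_012_s t 30 28 1 = true := ex3_a k24_pp_012_s k25_pp_012_s

theorem s88_pp_012_s : ∃ t, chk3 f_pp_012_s t 30 14 1 = true := ex3_b s87_pp_012_s s86_pp_012_s

theorem s89_pp_012_s : ∃ t, chk3 f_pp_012_s t 15 14 1 = true := ex3_a s88_pp_012_s s74_pp_012_s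

theorem s90_pp_012_s : ∃ t, chk3 f_pp_012_s t 15 7 1 = true := ex3_b s89_pp_012_s s72_pp_012_s

theorem s91_pp_012_s : ∃ t, chk3 f_pp_012_s t 59 57 1 = true := ex3_a k20_pp_012_s k21_pp_012_s

theorem s92_pp_012_s : ∃ t, chk3 f_pp_012_s t 59 28 1 = true := ex3_b k19_pp_012_s s91_pp_012_s

theorem s93_pp_012_s : ∃ t, chk3 f_pp_012_s t 29 28 1 = true := ex3_a k18_pp_012_s s92_pp_012_s

theorem s94_pp_012_s : ∃ t, chk3 f_pp_012_s t 29 14 1 = true := ex3_b s93_pp_012_s k22_pp_012_s

theorem s95_pp_012_s : ∃ t, chk3 f_pp_012_s t 14 14 1 = true := ex3_a k17_pp_012_s s94_pp_012_s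

theorem s96_pp_012_s : ∃ t, chk3 f_pp_012_s t 14 7 1 = true := ex3_b s95_pp_012_s k23_pp_012_s

theorem s97_pp_012_s : ∃ t, chk3 f_pp_012_s t 7 7 1 = true := ex3_a s96_pp_012_s s90_pp_012_s

theorem s98_pp_012_s : ∃ t, chk3 f_pp_012_s t 15 13 1 = true := ex3_b k15_pp_012_s k16_pp_012_s

theorem s99_pp_012_s : ∃ t, chk3 f_pp_012_s t 15 6 1 = true := ex3_b k14_pp_012_s s98_pp_012_s

theorem s100_pp_012_s : ∃ t, chk3 f_pp_012_s t 29 13 1 = true := ex3_b k12_pp_012_s k13_pp_012_s

theorem s101_pp_012_s : ∃ t, chk3 f_pp_012_s t 29 6 1 = true := ex3_b k11_pp_012_s s100_pp_012_s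

theorem s102_pp_012_s : ∃ t, chk3 f_pp_012_s t 28 13 1 = true := ex3_b k9_pp_012_s k10_pp_012_s

theorem s103_pp_012_s : ∃ t, chk3 f_pp_012_s t 28 6 1 = true := ex3_b k8_pp_012_s s102_pp_012_s

theorem s104_pp_012_s : ∃ t, chk3 f_pp_012_s t 14 6 1 = true := ex3_a s103_pp_012_s s101_pp_012_s

theorem s105_pp_012_s : ∃ t, chk3 f_pp_012_s t 7 6 1 = true := ex3_a s104_pp_012_s s99_pp_012_s

theorem s106_pp_012_s : ∃ t, chk3 f_pp_012_s t 7 3 1 = true := ex3_b s105_pp_012_s s97_pp_012_s

theorem s107_pp_012_s : ∃ t, chk3 f_pp_012_s t 7 1 1 = true := ex3_b k7_pp_012_s s106_pp_012_s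

theorem s108_pp_012_s : ∃ t, chk3 f_pp_012_s t 13 6 1 = true := ex3_b k4_pp_012_s k5_pp_012_s

theorem s109_pp_012_s : ∃ t, chk3 f_pp_012_s t 6 6 1 = true := ex3_a k3_pp_012_s s108_pp_012_s

theorem s110_pp_012_s : ∃ t, chk3 f_pp_012_s t 6 3 1 = true := ex3_b s109_pp_012_s k6_pp_012_s

theorem s111_pp_012_s : ∃ t, chk3 f_pp_012_s t 6 2 1 = true := ex3_a k1_pp_012_s k2_pp_012_s

theorem s112_pp_012_s : ∃ t, chk3 f_pp_012_s t 6 1 1 = true := ex3_b s111_pp_012_s s110_pp_012_s

theorem s113_pp_012_s : ∃ t, chk3 f_pp_012_s t 3 1 1 = true := ex3_a s112_pp_012_s s107_pp_012_s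

theorem s114_pp_012_s : ∃ t, chk3 f_pp_012_s t 1 1 1 = true := ex3_a k0_pp_012_s s113_pp_012_s

theorem c_pp_012_s : CertNE 0 536870912 0 536870912 818728140 40265320 3 eng mog cd0q0 cd0q2 pd1 false true true .pnp 0 1 2
    ndB0q0 ndB0q2 pcB1 cut_pp_012_s Ext.none :=
  certNE2 (fam := false) (s1 := true) (s2 := true) (a := 0) (b := 1) (c := 2) (cn := .pnp) (n1 := ndB0q0) (n2 := ndB0q2) (pc := pcB1) (cut := cut_pp_012_s) (xt := Ext.none) (P1 := 0) (W1 := 536870912) (P2 := 0) (W2 := 536870912) (P3 := 818728140) (W3 := 40265320) (N0 := 3) (En := eng) (mo := mog) (C1 := cd0q0) (C2 := cd0q2) (C3 := pd1)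
    rfl (fun _ => rfl) s114_pp_012_s

noncomputable def cut_pp_012_t : Cut := Cut.of [[⟨3, 0, 0, 2845415833⟩], [⟨0, 0, 0, 67108864⟩, ⟨1, 1, 0, 67108864⟩, ⟨2, 1, 0, 67108864⟩]]

noncomputable def f_pp_012_t : ℕ → ℕ → ℕ → ℕ → Bool := onCell 0 536870912 0 536870912 818728140 40265320
    (rowNE 3 eng mog cd0q0 cd0q2 pd1 0 false true true .pnp 0 1 2 (qsf 0 536870912 0 536870912 1) ndB0q0 ndB0q2 pcB1 cut_pp_012_t Ext.none)

def k0_pp_012_t : ∃ t, chk3 f_pp_012_t t 1 1 1 = true :=
  ⟨(l 6), by decide +kernel⟩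

theorem c_pp_012_t : CertNE 0 536870912 0 536870912 818728140 40265320 3 eng mog cd0q0 cd0q2 pd1 false true true .pnp 0 1 2
    ndB0q0 ndB0q2 pcB1 cut_pp_012_t Ext.none :=
  certNE0 (fam := false) (s1 := true) (s2 := true) (a := 0) (b := 1) (c := 2) (cn := .pnp) (n1 := ndB0q0) (n2 := ndB0q2) (pc := pcB1) (cut := cut_pp_012_t) (xt := Ext.none) (P1 := 0) (W1 := 536870912) (P2 := 0) (W2 := 536870912) (P3 := 818728140) (W3 := 40265320) (N0 := 3) (En := eng) (mo := mog) (C1 := cd0q0) (C2 := cd0q2) (C3 := pd1)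
    rfl k0_pp_012_t

noncomputable def cut_pp_022_s : Cut := Cut.of [[⟨4, 0, 0, 1449551462⟩], [⟨0, 0, 0, 67108864⟩, ⟨1, 1, 0, 67108864⟩, ⟨2, 1, 0, 67108864⟩]]

noncomputable def f_pp_022_s : ℕ → ℕ → ℕ → ℕ → Bool := onCell 1073741824 536870912 0 536870912 818728140 40265320
    (rowNE 3 eng mog cd0q0 cd0q2 pd2 2 false true true .pp 0 2 2 (qsf 0 536870912 0 536870912 2) ndB0q0 ndB0q2 pcB2 cut_pp_022_s Ext.none)

def k0_pp_022_s : ∃ t, chk3 f_pp_022_s t 4 2 1 = true :=
  ⟨(b (l 6) (a (a (b (l 6) (b (l 6) (a (a (c (l 16490024) (l 16477376)) (c (l 16507320) (l 16496656))) (c (l 16531616) (l 16524096))))) (l 6)) (l 6))), by decide +kernel⟩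

def k1_pp_022_s : ∃ t, chk3 f_pp_022_s t 8 6 1 = true :=
  ⟨(a (a (b (b (a (c (b (l 16513408) (l 16529320)) (b (l 16503824) (l 16521808))) (b (l 16526344) (l 16542848))) (b (a (c (a (l 16540912) (l 16549056)) (a (l 16534920) (l 16544000))) (c (l 16560904) (l 16557296))) (b (a (a (l 16550264) (l 16558664)) (l 16570936)) (c (l 16554136) (l 16557336))))) (b (b (c (a (l 16576968) (l 16591480)) (a (l 16572648) (l 16589360))) (a (c (l 16592672) (l 16588584)) (c (l 16606544) (l 16604720)))) (b (a (c (l 16608032) (l 16583560)) (l 16620672)) (a (c (l 16644152) (l 16631112)) (c (l 16635856) (l 16635696)))))) (b (b (a (l 16595976) (l 16525296)) (a (b (l 16575152) (l 16590488)) (b (l 16590488) (l 16605440)))) (b (b (l 16549800) (l 16564176)) (b (b (l 16595792) (l 16602912)) (a (l 16628112) (l 16661912)))))) (b (b (a (b (l 16581872) (l 16597192)) (a (l 16568480) (l 16546944))) (a (b (l 16604520) (l 16587600)) (b (l 16518784) (a (l 16574944) (l 16551776))))) (b (a (b (l 16613464)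 (l 16597784)) (b (c (l 16571016) (l 16563336)) (c (l 16575744) (l 16567272)))) (a (b (l 16561288) (c (l 16590840) (l 16584352))) (b (c (l 16580768) (l 16571152)) (a (l 16593024) (c (l 16573880) (l 16561592)))))))), by decide +kernel⟩

def k2_pp_022_s : ∃ t, chk3 f_pp_022_s t 8 7 1 = true :=
  ⟨(b (a (b (b (b (a (a (c (l 16634496) (l 16632832)) (l 16647064)) (l 16624360)) (a (a (c (l 16642208) (l 16641152)) (l 16654792)) (l 16621192))) (b (a (a (c (a (l 16647288) (l 16653224)) (l 16649752)) (l 16683808)) (l 16631448)) (l 14))) (l 14)) (b (b (a (a (l 16605112) (b (l 16621368) (l 16623704))) (a (b (l 16596416) (l 16598488)) (b (l 16570896) (a (l 16579216) (l 16566184))))) (b (a (a (l 16629616) (l 16625688)) (a (l 16584488) (c (l 16581672) (l 16566320)))) (a (l 14) (a (l 14) (c (l 16583120) (l 16556552)))))) (a (l 14) (a (l 14) (a (l 14) (l 1)))))) (a (l 14) (a (l 14) (l 1)))), by decide +kernel⟩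

def k3_pp_022_s : ∃ t, chk3 f_pp_022_s t 9 3 1 = true :=
  ⟨(b (b (b (l 6) (a (a (b (l 16493672) (a (l 16528040) (l 16503760))) (b (l 6) (a (l 16478968) (l 6)))) (l 6))) (a (b (a (b (a (l 16530960) (l 16505920)) (a (l 16534448) (l 16508672))) (b (a (b (l 16479896) (l 16480880)) (b (a (l 16460544) (l 6)) (l 109554598359))) (a (c (l 16490384) (l 16474184)) (c (l 91301000039) (l 16446344))))) (a (c (b (a (l 16544400) (l 16518920)) (a (l 16548672) (l 70363118327))) (b (a (l 16531424) (l 16503808)) (a (l 16534176) (l 56941305143)))) (b (a (c (l 81637361399) (l 16470488)) (l 1)) (l 1)))) (b (b (b (l 6) (b (l 6) (l 1))) (l 1)) (l 1)))) (b (a (b (a (b (a (c (b (l 16551824) (l 16553736)) (b (l 16536008) (l 16537016))) (c (l 16139163111) (l 16507336))) (a (a (b (l 16553824) (l 1)) (l 1)) (l 1))) (l 1)) (l 1)) (l 1)) (l 1))), by decide +kernel⟩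

def k4_pp_022_s : ∃ t, chk3 f_pp_022_s t 5 1 1 = true :=
  ⟨(b (l 6) (b (l 1) (l 1))), by decide +kernel⟩

def k5_pp_022_s : ∃ t, chk3 f_pp_022_s t 3 1 1 = true :=
  ⟨(l 1), by decide +kernel⟩

theorem s6_pp_022_s : ∃ t, chk3 f_pp_022_s t 8 3 1 = true := ex3_b k1_pp_022_s k2_pp_022_s

theorem s7_pp_022_s : ∃ t, chk3 f_pp_022_s t 4 3 1 = true := ex3_a s6_pp_022_s k3_pp_022_s

theorem s8_pp_022_s : ∃ t, chk3 f_pp_022_s t 4 1 1 = true := ex3_b k0_pp_022_s s7_pp_022_s

theorem s9_pp_022_s : ∃ t, chk3 f_pp_022_s t 2 1 1 = true := ex3_a s8_pp_022_s k4_pp_022_s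

theorem s10_pp_022_s : ∃ t, chk3 f_pp_022_s t 1 1 1 = true := ex3_a s9_pp_022_s k5_pp_022_s

theorem c_pp_022_s : CertNE 0 536870912 0 536870912 818728140 40265320 3 eng mog cd0q0 cd0q2 pd2 false true true .pp 0 2 2
    ndB0q0 ndB0q2 pcB2 cut_pp_022_s Ext.none :=
  certNE2 (fam := false) (s1 := true) (s2 := true) (a := 0) (b := 2) (c := 2) (cn := .pp) (n1 := ndB0q0) (n2 := ndB0q2) (pc := pcB2) (cut := cut_pp_022_s) (xt := Ext.none) (P1 := 0) (W1 := 536870912) (P2 := 0) (W2 := 536870912) (P3 := 818728140) (W3 := 40265320) (N0 := 3) (En := eng) (mo := mog) (C1 := cd0q0) (C2 := cd0q2) (C3 := pd2)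
    rfl (fun _ => rfl) s10_pp_022_s

noncomputable def cut_pp_022_t : Cut := Cut.of [[⟨3, 0, 0, 2845415833⟩], [⟨0, 0, 0, 67108864⟩, ⟨1, 1, 0, 67108864⟩, ⟨2, 1, 0, 67108864⟩]]

noncomputable def f_pp_022_t : ℕ → ℕ → ℕ → ℕ → Bool := onCell 0 536870912 0 536870912 818728140 40265320
    (rowNE 3 eng mog cd0q0 cd0q2 pd2 0 false true true .pp 0 2 2 (qsf 0 536870912 0 536870912 2) ndB0q0 ndB0q2 pcB2 cut_pp_022_t Ext.none)

def k0_pp_022_t : ∃ t, chk3 f_pp_022_t t 1 1 1 = true :=
  ⟨(l 6), by decide +kernel⟩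

theorem c_pp_022_t : CertNE 0 536870912 0 536870912 818728140 40265320 3 eng mog cd0q0 cd0q2 pd2 false true true .pp 0 2 2
    ndB0q0 ndB0q2 pcB2 cut_pp_022_t Ext.none :=
  certNE0 (fam := false) (s1 := true) (s2 := true) (a := 0) (b := 2) (c := 2) (cn := .pp) (n1 := ndB0q0) (n2 := ndB0q2) (pc := pcB2) (cut := cut_pp_022_t) (xt := Ext.none) (P1 := 0) (W1 := 536870912) (P2 := 0) (W2 := 536870912) (P3 := 818728140) (W3 := 40265320) (N0 := 3) (En := eng) (mo := mog) (C1 := cd0q0) (C2 := cd0q2) (C3 := pd2)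
    rfl k0_pp_022_t

noncomputable def cut_pp_101_s : Cut := Cut.of [[⟨4, 0, 0, 1449551462⟩]]

noncomputable def f_pp_101_s : ℕ → ℕ → ℕ → ℕ → Bool := onCell 536870912 536870912 536870912 536870912 818728140 40265320
    (rowNE 3 eng mog cd0q1 cd0q1 pd0 0 false true true .npn 1 0 1 (qsf 536870912 536870912 536870912 536870912 0) ndB0q1 ndB0q1 pcB0 cut_pp_101_s Ext.none)

def k0_pp_101_s : ∃ t, chk3 f_pp_101_s t 1 1 1 = true :=
  ⟨(l 3), by decide +kernel⟩

theorem c_pp_101_s : CertNE 536870912 536870912 536870912 536870912 818728140 40265320 3 eng mog cd0q1 cd0q1 pd0 false true true .npn 1 0 1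
    ndB0q1 ndB0q1 pcB0 cut_pp_101_s Ext.none :=
  certNE0 (fam := false) (s1 := true) (s2 := true) (a := 1) (b := 0) (c := 1) (cn := .npn) (n1 := ndB0q1) (n2 := ndB0q1) (pc := pcB0) (cut := cut_pp_101_s) (xt := Ext.none) (P1 := 536870912) (W1 := 536870912) (P2 := 536870912) (W2 := 536870912) (P3 := 818728140) (W3 := 40265320) (N0 := 3) (En := eng) (mo := mog) (C1 := cd0q1) (C2 := cd0q1) (C3 := pd0)
    rfl k0_pp_101_s

noncomputable def cut_pp_101_t : Cut := Cut.of [[⟨3, 0, 0, 2845415833⟩]]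

noncomputable def f_pp_101_t : ℕ → ℕ → ℕ → ℕ → Bool := onCell 536870912 536870912 536870912 536870912 818728140 40265320
    (rowNE 3 eng mog cd0q1 cd0q1 pd0 0 false true true .npn 1 0 1 (qsf 536870912 536870912 536870912 536870912 0) ndB0q1 ndB0q1 pcB0 cut_pp_101_t Ext.none)

def k0_pp_101_t : ∃ t, chk3 f_pp_101_t t 1 1 1 = true :=
  ⟨(l 3), by decide +kernel⟩

theorem c_pp_101_t : CertNE 536870912 536870912 536870912 536870912 818728140 40265320 3 eng mog cd0q1 cd0q1 pd0 false true true .npn 1 0 1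
    ndB0q1 ndB0q1 pcB0 cut_pp_101_t Ext.none :=
  certNE0 (fam := false) (s1 := true) (s2 := true) (a := 1) (b := 0) (c := 1) (cn := .npn) (n1 := ndB0q1) (n2 := ndB0q1) (pc := pcB0) (cut := cut_pp_101_t) (xt := Ext.none) (P1 := 536870912) (W1 := 536870912) (P2 := 536870912) (W2 := 536870912) (P3 := 818728140) (W3 := 40265320) (N0 := 3) (En := eng) (mo := mog) (C1 := cd0q1) (C2 := cd0q1) (C3 := pd0)
    rfl k0_pp_101_t

noncomputable def cut_pp_102_s : Cut := Cut.of [[⟨4, 0, 0, 1449551462⟩]]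

noncomputable def f_pp_102_s : ℕ → ℕ → ℕ → ℕ → Bool := onCell 0 536870912 0 536870912 818728140 40265320
    (rowNE 3 eng mog cd0q1 cd0q2 pd0 2 false true true .npp 1 0 2 (qsf 536870912 536870912 0 536870912 0) ndB0q1 ndB0q2 pcB0 cut_pp_102_s Ext.none)

def k0_pp_102_s : ∃ t, chk3 f_pp_102_s t 1 1 1 = true :=
  ⟨(a (b (l 3) (l 3)) (l 3)), by decide +kernel⟩

theorem c_pp_102_s : CertNE 536870912 536870912 0 536870912 818728140 40265320 3 eng mog cd0q1 cd0q2 pd0 false true true .npp 1 0 2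
    ndB0q1 ndB0q2 pcB0 cut_pp_102_s Ext.none :=
  certNE2 (fam := false) (s1 := true) (s2 := true) (a := 1) (b := 0) (c := 2) (cn := .npp) (n1 := ndB0q1) (n2 := ndB0q2) (pc := pcB0) (cut := cut_pp_102_s) (xt := Ext.none) (P1 := 536870912) (W1 := 536870912) (P2 := 0) (W2 := 536870912) (P3 := 818728140) (W3 := 40265320) (N0 := 3) (En := eng) (mo := mog) (C1 := cd0q1) (C2 := cd0q2) (C3 := pd0)
    rfl (fun _ => rfl) k0_pp_102_s

noncomputable def cut_pp_102_t : Cut := Cut.of [[⟨3, 0, 0, 2845415833⟩]]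

noncomputable def f_pp_102_t : ℕ → ℕ → ℕ → ℕ → Bool := onCell 536870912 536870912 0 536870912 818728140 40265320
    (rowNE 3 eng mog cd0q1 cd0q2 pd0 0 false true true .npp 1 0 2 (qsf 536870912 536870912 0 536870912 0) ndB0q1 ndB0q2 pcB0 cut_pp_102_t Ext.none)

def k0_pp_102_t : ∃ t, chk3 f_pp_102_t t 1 1 1 = true :=
  ⟨(l 6), by decide +kernel⟩

theorem c_pp_102_t : CertNE 536870912 536870912 0 536870912 818728140 40265320 3 eng mog cd0q1 cd0q2 pd0 false true true .npp 1 0 2
    ndB0q1 ndB0q2 pcB0 cut_pp_102_t Ext.none :=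
  certNE0 (fam := false) (s1 := true) (s2 := true) (a := 1) (b := 0) (c := 2) (cn := .npp) (n1 := ndB0q1) (n2 := ndB0q2) (pc := pcB0) (cut := cut_pp_102_t) (xt := Ext.none) (P1 := 536870912) (W1 := 536870912) (P2 := 0) (W2 := 536870912) (P3 := 818728140) (W3 := 40265320) (N0 := 3) (En := eng) (mo := mog) (C1 := cd0q1) (C2 := cd0q2) (C3 := pd0)
    rfl k0_pp_102_t

noncomputable def cut_pp_112_s : Cut := Cut.of [[⟨4, 0, 0, 1449551462⟩]]

noncomputable def f_pp_112_s : ℕ → ℕ → ℕ → ℕ → Bool := onCell 536870912 536870912 0 536870912 818728140 40265320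
    (rowNE 3 eng mog cd0q1 cd0q2 pd1 2 false true true .dn 1 1 2 (qsf 536870912 536870912 0 536870912 1) ndB0q1 ndB0q2 pcB1 cut_pp_112_s Ext.none)

def k0_pp_112_s : ∃ t, chk3 f_pp_112_s t 1 1 1 = true :=
  ⟨(a (b (a (a (l 3) (b (b (a (b (a (l 169282076599) (b (l 84993368775) (l 167671475111))) (l 3)) (b (a (b (l 16758592) (a (l 100025790487) (l 16771072))) (l 16750240)) (a (l 171429560743) (b (a (l 97878305463) (l 16770920)) (l 169818959239))))) (l 3)) (l 3))) (a (b (b (a (b (a (l 16733784) (a (l 16721832) (l 16713824))) (a (b (l 16758624) (a (l 94657079255) (l 16770584))) (l 16749904))) (l 1)) (a (b (a (l 178945750679) (b (a (l 90362113607) (l 16770016)) (l 179482633863))) (l 3)) (l 1))) (l 3)) (l 1))) (l 3)) (l 1)), by decide +kernel⟩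

theorem c_pp_112_s : CertNE 536870912 536870912 0 536870912 818728140 40265320 3 eng mog cd0q1 cd0q2 pd1 false true true .dn 1 1 2
    ndB0q1 ndB0q2 pcB1 cut_pp_112_s Ext.none :=
  certNE2 (fam := false) (s1 := true) (s2 := true) (a := 1) (b := 1) (c := 2) (cn := .dn) (n1 := ndB0q1) (n2 := ndB0q2) (pc := pcB1) (cut := cut_pp_112_s) (xt := Ext.none) (P1 := 536870912) (W1 := 536870912) (P2 := 0) (W2 := 536870912) (P3 := 818728140) (W3 := 40265320) (N0 := 3) (En := eng) (mo := mog) (C1 := cd0q1) (C2 := cd0q2) (C3 := pd1)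
    rfl (fun _ => rfl) k0_pp_112_s

noncomputable def cut_pp_112_t : Cut := Cut.of [[⟨3, 0, 0, 2845415833⟩]]

noncomputable def f_pp_112_t : ℕ → ℕ → ℕ → ℕ → Bool := onCell 536870912 536870912 0 536870912 818728140 40265320
    (rowNE 3 eng mog cd0q1 cd0q2 pd1 0 false true true .dn 1 1 2 (qsf 536870912 536870912 0 536870912 1) ndB0q1 ndB0q2 pcB1 cut_pp_112_t Ext.none)

def k0_pp_112_t : ∃ t, chk3 f_pp_112_t t 1 1 1 = true :=
  ⟨(l 6), by decide +kernel⟩

theorem c_pp_112_t : CertNE 536870912 536870912 0 536870912 818728140 40265320 3 eng mog cd0q1 cd0q2 pd1 false true true .dn 1 1 2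
    ndB0q1 ndB0q2 pcB1 cut_pp_112_t Ext.none :=
  certNE0 (fam := false) (s1 := true) (s2 := true) (a := 1) (b := 1) (c := 2) (cn := .dn) (n1 := ndB0q1) (n2 := ndB0q2) (pc := pcB1) (cut := cut_pp_112_t) (xt := Ext.none) (P1 := 536870912) (W1 := 536870912) (P2 := 0) (W2 := 536870912) (P3 := 818728140) (W3 := 40265320) (N0 := 3) (En := eng) (mo := mog) (C1 := cd0q1) (C2 := cd0q2) (C3 := pd1)
    rfl k0_pp_112_t

noncomputable def cut_pp_202_s : Cut := Cut.of [[⟨4, 0, 0, 1449551462⟩]]

noncomputable def f_pp_202_s : ℕ → ℕ → ℕ → ℕ → Bool := onCell 0 536870912 0 536870912 818728140 40265320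
    (rowNE 3 eng mog cd0q2 cd0q2 pd0 0 false true true .pp 2 0 2 (qsf 0 536870912 0 536870912 0) ndB0q2 ndB0q2 pcB0 cut_pp_202_s Ext.none)

def k0_pp_202_s : ∃ t, chk3 f_pp_202_s t 1 1 1 = true :=
  ⟨(l 3), by decide +kernel⟩

theorem c_pp_202_s : CertNE 0 536870912 0 536870912 818728140 40265320 3 eng mog cd0q2 cd0q2 pd0 false true true .pp 2 0 2
    ndB0q2 ndB0q2 pcB0 cut_pp_202_s Ext.none :=
  certNE0 (fam := false) (s1 := true) (s2 := true) (a := 2) (b := 0) (c := 2) (cn := .pp) (n1 := ndB0q2) (n2 := ndB0q2) (pc := pcB0) (cut := cut_pp_202_s) (xt := Ext.none) (P1 := 0) (W1 := 536870912) (P2 := 0) (W2 := 536870912) (P3 := 818728140) (W3 := 40265320) (N0 := 3) (En := eng) (mo := mog) (C1 := cd0q2) (C2 := cd0q2) (C3 := pd0)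
    rfl k0_pp_202_s

noncomputable def cut_pp_202_t : Cut := Cut.of [[⟨3, 0, 0, 2845415833⟩]]

noncomputable def f_pp_202_t : ℕ → ℕ → ℕ → ℕ → Bool := onCell 0 536870912 0 536870912 818728140 40265320
    (rowNE 3 eng mog cd0q2 cd0q2 pd0 0 false true true .pp 2 0 2 (qsf 0 536870912 0 536870912 0) ndB0q2 ndB0q2 pcB0 cut_pp_202_t Ext.none)

def k0_pp_202_t : ∃ t, chk3 f_pp_202_t t 1 1 1 = true :=
  ⟨(l 3), by decide +kernel⟩

theorem c_pp_202_t : CertNE 0 536870912 0 536870912 818728140 40265320 3 eng mog cd0q2 cd0q2 pd0 false true true .pp 2 0 2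
    ndB0q2 ndB0q2 pcB0 cut_pp_202_t Ext.none :=
  certNE0 (fam := false) (s1 := true) (s2 := true) (a := 2) (b := 0) (c := 2) (cn := .pp) (n1 := ndB0q2) (n2 := ndB0q2) (pc := pcB0) (cut := cut_pp_202_t) (xt := Ext.none) (P1 := 0) (W1 := 536870912) (P2 := 0) (W2 := 536870912) (P3 := 818728140) (W3 := 40265320) (N0 := 3) (En := eng) (mo := mog) (C1 := cd0q2) (C2 := cd0q2) (C3 := pd0)
    rfl k0_pp_202_t

noncomputable def cut_pm_001_s : Cut := Cut.of [[⟨4, 0, 0, 1449551462⟩]]

noncomputable def f_pm_001_s : ℕ → ℕ → ℕ → ℕ → Bool := onCell 0 536870912 536870912 536870912 818728140 40265320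
    (rowNE 3 eng mog cd0q0 cd0q1 pd0 0 false true false .up 0 0 1 (qsf 0 536870912 536870912 536870912 0) ndB0q0 ndB0q1 pcB0 cut_pm_001_s Ext.none)

def k0_pm_001_s : ∃ t, chk3 f_pm_001_s t 1 1 1 = true :=
  ⟨(l 6), by decide +kernel⟩

theorem c_pm_001_s : CertNE 0 536870912 536870912 536870912 818728140 40265320 3 eng mog cd0q0 cd0q1 pd0 false true false .up 0 0 1
    ndB0q0 ndB0q1 pcB0 cut_pm_001_s Ext.none :=
  certNE0 (fam := false) (s1 := true) (s2 := false) (a := 0) (b := 0) (c := 1) (cn := .up) (n1 := ndB0q0) (n2 := ndB0q1) (pc := pcB0) (cut := cut_pm_001_s) (xt := Ext.none) (P1 := 0) (W1 := 536870912) (P2 := 536870912) (W2 := 536870912) (P3 := 818728140) (W3 := 40265320) (N0 := 3) (En := eng) (mo := mog) (C1 := cd0q0) (C2 := cd0q1) (C3 := pd0)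
    rfl k0_pm_001_s

noncomputable def cut_pm_001_t : Cut := Cut.of [[⟨3, 0, 0, 2845415833⟩]]

noncomputable def f_pm_001_t : ℕ → ℕ → ℕ → ℕ → Bool := onCell 0 536870912 536870912 536870912 818728140 40265320
    (rowNE 3 eng mog cd0q0 cd0q1 pd0 0 false true false .up 0 0 1 (qsf 0 536870912 536870912 536870912 0) ndB0q0 ndB0q1 pcB0 cut_pm_001_t Ext.none)

def k0_pm_001_t : ∃ t, chk3 f_pm_001_t t 2 1 1 = true :=
  ⟨(b (l 4) (b (b (l 4) (l 2)) (l 2))), by decide +kernel⟩

def k1_pm_001_t : ∃ t, chk3 f_pm_001_t t 3 4 1 = true :=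
  ⟨(l 4), by decide +kernel⟩

def k2_pm_001_t : ∃ t, chk3 f_pm_001_t t 6 5 1 = true :=
  ⟨(l 4), by decide +kernel⟩

def k3_pm_001_t : ∃ t, chk3 f_pm_001_t t 7 10 1 = true :=
  ⟨(a (l 4) (b (a (l 4) (a (l 4) (b (l 4) (b (l 4) (a (l 4) (b (l 206393297767) (l 105461544647))))))) (a (b (l 4) (a (l 4) (b (a (l 4) (l 235921183991)) (a (l 232699960871) (a (l 108682756519) (l 16762208)))))) (b (a (b (l 4) (a (l 4) (b (l 186529076919) (l 66269971415)))) (b (a (b (l 199413977095) (l 79691741671)) (l 16769304)) (a (l 16767608) (l 16756920)))) (a (b (a (b (l 105461530679) (l 16763560)) (l 16765592)) (a (l 16763264) (l 16772280))) (b (l 16769904) (l 16755880))))))), by decide +kernel⟩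

def k4_pm_001_t : ∃ t, chk3 f_pm_001_t t 7 11 1 = true :=
  ⟨(a (b (a (l 4) (b (l 4) (a (l 4) (b (a (l 4) (b (l 224646902903) (l 106535275479))) (a (b (l 212835747687) (l 85597318103)) (l 16768216)))))) (a (b (a (l 4) (b (l 4) (a (l 4) (l 209077647031)))) (a (b (l 4) (a (l 4) (b (l 216593840183) (l 109219631367)))) (b (a (a (l 4) (l 178476013639)) (b (l 83449834503) (l 16770008))) (a (b (l 16762512) (l 16767456)) (l 16759672))))) (b (a (b (a (b (l 4) (l 217130710183)) (b (l 105998398487) (l 65733101191))) (a (b (a (l 105998408311) (l 16765736)) (l 34594596631)) (l 16764176))) (b (a (l 16766216) (l 16754048)) (c (l 16746896) (l 16745800)))) (a (b (a (l 16762056) (l 16764912)) (c (l 16743072) (l 16742360))) (b (a (b (l 16742160) (l 16735432)) (l 16726912)) (a (l 16746320) (l 16713608))))))) (b (a (b (a (b (a (l 4) (b (l 4) (l 208540781799))) (a (b (l 4) (a (l 4) (l 16755104))) (b (l 80228608983) (l 16768432)))) (b (a (b (l 108145890007) (l 16770240)) (l 16760856))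 (a (l 16758968) (l 16766824)))) (a (b (a (b (l 54458813095) (l 16766560)) (l 16762624)) (a (l 16755728) (a (l 16746224) (l 16739848)))) (a (a (l 16761424) (l 16754920)) (l 16745296)))) (b (a (b (a (l 16769240) (l 16736472)) (l 16748504)) (b (l 16720336) (l 16705912))) (a (a (l 16712136) (l 16700744)) (a (l 16690176) (l 16680424))))) (a (a (a (b (b (l 16741696) (l 16728120)) (l 16729176)) (b (l 16743368) (l 16696088))) (b (a (b (l 16716464) (l 16703208)) (l 16723440)) (a (l 16683784) (l 16671560)))) (b (a (a (l 16685344) (l 16674248)) (l 16680112)) (a (b (l 16660784) (l 16648336)) (b (l 16640616) (l 16628408))))))), by decide +kernel⟩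

def k5_pm_001_t : ∃ t, chk3 f_pm_001_t t 3 24 1 = true :=
  ⟨(a (a (l 4) (a (l 4) (b (a (l 4) (b (l 4) (a (l 211225125623) (a (b (l 217130716647) (l 16775840)) (l 72712421175))))) (a (b (a (l 4) (b (l 4) (l 176328530919))) (a (b (l 218741323799) (a (l 104387794823) (l 16775264))) (b (l 80228614615) (l 16767048)))) (b (a (b (l 85597314135) (l 16770152)) (l 16762584)) (a (l 16759560) (l 16748544))))))) (a (a (a (b (b (a (b (l 202098331223) (l 85060449559)) (l 16768256)) (a (l 16765488) (l 16754344))) (b (l 16759104) (l 16732104))) (b (a (b (l 16757064) (l 16722272)) (l 16760016)) (c (l 16738384) (l 16737856)))) (a (b (b (a (l 16734752) (l 16723432)) (l 16736544)) (b (l 16723016) (l 16688536))) (b (a (l 16726216) (b (l 16700296) (l 16687048))) (a (l 16678536) (l 16667200))))) (a (b (a (b (l 16703616) (a (l 16675384) (l 16663624))) (l 16673168)) (a (a (l 16655712) (l 16665080)) (a (l 16653360) (l 16620776)))) (a (b (l 16629560) (l 16604488)) (b (a (l 16614568) (l 16605600))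 (l 16585360)))))), by decide +kernel⟩

def k6_pm_001_t : ∃ t, chk3 f_pm_001_t t 3 25 1 = true :=
  ⟨(a (a (a (l 4) (b (l 4) (a (l 4) (b (l 4) (a (b (l 4) (l 2)) (b (c (l 191360914167) (l 195655880215)) (a (l 94187253767) (l 16772048)))))))) (a (b (a (b (l 4) (a (l 4) (b (l 4) (l 192971526359)))) (b (a (l 224110043799) (b (l 189213430967) (l 88281675559))) (a (b (a (l 204245817927) (l 16775736)) (l 16771304)) (l 16763992)))) (a (b (a (b (l 225183772263) (a (l 204245817543) (l 93113521239))) (b (a (l 92039771959) (l 16772264)) (l 16767680))) (a (b (l 48016370071) (l 16763760)) (l 16756568))) (b (a (l 16760408) (l 16749536)) (b (l 16744040) (l 16736704))))) (b (a (b (a (l 16767368) (l 16756400)) (a (l 16753072) (l 16742192))) (b (l 16760984) (l 16725968))) (a (b (l 16754352) (l 16719048)) (l 16725872))))) (a (a (a (b (c (l 16732416) (l 16711152)) (b (l 16711544) (l 16676752))) (b (a (l 16716096) (l 16684416)) (a (l 16667784) (l 16657264)))) (b (a (a (l 16673704) (l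 16662872)) (l 16667352)) (a (l 16662432) (l 16619944)))) (a (a (b (l 16644880) (l 16597912)) (b (a (l 16606704) (l 16595312)) (l 16575472))) (b (a (a (l 16584512) (l 16574408)) (l 16560656)) (a (l 16596208) (a (l 16540208) (l 16531792))))))), by decide +kernel⟩

def k7_pm_001_t : ∃ t, chk3 f_pm_001_t t 3 13 1 = true :=
  ⟨(a (a (b (a (l 2) (b (a (l 2) (a (l 2) (b (l 53787732391) (l 2)))) (l 2))) (l 2)) (b (a (b (a (a (b (l 16752376) (l 169214875383)) (c (l 16755256) (l 16754784))) (b (a (b (l 16734608) (l 16727136)) (l 16720312)) (a (l 16715816) (l 16705448)))) (a (b (a (l 2) (l 16710528)) (l 2)) (b (l 16716248) (l 16679160)))) (b (b (a (a (l 16709808) (l 16699352)) (l 16704704)) (a (l 16711008) (l 16669528))) (a (b (l 16675136) (l 16659600)) (l 16668624)))) (a (a (l 2) (b (l 40902695399) (l 2))) (a (b (l 16655904) (l 16619992)) (b (l 16616416) (l 16582360)))))) (a (b (b (a (a (b (l 16662912) (l 16649032)) (l 16656408)) (a (l 16614776) (l 16593688))) (a (a (l 16648744)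 (l 16607824)) (a (l 16587720) (l 16567144)))) (b (a (a (l 16597672) (l 16578672)) (a (l 16559352) (l 16539448))) (a (a (l 16565248) (l 16547624)) (l 16555504)))) (b (a (b (a (l 16572096) (l 16550080)) (a (l 16546016) (l 16524432))) (b (a (l 16529240) (l 16532152)) (a (l 16503872) (l 16485984)))) (a (b (a (l 16518912) (l 16497808)) (a (l 16490808) (l 6))) (b (a (l 16477520) (l 6)) (l 6)))))), by decide +kernel⟩

def k8_pm_001_t : ∃ t, chk3 f_pm_001_t t 3 7 1 = true :=
  ⟨(a (b (a (l 2) (b (a (l 2) (b (a (l 2) (l 16544888)) (l 2))) (l 2))) (l 2)) (b (a (b (b (a (a (l 16530072) (l 16514416)) (a (l 16497896) (l 16480240))) (a (a (l 82778352455) (l 16499976)) (l 6))) (a (b (l 137002230343) (l 2)) (l 6))) (l 6)) (l 6))), by decide +kernel⟩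

theorem s9_pm_001_t : ∃ t, chk3 f_pm_001_t t 3 12 1 = true := ex3_b k5_pm_001_t k6_pm_001_t

theorem s10_pm_001_t : ∃ t, chk3 f_pm_001_t t 3 6 1 = true := ex3_b s9_pm_001_t k7_pm_001_t

theorem s11_pm_001_t : ∃ t, chk3 f_pm_001_t t 3 3 1 = true := ex3_b s10_pm_001_t k8_pm_001_t

theorem s12_pm_001_t : ∃ t, chk3 f_pm_001_t t 7 5 1 = true := ex3_b k3_pm_001_t k4_pm_001_t

theorem s13_pm_001_t : ∃ t, chk3 f_pm_001_t t 3 5 1 = true := ex3_a k2_pm_001_t s12_pm_001_t

theorem s14_pm_001_t : ∃ t, chk3 f_pm_001_t t 3 2 1 = true := ex3_b k1_pm_001_t s13_pm_001_t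

theorem s15_pm_001_t : ∃ t, chk3 f_pm_001_t t 3 1 1 = true := ex3_b s14_pm_001_t s11_pm_001_t

theorem s16_pm_001_t : ∃ t, chk3 f_pm_001_t t 1 1 1 = true := ex3_a k0_pm_001_t s15_pm_001_t

theorem c_pm_001_t : CertNE 0 536870912 536870912 536870912 818728140 40265320 3 eng mog cd0q0 cd0q1 pd0 false true false .up 0 0 1
    ndB0q0 ndB0q1 pcB0 cut_pm_001_t Ext.none :=
  certNE0 (fam := false) (s1 := true) (s2 := false) (a := 0) (b := 0) (c := 1) (cn := .up) (n1 := ndB0q0) (n2 := ndB0q1) (pc := pcB0) (cut := cut_pm_001_t) (xt := Ext.none) (P1 := 0) (W1 := 536870912) (P2 := 536870912) (W2 := 536870912) (P3 := 818728140) (W3 := 40265320) (N0 := 3) (En := eng) (mo := mog) (C1 := cd0q0) (C2 := cd0q1) (C3 := pd0)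
    rfl s16_pm_001_t

noncomputable def cut_pm_011_s : Cut := Cut.of [[⟨4, 0, 0, 1449551462⟩], [⟨0, 0, 0, 67108864⟩, ⟨1, 1, 0, 67108864⟩, ⟨2, 1, 0, 67108864⟩]]

noncomputable def f_pm_011_s : ℕ → ℕ → ℕ → ℕ → Bool := onCell 0 536870912 536870912 536870912 818728140 40265320
    (rowNE 3 eng mog cd0q0 cd0q1 pd1 0 false true false .pnn 0 1 1 (qsf 0 536870912 536870912 536870912 1) ndB0q0 ndB0q1 pcB1 cut_pm_011_s Ext.none)

def k0_pm_011_s : ∃ t, chk3 f_pm_011_s t 1 1 1 = true :=
  ⟨(l 6), by decide +kernel⟩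

theorem c_pm_011_s : CertNE 0 536870912 536870912 536870912 818728140 40265320 3 eng mog cd0q0 cd0q1 pd1 false true false .pnn 0 1 1
    ndB0q0 ndB0q1 pcB1 cut_pm_011_s Ext.none :=
  certNE0 (fam := false) (s1 := true) (s2 := false) (a := 0) (b := 1) (c := 1) (cn := .pnn) (n1 := ndB0q0) (n2 := ndB0q1) (pc := pcB1) (cut := cut_pm_011_s) (xt := Ext.none) (P1 := 0) (W1 := 536870912) (P2 := 536870912) (W2 := 536870912) (P3 := 818728140) (W3 := 40265320) (N0 := 3) (En := eng) (mo := mog) (C1 := cd0q0) (C2 := cd0q1) (C3 := pd1)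
    rfl k0_pm_011_s

end Pool.Agent.Strip051.G.I7625_8000.Tab.CS.BB00

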