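import Pool.Agent.Strip051.G.I7625_8000.Tab
import Pool.Agent.Strip051.PB.StripB

/-! # Strips, near vertex: certificates 7 (generated) -/

set_option linter.all false
set_option maxRecDepth 100000

namespace Pool.Agent.Strip051.G.I7625_8000.Tab.CS.BB00

open Pool.Agent.Strip051.PB Pool.Agent.Strip051.PB.T
open Pool.Agent.Strip051.G.I7625_8000.Tab

noncomputable def cut_pm_011_t : Cut := Cut.of [[⟨3, 0, 0, 2845415833⟩], [⟨0, 0, 0, 67108864⟩, ⟨1, 1, 0, 67108864⟩, ⟨2, 1, 0, 67108864⟩]]

noncomputable def f_pm_011_t : ℕ → ℕ → ℕ → ℕ → Bool := onCell 0 536870912 536870912 536870912 818728140 40265320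
    (rowNE 3 eng mog cd0q0 cd0q1 pd1 0 false true false .pnn 0 1 1 (qsf 0 536870912 536870912 536870912 1) ndB0q0 ndB0q1 pcB1 cut_pm_011_t Ext.none)

def k0_pm_011_t : ∃ t, chk3 f_pm_011_t t 1 2 1 = true :=
  ⟨(a (l 4) (b (l 1) (a (l 4) (l 1)))), by decide +kernel⟩

def k1_pm_011_t : ∃ t, chk3 f_pm_011_t t 2 6 1 = true :=
  ⟨(a (l 4) (b (l 4) (a (l 4) (b (l 4) (a (b (l 4) (a (l 4) (b (l 4) (a (l 4) (b (l 4) (a (l 4) (a (b (l 4) (b (l 251490463847) (l 51237623943))) (b (l 228405013863) (l 16777952))))))))) (b (a (l 4) (b (a (l 4) (b (l 4) (a (l 4) (l 246121744231)))) (a (b (l 4) (a (l 255785419831) (a (l 202635208951) (b (l 216056983447) (l 16774992))))) (b (b (a (l 4) (a (l 105461588887) (l 16775976))) (a (l 176328536199) (l 16773400))) (a (b (l 16774856) (l 16770864)) (l 16767376)))))) (a (a (b (l 4) (b (a (c (l 232163107079) (l 231626233639)) (b (a (l 232699981047) (l 26004691639)) (l 16773944))) (a (a (b (a (l 63048785175) (l 16776024)) (l 16772568)) (l 16771872)) (l 16767688)))) (b (b (a (l 4) (b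 (l 4) (l 195119017351))) (a (a (l 215520110391) (b (l 228941884727) (l 16775272))) (b (c (l 16780440) (l 16775160)) (l 16771128)))) (b (a (l 16770472) (l 16764920)) (l 16769840)))) (b (a (b (b (a (a (l 224110046743) (l 16776400)) (l 16772336)) (l 16773632)) (l 16764872)) (b (l 16762024) (l 16753864))) (a (a (l 16765712) (l 16749728)) (l 16741512)))))))))), by decide +kernel⟩

def k2_pm_011_t : ∃ t, chk3 f_pm_011_t t 8 14 1 = true :=
  ⟨(l 4), by decide +kernel⟩

def k3_pm_011_t : ∃ t, chk3 f_pm_011_t t 9 28 1 = true :=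
  ⟨(l 4), by decide +kernel⟩

def k4_pm_011_t : ∃ t, chk3 f_pm_011_t t 18 29 1 = true :=
  ⟨(l 4), by decide +kernel⟩

def k5_pm_011_t : ∃ t, chk3 f_pm_011_t t 19 58 1 = true :=
  ⟨(l 4), by decide +kernel⟩

def k6_pm_011_t : ∃ t, chk3 f_pm_011_t t 38 59 1 = true :=
  ⟨(l 4), by decide +kernel⟩

def k7_pm_011_t : ∃ t, chk3 f_pm_011_t t 39 118 1 = true :=
  ⟨(l 4), by decide +kernel⟩

def k8_pm_011_t : ∃ t, chk3 f_pm_011_t t 78 119 1 = true :=
  ⟨(b (l 4) (a (l 4) (b (l 4) (b (b (l 4) (a (l 4) (a (l 4) (a (l 4) (b (c (l 212298891895) (l 163443640023)) (a (a (l 117272741063) (l 16777848)) (l 16776976))))))) (a (b (l 4) (b (l 4) (a (l 4) (a (l 4) (a (l 4) (a (l 143579415671) (l 83986744519))))))) (a (a (b (l 4) (b (a (l 161296156119) (a (l 108682806407) (l 16777824))) (a (l 16777696) (l 16776688)))) (b (b (l 4) (a (l 135526352375) (a (l 75396809863) (l 16777096)))) (c (l 16776440) (l 16776448)))) (b (a (b (a (a (l 152706221223) (l 96334775463)) (l 16777728)) (l 16776656)) (l 16776224)) (c (l 16775320) (l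 16775352))))))))), by decide +kernel⟩

def k9_pm_011_t : ∃ t, chk3 f_pm_011_t t 79 238 1 = true :=
  ⟨(a (l 4) (b (b (l 4) (a (l 4) (a (l 4) (a (l 4) (a (l 4) (b (l 4) (l 224646923047))))))) (b (a (l 4) (b (a (l 4) (a (b (l 4) (a (l 126399546807) (l 16777784))) (a (b (l 96871646647) (l 16776784)) (l 16777376)))) (a (a (c (c (l 194582151863) (l 195119022775)) (l 135526353319)) (b (a (l 154853705127) (l 65733133719)) (l 16777480))) (c (l 16776024) (l 16776040))))) (a (a (b (l 4) (b (l 4) (a (l 4) (a (l 113514644935) (l 16777744))))) (a (b (c (l 222499439575) (l 226257535927)) (a (b (l 86134228423) (l 16776744)) (l 16777328))) (b (c (b (l 137136965351) (l 16777688)) (l 73786198215)) (l 16776128)))) (c (c (a (b (l 16776984) (c (l 16773672) (l 16772368))) (b (l 16772944) (l 16773480))) (c (l 16775528) (l 16774880))) (a (l 16775640) (l 16771552))))))), by decide +kernel⟩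

def k10_pm_011_t : ∃ t, chk3 f_pm_011_t t 158 239 1 = true :=
  ⟨(b (b (a (l 4) (a (a (l 4) (b (l 4) (c (l 212298892183) (l 214446375799)))) (a (b (l 4) (b (a (l 4) (l 108682806695)) (c (l 16777640) (l 16776984)))) (b (a (l 4) (b (l 4) (l 80765519271))) (c (l 16777224) (l 16776576)))))) (a (a (l 4) (b (l 4) (b (a (l 4) (a (l 127473288647) (l 16777872))) (a (a (l 155390576039) (a (l 95797904551) (l 16777160))) (l 16776720))))) (a (a (b (b (l 224646922935) (a (l 101166613927) (l 16777040))) (l 16776464)) (b (a (b (a (l 107609064583) (l 16777168)) (l 16776688)) (l 16777112)) (l 16775552))) (c (c (l 16775048) (l 16775056)) (l 16775088))))) (b (a (a (b (b (a (l 4) (a (l 4) (a (l 130694513815) (l 16777712)))) (a (c (l 195119022567) (l 137673836199)) (c (l 16777584) (l 16776928)))) (a (a (b (a (l 84523615431) (l 16777128)) (l 16776616)) (l 16776888)) (l 16776000))) (c (a (b (l 16777168) (l 16773936)) (l 16775128)) (l 16775528))) (c (a (a (b (l 16773704) (l 16773744)) (b (l 16774272) (l 16773000))) (c (b (l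 16773136) (l 16771856)) (l 16769904))) (l 16773320))) (c (a (a (a (b (l 16774160) (l 16774192)) (b (l 16773408) (l 16773448))) (b (a (l 16773968) (l 16773224)) (l 16773632))) (a (a (l 16773152) (l 16773712)) (l 16771280))) (a (l 16773760) (a (l 16768928) (l 16770080)))))), by decide +kernel⟩

def k11_pm_011_t : ∃ t, chk3 f_pm_011_t t 159 239 1 = true :=
  ⟨(a (a (b (b (a (b (b (a (l 140358190615) (l 56069457239)) (l 16777432)) (l 16775840)) (c (l 16776040) (l 16775736))) (c (a (b (l 16773248) (l 16773288)) (b (l 16773808) (l 16772544))) (l 16770984))) (b (c (c (l 16773616) (l 16771032)) (l 16768488)) (b (l 16770480) (l 16770536)))) (c (b (b (a (l 16774968) (b (l 16773536) (l 16773584))) (c (l 16774008) (l 16772072))) (b (l 16772144) (l 16766992))) (b (b (l 16774632) (l 16769512)) (b (l 16769632) (l 16767144))))) (b (b (a (c (c (b (l 16773712) (l 16772440)) (l 16770480)) (l 16770528)) (c (c (l 16774200) (l 16771608)) (l 16769056))) (a (c (l 16771872) (l 16770656)) (c (l 16771688) (l 16769184)))) (b (c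 (c (l 16769880) (l 16767320)) (c (l 16767392) (l 16767472))) (c (l 16767384) (l 16764944))))), by decide +kernel⟩

def k12_pm_011_t : ∃ t, chk3 f_pm_011_t t 16 30 1 = true :=
  ⟨(l 4), by decide +kernel⟩

def k13_pm_011_t : ∃ t, chk3 f_pm_011_t t 17 60 1 = true :=
  ⟨(l 4), by decide +kernel⟩

def k14_pm_011_t : ∃ t, chk3 f_pm_011_t t 34 61 1 = true :=
  ⟨(l 4), by decide +kernel⟩

def k15_pm_011_t : ∃ t, chk3 f_pm_011_t t 35 122 1 = true :=
  ⟨(l 4), by decide +kernel⟩

def k16_pm_011_t : ∃ t, chk3 f_pm_011_t t 70 123 1 = true :=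
  ⟨(l 4), by decide +kernel⟩

def k17_pm_011_t : ∃ t, chk3 f_pm_011_t t 71 246 1 = true :=
  ⟨(l 4), by decide +kernel⟩

def k18_pm_011_t : ∃ t, chk3 f_pm_011_t t 142 247 1 = true :=
  ⟨(l 4), by decide +kernel⟩

def k19_pm_011_t : ∃ t, chk3 f_pm_011_t t 143 494 1 = true :=
  ⟨(l 4), by decide +kernel⟩

def k20_pm_011_t : ∃ t, chk3 f_pm_011_t t 286 495 1 = true :=
  ⟨(a (l 4) (b (l 4) (b (l 4) (b (a (l 4) (b (b (l 4) (a (l 4) (a (l 4) (a (l 4) (a (l 116735869239) (l 62511907143)))))) (b (a (l 4) (a (a (l 4) (a (l 131768254791) (l 81839259959))) (c (l 16777288) (l 16777128)))) (a (a (l 4) (c (c (l 138210705767) (l 138747576679)) (l 129620771255))) (a (c (l 16777304) (l 16777144)) (l 16776960)))))) (a (a (l 4) (b (c (c (c (l 216593858903) (l 217130729815)) (l 217667600727)) (l 219815084359)) (b (a (c (l 165591122343) (l 170422960535)) (a (a (l 102777225511) (l 16777368)) (l 16777144))) (a (a (c (l 85060485431) (l 16777224)) (l 16777320)) (l 16777024))))) (b (a (b (a (c (c (l 143042544007) (l 143579414919))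 (l 143579414951)) (c (c (l 16777312) (l 16777152)) (l 16777152))) (a (a (a (l 81839259959) (l 16777352)) (l 16777128)) (l 16776992))) (c (l 16776792) (l 16776800))) (c (a (l 16776824) (a (l 16776208) (l 16776344))) (l 16776648)))))))), by decide +kernel⟩

def k21_pm_011_t : ∃ t, chk3 f_pm_011_t t 287 990 1 = true :=
  ⟨(a (l 4) (b (b (l 4) (b (l 4) (a (l 4) (a (l 4) (c (c (l 223573180791) (l 227868148071)) (l 229478760807)))))) (b (a (l 4) (a (b (l 4) (a (b (l 4) (a (l 146263769431) (a (l 79154905399) (l 16777192)))) (b (c (a (l 124788932935) (l 16777192)) (l 16777216)) (l 16777160)))) (b (b (a (l 4) (a (a (l 127473287495) (l 77544292663)) (l 16777328))) (a (a (a (l 144653156695) (l 103850967319)) (l 16777384)) (l 16777048))) (c (l 16776920) (l 16776888))))) (a (a (b (l 4) (a (b (l 4) (c (c (l 127473287575) (l 138210705767)) (l 128547029431))) (b (a (l 4) (a (l 130157642055) (l 80228647223))) (c (l 16777304) (l 16777136))))) (b (b (a (l 4) (a (l 154316833143) (a (l 104924709143) (l 16777368)))) (a (a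 (l 163443638663) (a (l 115125256503) (l 16777376))) (c (l 16777112) (l 16777112)))) (c (c (c (l 16777104) (l 16776944)) (l 16776944)) (l 16776952)))) (c (b (c (c (a (l 16776912) (l 16776040)) (l 16776720)) (l 16776728)) (a (a (l 16776336) (l 16776144)) (c (l 16776176) (l 16776192)))) (c (l 16776568) (l 16776576))))))), by decide +kernel⟩

def k22_pm_011_t : ∃ t, chk3 f_pm_011_t t 287 1982 1 = true :=
  ⟨(a (b (a (l 4) (a (b (l 4) (b (c (l 218741342471) (l 172033573495)) (a (l 4) (a (a (l 116198998327) (l 61975036231)) (l 16777320))))) (c (b (b (c (l 206930182375) (l 159148671543)) (a (l 156464316823) (c (l 16777328) (l 16777168)))) (b (a (a (l 66806874439) (l 16777144)) (l 16777000)) (l 16776920))) (b (a (l 165054251607) (a (l 95797903927) (l 16777352))) (l 16777256))))) (a (b (b (l 4) (a (l 4) (a (l 4) (c (a (l 116198998327) (l 16777184)) (l 16777208))))) (b (a (l 4) (a (c (a (l 124788932951) (l 16777360)) (l 16777384)) (l 16777072))) (a (a (l 4) (a (l 145190027623) (a (l 81839259959) (l 16777360))))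 (c (l 16776984) (l 16776992))))) (b (a (b (a (a (c (l 104387838247) (l 16777240)) (l 16777336)) (l 16777040)) (c (l 16776952) (l 16776960))) (c (l 16776664) (l 16776680))) (c (a (l 16776696) (c (l 16776640) (l 16776320))) (l 16776528))))) (b (a (a (a (c (b (b (l 16777352) (l 16776984)) (l 16776400)) (l 16777072)) (c (c (l 16776704) (l 16776712)) (l 16776728))) (c (b (a (l 16776368) (l 16776176)) (c (l 16776248) (l 16776256))) (l 16776448))) (a (c (b (a (l 16776312) (l 16776120)) (l 16776200)) (l 16775424)) (c (c (l 16775984) (l 16775672)) (l 16775056)))) (c (a (a (b (c (l 16776608) (l 16776288)) (l 16776264)) (c (l 16776048) (l 16775736))) (c (c (l 16775792) (l 16775152)) (l 16775832))) (a (a (l 16775488) (l 16775120)) (a (l 16775408) (l 16775040)))))), by decide +kernel⟩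

def k23_pm_011_t : ∃ t, chk3 f_pm_011_t t 287 1983 1 = true :=
  ⟨(b (a (a (a (b (a (b (a (l 156464316791) (c (l 67343745351) (l 16777216))) (a (l 16777320) (l 16777072))) (c (l 16777176) (l 16777016))) (c (l 16776760) (l 16776776))) (c (b (l 16776728) (a (l 16776144) (l 16776280))) (l 16776576))) (a (a (c (b (l 16776112) (l 16776096)) (l 16775640)) (c (c (l 16776400) (l 16776088)) (l 16775456))) (c (c (l 16776272) (l 16775144)) (l 16775184)))) (a (c (c (a (l 16775400) (l 16775016)) (l 16775888)) (c (l 16774280) (l 16775304))) (c (c (l 16775104) (l 16774480)) (c (l 16774528) (l 16774576))))) (a (a (a (b (c (a (l 16776176) (l 16776312)) (l 16775776)) (c (a (l 16776152) (l 16775968)) (l 16776096))) (c (c (l 16776256) (c (l 16775856) (l 16775872))) (l 16775240))) (a (c (c (l 16776120) (l 16775488)) (l 16774872)) (c (l 16775424) (l 16775160)))) (a (c (c (l 16775160) (l 16774544)) (c (l 16774584) (l 16774632))) (c (l 16774256) (l 16773872))))), by decide +kernel⟩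

def k24_pm_011_t : ∃ t, chk3 f_pm_011_t t 16 31 1 = true :=
  ⟨(b (b (l 4) (l 14)) (l 14)), by decide +kernel⟩

def k25_pm_011_t : ∃ t, chk3 f_pm_011_t t 68 124 1 = true :=
  ⟨(l 4), by decide +kernel⟩

def k26_pm_011_t : ∃ t, chk3 f_pm_011_t t 69 248 1 = true :=
  ⟨(l 4), by decide +kernel⟩

def k27_pm_011_t : ∃ t, chk3 f_pm_011_t t 138 249 1 = true :=
  ⟨(l 4), by decide +kernel⟩

def k28_pm_011_t : ∃ t, chk3 f_pm_011_t t 139 498 1 = true :=
  ⟨(l 4), by decide +kernel⟩

def k29_pm_011_t : ∃ t, chk3 f_pm_011_t t 139 998 1 = true :=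
  ⟨(l 4), by decide +kernel⟩

def k30_pm_011_t : ∃ t, chk3 f_pm_011_t t 139 1998 1 = true :=
  ⟨(a (l 4) (a (l 4) (b (a (l 4) (a (l 4) (b (l 4) (b (a (l 4) (a (l 4) (b (l 165591122183) (c (l 16777288) (l 16777208))))) (a (b (l 4) (a (l 4) (c (l 16777296) (l 16777216)))) (c (c (c (l 16777288) (l 16777288)) (l 16777128)) (l 16777128))))))) (a (a (l 4) (b (l 4) (a (a (l 4) (b (l 4) (c (l 157538058519) (l 160222413079)))) (b (a (l 4) (c (c (l 145190027527) (l 145726898439)) (l 133378867543))) (a (b (c (l 121567707367) (l 16777240)) (l 16777344)) (c (l 16777136) (l 16777136))))))) (a (a (b (b (l 4) (a (l 4) (a (l 172570444055) (b (l 4) (l 16777296))))) (a (b (b (c (l 101166612727) (l 16777232)) (l 16777168)) (l 16777040)) (c (l 16777112) (l 16777040)))) (b (b (a (l 4) (b (l 4) (c (l 73249325319) (l 16777224)))) (a (b (a (l 153779962039) (l 16777296)) (l 16777160)) (l 16777192))) (c (l 16776888) (l 16776904)))) (c (a (b (b (a (a (l 52848230631) (l 16777168)) (l 16777096)) (l 16776968)) (b (l 16776464) (l 16776616)))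 (b (l 16776864) (c (l 16776832) (l 16776520)))) (a (a (b (l 16777264) (l 16776112)) (l 16776848)) (l 16776704)))))))), by decide +kernel⟩

def k31_pm_011_t : ∃ t, chk3 f_pm_011_t t 278 1999 1 = true :=
  ⟨(l 4), by decide +kernel⟩

def k32_pm_011_t : ∃ t, chk3 f_pm_011_t t 279 3998 1 = true :=
  ⟨(a (a (l 4) (a (l 4) (a (l 4) (b (l 4) (b (l 4) (b (a (l 4) (c (l 16777336) (l 16777216))) (a (a (l 115125256407) (l 16777208)) (l 16777144)))))))) (a (a (a (b (c (c (l 223573180695) (l 225720664343)) (l 230015631623)) (b (a (b (l 4) (a (l 97408516295) (l 16777192))) (c (l 16777328) (l 16777168))) (a (l 16777088) (l 16777000)))) (b (b (a (l 4) (b (l 4) (l 152706220279))) (a (b (l 161296154871) (c (l 16777200) (l 16777200))) (c (l 16777320) (l 16777160)))) (c (l 16776944) (l 16776952)))) (b (b (b (a (a (l 148948123879) (l 16777312)) (l 16777048)) (a (c (l 16777312) (l 16777152)) (l 16776968))) (c (c (l 16776920) (l 16776928)) (l 16776936))) (c (a (b (l 16776512) (l 16776336)) (b (l 16776648) (l 16776472))) (l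 16776672)))) (c (b (a (a (b (l 16776488) (l 16776640)) (b (l 16776624) (l 16776448))) (c (l 16776576) (l 16775928))) (a (c (l 16776600) (l 16775792)) (c (l 16775888) (l 16775904)))) (a (b (l 16776648) (l 16775816)) (b (l 16775632) (l 16775288)))))), by decide +kernel⟩

def k33_pm_011_t : ∃ t, chk3 f_pm_011_t t 279 3999 1 = true :=
  ⟨(a (a (a (l 4) (b (l 4) (b (l 4) (a (l 4) (a (c (c (l 155390574871) (l 156464316695)) (l 153779962167)) (b (c (l 125862674663) (l 16777240)) (l 16777304))))))) (a (a (b (l 4) (b (a (c (c (l 147874382087) (l 148948123911)) (l 136600093015)) (b (a (l 4) (l 95261032631)) (l 16777336))) (c (c (l 16777088) (l 16777088)) (l 16777096)))) (b (b (l 4) (a (a (l 174181056791) (b (l 4) (l 16777304))) (b (a (l 160222412983) (l 16777296)) (l 16777160)))) (c (c (l 16777072) (l 16776992)) (l 16777000)))) (b (a (b (a (b (l 4) (a (l 148411252919) (l 16777296))) (b (c (l 69491228935) (l 16777224)) (l 16777152))) (c (l 16777064) (l 16777072))) (c (c (l 16776960) (l 16776968)) (l 16776976)))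 (c (a (l 16776800) (b (l 16776368) (l 16776520))) (l 16776720))))) (a (b (a (c (a (b (l 16776536) (l 16776360)) (b (l 16776344) (l 16776496))) (l 16776696)) (c (a (a (l 16776440) (l 16776352)) (l 16776536)) (l 16775840))) (a (c (a (a (l 16776136) (l 16776376)) (l 16776560)) (l 16775864)) (c (c (l 16775936) (l 16775952)) (l 16775336)))) (a (b (c (a (l 16776016) (l 16775824)) (l 16775312)) (c (l 16775896) (l 16775624))) (c (c (l 16775680) (l 16775376)) (c (l 16775408) (l 16775448)))))), by decide +kernel⟩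

def k34_pm_011_t : ∃ t, chk3 f_pm_011_t t 68 125 1 = true :=
  ⟨(b (b (l 4) (l 14)) (l 14)), by decide +kernel⟩

def k35_pm_011_t : ∃ t, chk3 f_pm_011_t t 138 1000 1 = true :=
  ⟨(l 4), by decide +kernel⟩

def k36_pm_011_t : ∃ t, chk3 f_pm_011_t t 138 2002 1 = true :=
  ⟨(a (l 4) (a (l 4) (b (l 4) (a (l 4) (a (b (l 4) (b (a (l 4) (a (l 4) (a (l 4) (b (l 4) (l 96334774471))))) (b (a (l 4) (a (c (l 122104578279) (l 16777328)) (l 16777296))) (a (c (c (l 155390574871) (l 156464316695)) (l 146263769447)) (c (l 16777256) (l 16777136)))))) (b (b (b (l 4) (a (l 4) (a (l 4) (c (l 77007421703) (l 16777224))))) (b (a (l 4) (a (c (l 90429194471) (l 16777232)) (l 16777160))) (a (a (l 4) (a (l 162906767559) (l 72175583447))) (c (l 16777112) (l 16777120))))) (b (b (a (a (c (l 102777225463) (l 16777232)) (l 16777248)) (l 16777032)) (c (c (l 16777128) (l 16777032)) (l 16777040))) (c (c (l 16776896) (l 16776904)) (l 16776912))))))))), by decide +kernel⟩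

def k37_pm_011_t : ∃ t, chk3 f_pm_011_t t 276 2003 1 = true :=
  ⟨(l 4), by decide +kernel⟩

def k38_pm_011_t : ∃ t, chk3 f_pm_011_t t 554 2003 1 = true :=
  ⟨(b (l 4) (b (a (l 4) (a (l 4) (a (l 4) (b (l 4) (a (b (l 4) (c (l 89355452663) (l 16777232))) (b (c (l 84523614439) (l 16777224)) (l 16777160))))))) (a (l 4) (a (a (l 4) (b (l 4) (c (b (a (l 4) (l 121567707351)) (a (l 123715191015) (l 16777176))) (a (l 159685542151) (l 54458843447))))) (b (a (a (a (l 4) (b (l 4) (l 81302388967))) (b (c (l 96871645431) (l 16777232)) (l 16777248))) (c (l 16777152) (l 16777080))) (c (b (a (l 16777208) (l 16776608)) (l 16776904)) (l 16777080))))))), by decide +kernel⟩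

def k39_pm_011_t : ∃ t, chk3 f_pm_011_t t 555 4006 1 = true :=
  ⟨(b (a (a (l 4) (b (b (l 4) (c (c (a (l 4) (l 162906767655)) (l 219815084247)) (l 220888826071))) (b (a (l 4) (a (l 159148671223) (c (l 16777280) (l 16777192)))) (a (a (l 4) (l 162906767623)) (c (c (l 16777280) (l 16777152)) (l 16777160)))))) (a (a (a (b (c (b (l 139284447463) (l 16777192)) (l 73249325351)) (l 16777064)) (b (c (l 16777264) (l 16777144)) (l 16776976))) (c (c (l 16776912) (l 16776920)) (l 16776928))) (c (a (b (a (l 16776864) (l 16776768)) (l 16776312)) (b (l 16776296) (l 16776448))) (l 16776648)))) (a (a (a (l 4) (b (l 4) (b (a (l 4) (c (l 52311359735) (l 16777208))) (a (a (l 112977772743) (l 16777280)) (l 16777136))))) (b (b (a (a (l 4) (c (l 16777328) (l 16777208))) (l 16777072)) (a (a (a (l 85060485351) (l 16777192)) (l 16777128)) (l 16776984))) (c (c (l 16776944) (l 16776944)) (l 16776952)))) (c (b (a (a (c (l 16776504) (l 16776840)) (l 16776320)) (c (l 16776360) (l 16776368))) (a (a (l 16776328) (l 16776472)) (l 16776512)))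 (a (l 16776672) (c (l 16775640) (l 16776320)))))), by decide +kernel⟩

def k40_pm_011_t : ∃ t, chk3 f_pm_011_t t 555 4007 1 = true :=
  ⟨(b (a (a (a (b (a (b (l 4) (a (l 129620771031) (l 16777288))) (b (a (l 118883352791) (l 16777288)) (l 16777144))) (c (l 16777064) (l 16777064))) (c (c (l 16776960) (l 16776960)) (l 16776968))) (c (a (b (a (l 16776576) (l 16776816)) (l 16776352)) (b (l 16776344) (l 16776488))) (l 16776696))) (a (a (c (a (l 16776768) (l 16776344)) (l 16775768)) (c (l 16776528) (l 16776240))) (c (c (l 16775904) (l 16775928)) (l 16775312)))) (a (c (a (a (b (c (l 16776552) (l 16776560)) (l 16776456)) (b (l 16776368) (l 16776512))) (a (b (l 16776504) (l 16776328)) (l 16776552))) (a (l 16776720) (c (l 16775688) (l 16776360)))) (a (c (a (l 16776032) (l 16775848)) (l 16775328)) (c (l 16775888) (l 16775624))))), by decide +kernel⟩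

def k41_pm_011_t : ∃ t, chk3 f_pm_011_t t 138 4008 1 = true :=
  ⟨(a (l 4) (b (a (a (a (l 4) (a (l 4) (b (l 4) (c (b (c (l 163443638567) (l 165054251303)) (a (l 161833025751) (l 16777280))) (a (l 173644185895) (l 79691776295)))))) (a (a (b (a (c (c (l 159148671255) (l 160222413079)) (l 155927445831)) (b (c (l 132305125607) (l 134989480167)) (c (l 16777184) (l 16777184)))) (c (c (c (l 16777184) (l 16777104)) (l 16777104)) (l 16777104))) (c (a (b (l 16777224) (l 16776632)) (l 16776960)) (l 16777096))) (c (a (c (b (l 16776576) (l 16776720)) (l 16776488)) (b (l 16776432) (l 16776536))) (l 16776736)))) (a (a (a (c (c (l 16776760) (l 16776440)) (l 16775808)) (c (l 16776576) (l 16776280))) (c (c (l 16776280) (l 16775976)) (l 16775352))) (a (c (l 16775912) (l 16775640)) (c (l 16775200) (l 16775280))))) (a (a (a (b (l 4) (b (l 4) (a (l 4) (a (l 4) (a (l 103314096327) (l 16777280)))))) (b (a (a (l 4) (b (l 163443638535) (c (l 16777328) (l 16777208)))) (a (c (c (l 16777280) (l 16777160)) (l 16777160)) (l 16777072)))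 (a (a (b (a (l 85597356263) (l 16777192)) (l 16777128)) (l 16777080)) (c (l 16776936) (l 16776952))))) (a (c (a (b (l 16776928) (c (l 16776744) (l 16776752))) (b (a (l 16776784) (l 16776688)) (l 16776560))) (l 16776760)) (a (c (c (l 16776784) (l 16776464)) (l 16775832)) (c (l 16776600) (l 16776304))))) (a (a (c (c (l 16776304) (l 16775992)) (l 16775536)) (c (l 16775936) (l 16775664))) (c (c (l 16775672) (l 16775056)) (c (l 16775096) (l 16775136))))))), by decide +kernel⟩

def k42_pm_011_t : ∃ t, chk3 f_pm_011_t t 138 4009 1 = true :=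
  ⟨(a (l 14) (a (a (a (a (l 14) (a (l 14) (b (b (l 16777136) (l 14)) (l 14)))) (c (c (b (b (a (l 16776616) (l 16776752)) (a (l 16776768) (l 16776576))) (a (l 16776824) (l 16776304))) (b (l 16776768) (a (l 16776512) (l 16776320)))) (c (l 16776600) (l 16776616)))) (b (a (a (c (c (l 16776800) (l 16776488)) (l 16775856)) (c (c (l 16776280) (l 16776296)) (l 16776328))) (c (c (l 16776328) (l 16776016)) (c (l 16776040) (l 16776064)))) (a (c (c (l 16776344) (l 16776040)) (c (l 16776064) (l 16776088))) (c (l 16775976) (l 16775704))))) (c (c (a (a (l 16775760) (l 16775704)) (l 16774808)) (a (c (l 16775760) (l 16775608)) (l 16775176))) (c (a (a (l 16776152) (l 16775128)) (l 16775232)) (a (a (l 16775536) (l 16775168)) (l 16774632)))))), by decide +kernel⟩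

def k43_pm_011_t : ∃ t, chk3 f_pm_011_t t 138 2005 1 = true :=
  ⟨(a (l 14) (a (a (a (l 14) (b (a (l 14) (b (c (l 16775952) (l 16776000)) (l 14))) (l 14))) (b (a (c (c (l 16775808) (l 16775832)) (c (l 16776192) (l 16775576))) (c (c (l 16775752) (l 16775128)) (c (l 16775168) (l 16775216)))) (c (c (l 16774896) (l 16775264)) (c (l 16775312) (l 16775368))))) (b (a (c (c (l 16774848) (l 16775224)) (a (l 16775480) (l 16774464))) (c (c (l 16773760) (l 16773816)) (l 16774568))) (a (c (a (l 16774016) (l 16773640)) (l 16774608)) (c (l 16773560) (l 16773224)))))), by decide +kernel⟩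

def k44_pm_011_t : ∃ t, chk3 f_pm_011_t t 138 1003 1 = true :=
  ⟨(a (l 14) (a (a (l 14) (a (l 14) (b (b (c (l 16773680) (l 16773816)) (l 14)) (l 14)))) (c (c (a (b (l 16773376) (l 16771280)) (b (l 16772616) (l 16770520))) (b (c (l 16773056) (l 16773096)) (l 16772312))) (c (b (a (l 16774184) (l 16772136)) (l 16772424)) (b (a (l 16774280) (l 16772248)) (l 16772560)))))), by decide +kernel⟩

def k45_pm_011_t : ∃ t, chk3 f_pm_011_t t 278 2000 2 = true :=
  ⟨(a (l 4) (b (b (l 4) (b (l 4) (b (l 4) (a (l 4) (a (l 4) (a (l 4) (a (l 4) (l 64122519815)))))))) (a (b (l 4) (b (l 4) (a (l 4) (a (l 4) (a (l 4) (a (l 4) (l 146263769351))))))) (a (b (a (l 4) (b (l 4) (a (l 4) (b (l 4) (l 99019129079))))) (b (b (a (l 4) (a (l 116198998231) (l 16777168))) (a (c (l 147337511191) (l 153243091207)) (l 16777128))) (a (b (a (l 127473287399) (l 16777176)) (l 16777216)) (l 16777000)))) (b (a (b (a (l 4) (b (l 4) (l 85597356263))) (a (b (l 90429194487) (l 16777160)) (l 16777112))) (b (a (b (l 72175583495) (l 16777152)) (l 16777104))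 (l 16776976))) (a (l 16776856) (b (l 16776464) (l 16776616)))))))), by decide +kernel⟩

def k46_pm_011_t : ∃ t, chk3 f_pm_011_t t 278 2001 2 = true :=
  ⟨(b (a (l 4) (a (a (b (a (l 4) (c (l 224110051607) (l 226257535255))) (a (b (l 4) (a (b (l 4) (l 64122519815)) (b (l 59290681591) (l 16777144)))) (b (b (a (l 4) (l 16777288)) (c (l 16777336) (l 16777168))) (l 16777040)))) (b (a (b (a (l 4) (l 168812347687)) (b (a (l 167738605783) (l 16777280)) (a (l 16777288) (l 16777120)))) (b (a (b (l 155927445703) (l 16777192)) (l 16777312)) (l 16777016))) (c (c (l 16776840) (l 16776848)) (l 16776848)))) (b (a (c (c (l 16776816) (l 16776824)) (l 16776824)) (a (b (l 16776632) (l 16776448)) (c (l 16776344) (l 16776360)))) (a (a (b (l 16776328) (l 16776472)) (c (l 16776368) (l 16776384))) (c (l 16776408) (l 16776096)))))) (a (a (l 4) (a (b (l 4) (b (a (l 4) (a (c (l 148411252999) (l 149484994823)) (b (l 106535321847) (l 16777176)))) (b (a (c (l 152706220311) (l 153779962135)) (l 16777216)) (a (a (l 134989480167) (l 16777184))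 (l 16777048))))) (b (a (b (l 4) (a (b (l 4) (l 97945387255)) (b (l 89892323575) (l 16777160)))) (b (a (b (l 4) (l 85060485351)) (b (l 71638712583) (l 16777152))) (l 16777064))) (c (a (c (l 16777072) (l 16776984)) (b (l 16776560) (l 16776704))) (l 16776976))))) (a (b (a (c (c (c (l 16776864) (l 16776864)) (l 16776872)) (l 16776872)) (a (b (l 16776352) (l 16776496)) (c (l 16776392) (l 16776400)))) (a (a (b (l 16776368) (l 16776520)) (c (l 16776416) (l 16776424))) (c (l 16776456) (l 16776144)))) (a (b (c (l 16776432) (l 16776120)) (l 16776088)) (c (l 16775872) (l 16776224)))))), by decide +kernel⟩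

def k47_pm_011_t : ∃ t, chk3 f_pm_011_t t 278 2002 2 = true :=
  ⟨(b (a (a (a (b (l 4) (b (b (l 4) (a (l 4) (a (l 4) (l 51774488807)))) (b (a (l 4) (a (l 56606327031) (l 16777136))) (a (a (l 4) (l 64122519799)) (l 16777088))))) (a (b (b (l 4) (b (l 176328540455) (a (l 173107314903) (l 16777280)))) (b (a (b (l 16777328) (l 16777128)) (l 16777080)) (l 16776944))) (b (b (a (l 167738605863) (b (l 154316832967) (l 16777192))) (c (c (l 16777232) (l 16777112)) (l 16777112))) (l 16776808)))) (b (b (a (b (a (l 16777264) (l 16776632)) (l 16776960)) (a (l 16776392) (l 16776536))) (a (a (c (l 16776592) (l 16776600)) (l 16776408)) (c (l 16776768) (l 16776456)))) (a (a (b (l 16776416) (l 16776568)) (c (l 16776792) (l 16776472))) (c (l 16776504) (l 16776520))))) (b (c (a (a (l 16776480) (l 16775768)) (l 16775520)) (a (a (l 16776168) (l 16775792)) (l 16775224))) (a (a (a (l 16775896) (l 16775712)) (l 16775752)) (a (l 16775048) (l 16774664))))) (a (a (a (b (b (a (a (b (l 68954358023) (l 16777152)) (l 16777104)) (l 16776960))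 (c (l 16776872) (l 16776880))) (a (b (a (l 16776840) (l 16776744)) (l 16776616)) (b (l 16776600) (l 16776424)))) (b (a (b (l 16776440) (l 16776592)) (c (l 16776816) (l 16776496))) (c (l 16776552) (c (l 16776232) (l 16776240))))) (b (a (c (l 16776528) (c (l 16776208) (l 16776216))) (c (l 16775816) (l 16775840))) (a (a (l 16775944) (l 16775752)) (l 16775800)))) (c (a (c (l 16775384) (l 16775728)) (l 16774952)) (a (c (l 16775744) (l 16775760)) (l 16774344))))), by decide +kernel⟩

def k48_pm_011_t : ∃ t, chk3 f_pm_011_t t 278 2003 2 = true :=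
  ⟨(a (b (b (c (a (a (l 16776528) (l 16775864)) (l 16775616)) (a (a (a (l 16776352) (l 16776168)) (l 16775880)) (l 16775976))) (a (a (a (l 16775992) (l 16775800)) (l 16775840)) (a (l 16775136) (l 16774760)))) (c (a (a (l 16775672) (l 16774960)) (l 16774720)) (a (c (l 16775832) (l 16775848)) (l 16775088)))) (c (a (b (l 16775000) (l 16773624)) (c (l 16773864) (l 16774544))) (a (c (l 16774680) (l 16774704)) (l 16773936)))), by decide +kernel⟩

def k49_pm_011_t : ∃ t, chk3 f_pm_011_t t 278 1000 3 = true :=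
  ⟨(b (a (l 4) (b (b (l 4) (b (l 4) (b (l 4) (a (l 4) (a (l 4) (a (l 4) (l 112440901943))))))) (a (b (l 4) (a (l 4) (c (c (l 222499438935) (l 223573180759)) (l 224110051671)))) (a (b (c (a (l 4) (l 208540795111)) (l 217667600695)) (b (a (l 157538058631) (c (l 16777328) (l 16777168))) (a (a (l 16777376) (l 16777136)) (l 16777008)))) (b (b (a (c (l 137136963959) (l 141968802151)) (l 16777312)) (a (l 16777360) (l 16776984))) (l 16776816)))))) (b (a (l 4) (a (a (b (c (l 230552502631) (l 233236857191)) (b (a (l 4) (a (l 100629741863) (l 16777168))) (a (a (l 107609063735) (l 16777176)) (l 16777048)))) (b (b (a (l 170422960551) (a (l 77007421735) (l 16777152))) (a (a (l 92576678167) (l 16777160)) (l 16777024))) (l 16776864))) (c (a (l 16776664) (b (l 16775808) (l 16776120))) (l 16776488)))) (a (a (l 4) (a (b (l 4) (b (a (l 4) (a (l 137136963927) (l 16777368))) (a (a (l 154316833079) (l 59290681671)) (l 16777096)))) (b (b (a (l 4) (a (l 115662127431) (l 16777184))) (a (a (l 127473287495) (l 16777360)) (l 16777072)))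 (c (l 16776904) (l 16776912))))) (a (c (a (l 16776704) (b (l 16775856) (l 16776168))) (c (l 16776536) (l 16776544))) (a (b (l 16775496) (l 16775808)) (b (l 16775784) (l 16775440))))))), by decide +kernel⟩

def k50_pm_011_t : ∃ t, chk3 f_pm_011_t t 278 1001 3 = true :=
  ⟨(b (b (a (a (a (b (l 4) (b (a (l 4) (a (l 4) (l 99019129127))) (a (a (l 4) (l 110293418279)) (l 16777296)))) (b (b (a (l 4) (a (l 170422960423) (l 75933679911))) (a (a (l 181160378663) (l 91502936343)) (l 16777112))) (c (c (l 16777112) (l 16776944)) (l 16776952)))) (c (b (a (l 16777088) (l 16776232)) (a (l 16776248) (l 16776208))) (c (a (l 16776760) (l 16775744)) (l 16776744)))) (a (a (b (l 16775704) (l 16775200)) (b (l 16775832) (l 16775488))) (c (c (l 16775736) (l 16775104)) (c (l 16775120) (l 16775144))))) (b (a (a (a (a (b (l 16777304) (l 16776976)) (l 16776880)) (c (l 16776112) (l 16775960))) (a (c (l 16776232) (l 16776256)) (l 16775224))) (a (a (l 16775512) (l 16775144)) (l 16775248))) (a (a (a (c (l 16776136) (l 16775984)) (c (l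 16776256) (l 16776272))) (a (l 16775240) (l 16775536))) (a (a (l 16775168) (l 16774800)) (l 16774256))))) (b (a (a (a (b (c (l 16776280) (l 16776296)) (l 16775288)) (b (l 16775264) (l 16775576))) (a (a (l 16774816) (l 16775288)) (a (l 16775112) (l 16774928)))) (a (a (l 16774648) (l 16774288)) (l 16774392))) (a (c (a (c (l 16775872) (l 16775888)) (l 16774488)) (a (a (l 16775448) (l 16775088)) (l 16774544))) (a (l 16774440) (l 16773048))))), by decide +kernel⟩

def k51_pm_011_t : ∃ t, chk3 f_pm_011_t t 558 2000 1 = true :=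
  ⟨(b (b (a (a (a (l 4) (b (l 4) (b (a (l 4) (l 164517380343)) (a (l 165591122183) (c (l 16777288) (l 16777200)))))) (a (b (a (c (l 168275476775) (l 170959831335)) (b (l 147874382071) (c (l 16777192) (l 16777192)))) (c (c (l 16777232) (l 16777112)) (l 16777112))) (c (a (b (l 16777312) (l 16776648)) (l 16776968)) (l 16777016)))) (a (c (a (l 16776824) (b (l 16776392) (l 16776544))) (l 16776744)) (a (c (b (l 16776536) (l 16776352)) (l 16775816)) (c (l 16776584) (l 16776288))))) (a (a (b (a (b (l 4) (a (l 4) (c (l 16777328) (l 16777208)))) (c (c (c (l 16777280) (l 16777288)) (l 16777120)) (l 16777128))) (a (a (b (a (l 111904030919) (l 16777200)) (l 16777144)) (l 16777096)) (c (l 16776952) (l 16776960)))) (c (a (l 16776848) (b (l 16776416) (l 16776568))) (l 16776768))) (a (a (c (b (l 16776560) (l 16776376)) (l 16775840)) (c (l 16776608) (l 16776312))) (c (c (l 16775984) (l 16776000)) (l 16775384))))) (a (c (b (a (a (l 16776832) (b (l 16776440) (l 16776592))) (a (c (l 16776816) (l 16776496)) (c (l 16776296)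 (l 16776312)))) (a (a (c (l 16776840) (l 16776520)) (c (l 16776320) (l 16776336))) (c (l 16776360) (l 16776048)))) (c (a (l 16776616) (b (l 16775760) (l 16776072))) (l 16776448))) (a (b (c (c (l 16776336) (l 16776024)) (l 16775408)) (c (l 16775992) (l 16775720))) (c (c (l 16775776) (l 16776128)) (c (l 16775504) (l 16775544)))))), by decide +kernel⟩

def k52_pm_011_t : ∃ t, chk3 f_pm_011_t t 558 2001 1 = true :=
  ⟨(a (b (a (b (c (c (l 16776384) (l 16776072)) (l 16775448)) (c (l 16776040) (l 16775760))) (c (c (l 16775824) (l 16776176)) (c (l 16775552) (l 16775584)))) (c (c (c (l 16775288) (l 16775632)) (l 16775496)) (a (a (l 16775344) (l 16775160)) (l 16775536)))) (b (c (c (a (l 16775768) (l 16774728)) (l 16775448)) (c (l 16775656) (a (l 16775224) (l 16774864)))) (c (c (l 16774864) (l 16774248)) (a (l 16774520) (l 16774152))))), by decide +kernel⟩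

def k53_pm_011_t : ∃ t, chk3 f_pm_011_t t 558 1001 1 = true :=
  ⟨(a (c (c (b (b (l 16774904) (l 16773536)) (l 16773112)) (b (c (l 16774584) (l 16774616)) (l 16772528))) (b (b (a (l 16774560) (l 16774200)) (l 16774352)) (a (l 16774160) (l 16772480)))) (b (c (b (a (l 16773704) (l 16773328)) (l 16773456)) (c (l 16773920) (l 16774000))) (c (c (l 16771696) (l 16771776)) (l 16772584)))), by decide +kernel⟩

def k54_pm_011_t : ∃ t, chk3 f_pm_011_t t 559 500 1 = true :=
  ⟨(c (b (b (a (b (a (b (a (l 16776064) (l 16775872)) (l 16775944)) (c (l 16775728) (l 16776080))) (a (a (l 16775504) (l 16775640)) (l 16775032))) (b (c (c (l 16775472) (l 16775488)) (l 16775520)) (c (l 16774768) (l 16774160)))) (c (a (c (l 16774280) (l 16774464)) (c (l 16773672) (l 16773048))) (a (c (l 16774496) (l 16774520)) (l 16773752)))) (c (b (c (l 16772536) (l 16773312)) (l 16771368)) (b (c (l 16773352) (l 16773400)) (l 16771960)))) (a (b (b (b (a (b (l 16775360) (l 16775672)) (c (l 16775456) (l 16775496))) (c (l 16775608) (c (l 16774984)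 (l 16775008)))) (b (a (l 16774472) (l 16774104)) (l 16774256))) (b (a (l 16774064) (l 16772392)) (l 16772512))) (b (c (b (b (l 16775560) (l 16774216)) (l 16773832)) (b (b (l 16774136) (l 16774272)) (l 16774568))) (b (l 16773152) (l 16770472))))), by decide +kernel⟩

def k55_pm_011_t : ∃ t, chk3 f_pm_011_t t 139 501 1 = true :=
  ⟨(b (c (a (c (a (a (b (b (l 16774760) (l 16773712)) (l 16773288)) (b (c (l 16773952) (l 16773984)) (l 16771872))) (a (b (l 16773200) (l 16771112)) (b (l 16771784) (l 16770344)))) (a (a (b (a (l 16774968) (l 16774592)) (l 16774016)) (b (l 16774032) (l 16771960))) (b (c (l 16772880) (l 16772920)) (l 16772144)))) (a (c (b (c (l 16770616) (l 16770664)) (l 16770512)) (b (l 16772056) (l 16769328))) (c (c (l 16769344) (l 16769736)) (c (l 16769808) (l 16769880))))) (b (a (a (b (a (a (l 16774736) (l 16774376)) (l 16774480)) (a (l 16774528) (l 16773136))) (a (a (l 16773592) (l 16773880)) (l 16772672))) (a (a (l 16772600) (l 16770560)) (l 16770776))) (a (a (a (a (l 16773672) (l 16773968))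 (l 16772760)) (c (l 16772256) (l 16772392))) (a (l 16770536) (l 16768088))))) (b (a (c (a (c (c (l 16772104) (l 16770840)) (l 16772224)) (c (l 16770600) (l 16769416))) (a (c (l 16772344) (l 16772472)) (c (l 16769560) (l 16769720)))) (c (a (a (l 16768208) (l 16767456)) (l 16767632)) (a (l 16768176) (l 16766712)))) (a (a (c (a (l 16771120) (l 16769056)) (c (l 16769640) (l 16769800))) (c (a (l 16768296) (l 16767536)) (l 16769568))) (a (c (l 16767712) (l 16766800)) (c (l 16764888) (l 16765336)))))), by decide +kernel⟩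

def k56_pm_011_t : ∃ t, chk3 f_pm_011_t t 69 251 1 = true :=
  ⟨(a (a (l 14) (a (l 14) (a (l 14) (b (b (b (c (l 16770448) (l 16769440)) (l 14)) (l 14)) (l 14))))) (a (a (b (c (b (c (c (l 16768480) (l 16767248)) (l 16768680)) (c (l 16766936) (l 16764528))) (b (c (l 16768864) (l 16769072)) (l 16766208))) (l 14)) (b (c (b (c (l 16766992) (l 16765864)) (c (l 16762792) (l 16763024))) (b (c (l 16766080) (l 16766312)) (l 16766056))) (b (c (l 16762656) (l 16760680)) (l 14)))) (b (c (b (c (c (l 16764656) (l 16763448)) (l 16765256)) (a (l 16763032) (l 16762504))) (b (a (l 16766048) (l 16765896)) (c (l 16761080) (l 16761424)))) (c (c (b (l 16760240) (l 16754720)) (b (l 16757936) (l 16755088))) (b (l 16761112) (l 16755728)))))), by decide +kernel⟩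

def k57_pm_011_t : ∃ t, chk3 f_pm_011_t t 140 248 1 = true :=
  ⟨(l 4), by decide +kernel⟩

def k58_pm_011_t : ∃ t, chk3 f_pm_011_t t 141 496 1 = true :=
  ⟨(l 4), by decide +kernel⟩

def k59_pm_011_t : ∃ t, chk3 f_pm_011_t t 141 994 1 = true :=
  ⟨(a (l 4) (a (l 4) (a (l 4) (b (l 4) (b (l 4) (b (b (l 4) (a (l 4) (a (l 4) (a (l 4) (c (l 110830289207) (l 16777240)))))) (b (a (l 4) (a (a (l 4) (b (l 4) (l 93113549079))) (c (c (l 16777312) (l 16777144)) (l 16777152)))) (a (a (l 4) (a (l 4) (b (l 4) (l 109756547367)))) (a (a (b (l 100092870951) (l 16777168)) (l 16777120)) (l 16776984)))))))))), by decide +kernel⟩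

def k60_pm_011_t : ∃ t, chk3 f_pm_011_t t 141 1990 1 = true :=
  ⟨(a (l 4) (b (a (l 4) (a (a (l 4) (b (c (c (c (l 223573180775) (l 225183793511)) (l 224646922599)) (l 226794406247)) (b (a (l 4) (a (b (l 163443638535) (l 16777368)) (c (l 16777160) (l 16777160)))) (a (a (b (l 4) (l 70564970743)) (c (l 16777336) (l 16777176))) (l 16777040))))) (b (a (b (a (c (c (l 162906767735) (l 163443638647)) (l 163443638679)) (a (b (l 116735869239) (l 16777184)) (l 16777296))) (a (a (b (l 150021865719) (l 16777360)) (l 16777288)) (l 16777008))) (c (c (l 16776808) (l 16776816)) (l 16776824))) (c (c (a (l 16776840) (a (l 16776552) (l 16776360))) (l 16776656)) (l 16776672))))) (a (a (l 4) (a (l 4) (b (l 4) (b (a (l 4) (a (c (l 137136963927) (l 139284447575)) (b (l 106535321895) (l 16777176)))) (a (a (c (l 165591122199) (l 157001187655)) (b (l 123178320183) (l 16777184))) (c (l 16777088) (l 16777096))))))) (a (a (b (b (a (l 4) (c (a (l 115662127415) (l 16777344)) (l 65733132695))) (a (a (c (l 125325803847) (l 16777376))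 (b (l 89892323607) (l 16777160))) (c (l 16777064) (l 16777072)))) (c (a (l 16777072) (l 16776800)) (l 16776904))) (c (c (b (l 16776864) (a (l 16776280) (l 16776416))) (l 16776696)) (l 16776712))) (a (b (c (c (a (l 16776576) (l 16776392)) (l 16775840)) (l 16775856)) (c (c (l 16776128) (l 16776144)) (l 16775520))) (b (c (a (l 16776200) (l 16776016)) (l 16775488)) (c (l 16776088) (l 16775808)))))))), by decide +kernel⟩

def k61_pm_011_t : ∃ t, chk3 f_pm_011_t t 141 3982 1 = true :=
  ⟨(a (l 4) (a (a (a (l 4) (b (l 4) (b (a (l 4) (a (l 4) (b (l 4) (l 75933679863)))) (a (a (l 4) (b (l 4) (l 85597356311))) (c (c (l 16777304) (l 16777144)) (l 16777144)))))) (a (b (b (a (l 4) (a (c (l 174717927719) (l 177402282279)) (b (l 156464316663) (l 16777360)))) (a (a (l 4) (b (l 4) (l 16777328))) (c (l 16777280) (l 16777120)))) (c (a (a (b (l 16777336) (l 16777008)) (l 16777000)) (l 16776856)) (l 16777120))) (c (b (a (b (l 16777272) (l 16776936)) (l 16776832)) (c (a (l 16776336) (l 16776472)) (l 16776248))) (c (l 16776760)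 (l 16776768))))) (a (b (c (a (c (a (l 16776312) (l 16776448)) (l 16775896)) (c (l 16776488) (l 16776176))) (l 16776384)) (a (c (c (l 16776512) (l 16776200)) (l 16775576)) (c (l 16776144) (l 16775864)))) (a (c (b (l 16776112) (l 16775432)) (c (l 16775648) (l 16775680))) (c (a (l 16775984) (l 16775136)) (l 16774640)))))), by decide +kernel⟩

def k62_pm_011_t : ∃ t, chk3 f_pm_011_t t 141 3983 1 = true :=
  ⟨(a (a (l 4) (a (l 4) (a (l 4) (b (l 4) (b (c (c (l 218741342471) (l 220888826119)) (l 221425697031)) (a (c (l 178476024199) (l 175254798759)) (a (b (l 160759283959) (l 16777368)) (c (l 16777152) (l 16777152))))))))) (a (a (a (a (b (c (c (l 212298891511) (l 214446375159)) (c (l 169886089751) (l 179012895207))) (a (b (b (l 128010158391) (l 16777192)) (l 16777064)) (c (l 16777136) (l 16777064)))) (b (b (a (l 4) (b (l 4) (l 101703483687))) (a (b (l 111367160103) (l 16777176)) (l 16777296))) (c (l 16776912) (l 16776928)))) (b (a (b (a (b (l 94724161815) (l 16777168)) (l 16777120)) (l 16776992)) (c (l 16776888)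 (l 16776896))) (c (c (a (l 16776392) (l 16776528)) (l 16776144)) (l 16775992)))) (c (b (c (a (a (l 16776368) (l 16776504)) (l 16776544)) (a (l 16776112) (l 16776232))) (a (c (l 16776568) (l 16776256)) (l 16776200))) (a (l 16776448) (c (l 16775416) (l 16775440))))) (c (c (a (a (l 16775984) (l 16775928)) (l 16775024)) (a (a (l 16776336) (l 16775304)) (l 16775392))) (a (a (a (l 16775152) (l 16775624)) (l 16774696)) (a (l 16774984) (l 16774616)))))), by decide +kernel⟩

def k63_pm_011_t : ∃ t, chk3 f_pm_011_t t 140 996 1 = true :=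
  ⟨(l 4), by decide +kernel⟩

def k64_pm_011_t : ∃ t, chk3 f_pm_011_t t 140 1994 1 = true :=
  ⟨(a (l 4) (a (l 4) (b (a (l 4) (a (b (l 4) (a (b (l 4) (a (c (l 166127993127) (l 168275476775)) (b (l 148948123879) (l 16777352)))) (b (a (c (l 157001187607) (l 159148671255)) (b (l 111904031031) (l 16777184))) (c (l 16777264) (l 16777104))))) (b (a (b (l 4) (a (b (l 4) (l 105461580071)) (b (l 96334774567) (l 16777168)))) (b (a (b (l 4) (l 89892323607)) (b (l 85060485383) (l 16777160))) (c (l 16777072) (l 16777080)))) (c (c (c (l 16776984) (l 16776904)) (l 16776904)) (l 16776912))))) (a (a (b (l 4) (b (a (l 4) (a (l 4) (b (l 4) (a (l 121567707351) (l 16777208))))) (a (a (l 4) (c (c (l 113514643783) (l 114588385607)) (l 118346481991))) (c (c (c (l 16777328) (l 16777304)) (l 16777144)) (l 16777144))))) (b (b (a (l 4) (a (c (l 173644185911) (l 180623507751)) (b (l 162369896695) (l 16777328)))) (a (a (l 4) (b (l 4) (l 65733132519))) (c (c (l 16777280) (l 16777120)) (l 16777120)))) (b (a (a (c (l 16777344) (l 16777176))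 (l 16777096)) (l 16776952)) (c (l 16776864) (l 16776880))))) (c (b (b (a (a (a (l 16777320) (l 16777064)) (l 16776592)) (a (l 16776408) (l 16776544))) (a (l 16776840) (a (l 16776560) (l 16776368)))) (a (a (a (l 16776392) (l 16776296)) (c (l 16776472) (l 16776488))) (c (l 16776520) (l 16776208)))) (b (a (l 16777064) (l 16775920)) (l 16776376))))))), by decide +kernel⟩

def k65_pm_011_t : ∃ t, chk3 f_pm_011_t t 280 1995 1 = true :=
  ⟨(l 4), by decide +kernel⟩

def k66_pm_011_t : ∃ t, chk3 f_pm_011_t t 562 1995 1 = true :=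
  ⟨(b (a (l 4) (a (b (l 4) (a (c (c (l 222499438871) (l 225183793431)) (l 228405018887)) (b (c (c (l 168275476855) (l 169349218679)) (l 168812347799)) (a (b (l 159148671223) (l 16777320)) (c (l 16777320) (l 16777152)))))) (b (b (c (a (l 4) (a (l 4) (a (l 4) (l 114051514679)))) (l 211225149671)) (a (a (l 4) (b (l 4) (l 118346481975))) (a (b (l 111904031015) (l 16777176)) (c (l 16777128) (l 16777136))))) (b (a (a (b (l 127473287479) (l 16777352)) (c (l 16777144) (l 16777144))) (l 16777008)) (c (l 16776920) (l 16776928)))))) (a (a (a (l 4) (b (l 4) (b (l 4) (a (c (c (l 142505672951) (l 143579414775)) (l 128547029319)) (b (a (l 163443638455) (l 16777296)) (l 16777168)))))) (a (b (l 4) (b (a (b (l 4) (a (l 151095607479) (l 16777216))) (c (c (l 16777352) (l 16777184)) (l 16777184))) (c (l 16777064) (l 16777072)))) (b (b (l 4) (a (b (l 4) (a (l 116198998231) (l 16777208))) (c (l 16777336) (l 16777176)))) (c (l 16776968) (l 16776976))))) (a (b (b (a (b (a (l 4) (l 53385101543)) (c (l 16777328) (l 16777168)))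 (l 16777032)) (c (l 16776944) (l 16776952))) (c (b (l 16776768) (a (l 16776688) (l 16776496))) (l 16776696))) (c (b (a (b (l 16776512) (l 16776664)) (c (l 16776224) (l 16776568))) (c (c (l 16776616) (l 16776296)) (l 16775656))) (l 16776504))))), by decide +kernel⟩

def k67_pm_011_t : ∃ t, chk3 f_pm_011_t t 563 1995 1 = true :=
  ⟨(a (a (b (a (b (b (a (b (l 96334774551) (l 16777168)) (l 16777200)) (l 16776992)) (b (l 16776816) (a (l 16776360) (l 16776272)))) (c (b (l 16776888) (c (l 16776528) (l 16776536))) (l 16776728))) (b (c (c (l 16776600) (l 16776280)) (l 16775656)) (c (a (l 16776016) (l 16775824)) (l 16775968)))) (b (c (b (a (a (l 16776416) (l 16776320)) (c (l 16776504) (l 16776512))) (c (l 16776568) (l 16776256))) (l 16776456)) (b (c (l 16776224) (l 16775944)) (c (l 16775872) (l 16775600))))) (b (a (b (c (c (l 16776544) (l 16776232)) (l 16775600)) (c (l 16776200) (l 16775912))) (c (c (l 16776064) (l 16776336)) (c (l 16775704) (l 16775736)))) (c (c (c (l 16775456) (l 16775800)) (c (l 16775816) (l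 16775832))) (c (c (l 16775192) (l 16775208)) (l 16774256))))), by decide +kernel⟩

def k68_pm_011_t : ∃ t, chk3 f_pm_011_t t 560 998 1 = true :=
  ⟨(b (l 4) (a (a (l 4) (b (l 4) (b (l 4) (b (a (l 4) (a (c (c (l 140358189319) (l 140895060231)) (l 128547029335)) (b (a (l 161833025735) (l 16777304)) (l 16777168)))) (a (a (c (c (l 148411253015) (l 153779962119)) (l 141431931223)) (b (a (l 4) (l 16777312)) (l 16777344))) (c (l 16777160) (l 16777088))))))) (a (b (l 4) (b (b (a (l 4) (b (a (l 4) (c (l 16777296) (l 16777216))) (c (c (l 16777344) (l 16777176)) (l 16777184)))) (a (a (a (l 171496702215) (b (l 4) (l 16777296))) (b (a (l 133378867415) (l 16777208)) (l 16777152))) (c (l 16777056) (l 16777064)))) (c (c (c (l 16776920) (l 16776888)) (l 16776888)) (l 16776896)))) (a (b (b (l 4) (b (c (c (l 182234120551) (l 183844733287)) (l 177939153319)) (a (b (l 4) (a (l 103314096327) (l 16777200))) (c (l 16777328) (l 16777168))))) (c (b (l 16776952) (b (l 16776360) (l 16776512))) (l 16776792))) (b (b (c (c (l 219815084295)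 (l 221962567943)) (l 223036309767)) (b (a (b (l 164517380343) (c (l 16777200) (l 16777200))) (c (l 16777320) (l 16777160))) (c (l 16777032) (l 16777040)))) (c (b (b (l 16776528) (l 16776352)) (c (l 16776408) (l 16776416))) (l 16776608))))))), by decide +kernel⟩

def k69_pm_011_t : ∃ t, chk3 f_pm_011_t t 560 999 1 = true :=
  ⟨(a (b (b (a (a (b (b (l 4) (a (c (l 174181056807) (l 176328540455)) (b (l 155390574839) (c (l 16777200) (l 16777200))))) (c (a (b (l 16777328) (l 16776664)) (l 16776984)) (l 16777200))) (b (b (a (c (l 165591122199) (l 157001187655)) (b (c (l 133378867431) (l 16777248)) (l 16777352))) (c (c (l 16777264) (l 16777104)) (l 16777104))) (c (l 16776840) (l 16776856)))) (c (b (a (b (l 16777216) (l 16776592)) (l 16776816)) (a (b (l 16776416) (l 16776560)) (c (l 16776456) (l 16776464)))) (c (l 16776872) (l 16776752)))) (b (a (a (c (b (l 16776440) (l 16776584)) (l 16776040)) (c (c (l 16776480) (l 16776496)) (l 16775856))) (c (c (l 16776520) (l 16776208)) (l 16775584))) (a (c (c (l 16776544)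 (l 16775904)) (l 16775608)) (c (c (l 16775840) (l 16775856)) (l 16775896))))) (b (a (b (c (a (l 16775968) (l 16775776)) (l 16775920)) (c (l 16775848) (l 16775576))) (c (c (l 16775632) (l 16775328)) (c (l 16775360) (l 16775400)))) (c (a (a (l 16775736) (l 16774888)) (l 16774936)) (c (l 16775512) (l 16774248))))) (b (a (b (b (a (c (b (l 16776384) (l 16776536)) (l 16775992)) (c (c (l 16776432) (l 16776440)) (l 16776464))) (c (c (l 16776496) (l 16776184)) (l 16775560))) (b (c (l 16776152) (l 16775872)) (c (l 16775792) (l 16775528)))) (b (b (c (c (l 16776472) (l 16776160)) (l 16775536)) (c (l 16776128) (l 16775848))) (c (c (l 16775904) (l 16775280)) (c (l 16775312) (l 16775352))))) (b (c (c (c (l 16775376) (l 16774736)) (l 16775424)) (c (l 16775464) (l 16774856))) (c (c (l 16774664) (l 16774064)) (c (l 16774120) (l 16774184)))))), by decide +kernel⟩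

def k70_pm_011_t : ∃ t, chk3 f_pm_011_t t 1122 998 1 = true :=
  ⟨(b (b (l 4) (b (b (l 4) (b (l 4) (a (l 4) (a (l 4) (a (l 4) (a (l 132841996503) (l 16777208))))))) (b (a (l 4) (a (a (l 4) (a (l 172570444055) (b (l 4) (l 16777304)))) (a (b (a (l 155390574775) (l 16777216)) (l 16777160)) (l 16777192)))) (a (a (l 4) (a (l 4) (a (l 4) (b (l 4) (l 16777312))))) (a (c (a (a (l 74323067143) (l 16777352)) (l 16777120)) (l 16777328)) (l 16776968)))))) (a (b (b (b (a (a (l 4) (c (l 147874382151) (l 153243091255))) (c (a (a (l 84523614487) (l 16777320)) (l 16777136)) (l 16777416))) (b (a (a (l 146800640247) (l 16777352)) (l 16777056)) (a (a (l 16777312) (l 16777104)) (l 16776968)))) (c (c (l 16776792) (l 16776840)) (l 16776848))) (c (b (a (b (l 16776664) (l 16776488)) (c (l 16776384) (l 16776392))) (c (l 16776448) (l 16776136))) (b (l 16776016) (l 16775512)))) (c (b (c (b (l 16776768) (a (a (l 16776592) (l 16776496)) (l 16776352))) (l 16776576)) (b (c (l 16776424) (l 16776112)) (l 16776072))) (b (c (l 16776648)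 (l 16776656)) (b (l 16775488) (l 16775800)))))), by decide +kernel⟩

def k71_pm_011_t : ∃ t, chk3 f_pm_011_t t 1123 998 1 = true :=
  ⟨(a (b (b (b (l 4) (b (l 4) (a (l 4) (a (l 4) (b (l 165054251271) (a (l 16777304) (l 16777192))))))) (b (b (a (a (l 4) (b (l 4) (a (l 112977772743) (l 16777200)))) (c (c (l 16777288) (l 16777128)) (l 16777128))) (a (a (a (b (l 120493965527) (l 16777168)) (l 16777328)) (l 16777096)) (l 16776960))) (c (c (l 16776760) (l 16776792)) (l 16776800)))) (b (b (c (a (a (l 16776248) (l 16776480)) (a (l 16776384) (l 16776288))) (l 16775968)) (c (c (l 16776392) (l 16776088)) (l 16775464))) (c (b (l 16776048) (l 16775368)) (a (l 16775040) (l 16775512))))) (b (b (a (b (l 4) (b (a (c (l 173107314983) (l 175791669543)) (b (l 153779962103) (l 16777320))) (a (c (l 16777328) (l 16777160)) (l 16777072)))) (b (b (l 4) (a (c (l 164517380375) (l 155927445831)) (b (l 122104578359) (l 16777352)))) (c (c (c (l 16777176) (l 16777016)) (l 16777016)) (l 16777024)))) (c (b (a (l 16776856) (b (l 16776424)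 (l 16776576))) (c (a (l 16776496) (l 16776304)) (l 16775920))) (b (l 16776776) (l 16775776)))) (b (b (c (c (l 16776368) (l 16776064)) (l 16775440)) (c (l 16776024) (l 16775752))) (c (a (l 16775592) (l 16775728)) (a (l 16775328) (l 16775144)))))), by decide +kernel⟩

def k72_pm_011_t : ∃ t, chk3 f_pm_011_t t 561 999 1 = true :=
  ⟨(b (a (b (a (c (c (l 16775912) (l 16776264)) (c (l 16775640) (l 16775672))) (c (c (l 16775856) (l 16775232)) (c (l 16775264) (l 16775304)))) (c (c (l 16775088) (l 16775368)) (c (l 16775416) (l 16774808)))) (b (c (c (l 16774952) (l 16775320)) (c (l 16775368) (l 16774760))) (c (c (l 16773912) (l 16773960)) (l 16774704)))) (a (b (c (a (l 16774176) (l 16773800)) (l 16774752)) (c (l 16773768) (l 16773416))) (c (c (l 16773496) (l 16774216)) (c (l 16774296) (l 16773072))))), by decide +kernel⟩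

def k73_pm_011_t : ∃ t, chk3 f_pm_011_t t 281 998 1 = true :=
  ⟨(b (c (b (a (a (b (b (a (a (a (c (l 151095607559) (l 152169349383)) (a (l 79691776263) (l 16777352))) (l 16777080)) (l 16776792)) (a (a (l 16777176) (l 16776576)) (a (l 16776384) (l 16776528)))) (a (a (l 16776832) (a (l 16776360) (l 16776264))) (c (c (l 16776672) (l 16776352)) (l 16776032)))) (b (a (c (c (l 16776648) (l 16776328)) (l 16776008)) (c (l 16775936) (l 16775960))) (a (a (l 16776072) (l 16775880)) (l 16775920)))) (c (a (a (l 16775704) (l 16774992)) (l 16775080)) (a (a (l 16775408) (l 16775032)) (l 16774464)))) (a (a (b (a (c (a (l 16776472) (l 16776280)) (l 16775896)) (c (l 16775992) (l 16776008))) (a (a (l 16776120) (l 16775928)) (l 16775976))) (a (a (l 16775824) (l 16775672)) (a (l 16775816) (l 16774968)))) (a (a (l 16775008) (l 16774304)) (a (l 16773928) (l 16773544))))) (b (a (a (a (a (b (b (c (l 81302389143) (l 88818581863)) (l 16777096)) (l 16776840)) (l 16776912)) (l 16776512)) (a (b (l 16775704) (l 16775360)) (c (l 16775152)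 (l 16775832)))) (a (a (a (l 16775544) (l 16775360)) (l 16774432)) (a (l 16774720) (l 16774352)))) (a (b (a (a (l 16775752) (l 16775384)) (c (l 16775472) (l 16775512))) (a (a (l 16775408) (l 16775704)) (a (l 16775336) (l 16774968)))) (a (a (l 16774768) (l 16774408)) (l 16774512))))) (b (c (a (c (a (a (l 16775808) (l 16775096)) (l 16774856)) (a (a (l 16776160) (l 16775128)) (l 16775224))) (a (a (l 16773976) (l 16773600)) (l 16773680))) (a (c (a (a (l 16775536) (l 16775168)) (l 16774616)) (a (c (l 16774728) (l 16775400)) (l 16774664))) (a (l 16774560) (l 16773168)))) (c (a (a (a (l 16775112) (l 16775064)) (a (l 16774024) (l 16773648))) (c (l 16773160) (l 16774048))) (a (a (a (l 16774872) (l 16774504)) (l 16774608)) (c (l 16774120) (l 16772904)))))), by decide +kernel⟩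

def k74_pm_011_t : ∃ t, chk3 f_pm_011_t t 281 999 1 = true :=
  ⟨(b (c (a (a (c (c (l 16774152) (l 16774176)) (l 16774216)) (c (l 16773400) (l 16774120))) (c (c (l 16772232) (l 16772928)) (l 16772336))) (a (a (b (l 16774656) (l 16773320)) (a (l 16773768) (l 16772744))) (a (l 16772848) (l 16772776)))) (c (c (a (c (l 16772328) (l 16773024)) (l 16770824)) (a (l 16772432) (l 16770272))) (a (c (l 16772528) (l 16773296)) (c (l 16770400) (l 16770536))))), by decide +kernel⟩

def k75_pm_011_t : ∃ t, chk3 f_pm_011_t t 282 1992 1 = true :=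
  ⟨(b (a (l 4) (b (a (l 4) (b (a (l 4) (a (a (b (l 4) (l 65196261607)) (c (l 16777328) (l 16777168))) (l 16777032))) (a (a (l 4) (a (b (l 4) (l 74859938055)) (c (l 16777344) (l 16777176)))) (c (l 16776952) (l 16776960))))) (a (b (l 4) (a (l 4) (a (l 4) (a (c (l 128547029335) (l 131231383895)) (b (l 97945387287) (l 16777168)))))) (a (a (b (a (b (l 4) (l 88818581783)) (b (l 83986743559) (l 16777152))) (a (l 16777120) (l 16777024))) (c (l 16776968) (l 16776976))) (c (b (l 16776776) (c (l 16776224) (l 16776600))) (l 16776704)))))) (a (b (l 4) (b (l 4) (b (l 4) (a (l 4) (a (l 4) (a (l 4) (a (l 4) (l 62511907063)))))))) (a (a (a (b (l 4) (b (a (c (l 173644185911) (l 179549765927)) (b (l 163443638519) (l 16777328))) (c (a (l 16777328) (l 16777080)) (l 16777128)))) (b (b (l 4) (a (c (l 166664864039) (l 168812347687)) (b (l 148948123879) (l 16777352)))) (b (c (l 16777272) (l 16777112)) (l 16776944)))) (a (b (b (a (c (l 157001187607) (l 159148671255)) (b (l 111904031031) (l 16777184))) (c (l 16777264) (l 16777104)))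 (c (l 16776832) (l 16776848))) (c (c (b (l 16776992) (l 16776312)) (l 16776824)) (l 16776832)))) (c (a (b (a (l 16776808) (c (l 16776288) (l 16776624))) (c (c (l 16776680) (l 16776360)) (l 16775712))) (b (c (c (l 16776648) (l 16776328)) (l 16775688)) (c (l 16775968) (l 16775992)))) (c (l 16776368) (l 16776384)))))), by decide +kernel⟩

def k76_pm_011_t : ∃ t, chk3 f_pm_011_t t 283 1992 1 = true :=
  ⟨(a (a (a (b (c (c (b (a (l 16776424) (l 16776560)) (a (l 16776392) (l 16776200))) (b (l 16776168) (l 16776312))) (l 16776504)) (b (c (l 16776280) (l 16775992)) (c (l 16775928) (l 16775656)))) (b (b (c (c (l 16776600) (l 16776288)) (l 16775656)) (c (l 16776256) (l 16775968))) (c (c (l 16776040) (l 16775408)) (c (l 16775440) (l 16775472))))) (b (a (c (c (l 16776120) (l 16776392)) (c (l 16775760) (l 16775784))) (c (c (l 16775984) (l 16775352)) (c (l 16775384) (l 16775424)))) (c (c (l 16775224) (l 16775504)) (c (l 16775544) (l 16774928))))) (b (a (c (c (l 16775080) (l 16775448)) (c (l 16774832) (l 16774880)))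 (c (a (l 16774200) (l 16773824)) (l 16774776))) (a (c (c (l 16774048) (l 16774096)) (l 16774832)) (c (l 16773968) (l 16773440))))), by decide +kernel⟩

def k77_pm_011_t : ∃ t, chk3 f_pm_011_t t 564 1993 1 = true :=
  ⟨(b (a (b (l 4) (a (l 4) (b (l 4) (c (c (a (l 4) (l 163443638631)) (l 216593858807)) (l 217667600631))))) (b (b (a (l 4) (a (a (l 4) (b (l 4) (l 76470550791))) (c (c (l 16777296) (l 16777136)) (l 16777136)))) (a (a (l 4) (a (l 4) (b (l 4) (l 90429194519)))) (a (a (b (l 85597356295) (l 16777160)) (l 16777104)) (l 16776968)))) (a (a (b (a (l 4) (b (l 4) (l 105998450983))) (a (b (l 112977772855) (l 16777184)) (l 16777256))) (b (a (b (l 96871645479) (l 16777168)) (l 16777288)) (l 16776992))) (c (c (l 16776792) (l 16776800)) (l 16776808))))) (a (a (b (c (c (c (l 224646922615) (l 225720664439)) (l 226257535351)) (l 230015631719)) (b (a (l 4) (a (b (l 4) (l 63048777975)) (c (l 16777328) (l 16777168)))) (a (a (b (l 4) (l 76470550791)) (c (l 16777344) (l 16777176))) (c (l 16777048) (l 16777048)))))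 (b (b (b (a (l 4) (a (l 150021865703) (l 16777352))) (a (c (l 159685542231) (l 164517380423)) (c (l 16777144) (l 16777152)))) (a (a (b (l 163980509431) (l 16777328)) (c (l 16777152) (l 16777160))) (l 16777024))) (c (c (l 16776848) (l 16776848)) (l 16776864)))) (c (b (c (a (l 16776816) (a (l 16776536) (l 16776344))) (l 16776552)) (a (c (a (l 16776232) (l 16776368)) (l 16776144)) (c (l 16776080) (l 16776096)))) (c (l 16776432) (l 16776488))))), by decide +kernel⟩

def k78_pm_011_t : ∃ t, chk3 f_pm_011_t t 565 1993 1 = true :=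
  ⟨(a (c (a (b (c (b (l 16776768) (a (l 16776504) (l 16776312))) (l 16776592)) (b (a (l 16776160) (l 16775968)) (l 16776040))) (b (b (c (c (l 16776704) (l 16776384)) (l 16775736)) (c (l 16776024) (l 16776048))) (c (l 16775824) (l 16775520)))) (b (c (l 16776384) (l 16776440)) (a (c (l 16775264) (l 16775288)) (c (l 16775552) (l 16775584))))) (b (a (b (c (a (l 16776104) (l 16775912)) (l 16776048)) (c (l 16775984) (l 16775704))) (c (c (l 16775768) (l 16775464)) (c (l 16775496) (l 16775528)))) (c (c (a (l 16775112) (l 16774728)) (l 16775608)) (c (l 16775648) (l 16775032))))), by decide +kernel⟩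

def k79_pm_011_t : ∃ t, chk3 f_pm_011_t t 283 1993 1 = true :=
  ⟨(a (b (a (c (a (a (l 16775824) (l 16774976)) (l 16775344)) (a (l 16774488) (l 16774776))) (c (c (l 16774104) (l 16774144)) (a (l 16774408) (l 16774040)))) (a (c (a (l 16774368) (l 16773984)) (a (l 16774464) (l 16774096))) (c (l 16773912) (l 16773544)))) (a (c (c (l 16773640) (l 16774352)) (c (l 16773112) (l 16773192))) (c (c (l 16772216) (l 16772288)) (l 16773072)))), by decide +kernel⟩

def k80_pm_011_t : ∃ t, chk3 f_pm_011_t t 141 997 1 = true :=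
  ⟨(b (a (a (c (b (a (a (c (b (l 16776872) (a (l 16776288) (l 16776424))) (l 16776680)) (b (c (a (l 16776256) (l 16776392)) (l 16776008)) (c (l 16776464) (l 16776152)))) (a (b (c (l 16776440) (l 16776128)) (l 16776088)) (c (l 16775872) (l 16776232)))) (a (a (b (c (l 16776488) (l 16776176)) (l 16776144)) (c (l 16775928) (l 16776280))) (c (c (l 16775352) (l 16775688)) (l 16775720)))) (a (b (c (c (l 16776520) (l 16776528)) (l 16776544)) (a (a (l 16775472) (l 16775288)) (c (l 16775656) (l 16775680)))) (b (a (c (l 16775312) (l 16775344)) (c (l 16775600) (l 16775632))) (c (c (l 16775088) (l 16775104)) (l 16774480))))) (b (c (c (a (c (l 16775624) (l 16775640)) (l 16774864)) (a (l 16775664) (l 16774256))) (a (a (l 16774512) (l 16774880)) (a (l 16774512) (l 16774152)))) (a (c (a (l 16775128) (l 16774096)) (a (l 16774568) (l 16774200))) (c (a (l 16773712) (l 16773336)) (l 16773648))))) (c (a (a (b (l 16773880) (l 16772768)) (a (l 16773208) (l 16772824))) (a (a (l 16771792) (l 16771416)) (l 16771496))) (a (a (a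 (l 16774096) (l 16774384)) (l 16773344)) (a (l 16773104) (l 16771056))))) (a (a (b (c (c (a (c (l 16775400) (l 16775744)) (l 16774976)) (a (l 16775608) (l 16774360))) (c (a (a (l 16775336) (l 16774968)) (l 16774408)) (a (l 16774536) (l 16774464)))) (a (c (a (l 16775232) (l 16774200)) (a (l 16774672) (l 16774304))) (c (a (l 16773824) (l 16773440)) (l 16774408)))) (a (c (c (c (l 16773840) (l 16773208)) (l 16773912)) (a (l 16774200) (l 16773832))) (c (c (l 16773088) (l 16772504)) (a (l 16772808) (l 16772448))))) (c (c (a (c (l 16772576) (l 16771304)) (l 16771072)) (a (l 16772688) (l 16769872))) (a (c (l 16772784) (l 16772896)) (c (l 16769992) (l 16770136)))))), by decide +kernel⟩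

def k81_pm_011_t : ∃ t, chk3 f_pm_011_t t 141 499 1 = true :=
  ⟨(c (a (c (b (b (a (a (a (l 16774152) (l 16773112)) (l 16773192)) (c (l 16772024) (l 16771416))) (a (c (l 16772128) (l 16772824)) (l 16771280))) (a (b (l 16771376) (l 16768640)) (a (l 16769520) (l 16767448)))) (b (a (b (a (l 16774016) (l 16772608)) (l 16772232)) (b (l 16772792) (l 16770072))) (a (c (l 16770752) (l 16770816)) (l 16769280)))) (a (b (a (b (l 16771608) (l 16768880)) (b (l 16770848) (l 16768128))) (c (l 16767616) (l 16766464))) (b (c (c (l 16768904) (l 16767664)) (l 16769080)) (c (l 16766088) (l 16764960))))) (b (b (a (a (c (a (l 16774080) (l 16772688)) (a (l 16774160) (l 16772776))) (c (l 16772888) (l 16773000))) (a (a (l 16770528) (l 16769800)) (l 16770008))) (a (a (c (l 16772992) (l 16773096)) (c (l 16770200) (l 16770336))) (a (l 16770112) (l 16767336)))) (a (a (b (c (l 16770296) (l 16770432)) (l 16770312)) (c (l 16769440) (l 16769616))) (a (c (l 16766648) (l 16766856)) (l 16766600))))), by decide +kernel⟩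

def k82_pm_011_t : ∃ t, chk3 f_pm_011_t t 142 992 1 = true :=
  ⟨(b (l 4) (a (l 4) (a (l 4) (a (a (l 4) (a (l 4) (b (l 4) (b (l 4) (b (l 4) (c (a (l 133915738455) (l 16777360)) (l 16777432))))))) (a (b (l 4) (b (b (l 4) (a (l 4) (c (a (l 110830289207) (l 16777176)) (l 16777368)))) (b (a (c (a (l 121567707463) (l 16777352)) (l 16777376)) (l 16777064)) (c (l 16776984) (l 16776984))))) (b (b (l 4) (a (c (l 223036309783) (l 178476024407)) (b (c (l 165591122327) (l 167738605975)) (a (c (l 75396809047) (l 16777224)) (l 16777320))))) (b (b (a (a (c (l 100092870951) (l 16777232)) (l 16777368)) (l 16777032)) (c (l 16776952) (l 16776960))) (c (l 16776688) (l 16776704))))))))), by decide +kernel⟩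

def k83_pm_011_t : ∃ t, chk3 f_pm_011_t t 142 1986 1 = true :=
  ⟨(b (a (l 4) (a (b (l 4) (b (l 4) (a (l 4) (a (l 4) (a (l 4) (a (l 4) (a (l 137136963927) (l 89355452727)))))))) (a (a (a (b (l 4) (b (a (l 4) (a (l 122104578375) (l 76470550823))) (c (l 16777296) (l 16777136)))) (b (b (l 4) (a (l 163443638647) (c (l 72175583575) (l 16777224)))) (c (c (l 16777192) (l 16777032)) (l 16777040)))) (b (c (a (b (a (l 152169349447) (l 60364423495)) (l 16777104)) (l 16777088)) (a (a (l 64659390935) (l 16777136)) (l 16777008))) (c (l 16776664) (l 16776768)))) (c (b (a (l 16776720) (a (l 16776104) (l 16776240))) (a (a (l 16776136) (l 16776272)) (c (l 16775984) (l 16776000)))) (c (l 16776376) (l 16776392)))))) (a (l 4) (a (a (b (l 4) (a (l 4) (a (l 4) (c (l 220351955207) (l 176328540743))))) (a (b (c (c (a (l 4) (l 208540795111)) (l 214983246151)) (l 215520117063)) (b (a (c (c (l 165054251367) (l 166127993191)) (l 161833025943)) (a (b (l 114051514679) (l 16777184)) (l 16777136))) (a (a (c (l 68417487191) (l 16777216))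 (l 16777312)) (l 16777008)))) (b (b (a (c (c (l 138747576695) (l 139821318519)) (l 139284447639)) (c (c (l 16777304) (l 16777144)) (l 16777144))) (a (a (b (l 98482258199) (l 16777168)) (l 16777120)) (l 16776984))) (c (l 16776768) (l 16776824))))) (a (c (b (a (l 16776736) (a (l 16776088) (l 16776304))) (a (c (c (l 16776752) (l 16776424)) (l 16775776)) (c (l 16776040) (l 16776056)))) (c (l 16776432) (l 16776448))) (a (a (c (b (l 16776112) (l 16775768)) (l 16775328)) (c (l 16776080) (l 16775800))) (c (c (l 16776112) (l 16775480)) (l 16774864))))))), by decide +kernel⟩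

def k84_pm_011_t : ∃ t, chk3 f_pm_011_t t 142 1987 1 = true :=
  ⟨(b (a (l 4) (a (a (a (b (l 4) (a (b (l 4) (c (a (l 124788932951) (l 16777360)) (l 16777424))) (c (b (a (l 116735869239) (l 16777344)) (l 16777064)) (c (l 16777464) (l 16777136))))) (b (b (a (l 4) (a (c (l 88281710903) (l 16777232)) (l 16777320))) (a (c (a (l 106535321895) (l 16777168)) (l 16777360)) (l 16777040))) (c (c (l 16776864) (l 16776872)) (l 16776880)))) (c (c (b (a (l 16776840) (a (l 16776552) (l 16776360))) (a (a (l 16776584) (l 16776392)) (l 16776104))) (c (l 16776480) (l 16776480))) (c (l 16776488) (l 16776504)))) (a (a (b (c (a (l 16776176) (l 16775984)) (l 16776120)) (c (l 16776056) (l 16775776))) (c (c (l 16776168) (l 16775536)) (l 16774920))) (c (c (l 16775352) (l 16775624)) (a (l 16775208) (l 16774840)))))) (a (a (l 4) (a (l 4) (a (b (l 4) (b (a (l 4) (a (l 163443638663) (c (l 82913001783) (l 16777224)))) (a (a (l 4) (c (l 101166612775) (l 16777232))) (c (l 16777288) (l 16777128))))) (b (a (b (l 4) (c (a (l 164517380391)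 (l 65196261703)) (l 96334774695))) (c (b (a (l 137673834855) (l 54458843447)) (l 16777096)) (b (l 83449872823) (l 16777096)))) (c (c (c (l 16777088) (l 16776928)) (l 16776928)) (l 16776936)))))) (c (a (a (b (c (a (l 16776976) (a (l 16776608) (l 16776416))) (l 16776792)) (a (a (c (l 16776312) (l 16776648)) (l 16776048)) (c (l 16776160) (l 16776176)))) (a (b (a (l 16776232) (l 16776048)) (l 16776120)) (c (l 16775904) (l 16775600)))) (c (a (c (l 16775648) (l 16775008)) (l 16774232)) (a (l 16775688) (l 16774280)))) (a (c (a (l 16776552) (a (l 16775336) (l 16775624))) (a (l 16776560) (l 16775176))) (a (a (l 16775272) (l 16774904)) (c (l 16774328) (l 16774376))))))), by decide +kernel⟩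

def k85_pm_011_t : ∃ t, chk3 f_pm_011_t t 284 1988 1 = true :=
  ⟨(b (a (l 4) (a (a (b (l 4) (a (c (c (l 217130729719) (l 218741342455)) (l 168275477095)) (b (a (l 4) (a (l 4) (l 123178320199))) (a (b (l 118346481975) (l 16777184)) (l 16777304))))) (b (b (a (l 4) (a (l 4) (b (l 4) (l 78618034439)))) (a (a (l 4) (a (l 171496702231) (l 114051514663))) (c (c (l 16777312) (l 16777144)) (l 16777152)))) (b (a (a (b (l 101166612775) (l 16777176)) (l 16777120)) (l 16776984)) (c (l 16776904) (l 16776912))))) (c (a (c (a (a (b (l 16777256) (l 16776744)) (l 16776832)) (l 16776664)) (b (l 16777120) (l 16775960))) (b (c (a (l 16776344) (l 16776480)) (l 16775928)) (c (l 16776552) (l 16776232)))) (c (c (l 16776768) (l 16776608)) (l 16776784))))) (a (a (l 4) (a (a (l 4) (b (l 4) (b (l 4) (c (a (l 114588385607) (l 16777352)) (l 16777416))))) (a (b (l 4) (b (c (a (l 108682805543) (l 16777336)) (l 16777368)) (l 16777136))) (b (b (c (l 169886089639) (l 172570444199)) (a (b (l 164517380359) (l 16777368)) (c (l 16777160)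 (l 16777160)))) (c (l 16776952) (l 16776960)))))) (a (a (a (b (b (a (b (l 152169349367) (l 16777200)) (l 16777312)) (l 16777024)) (a (l 16776816) (l 16776720))) (c (c (l 16776704) (l 16776752)) (l 16776760))) (c (b (c (a (l 16776400) (l 16776536)) (l 16775984)) (c (l 16776608) (l 16776296))) (l 16776488))) (a (b (c (c (l 16776576) (l 16776264)) (l 16775632)) (c (l 16776232) (l 16775952))) (c (c (l 16776184) (l 16776368)) (c (l 16775736) (l 16775768))))))), by decide +kernel⟩

def k86_pm_011_t : ∃ t, chk3 f_pm_011_t t 285 1988 1 = true :=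
  ⟨(a (a (b (a (b (c (c (l 16776520) (l 16776208)) (l 16775576)) (c (l 16776176) (l 16775896))) (c (c (l 16775960) (l 16775656)) (l 16774872))) (a (c (a (l 16776072) (l 16775224)) (l 16774728)) (c (l 16775272) (l 16775016)))) (b (a (c (a (l 16776016) (l 16775168)) (l 16774672)) (c (l 16775536) (l 16774960))) (c (c (l 16775008) (l 16774392)) (c (l 16774440) (l 16774488))))) (a (b (c (c (l 16774952) (l 16774336)) (a (l 16774592) (l 16774224))) (c (l 16774104) (l 16773728))) (c (c (l 16773832) (l 16774544)) (c (l 16773296) (l 16773368))))), by decide +kernel⟩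

def k87_pm_011_t : ∃ t, chk3 f_pm_011_t t 142 3978 1 = true :=
  ⟨(a (a (a (b (b (l 4) (a (l 4) (a (l 4) (a (c (l 138747576679) (l 161296154887)) (b (l 111367160103) (l 16777176)))))) (b (a (l 4) (a (a (c (l 165591122215) (l 172033573143)) (b (l 128547029303) (l 16777192))) (c (l 16777096) (l 16777096)))) (a (a (l 4) (a (c (l 173107314999) (l 179012895015)) (b (l 162369896695) (l 16777368)))) (c (c (l 16777176) (l 16777016)) (l 16777024))))) (a (a (b (c (b (a (l 125862674775) (l 45332037927)) (l 16777080)) (b (l 75933680039) (l 16777088))) (c (l 16776824) (l 16776832))) (c (c (c (l 16776800) (l 16776800)) (l 16776808)) (l 16776816))) (c (b (b (l 16776784) (a (l 16776704) (l 16776512))) (c (c (l 16776336) (l 16776344)) (l 16776352))) (l 16776544)))) (a (b (a (c (c (a (l 16776408) (l 16776216)) (l 16776320)) (l 16775688)) (c (l 16776264) (l 16775976))) (a (c (l 16776296) (l 16776008)) (c (l 16775584) (l 16775640)))) (a (c (a (l 16775800) (l 16775944)) (l 16774784)) (c (l 16775328) (l 16775072))))) (c (a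 (a (a (l 16775280) (l 16774240)) (a (l 16773864) (l 16773480))) (c (l 16773160) (l 16772568))) (a (a (a (l 16774704) (l 16774336)) (l 16773784)) (c (l 16772640) (l 16772728))))), by decide +kernel⟩

def k88_pm_011_t : ∃ t, chk3 f_pm_011_t t 142 3979 1 = true :=
  ⟨(a (a (a (c (a (a (b (b (a (l 4) (l 100629741863)) (a (l 16777344) (l 16777096))) (l 16776880)) (c (b (l 16777200) (l 16776360)) (l 16777024))) (c (b (l 16776752) (c (l 16776720) (l 16776400))) (l 16776584))) (b (a (a (b (l 117809611175) (l 16777136)) (l 16777040)) (l 16776768)) (l 16776616))) (b (a (c (c (a (l 16776464) (l 16776272)) (l 16775728)) (l 16775744)) (c (c (l 16775984) (l 16776000)) (l 16776032))) (a (c (a (l 16776120) (l 16775928)) (l 16776064)) (c (l 16775640) (l 16775696))))) (a (a (c (a (l 16775864) (l 16776000)) (l 16774840)) (c (a (l 16775152) (l 16774968)) (l 16775128))) (c (c (l 16775128) (l 16774512)) (c (l 16774552) (l 16774608))))) (c (c (a (c (l 16773968) (l 16774648)) (l 16771800)) (a (l 16774032) (l 16771872))) (a (a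 (l 16773840) (l 16773112)) (l 16772664)))), by decide +kernel⟩

def k89_pm_011_t : ∃ t, chk3 f_pm_011_t t 142 995 1 = true :=
  ⟨(c (c (a (a (b (b (b (a (a (a (l 16776520) (l 16776328)) (l 16776040)) (l 16775800)) (a (c (l 16776288) (l 16776216)) (l 16775120))) (a (a (l 16775872) (l 16775160)) (l 16775240))) (a (b (l 16775296) (l 16773936)) (c (l 16774168) (l 16774848)))) (a (b (b (l 16775184) (l 16773824)) (l 16773416)) (b (c (l 16774056) (l 16773424)) (l 16772000)))) (a (b (c (l 16772904) (l 16773592)) (l 16771504)) (b (l 16771392) (l 16769320)))) (b (a (b (a (a (a (b (l 16775784) (l 16776088)) (c (l 16775880) (l 16775888))) (c (l 16775968) (l 16775984))) (a (l 16774568) (l 16773816))) (a (a (c (l 16776024) (l 16776040)) (l 16774624)) (l 16774152))) (a (c (l 16773624) (l 16773664)) (l 16770824))) (a (a (a (c (l 16774808) (l 16775000)) (l 16774232)) (c (l 16773736) (l 16773776))) (a (l 16772248) (l 16769432))))) (b (b (a (a (a (a (c (l 16775624) (l 16775640)) (c (l 16775256) (l 16775936))) (a (l 16774816)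 (l 16775184))) (a (a (l 16774816) (l 16774448)) (l 16773896))) (a (c (l 16772760) (l 16772840)) (l 16772640))) (a (a (a (a (a (l 16775696) (l 16775520)) (l 16774584)) (a (l 16774872) (l 16774504))) (a (l 16774608) (l 16773224))) (a (l 16772776) (l 16770648)))) (a (a (a (b (a (l 16774928) (l 16774560)) (l 16774720)) (b (l 16774664) (l 16773328))) (a (a (l 16774432) (l 16772752)) (l 16773512))) (a (c (l 16771040) (l 16771160)) (l 16770944))))), by decide +kernel⟩

def k90_pm_011_t : ∃ t, chk3 f_pm_011_t t 143 3968 1 = true :=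
  ⟨(a (a (a (l 4) (a (l 4) (b (l 4) (a (b (l 4) (c (a (l 137136963943) (l 16777368)) (l 16777392))) (c (b (a (l 126399545671) (l 16777360)) (l 16777080)) (c (l 16777480) (l 16777152))))))) (a (a (b (b (a (l 4) (a (c (l 103850967335) (l 16777240)) (l 16777376))) (c (a (a (l 115125256503) (l 16777184)) (l 16777048)) (l 16777456))) (c (b (l 16776968) (l 16776800)) (l 16776896))) (c (c (c (l 16776632) (l 16776672)) (l 16776680)) (l 16776696))) (c (b (a (a (l 16776240) (l 16776376)) (c (l 16776088) (l 16776104))) (a (a (l 16776216) (l 16776032)) (l 16775744))) (l 16776120)))) (c (a (a (a (a (l 16775960) (l 16776096)) (l 16775488)) (a (l 16775432) (l 16774400))) (c (c (l 16774072) (l 16774744)) (l 16774128))) (a (a (a (l 16774936) (l 16775224)) (a (l 16774856) (l 16774488))) (a (l 16773936) (l 16773200))))), by decide +kernel⟩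

def k91_pm_011_t : ∃ t, chk3 f_pm_011_t t 143 3969 1 = true :=
  ⟨(a (a (a (a (l 4) (b (l 4) (b (a (l 4) (a (l 4) (a (l 129083900231) (l 79154905399)))) (a (a (l 4) (a (l 145190027607) (l 104387838231))) (c (l 16777296) (l 16777136)))))) (a (b (b (a (l 4) (a (l 154853704055) (c (l 65733132615) (l 16777216)))) (a (a (l 163443638663) (a (l 114588385591) (l 60364423495))) (c (l 16777112) (l 16777112)))) (c (c (c (l 16777104) (l 16776944)) (l 16776944)) (l 16776952))) (c (c (b (l 16777072) (a (l 16776328) (l 16776464))) (l 16776744)) (l 16776752)))) (a (b (c (a (a (l 16776216) (l 16776112)) (c (l 16776144) (l 16776160))) (l 16776368)) (a (c (c (l 16776176) (l 16776192)) (l 16776216)) (c (l 16776136) (l 16775848)))) (a (c (c (l 16776248) (l 16775608)) (l 16774992)) (c (c (l 16775208) (l 16775232)) (l 16775280))))) (c (a (a (c (l 16775288) (l 16774672)) (c (l 16773872) (l 16773912))) (c (l 16773376) (l 16772784))) (a (a (a (l 16774912) (l 16774544)) (l 16773992)) (c (l 16772856) (l 16772928))))), by decide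 +kernel⟩

def k92_pm_011_t : ∃ t, chk3 f_pm_011_t t 143 1985 1 = true :=
  ⟨(a (b (a (a (b (a (a (c (c (l 210688278775) (l 163443638839)) (l 168275477047)) (b (a (l 4) (a (l 172570444055) (l 113514643767))) (c (c (l 16777368) (l 16777160)) (l 16777160)))) (c (a (a (b (l 16777360) (l 16777032)) (l 16777024)) (l 16776880)) (l 16777144))) (b (a (a (a (a (l 91502936391) (l 16777368)) (l 16777144)) (l 16777000)) (a (l 16776816) (l 16776304))) (c (c (l 16776664) (l 16776736)) (l 16776744)))) (a (c (b (a (c (l 16776360) (l 16776696)) (l 16776176)) (c (l 16776568) (l 16776256))) (l 16776448)) (b (c (c (l 16776208) (l 16776224)) (l 16775592)) (c (l 16776192) (l 16775912))))) (a (a (c (c (l 16775976) (l 16775672)) (l 16775056)) (c (c (l 16775272) (l 16775296)) (l 16775344))) (c (c (l 16775352) (l 16774728)) (c (l 16774768) (l 16774816))))) (c (a (a (a (b (l 16776656) (c (l 16776632) (l 16776312))) (b (c (l 16776600) (l 16776288)) (l 16776256))) (a (c (l 16776040) (l 16775736)) (c (l 16775328) (l 16775360)))) (c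 (a (l 16775416) (l 16773992)) (a (l 16774792) (l 16774040)))) (a (a (a (l 16776504) (c (l 16775472) (l 16774840))) (a (l 16775112) (l 16774744))) (a (a (l 16775032) (l 16774664)) (l 16774768))))) (c (a (a (b (a (l 16774144) (l 16773760)) (l 16773912)) (b (l 16773848) (l 16772496))) (c (c (l 16772312) (l 16771688)) (l 16773056))) (a (a (b (l 16774056) (l 16773376)) (a (l 16773168) (l 16772800))) (c (l 16773144) (l 16773240))))), by decide +kernel⟩

def k93_pm_011_t : ∃ t, chk3 f_pm_011_t t 143 993 1 = true :=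
  ⟨(b (a (a (b (a (a (c (b (l 16776288) (l 16775608)) (l 16775176)) (c (c (l 16776048) (l 16775416)) (l 16774808))) (c (c (l 16775144) (l 16775504)) (a (l 16775096) (l 16774728)))) (a (c (a (l 16775416) (l 16775360)) (a (l 16775152) (l 16774784))) (c (c (l 16774112) (l 16774160)) (l 16774888)))) (a (b (c (a (l 16774264) (l 16773888)) (l 16774832)) (c (l 16774032) (l 16773496))) (c (c (l 16773592) (l 16773000)) (c (l 16773064) (l 16773136))))) (c (c (a (c (l 16772432) (l 16773120)) (l 16771576)) (a (l 16773176) (l 16770360))) (c (a (l 16773264) (l 16770464)) (a (l 16773360) (l 16770592))))) (c (a (a (a (c (c (l 16774472) (l 16774488)) (l 16774528)) (c (l 16773712) (l 16774424))) (c (c (l 16772552) (l 16773240)) (l 16772640))) (a (c (l 16771696) (l 16770480)) (c (l 16768856) (l 16768976)))) (a (a (a (c (l 16774576) (c (l 16773968) (l 16774000))) (c (l 16773184) (l 16773256))) (c (l 16773384) (l 16773472))) (a (c (l 16770584) (l 16770704)) (l 16770488))))), by decide +kernel⟩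

def k94_pm_011_t : ∃ t, chk3 f_pm_011_t t 143 497 1 = true :=
  ⟨(a (c (b (b (c (a (c (l 16772672) (l 16773360)) (l 16771160)) (a (l 16772760) (l 16770600))) (a (c (l 16771280) (l 16770712)) (c (l 16769096) (l 16769208)))) (c (a (c (l 16769784) (l 16769840)) (l 16767960)) (a (l 16769936) (l 16767120)))) (b (b (c (a (l 16773496) (l 16770704)) (a (l 16773592) (l 16770824))) (a (c (l 16770816) (l 16770936)) (l 16770720))) (a (c (l 16770072) (l 16770232)) (c (l 16767280) (l 16767472))))) (a (c (b (c (c (l 16769560) (l 16768304)) (l 16769704)) (c (l 16766768) (l 16765616))) (b (c (l 16769848) (l 16770008)) (l 16767216))) (c (b (c (l 16768056) (l 16766888)) (c (l 16763928) (l 16764112))) (b (c (l 16767056) (l 16767240)) (l 16767056))))), by decide +kernel⟩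

def k95_pm_011_t : ∃ t, chk3 f_pm_011_t t 71 249 1 = true :=
  ⟨(a (a (c (b (b (b (a (a (b (l 16773912) (l 16773208)) (a (l 16772992) (l 16772608))) (c (l 16771616) (l 16772360))) (c (a (c (l 16772360) (l 16771096)) (l 16770856)) (a (l 16772472) (l 16769656)))) (c (c (a (l 16769736) (l 16767384)) (a (l 16770280) (l 16767448))) (a (c (l 16770344) (l 16770408)) (l 16768872)))) (b (a (c (l 16767416) (l 16766264)) (a (l 16766352) (l 16765600))) (c (c (l 16763752) (l 16762544)) (l 16765328)))) (b (b (b (a (a (a (l 16774536) (l 16772864)) (l 16773624)) (c (l 16772464) (l 16771272))) (a (c (l 16772576) (l 16771376)) (l 16771160))) (c (a (l 16770344) (l 16769032)) (a (l 16770664) (l 16770520)))) (b (a (c (l 16766448) (l 16766656)) (l 16766392)) (c (l 16765576) (l 16765856))))) (b (a (c (b (c (c (l 16769352) (l 16770064)) (l 16769832)) (c (l 16767200) (l 16766056))) (b (c (l 16770296) (l 16770456)) (c (l 16766240) (l 16766448)))) (c (b (c (c (l 16767168) (l 16767232)) (l 16768656)) (c (l 16764368) (l 16764552)))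 (b (c (l 16770128) (l 16767688)) (l 16767496)))) (c (c (b (c (l 16764864) (l 16762344)) (l 16762072)) (b (l 16765128) (l 16759704))) (b (c (l 16765376) (l 16765648)) (c (l 16760000) (l 16760336)))))) (b (c (a (b (a (b (l 16767768) (l 16765056)) (a (l 16765928) (l 16766480))) (c (c (l 16764656) (l 16762136)) (l 16762296))) (c (b (c (l 16761824) (l 16761920)) (l 16761664)) (b (l 16762080) (l 16759296)))) (a (b (c (l 16766592) (l 16767144)) (c (l 16762544) (l 16762816))) (b (c (l 16762328) (l 16762600)) (l 16762368)))) (a (b (c (c (l 16761872) (l 16759504)) (l 16761920)) (c (c (l 16756408) (l 16756704)) (l 16757232))) (c (c (c (l 16757336) (l 16754864)) (l 16757728)) (c (l 16758088) (l 16758496)))))), by decide +kernel⟩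

def k96_pm_011_t : ∃ t, chk3 f_pm_011_t t 70 500 1 = true :=
  ⟨(b (c (a (a (a (a (c (b (a (l 16774224) (l 16774168)) (l 16772928)) (b (c (l 16774400) (l 16774424)) (l 16772344))) (c (b (l 16773432) (l 16771504)) (b (l 16773664) (l 16771592)))) (c (b (c (l 16772432) (l 16773120)) (l 16771016)) (b (c (l 16773168) (l 16773208)) (l 16770464)))) (a (a (b (l 16771352) (l 16769272)) (b (l 16771248) (l 16768520))) (c (c (l 16769304) (l 16768056)) (l 16769472)))) (a (a (c (l 16767808) (l 16766664)) (c (l 16766288) (l 16765160))) (c (c (l 16763952) (l 16762736)) (l 16765528)))) (a (b (a (a (a (b (a (l 16774376) (l 16774016)) (l 16773512)) (a (l 16773960) (l 16774248))) (c (l 16772952) (l 16773056))) (a (a (l 16770928) (l 16770192)) (l 16770408))) (a (a (a (a (l 16773976) (l 16772296)) (l 16773064)) (c (l 16770584) (l 16770720))) (a (l 16770496) (l 16767728)))) (a (a (c (l 16766848) (l 16767056)) (l 16766792)) (c (l 16765776) (l 16766048))))) (c (a (a (a (b (c (l 16771112) (l 16771872)) (a (l 16770776) (l 16768704)))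 (c (c (l 16769488) (l 16769552)) (l 16769664))) (c (c (a (l 16766648) (l 16765120)) (l 16767272)) (a (l 16769472) (l 16765344)))) (a (c (c (l 16764136) (l 16762928)) (l 16765712)) (c (l 16761144) (l 16760088)))) (b (a (a (a (c (l 16770680) (l 16770816)) (l 16770592)) (a (l 16767816) (l 16766352))) (a (l 16765800) (l 16761232))) (a (a (a (l 16770680) (l 16767912)) (c (l 16765600) (l 16765840))) (a (l 16765416) (l 16759864)))))), by decide +kernel⟩

def k97_pm_011_t : ∃ t, chk3 f_pm_011_t t 70 501 1 = true :=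
  ⟨(b (a (a (a (c (c (c (l 16768144) (l 16766904)) (l 16768336)) (c (l 16769832) (l 16770040))) (c (c (l 16766656) (l 16765528)) (c (l 16765736) (l 16765976)))) (c (c (c (l 16764320) (l 16763112)) (l 16764584)) (c (l 16766144) (l 16766424)))) (c (a (c (l 16761320) (l 16760272)) (c (l 16756968) (l 16757272))) (a (c (l 16760576) (l 16760912)) (l 16760432)))) (a (a (c (c (c (l 16764488) (l 16763280)) (l 16764760)) (c (l 16765008) (l 16765288))) (c (c (l 16762152) (l 16760448)) (c (l 16760752) (l 16761088)))) (c (a (c (l 16757144) (l 16757448)) (c (l 16754104) (l 16754456))) (a (l 16760616) (l 16755072))))), by decide +kernel⟩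

def k98_pm_011_t : ∃ t, chk3 f_pm_011_t t 70 251 1 = true :=
  ⟨(a (b (b (c (a (c (l 16762320) (l 16760616)) (c (l 16757304) (l 16757616))) (a (c (l 16760920) (l 16761256)) (l 16760784))) (c (a (c (l 16760088) (l 16757784)) (c (l 16754424) (l 16754784))) (a (l 16760952) (l 16755416)))) (b (a (c (c (l 16754576) (l 16754944)) (l 16755576)) (c (l 16754360) (l 16752664))) (a (c (l 16754504) (l 16752816)) (c (l 16748872) (l 16749904))))) (b (c (a (c (b (l 16754264) (l 16751392)) (l 16755824)) (c (l 16752416) (l 16750216))) (a (c (l 16756256) (l 16756744)) (c (l 16750696) (l 16751232)))) (a (c (c (l 16749680) (l 16747536)) (l 16750992)) (c (c (l 16744032) (l 16744544)) (l 16745456))))), by decide +kernel⟩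

def k99_pm_011_t : ∃ t, chk3 f_pm_011_t t 71 125 1 = true :=
  ⟨(b (a (b (a (c (c (b (l 16762264) (l 16756792)) (b (l 16759904) (l 16757088))) (b (c (l 16760200) (l 16760528)) (l 16760248))) (c (c (c (l 16757072) (l 16757872)) (l 16758120)) (c (l 16758488) (l 16758904)))) (c (a (c (c (l 16755032) (l 16752584)) (l 16752864)) (c (l 16752080) (l 16749872))) (a (c (l 16753288) (l 16753768)) (c (l 16750344) (l 16750872))))) (b (b (a (c (l 16756024) (l 16754512)) (c (l 16753336) (l 16751584))) (a (c (l 16753520) (l 16751784)) (c (l 16747888) (l 16748856)))) (a (c (c (l 16751672) (l 16746880)) (l 16752928)) (c (c (l 16743400) (l 16743896)) (l 16744760))))) (a (b (a (c (c (l 16749384) (l 16747224)) (l 16750664)) (c (c (l 16743728) (l 16744232)) (l 16745120))) (a (c (c (l 16741000) (l 16741560)) (l 16742544)) (c (l 16740888) (l 16739632)))) (b (a (c (c (l 16740704) (l 16741248)) (l 16742208)) (c (l 16740584) (l 16739296))) (a (c (l 16740512) (l 16736720)) (c (c (l 16731904) (l 16732576)) (l 16733776)))))), by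 decide +kernel⟩

def k100_pm_011_t : ∃ t, chk3 f_pm_011_t t 17 63 1 = true :=
  ⟨(b (a (a (l 14) (b (a (l 14) (a (l 14) (b (b (c (l 16754648) (l 16752968)) (l 14)) (l 14)))) (l 14))) (b (b (a (a (c (c (a (l 16749952) (l 16744304)) (a (l 16747824) (l 16744832))) (a (c (l 16748376) (l 16748992)) (l 16751008))) (a (c (c (l 16741272) (l 16741848)) (l 16742856)) (c (c (l 16743456) (l 16738832)) (l 16745160)))) (a (c (b (c (l 16740352) (l 16735760)) (a (c (l 16738984) (l 16734424)) (c (l 16736120) (l 16731584)))) (b (l 16742152) (a (l 16735624) (l 16732840)))) (c (b (a (c (l 16730600) (l 16731312)) (c (l 16727744) (l 16728480))) (l 16726712)) (b (c (l 16735960) (l 16742136)) (l 16728448))))) (a (b (a (a (c (l 16743248) (l 16744528)) (c (l 16740216) (l 16741592))) (c (a (c (l 16742120) (l 16737528)) (c (l 16739248) (l 16734688))) (a (l 16749152) (l 16735888)))) (a (a (l 14) (b (c (l 16743344) (l 16739552)) (l 16737368))) (c (l 16732920) (l 16734512)))) (a (c (l 16733656) (l 16730120)) (c (l 16722536) (l 16724376)))))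 (b (a (a (c (c (l 16734264) (l 16734944)) (l 16736144)) (c (l 16733920) (l 16730376))) (c (a (l 16728032) (l 16716936)) (a (l 16724632) (l 16718912)))) (a (a (l 14) (c (l 16728224) (l 16724824))) (c (c (l 16719008) (l 16714664)) (a (l 16719104) (l 16713416))))))) (a (l 14) (b (b (a (a (l 14) (c (l 16717248) (l 16719232))) (c (c (l 16713288) (l 16709008)) (l 16715952))) (a (l 14) (c (a (l 16716096) (l 16710312)) (a (l 16707896) (l 16702248))))) (a (l 14) (a (a (l 14) (b (l 16699592) (l 14))) (c (l 16691424) (l 16693640))))))), by decide +kernel⟩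

def k101_pm_011_t : ∃ t, chk3 f_pm_011_t t 36 60 1 = true :=
  ⟨(l 4), by decide +kernel⟩

def k102_pm_011_t : ∃ t, chk3 f_pm_011_t t 37 120 1 = true :=
  ⟨(l 4), by decide +kernel⟩

def k103_pm_011_t : ∃ t, chk3 f_pm_011_t t 74 121 1 = true :=
  ⟨(l 4), by decide +kernel⟩

def k104_pm_011_t : ∃ t, chk3 f_pm_011_t t 75 242 1 = true :=
  ⟨(l 4), by decide +kernel⟩

def k105_pm_011_t : ∃ t, chk3 f_pm_011_t t 150 243 1 = true :=
  ⟨(a (l 4) (b (l 4) (b (b (l 4) (b (l 4) (b (l 4) (a (l 4) (a (l 4) (a (l 4) (c (a (l 129083900567) (l 16777504)) (l 16777224)))))))) (b (a (b (l 4) (a (l 4) (a (l 4) (c (c (l 204782698935) (l 207467053479)) (l 154316834007))))) (a (a (b (l 4) (b (a (l 4) (a (l 138210706071) (l 85597356695))) (c (a (l 16777496) (l 16777000)) (l 16777080)))) (b (b (l 4) (a (l 4) (a (l 111904031399) (l 64122520183)))) (c (c (l 16777200) (l 16776880)) (l 16776880)))) (b (c (a (b (a (l 148411253447) (l 63048778359)) (l 16777000)) (l 16776792)) (c (c (l 16777608) (l 16777608)) (l 16776960))) (c (c (l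 16776312) (l 16776320)) (l 16776336))))) (c (a (a (b (a (l 4) (l 225183793671)) (b (a (l 4) (a (l 97408516759) (l 16777120))) (a (a (l 114588385991) (l 16777488)) (l 16776896)))) (b (b (a (c (l 157001188135) (l 159148671767)) (c (l 16777528) (l 16777120))) (a (a (l 74859938471) (l 16777080)) (l 16776808))) (c (l 16776488) (l 16776496)))) (c (b (a (l 16776400) (c (l 16776288) (l 16775640))) (a (a (l 16775920) (l 16775536)) (l 16774968))) (c (l 16775696) (l 16775704)))) (a (b (a (l 229478761143) (a (a (l 117272740855) (l 66806875031)) (l 16776960))) (a (a (a (l 141968802839) (l 84523615255)) (l 16777696)) (l 16776512))) (c (l 16775712) (l 16775736)))))))), by decide +kernel⟩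

def k106_pm_011_t : ∃ t, chk3 f_pm_011_t t 302 243 1 = true :=
  ⟨(a (b (l 4) (b (b (a (l 4) (b (l 4) (a (c (c (l 209614537159) (l 210688278983)) (l 158074930407)) (b (c (c (l 130157642535) (l 131768255255)) (l 126936417175)) (c (c (l 16777424) (l 16777096)) (l 16777096)))))) (a (a (b (l 4) (c (b (a (l 105461580455) (l 16777136)) (l 16776912)) (l 16777712))) (b (b (c (l 160759284615) (l 161833026439)) (a (a (l 116198998711) (l 67880616583)) (l 16777424))) (c (l 16776704) (l 16776712)))) (c (b (b (a (a (l 67343745655) (l 16777056)) (l 16776776)) (l 16776632)) (l 16776136)) (c (l 16776800) (l 16776480))))) (c (a (b (b (l 16776144) (c (c (l 16775544) (l 16775552)) (l 16775560))) (b (a (l 16775080) (l 16774696)) (l 16774872))) (b (a (b (l 16774840) (l 16774984)) (b (l 16775280) (l 16774608))) (c (l 16775088) (l 16773816)))) (c (a (l 16775256) (b (l 16773856) (l 16773856))) (l 16774912))))) (a (b (l 4) (b (b (b (b (a (l 4) (a (l 153779962663) (a (l 98482258567) (l 16777520)))) (a (a (l 4) (a (l 125862675063)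 (l 71101842071))) (c (l 16777016) (l 16777016)))) (c (c (c (l 16777032) (l 16776704)) (l 16776704)) (l 16776720))) (c (b (l 16776040) (c (l 16776024) (l 16775384))) (l 16775744))) (b (c (b (a (l 16774896) (l 16774520)) (l 16775352)) (l 16773128)) (c (c (l 16773024) (l 16773064)) (l 16773136))))) (b (b (l 4) (b (l 4) (b (l 4) (b (a (l 4) (c (a (l 110830289607) (l 16777152)) (l 16777200))) (a (c (a (l 134989480615) (l 16777512)) (l 16777232)) (l 16777096)))))) (c (b (b (a (c (l 16776632) (l 16776480)) (b (l 16776432) (l 16775104))) (b (a (l 16775472) (l 16775096)) (l 16775272))) (b (a (l 16774464) (l 16774744)) (l 16773592))) (b (c (l 16775648) (l 16775664)) (b (l 16772392) (l 16772400))))))), by decide +kernel⟩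

def k107_pm_011_t : ∃ t, chk3 f_pm_011_t t 303 486 1 = true :=
  ⟨(b (a (l 4) (b (l 4) (a (b (l 4) (b (l 4) (a (l 4) (a (l 139821318919) (a (l 16777528) (l 16777160)))))) (a (b (l 4) (b (a (a (l 151632478903) (l 103314096791)) (l 16777568)) (l 16776944))) (c (b (b (l 172033573703) (a (l 97945387655) (l 16777120))) (l 16776728)) (b (l 90966066407) (l 16776736))))))) (a (b (b (a (l 4) (c (c (c (a (l 4) (l 193508409703)) (l 203172086311)) (l 203172086311)) (l 203172086295))) (b (a (l 4) (a (c (c (l 134452609831) (l 134452609831)) (l 133915738999)) (c (l 16777392) (l 16777072)))) (a (c (a (l 4) (l 151632479079)) (l 213909504471)) (a (c (l 16777592) (l 16777104)) (l 16776752))))) (b (a (b (a (c (l 170959831879) (l 167738606471)) (a (a (l 100092871319) (l 16777520)) (l 16777072))) (a (a (a (l 129083900535) (l 76470551159)) (l 16777440)) (l 16776840))) (c (l 16776440) (l 16776456))) (c (a (l 16776528) (a (l 16775304) (l 16774928))) (l 16776176)))) (b (c (a (b (a (b (a (l 162369897111) (l 16777544)) (l 16777024))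 (l 16776816)) (l 16776344)) (b (l 16776248) (a (l 16775120) (l 16775400)))) (a (a (b (l 7751074967) (l 16776552)) (l 16776504)) (l 16775952))) (c (a (b (a (l 16775216) (l 16775488)) (c (l 16775000) (l 16775024))) (c (c (l 16775880) (l 16774584)) (l 16773296))) (l 16775016))))), by decide +kernel⟩

def k108_pm_011_t : ∃ t, chk3 f_pm_011_t t 303 487 1 = true :=
  ⟨(b (b (c (b (a (a (a (l 16775232) (l 16775016)) (a (l 16775296) (l 16774912))) (a (l 16775656) (l 16773592))) (a (a (c (l 16775184) (l 16775208)) (l 16775096)) (c (l 16774600) (l 16773328)))) (a (l 16775200) (a (l 16772776) (l 16773352)))) (c (a (a (c (l 16774840) (l 16774208)) (a (l 16774936) (l 16773248))) (c (l 16772944) (l 16772328))) (a (a (l 16772952) (l 16772216)) (c (l 16772384) (l 16772456))))) (a (b (c (c (l 16773280) (l 16773816)) (a (l 16772960) (l 16772224))) (c (c (l 16771128) (l 16771184)) (c (l 16771256) (l 16771336)))) (c (c (c (l 16771576) (l 16771608)) (l 16771656)) (c (l 16771736) (l 16767896))))), by decide +kernel⟩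

def k109_pm_011_t : ∃ t, chk3 f_pm_011_t t 72 122 1 = true :=
  ⟨(l 4), by decide +kernel⟩

def k110_pm_011_t : ∃ t, chk3 f_pm_011_t t 73 244 1 = true :=
  ⟨(l 4), by decide +kernel⟩

def k111_pm_011_t : ∃ t, chk3 f_pm_011_t t 146 245 1 = true :=
  ⟨(b (l 4) (b (l 4) (b (l 4) (b (l 4) (b (l 4) (a (l 4) (a (l 4) (a (l 4) (a (l 4) (a (b (l 4) (c (l 79691776439) (l 16777224))) (b (a (l 114051514775) (l 16777192)) (l 16777080)))))))))))), by decide +kernel⟩

def k112_pm_011_t : ∃ t, chk3 f_pm_011_t t 147 490 1 = true :=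
  ⟨(a (l 4) (a (l 4) (b (l 4) (b (l 4) (a (b (l 4) (b (l 4) (a (l 4) (a (l 4) (b (l 160759284215) (c (l 16777192) (l 16777192))))))) (a (b (l 4) (b (a (c (l 158611800711) (l 168812347959)) (b (l 130694513175) (l 16777408))) (a (c (l 16777424) (l 16777104)) (l 16776920)))) (b (b (l 4) (a (c (c (l 138747576919) (l 139821318743)) (l 136600093351)) (b (a (l 4) (l 16777392)) (l 16777128)))) (c (c (l 16777000) (l 16776800)) (l 16776808))))))))), by decide +kernel⟩

def k113_pm_011_t : ∃ t, chk3 f_pm_011_t t 147 1964 1 = true :=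
  ⟨(a (l 4) (a (a (b (l 4) (a (l 4) (b (l 4) (c (l 217667600727) (l 169886090039))))) (a (b (l 4) (b (c (c (l 206930182439) (l 154316833559)) (l 152706220903)) (a (b (l 134989480487) (l 16777416)) (c (l 16777072) (l 16777072))))) (b (a (l 4) (b (l 4) (a (l 171496702487) (b (l 4) (l 16777384))))) (a (b (b (c (l 110830289351) (l 16777256)) (l 16777464)) (l 16776888)) (c (l 16777032) (l 16776872)))))) (c (a (a (b (b (b (l 4) (a (l 4) (l 16777424))) (a (b (l 85597356471) (l 16777096)) (l 16777000))) (l 16776584)) (b (a (a (b (l 16777424) (l 16776200)) (l 16777088)) (l 16776784)) (b (l 16775720) (l 16776032)))) (b (a (l 16776504) (b (l 16775640) (l 16775952))) (a (b (l 16775992) (l 16775648)) (l 16776096)))) (a (b (b (a (l 123715191639) (l 16777048)) (l 16777312)) (l 16776416)) (l 16776008))))), by decide +kernel⟩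

def k114_pm_011_t : ∃ t, chk3 f_pm_011_t t 147 1965 1 = true :=
  ⟨(b (a (l 4) (a (a (b (a (l 4) (a (b (l 165054251511) (c (l 16777360) (l 16777192))) (c (l 16777432) (l 16777104)))) (b (a (a (l 4) (c (l 16777456) (l 16777208))) (l 16776960)) (a (a (a (l 131231383927) (l 16777200)) (l 16777072)) (l 16776792)))) (c (c (c (l 16776464) (l 16776472)) (l 16776472)) (l 16776488))) (c (c (a (a (l 16776552) (l 16775512)) (l 16775592)) (a (c (l 16775056) (l 16775728)) (l 16774968))) (a (l 16774440) (l 16773704))))) (a (a (l 4) (a (l 4) (b (a (l 4) (a (a (l 172570444327) (b (l 4) (l 16777384))) (b (a (l 152706220391) (l 16777368)) (l 16777104)))) (a (a (c (c (l 153779962391) (l 154316833303)) (l 148948124263)) (b (a (l 4) (l 97408516471)) (l 16777304))) (c (l 16777112) (l 16776952)))))) (c (a (c (a (c (l 16776544) (l 16776544)) (a (a (l 16776064) (l 16775880)) (l 16775592))) (c (l 16776128) (l 16776176))) (a (c (l 16775672) (l 16775040)) (l 16774928))) (a (c (l 16776192) (l 16776208)) (a (l 16773776) (l 16774352)))))),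 by decide +kernel⟩

def k115_pm_011_t : ∃ t, chk3 f_pm_011_t t 147 1966 1 = true :=
  ⟨(a (a (a (l 4) (b (l 4) (b (b (l 4) (a (l 4) (a (l 4) (c (l 78618034615) (l 16777224))))) (a (a (l 4) (a (l 4) (b (l 4) (l 16777392)))) (a (b (c (l 89892323783) (l 16777240)) (l 16777112)) (l 16777128)))))) (a (b (b (a (l 4) (c (a (l 170959831623) (b (l 145190027703) (l 16777176))) (c (l 100092871431) (l 100629742343)))) (a (a (l 4) (b (l 165054251527) (c (l 16777360) (l 16777200)))) (c (c (c (l 16777344) (l 16777016)) (l 16777016)) (l 16777024)))) (c (a (a (b (b (l 70564970903) (l 16777072)) (l 16776816)) (l 16776800)) (l 16776432)) (c (l 16777032) (l 16776712)))) (c (b (a (c (a (l 16777072) (l 16776720)) (l 16776816)) (l 16776440)) (a (b (l 16775648) (l 16775960)) (c (l 16775744) (l 16775760)))) (c (l 16776464) (l 16776312))))) (b (c (a (a (a (b (l 16775568) (l 16775888)) (c (l 16775664) (l 16775688))) (c (l 16775752) (l 16775120))) (a (l 16775000) (l 16773592))) (a (a (l 16774920) (l 16773856)) (a (l 16774424) (l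 16773688)))) (c (a (a (a (l 16776032) (l 16774992)) (l 16774920)) (c (l 16773920) (l 16773312))) (a (a (l 16773928) (l 16774496)) (c (l 16773360) (l 16773424)))))), by decide +kernel⟩

def k116_pm_011_t : ∃ t, chk3 f_pm_011_t t 147 1967 1 = true :=
  ⟨(c (a (b (a (a (a (b (l 4) (l 220888826199)) (b (c (l 209077666103) (l 210688278839)) (a (b (l 147337511351) (l 16777176)) (l 16777408)))) (a (b (a (b (l 115662127575) (l 16777144)) (l 16777040)) (l 16776800)) (l 16776512))) (a (a (b (l 16775728) (l 16776040)) (c (l 16776480) (l 16775840))) (c (l 16775904) (l 16775272)))) (a (a (a (b (b (a (l 4) (l 16777352)) (c (l 16777424) (l 16777120))) (l 16776872)) (l 16776624)) (a (b (a (l 16776552) (l 16776360)) (l 16775464)) (c (l 16776552) (l 16775912)))) (c (a (l 16775816) (l 16774560)) (a (c (l 16775344) (l 16775352)) (l 16774592))))) (a (c (a (c (l 16774792) (l 16775464)) (l 16774032)) (a (l 16774832) (l 16773424))) (c (c (l 16773536) (l 16772248)) (l 16773600)))) (a (a (b (b (a (l 217667600871) (a (l 16777448)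 (l 16776776))) (a (a (l 172570444615) (c (l 16777480) (l 16777152))) (l 16776624))) (a (b (a (c (l 54458843799) (l 16777176)) (l 16776848)) (l 16776704)) (l 16776128))) (a (l 16775720) (b (l 16774000) (l 16774648)))) (a (c (a (l 16772912) (l 16773472)) (c (l 16772248) (l 16772608))) (c (l 16773672) (l 16772440))))), by decide +kernel⟩

def k117_pm_011_t : ∃ t, chk3 f_pm_011_t t 144 246 1 = true :=
  ⟨(l 4), by decide +kernel⟩

def k118_pm_011_t : ∃ t, chk3 f_pm_011_t t 145 492 1 = true :=
  ⟨(l 4), by decide +kernel⟩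

def k119_pm_011_t : ∃ t, chk3 f_pm_011_t t 145 986 1 = true :=
  ⟨(a (l 4) (b (a (l 4) (b (a (l 4) (a (b (l 4) (c (c (l 214983246167) (l 218741342535)) (l 219278213447))) (b (a (l 4) (a (l 4) (b (l 4) (l 102777225607)))) (c (a (b (l 134452609479) (l 16777328)) (l 16777312)) (c (l 16777544) (l 16777136)))))) (a (a (l 4) (b (l 4) (b (a (l 4) (a (l 101703483767) (l 16777176))) (a (a (l 113514643863) (l 16777352)) (l 16777056))))) (b (b (a (c (a (l 166127993255) (l 16777344)) (l 79691776647)) (l 16776912)) (a (a (a (l 82376130951) (l 16777160)) (l 16777024)) (l 16776744))) (c (c (l 16776664) (l 16776672)) (l 16776680)))))) (b (a (b (l 4) (a (l 4) (a (l 4) (a (b (l 4) (c (l 112440902103) (l 16777264))) (b (a (l 166127993207) (l 75396809127)) (l 16777328)))))) (a (b (a (a (b (l 4) (a (l 154853704039) (l 61438165399))) (b (a (l 131768254855) (l 16777360)) (l 16777088))) (c (l 16776896) (l 16776904))) (c (c (c (l 16776816) (l 16776736)) (l 16776744)) (l 16776752))) (c (a (c (b (l 16775856) (l 16776160)) (l 16775688))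 (c (c (l 16776608) (l 16775960)) (l 16775968))) (l 16776184)))) (a (a (a (l 4) (b (l 4) (b (c (l 213909504263) (l 165054251671)) (a (c (l 169349218727) (l 171496702375)) (a (l 70564970919) (l 16777152)))))) (a (c (b (b (a (l 4) (l 126936416711)) (a (l 145190027687) (l 16777320))) (c (c (l 16777240) (l 16776992)) (l 16776992))) (b (a (l 155927446135) (l 64122520151)) (l 16777000))) (c (a (b (l 16777216) (l 16776384)) (l 16776696)) (l 16776800)))) (c (a (a (c (b (l 16776088) (l 16776232)) (l 16775760)) (b (a (l 16776296) (l 16776112)) (l 16775864))) (a (c (l 16776296) (l 16775664)) (l 16775928))) (a (l 16776248) (c (l 16774192) (l 16775528)))))))), by decide +kernel⟩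

def k120_pm_011_t : ∃ t, chk3 f_pm_011_t t 145 1974 1 = true :=
  ⟨(b (a (b (l 4) (b (l 4) (a (l 4) (a (l 4) (a (l 4) (a (l 4) (a (l 147337511255) (l 52848230791)))))))) (a (a (b (a (b (l 4) (a (l 4) (a (l 104387838343) (l 16777344)))) (a (b (a (l 87207969175) (l 16777160)) (l 16777048)) (l 16776944))) (a (a (b (a (l 123715191159) (l 16777360)) (l 16777080)) (c (l 16776976) (l 16776984))) (c (l 16776688) (l 16776704)))) (c (a (b (l 16776656) (c (l 16776304) (l 16776320))) (b (a (l 16776368) (l 16776184)) (l 16775928))) (l 16776320))) (a (a (c (b (l 16775896) (l 16775552)) (l 16774456)) (c (l 16775672) (l 16775400))) (c (a (l 16775616) (l 16774584)) (l 16773864))))) (a (a (l 4) (a (b (l 4) (a (l 4) (a (l 4) (a (l 4) (b (l 4) (l 112977772951)))))) (a (b (b (l 4) (a (l 4) (a (l 4) (l 82913001863)))) (c (a (b (l 119957094839) (l 16777144)) (l 16777208)) (a (l 59290681927) (l 16777048)))) (a (b (b (a (l 157001187703) (l 66270003607)) (l 16777280)) (l 16776864)) (c (c (l 16776840) (l 16776840)) (l 16776848))))))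 (c (a (a (c (a (l 16776552) (b (l 16776344) (l 16775992))) (l 16776368)) (a (c (l 16776440) (l 16775800)) (l 16775824))) (a (a (l 16775688) (l 16774656)) (l 16774416))) (a (c (a (l 16776384) (l 16774984)) (l 16776032)) (a (l 16773928) (l 16774176)))))), by decide +kernel⟩

def k121_pm_011_t : ∃ t, chk3 f_pm_011_t t 145 1975 1 = true :=
  ⟨(a (b (a (l 4) (a (a (b (c (c (l 220351955287) (l 221962568023)) (l 222499438935)) (b (c (a (l 172033573287) (c (l 16777352) (l 16777184))) (l 88818582119)) (a (a (l 90429194647) (l 16777168)) (l 16777032)))) (a (b (c (b (l 145726898615) (l 16777416)) (l 77007422023)) (l 16776928)) (b (a (b (l 46942650759) (l 16777048)) (l 16777040)) (l 16776744)))) (c (c (a (l 16776624) (b (l 16775760) (l 16776064))) (l 16776440)) (l 16776456)))) (a (a (l 4) (a (b (l 4) (a (b (l 4) (c (c (l 94187291047) (l 16777408)) (l 16777240))) (b (c (c (l 80765518263) (l 16777392)) (l 16777232)) (l 16777264)))) (b (b (a (l 4) (a (l 107609063815) (l 16777344))) (a (a (l 126936416631) (l 16777400))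 (l 16777064))) (c (l 16776984) (l 16776912))))) (c (c (a (a (l 16776688) (b (l 16775992) (l 16776136))) (a (a (l 16776024) (l 16775832)) (l 16775544))) (a (l 16776512) (a (l 16775288) (l 16775568)))) (c (a (l 16776520) (l 16775120)) (l 16776168))))) (a (b (a (a (c (c (l 16776184) (l 16775872)) (l 16775248)) (c (c (l 16775472) (l 16775496)) (l 16775536))) (c (c (l 16775560) (l 16774928)) (a (l 16775168) (l 16774800)))) (a (c (a (l 16775832) (l 16774792)) (a (l 16775232) (l 16774864))) (c (c (l 16774208) (l 16774248)) (l 16774312)))) (a (c (b (a (l 16774344) (l 16773968)) (l 16774120)) (b (l 16774240) (l 16773576))) (c (a (l 16773896) (l 16773520)) (a (l 16773360) (l 16772984)))))), by decide +kernel⟩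

def k122_pm_011_t : ∃ t, chk3 f_pm_011_t t 144 988 1 = true :=
  ⟨(a (l 4) (b (b (l 4) (a (l 4) (a (l 4) (a (b (l 4) (b (l 4) (a (l 4) (a (l 108145934727) (l 16777344))))) (c (b (b (l 216593858823) (a (l 172570444199) (c (l 16777352) (l 16777184)))) (b (a (a (l 102240354599) (l 16777168)) (l 16777032)) (l 16776952))) (b (a (l 177939153495) (l 82376131175)) (l 16777360))))))) (a (a (l 4) (b (l 4) (b (a (l 4) (c (c (c (l 209614537015) (l 210151407927)) (l 210688278839)) (l 212835762471))) (b (a (l 4) (a (c (l 145190027703) (l 155927445895)) (c (l 16777320) (l 16777160)))) (a (c (l 215520116999) (l 167201735319)) (c (c (c (l 16777328) (l 16777080)) (l 16777080)) (l 16777088))))))) (b (a (b (b (l 4) (a (l 4) (a (l 4) (a (l 146263769447) (a (l 16777368) (l 16777192)))))) (b (a (l 4) (a (c (c (l 93650420135) (l 99019129223)) (l 16777240)) (l 16777264))) (a (a (l 4) (c (c (l 108145934743) (l 108682805655)) (l 16777416))) (c (l 16777184) (l 16777024))))) (a (a (b (b (a (l 126936416631) (a (l 16777376) (l 16777176)))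 (l 16777080)) (l 16776832)) (c (a (l 16776856) (l 16776760)) (l 16776816))) (c (b (l 16776696) (c (l 16776016) (l 16776352))) (l 16776544)))) (a (a (a (b (c (b (c (l 123715191175) (l 124252062087)) (l 16777304)) (l 59827552839)) (l 16776896)) (b (c (l 16777224) (l 16777048)) (l 16776712))) (c (c (l 16776544) (l 16776592)) (l 16776608))) (c (c (a (b (l 16775888) (l 16776032)) (l 16776152)) (a (l 16775560) (l 16775840))) (a (l 16775584) (l 16775216)))))))), by decide +kernel⟩

def k123_pm_011_t : ∃ t, chk3 f_pm_011_t t 144 1978 1 = true :=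
  ⟨(a (a (l 4) (a (l 4) (a (l 4) (b (l 4) (b (l 4) (b (a (l 4) (c (c (l 105461580183) (l 105461580183)) (l 16777416))) (a (c (c (l 115662127527) (l 121030836615)) (l 16777424)) (c (l 16777128) (l 16777128))))))))) (a (b (a (a (l 4) (b (l 4) (b (a (l 4) (a (a (l 143579414871) (l 91502936391)) (l 16777344))) (a (a (l 124252062071) (a (l 16777376) (l 16777176))) (l 16777064))))) (a (b (b (a (c (l 171496702375) (l 174717927847)) (c (c (l 16777392) (l 16777184)) (l 16777184))) (a (a (a (l 125862674759) (l 16777384)) (l 16777328)) (l 16777032))) (c (l 16776864) (l 16776872))) (c (c (l 16776576) (l 16776664)) (l 16776672)))) (a (a (b (b (a (l 4) (a (l 146263769431) (a (l 79154905399) (l 16777192)))) (a (a (l 155390574967) (a (l 101703483687) (l 16777368))) (l 16777256))) (c (c (l 16777088) (l 16776928)) (l 16776936))) (c (c (c (l 16776720) (l 16776720)) (l 16776728)) (l 16776736))) (c (a (b (a (l 16776288) (l 16776424)) (c (l 16776168) (l 16776176))) (c (c (l 16776280) (l 16775960)) (l 16775320))) (l 16776184))))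 (b (c (a (b (a (a (l 16776216) (l 16776352)) (c (l 16776064) (l 16776080))) (a (c (l 16776096) (l 16776112)) (l 16775728))) (a (a (l 16776264) (l 16775424)) (l 16775792))) (a (l 16776120) (a (l 16774256) (l 16775200)))) (a (a (c (c (l 16776232) (l 16775592)) (l 16774320)) (c (l 16775536) (l 16775264))) (c (c (l 16775272) (l 16774656)) (a (l 16774896) (l 16774528))))))), by decide +kernel⟩

def k124_pm_011_t : ∃ t, chk3 f_pm_011_t t 144 1979 1 = true :=
  ⟨(b (a (a (l 4) (a (a (l 4) (b (l 4) (a (c (l 220888826119) (l 175791669831)) (b (c (l 159685542295) (l 161296155031)) (c (c (l 16777384) (l 16777184)) (l 16777184)))))) (a (b (b (a (l 4) (c (c (l 136063222135) (l 140358189415)) (l 130694513079))) (a (c (l 144653156775) (l 152169349511)) (c (l 16777320) (l 16777152)))) (a (b (a (a (l 85597356343) (l 16777192)) (l 16777128)) (l 16777008)) (l 16776904))) (c (c (a (b (l 16777216) (l 16776056)) (l 16776696)) (l 16776952)) (l 16776968))))) (a (a (c (a (b (a (l 16776352) (l 16776160)) (c (l 16776232) (l 16776248)))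 (b (a (l 16776304) (l 16776112)) (l 16776512))) (l 16776248)) (a (c (a (l 16776072) (l 16776216)) (l 16775040)) (c (l 16775600) (l 16775328)))) (a (c (a (l 16775544) (l 16774512)) (a (l 16774960) (l 16774592))) (c (a (l 16774136) (l 16773752)) (l 16774040))))) (a (a (b (l 4) (b (l 4) (a (l 4) (a (l 4) (a (l 4) (a (l 130694513031) (a (l 75933679911) (l 16777184)))))))) (a (a (b (b (l 4) (a (l 4) (a (a (l 136063222103) (l 87744839991)) (l 16777336)))) (b (a (c (a (l 118346481991) (l 16777184)) (l 16777216)) (l 16777056)) (c (l 16776976) (l 16776984)))) (c (b (b (a (a (l 86671098183) (l 16777160)) (l 16777024)) (l 16776944)) (l 16776688)) (c (l 16777104) (l 16776864)))) (c (b (a (l 16776648) (c (l 16776264) (l 16776280))) (a (c (l 16776624) (l 16776312)) (l 16776256))) (l 16776320)))) (c (a (c (a (a (l 16776040) (l 16775328)) (l 16775408)) (a (a (l 16775728) (l 16775352)) (l 16774784))) (c (c (l 16774256) (l 16774928)) (l 16774312))) (a (a (a (l 16775112) (l 16775392)) (a (l 16775024) (l 16774656))) (c (l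 16774360) (l 16772456)))))), by decide +kernel⟩

def k125_pm_011_t : ∃ t, chk3 f_pm_011_t t 144 1980 1 = true :=
  ⟨(a (a (b (a (b (l 4) (b (l 4) (a (l 4) (a (l 4) (c (c (l 126936416647) (l 134452609383)) (l 124788933047)))))) (b (b (a (l 4) (a (a (l 152169349479) (a (l 87207969095) (l 16777360))) (l 16777216))) (a (a (l 4) (a (l 162906767735) (a (l 112440901927) (l 16777368)))) (c (l 16777176) (l 16777016)))) (a (a (b (a (l 4) (a (l 123715191111) (l 78081163559))) (a (l 16777344) (l 16777096))) (c (l 16777200) (l 16777040))) (c (l 16776752) (l 16776768))))) (a (a (b (c (c (c (l 214446375255) (l 217130729799)) (l 217130729799)) (l 218204471623)) (b (a (c (l 165591122327) (l 167201735063)) (c (c (l 16777336) (l 16777176)) (l 16777176))) (a (a (a (l 112440901943) (l 16777376)) (l 16777320)) (l 16777016)))) (b (b (a (c (c (l 142505673079) (l 143042543991)) (l 139821318567)) (c (l 16777312) (l 16777152))) (a (c (l 16777408) (l 16777160)) (l 16776984))) (c (l 16776816) (l 16776832)))) (c (c (b (c (l 16776576)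 (l 16776592)) (a (c (l 16776432) (l 16776432)) (l 16776048))) (l 16776424)) (l 16776448)))) (a (b (c (b (a (l 16776720) (a (l 16776432) (l 16776240))) (a (a (l 16776136) (l 16776272)) (l 16776320))) (l 16776384)) (a (c (c (l 16776336) (l 16775208)) (l 16775240)) (c (c (l 16775456) (l 16775480)) (l 16774216)))) (b (a (c (c (l 16776104) (l 16775792)) (l 16775176)) (c (c (l 16775392) (l 16775416)) (l 16775456))) (c (c (l 16775544) (l 16774920)) (c (l 16774952) (l 16774992)))))) (b (c (a (c (a (l 16775472) (l 16774056)) (a (l 16774848) (l 16774096))) (c (l 16773568) (l 16774272))) (a (a (a (l 16775088) (l 16774720)) (l 16774168)) (c (l 16773032) (l 16773104)))) (c (a (c (c (l 16774384) (l 16774408)) (l 16774600)) (c (l 16772864) (l 16772280))) (a (a (l 16774232) (l 16773496)) (l 16773376))))), by decide +kernel⟩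

def k126_pm_011_t : ∃ t, chk3 f_pm_011_t t 144 1981 1 = true :=
  ⟨(a (a (b (c (c (a (c (a (l 16776672) (b (l 16776136) (l 16776112))) (l 16776440)) (a (a (l 16776328) (l 16775808)) (l 16776184))) (a (l 16776408) (a (l 16775272) (l 16775544)))) (a (l 16776504) (a (l 16775296) (l 16774928)))) (a (a (c (b (a (l 16776248) (l 16776056)) (l 16775808)) (l 16775360)) (c (c (l 16776248) (l 16775608)) (l 16774992))) (c (c (l 16775512) (l 16775704)) (c (l 16775080) (l 16775120))))) (b (a (c (a (l 16775480) (l 16775432)) (a (l 16775216) (l 16774848))) (c (c (l 16774184) (l 16774224)) (l 16773312))) (a (c (c (l 16774256) (l 16774288)) (a (l 16774544) (l 16774176))) (c (l 16774168) (l 16773624))))) (c (a (a (b (l 16774104) (l 16772752)) (a (l 16773184) (l 16772152))) (c (l 16771816) (l 16772552))) (a (a (a (l 16773408) (l 16773040)) (l 16773800)) (c (l 16771336) (l 16771440))))), by decide +kernel⟩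

def k127_pm_011_t : ∃ t, chk3 f_pm_011_t t 144 991 1 = true :=
  ⟨(c (a (b (b (a (c (a (c (l 16775728) (l 16775088)) (l 16774320)) (a (l 16775768) (l 16774352))) (a (l 16774232) (l 16772816))) (a (a (a (l 16774592) (l 16774208)) (l 16774296)) (c (l 16773128) (l 16772536)))) (a (a (b (l 16774360) (l 16773008)) (a (l 16773440) (l 16773064))) (c (c (l 16772712) (l 16771440)) (l 16772808)))) (a (b (c (l 16771952) (l 16772680)) (a (l 16771632) (l 16769560))) (c (c (l 16769696) (l 16770400)) (l 16770160)))) (b (a (a (c (a (b (l 16775144) (l 16774464)) (l 16774712)) (a (a (l 16773720) (l 16774664)) (l 16772808))) (a (a (l 16774848) (l 16773168)) (l 16773928))) (a (a (l 16771880) (l 16771144)) (l 16771352))) (a (a (a (a (l 16774312) (l 16773288)) (l 16773392)) (c (l 16772896) (l 16771688))) (a (l 16771472) (l 16768688))))), by decide +kernel⟩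

def k128_pm_011_t : ∃ t, chk3 f_pm_011_t t 145 1976 1 = true :=
  ⟨(a (a (a (a (b (b (l 4) (c (b (a (l 4) (l 131768254919)) (a (l 146800640439) (l 16777320))) (a (l 158074929799) (l 71101841975)))) (a (b (b (c (l 16777416) (l 16777176)) (l 16777016)) (l 16776760)) (c (l 16776736) (l 16776752)))) (b (a (b (b (l 4) (a (l 4) (l 100092871047))) (c (c (l 16777224) (l 16777064)) (l 16777064))) (b (c (b (c (l 108682805655) (l 109219676567)) (l 16777128)) (l 16777496)) (l 16776880))) (c (b (a (l 16776392) (l 16775872)) (c (l 16776272) (l 16776288))) (l 16776472)))) (c (a (b (a (b (l 16777192) (l 16776360)) (l 16776584)) (b (a (l 16776344) (l 16776152)) (l 16775904))) (b (b (c (l 16776064) (l 16775904)) (c (l 16776208) (l 16776216))) (c (l 16776336) (l 16775704)))) (c (c (l 16776248) (l 16776256)) (l 16776264)))) (b (a (a (c (c (a (l 16776744) (l 16775904)) (l 16775360)) (l 16775384)) (c (c (l 16776272) (l 16775632)) (l 16774360))) (c (c (l 16775368) (l 16775720)) (a (l 16775304) (l 16774936)))) (a (c (c (l 16775600)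 (l 16775792)) (a (l 16775368) (l 16775000))) (c (c (l 16774344) (l 16774384)) (l 16773136))))) (a (a (c (c (c (l 16774576) (l 16775248)) (l 16774624)) (c (l 16775328) (l 16774072))) (c (c (l 16773824) (l 16773216)) (c (l 16773272) (l 16773344)))) (c (c (c (l 16772664) (l 16772032)) (l 16773392)) (c (l 16773472) (l 16773560))))), by decide +kernel⟩

def k129_pm_011_t : ∃ t, chk3 f_pm_011_t t 145 1977 1 = true :=
  ⟨(a (b (c (a (b (a (a (c (l 16776312) (l 16776320)) (l 16776592)) (c (l 16775352) (l 16775376))) (a (a (l 16776296) (l 16775592)) (l 16775344))) (a (a (l 16774624) (l 16774240)) (l 16774328))) (a (a (a (l 16775520) (l 16775152)) (c (l 16775232) (l 16775272))) (a (l 16773200) (l 16773776)))) (c (a (a (a (a (l 16776200) (l 16775352)) (l 16775728)) (a (l 16774688) (l 16774312))) (a (l 16774400) (l 16772984))) (a (a (a (l 16775504) (l 16775136)) (l 16773600)) (c (l 16774752) (l 16773512))))) (a (c (c (c (l 16772800) (l 16773480)) (l 16772880)) (c (l 16773608) (l 16773688))) (c (c (l 16771944) (l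 16770712)) (l 16771848)))), by decide +kernel⟩

def k130_pm_011_t : ∃ t, chk3 f_pm_011_t t 145 989 1 = true :=
  ⟨(b (c (a (a (a (b (a (l 16774760) (l 16774376)) (l 16774200)) (b (l 16774464) (l 16773120))) (c (a (l 16773328) (l 16771912)) (l 16773008))) (a (c (l 16771424) (l 16770848)) (c (l 16769240) (l 16769344)))) (a (a (a (b (a (l 16774832) (l 16774464)) (l 16773976)) (a (l 16775072) (l 16773392))) (c (l 16773736) (l 16773824))) (a (c (l 16770944) (l 16771048)) (l 16770832)))) (a (c (c (a (c (l 16773072) (l 16773752)) (l 16771560)) (a (c (l 16773784) (l 16773816)) (l 16770984))) (c (a (l 16773216) (l 16771072)) (a (c (l 16772616) (l 16772664)) (l 16771184)))) (a (c (a (l 16769800) (l 16769048)) (l 16770960)) (c (l 16768888) (l 16768184))))), by decide +kernel⟩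

def k131_pm_011_t : ∃ t, chk3 f_pm_011_t t 145 495 1 = true :=
  ⟨(a (a (c (b (a (b (l 16772104) (l 16771376)) (c (l 16770776) (l 16771360))) (c (c (l 16767512) (l 16767576)) (l 16770288))) (b (b (a (l 16771624) (l 16770888)) (l 16771224)) (c (l 16767816) (l 16767976)))) (c (b (c (c (l 16770096) (l 16770144)) (l 16770232)) (c (l 16767328) (l 16766160))) (b (c (l 16770352) (l 16770496)) (l 16767736)))) (c (b (a (c (l 16768272) (l 16767408)) (a (l 16767360) (l 16766760))) (c (c (l 16765008) (l 16763776)) (l 16766528))) (b (a (c (l 16767560) (l 16767728)) (l 16767480)) (c (l 16766728) (l 16766952))))), by decide +kernel⟩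

def k132_pm_011_t : ∃ t, chk3 f_pm_011_t t 146 1968 1 = true :=
  ⟨(a (l 4) (a (b (l 4) (b (l 4) (b (l 4) (a (l 4) (a (l 4) (a (l 4) (c (l 52848230855) (l 16777200)))))))) (a (a (b (l 4) (a (b (c (l 172033573447) (l 173644186183)) (c (c (l 16777440) (l 16777112)) (l 16777112))) (b (c (b (l 147337511351) (l 16777336)) (l 16777552)) (l 16776936)))) (b (b (l 4) (a (c (c (l 155390575127) (l 156464316951)) (l 150558736999)) (b (c (l 116198998487) (l 16777264)) (l 16777392)))) (c (a (b (l 16777240) (l 16776088)) (l 16776720)) (l 16776824)))) (b (a (b (a (a (l 4) (b (l 4) (l 81302389127))) (b (a (l 157538058599) (l 16777376)) (l 16777112))) (c (l 16777136) (l 16776960))) (c (c (l 16776736) (l 16776744)) (l 16776752))) (c (a (b (a (l 16776048) (l 16776512)) (l 16775776)) (b (l 16775576) (l 16775888))) (l 16776272)))))), by decide +kernel⟩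

def k133_pm_011_t : ∃ t, chk3 f_pm_011_t t 146 1969 1 = true :=
  ⟨(a (b (l 4) (a (l 4) (a (l 4) (a (l 4) (c (c (c (l 223573180935) (l 225720664583)) (l 224646922759)) (l 228405019127)))))) (c (a (b (a (b (l 4) (a (l 4) (a (l 4) (b (l 4) (l 100092871143))))) (a (a (b (l 4) (b (l 89892323783) (l 16777112))) (b (b (l 4) (l 79154905527)) (l 16777008))) (b (a (b (l 71101841815) (l 16777072)) (l 16776968)) (l 16776720)))) (a (b (a (c (l 208540795191) (l 209614537015)) (a (b (l 114588385751) (l 16777144)) (l 16777040))) (a (a (b (l 145726898615) (l 16777336)) (l 16777320)) (l 16776800))) (c (a (l 16776584) (b (l 16776376) (l 16776032))) (l 16776400)))) (a (a (c (b (b (l 16776024) (l 16776336)) (l 16776480)) (l 16776176)) (b (b (a (l 16776400) (l 16776208)) (l 16775960)) (l 16775944))) (b (a (b (l 16775928) (l 16775584)) (l 16776032)) (c (l 16775520) (l 16774896))))) (a (a (b (c (c (l 216593859175) (l 217667600999)) (l 217667600999)) (b (a (l 161833026327) (l 16777528)) (a (a (l 16777544) (l 16777080)) (l 16776808))))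 (b (a (b (c (l 128547029783) (l 129083900695)) (l 16777416)) (l 16777224)) (l 16776424))) (c (a (l 16776008) (a (l 16774136) (l 16773768))) (l 16775656))))), by decide +kernel⟩

def k134_pm_011_t : ∃ t, chk3 f_pm_011_t t 146 1970 1 = true :=
  ⟨(a (a (l 4) (a (b (l 4) (b (a (l 4) (a (b (l 4) (c (l 97408516583) (l 16777248))) (b (c (l 87207969223) (l 16777232)) (l 16777104)))) (a (a (a (l 4) (b (l 4) (l 109219676551))) (b (c (l 111367160279) (l 16777256)) (l 16777384))) (c (c (l 16776944) (l 16776944)) (l 16776952))))) (b (a (b (l 4) (a (b (l 4) (c (l 79154905511) (l 16777224))) (b (c (l 68954358167) (l 16777208)) (l 16777072)))) (a (b (b (l 165054251527) (a (l 97945387383) (l 16777168))) (l 16776968)) (b (a (b (l 75933680039) (l 16777080)) (l 16777232)) (l 16776784)))) (c (c (a (l 16776736) (b (l 16775872) (l 16776176))) (l 16776552)) (l 16776568))))) (c (c (a (a (a (c (b (l 16776656) (l 16776624)) (l 16776320)) (b (b (l 16775792) (l 16776104)) (l 16775584))) (b (a (l 16776552) (l 16775512)) (l 16775672)))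 (a (b (l 16775600) (l 16774248)) (l 16774408))) (a (a (c (l 16776072) (l 16776144)) (b (a (l 16775912) (l 16775536)) (l 16775040))) (a (c (l 16775272) (l 16775288)) (l 16775184)))) (a (c (a (l 16776152) (b (l 16774432) (l 16775072))) (l 16775800)) (a (b (l 16773704) (l 16774352)) (a (l 16772816) (l 16773760)))))), by decide +kernel⟩

def k135_pm_011_t : ∃ t, chk3 f_pm_011_t t 146 1971 1 = true :=
  ⟨(a (a (a (b (l 4) (b (b (l 4) (a (l 4) (a (l 4) (c (l 74859938215) (l 16777216))))) (a (b (l 4) (a (l 4) (a (l 160222413175) (l 67880616359)))) (c (a (b (l 85060485559) (l 16777096)) (l 16777000)) (l 16777408))))) (b (a (a (l 4) (b (l 4) (b (l 163443638775) (c (l 57143198071) (l 16777192))))) (c (b (b (a (l 4) (l 144653156775)) (a (l 161296155031) (l 16777336))) (a (c (l 16777344) (l 16777104)) (l 16776920))) (b (a (l 172570444343) (l 74859938375)) (l 16777016)))) (b (a (a (b (a (l 105998451079) (l 16777184)) (l 16777064)) (l 16776960)) (c (l 16776672) (l 16776688))) (c (c (l 16776520) (l 16776528)) (l 16776544)))))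 (b (c (b (c (a (a (l 16777224) (l 16775944)) (a (l 16776216) (l 16775832))) (a (l 16776952) (l 16775384))) (a (b (l 16776472) (a (l 16775896) (l 16776176))) (c (l 16776336) (l 16775696)))) (c (a (l 16776632) (l 16774576)) (l 16776272))) (a (a (c (b (a (l 16776392) (l 16776200)) (l 16775952)) (l 16774848)) (c (c (l 16776392) (l 16775752)) (l 16774472))) (c (c (l 16775816) (l 16775840)) (l 16774248))))) (a (b (a (c (c (l 16775744) (l 16775112)) (l 16774176)) (c (a (l 16774528) (l 16774152)) (l 16774424))) (a (c (c (l 16774400) (l 16774432)) (l 16774496)) (c (l 16774312) (l 16773752)))) (c (c (c (l 16773480) (l 16774160)) (c (l 16774184) (l 16774208))) (c (l 16774256) (c (l 16773000) (l 16773040)))))), by decide +kernel⟩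

def k136_pm_011_t : ∃ t, chk3 f_pm_011_t t 146 986 1 = true :=
  ⟨(a (a (b (a (c (a (b (b (a (b (l 108145934791) (l 16777128)) (l 16777032)) (l 16776784)) (c (b (l 16775784) (l 16776088)) (l 16775616))) (c (b (l 16776576) (l 16776208)) (l 16776240))) (b (a (a (b (l 16777512) (l 16776888)) (l 16776872)) (l 16776592)) (l 16776112))) (b (a (c (b (a (l 16776464) (l 16776272)) (l 16776680)) (l 16775568)) (c (c (l 16776464) (l 16775824)) (l 16774544))) (a (c (c (l 16775496) (l 16775520)) (l 16775560)) (c (l 16775784) (l 16775192))))) (a (b (a (c (a (l 16776328) (l 16775488)) (l 16775624)) (c (l 16775856) (l 16775256))) (c (c (l 16775344) (l 16774720)) (l 16773464))) (b (c (a (l 16774824) (l 16774440)) (l 16773392)) (c (l 16774600) (l 16774040))))) (b (b (a (c (c (l 16775728) (l 16775912)) (a (l 16775488) (l 16775120))) (c (a (l 16774680) (l 16774296)) (l 16774568))) (a (c (c (l 16774544) (l 16774576)) (l 16773328)) (c (l 16774456) (l 16773896)))) (a (c (b (l 16774528) (l 16773184)) (a (l 16773816) (l 16773448)))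 (c (a (l 16773616) (l 16773888)) (l 16774208))))) (b (c (a (a (b (l 16774384) (l 16773040)) (a (l 16773472) (l 16772432))) (c (l 16772112) (l 16771520))) (a (a (a (l 16773680) (l 16773312)) (l 16774064)) (a (l 16772016) (l 16771280)))) (a (c (c (l 16772256) (l 16772976)) (c (l 16771744) (l 16771832))) (c (a (l 16770496) (l 16769736)) (l 16771624))))), by decide +kernel⟩

def k137_pm_011_t : ∃ t, chk3 f_pm_011_t t 146 987 1 = true :=
  ⟨(a (a (c (c (a (b (l 16774304) (l 16772264)) (b (l 16773544) (l 16771504))) (b (a (l 16775000) (l 16772936)) (l 16773256))) (c (b (a (l 16773744) (l 16773000)) (l 16773336)) (b (a (l 16773800) (l 16773072)) (l 16772112)))) (b (c (c (c (l 16773040) (l 16771760)) (l 16773120)) (c (l 16771888) (l 16771976))) (c (a (l 16772088) (l 16770016)) (l 16771904)))) (c (c (c (a (l 16770160) (l 16767976)) (a (l 16770856) (l 16768024))) (a (l 16770928) (l 16770728))) (a (c (l 16771032) (l 16771160)) (c (l 16768240) (l 16768384))))), by decide +kernel⟩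

def k138_pm_011_t : ∃ t, chk3 f_pm_011_t t 147 492 1 = true :=
  ⟨(b (b (c (a (a (b (a (a (b (a (l 16775976) (l 16776440)) (l 16775536)) (b (l 16775496) (l 16775808))) (a (a (l 16775696) (l 16775512)) (l 16775880))) (a (a (a (l 16776432) (l 16775584)) (l 16775952)) (a (l 16774920) (l 16774536)))) (c (a (c (l 16774944) (l 16774960)) (l 16774184)) (a (l 16775312) (l 16773576)))) (c (a (a (l 16772768) (l 16772008)) (l 16772176)) (a (l 16773752) (l 16770936)))) (a (a (a (b (l 16776200) (l 16774552)) (b (l 16774480) (l 16773488))) (a (b (l 16774720) (l 16774056)) (a (l 16773840) (l 16773472)))) (a (c (l 16773816) (l 16772584)) (l 16772376)))) (c (a (a (a (b (a (l 16774992) (l 16774616)) (l 16774776)) (b (l 16774704) (l 16773360))) (c (c (l 16773184) (l 16773864)) (l 16773904))) (a (c (l 16772320) (l 16771088)) (c (l 16769488) (l 16769576)))) (a (a (a (b (l 16773560) (l 16774208)) (a (l 16773984) (l 16773616))) (c (l 16773968) (l 16771088))) (a (l 16772528) (l 16769736))))) (b (a (c (a (c (c (l 16773328) (l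 16774008)) (l 16773720)) (a (l 16772232) (l 16772128))) (c (a (l 16774112) (l 16771312)) (a (c (l 16772856) (l 16772896)) (l 16771408)))) (c (c (c (l 16769512) (l 16770208)) (l 16770280)) (a (l 16769888) (l 16768408)))) (a (c (a (c (l 16771968) (l 16771376)) (c (l 16769784) (l 16769872))) (a (c (l 16771464) (l 16771552)) (l 16771344))) (a (c (l 16769624) (l 16768552)) (c (l 16768104) (l 16767080)))))), by decide +kernel⟩

def k139_pm_011_t : ∃ t, chk3 f_pm_011_t t 147 493 1 = true :=
  ⟨(a (a (c (b (c (c (l 16770528) (l 16770576)) (l 16770648)) (c (l 16767784) (l 16766600))) (b (c (l 16770752) (l 16770880)) (l 16768152))) (c (b (c (l 16769024) (l 16767824)) (c (l 16764952) (l 16765096))) (b (c (l 16767960) (l 16768112)) (l 16767984)))) (c (c (b (c (l 16766712) (l 16768088)) (c (l 16762632) (l 16762712))) (b (l 16766880) (l 16762840))) (c (b (l 16768352) (l 16763048)) (b (l 16768536) (l 16763272))))), by decide +kernel⟩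

def k140_pm_011_t : ∃ t, chk3 f_pm_011_t t 73 247 1 = true :=
  ⟨(b (b (c (a (b (a (a (c (l 16771808) (l 16770576)) (c (l 16768968) (l 16769072))) (a (l 16768816) (l 16765984))) (a (c (c (l 16769632) (l 16769680)) (l 16769768)) (c (l 16766608) (l 16765440)))) (a (c (c (l 16765528) (l 16762984)) (l 16763120)) (c (l 16762528) (l 16760112)))) (a (a (c (a (l 16771312) (l 16771136)) (a (l 16771104) (l 16768656))) (a (c (l 16767032) (l 16767200)) (l 16768256))) (a (c (l 16763320) (l 16763552)) (l 16763112)))) (a (a (a (c (c (l 16768336) (l 16767152)) (c (l 16767296) (l 16767464))) (c (c (l 16766808) (l 16765640)) (l 16768528))) (c (c (c (l 16765800) (l 16763256)) (l 16766008)) (c (l 16763584) (l 16763816)))) (c (a (c (l 16762800) (l 16760384)) (c (l 16757144) (l 16757376))) (a (l 16763376) (l 16757816))))) (a (b (a (c (c (c (l 16764752) (l 16763520)) (l 16766272)) (c (l 16766472) (l 16766696))) (c (c (l 16763056) (l 16760648)) (l 16762984))) (c (a (c (l 16762000) (l 16760896)) (c (l 16757656) (l 16757896)))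 (a (c (l 16761144) (l 16761416)) (l 16758336)))) (c (a (c (c (l 16758576) (l 16756072)) (l 16758888)) (b (l 16756792) (l 16754360))) (a (c (l 16759192) (l 16759536)) (c (l 16753616) (l 16754008)))))), by decide +kernel⟩

def k141_pm_011_t : ∃ t, chk3 f_pm_011_t t 74 488 1 = true :=
  ⟨(b (l 4) (a (l 4) (a (l 4) (b (a (l 4) (b (b (l 4) (a (l 4) (a (l 4) (a (c (l 151632478839) (l 16777480)) (b (l 114051514967) (l 16777144)))))) (b (a (l 4) (a (a (c (l 169886089847) (l 172570444407)) (b (l 145726898743) (l 16777512))) (c (l 16777320) (l 16776992)))) (a (a (l 4) (a (l 4) (b (l 4) (l 64659391031)))) (c (c (c (l 16777168) (l 16776840)) (l 16776848)) (l 16776856)))))) (a (a (l 4) (b (a (l 4) (b (l 4) (c (l 203172086055) (l 153779962711)))) (b (a (c (l 216056987991) (l 167201735559)) (a (b (l 129083900535) (l 16777496)) (l 16777360))) (a (a (b (l 158074929735) (l 16777480)) (c (l 16777104) (l 16777112))) (l 16776840))))) (b (a (b (a (a (l 4) (b (l 4) (l 95797903895))) (c (c (l 16777392) (l 16777072)) (l 16777072)))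 (a (a (b (l 105461580343) (l 16777128)) (l 16777032)) (l 16776752))) (c (c (l 16776344) (l 16776352)) (l 16776368))) (c (c (a (l 16776424) (a (l 16775856) (l 16775472))) (l 16776056)) (l 16776080)))))))), by decide +kernel⟩

def k142_pm_011_t : ∃ t, chk3 f_pm_011_t t 148 978 1 = true :=
  ⟨(l 4), by decide +kernel⟩

def k143_pm_011_t : ∃ t, chk3 f_pm_011_t t 298 978 1 = true :=
  ⟨(b (a (l 4) (a (l 4) (b (l 4) (b (a (l 4) (a (c (l 147874382535) (l 155927446135)) (b (l 118883353175) (l 16777152)))) (a (a (c (l 171496702583) (l 174181057143)) (b (l 150558736951) (l 16777512))) (c (l 16777320) (l 16777000))))))) (b (a (l 4) (a (a (a (l 4) (b (l 4) (b (l 4) (l 96334774823)))) (b (a (l 4) (b (l 4) (l 67343745591))) (a (b (l 78618034775) (l 16777096)) (l 16776992)))) (c (c (c (a (l 16777192) (l 16775832)) (l 16777008)) (l 16777008)) (l 16777024)))) (a (a (l 4) (b (a (l 4) (c (l 204245827879) (l 153243091815))) (a (c (l 217130729815) (l 165054251911)) (a (b (l 131231384183) (l 16777496)) (c (l 16777072) (l 16777072))))))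 (b (a (a (a (b (l 106535322183) (l 16777136)) (l 16777200)) (c (l 16776752) (l 16776760))) (c (a (l 16775712) (l 16775992)) (l 16774896))) (c (a (l 16776600) (a (l 16776032) (l 16775656))) (l 16776248)))))), by decide +kernel⟩

def k144_pm_011_t : ∃ t, chk3 f_pm_011_t t 299 978 1 = true :=
  ⟨(a (b (a (b (b (a (l 4) (a (b (l 4) (l 78081163863)) (b (l 66806874679) (l 16777072)))) (a (a (c (l 130157642391) (l 16777624)) (b (l 95797903911) (l 16777112))) (c (l 16776920) (l 16776920)))) (c (c (c (l 16776592) (l 16776600)) (l 16776600)) (l 16776616))) (c (c (b (l 16776512) (a (l 16775368) (l 16775648))) (l 16776184)) (l 16776208))) (b (c (a (c (a (l 16775376) (l 16775728)) (l 16774952)) (c (l 16775816) (l 16775176))) (l 16775592)) (a (c (c (l 16775896) (l 16775264)) (l 16773992)) (c (a (l 16774680) (l 16774304)) (l 16774560))))) (b (b (c (a (c (a (l 16775288) (l 16775560)) (l 16774456)) (a (l 16775192) (l 16774808))) (l 16775424)) (a (c (c (l 16775728) (l 16775096)) (l 16773824)) (c (l 16774984) (l 16774400))))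 (c (c (a (l 16774712) (l 16774608)) (a (l 16775400) (l 16773336))) (c (a (l 16774128) (l 16773384)) (l 16771840))))), by decide +kernel⟩

def k145_pm_011_t : ∃ t, chk3 f_pm_011_t t 148 979 1 = true :=
  ⟨(a (l 4) (b (b (l 4) (b (l 4) (a (l 4) (a (l 4) (a (l 4) (a (c (l 154316833399) (l 155390575223)) (b (l 118346482263) (l 16777480)))))))) (a (b (l 4) (a (l 4) (a (l 4) (b (l 4) (c (l 203172086055) (l 151095608151)))))) (a (a (b (l 4) (b (a (l 4) (b (l 4) (l 89892323879))) (a (b (l 102240354871) (l 16777128)) (l 16777032)))) (b (a (l 4) (b (l 4) (b (l 4) (l 69491229159)))) (b (a (b (l 79154905607) (l 16777096)) (l 16776992)) (l 16776752)))) (b (a (b (a (c (l 170959831671) (l 173644186231)) (b (l 149484995127) (l 16777472))) (a (b (l 54458843671) (l 16777056)) (l 16776952))) (c (b (l 16777280) (l 16776664)) (l 16776840))) (c (c (l 16776296) (l 16776352)) (l 16776368))))))), by decide +kernel⟩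

def k146_pm_011_t : ∃ t, chk3 f_pm_011_t t 149 979 1 = true :=
  ⟨(b (a (a (a (b (b (l 4) (a (l 4) (c (a (c (l 108682805863) (l 109219676775)) (l 16777472)) (l 70028100359)))) (b (a (a (b (l 4) (l 105461580359)) (b (l 95797903911) (l 16777112))) (c (l 16776920) (l 16776920))) (c (a (l 16776952) (l 16775928)) (l 16776776)))) (a (b (a (b (b (l 169886089719) (l 57143198231)) (l 16776976)) (b (c (l 16777432) (l 16777112)) (l 16776784))) (c (l 16776368) (l 16776392))) (c (c (c (l 16776320) (l 16776328)) (l 16776328)) (l 16776352)))) (c (b (a (b (l 16776264) (a (l 16776120) (l 16775736))) (c (l 16775984) (l 16775344))) (c (a (c (l 16776064) (l 16775416)) (l 16774648)) (a (l 16774120) (l 16774672)))) (c (l 16775408) (l 16775440)))) (c (a (a (b (a (l 16774768) (l 16774392)) (l 16774560)) (b (l 16774472) (l 16773144))) (c (c (l 16773624) (l 16772336)) (l 16773688))) (a (a (a (l 16773192) (l 16774128)) (a (l 16773760) (l 16773392))) (c (l 16773744) (l 16772504))))) (a (a (c (c (b (a (l 16776256) (c (l 16776144)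 (l 16775496))) (a (c (l 16776232) (l 16775584)) (l 16774816))) (a (l 16775928) (b (l 16774200) (l 16774840)))) (c (l 16775408) (l 16775600))) (a (b (c (a (l 16774936) (l 16774552)) (l 16773496)) (c (l 16774728) (l 16774152))) (c (c (l 16774288) (l 16773672)) (c (l 16773712) (l 16773768))))) (a (c (c (c (l 16773792) (l 16772504)) (l 16773848)) (c (l 16773912) (l 16772664))) (c (c (l 16772280) (l 16771032)) (c (l 16771112) (l 16771200)))))), by decide +kernel⟩

def k147_pm_011_t : ∃ t, chk3 f_pm_011_t t 148 980 1 = true :=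
  ⟨(a (a (l 4) (b (l 4) (a (b (l 4) (b (b (l 4) (a (l 4) (a (l 4) (a (l 16777408) (l 16777176))))) (a (a (l 4) (a (l 154316833367) (b (l 4) (l 16777200)))) (c (c (c (l 16777384) (l 16777056)) (l 16777056)) (l 16777064))))) (b (b (a (l 4) (a (c (l 149484995175) (l 150558736999)) (b (l 110293418583) (l 16777144)))) (a (a (c (l 172033573447) (l 173644186183)) (b (l 142505673255) (l 16777424))) (c (l 16777232) (l 16776992)))) (c (a (a (b (l 16777440) (l 16776136)) (l 16776768)) (l 16776480)) (l 16777008)))))) (b (a (a (b (l 4) (b (a (l 4) (a (b (l 4) (l 78081163767)) (c (l 16777464) (l 16777136)))) (a (a (b (l 4) (l 99019129399)) (b (l 87744840215) (l 16777104))) (c (l 16776912) (l 16776920))))) (b (b (a (c (l 216056987991) (l 168812348215)) (a (b (l 132841996823) (l 16777496)) (c (l 16777064) (l 16777072)))) (a (a (b (l 161833026039) (l 57143198151)) (c (l 16777432) (l 16777104))) (l 16776832))) (c (c (l 16776504) (l 16776512)) (l 16776528)))) (a (c (c (b (l 16776424) (a (l 16775280) (l 16775552))) (l 16776096))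 (l 16776120)) (b (c (c (a (l 16775848) (l 16775472)) (l 16774696)) (l 16774400)) (c (a (l 16775184) (l 16774800)) (l 16773736))))) (b (c (a (c (a (c (l 16776664) (l 16776584)) (a (a (l 16776112) (l 16775920)) (l 16775632))) (a (l 16776592) (l 16774856))) (a (a (l 16775264) (l 16774880)) (l 16774968))) (a (c (l 16776232) (l 16776248)) (a (l 16773816) (l 16774392)))) (c (a (a (a (a (l 16775544) (l 16775352)) (a (l 16775816) (l 16775624))) (c (l 16775800) (l 16775168))) (a (l 16775048) (l 16773632))) (a (l 16775576) (c (l 16772760) (l 16774120))))))), by decide +kernel⟩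

def k148_pm_011_t : ∃ t, chk3 f_pm_011_t t 149 980 1 = true :=
  ⟨(a (b (c (a (c (a (c (l 16775208) (l 16775216)) (l 16774448)) (a (c (l 16775888) (l 16774592)) (l 16773832))) (c (c (l 16773296) (l 16773976)) (l 16774016))) (a (a (a (l 16773512) (l 16773144)) (a (l 16774080) (l 16773712))) (c (l 16774072) (l 16772824)))) (c (a (c (c (l 16773456) (l 16774136)) (l 16773848)) (c (l 16772608) (l 16771360))) (c (a (c (l 16772904) (l 16772936)) (l 16771432)) (a (l 16771672) (l 16771520))))) (c (c (a (a (l 16771488) (l 16771384)) (c (l 16770224) (l 16768952))) (a (c (l 16771816) (l 16771856)) (l 16770336))) (c (a (l 16772080) (l 16771744)) (a (b (l 16771360) (l 16770056)) (l 16769240))))), by decide +kernel⟩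

def k149_pm_011_t : ∃ t, chk3 f_pm_011_t t 74 1962 1 = true :=
  ⟨(a (a (a (a (a (l 4) (b (l 4) (c (b (l 225720664423) (a (a (l 145190027751) (l 81839260183)) (l 16777448))) (b (l 183307862775) (l 59290682103))))) (a (b (b (l 4) (c (l 211762020679) (l 165591122727))) (b (b (a (l 158611800551) (l 16777416)) (c (l 16777424) (l 16777104))) (l 16776896))) (c (b (b (c (l 201024602391) (l 147874382599)) (a (a (l 88818582055) (l 16777424)) (l 16777056))) (l 16776640)) (b (b (l 147337511751) (l 16777128)) (l 16776656))))) (b (a (b (a (a (b (a (l 160222413175) (l 16777216)) (l 16777120)) (l 16777016)) (l 16776736)) (a (l 16776776) (l 16776384))) (c (a (b (l 16775696) (l 16776016)) (c (l 16775800) (l 16775808))) (l 16774712))) (c (a (a (b (l 16775776) (l 16776096)) (c (l 16775880) (l 16775888))) (c (l 16775960) (l 16775328))) (l 16775736)))) (a (b (a (c (a (l 16776080) (l 16775048)) (l 16773976)) (c (l 16775128) (l 16774544))) (a (c (l 16775208) (l 16774624)) (c (l 16773800) (l 16773888)))) (c (c (c (l 16773624)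 (l 16774296)) (l 16774008)) (c (c (l 16773064) (l 16773088)) (l 16771832))))) (c (a (a (a (l 16773168) (l 16772416)) (a (l 16770344) (l 16769592))) (c (c (l 16767632) (l 16767680)) (l 16770376))) (a (a (a (l 16772000) (l 16771264)) (l 16771464)) (c (l 16770496) (l 16768016))))), by decide +kernel⟩

def k150_pm_011_t : ∃ t, chk3 f_pm_011_t t 74 1963 1 = true :=
  ⟨(a (a (a (a (b (a (c (b (a (a (l 175254798791) (l 101166613063)) (c (l 3456106951) (l 16777160))) (l 16776928)) (b (l 70028100391) (l 16776936))) (c (l 16776720) (l 16776736))) (c (a (l 16776424) (b (l 16775560) (l 16775872))) (l 16776256))) (c (b (a (b (l 16775856) (l 16776176)) (b (l 16776136) (l 16775792))) (c (c (l 16776112) (l 16775472)) (l 16774832))) (l 16775848))) (b (a (c (c (l 16776040) (l 16775408)) (l 16774128)) (c (a (l 16774824) (l 16774448)) (l 16774704))) (a (c (c (l 16774704) (l 16774728)) (l 16774784)) (c (l 16774608) (l 16774040))))) (c (a (c (c (l 16773944) (l 16774456)) (c (l 16774480) (l 16774504))) (c (l 16772264) (l 16771672)))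 (c (a (c (l 16773216) (l 16773248)) (l 16771744)) (a (l 16771984) (l 16771832))))) (a (c (a (c (l 16770088) (l 16770168)) (c (l 16768568) (l 16768664))) (a (l 16771616) (l 16768832))) (c (c (l 16767608) (l 16766408)) (c (l 16766544) (l 16766704))))), by decide +kernel⟩

def k151_pm_011_t : ∃ t, chk3 f_pm_011_t t 74 491 1 = true :=
  ⟨(b (a (a (a (a (c (c (b (b (c (l 16776192) (l 16775552)) (l 16774864)) (l 16774488)) (b (b (l 16774584) (l 16774888)) (l 16775184))) (b (b (l 16774288) (l 16773624)) (a (l 16774128) (l 16773760)))) (c (b (b (a (l 16774984) (l 16774608)) (l 16774768)) (a (l 16773936) (l 16772904))) (c (b (l 16773192) (l 16773168)) (b (l 16774552) (l 16773232))))) (b (a (c (a (l 16774376) (l 16774160)) (a (l 16773976) (l 16773600))) (c (a (l 16773784) (l 16772744)) (l 16773048))) (c (c (l 16772584) (l 16773296)) (c (l 16772056) (l 16772136))))) (a (b (c (a (l 16772832) (l 16771416)) (c (l 16771904) (l 16771984))) (c (c (l 16770400) (l 16770480)) (l 16771928))) (c (c (c (l 16770856) (l 16770896))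 (l 16770960)) (a (l 16771480) (l 16770744))))) (c (a (a (c (l 16769352) (l 16768144)) (c (l 16767832) (l 16766640))) (c (a (l 16765008) (l 16763496)) (l 16767008))) (a (a (c (l 16768256) (l 16768400)) (l 16768160)) (c (l 16767176) (l 16767368))))) (a (a (a (b (c (c (l 16772656) (l 16773448)) (c (l 16772208) (l 16772288))) (c (c (l 16770712) (l 16770784)) (l 16772232))) (c (c (c (l 16770512) (l 16771200)) (l 16771264)) (c (l 16771360) (l 16771472)))) (c (a (c (l 16769336) (l 16771072)) (c (l 16768136) (l 16766944))) (a (c (l 16768568) (l 16768696)) (l 16768464)))) (a (c (c (c (l 16765832) (l 16764584)) (l 16767312)) (c (l 16767472) (l 16767664))) (c (c (l 16762832) (l 16761688)) (c (l 16761888) (l 16762120)))))), by decide +kernel⟩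

def k152_pm_011_t : ∃ t, chk3 f_pm_011_t t 150 976 1 = true :=
  ⟨(a (b (a (l 4) (a (b (l 4) (b (a (l 4) (a (l 4) (b (l 167201735175) (l 16777528)))) (a (a (l 4) (a (l 149484995239) (l 97945387655))) (c (c (l 16777384) (l 16777056)) (l 16777064))))) (b (a (b (l 4) (c (a (l 161833026199) (l 70564971159)) (l 95797904295))) (c (b (a (l 137673835191) (l 51774489223)) (l 16776976)) (c (l 16777768) (l 16777112)))) (c (c (c (l 16776984) (l 16776664)) (l 16776664)) (l 16776680))))) (a (a (a (l 4) (b (l 4) (b (l 4) (c (a (l 103314096807) (l 16777464)) (l 16777512))))) (b (b (c (a (l 4) (a (l 4) (l 131768255143))) (l 211762020807)) (a (c (l 213372633415) (l 162906768247)) (a (b (l 131231384087) (l 16777160)) (l 16777384)))) (b (a (a (b (l 152706220615) (l 16777520)) (c (l 16777096) (l 16777104))) (l 16776824)) (c (l 16776672) (l 16776688))))) (a (c (c (a (b (b (l 16777504) (l 16776776)) (l 16775616)) (l 16776144)) (b (l 16777160) (l 16774784))) (c (l 16776752) (l 16776440))) (c (b (c (a (l 16775528) (l 16775800))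 (l 16774696)) (c (l 16775976) (l 16775336))) (l 16775696))))) (a (b (c (c (a (b (l 16776576) (a (l 16775440) (l 16775712))) (b (a (l 16776008) (l 16775624)) (l 16775800))) (c (l 16775872) (l 16775872))) (c (l 16775888) (l 16775904))) (c (c (a (b (l 16775888) (l 16774552)) (l 16774784)) (a (a (l 16773792) (l 16774728)) (l 16775472))) (c (a (l 16773632) (l 16774200)) (l 16772640)))) (b (a (b (c (a (l 16775256) (l 16774872)) (l 16773808)) (c (l 16775048) (l 16774464))) (c (c (l 16774608) (l 16773992)) (l 16772736))) (c (c (c (l 16773640) (l 16774312)) (l 16774344)) (a (l 16772168) (l 16772744)))))), by decide +kernel⟩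

def k153_pm_011_t : ∃ t, chk3 f_pm_011_t t 150 977 1 = true :=
  ⟨(a (b (a (b (a (a (c (b (a (l 126399546007) (l 16777496)) (l 16776952)) (a (l 56606327671) (l 16777016))) (c (l 16776744) (l 16776752))) (c (a (l 16776360) (c (l 16775320) (l 16775992))) (l 16776200))) (c (c (a (a (l 16775792) (l 16775408)) (c (l 16776144) (l 16775496))) (l 16775888)) (l 16775912))) (a (a (c (c (b (l 16775592) (l 16774920)) (l 16773968)) (l 16774000)) (c (c (l 16775536) (l 16774904)) (l 16773632))) (b (c (a (l 16774848) (l 16774464)) (l 16774720)) (c (l 16774640) (l 16774064))))) (a (a (b (c (c (c (l 16776232) (l 16775584)) (l 16774280)) (l 16774312)) (c (a (l 16775104) (l 16774720)) (l 16773656))) (b (c (c (l 16774816) (l 16774840)) (l 16774888)) (c (l 16774808) (l 16774232)))) (a (c (c (l 16774376) (l 16773752)) (c (l 16773792) (l 16773848))) (c (c (l 16772960) (l 16773000)) (l 16771768))))) (b (c (a (c (c (l 16773808) (l 16774488)) (c (l 16774504) (l 16773216))) (c (l 16772960) (l 16771704))) (a (a (l 16772336) (l 16772912))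 (a (l 16772176) (l 16771432)))) (a (c (c (l 16772472) (l 16771872)) (c (l 16771936) (l 16772008))) (c (c (l 16770304) (l 16770368)) (l 16771808))))), by decide +kernel⟩

def k154_pm_011_t : ∃ t, chk3 f_pm_011_t t 151 488 1 = true :=
  ⟨(b (c (a (a (c (b (c (l 16774120) (l 16772824)) (l 16772784)) (b (l 16774168) (l 16771528))) (c (c (l 16771600) (l 16771952)) (c (l 16771984) (l 16773328)))) (a (c (c (l 16770408) (l 16769136)) (l 16771816)) (c (l 16768920) (l 16767696)))) (a (a (a (b (l 16772000) (l 16772000)) (b (l 16772568) (l 16771264))) (c (l 16772736) (b (l 16771504) (l 16770208)))) (a (c (l 16769288) (l 16769392)) (l 16769176)))) (c (a (a (c (c (l 16770752) (l 16769472)) (l 16770848)) (c (l 16769256) (l 16768032))) (c (c (l 16766968) (l 16765704)) (l 16768416))) (a (a (c (l 16772248) (l 16769728)) (c (l 16768144) (l 16768264))) (c (l 16768544) (l 16768696))))), by decide +kernel⟩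

def k155_pm_011_t : ∃ t, chk3 f_pm_011_t t 75 489 1 = true :=
  ⟨(b (a (a (b (c (a (a (b (l 16774896) (l 16773568)) (a (l 16773992) (l 16774272))) (c (l 16772640) (l 16773352))) (a (a (a (l 16774168) (l 16773800)) (l 16771936)) (a (l 16772504) (l 16771768)))) (c (c (a (c (l 16773456) (l 16772168)) (l 16770640)) (a (l 16773520) (l 16770704))) (a (c (l 16772272) (l 16772344)) (l 16772136)))) (a (c (c (c (l 16771088) (l 16771120)) (l 16771176)) (c (l 16771272) (l 16772680))) (c (c (l 16769592) (l 16768368)) (c (l 16768472) (l 16768600))))) (a (c (c (c (l 16767304) (l 16768664)) (l 16767432)) (a (l 16769680) (l 16765592))) (c (c (l 16764312) (l 16763136)) (c (l 16763296) (l 16763488))))) (c (a (b (a (a (a (l 16772520) (l 16770456)) (c (l 16769288) (l 16769368))) (a (l 16769128) (l 16768936))) (a (c (c (l 16769984) (l 16768712)) (l 16770088)) (c (l 16766976) (l 16765784)))) (a (c (c (l 16763296) (l 16763360)) (l 16763464)) (c (l 16762944) (l 16760480)))) (a (c (a (a (l 16771600) (l 16768800)) (l 16768544))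 (a (a (b (l 16771040) (l 16769736)) (l 16768920)) (l 16769352))) (a (c (l 16763624) (l 16763808)) (l 16763400))))), by decide +kernel⟩

def k156_pm_011_t : ∃ t, chk3 f_pm_011_t t 75 245 1 = true :=
  ⟨(c (b (a (a (b (a (c (l 16768728) (l 16767520)) (c (l 16765904) (l 16766024))) (c (c (l 16766544) (l 16763984)) (l 16766712))) (b (c (c (l 16763616) (l 16763672)) (l 16766400)) (c (l 16763560) (l 16761104)))) (c (a (a (l 16762000) (l 16761152)) (c (l 16758864) (l 16756336))) (a (b (l 16760792) (l 16758120)) (l 16761728)))) (a (a (a (b (l 16763376) (l 16761976)) (b (l 16763184) (l 16757856))) (c (c (l 16759440) (l 16756912)) (l 16759696))) (c (a (c (l 16753824) (l 16753928)) (l 16753512)) (a (l 16754104) (l 16751144))))) (a (b (a (c (b (c (l 16769488) (l 16769560)) (l 16766872)) (b (l 16769016) (l 16764440))) (b (c (l 16763944) (l 16764128)) (l 16763376))) (a (b (c (l 16761600) (l 16761824)) (l 16761688)) (c (l 16759944) (l 16762848)))) (b (a (b (l 16763720) (l 16758480)) (c (l 16756728) (l 16757008))) (a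 (c (l 16754384) (l 16754704)) (l 16756864))))), by decide +kernel⟩

def k157_pm_011_t : ∃ t, chk3 f_pm_011_t t 74 123 1 = true :=
  ⟨(a (a (b (c (b (b (a (c (c (l 16769944) (l 16768672)) (l 16770064)) (c (l 16768440) (l 16767240))) (c (c (l 16766424) (l 16765176)) (l 16766592))) (a (b (l 16764536) (l 16763112)) (b (l 16764336) (l 16758976)))) (b (b (a (c (l 16771488) (l 16769000)) (l 16768760)) (a (l 16768896) (l 16764800))) (b (c (l 16762760) (l 16762992)) (l 16762832)))) (b (c (c (c (l 16758056) (l 16755552)) (l 16758368)) (c (l 16756048) (l 16756392))) (c (c (l 16752576) (l 16750280)) (l 16753488)))) (b (b (c (c (b (c (l 16766128) (l 16764880)) (l 16763744)) (b (l 16766296) (l 16762272))) (b (a (l 16768600) (l 16764504)) (c (l 16762472) (l 16762704)))) (c (c (a (l 16760048) (l 16759840)) (l 16760160)) (c (l 16761080) (l 16761376)))) (b (c (c (c (l 16752400) (l 16752528)) (l 16752752)) (c (l 16753088) (l 16753472))) (c (c (l 16746928) (l 16747288)) (l 16747936))))) (c (b (b (a (a (b (l 16763960) (l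 16762544)) (b (l 16763760) (l 16758416))) (c (c (l 16759344) (l 16757472)) (l 16760256))) (c (a (c (l 16757520) (l 16755008)) (l 16754560)) (a (l 16755200) (l 16752216)))) (b (a (c (l 16752064) (l 16749760)) (c (l 16746432) (l 16746776))) (c (c (l 16744944) (l 16742504)) (l 16748056)))) (b (b (a (b (c (l 16762184) (l 16762416)) (l 16762264)) (c (l 16760512) (l 16760808))) (a (c (l 16755496) (l 16755840)) (c (l 16752544) (l 16752928)))) (b (c (l 16751936) (l 16751736)) (c (l 16743288) (l 16743832)))))), by decide +kernel⟩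

def k158_pm_011_t : ∃ t, chk3 f_pm_011_t t 75 123 1 = true :=
  ⟨(c (b (a (a (b (c (c (l 16756984) (l 16754472)) (l 16754656)) (c (l 16751560) (l 16749240))) (b (c (l 16754040) (l 16751688)) (c (l 16745952) (l 16746280)))) (b (c (a (l 16748440) (l 16745464)) (l 16751184)) (c (c (l 16746656) (l 16741584)) (l 16747104)))) (a (c (b (c (l 16744488) (l 16742040)) (l 16740368)) (b (l 16747576) (l 16736888))) (c (b (l 16739952) (l 16735768)) (b (l 16736448) (l 16731024))))) (b (a (b (a (c (l 16754944) (l 16755280)) (c (l 16752008) (l 16752376))) (c (l 16750760) (l 16753824))) (b (c (l 16752856) (l 16753280)) (c (l 16742296) (l 16742800)))) (a (b (c (l 16742792) (l 16743320)) (l 16742312)) (b (c (l 16736960) (l 16737552)) (l 16737184))))), by decide +kernel⟩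

def k159_pm_011_t : ∃ t, chk3 f_pm_011_t t 76 120 1 = true :=
  ⟨(l 4), by decide +kernel⟩

def k160_pm_011_t : ∃ t, chk3 f_pm_011_t t 77 240 1 = true :=
  ⟨(a (l 4) (b (l 4) (b (l 4) (a (l 4) (a (b (l 4) (a (l 4) (a (l 4) (b (l 4) (l 211225149911))))) (a (b (l 4) (b (c (c (l 202098344487) (l 203172086311)) (l 145190029031)) (a (b (l 131231384615) (l 16777768)) (l 16777408)))) (b (a (l 4) (b (l 4) (b (l 4) (l 80765518823)))) (b (a (b (l 93650420791) (l 16777024)) (l 16776816)) (l 16776360))))))))), by decide +kernel⟩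

def k161_pm_011_t : ∃ t, chk3 f_pm_011_t t 308 241 1 = true :=
  ⟨(b (l 4) (b (b (l 4) (b (l 4) (b (l 4) (a (l 4) (a (l 4) (a (l 4) (a (l 104387838759) (l 16777136)))))))) (b (b (a (l 4) (a (c (c (c (l 193508409831) (l 194045280743)) (l 194582151639)) (l 134452610807)) (a (b (a (l 129083900695) (l 16777176)) (l 16776968)) (l 16776760)))) (b (a (l 4) (a (a (c (l 111904031623) (l 16777296)) (l 16777016)) (l 16776464))) (c (a (a (l 4) (l 201561473447)) (c (l 16776824) (l 16776504))) (a (l 217130730279) (l 16776520))))) (a (a (b (c (l 225183793863) (l 229478761143)) (a (b (l 4) (c (l 74859938599) (l 16777208))) (c (c (l 16777688) (l 16777032)) (l 16777040)))) (a (b (b (l 143579415639) (c (l 16777144) (l 16777144))) (l 16776688)) (c (c (l 16777112) (l 16776624)) (l 16776632)))) (c (c (c (l 16775680) (l 16775688)) (l 16775696)) (l 16775720)))))), by decide +kernel⟩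

def k162_pm_011_t : ∃ t, chk3 f_pm_011_t t 309 241 1 = true :=
  ⟨(b (a (l 4) (b (l 4) (a (l 4) (b (l 4) (b (c (l 213372633735) (l 216056988279)) (a (b (l 158611801143) (a (l 16777576) (l 16777112))) (c (l 16777640) (l 16776984)))))))) (b (a (a (b (l 4) (b (b (c (l 205319569863) (l 150021866903)) (a (l 150021866599) (l 16777696))) (a (c (l 16777664) (l 16777016)) (l 16776664)))) (b (b (l 4) (a (c (c (l 138747577511) (l 138747577511)) (l 136063223095)) (b (a (l 165054251751) (l 16777544)) (l 16777032)))) (c (c (c (l 16776408) (l 16776408)) (l 16776416)) (l 16776424)))) (b (a (b (a (b (l 4) (a (l 139821318919) (l 16777184))) (c (c (l 16777728) (l 16777072)) (l 16777072))) (c (l 16776640) (l 16776648))) (c (l 16776216) (l 16776232))) (c (a (l 16775664) (b (l 16773928) (l 16774592))) (l 16775328)))) (c (b (a (a (l 16775864) (b (l 16774128) (l 16774792))) (a (b (l 16774688) (l 16774040)) (l 16774928))) (a (a (b (l 16773576) (l 16774240)) (c (l 16773800) (l 16773824))) (c (l 16773984) (l 16772704)))) (c (a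 (l 16774872) (a (l 16771136) (l 16770400))) (l 16774168))))), by decide +kernel⟩

def k163_pm_011_t : ∃ t, chk3 f_pm_011_t t 155 482 1 = true :=
  ⟨(a (b (b (l 4) (a (l 4) (b (a (l 4) (a (c (l 149484995783) (l 150558737591)) (b (l 107072193655) (l 16777064)))) (a (a (l 224110051847) (b (l 144116286551) (l 16777640))) (c (l 16777256) (l 16776776)))))) (b (a (b (a (l 4) (a (l 4) (b (l 4) (a (l 119957095207) (l 16777168))))) (a (c (c (l 198340248087) (l 200487731719)) (l 140895061751)) (a (a (b (l 146263769879) (l 16777096)) (l 16777712)) (l 16776800)))) (b (c (c (a (l 16777512) (l 16774816)) (l 16777152)) (l 16776504)) (c (l 16775856) (l 16775880)))) (a (a (a (b (b (l 126936417287) (l 16777752)) (l 16776632)) (c (l 16776896) (l 16776584))) (c (l 16776008) (l 16776032))) (c (a (b (l 16774272) (l 16774936)) (a (l 16773384) (l 16774320))) (l 16774928))))) (b (a (b (b (a (l 4) (a (b (l 166664864759) (l 58216940599)) (c (l 16777664) (l 16777008)))) (a (a (b (l 4) (l 91502937143)) (b (l 79154906087) (l 16776968)))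 (c (l 16776568) (l 16776576)))) (c (a (a (l 16776536) (l 16776160)) (l 16775600)) (l 16775992))) (c (c (c (a (l 16775488) (b (l 16774072) (l 16774088))) (l 16775120)) (l 16775128)) (l 16775152))) (c (b (a (a (b (l 16774064) (l 16774728)) (a (l 16774496) (l 16774120))) (a (l 16774872) (l 16772816))) (c (a (l 16774688) (l 16771880)) (a (l 16773400) (l 16771912)))) (a (l 16774088) (a (l 16770696) (l 16769632)))))), by decide +kernel⟩

def k164_pm_011_t : ∃ t, chk3 f_pm_011_t t 155 483 1 = true :=
  ⟨(b (c (b (a (b (a (l 16775416) (c (l 16773904) (l 16773928))) (a (a (l 16773824) (l 16774392)) (l 16774576))) (a (a (l 16772472) (l 16771720)) (l 16771920))) (a (a (a (a (l 16774352) (l 16773976)) (l 16774728)) (a (l 16772672) (l 16771920))) (a (l 16772112) (l 16769312)))) (a (a (l 16774488) (b (l 16771032) (l 16769760))) (a (c (l 16768896) (l 16771584)) (c (l 16770048) (l 16770120))))) (c (a (a (b (a (l 16772864) (l 16772120)) (l 16772504)) (c (l 16771640) (l 16770376))) (c (c (l 16769392) (l 16770728)) (l 16770776)))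 (a (a (b (l 16769960) (l 16771304)) (c (l 16770440) (l 16770512))) (c (l 16770856) (l 16765704))))), by decide +kernel⟩

def k165_pm_011_t : ∃ t, chk3 f_pm_011_t t 76 484 1 = true :=
  ⟨(a (l 4) (a (b (l 4) (b (a (l 4) (a (a (l 4) (b (l 4) (c (l 208540795335) (l 158611801319)))) (c (a (b (l 4) (b (l 124252062647) (l 16777096))) (b (c (l 189213442391) (l 133378868359)) (l 16776888))) (b (l 200487731719) (a (l 16777840) (l 16776896)))))) (a (b (l 4) (a (l 4) (a (b (l 4) (a (l 132841997095) (l 16777512))) (b (a (l 109219676983) (l 16777152)) (l 16776936))))) (a (a (b (c (b (l 161296155527) (l 50700747575)) (l 88281711831)) (l 16776720)) (b (a (b (l 67343745831) (l 16776928)) (l 16776904)) (l 16776352))) (c (c (l 16776096) (l 16776104)) (l 16776128)))))) (a (b (b (l 4) (a (b (l 4) (b (l 4) (a (l 4) (a (l 127473287959) (l 16777504))))) (b (a (l 4) (c (b (l 158611800951) (l 16777488)) (l 81839260935))) (a (b (a (l 101703484231) (l 16777136)) (l 16776920)) (l 16776704))))) (a (b (a (b (b (c (l 92039807879) (l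 16777256)) (l 16777336)) (l 16776528)) (c (l 16776632) (l 16776488))) (c (c (b (l 16774360) (l 16775008)) (l 16774048)) (l 16774072))) (c (c (b (l 16775904) (c (l 16774584) (l 16774592))) (l 16775256)) (l 16775288)))) (b (b (b (a (l 4) (a (a (l 225720664487) (b (l 4) (l 16777632))) (b (c (l 87744840551) (l 16777240)) (l 16776992)))) (a (a (c (l 204782698935) (l 154853704919)) (b (c (l 118346482599) (l 16777312)) (l 16777576))) (c (c (l 16776688) (l 16776688)) (l 16776696)))) (c (b (c (a (l 16777272) (l 16774720)) (l 16776736)) (b (l 16775928) (l 16775600))) (c (l 16776096) (l 16776112)))) (b (a (c (c (b (l 16775472) (l 16774816)) (l 16773856)) (l 16773888)) (c (b (l 16773744) (l 16774072)) (l 16771832))) (a (c (c (l 16773832) (l 16773856)) (l 16773912)) (c (l 16774400) (l 16773176)))))))), by decide +kernel⟩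

def k166_pm_011_t : ∃ t, chk3 f_pm_011_t t 76 970 1 = true :=
  ⟨(a (a (l 4) (b (b (l 4) (a (l 4) (a (l 4) (c (a (l 210688278999) (b (l 129620771751) (l 16777432))) (a (l 160222414071) (l 69491229863)))))) (a (b (l 4) (b (l 4) (a (l 4) (a (l 4) (a (l 139821318919) (l 16777592)))))) (a (a (b (l 4) (b (a (l 116198998807) (l 16777488)) (l 16776944))) (b (b (c (l 171496702791) (l 175254799159)) (a (l 92576678695) (l 16777120))) (l 16776816))) (a (b (a (b (l 71101842231) (l 16776944)) (l 16777240)) (l 16776360)) (c (l 16776304) (l 16776320))))))) (c (a (a (b (a (b (b (a (l 4) (a (l 160759284375) (l 16777208))) (a (l 112977773463) (l 16777024))) (c (l 16777040) (l 16776720))) (c (l 16776456) (l 16776296))) (a (a (l 16775920) (b (l 16774568) (l 16775216))) (b (a (l 16775496) (l 16775120)) (l 16775960)))) (a (b (c (b (l 16775208) (l 16775208)) (l 16774240)) (c (l 16775528) (l 16774240))) (b (b (a (l 16775304) (l 16774928)) (l 16774456)) (l 16774128)))) (a (a (b (a (l 16775536) (l 16773848)) (l 16774032)) (b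 (l 16774592) (l 16771968))) (c (c (l 16772776) (l 16772800)) (c (l 16772824) (l 16774160))))) (b (a (a (b (a (a (l 132841997607) (l 16777800)) (l 16776640)) (l 16776688)) (l 16775208)) (a (a (l 16771480) (l 16773360)) (l 16769632))) (a (a (l 16775392) (c (l 16771280) (l 16773944))) (a (a (l 16772816) (l 16772072)) (l 16770968)))))), by decide +kernel⟩

def k167_pm_011_t : ∃ t, chk3 f_pm_011_t t 76 971 1 = true :=
  ⟨(b (a (a (b (l 4) (a (l 4) (a (l 4) (a (l 4) (c (l 212298891735) (l 161833026807)))))) (a (b (b (a (l 4) (a (a (l 161833026279) (l 72712454967)) (l 16777312))) (a (c (c (l 194582151559) (l 141431932087)) (l 139284448583)) (c (l 16777168) (l 16776848)))) (a (c (b (a (l 131768255399) (l 16777072)) (c (l 16777416) (l 16776928))) (a (l 70028100791) (l 16776912))) (c (l 16776352) (l 16776368)))) (c (c (a (l 16775920) (b (l 16774184) (l 16774832))) (l 16775552)) (l 16775584)))) (c (a (a (a (c (l 16775712) (l 16774432)) (a (l 16775160) (l 16773472))) (c (l 16773824) (l 16772552))) (a (c (l 16771008)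 (l 16771056)) (l 16770840))) (a (a (a (l 16773160) (l 16773736)) (a (l 16773000) (l 16772264))) (a (l 16771160) (l 16769688))))) (a (a (a (l 4) (a (b (l 4) (b (a (l 4) (a (l 116198998823) (l 16777488))) (a (a (l 141431931655) (l 55532585735)) (l 16776944)))) (b (b (a (c (l 172570444615) (l 174717928263)) (c (c (l 16777480) (l 16777152)) (l 16777152))) (a (a (l 94187291447) (l 16777120)) (l 16776848))) (c (l 16776544) (l 16776552))))) (c (c (a (a (l 16776112) (b (l 16774704) (l 16775016))) (a (c (l 16775896) (l 16774600)) (l 16773832))) (a (l 16775744) (a (l 16773304) (l 16773864)))) (a (l 16775768) (c (l 16772304) (l 16771688))))) (c (a (c (a (l 16774016) (l 16771192)) (a (l 16772744) (l 16771240))) (a (l 16771024) (l 16768224))) (a (a (c (l 16772784) (l 16772840)) (l 16771344)) (a (l 16769872) (l 16768400)))))), by decide +kernel⟩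

def k168_pm_011_t : ∃ t, chk3 f_pm_011_t t 304 243 1 = true :=
  ⟨(a (b (b (b (a (b (l 4) (a (c (l 212298891735) (l 161833026807)) (b (a (l 4) (l 116198998823)) (c (l 16777600) (l 16777112))))) (c (a (b (c (l 194582151527) (l 137673835671)) (c (l 16777232) (l 16776912))) (b (b (a (l 163443638935) (l 16777544)) (l 16777024)) (l 16776536))) (b (a (l 134452610359) (l 16777808)) (l 16776736)))) (b (a (c (a (a (b (l 16777544) (l 16776944)) (l 16776912)) (l 16776632)) (l 16777472)) (c (l 16776064) (l 16776088))) (c (a (l 16776160) (a (l 16775592) (l 16775216))) (l 16775816)))) (b (c (a (a (b (l 16775032) (l 16775016)) (b (l 16775304) (l 16774640))) (c (l 16775376) (l 16774424))) (l 16774840)) (c (c (c (l 16774088) (l 16774760)) (c (l 16774776) (l 16773488))) (a (l 16772600) (l 16773168))))) (c (b (a (b (l 16773816) (l 16771176)) (b (l 16771752) (l 16770424))) (c (l 16770080) (l 16768848))) (b (b (a (l 16772608) (l 16771872)) (l 16773568)) (c (l 16768944) (l 16769048))))) (b (b (c (b (c (c (a (l 16776296) (b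 (l 16774560) (l 16775200))) (l 16775920)) (c (l 16775928) (l 16775936))) (a (b (a (l 16775496) (l 16775120)) (l 16775304)) (c (l 16775520) (l 16774240)))) (c (c (l 16775288) (l 16775296)) (l 16775320))) (b (a (c (a (l 16775152) (l 16773464)) (l 16771112)) (c (l 16773552) (l 16772992))) (c (c (l 16773240) (l 16771976)) (a (l 16772432) (l 16771696))))) (c (b (c (c (l 16771224) (l 16769944)) (l 16771304)) (c (l 16767264) (l 16767352))) (b (b (l 16770768) (l 16769472)) (l 16770144))))), by decide +kernel⟩

def k169_pm_011_t : ∃ t, chk3 f_pm_011_t t 305 243 1 = true :=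
  ⟨(a (c (b (a (b (c (b (c (l 16776088) (l 16774784)) (l 16773448)) (b (l 16773496) (l 16773488))) (c (l 16772768) (l 16772816))) (b (b (a (l 16774880) (l 16775160)) (l 16774024)) (c (l 16772016) (l 16770760)))) (c (b (l 16769728) (l 16765760)) (b (l 16768496) (l 16765864)))) (b (b (a (b (l 16773536) (l 16773552)) (b (l 16771480) (l 16772808))) (c (b (l 16771848) (l 16770552)) (l 16768656))) (b (c (l 16768592) (l 16768704)) (l 16766056)))) (c (b (b (c (b (l 16773872) (l 16771560)) (b (l 16774240) (l 16771608))) (c (l 16770552) (l 16772256))) (b (c (l 16766912) (l 16767008)) (l 16765624))) (b (b (a (b (l 16773368) (l 16772072)) (b (l 16772632) (l 16771336))) (c (l 16769720) (l 16769816))) (b (l 16769800) (l 16764584))))), by decide +kernel⟩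

def k170_pm_011_t : ∃ t, chk3 f_pm_011_t t 153 243 1 = true :=
  ⟨(a (c (c (b (b (a (c (l 16772016) (l 16773352)) (l 16770520)) (c (l 16768608) (l 16769952))) (b (a (l 16765416) (l 16763920)) (l 16764632))) (b (b (a (l 16772080) (l 16769280)) (l 16768872)) (c (l 16766048) (l 16766112)))) (b (a (b (c (l 16773464) (l 16770920)) (l 16770912)) (b (c (l 16769360) (l 16769456)) (l 16766824))) (b (c (l 16764904) (l 16765056)) (l 16765016)))) (c (b (b (c (a (l 16767704) (l 16766208)) (l 16769664)) (a (l 16766424) (l 16766248))) (c (c (l 16762944) (l 16763008)) (l 16763112))) (b (c (b (l 16769768) (l 16764552)) (b (l 16769888) (l 16764712))) (b (l 16764672) (l 16759472))))), by decide +kernel⟩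

def k171_pm_011_t : ∃ t, chk3 f_pm_011_t t 77 242 1 = true :=
  ⟨(b (a (b (a (a (c (c (b (c (l 16775880) (l 16775888)) (a (a (l 16773824) (l 16774760)) (l 16774192))) (c (l 16775240) (l 16775248))) (c (l 16775264) (l 16775288))) (b (c (a (b (l 16774104) (l 16774432)) (a (l 16775512) (l 16773824))) (c (l 16771800) (l 16771832))) (c (c (l 16774376) (l 16773096)) (l 16771192)))) (a (b (c (a (l 16774568) (l 16772512)) (l 16770344)) (c (c (l 16771560) (l 16771608)) (l 16771688))) (c (c (c (l 16772016) (l 16770728)) (l 16773384)) (a (l 16768600) (l 16770488))))) (c (a (a (c (b (l 16774240) (l 16771944)) (b (c (l 16773280) (l 16773296)) (l 16771984))) (c (c (l 16772400) (l 16773728)) (l 16772456))) (a (c (l 16770912) (l 16769656)) (c (l 16768104) (l 16768168)))) (a (a (b (a (l 16773720) (l 16772984)) (l 16769448)) (b (l 16769256) (l 16770600))) (a (c (l 16769728) (l 16769816)) (l 16770928))))) (c (a (b (c (c (l 16769768) (l 16771112)) (l 16770256)) (c (l 16767176) (l 16768568))) (b (c (l 16768120) (l 16765576))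 (c (l 16762904) (l 16763000)))) (a (a (b (c (l 16769352) (l 16769440)) (l 16766840)) (b (l 16767928) (l 16765376))) (b (c (l 16765680) (l 16765800)) (l 16765816))))) (a (c (a (a (c (b (l 16771288) (l 16767344)) (b (l 16772656) (l 16767424))) (b (c (l 16771096) (l 16768544)) (l 16767200))) (c (b (c (l 16768840) (l 16766256)) (l 16766240)) (b (l 16768936) (l 16763720)))) (a (c (b (c (l 16771968) (l 16772008)) (l 16769408)) (b (a (l 16770184) (l 16768728)) (l 16766904))) (b (c (l 16766416) (l 16766544)) (l 16766544)))) (c (c (a (c (l 16763240) (l 16764600)) (c (l 16758976) (l 16759032))) (a (l 16764688) (l 16764376))) (c (a (l 16764824) (l 16759288)) (a (l 16764984) (l 16759472)))))), by decide +kernel⟩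

def k172_pm_011_t : ∃ t, chk3 f_pm_011_t t 77 243 1 = true :=
  ⟨(a (c (b (a (b (c (l 16766592) (l 16764072)) (c (l 16761336) (l 16761464))) (c (c (l 16762280) (l 16759712)) (l 16762440))) (a (c (c (l 16757352) (l 16757424)) (l 16757544)) (c (l 16757056) (l 16754608)))) (b (a (b (c (l 16764200) (l 16764352)) (l 16764328)) (c (l 16765224) (l 16760176))) (a (c (l 16757736) (l 16757968)) (l 16757568)))) (c (b (a (c (l 16759352) (l 16756880)) (c (l 16753800) (l 16753960))) (c (c (l 16752624) (l 16750088)) (l 16755480))) (b (a (c (l 16757064) (l 16757288)) (l 16759528)) (c (l 16755720) (l 16756008))))), by decide +kernel⟩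

def k173_pm_011_t : ∃ t, chk3 f_pm_011_t t 156 240 1 = true :=
  ⟨(a (b (l 4) (b (b (a (l 4) (a (l 4) (b (c (l 221425697447) (l 166127994631)) (a (b (l 4) (l 16777680)) (c (l 16777008) (l 16777016)))))) (b (a (l 4) (a (c (a (l 122104579319) (l 16777760)) (l 68954359447)) (l 16776584))) (a (a (l 4) (a (c (l 151632479447) (l 152706221255)) (b (l 109756548231) (l 16777072)))) (c (c (l 16776304) (l 16776312)) (l 16776320))))) (a (a (b (b (a (l 4) (b (l 148411253863) (l 16777488))) (c (c (l 16777528) (l 16776880)) (l 16776880))) (c (l 16775928) (l 16775952))) (c (c (b (l 16776784) (l 16773864)) (l 16775824)) (l 16775840))) (c (c (a (b (a (l 16774592) (l 16775528)) (l 16774424)) (b (l 16773656) (l 16773680))) (l 16774712)) (l 16774744))))) (b (b (l 4) (a (b (l 4) (b (c (c (a (l 4) (l 185992216999)) (l 201561473831)) (l 201024602903)) (a (c (c (l 202098344487) (l 146263770775)) (l 144116287287)) (c (c (l 16777792) (l 16776968)) (l 16776976))))) (b (b (a (l 4) (c (a (l 148948124887) (l 58216940647)) (l 89355454007)))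 (a (a (l 227868148231) (a (l 112977773735) (l 63585649719))) (c (l 16776776) (l 16776784)))) (c (c (a (l 16777176) (l 16774512)) (l 16776192)) (l 16776208))))) (a (b (b (a (b (a (b (l 134989480999) (l 16777120)) (l 16777568)) (l 16776472)) (b (l 16776368) (l 16775736))) (c (b (l 16775456) (a (l 16775184) (l 16774440))) (l 16775168))) (b (c (c (c (l 16775152) (l 16773848)) (l 16771248)) (l 16771288)) (c (a (l 16772944) (l 16772200)) (l 16772648)))) (b (c (b (c (a (l 16773976) (l 16774536)) (l 16773616)) (c (c (l 16774936) (l 16773640)) (l 16771032))) (l 16774328)) (b (c (c (l 16773664) (l 16772384)) (l 16769816)) (c (l 16772400) (l 16771184))))))), by decide +kernel⟩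

def k174_pm_011_t : ∃ t, chk3 f_pm_011_t t 157 240 1 = true :=
  ⟨(c (a (b (b (a (a (b (l 4) (b (l 4) (a (l 119420224743) (l 16777752)))) (b (l 224110052327) (a (b (l 90429195511) (l 16776752)) (l 16777344)))) (b (b (a (l 199413989911) (a (l 16777784) (l 16776800))) (a (a (l 67343746199) (l 16776904)) (l 16776344))) (l 16775760))) (c (a (a (l 16775712) (b (l 16774288) (l 16774320))) (b (a (l 16774856) (l 16774104)) (l 16773200))) (c (l 16774760) (l 16774608)))) (b (a (b (a (l 16773800) (l 16773056)) (l 16773464)) (c (l 16772592) (l 16771312))) (a (c (l 16771528) (l 16770264)) (l 16770064)))) (a (b (b (b (l 16775544) (a (l 16773328) (l 16773888))) (b (c (l 16772976) (l 16773000)) (l 16773024))) (b (l 16771120) (l 16767264))) (b (b (b (a (l 16773104) (l 16773672)) (l 16774080)) (c (l 16773464) (l 16770880))) (b (l 16770936) (l 16765776))))) (a (a (b (b (b (l 229478761799) (a (a (l 142505674695) (l 85060487031)) (l 16778160))) (l 16775368)) (b (c (l 16770216) (l 16770256)) (c (l 16770312) (l 16770376))))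 (b (a (b (b (a (l 105461581815) (l 16778104)) (l 16776152)) (l 16771648)) (b (l 16776688) (l 16770912))) (b (l 16768768) (l 16768880)))) (b (c (a (l 16773664) (b (l 16770824) (l 16770928))) (l 16772968)) (a (b (l 16769920) (l 16767416)) (b (l 16768448) (l 16765952)))))), by decide +kernel⟩

def k175_pm_011_t : ∃ t, chk3 f_pm_011_t t 78 241 1 = true :=
  ⟨(a (c (a (a (b (b (b (c (a (l 16774632) (l 16773888)) (l 16772968)) (a (l 16773352) (l 16772608))) (c (l 16772344) (l 16773696))) (b (c (l 16768448) (l 16768504)) (l 16768520))) (b (b (b (c (l 16772768) (l 16772792)) (l 16772808)) (c (l 16772168) (l 16769592))) (b (l 16769616) (l 16764424)))) (c (b (b (a (l 16771944) (l 16769144)) (l 16768632)) (c (l 16765408) (l 16766104))) (b (b (a (l 16770672) (l 16769192)) (l 16770000)) (l 16766168)))) (b (b (a (b (l 16773584) (a (l 16770432) (l 16771584))) (a (c (l 16770728) (l 16770784)) (l 16769296))) (a (a (a (l 16768896) (l 16770792)) (a (l 16770056) (l 16769328))) (c (l 16767456) (l 16767552)))) (a (b (c (l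 16770472) (l 16767944)) (l 16767984)) (b (l 16767600) (l 16762456))))) (a (c (b (c (b (c (l 16768216) (l 16769560)) (l 16766992)) (b (l 16769600) (l 16764440))) (c (l 16762496) (l 16765864))) (b (b (c (l 16769680) (l 16767152)) (a (l 16765320) (l 16763864))) (b (l 16762080) (l 16759560)))) (b (c (b (l 16765952) (c (l 16761416) (l 16761504))) (c (l 16765488) (l 16768240))) (b (c (l 16761544) (l 16759184)) (a (l 16759864) (l 16758744)))))), by decide +kernel⟩

def k176_pm_011_t : ∃ t, chk3 f_pm_011_t t 79 120 1 = true :=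
  ⟨(a (b (b (b (a (a (c (b (l 16773856) (l 16771272)) (l 16769368)) (c (c (l 16770400) (l 16770440)) (l 16770520))) (c (c (l 16769472) (l 16770832)) (c (l 16768280) (l 16768360)))) (a (c (a (l 16770680) (l 16770504)) (c (l 16768720) (l 16768792))) (c (c (l 16765616) (l 16765688)) (l 16765816)))) (b (c (a (c (l 16768680) (l 16766120)) (l 16765744)) (a (l 16768872) (l 16763328))) (c (a (l 16766176) (l 16760600)) (c (l 16767472) (l 16767608))))) (c (b (a (c (l 16762344) (l 16759816)) (c (l 16756768) (l 16756880))) (c (a (l 16754672) (l 16751736)) (l 16758568))) (b (a (l 16765256) (l 16757096)) (a (l 16760272) (l 16752128))))) (c (b (a (b (b (c (l 16765176) (l 16765248)) (l 16765312)) (c (l 16758864) (l 16758960))) (b (c (l 16763568) (l 16761040)) (l 16758592))) (c (b (l 16755312) (l 16752592)) (b (l 16757728) (l 16747496)))) (b (b (a (c (l 16769328) (l 16764200)) (l 16766456)) (a (l 16764400) (l 16756248))) (b (c (l 16752648) (l 16752848)) (l 16753032))))), by decide +kernel⟩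

def k177_pm_011_t : ∃ t, chk3 f_pm_011_t t 39 121 1 = true :=
  ⟨(a (a (c (b (a (b (c (c (l 16763848) (l 16761272)) (l 16763976)) (c (l 16758696) (l 16756208))) (b (c (l 16760936) (l 16758432)) (c (l 16753160) (l 16753304)))) (c (b (c (l 16754640) (l 16749480)) (l 16749496)) (b (l 16754856) (l 16744464)))) (b (b (a (c (l 16766728) (l 16766880)) (c (l 16758576) (l 16758752))) (a (l 16761728) (l 16753600))) (b (c (l 16749840) (l 16750104)) (l 16750128)))) (b (b (c (c (c (l 16756544) (l 16753984)) (l 16756704)) (c (l 16759488) (l 16759696))) (c (c (l 16752760) (l 16748984)) (c (l 16749192) (l 16749440)))) (c (c (b (l 16748936) (l 16738544)) (b (l 16743880) (l 16738760))) (b (l 16749504) (l 16739208))))) (c (b (a (b (c (a (l 16749624) (l 16746720)) (l 16753552)) (c (l 16748352) (l 16743280))) (c (a (l 16746552) (l 16738416)) (l 16745272))) (a (c (c (l 16740680) (l 16735520)) (l 16746160)) (c (b (l 16732392) (l 16727376)) (l 16740552)))) (b (a (b (c (l 16748496) (l 16748728)) (l 16748864)) (b (l 16742848)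 (l 16737912))) (a (b (l 16738616) (l 16733584)) (c (l 16730328) (l 16730656)))))), by decide +kernel⟩

def k178_pm_011_t : ∃ t, chk3 f_pm_011_t t 38 61 2 = true :=
  ⟨(b (b (a (c (a (b (b (a (c (l 16767944) (l 16765368)) (l 16764968)) (a (l 16763984) (l 16759680))) (a (c (l 16761248) (l 16758704)) (c (l 16755640) (l 16755728)))) (a (b (c (l 16760616) (l 16758072)) (l 16755336)) (b (l 16757688) (l 16749768)))) (a (b (a (b (l 16768080) (l 16762808)) (c (l 16763744) (l 16763824))) (a (l 16761456) (l 16755880))) (b (a (l 16760816) (l 16755248)) (a (l 16752928) (l 16749992))))) (a (b (c (a (l 16757360) (l 16749184)) (l 16753472)) (c (c (l 16750560) (l 16745424)) (l 16750864))) (c (b (l 16748744) (l 16744816)) (b (l 16745048) (l 16739840))))) (a (a (b (a (c (l 16755928) (l 16753528)) (c (l 16750336) (l 16750584))) (c (c (l 16749000) (l 16746512)) (l 16751968))) (c (b (c (l 16751104) (l 16745976)) (l 16744496)) (b (l 16751424) (l 16740888)))) (a (c (b (l 16745320) (l 16734752)) (b (l 16740368) (l 16735096)))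 (c (b (l 16734312) (l 16729016)) (l 16737240))))) (a (b (a (c (b (c (l 16740968) (l 16741120)) (l 16740856)) (b (l 16741384) (l 16736008))) (c (b (l 16740432) (l 16729784)) (b (l 16735560) (l 16730216)))) (a (c (b (l 16730152) (l 16724680)) (l 16733152)) (c (b (l 16724352) (l 16718896)) (l 16732632)))) (b (a (c (b (l 16729408) (l 16724024)) (l 16737624)) (b (l 16729128) (l 16718560))) (a (c (l 16720488) (l 16716440)) (c (l 16710264) (l 16710800)))))), by decide +kernel⟩

def k179_pm_011_t : ∃ t, chk3 f_pm_011_t t 38 61 3 = true :=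
  ⟨(b (b (a (c (a (b (a (b (l 16768208) (l 16762968)) (l 16763952)) (a (l 16761664) (l 16756112))) (b (a (l 16763640) (l 16755472)) (l 16755664))) (a (b (a (b (l 16765744) (l 16763160)) (l 16764160)) (a (l 16764528) (l 16756384))) (b (a (l 16758632) (l 16755736)) (l 16757288)))) (a (b (c (l 16756352) (l 16756656)) (c (l 16745928) (l 16746296))) (b (c (l 16745336) (l 16745680)) (l 16745616)))) (a (a (b (a (c (l 16753792) (l 16754112)) (l 16756280)) (c (l 16752312) (l 16747472))) (b (c (l 16746512) (l 16746896)) (c (l 16741272) (l 16741728)))) (a (b (l 16746184) (l 16735760)) (c (l 16732416) (l 16732912))))) (a (b (a (b (c (l 16741792) (l 16742272)) (l 16742008)) (c (l 16738616) (l 16739184))) (a (b (l 16741976) (l 16726192)) (c (l 16722776) (l 16723512)))) (b (a (c (l 16727648) (l 16728256)) (c (l 16721984) (l 16722616))) (a (l 16722704) (l 16722336))))), by decide +kernel⟩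

def k180_pm_011_t : ∃ t, chk3 f_pm_011_t t 39 61 1 = true :=
  ⟨(b (a (a (b (c (c (a (l 16743128) (l 16740272)) (l 16741960)) (c (l 16742296) (l 16742696))) (b (c (l 16734016) (l 16729576)) (c (l 16734016) (l 16724440)))) (b (b (c (l 16738744) (l 16734144)) (c (l 16733584) (l 16729064))) (c (c (l 16730896) (l 16720744)) (l 16721416)))) (b (c (c (a (l 16730480) (l 16719768)) (a (l 16725488) (l 16720000))) (a (l 16736512) (l 16720512))) (a (c (c (l 16714912) (l 16715232)) (l 16715896)) (c (l 16720136) (l 16710432))))) (a (b (a (c (c (l 16725896) (l 16715840)) (l 16727176)) (c (c (l 16709888) (l 16710312)) (l 16711152))) (c (c (a (l 16704704) (l 16699240)) (l 16712976)) (c (l 16713632) (l 16703944)))) (a (b (c (l 16715136) (l 16705672)) (c (l 16694104) (l 16695360))) (b (c (l 16699304) (l 16700264)) (c (c (l 16688512) (l 16688960)) (l 16689896)))))), by decide +kernel⟩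

def k181_pm_011_t : ∃ t, chk3 f_pm_011_t t 144 62 1 = true :=
  ⟨(b (a (b (c (b (b (b (c (a (c (l 16772840) (l 16771568)) (l 16770016)) (a (l 16772936) (l 16770112))) (a (c (l 16771456) (l 16770240)) (c (l 16768616) (l 16768728)))) (a (c (c (l 16769320) (l 16768064)) (l 16769472)) (c (l 16767824) (l 16766656)))) (b (c (c (l 16765736) (l 16767128)) (l 16765944)) (c (c (l 16761600) (l 16761696)) (l 16761856)))) (b (b (a (b (a (l 16773432) (l 16771392)) (l 16771392)) (c (l 16770856) (l 16770992))) (a (c (l 16769616) (l 16771088)) (c (l 16766816) (l 16767008)))) (b (a (l 16766984) (l 16764208)) (c (l 16762104) (l 16762376))))) (b (b (c (a (l 16762320) (l 16758192)) (l 16762152)) (c (c (l 16756000) (l 16756296)) (l 16756816))) (b (c (l 16755952) (l 16754096)) (c (l 16753136) (l 16751384))))) (b (b (c (b (a (c (c (l 16767768) (l 16767824)) (l 16769224)) (c (l 16767576) (l 16766408))) (c (c (l 16765496) (l 16764264)) (l 16765712))) (b (a (c (l 16770680) (l 16768224)) (c (l 16766576) (l 16766768))) (c (l 16767216)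 (l 16767448)))) (c (c (b (l 16762896) (l 16761224)) (b (l 16761632) (l 16758856))) (b (c (l 16761872) (l 16762144)) (l 16761920)))) (b (c (c (c (l 16756928) (l 16754448)) (l 16757304)) (c (l 16757664) (l 16760688))) (c (c (l 16751344) (l 16749112)) (l 16752432))))) (b (b (a (c (c (l 16751320) (l 16746512)) (l 16752544)) (c (c (l 16743048) (l 16743528)) (l 16744376))) (a (c (c (l 16740376) (l 16740904)) (l 16741848)) (c (l 16742872) (l 16738928)))) (b (c (c (l 16735776) (l 16733792)) (l 16740168)) (c (b (c (l 16728800) (l 16729512)) (a (c (l 16727456) (l 16728192)) (l 16730216))) (b (l 16730768) (c (l 16738128) (l 16739096))))))), by decide +kernel⟩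

def k182_pm_011_t : ∃ t, chk3 f_pm_011_t t 145 62 1 = true :=
  ⟨(b (c (b (b (b (a (c (c (l 16765256) (l 16764024)) (l 16765464)) (c (l 16762248) (l 16761152))) (c (a (l 16762496) (l 16758144)) (a (l 16761392) (l 16758392)))) (b (c (a (l 16761000) (l 16755336)) (a (l 16758624) (l 16755624))) (c (a (l 16755568) (l 16752536)) (l 16756976)))) (b (a (b (l 16755528) (l 16752728)) (c (l 16750936) (l 16748696))) (c (a (l 16745696) (l 16742672)) (l 16747904)))) (b (b (a (b (c (l 16766976) (l 16767200)) (c (l 16761632) (l 16761912))) (b (c (l 16761392) (l 16761664)) (l 16761456))) (a (c (l 16760168) (l 16760520)) (c (l 16754592) (l 16754992)))) (b (a (c (l 16752088) (l 16752544)) (l 16752000)) (c (l 16750384) (l 16750976))))) (b (c (b (c (c (l 16743640) (l 16738640)) (l 16739048)) (c (l 16738080) (l 16733456))) (b (c (l 16739664) (l 16740360)) (l 16739800))) (a (b (c (l 16728968) (l 16730560)) (b (c (l 16729928) (l 16726424)) (l 16728056))) (b (c (l 16731184) (l 16727608)) (c (b (l 16727088) (l 16719040)) (l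 16722384)))))), by decide +kernel⟩

def k183_pm_011_t : ∃ t, chk3 f_pm_011_t t 73 62 1 = true :=
  ⟨(b (c (b (a (b (a (c (c (l 16758080) (l 16756568)) (l 16759384)) (c (c (l 16756024) (l 16753536)) (l 16759008))) (c (a (l 16753528) (l 16750496)) (a (l 16751240) (l 16748248)))) (b (c (a (l 16753064) (l 16752656)) (a (l 16750776) (l 16747776))) (c (c (l 16745872) (l 16743440)) (l 16749008)))) (b (a (c (a (l 16745288) (l 16742264)) (l 16746832)) (a (l 16743408) (l 16741728))) (a (a (l 16743168) (l 16742136)) (c (l 16737360) (l 16732696))))) (b (a (b (a (c (l 16759696) (l 16760040)) (c (l 16754112) (l 16754512))) (a (c (l 16751640) (l 16752088)) (l 16754168))) (a (b (l 16753992) (l 16746000)) (b (l 16748440) (l 16743072)))) (a (b (c (l 16749960) (l 16750536)) (c (l 16739256) (l 16739936))) (b (c (l 16738824) (l 16739488)) (l 16733752))))) (b (a (c (b (c (l 16737736) (l 16733088)) (c (l 16726816) (l 16727504))) (b (l 16739408) (l 16728736))) (b (c (c (l 16726480) (l 16727144)) (l 16728336)) (c (c (l 16726000)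 (l 16721504)) (l 16733344)))) (b (c (a (b (l 16728096) (a (l 16726792) (l 16718720))) (b (a (l 16728904) (l 16715600)) (l 16714280))) (a (b (l 16724600) (l 16732456)) (b (l 16729376) (l 16716232)))) (c (c (l 16717944) (l 16713568)) (l 16720368))))), by decide +kernel⟩

def k184_pm_011_t : ∃ t, chk3 f_pm_011_t t 37 62 1 = true :=
  ⟨(c (b (a (b (a (b (c (a (l 16744392) (l 16741376)) (l 16748536)) (a (l 16741664) (l 16741296))) (a (b (l 16742520) (l 16733064)) (b (l 16740848) (l 16730088)))) (a (c (b (l 16736960) (l 16726112)) (b (l 16732288) (l 16726752))) (c (b (l 16725728) (l 16720136)) (l 16728832)))) (b (a (c (b (l 16736152) (l 16725360)) (b (l 16731432) (l 16725960))) (c (b (l 16725008) (l 16719480)) (l 16728088))) (a (c (b (l 16719792) (l 16714208)) (l 16728192)) (b (l 16719504) (c (l 16708280) (l 16709072)))))) (b (a (b (a (c (l 16720480) (l 16721208)) (c (l 16719696) (l 16715232))) (a (b (l 16721808) (a (l 16715288) (l 16712472))) (b (a (l 16712160) (l 16709360)) (l 16708064)))) (b (a (b (l 16710336)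 (a (l 16709064) (l 16706296))) (b (c (l 16714736) (l 16705088)) (l 16701976))) (c (l 16700424) (l 16701328)))) (a (c (a (l 16706712) (l 16700952)) (l 16712608)) (a (l 16703600) (l 16700624))))) (b (a (b (a (b (c (l 16743784) (l 16744336)) (c (l 16738368) (l 16739024))) (b (c (l 16737896) (l 16738536)) (l 16738096))) (a (b (l 16738552) (l 16727920)) (c (l 16729608) (l 16725256)))) (b (a (c (l 16734592) (l 16735360)) (c (l 16734040) (l 16724376))) (a (b (l 16721696) (l 16716328)) (c (l 16723176) (l 16724200))))) (b (a (a (b (l 16722520) (b (l 16718408) (l 16726296))) (b (l 16716656) (b (l 16712728) (l 16710104)))) (b (a (b (l 16712232) (l 16709672)) (l 16715952)) (l 16702984))) (a (c (l 16716312) (l 16707056)) (c (l 16694616) (l 16695960)))))), by decide +kernel⟩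

def k185_pm_011_t : ∃ t, chk3 f_pm_011_t t 18 63 1 = true :=
  ⟨(b (a (b (a (b (c (a (l 16722224) (l 16716384)) (a (l 16724056) (l 16718344))) (c (c (l 16718584) (l 16714232)) (l 16721048))) (c (c (a (l 16707384) (l 16701592)) (l 16713304)) (c (l 16717032) (l 16718288)))) (a (a (c (c (l 16707840) (l 16708792)) (l 16720976)) (c (c (l 16702040) (l 16703048)) (l 16704848))) (c (c (a (l 16696272) (l 16690536)) (l 16704968)) (a (l 16699224) (l 16693640))))) (a (b (c (c (a (l 16695840) (l 16690136)) (l 16704512)) (a (l 16698728) (l 16693144))) (c (c (l 16689864) (l 16683176)) (c (l 16684544) (l 16686112)))) (b (c (c (l 16692200) (l 16682832)) (l 16695360)) (c (c (l 16670840) (l 16672088)) (l 16684840))))) (a (b (a (b (c (c (l 16696448) (l 16697528)) (l 16699448)) (c (a (l 16704600) (l 16688448)) (l 16701728))) (c (b (l 16696048) (c (l 16679448) (l 16680648))) (b (l 16688288) (l 16682808)))) (c (a (c (l 16682416) (l 16683416)) (c (l 16671128) (l 16672192))) (a (b (l 16688152) (l 16682336)) (l 16674144)))) (a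 (b (c (b (c (l 16673632) (l 16674904)) (c (l 16668248) (l 16669512))) (b (l 16677208) (l 16671800))) (c (c (l 16659968) (l 16661088)) (l 16663152))) (b (c (b (c (l 16662536) (l 16663872)) (l 16657784)) (b (l 16666312) (l 16660840))) (c (c (l 16649032) (l 16650184)) (l 16652328)))))), by decide +kernel⟩

def k186_pm_011_t : ∃ t, chk3 f_pm_011_t t 38 31 1 = true :=
  ⟨(b (b (c (a (b (a (c (b (l 16719176) (l 16713656)) (l 16717048)) (c (l 16715904) (l 16711320))) (b (a (l 16708472) (c (l 16702320) (l 16703080))) (a (c (b (l 16703888) (l 16711744)) (l 16713824)) (b (c (l 16698328) (l 16699136)) (l 16696064))))) (b (a (c (l 16704984) (l 16705648)) (b (l 16702424) (l 16696912))) (b (a (c (b (l 16698048) (l 16695456)) (l 16697472)) (b (l 16703480) (l 16690360))) (l 16699664)))) (a (b (a (b (l 16720888) (l 16715568)) (l 16723032)) (b (a (l 16710240) (l 16704504)) (a (l 16715336) (l 16709976)))) (b (a (l 16706912) (l 16711728)) (b (a (l 16719896) (l 16693648)) (l 16691168))))) (a (c (a (b (l 16705584) (l 16684632))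 (b (l 16700064) (l 16679176))) (b (a (l 16697248) (l 16691760)) (l 16694816))) (c (b (c (l 16691488) (l 16681904)) (c (l 16670584) (l 16671608))) (b (l 16683616) (l 16673528))))) (b (a (c (b (c (l 16670776) (l 16671936)) (c (l 16660016) (l 16661296))) (b (l 16674064) (l 16663656))) (c (b (c (l 16660104) (l 16661256)) (l 16660616)) (b (l 16663408) (l 16653184)))) (b (c (a (b (l 16663008) (l 16647120)) (b (l 16642232) (l 16636808))) (a (l 16663560) (l 16642704))) (c (a (l 16638976) (l 16628728)) (a (l 16641744) (l 16631424)))))), by decide +kernel⟩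

def k187_pm_011_t : ∃ t, chk3 f_pm_011_t t 39 31 1 = true :=
  ⟨(b (b (b (a (c (b (a (l 16696896) (l 16691376)) (a (c (l 16701616) (l 16691816)) (b (l 16687520) (l 16684904)))) (b (l 16706056) (b (l 16712688) (l 16710344)))) (b (c (a (c (l 16685824) (l 16686392)) (l 16702112)) (a (l 16687536) (l 16682480))) (c (l 16678448) (l 16679968)))) (c (a (c (l 16680760) (l 16681512)) (l 16681304)) (a (l 16682976) (l 16672512)))) (c (a (b (c (l 16670432) (l 16671296)) (l 16671008)) (b (l 16681576) (l 16650336))) (a (c (l 16688240) (l 16689568)) (b (l 16662536) (l 16652520))))) (b (c (b (a (l 16671128) (l 16640024)) (a (c (l 16639104) (l 16640328)) (c (l 16629016) (l 16630128)))) (b (a (l 16652816) (l 16642480)) (a (l 16642648) (l 16632272)))) (c (a (b (l 16629456) (l 16618824)) (b (l 16619376) (l 16609048))) (a (b (l 16632360) (l 16621352)) (l 16616624))))), by decide +kernel⟩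

def k188_pm_011_t : ∃ t, chk3 f_pm_011_t t 20 28 1 = true :=
  ⟨(l 4), by decide +kernel⟩

def k189_pm_011_t : ∃ t, chk3 f_pm_011_t t 21 56 1 = true :=
  ⟨(l 4), by decide +kernel⟩

def k190_pm_011_t : ∃ t, chk3 f_pm_011_t t 42 57 1 = true :=
  ⟨(b (l 4) (a (l 4) (b (l 4) (a (a (l 4) (b (l 4) (b (l 4) (b (c (l 192434667687) (l 117809616087)) (a (l 112440905527) (l 16776432)))))) (b (a (c (l 259543531447) (l 277797139351)) (a (b (l 4) (b (l 109219680087) (l 16776688))) (b (b (l 4) (l 83449875975)) (l 16775840)))) (a (b (a (b (l 269207207415) (l 60901297479)) (c (l 16776400) (l 16776392))) (l 16774848)) (c (l 16773104) (l 16773104)))))))), by decide +kernel⟩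

def k191_pm_011_t : ∃ t, chk3 f_pm_011_t t 43 57 1 = true :=
  ⟨(b (a (b (l 4) (a (l 4) (b (l 4) (a (l 4) (c (b (l 4) (l 208540794135)) (l 249879851591)))))) (b (a (l 4) (b (l 4) (a (l 264375366231) (b (c (l 196192762887) (l 108145940903)) (c (l 16778784) (l 16776152)))))) (a (b (a (l 4) (a (l 236994950983) (b (l 277260269655) (l 16779312)))) (b (a (c (a (l 269744077927) (l 62511910839)) (l 90966070183)) (l 16775208)) (a (c (l 16775800) (l 16775792)) (l 16772960)))) (a (b (a (b (a (l 107609067399) (l 16777088)) (l 16775312)) (l 16774992)) (l 16771224)) (c (l 16770624) (l 16770592)))))) (a (a (b (b (l 4) (b (a (l 4) (a (l 214446374087) (c (l 13656657367) (l 16776848)))) (b (a (l 247195499479) (l 16775936)) (a (a (l 270280949015) (l 16776920)) (l 16774808))))) (c (a (a (b (b (l 16777952) (l 16769160)) (l 16765688)) (a (l 16772160) (l 16771432))) (c (l 16769632) (l 16769632))) (a (b (l 16774792) (l 16764968)) (l 16769632)))) (b (a (b (b (l 255785433351) (a (a (l 123178324231) (l 66806877879)) (l 16776304)))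 (c (l 16773640) (l 16773632))) (b (a (b (a (l 74859941639) (l 16776760)) (l 16774896)) (l 16774584)) (l 16770752))) (b (a (b (l 16764960) (l 16762664)) (c (l 16760952) (l 16766184))) (c (a (l 16764464) (l 16761608)) (l 16752544))))) (b (a (c (a (l 16771480) (b (l 16764336) (l 16765048))) (l 16768720)) (b (a (a (l 16762176) (l 16766000)) (l 16758616)) (a (l 16756936) (l 16759344)))) (c (b (a (a (l 16763336) (l 16760496)) (l 16756248)) (a (l 16762584) (l 16751688))) (a (a (l 16750544) (l 16758184)) (l 16743448)))))), by decide +kernel⟩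

def k192_pm_011_t : ∃ t, chk3 f_pm_011_t t 40 58 1 = true :=
  ⟨(l 4), by decide +kernel⟩

def k193_pm_011_t : ∃ t, chk3 f_pm_011_t t 41 116 1 = true :=
  ⟨(a (l 4) (b (l 4) (a (l 4) (b (l 4) (a (c (b (l 4) (a (l 4) (c (l 205856441991) (l 213909505207)))) (l 254174819703)) (a (b (l 4) (b (a (l 4) (l 80228649719)) (c (l 16776600) (l 16776608)))) (b (a (l 222499439111) (b (l 4) (l 16778416))) (c (l 16775744) (l 16775752))))))))), by decide +kernel⟩

def k194_pm_011_t : ∃ t, chk3 f_pm_011_t t 82 117 1 = true :=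
  ⟨(b (a (l 4) (b (l 4) (a (l 4) (a (l 4) (b (l 4) (b (l 4) (a (c (l 112977775175) (l 16777344)) (l 16778256)))))))) (b (b (a (l 4) (b (a (l 4) (a (a (l 203172086599) (a (l 85597358279) (l 16777032))) (l 16776144))) (a (c (a (l 4) (c (l 176328540823) (l 111904034023))) (l 200487732103)) (c (a (l 16776392) (l 16772296)) (l 16775672))))) (a (a (l 4) (c (a (l 4) (c (l 229478762487) (l 230552504279))) (l 239142438839))) (c (a (b (a (l 195655894007) (c (l 16777952) (l 16776640))) (a (a (l 65196263703) (l 16776568)) (l 16775456))) (l 16773832)) (a (a (b (l 136063225367) (l 16776880)) (l 16776056)) (l 16773864))))) (b (a (a (l 4) (a (b (l 4) (c (a (l 129083902535) (l 16778360)) (l 74323070151))) (b (a (a (l 133915740503) (l 77007423783)) (l 16778128)) (l 16775992)))) (c (a (l 16774688) (a (l 16769512) (l 16770648))) (l 16773576))) (a (a (b (a (l 4) (a (l 220888826839) (a (l 99556002167) (l 16778272)))) (a (c (c (l 184381604647) (l 184918475543)) (l 121030839767)) (c (l 16777800) (l 16776496)))) (c (c (l 16775616)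 (l 16774888)) (l 16774912))) (c (a (a (a (l 16770408) (l 16772280)) (l 16768552)) (c (l 16771560) (l 16768968))) (l 16770504)))))), by decide +kernel⟩

def k195_pm_011_t : ∃ t, chk3 f_pm_011_t t 83 117 1 = true :=
  ⟨(b (b (a (a (l 4) (b (l 4) (b (a (l 4) (a (l 125862677431) (l 16778352))) (a (a (l 230015632071) (a (l 100092873079) (l 16777128))) (l 16776256))))) (a (a (b (b (l 227331277527) (a (l 92039809847) (l 16776800))) (l 16775384)) (b (a (b (l 60901296695) (l 16776080)) (l 16775936)) (l 16773904))) (c (c (l 16772872) (l 16772888)) (l 16772920)))) (a (a (a (c (a (b (l 4) (b (l 81839262039) (l 16776240))) (b (l 210688279991) (l 16776096))) (b (l 240753050183) (l 16779048))) (b (b (c (l 184381604679) (l 122104581655)) (a (l 50163877751) (l 16776440))) (l 16775000))) (a (c (b (c (l 16775912) (l 16775912)) (l 16770880)) (l 16774728)) (c (l 16773232) (l 16773272)))) (c (a (a (b (l 16770336) (l 16770544)) (b (l 16768856) (l 16769064))) (b (c (l 16769248) (l 16769272)) (l 16769472))) (l 16770912)))) (a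 (a (c (b (a (l 16773480) (b (l 16769936) (l 16770128))) (b (c (l 16768424) (l 16768456)) (l 16768632))) (b (l 16772136) (c (l 16762048) (l 16767344)))) (b (b (c (a (l 16768456) (l 16769600)) (l 16765160)) (c (c (l 16767904) (l 16767936)) (l 16768008))) (c (c (l 16766896) (l 16764320)) (l 16759168)))) (c (b (a (b (l 16770016) (l 16764984)) (a (l 16763984) (l 16762520))) (a (l 16766624) (l 16758472))) (a (b (l 16761040) (l 16761512)) (b (l 16763368) (l 16758616)))))), by decide +kernel⟩

def k196_pm_011_t : ∃ t, chk3 f_pm_011_t t 80 118 1 = true :=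
  ⟨(b (l 4) (a (b (l 4) (b (l 4) (b (l 4) (a (l 4) (a (l 4) (a (c (l 199950861063) (l 147337513303)) (b (c (l 105998452423) (l 16777336)) (l 16777536)))))))) (b (a (l 4) (b (l 4) (b (a (l 4) (a (l 4) (b (l 155390576663) (a (l 16777896) (l 16776968))))) (a (c (c (a (l 4) (l 176865411543)) (l 190824055671)) (l 189750313815)) (a (a (b (l 111904032183) (l 16776848)) (l 16776776)) (l 16776232)))))) (b (a (a (l 4) (a (b (l 4) (b (l 154316834839) (a (l 16777896) (l 16776960)))) (b (c (l 201561473815) (l 148948126055)) (c (l 16777352) (l 16776704))))) (c (a (a (b (b (l 107609065175) (l 16776888)) (l 16775968)) (l 16775840)) (l 16774720)) (a (c (l 16777824) (l 16776192)) (l 16774752)))) (a (a (a (b (c (b (l 4) (l 83449874103)) (l 109219678727)) (l 16776952)) (b (a (b (l 110293419447) (l 16776840)) (l 16777424)) (l 16775720))) (c (l 16775208) (l 16775240))) (a (b (l 16774352) (a (l 16772168) (l 16770112))) (c (b (l 16772840) (l 16771584)) (l 16767040)))))))), by decide +kernel⟩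

def k197_pm_011_t : ∃ t, chk3 f_pm_011_t t 80 238 1 = true :=
  ⟨(b (a (a (b (b (l 4) (a (l 4) (a (l 4) (a (l 205319570103) (b (l 4) (l 16777152)))))) (a (c (a (b (l 4) (b (l 144653158135) (l 16777720))) (b (c (l 198877119207) (l 199413990119)) (l 16777312))) (b (l 206393312343) (a (l 77007423751) (l 16776664)))) (a (b (b (c (l 102240356007) (l 16777320)) (l 16777512)) (l 16775928)) (c (l 16776128) (l 16775824))))) (b (a (b (b (c (l 217667601367) (l 220888826807)) (a (l 227331277511) (a (l 16777920) (l 16776944)))) (c (a (b (l 58753812103) (l 16776632)) (l 16776192)) (l 16776544))) (c (c (b (l 16776968) (l 16773752)) (l 16775688)) (l 16775704))) (c (c (b (l 16774552) (a (l 16771416) (l 16772536))) (l 16773936)) (l 16773976)))) (c (a (a (b (c (b (l 16772200) (l 16773560)) (l 16771584)) (b (l 16772312) (l 16771048))) (b (b (l 16771360) (l 16772072)) (l 16772808))) (a (b (c (l 16771184) (l 16771216)) (l 16768696)) (b (l 16772328) (l 16767208)))) (b (c (l 16772000) (l 16772048)) (a (c (l 16768376) (l 16765808))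 (l 16762832))))) (c (b (a (c (a (a (l 16775144) (b (l 16772968) (l 16773008))) (a (c (l 16774760) (l 16772144)) (l 16770640))) (a (l 16774408) (a (l 16772168) (l 16770680)))) (a (c (l 16771024) (l 16768448)) (l 16768080))) (a (a (a (c (b (l 16773248) (l 16771976)) (l 16770016)) (c (l 16773736) (l 16771144))) (c (l 16770832) (l 16771536))) (a (l 16767880) (l 16762960)))) (a (c (a (l 16773184) (b (l 16768848) (l 16768976))) (c (l 16772392) (l 16771760))) (a (b (l 16764616) (l 16766072)) (c (l 16764328) (l 16764424)))))), by decide +kernel⟩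

def k198_pm_011_t : ∃ t, chk3 f_pm_011_t t 80 239 1 = true :=
  ⟨(b (c (a (a (a (b (l 16771408) (l 16767576)) (b (l 16771232) (l 16766088))) (b (c (l 16766352) (l 16766408)) (l 16766488))) (a (c (l 16764752) (l 16762208)) (c (l 16759176) (l 16759264)))) (a (a (b (a (l 16770200) (l 16768728)) (l 16763048)) (b (l 16766528) (l 16764048))) (a (c (l 16762304) (l 16762424)) (l 16759448)))) (a (c (c (a (l 16764992) (l 16762688)) (a (l 16768344) (l 16760160))) (a (c (l 16763200) (l 16763320)) (l 16765576))) (a (c (l 16759792) (l 16757424)) (c (l 16759488) (l 16754520))))), by decide +kernel⟩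

def k199_pm_011_t : ∃ t, chk3 f_pm_011_t t 81 236 1 = true :=
  ⟨(a (b (l 4) (a (l 4) (b (b (l 4) (b (l 4) (a (l 4) (a (l 4) (l 81302390775))))) (a (a (b (l 4) (b (l 148948125719) (l 16778088))) (b (c (l 200487731991) (l 148411255127)) (c (l 16776696) (l 16776704)))) (b (a (b (l 108682807143) (l 16776888)) (l 16776464)) (l 16775600)))))) (b (b (a (l 4) (b (c (a (l 4) (l 203708957815)) (l 218741344087)) (a (c (l 228941890983) (l 231626245495)) (a (b (l 137673836663) (l 16777072)) (l 16777968))))) (a (b (l 4) (a (l 4) (a (c (l 198340248311) (l 146263771463)) (b (l 100092872679) (l 16776864))))) (b (a (a (b (l 4) (l 77007423447)) (c (l 16778200) (l 16776888))) (l 16775816)) (c (l 16775720) (l 16775336))))) (a (b (a (b (a (l 228405019671) (b (l 146800642039) (l 16777744))) (a (b (l 63585650487) (l 16776648)) (l 16776208))) (a (b (l 16777664) (l 16775464)) (l 16775336))) (c (c (l 16773960) (l 16773976)) (l 16774008))) (c (b (b (l 16774080) (a (l 16770960) (l 16772096))) (a (a (l 16772096) (l 16771352)) (l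 16772864))) (l 16772280))))), by decide +kernel⟩

def k200_pm_011_t : ∃ t, chk3 f_pm_011_t t 81 237 1 = true :=
  ⟨(a (b (b (a (b (a (l 4) (a (a (l 209614537431) (b (l 4) (l 16777160))) (b (l 66270004407) (l 16776664)))) (a (b (c (l 189750313671) (l 129083902711)) (a (l 126399547431) (l 16776896))) (c (l 16776096) (l 16776104)))) (c (c (l 16774464) (l 16774480)) (l 16774504))) (c (b (a (a (a (l 16776704) (l 16775976)) (l 16772880)) (a (l 16770728) (l 16771856))) (a (l 16774432) (c (l 16773960) (l 16771376)))) (c (a (l 16774984) (l 16766784)) (l 16773536)))) (c (a (a (b (b (l 16771224) (l 16772592)) (c (l 16770704) (l 16770736))) (b (a (l 16769800) (l 16771352)) (l 16769232))) (c (b (l 16772096) (l 16766984)) (b (l 16766888) (l 16767032)))) (a (l 16772616) (b (l 16766968) (l 16767128))))) (a (c (b (b (a (a (l 16769976) (l 16771856)) (a (l 16771112) (l 16770368))) (c (l 16771608) (l 16769024))) (b (l 16769144) (l 16766672))) (b (b (l 16767624) (l 16763856)) (c (l 16760144) (l 16765472)))) (c (b (b (c (l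 16771112) (l 16768536)) (l 16768664)) (c (l 16764936) (l 16762376))) (a (b (l 16762880) (l 16763232)) (b (l 16761416) (l 16761776)))))), by decide +kernel⟩

def k201_pm_011_t : ∃ t, chk3 f_pm_011_t t 81 119 1 = true :=
  ⟨(a (c (b (b (a (b (c (l 16770080) (l 16767504)) (l 16767608)) (c (l 16765872) (l 16763312))) (a (c (l 16763840) (l 16761296)) (l 16760944))) (a (b (l 16758912) (l 16751336)) (b (l 16758624) (l 16748440)))) (a (b (b (b (l 16762360) (l 16765144)) (b (l 16762680) (l 16760224))) (b (l 16756536) (l 16751632))) (b (b (c (l 16763400) (l 16763504)) (l 16758544)) (l 16755128)))) (c (b (b (a (c (l 16760304) (l 16760384)) (l 16762664)) (c (l 16756528) (l 16754008))) (b (c (l 16748992) (l 16749096)) (l 16749376))) (b (b (a (l 16760536) (l 16757632)) (l 16759440)) (a (l 16753560) (l 16755944))))), by decide +kernel⟩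

def k202_pm_011_t : ∃ t, chk3 f_pm_011_t t 82 59 1 = true :=
  ⟨(b (b (b (b (a (a (a (b (a (a (l 69491230263) (l 16776936)) (l 16776408)) (l 16775552)) (c (l 16774664) (l 16774696))) (c (c (a (l 16770544) (l 16771672)) (l 16768512)) (l 16769864))) (a (c (c (l 16772072) (l 16769480)) (l 16764304)) (c (l 16769136) (l 16766624)))) (c (a (a (a (a (l 16771440) (l 16770696)) (c (l 16772192) (l 16772216))) (c (a (l 16770704) (l 16769216)) (l 16769992))) (a (l 16769640) (l 16764088))) (a (l 16772176) (a (l 16767128) (l 16764208))))) (c (a (a (a (b (a (l 16771592) (l 16770848)) (l 16768760)) (b (l 16769736) (l 16767280))) (b (l 16770144) (l 16767688))) (a (c (l 16765952) (l 16763384)) (l 16763064))) (a (a (b (l 16765312) (l 16768120)) (c (l 16761136) (l 16766448))) (a (l 16758248) (l 16760592))))) (c (a (b (c (a (l 16766920) (l 16761368)) (a (l 16769600) (l 16761432))) (a (l 16762040) (l 16761752))) (c (b (l 16759624) (l 16757384)) (b (l 16762312) (l 16752224)))) (a (a (b (a (l 16765200) (l 16763736)) (l 16759600))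 (b (l 16761552) (l 16756704))) (b (a (l 16758656) (l 16755776)) (l 16757632))))) (c (b (b (a (c (l 16758272) (l 16753120)) (l 16752584)) (a (c (l 16748144) (l 16748240)) (l 16747744))) (a (b (l 16748560) (l 16748944)) (c (l 16740456) (l 16735312)))) (b (a (b (l 16758544) (l 16748456)) (b (l 16747576) (l 16742760))) (a (l 16746432) (l 16746032))))), by decide +kernel⟩

def k203_pm_011_t : ∃ t, chk3 f_pm_011_t t 83 59 1 = true :=
  ⟨(a (c (b (b (b (a (c (l 16762352) (l 16762408)) (l 16764720)) (c (l 16761320) (l 16756136))) (b (c (l 16751256) (l 16751328)) (l 16751728))) (b (c (l 16744496) (l 16739336)) (l 16734968))) (b (b (a (b (l 16762512) (l 16757704)) (b (l 16759616) (l 16754832))) (c (l 16754264) (l 16759632))) (b (l 16750000) (l 16729968)))) (b (b (b (c (c (l 16760360) (l 16755176)) (l 16760544)) (c (l 16755616) (l 16750544))) (c (c (l 16748440) (l 16743264)) (l 16753896))) (c (b (c (l 16733696) (l 16733760)) (l 16734736)) (b (l 16733920) (l 16724440))))), by decide +kernel⟩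

def k204_pm_011_t : ∃ t, chk3 f_pm_011_t t 84 58 1 = true :=
  ⟨(a (b (b (l 4) (b (a (b (l 4) (a (l 246658630183) (b (l 208003924215) (a (l 68417489479) (l 16776608))))) (a (c (b (c (l 195655894215) (l 206930182711)) (l 16777392)) (b (l 218741341799) (l 16776088))) (b (b (c (l 85597358711) (l 16777152)) (l 16776400)) (l 16774640)))) (a (a (b (a (b (l 100629744439) (l 16776440)) (l 16777592)) (l 16774280)) (c (l 16773992) (l 16774016))) (c (l 16773096) (c (l 16766568) (l 16766592)))))) (a (b (b (c (c (b (l 16768504) (l 16768712)) (c (l 16764688) (l 16764704))) (a (l 16765472) (l 16764016))) (c (c (l 16770344) (l 16765144)) (l 16759976))) (c (b (l 16765576) (l 16755568)) (b (l 16760464) (l 16755720)))) (b (b (c (b (l 16764920) (l 16765792)) (l 16761832)) (c (l 16767440) (l 16762312))) (b (a (l 16763456) (l 16762008)) (l 16756680))))) (b (b (b (a (l 4) (c (b (l 4) (a (l 4) (l 185455346039))) (l 241826789639))) (a (a (b (l 4) (a (l 208003924055) (b (l 160759286615) (l 16776912)))) (b (l 236458082279) (a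 (b (l 16778520) (l 16776216)) (l 16776064)))) (b (a (b (a (l 4) (l 91502938759)) (l 16778008)) (l 16777160)) (l 16774896)))) (b (c (b (c (l 16773984) (l 16773336)) (l 16772272)) (l 16772832)) (a (a (b (l 16768176) (l 16763176)) (b (l 16766712) (l 16766960))) (c (a (l 16762736) (l 16765208)) (l 16760760))))) (b (c (b (a (c (l 16764056) (l 16764096)) (l 16766416)) (c (l 16763056) (l 16757872))) (b (a (l 16764168) (l 16761272)) (a (l 16759424) (l 16756544)))) (c (b (l 16758328) (l 16753600)) (b (l 16753256) (l 16748544)))))), by decide +kernel⟩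

def k205_pm_011_t : ∃ t, chk3 f_pm_011_t t 84 59 1 = true :=
  ⟨(c (b (b (c (a (l 16752224) (l 16751760)) (a (l 16757536) (l 16741344))) (a (c (l 16737560) (l 16737624)) (l 16742448))) (a (b (l 16738672) (l 16718800)) (b (l 16722656) (l 16713368)))) (b (b (a (b (l 16749560) (l 16744840)) (l 16751984)) (b (l 16747784) (l 16743080))) (b (l 16736056) (l 16726672)))), by decide +kernel⟩

def k206_pm_011_t : ∃ t, chk3 f_pm_011_t t 85 29 1 = true :=
  ⟨(b (b (b (a (b (b (a (a (l 267059723911) (b (l 223573180183) (l 13656656935))) (c (l 16776720) (l 16775416))) (a (a (a (b (l 111367162519) (l 16776520)) (l 16776360)) (l 16775280)) (l 16773096))) (c (c (l 16772336) (l 16771032)) (l 16771056))) (c (c (a (b (a (l 16766832) (l 16765384)) (l 16761432)) (b (l 16764528) (l 16763792))) (l 16768888)) (c (l 16767584) (l 16767600)))) (b (a (a (c (b (l 16763712) (l 16766592)) (l 16762568)) (c (a (l 16765592) (l 16764152)) (l 16764920))) (c (c (l 16765776) (l 16760560)) (l 16755360))) (a (a (b (a (l 16764976) (l 16763528))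 (l 16767128)) (b (l 16761360) (l 16759000))) (c (l 16761080) (l 16755928))))) (c (b (a (b (l 16760112) (l 16757328)) (c (l 16753960) (l 16759256))) (a (c (l 16750208) (l 16745040)) (l 16744576))) (b (a (b (l 16746472) (l 16752240)) (b (l 16751240) (l 16746544))) (a (b (l 16747536) (l 16742856)) (l 16739536))))) (b (b (a (c (l 16746120) (l 16735840)) (c (l 16730024) (l 16730232))) (c (c (l 16734056) (l 16723624)) (l 16734248))) (c (b (c (l 16714392) (l 16714416)) (l 16715728)) (b (l 16714504) (l 16705272))))), by decide +kernel⟩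

def k207_pm_011_t : ∃ t, chk3 f_pm_011_t t 43 29 1 = true :=
  ⟨(b (b (c (b (a (a (a (b (c (l 16765576) (l 16765576)) (l 16760920)) (b (l 16762704) (l 16758064))) (b (a (l 16759848) (l 16757000)) (l 16753792))) (a (b (l 16752744) (l 16748136)) (l 16755304))) (a (a (b (l 16760064) (l 16750136)) (l 16752056)) (a (l 16751680) (l 16735608)))) (a (a (b (b (l 16758912) (l 16759520)) (b (l 16754880) (l 16750224))) (b (c (l 16748256) (l 16745648)) (l 16746880))) (b (a (l 16739968) (l 16744816)) (a (l 16741256) (l 16735664))))) (c (a (b (a (l 16748320) (l 16747944)) (c (l 16741376) (l 16741448))) (b (c (l 16739576) (l 16729136)) (l 16730352))) (a (a (b (l 16743224) (l 16733912)) (b (l 16737600) (l 16728336))) (b (l 16739728) (l 16720048))))) (c (b (a (b (c (l 16721672) (l 16721736)) (l 16723056)) (c (l 16716688) (l 16727216))) (a (a (l 16712176) (l 16696320)) (b (l 16692800) (l 16683928)))) (b (a (b (l 16721896) (l 16712720)) (l 16716856)) (a (l 16709504) (l 16688304))))), by decide +kernel⟩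

def k208_pm_011_t : ∃ t, chk3 f_pm_011_t t 22 56 1 = true :=
  ⟨(a (b (a (l 4) (l 4)) (a (b (l 4) (a (c (l 276723396311) (l 272965292295)) (a (b (l 4) (b (l 218741340055) (a (l 16779672) (l 16775808)))) (b (c (l 209077663591) (l 221962564087)) (c (l 16774768) (l 16774744)))))) (b (a (a (l 272428429735) (b (l 4) (a (l 195655890871) (b (l 118346486919) (l 16776048))))) (b (a (c (l 221425693943) (l 233773723479)) (a (b (l 124788937959) (l 16776144)) (l 16778408))) (c (a (l 16775008) (l 16772216)) (l 16773568)))) (a (b (b (a (a (l 110293423223) (l 16776664)) (l 16774584)) (l 16773808)) (l 16771832)) (c (l 16767104) (l 16767016)))))) (b (a (b (a (l 4) (a (l 4) (b (l 4) (b (l 253101076871) (l 47479527463))))) (b (a (a (l 4) (l 225720659975)) (a (a (b (l 132305130999) (l 16776288)) (l 16775928)) (l 16773856))) (a (a (a (l 206930179527) (b (l 129083905383) (l 16776224))) (a (l 16775864) (l 16774496))) (l 16770968)))) (b (a (b (a (l 228941885031) (b (l 81839266679) (l 16775680))) (c (l 16777432) (l 16773856)))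 (c (l 16770472) (l 16770368))) (a (c (l 16767560) (l 16767440)) (l 16767152)))) (a (a (b (c (l 16771472) (l 16770088)) (l 16766672)) (c (a (l 16765576) (l 16764104)) (l 16765328))) (c (a (l 16759936) (b (l 16742976) (l 16744864))) (c (l 16751752) (l 16751640)))))), by decide +kernel⟩

def k209_pm_011_t : ∃ t, chk3 f_pm_011_t t 22 57 1 = true :=
  ⟨(b (a (a (b (b (b (a (a (l 4) (a (l 94724166391) (l 16776416))) (l 16772896)) (a (a (a (l 241826789767) (l 16778960)) (l 16774952)) (l 16770680))) (a (c (a (l 16774464) (l 16771632)) (l 16773016)) (l 16767352))) (c (a (l 16768992) (b (c (l 16757720) (l 16762928)) (l 16758488))) (c (l 16763488) (l 16763456)))) (b (c (c (l 16765104) (l 16761120)) (l 16766280)) (a (c (b (l 16757328) (l 16752888)) (l 16744504)) (b (l 16751664) (l 16747232))))) (a (b (a (b (l 16749632) (l 16750488)) (a (l 16748504) (l 16745728))) (c (a (l 16743976) (l 16738448)) (l 16727912))) (c (b (a (l 16741696) (l 16736200)) (l 16740704)) (a (l 16721360) (l 16710608))))) (a (a (a (b (c (b (l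 16754400) (l 16755136)) (l 16746840)) (c (l 16753592) (l 16748296))) (b (c (c (l 16762280) (l 16751752)) (l 16751680)) (c (l 16742760) (l 16742696)))) (b (a (a (l 16758008) (l 16744736)) (a (l 16741952) (l 16739184))) (c (l 16744936) (l 16723864)))) (b (a (c (l 16742856) (l 16732200)) (a (l 16724056) (l 16718600))) (a (c (l 16723472) (l 16723344)) (l 16723000))))), by decide +kernel⟩

def k210_pm_011_t : ∃ t, chk3 f_pm_011_t t 23 28 1 = true :=
  ⟨(b (a (b (a (b (c (l 16767400) (l 16761936)) (l 16758808)) (c (l 16757448) (l 16746528))) (c (b (a (a (l 16747952) (l 16742464)) (l 16734288)) (a (l 16757608) (l 16725760))) (c (l 16745632) (l 16745440)))) (c (b (l 16741152) (a (b (l 16723464) (l 16714976)) (l 16708496))) (a (c (l 16737640) (l 16737328)) (b (l 16724480) (l 16707656))))) (b (b (a (a (a (l 16730568) (l 16725104)) (l 16716944)) (a (l 16706128) (l 16695384))) (a (a (l 16740144) (l 16708336)) (a (l 16697576) (l 16686880)))) (a (a (a (l 16729760) (l 16724368)) (c (l 16695488) (l 16695248))) (a (l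 16705648) (l 16674064))))), by decide +kernel⟩

def k211_pm_011_t : ∃ t, chk3 f_pm_011_t t 11 29 1 = true :=
  ⟨(b (b (a (b (a (a (a (a (l 16740616) (l 16737832)) (l 16744160)) (c (l 16735920) (l 16725384))) (a (c (l 16714520) (l 16714464)) (l 16724640))) (a (a (c (l 16737800) (l 16727352)) (c (l 16716360) (l 16716384))) (a (l 16716008) (l 16715760)))) (a (a (l 16704272) (l 16698912)) (c (l 16683224) (l 16662112)))) (a (a (a (c (b (l 16728600) (l 16708968)) (b (l 16718224) (l 16709128))) (c (b (l 16707248) (l 16698200)) (l 16723816))) (a (c (l 16712976) (l 16692144)) (c (l 16681392) (l 16681560)))) (a (c (l 16686592) (l 16686816)) (c (l 16644888) (l 16645024))))) (a (a (b (c (a (b (l 16699952) (l 16691048)) (l 16705824)) (b (l 16715712) (l 16706792))) (a (c (l 16698808) (l 16677744)) (c (l 16667448) (l 16667328)))) (c (a (b (l 16674336) (l 16657152)) (b (l 16663904) (l 16646928))) (b (l 16690240) (l 16672920)))) (a (b (c (l 16648392) (l 16648648)) (c (l 16631712) (l 16631744))) (b (l 16649008) (c (l 16611448)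 (l 16611416)))))), by decide +kernel⟩

def k212_pm_011_t : ∃ t, chk3 f_pm_011_t t 20 30 2 = true :=
  ⟨(b (a (a (a (b (b (b (c (c (l 16759128) (l 16761792)) (l 16761872)) (c (l 16754144) (l 16751640))) (b (a (l 16748048) (l 16745144)) (l 16746864))) (b (c (l 16739344) (l 16734280)) (c (l 16734712) (l 16724416)))) (b (b (b (c (l 16755920) (l 16750800)) (c (l 16745712) (l 16745848))) (b (l 16746064) (l 16741128))) (b (c (l 16738896) (l 16728584)) (l 16723912)))) (a (b (b (c (c (l 16747640) (l 16742456)) (l 16747800)) (c (l 16737824) (l 16732736))) (b (c (l 16722784) (l 16722952)) (l 16723584))) (b (b (c (l 16741976) (l 16736864)) (c (l 16726968) (l 16727112))) (b (l 16727784) (l 16707600))))) (b (a (a (b (c (l 16731120) (l 16731240)) (l 16731968)) (b (l 16730872) (l 16716024))) (b (a (l 16730664) (l 16714800)) (c (l 16718472) (l 16708024)))) (a (b (c (l 16719560) (l 16709176)) (c (l 16699472) (l 16699568))) (b (c (l 16698528) (l 16698536)) (l 16699536))))) (b (a (a (a (b (c (l 16714320) (l 16714536)) (l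 16704344)) (b (l 16719384) (l 16699048))) (b (c (l 16711048) (l 16700720)) (c (l 16690872) (l 16691032)))) (a (b (l 16700400) (l 16701280)) (b (l 16679584) (l 16690904)))) (a (a (a (b (l 16694064) (b (l 16686272) (l 16681000))) (b (l 16688928) (b (l 16681096) (l 16676216)))) (b (a (l 16683800) (l 16678432)) (b (a (l 16676192) (l 16671424)) (l 16668824)))) (b (a (a (l 16694048) (l 16689088)) (b (l 16684048) (l 16658424))) (a (l 16661328) (l 16651552)))))), by decide +kernel⟩

def k213_pm_011_t : ∃ t, chk3 f_pm_011_t t 21 30 2 = true :=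
  ⟨(b (a (b (a (b (c (l 16706776) (l 16706760)) (l 16707936)) (c (l 16702072) (l 16691480))) (a (a (l 16696512) (l 16701864)) (b (l 16677824) (l 16668656)))) (b (a (b (l 16685544) (l 16676576)) (l 16691656)) (a (l 16684056) (l 16673800)))) (b (a (b (a (l 16669480) (l 16659304)) (a (c (l 16681144) (l 16659936)) (l 16671656))) (b (a (l 16670480) (l 16640160)) (l 16636112))) (a (a (l 16646576) (l 16637136)) (l 16644088)))), by decide +kernel⟩

def k214_pm_011_t : ∃ t, chk3 f_pm_011_t t 10 31 2 = true :=
  ⟨(a (b (a (b (a (b (l 16670984) (l 16660896)) (c (l 16666728) (l 16656552))) (a (c (l 16655816) (l 16646008)) (c (l 16636032) (l 16636520)))) (b (a (b (l 16651896) (l 16642232)) (l 16658640)) (a (c (l 16627208) (l 16627456)) (b (l 16623528) (l 16613808))))) (a (b (b (a (l 16630296) (l 16621016)) (a (b (l 16622576) (l 16617456)) (l 16631736))) (a (l 16604696) (l 16595664))) (b (b (a (l 16612208) (l 16603880)) (a (l 16602136) (l 16594016))) (a (l 16587152) (l 16579160))))) (b (a (b (a (l 16628376) (l 16619184))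 (a (l 16609808) (l 16600880))) (b (l 16626520) (l 16587640))) (b (a (b (a (l 16595576) (l 16586904)) (a (l 16586088) (l 16577768))) (b (l 16573848) (l 16565024))) (a (a (l 16571448) (l 16563640)) (l 16551424))))), by decide +kernel⟩

def k215_pm_011_t : ∃ t, chk3 f_pm_011_t t 10 15 3 = true :=
  ⟨(b (a (b (a (a (a (b (b (b (c (l 16762008) (l 16762168)) (l 16757144)) (a (l 16751176) (l 16753544))) (b (l 16739896) (l 16735328))) (b (b (b (l 16756288) (l 16746128)) (b (l 16741216) (l 16736312))) (b (l 16728968) (l 16719200)))) (b (b (a (c (l 16753224) (l 16742960)) (l 16747640)) (a (l 16743560) (l 16727440))) (b (c (l 16730872) (l 16720688)) (l 16721304)))) (b (a (b (c (l 16739104) (l 16739320)) (a (l 16721856) (l 16716336))) (b (l 16728168) (l 16708176))) (a (b (l 16719960) (l 16699856)) (c (l 16714816) (l 16714952))))) (b (a (a (b (c (l 16722520) (l 16722904)) (a (l 16705040) (l 16699656))) (b (l 16701136) (l 16691456))) (a (b (l 16690256) (l 16680640)) (b (l 16679656) (l 16669976)))) (a (a (b (l 16713256)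 (a (l 16705488) (l 16700480))) (b (l 16702528) (b (l 16695392) (l 16669520)))) (b (a (b (l 16673272) (l 16668720)) (l 16681960)) (l 16677544))))) (b (a (b (a (c (l 16712576) (l 16723120)) (l 16701888)) (a (l 16704312) (l 16672880))) (b (a (l 16680800) (l 16670328)) (a (l 16662536) (l 16652112)))) (b (a (b (a (l 16669248) (l 16658792)) (a (l 16659736) (l 16650048))) (b (a (l 16648736) (l 16639152)) (l 16635024))) (a (l 16662176) (l 16621776))))) (a (b (a (b (a (b (l 16672184) (l 16662320)) (l 16678288)) (b (l 16668416) (l 16658488))) (b (a (l 16668488) (l 16637688)) (a (l 16628168) (l 16618880)))) (a (b (b (l 16648512) (a (l 16622288) (l 16612680))) (a (l 16606696) (l 16597136))) (b (b (l 16608864) (l 16619960)) (l 16604512)))) (b (a (b (l 16644000) (l 16625624)) (b (l 16603944) (l 16585912))) (a (b (b (l 16590680) (l 16581352)) (l 16566352)) (b (l 16588696) (l 16548880)))))), by decide +kernel⟩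

def k216_pm_011_t : ∃ t, chk3 f_pm_011_t t 11 15 1 = true :=
  ⟨(b (b (a (c (a (b (a (l 16660440) (l 16650304)) (b (l 16663280) (a (l 16638736) (l 16629336)))) (b (a (l 16640264) (l 16630088)) (b (l 16649152) (l 16614656)))) (a (b (l 16675856) (a (l 16662888) (l 16621808))) (b (l 16655464) (b (l 16622080) (l 16613544))))) (a (b (a (l 16640816) (l 16631208)) (l 16619880)) (b (b (l 16620616) (l 16591536)) (l 16579632)))) (a (a (b (c (l 16642376) (l 16620000)) (c (l 16604608) (l 16602752))) (c (b (l 16602472) (l 16586144)) (b (l 16600960) (l 16584096)))) (a (c (l 16596544) (l 16573824)) (c (l 16556920) (l 16555112))))) (a (b (a (c (b (l 16587536) (l 16570152)) (b (l 16585304) (l 16567640))) (c (b (l 16569560) (l 16552688)) (l 16579336))) (a (b (c (l 16573768) (l 16549944)) (c (l 16535040) (l 16531408))) (c (b (l 16535944) (l 16518632)) (b (l 16532536) (l 16514400))))) (b (a (c (l 16564184) (l 16540400)) (c (l 16546280) (l 16522288))) (b (a (l 16538040) (l 16499664)) (c (l 16514792) (l 16489192)))))), by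 decide +kernel⟩

def k217_pm_011_t : ∃ t, chk3 f_pm_011_t t 6 12 1 = true :=
  ⟨(a (a (l 4) (b (l 4) (b (l 4) (a (l 4) (b (l 4) (a (b (l 4) (l 225720643383)) (b (l 197803364487) (a (l 94187254615) (l 16772248))))))))) (b (l 1) (a (b (l 1) (a (b (l 1) (a (l 96133423447) (l 1))) (l 1))) (l 1)))), by decide +kernel⟩

def k218_pm_011_t : ∃ t, chk3 f_pm_011_t t 12 13 1 = true :=
  ⟨(b (a (b (l 4) (a (b (l 4) (a (l 4) (b (l 4) (b (l 219815073031) (a (l 227868139511) (l 16775120)))))) (b (a (b (l 4) (a (l 4) (l 217667589751))) (b (a (l 4) (a (l 193508403335) (l 49627016215))) (a (b (l 75933691239) (l 16774256)) (l 16770792)))) (a (b (a (b (l 231089363287) (l 63048788375)) (l 95797879047)) (l 16768952)) (l 16766608))))) (b (a (b (a (l 4) (a (l 4) (a (l 213909487127) (l 187602813719)))) (a (b (l 223573161047) (a (l 192434659687) (l 97945360279))) (a (a (b (l 79154918407) (l 16771064)) (l 69491202119)) (l 16768080)))) (b (a (b (a (l 202635205399) (l 93113519575)) (l 16771056)) (l 16764024)) (a (l 16760096) (l 16749464))))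 (b (a (a (b (a (l 16772944) (l 16767624)) (l 16762768)) (l 16755904)) (l 16750544)) (a (a (l 16751328) (l 16740744)) (l 16724992))))) (a (b (a (b (a (b (a (l 4) (l 199413976871)) (a (b (l 221425690551) (l 20099113063)) (l 16772352))) (b (a (b (l 42110821879) (l 16772816)) (l 16769320)) (l 16764176))) (a (b (l 16767160) (l 16759152)) (l 16752256))) (b (a (l 16767744) (l 16746496)) (l 16746552))) (a (b (b (l 16756120) (l 16747992)) (a (a (l 16712368) (l 16706944)) (b (l 16723928) (l 16715720)))) (a (b (l 16704400) (l 16709096)) (b (l 16714688) (l 16698448))))) (a (b (a (l 16748928) (b (l 16704296) (l 16709544))) (b (a (l 16704080) (l 16693584)) (a (l 16687880) (l 16677416)))) (b (l 16722768) (b (l 16678032) (l 16661928)))))), by decide +kernel⟩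

def k219_pm_011_t : ∃ t, chk3 f_pm_011_t t 13 13 1 = true :=
  ⟨(b (a (b (a (b (a (l 16753344) (l 16742704)) (l 16733600)) (c (l 16740728) (l 16740680))) (a (l 16732608) (l 16690896))) (b (l 1) (a (l 185790594951) (l 1)))) (b (a (b (l 16699680) (a (l 16673424) (l 16653152))) (l 16651616)) (a (a (b (l 16657640) (l 16641640)) (b (l 16637528) (l 16621672))) (a (l 16609800) (l 16590216))))), by decide +kernel⟩

def k220_pm_011_t : ∃ t, chk3 f_pm_011_t t 7 6 1 = true :=
  ⟨(b (l 1) (a (b (l 1) (a (b (l 1) (a (l 16570832) (l 1))) (l 1))) (l 1))), by decide +kernel⟩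

def k221_pm_011_t : ∃ t, chk3 f_pm_011_t t 3 7 1 = true :=
  ⟨(a (b (a (b (b (b (a (a (a (a (l 16716752) (l 16711360)) (l 16703312)) (a (l 16692640) (l 16682040))) (a (l 16666288) (l 16645664))) (a (a (a (l 16697328) (l 16686656)) (a (l 16676040) (l 16665496))) (a (l 16649824) (l 16629296)))) (a (b (a (a (l 16680472) (l 16669872)) (l 16654096)) (a (a (l 16663512) (l 16653008)) (l 16637352))) (a (b (l 16633272) (l 16616664)) (l 16625560)))) (b (a (a (b (l 16662248) (l 16645280)) (c (l 16643960) (l 16632760))) (a (b (l 16600048) (l 16583512)) (b (l 16579920) (l 16563368)))) (a (a (b (l 16607744) (c (l 16591696) (l 16591456))) (b (l 16587320) (l 16592944))) (a (b (l 16588288) (l 16551704)) (b (l 16547816) (l 16532056)))))) (b (b (a (a (l 16638296) (l 16597576)) (a (l 16578128) (l 16558952))) (a (a (l 16584696) (l 16565216)) (a (l 16546096) (l 16527144)))) (b (a (b (l 16602696) (a (l 16543992) (l 16525144))) (b (l 16533912) (l 16497064))) (a (a (l 16520456) (l 16501680)) (l 16516320))))) (a (b (a (b (a (c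 (l 16568464) (l 16567632)) (l 16577304)) (a (c (l 16538296) (l 16536224)) (c (l 16519672) (l 16517128)))) (b (a (l 16549856) (l 16509616)) (a (l 16520416) (l 16480768)))) (a (b (a (b (l 16514024) (l 16498048)) (b (l 16495720) (l 6))) (a (c (l 16476736) (l 16471864)) (l 6))) (b (l 6) (l 6)))) (b (a (b (a (l 16490856) (l 16472600)) (l 6)) (l 6)) (l 6)))) (b (a (b (a (b (a (l 16540008) (l 16521288)) (a (l 16508640) (l 16490600))) (b (l 1) (l 6))) (a (b (a (l 16477736) (l 6)) (l 6)) (l 6))) (l 6)) (l 6))), by decide +kernel⟩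

theorem s222_pm_011_t : ∃ t, chk3 f_pm_011_t t 6 13 1 = true := ex3_a k218_pm_011_t k219_pm_011_t

theorem s223_pm_011_t : ∃ t, chk3 f_pm_011_t t 6 6 1 = true := ex3_b k217_pm_011_t s222_pm_011_t

theorem s224_pm_011_t : ∃ t, chk3 f_pm_011_t t 3 6 1 = true := ex3_a s223_pm_011_t k220_pm_011_t

theorem s225_pm_011_t : ∃ t, chk3 f_pm_011_t t 3 3 1 = true := ex3_b s224_pm_011_t k221_pm_011_t

theorem s226_pm_011_t : ∃ t, chk3 f_pm_011_t t 10 30 2 = true := ex3_a k212_pm_011_t k213_pm_011_t

theorem s227_pm_011_t : ∃ t, chk3 f_pm_011_t t 10 15 2 = true := ex3_b s226_pm_011_t k214_pm_011_t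

theorem s228_pm_011_t : ∃ t, chk3 f_pm_011_t t 10 15 1 = true := ex3_c s227_pm_011_t k215_pm_011_t

theorem s229_pm_011_t : ∃ t, chk3 f_pm_011_t t 5 15 1 = true := ex3_a s228_pm_011_t k216_pm_011_t

theorem s230_pm_011_t : ∃ t, chk3 f_pm_011_t t 22 28 1 = true := ex3_b k208_pm_011_t k209_pm_011_t

theorem s231_pm_011_t : ∃ t, chk3 f_pm_011_t t 11 28 1 = true := ex3_a s230_pm_011_t k210_pm_011_t

theorem s232_pm_011_t : ∃ t, chk3 f_pm_011_t t 11 14 1 = true := ex3_b s231_pm_011_t k211_pm_011_t

theorem s233_pm_011_t : ∃ t, chk3 f_pm_011_t t 84 29 1 = true := ex3_b k204_pm_011_t k205_pm_011_t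

theorem s234_pm_011_t : ∃ t, chk3 f_pm_011_t t 42 29 1 = true := ex3_a s233_pm_011_t k206_pm_011_t

theorem s235_pm_011_t : ∃ t, chk3 f_pm_011_t t 21 29 1 = true := ex3_a s234_pm_011_t k207_pm_011_t

theorem s236_pm_011_t : ∃ t, chk3 f_pm_011_t t 41 59 1 = true := ex3_a k202_pm_011_t k203_pm_011_t

theorem s237_pm_011_t : ∃ t, chk3 f_pm_011_t t 81 118 1 = true := ex3_b k199_pm_011_t k200_pm_011_t

theorem s238_pm_011_t : ∃ t, chk3 f_pm_011_t t 81 59 1 = true := ex3_b s237_pm_011_t k201_pm_011_t

theorem s239_pm_011_t : ∃ t, chk3 f_pm_011_t t 80 119 1 = true := ex3_b k197_pm_011_t k198_pm_011_t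

theorem s240_pm_011_t : ∃ t, chk3 f_pm_011_t t 80 59 1 = true := ex3_b k196_pm_011_t s239_pm_011_t

theorem s241_pm_011_t : ∃ t, chk3 f_pm_011_t t 40 59 1 = true := ex3_a s240_pm_011_t s238_pm_011_t

theorem s242_pm_011_t : ∃ t, chk3 f_pm_011_t t 20 59 1 = true := ex3_a s241_pm_011_t s236_pm_011_t

theorem s243_pm_011_t : ∃ t, chk3 f_pm_011_t t 41 117 1 = true := ex3_a k194_pm_011_t k195_pm_011_t

theorem s244_pm_011_t : ∃ t, chk3 f_pm_011_t t 41 58 1 = true := ex3_b k193_pm_011_t s243_pm_011_t

theorem s245_pm_011_t : ∃ t, chk3 f_pm_011_t t 20 58 1 = true := ex3_a k192_pm_011_t s244_pm_011_t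

theorem s246_pm_011_t : ∃ t, chk3 f_pm_011_t t 20 29 1 = true := ex3_b s245_pm_011_t s242_pm_011_t

theorem s247_pm_011_t : ∃ t, chk3 f_pm_011_t t 10 29 1 = true := ex3_a s246_pm_011_t s235_pm_011_t

theorem s248_pm_011_t : ∃ t, chk3 f_pm_011_t t 21 57 1 = true := ex3_a k190_pm_011_t k191_pm_011_t

theorem s249_pm_011_t : ∃ t, chk3 f_pm_011_t t 21 28 1 = true := ex3_b k189_pm_011_t s248_pm_011_t

theorem s250_pm_011_t : ∃ t, chk3 f_pm_011_t t 10 28 1 = true := ex3_a k188_pm_011_t s249_pm_011_t

theorem s251_pm_011_t : ∃ t, chk3 f_pm_011_t t 10 14 1 = true := ex3_b s250_pm_011_t s247_pm_011_t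

theorem s252_pm_011_t : ∃ t, chk3 f_pm_011_t t 5 14 1 = true := ex3_a s251_pm_011_t s232_pm_011_t

theorem s253_pm_011_t : ∃ t, chk3 f_pm_011_t t 5 7 1 = true := ex3_b s252_pm_011_t s229_pm_011_t

theorem s254_pm_011_t : ∃ t, chk3 f_pm_011_t t 19 31 1 = true := ex3_a k186_pm_011_t k187_pm_011_t

theorem s255_pm_011_t : ∃ t, chk3 f_pm_011_t t 72 62 1 = true := ex3_a k181_pm_011_t k182_pm_011_t

theorem s256_pm_011_t : ∃ t, chk3 f_pm_011_t t 36 62 1 = true := ex3_a s255_pm_011_t k183_pm_011_t

theorem s257_pm_011_t : ∃ t, chk3 f_pm_011_t t 18 62 1 = true := ex3_a s256_pm_011_t k184_pm_011_t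

theorem s258_pm_011_t : ∃ t, chk3 f_pm_011_t t 18 31 1 = true := ex3_b s257_pm_011_t k185_pm_011_t

theorem s259_pm_011_t : ∃ t, chk3 f_pm_011_t t 9 31 1 = true := ex3_a s258_pm_011_t s254_pm_011_t

theorem s260_pm_011_t : ∃ t, chk3 f_pm_011_t t 38 61 1 = true := ex3_c k178_pm_011_t k179_pm_011_t

theorem s261_pm_011_t : ∃ t, chk3 f_pm_011_t t 19 61 1 = true := ex3_a s260_pm_011_t k180_pm_011_t

theorem s262_pm_011_t : ∃ t, chk3 f_pm_011_t t 78 240 1 = true := ex3_a k173_pm_011_t k174_pm_011_t

theorem s263_pm_011_t : ∃ t, chk3 f_pm_011_t t 78 120 1 = true := ex3_b s262_pm_011_t k175_pm_011_t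

theorem s264_pm_011_t : ∃ t, chk3 f_pm_011_t t 39 120 1 = true := ex3_a s263_pm_011_t k176_pm_011_t

theorem s265_pm_011_t : ∃ t, chk3 f_pm_011_t t 39 60 1 = true := ex3_b s264_pm_011_t k177_pm_011_t

theorem s266_pm_011_t : ∃ t, chk3 f_pm_011_t t 77 121 1 = true := ex3_b k171_pm_011_t k172_pm_011_t

theorem s267_pm_011_t : ∃ t, chk3 f_pm_011_t t 152 243 1 = true := ex3_a k168_pm_011_t k169_pm_011_t

theorem s268_pm_011_t : ∃ t, chk3 f_pm_011_t t 76 243 1 = true := ex3_a s267_pm_011_t k170_pm_011_t

theorem s269_pm_011_t : ∃ t, chk3 f_pm_011_t t 76 485 1 = true := ex3_b k166_pm_011_t k167_pm_011_t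

theorem s270_pm_011_t : ∃ t, chk3 f_pm_011_t t 76 242 1 = true := ex3_b k165_pm_011_t s269_pm_011_t

theorem s271_pm_011_t : ∃ t, chk3 f_pm_011_t t 76 121 1 = true := ex3_b s270_pm_011_t s268_pm_011_t

theorem s272_pm_011_t : ∃ t, chk3 f_pm_011_t t 38 121 1 = true := ex3_a s271_pm_011_t s266_pm_011_t

theorem s273_pm_011_t : ∃ t, chk3 f_pm_011_t t 155 241 1 = true := ex3_b k163_pm_011_t k164_pm_011_t

theorem s274_pm_011_t : ∃ t, chk3 f_pm_011_t t 154 241 1 = true := ex3_a k161_pm_011_t k162_pm_011_t

theorem s275_pm_011_t : ∃ t, chk3 f_pm_011_t t 77 241 1 = true := ex3_a s274_pm_011_t s273_pm_011_t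

theorem s276_pm_011_t : ∃ t, chk3 f_pm_011_t t 77 120 1 = true := ex3_b k160_pm_011_t s275_pm_011_t

theorem s277_pm_011_t : ∃ t, chk3 f_pm_011_t t 38 120 1 = true := ex3_a k159_pm_011_t s276_pm_011_t

theorem s278_pm_011_t : ∃ t, chk3 f_pm_011_t t 38 60 1 = true := ex3_b s277_pm_011_t s272_pm_011_t

theorem s279_pm_011_t : ∃ t, chk3 f_pm_011_t t 19 60 1 = true := ex3_a s278_pm_011_t s265_pm_011_t

theorem s280_pm_011_t : ∃ t, chk3 f_pm_011_t t 19 30 1 = true := ex3_b s279_pm_011_t s261_pm_011_t

theorem s281_pm_011_t : ∃ t, chk3 f_pm_011_t t 37 123 1 = true := ex3_a k157_pm_011_t k158_pm_011_t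

theorem s282_pm_011_t : ∃ t, chk3 f_pm_011_t t 150 488 1 = true := ex3_b k152_pm_011_t k153_pm_011_t

theorem s283_pm_011_t : ∃ t, chk3 f_pm_011_t t 75 488 1 = true := ex3_a s282_pm_011_t k154_pm_011_t

theorem s284_pm_011_t : ∃ t, chk3 f_pm_011_t t 75 244 1 = true := ex3_b s283_pm_011_t k155_pm_011_t

theorem s285_pm_011_t : ∃ t, chk3 f_pm_011_t t 75 122 1 = true := ex3_b s284_pm_011_t k156_pm_011_t

theorem s286_pm_011_t : ∃ t, chk3 f_pm_011_t t 74 981 1 = true := ex3_b k149_pm_011_t k150_pm_011_t

theorem s287_pm_011_t : ∃ t, chk3 f_pm_011_t t 74 980 1 = true := ex3_a k147_pm_011_t k148_pm_011_t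

theorem s288_pm_011_t : ∃ t, chk3 f_pm_011_t t 74 490 1 = true := ex3_b s287_pm_011_t s286_pm_011_t

theorem s289_pm_011_t : ∃ t, chk3 f_pm_011_t t 74 245 1 = true := ex3_b s288_pm_011_t k151_pm_011_t

theorem s290_pm_011_t : ∃ t, chk3 f_pm_011_t t 74 979 1 = true := ex3_a k145_pm_011_t k146_pm_011_t

theorem s291_pm_011_t : ∃ t, chk3 f_pm_011_t t 149 978 1 = true := ex3_a k143_pm_011_t k144_pm_011_t

theorem s292_pm_011_t : ∃ t, chk3 f_pm_011_t t 74 978 1 = true := ex3_a k142_pm_011_t s291_pm_011_t

theorem s293_pm_011_t : ∃ t, chk3 f_pm_011_t t 74 489 1 = true := ex3_b s292_pm_011_t s290_pm_011_t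

theorem s294_pm_011_t : ∃ t, chk3 f_pm_011_t t 74 244 1 = true := ex3_b k141_pm_011_t s293_pm_011_t

theorem s295_pm_011_t : ∃ t, chk3 f_pm_011_t t 74 122 1 = true := ex3_b s294_pm_011_t s289_pm_011_t

theorem s296_pm_011_t : ∃ t, chk3 f_pm_011_t t 37 122 1 = true := ex3_a s295_pm_011_t s285_pm_011_t

theorem s297_pm_011_t : ∃ t, chk3 f_pm_011_t t 37 61 1 = true := ex3_b s296_pm_011_t s281_pm_011_t

theorem s298_pm_011_t : ∃ t, chk3 f_pm_011_t t 147 246 1 = true := ex3_b k138_pm_011_t k139_pm_011_t

theorem s299_pm_011_t : ∃ t, chk3 f_pm_011_t t 146 493 1 = true := ex3_b k136_pm_011_t k137_pm_011_t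

theorem s300_pm_011_t : ∃ t, chk3 f_pm_011_t t 146 985 1 = true := ex3_b k134_pm_011_t k135_pm_011_t

theorem s301_pm_011_t : ∃ t, chk3 f_pm_011_t t 146 984 1 = true := ex3_b k132_pm_011_t k133_pm_011_t

theorem s302_pm_011_t : ∃ t, chk3 f_pm_011_t t 146 492 1 = true := ex3_b s301_pm_011_t s300_pm_011_t

theorem s303_pm_011_t : ∃ t, chk3 f_pm_011_t t 146 246 1 = true := ex3_b s302_pm_011_t s299_pm_011_t

theorem s304_pm_011_t : ∃ t, chk3 f_pm_011_t t 73 246 1 = true := ex3_a s303_pm_011_t s298_pm_011_t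

theorem s305_pm_011_t : ∃ t, chk3 f_pm_011_t t 73 123 1 = true := ex3_b s304_pm_011_t k140_pm_011_t

theorem s306_pm_011_t : ∃ t, chk3 f_pm_011_t t 145 988 1 = true := ex3_b k128_pm_011_t k129_pm_011_t

theorem s307_pm_011_t : ∃ t, chk3 f_pm_011_t t 145 494 1 = true := ex3_b s306_pm_011_t k130_pm_011_t

theorem s308_pm_011_t : ∃ t, chk3 f_pm_011_t t 145 247 1 = true := ex3_b s307_pm_011_t k131_pm_011_t

theorem s309_pm_011_t : ∃ t, chk3 f_pm_011_t t 144 990 1 = true := ex3_b k125_pm_011_t k126_pm_011_t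

theorem s310_pm_011_t : ∃ t, chk3 f_pm_011_t t 144 495 1 = true := ex3_b s309_pm_011_t k127_pm_011_t

theorem s311_pm_011_t : ∃ t, chk3 f_pm_011_t t 144 989 1 = true := ex3_b k123_pm_011_t k124_pm_011_t

theorem s312_pm_011_t : ∃ t, chk3 f_pm_011_t t 144 494 1 = true := ex3_b k122_pm_011_t s311_pm_011_t

theorem s313_pm_011_t : ∃ t, chk3 f_pm_011_t t 144 247 1 = true := ex3_b s312_pm_011_t s310_pm_011_t

theorem s314_pm_011_t : ∃ t, chk3 f_pm_011_t t 72 247 1 = true := ex3_a s313_pm_011_t s308_pm_011_t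

theorem s315_pm_011_t : ∃ t, chk3 f_pm_011_t t 145 987 1 = true := ex3_b k120_pm_011_t k121_pm_011_t

theorem s316_pm_011_t : ∃ t, chk3 f_pm_011_t t 145 493 1 = true := ex3_b k119_pm_011_t s315_pm_011_t

theorem s317_pm_011_t : ∃ t, chk3 f_pm_011_t t 145 246 1 = true := ex3_b k118_pm_011_t s316_pm_011_t

theorem s318_pm_011_t : ∃ t, chk3 f_pm_011_t t 72 246 1 = true := ex3_a k117_pm_011_t s317_pm_011_t

theorem s319_pm_011_t : ∃ t, chk3 f_pm_011_t t 72 123 1 = true := ex3_b s318_pm_011_t s314_pm_011_t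

theorem s320_pm_011_t : ∃ t, chk3 f_pm_011_t t 36 123 1 = true := ex3_a s319_pm_011_t s305_pm_011_t

theorem s321_pm_011_t : ∃ t, chk3 f_pm_011_t t 147 983 1 = true := ex3_b k115_pm_011_t k116_pm_011_t

theorem s322_pm_011_t : ∃ t, chk3 f_pm_011_t t 147 982 1 = true := ex3_b k113_pm_011_t k114_pm_011_t

theorem s323_pm_011_t : ∃ t, chk3 f_pm_011_t t 147 491 1 = true := ex3_b s322_pm_011_t s321_pm_011_t

theorem s324_pm_011_t : ∃ t, chk3 f_pm_011_t t 147 245 1 = true := ex3_b k112_pm_011_t s323_pm_011_t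

theorem s325_pm_011_t : ∃ t, chk3 f_pm_011_t t 73 245 1 = true := ex3_a k111_pm_011_t s324_pm_011_t

theorem s326_pm_011_t : ∃ t, chk3 f_pm_011_t t 73 122 1 = true := ex3_b k110_pm_011_t s325_pm_011_t

theorem s327_pm_011_t : ∃ t, chk3 f_pm_011_t t 36 122 1 = true := ex3_a k109_pm_011_t s326_pm_011_t

theorem s328_pm_011_t : ∃ t, chk3 f_pm_011_t t 36 61 1 = true := ex3_b s327_pm_011_t s320_pm_011_t

theorem s329_pm_011_t : ∃ t, chk3 f_pm_011_t t 18 61 1 = true := ex3_a s328_pm_011_t s297_pm_011_t

theorem s330_pm_011_t : ∃ t, chk3 f_pm_011_t t 303 243 1 = true := ex3_b k107_pm_011_t k108_pm_011_t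

theorem s331_pm_011_t : ∃ t, chk3 f_pm_011_t t 151 243 1 = true := ex3_a k106_pm_011_t s330_pm_011_t

theorem s332_pm_011_t : ∃ t, chk3 f_pm_011_t t 75 243 1 = true := ex3_a k105_pm_011_t s331_pm_011_t

theorem s333_pm_011_t : ∃ t, chk3 f_pm_011_t t 75 121 1 = true := ex3_b k104_pm_011_t s332_pm_011_t

theorem s334_pm_011_t : ∃ t, chk3 f_pm_011_t t 37 121 1 = true := ex3_a k103_pm_011_t s333_pm_011_t

theorem s335_pm_011_t : ∃ t, chk3 f_pm_011_t t 37 60 1 = true := ex3_b k102_pm_011_t s334_pm_011_t

theorem s336_pm_011_t : ∃ t, chk3 f_pm_011_t t 18 60 1 = true := ex3_a k101_pm_011_t s335_pm_011_t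

theorem s337_pm_011_t : ∃ t, chk3 f_pm_011_t t 18 30 1 = true := ex3_b s336_pm_011_t s329_pm_011_t

theorem s338_pm_011_t : ∃ t, chk3 f_pm_011_t t 9 30 1 = true := ex3_a s337_pm_011_t s280_pm_011_t

theorem s339_pm_011_t : ∃ t, chk3 f_pm_011_t t 9 15 1 = true := ex3_b s338_pm_011_t s259_pm_011_t

theorem s340_pm_011_t : ∃ t, chk3 f_pm_011_t t 70 250 1 = true := ex3_b k96_pm_011_t k97_pm_011_t

theorem s341_pm_011_t : ∃ t, chk3 f_pm_011_t t 70 125 1 = true := ex3_b s340_pm_011_t k98_pm_011_t

theorem s342_pm_011_t : ∃ t, chk3 f_pm_011_t t 35 125 1 = true := ex3_a s341_pm_011_t k99_pm_011_t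

theorem s343_pm_011_t : ∃ t, chk3 f_pm_011_t t 143 1984 1 = true := ex3_b k90_pm_011_t k91_pm_011_t

theorem s344_pm_011_t : ∃ t, chk3 f_pm_011_t t 143 992 1 = true := ex3_b s343_pm_011_t k92_pm_011_t

theorem s345_pm_011_t : ∃ t, chk3 f_pm_011_t t 143 496 1 = true := ex3_b s344_pm_011_t k93_pm_011_t

theorem s346_pm_011_t : ∃ t, chk3 f_pm_011_t t 143 248 1 = true := ex3_b s345_pm_011_t k94_pm_011_t

theorem s347_pm_011_t : ∃ t, chk3 f_pm_011_t t 142 1989 1 = true := ex3_b k87_pm_011_t k88_pm_011_t

theorem s348_pm_011_t : ∃ t, chk3 f_pm_011_t t 142 1988 1 = true := ex3_a k85_pm_011_t k86_pm_011_t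

theorem s349_pm_011_t : ∃ t, chk3 f_pm_011_t t 142 994 1 = true := ex3_b s348_pm_011_t s347_pm_011_t

theorem s350_pm_011_t : ∃ t, chk3 f_pm_011_t t 142 497 1 = true := ex3_b s349_pm_011_t k89_pm_011_t

theorem s351_pm_011_t : ∃ t, chk3 f_pm_011_t t 142 993 1 = true := ex3_b k83_pm_011_t k84_pm_011_t

theorem s352_pm_011_t : ∃ t, chk3 f_pm_011_t t 142 496 1 = true := ex3_b k82_pm_011_t s351_pm_011_t

theorem s353_pm_011_t : ∃ t, chk3 f_pm_011_t t 142 248 1 = true := ex3_b s352_pm_011_t s350_pm_011_t

theorem s354_pm_011_t : ∃ t, chk3 f_pm_011_t t 71 248 1 = true := ex3_a s353_pm_011_t s346_pm_011_t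

theorem s355_pm_011_t : ∃ t, chk3 f_pm_011_t t 71 124 1 = true := ex3_b s354_pm_011_t k95_pm_011_t

theorem s356_pm_011_t : ∃ t, chk3 f_pm_011_t t 282 1993 1 = true := ex3_a k77_pm_011_t k78_pm_011_t

theorem s357_pm_011_t : ∃ t, chk3 f_pm_011_t t 141 1993 1 = true := ex3_a s356_pm_011_t k79_pm_011_t

theorem s358_pm_011_t : ∃ t, chk3 f_pm_011_t t 141 1992 1 = true := ex3_a k75_pm_011_t k76_pm_011_t

theorem s359_pm_011_t : ∃ t, chk3 f_pm_011_t t 141 996 1 = true := ex3_b s358_pm_011_t s357_pm_011_t

theorem s360_pm_011_t : ∃ t, chk3 f_pm_011_t t 141 498 1 = true := ex3_b s359_pm_011_t k80_pm_011_t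

theorem s361_pm_011_t : ∃ t, chk3 f_pm_011_t t 141 249 1 = true := ex3_b s360_pm_011_t k81_pm_011_t

theorem s362_pm_011_t : ∃ t, chk3 f_pm_011_t t 281 499 1 = true := ex3_b k73_pm_011_t k74_pm_011_t

theorem s363_pm_011_t : ∃ t, chk3 f_pm_011_t t 561 998 1 = true := ex3_a k70_pm_011_t k71_pm_011_t

theorem s364_pm_011_t : ∃ t, chk3 f_pm_011_t t 561 499 1 = true := ex3_b s363_pm_011_t k72_pm_011_t

theorem s365_pm_011_t : ∃ t, chk3 f_pm_011_t t 560 499 1 = true := ex3_b k68_pm_011_t k69_pm_011_t

theorem s366_pm_011_t : ∃ t, chk3 f_pm_011_t t 280 499 1 = true := ex3_a s365_pm_011_t s364_pm_011_t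

theorem s367_pm_011_t : ∃ t, chk3 f_pm_011_t t 140 499 1 = true := ex3_a s366_pm_011_t s362_pm_011_t

theorem s368_pm_011_t : ∃ t, chk3 f_pm_011_t t 281 1995 1 = true := ex3_a k66_pm_011_t k67_pm_011_t

theorem s369_pm_011_t : ∃ t, chk3 f_pm_011_t t 140 1995 1 = true := ex3_a k65_pm_011_t s368_pm_011_t

theorem s370_pm_011_t : ∃ t, chk3 f_pm_011_t t 140 997 1 = true := ex3_b k64_pm_011_t s369_pm_011_t

theorem s371_pm_011_t : ∃ t, chk3 f_pm_011_t t 140 498 1 = true := ex3_b k63_pm_011_t s370_pm_011_t

theorem s372_pm_011_t : ∃ t, chk3 f_pm_011_t t 140 249 1 = true := ex3_b s371_pm_011_t s367_pm_011_t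

theorem s373_pm_011_t : ∃ t, chk3 f_pm_011_t t 70 249 1 = true := ex3_a s372_pm_011_t s361_pm_011_t

theorem s374_pm_011_t : ∃ t, chk3 f_pm_011_t t 141 1991 1 = true := ex3_b k61_pm_011_t k62_pm_011_t

theorem s375_pm_011_t : ∃ t, chk3 f_pm_011_t t 141 995 1 = true := ex3_b k60_pm_011_t s374_pm_011_t

theorem s376_pm_011_t : ∃ t, chk3 f_pm_011_t t 141 497 1 = true := ex3_b k59_pm_011_t s375_pm_011_t

theorem s377_pm_011_t : ∃ t, chk3 f_pm_011_t t 141 248 1 = true := ex3_b k58_pm_011_t s376_pm_011_t

theorem s378_pm_011_t : ∃ t, chk3 f_pm_011_t t 70 248 1 = true := ex3_a k57_pm_011_t s377_pm_011_t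

theorem s379_pm_011_t : ∃ t, chk3 f_pm_011_t t 70 124 1 = true := ex3_b s378_pm_011_t s373_pm_011_t

theorem s380_pm_011_t : ∃ t, chk3 f_pm_011_t t 35 124 1 = true := ex3_a s379_pm_011_t s355_pm_011_t

theorem s381_pm_011_t : ∃ t, chk3 f_pm_011_t t 35 62 1 = true := ex3_b s380_pm_011_t s342_pm_011_t

theorem s382_pm_011_t : ∃ t, chk3 f_pm_011_t t 558 1000 1 = true := ex3_b k51_pm_011_t k52_pm_011_t

theorem s383_pm_011_t : ∃ t, chk3 f_pm_011_t t 558 500 1 = true := ex3_b s382_pm_011_t k53_pm_011_t

theorem s384_pm_011_t : ∃ t, chk3 f_pm_011_t t 279 500 1 = true := ex3_a s383_pm_011_t k54_pm_011_t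

theorem s385_pm_011_t : ∃ t, chk3 f_pm_011_t t 278 500 3 = true := ex3_b k49_pm_011_t k50_pm_011_t

theorem s386_pm_011_t : ∃ t, chk3 f_pm_011_t t 278 1001 2 = true := ex3_b k47_pm_011_t k48_pm_011_t

theorem s387_pm_011_t : ∃ t, chk3 f_pm_011_t t 278 1000 2 = true := ex3_b k45_pm_011_t k46_pm_011_t

theorem s388_pm_011_t : ∃ t, chk3 f_pm_011_t t 278 500 2 = true := ex3_b s387_pm_011_t s386_pm_011_t

theorem s389_pm_011_t : ∃ t, chk3 f_pm_011_t t 278 500 1 = true := ex3_c s388_pm_011_t s385_pm_011_t

theorem s390_pm_011_t : ∃ t, chk3 f_pm_011_t t 139 500 1 = true := ex3_a s389_pm_011_t s384_pm_011_t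

theorem s391_pm_011_t : ∃ t, chk3 f_pm_011_t t 139 250 1 = true := ex3_b s390_pm_011_t k55_pm_011_t

theorem s392_pm_011_t : ∃ t, chk3 f_pm_011_t t 138 2004 1 = true := ex3_b k41_pm_011_t k42_pm_011_t

theorem s393_pm_011_t : ∃ t, chk3 f_pm_011_t t 138 1002 1 = true := ex3_b s392_pm_011_t k43_pm_011_t

theorem s394_pm_011_t : ∃ t, chk3 f_pm_011_t t 138 501 1 = true := ex3_b s393_pm_011_t k44_pm_011_t

theorem s395_pm_011_t : ∃ t, chk3 f_pm_011_t t 555 2003 1 = true := ex3_b k39_pm_011_t k40_pm_011_t

theorem s396_pm_011_t : ∃ t, chk3 f_pm_011_t t 277 2003 1 = true := ex3_a k38_pm_011_t s395_pm_011_t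

theorem s397_pm_011_t : ∃ t, chk3 f_pm_011_t t 138 2003 1 = true := ex3_a k37_pm_011_t s396_pm_011_t

theorem s398_pm_011_t : ∃ t, chk3 f_pm_011_t t 138 1001 1 = true := ex3_b k36_pm_011_t s397_pm_011_t

theorem s399_pm_011_t : ∃ t, chk3 f_pm_011_t t 138 500 1 = true := ex3_b k35_pm_011_t s398_pm_011_t

theorem s400_pm_011_t : ∃ t, chk3 f_pm_011_t t 138 250 1 = true := ex3_b s399_pm_011_t s394_pm_011_t

theorem s401_pm_011_t : ∃ t, chk3 f_pm_011_t t 69 250 1 = true := ex3_a s400_pm_011_t s391_pm_011_t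

theorem s402_pm_011_t : ∃ t, chk3 f_pm_011_t t 69 125 1 = true := ex3_b s401_pm_011_t k56_pm_011_t

theorem s403_pm_011_t : ∃ t, chk3 f_pm_011_t t 34 125 1 = true := ex3_a k34_pm_011_t s402_pm_011_t

theorem s404_pm_011_t : ∃ t, chk3 f_pm_011_t t 279 1999 1 = true := ex3_b k32_pm_011_t k33_pm_011_t

theorem s405_pm_011_t : ∃ t, chk3 f_pm_011_t t 139 1999 1 = true := ex3_a k31_pm_011_t s404_pm_011_t

theorem s406_pm_011_t : ∃ t, chk3 f_pm_011_t t 139 999 1 = true := ex3_b k30_pm_011_t s405_pm_011_t

theorem s407_pm_011_t : ∃ t, chk3 f_pm_011_t t 139 499 1 = true := ex3_b k29_pm_011_t s406_pm_011_t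

theorem s408_pm_011_t : ∃ t, chk3 f_pm_011_t t 139 249 1 = true := ex3_b k28_pm_011_t s407_pm_011_t

theorem s409_pm_011_t : ∃ t, chk3 f_pm_011_t t 69 249 1 = true := ex3_a k27_pm_011_t s408_pm_011_t

theorem s410_pm_011_t : ∃ t, chk3 f_pm_011_t t 69 124 1 = true := ex3_b k26_pm_011_t s409_pm_011_t

theorem s411_pm_011_t : ∃ t, chk3 f_pm_011_t t 34 124 1 = true := ex3_a k25_pm_011_t s410_pm_011_t

theorem s412_pm_011_t : ∃ t, chk3 f_pm_011_t t 34 62 1 = true := ex3_b s411_pm_011_t s403_pm_011_t

theorem s413_pm_011_t : ∃ t, chk3 f_pm_011_t t 17 62 1 = true := ex3_a s412_pm_011_t s381_pm_011_t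

theorem s414_pm_011_t : ∃ t, chk3 f_pm_011_t t 17 31 1 = true := ex3_b s413_pm_011_t k100_pm_011_t

theorem s415_pm_011_t : ∃ t, chk3 f_pm_011_t t 8 31 1 = true := ex3_a k24_pm_011_t s414_pm_011_t

theorem s416_pm_011_t : ∃ t, chk3 f_pm_011_t t 287 991 1 = true := ex3_b k22_pm_011_t k23_pm_011_t

theorem s417_pm_011_t : ∃ t, chk3 f_pm_011_t t 287 495 1 = true := ex3_b k21_pm_011_t s416_pm_011_t

theorem s418_pm_011_t : ∃ t, chk3 f_pm_011_t t 143 495 1 = true := ex3_a k20_pm_011_t s417_pm_011_t

theorem s419_pm_011_t : ∃ t, chk3 f_pm_011_t t 143 247 1 = true := ex3_b k19_pm_011_t s418_pm_011_t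

theorem s420_pm_011_t : ∃ t, chk3 f_pm_011_t t 71 247 1 = true := ex3_a k18_pm_011_t s419_pm_011_t

theorem s421_pm_011_t : ∃ t, chk3 f_pm_011_t t 71 123 1 = true := ex3_b k17_pm_011_t s420_pm_011_t

theorem s422_pm_011_t : ∃ t, chk3 f_pm_011_t t 35 123 1 = true := ex3_a k16_pm_011_t s421_pm_011_t

theorem s423_pm_011_t : ∃ t, chk3 f_pm_011_t t 35 61 1 = true := ex3_b k15_pm_011_t s422_pm_011_t

theorem s424_pm_011_t : ∃ t, chk3 f_pm_011_t t 17 61 1 = true := ex3_a k14_pm_011_t s423_pm_011_t

theorem s425_pm_011_t : ∃ t, chk3 f_pm_011_t t 17 30 1 = true := ex3_b k13_pm_011_t s424_pm_011_t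

theorem s426_pm_011_t : ∃ t, chk3 f_pm_011_t t 8 30 1 = true := ex3_a k12_pm_011_t s425_pm_011_t

theorem s427_pm_011_t : ∃ t, chk3 f_pm_011_t t 8 15 1 = true := ex3_b s426_pm_011_t s415_pm_011_t

theorem s428_pm_011_t : ∃ t, chk3 f_pm_011_t t 4 15 1 = true := ex3_a s427_pm_011_t s339_pm_011_t

theorem s429_pm_011_t : ∃ t, chk3 f_pm_011_t t 79 239 1 = true := ex3_a k10_pm_011_t k11_pm_011_t

theorem s430_pm_011_t : ∃ t, chk3 f_pm_011_t t 79 119 1 = true := ex3_b k9_pm_011_t s429_pm_011_t

theorem s431_pm_011_t : ∃ t, chk3 f_pm_011_t t 39 119 1 = true := ex3_a k8_pm_011_t s430_pm_011_t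

theorem s432_pm_011_t : ∃ t, chk3 f_pm_011_t t 39 59 1 = true := ex3_b k7_pm_011_t s431_pm_011_t

theorem s433_pm_011_t : ∃ t, chk3 f_pm_011_t t 19 59 1 = true := ex3_a k6_pm_011_t s432_pm_011_t

theorem s434_pm_011_t : ∃ t, chk3 f_pm_011_t t 19 29 1 = true := ex3_b k5_pm_011_t s433_pm_011_t

theorem s435_pm_011_t : ∃ t, chk3 f_pm_011_t t 9 29 1 = true := ex3_a k4_pm_011_t s434_pm_011_t

theorem s436_pm_011_t : ∃ t, chk3 f_pm_011_t t 9 14 1 = true := ex3_b k3_pm_011_t s435_pm_011_t

theorem s437_pm_011_t : ∃ t, chk3 f_pm_011_t t 4 14 1 = true := ex3_a k2_pm_011_t s436_pm_011_t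

theorem s438_pm_011_t : ∃ t, chk3 f_pm_011_t t 4 7 1 = true := ex3_b s437_pm_011_t s428_pm_011_t

theorem s439_pm_011_t : ∃ t, chk3 f_pm_011_t t 2 7 1 = true := ex3_a s438_pm_011_t s253_pm_011_t

theorem s440_pm_011_t : ∃ t, chk3 f_pm_011_t t 2 3 1 = true := ex3_b k1_pm_011_t s439_pm_011_t

theorem s441_pm_011_t : ∃ t, chk3 f_pm_011_t t 1 3 1 = true := ex3_a s440_pm_011_t s225_pm_011_t

theorem s442_pm_011_t : ∃ t, chk3 f_pm_011_t t 1 1 1 = true := ex3_b k0_pm_011_t s441_pm_011_t

theorem c_pm_011_t : CertNE 0 536870912 536870912 536870912 818728140 40265320 3 eng mog cd0q0 cd0q1 pd1 false true false .pnn 0 1 1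
    ndB0q0 ndB0q1 pcB1 cut_pm_011_t Ext.none :=
  certNE0 (fam := false) (s1 := true) (s2 := false) (a := 0) (b := 1) (c := 1) (cn := .pnn) (n1 := ndB0q0) (n2 := ndB0q1) (pc := pcB1) (cut := cut_pm_011_t) (xt := Ext.none) (P1 := 0) (W1 := 536870912) (P2 := 536870912) (W2 := 536870912) (P3 := 818728140) (W3 := 40265320) (N0 := 3) (En := eng) (mo := mog) (C1 := cd0q0) (C2 := cd0q1) (C3 := pd1)
    rfl s442_pm_011_t

end Pool.Agent.Strip051.G.I7625_8000.Tab.CS.BB00

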