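import Pool.Agent.Strip051.G.I7625_8000.Tab
import Pool.Agent.Strip051.PB.StripB
import Pool.Agent.Strip051.PB.ExtD2

/-! # Strips, near vertex: certificates 8 (generated) -/

set_option linter.all false
set_option maxRecDepth 100000

namespace Pool.Agent.Strip051.G.I7625_8000.Tab.CS.BB00

open Pool.Agent.Strip051.PB Pool.Agent.Strip051.PB.T
open Pool.Agent.Strip051.G.I7625_8000.Tab

noncomputable def cut_pm_012_s : Cut := Cut.of [[⟨4, 0, 0, 1449551462⟩], [⟨0, 0, 0, 67108864⟩, ⟨1, 1, 0, 67108864⟩, ⟨2, 1, 0, 67108864⟩]]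

noncomputable def f_pm_012_s : ℕ → ℕ → ℕ → ℕ → Bool := onCell 0 536870912 0 536870912 818728140 40265320
    (rowNE 3 eng mog cd0q0 cd0q2 pd1 0 false true false .pnp 0 1 2 (qsf 0 536870912 0 536870912 1) ndB0q0 ndB0q2 pcB1 cut_pm_012_s Ext.none)

def k0_pm_012_s : ∃ t, chk3 f_pm_012_s t 1 1 1 = true :=
  ⟨(a (l 6) (b (a (b (a (l 6) (b (a (l 6) (b (l 16590088) (l 6))) (l 6))) (l 6)) (b (a (b (a (a (l 16593552) (l 16552120)) (b (a (l 16620528) (l 16629544)) (l 16583072))) (l 6)) (b (a (a (l 16690464) (b (l 16648672) (l 16624024))) (b (a (l 16660320) (l 16673624)) (a (l 16633848) (l 16645432)))) (a (b (a (l 16594208) (l 16600712)) (l 6)) (b (a (l 16608584) (l 16618304)) (l 16607984))))) (l 6))) (l 6))), by decide +kernel⟩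

theorem c_pm_012_s : CertNE 0 536870912 0 536870912 818728140 40265320 3 eng mog cd0q0 cd0q2 pd1 false true false .pnp 0 1 2
    ndB0q0 ndB0q2 pcB1 cut_pm_012_s Ext.none :=
  certNE0 (fam := false) (s1 := true) (s2 := false) (a := 0) (b := 1) (c := 2) (cn := .pnp) (n1 := ndB0q0) (n2 := ndB0q2) (pc := pcB1) (cut := cut_pm_012_s) (xt := Ext.none) (P1 := 0) (W1 := 536870912) (P2 := 0) (W2 := 536870912) (P3 := 818728140) (W3 := 40265320) (N0 := 3) (En := eng) (mo := mog) (C1 := cd0q0) (C2 := cd0q2) (C3 := pd1)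
    rfl k0_pm_012_s

noncomputable def cut_pm_012_t : Cut := Cut.of [[⟨3, 0, 0, 2845415833⟩], [⟨0, 0, 0, 67108864⟩, ⟨1, 1, 0, 67108864⟩, ⟨2, 1, 0, 67108864⟩]]

noncomputable def f_pm_012_t : ℕ → ℕ → ℕ → ℕ → Bool := onCell 0 536870912 0 536870912 818728140 40265320
    (rowNE 3 eng mog cd0q0 cd0q2 pd1 0 false true false .pnp 0 1 2 (qsf 0 536870912 0 536870912 1) ndB0q0 ndB0q2 pcB1 cut_pm_012_t Ext.none)

def k0_pm_012_t : ∃ t, chk3 f_pm_012_t t 1 2 1 = true :=
  ⟨(l 6), by decide +kernel⟩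

def k1_pm_012_t : ∃ t, chk3 f_pm_012_t t 4 6 1 = true :=
  ⟨(a (l 2) (b (l 6) (a (b (l 6) (l 6)) (l 6)))), by decide +kernel⟩

def k2_pm_012_t : ∃ t, chk3 f_pm_012_t t 4 14 1 = true :=
  ⟨(a (a (l 2) (b (a (l 2) (b (l 2) (a (l 2) (b (a (l 2) (l 16541216)) (a (l 14) (l 16554432)))))) (a (l 14) (a (l 14) (b (b (l 16567952) (l 16581536)) (c (l 16607944) (l 16585888))))))) (a (b (a (b (a (b (a (l 2) (l 16515704)) (l 16538808)) (b (l 16516136) (l 16528560))) (a (b (l 16541192) (l 16554152)) (b (l 16541080) (l 16553696)))) (b (a (b (l 6) (l 16528688)) (l 6)) (a (l 16547048) (l 16546480)))) (c (a (b (a (l 16580360) (l 16579376)) (a (l 16606376) (l 16604704))) (b (a (l 16578280) (l 16576984)) (b (l 16595768) (l 16608088)))) (a (b (a (l 16567080) (l 16566072)) (a (l 16594744) (l 16593032))) (b (l 16553880) (a (l 16591216) (l 16589248)))))) (b (a (b (l 6) (a (l 16545640) (l 6))) (l 6)) (a (b (a (l 16590000) (l 16525240)) (c (l 16597336) (l 16564888))) (b (c (l 16569784) (l 16557336))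 (l 16565056)))))), by decide +kernel⟩

def k3_pm_012_t : ∃ t, chk3 f_pm_012_t t 4 15 1 = true :=
  ⟨(a (a (l 14) (a (l 14) (a (l 14) (a (l 14) (a (l 14) (b (b (b (l 16622792) (l 16637280)) (l 16638800)) (b (l 16662816) (b (l 16684848) (c (l 16683968) (l 16686632)))))))))) (a (c (b (a (b (a (l 16601880) (l 16630952)) (l 16649512)) (b (l 16627112) (l 16645632))) (b (a (a (b (l 16673592) (l 16674952)) (l 16637408)) (a (l 16632096) (l 16642728))) (a (b (a (l 16676072) (l 16665120)) (a (b (l 16676752) (l 16677120)) (b (l 16665664) (l 16665944)))) (b (a (l 16654296) (l 16643680)) (a (b (l 16654704) (l 16654896)) (b (l 16643952) (l 16644056))))))) (b (a (b (b (l 16594104) (l 16629656)) (a (l 16622416) (l 16650648))) (b (a (l 16597640) (l 16615896)) (l 16624640))) (a (b (a (l 16659168) (l 16648656)) (b (a (l 16680112) (l 16669328)) (a (b (l 16679848) (l 16679576)) (l 16668760)))) (b (b (l 16654168) (l 16622448)) (b (a (l 16658648) (l 16648136)) (a (l 16657896) (l 16647208)))))))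 (b (a (b (c (l 16621064) (l 16611392)) (a (l 16614128) (l 16604792))) (b (l 16572472) (a (l 16595800) (l 16587176)))) (c (b (a (a (l 16632712) (l 16623040)) (l 16609280)) (a (b (l 16638848) (a (l 16633544) (l 16623424))) (b (l 16609264) (a (l 16613696) (l 16604248))))) (a (b (b (l 16634352) (l 16633728)) (b (l 16632824) (a (l 16636752) (l 16626576)))) (b (l 16573264) (a (l 16627944) (l 16607856)))))))), by decide +kernel⟩

def k4_pm_012_t : ∃ t, chk3 f_pm_012_t t 5 3 1 = true :=
  ⟨(b (l 6) (a (b (a (b (l 6) (b (l 6) (a (l 16578744) (l 6)))) (l 6)) (a (b (a (b (l 16554160) (c (l 16571448) (l 16599824))) (b (l 16582040) (c (l 16577968) (l 16584080)))) (a (b (c (l 16613256) (l 16597440)) (c (b (l 16591464) (a (l 16594984) (l 16586160))) (b (l 16594792) (l 16592536)))) (a (b (l 16582464) (c (l 16578512) (l 16580256))) (b (l 16574776) (c (l 16570832) (l 16571784)))))) (c (b (b (l 16559504) (a (l 16564632) (l 16551576))) (b (a (l 16562672) (l 16548832)) (a (b (l 16560584) (l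 16558872)) (l 16565800)))) (b (b (l 16565424) (l 16561872)) (b (a (l 16564920) (l 16549736)) (a (l 16559528) (l 16543216))))))) (b (l 6) (b (l 6) (a (b (a (c (l 16534472) (l 16534344)) (l 6)) (a (c (l 16529264) (l 16526568)) (c (l 16513488) (l 16510184)))) (a (b (l 6) (l 16516768)) (l 6))))))), by decide +kernel⟩

def k5_pm_012_t : ∃ t, chk3 f_pm_012_t t 3 3 1 = true :=
  ⟨(a (l 6) (l 6)), by decide +kernel⟩

theorem s6_pm_012_t : ∃ t, chk3 f_pm_012_t t 4 7 1 = true := ex3_b k2_pm_012_t k3_pm_012_t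

theorem s7_pm_012_t : ∃ t, chk3 f_pm_012_t t 4 3 1 = true := ex3_b k1_pm_012_t s6_pm_012_t

theorem s8_pm_012_t : ∃ t, chk3 f_pm_012_t t 2 3 1 = true := ex3_a s7_pm_012_t k4_pm_012_t

theorem s9_pm_012_t : ∃ t, chk3 f_pm_012_t t 1 3 1 = true := ex3_a s8_pm_012_t k5_pm_012_t

theorem s10_pm_012_t : ∃ t, chk3 f_pm_012_t t 1 1 1 = true := ex3_b k0_pm_012_t s9_pm_012_t

theorem c_pm_012_t : CertNE 0 536870912 0 536870912 818728140 40265320 3 eng mog cd0q0 cd0q2 pd1 false true false .pnp 0 1 2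
    ndB0q0 ndB0q2 pcB1 cut_pm_012_t Ext.none :=
  certNE0 (fam := false) (s1 := true) (s2 := false) (a := 0) (b := 1) (c := 2) (cn := .pnp) (n1 := ndB0q0) (n2 := ndB0q2) (pc := pcB1) (cut := cut_pm_012_t) (xt := Ext.none) (P1 := 0) (W1 := 536870912) (P2 := 0) (W2 := 536870912) (P3 := 818728140) (W3 := 40265320) (N0 := 3) (En := eng) (mo := mog) (C1 := cd0q0) (C2 := cd0q2) (C3 := pd1)
    rfl s10_pm_012_t

noncomputable def cut_pm_022_s : Cut := Cut.of [[⟨4, 0, 0, 1449551462⟩], [⟨0, 0, 0, 67108864⟩, ⟨1, 1, 0, 67108864⟩, ⟨2, 1, 0, 67108864⟩]]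

noncomputable def f_pm_022_s : ℕ → ℕ → ℕ → ℕ → Bool := onCell 1073741824 536870912 0 536870912 818728140 40265320
    (rowNE 3 eng mog cd0q0 cd0q2 pd2 2 false true false .pp 0 2 2 (qsf 0 536870912 0 536870912 2) ndB0q0 ndB0q2 pcB2 cut_pm_022_s Ext.none)

def k0_pm_022_s : ∃ t, chk3 f_pm_022_s t 1 1 1 = true :=
  ⟨(l 6), by decide +kernel⟩

theorem c_pm_022_s : CertNE 0 536870912 0 536870912 818728140 40265320 3 eng mog cd0q0 cd0q2 pd2 false true false .pp 0 2 2
    ndB0q0 ndB0q2 pcB2 cut_pm_022_s Ext.none :=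
  certNE2 (fam := false) (s1 := true) (s2 := false) (a := 0) (b := 2) (c := 2) (cn := .pp) (n1 := ndB0q0) (n2 := ndB0q2) (pc := pcB2) (cut := cut_pm_022_s) (xt := Ext.none) (P1 := 0) (W1 := 536870912) (P2 := 0) (W2 := 536870912) (P3 := 818728140) (W3 := 40265320) (N0 := 3) (En := eng) (mo := mog) (C1 := cd0q0) (C2 := cd0q2) (C3 := pd2)
    rfl (fun _ => rfl) k0_pm_022_s

noncomputable def cut_pm_022_t : Cut := Cut.of [[⟨3, 0, 0, 2845415833⟩], [⟨0, 0, 0, 67108864⟩, ⟨1, 1, 0, 67108864⟩, ⟨2, 1, 0, 67108864⟩]]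

noncomputable def f_pm_022_t : ℕ → ℕ → ℕ → ℕ → Bool := onCell 0 536870912 0 536870912 818728140 40265320
    (rowNE 3 eng mog cd0q0 cd0q2 pd2 0 false true false .pp 0 2 2 (qsf 0 536870912 0 536870912 2) ndB0q0 ndB0q2 pcB2 cut_pm_022_t Ext.none)

def k0_pm_022_t : ∃ t, chk3 f_pm_022_t t 2 2 1 = true :=
  ⟨(l 6), by decide +kernel⟩

def k1_pm_022_t : ∃ t, chk3 f_pm_022_t t 4 6 1 = true :=
  ⟨(b (l 6) (a (a (a (b (a (b (c (l 16541688) (l 16536952)) (c (l 16557440) (l 16553272))) (b (l 6) (l 16548624))) (a (b (c (l 16562920) (l 16570112)) (c (a (l 16586616) (l 16592800)) (b (l 16583120) (l 16592056)))) (b (a (l 16582256) (l 16589096)) (a (l 16567488) (l 16605640))))) (b (b (l 6) (a (l 16583320) (l 6))) (b (a (l 16597840) (l 16575800)) (c (l 16557312) (l 16552192))))) (b (l 6) (a (b (c (a (l 16557264) (l 16535512)) (a (l 16548760) (l 16523824))) (a (c (l 16566680) (l 16556912)) (c (l 16544216) (l 16531248)))) (b (l 6) (a (c (l 16521176) (l 16504928)) (b (l 6) (c (l 16499480)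 (l 16479520)))))))) (a (b (l 6) (l 6)) (l 6)))), by decide +kernel⟩

def k2_pm_022_t : ∃ t, chk3 f_pm_022_t t 4 7 1 = true :=
  ⟨(a (b (a (b (b (a (a (a (b (l 16577296) (c (l 16607960) (l 16606800))) (b (l 16605112) (l 16614120))) (b (l 16573192) (l 16587344))) (c (c (l 16570144) (l 16567064)) (a (l 16616488) (l 16570424)))) (b (b (a (a (a (l 16614448) (l 16621160)) (l 16610032)) (a (l 16626040) (l 16560088))) (l 14)) (l 14))) (l 14)) (b (a (b (c (a (l 16576896) (l 16537968)) (a (l 16544664) (l 16518248))) (b (a (c (l 16584536) (l 16572256)) (c (l 16560768) (l 16545256))) (l 14))) (b (c (a (b (l 16527688) (l 16532136)) (b (l 16503512) (a (l 16513784) (l 16501368)))) (a (b (l 16510304) (l 16513992)) (b (l 16482768) (a (l 16493120) (l 16479000))))) (b (a (c (l 16536416) (a (l 16524584) (l 16510600))) (c (a (l 16517784) (l 16505184)) (a (l 16496448) (l 33855816007)))) (a (l 14) (a (l 14) (a (l 14) (l 1))))))) (a (l 14) (a (l 14) (a (l 14) (l 1)))))) (a (l 14) (a (l 14) (l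 1)))) (b (a (b (a (b (b (a (c (a (l 16485008) (l 16472496)) (a (l 16461696) (l 16447440))) (b (l 6) (l 1))) (a (c (a (l 16488808) (l 16476104)) (a (l 16464720) (l 16450272))) (l 1))) (a (a (b (c (l 16492432) (l 16467656)) (l 1)) (l 1)) (l 1))) (l 1)) (l 1)) (l 1)) (l 1))), by decide +kernel⟩

def k3_pm_022_t : ∃ t, chk3 f_pm_022_t t 5 3 1 = true :=
  ⟨(b (l 1) (l 1)), by decide +kernel⟩

def k4_pm_022_t : ∃ t, chk3 f_pm_022_t t 3 1 1 = true :=
  ⟨(l 1), by decide +kernel⟩

theorem s5_pm_022_t : ∃ t, chk3 f_pm_022_t t 4 3 1 = true := ex3_b k1_pm_022_t k2_pm_022_t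

theorem s6_pm_022_t : ∃ t, chk3 f_pm_022_t t 2 3 1 = true := ex3_a s5_pm_022_t k3_pm_022_t

theorem s7_pm_022_t : ∃ t, chk3 f_pm_022_t t 2 1 1 = true := ex3_b k0_pm_022_t s6_pm_022_t

theorem s8_pm_022_t : ∃ t, chk3 f_pm_022_t t 1 1 1 = true := ex3_a s7_pm_022_t k4_pm_022_t

theorem c_pm_022_t : CertNE 0 536870912 0 536870912 818728140 40265320 3 eng mog cd0q0 cd0q2 pd2 false true false .pp 0 2 2
    ndB0q0 ndB0q2 pcB2 cut_pm_022_t Ext.none :=
  certNE0 (fam := false) (s1 := true) (s2 := false) (a := 0) (b := 2) (c := 2) (cn := .pp) (n1 := ndB0q0) (n2 := ndB0q2) (pc := pcB2) (cut := cut_pm_022_t) (xt := Ext.none) (P1 := 0) (W1 := 536870912) (P2 := 0) (W2 := 536870912) (P3 := 818728140) (W3 := 40265320) (N0 := 3) (En := eng) (mo := mog) (C1 := cd0q0) (C2 := cd0q2) (C3 := pd2)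
    rfl s8_pm_022_t

noncomputable def cut_pm_101_s : Cut := Cut.of [[⟨4, 0, 0, 1449551462⟩], [⟨0, 1, 0, 53687091⟩, ⟨1, 0, 0, 53687091⟩, ⟨2, 1, 0, 53687091⟩], [⟨0, 0, 1, 26214400⟩, ⟨1, 1, 2, 26214400⟩, ⟨2, 1, 0, 33554432⟩]]

noncomputable def xt_pm_101_s : Ext := extD2 3 ⟨4, 1, 1, 5, 13, 5, 23, 25, 43, 100, 1, 8⟩ eng cd0q1 cd0q1 pd0 false true false .npn 1 0 1 rfl ndB0q1 ndB0q1 pcB0

noncomputable def f_pm_101_s : ℕ → ℕ → ℕ → ℕ → Bool := onCell 536870912 536870912 536870912 536870912 818728140 40265320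
    (rowNE 3 eng mog cd0q1 cd0q1 pd0 0 false true false .npn 1 0 1 (qsf 536870912 536870912 536870912 536870912 0) ndB0q1 ndB0q1 pcB0 cut_pm_101_s xt_pm_101_s)

def k0_pm_101_s : ∃ t, chk3 f_pm_101_s t 2 1 1 = true :=
  ⟨(l 6), by decide +kernel⟩

def k1_pm_101_s : ∃ t, chk3 f_pm_101_s t 3 2 1 = true :=
  ⟨(l 6), by decide +kernel⟩

def k2_pm_101_s : ∃ t, chk3 f_pm_101_s t 6 3 1 = true :=
  ⟨(b (l 6) (a (l 6) (b (l 6) (b (l 6) (a (l 6) (b (l 6) (a (l 6) (b (l 6) (a (l 6) (b (l 6) (c (a (l 143955449565987183) (l 143990084190896495)) (b (a (l 6) (l 143864121371328879)) (a (a (l 6) (l 143917997426114927)) (a (l 143935864494670191) (l 143952975648850287))))))))))))))), by decide +kernel⟩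

def k3_pm_101_s : ∃ t, chk3 f_pm_101_s t 7 6 1 = true :=
  ⟨(a (l 6) (l 1)), by decide +kernel⟩

def k4_pm_101_s : ∃ t, chk3 f_pm_101_s t 7 14 1 = true :=
  ⟨(a (l 6) (b (l 1) (a (a (a (a (l 6) (l 1)) (l 1)) (l 1)) (l 1)))), by decide +kernel⟩

def k5_pm_101_s : ∃ t, chk3 f_pm_101_s t 14 15 1 = true :=
  ⟨(b (a (l 6) (a (b (l 6) (b (l 16824680) (c (l 16836376) (l 16819184)))) (b (b (a (l 6) (l 16816096)) (b (a (l 6) (b (c (l 16834960) (l 16802520)) (l 16853112))) (l 16815832))) (b (c (l 16841416) (l 16811680)) (l 16807912))))) (a (a (b (b (l 6) (l 6)) (b (b (a (l 6) (a (l 16771120) (l 16774840))) (a (a (l 6) (l 144283928711922031)) (a (l 144213216378208623) (l 144235618935013679)))) (c (b (a (l 144221600134889839) (l 144265030858424623)) (a (c (l 144076395870830959) (l 143992214501081455)) (b (l 144124705675165999) (l 144035026750521647)))) (b (a (b (l 144121613281165679) (l 144015647839175023)) (l 144127729326408047)) (a (c (l 143906452583301487) (a (l 143802136402411887)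 (l 144016472458920303))) (a (l 143909888563773807) (l 143938269715169647))))))) (a (b (b (l 6) (c (l 16797088) (l 16772320))) (b (c (a (l 16776648) (l 16779544)) (c (l 16752752) (l 16749880))) (b (c (l 16765336) (l 144178650473333039)) (c (l 144112611055108399) (a (l 143964451842916655) (l 143988503666491695)))))) (b (b (l 16824400) (l 16780664)) (b (c (a (l 16782208) (l 16784656)) (l 16758040)) (b (c (l 16770320) (l 144221050403569967)) (c (l 144135632089547055) (a (l 144010425185894703) (l 16756840)))))))) (b (a (b (c (l 16811456) (l 16792264)) (a (l 16786360) (l 16791384))) (b (c (l 16800040) (l 16804144)) (c (l 16776584) (l 16778776)))) (a (b (a (c (l 16787928) (l 16764032)) (c (l 16791760) (l 16769376))) (b (a (a (l 16771128) (l 16773392)) (a (l 16775488) (l 16777536))) (a (c (c (l 16767536) (l 16764840)) (a (l 16759576) (l 16762128))) (c (c (l 16770432) (l 16768488)) (a (l 16764512) (l 16766824)))))) (b (a (c (l 16795568) (l 16774424)) (c (l 16799512) (l 16800208)))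 (b (a (l 16759632) (l 16763696)) (a (c (c (l 16773392) (l 16772056)) (a (l 16769096) (l 16771320))) (c (b (l 16778312) (l 16773976)) (l 16753536))))))))), by decide +kernel⟩

def k6_pm_101_s : ∃ t, chk3 f_pm_101_s t 15 15 1 = true :=
  ⟨(b (a (b (a (b (b (a (l 88080440007) (l 1)) (a (c (l 16841896) (l 16809144)) (a (c (l 16828168) (l 141767516855)) (l 1)))) (a (b (b (c (b (l 16837176) (l 16837568)) (b (l 16804408) (l 16804928))) (l 16792680)) (l 16798288)) (b (b (a (b (a (l 137472551687) (l 1)) (l 145525619511)) (l 1)) (a (l 119218943495) (l 211560729079))) (c (l 16795776) (a (l 16820960) (l 195991478935)))))) (b (l 1) (b (l 1) (b (l 1) (l 14))))) (a (a (b (l 16808816) (l 16842536)) (b (c (l 16795000) (b (l 16823896) (l 16830952))) (l 16802904))) (l 14))) (b (l 1) (l 14))) (a (a (b (b (c (l 16830448) (l 16814648)) (a (l 16805616) (l 16788800))) (b (a (c (l 16803352) (l 16804632)) (b (l 16813240) (l 16802296))) (a (b (l 16767528) (c (l 16758472) (l 16757472))) (b (l 16770968)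 (c (l 16761520) (l 16760904)))))) (l 14)) (l 14))), by decide +kernel⟩

theorem s7_pm_101_s : ∃ t, chk3 f_pm_101_s t 7 15 1 = true := ex3_a k5_pm_101_s k6_pm_101_s

theorem s8_pm_101_s : ∃ t, chk3 f_pm_101_s t 7 7 1 = true := ex3_b k4_pm_101_s s7_pm_101_s

theorem s9_pm_101_s : ∃ t, chk3 f_pm_101_s t 7 3 1 = true := ex3_b k3_pm_101_s s8_pm_101_s

theorem s10_pm_101_s : ∃ t, chk3 f_pm_101_s t 3 3 1 = true := ex3_a k2_pm_101_s s9_pm_101_s

theorem s11_pm_101_s : ∃ t, chk3 f_pm_101_s t 3 1 1 = true := ex3_b k1_pm_101_s s10_pm_101_s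

theorem s12_pm_101_s : ∃ t, chk3 f_pm_101_s t 1 1 1 = true := ex3_a k0_pm_101_s s11_pm_101_s

theorem c_pm_101_s : CertNE 536870912 536870912 536870912 536870912 818728140 40265320 3 eng mog cd0q1 cd0q1 pd0 false true false .npn 1 0 1
    ndB0q1 ndB0q1 pcB0 cut_pm_101_s xt_pm_101_s :=
  certNE0 (fam := false) (s1 := true) (s2 := false) (a := 1) (b := 0) (c := 1) (cn := .npn) (n1 := ndB0q1) (n2 := ndB0q1) (pc := pcB0) (cut := cut_pm_101_s) (xt := xt_pm_101_s) (P1 := 536870912) (W1 := 536870912) (P2 := 536870912) (W2 := 536870912) (P3 := 818728140) (W3 := 40265320) (N0 := 3) (En := eng) (mo := mog) (C1 := cd0q1) (C2 := cd0q1) (C3 := pd0)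
    rfl s12_pm_101_s

noncomputable def cut_pm_101_t : Cut := Cut.of [[⟨3, 0, 0, 2845415833⟩], [⟨0, 1, 0, 53687091⟩, ⟨1, 0, 0, 53687091⟩, ⟨2, 1, 0, 53687091⟩], [⟨0, 0, 1, 26214400⟩, ⟨1, 1, 2, 26214400⟩, ⟨2, 1, 0, 33554432⟩]]

noncomputable def f_pm_101_t : ℕ → ℕ → ℕ → ℕ → Bool := onCell 536870912 536870912 536870912 536870912 818728140 40265320
    (rowNE 3 eng mog cd0q1 cd0q1 pd0 0 false true false .npn 1 0 1 (qsf 536870912 536870912 536870912 536870912 0) ndB0q1 ndB0q1 pcB0 cut_pm_101_t Ext.none)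

def k0_pm_101_t : ∃ t, chk3 f_pm_101_t t 4 4 1 = true :=
  ⟨(a (b (l 4) (a (b (l 4) (a (l 4) (b (l 4) (b (l 4) (a (l 4) (b (l 4) (l 104924670871))))))) (b (b (l 4) (a (l 4) (b (l 4) (a (l 4) (l 186529073255))))) (b (a (b (l 4) (a (l 4) (l 180086623175))) (b (a (l 183844719047) (b (l 85597328791) (l 16772688))) (a (b (l 67880589303) (l 16772408)) (l 16766000)))) (a (b (a (l 175791656535) (b (l 67880588503) (l 16772048))) (a (b (l 63585626823) (l 16771600)) (l 16765016))) (a (l 16781920) (l 16752328))))))) (b (a (a (l 4) (l 1)) (l 1)) (a (b (b (a (b (l 4) (a (l 4) (b (l 4) (l 182770981095)))) (b (l 1) (a (b (l 1) (l 16773272)) (l 1)))) (a (b (a (l 192434653079) (b (l 83449850375) (l 16773040))) (a (b (l 84523586983) (l 16772896)) (l 16766776))) (a (b (l 16767168) (l 16758552)) (l 16755472)))) (a (b (a (b (l 16766408) (l 16757392)) (l 16753672)) (l 16761160)) (b (l 16763176) (l 16725272)))) (b (b (l 1) (a (l 40835721191) (l 1))) (b (a (l 16750064) (l 16762792)) (a (l 16712480)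 (l 16703192))))))), by decide +kernel⟩

def k1_pm_101_t : ∃ t, chk3 f_pm_101_t t 4 5 1 = true :=
  ⟨(b (a (a (b (b (a (b (l 4) (a (l 4) (b (l 4) (l 107072157271)))) (b (a (b (l 4) (l 107072156183)) (b (l 56606304455) (l 16771048))) (a (b (l 16769600) (l 16770384)) (l 16763752)))) (b (a (a (b (l 203708942519) (l 107609028135)) (l 31373372791)) (l 16768832)) (a (a (l 16768072) (l 16761240)) (l 16747824)))) (b (a (b (a (l 16759240) (l 16749840)) (l 16763376)) (l 16752000)) (a (a (l 16727240) (l 16718376)) (l 16727104)))) (b (b (a (a (b (l 16764416) (l 16754808)) (l 16771920)) (l 16759376)) (a (l 16756928) (l 16719856))) (b (a (l 16714696) (l 16699632)) (a (l 16690920) (l 16677096))))) (a (b (b (a (l 16722672) (l 16708568)) (a (l 16705040) (l 16691872))) (b (a (l 16686072) (l 16674192)) (a (l 16664912) (l 16654656)))) (b (b (a (l 16696536) (l 16687184)) (a (l 16680768) (l 16672288))) (b (a (l 16664432) (l 16657312)) (a (l 16646608) (l 16641312)))))) (a (b (a (b (a (b (l 16701736)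 (l 16687688)) (l 16700144)) (a (l 16688464) (l 16652568))) (b (a (l 16665000) (l 16652464)) (a (l 16639320) (l 16627800)))) (a (a (b (l 16663000) (l 16638792)) (b (l 16627768) (l 16604160))) (b (a (l 16615272) (l 16604592)) (a (l 16592304) (l 16582344))))) (b (a (b (a (l 16641720) (l 16633080)) (a (l 16618296) (l 16611056))) (b (a (l 16626920) (l 16623640)) (a (l 16606456) (l 16604976)))) (a (b (a (l 16596008) (l 16589864)) (a (l 16574568) (l 16569296))) (b (a (l 16586488) (l 16586360)) (a (l 16566952) (l 6))))))), by decide +kernel⟩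

def k2_pm_101_t : ∃ t, chk3 f_pm_101_t t 5 2 1 = true :=
  ⟨(b (a (b (l 1) (b (l 1) (a (a (b (l 1) (l 33856394551)) (l 1)) (l 1)))) (l 1)) (b (a (a (b (b (a (l 20434595511) (l 31708912919)) (a (l 16667136) (l 16730832))) (b (a (l 16653520) (l 16654248)) (a (l 16639416) (l 16641984)))) (b (b (l 1) (a (l 28487704311) (l 1))) (b (a (l 24729580807) (b (l 1) (l 16704680))) (a (l 16693400) (l 6))))) (a (b (l 1) (l 6)) (l 1))) (a (b (a (b (a (l 16623912) (l 16628672)) (a (l 16607176) (l 6))) (l 6)) (l 6)) (l 6)))), by decide +kernel⟩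

def k3_pm_101_t : ∃ t, chk3 f_pm_101_t t 2 3 1 = true :=
  ⟨(b (a (b (a (a (b (a (b (l 16593848) (l 16590584)) (b (l 16580696) (l 16556872))) (a (b (l 16545256) (l 16520784)) (b (l 16532848) (l 16508664)))) (b (b (a (l 16569440) (l 16560136)) (a (l 16546128) (l 16537424))) (b (a (l 16522504) (l 16514296)) (a (l 16498648) (l 6))))) (b (a (b (a (l 16553096) (l 16548656)) (a (l 16531056) (l 6))) (l 6)) (l 6))) (a (b (a (a (b (a (l 16499680) (l 16493056)) (l 6)) (l 6)) (l 6)) (l 6)) (l 6))) (l 6)) (l 6)), by decide +kernel⟩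

def k4_pm_101_t : ∃ t, chk3 f_pm_101_t t 3 1 1 = true :=
  ⟨(b (a (b (l 1) (l 6)) (l 1)) (l 6)), by decide +kernel⟩

theorem s5_pm_101_t : ∃ t, chk3 f_pm_101_t t 4 2 1 = true := ex3_b k0_pm_101_t k1_pm_101_t

theorem s6_pm_101_t : ∃ t, chk3 f_pm_101_t t 2 2 1 = true := ex3_a s5_pm_101_t k2_pm_101_t

theorem s7_pm_101_t : ∃ t, chk3 f_pm_101_t t 2 1 1 = true := ex3_b s6_pm_101_t k3_pm_101_t

theorem s8_pm_101_t : ∃ t, chk3 f_pm_101_t t 1 1 1 = true := ex3_a s7_pm_101_t k4_pm_101_t

theorem c_pm_101_t : CertNE 536870912 536870912 536870912 536870912 818728140 40265320 3 eng mog cd0q1 cd0q1 pd0 false true false .npn 1 0 1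
    ndB0q1 ndB0q1 pcB0 cut_pm_101_t Ext.none :=
  certNE0 (fam := false) (s1 := true) (s2 := false) (a := 1) (b := 0) (c := 1) (cn := .npn) (n1 := ndB0q1) (n2 := ndB0q1) (pc := pcB0) (cut := cut_pm_101_t) (xt := Ext.none) (P1 := 536870912) (W1 := 536870912) (P2 := 536870912) (W2 := 536870912) (P3 := 818728140) (W3 := 40265320) (N0 := 3) (En := eng) (mo := mog) (C1 := cd0q1) (C2 := cd0q1) (C3 := pd0)
    rfl s8_pm_101_t

noncomputable def cut_pm_102_s : Cut := Cut.of [[⟨4, 0, 0, 1449551462⟩], [⟨0, 1, 0, 67108864⟩, ⟨1, 0, 0, 67108864⟩, ⟨2, 1, 0, 67108864⟩], [⟨0, 0, 1, 26214400⟩, ⟨1, 1, 2, 26214400⟩, ⟨2, 1, 0, 33554432⟩]]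

noncomputable def xt_pm_102_s : Ext := extD2 3 ⟨4, 1, 1, 5, 13, 5, 23, 25, 43, 100, 1, 8⟩ eng cd0q1 cd0q2 pd0 false true false .npp 1 0 2 rfl ndB0q1 ndB0q2 pcB0

noncomputable def f_pm_102_s : ℕ → ℕ → ℕ → ℕ → Bool := onCell 536870912 536870912 0 536870912 818728140 40265320
    (rowNE 3 eng mog cd0q1 cd0q2 pd0 0 false true false .npp 1 0 2 (qsf 536870912 536870912 0 536870912 0) ndB0q1 ndB0q2 pcB0 cut_pm_102_s xt_pm_102_s)

def k0_pm_102_s : ∃ t, chk3 f_pm_102_s t 4 2 1 = true :=
  ⟨(a (l 2) (b (l 2) (b (l 2) (a (l 2) (b (l 2) (l 16554968)))))), by decide +kernel⟩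

def k1_pm_102_s : ∃ t, chk3 f_pm_102_s t 10 2 1 = true :=
  ⟨(a (a (b (l 2) (b (a (l 2) (l 16703736)) (l 16629096))) (b (b (l 3) (a (b (l 2) (l 16728632)) (b (b (l 116668707559) (l 16766568)) (l 16736728)))) (b (b (l 16690968) (l 16653952)) (b (l 16618288) (l 16582344))))) (b (b (l 3) (b (a (b (l 3) (a (b (l 114521240263) (l 16771152)) (l 116131833063))) (l 3)) (a (b (a (l 16756312) (l 16766112)) (l 16760720)) (b (a (c (l 112910613143) (l 111300000439)) (b (l 3) (l 113984365079))) (a (l 16755392) (c (l 16766480) (l 16766352))))))) (b (a (b (c (l 16709088) (l 16708568)) (l 16670944)) (b (c (l 16745360) (l 16744760)) (c (l 16690600) (l 16690064)))) (b (a (l 16634536) (l 16673528)) (a (l 16597616) (l 16614616)))))), by decide +kernel⟩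

def k2_pm_102_s : ∃ t, chk3 f_pm_102_s t 11 2 1 = true :=
  ⟨(b (b (l 3) (a (b (l 3) (a (a (b (l 3) (c (l 112910629815) (l 111299995159))) (c (l 162302758855) (l 163376498983))) (l 3))) (l 3))) (b (a (b (a (a (c (l 16746176) (l 16745768)) (b (c (l 16762448) (l 16767640)) (l 16762448))) (b (a (c (l 112373750311) (l 111300018791)) (c (l 155323449127) (l 155323448535))) (c (a (l 16758424) (b (l 82308990295) (l 16764832))) (c (l 16758256) (l 16758240))))) (a (c (l 16732288) (l 16731848)) (c (b (l 16764216) (l 16722864)) (b (l 16758752) (l 16722536))))) (b (a (b (l 3) (a (c (b (l 156934067303) (l 108615663639)) (c (l 111299999927) (l 110763128999))) (l 3))) (l 3)) (a (b (c (a (l 16760736) (b (l 111836889127) (l 16767192))) (a (l 16760608) (b (l 110226276487) (l 16767096)))) (c (l 16756208) (a (l 16739664) (l 16751312)))) (b (a (b (l 3) (c (l 112910630807) (l 111300018247))) (l 3)) (c (a (l 16763240) (b (l 112373760935) (l 16769616))) (a (l 16763032) (c (l 73719046087) (l 16773520))))))))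 (a (b (a (c (l 16672256) (l 16671536)) (c (l 16692864) (l 16692072))) (a (l 16674616) (c (l 16653544) (l 16651560)))) (a (b (c (b (l 16725288) (l 16705256)) (b (l 16724624) (l 16704048))) (c (l 16697056) (l 16673688))) (b (c (b (l 16759232) (l 16728952)) (b (l 16758616) (l 16727688))) (c (l 16742312) (l 16739632))))))), by decide +kernel⟩

def k3_pm_102_s : ∃ t, chk3 f_pm_102_s t 2 3 1 = true :=
  ⟨(a (b (l 6) (l 6)) (b (a (b (a (b (a (l 16533640) (l 16544760)) (l 6)) (b (a (l 16559928) (l 16576000)) (a (l 16562944) (b (l 16545272) (l 16525528))))) (l 6)) (b (a (b (a (l 16614464) (b (l 16622928) (l 16603432))) (a (b (l 16563456) (l 16542328)) (b (l 16583656) (l 16562912)))) (b (a (b (l 16645536) (l 16626488)) (c (l 16685168) (l 16658792))) (a (l 16597608) (c (l 16629584) (l 16619904))))) (a (b (a (l 16509008) (l 16553072)) (l 6)) (b (a (b (l 16567112) (l 16547160)) (b (l 16596984) (l 16578120))) (l 16549056))))) (l 6))), by decide +kernel⟩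

def k4_pm_102_s : ∃ t, chk3 f_pm_102_s t 3 2 1 = true :=
  ⟨(b (l 3) (a (a (b (a (b (l 3) (a (b (l 3) (a (c (l 135459233015) (l 112910617479)) (l 3))) (l 3))) (l 3)) (a (b (a (b (c (a (b (l 16770824) (l 16761360)) (b (l 111836890967) (l 57612938263))) (a (l 16765712) (c (l 101636335799) (l 16774816)))) (c (l 16763176) (l 16762208))) (b (a (c (l 138680455719) (l 137606714007)) (l 3)) (c (a (b (l 68350354087) (l 16764920)) (b (l 144049168551) (a (l 16772704) (l 98415130023)))) (c (a (l 16768608) (l 103783821335)) (l 74255900551))))) (a (c (b (l 16734096) (l 16716184)) (b (l 16732104) (l 16712904))) (c (b (a (l 16751576) (l 16762536)) (l 16740312)) (b (a (l 16750008) (l 16761448)) (l 16737464))))) (b (a (b (l 3) (a (c (l 147270387543) (l 148344129527)) (l 3))) (l 3)) (a (b (b (a (c (a (l 16773952) (l 104857579287)) (l 88214575751)) (l 3)) (c (a (l 16768648) (a (l 16769072) (l 105931322695))) (a (l 16767856) (l 90898930215)))) (c (a (l 16756896) (b (l 16770440) (l 16763232)))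 (a (l 16754824) (l 16776008)))) (b (l 3) (b (a (c (a (l 86603971863) (l 104857580935)) (l 93583285223)) (l 3)) (c (a (l 51170494487) (a (l 90898939111) (l 145659782343))) (a (l 16771344) (l 96804510823))))))))) (l 3)) (l 3))), by decide +kernel⟩

def k5_pm_102_s : ∃ t, chk3 f_pm_102_s t 12 6 1 = true :=
  ⟨(b (a (b (a (c (l 16732752) (l 16705976)) (c (b (l 16724360) (l 16709360)) (b (l 16719688) (l 16702496)))) (a (c (l 16658832) (l 16648160)) (c (l 16714464) (l 16676992)))) (b (a (b (c (l 16768576) (l 16764784)) (c (l 16734376) (l 16728080))) (b (c (a (l 16762616) (b (a (l 16771984) (l 70497847911)) (l 16768208))) (a (l 16760072) (c (l 16769816) (l 16769160)))) (c (a (l 16750920) (l 16760424)) (l 16772000)))) (a (c (b (l 16722128) (l 16710960)) (l 16726192)) (b (c (l 16745968) (l 16737712)) (c (l 16737528) (l 16725048)))))) (a (b (a (b (l 16628208) (l 16611536)) (b (l 16660448) (l 16647176))) (b (a (l 16595760) (l 16634376)) (a (l 16575080) (l 16620736)))) (b (a (b (l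 16692448) (l 16682344)) (c (b (l 16731296) (l 16727880)) (l 16708832))) (b (a (l 16674792) (l 16713136)) (a (b (l 16670096) (l 16666920)) (a (b (l 16703344) (l 16703880)) (l 16724944))))))), by decide +kernel⟩

def k6_pm_102_s : ∃ t, chk3 f_pm_102_s t 13 12 1 = true :=
  ⟨(a (b (a (b (a (c (b (a (l 96267647767) (l 3)) (a (l 16773672) (l 76403427351))) (c (b (l 112910639431) (l 16774472)) (l 80161505655))) (c (b (l 3) (l 137606718199)) (l 142975423031))) (c (a (l 16768400) (b (a (l 16775080) (b (l 109689426343) (l 16776432))) (l 16772776))) (a (l 16765480) (b (c (l 67813488023) (l 16775440)) (l 16770672))))) (b (l 3) (a (c (b (l 138143587095) (c (a (l 60834174759) (l 90898940935)) (l 78014033959))) (b (l 140291070791) (c (l 76403421207) (l 16776312)))) (l 3)))) (a (b (c (a (l 16760480) (l 16768080)) (a (l 16753832) (l 16762952))) (c (a (l 16754432) (l 16763688)) (l 16748744))) (b (a (c (b (a (l 16773608) (l 16775632)) (l 16772720)) (c (l 16771264) (l 16769688))) (a (c (b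 (c (l 65129140167) (l 16776520)) (l 16775664)) (b (l 58686688823) (l 16773104))) (c (a (b (l 95730782311) (l 16776568)) (b (l 3) (b (l 16774416) (l 16776800)))) (b (l 103783837911) (c (l 16775832) (l 16775240)))))) (a (c (b (l 16771376) (l 16770720)) (l 16762840)) (c (a (b (l 16774880) (l 16774672)) (l 16776256)) (a (l 16768240) (l 16771112))))))) (b (l 3) (a (b (b (l 3) (a (c (a (c (l 76940299895) (l 16771112)) (l 141901685463)) (c (l 84993355783) (l 16764344))) (l 3))) (a (c (a (l 16777232) (b (b (l 71571595351) (l 16777448)) (l 16778104))) (c (b (l 16770776) (l 16774584)) (l 16773760))) (c (b (a (b (l 3) (l 78550916327)) (l 3)) (a (l 16775392) (c (b (l 87140849879) (l 16777480)) (l 16771336)))) (c (b (l 132238009479) (a (l 16776584) (l 63518528487))) (l 71034705959))))) (b (l 3) (b (l 3) (a (a (b (l 3) (c (l 133311756135) (l 105394458839))) (l 3)) (l 3))))))), by decide +kernel⟩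

def k7_pm_102_s : ∃ t, chk3 f_pm_102_s t 13 13 1 = true :=
  ⟨(a (b (a (b (c (a (l 16750944) (l 16762184)) (l 16740648)) (a (l 16765592) (c (b (l 16763248) (l 16764840)) (l 16741688)))) (b (c (a (c (l 16774392) (l 16767400)) (l 16776664)) (a (l 16756928) (l 16764904))) (c (a (l 16773552) (l 16780984)) (l 16757832)))) (a (b (a (l 16739584) (c (l 16768432) (l 16739096))) (a (l 16742768) (l 16758112))) (c (b (a (l 16779704) (l 16788576)) (l 16793120)) (b (l 16757672) (l 16761864))))) (b (a (c (b (a (c (l 16781096) (l 16777936)) (b (l 16773768) (l 16780472))) (c (l 16773160) (a (l 16782496) (l 16782856)))) (b (a (l 16771128) (c (l 16776920) (l 16773968))) (a (l 16770408) (l 16776520)))) (b (a (c (b (a (c (b (l 58149824391) (l 16778192)) (l 16777624)) (b (l 142438559047) (c (l 72108467079) (l 16776840)))) (c (l 16773664) (l 16778856))) (b (c (a (l 16777384) (l 79087782199)) (l 16765912)) (l 16775072))) (b (c (a (l 148344134935) (l 3)) (l 151565356759)) (c (a (c (b (a (l 16774496)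 (l 123648079479)) (l 16777888)) (l 57076078375)) (b (l 3) (c (a (l 79624660567) (l 146733527335)) (l 87677719319)))) (c (a (l 53854853015) (l 93583291991)) (l 73719065927))))) (a (c (c (l 16781368) (l 16781272)) (c (l 16781192) (l 16777832))) (c (b (a (l 16779104) (c (b (a (l 16777992) (l 54391729751)) (l 16778560)) (l 16778040))) (c (l 16780328) (l 16780248))) (c (b (a (l 16779016) (l 16778000)) (l 16780168)) (l 16779264)))))) (a (c (b (a (l 16787800) (c (l 16786552) (l 16786488))) (a (l 16792120) (c (l 16790712) (l 16790816)))) (b (l 16777976) (l 16787680))) (b (c (a (c (l 16784912) (l 16784864)) (c (l 16783048) (l 16772488))) (c (a (l 16784832) (l 16782912)) (l 16783768))) (c (a (c (l 16788976) (l 16789064)) (c (l 16787064) (l 16787048))) (a (l 16789288) (l 16787080))))))), by decide +kernel⟩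

def k8_pm_102_s : ∃ t, chk3 f_pm_102_s t 12 7 1 = true :=
  ⟨(b (a (b (a (l 16546792) (b (l 16604176) (l 16590536))) (l 6)) (b (a (b (l 16658120) (a (l 16634448) (b (l 16666872) (l 16663752)))) (b (a (l 16721808) (b (a (l 16722752) (l 16732984)) (l 16724408))) (a (l 16734968) (l 16719048)))) (a (b (a (b (l 16629832) (l 6)) (b (l 16660184) (l 16656048))) (l 6)) (b (a (l 16685744) (l 16714672)) (a (b (l 16682200) (l 6)) (b (l 16713992) (l 16715144))))))) (l 6)), by decide +kernel⟩

def k9_pm_102_s : ∃ t, chk3 f_pm_102_s t 13 14 1 = true :=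
  ⟨(b (a (a (b (b (a (l 16746960) (l 16764800)) (a (l 16748088) (l 16770184))) (a (l 16745544) (l 16772848))) (b (b (l 16790096) (a (l 16790312) (l 16800248))) (b (a (l 16798160) (l 16802856)) (a (l 16788784) (l 16798352))))) (a (b (c (l 16796592) (l 16797384)) (b (l 16781024) (a (b (l 16805112) (l 16803744)) (l 16804824)))) (b (c (a (l 16793944) (c (l 16791776) (l 16791840))) (l 16772272)) (c (a (l 16800656) (l 16798240)) (l 16778752))))) (a (a (b (a (l 16745056) (l 16762208)) (a (b (l 16736568) (l 16726688)) (b (l 16746568) (l 16736520)))) (b (a (l 16772152) (l 16781416)) (a (b (l 16756240) (l 16746000)) (b (l 16765216) (l 16754776))))) (a (b (a (l 16790072) (b (b (l 16805392) (l 16801080)) (l 16792504))) (a (l 16742096) (l 16744544))) (b (b (a (b (l 16805912) (l 16806232)) (l 16804280)) (a (l 16800248) (a (l 16804808) (b (a (l 16807112) (l 16806472)) (l 16805968))))) (a (b (l 16788776) (l 16777760)) (b (l 16796072) (l 16785344))))))), by decide +kernel⟩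

def k10_pm_102_s : ∃ t, chk3 f_pm_102_s t 26 15 1 = true :=
  ⟨(b (a (b (a (b (l 16716976) (l 6)) (b (l 16726616) (l 16716768))) (l 6)) (b (a (b (l 16735896) (l 16725832)) (b (l 16744456) (l 16734168))) (a (b (c (l 16698712) (l 16711840)) (l 6)) (b (c (l 16706592) (l 16720152)) (a (a (l 16689432) (l 16691344)) (a (l 16693208) (l 16695032))))))) (a (l 6) (b (b (a (l 6) (a (l 6) (b (c (l 16711984) (l 16681400)) (l 6)))) (l 6)) (l 6)))), by decide +kernel⟩

def k11_pm_102_s : ∃ t, chk3 f_pm_102_s t 27 15 1 = true :=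
  ⟨(b (a (b (a (b (l 16752360) (l 16720864)) (b (l 16759744) (l 16728344))) (a (b (a (l 16708384) (l 16711920)) (a (c (l 16702160) (l 16693688)) (c (l 16706936) (l 16698664)))) (b (a (l 16716384) (l 16742320)) (l 16710928)))) (b (a (b (l 16767408) (l 16758064)) (b (l 16775704) (l 16745824))) (a (b (l 16728736) (l 16721160)) (c (l 16737384) (l 16730416))))) (b (a (b (a (b (a (c (l 16716752) (l 16686392)) (l 16718024)) (c (l 16716504) (l 16685736))) (c (a (l 16726720) (l 16732136)) (l 16699408))) (b (a (c (l 143821240383799663) (l 143671569342267695)) (c (l 143914011701051759) (l 16694296))) (a (l 6) (c (l 143872917448606063) (l 143717267812516207))))) (c (a (b (l 16739720) (a (l 16731784) (l 16736752))) (a (l 16723072) (l 16727480))) (a (b (l 16710008) (c (l 143860410512900463) (l 16701064))) (b (l 16719424) (a (l 16731848) (l 16736384)))))) (a (a (l 6) (a (l 6) (b (c (l 143836771002368367) (l 143715824700653935)) (l 6)))) (b (a (c (a (l 143881095075791215) (l 143922258052743535))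 (a (l 143714862639284591) (l 143755338421764463))) (c (a (l 143960603530592623) (l 143995719192461679)) (a (l 143792309510324591) (l 143825844624441711)))) (a (a (l 6) (b (c (l 144051862980034927) (l 143695140152820079)) (l 6))) (c (a (b (l 144092682359193967) (c (l 144105807781790063) (l 144015922694275439))) (a (l 143923907329343855) (l 143940193849459055))) (a (b (l 143734997459566959) (c (l 143924319619727727) (a (l 143821583987425647) (l 143840825445826927)))) (b (l 143770181841043823) (c (l 143959916317786479) (l 143867076292854127)))))))))), by decide +kernel⟩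

def k12_pm_102_s : ∃ t, chk3 f_pm_102_s t 14 12 1 = true :=
  ⟨(l 3), by decide +kernel⟩

def k13_pm_102_s : ∃ t, chk3 f_pm_102_s t 28 26 1 = true :=
  ⟨(a (b (l 3) (a (c (b (a (c (b (a (l 119353112759) (l 3)) (a (l 16777800) (c (l 61907921367) (l 16774288)))) (b (l 97341394407) (l 16777240))) (b (l 3) (c (l 145659784215) (l 146733526023)))) (a (c (l 16778832) (l 16778776)) (c (b (a (l 47949279655) (b (l 145659786775) (l 74792824951))) (l 16778200)) (b (l 71571594951) (l 16778152))))) (c (b (a (c (l 75329686487) (l 73719073735)) (l 150491619495)) (a (l 16778712) (b (l 67276627783) (l 16778112)))) (b (l 84993351559) (l 16777864)))) (a (b (l 3) (c (b (c (l 152102233575) (l 153175975367)) (c (a (c (l 56539212775) (l 16774464)) (l 130090530103)) (l 81772140247))) (b (l 154786588071) (c (l 78550915399) (l 16776496))))) (l 3)))) (l 3)), by decide +kernel⟩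

def k14_pm_102_s : ∃ t, chk3 f_pm_102_s t 56 27 1 = true :=
  ⟨(b (a (a (c (c (l 16781568) (l 16781448)) (l 16770808)) (c (b (l 16776872) (l 16781320)) (c (l 16780280) (l 16780176)))) (c (b (a (c (b (a (l 16778264) (l 16775688)) (l 16778880)) (l 16778352)) (b (c (a (b (l 131701143559) (l 54928601879)) (l 152102235927)) (l 92509556455)) (c (a (l 16778040) (b (l 77477179047) (l 16777688))) (l 16777560)))) (c (a (l 16780264) (l 16773880)) (l 16779584))) (c (b (a (l 16778296) (b (l 89288330967) (l 16772288))) (l 16779496)) (b (l 44728042487) (l 16779400))))) (c (a (c (l 16774480) (l 16774344)) (c (b (l 16771096) (l 16783584)) (b (l 16781448) (l 16783440)))) (c (a (l 16784712) (l 16782344)) (l 16783368)))), by decide +kernel⟩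

def k15_pm_102_s : ∃ t, chk3 f_pm_102_s t 57 27 1 = true :=
  ⟨(b (a (a (b (a (b (l 3) (b (l 3) (c (c (l 87677725351) (l 16776768)) (l 81235274039)))) (l 3)) (c (c (b (a (l 16775152) (b (l 127406176695) (l 49559893031))) (l 16778408)) (b (l 52244243207) (l 16778360))) (c (b (l 48486146791) (l 16778312)) (l 16777584)))) (b (l 3) (c (b (c (a (l 141364818071) (l 3)) (l 152639105207)) (c (a (b (c (l 73182212679) (l 16777088)) (l 16777768)) (b (l 154786591543) (c (l 82845887799) (l 81772145975)))) (a (l 16777360) (l 92509559831)))) (c (c (l 116668756567) (l 86067101127)) (l 84993358295))))) (l 3)) (a (c (b (c (a (l 16779808) (b (c (l 16775536) (l 16778136)) (l 16779064))) (a (l 16779712) (l 16778560))) (c (a (l 16781728) (l 16780488)) (l 16780992))) (c (b (a (l 16779624) (l 16778512)) (l 16780896)) (l 16769440))) (b (a (c (b (c (a (b (a (l 82309018391) (l 143512303591)) (l 46875539015)) (b (l 3) (a (l 96267661063) (l 3)))) (a (l 73719080503) (l 137069851079))) (c (a (l 16778184)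 (b (c (l 53854860071) (l 16774584)) (l 16777824))) (l 16775152))) (c (b (c (l 84993364327) (l 82845880983)) (l 36674989351)) (l 50096753815))) (a (b (l 3) (c (c (b (l 151565366407) (a (l 16776016) (l 93583306327))) (l 89825205559)) (c (l 86067109159) (l 16776344)))) (l 3))) (c (a (c (b (l 16778792) (l 16779712)) (l 16779208)) (b (c (a (l 16775296) (b (a (c (l 75866567671) (l 16777064)) (l 139217336615)) (c (l 16777520) (l 16777520)))) (a (l 16777896) (l 71034726119))) (c (l 16775888) (l 16778480)))) (c (a (l 16779160) (c (l 39359341127) (l 16772576))) (l 16773152)))))), by decide +kernel⟩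

def k16_pm_102_s : ∃ t, chk3 f_pm_102_s t 29 13 1 = true :=
  ⟨(b (l 3) (a (b (l 3) (a (b (l 3) (b (b (l 3) (a (a (c (c (a (c (l 91972693879) (l 16775504)) (l 3)) (l 98952013079)) (l 95193916199)) (l 3)) (l 3))) (a (c (c (a (b (c (a (l 16777568) (l 73719084183)) (l 16774672)) (l 16777864)) (b (a (l 137069853095) (l 3)) (c (a (l 16777400) (l 89825210343)) (l 74255953687)))) (a (l 16777544) (l 88751463943))) (c (c (l 68887239639) (l 67276627047)) (l 16776752))) (c (a (c (l 158544685895) (l 159618427703)) (l 3)) (l 162302780039))))) (l 3))) (l 3))), by decide +kernel⟩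

def k17_pm_102_s : ∃ t, chk3 f_pm_102_s t 15 6 1 = true :=
  ⟨(l 3), by decide +kernel⟩

def k18_pm_102_s : ∃ t, chk3 f_pm_102_s t 28 14 1 = true :=
  ⟨(b (a (b (c (a (c (l 16778992) (l 16789392)) (b (c (l 16785704) (l 16785560)) (c (l 16788104) (l 16787968)))) (a (l 16789328) (l 16786624))) (c (a (l 16774608) (c (l 16782304) (l 16792560))) (a (l 16795328) (l 16792288)))) (b (c (a (c (b (l 16783080) (l 16785328)) (b (l 16772488) (l 16785216))) (b (c (a (l 16781136) (l 16779872)) (a (l 16781072) (l 16779840))) (c (l 16772080) (l 16772024)))) (a (b (l 16772360) (l 16785096)) (c (b (l 16780408) (l 16782480)) (l 16781440)))) (c (a (b (c (l 16788104) (l 16787944)) (l 16791288)) (b (c (l 16785160) (l 16785056)) (c (l 16788296) (l 16788096)))) (a (l 16789296) (l 16775944))))) (a (a (b (b (l 16801176) (b (l 16804392) (l 16805456))) (b (b (a (l 16804568) (l 16806368)) (l 16800512)) (l 16792784))) (b (c (l 16800496) (l 16799552)) (b (b (l 16804728) (a (l 16805568) (l 16805640)))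 (l 16799528)))) (b (b (c (a (l 16795008) (l 16781176)) (l 16771680)) (a (l 16798608) (l 16774104))) (b (a (l 16802880) (l 16799128)) (a (b (a (l 16805392) (l 16804536)) (l 16782120)) (b (l 16802368) (a (l 16804424) (l 16803416)))))))), by decide +kernel⟩

def k19_pm_102_s : ∃ t, chk3 f_pm_102_s t 116 56 1 = true :=
  ⟨(b (c (a (c (b (c (l 16775608) (l 16778224)) (l 16779112)) (l 16778648)) (b (a (c (b (c (a (l 52244247863) (l 135996111367)) (l 86067112375)) (c (l 16774944) (l 16777568))) (l 51707373431)) (b (l 3) (c (a (b (l 138680466279) (l 51707377655)) (l 158007817799)) (l 96267658551)))) (c (a (l 16778232) (b (c (a (l 16777592) (l 50633635191)) (l 16776040)) (l 16777880))) (l 16774608)))) (a (c (l 16773408) (l 16778648)) (c (a (c (l 39896212647) (l 16772320)) (b (l 102173234663) (l 16772352))) (b (l 79087783975) (l 16777896))))) (c (c (a (l 16780600) (c (l 16776744) (l 16779360))) (a (l 16780584) (l 16779360))) (c (a (l 16780584) (l 16779368)) (l 16779992)))), by decide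 +kernel⟩

def k20_pm_102_s : ∃ t, chk3 f_pm_102_s t 117 56 1 = true :=
  ⟨(a (b (b (l 3) (c (a (c (b (a (c (l 134922369639) (l 103783853127)) (l 3)) (a (l 40969959879) (c (b (l 137069853623) (l 16775888)) (l 86067114103)))) (b (l 109152559351) (l 16774448))) (c (b (l 3) (l 158544687671)) (l 160692169623))) (c (c (l 125258691223) (l 93583297079)) (l 92509554743)))) (c (b (c (a (c (l 16777968) (l 16777968)) (b (a (c (b (l 81772148327) (l 16777432)) (l 16774576)) (c (b (l 3) (l 93583307815)) (l 102710111367))) (c (l 16776288) (l 16777600)))) (a (l 16777976) (b (l 82845886679) (l 16777608)))) (c (c (l 16778600) (l 16778608)) (l 16778608))) (c (b (c (l 40969954711) (l 16772200)) (l 16778624)) (l 16772736)))) (b (l 3) (b (a (b (l 3) (c (c (a (c (b (l 135996111879) (l 16776560)) (l 84993372167)) (l 155860334279)) (l 95193916679)) (c (l 91435820279) (l 16776448)))) (l 3)) (c (a (c (b (c (a (l 16777616) (b (l 80698406535) (l 16777440))) (l 43654313271)) (l 16777912)) (l 16775016))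 (c (b (a (b (l 3) (c (l 92509566039) (l 16775632))) (l 3)) (a (c (l 16777464) (l 16777472)) (c (b (l 134922370087) (l 47412410823)) (l 84456501271)))) (b (l 137606723191) (l 49023020695)))) (c (a (l 16775024) (c (l 83382755015) (l 81235271687))) (l 64592271399)))))), by decide +kernel⟩

def k21_pm_102_s : ∃ t, chk3 f_pm_102_s t 58 57 1 = true :=
  ⟨(a (c (c (b (a (l 16783048) (l 16781632)) (l 16779848)) (b (a (l 16782984) (l 16781600)) (l 16779752))) (c (b (l 16782256) (l 16784912)) (l 16783552))) (c (b (a (c (b (l 16779624) (l 16780736)) (l 16780184)) (c (b (c (a (l 16778608) (l 16777992)) (l 16778304)) (l 16776672)) (l 16773576))) (c (a (l 16782624) (l 16775760)) (a (l 16782608) (l 16770552)))) (c (b (a (l 16780200) (c (l 16778848) (l 16778864))) (a (l 16782616) (l 16781088))) (b (l 16779560) (l 16781896))))), by decide +kernel⟩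

def k22_pm_102_s : ∃ t, chk3 f_pm_102_s t 59 56 1 = true :=
  ⟨(a (b (l 3) (b (l 3) (b (l 3) (a (a (a (c (c (l 149954754279) (l 126869301111)) (l 126869300759)) (l 3)) (l 3)) (l 3))))) (l 3)), by decide +kernel⟩

def k23_pm_102_s : ∃ t, chk3 f_pm_102_s t 118 57 1 = true :=
  ⟨(b (b (a (b (a (c (c (a (a (l 39896218391) (b (l 94657050439) (l 16777384))) (a (b (l 3) (l 77477182535)) (l 147807271207))) (l 82309015719)) (c (l 77477177591) (l 16776880))) (l 3)) (c (a (c (c (l 16776312) (l 16777632)) (l 16777640)) (c (a (c (b (l 134385499191) (l 46875539927)) (l 84456502583)) (b (l 3) (l 146733529671))) (l 95193916551))) (c (a (l 16777656) (l 91435820311)) (l 16771648)))) (l 3)) (a (c (c (a (l 16778328) (a (l 16776888) (b (c (b (a (l 16777296) (l 94657050455)) (l 16777464)) (l 45801797111)) (l 16777800)))) (a (l 16778352) (l 16775056))) (c (a (l 16778392) (l 33453765079)) (l 16778056))) (c (a (c (b (a (b (l 166597752855) (c (a (l 50633636279) (l 141901692023)) (l 90898953335)))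 (l 3)) (a (c (l 16776184) (l 16777496)) (c (b (a (l 95193921367) (l 166597753431)) (a (l 16777400) (l 78014052631))) (b (l 104320725335) (l 16777248))))) (b (l 138143594087) (a (l 16777504) (l 82845888039)))) (b (l 3) (b (l 3) (c (c (l 158007818295) (l 158007817623)) (l 158544688519))))) (c (a (c (l 83919625607) (l 81772141943)) (l 164450265879)) (l 123648078407))))) (c (a (c (b (c (l 16779000) (l 16779016)) (l 16774856)) (b (l 16779048) (l 16780152))) (b (a (c (c (a (l 16778200) (l 16777880)) (l 16778048)) (l 16778072)) (c (b (a (c (b (a (l 16777296) (l 95730792279)) (l 16777464)) (l 45264926199)) (b (l 167671494647) (c (a (l 50096765367) (l 142975433831)) (l 91435824231)))) (c (a (l 16777800) (l 16776832)) (l 16777648))) (b (a (l 16777248) (l 101099498263)) (l 16777656)))) (c (a (l 16779008) (c (l 16778328) (l 16778352))) (l 16778720)))) (a (c (c (l 16779640) (l 16779680)) (l 16779736)) (c (b (a (l 16778104) (c (l 44191180711) (l 16774512))) (l 16778784)) (b (l 16772320)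 (l 16778856)))))), by decide +kernel⟩

def k24_pm_102_s : ∃ t, chk3 f_pm_102_s t 119 57 1 = true :=
  ⟨(b (l 3) (b (b (l 3) (a (a (c (c (a (b (c (a (l 95730792263) (l 3)) (l 104857596311)) (c (a (l 16777392) (l 79087794615)) (l 16777240))) (b (l 3) (c (l 148344142359) (l 147270400519)))) (a (l 83382759271) (l 151028496007))) (c (c (l 93583303991) (l 16773824)) (l 16776440))) (l 3)) (l 3))) (a (c (a (c (b (a (l 16777648) (b (c (a (l 16777288) (l 96267663815)) (l 79624664567)) (l 16777456))) (l 16777936)) (b (l 16776112) (l 16777976))) (b (c (a (b (l 3) (c (a (b (l 94657051079) (l 16777288)) (l 144049175623)) (l 92509565927))) (l 3)) (l 139754206727)) (c (a (c (l 38285605799) (l 16777480)) (b (c (a (b (l 151565368551) (l 83382762215)) (l 3)) (l 105931337991)) (c (a (l 16777384) (b (l 95730792887) (l 16777280))) (l 16775920)))) (a (l 16777496) (l 83919630151))))) (c (a (c (l 16777704) (l 16777720)) (c (l 84993369959) (l 82845883687))) (a (l 16777744) (l 81235270615)))) (a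 (a (b (l 3) (c (c (b (l 3) (c (l 150491625927) (l 149954755015))) (l 153175979575)) (l 129016784087))) (l 3)) (l 3))))), by decide +kernel⟩

def k25_pm_102_s : ∃ t, chk3 f_pm_102_s t 58 29 1 = true :=
  ⟨(b (a (c (b (c (l 16777816) (l 16788128)) (c (l 16791848) (l 16791592))) (b (l 16787896) (l 16791232))) (c (b (c (a (l 16785480) (l 16783624)) (a (l 16785432) (l 16783656))) (a (l 16783408) (c (l 16786440) (l 16786488)))) (b (a (l 16785400) (l 16783736)) (l 16766560)))) (a (c (b (l 16795528) (l 16799408)) (b (l 16794880) (l 16798696))) (c (b (c (l 16780144) (l 16790640)) (l 16793832)) (c (l 16771408) (l 16771512))))), by decide +kernel⟩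

def k26_pm_102_s : ∃ t, chk3 f_pm_102_s t 59 58 1 = true :=
  ⟨(a (c (b (c (a (l 16771352) (c (l 16777560) (l 16769744))) (a (l 16776688) (b (l 16779760) (l 16780864)))) (c (a (l 16784320) (l 16782464)) (a (l 16784472) (l 16772184)))) (b (c (a (l 16782040) (l 16780448)) (l 16781360)) (c (l 16773256) (l 16763008)))) (b (a (c (c (b (c (a (l 16778616) (l 16776680)) (l 16775704)) (c (l 16773992) (l 16779296))) (b (l 16778376) (l 16779384))) (c (b (l 16775824) (l 16779520)) (l 16779096))) (c (b (a (c (b (b (a (c (a (l 16776616) (b (l 153712852167) (l 84993374935))) (l 81235277271)) (l 3)) (a (l 16776792) (c (a (b (l 97341405591) (l 16777272)) (l 145659788279)) (l 94120178535)))) (c (a (l 16777760) (b (l 39359347527) (l 16777584))) (l 16776304))) (b (a (l 16774600) (l 103246981703)) (l 16777640))) (b (l 3) (c (a (b (c (a (b (l 156397206679) (l 86067116663)) (l 3)) (l 137069853607)) (c (a (l 16777368) (b (l 98952018295) (l 16777264))) (l 44728055879))) (b (l 3) (c (l 153712851303)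 (l 153175980391)))) (a (l 84993371927) (l 163376526791))))) (a (c (c (l 16778272) (l 16778312)) (l 16778368)) (c (b (a (l 16776968) (b (c (a (l 43117444055) (b (l 160155303015) (l 87677729399))) (l 82845891095)) (c (l 16777432) (l 16777440)))) (c (l 16777896) (l 16777920))) (b (a (l 16777656) (l 16775720)) (l 16777968))))) (b (a (c (c (b (l 16774216) (l 16777664)) (l 42043696855)) (l 16771880)) (c (c (l 134922367639) (l 133311754887)) (l 132774883959))) (c (a (l 16778456) (c (l 16775064) (l 16777712))) (l 16778128))))) (c (c (a (b (l 16769808) (l 16781392)) (b (c (a (l 16779216) (l 16773328)) (l 16778944)) (l 16774680))) (a (c (l 16781000) (l 16781104)) (b (l 16779040) (l 16780120)))) (c (a (l 16770792) (c (l 16779712) (l 16779808))) (l 16770240))))), by decide +kernel⟩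

def k27_pm_102_s : ∃ t, chk3 f_pm_102_s t 59 59 1 = true :=
  ⟨(a (c (a (b (c (l 16787016) (l 16787248)) (l 16790104)) (b (c (l 16774496) (l 16785288)) (l 16777472))) (b (l 16776224) (l 16768880))) (c (b (a (c (l 16777944) (l 16773024)) (c (l 16776336) (b (l 16770784) (l 16782496)))) (a (c (l 16775328) (l 16786264)) (c (b (l 16783392) (l 16784704)) (l 16784504)))) (b (a (l 16784064) (b (l 16771232) (l 16783072))) (c (l 16764888) (l 16765448))))), by decide +kernel⟩

def k28_pm_102_s : ∃ t, chk3 f_pm_102_s t 14 30 1 = true :=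
  ⟨(a (a (b (a (b (l 16783256) (l 16753568)) (c (l 16787624) (l 16783488))) (a (b (l 16745600) (l 16738424)) (b (l 16752640) (l 16745592)))) (b (a (b (l 16795816) (l 16787424)) (b (a (l 16799752) (b (l 16793464) (l 16799744))) (l 16792136))) (a (b (l 16758624) (l 16751320)) (b (l 16763032) (l 16755672))))) (b (a (b (b (a (a (l 16802472) (l 16800552)) (l 16775536)) (a (a (l 16801672) (b (l 16801360) (l 16801440))) (a (l 16799176) (l 16796992)))) (a (l 16795384) (b (a (b (l 16799968) (l 16798384)) (b (l 16798288) (l 16777480))) (c (l 16775088) (l 16796416))))) (a (b (c (l 16771120) (l 16772272)) (a (b (l 16796344) (b (l 16797048) (l 16797032))) (c (l 16783072) (l 16784664)))) (b (c (a (l 16788952) (c (l 16776296) (l 16787400))) (a (l 16790296) (l 16788424))) (c (b (l 16790272) (l 16770888)) (a (l 16793808) (l 16791864)))))) (a (a (b (l 16766400) (l 16759264)) (b (c (l 16790288) (l 16790088)) (b (l 16763904) (l 16760664)))) (b (a (a (l 16792208) (b (b (c (l 16774352) (l 16797056))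 (l 16794512)) (l 16791856))) (b (a (a (b (l 16795384) (l 16795608)) (l 16794480)) (l 16793528)) (a (l 16793496) (b (c (l 16772216) (l 16784888)) (a (l 16793520) (l 16794336)))))) (a (c (l 16785968) (l 16786424)) (c (l 16788456) (l 16789912))))))), by decide +kernel⟩

def k29_pm_102_s : ∃ t, chk3 f_pm_102_s t 14 31 1 = true :=
  ⟨(a (b (a (a (c (a (l 16731624) (l 16735368)) (b (l 16748824) (l 16721696))) (b (b (l 16740720) (l 16737616)) (c (l 16758368) (l 16728992)))) (a (b (l 16744632) (c (l 16763328) (l 16756240))) (b (l 16749192) (c (l 16767376) (l 16761776))))) (a (b (a (c (a (l 144025337295176047) (l 16749024)) (a (l 143855394008154479) (l 143882881806811503))) (c (b (l 16754688) (l 16752528)) (a (l 16742800) (l 16746240)))) (a (c (a (l 143962046648828271) (l 143986442070262127)) (a (b (l 143800762016727407) (c (l 143991802163413359) (l 143899855492039023))) (a (l 143806465737179503) (l 143821584026009967)))) (a (c (l 144007195358871919) (a (l 143836152558928239) (l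 143850102616441199))) (c (l 144024993709424943) (l 143869962550624623))))) (a (b (c (l 144093438323720495) (a (l 16749488) (l 16752544))) (a (c (l 144040043280417071) (l 143894564130177327)) (c (l 16756440) (l 143916966686097711)))) (b (c (l 144105807838314799) (a (l 16755424) (l 16758120))) (a (c (l 16758704) (l 143937307657322799)) (c (l 16760752) (l 143955655763345711))))))) (a (b (a (b (l 16762176) (c (l 16770624) (l 16745648))) (b (b (l 16757632) (l 16754832)) (c (l 16773240) (l 16749880)))) (b (a (c (l 16766544) (a (l 16760648) (l 16763000))) (c (l 16769384) (l 16745280))) (a (a (c (l 16762600) (l 143971942284706095)) (c (l 16764264) (l 143986304660373807))) (c (a (l 16765752) (l 16767224)) (a (l 143998880329302319) (l 16763712)))))) (b (a (b (c (l 16780480) (l 16759216)) (c (l 16775896) (l 16753872))) (b (c (l 16783160) (l 16773352)) (c (l 16778752) (l 16757688)))) (a (b (c (l 16772240) (l 16749448)) (c (b (l 16770120) (l 16769016)) (b (l 16767728) (l 16766232))))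 (b (c (l 16775272) (l 16753424)) (c (b (l 16773296) (l 16772280)) (b (l 16771824) (l 16770408)))))))), by decide +kernel⟩

def k30_pm_102_s : ∃ t, chk3 f_pm_102_s t 30 28 1 = true :=
  ⟨(l 3), by decide +kernel⟩

def k31_pm_102_s : ∃ t, chk3 f_pm_102_s t 120 116 1 = true :=
  ⟨(a (b (l 3) (a (c (b (c (a (b (l 3) (a (c (b (l 101099501815) (l 16777256)) (l 16776432)) (a (l 145659788487) (l 3)))) (l 3)) (l 141901690151)) (c (a (c (b (a (l 16777432) (b (l 47412411271) (l 16777344))) (l 16777568)) (l 16776144)) (a (b (c (b (l 167671495719) (l 89825213591)) (l 101099501031)) (l 36138122743)) (b (l 3) (c (b (l 103246985415) (l 16776584)) (l 83919632359))))) (a (l 16777472) (l 87140856631)))) (c (b (l 138680464647) (c (l 16774440) (l 16774456))) (l 83382753767))) (a (b (l 3) (b (l 3) (c (c (c (l 158544689399) (l 157470947559)) (l 162839656663)) (l 129016785911)))) (l 3)))) (l 3)), by decide +kernel⟩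

def k32_pm_102_s : ∃ t, chk3 f_pm_102_s t 240 117 1 = true :=
  ⟨(c (b (a (c (c (a (l 16778112) (l 16776512)) (l 16778000)) (l 16778048)) (b (c (a (b (c (a (b (l 79624666535) (l 16777336)) (b (l 170355850215) (c (l 92509568119) (l 16776432)))) (a (l 16777232) (l 102710113703))) (c (l 16776768) (l 16777432))) (b (l 3) (c (a (b (l 135996112391) (l 44728057063)) (l 156934077207)) (a (l 85530245111) (l 156397206295))))) (a (l 44191183575) (l 136532982119))) (c (a (l 16777752) (c (b (a (l 16777424) (b (c (l 82309021047) (l 16776480)) (l 16777336))) (l 16777560)) (l 37211863559))) (l 16775000)))) (c (a (l 16776296) (c (l 16778264) (l 16778312))) (l 16778720))) (c (b (a (l 16778120) (b (c (l 83382757287) (l 81235273639)) (l 16776352))) (c (l 16778816) (l 16778888))) (b (a (l 16778208) (l 39896212151)) (l 16779000)))), by decide +kernel⟩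

def k33_pm_102_s : ∃ t, chk3 f_pm_102_s t 241 117 1 = true :=
  ⟨(a (b (b (l 3) (c (c (c (a (b (a (a (b (l 3) (l 81235278951)) (l 155860335655)) (l 3)) (a (l 16776680) (b (l 138680466887) (a (l 16777296) (l 84456504407))))) (b (l 3) (l 166597752903))) (a (b (l 141901691575) (a (l 16777344) (l 87677728711))) (l 169818977447))) (a (b (l 110763175719) (l 16775840)) (l 170355848327))) (c (c (l 98415141383) (l 96267657895)) (l 95193915719)))) (c (c (b (a (c (l 16777592) (l 16777616)) (b (c (a (a (l 16776640) (b (l 101636373239) (l 16777288))) (a (b (l 3) (l 87140858951)) (l 161229044695))) (a (l 16776544) (l 107005080791))) (c (a (l 16777488) (l 16776832)) (l 16777408)))) (c (l 16777888) (l 16777920))) (b (a (l 16777640) (b (l 86067114871) (l 16777424))) (l 16777968))) (c (c (b (l 16774744) (l 16778024)) (l 16775064)) (l 16777728)))) (b (l 3) (b (a (c (c (b (l 3) (a (c (b (l 141901692279) (a (l 16777280) (l 87677729703))) (l 90362083047)) (l 168208366183))) (l 139217336519))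 (c (l 105931335703) (l 16776272))) (l 3)) (c (c (b (a (a (l 16777416) (b (c (a (l 16776888) (l 106468211367)) (l 16776456)) (l 35064380999))) (a (c (b (l 3) (a (l 90362084231) (l 163376528727))) (l 109689435191)) (l 3))) (a (l 16777560) (c (a (b (l 41506831639) (l 16777384)) (b (l 146733530407) (a (l 16777272) (l 92509567847)))) (a (l 16777320) (l 92509566631))))) (a (l 16774808) (b (l 146196658695) (l 75866567911)))) (c (c (l 72645339895) (l 69960985351)) (l 16774376)))))), by decide +kernel⟩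

def k34_pm_102_s : ∃ t, chk3 f_pm_102_s t 121 58 1 = true :=
  ⟨(b (l 3) (a (a (a (b (l 3) (b (l 3) (c (c (b (l 3) (a (l 171429591559) (l 3))) (l 173577073591)) (l 174650815367)))) (l 3)) (l 3)) (l 3))), by decide +kernel⟩

def k35_pm_102_s : ∃ t, chk3 f_pm_102_s t 120 59 1 = true :=
  ⟨(b (c (a (c (b (c (l 16774304) (l 16769152)) (l 16770184)) (b (l 16774552) (l 16780952))) (c (b (a (c (l 16775960) (l 16773400)) (c (b (l 16777080) (l 16775568)) (l 16776688))) (a (l 16774384) (l 16776992))) (b (a (l 16778744) (l 16778056)) (l 16776864)))) (c (a (c (l 16780568) (l 16780712)) (b (c (l 16775864) (l 16778544)) (l 16779696))) (a (l 16780928) (l 16774040)))) (c (a (c (c (l 16771880) (l 16772072)) (b (l 16771704) (l 16783520))) (c (a (l 16770856) (l 16776688)) (b (l 16775416) (l 16776688)))) (c (a (l 16783304) (b (l 16780976) (l 16782336))) (l 16775048)))), by decide +kernel⟩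

def k36_pm_102_s : ∃ t, chk3 f_pm_102_s t 242 118 1 = true :=
  ⟨(a (b (c (b (c (a (b (c (a (b (a (l 45264927895) (l 111836920327)) (l 16777304)) (b (l 3) (a (l 95193922375) (l 172503334119)))) (a (l 45264926999) (l 142975433767))) (c (a (l 16777472) (b (a (l 16777304) (l 46875540615)) (l 16777376))) (l 16776072))) (b (l 3) (a (c (b (l 153175981255) (a (l 16777248) (l 97878277559))) (l 95193921111)) (l 3)))) (a (b (l 89825210951) (l 16777400)) (l 142438561799))) (b (c (a (l 16777632) (c (a (l 16777392) (b (a (l 83382763255) (l 150491626967)) (l 16776952))) (a (l 16777400) (l 79087795559)))) (l 36138120775)) (c (c (l 16777696) (l 16777720)) (l 16777752)))) (c (b (c (l 87677726679) (l 85530240407)) (c (l 16777616) (l 16777640))) (b (l 84456498263) (l 16777672)))) (c (c (c (b (l 16778040) (l 16778520)) (l 16778336)) (l 16778416)) (c (l 16778536) (l 16778672)))) (b (a (b (l 3) (c (c (b (a (c (b (l 3) (a (c (l 101099502327) (l 100562631415)) (l 3))) (l 147807271879)) (l 3))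 (c (a (a (l 16777352) (a (l 37748735303) (b (l 95193922583) (l 16777312)))) (b (l 160155302999) (c (a (l 16776896) (l 104320727751)) (l 86067116647)))) (a (l 16775968) (l 98415147735)))) (b (l 153175980343) (l 79624664167))) (c (c (l 92509563863) (l 89825209303)) (l 16776680)))) (l 3)) (c (b (c (a (c (b (l 16776808) (l 16777688)) (l 16777592)) (a (b (c (a (b (a (l 44728057159) (l 98952018935)) (l 16777328)) (b (l 160692174183) (l 43117444391))) (b (l 98952018071) (l 16777264))) (l 16777464)) (b (b (l 3) (b (l 3) (c (l 139754208791) (l 108615694743)))) (b (c (a (l 16777280) (a (l 81772150055) (l 102710115271))) (l 16776520)) (l 16777360))))) (a (l 16777624) (b (l 94120178071) (l 16777368)))) (c (c (l 16777232) (l 16777920)) (l 16777976))) (c (b (c (l 37211860631) (l 35064377015)) (l 16778056)) (l 16775064))))), by decide +kernel⟩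

def k37_pm_102_s : ∃ t, chk3 f_pm_102_s t 243 118 1 = true :=
  ⟨(b (l 3) (a (a (c (b (c (b (l 3) (a (b (l 171429592039) (c (a (a (l 16777248) (l 82845891783)) (l 140291079735)) (l 89825212823))) (l 3))) (l 148344141591)) (c (b (c (a (l 16777040) (b (a (a (l 84993375415) (l 107005082503)) (l 173577075959)) (a (l 16777312) (a (l 16777240) (l 87140858983))))) (a (l 16777376) (b (l 103783856183) (l 16777240)))) (c (l 16777528) (l 16777544))) (b (l 42043700791) (l 16777568)))) (c (b (l 146196657927) (c (l 16777368) (l 16777384))) (l 80161535399))) (b (l 3) (c (c (b (a (c (b (l 3) (l 153712852167)) (l 158544689879)) (l 3)) (a (b (c (a (l 16776928) (a (l 89288343271) (l 111300049751))) (l 80161536679)) (l 16777024)) (b (l 3) (c (a (a (l 16776896) (l 91435826903)) (l 151565368775)) (l 94657050855))))) (b (l 167134623799) (l 84456503303))) (c (c (l 95730788967) (l 94120176231)) (l 16773952))))) (l 3))), by decide +kernel⟩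

def k38_pm_102_s : ∃ t, chk3 f_pm_102_s t 121 119 1 = true :=
  ⟨(a (c (c (b (a (l 16776720) (c (l 16776992) (l 16773456))) (c (l 16774808) (l 16769696))) (b (a (l 16779544) (l 16778808)) (c (l 16769832) (l 16780456)))) (c (b (c (l 16779320) (l 16779416)) (l 16775440)) (l 16769808))) (b (c (a (a (c (c (l 16776864) (l 16778184)) (l 16778256)) (c (b (c (b (a (l 16777528) (b (a (l 16777344) (l 39359348135)) (l 16777424))) (l 16777680)) (l 16776592)) (l 16776768)) (l 16776568))) (b (a (c (b (a (c (b (a (b (l 164987141655) (l 88214600967)) (l 3)) (a (l 16777304) (b (l 102710115303) (l 16777232)))) (b (l 108615694279) (l 16776552))) (c (b (l 3) (l 162302786631)) (l 164987140695))) (b (a (l 16777384) (c (a (c (l 41506831751) (l 16777224)) (b (l 174113947079) (l 93583309959))) (l 85530245671))) (c (l 16776760) (l 16777424)))) (b (c (l 99488886983) (l 98415145159)) (l 16776000))) (c (b (l 3) (a (b (l 3) (a (c (b (l 107541953447) (l 16776888)) (l 16777136)) (l 162839657799))) (l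 3))) (l 154786592263))) (c (a (c (l 16777720) (l 16777752)) (b (a (a (l 16777072) (b (b (c (l 84993375511) (l 16777168)) (l 16777280)) (l 16777376))) (c (a (b (b (l 3) (l 98952019031)) (l 16776624)) (b (l 3) (b (l 112910662503) (l 44191186343)))) (b (l 113984403271) (l 43654314711)))) (c (l 16777512) (l 16777528)))) (a (l 16777792) (b (a (l 16777352) (l 90898953719)) (l 16777552)))))) (c (a (c (l 16775512) (l 16778176)) (b (a (c (l 78014050263) (l 16774984)) (l 153175979495)) (c (l 30769410871) (l 16774944)))) (a (l 16778248) (b (l 90362077559) (l 16777600))))) (c (c (a (c (l 16776392) (l 16773856)) (c (b (l 16777408) (l 16775968)) (l 16777072))) (a (l 16773992) (l 16778464))) (c (c (l 16776344) (l 16779056)) (l 16779184))))), by decide +kernel⟩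

def k39_pm_102_s : ∃ t, chk3 f_pm_102_s t 61 58 1 = true :=
  ⟨(l 3), by decide +kernel⟩

def k40_pm_102_s : ∃ t, chk3 f_pm_102_s t 122 118 1 = true :=
  ⟨(l 3), by decide +kernel⟩

def k41_pm_102_s : ∃ t, chk3 f_pm_102_s t 244 238 1 = true :=
  ⟨(b (l 3) (a (a (c (c (b (a (c (l 173577075143) (l 174650816967)) (l 3)) (a (c (b (a (c (b (l 90362084599) (l 16777264)) (l 16777192)) (c (l 144586046999) (l 111836920295))) (l 34527509991)) (b (l 90898954535) (l 16777320))) (c (b (l 3) (a (c (b (l 154786594391) (l 81772150135)) (l 95730793255)) (l 3))) (l 146196659191)))) (b (l 175724558087) (a (l 16775848) (l 111300047607)))) (c (c (l 100025756007) (l 98415143271)) (l 97878272103))) (l 3)) (l 3))), by decide +kernel⟩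

def k42_pm_102_s : ∃ t, chk3 f_pm_102_s t 244 478 1 = true :=
  ⟨(a (c (a (c (a (c (l 16777632) (l 16777656)) (b (c (b (a (l 16777320) (c (b (l 96267664503) (l 16777256)) (l 16776840))) (l 16777400)) (l 36138122151)) (l 16777600))) (l 16776264)) (c (b (a (c (b (a (l 151028497879) (l 3)) (a (c (l 38285606327) (l 16777248)) (a (b (l 121500597463) (l 16777224)) (l 149417885271)))) (b (l 156934077559) (l 82309020215))) (l 3)) (a (c (l 16776760) (l 16777424)) (c (b (a (c (b (l 101636373559) (l 16776912)) (l 83919633479)) (l 157470948743)) (a (l 16777352) (a (l 16777280) (b (l 93583310247) (l 16777272))))) (b (l 96804534455) (l 16777288))))) (b (l 137069853527) (a (l 16777440) (l 78550923143))))) (c (a (l 16776304) (c (l 82845888071) (l 80161533431))) (l 34527504887))) (a (a (a (b (l 3) (b (l 3) (c (c (b (l 174650817991) (a (a (l 16777232) (l 86603988535)) (l 113447533767))) (l 16777024)) (l 98415147447)))) (l 3)) (l 3)) (l 3))), by decide +kernel⟩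

def k43_pm_102_s : ∃ t, chk3 f_pm_102_s t 244 479 1 = true :=
  ⟨(c (a (c (c (c (l 16777224) (l 16776592)) (l 16776616)) (l 16777976)) (b (a (b (c (a (c (a (l 16777296) (b (l 107541953447) (l 40433090007))) (l 42580573015)) (c (l 167671495655) (l 167671495655))) (l 93046436919)) (c (a (l 16777064) (c (a (a (l 16777264) (b (l 102173244775) (l 16777256))) (a (b (l 3) (l 86603988439)) (l 166597754295))) (l 88214600679))) (l 16776232))) (l 3)) (a (c (c (a (l 16777576) (c (l 31843155511) (l 16777400))) (l 16776192)) (l 16777520)) (c (a (c (b (a (b (l 147807272599) (a (l 16777256) (l 90898955703))) (l 174113946855)) (a (l 16777328) (a (l 37748735575) (b (l 110763179223) (l 16777248))))) (b (l 102710114359) (l 16776600))) (b (l 3) (a (a (b (l 3) (b (l 116668759367) (l 80161537655))) (l 3)) (l 3)))) (a (l 82845890359) (l 159618431671)))))) (a (c (l 16775432) (l 16778136)) (a (c (c (l 16775928) (l 16774624)) (l 16777264)) (c (c (l 136532981991) (l 103246981191)) (l 102710109847))))),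 by decide +kernel⟩

def k44_pm_102_s : ∃ t, chk3 f_pm_102_s t 245 119 1 = true :=
  ⟨(l 3), by decide +kernel⟩

def k45_pm_102_s : ∃ t, chk3 f_pm_102_s t 123 59 1 = true :=
  ⟨(l 3), by decide +kernel⟩

def k46_pm_102_s : ∃ t, chk3 f_pm_102_s t 31 14 1 = true :=
  ⟨(l 3), by decide +kernel⟩

def k47_pm_102_s : ∃ t, chk3 f_pm_102_s t 60 30 1 = true :=
  ⟨(b (a (a (b (c (c (b (l 16784384) (l 16785760)) (l 16775160)) (l 16765640)) (b (l 16777792) (l 16779424))) (b (c (c (a (l 16778616) (l 16777832)) (c (l 16773360) (l 16773624))) (l 16774344)) (c (b (l 16775336) (l 16787312)) (l 16777624)))) (b (c (a (c (b (l 16770824) (l 16777328)) (b (l 16779056) (l 16772552))) (c (b (a (l 16774968) (l 16776856)) (l 16775808)) (b (c (l 16769536) (l 16774912)) (c (l 16770824) (l 16771008))))) (c (a (l 16777560) (b (c (l 16769800) (l 16780432)) (l 16771296))) (a (l 16783296) (l 16770928)))) (c (a (b (c (l 16773416) (l 16784464)) (c (l 16785296) (l 16785968))) (c (b (l 16777088) (l 16778456))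 (b (l 16777544) (l 16773776)))) (a (b (l 16785416) (l 16787096)) (c (l 16773592) (l 16774200)))))) (a (b (a (b (l 16791616) (c (l 16791704) (l 16783440))) (c (l 16779200) (l 16781216))) (b (a (b (a (l 16793360) (c (l 16792616) (l 16794936))) (l 16792072)) (a (b (l 16793064) (l 16793264)) (c (l 16780752) (l 16785664)))) (a (l 16789840) (l 16791216)))) (b (a (c (l 16777472) (l 16779296)) (c (b (c (l 16785144) (l 16785816)) (l 16787064)) (b (l 16786936) (l 16788768)))) (b (a (c (l 16790360) (l 16792544)) (c (l 16788752) (l 16790696))) (a (b (a (c (l 16781200) (l 16793992)) (l 16781664)) (a (l 16791496) (l 16792304))) (b (l 16791096) (a (b (l 16792064) (l 16792328)) (l 16791456)))))))), by decide +kernel⟩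

def k48_pm_102_s : ∃ t, chk3 f_pm_102_s t 244 120 1 = true :=
  ⟨(c (b (a (c (c (b (l 16777120) (l 16778984)) (l 16778776)) (l 16778888)) (b (c (a (c (l 16777888) (l 16777920)) (a (c (l 16776304) (l 16777632)) (b (c (b (a (c (l 38285606519) (l 16777264)) (a (b (l 115595017399) (l 16777232)) (l 144049176199))) (l 16777368)) (b (l 80161537255) (l 16777376))) (l 16777248)))) (a (l 16777968) (b (l 16776384) (l 16777712)))) (c (c (a (l 16778440) (l 16775448)) (l 16778304)) (l 16778384)))) (c (a (l 16774672) (c (l 16777800) (l 16773960))) (c (l 16779704) (l 16777192)))) (c (b (a (l 16776424) (c (b (l 16775160) (l 16778464)) (l 16775536))) (c (l 16779936) (l 16780056))) (b (a (l 16779224) (l 16772984)) (l 16780248)))), by decide +kernel⟩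

def k49_pm_102_s : ∃ t, chk3 f_pm_102_s t 245 240 1 = true :=
  ⟨(b (a (c (a (c (b (a (b (l 3) (c (a (b (a (l 83919633879) (l 119889984647)) (l 16776928)) (b (l 3) (l 145122918055))) (a (l 16776512) (l 116668758327)))) (l 3)) (a (c (a (l 16777432) (a (l 16777360) (b (b (l 88214601159) (l 16777280)) (l 16777384)))) (l 16776728)) (c (a (b (a (b (l 124721822823) (l 16776888)) (l 153712852535)) (l 16777312)) (b (l 3) (b (a (l 93046439335) (l 126869306423)) (l 38822477367)))) (b (l 109152565159) (l 40433089399))))) (b (l 145659787815) (a (l 16777392) (l 87677728327)))) (c (b (l 3) (a (b (l 3) (c (a (l 161765915991) (l 3)) (l 165524012023))) (l 3))) (l 176261428039))) (c (a (c (l 87677725879) (l 85530242231)) (l 177872040743)) (l 130090530679))) (l 3)) (a (c (a (c (c (l 16777040) (l 16777720)) (l 16777760)) (c (b (a (c (b (a (a (l 16777280) (b (l 97341406599) (l 16777272))) (a (b (l 3) (l 82309021159)) (l 162839657943))) (l 16777016)) (b (c (l 86603987479) (l 86067116567)) (l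 16777352))) (b (l 3) (a (c (b (l 144049176247) (a (l 16777264) (l 86603988439))) (l 89288342391)) (l 169818979591)))) (c (a (l 16777552) (a (l 16777408) (b (a (l 16777016) (b (l 107005082871) (l 16777256))) (l 16777384)))) (a (l 16777568) (l 33990638743)))) (b (a (l 16776544) (l 108615693111)) (l 16777472)))) (c (a (l 16777808) (c (l 37748732247) (l 35601248615))) (l 16774848))) (b (l 3) (a (a (c (c (b (a (a (b (l 3) (b (l 111300050359) (l 40969961143))) (l 173040205191)) (l 3)) (c (a (c (l 36138122903) (l 16777280)) (b (l 154786594391) (a (l 16777248) (l 96267664791)))) (c (l 79087794871) (l 16776496)))) (l 92509566407)) (c (l 88751470007) (l 16776960))) (l 3)) (l 3))))), by decide +kernel⟩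

def k50_pm_102_s : ∃ t, chk3 f_pm_102_s t 245 241 1 = true :=
  ⟨(c (a (c (c (b (a (l 16778264) (l 16777880)) (l 16776032)) (a (l 16773368) (l 16776904))) (l 16775872)) (b (a (c (b (a (c (l 16777448) (l 16777464)) (c (b (a (b (a (l 81235279335) (l 116668759207)) (l 16776936)) (b (l 3) (c (l 142975434423) (l 109689437063)))) (a (l 16777376) (a (l 16777304) (b (l 85530246615) (l 16777288))))) (b (a (l 16776848) (l 115058145607)) (l 16777320)))) (c (l 16777640) (l 16777656))) (b (a (l 16777480) (l 40969959527)) (l 16777688))) (c (b (a (b (l 3) (a (b (l 166060883463) (c (a (l 16777056) (l 105931341047)) (l 16777160))) (l 3))) (l 3)) (a (a (c (l 16776736) (l 16777400)) (b (c (c (b (a (l 90898955703) (l 171429592711)) (l 37211864647)) (l 84456504887)) (l 83382762407)) (l 16777368))) (b (c (a (l 161229045095) (l 3)) (l 165524012039)) (c (a (a (l 16777288) (b (l 95730793879) (l 16777272))) (b (l 3) (c (a (l 80698408423) (l 116668759207)) (l 94657051767)))) (c (l 86067116487) (l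 85530245655)))))) (b (l 157470947511) (a (l 16777320) (l 97341404295))))) (c (c (a (l 16776760) (b (a (l 16777632) (b (l 30232542855) (l 16777504))) (l 16777824))) (a (l 16778112) (l 16776872))) (l 16776640)))) (a (c (c (l 16778584) (l 16778648)) (l 16778744)) (b (a (c (c (l 16774864) (l 16777504)) (l 16777528)) (c (b (l 156397205655) (c (l 16775736) (l 16774432))) (l 90362079799))) (c (c (l 16778000) (l 16778032)) (l 16778088))))), by decide +kernel⟩

def k51_pm_102_s : ∃ t, chk3 f_pm_102_s t 122 121 1 = true :=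
  ⟨(a (c (c (b (a (l 16781168) (l 16775160)) (a (l 16782512) (l 16781728))) (b (c (l 16775784) (l 16775952)) (a (l 16782984) (l 16782128)))) (b (c (l 16776224) (l 16781848)) (l 16772792))) (c (b (c (a (b (l 16776680) (l 16779936)) (b (c (l 16777160) (l 16775904)) (l 16776512))) (a (l 16777216) (l 16776336))) (c (a (l 16780936) (l 16777496)) (a (l 16776024) (l 16777752)))) (c (b (a (l 16774832) (c (l 16779072) (l 16779152))) (c (l 16775808) (l 16770728))) (b (l 16779808) (l 16781472))))), by decide +kernel⟩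

def k52_pm_102_s : ∃ t, chk3 f_pm_102_s t 123 120 1 = true :=
  ⟨(a (b (l 3) (b (l 3) (a (a (c (c (b (a (c (a (b (a (b (l 101099502887) (l 16777264)) (b (l 3) (a (l 16777216) (l 96804535735)))) (l 16777352)) (b (l 169818979591) (a (l 33990639223) (b (l 105931341047) (l 16777256))))) (b (a (l 88751471479) (l 169818979591)) (l 36138122407))) (b (l 3) (c (a (a (a (b (l 3) (l 16777032)) (l 151565368967)) (l 174113947015)) (l 3)) (l 153712852151)))) (b (a (l 16777120) (c (a (a (l 16777320) (b (l 41506831959) (l 16777304))) (b (l 154786594391) (a (l 16777248) (a (l 87140859367) (l 109689437527))))) (c (l 79087794887) (l 78014053063)))) (c (l 16776840) (l 16777504)))) (b (a (l 81235278951) (l 159618431671)) (l 31843154215))) (c (c (b (l 93583307063) (l 16777416)) (b (l 91972694327) (l 16777424))) (l 72645340983))) (a (b (l 3) (c (c (b (l 3) (c (a (b (a (a (l 16777224) (l 90362084823)) (l 116668759191)) (l 16777104)) (b (l 3) (c (a (l 101099502967) (l 3)) (l 109689437047)))) (a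 (l 41506831335) (l 115058145591)))) (l 103246984151)) (c (l 100562629575) (l 16776792)))) (l 3))) (l 3)))) (l 3)), by decide +kernel⟩

def k53_pm_102_s : ∃ t, chk3 f_pm_102_s t 492 242 1 = true :=
  ⟨(a (c (c (c (b (l 16777208) (l 16778480)) (l 16776904)) (l 16775656)) (c (l 16777064) (l 16778472))) (c (b (c (b (a (c (b (a (l 16777384) (a (l 16777304) (a (l 33990639207) (b (l 97341406631) (l 16777280))))) (l 16777480)) (l 16776752)) (b (a (c (b (l 167671496183) (a (l 38285606519) (l 106468211959))) (l 99488889399)) (l 3)) (c (a (l 16776992) (a (b (a (l 80698408599) (l 103783857543)) (l 16777288)) (c (b (l 173577076343) (l 40433090135)) (l 95730793463)))) (a (l 16777328) (l 83919633319))))) (c (l 16776944) (l 16777616))) (b (a (l 16777416) (l 87140858727)) (l 16777648))) (c (c (l 16778064) (l 16778096)) (l 16778160))) (c (b (c (l 30769411239) (l 16776096)) (l 16778240)) (l 16775240)))), by decide +kernel⟩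

def k54_pm_102_s : ∃ t, chk3 f_pm_102_s t 493 242 1 = true :=
  ⟨(a (c (b (b (c (a (b (l 3) (c (a (b (l 3) (l 156397207127)) (l 3)) (l 166597753831))) (l 3)) (l 175724558087)) (c (a (a (c (b (a (l 16776960) (b (a (l 88214601175) (l 110763179351)) (l 16777280))) (l 16777416)) (l 32916897031)) (b (c (a (b (l 3) (a (l 16777224) (l 91435826631))) (l 164450270679)) (l 104857598439)) (c (l 31843155655) (l 16777312)))) (b (l 3) (c (a (b (a (a (l 95193922999) (l 117742501159)) (l 3)) (a (l 16777264) (a (l 16777048) (l 98415148455)))) (l 171966463207)) (a (l 89288342295) (l 171966463207))))) (a (l 37211863111) (l 144049175559)))) (c (a (c (l 16776440) (l 16777768)) (a (c (l 16776936) (l 16777600)) (b (b (c (b (a (l 38822477431) (a (l 101636373895) (l 124721822967))) (l 16777288)) (l 40433089719)) (l 16777408)) (l 16776992)))) (l 25937574407))) (c (b (b (l 177335170791) (c (l 86067114583) (l 83919630935))) (c (l 16777704) (l 16777728))) (b (l 96804530215) (l 16777760)))) (b (l 3)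 (c (a (c (b (b (c (a (a (a (b (l 3) (l 82845892167)) (l 154249723495)) (l 177335172455)) (l 3)) (l 155323464855)) (c (a (a (l 16777320) (a (l 16776952) (b (l 86603988455) (l 16777296)))) (b (l 158007819847) (a (l 16776920) (a (l 89825213911) (l 112373792071))))) (a (l 16777288) (l 95193922247)))) (c (l 16776816) (l 16777480))) (b (b (l 115595015719) (l 16776496)) (l 16777504))) (b (l 3) (b (c (c (a (a (a (l 32380026503) (b (l 93583310279) (l 16777288))) (b (l 118816242823) (l 36138122887))) (a (a (b (l 3) (l 96804535719)) (l 167671496183)) (l 3))) (a (l 79624666071) (l 116668758295))) (l 93046437927)) (c (c (a (l 16777392) (a (l 16777304) (b (a (l 42580573863) (l 100562632087)) (l 16777288)))) (l 16776664)) (l 16777328))))) (c (c (b (l 102173241111) (l 16777304)) (b (l 100562628375) (l 16777312))) (l 79087791399))))), by decide +kernel⟩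

def k55_pm_102_s : ∃ t, chk3 f_pm_102_s t 246 243 1 = true :=
  ⟨(c (c (a (c (b (l 16776288) (l 16779560)) (l 16776696)) (b (c (a (l 16776960) (c (l 16777176) (l 16776536))) (a (l 16778312) (l 16776552))) (c (l 16777392) (l 16776144)))) (a (c (l 16774160) (l 16779496)) (c (l 16775856) (l 16773288)))) (c (a (l 16777024) (c (l 16775960) (l 16778640))) (l 16774048))), by decide +kernel⟩

def k56_pm_102_s : ∃ t, chk3 f_pm_102_s t 247 242 1 = true :=
  ⟨(b (l 3) (b (l 3) (a (a (c (c (a (a (b (l 3) (c (b (l 171966463447) (c (a (b (l 86603988615) (l 16777256)) (l 109689437399)) (l 89825213607))) (l 101099502103))) (l 3)) (l 3)) (l 160155301975)) (c (l 159081560135) (l 117742496615))) (l 3)) (l 3)))), by decide +kernel⟩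

def k57_pm_102_s : ∃ t, chk3 f_pm_102_s t 494 243 1 = true :=
  ⟨(b (a (c (c (b (a (c (b (a (l 16776992) (b (a (a (l 84993375799) (l 108078824807)) (l 3)) (a (l 16777280) (b (l 94657052183) (l 16777240))))) (l 16777432)) (b (a (l 16777328) (l 85530246039)) (l 16777440))) (b (c (a (b (l 3) (l 160692174375)) (l 3)) (l 169282108343)) (c (b (a (a (l 16777080) (a (l 92509568455) (l 115058146615))) (l 3)) (a (l 16777304) (a (a (l 39359348407) (l 96267664807)) (l 163913399975)))) (a (l 16776816) (l 107005082039))))) (c (a (l 16777664) (c (b (a (l 16777416) (b (a (l 16777296) (l 36674993783)) (l 16777344))) (l 16777520)) (l 16776784))) (l 16776912))) (b (a (l 16776664) (a (l 90898954119) (l 153712852023))) (l 16777592))) (c (b (c (l 78550922183) (l 76403438535)) (l 16776312)) (l 16775992))) (b (l 3) (c (b (c (a (c (a (b (a (a (l 100025761175) (l 123648081143)) (l 3)) (a (l 16777264) (a (l 81235279431) (l 103783857527)))) (l 176261430455)) (a (l 91435826567) (l 178408914087)))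 (l 3)) (l 149417884423)) (c (a (c (a (l 16777360) (b (c (a (b (l 89825214071) (l 16777248)) (l 112373791927)) (l 91435826311)) (l 16777112))) (a (l 16777360) (l 38822476807))) (c (a (a (b (l 3) (b (l 119353113895) (l 83382763159))) (l 3)) (l 3)) (l 159081561191))) (a (l 16777272) (l 158007819351)))) (c (c (l 95193919559) (l 93046435911)) (l 93046435735))))) (c (a (c (c (l 16777056) (l 16778072)) (l 16778128)) (c (b (a (c (l 16777544) (l 16777552)) (b (c (a (a (l 16777320) (b (b (l 98415148551) (l 16777240)) (l 16777304))) (b (l 164450270727) (a (l 35064381079) (b (l 125258693879) (l 91972697639))))) (a (l 16777280) (b (l 121500596951) (l 16776840)))) (c (l 16777072) (l 16777400)))) (c (l 16777752) (l 16777776))) (b (a (l 16777576) (b (l 79087794599) (l 16777416))) (l 16777808)))) (c (c (a (l 16778184) (l 16776312)) (l 16775960)) (l 16775344)))), by decide +kernel⟩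

def k58_pm_102_s : ∃ t, chk3 f_pm_102_s t 495 243 1 = true :=
  ⟨(b (l 3) (b (a (a (b (l 3) (c (c (c (b (a (a (b (l 106468212167) (l 16777056)) (l 169282109063)) (l 3)) (b (a (a (l 16777272) (l 85530246791)) (l 3)) (a (l 16777288) (a (l 100562632183) (l 3))))) (a (l 82309021255) (l 161229045079))) (l 94657050615)) (c (l 91972696055) (l 16777000)))) (l 3)) (l 3)) (a (a (c (c (c (a (l 16777472) (a (l 27011317447) (b (b (b (l 115595017543) (l 40433090215)) (l 16777288)) (l 14)))) (b (l 31843155191) (l 16777504))) (l 16777416)) (c (l 16776128) (l 16777456))) (b (b (l 3) (l 14)) (l 14))) (l 14)))), by decide +kernel⟩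

def k59_pm_102_s : ∃ t, chk3 f_pm_102_s t 61 61 1 = true :=
  ⟨(a (b (c (a (b (c (a (l 16783944) (l 16783152)) (l 16773608)) (c (l 16774584) (l 16785720))) (b (c (c (l 16776592) (l 16776784)) (c (l 16776984) (l 16777192))) (c (c (l 16778056) (l 16778304)) (l 16778688)))) (a (c (l 16775064) (l 16775768)) (b (l 16782984) (l 16774280)))) (c (a (b (l 16776560) (l 16788800)) (b (c (l 16779760) (l 16785616)) (l 16776544))) (a (c (l 16778736) (l 16779696)) (b (l 16776160) (l 16778120))))) (b (a (c (b (c (a (l 16775416) (c (l 16777104) (l 16774576))) (a (l 16778320) (c (l 16779928) (l 16774792)))) (c (a (l 16776888) (l 16775984)) (a (l 16777280) (l 16778928)))) (c (b (c (l 16777384) (l 16780800)) (l 16777184)) (a (l 16782496) (l 16776112)))) (b (a (c (c (b (c (a (l 16778712) (l 16776944)) (l 16778536)) (c (l 16776552) (l 16779248))) (c (l 16776336) (l 16776400))) (c (c (l 16776472) (l 16779176)) (l 16779288))) (a (a (c (c (b (c (l 16777912) (l 16777936)) (l 14)) (l 16775736))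 (c (l 16777136) (l 16778552))) (l 14)) (l 14))) (l 14))) (b (a (a (c (a (l 16784168) (l 16778456)) (l 16785032)) (l 14)) (l 14)) (l 14)))), by decide +kernel⟩

def k60_pm_102_s : ∃ t, chk3 f_pm_102_s t 30 31 1 = true :=
  ⟨(b (a (a (b (c (l 16775344) (l 16788488)) (c (l 16781584) (l 16776904))) (b (a (c (l 16787720) (l 16789416)) (b (a (l 16790720) (b (c (l 16780392) (l 16787816)) (l 16790656))) (l 16788544))) (c (l 16780256) (c (l 16774408) (l 16780224))))) (b (a (b (b (a (a (c (l 16790264) (l 16792392)) (l 16790696)) (c (l 16788384) (l 16790144))) (a (a (l 16791376) (c (l 16785016) (b (l 16792272) (l 16782024)))) (l 14))) (a (c (l 16788808) (l 16790592)) (l 14))) (l 14)) (l 14))) (a (a (b (c (l 16778264) (l 16788512)) (c (a (l 16775152) (l 16776672)) (a (l 16773968) (l 16775744)))) (a (b (l 16769896) (l 14)) (l 14))) (l 14))), by decide +kernel⟩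

def k61_pm_102_s : ∃ t, chk3 f_pm_102_s t 31 15 1 = true :=
  ⟨(b (b (l 3) (l 14)) (l 14)), by decide +kernel⟩

theorem s62_pm_102_s : ∃ t, chk3 f_pm_102_s t 247 243 1 = true := ex3_a k57_pm_102_s k58_pm_102_s

theorem s63_pm_102_s : ∃ t, chk3 f_pm_102_s t 247 121 1 = true := ex3_b k56_pm_102_s s62_pm_102_s

theorem s64_pm_102_s : ∃ t, chk3 f_pm_102_s t 246 242 1 = true := ex3_a k53_pm_102_s k54_pm_102_s

theorem s65_pm_102_s : ∃ t, chk3 f_pm_102_s t 246 121 1 = true := ex3_b s64_pm_102_s k55_pm_102_s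

theorem s66_pm_102_s : ∃ t, chk3 f_pm_102_s t 123 121 1 = true := ex3_a s65_pm_102_s s63_pm_102_s

theorem s67_pm_102_s : ∃ t, chk3 f_pm_102_s t 123 60 1 = true := ex3_b k52_pm_102_s s66_pm_102_s

theorem s68_pm_102_s : ∃ t, chk3 f_pm_102_s t 245 120 1 = true := ex3_b k49_pm_102_s k50_pm_102_s

theorem s69_pm_102_s : ∃ t, chk3 f_pm_102_s t 122 120 1 = true := ex3_a k48_pm_102_s s68_pm_102_s

theorem s70_pm_102_s : ∃ t, chk3 f_pm_102_s t 122 60 1 = true := ex3_b s69_pm_102_s k51_pm_102_s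

theorem s71_pm_102_s : ∃ t, chk3 f_pm_102_s t 61 60 1 = true := ex3_a s70_pm_102_s s67_pm_102_s

theorem s72_pm_102_s : ∃ t, chk3 f_pm_102_s t 61 30 1 = true := ex3_b s71_pm_102_s k59_pm_102_s

theorem s73_pm_102_s : ∃ t, chk3 f_pm_102_s t 30 30 1 = true := ex3_a k47_pm_102_s s72_pm_102_s

theorem s74_pm_102_s : ∃ t, chk3 f_pm_102_s t 30 15 1 = true := ex3_b s73_pm_102_s k60_pm_102_s

theorem s75_pm_102_s : ∃ t, chk3 f_pm_102_s t 15 15 1 = true := ex3_a s74_pm_102_s k61_pm_102_s

theorem s76_pm_102_s : ∃ t, chk3 f_pm_102_s t 244 239 1 = true := ex3_b k42_pm_102_s k43_pm_102_s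

theorem s77_pm_102_s : ∃ t, chk3 f_pm_102_s t 244 119 1 = true := ex3_b k41_pm_102_s s76_pm_102_s

theorem s78_pm_102_s : ∃ t, chk3 f_pm_102_s t 122 119 1 = true := ex3_a s77_pm_102_s k44_pm_102_s

theorem s79_pm_102_s : ∃ t, chk3 f_pm_102_s t 122 59 1 = true := ex3_b k40_pm_102_s s78_pm_102_s

theorem s80_pm_102_s : ∃ t, chk3 f_pm_102_s t 61 59 1 = true := ex3_a s79_pm_102_s k45_pm_102_s

theorem s81_pm_102_s : ∃ t, chk3 f_pm_102_s t 61 29 1 = true := ex3_b k39_pm_102_s s80_pm_102_s

theorem s82_pm_102_s : ∃ t, chk3 f_pm_102_s t 121 118 1 = true := ex3_a k36_pm_102_s k37_pm_102_s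

theorem s83_pm_102_s : ∃ t, chk3 f_pm_102_s t 121 59 1 = true := ex3_b s82_pm_102_s k38_pm_102_s

theorem s84_pm_102_s : ∃ t, chk3 f_pm_102_s t 60 59 1 = true := ex3_a k35_pm_102_s s83_pm_102_s

theorem s85_pm_102_s : ∃ t, chk3 f_pm_102_s t 120 117 1 = true := ex3_a k32_pm_102_s k33_pm_102_s

theorem s86_pm_102_s : ∃ t, chk3 f_pm_102_s t 120 58 1 = true := ex3_b k31_pm_102_s s85_pm_102_s

theorem s87_pm_102_s : ∃ t, chk3 f_pm_102_s t 60 58 1 = true := ex3_a s86_pm_102_s k34_pm_102_s

theorem s88_pm_102_s : ∃ t, chk3 f_pm_102_s t 60 29 1 = true := ex3_b s87_pm_102_s s84_pm_102_s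

theorem s89_pm_102_s : ∃ t, chk3 f_pm_102_s t 30 29 1 = true := ex3_a s88_pm_102_s s81_pm_102_s

theorem s90_pm_102_s : ∃ t, chk3 f_pm_102_s t 30 14 1 = true := ex3_b k30_pm_102_s s89_pm_102_s

theorem s91_pm_102_s : ∃ t, chk3 f_pm_102_s t 15 14 1 = true := ex3_a s90_pm_102_s k46_pm_102_s

theorem s92_pm_102_s : ∃ t, chk3 f_pm_102_s t 15 7 1 = true := ex3_b s91_pm_102_s s75_pm_102_s

theorem s93_pm_102_s : ∃ t, chk3 f_pm_102_s t 14 15 1 = true := ex3_b k28_pm_102_s k29_pm_102_s

theorem s94_pm_102_s : ∃ t, chk3 f_pm_102_s t 59 29 1 = true := ex3_b k26_pm_102_s k27_pm_102_s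

theorem s95_pm_102_s : ∃ t, chk3 f_pm_102_s t 29 29 1 = true := ex3_a k25_pm_102_s s94_pm_102_s

theorem s96_pm_102_s : ∃ t, chk3 f_pm_102_s t 59 57 1 = true := ex3_a k23_pm_102_s k24_pm_102_s

theorem s97_pm_102_s : ∃ t, chk3 f_pm_102_s t 59 28 1 = true := ex3_b k22_pm_102_s s96_pm_102_s

theorem s98_pm_102_s : ∃ t, chk3 f_pm_102_s t 58 56 1 = true := ex3_a k19_pm_102_s k20_pm_102_s

theorem s99_pm_102_s : ∃ t, chk3 f_pm_102_s t 58 28 1 = true := ex3_b s98_pm_102_s k21_pm_102_s

theorem s100_pm_102_s : ∃ t, chk3 f_pm_102_s t 29 28 1 = true := ex3_a s99_pm_102_s s97_pm_102_s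

theorem s101_pm_102_s : ∃ t, chk3 f_pm_102_s t 29 14 1 = true := ex3_b s100_pm_102_s s95_pm_102_s

theorem s102_pm_102_s : ∃ t, chk3 f_pm_102_s t 14 14 1 = true := ex3_a k18_pm_102_s s101_pm_102_s

theorem s103_pm_102_s : ∃ t, chk3 f_pm_102_s t 14 7 1 = true := ex3_b s102_pm_102_s s93_pm_102_s

theorem s104_pm_102_s : ∃ t, chk3 f_pm_102_s t 7 7 1 = true := ex3_a s103_pm_102_s s92_pm_102_s

theorem s105_pm_102_s : ∃ t, chk3 f_pm_102_s t 28 27 1 = true := ex3_a k14_pm_102_s k15_pm_102_s

theorem s106_pm_102_s : ∃ t, chk3 f_pm_102_s t 28 13 1 = true := ex3_b k13_pm_102_s s105_pm_102_s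

theorem s107_pm_102_s : ∃ t, chk3 f_pm_102_s t 14 13 1 = true := ex3_a s106_pm_102_s k16_pm_102_s

theorem s108_pm_102_s : ∃ t, chk3 f_pm_102_s t 14 6 1 = true := ex3_b k12_pm_102_s s107_pm_102_s

theorem s109_pm_102_s : ∃ t, chk3 f_pm_102_s t 7 6 1 = true := ex3_a s108_pm_102_s k17_pm_102_s

theorem s110_pm_102_s : ∃ t, chk3 f_pm_102_s t 7 3 1 = true := ex3_b s109_pm_102_s s104_pm_102_s

theorem s111_pm_102_s : ∃ t, chk3 f_pm_102_s t 13 15 1 = true := ex3_a k10_pm_102_s k11_pm_102_s

theorem s112_pm_102_s : ∃ t, chk3 f_pm_102_s t 13 7 1 = true := ex3_b k9_pm_102_s s111_pm_102_s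

theorem s113_pm_102_s : ∃ t, chk3 f_pm_102_s t 6 7 1 = true := ex3_a k8_pm_102_s s112_pm_102_s

theorem s114_pm_102_s : ∃ t, chk3 f_pm_102_s t 13 6 1 = true := ex3_b k6_pm_102_s k7_pm_102_s

theorem s115_pm_102_s : ∃ t, chk3 f_pm_102_s t 6 6 1 = true := ex3_a k5_pm_102_s s114_pm_102_s

theorem s116_pm_102_s : ∃ t, chk3 f_pm_102_s t 6 3 1 = true := ex3_b s115_pm_102_s s113_pm_102_s

theorem s117_pm_102_s : ∃ t, chk3 f_pm_102_s t 3 3 1 = true := ex3_a s116_pm_102_s s110_pm_102_s

theorem s118_pm_102_s : ∃ t, chk3 f_pm_102_s t 3 1 1 = true := ex3_b k4_pm_102_s s117_pm_102_s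

theorem s119_pm_102_s : ∃ t, chk3 f_pm_102_s t 5 2 1 = true := ex3_a k1_pm_102_s k2_pm_102_s

theorem s120_pm_102_s : ∃ t, chk3 f_pm_102_s t 2 2 1 = true := ex3_a k0_pm_102_s s119_pm_102_s

theorem s121_pm_102_s : ∃ t, chk3 f_pm_102_s t 2 1 1 = true := ex3_b s120_pm_102_s k3_pm_102_s

theorem s122_pm_102_s : ∃ t, chk3 f_pm_102_s t 1 1 1 = true := ex3_a s121_pm_102_s s118_pm_102_s

theorem c_pm_102_s : CertNE 536870912 536870912 0 536870912 818728140 40265320 3 eng mog cd0q1 cd0q2 pd0 false true false .npp 1 0 2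
    ndB0q1 ndB0q2 pcB0 cut_pm_102_s xt_pm_102_s :=
  certNE0 (fam := false) (s1 := true) (s2 := false) (a := 1) (b := 0) (c := 2) (cn := .npp) (n1 := ndB0q1) (n2 := ndB0q2) (pc := pcB0) (cut := cut_pm_102_s) (xt := xt_pm_102_s) (P1 := 536870912) (W1 := 536870912) (P2 := 0) (W2 := 536870912) (P3 := 818728140) (W3 := 40265320) (N0 := 3) (En := eng) (mo := mog) (C1 := cd0q1) (C2 := cd0q2) (C3 := pd0)
    rfl s122_pm_102_s

noncomputable def cut_pm_102_t : Cut := Cut.of [[⟨3, 0, 0, 2845415833⟩], [⟨0, 1, 0, 67108864⟩, ⟨1, 0, 0, 67108864⟩, ⟨2, 1, 0, 67108864⟩], [⟨0, 0, 1, 26214400⟩, ⟨1, 1, 2, 26214400⟩, ⟨2, 1, 0, 33554432⟩]]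

noncomputable def f_pm_102_t : ℕ → ℕ → ℕ → ℕ → Bool := onCell 536870912 536870912 0 536870912 818728140 40265320
    (rowNE 3 eng mog cd0q1 cd0q2 pd0 0 false true false .npp 1 0 2 (qsf 536870912 536870912 0 536870912 0) ndB0q1 ndB0q2 pcB0 cut_pm_102_t Ext.none)

def k0_pm_102_t : ∃ t, chk3 f_pm_102_t t 1 1 1 = true :=
  ⟨(l 6), by decide +kernel⟩

theorem c_pm_102_t : CertNE 536870912 536870912 0 536870912 818728140 40265320 3 eng mog cd0q1 cd0q2 pd0 false true false .npp 1 0 2
    ndB0q1 ndB0q2 pcB0 cut_pm_102_t Ext.none :=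
  certNE0 (fam := false) (s1 := true) (s2 := false) (a := 1) (b := 0) (c := 2) (cn := .npp) (n1 := ndB0q1) (n2 := ndB0q2) (pc := pcB0) (cut := cut_pm_102_t) (xt := Ext.none) (P1 := 536870912) (W1 := 536870912) (P2 := 0) (W2 := 536870912) (P3 := 818728140) (W3 := 40265320) (N0 := 3) (En := eng) (mo := mog) (C1 := cd0q1) (C2 := cd0q2) (C3 := pd0)
    rfl k0_pm_102_t

noncomputable def cut_pm_112_s : Cut := Cut.of [[⟨4, 0, 0, 1449551462⟩]]

noncomputable def f_pm_112_s : ℕ → ℕ → ℕ → ℕ → Bool := onCell 536870912 536870912 0 536870912 818728140 40265320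
    (rowNE 3 eng mog cd0q1 cd0q2 pd1 0 false true false .dn 1 1 2 (qsf 536870912 536870912 0 536870912 1) ndB0q1 ndB0q2 pcB1 cut_pm_112_s Ext.none)

def k0_pm_112_s : ∃ t, chk3 f_pm_112_s t 1 1 1 = true :=
  ⟨(a (b (a (a (b (b (a (a (b (l 16687960) (l 16658328)) (b (l 16703072) (l 16672072))) (a (l 16739360) (a (l 16735160) (l 16727328)))) (a (b (l 16677568) (a (l 16600488) (l 16611168))) (b (l 16703352) (l 16649168)))) (b (a (b (l 16575536) (l 6)) (b (l 16594240) (l 16562296))) (l 6))) (b (b (a (b (a (l 16751168) (b (a (l 16772368) (l 118279315495)) (l 16759736))) (a (l 16674672) (l 16733024))) (b (a (b (l 3) (a (l 16772344) (l 118279316039))) (l 3)) (a (l 16750520) (b (a (l 16772416) (l 117742445079)) (l 16759448))))) (a (a (b (l 16682296) (l 16646480)) (b (l 16697176) (l 16659536))) (b (a (b (l 16722568) (l 16703624)) (l 16751104)) (a (l 16673488) (l 16709520))))) (b (a (b (l 16656872) (a (l 16574664) (l 16583616))) (b (a (l 16632344) (l 16645160)) (a (l 16593312) (l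 16603880)))) (b (a (l 16543704) (a (l 16554688) (l 16563000))) (a (l 6) (a (l 16535256) (l 16520928))))))) (a (a (b (b (b (l 3) (a (b (l 3) (a (l 71571554343) (l 117205571863))) (l 3))) (b (a (b (l 16759120) (l 16738352)) (b (a (b (l 16757728) (l 16769368)) (l 116668698439)) (a (l 16753208) (l 16763888)))) (a (b (l 16674496) (l 16693456)) (b (l 16756512) (l 127808624551))))) (b (a (b (l 16680296) (l 16615992)) (a (b (l 16671296) (l 16626280)) (l 1))) (a (b (l 16572744) (l 16528048)) (l 1)))) (b (b (l 1) (l 1)) (l 1))) (l 1))) (b (a (l 6) (l 1)) (a (l 6) (l 1)))) (l 1)), by decide +kernel⟩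

theorem c_pm_112_s : CertNE 536870912 536870912 0 536870912 818728140 40265320 3 eng mog cd0q1 cd0q2 pd1 false true false .dn 1 1 2
    ndB0q1 ndB0q2 pcB1 cut_pm_112_s Ext.none :=
  certNE0 (fam := false) (s1 := true) (s2 := false) (a := 1) (b := 1) (c := 2) (cn := .dn) (n1 := ndB0q1) (n2 := ndB0q2) (pc := pcB1) (cut := cut_pm_112_s) (xt := Ext.none) (P1 := 536870912) (W1 := 536870912) (P2 := 0) (W2 := 536870912) (P3 := 818728140) (W3 := 40265320) (N0 := 3) (En := eng) (mo := mog) (C1 := cd0q1) (C2 := cd0q2) (C3 := pd1)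
    rfl k0_pm_112_s

noncomputable def cut_pm_112_t : Cut := Cut.of [[⟨3, 0, 0, 2845415833⟩]]

noncomputable def f_pm_112_t : ℕ → ℕ → ℕ → ℕ → Bool := onCell 536870912 536870912 0 536870912 818728140 40265320
    (rowNE 3 eng mog cd0q1 cd0q2 pd1 0 false true false .dn 1 1 2 (qsf 536870912 536870912 0 536870912 1) ndB0q1 ndB0q2 pcB1 cut_pm_112_t Ext.none)

def k0_pm_112_t : ∃ t, chk3 f_pm_112_t t 1 1 1 = true :=
  ⟨(l 6), by decide +kernel⟩

theorem c_pm_112_t : CertNE 536870912 536870912 0 536870912 818728140 40265320 3 eng mog cd0q1 cd0q2 pd1 false true false .dn 1 1 2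
    ndB0q1 ndB0q2 pcB1 cut_pm_112_t Ext.none :=
  certNE0 (fam := false) (s1 := true) (s2 := false) (a := 1) (b := 1) (c := 2) (cn := .dn) (n1 := ndB0q1) (n2 := ndB0q2) (pc := pcB1) (cut := cut_pm_112_t) (xt := Ext.none) (P1 := 536870912) (W1 := 536870912) (P2 := 0) (W2 := 536870912) (P3 := 818728140) (W3 := 40265320) (N0 := 3) (En := eng) (mo := mog) (C1 := cd0q1) (C2 := cd0q2) (C3 := pd1)
    rfl k0_pm_112_t

noncomputable def cut_pm_202_s : Cut := Cut.of [[⟨4, 0, 0, 1449551462⟩], [⟨0, 1, 0, 67108864⟩, ⟨1, 0, 0, 67108864⟩, ⟨2, 1, 0, 67108864⟩]]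

noncomputable def f_pm_202_s : ℕ → ℕ → ℕ → ℕ → Bool := onCell 0 536870912 0 536870912 818728140 40265320
    (rowNE 3 eng mog cd0q2 cd0q2 pd0 0 false true false .pp 2 0 2 (qsf 0 536870912 0 536870912 0) ndB0q2 ndB0q2 pcB0 cut_pm_202_s Ext.none)

def k0_pm_202_s : ∃ t, chk3 f_pm_202_s t 1 1 1 = true :=
  ⟨(a (l 3) (b (l 3) (b (l 3) (a (l 3) (b (l 3) (a (l 3) (l 14))))))), by decide +kernel⟩

theorem c_pm_202_s : CertNE 0 536870912 0 536870912 818728140 40265320 3 eng mog cd0q2 cd0q2 pd0 false true false .pp 2 0 2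
    ndB0q2 ndB0q2 pcB0 cut_pm_202_s Ext.none :=
  certNE0 (fam := false) (s1 := true) (s2 := false) (a := 2) (b := 0) (c := 2) (cn := .pp) (n1 := ndB0q2) (n2 := ndB0q2) (pc := pcB0) (cut := cut_pm_202_s) (xt := Ext.none) (P1 := 0) (W1 := 536870912) (P2 := 0) (W2 := 536870912) (P3 := 818728140) (W3 := 40265320) (N0 := 3) (En := eng) (mo := mog) (C1 := cd0q2) (C2 := cd0q2) (C3 := pd0)
    rfl k0_pm_202_s

noncomputable def cut_pm_202_t : Cut := Cut.of [[⟨3, 0, 0, 2845415833⟩], [⟨0, 1, 0, 67108864⟩, ⟨1, 0, 0, 67108864⟩, ⟨2, 1, 0, 67108864⟩]]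

noncomputable def f_pm_202_t : ℕ → ℕ → ℕ → ℕ → Bool := onCell 0 536870912 0 536870912 818728140 40265320
    (rowNE 3 eng mog cd0q2 cd0q2 pd0 0 false true false .pp 2 0 2 (qsf 0 536870912 0 536870912 0) ndB0q2 ndB0q2 pcB0 cut_pm_202_t Ext.none)

def k0_pm_202_t : ∃ t, chk3 f_pm_202_t t 1 1 1 = true :=
  ⟨(l 6), by decide +kernel⟩

theorem c_pm_202_t : CertNE 0 536870912 0 536870912 818728140 40265320 3 eng mog cd0q2 cd0q2 pd0 false true false .pp 2 0 2
    ndB0q2 ndB0q2 pcB0 cut_pm_202_t Ext.none :=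
  certNE0 (fam := false) (s1 := true) (s2 := false) (a := 2) (b := 0) (c := 2) (cn := .pp) (n1 := ndB0q2) (n2 := ndB0q2) (pc := pcB0) (cut := cut_pm_202_t) (xt := Ext.none) (P1 := 0) (W1 := 536870912) (P2 := 0) (W2 := 536870912) (P3 := 818728140) (W3 := 40265320) (N0 := 3) (En := eng) (mo := mog) (C1 := cd0q2) (C2 := cd0q2) (C3 := pd0)
    rfl k0_pm_202_t

noncomputable def cut_mm_001_s : Cut := Cut.of [[⟨4, 0, 0, 1449551462⟩]]

noncomputable def f_mm_001_s : ℕ → ℕ → ℕ → ℕ → Bool := onCell 0 536870912 0 536870912 818728140 40265320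
    (rowNE 3 eng mog cd0q0 cd0q1 pd0 1 false false false .up 0 0 1 (qsf 0 536870912 536870912 536870912 0) ndB0q0 ndB0q1 pcB0 cut_mm_001_s Ext.none)

def k0_mm_001_s : ∃ t, chk3 f_mm_001_s t 1 1 1 = true :=
  ⟨(l 3), by decide +kernel⟩

theorem c_mm_001_s : CertNE 0 536870912 536870912 536870912 818728140 40265320 3 eng mog cd0q0 cd0q1 pd0 false false false .up 0 0 1
    ndB0q0 ndB0q1 pcB0 cut_mm_001_s Ext.none :=
  certNE1 (fam := false) (s1 := false) (s2 := false) (a := 0) (b := 0) (c := 1) (cn := .up) (n1 := ndB0q0) (n2 := ndB0q1) (pc := pcB0) (cut := cut_mm_001_s) (xt := Ext.none) (P1 := 0) (W1 := 536870912) (P2 := 536870912) (W2 := 536870912) (P3 := 818728140) (W3 := 40265320) (N0 := 3) (En := eng) (mo := mog) (C1 := cd0q0) (C2 := cd0q1) (C3 := pd0)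
    rfl (fun _ => rfl) k0_mm_001_s

noncomputable def cut_mm_001_t : Cut := Cut.of [[⟨3, 0, 0, 2845415833⟩]]

noncomputable def f_mm_001_t : ℕ → ℕ → ℕ → ℕ → Bool := onCell 0 536870912 536870912 536870912 818728140 40265320
    (rowNE 3 eng mog cd0q0 cd0q1 pd0 0 false false false .up 0 0 1 (qsf 0 536870912 536870912 536870912 0) ndB0q0 ndB0q1 pcB0 cut_mm_001_t Ext.none)

def k0_mm_001_t : ∃ t, chk3 f_mm_001_t t 1 1 1 = true :=
  ⟨(l 6), by decide +kernel⟩

theorem c_mm_001_t : CertNE 0 536870912 536870912 536870912 818728140 40265320 3 eng mog cd0q0 cd0q1 pd0 false false false .up 0 0 1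
    ndB0q0 ndB0q1 pcB0 cut_mm_001_t Ext.none :=
  certNE0 (fam := false) (s1 := false) (s2 := false) (a := 0) (b := 0) (c := 1) (cn := .up) (n1 := ndB0q0) (n2 := ndB0q1) (pc := pcB0) (cut := cut_mm_001_t) (xt := Ext.none) (P1 := 0) (W1 := 536870912) (P2 := 536870912) (W2 := 536870912) (P3 := 818728140) (W3 := 40265320) (N0 := 3) (En := eng) (mo := mog) (C1 := cd0q0) (C2 := cd0q1) (C3 := pd0)
    rfl k0_mm_001_t

noncomputable def cut_mm_011_s : Cut := Cut.of [[⟨4, 0, 0, 1449551462⟩]]

noncomputable def f_mm_011_s : ℕ → ℕ → ℕ → ℕ → Bool := onCell 0 536870912 536870912 536870912 818728140 40265320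
    (rowNE 3 eng mog cd0q0 cd0q1 pd1 1 false false false .pnn 0 1 1 (qsf 0 536870912 536870912 536870912 1) ndB0q0 ndB0q1 pcB1 cut_mm_011_s Ext.none)

def k0_mm_011_s : ∃ t, chk3 f_mm_011_s t 1 1 1 = true :=
  ⟨(l 5), by decide +kernel⟩

theorem c_mm_011_s : CertNE 0 536870912 536870912 536870912 818728140 40265320 3 eng mog cd0q0 cd0q1 pd1 false false false .pnn 0 1 1
    ndB0q0 ndB0q1 pcB1 cut_mm_011_s Ext.none :=
  certNE1 (fam := false) (s1 := false) (s2 := false) (a := 0) (b := 1) (c := 1) (cn := .pnn) (n1 := ndB0q0) (n2 := ndB0q1) (pc := pcB1) (cut := cut_mm_011_s) (xt := Ext.none) (P1 := 0) (W1 := 536870912) (P2 := 536870912) (W2 := 536870912) (P3 := 818728140) (W3 := 40265320) (N0 := 3) (En := eng) (mo := mog) (C1 := cd0q0) (C2 := cd0q1) (C3 := pd1)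
    rfl (fun _ => rfl) k0_mm_011_s

noncomputable def cut_mm_011_t : Cut := Cut.of [[⟨3, 0, 0, 2845415833⟩]]

noncomputable def f_mm_011_t : ℕ → ℕ → ℕ → ℕ → Bool := onCell 0 536870912 536870912 536870912 818728140 40265320
    (rowNE 3 eng mog cd0q0 cd0q1 pd1 0 false false false .pnn 0 1 1 (qsf 0 536870912 536870912 536870912 1) ndB0q0 ndB0q1 pcB1 cut_mm_011_t Ext.none)

def k0_mm_011_t : ∃ t, chk3 f_mm_011_t t 1 1 1 = true :=
  ⟨(l 6), by decide +kernel⟩

theorem c_mm_011_t : CertNE 0 536870912 536870912 536870912 818728140 40265320 3 eng mog cd0q0 cd0q1 pd1 false false false .pnn 0 1 1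
    ndB0q0 ndB0q1 pcB1 cut_mm_011_t Ext.none :=
  certNE0 (fam := false) (s1 := false) (s2 := false) (a := 0) (b := 1) (c := 1) (cn := .pnn) (n1 := ndB0q0) (n2 := ndB0q1) (pc := pcB1) (cut := cut_mm_011_t) (xt := Ext.none) (P1 := 0) (W1 := 536870912) (P2 := 536870912) (W2 := 536870912) (P3 := 818728140) (W3 := 40265320) (N0 := 3) (En := eng) (mo := mog) (C1 := cd0q0) (C2 := cd0q1) (C3 := pd1)
    rfl k0_mm_011_t

noncomputable def cut_mm_012_s : Cut := Cut.of [[⟨4, 0, 0, 1449551462⟩]]

noncomputable def f_mm_012_s : ℕ → ℕ → ℕ → ℕ → Bool := onCell 0 536870912 0 536870912 818728140 40265320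
    (rowNE 3 eng mog cd0q0 cd0q2 pd1 0 false false false .pnp 0 1 2 (qsf 0 536870912 0 536870912 1) ndB0q0 ndB0q2 pcB1 cut_mm_012_s Ext.none)

def k0_mm_012_s : ∃ t, chk3 f_mm_012_s t 1 1 1 = true :=
  ⟨(l 5), by decide +kernel⟩

theorem c_mm_012_s : CertNE 0 536870912 0 536870912 818728140 40265320 3 eng mog cd0q0 cd0q2 pd1 false false false .pnp 0 1 2
    ndB0q0 ndB0q2 pcB1 cut_mm_012_s Ext.none :=
  certNE0 (fam := false) (s1 := false) (s2 := false) (a := 0) (b := 1) (c := 2) (cn := .pnp) (n1 := ndB0q0) (n2 := ndB0q2) (pc := pcB1) (cut := cut_mm_012_s) (xt := Ext.none) (P1 := 0) (W1 := 536870912) (P2 := 0) (W2 := 536870912) (P3 := 818728140) (W3 := 40265320) (N0 := 3) (En := eng) (mo := mog) (C1 := cd0q0) (C2 := cd0q2) (C3 := pd1)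
    rfl k0_mm_012_s

noncomputable def cut_mm_012_t : Cut := Cut.of [[⟨3, 0, 0, 2845415833⟩]]

noncomputable def f_mm_012_t : ℕ → ℕ → ℕ → ℕ → Bool := onCell 0 536870912 0 536870912 818728140 40265320
    (rowNE 3 eng mog cd0q0 cd0q2 pd1 0 false false false .pnp 0 1 2 (qsf 0 536870912 0 536870912 1) ndB0q0 ndB0q2 pcB1 cut_mm_012_t Ext.none)

def k0_mm_012_t : ∃ t, chk3 f_mm_012_t t 1 1 1 = true :=
  ⟨(l 5), by decide +kernel⟩

theorem c_mm_012_t : CertNE 0 536870912 0 536870912 818728140 40265320 3 eng mog cd0q0 cd0q2 pd1 false false false .pnp 0 1 2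
    ndB0q0 ndB0q2 pcB1 cut_mm_012_t Ext.none :=
  certNE0 (fam := false) (s1 := false) (s2 := false) (a := 0) (b := 1) (c := 2) (cn := .pnp) (n1 := ndB0q0) (n2 := ndB0q2) (pc := pcB1) (cut := cut_mm_012_t) (xt := Ext.none) (P1 := 0) (W1 := 536870912) (P2 := 0) (W2 := 536870912) (P3 := 818728140) (W3 := 40265320) (N0 := 3) (En := eng) (mo := mog) (C1 := cd0q0) (C2 := cd0q2) (C3 := pd1)
    rfl k0_mm_012_t

noncomputable def cut_mm_022_s : Cut := Cut.of [[⟨4, 0, 0, 1449551462⟩]]

noncomputable def f_mm_022_s : ℕ → ℕ → ℕ → ℕ → Bool := onCell 0 536870912 0 536870912 818728140 40265320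
    (rowNE 3 eng mog cd0q0 cd0q2 pd2 0 false false false .pp 0 2 2 (qsf 0 536870912 0 536870912 2) ndB0q0 ndB0q2 pcB2 cut_mm_022_s Ext.none)

def k0_mm_022_s : ∃ t, chk3 f_mm_022_s t 1 1 1 = true :=
  ⟨(l 5), by decide +kernel⟩

theorem c_mm_022_s : CertNE 0 536870912 0 536870912 818728140 40265320 3 eng mog cd0q0 cd0q2 pd2 false false false .pp 0 2 2
    ndB0q0 ndB0q2 pcB2 cut_mm_022_s Ext.none :=
  certNE0 (fam := false) (s1 := false) (s2 := false) (a := 0) (b := 2) (c := 2) (cn := .pp) (n1 := ndB0q0) (n2 := ndB0q2) (pc := pcB2) (cut := cut_mm_022_s) (xt := Ext.none) (P1 := 0) (W1 := 536870912) (P2 := 0) (W2 := 536870912) (P3 := 818728140) (W3 := 40265320) (N0 := 3) (En := eng) (mo := mog) (C1 := cd0q0) (C2 := cd0q2) (C3 := pd2)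
    rfl k0_mm_022_s

noncomputable def cut_mm_022_t : Cut := Cut.of [[⟨3, 0, 0, 2845415833⟩]]

noncomputable def f_mm_022_t : ℕ → ℕ → ℕ → ℕ → Bool := onCell 0 536870912 0 536870912 818728140 40265320
    (rowNE 3 eng mog cd0q0 cd0q2 pd2 0 false false false .pp 0 2 2 (qsf 0 536870912 0 536870912 2) ndB0q0 ndB0q2 pcB2 cut_mm_022_t Ext.none)

def k0_mm_022_t : ∃ t, chk3 f_mm_022_t t 1 1 1 = true :=
  ⟨(l 5), by decide +kernel⟩

theorem c_mm_022_t : CertNE 0 536870912 0 536870912 818728140 40265320 3 eng mog cd0q0 cd0q2 pd2 false false false .pp 0 2 2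
    ndB0q0 ndB0q2 pcB2 cut_mm_022_t Ext.none :=
  certNE0 (fam := false) (s1 := false) (s2 := false) (a := 0) (b := 2) (c := 2) (cn := .pp) (n1 := ndB0q0) (n2 := ndB0q2) (pc := pcB2) (cut := cut_mm_022_t) (xt := Ext.none) (P1 := 0) (W1 := 536870912) (P2 := 0) (W2 := 536870912) (P3 := 818728140) (W3 := 40265320) (N0 := 3) (En := eng) (mo := mog) (C1 := cd0q0) (C2 := cd0q2) (C3 := pd2)
    rfl k0_mm_022_t

noncomputable def cut_mm_101_s : Cut := Cut.of [[⟨4, 0, 0, 1449551462⟩]]

noncomputable def f_mm_101_s : ℕ → ℕ → ℕ → ℕ → Bool := onCell 536870912 536870912 536870912 536870912 818728140 40265320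
    (rowNE 3 eng mog cd0q1 cd0q1 pd0 0 false false false .npn 1 0 1 (qsf 536870912 536870912 536870912 536870912 0) ndB0q1 ndB0q1 pcB0 cut_mm_101_s Ext.none)

def k0_mm_101_s : ∃ t, chk3 f_mm_101_s t 1 1 1 = true :=
  ⟨(l 3), by decide +kernel⟩

theorem c_mm_101_s : CertNE 536870912 536870912 536870912 536870912 818728140 40265320 3 eng mog cd0q1 cd0q1 pd0 false false false .npn 1 0 1
    ndB0q1 ndB0q1 pcB0 cut_mm_101_s Ext.none :=
  certNE0 (fam := false) (s1 := false) (s2 := false) (a := 1) (b := 0) (c := 1) (cn := .npn) (n1 := ndB0q1) (n2 := ndB0q1) (pc := pcB0) (cut := cut_mm_101_s) (xt := Ext.none) (P1 := 536870912) (W1 := 536870912) (P2 := 536870912) (W2 := 536870912) (P3 := 818728140) (W3 := 40265320) (N0 := 3) (En := eng) (mo := mog) (C1 := cd0q1) (C2 := cd0q1) (C3 := pd0)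
    rfl k0_mm_101_s

noncomputable def cut_mm_101_t : Cut := Cut.of [[⟨3, 0, 0, 2845415833⟩]]

noncomputable def f_mm_101_t : ℕ → ℕ → ℕ → ℕ → Bool := onCell 536870912 536870912 536870912 536870912 818728140 40265320
    (rowNE 3 eng mog cd0q1 cd0q1 pd0 0 false false false .npn 1 0 1 (qsf 536870912 536870912 536870912 536870912 0) ndB0q1 ndB0q1 pcB0 cut_mm_101_t Ext.none)

def k0_mm_101_t : ∃ t, chk3 f_mm_101_t t 1 1 1 = true :=
  ⟨(l 3), by decide +kernel⟩

theorem c_mm_101_t : CertNE 536870912 536870912 536870912 536870912 818728140 40265320 3 eng mog cd0q1 cd0q1 pd0 false false false .npn 1 0 1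
    ndB0q1 ndB0q1 pcB0 cut_mm_101_t Ext.none :=
  certNE0 (fam := false) (s1 := false) (s2 := false) (a := 1) (b := 0) (c := 1) (cn := .npn) (n1 := ndB0q1) (n2 := ndB0q1) (pc := pcB0) (cut := cut_mm_101_t) (xt := Ext.none) (P1 := 536870912) (W1 := 536870912) (P2 := 536870912) (W2 := 536870912) (P3 := 818728140) (W3 := 40265320) (N0 := 3) (En := eng) (mo := mog) (C1 := cd0q1) (C2 := cd0q1) (C3 := pd0)
    rfl k0_mm_101_t

noncomputable def cut_mm_102_s : Cut := Cut.of [[⟨4, 0, 0, 1449551462⟩]]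

noncomputable def f_mm_102_s : ℕ → ℕ → ℕ → ℕ → Bool := onCell 536870912 536870912 0 536870912 818728140 40265320
    (rowNE 3 eng mog cd0q1 cd0q2 pd0 0 false false false .npp 1 0 2 (qsf 536870912 536870912 0 536870912 0) ndB0q1 ndB0q2 pcB0 cut_mm_102_s Ext.none)

def k0_mm_102_s : ∃ t, chk3 f_mm_102_s t 1 1 1 = true :=
  ⟨(a (l 5) (l 3)), by decide +kernel⟩

theorem c_mm_102_s : CertNE 536870912 536870912 0 536870912 818728140 40265320 3 eng mog cd0q1 cd0q2 pd0 false false false .npp 1 0 2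
    ndB0q1 ndB0q2 pcB0 cut_mm_102_s Ext.none :=
  certNE0 (fam := false) (s1 := false) (s2 := false) (a := 1) (b := 0) (c := 2) (cn := .npp) (n1 := ndB0q1) (n2 := ndB0q2) (pc := pcB0) (cut := cut_mm_102_s) (xt := Ext.none) (P1 := 536870912) (W1 := 536870912) (P2 := 0) (W2 := 536870912) (P3 := 818728140) (W3 := 40265320) (N0 := 3) (En := eng) (mo := mog) (C1 := cd0q1) (C2 := cd0q2) (C3 := pd0)
    rfl k0_mm_102_s

noncomputable def cut_mm_102_t : Cut := Cut.of [[⟨3, 0, 0, 2845415833⟩]]

noncomputable def f_mm_102_t : ℕ → ℕ → ℕ → ℕ → Bool := onCell 536870912 536870912 0 536870912 818728140 40265320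
    (rowNE 3 eng mog cd0q1 cd0q2 pd0 0 false false false .npp 1 0 2 (qsf 536870912 536870912 0 536870912 0) ndB0q1 ndB0q2 pcB0 cut_mm_102_t Ext.none)

def k0_mm_102_t : ∃ t, chk3 f_mm_102_t t 1 1 1 = true :=
  ⟨(l 6), by decide +kernel⟩

theorem c_mm_102_t : CertNE 536870912 536870912 0 536870912 818728140 40265320 3 eng mog cd0q1 cd0q2 pd0 false false false .npp 1 0 2
    ndB0q1 ndB0q2 pcB0 cut_mm_102_t Ext.none :=
  certNE0 (fam := false) (s1 := false) (s2 := false) (a := 1) (b := 0) (c := 2) (cn := .npp) (n1 := ndB0q1) (n2 := ndB0q2) (pc := pcB0) (cut := cut_mm_102_t) (xt := Ext.none) (P1 := 536870912) (W1 := 536870912) (P2 := 0) (W2 := 536870912) (P3 := 818728140) (W3 := 40265320) (N0 := 3) (En := eng) (mo := mog) (C1 := cd0q1) (C2 := cd0q2) (C3 := pd0)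
    rfl k0_mm_102_t

noncomputable def cut_mm_112_s : Cut := Cut.of [[⟨4, 0, 0, 1449551462⟩]]

noncomputable def f_mm_112_s : ℕ → ℕ → ℕ → ℕ → Bool := onCell 536870912 536870912 0 536870912 818728140 40265320
    (rowNE 3 eng mog cd0q1 cd0q2 pd1 2 false false false .dn 1 1 2 (qsf 536870912 536870912 0 536870912 1) ndB0q1 ndB0q2 pcB1 cut_mm_112_s Ext.none)

def k0_mm_112_s : ∃ t, chk3 f_mm_112_s t 1 1 1 = true :=
  ⟨(l 5), by decide +kernel⟩

theorem c_mm_112_s : CertNE 536870912 536870912 0 536870912 818728140 40265320 3 eng mog cd0q1 cd0q2 pd1 false false false .dn 1 1 2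
    ndB0q1 ndB0q2 pcB1 cut_mm_112_s Ext.none :=
  certNE2 (fam := false) (s1 := false) (s2 := false) (a := 1) (b := 1) (c := 2) (cn := .dn) (n1 := ndB0q1) (n2 := ndB0q2) (pc := pcB1) (cut := cut_mm_112_s) (xt := Ext.none) (P1 := 536870912) (W1 := 536870912) (P2 := 0) (W2 := 536870912) (P3 := 818728140) (W3 := 40265320) (N0 := 3) (En := eng) (mo := mog) (C1 := cd0q1) (C2 := cd0q2) (C3 := pd1)
    rfl (fun _ => rfl) k0_mm_112_s

noncomputable def cut_mm_112_t : Cut := Cut.of [[⟨3, 0, 0, 2845415833⟩]]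

noncomputable def f_mm_112_t : ℕ → ℕ → ℕ → ℕ → Bool := onCell 536870912 536870912 0 536870912 818728140 40265320
    (rowNE 3 eng mog cd0q1 cd0q2 pd1 0 false false false .dn 1 1 2 (qsf 536870912 536870912 0 536870912 1) ndB0q1 ndB0q2 pcB1 cut_mm_112_t Ext.none)

def k0_mm_112_t : ∃ t, chk3 f_mm_112_t t 1 1 1 = true :=
  ⟨(l 6), by decide +kernel⟩

theorem c_mm_112_t : CertNE 536870912 536870912 0 536870912 818728140 40265320 3 eng mog cd0q1 cd0q2 pd1 false false false .dn 1 1 2
    ndB0q1 ndB0q2 pcB1 cut_mm_112_t Ext.none :=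
  certNE0 (fam := false) (s1 := false) (s2 := false) (a := 1) (b := 1) (c := 2) (cn := .dn) (n1 := ndB0q1) (n2 := ndB0q2) (pc := pcB1) (cut := cut_mm_112_t) (xt := Ext.none) (P1 := 536870912) (W1 := 536870912) (P2 := 0) (W2 := 536870912) (P3 := 818728140) (W3 := 40265320) (N0 := 3) (En := eng) (mo := mog) (C1 := cd0q1) (C2 := cd0q2) (C3 := pd1)
    rfl k0_mm_112_t

noncomputable def cut_mm_202_s : Cut := Cut.of [[⟨4, 0, 0, 1449551462⟩]]

noncomputable def f_mm_202_s : ℕ → ℕ → ℕ → ℕ → Bool := onCell 0 536870912 0 536870912 818728140 40265320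
    (rowNE 3 eng mog cd0q2 cd0q2 pd0 0 false false false .pp 2 0 2 (qsf 0 536870912 0 536870912 0) ndB0q2 ndB0q2 pcB0 cut_mm_202_s Ext.none)

def k0_mm_202_s : ∃ t, chk3 f_mm_202_s t 1 1 1 = true :=
  ⟨(l 3), by decide +kernel⟩

theorem c_mm_202_s : CertNE 0 536870912 0 536870912 818728140 40265320 3 eng mog cd0q2 cd0q2 pd0 false false false .pp 2 0 2
    ndB0q2 ndB0q2 pcB0 cut_mm_202_s Ext.none :=
  certNE0 (fam := false) (s1 := false) (s2 := false) (a := 2) (b := 0) (c := 2) (cn := .pp) (n1 := ndB0q2) (n2 := ndB0q2) (pc := pcB0) (cut := cut_mm_202_s) (xt := Ext.none) (P1 := 0) (W1 := 536870912) (P2 := 0) (W2 := 536870912) (P3 := 818728140) (W3 := 40265320) (N0 := 3) (En := eng) (mo := mog) (C1 := cd0q2) (C2 := cd0q2) (C3 := pd0)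
    rfl k0_mm_202_s

noncomputable def cut_mm_202_t : Cut := Cut.of [[⟨3, 0, 0, 2845415833⟩]]

noncomputable def f_mm_202_t : ℕ → ℕ → ℕ → ℕ → Bool := onCell 0 536870912 0 536870912 818728140 40265320
    (rowNE 3 eng mog cd0q2 cd0q2 pd0 0 false false false .pp 2 0 2 (qsf 0 536870912 0 536870912 0) ndB0q2 ndB0q2 pcB0 cut_mm_202_t Ext.none)

def k0_mm_202_t : ∃ t, chk3 f_mm_202_t t 1 1 1 = true :=
  ⟨(l 3), by decide +kernel⟩

theorem c_mm_202_t : CertNE 0 536870912 0 536870912 818728140 40265320 3 eng mog cd0q2 cd0q2 pd0 false false false .pp 2 0 2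
    ndB0q2 ndB0q2 pcB0 cut_mm_202_t Ext.none :=
  certNE0 (fam := false) (s1 := false) (s2 := false) (a := 2) (b := 0) (c := 2) (cn := .pp) (n1 := ndB0q2) (n2 := ndB0q2) (pc := pcB0) (cut := cut_mm_202_t) (xt := Ext.none) (P1 := 0) (W1 := 536870912) (P2 := 0) (W2 := 536870912) (P3 := 818728140) (W3 := 40265320) (N0 := 3) (En := eng) (mo := mog) (C1 := cd0q2) (C2 := cd0q2) (C3 := pd0)
    rfl k0_mm_202_t

end Pool.Agent.Strip051.G.I7625_8000.Tab.CS.BB00

namespace Pool.Agent.Strip051.G.I7625_8000.Tab.CS.BB04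

open Pool.Agent.Strip051.PB Pool.Agent.Strip051.PB.T
open Pool.Agent.Strip051.G.I7625_8000.Tab

noncomputable def cut_pp_001_s : Cut := Cut.of [[⟨4, 0, 0, 1449551462⟩]]

noncomputable def f_pp_001_s : ℕ → ℕ → ℕ → ℕ → Bool := onCell 0 536870912 0 536870912 818728140 40265320
    (rowNE 3 eng mog cd0q0 cd4q1 pd0 1 false true true .up 0 0 1 (qsf 0 536870912 536870912 536870912 0) ndB0q0 ndB4q1 pcB0 cut_pp_001_s Ext.none)

def k0_pp_001_s : ∃ t, chk3 f_pp_001_s t 1 1 1 = true :=
  ⟨(l 3), by decide +kernel⟩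

theorem c_pp_001_s : CertNE 0 536870912 536870912 536870912 818728140 40265320 3 eng mog cd0q0 cd4q1 pd0 false true true .up 0 0 1
    ndB0q0 ndB4q1 pcB0 cut_pp_001_s Ext.none :=
  certNE1 (fam := false) (s1 := true) (s2 := true) (a := 0) (b := 0) (c := 1) (cn := .up) (n1 := ndB0q0) (n2 := ndB4q1) (pc := pcB0) (cut := cut_pp_001_s) (xt := Ext.none) (P1 := 0) (W1 := 536870912) (P2 := 536870912) (W2 := 536870912) (P3 := 818728140) (W3 := 40265320) (N0 := 3) (En := eng) (mo := mog) (C1 := cd0q0) (C2 := cd4q1) (C3 := pd0)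
    rfl (fun _ => rfl) k0_pp_001_s

noncomputable def cut_pp_011_s : Cut := Cut.of [[⟨4, 0, 0, 1449551462⟩], [⟨0, 0, 0, 67108864⟩, ⟨1, 1, 0, 67108864⟩, ⟨2, 1, 0, 67108864⟩]]

noncomputable def f_pp_011_s : ℕ → ℕ → ℕ → ℕ → Bool := onCell 0 536870912 536870912 536870912 818728140 40265320
    (rowNE 3 eng mog cd0q0 cd4q1 pd1 1 false true true .pnn 0 1 1 (qsf 0 536870912 536870912 536870912 1) ndB0q0 ndB4q1 pcB1 cut_pp_011_s Ext.none)

def k0_pp_011_s : ∃ t, chk3 f_pp_011_s t 1 1 1 = true :=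
  ⟨(b (l 3) (a (b (l 3) (a (b (l 3) (a (b (l 3) (a (l 14) (l 3))) (l 3))) (l 3))) (l 3))), by decide +kernel⟩

theorem c_pp_011_s : CertNE 0 536870912 536870912 536870912 818728140 40265320 3 eng mog cd0q0 cd4q1 pd1 false true true .pnn 0 1 1
    ndB0q0 ndB4q1 pcB1 cut_pp_011_s Ext.none :=
  certNE1 (fam := false) (s1 := true) (s2 := true) (a := 0) (b := 1) (c := 1) (cn := .pnn) (n1 := ndB0q0) (n2 := ndB4q1) (pc := pcB1) (cut := cut_pp_011_s) (xt := Ext.none) (P1 := 0) (W1 := 536870912) (P2 := 536870912) (W2 := 536870912) (P3 := 818728140) (W3 := 40265320) (N0 := 3) (En := eng) (mo := mog) (C1 := cd0q0) (C2 := cd4q1) (C3 := pd1)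
    rfl (fun _ => rfl) k0_pp_011_s

noncomputable def cut_pp_012_s : Cut := Cut.of [[⟨4, 0, 0, 1449551462⟩], [⟨0, 0, 0, 67108864⟩, ⟨1, 1, 0, 67108864⟩, ⟨2, 1, 0, 67108864⟩]]

noncomputable def f_pp_012_s : ℕ → ℕ → ℕ → ℕ → Bool := onCell 0 536870912 536870912 536870912 818728140 40265320
    (rowNE 3 eng mog cd0q0 cd4q2 pd1 1 false true true .pnp 0 1 2 (qsf 0 536870912 1073741824 536870912 1) ndB0q0 ndB4q2 pcB1 cut_pp_012_s Ext.none)

def k0_pp_012_s : ∃ t, chk3 f_pp_012_s t 1 1 1 = true :=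
  ⟨(b (l 3) (a (b (l 3) (a (a (a (b (l 1) (b (l 3) (l 14))) (l 3)) (l 3)) (l 3))) (l 3))), by decide +kernel⟩

theorem c_pp_012_s : CertNE 0 536870912 1073741824 536870912 818728140 40265320 3 eng mog cd0q0 cd4q2 pd1 false true true .pnp 0 1 2
    ndB0q0 ndB4q2 pcB1 cut_pp_012_s Ext.none :=
  certNE1 (fam := false) (s1 := true) (s2 := true) (a := 0) (b := 1) (c := 2) (cn := .pnp) (n1 := ndB0q0) (n2 := ndB4q2) (pc := pcB1) (cut := cut_pp_012_s) (xt := Ext.none) (P1 := 0) (W1 := 536870912) (P2 := 1073741824) (W2 := 536870912) (P3 := 818728140) (W3 := 40265320) (N0 := 3) (En := eng) (mo := mog) (C1 := cd0q0) (C2 := cd4q2) (C3 := pd1)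
    rfl (fun _ => rfl) k0_pp_012_s

end Pool.Agent.Strip051.G.I7625_8000.Tab.CS.BB04

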