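import Pool.Agent.Strip051.G.I7625_8000.Tab
import Pool.Agent.Strip051.PB.ExtD2

/-! # Certificates B1 (generated) -/

set_option linter.all false
set_option maxRecDepth 100000

namespace Pool.Agent.Strip051.G.I7625_8000.Tab.C.BA00

open Pool.Agent.Strip051.PB Pool.Agent.Strip051.PB.T
open Pool.Agent.Strip051.G.I7625_8000.Tab

noncomputable def cut_pm_123 : Cut := Cut.of [[⟨3, 0, 0, 1449551462⟩], [⟨4, 0, 0, 2845415833⟩], [⟨0, 1, 0, 67108864⟩, ⟨1, 1, 0, 67108864⟩, ⟨2, 2, 0, 16777216⟩], [⟨0, 0, 1, 26214400⟩, ⟨1, 1, 0, 33554432⟩, ⟨2, 1, 1, 26214400⟩]]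

noncomputable def xt_pm_123 : Ext := extD2 3 ⟨4, 1, 1, 5, 13, 5, 23, 25, 43, 100, 1, 8⟩ eng cd0q1 cd0q2 pd3 true true false .npn 1 2 3 rfl ndB0q1 ndB0q2 pcB3

noncomputable def f_pm_123 : ℕ → ℕ → ℕ → ℕ → Bool := onCell 1610612736 536870912 0 536870912 818728140 40265320
    (rowB 3 eng mog cd0q1 cd0q2 pd3 2 true true false .npn 1 2 3 (qsf 536870912 536870912 0 536870912 3) ndB0q1 ndB0q2 pcB3 cut_pm_123 xt_pm_123)

def k0_pm_123 : ∃ t, chk3 f_pm_123 t 4 1 1 = true :=
  ⟨(b (b (l 1) (a (l 1) (b (l 1) (a (l 1) (l 16549872))))) (b (a (l 1) (b (a (l 1) (l 16541176)) (a (b (l 16441904) (l 16402312)) (b (l 16449088) (l 16409104))))) (a (b (a (l 1) (b (l 16377328) (a (l 16312032) (l 16311848)))) (b (a (a (l 1) (a (l 16267440) (l 16266208))) (b (l 16277168) (a (l 16253024) (l 16253056)))) (a (b (a (c (l 16247776) (l 16215336)) (l 16228608)) (a (c (b (l 16228632) (l 16215480)) (l 16185912)) (c (b (l 16226728) (l 16213688)) (l 16182320)))) (b (a (l 16227328) (l 16227496)) (a (c (l 16219912) (l 16180464)) (c (l 16221000) (l 16180000)))))))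 (b (b (a (l 16358632) (l 16365032)) (a (b (l 16325120) (l 16302632)) (l 16320816))) (b (a (b (l 16279584) (l 16255552)) (b (l 16287056) (l 16263624))) (a (b (a (l 16229016) (l 16231944)) (a (c (l 16223560) (l 16180968)) (c (l 16227664) (l 16183440)))) (b (a (l 16236360) (l 16242360)) (a (c (l 16233424) (l 16187488)) (c (l 16241000) (l 16193256)))))))))), by decide +kernel⟩

def k1_pm_123 : ∃ t, chk3 f_pm_123 t 5 2 1 = true :=
  ⟨(a (b (b (l 14) (a (l 16659232) (l 14))) (b (a (l 16611040) (l 16691264)) (a (l 16564480) (l 16579304)))) (b (l 14) (b (a (l 16667000) (l 14)) (a (l 16660272) (b (l 16630712) (l 16606056)))))), by decide +kernel⟩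

def k2_pm_123 : ∃ t, chk3 f_pm_123 t 10 3 1 = true :=
  ⟨(b (a (b (l 16552704) (l 16460624)) (b (l 16524432) (l 16495864))) (b (b (a (l 16375568) (l 16390568)) (a (l 16332368) (a (l 16344352) (l 16354056)))) (b (a (b (l 16299944) (l 16277696)) (b (a (l 16313512) (l 16325344)) (a (l 16292856) (l 16306576)))) (a (b (a (l 16250088) (l 16280656)) (a (b (l 16231992) (c (l 16244968) (l 16194016))) (c (b (l 16267656) (a (l 16254072) (l 16261232))) (l 16210792)))) (b (a (b (l 16277248) (l 16266768)) (a (l 16304856) (c (l 16319616) (l 16267304)))) (c (a (b (l 16282920) (c (l 139410892215468047) (l 16281424))) (b (l 139584821242773519) (a (l 139446695068385295) (l 139597190749798415)))) (a (b (l 16229912) (l 16218184)) (b (l 16247312) (a (l 16231944) (l 16243064)))))))))), by decide +kernel⟩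

def k3_pm_123 : ∃ t, chk3 f_pm_123 t 11 6 1 = true :=
  ⟨(a (b (l 16542384) (b (l 16491792) (l 16452272))) (a (b (l 16558600) (l 16553520)) (b (b (l 16585240) (l 16556312)) (b (l 16524216) (l 16490000))))), by decide +kernel⟩

def k4_pm_123 : ∃ t, chk3 f_pm_123 t 11 14 1 = true :=
  ⟨(a (b (b (l 16421352) (l 16400824)) (a (b (l 16374928) (l 16357224)) (b (l 16389440) (l 16374608)))) (b (a (l 16434008) (b (l 16465048) (l 16450072))) (a (b (l 16409152) (l 16397872)) (b (a (l 16428536) (l 16445216)) (c (l 16451008) (l 16404416)))))), by decide +kernel⟩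

def k5_pm_123 : ∃ t, chk3 f_pm_123 t 22 15 1 = true :=
  ⟨(b (a (b (l 16340720) (l 16346184)) (b (l 16361968) (c (l 16376344) (l 16323992)))) (b (a (b (c (l 16341416) (l 16287888)) (c (l 139948416060719119) (l 16279160))) (b (c (l 16371376) (l 16313384)) (c (l 140310911367348239) (l 16306872)))) (a (c (b (a (l 139814344336752655) (l 139990678546546703)) (a (c (l 139935909114560527) (l 139599183613640719)) (c (l 140129148319563791) (l 139782664650162191)))) (b (l 139240467877396495) (a (l 139079320673878031) (l 139248370616139791)))) (c (b (a (l 140183436714639375) (l 140388564391149583)) (a (c (b (l 140339223799644175) (l 140333588801765391)) (l 139979202389966863)) (c (b (l 140558164094271503) (l 140558645131116559)) (l 140189552747495439)))) (b (l 139586195625361423) (a (l 139429377749843983) (l 139622960550445071))))))), by decide +kernel⟩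

def k6_pm_123 : ∃ t, chk3 f_pm_123 t 23 15 1 = true :=
  ⟨(b (a (b (l 16409560) (b (l 16382824) (l 16400200))) (b (a (l 16412768) (l 16432232)) (a (a (l 16402512) (l 16412592)) (b (l 16429472) (l 16428296))))) (b (a (b (c (l 16407616) (l 16344392)) (c (l 141087441532551183) (l 140027237306908687))) (c (a (b (l 16438520) (a (l 141014598941884431) (l 141141111523655695))) (b (l 16462936) (a (l 141273396542947343) (l 141409048817729551)))) (a (b (l 16370984) (l 140341903848472591)) (b (l 16392456) (l 140940038220431375))))) (a (c (b (a (l 140607642124353551) (l 141201722045202447)) (a (b (l 140785625569296399) (c (a (l 140737796841422863) (l 140862591435259919)) (l 140412547491495951))) (b (c (l 141043461132353551) (l 140653752900255759)) (c (a (l 140991784076509199) (l 141125512204189711)) (l 140656432960700431))))) (b (a (l 139876054430089231) (l 140085167835693071)) (a (c (l 140026275235594255) (l 139631206886129679)) (c (l 140253118270291983) (l 139845130655793167))))) (b (a (c (a (b (l 141022845281697807) (l 141031641377079311))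 (b (l 141154511825305615) (l 141166881334296591))) (a (l 140250781805002767) (l 140370834753961999))) (c (a (b (l 141291538489753615) (l 141305763425501199)) (b (l 141430695459176463) (l 141448974845116431))) (a (l 140673612793217039) (l 140617056689766415)))) (c (a (a (b (c (l 141243159970545679) (l 140842044302426127)) (c (a (l 141408773907398671) (b (l 141293325199114255) (l 141303976720728079))) (a (l 140816892969549839) (l 140882245204901903)))) (b (c (l 141384722121457679) (l 140975634992185359)) (c (b (l 141401489678106639) (c (l 141519618483748879) (l 141307550134599695))) (l 140984293649252367)))) (b (c (a (l 141531025918099471) (l 141684613980782607)) (l 141364243676872719)) (c (a (b (l 141551779205283855) (c (a (l 141635616984809487) (l 30)) (l 141458458137149455))) (c (l 30) (a (l 141568752920133647) (l 141829543351189519)))) (a (b (l 141122625984692239) (l 141130460007284751)) (b (l 141270922646585359) (l 141461825355776015)))))) (a (a (b (l 140230165957935119) (c (l 140429452480921615) (l 140004078834663439)))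 (b (l 140351936894926863) (l 140338948912480271))) (b (c (l 140755663903801359) (l 140321562882146319)) (c (a (l 140687906486845455) (l 140827613212409871)) (l 140307544107499535))))))))), by decide +kernel⟩

def k7_pm_123 : ∃ t, chk3 f_pm_123 t 3 2 1 = true :=
  ⟨(a (a (b (l 14) (a (b (l 14) (b (l 14) (a (l 16624560) (l 14)))) (l 14))) (l 14)) (l 14)), by decide +kernel⟩

def k8_pm_123 : ∃ t, chk3 f_pm_123 t 12 6 1 = true :=
  ⟨(a (b (b (a (l 16599832) (l 16617392)) (a (l 16573216) (l 16594864))) (b (a (l 16544856) (l 16571792)) (a (l 16516776) (l 16548472)))) (b (b (l 14) (a (l 16621544) (l 14))) (b (a (l 16602432) (b (l 16639624) (l 16632232))) (a (l 16584376) (b (l 16625080) (l 16619104)))))), by decide +kernel⟩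

def k9_pm_123 : ∃ t, chk3 f_pm_123 t 12 14 1 = true :=
  ⟨(a (b (a (b (l 16496200) (l 16483544)) (l 16569320)) (c (a (b (l 16495376) (l 16492248)) (b (l 16538504) (a (l 16526104) (l 16550760)))) (a (b (l 16451216) (l 16441512)) (b (l 16490312) (b (l 16484088) (l 16482072)))))) (b (a (b (l 16571512) (l 16564792)) (b (l 16614392) (l 16612464))) (a (a (b (l 16548592) (b (a (l 16540544) (l 16553272)) (l 16548728))) (b (l 16573344) (b (a (l 16566584) (l 16601440)) (l 16576840)))) (a (a (b (l 16592944) (b (b (l 16594360) (l 16595632)) (l 16599512))) (b (l 16606736) (b (b (l 16609272) (l 16610904)) (l 16615432)))) (b (l 16628408) (a (b (l 16625768) (l 16626024)) (b (l 16631864) (l 16630784)))))))), by decide +kernel⟩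

def k10_pm_123 : ∃ t, chk3 f_pm_123 t 24 30 1 = true :=
  ⟨(a (b (a (l 16474200) (a (l 16469920) (l 16481480))) (b (c (l 16496472) (l 16431112)) (c (l 16541480) (l 16429408)))) (b (a (c (l 16530968) (l 16468408)) (a (l 16560936) (l 16574528))) (c (a (l 16539888) (l 16571112)) (a (l 16467616) (l 16495600))))), by decide +kernel⟩

def k11_pm_123 : ∃ t, chk3 f_pm_123 t 24 62 1 = true :=
  ⟨(a (a (b (c (l 16489512) (l 16415928)) (c (b (l 16534616) (l 141628470153461775)) (l 140826513695768591))) (c (b (l 16518376) (b (l 16565040) (l 141936951949082639))) (b (l 16441496) (l 141092526846296079)))) (b (a (a (l 142424104355086351) (l 142577555021660175)) (c (l 16584704) (l 16500624))) (a (c (b (l 16598424) (l 142277594466172943)) (l 141748179435651087)) (c (l 30) (b (l 16525368) (l 141727975980810255)))))), by decide +kernel⟩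

def k12_pm_123 : ∃ t, chk3 f_pm_123 t 24 63 1 = true :=
  ⟨(a (b (b (c (a (l 141831123896352783) (l 142331814070796303)) (a (l 140815174982205455) (l 141096856176476175))) (c (a (a (l 141599539250216975) (l 141757937677189135)) (a (l 141924582443008015) (l 142099748425613327))) (a (l 140992265074622479) (c (l 141333732261871631) (l 140874617345654799))))) (b (a (c (a (c (l 141846036065386511) (l 141408499066929167)) (c (l 30) (l 141568203164188687))) (c (l 141039200524320783) (l 140584964691984399))) (c (c (l 30) (a (l 141736359758757903) (l 141913312448069647))) (c (a (l 141272297038069775) (l 141438392047845391)) (l 140878809235931151)))) (a (c (a (c (b (l 142236500139278351) (l 30)) (b (l 141427122049843215) (c (l 141555833656721423) (l 141325898240540687)))) (c (l 30) (b (l 141591636511424527) (c (l 30) (l 141491099897004047))))) (c (a (l 140975085240352783) (b (l 141126130681446415) (l 141135201654816783))) (a (l 140510060448038927) (l 140654852415799311)))) (a (c (a (c (l 30) (c (l 30) (l 141791816352006159))) (l 30))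 (c (b (l 141288514838757391) (c (l 141422724004544527) (l 141178769812881423))) (l 140807753283403791))) (c (l 30) (c (b (l 141459763810304015) (c (a (l 141555077744148495) (l 30)) (l 141350637259816975))) (l 141149426555273231))))))) (b (a (c (b (a (l 142233751432019983) (l 30)) (l 30)) (b (l 141589918487281679) (a (l 141345689454870543) (l 141517282023833615)))) (c (l 30) (b (l 142477911637655567) (a (l 141698151723974671) (l 141888848311189519))))) (b (c (l 30) (c (a (a (l 141613489310842895) (l 141798069863481359)) (l 30)) (a (a (l 141121045441740815) (l 141293874961481743)) (a (l 141476256490340367) (l 141668739784245263))))) (c (l 30) (c (a (a (b (l 141640289913012239) (c (l 30) (l 141802192978903055))) (l 30)) (l 30)) (a (a (b (l 141134583182262287) (l 141325485891338255)) (b (l 141312841541713935) (c (l 141459763812843535) (l 141194506579755023)))) (a (b (l 141500995507732495) (c (l 30) (l 141383485179609103))) (b (l 142060028491743247) (l 30))))))))), by decide +kernel⟩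

def k13_pm_123 : ∃ t, chk3 f_pm_123 t 25 30 1 = true :=
  ⟨(a (b (c (a (l 16588120) (l 16615024)) (b (l 16533024) (l 16535904))) (a (c (l 16605232) (l 16526288)) (c (c (l 16600344) (l 16615120)) (l 16559952)))) (b (c (a (l 16625656) (c (l 16614464) (l 16610272))) (a (l 16581552) (l 16616648))) (a (c (c (l 16609168) (l 16603368)) (l 16617840)) (a (c (l 16612776) (l 16623032)) (c (l 16622264) (l 16627680)))))), by decide +kernel⟩

def k14_pm_123 : ∃ t, chk3 f_pm_123 t 25 62 1 = true :=
  ⟨(a (b (c (a (l 16611544) (l 16599720)) (a (l 16534688) (l 16572168))) (c (b (a (l 16602504) (l 16611520)) (a (l 142819378885541903) (l 142878134056452111))) (a (b (l 16582320) (l 142098442756374543)) (a (l 142376481815937039) (l 30))))) (b (a (c (l 16608504) (l 30)) (c (c (l 16641096) (l 16634768)) (l 16625472))) (a (c (a (l 142813606480216143) (l 142861710127956047)) (l 30)) (c (b (l 16618032) (c (l 142980320003096655) (l 142891809302511695))) (a (l 142911737881608207) (l 142781239604330511)))))), by decide +kernel⟩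

def k15_pm_123 : ∃ t, chk3 f_pm_123 t 25 126 1 = true :=
  ⟨(a (b (a (c (a (l 30) (l 142673624925028367)) (a (l 142042779969798159) (l 142245983504252943))) (c (a (l 142725851736408079) (l 142776979035979855)) (l 30))) (a (c (a (l 30) (l 142818279404175375)) (a (l 142269966570455055) (l 30))) (c (a (l 142825838550892623) (c (l 143019696238264399) (l 142914624141295759))) (l 30)))) (c (a (a (b (l 142826869384806479) (c (l 143069242989445199) (l 142966026318692431))) (b (l 142875728941301839) (c (l 143117690228834383) (l 143016328984281167)))) (a (b (l 142923420266528847) (c (l 143165106675908687) (l 142885349670092879))) (b (l 142969943360487503) (c (l 143211492330651855) (l 142933522031575119))))) (c (a (l 30) (b (l 142804398071316559) (a (l 142783507389628495) (l 142833535177326671)))) (l 30)))), by decide +kernel⟩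

def k16_pm_123 : ∃ t, chk3 f_pm_123 t 50 127 1 = true :=
  ⟨(b (c (a (a (l 30) (c (b (l 142927131087487119) (l 142753958007324751)) (l 30))) (a (c (c (l 142830099200180303) (l 142774986170826895)) (l 30)) (c (b (l 143030141600415823) (l 142857518276001871)) (b (l 142921496090181775) (l 142746536303231119))))) (l 30)) (a (a (l 30) (c (c (c (c (a (a (l 30) (b (l 142977914789216399) (b (l 142984236982091855) (l 142988566309814351)))) (b (l 142997499843313743) (b (l 143003890755665999) (a (l 143001691732017231) (l 143014817154203727))))) (l 30)) (l 30)) (l 30)) (l 30))) (c (a (c (c (b (b (l 143020177274404943) (l 142844186695106639)) (a (b (l 143015573068611663) (a (b (l 143012274533154895) (l 143014473556721743)) (b (l 143025331235848271) (l 143027530259431503)))) (b (l 143041480315568207) (a (b (l 143038319219064911) (l 143040518242631759)) (l 143052337994580047))))) (a (l 30) (b (l 142978533264736335) (b (l 142984030823710799) (c (a (l 142995919295021135) (l 143008975997730895)) (l 30)))))) (l 30)) (c (a (b (l 142852501753233487)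 (a (b (l 143032271904194639) (c (l 143065257258287183) (a (l 142959223095820367) (l 143010762704437327)))) (b (l 143045191167934543) (c (l 143078039083040847) (b (l 143019558798917711) (l 142976540406743119)))))) (b (c (l 143086010543898703) (l 143030210319761487)) (b (c (l 143092607614582863) (l 143035982756610127)) (c (a (l 143090820907778127) (l 143103534013022287)) (b (l 142993926437240911) (a (l 143034539647221839) (l 143047458910945359))))))) (a (l 30) (b (l 142810170541703247) (a (l 30) (b (l 142821165659684943) (c (c (l 143003134841405519) (l 30)) (l 30)))))))) (l 30)))), by decide +kernel⟩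

def k17_pm_123 : ∃ t, chk3 f_pm_123 t 51 254 1 = true :=
  ⟨(a (c (b (a (c (l 143080100668391503) (l 142973241864896591)) (b (l 142894970397638735) (l 142898337652457551))) (a (a (l 142874491980873807) (l 142888579475816527)) (a (l 142908027086536783) (l 142921564838330447)))) (l 30)) (c (a (b (b (l 142943761234362447) (l 142947265928101967)) (c (l 143185585082499279) (l 142899574603497551))) (c (a (l 143216715010883791) (l 143240079636873423)) (b (l 143122363154612303) (a (l 143116590717190223) (l 143140848696524879))))) (c (a (a (l 142776566721003599) (l 142802130370674767)) (a (l 142827419142389839) (l 142852501755625551))) (l 30)))), by decide +kernel⟩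

def k18_pm_123 : ∃ t, chk3 f_pm_123 t 51 510 1 = true :=
  ⟨(a (c (c (c (a (a (l 143111093157019727) (l 143135900892201039)) (l 143172803257237711)) (a (a (l 143055773969301583) (l 143080994021425231)) (a (l 143106076634546255) (l 143130815650250831)))) (a (a (l 142836283947188303) (l 142839719925301327)) (a (l 142842881025474639) (l 142868307236061263)))) (l 30)) (c (a (c (a (l 143182355266142415) (l 143206475806425295)) (b (l 142904384967393359) (a (l 143075290304331855) (l 143100304197976143)))) (c (a (l 143230390188245199) (l 143254098411585743)) (c (l 143162564054024399) (a (l 143096112309567567) (l 143120851325272143))))) (c (b (a (l 142838964008501327) (l 142890022588203087)) (a (c (l 142846729313861711) (l 30)) (a (l 142834497249067087) (l 142859854740176975)))) (l 30)))), by decide +kernel⟩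

def k19_pm_123 : ∃ t, chk3 f_pm_123 t 102 511 1 = true :=
  ⟨(c (a (a (c (b (c (l 143117827666640975) (l 143061615125610575)) (b (c (l 143121332360413263) (l 143064707502456911)) (c (l 143123668822933711) (a (l 143060309455175759) (l 143073091279929423))))) (c (b (l 143004715389812815) (a (c (l 143016122824622159) (l 30)) (c (l 143029110807838799) (l 143000179903578191)))) (l 30))) (c (c (l 143145178022756559) (b (l 143087041336148047) (a (l 143084842312384591) (l 143097486698152015)))) (c (b (l 143030553917292623) (a (a (l 143024369163239503) (l 143030828795101263)) (b (l 143039624889598031) (l 143041411596206159)))) (l 30)))) (c (c (a (l 143169985757855951) (l 143194587334508751)) (a (b (l 143112192668729423) (a (l 143110131083919439) (l 143122706750193871))) (l 143139336866349263))) (a (b (a (l 142852433032265807) (l 142859648579420239)) (c (b (l 143013786369458255) (a (l 143054262140436559) (l 143067043965190223))) (c (a (l 143010281668477007) (l 143023200932200527)) (l 30)))) (c (b (l 143081475057860687) (a (l 143033783740399695)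 (l 143091508102922319))) (b (l 143025056358645839) (a (c (l 143036051476447311) (l 143007326730715215)) (a (l 142986298574635087) (l 143037769463758927)))))))) (l 30)), by decide +kernel⟩

def k20_pm_123 : ∃ t, chk3 f_pm_123 t 103 511 1 = true :=
  ⟨(c (a (c (a (b (l 143189227214602447) (l 143193968859021519)) (b (l 143213553913299151) (l 143218364277194959))) (c (a (b (l 143106557670981711) (a (l 143104083769196623) (l 143116659435487439))) (l 143133426990645455)) (a (b (l 143050620008185935) (a (b (l 143046565558255695) (l 143003134849122383)) (b (l 143059347383009359) (l 143060996650614863)))) (b (l 143075908779753551) (b (l 143033302704422991) (a (l 143073709755859023) (l 143086354141642831))))))) (b (c (a (l 143237605734056143) (l 143261451396333775)) (a (c (l 143156173141262543) (l 143100991392874575)) (l 143153355642454223))) (a (c (l 143242553536889039) (a (c (l 143154042836861135) (l 143098105174130767)) (l 143138580952285391))) (c (l 143266536638120143) (a (l 143150950460096719) (l 143163319967908047)))))) (a (c (c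 (a (c (b (l 143008151365009487) (b (l 143010144230031439) (a (l 143005058987835471) (l 143017978251558991)))) (l 30)) (b (l 143019627519656015) (a (c (l 143030141600972879) (l 30)) (c (l 143042923425726543) (l 143014336119046223))))) (l 30)) (l 30)) (c (a (c (c (b (l 143059141225103439) (a (l 143055705250480207) (l 143068349636264015))) (b (l 143031034954842191) (a (l 143027186663293007) (l 143039968488046671)))) (a (l 30) (b (l 142994957224198223) (b (l 142996537772245071) (c (l 143011999656738895) (l 30)))))) (c (b (l 143070411221303375) (a (b (l 143066150612861007) (l 143067593721970767)) (b (l 143078794998644815) (l 143080238107754575)))) (c (b (l 143028354895167567) (a (l 143024231725662287) (l 143037013550415951))) (l 30)))) (l 30)))), by decide +kernel⟩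

def k21_pm_123 : ∃ t, chk3 f_pm_123 t 13 6 1 = true :=
  ⟨(a (b (l 14) (b (l 14) (a (a (l 16662864) (b (l 14) (l 16673600))) (l 14)))) (l 14)), by decide +kernel⟩

def k22_pm_123 : ∃ t, chk3 f_pm_123 t 26 14 1 = true :=
  ⟨(b (a (a (l 16650736) (b (l 16665632) (l 16658520))) (b (b (l 16685120) (l 16681744)) (l 16677384))) (a (b (a (l 16643136) (a (l 16649960) (l 16655240))) (a (b (b (l 16639752) (l 16638528)) (c (c (l 16628920) (l 16618168)) (c (l 16636504) (l 16622256)))) (a (b (l 16646176) (c (c (l 16627344) (l 16624776)) (l 16642376))) (b (a (l 16649848) (l 16653464)) (b (a (c (l 16637304) (l 16646264)) (b (l 16652136) (l 16649016))) (c (l 16631240) (l 16647432))))))) (b (a (l 16665776) (l 16679072)) (a (c (b (l 16644344) (a (b (l 16639128) (l 16638848)) (b (l 16667744) (a (l 16665424) (l 16669120))))) (b (l 16660040) (a (b (l 16655064) (l 16654432)) (b (l 16661968) (l 16640312))))) (b (b (l 16655840) (l 16665552)) (b (c (l 16657848) (l 16650976)) (c (a (b (l 16653656) (l 16674552)) (c (b (l 16683784) (l 16683608)) (l 16658952)))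 (a (l 16660120) (b (l 16674672) (l 16653424)))))))))), by decide +kernel⟩

def k23_pm_123 : ∃ t, chk3 f_pm_123 t 26 30 1 = true :=
  ⟨(a (b (a (b (c (l 16620384) (l 16634872)) (c (l 16621464) (l 16634656))) (c (a (a (l 16626152) (l 16633448)) (b (l 16637104) (l 16632744))) (a (l 16641664) (c (l 16637936) (l 16645432))))) (a (b (c (l 16622592) (l 16634496)) (c (l 16626088) (l 16613408))) (a (c (b (l 16649656) (l 16650752)) (l 16630616)) (c (b (l 16633688) (a (l 16653968) (l 16657408))) (c (l 16627400) (l 16623032)))))) (b (a (b (c (c (l 16665768) (l 16662280)) (l 16636432)) (c (l 16643696) (l 16635864))) (c (b (b (l 16659904) (l 16678424)) (c (l 16680992) (l 16676472))) (b (c (l 16672528) (l 16668816)) (l 16648920)))) (c (b (a (l 16644416) (c (l 16681680) (l 16676616))) (a (c (l 16668808) (l 16663544)) (c (l 16682416) (l 16676800)))) (a (c (l 16637536) (l 16632800)) (c (l 16650520) (l 16645320)))))), by decide +kernel⟩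

def k24_pm_123 : ∃ t, chk3 f_pm_123 t 52 62 1 = true :=
  ⟨(a (c (a (b (l 16644040) (b (l 16645040) (l 143183729659183183))) (b (l 16648016) (b (l 16648968) (l 143227297815396431)))) (b (l 16623840) (a (l 142829686844309519) (l 142966919658815567)))) (b (a (c (l 16651920) (l 16640752)) (c (a (a (l 16654336) (l 16655824)) (l 16658432)) (l 16624712))) (a (c (b (l 16652816) (l 143269629020880975)) (l 143012824277827663)) (b (c (c (l 16660624) (l 16654512)) (l 16624528)) (a (c (a (l 16655816) (l 16657264)) (l 142960528794878031)) (c (l 16659800) (l 16626016))))))), by decide +kernel⟩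

def k25_pm_123 : ∃ t, chk3 f_pm_123 t 52 126 1 = true :=
  ⟨(a (a (c (b (c (l 143240766833705167) (l 143149850951303247)) (c (l 143256915912573135) (a (l 143149026316746831) (l 143172322223390799)))) (b (l 142829961765273679) (c (l 142882394733772879) (l 142782064282550415)))) (c (b (c (l 143284266270195919) (l 143195137094533199)) (c (l 143301239982719183) (l 143206888126152911))) (b (l 142877996688097359) (c (l 142930292217364559) (l 142831817192374351))))) (c (c (a (b (l 143326597475434703) (l 143344533260550351)) (a (a (b (l 143352710881280207) (l 143371402580607247)) (l 143381504345800975)) (l 143417513356771599))) (a (b (l 143239255006511311) (l 143251899391246543)) (a (a (b (l 143266536643674319) (l 143279799503651023)) (l 143292306450874575)) (l 143327353389056207)))) (a (b (l 142924932099129423) (b (l 142927749597642831) (l 142930223498788943))) (a (b (l 142963140091904079) (a (l 142958467208904783) (l 143157478816399439))) (b (l 143185997404274767) (l 143010831457910863)))))), by decide +kernel⟩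

def k26_pm_123 : ∃ t, chk3 f_pm_123 t 104 127 1 = true :=
  ⟨(c (b (b (c (a (l 143270041334022351) (l 143315121318346959)) (a (l 143170123199021135) (l 143216852451115215))) (a (c (l 143279455903285455) (l 143176926427824335)) (c (l 143325016923914447) (l 143224136716222671)))) (b (a (c (a (l 143277531756986575) (l 143300827663401167)) (a (l 143172116063092943) (l 143196167883915471))) (c (a (l 143323848691859663) (l 143346663561855247)) (a (l 143220013546258639) (l 143243584330662095)))) (a (a (c (l 143287702240510159) (c (l 143207025562157263) (l 143152324850221263))) (c (l 143311204305338575) (b (l 143202009039896783) (l 143206063478603983)))) (c (a (l 143334568931164431) (l 143357658679050511)) (a (c (l 143254991764668623) (l 143201115686617295)) (c (l 143278699987960015) (l 143225167507374287))))))) (b (a (b (c (l 143067799882383439) (l 142783026355060815)) (c (l 142891740583247951) (l 142874354539544655))) (c (b (l 143116247121739855) (l 142940600139415631)) (b (l 142833260301140047) (l 142879920825712719)))) (a (c (a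 (b (l 142895107835822159) (c (b (l 143095425114931279) (a (b (l 143091370664935503) (l 143092882493521999)) (l 143104633526026447))) (b (l 143039693610893391) (a (b (l 143035020685508687) (c (l 143050413850493007) (l 143021826543910991))) (c (l 143062439760953423) (l 143034127332311119)))))) (b (l 142914349293437007) (c (b (l 143120301569573071) (l 143123325226729679)) (b (l 143064913663000655) (a (a (l 143035295567085647) (l 143064157748346959)) (a (l 143070411221745743) (l 143076733414637647))))))) (a (l 30) (b (l 142866314362830927) (c (c (b (l 143022994775949391) (b (l 143024369165516879) (a (l 143018871606345807) (l 143031653431099471)))) (l 30)) (l 30))))) (c (c (b (a (l 143140367660548303) (l 143164625639850191)) (a (b (l 143144903146275023) (l 143148064242385103)) (l 143170947832037583))) (b (a (l 143086491582693455) (l 143111093159444559)) (c (a (l 143105114563117263) (l 143129853578789071)) (a (b (l 143076114939756623) (a (l 143072129209139279) (l 143084704875446351))) (l 143102228345045199))))) (a (b (l 142880608018235471)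 (c (b (l 142876691012091983) (c (a (l 143043885500039247) (l 143056598605299791)) (b (l 143021482947493967) (a (l 143015916668829775) (l 143028698493583439))))) (l 30))) (b (l 142897375574769743) (c (b (l 142879439795322959) (a (b (l 143054605740474447) (c (l 143069724027420751) (l 143041411598860367))) (c (l 143081749937897551) (l 143053643667800143)))) (a (l 30) (b (l 143010075513487439) (b (l 143010900147126351) (c (l 143025743556100175) (l 30)))))))))))), by decide +kernel⟩

def k27_pm_123 : ∃ t, chk3 f_pm_123 t 105 254 1 = true :=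
  ⟨(a (c (c (a (l 143353329353457935) (l 143375319589683471)) (a (l 143254991766831311) (l 143277806636941519))) (a (b (l 142921221245272143) (c (l 143156722899812431) (l 143052269279674447))) (c (l 143177888502563023) (l 142895588876976207)))) (a (c (a (c (l 143391949705822479) (l 143294986509025487)) (c (l 143411809637466383) (l 143314571562746063))) (a (c (b (l 143193144229331151) (l 143198435629203663)) (l 142914074419363919)) (c (l 143214997025865935) (l 143113086026809423)))) (b (c (l 143394423606968527) (l 143196099167076431)) (c (l 143404044334350607) (l 143031309861797967))))), by decide +kernel⟩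

def k28_pm_123 : ∃ t, chk3 f_pm_123 t 105 255 2 = true :=
  ⟨(a (c (b (l 143380542269391119) (a (l 143380542268473615) (l 143403219699417359))) (b (a (l 143267017676079311) (l 143290176143540431)) (c (l 143313884365717775) (a (l 143249013169668303) (l 143272652673499343))))) (b (a (a (c (l 143408648539947279) (l 143307768332468431)) (l 143378343245725967)) (c (l 143464448762888463) (b (l 143360613617713423) (l 143364599347593487)))) (a (a (c (l 143420468290814223) (b (l 143314571561058575) (l 143319244485738767))) (c (l 143440465661378831) (l 143336699235516687))) (c (a (b (l 143461562543833359) (l 143465548273893647)) (l 143481559915053327)) (a (b (l 143357864837497103) (a (l 143356353008435471) (l 143365836297847055))) (b (l 143377793488994575) (l 143377312452903183))))))), by decide +kernel⟩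

def k29_pm_123 : ∃ t, chk3 f_pm_123 t 105 255 3 = true :=
  ⟨(a (b (c (a (l 143162151738687695) (l 143186134840033487)) (a (l 142912562583306319) (a (l 143073366161965135) (l 143085666950365263)))) (a (b (c (l 143166481065869519) (c (l 143084567437492303) (l 142871468332056655))) (a (c (l 143163457397276879) (c (a (l 143077145732431951) (l 143083399205847119)) (b (l 143023681971896399) (c (l 143038525380853839) (l 30))))) (c (l 143175689476849871) (c (b (l 143092264019886159) (l 143093294812020943)) (b (l 143036326357696591) (c (l 143051169766654031) (l 143022857338159183))))))) (c (c (l 143219257632030927) (l 143165175390437583)) (c (b (l 143109375172673743) (l 143111505476403407)) (b (l 142896688384180303) (c (a (l 143063401835593807) (l 143075977501900879)) (b (l 143041274161119311) (a (l 143035570443436111) (l 143048214829219919))))))))) (a (a (a (b (c (l 143200978249466063) (l 143094944081264719)) (c (l 143207300441505999) (c (l 143125799130120399) (b (l 143069930187620431) (b (l 143070960979656783) (l 143071785613312079))))))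 (a (c (b (l 143205445016191183) (l 143211835927707855)) (b (l 143099548286976079) (b (l 143102022187974735) (c (l 143131571566887119) (l 143076046221672527))))) (b (c (l 143209293307478223) (l 143103396578263119)) (c (b (l 143214034951504079) (l 143217402205946063)) (c (l 143134320346579151) (b (l 143078451404095567) (b (l 143079550915608655) (c (l 143094325605056719) (l 143066356773994575))))))))) (b (c (l 143223655680147663) (l 143117346634022991)) (c (b (l 143228466043633871) (l 143231833298075855)) (b (l 143119889254514767) (c (l 143149576072380623) (b (l 143093500971368527) (l 143094325605007439))))))) (b (a (c (l 143246676708081871) (l 143139680467140687)) (b (l 143034745837191247) (b (l 143036463824077007) (l 143037013579874511)))) (b (a (c (l 143251418352091343) (c (l 143169779601768655) (l 142934415385968719))) (c (a (l 143267155114655951) (l 143275401453453519)) (l 142981556954136783))) (a (c (a (b (l 143248257255407823) (l 143249425486545103)) (b (l 143258496459047119) (l 143258015422742735))) (a (c (l 143166137468649679)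 (l 142930086058000591)) (c (l 143175552038535375) (l 143119614376394959)))) (c (l 143269903894593743) (c (l 143187440510369999) (b (l 143132258762490063) (l 143130884372889807))))))))), by decide +kernel⟩

def k30_pm_123 : ∃ t, chk3 f_pm_123 t 53 62 1 = true :=
  ⟨(a (c (b (c (l 16669944) (l 16664072)) (c (a (l 16667776) (l 16674408)) (b (l 16664488) (l 143424247866769615)))) (b (l 16634432) (c (l 143154386425233487) (l 143068212188315727)))) (c (b (c (l 16683160) (l 16676984)) (b (l 16680520) (a (l 16677688) (l 16683944)))) (a (b (l 16664768) (b (l 16664320) (l 143235475462733903))) (b (l 16670832) (b (l 16670368) (l 16670120)))))), by decide +kernel⟩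

def k31_pm_123 : ∃ t, chk3 f_pm_123 t 53 126 1 = true :=
  ⟨(a (c (a (b (l 143435174264651983) (b (l 143447406332313807) (a (l 143432562922586319) (l 143479154734383375)))) (a (b (l 143505199421358287) (b (l 143515301185159439) (l 143517156611522831))) (b (c (l 16676848) (l 16669832)) (l 143547324468052239)))) (a (b (l 143252242989547599) (c (l 143126486354149583) (l 143027255415078991))) (b (c (l 143205376326172879) (l 143109237763965007)) (a (b (l 143140436410138703) (l 143138374825689295)) (l 143171222741909711))))) (a (c (b (c (l 16681624) (l 143549248614908175)) (l 143588762322174223)) (b (l 143226885527748815) (l 143214997057978575))) (c (c (l 143691497959735631) (l 143600375918657807)) (b (l 143464242612814031) (l 143273202467340495))))), by decide +kernel⟩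

def k32_pm_123 : ∃ t, chk3 f_pm_123 t 53 127 1 = true :=
  ⟨(c (a (a (a (b (b (l 143441840052535567) (a (l 143439641028231439) (c (l 143510422100279567) (l 143409816770838799)))) (b (a (c (l 143496059727134991) (l 143393667691020559)) (l 143460875350409487)) (c (l 143503481433047311) (l 143399921165484303)))) (b (b (c (l 143532962092843279) (l 143434349628473615)) (l 143484377415729423)) (c (l 143532206180466959) (b (l 143431325972349199) (l 143429195669045519))))) (b (c (l 143576736409665807) (l 143478536261894415)) (c (l 143574193790533967) (b (l 143474687971852559) (b (l 143473244863201551) (l 143472420229742863)))))) (a (b (c (l 143631437126107471) (l 143535229843046671)) (c (l 143629169384866127) (b (l 143531931308835087) (l 143530282041917711)))) (b (c (l 143685038330806607) (l 143591236229382415)) (c (l 143682976747962703) (l 143587594098065743))))) (b (a (b (a (a (l 143240904272281679) (b (l 143102297094029391) (l 143101472460259535))) (l 143148270433370319)) (a (a (a (c (l 143286259132973263) (l 143180843440226383))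 (l 143073915945304271)) (l 143098380083740879)) (c (l 143375457031274703) (l 143270934691414223)))) (a (c (l 143436136341897487) (l 143334019183706319)) (c (l 143494273031930127) (l 143394217457926351)))) (a (a (a (b (a (b (l 143055636561281231) (l 143054605769097423)) (l 143070961007739087)) (b (c (l 143294299313553615) (l 143185310207361231)) (c (c (l 143319588085137679) (l 143265437129343183)) (b (l 143183454781407439) (c (l 143210049222951119) (a (l 143146483697238223) (l 143162083021586639))))))) (b (c (l 143327009790755023) (l 143219944830058703)) (b (c (l 143324398450753743) (l 143216165258707151)) (c (c (l 143349618502877455) (l 143295879863910607)) (b (l 143214447271723215) (c (l 143240904274329807) (a (l 143177751065428175) (l 143193350389792975)))))))) (a (b (l 143078863758622927) (b (c (l 143354428868477199) (l 143247089029546191)) (c (l 143352985759564047) (c (l 143272240362078415) (a (l 143209568189481167) (l 143225236233339087)))))) (b (l 143064089077465295) (c (l 143383703361290511) (b (l 143277944080924879)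 (c (l 143303026694029519) (b (l 143249219335487695) (l 143248188543303887)))))))) (b (a (a (l 143094188214632655) (l 143124287351800015)) (a (l 143154249050030287) (l 143454415730770191))) (c (a (a (l 143413527631331599) (l 143443283171148047)) (l 143487744682197263)) (a (a (b (l 143308799132319951) (c (l 143333744306487567) (l 143279936947912911))) (b (l 143339585464254671) (l 143337936196796623))) (a (l 143369615881961743) (l 143400333494436111)))))))), by decide +kernel⟩

def k33_pm_123 : ∃ t, chk3 f_pm_123 t 27 14 1 = true :=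
  ⟨(b (l 14) (a (b (a (l 16691536) (l 14)) (a (b (b (l 16668776) (l 16668192)) (c (b (l 16671856) (b (l 16674072) (a (c (l 16690736) (l 16686680)) (a (l 16693856) (l 16697248))))) (b (l 16663544) (a (b (l 16681048) (l 16665064)) (l 16671400))))) (a (b (l 14) (b (l 16677080) (c (b (l 16702432) (l 16702232)) (l 16672152)))) (l 14)))) (l 14))), by decide +kernel⟩

def k34_pm_123 : ∃ t, chk3 f_pm_123 t 27 30 1 = true :=
  ⟨(a (b (b (a (a (c (a (l 16686968) (l 16690368)) (l 16659248)) (b (c (c (l 16697656) (l 16693216)) (c (l 16688856) (l 16684576))) (c (l 16695384) (l 16686184)))) (b (a (c (b (a (l 16700408) (l 16708928)) (l 16701984)) (c (l 16675424) (l 16669552))) (l 14)) (c (c (l 16707640) (l 16702656)) (c (l 16697712) (l 16692808))))) (a (c (c (l 16694632) (l 16689696)) (c (l 16684824) (l 16680016))) (c (a (l 16701800) (a (l 16706496) (l 16709600))) (a (l 16691432) (a (l 16695816) (l 16698728)))))) (a (c (b (c (l 16694896) (l 16689456)) (c (l 16695360) (l 16689432))) (b (c (l 16684056) (l 16678704)) (l 16659608))) (c (b (c (l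 16707672) (l 16712408)) (c (l 16707856) (l 16701688))) (b (c (l 16675208) (l 16690432)) (c (l 16695496) (l 16689288)))))) (b (l 14) (a (c (a (b (l 16713968) (l 16713944)) (b (l 14) (l 16720016))) (a (b (l 16702040) (l 16701272)) (b (l 14) (l 16707216)))) (l 14)))), by decide +kernel⟩

def k35_pm_123 : ∃ t, chk3 f_pm_123 t 27 62 1 = true :=
  ⟨(a (b (c (a (c (l 16695904) (l 16689488)) (c (l 16708288) (l 16701712))) (a (c (l 16683072) (l 16676648)) (c (l 16695104) (l 16688456)))) (c (a (c (l 16696600) (l 143699057105273103)) (c (l 16708944) (l 16701984))) (a (b (l 16679400) (l 143381092064952527)) (a (l 143469946367131855) (l 16694456))))) (a (a (b (c (l 16714136) (l 16700760)) (c (l 16714536) (l 16700504))) (b (c (l 16720168) (l 16706752)) (c (l 16720512) (c (l 16710056) (l 16702976))))) (a (a (b (l 14) (c (l 16724928) (l 16711008))) (l 14)) (l 14)))), by decide +kernel⟩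

def k36_pm_123 : ∃ t, chk3 f_pm_123 t 54 63 1 = true :=
  ⟨(b (c (a (b (c (l 16697288) (l 143685313210646799)) (c (l 143766951964918095) (l 143678578702598479))) (a (a (l 143790179155706191) (l 143815467929387343)) (a (l 143840413105635663) (l 143865083403960655)))) (a (b (c (l 143595634278613263) (l 143503069128474831)) (c (l 143587181783187727) (l 143312441299730639))) (a (b (l 143633842318934287) (l 143625733420744975)) (b (l 143689436388114703) (l 143682083404185871))))) (c (a (a (b (l 143692253880762703) (c (l 143735547160346959) (l 143643119447998799))) (b (l 143744961732034895) (c (l 143786811902509391) (l 143697682725142863)))) (a (c (l 143837458168611151) (b (l 143753551671312719) (l 143751146490528079))) (b (l 143846666582409551) (a (l 143832166770770255) (l 143857043227443535))))) (a (a (b (c (l 143551928685609231) (l 143454209573765391)) (c (l 143547255761682703) (b (l 143449124332454159) (l 143446444272910607)))) (b (c (l 143608965863948559) (l 143513926811697423)) (c (l 143604911415345487) (b (l 143509597484695823)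 (l 143507398461522191))))) (a (b (c (l 143665178408517967) (l 143573231732752655)) (c (l 143661811154682191) (b (l 143569589600567567) (l 143567871613763919)))) (b (c (l 143720635038744911) (l 143631986897961295)) (a (c (l 143703867483816271) (l 143613363916783951)) (c (l 143731561439166799) (l 143642982017565007)))))))), by decide +kernel⟩

def k37_pm_123 : ∃ t, chk3 f_pm_123 t 55 63 1 = true :=
  ⟨(a (b (a (c (c (l 16718752) (l 16711520)) (b (l 16700456) (l 143737677473333583))) (b (c (l 16720880) (l 16706496)) (c (l 16721200) (c (l 16710256) (l 143751627531845967))))) (c (a (b (l 143895526142525775) (a (l 143881507367190863) (l 143905559190028623))) (b (c (l 16725216) (l 143905765348966735)) (c (l 143977302340223311) (l 143903909923815759)))) (a (b (c (l 143775129596182863) (l 143690054868336975)) (b (a (l 143716718030291279) (l 143744893021962575)) (c (l 143772449537245519) (a (l 143671981643088207) (l 143701324865913167))))) (b (c (l 143828524641878351) (l 143747366924386639)) (c (c (l 143846322990711119) (l 143806671844835663))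 (b (l 143745442779185487) (a (l 143730393210798415) (l 143759255397220687)))))))) (c (a (a (c (b (l 16728936) (l 144010906172555599)) (b (l 16721848) (b (l 16722224) (l 143940056377409871)))) (b (l 16727648) (b (l 16728120) (l 143992420630872399)))) (l 14)) (a (a (c (b (l 16714648) (b (l 143867763472171343) (c (l 143885012065108303) (l 143847010186772815)))) (b (l 143796226481504591) (b (l 143789698131296591) (b (l 143788186302955855) (a (l 143780695878582607) (l 143794920813330767)))))) (b (b (l 14) (l 16702992)) (b (c (l 16717280) (l 143812650441687375)) (c (l 143887004931080527) (b (l 143811550930239823) (l 143811550930403663)))))) (l 14)))), by decide +kernel⟩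

def k38_pm_123 : ∃ t, chk3 f_pm_123 t 7 3 1 = true :=
  ⟨(a (b (l 14) (l 14)) (l 14)), by decide +kernel⟩

theorem s39_pm_123 : ∃ t, chk3 f_pm_123 t 27 63 1 = true := ex3_a k36_pm_123 k37_pm_123

theorem s40_pm_123 : ∃ t, chk3 f_pm_123 t 27 31 1 = true := ex3_b k35_pm_123 s39_pm_123

theorem s41_pm_123 : ∃ t, chk3 f_pm_123 t 27 15 1 = true := ex3_b k34_pm_123 s40_pm_123

theorem s42_pm_123 : ∃ t, chk3 f_pm_123 t 27 7 1 = true := ex3_b k33_pm_123 s41_pm_123

theorem s43_pm_123 : ∃ t, chk3 f_pm_123 t 53 63 1 = true := ex3_b k31_pm_123 k32_pm_123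

theorem s44_pm_123 : ∃ t, chk3 f_pm_123 t 53 31 1 = true := ex3_b k30_pm_123 s43_pm_123

theorem s45_pm_123 : ∃ t, chk3 f_pm_123 t 105 255 1 = true := ex3_c k28_pm_123 k29_pm_123

theorem s46_pm_123 : ∃ t, chk3 f_pm_123 t 105 127 1 = true := ex3_b k27_pm_123 s45_pm_123

theorem s47_pm_123 : ∃ t, chk3 f_pm_123 t 52 127 1 = true := ex3_a k26_pm_123 s46_pm_123

theorem s48_pm_123 : ∃ t, chk3 f_pm_123 t 52 63 1 = true := ex3_b k25_pm_123 s47_pm_123

theorem s49_pm_123 : ∃ t, chk3 f_pm_123 t 52 31 1 = true := ex3_b k24_pm_123 s48_pm_123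

theorem s50_pm_123 : ∃ t, chk3 f_pm_123 t 26 31 1 = true := ex3_a s49_pm_123 s44_pm_123

theorem s51_pm_123 : ∃ t, chk3 f_pm_123 t 26 15 1 = true := ex3_b k23_pm_123 s50_pm_123

theorem s52_pm_123 : ∃ t, chk3 f_pm_123 t 26 7 1 = true := ex3_b k22_pm_123 s51_pm_123

theorem s53_pm_123 : ∃ t, chk3 f_pm_123 t 13 7 1 = true := ex3_a s52_pm_123 s42_pm_123

theorem s54_pm_123 : ∃ t, chk3 f_pm_123 t 13 3 1 = true := ex3_b k21_pm_123 s53_pm_123

theorem s55_pm_123 : ∃ t, chk3 f_pm_123 t 51 511 1 = true := ex3_a k19_pm_123 k20_pm_123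

theorem s56_pm_123 : ∃ t, chk3 f_pm_123 t 51 255 1 = true := ex3_b k18_pm_123 s55_pm_123

theorem s57_pm_123 : ∃ t, chk3 f_pm_123 t 51 127 1 = true := ex3_b k17_pm_123 s56_pm_123

theorem s58_pm_123 : ∃ t, chk3 f_pm_123 t 25 127 1 = true := ex3_a k16_pm_123 s57_pm_123

theorem s59_pm_123 : ∃ t, chk3 f_pm_123 t 25 63 1 = true := ex3_b k15_pm_123 s58_pm_123

theorem s60_pm_123 : ∃ t, chk3 f_pm_123 t 25 31 1 = true := ex3_b k14_pm_123 s59_pm_123

theorem s61_pm_123 : ∃ t, chk3 f_pm_123 t 25 15 1 = true := ex3_b k13_pm_123 s60_pm_123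

theorem s62_pm_123 : ∃ t, chk3 f_pm_123 t 24 31 1 = true := ex3_b k11_pm_123 k12_pm_123

theorem s63_pm_123 : ∃ t, chk3 f_pm_123 t 24 15 1 = true := ex3_b k10_pm_123 s62_pm_123

theorem s64_pm_123 : ∃ t, chk3 f_pm_123 t 12 15 1 = true := ex3_a s63_pm_123 s61_pm_123

theorem s65_pm_123 : ∃ t, chk3 f_pm_123 t 12 7 1 = true := ex3_b k9_pm_123 s64_pm_123

theorem s66_pm_123 : ∃ t, chk3 f_pm_123 t 12 3 1 = true := ex3_b k8_pm_123 s65_pm_123

theorem s67_pm_123 : ∃ t, chk3 f_pm_123 t 6 3 1 = true := ex3_a s66_pm_123 s54_pm_123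

theorem s68_pm_123 : ∃ t, chk3 f_pm_123 t 3 3 1 = true := ex3_a s67_pm_123 k38_pm_123

theorem s69_pm_123 : ∃ t, chk3 f_pm_123 t 3 1 1 = true := ex3_b k7_pm_123 s68_pm_123

theorem s70_pm_123 : ∃ t, chk3 f_pm_123 t 11 15 1 = true := ex3_a k5_pm_123 k6_pm_123

theorem s71_pm_123 : ∃ t, chk3 f_pm_123 t 11 7 1 = true := ex3_b k4_pm_123 s70_pm_123

theorem s72_pm_123 : ∃ t, chk3 f_pm_123 t 11 3 1 = true := ex3_b k3_pm_123 s71_pm_123

theorem s73_pm_123 : ∃ t, chk3 f_pm_123 t 5 3 1 = true := ex3_a k2_pm_123 s72_pm_123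

theorem s74_pm_123 : ∃ t, chk3 f_pm_123 t 5 1 1 = true := ex3_b k1_pm_123 s73_pm_123

theorem s75_pm_123 : ∃ t, chk3 f_pm_123 t 2 1 1 = true := ex3_a k0_pm_123 s74_pm_123

theorem s76_pm_123 : ∃ t, chk3 f_pm_123 t 1 1 1 = true := ex3_a s75_pm_123 s69_pm_123

theorem c_pm_123 : CertB 536870912 536870912 0 536870912 818728140 40265320 3 eng mog cd0q1 cd0q2 pd3 true true false .npn 1 2 3
    ndB0q1 ndB0q2 pcB3 cut_pm_123 xt_pm_123 :=
  certB2 (fam := true) (s1 := true) (s2 := false) (a := 1) (b := 2) (c := 3) (cn := .npn) (n1 := ndB0q1) (n2 := ndB0q2) (pc := pcB3) (cut := cut_pm_123) (xt := xt_pm_123) (P1 := 536870912) (W1 := 536870912) (P2 := 0) (W2 := 536870912) (P3 := 818728140) (W3 := 40265320) (N0 := 3) (En := eng) (mo := mog) (C1 := cd0q1) (C2 := cd0q2) (C3 := pd3)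
    rfl (fun _ => rfl) s76_pm_123

noncomputable def cut_pm_202 : Cut := Cut.of [[⟨3, 0, 0, 1449551462⟩], [⟨4, 0, 0, 2845415833⟩], [⟨0, 1, 0, 67108864⟩, ⟨1, 0, 0, 67108864⟩, ⟨2, 1, 0, 67108864⟩]]

noncomputable def f_pm_202 : ℕ → ℕ → ℕ → ℕ → Bool := onCell 0 536870912 0 536870912 818728140 40265320
    (rowB 3 eng mog cd0q2 cd0q0 pd2 0 true true false .pp 2 0 2 (qsf 0 536870912 0 536870912 2) ndB0q2 ndB0q0 pcB2 cut_pm_202 Ext.none)

def k0_pm_202 : ∃ t, chk3 f_pm_202 t 2 4 1 = true :=
  ⟨(a (b (a (b (a (l 16316216) (b (l 16302728) (l 16315256))) (a (l 16341480) (l 16333888))) (b (b (a (l 16300376) (l 16305104)) (a (l 16312512) (l 16316400))) (a (l 16330560) (l 16333312)))) (a (b (l 16425368) (a (l 16393920) (l 16384496))) (b (a (l 16354472) (l 16355672)) (a (l 16379440) (l 16379040))))) (b (a (b (a (b (l 16315520) (l 16325560)) (b (c (l 16335880) (l 16317632)) (l 16356440))) (a (l 16340960) (b (l 16344816) (l 16354104)))) (b (b (a (l 16362152) (b (l 16358632) (l 16361224))) (a (l 16390104) (c (l 16373640) (l 16356544)))) (b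 (a (l 16356248) (c (l 16378968) (l 16363752))) (a (l 16364552) (l 16378552))))) (a (b (b (l 16381024) (l 16369696)) (a (l 16382520) (l 16387152))) (b (b (a (l 16372760) (l 16385640)) (a (l 16380936) (l 16392680))) (b (l 16436896) (l 16403792)))))), by decide +kernel⟩

def k1_pm_202 : ∃ t, chk3 f_pm_202 t 6 8 1 = true :=
  ⟨(a (b (b (a (b (a (l 16375880) (l 16389112)) (l 16405232)) (b (a (c (l 16413672) (l 16394272)) (c (l 16451592) (l 16411424))) (a (l 16405240) (c (l 16430736) (l 16412568))))) (a (c (l 16395360) (l 16378376)) (a (l 16406936) (a (l 16418552) (l 16447896))))) (a (b (c (a (l 16392944) (l 16403928)) (l 16383344)) (c (l 16402784) (l 16389768))) (b (c (a (l 16416584) (l 16431152)) (l 16409224)) (c (a (l 16418992) (l 16432024)) (l 16413016))))) (b (a (b (a (b (a (c (l 16444768) (l 16425992)) (l 16467160)) (c (l 16449528) (l 16432008))) (b (c (l 16471736) (l 16454432)) (l 16462632))) (a (b (c (l 16449040) (l 16432560)) (l 16440944)) (b (l 16462088) (l 16461584)))) (b (l 6) (a (b (l 16485152) (l 16484064)) (l 6))))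 (a (a (a (b (l 16436200) (l 16437000)) (b (l 16445648) (b (l 16445528) (b (l 16445448) (b (l 16445368) (c (a (l 16448336) (b (l 16452928) (a (l 16451352) (l 16454024)))) (l 16460888))))))) (b (l 16481880) (b (l 16460312) (a (l 16454920) (l 16464920))))) (b (a (l 16503544) (c (l 16511384) (l 16500064))) (a (b (l 16481240) (l 16480464)) (c (l 16507472) (l 16498312))))))), by decide +kernel⟩

def k2_pm_202 : ∃ t, chk3 f_pm_202 t 6 9 1 = true :=
  ⟨(a (b (a (b (l 16402144) (l 16407912)) (b (c (l 16428528) (l 16418192)) (l 16427656))) (a (b (l 16414056) (l 16421016)) (b (l 16432304) (l 16437752)))) (b (a (c (b (b (a (a (l 16443784) (b (l 16450776) (l 16451336))) (b (a (b (a (b (l 16457440) (l 16457072)) (l 16462104)) (c (l 16461688) (l 16456960))) (l 16469248)) (a (l 16459728) (a (l 16487376) (b (l 16471368) (l 16471168)))))) (l 16456568)) (l 16457520)) (b (b (a (l 16437120) (b (a (b (a (l 16447064) (l 16452416)) (l 16449800)) (l 16460048)) (a (l 16450584) (l 16480912)))) (l 16448032)) (l 16450568))) (c (b (b (a (a (l 16520848) (l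 16488984)) (l 16504864)) (a (a (a (l 16475896) (c (l 16524320) (l 16478680))) (b (b (l 16488272) (a (l 16485544) (l 16490528))) (l 16508776))) (a (b (l 16498384) (a (b (l 16495368) (l 16495240)) (l 16500400))) (l 16508624)))) (a (l 16482968) (b (a (l 16497288) (b (a (l 16547016) (l 16510224)) (l 16507168))) (l 16501912)))) (b (a (b (a (l 16470384) (l 16480864)) (a (l 16470608) (b (a (l 16499016) (l 16483368)) (l 16480904)))) (b (l 16497248) (a (b (l 16491344) (b (l 16491280) (l 16491288))) (l 16502152)))) (a (l 16477192) (b (a (l 16491496) (b (a (l 16499232) (l 16504544)) (l 16501912))) (l 16497272)))))) (c (a (b (l 16459184) (l 16461872)) (b (l 16492064) (l 16492456))) (a (l 16477056) (l 16489304))))), by decide +kernel⟩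

def k3_pm_202 : ∃ t, chk3 f_pm_202 t 7 4 1 = true :=
  ⟨(b (a (b (l 6) (a (a (b (l 6) (c (l 16530696) (l 16522040))) (l 6)) (l 6))) (l 6)) (a (b (a (b (a (b (l 16523624) (l 16522016)) (l 6)) (a (b (a (b (l 16515392) (a (b (l 16512400) (l 16512312)) (l 16517704))) (l 16526088)) (a (c (l 16516672) (l 16512448)) (c (b (b (l 16527600) (l 16527224)) (l 16526768)) (l 16543992)))) (b (l 16542720) (a (b (l 16535880) (c (a (l 16534520) (l 16581776)) (l 16533800))) (l 16546448))))) (l 6)) (a (a (b (l 16519280) (l 16518672)) (b (b (a (l 16555704) (c (b (a (l 16544152) (l 16591384)) (l 16546000)) (l 16564984))) (l 16539432)) (l 16538168))) (b (a (a (b (b (l 6) (a (c (l 16553688) (l 16552080)) (l 6))) (l 16533568)) (l 6)) (l 6)) (a (l 16558352) (b (l 6) (l 16578504)))))) (l 6))), by decide +kernel⟩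

def k4_pm_202 : ∃ t, chk3 f_pm_202 t 1 5 1 = true :=
  ⟨(a (a (b (b (a (a (l 16465920) (l 16414584)) (a (l 16408592) (l 16406552))) (a (a (l 16457992) (l 16449208)) (l 16440280))) (a (b (a (l 16493472) (l 16483328)) (l 16456512)) (b (l 16472272) (l 16501944)))) (b (a (b (b (l 16402736) (l 16416136)) (l 16437608)) (b (b (l 16413712) (l 16424960)) (l 16485072))) (a (b (l 16465424) (l 16490712)) (b (l 16466368) (l 16486880))))) (a (b (a (b (a (b (l 16429040) (l 16438344)) (b (l 16444232) (l 16451976))) (a (l 16453536) (l 16464752))) (a (b (b (l 16506344) (l 16470104)) (c (l 16481016) (l 16478800))) (b (b (l 16493408) (l 16496648)) (b (l 16500624) (l 16504296))))) (a (b (c (l 16457008) (l 16475496)) (l 16491160)) (b (a (l 16491624) (l 16508832)) (a (l 16500144) (l 16510312))))) (b (a (a (b (b (c (l 16528080) (l 16528352)) (l 16528968)) (c (l 16530408) (l 16531560))) (b (b (l 16545264) (l 16564600)) (a (l 16552192) (l 16548784)))) (a (a (b (b (l 16596760) (l 16577736)) (c (l 16546536) (l 16544272))) (b (l 6) (b (l 16553000) (l 16530736))))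 (a (a (b (l 6) (b (l 6) (l 16527304))) (l 6)) (l 6)))) (a (a (b (l 16545424) (l 16493584)) (b (c (l 16513160) (l 16512056)) (c (l 16479656) (l 16476152)))) (a (b (c (b (l 16513848) (l 16494120)) (a (l 16502424) (l 16495648))) (c (l 16487472) (l 16459144))) (b (b (c (a (l 16507128) (a (l 16503344) (l 6))) (a (l 16499624) (l 16492216))) (c (a (l 16485832) (a (l 16481240) (l 16478024))) (a (l 16477200) (a (l 16470888) (l 16466480))))) (c (a (l 16455944) (b (l 16458392) (l 16438224))) (a (l 16445248) (b (l 16446024) (l 16424512)))))))))), by decide +kernel⟩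

def k5_pm_202 : ∃ t, chk3 f_pm_202 t 2 3 1 = true :=
  ⟨(b (a (b (a (b (l 16527744) (l 16573312)) (b (l 16528808) (l 16550136))) (a (b (l 16595120) (l 16615360)) (b (l 16568616) (l 16585464)))) (b (a (l 16541624) (b (l 16503184) (l 16514680))) (a (l 16548712) (l 16521680)))) (a (l 2) (b (a (l 2) (b (l 16521672) (l 2))) (l 2)))), by decide +kernel⟩

def k6_pm_202 : ∃ t, chk3 f_pm_202 t 3 3 1 = true :=
  ⟨(b (a (b (a (b (l 16501112) (l 16505968)) (a (l 16535264) (a (l 16481256) (l 16492112)))) (a (b (l 16496144) (l 16488312)) (a (l 16463400) (b (l 16448480) (l 16432816))))) (a (b (a (b (l 16424560) (l 16443216)) (b (l 16468272) (l 16441752))) (a (b (l 16422528) (l 16404000)) (b (l 16397000) (l 16375392)))) (b (a (b (c (l 16433216) (l 16423728)) (c (l 16404016) (l 16393184))) (a (b (c (l 16419824) (l 16406928)) (c (l 16388016) (l 16373776))) (b (c (b (l 16419184) (l 16401328)) (b (l 16404352) (l 16385616))) (c (b (l 16384648) (l 16368728)) (b (l 16368296) (l 16351832)))))) (a (c (b (l 16377592) (l 16353416)) (b (l 16365664) (l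 16340232))) (b (c (a (l 16359088) (b (l 16353336) (l 16338520))) (b (l 16355360) (l 16328616))) (b (a (l 16330752) (c (l 16324296) (l 16305704))) (c (l 16339440) (l 16300424)))))))) (a (b (a (b (l 16420256) (l 2)) (b (c (l 16458456) (l 16430584)) (a (l 16440696) (l 16409304)))) (l 2)) (b (a (a (b (l 16388040) (l 16374608)) (b (a (l 16364024) (l 16369456)) (l 16360784))) (a (b (c (l 16331920) (l 16317320)) (c (l 16313072) (l 16296408))) (a (b (c (l 16308360) (l 16290472)) (c (l 16286872) (l 16266952))) (b (b (c (l 16297760) (l 16277848)) (c (l 16285552) (l 16264880))) (c (b (l 16273976) (l 16262840)) (l 16267104)))))) (a (b (a (l 16364552) (l 16368000)) (l 2)) (a (b (c (l 16297152) (l 16276984)) (c (l 16286656) (l 16262320))) (b (c (a (l 16267912) (b (l 16252320) (l 16242696))) (b (l 16238848) (l 16227592))) (c (b (a (l 16257024) (l 16234760)) (l 16240536)) (b (l 16217944) (l 16210544))))))))), by decide +kernel⟩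

theorem s7_pm_202 : ∃ t, chk3 f_pm_202 t 1 3 1 = true := ex3_a k5_pm_202 k6_pm_202

theorem s8_pm_202 : ∃ t, chk3 f_pm_202 t 6 4 1 = true := ex3_b k1_pm_202 k2_pm_202

theorem s9_pm_202 : ∃ t, chk3 f_pm_202 t 3 4 1 = true := ex3_a s8_pm_202 k3_pm_202

theorem s10_pm_202 : ∃ t, chk3 f_pm_202 t 1 4 1 = true := ex3_a k0_pm_202 s9_pm_202

theorem s11_pm_202 : ∃ t, chk3 f_pm_202 t 1 2 1 = true := ex3_b s10_pm_202 k4_pm_202

theorem s12_pm_202 : ∃ t, chk3 f_pm_202 t 1 1 1 = true := ex3_b s11_pm_202 s7_pm_202

theorem c_pm_202 : CertB 0 536870912 0 536870912 818728140 40265320 3 eng mog cd0q2 cd0q0 pd2 true true false .pp 2 0 2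
    ndB0q2 ndB0q0 pcB2 cut_pm_202 Ext.none :=
  certB0 (fam := true) (s1 := true) (s2 := false) (a := 2) (b := 0) (c := 2) (cn := .pp) (n1 := ndB0q2) (n2 := ndB0q0) (pc := pcB2) (cut := cut_pm_202) (xt := Ext.none) (P1 := 0) (W1 := 536870912) (P2 := 0) (W2 := 536870912) (P3 := 818728140) (W3 := 40265320) (N0 := 3) (En := eng) (mo := mog) (C1 := cd0q2) (C2 := cd0q0) (C3 := pd2)
    rfl s12_pm_202

noncomputable def cut_pm_203 : Cut := Cut.of [[⟨3, 0, 0, 1449551462⟩], [⟨4, 0, 0, 2845415833⟩]]

noncomputable def f_pm_203 : ℕ → ℕ → ℕ → ℕ → Bool := onCell 0 536870912 0 536870912 818728140 40265320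
    (rowB 3 eng mog cd0q2 cd0q0 pd3 0 true true false .up 2 0 3 (qsf 0 536870912 0 536870912 3) ndB0q2 ndB0q0 pcB3 cut_pm_203 Ext.none)

def k0_pm_203 : ∃ t, chk3 f_pm_203 t 1 1 1 = true :=
  ⟨(a (b (l 1) (b (b (l 1) (a (a (b (l 1) (a (l 16598048) (l 16579472))) (b (l 1) (a (l 16560480) (l 16542576)))) (a (b (l 1) (l 16527144)) (l 107944172343)))) (a (a (b (b (c (l 16623344) (l 16619032)) (l 16647928)) (b (l 16735296) (l 14))) (b (b (c (l 16586144) (l 16580464)) (l 16610184)) (b (l 16631160) (l 16654512)))) (b (a (b (l 16551112) (l 16569152)) (b (l 16525480) (l 16530504))) (a (b (l 16583848) (l 16602376)) (b (l 16538416) (l 16551496))))))) (b (l 1) (b (a (l 1) (l 1)) (a (b (a (b (l 16489832) (l 16485136)) (b (l 297459460711) (a (l 16441744) (l 16407376)))) (a (b (l 16507704) (l 16494152)) (b (a (l 16438424) (l 16400632)) (a (l 16441368) (l 16400400))))) (b (a (b (l 1) (c (l 263099673543) (l 275984532935))) (l 1)) (a (b (a (l 16381048) (c (l 16330192) (l 16310760))) (a (l 16356352) (c (l 16324408) (l 16301024)))) (a (b (c (l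 230350286215) (l 16269184)) (c (l 16282544) (l 16254800))) (b (l 1) (c (b (l 242698155079) (a (l 16247872) (c (l 16233008) (l 16215680)))) (b (l 16209496) (l 16202512))))))))))), by decide +kernel⟩

theorem c_pm_203 : CertB 0 536870912 0 536870912 818728140 40265320 3 eng mog cd0q2 cd0q0 pd3 true true false .up 2 0 3
    ndB0q2 ndB0q0 pcB3 cut_pm_203 Ext.none :=
  certB0 (fam := true) (s1 := true) (s2 := false) (a := 2) (b := 0) (c := 3) (cn := .up) (n1 := ndB0q2) (n2 := ndB0q0) (pc := pcB3) (cut := cut_pm_203) (xt := Ext.none) (P1 := 0) (W1 := 536870912) (P2 := 0) (W2 := 536870912) (P3 := 818728140) (W3 := 40265320) (N0 := 3) (En := eng) (mo := mog) (C1 := cd0q2) (C2 := cd0q0) (C3 := pd3)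
    rfl k0_pm_203

noncomputable def cut_pm_213 : Cut := Cut.of [[⟨3, 0, 0, 1449551462⟩], [⟨4, 0, 0, 2845415833⟩], [⟨0, 1, 0, 67108864⟩, ⟨1, 1, 0, 67108864⟩, ⟨2, 2, 0, 16777216⟩], [⟨0, 1, 0, 33554432⟩, ⟨1, 0, 1, 26214400⟩, ⟨2, 1, 1, 26214400⟩]]

noncomputable def xt_pm_213 : Ext := extD2 3 ⟨4, 1, 1, 5, 13, 5, 23, 25, 43, 100, 1, 8⟩ eng cd0q2 cd0q1 pd3 true true false .pnn 2 1 3 rfl ndB0q2 ndB0q1 pcB3

noncomputable def f_pm_213 : ℕ → ℕ → ℕ → ℕ → Bool := onCell 0 536870912 1610612736 536870912 818728140 40265320
    (rowB 3 eng mog cd0q2 cd0q1 pd3 1 true true false .pnn 2 1 3 (qsf 0 536870912 536870912 536870912 3) ndB0q2 ndB0q1 pcB3 cut_pm_213 xt_pm_213)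

def k0_pm_213 : ∃ t, chk3 f_pm_213 t 2 1 1 = true :=
  ⟨(b (b (a (l 1) (b (l 1) (a (l 1) (b (l 1) (l 16528904))))) (b (a (a (l 14) (b (l 16659232) (l 14))) (a (b (l 16611040) (l 16691264)) (b (l 16564480) (l 16579304)))) (a (l 14) (b (a (l 16667000) (l 16660272)) (a (l 14) (a (l 16630712) (l 16606056))))))) (a (l 14) (b (b (b (a (l 14) (a (l 14) (b (l 16624560) (l 14)))) (l 14)) (l 14)) (l 14)))), by decide +kernel⟩

def k1_pm_213 : ∃ t, chk3 f_pm_213 t 3 4 1 = true :=
  ⟨(a (b (l 1) (a (b (l 1) (a (l 16513392) (l 16484160))) (b (a (l 16441904) (l 16402312)) (a (l 16449088) (l 16409104))))) (b (a (b (l 1) (a (a (l 1) (l 16345152)) (b (l 16312032) (l 16311848)))) (a (b (b (l 1) (c (l 16281168) (l 16252288))) (a (c (l 16291832) (l 16262440)) (b (l 16253024) (l 16253056)))) (b (a (b (c (l 16247776) (l 16215336)) (c (l 16245632) (l 16211464))) (c (b (a (l 16228632) (c (l 16224680) (l 16206240))) (a (l 16226728) (l 16234664))) (b (c (l 16195016) (l 16176776)) (a (l 16189776) (l 16174800))))) (a (b (c (l 16245104) (l 16209424)) (c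 (l 16245952) (l 16208912))) (c (b (a (l 16226352) (l 16213424)) (l 16221000)) (b (l 16180464) (l 16180000))))))) (a (a (b (b (l 16357624) (l 16359888)) (a (l 16376128) (l 16353848))) (b (b (l 16312992) (l 16315248)) (b (l 16318664) (l 16323240)))) (a (b (a (l 16279584) (c (l 16273160) (l 16237848))) (a (l 16287056) (b (l 16261072) (l 16266536)))) (b (a (b (l 16229016) (l 16231944)) (b (c (l 16223560) (l 16180968)) (c (l 16227664) (l 16183440)))) (a (b (l 16236360) (l 16242360)) (b (c (l 16233424) (l 16187488)) (c (l 16241000) (l 16193256))))))))), by decide +kernel⟩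

def k2_pm_213 : ∃ t, chk3 f_pm_213 t 3 10 1 = true :=
  ⟨(a (a (b (a (l 16525280) (l 16494744)) (l 16524432)) (b (a (l 16459256) (l 16419128)) (a (l 16473368) (l 16433536)))) (a (a (b (a (l 16386552) (l 16364496)) (l 16390568)) (b (a (l 16342944) (l 16321592)) (b (l 16344352) (l 16354056)))) (a (b (a (l 16299944) (l 16277696)) (a (b (l 16313512) (l 16325344)) (b (l 16292856) (l 16306576)))) (b (a (b (l 16250088) (l 16280656)) (b (a (l 16231992) (c (l 16244968) (l 16194016))) (c (a (l 16267656) (b (l 16254072) (l 16261232))) (l 16210792)))) (a (b (a (l 16277248) (l 16266768)) (b (l 16304856) (c (l 16319616) (l 16267304)))) (c (b (a (l 16282920) (b (l 16290640) (l 139314959807905823))) (a (l 139584821242773535) (b (l 139446695068385311) (l 139597190749798431)))) (b (a (l 16229912) (l 16218184)) (a (l 16247312) (b (l 16231944) (l 16243064)))))))))), by decide +kernel⟩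

def k3_pm_213 : ∃ t, chk3 f_pm_213 t 6 11 1 = true :=
  ⟨(b (a (l 16542384) (a (l 16491792) (l 16452272))) (a (a (l 16599440) (l 16591304)) (b (l 16553520) (a (l 16524216) (l 16490000))))), by decide +kernel⟩

def k4_pm_213 : ∃ t, chk3 f_pm_213 t 14 11 1 = true :=
  ⟨(b (a (a (l 16421352) (l 16400824)) (a (b (l 16374928) (l 16389440)) (b (l 16357224) (l 16374608)))) (a (b (l 16434008) (a (l 16465048) (l 16450072))) (b (a (l 16409152) (l 16397872)) (a (b (l 16428536) (l 16445216)) (c (l 16451008) (l 16404416)))))), by decide +kernel⟩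

def k5_pm_213 : ∃ t, chk3 f_pm_213 t 15 22 1 = true :=
  ⟨(a (b (a (l 16340720) (l 16346184)) (a (l 16361968) (c (l 16376344) (l 16323992)))) (a (b (a (c (l 16341416) (l 16287888)) (c (l 139948416060719135) (l 16279160))) (a (c (l 16371376) (l 16313384)) (c (l 140310911367348255) (l 16306872)))) (b (c (a (b (l 139814344336752671) (l 139990678546546719)) (b (c (l 139935909114560543) (l 139599183613640735)) (c (l 140129148319563807) (l 139782664650162207)))) (a (l 139240467877396511) (b (l 139079320673878047) (l 139248370616139807)))) (c (a (b (l 140183436714639391) (l 140388564391149599)) (b (c (a (l 140339223799644191) (l 140333588801765407)) (l 139979202389966879)) (c (a (l 140558164094271519) (l 140558645131116575)) (l 140189552747495455)))) (a (l 139766309373886495) (b (l 139429377749843999) (l 139622960550445087))))))), by decide +kernel⟩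

def k6_pm_213 : ∃ t, chk3 f_pm_213 t 15 23 1 = true :=
  ⟨(a (b (a (l 16409560) (a (l 16382824) (l 16421168))) (a (b (l 16412768) (l 16432232)) (b (b (l 16402512) (l 16412592)) (b (l 16423328) (l 16455432))))) (b (a (a (c (l 16407616) (l 16344392)) (c (l 141087441532551199) (l 140027237306908703))) (c (a (b (l 140607642124353567) (l 141201722045202463)) (b (a (l 140785625569296415) (c (b (l 140737796841422879) (l 140862591435259935)) (l 140412547491495967))) (a (c (l 141043461132353567) (l 140653752900255775)) (c (b (l 140991784076509215) (l 141125512204189727)) (l 140656432960700447))))) (a (b (l 139876054430089247) (l 140085167835693087)) (b (c (l 140026275235594271) (l 139631206886146079)) (c (l 140253118270291999) (l 139845130655793183)))))) (a (c (b (a (l 16438520) (b (l 141014598941884447) (l 141141111523655711))) (a (l 16462936) (b (l 141273396542947359) (l 141409048817729567)))) (a (b (l 16370984) (l 16392456)) (b (l 140341903848472607) (l 140940038220431391)))) (a (b (c (b (a (l 141022845281697823) (l 141031641377079327))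 (a (l 141154511825305631) (l 141166881334296607))) (b (l 140250781805002783) (l 140370834753962015))) (c (b (a (l 141291538489753631) (l 141305763425501215)) (a (l 141430695459176479) (l 141448974845116447))) (b (l 140673612793217055) (l 140617056689766431)))) (c (a (b (b (c (l 141243159970545695) (l 140842044302426143)) (c (l 141384722121457695) (l 140975634992185375))) (c (b (l 141531025918099487) (l 141684613980782623)) (l 141364243676872735))) (b (b (c (b (l 141408773907398687) (a (l 141293325199114271) (l 141303976720728095))) (b (l 140816892969549855) (l 140882245204901919))) (c (a (l 141401489678106655) (c (l 141519618483748895) (l 141307550134599711))) (l 140984293649252383))) (c (b (a (l 141551779205283871) (c (b (l 141635616984809503) (l 30)) (l 141458458137149471))) (c (l 30) (b (l 141568752920133663) (l 141829543351189535)))) (b (a (l 141122625984692255) (l 141130460007284767)) (a (l 141270922646585375) (l 141461825355776031)))))) (b (b (a (l 140230165957935135) (c (l 140429452480921631) (l 140004078834663455)))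 (a (l 140351936894926879) (l 140338948912480287))) (a (c (l 140755663903801375) (l 140321562882146335)) (c (b (l 140687906486845471) (l 140827613212409887)) (l 140307544107499551))))))))), by decide +kernel⟩

def k7_pm_213 : ∃ t, chk3 f_pm_213 t 6 3 1 = true :=
  ⟨(b (b (b (a (a (b (l 16599832) (l 16617392)) (b (l 16573216) (l 16594864))) (a (b (l 16544856) (l 16571792)) (b (l 16516776) (l 16548472)))) (a (a (l 14) (b (l 16621544) (l 14))) (a (b (l 16602432) (a (l 16639624) (l 16632232))) (b (l 16584376) (a (l 16625080) (l 16619104)))))) (b (a (l 14) (a (l 14) (b (b (l 16662864) (a (l 14) (l 16673600))) (l 14)))) (l 14))) (l 14)), by decide +kernel⟩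

def k8_pm_213 : ∃ t, chk3 f_pm_213 t 14 12 1 = true :=
  ⟨(b (a (b (a (l 16496200) (l 16483544)) (l 16569320)) (c (a (b (l 16495376) (l 16538504)) (b (l 16492248) (b (l 16526104) (l 16550760)))) (b (a (l 16451216) (l 16441512)) (a (l 16490312) (a (l 16484088) (l 16482072)))))) (a (b (a (l 16571512) (l 16564792)) (a (l 16614392) (l 16612464))) (b (b (a (l 16548592) (a (a (l 16546648) (l 16547000)) (l 16548728))) (a (l 16573344) (a (a (l 16573048) (l 16573928)) (l 16576840)))) (b (b (a (l 16592944) (a (a (l 16594360) (l 16595632)) (l 16599512))) (a (l 16606736) (a (a (l 16609272) (l 16610904)) (l 16615432)))) (a (l 16628408) (a (b (l 16625768) (l 16631864)) (c (l 16610656) (l 16605912)))))))), by decide +kernel⟩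

def k9_pm_213 : ∃ t, chk3 f_pm_213 t 30 24 1 = true :=
  ⟨(c (b (a (c (l 16508104) (l 16478752)) (a (l 16496472) (l 16541480))) (a (b (l 16530968) (l 16558320)) (b (l 16539888) (l 16571112)))) (b (a (l 16434696) (a (l 16431112) (l 16429408))) (a (a (l 16480824) (l 16480392)) (b (l 16467616) (l 16495600))))), by decide +kernel⟩

def k10_pm_213 : ∃ t, chk3 f_pm_213 t 62 24 1 = true :=
  ⟨(b (b (c (a (l 16489512) (a (l 16555592) (l 141628470153461791))) (a (l 16415928) (l 140826513695768607))) (c (a (l 16518376) (a (l 16580768) (l 141936951949082655))) (a (l 16441496) (l 141092526846296095)))) (b (c (a (l 16550024) (a (l 142234850941599775) (l 142277594466172959))) (a (l 16469648) (l 141748179435651103))) (a (c (l 16584704) (l 16500624)) (c (l 30) (a (l 16546344) (l 141727975980810271)))))), by decide +kernel⟩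

def k11_pm_213 : ∃ t, chk3 f_pm_213 t 63 24 1 = true :=
  ⟨(b (a (c (b (a (l 141831123896352799) (b (l 141599539250216991) (l 141757937677189151))) (a (l 142331814070796319) (b (l 141924582443008031) (l 142099748425613343)))) (b (c (l 141028205403750431) (l 140597196759121951)) (a (l 141096856176476191) (c (l 141333732261871647) (l 140874617345654815))))) (a (b (c (b (c (l 141846036065386527) (l 141408499066929183)) (c (l 30) (l 141568203164188703))) (c (l 141039200524320799) (l 140584964691984415))) (c (c (l 30) (b (l 141736359758757919) (l 141913312448069663))) (c (b (l 141272297038069791) (l 141438392047845407)) (l 140878809235931167)))) (b (c (b (c (a (l 142236500139278367) (l 30)) (a (l 141427122049843231) (c (l 141555833656721439) (l 141325898240540703)))) (c (l 30) (a (l 141591636511424543) (c (l 30) (l 141491099897004063))))) (c (b (l 140975085240352799) (a (l 141126130681446431) (l 141135201654816799))) (b (l 140510060448038943) (l 140654852415799327)))) (b (c (b (c (l 30) (c (l 30) (l 141791816352006175))) (l 30))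 (c (a (l 141288514838757407) (c (l 141422724004544543) (l 141178769812881439))) (l 140807753283403807))) (c (l 30) (c (a (l 141459763810304031) (c (b (l 141555077744148511) (l 30)) (l 141350637259816991))) (l 141149426555273247))))))) (a (b (c (a (b (l 142233751432019999) (l 30)) (l 30)) (a (l 141589918487281695) (b (l 141345689454870559) (l 141517282023833631)))) (c (l 30) (a (l 142477911637655583) (b (l 141698151723974687) (l 141888848311189535))))) (a (c (l 30) (c (b (b (l 141613489310842911) (l 141798069863481375)) (l 30)) (b (b (l 141121045441740831) (l 141293874961481759)) (b (l 141476256490340383) (l 141668739784245279))))) (c (l 30) (c (b (b (a (l 141640289913012255) (c (l 30) (l 141802192978903071))) (l 30)) (l 30)) (b (b (a (l 141134583182262303) (l 141325485891338271)) (a (l 141312841541713951) (c (l 141459763812843551) (l 141194506579755039)))) (b (a (l 141500995507732511) (c (l 30) (l 141383485179609119))) (a (l 142060028491743263) (l 30))))))))), by decide +kernel⟩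

def k12_pm_213 : ∃ t, chk3 f_pm_213 t 30 25 1 = true :=
  ⟨(b (a (c (b (l 16588120) (l 16615024)) (a (l 16533024) (l 16535904))) (b (c (l 16605232) (l 16526288)) (c (c (l 16600344) (l 16615120)) (l 16559952)))) (a (c (b (l 16625656) (c (l 16614464) (l 16610272))) (b (l 16581552) (l 16616648))) (b (c (c (l 16609168) (l 16603368)) (l 16617840)) (a (b (l 16627888) (l 16627136)) (c (l 16615536) (l 16625352)))))), by decide +kernel⟩

def k13_pm_213 : ∃ t, chk3 f_pm_213 t 62 25 1 = true :=
  ⟨(b (a (b (c (l 16611544) (l 16534688)) (c (l 16599720) (l 16572168))) (b (a (c (l 16602504) (l 16582320)) (c (l 142819378885541919) (l 142098442756374559))) (a (c (l 16611520) (l 16600992)) (c (l 142878134056452127) (l 30))))) (b (c (a (l 16608504) (b (l 142813606480216159) (l 142861710127956063))) (l 30)) (a (c (c (l 16641096) (l 16634768)) (l 16625472)) (c (a (l 16618688) (b (l 143093088652968031) (l 143139061991178335))) (b (l 142911737881608223) (l 142781239604330527)))))), by decide +kernel⟩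

def k14_pm_213 : ∃ t, chk3 f_pm_213 t 126 25 1 = true :=
  ⟨(b (b (b (c (l 30) (a (l 142042779969798175) (l 142269966570455071))) (c (a (l 142673624925028383) (l 142818279404175391)) (a (l 142245983504252959) (l 30)))) (c (a (b (l 142725851736408095) (l 142776979035979871)) (b (l 142825838550892639) (c (l 143019696238264415) (l 142914624141295775)))) (l 30))) (b (c (b (a (l 142826869384806495) (c (l 143069242989445215) (l 142966026318692447))) (a (l 142875728941301855) (c (l 143117690228834399) (l 143016328984281183)))) (l 30)) (c (b (a (l 142923420266528863) (c (l 143165106675908703) (l 142885349670092895))) (a (l 142969943360487519) (c (l 143211492330651871) (l 142933522031575135)))) (c (a (l 142804398071316575) (b (l 142783507389628511) (l 142833535177326687))) (l 30))))), by decide +kernel⟩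

def k15_pm_213 : ∃ t, chk3 f_pm_213 t 127 50 1 = true :=
  ⟨(a (c (b (b (l 30) (c (a (l 142927131087487135) (l 142753958007324767)) (l 30))) (b (c (c (l 142830099200180319) (l 142774986170826911)) (l 30)) (c (a (l 143030141600415839) (l 142857518276001887)) (a (l 142921496090181791) (l 142746536303231135))))) (l 30)) (b (b (l 30) (c (c (c (c (b (a (l 142971317718368415) (a (l 142977639911260255) (b (l 30) (l 142988566309814367)))) (a (l 142997499843313759) (a (l 143003890755666015) (b (l 143001691732017247) (l 143014817154203743))))) (l 30)) (l 30)) (l 30)) (l 30))) (c (b (c (c (a (a (l 143020177274404959) (l 142844186695106655)) (b (a (l 143015573068611679) (b (a (l 143012274533154911) (l 143014473556721759)) (a (l 143025331235848287) (l 143027530259431519)))) (a (l 143041480315568223) (b (a (l 143038319219064927) (l 143040518242631775)) (l 143052337994580063))))) (b (l 30) (a (l 142978533264736351) (a (l 142984030823710815) (c (b (l 142995919295021151) (l 143008975997730911)) (l 30)))))) (l 30)) (c (b (a (l 142852501753233503)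 (b (a (l 143032271904194655) (c (l 143065257258287199) (b (l 142959223095820383) (l 143010762704437343)))) (a (l 143045191167934559) (c (l 143078039083040863) (a (l 143019558798917727) (l 142976540406743135)))))) (a (c (l 143086010543898719) (l 143030210319761503)) (a (c (l 143092607614582879) (l 143035982756610143)) (c (b (l 143090820907778143) (l 143103534013022303)) (a (l 142993926437240927) (b (l 143034539647221855) (l 143047458910945375))))))) (b (l 30) (a (l 142810170541703263) (b (l 30) (a (l 142821165659684959) (c (c (l 143003134841405535) (l 30)) (l 30)))))))) (l 30)))), by decide +kernel⟩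

def k16_pm_213 : ∃ t, chk3 f_pm_213 t 254 51 1 = true :=
  ⟨(b (c (a (b (c (l 143080100668391519) (l 142973241864896607)) (a (l 142894970397638751) (l 142898337652457567))) (b (b (l 142874491980873823) (l 142888579475816543)) (b (l 142908027086536799) (l 142921564838330463)))) (l 30)) (c (b (a (a (l 142943761234362463) (l 142947265928101983)) (c (l 143185585082499295) (l 142899574603497567))) (c (b (l 143216715010883807) (l 143240079636873439)) (a (l 143122363154612319) (b (l 143116590717190239) (l 143140848696524895))))) (c (a (b (l 142967881746219103) (l 143018321850712159)) (b (l 142791135252414559) (l 142841918954242143))) (l 30)))), by decide +kernel⟩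

def k17_pm_213 : ∃ t, chk3 f_pm_213 t 510 51 1 = true :=
  ⟨(b (c (c (c (b (b (l 143111093157019743) (l 143135900892201055)) (l 143172803257237727)) (b (b (l 143055773969301599) (l 143080994021425247)) (b (l 143106076634546271) (l 143130815650250847)))) (b (b (l 142836283947188319) (l 142839719925301343)) (b (l 142842881025474655) (l 142868307236061279)))) (l 30)) (c (b (c (b (l 143182355266142431) (l 143206475806425311)) (a (l 142904384967393375) (b (l 143075290304331871) (l 143100304197976159)))) (c (b (l 143230390188245215) (l 143254098411585759)) (c (l 143162564054024415) (b (l 143096112309567583) (l 143120851325272159))))) (c (a (b (l 142838964008501343) (l 142890022588203103)) (b (c (l 142846729313861727) (l 30)) (b (l 142834497249067103) (l 142859854740176991)))) (l 30)))), by decide +kernel⟩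

def k18_pm_213 : ∃ t, chk3 f_pm_213 t 511 102 1 = true :=
  ⟨(c (b (b (c (a (c (l 143117827666640991) (l 143061615125610591)) (a (c (l 143121332360413279) (l 143064707502456927)) (c (l 143123668822933727) (b (l 143060309455175775) (l 143073091279929439))))) (c (a (l 143004715389812831) (b (c (l 143016122824622175) (l 30)) (c (l 143029110807838815) (l 143000179903578207)))) (l 30))) (c (c (l 143145178022756575) (a (l 143087041336148063) (b (l 143084842312384607) (l 143097486698152031)))) (c (a (l 143030553917292639) (b (b (l 143024369163239519) (l 143030828795101279)) (a (l 143039624889598047) (l 143041411596206175)))) (l 30)))) (c (c (b (l 143169985757855967) (l 143194587334508767)) (b (a (l 143112192668729439) (b (l 143110131083919455) (l 143122706750193887))) (l 143139336866349279))) (b (a (b (l 142852433032265823) (l 142859648579420255)) (c (a (l 143013786369458271) (b (l 143054262140436575) (l 143067043965190239))) (c (b (l 143010281668477023) (l 143023200932200543)) (l 30)))) (c (a (l 143081475057860703) (b (l 143033783740399711)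 (l 143091508102922335))) (a (l 143025056358645855) (b (c (l 143036051476447327) (l 143007326730715231)) (b (l 142986298574635103) (l 143037769463758943)))))))) (l 30)), by decide +kernel⟩

def k19_pm_213 : ∃ t, chk3 f_pm_213 t 511 103 1 = true :=
  ⟨(c (b (c (b (a (l 143189227214602463) (l 143193968859021535)) (a (l 143213553913299167) (l 143218364277194975))) (c (b (a (l 143106557670981727) (b (l 143104083769196639) (l 143116659435487455))) (l 143133426990645471)) (b (a (l 143050620008185951) (b (a (l 143046565558255711) (l 143003134849122399)) (a (l 143059347383009375) (l 143060996650614879)))) (a (l 143075908779753567) (a (l 143033302704423007) (b (l 143073709755859039) (l 143086354141642847))))))) (a (c (b (l 143237605734056159) (l 143261451396333791)) (b (c (l 143156173141262559) (l 143100991392874591)) (l 143153355642454239))) (b (c (l 143242553536889055) (b (c (l 143154042836861151) (l 143098105174130783)) (l 143138580952285407))) (c (l 143266536638120159) (b (l 143150950460096735) (l 143163319967908063)))))) (b (c (c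 (b (c (a (l 143008151365009503) (a (l 143010144230031455) (b (l 143005058987819103) (l 143017978251559007)))) (l 30)) (a (l 143019627519656031) (b (c (l 143030141600972895) (l 30)) (c (l 143042923425726559) (l 143014336119046239))))) (l 30)) (l 30)) (c (b (c (c (a (l 143059141225103455) (b (l 143055705250480223) (l 143068349636264031))) (a (l 143031034954842207) (b (l 143027186663293023) (l 143039968488046687)))) (b (l 30) (a (l 142994957224198239) (a (l 142996537772245087) (c (l 143011999656738911) (l 30)))))) (c (a (l 143070411221303391) (b (a (l 143066150612861023) (l 143067593721970783)) (a (l 143078794998644831) (l 143080238107754591)))) (c (a (l 143028354895167583) (b (l 143024231725662303) (l 143037013550415967))) (l 30)))) (l 30)))), by decide +kernel⟩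

def k20_pm_213 : ∃ t, chk3 f_pm_213 t 14 26 1 = true :=
  ⟨(b (a (b (l 16650736) (a (l 16665632) (l 16658520))) (b (a (l 16643136) (a (a (l 16639752) (l 16638528)) (c (c (l 16628920) (l 16618168)) (c (l 16636504) (l 16622256))))) (b (a (l 16649960) (a (l 16646176) (c (c (l 16627344) (l 16624776)) (l 16642376)))) (a (l 16655240) (a (b (l 16649848) (l 16653464)) (a (b (c (l 16637304) (l 16646264)) (a (l 16652136) (l 16649016))) (c (l 16631240) (l 16647432)))))))) (a (a (a (l 16685120) (l 16681744)) (l 16677384)) (a (b (l 16665776) (l 16679072)) (b (c (a (l 16644344) (a (b (l 16639128) (l 16667744)) (c (b (l 16661304) (l 16668920)) (l 16646392)))) (a (l 16660040) (a (a (l 16658800) (l 16658320)) (b (l 16654432) (l 16640312))))) (a (a (l 16655840) (l 16665552)) (a (c (l 16657848) (l 16650976)) (c (a (c (l 16659144) (l 16655544)) (b (l 16674552) (b (l 16679912) (l 16683440)))) (b (l 16660120) (a (l 16674672) (l 16653424)))))))))), by decide +kernel⟩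

def k21_pm_213 : ∃ t, chk3 f_pm_213 t 30 26 1 = true :=
  ⟨(b (a (b (a (c (l 16620384) (l 16634872)) (c (l 16621464) (l 16634656))) (c (b (b (l 16626152) (l 16633448)) (a (l 16637104) (l 16632744))) (b (l 16641664) (c (l 16637936) (l 16645432))))) (b (a (c (l 16622592) (l 16634496)) (c (l 16626088) (l 16613408))) (b (c (a (l 16649656) (l 16650752)) (l 16630616)) (c (a (l 16633688) (b (l 16653968) (l 16657408))) (c (l 16627400) (l 16623032)))))) (a (b (a (c (c (l 16665768) (l 16662280)) (l 16636432)) (c (l 16643696) (l 16635864))) (c (a (a (l 16659904) (l 16678424)) (c (l 16680992) (l 16676472))) (a (c (l 16672528) (l 16668816)) (l 16648920)))) (c (a (b (l 16644416) (c (l 16681680) (l 16676616))) (b (c (l 16668808) (l 16663544)) (c (l 16682416) (l 16676800)))) (b (c (l 16637536) (l 16632800)) (c (l 16650520) (l 16645320)))))), by decide +kernel⟩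

def k22_pm_213 : ∃ t, chk3 f_pm_213 t 62 52 1 = true :=
  ⟨(b (c (b (a (l 16644040) (a (l 16645040) (l 143183729659183199))) (a (l 16648016) (a (l 16648968) (l 143227297815396447)))) (a (l 16623840) (b (l 142829686844309535) (l 142966919658815583)))) (c (b (a (l 16651920) (a (l 16652816) (l 143269629020880991))) (b (a (c (l 16657880) (l 16652288)) (a (l 16655928) (b (l 16655816) (l 16657264)))) (a (l 16658432) (l 143343914787684575)))) (a (b (l 16640752) (l 16624712)) (b (l 143012824277827679) (a (l 16629768) (b (l 142960528794878047) (l 16626016))))))), by decide +kernel⟩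

def k23_pm_213 : ∃ t, chk3 f_pm_213 t 126 104 1 = true :=
  ⟨(b (c (a (c (l 143240766833705183) (l 143149850951303263)) (c (l 143256915912573151) (b (l 143149026316746847) (l 143172322223390815)))) (a (l 142829961765273695) (c (l 142882394733772895) (l 142782064282550431)))) (c (a (c (l 143284266270195935) (l 143195137094533215)) (c (l 143301239982719199) (l 143206888126152927))) (a (l 142877996688097375) (c (l 142930292217364575) (l 142831817192374367))))), by decide +kernel⟩

def k24_pm_213 : ∃ t, chk3 f_pm_213 t 127 104 1 = true :=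
  ⟨(c (c (a (b (b (l 143263169384906975) (l 143286121693970655)) (b (l 143308730405601503) (l 143331132958769375))) (b (a (b (l 143277531756986591) (l 143300827663401183)) (b (l 143287702240510175) (l 143311204305338591))) (a (b (l 143323848691859679) (l 143346663561855263)) (b (l 143334568931164447) (l 143357658679050527))))) (c (b (a (l 143199054103036127) (a (l 143210736415129823) (b (l 143207025562157279) (l 143231077382897887)))) (a (l 143245577196601567) (a (l 143258015422890207) (b (l 143254991764668639) (l 143278699987960031))))) (a (b (a (l 143144765708157023) (l 143150881742110943)) (b (l 143183386060357855) (l 143206819405873375))) (b (a (l 143157547531895007) (b (l 143152324850221279) (l 143176788987920607))) (a (l 143205582454063327) (b (l 143201115686617311) (l 143225167507374303))))))) (a (b (a (c (l 143067799882383455) (l 142783026355060831)) (c (l 142891740583247967) (l 142874354539544671))) (c (a (l 143116247121739871) (l 142940600139415647)) (a (l 142833260301140063) (l 142879920825712735)))) (b (c (b (a (l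 142895107835822175) (c (a (l 143095425114931295) (b (a (l 143091370664935519) (l 143092882493522015)) (l 143104633526026463))) (a (l 143039693610893407) (b (a (l 143035020685508703) (c (l 143050413850493023) (l 143021826543911007))) (c (l 143062439760953439) (l 143034127332311135)))))) (a (l 142914349293437023) (c (a (l 143120301569573087) (l 143123325226729695)) (a (l 143064913663000671) (b (b (l 143035295567085663) (l 143064157748346975)) (a (l 143072953842876511) (l 143029179536244831))))))) (b (l 30) (a (l 142866314362830943) (c (c (a (l 143022994775949407) (a (l 143024369165516895) (b (l 143018871606345823) (l 143031653431099487)))) (l 30)) (l 30))))) (c (c (a (b (l 143140367660548319) (l 143164625639850207)) (b (a (l 143144903146275039) (l 143148064242385119)) (l 143170947832037599))) (a (b (l 143086491582693471) (l 143111093159444575)) (c (b (l 143105114563117279) (l 143129853578789087)) (b (a (l 143076114939756639) (b (l 143072129209139295) (l 143084704875446367))) (l 143102228345045215))))) (b (a (l 142880608018235487)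 (c (a (l 142876691012091999) (c (b (l 143043885500039263) (l 143056598605299807)) (a (l 143021482947493983) (b (l 143015916668829791) (l 143028698493583455))))) (l 30))) (a (l 142897375574769759) (c (a (l 142879439795322975) (b (a (l 143054605740474463) (c (l 143069724027420767) (l 143041411598860383))) (c (l 143081749937897567) (l 143053643667800159)))) (a (l 142868582109839455) (b (l 30) (a (l 143010900147126367) (c (l 143025743556100191) (l 30)))))))))))), by decide +kernel⟩

def k25_pm_213 : ∃ t, chk3 f_pm_213 t 126 105 1 = true :=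
  ⟨(b (c (a (c (l 143326597475434719) (l 143239255006511327)) (c (l 143344533260550367) (l 143251899391246559))) (a (l 142924932099129439) (a (l 142927749597642847) (l 142930223498788959)))) (b (c (a (b (l 143309829920899295) (l 143329208816271583)) (b (c (l 143371402580607263) (l 143279799503651039)) (l 143345357894582495))) (a (l 142963140091904095) (b (l 142958467208904799) (l 143157478816399455)))) (c (a (l 143364599351918815) (l 143380885869117663)) (a (l 143185997404274783) (l 143010831457910879))))), by decide +kernel⟩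

def k26_pm_213 : ∃ t, chk3 f_pm_213 t 127 105 2 = true :=
  ⟨(a (c (b (b (l 143353329353457951) (l 143375319589683487)) (b (b (l 143391949705822495) (l 143411809637466399)) (l 143447956087275807))) (b (b (l 143254991766831327) (l 143277806636941535)) (b (b (l 143294986509025503) (l 143314571562746079)) (l 143349824659292383)))) (b (c (a (l 143380542269391135) (b (l 143380542268473631) (l 143403219699417375))) (a (b (l 143267017676079327) (l 143290176143540447)) (c (l 143313884365717791) (b (l 143249013169668319) (l 143272652673499359))))) (b (a (b (c (l 143408648539947295) (l 143307768332468447)) (l 143378343245725983)) (b (c (l 143420468290814239) (a (l 143314571561058591) (l 143319244485738783))) (c (l 143440465661378847) (l 143336699235516703)))) (a (c (l 143464448762888479) (a (l 143360613617713439) (l 143364599347593503))) (c (b (a (l 143461562543833375) (l 143465548273893663)) (l 143481559915053343)) (b (a (l 143357864837497119) (b (l 143356353008435487) (l 143365836297847071))) (a (l 143377793488994591) (l 143377312452903199)))))))),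 by decide +kernel⟩

def k27_pm_213 : ∃ t, chk3 f_pm_213 t 127 105 3 = true :=
  ⟨(a (b (a (c (l 143118652311519327) (l 142882463454920799)) (c (a (l 143167374420656223) (l 143169985760870623)) (l 142929536296304735))) (b (b (c (a (l 143193144229331167) (l 143198435629203679)) (l 142914074419363935)) (c (l 143214997025865951) (l 143113086026809439))) (a (l 143196099167076447) (l 143031309861797983)))) (b (a (c (b (l 143162151738687711) (l 143186134840033503)) (b (l 142912562583306335) (a (l 143078795001708639) (l 142900124362096735)))) (b (a (c (l 143166481065869535) (c (l 143084567437492319) (l 142871468332056671))) (b (c (l 143163457397276895) (c (b (l 143077145732431967) (l 143083399205847135)) (a (l 143023681971896415) (c (l 143038525380853855) (l 30))))) (c (l 143175689476849887) (c (a (l 143092264019886175) (l 143093294812020959)) (a (l 143036326357696607) (c (l 143051169766654047) (l 143022857338159199))))))) (c (c (l 143219257632030943) (l 143165175390437599)) (a (c (l 143109375172673759) (l 142896688384180319)) (b (c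 (l 143105252003004639) (a (l 143048970743496799) (c (l 143063814152437855) (l 143035570443436127)))) (c (l 143117690230325471) (a (l 143061615129280607) (c (l 143076389818728543) (l 143048214829219935))))))))) (b (b (b (a (c (l 143200978249466079) (l 143094944081264735)) (c (l 143207300441506015) (c (l 143125799130120415) (a (l 143069930187620447) (a (l 143070960979656799) (l 143071785613312095)))))) (b (c (a (l 143205445016191199) (l 143211835927707871)) (a (l 143099548286976095) (a (l 143102022187974751) (c (l 143131571566887135) (l 143076046221672543))))) (a (c (l 143209293307478239) (l 143103396578263135)) (c (a (l 143214034951504095) (l 143217402205946079)) (c (l 143134320346579167) (a (l 143078451404095583) (a (l 143079550915608671) (c (l 143094325605056735) (l 143066356773994591))))))))) (a (c (l 143223655680147679) (l 143117346634023007)) (c (a (l 143228466043633887) (l 143231833298075871)) (a (l 143119889254514783) (c (l 143149576072380639) (a (l 143093500971368543) (l 143094325605007455))))))) (a (b (c (l 143246676708081887)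 (l 143139680467140703)) (a (l 143034745837191263) (a (l 143036463824077023) (l 143037013579874527)))) (a (b (c (l 143251418352091359) (c (l 143169779601768671) (l 142934415385968735))) (c (b (l 143267155114655967) (l 143275401453453535)) (l 142981556954136799))) (b (c (b (a (l 143248257255407839) (l 143249425486545119)) (a (l 143258496459047135) (l 143258015422742751))) (a (l 142962933972713695) (a (l 142962933972680927) (c (l 143170810393821407) (l 143114666573234399))))) (c (l 143269903894593759) (c (l 143187440510370015) (a (l 143132258762490079) (l 143130884372889823)))))))))), by decide +kernel⟩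

def k28_pm_213 : ∃ t, chk3 f_pm_213 t 62 53 1 = true :=
  ⟨(b (c (a (c (l 16669944) (l 16664072)) (c (b (l 16667776) (l 16674408)) (a (l 16664488) (l 143424247866769631)))) (a (l 16634432) (c (l 143154386425233503) (l 143068212188315743)))) (c (a (c (l 16683160) (l 16676984)) (a (b (l 16677328) (l 16683640)) (b (l 16677688) (l 16683944)))) (b (a (l 16664768) (a (l 16664320) (l 143235475462733919))) (a (l 16670832) (a (l 16670368) (l 16670120)))))), by decide +kernel⟩

def k29_pm_213 : ∃ t, chk3 f_pm_213 t 126 53 1 = true :=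
  ⟨(b (c (b (a (l 143435174264651999) (a (l 143447406332313823) (b (l 143432562922586335) (l 143479154734383391)))) (b (a (l 143505199421358303) (a (l 143515301185159455) (l 143517156611522847))) (a (c (l 16676848) (l 143501213691035935)) (l 143547324468052255)))) (b (a (l 143252242989547615) (c (l 143126486354149599) (l 143027255415079007))) (a (c (l 143205376326172895) (l 143109237763965023)) (b (a (l 143140436410138719) (l 143138374825689311)) (l 143171222741909727))))) (b (c (a (c (l 16681624) (l 143549248614908191)) (l 143588762322174239)) (a (l 143226885527748831) (l 143214997057978591))) (c (c (l 143691497959735647) (l 143600375918657823)) (a (l 143464242612814047) (l 143273202467340511))))), by decide +kernel⟩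

def k30_pm_213 : ∃ t, chk3 f_pm_213 t 127 53 1 = true :=
  ⟨(c (b (b (b (a (a (l 143441840052535583) (b (l 143439641028231455) (c (l 143510422100279583) (l 143409816770838815)))) (a (b (c (l 143496059727135007) (l 143393667691020575)) (l 143460875350409503)) (c (l 143503481433047327) (l 143399921165484319)))) (a (a (c (l 143532962092843295) (l 143434349628473631)) (l 143484377415729439)) (c (l 143532206180466975) (a (l 143431325972349215) (l 143429195669045535))))) (a (c (l 143576736409665823) (l 143478536261894431)) (c (l 143574193790533983) (a (l 143474687971852575) (a (l 143473244863201567) (l 143472420229742879)))))) (b (a (c (l 143631437126107487) (l 143535229843046687)) (c (l 143629169384866143) (a (l 143531931308835103) (l 143530282041917727)))) (a (c (l 143685038330806623) (l 143591236229382431)) (c (l 143682976747962719) (l 143587594098065759))))) (a (b (a (b (b (l 143240904272281695) (a (l 143102297094029407) (l 143101472460259551))) (l 143148270433370335)) (b (b (b (c (l 143286259132973279) (l 143180843440226399))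 (l 143073915945304287)) (l 143098380083740895)) (c (l 143375457031274719) (l 143270934691414239)))) (b (c (l 143436136341897503) (l 143334019183706335)) (c (l 143494273031930143) (l 143394217457926367)))) (b (b (b (a (b (a (l 143055636561281247) (l 143054605769097439)) (l 143070961007739103)) (a (c (l 143294299313553631) (l 143185310207361247)) (c (c (l 143319588085137695) (l 143265437129343199)) (a (l 143183454781407455) (c (l 143210049222951135) (b (l 143146483697238239) (l 143162083021586655))))))) (a (c (l 143327009790755039) (l 143219944830058719)) (a (c (l 143324398450753759) (l 143216165258707167)) (c (c (l 143349618502877471) (l 143295879863910623)) (a (l 143214447271723231) (c (l 143240904274329823) (b (l 143177751065428191) (l 143193350389792991)))))))) (b (a (l 143078863758622943) (a (c (l 143354428868477215) (l 143247089029546207)) (c (l 143352985759564063) (c (l 143272240362078431) (b (l 143209568189481183) (l 143225236233339103)))))) (a (l 143064089077465311) (c (l 143383703361290527) (a (l 143277944080924895)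 (c (l 143303026694029535) (a (l 143249219335487711) (l 143248188543303903)))))))) (a (a (b (l 143110199855890655) (l 143170054532841695)) (b (l 143153493104787679) (l 143168542704402719))) (c (b (b (l 143413527631331615) (l 143443283171148063)) (l 143487744682197279)) (b (b (a (l 143308799132319967) (c (l 143333744306487583) (l 143279936947912927))) (a (l 143339585464254687) (l 143337936196796639))) (b (l 143369615881961759) (l 143400333494436127)))))))), by decide +kernel⟩

def k31_pm_213 : ∃ t, chk3 f_pm_213 t 14 27 1 = true :=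
  ⟨(a (l 14) (b (a (b (l 16691536) (l 14)) (b (a (a (l 16668776) (l 16668192)) (c (a (l 16671856) (a (l 16674072) (b (c (l 16690736) (l 16686680)) (b (l 16693856) (l 16697248))))) (a (l 16663544) (a (l 16663200) (b (l 16665064) (l 16666056)))))) (b (a (l 14) (a (l 16677080) (c (a (l 16702432) (l 16702232)) (l 16672152)))) (l 14)))) (l 14))), by decide +kernel⟩

def k32_pm_213 : ∃ t, chk3 f_pm_213 t 30 27 1 = true :=
  ⟨(b (a (a (b (b (c (a (l 16688648) (l 16688704)) (l 16659248)) (a (c (c (l 16697656) (l 16693216)) (c (l 16688856) (l 16684576))) (c (l 16695384) (l 16686184)))) (a (b (c (a (b (l 16700408) (l 16708928)) (l 16701984)) (c (l 16675424) (l 16669552))) (l 14)) (c (c (l 16707640) (l 16702656)) (c (l 16697712) (l 16692808))))) (b (c (c (l 16694632) (l 16689696)) (c (l 16684824) (l 16680016))) (c (b (l 16701800) (a (l 16708120) (l 16707976))) (b (l 16691432) (a (l 16697568) (l 16696984)))))) (b (c (a (c (l 16694896) (l 16689456)) (c (l 16695360) (l 16689432))) (a (c (l 16684056) (l 16678704)) (l 16659608))) (c (a (c (l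 16707672) (l 16712408)) (c (l 16707856) (l 16701688))) (a (c (l 16675208) (l 16690432)) (c (l 16695496) (l 16689288)))))) (a (l 14) (b (c (a (b (l 16713968) (l 14)) (c (l 16720168) (l 16724328))) (a (b (l 16702040) (l 14)) (c (l 16717960) (l 16680080)))) (l 14)))), by decide +kernel⟩

def k33_pm_213 : ∃ t, chk3 f_pm_213 t 62 27 1 = true :=
  ⟨(b (a (b (c (c (l 16695904) (l 16689488)) (c (l 16683072) (l 16676648))) (c (c (l 16708288) (l 16701712)) (c (l 16695104) (l 16688456)))) (c (b (c (l 16696600) (l 143699057105273119)) (c (l 16708944) (l 16701984))) (a (b (l 16679400) (l 16691488)) (b (l 143381092064952543) (l 143491593019179295))))) (a (b (c (a (l 16717104) (l 16717240)) (b (l 16700760) (l 16706752))) (l 14)) (a (b (c (c (l 16720840) (l 16713984)) (b (l 16700528) (l 16706544))) (l 14)) (b (c (c (l 16721152) (l 16714152)) (c (l 16707072) (l 16699904))) (a (l 14) (b (c (l 16726184) (l 16712168)) (l 14))))))), by decide +kernel⟩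

def k34_pm_213 : ∃ t, chk3 f_pm_213 t 63 54 1 = true :=
  ⟨(a (c (b (a (c (l 16697288) (l 143685313210646815)) (c (l 143766951964918111) (l 143678578702598495))) (a (c (l 16709552) (l 16702328)) (a (l 143826806646374751) (l 143824470184591711)))) (b (a (c (l 143595634278613279) (l 143503069128474847)) (c (l 143587181783187743) (l 143312441299730655))) (b (a (l 143633842318934303) (l 143625733420744991)) (a (l 143689436388114719) (l 143682083404185887))))) (c (c (a (b (l 143763378553373023) (l 143863021819511135)) (b (b (l 143735547160346975) (l 143786811902509407)) (c (l 143881644802834783) (l 143840756706312543)))) (a (b (l 143673768340046175) (c (l 143801036839879007) (l 143758568195473759))) (a (b (l 143671225720078687) (l 143777947092451679)) (b (b (l 143642569692430687) (l 143697270408528223)) (c (l 143798562939928927) (l 143755750697927007)))))) (b (b (a (c (l 143551928685609247) (l 143454209573765407)) (c (l 143547255761682719) (a (l 143449124332454175) (l 143446444272910623)))) (a (c (l 143608965863948575) (l 143513926811697439))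 (c (l 143604911415345503) (a (l 143509597484695839) (l 143507398461522207))))) (b (a (c (l 143665178408517983) (l 143573231732752671)) (c (l 143661811154682207) (a (l 143569589600567583) (l 143567871613763935)))) (a (c (l 143720635038744927) (l 143631986897961311)) (b (c (l 143703867483816287) (l 143613363916783967)) (c (l 143731561439166815) (l 143642982017565023)))))))), by decide +kernel⟩

def k35_pm_213 : ∃ t, chk3 f_pm_213 t 63 55 1 = true :=
  ⟨(b (a (b (c (c (l 16718752) (l 143862746943521119)) (a (l 16700456) (l 143737677473333599))) (a (c (l 16720880) (l 16706496)) (c (l 16721200) (c (l 16710256) (l 143751627531845983))))) (c (b (a (l 143895526142525791) (a (l 143893876875755871) (l 143893395839910239))) (a (c (l 16725216) (l 143905765348966751)) (c (l 143977302340223327) (l 143903909923815775)))) (b (a (c (l 143775129596182879) (l 143690054868336991)) (a (b (l 143716718030291295) (l 143744893021962591)) (c (l 143772449537245535) (a (l 143686893772652895) (l 143686550175334751))))) (a (c (l 143828524641878367) (l 143747366924386655))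 (c (c (l 143846322990711135) (l 143806671844835679)) (a (l 143745442779185503) (b (l 143730393210798431) (l 143759255397220703)))))))) (c (b (b (c (a (l 16728936) (l 144010906172555615)) (a (l 16721848) (a (l 16722224) (l 143940056377409887)))) (a (l 16727648) (a (l 16728120) (l 143992420630872415)))) (l 14)) (b (b (c (a (l 16714648) (a (l 143867763472171359) (c (l 143885012065108319) (l 143847010186772831)))) (a (l 143796226481504607) (a (l 143789698131296607) (a (l 143788186302955871) (a (l 143787842705670495) (l 143787842705736031)))))) (a (a (l 14) (l 16702992)) (a (c (l 16712040) (l 143812650441687391)) (c (l 143887004931080543) (a (l 143811550930239839) (l 143811550930403679)))))) (l 14)))), by decide +kernel⟩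

def k36_pm_213 : ∃ t, chk3 f_pm_213 t 7 7 1 = true :=
  ⟨(b (l 14) (l 14)), by decide +kernel⟩

theorem s37_pm_213 : ∃ t, chk3 f_pm_213 t 63 27 1 = true := ex3_b k34_pm_213 k35_pm_213

theorem s38_pm_213 : ∃ t, chk3 f_pm_213 t 31 27 1 = true := ex3_a k33_pm_213 s37_pm_213

theorem s39_pm_213 : ∃ t, chk3 f_pm_213 t 15 27 1 = true := ex3_a k32_pm_213 s38_pm_213

theorem s40_pm_213 : ∃ t, chk3 f_pm_213 t 7 27 1 = true := ex3_a k31_pm_213 s39_pm_213

theorem s41_pm_213 : ∃ t, chk3 f_pm_213 t 63 53 1 = true := ex3_a k29_pm_213 k30_pm_213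

theorem s42_pm_213 : ∃ t, chk3 f_pm_213 t 31 53 1 = true := ex3_a k28_pm_213 s41_pm_213

theorem s43_pm_213 : ∃ t, chk3 f_pm_213 t 127 105 1 = true := ex3_c k26_pm_213 k27_pm_213

theorem s44_pm_213 : ∃ t, chk3 f_pm_213 t 63 105 1 = true := ex3_a k25_pm_213 s43_pm_213

theorem s45_pm_213 : ∃ t, chk3 f_pm_213 t 63 104 1 = true := ex3_a k23_pm_213 k24_pm_213

theorem s46_pm_213 : ∃ t, chk3 f_pm_213 t 63 52 1 = true := ex3_b s45_pm_213 s44_pm_213

theorem s47_pm_213 : ∃ t, chk3 f_pm_213 t 31 52 1 = true := ex3_a k22_pm_213 s46_pm_213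

theorem s48_pm_213 : ∃ t, chk3 f_pm_213 t 31 26 1 = true := ex3_b s47_pm_213 s42_pm_213

theorem s49_pm_213 : ∃ t, chk3 f_pm_213 t 15 26 1 = true := ex3_a k21_pm_213 s48_pm_213

theorem s50_pm_213 : ∃ t, chk3 f_pm_213 t 7 26 1 = true := ex3_a k20_pm_213 s49_pm_213

theorem s51_pm_213 : ∃ t, chk3 f_pm_213 t 7 13 1 = true := ex3_b s50_pm_213 s40_pm_213

theorem s52_pm_213 : ∃ t, chk3 f_pm_213 t 511 51 1 = true := ex3_b k18_pm_213 k19_pm_213

theorem s53_pm_213 : ∃ t, chk3 f_pm_213 t 255 51 1 = true := ex3_a k17_pm_213 s52_pm_213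

theorem s54_pm_213 : ∃ t, chk3 f_pm_213 t 127 51 1 = true := ex3_a k16_pm_213 s53_pm_213

theorem s55_pm_213 : ∃ t, chk3 f_pm_213 t 127 25 1 = true := ex3_b k15_pm_213 s54_pm_213

theorem s56_pm_213 : ∃ t, chk3 f_pm_213 t 63 25 1 = true := ex3_a k14_pm_213 s55_pm_213

theorem s57_pm_213 : ∃ t, chk3 f_pm_213 t 31 25 1 = true := ex3_a k13_pm_213 s56_pm_213

theorem s58_pm_213 : ∃ t, chk3 f_pm_213 t 15 25 1 = true := ex3_a k12_pm_213 s57_pm_213

theorem s59_pm_213 : ∃ t, chk3 f_pm_213 t 31 24 1 = true := ex3_a k10_pm_213 k11_pm_213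

theorem s60_pm_213 : ∃ t, chk3 f_pm_213 t 15 24 1 = true := ex3_a k9_pm_213 s59_pm_213

theorem s61_pm_213 : ∃ t, chk3 f_pm_213 t 15 12 1 = true := ex3_b s60_pm_213 s58_pm_213

theorem s62_pm_213 : ∃ t, chk3 f_pm_213 t 7 12 1 = true := ex3_a k8_pm_213 s61_pm_213

theorem s63_pm_213 : ∃ t, chk3 f_pm_213 t 7 6 1 = true := ex3_b s62_pm_213 s51_pm_213

theorem s64_pm_213 : ∃ t, chk3 f_pm_213 t 7 3 1 = true := ex3_b s63_pm_213 k36_pm_213

theorem s65_pm_213 : ∃ t, chk3 f_pm_213 t 3 3 1 = true := ex3_a k7_pm_213 s64_pm_213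

theorem s66_pm_213 : ∃ t, chk3 f_pm_213 t 15 11 1 = true := ex3_b k5_pm_213 k6_pm_213

theorem s67_pm_213 : ∃ t, chk3 f_pm_213 t 7 11 1 = true := ex3_a k4_pm_213 s66_pm_213

theorem s68_pm_213 : ∃ t, chk3 f_pm_213 t 3 11 1 = true := ex3_a k3_pm_213 s67_pm_213

theorem s69_pm_213 : ∃ t, chk3 f_pm_213 t 3 5 1 = true := ex3_b k2_pm_213 s68_pm_213

theorem s70_pm_213 : ∃ t, chk3 f_pm_213 t 3 2 1 = true := ex3_b k1_pm_213 s69_pm_213

theorem s71_pm_213 : ∃ t, chk3 f_pm_213 t 3 1 1 = true := ex3_b s70_pm_213 s65_pm_213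

theorem s72_pm_213 : ∃ t, chk3 f_pm_213 t 1 1 1 = true := ex3_a k0_pm_213 s71_pm_213

theorem c_pm_213 : CertB 0 536870912 536870912 536870912 818728140 40265320 3 eng mog cd0q2 cd0q1 pd3 true true false .pnn 2 1 3
    ndB0q2 ndB0q1 pcB3 cut_pm_213 xt_pm_213 :=
  certB1 (fam := true) (s1 := true) (s2 := false) (a := 2) (b := 1) (c := 3) (cn := .pnn) (n1 := ndB0q2) (n2 := ndB0q1) (pc := pcB3) (cut := cut_pm_213) (xt := xt_pm_213) (P1 := 0) (W1 := 536870912) (P2 := 536870912) (W2 := 536870912) (P3 := 818728140) (W3 := 40265320) (N0 := 3) (En := eng) (mo := mog) (C1 := cd0q2) (C2 := cd0q1) (C3 := pd3)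
    rfl (fun _ => rfl) s72_pm_213

noncomputable def cut_mm_001 : Cut := Cut.of [[⟨3, 0, 0, 1449551462⟩], [⟨4, 0, 0, 2845415833⟩]]

noncomputable def f_mm_001 : ℕ → ℕ → ℕ → ℕ → Bool := onCell 0 536870912 0 536870912 818728140 40265320
    (rowB 3 eng mog cd0q0 cd0q0 pd1 0 true false false .up 0 0 1 (qsf 0 536870912 0 536870912 1) ndB0q0 ndB0q0 pcB1 cut_mm_001 Ext.none)

def k0_mm_001 : ∃ t, chk3 f_mm_001 t 1 1 1 = true :=
  ⟨(l 4), by decide +kernel⟩

theorem c_mm_001 : CertB 0 536870912 0 536870912 818728140 40265320 3 eng mog cd0q0 cd0q0 pd1 true false false .up 0 0 1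
    ndB0q0 ndB0q0 pcB1 cut_mm_001 Ext.none :=
  certB0 (fam := true) (s1 := false) (s2 := false) (a := 0) (b := 0) (c := 1) (cn := .up) (n1 := ndB0q0) (n2 := ndB0q0) (pc := pcB1) (cut := cut_mm_001) (xt := Ext.none) (P1 := 0) (W1 := 536870912) (P2 := 0) (W2 := 536870912) (P3 := 818728140) (W3 := 40265320) (N0 := 3) (En := eng) (mo := mog) (C1 := cd0q0) (C2 := cd0q0) (C3 := pd1)
    rfl k0_mm_001

noncomputable def cut_mm_011 : Cut := Cut.of [[⟨3, 0, 0, 1449551462⟩], [⟨4, 0, 0, 2845415833⟩]]

noncomputable def f_mm_011 : ℕ → ℕ → ℕ → ℕ → Bool := onCell 0 536870912 536870912 536870912 818728140 40265320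
    (rowB 3 eng mog cd0q0 cd0q1 pd1 0 true false false .pnn 0 1 1 (qsf 0 536870912 536870912 536870912 1) ndB0q0 ndB0q1 pcB1 cut_mm_011 Ext.none)

def k0_mm_011 : ∃ t, chk3 f_mm_011 t 1 1 1 = true :=
  ⟨(l 14), by decide +kernel⟩

theorem c_mm_011 : CertB 0 536870912 536870912 536870912 818728140 40265320 3 eng mog cd0q0 cd0q1 pd1 true false false .pnn 0 1 1
    ndB0q0 ndB0q1 pcB1 cut_mm_011 Ext.none :=
  certB0 (fam := true) (s1 := false) (s2 := false) (a := 0) (b := 1) (c := 1) (cn := .pnn) (n1 := ndB0q0) (n2 := ndB0q1) (pc := pcB1) (cut := cut_mm_011) (xt := Ext.none) (P1 := 0) (W1 := 536870912) (P2 := 536870912) (W2 := 536870912) (P3 := 818728140) (W3 := 40265320) (N0 := 3) (En := eng) (mo := mog) (C1 := cd0q0) (C2 := cd0q1) (C3 := pd1)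
    rfl k0_mm_011

noncomputable def cut_mm_012 : Cut := Cut.of [[⟨3, 0, 0, 1449551462⟩], [⟨4, 0, 0, 2845415833⟩]]

noncomputable def f_mm_012 : ℕ → ℕ → ℕ → ℕ → Bool := onCell 0 536870912 536870912 536870912 818728140 40265320
    (rowB 3 eng mog cd0q0 cd0q1 pd2 0 true false false .pnp 0 1 2 (qsf 0 536870912 536870912 536870912 2) ndB0q0 ndB0q1 pcB2 cut_mm_012 Ext.none)

def k0_mm_012 : ∃ t, chk3 f_mm_012 t 1 1 1 = true :=
  ⟨(l 14), by decide +kernel⟩

theorem c_mm_012 : CertB 0 536870912 536870912 536870912 818728140 40265320 3 eng mog cd0q0 cd0q1 pd2 true false false .pnp 0 1 2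
    ndB0q0 ndB0q1 pcB2 cut_mm_012 Ext.none :=
  certB0 (fam := true) (s1 := false) (s2 := false) (a := 0) (b := 1) (c := 2) (cn := .pnp) (n1 := ndB0q0) (n2 := ndB0q1) (pc := pcB2) (cut := cut_mm_012) (xt := Ext.none) (P1 := 0) (W1 := 536870912) (P2 := 536870912) (W2 := 536870912) (P3 := 818728140) (W3 := 40265320) (N0 := 3) (En := eng) (mo := mog) (C1 := cd0q0) (C2 := cd0q1) (C3 := pd2)
    rfl k0_mm_012

noncomputable def cut_mm_022 : Cut := Cut.of [[⟨3, 0, 0, 1449551462⟩], [⟨4, 0, 0, 2845415833⟩]]

noncomputable def f_mm_022 : ℕ → ℕ → ℕ → ℕ → Bool := onCell 0 536870912 0 536870912 818728140 40265320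
    (rowB 3 eng mog cd0q0 cd0q2 pd2 0 true false false .pp 0 2 2 (qsf 0 536870912 0 536870912 2) ndB0q0 ndB0q2 pcB2 cut_mm_022 Ext.none)

def k0_mm_022 : ∃ t, chk3 f_mm_022 t 1 1 1 = true :=
  ⟨(l 5), by decide +kernel⟩

theorem c_mm_022 : CertB 0 536870912 0 536870912 818728140 40265320 3 eng mog cd0q0 cd0q2 pd2 true false false .pp 0 2 2
    ndB0q0 ndB0q2 pcB2 cut_mm_022 Ext.none :=
  certB0 (fam := true) (s1 := false) (s2 := false) (a := 0) (b := 2) (c := 2) (cn := .pp) (n1 := ndB0q0) (n2 := ndB0q2) (pc := pcB2) (cut := cut_mm_022) (xt := Ext.none) (P1 := 0) (W1 := 536870912) (P2 := 0) (W2 := 536870912) (P3 := 818728140) (W3 := 40265320) (N0 := 3) (En := eng) (mo := mog) (C1 := cd0q0) (C2 := cd0q2) (C3 := pd2)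
    rfl k0_mm_022

noncomputable def cut_mm_023 : Cut := Cut.of [[⟨3, 0, 0, 1449551462⟩], [⟨4, 0, 0, 2845415833⟩]]

noncomputable def f_mm_023 : ℕ → ℕ → ℕ → ℕ → Bool := onCell 0 536870912 0 536870912 818728140 40265320
    (rowB 3 eng mog cd0q0 cd0q2 pd3 0 true false false .up 0 2 3 (qsf 0 536870912 0 536870912 3) ndB0q0 ndB0q2 pcB3 cut_mm_023 Ext.none)

def k0_mm_023 : ∃ t, chk3 f_mm_023 t 1 1 1 = true :=
  ⟨(l 5), by decide +kernel⟩

theorem c_mm_023 : CertB 0 536870912 0 536870912 818728140 40265320 3 eng mog cd0q0 cd0q2 pd3 true false false .up 0 2 3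
    ndB0q0 ndB0q2 pcB3 cut_mm_023 Ext.none :=
  certB0 (fam := true) (s1 := false) (s2 := false) (a := 0) (b := 2) (c := 3) (cn := .up) (n1 := ndB0q0) (n2 := ndB0q2) (pc := pcB3) (cut := cut_mm_023) (xt := Ext.none) (P1 := 0) (W1 := 536870912) (P2 := 0) (W2 := 536870912) (P3 := 818728140) (W3 := 40265320) (N0 := 3) (En := eng) (mo := mog) (C1 := cd0q0) (C2 := cd0q2) (C3 := pd3)
    rfl k0_mm_023

noncomputable def cut_mm_101 : Cut := Cut.of [[⟨3, 0, 0, 1449551462⟩], [⟨4, 0, 0, 2845415833⟩], [⟨0, 1, 0, 67108864⟩, ⟨1, 0, 0, 67108864⟩, ⟨2, 1, 0, 67108864⟩]]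

noncomputable def f_mm_101 : ℕ → ℕ → ℕ → ℕ → Bool := onCell 536870912 536870912 0 536870912 818728140 40265320
    (rowB 3 eng mog cd0q1 cd0q0 pd1 0 true false false .npn 1 0 1 (qsf 536870912 536870912 0 536870912 1) ndB0q1 ndB0q0 pcB1 cut_mm_101 Ext.none)

def k0_mm_101 : ∃ t, chk3 f_mm_101 t 1 1 1 = true :=
  ⟨(l 14), by decide +kernel⟩

theorem c_mm_101 : CertB 536870912 536870912 0 536870912 818728140 40265320 3 eng mog cd0q1 cd0q0 pd1 true false false .npn 1 0 1
    ndB0q1 ndB0q0 pcB1 cut_mm_101 Ext.none :=
  certB0 (fam := true) (s1 := false) (s2 := false) (a := 1) (b := 0) (c := 1) (cn := .npn) (n1 := ndB0q1) (n2 := ndB0q0) (pc := pcB1) (cut := cut_mm_101) (xt := Ext.none) (P1 := 536870912) (W1 := 536870912) (P2 := 0) (W2 := 536870912) (P3 := 818728140) (W3 := 40265320) (N0 := 3) (En := eng) (mo := mog) (C1 := cd0q1) (C2 := cd0q0) (C3 := pd1)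
    rfl k0_mm_101

noncomputable def cut_mm_102 : Cut := Cut.of [[⟨3, 0, 0, 1449551462⟩], [⟨4, 0, 0, 2845415833⟩], [⟨0, 1, 0, 67108864⟩, ⟨1, 0, 0, 67108864⟩, ⟨2, 1, 0, 67108864⟩]]

noncomputable def f_mm_102 : ℕ → ℕ → ℕ → ℕ → Bool := onCell 536870912 536870912 0 536870912 818728140 40265320
    (rowB 3 eng mog cd0q1 cd0q0 pd2 0 true false false .npp 1 0 2 (qsf 536870912 536870912 0 536870912 2) ndB0q1 ndB0q0 pcB2 cut_mm_102 Ext.none)

def k0_mm_102 : ∃ t, chk3 f_mm_102 t 1 1 1 = true :=
  ⟨(l 14), by decide +kernel⟩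

theorem c_mm_102 : CertB 536870912 536870912 0 536870912 818728140 40265320 3 eng mog cd0q1 cd0q0 pd2 true false false .npp 1 0 2
    ndB0q1 ndB0q0 pcB2 cut_mm_102 Ext.none :=
  certB0 (fam := true) (s1 := false) (s2 := false) (a := 1) (b := 0) (c := 2) (cn := .npp) (n1 := ndB0q1) (n2 := ndB0q0) (pc := pcB2) (cut := cut_mm_102) (xt := Ext.none) (P1 := 536870912) (W1 := 536870912) (P2 := 0) (W2 := 536870912) (P3 := 818728140) (W3 := 40265320) (N0 := 3) (En := eng) (mo := mog) (C1 := cd0q1) (C2 := cd0q0) (C3 := pd2)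
    rfl k0_mm_102

noncomputable def cut_mm_112 : Cut := Cut.of [[⟨3, 0, 0, 1449551462⟩], [⟨4, 0, 0, 2845415833⟩]]

noncomputable def f_mm_112 : ℕ → ℕ → ℕ → ℕ → Bool := onCell 536870912 536870912 536870912 536870912 818728140 40265320
    (rowB 3 eng mog cd0q1 cd0q1 pd2 0 true false false .dn 1 1 2 (qsf 536870912 536870912 536870912 536870912 2) ndB0q1 ndB0q1 pcB2 cut_mm_112 Ext.none)

def k0_mm_112 : ∃ t, chk3 f_mm_112 t 1 1 1 = true :=
  ⟨(l 4), by decide +kernel⟩

theorem c_mm_112 : CertB 536870912 536870912 536870912 536870912 818728140 40265320 3 eng mog cd0q1 cd0q1 pd2 true false false .dn 1 1 2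
    ndB0q1 ndB0q1 pcB2 cut_mm_112 Ext.none :=
  certB0 (fam := true) (s1 := false) (s2 := false) (a := 1) (b := 1) (c := 2) (cn := .dn) (n1 := ndB0q1) (n2 := ndB0q1) (pc := pcB2) (cut := cut_mm_112) (xt := Ext.none) (P1 := 536870912) (W1 := 536870912) (P2 := 536870912) (W2 := 536870912) (P3 := 818728140) (W3 := 40265320) (N0 := 3) (En := eng) (mo := mog) (C1 := cd0q1) (C2 := cd0q1) (C3 := pd2)
    rfl k0_mm_112

noncomputable def cut_mm_113 : Cut := Cut.of [[⟨3, 0, 0, 1449551462⟩], [⟨4, 0, 0, 2845415833⟩]]

noncomputable def f_mm_113 : ℕ → ℕ → ℕ → ℕ → Bool := onCell 536870912 536870912 536870912 536870912 818728140 40265320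
    (rowB 3 eng mog cd0q1 cd0q1 pd3 0 true false false .nn 1 1 3 (qsf 536870912 536870912 536870912 536870912 3) ndB0q1 ndB0q1 pcB3 cut_mm_113 Ext.none)

def k0_mm_113 : ∃ t, chk3 f_mm_113 t 1 1 1 = true :=
  ⟨(l 4), by decide +kernel⟩

theorem c_mm_113 : CertB 536870912 536870912 536870912 536870912 818728140 40265320 3 eng mog cd0q1 cd0q1 pd3 true false false .nn 1 1 3
    ndB0q1 ndB0q1 pcB3 cut_mm_113 Ext.none :=
  certB0 (fam := true) (s1 := false) (s2 := false) (a := 1) (b := 1) (c := 3) (cn := .nn) (n1 := ndB0q1) (n2 := ndB0q1) (pc := pcB3) (cut := cut_mm_113) (xt := Ext.none) (P1 := 536870912) (W1 := 536870912) (P2 := 536870912) (W2 := 536870912) (P3 := 818728140) (W3 := 40265320) (N0 := 3) (En := eng) (mo := mog) (C1 := cd0q1) (C2 := cd0q1) (C3 := pd3)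
    rfl k0_mm_113

noncomputable def cut_mm_123 : Cut := Cut.of [[⟨3, 0, 0, 1449551462⟩], [⟨4, 0, 0, 2845415833⟩]]

noncomputable def f_mm_123 : ℕ → ℕ → ℕ → ℕ → Bool := onCell 536870912 536870912 0 536870912 818728140 40265320
    (rowB 3 eng mog cd0q1 cd0q2 pd3 0 true false false .npn 1 2 3 (qsf 536870912 536870912 0 536870912 3) ndB0q1 ndB0q2 pcB3 cut_mm_123 Ext.none)

def k0_mm_123 : ∃ t, chk3 f_mm_123 t 1 1 1 = true :=
  ⟨(a (l 5) (l 4)), by decide +kernel⟩

theorem c_mm_123 : CertB 536870912 536870912 0 536870912 818728140 40265320 3 eng mog cd0q1 cd0q2 pd3 true false false .npn 1 2 3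
    ndB0q1 ndB0q2 pcB3 cut_mm_123 Ext.none :=
  certB0 (fam := true) (s1 := false) (s2 := false) (a := 1) (b := 2) (c := 3) (cn := .npn) (n1 := ndB0q1) (n2 := ndB0q2) (pc := pcB3) (cut := cut_mm_123) (xt := Ext.none) (P1 := 536870912) (W1 := 536870912) (P2 := 0) (W2 := 536870912) (P3 := 818728140) (W3 := 40265320) (N0 := 3) (En := eng) (mo := mog) (C1 := cd0q1) (C2 := cd0q2) (C3 := pd3)
    rfl k0_mm_123

noncomputable def cut_mm_202 : Cut := Cut.of [[⟨3, 0, 0, 1449551462⟩], [⟨4, 0, 0, 2845415833⟩], [⟨0, 1, 0, 67108864⟩, ⟨1, 0, 0, 67108864⟩, ⟨2, 1, 0, 67108864⟩]]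

noncomputable def f_mm_202 : ℕ → ℕ → ℕ → ℕ → Bool := onCell 0 536870912 0 536870912 818728140 40265320
    (rowB 3 eng mog cd0q2 cd0q0 pd2 0 true false false .pp 2 0 2 (qsf 0 536870912 0 536870912 2) ndB0q2 ndB0q0 pcB2 cut_mm_202 Ext.none)

def k0_mm_202 : ∃ t, chk3 f_mm_202 t 2 4 1 = true :=
  ⟨(b (a (a (b (a (l 16326120) (b (a (l 16329432) (l 16336976)) (l 16345600))) (a (b (l 16346144) (l 16358848)) (l 16366000))) (a (b (b (l 16349488) (l 16362976)) (l 16383112)) (b (b (l 16364704) (l 16378704)) (l 16420448)))) (b (a (a (b (l 16380448) (l 16395096)) (b (b (l 16397960) (l 16405544)) (l 16458808))) (c (a (b (l 16433528) (l 16448808)) (b (l 16460088) (l 16455016))) (a (b (l 16419856) (l 16435560)) (b (l 16469640) (l 16443680))))) (a (a (b (l 16409592) (l 16423856)) (b (l 16431768) (l 16446384))) (a (b (l 16457608) (l 16472552)) (b (b (l 16482224) (l 16489992)) (l 16480496)))))) (a (a (b (a (b (l 16371088) (l 16383472)) (l 16392688)) (a (l 16403904) (l 16419920))) (b (b (l 16473904) (l 16466208)) (a (l 16436696) (l 16474968))))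 (b (a (a (b (l 16437800) (l 16451512)) (b (l 16460592) (l 16474488))) (a (b (l 16487080) (l 16501128)) (b (l 16495384) (a (l 16522872) (l 16538440))))) (a (a (b (l 16465480) (l 16480296)) (b (l 16488560) (l 16503440))) (a (b (l 16515232) (l 16530080)) (b (b (l 16541352) (l 16548568)) (b (l 16555976) (l 16563624)))))))), by decide +kernel⟩

def k1_mm_202 : ∃ t, chk3 f_mm_202 t 2 5 1 = true :=
  ⟨(a (b (a (b (b (l 16435576) (l 16452392)) (a (l 16471296) (l 16486144))) (b (a (l 16488792) (l 16548384)) (a (l 16502792) (l 16478864)))) (a (b (a (l 16506192) (l 16520960)) (l 16504488)) (a (b (l 16537648) (l 16570640)) (b (l 16535144) (l 16589752))))) (b (b (a (a (b (l 16496168) (l 16513392)) (b (l 16519368) (l 16536624))) (a (b (l 16545968) (l 16563168)) (b (b (l 16571536) (l 14)) (l 14)))) (a (a (b (l 16531568) (l 16549752)) (b (l 16554848) (l 16573064))) (b (a (l 16581312) (l 14)) (l 14)))) (a (b (a (b (l 16567728) (l 16585384)) (b (l 16591096) (l 14))) (a (l 16569048) (l 14))) (l 14)))), by decide +kernel⟩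

def k2_mm_202 : ∃ t, chk3 f_mm_202 t 3 2 1 = true :=
  ⟨(b (a (b (a (b (a (b (a (b (l 16472696) (l 16480888)) (b (l 16488400) (l 16496696))) (a (b (l 16489040) (l 16497128)) (b (l 16504968) (l 16513184)))) (b (a (b (l 16504312) (l 16533704)) (b (c (l 16523640) (l 16516712)) (c (l 16532224) (l 16525232)))) (a (b (l 16500168) (l 16508536)) (b (c (l 16540800) (l 16533760)) (c (l 16549320) (l 16542296)))))) (b (a (a (b (l 16505144) (l 16513080)) (b (l 16521328) (l 16529392))) (a (b (l 16516832) (c (l 16549696) (l 16542136))) (b (c (l 16557760) (l 16550784)) (l 14)))) (a (a (l 16524808) (l 16525584)) (a (b (l 16538392) (l 14)) (l 14))))) (a (b (b (a (b (c (l 16539392) (l 16512064)) (a (l 16540872) (l 14))) (l 14)) (l 14)) (l 14)) (l 14))) (a (b (a (b (a (l 16540024) (l 16543664)) (a (l 16554712) (l 14))) (l 14)) (l 14)) (l 14))) (l 14)) (l 14)), by decide +kernel⟩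

def k3_mm_202 : ∃ t, chk3 f_mm_202 t 1 3 1 = true :=
  ⟨(a (a (b (b (a (b (l 16575640) (l 16600552)) (b (l 16631504) (l 16678744))) (a (b (l 16623120) (l 16644376)) (l 14))) (l 2)) (l 14)) (l 14)), by decide +kernel⟩

theorem s4_mm_202 : ∃ t, chk3 f_mm_202 t 2 2 1 = true := ex3_b k0_mm_202 k1_mm_202

theorem s5_mm_202 : ∃ t, chk3 f_mm_202 t 1 2 1 = true := ex3_a s4_mm_202 k2_mm_202

theorem s6_mm_202 : ∃ t, chk3 f_mm_202 t 1 1 1 = true := ex3_b s5_mm_202 k3_mm_202

theorem c_mm_202 : CertB 0 536870912 0 536870912 818728140 40265320 3 eng mog cd0q2 cd0q0 pd2 true false false .pp 2 0 2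
    ndB0q2 ndB0q0 pcB2 cut_mm_202 Ext.none :=
  certB0 (fam := true) (s1 := false) (s2 := false) (a := 2) (b := 0) (c := 2) (cn := .pp) (n1 := ndB0q2) (n2 := ndB0q0) (pc := pcB2) (cut := cut_mm_202) (xt := Ext.none) (P1 := 0) (W1 := 536870912) (P2 := 0) (W2 := 536870912) (P3 := 818728140) (W3 := 40265320) (N0 := 3) (En := eng) (mo := mog) (C1 := cd0q2) (C2 := cd0q0) (C3 := pd2)
    rfl s6_mm_202

noncomputable def cut_mm_203 : Cut := Cut.of [[⟨3, 0, 0, 1449551462⟩], [⟨4, 0, 0, 2845415833⟩]]

noncomputable def f_mm_203 : ℕ → ℕ → ℕ → ℕ → Bool := onCell 0 536870912 1610612736 536870912 818728140 40265320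
    (rowB 3 eng mog cd0q2 cd0q0 pd3 1 true false false .up 2 0 3 (qsf 0 536870912 0 536870912 3) ndB0q2 ndB0q0 pcB3 cut_mm_203 Ext.none)

def k0_mm_203 : ∃ t, chk3 f_mm_203 t 1 1 1 = true :=
  ⟨(a (b (b (b (a (a (a (b (l 16619240) (l 14)) (l 14)) (l 14)) (l 14)) (l 14)) (l 14)) (l 2)) (l 14)), by decide +kernel⟩

theorem c_mm_203 : CertB 0 536870912 0 536870912 818728140 40265320 3 eng mog cd0q2 cd0q0 pd3 true false false .up 2 0 3
    ndB0q2 ndB0q0 pcB3 cut_mm_203 Ext.none :=
  certB1 (fam := true) (s1 := false) (s2 := false) (a := 2) (b := 0) (c := 3) (cn := .up) (n1 := ndB0q2) (n2 := ndB0q0) (pc := pcB3) (cut := cut_mm_203) (xt := Ext.none) (P1 := 0) (W1 := 536870912) (P2 := 0) (W2 := 536870912) (P3 := 818728140) (W3 := 40265320) (N0 := 3) (En := eng) (mo := mog) (C1 := cd0q2) (C2 := cd0q0) (C3 := pd3)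
    rfl (fun _ => rfl) k0_mm_203

noncomputable def cut_mm_213 : Cut := Cut.of [[⟨3, 0, 0, 1449551462⟩], [⟨4, 0, 0, 2845415833⟩]]

noncomputable def f_mm_213 : ℕ → ℕ → ℕ → ℕ → Bool := onCell 0 536870912 536870912 536870912 818728140 40265320
    (rowB 3 eng mog cd0q2 cd0q1 pd3 0 true false false .pnn 2 1 3 (qsf 0 536870912 536870912 536870912 3) ndB0q2 ndB0q1 pcB3 cut_mm_213 Ext.none)

def k0_mm_213 : ∃ t, chk3 f_mm_213 t 1 1 1 = true :=
  ⟨(a (l 14) (l 4)), by decide +kernel⟩

theorem c_mm_213 : CertB 0 536870912 536870912 536870912 818728140 40265320 3 eng mog cd0q2 cd0q1 pd3 true false false .pnn 2 1 3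
    ndB0q2 ndB0q1 pcB3 cut_mm_213 Ext.none :=
  certB0 (fam := true) (s1 := false) (s2 := false) (a := 2) (b := 1) (c := 3) (cn := .pnn) (n1 := ndB0q2) (n2 := ndB0q1) (pc := pcB3) (cut := cut_mm_213) (xt := Ext.none) (P1 := 0) (W1 := 536870912) (P2 := 536870912) (W2 := 536870912) (P3 := 818728140) (W3 := 40265320) (N0 := 3) (En := eng) (mo := mog) (C1 := cd0q2) (C2 := cd0q1) (C3 := pd3)
    rfl k0_mm_213

end Pool.Agent.Strip051.G.I7625_8000.Tab.C.BA00

namespace Pool.Agent.Strip051.G.I7625_8000.Tab.C.BA01

open Pool.Agent.Strip051.PB Pool.Agent.Strip051.PB.T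
open Pool.Agent.Strip051.G.I7625_8000.Tab

noncomputable def f_pp_001 : ℕ → ℕ → ℕ → ℕ → Bool := onCell 0 536870912 0 536870912 818728140 40265320
    (rowB 3 eng mog cd0q0 cd1q0 pd1 0 true true true .up 0 0 1 (qsf 0 536870912 0 536870912 1) ndB0q0 ndB1q0 pcB1 Cut.none Ext.none)

def k0_pp_001 : ∃ t, chk3 f_pp_001 t 1 1 1 = true :=
  ⟨(l 4), by decide +kernel⟩

theorem c_pp_001 : CertB 0 536870912 0 536870912 818728140 40265320 3 eng mog cd0q0 cd1q0 pd1 true true true .up 0 0 1
    ndB0q0 ndB1q0 pcB1 Cut.none Ext.none :=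
  certB0 (fam := true) (s1 := true) (s2 := true) (a := 0) (b := 0) (c := 1) (cn := .up) (n1 := ndB0q0) (n2 := ndB1q0) (pc := pcB1) (cut := Cut.none) (xt := Ext.none) (P1 := 0) (W1 := 536870912) (P2 := 0) (W2 := 536870912) (P3 := 818728140) (W3 := 40265320) (N0 := 3) (En := eng) (mo := mog) (C1 := cd0q0) (C2 := cd1q0) (C3 := pd1)
    rfl k0_pp_001

noncomputable def f_pp_011 : ℕ → ℕ → ℕ → ℕ → Bool := onCell 0 536870912 536870912 536870912 818728140 40265320
    (rowB 3 eng mog cd0q0 cd1q1 pd1 0 true true true .pnn 0 1 1 (qsf 0 536870912 536870912 536870912 1) ndB0q0 ndB1q1 pcB1 Cut.none Ext.none)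

def k0_pp_011 : ∃ t, chk3 f_pp_011 t 1 1 1 = true :=
  ⟨(l 4), by decide +kernel⟩

theorem c_pp_011 : CertB 0 536870912 536870912 536870912 818728140 40265320 3 eng mog cd0q0 cd1q1 pd1 true true true .pnn 0 1 1
    ndB0q0 ndB1q1 pcB1 Cut.none Ext.none :=
  certB0 (fam := true) (s1 := true) (s2 := true) (a := 0) (b := 1) (c := 1) (cn := .pnn) (n1 := ndB0q0) (n2 := ndB1q1) (pc := pcB1) (cut := Cut.none) (xt := Ext.none) (P1 := 0) (W1 := 536870912) (P2 := 536870912) (W2 := 536870912) (P3 := 818728140) (W3 := 40265320) (N0 := 3) (En := eng) (mo := mog) (C1 := cd0q0) (C2 := cd1q1) (C3 := pd1)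
    rfl k0_pp_011

noncomputable def f_pp_012 : ℕ → ℕ → ℕ → ℕ → Bool := onCell 0 536870912 536870912 536870912 818728140 40265320
    (rowB 3 eng mog cd0q0 cd1q1 pd2 0 true true true .pnp 0 1 2 (qsf 0 536870912 536870912 536870912 2) ndB0q0 ndB1q1 pcB2 Cut.none Ext.none)

def k0_pp_012 : ∃ t, chk3 f_pp_012 t 1 1 1 = true :=
  ⟨(l 4), by decide +kernel⟩

theorem c_pp_012 : CertB 0 536870912 536870912 536870912 818728140 40265320 3 eng mog cd0q0 cd1q1 pd2 true true true .pnp 0 1 2
    ndB0q0 ndB1q1 pcB2 Cut.none Ext.none :=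
  certB0 (fam := true) (s1 := true) (s2 := true) (a := 0) (b := 1) (c := 2) (cn := .pnp) (n1 := ndB0q0) (n2 := ndB1q1) (pc := pcB2) (cut := Cut.none) (xt := Ext.none) (P1 := 0) (W1 := 536870912) (P2 := 536870912) (W2 := 536870912) (P3 := 818728140) (W3 := 40265320) (N0 := 3) (En := eng) (mo := mog) (C1 := cd0q0) (C2 := cd1q1) (C3 := pd2)
    rfl k0_pp_012

noncomputable def cut_pp_022_a : Cut := Cut.of [[⟨0, 0, 0, 67108864⟩, ⟨1, 1, 0, 67108864⟩, ⟨2, 1, 0, 67108864⟩]]

noncomputable def f_pp_022_a : ℕ → ℕ → ℕ → ℕ → Bool := onCell 0 536870912 0 536870912 818728140 40265320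
    (rowB 3 eng mog cd0q0 cd1q2a pd2 0 true true true .pp 0 2 2 (qsf 0 536870912 0 536870912 2) ndB0q0 ndB1q2a pcB2 cut_pp_022_a Ext.none)

def k0_pp_022_a : ∃ t, chk3 f_pp_022_a t 4 2 1 = true :=
  ⟨(a (b (a (b (a (l 16395576) (l 16410424)) (a (b (l 16412392) (l 16426832)) (l 16434984))) (a (b (l 16424856) (l 16449680)) (b (l 16438800) (l 16463800)))) (a (b (a (b (l 16443480) (l 16399288)) (b (l 16458984) (l 16478016))) (a (b (l 16482856) (l 16505224)) (b (l 16499048) (l 16521920)))) (b (a (l 16483888) (l 16498424)) (a (b (l 16514736) (l 16538088)) (b (l 16529800) (l 16553656)))))) (b (a (b (a (l 16452200) (l 16465368)) (a (l 16477256) (l 16490336))) (a (b (l 16478912) (l 16503768)) (b (l 16493280) (l 16518008)))) (a (b (a (l 16512176) (l 16525408)) (a (b (l 16544144) (l 16568504)) (b (l 16557664) (l 16582472)))) (a (b (l 16538680) (b (l 16571040) (l 16596208))) (b (b (l 16542624) (l 16562568)) (b (l 16564152) (l 16610304))))))), by decide +kernel⟩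

def k1_pp_022_a : ∃ t, chk3 f_pp_022_a t 4 6 1 = true :=
  ⟨(a (a (b (a (a (b (l 16524824) (l 16550008)) (b (l 16533504) (l 16558960))) (b (c (l 16550688) (l 16499856)) (c (l 16575792) (l 16568552)))) (a (a (b (l 16576360) (b (l 16575592) (l 16589368))) (b (l 16585568) (b (l 16606016) (l 16599000)))) (b (b (l 16592384) (a (l 16601512) (l 16610776))) (b (a (l 16615456) (l 16624880)) (a (l 16629592) (l 16639200)))))) (b (a (b (c (l 16566984) (l 16559040)) (c (l 16592936) (l 16586376))) (b (l 16579384) (c (l 16609360) (l 16603832)))) (b (b (a (l 16610440) (a (l 16623648) (l 16632288))) (a (a (l 16620000) (l 16629152)) (a (l 16638168) (l 16647056)))) (a (b (a (l 16634296) (l 16643656)) (a (l 16648784) (l 16658360))) (b (a (l 16652928) (l 16662072)) (a (l 16667864) (l 16677288))))))) (b (a (a (b (l 16594872) (b (l 16615664) (l 16630136))) (b (l 16609576) (a (l 16634288) (l 16640624)))) (b (a (l 16623768) (l 16648720)) (a (b (l 16644864) (l 16655984)) (a (l 16671640) (b (l 16662400) (l 16676136)))))) (a (b (a (a (b (l 16640104) (l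 16653536)) (l 16652680)) (b (l 16655232) (a (l 16665544) (l 16672048)))) (a (b (c (l 16669464) (l 16672880)) (a (l 16684240) (c (l 16689888) (l 16692032)))) (b (a (l 16680664) (l 16689008)) (a (c (l 16698504) (l 16700536)) (l 4))))) (b (a (b (a (l 16664968) (l 16672808)) (a (l 16680136) (l 4))) (b (a (l 4) (l 4)) (l 4))) (l 4))))), by decide +kernel⟩

def k2_pp_022_a : ∃ t, chk3 f_pp_022_a t 4 7 1 = true :=
  ⟨(a (b (a (b (a (a (b (b (l 16620704) (l 16627664)) (b (a (l 16633192) (l 16638168)) (a (l 16642960) (l 16647952)))) (b (b (l 16630480) (l 16637544)) (b (l 16624672) (l 16634472)))) (b (a (l 16617664) (l 16653680)) (a (b (l 16634616) (l 16644448)) (b (l 16644552) (l 16654400))))) (b (b (a (a (a (l 6) (l 16657928)) (a (l 16662928) (l 16667928))) (a (l 16654464) (l 16664440))) (a (a (l 6) (c (l 16654712) (l 16654568))) (a (b (l 16662072) (l 16667208)) (l 16695624)))) (a (b (a (l 6) (a (l 6) (l 16667472))) (l 6)) (a (b (a (l 16672496) (l 16677512)) (a (l 6) (c (l 16688064) (l 16688056)))) (b (l 16706016) (a (l 16714056) (l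 16719080))))))) (b (a (b (a (l 16663464) (l 16673224)) (a (b (l 16654464) (l 16664336)) (b (l 16685320) (l 16695224)))) (b (a (l 16682976) (l 16692632)) (a (b (l 16695192) (l 16704992)) (c (l 16719056) (l 16708296))))) (a (b (a (b (l 16695376) (l 16705616)) (b (l 16705320) (l 16715296))) (a (b (l 16713408) (a (l 16724080) (l 16728400))) (b (a (l 16722960) (l 16726424)) (l 4)))) (b (a (b (l 16714200) (l 16727304)) (l 4)) (l 4))))) (a (b (a (l 6) (b (a (l 6) (b (a (c (l 16724768) (l 16724808)) (b (l 16727104) (l 16732448))) (a (l 6) (b (l 16737432) (l 16742032))))) (l 6))) (l 6)) (b (a (b (a (b (a (c (l 16733952) (l 16733984)) (l 4)) (l 4)) (l 4)) (l 4)) (l 4)) (l 4)))) (b (a (b (a (b (a (b (l 16697528) (l 16704512)) (c (l 16707920) (l 16707168))) (l 4)) (l 4)) (l 4)) (l 4)) (l 4))), by decide +kernel⟩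

def k3_pp_022_a : ∃ t, chk3 f_pp_022_a t 5 1 1 = true :=
  ⟨(b (a (b (a (b (a (l 16508736) (l 16525560)) (a (l 16512352) (l 16508064))) (b (l 16573368) (a (l 16504776) (l 16543512)))) (a (a (b (l 16567944) (b (l 16558272) (l 16625408))) (b (l 16584440) (b (l 16616600) (l 16641528)))) (b (a (l 16622872) (l 16661376)) (a (b (l 16633904) (a (l 16653400) (l 16660432))) (b (l 16671040) (l 4)))))) (b (a (b (l 16587968) (a (l 16603136) (l 16620608))) (b (l 16622376) (a (l 16637752) (l 16675128)))) (b (a (a (b (l 16627000) (l 16645960)) (b (l 16644256) (l 16661160))) (b (a (l 16660128) (l 16674384)) (l 4))) (a (a (b (l 16664376) (l 4)) (l 4)) (l 4))))) (b (a (b (a (a (b (a (l 16649256) (l 16656304)) (a (l 16686216) (l 4))) (b (b (l 16660240) (l 4)) (l 4))) (l 4)) (l 4)) (l 4)) (l 4))), by decide +kernel⟩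

def k4_pp_022_a : ∃ t, chk3 f_pp_022_a t 3 1 1 = true :=
  ⟨(b (b (a (a (a (b (l 16674992) (a (l 23320191415) (b (l 16677264) (l 4)))) (b (a (l 16674768) (l 32983883351)) (a (b (l 16689600) (l 4)) (l 4)))) (b (a (b (a (l 16695472) (l 16715328)) (l 4)) (l 4)) (l 4))) (l 2)) (l 4)) (l 4)), by decide +kernel⟩

theorem s5_pp_022_a : ∃ t, chk3 f_pp_022_a t 4 3 1 = true := ex3_b k1_pp_022_a k2_pp_022_a

theorem s6_pp_022_a : ∃ t, chk3 f_pp_022_a t 4 1 1 = true := ex3_b k0_pp_022_a s5_pp_022_a

theorem s7_pp_022_a : ∃ t, chk3 f_pp_022_a t 2 1 1 = true := ex3_a s6_pp_022_a k3_pp_022_a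

theorem s8_pp_022_a : ∃ t, chk3 f_pp_022_a t 1 1 1 = true := ex3_a s7_pp_022_a k4_pp_022_a

theorem c_pp_022_a : CertB 0 536870912 0 536870912 818728140 40265320 3 eng mog cd0q0 cd1q2a pd2 true true true .pp 0 2 2
    ndB0q0 ndB1q2a pcB2 cut_pp_022_a Ext.none :=
  certB0 (fam := true) (s1 := true) (s2 := true) (a := 0) (b := 2) (c := 2) (cn := .pp) (n1 := ndB0q0) (n2 := ndB1q2a) (pc := pcB2) (cut := cut_pp_022_a) (xt := Ext.none) (P1 := 0) (W1 := 536870912) (P2 := 0) (W2 := 536870912) (P3 := 818728140) (W3 := 40265320) (N0 := 3) (En := eng) (mo := mog) (C1 := cd0q0) (C2 := cd1q2a) (C3 := pd2)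
    rfl s8_pp_022_a

noncomputable def cut_pp_022_b : Cut := Cut.of [[⟨0, 0, 0, 67108864⟩, ⟨1, 1, 0, 67108864⟩, ⟨2, 1, 0, 67108864⟩]]

noncomputable def f_pp_022_b : ℕ → ℕ → ℕ → ℕ → Bool := onCell 1073741824 536870912 1239849684 370763052 818728140 40265320
    (rowB 3 eng mog cd0q0 cd1q2b pd2 2 true true true .pp 0 2 2 (qsf 0 536870912 1239849684 370763052 2) ndB0q0 ndB1q2b pcB2 cut_pp_022_b Ext.none)

def k0_pp_022_b : ∃ t, chk3 f_pp_022_b t 2 1 1 = true :=
  ⟨(b (a (l 1) (b (b (a (a (a (l 1) (b (l 16336176) (l 1))) (b (a (l 16351592) (l 16366744)) (a (l 1) (l 16294160)))) (a (b (a (l 16381520) (l 16395808)) (a (l 16309904) (l 16325152))) (b (a (l 16409648) (l 16423248)) (l 16326352)))) (a (l 1) (a (b (a (l 16236912) (l 16253128)) (l 1)) (b (l 16276744) (l 16204816))))) (a (l 1) (b (a (l 1) (l 16157152)) (l 1))))) (l 1)), by decide +kernel⟩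

def k1_pp_022_b : ∃ t, chk3 f_pp_022_b t 3 1 1 = true :=
  ⟨(a (b (b (a (a (b (b (a (l 16437056) (l 16451280)) (a (l 16368888) (l 16383408))) (b (l 16307168) (l 16237392))) (b (b (a (l 16466544) (l 16483280)) (l 16468888)) (b (l 16338056) (l 16269600)))) (b (a (a (b (l 16500864) (l 16431432)) (b (l 16519432) (l 16449440))) (b (l 16589048) (a (l 16468600) (l 16488584)))) (a (b (l 16370752) (l 16302696)) (b (a (l 16398768) (l 16418856)) (l 16339456))))) (a (b (a (b (l 16166056) (l 16093408)) (l 16164912)) (a (l 1) (l 16020912))) (b (a (l 16262752) (l 16299056)) (a (l 16059848) (l 16098712))))) (b (a (l 1) (a (l 15965624) (l 16052520))) (l 1))) (b (b (a (b (b (a (a (l 16511368) (l 16591912)) (l 16616784)) (a (a (l 16508216) (l 16527680)) (l 16555664))) (a (b (l 16387456) (l 16380536)) (l 16552584))) (b (a (a (l 16673296) (l 16709288)) (b (a (l 16666336) (l 16700120)) (l 16618912))) (a (b (l 16529576) (l 16403536)) (l 16595520)))) (b (a (a (b (l 16310760) (l 16241208)) (b (l 16355096) (l 16285464))) (a (b (l 16400576) (l 16332440))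 (b (l 16419944) (l 16375768)))) (a (a (l 16138976) (b (l 16216368) (l 16147416))) (a (b (l 16262368) (l 16192656)) (b (l 16308344) (l 16238592)))))) (a (b (b (a (l 16001248) (l 16044944)) (l 16008432)) (a (l 1) (l 15689616))) (b (a (b (l 16089552) (l 15953208)) (b (l 16134528) (l 15998240))) (a (l 15742432) (l 15897848)))))), by decide +kernel⟩

theorem s2_pp_022_b : ∃ t, chk3 f_pp_022_b t 1 1 1 = true := ex3_a k0_pp_022_b k1_pp_022_b

theorem c_pp_022_b : CertB 0 536870912 1239849684 370763052 818728140 40265320 3 eng mog cd0q0 cd1q2b pd2 true true true .pp 0 2 2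
    ndB0q0 ndB1q2b pcB2 cut_pp_022_b Ext.none :=
  certB2 (fam := true) (s1 := true) (s2 := true) (a := 0) (b := 2) (c := 2) (cn := .pp) (n1 := ndB0q0) (n2 := ndB1q2b) (pc := pcB2) (cut := cut_pp_022_b) (xt := Ext.none) (P1 := 0) (W1 := 536870912) (P2 := 1239849684) (W2 := 370763052) (P3 := 818728140) (W3 := 40265320) (N0 := 3) (En := eng) (mo := mog) (C1 := cd0q0) (C2 := cd1q2b) (C3 := pd2)
    rfl (fun _ => rfl) s2_pp_022_b

noncomputable def f_pp_023_a : ℕ → ℕ → ℕ → ℕ → Bool := onCell 1610612736 536870912 0 536870912 818728140 40265320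
    (rowB 3 eng mog cd0q0 cd1q2a pd3 2 true true true .up 0 2 3 (qsf 0 536870912 0 536870912 3) ndB0q0 ndB1q2a pcB3 Cut.none Ext.none)

def k0_pp_023_a : ∃ t, chk3 f_pp_023_a t 1 1 1 = true :=
  ⟨(a (a (b (l 4) (l 4)) (l 4)) (l 2)), by decide +kernel⟩

theorem c_pp_023_a : CertB 0 536870912 0 536870912 818728140 40265320 3 eng mog cd0q0 cd1q2a pd3 true true true .up 0 2 3
    ndB0q0 ndB1q2a pcB3 Cut.none Ext.none :=
  certB2 (fam := true) (s1 := true) (s2 := true) (a := 0) (b := 2) (c := 3) (cn := .up) (n1 := ndB0q0) (n2 := ndB1q2a) (pc := pcB3) (cut := Cut.none) (xt := Ext.none) (P1 := 0) (W1 := 536870912) (P2 := 0) (W2 := 536870912) (P3 := 818728140) (W3 := 40265320) (N0 := 3) (En := eng) (mo := mog) (C1 := cd0q0) (C2 := cd1q2a) (C3 := pd3)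
    rfl (fun _ => rfl) k0_pp_023_a

noncomputable def f_pp_023_b : ℕ → ℕ → ℕ → ℕ → Bool := onCell 1610612736 536870912 1239849684 370763052 818728140 40265320
    (rowB 3 eng mog cd0q0 cd1q2b pd3 2 true true true .up 0 2 3 (qsf 0 536870912 1239849684 370763052 3) ndB0q0 ndB1q2b pcB3 Cut.none Ext.none)

def k0_pp_023_b : ∃ t, chk3 f_pp_023_b t 1 1 1 = true :=
  ⟨(a (b (a (a (b (l 4) (l 4)) (l 4)) (l 4)) (l 4)) (l 4)), by decide +kernel⟩

theorem c_pp_023_b : CertB 0 536870912 1239849684 370763052 818728140 40265320 3 eng mog cd0q0 cd1q2b pd3 true true true .up 0 2 3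
    ndB0q0 ndB1q2b pcB3 Cut.none Ext.none :=
  certB2 (fam := true) (s1 := true) (s2 := true) (a := 0) (b := 2) (c := 3) (cn := .up) (n1 := ndB0q0) (n2 := ndB1q2b) (pc := pcB3) (cut := Cut.none) (xt := Ext.none) (P1 := 0) (W1 := 536870912) (P2 := 1239849684) (W2 := 370763052) (P3 := 818728140) (W3 := 40265320) (N0 := 3) (En := eng) (mo := mog) (C1 := cd0q0) (C2 := cd1q2b) (C3 := pd3)
    rfl (fun _ => rfl) k0_pp_023_b

noncomputable def f_pp_033 : ℕ → ℕ → ℕ → ℕ → Bool := onCell 0 536870912 1610612736 536870912 818728140 40265320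
    (rowB 3 eng mog cd0q0 cd1q3 pd3 1 true true true .pnn 0 3 3 (qsf 0 536870912 1610612736 536870912 3) ndB0q0 ndB1q3 pcB3 Cut.none Ext.none)

def k0_pp_033 : ∃ t, chk3 f_pp_033 t 1 1 1 = true :=
  ⟨(b (b (a (l 4) (l 1)) (l 4)) (l 4)), by decide +kernel⟩

theorem c_pp_033 : CertB 0 536870912 1610612736 536870912 818728140 40265320 3 eng mog cd0q0 cd1q3 pd3 true true true .pnn 0 3 3
    ndB0q0 ndB1q3 pcB3 Cut.none Ext.none :=
  certB1 (fam := true) (s1 := true) (s2 := true) (a := 0) (b := 3) (c := 3) (cn := .pnn) (n1 := ndB0q0) (n2 := ndB1q3) (pc := pcB3) (cut := Cut.none) (xt := Ext.none) (P1 := 0) (W1 := 536870912) (P2 := 1610612736) (W2 := 536870912) (P3 := 818728140) (W3 := 40265320) (N0 := 3) (En := eng) (mo := mog) (C1 := cd0q0) (C2 := cd1q3) (C3 := pd3)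
    rfl (fun _ => rfl) k0_pp_033

noncomputable def f_pp_101 : ℕ → ℕ → ℕ → ℕ → Bool := onCell 536870912 536870912 0 536870912 818728140 40265320
    (rowB 3 eng mog cd0q1 cd1q0 pd1 0 true true true .npn 1 0 1 (qsf 536870912 536870912 0 536870912 1) ndB0q1 ndB1q0 pcB1 Cut.none Ext.none)

def k0_pp_101 : ∃ t, chk3 f_pp_101 t 1 1 1 = true :=
  ⟨(l 5), by decide +kernel⟩

theorem c_pp_101 : CertB 536870912 536870912 0 536870912 818728140 40265320 3 eng mog cd0q1 cd1q0 pd1 true true true .npn 1 0 1
    ndB0q1 ndB1q0 pcB1 Cut.none Ext.none :=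
  certB0 (fam := true) (s1 := true) (s2 := true) (a := 1) (b := 0) (c := 1) (cn := .npn) (n1 := ndB0q1) (n2 := ndB1q0) (pc := pcB1) (cut := Cut.none) (xt := Ext.none) (P1 := 536870912) (W1 := 536870912) (P2 := 0) (W2 := 536870912) (P3 := 818728140) (W3 := 40265320) (N0 := 3) (En := eng) (mo := mog) (C1 := cd0q1) (C2 := cd1q0) (C3 := pd1)
    rfl k0_pp_101

noncomputable def f_pp_102 : ℕ → ℕ → ℕ → ℕ → Bool := onCell 536870912 536870912 0 536870912 818728140 40265320
    (rowB 3 eng mog cd0q1 cd1q0 pd2 0 true true true .npp 1 0 2 (qsf 536870912 536870912 0 536870912 2) ndB0q1 ndB1q0 pcB2 Cut.none Ext.none)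

def k0_pp_102 : ∃ t, chk3 f_pp_102 t 1 1 1 = true :=
  ⟨(l 5), by decide +kernel⟩

theorem c_pp_102 : CertB 536870912 536870912 0 536870912 818728140 40265320 3 eng mog cd0q1 cd1q0 pd2 true true true .npp 1 0 2
    ndB0q1 ndB1q0 pcB2 Cut.none Ext.none :=
  certB0 (fam := true) (s1 := true) (s2 := true) (a := 1) (b := 0) (c := 2) (cn := .npp) (n1 := ndB0q1) (n2 := ndB1q0) (pc := pcB2) (cut := Cut.none) (xt := Ext.none) (P1 := 536870912) (W1 := 536870912) (P2 := 0) (W2 := 536870912) (P3 := 818728140) (W3 := 40265320) (N0 := 3) (En := eng) (mo := mog) (C1 := cd0q1) (C2 := cd1q0) (C3 := pd2)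
    rfl k0_pp_102

noncomputable def f_pp_112 : ℕ → ℕ → ℕ → ℕ → Bool := onCell 536870912 536870912 536870912 536870912 818728140 40265320
    (rowB 3 eng mog cd0q1 cd1q1 pd2 0 true true true .dn 1 1 2 (qsf 536870912 536870912 536870912 536870912 2) ndB0q1 ndB1q1 pcB2 Cut.none Ext.none)

def k0_pp_112 : ∃ t, chk3 f_pp_112 t 1 1 1 = true :=
  ⟨(l 4), by decide +kernel⟩

theorem c_pp_112 : CertB 536870912 536870912 536870912 536870912 818728140 40265320 3 eng mog cd0q1 cd1q1 pd2 true true true .dn 1 1 2
    ndB0q1 ndB1q1 pcB2 Cut.none Ext.none :=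
  certB0 (fam := true) (s1 := true) (s2 := true) (a := 1) (b := 1) (c := 2) (cn := .dn) (n1 := ndB0q1) (n2 := ndB1q1) (pc := pcB2) (cut := Cut.none) (xt := Ext.none) (P1 := 536870912) (W1 := 536870912) (P2 := 536870912) (W2 := 536870912) (P3 := 818728140) (W3 := 40265320) (N0 := 3) (En := eng) (mo := mog) (C1 := cd0q1) (C2 := cd1q1) (C3 := pd2)
    rfl k0_pp_112

noncomputable def f_pp_113 : ℕ → ℕ → ℕ → ℕ → Bool := onCell 536870912 536870912 536870912 536870912 818728140 40265320
    (rowB 3 eng mog cd0q1 cd1q1 pd3 0 true true true .nn 1 1 3 (qsf 536870912 536870912 536870912 536870912 3) ndB0q1 ndB1q1 pcB3 Cut.none Ext.none)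

def k0_pp_113 : ∃ t, chk3 f_pp_113 t 1 1 1 = true :=
  ⟨(l 4), by decide +kernel⟩

theorem c_pp_113 : CertB 536870912 536870912 536870912 536870912 818728140 40265320 3 eng mog cd0q1 cd1q1 pd3 true true true .nn 1 1 3
    ndB0q1 ndB1q1 pcB3 Cut.none Ext.none :=
  certB0 (fam := true) (s1 := true) (s2 := true) (a := 1) (b := 1) (c := 3) (cn := .nn) (n1 := ndB0q1) (n2 := ndB1q1) (pc := pcB3) (cut := Cut.none) (xt := Ext.none) (P1 := 536870912) (W1 := 536870912) (P2 := 536870912) (W2 := 536870912) (P3 := 818728140) (W3 := 40265320) (N0 := 3) (En := eng) (mo := mog) (C1 := cd0q1) (C2 := cd1q1) (C3 := pd3)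
    rfl k0_pp_113

noncomputable def f_pp_123_a : ℕ → ℕ → ℕ → ℕ → Bool := onCell 536870912 536870912 0 536870912 818728140 40265320
    (rowB 3 eng mog cd0q1 cd1q2a pd3 0 true true true .npn 1 2 3 (qsf 536870912 536870912 0 536870912 3) ndB0q1 ndB1q2a pcB3 Cut.none Ext.none)

def k0_pp_123_a : ∃ t, chk3 f_pp_123_a t 1 1 1 = true :=
  ⟨(l 4), by decide +kernel⟩

theorem c_pp_123_a : CertB 536870912 536870912 0 536870912 818728140 40265320 3 eng mog cd0q1 cd1q2a pd3 true true true .npn 1 2 3
    ndB0q1 ndB1q2a pcB3 Cut.none Ext.none :=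
  certB0 (fam := true) (s1 := true) (s2 := true) (a := 1) (b := 2) (c := 3) (cn := .npn) (n1 := ndB0q1) (n2 := ndB1q2a) (pc := pcB3) (cut := Cut.none) (xt := Ext.none) (P1 := 536870912) (W1 := 536870912) (P2 := 0) (W2 := 536870912) (P3 := 818728140) (W3 := 40265320) (N0 := 3) (En := eng) (mo := mog) (C1 := cd0q1) (C2 := cd1q2a) (C3 := pd3)
    rfl k0_pp_123_a

noncomputable def f_pp_123_b : ℕ → ℕ → ℕ → ℕ → Bool := onCell 536870912 536870912 1239849684 370763052 818728140 40265320
    (rowB 3 eng mog cd0q1 cd1q2b pd3 0 true true true .npn 1 2 3 (qsf 536870912 536870912 1239849684 370763052 3) ndB0q1 ndB1q2b pcB3 Cut.none Ext.none)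

def k0_pp_123_b : ∃ t, chk3 f_pp_123_b t 1 1 1 = true :=
  ⟨(a (l 4) (l 4)), by decide +kernel⟩

theorem c_pp_123_b : CertB 536870912 536870912 1239849684 370763052 818728140 40265320 3 eng mog cd0q1 cd1q2b pd3 true true true .npn 1 2 3
    ndB0q1 ndB1q2b pcB3 Cut.none Ext.none :=
  certB0 (fam := true) (s1 := true) (s2 := true) (a := 1) (b := 2) (c := 3) (cn := .npn) (n1 := ndB0q1) (n2 := ndB1q2b) (pc := pcB3) (cut := Cut.none) (xt := Ext.none) (P1 := 536870912) (W1 := 536870912) (P2 := 1239849684) (W2 := 370763052) (P3 := 818728140) (W3 := 40265320) (N0 := 3) (En := eng) (mo := mog) (C1 := cd0q1) (C2 := cd1q2b) (C3 := pd3)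
    rfl k0_pp_123_b

noncomputable def f_pp_133 : ℕ → ℕ → ℕ → ℕ → Bool := onCell 536870912 536870912 1610612736 536870912 818728140 40265320
    (rowB 3 eng mog cd0q1 cd1q3 pd3 0 true true true .dn 1 3 3 (qsf 536870912 536870912 1610612736 536870912 3) ndB0q1 ndB1q3 pcB3 Cut.none Ext.none)

def k0_pp_133 : ∃ t, chk3 f_pp_133 t 1 1 1 = true :=
  ⟨(l 4), by decide +kernel⟩

theorem c_pp_133 : CertB 536870912 536870912 1610612736 536870912 818728140 40265320 3 eng mog cd0q1 cd1q3 pd3 true true true .dn 1 3 3
    ndB0q1 ndB1q3 pcB3 Cut.none Ext.none :=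
  certB0 (fam := true) (s1 := true) (s2 := true) (a := 1) (b := 3) (c := 3) (cn := .dn) (n1 := ndB0q1) (n2 := ndB1q3) (pc := pcB3) (cut := Cut.none) (xt := Ext.none) (P1 := 536870912) (W1 := 536870912) (P2 := 1610612736) (W2 := 536870912) (P3 := 818728140) (W3 := 40265320) (N0 := 3) (En := eng) (mo := mog) (C1 := cd0q1) (C2 := cd1q3) (C3 := pd3)
    rfl k0_pp_133

noncomputable def f_pp_202 : ℕ → ℕ → ℕ → ℕ → Bool := onCell 0 536870912 0 536870912 818728140 40265320
    (rowB 3 eng mog cd0q2 cd1q0 pd2 0 true true true .pp 2 0 2 (qsf 0 536870912 0 536870912 2) ndB0q2 ndB1q0 pcB2 Cut.none Ext.none)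

def k0_pp_202 : ∃ t, chk3 f_pp_202 t 1 1 1 = true :=
  ⟨(l 5), by decide +kernel⟩

theorem c_pp_202 : CertB 0 536870912 0 536870912 818728140 40265320 3 eng mog cd0q2 cd1q0 pd2 true true true .pp 2 0 2
    ndB0q2 ndB1q0 pcB2 Cut.none Ext.none :=
  certB0 (fam := true) (s1 := true) (s2 := true) (a := 2) (b := 0) (c := 2) (cn := .pp) (n1 := ndB0q2) (n2 := ndB1q0) (pc := pcB2) (cut := Cut.none) (xt := Ext.none) (P1 := 0) (W1 := 536870912) (P2 := 0) (W2 := 536870912) (P3 := 818728140) (W3 := 40265320) (N0 := 3) (En := eng) (mo := mog) (C1 := cd0q2) (C2 := cd1q0) (C3 := pd2)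
    rfl k0_pp_202

noncomputable def f_pp_203 : ℕ → ℕ → ℕ → ℕ → Bool := onCell 0 536870912 0 536870912 818728140 40265320
    (rowB 3 eng mog cd0q2 cd1q0 pd3 0 true true true .up 2 0 3 (qsf 0 536870912 0 536870912 3) ndB0q2 ndB1q0 pcB3 Cut.none Ext.none)

def k0_pp_203 : ∃ t, chk3 f_pp_203 t 1 1 1 = true :=
  ⟨(l 5), by decide +kernel⟩

theorem c_pp_203 : CertB 0 536870912 0 536870912 818728140 40265320 3 eng mog cd0q2 cd1q0 pd3 true true true .up 2 0 3
    ndB0q2 ndB1q0 pcB3 Cut.none Ext.none :=
  certB0 (fam := true) (s1 := true) (s2 := true) (a := 2) (b := 0) (c := 3) (cn := .up) (n1 := ndB0q2) (n2 := ndB1q0) (pc := pcB3) (cut := Cut.none) (xt := Ext.none) (P1 := 0) (W1 := 536870912) (P2 := 0) (W2 := 536870912) (P3 := 818728140) (W3 := 40265320) (N0 := 3) (En := eng) (mo := mog) (C1 := cd0q2) (C2 := cd1q0) (C3 := pd3)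
    rfl k0_pp_203

noncomputable def f_pp_213 : ℕ → ℕ → ℕ → ℕ → Bool := onCell 0 536870912 536870912 536870912 818728140 40265320
    (rowB 3 eng mog cd0q2 cd1q1 pd3 0 true true true .pnn 2 1 3 (qsf 0 536870912 536870912 536870912 3) ndB0q2 ndB1q1 pcB3 Cut.none Ext.none)

def k0_pp_213 : ∃ t, chk3 f_pp_213 t 1 1 1 = true :=
  ⟨(l 4), by decide +kernel⟩

theorem c_pp_213 : CertB 0 536870912 536870912 536870912 818728140 40265320 3 eng mog cd0q2 cd1q1 pd3 true true true .pnn 2 1 3
    ndB0q2 ndB1q1 pcB3 Cut.none Ext.none :=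
  certB0 (fam := true) (s1 := true) (s2 := true) (a := 2) (b := 1) (c := 3) (cn := .pnn) (n1 := ndB0q2) (n2 := ndB1q1) (pc := pcB3) (cut := Cut.none) (xt := Ext.none) (P1 := 0) (W1 := 536870912) (P2 := 536870912) (W2 := 536870912) (P3 := 818728140) (W3 := 40265320) (N0 := 3) (En := eng) (mo := mog) (C1 := cd0q2) (C2 := cd1q1) (C3 := pd3)
    rfl k0_pp_213

noncomputable def f_pm_001 : ℕ → ℕ → ℕ → ℕ → Bool := onCell 0 536870912 0 536870912 818728140 40265320
    (rowB 3 eng mog cd0q0 cd1q0 pd1 0 true true false .up 0 0 1 (qsf 0 536870912 0 536870912 1) ndB0q0 ndB1q0 pcB1 Cut.none Ext.none)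

def k0_pm_001 : ∃ t, chk3 f_pm_001 t 1 1 1 = true :=
  ⟨(l 3), by decide +kernel⟩

theorem c_pm_001 : CertB 0 536870912 0 536870912 818728140 40265320 3 eng mog cd0q0 cd1q0 pd1 true true false .up 0 0 1
    ndB0q0 ndB1q0 pcB1 Cut.none Ext.none :=
  certB0 (fam := true) (s1 := true) (s2 := false) (a := 0) (b := 0) (c := 1) (cn := .up) (n1 := ndB0q0) (n2 := ndB1q0) (pc := pcB1) (cut := Cut.none) (xt := Ext.none) (P1 := 0) (W1 := 536870912) (P2 := 0) (W2 := 536870912) (P3 := 818728140) (W3 := 40265320) (N0 := 3) (En := eng) (mo := mog) (C1 := cd0q0) (C2 := cd1q0) (C3 := pd1)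
    rfl k0_pm_001

noncomputable def f_pm_011 : ℕ → ℕ → ℕ → ℕ → Bool := onCell 0 536870912 536870912 536870912 818728140 40265320
    (rowB 3 eng mog cd0q0 cd1q1 pd1 1 true true false .pnn 0 1 1 (qsf 0 536870912 536870912 536870912 1) ndB0q0 ndB1q1 pcB1 Cut.none Ext.none)

def k0_pm_011 : ∃ t, chk3 f_pm_011 t 1 1 1 = true :=
  ⟨(l 3), by decide +kernel⟩

theorem c_pm_011 : CertB 0 536870912 536870912 536870912 818728140 40265320 3 eng mog cd0q0 cd1q1 pd1 true true false .pnn 0 1 1
    ndB0q0 ndB1q1 pcB1 Cut.none Ext.none :=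
  certB1 (fam := true) (s1 := true) (s2 := false) (a := 0) (b := 1) (c := 1) (cn := .pnn) (n1 := ndB0q0) (n2 := ndB1q1) (pc := pcB1) (cut := Cut.none) (xt := Ext.none) (P1 := 0) (W1 := 536870912) (P2 := 536870912) (W2 := 536870912) (P3 := 818728140) (W3 := 40265320) (N0 := 3) (En := eng) (mo := mog) (C1 := cd0q0) (C2 := cd1q1) (C3 := pd1)
    rfl (fun _ => rfl) k0_pm_011

noncomputable def f_pm_012 : ℕ → ℕ → ℕ → ℕ → Bool := onCell 0 536870912 1073741824 536870912 818728140 40265320
    (rowB 3 eng mog cd0q0 cd1q1 pd2 1 true true false .pnp 0 1 2 (qsf 0 536870912 536870912 536870912 2) ndB0q0 ndB1q1 pcB2 Cut.none Ext.none)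

def k0_pm_012 : ∃ t, chk3 f_pm_012 t 1 4 1 = true :=
  ⟨(a (b (l 3) (a (b (l 3) (a (l 2) (l 3))) (l 3))) (l 3)), by decide +kernel⟩

def k1_pm_012 : ∃ t, chk3 f_pm_012 t 2 5 1 = true :=
  ⟨(b (b (b (a (a (l 2) (a (l 2) (l 3))) (l 3)) (a (l 2) (b (a (a (b (l 3) (a (l 2) (l 3))) (l 3)) (l 3)) (b (a (a (a (l 2) (b (l 16509152) (l 16503104))) (b (l 3) (a (l 16523368) (l 16537216)))) (l 3)) (a (b (b (a (a (l 2) (l 16485288)) (a (l 16521352) (l 16535280))) (a (a (l 2) (l 16505176)) (a (l 16520344) (l 16534344)))) (a (a (l 2) (l 16503520)) (a (l 16518792) (l 16532864)))) (b (b (a (a (l 16547904) (l 3)) (l 3)) (a (a (l 16547024) (l 16558320)) (l 16567152))) (a (a (l 16545624) (l 16556992)) (c (l 16567384) (l 16560176))))))))) (a (l 2) (b (a (a (a (l 2) (l 16493336)) (a (b (l 16513512) (l 16504696)) (l 16523744))) (a (a (l 16536944) (l 16548704)) (c (l 16569616) (l 16540520)))) (a (a (l 2) (a (l 16490696) (l 16506168))) (a (l 16520664) (l 16510616)))))) (a (l 2) (a (a (l 2) (b (a (l 2) (l 16476872)) (l 2))) (a (b (a (l 16474632) (l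 16467704)) (l 16452216)) (b (l 16502296) (b (l 16411424) (l 16380432))))))), by decide +kernel⟩

def k2_pm_012 : ∃ t, chk3 f_pm_012 t 3 5 1 = true :=
  ⟨(b (b (b (a (l 3) (a (l 3) (b (l 3) (a (a (l 3) (l 16530032)) (b (l 16541912) (l 16538888)))))) (a (b (l 3) (b (a (l 3) (a (l 307257412503) (l 154249204423))) (a (b (a (l 3) (l 168744839031)) (a (l 16557544) (l 16554736))) (b (a (a (l 16515328) (l 16535328)) (c (l 16536320) (l 16531208))) (a (l 16553144) (l 16551256)))))) (b (a (a (b (l 3) (l 16541720)) (b (l 16560664) (l 16556536))) (a (b (l 16549144) (l 16546160)) (b (l 16536368) (l 16534208)))) (b (a (a (b (l 16558464) (l 16555448)) (l 16531184)) (a (b (l 16543664) (l 16541536)) (l 16531416))) (a (b (a (l 16510328) (l 16589944)) (a (l 16549032) (l 16545040))) (b (a (l 16580976) (l 16528224)) (a (l 16536360) (l 16525856)))))))) (a (a (a (a (l 16562368) (b (l 16537936) (l 16504664))) (b (l 16557744) (l 16504376))) (a (l 16541784) (l 16520912))) (a (a (l 16520928) (l 16519320)) (a (l 16513048) (l 16505040))))) (a (a (a (b (l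 16518216) (l 16389752)) (b (a (l 16454960) (l 16455864)) (l 16390040))) (a (b (l 16457920) (l 16393904)) (l 16472672))) (a (a (b (l 16464840) (l 16406016)) (l 16440256)) (a (l 16440384) (l 16439184))))), by decide +kernel⟩

def k3_pm_012 : ∃ t, chk3 f_pm_012 t 1 3 1 = true :=
  ⟨(a (a (l 2) (b (b (a (l 2) (a (l 2) (b (l 16337720) (l 2)))) (l 2)) (l 2))) (a (b (a (b (a (b (l 16327648) (l 16271792)) (b (l 16326344) (l 16266320))) (a (l 2) (b (l 16212720) (l 2)))) (b (a (l 16299592) (l 16306176)) (a (l 16185128) (l 16187088)))) (b (a (l 2) (a (l 2) (l 16091152))) (l 2))) (b (a (b (a (l 16315512) (l 16325544)) (a (l 16195624) (l 16207736))) (b (a (l 16332864) (l 16339848)) (a (l 16219752) (l 16233256)))) (a (b (a (l 16088712) (l 16096256)) (a (l 2) (l 16007816))) (a (a (l 16120456) (l 16063096)) (l 16286488)))))), by decide +kernel⟩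

theorem s4_pm_012 : ∃ t, chk3 f_pm_012 t 1 5 1 = true := ex3_a k1_pm_012 k2_pm_012

theorem s5_pm_012 : ∃ t, chk3 f_pm_012 t 1 2 1 = true := ex3_b k0_pm_012 s4_pm_012

theorem s6_pm_012 : ∃ t, chk3 f_pm_012 t 1 1 1 = true := ex3_b s5_pm_012 k3_pm_012

theorem c_pm_012 : CertB 0 536870912 536870912 536870912 818728140 40265320 3 eng mog cd0q0 cd1q1 pd2 true true false .pnp 0 1 2
    ndB0q0 ndB1q1 pcB2 Cut.none Ext.none :=
  certB1 (fam := true) (s1 := true) (s2 := false) (a := 0) (b := 1) (c := 2) (cn := .pnp) (n1 := ndB0q0) (n2 := ndB1q1) (pc := pcB2) (cut := Cut.none) (xt := Ext.none) (P1 := 0) (W1 := 536870912) (P2 := 536870912) (W2 := 536870912) (P3 := 818728140) (W3 := 40265320) (N0 := 3) (En := eng) (mo := mog) (C1 := cd0q0) (C2 := cd1q1) (C3 := pd2)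
    rfl (fun _ => rfl) s6_pm_012

noncomputable def cut_pm_022_a : Cut := Cut.of [[⟨0, 0, 0, 67108864⟩, ⟨1, 1, 0, 67108864⟩, ⟨2, 1, 0, 67108864⟩]]

noncomputable def f_pm_022_a : ℕ → ℕ → ℕ → ℕ → Bool := onCell 1073741824 536870912 0 536870912 818728140 40265320
    (rowB 3 eng mog cd0q0 cd1q2a pd2 2 true true false .pp 0 2 2 (qsf 0 536870912 0 536870912 2) ndB0q0 ndB1q2a pcB2 cut_pm_022_a Ext.none)

def k0_pm_022_a : ∃ t, chk3 f_pm_022_a t 8 1 1 = true :=
  ⟨(b (l 1) (b (l 1) (b (a (l 1) (b (a (l 1) (b (l 1) (a (l 1) (b (a (l 1) (c (b (l 16558656) (l 16564904)) (l 16543792))) (a (l 6) (c (b (l 16571152) (l 16577440)) (l 16557584))))))) (a (l 6) (a (l 6) (a (l 6) (b (b (c (l 16586960) (l 16571552)) (l 16613880)) (b (l 16606552) (l 16620344)))))))) (a (l 6) (a (l 6) (a (l 6) (a (l 6) (a (l 6) (b (b (l 16640984) (l 16627376)) (b (l 16698080) (b (l 16694480) (b (l 16689224) (l 16685552))))))))))))), by decide +kernel⟩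

def k1_pm_022_a : ∃ t, chk3 f_pm_022_a t 9 2 1 = true :=
  ⟨(b (l 1) (a (l 1) (b (l 1) (a (l 1) (b (l 1) (a (l 1) (b (l 16326832) (c (l 16331504) (l 16311216))))))))), by decide +kernel⟩

def k2_pm_022_a : ∃ t, chk3 f_pm_022_a t 9 6 1 = true :=
  ⟨(a (b (l 1) (a (a (l 1) (b (l 1) (c (b (b (l 1) (a (l 1) (l 16484144))) (b (a (l 16499120) (l 16497656)) (a (l 16513088) (l 16511448)))) (b (l 16490280) (b (l 16479960) (l 97743512263)))))) (b (b (a (l 1) (c (b (l 1) (l 16431112)) (l 16406088))) (a (c (b (l 1) (l 16477608)) (l 16452160)) (c (b (l 70899862695) (a (l 16455448) (l 16454720))) (b (l 16424552) (l 16437264))))) (b (a (c (b (a (l 16469856) (l 16468864)) (a (l 16482920) (l 16481768))) (b (l 16450968) (l 16464560))) (c (b (l 16467472) (l 16480136)) (l 16456928))) (a (c (b (a (l 16496264) (l 16494936)) (l 16509112)) (b (l 16478440) (l 16492592))) (c (l 16499664) (l 16484048))))))) (b (a (b (a (l 1) (b (l 1) (c (l 16363072) (l 16342592)))) (a (b (l 1) (c (a (l 16402720) (l 16402704)) (l 16383368))) (b (c (a (l 16382208) (l 16382488))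 (l 16362912)) (c (a (l 16402720) (l 16402776)) (l 16384408))))) (b (a (b (c (l 16346336) (l 16325920)) (c (l 88616442055) (l 16344648))) (b (c (l 16347752) (l 16328424)) (l 16356008))) (a (b (c (l 16382912) (l 16364552)) (c (l 16402848) (l 16385608))) (b (l 16374984) (l 16395048))))) (a (b (b (a (c (b (l 106870165655) (l 16430336)) (l 101501425559)) (c (l 16424240) (l 16407056))) (a (c (b (l 16441896) (l 16453720)) (l 16430816)) (c (l 16446800) (l 16430832)))) (b (a (c (l 16472008) (l 16456240)) (l 16463136)) (a (l 16490080) (l 16488376)))) (b (b (a (l 16415896) (l 16416184)) (a (l 16438552) (l 16438344))) (b (a (l 16462224) (l 16461496)) (a (l 16486880) (l 16485584))))))), by decide +kernel⟩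

def k3_pm_022_a : ∃ t, chk3 f_pm_022_a t 9 14 1 = true :=
  ⟨(a (b (a (b (a (b (a (l 1) (c (l 38687777895) (l 16511040))) (a (c (l 35466587495) (l 16527832)) (c (l 16543928) (l 16526368)))) (b (c (a (l 16527328) (l 16525496)) (l 16509232)) (c (l 16540808) (l 16524288)))) (a (b (a (c (b (l 16557008) (l 16563192)) (l 16542696)) (c (l 16557744) (l 16541056))) (a (c (l 16572488) (l 16556352)) (l 16562424))) (b (c (l 16554344) (l 16538712)) (l 16580272)))) (b (a (c (b (l 16522888) (l 16536912)) (l 16514400)) (c (l 16526512) (l 16512232))) (a (b (l 16543104) (l 16555400)) (l 16566776)))) (a (a (b (b (c (l 16583648) (l 16569176)) (c (l 16596232) (l 16583104))) (c (l 16615424) (l 16604368))) (b (b (l 16572056) (l 16584968)) (l 16590248))) (b (a (l 16574168) (l 16570088)) (a (l 16599632) (l 16594928))))) (b (a (b (a (l 16516928) (l 16514576)) (a (l 16542592) (l 16539624))) (b (l 16511472) (l 16556600))) (a (b (a (l 16566296) (l 16562760)) (a (l 16590512) (l 16586392))) (b (l 16557960) (a (l 16582552) (l 16578976)))))), by decide +kernel⟩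

def k4_pm_022_a : ∃ t, chk3 f_pm_022_a t 9 15 1 = true :=
  ⟨(a (b (b (a (a (b (l 16630472) (l 16644296)) (l 16631336)) (a (l 16625624) (l 16620248))) (b (a (a (l 16658240) (l 16651608)) (l 16631864)) (a (a (l 16672288) (l 16665280)) (a (l 16658656) (l 16652392))))) (a (b (a (b (l 16686432) (l 16696168)) (l 16665000)) (b (c (a (l 16689568) (l 16682752)) (a (l 16689592) (l 16681488))) (a (c (a (l 16684976) (l 16681672)) (b (l 16683600) (l 16679432))) (c (l 16676480) (b (l 16675448) (l 16671240)))))) (b (c (a (l 16678528) (l 16671104)) (l 16654840)) (b (c (a (l 16675480) (l 16667768)) (a (l 16673024) (l 16664208))) (b (a (l 16679384) (c (l 16662968) (l 16658008))) (c (a (l 16667480) (l 16659600)) (a (l 16662672) (l 16653696)))))))) (b (b (a (a (l 16615192) (l 16610440)) (c (l 16604128) (l 16603704))) (a (c (a (l 16640352) (l 16634424)) (l 16637608)) (c (l 16626384) (l 16628688)))) (a (a (b (c (l 16664152) (l 16666624)) (b (c (l 16659568) (l 16655008)) (b (c (l 16654616) (l 16648680)) (c (l 16651128) (l 16633776))))) (b (c (l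 16657680) (l 16657248)) (b (c (l 16650784) (l 16645368)) (a (c (l 16646168) (l 16639136)) (c (l 16641496) (l 16626224)))))) (c (b (l 16625440) (a (b (l 16641440) (b (l 16636080) (l 16632304))) (b (l 16631488) (b (l 16625888) (l 16611456))))) (b (b (l 16646240) (l 16638416)) (b (a (l 16635232) (l 16624600)) (a (a (l 16621040) (l 16614408)) (a (l 16607648) (l 16602064))))))))), by decide +kernel⟩

def k5_pm_022_a : ∃ t, chk3 f_pm_022_a t 5 2 1 = true :=
  ⟨(a (b (a (a (l 1) (b (a (l 1) (b (l 16242280) (l 16240576))) (b (a (l 1) (l 16243208)) (a (l 16245576) (l 16250184))))) (b (a (b (l 16251232) (l 16249376)) (l 16262560)) (a (b (l 16251752) (l 16258352)) (b (l 16263336) (l 16269456))))) (a (a (a (b (l 1) (b (b (l 25802446551) (c (l 16304792) (l 16283784))) (b (l 16329424) (l 16323736)))) (b (b (l 16253128) (l 16311728)) (b (b (l 16285048) (l 16297224)) (b (l 16311056) (l 16326072))))) (a (b (b (l 16257304) (l 16273480)) (b (c (l 16303784) (l 16284496)) (l 16321120))) (b (b (l 16261520) (l 16277216)) (a (b (l 16296440) (l 16323016))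 (a (b (l 16297576) (l 16324008)) (b (b (l 16293024) (l 16304080)) (l 16324824))))))) (b (a (b (l 16269184) (l 16284248)) (b (l 16279656) (l 16293904))) (b (a (c (l 16311848) (l 16295160)) (l 16312120)) (a (l 16328912) (l 16335976)))))) (b (a (b (a (l 16274400) (l 16286088)) (a (l 16277800) (l 16288816))) (b (l 16303360) (a (l 16299680) (l 16310720)))) (a (b (a (b (l 16289944) (l 16303392)) (b (l 16300080) (l 16312696))) (b (a (l 16320672) (l 16329024)) (a (l 16342880) (l 16349824)))) (b (a (l 16316312) (l 16326320)) (b (l 16341968) (a (l 16357144) (l 16365384))))))), by decide +kernel⟩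

def k6_pm_022_a : ∃ t, chk3 f_pm_022_a t 5 6 1 = true :=
  ⟨(a (a (a (c (b (b (a (l 16357808) (l 16359184)) (a (l 16393928) (l 16394600))) (b (b (l 16423520) (l 16444360)) (b (l 16466104) (l 16488696)))) (b (b (a (l 16340056) (l 16342472)) (l 16379176)) (b (l 16421344) (l 16467456)))) (b (a (b (l 16373792) (c (l 16395448) (l 16381904))) (a (b (l 16354400) (l 16389856)) (b (a (l 16355304) (l 16356144)) (a (l 16390640) (l 16391408))))) (a (b (c (l 16434048) (l 16422912)) (b (l 16460536) (l 16483072))) (b (a (l 16429168) (a (l 16429776) (l 16430448))) (a (l 16471952) (a (l 16472352) (l 16472896))))))) (b (b (a (c (l 16366048) (l 16352856)) (l 16365016)) (a (c (l 16399368) (l 16388328)) (l 16397760))) (b (a (b (l 16421832) (l 16441672)) (l 16434032)) (a (b (l 16462352) (l 16483848)) (l 16473576))))) (b (b (a (a (l 16370464) (l 16376112)) (l 16385928)) (a (a (l 16401832) (l 16406296)) (a (l 16411704) (l 16418424)))) (a (b (a (l 16436568) (l 16439928)) (a (l 16474704) (l 16476752))) (b (a (l 16444288) (l 16449856)) (a (l 16479968)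 (l 16483496)))))), by decide +kernel⟩

def k7_pm_022_a : ∃ t, chk3 f_pm_022_a t 10 7 1 = true :=
  ⟨(b (a (a (b (b (l 16508152) (a (l 16532176) (l 16530200))) (b (a (l 16553736) (l 16551344)) (a (l 16575752) (l 16572944)))) (b (a (b (l 16506352) (l 16528672)) (a (l 16496088) (a (l 16517192) (l 16496632)))) (a (b (l 16549456) (l 16570784)) (a (l 16559280) (b (l 16548776) (l 16569872)))))) (a (b (b (l 16506032) (l 16527504)) (b (l 16547728) (l 16568472))) (b (b (l 16505152) (l 16525856)) (l 16534648)))) (a (a (a (b (b (l 16598200) (l 16621104)) (b (c (l 16631488) (l 16626480)) (c (b (l 16620880) (a (l 16615784) (l 16610120))) (b (l 16613456) (b (l 16606368) (a (l 16604360) (l 16598464))))))) (b (b (l 16595056) (l 16617616)) (c (b (l 16620704) (b (l 16609536) (a (l 16604256) (l 16598176)))) (b (l 16615216) (b (l 16601736) (a (l 16594960) (l 16588776))))))) (b (a (c (l 16602072) (l 16605792)) (a (l 16571104) (c (l 16579600) (l 16604752)))) (b (a (a (l 16588384) (l 16561288)) (a (l 16554760) (a (c (l 16594120) (l 16588200)) (l 16545336))))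 (b (a (a (l 16596640) (l 16590216)) (a (l 16583376) (a (l 16577672) (l 16573496)))) (a (a (c (l 16591856) (l 16582392)) (c (l 16585240) (l 16575752))) (a (b (l 16576088) (c (l 16575736) (l 16565960))) (a (c (l 16572216) (l 16562872)) (c (a (l 16568672) (l 16566592)) (l 16558632))))))))) (b (b (a (l 16589680) (l 16582384)) (a (l 16590000) (l 16567008))) (a (b (c (l 16523848) (l 16570248)) (c (a (l 16585368) (l 16551880)) (b (l 16555000) (l 16544032)))) (a (b (l 16555192) (c (l 16539568) (l 16530760))) (b (l 16543208) (c (l 16527432) (l 16518424)))))))), by decide +kernel⟩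

def k8_pm_022_a : ∃ t, chk3 f_pm_022_a t 11 7 1 = true :=
  ⟨(b (a (b (a (l 16452264) (l 16515872)) (c (l 16572984) (l 16554704))) (b (a (l 16516864) (l 16517984)) (b (l 16534920) (l 16521408)))) (b (b (a (a (l 16560080) (l 16537880)) (a (l 16516472) (l 16495848))) (a (a (l 16501864) (l 16521248)) (c (l 16512880) (l 16485792)))) (a (b (c (a (l 16528776) (l 16506152)) (a (l 16522144) (l 16498808))) (b (c (a (l 16514648) (l 16491832)) (a (l 16505920) (l 16482216))) (c (a (l 16504544) (c (l 16484400) (l 16478888))) (a (l 16494320) (l 16470344))))) (b (c (a (l 16484568) (l 16464056)) (a (l 16476080) (l 16454224))) (a (c (b (l 16470128) (a (l 16465200) (l 16454608))) (b (l 16459200) (l 16447216))) (c (b (l 16449536) (l 16439232)) (l 16441696))))))), by decide +kernel⟩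

def k9_pm_022_a : ∃ t, chk3 f_pm_022_a t 3 2 1 = true :=
  ⟨(a (a (b (a (b (l 16327512) (l 16328288)) (b (l 16355816) (l 16355848))) (a (b (a (l 16337176) (l 16349104)) (a (l 16365928) (l 16377184))) (b (l 16369208) (a (l 16389160) (l 16401456))))) (b (a (b (l 16387784) (l 16386528)) (l 16481248)) (a (b (l 16397328) (l 16418696)) (b (l 16423416) (l 16439224))))) (a (b (a (l 16382968) (l 16469096)) (b (l 16454968) (l 16461424))) (b (l 16560728) (b (l 16484048) (l 16478192))))), by decide +kernel⟩

def k10_pm_022_a : ∃ t, chk3 f_pm_022_a t 6 3 1 = true :=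
  ⟨(b (a (b (a (b (l 16403024) (l 16450616)) (b (l 16422504) (l 16445208))) (a (b (l 16458832) (l 16488704)) (b (l 16469120) (l 16492704)))) (b (a (l 16491520) (l 16460888)) (a (b (l 16475872) (l 16483512)) (l 16472096)))) (a (a (b (b (l 16516632) (b (l 16496816) (l 16398720))) (b (a (b (l 16476136) (l 16458560)) (l 16448752)) (b (c (l 16435392) (l 16423632)) (c (b (l 16420752) (a (l 16419696) (l 16401352))) (a (l 16410488) (l 16391176)))))) (b (b (l 16483064) (l 16476216)) (b (c (l 16490600) (l 16397400)) (b (c (l 16401080) (l 16387616)) (c (a (b (l 16394544) (l 16384224)) (l 16373208)) (a (l 16373344) (l 16356568))))))) (b (b (a (l 16453608) (l 16427696)) (a (l 16425032) (l 16398352))) (b (a (b (l 16401008) (l 16403768)) (b (l 16373464) (l 16354744))) (b (a (c (l 16370392) (l 16355776)) (c (l 16342024) (l 16326248))) (a (a (c (l 16357544) (l 16340352)) (c (l 16342448) (l 16324704))) (a (c (l 16327944) (l 16309616)) (c (l 16314056) (l 16295104))))))))), by decide +kernel⟩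

def k11_pm_022_a : ∃ t, chk3 f_pm_022_a t 7 3 1 = true :=
  ⟨(b (a (b (a (l 16467104) (l 16469296)) (a (l 16450928) (l 16432544))) (b (l 16457416) (a (l 16416520) (l 16403328)))) (a (b (b (a (l 16404808) (l 16384208)) (a (l 16374016) (l 16352160))) (b (a (c (l 16345176) (l 16332048)) (c (l 16385912) (l 16308408))) (b (a (c (l 16316144) (l 16299056)) (c (l 16293040) (l 16274336))) (a (c (a (l 16300816) (c (l 16293392) (l 16283280))) (a (l 16281192) (l 16268016))) (c (a (c (l 16281728) (l 16271128)) (l 16265104)) (a (l 16255200) (l 16242688))))))) (b (a (b (l 16366352) (l 16333056)) (b (l 16351216) (l 16316256))) (b (a (b (l 16305224) (l 16284520)) (b (l 16287504) (l 16265960))) (b (a (c (l 16272424) (l 16251008)) (a (l 16246768) (l 16238712))) (a (c (a (l 16254288) (l 16244216)) (a (l 16230232) (l 16218056))) (a (c (b (l 16241720) (l 16229504)) (l 16207360)) (c (l 16228992) (l 16198424))))))))), by decide +kernel⟩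

theorem s12_pm_022_a : ∃ t, chk3 f_pm_022_a t 3 3 1 = true := ex3_a k10_pm_022_a k11_pm_022_a

theorem s13_pm_022_a : ∃ t, chk3 f_pm_022_a t 3 1 1 = true := ex3_b k9_pm_022_a s12_pm_022_a

theorem s14_pm_022_a : ∃ t, chk3 f_pm_022_a t 5 7 1 = true := ex3_a k7_pm_022_a k8_pm_022_a

theorem s15_pm_022_a : ∃ t, chk3 f_pm_022_a t 5 3 1 = true := ex3_b k6_pm_022_a s14_pm_022_a

theorem s16_pm_022_a : ∃ t, chk3 f_pm_022_a t 5 1 1 = true := ex3_b k5_pm_022_a s15_pm_022_a

theorem s17_pm_022_a : ∃ t, chk3 f_pm_022_a t 9 7 1 = true := ex3_b k3_pm_022_a k4_pm_022_a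

theorem s18_pm_022_a : ∃ t, chk3 f_pm_022_a t 9 3 1 = true := ex3_b k2_pm_022_a s17_pm_022_a

theorem s19_pm_022_a : ∃ t, chk3 f_pm_022_a t 9 1 1 = true := ex3_b k1_pm_022_a s18_pm_022_a

theorem s20_pm_022_a : ∃ t, chk3 f_pm_022_a t 4 1 1 = true := ex3_a k0_pm_022_a s19_pm_022_a

theorem s21_pm_022_a : ∃ t, chk3 f_pm_022_a t 2 1 1 = true := ex3_a s20_pm_022_a s16_pm_022_a

theorem s22_pm_022_a : ∃ t, chk3 f_pm_022_a t 1 1 1 = true := ex3_a s21_pm_022_a s13_pm_022_a

theorem c_pm_022_a : CertB 0 536870912 0 536870912 818728140 40265320 3 eng mog cd0q0 cd1q2a pd2 true true false .pp 0 2 2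
    ndB0q0 ndB1q2a pcB2 cut_pm_022_a Ext.none :=
  certB2 (fam := true) (s1 := true) (s2 := false) (a := 0) (b := 2) (c := 2) (cn := .pp) (n1 := ndB0q0) (n2 := ndB1q2a) (pc := pcB2) (cut := cut_pm_022_a) (xt := Ext.none) (P1 := 0) (W1 := 536870912) (P2 := 0) (W2 := 536870912) (P3 := 818728140) (W3 := 40265320) (N0 := 3) (En := eng) (mo := mog) (C1 := cd0q0) (C2 := cd1q2a) (C3 := pd2)
    rfl (fun _ => rfl) s22_pm_022_a

end Pool.Agent.Strip051.G.I7625_8000.Tab.C.BA01

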