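import Pool.Agent.Strip051.G.I7625_8000.Tab
import Pool.Agent.Strip051.PB.ExtD2

/-! # Certificates B2 (generated) -/

set_option linter.all false
set_option maxRecDepth 100000

namespace Pool.Agent.Strip051.G.I7625_8000.Tab.C.BA01

open Pool.Agent.Strip051.PB Pool.Agent.Strip051.PB.T
open Pool.Agent.Strip051.G.I7625_8000.Tab

noncomputable def cut_pm_022_b : Cut := Cut.of [[⟨0, 0, 0, 67108864⟩, ⟨1, 1, 0, 67108864⟩, ⟨2, 1, 0, 67108864⟩]]

noncomputable def f_pm_022_b : ℕ → ℕ → ℕ → ℕ → Bool := onCell 0 536870912 1239849684 370763052 818728140 40265320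
    (rowB 3 eng mog cd0q0 cd1q2b pd2 0 true true false .pp 0 2 2 (qsf 0 536870912 1239849684 370763052 2) ndB0q0 ndB1q2b pcB2 cut_pm_022_b Ext.none)

def k0_pm_022_b : ∃ t, chk3 f_pm_022_b t 1 1 1 = true :=
  ⟨(a (b (a (a (b (a (b (a (b (l 16222848) (l 16166320)) (l 16271256)) (a (l 16087248) (l 16105104))) (b (b (l 16255376) (l 16203640)) (l 16131520))) (a (b (l 16086776) (l 15921048)) (b (l 16045288) (l 15970064)))) (b (a (b (a (l 16249768) (l 16263376)) (l 16166216)) (b (l 16305608) (l 16201600))) (a (b (l 16086920) (l 16018200)) (l 16180736)))) (b (a (b (a (l 16316752) (l 16352760)) (a (l 16240920) (l 16284112))) (a (a (l 16346992) (l 16366176)) (l 16409296))) (a (a (l 16146104) (l 16199136)) (a (l 16251696) (l 16302128))))) (a (b (a (a (b (l 15850160) (l 15789648)) (l 15876832)) (a (l 15933832) (l 15991336))) (a (b (l 15771928) (a (l 15697144) (l 15767360))) (b (a (l 15869816) (l 2)) (l 2)))) (b (a (b (l 16144704) (a (l 16033520) (l 2))) (l 2)) (l 2)))) (b (a (b (a (b (l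 16463776) (l 16420048)) (b (l 16509112) (l 2))) (a (b (l 16384120) (l 2)) (l 2))) (l 2)) (l 2))), by decide +kernel⟩

theorem c_pm_022_b : CertB 0 536870912 1239849684 370763052 818728140 40265320 3 eng mog cd0q0 cd1q2b pd2 true true false .pp 0 2 2
    ndB0q0 ndB1q2b pcB2 cut_pm_022_b Ext.none :=
  certB0 (fam := true) (s1 := true) (s2 := false) (a := 0) (b := 2) (c := 2) (cn := .pp) (n1 := ndB0q0) (n2 := ndB1q2b) (pc := pcB2) (cut := cut_pm_022_b) (xt := Ext.none) (P1 := 0) (W1 := 536870912) (P2 := 1239849684) (W2 := 370763052) (P3 := 818728140) (W3 := 40265320) (N0 := 3) (En := eng) (mo := mog) (C1 := cd0q0) (C2 := cd1q2b) (C3 := pd2)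
    rfl k0_pm_022_b

noncomputable def f_pm_023_a : ℕ → ℕ → ℕ → ℕ → Bool := onCell 0 536870912 0 536870912 818728140 40265320
    (rowB 3 eng mog cd0q0 cd1q2a pd3 0 true true false .up 0 2 3 (qsf 0 536870912 0 536870912 3) ndB0q0 ndB1q2a pcB3 Cut.none Ext.none)

def k0_pm_023_a : ∃ t, chk3 f_pm_023_a t 1 1 1 = true :=
  ⟨(a (l 1) (b (a (a (l 1) (b (l 16488896) (l 78416134055))) (b (a (l 16530080) (l 16561296)) (a (a (l 16490608) (l 16492064)) (a (l 16499632) (l 16512592))))) (a (b (l 1) (l 1)) (b (a (b (l 16443280) (a (l 16403672) (l 16391424))) (b (l 16443376) (a (l 16385264) (l 16385672)))) (a (b (a (l 1) (l 16374464)) (l 1)) (b (a (l 16360672) (l 16312160)) (b (a (l 320544597975) (l 16258528)) (a (l 1) (a (l 320007577031) (c (b (l 16242824) (l 16222696)) (l 16199152))))))))))), by decide +kernel⟩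

theorem c_pm_023_a : CertB 0 536870912 0 536870912 818728140 40265320 3 eng mog cd0q0 cd1q2a pd3 true true false .up 0 2 3
    ndB0q0 ndB1q2a pcB3 Cut.none Ext.none :=
  certB0 (fam := true) (s1 := true) (s2 := false) (a := 0) (b := 2) (c := 3) (cn := .up) (n1 := ndB0q0) (n2 := ndB1q2a) (pc := pcB3) (cut := Cut.none) (xt := Ext.none) (P1 := 0) (W1 := 536870912) (P2 := 0) (W2 := 536870912) (P3 := 818728140) (W3 := 40265320) (N0 := 3) (En := eng) (mo := mog) (C1 := cd0q0) (C2 := cd1q2a) (C3 := pd3)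
    rfl k0_pm_023_a

noncomputable def f_pm_023_b : ℕ → ℕ → ℕ → ℕ → Bool := onCell 0 536870912 1610612736 536870912 818728140 40265320
    (rowB 3 eng mog cd0q0 cd1q2b pd3 1 true true false .up 0 2 3 (qsf 0 536870912 1239849684 370763052 3) ndB0q0 ndB1q2b pcB3 Cut.none Ext.none)

def k0_pm_023_b : ∃ t, chk3 f_pm_023_b t 1 1 1 = true :=
  ⟨(a (b (b (a (b (a (b (l 15710344) (l 15697192)) (b (l 15887320) (l 15872752))) (a (l 15678456) (l 15853664))) (a (b (b (l 16061552) (l 16045336)) (l 16025512)) (b (l 16285856) (l 16191120)))) (a (b (a (l 2) (l 15837992)) (l 2)) (b (a (l 16004544) (l 16167896)) (a (l 16007248) (l 16161552))))) (b (a (l 2) (b (a (l 2) (l 16207688)) (l 2))) (l 2))) (b (b (a (b (a (l 16364824) (l 16530112)) (a (l 16352864) (l 16445288))) (a (b (a (l 16541944) (l 251288906103)) (a (l 16514944) (l 16551104))) (b (l 1) (a (l 274374356263) (l 366716055271))))) (a (b (a (l 16306568) (l 16419736)) (a (l 16293392) (l 16402608))) (b (a (l 16513704) (a (l 16572752) (l 277595421671)))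 (a (l 16518984) (l 16588080))))) (b (a (b (a (l 16303576) (l 16401408)) (l 4)) (b (a (l 16489720) (b (l 16582824) (l 16577872))) (b (a (l 4) (l 16568368)) (l 4)))) (l 4)))), by decide +kernel⟩

theorem c_pm_023_b : CertB 0 536870912 1239849684 370763052 818728140 40265320 3 eng mog cd0q0 cd1q2b pd3 true true false .up 0 2 3
    ndB0q0 ndB1q2b pcB3 Cut.none Ext.none :=
  certB1 (fam := true) (s1 := true) (s2 := false) (a := 0) (b := 2) (c := 3) (cn := .up) (n1 := ndB0q0) (n2 := ndB1q2b) (pc := pcB3) (cut := Cut.none) (xt := Ext.none) (P1 := 0) (W1 := 536870912) (P2 := 1239849684) (W2 := 370763052) (P3 := 818728140) (W3 := 40265320) (N0 := 3) (En := eng) (mo := mog) (C1 := cd0q0) (C2 := cd1q2b) (C3 := pd3)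
    rfl (fun _ => rfl) k0_pm_023_b

noncomputable def f_pm_033 : ℕ → ℕ → ℕ → ℕ → Bool := onCell 0 536870912 1610612736 536870912 818728140 40265320
    (rowB 3 eng mog cd0q0 cd1q3 pd3 1 true true false .pnn 0 3 3 (qsf 0 536870912 1610612736 536870912 3) ndB0q0 ndB1q3 pcB3 Cut.none Ext.none)

def k0_pm_033 : ∃ t, chk3 f_pm_033 t 1 1 1 = true :=
  ⟨(b (b (a (a (b (a (l 15791192) (l 284036975623)) (a (l 15670472) (l 15842504))) (a (b (l 1) (l 16013200)) (l 1))) (l 1)) (a (a (b (a (l 15651256) (l 15815400)) (a (l 15673576) (l 15821216))) (b (a (l 15980312) (l 16145144)) (a (l 15972896) (l 16127288)))) (a (b (l 1) (l 198675132919)) (l 1)))) (b (a (a (l 4) (b (a (l 16095936) (l 16229584)) (l 4))) (a (b (a (l 16285696) (l 16389768)) (l 4)) (b (l 1) (b (l 1) (l 4))))) (l 4))), by decide +kernel⟩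

theorem c_pm_033 : CertB 0 536870912 1610612736 536870912 818728140 40265320 3 eng mog cd0q0 cd1q3 pd3 true true false .pnn 0 3 3
    ndB0q0 ndB1q3 pcB3 Cut.none Ext.none :=
  certB1 (fam := true) (s1 := true) (s2 := false) (a := 0) (b := 3) (c := 3) (cn := .pnn) (n1 := ndB0q0) (n2 := ndB1q3) (pc := pcB3) (cut := Cut.none) (xt := Ext.none) (P1 := 0) (W1 := 536870912) (P2 := 1610612736) (W2 := 536870912) (P3 := 818728140) (W3 := 40265320) (N0 := 3) (En := eng) (mo := mog) (C1 := cd0q0) (C2 := cd1q3) (C3 := pd3)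
    rfl (fun _ => rfl) k0_pm_033

noncomputable def cut_pm_101 : Cut := Cut.of [[⟨0, 1, 0, 67108864⟩, ⟨1, 0, 0, 67108864⟩, ⟨2, 1, 0, 67108864⟩]]

noncomputable def f_pm_101 : ℕ → ℕ → ℕ → ℕ → Bool := onCell 536870912 536870912 0 536870912 818728140 40265320
    (rowB 3 eng mog cd0q1 cd1q0 pd1 2 true true false .npn 1 0 1 (qsf 536870912 536870912 0 536870912 1) ndB0q1 ndB1q0 pcB1 cut_pm_101 Ext.none)

def k0_pm_101 : ∃ t, chk3 f_pm_101 t 1 1 1 = true :=
  ⟨(a (l 3) (b (a (l 3) (b (a (l 3) (b (a (l 3) (a (l 3) (b (l 6) (l 3)))) (l 3))) (l 3))) (l 3))), by decide +kernel⟩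

theorem c_pm_101 : CertB 536870912 536870912 0 536870912 818728140 40265320 3 eng mog cd0q1 cd1q0 pd1 true true false .npn 1 0 1
    ndB0q1 ndB1q0 pcB1 cut_pm_101 Ext.none :=
  certB2 (fam := true) (s1 := true) (s2 := false) (a := 1) (b := 0) (c := 1) (cn := .npn) (n1 := ndB0q1) (n2 := ndB1q0) (pc := pcB1) (cut := cut_pm_101) (xt := Ext.none) (P1 := 536870912) (W1 := 536870912) (P2 := 0) (W2 := 536870912) (P3 := 818728140) (W3 := 40265320) (N0 := 3) (En := eng) (mo := mog) (C1 := cd0q1) (C2 := cd1q0) (C3 := pd1)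
    rfl (fun _ => rfl) k0_pm_101

noncomputable def cut_pm_102 : Cut := Cut.of [[⟨0, 1, 0, 67108864⟩, ⟨1, 0, 0, 67108864⟩, ⟨2, 1, 0, 67108864⟩]]

noncomputable def f_pm_102 : ℕ → ℕ → ℕ → ℕ → Bool := onCell 536870912 536870912 1073741824 536870912 818728140 40265320
    (rowB 3 eng mog cd0q1 cd1q0 pd2 1 true true false .npp 1 0 2 (qsf 536870912 536870912 0 536870912 2) ndB0q1 ndB1q0 pcB2 cut_pm_102 Ext.none)

def k0_pm_102 : ∃ t, chk3 f_pm_102 t 2 4 1 = true :=
  ⟨(b (l 3) (a (b (l 3) (a (l 2) (b (l 3) (a (l 2) (b (l 174650379671) (l 16540768)))))) (b (a (l 3) (b (l 3) (a (b (l 3) (l 185924725207)) (b (l 320679420567) (l 173576712151))))) (a (b (a (b (l 3) (l 167134240647)) (b (l 154786181799) (l 175187302599))) (a (b (l 184314044823) (l 16537584)) (b (l 16538536) (l 16540776)))) (b (a (b (l 167671124183) (l 16546856)) (b (l 16570480) (l 16568952))) (a (b (l 16546152) (l 16554432)) (l 16603544))))))), by decide +kernel⟩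

def k1_pm_102 : ∃ t, chk3 f_pm_102 t 6 8 1 = true :=
  ⟨(a (l 3) (b (l 3) (b (l 3) (a (b (l 3) (a (l 3) (b (a (l 3) (b (l 3) (a (l 3) (c (l 341080865415) (l 327122202631))))) (a (b (l 3) (a (a (l 3) (c (l 294909958231) (l 303499825335))) (c (b (l 280951314055) (l 222432375479)) (b (l 287393714999) (l 221358621415))))) (a (b (c (b (l 336249023991) (l 282561927671)) (b (l 320679744727) (l 271824484311))) (c (l 205789372327) (b (l 16789160) (l 16786024)))) (b (c (b (l 253570887559) (l 16803280)) (c (l 242833480023) (l 251960255783))) (l 16800728))))))) (b (a (b (l 3) (a (l 3) (b (l 3) (a (l 373829975495) (c (l 260550227607) (l 271287646631)))))) (b (a (b (l 3) (l 388862387447)) (b (a (l 3) (l 332490934071)) (a (l 275582596567) (l 16806200)))) (a (b (a (l 365240038711) (l 254107756615)) (a (l 231559175159) (l 16803696))) (b (l 16782680) (l 16799776))))) (a (b (a (b (a (l 3) (c (l 350207670935) (b (l 3) (l 326585349559)))) (a (c (b (l 336249024583) (l 231022324327)) (b (l 324974737143)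 (l 251423382695))) (c (l 16804624) (l 232096049095)))) (b (a (c (l 232096069543) (b (l 321216639799) (l 16806176))) (l 16804600)) (l 16801784))) (a (b (c (l 16801584) (l 16802472)) (l 16798000)) (l 16795824))) (b (a (l 16799064) (l 16793888)) (l 16767464)))))))), by decide +kernel⟩

def k2_pm_102 : ∃ t, chk3 f_pm_102 t 6 9 1 = true :=
  ⟨(b (a (b (b (a (l 3) (b (l 3) (a (l 3) (b (a (l 3) (c (l 319069071591) (l 322827055607))) (a (l 353428698007) (a (a (l 320679597799) (l 279340644647)) (a (l 251960233847) (l 16734904)))))))) (a (b (l 3) (l 335711829303)) (b (a (b (l 3) (l 323900780231)) (a (b (l 96804469271) (l 16702384)) (b (c (l 16746544) (l 16704864)) (l 16722616)))) (a (l 16669944) (l 16707992))))) (b (a (a (l 16604664) (l 16632352)) (b (l 16684040) (l 16680272))) (a (l 16615320) (l 16675128)))) (b (a (b (a (b (a (b (l 3) (c (a (l 3) (l 294373039607)) (l 309942191655))) (b (a (c (l 320142873719) (l 324974610823)) (c (b (l 305110502375) (l 222969242567)) (b (l 312626599735)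 (l 210084297255)))) (a (c (b (l 227801066551) (l 16788024)) (l 200957469863)) (c (l 16798024) (l 16749968))))) (a (b (c (a (l 269140079319) (l 16775512)) (l 180556334279)) (l 16744816)) (c (l 16785376) (l 16740504)))) (b (a (b (a (b (c (l 223506115175) (l 216526772615)) (l 16787168)) (b (l 16799488) (l 16796232))) (c (l 16796480) (l 16763168))) (b (l 16797712) (l 16794216))) (a (l 16779272) (l 16789312)))) (a (b (a (l 16740344) (l 16755360)) (l 16742272)) (l 16773160))) (b (a (b (b (l 16792176) (l 16788896)) (l 16784256)) (c (l 16778696) (l 16778824))) (a (l 16775672) (l 16765664)))) (a (b (a (l 16734464) (l 16759680)) (a (l 16725288) (l 16748928))) (a (l 16722472) (l 16743296))))) (b (a (a (l 16610224) (b (l 16667592) (l 16654632))) (a (b (l 16723952) (l 16702136)) (l 16699520))) (a (a (l 16584448) (l 16622856)) (a (l 16669512) (l 16691928))))), by decide +kernel⟩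

def k3_pm_102 : ∃ t, chk3 f_pm_102 t 14 8 1 = true :=
  ⟨(b (a (l 3) (b (l 3) (b (l 3) (a (l 3) (b (a (l 3) (b (l 3) (a (c (l 318532265367) (b (l 3) (l 324974718007))) (c (l 283635648791) (b (l 308868586727) (l 257328975975)))))) (a (b (a (l 3) (c (l 311016072503) (b (l 3) (l 312626686455)))) (a (c (l 296520560375) (b (l 328732818023) (l 264308305175))) (c (l 16794312) (l 247128431927)))) (b (a (c (l 249275909127) (b (l 269140140407) (l 16795312))) (l 16791840)) (c (l 16789232) (l 16791552))))))))) (b (a (b (a (l 3) (b (l 3) (a (l 3) (b (l 330343432551) (a (l 328732834247) (l 296520555927)))))) (a (b (a (l 3) (b (l 3) (l 326585359015))) (a (b (l 3) (a (l 328732840871) (l 302963014343))) (b (a (l 305647386487) (l 262160837191)) (l 258939585223)))) (a (b (c (l 282561914295) (b (l 322290384039) (l 287930619703))) (l 16789120)) (b (b (l 270213871591) (l 16798992)) (l 16793424))))) (b (a (b (a (b (l 3) (a (l 3) (l 320679761527))) (b (a (l 331954029031) (c (l 287930625863) (l 290614985239)))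 (c (l 206863121223) (a (l 239612247575) (l 16796488))))) (a (b (a (l 296520575671) (l 16800528)) (l 16799208)) (b (l 16794632) (l 16791424)))) (a (b (b (c (l 16792904) (l 16794648)) (l 16790624)) (l 16785904)) (b (l 16785768) (l 16779384)))) (a (b (a (l 16794128) (l 16786576)) (l 16752008)) (b (l 16733024) (l 16766544))))) (a (b (a (b (a (c (l 253570875351) (l 261087064967)) (l 16798072)) (l 16772264)) (b (l 16788904) (l 16781328))) (a (b (l 16785352) (l 16777336)) (l 16746704))) (a (b (b (l 16754384) (l 16766200)) (l 16751872)) (l 16703168))))), by decide +kernel⟩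

def k4_pm_102 : ∃ t, chk3 f_pm_102 t 15 8 1 = true :=
  ⟨(b (a (b (a (l 3) (a (l 3) (l 6))) (b (a (b (a (l 3) (b (l 3) (a (l 3) (a (l 3) (b (l 3) (c (l 304573610791) (l 319606000903))))))) (a (b (l 3) (a (l 3) (c (b (l 316384776135) (l 228874828631)) (b (l 330343424759) (a (l 319606003767) (l 271824488679)))))) (b (a (a (l 3) (b (l 3) (c (l 270213882615) (l 305647356583)))) (c (b (l 266992644791) (l 16800592)) (b (a (l 313163549639) (c (l 236391012535) (l 236927886087))) (a (l 227264209975) (l 16791712))))) (a (c (b (l 219748019063) (l 16790000)) (b (a (l 297594292631) (l 16793136)) (l 16792432))) (c (l 16787944) (l 16790344)))))) (b (a (b (a (l 3) (l 6)) (b (a (a (l 3) (c (l 259476461351) (c (l 292762450231) (l 299204903479)))) (l 6)) (a (a (c (l 257328977447) (c (l 263234558759) (l 291151839735))) (l 16795736)) (l 16788408)))) (l 6)) (a (b (a (c (l 16788048) (l 16798168)) (l 16786376)) (a (l 16786368) (l 16783696))) (b (l 6) (l 16756776))))) (a (b (a (b (a (c (l 295446807863)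 (b (l 320679747495) (l 265382041591))) (c (l 243370320967) (b (l 254107748247) (l 16792416)))) (a (c (l 16790656) (l 16793104)) (l 16788944))) (b (a (l 16789032) (l 16786280)) (l 16784768))) (a (b (l 16787416) (l 16784448)) (b (l 16781816) (l 16778104)))) (a (b (b (l 16760984) (l 16778168)) (l 16771888)) (l 16767248))))) (b (l 6) (a (b (l 6) (a (l 16760352) (l 6))) (l 6)))) (a (b (a (b (b (a (l 16758608) (l 16771752)) (l 16746032)) (l 16754344)) (b (l 16734560) (l 16744176))) (a (l 16738728) (l 16722400))) (a (b (b (l 16740440) (l 16725632)) (l 16682992)) (b (b (l 6) (l 16673544)) (a (l 16689016) (l 16678416)))))), by decide +kernel⟩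

def k5_pm_102 : ∃ t, chk3 f_pm_102 t 7 9 1 = true :=
  ⟨(b (b (a (a (b (a (l 16745304) (l 16751464)) (l 16744752)) (a (l 16732176) (l 16729376))) (a (a (l 16714296) (l 16697512)) (a (l 16679304) (l 16638440)))) (a (a (l 16726936) (l 16671688)) (a (a (l 16690880) (l 16675008)) (a (l 16657136) (l 16637520))))) (a (a (l 16623592) (a (l 16684152) (l 16667816))) (a (b (l 16636976) (l 16632008)) (b (a (l 16633792) (l 16614600)) (l 16578672))))), by decide +kernel⟩

def k6_pm_102 : ∃ t, chk3 f_pm_102 t 1 5 1 = true :=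
  ⟨(a (b (b (b (a (a (l 2) (b (a (l 2) (l 16548512)) (l 2))) (a (b (a (l 16548992) (l 16554840)) (a (l 16555208) (l 16561088))) (a (b (l 16567248) (l 16568384)) (b (l 16583168) (l 16580352))))) (a (l 2) (a (b (a (l 72577976103) (l 16558968)) (b (a (l 16552992) (l 16552936)) (l 97810963863))) (a (b (l 16562192) (l 16550968)) (b (l 16572248) (l 16559848)))))) (a (l 2) (a (l 73651471047) (a (l 16529704) (l 16534656))))) (a (l 2) (a (a (l 2) (l 16494152)) (a (l 16483344) (l 16478976))))) (a (a (b (b (b (l 16616456) (b (l 16602296) (a (l 16577352) (l 16599176)))) (a (l 16547760) (l 16563992))) (a (l 16482312) (l 16488032))) (b (b (a (b (l 16663936) (b (l 16640176) (l 16621440))) (b (l 16683784) (b (l 16656272) (l 16656480)))) (a (l 16580208) (l 16589496))) (a (l 16493984) (l 16536592)))) (a (b (b (a (b (l 16669760) (b (l 16648872) (l 16653000))) (b (l 16636624) (b (l 16616544) (l 16602152)))) (a (l 16587264) (l 16567680))) (a (l 16487264) (l 16642264))) (b (b (a (b (l 16605536) (b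 (l 16585376) (l 16570976))) (b (l 16553048) (b (l 16554144) (b (l 16543872) (l 16536464))))) (a (l 16538376) (l 16507232))) (a (b (l 16488952) (l 16432600)) (b (l 16459456) (l 16413328))))))), by decide +kernel⟩

def k7_pm_102 : ∃ t, chk3 f_pm_102 t 1 3 1 = true :=
  ⟨(a (a (l 2) (a (l 2) (b (b (l 16620120) (l 2)) (l 2)))) (a (a (b (b (l 16473472) (l 16365776)) (l 2)) (b (a (b (l 16404160) (l 16345872)) (b (l 16395728) (l 16329432))) (b (l 16433616) (l 2)))) (a (b (b (a (l 16380584) (l 16361576)) (a (l 16307200) (l 16281680))) (b (l 16313928) (l 16243184))) (b (b (a (l 16346312) (l 16332400)) (a (l 16259992) (l 16239824))) (b (a (l 16209144) (l 16182712)) (l 16220312)))))), by decide +kernel⟩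

theorem s8_pm_102 : ∃ t, chk3 f_pm_102 t 7 8 1 = true := ex3_a k3_pm_102 k4_pm_102

theorem s9_pm_102 : ∃ t, chk3 f_pm_102 t 7 4 1 = true := ex3_b s8_pm_102 k5_pm_102

theorem s10_pm_102 : ∃ t, chk3 f_pm_102 t 6 4 1 = true := ex3_b k1_pm_102 k2_pm_102

theorem s11_pm_102 : ∃ t, chk3 f_pm_102 t 3 4 1 = true := ex3_a s10_pm_102 s9_pm_102

theorem s12_pm_102 : ∃ t, chk3 f_pm_102 t 1 4 1 = true := ex3_a k0_pm_102 s11_pm_102

theorem s13_pm_102 : ∃ t, chk3 f_pm_102 t 1 2 1 = true := ex3_b s12_pm_102 k6_pm_102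

theorem s14_pm_102 : ∃ t, chk3 f_pm_102 t 1 1 1 = true := ex3_b s13_pm_102 k7_pm_102

theorem c_pm_102 : CertB 536870912 536870912 0 536870912 818728140 40265320 3 eng mog cd0q1 cd1q0 pd2 true true false .npp 1 0 2
    ndB0q1 ndB1q0 pcB2 cut_pm_102 Ext.none :=
  certB1 (fam := true) (s1 := true) (s2 := false) (a := 1) (b := 0) (c := 2) (cn := .npp) (n1 := ndB0q1) (n2 := ndB1q0) (pc := pcB2) (cut := cut_pm_102) (xt := Ext.none) (P1 := 536870912) (W1 := 536870912) (P2 := 0) (W2 := 536870912) (P3 := 818728140) (W3 := 40265320) (N0 := 3) (En := eng) (mo := mog) (C1 := cd0q1) (C2 := cd1q0) (C3 := pd2)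
    rfl (fun _ => rfl) s14_pm_102

noncomputable def f_pm_112 : ℕ → ℕ → ℕ → ℕ → Bool := onCell 536870912 536870912 1073741824 536870912 818728140 40265320
    (rowB 3 eng mog cd0q1 cd1q1 pd2 1 true true false .dn 1 1 2 (qsf 536870912 536870912 536870912 536870912 2) ndB0q1 ndB1q1 pcB2 Cut.none Ext.none)

def k0_pm_112 : ∃ t, chk3 f_pm_112 t 1 2 1 = true :=
  ⟨(b (a (b (l 3) (a (b (l 3) (a (l 3) (b (l 3) (b (a (l 3) (b (l 3) (a (l 3) (l 16490544)))) (a (b (a (l 3) (l 16508376)) (a (l 16515648) (l 16508536))) (b (a (l 16500176) (l 16492104)) (l 16518872))))))) (b (l 1) (a (b (l 1) (a (b (l 1) (l 262026065159)) (l 1))) (l 1))))) (l 1)) (a (b (b (b (a (a (b (a (a (l 3) (l 16553352)) (b (a (l 16527648) (l 16521640)) (l 16523920))) (a (b (l 16531664) (l 16530008)) (b (l 16523480) (l 16522896)))) (b (a (b (a (l 16515600) (l 16509528)) (l 16513344)) (a (l 16503792) (l 16496968))) (a (b (l 16513832) (l 16514024)) (l 16523712)))) (a (a (b (l 16506488) (l 16488984)) (l 1)) (l 1))) (a (b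 (a (b (a (l 16528512) (l 16522232)) (a (l 16527144) (l 16521608))) (a (b (l 16514064) (l 16514000)) (b (l 16503720) (l 16504040)))) (b (a (a (l 16525072) (l 16520184)) (a (l 16512872) (l 16502632))) (a (b (a (l 16522408) (l 16517992)) (a (l 16520376) (l 16515992))) (b (a (l 16510728) (l 16499696)) (l 16586744))))) (a (a (b (b (l 16490688) (l 16490376)) (b (l 16488040) (l 16483712))) (b (l 1) (l 16483136))) (l 1)))) (a (a (a (l 16502312) (l 16500720)) (a (l 16495480) (l 16487080))) (a (a (l 16475184) (l 16454848)) (l 213170939623)))) (a (a (a (l 16443672) (l 16449960)) (l 16516200)) (a (a (l 16448432) (l 16435448)) (a (l 16411408) (l 16384328))))) (a (a (b (l 1) (l 198675240807)) (l 1)) (l 1)))), by decide +kernel⟩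

def k1_pm_112 : ∃ t, chk3 f_pm_112 t 1 3 1 = true :=
  ⟨(a (a (b (a (b (l 16485920) (l 16264360)) (b (l 16386736) (l 16308344))) (a (a (l 16101536) (l 16131688)) (b (l 16223024) (l 16135392)))) (a (b (b (l 16396224) (l 16337672)) (b (l 16271976) (l 16203696))) (b (b (l 16438064) (l 16337224)) (a (l 16263280) (l 16272848))))) (a (a (b (b (l 16332192) (l 16314072)) (l 16279960)) (b (a (l 140693132135) (l 161094176343)) (a (l 16271376) (l 16253520)))) (a (b (b (l 1) (l 179884632167)) (b (l 16199080) (l 16213560))) (b (l 1) (b (l 206191172231) (l 16147408)))))), by decide +kernel⟩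

theorem s2_pm_112 : ∃ t, chk3 f_pm_112 t 1 1 1 = true := ex3_b k0_pm_112 k1_pm_112

theorem c_pm_112 : CertB 536870912 536870912 536870912 536870912 818728140 40265320 3 eng mog cd0q1 cd1q1 pd2 true true false .dn 1 1 2
    ndB0q1 ndB1q1 pcB2 Cut.none Ext.none :=
  certB1 (fam := true) (s1 := true) (s2 := false) (a := 1) (b := 1) (c := 2) (cn := .dn) (n1 := ndB0q1) (n2 := ndB1q1) (pc := pcB2) (cut := Cut.none) (xt := Ext.none) (P1 := 536870912) (W1 := 536870912) (P2 := 536870912) (W2 := 536870912) (P3 := 818728140) (W3 := 40265320) (N0 := 3) (En := eng) (mo := mog) (C1 := cd0q1) (C2 := cd1q1) (C3 := pd2)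
    rfl (fun _ => rfl) s2_pm_112

noncomputable def f_pm_113 : ℕ → ℕ → ℕ → ℕ → Bool := onCell 536870912 536870912 1610612736 536870912 818728140 40265320
    (rowB 3 eng mog cd0q1 cd1q1 pd3 1 true true false .nn 1 1 3 (qsf 536870912 536870912 536870912 536870912 3) ndB0q1 ndB1q1 pcB3 Cut.none Ext.none)

def k0_pm_113 : ∃ t, chk3 f_pm_113 t 1 1 1 = true :=
  ⟨(a (b (b (a (a (b (l 15978776) (a (l 2) (l 15922016))) (b (l 16046648) (l 15974328))) (a (b (l 16122928) (l 16062744)) (a (l 16156800) (l 16196296)))) (a (b (a (l 2) (a (l 2) (l 15940704))) (l 2)) (b (a (l 16017672) (l 16150768)) (a (b (l 15996608) (l 2)) (a (l 16120304) (l 16219176)))))) (a (l 2) (b (b (a (l 2) (a (l 2) (l 16294688))) (l 2)) (l 2)))) (b (b (a (a (l 16247184) (a (l 16279336) (l 16285824))) (a (b (l 16240104) (l 16303072)) (b (l 16186128) (l 16257856)))) (a (b (a (l 16286944) (l 16389768)) (a (b (l 16342712) (l 16399944)) (b (l 16497408) (l 16601936)))) (b (a (l 16419976) (l 16383824)) (a (b (l 16566072)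 (l 16707576)) (b (l 16539176) (l 16689848)))))) (a (b (b (a (b (l 16473632) (l 16506728)) (a (l 16627096) (l 16704312))) (b (a (l 16481712) (a (l 16576832) (l 16645736))) (a (l 2) (a (l 16532648) (l 16595088))))) (b (a (l 2) (a (l 2) (b (l 16565112) (l 2)))) (l 2))) (a (b (b (a (b (l 16808312) (l 16764008)) (l 16862840)) (b (a (l 16718720) (l 16789120)) (a (l 16664840) (l 16737360)))) (b (b (b (l 16676784) (l 16664328)) (a (l 16612384) (l 16616864))) (b (b (a (l 2) (l 16661360)) (l 2)) (l 2)))) (b (b (l 16960672) (b (l 16883728) (l 16835520))) (b (a (b (l 16766944) (l 16735312)) (b (l 16825960) (l 16783752))) (b (b (l 16729120) (l 16700192)) (b (l 16665544) (l 4))))))))), by decide +kernel⟩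

theorem c_pm_113 : CertB 536870912 536870912 536870912 536870912 818728140 40265320 3 eng mog cd0q1 cd1q1 pd3 true true false .nn 1 1 3
    ndB0q1 ndB1q1 pcB3 Cut.none Ext.none :=
  certB1 (fam := true) (s1 := true) (s2 := false) (a := 1) (b := 1) (c := 3) (cn := .nn) (n1 := ndB0q1) (n2 := ndB1q1) (pc := pcB3) (cut := Cut.none) (xt := Ext.none) (P1 := 536870912) (W1 := 536870912) (P2 := 536870912) (W2 := 536870912) (P3 := 818728140) (W3 := 40265320) (N0 := 3) (En := eng) (mo := mog) (C1 := cd0q1) (C2 := cd1q1) (C3 := pd3)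
    rfl (fun _ => rfl) k0_pm_113

noncomputable def cut_pm_123_a : Cut := Cut.of [[⟨0, 1, 0, 67108864⟩, ⟨1, 1, 0, 67108864⟩, ⟨2, 2, 0, 16777216⟩], [⟨0, 0, 1, 26214400⟩, ⟨1, 1, 0, 33554432⟩, ⟨2, 1, 1, 26214400⟩]]

noncomputable def xt_pm_123_a : Ext := extD2 3 ⟨4, 1, 1, 5, 13, 5, 23, 25, 43, 100, 1, 8⟩ eng cd0q1 cd1q2a pd3 true true false .npn 1 2 3 rfl ndB0q1 ndB1q2a pcB3

noncomputable def f_pm_123_a : ℕ → ℕ → ℕ → ℕ → Bool := onCell 1610612736 536870912 0 536870912 818728140 40265320
    (rowB 3 eng mog cd0q1 cd1q2a pd3 2 true true false .npn 1 2 3 (qsf 536870912 536870912 0 536870912 3) ndB0q1 ndB1q2a pcB3 cut_pm_123_a xt_pm_123_a)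

def k0_pm_123_a : ∃ t, chk3 f_pm_123_a t 4 1 1 = true :=
  ⟨(b (a (l 1) (b (l 1) (a (l 1) (l 16508264)))) (b (a (l 1) (a (b (l 1) (l 16449560)) (b (l 16451512) (l 16413808)))) (a (b (a (l 1) (b (l 16329160) (l 16293408))) (b (a (a (l 1) (l 16256456)) (b (l 16264720) (l 16243984))) (a (b (a (l 16226552) (l 16223440)) (a (c (b (l 16226104) (l 16214632)) (l 16184232)) (c (b (l 16224152) (l 16212824)) (l 16180592)))) (b (a (l 16222064) (l 16222136)) (a (c (l 16218160) (l 16178704)) (c (l 16219224) (l 16178208))))))) (b (a (b (l 16330648) (l 16295128)) (b (l 16336464) (l 16301512))) (b (a (l 16256656) (l 16264224)) (a (b (l 16224832) (b (l 16207840) (a (l 16194592) (l 16197976)))) (b (l 16233608) (b (l 16217384) (a (l 16203024) (l 16209880)))))))))), by decide +kernel⟩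

def k1_pm_123_a : ∃ t, chk3 f_pm_123_a t 5 2 1 = true :=
  ⟨(a (b (a (l 16574728) (l 16591944)) (a (l 16522064) (l 16536544))) (a (b (l 16608976) (l 16551240)) (b (l 16628312) (l 16570632)))), by decide +kernel⟩

def k2_pm_123_a : ∃ t, chk3 f_pm_123_a t 10 3 1 = true :=
  ⟨(b (b (a (l 16461552) (l 16473416)) (a (l 16401808) (l 16414720))) (b (b (a (l 16346624) (l 16361344)) (a (l 16312992) (l 16329704))) (b (a (l 16277688) (a (l 16292192) (l 16305368))) (a (b (a (l 16244536) (l 16254176)) (a (b (l 16229224) (c (l 16244056) (l 16193088))) (c (b (l 16264968) (a (l 16253176) (l 16260336))) (l 16208936)))) (b (a (l 16266696) (b (l 16286776) (l 16279776))) (b (a (c (l 16280288) (l 16227160)) (c (l 16343208) (l 16244624))) (c (a (a (l 16268784) (l 139310355601195023)) (a (l 139442159581167631) (l 139592792701566991))) (a (l 16217272) (a (l 16231048) (l 16242184)))))))))), by decide +kernel⟩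

def k3_pm_123_a : ∃ t, chk3 f_pm_123_a t 11 3 1 = true :=
  ⟨(b (a (b (l 16489376) (b (l 16447952) (l 16414832))) (b (l 16509312) (b (l 16470712) (l 16484280)))) (b (a (b (l 16381384) (l 16461032)) (b (a (l 16403616) (l 16427184)) (a (l 16386856) (l 16416056)))) (a (c (b (b (l 16362240) (l 16417376)) (b (a (l 16333912) (l 140476525298745359)) (a (b (l 139887461870878735) (a (l 140124475324645391) (b (l 139958586543603727) (l 139946904231149583)))) (b (l 140452679638761487) (a (c (l 140512465598545935) (l 139975285378203663)) (b (l 140371659395874831) (c (l 140556789704507407) (l 140182680798117903)))))))) (b (a (l 16299392) (l 16321200)) (b (a (l 16278272) (l 16304920)) (a (b (l 16268296) (a (l 139075197503504399) (l 139244384884768783))) (b (l 139574169711919119) (a (l 139425529457475599) (l 139619318416556047))))))) (b (a (b (l 16377664) (l 16373408)) (b (l 16412176) (l 16431928))) (b (a (c (l 140709140804943887) (l 16337248)) (a (c (l 16435216) (l 16364888)) (c (l 16460504)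 (l 16387072)))) (b (a (c (a (l 140596509564747791) (l 140831186622496783)) (l 139968825737707535)) (a (c (a (l 141017553879203855) (l 141151282007605263)) (a (l 16398896) (l 140361626339803151))) (c (b (l 16466312) (l 141369741270138895)) (b (l 16386600) (l 140542015004098575))))) (a (b (c (a (l 140600151699423247) (l 140844518205407247)) (l 140123032239489039)) (c (a (c (b (l 140795108895375375) (l 140801087491637263)) (l 140410898223333391)) (c (a (l 140990203527872527) (l 141124000375046159)) (l 140654921131524111))) (a (l 139817230545551375) (l 140220820073349135)))) (c (a (b (a (l 141038788203577359) (l 141176570782400527)) (a (c (b (l 141256010515333135) (a (l 141233333084225551) (l 141303289525649423))) (b (l 140845411557277711) (l 141030816707346447))) (c (b (l 141399428092887055) (c (l 141519000008163343) (l 141306931658997775))) (l 140982987978555407)))) (b (c (l 141603043943858191) (l 141180144196812815)) (c (a (b (l 141549855059034127) (c (b (l 141669976729976847)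 (l 141679460020191247)) (l 141457839661563919))) (b (l 141708047327592463) (c (l 14) (l 141796764154036239)))) (b (l 141194025535455247) (a (l 141129841531666447) (l 141461275599650831)))))) (a (a (b (l 140225836628754447) (c (l 140428078090698767) (l 140002704444407823))) (b (l 140347745004748815) (l 140337643241717775))) (b (l 140535349215772687) (c (a (l 140686669535608847) (l 140826444980649999)) (l 140306307156213775)))))))))))), by decide +kernel⟩

def k4_pm_123_a : ∃ t, chk3 f_pm_123_a t 3 2 1 = true :=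
  ⟨(a (a (b (a (l 16649600) (b (l 16683464) (l 16662192))) (a (b (l 16610320) (l 16579232)) (b (l 16641808) (l 16620096)))) (a (b (a (b (l 16703848) (l 16686976)) (l 16735776)) (b (a (l 16672904) (l 16698696)) (a (l 16659144) (l 16689528)))) (b (b (a (l 16738600) (l 16754560)) (a (l 16726592) (l 16741400))) (b (l 16726672) (a (l 16713224) (l 16728136)))))) (a (a (a (b (b (b (l 59290737623) (l 16763568)) (l 16752824)) (b (l 16744792) (l 16739328))) (b (b (a (l 116735756887) (l 138210636407)) (l 16764208)) (b (l 16753360) (l 16747952)))) (a (a (b (b (l 141968648631) (l 16764968)) (b (l 16759608) (l 16753800))) (b (b (l 4) (l 126399653175)) (b (l 16765704) (l 16757264)))) (a (b (b (l 4) (l 146263859559)) (b (l 16766456) (l 16760432))) (b (l 4) (b (b (l 129620863895) (l 16766408)) (l 16763584)))))) (a (b (l 4) (a (a (b (b (l 4) (l 118883460119)) (b (l 16767528) (l 16764904))) (b (b (l 4) (l 199950925207)) (b (l 107609164199) (l 16768152)))) (b (l 4) (a (b (l 220352037175) (a (l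 16767472) (l 16768400))) (b (l 4) (a (l 16710480) (l 4))))))) (l 4)))), by decide +kernel⟩

def k5_pm_123_a : ∃ t, chk3 f_pm_123_a t 12 6 1 = true :=
  ⟨(a (b (l 16543960) (b (l 16514920) (l 16495112))) (b (l 16596944) (b (l 16579296) (l 16570096)))), by decide +kernel⟩

def k6_pm_123_a : ∃ t, chk3 f_pm_123_a t 12 14 1 = true :=
  ⟨(a (b (a (l 16459568) (l 16497904)) (a (l 16454464) (l 16497288))) (b (a (l 16539904) (b (l 16586768) (l 16588264))) (a (l 16546568) (l 16603560)))), by decide +kernel⟩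

def k7_pm_123_a : ∃ t, chk3 f_pm_123_a t 24 15 1 = true :=
  ⟨(b (a (b (l 16454568) (l 16457560)) (b (l 16503808) (l 16512296))) (b (a (b (l 16503648) (c (l 16527176) (l 16425144))) (b (l 16521888) (c (l 16574608) (l 16485832)))) (b (c (a (a (l 141836690173771791) (l 142344664614191119)) (a (a (l 142252511851593743) (l 14)) (l 14))) (a (a (l 140805348093378575) (l 141093214041767951)) (a (l 141593423179530255) (l 142489319071268879)))) (a (b (a (c (a (l 141624415706103823) (l 141789411204153359)) (l 141169492604665871)) (c (a (l 141962996638498831) (l 142145584326066191)) (c (l 141351255732043791) (l 140875510699081743)))) (a (c (c (a (b (l 141874554654457871) (l 14)) (l 14)) (a (b (l 141425404062023695) (c (l 141555283900612623) (l 141325348484415503))) (b (l 141590055962591247) (c (l 14) (l 141490550140895247))))) (c (a (l 140973917008609295) (b (l 141124481413070863) (l 141134720618168335))) (a (l 140508960935739407) (l 140653752903499791)))) (c (c (l 14) (a (b (l 141763435238408207)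 (b (l 141779653038915599) (l 14))) (l 14))) (c (b (l 141731961638780943) (a (c (l 141422242967896079) (l 141178288776232975)) (a (l 141430626746417167) (l 141880670618124303)))) (a (l 140806722490597391) (l 141148464481959951)))))) (c (l 14) (c (a (b (l 141702000013967375) (a (b (l 141638984242085903) (c (l 14) (l 141711758147223567))) (l 14))) (l 14)) (a (b (l 141203508829585423) (b (l 141401420927664143) (a (l 141325004854689807) (c (l 141459351495671823) (l 141194094262583311))))) (b (l 141568821643231247) (a (b (l 141499827275710479) (c (l 14) (l 141383072862453775))) (b (l 141698632762687503) (l 14))))))))))), by decide +kernel⟩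

def k8_pm_123_a : ∃ t, chk3 f_pm_123_a t 25 30 1 = true :=
  ⟨(a (b (l 16561408) (l 16577864)) (b (l 16617104) (l 16620856))), by decide +kernel⟩

def k9_pm_123_a : ∃ t, chk3 f_pm_123_a t 25 62 1 = true :=
  ⟨(a (b (l 16594536) (c (l 16594656) (l 16559528))) (b (l 16623696) (a (l 16600352) (l 16608992)))), by decide +kernel⟩

def k10_pm_123_a : ∃ t, chk3 f_pm_123_a t 25 126 1 = true :=
  ⟨(a (b (a (c (l 16613320) (l 16547848)) (a (l 142798556922478607) (l 16611032))) (a (c (l 142834222337245199) (l 142190870471393295)) (c (l 142760486356664399) (l 14)))) (a (c (a (l 142831542307242063) (l 142881432655855695)) (l 14)) (a (c (l 142930292212154447) (l 142909470179196943)) (c (l 142978120976138319) (l 142780758608117775))))), by decide +kernel⟩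

def k11_pm_123_a : ∃ t, chk3 f_pm_123_a t 50 127 1 = true :=
  ⟨(b (c (a (a (l 14) (l 142783163773698063)) (a (l 142746467582017615) (l 142798900551483471))) (l 14)) (a (c (c (c (c (a (l 14) (b (l 142984236981452879) (b (l 142990765333102671) (a (a (l 14) (l 142988497590222927)) (a (l 143001691731902543) (l 143014817154089039)))))) (l 14)) (l 14)) (l 14)) (l 14)) (c (a (c (b (l 142813675241783375) (a (b (l 142986710883319887) (c (b (l 143018802884329551) (a (l 143014473556672591) (l 143027530259365967))) (l 14))) (b (l 143012893008232527) (a (b (l 143009388314476623) (c (l 143040518242582607) (c (l 142996881367777359) (l 14)))) (c (l 143052337994448975) (c (l 143008975997616207) (l 14))))))) (l 14)) (a (b (l 142840956871311439) (c (b (l 143038800255189071) (c (a (l 143065257258172495) (l 143078107802402895)) (b (l 143013099166859343) (a (c (l 143023063492657231) (l 142993926429851727)) (l 143021551663956047))))) (l 14))) (b (l 142821990300008527) (a (c (b (l 143058110431297615)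 (c (l 143090820907663439) (b (l 143032546781937743) (l 143034539647156303)))) (l 14)) (c (b (l 143070892256051279) (c (l 143103534012907599) (b (l 143045466045661263) (l 143047458910879823)))) (b (l 142956268150587471) (c (c (l 143003134841290831) (l 14)) (l 14)))))))) (l 14)))), by decide +kernel⟩

def k12_pm_123_a : ∃ t, chk3 f_pm_123_a t 51 254 1 = true :=
  ⟨(a (c (a (l 142850302728618063) (l 142900674113454159)) (l 14)) (c (a (l 142950152144912463) (c (l 143230252748357839) (l 143126761199976527))) (a (l 142869819043233807) (l 142876690999623759)))), by decide +kernel⟩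

def k13_pm_123_a : ∃ t, chk3 f_pm_123_a t 51 510 1 = true :=
  ⟨(a (c (a (a (l 142847760108027983) (l 142873392477044815)) (a (l 142898749968121935) (l 142923832581242959))) (l 14)) (c (a (c (l 143195205809569999) (l 142906515270615119)) (c (l 143243309451116751) (a (l 143123943701135439) (l 143148613997314127)))) (c (a (l 142795189701148751) (l 142846523158741071)) (l 14)))), by decide +kernel⟩

def k14_pm_123_a : ∃ t, chk3 f_pm_123_a t 51 511 1 = true :=
  ⟨(a (c (a (a (c (b (l 143089996273680463) (a (c (l 143116247118151759) (l 143059347382255695)) (c (l 143128822784426191) (l 143072129206992975)))) (c (b (l 143004784108929103) (a (c (l 143016191543984207) (l 14)) (a (l 142966438642122831) (l 143017909531263055)))) (l 14))) (c (b (l 143115216325738575) (c (l 143147651924082895) (a (l 143084911031730255) (l 143097555417514063)))) (c (b (l 143030622636392527) (b (l 143033233977032783) (a (l 142983481075155023) (l 143041411596140623)))) (l 14)))) (c (a (b (l 143140230219333711)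 (b (l 143098448778068047) (l 143145727767707855))) (b (l 143165037954449615) (l 143169435990999247))) (a (b (l 143027942576537679) (b (c (l 143058935065493583) (l 143001623012933711)) (c (a (l 143054262140371023) (l 143067112684601423)) (c (a (l 143011106302214223) (l 143024025565954127)) (l 14))))) (b (l 143053506226061391) (b (c (l 143084361276014671) (l 143027461540397135)) (c (a (l 143079825789861967) (l 143092470175629391)) (a (c (l 143036944829677647) (l 143008082644975695)) (c (l 143049726654431311) (l 143021001908699215))))))))) (l 14)) (c (a (b (c (l 143201871599943887) (a (l 143078932436598863) (l 143104083769180239))) (a (c (l 143194106297860303) (c (a (l 143104221208035407) (l 143116796874309839)) (b (l 143053093909397583) (a (l 143048214825795663) (l 143060996650549327))))) (c (l 143218501716017359) (c (l 143135557294489807) (b (l 143078520119918671) (a (l 143073709755809871) (l 143086422861054031))))))) (c (a (l 143240423232618703) (l 143264406333849807)) (c (a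 (l 143158440883945679) (l 143183042460598479)) (a (b (l 143101334989881423) (a (l 143098173893476431) (l 143110749559767247))) (l 143127860712227023))))) (a (c (c (b (l 142849340653830223) (a (c (a (l 143004440512348239) (l 143017359776071759)) (l 14)) (a (c (l 143030210320318543) (l 14)) (c (l 143042992145072207) (l 143014404838391887))))) (l 14)) (l 14)) (c (b (c (l 142877927964508239) (l 142866520522833999)) (a (c (b (l 143047252753465423) (a (c (l 143056461164724303) (l 143027873858043983)) (l 143009938078875727))) (b (l 142990146859663439) (c (a (l 14) (l 143011999656673359)) (l 14)))) (b (c (l 143072678963986511) (l 143015916667650127)) (c (a (l 143067662441398351) (l 143080306827165775)) (c (a (l 143024850200920143) (l 143037700745150543)) (l 14)))))) (l 14))))), by decide +kernel⟩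

def k15_pm_123_a : ∃ t, chk3 f_pm_123_a t 13 6 1 = true :=
  ⟨(a (b (a (l 16646432) (l 16682112)) (a (l 16636912) (l 16672024))) (b (a (l 16706784) (l 16722776)) (b (l 16708104) (l 16680912)))), by decide +kernel⟩

def k16_pm_123_a : ∃ t, chk3 f_pm_123_a t 26 14 1 = true :=
  ⟨(a (b (a (l 16625176) (l 16635520)) (a (l 16626304) (l 16636096))) (b (l 16656768) (a (l 16649752) (l 16663912)))), by decide +kernel⟩

def k17_pm_123_a : ∃ t, chk3 f_pm_123_a t 26 30 1 = true :=
  ⟨(a (b (l 16635680) (a (l 16634048) (l 16621984))) (c (l 16645264) (l 16656560))), by decide +kernel⟩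

def k18_pm_123_a : ∃ t, chk3 f_pm_123_a t 26 62 1 = true :=
  ⟨(a (a (b (l 16636536) (l 16617312)) (a (l 16622576) (a (l 16625792) (l 16629032)))) (a (b (l 16657504) (l 143201871627894863)) (c (l 16677376) (l 16643264)))), by decide +kernel⟩

def k19_pm_123_a : ∃ t, chk3 f_pm_123_a t 52 126 1 = true :=
  ⟨(a (b (a (l 16616600) (l 142972004942856271)) (c (l 143054949364285519) (l 142857861874548815))) (a (c (b (l 16652448) (l 143302889247916239)) (l 142928574228152399)) (a (b (l 143056323755343951) (a (l 143056736072433743) (l 143076046248263759))) (b (l 16651848) (l 143110749588996175))))), by decide +kernel⟩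

def k20_pm_123_a : ∃ t, chk3 f_pm_123_a t 104 127 1 = true :=
  ⟨(c (c (b (a (l 143276982000255183) (l 143322817898823887)) (b (a (l 143290519739302095) (l 143336836674142415)) (a (a (l 143288114557141199) (l 143311685341446351)) (a (l 143335049967272207) (l 143358208434635023))))) (b (a (l 143175139719659599) (l 143222624885981391)) (a (b (l 143185172764934351) (a (c (l 143207369159295183) (l 143152599727882447)) (b (l 143202558795350223) (l 143206269636919503)))) (b (l 143233070248050895) (a (b (l 143226610616107215) (l 143230390187884751)) (b (l 143250524997877967) (l 143254373289115855))))))) (b (a (l 142927612140437583) (l 142955031220043855)) (a (b (c (l 142896963262988367) (l 142786256169484367)) (c (a (b (l 143067937319649359) (a (b (l 143063401833463887) (c (l 143092882493456463) (c (l 143050413850427471) (l 143021895263322191)))) (c (l 143104770964848847) (c (l 143062577199775823) (l 143034196051656783))))) (c (b (l 143120713886056655) (l 143123462665568463)) (b (l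 143065257259991119) (b (l 143066837808234575) (a (c (l 143075771341471823) (l 143047458912829519)) (l 143074259512918095)))))) (a (l 14) (c (b (l 143009113439174735) (b (l 143010281670492239) (c (a (l 143018940325757007) (l 143031722150510671)) (l 14)))) (l 14))))) (c (c (b (l 143153493081850063) (a (l 143146827291459791) (l 143171291429159119))) (b (l 143099617004011599) (a (b (l 143090339873112143) (b (l 143091989140815951) (a (l 143086835179208783) (l 143099410845499599)))) (b (l 143115216327770319) (l 143117552790307023))))) (b (l 142837452188139599) (a (b (l 142826388350599247) (c (b (l 143035776600539215) (a (c (l 143044435255787599) (l 143015985388224591)) (c (l 143057148361048143) (l 143028767212994639)))) (l 14))) (b (l 142851883280662607) (c (a (c (l 143069311710429263) (l 143041136720822351)) (a (l 143042167516594255) (l 143071029697855567))) (b (l 143004646673481807) (a (l 14) (c (l 143025812275511375) (l 14)))))))))))), by decide +kernel⟩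

def k21_pm_123_a : ∃ t, chk3 f_pm_123_a t 105 127 1 = true :=
  ⟨(b (a (c (c (l 143367829163507983) (l 143269147979497679)) (l 142987191943397455)) (a (c (a (l 143347144597995727) (l 143366867090686159)) (a (l 142966919702872143) (l 143166206188240975))) (c (l 143402669943062735) (l 143200084895088719)))) (c (a (c (a (b (l 143370990259618063) (l 143381160743534863)) (l 143398752932544783)) (b (l 143280143097315535) (a (b (l 143274164501709007) (l 143278150231883983)) (l 143254648174379215)))) (a (c (a (b (l 143410641404084495) (l 143421155485352207)) (l 143435930175029519)) (a (b (l 143309417599172815) (b (l 143315396194418959) (l 143319588083007759))) (l 143333194541465871))) (b (c (l 143466441627025679) (l 143364118310404367)) (a (b (l 143411053720109327) (c (l 143465960590639375) (a (l 143356627886227727) (l 143366179895116047)))) (b (l 143340959857099023) (c (l 143482178390442255) (l 143377587330695439))))))) (a (b (a (l 142960391346241615) (l 142976471707861071)) (b (a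 (c (l 143167099540783311) (l 142877103332786255)) (c (l 143191288800542927) (l 142902185945907279))) (a (c (a (l 143163663566307535) (l 143175895635149007)) (c (c (l 143100647796932815) (a (l 143066425492406351) (l 143079001158697039))) (b (l 143030210323021903) (a (c (l 143038525380788303) (l 14)) (c (l 143051238486065231) (l 143022926057553999)))))) (a (c (l 143188058984513743) (b (l 143077145732792399) (c (l 143105870478229711) (c (l 143063882871849039) (l 143035639162830927))))) (c (l 143200153614385359) (b (l 143089652679606351) (c (l 143118308705534159) (c (l 143076458538139727) (l 143048283548631119))))))))) (a (b (a (c (l 143205513734701263) (l 143099135969067087)) (l 142991727437561935)) (a (a (c (l 143207781477597391) (b (l 143097830298730575) (b (l 143098998529966159) (c (l 143127585836400847) (l 143071854332706895))))) (a (c (l 143212316963782863) (b (l 143102503223902287) (c (l 143131709005709519) (l 143076252379955279)))) (c (b (l 143214722145878223) (l 143217608364261583))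 (b (l 143106420234682447) (b (l 143107519746441295) (c (l 143136107052875983) (c (l 143094394324467919) (l 143066425493405775)))))))) (c (b (l 143229153238024399) (l 143232039456374991)) (b (l 143120439009919055) (b (l 143121607241154639) (c (l 143150263267066063) (l 143094394324418639))))))) (c (b (l 143259046214713551) (b (a (l 143252105546465487) (l 143271828039483599)) (a (b (l 143253548655722703) (a (l 143249494205956303) (l 143258152861630671))) (l 143270110052892879)))) (b (l 142971249030398031) (b (b (l 142972348542238799) (l 142972142383890639)) (a (a (c (l 143166343626932431) (l 142930292216283343)) (c (l 143175758196834511) (l 143119820534694095))) (b (l 143160502471262415) (c (l 143186959473950927) (l 143130953092284623))))))))))), by decide +kernel⟩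

def k22_pm_123_a : ∃ t, chk3 f_pm_123_a t 53 63 1 = true :=
  ⟨(b (a (a (c (b (l 16663640) (l 16656776)) (l 143166893395935311)) (b (l 16662976) (c (l 16671008) (l 143157478840713295)))) (b (l 16640848) (a (l 143317732688183503) (l 143374357549711567)))) (b (a (a (a (b (l 143165587739115599) (c (c (l 143502656796606735) (l 143401707869733135)) (l 143065188568825935))) (c (b (l 143488088265195791) (l 143487401071493391)) (a (l 143093569717223503) (l 143110474711646415)))) (c (l 143531656423702799) (l 143148064273285327))) (c (c (l 143662704493019471) (l 143567115685150991)) (l 143237743209414863))) (a (c (a (b (a (c (l 143505680454811919) (l 143403082260201743)) (l 143484308696121615)) (c (l 143518393562546447) (a (l 143400539640529167) (l 143429814144090383)))) (c (l 143575636899070287) (a (l 143460463036678415) (l 143489393942839567)))) (a (a (b (b (l 143065119849709775) (l 143063264424083663)) (b (l 143060653084213455) (c (b (l 143293405960224975) (l 143292306438029519))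 (b (l 143183729659117775) (c (l 143210117942362319) (a (l 143146552416633039) (l 143162220460474575))))))) (b (l 143275057857560783) (b (l 143001073304207567) (c (b (l 143323573816901839) (l 143322611744407759)) (b (l 143214722149417167) (c (l 143240972993741007) (a (l 143177819784839375) (l 143193487828680911)))))))) (a (b (l 143305363153141967) (b (l 143031584758235343) (c (l 143353260637339919) (c (l 143272446520377551) (a (l 143209774347780303) (l 143225442391638223)))))) (b (l 143335599729246415) (c (l 143384253127573775) (c (l 143304401083285711) (a (l 143242347380605135) (l 143257946710360271)))))))) (a (c (c (l 143630612493386063) (b (l 143533786733953295) (l 143530969236422927))) (a (b (l 143365836305350863) (b (l 143182492741877967) (c (l 143413252753342735) (a (l 143299384562254031) (l 143314915167174863))))) (b (l 143395935442534607) (c (l 143443901646176527) (b (l 143340272658612431) (l 143338142355095759)))))) (c (c (l 143684488575942991) (l 143588899767615823))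 (c (b (l 143491592971829519) (l 143488294437749007)) (b (l 143389613252051151) (a (l 143370096918020367) (l 143400883249971471))))))))), by decide +kernel⟩

def k23_pm_123_a : ∃ t, chk3 f_pm_123_a t 27 7 1 = true :=
  ⟨(b (b (a (l 16683392) (l 16684696)) (a (b (l 16683200) (l 16684496)) (b (c (l 16690384) (l 16701624)) (l 16707912)))) (b (a (b (l 16685608) (l 16666288)) (b (l 16687928) (l 16689288))) (b (c (a (b (l 16695304) (l 16696768)) (a (l 16714040) (l 16724344))) (a (b (l 16682048) (l 16661696)) (b (l 16705080) (l 16685160)))) (b (c (a (a (b (l 16691872) (l 16692832)) (l 16704560)) (a (l 16716480) (b (l 16726320) (l 16727200)))) (a (a (l 143369478469845199) (l 143483346667831567)) (a (l 143594740964475151) (a (l 16710544) (l 16714840))))) (a (c (c (a (a (l 143739326729863503) (l 143790591472042319)) (a (l 143840550544015695) (l 143888997787304271))) (b (a (l 143677547909661007) (l 143783994404127055)) (a (a (l 143644493837009231) (l 143699125833630031)) (a (l 143752589598998863)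 (l 143804885133132111))))) (a (b (l 143355872015237391) (a (c (l 143548423992246543) (b (l 143450567440630031) (l 143446925308969231))) (c (l 143606217084862799) (b (l 143511178031825167) (l 143507948217057551))))) (a (b (l 143622984640200975) (c (l 143663185543676239) (b (l 143571238867173647) (l 143568421369299279)))) (b (l 143680296696349007) (c (l 143719191929700687) (a (l 143614600866808143) (l 143644287687065935))))))) (a (c (a (b (l 16714912) (b (l 143896282056622415) (l 143894220473352527))) (b (l 16720736) (a (l 143930916682318159) (l 143954281310273871)))) (b (c (l 143806190804173135) (l 143722696624357711)) (c (b (l 143802479953625423) (a (l 143773205451211087) (l 143827218972131663))) (b (l 143718848334659919) (a (b (l 143687855844901199) (l 143686893772587343)) (a (l 143731080405287247) (l 143760011311186255))))))) (c (a (b (l 16726168) (a (b (l 16725712) (l 143976134110150991)) (l 143994138617233743))) (b (l 16730032) (b (l 16730744) (l 144012005665898831)))) (b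 (a (l 143844330123821391) (l 16715936)) (c (a (a (b (l 16714600) (l 143866801399759183)) (l 143888654197948751)) (b (l 16720120) (l 143913530655310159))) (b (a (l 143802136358486351) (l 143843642931806543)) (a (a (b (l 143788942216872271) (l 143788186302972239)) (l 143812375563845967)) (l 143842612140425551)))))))))))), by decide +kernel⟩

def k24_pm_123_a : ∃ t, chk3 f_pm_123_a t 14 3 1 = true :=
  ⟨(b (a (b (a (l 16712216) (b (l 16743304) (l 16740352))) (b (l 16690296) (a (l 16722448) (l 16730440)))) (b (c (a (l 16770592) (b (l 16775984) (l 16776984))) (a (l 16708984) (b (l 16739920) (l 16733424)))) (a (b (l 16743544) (l 16738536)) (b (a (l 16749008) (l 16752096)) (c (l 16762576) (l 16730792)))))) (b (a (b (a (l 16716480) (l 16725128)) (a (b (l 16697128) (l 16699392)) (a (l 16705736) (l 16710912)))) (b (a (l 16713096) (c (l 16712096) (l 16712512))) (a (b (l 16737560) (l 16699792)) (a (l 16726688) (c (l 16737808) (l 16746808)))))) (a (b (a (a (l 16699952) (l 16748176)) (b (l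 16734544) (l 16717488))) (b (b (a (a (l 16724144) (l 16731176)) (l 16741504)) (a (c (l 16735488) (l 143800143524561231)) (b (l 16743088) (l 16744168)))) (a (c (b (a (l 16733976) (l 16740984)) (a (b (l 16735472) (a (l 144037294461862223) (l 144062583236788559))) (b (l 16742632) (l 144101822069195023)))) (b (a (l 143759186711478607) (l 16728936)) (a (a (b (l 16720120) (c (l 143947203206840655) (l 143882057128608079))) (b (l 16724248) (c (l 143978745454903631) (l 143917791265243471)))) (b (l 16730256) (c (l 144022863371010383) (l 143965413875253583)))))) (c (b (l 143986029766213903) (b (a (l 16749664) (l 16756464)) (a (l 16750912) (l 16757760)))) (b (l 143899374483505423) (a (b (l 16737880) (c (l 16741824) (l 144022863373680911))) (a (l 144088284332130575) (l 144111442802884879)))))))) (b (a (b (c (l 16749608) (l 16721496)) (l 16729880)) (b (a (l 16733168) (l 16738304)) (a (l 16759232) (l 16764496)))) (c (b (a (l 16739160) (l 16750304)) (a (b (a (l 16760968) (l 16767136)) (a (b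 (l 16762928) (l 16764232)) (b (l 16768984) (l 16770208)))) (b (l 16753664) (a (l 16774640) (l 16778248))))) (b (a (l 16729968) (l 16751824)) (a (b (b (l 16753160) (l 143982593798390031)) (a (b (l 16751720) (l 144143947126358287)) (l 143999979834343631))) (b (l 16748840) (a (l 144027261477437647) (l 144065538234646735)))))))))), by decide +kernel⟩

def k25_pm_123_a : ∃ t, chk3 f_pm_123_a t 30 3 1 = true :=
  ⟨(b (a (b (c (a (l 16777312) (l 16775800)) (a (l 16745344) (l 16752960))) (b (a (l 16735576) (l 16740224)) (a (l 16753688) (l 16736736)))) (b (b (a (l 16768680) (a (l 16768376) (l 16769808))) (a (l 16765464) (l 16769048))) (b (a (l 16764408) (l 16767592)) (a (b (l 16763312) (l 16761488)) (b (l 16766904) (l 16766224)))))) (b (a (b (a (a (l 16729088) (l 16752520)) (l 16714224)) (a (c (l 16764208) (l 16751440)) (c (l 16769112) (l 16756152)))) (b (a (l 16750320) (b (l 16764048) (l 16765272))) (a (c (l 16752928) (l 16760712)) (c (l 16777632) (l 16743656))))) (b (a (a (b (a (l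 16741928) (l 16744384)) (l 16768872)) (b (l 16747632) (a (l 16771640) (l 16752048)))) (b (a (l 16751096) (l 16754000)) (a (c (l 16757048) (l 16750352)) (c (l 16758400) (l 16752256))))) (b (a (b (l 16752760) (l 16768672)) (a (l 16756480) (b (l 16777720) (l 16778568)))) (a (c (b (l 16759656) (a (l 16780648) (l 16782016))) (b (l 16756152) (a (b (l 16770936) (l 16771216)) (b (l 16773480) (l 16773672))))) (b (a (l 16757632) (l 16758232)) (b (a (l 16757952) (l 16769048)) (a (a (l 16757880) (l 16763536)) (a (l 16779560) (l 16779776)))))))))), by decide +kernel⟩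

def k26_pm_123_a : ∃ t, chk3 f_pm_123_a t 62 3 1 = true :=
  ⟨(b (b (a (b (a (l 201561332359) (l 4)) (a (l 16770152) (b (l 16766424) (l 16770744)))) (a (b (l 4) (l 342221720983)) (l 4))) (a (b (c (l 16773712) (l 16766872)) (a (l 16769048) (l 16770288))) (b (a (b (l 16772256) (l 16771856)) (b (l 4) (l 247195569303))) (a (l 16771216) (c (l 16774024) (l 16771416)))))) (b (b (b (a (a (l 16767376) (l 16769408)) (a (l 16770184) (l 16770840))) (a (a (l 16768288) (l 16769512)) (a (l 16771392) (l 16772344)))) (a (b (l 16772680) (l 16775376)) (b (a (l 16774640) (l 16753968)) (l 16776960)))) (b (a (b (c (l 16780904) (l 16772472)) (c (l 16759096) (l 16753584))) (b (c (l 16781480) (l 16752968)) (a (b (l 16777624) (l 16777408)) (l 16756784)))) (b (a (b (l 16777800) (l 16757680)) (b (a (l 16756520) (l 16777408)) (l 16757296))) (a (b (l 16768840) (b (l 16769240) (a (l 16769432) (l 16771120)))) (b (a (l 16779176) (l 16778960)) (b (a (l 16779648) (l 16779472)) (a (c (l 16781584) (l 16778184))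 (c (l 16781120) (b (l 16778288) (l 16778424))))))))))), by decide +kernel⟩

def k27_pm_123_a : ∃ t, chk3 f_pm_123_a t 63 3 1 = true :=
  ⟨(b (a (b (l 4) (b (l 4) (a (a (b (l 16772752) (l 16772536)) (b (l 369065108103) (l 16773576))) (a (b (l 4) (l 344905919079)) (l 4))))) (l 4)) (a (b (b (b (a (l 16771224) (a (l 16772464) (c (l 336315996167) (l 327189193479)))) (a (l 16771960) (a (l 16771800) (l 16772536)))) (b (a (a (l 16775848) (l 16775552)) (a (l 16774968) (l 16774512))) (a (b (l 16776624) (l 16777696)) (l 6)))) (a (a (b (b (l 16778056) (l 16777872)) (b (b (l 16777416) (l 16777872)) (b (l 16778736) (b (l 16779264) (b (l 16779504) (l 16779648)))))) (l 6)) (l 6))) (b (b (a (a (b (l 4) (a (l 16774048) (l 446911411079))) (l 4)) (l 4)) (a (a (b (l 16774720) (l 6)) (l 6)) (l 6))) (l 6)))), by decide +kernel⟩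

theorem s28_pm_123_a : ∃ t, chk3 f_pm_123_a t 31 3 1 = true := ex3_a k26_pm_123_a k27_pm_123_a

theorem s29_pm_123_a : ∃ t, chk3 f_pm_123_a t 15 3 1 = true := ex3_a k25_pm_123_a s28_pm_123_a

theorem s30_pm_123_a : ∃ t, chk3 f_pm_123_a t 7 3 1 = true := ex3_a k24_pm_123_a s29_pm_123_a

theorem s31_pm_123_a : ∃ t, chk3 f_pm_123_a t 52 127 1 = true := ex3_a k20_pm_123_a k21_pm_123_a

theorem s32_pm_123_a : ∃ t, chk3 f_pm_123_a t 52 63 1 = true := ex3_b k19_pm_123_a s31_pm_123_a

theorem s33_pm_123_a : ∃ t, chk3 f_pm_123_a t 26 63 1 = true := ex3_a s32_pm_123_a k22_pm_123_a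

theorem s34_pm_123_a : ∃ t, chk3 f_pm_123_a t 26 31 1 = true := ex3_b k18_pm_123_a s33_pm_123_a

theorem s35_pm_123_a : ∃ t, chk3 f_pm_123_a t 26 15 1 = true := ex3_b k17_pm_123_a s34_pm_123_a

theorem s36_pm_123_a : ∃ t, chk3 f_pm_123_a t 26 7 1 = true := ex3_b k16_pm_123_a s35_pm_123_a

theorem s37_pm_123_a : ∃ t, chk3 f_pm_123_a t 13 7 1 = true := ex3_a s36_pm_123_a k23_pm_123_a

theorem s38_pm_123_a : ∃ t, chk3 f_pm_123_a t 13 3 1 = true := ex3_b k15_pm_123_a s37_pm_123_a

theorem s39_pm_123_a : ∃ t, chk3 f_pm_123_a t 51 255 1 = true := ex3_b k13_pm_123_a k14_pm_123_a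

theorem s40_pm_123_a : ∃ t, chk3 f_pm_123_a t 51 127 1 = true := ex3_b k12_pm_123_a s39_pm_123_a

theorem s41_pm_123_a : ∃ t, chk3 f_pm_123_a t 25 127 1 = true := ex3_a k11_pm_123_a s40_pm_123_a

theorem s42_pm_123_a : ∃ t, chk3 f_pm_123_a t 25 63 1 = true := ex3_b k10_pm_123_a s41_pm_123_a

theorem s43_pm_123_a : ∃ t, chk3 f_pm_123_a t 25 31 1 = true := ex3_b k9_pm_123_a s42_pm_123_a

theorem s44_pm_123_a : ∃ t, chk3 f_pm_123_a t 25 15 1 = true := ex3_b k8_pm_123_a s43_pm_123_a

theorem s45_pm_123_a : ∃ t, chk3 f_pm_123_a t 12 15 1 = true := ex3_a k7_pm_123_a s44_pm_123_a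

theorem s46_pm_123_a : ∃ t, chk3 f_pm_123_a t 12 7 1 = true := ex3_b k6_pm_123_a s45_pm_123_a

theorem s47_pm_123_a : ∃ t, chk3 f_pm_123_a t 12 3 1 = true := ex3_b k5_pm_123_a s46_pm_123_a

theorem s48_pm_123_a : ∃ t, chk3 f_pm_123_a t 6 3 1 = true := ex3_a s47_pm_123_a s38_pm_123_a

theorem s49_pm_123_a : ∃ t, chk3 f_pm_123_a t 3 3 1 = true := ex3_a s48_pm_123_a s30_pm_123_a

theorem s50_pm_123_a : ∃ t, chk3 f_pm_123_a t 3 1 1 = true := ex3_b k4_pm_123_a s49_pm_123_a

theorem s51_pm_123_a : ∃ t, chk3 f_pm_123_a t 5 3 1 = true := ex3_a k2_pm_123_a k3_pm_123_a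

theorem s52_pm_123_a : ∃ t, chk3 f_pm_123_a t 5 1 1 = true := ex3_b k1_pm_123_a s51_pm_123_a

theorem s53_pm_123_a : ∃ t, chk3 f_pm_123_a t 2 1 1 = true := ex3_a k0_pm_123_a s52_pm_123_a

theorem s54_pm_123_a : ∃ t, chk3 f_pm_123_a t 1 1 1 = true := ex3_a s53_pm_123_a s50_pm_123_a

theorem c_pm_123_a : CertB 536870912 536870912 0 536870912 818728140 40265320 3 eng mog cd0q1 cd1q2a pd3 true true false .npn 1 2 3
    ndB0q1 ndB1q2a pcB3 cut_pm_123_a xt_pm_123_a :=
  certB2 (fam := true) (s1 := true) (s2 := false) (a := 1) (b := 2) (c := 3) (cn := .npn) (n1 := ndB0q1) (n2 := ndB1q2a) (pc := pcB3) (cut := cut_pm_123_a) (xt := xt_pm_123_a) (P1 := 536870912) (W1 := 536870912) (P2 := 0) (W2 := 536870912) (P3 := 818728140) (W3 := 40265320) (N0 := 3) (En := eng) (mo := mog) (C1 := cd0q1) (C2 := cd1q2a) (C3 := pd3)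
    rfl (fun _ => rfl) s54_pm_123_a

noncomputable def cut_pm_123_b : Cut := Cut.of [[⟨0, 1, 0, 67108864⟩, ⟨1, 1, 0, 67108864⟩, ⟨2, 2, 0, 16777216⟩], [⟨0, 0, 1, 26214400⟩, ⟨1, 1, 0, 33554432⟩, ⟨2, 1, 1, 26214400⟩]]

noncomputable def f_pm_123_b : ℕ → ℕ → ℕ → ℕ → Bool := onCell 1610612736 536870912 1239849684 370763052 818728140 40265320
    (rowB 3 eng mog cd0q1 cd1q2b pd3 2 true true false .npn 1 2 3 (qsf 536870912 536870912 1239849684 370763052 3) ndB0q1 ndB1q2b pcB3 cut_pm_123_b Ext.none)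

def k0_pm_123_b : ∃ t, chk3 f_pm_123_b t 1 1 1 = true :=
  ⟨(a (b (a (l 1) (b (a (b (a (l 16579560) (b (l 16610760) (l 16593200))) (l 1)) (b (a (l 16624416) (l 16641008)) (a (l 16600104) (l 16630456)))) (a (l 1) (a (l 1) (b (l 16589928) (l 1)))))) (l 1)) (b (a (a (b (b (a (l 16657728) (b (l 16683728) (l 16683952))) (a (l 16655400) (l 16675320))) (b (l 16742016) (l 149820519431))) (b (a (b (b (a (l 16703432) (l 16702040)) (a (l 16702856) (l 16711480))) (l 16707592)) (b (b (a (l 16740416) (l 16749728)) (a (l 16716944) (l 16723592))) (a (l 16689136) (b (l 16699792) (l 4))))) (a (b (l 16657656) (l 16582984)) (b (l 16660000) (l 4))))) (a (b (a (a (b (b (a (l 16754152) (l 16756168)) (l 73786066855)) (l 4)) (l 4)) (l 4)) (l 4)) (l 4))) (a (a (l 1) (b (a (b (l 16557112) (l 1)) (l 4)) (l 1))) (l 4)))), by decide +kernel⟩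

theorem c_pm_123_b : CertB 536870912 536870912 1239849684 370763052 818728140 40265320 3 eng mog cd0q1 cd1q2b pd3 true true false .npn 1 2 3
    ndB0q1 ndB1q2b pcB3 cut_pm_123_b Ext.none :=
  certB2 (fam := true) (s1 := true) (s2 := false) (a := 1) (b := 2) (c := 3) (cn := .npn) (n1 := ndB0q1) (n2 := ndB1q2b) (pc := pcB3) (cut := cut_pm_123_b) (xt := Ext.none) (P1 := 536870912) (W1 := 536870912) (P2 := 1239849684) (W2 := 370763052) (P3 := 818728140) (W3 := 40265320) (N0 := 3) (En := eng) (mo := mog) (C1 := cd0q1) (C2 := cd1q2b) (C3 := pd3)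
    rfl (fun _ => rfl) k0_pm_123_b

noncomputable def f_pm_133 : ℕ → ℕ → ℕ → ℕ → Bool := onCell 536870912 536870912 1610612736 536870912 818728140 40265320
    (rowB 3 eng mog cd0q1 cd1q3 pd3 0 true true false .dn 1 3 3 (qsf 536870912 536870912 1610612736 536870912 3) ndB0q1 ndB1q3 pcB3 Cut.none Ext.none)

def k0_pm_133 : ∃ t, chk3 f_pm_133 t 1 1 1 = true :=
  ⟨(l 4), by decide +kernel⟩

theorem c_pm_133 : CertB 536870912 536870912 1610612736 536870912 818728140 40265320 3 eng mog cd0q1 cd1q3 pd3 true true false .dn 1 3 3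
    ndB0q1 ndB1q3 pcB3 Cut.none Ext.none :=
  certB0 (fam := true) (s1 := true) (s2 := false) (a := 1) (b := 3) (c := 3) (cn := .dn) (n1 := ndB0q1) (n2 := ndB1q3) (pc := pcB3) (cut := Cut.none) (xt := Ext.none) (P1 := 536870912) (W1 := 536870912) (P2 := 1610612736) (W2 := 536870912) (P3 := 818728140) (W3 := 40265320) (N0 := 3) (En := eng) (mo := mog) (C1 := cd0q1) (C2 := cd1q3) (C3 := pd3)
    rfl k0_pm_133

noncomputable def cut_pm_202 : Cut := Cut.of [[⟨0, 1, 0, 67108864⟩, ⟨1, 0, 0, 67108864⟩, ⟨2, 1, 0, 67108864⟩]]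

noncomputable def f_pm_202 : ℕ → ℕ → ℕ → ℕ → Bool := onCell 0 536870912 1073741824 536870912 818728140 40265320
    (rowB 3 eng mog cd0q2 cd1q0 pd2 1 true true false .pp 2 0 2 (qsf 0 536870912 0 536870912 2) ndB0q2 ndB1q0 pcB2 cut_pm_202 Ext.none)

def k0_pm_202 : ∃ t, chk3 f_pm_202 t 2 1 1 = true :=
  ⟨(b (a (b (l 1) (b (b (b (l 1) (a (a (l 16297600) (l 16291736)) (a (l 16291952) (l 16300392)))) (a (a (l 16321560) (l 16315480)) (a (l 16315200) (l 16322616)))) (a (b (a (l 16355680) (l 16347808)) (l 16531056)) (b (l 16350832) (l 16381528))))) (b (b (l 1) (b (l 1) (a (l 1) (b (l 1) (a (l 1) (b (l 1) (l 16356552))))))) (b (b (a (b (a (l 16302696) (b (l 1) (l 16322376))) (a (l 16315192) (l 16331128))) (b (a (b (l 16336800) (l 16342016)) (b (l 16361136) (l 16365808))) (a (l 16350048) (l 16373008)))) (a (a (l 16336032) (l 16350728)) (a (l 16368328) (l 16389760)))) (a (b (l 16371360) (l 16398456)) (b (l 16403216) (l 16426232)))))) (b (a (b (a (b (l 16415592) (l 16451104)) (b (l 16413288)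 (l 16423008))) (a (l 16501616) (l 16488968))) (b (a (l 16418432) (l 16461576)) (a (l 16494224) (l 16503768)))) (a (b (b (l 16539104) (l 16550224)) (l 16563912)) (b (a (l 16518688) (l 16493760)) (a (l 16520256) (l 16487296)))))), by decide +kernel⟩

def k1_pm_202 : ∃ t, chk3 f_pm_202 t 3 4 1 = true :=
  ⟨(b (a (l 1) (a (b (l 1) (a (b (l 1) (b (l 1) (a (l 1) (a (b (l 1) (l 219076437687)) (b (l 6) (l 16580392)))))) (b (l 6) (b (l 6) (b (l 6) (a (l 16591536) (l 16630712))))))) (b (l 6) (b (l 6) (b (l 6) (a (a (l 16638928) (l 16689456)) (l 16618640))))))) (a (a (b (l 1) (b (a (b (l 1) (a (l 1) (l 199211934599))) (b (a (l 1) (b (a (l 1) (l 199748869991)) (l 115996998279))) (a (l 306586148423) (l 233571741111)))) (a (b (a (l 16373672) (l 16389560)) (l 16385544)) (b (l 16437384) (l 16419600))))) (b (b (a (l 1) (b (l 1) (a (a (l 1) (l 131029481031)) (a (b (l 16508000) (l 16497552)) (b (l 237329965207) (l 16521800)))))) (a (a (b (l 1) (a (l 1) (l 222834347511))) (b (a (l 1) (l 168610413735))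 (a (l 259341590919) (l 329134830999)))) (a (b (a (l 228739976295) (l 293164507191)) (l 16489120)) (b (a (l 16508200) (l 16521760)) (l 16515280))))) (b (a (a (b (a (b (l 267394622647) (l 16436600)) (l 16447480)) (l 16475352)) (b (l 16465336) (l 16466832))) (a (l 16490568) (l 16515968))) (a (a (l 16447440) (l 16469392)) (l 16505112))))) (a (b (a (b (a (b (a (b (l 1) (l 228203183383)) (b (l 222297631831) (l 16550672))) (a (l 16535880) (l 16550008))) (b (a (b (l 16565640) (l 16564944)) (l 16579544)) (l 16571112))) (a (b (l 16542488) (l 16542200)) (l 16569584))) (b (a (b (l 16600880) (l 16598920)) (l 16585904)) (l 16547128))) (a (b (l 16492416) (l 16554960)) (b (l 16606944) (l 16604360)))) (b (a (b (a (l 16656056) (l 16684688)) (l 16664096)) (a (l 16682728) (b (l 16657184) (l 16635696)))) (a (l 16638392) (a (l 16597024) (l 16601648))))))), by decide +kernel⟩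

def k2_pm_202 : ∃ t, chk3 f_pm_202 t 3 5 1 = true :=
  ⟨(a (b (a (b (a (b (l 16391560) (l 16399832)) (b (l 16424512) (l 16431264))) (a (l 16414800) (l 16444056))) (b (b (a (l 16462864) (l 16507136)) (a (l 16467904) (b (l 16508440) (b (l 16509088) (l 16509432))))) (a (l 16477960) (l 16515128)))) (a (b (l 16427576) (l 16466584)) (b (l 16487536) (l 16519712)))) (b (a (b (b (a (l 16554768) (l 16602032)) (b (l 16515008) (a (l 16553936) (l 16599280)))) (a (l 16556288) (l 16577288))) (b (b (a (l 16605880) (l 16575224)) (b (a (l 16589448) (l 16557104)) (a (l 16577968) (l 16543944)))) (a (l 16548680) (l 16512120)))) (a (a (l 16541712) (l 16515152)) (a (l 16504064) (l 16443104))))), by decide +kernel⟩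

def k3_pm_202 : ∃ t, chk3 f_pm_202 t 3 3 1 = true :=
  ⟨(b (a (b (a (l 16493904) (l 16507728)) (a (l 16495752) (l 16453680))) (a (b (a (l 16470352) (l 16419888)) (l 16384456)) (b (a (l 16487040) (l 16353592)) (l 16457088)))) (a (a (b (l 16461896) (l 16442896)) (b (l 16405224) (l 16379640))) (a (b (l 16324344) (l 16295848)) (b (l 16226408) (l 16200088))))), by decide +kernel⟩

theorem s4_pm_202 : ∃ t, chk3 f_pm_202 t 3 2 1 = true := ex3_b k1_pm_202 k2_pm_202

theorem s5_pm_202 : ∃ t, chk3 f_pm_202 t 3 1 1 = true := ex3_b s4_pm_202 k3_pm_202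

theorem s6_pm_202 : ∃ t, chk3 f_pm_202 t 1 1 1 = true := ex3_a k0_pm_202 s5_pm_202

theorem c_pm_202 : CertB 0 536870912 0 536870912 818728140 40265320 3 eng mog cd0q2 cd1q0 pd2 true true false .pp 2 0 2
    ndB0q2 ndB1q0 pcB2 cut_pm_202 Ext.none :=
  certB1 (fam := true) (s1 := true) (s2 := false) (a := 2) (b := 0) (c := 2) (cn := .pp) (n1 := ndB0q2) (n2 := ndB1q0) (pc := pcB2) (cut := cut_pm_202) (xt := Ext.none) (P1 := 0) (W1 := 536870912) (P2 := 0) (W2 := 536870912) (P3 := 818728140) (W3 := 40265320) (N0 := 3) (En := eng) (mo := mog) (C1 := cd0q2) (C2 := cd1q0) (C3 := pd2)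
    rfl (fun _ => rfl) s6_pm_202

noncomputable def f_pm_203 : ℕ → ℕ → ℕ → ℕ → Bool := onCell 0 536870912 1610612736 536870912 818728140 40265320
    (rowB 3 eng mog cd0q2 cd1q0 pd3 1 true true false .up 2 0 3 (qsf 0 536870912 0 536870912 3) ndB0q2 ndB1q0 pcB3 Cut.none Ext.none)

def k0_pm_203 : ∃ t, chk3 f_pm_203 t 1 1 1 = true :=
  ⟨(b (b (a (b (a (l 16600448) (l 16540944)) (a (b (l 16616800) (l 16633168)) (l 16620816))) (a (b (a (l 16477024) (l 16403648)) (a (l 16492104) (l 16425816))) (a (l 16428992) (b (l 16214872) (l 2))))) (a (b (a (l 32984198471) (b (l 16586624) (l 2))) (l 2)) (a (l 2) (l 2)))) (l 2)), by decide +kernel⟩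

theorem c_pm_203 : CertB 0 536870912 0 536870912 818728140 40265320 3 eng mog cd0q2 cd1q0 pd3 true true false .up 2 0 3
    ndB0q2 ndB1q0 pcB3 Cut.none Ext.none :=
  certB1 (fam := true) (s1 := true) (s2 := false) (a := 2) (b := 0) (c := 3) (cn := .up) (n1 := ndB0q2) (n2 := ndB1q0) (pc := pcB3) (cut := Cut.none) (xt := Ext.none) (P1 := 0) (W1 := 536870912) (P2 := 0) (W2 := 536870912) (P3 := 818728140) (W3 := 40265320) (N0 := 3) (En := eng) (mo := mog) (C1 := cd0q2) (C2 := cd1q0) (C3 := pd3)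
    rfl (fun _ => rfl) k0_pm_203

noncomputable def f_pm_213 : ℕ → ℕ → ℕ → ℕ → Bool := onCell 0 536870912 1610612736 536870912 818728140 40265320
    (rowB 3 eng mog cd0q2 cd1q1 pd3 1 true true false .pnn 2 1 3 (qsf 0 536870912 536870912 536870912 3) ndB0q2 ndB1q1 pcB3 Cut.none Ext.none)

def k0_pm_213 : ∃ t, chk3 f_pm_213 t 1 1 1 = true :=
  ⟨(a (b (b (b (l 1) (a (l 1) (l 16514912))) (b (a (b (l 16545936) (l 4)) (b (l 16553944) (l 16576880))) (a (l 4) (b (l 16594760) (l 16604064))))) (b (b (a (l 4) (l 16395112)) (l 4)) (l 4))) (b (b (a (b (l 1) (a (l 16472472) (l 16416104))) (a (l 16314544) (b (l 16203456) (l 16267072)))) (b (a (a (l 16526168) (l 16479384)) (a (l 16421968) (l 16372440))) (a (l 16580712) (a (l 16543400) (l 16550368))))) (a (b (b (a (l 16635488) (l 16682144)) (a (l 4) (b (l 16703704) (l 16679328)))) (l 4)) (b (b (a (l 16725872) (l 16855120)) (b (a (l 16801512) (l 16897424)) (a (l 16771672) (l 16856304)))) (b (a (b (l 16734312) (l 4)) (b (l 16818680) (l 16858328)))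 (l 4)))))), by decide +kernel⟩

theorem c_pm_213 : CertB 0 536870912 536870912 536870912 818728140 40265320 3 eng mog cd0q2 cd1q1 pd3 true true false .pnn 2 1 3
    ndB0q2 ndB1q1 pcB3 Cut.none Ext.none :=
  certB1 (fam := true) (s1 := true) (s2 := false) (a := 2) (b := 1) (c := 3) (cn := .pnn) (n1 := ndB0q2) (n2 := ndB1q1) (pc := pcB3) (cut := Cut.none) (xt := Ext.none) (P1 := 0) (W1 := 536870912) (P2 := 536870912) (W2 := 536870912) (P3 := 818728140) (W3 := 40265320) (N0 := 3) (En := eng) (mo := mog) (C1 := cd0q2) (C2 := cd1q1) (C3 := pd3)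
    rfl (fun _ => rfl) k0_pm_213

noncomputable def f_mm_001 : ℕ → ℕ → ℕ → ℕ → Bool := onCell 0 536870912 0 536870912 818728140 40265320
    (rowB 3 eng mog cd0q0 cd1q0 pd1 0 true false false .up 0 0 1 (qsf 0 536870912 0 536870912 1) ndB0q0 ndB1q0 pcB1 Cut.none Ext.none)

def k0_mm_001 : ∃ t, chk3 f_mm_001 t 1 1 1 = true :=
  ⟨(l 4), by decide +kernel⟩

theorem c_mm_001 : CertB 0 536870912 0 536870912 818728140 40265320 3 eng mog cd0q0 cd1q0 pd1 true false false .up 0 0 1
    ndB0q0 ndB1q0 pcB1 Cut.none Ext.none :=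
  certB0 (fam := true) (s1 := false) (s2 := false) (a := 0) (b := 0) (c := 1) (cn := .up) (n1 := ndB0q0) (n2 := ndB1q0) (pc := pcB1) (cut := Cut.none) (xt := Ext.none) (P1 := 0) (W1 := 536870912) (P2 := 0) (W2 := 536870912) (P3 := 818728140) (W3 := 40265320) (N0 := 3) (En := eng) (mo := mog) (C1 := cd0q0) (C2 := cd1q0) (C3 := pd1)
    rfl k0_mm_001

noncomputable def f_mm_011 : ℕ → ℕ → ℕ → ℕ → Bool := onCell 0 536870912 536870912 536870912 818728140 40265320
    (rowB 3 eng mog cd0q0 cd1q1 pd1 0 true false false .pnn 0 1 1 (qsf 0 536870912 536870912 536870912 1) ndB0q0 ndB1q1 pcB1 Cut.none Ext.none)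

def k0_mm_011 : ∃ t, chk3 f_mm_011 t 1 1 1 = true :=
  ⟨(l 4), by decide +kernel⟩

theorem c_mm_011 : CertB 0 536870912 536870912 536870912 818728140 40265320 3 eng mog cd0q0 cd1q1 pd1 true false false .pnn 0 1 1
    ndB0q0 ndB1q1 pcB1 Cut.none Ext.none :=
  certB0 (fam := true) (s1 := false) (s2 := false) (a := 0) (b := 1) (c := 1) (cn := .pnn) (n1 := ndB0q0) (n2 := ndB1q1) (pc := pcB1) (cut := Cut.none) (xt := Ext.none) (P1 := 0) (W1 := 536870912) (P2 := 536870912) (W2 := 536870912) (P3 := 818728140) (W3 := 40265320) (N0 := 3) (En := eng) (mo := mog) (C1 := cd0q0) (C2 := cd1q1) (C3 := pd1)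
    rfl k0_mm_011

noncomputable def f_mm_012 : ℕ → ℕ → ℕ → ℕ → Bool := onCell 0 536870912 536870912 536870912 818728140 40265320
    (rowB 3 eng mog cd0q0 cd1q1 pd2 0 true false false .pnp 0 1 2 (qsf 0 536870912 536870912 536870912 2) ndB0q0 ndB1q1 pcB2 Cut.none Ext.none)

def k0_mm_012 : ∃ t, chk3 f_mm_012 t 1 1 1 = true :=
  ⟨(l 4), by decide +kernel⟩

theorem c_mm_012 : CertB 0 536870912 536870912 536870912 818728140 40265320 3 eng mog cd0q0 cd1q1 pd2 true false false .pnp 0 1 2
    ndB0q0 ndB1q1 pcB2 Cut.none Ext.none :=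
  certB0 (fam := true) (s1 := false) (s2 := false) (a := 0) (b := 1) (c := 2) (cn := .pnp) (n1 := ndB0q0) (n2 := ndB1q1) (pc := pcB2) (cut := Cut.none) (xt := Ext.none) (P1 := 0) (W1 := 536870912) (P2 := 536870912) (W2 := 536870912) (P3 := 818728140) (W3 := 40265320) (N0 := 3) (En := eng) (mo := mog) (C1 := cd0q0) (C2 := cd1q1) (C3 := pd2)
    rfl k0_mm_012

noncomputable def f_mm_022_a : ℕ → ℕ → ℕ → ℕ → Bool := onCell 0 536870912 0 536870912 818728140 40265320
    (rowB 3 eng mog cd0q0 cd1q2a pd2 0 true false false .pp 0 2 2 (qsf 0 536870912 0 536870912 2) ndB0q0 ndB1q2a pcB2 Cut.none Ext.none)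

def k0_mm_022_a : ∃ t, chk3 f_mm_022_a t 1 1 1 = true :=
  ⟨(l 5), by decide +kernel⟩

theorem c_mm_022_a : CertB 0 536870912 0 536870912 818728140 40265320 3 eng mog cd0q0 cd1q2a pd2 true false false .pp 0 2 2
    ndB0q0 ndB1q2a pcB2 Cut.none Ext.none :=
  certB0 (fam := true) (s1 := false) (s2 := false) (a := 0) (b := 2) (c := 2) (cn := .pp) (n1 := ndB0q0) (n2 := ndB1q2a) (pc := pcB2) (cut := Cut.none) (xt := Ext.none) (P1 := 0) (W1 := 536870912) (P2 := 0) (W2 := 536870912) (P3 := 818728140) (W3 := 40265320) (N0 := 3) (En := eng) (mo := mog) (C1 := cd0q0) (C2 := cd1q2a) (C3 := pd2)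
    rfl k0_mm_022_a

noncomputable def f_mm_022_b : ℕ → ℕ → ℕ → ℕ → Bool := onCell 0 536870912 1239849684 370763052 818728140 40265320
    (rowB 3 eng mog cd0q0 cd1q2b pd2 0 true false false .pp 0 2 2 (qsf 0 536870912 1239849684 370763052 2) ndB0q0 ndB1q2b pcB2 Cut.none Ext.none)

def k0_mm_022_b : ∃ t, chk3 f_mm_022_b t 1 1 1 = true :=
  ⟨(l 5), by decide +kernel⟩

theorem c_mm_022_b : CertB 0 536870912 1239849684 370763052 818728140 40265320 3 eng mog cd0q0 cd1q2b pd2 true false false .pp 0 2 2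
    ndB0q0 ndB1q2b pcB2 Cut.none Ext.none :=
  certB0 (fam := true) (s1 := false) (s2 := false) (a := 0) (b := 2) (c := 2) (cn := .pp) (n1 := ndB0q0) (n2 := ndB1q2b) (pc := pcB2) (cut := Cut.none) (xt := Ext.none) (P1 := 0) (W1 := 536870912) (P2 := 1239849684) (W2 := 370763052) (P3 := 818728140) (W3 := 40265320) (N0 := 3) (En := eng) (mo := mog) (C1 := cd0q0) (C2 := cd1q2b) (C3 := pd2)
    rfl k0_mm_022_b

noncomputable def f_mm_023_a : ℕ → ℕ → ℕ → ℕ → Bool := onCell 0 536870912 0 536870912 818728140 40265320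
    (rowB 3 eng mog cd0q0 cd1q2a pd3 0 true false false .up 0 2 3 (qsf 0 536870912 0 536870912 3) ndB0q0 ndB1q2a pcB3 Cut.none Ext.none)

def k0_mm_023_a : ∃ t, chk3 f_mm_023_a t 1 1 1 = true :=
  ⟨(l 5), by decide +kernel⟩

theorem c_mm_023_a : CertB 0 536870912 0 536870912 818728140 40265320 3 eng mog cd0q0 cd1q2a pd3 true false false .up 0 2 3
    ndB0q0 ndB1q2a pcB3 Cut.none Ext.none :=
  certB0 (fam := true) (s1 := false) (s2 := false) (a := 0) (b := 2) (c := 3) (cn := .up) (n1 := ndB0q0) (n2 := ndB1q2a) (pc := pcB3) (cut := Cut.none) (xt := Ext.none) (P1 := 0) (W1 := 536870912) (P2 := 0) (W2 := 536870912) (P3 := 818728140) (W3 := 40265320) (N0 := 3) (En := eng) (mo := mog) (C1 := cd0q0) (C2 := cd1q2a) (C3 := pd3)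
    rfl k0_mm_023_a

noncomputable def f_mm_023_b : ℕ → ℕ → ℕ → ℕ → Bool := onCell 0 536870912 1239849684 370763052 818728140 40265320
    (rowB 3 eng mog cd0q0 cd1q2b pd3 0 true false false .up 0 2 3 (qsf 0 536870912 1239849684 370763052 3) ndB0q0 ndB1q2b pcB3 Cut.none Ext.none)

def k0_mm_023_b : ∃ t, chk3 f_mm_023_b t 1 1 1 = true :=
  ⟨(l 5), by decide +kernel⟩

theorem c_mm_023_b : CertB 0 536870912 1239849684 370763052 818728140 40265320 3 eng mog cd0q0 cd1q2b pd3 true false false .up 0 2 3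
    ndB0q0 ndB1q2b pcB3 Cut.none Ext.none :=
  certB0 (fam := true) (s1 := false) (s2 := false) (a := 0) (b := 2) (c := 3) (cn := .up) (n1 := ndB0q0) (n2 := ndB1q2b) (pc := pcB3) (cut := Cut.none) (xt := Ext.none) (P1 := 0) (W1 := 536870912) (P2 := 1239849684) (W2 := 370763052) (P3 := 818728140) (W3 := 40265320) (N0 := 3) (En := eng) (mo := mog) (C1 := cd0q0) (C2 := cd1q2b) (C3 := pd3)
    rfl k0_mm_023_b

noncomputable def f_mm_033 : ℕ → ℕ → ℕ → ℕ → Bool := onCell 0 536870912 1610612736 536870912 818728140 40265320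
    (rowB 3 eng mog cd0q0 cd1q3 pd3 0 true false false .pnn 0 3 3 (qsf 0 536870912 1610612736 536870912 3) ndB0q0 ndB1q3 pcB3 Cut.none Ext.none)

def k0_mm_033 : ∃ t, chk3 f_mm_033 t 1 1 1 = true :=
  ⟨(l 5), by decide +kernel⟩

theorem c_mm_033 : CertB 0 536870912 1610612736 536870912 818728140 40265320 3 eng mog cd0q0 cd1q3 pd3 true false false .pnn 0 3 3
    ndB0q0 ndB1q3 pcB3 Cut.none Ext.none :=
  certB0 (fam := true) (s1 := false) (s2 := false) (a := 0) (b := 3) (c := 3) (cn := .pnn) (n1 := ndB0q0) (n2 := ndB1q3) (pc := pcB3) (cut := Cut.none) (xt := Ext.none) (P1 := 0) (W1 := 536870912) (P2 := 1610612736) (W2 := 536870912) (P3 := 818728140) (W3 := 40265320) (N0 := 3) (En := eng) (mo := mog) (C1 := cd0q0) (C2 := cd1q3) (C3 := pd3)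
    rfl k0_mm_033

noncomputable def cut_mm_101 : Cut := Cut.of [[⟨0, 1, 0, 67108864⟩, ⟨1, 0, 0, 67108864⟩, ⟨2, 1, 0, 67108864⟩]]

noncomputable def f_mm_101 : ℕ → ℕ → ℕ → ℕ → Bool := onCell 536870912 536870912 0 536870912 818728140 40265320
    (rowB 3 eng mog cd0q1 cd1q0 pd1 0 true false false .npn 1 0 1 (qsf 536870912 536870912 0 536870912 1) ndB0q1 ndB1q0 pcB1 cut_mm_101 Ext.none)

def k0_mm_101 : ∃ t, chk3 f_mm_101 t 1 1 1 = true :=
  ⟨(a (l 4) (b (a (l 4) (b (a (l 4) (b (a (l 4) (b (l 6) (l 4))) (l 4))) (l 4))) (l 4))), by decide +kernel⟩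

theorem c_mm_101 : CertB 536870912 536870912 0 536870912 818728140 40265320 3 eng mog cd0q1 cd1q0 pd1 true false false .npn 1 0 1
    ndB0q1 ndB1q0 pcB1 cut_mm_101 Ext.none :=
  certB0 (fam := true) (s1 := false) (s2 := false) (a := 1) (b := 0) (c := 1) (cn := .npn) (n1 := ndB0q1) (n2 := ndB1q0) (pc := pcB1) (cut := cut_mm_101) (xt := Ext.none) (P1 := 536870912) (W1 := 536870912) (P2 := 0) (W2 := 536870912) (P3 := 818728140) (W3 := 40265320) (N0 := 3) (En := eng) (mo := mog) (C1 := cd0q1) (C2 := cd1q0) (C3 := pd1)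
    rfl k0_mm_101

noncomputable def cut_mm_102 : Cut := Cut.of [[⟨0, 1, 0, 67108864⟩, ⟨1, 0, 0, 67108864⟩, ⟨2, 1, 0, 67108864⟩]]

noncomputable def f_mm_102 : ℕ → ℕ → ℕ → ℕ → Bool := onCell 536870912 536870912 0 536870912 818728140 40265320
    (rowB 3 eng mog cd0q1 cd1q0 pd2 0 true false false .npp 1 0 2 (qsf 536870912 536870912 0 536870912 2) ndB0q1 ndB1q0 pcB2 cut_mm_102 Ext.none)

def k0_mm_102 : ∃ t, chk3 f_mm_102 t 1 1 1 = true :=
  ⟨(a (l 4) (b (a (l 4) (b (a (l 4) (a (l 4) (b (b (l 6) (l 4)) (l 4)))) (l 4))) (l 4))), by decide +kernel⟩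

theorem c_mm_102 : CertB 536870912 536870912 0 536870912 818728140 40265320 3 eng mog cd0q1 cd1q0 pd2 true false false .npp 1 0 2
    ndB0q1 ndB1q0 pcB2 cut_mm_102 Ext.none :=
  certB0 (fam := true) (s1 := false) (s2 := false) (a := 1) (b := 0) (c := 2) (cn := .npp) (n1 := ndB0q1) (n2 := ndB1q0) (pc := pcB2) (cut := cut_mm_102) (xt := Ext.none) (P1 := 536870912) (W1 := 536870912) (P2 := 0) (W2 := 536870912) (P3 := 818728140) (W3 := 40265320) (N0 := 3) (En := eng) (mo := mog) (C1 := cd0q1) (C2 := cd1q0) (C3 := pd2)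
    rfl k0_mm_102

noncomputable def f_mm_112 : ℕ → ℕ → ℕ → ℕ → Bool := onCell 536870912 536870912 536870912 536870912 818728140 40265320
    (rowB 3 eng mog cd0q1 cd1q1 pd2 0 true false false .dn 1 1 2 (qsf 536870912 536870912 536870912 536870912 2) ndB0q1 ndB1q1 pcB2 Cut.none Ext.none)

def k0_mm_112 : ∃ t, chk3 f_mm_112 t 1 1 1 = true :=
  ⟨(l 4), by decide +kernel⟩

theorem c_mm_112 : CertB 536870912 536870912 536870912 536870912 818728140 40265320 3 eng mog cd0q1 cd1q1 pd2 true false false .dn 1 1 2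
    ndB0q1 ndB1q1 pcB2 Cut.none Ext.none :=
  certB0 (fam := true) (s1 := false) (s2 := false) (a := 1) (b := 1) (c := 2) (cn := .dn) (n1 := ndB0q1) (n2 := ndB1q1) (pc := pcB2) (cut := Cut.none) (xt := Ext.none) (P1 := 536870912) (W1 := 536870912) (P2 := 536870912) (W2 := 536870912) (P3 := 818728140) (W3 := 40265320) (N0 := 3) (En := eng) (mo := mog) (C1 := cd0q1) (C2 := cd1q1) (C3 := pd2)
    rfl k0_mm_112

noncomputable def f_mm_113 : ℕ → ℕ → ℕ → ℕ → Bool := onCell 536870912 536870912 536870912 536870912 818728140 40265320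
    (rowB 3 eng mog cd0q1 cd1q1 pd3 0 true false false .nn 1 1 3 (qsf 536870912 536870912 536870912 536870912 3) ndB0q1 ndB1q1 pcB3 Cut.none Ext.none)

def k0_mm_113 : ∃ t, chk3 f_mm_113 t 1 1 1 = true :=
  ⟨(l 4), by decide +kernel⟩

theorem c_mm_113 : CertB 536870912 536870912 536870912 536870912 818728140 40265320 3 eng mog cd0q1 cd1q1 pd3 true false false .nn 1 1 3
    ndB0q1 ndB1q1 pcB3 Cut.none Ext.none :=
  certB0 (fam := true) (s1 := false) (s2 := false) (a := 1) (b := 1) (c := 3) (cn := .nn) (n1 := ndB0q1) (n2 := ndB1q1) (pc := pcB3) (cut := Cut.none) (xt := Ext.none) (P1 := 536870912) (W1 := 536870912) (P2 := 536870912) (W2 := 536870912) (P3 := 818728140) (W3 := 40265320) (N0 := 3) (En := eng) (mo := mog) (C1 := cd0q1) (C2 := cd1q1) (C3 := pd3)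
    rfl k0_mm_113

noncomputable def f_mm_123_a : ℕ → ℕ → ℕ → ℕ → Bool := onCell 536870912 536870912 0 536870912 818728140 40265320
    (rowB 3 eng mog cd0q1 cd1q2a pd3 0 true false false .npn 1 2 3 (qsf 536870912 536870912 0 536870912 3) ndB0q1 ndB1q2a pcB3 Cut.none Ext.none)

def k0_mm_123_a : ∃ t, chk3 f_mm_123_a t 1 1 1 = true :=
  ⟨(l 4), by decide +kernel⟩

theorem c_mm_123_a : CertB 536870912 536870912 0 536870912 818728140 40265320 3 eng mog cd0q1 cd1q2a pd3 true false false .npn 1 2 3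
    ndB0q1 ndB1q2a pcB3 Cut.none Ext.none :=
  certB0 (fam := true) (s1 := false) (s2 := false) (a := 1) (b := 2) (c := 3) (cn := .npn) (n1 := ndB0q1) (n2 := ndB1q2a) (pc := pcB3) (cut := Cut.none) (xt := Ext.none) (P1 := 536870912) (W1 := 536870912) (P2 := 0) (W2 := 536870912) (P3 := 818728140) (W3 := 40265320) (N0 := 3) (En := eng) (mo := mog) (C1 := cd0q1) (C2 := cd1q2a) (C3 := pd3)
    rfl k0_mm_123_a

noncomputable def f_mm_123_b : ℕ → ℕ → ℕ → ℕ → Bool := onCell 536870912 536870912 1239849684 370763052 818728140 40265320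
    (rowB 3 eng mog cd0q1 cd1q2b pd3 0 true false false .npn 1 2 3 (qsf 536870912 536870912 1239849684 370763052 3) ndB0q1 ndB1q2b pcB3 Cut.none Ext.none)

def k0_mm_123_b : ∃ t, chk3 f_mm_123_b t 1 1 1 = true :=
  ⟨(l 5), by decide +kernel⟩

theorem c_mm_123_b : CertB 536870912 536870912 1239849684 370763052 818728140 40265320 3 eng mog cd0q1 cd1q2b pd3 true false false .npn 1 2 3
    ndB0q1 ndB1q2b pcB3 Cut.none Ext.none :=
  certB0 (fam := true) (s1 := false) (s2 := false) (a := 1) (b := 2) (c := 3) (cn := .npn) (n1 := ndB0q1) (n2 := ndB1q2b) (pc := pcB3) (cut := Cut.none) (xt := Ext.none) (P1 := 536870912) (W1 := 536870912) (P2 := 1239849684) (W2 := 370763052) (P3 := 818728140) (W3 := 40265320) (N0 := 3) (En := eng) (mo := mog) (C1 := cd0q1) (C2 := cd1q2b) (C3 := pd3)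
    rfl k0_mm_123_b

noncomputable def f_mm_133 : ℕ → ℕ → ℕ → ℕ → Bool := onCell 536870912 536870912 1610612736 536870912 818728140 40265320
    (rowB 3 eng mog cd0q1 cd1q3 pd3 0 true false false .dn 1 3 3 (qsf 536870912 536870912 1610612736 536870912 3) ndB0q1 ndB1q3 pcB3 Cut.none Ext.none)

def k0_mm_133 : ∃ t, chk3 f_mm_133 t 1 1 1 = true :=
  ⟨(l 4), by decide +kernel⟩

theorem c_mm_133 : CertB 536870912 536870912 1610612736 536870912 818728140 40265320 3 eng mog cd0q1 cd1q3 pd3 true false false .dn 1 3 3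
    ndB0q1 ndB1q3 pcB3 Cut.none Ext.none :=
  certB0 (fam := true) (s1 := false) (s2 := false) (a := 1) (b := 3) (c := 3) (cn := .dn) (n1 := ndB0q1) (n2 := ndB1q3) (pc := pcB3) (cut := Cut.none) (xt := Ext.none) (P1 := 536870912) (W1 := 536870912) (P2 := 1610612736) (W2 := 536870912) (P3 := 818728140) (W3 := 40265320) (N0 := 3) (En := eng) (mo := mog) (C1 := cd0q1) (C2 := cd1q3) (C3 := pd3)
    rfl k0_mm_133

noncomputable def cut_mm_202 : Cut := Cut.of [[⟨0, 1, 0, 67108864⟩, ⟨1, 0, 0, 67108864⟩, ⟨2, 1, 0, 67108864⟩]]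

noncomputable def f_mm_202 : ℕ → ℕ → ℕ → ℕ → Bool := onCell 0 536870912 0 536870912 818728140 40265320
    (rowB 3 eng mog cd0q2 cd1q0 pd2 0 true false false .pp 2 0 2 (qsf 0 536870912 0 536870912 2) ndB0q2 ndB1q0 pcB2 cut_mm_202 Ext.none)

def k0_mm_202 : ∃ t, chk3 f_mm_202 t 2 2 1 = true :=
  ⟨(b (a (b (b (a (a (b (l 16321952) (l 16338696)) (b (b (l 16330448) (l 16338672)) (l 16352672))) (b (a (l 16351520) (l 16366768)) (l 16376584))) (a (b (l 16382456) (l 16380760)) (a (l 16396104) (l 16412672)))) (a (b (l 16406816) (l 16440416)) (b (l 16439328) (l 16473192)))) (b (b (a (a (b (l 16382552) (l 16401600)) (b (b (l 16399016) (l 16408776)) (l 16423512))) (b (a (b (l 16424016) (l 16434040)) (b (l 16451600) (l 16461920))) (a (l 16449176) (b (l 16472272) (l 16482632))))) (a (a (l 16430216) (l 16452912)) (b (a (l 16469264) (l 16498144)) (l 16441120)))) (b (a (l 16394952) (l 16553968)) (a (l 16513832) (l 16569088))))) (a (a (b (l 16491224) (l 16554720)) (b (l 16524400) (l 16584016)))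 (b (a (b (l 16548304) (l 16583360)) (b (l 16603480) (l 16628920))) (a (b (l 16611448) (l 16628512)) (b (l 16651184) (l 16678752)))))), by decide +kernel⟩

def k1_mm_202 : ∃ t, chk3 f_mm_202 t 6 4 1 = true :=
  ⟨(b (a (b (a (b (a (b (l 16473840) (l 16484392)) (b (l 16489560) (l 16500256))) (a (l 16500304) (l 16516424))) (a (b (b (l 16505496) (l 16516352)) (l 16532776)) (b (b (c (l 16524896) (l 16517864)) (l 16532472)) (l 16507264)))) (b (a (l 16466888) (b (l 16536728) (l 16568680))) (a (l 16529808) (l 16585024)))) (b (a (b (a (b (a (l 16533416) (l 16520520)) (l 16527752)) (a (b (l 16532584) (l 16561016)) (b (a (l 16555768) (l 16559904)) (l 16569344)))) (b (a (l 16560056) (l 16576760)) (a (l 16571432) (l 16588376)))) (b (b (a (b (a (l 16563272) (l 16571680)) (a (l 16569056) (l 16577520))) (a (b (l 16580232) (l 16586128)) (c (l 16576632) (l 16575080)))) (a (c (l 16584688) (l 16579408)) (a (l 16595040) (l 16582928)))) (b (a (l 16593872) (l 16590536)) (c (l 16575288) (l 16570232)))))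 (a (b (a (l 16588560) (l 16605864)) (l 16620192)) (b (a (l 16623592) (l 16641848)) (a (l 16647280) (l 16666072)))))) (a (b (a (l 16581224) (l 16616688)) (a (l 16618216) (l 16638368))) (b (a (b (l 16642456) (l 16649808)) (b (l 16669848) (l 16676528))) (b (a (l 16656120) (l 16689704)) (a (l 16668136) (l 4)))))), by decide +kernel⟩

def k2_mm_202 : ∃ t, chk3 f_mm_202 t 7 4 1 = true :=
  ⟨(b (a (b (a (b (a (b (a (b (c (l 16599176) (l 16596440)) (l 16603832)) (b (c (l 16607992) (l 16605944)) (l 16613040))) (a (l 16591952) (l 16601248))) (b (a (b (c (b (l 16626232) (l 16618856)) (b (l 16614352) (l 16617352))) (l 16622696)) (b (a (b (l 6) (l 16625592)) (l 6)) (c (l 16633424) (l 16632256)))) (a (b (l 16628864) (l 16635048)) (b (l 16639040) (l 16645280))))) (a (b (a (l 16625112) (l 16634528)) (l 16621184)) (b (a (l 16644384) (l 16654688)) (l 16641104)))) (b (b (a (a (b (l 6) (c (l 16643808) (l 16643016))) (l 6)) (l 6)) (a (a (b (c (l 16650168) (l 16649176)) (l 16655944)) (b (c (l 16661064)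 (l 16660360)) (l 16646056))) (b (l 6) (a (l 16657528) (l 6))))) (a (b (c (l 16650656) (l 16649432)) (l 16683744)) (b (a (a (l 16664200) (l 16670064)) (c (l 16679440) (l 16678648))) (a (l 16700968) (l 16712960)))))) (b (a (a (l 16660760) (b (l 16674664) (l 16687280))) (a (b (l 16696528) (l 16709328)) (b (l 16719960) (l 16726760)))) (a (a (l 16685552) (l 16700944)) (a (b (l 16714376) (l 16720368)) (b (l 16734104) (l 4)))))) (b (a (b (l 6) (a (b (l 6) (a (l 16725240) (l 16737584))) (l 6))) (l 6)) (a (b (a (b (a (l 16734056) (l 16744176)) (l 16748248)) (l 4)) (l 4)) (l 4)))) (a (b (a (b (a (l 16691720) (l 16711096)) (a (l 16704928) (l 4))) (l 4)) (l 4)) (l 4))), by decide +kernel⟩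

def k3_mm_202 : ∃ t, chk3 f_mm_202 t 3 5 1 = true :=
  ⟨(a (b (a (b (a (l 16636912) (l 16660520)) (a (l 16661152) (l 4))) (a (b (l 16695200) (l 4)) (l 4))) (l 4)) (l 4)), by decide +kernel⟩

def k4_mm_202 : ∃ t, chk3 f_mm_202 t 1 3 1 = true :=
  ⟨(a (a (b (b (b (l 16593472) (l 16608712)) (a (l 16614368) (l 16651688))) (l 2)) (b (b (b (a (l 16649920) (l 4)) (l 4)) (l 4)) (l 4))) (l 4)), by decide +kernel⟩

theorem s5_mm_202 : ∃ t, chk3 f_mm_202 t 3 4 1 = true := ex3_a k1_mm_202 k2_mm_202

theorem s6_mm_202 : ∃ t, chk3 f_mm_202 t 3 2 1 = true := ex3_b s5_mm_202 k3_mm_202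

theorem s7_mm_202 : ∃ t, chk3 f_mm_202 t 1 2 1 = true := ex3_a k0_mm_202 s6_mm_202

theorem s8_mm_202 : ∃ t, chk3 f_mm_202 t 1 1 1 = true := ex3_b s7_mm_202 k4_mm_202

theorem c_mm_202 : CertB 0 536870912 0 536870912 818728140 40265320 3 eng mog cd0q2 cd1q0 pd2 true false false .pp 2 0 2
    ndB0q2 ndB1q0 pcB2 cut_mm_202 Ext.none :=
  certB0 (fam := true) (s1 := false) (s2 := false) (a := 2) (b := 0) (c := 2) (cn := .pp) (n1 := ndB0q2) (n2 := ndB1q0) (pc := pcB2) (cut := cut_mm_202) (xt := Ext.none) (P1 := 0) (W1 := 536870912) (P2 := 0) (W2 := 536870912) (P3 := 818728140) (W3 := 40265320) (N0 := 3) (En := eng) (mo := mog) (C1 := cd0q2) (C2 := cd1q0) (C3 := pd2)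
    rfl s8_mm_202

noncomputable def f_mm_203 : ℕ → ℕ → ℕ → ℕ → Bool := onCell 0 536870912 1610612736 536870912 818728140 40265320
    (rowB 3 eng mog cd0q2 cd1q0 pd3 1 true false false .up 2 0 3 (qsf 0 536870912 0 536870912 3) ndB0q2 ndB1q0 pcB3 Cut.none Ext.none)

def k0_mm_203 : ∃ t, chk3 f_mm_203 t 1 1 1 = true :=
  ⟨(b (a (b (b (a (a (l 16634544) (l 4)) (l 4)) (l 4)) (l 4)) (l 4)) (l 2)), by decide +kernel⟩

theorem c_mm_203 : CertB 0 536870912 0 536870912 818728140 40265320 3 eng mog cd0q2 cd1q0 pd3 true false false .up 2 0 3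
    ndB0q2 ndB1q0 pcB3 Cut.none Ext.none :=
  certB1 (fam := true) (s1 := false) (s2 := false) (a := 2) (b := 0) (c := 3) (cn := .up) (n1 := ndB0q2) (n2 := ndB1q0) (pc := pcB3) (cut := Cut.none) (xt := Ext.none) (P1 := 0) (W1 := 536870912) (P2 := 0) (W2 := 536870912) (P3 := 818728140) (W3 := 40265320) (N0 := 3) (En := eng) (mo := mog) (C1 := cd0q2) (C2 := cd1q0) (C3 := pd3)
    rfl (fun _ => rfl) k0_mm_203

noncomputable def f_mm_213 : ℕ → ℕ → ℕ → ℕ → Bool := onCell 0 536870912 536870912 536870912 818728140 40265320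
    (rowB 3 eng mog cd0q2 cd1q1 pd3 0 true false false .pnn 2 1 3 (qsf 0 536870912 536870912 536870912 3) ndB0q2 ndB1q1 pcB3 Cut.none Ext.none)

def k0_mm_213 : ∃ t, chk3 f_mm_213 t 1 1 1 = true :=
  ⟨(l 4), by decide +kernel⟩

theorem c_mm_213 : CertB 0 536870912 536870912 536870912 818728140 40265320 3 eng mog cd0q2 cd1q1 pd3 true false false .pnn 2 1 3
    ndB0q2 ndB1q1 pcB3 Cut.none Ext.none :=
  certB0 (fam := true) (s1 := false) (s2 := false) (a := 2) (b := 1) (c := 3) (cn := .pnn) (n1 := ndB0q2) (n2 := ndB1q1) (pc := pcB3) (cut := Cut.none) (xt := Ext.none) (P1 := 0) (W1 := 536870912) (P2 := 536870912) (W2 := 536870912) (P3 := 818728140) (W3 := 40265320) (N0 := 3) (En := eng) (mo := mog) (C1 := cd0q2) (C2 := cd1q1) (C3 := pd3)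
    rfl k0_mm_213

end Pool.Agent.Strip051.G.I7625_8000.Tab.C.BA01

namespace Pool.Agent.Strip051.G.I7625_8000.Tab.C.BA02

open Pool.Agent.Strip051.PB Pool.Agent.Strip051.PB.T
open Pool.Agent.Strip051.G.I7625_8000.Tab

noncomputable def f_pp_001 : ℕ → ℕ → ℕ → ℕ → Bool := onCell 0 536870912 0 536870912 818728140 40265320
    (rowB 3 eng mog cd0q0 cd2q0 pd1 0 true true true .up 0 0 1 (qsf 0 536870912 0 536870912 1) ndB0q0 ndB2q0 pcB1 Cut.none Ext.none)

def k0_pp_001 : ∃ t, chk3 f_pp_001 t 1 1 1 = true :=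
  ⟨(l 4), by decide +kernel⟩

theorem c_pp_001 : CertB 0 536870912 0 536870912 818728140 40265320 3 eng mog cd0q0 cd2q0 pd1 true true true .up 0 0 1
    ndB0q0 ndB2q0 pcB1 Cut.none Ext.none :=
  certB0 (fam := true) (s1 := true) (s2 := true) (a := 0) (b := 0) (c := 1) (cn := .up) (n1 := ndB0q0) (n2 := ndB2q0) (pc := pcB1) (cut := Cut.none) (xt := Ext.none) (P1 := 0) (W1 := 536870912) (P2 := 0) (W2 := 536870912) (P3 := 818728140) (W3 := 40265320) (N0 := 3) (En := eng) (mo := mog) (C1 := cd0q0) (C2 := cd2q0) (C3 := pd1)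
    rfl k0_pp_001

noncomputable def f_pp_011 : ℕ → ℕ → ℕ → ℕ → Bool := onCell 0 536870912 536870912 536870912 818728140 40265320
    (rowB 3 eng mog cd0q0 cd2q1 pd1 0 true true true .pnn 0 1 1 (qsf 0 536870912 536870912 536870912 1) ndB0q0 ndB2q1 pcB1 Cut.none Ext.none)

def k0_pp_011 : ∃ t, chk3 f_pp_011 t 1 1 1 = true :=
  ⟨(l 4), by decide +kernel⟩

theorem c_pp_011 : CertB 0 536870912 536870912 536870912 818728140 40265320 3 eng mog cd0q0 cd2q1 pd1 true true true .pnn 0 1 1
    ndB0q0 ndB2q1 pcB1 Cut.none Ext.none :=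
  certB0 (fam := true) (s1 := true) (s2 := true) (a := 0) (b := 1) (c := 1) (cn := .pnn) (n1 := ndB0q0) (n2 := ndB2q1) (pc := pcB1) (cut := Cut.none) (xt := Ext.none) (P1 := 0) (W1 := 536870912) (P2 := 536870912) (W2 := 536870912) (P3 := 818728140) (W3 := 40265320) (N0 := 3) (En := eng) (mo := mog) (C1 := cd0q0) (C2 := cd2q1) (C3 := pd1)
    rfl k0_pp_011

noncomputable def f_pp_012 : ℕ → ℕ → ℕ → ℕ → Bool := onCell 0 536870912 536870912 536870912 818728140 40265320
    (rowB 3 eng mog cd0q0 cd2q1 pd2 0 true true true .pnp 0 1 2 (qsf 0 536870912 536870912 536870912 2) ndB0q0 ndB2q1 pcB2 Cut.none Ext.none)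

def k0_pp_012 : ∃ t, chk3 f_pp_012 t 1 1 1 = true :=
  ⟨(l 4), by decide +kernel⟩

theorem c_pp_012 : CertB 0 536870912 536870912 536870912 818728140 40265320 3 eng mog cd0q0 cd2q1 pd2 true true true .pnp 0 1 2
    ndB0q0 ndB2q1 pcB2 Cut.none Ext.none :=
  certB0 (fam := true) (s1 := true) (s2 := true) (a := 0) (b := 1) (c := 2) (cn := .pnp) (n1 := ndB0q0) (n2 := ndB2q1) (pc := pcB2) (cut := Cut.none) (xt := Ext.none) (P1 := 0) (W1 := 536870912) (P2 := 536870912) (W2 := 536870912) (P3 := 818728140) (W3 := 40265320) (N0 := 3) (En := eng) (mo := mog) (C1 := cd0q0) (C2 := cd2q1) (C3 := pd2)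
    rfl k0_pp_012

noncomputable def f_pp_022 : ℕ → ℕ → ℕ → ℕ → Bool := onCell 0 536870912 1073741824 536870912 818728140 40265320
    (rowB 3 eng mog cd0q0 cd2q2 pd2 0 true true true .pp 0 2 2 (qsf 0 536870912 1073741824 536870912 2) ndB0q0 ndB2q2 pcB2 Cut.none Ext.none)

def k0_pp_022 : ∃ t, chk3 f_pp_022 t 1 1 1 = true :=
  ⟨(l 4), by decide +kernel⟩

theorem c_pp_022 : CertB 0 536870912 1073741824 536870912 818728140 40265320 3 eng mog cd0q0 cd2q2 pd2 true true true .pp 0 2 2
    ndB0q0 ndB2q2 pcB2 Cut.none Ext.none :=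
  certB0 (fam := true) (s1 := true) (s2 := true) (a := 0) (b := 2) (c := 2) (cn := .pp) (n1 := ndB0q0) (n2 := ndB2q2) (pc := pcB2) (cut := Cut.none) (xt := Ext.none) (P1 := 0) (W1 := 536870912) (P2 := 1073741824) (W2 := 536870912) (P3 := 818728140) (W3 := 40265320) (N0 := 3) (En := eng) (mo := mog) (C1 := cd0q0) (C2 := cd2q2) (C3 := pd2)
    rfl k0_pp_022

noncomputable def f_pp_023 : ℕ → ℕ → ℕ → ℕ → Bool := onCell 0 536870912 1073741824 536870912 818728140 40265320
    (rowB 3 eng mog cd0q0 cd2q2 pd3 0 true true true .up 0 2 3 (qsf 0 536870912 1073741824 536870912 3) ndB0q0 ndB2q2 pcB3 Cut.none Ext.none)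

def k0_pp_023 : ∃ t, chk3 f_pp_023 t 1 1 1 = true :=
  ⟨(l 4), by decide +kernel⟩

theorem c_pp_023 : CertB 0 536870912 1073741824 536870912 818728140 40265320 3 eng mog cd0q0 cd2q2 pd3 true true true .up 0 2 3
    ndB0q0 ndB2q2 pcB3 Cut.none Ext.none :=
  certB0 (fam := true) (s1 := true) (s2 := true) (a := 0) (b := 2) (c := 3) (cn := .up) (n1 := ndB0q0) (n2 := ndB2q2) (pc := pcB3) (cut := Cut.none) (xt := Ext.none) (P1 := 0) (W1 := 536870912) (P2 := 1073741824) (W2 := 536870912) (P3 := 818728140) (W3 := 40265320) (N0 := 3) (En := eng) (mo := mog) (C1 := cd0q0) (C2 := cd2q2) (C3 := pd3)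
    rfl k0_pp_023

noncomputable def f_pp_033 : ℕ → ℕ → ℕ → ℕ → Bool := onCell 0 536870912 0 1230186008 818728140 40265320
    (rowB 3 eng mog cd0q0 cd2q3 pd3 0 true true true .pnn 0 3 3 (qsf 0 536870912 0 1230186008 3) ndB0q0 ndB2q3 pcB3 Cut.none Ext.none)

def k0_pp_033 : ∃ t, chk3 f_pp_033 t 1 1 1 = true :=
  ⟨(b (l 4) (l 4)), by decide +kernel⟩

theorem c_pp_033 : CertB 0 536870912 0 1230186008 818728140 40265320 3 eng mog cd0q0 cd2q3 pd3 true true true .pnn 0 3 3
    ndB0q0 ndB2q3 pcB3 Cut.none Ext.none :=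
  certB0 (fam := true) (s1 := true) (s2 := true) (a := 0) (b := 3) (c := 3) (cn := .pnn) (n1 := ndB0q0) (n2 := ndB2q3) (pc := pcB3) (cut := Cut.none) (xt := Ext.none) (P1 := 0) (W1 := 536870912) (P2 := 0) (W2 := 1230186008) (P3 := 818728140) (W3 := 40265320) (N0 := 3) (En := eng) (mo := mog) (C1 := cd0q0) (C2 := cd2q3) (C3 := pd3)
    rfl k0_pp_033

noncomputable def f_pp_101 : ℕ → ℕ → ℕ → ℕ → Bool := onCell 536870912 536870912 0 536870912 818728140 40265320
    (rowB 3 eng mog cd0q1 cd2q0 pd1 0 true true true .npn 1 0 1 (qsf 536870912 536870912 0 536870912 1) ndB0q1 ndB2q0 pcB1 Cut.none Ext.none)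

def k0_pp_101 : ∃ t, chk3 f_pp_101 t 1 1 1 = true :=
  ⟨(l 4), by decide +kernel⟩

theorem c_pp_101 : CertB 536870912 536870912 0 536870912 818728140 40265320 3 eng mog cd0q1 cd2q0 pd1 true true true .npn 1 0 1
    ndB0q1 ndB2q0 pcB1 Cut.none Ext.none :=
  certB0 (fam := true) (s1 := true) (s2 := true) (a := 1) (b := 0) (c := 1) (cn := .npn) (n1 := ndB0q1) (n2 := ndB2q0) (pc := pcB1) (cut := Cut.none) (xt := Ext.none) (P1 := 536870912) (W1 := 536870912) (P2 := 0) (W2 := 536870912) (P3 := 818728140) (W3 := 40265320) (N0 := 3) (En := eng) (mo := mog) (C1 := cd0q1) (C2 := cd2q0) (C3 := pd1)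
    rfl k0_pp_101

noncomputable def f_pp_102 : ℕ → ℕ → ℕ → ℕ → Bool := onCell 536870912 536870912 0 536870912 818728140 40265320
    (rowB 3 eng mog cd0q1 cd2q0 pd2 0 true true true .npp 1 0 2 (qsf 536870912 536870912 0 536870912 2) ndB0q1 ndB2q0 pcB2 Cut.none Ext.none)

def k0_pp_102 : ∃ t, chk3 f_pp_102 t 1 1 1 = true :=
  ⟨(l 4), by decide +kernel⟩

theorem c_pp_102 : CertB 536870912 536870912 0 536870912 818728140 40265320 3 eng mog cd0q1 cd2q0 pd2 true true true .npp 1 0 2
    ndB0q1 ndB2q0 pcB2 Cut.none Ext.none :=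
  certB0 (fam := true) (s1 := true) (s2 := true) (a := 1) (b := 0) (c := 2) (cn := .npp) (n1 := ndB0q1) (n2 := ndB2q0) (pc := pcB2) (cut := Cut.none) (xt := Ext.none) (P1 := 536870912) (W1 := 536870912) (P2 := 0) (W2 := 536870912) (P3 := 818728140) (W3 := 40265320) (N0 := 3) (En := eng) (mo := mog) (C1 := cd0q1) (C2 := cd2q0) (C3 := pd2)
    rfl k0_pp_102

noncomputable def f_pp_112 : ℕ → ℕ → ℕ → ℕ → Bool := onCell 536870912 536870912 536870912 536870912 818728140 40265320
    (rowB 3 eng mog cd0q1 cd2q1 pd2 0 true true true .dn 1 1 2 (qsf 536870912 536870912 536870912 536870912 2) ndB0q1 ndB2q1 pcB2 Cut.none Ext.none)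

def k0_pp_112 : ∃ t, chk3 f_pp_112 t 1 1 1 = true :=
  ⟨(l 4), by decide +kernel⟩

theorem c_pp_112 : CertB 536870912 536870912 536870912 536870912 818728140 40265320 3 eng mog cd0q1 cd2q1 pd2 true true true .dn 1 1 2
    ndB0q1 ndB2q1 pcB2 Cut.none Ext.none :=
  certB0 (fam := true) (s1 := true) (s2 := true) (a := 1) (b := 1) (c := 2) (cn := .dn) (n1 := ndB0q1) (n2 := ndB2q1) (pc := pcB2) (cut := Cut.none) (xt := Ext.none) (P1 := 536870912) (W1 := 536870912) (P2 := 536870912) (W2 := 536870912) (P3 := 818728140) (W3 := 40265320) (N0 := 3) (En := eng) (mo := mog) (C1 := cd0q1) (C2 := cd2q1) (C3 := pd2)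
    rfl k0_pp_112

noncomputable def f_pp_113 : ℕ → ℕ → ℕ → ℕ → Bool := onCell 536870912 536870912 536870912 536870912 818728140 40265320
    (rowB 3 eng mog cd0q1 cd2q1 pd3 0 true true true .nn 1 1 3 (qsf 536870912 536870912 536870912 536870912 3) ndB0q1 ndB2q1 pcB3 Cut.none Ext.none)

def k0_pp_113 : ∃ t, chk3 f_pp_113 t 1 1 1 = true :=
  ⟨(l 4), by decide +kernel⟩

theorem c_pp_113 : CertB 536870912 536870912 536870912 536870912 818728140 40265320 3 eng mog cd0q1 cd2q1 pd3 true true true .nn 1 1 3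
    ndB0q1 ndB2q1 pcB3 Cut.none Ext.none :=
  certB0 (fam := true) (s1 := true) (s2 := true) (a := 1) (b := 1) (c := 3) (cn := .nn) (n1 := ndB0q1) (n2 := ndB2q1) (pc := pcB3) (cut := Cut.none) (xt := Ext.none) (P1 := 536870912) (W1 := 536870912) (P2 := 536870912) (W2 := 536870912) (P3 := 818728140) (W3 := 40265320) (N0 := 3) (En := eng) (mo := mog) (C1 := cd0q1) (C2 := cd2q1) (C3 := pd3)
    rfl k0_pp_113

noncomputable def f_pp_123 : ℕ → ℕ → ℕ → ℕ → Bool := onCell 536870912 536870912 1073741824 536870912 818728140 40265320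
    (rowB 3 eng mog cd0q1 cd2q2 pd3 0 true true true .npn 1 2 3 (qsf 536870912 536870912 1073741824 536870912 3) ndB0q1 ndB2q2 pcB3 Cut.none Ext.none)

def k0_pp_123 : ∃ t, chk3 f_pp_123 t 1 1 1 = true :=
  ⟨(l 4), by decide +kernel⟩

theorem c_pp_123 : CertB 536870912 536870912 1073741824 536870912 818728140 40265320 3 eng mog cd0q1 cd2q2 pd3 true true true .npn 1 2 3
    ndB0q1 ndB2q2 pcB3 Cut.none Ext.none :=
  certB0 (fam := true) (s1 := true) (s2 := true) (a := 1) (b := 2) (c := 3) (cn := .npn) (n1 := ndB0q1) (n2 := ndB2q2) (pc := pcB3) (cut := Cut.none) (xt := Ext.none) (P1 := 536870912) (W1 := 536870912) (P2 := 1073741824) (W2 := 536870912) (P3 := 818728140) (W3 := 40265320) (N0 := 3) (En := eng) (mo := mog) (C1 := cd0q1) (C2 := cd2q2) (C3 := pd3)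
    rfl k0_pp_123

noncomputable def f_pp_133 : ℕ → ℕ → ℕ → ℕ → Bool := onCell 536870912 536870912 0 1230186008 818728140 40265320
    (rowB 3 eng mog cd0q1 cd2q3 pd3 0 true true true .dn 1 3 3 (qsf 536870912 536870912 0 1230186008 3) ndB0q1 ndB2q3 pcB3 Cut.none Ext.none)

def k0_pp_133 : ∃ t, chk3 f_pp_133 t 1 1 1 = true :=
  ⟨(l 4), by decide +kernel⟩

theorem c_pp_133 : CertB 536870912 536870912 0 1230186008 818728140 40265320 3 eng mog cd0q1 cd2q3 pd3 true true true .dn 1 3 3
    ndB0q1 ndB2q3 pcB3 Cut.none Ext.none :=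
  certB0 (fam := true) (s1 := true) (s2 := true) (a := 1) (b := 3) (c := 3) (cn := .dn) (n1 := ndB0q1) (n2 := ndB2q3) (pc := pcB3) (cut := Cut.none) (xt := Ext.none) (P1 := 536870912) (W1 := 536870912) (P2 := 0) (W2 := 1230186008) (P3 := 818728140) (W3 := 40265320) (N0 := 3) (En := eng) (mo := mog) (C1 := cd0q1) (C2 := cd2q3) (C3 := pd3)
    rfl k0_pp_133

noncomputable def f_pp_202 : ℕ → ℕ → ℕ → ℕ → Bool := onCell 0 536870912 0 536870912 818728140 40265320
    (rowB 3 eng mog cd0q2 cd2q0 pd2 0 true true true .pp 2 0 2 (qsf 0 536870912 0 536870912 2) ndB0q2 ndB2q0 pcB2 Cut.none Ext.none)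

def k0_pp_202 : ∃ t, chk3 f_pp_202 t 1 1 1 = true :=
  ⟨(l 5), by decide +kernel⟩

theorem c_pp_202 : CertB 0 536870912 0 536870912 818728140 40265320 3 eng mog cd0q2 cd2q0 pd2 true true true .pp 2 0 2
    ndB0q2 ndB2q0 pcB2 Cut.none Ext.none :=
  certB0 (fam := true) (s1 := true) (s2 := true) (a := 2) (b := 0) (c := 2) (cn := .pp) (n1 := ndB0q2) (n2 := ndB2q0) (pc := pcB2) (cut := Cut.none) (xt := Ext.none) (P1 := 0) (W1 := 536870912) (P2 := 0) (W2 := 536870912) (P3 := 818728140) (W3 := 40265320) (N0 := 3) (En := eng) (mo := mog) (C1 := cd0q2) (C2 := cd2q0) (C3 := pd2)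
    rfl k0_pp_202

noncomputable def f_pp_203 : ℕ → ℕ → ℕ → ℕ → Bool := onCell 0 536870912 0 536870912 818728140 40265320
    (rowB 3 eng mog cd0q2 cd2q0 pd3 0 true true true .up 2 0 3 (qsf 0 536870912 0 536870912 3) ndB0q2 ndB2q0 pcB3 Cut.none Ext.none)

def k0_pp_203 : ∃ t, chk3 f_pp_203 t 1 1 1 = true :=
  ⟨(l 5), by decide +kernel⟩

theorem c_pp_203 : CertB 0 536870912 0 536870912 818728140 40265320 3 eng mog cd0q2 cd2q0 pd3 true true true .up 2 0 3
    ndB0q2 ndB2q0 pcB3 Cut.none Ext.none :=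
  certB0 (fam := true) (s1 := true) (s2 := true) (a := 2) (b := 0) (c := 3) (cn := .up) (n1 := ndB0q2) (n2 := ndB2q0) (pc := pcB3) (cut := Cut.none) (xt := Ext.none) (P1 := 0) (W1 := 536870912) (P2 := 0) (W2 := 536870912) (P3 := 818728140) (W3 := 40265320) (N0 := 3) (En := eng) (mo := mog) (C1 := cd0q2) (C2 := cd2q0) (C3 := pd3)
    rfl k0_pp_203

noncomputable def f_pp_213 : ℕ → ℕ → ℕ → ℕ → Bool := onCell 0 536870912 536870912 536870912 818728140 40265320
    (rowB 3 eng mog cd0q2 cd2q1 pd3 0 true true true .pnn 2 1 3 (qsf 0 536870912 536870912 536870912 3) ndB0q2 ndB2q1 pcB3 Cut.none Ext.none)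

def k0_pp_213 : ∃ t, chk3 f_pp_213 t 1 1 1 = true :=
  ⟨(l 4), by decide +kernel⟩

theorem c_pp_213 : CertB 0 536870912 536870912 536870912 818728140 40265320 3 eng mog cd0q2 cd2q1 pd3 true true true .pnn 2 1 3
    ndB0q2 ndB2q1 pcB3 Cut.none Ext.none :=
  certB0 (fam := true) (s1 := true) (s2 := true) (a := 2) (b := 1) (c := 3) (cn := .pnn) (n1 := ndB0q2) (n2 := ndB2q1) (pc := pcB3) (cut := Cut.none) (xt := Ext.none) (P1 := 0) (W1 := 536870912) (P2 := 536870912) (W2 := 536870912) (P3 := 818728140) (W3 := 40265320) (N0 := 3) (En := eng) (mo := mog) (C1 := cd0q2) (C2 := cd2q1) (C3 := pd3)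
    rfl k0_pp_213

noncomputable def f_pm_001 : ℕ → ℕ → ℕ → ℕ → Bool := onCell 0 536870912 0 536870912 818728140 40265320
    (rowB 3 eng mog cd0q0 cd2q0 pd1 0 true true false .up 0 0 1 (qsf 0 536870912 0 536870912 1) ndB0q0 ndB2q0 pcB1 Cut.none Ext.none)

def k0_pm_001 : ∃ t, chk3 f_pm_001 t 1 1 1 = true :=
  ⟨(a (l 3) (b (l 3) (b (l 3) (a (l 3) (a (l 3) (b (l 3) (a (l 3) (b (a (l 3) (b (l 3) (l 16352256))) (a (b (l 39358558183) (l 35600425223)) (b (l 16296456) (l 16244184))))))))))), by decide +kernel⟩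

theorem c_pm_001 : CertB 0 536870912 0 536870912 818728140 40265320 3 eng mog cd0q0 cd2q0 pd1 true true false .up 0 0 1
    ndB0q0 ndB2q0 pcB1 Cut.none Ext.none :=
  certB0 (fam := true) (s1 := true) (s2 := false) (a := 0) (b := 0) (c := 1) (cn := .up) (n1 := ndB0q0) (n2 := ndB2q0) (pc := pcB1) (cut := Cut.none) (xt := Ext.none) (P1 := 0) (W1 := 536870912) (P2 := 0) (W2 := 536870912) (P3 := 818728140) (W3 := 40265320) (N0 := 3) (En := eng) (mo := mog) (C1 := cd0q0) (C2 := cd2q0) (C3 := pd1)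
    rfl k0_pm_001

noncomputable def cut_pm_011 : Cut := Cut.of [[⟨0, 0, 0, 67108864⟩, ⟨1, 1, 0, 67108864⟩, ⟨2, 1, 0, 67108864⟩]]

noncomputable def f_pm_011 : ℕ → ℕ → ℕ → ℕ → Bool := onCell 0 536870912 536870912 536870912 818728140 40265320
    (rowB 3 eng mog cd0q0 cd2q1 pd1 1 true true false .pnn 0 1 1 (qsf 0 536870912 536870912 536870912 1) ndB0q0 ndB2q1 pcB1 cut_pm_011 Ext.none)

def k0_pm_011 : ∃ t, chk3 f_pm_011 t 1 2 1 = true :=
  ⟨(l 3), by decide +kernel⟩

def k1_pm_011 : ∃ t, chk3 f_pm_011 t 2 3 1 = true :=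
  ⟨(b (l 3) (a (b (l 3) (a (b (l 3) (b (l 3) (a (l 6) (b (l 3) (a (l 6) (b (a (l 3) (b (l 3) (c (l 16712672) (l 53854729367)))) (a (l 6) (c (b (l 16698512) (l 16695240)) (b (l 16700872) (l 16697512)))))))))) (b (l 3) (b (l 3) (b (b (l 3) (a (l 3) (a (l 3) (b (l 3) (c (l 16652728) (l 16655752)))))) (a (a (b (b (l 3) (c (a (l 16691216) (l 16680384)) (a (l 16704368) (l 16683232)))) (c (a (l 16696544) (l 16675328)) (a (b (l 16690280) (l 16686912)) (l 16678056)))) (b (c (a (l 62981478375) (l 16671584)) (a (b (l 16676664) (l 16672720)) (l 68350177031))) (c (a (l 16664688) (l 16654224)) (a (l 16667592) (l 16657264))))) (a (c (b (c (l 65128919351) (l 16664936)) (a (l 16644048) (l 16634192))) (b (a (l 16675064) (l 16644152)) (l 16663120))) (c (b (a (l 16631272) (l 16621712)) (l 16619824)) (b (l 16646384) (l 16622632)))))))))) (b (l 3) (a (b (l 3) (b (l 3) (a (a (b (c (a (l 62981392375) (l 58686419175)) (b (l 3) (l 58686413719))) (c (a (l 16609240) (l 16600512)) (b (l 16610256) (l 16603592))))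 (b (b (l 3) (c (l 73718778775) (l 16620488))) (c (b (l 16591632) (l 16585072)) (l 16620632)))) (b (a (c (b (l 16611320) (l 16582848)) (b (l 16590072) (l 16582392))) (c (l 73718732615) (l 16589408))) (a (c (l 16573080) (l 16572424)) (c (l 16557216) (l 16555216))))))) (b (l 3) (a (b (l 3) (a (b (a (l 16577448) (l 16548032)) (l 16560320)) (b (a (l 16539608) (l 16531184)) (l 16522576)))) (b (b (l 3) (a (l 44190761847) (l 16537176))) (a (b (l 16518528) (l 16505728)) (b (l 16501496) (l 16488656)))))))))), by decide +kernel⟩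

def k2_pm_011 : ∃ t, chk3 f_pm_011 t 3 3 1 = true :=
  ⟨(b (l 3) (a (b (l 3) (b (l 3) (a (a (b (b (l 3) (a (l 16498664) (l 16480856))) (a (b (l 16484208) (l 16471264)) (l 16480912))) (b (b (l 3) (a (l 16462800) (l 16444960))) (a (l 16462872) (l 16424008)))) (a (b (b (l 3) (a (l 16427488) (l 16410320))) (b (l 16404728) (l 16391168))) (b (b (l 27010667511) (l 16385408)) (l 16406096)))))) (b (l 3) (b (a (l 3) (a (l 3) (b (l 1) (l 16306848)))) (a (a (a (b (l 16369424) (l 16339912)) (b (l 16353792) (l 16324200))) (b (a (l 16338632) (l 16324096)) (l 16322640))) (a (b (a (l 16310024) (l 16296088)) (l 16274128)) (b (l 16274040) (l 16245912)))))))), by decide +kernel⟩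

theorem s3_pm_011 : ∃ t, chk3 f_pm_011 t 1 3 1 = true := ex3_a k1_pm_011 k2_pm_011

theorem s4_pm_011 : ∃ t, chk3 f_pm_011 t 1 1 1 = true := ex3_b k0_pm_011 s3_pm_011

theorem c_pm_011 : CertB 0 536870912 536870912 536870912 818728140 40265320 3 eng mog cd0q0 cd2q1 pd1 true true false .pnn 0 1 1
    ndB0q0 ndB2q1 pcB1 cut_pm_011 Ext.none :=
  certB1 (fam := true) (s1 := true) (s2 := false) (a := 0) (b := 1) (c := 1) (cn := .pnn) (n1 := ndB0q0) (n2 := ndB2q1) (pc := pcB1) (cut := cut_pm_011) (xt := Ext.none) (P1 := 0) (W1 := 536870912) (P2 := 536870912) (W2 := 536870912) (P3 := 818728140) (W3 := 40265320) (N0 := 3) (En := eng) (mo := mog) (C1 := cd0q0) (C2 := cd2q1) (C3 := pd1)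
    rfl (fun _ => rfl) s4_pm_011

noncomputable def cut_pm_012 : Cut := Cut.of [[⟨0, 0, 0, 67108864⟩, ⟨1, 1, 0, 67108864⟩, ⟨2, 1, 0, 67108864⟩]]

noncomputable def f_pm_012 : ℕ → ℕ → ℕ → ℕ → Bool := onCell 0 536870912 1073741824 536870912 818728140 40265320
    (rowB 3 eng mog cd0q0 cd2q1 pd2 1 true true false .pnp 0 1 2 (qsf 0 536870912 536870912 536870912 2) ndB0q0 ndB2q1 pcB2 cut_pm_012 Ext.none)

def k0_pm_012 : ∃ t, chk3 f_pm_012 t 4 8 1 = true :=
  ⟨(a (b (a (l 6) (a (l 6) (a (l 6) (a (l 6) (b (b (c (l 16688608) (l 16665992)) (l 16687616)) (b (l 16632240) (l 16618168))))))) (b (a (l 6) (a (l 6) (a (l 6) (a (l 6) (b (l 16582504) (l 16546240)))))) (a (l 2) (b (a (l 6) (a (l 6) (a (l 6) (l 16509384)))) (a (l 2) (b (a (l 6) (a (l 6) (l 16481360))) (a (l 2) (a (l 16463008) (l 16462496))))))))) (b (a (b (a (a (b (b (c (l 16679176) (l 16682288)) (l 16662112)) (l 16684112)) (b (b (c (l 16667896) (l 16671216)) (l 16650936)) (l 16675344))) (b (a (c (l 16657640) (l 16672272)) (c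 (l 16646632) (l 16650912))) (b (l 16615712) (l 16659864)))) (a (b (b (l 16656552) (l 16618576)) (a (l 16615528) (l 16611912))) (c (l 16606528) (l 16587800)))) (b (a (b (c (b (l 16629704) (l 16631560)) (b (l 16633392) (l 16636536))) (b (l 16625784) (l 16638504))) (b (c (l 16631424) (l 16614536)) (l 16575264))) (a (b (l 16629712) (l 16597744)) (l 16603352)))) (a (b (a (b (a (l 16580296) (l 16577248)) (a (l 16544464) (l 16541984))) (b (l 16572432) (l 16517048))) (a (a (b (c (l 16516400) (l 16499280)) (c (l 16480448) (l 16461184))) (b (l 16506112) (c (l 16479088) (l 16459816)))) (b (a (l 16504080) (l 16501856)) (a (l 16468192) (l 16466528))))) (b (a (b (l 16565112) (l 16531848)) (c (l 16546840) (l 16533640))) (a (b (l 16497976) (l 16463504)) (l 16480248)))))), by decide +kernel⟩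

def k1_pm_012 : ∃ t, chk3 f_pm_012 t 5 8 1 = true :=
  ⟨(a (b (a (b (b (a (c (l 16591304) (l 16594640)) (c (l 16573736) (l 16575800))) (a (l 16556112) (l 16579968))) (a (l 16591360) (l 16578008))) (b (b (a (l 16578688) (l 16540592)) (c (l 16511544) (l 16555888))) (a (l 16563640) (l 16548816)))) (a (b (a (l 16467848) (l 16477384)) (a (l 16467616) (l 16458432))) (b (l 16500848) (a (l 16447920) (l 16437432))))) (b (b (a (b (c (l 16535768) (l 16512808)) (a (l 16528816) (l 16510896))) (c (l 16502464) (l 16438208))) (a (l 16527096) (l 16491872))) (a (b (l 16475800) (l 16422008)) (l 16427744)))), by decide +kernel⟩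

def k2_pm_012 : ∃ t, chk3 f_pm_012 t 2 9 1 = true :=
  ⟨(a (a (a (l 2) (b (a (l 2) (b (a (l 2) (b (a (l 2) (l 16473856)) (l 2))) (l 2))) (l 2))) (a (b (a (b (c (a (b (a (l 16441880) (l 16441552)) (l 16400544)) (b (l 16441000) (l 16421488))) (a (b (a (l 16420952) (l 16420616)) (l 16378360)) (b (l 16420064) (l 16378304)))) (a (l 2) (b (a (l 2) (l 16348400)) (l 2)))) (b (b (a (l 16450880) (l 16428872)) (a (c (l 16400368) (l 16378144)) (l 16389120))) (a (b (c (l 16360360) (l 16336816)) (l 16360328)) (b (c (l 16360672) (l 16337144)) (c (l 16321136) (l 16296224)))))) (a (l 2) (b (a (l 2) (b (l 16289416) (l 2))) (l 2)))) (b (a (b (b (l 16447768) (a (l 16388488) (l 16387536))) (a (b (l 16349160) (l 16309576)) (b (l 16348872) (l 16309952)))) (b (b (l 16422808) (l 16385456)) (a (l 16329152) (l 16328464)))) (a (b (a (b (c (l 16282704) (l 16256440)) (l 16229776)) (b (l 16270792) (l 16273352))) (a (l 2) (b (l 16191864) (l 2)))) (b (b (a (l 16271448) (l 16271728)) (a (l 16232696) (l 16233600)))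 (a (b (l 16193744) (l 16154648)) (b (l 16195256) (l 16156744)))))))) (a (b (a (a (b (l 16399320) (l 16326688)) (b (l 16392656) (l 16322680))) (b (a (l 16384600) (l 16376176)) (a (l 16317272) (l 16311424)))) (a (a (b (c (l 16265368) (l 16239896)) (c (l 16192024) (l 16163592))) (b (l 16251376) (c (l 16192288) (l 16165296)))) (b (a (l 16248504) (l 16245168)) (a (l 16178512) (l 16177584))))) (b (a (a (l 16337032) (l 16330264)) (l 16320944)) (a (b (l 16281816) (a (l 16176416) (l 16175144))) (b (l 16233784) (l 16173856)))))), by decide +kernel⟩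

def k3_pm_012 : ∃ t, chk3 f_pm_012 t 3 4 1 = true :=
  ⟨(a (b (a (b (b (a (c (l 16444688) (l 16442472)) (l 16425992)) (a (l 16454608) (l 16416016))) (a (l 16407864) (l 16388592))) (b (b (a (l 16367160) (l 16330784)) (l 16380536)) (l 16398096))) (a (b (a (l 16310552) (l 16302272)) (a (l 16202376) (l 16203328))) (b (l 16287000) (l 16309008)))) (b (a (b (a (c (l 16325128) (l 16319256)) (a (l 16276216) (l 16260400))) (a (l 16317280) (l 16285824))) (b (a (l 16238144) (l 16207536)) (l 16320568))) (a (b (l 16256736) (a (l 16198760) (l 16190976))) (b (l 16211168) (l 16170160))))), by decide +kernel⟩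

def k4_pm_012 : ∃ t, chk3 f_pm_012 t 2 5 1 = true :=
  ⟨(a (b (a (l 2) (a (l 2) (b (b (a (l 2) (a (l 2) (b (l 16118112) (l 2)))) (l 2)) (l 2)))) (l 2)) (a (b (b (b (a (a (a (b (l 16120368) (l 16082272)) (b (l 16122200) (l 16084648))) (c (l 16120624) (l 16090632))) (a (c (l 16121632) (l 16093344)) (l 16108992))) (a (b (a (a (l 2) (l 16047248)) (a (l 16049688) (l 16051672))) (a (l 2) (a (b (l 16022336) (l 2)) (b (l 16024680) (b (l 16011704) (l 16003384)))))) (b (a (l 16054184) (l 16057152)) (b (a (l 16027744) (l 16031456)) (a (b (l 16015008) (c (l 16023152) (l 15990176))) (b (l 16019040) (l 16011048))))))) (a (a (l 2) (a (l 2) (b (l 15961496) (l 2)))) (a (b (c (l 15982984) (l 15948320)) (a (l 2) (l 15892656))) (b (c (l 15987672) (l 15954512)) (c (l 15916256) (l 15880112)))))) (a (l 2) (a (l 2) (a (l 2) (b (l 15851344) (l 2)))))) (b (b (a (b (a (l 16110096) (l 16111088)) (b (a (l 16059872) (l 16062472)) (b (l 16078592) (a (l 16018856) (l 16022624))))) (b (l 16112832) (b (l 16066560)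 (b (l 16043472) (l 16028480))))) (a (a (c (b (l 15992264) (l 15923032)) (l 15924408)) (c (l 15963688) (l 15930896))) (a (l 15953552) (l 15959896)))) (a (b (c (a (b (l 15852040) (l 15779392)) (b (l 15861072) (l 15790536))) (a (l 15839352) (l 15787208))) (a (l 2) (c (l 15681800) (l 15636840)))) (b (a (c (l 15836312) (l 15797840)) (l 15827784)) (a (b (l 15710376) (l 15637216)) (c (l 15710848) (l 15666664)))))))), by decide +kernel⟩

def k5_pm_012 : ∃ t, chk3 f_pm_012 t 3 5 1 = true :=
  ⟨(a (b (b (a (b (a (l 16117024) (l 16123664)) (a (b (l 16073376) (l 16044576)) (b (l 16082856) (l 16055736)))) (b (l 16134656) (b (l 16098040) (l 16073304)))) (a (a (l 15970128) (l 15985560)) (l 16030736))) (a (a (b (a (l 15838656) (l 15849896)) (a (c (l 15725624) (l 15682088)) (l 15719360))) (b (l 15867296) (l 15763896))) (a (b (l 15890256) (l 15773296)) (l 15858624)))) (b (a (b (b (l 16140976) (a (l 16098360) (l 16102600))) (l 16037192)) (b (b (l 16129696) (l 16161704)) (l 16047960))) (a (a (l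 15883616) (l 15906592)) (l 15932256)))), by decide +kernel⟩

def k6_pm_012 : ∃ t, chk3 f_pm_012 t 1 3 1 = true :=
  ⟨(a (a (l 2) (b (a (l 2) (a (l 2) (b (a (l 2) (b (l 15606544) (l 2))) (l 2)))) (l 2))) (a (a (b (b (a (b (a (c (l 15587600) (l 15537808)) (c (l 15606712) (l 15557808))) (a (l 2) (l 15439352))) (b (a (l 15602216) (l 15621888)) (a (l 67743769335) (l 102640421127)))) (a (l 2) (b (a (l 2) (l 15346256)) (l 2)))) (l 2)) (b (b (a (b (l 15650544) (a (l 15510128) (l 15532832))) (b (l 15686904) (l 15566016))) (a (b (a (l 77407267287) (l 115525153479)) (a (l 2) (l 15261968))) (b (a (l 15426288) (l 15451936)) (a (l 91902623815) (l 15321640))))) (b (a (l 2) (b (l 74722537927) (l 2))) (l 2)))) (b (a (b (a (l 15666360) (l 15703168)) (a (b (l 15489640) (a (l 15350720) (l 15379256))) (b (l 15536896) (l 15420488)))) (b (a (l 15735432) (l 15766528)) (a (l 15525984) (l 15571048)))) (a (b (a (b (a (l 105861130999) (l 15251648)) (l 109082172423)) (b (l 15298864) (l 132704614631))) (a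 (l 2) (b (l 138609957927) (l 2)))) (b (a (b (l 15357048) (l 15238872)) (l 15358920)) (a (b (l 192834091239) (l 174580213719)) (b (l 15189328) (l 232562430983)))))))), by decide +kernel⟩

theorem s7_pm_012 : ∃ t, chk3 f_pm_012 t 1 5 1 = true := ex3_a k4_pm_012 k5_pm_012

theorem s8_pm_012 : ∃ t, chk3 f_pm_012 t 2 8 1 = true := ex3_a k0_pm_012 k1_pm_012

theorem s9_pm_012 : ∃ t, chk3 f_pm_012 t 2 4 1 = true := ex3_b s8_pm_012 k2_pm_012

theorem s10_pm_012 : ∃ t, chk3 f_pm_012 t 1 4 1 = true := ex3_a s9_pm_012 k3_pm_012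

theorem s11_pm_012 : ∃ t, chk3 f_pm_012 t 1 2 1 = true := ex3_b s10_pm_012 s7_pm_012

theorem s12_pm_012 : ∃ t, chk3 f_pm_012 t 1 1 1 = true := ex3_b s11_pm_012 k6_pm_012

theorem c_pm_012 : CertB 0 536870912 536870912 536870912 818728140 40265320 3 eng mog cd0q0 cd2q1 pd2 true true false .pnp 0 1 2
    ndB0q0 ndB2q1 pcB2 cut_pm_012 Ext.none :=
  certB1 (fam := true) (s1 := true) (s2 := false) (a := 0) (b := 1) (c := 2) (cn := .pnp) (n1 := ndB0q0) (n2 := ndB2q1) (pc := pcB2) (cut := cut_pm_012) (xt := Ext.none) (P1 := 0) (W1 := 536870912) (P2 := 536870912) (W2 := 536870912) (P3 := 818728140) (W3 := 40265320) (N0 := 3) (En := eng) (mo := mog) (C1 := cd0q0) (C2 := cd2q1) (C3 := pd2)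
    rfl (fun _ => rfl) s12_pm_012

noncomputable def f_pm_022 : ℕ → ℕ → ℕ → ℕ → Bool := onCell 0 536870912 1073741824 536870912 818728140 40265320
    (rowB 3 eng mog cd0q0 cd2q2 pd2 1 true true false .pp 0 2 2 (qsf 0 536870912 1073741824 536870912 2) ndB0q0 ndB2q2 pcB2 Cut.none Ext.none)

def k0_pm_022 : ∃ t, chk3 f_pm_022 t 1 4 1 = true :=
  ⟨(a (b (l 3) (b (l 3) (a (a (b (a (b (a (b (a (c (l 16456600) (l 16438432)) (l 16473768)) (a (c (l 16440352) (l 16421592)) (l 16457464))) (b (l 16511800) (l 16495888))) (b (a (a (c (l 16423456) (l 16404256)) (l 16440320)) (l 16478784)) (a (a (c (l 16406808) (l 16387312)) (l 16423496)) (l 16461944)))) (b (a (b (l 3) (l 16545048)) (l 109152095511)) (a (b (l 16528136) (l 16511288)) (b (l 16533184) (l 16558312))))) (a (c (a (b (a (b (l 16390400) (l 16374136)) (l 16407400)) (a (b (l 16357960) (l 16341928)) (l 16375080))) (b (l 16444144) (l 16411808))) (b (a (a (b (l 16370736) (l 16354376)) (l 16389888)) (l 16430024)) (a (a (l 16330040) (l 16357312))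 (l 16397352)))) (b (a (c (l 16491288) (l 16481608)) (l 16554544)) (a (l 16453960) (l 16501056))))) (b (b (a (a (l 236390506855) (l 2966916094711)) (l 3)) (b (a (a (l 16611040) (a (l 16587624) (l 16571144))) (a (a (b (a (l 16557200) (l 246054183639)) (l 16554864)) (b (b (l 3) (c (l 330208687319) (l 333966771239))) (a (l 277058460215) (l 530461525239)))) (l 1))) (a (a (l 16602856) (l 16541416)) (a (a (l 16558104) (c (l 278132208999) (a (l 16542160) (l 303901990599)))) (a (a (l 525629675319) (l 1)) (l 1)))))) (a (b (a (l 16557240) (l 16515296)) (a (l 16503840) (l 16588008))) (a (a (b (b (l 16562144) (l 16566000)) (l 16571704)) (b (b (a (l 16549024) (l 16540008)) (l 16548712)) (l 16554888))) (b (a (b (a (l 311955056679) (l 515429118151)) (a (l 16535152) (l 305512588151))) (b (l 1) (l 501470454663))) (a (b (l 16534944) (l 16539272)) (b (l 350609760423) (l 300680763239)))))))) (a (b (l 1) (a (b (l 1) (a (a (l 524019007879) (l 1)) (l 1))) (l 1))) (l 1))))) (l 1)), by decide +kernel⟩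

def k1_pm_022 : ∃ t, chk3 f_pm_022 t 2 20 1 = true :=
  ⟨(b (a (a (b (a (b (a (a (l 16316184) (l 16342360)) (l 16380672)) (a (a (c (l 16311112) (l 16290920)) (l 16326976)) (l 16365056))) (a (l 16421992) (l 16469088))) (a (a (c (l 16305624) (l 16285968)) (a (l 16333712) (l 16358416))) (a (b (l 16400192) (l 16388520)) (l 16440704)))) (b (a (a (l 16513864) (l 16556208)) (a (l 16549840) (c (l 16560808) (l 16554232)))) (a (a (l 16484784) (b (l 16533008) (l 16519928))) (a (l 16566392) (a (l 16552496) (l 16535280)))))) (a (a (b (a (a (l 393559446567) (l 551399403527)) (l 1)) (a (b (l 291553887479) (l 284037720199)) (l 576095526903))) (l 1)) (l 1))) (a (a (a (b (a (c (l 16284016) (l 16263552)) (l 16324024)) (a (b (a (l 16245944) (l 16271528)) (b (a (l 16239784) (l 16265368)) (a (c (l 16247656) (l 16224672)) (l 16261784)))) (b (l 16308976) (b (l 16302824) (l 16299256))))) (b (a (l 16372216) (l 16418296)) (b (a (l 16357168) (l 16403272)) (a (b (l 16351040) (l 16347480)) (b (l 16397168)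 (l 16393640)))))) (b (a (a (l 16462160) (l 16503688)) (l 16476656)) (a (b (a (l 16447176) (l 16488776)) (a (l 16439152) (l 16480800))) (b (l 16547336) (a (l 16520400) (l 16538568)))))) (a (b (a (a (l 16510248) (b (l 382285084119) (l 361347114679))) (l 1)) (a (a (b (l 16508712) (b (l 16506496) (l 16504480))) (b (c (l 16475624) (l 16466136)) (a (b (l 16478952) (l 16477168)) (a (b (l 16464264) (l 16462600)) (b (l 16454152) (c (l 292627564487) (l 287258832903))))))) (a (a (b (l 1) (b (l 1) (b (l 1) (l 421476550823)))) (l 1)) (l 1)))) (l 1)))), by decide +kernel⟩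

def k2_pm_022 : ∃ t, chk3 f_pm_022 t 2 21 1 = true :=
  ⟨(a (a (a (a (b (a (b (l 16223104) (l 16201272)) (l 16236936)) (a (l 16169544) (l 16193712))) (b (l 16274008) (l 16229592))) (a (b (l 16322168) (l 16276864)) (l 16387328))) (a (a (l 16389360) (l 16494032)) (a (b (l 16493728) (l 16448544)) (l 16509000)))) (a (a (a (c (l 16444704) (l 16441800)) (b (a (l 16479016) (a (l 16465008) (l 16455344))) (l 16432240))) (a (b (a (c (l 331282242455) (l 313565508535)) (b (l 422013372471) (l 343630241655))) (c (l 16441096) (l 16433856))) (c (b (l 394632908471) (b (l 346314539559) (l 286185003815))) (b (l 418792075191) (l 329134696503))))) (a (a (a (b (l 1) (l 419865785367)) (l 1)) (l 1)) (l 1)))), by decide +kernel⟩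

def k3_pm_022 : ∃ t, chk3 f_pm_022 t 2 11 1 = true :=
  ⟨(a (b (a (a (a (a (b (l 16128664) (l 16089408)) (l 16132864)) (l 16168120)) (a (l 16213920) (l 16258624))) (a (a (l 16302080) (l 16343912)) (a (l 16383968) (l 16317640)))) (a (a (a (a (l 16054536) (l 16057376)) (l 16092352)) (l 16159544)) (a (l 16327808) (l 16386344)))) (c (a (a (b (l 16474936) (l 16397776)) (b (b (a (l 16445480) (l 16409792)) (l 16327336)) (l 16435080))) (a (b (a (b (l 327523998999) (l 16379536)) (b (l 388190330535) (l 322155229703))) (a (l 16388952) (l 16354624))) (b (b (l 1) (l 426844935031)) (b (l 357588654919) (l 311954642167))))) (a (a (b (l 16480240) (l 16399584)) (b (b (a (l 16440512) (l 16402080)) (l 16344232)) (l 16434400))) (a (b (a (b (l 330745203095) (l 16371040)) (l 373694863895)) (a (l 16383736) (l 16346016))) (b (b (l 1) (l 416644352503)) (b (l 343629938647) (l 293164131223))))))), by decide +kernel⟩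

def k4_pm_022 : ∃ t, chk3 f_pm_022 t 3 5 1 = true :=
  ⟨(b (l 1) (a (a (a (a (b (l 1) (l 417181155527)) (l 1)) (l 1)) (l 1)) (l 1))), by decide +kernel⟩

def k5_pm_022 : ∃ t, chk3 f_pm_022 t 1 3 1 = true :=
  ⟨(a (a (b (a (b (a (a (b (c (l 15991976) (l 15961176)) (l 15913904)) (b (l 16022944) (l 15959840))) (b (l 16089648) (l 16025976))) (a (a (b (l 15857512) (l 15807256)) (l 15897776)) (b (l 15968440) (l 15916944)))) (b (a (a (l 16120032) (l 16159952)) (b (l 16250920) (l 16186128))) (a (l 16023920) (l 16100920)))) (a (b (a (b (l 15785264) (l 15746536)) (l 15850800)) (a (b (l 15713456) (l 15685832)) (l 15782424))) (b (a (l 15931264) (l 16007440)) (a (l 15861176) (l 15936192))))) (b (a (b (a (a (l 16274048) (l 16394712)) (b (l 16395408) (l 16330840))) (a (l 16175400) (l 16288104))) (b (a (b (l 16254656) (l 16385016)) (b (a (l 16331640) (l 16295824)) (l 16309472))) (a (l 16307248) (l 16342080)))) (a (b (a (l 16081928) (l 16153680)) (l 16088504)) (b (a (l 16217136) (l 16268512))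 (l 16176368))))) (a (b (a (c (b (a (b (b (l 351682926679) (l 302827721543)) (l 16270632)) (b (l 419865387527) (l 333966106647))) (a (l 16212104) (b (l 16227360) (l 16249648)))) (b (a (b (l 323228748919) (l 16258608)) (b (l 416107245479) (l 330744893991))) (a (l 16290704) (l 16290896)))) (b (a (b (l 1) (l 407517239735)) (l 1)) (a (b (b (l 335039724471) (l 313028084071)) (l 16180320)) (b (l 401611571095) (l 337724072983))))) (a (b (a (l 16303688) (l 16270552)) (l 16257616)) (b (a (b (l 16208656) (l 16231368)) (b (l 16143128) (l 16175472))) (l 16234464)))) (b (a (b (l 1) (a (b (l 1) (l 397853413495)) (l 1))) (l 1)) (a (b (a (b (l 375841863175) (l 16109472)) (b (l 395168960423) (l 372620549943))) (a (l 16162592) (b (l 16079104) (l 16120272)))) (b (a (b (l 1) (l 395705755671)) (l 1)) (a (b (l 383894792231) (l 16052032)) (b (l 395705690439) (l 377989140039)))))))), by decide +kernel⟩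

theorem s6_pm_022 : ∃ t, chk3 f_pm_022 t 2 10 1 = true := ex3_b k1_pm_022 k2_pm_022

theorem s7_pm_022 : ∃ t, chk3 f_pm_022 t 2 5 1 = true := ex3_b s6_pm_022 k3_pm_022

theorem s8_pm_022 : ∃ t, chk3 f_pm_022 t 1 5 1 = true := ex3_a s7_pm_022 k4_pm_022

theorem s9_pm_022 : ∃ t, chk3 f_pm_022 t 1 2 1 = true := ex3_b k0_pm_022 s8_pm_022

theorem s10_pm_022 : ∃ t, chk3 f_pm_022 t 1 1 1 = true := ex3_b s9_pm_022 k5_pm_022

theorem c_pm_022 : CertB 0 536870912 1073741824 536870912 818728140 40265320 3 eng mog cd0q0 cd2q2 pd2 true true false .pp 0 2 2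
    ndB0q0 ndB2q2 pcB2 Cut.none Ext.none :=
  certB1 (fam := true) (s1 := true) (s2 := false) (a := 0) (b := 2) (c := 2) (cn := .pp) (n1 := ndB0q0) (n2 := ndB2q2) (pc := pcB2) (cut := Cut.none) (xt := Ext.none) (P1 := 0) (W1 := 536870912) (P2 := 1073741824) (W2 := 536870912) (P3 := 818728140) (W3 := 40265320) (N0 := 3) (En := eng) (mo := mog) (C1 := cd0q0) (C2 := cd2q2) (C3 := pd2)
    rfl (fun _ => rfl) s10_pm_022

noncomputable def f_pm_023 : ℕ → ℕ → ℕ → ℕ → Bool := onCell 0 536870912 1610612736 536870912 818728140 40265320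
    (rowB 3 eng mog cd0q0 cd2q2 pd3 1 true true false .up 0 2 3 (qsf 0 536870912 1073741824 536870912 3) ndB0q0 ndB2q2 pcB3 Cut.none Ext.none)

def k0_pm_023 : ∃ t, chk3 f_pm_023 t 1 1 1 = true :=
  ⟨(a (b (b (a (a (b (a (b (l 15668296) (l 15648192)) (l 15740864)) (a (l 2) (l 15708024))) (a (b (l 15819680) (l 15784232)) (l 16104816))) (a (b (l 16006784) (l 15967552)) (l 16140288))) (b (a (a (l 2) (l 164918514743)) (a (l 15969792) (l 16081344))) (a (l 2) (a (b (l 15953536) (l 2)) (b (l 16082016) (l 16091904)))))) (a (l 2) (b (b (a (l 2) (l 16119328)) (l 2)) (l 2)))) (b (b (a (a (l 16209976) (l 16241208)) (a (b (a (l 16202952) (l 16162136)) (l 16229696)) (b (a (l 16109824) (b (l 16019960) (l 16075472))) (a (l 16192688) (l 16153320))))) (a (b (a (l 16180056) (l 16234512)) (a (b (l 16180704) (l 16189008)) (l 16248160))) (b (a (l 16244120) (l 16246392)) (a (l 16272048) (l 16283272))))) (a (b (b (a (l 16213328) (l 16279608)) (b (a (l 16256432) (l 16317240)) (a (l 2) (l 16353736))))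 (b (b (a (l 2) (l 16404624)) (l 2)) (l 2))) (b (b (a (l 16320216) (l 16320776)) (b (a (l 16361896) (l 16387896)) (a (l 16395296) (l 16429224)))) (b (b (a (l 16438640) (l 16476520)) (a (l 16483264) (l 16329864))) (b (b (l 16541936) (l 16550752)) (l 4))))))), by decide +kernel⟩

theorem c_pm_023 : CertB 0 536870912 1073741824 536870912 818728140 40265320 3 eng mog cd0q0 cd2q2 pd3 true true false .up 0 2 3
    ndB0q0 ndB2q2 pcB3 Cut.none Ext.none :=
  certB1 (fam := true) (s1 := true) (s2 := false) (a := 0) (b := 2) (c := 3) (cn := .up) (n1 := ndB0q0) (n2 := ndB2q2) (pc := pcB3) (cut := Cut.none) (xt := Ext.none) (P1 := 0) (W1 := 536870912) (P2 := 1073741824) (W2 := 536870912) (P3 := 818728140) (W3 := 40265320) (N0 := 3) (En := eng) (mo := mog) (C1 := cd0q0) (C2 := cd2q2) (C3 := pd3)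
    rfl (fun _ => rfl) k0_pm_023

noncomputable def f_pm_033 : ℕ → ℕ → ℕ → ℕ → Bool := onCell 1610612736 536870912 0 1230186008 818728140 40265320
    (rowB 3 eng mog cd0q0 cd2q3 pd3 2 true true false .pnn 0 3 3 (qsf 0 536870912 0 1230186008 3) ndB0q0 ndB2q3 pcB3 Cut.none Ext.none)

def k0_pm_033 : ∃ t, chk3 f_pm_033 t 1 1 1 = true :=
  ⟨(b (a (l 1) (a (l 1) (l 4))) (b (a (b (l 1) (a (l 1) (a (l 1) (b (l 1) (a (l 1) (l 15625528)))))) (b (a (a (l 1) (a (b (l 1) (l 15792776)) (l 4))) (l 4)) (a (a (b (l 15735776) (l 15815600)) (b (a (l 15884344) (l 15978168)) (a (l 15968800) (l 16061560)))) (a (b (l 4) (a (l 4) (l 4))) (l 4))))) (a (b (a (l 1) (a (b (b (l 1) (l 340944172343)) (a (l 316785085911) (l 15625800))) (b (a (b (l 15585312) (l 15634056)) (l 15712280)) (a (l 15714720) (l 15804944))))) (a (b (a (l 1) (a (b (l 1) (l 221222045623)) (b (l 286720287255) (l 15644000)))) (a (b (a (l 1) (l 213168994615)) (a (l 215316543863) (l 15684312))) (b (a (l 15658248) (l 15724144)) (a (l 15745424)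 (l 15805960))))) (a (b (a (b (l 15643120) (l 15715736)) (l 15754880)) (b (a (l 15790144) (l 15859224)) (a (l 15869096) (l 15935216)))) (b (a (l 15831712) (l 15912528)) (a (l 16030568) (l 16268384)))))) (b (a (a (b (b (l 15863752) (l 15892232)) (a (l 15896552) (l 15996944))) (b (a (l 16043464) (l 16135232)) (a (l 16107976) (l 16205032)))) (a (b (a (b (l 16205328) (l 16242304)) (l 4)) (a (l 16291840) (a (l 16346696) (l 4)))) (l 4))) (a (a (b (a (l 15995704) (l 16081216)) (a (l 16114152) (l 16182712))) (a (b (l 16177432) (l 16252216)) (b (l 16269224) (l 16323592)))) (a (a (b (l 16346304) (l 16390416)) (b (a (l 16400912) (l 16430176)) (a (l 16442544) (l 16476184)))) (a (b (l 4) (a (l 16506544) (l 16520024))) (l 4)))))))), by decide +kernel⟩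

theorem c_pm_033 : CertB 0 536870912 0 1230186008 818728140 40265320 3 eng mog cd0q0 cd2q3 pd3 true true false .pnn 0 3 3
    ndB0q0 ndB2q3 pcB3 Cut.none Ext.none :=
  certB2 (fam := true) (s1 := true) (s2 := false) (a := 0) (b := 3) (c := 3) (cn := .pnn) (n1 := ndB0q0) (n2 := ndB2q3) (pc := pcB3) (cut := Cut.none) (xt := Ext.none) (P1 := 0) (W1 := 536870912) (P2 := 0) (W2 := 1230186008) (P3 := 818728140) (W3 := 40265320) (N0 := 3) (En := eng) (mo := mog) (C1 := cd0q0) (C2 := cd2q3) (C3 := pd3)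
    rfl (fun _ => rfl) k0_pm_033

noncomputable def xt_pm_101 : Ext := extD2 3 ⟨4, 1, 1, 5, 13, 5, 23, 25, 43, 100, 1, 8⟩ eng cd0q1 cd2q0 pd1 true true false .npn 1 0 1 rfl ndB0q1 ndB2q0 pcB1

noncomputable def f_pm_101 : ℕ → ℕ → ℕ → ℕ → Bool := onCell 536870912 536870912 0 536870912 818728140 40265320
    (rowB 3 eng mog cd0q1 cd2q0 pd1 2 true true false .npn 1 0 1 (qsf 536870912 536870912 0 536870912 1) ndB0q1 ndB2q0 pcB1 Cut.none xt_pm_101)

def k0_pm_101 : ∃ t, chk3 f_pm_101 t 2 1 1 = true :=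
  ⟨(l 3), by decide +kernel⟩

def k1_pm_101 : ∃ t, chk3 f_pm_101 t 6 2 1 = true :=
  ⟨(l 3), by decide +kernel⟩

def k2_pm_101 : ∃ t, chk3 f_pm_101 t 7 4 1 = true :=
  ⟨(a (l 3) (b (a (a (a (l 3) (b (b (a (b (c (l 139217412039) (a (l 205252504423) (l 16825824))) (l 124185008983)) (c (l 16807744) (l 16798104))) (a (b (l 16824608) (l 16842808)) (l 16841184))) (b (a (l 326048576023) (l 16898608)) (a (l 315848031735) (l 16883184))))) (a (b (b (a (l 16808112) (l 16854880)) (l 16880592)) (b (l 16866024) (l 16829728))) (b (b (l 16854184) (l 16839864)) (b (l 16824664) (l 16808592))))) (b (a (b (l 16795752) (l 16698040)) (b (l 16722264) (l 16709232))) (a (b (l 16765528) (l 16748632)) (a (l 16701784) (l 16666440))))) (a (b (a (a (l 3) (a (b (l 302426214263) (l 287393786727)) (b (l 16864728) (b (l 16848728) (l 16836816))))) (a (b (l 16832776) (l 16790680)) (b (l 16791376) (l 16771080)))) (a (a (l 3) (a (b (l 722796120775) (l 3)) (b (l 263234499463) (b (l 16794608) (l 16778152))))) (a (b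 (l 16786776) (a (l 16767192) (l 16748096))) (b (l 16747328) (l 16719568))))) (b (a (b (l 16730752) (l 16711656)) (a (l 16642672) (l 16626744))) (a (a (c (l 16700320) (l 16690520)) (l 16657528)) (b (l 16613616) (l 16588752))))))), by decide +kernel⟩

def k3_pm_101 : ∃ t, chk3 f_pm_101 t 7 5 1 = true :=
  ⟨(b (a (l 3) (b (a (a (a (l 3) (a (l 3) (b (b (l 205789301463) (l 201494298103)) (c (b (l 199346763703) (l 193441149895)) (l 214379068631))))) (a (b (b (l 16732576) (l 16714608)) (a (c (l 16678656) (l 16690688)) (l 16677056))) (b (l 16687080) (l 16650568)))) (a (b (l 16632672) (l 16597480)) (b (l 16539208) (l 16527328)))) (a (b (a (a (l 3) (a (l 3) (a (l 3) (c (l 192367322791) (l 198809732055))))) (a (a (c (l 16660816) (l 16648984)) (l 16637016)) (l 16610504))) (a (a (l 3) (a (l 3) (a (l 3) (a (l 3) (b (b (c (l 16625608) (l 16633512)) (l 181092988007)) (b (l 178945507351) (l 179482373623))))))) (b (a (b (a (c (l 16614744) (l 16621976)) (l 16611056)) (c (l 16622744) (l 16608000)))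 (l 16582472)) (a (a (c (a (l 16612464) (l 16624768)) (l 144493797664260143)) (l 16603920)) (l 16577448))))) (b (a (l 16558720) (l 16489424)) (a (b (l 16530256) (l 16525064)) (b (l 16461808) (l 16456064))))))) (a (l 3) (a (b (a (b (a (l 3) (b (b (c (l 180556152471) (l 182166589239)) (l 3)) (l 3))) (l 3)) (b (b (a (a (b (l 144483008750010415) (l 144472151035707439)) (l 16599792)) (l 16573224)) (a (c (l 144501219398795311) (l 143720909539328047)) (l 16562368))) (b (a (c (l 144223523933077551) (l 143391605734916143)) (l 16523440)) (a (b (l 143568352282296367) (l 2236512766431182149988958255)) (l 16488392))))) (a (l 3) (b (b (a (c (l 143576186320207919) (l 142824257612562479)) (l 16456704)) (a (c (l 143302132986658863) (l 142595215545172015)) (l 16428416))) (a (a (b (l 143176926093197359) (l 3319710300804763921872388143)) (b (l 142644968482996271) (l 142448087138058287))) (b (l 16403080) (l 16380760)))))) (b (b (a (b (l 16520640) (l 16515728)) (l 16449408)) (a (a (l 16515872) (l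 16480696)) (l 16437752))) (b (a (b (l 16437856) (l 16408376)) (l 16388200)) (a (c (l 16411488) (l 16329312)) (l 16335272))))))), by decide +kernel⟩

def k4_pm_101 : ∃ t, chk3 f_pm_101 t 3 3 1 = true :=
  ⟨(b (a (l 3) (b (a (l 3) (b (a (a (l 3) (b (a (a (b (l 3348724520475749767738949679) (b (l 142368029005922351) (l 2729754500833044443202568239))) (b (l 142277662797037615) (b (l 142165512585117743) (l 142090883216048175)))) (b (l 16403096) (b (l 16348040) (l 141779034207436847)))) (a (a (b (l 142169017333415983) (l 3)) (l 141861291394056239)) (l 141531163002175535)))) (b (b (a (l 16338024) (l 16302880)) (a (a (l 16327640) (l 16310688)) (l 16283256))) (a (l 16392144) (l 16247128)))) (a (b (a (l 3) (a (c (l 145659035367) (l 152101365783)) (l 16280704))) (a (l 3) (a (l 139753395207) (l 16255336)))) (a (b (l 16251360) (l 16225880)) (l 16278816))))) (a (l 3) (a (a (l 3) (b (a (b (l 134384627223) (l 16244296)) (b (l 16236120) (l 16223144))) (a (l 3) (l 16214584)))) (b (a (b (l 16206640)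 (l 16192920)) (l 16157472)) (a (b (l 16185144) (l 16182392)) (l 16141472))))))) (a (l 3) (a (l 3) (b (a (a (l 3) (b (l 16295136) (l 16251152))) (b (a (l 16187048) (l 16144384)) (a (l 16204720) (l 16161544)))) (a (a (l 3) (a (l 3) (b (l 16264968) (l 16315080)))) (b (a (l 16272296) (l 16186952)) (a (b (l 16251896) (l 16266032)) (l 16236752)))))))), by decide +kernel⟩

theorem s5_pm_101 : ∃ t, chk3 f_pm_101 t 7 2 1 = true := ex3_b k2_pm_101 k3_pm_101

theorem s6_pm_101 : ∃ t, chk3 f_pm_101 t 3 2 1 = true := ex3_a k1_pm_101 s5_pm_101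

theorem s7_pm_101 : ∃ t, chk3 f_pm_101 t 3 1 1 = true := ex3_b s6_pm_101 k4_pm_101

theorem s8_pm_101 : ∃ t, chk3 f_pm_101 t 1 1 1 = true := ex3_a k0_pm_101 s7_pm_101

theorem c_pm_101 : CertB 536870912 536870912 0 536870912 818728140 40265320 3 eng mog cd0q1 cd2q0 pd1 true true false .npn 1 0 1
    ndB0q1 ndB2q0 pcB1 Cut.none xt_pm_101 :=
  certB2 (fam := true) (s1 := true) (s2 := false) (a := 1) (b := 0) (c := 1) (cn := .npn) (n1 := ndB0q1) (n2 := ndB2q0) (pc := pcB1) (cut := Cut.none) (xt := xt_pm_101) (P1 := 536870912) (W1 := 536870912) (P2 := 0) (W2 := 536870912) (P3 := 818728140) (W3 := 40265320) (N0 := 3) (En := eng) (mo := mog) (C1 := cd0q1) (C2 := cd2q0) (C3 := pd1)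
    rfl (fun _ => rfl) s8_pm_101

noncomputable def f_pm_102 : ℕ → ℕ → ℕ → ℕ → Bool := onCell 1073741824 536870912 0 536870912 818728140 40265320
    (rowB 3 eng mog cd0q1 cd2q0 pd2 2 true true false .npp 1 0 2 (qsf 536870912 536870912 0 536870912 2) ndB0q1 ndB2q0 pcB2 Cut.none Ext.none)

def k0_pm_102 : ∃ t, chk3 f_pm_102 t 2 2 1 = true :=
  ⟨(a (b (a (b (a (b (a (b (l 16565760) (l 16578248)) (b (l 16523832) (l 16517048))) (a (l 16659216) (b (l 16516936) (l 16487248)))) (b (a (b (l 2) (l 16476952)) (l 2)) (a (b (l 16471472) (l 16472832)) (b (l 16430168) (l 16426224))))) (a (b (b (l 16589064) (a (l 16487880) (l 16443904))) (a (b (l 16467856) (l 16446600)) (l 16410872))) (b (a (l 16438464) (b (l 16428552) (l 16423176))) (a (l 16378720) (l 16383880))))) (b (a (b (l 2) (a (b (l 2) (l 16375944)) (l 2))) (l 2)) (a (b (a (l 16383264) (l 16335336)) (a (l 16377168) (l 16341720))) (b (b (l 2) (l 16264752)) (b (l 16272984) (l 16278936)))))) (b (b (a (a (a (b (l 16421816) (l 16393264))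 (l 16363872)) (a (l 16327176) (l 16306832))) (a (a (l 16331880) (l 16326072)) (a (l 16298144) (l 16261848)))) (a (a (b (a (l 16360368) (l 16320840)) (b (l 16315992) (l 16312696))) (b (l 16274088) (l 16232432))) (a (b (l 16289840) (l 16256176)) (b (l 16271488) (l 16267272))))) (a (b (a (b (a (l 16326864) (l 16291712)) (b (l 16301432) (l 16295144))) (b (l 16249280) (l 16241688))) (a (a (b (l 16296840) (l 16251408)) (l 16265008)) (b (l 16231296) (l 16218656)))) (b (a (b (l 16224240) (l 16215376)) (b (l 16272544) (l 16272880))) (a (b (l 16204984) (l 16191968)) (l 16304224)))))) (b (a (b (l 2) (a (b (l 2) (a (l 16205400) (l 2))) (l 2))) (l 2)) (b (b (a (a (l 138612500759) (l 16106912)) (l 2)) (a (b (a (l 16206176) (l 16124256)) (a (l 16212408) (l 16138480))) (b (l 2) (l 215921740007)))) (a (b (a (b (l 16228040) (l 16240824)) (b (l 16161280) (l 16180528))) (a (l 16380104) (l 16205008))) (b (b (l 16041040) (l 16068840)) (a (l 16140712) (l 16070872))))))), by decide +kernel⟩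

def k1_pm_102 : ∃ t, chk3 f_pm_102 t 2 3 1 = true :=
  ⟨(b (a (b (a (b (a (b (b (l 16222840) (a (l 16204776) (l 16207128))) (l 16192768)) (b (l 16200288) (l 16166392))) (a (b (l 16134136) (l 16109760)) (l 16116024))) (b (a (l 16221992) (b (l 16235720) (l 16207176))) (a (l 16072728) (l 16166192)))) (a (a (b (a (l 16083992) (l 16086400)) (a (l 16072864) (l 16076488))) (b (l 16084424) (l 16070904))) (a (b (l 16045272) (l 16044624)) (l 16116688)))) (b (a (b (a (l 16315216) (l 16239944)) (a (a (l 16206264) (l 16211720)) (l 16197800))) (b (b (l 16133032) (l 16139736)) (l 16343328))) (a (a (a (l 16143672) (a (l 16150664) (l 16153448))) (b (l 16165344) (l 16133080))) (a (l 16211144) (l 16219600))))) (a (a (b (a (b (a (l 16077872) (l 16079568)) (l 16095776)) (b (l 16075888) (l 16090168))) (a (b (l 16122032) (a (l 16154528) (l 16150896))) (l 16126816))) (b (a (b (l 16062040) (l 16080888)) (l 16095232)) (a (l 16200224) (l 16110000)))) (b (a (a (a (l 16102320) (l 16247992)) (l 16093880))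 (b (l 16292424) (l 16064480))) (a (a (a (l 16100528) (l 16094496)) (l 16079776)) (a (l 16062752) (l 16036704)))))), by decide +kernel⟩

def k2_pm_102 : ∃ t, chk3 f_pm_102 t 3 1 1 = true :=
  ⟨(b (a (b (l 2) (b (l 2) (a (b (l 2) (a (l 15997080) (l 2))) (l 2)))) (l 2)) (a (b (b (a (b (b (l 16000640) (l 16017632)) (l 16029768)) (b (l 2) (a (l 15947704) (l 2)))) (a (b (l 16039464) (l 16037688)) (a (l 15982440) (l 15946080)))) (b (a (b (l 16030976) (l 16024872)) (b (l 15982688) (l 15983704))) (a (a (l 16021400) (l 16005256)) (b (l 15982360) (l 15983688))))) (b (b (l 2) (a (a (l 15914912) (l 2)) (l 2))) (a (b (a (l 15961232) (l 15957888)) (a (l 15972528) (l 15977176))) (b (a (l 15957728) (l 2)) (a (l 15994504) (l 16024552))))))), by decide +kernel⟩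

theorem s3_pm_102 : ∃ t, chk3 f_pm_102 t 2 1 1 = true := ex3_b k0_pm_102 k1_pm_102

theorem s4_pm_102 : ∃ t, chk3 f_pm_102 t 1 1 1 = true := ex3_a s3_pm_102 k2_pm_102

theorem c_pm_102 : CertB 536870912 536870912 0 536870912 818728140 40265320 3 eng mog cd0q1 cd2q0 pd2 true true false .npp 1 0 2
    ndB0q1 ndB2q0 pcB2 Cut.none Ext.none :=
  certB2 (fam := true) (s1 := true) (s2 := false) (a := 1) (b := 0) (c := 2) (cn := .npp) (n1 := ndB0q1) (n2 := ndB2q0) (pc := pcB2) (cut := Cut.none) (xt := Ext.none) (P1 := 536870912) (W1 := 536870912) (P2 := 0) (W2 := 536870912) (P3 := 818728140) (W3 := 40265320) (N0 := 3) (En := eng) (mo := mog) (C1 := cd0q1) (C2 := cd2q0) (C3 := pd2)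
    rfl (fun _ => rfl) s4_pm_102

noncomputable def f_pm_112 : ℕ → ℕ → ℕ → ℕ → Bool := onCell 536870912 536870912 1073741824 536870912 818728140 40265320
    (rowB 3 eng mog cd0q1 cd2q1 pd2 1 true true false .dn 1 1 2 (qsf 536870912 536870912 536870912 536870912 2) ndB0q1 ndB2q1 pcB2 Cut.none Ext.none)

def k0_pm_112 : ∃ t, chk3 f_pm_112 t 1 1 1 = true :=
  ⟨(b (b (a (a (b (a (a (b (l 16173304) (l 16186288)) (l 16231208)) (l 363494116871)) (a (a (l 16165312) (l 16148128)) (l 16118192))) (b (l 1) (a (l 267393901383) (l 1)))) (l 1)) (a (a (b (a (b (b (l 16117760) (l 16095888)) (l 16057808)) (b (b (l 16103128) (l 16090720)) (l 16065664))) (a (l 15967480) (l 16000456))) (b (b (a (b (l 16077696) (l 16073984)) (l 1)) (a (l 16060664) (l 16039192))) (a (l 16018992) (l 16017360)))) (a (b (l 1) (a (l 15999544) (l 1))) (l 1)))) (a (a (b (a (b (l 15819776) (l 15645992)) (b (l 15884808) (l 15741736))) (a (b (a (l 15421680) (l 15484664)) (a (l 15208720) (l 15284896))) (b (l 15576144) (l 15395664))))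 (b (a (l 15923752) (l 15924968)) (a (b (l 15687856) (l 15535864)) (l 15727400)))) (a (a (b (l 15952312) (l 15828128)) (b (l 15959648) (l 15911408))) (b (a (l 285647680215) (l 1)) (a (l 153577490311) (b (l 15933496) (l 15994248))))))), by decide +kernel⟩

theorem c_pm_112 : CertB 536870912 536870912 536870912 536870912 818728140 40265320 3 eng mog cd0q1 cd2q1 pd2 true true false .dn 1 1 2
    ndB0q1 ndB2q1 pcB2 Cut.none Ext.none :=
  certB1 (fam := true) (s1 := true) (s2 := false) (a := 1) (b := 1) (c := 2) (cn := .dn) (n1 := ndB0q1) (n2 := ndB2q1) (pc := pcB2) (cut := Cut.none) (xt := Ext.none) (P1 := 536870912) (W1 := 536870912) (P2 := 536870912) (W2 := 536870912) (P3 := 818728140) (W3 := 40265320) (N0 := 3) (En := eng) (mo := mog) (C1 := cd0q1) (C2 := cd2q1) (C3 := pd2)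
    rfl (fun _ => rfl) k0_pm_112

noncomputable def f_pm_113 : ℕ → ℕ → ℕ → ℕ → Bool := onCell 536870912 536870912 1610612736 536870912 818728140 40265320
    (rowB 3 eng mog cd0q1 cd2q1 pd3 1 true true false .nn 1 1 3 (qsf 536870912 536870912 536870912 536870912 3) ndB0q1 ndB2q1 pcB3 Cut.none Ext.none)

def k0_pm_113 : ∃ t, chk3 f_pm_113 t 1 1 1 = true :=
  ⟨(a (b (b (a (a (b (a (b (l 15034888) (l 282491121751)) (l 158474270855)) (a (l 2) (l 301281447991))) (b (a (l 15161216) (l 15249872)) (l 306113767511))) (a (b (l 15383248) (l 15211208)) (b (l 15561968) (l 15428744)))) (a (b (a (l 2) (l 338862461175)) (l 2)) (b (a (l 329736356135) (l 15302408)) (a (l 370001394487) (l 15190200))))) (a (l 2) (b (b (a (l 2) (l 408656520919)) (l 2)) (l 2)))) (b (b (a (a (b (l 15740464) (l 15654816)) (b (l 15903328) (l 15882736))) (b (a (l 16024744) (l 16092496)) (a (l 16080008) (l 16231192)))) (a (b (a (l 15587272) (l 15893384)) (a (l 15554752) (l 15904456))) (b (a (l 16206240) (l 16378576))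 (a (l 16118000) (l 16294944))))) (b (a (b (a (l 15577968) (l 15742752)) (a (b (l 15511768) (l 2)) (l 4))) (b (l 4) (l 4))) (l 4)))), by decide +kernel⟩

theorem c_pm_113 : CertB 536870912 536870912 536870912 536870912 818728140 40265320 3 eng mog cd0q1 cd2q1 pd3 true true false .nn 1 1 3
    ndB0q1 ndB2q1 pcB3 Cut.none Ext.none :=
  certB1 (fam := true) (s1 := true) (s2 := false) (a := 1) (b := 1) (c := 3) (cn := .nn) (n1 := ndB0q1) (n2 := ndB2q1) (pc := pcB3) (cut := Cut.none) (xt := Ext.none) (P1 := 536870912) (W1 := 536870912) (P2 := 536870912) (W2 := 536870912) (P3 := 818728140) (W3 := 40265320) (N0 := 3) (En := eng) (mo := mog) (C1 := cd0q1) (C2 := cd2q1) (C3 := pd3)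
    rfl (fun _ => rfl) k0_pm_113

noncomputable def f_pm_123 : ℕ → ℕ → ℕ → ℕ → Bool := onCell 536870912 536870912 1610612736 536870912 818728140 40265320
    (rowB 3 eng mog cd0q1 cd2q2 pd3 1 true true false .npn 1 2 3 (qsf 536870912 536870912 1073741824 536870912 3) ndB0q1 ndB2q2 pcB3 Cut.none Ext.none)

def k0_pm_123 : ∃ t, chk3 f_pm_123 t 2 1 1 = true :=
  ⟨(b (b (a (a (b (a (l 382821093207) (l 399463767239)) (a (l 16101320) (l 16042400))) (b (a (l 416106617975) (l 1)) (a (l 364030541367) (l 398390048135)))) (a (b (l 1) (a (l 437581509735) (l 1))) (l 1))) (a (b (a (l 16229272) (a (l 16116624) (l 16064736))) (a (l 16277848) (l 16429416))) (a (b (a (l 395706057031) (l 425233708327)) (a (l 16165480) (l 16135792))) (a (b (l 485363217143) (l 429529335271)) (l 489658377495))))) (a (b (b (a (l 16327960) (l 16320552)) (b (a (l 16384496) (l 16379376)) (a (l 16439088) (l 16433720)))) (b (a (b (l 16485896) (l 16324264)) (b (l 16477712) (l 16519840))) (b (b (a (l 16562576) (l 16555640))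 (l 16731592)) (b (l 16601640) (b (l 16625872) (l 4)))))) (b (b (a (l 16293576) (a (l 16296344) (l 16317336))) (a (b (l 16384728) (l 16435712)) (b (l 16415096) (l 16461008)))) (b (a (b (l 16476848) (l 16512096)) (a (l 16513864) (l 16528392))) (b (a (b (l 16541432) (l 16563512)) (l 16498504)) (b (a (l 16550056) (l 16462272)) (b (l 16849360) (b (l 16629624) (b (l 16634912) (l 4)))))))))), by decide +kernel⟩

def k1_pm_123 : ∃ t, chk3 f_pm_123 t 3 1 1 = true :=
  ⟨(b (a (a (b (l 1) (b (l 1) (l 526165934103))) (l 1)) (l 1)) (a (b (a (b (l 464426179943) (b (l 16453176) (l 16485984))) (a (b (l 489122309255) (l 380137783799)) (b (l 1) (l 377990445063)))) (b (a (l 16536352) (a (l 16536344) (l 16642592))) (b (a (a (l 16573032) (l 16583744)) (a (l 16580952) (l 16572248))) (b (a (l 16598488) (a (l 16605520) (l 16598080))) (b (a (l 16611168) (l 16386112)) (a (b (l 16623352) (b (l 16629200) (l 16787216))) (b (l 16520720) (b (l 16567256) (b (a (l 16628384) (l 16631256)) (a (l 16424408) (b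 (l 16632592) (l 16485224)))))))))))) (b (b (l 1) (a (b (l 1) (a (l 468721633063) (l 1))) (l 1))) (b (a (a (b (l 16544376) (l 16555360)) (b (l 471942909479) (l 16572568))) (a (a (l 489659691687) (l 1)) (l 1))) (b (a (b (l 16560368) (a (l 16586568) (l 16601560))) (a (b (l 16636104) (l 16606104)) (a (l 411812871015) (l 1)))) (b (a (a (l 16608016) (l 16616088)) (b (a (l 16615712) (l 16633952)) (a (a (l 16623792) (l 16623216)) (a (l 16620192) (l 16619088))))) (b (a (a (l 16622784) (l 16555824)) (a (b (l 16630064) (l 16630776)) (b (l 16600008) (l 16590832)))) (a (b (a (l 16634960) (l 16640864)) (b (l 16512632) (b (l 16634184) (b (l 16629752) (l 1060017290359))))) (b (a (l 16628504) (l 16556768)) (b (l 1081492182695) (l 4))))))))))), by decide +kernel⟩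

theorem s2_pm_123 : ∃ t, chk3 f_pm_123 t 1 1 1 = true := ex3_a k0_pm_123 k1_pm_123

theorem c_pm_123 : CertB 536870912 536870912 1073741824 536870912 818728140 40265320 3 eng mog cd0q1 cd2q2 pd3 true true false .npn 1 2 3
    ndB0q1 ndB2q2 pcB3 Cut.none Ext.none :=
  certB1 (fam := true) (s1 := true) (s2 := false) (a := 1) (b := 2) (c := 3) (cn := .npn) (n1 := ndB0q1) (n2 := ndB2q2) (pc := pcB3) (cut := Cut.none) (xt := Ext.none) (P1 := 536870912) (W1 := 536870912) (P2 := 1073741824) (W2 := 536870912) (P3 := 818728140) (W3 := 40265320) (N0 := 3) (En := eng) (mo := mog) (C1 := cd0q1) (C2 := cd2q2) (C3 := pd3)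
    rfl (fun _ => rfl) s2_pm_123

noncomputable def f_pm_133 : ℕ → ℕ → ℕ → ℕ → Bool := onCell 536870912 536870912 0 1230186008 818728140 40265320
    (rowB 3 eng mog cd0q1 cd2q3 pd3 0 true true false .dn 1 3 3 (qsf 536870912 536870912 0 1230186008 3) ndB0q1 ndB2q3 pcB3 Cut.none Ext.none)

def k0_pm_133 : ∃ t, chk3 f_pm_133 t 1 1 1 = true :=
  ⟨(b (l 2) (b (l 2) (a (l 4) (l 2)))), by decide +kernel⟩

theorem c_pm_133 : CertB 536870912 536870912 0 1230186008 818728140 40265320 3 eng mog cd0q1 cd2q3 pd3 true true false .dn 1 3 3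
    ndB0q1 ndB2q3 pcB3 Cut.none Ext.none :=
  certB0 (fam := true) (s1 := true) (s2 := false) (a := 1) (b := 3) (c := 3) (cn := .dn) (n1 := ndB0q1) (n2 := ndB2q3) (pc := pcB3) (cut := Cut.none) (xt := Ext.none) (P1 := 536870912) (W1 := 536870912) (P2 := 0) (W2 := 1230186008) (P3 := 818728140) (W3 := 40265320) (N0 := 3) (En := eng) (mo := mog) (C1 := cd0q1) (C2 := cd2q3) (C3 := pd3)
    rfl k0_pm_133

noncomputable def f_pm_202 : ℕ → ℕ → ℕ → ℕ → Bool := onCell 0 536870912 0 536870912 818728140 40265320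
    (rowB 3 eng mog cd0q2 cd2q0 pd2 0 true true false .pp 2 0 2 (qsf 0 536870912 0 536870912 2) ndB0q2 ndB2q0 pcB2 Cut.none Ext.none)

def k0_pm_202 : ∃ t, chk3 f_pm_202 t 2 1 1 = true :=
  ⟨(b (a (b (a (b (b (l 16459112) (l 16424880)) (l 16387576)) (b (b (l 16464024) (l 16440336)) (l 16394416))) (b (b (l 16362496) (b (l 16354040) (l 16354504))) (b (a (l 16384720) (l 16358464)) (l 16561784)))) (b (b (a (b (l 16487928) (l 16451952)) (b (l 16514080) (l 16464048))) (a (l 16395560) (b (l 16417312) (l 16381472)))) (b (b (l 16389512) (b (l 16328704) (l 16321288))) (b (a (l 16335112) (l 16312424)) (l 16324704))))) (a (b (b (b (l 16291888) (l 4)) (l 4)) (l 2)) (b (b (b (a (l 16345680) (l 16311816)) (l 16324968)) (a (l 16361192) (l 16301128))) (l 4)))), by decide +kernel⟩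

def k1_pm_202 : ∃ t, chk3 f_pm_202 t 3 1 1 = true :=
  ⟨(b (a (b (b (a (b (l 16533256) (l 16475176)) (b (a (l 16541872) (l 16543808)) (a (l 16477440) (l 16474552)))) (a (b (l 16421488) (l 16371256)) (b (l 16392168) (l 16354592)))) (b (b (a (l 16330592) (l 16302408)) (a (b (l 16304872) (l 16290304)) (b (l 16267680) (l 16248952)))) (b (a (l 16284016) (l 16387960)) (a (l 16278216) (l 16231912))))) (b (b (a (b (a (l 16459912) (b (l 16565224) (l 16524576))) (a (l 16469472) (l 16465280))) (b (a (b (a (l 16567056) (l 16567736)) (l 16523960)) (a (b (b (l 16579200) (l 16556168)) (l 16522328)) (b (l 16567312) (l 16519944)))) (a (l 16460896) (a (l 16456088) (l 16451600))))) (a (b (a (l 16399304) (l 16389904)) (l 16452168)) (a (b (l 16380096) (l 16304448)) (b (l 16367824) (l 16287048))))) (b (b (a (l 16262944) (a (l 16233584) (l 16212152))) (a (b (l 16220144) (l 16199192)) (b (l 16171928) (l 16146344)))) (b (a (l 16185824) (l 16317152)) (a (l 16166904) (l 16105256)))))) (b (a (b (b (a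 (l 16272296) (l 16217696)) (l 16352064)) (a (l 16242728) (l 16177304))) (b (a (b (l 16213072) (l 16124728)) (b (l 16081408) (l 16045896))) (a (l 16097616) (l 16032104)))) (a (b (a (l 16276456) (l 16181480)) (l 2)) (b (a (l 16098480) (l 16010288)) (a (l 16145576) (l 16057160)))))), by decide +kernel⟩

theorem s2_pm_202 : ∃ t, chk3 f_pm_202 t 1 1 1 = true := ex3_a k0_pm_202 k1_pm_202

theorem c_pm_202 : CertB 0 536870912 0 536870912 818728140 40265320 3 eng mog cd0q2 cd2q0 pd2 true true false .pp 2 0 2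
    ndB0q2 ndB2q0 pcB2 Cut.none Ext.none :=
  certB0 (fam := true) (s1 := true) (s2 := false) (a := 2) (b := 0) (c := 2) (cn := .pp) (n1 := ndB0q2) (n2 := ndB2q0) (pc := pcB2) (cut := Cut.none) (xt := Ext.none) (P1 := 0) (W1 := 536870912) (P2 := 0) (W2 := 536870912) (P3 := 818728140) (W3 := 40265320) (N0 := 3) (En := eng) (mo := mog) (C1 := cd0q2) (C2 := cd2q0) (C3 := pd2)
    rfl s2_pm_202

noncomputable def f_pm_203 : ℕ → ℕ → ℕ → ℕ → Bool := onCell 0 536870912 1610612736 536870912 818728140 40265320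
    (rowB 3 eng mog cd0q2 cd2q0 pd3 1 true true false .up 2 0 3 (qsf 0 536870912 0 536870912 3) ndB0q2 ndB2q0 pcB3 Cut.none Ext.none)

def k0_pm_203 : ∃ t, chk3 f_pm_203 t 1 1 1 = true :=
  ⟨(b (a (b (l 4) (l 4)) (b (a (b (b (l 16229784) (l 16249856)) (b (l 16283480) (l 4))) (b (l 16148304) (b (l 16227312) (l 2)))) (a (l 2) (l 2)))) (l 2)), by decide +kernel⟩

theorem c_pm_203 : CertB 0 536870912 0 536870912 818728140 40265320 3 eng mog cd0q2 cd2q0 pd3 true true false .up 2 0 3
    ndB0q2 ndB2q0 pcB3 Cut.none Ext.none :=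
  certB1 (fam := true) (s1 := true) (s2 := false) (a := 2) (b := 0) (c := 3) (cn := .up) (n1 := ndB0q2) (n2 := ndB2q0) (pc := pcB3) (cut := Cut.none) (xt := Ext.none) (P1 := 0) (W1 := 536870912) (P2 := 0) (W2 := 536870912) (P3 := 818728140) (W3 := 40265320) (N0 := 3) (En := eng) (mo := mog) (C1 := cd0q2) (C2 := cd2q0) (C3 := pd3)
    rfl (fun _ => rfl) k0_pm_203

noncomputable def f_pm_213 : ℕ → ℕ → ℕ → ℕ → Bool := onCell 0 536870912 1610612736 536870912 818728140 40265320
    (rowB 3 eng mog cd0q2 cd2q1 pd3 1 true true false .pnn 2 1 3 (qsf 0 536870912 536870912 536870912 3) ndB0q2 ndB2q1 pcB3 Cut.none Ext.none)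

def k0_pm_213 : ∃ t, chk3 f_pm_213 t 1 1 1 = true :=
  ⟨(b (a (b (l 4) (l 4)) (b (a (b (l 1) (b (l 16259320) (l 4))) (b (l 16136232) (b (l 16215168) (l 16286960)))) (a (l 4) (b (l 16409248) (l 4))))) (l 4)), by decide +kernel⟩

theorem c_pm_213 : CertB 0 536870912 536870912 536870912 818728140 40265320 3 eng mog cd0q2 cd2q1 pd3 true true false .pnn 2 1 3
    ndB0q2 ndB2q1 pcB3 Cut.none Ext.none :=
  certB1 (fam := true) (s1 := true) (s2 := false) (a := 2) (b := 1) (c := 3) (cn := .pnn) (n1 := ndB0q2) (n2 := ndB2q1) (pc := pcB3) (cut := Cut.none) (xt := Ext.none) (P1 := 0) (W1 := 536870912) (P2 := 536870912) (W2 := 536870912) (P3 := 818728140) (W3 := 40265320) (N0 := 3) (En := eng) (mo := mog) (C1 := cd0q2) (C2 := cd2q1) (C3 := pd3)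
    rfl (fun _ => rfl) k0_pm_213

noncomputable def f_mm_001 : ℕ → ℕ → ℕ → ℕ → Bool := onCell 0 536870912 0 536870912 818728140 40265320
    (rowB 3 eng mog cd0q0 cd2q0 pd1 0 true false false .up 0 0 1 (qsf 0 536870912 0 536870912 1) ndB0q0 ndB2q0 pcB1 Cut.none Ext.none)

def k0_mm_001 : ∃ t, chk3 f_mm_001 t 1 1 1 = true :=
  ⟨(l 4), by decide +kernel⟩

theorem c_mm_001 : CertB 0 536870912 0 536870912 818728140 40265320 3 eng mog cd0q0 cd2q0 pd1 true false false .up 0 0 1
    ndB0q0 ndB2q0 pcB1 Cut.none Ext.none :=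
  certB0 (fam := true) (s1 := false) (s2 := false) (a := 0) (b := 0) (c := 1) (cn := .up) (n1 := ndB0q0) (n2 := ndB2q0) (pc := pcB1) (cut := Cut.none) (xt := Ext.none) (P1 := 0) (W1 := 536870912) (P2 := 0) (W2 := 536870912) (P3 := 818728140) (W3 := 40265320) (N0 := 3) (En := eng) (mo := mog) (C1 := cd0q0) (C2 := cd2q0) (C3 := pd1)
    rfl k0_mm_001

noncomputable def f_mm_011 : ℕ → ℕ → ℕ → ℕ → Bool := onCell 0 536870912 536870912 536870912 818728140 40265320
    (rowB 3 eng mog cd0q0 cd2q1 pd1 0 true false false .pnn 0 1 1 (qsf 0 536870912 536870912 536870912 1) ndB0q0 ndB2q1 pcB1 Cut.none Ext.none)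

def k0_mm_011 : ∃ t, chk3 f_mm_011 t 1 1 1 = true :=
  ⟨(l 4), by decide +kernel⟩

theorem c_mm_011 : CertB 0 536870912 536870912 536870912 818728140 40265320 3 eng mog cd0q0 cd2q1 pd1 true false false .pnn 0 1 1
    ndB0q0 ndB2q1 pcB1 Cut.none Ext.none :=
  certB0 (fam := true) (s1 := false) (s2 := false) (a := 0) (b := 1) (c := 1) (cn := .pnn) (n1 := ndB0q0) (n2 := ndB2q1) (pc := pcB1) (cut := Cut.none) (xt := Ext.none) (P1 := 0) (W1 := 536870912) (P2 := 536870912) (W2 := 536870912) (P3 := 818728140) (W3 := 40265320) (N0 := 3) (En := eng) (mo := mog) (C1 := cd0q0) (C2 := cd2q1) (C3 := pd1)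
    rfl k0_mm_011

noncomputable def f_mm_012 : ℕ → ℕ → ℕ → ℕ → Bool := onCell 0 536870912 536870912 536870912 818728140 40265320
    (rowB 3 eng mog cd0q0 cd2q1 pd2 0 true false false .pnp 0 1 2 (qsf 0 536870912 536870912 536870912 2) ndB0q0 ndB2q1 pcB2 Cut.none Ext.none)

def k0_mm_012 : ∃ t, chk3 f_mm_012 t 1 1 1 = true :=
  ⟨(l 4), by decide +kernel⟩

theorem c_mm_012 : CertB 0 536870912 536870912 536870912 818728140 40265320 3 eng mog cd0q0 cd2q1 pd2 true false false .pnp 0 1 2
    ndB0q0 ndB2q1 pcB2 Cut.none Ext.none :=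
  certB0 (fam := true) (s1 := false) (s2 := false) (a := 0) (b := 1) (c := 2) (cn := .pnp) (n1 := ndB0q0) (n2 := ndB2q1) (pc := pcB2) (cut := Cut.none) (xt := Ext.none) (P1 := 0) (W1 := 536870912) (P2 := 536870912) (W2 := 536870912) (P3 := 818728140) (W3 := 40265320) (N0 := 3) (En := eng) (mo := mog) (C1 := cd0q0) (C2 := cd2q1) (C3 := pd2)
    rfl k0_mm_012

noncomputable def f_mm_022 : ℕ → ℕ → ℕ → ℕ → Bool := onCell 0 536870912 1073741824 536870912 818728140 40265320
    (rowB 3 eng mog cd0q0 cd2q2 pd2 0 true false false .pp 0 2 2 (qsf 0 536870912 1073741824 536870912 2) ndB0q0 ndB2q2 pcB2 Cut.none Ext.none)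

def k0_mm_022 : ∃ t, chk3 f_mm_022 t 1 1 1 = true :=
  ⟨(l 4), by decide +kernel⟩

theorem c_mm_022 : CertB 0 536870912 1073741824 536870912 818728140 40265320 3 eng mog cd0q0 cd2q2 pd2 true false false .pp 0 2 2
    ndB0q0 ndB2q2 pcB2 Cut.none Ext.none :=
  certB0 (fam := true) (s1 := false) (s2 := false) (a := 0) (b := 2) (c := 2) (cn := .pp) (n1 := ndB0q0) (n2 := ndB2q2) (pc := pcB2) (cut := Cut.none) (xt := Ext.none) (P1 := 0) (W1 := 536870912) (P2 := 1073741824) (W2 := 536870912) (P3 := 818728140) (W3 := 40265320) (N0 := 3) (En := eng) (mo := mog) (C1 := cd0q0) (C2 := cd2q2) (C3 := pd2)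
    rfl k0_mm_022

noncomputable def f_mm_023 : ℕ → ℕ → ℕ → ℕ → Bool := onCell 0 536870912 1073741824 536870912 818728140 40265320
    (rowB 3 eng mog cd0q0 cd2q2 pd3 0 true false false .up 0 2 3 (qsf 0 536870912 1073741824 536870912 3) ndB0q0 ndB2q2 pcB3 Cut.none Ext.none)

def k0_mm_023 : ∃ t, chk3 f_mm_023 t 1 1 1 = true :=
  ⟨(l 4), by decide +kernel⟩

theorem c_mm_023 : CertB 0 536870912 1073741824 536870912 818728140 40265320 3 eng mog cd0q0 cd2q2 pd3 true false false .up 0 2 3
    ndB0q0 ndB2q2 pcB3 Cut.none Ext.none :=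
  certB0 (fam := true) (s1 := false) (s2 := false) (a := 0) (b := 2) (c := 3) (cn := .up) (n1 := ndB0q0) (n2 := ndB2q2) (pc := pcB3) (cut := Cut.none) (xt := Ext.none) (P1 := 0) (W1 := 536870912) (P2 := 1073741824) (W2 := 536870912) (P3 := 818728140) (W3 := 40265320) (N0 := 3) (En := eng) (mo := mog) (C1 := cd0q0) (C2 := cd2q2) (C3 := pd3)
    rfl k0_mm_023

noncomputable def f_mm_033 : ℕ → ℕ → ℕ → ℕ → Bool := onCell 0 536870912 0 1230186008 818728140 40265320
    (rowB 3 eng mog cd0q0 cd2q3 pd3 0 true false false .pnn 0 3 3 (qsf 0 536870912 0 1230186008 3) ndB0q0 ndB2q3 pcB3 Cut.none Ext.none)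

def k0_mm_033 : ∃ t, chk3 f_mm_033 t 1 1 1 = true :=
  ⟨(l 5), by decide +kernel⟩

theorem c_mm_033 : CertB 0 536870912 0 1230186008 818728140 40265320 3 eng mog cd0q0 cd2q3 pd3 true false false .pnn 0 3 3
    ndB0q0 ndB2q3 pcB3 Cut.none Ext.none :=
  certB0 (fam := true) (s1 := false) (s2 := false) (a := 0) (b := 3) (c := 3) (cn := .pnn) (n1 := ndB0q0) (n2 := ndB2q3) (pc := pcB3) (cut := Cut.none) (xt := Ext.none) (P1 := 0) (W1 := 536870912) (P2 := 0) (W2 := 1230186008) (P3 := 818728140) (W3 := 40265320) (N0 := 3) (En := eng) (mo := mog) (C1 := cd0q0) (C2 := cd2q3) (C3 := pd3)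
    rfl k0_mm_033

noncomputable def f_mm_101 : ℕ → ℕ → ℕ → ℕ → Bool := onCell 536870912 536870912 0 536870912 818728140 40265320
    (rowB 3 eng mog cd0q1 cd2q0 pd1 0 true false false .npn 1 0 1 (qsf 536870912 536870912 0 536870912 1) ndB0q1 ndB2q0 pcB1 Cut.none Ext.none)

def k0_mm_101 : ∃ t, chk3 f_mm_101 t 1 1 1 = true :=
  ⟨(l 4), by decide +kernel⟩

theorem c_mm_101 : CertB 536870912 536870912 0 536870912 818728140 40265320 3 eng mog cd0q1 cd2q0 pd1 true false false .npn 1 0 1
    ndB0q1 ndB2q0 pcB1 Cut.none Ext.none :=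
  certB0 (fam := true) (s1 := false) (s2 := false) (a := 1) (b := 0) (c := 1) (cn := .npn) (n1 := ndB0q1) (n2 := ndB2q0) (pc := pcB1) (cut := Cut.none) (xt := Ext.none) (P1 := 536870912) (W1 := 536870912) (P2 := 0) (W2 := 536870912) (P3 := 818728140) (W3 := 40265320) (N0 := 3) (En := eng) (mo := mog) (C1 := cd0q1) (C2 := cd2q0) (C3 := pd1)
    rfl k0_mm_101

noncomputable def f_mm_102 : ℕ → ℕ → ℕ → ℕ → Bool := onCell 536870912 536870912 0 536870912 818728140 40265320
    (rowB 3 eng mog cd0q1 cd2q0 pd2 0 true false false .npp 1 0 2 (qsf 536870912 536870912 0 536870912 2) ndB0q1 ndB2q0 pcB2 Cut.none Ext.none)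

def k0_mm_102 : ∃ t, chk3 f_mm_102 t 1 1 1 = true :=
  ⟨(l 4), by decide +kernel⟩

theorem c_mm_102 : CertB 536870912 536870912 0 536870912 818728140 40265320 3 eng mog cd0q1 cd2q0 pd2 true false false .npp 1 0 2
    ndB0q1 ndB2q0 pcB2 Cut.none Ext.none :=
  certB0 (fam := true) (s1 := false) (s2 := false) (a := 1) (b := 0) (c := 2) (cn := .npp) (n1 := ndB0q1) (n2 := ndB2q0) (pc := pcB2) (cut := Cut.none) (xt := Ext.none) (P1 := 536870912) (W1 := 536870912) (P2 := 0) (W2 := 536870912) (P3 := 818728140) (W3 := 40265320) (N0 := 3) (En := eng) (mo := mog) (C1 := cd0q1) (C2 := cd2q0) (C3 := pd2)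
    rfl k0_mm_102

noncomputable def f_mm_112 : ℕ → ℕ → ℕ → ℕ → Bool := onCell 536870912 536870912 536870912 536870912 818728140 40265320
    (rowB 3 eng mog cd0q1 cd2q1 pd2 0 true false false .dn 1 1 2 (qsf 536870912 536870912 536870912 536870912 2) ndB0q1 ndB2q1 pcB2 Cut.none Ext.none)

def k0_mm_112 : ∃ t, chk3 f_mm_112 t 1 1 1 = true :=
  ⟨(l 4), by decide +kernel⟩

theorem c_mm_112 : CertB 536870912 536870912 536870912 536870912 818728140 40265320 3 eng mog cd0q1 cd2q1 pd2 true false false .dn 1 1 2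
    ndB0q1 ndB2q1 pcB2 Cut.none Ext.none :=
  certB0 (fam := true) (s1 := false) (s2 := false) (a := 1) (b := 1) (c := 2) (cn := .dn) (n1 := ndB0q1) (n2 := ndB2q1) (pc := pcB2) (cut := Cut.none) (xt := Ext.none) (P1 := 536870912) (W1 := 536870912) (P2 := 536870912) (W2 := 536870912) (P3 := 818728140) (W3 := 40265320) (N0 := 3) (En := eng) (mo := mog) (C1 := cd0q1) (C2 := cd2q1) (C3 := pd2)
    rfl k0_mm_112

noncomputable def f_mm_113 : ℕ → ℕ → ℕ → ℕ → Bool := onCell 536870912 536870912 536870912 536870912 818728140 40265320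
    (rowB 3 eng mog cd0q1 cd2q1 pd3 0 true false false .nn 1 1 3 (qsf 536870912 536870912 536870912 536870912 3) ndB0q1 ndB2q1 pcB3 Cut.none Ext.none)

def k0_mm_113 : ∃ t, chk3 f_mm_113 t 1 1 1 = true :=
  ⟨(l 4), by decide +kernel⟩

theorem c_mm_113 : CertB 536870912 536870912 536870912 536870912 818728140 40265320 3 eng mog cd0q1 cd2q1 pd3 true false false .nn 1 1 3
    ndB0q1 ndB2q1 pcB3 Cut.none Ext.none :=
  certB0 (fam := true) (s1 := false) (s2 := false) (a := 1) (b := 1) (c := 3) (cn := .nn) (n1 := ndB0q1) (n2 := ndB2q1) (pc := pcB3) (cut := Cut.none) (xt := Ext.none) (P1 := 536870912) (W1 := 536870912) (P2 := 536870912) (W2 := 536870912) (P3 := 818728140) (W3 := 40265320) (N0 := 3) (En := eng) (mo := mog) (C1 := cd0q1) (C2 := cd2q1) (C3 := pd3)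
    rfl k0_mm_113

noncomputable def f_mm_123 : ℕ → ℕ → ℕ → ℕ → Bool := onCell 536870912 536870912 1073741824 536870912 818728140 40265320
    (rowB 3 eng mog cd0q1 cd2q2 pd3 0 true false false .npn 1 2 3 (qsf 536870912 536870912 1073741824 536870912 3) ndB0q1 ndB2q2 pcB3 Cut.none Ext.none)

def k0_mm_123 : ∃ t, chk3 f_mm_123 t 1 1 1 = true :=
  ⟨(l 4), by decide +kernel⟩

theorem c_mm_123 : CertB 536870912 536870912 1073741824 536870912 818728140 40265320 3 eng mog cd0q1 cd2q2 pd3 true false false .npn 1 2 3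
    ndB0q1 ndB2q2 pcB3 Cut.none Ext.none :=
  certB0 (fam := true) (s1 := false) (s2 := false) (a := 1) (b := 2) (c := 3) (cn := .npn) (n1 := ndB0q1) (n2 := ndB2q2) (pc := pcB3) (cut := Cut.none) (xt := Ext.none) (P1 := 536870912) (W1 := 536870912) (P2 := 1073741824) (W2 := 536870912) (P3 := 818728140) (W3 := 40265320) (N0 := 3) (En := eng) (mo := mog) (C1 := cd0q1) (C2 := cd2q2) (C3 := pd3)
    rfl k0_mm_123

noncomputable def f_mm_133 : ℕ → ℕ → ℕ → ℕ → Bool := onCell 536870912 536870912 0 1230186008 818728140 40265320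
    (rowB 3 eng mog cd0q1 cd2q3 pd3 0 true false false .dn 1 3 3 (qsf 536870912 536870912 0 1230186008 3) ndB0q1 ndB2q3 pcB3 Cut.none Ext.none)

def k0_mm_133 : ∃ t, chk3 f_mm_133 t 1 1 1 = true :=
  ⟨(l 4), by decide +kernel⟩

theorem c_mm_133 : CertB 536870912 536870912 0 1230186008 818728140 40265320 3 eng mog cd0q1 cd2q3 pd3 true false false .dn 1 3 3
    ndB0q1 ndB2q3 pcB3 Cut.none Ext.none :=
  certB0 (fam := true) (s1 := false) (s2 := false) (a := 1) (b := 3) (c := 3) (cn := .dn) (n1 := ndB0q1) (n2 := ndB2q3) (pc := pcB3) (cut := Cut.none) (xt := Ext.none) (P1 := 536870912) (W1 := 536870912) (P2 := 0) (W2 := 1230186008) (P3 := 818728140) (W3 := 40265320) (N0 := 3) (En := eng) (mo := mog) (C1 := cd0q1) (C2 := cd2q3) (C3 := pd3)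
    rfl k0_mm_133

noncomputable def f_mm_202 : ℕ → ℕ → ℕ → ℕ → Bool := onCell 0 536870912 0 536870912 818728140 40265320
    (rowB 3 eng mog cd0q2 cd2q0 pd2 0 true false false .pp 2 0 2 (qsf 0 536870912 0 536870912 2) ndB0q2 ndB2q0 pcB2 Cut.none Ext.none)

def k0_mm_202 : ∃ t, chk3 f_mm_202 t 1 1 1 = true :=
  ⟨(b (a (a (b (b (b (a (l 16436056) (l 16425032)) (l 16404336)) (b (l 16383616) (a (l 16368672) (l 16377552)))) (b (b (a (l 16366240) (l 16395360)) (b (l 16396856) (l 4))) (l 4))) (b (b (b (a (l 16426848) (l 16432504)) (a (l 16400920) (l 16297432))) (b (a (l 16398064) (l 4)) (l 4))) (l 4))) (a (b (b (a (b (b (l 16419944) (l 16463000)) (l 4)) (l 4)) (l 4)) (l 4)) (l 4))) (l 4)), by decide +kernel⟩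

theorem c_mm_202 : CertB 0 536870912 0 536870912 818728140 40265320 3 eng mog cd0q2 cd2q0 pd2 true false false .pp 2 0 2
    ndB0q2 ndB2q0 pcB2 Cut.none Ext.none :=
  certB0 (fam := true) (s1 := false) (s2 := false) (a := 2) (b := 0) (c := 2) (cn := .pp) (n1 := ndB0q2) (n2 := ndB2q0) (pc := pcB2) (cut := Cut.none) (xt := Ext.none) (P1 := 0) (W1 := 536870912) (P2 := 0) (W2 := 536870912) (P3 := 818728140) (W3 := 40265320) (N0 := 3) (En := eng) (mo := mog) (C1 := cd0q2) (C2 := cd2q0) (C3 := pd2)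
    rfl k0_mm_202

noncomputable def f_mm_203 : ℕ → ℕ → ℕ → ℕ → Bool := onCell 0 536870912 1610612736 536870912 818728140 40265320
    (rowB 3 eng mog cd0q2 cd2q0 pd3 1 true false false .up 2 0 3 (qsf 0 536870912 0 536870912 3) ndB0q2 ndB2q0 pcB3 Cut.none Ext.none)

def k0_mm_203 : ∃ t, chk3 f_mm_203 t 1 1 1 = true :=
  ⟨(l 4), by decide +kernel⟩

theorem c_mm_203 : CertB 0 536870912 0 536870912 818728140 40265320 3 eng mog cd0q2 cd2q0 pd3 true false false .up 2 0 3
    ndB0q2 ndB2q0 pcB3 Cut.none Ext.none :=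
  certB1 (fam := true) (s1 := false) (s2 := false) (a := 2) (b := 0) (c := 3) (cn := .up) (n1 := ndB0q2) (n2 := ndB2q0) (pc := pcB3) (cut := Cut.none) (xt := Ext.none) (P1 := 0) (W1 := 536870912) (P2 := 0) (W2 := 536870912) (P3 := 818728140) (W3 := 40265320) (N0 := 3) (En := eng) (mo := mog) (C1 := cd0q2) (C2 := cd2q0) (C3 := pd3)
    rfl (fun _ => rfl) k0_mm_203

noncomputable def f_mm_213 : ℕ → ℕ → ℕ → ℕ → Bool := onCell 0 536870912 536870912 536870912 818728140 40265320
    (rowB 3 eng mog cd0q2 cd2q1 pd3 0 true false false .pnn 2 1 3 (qsf 0 536870912 536870912 536870912 3) ndB0q2 ndB2q1 pcB3 Cut.none Ext.none)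

def k0_mm_213 : ∃ t, chk3 f_mm_213 t 1 1 1 = true :=
  ⟨(l 4), by decide +kernel⟩

theorem c_mm_213 : CertB 0 536870912 536870912 536870912 818728140 40265320 3 eng mog cd0q2 cd2q1 pd3 true false false .pnn 2 1 3
    ndB0q2 ndB2q1 pcB3 Cut.none Ext.none :=
  certB0 (fam := true) (s1 := false) (s2 := false) (a := 2) (b := 1) (c := 3) (cn := .pnn) (n1 := ndB0q2) (n2 := ndB2q1) (pc := pcB3) (cut := Cut.none) (xt := Ext.none) (P1 := 0) (W1 := 536870912) (P2 := 536870912) (W2 := 536870912) (P3 := 818728140) (W3 := 40265320) (N0 := 3) (En := eng) (mo := mog) (C1 := cd0q2) (C2 := cd2q1) (C3 := pd3)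
    rfl k0_mm_213

end Pool.Agent.Strip051.G.I7625_8000.Tab.C.BA02

namespace Pool.Agent.Strip051.G.I7625_8000.Tab.C.BA03

open Pool.Agent.Strip051.PB Pool.Agent.Strip051.PB.T
open Pool.Agent.Strip051.G.I7625_8000.Tab

noncomputable def f_pp_001 : ℕ → ℕ → ℕ → ℕ → Bool := onCell 0 536870912 0 536870912 818728140 40265320
    (rowB 3 eng mog cd0q0 cd3q0 pd1 0 true true true .up 0 0 1 (qsf 0 536870912 0 536870912 1) ndB0q0 ndB3q0 pcB1 Cut.none Ext.none)

def k0_pp_001 : ∃ t, chk3 f_pp_001 t 1 1 1 = true :=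
  ⟨(l 4), by decide +kernel⟩

theorem c_pp_001 : CertB 0 536870912 0 536870912 818728140 40265320 3 eng mog cd0q0 cd3q0 pd1 true true true .up 0 0 1
    ndB0q0 ndB3q0 pcB1 Cut.none Ext.none :=
  certB0 (fam := true) (s1 := true) (s2 := true) (a := 0) (b := 0) (c := 1) (cn := .up) (n1 := ndB0q0) (n2 := ndB3q0) (pc := pcB1) (cut := Cut.none) (xt := Ext.none) (P1 := 0) (W1 := 536870912) (P2 := 0) (W2 := 536870912) (P3 := 818728140) (W3 := 40265320) (N0 := 3) (En := eng) (mo := mog) (C1 := cd0q0) (C2 := cd3q0) (C3 := pd1)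
    rfl k0_pp_001

noncomputable def f_pp_011 : ℕ → ℕ → ℕ → ℕ → Bool := onCell 0 536870912 536870912 536870912 818728140 40265320
    (rowB 3 eng mog cd0q0 cd3q1 pd1 0 true true true .pnn 0 1 1 (qsf 0 536870912 536870912 536870912 1) ndB0q0 ndB3q1 pcB1 Cut.none Ext.none)

def k0_pp_011 : ∃ t, chk3 f_pp_011 t 1 1 1 = true :=
  ⟨(l 4), by decide +kernel⟩

theorem c_pp_011 : CertB 0 536870912 536870912 536870912 818728140 40265320 3 eng mog cd0q0 cd3q1 pd1 true true true .pnn 0 1 1
    ndB0q0 ndB3q1 pcB1 Cut.none Ext.none :=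
  certB0 (fam := true) (s1 := true) (s2 := true) (a := 0) (b := 1) (c := 1) (cn := .pnn) (n1 := ndB0q0) (n2 := ndB3q1) (pc := pcB1) (cut := Cut.none) (xt := Ext.none) (P1 := 0) (W1 := 536870912) (P2 := 536870912) (W2 := 536870912) (P3 := 818728140) (W3 := 40265320) (N0 := 3) (En := eng) (mo := mog) (C1 := cd0q0) (C2 := cd3q1) (C3 := pd1)
    rfl k0_pp_011

noncomputable def f_pp_012 : ℕ → ℕ → ℕ → ℕ → Bool := onCell 0 536870912 536870912 536870912 818728140 40265320
    (rowB 3 eng mog cd0q0 cd3q1 pd2 0 true true true .pnp 0 1 2 (qsf 0 536870912 536870912 536870912 2) ndB0q0 ndB3q1 pcB2 Cut.none Ext.none)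

def k0_pp_012 : ∃ t, chk3 f_pp_012 t 1 1 1 = true :=
  ⟨(l 4), by decide +kernel⟩

theorem c_pp_012 : CertB 0 536870912 536870912 536870912 818728140 40265320 3 eng mog cd0q0 cd3q1 pd2 true true true .pnp 0 1 2
    ndB0q0 ndB3q1 pcB2 Cut.none Ext.none :=
  certB0 (fam := true) (s1 := true) (s2 := true) (a := 0) (b := 1) (c := 2) (cn := .pnp) (n1 := ndB0q0) (n2 := ndB3q1) (pc := pcB2) (cut := Cut.none) (xt := Ext.none) (P1 := 0) (W1 := 536870912) (P2 := 536870912) (W2 := 536870912) (P3 := 818728140) (W3 := 40265320) (N0 := 3) (En := eng) (mo := mog) (C1 := cd0q0) (C2 := cd3q1) (C3 := pd2)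
    rfl k0_pp_012

noncomputable def f_pp_022 : ℕ → ℕ → ℕ → ℕ → Bool := onCell 0 536870912 1073741824 536870912 818728140 40265320
    (rowB 3 eng mog cd0q0 cd3q2 pd2 0 true true true .pp 0 2 2 (qsf 0 536870912 1073741824 536870912 2) ndB0q0 ndB3q2 pcB2 Cut.none Ext.none)

def k0_pp_022 : ∃ t, chk3 f_pp_022 t 1 1 1 = true :=
  ⟨(l 4), by decide +kernel⟩

theorem c_pp_022 : CertB 0 536870912 1073741824 536870912 818728140 40265320 3 eng mog cd0q0 cd3q2 pd2 true true true .pp 0 2 2
    ndB0q0 ndB3q2 pcB2 Cut.none Ext.none :=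
  certB0 (fam := true) (s1 := true) (s2 := true) (a := 0) (b := 2) (c := 2) (cn := .pp) (n1 := ndB0q0) (n2 := ndB3q2) (pc := pcB2) (cut := Cut.none) (xt := Ext.none) (P1 := 0) (W1 := 536870912) (P2 := 1073741824) (W2 := 536870912) (P3 := 818728140) (W3 := 40265320) (N0 := 3) (En := eng) (mo := mog) (C1 := cd0q0) (C2 := cd3q2) (C3 := pd2)
    rfl k0_pp_022

noncomputable def f_pp_023 : ℕ → ℕ → ℕ → ℕ → Bool := onCell 0 536870912 1073741824 536870912 818728140 40265320
    (rowB 3 eng mog cd0q0 cd3q2 pd3 0 true true true .up 0 2 3 (qsf 0 536870912 1073741824 536870912 3) ndB0q0 ndB3q2 pcB3 Cut.none Ext.none)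

def k0_pp_023 : ∃ t, chk3 f_pp_023 t 1 1 1 = true :=
  ⟨(l 4), by decide +kernel⟩

theorem c_pp_023 : CertB 0 536870912 1073741824 536870912 818728140 40265320 3 eng mog cd0q0 cd3q2 pd3 true true true .up 0 2 3
    ndB0q0 ndB3q2 pcB3 Cut.none Ext.none :=
  certB0 (fam := true) (s1 := true) (s2 := true) (a := 0) (b := 2) (c := 3) (cn := .up) (n1 := ndB0q0) (n2 := ndB3q2) (pc := pcB3) (cut := Cut.none) (xt := Ext.none) (P1 := 0) (W1 := 536870912) (P2 := 1073741824) (W2 := 536870912) (P3 := 818728140) (W3 := 40265320) (N0 := 3) (En := eng) (mo := mog) (C1 := cd0q0) (C2 := cd3q2) (C3 := pd3)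
    rfl k0_pp_023

noncomputable def f_pp_033 : ℕ → ℕ → ℕ → ℕ → Bool := onCell 0 536870912 0 1230186008 818728140 40265320
    (rowB 3 eng mog cd0q0 cd3q3 pd3 0 true true true .pnn 0 3 3 (qsf 0 536870912 0 1230186008 3) ndB0q0 ndB3q3 pcB3 Cut.none Ext.none)

def k0_pp_033 : ∃ t, chk3 f_pp_033 t 1 1 1 = true :=
  ⟨(b (l 4) (l 4)), by decide +kernel⟩

theorem c_pp_033 : CertB 0 536870912 0 1230186008 818728140 40265320 3 eng mog cd0q0 cd3q3 pd3 true true true .pnn 0 3 3
    ndB0q0 ndB3q3 pcB3 Cut.none Ext.none :=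
  certB0 (fam := true) (s1 := true) (s2 := true) (a := 0) (b := 3) (c := 3) (cn := .pnn) (n1 := ndB0q0) (n2 := ndB3q3) (pc := pcB3) (cut := Cut.none) (xt := Ext.none) (P1 := 0) (W1 := 536870912) (P2 := 0) (W2 := 1230186008) (P3 := 818728140) (W3 := 40265320) (N0 := 3) (En := eng) (mo := mog) (C1 := cd0q0) (C2 := cd3q3) (C3 := pd3)
    rfl k0_pp_033

noncomputable def f_pp_101 : ℕ → ℕ → ℕ → ℕ → Bool := onCell 536870912 536870912 0 536870912 818728140 40265320
    (rowB 3 eng mog cd0q1 cd3q0 pd1 0 true true true .npn 1 0 1 (qsf 536870912 536870912 0 536870912 1) ndB0q1 ndB3q0 pcB1 Cut.none Ext.none)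

def k0_pp_101 : ∃ t, chk3 f_pp_101 t 1 1 1 = true :=
  ⟨(l 4), by decide +kernel⟩

theorem c_pp_101 : CertB 536870912 536870912 0 536870912 818728140 40265320 3 eng mog cd0q1 cd3q0 pd1 true true true .npn 1 0 1
    ndB0q1 ndB3q0 pcB1 Cut.none Ext.none :=
  certB0 (fam := true) (s1 := true) (s2 := true) (a := 1) (b := 0) (c := 1) (cn := .npn) (n1 := ndB0q1) (n2 := ndB3q0) (pc := pcB1) (cut := Cut.none) (xt := Ext.none) (P1 := 536870912) (W1 := 536870912) (P2 := 0) (W2 := 536870912) (P3 := 818728140) (W3 := 40265320) (N0 := 3) (En := eng) (mo := mog) (C1 := cd0q1) (C2 := cd3q0) (C3 := pd1)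
    rfl k0_pp_101

noncomputable def f_pp_102 : ℕ → ℕ → ℕ → ℕ → Bool := onCell 536870912 536870912 0 536870912 818728140 40265320
    (rowB 3 eng mog cd0q1 cd3q0 pd2 0 true true true .npp 1 0 2 (qsf 536870912 536870912 0 536870912 2) ndB0q1 ndB3q0 pcB2 Cut.none Ext.none)

def k0_pp_102 : ∃ t, chk3 f_pp_102 t 1 1 1 = true :=
  ⟨(l 4), by decide +kernel⟩

theorem c_pp_102 : CertB 536870912 536870912 0 536870912 818728140 40265320 3 eng mog cd0q1 cd3q0 pd2 true true true .npp 1 0 2
    ndB0q1 ndB3q0 pcB2 Cut.none Ext.none :=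
  certB0 (fam := true) (s1 := true) (s2 := true) (a := 1) (b := 0) (c := 2) (cn := .npp) (n1 := ndB0q1) (n2 := ndB3q0) (pc := pcB2) (cut := Cut.none) (xt := Ext.none) (P1 := 536870912) (W1 := 536870912) (P2 := 0) (W2 := 536870912) (P3 := 818728140) (W3 := 40265320) (N0 := 3) (En := eng) (mo := mog) (C1 := cd0q1) (C2 := cd3q0) (C3 := pd2)
    rfl k0_pp_102

noncomputable def f_pp_112 : ℕ → ℕ → ℕ → ℕ → Bool := onCell 536870912 536870912 536870912 536870912 818728140 40265320
    (rowB 3 eng mog cd0q1 cd3q1 pd2 0 true true true .dn 1 1 2 (qsf 536870912 536870912 536870912 536870912 2) ndB0q1 ndB3q1 pcB2 Cut.none Ext.none)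

def k0_pp_112 : ∃ t, chk3 f_pp_112 t 1 1 1 = true :=
  ⟨(l 4), by decide +kernel⟩

theorem c_pp_112 : CertB 536870912 536870912 536870912 536870912 818728140 40265320 3 eng mog cd0q1 cd3q1 pd2 true true true .dn 1 1 2
    ndB0q1 ndB3q1 pcB2 Cut.none Ext.none :=
  certB0 (fam := true) (s1 := true) (s2 := true) (a := 1) (b := 1) (c := 2) (cn := .dn) (n1 := ndB0q1) (n2 := ndB3q1) (pc := pcB2) (cut := Cut.none) (xt := Ext.none) (P1 := 536870912) (W1 := 536870912) (P2 := 536870912) (W2 := 536870912) (P3 := 818728140) (W3 := 40265320) (N0 := 3) (En := eng) (mo := mog) (C1 := cd0q1) (C2 := cd3q1) (C3 := pd2)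
    rfl k0_pp_112

noncomputable def f_pp_113 : ℕ → ℕ → ℕ → ℕ → Bool := onCell 536870912 536870912 536870912 536870912 818728140 40265320
    (rowB 3 eng mog cd0q1 cd3q1 pd3 0 true true true .nn 1 1 3 (qsf 536870912 536870912 536870912 536870912 3) ndB0q1 ndB3q1 pcB3 Cut.none Ext.none)

def k0_pp_113 : ∃ t, chk3 f_pp_113 t 1 1 1 = true :=
  ⟨(l 4), by decide +kernel⟩

theorem c_pp_113 : CertB 536870912 536870912 536870912 536870912 818728140 40265320 3 eng mog cd0q1 cd3q1 pd3 true true true .nn 1 1 3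
    ndB0q1 ndB3q1 pcB3 Cut.none Ext.none :=
  certB0 (fam := true) (s1 := true) (s2 := true) (a := 1) (b := 1) (c := 3) (cn := .nn) (n1 := ndB0q1) (n2 := ndB3q1) (pc := pcB3) (cut := Cut.none) (xt := Ext.none) (P1 := 536870912) (W1 := 536870912) (P2 := 536870912) (W2 := 536870912) (P3 := 818728140) (W3 := 40265320) (N0 := 3) (En := eng) (mo := mog) (C1 := cd0q1) (C2 := cd3q1) (C3 := pd3)
    rfl k0_pp_113

noncomputable def f_pp_123 : ℕ → ℕ → ℕ → ℕ → Bool := onCell 536870912 536870912 1073741824 536870912 818728140 40265320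
    (rowB 3 eng mog cd0q1 cd3q2 pd3 0 true true true .npn 1 2 3 (qsf 536870912 536870912 1073741824 536870912 3) ndB0q1 ndB3q2 pcB3 Cut.none Ext.none)

def k0_pp_123 : ∃ t, chk3 f_pp_123 t 1 1 1 = true :=
  ⟨(l 4), by decide +kernel⟩

theorem c_pp_123 : CertB 536870912 536870912 1073741824 536870912 818728140 40265320 3 eng mog cd0q1 cd3q2 pd3 true true true .npn 1 2 3
    ndB0q1 ndB3q2 pcB3 Cut.none Ext.none :=
  certB0 (fam := true) (s1 := true) (s2 := true) (a := 1) (b := 2) (c := 3) (cn := .npn) (n1 := ndB0q1) (n2 := ndB3q2) (pc := pcB3) (cut := Cut.none) (xt := Ext.none) (P1 := 536870912) (W1 := 536870912) (P2 := 1073741824) (W2 := 536870912) (P3 := 818728140) (W3 := 40265320) (N0 := 3) (En := eng) (mo := mog) (C1 := cd0q1) (C2 := cd3q2) (C3 := pd3)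
    rfl k0_pp_123

noncomputable def f_pp_133 : ℕ → ℕ → ℕ → ℕ → Bool := onCell 536870912 536870912 0 1230186008 818728140 40265320
    (rowB 3 eng mog cd0q1 cd3q3 pd3 0 true true true .dn 1 3 3 (qsf 536870912 536870912 0 1230186008 3) ndB0q1 ndB3q3 pcB3 Cut.none Ext.none)

def k0_pp_133 : ∃ t, chk3 f_pp_133 t 1 1 1 = true :=
  ⟨(l 4), by decide +kernel⟩

theorem c_pp_133 : CertB 536870912 536870912 0 1230186008 818728140 40265320 3 eng mog cd0q1 cd3q3 pd3 true true true .dn 1 3 3
    ndB0q1 ndB3q3 pcB3 Cut.none Ext.none :=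
  certB0 (fam := true) (s1 := true) (s2 := true) (a := 1) (b := 3) (c := 3) (cn := .dn) (n1 := ndB0q1) (n2 := ndB3q3) (pc := pcB3) (cut := Cut.none) (xt := Ext.none) (P1 := 536870912) (W1 := 536870912) (P2 := 0) (W2 := 1230186008) (P3 := 818728140) (W3 := 40265320) (N0 := 3) (En := eng) (mo := mog) (C1 := cd0q1) (C2 := cd3q3) (C3 := pd3)
    rfl k0_pp_133

noncomputable def f_pp_202 : ℕ → ℕ → ℕ → ℕ → Bool := onCell 0 536870912 0 536870912 818728140 40265320
    (rowB 3 eng mog cd0q2 cd3q0 pd2 0 true true true .pp 2 0 2 (qsf 0 536870912 0 536870912 2) ndB0q2 ndB3q0 pcB2 Cut.none Ext.none)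

def k0_pp_202 : ∃ t, chk3 f_pp_202 t 1 1 1 = true :=
  ⟨(l 5), by decide +kernel⟩

theorem c_pp_202 : CertB 0 536870912 0 536870912 818728140 40265320 3 eng mog cd0q2 cd3q0 pd2 true true true .pp 2 0 2
    ndB0q2 ndB3q0 pcB2 Cut.none Ext.none :=
  certB0 (fam := true) (s1 := true) (s2 := true) (a := 2) (b := 0) (c := 2) (cn := .pp) (n1 := ndB0q2) (n2 := ndB3q0) (pc := pcB2) (cut := Cut.none) (xt := Ext.none) (P1 := 0) (W1 := 536870912) (P2 := 0) (W2 := 536870912) (P3 := 818728140) (W3 := 40265320) (N0 := 3) (En := eng) (mo := mog) (C1 := cd0q2) (C2 := cd3q0) (C3 := pd2)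
    rfl k0_pp_202

noncomputable def f_pp_203 : ℕ → ℕ → ℕ → ℕ → Bool := onCell 0 536870912 0 536870912 818728140 40265320
    (rowB 3 eng mog cd0q2 cd3q0 pd3 0 true true true .up 2 0 3 (qsf 0 536870912 0 536870912 3) ndB0q2 ndB3q0 pcB3 Cut.none Ext.none)

def k0_pp_203 : ∃ t, chk3 f_pp_203 t 1 1 1 = true :=
  ⟨(l 5), by decide +kernel⟩

theorem c_pp_203 : CertB 0 536870912 0 536870912 818728140 40265320 3 eng mog cd0q2 cd3q0 pd3 true true true .up 2 0 3
    ndB0q2 ndB3q0 pcB3 Cut.none Ext.none :=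
  certB0 (fam := true) (s1 := true) (s2 := true) (a := 2) (b := 0) (c := 3) (cn := .up) (n1 := ndB0q2) (n2 := ndB3q0) (pc := pcB3) (cut := Cut.none) (xt := Ext.none) (P1 := 0) (W1 := 536870912) (P2 := 0) (W2 := 536870912) (P3 := 818728140) (W3 := 40265320) (N0 := 3) (En := eng) (mo := mog) (C1 := cd0q2) (C2 := cd3q0) (C3 := pd3)
    rfl k0_pp_203

noncomputable def f_pp_213 : ℕ → ℕ → ℕ → ℕ → Bool := onCell 0 536870912 536870912 536870912 818728140 40265320
    (rowB 3 eng mog cd0q2 cd3q1 pd3 0 true true true .pnn 2 1 3 (qsf 0 536870912 536870912 536870912 3) ndB0q2 ndB3q1 pcB3 Cut.none Ext.none)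

def k0_pp_213 : ∃ t, chk3 f_pp_213 t 1 1 1 = true :=
  ⟨(l 4), by decide +kernel⟩

theorem c_pp_213 : CertB 0 536870912 536870912 536870912 818728140 40265320 3 eng mog cd0q2 cd3q1 pd3 true true true .pnn 2 1 3
    ndB0q2 ndB3q1 pcB3 Cut.none Ext.none :=
  certB0 (fam := true) (s1 := true) (s2 := true) (a := 2) (b := 1) (c := 3) (cn := .pnn) (n1 := ndB0q2) (n2 := ndB3q1) (pc := pcB3) (cut := Cut.none) (xt := Ext.none) (P1 := 0) (W1 := 536870912) (P2 := 536870912) (W2 := 536870912) (P3 := 818728140) (W3 := 40265320) (N0 := 3) (En := eng) (mo := mog) (C1 := cd0q2) (C2 := cd3q1) (C3 := pd3)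
    rfl k0_pp_213

noncomputable def f_pm_001 : ℕ → ℕ → ℕ → ℕ → Bool := onCell 0 536870912 536870912 536870912 818728140 40265320
    (rowB 3 eng mog cd0q0 cd3q0 pd1 1 true true false .up 0 0 1 (qsf 0 536870912 0 536870912 1) ndB0q0 ndB3q0 pcB1 Cut.none Ext.none)

def k0_pm_001 : ∃ t, chk3 f_pm_001 t 1 1 1 = true :=
  ⟨(b (l 3) (a (b (l 3) (l 2)) (b (a (l 3) (b (l 3) (a (l 3) (b (l 3) (a (l 3) (b (l 3) (l 157470394551))))))) (a (b (b (b (l 3) (l 2)) (l 2)) (l 2)) (b (a (b (a (b (l 3) (a (l 16492472) (l 16478760))) (a (l 72108036679) (l 60833749527))) (a (b (l 131096604951) (l 2)) (b (l 16414952) (l 16376976)))) (b (a (a (l 88751006711) (l 79624165831)) (b (l 16409048) (l 16371504))) (a (b (l 16378456) (l 16343696)) (l 16318872)))) (a (b (a (l 2) (l 119285279911)) (l 2)) (b (a (l 16400688) (l 16259328)) (a (l 16234440) (l 16206208))))))))), by decide +kernel⟩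

theorem c_pm_001 : CertB 0 536870912 0 536870912 818728140 40265320 3 eng mog cd0q0 cd3q0 pd1 true true false .up 0 0 1
    ndB0q0 ndB3q0 pcB1 Cut.none Ext.none :=
  certB1 (fam := true) (s1 := true) (s2 := false) (a := 0) (b := 0) (c := 1) (cn := .up) (n1 := ndB0q0) (n2 := ndB3q0) (pc := pcB1) (cut := Cut.none) (xt := Ext.none) (P1 := 0) (W1 := 536870912) (P2 := 0) (W2 := 536870912) (P3 := 818728140) (W3 := 40265320) (N0 := 3) (En := eng) (mo := mog) (C1 := cd0q0) (C2 := cd3q0) (C3 := pd1)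
    rfl (fun _ => rfl) k0_pm_001

end Pool.Agent.Strip051.G.I7625_8000.Tab.C.BA03

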