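import Pool.Agent.Strip051.G.I7625_8000.Gn
import Pool.Agent.Strip051.PB.Corns
import Pool.Agent.Strip051.PB.CornW

/-! # Certificates of the aligned corners (generated) -/

set_option linter.all false

namespace Pool.Agent.Strip051.G.I7625_8000.Tab.CW

open Pool.Agent.Strip051.PB

def B101L_400_1_2_1 :
    ∃ t, chk3 (onCell 0 67108864 0 1073741824 818728140 40265320 (corW 3 c0B eng mog cB101L gB4q1 gB0q1 gB0q0 gB1q0 dB4q1 dB0q1 dB0q0 dB1q0 true true)) t 1 2 1 = true :=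
  ⟨(T.l 1), by decide +kernel⟩

def B101L_400_1_12_1 :
    ∃ t, chk3 (onCell 0 67108864 0 1073741824 818728140 40265320 (corW 3 c0B eng mog cB101L gB4q1 gB0q1 gB0q0 gB1q0 dB4q1 dB0q1 dB0q0 dB1q0 true true)) t 1 12 1 = true :=
  ⟨(T.l 1), by decide +kernel⟩

def B101L_400_1_52_1 :
    ∃ t, chk3 (onCell 0 67108864 0 1073741824 818728140 40265320 (corW 3 c0B eng mog cB101L gB4q1 gB0q1 gB0q0 gB1q0 dB4q1 dB0q1 dB0q0 dB1q0 true true)) t 1 52 1 = true :=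
  ⟨(T.l 1), by decide +kernel⟩

def B101L_400_2_212_1 :
    ∃ t, chk3 (onCell 0 67108864 0 1073741824 818728140 40265320 (corW 3 c0B eng mog cB101L gB4q1 gB0q1 gB0q0 gB1q0 dB4q1 dB0q1 dB0q0 dB1q0 true true)) t 2 212 1 = true :=
  ⟨(T.a (T.l 1) (T.b (T.l 1) (T.b (T.l 1) (T.a (T.l 1) (T.b (T.l 1) (T.c (T.a (T.b (T.l 1) (T.a (T.b (T.l 1) (T.l 0)) (T.c (T.l 0) (T.l 0)))) (T.b (T.c (T.a (T.b (T.l 1) (T.c (T.l 0) (T.l 0))) (T.a (T.b (T.l 1) (T.l 0)) (T.l 0))) (T.a (T.b (T.l 1) (T.l 0)) (T.l 0))) (T.l 0))) (T.c (T.a (T.b (T.l 1) (T.a (T.b (T.l 1) (T.c (T.c (T.c (T.l 0) (T.l 0)) (T.l 0)) (T.l 0))) (T.c (T.c (T.c (T.l 0) (T.l 0)) (T.l 0)) (T.l 0)))) (T.b (T.a (T.b (T.l 1) (T.c (T.c (T.c (T.l 0) (T.l 0)) (T.l 0)) (T.l 0))) (T.c (T.c (T.c (T.l 0) (T.l 0)) (T.l 0)) (T.l 0))) (T.l 0))) (T.a (T.b (T.l 1) (T.a (T.b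 (T.l 1) (T.l 0)) (T.l 0))) (T.a (T.b (T.b (T.l 1) (T.l 0)) (T.l 0)) (T.l 0)))))))))), by decide +kernel⟩

def B101L_400_4_426_2 :
    ∃ t, chk3 (onCell 0 67108864 0 1073741824 818728140 40265320 (corW 3 c0B eng mog cB101L gB4q1 gB0q1 gB0q0 gB1q0 dB4q1 dB0q1 dB0q0 dB1q0 true true)) t 4 426 2 = true :=
  ⟨(T.a (T.b (T.a (T.l 1) (T.b (T.l 1) (T.b (T.l 1) (T.a (T.l 1) (T.b (T.l 1) (T.l 0)))))) (T.b (T.a (T.b (T.c (T.a (T.a (T.l 1) (T.b (T.l 1) (T.l 0))) (T.b (T.a (T.l 1) (T.a (T.l 1) (T.l 0))) (T.l 0))) (T.a (T.a (T.l 1) (T.b (T.l 1) (T.l 0))) (T.b (T.a (T.l 1) (T.a (T.l 1) (T.l 0))) (T.l 0)))) (T.l 0)) (T.c (T.l 0) (T.l 0))) (T.l 0))) (T.b (T.b (T.a (T.l 1) (T.a (T.l 1) (T.a (T.l 1) (T.b (T.l 1) (T.b (T.l 1) (T.l 0)))))) (T.a (T.c (T.b (T.a (T.l 1) (T.b (T.l 1) (T.c (T.l 0) (T.l 0)))) (T.l 0)) (T.b (T.a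 (T.l 1) (T.b (T.l 1) (T.l 0))) (T.l 0))) (T.a (T.a (T.a (T.b (T.b (T.l 1) (T.l 0)) (T.l 0)) (T.l 0)) (T.l 0)) (T.l 0)))) (T.l 0))), by decide +kernel⟩

def B101L_400_4_426_3 :
    ∃ t, chk3 (onCell 0 67108864 0 1073741824 818728140 40265320 (corW 3 c0B eng mog cB101L gB4q1 gB0q1 gB0q0 gB1q0 dB4q1 dB0q1 dB0q0 dB1q0 true true)) t 4 426 3 = true :=
  ⟨(T.a (T.b (T.a (T.l 1) (T.b (T.l 1) (T.b (T.l 1) (T.a (T.l 1) (T.b (T.l 1) (T.c (T.c (T.c (T.c (T.l 0) (T.l 0)) (T.l 0)) (T.l 0)) (T.l 0))))))) (T.b (T.a (T.c (T.c (T.a (T.c (T.b (T.a (T.l 1) (T.b (T.l 1) (T.c (T.l 0) (T.l 0)))) (T.a (T.l 0) (T.l 0))) (T.b (T.a (T.l 1) (T.b (T.l 1) (T.l 0))) (T.l 0))) (T.b (T.a (T.b (T.l 1) (T.c (T.c (T.l 0) (T.l 0)) (T.l 0))) (T.c (T.c (T.a (T.b (T.l 1) (T.l 0)) (T.l 0)) (T.l 0)) (T.l 0))) (T.l 0))) (T.b (T.a (T.a (T.l 1)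 (T.b (T.l 1) (T.l 0))) (T.a (T.b (T.l 1) (T.l 0)) (T.l 0))) (T.l 0))) (T.b (T.c (T.a (T.a (T.l 1) (T.b (T.l 1) (T.l 0))) (T.a (T.b (T.l 1) (T.l 0)) (T.l 0))) (T.a (T.a (T.l 1) (T.b (T.l 1) (T.l 0))) (T.a (T.b (T.l 1) (T.l 0)) (T.l 0)))) (T.l 0))) (T.c (T.a (T.c (T.c (T.c (T.l 0) (T.l 0)) (T.l 0)) (T.l 0)) (T.l 0)) (T.l 0))) (T.l 0))) (T.b (T.b (T.a (T.l 1) (T.a (T.l 1) (T.a (T.l 1) (T.b (T.l 1) (T.b (T.l 1) (T.c (T.c (T.b (T.l 1) (T.l 0)) (T.l 0)) (T.l 0))))))) (T.a (T.c (T.c (T.a (T.b (T.l 1) (T.c (T.c (T.l 0) (T.l 0)) (T.l 0))) (T.b (T.b (T.l 1) (T.c (T.c (T.l 0) (T.l 0)) (T.l 0))) (T.l 0))) (T.b (T.a (T.l 1) (T.b (T.l 1) (T.l 0))) (T.l 0))) (T.b (T.a (T.l 1) (T.b (T.l 1) (T.l 0))) (T.l 0))) (T.c (T.c (T.a (T.b (T.c (T.c (T.a (T.l 0) (T.l 0)) (T.l 0)) (T.l 0)) (T.l 0)) (T.l 0)) (T.l 0)) (T.l 0))))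 (T.c (T.l 0) (T.l 0)))), by decide +kernel⟩

def B101L_400_4_427_1 :
    ∃ t, chk3 (onCell 0 67108864 0 1073741824 818728140 40265320 (corW 3 c0B eng mog cB101L gB4q1 gB0q1 gB0q0 gB1q0 dB4q1 dB0q1 dB0q0 dB1q0 true true)) t 4 427 1 = true :=
  ⟨(T.c (T.l 0) (T.l 0)), by decide +kernel⟩

def B101L_400_5_213_1 :
    ∃ t, chk3 (onCell 0 67108864 0 1073741824 818728140 40265320 (corW 3 c0B eng mog cB101L gB4q1 gB0q1 gB0q0 gB1q0 dB4q1 dB0q1 dB0q0 dB1q0 true true)) t 5 213 1 = true :=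
  ⟨(T.c (T.b (T.a (T.b (T.b (T.c (T.a (T.b (T.a (T.l 1) (T.a (T.l 1) (T.b (T.l 1) (T.l 0)))) (T.a (T.a (T.b (T.l 1) (T.l 0)) (T.l 0)) (T.l 0))) (T.a (T.b (T.b (T.a (T.l 1) (T.a (T.l 1) (T.l 0))) (T.l 0)) (T.l 0)) (T.l 0))) (T.a (T.b (T.a (T.l 1) (T.a (T.l 1) (T.b (T.l 1) (T.l 0)))) (T.a (T.a (T.b (T.l 1) (T.l 0)) (T.l 0)) (T.l 0))) (T.a (T.b (T.b (T.a (T.l 1) (T.l 0)) (T.l 0)) (T.l 0)) (T.l 0)))) (T.l 0)) (T.l 0)) (T.l 0)) (T.l 0)) (T.b (T.b (T.a (T.b (T.c (T.a (T.b (T.a (T.l 1) (T.a (T.l 1) (T.a (T.l 1) (T.b (T.l 1) (T.c (T.b (T.l 1) (T.l 0)) (T.l 0)))))) (T.c (T.a (T.b (T.a (T.l 1) (T.c (T.c (T.l 0) (T.l 0)) (T.l 0))) (T.l 0)) (T.c (T.l 0) (T.l 0))) (T.a (T.c (T.l 0) (T.l 0)) (T.l 0)))) (T.b (T.c (T.a (T.b (T.a (T.l 1) (T.c (T.c (T.l 0) (T.l 0)) (T.l 0))) (T.c (T.l 0) (T.l 0))) (T.c (T.a (T.l 0) (T.l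 0)) (T.l 0))) (T.a (T.b (T.a (T.l 1) (T.l 0)) (T.l 0)) (T.l 0))) (T.l 0))) (T.a (T.b (T.a (T.l 1) (T.a (T.l 1) (T.b (T.l 1) (T.l 0)))) (T.c (T.l 0) (T.l 0))) (T.a (T.a (T.c (T.a (T.b (T.b (T.l 1) (T.l 0)) (T.l 0)) (T.l 0)) (T.l 0)) (T.l 0)) (T.l 0)))) (T.c (T.l 0) (T.l 0))) (T.c (T.l 0) (T.l 0))) (T.l 0)) (T.l 0))), by decide +kernel⟩

def B101L_400_3_424_1 :
    ∃ t, chk3 (onCell 0 67108864 0 1073741824 818728140 40265320 (corW 3 c0B eng mog cB101L gB4q1 gB0q1 gB0q0 gB1q0 dB4q1 dB0q1 dB0q0 dB1q0 true true)) t 3 424 1 = true :=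
  ⟨(T.a (T.l 1) (T.a (T.l 1) (T.a (T.l 1) (T.b (T.l 1) (T.b (T.l 1) (T.b (T.l 1) (T.c (T.a (T.a (T.l 1) (T.b (T.l 1) (T.l 0))) (T.c (T.b (T.a (T.l 1) (T.l 0)) (T.l 0)) (T.l 0))) (T.c (T.a (T.a (T.l 1) (T.b (T.l 1) (T.c (T.l 0) (T.l 0)))) (T.c (T.c (T.c (T.l 0) (T.l 0)) (T.l 0)) (T.l 0))) (T.c (T.a (T.c (T.l 0) (T.l 0)) (T.l 0)) (T.l 0)))))))))), by decide +kernel⟩

def B101L_400_6_425_1 :
    ∃ t, chk3 (onCell 0 67108864 0 1073741824 818728140 40265320 (corW 3 c0B eng mog cB101L gB4q1 gB0q1 gB0q0 gB1q0 dB4q1 dB0q1 dB0q0 dB1q0 true true)) t 6 425 1 = true :=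
  ⟨(T.b (T.a (T.l 1) (T.b (T.l 1) (T.a (T.a (T.l 1) (T.b (T.l 1) (T.b (T.l 1) (T.c (T.c (T.l 0) (T.l 0)) (T.c (T.c (T.c (T.c (T.l 0) (T.l 0)) (T.l 0)) (T.l 0)) (T.l 0)))))) (T.c (T.b (T.a (T.l 1) (T.a (T.l 1) (T.b (T.l 1) (T.l 0)))) (T.c (T.c (T.a (T.l 0) (T.l 0)) (T.l 0)) (T.l 0))) (T.c (T.b (T.a (T.l 1) (T.a (T.l 1) (T.c (T.b (T.l 1) (T.c (T.l 0) (T.l 0))) (T.l 0)))) (T.a (T.c (T.c (T.c (T.l 0) (T.l 0)) (T.l 0)) (T.l 0)) (T.l 0))) (T.b (T.a (T.l 1) (T.a (T.l 1) (T.l 0))) (T.l 0))))))) (T.a (T.c (T.b (T.a (T.b (T.l 1) (T.a (T.a (T.l 1) (T.b (T.l 1) (T.l 0))) (T.b (T.a (T.l 1) (T.l 0)) (T.l 0)))) (T.b (T.b (T.l 1) (T.a (T.a (T.l 1) (T.a (T.l 1) (T.l 0))) (T.l 0))) (T.l 0))) (T.l 0)) (T.c (T.b (T.a (T.b (T.l 1) (T.a (T.a (T.l 1) (T.b (T.l 1) (T.b (T.l 1) (T.l 0)))) (T.c (T.c (T.c (T.a (T.b (T.l 1) (T.l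 0)) (T.l 0)) (T.l 0)) (T.l 0)) (T.l 0)))) (T.c (T.b (T.b (T.l 1) (T.c (T.a (T.a (T.l 1) (T.c (T.l 0) (T.l 0))) (T.l 0)) (T.l 0))) (T.c (T.l 0) (T.l 0))) (T.b (T.b (T.l 1) (T.l 0)) (T.l 0)))) (T.c (T.l 0) (T.l 0))) (T.b (T.a (T.b (T.l 1) (T.a (T.b (T.l 1) (T.l 0)) (T.l 0))) (T.b (T.b (T.l 1) (T.l 0)) (T.l 0))) (T.l 0)))) (T.c (T.c (T.a (T.l 0) (T.l 0)) (T.l 0)) (T.c (T.c (T.c (T.c (T.l 0) (T.l 0)) (T.l 0)) (T.l 0)) (T.l 0))))), by decide +kernel⟩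

def B101L_400_7_425_1 :
    ∃ t, chk3 (onCell 0 67108864 0 1073741824 818728140 40265320 (corW 3 c0B eng mog cB101L gB4q1 gB0q1 gB0q0 gB1q0 dB4q1 dB0q1 dB0q0 dB1q0 true true)) t 7 425 1 = true :=
  ⟨(T.c (T.b (T.a (T.c (T.b (T.b (T.l 1) (T.a (T.a (T.l 1) (T.a (T.l 1) (T.b (T.l 1) (T.l 0)))) (T.a (T.b (T.l 1) (T.l 0)) (T.l 0)))) (T.a (T.a (T.a (T.b (T.b (T.l 1) (T.l 0)) (T.l 0)) (T.l 0)) (T.l 0)) (T.l 0))) (T.b (T.b (T.l 1) (T.a (T.a (T.l 1) (T.a (T.l 1) (T.b (T.l 1) (T.l 0)))) (T.a (T.b (T.l 1) (T.l 0)) (T.l 0)))) (T.a (T.c (T.a (T.l 0) (T.l 0)) (T.l 0)) (T.l 0)))) (T.a (T.b (T.b (T.a (T.b (T.l 1) (T.l 0)) (T.c (T.l 0) (T.l 0))) (T.l 0)) (T.l 0)) (T.l 0))) (T.l 0)) (T.b (T.a (T.c (T.a (T.b (T.a (T.l 1) (T.a (T.l 1) (T.a (T.l 1) (T.a (T.l 1) (T.b (T.l 1) (T.c (T.b (T.l 1) (T.l 0)) (T.l 0))))))) (T.b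 (T.a (T.c (T.c (T.c (T.l 0) (T.l 0)) (T.l 0)) (T.l 0)) (T.l 0)) (T.l 0))) (T.b (T.b (T.l 1) (T.c (T.a (T.b (T.l 1) (T.l 0)) (T.l 0)) (T.l 0))) (T.l 0))) (T.b (T.b (T.l 1) (T.a (T.a (T.l 1) (T.b (T.l 1) (T.l 0))) (T.l 0))) (T.l 0))) (T.b (T.a (T.c (T.b (T.c (T.c (T.a (T.b (T.l 1) (T.l 0)) (T.l 0)) (T.a (T.b (T.l 1) (T.l 0)) (T.l 0))) (T.a (T.l 0) (T.l 0))) (T.l 0)) (T.l 0)) (T.c (T.l 0) (T.l 0))) (T.l 0))) (T.l 0))), by decide +kernel⟩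

def B101L_400_3_213_1 :
    ∃ t, chk3 (onCell 0 67108864 0 1073741824 818728140 40265320 (corW 3 c0B eng mog cB101L gB4q1 gB0q1 gB0q0 gB1q0 dB4q1 dB0q1 dB0q0 dB1q0 true true)) t 3 213 1 = true :=
  ⟨(T.c (T.a (T.l 0) (T.l 0)) (T.a (T.a (T.l 0) (T.l 0)) (T.l 0))), by decide +kernel⟩

def B101L_400_1_107_1 :
    ∃ t, chk3 (onCell 0 67108864 0 1073741824 818728140 40265320 (corW 3 c0B eng mog cB101L gB4q1 gB0q1 gB0q0 gB1q0 dB4q1 dB0q1 dB0q0 dB1q0 true true)) t 1 107 1 = true :=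
  ⟨(T.c (T.a (T.l 0) (T.l 0)) (T.a (T.l 0) (T.l 0))), by decide +kernel⟩

def B101L_400_1_27_1 :
    ∃ t, chk3 (onCell 0 67108864 0 1073741824 818728140 40265320 (corW 3 c0B eng mog cB101L gB4q1 gB0q1 gB0q0 gB1q0 dB4q1 dB0q1 dB0q0 dB1q0 true true)) t 1 27 1 = true :=
  ⟨(T.c (T.l 0) (T.a (T.l 0) (T.l 0))), by decide +kernel⟩

def B101L_400_1_7_1 :
    ∃ t, chk3 (onCell 0 67108864 0 1073741824 818728140 40265320 (corW 3 c0B eng mog cB101L gB4q1 gB0q1 gB0q0 gB1q0 dB4q1 dB0q1 dB0q0 dB1q0 true true)) t 1 7 1 = true :=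
  ⟨(T.b (T.l 0) (T.l 0)), by decide +kernel⟩

theorem B101L_400_3_425_1 :
    ∃ t, chk3 (onCell 0 67108864 0 1073741824 818728140 40265320 (corW 3 c0B eng mog cB101L gB4q1 gB0q1 gB0q0 gB1q0 dB4q1 dB0q1 dB0q0 dB1q0 true true)) t 3 425 1 = true :=
  ex3_a B101L_400_6_425_1 B101L_400_7_425_1
theorem B101L_400_3_212_1 :
    ∃ t, chk3 (onCell 0 67108864 0 1073741824 818728140 40265320 (corW 3 c0B eng mog cB101L gB4q1 gB0q1 gB0q0 gB1q0 dB4q1 dB0q1 dB0q0 dB1q0 true true)) t 3 212 1 = true :=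
  ex3_b B101L_400_3_424_1 B101L_400_3_425_1
theorem B101L_400_3_106_1 :
    ∃ t, chk3 (onCell 0 67108864 0 1073741824 818728140 40265320 (corW 3 c0B eng mog cB101L gB4q1 gB0q1 gB0q0 gB1q0 dB4q1 dB0q1 dB0q0 dB1q0 true true)) t 3 106 1 = true :=
  ex3_b B101L_400_3_212_1 B101L_400_3_213_1
theorem B101L_400_4_426_1 :
    ∃ t, chk3 (onCell 0 67108864 0 1073741824 818728140 40265320 (corW 3 c0B eng mog cB101L gB4q1 gB0q1 gB0q0 gB1q0 dB4q1 dB0q1 dB0q0 dB1q0 true true)) t 4 426 1 = true :=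
  ex3_c B101L_400_4_426_2 B101L_400_4_426_3
theorem B101L_400_4_213_1 :
    ∃ t, chk3 (onCell 0 67108864 0 1073741824 818728140 40265320 (corW 3 c0B eng mog cB101L gB4q1 gB0q1 gB0q0 gB1q0 dB4q1 dB0q1 dB0q0 dB1q0 true true)) t 4 213 1 = true :=
  ex3_b B101L_400_4_426_1 B101L_400_4_427_1
theorem B101L_400_2_213_1 :
    ∃ t, chk3 (onCell 0 67108864 0 1073741824 818728140 40265320 (corW 3 c0B eng mog cB101L gB4q1 gB0q1 gB0q0 gB1q0 dB4q1 dB0q1 dB0q0 dB1q0 true true)) t 2 213 1 = true :=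
  ex3_a B101L_400_4_213_1 B101L_400_5_213_1
theorem B101L_400_2_106_1 :
    ∃ t, chk3 (onCell 0 67108864 0 1073741824 818728140 40265320 (corW 3 c0B eng mog cB101L gB4q1 gB0q1 gB0q0 gB1q0 dB4q1 dB0q1 dB0q0 dB1q0 true true)) t 2 106 1 = true :=
  ex3_b B101L_400_2_212_1 B101L_400_2_213_1
theorem B101L_400_1_106_1 :
    ∃ t, chk3 (onCell 0 67108864 0 1073741824 818728140 40265320 (corW 3 c0B eng mog cB101L gB4q1 gB0q1 gB0q0 gB1q0 dB4q1 dB0q1 dB0q0 dB1q0 true true)) t 1 106 1 = true :=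
  ex3_a B101L_400_2_106_1 B101L_400_3_106_1
theorem B101L_400_1_53_1 :
    ∃ t, chk3 (onCell 0 67108864 0 1073741824 818728140 40265320 (corW 3 c0B eng mog cB101L gB4q1 gB0q1 gB0q0 gB1q0 dB4q1 dB0q1 dB0q0 dB1q0 true true)) t 1 53 1 = true :=
  ex3_b B101L_400_1_106_1 B101L_400_1_107_1
theorem B101L_400_1_26_1 :
    ∃ t, chk3 (onCell 0 67108864 0 1073741824 818728140 40265320 (corW 3 c0B eng mog cB101L gB4q1 gB0q1 gB0q0 gB1q0 dB4q1 dB0q1 dB0q0 dB1q0 true true)) t 1 26 1 = true :=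
  ex3_b B101L_400_1_52_1 B101L_400_1_53_1
theorem B101L_400_1_13_1 :
    ∃ t, chk3 (onCell 0 67108864 0 1073741824 818728140 40265320 (corW 3 c0B eng mog cB101L gB4q1 gB0q1 gB0q0 gB1q0 dB4q1 dB0q1 dB0q0 dB1q0 true true)) t 1 13 1 = true :=
  ex3_b B101L_400_1_26_1 B101L_400_1_27_1
theorem B101L_400_1_6_1 :
    ∃ t, chk3 (onCell 0 67108864 0 1073741824 818728140 40265320 (corW 3 c0B eng mog cB101L gB4q1 gB0q1 gB0q0 gB1q0 dB4q1 dB0q1 dB0q0 dB1q0 true true)) t 1 6 1 = true :=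
  ex3_b B101L_400_1_12_1 B101L_400_1_13_1
theorem B101L_400_1_3_1 :
    ∃ t, chk3 (onCell 0 67108864 0 1073741824 818728140 40265320 (corW 3 c0B eng mog cB101L gB4q1 gB0q1 gB0q0 gB1q0 dB4q1 dB0q1 dB0q0 dB1q0 true true)) t 1 3 1 = true :=
  ex3_b B101L_400_1_6_1 B101L_400_1_7_1
theorem B101L_400 :
    ∃ t, chk3 (onCell 0 67108864 0 1073741824 818728140 40265320 (corW 3 c0B eng mog cB101L gB4q1 gB0q1 gB0q0 gB1q0 dB4q1 dB0q1 dB0q0 dB1q0 true true)) t 1 1 1 = true :=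
  ex3_b B101L_400_1_2_1 B101L_400_1_3_1

def B101L_401 :
    ∃ t, chk3 (onCell 0 67108864 0 1073741824 818728140 40265320 (corW 3 c0B eng mog cB101L gB4q1 gB0q1 gB1q0 gB2q0 dB4q1 dB0q1 dB1q0 dB2q0 true false)) t 1 1 1 = true :=
  ⟨(T.b (T.l 1) (T.l 1)), by decide +kernel⟩

def B101R_020 :
    ∃ t, chk3 (onCell 0 67108864 0 1073741824 818728140 40265320 (corW 3 c0B eng mog cB101R gB0q1 gB2q1 gB0q0 gB1q0 dB0q1 dB2q1 dB0q0 dB1q0 true true)) t 1 1 1 = true :=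
  ⟨(T.l 1), by decide +kernel⟩

def B101R_021 :
    ∃ t, chk3 (onCell 0 67108864 0 1073741824 818728140 40265320 (corW 3 c0B eng mog cB101R gB0q1 gB2q1 gB1q0 gB2q0 dB0q1 dB2q1 dB1q0 dB2q0 true false)) t 1 1 1 = true :=
  ⟨(T.l 1), by decide +kernel⟩

def B101R_030 :
    ∃ t, chk3 (onCell 0 67108864 0 1073741824 818728140 40265320 (corW 3 c0B eng mog cB101R gB0q1 gB3q1 gB0q0 gB1q0 dB0q1 dB3q1 dB0q0 dB1q0 true true)) t 1 1 1 = true :=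
  ⟨(T.l 1), by decide +kernel⟩

def B101R_031 :
    ∃ t, chk3 (onCell 0 67108864 0 1073741824 818728140 40265320 (corW 3 c0B eng mog cB101R gB0q1 gB3q1 gB1q0 gB2q0 dB0q1 dB3q1 dB1q0 dB2q0 true false)) t 1 1 1 = true :=
  ⟨(T.l 1), by decide +kernel⟩

def B101R_040 :
    ∃ t, chk3 (onCell 0 67108864 0 1073741824 818728140 40265320 (corW 3 c0B eng mog cB101R gB0q1 gB4q1 gB0q0 gB1q0 dB0q1 dB4q1 dB0q0 dB1q0 true true)) t 1 1 1 = true :=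
  ⟨(T.l 1), by decide +kernel⟩

def B101R_041 :
    ∃ t, chk3 (onCell 0 67108864 0 1073741824 818728140 40265320 (corW 3 c0B eng mog cB101R gB0q1 gB4q1 gB1q0 gB2q0 dB0q1 dB4q1 dB1q0 dB2q0 true false)) t 1 1 1 = true :=
  ⟨(T.l 1), by decide +kernel⟩

def B102E_000_1_2_1 :
    ∃ t, chk3 (onCell 0 67108864 0 1073741824 818728140 40265320 (corW 3 c0B eng mog cB102E gB0q1 gB0q2 gB0q0 gB1q0 dB0q1 dB0q2 dB0q0 dB1q0 true true)) t 1 2 1 = true :=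
  ⟨(T.b (T.l 1) (T.b (T.l 1) (T.a (T.b (T.l 1) (T.a (T.b (T.l 1) (T.a (T.b (T.l 1) (T.a (T.b (T.l 1) (T.a (T.b (T.l 1) (T.a (T.b (T.l 1) (T.a (T.b (T.l 1) (T.a (T.b (T.l 1) (T.c (T.l 0) (T.c (T.l 0) (T.l 0)))) (T.l 1))) (T.l 1))) (T.l 1))) (T.l 1))) (T.l 1))) (T.l 1))) (T.l 1))) (T.l 1)))), by decide +kernel⟩

def B102E_000_4_96_1 :
    ∃ t, chk3 (onCell 0 67108864 0 1073741824 818728140 40265320 (corW 3 c0B eng mog cB102E gB0q1 gB0q2 gB0q0 gB1q0 dB0q1 dB0q2 dB0q0 dB1q0 true true)) t 4 96 1 = true :=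
  ⟨(T.b (T.a (T.c (T.b (T.c (T.b (T.c (T.a (T.a (T.l 0) (T.c (T.b (T.b (T.l 1) (T.a (T.l 0) (T.l 1))) (T.l 0)) (T.l 0))) (T.b (T.l 1) (T.a (T.b (T.c (T.a (T.a (T.l 0) (T.l 1)) (T.l 1)) (T.l 0)) (T.l 0)) (T.l 1)))) (T.a (T.l 0) (T.a (T.l 0) (T.l 1)))) (T.a (T.l 0) (T.c (T.a (T.l 0) (T.c (T.a (T.l 0) (T.c (T.b (T.b (T.l 1) (T.l 0)) (T.l 0)) (T.l 0))) (T.l 0))) (T.l 0)))) (T.l 0)) (T.l 0)) (T.c (T.l 0) (T.l 0))) (T.b (T.b (T.l 1) (T.a (T.b (T.a (T.a (T.a (T.a (T.b (T.l 1) (T.c (T.l 0) (T.l 0))) (T.l 1)) (T.l 1)) (T.l 1)) (T.l 1)) (T.c (T.c (T.a (T.l 0) (T.b (T.l 1) (T.a (T.l 0) (T.l 1)))) (T.l 0)) (T.c (T.l 0) (T.l 0)))) (T.l 1))) (T.c (T.c (T.a (T.l 0) (T.b (T.c (T.b (T.a (T.b (T.c (T.a (T.a (T.l 0) (T.l 1)) (T.l 1)) (T.l 0)) (T.l 0)) (T.l 1)) (T.a (T.l 0) (T.c (T.a (T.l 0) (T.b (T.l 1) (T.l 0))) (T.l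 0)))) (T.l 0)) (T.l 0))) (T.l 0)) (T.c (T.l 0) (T.l 0))))) (T.c (T.a (T.l 0) (T.l 0)) (T.c (T.l 0) (T.l 0)))), by decide +kernel⟩

def B102E_000_5_96_1 :
    ∃ t, chk3 (onCell 0 67108864 0 1073741824 818728140 40265320 (corW 3 c0B eng mog cB102E gB0q1 gB0q2 gB0q0 gB1q0 dB0q1 dB0q2 dB0q0 dB1q0 true true)) t 5 96 1 = true :=
  ⟨(T.b (T.a (T.b (T.l 1) (T.b (T.a (T.a (T.a (T.a (T.b (T.l 1) (T.a (T.l 1) (T.l 1))) (T.l 1)) (T.l 1)) (T.l 1)) (T.l 1)) (T.a (T.c (T.c (T.a (T.l 0) (T.b (T.b (T.l 1) (T.a (T.l 0) (T.l 1))) (T.l 0))) (T.l 0)) (T.c (T.l 0) (T.l 0))) (T.b (T.l 1) (T.a (T.b (T.a (T.l 1) (T.l 1)) (T.c (T.l 0) (T.c (T.l 0) (T.l 0)))) (T.l 1)))))) (T.l 1)) (T.c (T.c (T.b (T.a (T.a (T.l 0) (T.c (T.a (T.l 0) (T.c (T.b (T.a (T.l 0) (T.c (T.b (T.b (T.l 1) (T.l 0)) (T.l 0)) (T.l 0))) (T.l 204)) (T.l 0))) (T.l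 0))) (T.b (T.a (T.c (T.b (T.a (T.a (T.l 1) (T.l 1)) (T.l 1)) (T.a (T.l 0) (T.b (T.l 1) (T.a (T.l 0) (T.l 1))))) (T.l 0)) (T.l 1)) (T.a (T.l 0) (T.c (T.b (T.a (T.b (T.l 1) (T.l 0)) (T.l 1)) (T.a (T.l 0) (T.c (T.a (T.l 0) (T.b (T.l 1) (T.l 0))) (T.l 0)))) (T.l 0))))) (T.l 0)) (T.a (T.l 0) (T.l 0))) (T.c (T.c (T.l 0) (T.l 0)) (T.l 0)))), by decide +kernel⟩

def B102E_000_2_97_1 :
    ∃ t, chk3 (onCell 0 67108864 0 1073741824 818728140 40265320 (corW 3 c0B eng mog cB102E gB0q1 gB0q2 gB0q0 gB1q0 dB0q1 dB0q2 dB0q0 dB1q0 true true)) t 2 97 1 = true :=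
  ⟨(T.c (T.a (T.l 0) (T.a (T.l 0) (T.l 0))) (T.c (T.a (T.l 0) (T.l 0)) (T.l 0))), by decide +kernel⟩

def B102E_000_2_49_1 :
    ∃ t, chk3 (onCell 0 67108864 0 1073741824 818728140 40265320 (corW 3 c0B eng mog cB102E gB0q1 gB0q2 gB0q0 gB1q0 dB0q1 dB0q2 dB0q0 dB1q0 true true)) t 2 49 1 = true :=
  ⟨(T.c (T.c (T.a (T.l 204) (T.l 204)) (T.a (T.l 204) (T.l 204))) (T.c (T.a (T.l 0) (T.l 0)) (T.l 0))), by decide +kernel⟩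

def B102E_000_3_96_1 :
    ∃ t, chk3 (onCell 0 67108864 0 1073741824 818728140 40265320 (corW 3 c0B eng mog cB102E gB0q1 gB0q2 gB0q0 gB1q0 dB0q1 dB0q2 dB0q0 dB1q0 true true)) t 3 96 1 = true :=
  ⟨(T.a (T.b (T.l 1) (T.b (T.a (T.a (T.a (T.b (T.l 1) (T.a (T.l 1) (T.l 1))) (T.l 1)) (T.l 1)) (T.l 1)) (T.a (T.c (T.c (T.b (T.a (T.c (T.a (T.l 0) (T.b (T.b (T.l 1) (T.a (T.l 0) (T.l 1))) (T.l 0))) (T.l 0)) (T.a (T.b (T.l 1) (T.b (T.l 1) (T.l 0))) (T.l 1))) (T.a (T.l 204) (T.c (T.a (T.l 0) (T.c (T.a (T.l 0) (T.c (T.b (T.b (T.l 1) (T.l 0)) (T.l 0)) (T.l 0))) (T.l 0))) (T.l 0)))) (T.l 0)) (T.c (T.l 0) (T.l 0))) (T.a (T.b (T.l 1) (T.b (T.a (T.l 1) (T.l 1)) (T.a (T.c (T.l 0) (T.l 0)) (T.a (T.b (T.l 1) (T.c (T.l 0) (T.l 0))) (T.l 1))))) (T.l 1))))) (T.l 1)), by decide +kernel⟩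

def B102E_000_3_97_1 :
    ∃ t, chk3 (onCell 0 67108864 0 1073741824 818728140 40265320 (corW 3 c0B eng mog cB102E gB0q1 gB0q2 gB0q0 gB1q0 dB0q1 dB0q2 dB0q0 dB1q0 true true)) t 3 97 1 = true :=
  ⟨(T.c (T.a (T.c (T.a (T.l 0) (T.b (T.a (T.l 0) (T.c (T.b (T.b (T.b (T.a (T.b (T.l 1) (T.l 0)) (T.l 1)) (T.a (T.l 0) (T.c (T.a (T.l 0) (T.b (T.l 1) (T.l 0))) (T.l 0)))) (T.l 0)) (T.l 204)) (T.l 0))) (T.l 204))) (T.l 0)) (T.b (T.b (T.a (T.b (T.a (T.a (T.l 1) (T.l 1)) (T.l 1)) (T.c (T.a (T.c (T.a (T.l 0) (T.b (T.b (T.l 1) (T.a (T.l 0) (T.l 1))) (T.l 0))) (T.l 0)) (T.a (T.b (T.l 1) (T.b (T.l 1) (T.l 0))) (T.l 1))) (T.l 0))) (T.l 1)) (T.c (T.a (T.a (T.l 0) (T.c (T.a (T.l 0) (T.c (T.b (T.a (T.l 0) (T.c (T.b (T.b (T.l 1) (T.l 0)) (T.l 0)) (T.l 0))) (T.l 204)) (T.l 0))) (T.l 0))) (T.b (T.a (T.b (T.l 1) (T.a (T.l 0)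 (T.b (T.l 1) (T.a (T.l 0) (T.l 1))))) (T.l 1)) (T.a (T.l 0) (T.c (T.b (T.a (T.b (T.l 1) (T.l 0)) (T.l 1)) (T.a (T.l 0) (T.c (T.a (T.l 0) (T.b (T.l 1) (T.l 0))) (T.l 0)))) (T.l 0))))) (T.a (T.l 0) (T.l 0)))) (T.a (T.l 204) (T.c (T.l 0) (T.l 0))))) (T.c (T.b (T.a (T.l 0) (T.c (T.a (T.l 0) (T.l 0)) (T.a (T.l 0) (T.l 0)))) (T.l 0)) (T.a (T.l 0) (T.a (T.l 0) (T.l 0))))), by decide +kernel⟩

def B102E_000_3_49_1 :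
    ∃ t, chk3 (onCell 0 67108864 0 1073741824 818728140 40265320 (corW 3 c0B eng mog cB102E gB0q1 gB0q2 gB0q0 gB1q0 dB0q1 dB0q2 dB0q0 dB1q0 true true)) t 3 49 1 = true :=
  ⟨(T.a (T.c (T.c (T.l 204) (T.l 204)) (T.a (T.l 0) (T.l 0))) (T.c (T.b (T.l 204) (T.a (T.l 204) (T.c (T.l 204) (T.l 204)))) (T.b (T.a (T.l 204) (T.l 204)) (T.a (T.l 204) (T.l 204))))), by decide +kernel⟩

def B102E_000_1_25_1 :
    ∃ t, chk3 (onCell 0 67108864 0 1073741824 818728140 40265320 (corW 3 c0B eng mog cB102E gB0q1 gB0q2 gB0q0 gB1q0 dB0q1 dB0q2 dB0q0 dB1q0 true true)) t 1 25 1 = true :=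
  ⟨(T.a (T.c (T.b (T.c (T.a (T.l 204) (T.l 204)) (T.l 204)) (T.a (T.l 204) (T.l 204))) (T.a (T.l 0) (T.l 0))) (T.a (T.c (T.b (T.b (T.l 204) (T.l 204)) (T.l 204)) (T.b (T.l 204) (T.l 204))) (T.c (T.b (T.a (T.b (T.l 204) (T.l 204)) (T.b (T.l 204) (T.l 204))) (T.a (T.l 204) (T.l 716))) (T.a (T.l 204) (T.b (T.l 204) (T.l 204)))))), by decide +kernel⟩

def B102E_000_1_13_1 :
    ∃ t, chk3 (onCell 0 67108864 0 1073741824 818728140 40265320 (corW 3 c0B eng mog cB102E gB0q1 gB0q2 gB0q0 gB1q0 dB0q1 dB0q2 dB0q0 dB1q0 true true)) t 1 13 1 = true :=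
  ⟨(T.a (T.b (T.c (T.a (T.l 204) (T.l 204)) (T.a (T.l 0) (T.l 204))) (T.b (T.l 0) (T.l 2))) (T.b (T.a (T.b (T.l 716) (T.l 204)) (T.c (T.b (T.l 204) (T.l 204)) (T.b (T.l 204) (T.l 204)))) (T.b (T.a (T.l 204) (T.a (T.l 204) (T.l 204))) (T.l 2)))), by decide +kernel⟩

def B102E_000_1_7_1 :
    ∃ t, chk3 (onCell 0 67108864 0 1073741824 818728140 40265320 (corW 3 c0B eng mog cB102E gB0q1 gB0q2 gB0q0 gB1q0 dB0q1 dB0q2 dB0q0 dB1q0 true true)) t 1 7 1 = true :=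
  ⟨(T.l 2), by decide +kernel⟩

theorem B102E_000_3_48_1 :
    ∃ t, chk3 (onCell 0 67108864 0 1073741824 818728140 40265320 (corW 3 c0B eng mog cB102E gB0q1 gB0q2 gB0q0 gB1q0 dB0q1 dB0q2 dB0q0 dB1q0 true true)) t 3 48 1 = true :=
  ex3_b B102E_000_3_96_1 B102E_000_3_97_1
theorem B102E_000_3_24_1 :
    ∃ t, chk3 (onCell 0 67108864 0 1073741824 818728140 40265320 (corW 3 c0B eng mog cB102E gB0q1 gB0q2 gB0q0 gB1q0 dB0q1 dB0q2 dB0q0 dB1q0 true true)) t 3 24 1 = true :=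
  ex3_b B102E_000_3_48_1 B102E_000_3_49_1
theorem B102E_000_2_96_1 :
    ∃ t, chk3 (onCell 0 67108864 0 1073741824 818728140 40265320 (corW 3 c0B eng mog cB102E gB0q1 gB0q2 gB0q0 gB1q0 dB0q1 dB0q2 dB0q0 dB1q0 true true)) t 2 96 1 = true :=
  ex3_a B102E_000_4_96_1 B102E_000_5_96_1
theorem B102E_000_2_48_1 :
    ∃ t, chk3 (onCell 0 67108864 0 1073741824 818728140 40265320 (corW 3 c0B eng mog cB102E gB0q1 gB0q2 gB0q0 gB1q0 dB0q1 dB0q2 dB0q0 dB1q0 true true)) t 2 48 1 = true :=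
  ex3_b B102E_000_2_96_1 B102E_000_2_97_1
theorem B102E_000_2_24_1 :
    ∃ t, chk3 (onCell 0 67108864 0 1073741824 818728140 40265320 (corW 3 c0B eng mog cB102E gB0q1 gB0q2 gB0q0 gB1q0 dB0q1 dB0q2 dB0q0 dB1q0 true true)) t 2 24 1 = true :=
  ex3_b B102E_000_2_48_1 B102E_000_2_49_1
theorem B102E_000_1_24_1 :
    ∃ t, chk3 (onCell 0 67108864 0 1073741824 818728140 40265320 (corW 3 c0B eng mog cB102E gB0q1 gB0q2 gB0q0 gB1q0 dB0q1 dB0q2 dB0q0 dB1q0 true true)) t 1 24 1 = true :=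
  ex3_a B102E_000_2_24_1 B102E_000_3_24_1
theorem B102E_000_1_12_1 :
    ∃ t, chk3 (onCell 0 67108864 0 1073741824 818728140 40265320 (corW 3 c0B eng mog cB102E gB0q1 gB0q2 gB0q0 gB1q0 dB0q1 dB0q2 dB0q0 dB1q0 true true)) t 1 12 1 = true :=
  ex3_b B102E_000_1_24_1 B102E_000_1_25_1
theorem B102E_000_1_6_1 :
    ∃ t, chk3 (onCell 0 67108864 0 1073741824 818728140 40265320 (corW 3 c0B eng mog cB102E gB0q1 gB0q2 gB0q0 gB1q0 dB0q1 dB0q2 dB0q0 dB1q0 true true)) t 1 6 1 = true :=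
  ex3_b B102E_000_1_12_1 B102E_000_1_13_1
theorem B102E_000_1_3_1 :
    ∃ t, chk3 (onCell 0 67108864 0 1073741824 818728140 40265320 (corW 3 c0B eng mog cB102E gB0q1 gB0q2 gB0q0 gB1q0 dB0q1 dB0q2 dB0q0 dB1q0 true true)) t 1 3 1 = true :=
  ex3_b B102E_000_1_6_1 B102E_000_1_7_1
theorem B102E_000 :
    ∃ t, chk3 (onCell 0 67108864 0 1073741824 818728140 40265320 (corW 3 c0B eng mog cB102E gB0q1 gB0q2 gB0q0 gB1q0 dB0q1 dB0q2 dB0q0 dB1q0 true true)) t 1 1 1 = true :=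
  ex3_b B102E_000_1_2_1 B102E_000_1_3_1

def B102E_001 :
    ∃ t, chk3 (onCell 0 67108864 0 1073741824 818728140 40265320 (corW 3 c0B eng mog cB102E gB0q1 gB0q2 gB1q0 gB2q0 dB0q1 dB0q2 dB1q0 dB2q0 true false)) t 1 1 1 = true :=
  ⟨(T.b (T.l 1) (T.b (T.b (T.l 1) (T.b (T.l 1) (T.a (T.a (T.l 0) (T.l 0)) (T.a (T.a (T.l 204) (T.b (T.l 204) (T.l 204))) (T.a (T.l 716) (T.b (T.l 0) (T.l 204))))))) (T.a (T.b (T.a (T.l 204) (T.l 716)) (T.b (T.l 204) (T.l 204))) (T.a (T.b (T.a (T.l 204) (T.b (T.l 204) (T.l 204))) (T.a (T.b (T.l 204) (T.l 204)) (T.b (T.b (T.l 204) (T.l 204)) (T.l 204)))) (T.b (T.a (T.b (T.b (T.l 204) (T.l 204)) (T.l 716)) (T.b (T.b (T.l 204) (T.l 204)) (T.l 716))) (T.a (T.b (T.l 716) (T.b (T.l 204) (T.l 204))) (T.b (T.l 716) (T.b (T.l 204) (T.l 204))))))))), by decide +kernel⟩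

def B102E_010 :
    ∃ t, chk3 (onCell 0 67108864 0 1073741824 818728140 40265320 (corW 3 c0B eng mog cB102E gB0q1 gB1q2 gB0q0 gB1q0 dB0q1 dB1q2 dB0q0 dB1q0 true true)) t 1 1 1 = true :=
  ⟨(T.b (T.b (T.l 1) (T.b (T.a (T.b (T.l 1) (T.a (T.b (T.l 1) (T.a (T.b (T.l 1) (T.a (T.b (T.l 1) (T.c (T.l 0) (T.l 816))) (T.l 1))) (T.l 1))) (T.l 1))) (T.l 1)) (T.b (T.c (T.b (T.a (T.a (T.l 0) (T.l 0)) (T.b (T.a (T.l 0) (T.l 1)) (T.l 0))) (T.a (T.l 0) (T.l 0))) (T.b (T.c (T.a (T.l 0) (T.c (T.l 0) (T.l 0))) (T.a (T.l 0) (T.l 0))) (T.l 0))) (T.a (T.l 0) (T.l 0))))) (T.b (T.b (T.a (T.l 0) (T.a (T.l 0) (T.l 0))) (T.a (T.l 0) (T.b (T.a (T.l 204) (T.l 204)) (T.l 2)))) (T.l 2))), by decide +kernel⟩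

def B102E_011 :
    ∃ t, chk3 (onCell 0 67108864 0 1073741824 818728140 40265320 (corW 3 c0B eng mog cB102E gB0q1 gB1q2 gB1q0 gB2q0 dB0q1 dB1q2 dB1q0 dB2q0 true false)) t 1 1 1 = true :=
  ⟨(T.b (T.l 1) (T.a (T.b (T.l 0) (T.b (T.l 204) (T.l 204))) (T.b (T.b (T.a (T.l 0) (T.l 0)) (T.a (T.l 204) (T.b (T.l 204) (T.l 204)))) (T.a (T.b (T.b (T.l 204) (T.l 204)) (T.a (T.l 204) (T.b (T.l 204) (T.l 204)))) (T.b (T.a (T.l 204) (T.l 204)) (T.a (T.b (T.l 204) (T.l 236)) (T.b (T.l 204) (T.b (T.l 204) (T.l 204))))))))), by decide +kernel⟩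

def B102L_200 :
    ∃ t, chk3 (onCell 0 67108864 0 1073741824 818728140 40265320 (corW 3 c0B eng mog cB102L gB2q1 gB0q2 gB0q0 gB1q0 dB2q1 dB0q2 dB0q0 dB1q0 true true)) t 1 1 1 = true :=
  ⟨(T.b (T.l 2) (T.b (T.b (T.l 2) (T.l 204)) (T.b (T.l 0) (T.l 0)))), by decide +kernel⟩

def B102L_201 :
    ∃ t, chk3 (onCell 0 67108864 0 1073741824 818728140 40265320 (corW 3 c0B eng mog cB102L gB2q1 gB0q2 gB1q0 gB2q0 dB2q1 dB0q2 dB1q0 dB2q0 true false)) t 1 1 1 = true :=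
  ⟨(T.b (T.b (T.a (T.a (T.l 204) (T.l 204)) (T.a (T.b (T.l 204) (T.l 204)) (T.l 204))) (T.a (T.l 204) (T.a (T.l 204) (T.l 204)))) (T.b (T.b (T.a (T.l 204) (T.l 204)) (T.l 204)) (T.l 1))), by decide +kernel⟩

def B102L_210 :
    ∃ t, chk3 (onCell 0 67108864 0 1073741824 818728140 40265320 (corW 3 c0B eng mog cB102L gB2q1 gB1q2 gB0q0 gB1q0 dB2q1 dB1q2 dB0q0 dB1q0 true true)) t 1 1 1 = true :=
  ⟨(T.b (T.b (T.l 2) (T.l 204)) (T.b (T.l 204) (T.l 0))), by decide +kernel⟩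

def B102L_211 :
    ∃ t, chk3 (onCell 0 67108864 0 1073741824 818728140 40265320 (corW 3 c0B eng mog cB102L gB2q1 gB1q2 gB1q0 gB2q0 dB2q1 dB1q2 dB1q0 dB2q0 true false)) t 1 1 1 = true :=
  ⟨(T.b (T.b (T.a (T.l 204) (T.a (T.l 204) (T.l 204))) (T.l 204)) (T.b (T.l 204) (T.l 1))), by decide +kernel⟩

def B102L_300 :
    ∃ t, chk3 (onCell 0 67108864 0 1073741824 818728140 40265320 (corW 3 c0B eng mog cB102L gB3q1 gB0q2 gB0q0 gB1q0 dB3q1 dB0q2 dB0q0 dB1q0 true true)) t 1 1 1 = true :=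
  ⟨(T.b (T.l 2) (T.b (T.b (T.l 2) (T.l 204)) (T.l 0))), by decide +kernel⟩

def B102L_301 :
    ∃ t, chk3 (onCell 0 67108864 0 1073741824 818728140 40265320 (corW 3 c0B eng mog cB102L gB3q1 gB0q2 gB1q0 gB2q0 dB3q1 dB0q2 dB1q0 dB2q0 true false)) t 1 1 1 = true :=
  ⟨(T.b (T.b (T.a (T.a (T.l 204) (T.l 204)) (T.a (T.b (T.l 204) (T.l 204)) (T.l 204))) (T.a (T.l 204) (T.a (T.l 204) (T.l 204)))) (T.b (T.b (T.a (T.l 204) (T.l 204)) (T.l 204)) (T.l 0))), by decide +kernel⟩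

def B102L_310 :
    ∃ t, chk3 (onCell 0 67108864 0 1073741824 818728140 40265320 (corW 3 c0B eng mog cB102L gB3q1 gB1q2 gB0q0 gB1q0 dB3q1 dB1q2 dB0q0 dB1q0 true true)) t 1 1 1 = true :=
  ⟨(T.b (T.b (T.l 2) (T.l 204)) (T.l 0)), by decide +kernel⟩

def B102L_311 :
    ∃ t, chk3 (onCell 0 67108864 0 1073741824 818728140 40265320 (corW 3 c0B eng mog cB102L gB3q1 gB1q2 gB1q0 gB2q0 dB3q1 dB1q2 dB1q0 dB2q0 true false)) t 1 1 1 = true :=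
  ⟨(T.b (T.b (T.a (T.l 204) (T.a (T.l 204) (T.l 204))) (T.l 204)) (T.l 0)), by decide +kernel⟩

def B102L_400 :
    ∃ t, chk3 (onCell 0 67108864 0 1073741824 818728140 40265320 (corW 3 c0B eng mog cB102L gB4q1 gB0q2 gB0q0 gB1q0 dB4q1 dB0q2 dB0q0 dB1q0 true true)) t 1 1 1 = true :=
  ⟨(T.b (T.l 2) (T.b (T.l 2) (T.l 0))), by decide +kernel⟩

def B102L_401 :
    ∃ t, chk3 (onCell 0 67108864 0 1073741824 818728140 40265320 (corW 3 c0B eng mog cB102L gB4q1 gB0q2 gB1q0 gB2q0 dB4q1 dB0q2 dB1q0 dB2q0 true false)) t 1 1 1 = true :=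
  ⟨(T.b (T.b (T.a (T.a (T.l 204) (T.l 204)) (T.a (T.l 220) (T.l 204))) (T.a (T.l 204) (T.a (T.l 204) (T.l 204)))) (T.b (T.b (T.a (T.l 204) (T.l 204)) (T.l 204)) (T.l 0))), by decide +kernel⟩

def B102L_410 :
    ∃ t, chk3 (onCell 0 67108864 0 1073741824 818728140 40265320 (corW 3 c0B eng mog cB102L gB4q1 gB1q2 gB0q0 gB1q0 dB4q1 dB1q2 dB0q0 dB1q0 true true)) t 1 1 1 = true :=
  ⟨(T.b (T.l 2) (T.l 0)), by decide +kernel⟩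

def B102L_411 :
    ∃ t, chk3 (onCell 0 67108864 0 1073741824 818728140 40265320 (corW 3 c0B eng mog cB102L gB4q1 gB1q2 gB1q0 gB2q0 dB4q1 dB1q2 dB1q0 dB2q0 true false)) t 1 1 1 = true :=
  ⟨(T.b (T.b (T.a (T.l 204) (T.a (T.l 204) (T.l 204))) (T.l 204)) (T.l 0)), by decide +kernel⟩

def B102R_040 :
    ∃ t, chk3 (onCell 0 67108864 0 1073741824 818728140 40265320 (corW 3 c0B eng mog cB102R gB0q1 gB4q2 gB0q0 gB1q0 dB0q1 dB4q2 dB0q0 dB1q0 true true)) t 1 1 1 = true :=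
  ⟨(T.l 1), by decide +kernel⟩

def B102R_041 :
    ∃ t, chk3 (onCell 0 67108864 0 1073741824 818728140 40265320 (corW 3 c0B eng mog cB102R gB0q1 gB4q2 gB1q0 gB2q0 dB0q1 dB4q2 dB1q0 dB2q0 true false)) t 1 1 1 = true :=
  ⟨(T.l 1), by decide +kernel⟩

def B202E_000 :
    ∃ t, chk3 (onCell 0 67108864 0 1073741824 818728140 40265320 (corW 3 c0B eng mog cB202E gB0q2 gB0q2 gB0q0 gB1q0 dB0q2 dB0q2 dB0q0 dB1q0 true true)) t 1 1 1 = true :=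
  ⟨(T.l 1), by decide +kernel⟩

def B202E_001 :
    ∃ t, chk3 (onCell 0 67108864 0 1073741824 818728140 40265320 (corW 3 c0B eng mog cB202E gB0q2 gB0q2 gB1q0 gB2q0 dB0q2 dB0q2 dB1q0 dB2q0 true false)) t 1 1 1 = true :=
  ⟨(T.l 1), by decide +kernel⟩

def B202E_010 :
    ∃ t, chk3 (onCell 0 67108864 0 1073741824 818728140 40265320 (corW 3 c0B eng mog cB202E gB0q2 gB1q2 gB0q0 gB1q0 dB0q2 dB1q2 dB0q0 dB1q0 true true)) t 1 1 1 = true :=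
  ⟨(T.l 1), by decide +kernel⟩

def B202E_011 :
    ∃ t, chk3 (onCell 0 67108864 0 1073741824 818728140 40265320 (corW 3 c0B eng mog cB202E gB0q2 gB1q2 gB1q0 gB2q0 dB0q2 dB1q2 dB1q0 dB2q0 true false)) t 1 1 1 = true :=
  ⟨(T.l 1), by decide +kernel⟩

def B202E_100 :
    ∃ t, chk3 (onCell 0 67108864 0 1073741824 818728140 40265320 (corW 3 c0B eng mog cB202E gB1q2 gB0q2 gB0q0 gB1q0 dB1q2 dB0q2 dB0q0 dB1q0 true true)) t 1 1 1 = true :=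
  ⟨(T.l 1), by decide +kernel⟩

def B202E_101 :
    ∃ t, chk3 (onCell 0 67108864 0 1073741824 818728140 40265320 (corW 3 c0B eng mog cB202E gB1q2 gB0q2 gB1q0 gB2q0 dB1q2 dB0q2 dB1q0 dB2q0 true false)) t 1 1 1 = true :=
  ⟨(T.l 1), by decide +kernel⟩

def B202E_110 :
    ∃ t, chk3 (onCell 0 67108864 0 1073741824 818728140 40265320 (corW 3 c0B eng mog cB202E gB1q2 gB1q2 gB0q0 gB1q0 dB1q2 dB1q2 dB0q0 dB1q0 true true)) t 1 1 1 = true :=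
  ⟨(T.l 1), by decide +kernel⟩

def B202E_111 :
    ∃ t, chk3 (onCell 0 67108864 0 1073741824 818728140 40265320 (corW 3 c0B eng mog cB202E gB1q2 gB1q2 gB1q0 gB2q0 dB1q2 dB1q2 dB1q0 dB2q0 true false)) t 1 1 1 = true :=
  ⟨(T.l 1), by decide +kernel⟩

def B202L_400 :
    ∃ t, chk3 (onCell 0 67108864 0 1073741824 818728140 40265320 (corW 3 c0B eng mog cB202L gB4q2 gB0q2 gB0q0 gB1q0 dB4q2 dB0q2 dB0q0 dB1q0 true true)) t 1 1 1 = true :=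
  ⟨(T.l 2), by decide +kernel⟩

def B202L_401 :
    ∃ t, chk3 (onCell 0 67108864 0 1073741824 818728140 40265320 (corW 3 c0B eng mog cB202L gB4q2 gB0q2 gB1q0 gB2q0 dB4q2 dB0q2 dB1q0 dB2q0 true false)) t 1 1 1 = true :=
  ⟨(T.a (T.a (T.l 204) (T.l 0)) (T.b (T.l 204) (T.l 0))), by decide +kernel⟩

def B202L_410 :
    ∃ t, chk3 (onCell 0 67108864 0 1073741824 818728140 40265320 (corW 3 c0B eng mog cB202L gB4q2 gB1q2 gB0q0 gB1q0 dB4q2 dB1q2 dB0q0 dB1q0 true true)) t 1 1 1 = true :=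
  ⟨(T.l 2), by decide +kernel⟩

def B202L_411 :
    ∃ t, chk3 (onCell 0 67108864 0 1073741824 818728140 40265320 (corW 3 c0B eng mog cB202L gB4q2 gB1q2 gB1q0 gB2q0 dB4q2 dB1q2 dB1q0 dB2q0 true false)) t 1 1 1 = true :=
  ⟨(T.a (T.l 0) (T.b (T.l 204) (T.l 0))), by decide +kernel⟩

def B202R_040_1_4_1 :
    ∃ t, chk3 (onCell 0 67108864 0 1073741824 818728140 40265320 (corW 3 c0B eng mog cB202R gB0q2 gB4q2 gB0q0 gB1q0 dB0q2 dB4q2 dB0q0 dB1q0 true true)) t 1 4 1 = true :=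
  ⟨(T.l 1), by decide +kernel⟩

def B202R_040_1_20_1 :
    ∃ t, chk3 (onCell 0 67108864 0 1073741824 818728140 40265320 (corW 3 c0B eng mog cB202R gB0q2 gB4q2 gB0q0 gB1q0 dB0q2 dB4q2 dB0q0 dB1q0 true true)) t 1 20 1 = true :=
  ⟨(T.l 1), by decide +kernel⟩

def B202R_040_1_84_1 :
    ∃ t, chk3 (onCell 0 67108864 0 1073741824 818728140 40265320 (corW 3 c0B eng mog cB202R gB0q2 gB4q2 gB0q0 gB1q0 dB0q2 dB4q2 dB0q0 dB1q0 true true)) t 1 84 1 = true :=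
  ⟨(T.a (T.l 1) (T.b (T.l 1) (T.b (T.l 1) (T.b (T.l 1) (T.a (T.a (T.l 1) (T.a (T.l 1) (T.a (T.l 1) (T.a (T.l 1) (T.b (T.l 1) (T.b (T.l 1) (T.c (T.l 0) (T.c (T.l 0) (T.l 0))))))))) (T.a (T.b (T.a (T.l 1) (T.a (T.l 1) (T.a (T.l 1) (T.a (T.l 1) (T.a (T.l 1) (T.b (T.l 1) (T.c (T.l 0) (T.l 0)))))))) (T.c (T.c (T.l 0) (T.l 0)) (T.c (T.l 0) (T.a (T.b (T.c (T.l 0) (T.a (T.l 1) (T.a (T.l 1) (T.l 0)))) (T.l 0)) (T.l 0))))) (T.c (T.c (T.l 0) (T.l 0)) (T.b (T.c (T.l 0) (T.a (T.b (T.l 1) (T.l 0)) (T.l 0))) (T.l 0))))))))), by decide +kernel⟩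

def B202R_040_4_85_1 :
    ∃ t, chk3 (onCell 0 67108864 0 1073741824 818728140 40265320 (corW 3 c0B eng mog cB202R gB0q2 gB4q2 gB0q0 gB1q0 dB0q2 dB4q2 dB0q0 dB1q0 true true)) t 4 85 1 = true :=
  ⟨(T.b (T.b (T.a (T.l 1) (T.b (T.l 1) (T.b (T.l 1) (T.b (T.l 1) (T.a (T.a (T.l 1) (T.a (T.l 1) (T.c (T.l 0) (T.c (T.l 0) (T.b (T.l 1) (T.l 0)))))) (T.c (T.l 0) (T.c (T.l 0) (T.c (T.l 0) (T.a (T.b (T.l 1) (T.l 0)) (T.l 0)))))))))) (T.a (T.c (T.c (T.l 0) (T.l 0)) (T.c (T.l 0) (T.b (T.a (T.c (T.b (T.b (T.l 1) (T.l 0)) (T.l 0)) (T.a (T.b (T.l 1) (T.c (T.l 0) (T.a (T.c (T.l 0) (T.b (T.a (T.b (T.l 1) (T.l 0)) (T.l 0)) (T.l 0))) (T.l 0)))) (T.b (T.b (T.l 1) (T.c (T.l 0) (T.b (T.l 1) (T.b (T.l 1) (T.l 0))))) (T.l 0)))) (T.c (T.l 0) (T.b (T.a (T.b (T.l 1) (T.c (T.l 0) (T.a (T.b (T.l 1) (T.l 0)) (T.l 0)))) (T.b (T.a (T.l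 1) (T.b (T.l 1) (T.l 0))) (T.l 0))) (T.l 0)))) (T.l 0)))) (T.c (T.c (T.l 0) (T.l 0)) (T.c (T.l 0) (T.a (T.c (T.l 0) (T.a (T.b (T.b (T.c (T.l 0) (T.a (T.c (T.l 0) (T.b (T.b (T.l 1) (T.l 0)) (T.l 0))) (T.l 0))) (T.l 0)) (T.l 204)) (T.l 0))) (T.l 0)))))) (T.c (T.l 0) (T.l 0))), by decide +kernel⟩

def B202R_040_5_85_1 :
    ∃ t, chk3 (onCell 0 67108864 0 1073741824 818728140 40265320 (corW 3 c0B eng mog cB202R gB0q2 gB4q2 gB0q0 gB1q0 dB0q2 dB4q2 dB0q0 dB1q0 true true)) t 5 85 1 = true :=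
  ⟨(T.b (T.b (T.b (T.a (T.l 1) (T.a (T.l 1) (T.b (T.l 1) (T.b (T.l 1) (T.c (T.c (T.l 0) (T.l 0)) (T.c (T.l 0) (T.c (T.l 0) (T.a (T.b (T.l 1) (T.l 0)) (T.l 0))))))))) (T.a (T.c (T.c (T.l 0) (T.l 0)) (T.c (T.a (T.c (T.l 0) (T.l 0)) (T.l 0)) (T.a (T.b (T.l 1) (T.a (T.c (T.l 0) (T.c (T.l 0) (T.c (T.l 0) (T.b (T.b (T.l 1) (T.l 0)) (T.l 0))))) (T.l 0))) (T.b (T.b (T.l 1) (T.c (T.l 0) (T.a (T.b (T.l 1) (T.l 0)) (T.l 0)))) (T.l 0))))) (T.c (T.c (T.l 0) (T.l 0)) (T.a (T.c (T.l 0) (T.b (T.a (T.c (T.l 0) (T.c (T.l 0) (T.b (T.b (T.l 1) (T.l 0)) (T.l 0)))) (T.l 0)) (T.l 0))) (T.l 0))))) (T.c (T.l 0) (T.l 0))) (T.c (T.l 0) (T.l 0))), by decide +kernel⟩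

def B202R_040_3_85_1 :
    ∃ t, chk3 (onCell 0 67108864 0 1073741824 818728140 40265320 (corW 3 c0B eng mog cB202R gB0q2 gB4q2 gB0q0 gB1q0 dB0q2 dB4q2 dB0q0 dB1q0 true true)) t 3 85 1 = true :=
  ⟨(T.b (T.a (T.b (T.a (T.c (T.c (T.l 0) (T.a (T.l 0) (T.l 0))) (T.b (T.b (T.a (T.l 1) (T.c (T.l 0) (T.a (T.l 1) (T.c (T.l 0) (T.b (T.l 1) (T.b (T.l 1) (T.l 0))))))) (T.a (T.c (T.l 0) (T.c (T.l 0) (T.c (T.l 0) (T.b (T.a (T.l 1) (T.b (T.l 1) (T.l 0))) (T.l 0))))) (T.l 0))) (T.l 0))) (T.c (T.c (T.l 0) (T.l 0)) (T.c (T.l 0) (T.b (T.a (T.b (T.c (T.l 0) (T.b (T.a (T.l 1) (T.b (T.l 1) (T.l 0))) (T.l 0))) (T.l 0)) (T.l 0)) (T.l 0))))) (T.c (T.l 0) (T.l 0))) (T.c (T.a (T.l 0) (T.l 0)) (T.a (T.l 0) (T.l 0)))) (T.c (T.l 0) (T.l 0))), by decide +kernel⟩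

def B202R_040_1_43_1 :
    ∃ t, chk3 (onCell 0 67108864 0 1073741824 818728140 40265320 (corW 3 c0B eng mog cB202R gB0q2 gB4q2 gB0q0 gB1q0 dB0q2 dB4q2 dB0q0 dB1q0 true true)) t 1 43 1 = true :=
  ⟨(T.c (T.a (T.l 0) (T.l 0)) (T.l 64)), by decide +kernel⟩

def B202R_040_1_11_1 :
    ∃ t, chk3 (onCell 0 67108864 0 1073741824 818728140 40265320 (corW 3 c0B eng mog cB202R gB0q2 gB4q2 gB0q0 gB1q0 dB0q2 dB4q2 dB0q0 dB1q0 true true)) t 1 11 1 = true :=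
  ⟨(T.a (T.l 0) (T.b (T.l 0) (T.a (T.l 0) (T.l 0)))), by decide +kernel⟩

def B202R_040_1_3_1 :
    ∃ t, chk3 (onCell 0 67108864 0 1073741824 818728140 40265320 (corW 3 c0B eng mog cB202R gB0q2 gB4q2 gB0q0 gB1q0 dB0q2 dB4q2 dB0q0 dB1q0 true true)) t 1 3 1 = true :=
  ⟨(T.b (T.a (T.l 0) (T.b (T.b (T.l 0) (T.l 2)) (T.l 2))) (T.l 2)), by decide +kernel⟩

theorem B202R_040_2_85_1 :
    ∃ t, chk3 (onCell 0 67108864 0 1073741824 818728140 40265320 (corW 3 c0B eng mog cB202R gB0q2 gB4q2 gB0q0 gB1q0 dB0q2 dB4q2 dB0q0 dB1q0 true true)) t 2 85 1 = true :=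
  ex3_a B202R_040_4_85_1 B202R_040_5_85_1
theorem B202R_040_1_85_1 :
    ∃ t, chk3 (onCell 0 67108864 0 1073741824 818728140 40265320 (corW 3 c0B eng mog cB202R gB0q2 gB4q2 gB0q0 gB1q0 dB0q2 dB4q2 dB0q0 dB1q0 true true)) t 1 85 1 = true :=
  ex3_a B202R_040_2_85_1 B202R_040_3_85_1
theorem B202R_040_1_42_1 :
    ∃ t, chk3 (onCell 0 67108864 0 1073741824 818728140 40265320 (corW 3 c0B eng mog cB202R gB0q2 gB4q2 gB0q0 gB1q0 dB0q2 dB4q2 dB0q0 dB1q0 true true)) t 1 42 1 = true :=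
  ex3_b B202R_040_1_84_1 B202R_040_1_85_1
theorem B202R_040_1_21_1 :
    ∃ t, chk3 (onCell 0 67108864 0 1073741824 818728140 40265320 (corW 3 c0B eng mog cB202R gB0q2 gB4q2 gB0q0 gB1q0 dB0q2 dB4q2 dB0q0 dB1q0 true true)) t 1 21 1 = true :=
  ex3_b B202R_040_1_42_1 B202R_040_1_43_1
theorem B202R_040_1_10_1 :
    ∃ t, chk3 (onCell 0 67108864 0 1073741824 818728140 40265320 (corW 3 c0B eng mog cB202R gB0q2 gB4q2 gB0q0 gB1q0 dB0q2 dB4q2 dB0q0 dB1q0 true true)) t 1 10 1 = true :=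
  ex3_b B202R_040_1_20_1 B202R_040_1_21_1
theorem B202R_040_1_5_1 :
    ∃ t, chk3 (onCell 0 67108864 0 1073741824 818728140 40265320 (corW 3 c0B eng mog cB202R gB0q2 gB4q2 gB0q0 gB1q0 dB0q2 dB4q2 dB0q0 dB1q0 true true)) t 1 5 1 = true :=
  ex3_b B202R_040_1_10_1 B202R_040_1_11_1
theorem B202R_040_1_2_1 :
    ∃ t, chk3 (onCell 0 67108864 0 1073741824 818728140 40265320 (corW 3 c0B eng mog cB202R gB0q2 gB4q2 gB0q0 gB1q0 dB0q2 dB4q2 dB0q0 dB1q0 true true)) t 1 2 1 = true :=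
  ex3_b B202R_040_1_4_1 B202R_040_1_5_1
theorem B202R_040 :
    ∃ t, chk3 (onCell 0 67108864 0 1073741824 818728140 40265320 (corW 3 c0B eng mog cB202R gB0q2 gB4q2 gB0q0 gB1q0 dB0q2 dB4q2 dB0q0 dB1q0 true true)) t 1 1 1 = true :=
  ex3_b B202R_040_1_2_1 B202R_040_1_3_1

def B202R_041 :
    ∃ t, chk3 (onCell 0 67108864 0 1073741824 818728140 40265320 (corW 3 c0B eng mog cB202R gB0q2 gB4q2 gB1q0 gB2q0 dB0q2 dB4q2 dB1q0 dB2q0 true false)) t 1 1 1 = true :=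
  ⟨(T.b (T.b (T.l 1) (T.b (T.l 1) (T.a (T.l 1) (T.b (T.l 1) (T.a (T.l 1) (T.l 0)))))) (T.b (T.a (T.l 0) (T.a (T.b (T.l 0) (T.l 204)) (T.b (T.l 0) (T.l 0)))) (T.a (T.a (T.l 204) (T.b (T.l 204) (T.l 204))) (T.a (T.b (T.l 0) (T.l 0)) (T.b (T.l 0) (T.l 0)))))), by decide +kernel⟩

def B202R_140 :
    ∃ t, chk3 (onCell 0 67108864 0 1073741824 818728140 40265320 (corW 3 c0B eng mog cB202R gB1q2 gB4q2 gB0q0 gB1q0 dB1q2 dB4q2 dB0q0 dB1q0 true true)) t 1 1 1 = true :=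
  ⟨(T.b (T.l 1) (T.b (T.b (T.b (T.a (T.l 0) (T.l 0)) (T.l 0)) (T.l 0)) (T.b (T.l 2) (T.l 2)))), by decide +kernel⟩

def B202R_141 :
    ∃ t, chk3 (onCell 0 67108864 0 1073741824 818728140 40265320 (corW 3 c0B eng mog cB202R gB1q2 gB4q2 gB1q0 gB2q0 dB1q2 dB4q2 dB1q0 dB2q0 true false)) t 1 1 1 = true :=
  ⟨(T.b (T.l 1) (T.b (T.b (T.l 1) (T.l 0)) (T.b (T.l 0) (T.a (T.l 204) (T.b (T.l 204) (T.l 0)))))), by decide +kernel⟩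

end Pool.Agent.Strip051.G.I7625_8000.Tab.CW
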