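import Pool.Agent.Strip051.G.I7625_8000.Tab
import Pool.Agent.Strip051.PB.StripB

/-! # Strips, near vertex: certificates 10 (generated) -/

set_option linter.all false
set_option maxRecDepth 100000

namespace Pool.Agent.Strip051.G.I7625_8000.Tab.CS.BB40

open Pool.Agent.Strip051.PB Pool.Agent.Strip051.PB.T
open Pool.Agent.Strip051.G.I7625_8000.Tab

noncomputable def cut_pp_001_s : Cut := Cut.of [[⟨4, 0, 0, 1449551462⟩]]

noncomputable def f_pp_001_s : ℕ → ℕ → ℕ → ℕ → Bool := onCell 0 536870912 536870912 536870912 818728140 40265320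
    (rowNE 3 eng mog cd4q0 cd0q1 pd0 2 false true true .up 0 0 1 (qsf 0 536870912 536870912 536870912 0) ndB4q0 ndB0q1 pcB0 cut_pp_001_s Ext.none)

def k0_pp_001_s : ∃ t, chk3 f_pp_001_s t 2 1 1 = true :=
  ⟨(b (l 3) (b (b (l 3) (l 2)) (l 2))), by decide +kernel⟩

def k1_pp_001_s : ∃ t, chk3 f_pp_001_s t 3 2 1 = true :=
  ⟨(a (l 3) (b (l 3) (a (b (l 3) (b (a (l 3) (b (l 3) (a (l 3) (b (a (l 3) (b (l 529522472391) (l 302962918087))) (a (b (l 505363286295) (l 304036665335)) (l 91435801863)))))) (a (b (a (l 3) (b (l 3) (a (l 3) (l 493552119735)))) (a (b (l 3) (a (l 3) (b (l 501068315479) (l 303499789815)))) (b (a (l 467245443751) (b (l 308868504679) (l 16768616))) (a (b (l 241222781175) (l 16765680)) (l 16756312))))) (b (a (b (a (l 511268854471) (b (l 439865040135) (l 254644547207))) (a (b (l 357723774903) (l 16766048)) (l 16761448))) (b (a (l 16763792) (l 16748776)) (l 16760408))) (a (a (b (l 16759016) (l 16742608)) (l 16757536)) (l 16756560)))))) (b (a (b (l 3) (b (l 3) (a (l 3) (b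 (a (l 3) (l 557439751463)) (a (l 549923561191) (b (l 377587997799) (l 16765448))))))) (b (a (l 3) (b (l 3) (b (l 3) (a (l 3) (b (l 511268866759) (l 307257893127)))))) (b (a (b (l 3) (a (l 3) (b (l 475835389847) (l 244980871751)))) (b (a (b (l 503215804423) (l 305647282103)) (l 16766096)) (a (l 16763984) (l 16748712)))) (a (b (a (b (l 431811977623) (l 206326170007)) (l 16761600)) (a (l 16758936) (l 16742664))) (b (l 16780136) (l 16719280)))))) (b (a (b (a (b (a (l 3) (l 530596212503)) (a (b (l 3) (l 432348848263)) (b (l 263234476711) (l 16766216)))) (b (a (b (l 303499786391) (l 16768352)) (l 16756272)) (a (l 16754208) (l 16737304)))) (a (b (a (b (l 217063587383) (l 16764008)) (l 16752456)) (l 16754504)) (l 16760648))) (b (a (c (l 16765352) (l 16763296)) (l 16711968)) (a (l 16686168) (l 16655344)))) (a (b (a (l 16758920) (l 16684720)) (a (l 16684136) (l 16652424))) (b (a (l 16652936) (l 16622904)) (l 16606464)))))))), by decide +kernel⟩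

def k2_pp_001_s : ∃ t, chk3 f_pp_001_s t 6 6 1 = true :=
  ⟨(b (a (a (l 3) (b (l 3) (b (l 3) (a (l 3) (b (l 3) (a (b (l 3) (l 2)) (b (a (l 3) (l 391009791079)) (a (b (l 307794818423) (l 2)) (l 16771912))))))))) (b (a (l 3) (b (a (l 3) (b (l 3) (a (l 488183408663) (b (l 383493597559) (l 225116654535))))) (a (b (a (l 3) (b (l 3) (l 417316462407))) (a (b (l 495162735719) (a (l 454897426855) (l 16774912))) (b (l 256792038887) (l 16765680)))) (b (a (b (l 297594211879) (l 16769104)) (l 16760312)) (l 16771504))))) (a (b (a (b (l 3) (a (l 3) (b (l 3) (l 445233747111)))) (b (a (l 501605177287) (b (l 437717555287) (l 282561834311))) (a (b (a (l 467245456647) (l 285246199703)) (l 89825224247)) (l 16762544)))) (a (b (a (b (l 499457700855) (a (l 465097972663) (l 282561841255))) (b (a (l 291688642375) (l 16771880)) (l 16767000))) (a (b (a (l 16773824) (l 16768056)) (l 16763176)) (l 16755184))) (a (l 16771864) (l 16759528)))) (b (a (b (a (b (l 16770120) (l 16762168)) (l 16753600)) (l 16764768))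 (l 16768088)) (a (l 16740536) (b (l 16701880) (l 16685600))))))) (a (b (a (l 2) (b (a (l 2) (a (l 2) (b (l 16773656) (l 2)))) (l 2))) (l 2)) (b (a (b (a (c (l 16779480) (l 16779368)) (l 16733768)) (a (l 16705776) (l 16638600))) (a (c (l 16713024) (l 16712144)) (l 16686176))) (a (b (l 75262476663) (l 2)) (c (l 16653928) (l 16651576)))))), by decide +kernel⟩

def k3_pp_001_s : ∃ t, chk3 f_pp_001_s t 7 6 1 = true :=
  ⟨(b (a (b (a (a (b (b (a (b (l 469929808215) (l 273971897847)) (l 124184928247)) (a (l 16763544) (l 16750384))) (l 16758656)) (b (a (l 16766128) (l 16731680)) (l 16705728))) (a (a (l 16764312) (l 16750200)) (c (l 16708224) (l 16685648)))) (a (a (c (l 16725592) (l 16724728)) (l 16719232)) (a (a (l 16656832) (l 16621856)) (l 16621216)))) (a (b (a (b (l 16651808) (l 16619488)) (l 16646304)) (b (l 16592648) (l 16539464))) (b (b (l 16575480) (l 16544280)) (l 16539032)))) (a (b (a (a (b (l 16634288) (l 16601016)) (l 16632184)) (b (l 16565424) (l 16532016))) (a (b (l 16553080)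 (l 16518096)) (b (l 16497664) (l 16462512)))) (b (a (l 16532512) (l 16434208)) (a (l 16402112) (l 16368712))))), by decide +kernel⟩

def k4_pp_001_s : ∃ t, chk3 f_pp_001_s t 3 7 1 = true :=
  ⟨(a (b (a (l 2) (b (a (l 2) (l 61840436183)) (l 2))) (l 2)) (b (a (b (a (b (l 16482624) (l 16446856)) (l 16387304)) (a (b (l 16411032) (l 2)) (l 16336072))) (b (a (l 16352744) (l 16300152)) (a (l 16281712) (l 16230104)))) (a (b (a (l 2) (l 16390992)) (l 2)) (b (a (l 16213552) (l 6)) (l 6))))), by decide +kernel⟩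

theorem s5_pp_001_s : ∃ t, chk3 f_pp_001_s t 3 6 1 = true := ex3_a k2_pp_001_s k3_pp_001_s

theorem s6_pp_001_s : ∃ t, chk3 f_pp_001_s t 3 3 1 = true := ex3_b s5_pp_001_s k4_pp_001_s

theorem s7_pp_001_s : ∃ t, chk3 f_pp_001_s t 3 1 1 = true := ex3_b k1_pp_001_s s6_pp_001_s

theorem s8_pp_001_s : ∃ t, chk3 f_pp_001_s t 1 1 1 = true := ex3_a k0_pp_001_s s7_pp_001_s

theorem c_pp_001_s : CertNE 0 536870912 536870912 536870912 818728140 40265320 3 eng mog cd4q0 cd0q1 pd0 false true true .up 0 0 1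
    ndB4q0 ndB0q1 pcB0 cut_pp_001_s Ext.none :=
  certNE2 (fam := false) (s1 := true) (s2 := true) (a := 0) (b := 0) (c := 1) (cn := .up) (n1 := ndB4q0) (n2 := ndB0q1) (pc := pcB0) (cut := cut_pp_001_s) (xt := Ext.none) (P1 := 0) (W1 := 536870912) (P2 := 536870912) (W2 := 536870912) (P3 := 818728140) (W3 := 40265320) (N0 := 3) (En := eng) (mo := mog) (C1 := cd4q0) (C2 := cd0q1) (C3 := pd0)
    rfl (fun _ => rfl) s8_pp_001_s

noncomputable def cut_pp_011_s : Cut := Cut.of [[⟨4, 0, 0, 1449551462⟩]]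

noncomputable def f_pp_011_s : ℕ → ℕ → ℕ → ℕ → Bool := onCell 536870912 536870912 536870912 536870912 818728140 40265320
    (rowNE 3 eng mog cd4q0 cd0q1 pd1 2 false true true .pnn 0 1 1 (qsf 0 536870912 536870912 536870912 1) ndB4q0 ndB0q1 pcB1 cut_pp_011_s Ext.none)

def k0_pp_011_s : ∃ t, chk3 f_pp_011_s t 4 4 1 = true :=
  ⟨(a (b (l 3) (a (b (l 3) (a (l 3) (b (l 3) (b (l 3) (a (l 3) (l 465634840551)))))) (b (b (l 3) (a (l 3) (a (l 3) (b (l 3) (l 510195123335))))) (a (b (b (l 3) (a (l 3) (l 495162738887))) (b (a (l 481204095991) (a (l 284709324295) (l 16769952))) (a (a (l 225653525079) (l 16769240)) (l 16759392)))) (b (a (b (l 505363285591) (a (l 295446741495) (l 16770504))) (b (a (l 301352320599) (l 16770904)) (l 16760856))) (a (b (l 16760216) (l 16746416)) (l 16761448))))))) (b (a (a (l 3) (l 1)) (l 1)) (a (b (a (b (b (l 3) (a (l 3) (l 518785057463))) (a (b (l 515026961239) (a (l 304036674599) (l 16771168))) (b (a (l 304573545351) (l 16771304)) (l 16761608)))) (b (b (l 1) (a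 (b (l 1) (l 16771440)) (l 1))) (a (b (l 16761792) (l 16748808)) (l 16763768)))) (a (b (a (b (l 16761320) (l 16748032)) (l 16762872)) (l 16742424)) (b (l 16743816) (l 16696432)))) (b (b (l 1) (l 96133442887)) (a (l 16726760) (l 16682432)))))), by decide +kernel⟩

def k1_pp_011_s : ∃ t, chk3 f_pp_011_s t 4 5 1 = true :=
  ⟨(a (b (b (a (a (b (b (l 3) (a (l 3) (l 427516992551))) (b (a (b (l 512879478279) (l 307794762151)) (a (l 158544665831) (l 16765752))) (a (b (l 16766144) (l 16762888)) (l 16752648)))) (b (b (a (l 447918101639) (a (l 207399915879) (l 16768360))) (a (b (l 190756919431) (l 16766992)) (l 16736184))) (b (l 16753880) (l 16753184)))) (a (b (a (l 16755840) (l 16759168)) (l 16735352)) (b (l 16739984) (l 16689216)))) (a (b (a (a (b (l 16749248) (l 16730472)) (l 16746168)) (l 16726120)) (a (l 16714584) (l 16664440))) (a (b (l 16679664) (l 16639824)) (l 16678040)))) (b (a (a (b (l 16653152) (l 16614904)) (b (l 16624272) (l 16586592))) (b (l 16583912) (l 16544536))) (a (a (l 16605088)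 (l 16557448)) (l 16496080)))) (b (b (a (a (l 16763392) (l 16697096)) (l 16723400)) (a (a (l 16612672) (l 16589584)) (l 16533928))) (b (a (b (l 16539848) (l 16496624)) (l 16476856)) (a (l 16441008) (l 16393352))))), by decide +kernel⟩

def k2_pp_011_s : ∃ t, chk3 f_pp_011_s t 5 2 1 = true :=
  ⟨(b (a (b (l 1) (a (b (l 1) (l 103649582759)) (l 1))) (l 1)) (a (b (a (b (l 16634800) (l 16507784)) (b (l 16528456) (l 16458624))) (b (a (l 16433312) (l 16383528)) (a (l 16354648) (l 16309944)))) (b (b (l 1) (a (l 16415528) (l 1))) (b (a (l 16332968) (l 16296688)) (a (l 16258680) (l 16212712)))))), by decide +kernel⟩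

def k3_pp_011_s : ∃ t, chk3 f_pp_011_s t 2 3 1 = true :=
  ⟨(a (b (b (a (a (b (l 16546824) (l 16416320)) (b (l 16434808) (l 16371664))) (b (a (l 16382984) (l 16328448)) (l 16445432))) (a (b (a (l 16347896) (l 16306224)) (a (l 16276272) (l 16237384))) (b (l 16302008) (l 16237616)))) (b (a (b (a (l 16201504) (l 16165160)) (a (l 16125752) (l 6))) (b (l 6) (l 6))) (l 6))) (b (b (a (a (l 16307152) (l 16208456)) (a (l 16147384) (l 16103496))) (a (b (l 16136304) (l 6)) (l 6))) (l 6))), by decide +kernel⟩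

def k4_pp_011_s : ∃ t, chk3 f_pp_011_s t 3 1 1 = true :=
  ⟨(b (a (b (l 1) (a (b (l 1) (b (l 1) (l 16215016))) (l 1))) (l 1)) (a (b (b (l 6) (l 6)) (l 6)) (l 6))), by decide +kernel⟩

theorem s5_pp_011_s : ∃ t, chk3 f_pp_011_s t 4 2 1 = true := ex3_b k0_pp_011_s k1_pp_011_s

theorem s6_pp_011_s : ∃ t, chk3 f_pp_011_s t 2 2 1 = true := ex3_a s5_pp_011_s k2_pp_011_s

theorem s7_pp_011_s : ∃ t, chk3 f_pp_011_s t 2 1 1 = true := ex3_b s6_pp_011_s k3_pp_011_s

theorem s8_pp_011_s : ∃ t, chk3 f_pp_011_s t 1 1 1 = true := ex3_a s7_pp_011_s k4_pp_011_s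

theorem c_pp_011_s : CertNE 0 536870912 536870912 536870912 818728140 40265320 3 eng mog cd4q0 cd0q1 pd1 false true true .pnn 0 1 1
    ndB4q0 ndB0q1 pcB1 cut_pp_011_s Ext.none :=
  certNE2 (fam := false) (s1 := true) (s2 := true) (a := 0) (b := 1) (c := 1) (cn := .pnn) (n1 := ndB4q0) (n2 := ndB0q1) (pc := pcB1) (cut := cut_pp_011_s) (xt := Ext.none) (P1 := 0) (W1 := 536870912) (P2 := 536870912) (W2 := 536870912) (P3 := 818728140) (W3 := 40265320) (N0 := 3) (En := eng) (mo := mog) (C1 := cd4q0) (C2 := cd0q1) (C3 := pd1)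
    rfl (fun _ => rfl) s8_pp_011_s

noncomputable def cut_pp_012_s : Cut := Cut.of [[⟨4, 0, 0, 1449551462⟩]]

noncomputable def f_pp_012_s : ℕ → ℕ → ℕ → ℕ → Bool := onCell 0 536870912 0 536870912 818728140 40265320
    (rowNE 3 eng mog cd4q0 cd0q2 pd1 0 false true true .pnp 0 1 2 (qsf 0 536870912 0 536870912 1) ndB4q0 ndB0q2 pcB1 cut_pp_012_s Ext.none)

def k0_pp_012_s : ∃ t, chk3 f_pp_012_s t 1 1 1 = true :=
  ⟨(a (l 6) (l 6)), by decide +kernel⟩

theorem c_pp_012_s : CertNE 0 536870912 0 536870912 818728140 40265320 3 eng mog cd4q0 cd0q2 pd1 false true true .pnp 0 1 2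
    ndB4q0 ndB0q2 pcB1 cut_pp_012_s Ext.none :=
  certNE0 (fam := false) (s1 := true) (s2 := true) (a := 0) (b := 1) (c := 2) (cn := .pnp) (n1 := ndB4q0) (n2 := ndB0q2) (pc := pcB1) (cut := cut_pp_012_s) (xt := Ext.none) (P1 := 0) (W1 := 536870912) (P2 := 0) (W2 := 536870912) (P3 := 818728140) (W3 := 40265320) (N0 := 3) (En := eng) (mo := mog) (C1 := cd4q0) (C2 := cd0q2) (C3 := pd1)
    rfl k0_pp_012_s

noncomputable def cut_pp_022_s : Cut := Cut.of [[⟨4, 0, 0, 1449551462⟩]]

noncomputable def f_pp_022_s : ℕ → ℕ → ℕ → ℕ → Bool := onCell 1073741824 536870912 0 536870912 818728140 40265320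
    (rowNE 3 eng mog cd4q0 cd0q2 pd2 2 false true true .pp 0 2 2 (qsf 0 536870912 0 536870912 2) ndB4q0 ndB0q2 pcB2 cut_pp_022_s Ext.none)

def k0_pp_022_s : ∃ t, chk3 f_pp_022_s t 1 1 1 = true :=
  ⟨(l 6), by decide +kernel⟩

theorem c_pp_022_s : CertNE 0 536870912 0 536870912 818728140 40265320 3 eng mog cd4q0 cd0q2 pd2 false true true .pp 0 2 2
    ndB4q0 ndB0q2 pcB2 cut_pp_022_s Ext.none :=
  certNE2 (fam := false) (s1 := true) (s2 := true) (a := 0) (b := 2) (c := 2) (cn := .pp) (n1 := ndB4q0) (n2 := ndB0q2) (pc := pcB2) (cut := cut_pp_022_s) (xt := Ext.none) (P1 := 0) (W1 := 536870912) (P2 := 0) (W2 := 536870912) (P3 := 818728140) (W3 := 40265320) (N0 := 3) (En := eng) (mo := mog) (C1 := cd4q0) (C2 := cd0q2) (C3 := pd2)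
    rfl (fun _ => rfl) k0_pp_022_s

noncomputable def cut_pp_101_s : Cut := Cut.of [[⟨4, 0, 0, 1449551462⟩], [⟨0, 1, 0, 67108864⟩, ⟨1, 0, 0, 67108864⟩, ⟨2, 1, 0, 67108864⟩]]

noncomputable def f_pp_101_s : ℕ → ℕ → ℕ → ℕ → Bool := onCell 0 536870912 536870912 536870912 818728140 40265320
    (rowNE 3 eng mog cd4q1 cd0q1 pd0 2 false true true .npn 1 0 1 (qsf 536870912 536870912 536870912 536870912 0) ndB4q1 ndB0q1 pcB0 cut_pp_101_s Ext.none)

def k0_pp_101_s : ∃ t, chk3 f_pp_101_s t 2 2 1 = true :=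
  ⟨(l 3), by decide +kernel⟩

def k1_pp_101_s : ∃ t, chk3 f_pp_101_s t 4 6 1 = true :=
  ⟨(l 3), by decide +kernel⟩

def k2_pp_101_s : ∃ t, chk3 f_pp_101_s t 8 14 1 = true :=
  ⟨(l 3), by decide +kernel⟩

def k3_pp_101_s : ∃ t, chk3 f_pp_101_s t 9 28 1 = true :=
  ⟨(l 3), by decide +kernel⟩

def k4_pp_101_s : ∃ t, chk3 f_pp_101_s t 18 29 1 = true :=
  ⟨(l 3), by decide +kernel⟩

def k5_pp_101_s : ∃ t, chk3 f_pp_101_s t 19 58 1 = true :=
  ⟨(l 3), by decide +kernel⟩

def k6_pp_101_s : ∃ t, chk3 f_pp_101_s t 38 59 1 = true :=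
  ⟨(l 3), by decide +kernel⟩

def k7_pp_101_s : ∃ t, chk3 f_pp_101_s t 39 118 1 = true :=
  ⟨(l 3), by decide +kernel⟩

def k8_pp_101_s : ∃ t, chk3 f_pp_101_s t 78 119 1 = true :=
  ⟨(b (l 3) (a (l 3) (b (l 3) (b (b (l 3) (a (l 3) (a (l 3) (a (l 3) (b (l 448991855287) (a (l 251960231095) (l 16777024))))))) (a (b (l 3) (a (l 3) (a (l 3) (a (l 3) (b (l 3) (l 279877518535)))))) (a (a (b (l 3) (c (b (l 377588023607) (l 16777576)) (l 204178720391))) (b (b (l 3) (a (l 423758922151) (l 201494365255))) (c (l 16776568) (l 16776576)))) (a (b (b (a (l 291688678647) (l 139217339303)) (l 16776744)) (l 16775952)) (l 16777504)))))))), by decide +kernel⟩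

def k9_pp_101_s : ∃ t, chk3 f_pp_101_s t 79 119 1 = true :=
  ⟨(b (a (l 3) (a (b (l 3) (b (l 3) (b (a (l 3) (c (a (l 461339886647) (b (l 420537696823) (l 169282110551))) (l 372756185639))) (c (b (a (l 3) (a (l 194515043591) (l 16776560))) (a (a (l 3) (l 222969202055)) (l 16776344))) (a (l 399599731543) (l 16777920)))))) (b (a (l 3) (a (l 3) (b (l 3) (b (l 3) (l 465097983079))))) (b (b (a (l 3) (a (c (c (l 381882991079) (l 381882991079)) (l 276656294119)) (c (c (l 130090534119) (l 16777600)) (l 16776944)))) (c (a (a (l 417316471575) (b (l 262697649703) (l 16776888))) (l 16776216)) (a (c (l 348060123367) (l 243370297815)) (l 16776232)))) (c (c (c (l 52781122679) (l 16777872)) (l 16777880)) (l 16777896)))))) (a (b (b (a (l 3) (b (a (l 3) (a (l 3) (a (l 3) (a (l 425906406007) (l 385641087367))))) (b (a (l 3) (a (l 404968440311) (l 111836922967))) (c (a (l 452213081143) (c (l 94120182839) (l 16776728))) (a (l 456508048423) (l 16776728)))))) (b (a (l 3) (a (a (b (l 465097982727) (a (l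 273435067671) (l 16777728))) (a (b (l 234780361927) (l 16776776)) (l 16777376))) (l 16777256))) (a (a (l 3) (b (a (l 3) (a (l 313163515223) (l 188072592407))) (a (a (l 453286822407) (l 224579814551)) (l 16776808)))) (c (l 16777472) (l 16775528))))) (a (a (b (b (a (c (l 435033211815) (l 437180695447)) (c (b (l 394767892887) (l 118816244647)) (l 209547429735))) (a (a (b (l 213842396263) (l 16776720)) (l 16776672)) (l 16776200))) (l 16777552)) (c (c (b (l 16777752) (l 16773648)) (l 16777352)) (l 16777376))) (c (l 16775456) (l 16772896)))) (b (a (b (a (b (a (b (a (l 429664502215) (l 207399945303)) (l 16777512)) (l 16777808)) (l 16775752)) (l 16777656)) (l 16776160)) (l 16776024)) (l 16775664)))), by decide +kernel⟩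

def k10_pp_101_s : ∃ t, chk3 f_pp_101_s t 16 30 1 = true :=
  ⟨(l 3), by decide +kernel⟩

def k11_pp_101_s : ∃ t, chk3 f_pp_101_s t 17 60 1 = true :=
  ⟨(l 3), by decide +kernel⟩

def k12_pp_101_s : ∃ t, chk3 f_pp_101_s t 34 61 1 = true :=
  ⟨(l 3), by decide +kernel⟩

def k13_pp_101_s : ∃ t, chk3 f_pp_101_s t 35 122 1 = true :=
  ⟨(l 3), by decide +kernel⟩

def k14_pp_101_s : ∃ t, chk3 f_pp_101_s t 70 123 1 = true :=
  ⟨(l 3), by decide +kernel⟩

def k15_pp_101_s : ∃ t, chk3 f_pp_101_s t 71 246 1 = true :=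
  ⟨(l 3), by decide +kernel⟩

def k16_pp_101_s : ∃ t, chk3 f_pp_101_s t 142 247 1 = true :=
  ⟨(l 3), by decide +kernel⟩

def k17_pp_101_s : ∃ t, chk3 f_pp_101_s t 143 494 1 = true :=
  ⟨(l 3), by decide +kernel⟩

def k18_pp_101_s : ∃ t, chk3 f_pp_101_s t 143 990 1 = true :=
  ⟨(a (l 3) (a (l 3) (b (b (l 3) (a (l 3) (a (l 3) (a (l 3) (b (l 3) (l 468856078615)))))) (b (a (l 3) (b (a (l 3) (b (a (l 3) (c (l 213842395447) (l 16777208))) (a (a (l 294909903159) (l 147270402247)) (l 16777088)))) (a (a (b (l 3) (c (l 276656292135) (l 276119421223))) (b (c (l 251423359287) (l 16777392)) (l 16777112))) (l 16777288)))) (a (a (b (l 3) (a (c (l 432885727447) (l 437717565655)) (c (b (l 312089772391) (l 16777320)) (l 226190426519)))) (b (b (a (l 3) (a (l 373829927207) (l 239075328263))) (a (c (l 304036708679) (l 304573579591)) (l 16777296))) (c (l 16777336) (l 16777008)))) (c (c (l 16777352) (l 16776696)) (l 16776704))))))), by decide +kernel⟩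

def k19_pp_101_s : ∃ t, chk3 f_pp_101_s t 143 991 1 = true :=
  ⟨(b (a (l 3) (a (a (b (l 3) (b (b (l 3) (a (l 3) (a (l 3) (a (l 296520515911) (l 145122918615))))) (a (b (l 3) (a (l 3) (a (l 359334412567) (l 224579813623)))) (b (a (a (l 341617672455) (l 205789331687)) (l 16777104)) (l 16777328))))) (a (a (b (l 3) (b (b (a (l 276656292151) (l 16777344)) (l 16777088)) (l 16776888))) (b (b (l 3) (b (l 454897434807) (a (l 260550164759) (l 16777168)))) (l 16777200))) (b (c (b (b (l 441475662071) (a (l 370071830887) (l 134385500423))) (a (b (l 188609462551) (l 16777064)) (l 16776984))) (b (c (l 378124894343) (l 283098743415)) (l 16777384))) (l 16776656)))) (a (a (c (c (c (b (l 62444798215) (l 16776352)) (l 16777280)) (l 16777368)) (l 16777456)) (l 16776992)) (l 16777208)))) (a (a (l 3) (a (a (l 3) (b (l 3) (b (c (c (l 455434305895) (l 461339885911)) (l 463487369559)) (b (a (l 455434305719) (c (l 189146333463) (l 16777192))) (a (a (l 260550164759) (l 16777168)) (l 16777064)))))) (a (b (b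 (l 3) (a (l 3) (c (l 434496340183) (l 438791307479)))) (b (a (c (b (l 343765156231) (l 135459242247)) (l 246591521207)) (c (l 92509569303) (l 16777104))) (l 16777240))) (b (b (a (l 3) (a (l 3) (b (l 3) (l 261087035671)))) (b (a (c (l 314237256039) (l 315310997863)) (l 96267665687)) (c (l 94657052903) (l 16777088)))) (l 16777408))))) (a (a (b (a (b (a (b (c (l 293299290423) (l 293299290423)) (l 16777344)) (l 77477183671)) (l 16776864)) (l 16777360)) (l 16776968)) (l 16777312)) (l 16776432)))), by decide +kernel⟩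

def k20_pp_101_s : ∃ t, chk3 f_pp_101_s t 16 31 1 = true :=
  ⟨(b (b (l 3) (l 14)) (l 14)), by decide +kernel⟩

def k21_pp_101_s : ∃ t, chk3 f_pp_101_s t 68 124 1 = true :=
  ⟨(l 3), by decide +kernel⟩

def k22_pp_101_s : ∃ t, chk3 f_pp_101_s t 69 248 1 = true :=
  ⟨(l 3), by decide +kernel⟩

def k23_pp_101_s : ∃ t, chk3 f_pp_101_s t 138 249 1 = true :=
  ⟨(l 3), by decide +kernel⟩

def k24_pp_101_s : ∃ t, chk3 f_pp_101_s t 278 249 1 = true :=
  ⟨(l 3), by decide +kernel⟩

def k25_pp_101_s : ∃ t, chk3 f_pp_101_s t 279 498 1 = true :=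
  ⟨(l 3), by decide +kernel⟩

def k26_pp_101_s : ∃ t, chk3 f_pp_101_s t 279 998 1 = true :=
  ⟨(l 3), by decide +kernel⟩

def k27_pp_101_s : ∃ t, chk3 f_pp_101_s t 279 1998 1 = true :=
  ⟨(a (l 3) (a (a (l 3) (b (l 3) (b (l 3) (b (a (l 3) (c (l 435570081943) (l 362555638119))) (a (c (l 445770629287) (l 389399183687)) (a (b (l 337322705079) (l 16777272)) (l 16777320))))))) (a (b (l 3) (b (b (b (l 3) (a (l 3) (a (l 3) (l 259476422855)))) (a (c (l 425906405511) (l 344838898039)) (a (b (l 272898195655) (l 16777176)) (l 16777136)))) (b (a (a (b (l 293836161239) (l 16777184)) (l 16777144)) (l 16777040)) (l 16777304)))) (b (b (l 3) (a (a (l 3) (b (l 3) (c (l 299741741287) (l 300815483111)))) (b (a (l 3) (b (l 389936054487) (l 220821717159))) (c (c (l 110226309287) (l 16777152)) (l 16777152))))) (a (a (b (b (b (l 253570842807) (l 16777168)) (l 16777064)) (l 16776864)) (l 43654316199)) (l 16777144)))))), by decide +kernel⟩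

def k28_pp_101_s : ∃ t, chk3 f_pp_101_s t 279 1999 1 = true :=
  ⟨(b (a (b (l 3) (b (l 3) (a (l 3) (a (l 3) (a (l 3) (a (b (l 3) (l 247665262775)) (c (l 129553662151) (l 16777184)))))))) (a (a (b (b (c (c (l 460803014935) (l 463487369495)) (l 469929820423)) (a (l 471003562167) (a (b (l 375440539863) (l 211158040727)) (c (l 16777256) (l 16777168))))) (b (a (a (b (l 3) (l 229948522663)) (c (l 117742502071) (l 16777176))) (l 16777072)) (l 16777336))) (b (b (a (a (b (l 355576316103) (l 127943049399)) (l 104857600151)) (l 16777056)) (l 16777320)) (l 16776792))) (l 16777272))) (a (a (b (l 3) (b (l 3) (a (l 3) (a (l 3) (a (c (l 376514281719) (l 379735507191)) (b (l 344302026935) (l 16777272))))))) (a (b (b (l 3) (a (l 3) (a (c (l 330343383303) (l 333027737863)) (b (l 279877517511) (l 16777176))))) (b (a (a (c (l 349133865223) (l 367924347111)) (b (l 300815483095) (l 16777184))) (l 16777312)) (c (l 16777296) (l 16777048)))) (b (a (b (a (c (l 317995352311) (l 319605965047)) (b (l 261623906487)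 (l 16777168))) (l 16777264)) (l 16777272)) (l 16776832)))) (c (l 16777216) (l 16776912)))), by decide +kernel⟩

def k29_pp_101_s : ∃ t, chk3 f_pp_101_s t 68 125 1 = true :=
  ⟨(b (b (l 3) (l 14)) (l 14)), by decide +kernel⟩

def k30_pp_101_s : ∃ t, chk3 f_pp_101_s t 138 500 1 = true :=
  ⟨(b (l 3) (b (a (l 3) (a (l 3) (a (l 3) (b (l 3) (a (b (l 3) (b (a (l 3) (c (l 437180694679) (l 364166250855))) (a (c (l 445770629287) (l 451139338407)) (a (b (l 338933317815) (l 16777272)) (l 94120181895))))) (b (b (a (l 3) (a (l 3) (b (l 3) (l 266455744711)))) (a (c (c (l 428590760071) (l 361481896247)) (l 355576316247)) (a (b (l 278266904775) (l 16777176)) (l 16777136)))) (b (a (a (b (l 297594257623) (l 16777264)) (l 16777312)) (l 16777040)) (l 16777304)))))))) (b (a (l 3) (a (l 3) (a (a (a (l 3) (b (l 3) (b (l 3) (a (b (l 3) (l 240149070007)) (b (l 236927844519) (l 16777152)))))) (a (b (c (c (l 468856078615) (l 471540433175)) (l 474761658647)) (b (a (b (l 3) (l 224042942631)) (c (l 115058147511)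 (l 16777176))) (l 16777080))) (b (b (c (l 454360563895) (l 466171723943)) (a (b (l 373293056215) (l 207936815255)) (c (l 104320729255) (l 16777168)))) (l 16777336)))) (a (b (b (a (a (b (l 355039445191) (l 126332436663)) (c (l 16777240) (l 16777160))) (l 16777056)) (l 16777320)) (l 16776792)) (l 16777296))))) (a (l 3) (a (a (l 3) (b (b (l 3) (a (l 3) (a (l 3) (a (b (l 3) (l 282025001159)) (b (a (l 362555637911) (l 231022264455)) (l 16777176)))))) (b (a (l 3) (a (a (b (l 3) (l 300815483095)) (b (c (l 325511544967) (l 327659028615)) (l 16777176))) (l 55465476295))) (a (a (l 3) (a (b (l 3) (l 341617672375)) (b (l 328732770487) (l 16777272)))) (c (l 64055410839) (l 16777048)))))) (a (a (b (a (b (a (b (l 3) (l 265382002871)) (b (l 253033971895) (l 16777160))) (l 16777264)) (l 16777272)) (l 16777152)) (l 16777328)) (l 16776904))))))), by decide +kernel⟩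

def k31_pp_101_s : ∃ t, chk3 f_pp_101_s t 138 501 1 = true :=
  ⟨(b (b (b (a (l 3) (a (a (b (b (l 3) (a (l 3) (a (l 3) (a (c (l 393157280007) (l 396915376391)) (b (l 389936054439) (l 196125655191)))))) (b (a (l 3) (a (a (l 3) (b (l 405505310903) (l 221895458967))) (c (c (l 88751472823) (l 16777304)) (l 16777144)))) (a (b (l 3) (a (l 3) (a (l 3) (c (l 227264168103) (l 16777216))))) (a (a (a (b (l 303499837559) (l 16777168)) (l 16777248)) (l 16777112)) (l 16777008))))) (a (b (a (b (a (a (l 3) (l 376514281687)) (b (l 344302026951) (l 122574340263))) (c (l 86067118247) (l 16777136))) (c (l 60834185399) (l 16777056))) (l 16777184)) (l 16777200))) (c (l 16777296) (l 16776008)))) (a (l 14) (a (a (a (a (l 14) (a (l 14) (c (l 16777248) (l 16776928)))) (l 16777320)) (l 16776968)) (l 16775456)))) (a (l 14) (a (c (l 16777088) (l 16777120)) (l 16774648)))) (a (l 14) (c (l 16776192) (l 16776272)))), by decide +kernel⟩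

def k32_pp_101_s : ∃ t, chk3 f_pp_101_s t 139 2000 1 = true :=
  ⟨(a (a (l 3) (b (b (l 3) (b (l 3) (b (l 3) (a (l 3) (a (l 3) (a (l 3) (a (l 3) (l 251960230071)))))))) (a (b (l 3) (a (l 3) (a (l 3) (c (c (l 455971176711) (l 458655531271)) (l 461876756743))))) (a (a (b (l 3) (b (c (l 440938791063) (l 367924347239)) (a (b (l 336785834183) (l 16777272)) (l 98952020103)))) (b (b (l 3) (c (l 425906405527) (l 358797541719))) (b (a (b (l 303499837655) (l 16777184)) (l 16777312)) (l 16777048)))) (b (b (a (a (l 3) (b (l 3) (l 270750712007))) (a (b (l 265918873783) (l 16777168)) (l 16777128))) (a (a (b (l 283098742983) (l 16777176)) (l 16777136)) (l 16777032))) (l 16777232)))))) (a (a (b (a (b (b (l 3) (a (l 3) (a (l 392083538231) (b (l 381346119895) (l 216526749847))))) (b (a (a (l 3) (b (l 3) (l 234780360871))) (c (c (l 108615696535) (l 16777312)) (l 16777144))) (a (a (b (l 238538457271) (l 16777160)) (l 16777120)) (l 16777016)))) (b (a (b (a (l 381346119975) (b (l 361481896135) (l 132238016695)))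 (c (l 90898956471) (l 16777136))) (c (l 66739765431) (l 16777064))) (l 16777192))) (a (l 16777320) (l 16776464))) (c (l 16777272) (l 16776968))) (l 16776752))), by decide +kernel⟩

def k33_pp_101_s : ∃ t, chk3 f_pp_101_s t 139 2001 1 = true :=
  ⟨(b (a (a (l 3) (a (b (b (a (l 3) (a (c (l 459729273015) (l 465634853047)) (a (b (l 363629379783) (l 133848629431)) (l 109689438359)))) (a (a (l 3) (l 467782336711)) (a (a (b (l 382956732631) (l 218137362583)) (c (l 109689438375) (l 16777176))) (l 16777072)))) (b (a (a (l 3) (a (b (l 3) (l 235317231783)) (c (l 120963727543) (l 16777184)))) (l 16777336)) (a (a (a (b (l 3) (l 252497100983)) (c (l 132238016711) (l 16777192))) (l 16777088)) (l 16776872)))) (c (l 16777296) (l 16777304)))) (c (l 16776496) (l 16776544))) (a (a (a (l 3) (a (b (l 3) (a (b (l 3) (a (a (l 3) (l 368998088919)) (b (l 344838897847) (l 16777296)))) (b (a (b (l 3) (l 331417125047)) (b (l 302962966743) (l 16777264))) (c (l 16777280) (l 16777120))))) (b (b (a (l 3) (a (b (l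 3) (l 270213841095)) (b (l 265382002871) (l 16777168)))) (a (a (b (l 3) (l 290078064855)) (b (l 282561872071) (l 16777176))) (l 16777264))) (c (l 16777320) (l 16776976))))) (a (a (c (l 16777312) (l 16777152)) (l 16776536)) (l 16776104))) (l 16776640))), by decide +kernel⟩

def k34_pp_101_s : ∃ t, chk3 f_pp_101_s t 139 1001 1 = true :=
  ⟨(a (a (a (b (a (b (b (l 3) (b (b (l 3) (a (l 3) (a (l 3) (l 231559135399)))) (a (a (l 3) (b (l 3) (l 248202133687))) (a (b (l 244980908199) (l 16777160)) (l 16777120))))) (a (b (b (a (b (l 261087035575) (l 16777168)) (l 16777128)) (l 16777032)) (l 16776832)) (l 16777152))) (b (a (b (a (c (l 471003562215) (l 476909142247)) (b (l 3) (b (l 380272378071) (l 214916137111)))) (c (c (c (l 87677730951) (l 16777280)) (l 16777240)) (l 16777248))) (b (b (a (a (l 3) (l 381882990823)) (b (l 361481896135) (l 131701145783))) (c (l 95730794663) (l 16777136))) (l 16776936))) (l 16777264))) (l 16777256)) (b (b (a (a (b (c (l 66739765431) (l 16777064)) (l 16776792))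 (l 16777112)) (l 16776568)) (l 16776176)) (l 16775368))) (c (l 16776992) (l 16776384))) (c (l 16773288) (l 16773368))), by decide +kernel⟩

def k35_pp_101_s : ∃ t, chk3 f_pp_101_s t 139 501 1 = true :=
  ⟨(a (a (b (l 16776664) (l 16771888)) (l 16774440)) (l 16774024)), by decide +kernel⟩

def k36_pp_101_s : ∃ t, chk3 f_pp_101_s t 69 251 1 = true :=
  ⟨(b (a (a (l 14) (c (l 16770304) (l 16770456))) (c (l 16766816) (l 16767048))) (a (l 14) (l 16762600))), by decide +kernel⟩

def k37_pp_101_s : ∃ t, chk3 f_pp_101_s t 140 248 1 = true :=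
  ⟨(l 3), by decide +kernel⟩

def k38_pp_101_s : ∃ t, chk3 f_pp_101_s t 141 496 1 = true :=
  ⟨(l 3), by decide +kernel⟩

def k39_pp_101_s : ∃ t, chk3 f_pp_101_s t 141 994 1 = true :=
  ⟨(a (l 3) (a (l 3) (a (l 3) (b (l 3) (b (l 3) (a (b (l 3) (a (l 3) (c (l 446844371191) (l 452213080311)))) (b (a (l 3) (c (c (l 430201372887) (l 432348856535)) (l 434496340183))) (b (a (c (c (l 362555638055) (l 364166250791)) (l 342154543479)) (c (l 121500598503) (l 16777168))) (a (a (a (l 246054650087) (l 16777280)) (l 16777144)) (l 16777032)))))))))), by decide +kernel⟩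

def k40_pp_101_s : ∃ t, chk3 f_pp_101_s t 141 1990 1 = true :=
  ⟨(a (l 3) (a (a (l 3) (a (l 3) (b (l 3) (b (l 3) (b (a (l 3) (a (l 354502574359) (c (l 213842395383) (l 16777208)))) (a (a (l 369534959911) (c (l 231022264583) (l 16777216))) (l 16777288))))))) (b (a (a (l 3) (b (c (c (l 466171724151) (l 468856078711)) (l 476909142375)) (b (a (l 3) (a (a (l 323364061415) (l 242296553687)) (l 125258694823))) (a (a (a (l 343765156087) (l 277193162951)) (l 138680467639)) (l 16777080))))) (a (b (b (a (l 448991854759) (c (c (l 146733531367) (l 161765916855)) (l 16777184))) (a (a (a (l 304573579479) (l 222432329927)) (l 16777328)) (l 16777056))) (l 16777256)) (l 16777264))) (a (a (b (b (a (l 3) (a (c (l 315310997751) (l 316384739575)) (l 145659789527))) (a (a (l 339470188807) (c (l 197199397095) (l 16777200))) (l 16777104))) (c (l 16777296) (l 16776976))) (c (l 16777144) (l 16776824))) (l 16777040))))), by decide +kernel⟩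

def k41_pp_101_s : ∃ t, chk3 f_pp_101_s t 141 1991 1 = true :=
  ⟨(a (a (l 3) (a (l 3) (a (l 3) (b (l 3) (b (l 3) (b (c (l 459192402199) (l 468856078599)) (a (l 471003562167) (a (a (l 310479159527) (l 231022264535)) (l 16777296))))))))) (a (a (a (b (l 3) (b (b (c (c (l 444160016631) (l 446307500279)) (l 448454983927)) (a (l 441475661991) (c (c (l 139754209511) (l 16777328)) (l 16777184)))) (b (a (a (a (l 292762419415) (l 211158040775)) (l 16777320)) (l 16777056)) (l 16777320)))) (b (b (l 3) (a (c (c (l 433959469287) (l 440401920215)) (l 442549403863)) (b (a (l 3) (a (l 367387476183) (l 285246226631))) (c (l 115595018471) (l 16777160))))) (a (b (a (a (b (l 240685940951) (l 16777096)) (l 82309021927)) (l 16777240)) (l 16776840)) (l 16777160)))) (b (a (a (b (a (l 3) (a (l 441475661991) (b (l 3) (l 245517779175)))) (c (l 83382763751) (l 16777088))) (b (b (a (l 391009796391) (c (l 276119421127) (l 16777232))) (c (l 16777304) (l 16777144))) (l 16776944))) (c (c (l 16777344) (l 16777184))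 (l 16777192))) (l 16777120))) (c (l 16777160) (l 16777192)))), by decide +kernel⟩

def k42_pp_101_s : ∃ t, chk3 f_pp_101_s t 140 996 1 = true :=
  ⟨(l 3), by decide +kernel⟩

def k43_pp_101_s : ∃ t, chk3 f_pp_101_s t 280 997 1 = true :=
  ⟨(l 3), by decide +kernel⟩

def k44_pp_101_s : ∃ t, chk3 f_pp_101_s t 281 1994 1 = true :=
  ⟨(a (l 3) (a (b (l 3) (a (b (l 3) (a (a (l 3) (c (l 428053889207) (l 438254436519))) (b (a (l 3) (a (l 372219314391) (l 282025001175))) (c (c (l 127406178487) (l 16777328)) (l 16777168))))) (a (b (a (l 3) (b (l 3) (c (l 297057386711) (l 298131128535)))) (c (c (l 78550925559) (l 16777248)) (l 16777088))) (b (c (b (a (l 402284085511) (l 283098742983)) (l 98415149255)) (b (l 304573579591) (l 16777144))) (l 16776944))))) (a (b (b (l 3) (b (a (l 3) (a (l 363629379863) (c (l 222969200887) (l 16777216)))) (a (a (l 377051152679) (c (l 238538457351) (l 16777304))) (l 74792829159)))) (c (c (l 67276636263) (l 16777192)) (l 16777192))) (b (b (b (a (l 3) (c (a (l 327122157815)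 (l 191293817047)) (l 262160777479))) (a (a (l 349670736135) (c (l 206863073511) (l 16777208))) (l 16777272))) (c (l 16777304) (l 16776976))) (l 16776576))))), by decide +kernel⟩

def k45_pp_101_s : ∃ t, chk3 f_pp_101_s t 281 1995 1 = true :=
  ⟨(a (a (b (l 3) (a (b (l 3) (b (l 3) (a (l 3) (c (a (l 333027737863) (l 200420622567)) (l 266992615703))))) (a (b (l 3) (b (c (a (l 319605965047) (l 142438564055)) (l 256255197447)) (l 16777264))) (b (b (l 3) (c (a (l 306721063143) (l 129553662151)) (l 228874780967))) (l 16777192))))) (a (b (b (l 3) (b (a (l 3) (l 458118660263)) (a (l 469392949431) (a (c (l 279340646599) (l 279877517511)) (l 113447534759))))) (b (b (a (a (c (l 293299290327) (l 293836161239)) (l 125795565751)) (l 16777072)) (l 16777336)) (l 16776808))) (b (b (b (a (l 3) (c (l 430738243735) (l 363629379927))) (a (c (l 442012532903) (l 373829927271)) (a (a (l 261623906535) (l 180556398823)) (l 16777152)))) (b (a (a (a (l 292225548503) (l 210621169863)) (l 16777320)) (l 16777056))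 (l 16777320))) (l 16777312)))) (a (b (a (a (b (b (c (a (l 204715589863) (l 16777144)) (l 16777336)) (l 16777040)) (l 16776840)) (l 16777160)) (l 16777272)) (l 16776224)) (l 16777224))), by decide +kernel⟩

def k46_pp_101_s : ∃ t, chk3 f_pp_101_s t 280 1996 1 = true :=
  ⟨(a (l 3) (a (b (l 3) (b (a (l 3) (a (l 3) (a (l 3) (a (l 457581789383) (b (l 3) (l 293299290327)))))) (b (a (l 3) (a (a (l 3) (a (l 391546667255) (l 308868546791))) (a (a (l 229948522711) (l 112910663879)) (l 16777136)))) (a (a (l 3) (c (l 437180694679) (l 363629379943))) (a (a (b (l 295983644887) (l 16777184)) (l 16777144)) (l 16777040)))))) (a (b (b (l 3) (a (l 3) (a (l 3) (b (l 3) (c (l 286856839383) (l 287393710295)))))) (b (b (a (a (l 3) (c (l 299741741287) (l 300815483111))) (c (l 105931342023) (l 16777152))) (a (c (c (l 118816243895) (l 16777320)) (l 16777160)) (l 16777016))) (l 16777216))) (b (a (b (l 3) (b (a (l 388325441831) (c (l 273435066567) (l 273971937479))) (c (l 96804536503) (l 16777144)))) (b (b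 (l 3) (a (l 375440539927) (a (l 285246226647) (l 196662526183)))) (c (l 16777312) (l 16777064)))) (l 16777224))))), by decide +kernel⟩

def k47_pp_101_s : ∃ t, chk3 f_pp_101_s t 280 1997 1 = true :=
  ⟨(a (b (a (l 3) (a (l 3) (b (a (l 3) (b (l 3) (l 458118660279))) (b (a (l 467782336711) (a (c (l 285783097543) (l 286319968455)) (l 119353114791))) (a (c (a (l 298667999447) (l 121500598455)) (l 222969200919)) (l 16777080)))))) (a (a (l 3) (b (l 3) (b (a (l 3) (a (c (l 336785834247) (l 339470188807)) (b (l 283635613911) (l 16777176)))) (a (a (a (l 3) (l 339470188791)) (b (l 310479159511) (l 16777184))) (l 62444798167))))) (a (b (b (a (l 3) (c (a (l 311552901351) (l 133848629447)) (l 233169748263))) (a (c (a (l 323900932343) (l 189146333399)) (l 260013293831)) (l 16777256))) (c (l 16777288) (l 16776968))) (c (l 16777136) (l 16776816))))) (a (b (a (b (b (a (c (l 447918112935) (l 391546667335)) (a (a (l 284709355719) (l 202568106167)) (l 16777320))) (a (a (a (l 300278612183) (l 218674233543))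 (l 107541954711)) (l 16777056))) (l 16777256)) (l 16777344)) (l 16777040)) (l 16777224))), by decide +kernel⟩

def k48_pp_101_s : ∃ t, chk3 f_pp_101_s t 280 999 1 = true :=
  ⟨(a (a (b (b (a (b (b (a (l 3) (a (l 370608701735) (b (l 345375768775) (l 16777280)))) (a (a (l 389936054567) (b (l 365776863447) (l 187535720631))) (c (l 16777296) (l 16777136)))) (c (c (l 68350378167) (l 16777328)) (l 16777336))) (c (c (l 16777256) (l 16777176)) (l 16777184))) (l 16777280)) (l 16775648)) (c (l 16777232) (l 16776944))) (c (l 16776032) (l 16774776))), by decide +kernel⟩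

def k49_pp_101_s : ∃ t, chk3 f_pp_101_s t 281 499 1 = true :=
  ⟨(b (a (b (a (b (a (b (b (a (b (c (l 350744477959) (l 352891961607)) (a (l 337322705079) (l 16777184))) (l 16777280)) (c (l 16777296) (l 16777056))) (l 16777176)) (l 16777352)) (l 16776960)) (l 16776976)) (l 16776520)) (l 16776560)) (l 16775640)), by decide +kernel⟩

def k50_pp_101_s : ∃ t, chk3 f_pp_101_s t 141 1992 1 = true :=
  ⟨(a (a (b (l 3) (b (l 3) (b (l 3) (a (l 3) (a (l 3) (a (l 3) (a (l 3) (a (l 334101479671) (l 253570842855))))))))) (b (a (b (l 3) (b (l 3) (a (l 3) (a (l 3) (a (l 348596994311) (c (l 205789331687) (l 16777208))))))) (a (a (b (l 3) (b (c (a (l 325511545079) (l 189683204311)) (l 243370295607)) (l 16777272))) (b (b (l 3) (a (c (l 311016030439) (l 312089772263)) (l 141901693127))) (l 16777360))) (b (b (a (a (c (l 296520515799) (l 297057386711)) (l 129016791223)) (l 16777072)) (l 16777344)) (l 16776808)))) (a (a (a (b (l 3) (b (a (l 389399183671) (c (l 284172484807) (l 284709355719))) (c (l 99488891079)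 (l 16777144)))) (b (b (l 3) (a (l 377588023591) (c (l 238538457351) (l 16777224)))) (c (l 16777312) (l 16777072)))) (b (b (a (a (l 363092508951) (c (l 222432329975) (l 16777216))) (l 16777280)) (c (l 16777296) (l 16777056))) (l 16776856))) (c (l 16777200) (l 16776560))))) (a (c (l 16777336) (l 16777280)) (l 16774792))), by decide +kernel⟩

def k51_pp_101_s : ∃ t, chk3 f_pp_101_s t 141 1993 1 = true :=
  ⟨(a (a (b (a (b (l 3) (a (l 3) (a (l 3) (c (l 452749951239) (l 462413627639))))) (a (b (a (l 3) (c (c (l 437180694759) (l 439328178407)) (l 446307500247))) (b (a (a (l 3) (l 350207607047)) (c (c (l 133311758551) (l 16777336)) (l 16777176))) (a (a (a (l 280414388423) (l 197736267959)) (l 16777152)) (l 16777048)))) (b (b (a (a (l 3) (a (l 374903668951) (l 284172484823))) (c (l 109689438423) (l 16777152))) (c (c (c (l 86067118327) (l 84456505591)) (l 16777336)) (l 16777256))) (l 16777224)))) (a (a (b (c (c (l 467245465991) (l 474224787831)) (l 477982884215)) (b (a (l 3) (a (c (l 299204870359)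 (l 299741741271)) (l 131164274871))) (a (c (a (l 313163514087) (l 134922371271)) (l 234243490087)) (l 16777088)))) (b (b (a (l 456508047543) (a (a (l 297594257623) (l 215989878983)) (l 16777328))) (a (a (c (l 284709355719) (l 285246226631)) (l 118279372967)) (l 16777064))) (l 16777264))) (c (l 16777288) (l 16776640)))) (c (c (l 16777328) (l 16777344)) (l 16777360))) (l 16776592)), by decide +kernel⟩

def k52_pp_101_s : ∃ t, chk3 f_pp_101_s t 141 997 1 = true :=
  ⟨(a (a (b (a (c (c (l 16777216) (l 16777064)) (l 16777400)) (l 16777144)) (l 16776360)) (l 16777048)) (l 16775304)), by decide +kernel⟩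

def k53_pp_101_s : ∃ t, chk3 f_pp_101_s t 141 499 1 = true :=
  ⟨(c (l 16775792) (c (l 16775896) (l 16775968))), by decide +kernel⟩

def k54_pp_101_s : ∃ t, chk3 f_pp_101_s t 142 992 1 = true :=
  ⟨(a (l 3) (a (l 3) (b (l 3) (a (a (l 3) (b (l 3) (b (l 3) (b (l 3) (a (l 3) (a (l 356113187079) (l 220821717223))))))) (a (b (l 3) (b (b (l 3) (a (l 3) (a (l 292762419511) (l 144586047687)))) (b (a (a (l 311552901447) (l 203641848023)) (l 16777096)) (l 61907927255)))) (b (b (l 3) (a (l 469392949527) (b (l 455971176615) (a (l 255181455639) (l 16777168))))) (b (b (a (a (l 273971937575) (l 16777304)) (l 16777072)) (l 16777336)) (l 16776808)))))))), by decide +kernel⟩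

def k55_pp_101_s : ∃ t, chk3 f_pp_101_s t 142 993 1 = true :=
  ⟨(b (a (l 3) (b (a (b (l 3) (a (l 3) (a (l 3) (a (l 3) (a (l 3) (b (l 3) (l 287393710391))))))) (a (a (b (a (l 3) (a (l 466171724007) (b (l 3) (l 250349617431)))) (b (a (a (l 3) (l 268603228455)) (l 90898956551)) (c (l 87677731047) (l 16777080)))) (b (a (b (a (l 373293056279) (l 232096006407)) (l 16777336)) (l 75329700007)) (l 16776856))) (c (l 16777200) (l 16776560)))) (a (a (a (l 3) (a (l 3) (c (c (l 467245466055) (l 469929820615)) (l 475298529719)))) (a (b (a (l 3) (c (l 444696887543) (l 453823693031))) (b (a (l 446844371111) (a (l 231559135479) (l 16777152))) (a (a (l 248739004679) (l 16777160)) (l 16777056)))) (b (a (b (c (l 335712092535) (l 337859576183)) (c (l 129016791287) (l 16777176))) (c (l 88214601991) (l 16777096))) (l 16777232)))) (c (l 16777368) (l 16776976))))) (a (b (l 3) (a (l 3) (a (l 3) (a (b (l 3) (a (c (c (l 421611438279) (l 423758921927)) (l 425906405575)) (b (b (l 394231021863) (a (l 386177958103)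 (l 16777208))) (c (l 16777312) (l 16777144))))) (b (b (a (l 3) (a (l 358260670743) (l 223506071799))) (a (a (l 374366798119) (a (l 292225548503) (l 210084298951))) (l 16777288))) (c (l 16777320) (l 16777000))))))) (a (a (a (b (b (l 3) (b (a (l 3) (a (l 298667999559) (l 147270402263))) (a (a (l 341617672455) (l 206863073511)) (l 16777104)))) (c (l 16777328) (l 16776840))) (b (b (b (a (l 3) (c (c (l 222432329959) (l 221358588135)) (l 16777368))) (a (c (c (l 235317231863) (l 234780360951)) (l 229411651863)) (l 16777080))) (l 16777360)) (l 16776552))) (c (l 16777352) (l 16777040))) (l 16777144)))), by decide +kernel⟩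

def k56_pp_101_s : ∃ t, chk3 f_pp_101_s t 142 497 1 = true :=
  ⟨(b (a (b (b (a (l 3) (a (a (b (l 3) (b (c (l 449528725751) (l 454360563959)) (a (l 450602467495) (c (c (l 159618433223) (l 16777352)) (l 16777184))))) (b (b (c (c (l 432885727447) (l 435033211095)) (l 436643823831)) (a (a (l 3) (l 312089772359)) (c (l 122037469415) (l 16777168)))) (a (a (b (l 220821717223) (l 16777080)) (l 16777240)) (l 16776968)))) (c (c (c (c (l 57076089015) (l 16777304)) (l 16777304)) (l 16777312)) (l 16777416)))) (a (a (l 3) (a (b (l 3) (b (l 3) (a (l 3) (a (a (l 383493603559) (l 300815483095)) (l 149954756823))))) (a (b (l 3) (b (a (a (l 343765156103) (l 281488130247)) (l 135459242183)) (l 16777096))) (b (b (l 464024240311) (a (a (l 321216577783) (l 241222811879)) (l 127943049383))) (l 16777016))))) (a (b (a (b (a (c (a (l 271824453831) (l 16777168)) (l 16777360)) (l 16777056)) (l 16777328)) (l 16776776)) (l 16777304)) (l 16776200)))) (b (a (a (b (b (l 3) (a (l 3) (a (l 3) (a (l 359871283479)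 (a (l 260550164711) (l 182703882455)))))) (b (a (l 3) (a (a (l 375440539943) (a (l 293836161239) (l 211694911687))) (l 16777288))) (a (a (l 3) (b (l 388325441847) (a (l 387251699927) (l 16777288)))) (c (l 16777304) (l 16777064))))) (a (b (a (b (a (l 344302027015) (a (l 239075328215) (l 16777272))) (l 16777280)) (l 16777360)) (l 16776840)) (l 16777336))) (l 16777184)) (a (a (a (b (a (b (a (l 3) (a (l 333564608759) (l 253570842855))) (c (l 110763180247) (l 16777160))) (c (l 79087796439) (l 16777080))) (l 16777216)) (l 16777384)) (l 16776952)) (l 16775416)))) (c (c (l 16777064) (l 16777088)) (l 16777128))) (a (a (c (l 16777192) (l 16777224)) (l 16776696)) (l 16772328))), by decide +kernel⟩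

def k57_pp_101_s : ∃ t, chk3 f_pp_101_s t 143 248 1 = true :=
  ⟨(b (b (a (b (a (b (b (l 3) (a (l 3) (a (l 3) (b (a (l 3) (a (l 340007059719) (l 204178718951))) (a (a (l 357186928919) (l 222432329975)) (l 16777112)))))) (a (a (l 3) (b (l 3) (a (c (l 431811985623) (l 436643823831)) (b (a (l 3) (l 277730033959)) (c (l 16777320) (l 16777160)))))) (a (b (b (a (l 3) (a (l 374366798119) (l 240149070087))) (a (a (l 387251700023) (l 258402681111)) (l 16777336))) (c (l 64592281879) (l 16777008))) (c (l 16777336) (l 16776856))))) (a (b (a (b (b (a (l 3) (a (l 276656292151) (l 16777304))) (a (a (l 295446774087) (l 144586047703)) (l 16777088))) (l 51707379943)) (l 16777376)) (l 16777064)) (l 16777080))) (a (a (b (b (a (a (c (l 451139338487) (l 455971176695)) (c (b (l 340543930759) (l 132238016775)) (l 244444037559))) (c (c (l 80161538295) (l 16777360)) (l 16777032))) (a (a (a (b (l 236390973703) (l 16777096)) (l 16777256)) (l 16776984)) (l 16776760))) (l 16777328)) (c (l 16776840) (l 16776200)))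 (l 16776624))) (c (l 16776688) (l 16776744))) (a (c (l 16776880) (l 16776944)) (l 16771944))) (c (l 16775064) (l 16775208))), by decide +kernel⟩

def k58_pp_101_s : ∃ t, chk3 f_pp_101_s t 71 249 1 = true :=
  ⟨(a (b (a (a (l 16774640) (l 16770848)) (l 16769096)) (l 16771192)) (c (l 16763288) (l 16768800))), by decide +kernel⟩

def k59_pp_101_s : ∃ t, chk3 f_pp_101_s t 35 125 1 = true :=
  ⟨(a (a (b (b (a (b (l 16776288) (l 16771024)) (l 16772408)) (c (l 16766520) (l 16766744))) (l 16769304)) (b (b (l 16771544) (l 16761976)) (l 16755464))) (b (c (l 16756912) (l 16767800)) (l 16748400))), by decide +kernel⟩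

def k60_pp_101_s : ∃ t, chk3 f_pp_101_s t 17 63 1 = true :=
  ⟨(a (b (a (l 14) (a (l 14) (a (l 14) (l 16761056)))) (l 14)) (a (b (b (l 16759568) (l 16740328)) (l 16727104)) (b (l 16745744) (l 16696592)))), by decide +kernel⟩

def k61_pp_101_s : ∃ t, chk3 f_pp_101_s t 36 60 1 = true :=
  ⟨(l 3), by decide +kernel⟩

def k62_pp_101_s : ∃ t, chk3 f_pp_101_s t 37 120 1 = true :=
  ⟨(l 3), by decide +kernel⟩

def k63_pp_101_s : ∃ t, chk3 f_pp_101_s t 74 121 1 = true :=
  ⟨(l 3), by decide +kernel⟩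

def k64_pp_101_s : ∃ t, chk3 f_pp_101_s t 75 242 1 = true :=
  ⟨(l 3), by decide +kernel⟩

def k65_pp_101_s : ∃ t, chk3 f_pp_101_s t 150 243 1 = true :=
  ⟨(a (l 3) (b (l 3) (b (b (l 3) (b (l 3) (b (l 3) (a (l 3) (a (l 3) (a (l 3) (a (l 317458481831) (l 196662526487)))))))) (b (a (b (l 3) (a (l 3) (a (l 3) (c (l 438254436807) (l 441475662279))))) (a (a (b (l 3) (c (b (l 402820956391) (l 119353115159)) (l 219747976135))) (b (a (l 3) (b (l 3) (l 250886488695))) (c (l 91435827639) (l 16776952)))) (b (a (b (a (l 345912640215) (l 223506072135)) (l 87677731383)) (l 64055411239)) (l 16777152)))) (a (b (a (c (c (l 467782337271) (l 470466691831)) (l 472614175479)) (a (b (l 440401920327) (c (a (l 245517779479) (l 16777112)) (l 16777176))) (a (b (l 218137362999) (l 16776960)) (l 16777272)))) (a (a (b (l 3) (a (l 306184192647) (l 185925108215))) (b (a (l 281488130647) (l 130090533303)) (l 16776960))) (l 16777456))) (c (l 16777296) (l 16776008))))))), by decide +kernel⟩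

def k66_pp_101_s : ∃ t, chk3 f_pp_101_s t 151 243 1 = true :=
  ⟨(b (b (a (l 3) (a (l 3) (b (l 3) (b (a (l 3) (a (l 3) (b (l 462413627767) (a (l 278266905175) (l 16777144))))) (a (a (l 3) (a (l 443086274951) (b (l 3) (l 212231782951)))) (b (a (a (l 305647321735) (l 184314495479)) (l 16776960)) (l 16777536))))))) (a (b (l 3) (b (l 3) (a (l 3) (a (l 3) (a (a (l 438254436743) (b (l 3) (l 205252461095))) (b (a (l 299204870791) (l 146196660711)) (l 16776984))))))) (a (a (b (a (l 3) (a (l 3) (b (l 3) (l 440938791303)))) (b (a (b (l 460266144103) (a (l 263771390615) (l 16777464))) (c (c (l 117205631527) (l 16777368)) (l 16777040))) (l 16777528))) (b (a (b (l 3) (b (l 413558374663) (c (l 129553662535) (l 16777136)))) (b (a (l 3) (a (l 439328178519) (l 400136601831))) (c (l 97341407719) (l 16776968)))) (l 16777472))) (b (a (b (a (b (a (l 360945025783) (l 238538457703)) (l 97878278743)) (l 69424120407)) (l 16777176)) (l 16777488)) (l 16776720))))) (b (a (b (a (b (l 3) (a (l 3) (a (c (l 442549404135)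 (l 447918113239)) (c (b (l 411410890999) (l 125258695223)) (l 224579814375))))) (a (b (b (a (l 3) (a (l 355576316647) (l 233169748567))) (a (a (l 3) (l 259476423319)) (l 94120182343))) (c (c (l 16777456) (l 16776808)) (l 16776816))) (c (l 16777528) (l 16776480)))) (a (a (a (b (l 3) (b (a (l 291151807095) (l 138680467927)) (l 16776976))) (b (b (l 454360564055) (a (l 255718326919) (l 16777456))) (l 16776808))) (a (b (a (b (l 229948523079) (l 16776976)) (l 16777288)) (l 16776504)) (l 16777120))) (c (l 16775696) (l 16775720)))) (c (l 16777344) (l 16777064))) (a (a (c (l 16777272) (l 16777960)) (l 16776728)) (l 16774904)))), by decide +kernel⟩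

def k67_pp_101_s : ∃ t, chk3 f_pp_101_s t 72 122 1 = true :=
  ⟨(l 3), by decide +kernel⟩

def k68_pp_101_s : ∃ t, chk3 f_pp_101_s t 73 244 1 = true :=
  ⟨(l 3), by decide +kernel⟩

def k69_pp_101_s : ∃ t, chk3 f_pp_101_s t 146 245 1 = true :=
  ⟨(b (l 3) (b (l 3) (b (l 3) (b (l 3) (b (l 3) (a (l 3) (a (l 3) (a (l 3) (a (l 3) (a (b (l 3) (l 257328939383)) (b (l 233169748359) (l 16777104)))))))))))), by decide +kernel⟩

def k70_pp_101_s : ∃ t, chk3 f_pp_101_s t 294 245 1 = true :=
  ⟨(b (l 3) (b (a (l 3) (a (l 3) (b (l 3) (b (l 3) (b (a (l 3) (a (c (l 320679707175) (l 321753448999)) (b (l 268603228551) (l 16777128)))) (a (a (l 435033211095) (b (l 301889225143) (l 16777320))) (c (l 16777000) (l 16777008)))))))) (b (a (a (l 3) (b (l 3) (b (a (l 3) (a (l 3) (b (l 3) (l 255718326647)))) (a (c (l 428053889303) (l 432348856599)) (a (b (l 272898195847) (l 16777136)) (l 16777056)))))) (a (b (b (a (l 3) (a (l 457581789447) (b (l 358260670855) (l 175724560743)))) (a (a (l 3) (b (l 381882991031)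 (l 215989879143))) (c (l 93583311239) (l 16777064)))) (a (a (b (b (l 231022264711) (l 16777104)) (l 16776904)) (l 16776888)) (l 16776664))) (c (c (l 54391734599) (l 16777136)) (l 16777144)))) (a (a (a (b (c (c (l 465097982503) (l 469929820711)) (l 475298529815)) (b (a (b (l 3) (l 218137362791)) (c (l 116668760407) (l 16777136))) (l 16776952))) (b (b (a (l 3) (l 434496340199)) (a (b (l 356113187223) (l 178408915303)) (l 113447534871))) (l 16777440))) (a (b (b (a (b (l 305647321527) (l 16777328)) (l 16777408)) (l 16776888)) (l 16776488)) (l 16777112))) (c (l 16777016) (l 16775728)))))), by decide +kernel⟩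

def k71_pp_101_s : ∃ t, chk3 f_pp_101_s t 295 245 1 = true :=
  ⟨(b (a (l 3) (b (l 3) (b (l 3) (a (b (l 3) (b (l 3) (a (l 3) (c (c (l 388862312631) (l 299204870807)) (l 293299290855))))) (b (b (l 3) (a (l 3) (a (l 426980147399) (b (l 289004323239) (l 16777152))))) (a (b (a (l 450602467575) (a (l 279877517767) (l 203641848199))) (c (l 89288343927) (l 16777056))) (c (l 16777216) (l 16776896)))))))) (b (b (a (a (b (l 3) (a (l 3) (c (l 463487369751) (l 472077304343)))) (b (a (l 3) (b (l 3) (c (l 422148309271) (l 428590760199)))) (b (a (c (l 442012533047) (l 445770629431)) (a (b (l 298131128743) (l 16777152)) (l 16777072))) (a (a (b (l 351818219911) (l 134922371415)) (l 107541954839)) (l 16776880))))) (a (b (b (a (c (c (l 405505310951) (l 407115923687)) (l 321216578247)) (c (c (l 106468213095) (l 16777080)) (l 16777080))) (a (a (b (l 265918873975) (l 16777128)) (l 16777048)) (l 16776824))) (l 16777224)) (l 16777224))) (a (a (b (b (a (l 3) (a (b (l 379735507383) (l 206326202759)) (c (l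 16777376) (l 16777136)))) (a (a (b (l 3) (l 244444037527)) (c (l 131701145991) (l 16777160))) (l 16776944))) (a (l 16777416) (l 16776544))) (c (l 16777016) (l 16776368))) (l 16776776))) (c (l 16777056) (l 16777104)))), by decide +kernel⟩

def k72_pp_101_s : ∃ t, chk3 f_pp_101_s t 144 246 1 = true :=
  ⟨(l 3), by decide +kernel⟩

def k73_pp_101_s : ∃ t, chk3 f_pp_101_s t 145 492 1 = true :=
  ⟨(l 3), by decide +kernel⟩

def k74_pp_101_s : ∃ t, chk3 f_pp_101_s t 145 986 1 = true :=
  ⟨(a (l 3) (a (b (l 3) (a (b (l 3) (b (l 3) (a (l 3) (a (l 465097982231) (b (l 369534960023) (c (l 192367558951) (l 16777192))))))) (a (b (l 3) (a (b (l 445770629351) (c (l 104857600295) (l 16777120))) (b (b (l 328195899799) (l 120426856775)) (l 16776976)))) (b (b (l 3) (b (c (l 414632116407) (l 323900932695)) (a (c (l 312626643303) (l 313163514215)) (l 16777312)))) (c (l 60834185543) (l 16776888)))))) (a (b (a (l 3) (b (l 3) (b (l 3) (a (b (l 3) (c (l 242833424695) (l 16777224))) (c (c (l 139217338647)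 (l 16777312)) (l 16777152)))))) (b (b (a (a (c (l 403357827223) (l 314237256199)) (a (b (l 353965703431) (l 16777152)) (l 117742502167))) (l 16777296)) (c (l 16777336) (l 16776848))) (l 16777096))) (b (a (b (a (l 3) (b (l 3) (l 450602467575))) (b (c (a (b (l 395841634647) (l 201494364471)) (l 109689438519)) (l 202031235639)) (l 16776936))) (b (b (a (l 3) (b (l 3) (l 319069094295))) (b (a (l 344838898055) (l 115595018551)) (c (l 105931342103) (l 16777104)))) (l 16777432))) (l 16777104))))), by decide +kernel⟩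

def k75_pp_101_s : ∃ t, chk3 f_pp_101_s t 145 987 1 = true :=
  ⟨(a (b (a (l 3) (a (b (l 3) (b (l 3) (a (l 3) (a (l 3) (a (l 3) (l 431811985575)))))) (a (b (l 3) (a (b (l 3) (b (c (l 318532223335) (l 319605965159)) (l 110763180343))) (b (c (l 416242729143) (l 338396447223)) (l 78014054711)))) (b (b (l 3) (a (l 3) (c (l 393157279895) (l 316384739799)))) (b (a (b (c (l 293299290423) (l 16777416)) (l 16777304)) (l 16777384)) (l 16776864)))))) (a (a (l 3) (b (l 3) (b (a (l 3) (a (b (l 3) (c (l 254644584759) (l 16777232))) (a (b (l 293299290439) (l 16777136)) (l 106468212967)))) (a (a (c (l 407115923623) (l 319069094423)) (b (c (l 264845132119) (l 16777240)) (l 16777128))) (l 16777344))))) (a (a (b (b (c (l 461339885927) (l 466171724135)) (b (a (l 382419861943) (c (l 197199397159) (l 16777200))) (a (a (l 274508808487) (l 16777176)) (l 16777072)))) (l 16777304)) (b (b (b (a (l 359334412679) (l 124184953159)) (c (c (l 102710116647) (l 16777112)) (l 16777112))) (l 16776920)) (l 16776520)))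 (c (l 16776992) (l 16776352))))) (a (a (b (b (b (b (a (l 3) (c (c (l 116668760407) (l 16777304)) (l 16777136))) (a (a (l 3) (c (l 225653555527) (l 16777216))) (l 16777008))) (a (a (a (b (l 335712092423) (l 16777144)) (l 111300051207)) (l 16777032)) (l 16776808))) (l 16777208)) (l 16775752)) (c (l 16776992) (l 16777024))) (c (l 16777408) (l 16774832)))), by decide +kernel⟩

def k76_pp_101_s : ∃ t, chk3 f_pp_101_s t 144 988 1 = true :=
  ⟨(a (l 3) (b (a (l 3) (a (l 3) (b (l 3) (b (a (l 3) (a (l 468856078615) (b (l 370608701863) (c (l 198273138983) (l 16777200))))) (a (b (l 3) (a (l 3) (c (l 239612199207) (l 16777216)))) (a (a (b (l 275582550311) (l 16777120)) (l 16777360)) (l 16777008))))))) (b (a (l 3) (a (b (a (l 3) (a (l 3) (a (l 451139338439) (b (l 3) (l 225653555447))))) (c (a (a (l 3) (l 417853341879)) (b (a (l 290614935879) (l 16777128)) (l 16777392))) (a (l 435570082071) (l 119889986023)))) (a (a (b (b (a (l 341080801543) (l 204715589863)) (l 16777112)) (l 16776912)) (l 16777224))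 (l 16776680)))) (a (a (l 3) (b (a (l 3) (c (c (l 445233758535) (l 447381242183)) (l 448991854919))) (a (c (l 460803015015) (l 465634853223)) (a (b (l 358797541767) (c (l 140291080471) (l 16777184))) (c (l 97878278423) (l 16777112)))))) (a (a (b (b (a (c (l 320142836071) (l 320679706983)) (l 100562632983)) (c (l 95193923831) (l 16777088))) (l 16776888)) (l 16777384)) (l 16776288)))))), by decide +kernel⟩

def k77_pp_101_s : ∃ t, chk3 f_pp_101_s t 144 989 1 = true :=
  ⟨(a (b (a (l 3) (a (l 3) (a (l 3) (b (l 3) (b (l 3) (a (c (l 424832663751) (l 346449510919)) (b (c (l 300278612311) (l 300815483223)) (l 96804536599)))))))) (a (b (l 3) (b (l 3) (b (l 3) (a (l 3) (a (l 3) (a (l 3) (a (l 352355090695) (l 216526749927)))))))) (b (a (b (l 3) (a (l 3) (a (l 462950498583) (b (l 367387476375) (c (l 190756946215) (l 16777192)))))) (b (a (c (b (l 433959469287) (a (l 345912639879) (l 16777336))) (a (l 450602467559) (l 226190426615))) (c (l 71034732855) (l 16777024))) (a (a (c (l 103246987559)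 (l 16777120)) (l 16776976)) (l 16776752)))) (a (b (a (b (l 3) (a (l 3) (c (l 220821717319) (l 16777216)))) (a (a (b (l 264308261159) (l 16777120)) (l 16777352)) (l 16777000))) (a (b (a (c (l 243370295607) (l 16777224)) (l 16777096)) (l 16777360)) (l 16776808))) (l 16777152))))) (a (b (b (a (b (l 3) (a (l 3) (b (a (l 3) (c (l 227264168263) (l 16777216))) (a (a (l 336248963335) (l 199883751655)) (l 16777096))))) (a (b (b (a (l 467245465783) (c (l 196125655335) (l 16777200))) (a (a (l 272361324839) (l 16777176)) (l 16777072))) (l 16777272)) (l 16777272))) (a (b (a (b (c (c (l 397452247191) (l 308331676167)) (l 305110450743)) (a (c (l 291688677687) (l 291688677687)) (l 16777120))) (l 47412412743)) (a (a (l 85530247367) (l 16776920)) (l 16776704))) (l 16777048))) (c (l 16777184) (l 16777208))) (c (l 16777192) (l 16776576)))), by decide +kernel⟩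

def k78_pp_101_s : ∃ t, chk3 f_pp_101_s t 144 495 1 = true :=
  ⟨(a (a (b (a (b (a (b (l 3) (b (c (c (l 455434305879) (l 458118660439)) (l 459729273175)) (b (a (l 371682443687) (c (l 184314495255) (l 16777192))) (a (a (l 254644584727) (l 16777168)) (l 16777064))))) (b (b (l 3) (a (l 3) (c (l 428590760151) (l 350207607319)))) (b (a (c (b (l 336785834375) (l 130627404039)) (l 241759682999)) (c (l 91435827463) (l 16777104))) (l 16776904)))) (c (l 16777360) (l 16777048))) (b (b (a (b (a (l 3) (a (l 466171724007) (b (l 3) (l 249812746519)))) (b (a (c (l 311552901463) (l 312089772375)) (l 16777344)) (c (l 16777328) (l 16777080)))) (b (a (b (c (l 283098743095) (l 283098743095)) (l 16777296)) (l 16777376)) (l 16776856))) (c (l 16777248) (l 16776608))) (l 16775800))) (l 16777104)) (b (a (c (l 16777368) (l 16777072)) (l 16776472)) (l 16773304))) (c (l 16776504) (l 16775280))), by decide +kernel⟩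

def k79_pp_101_s : ∃ t, chk3 f_pp_101_s t 145 247 1 = true :=
  ⟨(b (b (a (b (a (a (a (b (b (l 3) (b (c (l 438791307495) (l 443086274791)) (a (l 355576316311) (c (l 16777336) (l 16777176))))) (c (c (c (l 69960991015) (l 16777320)) (l 16777240)) (l 16777248))) (b (b (b (c (l 417316470983) (l 329806512727)) (a (c (l 321216577895) (l 321753448807)) (l 16777352))) (c (l 73719087415) (l 16777024))) (l 16776624))) (c (c (l 16777344) (l 16777104)) (l 16777112))) (l 16777040)) (c (l 16777192) (l 16776416))) (l 16775880)) (c (l 16776512) (l 16776272))) (c (l 16774240) (l 16774384))), by decide +kernel⟩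

def k80_pp_101_s : ∃ t, chk3 f_pp_101_s t 146 984 1 = true :=
  ⟨(a (b (l 3) (b (l 3) (b (l 3) (a (l 3) (a (l 3) (a (l 3) (a (l 3) (l 458118660359)))))))) (b (a (b (l 3) (b (l 3) (a (l 3) (a (l 3) (a (l 3) (b (l 3) (l 217600491879))))))) (a (b (b (l 3) (a (l 3) (a (l 435033211111) (b (l 313163514263) (l 16777328))))) (b (a (a (l 460266144007) (b (l 356650058135) (l 178945786215))) (c (l 16777384) (l 16777040))) (c (c (c (l 80161538343) (l 16777240)) (l 16777240)) (l 16777248)))) (b (b (a (a (c (l 414095245495) (l 326048416295)) (b (l 274508808583) (l 16777136))) (l 16777304)) (c (l 66202894615) (l 16776864))) (l 16777112)))) (a (a (b (a (l 3) (a (l 3) (b (l 3) (b (l 3) (l 287393710503))))) (b (a (c (l 443623145799) (l 447918113095)) (a (b (l 315847868807) (l 16777328)) (l 16777328))) (a (b (a (l 353965703575) (l 124721824071)) (c (l 112373793063) (l 16777112))) (l 16776888)))) (b (b (a (a (l 3) (b (l 3) (l 256255197559))) (a (b (l 232632877447) (l 16777104)) (l 16777024))) (a (a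 (b (l 272898195847) (l 16777136)) (l 16777056)) (l 16776832))) (l 16777232))) (c (l 16777256) (l 16777280))))), by decide +kernel⟩

def k81_pp_101_s : ∃ t, chk3 f_pp_101_s t 146 985 1 = true :=
  ⟨(a (b (a (l 3) (a (b (l 3) (b (a (l 3) (b (c (l 401210343591) (l 311552901687)) (a (l 285246226839) (l 16777128)))) (a (b (c (l 421074567383) (l 348596994583)) (a (l 327122157975) (l 16777320))) (c (l 16777328) (l 16777008))))) (b (b (a (l 3) (a (b (l 382419861943) (l 214379266407)) (c (l 114521276759) (l 16777136)))) (a (c (a (a (l 362555638199) (l 277193163159)) (c (l 142975435063) (l 16777328))) (l 231022264903)) (l 16776944))) (c (l 16777344) (l 16776696))))) (a (a (b (l 3) (b (a (l 3) (a (l 3) (a (l 436106952887) (b (l 3) (l 16777368))))) (a (c (c (l 421611438359) (l 426980147463)) (l 428053889287)) (a (a (b (l 361481896215) (l 16777160)) (l 122037469479)) (l 16777048))))) (b (b (a (l 3) (a (l 453823693063) (b (l 353428832647) (l 134385500503)))) (a (b (l 468856078615) (a (l 3) (c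 (l 210084299063) (l 16777208)))) (c (c (l 90362085719) (l 16777056)) (l 16777064)))) (a (a (b (a (b (l 293836161335) (l 16777136)) (l 16777288)) (l 16776896)) (l 16777208)) (l 16776664)))) (a (a (c (c (l 56002347303) (l 16777288)) (l 16777296)) (l 16776992)) (l 16777200)))) (a (c (c (l 16777152) (l 16776840)) (l 16777520)) (l 16776968))), by decide +kernel⟩

def k82_pp_101_s : ∃ t, chk3 f_pp_101_s t 146 493 1 = true :=
  ⟨(a (b (a (b (a (a (b (b (a (b (c (l 307794805079) (l 16777424)) (l 16777312)) (l 16777320)) (l 16776880)) (l 16776480)) (l 16777432)) (l 16777320)) (l 16776544)) (l 16777200)) (l 16775648)) (l 16776152)), by decide +kernel⟩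

def k83_pp_101_s : ∃ t, chk3 f_pp_101_s t 147 246 1 = true :=
  ⟨(b (a (a (b (c (l 16777248) (l 16776624)) (l 16773160)) (l 16776312)) (l 16776488)) (c (l 16768072) (l 16768232))), by decide +kernel⟩

def k84_pp_101_s : ∃ t, chk3 f_pp_101_s t 73 247 1 = true :=
  ⟨(a (a (b (l 16769808) (l 16765504)) (l 16770520)) (l 16770208)), by decide +kernel⟩

def k85_pp_101_s : ∃ t, chk3 f_pp_101_s t 74 488 1 = true :=
  ⟨(b (l 3) (a (l 3) (a (l 3) (a (a (l 3) (b (l 3) (b (a (l 3) (a (l 3) (b (l 3) (l 331417125559)))) (a (b (l 457581789543) (a (a (l 314237256231) (l 234780361223)) (l 115058147783))) (a (b (a (l 282025001463) (l 203641848279)) (l 16776984)) (l 73182216679)))))) (a (b (b (l 3) (a (l 3) (b (l 3) (c (l 398525989079) (l 305647321879))))) (b (b (a (c (l 417853341959) (l 336785834743)) (c (l 114521276935) (l 16777104))) (a (c (a (l 210084299223) (l 16777064)) (l 16777136)) (l 16776840))) (l 16777416))) (b (a (b (l 3) (b (a (l 464561111319) (a (l 293299290647) (l 216526750183))) (c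 (l 16777400) (l 16777072)))) (b (b (l 3) (a (l 341080802007) (a (l 265382003159) (l 184851366327)))) (c (l 16777232) (l 16776912)))) (l 16777488))))))), by decide +kernel⟩

def k86_pp_101_s : ∃ t, chk3 f_pp_101_s t 75 488 1 = true :=
  ⟨(a (b (a (b (a (l 3) (b (a (l 3) (b (a (l 3) (a (l 331417125575) (l 212231782951))) (a (a (l 452213080327) (a (l 285246226935) (l 205789331927))) (l 16777480)))) (c (b (a (a (l 3) (l 393157279943)) (l 76940313111)) (a (a (l 412484632823) (l 110226309623)) (l 16776640))) (a (a (l 434496340391) (l 212768654247)) (l 16776784))))) (a (a (b (l 3) (b (l 3) (a (l 3) (a (a (l 350744478215) (l 258939552311)) (l 139217338823))))) (c (a (b (l 456508047895) (a (b (l 255181455927) (l 16777008)) (l 16777320))) (b (b (l 432348856615) (c (l 178945786391) (l 16777488))) (l 16776768))) (b (c (l 380809249047) (l 381882990871)) (l 92509569895)))) (a (a (b (b (c (l 125795566135) (l 16777128)) (l 16776864)) (l 16776464)) (l 16777088)) (l 16777288)))) (a (c (c (c (l 16776896)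 (l 16776904)) (l 16776912)) (l 16777584)) (l 16777016))) (a (a (b (a (b (a (b (a (l 315310998167) (a (l 221895459319) (l 16777152))) (l 16777336)) (l 16777496)) (l 16777112)) (l 16777432)) (l 16776664)) (l 16777136)) (l 16775480))) (c (l 16775472) (l 16775584))), by decide +kernel⟩

def k87_pp_101_s : ∃ t, chk3 f_pp_101_s t 148 489 1 = true :=
  ⟨(a (l 3) (b (l 3) (b (b (l 3) (b (l 3) (a (l 3) (a (l 3) (a (l 3) (a (l 439328178407) (c (l 224042942967) (l 16777216)))))))) (a (b (l 3) (a (l 3) (a (l 3) (a (l 3) (b (l 3) (l 424832663767)))))) (a (b (b (l 3) (a (l 3) (c (l 401210343639) (l 314774127303)))) (b (a (c (l 419463954695) (l 331953996535)) (c (c (l 119353115015) (l 16777104)) (l 16777104))) (a (a (a (l 244980908487) (l 144586047815)) (l 16777072)) (l 16776848)))) (b (a (b (c (c (l 383493603495) (l 294909903511)) (l 289541194471)) (c (l 100025762247) (l 16777072))) (c (l 78550925687) (l 16776912))) (l 16777184))))))), by decide +kernel⟩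

def k88_pp_101_s : ∃ t, chk3 f_pp_101_s t 149 489 1 = true :=
  ⟨(a (b (b (a (l 3) (a (l 3) (b (l 3) (b (a (l 3) (a (l 439865049319) (a (l 258402681399) (l 189683204551)))) (a (c (c (l 384567345319) (l 295983645335)) (l 290614936295)) (c (l 16777368) (l 16777048))))))) (a (b (l 3) (a (l 3) (a (c (l 462413627927) (l 471003562519)) (b (c (l 439328178487) (l 356650058535)) (a (a (l 284709356023) (l 206326202839)) (l 16777432)))))) (a (b (b (a (l 3) (c (l 401747214551) (l 308868547351))) (a (c (l 420537696519) (l 339470189303)) (c (c (l 117205631415) (l 16777104)) (l 16777104)))) (b (a (a (a (l 244444037655) (l 139217338791)) (l 16777072)) (l 16776848)) (l 16777384))) (c (c (c (l 58686701991) (l 16777176)) (l 16777184)) (l 16777192))))) (a (b (a (b (a (l 3) (c (b (l 3) (a (l 298131128871) (l 141364822407))) (l 375440539847))) (b (a (c (a (l 323364061783) (l 198810010055)) (l 244980908743)) (l 16777304)) (a (l 72108474871) (l 16776712)))) (b (a (b (a (a (l 313700385335) (l 250349617591))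 (l 122574340519)) (l 16776944)) (l 16777432)) (l 16777048))) (c (l 16777200) (l 16775904))) (c (l 16777176) (l 16777864)))) (a (b (a (b (b (b (a (l 3) (c (a (l 297594257959) (l 140827951495)) (l 225653555863))) (a (c (a (l 323364061783) (l 198273139143)) (l 244444037831)) (l 16777304))) (c (l 16777384) (l 16776736))) (l 16777240)) (c (c (l 16777152) (l 16777168)) (l 16777184))) (l 16776648)) (c (l 16777136) (l 16776536)))), by decide +kernel⟩

def k89_pp_101_s : ∃ t, chk3 f_pp_101_s t 75 489 1 = true :=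
  ⟨(a (c (c (l 16776032) (l 16776080)) (l 16776816)) (l 16771232)), by decide +kernel⟩

def k90_pp_101_s : ∃ t, chk3 f_pp_101_s t 37 245 1 = true :=
  ⟨(a (b (a (b (b (a (l 3) (a (b (a (l 3) (b (a (l 458118660455) (a (a (l 282561872327) (l 206326202759)) (l 16777424))) (a (a (c (l 268066357735) (l 16777416)) (l 124721824071)) (l 16776912)))) (b (a (a (l 3) (c (a (l 291688677911) (l 131701145991)) (l 223506072167))) (l 16777448)) (a (a (c (a (l 321216578087) (l 191830688183)) (l 246054650487)) (l 16776976)) (l 16776528)))) (c (l 16777328) (l 16777352)))) (a (a (l 3) (a (b (l 3) (b (a (l 3) (a (l 3) (a (l 328195899879) (l 247128392135)))) (a (c (l 415168987383) (l 327659029223)) (c (c (l 115595018615) (l 16777096)) (l 16777096))))) (b (a (b (l 3) (c (c (l 380809248919) (l 288467452551)) (l 282025001687))) (b (a (l 433959469287) (c (l 216526750183) (l 16777208))) (c (l 16777360) (l 16777040)))) (c (c (l 71034732903) (l 16777440)) (l 16776792))))) (a (c (c (l 16777376) (l 16777464))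 (l 16777480)) (l 16774960)))) (a (b (a (a (b (l 3) (a (l 3) (c (b (l 466708595079) (a (l 282561872391) (l 125258695015))) (l 371145572519)))) (b (b (a (l 3) (a (l 3) (l 417853341895))) (a (c (l 450065596759) (l 454360564055)) (a (a (l 266455744999) (l 197199397239)) (l 16777416)))) (b (a (a (a (l 308868547015) (l 225653555623)) (l 117205631287)) (l 16776896)) (l 16777440)))) (a (a (b (a (b (a (l 236390973879) (l 137606725943)) (l 16776944)) (l 16777256)) (l 16776464)) (l 16777088)) (l 16777296))) (a (a (b (a (b (c (a (l 307257934391) (l 182167011751)) (l 241759683159)) (l 16777320)) (l 16777320)) (l 16777096)) (l 16777424)) (l 16776528))) (c (l 16776552) (l 16776608)))) (a (c (l 16776520) (l 16775280)) (l 16775448))) (a (a (c (c (l 16775712) (l 16775744)) (l 16777112)) (l 16775984)) (l 16773680))) (c (l 16773664) (c (l 16772528) (l 16772672)))), by decide +kernel⟩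

def k91_pp_101_s : ∃ t, chk3 f_pp_101_s t 37 123 1 = true :=
  ⟨(a (a (b (b (l 16774208) (l 16763352)) (l 16756880)) (c (l 16766680) (l 16769648))) (c (l 16769776) (l 16766304))), by decide +kernel⟩

def k92_pp_101_s : ∃ t, chk3 f_pp_101_s t 76 120 1 = true :=
  ⟨(l 3), by decide +kernel⟩

def k93_pp_101_s : ∃ t, chk3 f_pp_101_s t 154 120 1 = true :=
  ⟨(b (l 3) (b (b (l 3) (b (l 3) (a (l 3) (a (l 3) (a (l 3) (b (c (l 454360564407) (l 459192402615)) (a (b (l 458118660455) (l 202568106775)) (a (l 132774888119) (l 16776960))))))))) (b (a (b (l 3) (b (l 3) (b (l 3) (a (l 3) (a (l 3) (a (l 3) (l 219211105063))))))) (b (a (b (l 3) (a (l 3) (a (l 419463954839) (b (l 278266905463) (l 16777072))))) (a (b (c (a (l 391009796375) (l 140291080967)) (l 221358589255)) (l 16777568)) (l 16777704))) (a (a (b (a (l 457044918791) (b (l 324974674903) (l 142438564535))) (a (a (l 141901693671) (l 16776984)) (l 16776760))) (c (l 64055411511) (l 16776568))) (l 16776952)))) (a (b (a (a (l 3) (a (l 3) (b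 (l 3) (l 428590760375)))) (b (a (c (a (l 3) (l 399062860103)) (l 420537696775)) (a (b (l 240149070711) (l 16777016)) (l 16776840))) (a (a (b (l 290078065575) (l 16777424)) (l 16777576)) (l 16776464)))) (b (a (a (c (l 465634853639) (l 472077304567)) (a (b (l 433959469367) (l 186998850263)) (a (l 114521277127) (l 16776928)))) (l 16777552)) (a (a (c (a (l 377051152615) (l 130090533575)) (l 210084300087)) (l 16776632)) (l 16775704)))) (c (l 16777264) (l 16777304)))))), by decide +kernel⟩

def k94_pp_101_s : ∃ t, chk3 f_pp_101_s t 155 120 1 = true :=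
  ⟨(a (b (l 3) (b (b (a (l 3) (b (l 3) (b (a (l 3) (a (l 428590760375) (a (l 253033972631) (l 145659790071)))) (a (c (c (l 380272378183) (l 382419861815)) (l 279340647943)) (c (l 16777504) (l 16776856)))))) (b (b (c (a (c (a (l 3) (l 403894698439)) (l 427517018983)) (a (l 101636375431) (l 16776320))) (a (l 426443277159) (l 16776632))) (a (a (c (l 425369535047) (l 428590760503)) (a (a (l 232632877879) (l 16777584)) (l 16776872))) (l 16777408))) (a (b (a (a (a (l 267529487303) (l 201494364887)) (l 16777608)) (l 16776496)) (l 16777584)) (l 16775304)))) (c (l 16777160) (l 16775912)))) (b (b (l 3) (b (l 3) (b (b (l 3) (a (l 3) (a (l 3) (c (l 406579053015) (l 408189665751))))) (a (a (l 3) (c (l 464561112135) (l 469929821239))) (c (b (a (l 430738244183) (a (l 194515043207) (l 16776880))) (a (a (l 228874781687) (l 16776968)) (l 16776504))) (a (l 345912639623) (l 16777424))))))) (b (c (b (a (b (b (a (l 3) (a (l 275582551015) (l 16777376))) (a (a (l 399062860087) (l 178945786663)) (l 16776680)))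 (l 16777496)) (l 16776792)) (l 16776584)) (b (b (a (a (l 377051152807) (l 124721825143)) (l 16776032)) (l 16776896)) (l 16774008))) (l 16776024)))), by decide +kernel⟩

def k95_pp_101_s : ∃ t, chk3 f_pp_101_s t 76 484 1 = true :=
  ⟨(a (l 3) (a (b (l 3) (b (a (l 3) (b (a (l 3) (a (l 3) (a (l 3) (l 400136601863)))) (a (c (l 453823693495) (l 460266144423)) (a (b (l 309942289367) (l 132774888071)) (l 88214602439))))) (a (b (l 3) (a (l 3) (a (c (l 388862312711) (l 295983645751)) (c (c (l 138680468135) (l 16777432)) (l 16777104))))) (a (b (c (a (c (l 362018766983) (l 260013294535)) (l 116668760679)) (l 197736269015)) (l 16777312)) (l 16777624))))) (b (a (b (l 3) (b (a (l 3) (a (l 3) (b (l 448454984023) (l 196125655799)))) (a (a (l 3) (c (l 384030474487) (l 291151807527))) (c (c (c (l 106468213415) (l 16777592)) (l 16777600)) (l 16776944))))) (b (b (a (l 3) (a (c (l 408189665623) (l 313700385927)) (b (l 259476423495) (l 16777032)))) (a (a (l 435033211351) (b (l 300815483847) (l 16777520)))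 (c (l 16777440) (l 16776792)))) (c (c (c (l 63518540375) (l 16777600)) (l 16777608)) (l 16777616)))) (a (a (b (b (a (b (a (l 348596994791) (l 225653555783)) (l 16777048)) (l 16776880)) (l 16776504)) (l 16775704)) (l 16777592)) (l 16777320))))), by decide +kernel⟩

def k96_pp_101_s : ∃ t, chk3 f_pp_101_s t 76 485 1 = true :=
  ⟨(a (a (a (l 3) (b (l 3) (a (b (l 3) (b (l 3) (a (c (c (l 393157280023) (l 394231021847)) (l 299204871239)) (a (b (l 304036709015) (l 16777072)) (l 103783858823))))) (b (a (l 3) (a (l 3) (b (l 3) (l 442549404055)))) (b (a (b (l 463487369591) (a (l 279340646999) (l 16777144))) (c (c (l 120426856999) (l 16777040)) (l 16777048))) (l 16777488)))))) (b (b (b (l 3) (a (l 3) (a (l 3) (b (c (l 432885727703) (l 435570082263)) (a (l 435033211191) (l 137069855383)))))) (a (b (l 3) (a (l 3) (a (l 3) (a (l 443086274951) (b (l 3) (l 211694912039)))))) (b (a (a (l 3) (a (l 407652794647) (b (l 359334413047) (l 16777136)))) (c (c (l 92509569687) (l 16776888)) (l 16776888)))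 (a (a (a (b (l 304573579911) (l 16777072)) (l 102173246087)) (l 16776824)) (l 16776360))))) (a (b (b (a (c (c (l 433959469655) (l 435570082391)) (l 435033211479)) (a (b (a (l 360408154871) (l 239075328615)) (l 16777392)) (l 16777552))) (a (a (b (l 416779600135) (c (l 132774888007) (l 16777136))) (c (l 16777464) (l 16776976))) (l 16776520))) (c (l 16777328) (l 16776032))) (c (l 16776632) (l 16775352))))) (b (a (a (b (a (b (a (c (l 416779600263) (l 331953996903)) (b (a (l 358260671223) (l 234243490391)) (l 16777384))) (c (l 16777552) (l 16776816))) (c (l 16777120) (l 16776480))) (l 16777352)) (c (l 16777624) (l 16775040))) (l 16775800)) (c (l 16776824) (l 16777560)))), by decide +kernel⟩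

def k97_pp_101_s : ∃ t, chk3 f_pp_101_s t 76 243 1 = true :=
  ⟨(a (b (a (a (b (a (b (b (l 3) (c (b (l 435570082263) (a (l 438791307591) (l 132238017095))) (l 373293056247))) (c (c (c (b (l 94657053255) (l 16776360)) (l 73719087735)) (l 16777608)) (l 16777616))) (b (b (a (c (l 420537696647) (l 423222051207)) (b (c (l 278803776263) (l 285246227159)) (l 98952020583))) (c (c (l 16777472) (l 16776816)) (l 16776824))) (l 16777336))) (l 16777024)) (b (c (c (l 42580574807) (l 16776952)) (l 16777624)) (l 16773512))) (c (l 16776640) (l 16775400))) (c (l 16774872) (l 16774992))) (c (l 16774704) (l 16774872))), by decide +kernel⟩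

def k98_pp_101_s : ∃ t, chk3 f_pp_101_s t 77 121 1 = true :=
  ⟨(b (a (b (a (b (c (c (c (l 16777584) (l 16777592)) (l 16777600)) (l 16777872)) (l 16775480)) (l 16775392)) (l 16775296)) (c (l 16776008) (l 16776184))) (c (l 16769848) (l 16770120))), by decide +kernel⟩

def k99_pp_101_s : ∃ t, chk3 f_pp_101_s t 39 60 1 = true :=
  ⟨(b (b (a (a (b (b (l 3) (a (l 3) (a (b (l 3) (b (a (l 3) (c (l 406579053015) (l 309942290007))) (a (c (l 430201373287) (l 433422598743)) (c (a (l 194515043207) (l 16776880)) (l 16777024))))) (b (b (a (l 3) (a (l 430201373127) (a (l 254107714455) (l 16777472)))) (a (c (l 381346120023) (l 280951260695)) (l 86603989991))) (c (c (l 68350378951) (l 16776368)) (l 16776376)))))) (b (a (b (a (l 3) (a (l 3) (b (l 458655531735) (a (a (l 320679707687) (l 248202134391)) (l 123648082743))))) (a (b (l 3) (a (l 3) (a (l 432348856775) (a (l 256255198119) (l 157470950071))))) (a (b (a (l 399062860103) (a (l 218674234135) (l 16777064))) (l 16777432)) (l 16777736)))) (a (a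 (b (a (b (a (l 274508809191) (l 207936815863)) (l 16776752)) (l 16777608)) (l 16775800)) (l 16777024)) (l 16777408))) (a (a (b (a (b (c (c (l 384030474583) (l 384567345495)) (l 282561873431)) (c (l 103783859111) (l 16776944))) (c (l 16777576) (l 16776600))) (l 16777160)) (l 16777760)) (l 16775904)))) (a (b (b (b (c (a (a (l 3) (l 464024241223)) (c (a (b (l 429127631447) (l 178945786839)) (l 99488891751)) (a (l 343765155975) (l 16776752)))) (a (l 471003563479) (c (a (l 236390975287) (l 16776752)) (l 180019529751)))) (a (a (b (l 3) (a (l 299204871447) (l 175187690455))) (b (a (a (l 316921611287) (l 243370296167)) (l 16777696)) (l 16776680))) (l 16777320))) (a (c (l 16777704) (l 16775672)) (l 16774424))) (l 16775792)) (b (c (l 16777848) (l 16776264)) (l 16769360)))) (a (c (l 16775544) (l 16773056)) (l 16773208))) (b (a (a (a (a (l 16777120) (l 16771952)) (l 16770088)) (l 16766344)) (l 16769304)) (a (a (l 16772304) (l 16762064)) (l 16754520)))) (a (c (l 16769376) (b (l 16768760) (l 16749712)))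 (c (l 16743496) (l 16743992)))), by decide +kernel⟩

def k100_pp_101_s : ∃ t, chk3 f_pp_101_s t 19 61 1 = true :=
  ⟨(b (a (a (b (a (a (l 16774952) (l 16762000)) (l 16758296)) (l 16765224)) (a (l 16764720) (l 16764960))) (c (l 16731032) (l 16752720))) (a (c (l 16754768) (a (l 16739440) (l 16708504))) (l 16734816))), by decide +kernel⟩

def k101_pp_101_s : ∃ t, chk3 f_pp_101_s t 9 31 1 = true :=
  ⟨(a (b (a (a (b (c (a (b (l 16775112) (l 16758528)) (l 16768600)) (b (a (a (l 16773848) (l 16766264)) (l 16762744)) (l 16767008))) (b (l 16747624) (l 16738880))) (b (c (l 16761368) (b (l 16755640) (l 16747040))) (l 16733640))) (b (a (a (l 16743872) (l 16739016)) (l 16731624)) (l 16745216))) (b (a (a (l 16725680) (l 16695032)) (l 16701280)) (a (l 16703032) (l 16662392)))) (b (b (a (l 16742832) (l 16696272)) (a (l 16699024) (l 16657712))) (b (l 16712992) (l 16652816)))), by decide +kernel⟩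

def k102_pp_101_s : ∃ t, chk3 f_pp_101_s t 5 6 1 = true :=
  ⟨(a (l 3) (b (l 3) (b (l 3) (a (b (l 3) (a (l 3) (b (l 3) (a (l 3) (b (l 3) (a (l 3) (b (a (l 3) (l 497847103063)) (a (c (l 376514279943) (l 238001595367)) (l 109689443895))))))))) (b (a (l 3) (b (a (l 3) (b (l 3) (l 516100709527))) (a (a (l 529522489319) (b (l 3) (a (l 449528720007) (b (l 467782332583) (l 16775120))))) (b (a (l 467245457575) (b (a (l 444160012983) (l 16776056)) (l 16773608))) (a (b (l 116668765959) (l 16771216)) (l 16767912)))))) (a (b (a (l 3) (b (a (l 3) (b (l 3) (l 435570077367))) (a (b (l 507510776615) (a (l 374903666999) (l 16775400))) (c (b (l 125258700711) (l 16771504)) (l 79087802663))))) (a (b (a (a (l 3) (l 474224781495)) (b (a (l 502678941191) (l 163376535911)) (l 16779400))) (a (a (b (a (l 214379273111) (l 16776120)) (l 16772872)) (l 16772216)) (l 16768304))) (b (l 16779424) (l 16760488)))) (b (a (b (a (b (a (l 477982879527) (l 157470955111)) (l 16773984)) (l 16770688)) (l 16765600)) (l 16780032))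 (c (l 16769864) (l 16769776))))))))), by decide +kernel⟩

def k103_pp_101_s : ∃ t, chk3 f_pp_101_s t 10 28 1 = true :=
  ⟨(a (l 3) (b (l 3) (a (b (l 3) (a (l 3) (b (l 3) (a (b (l 3) (b (l 3) (a (l 3) (a (l 463487368695) (b (l 246591524343) (l 16776528)))))) (a (b (c (l 537038683671) (l 554755420935)) (b (a (b (l 547776101767) (l 209010560119)) (a (l 138680470119) (l 16776192))) (l 16777720))) (b (a (b (l 3) (b (l 425906404983) (l 16776760))) (b (l 426443275687) (l 16775984))) (l 16778784))))))) (b (a (b (l 3) (a (l 3) (b (l 3) (a (l 3) (c (l 493015267815) (l 515026973255)))))) (b (a (l 3) (b (l 3) (a (l 536501809735) (c (b (l 436106951623) (l 117742505415)) (b (l 455434303607) (l 16776272)))))) (b (a (a (l 3) (a (l 500531459863) (b (l 554755422263) (l 138143599895)))) (a (a (b (l 225116688807) (l 16775488)) (l 16777816)) (l 16773248))) (a (a (c (b (l 391546666423) (l 16778560)) (b (l 406042180407) (l 16775952))) (l 42580577223)) (l 16770472))))) (a (b (a (b (l 3) (a (a (l 561734744023)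 (a (l 484425333431) (b (l 3) (l 191830691031)))) (a (b (l 464561110135) (l 16776208)) (a (b (l 206326205703) (l 16775240)) (l 78550928167))))) (b (b (a (l 527911876775) (a (a (l 229948526135) (l 16776824)) (l 16775864))) (a (a (l 379735506455) (l 16778368)) (l 16774472))) (c (l 16777912) (l 16772704)))) (a (a (a (b (a (b (l 178945788951) (l 16775016)) (l 16778016)) (l 16771584)) (l 16778584)) (l 16775648)) (l 16776992))) (a (c (l 16778328) (l 16775960)) (l 16773672))))))), by decide +kernel⟩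

def k104_pp_101_s : ∃ t, chk3 f_pp_101_s t 40 58 1 = true :=
  ⟨(l 3), by decide +kernel⟩

def k105_pp_101_s : ∃ t, chk3 f_pp_101_s t 41 116 1 = true :=
  ⟨(a (l 3) (b (l 3) (a (l 3) (b (l 3) (b (a (l 3) (c (a (l 3) (c (l 394231022439) (l 407652794791))) (l 455971176023))) (a (c (a (l 3) (l 449528726775)) (l 514490105543)) (a (c (b (l 391009796567) (l 16778000)) (l 198273142471)) (l 71571605639)))))))), by decide +kernel⟩

def k106_pp_101_s : ∃ t, chk3 f_pp_101_s t 41 117 1 = true :=
  ⟨(a (b (a (l 3) (b (l 3) (b (l 3) (b (l 3) (a (l 3) (a (l 3) (a (l 397989118359) (l 138680469479)))))))) (a (b (a (l 3) (c (b (l 3) (a (l 3) (l 464561113383))) (l 512879495127))) (b (a (l 3) (c (b (a (l 3) (a (l 264845134087) (l 16776880))) (a (c (l 341080801495) (l 231022267063)) (l 16776160))) (a (l 392083538455) (l 125258697639)))) (b (a (c (a (l 3) (c (l 372219314775) (l 371682443863))) (l 418390213543)) (c (l 16777704) (l 16775760))) (a (a (a (l 3) (l 373293056487)) (a (l 131164276407) (l 16776304)))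 (l 16777320))))) (b (b (b (a (l 3) (a (a (l 454360564407) (l 209547430071)) (l 16777600))) (a (c (a (l 3) (l 387788571463)) (l 454360564311)) (c (l 70497863527) (l 16775888)))) (a (c (a (b (l 419463955639) (a (l 215453009943) (l 16776656))) (c (l 86603990823) (l 16776216))) (a (l 340007059559) (l 16776224))) (l 16776920))) (c (c (l 16777608) (l 16777640)) (l 16777704))))) (a (b (b (b (l 3) (a (l 3) (b (a (l 3) (a (l 426980147527) (l 182703884279))) (a (a (l 489257173527) (l 224579815895)) (l 16777696))))) (a (a (a (b (l 3) (b (l 238001588791) (l 16776376))) (b (l 468319208327) (l 16778136))) (b (a (b (l 3) (l 196125657207)) (b (l 273971940007) (l 16776544))) (l 16775288))) (c (c (b (l 16778048) (l 16773288)) (l 16777000)) (l 16777040)))) (c (l 16778128) (l 16774664))) (b (a (b (a (b (b (l 484962206183) (a (l 256792070775) (l 16776856))) (l 16775616)) (b (a (b (l 213305526487) (l 16776224)) (l 16776104)) (l 16774320))) (l 16777048)) (c (l 16776520) (l 16776624))) (l 16774640)))),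 by decide +kernel⟩

def k107_pp_101_s : ∃ t, chk3 f_pp_101_s t 21 58 1 = true :=
  ⟨(a (b (a (b (a (l 3) (b (a (l 3) (c (b (l 3) (a (l 3) (l 419463954615))) (l 522006296615))) (b (a (c (l 502142075639) (l 547239230135)) (a (b (l 420537696119) (l 125258697047)) (l 16777976))) (a (c (a (c (l 377588023687) (l 387251699783)) (l 113447537255)) (a (l 396915375735) (l 16776504))) (l 16774576))))) (b (b (a (a (l 3) (a (a (l 3) (l 429664501767)) (b (a (l 484962205687) (l 200957495463)) (l 16776504)))) (c (l 16778352) (l 16773816))) (a (a (a (l 515563847943) (b (l 464024240215) (a (l 219747977623) (l 16776688)))) (c (c (l 16778184) (l 16775576)) (l 16775592))) (l 16776944))) (a (a (a (b (a (b (l 269676972711) (l 16776536)) (l 16778208)) (l 16774640)) (l 16777016)) (l 16777688)) (l 16773808)))) (b (a (b (a (c (b (a (l 542407393511) (l 350744477687)) (c (a (l 139217341063) (l 16775480)) (l 104320732183))) (b (l 420000824455) (l 16778912))) (c (c (l 16777176) (l 16774576)) (l 16774600))) (c (l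 16776936) (l 16771760))) (c (l 16779048) (l 16768664))) (c (l 16773280) (l 16773456)))) (b (a (c (l 16776888) (l 16775440)) (l 16765008)) (a (l 16769504) (l 16746112)))) (a (b (c (l 16772320) (l 16772520)) (l 16761008)) (b (l 16767344) (l 16729792)))), by decide +kernel⟩

def k108_pp_101_s : ∃ t, chk3 f_pp_101_s t 80 118 1 = true :=
  ⟨(b (l 3) (a (b (l 3) (b (l 3) (b (l 3) (a (l 3) (a (l 3) (c (a (l 426980148087) (a (l 243907167831) (l 134385501447))) (l 352891961671))))))) (b (a (l 3) (b (l 3) (b (a (l 3) (a (l 3) (b (l 444160017079) (l 187535721959)))) (c (a (a (l 3) (l 389936054855)) (a (a (l 189146334679) (l 16776848)) (l 16776376))) (a (l 410874020855) (l 16776688)))))) (b (a (a (l 3) (b (c (c (l 447918114135) (l 449528726855)) (l 449528726839)) (a (b (l 443086275239) (l 188609463767)) (a (l 123111212279) (l 16776640))))) (a (b (a (b (l 282025002791) (l 16777608)) (l 16777904)) (l 16775856)) (l 16777744))) (a (a (b (c (c (a (l 390472925751) (l 137069856055)) (l 327122157543))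 (c (l 217600493959) (l 215453010311))) (c (l 16776264) (l 16776272))) (l 16777832)) (l 16776272)))))), by decide +kernel⟩

def k109_pp_101_s : ∃ t, chk3 f_pp_101_s t 81 118 1 = true :=
  ⟨(b (a (b (l 3) (a (l 3) (a (b (l 3) (b (c (l 445233759575) (l 448454985015)) (a (a (l 392620409335) (l 214379267831)) (l 107541956007)))) (a (b (l 3) (b (b (l 278803777303) (l 16776944)) (l 16776160))) (b (b (l 3) (a (l 438791308087) (l 267529488295))) (l 16778016)))))) (b (b (a (l 3) (b (c (a (l 3) (l 438791308583)) (l 468856079959)) (a (a (l 3) (l 465097983127)) (a (a (l 280414390391) (l 204715591367)) (l 16778056))))) (a (b (l 3) (a (l 3) (a (l 420537697127) (a (l 233169749895) (l 138143597959))))) (a (b (c (a (l 382419862039) (l 129016792567)) (l 209547430551)) (l 16777552)) (l 16778112)))) (a (b (c (a (b (b (l 452213081207) (l 353965703447)) (a (l 131701147175) (l 16776360))) (l 67276637671)) (a (a (l 345912639767) (l 138680469847)) (l 16775936))) (l 16777744)) (l 16777880)))) (a (a (b (b (b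 (a (l 3) (c (a (l 389399183943) (l 133848630839)) (l 213842397911))) (a (a (l 425906406279) (b (l 280414390055) (l 16776952))) (l 65129153991))) (c (c (c (l 16777928) (l 16777936)) (l 16777944)) (l 16777960))) (l 16777408)) (c (c (l 16777912) (l 16776960)) (l 16778328))) (c (l 16775704) (l 16778464)))), by decide +kernel⟩

def k110_pp_101_s : ∃ t, chk3 f_pp_101_s t 41 118 1 = true :=
  ⟨(a (a (b (b (a (b (a (a (b (a (l 226190427991) (l 16777648)) (l 16776112)) (l 16777312)) (l 16775040)) (l 16776192)) (l 16777304)) (l 16774360)) (l 16773232)) (c (l 16774800) (l 16775056))) (c (l 16769496) (l 16769920))), by decide +kernel⟩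

def k111_pp_101_s : ∃ t, chk3 f_pp_101_s t 21 118 1 = true :=
  ⟨(a (c (l 16759112) (l 16762328)) (l 16739016)), by decide +kernel⟩

def k112_pp_101_s : ∃ t, chk3 f_pp_101_s t 10 119 1 = true :=
  ⟨(a (a (a (a (a (b (a (b (b (l 3) (b (c (c (l 437180695831) (l 437717566727)) (l 444696888567)) (a (b (l 433422598759) (a (l 228337910951) (l 16776968))) (c (l 16777736) (l 16776760))))) (c (l 16777048) (l 16774464))) (b (b (a (l 3) (b (l 3) (a (l 436106953495) (b (l 3) (l 16777832))))) (b (a (b (a (l 462950498871) (l 233169749191)) (l 16777576)) (l 16777872)) (l 16775824))) (l 16775808))) (l 16772704)) (b (b (c (b (a (c (a (b (l 468319208615) (l 134385501463)) (b (l 349670736071) (l 16776352))) (b (l 381882991255) (l 103246988775))) (c (l 66202895543) (l 16775936))) (l 16777072)) (a (b (b (l 380272378503) (l 16777976)) (l 16775112)) (l 16778184))) (l 16776544)) (l 16764936))) (b (a (c (l 16777408) (l 16776184)) (l 16775576)) (l 16771624))) (b (c (l 16772352) (l 16772576)) (l 16763928)))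 (c (l 16767944) (c (l 16763160) (l 16763496)))) (a (c (l 16689272) (l 16721640)) (l 16700800))), by decide +kernel⟩

def k113_pp_101_s : ∃ t, chk3 f_pp_101_s t 10 15 1 = true :=
  ⟨(b (a (b (b (a (a (c (l 16771640) (l 16766776)) (l 16756264)) (a (l 16730024) (l 16698432))) (a (a (l 16754536) (l 16702192)) (l 16728168))) (a (b (l 16731832) (l 16693272)) (l 16717416))) (b (a (a (l 16721064) (l 16689728)) (l 16695576)) (a (l 16659472) (l 16597088)))) (a (b (a (l 16666824) (l 16603320)) (b (l 16629304) (l 16610752))) (b (l 16613512) (l 16618160)))), by decide +kernel⟩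

def k114_pp_101_s : ∃ t, chk3 f_pp_101_s t 11 28 1 = true :=
  ⟨(a (b (a (b (l 3) (a (b (l 3) (c (a (l 554755417159) (b (a (l 3) (l 457581786951)) (a (b (l 473151044007) (l 136532987879)) (l 16777584)))) (a (l 549386703479) (b (l 516100712631) (a (l 334638349623) (l 16774968)))))) (b (a (b (l 3) (a (l 546702355287) (c (b (l 515026974615) (l 164987146711)) (l 355576314727)))) (b (a (c (l 476909139223) (l 494089007111)) (c (b (l 220821722935) (l 16775576)) (l 148344150167))) (a (c (l 16777800) (l 16775176)) (l 16772576)))) (a (a (b (a (b (l 446307498663) (l 16776040)) (l 98415152807)) (l 16772368)) (l 16777016)) (l 16778344))))) (b (a (b (a (l 3) (b (l 3) (a (l 3) (c (l 372756183719) (l 380809246903))))) (b (a (a (l 3) (l 482277847207)) (a (a (a (l 233706625207) (l 171966469431)) (l 117205635671)) (l 16774096))) (a (a (c (b (l 522543166919) (l 178945790663)) (l 371682441687)) (c (l 16777952) (l 16775328))) (l 16771424)))) (b (a (b (a (l 487109685047) (b (l 235854109959) (l 16775784)))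 (a (c (l 16778056) (l 16775424)) (l 16772832))) (c (l 16770904) (l 16770856))) (a (l 16778672) (l 16762976)))) (a (a (c (b (l 16775912) (l 16762656)) (l 16777136)) (l 16771936)) (l 16771352)))) (b (a (a (b (a (b (a (c (b (l 3) (l 364703120839)) (l 451676206391)) (a (b (l 255181460375) (l 16775800)) (l 16778768))) (c (l 55465479431) (l 16773408))) (c (l 16775448) (l 16770224))) (a (l 16777784) (l 16762104))) (c (l 16768832) (l 16779344))) (c (l 16763872) (l 16763736))) (a (c (l 16769536) (c (l 16768296) (l 16768336))) (l 16747720)))) (a (b (b (c (a (l 16780160) (l 16748848)) (l 16777440)) (l 16759144)) (b (l 16722328) (l 16706400))) (b (c (l 16746632) (l 16746400)) (l 16694176)))), by decide +kernel⟩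

def k115_pp_101_s : ∃ t, chk3 f_pp_101_s t 11 29 1 = true :=
  ⟨(a (a (b (c (l 16743624) (b (l 16731024) (l 16714592))) (l 16710352)) (b (c (l 16702488) (l 16702352)) (l 16669464))) (b (a (l 16682328) (l 16662440)) (l 16660920))), by decide +kernel⟩

def k116_pp_101_s : ∃ t, chk3 f_pp_101_s t 11 15 1 = true :=
  ⟨(b (a (b (c (l 16644552) (l 16645136)) (l 16630888)) (b (l 16543896) (l 16551824))) (a (b (l 16532384) (l 16472984)) (b (l 16537624) (l 16476776)))), by decide +kernel⟩

def k117_pp_101_s : ∃ t, chk3 f_pp_101_s t 3 2 1 = true :=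
  ⟨(a (l 3) (l 1)), by decide +kernel⟩

def k118_pp_101_s : ∃ t, chk3 f_pp_101_s t 3 6 1 = true :=
  ⟨(a (b (a (a (l 3) (b (l 3) (b (l 3) (a (l 3) (b (l 3) (a (l 501068326599) (b (l 460266132583) (a (b (l 307257947191) (l 16775648)) (l 16771928))))))))) (b (l 1) (a (a (b (l 1) (b (l 1) (b (l 1) (l 16778264)))) (l 1)) (l 1)))) (a (b (a (b (l 3) (a (b (l 3) (a (l 3) (a (l 499994581047) (b (l 3) (a (l 355039441607) (l 145659797687)))))) (b (a (b (l 3) (l 484425324071)) (b (a (l 3) (b (l 474224780727) (l 182703890695))) (a (b (l 241759693927) (l 16774312)) (l 16770848)))) (a (b (a (l 394767882455) (b (l 152639118583) (l 16772176))) (l 16779712)) (l 16772744))))) (b (a (b (a (l 3) (b (l 3) (a (l 3) (l 371145568215)))) (a (b (l 491404638695) (a (l 435033203703) (l 291151779655))) (b (a (b (l 282025013655) (l 16775176)) (l 16771592)) (l 16766800)))) (b (a (b (a (l 458655522311) (l 285246196119)) (a (l 16773568) (l 16767976))) (l 16773704)) (l 16779792))) (a (b (a (b (a (l 16772944) (l 16767536))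 (l 16762728)) (l 16755408)) (l 16766672)) (l 16764400)))) (a (b (a (b (a (b (a (l 3) (l 437717558743)) (a (b (l 477446007159) (l 151565376855)) (l 16772608))) (a (b (b (l 184851374951) (l 16773032)) (l 16767432)) (l 16776456))) (a (l 16779648) (l 16774552))) (a (l 16776632) (l 16760400))) (a (a (l 16762080) (l 16751824)) (l 16735160))) (b (a (l 16743448) (l 16698704)) (a (l 16690920) (l 16645528))))) (b (a (b (a (b (l 16766488) (l 16729800)) (l 342020106487)) (b (l 16722528) (l 16685408))) (b (l 1) (l 371547799511))) (a (b (l 16681936) (l 16627728)) (l 16648416))))) (b (l 1) (a (b (l 1) (a (l 407517832135) (l 1))) (l 1)))), by decide +kernel⟩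

def k119_pp_101_s : ∃ t, chk3 f_pp_101_s t 3 7 1 = true :=
  ⟨(a (b (a (b (b (a (a (l 16726216) (l 16682944)) (l 16667272)) (a (a (l 16674136) (l 16630320)) (l 16613368))) (a (a (a (l 16631776) (l 16621880)) (l 16645016)) (b (l 16579984) (l 16546240)))) (b (a (l 16645032) (b (l 16539080) (l 16504040))) (b (l 16588640) (l 16482904)))) (a (b (a (b (l 16566152) (l 16532704)) (l 16515536)) (b (a (l 16498032) (l 16439584)) (l 16546336))) (b (a (b (l 16455216) (l 16419112)) (b (l 16397744) (l 16360488))) (a (b (l 16380616) (l 16335864)) (l 16279928))))) (b (a (b (a (l 16475712) (l 16409256)) (a (l 16372728) (l 16337224))) (b (l 1) (l 261489148455))) (a (b (a (l 16425904) (l 16266552)) (l 16301952)) (b (l 158946716023) (l 6))))), by decide +kernel⟩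

theorem s120_pp_101_s : ∃ t, chk3 f_pp_101_s t 3 3 1 = true := ex3_b k118_pp_101_s k119_pp_101_s

theorem s121_pp_101_s : ∃ t, chk3 f_pp_101_s t 3 1 1 = true := ex3_b k117_pp_101_s s120_pp_101_s

theorem s122_pp_101_s : ∃ t, chk3 f_pp_101_s t 11 14 1 = true := ex3_b k114_pp_101_s k115_pp_101_s

theorem s123_pp_101_s : ∃ t, chk3 f_pp_101_s t 11 7 1 = true := ex3_b s122_pp_101_s k116_pp_101_s

theorem s124_pp_101_s : ∃ t, chk3 f_pp_101_s t 40 118 1 = true := ex3_a k108_pp_101_s k109_pp_101_s

theorem s125_pp_101_s : ∃ t, chk3 f_pp_101_s t 20 118 1 = true := ex3_a s124_pp_101_s k110_pp_101_s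

theorem s126_pp_101_s : ∃ t, chk3 f_pp_101_s t 10 118 1 = true := ex3_a s125_pp_101_s k111_pp_101_s

theorem s127_pp_101_s : ∃ t, chk3 f_pp_101_s t 10 59 1 = true := ex3_b s126_pp_101_s k112_pp_101_s

theorem s128_pp_101_s : ∃ t, chk3 f_pp_101_s t 41 58 1 = true := ex3_b k105_pp_101_s k106_pp_101_s

theorem s129_pp_101_s : ∃ t, chk3 f_pp_101_s t 20 58 1 = true := ex3_a k104_pp_101_s s128_pp_101_s

theorem s130_pp_101_s : ∃ t, chk3 f_pp_101_s t 10 58 1 = true := ex3_a s129_pp_101_s k107_pp_101_s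

theorem s131_pp_101_s : ∃ t, chk3 f_pp_101_s t 10 29 1 = true := ex3_b s130_pp_101_s s127_pp_101_s

theorem s132_pp_101_s : ∃ t, chk3 f_pp_101_s t 10 14 1 = true := ex3_b k103_pp_101_s s131_pp_101_s

theorem s133_pp_101_s : ∃ t, chk3 f_pp_101_s t 10 7 1 = true := ex3_b s132_pp_101_s k113_pp_101_s

theorem s134_pp_101_s : ∃ t, chk3 f_pp_101_s t 5 7 1 = true := ex3_a s133_pp_101_s s123_pp_101_s

theorem s135_pp_101_s : ∃ t, chk3 f_pp_101_s t 5 3 1 = true := ex3_b k102_pp_101_s s134_pp_101_s

theorem s136_pp_101_s : ∃ t, chk3 f_pp_101_s t 76 242 1 = true := ex3_b k95_pp_101_s k96_pp_101_s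

theorem s137_pp_101_s : ∃ t, chk3 f_pp_101_s t 76 121 1 = true := ex3_b s136_pp_101_s k97_pp_101_s

theorem s138_pp_101_s : ∃ t, chk3 f_pp_101_s t 38 121 1 = true := ex3_a s137_pp_101_s k98_pp_101_s

theorem s139_pp_101_s : ∃ t, chk3 f_pp_101_s t 77 120 1 = true := ex3_a k93_pp_101_s k94_pp_101_s

theorem s140_pp_101_s : ∃ t, chk3 f_pp_101_s t 38 120 1 = true := ex3_a k92_pp_101_s s139_pp_101_s

theorem s141_pp_101_s : ∃ t, chk3 f_pp_101_s t 38 60 1 = true := ex3_b s140_pp_101_s s138_pp_101_s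

theorem s142_pp_101_s : ∃ t, chk3 f_pp_101_s t 19 60 1 = true := ex3_a s141_pp_101_s k99_pp_101_s

theorem s143_pp_101_s : ∃ t, chk3 f_pp_101_s t 19 30 1 = true := ex3_b s142_pp_101_s k100_pp_101_s

theorem s144_pp_101_s : ∃ t, chk3 f_pp_101_s t 74 489 1 = true := ex3_a k87_pp_101_s k88_pp_101_s

theorem s145_pp_101_s : ∃ t, chk3 f_pp_101_s t 37 489 1 = true := ex3_a s144_pp_101_s k89_pp_101_s

theorem s146_pp_101_s : ∃ t, chk3 f_pp_101_s t 37 488 1 = true := ex3_a k85_pp_101_s k86_pp_101_s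

theorem s147_pp_101_s : ∃ t, chk3 f_pp_101_s t 37 244 1 = true := ex3_b s146_pp_101_s s145_pp_101_s

theorem s148_pp_101_s : ∃ t, chk3 f_pp_101_s t 37 122 1 = true := ex3_b s147_pp_101_s k90_pp_101_s

theorem s149_pp_101_s : ∃ t, chk3 f_pp_101_s t 37 61 1 = true := ex3_b s148_pp_101_s k91_pp_101_s

theorem s150_pp_101_s : ∃ t, chk3 f_pp_101_s t 146 492 1 = true := ex3_b k80_pp_101_s k81_pp_101_s

theorem s151_pp_101_s : ∃ t, chk3 f_pp_101_s t 146 246 1 = true := ex3_b s150_pp_101_s k82_pp_101_s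

theorem s152_pp_101_s : ∃ t, chk3 f_pp_101_s t 73 246 1 = true := ex3_a s151_pp_101_s k83_pp_101_s

theorem s153_pp_101_s : ∃ t, chk3 f_pp_101_s t 73 123 1 = true := ex3_b s152_pp_101_s k84_pp_101_s

theorem s154_pp_101_s : ∃ t, chk3 f_pp_101_s t 144 494 1 = true := ex3_b k76_pp_101_s k77_pp_101_s

theorem s155_pp_101_s : ∃ t, chk3 f_pp_101_s t 144 247 1 = true := ex3_b s154_pp_101_s k78_pp_101_s

theorem s156_pp_101_s : ∃ t, chk3 f_pp_101_s t 72 247 1 = true := ex3_a s155_pp_101_s k79_pp_101_s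

theorem s157_pp_101_s : ∃ t, chk3 f_pp_101_s t 145 493 1 = true := ex3_b k74_pp_101_s k75_pp_101_s

theorem s158_pp_101_s : ∃ t, chk3 f_pp_101_s t 145 246 1 = true := ex3_b k73_pp_101_s s157_pp_101_s

theorem s159_pp_101_s : ∃ t, chk3 f_pp_101_s t 72 246 1 = true := ex3_a k72_pp_101_s s158_pp_101_s

theorem s160_pp_101_s : ∃ t, chk3 f_pp_101_s t 72 123 1 = true := ex3_b s159_pp_101_s s156_pp_101_s

theorem s161_pp_101_s : ∃ t, chk3 f_pp_101_s t 36 123 1 = true := ex3_a s160_pp_101_s s153_pp_101_s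

theorem s162_pp_101_s : ∃ t, chk3 f_pp_101_s t 147 245 1 = true := ex3_a k70_pp_101_s k71_pp_101_s

theorem s163_pp_101_s : ∃ t, chk3 f_pp_101_s t 73 245 1 = true := ex3_a k69_pp_101_s s162_pp_101_s

theorem s164_pp_101_s : ∃ t, chk3 f_pp_101_s t 73 122 1 = true := ex3_b k68_pp_101_s s163_pp_101_s

theorem s165_pp_101_s : ∃ t, chk3 f_pp_101_s t 36 122 1 = true := ex3_a k67_pp_101_s s164_pp_101_s

theorem s166_pp_101_s : ∃ t, chk3 f_pp_101_s t 36 61 1 = true := ex3_b s165_pp_101_s s161_pp_101_s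

theorem s167_pp_101_s : ∃ t, chk3 f_pp_101_s t 18 61 1 = true := ex3_a s166_pp_101_s s149_pp_101_s

theorem s168_pp_101_s : ∃ t, chk3 f_pp_101_s t 75 243 1 = true := ex3_a k65_pp_101_s k66_pp_101_s

theorem s169_pp_101_s : ∃ t, chk3 f_pp_101_s t 75 121 1 = true := ex3_b k64_pp_101_s s168_pp_101_s

theorem s170_pp_101_s : ∃ t, chk3 f_pp_101_s t 37 121 1 = true := ex3_a k63_pp_101_s s169_pp_101_s

theorem s171_pp_101_s : ∃ t, chk3 f_pp_101_s t 37 60 1 = true := ex3_b k62_pp_101_s s170_pp_101_s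

theorem s172_pp_101_s : ∃ t, chk3 f_pp_101_s t 18 60 1 = true := ex3_a k61_pp_101_s s171_pp_101_s

theorem s173_pp_101_s : ∃ t, chk3 f_pp_101_s t 18 30 1 = true := ex3_b s172_pp_101_s s167_pp_101_s

theorem s174_pp_101_s : ∃ t, chk3 f_pp_101_s t 9 30 1 = true := ex3_a s173_pp_101_s s143_pp_101_s

theorem s175_pp_101_s : ∃ t, chk3 f_pp_101_s t 9 15 1 = true := ex3_b s174_pp_101_s k101_pp_101_s

theorem s176_pp_101_s : ∃ t, chk3 f_pp_101_s t 142 496 1 = true := ex3_b k54_pp_101_s k55_pp_101_s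

theorem s177_pp_101_s : ∃ t, chk3 f_pp_101_s t 142 248 1 = true := ex3_b s176_pp_101_s k56_pp_101_s

theorem s178_pp_101_s : ∃ t, chk3 f_pp_101_s t 71 248 1 = true := ex3_a s177_pp_101_s k57_pp_101_s

theorem s179_pp_101_s : ∃ t, chk3 f_pp_101_s t 71 124 1 = true := ex3_b s178_pp_101_s k58_pp_101_s

theorem s180_pp_101_s : ∃ t, chk3 f_pp_101_s t 141 996 1 = true := ex3_b k50_pp_101_s k51_pp_101_s

theorem s181_pp_101_s : ∃ t, chk3 f_pp_101_s t 141 498 1 = true := ex3_b s180_pp_101_s k52_pp_101_s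

theorem s182_pp_101_s : ∃ t, chk3 f_pp_101_s t 141 249 1 = true := ex3_b s181_pp_101_s k53_pp_101_s

theorem s183_pp_101_s : ∃ t, chk3 f_pp_101_s t 280 998 1 = true := ex3_b k46_pp_101_s k47_pp_101_s

theorem s184_pp_101_s : ∃ t, chk3 f_pp_101_s t 280 499 1 = true := ex3_b s183_pp_101_s k48_pp_101_s

theorem s185_pp_101_s : ∃ t, chk3 f_pp_101_s t 140 499 1 = true := ex3_a s184_pp_101_s k49_pp_101_s

theorem s186_pp_101_s : ∃ t, chk3 f_pp_101_s t 281 997 1 = true := ex3_b k44_pp_101_s k45_pp_101_s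

theorem s187_pp_101_s : ∃ t, chk3 f_pp_101_s t 140 997 1 = true := ex3_a k43_pp_101_s s186_pp_101_s

theorem s188_pp_101_s : ∃ t, chk3 f_pp_101_s t 140 498 1 = true := ex3_b k42_pp_101_s s187_pp_101_s

theorem s189_pp_101_s : ∃ t, chk3 f_pp_101_s t 140 249 1 = true := ex3_b s188_pp_101_s s185_pp_101_s

theorem s190_pp_101_s : ∃ t, chk3 f_pp_101_s t 70 249 1 = true := ex3_a s189_pp_101_s s182_pp_101_s

theorem s191_pp_101_s : ∃ t, chk3 f_pp_101_s t 141 995 1 = true := ex3_b k40_pp_101_s k41_pp_101_s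

theorem s192_pp_101_s : ∃ t, chk3 f_pp_101_s t 141 497 1 = true := ex3_b k39_pp_101_s s191_pp_101_s

theorem s193_pp_101_s : ∃ t, chk3 f_pp_101_s t 141 248 1 = true := ex3_b k38_pp_101_s s192_pp_101_s

theorem s194_pp_101_s : ∃ t, chk3 f_pp_101_s t 70 248 1 = true := ex3_a k37_pp_101_s s193_pp_101_s

theorem s195_pp_101_s : ∃ t, chk3 f_pp_101_s t 70 124 1 = true := ex3_b s194_pp_101_s s190_pp_101_s

theorem s196_pp_101_s : ∃ t, chk3 f_pp_101_s t 35 124 1 = true := ex3_a s195_pp_101_s s179_pp_101_s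

theorem s197_pp_101_s : ∃ t, chk3 f_pp_101_s t 35 62 1 = true := ex3_b s196_pp_101_s k59_pp_101_s

theorem s198_pp_101_s : ∃ t, chk3 f_pp_101_s t 139 1000 1 = true := ex3_b k32_pp_101_s k33_pp_101_s

theorem s199_pp_101_s : ∃ t, chk3 f_pp_101_s t 139 500 1 = true := ex3_b s198_pp_101_s k34_pp_101_s

theorem s200_pp_101_s : ∃ t, chk3 f_pp_101_s t 139 250 1 = true := ex3_b s199_pp_101_s k35_pp_101_s

theorem s201_pp_101_s : ∃ t, chk3 f_pp_101_s t 138 250 1 = true := ex3_b k30_pp_101_s k31_pp_101_s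

theorem s202_pp_101_s : ∃ t, chk3 f_pp_101_s t 69 250 1 = true := ex3_a s201_pp_101_s s200_pp_101_s

theorem s203_pp_101_s : ∃ t, chk3 f_pp_101_s t 69 125 1 = true := ex3_b s202_pp_101_s k36_pp_101_s

theorem s204_pp_101_s : ∃ t, chk3 f_pp_101_s t 34 125 1 = true := ex3_a k29_pp_101_s s203_pp_101_s

theorem s205_pp_101_s : ∃ t, chk3 f_pp_101_s t 279 999 1 = true := ex3_b k27_pp_101_s k28_pp_101_s

theorem s206_pp_101_s : ∃ t, chk3 f_pp_101_s t 279 499 1 = true := ex3_b k26_pp_101_s s205_pp_101_s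

theorem s207_pp_101_s : ∃ t, chk3 f_pp_101_s t 279 249 1 = true := ex3_b k25_pp_101_s s206_pp_101_s

theorem s208_pp_101_s : ∃ t, chk3 f_pp_101_s t 139 249 1 = true := ex3_a k24_pp_101_s s207_pp_101_s

theorem s209_pp_101_s : ∃ t, chk3 f_pp_101_s t 69 249 1 = true := ex3_a k23_pp_101_s s208_pp_101_s

theorem s210_pp_101_s : ∃ t, chk3 f_pp_101_s t 69 124 1 = true := ex3_b k22_pp_101_s s209_pp_101_s

theorem s211_pp_101_s : ∃ t, chk3 f_pp_101_s t 34 124 1 = true := ex3_a k21_pp_101_s s210_pp_101_s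

theorem s212_pp_101_s : ∃ t, chk3 f_pp_101_s t 34 62 1 = true := ex3_b s211_pp_101_s s204_pp_101_s

theorem s213_pp_101_s : ∃ t, chk3 f_pp_101_s t 17 62 1 = true := ex3_a s212_pp_101_s s197_pp_101_s

theorem s214_pp_101_s : ∃ t, chk3 f_pp_101_s t 17 31 1 = true := ex3_b s213_pp_101_s k60_pp_101_s

theorem s215_pp_101_s : ∃ t, chk3 f_pp_101_s t 8 31 1 = true := ex3_a k20_pp_101_s s214_pp_101_s

theorem s216_pp_101_s : ∃ t, chk3 f_pp_101_s t 143 495 1 = true := ex3_b k18_pp_101_s k19_pp_101_s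

theorem s217_pp_101_s : ∃ t, chk3 f_pp_101_s t 143 247 1 = true := ex3_b k17_pp_101_s s216_pp_101_s

theorem s218_pp_101_s : ∃ t, chk3 f_pp_101_s t 71 247 1 = true := ex3_a k16_pp_101_s s217_pp_101_s

theorem s219_pp_101_s : ∃ t, chk3 f_pp_101_s t 71 123 1 = true := ex3_b k15_pp_101_s s218_pp_101_s

theorem s220_pp_101_s : ∃ t, chk3 f_pp_101_s t 35 123 1 = true := ex3_a k14_pp_101_s s219_pp_101_s

theorem s221_pp_101_s : ∃ t, chk3 f_pp_101_s t 35 61 1 = true := ex3_b k13_pp_101_s s220_pp_101_s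

theorem s222_pp_101_s : ∃ t, chk3 f_pp_101_s t 17 61 1 = true := ex3_a k12_pp_101_s s221_pp_101_s

theorem s223_pp_101_s : ∃ t, chk3 f_pp_101_s t 17 30 1 = true := ex3_b k11_pp_101_s s222_pp_101_s

theorem s224_pp_101_s : ∃ t, chk3 f_pp_101_s t 8 30 1 = true := ex3_a k10_pp_101_s s223_pp_101_s

theorem s225_pp_101_s : ∃ t, chk3 f_pp_101_s t 8 15 1 = true := ex3_b s224_pp_101_s s215_pp_101_s

theorem s226_pp_101_s : ∃ t, chk3 f_pp_101_s t 4 15 1 = true := ex3_a s225_pp_101_s s175_pp_101_s

theorem s227_pp_101_s : ∃ t, chk3 f_pp_101_s t 39 119 1 = true := ex3_a k8_pp_101_s k9_pp_101_s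

theorem s228_pp_101_s : ∃ t, chk3 f_pp_101_s t 39 59 1 = true := ex3_b k7_pp_101_s s227_pp_101_s

theorem s229_pp_101_s : ∃ t, chk3 f_pp_101_s t 19 59 1 = true := ex3_a k6_pp_101_s s228_pp_101_s

theorem s230_pp_101_s : ∃ t, chk3 f_pp_101_s t 19 29 1 = true := ex3_b k5_pp_101_s s229_pp_101_s

theorem s231_pp_101_s : ∃ t, chk3 f_pp_101_s t 9 29 1 = true := ex3_a k4_pp_101_s s230_pp_101_s

theorem s232_pp_101_s : ∃ t, chk3 f_pp_101_s t 9 14 1 = true := ex3_b k3_pp_101_s s231_pp_101_s

theorem s233_pp_101_s : ∃ t, chk3 f_pp_101_s t 4 14 1 = true := ex3_a k2_pp_101_s s232_pp_101_s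

theorem s234_pp_101_s : ∃ t, chk3 f_pp_101_s t 4 7 1 = true := ex3_b s233_pp_101_s s226_pp_101_s

theorem s235_pp_101_s : ∃ t, chk3 f_pp_101_s t 4 3 1 = true := ex3_b k1_pp_101_s s234_pp_101_s

theorem s236_pp_101_s : ∃ t, chk3 f_pp_101_s t 2 3 1 = true := ex3_a s235_pp_101_s s135_pp_101_s

theorem s237_pp_101_s : ∃ t, chk3 f_pp_101_s t 2 1 1 = true := ex3_b k0_pp_101_s s236_pp_101_s

theorem s238_pp_101_s : ∃ t, chk3 f_pp_101_s t 1 1 1 = true := ex3_a s237_pp_101_s s121_pp_101_s

theorem c_pp_101_s : CertNE 536870912 536870912 536870912 536870912 818728140 40265320 3 eng mog cd4q1 cd0q1 pd0 false true true .npn 1 0 1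
    ndB4q1 ndB0q1 pcB0 cut_pp_101_s Ext.none :=
  certNE2 (fam := false) (s1 := true) (s2 := true) (a := 1) (b := 0) (c := 1) (cn := .npn) (n1 := ndB4q1) (n2 := ndB0q1) (pc := pcB0) (cut := cut_pp_101_s) (xt := Ext.none) (P1 := 536870912) (W1 := 536870912) (P2 := 536870912) (W2 := 536870912) (P3 := 818728140) (W3 := 40265320) (N0 := 3) (En := eng) (mo := mog) (C1 := cd4q1) (C2 := cd0q1) (C3 := pd0)
    rfl (fun _ => rfl) s238_pp_101_s

noncomputable def cut_pp_102_s : Cut := Cut.of [[⟨4, 0, 0, 1449551462⟩], [⟨0, 1, 0, 67108864⟩, ⟨1, 0, 0, 67108864⟩, ⟨2, 1, 0, 67108864⟩]]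

noncomputable def f_pp_102_s : ℕ → ℕ → ℕ → ℕ → Bool := onCell 536870912 536870912 0 536870912 818728140 40265320
    (rowNE 3 eng mog cd4q1 cd0q2 pd0 0 false true true .npp 1 0 2 (qsf 536870912 536870912 0 536870912 0) ndB4q1 ndB0q2 pcB0 cut_pp_102_s Ext.none)

def k0_pp_102_s : ∃ t, chk3 f_pp_102_s t 1 1 1 = true :=
  ⟨(b (l 6) (a (a (l 6) (b (l 6) (b (l 6) (a (b (l 6) (l 16238568)) (b (l 16244520) (a (l 16319320) (l 16186880))))))) (a (b (l 6) (b (a (a (l 6) (b (l 6) (l 16253712))) (a (b (l 6) (l 16278808)) (b (l 16203960) (a (l 16297328) (l 16310976))))) (a (b (a (l 16317360) (l 16350920)) (b (a (l 16394904) (l 16428528)) (l 16486008))) (b (a (l 16381480) (b (l 16386280) (l 16444824))) (a (l 16557720) (b (l 16422008) (l 16569088))))))) (b (b (l 6) (a (a (l 6) (b (l 6) (a (l 6) (l 16152232)))) (a (b (l 6) (l 16173984)) (b (l 16092768) (l 16201872))))) (a (b (a (b (a (l 16217920) (l 16231872)) (b (l 16412616) (l 16364640))) (b (l 16255896) (l 16371824))) (b (a (l 16486032) (a (l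 16483744) (l 16501944))) (a (b (l 16547944) (l 16612712)) (b (l 16587192) (b (l 16636056) (l 16689840)))))) (b (b (a (l 16287728) (a (l 16310720) (l 16325592))) (a (a (l 16397536) (l 16414016)) (a (l 16430184) (b (l 16415480) (l 16476480))))) (b (a (a (l 16540760) (b (l 16505608) (l 16568696))) (a (b (l 16522392) (l 14)) (l 14))) (a (a (b (l 16615456) (a (l 16677232) (l 16707624))) (b (l 16633528) (l 14))) (l 14))))))))), by decide +kernel⟩

theorem c_pp_102_s : CertNE 536870912 536870912 0 536870912 818728140 40265320 3 eng mog cd4q1 cd0q2 pd0 false true true .npp 1 0 2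
    ndB4q1 ndB0q2 pcB0 cut_pp_102_s Ext.none :=
  certNE0 (fam := false) (s1 := true) (s2 := true) (a := 1) (b := 0) (c := 2) (cn := .npp) (n1 := ndB4q1) (n2 := ndB0q2) (pc := pcB0) (cut := cut_pp_102_s) (xt := Ext.none) (P1 := 536870912) (W1 := 536870912) (P2 := 0) (W2 := 536870912) (P3 := 818728140) (W3 := 40265320) (N0 := 3) (En := eng) (mo := mog) (C1 := cd4q1) (C2 := cd0q2) (C3 := pd0)
    rfl k0_pp_102_s

noncomputable def cut_pp_112_s : Cut := Cut.of [[⟨4, 0, 0, 1449551462⟩]]

noncomputable def f_pp_112_s : ℕ → ℕ → ℕ → ℕ → Bool := onCell 536870912 536870912 0 536870912 818728140 40265320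
    (rowNE 3 eng mog cd4q1 cd0q2 pd1 2 false true true .dn 1 1 2 (qsf 536870912 536870912 0 536870912 1) ndB4q1 ndB0q2 pcB1 cut_pp_112_s Ext.none)

def k0_pp_112_s : ∃ t, chk3 f_pp_112_s t 1 1 1 = true :=
  ⟨(a (l 6) (l 1)), by decide +kernel⟩

theorem c_pp_112_s : CertNE 536870912 536870912 0 536870912 818728140 40265320 3 eng mog cd4q1 cd0q2 pd1 false true true .dn 1 1 2
    ndB4q1 ndB0q2 pcB1 cut_pp_112_s Ext.none :=
  certNE2 (fam := false) (s1 := true) (s2 := true) (a := 1) (b := 1) (c := 2) (cn := .dn) (n1 := ndB4q1) (n2 := ndB0q2) (pc := pcB1) (cut := cut_pp_112_s) (xt := Ext.none) (P1 := 536870912) (W1 := 536870912) (P2 := 0) (W2 := 536870912) (P3 := 818728140) (W3 := 40265320) (N0 := 3) (En := eng) (mo := mog) (C1 := cd4q1) (C2 := cd0q2) (C3 := pd1)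
    rfl (fun _ => rfl) k0_pp_112_s

noncomputable def cut_pp_202_s : Cut := Cut.of [[⟨4, 0, 0, 1449551462⟩], [⟨0, 1, 0, 67108864⟩, ⟨1, 0, 0, 67108864⟩, ⟨2, 1, 0, 67108864⟩]]

noncomputable def f_pp_202_s : ℕ → ℕ → ℕ → ℕ → Bool := onCell 0 536870912 0 536870912 818728140 40265320
    (rowNE 3 eng mog cd4q2 cd0q2 pd0 2 false true true .pp 2 0 2 (qsf 1073741824 536870912 0 536870912 0) ndB4q2 ndB0q2 pcB0 cut_pp_202_s Ext.none)

def k0_pp_202_s : ∃ t, chk3 f_pp_202_s t 1 1 1 = true :=
  ⟨(a (b (a (l 6) (l 6)) (b (a (a (b (a (b (l 16352400) (l 16399456)) (b (l 6) (l 16273064))) (a (a (l 16371448) (l 16435312)) (b (l 16313488) (l 16358080)))) (b (l 6) (a (b (l 16167888) (l 16212296)) (b (l 6) (l 1))))) (l 1)) (a (a (b (b (a (a (l 16568600) (l 16506232)) (a (l 16440296) (l 16370792))) (a (l 14) (a (l 14) (l 291017020103)))) (a (l 14) (a (l 14) (l 1)))) (b (b (a (l 291553623543) (l 1)) (l 1)) (l 1))) (l 1)))) (l 1)), by decide +kernel⟩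

theorem c_pp_202_s : CertNE 1073741824 536870912 0 536870912 818728140 40265320 3 eng mog cd4q2 cd0q2 pd0 false true true .pp 2 0 2
    ndB4q2 ndB0q2 pcB0 cut_pp_202_s Ext.none :=
  certNE2 (fam := false) (s1 := true) (s2 := true) (a := 2) (b := 0) (c := 2) (cn := .pp) (n1 := ndB4q2) (n2 := ndB0q2) (pc := pcB0) (cut := cut_pp_202_s) (xt := Ext.none) (P1 := 1073741824) (W1 := 536870912) (P2 := 0) (W2 := 536870912) (P3 := 818728140) (W3 := 40265320) (N0 := 3) (En := eng) (mo := mog) (C1 := cd4q2) (C2 := cd0q2) (C3 := pd0)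
    rfl (fun _ => rfl) k0_pp_202_s

noncomputable def cut_pm_001_s : Cut := Cut.of [[⟨4, 0, 0, 1449551462⟩]]

noncomputable def f_pm_001_s : ℕ → ℕ → ℕ → ℕ → Bool := onCell 0 536870912 536870912 536870912 818728140 40265320
    (rowNE 3 eng mog cd4q0 cd0q1 pd0 0 false true false .up 0 0 1 (qsf 0 536870912 536870912 536870912 0) ndB4q0 ndB0q1 pcB0 cut_pm_001_s Ext.none)

def k0_pm_001_s : ∃ t, chk3 f_pm_001_s t 1 1 1 = true :=
  ⟨(l 4), by decide +kernel⟩

theorem c_pm_001_s : CertNE 0 536870912 536870912 536870912 818728140 40265320 3 eng mog cd4q0 cd0q1 pd0 false true false .up 0 0 1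
    ndB4q0 ndB0q1 pcB0 cut_pm_001_s Ext.none :=
  certNE0 (fam := false) (s1 := true) (s2 := false) (a := 0) (b := 0) (c := 1) (cn := .up) (n1 := ndB4q0) (n2 := ndB0q1) (pc := pcB0) (cut := cut_pm_001_s) (xt := Ext.none) (P1 := 0) (W1 := 536870912) (P2 := 536870912) (W2 := 536870912) (P3 := 818728140) (W3 := 40265320) (N0 := 3) (En := eng) (mo := mog) (C1 := cd4q0) (C2 := cd0q1) (C3 := pd0)
    rfl k0_pm_001_s

noncomputable def cut_pm_011_s : Cut := Cut.of [[⟨4, 0, 0, 1449551462⟩]]

noncomputable def f_pm_011_s : ℕ → ℕ → ℕ → ℕ → Bool := onCell 0 536870912 536870912 536870912 818728140 40265320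
    (rowNE 3 eng mog cd4q0 cd0q1 pd1 0 false true false .pnn 0 1 1 (qsf 0 536870912 536870912 536870912 1) ndB4q0 ndB0q1 pcB1 cut_pm_011_s Ext.none)

def k0_pm_011_s : ∃ t, chk3 f_pm_011_s t 1 1 1 = true :=
  ⟨(l 4), by decide +kernel⟩

theorem c_pm_011_s : CertNE 0 536870912 536870912 536870912 818728140 40265320 3 eng mog cd4q0 cd0q1 pd1 false true false .pnn 0 1 1
    ndB4q0 ndB0q1 pcB1 cut_pm_011_s Ext.none :=
  certNE0 (fam := false) (s1 := true) (s2 := false) (a := 0) (b := 1) (c := 1) (cn := .pnn) (n1 := ndB4q0) (n2 := ndB0q1) (pc := pcB1) (cut := cut_pm_011_s) (xt := Ext.none) (P1 := 0) (W1 := 536870912) (P2 := 536870912) (W2 := 536870912) (P3 := 818728140) (W3 := 40265320) (N0 := 3) (En := eng) (mo := mog) (C1 := cd4q0) (C2 := cd0q1) (C3 := pd1)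
    rfl k0_pm_011_s

noncomputable def cut_pm_012_s : Cut := Cut.of [[⟨4, 0, 0, 1449551462⟩]]

noncomputable def f_pm_012_s : ℕ → ℕ → ℕ → ℕ → Bool := onCell 0 536870912 0 536870912 818728140 40265320
    (rowNE 3 eng mog cd4q0 cd0q2 pd1 0 false true false .pnp 0 1 2 (qsf 0 536870912 0 536870912 1) ndB4q0 ndB0q2 pcB1 cut_pm_012_s Ext.none)

def k0_pm_012_s : ∃ t, chk3 f_pm_012_s t 1 1 1 = true :=
  ⟨(l 6), by decide +kernel⟩

theorem c_pm_012_s : CertNE 0 536870912 0 536870912 818728140 40265320 3 eng mog cd4q0 cd0q2 pd1 false true false .pnp 0 1 2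
    ndB4q0 ndB0q2 pcB1 cut_pm_012_s Ext.none :=
  certNE0 (fam := false) (s1 := true) (s2 := false) (a := 0) (b := 1) (c := 2) (cn := .pnp) (n1 := ndB4q0) (n2 := ndB0q2) (pc := pcB1) (cut := cut_pm_012_s) (xt := Ext.none) (P1 := 0) (W1 := 536870912) (P2 := 0) (W2 := 536870912) (P3 := 818728140) (W3 := 40265320) (N0 := 3) (En := eng) (mo := mog) (C1 := cd4q0) (C2 := cd0q2) (C3 := pd1)
    rfl k0_pm_012_s

noncomputable def cut_pm_022_s : Cut := Cut.of [[⟨4, 0, 0, 1449551462⟩]]

noncomputable def f_pm_022_s : ℕ → ℕ → ℕ → ℕ → Bool := onCell 0 536870912 0 536870912 818728140 40265320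
    (rowNE 3 eng mog cd4q0 cd0q2 pd2 0 false true false .pp 0 2 2 (qsf 0 536870912 0 536870912 2) ndB4q0 ndB0q2 pcB2 cut_pm_022_s Ext.none)

def k0_pm_022_s : ∃ t, chk3 f_pm_022_s t 1 1 1 = true :=
  ⟨(l 6), by decide +kernel⟩

theorem c_pm_022_s : CertNE 0 536870912 0 536870912 818728140 40265320 3 eng mog cd4q0 cd0q2 pd2 false true false .pp 0 2 2
    ndB4q0 ndB0q2 pcB2 cut_pm_022_s Ext.none :=
  certNE0 (fam := false) (s1 := true) (s2 := false) (a := 0) (b := 2) (c := 2) (cn := .pp) (n1 := ndB4q0) (n2 := ndB0q2) (pc := pcB2) (cut := cut_pm_022_s) (xt := Ext.none) (P1 := 0) (W1 := 536870912) (P2 := 0) (W2 := 536870912) (P3 := 818728140) (W3 := 40265320) (N0 := 3) (En := eng) (mo := mog) (C1 := cd4q0) (C2 := cd0q2) (C3 := pd2)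
    rfl k0_pm_022_s

noncomputable def cut_pm_101_s : Cut := Cut.of [[⟨4, 0, 0, 1449551462⟩]]

noncomputable def f_pm_101_s : ℕ → ℕ → ℕ → ℕ → Bool := onCell 536870912 536870912 536870912 536870912 818728140 40265320
    (rowNE 3 eng mog cd4q1 cd0q1 pd0 0 false true false .npn 1 0 1 (qsf 536870912 536870912 536870912 536870912 0) ndB4q1 ndB0q1 pcB0 cut_pm_101_s Ext.none)

def k0_pm_101_s : ∃ t, chk3 f_pm_101_s t 1 1 1 = true :=
  ⟨(l 4), by decide +kernel⟩

theorem c_pm_101_s : CertNE 536870912 536870912 536870912 536870912 818728140 40265320 3 eng mog cd4q1 cd0q1 pd0 false true false .npn 1 0 1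
    ndB4q1 ndB0q1 pcB0 cut_pm_101_s Ext.none :=
  certNE0 (fam := false) (s1 := true) (s2 := false) (a := 1) (b := 0) (c := 1) (cn := .npn) (n1 := ndB4q1) (n2 := ndB0q1) (pc := pcB0) (cut := cut_pm_101_s) (xt := Ext.none) (P1 := 536870912) (W1 := 536870912) (P2 := 536870912) (W2 := 536870912) (P3 := 818728140) (W3 := 40265320) (N0 := 3) (En := eng) (mo := mog) (C1 := cd4q1) (C2 := cd0q1) (C3 := pd0)
    rfl k0_pm_101_s

noncomputable def cut_pm_102_s : Cut := Cut.of [[⟨4, 0, 0, 1449551462⟩]]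

noncomputable def f_pm_102_s : ℕ → ℕ → ℕ → ℕ → Bool := onCell 536870912 536870912 0 536870912 818728140 40265320
    (rowNE 3 eng mog cd4q1 cd0q2 pd0 0 false true false .npp 1 0 2 (qsf 536870912 536870912 0 536870912 0) ndB4q1 ndB0q2 pcB0 cut_pm_102_s Ext.none)

def k0_pm_102_s : ∃ t, chk3 f_pm_102_s t 1 1 1 = true :=
  ⟨(l 6), by decide +kernel⟩

theorem c_pm_102_s : CertNE 536870912 536870912 0 536870912 818728140 40265320 3 eng mog cd4q1 cd0q2 pd0 false true false .npp 1 0 2
    ndB4q1 ndB0q2 pcB0 cut_pm_102_s Ext.none :=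
  certNE0 (fam := false) (s1 := true) (s2 := false) (a := 1) (b := 0) (c := 2) (cn := .npp) (n1 := ndB4q1) (n2 := ndB0q2) (pc := pcB0) (cut := cut_pm_102_s) (xt := Ext.none) (P1 := 536870912) (W1 := 536870912) (P2 := 0) (W2 := 536870912) (P3 := 818728140) (W3 := 40265320) (N0 := 3) (En := eng) (mo := mog) (C1 := cd4q1) (C2 := cd0q2) (C3 := pd0)
    rfl k0_pm_102_s

noncomputable def cut_pm_112_s : Cut := Cut.of [[⟨4, 0, 0, 1449551462⟩]]

noncomputable def f_pm_112_s : ℕ → ℕ → ℕ → ℕ → Bool := onCell 536870912 536870912 0 536870912 818728140 40265320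
    (rowNE 3 eng mog cd4q1 cd0q2 pd1 0 false true false .dn 1 1 2 (qsf 536870912 536870912 0 536870912 1) ndB4q1 ndB0q2 pcB1 cut_pm_112_s Ext.none)

def k0_pm_112_s : ∃ t, chk3 f_pm_112_s t 1 1 1 = true :=
  ⟨(l 6), by decide +kernel⟩

theorem c_pm_112_s : CertNE 536870912 536870912 0 536870912 818728140 40265320 3 eng mog cd4q1 cd0q2 pd1 false true false .dn 1 1 2
    ndB4q1 ndB0q2 pcB1 cut_pm_112_s Ext.none :=
  certNE0 (fam := false) (s1 := true) (s2 := false) (a := 1) (b := 1) (c := 2) (cn := .dn) (n1 := ndB4q1) (n2 := ndB0q2) (pc := pcB1) (cut := cut_pm_112_s) (xt := Ext.none) (P1 := 536870912) (W1 := 536870912) (P2 := 0) (W2 := 536870912) (P3 := 818728140) (W3 := 40265320) (N0 := 3) (En := eng) (mo := mog) (C1 := cd4q1) (C2 := cd0q2) (C3 := pd1)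
    rfl k0_pm_112_s

noncomputable def cut_pm_202_s : Cut := Cut.of [[⟨4, 0, 0, 1449551462⟩]]

noncomputable def f_pm_202_s : ℕ → ℕ → ℕ → ℕ → Bool := onCell 0 536870912 0 536870912 818728140 40265320
    (rowNE 3 eng mog cd4q2 cd0q2 pd0 2 false true false .pp 2 0 2 (qsf 1073741824 536870912 0 536870912 0) ndB4q2 ndB0q2 pcB0 cut_pm_202_s Ext.none)

def k0_pm_202_s : ∃ t, chk3 f_pm_202_s t 1 1 1 = true :=
  ⟨(l 6), by decide +kernel⟩

theorem c_pm_202_s : CertNE 1073741824 536870912 0 536870912 818728140 40265320 3 eng mog cd4q2 cd0q2 pd0 false true false .pp 2 0 2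
    ndB4q2 ndB0q2 pcB0 cut_pm_202_s Ext.none :=
  certNE2 (fam := false) (s1 := true) (s2 := false) (a := 2) (b := 0) (c := 2) (cn := .pp) (n1 := ndB4q2) (n2 := ndB0q2) (pc := pcB0) (cut := cut_pm_202_s) (xt := Ext.none) (P1 := 1073741824) (W1 := 536870912) (P2 := 0) (W2 := 536870912) (P3 := 818728140) (W3 := 40265320) (N0 := 3) (En := eng) (mo := mog) (C1 := cd4q2) (C2 := cd0q2) (C3 := pd0)
    rfl (fun _ => rfl) k0_pm_202_s

noncomputable def cut_mm_001_s : Cut := Cut.of [[⟨4, 0, 0, 1449551462⟩]]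

noncomputable def f_mm_001_s : ℕ → ℕ → ℕ → ℕ → Bool := onCell 0 536870912 536870912 536870912 818728140 40265320
    (rowNE 3 eng mog cd4q0 cd0q1 pd0 0 false false false .up 0 0 1 (qsf 0 536870912 536870912 536870912 0) ndB4q0 ndB0q1 pcB0 cut_mm_001_s Ext.none)

def k0_mm_001_s : ∃ t, chk3 f_mm_001_s t 1 1 1 = true :=
  ⟨(l 5), by decide +kernel⟩

theorem c_mm_001_s : CertNE 0 536870912 536870912 536870912 818728140 40265320 3 eng mog cd4q0 cd0q1 pd0 false false false .up 0 0 1
    ndB4q0 ndB0q1 pcB0 cut_mm_001_s Ext.none :=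
  certNE0 (fam := false) (s1 := false) (s2 := false) (a := 0) (b := 0) (c := 1) (cn := .up) (n1 := ndB4q0) (n2 := ndB0q1) (pc := pcB0) (cut := cut_mm_001_s) (xt := Ext.none) (P1 := 0) (W1 := 536870912) (P2 := 536870912) (W2 := 536870912) (P3 := 818728140) (W3 := 40265320) (N0 := 3) (En := eng) (mo := mog) (C1 := cd4q0) (C2 := cd0q1) (C3 := pd0)
    rfl k0_mm_001_s

noncomputable def cut_mm_011_s : Cut := Cut.of [[⟨4, 0, 0, 1449551462⟩]]

noncomputable def f_mm_011_s : ℕ → ℕ → ℕ → ℕ → Bool := onCell 0 536870912 536870912 536870912 818728140 40265320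
    (rowNE 3 eng mog cd4q0 cd0q1 pd1 0 false false false .pnn 0 1 1 (qsf 0 536870912 536870912 536870912 1) ndB4q0 ndB0q1 pcB1 cut_mm_011_s Ext.none)

def k0_mm_011_s : ∃ t, chk3 f_mm_011_s t 1 1 1 = true :=
  ⟨(l 5), by decide +kernel⟩

theorem c_mm_011_s : CertNE 0 536870912 536870912 536870912 818728140 40265320 3 eng mog cd4q0 cd0q1 pd1 false false false .pnn 0 1 1
    ndB4q0 ndB0q1 pcB1 cut_mm_011_s Ext.none :=
  certNE0 (fam := false) (s1 := false) (s2 := false) (a := 0) (b := 1) (c := 1) (cn := .pnn) (n1 := ndB4q0) (n2 := ndB0q1) (pc := pcB1) (cut := cut_mm_011_s) (xt := Ext.none) (P1 := 0) (W1 := 536870912) (P2 := 536870912) (W2 := 536870912) (P3 := 818728140) (W3 := 40265320) (N0 := 3) (En := eng) (mo := mog) (C1 := cd4q0) (C2 := cd0q1) (C3 := pd1)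
    rfl k0_mm_011_s

noncomputable def cut_mm_012_s : Cut := Cut.of [[⟨4, 0, 0, 1449551462⟩]]

noncomputable def f_mm_012_s : ℕ → ℕ → ℕ → ℕ → Bool := onCell 0 536870912 0 536870912 818728140 40265320
    (rowNE 3 eng mog cd4q0 cd0q2 pd1 0 false false false .pnp 0 1 2 (qsf 0 536870912 0 536870912 1) ndB4q0 ndB0q2 pcB1 cut_mm_012_s Ext.none)

def k0_mm_012_s : ∃ t, chk3 f_mm_012_s t 1 1 1 = true :=
  ⟨(l 5), by decide +kernel⟩

theorem c_mm_012_s : CertNE 0 536870912 0 536870912 818728140 40265320 3 eng mog cd4q0 cd0q2 pd1 false false false .pnp 0 1 2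
    ndB4q0 ndB0q2 pcB1 cut_mm_012_s Ext.none :=
  certNE0 (fam := false) (s1 := false) (s2 := false) (a := 0) (b := 1) (c := 2) (cn := .pnp) (n1 := ndB4q0) (n2 := ndB0q2) (pc := pcB1) (cut := cut_mm_012_s) (xt := Ext.none) (P1 := 0) (W1 := 536870912) (P2 := 0) (W2 := 536870912) (P3 := 818728140) (W3 := 40265320) (N0 := 3) (En := eng) (mo := mog) (C1 := cd4q0) (C2 := cd0q2) (C3 := pd1)
    rfl k0_mm_012_s

noncomputable def cut_mm_022_s : Cut := Cut.of [[⟨4, 0, 0, 1449551462⟩]]

noncomputable def f_mm_022_s : ℕ → ℕ → ℕ → ℕ → Bool := onCell 0 536870912 0 536870912 818728140 40265320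
    (rowNE 3 eng mog cd4q0 cd0q2 pd2 0 false false false .pp 0 2 2 (qsf 0 536870912 0 536870912 2) ndB4q0 ndB0q2 pcB2 cut_mm_022_s Ext.none)

def k0_mm_022_s : ∃ t, chk3 f_mm_022_s t 1 1 1 = true :=
  ⟨(l 5), by decide +kernel⟩

theorem c_mm_022_s : CertNE 0 536870912 0 536870912 818728140 40265320 3 eng mog cd4q0 cd0q2 pd2 false false false .pp 0 2 2
    ndB4q0 ndB0q2 pcB2 cut_mm_022_s Ext.none :=
  certNE0 (fam := false) (s1 := false) (s2 := false) (a := 0) (b := 2) (c := 2) (cn := .pp) (n1 := ndB4q0) (n2 := ndB0q2) (pc := pcB2) (cut := cut_mm_022_s) (xt := Ext.none) (P1 := 0) (W1 := 536870912) (P2 := 0) (W2 := 536870912) (P3 := 818728140) (W3 := 40265320) (N0 := 3) (En := eng) (mo := mog) (C1 := cd4q0) (C2 := cd0q2) (C3 := pd2)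
    rfl k0_mm_022_s

noncomputable def cut_mm_101_s : Cut := Cut.of [[⟨4, 0, 0, 1449551462⟩]]

noncomputable def f_mm_101_s : ℕ → ℕ → ℕ → ℕ → Bool := onCell 0 536870912 536870912 536870912 818728140 40265320
    (rowNE 3 eng mog cd4q1 cd0q1 pd0 2 false false false .npn 1 0 1 (qsf 536870912 536870912 536870912 536870912 0) ndB4q1 ndB0q1 pcB0 cut_mm_101_s Ext.none)

def k0_mm_101_s : ∃ t, chk3 f_mm_101_s t 1 1 1 = true :=
  ⟨(l 5), by decide +kernel⟩

theorem c_mm_101_s : CertNE 536870912 536870912 536870912 536870912 818728140 40265320 3 eng mog cd4q1 cd0q1 pd0 false false false .npn 1 0 1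
    ndB4q1 ndB0q1 pcB0 cut_mm_101_s Ext.none :=
  certNE2 (fam := false) (s1 := false) (s2 := false) (a := 1) (b := 0) (c := 1) (cn := .npn) (n1 := ndB4q1) (n2 := ndB0q1) (pc := pcB0) (cut := cut_mm_101_s) (xt := Ext.none) (P1 := 536870912) (W1 := 536870912) (P2 := 536870912) (W2 := 536870912) (P3 := 818728140) (W3 := 40265320) (N0 := 3) (En := eng) (mo := mog) (C1 := cd4q1) (C2 := cd0q1) (C3 := pd0)
    rfl (fun _ => rfl) k0_mm_101_s

noncomputable def cut_mm_102_s : Cut := Cut.of [[⟨4, 0, 0, 1449551462⟩]]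

noncomputable def f_mm_102_s : ℕ → ℕ → ℕ → ℕ → Bool := onCell 536870912 536870912 0 536870912 818728140 40265320
    (rowNE 3 eng mog cd4q1 cd0q2 pd0 0 false false false .npp 1 0 2 (qsf 536870912 536870912 0 536870912 0) ndB4q1 ndB0q2 pcB0 cut_mm_102_s Ext.none)

def k0_mm_102_s : ∃ t, chk3 f_mm_102_s t 1 1 1 = true :=
  ⟨(l 5), by decide +kernel⟩

theorem c_mm_102_s : CertNE 536870912 536870912 0 536870912 818728140 40265320 3 eng mog cd4q1 cd0q2 pd0 false false false .npp 1 0 2
    ndB4q1 ndB0q2 pcB0 cut_mm_102_s Ext.none :=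
  certNE0 (fam := false) (s1 := false) (s2 := false) (a := 1) (b := 0) (c := 2) (cn := .npp) (n1 := ndB4q1) (n2 := ndB0q2) (pc := pcB0) (cut := cut_mm_102_s) (xt := Ext.none) (P1 := 536870912) (W1 := 536870912) (P2 := 0) (W2 := 536870912) (P3 := 818728140) (W3 := 40265320) (N0 := 3) (En := eng) (mo := mog) (C1 := cd4q1) (C2 := cd0q2) (C3 := pd0)
    rfl k0_mm_102_s

noncomputable def cut_mm_112_s : Cut := Cut.of [[⟨4, 0, 0, 1449551462⟩]]

noncomputable def f_mm_112_s : ℕ → ℕ → ℕ → ℕ → Bool := onCell 536870912 536870912 0 536870912 818728140 40265320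
    (rowNE 3 eng mog cd4q1 cd0q2 pd1 0 false false false .dn 1 1 2 (qsf 536870912 536870912 0 536870912 1) ndB4q1 ndB0q2 pcB1 cut_mm_112_s Ext.none)

def k0_mm_112_s : ∃ t, chk3 f_mm_112_s t 1 1 1 = true :=
  ⟨(l 5), by decide +kernel⟩

theorem c_mm_112_s : CertNE 536870912 536870912 0 536870912 818728140 40265320 3 eng mog cd4q1 cd0q2 pd1 false false false .dn 1 1 2
    ndB4q1 ndB0q2 pcB1 cut_mm_112_s Ext.none :=
  certNE0 (fam := false) (s1 := false) (s2 := false) (a := 1) (b := 1) (c := 2) (cn := .dn) (n1 := ndB4q1) (n2 := ndB0q2) (pc := pcB1) (cut := cut_mm_112_s) (xt := Ext.none) (P1 := 536870912) (W1 := 536870912) (P2 := 0) (W2 := 536870912) (P3 := 818728140) (W3 := 40265320) (N0 := 3) (En := eng) (mo := mog) (C1 := cd4q1) (C2 := cd0q2) (C3 := pd1)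
    rfl k0_mm_112_s

noncomputable def cut_mm_202_s : Cut := Cut.of [[⟨4, 0, 0, 1449551462⟩]]

noncomputable def f_mm_202_s : ℕ → ℕ → ℕ → ℕ → Bool := onCell 1073741824 536870912 0 536870912 818728140 40265320
    (rowNE 3 eng mog cd4q2 cd0q2 pd0 0 false false false .pp 2 0 2 (qsf 1073741824 536870912 0 536870912 0) ndB4q2 ndB0q2 pcB0 cut_mm_202_s Ext.none)

def k0_mm_202_s : ∃ t, chk3 f_mm_202_s t 1 1 1 = true :=
  ⟨(l 5), by decide +kernel⟩

theorem c_mm_202_s : CertNE 1073741824 536870912 0 536870912 818728140 40265320 3 eng mog cd4q2 cd0q2 pd0 false false false .pp 2 0 2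
    ndB4q2 ndB0q2 pcB0 cut_mm_202_s Ext.none :=
  certNE0 (fam := false) (s1 := false) (s2 := false) (a := 2) (b := 0) (c := 2) (cn := .pp) (n1 := ndB4q2) (n2 := ndB0q2) (pc := pcB0) (cut := cut_mm_202_s) (xt := Ext.none) (P1 := 1073741824) (W1 := 536870912) (P2 := 0) (W2 := 536870912) (P3 := 818728140) (W3 := 40265320) (N0 := 3) (En := eng) (mo := mog) (C1 := cd4q2) (C2 := cd0q2) (C3 := pd0)
    rfl k0_mm_202_s

end Pool.Agent.Strip051.G.I7625_8000.Tab.CS.BB40

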