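import Pool.Agent.Strip051.G.I7625_8000.Tab
import Pool.Agent.Strip051.PB.StripB

/-! # Strips, near vertex: certificates 9 (generated) -/

set_option linter.all false
set_option maxRecDepth 100000

namespace Pool.Agent.Strip051.G.I7625_8000.Tab.CS.BB04

open Pool.Agent.Strip051.PB Pool.Agent.Strip051.PB.T
open Pool.Agent.Strip051.G.I7625_8000.Tab

noncomputable def cut_pp_022_s : Cut := Cut.of [[⟨4, 0, 0, 1449551462⟩], [⟨0, 0, 0, 67108864⟩, ⟨1, 1, 0, 67108864⟩, ⟨2, 1, 0, 67108864⟩]]

noncomputable def f_pp_022_s : ℕ → ℕ → ℕ → ℕ → Bool := onCell 0 536870912 1073741824 536870912 818728140 40265320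
    (rowNE 3 eng mog cd0q0 cd4q2 pd2 1 false true true .pp 0 2 2 (qsf 0 536870912 1073741824 536870912 2) ndB0q0 ndB4q2 pcB2 cut_pp_022_s Ext.none)

def k0_pp_022_s : ∃ t, chk3 f_pp_022_s t 16 16 1 = true :=
  ⟨(b (l 14) (a (l 14) (b (l 14) (a (l 14) (b (l 14) (a (l 14) (l 16745352))))))), by decide +kernel⟩

def k1_pp_022_s : ∃ t, chk3 f_pp_022_s t 17 32 1 = true :=
  ⟨(a (a (l 14) (l 3)) (l 3)), by decide +kernel⟩

def k2_pp_022_s : ∃ t, chk3 f_pp_022_s t 34 132 1 = true :=
  ⟨(a (l 14) (a (a (l 14) (l 3)) (l 3))), by decide +kernel⟩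

def k3_pp_022_s : ∃ t, chk3 f_pp_022_s t 68 133 1 = true :=
  ⟨(a (l 14) (a (l 14) (b (l 14) (b (l 14) (l 16767736))))), by decide +kernel⟩

def k4_pp_022_s : ∃ t, chk3 f_pp_022_s t 138 133 1 = true :=
  ⟨(b (b (a (l 14) (a (b (l 14) (b (l 14) (b (l 14) (c (l 16776488) (c (l 16776488) (l 16776496)))))) (a (b (l 3) (b (l 3) (b (b (l 3) (c (l 408189665959) (a (a (l 199346880775) (l 3)) (l 3)))) (c (l 16777192) (a (c (l 16777096) (c (l 16777096) (l 16777256))) (b (l 3) (a (l 16777288) (l 562808488231)))))))) (l 3)))) (c (a (l 16773848) (b (b (a (l 16776096) (a (l 16776832) (l 231559136231))) (l 16776064)) (l 16775280))) (a (b (l 14) (l 16773344)) (a (c (l 16775320) (b (c (l 16775840) (l 16775848)) (l 16774808))) (a (c (l 16776056) (b (a (l 16776448) (b (b (l 16777240) (l 16776824)) (l 16776432))) (l 16775536))) (b (a (b (b (b (l 544554877367) (a (l 16777192) (l 482277851447))) (c (l 16777064) (l 16777064))) (l 16776680)) (b (a (b (l 3) (b (l 462413627687) (l 16777176))) (c (l 523080041159)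 (l 635286061431))) (c (l 16776920) (l 16776920)))) (l 16776016))))))) (c (b (a (l 16771768) (l 16773720)) (a (l 16769680) (l 16771632))) (b (a (l 16771784) (c (l 16773728) (b (l 16774256) (l 16773216)))) (a (l 16769704) (l 16771648))))), by decide +kernel⟩

def k5_pp_022_s : ∃ t, chk3 f_pp_022_s t 278 133 1 = true :=
  ⟨(b (b (l 3) (b (b (l 3) (a (a (c (l 200957494263) (b (a (c (l 16777256) (a (a (l 16777352) (l 282025001255)) (l 445770629543))) (l 3)) (a (l 16777032) (b (c (l 16777296) (l 424832663959)) (a (l 16777152) (l 309405417783)))))) (l 3)) (l 3))) (a (c (b (a (l 16776760) (l 178408915911)) (l 16776488)) (b (b (a (l 16776896) (a (b (a (l 304573579527) (l 3)) (a (l 16777136) (l 258402681127))) (l 3))) (c (l 16776872) (a (l 16776632) (a (l 16777000) (b (a (l 16777312) (l 3)) (l 16777336)))))) (a (l 16776248) (l 16776728)))) (b (l 3) (a (c (l 156934079383) (b (a (a (c (l 16777160) (l 16777320)) (b (l 3) (l 16777376))) (l 668035187015)) (a (l 16776968) (a (l 16777304) (b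 (l 555292295447) (l 16777192)))))) (a (b (l 3) (c (l 16777368) (l 644412866871))) (l 3))))))) (b (b (c (b (a (l 16775960) (c (l 16777576) (l 16777576))) (l 16775928)) (b (a (l 16775968) (a (l 16776696) (b (a (b (a (l 16777192) (l 469929820455)) (l 16777120)) (l 606831903015)) (b (a (l 16776992) (a (l 16777176) (l 418927083799))) (l 16776984))))) (c (l 16775936) (a (l 16775448) (l 16776416))))) (c (l 16775144) (c (l 16775152) (a (l 16774672) (l 16775640))))) (c (l 16773584) (c (l 16773592) (b (l 16774120) (l 16773080)))))), by decide +kernel⟩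

def k6_pp_022_s : ∃ t, chk3 f_pp_022_s t 279 133 1 = true :=
  ⟨(b (l 3) (b (a (a (b (c (b (l 607368774231) (l 16777776)) (b (a (a (c (l 498383979223) (l 608442515815)) (l 3)) (l 3)) (c (l 101636374679) (b (a (a (l 16777096) (a (l 16777176) (l 244444037399))) (l 573545906407)) (a (l 16776896) (b (l 145659789591) (l 16777072))))))) (c (l 16776360) (c (l 16776368) (l 16776368)))) (c (b (l 601463194503) (l 16777496)) (b (a (b (l 3) (b (l 3) (c (l 16777320) (l 545628618967)))) (l 3)) (b (c (l 16777744) (b (a (c (l 16777112) (l 16777280)) (a (l 351281348967) (l 3))) (c (l 16776976) (l 16777144)))) (l 16776592))))) (b (l 3) (c (b (l 585893937975) (a (l 16777056) (l 409800279207))) (b (b (l 3) (b (l 3) (a (a (a (l 16777208) (l 563882230055)) (l 3)) (l 3)))) (b (a (a (l 16777248) (a (a (l 211158040871) (l 353965703511)) (l 515563848151))) (l 3)) (a (c (l 16776944) (l 16776944)) (a (a (a (l 152639111479) (l 312626643271)) (l 467245466055)) (l 3)))))))) (b (c (a (l 16775560) (l 16777032))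 (c (a (l 16775568) (c (l 16776536) (l 16776864))) (a (l 16775568) (b (b (a (l 16776688) (a (l 16777048) (b (l 454360564135) (l 185388237111)))) (l 16776712)) (l 16776280))))) (c (l 16775000) (c (l 16775008) (c (l 16775016) (l 16775016))))))), by decide +kernel⟩

def k7_pp_022_s : ∃ t, chk3 f_pp_022_s t 34 67 1 = true :=
  ⟨(a (b (a (b (l 14) (l 16755536)) (b (c (l 16763608) (l 16763656)) (l 16759456))) (a (l 16749256) (b (l 16755264) (l 16751072)))) (b (a (b (c (a (l 16766544) (l 16768496)) (a (l 16766584) (l 16768528))) (c (l 16763336) (l 16763384))) (b (c (b (a (l 16771488) (l 16773440)) (l 16770376)) (a (b (l 16771512) (l 16769424)) (b (a (l 16772968) (l 16773936)) (l 16771360)))) (c (l 16767560) (a (l 16766296) (l 16768232))))) (a (b (l 16759168) (l 16754976)) (b (c (l 16763040) (l 16763080)) (l 16758864))))), by decide +kernel⟩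

def k8_pp_022_s : ∃ t, chk3 f_pp_022_s t 35 66 1 = true :=
  ⟨(b (l 3) (a (b (l 3) (b (l 3) (a (a (b (a (b (b (l 3) (c (l 535428071975) (a (a (b (l 417316471191) (a (l 16777144) (l 317995352327))) (l 3)) (l 3)))) (a (c (l 16776992) (c (l 16776992) (a (l 16776880) (b (a (l 16777344) (l 372219314551)) (l 16776992))))) (b (l 3) (c (l 16777296) (a (a (l 16777368) (c (l 16777264) (l 343765156183))) (l 3)))))) (l 3)) (a (c (l 16776464) (b (a (l 16776480) (b (c (l 16777088) (a (l 16776976) (a (l 16777152) (l 277193163143)))) (l 16776832))) (l 16776200))) (b (a (c (l 326048416855) (c (l 336248964087) (b (l 667498316247) (a (a (l 16777136) (l 239075328375)) (l 626696126759))))) (l 3)) (c (a (l 16776928) (l 304573580311)) (c (a (l 16776920) (l 311016031175)) (b (a (b (a (l 16777000) (l 216526750039)) (l 16776992)) (l 622938030503)) (a (l 16776800) (a (a (l 16777096) (l 163376529751)) (l 573009035511))))))))) (l 3)) (l 3)))) (l 3))), by decide +kernel⟩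

def k9_pp_022_s : ∃ t, chk3 f_pp_022_s t 35 536 1 = true :=
  ⟨(a (a (a (a (c (l 16774896) (b (l 16775424) (l 16774376))) (c (c (l 16775864) (l 16775864)) (c (l 16776072) (b (a (l 16776144) (a (l 16776512) (b (b (l 16777376) (l 16776880)) (l 16776488)))) (l 16775344))))) (a (b (b (a (c (l 279877518311) (c (l 273435067351) (b (b (l 3) (l 573009035543)) (a (l 16777280) (a (l 353428832615) (l 3)))))) (l 3)) (a (c (l 16776848) (a (l 16776728) (b (l 16777264) (l 16776840)))) (c (l 243907167223) (c (l 247665263527) (a (b (a (l 306721063271) (l 579988357527)) (l 16777080)) (a (b (l 3) (l 253033972087)) (l 650318446983))))))) (c (l 16776312) (a (l 16776072) (a (l 16776432) (b (l 16777016) (l 16776408)))))) (b (l 3) (b (a (c (l 209010557959) (a (b (a (a (l 16777368) (l 312089772343)) (l 466171724215)) (l 16777040)) (b (l 3) (b (l 442549404071) (l 166060884311))))) (l 3)) (c (c (l 16777648) (l 16777648)) (a (l 16776776) (b (a (b (l 410337149319) (l 116131889511)) (l 3)) (a (l 16777008)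 (a (l 16777336) (l 329269641655)))))))))) (l 3)) (l 3)), by decide +kernel⟩

def k10_pp_022_s : ∃ t, chk3 f_pp_022_s t 35 537 1 = true :=
  ⟨(a (a (c (a (l 16773288) (c (l 16775224) (l 16775224))) (a (c (l 16773296) (l 16773304)) (c (l 16775144) (b (a (l 16775272) (c (l 16776232) (l 16776232))) (l 16774712))))) (a (b (b (a (a (c (l 16777184) (b (a (a (l 16777160) (l 295446774167)) (l 664813961543)) (b (a (l 16777032) (l 266992615815)) (l 16777016)))) (c (l 640117899895) (c (l 653002801783) (l 662129607271)))) (l 3)) (c (a (l 16777576) (l 612737483655)) (a (a (l 16776696) (a (a (l 16776992) (b (l 209547428231) (l 16776984))) (b (l 483351593559) (a (l 16777104) (l 176261431655))))) (a (a (a (l 600926323031) (l 3)) (l 3)) (l 3))))) (c (a (l 16776152) (b (a (l 16777112) (l 460266144919)) (l 16776848))) (a (c (l 16776152) (l 16776152)) (b (c (a (l 16777112) (l 472614175815)) (b (a (a (l 16777304) (l 426443276839)) (l 3)) (a (l 16777168) (c (l 457044919031) (l 576230261079))))) (a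 (l 16776616) (b (a (l 16777096) (a (l 292762419607) (l 546702361063))) (l 16777128))))))) (b (l 3) (a (a (a (c (l 567640326791) (b (l 3) (a (b (l 3) (l 258939552119)) (l 642802254215)))) (l 3)) (l 3)) (l 3))))) (l 3)), by decide +kernel⟩

def k11_pp_022_s : ∃ t, chk3 f_pp_022_s t 70 269 1 = true :=
  ⟨(b (a (c (a (l 16771192) (l 16773128)) (a (l 16771208) (c (l 16773136) (l 16773144)))) (a (c (l 16775104) (c (l 16775064) (b (a (l 16775112) (l 16776072)) (l 16774544)))) (b (a (a (c (l 16776792) (b (a (l 16776936) (b (a (l 204178719111) (l 461876756919)) (l 16777040))) (l 16776528))) (b (a (b (l 3) (c (l 16777248) (a (l 159618433415) (l 428053889431)))) (l 3)) (c (l 16777000) (a (l 16776888) (b (a (l 16777352) (l 393694151031)) (l 16777000)))))) (b (l 3) (b (l 3) (c (l 392620410231) (a (a (a (l 16777168) (l 317458481591)) (l 3)) (l 3)))))) (c (b (a (l 16776248) (a (l 16776968) (l 327122158679))) (l 16776208)) (b (a (l 16776248) (a (a (l 16776848) (a (l 16777024) (b (l 280414388631)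 (l 16777016)))) (b (l 660518994391) (a (a (l 16777136) (l 232632877463)) (l 511805751911))))) (c (l 16776208) (a (l 16775728) (a (l 16776448) (a (l 16776808) (b (l 16777408) (l 16776912))))))))))) (a (c (l 16770064) (a (l 16769120) (l 16771048))) (c (a (l 16772968) (l 16774896)) (a (c (l 16772976) (l 16772976)) (b (a (l 16774944) (a (l 16775664) (l 16776144))) (l 16774416)))))), by decide +kernel⟩

def k12_pp_022_s : ∃ t, chk3 f_pp_022_s t 71 269 1 = true :=
  ⟨(a (a (b (b (l 3) (b (l 3) (a (c (l 503752688151) (a (b (l 610589999511) (c (l 16777232) (a (l 16777144) (l 442549404199)))) (l 3))) (l 3)))) (b (b (a (b (c (l 177335174311) (c (l 176798302663) (a (l 16777008) (l 576767132007)))) (c (l 16776984) (a (l 16776752) (a (l 16777104) (a (l 302426096039) (l 3)))))) (l 3)) (a (c (l 16776600) (c (l 16776600) (c (l 16776600) (l 16776680)))) (a (c (l 16777584) (c (l 240149070727) (b (c (l 406579053335) (l 541333651751)) (a (l 16777064) (l 297594257927))))) (l 3)))) (c (a (l 16775808)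 (c (l 16777416) (l 16777416))) (a (l 16775816) (a (c (l 16776536) (l 16776536)) (b (c (l 16777544) (b (a (l 266992615911) (l 3)) (a (l 16777024) (l 243907166647)))) (l 16776752))))))) (a (b (l 3) (b (l 3) (b (l 3) (a (c (l 16777184) (c (l 16777184) (b (a (l 191293817319) (l 3)) (a (l 16776976) (l 156934078935))))) (c (l 647097221767) (c (l 662129607287) (l 668035187319))))))) (l 3))) (l 3)), by decide +kernel⟩

def k13_pp_022_s : ∃ t, chk3 f_pp_022_s t 70 135 1 = true :=
  ⟨(c (a (b (l 16766920) (l 16762720)) (b (b (l 16772160) (l 16769736)) (l 16766584))) (b (a (c (l 16766944) (l 16766960)) (a (a (l 16769352) (l 16770320)) (b (l 16772888) (l 16770712)))) (a (l 16762752) (c (l 16766600) (l 16766616))))), by decide +kernel⟩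

def k14_pp_022_s : ∃ t, chk3 f_pp_022_s t 142 135 1 = true :=
  ⟨(b (c (a (b (l 16774720) (l 16772616)) (b (b (a (l 16777336) (a (a (l 195051914455) (l 330880255383)) (l 598241968983))) (a (l 16775632) (l 16776592))) (l 16774536))) (b (b (a (a (l 16774768) (l 16775728)) (b (c (a (l 16776928) (l 643339125607)) (a (a (l 16776704) (b (a (l 16777344) (l 523080040983)) (l 16777296))) (a (l 629380481591) (l 3)))) (a (l 16776424) (b (a (a (l 16777472) (l 421074567767)) (l 3)) (c (l 174650819655) (a (l 16777008) (l 573009035607))))))) (a (l 16774200) (a (l 16775640) (b (a (l 16776616) (a (l 16776976) (b (l 349133865527) (l 16777080)))) (l 16776328))))) (a (l 16772632) (c (l 16774544) (b (l 16775072) (l 16774024)))))) (a (c (l 16769464) (l 16769808)) (c (l 16771384) (b (l 16772448) (l 16770344))))), by decide +kernel⟩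

def k15_pp_022_s : ∃ t, chk3 f_pp_022_s t 143 135 1 = true :=
  ⟨(b (b (a (a (b (l 3) (a (a (c (l 16777808) (b (c (l 16777528) (l 534354329895)) (l 16776928))) (b (l 3) (c (l 16777152) (b (a (l 16777384) (l 456508047783)) (l 16777040))))) (a (c (l 541870522951) (c (l 552071070263) (c (l 560661004855) (b (l 3) (l 496773365991))))) (l 3)))) (l 3)) (l 3)) (a (a (c (l 16776304) (c (l 16775976) (a (l 16775736) (b (a (l 16776624) (b (b (l 206326202871) (l 16776992)) (l 16776600))) (l 16775688))))) (b (b (b (l 3) (a (a (c (l 16777208) (l 176261431767)) (l 3)) (l 3))) (c (l 146733532487) (a (a (l 16776832) (b (l 145122918839) (l 16776944))) (a (b (l 530596233799) (l 16777336)) (l 625622385063))))) (c (l 16776408) (a (l 16776168) (a (l 16776528) (b (l 16777312) (l 16776504))))))) (a (b (l 3) (b (a (c (l 16777632) (a (b (l 430201373271) (l 16777128)) (l 570861551975))) (l 3)) (c (l 16777720) (a (l 16777024) (c (l 16777592) (a (b (l 363629380119) (l 16777080)) (l 536501813543))))))) (l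 3)))) (c (b (a (l 16774352) (a (l 16775784) (b (a (l 16777656) (l 295983646295)) (l 16776208)))) (a (l 16772248) (l 16774152))) (b (b (b (a (l 16775144) (a (c (l 16776576) (l 16776576)) (a (c (l 16777232) (b (l 509658267895) (a (l 16777040) (l 253570843095)))) (l 3)))) (a (l 16774616) (a (l 16776048) (a (l 16776760) (b (a (l 205789331959) (l 3)) (c (l 16777096) (l 16777464))))))) (c (l 16774784) (a (l 16773832) (c (l 16775736) (l 16775736))))) (a (l 16772256) (a (l 16773688) (l 16774800)))))), by decide +kernel⟩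

def k16_pp_022_s : ∃ t, chk3 f_pp_022_s t 8 17 1 = true :=
  ⟨(a (b (a (a (l 14) (b (l 14) (c (l 16670816) (l 16670472)))) (b (a (a (l 14) (l 16722520)) (b (a (l 16732048) (l 16736688)) (l 16725200))) (a (a (l 16678088) (l 16683016)) (l 16711296)))) (a (b (a (l 16663096) (l 16652176)) (a (l 16644688) (l 16654688))) (a (b (l 16662048) (l 16643528)) (b (l 16671744) (l 16653168))))) (b (a (b (a (b (a (l 16740848) (l 16744768)) (a (l 16732208) (l 16736328))) (b (a (l 16748672) (b (l 16754656) (l 16750448))) (a (l 16740232) (l 16744120)))) (a (b (l 16725312) (l 16716184)) (b (l 16733752) (l 16725104)))) (b (a (b (c (a (l 16756416) (l 16761584)) (a (l 16756448) (b (l 16762400) (l 16758184)))) (c (l 16749912) (a (l 16748008) (l 16751856)))) (b (a (c (b (l 16766216) (l 16762000)) (b (l 16766568) (l 16762024))) (c (b (b (l 16771096) (l 16768984)) (l 16765824)) (b (c (l 16770056) (b (l 16771112) (l 16769008))) (l 16765840)))) (c (b (l 16759696) (l 16755464)) (a (l 16755688) (b (l 16761616)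 (l 16757384)))))) (a (b (a (l 16739520) (l 16743368)) (l 16732968)) (b (c (l 16749120) (l 16749136)) (l 16740648))))) (a (b (a (l 16702232) (l 16711424)) (a (l 16662640) (l 16692896))) (b (a (b (l 16724472) (l 16715696)) (b (l 16732144) (l 16723592))) (a (l 16701920) (b (l 16715008) (l 16706048))))))), by decide +kernel⟩

def k17_pp_022_s : ∃ t, chk3 f_pp_022_s t 9 16 1 = true :=
  ⟨(a (b (l 3) (b (l 3) (a (b (l 3) (a (b (l 3) (a (a (b (b (a (a (b (l 3) (c (l 542407394503) (l 662666478199))) (l 3)) (l 3)) (b (a (c (l 264308262391) (a (b (a (l 16777352) (l 514490106471)) (l 16777384)) (l 630991094327))) (l 3)) (c (a (l 16776896) (l 596094485287)) (a (a (l 16776664) (a (l 16777016) (b (l 423222051399) (l 16777120)))) (c (l 605221290791) (a (l 593410130423) (l 3))))))) (c (b (b (a (l 16776376) (l 214916138407)) (l 16776328)) (l 16775536)) (a (b (l 16776112) (l 16775064)) (b (b (c (l 217600492183) (a (a (l 16776968) (b (l 352891961863) (l 16777072))) (c (l 560661004711) (l 564955972007))))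 (b (a (l 16776696) (a (l 16777056) (l 278803775975))) (l 16776672))) (l 16776016))))) (b (l 3) (b (b (l 3) (b (l 3) (c (l 578377745495) (a (a (a (l 221358588439) (l 3)) (l 3)) (l 3))))) (b (a (c (l 162839659879) (c (l 163376530663) (a (c (l 16776984) (l 16777312)) (a (b (l 3) (l 16777192)) (l 660518994375))))) (l 3)) (c (a (l 16776704) (l 376514283143)) (a (c (l 16776704) (c (l 16776704) (l 16776952))) (a (a (b (l 483351593543) (l 16777152)) (l 593410130311)) (l 3)))))))) (l 3))) (l 3))) (l 3)))) (l 3)), by decide +kernel⟩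

def k18_pp_022_s : ∃ t, chk3 f_pp_022_s t 72 136 1 = true :=
  ⟨(a (c (b (b (a (l 16773952) (a (l 16775384) (b (l 16777824) (l 16775800)))) (l 16773128)) (a (l 16768680) (l 16770584))) (b (b (a (c (l 16773960) (l 16773960)) (a (c (l 16775384) (l 16775384)) (b (a (c (l 16776624) (l 16776624)) (b (c (l 16777280) (a (a (l 16777488) (l 274508808759)) (l 554218553671))) (l 16776832))) (l 16775808)))) (c (l 16772800) (a (l 16771856) (l 16773752)))) (c (l 16769640) (a (l 16768696) (l 16770592))))) (a (b (b (b (a (b (l 3) (c (l 322827191879) (c (l 326048417255) (a (b (l 402284086007) (a (l 16777056) (l 279877517799))) (l 3))))) (l 3)) (c (a (l 16776744) (l 472614175287)) (b (a (a (l 16776784) (a (b (l 226190426647) (l 16777000)) (b (l 3) (l 16777376)))) (l 3)) (a (l 16776488) (a (a (l 16777400) (b (l 542407393863) (l 16777176))) (l 637970416183)))))) (c (c (l 16776304) (l 16776304)) (c (b (l 16776176) (l 16775120)) (b (a (l 16775704) (a (l 16776408) (a (l 16776768) (b (a (l 16777512)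 (l 298667999831)) (l 16776736))))) (l 16775120))))) (c (l 16772480) (c (l 16772480) (b (l 16773544) (l 16771432))))) (b (b (l 3) (a (b (b (a (c (l 465634854023) (l 586430808567)) (l 3)) (c (l 215453009319) (a (a (l 16776976) (b (l 344838898231) (l 16777080))) (c (l 428053890103) (l 559587262887))))) (c (l 16776544) (a (l 16776304) (a (l 16776656) (a (l 16777120) (b (l 158007820871) (l 16776688))))))) (b (l 3) (b (c (l 428053890743) (c (l 556902908551) (a (l 523080040791) (l 3)))) (c (l 16777824) (c (l 16777824) (a (l 16777304) (b (l 3) (l 279877517991))))))))) (b (c (l 16775424) (c (l 16775432) (b (a (l 16775488) (c (l 16776432) (l 16776592))) (l 16774904)))) (c (l 16773312) (l 16773320)))))), by decide +kernel⟩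

def k19_pp_022_s : ∃ t, chk3 f_pp_022_s t 73 136 1 = true :=
  ⟨(b (l 3) (b (a (a (b (a (c (a (l 16777096) (l 241759684087)) (a (b (a (a (l 167671497287) (l 297057387207)) (l 466171724647)) (l 16776872)) (b (l 3) (b (l 437180695335) (a (l 16777088) (l 331417125399)))))) (l 3)) (a (c (l 16776312) (c (l 16776312) (l 16776320))) (a (c (l 16777000) (b (c (l 16777224) (a (l 16777480) (l 350207607575))) (l 16776760))) (c (l 293299291719) (b (l 3) (a (l 16777432) (a (l 246054650487) (l 380272378583)))))))) (a (c (l 647634093927) (c (l 660518995783) (b (l 3) (c (l 666961446071) (l 671256413351))))) (l 3))) (l 3)) (b (a (a (c (l 16775728) (c (l 16775728) (l 16775736))) (a (b (c (l 252497102327) (a (a (l 16777048) (a (l 180019528263) (l 305110450903))) (l 617032450567))) (c (l 16776872) (b (a (l 16776776) (a (l 16777120) (l 377588023879))) (l 16776752)))) (a (b (l 3) (c (l 16777768) (l 561197875655))) (l 3)))) (l 3)) (a (c (a (l 16774672) (a (l 16776088) (l 91972698487))) (a (l 16774672)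 (a (l 16776088) (b (c (l 196662527255) (a (l 16777536) (l 530059362679))) (c (l 16776768) (l 16777096)))))) (b (l 3) (a (c (l 570324681879) (a (c (l 414095246871) (a (l 493552140567) (l 3))) (l 3))) (l 3))))))), by decide +kernel⟩

def k20_pp_022_s : ∃ t, chk3 f_pp_022_s t 36 137 1 = true :=
  ⟨(b (a (a (c (l 16765408) (l 16765416)) (c (l 16769200) (a (l 16768256) (l 16770152)))) (a (c (b (a (l 16773088) (l 16774968)) (l 16771912)) (c (b (l 16774032) (l 16771912)) (b (a (l 16773088) (c (l 16774976) (l 16774976))) (l 16771920)))) (a (c (b (b (a (l 16778200) (l 517711332087)) (l 16776984)) (l 16774728)) (b (b (b (a (a (l 16776936) (b (l 496773366647) (l 217600492247))) (l 3)) (a (l 16776648) (a (a (l 175724561079) (l 405505311591)) (l 3)))) (a (l 16775848) (a (l 16776552) (b (a (l 16777480) (l 343765156679)) (l 16776760))))) (c (l 16774736) (l 16774736)))) (b (b (l 3) (b (l 3) (c (l 504289559383) (a (a (a (l 16777096) (l 278803776311)) (l 653539672647)) (l 3))))) (b (c (a (l 16776672)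 (l 297594258967)) (a (a (l 16776432) (a (l 16776784) (b (l 219211105031) (l 16776752)))) (b (c (l 629917352727) (l 622401159959)) (c (l 16777904) (a (l 16777576) (l 562808488359)))))) (c (l 16776080) (a (l 16775608) (a (l 16776312) (b (l 16777528) (l 16776512)))))))))) (a (a (l 16761832) (a (l 16764016) (l 16766560))) (c (a (l 16768736) (b (l 16773552) (l 16771432))) (a (c (l 16768736) (l 16768744)) (c (b (l 16773552) (l 16771432)) (b (a (l 16772616) (l 16774488)) (l 16771432))))))), by decide +kernel⟩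

def k21_pp_022_s : ∃ t, chk3 f_pp_022_s t 37 68 1 = true :=
  ⟨(b (l 3) (a (a (b (b (l 3) (b (l 3) (a (a (c (l 256255198567) (a (b (a (l 327659029335) (l 3)) (l 16776976)) (a (b (l 3) (l 266455745319)) (l 648707834599)))) (l 3)) (l 3)))) (a (b (a (c (l 16775888) (a (l 16775656) (b (l 16776656) (l 16775592)))) (b (c (l 206863075287) (a (b (a (l 205252461303) (l 437717566359)) (l 16776856)) (a (b (l 3) (l 16777512)) (l 565492843079)))) (c (l 16776296) (l 16776296)))) (c (l 16774232) (c (l 16774232) (l 16774240)))) (b (b (l 3) (c (a (l 162839660359) (l 630454224007)) (a (c (l 176261432823) (a (b (l 205252460695) (l 16776728)) (b (l 3) (l 161229046487)))) (c (l 644949738615) (l 651392189543))))) (b (c (a (l 16776168) (l 113984407479)) (a (l 16776168) (c (l 16778032) (b (a (l 16777768) (l 573545906631)) (l 16777160))))) (c (l 16775568) (c (l 16775568) (l 16775568))))))) (a (b (l 3) (b (l 3) (c (a (b (l 571935294423) (l 16776936)) (l 564419102135)) (c (b (l 619179935223) (a (l 16776936)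 (l 538649297687))) (b (a (a (l 574082777767) (l 3)) (l 3)) (b (a (a (l 16776992) (l 357186929655)) (l 3)) (a (l 16776704) (a (l 301352354791) (l 3))))))))) (l 3))) (l 3))), by decide +kernel⟩

def k22_pp_022_s : ∃ t, chk3 f_pp_022_s t 36 69 1 = true :=
  ⟨(a (b (c (a (l 16754824) (l 16758616)) (a (l 16754832) (l 16758616))) (c (l 16748272) (l 16748248))) (b (c (a (l 16763696) (b (l 16768248) (l 16764024))) (a (b (l 16764504) (l 16760256)) (b (c (l 16768256) (l 16768256)) (l 16764016)))) (c (a (l 16753936) (l 16757680)) (a (l 16753904) (l 16757656))))), by decide +kernel⟩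

def k23_pp_022_s : ∃ t, chk3 f_pp_022_s t 74 69 1 = true :=
  ⟨(b (a (c (b (a (l 16771056) (l 16772920)) (l 16767752)) (b (c (a (l 16771056) (l 16772920)) (a (l 16771056) (b (l 16773976) (l 16771856)))) (c (l 16767744) (l 16767744)))) (a (c (b (b (c (l 16777152) (l 16775848)) (l 16773712)) (l 16770528)) (b (b (b (c (l 16776376) (b (a (l 16776168) (a (l 16776864) (l 258939552647))) (l 16776104))) (l 16775304)) (l 16773712)) (l 16771184))) (b (b (a (b (a (b (l 3) (c (l 16777208) (a (l 16777136) (l 306721063831)))) (l 3)) (c (l 16776696) (a (l 16776464) (a (l 16776816) (b (l 249275876151) (l 16776776)))))) (b (l 3) (c (l 301352356199) (a (b (l 506973914359) (l 91435828135)) (l 606295032567))))) (c (l 16775568) (c (l 16775568) (b (a (l 16775632) (l 16776896)) (l 16775032))))) (c (l 16772376) (c (l 16772376) (l 16773032)))))) (c (a (l 16761400) (b (l 16767208) (l 16762952))) (a (b (l 16763496) (l 16759248)) (b (c (l 16767200) (l 16767192)) (l 16762936))))), by decide +kernel⟩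

def k24_pp_022_s : ∃ t, chk3 f_pp_022_s t 75 69 1 = true :=
  ⟨(b (a (b (b (l 3) (a (a (b (c (l 256792070311) (a (b (l 388862313623) (l 16776984)) (b (l 3) (l 333027738759)))) (c (l 16776424) (l 16776752))) (b (l 3) (c (l 203641849975) (b (c (l 360408155719) (l 501605204407)) (a (l 16776856) (l 232096007191)))))) (l 3))) (b (a (c (l 16775288) (c (l 16775288) (l 16775288))) (b (c (a (l 16778216) (l 621864289367)) (b (a (a (l 186461979575) (l 654076543559)) (l 3)) (a (c (l 16776936) (l 16777584)) (l 622938030839)))) (c (l 16778232) (a (l 16776144) (a (l 16777488) (b (l 414632117447) (l 16777024))))))) (c (l 16774408) (c (l 16774080) (a (l 16773160) (l 16775008)))))) (b (l 3) (b (b (l 3) (a (a (a (c (l 416242730839) (l 544018006647)) (l 3)) (l 3)) (l 3))) (b (a (c (a (l 16776904) (l 390472927559)) (b (a (a (l 16776960) (l 299204871335)) (l 3)) (a (l 16776656) (a (l 250886489159) (l 3))))) (l 3)) (a (c (l 16776320) (a (l 16775856) (a (l 16776544) (b (l 205789332439) (l 16776736)))))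 (c (l 515026977863) (a (a (b (l 3) (l 16777824)) (l 635822932807)) (l 3)))))))) (c (b (a (a (l 16769960) (l 16771800)) (b (a (l 16774712) (a (l 16776096) (b (l 274508810487) (l 16776480)))) (l 16773496))) (a (l 16766624) (l 16770280))) (b (b (b (a (l 16772808) (a (l 16775248) (a (c (l 16776632) (l 16776632)) (a (b (l 426980148455) (l 16777040)) (l 551534199431))))) (a (l 16771416) (c (l 16775096) (a (l 16774176) (l 16776016))))) (a (l 16769816) (a (l 16772576) (l 16774416)))) (a (l 16766616) (c (l 16770288) (l 16770944)))))), by decide +kernel⟩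

def k25_pp_022_s : ∃ t, chk3 f_pp_022_s t 18 35 1 = true :=
  ⟨(a (b (a (b (l 16741744) (l 16731256)) (b (c (l 16747360) (l 16747280)) (l 16738808))) (a (b (l 16722672) (l 16714000)) (b (l 16730224) (l 16721552)))) (b (a (c (b (a (l 16752920) (l 16756576)) (l 16746232)) (b (a (l 16752856) (l 16756536)) (l 16746144))) (c (b (a (l 16760224) (l 16766488)) (l 16753480)) (b (a (l 16761512) (b (l 16766000) (l 16761704))) (a (l 16751616) (l 16755256))))) (a (b (l 16737592) (l 16728912)) (b (c (l 16744864) (l 16744800)) (l 16741376))))), by decide +kernel⟩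

def k26_pp_022_s : ∃ t, chk3 f_pp_022_s t 19 34 1 = true :=
  ⟨(b (l 3) (a (b (l 3) (a (b (a (b (b (l 3) (a (a (c (l 219211106487) (c (l 224579815271) (c (l 233169749703) (b (l 525764395511) (l 122574341175))))) (l 3)) (l 3))) (c (b (a (a (l 16776328) (l 16778472)) (l 636359804551)) (a (l 16775712) (a (l 16777048) (l 447918115255)))) (b (a (a (l 16776328) (b (a (l 16777712) (l 3)) (l 16777784))) (a (l 642802254919) (l 3))) (a (l 16775712) (a (a (l 16776856) (b (l 427517019367) (l 16777040))) (c (l 456508049623) (l 581062099847))))))) (l 3)) (b (a (a (c (l 16774104) (l 16774104)) (c (l 16777256) (c (l 16775944) (a (l 16775480) (a (l 16776168) (b (l 134385500791) (l 16776088))))))) (a (b (c (l 547776103671) (a (c (l 394767894663) (l 526301266631)) (l 3))) (c (c (l 169818981591) (l 167671499255)) (c (a (l 16776776) (l 331417126999)) (a (l 16777432) (c (l 341080803255) (l 478519755239)))))) (l 3))) (c (a (l 16772872) (a (l 16775616) (a (a (l 16776744) (l 159618435575)) (l 452749951703))))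 (b (a (l 16773824) (a (c (l 16776160) (l 16776160)) (a (c (l 271287584727) (c (l 282025002791) (l 423758922007))) (l 3)))) (a (l 16772336) (a (l 16775080) (a (l 16776456) (b (l 364166252263) (l 16777888))))))))) (l 3))) (l 3))), by decide +kernel⟩

def k27_pp_022_s : ∃ t, chk3 f_pp_022_s t 38 70 1 = true :=
  ⟨(b (a (c (a (b (l 16769648) (l 16765352)) (b (a (l 16772384) (l 16774208)) (l 16768984))) (a (b (c (l 16769656) (l 16769656)) (l 16765352)) (b (b (a (l 16773464) (l 16775296)) (l 16772720)) (c (l 16768992) (l 16768992))))) (a (b (c (b (a (a (l 16777960) (c (l 247128393991) (l 244980910999))) (l 603610679255)) (a (l 16774952) (a (l 16776328) (a (l 16776968) (l 225116687047))))) (b (b (a (a (a (l 16776960) (a (l 209010558279) (l 338933319127))) (l 625085514759)) (l 3)) (a (a (l 16776120) (a (l 16776816) (l 181093270343))) (a (l 547239232311) (l 3)))) (a (l 16774960) (b (c (l 185925110327) (a (l 16776856) (l 500531462743))) (c (l 16776248) (l 16776248)))))) (c (a (l 16771704)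 (l 16773528)) (c (l 16772624) (b (l 16773712) (l 16771544))))) (a (b (a (b (l 3) (b (l 3) (c (l 302962968727) (a (l 228337911415) (l 476909143863))))) (l 3)) (c (b (c (l 16778392) (l 16777736)) (l 16774256)) (b (a (l 16775984) (b (a (l 160692176215) (l 362555639591)) (l 16776352))) (l 16774264)))) (b (l 3) (b (b (l 3) (c (l 282025004215) (a (a (l 16777016) (l 278266906295)) (l 642265383991)))) (c (l 16776088) (a (l 16775632) (a (l 16776312) (b (l 204715591111) (l 16776216)))))))))) (b (a (c (l 16762856) (a (l 16761040) (l 16764672))) (c (a (l 16768280) (l 16771904)) (a (l 16768296) (c (l 16771912) (l 16772168))))) (a (c (l 16758536) (l 16758536)) (c (l 16767704) (a (l 16763952) (l 16767568)))))), by decide +kernel⟩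

def k28_pp_022_s : ∃ t, chk3 f_pp_022_s t 39 70 1 = true :=
  ⟨(b (a (b (l 3) (b (l 3) (a (a (a (c (l 218674236375) (b (l 559587263319) (l 16778200))) (c (l 563345360135) (c (l 573009036535) (l 557439780055)))) (l 3)) (l 3)))) (l 3)) (a (b (b (a (a (c (l 16775720) (c (l 16775720) (l 16775728))) (a (c (l 130627406583) (c (l 16778320) (b (l 310479161335) (l 16776536)))) (b (l 3) (c (l 16777296) (a (l 16777168) (l 367387477767)))))) (l 3)) (a (c (l 16774440) (c (l 16774448) (l 16774448))) (b (a (c (l 280414391463) (a (c (l 16777160) (l 190220076551)) (l 640654771223))) (l 3)) (a (c (l 16776624) (c (l 16776624) (l 16777928))) (c (l 571935294823) (l 575693391159)))))) (c (a (l 16771152) (b (a (l 16774960) (c (l 89288346535) (l 16778048))) (l 16773672))) (b (a (l 16772264) (a (l 16774976) (a (l 16777320) (b (l 355039447383) (l 16776688))))) (a (l 16770080) (l 16773688))))) (b (l 3) (a (b (a (c (l 524690654711) (c (l 530059363799) (b (l 3) (l 496773366615)))) (l 3)) (a (c (l 16779024)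 (a (l 16775944) (b (l 219211106295) (l 16776296)))) (b (l 3) (c (l 266455747671) (a (l 152639112999) (l 617032451015)))))) (l 3))))), by decide +kernel⟩

def k29_pp_022_s : ∃ t, chk3 f_pp_022_s t 19 71 1 = true :=
  ⟨(a (c (a (b (l 16752040) (l 16743312)) (b (a (l 16757400) (l 16760984)) (l 16750424))) (a (b (l 16752032) (l 16743304)) (b (a (l 16757432) (l 16761024)) (l 16750472)))) (b (a (c (a (l 16764568) (b (l 16770360) (l 16765944))) (a (b (l 16766800) (l 16762416)) (b (l 16771712) (l 16766000)))) (b (b (a (c (l 16776400) (c (l 16775096) (a (l 16774200) (l 16777312)))) (a (a (c (l 189683207159) (b (l 401747216711) (l 16776800))) (c (l 517174461559) (l 518785074247))) (l 3))) (c (a (l 16772864) (a (l 16775576) (c (l 196662529495) (l 193978174919)))) (a (l 16772888) (a (l 16775592) (c (l 190756949431) (b (l 471540433623) (l 16778128))))))) (c (a (l 16769536) (l 16773136)) (a (l 16769584) (c (l 16773160) (l 16773176)))))) (a (c (b (l 16759736) (l 16755304)) (b (l 16759808) (l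 16755392))) (c (b (l 16769504) (l 16762416)) (b (a (l 16765160) (l 16768736)) (l 16765136)))))), by decide +kernel⟩

def k30_pp_022_s : ∃ t, chk3 f_pp_022_s t 5 8 1 = true :=
  ⟨(a (b (l 3) (b (l 3) (a (b (l 3) (a (b (a (b (a (a (b (l 3) (c (l 643875997863) (l 649781577815))) (l 3)) (l 3)) (b (a (a (c (l 119889989191) (a (l 16777840) (b (l 425906407831) (l 16776864)))) (c (l 573545907895) (c (l 583746455175) (l 585893938791)))) (l 3)) (b (a (c (l 16778832) (c (l 16776216) (a (l 16775304) (l 132774889783)))) (l 3)) (a (c (l 16775072) (l 16775088)) (a (c (l 295983648007) (c (l 16778784) (l 298668002199))) (l 3)))))) (l 3)) (a (c (b (a (l 16772264) (a (l 16774976) (b (l 276656296407) (l 16775648)))) (a (l 16767760) (l 16771352))) (b (c (a (l 16772296) (b (a (l 16776112) (l 277193166791)) (l 16774760))) (a (l 16772320) (b (a (l 16776120) (b (l 612737484071) (l 188609464903))) (l 16774776)))) (a (l 16767848) (c (l 16771392) (l 16771424))))) (b (b (l 3) (a (a (c (l 196662530247) (b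 (c (l 16778600) (l 357723802647)) (l 16778184))) (l 3)) (l 3))) (a (a (c (l 16774048) (l 16774080)) (c (b (l 16778904) (l 16774712)) (b (a (l 16776560) (a (l 153175984647) (l 267529489303))) (l 16774744)))) (c (b (l 592873261719) (a (l 16776528) (l 338933322887))) (b (a (l 575693391479) (l 3)) (c (a (l 16776544) (l 344838902215)) (a (l 16778512) (l 479593497655))))))))) (l 3))) (l 3)))) (l 3)), by decide +kernel⟩

def k31_pp_022_s : ∃ t, chk3 f_pp_022_s t 4 9 1 = true :=
  ⟨(b (a (a (a (b (a (l 16621632) (l 16631480)) (l 16612832)) (b (b (l 16653072) (l 16638608)) (b (l 16623616) (l 16608136)))) (b (a (b (l 16671832) (l 16657136)) (b (a (l 16685408) (l 16694144)) (l 16674824))) (a (b (l 16641896) (l 16626096)) (b (l 16656984) (l 16639608))))) (b (a (a (b (a (l 16702488) (l 16711560)) (a (l 16683792) (l 16690000))) (b (a (b (l 16720840) (l 16711904)) (b (l 16727944) (l 16719184))) (a (l 16696736) (l 16704240)))) (b (b (a (a (l 16734984) (c (l 16741984) (l 16741984))) (a (c (l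 16748936) (l 16749008)) (c (l 16761144) (b (l 16758144) (l 16753896))))) (a (a (l 16726424) (l 16733608)) (a (l 16743344) (c (l 16747488) (l 16747584))))) (a (a (l 16711656) (c (l 16718344) (l 16719776))) (a (c (l 16725768) (l 16727000)) (c (l 16733128) (l 16734168)))))) (a (a (b (l 16668808) (l 16651680)) (b (a (l 16678096) (l 16684768)) (l 16675880))) (a (b (a (l 16692224) (l 16699816)) (a (l 16673856) (l 16681024))) (b (a (l 16707368) (l 16720120)) (a (l 16688792) (l 16696560))))))) (a (a (a (b (l 16565512) (l 16531696)) (b (l 16583936) (l 16549592))) (b (a (l 16601416) (b (l 16622952) (l 16607008))) (a (l 16566280) (l 16581696)))) (a (b (a (b (l 16635296) (l 16619664)) (b (l 16647944) (l 16632648))) (a (l 16595792) (l 16629304))) (b (a (b (l 16671384) (l 16645904)) (b (a (l 16671144) (l 16678680)) (l 16659136))) (a (l 16641328) (l 16658520)))))), by decide +kernel⟩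

def k32_pp_022_s : ∃ t, chk3 f_pp_022_s t 20 36 1 = true :=
  ⟨(b (a (b (a (c (a (l 16761144) (l 16767280)) (c (l 16765624) (b (l 16765232) (l 16760888)))) (c (b (a (l 16770424) (b (l 16775136) (l 16772864))) (l 16770352)) (b (a (l 16770504) (c (l 16774032) (b (l 16775176) (l 16772936)))) (a (l 16766088) (l 16769584))))) (a (c (l 16754256) (l 16754416)) (c (b (l 16763296) (l 16758888)) (c (l 16761224) (l 16761304))))) (b (a (a (b (b (a (c (l 260550169287) (b (l 432348860279) (l 168745241511))) (l 3)) (a (a (l 16775112) (l 16776992)) (c (l 176261435623) (a (l 16776872) (l 275045682807))))) (c (l 16773032) (l 16773336))) (b (b (l 3) (c (l 627769871399) (l 630991095399))) (a (b (c (l 16776808) (a (l 16776416) (l 166597758183))) (l 16774576)) (c (b (l 416779605351) (l 16776344)) (b (l 516100720055) (l 16776360)))))) (b (l 3) (b (l 3) (a (a (c (l 300278617143) (c (l 305110454647) (l 309942292823))) (l 3)) (l 3))))) (a (c (a (l 16766264) (b (l 16772024) (l 16767464))) (a (c (l 16766376)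 (l 16766448)) (b (l 16772104) (l 16767616)))) (b (a (a (c (l 16774664) (l 16774712)) (b (c (l 211158045383) (a (l 16778392) (l 327122161495))) (l 16775304))) (b (l 3) (c (a (l 16776992) (l 447381247607)) (c (l 234780366951) (a (l 131164278167) (l 608442516551)))))) (c (a (l 16770960) (l 16777776)) (a (l 16771072) (c (l 16774536) (a (l 16773688) (l 16775424))))))))) (b (a (a (c (l 16745160) (l 16745856)) (c (l 16752272) (l 16752536))) (a (c (l 16764200) (c (l 16759176) (l 16759320))) (c (a (l 16764088) (l 16767592)) (a (l 16764328) (c (l 16767728) (l 16767816)))))) (a (a (l 16736224) (c (l 16743104) (l 16743784))) (a (c (l 16749912) (l 16750368)) (c (l 16756704) (l 16757088)))))), by decide +kernel⟩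

def k33_pp_022_s : ∃ t, chk3 f_pp_022_s t 21 36 1 = true :=
  ⟨(b (a (b (l 3) (a (b (l 3) (a (c (b (l 501068335207) (a (l 16775984) (l 16779376))) (b (b (l 3) (l 485499077671)) (c (l 16779384) (a (l 16776008) (l 242833428519))))) (l 3))) (l 3))) (l 3)) (a (a (b (b (a (c (l 16773400) (l 16773464)) (b (a (c (l 16777080) (l 149954760583)) (c (l 464024245815) (l 628306739863))) (c (l 16775744) (l 16778640)))) (c (l 16770544) (a (l 16768944) (l 16772360)))) (c (l 16766272) (c (l 16763832) (l 16763952)))) (a (b (a (b (c (l 547239234023) (l 588041421399)) (c (l 16774880) (l 16774920))) (b (l 3) (c (l 82309027863) (b (l 239075332679) (l 16775480))))) (c (l 16768824) (l 16768968))) (b (b (l 3) (b (l 3) (c (l 240149076951) (a (l 16779688) (l 654076542743))))) (b (a (l 16773728) (c (l 16775424) (l 16775456))) (l 16771312))))) (b (l 3) (a (b (a (c (b (l 506973914695) (l 16776736)) (b (l 557439778231) (c (l 16776728) (l 112910663207)))) (l 3)) (a (c (l 16773352) (l 16773416)) (a (c (l 16775888)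 (l 16778520)) (b (a (l 401747219223) (l 3)) (l 16779048))))) (b (l 3) (a (c (l 579451487207) (l 631527962647)) (l 3))))))), by decide +kernel⟩

def k34_pp_022_s : ∃ t, chk3 f_pp_022_s t 10 37 1 = true :=
  ⟨(a (a (b (a (c (l 16721768) (l 16723032)) (c (l 16729248) (l 16730224))) (a (l 16704184) (l 16711696))) (b (a (c (l 16736328) (l 16737064)) (b (a (l 16746152) (l 16749560)) (l 16738816))) (a (l 16723928) (c (l 16724736) (l 16725752))))) (b (b (a (a (c (l 16754472) (l 16754880)) (c (l 16761328) (l 16761592))) (a (c (b (l 16770432) (l 16765808)) (b (l 16770528) (l 16765976))) (b (b (a (c (l 16776568) (l 39359353831)) (l 691657505751)) (a (l 16774344) (a (l 81235284247) (l 384030477591)))) (c (l 16772528) (a (l 16770936) (l 16774224)))))) (a (a (l 16745584) (c (l 16752112) (l 16752528))) (a (c (l 16758872) (l 16759152)) (c (l 16765576) (l 16768344))))) (a (a (c (l 16731520) (l 16732360)) (c (l 16738288) (l 16738944))) (a (b (l 16749832) (l 16740632)) (b (a (l 16754784) (l 16758072))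 (l 16747216)))))), by decide +kernel⟩

def k35_pp_022_s : ∃ t, chk3 f_pp_022_s t 11 18 1 = true :=
  ⟨(b (l 3) (a (a (b (b (a (b (l 3) (a (a (c (l 16776584) (l 92509573495)) (b (l 3) (l 135459246775))) (c (l 673403894887) (l 709374242679)))) (l 3)) (a (a (c (l 16770544) (l 16770616)) (b (b (a (l 16776472) (l 282025006903)) (l 16775000)) (l 16771536))) (a (c (b (l 534354328647) (l 16774776)) (b (l 532743713975) (l 16774800))) (b (l 3) (c (l 204715599399) (a (l 145659795831) (l 342691422247))))))) (b (a (c (l 16762912) (l 16763056)) (c (l 16769432) (b (l 16771792) (l 16767176)))) (a (l 16758984) (c (l 16760144) (l 16760248))))) (b (a (l 3) (l 3)) (b (a (a (b (b (c (l 16777056) (l 204178725543)) (l 16775416)) (l 16771936)) (b (c (l 573009033095) (l 610053124007)) (c (l 16775096) (l 16775112)))) (a (c (l 529522482935) (c (l 568714062823) (l 586967667287))) (l 3))) (a (c (l 16766560) (l 16766584)) (c (b (l 19495136487) (l 16770536)) (b (a (l 16773608) (c (l 16776584) (l 16779208)))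 (l 16770528))))))) (b (l 3) (a (b (l 3) (a (a (b (c (l 392083549271) (l 630454217879)) (l 16775176)) (c (l 541333647287) (l 573009028727))) (l 3))) (l 3))))), by decide +kernel⟩

def k36_pp_022_s : ∃ t, chk3 f_pp_022_s t 5 19 1 = true :=
  ⟨(a (b (a (a (b (a (l 16686480) (l 16693984)) (l 16673008)) (b (a (l 16700520) (l 16706984)) (l 16685384))) (a (b (a (l 16713616) (l 16720224)) (a (l 16695152) (l 16701720))) (a (b (l 16726808) (l 16708272)) (b (l 16743848) (l 16714800))))) (a (a (b (l 16654144) (l 16634432)) (b (l 16666856) (l 16647656))) (b (a (l 16679888) (l 16692952)) (a (l 16661224) (l 16674352))))) (b (a (a (b (a (c (l 16739720) (l 16740000)) (c (l 16746232) (l 16746360))) (a (l 16721280) (l 16727712))) (a (b (c (l 16763144) (b (l 16757296) (l 16747976))) (l 16747184)) (b (b (a (l 16762000) (l 16765120)) (l 16754280)) (l 16750848)))) (b (a (b (b (a (l 16772072) (a (a (l 16775856) (l 16779688)) (l 377051163223))) (a (l 16767424) (l 16773496))) (a (l 16760464) (l 16766544)))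 (a (b (c (l 563882222919) (l 593410120231)) (c (l 16772480) (l 16772496))) (b (l 3) (b (a (l 340007069655) (l 3)) (c (l 16775856) (l 16775888)))))) (a (a (l 16757048) (c (l 16752672) (l 16752624))) (b (a (l 16763248) (l 16769080)) (l 16767464))))) (a (a (b (c (l 16705936) (l 16705816)) (l 16687360)) (b (c (l 16718816) (l 16718472)) (l 16700200))) (b (a (c (l 16731208) (l 16731048)) (b (l 16747792) (l 16738632))) (a (l 16712776) (l 16724936)))))), by decide +kernel⟩

def k37_pp_022_s : ∃ t, chk3 f_pp_022_s t 4 5 1 = true :=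
  ⟨(a (b (b (a (b (a (l 16495344) (l 16512544)) (b (l 16474520) (l 16494040))) (b (a (l 16528488) (l 16543120)) (b (l 16505392) (b (l 16488920) (l 16476496))))) (a (a (l 16393296) (l 16408632)) (a (l 16423456) (l 16436984)))) (a (b (l 16364184) (b (l 16262696) (l 16222888))) (b (a (l 16259944) (l 16357048)) (b (l 16291496) (l 16253248))))) (b (b (b (a (a (l 16556176) (l 16568312)) (a (l 16579984) (l 16591632))) (a (b (l 16530952) (b (l 16514312) (l 16502312))) (b (l 16554376) (b (l 16517136) (a (l 16520192) (l 16532920)))))) (b (a (l 16476352) (a (l 16494320) (l 16507448))) (a (a (l 16429480) (l 16442152)) (a (l 16455080) (l 16468720))))) (a (b (b (l 16354672) (l 16337024)) (a (l 16294352) (l 16309016))) (a (b (l 16439672) (l 16324144)) (b (l 16454248) (l 16340200)))))), by decide +kernel⟩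

def k38_pp_022_s : ∃ t, chk3 f_pp_022_s t 5 5 1 = true :=
  ⟨(a (b (b (b (a (a (l 16604240) (l 16617872)) (b (a (l 16641976) (l 16655656)) (a (l 16622296) (l 16636496)))) (a (b (l 16601608) (b (a (l 16557664) (l 16572120)) (a (l 16546536) (l 16540352)))) (b (l 16651824) (b (l 16595000) (a (l 16555976) (l 16592464)))))) (a (a (b (l 16521504) (l 16483368)) (b (l 16536800) (l 16499320))) (a (b (l 16552976) (l 16516216)) (b (l 16569096) (l 16533096))))) (a (b (a (l 16427968) (l 16445024)) (a (l 16357440) (l 16376232))) (b (b (l 16489400) (l 16455216)) (b (l 16421840) (l 16389224))))) (b (b (b (a (a (b (l 16668864) (l 16650240)) (b (l 16681800) (l 16663480))) (b (a (l 16694480) (l 16706744)) (a (l 16676280) (l 16688648)))) (b (b (a (l 16643072) (l 16669072)) (a (l 16633792) (l 16660408))) (b (a (l 16624512) (l 16651840)) (a (l 16636168) (l 16643536))))) (a (b (l 16613800) (a (l 16549736) (l 16566008))) (b (l 16622440) (l 16588720)))) (a (b (l 16549616) (l 16359040)) (b (l 16539712)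 (l 16413400))))), by decide +kernel⟩

def k39_pp_022_s : ∃ t, chk3 f_pp_022_s t 2 3 1 = true :=
  ⟨(b (b (a (a (b (a (l 16228312) (b (l 16215840) (l 16179328))) (a (l 16070368) (l 16126608))) (a (b (l 16229864) (l 16162408)) (b (l 16263728) (l 16198952)))) (a (b (a (l 16259344) (l 16342024)) (a (l 16238960) (l 16281232))) (a (b (l 16380864) (l 16323072)) (b (l 16417184) (l 16363208))))) (b (a (a (l 6) (a (l 16098736) (l 16137816))) (a (a (l 16179360) (l 16224664)) (a (l 16270552) (l 2)))) (a (l 6) (l 6)))) (l 6)), by decide +kernel⟩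

def k40_pp_022_s : ∃ t, chk3 f_pp_022_s t 3 4 1 = true :=
  ⟨(b (l 3) (a (b (l 3) (a (b (a (b (a (b (l 3) (a (l 633138563847) (l 3))) (l 3)) (b (a (a (c (l 16774608) (c (l 16774664) (l 16779952))) (b (l 3) (l 179482664503))) (l 3)) (a (a (l 16765592) (l 16771160)) (a (c (l 16776232) (l 155323480887)) (b (l 3) (l 304036722503)))))) (l 3)) (b (a (a (b (l 16769768) (l 16750192)) (b (c (l 16770088) (l 16770208)) (l 16771648))) (a (a (b (c (l 16776744) (l 197736284007)) (l 16768864)) (b (l 363629401527) (l 16773760))) (b (l 3) (a (l 220821715127) (l 366313755863))))) (a (a (l 16757552) (c (l 16747280) (l 16747880))) (a (b (l 16762344) (l 16753264)) (b (c (l 16771784) (l 16772048)) (l 16762856)))))) (b (l 3) (a (b (l 3) (c (a (b (l 279877545127) (l 16771928)) (l 459192384631)) (a (b (l 280951285143) (l 16772224)) (l 458655511623)))) (l 3))))) (l 3))), by decide +kernel⟩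

def k41_pp_022_s : ∃ t, chk3 f_pp_022_s t 3 5 1 = true :=
  ⟨(a (a (b (b (b (b (a (a (l 16718520) (l 16729504)) (a (l 16739568) (l 16770008))) (a (a (l 16700464) (l 16711416)) (a (l 16721264) (l 16730536)))) (b (a (a (l 16682552) (l 16693160)) (a (l 16702240) (l 16711008))) (b (a (l 16675144) (l 16714368)) (b (a (l 16669512) (l 16708872)) (a (l 16666016) (l 16684744)))))) (a (b (l 16647568) (l 16614568)) (a (l 16645944) (l 16654768)))) (b (a (l 16566368) (l 16588512)) (a (l 16442848) (l 16531216)))) (b (b (b (b (a (a (b (l 16762896) (l 16753576)) (b (l 16787480) (l 16762424))) (b (a (c (l 256255224311) (l 270213774311)) (l 3)) (a (l 16770920) (a (l 16776776) (l 270213787319))))) (a (a (l 16760472) (b (l 16752944) (l 16743424))) (b (a (l 16761384) (l 16769512)) (a (l 16751728) (l 16759736))))) (b (a (b (l 16750240) (l 16718736)) (b (a (l 16741576) (l 16749368)) (a (l 16730424) (l 2)))) (b (a (l 16709024) (a (l 16720008) (l 2))) (b (a (l 16703624) (l 16738792)) (a (l 16700144)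 (l 16714536)))))) (a (a (l 16684272) (l 16692592)) (a (l 16737448) (l 2)))) (a (b (l 16629592) (l 2)) (l 2)))) (b (b (b (b (b (l 3) (l 2)) (l 2)) (l 2)) (l 2)) (l 2))), by decide +kernel⟩

def k42_pp_022_s : ∃ t, chk3 f_pp_022_s t 3 3 1 = true :=
  ⟨(a (b (a (b (b (a (l 16429240) (l 2)) (l 2)) (l 2)) (l 2)) (l 2)) (l 2)), by decide +kernel⟩

theorem s43_pp_022_s : ∃ t, chk3 f_pp_022_s t 3 2 1 = true := ex3_b k40_pp_022_s k41_pp_022_s

theorem s44_pp_022_s : ∃ t, chk3 f_pp_022_s t 3 1 1 = true := ex3_b s43_pp_022_s k42_pp_022_s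

theorem s45_pp_022_s : ∃ t, chk3 f_pp_022_s t 2 5 1 = true := ex3_a k37_pp_022_s k38_pp_022_s

theorem s46_pp_022_s : ∃ t, chk3 f_pp_022_s t 10 36 1 = true := ex3_a k32_pp_022_s k33_pp_022_s

theorem s47_pp_022_s : ∃ t, chk3 f_pp_022_s t 10 18 1 = true := ex3_b s46_pp_022_s k34_pp_022_s

theorem s48_pp_022_s : ∃ t, chk3 f_pp_022_s t 5 18 1 = true := ex3_a s47_pp_022_s k35_pp_022_s

theorem s49_pp_022_s : ∃ t, chk3 f_pp_022_s t 5 9 1 = true := ex3_b s48_pp_022_s k36_pp_022_s

theorem s50_pp_022_s : ∃ t, chk3 f_pp_022_s t 2 9 1 = true := ex3_a k31_pp_022_s s49_pp_022_s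

theorem s51_pp_022_s : ∃ t, chk3 f_pp_022_s t 19 70 1 = true := ex3_a k27_pp_022_s k28_pp_022_s

theorem s52_pp_022_s : ∃ t, chk3 f_pp_022_s t 19 35 1 = true := ex3_b s51_pp_022_s k29_pp_022_s

theorem s53_pp_022_s : ∃ t, chk3 f_pp_022_s t 19 17 1 = true := ex3_b k26_pp_022_s s52_pp_022_s

theorem s54_pp_022_s : ∃ t, chk3 f_pp_022_s t 37 69 1 = true := ex3_a k23_pp_022_s k24_pp_022_s

theorem s55_pp_022_s : ∃ t, chk3 f_pp_022_s t 18 69 1 = true := ex3_a k22_pp_022_s s54_pp_022_s

theorem s56_pp_022_s : ∃ t, chk3 f_pp_022_s t 36 136 1 = true := ex3_a k18_pp_022_s k19_pp_022_s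

theorem s57_pp_022_s : ∃ t, chk3 f_pp_022_s t 36 68 1 = true := ex3_b s56_pp_022_s k20_pp_022_s

theorem s58_pp_022_s : ∃ t, chk3 f_pp_022_s t 18 68 1 = true := ex3_a s57_pp_022_s k21_pp_022_s

theorem s59_pp_022_s : ∃ t, chk3 f_pp_022_s t 18 34 1 = true := ex3_b s58_pp_022_s s55_pp_022_s

theorem s60_pp_022_s : ∃ t, chk3 f_pp_022_s t 18 17 1 = true := ex3_b s59_pp_022_s k25_pp_022_s

theorem s61_pp_022_s : ∃ t, chk3 f_pp_022_s t 9 17 1 = true := ex3_a s60_pp_022_s s53_pp_022_s

theorem s62_pp_022_s : ∃ t, chk3 f_pp_022_s t 9 8 1 = true := ex3_b k17_pp_022_s s61_pp_022_s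

theorem s63_pp_022_s : ∃ t, chk3 f_pp_022_s t 71 135 1 = true := ex3_a k14_pp_022_s k15_pp_022_s

theorem s64_pp_022_s : ∃ t, chk3 f_pp_022_s t 35 135 1 = true := ex3_a k13_pp_022_s s63_pp_022_s

theorem s65_pp_022_s : ∃ t, chk3 f_pp_022_s t 35 269 1 = true := ex3_a k11_pp_022_s k12_pp_022_s

theorem s66_pp_022_s : ∃ t, chk3 f_pp_022_s t 35 268 1 = true := ex3_b k9_pp_022_s k10_pp_022_s

theorem s67_pp_022_s : ∃ t, chk3 f_pp_022_s t 35 134 1 = true := ex3_b s66_pp_022_s s65_pp_022_s

theorem s68_pp_022_s : ∃ t, chk3 f_pp_022_s t 35 67 1 = true := ex3_b s67_pp_022_s s64_pp_022_s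

theorem s69_pp_022_s : ∃ t, chk3 f_pp_022_s t 35 33 1 = true := ex3_b k8_pp_022_s s68_pp_022_s

theorem s70_pp_022_s : ∃ t, chk3 f_pp_022_s t 139 133 1 = true := ex3_a k5_pp_022_s k6_pp_022_s

theorem s71_pp_022_s : ∃ t, chk3 f_pp_022_s t 69 133 1 = true := ex3_a k4_pp_022_s s70_pp_022_s

theorem s72_pp_022_s : ∃ t, chk3 f_pp_022_s t 34 133 1 = true := ex3_a k3_pp_022_s s71_pp_022_s

theorem s73_pp_022_s : ∃ t, chk3 f_pp_022_s t 34 66 1 = true := ex3_b k2_pp_022_s s72_pp_022_s

theorem s74_pp_022_s : ∃ t, chk3 f_pp_022_s t 34 33 1 = true := ex3_b s73_pp_022_s k7_pp_022_s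

theorem s75_pp_022_s : ∃ t, chk3 f_pp_022_s t 17 33 1 = true := ex3_a s74_pp_022_s s69_pp_022_s

theorem s76_pp_022_s : ∃ t, chk3 f_pp_022_s t 17 16 1 = true := ex3_b k1_pp_022_s s75_pp_022_s

theorem s77_pp_022_s : ∃ t, chk3 f_pp_022_s t 8 16 1 = true := ex3_a k0_pp_022_s s76_pp_022_s

theorem s78_pp_022_s : ∃ t, chk3 f_pp_022_s t 8 8 1 = true := ex3_b s77_pp_022_s k16_pp_022_s

theorem s79_pp_022_s : ∃ t, chk3 f_pp_022_s t 4 8 1 = true := ex3_a s78_pp_022_s s62_pp_022_s

theorem s80_pp_022_s : ∃ t, chk3 f_pp_022_s t 2 8 1 = true := ex3_a s79_pp_022_s k30_pp_022_s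

theorem s81_pp_022_s : ∃ t, chk3 f_pp_022_s t 2 4 1 = true := ex3_b s80_pp_022_s s50_pp_022_s

theorem s82_pp_022_s : ∃ t, chk3 f_pp_022_s t 2 2 1 = true := ex3_b s81_pp_022_s s45_pp_022_s

theorem s83_pp_022_s : ∃ t, chk3 f_pp_022_s t 2 1 1 = true := ex3_b s82_pp_022_s k39_pp_022_s

theorem s84_pp_022_s : ∃ t, chk3 f_pp_022_s t 1 1 1 = true := ex3_a s83_pp_022_s s44_pp_022_s

theorem c_pp_022_s : CertNE 0 536870912 1073741824 536870912 818728140 40265320 3 eng mog cd0q0 cd4q2 pd2 false true true .pp 0 2 2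
    ndB0q0 ndB4q2 pcB2 cut_pp_022_s Ext.none :=
  certNE1 (fam := false) (s1 := true) (s2 := true) (a := 0) (b := 2) (c := 2) (cn := .pp) (n1 := ndB0q0) (n2 := ndB4q2) (pc := pcB2) (cut := cut_pp_022_s) (xt := Ext.none) (P1 := 0) (W1 := 536870912) (P2 := 1073741824) (W2 := 536870912) (P3 := 818728140) (W3 := 40265320) (N0 := 3) (En := eng) (mo := mog) (C1 := cd0q0) (C2 := cd4q2) (C3 := pd2)
    rfl (fun _ => rfl) s84_pp_022_s

noncomputable def cut_pp_023_s : Cut := Cut.of [[⟨4, 0, 0, 1449551462⟩]]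

noncomputable def f_pp_023_s : ℕ → ℕ → ℕ → ℕ → Bool := onCell 1073741824 536870912 0 1230186008 818728140 40265320
    (rowNE 3 eng mog cd0q0 cd4q3 pd2 2 false true true .up 0 2 3 (qsf 0 536870912 0 1230186008 2) ndB0q0 ndB4q3 pcB2 cut_pp_023_s Ext.none)

def k0_pp_023_s : ∃ t, chk3 f_pp_023_s t 2 2 1 = true :=
  ⟨(l 2), by decide +kernel⟩

def k1_pp_023_s : ∃ t, chk3 f_pp_023_s t 4 3 1 = true :=
  ⟨(b (l 2) (b (l 2) (l 3))), by decide +kernel⟩

def k2_pp_023_s : ∃ t, chk3 f_pp_023_s t 5 6 1 = true :=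
  ⟨(a (l 2) (b (l 2) (a (l 2) (b (l 2) (l 352287744711))))), by decide +kernel⟩

def k3_pp_023_s : ∃ t, chk3 f_pp_023_s t 10 7 1 = true :=
  ⟨(b (a (a (l 3) (a (l 3) (b (l 2) (b (l 2) (a (a (l 283635664535) (l 16798096)) (a (a (l 16772744) (l 16770952)) (l 16768184))))))) (b (a (l 2) (l 278736715287)) (a (b (l 16790912) (b (l 16753840) (l 16747088))) (b (l 16711272) (b (l 16721936) (l 16713632)))))) (b (a (a (l 3) (a (a (b (l 3) (b (l 3) (c (l 240685979095) (l 272898125223)))) (b (b (l 300278662567) (b (l 289541228135) (l 16791304))) (b (a (l 16777072) (l 16769056)) (l 16765536)))) (a (b (a (b (l 16775200) (l 16768480)) (b (l 16768744) (l 16761984))) (b (l 16770776) (a (l 16754224) (l 16748208)))) (b (a (b (l 16764296) (l 16757456)) (l 16777864)) (a (b (l 16750376) (l 16743680)) (l 16764016)))))) (a (b (b (l 16740624) (l 16734312)) (b (l 16727224) (l 16721088))) (b (l 16701568) (l 16710720)))) (a (a (b (a (l 3) (a (l 3) (a (b (l 3) (l 277193190455)) (b (l 315847897367) (l 121500620199)))))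 (b (a (l 3) (a (a (l 3) (l 221358612343)) (c (l 16769688) (l 16770176)))) (a (b (l 3) (l 472077280711)) (a (a (l 125795587911) (l 16770168)) (l 16761304))))) (a (b (b (a (c (l 16772792) (l 16772952)) (l 16758344)) (a (c (l 16765088) (l 16765712)) (c (l 16750768) (l 16751568)))) (a (b (l 16757488) (l 16748984)) (b (l 16743704) (l 16735616)))) (a (b (b (c (l 16744176) (l 16744472)) (l 16758736)) (b (l 16730760) (l 16723144))) (b (a (b (l 16737336) (l 16730848)) (b (l 16733440) (l 16726928))) (a (b (l 16723848) (l 16716232)) (l 16715920)))))) (b (b (a (l 16714576) (l 16679784)) (l 16731672)) (b (l 16702200) (l 16672016)))))), by decide +kernel⟩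

def k4_pp_023_s : ∃ t, chk3 f_pp_023_s t 11 7 1 = true :=
  ⟨(b (b (b (l 201964142103) (a (l 16735328) (l 16647328))) (b (a (a (l 16702784) (l 16672112)) (l 16582920)) (a (a (l 16663104) (l 16649616)) (l 16601536)))) (b (b (a (a (l 16604864) (l 16634288)) (l 16626248)) (a (a (l 16655208) (l 16620952)) (l 16568168))) (b (a (l 16621120) (l 16525424)) (a (l 16674104) (l 16436320))))), by decide +kernel⟩

def k5_pp_023_s : ∃ t, chk3 f_pp_023_s t 3 1 1 = true :=
  ⟨(a (b (l 2) (a (b (b (l 2) (b (l 16642416) (b (l 374298913143) (l 16416792)))) (b (b (a (b (l 16610976) (l 16588048)) (l 16539640)) (b (a (l 16561448) (l 16500952)) (a (l 16538160) (l 16475272)))) (b (b (l 16504664) (a (l 16496104) (l 16421856))) (b (a (l 16469432) (l 16387040)) (a (a (l 16457208) (l 16414136)) (l 16345880)))))) (b (b (b (l 16586608) (l 329738457127)) (a (b (l 16584184) (l 16541088)) (l 6))) (a (b (b (l 16483592) (l 16424880)) (b (l 16443872) (b (l 16300176) (l 16250600)))) (b (l 6) (l 6)))))) (b (l 6)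 (l 6))), by decide +kernel⟩

theorem s6_pp_023_s : ∃ t, chk3 f_pp_023_s t 5 7 1 = true := ex3_a k3_pp_023_s k4_pp_023_s

theorem s7_pp_023_s : ∃ t, chk3 f_pp_023_s t 5 3 1 = true := ex3_b k2_pp_023_s s6_pp_023_s

theorem s8_pp_023_s : ∃ t, chk3 f_pp_023_s t 2 3 1 = true := ex3_a k1_pp_023_s s7_pp_023_s

theorem s9_pp_023_s : ∃ t, chk3 f_pp_023_s t 2 1 1 = true := ex3_b k0_pp_023_s s8_pp_023_s

theorem s10_pp_023_s : ∃ t, chk3 f_pp_023_s t 1 1 1 = true := ex3_a s9_pp_023_s k5_pp_023_s

theorem c_pp_023_s : CertNE 0 536870912 0 1230186008 818728140 40265320 3 eng mog cd0q0 cd4q3 pd2 false true true .up 0 2 3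
    ndB0q0 ndB4q3 pcB2 cut_pp_023_s Ext.none :=
  certNE2 (fam := false) (s1 := true) (s2 := true) (a := 0) (b := 2) (c := 3) (cn := .up) (n1 := ndB0q0) (n2 := ndB4q3) (pc := pcB2) (cut := cut_pp_023_s) (xt := Ext.none) (P1 := 0) (W1 := 536870912) (P2 := 0) (W2 := 1230186008) (P3 := 818728140) (W3 := 40265320) (N0 := 3) (En := eng) (mo := mog) (C1 := cd0q0) (C2 := cd4q3) (C3 := pd2)
    rfl (fun _ => rfl) s10_pp_023_s

noncomputable def cut_pp_033_s : Cut := Cut.of [[⟨4, 0, 0, 1449551462⟩]]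

noncomputable def f_pp_033_s : ℕ → ℕ → ℕ → ℕ → Bool := onCell 1610612736 536870912 0 1230186008 818728140 40265320
    (rowNE 3 eng mog cd0q0 cd4q3 pd3 2 false true true .pnn 0 3 3 (qsf 0 536870912 0 1230186008 3) ndB0q0 ndB4q3 pcB3 cut_pp_033_s Ext.none)

def k0_pp_033_s : ∃ t, chk3 f_pp_033_s t 1 1 1 = true :=
  ⟨(b (l 6) (l 6)), by decide +kernel⟩

theorem c_pp_033_s : CertNE 0 536870912 0 1230186008 818728140 40265320 3 eng mog cd0q0 cd4q3 pd3 false true true .pnn 0 3 3
    ndB0q0 ndB4q3 pcB3 cut_pp_033_s Ext.none :=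
  certNE2 (fam := false) (s1 := true) (s2 := true) (a := 0) (b := 3) (c := 3) (cn := .pnn) (n1 := ndB0q0) (n2 := ndB4q3) (pc := pcB3) (cut := cut_pp_033_s) (xt := Ext.none) (P1 := 0) (W1 := 536870912) (P2 := 0) (W2 := 1230186008) (P3 := 818728140) (W3 := 40265320) (N0 := 3) (En := eng) (mo := mog) (C1 := cd0q0) (C2 := cd4q3) (C3 := pd3)
    rfl (fun _ => rfl) k0_pp_033_s

noncomputable def cut_pp_101_s : Cut := Cut.of [[⟨4, 0, 0, 1449551462⟩]]

noncomputable def f_pp_101_s : ℕ → ℕ → ℕ → ℕ → Bool := onCell 536870912 536870912 536870912 536870912 818728140 40265320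
    (rowNE 3 eng mog cd0q1 cd4q1 pd0 0 false true true .npn 1 0 1 (qsf 536870912 536870912 536870912 536870912 0) ndB0q1 ndB4q1 pcB0 cut_pp_101_s Ext.none)

def k0_pp_101_s : ∃ t, chk3 f_pp_101_s t 1 1 1 = true :=
  ⟨(a (l 3) (l 5)), by decide +kernel⟩

theorem c_pp_101_s : CertNE 536870912 536870912 536870912 536870912 818728140 40265320 3 eng mog cd0q1 cd4q1 pd0 false true true .npn 1 0 1
    ndB0q1 ndB4q1 pcB0 cut_pp_101_s Ext.none :=
  certNE0 (fam := false) (s1 := true) (s2 := true) (a := 1) (b := 0) (c := 1) (cn := .npn) (n1 := ndB0q1) (n2 := ndB4q1) (pc := pcB0) (cut := cut_pp_101_s) (xt := Ext.none) (P1 := 536870912) (W1 := 536870912) (P2 := 536870912) (W2 := 536870912) (P3 := 818728140) (W3 := 40265320) (N0 := 3) (En := eng) (mo := mog) (C1 := cd0q1) (C2 := cd4q1) (C3 := pd0)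
    rfl k0_pp_101_s

noncomputable def cut_pp_102_s : Cut := Cut.of [[⟨4, 0, 0, 1449551462⟩]]

noncomputable def f_pp_102_s : ℕ → ℕ → ℕ → ℕ → Bool := onCell 536870912 536870912 1073741824 536870912 818728140 40265320
    (rowNE 3 eng mog cd0q1 cd4q2 pd0 0 false true true .npp 1 0 2 (qsf 536870912 536870912 1073741824 536870912 0) ndB0q1 ndB4q2 pcB0 cut_pp_102_s Ext.none)

def k0_pp_102_s : ∃ t, chk3 f_pp_102_s t 1 1 1 = true :=
  ⟨(a (l 3) (b (l 5) (l 3))), by decide +kernel⟩

theorem c_pp_102_s : CertNE 536870912 536870912 1073741824 536870912 818728140 40265320 3 eng mog cd0q1 cd4q2 pd0 false true true .npp 1 0 2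
    ndB0q1 ndB4q2 pcB0 cut_pp_102_s Ext.none :=
  certNE0 (fam := false) (s1 := true) (s2 := true) (a := 1) (b := 0) (c := 2) (cn := .npp) (n1 := ndB0q1) (n2 := ndB4q2) (pc := pcB0) (cut := cut_pp_102_s) (xt := Ext.none) (P1 := 536870912) (W1 := 536870912) (P2 := 1073741824) (W2 := 536870912) (P3 := 818728140) (W3 := 40265320) (N0 := 3) (En := eng) (mo := mog) (C1 := cd0q1) (C2 := cd4q2) (C3 := pd0)
    rfl k0_pp_102_s

noncomputable def cut_pp_112_s : Cut := Cut.of [[⟨4, 0, 0, 1449551462⟩]]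

noncomputable def f_pp_112_s : ℕ → ℕ → ℕ → ℕ → Bool := onCell 536870912 536870912 1073741824 536870912 818728140 40265320
    (rowNE 3 eng mog cd0q1 cd4q2 pd1 0 false true true .dn 1 1 2 (qsf 536870912 536870912 1073741824 536870912 1) ndB0q1 ndB4q2 pcB1 cut_pp_112_s Ext.none)

def k0_pp_112_s : ∃ t, chk3 f_pp_112_s t 1 1 1 = true :=
  ⟨(a (l 3) (b (l 5) (l 3))), by decide +kernel⟩

theorem c_pp_112_s : CertNE 536870912 536870912 1073741824 536870912 818728140 40265320 3 eng mog cd0q1 cd4q2 pd1 false true true .dn 1 1 2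
    ndB0q1 ndB4q2 pcB1 cut_pp_112_s Ext.none :=
  certNE0 (fam := false) (s1 := true) (s2 := true) (a := 1) (b := 1) (c := 2) (cn := .dn) (n1 := ndB0q1) (n2 := ndB4q2) (pc := pcB1) (cut := cut_pp_112_s) (xt := Ext.none) (P1 := 536870912) (W1 := 536870912) (P2 := 1073741824) (W2 := 536870912) (P3 := 818728140) (W3 := 40265320) (N0 := 3) (En := eng) (mo := mog) (C1 := cd0q1) (C2 := cd4q2) (C3 := pd1)
    rfl k0_pp_112_s

noncomputable def cut_pp_113_s : Cut := Cut.of [[⟨4, 0, 0, 1449551462⟩], [⟨0, 1, 0, 67108864⟩, ⟨1, 1, 0, 67108864⟩, ⟨2, 2, 0, 16777216⟩]]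

noncomputable def f_pp_113_s : ℕ → ℕ → ℕ → ℕ → Bool := onCell 536870912 536870912 0 1230186008 818728140 40265320
    (rowNE 3 eng mog cd0q1 cd4q3 pd1 2 false true true .nn 1 1 3 (qsf 536870912 536870912 0 1230186008 1) ndB0q1 ndB4q3 pcB1 cut_pp_113_s Ext.none)

def k0_pp_113_s : ∃ t, chk3 f_pp_113_s t 1 1 1 = true :=
  ⟨(b (a (l 2) (a (l 2) (b (a (l 2) (a (l 2) (b (l 14) (l 3)))) (l 3)))) (b (a (a (l 2) (b (l 2) (a (l 2) (l 3)))) (b (l 3) (l 3))) (a (a (b (l 2) (l 3)) (l 3)) (l 3)))), by decide +kernel⟩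

theorem c_pp_113_s : CertNE 536870912 536870912 0 1230186008 818728140 40265320 3 eng mog cd0q1 cd4q3 pd1 false true true .nn 1 1 3
    ndB0q1 ndB4q3 pcB1 cut_pp_113_s Ext.none :=
  certNE2 (fam := false) (s1 := true) (s2 := true) (a := 1) (b := 1) (c := 3) (cn := .nn) (n1 := ndB0q1) (n2 := ndB4q3) (pc := pcB1) (cut := cut_pp_113_s) (xt := Ext.none) (P1 := 536870912) (W1 := 536870912) (P2 := 0) (W2 := 1230186008) (P3 := 818728140) (W3 := 40265320) (N0 := 3) (En := eng) (mo := mog) (C1 := cd0q1) (C2 := cd4q3) (C3 := pd1)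
    rfl (fun _ => rfl) k0_pp_113_s

noncomputable def cut_pp_123_s : Cut := Cut.of [[⟨4, 0, 0, 1449551462⟩], [⟨0, 1, 0, 67108864⟩, ⟨1, 1, 0, 67108864⟩, ⟨2, 2, 0, 16777216⟩]]

noncomputable def f_pp_123_s : ℕ → ℕ → ℕ → ℕ → Bool := onCell 1073741824 536870912 0 1230186008 818728140 40265320
    (rowNE 3 eng mog cd0q1 cd4q3 pd2 2 false true true .npn 1 2 3 (qsf 536870912 536870912 0 1230186008 2) ndB0q1 ndB4q3 pcB2 cut_pp_123_s Ext.none)

def k0_pp_123_s : ∃ t, chk3 f_pp_123_s t 4 8 1 = true :=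
  ⟨(a (a (l 14) (a (l 14) (b (l 16729992) (b (l 16752576) (a (l 14) (b (l 16758752) (l 16765632))))))) (a (b (l 16711944) (a (l 16744152) (l 16730416))) (l 16695840))), by decide +kernel⟩

def k1_pp_123_s : ∃ t, chk3 f_pp_123_s t 4 18 1 = true :=
  ⟨(a (a (l 3) (a (l 14) (b (a (a (l 14) (b (l 16780376) (b (a (l 14) (l 16776040)) (a (a (l 3) (b (a (l 14) (a (l 344302026135) (l 321216574151))) (l 3))) (b (c (l 279877520823) (l 278266901399)) (c (a (l 368461216151) (l 276119417271)) (a (l 367387474247) (l 273435062743)))))))) (b (a (l 16773288) (l 16769504)) (a (b (l 16774704) (a (l 16776152) (l 16775216))) (l 16773032)))) (a (b (a (l 3) (b (a (l 3) (b (c (l 399062856167) (l 396378501415)) (l 3))) (l 3))) (l 3)) (a (b (b (a (a (b (b (l 16777008) (l 336785833431)) (l 413021500615)) (b (l 16776688) (b (l 274508804647) (l 356650056647)))) (b (l 16776016) (l 282025004727))) (a (l 3) (a (b (b (l 321216572935) (l 381882988983)) (l 3)) (b (l 277193166215) (b (l 343228284231) (l 415705855847))))))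 (l 3)) (b (b (l 16774744) (a (b (l 16776136) (c (l 278266900055) (l 275045674823))) (l 16775360))) (b (a (b (a (l 377051150343) (a (l 320679702023) (l 16776960))) (l 411410887399)) (a (a (b (l 16776680) (l 341617671495)) (l 276656296519)) (l 16776320))) (a (l 3) (a (l 3) (a (l 381882987815) (b (l 318532218487) (l 3)))))))))))) (a (a (b (a (b (l 16764208) (l 16790848)) (l 16760768)) (a (b (a (l 16773568) (l 16772848)) (a (a (b (l 16775600) (a (b (l 16776760) (b (l 320142830055) (l 394231019831))) (l 277193167911))) (l 16780632)) (l 16774432))) (b (l 16769344) (l 16773064)))) (b (l 16748872) (a (l 16764608) (l 16756624)))) (l 16728848))), by decide +kernel⟩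

def k2_pp_123_s : ∃ t, chk3 f_pp_123_s t 4 19 1 = true :=
  ⟨(a (l 3) (a (a (a (b (b (a (b (a (b (c (l 376514277319) (l 375440536631)) (l 3)) (a (b (l 273971942055) (l 372756183095)) (a (l 275045673639) (l 16776712)))) (a (l 3) (b (l 404968436039) (l 3)))) (b (a (l 16776192) (l 16775464)) (a (b (c (l 308868540391) (l 272898189335)) (c (l 350207601031) (l 350207604823))) (l 16780320)))) (a (l 3) (b (a (l 3) (b (c (l 317995351527) (l 316384732023)) (c (l 366313731719) (l 366313731543)))) (l 3)))) (l 3)) (b (b (a (l 16774904) (l 16773736)) (a (b (a (l 275582556679) (l 16775824)) (a (b (c (l 327659027639) (l 327659027559)) (l 391009792983)) (l 272898202391))) (l 16775240))) (b (a (a (l 3) (a (l 409263400791) (b (l 338396439911) (l 3)))) (b (a (b (l 16776592) (l 306184197767)) (l 16776088)) (a (b (l 344302024903) (l 3)) (b (l 16776704) (l 312089777655))))) (a (l 3) (b (a (l 3) (l 365239988807)) (l 3)))))) (a (b (b (l 16771808) (l 16773440)) (b (a (l 16775464) (l 16774152)) (a (b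 (a (b (l 16776808) (l 317995357367)) (l 16776272)) (a (l 389936050423) (b (l 16776912) (l 323900931175)))) (l 16780848)))) (b (l 16767216) (b (l 16772296) (l 16773560))))) (a (b (l 16754304) (a (l 16768656) (l 16761352))) (l 16741568)))), by decide +kernel⟩

def k3_pp_123_s : ∃ t, chk3 f_pp_123_s t 4 5 1 = true :=
  ⟨(a (l 3) (a (b (a (l 3) (b (a (b (a (b (a (l 3) (l 402820949559)) (l 3)) (b (a (b (l 312626642071) (l 400673468135)) (b (l 16776392) (l 313700383815))) (a (l 3) (l 403357820183)))) (l 3)) (b (a (b (l 16780928) (a (b (l 314237254663) (l 3)) (b (l 16776456) (l 305647328551)))) (b (l 16774216) (l 16783240))) (a (l 3) (b (a (b (l 298668006983) (l 3)) (l 272361335383)) (l 3))))) (l 3))) (l 3)) (b (a (b (a (b (l 16788376) (a (b (l 16775680) (a (l 314237252615) (l 277193170919))) (b (l 16774032) (l 16775600)))) (b (l 16769040) (l 16772256))) (a (b (a (l 3) (b (a (l 306721060103) (l 270213848791)) (l 389936046295))) (l 3)) (b (b (l 16786416) (a (l 282025013767) (l 16775296)))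 (a (l 375440528839) (b (l 264845145095) (l 356650051367)))))) (a (b (b (l 16762448) (l 16768856)) (b (l 16771800) (a (b (l 16775064) (l 251960243991)) (l 16774040)))) (b (l 16757872) (b (l 16768760) (l 16771624))))) (a (l 3) (b (a (b (a (b (l 336248957751) (l 3)) (l 256792088423)) (l 3)) (b (a (l 16775408) (l 16773616)) (a (l 314774121079) (l 238538474871)))) (a (l 3) (b (a (l 3) (l 334638342103)) (l 3)))))))), by decide +kernel⟩

def k4_pp_123_s : ∃ t, chk3 f_pp_123_s t 5 2 1 = true :=
  ⟨(b (a (b (a (a (l 16675728) (a (l 16666936) (l 16660840))) (l 16645928)) (a (a (l 16711896) (l 16735304)) (l 16608432))) (b (l 6) (l 16642928))) (a (a (a (b (b (l 16744416) (a (b (l 16763704) (l 16768656)) (l 16758872))) (b (a (b (l 16771120) (l 16794656)) (b (l 16767480) (l 16769952))) (a (b (a (l 248202151383) (l 16775328)) (a (l 3) (l 294373049863))) (a (b (l 16773344) (l 16775880)) (l 16793480))))) (b (b (l 16722472) (a (l 16749264) (l 16736320))) (a (a (b (l 16765152) (l 16770600)) (b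 (l 16761536) (l 16768856))) (b (a (l 16756376) (l 16748952)) (a (l 16766192) (a (l 16783952) (l 16759808))))))) (b (b (l 16696352) (l 16713128)) (b (l 16728512) (b (l 16737424) (l 16742272))))) (b (b (l 16574384) (l 16683384)) (a (b (l 16694616) (l 16658432)) (l 16726520))))), by decide +kernel⟩

def k5_pp_123_s : ∃ t, chk3 f_pp_123_s t 3 2 1 = true :=
  ⟨(a (b (l 6) (a (b (l 16697048) (b (l 16456536) (l 16495680))) (l 6))) (l 6)), by decide +kernel⟩

def k6_pp_123_s : ∃ t, chk3 f_pp_123_s t 1 6 1 = true :=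
  ⟨(a (a (l 3) (a (a (a (b (b (a (l 3) (b (a (l 295446793751) (l 16786488)) (a (l 3) (l 317458505575)))) (l 3)) (l 3)) (b (a (b (a (b (l 16773696) (l 16775736)) (b (l 16770048) (l 16771784))) (a (b (l 291151831687) (l 3)) (b (l 16795640) (l 274508845047)))) (b (a (b (l 16767624) (l 16768712)) (a (l 16810104) (l 16766224))) (a (b (l 16792496) (c (l 200957537031) (l 195051958247))) (a (a (l 16800392) (l 16791248)) (l 16789248))))) (a (l 3) (b (a (b (b (l 16797512) (l 16792448)) (l 280951308535)) (b (a (c (l 16795288) (l 16795008)) (l 16771472)) (a (b (l 16796800) (l 16797680)) (l 16773704)))) (a (l 3) (a (a (a (l 3) (l 295983686455)) (l 234243535255)) (l 16801960))))))) (b (b (b (l 16743424) (l 16744208)) (a (b (l 16754792) (l 16756504)) (l 16735576))) (a (b (b (l 16760688) (l 16763104)) (b (l 16764696) (l 16765024))) (b (l 16785272) (l 16745616))))) (b (a (b (l 16705344) (l 16709224)) (b (l 16669312) (l 16681408))) (b (b (l 16703496) (l 16703792)) (a (l 16717440) (b (l 16684712)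 (l 16677616))))))) (a (b (a (b (l 16631744) (l 16707048)) (b (l 16586560) (a (l 16600264) (l 6)))) (a (b (l 16705208) (a (b (l 16646864) (l 16630752)) (l 16526960))) (b (l 16560544) (l 1)))) (l 6))), by decide +kernel⟩

def k7_pp_123_s : ∃ t, chk3 f_pp_123_s t 1 7 1 = true :=
  ⟨(a (a (b (l 3) (l 3)) (b (a (a (a (l 3) (a (l 3) (b (a (l 3) (b (a (l 3) (l 16776344)) (a (b (l 16796944) (l 16797544)) (l 16775488)))) (b (a (a (l 3) (l 16795152)) (a (b (l 16797800) (l 16796600)) (l 16773472))) (b (a (l 249275914615) (a (l 16773408) (l 16770104))) (l 1)))))) (b (a (b (l 16764464) (l 16762832)) (b (l 16743416) (l 16740632))) (a (b (b (l 16760904) (l 16757888)) (b (l 16753808) (l 1))) (b (b (l 16735600) (l 16730376)) (l 1))))) (b (a (b (l 16712640) (a (l 16716928) (l 16691720))) (b (l 16665416) (l 1))) (l 1))) (a (a (a (b (l 3) (l 1)) (l 1)) (l 1)) (l 1)))) (l 1)), by decide +kernel⟩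

theorem s8_pp_123_s : ∃ t, chk3 f_pp_123_s t 1 3 1 = true := ex3_b k6_pp_123_s k7_pp_123_s

theorem s9_pp_123_s : ∃ t, chk3 f_pp_123_s t 4 9 1 = true := ex3_b k1_pp_123_s k2_pp_123_s

theorem s10_pp_123_s : ∃ t, chk3 f_pp_123_s t 4 4 1 = true := ex3_b k0_pp_123_s s9_pp_123_s

theorem s11_pp_123_s : ∃ t, chk3 f_pp_123_s t 4 2 1 = true := ex3_b s10_pp_123_s k3_pp_123_s

theorem s12_pp_123_s : ∃ t, chk3 f_pp_123_s t 2 2 1 = true := ex3_a s11_pp_123_s k4_pp_123_s

theorem s13_pp_123_s : ∃ t, chk3 f_pp_123_s t 1 2 1 = true := ex3_a s12_pp_123_s k5_pp_123_s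

theorem s14_pp_123_s : ∃ t, chk3 f_pp_123_s t 1 1 1 = true := ex3_b s13_pp_123_s s8_pp_123_s

theorem c_pp_123_s : CertNE 536870912 536870912 0 1230186008 818728140 40265320 3 eng mog cd0q1 cd4q3 pd2 false true true .npn 1 2 3
    ndB0q1 ndB4q3 pcB2 cut_pp_123_s Ext.none :=
  certNE2 (fam := false) (s1 := true) (s2 := true) (a := 1) (b := 2) (c := 3) (cn := .npn) (n1 := ndB0q1) (n2 := ndB4q3) (pc := pcB2) (cut := cut_pp_123_s) (xt := Ext.none) (P1 := 536870912) (W1 := 536870912) (P2 := 0) (W2 := 1230186008) (P3 := 818728140) (W3 := 40265320) (N0 := 3) (En := eng) (mo := mog) (C1 := cd0q1) (C2 := cd4q3) (C3 := pd2)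
    rfl (fun _ => rfl) s14_pp_123_s

noncomputable def cut_pp_133_s : Cut := Cut.of [[⟨4, 0, 0, 1449551462⟩]]

noncomputable def f_pp_133_s : ℕ → ℕ → ℕ → ℕ → Bool := onCell 1610612736 536870912 0 1230186008 818728140 40265320
    (rowNE 3 eng mog cd0q1 cd4q3 pd3 2 false true true .dn 1 3 3 (qsf 536870912 536870912 0 1230186008 3) ndB0q1 ndB4q3 pcB3 cut_pp_133_s Ext.none)

def k0_pp_133_s : ∃ t, chk3 f_pp_133_s t 1 1 1 = true :=
  ⟨(b (l 6) (l 1)), by decide +kernel⟩

theorem c_pp_133_s : CertNE 536870912 536870912 0 1230186008 818728140 40265320 3 eng mog cd0q1 cd4q3 pd3 false true true .dn 1 3 3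
    ndB0q1 ndB4q3 pcB3 cut_pp_133_s Ext.none :=
  certNE2 (fam := false) (s1 := true) (s2 := true) (a := 1) (b := 3) (c := 3) (cn := .dn) (n1 := ndB0q1) (n2 := ndB4q3) (pc := pcB3) (cut := cut_pp_133_s) (xt := Ext.none) (P1 := 536870912) (W1 := 536870912) (P2 := 0) (W2 := 1230186008) (P3 := 818728140) (W3 := 40265320) (N0 := 3) (En := eng) (mo := mog) (C1 := cd0q1) (C2 := cd4q3) (C3 := pd3)
    rfl (fun _ => rfl) k0_pp_133_s

noncomputable def cut_pp_202_s : Cut := Cut.of [[⟨4, 0, 0, 1449551462⟩]]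

noncomputable def f_pp_202_s : ℕ → ℕ → ℕ → ℕ → Bool := onCell 0 536870912 1073741824 536870912 818728140 40265320
    (rowNE 3 eng mog cd0q2 cd4q2 pd0 0 false true true .pp 2 0 2 (qsf 0 536870912 1073741824 536870912 0) ndB0q2 ndB4q2 pcB0 cut_pp_202_s Ext.none)

def k0_pp_202_s : ∃ t, chk3 f_pp_202_s t 1 1 1 = true :=
  ⟨(l 5), by decide +kernel⟩

theorem c_pp_202_s : CertNE 0 536870912 1073741824 536870912 818728140 40265320 3 eng mog cd0q2 cd4q2 pd0 false true true .pp 2 0 2
    ndB0q2 ndB4q2 pcB0 cut_pp_202_s Ext.none :=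
  certNE0 (fam := false) (s1 := true) (s2 := true) (a := 2) (b := 0) (c := 2) (cn := .pp) (n1 := ndB0q2) (n2 := ndB4q2) (pc := pcB0) (cut := cut_pp_202_s) (xt := Ext.none) (P1 := 0) (W1 := 536870912) (P2 := 1073741824) (W2 := 536870912) (P3 := 818728140) (W3 := 40265320) (N0 := 3) (En := eng) (mo := mog) (C1 := cd0q2) (C2 := cd4q2) (C3 := pd0)
    rfl k0_pp_202_s

noncomputable def cut_pp_203_s : Cut := Cut.of [[⟨4, 0, 0, 1449551462⟩]]

noncomputable def f_pp_203_s : ℕ → ℕ → ℕ → ℕ → Bool := onCell 0 536870912 0 1230186008 818728140 40265320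
    (rowNE 3 eng mog cd0q2 cd4q3 pd0 0 false true true .up 2 0 3 (qsf 0 536870912 0 1230186008 0) ndB0q2 ndB4q3 pcB0 cut_pp_203_s Ext.none)

def k0_pp_203_s : ∃ t, chk3 f_pp_203_s t 1 1 1 = true :=
  ⟨(b (l 2) (b (l 2) (a (l 5) (l 3)))), by decide +kernel⟩

theorem c_pp_203_s : CertNE 0 536870912 0 1230186008 818728140 40265320 3 eng mog cd0q2 cd4q3 pd0 false true true .up 2 0 3
    ndB0q2 ndB4q3 pcB0 cut_pp_203_s Ext.none :=
  certNE0 (fam := false) (s1 := true) (s2 := true) (a := 2) (b := 0) (c := 3) (cn := .up) (n1 := ndB0q2) (n2 := ndB4q3) (pc := pcB0) (cut := cut_pp_203_s) (xt := Ext.none) (P1 := 0) (W1 := 536870912) (P2 := 0) (W2 := 1230186008) (P3 := 818728140) (W3 := 40265320) (N0 := 3) (En := eng) (mo := mog) (C1 := cd0q2) (C2 := cd4q3) (C3 := pd0)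
    rfl k0_pp_203_s

noncomputable def cut_pp_213_s : Cut := Cut.of [[⟨4, 0, 0, 1449551462⟩], [⟨0, 1, 0, 67108864⟩, ⟨1, 1, 0, 67108864⟩, ⟨2, 2, 0, 16777216⟩]]

noncomputable def f_pp_213_s : ℕ → ℕ → ℕ → ℕ → Bool := onCell 0 536870912 0 1230186008 818728140 40265320
    (rowNE 3 eng mog cd0q2 cd4q3 pd1 0 false true true .pnn 2 1 3 (qsf 0 536870912 0 1230186008 1) ndB0q2 ndB4q3 pcB1 cut_pp_213_s Ext.none)

def k0_pp_213_s : ∃ t, chk3 f_pp_213_s t 1 1 1 = true :=
  ⟨(a (b (l 3) (l 5)) (b (b (a (l 3) (a (l 3) (b (l 14) (l 3)))) (l 3)) (b (l 3) (l 3)))), by decide +kernel⟩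

theorem c_pp_213_s : CertNE 0 536870912 0 1230186008 818728140 40265320 3 eng mog cd0q2 cd4q3 pd1 false true true .pnn 2 1 3
    ndB0q2 ndB4q3 pcB1 cut_pp_213_s Ext.none :=
  certNE0 (fam := false) (s1 := true) (s2 := true) (a := 2) (b := 1) (c := 3) (cn := .pnn) (n1 := ndB0q2) (n2 := ndB4q3) (pc := pcB1) (cut := cut_pp_213_s) (xt := Ext.none) (P1 := 0) (W1 := 536870912) (P2 := 0) (W2 := 1230186008) (P3 := 818728140) (W3 := 40265320) (N0 := 3) (En := eng) (mo := mog) (C1 := cd0q2) (C2 := cd4q3) (C3 := pd1)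
    rfl k0_pp_213_s

noncomputable def cut_pm_001_s : Cut := Cut.of [[⟨4, 0, 0, 1449551462⟩]]

noncomputable def f_pm_001_s : ℕ → ℕ → ℕ → ℕ → Bool := onCell 0 536870912 536870912 536870912 818728140 40265320
    (rowNE 3 eng mog cd0q0 cd4q1 pd0 0 false true false .up 0 0 1 (qsf 0 536870912 536870912 536870912 0) ndB0q0 ndB4q1 pcB0 cut_pm_001_s Ext.none)

def k0_pm_001_s : ∃ t, chk3 f_pm_001_s t 1 1 1 = true :=
  ⟨(l 4), by decide +kernel⟩

theorem c_pm_001_s : CertNE 0 536870912 536870912 536870912 818728140 40265320 3 eng mog cd0q0 cd4q1 pd0 false true false .up 0 0 1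
    ndB0q0 ndB4q1 pcB0 cut_pm_001_s Ext.none :=
  certNE0 (fam := false) (s1 := true) (s2 := false) (a := 0) (b := 0) (c := 1) (cn := .up) (n1 := ndB0q0) (n2 := ndB4q1) (pc := pcB0) (cut := cut_pm_001_s) (xt := Ext.none) (P1 := 0) (W1 := 536870912) (P2 := 536870912) (W2 := 536870912) (P3 := 818728140) (W3 := 40265320) (N0 := 3) (En := eng) (mo := mog) (C1 := cd0q0) (C2 := cd4q1) (C3 := pd0)
    rfl k0_pm_001_s

noncomputable def cut_pm_011_s : Cut := Cut.of [[⟨4, 0, 0, 1449551462⟩]]

noncomputable def f_pm_011_s : ℕ → ℕ → ℕ → ℕ → Bool := onCell 0 536870912 536870912 536870912 818728140 40265320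
    (rowNE 3 eng mog cd0q0 cd4q1 pd1 0 false true false .pnn 0 1 1 (qsf 0 536870912 536870912 536870912 1) ndB0q0 ndB4q1 pcB1 cut_pm_011_s Ext.none)

def k0_pm_011_s : ∃ t, chk3 f_pm_011_s t 1 1 1 = true :=
  ⟨(l 4), by decide +kernel⟩

theorem c_pm_011_s : CertNE 0 536870912 536870912 536870912 818728140 40265320 3 eng mog cd0q0 cd4q1 pd1 false true false .pnn 0 1 1
    ndB0q0 ndB4q1 pcB1 cut_pm_011_s Ext.none :=
  certNE0 (fam := false) (s1 := true) (s2 := false) (a := 0) (b := 1) (c := 1) (cn := .pnn) (n1 := ndB0q0) (n2 := ndB4q1) (pc := pcB1) (cut := cut_pm_011_s) (xt := Ext.none) (P1 := 0) (W1 := 536870912) (P2 := 536870912) (W2 := 536870912) (P3 := 818728140) (W3 := 40265320) (N0 := 3) (En := eng) (mo := mog) (C1 := cd0q0) (C2 := cd4q1) (C3 := pd1)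
    rfl k0_pm_011_s

noncomputable def cut_pm_012_s : Cut := Cut.of [[⟨4, 0, 0, 1449551462⟩]]

noncomputable def f_pm_012_s : ℕ → ℕ → ℕ → ℕ → Bool := onCell 0 536870912 1073741824 536870912 818728140 40265320
    (rowNE 3 eng mog cd0q0 cd4q2 pd1 0 false true false .pnp 0 1 2 (qsf 0 536870912 1073741824 536870912 1) ndB0q0 ndB4q2 pcB1 cut_pm_012_s Ext.none)

def k0_pm_012_s : ∃ t, chk3 f_pm_012_s t 1 1 1 = true :=
  ⟨(l 4), by decide +kernel⟩

theorem c_pm_012_s : CertNE 0 536870912 1073741824 536870912 818728140 40265320 3 eng mog cd0q0 cd4q2 pd1 false true false .pnp 0 1 2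
    ndB0q0 ndB4q2 pcB1 cut_pm_012_s Ext.none :=
  certNE0 (fam := false) (s1 := true) (s2 := false) (a := 0) (b := 1) (c := 2) (cn := .pnp) (n1 := ndB0q0) (n2 := ndB4q2) (pc := pcB1) (cut := cut_pm_012_s) (xt := Ext.none) (P1 := 0) (W1 := 536870912) (P2 := 1073741824) (W2 := 536870912) (P3 := 818728140) (W3 := 40265320) (N0 := 3) (En := eng) (mo := mog) (C1 := cd0q0) (C2 := cd4q2) (C3 := pd1)
    rfl k0_pm_012_s

noncomputable def cut_pm_022_s : Cut := Cut.of [[⟨4, 0, 0, 1449551462⟩]]

noncomputable def f_pm_022_s : ℕ → ℕ → ℕ → ℕ → Bool := onCell 0 536870912 1073741824 536870912 818728140 40265320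
    (rowNE 3 eng mog cd0q0 cd4q2 pd2 0 false true false .pp 0 2 2 (qsf 0 536870912 1073741824 536870912 2) ndB0q0 ndB4q2 pcB2 cut_pm_022_s Ext.none)

def k0_pm_022_s : ∃ t, chk3 f_pm_022_s t 1 1 1 = true :=
  ⟨(l 4), by decide +kernel⟩

theorem c_pm_022_s : CertNE 0 536870912 1073741824 536870912 818728140 40265320 3 eng mog cd0q0 cd4q2 pd2 false true false .pp 0 2 2
    ndB0q0 ndB4q2 pcB2 cut_pm_022_s Ext.none :=
  certNE0 (fam := false) (s1 := true) (s2 := false) (a := 0) (b := 2) (c := 2) (cn := .pp) (n1 := ndB0q0) (n2 := ndB4q2) (pc := pcB2) (cut := cut_pm_022_s) (xt := Ext.none) (P1 := 0) (W1 := 536870912) (P2 := 1073741824) (W2 := 536870912) (P3 := 818728140) (W3 := 40265320) (N0 := 3) (En := eng) (mo := mog) (C1 := cd0q0) (C2 := cd4q2) (C3 := pd2)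
    rfl k0_pm_022_s

noncomputable def cut_pm_023_s : Cut := Cut.of [[⟨4, 0, 0, 1449551462⟩]]

noncomputable def f_pm_023_s : ℕ → ℕ → ℕ → ℕ → Bool := onCell 0 536870912 0 1230186008 818728140 40265320
    (rowNE 3 eng mog cd0q0 cd4q3 pd2 0 false true false .up 0 2 3 (qsf 0 536870912 0 1230186008 2) ndB0q0 ndB4q3 pcB2 cut_pm_023_s Ext.none)

def k0_pm_023_s : ∃ t, chk3 f_pm_023_s t 1 1 1 = true :=
  ⟨(l 6), by decide +kernel⟩

theorem c_pm_023_s : CertNE 0 536870912 0 1230186008 818728140 40265320 3 eng mog cd0q0 cd4q3 pd2 false true false .up 0 2 3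
    ndB0q0 ndB4q3 pcB2 cut_pm_023_s Ext.none :=
  certNE0 (fam := false) (s1 := true) (s2 := false) (a := 0) (b := 2) (c := 3) (cn := .up) (n1 := ndB0q0) (n2 := ndB4q3) (pc := pcB2) (cut := cut_pm_023_s) (xt := Ext.none) (P1 := 0) (W1 := 536870912) (P2 := 0) (W2 := 1230186008) (P3 := 818728140) (W3 := 40265320) (N0 := 3) (En := eng) (mo := mog) (C1 := cd0q0) (C2 := cd4q3) (C3 := pd2)
    rfl k0_pm_023_s

noncomputable def cut_pm_033_s : Cut := Cut.of [[⟨4, 0, 0, 1449551462⟩]]

noncomputable def f_pm_033_s : ℕ → ℕ → ℕ → ℕ → Bool := onCell 0 536870912 0 1230186008 818728140 40265320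
    (rowNE 3 eng mog cd0q0 cd4q3 pd3 0 false true false .pnn 0 3 3 (qsf 0 536870912 0 1230186008 3) ndB0q0 ndB4q3 pcB3 cut_pm_033_s Ext.none)

def k0_pm_033_s : ∃ t, chk3 f_pm_033_s t 1 1 1 = true :=
  ⟨(l 6), by decide +kernel⟩

theorem c_pm_033_s : CertNE 0 536870912 0 1230186008 818728140 40265320 3 eng mog cd0q0 cd4q3 pd3 false true false .pnn 0 3 3
    ndB0q0 ndB4q3 pcB3 cut_pm_033_s Ext.none :=
  certNE0 (fam := false) (s1 := true) (s2 := false) (a := 0) (b := 3) (c := 3) (cn := .pnn) (n1 := ndB0q0) (n2 := ndB4q3) (pc := pcB3) (cut := cut_pm_033_s) (xt := Ext.none) (P1 := 0) (W1 := 536870912) (P2 := 0) (W2 := 1230186008) (P3 := 818728140) (W3 := 40265320) (N0 := 3) (En := eng) (mo := mog) (C1 := cd0q0) (C2 := cd4q3) (C3 := pd3)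
    rfl k0_pm_033_s

noncomputable def cut_pm_101_s : Cut := Cut.of [[⟨4, 0, 0, 1449551462⟩]]

noncomputable def f_pm_101_s : ℕ → ℕ → ℕ → ℕ → Bool := onCell 536870912 536870912 536870912 536870912 818728140 40265320
    (rowNE 3 eng mog cd0q1 cd4q1 pd0 0 false true false .npn 1 0 1 (qsf 536870912 536870912 536870912 536870912 0) ndB0q1 ndB4q1 pcB0 cut_pm_101_s Ext.none)

def k0_pm_101_s : ∃ t, chk3 f_pm_101_s t 1 1 1 = true :=
  ⟨(l 4), by decide +kernel⟩

theorem c_pm_101_s : CertNE 536870912 536870912 536870912 536870912 818728140 40265320 3 eng mog cd0q1 cd4q1 pd0 false true false .npn 1 0 1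
    ndB0q1 ndB4q1 pcB0 cut_pm_101_s Ext.none :=
  certNE0 (fam := false) (s1 := true) (s2 := false) (a := 1) (b := 0) (c := 1) (cn := .npn) (n1 := ndB0q1) (n2 := ndB4q1) (pc := pcB0) (cut := cut_pm_101_s) (xt := Ext.none) (P1 := 536870912) (W1 := 536870912) (P2 := 536870912) (W2 := 536870912) (P3 := 818728140) (W3 := 40265320) (N0 := 3) (En := eng) (mo := mog) (C1 := cd0q1) (C2 := cd4q1) (C3 := pd0)
    rfl k0_pm_101_s

noncomputable def cut_pm_102_s : Cut := Cut.of [[⟨4, 0, 0, 1449551462⟩]]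

noncomputable def f_pm_102_s : ℕ → ℕ → ℕ → ℕ → Bool := onCell 536870912 536870912 1073741824 536870912 818728140 40265320
    (rowNE 3 eng mog cd0q1 cd4q2 pd0 0 false true false .npp 1 0 2 (qsf 536870912 536870912 1073741824 536870912 0) ndB0q1 ndB4q2 pcB0 cut_pm_102_s Ext.none)

def k0_pm_102_s : ∃ t, chk3 f_pm_102_s t 1 1 1 = true :=
  ⟨(l 6), by decide +kernel⟩

theorem c_pm_102_s : CertNE 536870912 536870912 1073741824 536870912 818728140 40265320 3 eng mog cd0q1 cd4q2 pd0 false true false .npp 1 0 2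
    ndB0q1 ndB4q2 pcB0 cut_pm_102_s Ext.none :=
  certNE0 (fam := false) (s1 := true) (s2 := false) (a := 1) (b := 0) (c := 2) (cn := .npp) (n1 := ndB0q1) (n2 := ndB4q2) (pc := pcB0) (cut := cut_pm_102_s) (xt := Ext.none) (P1 := 536870912) (W1 := 536870912) (P2 := 1073741824) (W2 := 536870912) (P3 := 818728140) (W3 := 40265320) (N0 := 3) (En := eng) (mo := mog) (C1 := cd0q1) (C2 := cd4q2) (C3 := pd0)
    rfl k0_pm_102_s

noncomputable def cut_pm_112_s : Cut := Cut.of [[⟨4, 0, 0, 1449551462⟩]]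

noncomputable def f_pm_112_s : ℕ → ℕ → ℕ → ℕ → Bool := onCell 536870912 536870912 1073741824 536870912 818728140 40265320
    (rowNE 3 eng mog cd0q1 cd4q2 pd1 0 false true false .dn 1 1 2 (qsf 536870912 536870912 1073741824 536870912 1) ndB0q1 ndB4q2 pcB1 cut_pm_112_s Ext.none)

def k0_pm_112_s : ∃ t, chk3 f_pm_112_s t 1 1 1 = true :=
  ⟨(l 6), by decide +kernel⟩

theorem c_pm_112_s : CertNE 536870912 536870912 1073741824 536870912 818728140 40265320 3 eng mog cd0q1 cd4q2 pd1 false true false .dn 1 1 2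
    ndB0q1 ndB4q2 pcB1 cut_pm_112_s Ext.none :=
  certNE0 (fam := false) (s1 := true) (s2 := false) (a := 1) (b := 1) (c := 2) (cn := .dn) (n1 := ndB0q1) (n2 := ndB4q2) (pc := pcB1) (cut := cut_pm_112_s) (xt := Ext.none) (P1 := 536870912) (W1 := 536870912) (P2 := 1073741824) (W2 := 536870912) (P3 := 818728140) (W3 := 40265320) (N0 := 3) (En := eng) (mo := mog) (C1 := cd0q1) (C2 := cd4q2) (C3 := pd1)
    rfl k0_pm_112_s

noncomputable def cut_pm_113_s : Cut := Cut.of [[⟨4, 0, 0, 1449551462⟩], [⟨0, 1, 0, 67108864⟩, ⟨1, 1, 0, 67108864⟩, ⟨2, 2, 0, 16777216⟩]]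

noncomputable def f_pm_113_s : ℕ → ℕ → ℕ → ℕ → Bool := onCell 536870912 536870912 0 1230186008 818728140 40265320
    (rowNE 3 eng mog cd0q1 cd4q3 pd1 0 false true false .nn 1 1 3 (qsf 536870912 536870912 0 1230186008 1) ndB0q1 ndB4q3 pcB1 cut_pm_113_s Ext.none)

def k0_pm_113_s : ∃ t, chk3 f_pm_113_s t 1 1 1 = true :=
  ⟨(b (a (l 2) (a (l 2) (b (a (l 2) (a (l 2) (b (l 14) (b (l 14) (l 16763984))))) (a (l 6) (b (a (l 6) (b (l 16768800) (l 6))) (l 6)))))) (b (l 6) (l 6))), by decide +kernel⟩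

theorem c_pm_113_s : CertNE 536870912 536870912 0 1230186008 818728140 40265320 3 eng mog cd0q1 cd4q3 pd1 false true false .nn 1 1 3
    ndB0q1 ndB4q3 pcB1 cut_pm_113_s Ext.none :=
  certNE0 (fam := false) (s1 := true) (s2 := false) (a := 1) (b := 1) (c := 3) (cn := .nn) (n1 := ndB0q1) (n2 := ndB4q3) (pc := pcB1) (cut := cut_pm_113_s) (xt := Ext.none) (P1 := 536870912) (W1 := 536870912) (P2 := 0) (W2 := 1230186008) (P3 := 818728140) (W3 := 40265320) (N0 := 3) (En := eng) (mo := mog) (C1 := cd0q1) (C2 := cd4q3) (C3 := pd1)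
    rfl k0_pm_113_s

noncomputable def cut_pm_123_s : Cut := Cut.of [[⟨4, 0, 0, 1449551462⟩], [⟨0, 1, 0, 67108864⟩, ⟨1, 1, 0, 67108864⟩, ⟨2, 2, 0, 16777216⟩]]

noncomputable def f_pm_123_s : ℕ → ℕ → ℕ → ℕ → Bool := onCell 1073741824 536870912 0 1230186008 818728140 40265320
    (rowNE 3 eng mog cd0q1 cd4q3 pd2 2 false true false .npn 1 2 3 (qsf 536870912 536870912 0 1230186008 2) ndB0q1 ndB4q3 pcB2 cut_pm_123_s Ext.none)

def k0_pm_123_s : ∃ t, chk3 f_pm_123_s t 1 1 1 = true :=
  ⟨(b (a (b (b (a (a (a (l 14) (b (a (l 14) (l 16693472)) (l 16654688))) (a (l 16652048) (l 16602584))) (l 6)) (a (a (a (b (l 14) (l 16550880)) (b (l 16596992) (l 6))) (l 6)) (l 6))) (b (l 6) (l 6))) (l 6)) (l 6)), by decide +kernel⟩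

theorem c_pm_123_s : CertNE 536870912 536870912 0 1230186008 818728140 40265320 3 eng mog cd0q1 cd4q3 pd2 false true false .npn 1 2 3
    ndB0q1 ndB4q3 pcB2 cut_pm_123_s Ext.none :=
  certNE2 (fam := false) (s1 := true) (s2 := false) (a := 1) (b := 2) (c := 3) (cn := .npn) (n1 := ndB0q1) (n2 := ndB4q3) (pc := pcB2) (cut := cut_pm_123_s) (xt := Ext.none) (P1 := 536870912) (W1 := 536870912) (P2 := 0) (W2 := 1230186008) (P3 := 818728140) (W3 := 40265320) (N0 := 3) (En := eng) (mo := mog) (C1 := cd0q1) (C2 := cd4q3) (C3 := pd2)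
    rfl (fun _ => rfl) k0_pm_123_s

noncomputable def cut_pm_133_s : Cut := Cut.of [[⟨4, 0, 0, 1449551462⟩]]

noncomputable def f_pm_133_s : ℕ → ℕ → ℕ → ℕ → Bool := onCell 1610612736 536870912 0 1230186008 818728140 40265320
    (rowNE 3 eng mog cd0q1 cd4q3 pd3 2 false true false .dn 1 3 3 (qsf 536870912 536870912 0 1230186008 3) ndB0q1 ndB4q3 pcB3 cut_pm_133_s Ext.none)

def k0_pm_133_s : ∃ t, chk3 f_pm_133_s t 1 1 1 = true :=
  ⟨(l 6), by decide +kernel⟩

theorem c_pm_133_s : CertNE 536870912 536870912 0 1230186008 818728140 40265320 3 eng mog cd0q1 cd4q3 pd3 false true false .dn 1 3 3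
    ndB0q1 ndB4q3 pcB3 cut_pm_133_s Ext.none :=
  certNE2 (fam := false) (s1 := true) (s2 := false) (a := 1) (b := 3) (c := 3) (cn := .dn) (n1 := ndB0q1) (n2 := ndB4q3) (pc := pcB3) (cut := cut_pm_133_s) (xt := Ext.none) (P1 := 536870912) (W1 := 536870912) (P2 := 0) (W2 := 1230186008) (P3 := 818728140) (W3 := 40265320) (N0 := 3) (En := eng) (mo := mog) (C1 := cd0q1) (C2 := cd4q3) (C3 := pd3)
    rfl (fun _ => rfl) k0_pm_133_s

noncomputable def cut_pm_202_s : Cut := Cut.of [[⟨4, 0, 0, 1449551462⟩]]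

noncomputable def f_pm_202_s : ℕ → ℕ → ℕ → ℕ → Bool := onCell 0 536870912 1073741824 536870912 818728140 40265320
    (rowNE 3 eng mog cd0q2 cd4q2 pd0 0 false true false .pp 2 0 2 (qsf 0 536870912 1073741824 536870912 0) ndB0q2 ndB4q2 pcB0 cut_pm_202_s Ext.none)

def k0_pm_202_s : ∃ t, chk3 f_pm_202_s t 1 1 1 = true :=
  ⟨(a (b (l 6) (a (l 6) (l 6))) (l 6)), by decide +kernel⟩

theorem c_pm_202_s : CertNE 0 536870912 1073741824 536870912 818728140 40265320 3 eng mog cd0q2 cd4q2 pd0 false true false .pp 2 0 2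
    ndB0q2 ndB4q2 pcB0 cut_pm_202_s Ext.none :=
  certNE0 (fam := false) (s1 := true) (s2 := false) (a := 2) (b := 0) (c := 2) (cn := .pp) (n1 := ndB0q2) (n2 := ndB4q2) (pc := pcB0) (cut := cut_pm_202_s) (xt := Ext.none) (P1 := 0) (W1 := 536870912) (P2 := 1073741824) (W2 := 536870912) (P3 := 818728140) (W3 := 40265320) (N0 := 3) (En := eng) (mo := mog) (C1 := cd0q2) (C2 := cd4q2) (C3 := pd0)
    rfl k0_pm_202_s

noncomputable def cut_pm_203_s : Cut := Cut.of [[⟨4, 0, 0, 1449551462⟩]]

noncomputable def f_pm_203_s : ℕ → ℕ → ℕ → ℕ → Bool := onCell 0 536870912 0 1230186008 818728140 40265320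
    (rowNE 3 eng mog cd0q2 cd4q3 pd0 0 false true false .up 2 0 3 (qsf 0 536870912 0 1230186008 0) ndB0q2 ndB4q3 pcB0 cut_pm_203_s Ext.none)

def k0_pm_203_s : ∃ t, chk3 f_pm_203_s t 1 1 1 = true :=
  ⟨(b (l 2) (b (l 2) (a (b (b (l 2) (a (a (b (l 2) (l 16699136)) (l 262093520871)) (a (l 16690008) (l 6)))) (a (b (a (b (l 16671680) (l 16636960)) (l 16600608)) (a (b (l 16606784) (l 16573352)) (l 6))) (l 6))) (l 6)))), by decide +kernel⟩

theorem c_pm_203_s : CertNE 0 536870912 0 1230186008 818728140 40265320 3 eng mog cd0q2 cd4q3 pd0 false true false .up 2 0 3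
    ndB0q2 ndB4q3 pcB0 cut_pm_203_s Ext.none :=
  certNE0 (fam := false) (s1 := true) (s2 := false) (a := 2) (b := 0) (c := 3) (cn := .up) (n1 := ndB0q2) (n2 := ndB4q3) (pc := pcB0) (cut := cut_pm_203_s) (xt := Ext.none) (P1 := 0) (W1 := 536870912) (P2 := 0) (W2 := 1230186008) (P3 := 818728140) (W3 := 40265320) (N0 := 3) (En := eng) (mo := mog) (C1 := cd0q2) (C2 := cd4q3) (C3 := pd0)
    rfl k0_pm_203_s

noncomputable def cut_pm_213_s : Cut := Cut.of [[⟨4, 0, 0, 1449551462⟩], [⟨0, 1, 0, 67108864⟩, ⟨1, 1, 0, 67108864⟩, ⟨2, 2, 0, 16777216⟩]]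

noncomputable def f_pm_213_s : ℕ → ℕ → ℕ → ℕ → Bool := onCell 0 536870912 0 1230186008 818728140 40265320
    (rowNE 3 eng mog cd0q2 cd4q3 pd1 0 false true false .pnn 2 1 3 (qsf 0 536870912 0 1230186008 1) ndB0q2 ndB4q3 pcB1 cut_pm_213_s Ext.none)

def k0_pm_213_s : ∃ t, chk3 f_pm_213_s t 2 2 1 = true :=
  ⟨(b (l 3) (b (l 3) (a (l 3) (a (b (l 3) (a (l 3) (b (l 3) (l 330343370055)))) (b (a (l 3) (b (l 327659036807) (a (l 314774120823) (b (l 282561870135) (l 16774648))))) (a (b (a (l 3) (l 295446769815)) (a (l 285246244183) (l 232095983527))) (b (a (b (l 256255193543) (l 16773024)) (l 16770408)) (l 16765824)))))))), by decide +kernel⟩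

def k1_pm_213_s : ∃ t, chk3 f_pm_213_s t 6 4 1 = true :=
  ⟨(b (l 3) (a (l 3) (b (l 3) (a (l 3) (b (a (l 3) (b (l 3) (a (l 3) (b (a (l 3) (l 321753445895)) (a (l 306184190103) (b (l 295446773559) (l 16777312))))))) (a (b (l 3) (a (b (l 3) (l 303499834423)) (b (a (l 317995349623) (l 265382002615)) (l 256792061607)))) (b (a (b (a (l 3) (l 300815481607)) (a (l 295983644023) (l 248738999687))) (b (a (l 256792068327) (l 16777448)) (l 16777504))) (a (b (l 16777320) (l 16777400)) (l 16777752))))))))), by decide +kernel⟩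

def k2_pm_213_s : ∃ t, chk3 f_pm_213_s t 7 4 1 = true :=
  ⟨(a (a (b (l 3) (b (b (l 3) (a (b (l 3) (a (l 3) (b (l 3) (a (l 3) (b (l 3) (l 306721061863)))))) (b (a (b (l 3) (a (l 3) (l 335175217959))) (b (a (l 3) (b (l 321216575607) (a (l 312626642103) (l 255718326487)))) (a (b (a (l 3) (l 307257933271)) (a (l 303499837143) (l 16777320))) (b (l 256255200599) (l 16777480))))) (a (b (a (b (l 3) (l 314774124919)) (b (a (l 317995350807) (l 258402680759)) (l 254644584727))) (a (b (a (l 306721062263) (l 258402683319)) (l 256255200599)) (l 16777512))) (b (a (l 16777464) (l 16777688)) (l 16777840)))))) (b (a (b (a (b (l 3) (a (l 3) (b (l 307794803367) (l 260550164519)))) (b (a (b (l 325511542807) (l 300278616743)) (b (l 257328939287) (l 16777400))) (a (l 257328944007) (l 16777600)))) (a (b (a (b (l 301352353015) (l 260550168135)) (l 16777440)) (l 16777560)) (l 16777920))) (b (a (l 16777808) (l 16778256)) (l 16778496))) (a (b (l 16778064) (l 16778616)) (l 16779496))))) (b (l 14) (b (a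 (a (b (b (l 3) (b (a (l 3) (a (l 3) (l 14))) (a (b (l 3) (a (l 325511543351) (b (l 309405417015) (l 258402682791)))) (b (a (b (l 316384738583) (l 257865809879)) (l 14)) (l 16777392))))) (b (b (a (b (a (l 257328939031) (l 16777360)) (l 16777432)) (l 16777600)) (l 16777752)) (l 16778208))) (b (l 14) (l 16778552))) (l 14)) (b (l 16804600) (l 16780816))))) (b (l 14) (b (a (b (l 14) (l 16782512)) (l 16784896)) (a (l 16785576) (l 16794080))))), by decide +kernel⟩

def k3_pm_213_s : ∃ t, chk3 f_pm_213_s t 3 5 1 = true :=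
  ⟨(a (b (a (b (a (l 3) (b (l 3) (a (l 3) (b (l 3) (l 314774120471))))) (a (b (l 3) (a (l 3) (b (l 312089765479) (l 279340645143)))) (b (a (b (l 3) (l 297057383335)) (b (a (l 294909900407) (l 266455743479)) (l 238001573175))) (a (b (l 258402678615) (l 16774560)) (l 16773800))))) (b (a (b (a (l 3) (b (a (l 3) (b (l 3) (l 294373030263))) (a (b (l 311552897703) (l 285783097047)) (b (l 261087035239) (l 16776960))))) (a (b (a (l 319069088631) (b (l 291151804407) (l 271824453271))) (a (l 275582549463) (l 16776552))) (b (a (b (l 248202140231) (l 16776696)) (l 16776680)) (l 16776144)))) (b (a (b (a (b (a (l 295983643543) (l 252497095527)) (l 238001579623)) (l 16777240)) (l 16777024)) (l 16777856)) (l 16777088))) (a (b (a (b (l 16775824) (l 16774776)) (l 16775224)) (l 16773056)) (l 16776704)))) (a (b (a (b (a (b (l 293836157735) (l 262160774199)) (b (l 238538441463) (l 16772640))) (a (l 16772320) (l 16768792))) (b (l 16770496) (l 16765800))) (a (l 16761600) (l 16757264))) (b (a (l 16768928)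 (l 16773688)) (l 16761384)))) (b (a (b (a (b (l 16779496) (l 16780536)) (l 16783136)) (a (l 16781648) (l 16785280))) (b (a (l 16788192) (l 16798288)) (l 16796176))) (a (b (l 16782256) (l 16777800)) (b (l 6) (l 6))))), by decide +kernel⟩

def k4_pm_213_s : ∃ t, chk3 f_pm_213_s t 1 3 1 = true :=
  ⟨(b (a (b (a (b (l 3) (a (l 3) (a (l 3) (b (l 329806542919) (a (b (l 335175208279) (l 290078060407)) (b (l 244980885383) (l 16770608))))))) (b (a (a (b (l 3) (a (l 3) (l 295446789463))) (b (a (l 307794797767) (b (l 285246223879) (l 16773584))) (a (l 239075352855) (l 16767776)))) (b (a (l 16767904) (l 16758488)) (l 16753712))) (a (a (b (a (b (l 296520510999) (l 16774112)) (l 16770808)) (l 16762968)) (b (l 16761880) (l 16748960))) (b (l 16742624) (l 16729184))))) (a (b (a (a (l 3) (b (l 3) (a (l 3) (l 303499829591)))) (a (b (b (l 312626631143) (l 289004337591)) (b (l 236927806535) (l 16763720))) (b (a (l 220821743591) (l 16760944)) (l 16749552)))) (a (a (b (l 330343363175) (b (l 300278603159)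 (l 239075314391))) (b (a (l 287393729543) (l 219211071159)) (l 16754384))) (b (l 16762144) (l 16720536)))) (b (a (b (l 16740472) (l 16722272)) (l 16700712)) (a (l 16689360) (l 16647072))))) (b (a (a (b (l 16743240) (l 16716744)) (b (l 16746592) (l 16712824))) (l 6)) (a (b (a (l 16676552) (l 6)) (l 6)) (l 6)))) (a (b (a (b (a (a (b (b (l 16764080) (l 16754488)) (l 16738040)) (l 16764616)) (l 16682960)) (a (b (l 16695768) (l 16660024)) (b (l 16633408) (l 16587120)))) (a (b (l 16607208) (b (l 16578664) (l 6))) (l 6))) (a (l 1) (l 6))) (l 6))), by decide +kernel⟩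

theorem s5_pm_213_s : ∃ t, chk3 f_pm_213_s t 3 4 1 = true := ex3_a k1_pm_213_s k2_pm_213_s

theorem s6_pm_213_s : ∃ t, chk3 f_pm_213_s t 3 2 1 = true := ex3_b s5_pm_213_s k3_pm_213_s

theorem s7_pm_213_s : ∃ t, chk3 f_pm_213_s t 1 2 1 = true := ex3_a k0_pm_213_s s6_pm_213_s

theorem s8_pm_213_s : ∃ t, chk3 f_pm_213_s t 1 1 1 = true := ex3_b s7_pm_213_s k4_pm_213_s

theorem c_pm_213_s : CertNE 0 536870912 0 1230186008 818728140 40265320 3 eng mog cd0q2 cd4q3 pd1 false true false .pnn 2 1 3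
    ndB0q2 ndB4q3 pcB1 cut_pm_213_s Ext.none :=
  certNE0 (fam := false) (s1 := true) (s2 := false) (a := 2) (b := 1) (c := 3) (cn := .pnn) (n1 := ndB0q2) (n2 := ndB4q3) (pc := pcB1) (cut := cut_pm_213_s) (xt := Ext.none) (P1 := 0) (W1 := 536870912) (P2 := 0) (W2 := 1230186008) (P3 := 818728140) (W3 := 40265320) (N0 := 3) (En := eng) (mo := mog) (C1 := cd0q2) (C2 := cd4q3) (C3 := pd1)
    rfl s8_pm_213_s

noncomputable def cut_mm_001_s : Cut := Cut.of [[⟨4, 0, 0, 1449551462⟩]]

noncomputable def f_mm_001_s : ℕ → ℕ → ℕ → ℕ → Bool := onCell 0 536870912 0 536870912 818728140 40265320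
    (rowNE 3 eng mog cd0q0 cd4q1 pd0 1 false false false .up 0 0 1 (qsf 0 536870912 536870912 536870912 0) ndB0q0 ndB4q1 pcB0 cut_mm_001_s Ext.none)

def k0_mm_001_s : ∃ t, chk3 f_mm_001_s t 1 1 1 = true :=
  ⟨(l 3), by decide +kernel⟩

theorem c_mm_001_s : CertNE 0 536870912 536870912 536870912 818728140 40265320 3 eng mog cd0q0 cd4q1 pd0 false false false .up 0 0 1
    ndB0q0 ndB4q1 pcB0 cut_mm_001_s Ext.none :=
  certNE1 (fam := false) (s1 := false) (s2 := false) (a := 0) (b := 0) (c := 1) (cn := .up) (n1 := ndB0q0) (n2 := ndB4q1) (pc := pcB0) (cut := cut_mm_001_s) (xt := Ext.none) (P1 := 0) (W1 := 536870912) (P2 := 536870912) (W2 := 536870912) (P3 := 818728140) (W3 := 40265320) (N0 := 3) (En := eng) (mo := mog) (C1 := cd0q0) (C2 := cd4q1) (C3 := pd0)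
    rfl (fun _ => rfl) k0_mm_001_s

noncomputable def cut_mm_011_s : Cut := Cut.of [[⟨4, 0, 0, 1449551462⟩]]

noncomputable def f_mm_011_s : ℕ → ℕ → ℕ → ℕ → Bool := onCell 0 536870912 536870912 536870912 818728140 40265320
    (rowNE 3 eng mog cd0q0 cd4q1 pd1 1 false false false .pnn 0 1 1 (qsf 0 536870912 536870912 536870912 1) ndB0q0 ndB4q1 pcB1 cut_mm_011_s Ext.none)

def k0_mm_011_s : ∃ t, chk3 f_mm_011_s t 1 1 1 = true :=
  ⟨(l 5), by decide +kernel⟩

theorem c_mm_011_s : CertNE 0 536870912 536870912 536870912 818728140 40265320 3 eng mog cd0q0 cd4q1 pd1 false false false .pnn 0 1 1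
    ndB0q0 ndB4q1 pcB1 cut_mm_011_s Ext.none :=
  certNE1 (fam := false) (s1 := false) (s2 := false) (a := 0) (b := 1) (c := 1) (cn := .pnn) (n1 := ndB0q0) (n2 := ndB4q1) (pc := pcB1) (cut := cut_mm_011_s) (xt := Ext.none) (P1 := 0) (W1 := 536870912) (P2 := 536870912) (W2 := 536870912) (P3 := 818728140) (W3 := 40265320) (N0 := 3) (En := eng) (mo := mog) (C1 := cd0q0) (C2 := cd4q1) (C3 := pd1)
    rfl (fun _ => rfl) k0_mm_011_s

noncomputable def cut_mm_012_s : Cut := Cut.of [[⟨4, 0, 0, 1449551462⟩]]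

noncomputable def f_mm_012_s : ℕ → ℕ → ℕ → ℕ → Bool := onCell 0 536870912 1073741824 536870912 818728140 40265320
    (rowNE 3 eng mog cd0q0 cd4q2 pd1 0 false false false .pnp 0 1 2 (qsf 0 536870912 1073741824 536870912 1) ndB0q0 ndB4q2 pcB1 cut_mm_012_s Ext.none)

def k0_mm_012_s : ∃ t, chk3 f_mm_012_s t 1 1 1 = true :=
  ⟨(l 5), by decide +kernel⟩

theorem c_mm_012_s : CertNE 0 536870912 1073741824 536870912 818728140 40265320 3 eng mog cd0q0 cd4q2 pd1 false false false .pnp 0 1 2
    ndB0q0 ndB4q2 pcB1 cut_mm_012_s Ext.none :=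
  certNE0 (fam := false) (s1 := false) (s2 := false) (a := 0) (b := 1) (c := 2) (cn := .pnp) (n1 := ndB0q0) (n2 := ndB4q2) (pc := pcB1) (cut := cut_mm_012_s) (xt := Ext.none) (P1 := 0) (W1 := 536870912) (P2 := 1073741824) (W2 := 536870912) (P3 := 818728140) (W3 := 40265320) (N0 := 3) (En := eng) (mo := mog) (C1 := cd0q0) (C2 := cd4q2) (C3 := pd1)
    rfl k0_mm_012_s

noncomputable def cut_mm_022_s : Cut := Cut.of [[⟨4, 0, 0, 1449551462⟩]]

noncomputable def f_mm_022_s : ℕ → ℕ → ℕ → ℕ → Bool := onCell 0 536870912 1073741824 536870912 818728140 40265320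
    (rowNE 3 eng mog cd0q0 cd4q2 pd2 0 false false false .pp 0 2 2 (qsf 0 536870912 1073741824 536870912 2) ndB0q0 ndB4q2 pcB2 cut_mm_022_s Ext.none)

def k0_mm_022_s : ∃ t, chk3 f_mm_022_s t 1 1 1 = true :=
  ⟨(l 5), by decide +kernel⟩

theorem c_mm_022_s : CertNE 0 536870912 1073741824 536870912 818728140 40265320 3 eng mog cd0q0 cd4q2 pd2 false false false .pp 0 2 2
    ndB0q0 ndB4q2 pcB2 cut_mm_022_s Ext.none :=
  certNE0 (fam := false) (s1 := false) (s2 := false) (a := 0) (b := 2) (c := 2) (cn := .pp) (n1 := ndB0q0) (n2 := ndB4q2) (pc := pcB2) (cut := cut_mm_022_s) (xt := Ext.none) (P1 := 0) (W1 := 536870912) (P2 := 1073741824) (W2 := 536870912) (P3 := 818728140) (W3 := 40265320) (N0 := 3) (En := eng) (mo := mog) (C1 := cd0q0) (C2 := cd4q2) (C3 := pd2)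
    rfl k0_mm_022_s

noncomputable def cut_mm_023_s : Cut := Cut.of [[⟨4, 0, 0, 1449551462⟩]]

noncomputable def f_mm_023_s : ℕ → ℕ → ℕ → ℕ → Bool := onCell 0 536870912 0 1230186008 818728140 40265320
    (rowNE 3 eng mog cd0q0 cd4q3 pd2 0 false false false .up 0 2 3 (qsf 0 536870912 0 1230186008 2) ndB0q0 ndB4q3 pcB2 cut_mm_023_s Ext.none)

def k0_mm_023_s : ∃ t, chk3 f_mm_023_s t 1 1 1 = true :=
  ⟨(l 5), by decide +kernel⟩

theorem c_mm_023_s : CertNE 0 536870912 0 1230186008 818728140 40265320 3 eng mog cd0q0 cd4q3 pd2 false false false .up 0 2 3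
    ndB0q0 ndB4q3 pcB2 cut_mm_023_s Ext.none :=
  certNE0 (fam := false) (s1 := false) (s2 := false) (a := 0) (b := 2) (c := 3) (cn := .up) (n1 := ndB0q0) (n2 := ndB4q3) (pc := pcB2) (cut := cut_mm_023_s) (xt := Ext.none) (P1 := 0) (W1 := 536870912) (P2 := 0) (W2 := 1230186008) (P3 := 818728140) (W3 := 40265320) (N0 := 3) (En := eng) (mo := mog) (C1 := cd0q0) (C2 := cd4q3) (C3 := pd2)
    rfl k0_mm_023_s

noncomputable def cut_mm_033_s : Cut := Cut.of [[⟨4, 0, 0, 1449551462⟩]]

noncomputable def f_mm_033_s : ℕ → ℕ → ℕ → ℕ → Bool := onCell 0 536870912 0 1230186008 818728140 40265320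
    (rowNE 3 eng mog cd0q0 cd4q3 pd3 0 false false false .pnn 0 3 3 (qsf 0 536870912 0 1230186008 3) ndB0q0 ndB4q3 pcB3 cut_mm_033_s Ext.none)

def k0_mm_033_s : ∃ t, chk3 f_mm_033_s t 1 1 1 = true :=
  ⟨(l 5), by decide +kernel⟩

theorem c_mm_033_s : CertNE 0 536870912 0 1230186008 818728140 40265320 3 eng mog cd0q0 cd4q3 pd3 false false false .pnn 0 3 3
    ndB0q0 ndB4q3 pcB3 cut_mm_033_s Ext.none :=
  certNE0 (fam := false) (s1 := false) (s2 := false) (a := 0) (b := 3) (c := 3) (cn := .pnn) (n1 := ndB0q0) (n2 := ndB4q3) (pc := pcB3) (cut := cut_mm_033_s) (xt := Ext.none) (P1 := 0) (W1 := 536870912) (P2 := 0) (W2 := 1230186008) (P3 := 818728140) (W3 := 40265320) (N0 := 3) (En := eng) (mo := mog) (C1 := cd0q0) (C2 := cd4q3) (C3 := pd3)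
    rfl k0_mm_033_s

noncomputable def cut_mm_101_s : Cut := Cut.of [[⟨4, 0, 0, 1449551462⟩], [⟨0, 1, 0, 67108864⟩, ⟨1, 0, 0, 67108864⟩, ⟨2, 1, 0, 67108864⟩]]

noncomputable def f_mm_101_s : ℕ → ℕ → ℕ → ℕ → Bool := onCell 536870912 536870912 0 536870912 818728140 40265320
    (rowNE 3 eng mog cd0q1 cd4q1 pd0 1 false false false .npn 1 0 1 (qsf 536870912 536870912 536870912 536870912 0) ndB0q1 ndB4q1 pcB0 cut_mm_101_s Ext.none)

def k0_mm_101_s : ∃ t, chk3 f_mm_101_s t 1 1 1 = true :=
  ⟨(a (l 3) (b (a (l 3) (b (a (l 3) (b (b (a (l 3) (l 14)) (l 3)) (l 3))) (l 3))) (l 3))), by decide +kernel⟩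

theorem c_mm_101_s : CertNE 536870912 536870912 536870912 536870912 818728140 40265320 3 eng mog cd0q1 cd4q1 pd0 false false false .npn 1 0 1
    ndB0q1 ndB4q1 pcB0 cut_mm_101_s Ext.none :=
  certNE1 (fam := false) (s1 := false) (s2 := false) (a := 1) (b := 0) (c := 1) (cn := .npn) (n1 := ndB0q1) (n2 := ndB4q1) (pc := pcB0) (cut := cut_mm_101_s) (xt := Ext.none) (P1 := 536870912) (W1 := 536870912) (P2 := 536870912) (W2 := 536870912) (P3 := 818728140) (W3 := 40265320) (N0 := 3) (En := eng) (mo := mog) (C1 := cd0q1) (C2 := cd4q1) (C3 := pd0)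
    rfl (fun _ => rfl) k0_mm_101_s

noncomputable def cut_mm_102_s : Cut := Cut.of [[⟨4, 0, 0, 1449551462⟩], [⟨0, 1, 0, 67108864⟩, ⟨1, 0, 0, 67108864⟩, ⟨2, 1, 0, 67108864⟩]]

noncomputable def f_mm_102_s : ℕ → ℕ → ℕ → ℕ → Bool := onCell 536870912 536870912 0 536870912 818728140 40265320
    (rowNE 3 eng mog cd0q1 cd4q2 pd0 1 false false false .npp 1 0 2 (qsf 536870912 536870912 1073741824 536870912 0) ndB0q1 ndB4q2 pcB0 cut_mm_102_s Ext.none)

def k0_mm_102_s : ∃ t, chk3 f_mm_102_s t 1 1 1 = true :=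
  ⟨(a (l 3) (b (a (l 3) (b (a (l 3) (b (a (l 3) (b (l 14) (l 3))) (l 3))) (l 3))) (l 3))), by decide +kernel⟩

theorem c_mm_102_s : CertNE 536870912 536870912 1073741824 536870912 818728140 40265320 3 eng mog cd0q1 cd4q2 pd0 false false false .npp 1 0 2
    ndB0q1 ndB4q2 pcB0 cut_mm_102_s Ext.none :=
  certNE1 (fam := false) (s1 := false) (s2 := false) (a := 1) (b := 0) (c := 2) (cn := .npp) (n1 := ndB0q1) (n2 := ndB4q2) (pc := pcB0) (cut := cut_mm_102_s) (xt := Ext.none) (P1 := 536870912) (W1 := 536870912) (P2 := 1073741824) (W2 := 536870912) (P3 := 818728140) (W3 := 40265320) (N0 := 3) (En := eng) (mo := mog) (C1 := cd0q1) (C2 := cd4q2) (C3 := pd0)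
    rfl (fun _ => rfl) k0_mm_102_s

noncomputable def cut_mm_112_s : Cut := Cut.of [[⟨4, 0, 0, 1449551462⟩]]

noncomputable def f_mm_112_s : ℕ → ℕ → ℕ → ℕ → Bool := onCell 536870912 536870912 1073741824 536870912 818728140 40265320
    (rowNE 3 eng mog cd0q1 cd4q2 pd1 2 false false false .dn 1 1 2 (qsf 536870912 536870912 1073741824 536870912 1) ndB0q1 ndB4q2 pcB1 cut_mm_112_s Ext.none)

def k0_mm_112_s : ∃ t, chk3 f_mm_112_s t 1 1 1 = true :=
  ⟨(a (l 3) (l 5)), by decide +kernel⟩

theorem c_mm_112_s : CertNE 536870912 536870912 1073741824 536870912 818728140 40265320 3 eng mog cd0q1 cd4q2 pd1 false false false .dn 1 1 2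
    ndB0q1 ndB4q2 pcB1 cut_mm_112_s Ext.none :=
  certNE2 (fam := false) (s1 := false) (s2 := false) (a := 1) (b := 1) (c := 2) (cn := .dn) (n1 := ndB0q1) (n2 := ndB4q2) (pc := pcB1) (cut := cut_mm_112_s) (xt := Ext.none) (P1 := 536870912) (W1 := 536870912) (P2 := 1073741824) (W2 := 536870912) (P3 := 818728140) (W3 := 40265320) (N0 := 3) (En := eng) (mo := mog) (C1 := cd0q1) (C2 := cd4q2) (C3 := pd1)
    rfl (fun _ => rfl) k0_mm_112_s

noncomputable def cut_mm_113_s : Cut := Cut.of [[⟨4, 0, 0, 1449551462⟩]]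

noncomputable def f_mm_113_s : ℕ → ℕ → ℕ → ℕ → Bool := onCell 536870912 536870912 0 1230186008 818728140 40265320
    (rowNE 3 eng mog cd0q1 cd4q3 pd1 0 false false false .nn 1 1 3 (qsf 536870912 536870912 0 1230186008 1) ndB0q1 ndB4q3 pcB1 cut_mm_113_s Ext.none)

def k0_mm_113_s : ∃ t, chk3 f_mm_113_s t 1 1 1 = true :=
  ⟨(a (l 5) (b (l 5) (a (b (l 5) (l 3)) (l 3)))), by decide +kernel⟩

theorem c_mm_113_s : CertNE 536870912 536870912 0 1230186008 818728140 40265320 3 eng mog cd0q1 cd4q3 pd1 false false false .nn 1 1 3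
    ndB0q1 ndB4q3 pcB1 cut_mm_113_s Ext.none :=
  certNE0 (fam := false) (s1 := false) (s2 := false) (a := 1) (b := 1) (c := 3) (cn := .nn) (n1 := ndB0q1) (n2 := ndB4q3) (pc := pcB1) (cut := cut_mm_113_s) (xt := Ext.none) (P1 := 536870912) (W1 := 536870912) (P2 := 0) (W2 := 1230186008) (P3 := 818728140) (W3 := 40265320) (N0 := 3) (En := eng) (mo := mog) (C1 := cd0q1) (C2 := cd4q3) (C3 := pd1)
    rfl k0_mm_113_s

noncomputable def cut_mm_123_s : Cut := Cut.of [[⟨4, 0, 0, 1449551462⟩]]

noncomputable def f_mm_123_s : ℕ → ℕ → ℕ → ℕ → Bool := onCell 1073741824 536870912 0 1230186008 818728140 40265320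
    (rowNE 3 eng mog cd0q1 cd4q3 pd2 2 false false false .npn 1 2 3 (qsf 536870912 536870912 0 1230186008 2) ndB0q1 ndB4q3 pcB2 cut_mm_123_s Ext.none)

def k0_mm_123_s : ∃ t, chk3 f_mm_123_s t 1 1 1 = true :=
  ⟨(b (l 5) (l 5)), by decide +kernel⟩

theorem c_mm_123_s : CertNE 536870912 536870912 0 1230186008 818728140 40265320 3 eng mog cd0q1 cd4q3 pd2 false false false .npn 1 2 3
    ndB0q1 ndB4q3 pcB2 cut_mm_123_s Ext.none :=
  certNE2 (fam := false) (s1 := false) (s2 := false) (a := 1) (b := 2) (c := 3) (cn := .npn) (n1 := ndB0q1) (n2 := ndB4q3) (pc := pcB2) (cut := cut_mm_123_s) (xt := Ext.none) (P1 := 536870912) (W1 := 536870912) (P2 := 0) (W2 := 1230186008) (P3 := 818728140) (W3 := 40265320) (N0 := 3) (En := eng) (mo := mog) (C1 := cd0q1) (C2 := cd4q3) (C3 := pd2)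
    rfl (fun _ => rfl) k0_mm_123_s

noncomputable def cut_mm_133_s : Cut := Cut.of [[⟨4, 0, 0, 1449551462⟩]]

noncomputable def f_mm_133_s : ℕ → ℕ → ℕ → ℕ → Bool := onCell 1610612736 536870912 0 1230186008 818728140 40265320
    (rowNE 3 eng mog cd0q1 cd4q3 pd3 2 false false false .dn 1 3 3 (qsf 536870912 536870912 0 1230186008 3) ndB0q1 ndB4q3 pcB3 cut_mm_133_s Ext.none)

def k0_mm_133_s : ∃ t, chk3 f_mm_133_s t 1 1 1 = true :=
  ⟨(l 5), by decide +kernel⟩

theorem c_mm_133_s : CertNE 536870912 536870912 0 1230186008 818728140 40265320 3 eng mog cd0q1 cd4q3 pd3 false false false .dn 1 3 3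
    ndB0q1 ndB4q3 pcB3 cut_mm_133_s Ext.none :=
  certNE2 (fam := false) (s1 := false) (s2 := false) (a := 1) (b := 3) (c := 3) (cn := .dn) (n1 := ndB0q1) (n2 := ndB4q3) (pc := pcB3) (cut := cut_mm_133_s) (xt := Ext.none) (P1 := 536870912) (W1 := 536870912) (P2 := 0) (W2 := 1230186008) (P3 := 818728140) (W3 := 40265320) (N0 := 3) (En := eng) (mo := mog) (C1 := cd0q1) (C2 := cd4q3) (C3 := pd3)
    rfl (fun _ => rfl) k0_mm_133_s

noncomputable def cut_mm_202_s : Cut := Cut.of [[⟨4, 0, 0, 1449551462⟩], [⟨0, 1, 0, 67108864⟩, ⟨1, 0, 0, 67108864⟩, ⟨2, 1, 0, 67108864⟩]]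

noncomputable def f_mm_202_s : ℕ → ℕ → ℕ → ℕ → Bool := onCell 0 536870912 0 536870912 818728140 40265320
    (rowNE 3 eng mog cd0q2 cd4q2 pd0 1 false false false .pp 2 0 2 (qsf 0 536870912 1073741824 536870912 0) ndB0q2 ndB4q2 pcB0 cut_mm_202_s Ext.none)

def k0_mm_202_s : ∃ t, chk3 f_mm_202_s t 2 1 1 = true :=
  ⟨(a (b (b (l 6) (b (l 6) (b (l 16481624) (l 16525704)))) (b (b (a (b (l 6) (l 16561184)) (b (l 16587448) (l 16614888))) (a (b (l 16591128) (l 16618560)) (a (l 223438731639) (l 205185234743)))) (l 2))) (a (b (b (b (l 6) (b (l 6) (l 16437840))) (b (b (l 16485104) (l 16532864)) (b (l 16579448) (l 16617856)))) (b (b (b (a (l 16633432) (l 16662208)) (l 16695064)) (b (a (l 16686944) (l 16716368)) (a (l 315243593735) (b (l 16737624) (a (l 16744272) (l 214849022535)))))) (l 2))) (b (b (b (b (l 6) (b (l 16341304) (l 16424472))) (b (l 16458792) (l 16442744))) (b (b (l 16555840) (b (l 16592424) (l 16616216))) (b (a (l 16629528) (l 16660888)) (a (l 16662600) (l 16691992))))) (a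 (b (b (b (l 16690672) (l 16759688)) (b (b (l 16760104) (a (l 16745760) (b (l 16736728) (l 16775352)))) (c (b (a (l 16760304) (a (b (l 16768232) (l 237464727815)) (b (l 248739018791) (l 375977397223)))) (a (a (l 277662913815) (b (l 234243500695) (l 341080791927))) (a (l 373829907783) (l 3)))) (a (b (l 16759600) (a (l 16769896) (l 285783093367))) (b (a (l 222969221063) (l 299741733975)) (l 378661734183)))))) (l 2)) (b (b (b (b (l 16714168) (l 16728016)) (b (l 16762984) (a (l 16748328) (a (l 16760536) (b (l 16765200) (c (l 196662536711) (l 16772488))))))) (a (b (c (b (b (l 16759464) (l 16766648)) (a (b (l 16769800) (l 251960246215)) (b (l 255718344663) (l 3)))) (b (l 16762648) (a (l 225653579303) (l 319605953287)))) (b (b (l 388325415223) (l 3)) (l 3))) (b (b (c (a (b (l 16771608) (l 302962962247)) (b (l 321216571063) (l 3))) (b (l 263234515319) (l 358797525863))) (l 3)) (l 3)))) (l 3)))))), by decide +kernel⟩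

def k1_mm_202_s : ∃ t, chk3 f_mm_202_s t 12 2 1 = true :=
  ⟨(b (b (b (b (a (l 16422032) (l 16465848)) (l 16397704)) (a (l 16471296) (l 16510624))) (b (a (l 16512760) (l 16553680)) (l 16687344))) (b (b (a (l 16615720) (b (l 16643912) (l 16663848))) (a (b (l 16648296) (l 16667544)) (b (l 16682800) (l 16699880)))) (b (a (l 16733512) (b (l 16716584) (a (l 16724200) (l 16762920)))) (a (b (l 16715352) (l 16730752)) (a (b (l 16740200) (a (l 16751568) (l 16781352))) (b (c (l 16779216) (l 16779024)) (a (b (l 16765528) (c (l 168745252407) (a (l 16771112) (l 183240765991)))) (c (b (a (l 16772520) (l 207936830951)) (l 410874009543)) (b (a (l 16772472) (l 269140098359)) (l 410874006103)))))))))), by decide +kernel⟩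

def k2_mm_202_s : ∃ t, chk3 f_mm_202_s t 26 2 1 = true :=
  ⟨(b (b (b (l 16456112) (l 16471880)) (b (l 16600544) (b (l 16639872) (l 16704400)))) (b (b (b (l 16683352) (l 16702064)) (a (b (l 16710064) (l 16727264)) (b (l 16729496) (b (l 16742496) (l 16772024))))) (a (b (b (a (l 16739376) (l 16769920)) (a (b (l 16751848) (l 16760072)) (b (l 16771960) (c (l 119353124999) (b (l 16767616) (l 16780600)))))) (b (c (a (b (l 16768304) (a (l 16779192) (l 316921607783))) (b (a (l 182167024183) (l 355039440583)) (l 453286808231))) (a (b (l 16768192) (a (l 142438573287) (b (l 197736277271) (l 429664493543)))) (b (b (a (l 16773432) (l 322290316919)) (l 378124877671)) (l 451139318343)))) (a (b (a (l 422148299223) (l 3)) (l 3)) (l 3)))) (b (c (b (a (l 16779808) (b (l 16764584) (a (l 16770488) (b (l 16773432) (l 295446773527))))) (a (b (b (l 16769280) (a (l 16770960) (l 184314504231))) (a (b (l 16775056) (l 370071828087)) (l 422685174183))) (b (a (b (l 202568116775) (l 441475658135)) (l 468856072295))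 (l 3)))) (b (a (l 16779632) (b (l 16764520) (a (l 16770440) (b (l 16773408) (a (l 176261438167) (l 380809246071)))))) (a (b (a (l 16768792) (b (l 16771712) (a (l 16774640) (l 209547436327)))) (b (a (l 155860344391) (l 421074561719)) (l 425906396423))) (b (a (b (a (l 16775472) (l 326585285271)) (l 444160009655)) (l 464561099399)) (l 3))))) (l 3))))), by decide +kernel⟩

def k3_mm_202_s : ∃ t, chk3 f_mm_202_s t 27 4 1 = true :=
  ⟨(b (b (a (l 16554016) (l 16578560)) (l 16647832)) (b (b (l 16640760) (a (l 16653160) (l 16678680))) (b (a (l 16675096) (l 16698288)) (a (l 16695088) (l 16716592))))), by decide +kernel⟩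

def k4_mm_202_s : ∃ t, chk3 f_mm_202_s t 54 5 1 = true :=
  ⟨(b (b (b (l 16713864) (l 16752984)) (b (c (a (l 16744592) (l 16775872)) (l 16776040)) (a (b (l 16757648) (c (l 16766232) (l 16776704))) (b (b (l 16776320) (c (l 16770136) (l 16775400))) (a (b (l 16777080) (b (c (l 16775024) (l 16777648)) (a (l 148881018327) (l 373293055303)))) (c (b (a (l 16778328) (l 334101479751)) (l 444160016503)) (b (a (l 154249729575) (b (l 212768658791) (l 475298527335))) (l 468319203351)))))))) (b (b (a (b (c (a (l 124721832007) (b (l 160692182615) (l 363092507863))) (a (b (l 16770048) (l 139217344215)) (b (b (l 16774128) (l 180019534327)) (a (l 335175220023) (l 3))))) (a (b (c (l 329269640551) (b (l 294909902471) (l 433959465511))) (l 3)) (l 3))) (b (a (b (c (l 410337148343) (l 432348852647)) (l 3)) (l 3)) (l 3))) (l 3)) (l 3))), by decide +kernel⟩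

def k5_mm_202_s : ∃ t, chk3 f_mm_202_s t 55 5 1 = true :=
  ⟨(b (b (b (a (l 16729632) (l 16761400)) (b (a (l 16743336) (l 16754024)) (c (l 16778488) (l 16778704)))) (b (a (b (c (l 16761040) (l 16761176)) (a (c (l 16767160) (l 16767224)) (b (l 16775552) (a (l 16778568) (b (l 16774896) (c (l 203641853271) (l 202031240343))))))) (b (b (c (l 16780024) (l 16774856)) (a (l 16778480) (a (c (l 145122923991) (b (l 16774216) (l 157470953703))) (b (c (l 195051918663) (c (l 16779440) (l 192367563351))) (c (l 392620411655) (l 423222051367)))))) (a (b (a (c (l 16774288) (l 16774312)) (b (c (l 16775864) (l 16775872)) (c (l 329806513239) (l 342154543159)))) (a (b (c (l 227264174199) (l 225653560631)) (l 3)) (l 3))) (b (b (c (l 388325445447) (l 418927083991)) (l 3)) (l 3))))) (a (b (a (c (b (l 16778912) (a (l 197199404183) (l 375440540679))) (b (a (l 16772392) (l 122574344519)) (a (b (l 16775608) (l 236390979655)) (l 396378503911)))) (b (a (c (l 303499837639) (b (l 166597759415) (l 414632115511)))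 (b (l 427517018551) (l 3))) (l 3))) (l 3)) (l 3)))) (l 3)), by decide +kernel⟩

def k6_mm_202_s : ∃ t, chk3 f_mm_202_s t 14 8 1 = true :=
  ⟨(b (b (a (l 16586424) (a (l 16644856) (l 16627760))) (a (l 16585152) (a (l 16666160) (l 16650200)))) (a (b (l 16648848) (a (l 16658336) (b (l 16680320) (l 16693224)))) (b (a (l 16689448) (b (l 16710344) (l 16753848))) (a (b (l 16708360) (l 16717520)) (b (l 16757512) (l 16761480)))))), by decide +kernel⟩

def k7_mm_202_s : ∃ t, chk3 f_mm_202_s t 15 16 1 = true :=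
  ⟨(a (b (l 14) (a (b (l 14) (b (l 16721816) (l 16728640))) (l 14))) (l 14)), by decide +kernel⟩

def k8_mm_202_s : ∃ t, chk3 f_mm_202_s t 60 34 1 = true :=
  ⟨(b (a (l 16730736) (l 16757616)) (b (l 16764288) (l 16766024))), by decide +kernel⟩

def k9_mm_202_s : ∃ t, chk3 f_mm_202_s t 122 34 1 = true :=
  ⟨(b (a (l 16750832) (l 16766864)) (b (l 16770488) (c (l 16772040) (l 16772304)))), by decide +kernel⟩

def k10_mm_202_s : ∃ t, chk3 f_mm_202_s t 246 34 1 = true :=
  ⟨(c (b (l 16769664) (b (l 16773584) (a (l 16776544) (b (l 16773072) (a (l 16774560) (a (l 16775640) (b (l 16775800) (a (l 16777376) (b (l 16776816) (l 272898196439)))))))))) (b (l 16772624) (b (l 16773776) (a (l 16776664) (b (l 16773160) (a (l 16777232) (b (l 16775480) (b (c (l 16776288) (l 16777280)) (a (l 16776480) (b (a (l 16776872) (c (l 16777200) (a (l 117742502215) (l 372219314311)))) (a (a (l 16777056) (b (l 16777328) (l 314237256039))) (l 445233758599)))))))))))), by decide +kernel⟩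

def k11_mm_202_s : ∃ t, chk3 f_mm_202_s t 247 68 1 = true :=
  ⟨(l 14), by decide +kernel⟩

def k12_mm_202_s : ∃ t, chk3 f_mm_202_s t 247 138 1 = true :=
  ⟨(a (b (l 16771600) (c (l 16773736) (l 16776432))) (b (l 14) (a (b (c (l 16775352) (l 16775392)) (a (c (l 16776096) (l 16777424)) (b (c (l 16776536) (l 16777208)) (a (c (l 16776904) (a (l 16776832) (a (l 16777288) (b (l 16776912) (b (l 16777120) (l 258402681127)))))) (c (l 228874781671) (a (b (l 16777048) (b (a (l 16777320) (l 336785834263)) (l 3))) (b (b (l 16777312) (a (l 251960230167) (l 3))) (l 3)))))))) (a (a (c (b (l 16776248) (b (l 16777720) (l 433959469623))) (b (l 16776272) (c (b (l 123111211703) (l 446844371495)) (b (b (l 16776944) (a (a (l 16777088) (l 126869307703)) (b (l 251423359239) (l 3)))) (b (l 442012533095) (l 3)))))) (b (l 14) (b (b (c (l 254644585159) (c (l 255718326935) (a (b (l 16777144) (l 289541194055)) (l 424295792871)))) (l 3)) (l 3)))) (b (l 14) (l 3)))))), by decide +kernel⟩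

def k13_mm_202_s : ∃ t, chk3 f_mm_202_s t 494 139 1 = true :=
  ⟨(a (b (c (l 16777848) (c (l 16775256) (l 16777248))) (b (b (a (c (l 16776248) (l 16776272)) (c (l 120963728311) (a (l 16777128) (c (l 144049177383) (b (l 16777344) (a (a (l 16777312) (l 243907166551)) (l 413558374615))))))) (a (c (l 16776792) (a (l 16776632) (a (l 16776896) (b (l 16776936) (b (l 16777136) (l 290614935879)))))) (a (c (l 251960230999) (c (l 257328939959) (b (a (l 102710116647) (a (l 247128392039) (l 406579052711))) (l 434496340311)))) (l 3)))) (a (b (b (c (l 210084299751) (c (l 209547428759) (a (l 91435827511) (b (l 374366797959) (l 3))))) (a (c (l 16777592) (a (b (l 16777152) (l 302426095959)) (l 426980147447))) (l 3))) (l 3)) (l 3)))) (a (b (c (b (l 16775752) (a (l 16776680) (b (l 16776768) (l 243907167287)))) (b (l 16775784) (b (l 16777256) (a (a (l 16776872) (b (l 16776912) (b (l 16777120) (l 258402681159)))) (a (b (l 101099503863) (b (l 304573579623) (l 3))) (b (b (l 196125655335) (l 348060123543))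 (l 3))))))) (a (a (b (b (c (l 303499838359) (b (b (l 207936815415) (l 366313734567)) (l 3))) (l 3)) (l 3)) (l 3)) (l 3))) (b (b (c (l 16777784) (a (l 16776312) (a (l 16777232) (c (l 16776752) (b (l 16776488) (b (l 16776896) (b (l 16777096) (l 231559135527)))))))) (b (b (c (l 191830688743) (a (l 72108474663) (a (b (l 147807273223) (l 335175221639)) (l 457581789479)))) (a (c (l 16777552) (c (l 239075328599) (a (b (l 16777104) (l 257865810183)) (l 396915376311)))) (l 3))) (l 3))) (l 3)))), by decide +kernel⟩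

def k14_mm_202_s : ∃ t, chk3 f_mm_202_s t 495 139 1 = true :=
  ⟨(b (a (b (a (b (c (l 111836922727) (a (l 16776752) (b (l 16777296) (c (l 228337910327) (a (b (l 16777088) (l 220284846359)) (b (l 273435066663) (l 3))))))) (a (c (l 236390974471) (c (l 243370296167) (a (b (l 16777072) (l 388325441703)) (b (b (l 16777336) (l 331953996119)) (l 3))))) (a (b (c (l 384567345687) (l 448991854871)) (l 3)) (l 3)))) (b (a (b (c (l 271824454327) (a (b (l 119353114887) (l 313163514215)) (l 436106952967))) (l 3)) (l 3)) (l 3))) (l 3)) (l 3)) (l 3)), by decide +kernel⟩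

def k15_mm_202_s : ∃ t, chk3 f_mm_202_s t 60 35 1 = true :=
  ⟨(a (b (l 16748496) (a (l 16754280) (l 16770312))) (a (b (l 16756776) (c (l 16774488) (l 16774704))) (b (c (l 16772704) (l 16762512)) (b (c (l 16768792) (l 16774192)) (a (c (l 16771776) (l 16777120)) (b (c (l 16773536) (l 16773600)) (c (a (l 16775032) (a (l 87140861447) (b (l 16776272) (a (l 211694912999) (l 366313734567))))) (a (l 16777040) (b (l 16777248) (c (a (l 16776656) (b (l 146733532167) (l 402820956727))) (a (a (l 16776496) (b (l 16776576) (b (l 16776984) (l 240149070407)))) (a (b (l 16777256) (c (l 388325441863) (l 391009796423))) (b (b (l 138143597031) (l 399599730951)) (l 3)))))))))))))), by decide +kernel⟩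

def k16_mm_202_s : ∃ t, chk3 f_mm_202_s t 244 70 1 = true :=
  ⟨(b (l 16771056) (c (l 16775336) (c (l 16775440) (l 16775512)))), by decide +kernel⟩

def k17_mm_202_s : ∃ t, chk3 f_mm_202_s t 244 142 1 = true :=
  ⟨(a (c (l 16777664) (c (l 16775752) (c (l 16775784) (l 16777120)))) (b (c (a (l 16774120) (l 16777520)) (c (l 48486155287) (a (l 16774192) (a (l 16775248) (b (l 16775408) (b (l 16776216) (l 72108474839))))))) (c (a (a (l 16777280) (b (l 16776144) (a (l 145659790759) (l 343228285143)))) (b (a (a (l 16776672) (l 140291081591)) (a (l 337322705063) (l 406042182343))) (l 426443277767))) (a (b (l 16777120) (b (a (l 16776272) (a (l 16776800) (b (l 16777016) (a (l 202568106423) (l 334638350919))))) (a (a (l 16776640) (a (l 16776904) (b (l 16776944) (l 213842395591)))) (a (b (a (l 16777112) (l 265382003271)) (l 433422598503)) (l 3))))) (a (b (b (l 16776592) (c (l 193441301527) (a (l 95193924055) (b (a (l 16777088) (l 254107713991)) (l 417853342007))))) (a (a (b (b (l 254644585015)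 (l 3)) (l 3)) (l 3)) (l 3))) (b (b (a (b (l 16776984) (a (l 145122918791) (l 307794805319))) (a (b (l 234243490311) (l 3)) (l 451676209623))) (l 3)) (l 3))))))), by decide +kernel⟩

def k18_mm_202_s : ∃ t, chk3 f_mm_202_s t 244 143 1 = true :=
  ⟨(b (a (c (a (l 78014055911) (a (b (l 16776200) (c (l 319605964135) (l 319605964807))) (b (c (l 136532985127) (l 132774888759)) (l 429127631927)))) (a (a (l 16776672) (a (l 16777528) (b (l 16775696) (b (l 16776512) (a (l 16776968) (b (l 16777008) (l 252497101367))))))) (a (b (l 16776224) (a (b (l 16776864) (a (b (l 153712853399) (l 3)) (l 415705858423))) (b (b (l 112373793223) (a (l 242833424919) (l 453286822199))) (l 3)))) (b (b (l 16777312) (c (l 208473687143) (b (a (l 16776888) (a (l 16777144) (l 298131128839))) (a (l 142975435271) (l 454360564103))))) (a (c (l 429127631687) (b (l 421611438551) (l 3))) (l 3)))))) (a (a (b (b (c (l 247128393127) (a (b (l 16777368) (a (l 221895459303) (l 362555638343))) (b (l 387788570871) (l 3)))) (l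 3)) (l 3)) (l 3)) (l 3))) (a (a (a (c (b (c (l 144049178023) (l 141364823463)) (l 445233759383)) (b (b (l 72645345767) (c (l 224042943671) (a (b (l 16776952) (l 225116684823)) (a (l 358797541543) (l 433422598567))))) (c (l 451139339399) (b (l 452213080855) (l 3))))) (b (c (l 376514282087) (b (c (l 264845133159) (a (b (l 124721824183) (l 384030474455)) (l 433959469559))) (l 3))) (l 3))) (l 3)) (l 3))), by decide +kernel⟩

def k19_mm_202_s : ∃ t, chk3 f_mm_202_s t 245 70 1 = true :=
  ⟨(b (b (c (l 16770312) (l 16770448)) (c (l 16777752) (c (l 16777824) (l 16776560)))) (b (a (c (l 16773280) (l 16773360)) (b (b (c (l 16775328) (l 16777328)) (a (l 16775184) (c (l 94120182887) (c (l 89288344455) (a (l 16776264) (a (l 16776792) (b (l 16777008) (a (l 145659789735) (l 405505310919))))))))) (c (a (l 16775992) (a (b (l 16776792) (l 243907167623)) (c (l 391546667751) (l 393157280487)))) (a (c (l 16776008) (l 16777336)) (a (a (c (l 109689439175) (b (l 16776632) (b (l 16777360) (a (l 207936815575)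 (l 426443276519))))) (c (b (l 16776968) (l 402820956567)) (b (a (l 16776888) (b (l 16776936) (l 199346880951))) (b (l 387251699927) (l 3))))) (a (c (l 381346120167) (b (b (a (l 16777104) (l 263771390439)) (l 426443276631)) (l 3))) (l 3))))))) (a (c (a (l 16774776) (a (l 16777168) (b (l 16776016) (b (l 16776840) (l 344838897863))))) (a (l 16777448) (b (l 16777000) (c (a (l 16776416) (b (l 16776848) (l 345912639687))) (a (l 54391734743) (b (a (l 16776688) (a (l 16776944) (b (l 16776992) (l 246591521223)))) (a (b (l 115595018631) (l 374366798007)) (a (l 420537696615) (l 3))))))))) (a (b (c (a (l 105931343143) (b (l 203104978151) (l 418927084215))) (a (b (l 16776480) (a (l 16777168) (c (l 213842395863) (b (l 103783858519) (a (l 228337910263) (l 444696887575)))))) (a (b (a (l 16776920) (b (l 16776960) (a (l 146196660567) (l 263234519479)))) (b (c (l 329806512807) (l 399599730951)) (l 3))) (c (l 386714829335) (b (b (a (l 16777296) (l 297057386951)) (l 442012533111)) (l 3)))))) (a (a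 (c (l 388325442119) (c (l 391546667591) (b (a (b (l 132774887799) (l 459192402215)) (l 413558374743)) (l 3)))) (l 3)) (l 3))) (l 3))))), by decide +kernel⟩

def k20_mm_202_s : ∃ t, chk3 f_mm_202_s t 245 71 1 = true :=
  ⟨(b (a (a (b (b (b (c (l 16776160) (l 16777496)) (c (l 108615697735) (a (l 16776376) (c (l 140291081175) (a (l 16777232) (b (l 124721824199) (l 387251699943))))))) (a (a (c (l 135459243319) (b (l 16776744) (b (a (l 16777056) (l 225116684775)) (l 399599730951)))) (c (l 331953995895) (c (l 333027737063) (b (a (l 16777328) (b (l 16777048) (l 287393710615))) (l 451139338807))))) (c (l 408726537111) (a (b (a (b (l 214916137431) (l 3)) (l 433959469479)) (l 3)) (l 3))))) (l 3)) (a (b (b (c (b (l 217063621927) (l 438254437127)) (c (b (l 219211104759) (l 444696888055)) (a (b (a (l 16776976) (b (l 16777016) (l 266992615911))) (l 437717565959)) (b (a (b (l 192904429991) (l 3)) (l 424832663943)) (l 3))))) (l 3)) (l 3)) (l 3))) (l 3)) (l 3)), by decide +kernel⟩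

def k21_mm_202_s : ∃ t, chk3 f_mm_202_s t 246 280 1 = true :=
  ⟨(a (c (l 16777232) (a (l 16773960) (c (l 16775352) (l 16777424)))) (a (b (c (l 74792830039) (a (l 16775880) (a (l 16777064) (b (l 16776496) (a (l 80698409239) (b (l 16776992) (b (l 147807273239) (l 348060123495)))))))) (a (b (c (l 16776680) (c (l 16776688) (l 16777392))) (b (c (l 16777736) (a (l 16776928) (a (b (l 16777120) (l 260013293911)) (a (l 311552901591) (l 3))))) (a (c (l 16777176) (a (l 111300051223) (b (l 214916137271) (l 378661765511)))) (l 3)))) (b (c (l 345375768775) (a (a (b (l 16777000) (b (l 202031235367) (l 360408154487))) (b (b (l 16777112) (l 240149070183)) (l 3))) (b (b (l 400136601815) (l 3)) (l 3)))) (l 3)))) (b (a (b (c (l 130090533911) (b (a (l 16776712) (c (l 16777056) (c (l 16777056) (l 103783858487)))) (a (l 16777312) (a (b (l 141364822263) (l 326585287031)) (l 450065596695))))) (a (c (l 279340647431) (c (l 274508809223) (b (a (a (l 16777120) (l 205789331799)) (l 389936054439)) (l 460266144167))))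 (l 3))) (c (l 429127631911) (c (l 440401921047) (a (a (b (b (l 381346119831) (l 3)) (l 3)) (l 3)) (l 3))))) (l 3)))), by decide +kernel⟩

def k22_mm_202_s : ∃ t, chk3 f_mm_202_s t 246 281 1 = true :=
  ⟨(b (a (a (c (l 16775544) (l 16775584)) (a (c (l 16777768) (a (l 16777120) (b (l 16776544) (b (l 16776952) (a (l 124721824071) (a (l 258939552167) (l 356113187255))))))) (b (c (l 139754210423) (b (a (l 16776760) (a (l 16777024) (b (l 16777136) (l 272898195815)))) (c (l 207936816007) (a (l 16777360) (b (l 367924347015) (l 459729273159)))))) (a (c (l 294373033047) (b (a (b (l 16777144) (l 294909903191)) (l 420000825591)) (l 3))) (l 3))))) (b (a (c (l 444160017639) (a (a (a (b (l 413558374615) (l 3)) (l 3)) (l 3)) (l 3))) (l 3)) (l 3))) (a (a (a (c (l 16776296) (l 16777296)) (b (c (l 16776736) (c (l 16776744) (c (l 16776744) (c (l 16777400) (l 71034732855))))) (a (c (l 16777096) (b (l 16776976) (c (l 16777216) (a (l 130090533239) (l 385641087143))))) (c (l 303499838583) (b (a (a (l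 196662526311) (l 275045679559)) (l 444696887575)) (l 3)))))) (a (b (c (l 356650058007) (a (c (l 238001587031) (b (a (l 16777056) (a (l 145659789607) (l 269140099463))) (l 400136601863))) (b (l 443086274935) (l 3)))) (l 3)) (l 3))) (l 3))), by decide +kernel⟩

def k23_mm_202_s : ∃ t, chk3 f_mm_202_s t 246 141 1 = true :=
  ⟨(a (a (b (b (a (b (c (l 191293817991) (b (a (l 16776816) (a (l 16777080) (a (l 205252460935) (l 292762419639)))) (c (l 224579814359) (a (a (l 16777000) (l 138680467847)) (l 414095245607))))) (c (l 406042182247) (a (a (b (a (l 217600491927) (l 304573579719)) (l 3)) (l 3)) (l 3)))) (a (a (b (c (l 448991855079) (l 456508047831)) (l 3)) (l 3)) (l 3))) (l 3)) (l 3)) (l 3)) (l 3)), by decide +kernel⟩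

def k24_mm_202_s : ∃ t, chk3 f_mm_202_s t 247 70 1 = true :=
  ⟨(l 3), by decide +kernel⟩

def k25_mm_202_s : ∃ t, chk3 f_mm_202_s t 123 71 1 = true :=
  ⟨(l 3), by decide +kernel⟩

def k26_mm_202_s : ∃ t, chk3 f_mm_202_s t 31 17 1 = true :=
  ⟨(b (a (b (l 14) (b (b (l 14) (b (l 14) (l 3))) (l 3))) (l 3)) (l 3)), by decide +kernel⟩

def k27_mm_202_s : ∃ t, chk3 f_mm_202_s t 28 18 1 = true :=
  ⟨(a (b (l 16704408) (l 16723112)) (b (b (l 16703416) (l 16712792)) (b (l 16721528) (l 16730256)))), by decide +kernel⟩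

def k28_mm_202_s : ∃ t, chk3 f_mm_202_s t 29 36 1 = true :=
  ⟨(a (c (l 16756848) (l 16752536)) (a (b (l 16743504) (l 16773032)) (b (l 16767672) (a (l 16770912) (c (l 16773808) (l 16775296)))))), by decide +kernel⟩

def k29_mm_202_s : ∃ t, chk3 f_mm_202_s t 58 37 1 = true :=
  ⟨(a (b (l 16738360) (l 16747112)) (b (l 16749544) (b (l 16756128) (l 16771024)))), by decide +kernel⟩

def k30_mm_202_s : ∃ t, chk3 f_mm_202_s t 118 37 1 = true :=
  ⟨(b (c (l 16773720) (l 16773992)) (a (c (l 16777152) (c (l 16777264) (l 16777352))) (b (c (l 16775352) (l 16775456)) (a (c (l 16778376) (c (l 16773176) (l 16775832))) (b (c (l 16774856) (c (l 16774880) (l 16777520))) (b (c (a (l 16775816) (c (l 215989881383) (l 214379268647))) (a (l 16775840) (c (l 212768655831) (a (c (l 16776864) (l 133848630439)) (b (l 233169749319) (l 3)))))) (c (a (l 156397210007) (l 426443277799)) (a (a (l 16777888) (b (l 142975435783) (l 371145572791))) (c (l 431811986903) (l 433959470535)))))))))), by decide +kernel⟩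

def k31_mm_202_s : ∃ t, chk3 f_mm_202_s t 238 37 1 = true :=
  ⟨(b (b (l 16774840) (c (l 16776576) (c (l 16776640) (l 16776688)))) (b (b (a (c (l 16773248) (l 16773304)) (c (a (l 16775376) (b (l 16776232) (c (l 316921610215) (l 228337912439)))) (a (l 16777368) (b (c (l 16776240) (l 16777560)) (a (a (l 113447535751) (b (l 16776896) (l 286319969527))) (c (l 372756185687) (b (l 346986381543) (l 3)))))))) (a (b (c (l 16774912) (l 16774944)) (a (l 16777128) (c (l 138680469639) (a (l 16776392) (b (l 16776808) (a (l 199883752471) (l 326048416983))))))) (c (a (b (c (l 195588786455) (l 193441302807)) (l 397989119191)) (l 439865051479)) (a (b (c (l 191830689991) (a (l 106468213815) (b (l 188609463383) (l 402284085847)))) (a (b (l 363629379959) (l 3)) (l 3))) (b (c (l 445233759847) (l 447918114391)) (l 3)))))) (a (b (a (c (b (l 16776416) (l 333564608807)) (b (c (l 16776424) (c (l 16776432) (l 102710117495))) (c (l 334101479719) (a (b (l 16776904) (l 354502574359)) (l 404968440679)))))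 (b (c (l 365239993095) (c (l 366313734919) (a (b (l 211158041799) (l 431275115223)) (l 3)))) (l 3))) (l 3)) (l 3)))), by decide +kernel⟩

def k32_mm_202_s : ∃ t, chk3 f_mm_202_s t 239 37 1 = true :=
  ⟨(a (b (b (c (l 16771152) (l 16771248)) (b (c (l 16774480) (l 16777800)) (c (a (l 108615698823) (b (c (l 147270404119) (l 147270404039)) (l 379198636983))) (a (a (l 16776968) (b (l 16775808) (a (l 16777712) (b (l 16776808) (l 259476423783))))) (b (c (l 142975436743) (a (l 16776512) (b (l 16777624) (l 361481896263)))) (c (l 381346120631) (a (b (l 327659028567) (l 3)) (l 3)))))))) (a (b (b (b (c (l 346449510887) (c (l 347523252695) (a (b (l 137606726615) (l 381882991047)) (l 426443277319)))) (l 3)) (l 3)) (l 3)) (l 3))) (b (a (b (c (l 16773280) (l 16777272)) (b (b (c (l 16776056) (l 16777384)) (a (c (l 16776792) (a (l 16776640) (b (l 16776720) (l 234780361687)))) (c (l 260550166935) (a (b (l 135459242823) (l 431811985943)) (c (l 391009796711) (l 394231022183)))))) (a (b (b (c (l 318532224679)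 (l 393157280295)) (l 3)) (l 3)) (l 3)))) (b (b (l 16776240) (c (l 16778264) (a (l 16775480) (b (l 16775640) (a (l 16776552) (b (l 16776632) (l 196125655415))))))) (b (b (c (c (l 329806512327) (l 329806512327)) (c (a (l 196662527639) (l 394231022359)) (a (b (l 16776848) (l 342691414199)) (b (l 377051152807) (l 3))))) (l 3)) (l 3)))) (l 3))), by decide +kernel⟩

def k33_mm_202_s : ∃ t, chk3 f_mm_202_s t 28 19 1 = true :=
  ⟨(b (a (l 16741808) (a (l 16758864) (b (l 16744728) (l 16774608)))) (a (c (l 16764744) (l 16760352)) (a (b (l 16751360) (b (l 16758088) (l 16773040))) (b (c (l 16772936) (l 16773152)) (a (c (l 16779088) (b (l 16766520) (l 16770920))) (b (c (l 16777208) (l 16778584)) (a (b (l 16777856) (c (l 142975438887) (c (l 137606729127) (a (l 16775456) (b (l 16776272) (l 226190428807)))))) (b (c (a (l 16775984) (l 227801042551)) (a (l 115595020391) (b (l 149954758823) (l 367924347815)))) (c (l 381882992871) (a (b (l 338396447207) (l 3)) (l 3))))))))))), by decide +kernel⟩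

def k34_mm_202_s : ∃ t, chk3 f_mm_202_s t 58 38 1 = true :=
  ⟨(a (b (l 16771848) (b (l 16773104) (c (l 16777472) (l 16777616)))) (b (b (c (l 16764872) (l 16775544)) (a (l 16777064) (c (a (l 16770736) (l 16778800)) (c (l 16777440) (a (l 16770856) (l 16777552)))))) (a (b (c (l 16776208) (l 16776296)) (a (c (l 90362088807) (c (l 16776656) (b (l 16772976) (l 16777776)))) (b (c (c (l 122574343015) (l 120426859303)) (a (l 16775040) (a (l 16777384) (b (l 16776224) (a (l 197199398471) (l 265918875559)))))) (b (c (a (l 16776656) (l 387251700855)) (c (l 309405417367) (a (l 131701147287) (l 391009797223)))) (c (l 382419863175) (a (c (l 356113187511) (l 358797542055)) (l 3))))))) (b (b (a (c (l 16774080) (l 16774120)) (c (a (l 124721826583) (b (l 195051915879) (l 395841635559))) (a (a (l 16775856) (c (l 16776520) (b (l 16776008) (l 193441302135)))) (a (b (l 16778000) (l 382419862263)) (b (a (l 212231784087) (l 360408154551)) (l 3)))))) (a (c (a (l 16775600) (b (l 16776440) (l 251423362183)))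 (a (l 16776928) (b (l 114521278007) (c (l 250349620023) (a (l 209010558759) (l 403357827991)))))) (a (a (c (l 372219315255) (b (l 338396446375) (l 3))) (l 3)) (l 3)))) (a (a (b (b (c (l 218137365399) (a (l 142975436407) (l 353428832743))) (c (l 428590761511) (l 431275116039))) (l 3)) (l 3)) (l 3)))))), by decide +kernel⟩

def k35_mm_202_s : ∃ t, chk3 f_mm_202_s t 59 38 1 = true :=
  ⟨(a (b (a (a (b (c (l 16771928) (l 16772008)) (b (c (l 16778536) (a (l 16774600) (b (l 16775440) (c (l 16776520) (l 117742503303))))) (a (c (b (l 16776232) (l 229411654503)) (b (l 16777552) (c (l 224042945143) (a (l 148344145415) (l 370071831127))))) (b (c (l 343228285383) (a (b (l 16777000) (l 294909904519)) (l 422148310023))) (l 3))))) (b (c (b (l 16773648) (a (l 16775160) (b (l 16776024) (l 203641850631)))) (b (l 16773696) (b (l 16777960) (a (l 16775736) (c (l 200957495655) (a (l 123648083079) (l 340543929975))))))) (b (c (a (b (l 150491629799) (l 373829927847)) (l 421611440199)) (a (b (a (l 16776488)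 (b (l 16776904) (l 266455746151))) (c (l 375440540567) (a (l 354502574519) (l 3)))) (b (c (l 418927084871) (l 420537697591)) (l 3)))) (l 3)))) (b (a (a (b (c (l 16775760) (c (l 16775776) (l 87677732231))) (b (c (l 238001589239) (a (b (l 16776808) (l 244444038631)) (a (l 369534960103) (l 3)))) (l 3))) (b (c (b (l 16777912) (l 352891961959)) (b (a (l 16776288) (b (l 16776704) (l 219747976599))) (a (b (l 188072592567) (l 393694151239)) (l 439328179335)))) (l 3))) (a (a (b (c (l 389936055623) (b (c (l 291688679591) (b (l 342154543303) (l 3))) (l 3))) (l 3)) (l 3)) (l 3))) (l 3))) (a (b (a (b (c (l 437717568791) (a (b (l 439865050727) (l 3)) (l 3))) (l 3)) (l 3)) (l 3)) (l 3))) (l 3)), by decide +kernel⟩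

def k36_mm_202_s : ∃ t, chk3 f_mm_202_s t 29 39 1 = true :=
  ⟨(a (a (b (a (a (c (l 16779960) (l 16777432)) (b (l 16775336) (b (l 16776032) (b (l 16777768) (c (l 16778768) (c (l 16776152) (l 123648084071))))))) (b (a (c (l 16772856) (l 16778152)) (b (c (l 16774544) (l 16774576)) (c (a (l 16776048) (b (l 16778184) (l 379735508007))) (a (c (l 16776064) (l 113984407303)) (b (a (l 16776560) (l 218674235383)) (l 379198637079)))))) (b (b (a (c (l 16775624) (l 16778264)) (c (l 377588024887) (a (c (l 268066360311) (l 351281349207)) (l 3)))) (a (c (l 181630144103) (a (l 16776056) (c (l 234780363463) (l 321216577671)))) (l 3))) (a (a (c (l 331953996247) (b (a (l 16776792) (l 256255199447)) (l 415705859447))) (l 3)) (l 3))))) (a (b (a (b (c (l 16775040) (l 16777680)) (c (a (l 151028501639) (l 348060124023)) (a (c (l 16777832) (b (l 16776024) (l 198810011943))) (b (c (l 229948525223) (l 315847868487)) (l 3))))) (b (b (c (l 303499837191) (a (l 16777880) (l 372756186071))) (c (l 373829928455)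 (a (l 342691414551) (l 3)))) (l 3))) (a (b (c (l 423222053927) (a (l 417853342487) (l 3))) (l 3)) (l 3))) (l 3))) (b (a (b (a (b (c (a (l 151565372871) (l 356113187831)) (a (c (l 148344146743) (b (l 16776104) (l 295983644487))) (b (c (l 240685943575) (l 327659028039)) (l 3)))) (c (l 429664504951) (a (b (l 422685181367) (l 3)) (l 3)))) (l 3)) (l 3)) (l 3)) (l 3))) (l 3)), by decide +kernel⟩

def k37_mm_202_s : ∃ t, chk3 f_mm_202_s t 60 144 1 = true :=
  ⟨(b (a (l 16762464) (b (a (l 16770328) (a (c (l 16774544) (l 16774592)) (a (a (c (l 16776336) (l 16777008)) (c (c (l 152639112727) (l 149954758167)) (c (b (l 16776776) (l 239612200215)) (b (l 80698409495) (a (b (l 16777016) (l 253033972359)) (l 399599731063)))))) (a (c (l 386177958599) (a (b (b (a (l 16777088) (l 243370295831)) (l 411410891063)) (l 3)) (l 3))) (l 3))))) (a (l 16775680) (a (a (l 16776272) (c (l 16778000) (a (l 16776032) (a (l 16777216) (b (l 16776640) (b (l 16777048) (a (l 225116684775) (l 361481896535)))))))) (a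 (a (a (c (l 225116685879) (c (l 223506072983) (b (l 105931342359) (l 411410891175)))) (b (c (l 254644585575) (a (b (l 16777120) (l 352355090999)) (l 389399183639))) (l 3))) (l 3)) (l 3)))))) (a (l 16773808) (a (c (l 16778272) (c (l 16775704) (a (l 16771728) (l 16777136)))) (a (b (c (a (l 16776048) (a (c (l 197199398551) (l 196125656727)) (l 396915376935))) (a (c (l 16776064) (l 16777384)) (c (a (b (l 16776840) (l 259476423991)) (l 400136602407)) (a (a (b (l 16776680) (b (l 16777080) (l 369534959799))) (b (l 115058147927) (l 422685180375))) (a (b (b (l 234243490359) (l 453286822295)) (l 3)) (l 3)))))) (a (a (c (l 16777928) (b (l 16776536) (a (l 16777560) (b (l 129016791575) (l 302426096423))))) (c (l 347523252551) (c (l 349133865287) (b (c (a (l 16777048) (l 287393711063)) (a (l 135459242487) (l 370071830775))) (l 444696888055))))) (l 3))) (l 3))))), by decide +kernel⟩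

def k38_mm_202_s : ∃ t, chk3 f_mm_202_s t 60 145 1 = true :=
  ⟨(a (a (l 16765096) (a (l 16774536) (c (l 16772072) (l 16777400)))) (a (a (b (c (l 16773816) (l 16776496)) (c (a (l 16775320) (b (l 16776192) (a (l 142438565383) (l 368461218343)))) (a (c (l 16775344) (l 16776672)) (a (b (l 16775856) (b (l 16776680) (c (l 216526750839) (a (l 122574340727) (l 363629379799))))) (b (c (l 16776552) (c (l 16776560) (l 82309022279))) (b (a (b (l 16777064) (l 279340647127)) (l 410874020295)) (l 3))))))) (a (b (c (b (l 16775408) (l 109689439895)) (a (l 16776936) (b (l 16775784) (b (l 16776608) (a (l 113984406007) (b (l 197736268391) (l 417853342023))))))) (b (b (c (l 322290318743) (c (l 322290318743) (a (a (l 16776816) (b (l 16777032) (l 261087036055))) (c (l 417316471415) (l 419463955063))))) (a (a (c (l 16777952) (b (l 215453008535) (l 442012533111))) (l 3)) (l 3))) (l 3))) (b (a (c (b (l 16776472) (l 357723799991)) (b (c (l 16776488) (l 16777472)) (c (l 359334412727) (b (a (b (l 16777000)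 (l 243907166823)) (l 392083538263)) (l 3))))) (b (a (c (l 16777888) (b (l 16776744) (b (l 146733531687) (l 328195900167)))) (c (l 243907167975) (b (a (l 16777336) (b (l 16777048) (l 290078065191))) (l 448454984247)))) (l 3))) (l 3)))) (a (a (b (b (c (l 417853343095) (a (a (b (c (l 294373033047) (l 379735507239)) (l 3)) (l 3)) (l 3))) (l 3)) (l 3)) (l 3)) (l 3)))), by decide +kernel⟩

def k39_mm_202_s : ∃ t, chk3 f_mm_202_s t 120 73 1 = true :=
  ⟨(a (b (c (l 16769400) (l 16774768)) (a (c (l 16772400) (l 16776408)) (b (c (l 16774136) (l 16776800)) (c (a (l 16775640) (b (l 16778128) (c (l 345375768999) (l 345912639911)))) (a (c (l 16775656) (c (l 16775664) (l 71571604231))) (a (b (l 16776168) (c (l 222432331447) (c (l 312089771287) (b (l 130627404535) (l 378124894599))))) (b (a (l 90362086135) (b (l 16776776) (a (l 218137363223) (l 295446774695)))) (b (l 408726536823) (l 3))))))))) (b (a (b (l 16775208) (c (l 16777384) (c (l 16774792) (c (l 16774808) (l 16777440))))) (b (b (c (l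 16774840) (l 16777504)) (c (a (l 16775240) (c (l 127406179943) (l 124184954471))) (a (l 16775272) (a (l 16776320) (b (l 16777408) (a (b (l 16776984) (l 233706619559)) (l 383493603655))))))) (a (b (c (l 16777648) (a (l 16776008) (a (l 16776536) (b (l 16776616) (b (l 16777024) (l 255718326967)))))) (a (c (l 194515044119) (b (l 99488891575) (a (b (l 16777056) (l 278266905287)) (l 408189665719)))) (a (b (c (l 16777288) (b (l 211694912151) (l 436106953079))) (l 3)) (l 3)))) (a (b (c (l 332490866855) (c (l 333027737767) (b (a (l 16776960) (l 337322704983)) (l 414632116839)))) (l 3)) (l 3))))) (a (b (b (a (c (l 16775712) (l 16775736)) (a (c (l 16776768) (a (l 16777272) (b (l 16776696) (a (l 154249724567) (l 262160778071))))) (c (l 343228285223) (b (a (l 133311758967) (a (l 255181456183) (l 405505311079))) (l 435570082519))))) (c (a (c (l 141364823943) (l 138680469383)) (l 414095246679)) (a (a (l 75866571575) (c (l 208473687639) (b (l 110226309879) (b (l 333564608599) (l 414632116727)))))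 (c (l 424832664903) (a (b (l 394767892983) (l 3)) (l 3)))))) (a (b (c (l 378661766023) (a (b (a (a (l 16777032) (l 209010557703)) (l 382419861831)) (l 3)) (l 3))) (l 3)) (l 3))) (l 3)))), by decide +kernel⟩

def k40_mm_202_s : ∃ t, chk3 f_mm_202_s t 121 73 1 = true :=
  ⟨(a (b (a (b (a (a (c (b (l 16776616) (l 379198636695)) (b (c (l 16776624) (c (l 16776632) (b (l 16776368) (l 108078826167)))) (b (a (b (l 139754209863) (l 322827191031)) (l 443086275111)) (l 3)))) (b (a (c (l 205789332919) (c (l 203641849095) (b (l 16776888) (l 374366798103)))) (b (c (l 16777192) (b (l 16777424) (l 296520516359))) (l 3))) (l 3))) (a (c (l 440938792759) (b (c (l 442012533847) (b (l 440938791639) (l 3))) (l 3))) (l 3))) (l 3)) (l 3)) (l 3)) (l 3)), by decide +kernel⟩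

def k41_mm_202_s : ∃ t, chk3 f_mm_202_s t 60 37 1 = true :=
  ⟨(a (b (a (b (a (a (b (c (l 16775016) (l 16775048)) (b (c (l 129016793031) (a (l 16776336) (b (l 16776760) (a (l 156934079255) (l 384567345495))))) (a (c (l 247665264903) (b (a (l 16776976) (a (l 222969201447) (l 298668000199))) (l 409263407751))) (l 3)))) (b (c (a (l 16776072) (b (l 16776240) (l 237464717271))) (b (l 16775904) (c (a (l 16776632) (l 242296555159)) (a (l 99488891703) (b (a (l 16776896) (l 233169748759)) (l 395304763911)))))) (b (c (l 395841635463) (c (l 398525990007) (a (b (l 358797541671) (l 3)) (l 3)))) (l 3)))) (a (b (c (b (c (l 313700384023) (l 313700384679)) (l 439328179767)) (b (c (a (l 16777904) (l 368998089239)) (a (a (l 100025762551) (b (l 16776856) (l 362018767063))) (a (b (l 219211104999) (l 3)) (l 426443277095)))) (c (l 444696888871) (a (l 443623146567) (l 3))))) (l 3)) (l 3))) (l 3)) (l 3)) (l 3)) (l 3)), by decide +kernel⟩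

def k42_mm_202_s : ∃ t, chk3 f_mm_202_s t 61 18 1 = true :=
  ⟨(l 3), by decide +kernel⟩

def k43_mm_202_s : ∃ t, chk3 f_mm_202_s t 31 18 1 = true :=
  ⟨(l 3), by decide +kernel⟩

def k44_mm_202_s : ∃ t, chk3 f_mm_202_s t 15 19 1 = true :=
  ⟨(l 3), by decide +kernel⟩

def k45_mm_202_s : ∃ t, chk3 f_mm_202_s t 28 40 1 = true :=
  ⟨(b (a (c (l 16773304) (l 16773752)) (b (a (c (l 16766944) (l 16777568)) (a (a (c (l 16773896) (c (l 16773920) (l 16773944))) (b (c (l 16778168) (c (l 16775560) (l 113447537047))) (b (c (l 214916141255) (a (l 16776520) (l 364703122311))) (c (l 368461219271) (a (l 254644587703) (l 3)))))) (a (a (b (c (l 326585287031) (b (l 196125657639) (l 406579053863))) (l 3)) (l 3)) (l 3)))) (a (b (c (l 16775544) (l 16778240)) (a (l 16769792) (a (l 16776536) (c (a (l 16775968) (l 223506076375)) (a (l 16775976) (b (l 16778088) (l 361481896839))))))) (a (a (b (c (a (l 16779112) (l 343228285767)) (a (c (l 16776496) (l 144049179239)) (b (l 224042945415) (l 431275116199))))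 (c (l 417316473895) (a (l 411410892823) (l 3)))) (l 3)) (l 3))))) (a (b (c (l 16780104) (l 16775160)) (a (l 16758200) (c (l 16779688) (a (l 16766576) (l 16777288))))) (a (a (a (b (l 16776960) (b (c (l 16775016) (l 16775040)) (c (a (l 16776504) (l 341617673063)) (a (l 148881017975) (l 339470189383))))) (b (c (l 16779032) (b (l 16773392) (l 120426859383))) (b (c (l 322827190775) (a (c (l 16778976) (l 200957496775)) (l 378661766823))) (l 3)))) (b (a (b (c (l 145122922519) (c (l 16778704) (a (l 16775448) (l 159618436199)))) (c (l 349670737287) (a (b (l 195051915799) (l 402284086583)) (l 428590762423)))) (b (c (l 378124896503) (a (b (l 253570845863) (l 3)) (l 3))) (l 3))) (l 3))) (l 3)))), by decide +kernel⟩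

def k46_mm_202_s : ∃ t, chk3 f_mm_202_s t 28 41 1 = true :=
  ⟨(a (a (b (c (l 16775328) (l 16778128)) (a (b (l 16774088) (c (l 16778480) (a (l 16771944) (l 108615700711)))) (b (a (c (l 16772896) (l 16772960)) (b (l 16777176) (c (l 189146338535) (a (l 16776080) (l 224579818039))))) (a (b (c (l 16778816) (l 149954760823)) (c (l 350744479415) (l 355576317095))) (b (c (l 388862315031) (l 395304765367)) (l 3)))))) (b (a (b (c (l 16770880) (l 16770976)) (a (c (l 16773952) (l 16774000)) (b (c (l 16775592) (l 16778232)) (c (l 322827190887) (a (l 202568110263) (l 379198637831)))))) (b (b (a (l 16773944) (c (l 185925112903) (c (l 181093273975) (a (l 16776008) (l 221358591863))))) (a (c (l 149417889879) (c (l 16776120) (l 141364825575))) (c (l 387251702103) (a (l 358797542695) (l 3))))) (a (b (c (l 349133866487) (a (l 321753448887) (l 3))) (l 3)) (l 3)))) (a (b (a (b (c (l 215453013975) (a (l 155860339959) (l 341080802247))) (c (l 417316474167) (l 421074570183))) (l 3)) (l 3)) (l 3))))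 (a (b (a (b (a (b (c (l 416779603079) (l 417316473879)) (l 3)) (l 3)) (l 3)) (l 3)) (l 3)) (l 3))), by decide +kernel⟩

def k47_mm_202_s : ∃ t, chk3 f_mm_202_s t 28 21 1 = true :=
  ⟨(a (b (a (b (a (b (a (b (c (l 16775192) (l 16775216)) (c (l 220821723127) (a (l 16778000) (l 357723800087)))) (b (c (l 325511545655) (l 325511545447)) (l 3))) (c (l 419463961767) (l 460266145783))) (l 3)) (l 3)) (l 3)) (l 3)) (l 3)), by decide +kernel⟩

def k48_mm_202_s : ∃ t, chk3 f_mm_202_s t 29 10 1 = true :=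
  ⟨(l 3), by decide +kernel⟩

def k49_mm_202_s : ∃ t, chk3 f_mm_202_s t 15 10 1 = true :=
  ⟨(l 3), by decide +kernel⟩

def k50_mm_202_s : ∃ t, chk3 f_mm_202_s t 7 11 1 = true :=
  ⟨(l 3), by decide +kernel⟩

def k51_mm_202_s : ∃ t, chk3 f_mm_202_s t 3 3 1 = true :=
  ⟨(b (a (b (a (b (a (b (a (l 16737784) (b (l 16750392) (l 16757952))) (a (l 16752216) (b (c (l 16765400) (l 16765352)) (a (l 16768520) (c (a (l 188609473847) (l 336785829191)) (l 278266903351)))))) (b (a (a (b (l 16763192) (c (b (l 16768984) (l 16772784)) (l 143512318151))) (b (c (l 148881025639) (l 141901703703)) (b (a (l 175187696887) (l 401210336567)) (l 397989107351)))) (a (b (c (l 375977402583) (l 383493592983)) (l 3)) (l 3))) (a (a (b (b (a (l 16774352) (l 258402694391)) (l 368461210215)) (l 3)) (l 3)) (l 3)))) (a (b (b (a (l 16778872) (a (c (a (l 16773808) (l 236927861111)) (l 207936833543)) (l 401210325415))) (a (c (a (l 16766336) (a (l 16772664) (l 225653569319))) (l 181093287335)) (a (l 389936044487) (l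 3)))) (a (c (b (a (l 201494377015) (l 379198624759)) (l 383493584903)) (a (b (l 16773560) (l 360945014807)) (l 386177935079))) (l 3))) (l 3))) (l 3)) (l 3)) (l 3)) (l 3)), by decide +kernel⟩

theorem s52_mm_202_s : ∃ t, chk3 f_mm_202_s t 28 20 1 = true := ex3_b k45_mm_202_s k46_mm_202_s

theorem s53_mm_202_s : ∃ t, chk3 f_mm_202_s t 28 10 1 = true := ex3_b s52_mm_202_s k47_mm_202_s

theorem s54_mm_202_s : ∃ t, chk3 f_mm_202_s t 14 10 1 = true := ex3_a s53_mm_202_s k48_mm_202_s

theorem s55_mm_202_s : ∃ t, chk3 f_mm_202_s t 7 10 1 = true := ex3_a s54_mm_202_s k49_mm_202_s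

theorem s56_mm_202_s : ∃ t, chk3 f_mm_202_s t 7 5 1 = true := ex3_b s55_mm_202_s k50_mm_202_s

theorem s57_mm_202_s : ∃ t, chk3 f_mm_202_s t 60 73 1 = true := ex3_a k39_mm_202_s k40_mm_202_s

theorem s58_mm_202_s : ∃ t, chk3 f_mm_202_s t 60 72 1 = true := ex3_b k37_mm_202_s k38_mm_202_s

theorem s59_mm_202_s : ∃ t, chk3 f_mm_202_s t 60 36 1 = true := ex3_b s58_mm_202_s s57_mm_202_s

theorem s60_mm_202_s : ∃ t, chk3 f_mm_202_s t 60 18 1 = true := ex3_b s59_mm_202_s k41_mm_202_s

theorem s61_mm_202_s : ∃ t, chk3 f_mm_202_s t 30 18 1 = true := ex3_a s60_mm_202_s k42_mm_202_s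

theorem s62_mm_202_s : ∃ t, chk3 f_mm_202_s t 15 18 1 = true := ex3_a s61_mm_202_s k43_mm_202_s

theorem s63_mm_202_s : ∃ t, chk3 f_mm_202_s t 15 9 1 = true := ex3_b s62_mm_202_s k44_mm_202_s

theorem s64_mm_202_s : ∃ t, chk3 f_mm_202_s t 29 38 1 = true := ex3_a k34_mm_202_s k35_mm_202_s

theorem s65_mm_202_s : ∃ t, chk3 f_mm_202_s t 29 19 1 = true := ex3_b s64_mm_202_s k36_mm_202_s

theorem s66_mm_202_s : ∃ t, chk3 f_mm_202_s t 14 19 1 = true := ex3_a k33_mm_202_s s65_mm_202_s

theorem s67_mm_202_s : ∃ t, chk3 f_mm_202_s t 119 37 1 = true := ex3_a k31_mm_202_s k32_mm_202_s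

theorem s68_mm_202_s : ∃ t, chk3 f_mm_202_s t 59 37 1 = true := ex3_a k30_mm_202_s s67_mm_202_s

theorem s69_mm_202_s : ∃ t, chk3 f_mm_202_s t 29 37 1 = true := ex3_a k29_mm_202_s s68_mm_202_s

theorem s70_mm_202_s : ∃ t, chk3 f_mm_202_s t 29 18 1 = true := ex3_b k28_mm_202_s s69_mm_202_s

theorem s71_mm_202_s : ∃ t, chk3 f_mm_202_s t 14 18 1 = true := ex3_a k27_mm_202_s s70_mm_202_s

theorem s72_mm_202_s : ∃ t, chk3 f_mm_202_s t 14 9 1 = true := ex3_b s71_mm_202_s s66_mm_202_s

theorem s73_mm_202_s : ∃ t, chk3 f_mm_202_s t 7 9 1 = true := ex3_a s72_mm_202_s s63_mm_202_s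

theorem s74_mm_202_s : ∃ t, chk3 f_mm_202_s t 246 140 1 = true := ex3_b k21_mm_202_s k22_mm_202_s

theorem s75_mm_202_s : ∃ t, chk3 f_mm_202_s t 246 70 1 = true := ex3_b s74_mm_202_s k23_mm_202_s

theorem s76_mm_202_s : ∃ t, chk3 f_mm_202_s t 123 70 1 = true := ex3_a s75_mm_202_s k24_mm_202_s

theorem s77_mm_202_s : ∃ t, chk3 f_mm_202_s t 123 35 1 = true := ex3_b s76_mm_202_s k25_mm_202_s

theorem s78_mm_202_s : ∃ t, chk3 f_mm_202_s t 245 35 1 = true := ex3_b k19_mm_202_s k20_mm_202_s

theorem s79_mm_202_s : ∃ t, chk3 f_mm_202_s t 244 71 1 = true := ex3_b k17_mm_202_s k18_mm_202_s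

theorem s80_mm_202_s : ∃ t, chk3 f_mm_202_s t 244 35 1 = true := ex3_b k16_mm_202_s s79_mm_202_s

theorem s81_mm_202_s : ∃ t, chk3 f_mm_202_s t 122 35 1 = true := ex3_a s80_mm_202_s s78_mm_202_s

theorem s82_mm_202_s : ∃ t, chk3 f_mm_202_s t 61 35 1 = true := ex3_a s81_mm_202_s s77_mm_202_s

theorem s83_mm_202_s : ∃ t, chk3 f_mm_202_s t 30 35 1 = true := ex3_a k15_mm_202_s s82_mm_202_s

theorem s84_mm_202_s : ∃ t, chk3 f_mm_202_s t 247 139 1 = true := ex3_a k13_mm_202_s k14_mm_202_s

theorem s85_mm_202_s : ∃ t, chk3 f_mm_202_s t 247 69 1 = true := ex3_b k12_mm_202_s s84_mm_202_s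

theorem s86_mm_202_s : ∃ t, chk3 f_mm_202_s t 247 34 1 = true := ex3_b k11_mm_202_s s85_mm_202_s

theorem s87_mm_202_s : ∃ t, chk3 f_mm_202_s t 123 34 1 = true := ex3_a k10_mm_202_s s86_mm_202_s

theorem s88_mm_202_s : ∃ t, chk3 f_mm_202_s t 61 34 1 = true := ex3_a k9_mm_202_s s87_mm_202_s

theorem s89_mm_202_s : ∃ t, chk3 f_mm_202_s t 30 34 1 = true := ex3_a k8_mm_202_s s88_mm_202_s

theorem s90_mm_202_s : ∃ t, chk3 f_mm_202_s t 30 17 1 = true := ex3_b s89_mm_202_s s83_mm_202_s

theorem s91_mm_202_s : ∃ t, chk3 f_mm_202_s t 15 17 1 = true := ex3_a s90_mm_202_s k26_mm_202_s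

theorem s92_mm_202_s : ∃ t, chk3 f_mm_202_s t 15 8 1 = true := ex3_b k7_mm_202_s s91_mm_202_s

theorem s93_mm_202_s : ∃ t, chk3 f_mm_202_s t 7 8 1 = true := ex3_a k6_mm_202_s s92_mm_202_s

theorem s94_mm_202_s : ∃ t, chk3 f_mm_202_s t 7 4 1 = true := ex3_b s93_mm_202_s s73_mm_202_s

theorem s95_mm_202_s : ∃ t, chk3 f_mm_202_s t 7 2 1 = true := ex3_b s94_mm_202_s s56_mm_202_s

theorem s96_mm_202_s : ∃ t, chk3 f_mm_202_s t 27 5 1 = true := ex3_a k4_mm_202_s k5_mm_202_s

theorem s97_mm_202_s : ∃ t, chk3 f_mm_202_s t 27 2 1 = true := ex3_b k3_mm_202_s s96_mm_202_s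

theorem s98_mm_202_s : ∃ t, chk3 f_mm_202_s t 13 2 1 = true := ex3_a k2_mm_202_s s97_mm_202_s

theorem s99_mm_202_s : ∃ t, chk3 f_mm_202_s t 6 2 1 = true := ex3_a k1_mm_202_s s98_mm_202_s

theorem s100_mm_202_s : ∃ t, chk3 f_mm_202_s t 3 2 1 = true := ex3_a s99_mm_202_s s95_mm_202_s

theorem s101_mm_202_s : ∃ t, chk3 f_mm_202_s t 3 1 1 = true := ex3_b s100_mm_202_s k51_mm_202_s

theorem s102_mm_202_s : ∃ t, chk3 f_mm_202_s t 1 1 1 = true := ex3_a k0_mm_202_s s101_mm_202_s

theorem c_mm_202_s : CertNE 0 536870912 1073741824 536870912 818728140 40265320 3 eng mog cd0q2 cd4q2 pd0 false false false .pp 2 0 2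
    ndB0q2 ndB4q2 pcB0 cut_mm_202_s Ext.none :=
  certNE1 (fam := false) (s1 := false) (s2 := false) (a := 2) (b := 0) (c := 2) (cn := .pp) (n1 := ndB0q2) (n2 := ndB4q2) (pc := pcB0) (cut := cut_mm_202_s) (xt := Ext.none) (P1 := 0) (W1 := 536870912) (P2 := 1073741824) (W2 := 536870912) (P3 := 818728140) (W3 := 40265320) (N0 := 3) (En := eng) (mo := mog) (C1 := cd0q2) (C2 := cd4q2) (C3 := pd0)
    rfl (fun _ => rfl) s102_mm_202_s

noncomputable def cut_mm_203_s : Cut := Cut.of [[⟨4, 0, 0, 1449551462⟩]]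

noncomputable def f_mm_203_s : ℕ → ℕ → ℕ → ℕ → Bool := onCell 0 536870912 0 1230186008 818728140 40265320
    (rowNE 3 eng mog cd0q2 cd4q3 pd0 0 false false false .up 2 0 3 (qsf 0 536870912 0 1230186008 0) ndB0q2 ndB4q3 pcB0 cut_mm_203_s Ext.none)

def k0_mm_203_s : ∃ t, chk3 f_mm_203_s t 1 2 1 = true :=
  ⟨(l 2), by decide +kernel⟩

def k1_mm_203_s : ∃ t, chk3 f_mm_203_s t 1 6 1 = true :=
  ⟨(l 2), by decide +kernel⟩

def k2_mm_203_s : ∃ t, chk3 f_mm_203_s t 2 14 1 = true :=
  ⟨(a (b (l 2) (b (l 2) (a (b (l 16763200) (l 16736864)) (a (a (b (l 239612176743) (l 16764384)) (b (l 345912620247) (a (l 229948505511) (l 300278605575)))) (l 3))))) (l 3)), by decide +kernel⟩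

def k3_mm_203_s : ∃ t, chk3 f_mm_203_s t 2 15 1 = true :=
  ⟨(b (a (a (b (a (l 16706696) (l 16728896)) (l 16706952)) (b (a (b (a (l 16752832) (l 16770264)) (l 16745752)) (b (a (b (l 318532211671) (a (l 16772216) (l 286856798935))) (l 3)) (a (b (l 208473666247) (l 16762752)) (a (b (l 331953985943) (l 233169723927)) (l 361481877495))))) (a (b (l 16730936) (l 16715656)) (b (a (l 16752088) (a (l 16764264) (b (l 256255214455) (l 16769224)))) (a (l 16737448) (l 16754296)))))) (a (b (l 3) (a (b (a (a (b (l 367387459223) (l 287393725431)) (l 3)) (l 3)) (c (a (a (l 16767632) (b (l 287393670327) (l 16772288))) (b (l 3) (l 346449493511))) (a (l 231559083783) (l 349133838407)))) (l 3))) (l 3))) (b (a (a (a (l 16642376) (l 16666472)) (a (b (l 16700144) (l 16684712)) (b (l 16752016) (l 16716056)))) (a (a (c (b (a (l 16758040) (c (b (l 287393705703) (l 220284836487)) (l 248202126183))) (b (l 16771576) (l 16748752))) (b (a (l 16756360) (a (l 16769584) (l 289541188295))) (l 16750464))) (a (c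 (b (a (l 365239971095) (l 3)) (a (b (l 253033988327) (l 16769280)) (b (l 370608684967) (a (l 239075321991) (l 299741757047))))) (b (l 369534926647) (a (l 233706576807) (l 309942277959)))) (l 3))) (l 3))) (a (a (l 16727272) (l 16719888)) (a (a (b (l 16757432) (l 16720776)) (a (b (c (b (l 16766272) (l 16758944)) (l 16761776)) (l 16746704)) (c (b (a (b (l 302962961959) (l 16771432)) (b (l 3) (l 318532215847))) (b (a (l 16763960) (l 221895438615)) (l 16760536))) (b (a (l 244980937175) (l 334638333623)) (l 196662489431))))) (a (b (l 3) (a (c (a (b (l 335175211287) (l 232632891799)) (b (l 3) (l 351281335655))) (b (l 363629357415) (l 290078059271))) (l 3))) (l 3)))))), by decide +kernel⟩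

def k4_mm_203_s : ∃ t, chk3 f_mm_203_s t 3 7 1 = true :=
  ⟨(l 3), by decide +kernel⟩

theorem s5_mm_203_s : ∃ t, chk3 f_mm_203_s t 2 7 1 = true := ex3_b k2_mm_203_s k3_mm_203_s

theorem s6_mm_203_s : ∃ t, chk3 f_mm_203_s t 1 7 1 = true := ex3_a s5_mm_203_s k4_mm_203_s

theorem s7_mm_203_s : ∃ t, chk3 f_mm_203_s t 1 3 1 = true := ex3_b k1_mm_203_s s6_mm_203_s

theorem s8_mm_203_s : ∃ t, chk3 f_mm_203_s t 1 1 1 = true := ex3_b k0_mm_203_s s7_mm_203_s

theorem c_mm_203_s : CertNE 0 536870912 0 1230186008 818728140 40265320 3 eng mog cd0q2 cd4q3 pd0 false false false .up 2 0 3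
    ndB0q2 ndB4q3 pcB0 cut_mm_203_s Ext.none :=
  certNE0 (fam := false) (s1 := false) (s2 := false) (a := 2) (b := 0) (c := 3) (cn := .up) (n1 := ndB0q2) (n2 := ndB4q3) (pc := pcB0) (cut := cut_mm_203_s) (xt := Ext.none) (P1 := 0) (W1 := 536870912) (P2 := 0) (W2 := 1230186008) (P3 := 818728140) (W3 := 40265320) (N0 := 3) (En := eng) (mo := mog) (C1 := cd0q2) (C2 := cd4q3) (C3 := pd0)
    rfl s8_mm_203_s

noncomputable def cut_mm_213_s : Cut := Cut.of [[⟨4, 0, 0, 1449551462⟩]]

noncomputable def f_mm_213_s : ℕ → ℕ → ℕ → ℕ → Bool := onCell 0 536870912 0 1230186008 818728140 40265320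
    (rowNE 3 eng mog cd0q2 cd4q3 pd1 0 false false false .pnn 2 1 3 (qsf 0 536870912 0 1230186008 1) ndB0q2 ndB4q3 pcB1 cut_mm_213_s Ext.none)

def k0_mm_213_s : ∃ t, chk3 f_mm_213_s t 1 1 1 = true :=
  ⟨(b (a (l 3) (b (l 5) (l 3))) (b (a (b (l 3) (a (l 3) (l 3))) (l 3)) (a (b (a (b (a (a (b (b (l 316921595687) (l 290078055975)) (b (l 226727260599) (l 16759104))) (b (l 3) (b (l 340543907799) (l 303499846359)))) (l 3)) (b (a (a (l 16741600) (a (b (l 16767984) (l 16756848)) (b (l 297594249895) (l 222432346455)))) (a (b (l 3) (l 331953972215)) (l 3))) (b (a (a (l 16720792) (l 16751592)) (a (a (b (l 240685920503) (l 16770136)) (l 338933299351)) (l 3))) (l 1)))) (l 3)) (b (a (l 1) (a (l 1) (l 3))) (l 1))) (l 3)))), by decide +kernel⟩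

theorem c_mm_213_s : CertNE 0 536870912 0 1230186008 818728140 40265320 3 eng mog cd0q2 cd4q3 pd1 false false false .pnn 2 1 3
    ndB0q2 ndB4q3 pcB1 cut_mm_213_s Ext.none :=
  certNE0 (fam := false) (s1 := false) (s2 := false) (a := 2) (b := 1) (c := 3) (cn := .pnn) (n1 := ndB0q2) (n2 := ndB4q3) (pc := pcB1) (cut := cut_mm_213_s) (xt := Ext.none) (P1 := 0) (W1 := 536870912) (P2 := 0) (W2 := 1230186008) (P3 := 818728140) (W3 := 40265320) (N0 := 3) (En := eng) (mo := mog) (C1 := cd0q2) (C2 := cd4q3) (C3 := pd1)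
    rfl k0_mm_213_s

end Pool.Agent.Strip051.G.I7625_8000.Tab.CS.BB04

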