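import Pool.Agent.Strip051.G.I7625_8000.Tab
import Pool.Agent.Strip051.PB.ExtD2

/-! # Certificates B6 (generated) -/

set_option linter.all false
set_option maxRecDepth 100000

namespace Pool.Agent.Strip051.G.I7625_8000.Tab.C.BB00

open Pool.Agent.Strip051.PB Pool.Agent.Strip051.PB.T
open Pool.Agent.Strip051.G.I7625_8000.Tab

noncomputable def cut_pm_102 : Cut := Cut.of [[⟨3, 0, 0, 1449551462⟩], [⟨4, 0, 0, 2845415833⟩], [⟨0, 1, 0, 67108864⟩, ⟨1, 0, 0, 67108864⟩, ⟨2, 1, 0, 67108864⟩], [⟨0, 0, 1, 26214400⟩, ⟨1, 1, 2, 26214400⟩, ⟨2, 1, 0, 33554432⟩]]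

noncomputable def xt_pm_102 : Ext := extD2 3 ⟨4, 1, 1, 5, 13, 5, 23, 25, 43, 100, 1, 8⟩ eng cd0q1 cd0q2 pd0 false true false .npp 1 0 2 rfl ndB0q1 ndB0q2 pcB0

noncomputable def f_pm_102 : ℕ → ℕ → ℕ → ℕ → Bool := onCell 0 536870912 0 536870912 818728140 40265320
    (rowB 3 eng mog cd0q1 cd0q2 pd0 2 false true false .npp 1 0 2 (qsf 536870912 536870912 0 536870912 0) ndB0q1 ndB0q2 pcB0 cut_pm_102 xt_pm_102)

def k0_pm_102 : ∃ t, chk3 f_pm_102 t 2 2 1 = true :=
  ⟨(l 6), by decide +kernel⟩

def k1_pm_102 : ∃ t, chk3 f_pm_102 t 4 3 1 = true :=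
  ⟨(b (l 3) (a (l 6) (b (l 6) (a (l 6) (l 6))))), by decide +kernel⟩

def k2_pm_102 : ∃ t, chk3 f_pm_102 t 10 6 1 = true :=
  ⟨(l 6), by decide +kernel⟩

def k3_pm_102 : ∃ t, chk3 f_pm_102 t 10 14 1 = true :=
  ⟨(l 6), by decide +kernel⟩

def k4_pm_102 : ∃ t, chk3 f_pm_102 t 20 15 1 = true :=
  ⟨(b (l 6) (a (b (l 6) (b (l 6) (a (b (l 6) (a (l 6) (c (c (l 144118727046496623) (l 144028773239554415)) (c (l 143937032726118767) (a (l 143852782637908335) (l 143834778130317679)))))) (a (c (c (l 144107594486579567) (l 143838970040222063)) (b (l 143734722581594479) (c (l 143897519017165167) (b (l 143820965510627695) (l 143787636558807407))))) (b (c (l 144051519382569327) (l 143694865274847599)) (c (c (l 144034133350826351) (l 143944660579860847)) (c (l 143853401102418287) (b (l 143778153265938799) (l 143742625290584431))))))))) (b (a (l 6) (a (l 6) (b (l 6) (c (l 143925419139793263) (l 143773205478375791))))) (b (b (a (c (l 143931466462642543) (l 143767914086498671)) (b (c (l 143863365442732399) (l 143702493125804399)) (c (l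 143829280576323951) (l 143664903565427055)))) (a (b (c (l 143885080807604591) (l 143716992945078639)) (c (l 143853332403863919) (l 143682152164262255))) (c (a (l 143801174307225967) (l 143751764991689071)) (a (l 143631643334803823) (l 143581615543501103))))) (a (c (a (a (l 143806878032265583) (l 143783238526763375)) (c (b (l 144003896769610095) (l 143936139354669423)) (b (l 143917447655817583) (l 143846391705354607)))) (b (a (l 143651503274180975) (l 143604636579561839)) (c (a (l 143805847213244783) (l 143754788630118767)) (b (l 143526639963832687) (a (l 143693903169995119) (l 143641264038560111)))))) (a (b (c (c (l 143954006417949039) (l 143867351145496943)) (l 143553990313083247)) (c (c (l 143882469431312751) (l 143792240745382255)) (a (l 143487194971881775) (c (l 143685725540204911) (l 143591511124508975))))) (c (c (b (l 143900954969784687) (b (l 143844742428934511) (l 143806396954984815))) (b (l 143813749941240175) (b (l 143754651181826415) (l 143714312842690927)))) (c (b (l 143724758206267759) (a (l 143656451036512623)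 (l 143626214459949423))) (b (l 143453866016375087) (a (b (l 143583677100851503) (l 143539559189856559)) (l 143350718064312623))))))))))), by decide +kernel⟩

def k5_pm_102 : ∃ t, chk3 f_pm_102 t 21 30 1 = true :=
  ⟨(a (l 6) (b (l 6) (b (l 6) (a (a (l 6) (l 16696680)) (c (l 16695680) (l 16686904)))))), by decide +kernel⟩

def k6_pm_102 : ∃ t, chk3 f_pm_102 t 42 62 1 = true :=
  ⟨(b (a (l 6) (c (l 16700048) (b (l 16715320) (l 16686928)))) (c (a (a (l 143882263297245551) (l 143835808919241071)) (a (l 143786124725223791) (l 143732935837270383))) (a (b (l 143746267432993071) (c (l 143706478847164783) (l 143627313999085871))) (b (l 143739051862688047) (a (l 143589037236502831) (l 143531862617964847)))))), by decide +kernel⟩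

def k7_pm_102 : ∃ t, chk3 f_pm_102 t 42 126 1 = true :=
  ⟨(a (a (b (c (l 143774442419290479) (l 143610958761214255)) (c (l 143699057140662639) (l 143527602021859631))) (b (c (l 143722284323979631) (l 143557494995271983)) (c (l 143642913315176815) (l 143514614027141423)))) (a (b (c (l 143666621534732655) (l 143499908060021039)) (c (l 143583264795754863) (c (l 143632193043906863) (l 143362331645935855)))) (b (c (l 143607454051516719) (l 143438129235951855)) (c (l 143519974143410479) (c (l 143566497209254191) (l 143294986543431919)))))), by decide +kernel⟩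

def k8_pm_102 : ∃ t, chk3 f_pm_102 t 42 254 1 = true :=
  ⟨(b (a (a (c (c (l 143864052601143663) (l 143777053730881903)) (l 143462936983650607)) (c (c (l 143805434874282351) (l 143717336492048751)) (l 143401433037914415))) (a (c (c (l 143743381172961647) (l 143653908400800047)) (a (l 143352573478912303) (l 143318626049818863))) (c (c (l 143677754058211695) (l 143586563298672943)) (a (l 143283579108901103) (l 143247432656158959))))) (a (a (c (c (l 143825157371150703) (l 143736096916210031)) (l 143418750353015087)) (c (c (l 143764546779201903) (l 143674318092796271)) (c (l 143581959102628143) (l 143487744686571823)))) (c (a (c (l 143700500212793711) (l 143608690978013487)) (c (l 143632811513463151) (l 143539146852352303))) (a (a (l 143304263679148271) (l 143269148018786543)) (c (l 143263100699984175) (l 143164969272918255)))))), by decide +kernel⟩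

def k9_pm_102 : ∃ t, chk3 f_pm_102 t 84 255 1 = true :=
  ⟨(c (b (a (c (l 143785574946357615) (l 143694452906770799)) (c (l 143722971489337711) (l 143630475059806575))) (a (c (l 143745236607336815) (b (l 143662635784110447) (l 143641195304092015))) (a (c (l 143697064243708271) (l 143602712388026735)) (c (l 143663872729284975) (a (l 143577286176129391) (l 143560037583749423)))))) (a (b (c (l 143601200563372335) (l 143325910326100271)) (a (c (l 143572819416138031) (l 143475650062270767)) (c (l 143539971499032879) (l 143442046230741295)))) (c (b (a (l 143552547163046191) (l 143518805892546863)) (a (b (l 143517775102443823) (l 143494341757288751)) (a (l 143480048102261039) (l 143462318462697775)))) (b (a (l 143456271162409263) (l 143421636538515695)) (a (b (l 143419643675640111) (l 143394904660214063)) (b (l 143384115698417903) (a (l 143367897900007663) (l 143349549795770607)))))))), by decide +kernel⟩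

def k10_pm_102 : ∃ t, chk3 f_pm_102 t 85 255 1 = true :=
  ⟨(c (b (a (c (l 143656794618872175) (a (l 143580034952855855) (l 143545125451104559))) (c (l 143587044334961007) (a (l 143509253876498735) (l 143472351509561647)))) (a (c (a (l 143629787861516655) (l 143594809640370543)) (a (c (l 143557975997399407) (l 143509322600595759)) (c (l 143522173142368559) (l 143473038709096751)))) (a (c (l 143558869346386287) (c (l 143485476933943599) (l 143435724025266479))) (c (l 143521966979547439) (c (l 143447749933203759) (l 143397447268581679)))))) (a (c (b (a (l 143484033829716271) (l 143448162255061295)) (a (b (l 143447543781966127) (c (l 143447887379267887) (l 143397722153910575))) (a (c (l 143432562931892527) (l 143382328987042095)) (c (l 143413939949699375) (l 143363431116144943))))) (b (a (l 143385902402781423) (l 143168886287237359)) (a (b (l 143347419489894639) (b (l 143327971864281327) (c (l 143340547540959535) (l 143289076634779887)))) (c (b (l 143335049979609327) (a (l 143318488583799023) (l 143299109687214319))) (b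 (l 143283853962100975) (a (l 143266742810394863) (b (l 143253823545606383) (l 143240217087148271)))))))) (c (b (a (l 143411259888058671) (l 143373189289771247)) (b (a (l 143372914414207279) (l 143333950462591215)) (a (c (l 143372639536169263) (c (l 143334225343004975) (l 143308455535427887))) (c (l 143333400706646319) (a (l 143291550539727087) (l 143271278289830127)))))) (a (b (l 143130815688900847) (c (b (l 143296360905916655) (a (l 143279387193213167) (l 143259389821239535))) (b (l 143244546413002991) (a (b (l 143233894893109487) (l 143220150984949999)) (c (l 143219944835891439) (l 143193487828173039)))))) (b (l 143091508139770095) (c (b (l 143256434881446127) (a (l 143239117571309807) (l 143218570443423983))) (a (b (l 143214241117307119) (b (l 143193144234770671) (c (l 143192388320329967) (l 143165656440029423)))) (b (l 143193625269928175) (b (l 143172322228912367) (c (l 143171497594994927) (l 143144559556231407))))))))))), by decide +kernel⟩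

def k11_pm_102 : ∃ t, chk3 f_pm_102 t 43 62 1 = true :=
  ⟨(a (b (a (c (l 16691032) (c (l 16683656) (l 16678776))) (c (l 16686680) (l 16676648))) (b (a (a (l 143747092035420463) (c (l 143703936208650607) (l 16670328))) (c (l 143651503242002735) (l 143501488601301231))) (a (a (c (l 143828318453596527) (l 143666415342518511)) (c (l 143617555811647791) (l 143454415749611759))) (c (l 143563267419046191) (l 143403425891500271))))) (b (c (a (l 16683104) (l 143637759353766191)) (a (l 143758155863720175) (l 143692322553905391))) (a (a (c (l 143551997426696495) (l 143400951992647919)) (c (l 143514476588515631) (l 143365698853961967))) (b (c (l 143505474338685231) (l 143364942984741103)) (b (c (l 143440671860900143) (l 143291619290529903)) (c (l 143400677117935919) (l 143357521260331119))))))), by decide +kernel⟩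

def k12_pm_102 : ∃ t, chk3 f_pm_102 t 43 126 1 = true :=
  ⟨(a (c (b (a (a (l 143740838545129775) (a (l 143716718003290415) (l 143519286943531311))) (l 143472076658508079)) (a (a (l 143470083792142639) (a (l 143624427731173679) (l 143426172037595439))) (a (l 143396897537737007) (a (l 143547393188970799) (l 143348450301935919))))) (b (a (a (l 143388994798731503) (a (l 143543613615554799) (l 143345976397168879))) (c (l 143345151765184751) (l 143258290333450479))) (a (a (l 143288183310024943) (a (l 143260832952205551) (c (l 143289076660666607) (l 143195068402647279)))) (a (l 143305019569373423) (c (l 143224136748253423) (l 143132121354797295)))))) (a (a (b (c (l 143413939975455023) (l 143247363937059055)) (c (c (b (l 143568352635453743) (l 143529319965327663)) (l 143282204716335407)) (b (l 143215271928791151) (l 143189845713944687)))) (b (c (l 143380267427971375) (b (l 143238224246669551) (l 143189845726625903))) (c (c (l 143525746552406319) (l 143437785607700719)) (l 143211767227056239)))) (c (a (b (l 143354497620246767)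 (l 143280418009301231)) (b (l 143513858082799855) (l 143258771370180847))) (b (c (l 143219944862154991) (l 143134526538842223)) (c (l 143133701902516463) (l 143130197151596655)))))), by decide +kernel⟩

def k13_pm_102 : ∃ t, chk3 f_pm_102 t 172 127 1 = true :=
  ⟨(b (a (c (c (l 143602987252662575) (l 143509047713481007)) (b (l 143210117972115695) (l 143201940346110191))) (c (a (c (l 143576049211932975) (l 143481216319373615)) (c (b (l 143580859575730479) (l 143533099532058927)) (b (l 143487194914357551) (l 143436754810650927)))) (a (c (l 143384046964605167) (l 143284541147660527)) (c (l 143207025589059823) (a (l 143089446550159599) (l 143080100700225775)))))) (b (c (b (a (l 143495922291392815) (a (l 143467472421945647) (a (l 143362881375486255) (l 143442870845391151)))) (a (c (l 143520386429010223) (l 143421773964656943)) (a (l 143442527248122159) (c (a (l 143477849064046895) (l 143469877603746095)) (a (l 143377930929324335) (l 143369959468974383)))))) (c (a (l 143334019179659503) (a (l 143303920042426607) (a (a (l 143291206936543471)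 (l 143286465291960559)) (b (l 143292581326733551) (l 143267361274626287))))) (a (l 143051032359338223) (a (l 143200016178282735) (a (c (l 143030760107802863) (l 142977914822492399)) (l 142995850608656623)))))) (c (c (b (a (l 143496265889071407) (a (l 143468159616991535) (a (l 143456752181002543) (l 143451117182910767)))) (a (l 143472007910162735) (a (l 143446650417119535) (a (l 143438197918597423) (l 143432631639982383))))) (a (b (l 143396347754430767) (l 143370784105234735)) (a (b (l 143367210690003247) (a (l 143347144599961903) (l 143340341369635119))) (a (a (a (l 143347007159501103) (l 143345495330505007)) (l 143343296306839855)) (l 143338966979100975))))) (a (b (c (l 143293886999150831) (c (l 143215340625641711) (l 143162151742931183))) (b (c (l 143273546030973167) (c (l 143194175023628527) (l 143140436385005807))) (c (c (l 143286327855546671) (l 143233551289549039)) (a (c (l 143190601610936559) (c (l 143150263272227055) (l 143123119075000559))) (c (l 143169436007645423) (c (l 143128754071486703) (l 143101403715797231)))))))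 (a (b (c (c (l 143289763827957999) (l 143237262139900143)) (l 142994132619460847)) (c (a (b (l 143248119819141359) (l 143235819030741231)) (l 143234650798473455)) (b (a (l 142960803671097583) (l 143132396202246383)) (c (l 143151294061297903) (l 143096318471930095))))) (c (a (a (b (a (l 143253136340484335) (l 143251349633564911)) (l 143229702994510063)) (a (l 143238567797768431) (l 143237055969050863))) (b (l 143244615123681519) (l 143222075131166959))) (a (c (a (b (l 143172390943228143) (l 143148132963631343)) (l 143156929058111727)) (a (a (l 142926443926175983) (a (l 143105045845786863) (b (l 143116728158814447) (b (l 143097830299369711) (l 143040105936699503))))) (b (l 143114804013138159) (b (l 143095906153709807) (l 143083193048285295))))) (b (l 142968500250345583) (c (l 143140230222348527) (c (l 143098792371847407) (l 143070960979771503))))))))))), by decide +kernel⟩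

def k14_pm_102 : ∃ t, chk3 f_pm_102 t 173 127 1 = true :=
  ⟨(b (a (c (c (b (l 143550623003214127) (a (l 143513170881954095) (l 143496746925179183))) (b (l 143457782975463727) (a (l 143417307196817711) (l 143401089398391087)))) (b (l 143201596744220911) (a (a (l 143093157402935535) (l 143129097688269039)) (a (l 143121057508475119) (b (l 143260695486300399) (l 143057148391964783)))))) (b (c (a (c (l 143522860331843887) (l 143430638779269423)) (l 143463624133607727)) (c (l 143149644823134447) (l 143097692883927151))) (c (c (l 143479154736382255) (l 143383016173142319)) (c (l 143284403708756207) (l 143003203594698863))))) (c (b (a (a (c (l 143470770957435183) (b (l 143381779221479727) (l 143360888496636207))) (l 143049383116456239)) (c (l 143442664686911791) (l 143342540393562351))) (c (a (l 143427958715187503) (b (l 143414764573851951) (l 143395935433556271))) (c (a (l 143350718011310383) (l 143327490824421679)) (a (b (l 143308867843932463) (l 143287770960609519)) (b (l 143285434498531567) (l 143264062737318127))))))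 (b (a (a (b (c (l 143281036453167343) (l 142997568596230383)) (c (l 143258152863269103) (l 143152737170325615))) (c (l 143257465668600047) (l 142995163410284655))) (a (c (l 143245645916618991) (l 143005402610253935)) (c (l 143233757445144815) (l 142993101821853807)))) (c (a (a (c (l 143251143474430191) (l 143197473547059439)) (b (l 143223724399313135) (b (l 143206681965986031) (l 143195274520051951)))) (c (a (l 143227229092626671) (l 143215203182231791)) (b (l 143178919293518063) (a (l 143161464543215855) (l 143149163754881263))))) (a (a (c (b (l 143155279790555375) (l 143131021810958575)) (b (l 143100853957050479) (c (l 143089446521487599) (a (l 143064638786879599) (l 143035845325078639))))) (c (b (l 143143047721664751) (l 143118652303114479)) (b (l 143088415729680495) (b (l 143069311711838319) (c (a (l 143073709758677103) (l 143067387565785199)) (a (l 143045534769152111) (l 143039212576260207))))))) (a (c (b (l 143130746933297391) (l 143106214070419695)) (b (l 143075908782833775) (c (a (l 143067456285327471) (l 143061134092435567))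 (b (l 143042717270229103) (a (l 143032821663875183) (l 143026499470966895)))))) (c (b (l 143118377425436911) (b (l 143099891882967151) (c (l 143101541150310639) (l 143028492342444143)))) (b (l 143063333116510319) (c (b (l 143058110435000431) (a (l 143048420987109487) (l 143042098794201199))) (l 30)))))))))), by decide +kernel⟩

def k15_pm_102 : ∃ t, chk3 f_pm_102 t 87 127 2 = true :=
  ⟨(a (c (b (a (l 143475512604066095) (l 143453728526188847)) (a (b (l 143420330853269807) (b (l 143392087142859055) (l 143372983124672815))) (b (l 143397790861181231) (b (l 143369203553386799) (l 143349893376786735))))) (b (b (a (l 143400608363086063) (l 143378205809737967)) (a (l 143360407461429487) (l 143337523871777007))) (a (b (l 143319450645528815) (b (l 143288183277781231) (a (l 143272927551013103) (l 143261039079620847)))) (b (l 143296086019555567) (b (l 143264475054440687) (a (l 143249081888735471) (l 143237055978373359))))))) (b (a (c (l 143431669570371887) (b (l 143355665817420015) (l 143314502843121903))) (c (l 143409404456075567)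 (l 143131915193319663))) (a (c (b (l 143375044710613295) (b (l 143346045085991215) (l 143326528750960879))) (b (l 143182492720578799) (b (l 143240629392113903) (a (l 143225030067994863) (l 143212935438123247))))) (c (b (l 143352092401598703) (a (l 143318694729580783) (l 143306943697174767))) (a (b (l 143254716887662831) (c (l 143238705246060783) (l 143184485570527471))) (b (l 143242759696711919) (c (l 143226610616205551) (l 143172184782192879)))))))), by decide +kernel⟩

def k16_pm_102 : ∃ t, chk3 f_pm_102 t 87 254 3 = true :=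
  ⟨(b (a (c (l 143113910689186031) (l 143105870495383663)) (c (l 143067043997810799) (l 143057354536255599))) (a (a (c (l 143260970363158767) (l 142978945615216751)) (c (l 143237330859098351) (l 142954481477288047))) (a (c (l 143213485196574959) (l 142929742461403247)) (c (l 143009182188093551) (l 142904797287039087))))), by decide +kernel⟩

def k17_pm_102 : ∃ t, chk3 f_pm_102 t 87 255 3 = true :=
  ⟨(a (c (b (a (l 143035776608190703) (c (l 143218089401417967) (l 143165312835256559))) (c (a (a (l 143203108552360175) (l 143191013922472175)) (a (l 143178781845569775) (a (l 143169573442224367) (l 143163457407795439)))) (a (a (b (l 143160502470705391) (l 143136862966530287)) (b (l 143148201682354415) (l 143124493458702575))) (a (b (l 143135900893987055) (l 143111986511905007)) (b (l 143123531386126575) (a (l 143102640661545199) (b (l 143102365783654511) (l 143090339873144943)))))))) (b (a (c (l 142956405622128751) (l 142947746960113775)) (a (l 142955855859187823) (l 142943348912308335))) (a (c (a (b (l 143105939198083183)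 (b (l 143087384936153199) (a (l 143078107805155439) (l 143026774355001455)))) (b (l 143093432251252847) (b (l 143074809269846127) (c (l 143076458537205871) (a (l 143051375924576367) (l 143045053731684463)))))) (c (b (l 142911944108163183) (b (a (l 143045397329723503) (l 143032684224430191)) (a (a (l 143035776601309295) (l 143029385688924271)) (l 30)))) (l 30))) (a (b (c (l 143080925304406127) (l 30)) (c (b (l 143062233603522671) (c (l 143041342882545775) (a (l 143038662819299439) (l 143032271906930799)))) (l 30))) (b (c (l 143068349638082671) (l 30)) (c (b (l 143049589217722479) (c (a (l 143054330862092399) (l 143048008669200495)) (a (l 143025880994545775) (l 30)))) (l 30))))))) (c (b (a (b (l 142998874264584303) (l 142988360180547695)) (b (l 142974410126737519) (l 142974959878471791))) (a (a (c (b (l 143165793870528751) (l 143142704122298607)) (b (l 143111093158772847) (b (l 143093019933278319) (c (l 143095012798136559) (l 143066837808463983))))) (c (b (l 143153493082161391) (l 143130334614470895)) (b (l 143098586211958895)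 (b (l 143080444266987631) (c (l 143082437131845743) (l 143031653434310767)))))) (a (c (b (l 143141123574317295) (l 143117896387150063)) (b (l 143086010545635439) (b (l 143067799881187439) (a (l 143058797628178543) (l 143007395458547823))))) (c (b (l 143128754066456815) (b (l 143111230596874479) (c (l 143113567059214575) (l 143085460788953199)))) (b (l 143073434879311983) (b (l 143055155495387247) (c (l 143057148360278127) (a (l 143031790869626991) (l 143025399957241967))))))))) (c (b (a (l 142906721432076399) (l 142926581356626031)) (c (a (b (l 142905759355076719) (a (a (l 143047871230263407) (l 143041480317878383)) (a (l 142990078148247663) (a (l 143030347760828527) (l 143027117944897647))))) (b (l 142891603138658415) (b (a (l 143025468677210223) (l 30)) (l 30)))) (a (b (l 142900330512269423) (l 30)) (l 30)))) (l 30)))), by decide +kernel⟩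

def k18_pm_102 : ∃ t, chk3 f_pm_102 t 11 6 1 = true :=
  ⟨(l 6), by decide +kernel⟩

def k19_pm_102 : ∃ t, chk3 f_pm_102 t 11 14 1 = true :=
  ⟨(a (l 6) (b (l 6) (a (b (l 6) (b (l 6) (a (c (l 16731144) (l 16720688)) (c (l 16721520) (l 16685504))))) (b (a (l 6) (b (l 6) (l 16713176))) (a (c (l 16729504) (l 16662504)) (b (l 16674048) (l 16655136))))))), by decide +kernel⟩

def k20_pm_102 : ∃ t, chk3 f_pm_102 t 22 30 1 = true :=
  ⟨(a (b (a (l 6) (b (l 6) (c (l 16708456) (l 16722856)))) (a (a (c (l 16697120) (l 16688816)) (b (l 16696400) (a (l 16682184) (l 16680072)))) (b (c (l 16694080) (l 16706904)) (c (b (l 16683216) (l 16676000)) (b (l 16694816) (l 16665800)))))) (b (b (a (l 6) (c (l 16726136) (l 16720016))) (a (c (l 16699792) (l 16713648)) (c (l 16711640) (l 16703896)))) (a (b (a (l 16704112) (l 16699512)) (c (b (l 16695448) (l 16667280)) (l 16670960))) (b (a (l 16694856) (l 16690144)) (c (b (l 16665536) (l 16658384)) (l 16661416)))))), by decide +kernel⟩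

def k21_pm_102 : ∃ t, chk3 f_pm_102 t 44 62 1 = true :=
  ⟨(a (a (b (c (c (l 16678120) (l 16672704)) (c (l 16667336) (l 16662008))) (b (c (l 143493517141606639) (l 143443558057410671)) (c (l 143376075540889839) (l 143221044374978671)))) (a (b (c (l 16672344) (l 16661384)) (c (l 143381641819750639) (l 143411603485638767))) (b (b (l 16673768) (l 143404387972825199)) (c (l 143361300807516399) (l 143389407090163823))))) (b (a (c (l 143475169003847919) (l 143530007166009455)) (c (l 143436411210301679) (l 143487332361666671))) (b (c (a (l 143547668072481007) (l 143325841593008367)) (a (l 143400333488504943) (l 143354909905191023))) (c (a (l 143292650079502575) (l 143249150642225263)) (a (l 143310448396337263) (l 143263238106677359)))))), by decide +kernel⟩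

def k22_pm_102 : ∃ t, chk3 f_pm_102 t 44 126 1 = true :=
  ⟨(b (a (c (a (l 143302408257634543) (c (l 143481766080233711) (l 143396760073044207))) (a (c (l 143175277193773167) (l 143088072163754095)) (c (l 143129578733092975) (l 143220700744892527)))) (c (a (c (l 143438472801730799) (l 143171566339309679)) (b (l 143189914442219631) (l 143149713540956271))) (c (a (l 143082780760653935) (l 143034814556962927)) (l 30)))) (a (c (a (a (l 143236781133644015) (l 143214584738644207)) (a (l 143192113465704687) (l 143169436034285807))) (a (c (l 143087247527805039) (l 143081956070178927)) (c (l 143039693641318511) (l 143122775473406063)))) (c (c (a (l 143181942980739311) (b (l 143335668445528303) (l 143296017300308207))) (a (l 143087728519512175) (l 143039831035674735))) (c (a (l 142991108919591023) (l 142941493448507503)) (l 30))))), by decide +kernel⟩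

def k23_pm_102 : ∃ t, chk3 f_pm_102 t 44 254 1 = true :=
  ⟨(a (c (a (a (c (b (l 143405968481992943) (l 143367760445685999)) (l 143108619286675695)) (c (b (l 143383428489707759) (l 143344808136573167)) (l 143085117221568751))) (a (b (l 143131983912403183) (c (l 143321649668980975) (l 143219876107534575))) (b (l 143108550566772847) (c (l 143298216323449071) (l 143015504379592815))))) (b (a (c (l 143019215233613935) (l 143007807784812655)) (c (l 142970355677118575) (l 30))) (a (c (c (l 143021414209814639) (l 142991727387803759)) (a (l 142879577234751599) (l 30))) (c (a (l 142935446176923759) (l 142910363563638895)) (l 30))))) (c (a (a (b (l 143084911062679663) (c (l 143274576819454191) (l 142991040241713263))) (b (l 143061065400123503) (c (l 143250731156979951) (l 142966369945354351)))) (b (c (l 143075565211812079) (l 142973929089040495)) (a (c (l 143226610616565999) (l 142941424771055727)) (c (c (l 143228328603664623) (l 143176033073266799)) (l 142916204718817391))))) (c (a (b (l 142920534047817839) (a (l 142885006072397935)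 (l 142859442422677615))) (b (l 142869681626185839) (l 30))) (l 30)))), by decide +kernel⟩

def k24_pm_102 : ∃ t, chk3 f_pm_102 t 88 255 2 = true :=
  ⟨(a (b (a (c (l 143328865214628079) (a (l 143230802505761007) (l 143218707875856623))) (c (l 143305500588654831) (a (l 143206613245935855) (l 143194518615998703)))) (a (a (c (l 143295123945259247) (b (l 143198229468020975) (b (l 143181805510197487) (l 143170810392002799)))) (c (l 143283235473866991) (b (l 143186066118639855) (b (l 143169573441339631) (l 143158509592936687))))) (a (c (l 143271346991726831) (b (l 143173765330305263) (a (l 143154730031907055) (l 143148545267253487)))) (c (b (l 143269491576455407) (l 143249219327213807)) (b (l 143161464541937903) (a (l 143142360513347823) (c (l 143163938443100399) (l 143108138219323503)))))))) (b (a (c (l 143281861084758255) (a (l 143182286547108079) (l 142989872010199151))) (c (l 143258015422382319) (b (l 142982519025025135) (l 142963140128768111)))) (a (a (c (b (l 143257534385553647) (l 143237193416851695)) (c (l 143165587710918895)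 (b (l 143121538519646319) (a (l 143101816026431599) (l 143050482576293999))))) (c (b (l 143245508475175151) (l 143225030067519727)) (c (l 143153218203091183) (b (l 143109031572815983) (b (l 143091851700715631) (c (l 143094463041093871) (l 143066150612287599))))))) (a (c (b (l 143233413845303535) (l 143212866718171375)) (c (b (l 143151775093932271) (l 143129716138148079)) (b (l 143096455906508911) (b (l 143079207314931823) (a (l 143070754817867887) (l 143064432624975983)))))) (c (b (l 143221319215415535) (l 143200634649329903)) (c (b (l 143139336866611439) (l 143117209191350511)) (b (l 143083811520708719) (b (l 143066494209671279) (c (l 143069105550049391) (l 143040586962780271)))))))))), by decide +kernel⟩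

def k25_pm_102 : ∃ t, chk3 f_pm_102 t 88 255 3 = true :=
  ⟨(a (c (b (a (c (l 142964858117406831) (l 142910844600434799)) (a (l 142964170915364975) (l 142951595249008751))) (a (c (a (b (l 143116315839119471) (b (l 143098723650060399) (a (l 143090064994500719) (l 143083742801608815)))) (b (l 143103808892305519) (b (l 143086147983769711) (a (l 143077420608716911) (l 143071098415841391))))) (b (c (l 142910844596338799) (l 142882875765096559)) (a (b (l 143042442390110319) (c (b (l 143047458912501871) (l 143041342878040175)) (a (l 143019009044856943) (l 30)))) (c (a (l 143040861841686639) (l 143034470929301615)) (l 30))))) (a (c (b (l 143091233225982063) (b (l 143073503597985903) (c (l 143075771340865647) (l 143047390192648303)))) (b (l 143035295563432047) (c (a (l 143028080016916591) (l 142976609127792751)) (l 30)))) (c (b (l 143078588840181871) (b (l 143060790492708975) (a (l 143052063117672559) (l 143045672205303919)))) (b (l 143022513738629231) (l 30)))))) (b (a (c (l 142901155145957487) (l 30)) (l 30)) (l 30))) (c (c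 (b (a (l 142915036488433775) (l 142889747716767855)) (a (b (c (l 142893527288365167) (l 142888029725917295)) (a (b (l 143048077387432047) (c (l 143050345130344559) (b (l 143024781481132143) (l 143018665446686831)))) (b (l 143035226843185263) (c (l 143037563305574511) (l 30))))) (c (b (l 142890572346671215) (a (a (l 143033852453257327) (l 143027461540872303)) (a (l 143021001909010543) (l 143014542277132399)))) (l 30)))) (b (a (l 142905209594839151) (l 30)) (l 30))) (l 30))), by decide +kernel⟩

def k26_pm_102 : ∃ t, chk3 f_pm_102 t 89 255 1 = true :=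
  ⟨(c (a (c (b (a (l 143233963601527023) (l 143209705622225135)) (c (a (b (l 143230184029323503) (l 143209843060687087)) (b (l 143205788611117295) (l 143185241484050671))) (a (a (l 143171291428176111) (l 143158853200871663)) (a (l 143146414973550831) (l 143133908016021743))))) (b (a (c (l 142973654210773103) (l 142919297096073327)) (b (l 142932766115528815) (l 142938263669866607))) (a (a (c (b (l 143126898639274095) (b (l 143110199803609199) (l 143053987269771375))) (b (l 143071167134892143) (b (l 143053712384901231) (c (l 143056392444788847) (l 143027667699073135))))) (a (b (l 142909470208950383) (c (l 143095150235730031) (b (l 143044091656585327) (l 143032409343606895)))) (b (l 142903148016042095) (c (l 143088828042838127) (b (l 143037700744200303) (l 142980869735006319)))))) (c (a (b (l 143101747306659951) (a (l 143082437130469487) (l 143031034960838767))) (b (l 143089102920859759) (b (l 143072197926781039) (c (l 143075152864657519) (l 143046565557829743))))) (b (c (l 142873255038861423) (l 142867413878915183)) (b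 (a (l 143028011296407663) (l 143015092032667759)) (c (a (l 143030691356311663) (l 142995232104202351)) (l 30)))))))) (c (c (b (a (l 143211973365268719) (l 143187440508010735)) (a (a (l 143176995145580783) (l 143164556918276335)) (a (l 143152118690971887) (l 143139543024697583)))) (b (a (b (l 143168886246408431) (l 143147514485522543)) (l 142953107083493487)) (c (a (b (l 143139886622212335) (l 143118377422405871)) (b (l 143114735289614447) (a (l 143099342124253295) (l 143086629018992751)))) (a (b (l 143112055229661295) (a (l 143096387186344047) (l 143083674081083503))) (b (l 143086697738600559) (a (l 143070960975806575) (l 143058110431576175))))))) (c (b (a (l 142923626423369839) (l 142898268932227183)) (a (a (b (l 143076389815582831) (b (l 143059416102027375) (c (l 143062371039920239) (l 143033646294122607)))) (b (l 143063607990812783) (b (l 143046565557780591) (c (l 143049520495689839) (l 143020727030382703))))) (b (c (l 142878409000108143) (l 142850027851710575)) (a (b (l 143033646294040687) (a (l 143025468674981999)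 (l 143018940323627119))) (b (l 143020727030300783) (c (l 143023681968242799) (l 30))))))) (b (a (l 142868444674801775) (l 142842674866716783)) (c (a (b (l 142870025219211375) (a (a (l 143013855081775215) (l 30)) (l 30))) (l 30)) (l 30)))))) (c (c (a (a (b (l 142864252786622575) (b (b (l 142834222370308207) (l 30)) (l 30))) (l 30)) (l 30)) (l 30)) (l 30))), by decide +kernel⟩

def k27_pm_102 : ∃ t, chk3 f_pm_102 t 45 62 1 = true :=
  ⟨(c (a (a (b (l 143396279027105903) (b (l 143282960630825071) (l 143204414254219375))) (b (l 143534954922246255) (b (l 143238842717929583) (l 143158578354438255)))) (b (a (l 143492142679195759) (l 143448024765956207)) (a (b (l 143193419134812271) (l 143111574223405167)) (b (l 143146827320459375) (l 143063333141643375))))) (a (b (a (l 143443351887151215) (l 143397997022953583)) (c (a (l 143303095409131631) (l 143255266644017263)) (l 30))) (b (a (l 143351267769090159) (l 30)) (l 30)))), by decide +kernel⟩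

def k28_pm_102 : ∃ t, chk3 f_pm_102 t 45 126 1 = true :=
  ⟨(c (b (a (a (b (l 143143941103665263) (l 143102846849237103)) (b (l 143096868253335663) (l 143054949365219439))) (a (c (l 143073984663076975) (l 142980113841782895)) (c (l 143025125106221167) (l 30)))) (a (a (c (b (l 143288939192942703) (l 143068280946032751)) (l 142990902759522415)) (c (l 143040312071077999) (l 142940874971594863))) (a (c (l 143081131431559279) (l 142889816391368815)) (c (l 143030760046248047) (l 30))))) (b (a (a (c (l 143165862590005359) (l 30)) (l 30)) (l 30)) (l 30))), by decide +kernel⟩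

def k29_pm_102 : ∃ t, chk3 f_pm_102 t 45 254 1 = true :=
  ⟨(c (b (c (a (a (l 143027117972373615) (l 142977708660080751)) (a (l 142927268512546927) (l 142965888849641583))) (a (a (l 142923763862356079) (l 142872636562833519)) (l 30))) (c (a (b (a (l 142995850605117551) (l 142945891537043567)) (a (a (l 143167168259129455) (l 143142223084879983)) (c (l 142951526535086191) (l 142897306858979439)))) (a (a (l 142896688383426671) (l 142870849855815791)) (a (l 142844805169725551) (l 142818485605679215)))) (a (c (a (l 142950289534238831) (l 142943898614169711)) (l 30)) (l 30)))) (l 30)), by decide +kernel⟩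

def k30_pm_102 : ∃ t, chk3 f_pm_102 t 45 510 1 = true :=
  ⟨(c (c (a (a (a (a (l 142961490860965999) (l 142948983914119279)) (b (l 142940806295027823) (l 142926375201357935))) (a (c (l 142932285078437999) (l 142876828451635311)) (a (l 142885349668077679) (l 142894970392690799)))) (a (a (c (l 142881089059782767) (l 142824807799079023)) (a (l 142878408992292975) (l 142865214850564207))) (a (c (l 142828862248779887) (l 30)) (l 30)))) (a (a (c (a (l 142872636563128431) (l 142846798035566703)) (l 30)) (l 30)) (l 30))) (l 30)), by decide +kernel⟩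

def k31_pm_102 : ∃ t, chk3 f_pm_102 t 45 511 1 = true :=
  ⟨(a (c (a (c (a (a (b (c (l 143137481440084207) (l 143081612496437359)) (a (c (l 143119614373150959) (l 143017703379976303)) (c (l 143113292180275311) (b (l 143061890003370095) (l 143050826165813359))))) (c (b (l 143124905773793391) (b (l 143109100291522671) (l 143098448770875503))) (b (l 143068830671667311) (b (l 143052200555577455) (c (l 143055499090985071) (l 143026705625596015)))))) (a (c (b (l 143112261387993199) (b (l 143096387186262127) (l 143085666946138223))) (b (l 143055980127404143) (b (l 143039281291853935) (c (l 143042579827261551) (l 143013648922902639))))) (b (c (l 143099617002209391) (l 143043060863647855)) (c (b (l 143083605361508463) (l 143027805144662127)) (b (l 143026362028114031) (c (l 143029660563521647) (l 143000592220192879))))))) (c (c (a (b (l 142852639192088687) (b (a (l 143022101419999343) (l 143009113436766319)) (a (l 143010693985009775) (l 30)))) (l 30)) (l 30)) (l 30))) (c (a (a (b (c (l 143086835177439343) (l 143030072880414831))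 (c (a (l 143068555793662063) (l 143062164881277039)) (b (l 143013305325404271) (c (l 143016603860828271) (l 30))))) (c (b (l 143073984633192559) (a (l 143055705249415279) (l 143004165640814703))) (b (l 143017016177705071) (b (l 143000179903201391) (c (l 143003547158118511) (l 30)))))) (a (c (b (l 143061134088929391) (b (l 143044916289814639) (c (l 143048558422704239) (l 143019558798786671)))) (b (l 143003959474962543) (b (l 142987054480998511) (l 30)))) (c (b (l 143048214825189487) (b (l 143031928306597999) (c (l 143035570439487599) (l 143006433376616559)))) (l 30)))) (l 30))) (l 30)) (c (a (c (c (a (a (b (l 143035226841940079) (b (l 143018871603888239) (c (l 143022513736794223) (l 142993307954413679)))) (b (l 143022170139230319) (b (l 143005746181685359) (c (l 143009388314607727) (l 30))))) (c (b (l 142836764990144623) (a (b (l 143007120571449455) (l 142996194172944495)) (l 30))) (l 30))) (l 30)) (l 30)) (l 30)) (l 30))), by decide +kernel⟩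

def k32_pm_102 : ∃ t, chk3 f_pm_102 t 23 30 1 = true :=
  ⟨(a (b (a (c (c (l 16711456) (l 16707576)) (l 16692208)) (c (c (l 16702088) (l 16697872)) (l 16655392))) (b (a (a (l 16685368) (l 16680536)) (b (l 16669824) (l 16670088))) (c (a (b (l 16656360) (l 16649232)) (b (l 16667888) (l 16660784))) (a (b (l 16644736) (l 16633440)) (l 142946784810385455))))) (b (a (c (c (l 16692496) (l 16677248)) (l 16621168)) (c (l 16661280) (l 16589400))) (b (a (a (l 16636776) (l 16640032)) (a (l 16623008) (l 16627632))) (a (c (a (l 16657056) (l 30)) (l 16606664)) (c (a (l 16620512) (l 16603136)) (l 16532024)))))), by decide +kernel⟩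

def k33_pm_102 : ∃ t, chk3 f_pm_102 t 46 31 1 = true :=
  ⟨(b (b (a (a (c (l 143402601182511215) (l 30)) (c (l 143355803252342895) (l 142802680078909487))) (c (a (l 143307768328487023) (l 143258427734425647)) (a (l 142610265503776815) (l 142426921901359151)))) (a (a (c (b (l 143279112303902831) (l 143194106296631407)) (l 30)) (c (b (l 143230046588092527) (l 143143528752349295)) (b (l 142608341361672239) (l 142472757808791599)))) (b (c (a (l 143179675202060399) (l 30)) (a (l 142413246726635567) (l 142227497942253615))) (c (l 30) (a (l 142276082625609775) (l 142089028171038767)))))) (b (a (c (c (a (b (l 142975166037573743) (l 142979289149145199)) (b (l 142924038737674351) (l 30))) (l 30)) (a (l 30) (b (l 142512408921129007) (c (l 30) (l 141926575303426095))))) (c (l 30) (a (b (l 142314428067725359) (c (l 30) (l 141733679692431407))) (b (l 141946160352886831) (c (l 142045734898139183) (l 141550610968526895)))))) (b (c (l 30) (a (a (l 30) (c (l 30) (b (l 141810645525512239) (l 141731824271786031)))) (a (c (l 30) (b (l 141617200158654511)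 (l 141538035307528239))) (c (b (l 141936058593886255) (l 142041749136048175)) (l 141394136692310063))))) (c (l 30) (c (c (l 30) (a (l 30) (a (l 30) (b (l 141658638014382127) (a (l 30) (l 141533912140988463)))))) (c (a (l 30) (a (a (l 30) (l 141681796448370735)) (b (l 141402589192650799) (l 141322324829913135)))) (a (a (l 30) (b (l 141516457390686255) (a (l 141483197159669807) (l 141385065726771247)))) (a (b (l 141325692084027439) (l 141242953819668527)) (l 141103659410243631))))))))), by decide +kernel⟩

def k34_pm_102 : ∃ t, chk3 f_pm_102 t 47 31 1 = true :=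
  ⟨(b (a (c (l 30) (b (a (l 142252030796251183) (l 142085386029957167)) (a (b (l 142050682691600431) (l 141911113408659503)) (l 141992683405049903)))) (c (c (l 30) (b (l 142471658286006319) (a (l 142305906879741999) (l 142138437479743535)))) (b (c (l 142058585426509871) (l 141641045801107503)) (a (l 141651972205625391) (l 141499277496074287))))) (b (a (c (l 30) (c (b (l 142275807675039791) (a (l 141860604589441071) (l 141684682692427823))) (a (l 141453579044995119) (l 141288927144394799)))) (c (c (l 30) (a (b (l 142109369140871215) (l 141973648150298671)) (b (l 141940800229163055) (l 141804598202220591)))) (a (b (l 141436124290154543) (l 141467529064579119)) (c (l 141431451365425199) (l 140984499798605871))))) (c (c (l 30) (c (a (l 30) (a (l 30) (b (l 141777454007697455) (b (l 141671900873261103) (a (l 141642557653286959) (l 141558582435233839)))))) (a (l 30) (b (a (l 141718561404649519) (l 141551779199828015)) (a (b (l 141609984612630575) (a (l 141579404441813039) (l 141493711236530223))) (b (l 141443064968888367) (l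 141369535116197935))))))) (a (a (b (c (b (l 141750447248801839) (l 141675680445038639)) (l 141220138941169711)) (c (c (l 30) (a (l 141481341729112111) (l 141392212549337135))) (b (l 141099811116400687) (l 141198423551426607)))) (b (c (l 141536798352523311) (l 141055143443234863)) (b (c (l 141603524944740399) (l 140934815618514991)) (c (a (l 141569783677370415) (l 141303701845622831)) (l 140853383024525359))))) (a (b (c (l 141369466391838767) (l 140898806601039919)) (c (b (l 141255941796610095) (c (l 141298547883130927) (l 141059197897343023))) (l 140738002997592111))) (b (c (l 141210586928463919) (l 140750647378165807)) (c (c (l 141174990236827695) (l 140942168602607663)) (l 140590049933262895)))))))), by decide +kernel⟩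

def k35_pm_102 : ∃ t, chk3 f_pm_102 t 6 2 1 = true :=
  ⟨(l 6), by decide +kernel⟩

def k36_pm_102 : ∃ t, chk3 f_pm_102 t 6 6 1 = true :=
  ⟨(b (l 6) (a (b (l 6) (a (l 6) (l 6))) (a (b (l 6) (a (b (l 6) (l 16564016)) (l 16544736))) (b (b (l 6) (a (l 16565728) (l 16535392))) (a (l 16510680) (l 16482736)))))), by decide +kernel⟩

def k37_pm_102 : ∃ t, chk3 f_pm_102 t 12 14 1 = true :=
  ⟨(a (b (a (l 6) (b (l 6) (a (l 16693744) (l 16621200)))) (a (b (a (b (l 16681784) (l 16663536)) (a (l 16652536) (l 16701440))) (a (b (l 16644608) (l 16625040)) (c (b (l 16646216) (l 16627504)) (l 16576088)))) (b (a (l 16613408) (l 16581528)) (a (l 16573224) (l 16540544))))) (b (a (b (l 16618272) (l 16578432)) (l 16610864)) (a (b (l 16537760) (l 16496360)) (b (l 16486696) (l 16445944))))), by decide +kernel⟩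

def k38_pm_102 : ∃ t, chk3 f_pm_102 t 24 30 1 = true :=
  ⟨(a (b (a (b (l 16604824) (l 16604904)) (a (a (l 16618200) (l 16611176)) (b (l 16568424) (l 16568144)))) (a (b (a (l 16611928) (l 16596840)) (c (l 142944654461714479) (l 16502016))) (a (c (b (l 16576064) (l 16555144)) (l 16493024)) (a (b (l 16592672) (c (l 16543872) (l 16471040))) (b (l 16520960) (l 141802605314375727)))))) (a (b (c (l 16562512) (l 16500032)) (c (b (l 16531712) (l 16510568)) (l 16453576))) (b (l 16498136) (c (l 16485920) (l 16422616))))), by decide +kernel⟩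

def k39_pm_102 : ∃ t, chk3 f_pm_102 t 48 62 1 = true :=
  ⟨(a (c (b (a (l 142429876834385967) (l 142274845661921327)) (a (b (l 142247426590146607) (l 142121532486041647)) (b (l 142091158467002415) (l 141964577168097327)))) (b (l 141561949664165935) (c (l 141491580911173679) (l 141076171590172719)))) (a (c (b (l 142126892596969519) (c (l 142074597070946351) (l 141682071338254383))) (b (l 16456888) (l 141084830243717167))) (a (c (b (a (l 142037763416588335) (l 141998524587212847)) (a (l 141789067585241135) (b (l 141813119405309999) (l 141685713472684079)))) (b (l 16467792) (l 140988348077867055))) (c (b (l 141919703332175919) (l 141670870061826095)) (l 141040781047070767))))), by decide +kernel⟩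

def k40_pm_102 : ∃ t, chk3 f_pm_102 t 48 63 1 = true :=
  ⟨(a (b (c (a (b (l 142172384875823151) (c (l 142074184764751919) (l 141643794592989231))) (b (l 141834834773000239) (c (l 141911594448715823) (l 141490893725138991)))) (c (a (l 141280818240749615) (l 141137675540512815)) (l 140776692057014319))) (c (b (a (c (b (l 141975503579070511) (l 142088890704199727)) (l 141503812994547759)) (c (b (l 141812775824080943) (l 141745843042254895)) (l 141350843407269935))) (a (c (a (l 30) (b (l 141799444247953455) (c (l 30) (l 141620086379102255)))) (b (l 141396610592423983) (c (l 141436811497029679) (l 141211136689258543)))) (a (c (c (l 30) (l 141574662794117167)) (l 141244946676924463)) (c (b (l 141638640638738479) (c (l 141678291787661359) (l 141461687952097327))) (l 141170454748512303))))) (c (b (a (l 141059885084393519) (l 140916879823241263)) (a (l 141088334921646127) (l 140765490789974063))) (a (b (l 140610322177163311) (l 140450068329775151)) (l 140397772793823279))))) (c (b (a (b (l 141684957562617903) (c (l 141756838154567727)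 (l 141345552001204271))) (a (a (b (l 141594866309578799) (l 141461687940415535)) (b (l 141555421321789487) (c (l 141623247463825455) (l 141220070210371631)))) (c (l 141607716857610287) (l 141212442345652271)))) (a (b (c (c (l 141728388290035759) (l 141520236951732271)) (l 141205501683400751)) (a (c (b (l 141561193772220463) (l 141672862910332975)) (l 141097955685318703)) (c (b (l 141485671051427887) (l 141417295160508463)) (l 141027243328880687)))) (a (a (b (l 141505668382064687) (c (l 141396129555808303) (l 140975428832509999))) (b (c (a (l 141503400676130863) (l 141478043184169007)) (l 141080226051063855)) (c (a (b (l 141402245589155887) (c (l 141438323324567599) (l 141229209913507887))) (l 141342871950442543)) (a (l 140949246706368559) (l 140925332323762223))))) (b (l 141208181743910959) (c (b (l 141309817874710575) (l 141241785581191215)) (l 140862041673334831)))))) (a (b (c (l 141001817106219055) (l 140584277481259055)) (c (b (l 140781296267001903) (l 140630250831249455)) (l 140272153563725871))) (b (a (a (l 140715050670899247)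 (l 140680416047480879)) (l 140610665765355567)) (a (b (a (l 140488826114162735) (l 140454466368716847)) (a (l 140334001106567215) (c (l 140513771293753391) (l 140084549355880495)))) (b (l 140385334561947695) (l 140231334188138543))))))), by decide +kernel⟩

def k41_pm_102 : ∃ t, chk3 f_pm_102 t 49 31 1 = true :=
  ⟨(b (c (a (b (l 141664066829582383) (l 141776491848450095)) (b (l 16495656) (l 141043735996153903))) (b (a (l 16417552) (l 16386832)) (a (l 140672994339487791) (l 16362592)))) (c (b (a (a (c (l 141449868188745775) (l 141062908735438895)) (b (l 141126680423415855) (l 140997075467223087))) (b (l 140858674411405359) (l 140734223416246319))) (a (b (a (c (l 141254155084988463) (l 140856612830265391)) (l 140866783316115503)) (a (c (b (l 141155130301874223) (l 141269204621770799)) (l 140718074340950063)) (c (b (l 140962853167202351) (l 140898256847716399)) (l 140539541104328751)))) (b (l 140788649219031087) (c (b (l 140697802091888687) (b (l 140650729241985071) (c (a (l 140798338709241903) (l 140628876445253679))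 (l 140526209525268527)))) (l 140294762278551599))))) (b (a (a (l 140473913980796975) (l 140301977817317423)) (l 140072660878278703)) (a (b (a (l 140251056678715439) (l 140087229413851183)) (a (l 140102278985334831) (l 139944361595781167))) (b (l 139868014238597167) (l 139729613187121199)))))), by decide +kernel⟩

def k42_pm_102 : ∃ t, chk3 f_pm_102 t 25 15 1 = true :=
  ⟨(b (a (b (c (l 16480448) (l 16427432)) (c (c (l 16453768) (l 16424904)) (l 16381968))) (b (l 16404776) (l 16426112))) (b (b (a (a (c (l 16422232) (l 16359592)) (l 16364856)) (l 16394896)) (c (a (l 140572251573534767) (l 140075272219934767)) (a (l 139938176833044527) (l 16283632)))) (a (b (c (a (l 140483328555450415) (l 140209893702909999)) (a (l 139807403644682287) (l 139579461094375471))) (c (a (b (l 140302871176380463) (c (b (l 140384028897673263) (b (l 140338880193364015) (c (a (l 140470615458250799) (l 140323005992288303)) (l 140221713462018095)))) (l 140006690173567023))) (b (l 140037339064746031) (b (l 139949927917256751) (c (a (c (l 140199860664664111)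 (l 140035140044423215)) (l 139991984247750703)) (l 139728307517276207))))) (a (l 139545719828332591) (l 139329803188125743)))) (b (c (a (l 139972124266004527) (l 139766515550732335)) (l 139297917341319215)) (c (a (b (l 139807747246702639) (b (l 139724527944925231) (c (a (l 139875367229112367) (l 139767202750775343)) (l 139516720205185071)))) (b (l 139610384869785647) (b (l 139531426176155695) (a (l 139523248600596527) (l 139435837365436463))))) (a (l 139146871903371311) (l 138994795669848111))))))), by decide +kernel⟩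

def k43_pm_102 : ∃ t, chk3 f_pm_102 t 13 7 1 = true :=
  ⟨(b (a (b (a (l 16503880) (l 16466816)) (a (l 16466560) (l 16391216))) (b (a (l 16436528) (l 16413080)) (a (l 16365864) (l 16345960)))) (b (a (a (b (l 16365944) (l 16327080)) (b (l 16336744) (l 16300320))) (a (b (l 16314296) (l 16280016)) (b (l 16297088) (l 16264152)))) (a (b (a (b (l 16319288) (a (l 16285840) (l 16272088))) (a (l 16311312) (l 16258760))) (a (b (c (l 139510741607710767) (l 16234136)) (c (a (c (b (l 139571214761738287) (l 139472258696478767)) (l 139260740100898863)) (c (l 139366705558536239) (l 139123919594979375))) (a (l 138865465587728431) (l 16208400)))) (b (c (l 139237306756284463) (l 16213896)) (c (a (l 139114436307058735) (l 16256104)) (l 16194344))))) (a (b (c (l 16263616) (l 16226512)) (c (b (l 16238032) (a (l 16225224) (l 16216688))) (l 16189616))) (b (l 16230744) (a (l 16199864) (l 16195080))))))), by decide +kernel⟩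

def k44_pm_102 : ∃ t, chk3 f_pm_102 t 7 1 1 = true :=
  ⟨(b (a (l 6) (b (l 6) (b (l 6) (a (l 6) (b (l 6) (a (l 16580024) (l 16567664))))))) (b (a (b (b (l 6) (a (a (l 6) (b (l 6) (l 16549280))) (a (b (l 16558736) (l 16531888)) (b (l 16541248) (l 16515152))))) (a (b (a (b (l 16542776) (l 16509928)) (l 16505512)) (a (l 16460712) (l 16442760))) (b (a (l 16487840) (l 16473360)) (a (l 16428096) (l 16415792))))) (b (a (b (a (l 16563384) (b (l 16560480) (l 16557888))) (a (b (l 16527216) (l 16500936)) (l 16501352))) (b (a (b (l 16525928) (l 16525856)) (b (l 16536448) (l 16516088))) (a (l 16491584) (l 16484424)))) (a (a (b (l 16460968) (l 16406472)) (b (l 16451368) (l 16400104))) (b (b (l 16495656) (l 16430656)) (a (l 16396616) (l 16395496)))))) (a (b (b (a (a (l 16394312) (l 16379360)) (a (l 16367072) (l 16358072))) (a (a (l 16330488) (l 16318096)) (a (l 16309408) (l 16304224)))) (a (b (b (a (l 16283488) (l 16274024)) (a (l 16252440) (l 16245160))) (b (a (l 16221304) (l 16216424)) (a (l 16190328) (l 16188200)))) (b (b (l 16267072)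 (l 16241664)) (b (l 16216664) (a (l 16190008) (l 16194944)))))) (b (b (a (b (l 16363320) (l 16337928)) (b (l 16361128) (l 16339016))) (a (a (l 16302384) (l 16303272)) (a (l 16306352) (l 16311096)))) (b (a (b (l 16269288) (l 16247968)) (b (l 16280184) (l 16262080))) (a (b (l 16227072) (a (l 16202288) (l 16211400))) (a (b (l 16239648) (l 16221688)) (b (l 16249320) (l 16232624))))))))), by decide +kernel⟩

theorem s45_pm_102 : ∃ t, chk3 f_pm_102 t 48 31 1 = true := ex3_b k39_pm_102 k40_pm_102

theorem s46_pm_102 : ∃ t, chk3 f_pm_102 t 24 31 1 = true := ex3_a s45_pm_102 k41_pm_102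

theorem s47_pm_102 : ∃ t, chk3 f_pm_102 t 24 15 1 = true := ex3_b k38_pm_102 s46_pm_102

theorem s48_pm_102 : ∃ t, chk3 f_pm_102 t 12 15 1 = true := ex3_a s47_pm_102 k42_pm_102

theorem s49_pm_102 : ∃ t, chk3 f_pm_102 t 12 7 1 = true := ex3_b k37_pm_102 s48_pm_102

theorem s50_pm_102 : ∃ t, chk3 f_pm_102 t 6 7 1 = true := ex3_a s49_pm_102 k43_pm_102

theorem s51_pm_102 : ∃ t, chk3 f_pm_102 t 6 3 1 = true := ex3_b k36_pm_102 s50_pm_102

theorem s52_pm_102 : ∃ t, chk3 f_pm_102 t 6 1 1 = true := ex3_b k35_pm_102 s51_pm_102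

theorem s53_pm_102 : ∃ t, chk3 f_pm_102 t 3 1 1 = true := ex3_a s52_pm_102 k44_pm_102

theorem s54_pm_102 : ∃ t, chk3 f_pm_102 t 23 31 1 = true := ex3_a k33_pm_102 k34_pm_102

theorem s55_pm_102 : ∃ t, chk3 f_pm_102 t 23 15 1 = true := ex3_b k32_pm_102 s54_pm_102

theorem s56_pm_102 : ∃ t, chk3 f_pm_102 t 45 255 1 = true := ex3_b k30_pm_102 k31_pm_102

theorem s57_pm_102 : ∃ t, chk3 f_pm_102 t 45 127 1 = true := ex3_b k29_pm_102 s56_pm_102

theorem s58_pm_102 : ∃ t, chk3 f_pm_102 t 45 63 1 = true := ex3_b k28_pm_102 s57_pm_102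

theorem s59_pm_102 : ∃ t, chk3 f_pm_102 t 45 31 1 = true := ex3_b k27_pm_102 s58_pm_102

theorem s60_pm_102 : ∃ t, chk3 f_pm_102 t 88 255 1 = true := ex3_c k24_pm_102 k25_pm_102

theorem s61_pm_102 : ∃ t, chk3 f_pm_102 t 44 255 1 = true := ex3_a s60_pm_102 k26_pm_102

theorem s62_pm_102 : ∃ t, chk3 f_pm_102 t 44 127 1 = true := ex3_b k23_pm_102 s61_pm_102

theorem s63_pm_102 : ∃ t, chk3 f_pm_102 t 44 63 1 = true := ex3_b k22_pm_102 s62_pm_102

theorem s64_pm_102 : ∃ t, chk3 f_pm_102 t 44 31 1 = true := ex3_b k21_pm_102 s63_pm_102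

theorem s65_pm_102 : ∃ t, chk3 f_pm_102 t 22 31 1 = true := ex3_a s64_pm_102 s59_pm_102

theorem s66_pm_102 : ∃ t, chk3 f_pm_102 t 22 15 1 = true := ex3_b k20_pm_102 s65_pm_102

theorem s67_pm_102 : ∃ t, chk3 f_pm_102 t 11 15 1 = true := ex3_a s66_pm_102 s55_pm_102

theorem s68_pm_102 : ∃ t, chk3 f_pm_102 t 11 7 1 = true := ex3_b k19_pm_102 s67_pm_102

theorem s69_pm_102 : ∃ t, chk3 f_pm_102 t 11 3 1 = true := ex3_b k18_pm_102 s68_pm_102

theorem s70_pm_102 : ∃ t, chk3 f_pm_102 t 87 127 3 = true := ex3_b k16_pm_102 k17_pm_102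

theorem s71_pm_102 : ∃ t, chk3 f_pm_102 t 87 127 1 = true := ex3_c k15_pm_102 s70_pm_102

theorem s72_pm_102 : ∃ t, chk3 f_pm_102 t 86 127 1 = true := ex3_a k13_pm_102 k14_pm_102

theorem s73_pm_102 : ∃ t, chk3 f_pm_102 t 43 127 1 = true := ex3_a s72_pm_102 s71_pm_102

theorem s74_pm_102 : ∃ t, chk3 f_pm_102 t 43 63 1 = true := ex3_b k12_pm_102 s73_pm_102

theorem s75_pm_102 : ∃ t, chk3 f_pm_102 t 43 31 1 = true := ex3_b k11_pm_102 s74_pm_102

theorem s76_pm_102 : ∃ t, chk3 f_pm_102 t 42 255 1 = true := ex3_a k9_pm_102 k10_pm_102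

theorem s77_pm_102 : ∃ t, chk3 f_pm_102 t 42 127 1 = true := ex3_b k8_pm_102 s76_pm_102

theorem s78_pm_102 : ∃ t, chk3 f_pm_102 t 42 63 1 = true := ex3_b k7_pm_102 s77_pm_102

theorem s79_pm_102 : ∃ t, chk3 f_pm_102 t 42 31 1 = true := ex3_b k6_pm_102 s78_pm_102

theorem s80_pm_102 : ∃ t, chk3 f_pm_102 t 21 31 1 = true := ex3_a s79_pm_102 s75_pm_102

theorem s81_pm_102 : ∃ t, chk3 f_pm_102 t 21 15 1 = true := ex3_b k5_pm_102 s80_pm_102

theorem s82_pm_102 : ∃ t, chk3 f_pm_102 t 10 15 1 = true := ex3_a k4_pm_102 s81_pm_102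

theorem s83_pm_102 : ∃ t, chk3 f_pm_102 t 10 7 1 = true := ex3_b k3_pm_102 s82_pm_102

theorem s84_pm_102 : ∃ t, chk3 f_pm_102 t 10 3 1 = true := ex3_b k2_pm_102 s83_pm_102

theorem s85_pm_102 : ∃ t, chk3 f_pm_102 t 5 3 1 = true := ex3_a s84_pm_102 s69_pm_102

theorem s86_pm_102 : ∃ t, chk3 f_pm_102 t 2 3 1 = true := ex3_a k1_pm_102 s85_pm_102

theorem s87_pm_102 : ∃ t, chk3 f_pm_102 t 2 1 1 = true := ex3_b k0_pm_102 s86_pm_102

theorem s88_pm_102 : ∃ t, chk3 f_pm_102 t 1 1 1 = true := ex3_a s87_pm_102 s53_pm_102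

theorem c_pm_102 : CertB 536870912 536870912 0 536870912 818728140 40265320 3 eng mog cd0q1 cd0q2 pd0 false true false .npp 1 0 2
    ndB0q1 ndB0q2 pcB0 cut_pm_102 xt_pm_102 :=
  certB2 (fam := false) (s1 := true) (s2 := false) (a := 1) (b := 0) (c := 2) (cn := .npp) (n1 := ndB0q1) (n2 := ndB0q2) (pc := pcB0) (cut := cut_pm_102) (xt := xt_pm_102) (P1 := 536870912) (W1 := 536870912) (P2 := 0) (W2 := 536870912) (P3 := 818728140) (W3 := 40265320) (N0 := 3) (En := eng) (mo := mog) (C1 := cd0q1) (C2 := cd0q2) (C3 := pd0)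
    rfl (fun _ => rfl) s88_pm_102

noncomputable def cut_pm_112 : Cut := Cut.of [[⟨3, 0, 0, 1449551462⟩], [⟨4, 0, 0, 2845415833⟩]]

noncomputable def f_pm_112 : ℕ → ℕ → ℕ → ℕ → Bool := onCell 536870912 536870912 0 536870912 818728140 40265320
    (rowB 3 eng mog cd0q1 cd0q2 pd1 0 false true false .dn 1 1 2 (qsf 536870912 536870912 0 536870912 1) ndB0q1 ndB0q2 pcB1 cut_pm_112 Ext.none)

def k0_pm_112 : ∃ t, chk3 f_pm_112 t 2 2 1 = true :=
  ⟨(a (a (b (b (l 6) (a (b (l 6) (a (l 16600488) (l 6))) (l 6))) (b (a (b (a (l 16571232) (l 16580056)) (a (b (l 16550536) (l 16536872)) (l 16550912))) (b (a (l 16589424) (l 6)) (a (l 16558416) (l 16566304)))) (a (b (a (l 16519048) (b (l 16530048) (l 16517048))) (a (l 16494872) (l 16498432))) (b (a (b (l 16535224) (l 16521968)) (b (l 16542128) (b (l 16529984) (l 16522152)))) (a (l 16501760) (b (l 16511880) (l 16497864))))))) (b (l 6) (b (a (b (l 6) (a (b (l 6) (l 16566120)) (l 6))) (l 6)) (a (b (a (b (l 16548960) (l 16531696)) (b (l 16556336) (l 16537960))) (b (a (a (b (l 16517568) (l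 16510200)) (b (l 16519768) (l 16511872))) (a (l 16517640) (l 16520736))) (a (l 16500152) (b (l 16527384) (l 16498360))))) (b (a (b (l 6) (l 16544864)) (l 6)) (b (a (l 16525048) (l 16531568)) (a (b (l 16509936) (a (l 16499928) (l 16500896))) (l 16510120)))))))) (a (b (l 6) (b (l 6) (b (l 6) (b (l 6) (l 1))))) (l 1))), by decide +kernel⟩

def k1_pm_112 : ∃ t, chk3 f_pm_112 t 2 3 1 = true :=
  ⟨(b (a (a (b (a (b (a (l 16471888) (l 16473968)) (a (l 16448632) (l 16448912))) (b (a (b (l 16482264) (l 16469264)) (b (l 16484184) (l 16470424))) (a (b (l 16455896) (l 16441888)) (b (l 16456184) (l 16441208))))) (c (a (b (a (l 16424168) (l 16422288)) (a (l 16375136) (l 16370592))) (b (a (l 16441232) (l 16418040)) (a (l 16365936) (l 16382136)))) (a (b (a (l 16423296) (l 16421256)) (l 16373672)) (b (a (l 16419048) (l 16416576)) (l 16385048))))) (b (a (b (a (b (l 16485800) (l 16471288)) (l 16492696)) (a (l 16469360) (l 16468744))) (b (b (a (l 16488400) (b (a (l 16493232) (l 16494640)) (l 22044732951))) (a (l 16472224) (l 16472280)))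 (a (l 16467944) (l 1)))) (a (a (b (a (l 16415408) (l 16414136)) (l 16335424)) (b (l 16443656) (l 16351520))) (b (a (l 8085961511) (l 1)) (l 1))))) (l 1)) (a (a (b (a (b (a (l 16367016) (l 16359400)) (l 16349192)) (b (l 16368792) (l 16308952))) (a (b (l 16311336) (a (l 16255312) (l 16242848))) (b (l 16268336) (l 1)))) (b (b (a (l 16332504) (l 1)) (l 1)) (l 1))) (l 1))), by decide +kernel⟩

def k2_pm_112 : ∃ t, chk3 f_pm_112 t 3 1 1 = true :=
  ⟨(l 1), by decide +kernel⟩

theorem s3_pm_112 : ∃ t, chk3 f_pm_112 t 2 1 1 = true := ex3_b k0_pm_112 k1_pm_112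

theorem s4_pm_112 : ∃ t, chk3 f_pm_112 t 1 1 1 = true := ex3_a s3_pm_112 k2_pm_112

theorem c_pm_112 : CertB 536870912 536870912 0 536870912 818728140 40265320 3 eng mog cd0q1 cd0q2 pd1 false true false .dn 1 1 2
    ndB0q1 ndB0q2 pcB1 cut_pm_112 Ext.none :=
  certB0 (fam := false) (s1 := true) (s2 := false) (a := 1) (b := 1) (c := 2) (cn := .dn) (n1 := ndB0q1) (n2 := ndB0q2) (pc := pcB1) (cut := cut_pm_112) (xt := Ext.none) (P1 := 536870912) (W1 := 536870912) (P2 := 0) (W2 := 536870912) (P3 := 818728140) (W3 := 40265320) (N0 := 3) (En := eng) (mo := mog) (C1 := cd0q1) (C2 := cd0q2) (C3 := pd1)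
    rfl s4_pm_112

noncomputable def cut_pm_202 : Cut := Cut.of [[⟨3, 0, 0, 1449551462⟩], [⟨4, 0, 0, 2845415833⟩], [⟨0, 1, 0, 67108864⟩, ⟨1, 0, 0, 67108864⟩, ⟨2, 1, 0, 67108864⟩]]

noncomputable def f_pm_202 : ℕ → ℕ → ℕ → ℕ → Bool := onCell 0 536870912 0 536870912 818728140 40265320
    (rowB 3 eng mog cd0q2 cd0q2 pd0 0 false true false .pp 2 0 2 (qsf 0 536870912 0 536870912 0) ndB0q2 ndB0q2 pcB0 cut_pm_202 Ext.none)

def k0_pm_202 : ∃ t, chk3 f_pm_202 t 1 1 1 = true :=
  ⟨(l 6), by decide +kernel⟩

theorem c_pm_202 : CertB 0 536870912 0 536870912 818728140 40265320 3 eng mog cd0q2 cd0q2 pd0 false true false .pp 2 0 2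
    ndB0q2 ndB0q2 pcB0 cut_pm_202 Ext.none :=
  certB0 (fam := false) (s1 := true) (s2 := false) (a := 2) (b := 0) (c := 2) (cn := .pp) (n1 := ndB0q2) (n2 := ndB0q2) (pc := pcB0) (cut := cut_pm_202) (xt := Ext.none) (P1 := 0) (W1 := 536870912) (P2 := 0) (W2 := 536870912) (P3 := 818728140) (W3 := 40265320) (N0 := 3) (En := eng) (mo := mog) (C1 := cd0q2) (C2 := cd0q2) (C3 := pd0)
    rfl k0_pm_202

noncomputable def cut_mm_001 : Cut := Cut.of [[⟨3, 0, 0, 1449551462⟩], [⟨4, 0, 0, 2845415833⟩]]

noncomputable def f_mm_001 : ℕ → ℕ → ℕ → ℕ → Bool := onCell 0 536870912 536870912 536870912 818728140 40265320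
    (rowB 3 eng mog cd0q0 cd0q1 pd0 0 false false false .up 0 0 1 (qsf 0 536870912 536870912 536870912 0) ndB0q0 ndB0q1 pcB0 cut_mm_001 Ext.none)

def k0_mm_001 : ∃ t, chk3 f_mm_001 t 1 1 1 = true :=
  ⟨(l 6), by decide +kernel⟩

theorem c_mm_001 : CertB 0 536870912 536870912 536870912 818728140 40265320 3 eng mog cd0q0 cd0q1 pd0 false false false .up 0 0 1
    ndB0q0 ndB0q1 pcB0 cut_mm_001 Ext.none :=
  certB0 (fam := false) (s1 := false) (s2 := false) (a := 0) (b := 0) (c := 1) (cn := .up) (n1 := ndB0q0) (n2 := ndB0q1) (pc := pcB0) (cut := cut_mm_001) (xt := Ext.none) (P1 := 0) (W1 := 536870912) (P2 := 536870912) (W2 := 536870912) (P3 := 818728140) (W3 := 40265320) (N0 := 3) (En := eng) (mo := mog) (C1 := cd0q0) (C2 := cd0q1) (C3 := pd0)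
    rfl k0_mm_001

noncomputable def cut_mm_011 : Cut := Cut.of [[⟨3, 0, 0, 1449551462⟩], [⟨4, 0, 0, 2845415833⟩]]

noncomputable def f_mm_011 : ℕ → ℕ → ℕ → ℕ → Bool := onCell 0 536870912 536870912 536870912 818728140 40265320
    (rowB 3 eng mog cd0q0 cd0q1 pd1 0 false false false .pnn 0 1 1 (qsf 0 536870912 536870912 536870912 1) ndB0q0 ndB0q1 pcB1 cut_mm_011 Ext.none)

def k0_mm_011 : ∃ t, chk3 f_mm_011 t 1 1 1 = true :=
  ⟨(l 6), by decide +kernel⟩

theorem c_mm_011 : CertB 0 536870912 536870912 536870912 818728140 40265320 3 eng mog cd0q0 cd0q1 pd1 false false false .pnn 0 1 1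
    ndB0q0 ndB0q1 pcB1 cut_mm_011 Ext.none :=
  certB0 (fam := false) (s1 := false) (s2 := false) (a := 0) (b := 1) (c := 1) (cn := .pnn) (n1 := ndB0q0) (n2 := ndB0q1) (pc := pcB1) (cut := cut_mm_011) (xt := Ext.none) (P1 := 0) (W1 := 536870912) (P2 := 536870912) (W2 := 536870912) (P3 := 818728140) (W3 := 40265320) (N0 := 3) (En := eng) (mo := mog) (C1 := cd0q0) (C2 := cd0q1) (C3 := pd1)
    rfl k0_mm_011

noncomputable def cut_mm_012 : Cut := Cut.of [[⟨3, 0, 0, 1449551462⟩], [⟨4, 0, 0, 2845415833⟩]]

noncomputable def f_mm_012 : ℕ → ℕ → ℕ → ℕ → Bool := onCell 0 536870912 0 536870912 818728140 40265320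
    (rowB 3 eng mog cd0q0 cd0q2 pd1 0 false false false .pnp 0 1 2 (qsf 0 536870912 0 536870912 1) ndB0q0 ndB0q2 pcB1 cut_mm_012 Ext.none)

def k0_mm_012 : ∃ t, chk3 f_mm_012 t 1 1 1 = true :=
  ⟨(l 5), by decide +kernel⟩

theorem c_mm_012 : CertB 0 536870912 0 536870912 818728140 40265320 3 eng mog cd0q0 cd0q2 pd1 false false false .pnp 0 1 2
    ndB0q0 ndB0q2 pcB1 cut_mm_012 Ext.none :=
  certB0 (fam := false) (s1 := false) (s2 := false) (a := 0) (b := 1) (c := 2) (cn := .pnp) (n1 := ndB0q0) (n2 := ndB0q2) (pc := pcB1) (cut := cut_mm_012) (xt := Ext.none) (P1 := 0) (W1 := 536870912) (P2 := 0) (W2 := 536870912) (P3 := 818728140) (W3 := 40265320) (N0 := 3) (En := eng) (mo := mog) (C1 := cd0q0) (C2 := cd0q2) (C3 := pd1)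
    rfl k0_mm_012

noncomputable def cut_mm_022 : Cut := Cut.of [[⟨3, 0, 0, 1449551462⟩], [⟨4, 0, 0, 2845415833⟩]]

noncomputable def f_mm_022 : ℕ → ℕ → ℕ → ℕ → Bool := onCell 0 536870912 0 536870912 818728140 40265320
    (rowB 3 eng mog cd0q0 cd0q2 pd2 0 false false false .pp 0 2 2 (qsf 0 536870912 0 536870912 2) ndB0q0 ndB0q2 pcB2 cut_mm_022 Ext.none)

def k0_mm_022 : ∃ t, chk3 f_mm_022 t 1 1 1 = true :=
  ⟨(l 5), by decide +kernel⟩

theorem c_mm_022 : CertB 0 536870912 0 536870912 818728140 40265320 3 eng mog cd0q0 cd0q2 pd2 false false false .pp 0 2 2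
    ndB0q0 ndB0q2 pcB2 cut_mm_022 Ext.none :=
  certB0 (fam := false) (s1 := false) (s2 := false) (a := 0) (b := 2) (c := 2) (cn := .pp) (n1 := ndB0q0) (n2 := ndB0q2) (pc := pcB2) (cut := cut_mm_022) (xt := Ext.none) (P1 := 0) (W1 := 536870912) (P2 := 0) (W2 := 536870912) (P3 := 818728140) (W3 := 40265320) (N0 := 3) (En := eng) (mo := mog) (C1 := cd0q0) (C2 := cd0q2) (C3 := pd2)
    rfl k0_mm_022

noncomputable def cut_mm_101 : Cut := Cut.of [[⟨3, 0, 0, 1449551462⟩], [⟨4, 0, 0, 2845415833⟩]]

noncomputable def f_mm_101 : ℕ → ℕ → ℕ → ℕ → Bool := onCell 536870912 536870912 536870912 536870912 818728140 40265320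
    (rowB 3 eng mog cd0q1 cd0q1 pd0 0 false false false .npn 1 0 1 (qsf 536870912 536870912 536870912 536870912 0) ndB0q1 ndB0q1 pcB0 cut_mm_101 Ext.none)

def k0_mm_101 : ∃ t, chk3 f_mm_101 t 1 1 1 = true :=
  ⟨(l 3), by decide +kernel⟩

theorem c_mm_101 : CertB 536870912 536870912 536870912 536870912 818728140 40265320 3 eng mog cd0q1 cd0q1 pd0 false false false .npn 1 0 1
    ndB0q1 ndB0q1 pcB0 cut_mm_101 Ext.none :=
  certB0 (fam := false) (s1 := false) (s2 := false) (a := 1) (b := 0) (c := 1) (cn := .npn) (n1 := ndB0q1) (n2 := ndB0q1) (pc := pcB0) (cut := cut_mm_101) (xt := Ext.none) (P1 := 536870912) (W1 := 536870912) (P2 := 536870912) (W2 := 536870912) (P3 := 818728140) (W3 := 40265320) (N0 := 3) (En := eng) (mo := mog) (C1 := cd0q1) (C2 := cd0q1) (C3 := pd0)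
    rfl k0_mm_101

noncomputable def cut_mm_102 : Cut := Cut.of [[⟨3, 0, 0, 1449551462⟩], [⟨4, 0, 0, 2845415833⟩]]

noncomputable def f_mm_102 : ℕ → ℕ → ℕ → ℕ → Bool := onCell 536870912 536870912 0 536870912 818728140 40265320
    (rowB 3 eng mog cd0q1 cd0q2 pd0 0 false false false .npp 1 0 2 (qsf 536870912 536870912 0 536870912 0) ndB0q1 ndB0q2 pcB0 cut_mm_102 Ext.none)

def k0_mm_102 : ∃ t, chk3 f_mm_102 t 1 1 1 = true :=
  ⟨(a (l 5) (l 3)), by decide +kernel⟩

theorem c_mm_102 : CertB 536870912 536870912 0 536870912 818728140 40265320 3 eng mog cd0q1 cd0q2 pd0 false false false .npp 1 0 2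
    ndB0q1 ndB0q2 pcB0 cut_mm_102 Ext.none :=
  certB0 (fam := false) (s1 := false) (s2 := false) (a := 1) (b := 0) (c := 2) (cn := .npp) (n1 := ndB0q1) (n2 := ndB0q2) (pc := pcB0) (cut := cut_mm_102) (xt := Ext.none) (P1 := 536870912) (W1 := 536870912) (P2 := 0) (W2 := 536870912) (P3 := 818728140) (W3 := 40265320) (N0 := 3) (En := eng) (mo := mog) (C1 := cd0q1) (C2 := cd0q2) (C3 := pd0)
    rfl k0_mm_102

noncomputable def cut_mm_112 : Cut := Cut.of [[⟨3, 0, 0, 1449551462⟩], [⟨4, 0, 0, 2845415833⟩]]

noncomputable def f_mm_112 : ℕ → ℕ → ℕ → ℕ → Bool := onCell 536870912 536870912 0 536870912 818728140 40265320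
    (rowB 3 eng mog cd0q1 cd0q2 pd1 2 false false false .dn 1 1 2 (qsf 536870912 536870912 0 536870912 1) ndB0q1 ndB0q2 pcB1 cut_mm_112 Ext.none)

def k0_mm_112 : ∃ t, chk3 f_mm_112 t 1 1 1 = true :=
  ⟨(l 5), by decide +kernel⟩

theorem c_mm_112 : CertB 536870912 536870912 0 536870912 818728140 40265320 3 eng mog cd0q1 cd0q2 pd1 false false false .dn 1 1 2
    ndB0q1 ndB0q2 pcB1 cut_mm_112 Ext.none :=
  certB2 (fam := false) (s1 := false) (s2 := false) (a := 1) (b := 1) (c := 2) (cn := .dn) (n1 := ndB0q1) (n2 := ndB0q2) (pc := pcB1) (cut := cut_mm_112) (xt := Ext.none) (P1 := 536870912) (W1 := 536870912) (P2 := 0) (W2 := 536870912) (P3 := 818728140) (W3 := 40265320) (N0 := 3) (En := eng) (mo := mog) (C1 := cd0q1) (C2 := cd0q2) (C3 := pd1)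
    rfl (fun _ => rfl) k0_mm_112

noncomputable def cut_mm_202 : Cut := Cut.of [[⟨3, 0, 0, 1449551462⟩], [⟨4, 0, 0, 2845415833⟩]]

noncomputable def f_mm_202 : ℕ → ℕ → ℕ → ℕ → Bool := onCell 0 536870912 0 536870912 818728140 40265320
    (rowB 3 eng mog cd0q2 cd0q2 pd0 0 false false false .pp 2 0 2 (qsf 0 536870912 0 536870912 0) ndB0q2 ndB0q2 pcB0 cut_mm_202 Ext.none)

def k0_mm_202 : ∃ t, chk3 f_mm_202 t 1 1 1 = true :=
  ⟨(l 3), by decide +kernel⟩

theorem c_mm_202 : CertB 0 536870912 0 536870912 818728140 40265320 3 eng mog cd0q2 cd0q2 pd0 false false false .pp 2 0 2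
    ndB0q2 ndB0q2 pcB0 cut_mm_202 Ext.none :=
  certB0 (fam := false) (s1 := false) (s2 := false) (a := 2) (b := 0) (c := 2) (cn := .pp) (n1 := ndB0q2) (n2 := ndB0q2) (pc := pcB0) (cut := cut_mm_202) (xt := Ext.none) (P1 := 0) (W1 := 536870912) (P2 := 0) (W2 := 536870912) (P3 := 818728140) (W3 := 40265320) (N0 := 3) (En := eng) (mo := mog) (C1 := cd0q2) (C2 := cd0q2) (C3 := pd0)
    rfl k0_mm_202

end Pool.Agent.Strip051.G.I7625_8000.Tab.C.BB00

namespace Pool.Agent.Strip051.G.I7625_8000.Tab.C.BB01

open Pool.Agent.Strip051.PB Pool.Agent.Strip051.PB.T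
open Pool.Agent.Strip051.G.I7625_8000.Tab

noncomputable def f_pp_001 : ℕ → ℕ → ℕ → ℕ → Bool := onCell 0 536870912 536870912 536870912 818728140 40265320
    (rowB 3 eng mog cd0q0 cd1q1 pd0 0 false true true .up 0 0 1 (qsf 0 536870912 536870912 536870912 0) ndB0q0 ndB1q1 pcB0 Cut.none Ext.none)

def k0_pp_001 : ∃ t, chk3 f_pp_001 t 1 1 1 = true :=
  ⟨(l 3), by decide +kernel⟩

theorem c_pp_001 : CertB 0 536870912 536870912 536870912 818728140 40265320 3 eng mog cd0q0 cd1q1 pd0 false true true .up 0 0 1
    ndB0q0 ndB1q1 pcB0 Cut.none Ext.none :=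
  certB0 (fam := false) (s1 := true) (s2 := true) (a := 0) (b := 0) (c := 1) (cn := .up) (n1 := ndB0q0) (n2 := ndB1q1) (pc := pcB0) (cut := Cut.none) (xt := Ext.none) (P1 := 0) (W1 := 536870912) (P2 := 536870912) (W2 := 536870912) (P3 := 818728140) (W3 := 40265320) (N0 := 3) (En := eng) (mo := mog) (C1 := cd0q0) (C2 := cd1q1) (C3 := pd0)
    rfl k0_pp_001

noncomputable def f_pp_011 : ℕ → ℕ → ℕ → ℕ → Bool := onCell 0 536870912 536870912 536870912 818728140 40265320
    (rowB 3 eng mog cd0q0 cd1q1 pd1 0 false true true .pnn 0 1 1 (qsf 0 536870912 536870912 536870912 1) ndB0q0 ndB1q1 pcB1 Cut.none Ext.none)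

def k0_pp_011 : ∃ t, chk3 f_pp_011 t 1 1 1 = true :=
  ⟨(l 3), by decide +kernel⟩

theorem c_pp_011 : CertB 0 536870912 536870912 536870912 818728140 40265320 3 eng mog cd0q0 cd1q1 pd1 false true true .pnn 0 1 1
    ndB0q0 ndB1q1 pcB1 Cut.none Ext.none :=
  certB0 (fam := false) (s1 := true) (s2 := true) (a := 0) (b := 1) (c := 1) (cn := .pnn) (n1 := ndB0q0) (n2 := ndB1q1) (pc := pcB1) (cut := Cut.none) (xt := Ext.none) (P1 := 0) (W1 := 536870912) (P2 := 536870912) (W2 := 536870912) (P3 := 818728140) (W3 := 40265320) (N0 := 3) (En := eng) (mo := mog) (C1 := cd0q0) (C2 := cd1q1) (C3 := pd1)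
    rfl k0_pp_011

noncomputable def cut_pp_012_a : Cut := Cut.of [[⟨0, 0, 0, 67108864⟩, ⟨1, 1, 0, 67108864⟩, ⟨2, 1, 0, 67108864⟩]]

noncomputable def f_pp_012_a : ℕ → ℕ → ℕ → ℕ → Bool := onCell 536870912 536870912 0 536870912 818728140 40265320
    (rowB 3 eng mog cd0q0 cd1q2a pd1 2 false true true .pnp 0 1 2 (qsf 0 536870912 0 536870912 1) ndB0q0 ndB1q2a pcB1 cut_pp_012_a Ext.none)

def k0_pp_012_a : ∃ t, chk3 f_pp_012_a t 2 1 1 = true :=
  ⟨(a (l 3) (l 3)), by decide +kernel⟩

def k1_pp_012_a : ∃ t, chk3 f_pp_012_a t 12 2 1 = true :=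
  ⟨(b (a (b (a (l 3) (b (a (b (a (l 97878220103) (a (l 89825151655) (l 82308956775))) (l 3)) (b (c (a (l 71571535783) (l 16734808)) (l 56002280935)) (b (a (l 3) (l 80698339255)) (l 3)))) (l 3))) (l 3)) (b (b (a (a (b (l 16729192) (a (a (l 76940241271) (l 70497786775)) (l 16733312))) (l 16734832)) (l 16723120)) (a (a (b (b (a (l 3) (l 80161459943)) (l 3)) (l 3)) (a (b (b (l 16734016) (c (l 76940237607) (l 64592218663))) (l 3)) (b (l 48486073927) (c (l 93583230567) (l 94656973671))))) (b (a (l 16725600) (l 16717664)) (a (c (b (l 16736680) (a (l 73182139095) (l 16731400))) (a (l 107541851975) (l 99488781191))) (l 16729288))))) (a (l 3) (b (a (b (b (a (l 3) (c (l 71034654439) (l 60297216503))) (l 3)) (l 3)) (a (b (b (l 50096683271) (a (l 112373701079) (l 100562537863))) (l 3)) (b (c (l 42043618583) (l 98951906087)) (a (l 3) (b (l 101636277687) (l 3)))))) (l 3))))) (l 3)), by decide +kernel⟩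

def k2_pp_012_a : ∃ t, chk3 f_pp_012_a t 13 4 1 = true :=
  ⟨(a (b (a (b (l 16697512) (a (l 16712992) (l 16705232))) (l 16709160)) (b (a (b (a (a (l 16724680) (l 16720664)) (l 16714688)) (b (a (a (a (l 87140760407) (l 16728816)) (l 16725768)) (l 16719720)) (a (c (a (c (l 57076008647) (l 65665941239)) (l 41506746199)) (l 54928524119)) (c (l 16723136) (l 16712608))))) (c (l 16722072) (l 16726448))) (a (a (a (l 3) (a (l 3) (b (a (l 112373692839) (l 103246885735)) (l 3)))) (a (b (b (c (l 38285520599) (l 98951909207)) (l 107541851351)) (l 3)) (b (c (b (l 16724640) (l 35601165831)) (l 96267544775)) (b (l 107541849559) (l 3))))) (a (a (b (l 16722408) (b (a (l 87677623847) (l 16726792)) (l 104320622631))) (b (l 16718256) (b (l 16723640) (a (l 86603880663) (l 16726272))))) (c (b (l 16712256) (l 16729784)) (l 16725568)))))) (b (a (l 16672632) (l 16657000)) (a (b (l 16689392) (c (b (l 16699832) (l 16717120)) (l 16719952))) (b (l 16672616) (a (l 16689424) (l 16680808)))))), by decide +kernel⟩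

def k3_pp_012_a : ∃ t, chk3 f_pp_012_a t 26 5 1 = true :=
  ⟨(b (a (l 3) (b (a (a (l 3) (a (l 3) (b (l 100562524711) (l 3)))) (a (b (b (a (l 83382654151) (l 16725704)) (l 94120073479)) (l 3)) (c (b (c (l 16273806919) (l 16724416)) (b (c (c (l 72108377127) (l 39359260663)) (l 36138038055)) (l 3))) (b (b (l 16722032) (l 88214483543)) (b (l 100562521767) (l 3)))))) (l 3))) (l 3)), by decide +kernel⟩

def k4_pp_012_a : ∃ t, chk3 f_pp_012_a t 54 10 1 = true :=
  ⟨(b (a (a (c (b (l 16720240) (a (b (l 25937475543) (l 3)) (b (l 16724768) (a (l 98415042423) (l 91435719335))))) (b (l 16708888) (l 38285508295))) (b (l 16715440) (b (l 16721064) (a (a (l 72108365079) (l 65129042327)) (l 16721160))))) (b (l 16708680) (a (b (l 16716520) (l 16720336)) (l 16713856)))) (c (a (b (b (a (l 3) (a (l 3) (a (l 90361979063) (l 84456397591)))) (l 3)) (l 3)) (b (a (a (b (l 74255848007) (l 3)) (b (l 16723616) (l 78550817863))) (b (l 16720280) (a (l 62444688471) (l 16723048)))) (b (a (l 3) (a (l 81235175495) (a (l 73182110631) (l 66202787783))))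 (l 3)))) (a (b (b (a (l 3) (l 95730680647)) (l 3)) (l 3)) (b (a (b (l 16727424) (a (l 3) (l 16728816))) (b (l 16718704) (l 16727912))) (b (a (l 3) (a (l 60297218903) (l 16728064))) (l 3)))))), by decide +kernel⟩

def k5_pp_012_a : ∃ t, chk3 f_pp_012_a t 55 10 1 = true :=
  ⟨(c (b (a (b (l 16679864) (l 16708040)) (l 16695968)) (b (b (a (l 16713648) (l 16705000)) (a (a (l 16719712) (l 16715312)) (l 16708800))) (a (c (c (b (a (c (l 16726752) (l 16729248)) (l 16719776)) (a (a (l 50096670263) (b (l 16725952) (c (l 17347546039) (l 16730128)))) (c (l 16727728) (l 16728888)))) (b (a (a (l 77477069687) (l 16717464)) (l 16724664)) (b (a (a (l 16729120) (l 77477073863)) (a (l 16723496) (l 16721304))) (a (a (l 3) (l 89825108743)) (a (l 16729424) (l 16723312)))))) (b (a (a (l 16727040) (l 16722168)) (l 16718784)) (a (b (l 79087683479) (l 65665914903)) (b (l 16721792) (l 16726432))))) (a (a (l 16723832) (l 16715752)) (l 16717752))))) (b (a (b (l 16698360) (l 16716248)) (b (l 16689160) (l 16696472))) (b (a (a (l 16721152) (l 16711160))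 (a (l 16706464) (l 16701840))) (a (a (b (l 16727160) (a (l 57075992775) (l 16727400))) (b (l 16717152) (l 18958150359))) (a (l 16721040) (l 16720304)))))), by decide +kernel⟩

def k6_pp_012_a : ∃ t, chk3 f_pp_012_a t 27 11 1 = true :=
  ⟨(a (l 3) (c (b (a (b (a (l 3) (c (b (c (a (a (l 3) (b (l 16729208) (l 3))) (b (l 16725648) (a (l 3) (l 16729080)))) (a (b (l 88214495671) (l 3)) (b (l 16726632) (l 86067011735)))) (l 3)) (b (a (a (l 3) (l 41506735975)) (l 33453670167)) (l 3)))) (l 3)) (b (c (c (b (a (c (l 16727464) (l 16725984)) (l 16719192)) (b (a (a (a (l 3) (l 16728320)) (l 16725424)) (l 16722224)) (a (a (l 3) (a (l 3) (l 16726920))) (l 16727536)))) (a (a (b (b (l 16723144) (l 16727792)) (a (l 3) (l 57075981863))) (b (l 16727224) (b (l 16727664) (l 16728392)))) (b (l 16723984) (a (a (l 16726416) (l 16725984)) (l 16724360))))) (a (b (c (l 16726400) (l 16727392)) (a (b (l 16729192) (l 3)) (l 29695573287))) (b (l 16723192) (b (l 16726280) (l 15200055399))))) (a (l 3) (b (b (c (a (a (l 3) (l 44727955607)) (l 16725056))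 (a (l 16727616) (l 16724104))) (a (l 3) (a (l 3) (l 42580469303)))) (l 3))))) (l 3)) (b (a (b (a (l 3) (b (a (l 48486057719) (l 42043602855)) (l 3))) (l 3)) (b (a (b (l 17884407415) (a (l 43654218887) (l 37211764023))) (b (l 16726480) (c (l 16726144) (l 16719512)))) (a (l 3) (b (a (l 39359251511) (l 31843054823)) (l 3))))) (l 3)))), by decide +kernel⟩

def k7_pp_012_a : ∃ t, chk3 f_pp_012_a t 6 3 1 = true :=
  ⟨(l 3), by decide +kernel⟩

def k8_pp_012_a : ∃ t, chk3 f_pp_012_a t 14 4 1 = true :=
  ⟨(a (b (a (l 16600192) (l 16586992)) (a (b (l 16614664) (l 16689432)) (b (l 16621256) (l 16653424)))) (a (b (l 16617736) (l 16656208)) (b (l 16609336) (b (l 16620256) (l 16630088))))), by decide +kernel⟩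

def k9_pp_012_a : ∃ t, chk3 f_pp_012_a t 56 10 2 = true :=
  ⟨(b (a (b (l 16684160) (l 16670168)) (l 16658680)) (a (b (b (l 16696576) (l 16689824)) (l 16715264)) (b (l 16669240) (a (l 16699800) (l 16695680))))), by decide +kernel⟩

def k10_pp_012_a : ∃ t, chk3 f_pp_012_a t 56 22 2 = true :=
  ⟨(a (b (a (a (a (l 16723488) (l 16721992)) (l 16720376)) (l 16718464)) (a (a (b (b (l 16722424) (a (l 36138015607) (l 16723968))) (b (a (l 44727954631) (l 41506726663)) (l 3))) (c (b (l 16721792) (b (l 16724912) (a (l 25400606855) (l 16726480)))) (b (l 16720736) (b (l 16723912) (l 16728672))))) (c (b (a (b (l 16718608) (l 16720672)) (l 16712264)) (b (l 16721680) (b (l 16723248) (l 16726920)))) (b (l 16722696) (b (l 16725856) (l 16725368)))))) (b (a (b (l 16705648) (b (l 16708640) (l 16710664))) (b (l 16701480) (l 16705456))) (a (a (b (b (l 16713776) (l 16715848)) (l 16721608)) (c (b (l 16713256) (l 16712128)) (l 16719408))) (a (b (l 16710568) (l 16717328)) (b (l 16708464) (l 16712592)))))), by decide +kernel⟩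

def k11_pp_012_a : ∃ t, chk3 f_pp_012_a t 56 23 2 = true :=
  ⟨(a (b (a (l 3) (b (c (a (b (c (c (l 16728600) (l 73718980951)) (l 16728720)) (l 3)) (b (l 16724808) (c (l 16728464) (l 16728688)))) (a (b (l 16728624) (l 3)) (b (l 16723800) (l 16728592)))) (l 3))) (l 3)) (b (a (b (a (c (l 16726336) (l 16727944)) (a (b (l 16720536) (l 16722672)) (l 16723152))) (c (a (b (c (l 16728440) (l 16728008)) (l 3)) (a (c (l 16727896) (l 4462641271)) (l 16727584))) (a (b (l 16728584) (l 3)) (b (l 16723776) (l 16728592))))) (a (b (b (l 16717856) (l 16722600)) (b (a (l 16722664) (l 16721584)) (c (a (l 16727896) (l 16724200)) (l 16723792)))) (b (b (l 16715728) (l 16717840)) (c (b (l 16720456) (l 16723896)) (l 16720552))))) (a (a (l 3) (a (l 3) (a (l 3) (b (b (l 47412309431) (l 3)) (l 3))))) (b (c (c (a (b (l 65665915991) (a (l 3) (l 67813404743))) (l 16727824)) (a (a (l 68350272407) (l 16729224)) (b (l 16724520) (l 16729336)))) (a (b (l 16728624) (l 14663192471)) (b (l 16723832) (l 16728680)))) (b (a (l 3) (a (l 3) (c (l 2852031751) (l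 16727768)))) (l 3)))))), by decide +kernel⟩

def k12_pp_012_a : ∃ t, chk3 f_pp_012_a t 56 5 3 = true :=
  ⟨(b (a (b (b (l 16680328) (l 16687536)) (b (l 16695088) (c (l 16714344) (l 16723040)))) (b (l 16675576) (b (l 16686520) (l 16704800)))) (b (b (a (a (b (l 16711392) (l 16726088)) (l 16719488)) (a (l 16715104) (l 16700352))) (a (a (b (c (l 16725848) (l 16729640)) (a (l 31843058551) (l 27011216471))) (b (l 16725856) (c (l 16725672) (l 16724216)))) (a (a (l 16719472) (l 16722528)) (l 16716680)))) (a (b (a (l 3) (b (a (b (l 16729416) (l 3)) (l 23253119911)) (l 3))) (l 3)) (a (b (b (c (l 16725632) (l 16724216)) (a (b (l 16729424) (l 3)) (c (l 16728984) (l 16727672)))) (b (b (a (l 3) (l 28621835047)) (l 3)) (l 3))) (b (b (l 16720600) (c (l 16725720) (l 16724400))) (a (b (b (l 16729584) (l 18958158871)) (l 3)) (b (c (l 16729152) (l 16727944)) (b (l 17347546119) (l 3))))))))), by decide +kernel⟩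

def k13_pp_012_a : ∃ t, chk3 f_pp_012_a t 57 5 1 = true :=
  ⟨(b (b (a (b (l 16666480) (l 16673296)) (l 16641600)) (c (b (a (l 16682256) (l 16674656)) (l 16699776)) (a (b (l 16678448) (l 16686136)) (b (l 16670920) (l 16678488))))) (b (a (c (a (b (l 16688880) (b (l 16705344) (b (l 16708408) (l 16710480)))) (b (l 16695328) (b (l 16701256) (l 16705328)))) (b (l 16704664) (b (l 16700416) (l 16715176)))) (c (c (l 16705808) (b (l 16688760) (a (l 16698688) (l 16694792)))) (b (l 16686416) (l 16705184)))) (c (a (b (a (b (a (l 16717296) (l 16712576)) (a (b (l 16717848) (l 16722616)) (b (l 16715744) (l 16717880)))) (b (b (l 16708416) (l 16710504)) (b (l 16712608) (l 16717352)))) (a (a (b (c (b (l 16722592) (b (l 16724200) (l 16725288))) (l 16725416)) (c (b (b (l 16727688) (l 61370949447)) (a (l 3) (l 64592177511))) (b (l 16728752) (l 16731032)))) (b (b (l 16722656) (l 16724496)) (c (c (l 16727352) (l 16727984)) (b (l 16723976) (l 16726224))))) (a (b (b (l 16717920) (l 16720088)) (b (l 16724888) (b (l 16723912) (l 16726320))))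 (b (l 16719864) (b (l 16720160) (l 16724968)))))) (b (a (b (l 16705392) (b (l 16708512) (l 16710616))) (b (l 16701408) (l 16697680))) (a (a (b (l 16714840) (b (l 16718072) (l 16722872))) (b (l 16715408) (b (l 16716008) (l 16718176)))) (a (b (l 16710760) (a (l 16715560) (l 16714544))) (b (l 16708760) (l 16713032)))))) (b (a (b (a (l 16711128) (l 16707024)) (a (l 16720824) (l 16711456))) (a (l 16715752) (l 16711888))) (a (a (a (b (l 16726424) (b (l 16729888) (l 15736933591))) (b (l 16719072) (c (l 16726816) (l 16728384)))) (b (l 16721208) (c (l 16724976) (l 16725272)))) (b (a (l 16717176) (l 16708024)) (a (c (l 16722192) (l 16716008)) (l 16717800)))))))), by decide +kernel⟩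

def k14_pp_012_a : ∃ t, chk3 f_pp_012_a t 29 5 1 = true :=
  ⟨(a (b (b (l 16662928) (a (l 16669496) (l 16662912))) (c (b (a (b (l 16660976) (b (l 16666712) (l 16681136))) (l 16689336)) (a (b (l 16706216) (b (l 16709120) (a (b (l 16708984) (l 16711128)) (l 16695728)))) (b (l 16690472) (b (l 16696560) (l 16700728))))) (b (a (b (l 16679208) (a (l 16689152) (l 16685608))) (b (l 16672560) (l 16659592))) (a (a (b (l 16708152) (b (l 16704232) (l 16708712))) (b (l 16694056) (b (l 16700552) (l 16704984)))) (b (c (l 16678824) (l 16677904)) (a (b (l 16696976) (l 16701368)) (l 16685280))))))) (b (a (b (l 16643984) (l 16657184)) (b (l 16639456) (l 16652376))) (c (a (b (l 16672800) (b (l 16684240) (l 16692304))) (b (l 16667840) (c (l 16693984) (l 16693208)))) (a (b (l 16670632) (b (l 16672120) (l 16691016))) (b (l 16665392) (b (l 16677112) (l 16685344))))))), by decide +kernel⟩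

def k15_pp_012_a : ∃ t, chk3 f_pp_012_a t 15 2 1 = true :=
  ⟨(b (b (a (a (l 16604040) (l 16594880)) (a (l 16576280) (l 16556616))) (a (a (l 16618736) (l 16608808)) (a (l 16589736) (c (l 16523744) (l 16574016))))) (a (a (b (b (l 16634112) (a (l 16648368) (l 16645056))) (b (a (a (l 16663424) (l 16661464)) (l 16655992)) (c (a (a (l 16677728) (l 16673032)) (b (l 16662528) (l 16669072))) (a (b (l 16672288) (l 16680344)) (l 16670768))))) (b (c (a (l 16627840) (l 16618056)) (l 16650400)) (c (a (b (l 16643608) (b (l 16652584) (l 16638056))) (b (l 16612552) (b (l 16642360) (l 16627720)))) (b (l 16665784) (a (l 16661416) (l 16651824)))))) (c (b (a (b (l 16598256) (l 16607368)) (b (l 16577360) (a (l 16591784) (l 16581312)))) (a (a (b (l 16602168) (b (l 16631928) (l 16638320))) (b (l 16612728) (b (l 16621520) (l 16628056)))) (b (a (l 16602304) (l 16592112)) (a (b (l 16611352) (l 16618056)) (b (l 16601376) (l 16608240)))))) (b (a (l 16631168) (l 16611608)) (a (b (l 16625488) (a (l 16642192) (l 16611552))) (b (l 16605928) (a (l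 16601976) (l 16613424)))))))), by decide +kernel⟩

def k16_pp_012_a : ∃ t, chk3 f_pp_012_a t 56 12 1 = true :=
  ⟨(l 3), by decide +kernel⟩

def k17_pp_012_a : ∃ t, chk3 f_pp_012_a t 57 24 2 = true :=
  ⟨(a (b (a (b (a (l 3) (c (b (l 64055306487) (l 3)) (l 62981563911))) (l 3)) (b (c (a (b (a (l 16728856) (l 16726456)) (l 61370952279)) (b (l 16726824) (a (l 16728904) (l 16726512)))) (a (b (l 16726336) (l 16731264)) (b (l 16724216) (l 16729088)))) (a (l 3) (b (c (l 59760339575) (l 16730592)) (l 3))))) (l 3)) (b (a (b (a (c (b (l 16722736) (l 16726232)) (l 16725864)) (b (l 16720360) (l 16724536))) (c (a (b (a (l 16727664) (l 16726592)) (l 58149727335)) (b (l 16725016) (a (l 16727760) (l 16726704)))) (a (b (l 16726624) (l 16730264)) (b (l 16724536) (l 16726808))))) (a (b (a (l 16722216) (l 16721520)) (b (l 16725344) (c (l 16725144) (l 16724744)))) (b (b (l 16716280) (l 16718472)) (b (l 16720680) (l 16725520))))) (a (a (l 3) (b (b (c (l 57075985911) (l 16730456)) (l 3)) (l 3))) (a (b (b (a (l 16729032) (l 16726688)) (c (l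 55465373783) (l 16730672))) (l 3)) (b (b (c (l 16725296) (l 16724968)) (c (l 16728840) (l 16727256))) (b (c (l 53854761383) (l 16730904)) (l 60297215623))))))), by decide +kernel⟩

def k18_pp_012_a : ∃ t, chk3 f_pp_012_a t 57 24 3 = true :=
  ⟨(a (a (b (a (l 3) (b (b (l 14663191895) (l 3)) (l 3))) (l 3)) (b (b (a (b (l 16727712) (l 14126321015)) (c (l 704545079) (l 16729000))) (a (l 3) (b (a (l 16730936) (l 16729864)) (l 3)))) (l 3))) (a (a (b (b (c (l 16727784) (l 16721720)) (b (l 5536383527) (a (l 16731248) (l 16730176)))) (l 3)) (b (b (l 16722752) (c (l 16727752) (l 16727112))) (b (b (c (l 16731304) (l 16730760)) (l 3)) (l 3)))) (b (b (c (l 16722736) (l 16716768)) (a (c (l 16725720) (l 16722488)) (l 16724744))) (b (a (b (l 16728960) (c (l 16728984) (l 16728528))) (c (l 16728360) (l 16727904))) (a (l 3) (b (c (l 16729296) (l 16728936)) (c (l 16733088) (l 16734088)))))))), by decide +kernel⟩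

def k19_pp_012_a : ∃ t, chk3 f_pp_012_a t 57 25 1 = true :=
  ⟨(l 3), by decide +kernel⟩

def k20_pp_012_a : ∃ t, chk3 f_pp_012_a t 28 13 1 = true :=
  ⟨(l 3), by decide +kernel⟩

def k21_pp_012_a : ∃ t, chk3 f_pp_012_a t 58 12 2 = true :=
  ⟨(b (a (b (a (b (a (b (l 16714280) (l 16716464)) (l 16713400)) (a (b (l 16718664) (l 16720880)) (b (l 16716680) (l 16718888)))) (b (b (l 16709416) (l 16711576)) (a (l 16710584) (l 16708656)))) (c (a (b (a (b (l 16723256) (l 16725480)) (b (l 16721240) (l 16723464))) (a (b (l 16727720) (l 53317890855)) (b (l 16725696) (l 16727944)))) (b (b (l 16713040) (l 16715240)) (l 16725144))) (a (b (b (l 16724568) (l 16726840)) (a (b (l 16727512) (l 16731168)) (b (l 16725504) (l 16727800)))) (a (b (l 16720128) (b (l 16723520) (l 16725808))) (b (l 16718192) (l 16725336)))))) (b (b (l 16710208) (b (l 16710800) (l 16714120))) (a (b (l 16715456) (a (a (l 16716096) (l 16715136)) (l 16713728))) (b (l 16711864) (l 16716272))))) (a (b (a (b (a (b (l 54391636055) (l 3)) (b (c (l 52244149479) (l 16731448))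 (l 53317894743))) (l 3)) (b (c (a (l 16729352) (b (l 16726208) (l 16728472))) (a (b (l 16728104) (l 16731752)) (b (l 16726136) (l 16728440)))) (a (b (l 51707282887) (l 3)) (b (c (l 16728144) (l 16732080)) (l 50633541991))))) (l 3)) (b (a (a (b (l 16725368) (a (l 16730608) (l 16729456))) (b (l 16723464) (l 16728344))) (b (c (l 16720760) (l 16720704)) (c (l 16725240) (l 16725264)))) (a (b (a (b (l 49559801127) (l 3)) (c (l 16732632) (b (l 16728880) (l 49022932343)))) (l 3)) (b (a (b (l 16729584) (l 16731888)) (l 16728936)) (a (b (l 16734280) (l 3)) (b (l 16732376) (l 16734760)))))))), by decide +kernel⟩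

def k22_pp_012_a : ∃ t, chk3 f_pp_012_a t 58 12 3 = true :=
  ⟨(b (a (a (b (b (l 16718504) (c (l 16723376) (l 16722840))) (b (b (c (l 16721576) (l 16721128)) (c (l 16726520) (l 16723512))) (a (b (l 16729696) (c (l 16729632) (l 16729344))) (b (l 16725096) (l 16730088))))) (b (b (l 16714728) (a (l 16714992) (l 16713112))) (a (b (l 16722256) (b (l 16723144) (l 16725504))) (b (l 16717720) (b (l 16721216) (l 16723560)))))) (a (b (b (l 16705816) (a (l 16711256) (l 16709432))) (b (b (l 16713752) (l 16716056)) (c (b (l 16718496) (l 16720800)) (l 16722040)))) (a (b (b (l 16703184) (l 16707664)) (b (l 16712200) (l 16716792))) (b (b (l 16701488) (l 16705944)) (b (l 16710456) (l 16715024)))))) (a (b (a (b (c (b (a (l 16733432) (l 16729984)) (l 56539121127)) (b (a (l 16734504) (l 16729776)) (l 58149734167))) (l 3)) (b (b (a (l 16730496) (l 16725920)) (a (c (l 16730352) (l 16730208)) (l 16729608))) (a (b (l 55465379719) (l 3)) (a (b (l 16731200) (l 3)) (b (l 16730192) (a (l 16732920) (l 16732384))))))) (l 3)) (b (a (a (b (b (l 16724000)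 (l 16726360)) (b (c (l 16728760) (l 16728688)) (c (l 16731136) (l 16732424)))) (b (b (l 16722104) (l 16724456)) (b (l 16729432) (c (l 16729192) (l 16729168))))) (b (a (b (l 16720264) (l 16722600)) (b (l 16718480) (l 16720800))) (b (a (l 16724944) (l 16723136)) (a (c (l 16727320) (l 16727288)) (l 16725480))))) (a (b (a (a (l 52781028855) (c (l 51707285975) (l 53317899111))) (a (b (l 16733368) (l 47412322871)) (b (l 16731088) (l 49022933351)))) (l 3)) (b (a (b (c (l 16729664) (l 16729672)) (c (l 44191091079) (l 16733392))) (b (c (l 16727832) (l 16727824)) (c (l 16730176) (l 16730208)))) (a (b (c (l 50096675271) (l 51170417607)) (l 3)) (b (c (l 16729912) (l 16733912)) (c (l 42043612567) (l 40433000055))))))))), by decide +kernel⟩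

def k23_pp_012_a : ∃ t, chk3 f_pp_012_a t 59 12 1 = true :=
  ⟨(b (c (a (b (a (l 16702152) (l 16699192)) (a (b (l 16708576) (l 16712944)) (l 16707744))) (b (a (l 16696496) (l 16692744)) (a (l 16704768) (l 16700208)))) (a (b (b (l 16697472) (l 16701864)) (a (b (l 16697456) (b (l 16711328) (l 16708360))) (b (l 16694272) (l 16709232)))) (b (a (l 16695232) (l 16692480)) (a (l 16703992) (l 16701136))))) (c (a (b (a (b (l 16717368) (c (l 16721856) (l 16721824))) (b (l 16714272) (l 16718704))) (a (b (c (l 16726352) (l 16726376)) (c (l 16730232) (a (l 16731832) (l 16730136)))) (b (c (l 16722896) (l 16723144)) (c (l 16727272) (l 16727696))))) (b (a (b (l 16710656) (l 16714728)) (b (l 16706080) (l 16710136))) (a (b (l 16718920) (l 16723224)) (b (l 16714312) (a (l 16719776) (l 16717432)))))) (a (b (a (b (a (l 16712664) (l 16710968)) (c (l 16721736) (b (l 16720424) (l 16718840)))) (b (l 16713760) (a (l 16719152) (l 16717528)))) (a (a (c (b (b (l 16726064) (l 16728392)) (l 16731912)) (b (b (l 16726016) (l 16728384)) (b (l 16730768)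 (c (l 16733136) (l 16733168))))) (b (l 16725720) (c (l 16730168) (b (l 16728968) (l 16728720))))) (b (c (l 16723024) (l 16722856)) (c (a (l 16728464) (l 16726824)) (a (l 16728400) (l 16726688)))))) (b (a (b (l 16710656) (l 16715176)) (b (l 16707728) (l 16712192))) (a (b (c (l 16719888) (l 16719560)) (c (l 16724448) (l 16723856))) (b (c (l 16716232) (l 16716416)) (c (l 16720376) (l 16720976)))))))), by decide +kernel⟩

def k24_pp_012_a : ∃ t, chk3 f_pp_012_a t 58 13 1 = true :=
  ⟨(a (l 3) (a (l 3) (a (l 3) (b (b (b (b (c (l 16737280) (l 49022938711)) (l 3)) (l 3)) (l 3)) (l 3))))), by decide +kernel⟩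

def k25_pp_012_a : ∃ t, chk3 f_pp_012_a t 59 26 2 = true :=
  ⟨(a (b (a (b (a (b (l 16735296) (l 16737800)) (b (l 16733536) (l 16735880))) (c (l 11978853143) (a (l 3) (l 16737144)))) (a (b (l 16731744) (c (l 16737424) (l 16735216))) (b (l 16731032) (c (l 16735264) (l 16733312))))) (a (l 3) (b (c (l 9294499783) (a (l 3) (l 16737768))) (l 3)))) (b (a (b (c (l 16727224) (l 16728104)) (c (l 16731848) (l 16731632))) (a (b (l 16724208) (l 16728768)) (b (l 16721864) (l 16726424)))) (a (a (b (c (l 16737696) (l 16735704)) (l 3)) (b (l 16734472) (c (l 16740176) (l 16738144)))) (a (b (l 16733472) (c (l 16732720) (l 16738632))) (b (l 16731120) (c (l 16730392) (c (l 16730952) (l 16731344)))))))), by decide +kernel⟩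

def k26_pp_012_a : ∃ t, chk3 f_pp_012_a t 59 26 3 = true :=
  ⟨(a (b (a (a (b (b (c (l 40969872135) (a (l 47949196471) (l 16732472))) (c (l 16738040) (l 46338586295))) (l 3)) (a (b (b (c (l 16734104) (l 16734176)) (l 16736568)) (l 3)) (b (b (l 16733256) (l 16735624)) (b (l 16736808) (l 3))))) (b (c (a (l 16733128) (l 16731448)) (a (b (l 16729320) (l 16734312)) (l 16730728))) (c (a (b (l 16736656) (l 16739160)) (b (l 16734928) (l 16737280))) (a (b (l 16736712) (l 16738592)) (b (l 16734912) (l 16737296)))))) (a (l 3) (a (l 3) (b (b (a (l 16738968) (l 16737960)) (l 3)) (l 3))))) (b (a (b (c (b (l 16727872) (l 16730128)) (b (l 16727656) (l 16729992))) (a (c (l 16731824) (b (l 16733176) (l 16735528))) (b (l 16731592) (l 16732592)))) (b (c (l 16724656) (a (l 16726368) (l 16724752))) (c (a (l 16730160) (l 16727944)) (a (l 16728368) (l 16726424))))) (a (a (b (c (b (l 16737888) (l 16740112)) (b (l 16736576) (l 16739056))) (l 3)) (b (c (l 16735576) (b (l 16736152) (l 16735872))) (c (l 8757629863) (b (l 16739624) (l 3))))) (b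 (a (b (l 16731376) (l 16734960)) (c (l 16732488) (c (l 16733216) (l 16731104)))) (c (a (l 16737792) (l 16735880)) (a (b (l 16738984) (l 16738624)) (c (l 16735208) (l 16736960)))))))), by decide +kernel⟩

def k27_pp_012_a : ∃ t, chk3 f_pp_012_a t 59 27 1 = true :=
  ⟨(a (l 3) (a (l 3) (b (b (c (a (l 16740416) (b (l 33990554871) (l 16736968))) (a (b (l 8757635431) (l 3)) (c (l 16740072) (b (l 16740240) (l 16741200))))) (l 3)) (l 3)))), by decide +kernel⟩

def k28_pp_012_a : ∃ t, chk3 f_pp_012_a t 14 7 1 = true :=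
  ⟨(l 3), by decide +kernel⟩

def k29_pp_012_a : ∃ t, chk3 f_pp_012_a t 30 12 1 = true :=
  ⟨(a (b (b (c (a (l 16685728) (l 16675992)) (a (l 16693880) (l 16680624))) (c (a (a (l 16695528) (l 16690728)) (a (l 16671392) (l 16665072))) (a (a (l 16698440) (l 16694584)) (a (l 16690016) (l 16685376))))) (c (a (c (b (a (a (l 16693376) (l 16690952)) (b (l 16695720) (l 16699784))) (a (b (l 16698424) (b (l 16712144) (l 16714344))) (b (l 16703976) (l 16708272)))) (b (b (l 16699792) (l 16703784)) (a (b (l 16699784) (b (l 16702952) (l 16705104))) (b (l 16695016) (l 16701848))))) (b (a (b (l 16681120) (l 16685136)) (b (l 16686568) (l 16690560))) (a (b (b (l 16698704) (l 16700800)) (b (l 16702944) (l 16705120))) (b (l 16705200) (l 16705576))))) (a (b (a (b (l 16704664) (l 16708528)) (l 16704720)) (a (b (l 16712512) (c (l 16715888) (l 16717360))) (b (l 16708024) (l 16712112)))) (b (a (l 16697528) (l 16692880)) (a (b (l 16703448) (l 16707568)) (b (l 16698824) (l 16702976))))))) (b (b (c (a (b (l 16643136) (l 16646656)) (a (l 16658088)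 (l 16652904))) (a (l 16671232) (l 16661664))) (c (a (a (a (l 16676984) (l 16674392)) (l 16670520)) (a (l 16665384) (l 16660256))) (a (c (l 16661176) (l 16679736)) (l 16674072)))) (c (a (b (a (b (l 16681440) (l 16685464)) (b (l 16676296) (l 16680376))) (a (b (l 16689648) (l 16699280)) (c (l 16696272) (l 16687976)))) (b (a (l 16683768) (l 16678784)) (a (c (l 16691272) (l 16683128)) (c (l 16675864) (l 16678344))))) (a (a (b (l 16688192) (b (l 16694184) (l 16687896))) (b (l 16683488) (b (l 16668576) (l 16683320)))) (a (b (l 16657840) (b (l 16684944) (l 16668272))) (b (l 16653200) (a (l 16662696) (l 16660424)))))))), by decide +kernel⟩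

def k30_pp_012_a : ∃ t, chk3 f_pp_012_a t 60 26 1 = true :=
  ⟨(c (a (b (a (a (b (c (l 16718920) (l 16714824)) (b (l 16717648) (l 16719952))) (b (c (l 16716472) (l 16717704)) (c (l 16721072) (l 16716968)))) (b (c (l 16717984) (b (l 16712992) (l 16715216))) (a (c (l 16718608) (l 16719832)) (l 16722016)))) (c (a (a (b (l 16728288) (l 16728008)) (b (l 16725856) (l 16730872))) (b (a (l 16723432) (l 16721000)) (b (l 16726000) (l 16728608)))) (a (b (a (b (l 16728048) (l 16730432)) (l 16721648)) (a (a (l 16729416) (l 16728272)) (l 16726544))) (a (b (l 16724552) (l 16724248)) (b (l 16722208) (l 16727184)))))) (b (a (b (b (l 16712584) (l 16714856)) (c (l 16712424) (l 16719112))) (b (c (l 16702712) (l 16704424)) (c (l 16707496) (l 16709104)))) (a (a (b (l 16724440) (c (l 16723720) (l 16724872))) (b (l 16722056) (b (l 16720632) (l 16723248)))) (b (b (l 16717208) (l 16719744)) (b (l 16722336) (l 16724984)))))) (a (b (a (b (c (l 16720160) (l 16721528)) (c (l 16724568) (a (l 16726904) (l 16724752)))) (a (b (l 16717480) (l 16721856))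 (b (l 16715232) (l 16719624)))) (a (a (b (c (l 16730256) (l 16730032)) (c (l 16734984) (c (l 16735696) (l 16733576)))) (b (a (l 16729144) (l 16728048)) (b (l 16732104) (l 16734504)))) (a (b (l 16726072) (a (l 16731680) (l 16730592))) (b (l 16724200) (c (l 16723104) (l 16729608)))))) (b (a (a (b (l 16712968) (l 16717392)) (b (l 16710696) (l 16715152))) (c (b (l 16706296) (b (l 16709696) (l 16712024))) (b (l 16697848) (l 16704896)))) (a (b (a (l 16721992) (l 16719784)) (a (l 16726792) (l 16724616))) (a (b (b (l 16705904) (l 16708280)) (l 16722432)) (c (b (l 16714480) (l 16719448)) (l 16718664))))))), by decide +kernel⟩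

def k31_pp_012_a : ∃ t, chk3 f_pp_012_a t 60 27 1 = true :=
  ⟨(c (a (a (b (b (c (a (l 16733200) (l 16730888)) (a (l 36674906919) (l 16731672))) (c (l 16742408) (a (l 16744192) (l 16742176)))) (l 3)) (b (a (b (b (l 16727640) (l 16730320)) (c (l 16728872) (l 16734808))) (b (c (l 16731456) (l 16727144)) (c (l 16726576) (l 16732592)))) (b (c (l 16743888) (l 16741816)) (l 16744488)))) (b (a (a (b (c (l 16729112) (l 16730120)) (c (l 16734768) (l 16725120))) (c (b (l 16726768) (l 16732464)) (b (l 16727848) (l 16722888)))) (b (a (c (l 16724424) (l 16725576)) (l 16727920)) (c (a (l 16730168) (l 16727864)) (a (l 16731136) (l 16728896))))) (a (b (c (l 16729080) (l 16740240)) (c (l 16745640) (l 16740864))) (b (c (l 16724552) (l 16727976)) (l 16739008))))) (a (b (a (b (a (c (l 16738600) (b (l 16739512) (l 16739304))) (b (l 16736952) (l 16738144))) (c (a (l 16742160) (l 16740232)) (a (l 14126344407) (c (l 16740760) (l 16741136))))) (b (a (a (l 16735288) (l 16734224)) (c (l 16727496) (l 16734480))) (c (a (l 16740800) (l 16738664))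 (a (l 16739312) (l 16736928))))) (a (l 3) (b (c (a (l 16740776) (l 16744088)) (a (l 16743984) (l 16742136))) (c (l 16745032) (l 27548126727))))) (b (a (a (b (c (l 16725968) (l 16732384)) (c (l 16731264) (l 16737480))) (b (l 16729640) (l 16732248))) (a (b (l 16727488) (l 16732744)) (b (l 16725328) (l 16730616)))) (a (b (c (l 16738352) (a (l 16737536) (l 16740736))) (c (l 16741360) (a (l 16742152) (l 16740104)))) (b (c (l 16736712) (l 16735032)) (a (l 16738472) (l 16736608))))))), by decide +kernel⟩

def k32_pp_012_a : ∃ t, chk3 f_pp_012_a t 61 26 1 = true :=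
  ⟨(c (a (b (a (b (c (l 16697712) (l 16699592)) (c (l 16702576) (l 16704336))) (b (l 16698992) (c (l 16697688) (l 16699600)))) (c (a (b (l 16707664) (l 16712992)) (b (l 16702856) (l 16708256))) (a (b (l 16709296) (l 16714472)) (b (l 16704624) (l 16709872))))) (b (a (b (l 16688928) (l 16699112)) (b (l 16684160) (l 16689168))) (a (b (c (l 16698104) (l 16700000)) (c (l 16703576) (l 16705304))) (b (l 16694392) (c (l 16698952) (l 16700784)))))) (a (a (a (b (b (l 16693408) (l 16697944)) (b (l 16703968) (a (l 16708120) (l 16707024)))) (b (b (l 16691136) (l 16695696)) (b (l 16700440) (l 16705384)))) (b (b (l 16687736) (b (l 16691168) (l 16693512))) (b (a (l 16698224) (l 16696016)) (a (l 16703192) (l 16701008))))) (b (a (b (l 16683232) (l 16687880)) (b (l 16689232) (l 16683440))) (a (b (l 16692712) (b (l 16696456) (l 16699024))) (b (l 16688320) (l 16693392)))))), by decide +kernel⟩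

def k33_pp_012_a : ∃ t, chk3 f_pp_012_a t 61 27 1 = true :=
  ⟨(c (a (b (a (b (b (l 16723056) (l 16725864)) (a (l 16718232) (l 16713336))) (b (c (l 16713904) (l 16715344)) (c (l 16719816) (l 16721056)))) (b (a (c (l 16720024) (l 16720944)) (a (l 16717120) (l 16714896))) (a (l 16737232) (l 16732840)))) (a (b (b (c (l 16709296) (l 16710840)) (c (l 16715272) (l 16716624))) (b (c (l 16721520) (l 16722648)) (l 16728480))) (b (b (l 16708488) (c (l 16710784) (l 16712216))) (b (l 16707200) (l 16713672))))) (a (b (a (a (b (b (l 16711384) (l 16713992)) (l 16728488)) (b (a (l 16711056) (l 16709976)) (l 16726352))) (b (a (l 16708352) (l 16706192)) (l 16722488))) (a (b (c (l 16724568) (l 16733512)) (c (l 16738336) (l 16733808))) (b (l 16728744) (l 16729320)))) (a (b (b (a (l 16704040) (l 16701888)) (l 16718880)) (b (l 16724528) (l 16730400))) (b (b (l 16698664) (l 16704152)) (b (l 16720328) (l 16726248)))))), by decide +kernel⟩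

def k34_pp_012_a : ∃ t, chk3 f_pp_012_a t 31 12 1 = true :=
  ⟨(a (c (b (a (b (l 16666176) (c (l 16672240) (l 16654280))) (b (l 16635168) (c (l 16641328) (l 16644560)))) (b (a (a (l 16673864) (l 16669000)) (a (l 16674680) (l 16669912))) (a (a (c (l 16671008) (l 16673600)) (c (l 16666208) (l 16668904))) (a (c (l 16661464) (l 16664248)) (c (l 16656768) (l 16659632)))))) (b (a (b (l 16631136) (l 16638424)) (b (l 16642648) (l 16629112))) (a (b (b (l 16644256) (l 16648336)) (a (b (l 16675816) (l 16680208)) (l 16652512))) (b (a (l 16660384) (l 16655816)) (b (l 16643536) (l 16648024)))))) (b (c (a (b (l 16646312) (c (l 16631616) (l 16635016))) (b (l 16605208) (a (l 16626144) (l 16621440)))) (a (b (l 16633264) (l 16640832)) (b (l 16623904) (l 16631592)))) (a (c (a (b (l 16644224) (c (l 16652120) (l 16655040))) (b (l 16639544) (c (l 16647512) (l 16650472)))) (b (l 16628008) (a (l 16660008) (l 16655528)))) (c (b (a (l 16634896) (l 16630272)) (a (l 16654872) (c (l 16638384) (l 16641392)))) (b (l 16639872) (a (l 16651032) (l 16646528))))))),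 by decide +kernel⟩

def k35_pp_012_a : ∃ t, chk3 f_pp_012_a t 62 13 1 = true :=
  ⟨(b (c (b (a (a (c (l 16686072) (l 16683168)) (c (l 16681392) (l 16678576))) (a (c (l 16682008) (l 16674024)) (c (l 16666944) (l 16669504)))) (a (a (b (l 16689800) (l 16695312)) (b (l 16685248) (l 16690824))) (a (b (l 16680744) (l 16686368)) (b (l 16676264) (l 16681944))))) (a (b (a (a (l 16677744) (l 16665040)) (a (l 16662832) (l 16660616))) (a (b (l 16683944) (l 16689064)) (b (l 16690064) (l 16674256)))) (b (a (b (l 16675872) (l 16680696)) (l 16652888)) (a (a (l 16668408) (l 16666240)) (a (l 16664072) (l 16661896)))))) (c (b (b (a (a (l 16701072) (l 16696640)) (a (l 16692240) (l 16687864))) (a (a (l 16696592) (l 16702696)) (a (l 16698352) (l 16694024)))) (a (b (a (l 16702848) (l 16698528)) (a (l 16709384) (l 16705112))) (a (b (l 16704720) (l 16690376)) (a (l 16689096) (l 16686968))))) (a (a (b (b (l 16694384) (l 16699912)) (b (l 16716136) (l 16722096))) (b (b (l 16690104) (l 16695672)) (c (l 16701112) (l 16715656)))) (b (a (b (l 16696312)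 (l 16680944)) (a (l 16674928) (l 16672800))) (a (b (l 16686768) (l 16713784)) (l 16703928)))))), by decide +kernel⟩

def k36_pp_012_a : ∃ t, chk3 f_pp_012_a t 63 13 1 = true :=
  ⟨(b (a (b (c (c (a (l 16662400) (l 16657888)) (a (l 16665008) (l 16660528))) (b (l 16643824) (l 16653976))) (c (a (c (l 16670952) (l 16675808)) (c (l 16669152) (l 16671416))) (a (b (l 16676984) (l 16682264)) (l 16654288)))) (c (b (a (c (l 16653400) (l 16656056)) (c (l 16648928) (l 16651600))) (a (c (l 16664752) (l 16667024)) (c (l 16655120) (l 16662632)))) (b (a (l 16660600) (l 16656152)) (b (l 16645064) (l 16655656))))) (c (a (b (a (b (l 16683504) (l 16689712)) (b (l 16679160) (l 16685408))) (a (c (l 16683160) (l 16679200)) (a (l 16675360) (l 16673232)))) (b (a (b (l 16674816) (l 16681112)) (c (l 16672752) (l 16674552))) (a (c (l 16669408) (l 16670688)) (b (l 16683336) (l 16690104))))) (a (a (b (a (l 16670656) (l 16668520)) (l 16702344)) (b (l 16670544) (l 16698112))) (b (a (l 16661000) (l 16656648)) (a (l 16693848) (l 16668560)))))), by decide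 +kernel⟩

def k37_pp_012_a : ∃ t, chk3 f_pp_012_a t 30 7 1 = true :=
  ⟨(b (b (a (a (l 3) (b (c (b (a (l 16748624) (l 16741960)) (a (l 3) (l 16752312))) (b (a (c (l 16740632) (l 16745768)) (c (l 16741640) (l 16744016))) (a (l 3) (b (l 16744624) (l 3))))) (l 3))) (a (a (a (b (c (b (l 16744568) (l 16747816)) (b (l 16743928) (l 16742400))) (l 3)) (b (c (l 16739248) (b (l 16742144) (l 16745680))) (b (c (l 95730726023) (l 55465407719)) (l 3)))) (b (c (b (l 16739464) (l 16743400)) (b (l 16734248) (l 16742944))) (c (b (c (l 16736768) (l 16736712)) (l 16754232)) (b (b (l 16740504) (l 35601184023)) (c (l 63518476759) (l 57076025815)))))) (b (c (a (c (l 16738400) (l 16727904)) (b (l 16730904) (l 16736512))) (a (b (l 16730728) (l 16739296)) (b (l 16732400) (l 16735672)))) (c (b (a (l 16735752) (l 16740040)) (a (c (l 16738344) (l 16738256)) (l 16745104))) (b (a (b (l 16736776) (l 16739384)) (b (l 16727824) (l 16730392))) (a (a (l 37748669751) (l 16742400)) (c (l 16739624) (l 16738152)))))))) (a (l 3) (a (l 3) (a (b (b (c (c (l 16754360)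 (l 16754328)) (a (l 16755392) (c (l 16747848) (l 16747800)))) (l 3)) (l 3)) (a (b (c (b (l 16745904) (l 16756656)) (b (c (l 16745784) (l 16745696)) (b (l 16749824) (l 16758112)))) (l 3)) (b (b (b (l 16742624) (l 16746504)) (c (l 16754432) (a (l 67276581607) (l 36674938151)))) (b (c (l 16760224) (l 52244205127)) (l 3)))))))) (l 3)), by decide +kernel⟩

def k38_pp_012_a : ∃ t, chk3 f_pp_012_a t 62 14 1 = true :=
  ⟨(b (b (c (a (a (b (l 16726672) (l 16733048)) (l 16716832)) (a (l 16716584) (l 16717664))) (a (a (c (l 16720408) (l 16724960)) (b (l 16724176) (l 16728488))) (a (l 16718040) (l 16713920)))) (b (a (c (a (l 16736456) (l 16732880)) (a (l 16735896) (l 16732224))) (c (l 16727536) (a (l 16728584) (l 16724992)))) (a (a (c (l 16741440) (l 16741008)) (c (l 16737776) (l 16737256))) (a (c (l 16734152) (l 16733560)) (l 16730248))))) (a (b (c (b (a (l 16746448) (l 16742728)) (a (l 16751504) (l 16747728))) (a (b (a (l 16741872) (l 16739960)) (b (l 16750032) (l 16752632))) (b (l 16742352) (b (l 16746184) (l 16748768))))) (c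 (a (b (a (l 16757816) (l 16755664)) (b (l 16759016) (l 3))) (b (b (l 16751512) (l 16754056)) (b (l 16756616) (a (l 16760360) (l 16758232))))) (b (a (b (a (l 16751048) (l 16749032)) (a (l 16759240) (l 16754304))) (b (l 16751360) (l 16753304))) (a (c (l 56002303879) (b (l 52244208071) (l 3))) (b (a (l 16757568) (l 16755608)) (a (l 16759760) (l 16758232))))))) (b (c (a (b (l 16739048) (l 16744016)) (b (l 16735424) (l 16740352))) (a (b (l 16738600) (l 16743688)) (b (l 16734912) (l 16739960)))) (c (b (a (b (l 16747760) (l 16750288)) (l 16745328)) (a (b (l 16752824) (l 16755376)) (l 6))) (a (b (b (l 16747528) (l 16750112)) (b (a (l 16753672) (l 16751752)) (a (l 16756280) (l 6)))) (b (b (l 16743768) (l 16746328)) (l 6))))))), by decide +kernel⟩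

def k39_pp_012_a : ∃ t, chk3 f_pp_012_a t 63 14 1 = true :=
  ⟨(b (b (a (c (a (l 16713480) (l 16709256)) (a (l 16715008) (l 16710800))) (c (b (l 16683536) (l 16706504)) (a (l 16706552) (l 16702232)))) (a (b (c (l 16720576) (l 16719728)) (a (l 16726704) (l 16723224))) (a (b (l 16715096) (l 16719816)) (b (l 16710992) (l 16715544))))) (a (a (b (b (l 16730608) (c (l 16736744) (l 16736304))) (b (b (l 16738952) (l 6)) (l 6))) (b (b (l 16728072) (c (l 16733200) (l 16732712))) (l 6))) (a (b (b (l 16724472) (l 6)) (l 6)) (l 6)))), by decide +kernel⟩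

def k40_pp_012_a : ∃ t, chk3 f_pp_012_a t 31 15 1 = true :=
  ⟨(a (b (b (a (b (a (l 3) (a (l 3) (b (c (l 16760960) (c (l 16761000) (l 16760376))) (l 6)))) (l 3)) (l 6)) (l 6)) (l 3)) (l 6)), by decide +kernel⟩

theorem s41_pp_012_a : ∃ t, chk3 f_pp_012_a t 31 14 1 = true := ex3_a k38_pp_012_a k39_pp_012_a

theorem s42_pp_012_a : ∃ t, chk3 f_pp_012_a t 31 7 1 = true := ex3_b s41_pp_012_a k40_pp_012_a

theorem s43_pp_012_a : ∃ t, chk3 f_pp_012_a t 15 7 1 = true := ex3_a k37_pp_012_a s42_pp_012_a

theorem s44_pp_012_a : ∃ t, chk3 f_pp_012_a t 31 13 1 = true := ex3_a k35_pp_012_a k36_pp_012_a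

theorem s45_pp_012_a : ∃ t, chk3 f_pp_012_a t 31 6 1 = true := ex3_b k34_pp_012_a s44_pp_012_a

theorem s46_pp_012_a : ∃ t, chk3 f_pp_012_a t 61 13 1 = true := ex3_b k32_pp_012_a k33_pp_012_a

theorem s47_pp_012_a : ∃ t, chk3 f_pp_012_a t 60 13 1 = true := ex3_b k30_pp_012_a k31_pp_012_a

theorem s48_pp_012_a : ∃ t, chk3 f_pp_012_a t 30 13 1 = true := ex3_a s47_pp_012_a s46_pp_012_a

theorem s49_pp_012_a : ∃ t, chk3 f_pp_012_a t 30 6 1 = true := ex3_b k29_pp_012_a s48_pp_012_a

theorem s50_pp_012_a : ∃ t, chk3 f_pp_012_a t 15 6 1 = true := ex3_a s49_pp_012_a s45_pp_012_a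

theorem s51_pp_012_a : ∃ t, chk3 f_pp_012_a t 15 3 1 = true := ex3_b s50_pp_012_a s43_pp_012_a

theorem s52_pp_012_a : ∃ t, chk3 f_pp_012_a t 59 26 1 = true := ex3_c k25_pp_012_a k26_pp_012_a

theorem s53_pp_012_a : ∃ t, chk3 f_pp_012_a t 59 13 1 = true := ex3_b s52_pp_012_a k27_pp_012_a

theorem s54_pp_012_a : ∃ t, chk3 f_pp_012_a t 29 13 1 = true := ex3_a k24_pp_012_a s53_pp_012_a

theorem s55_pp_012_a : ∃ t, chk3 f_pp_012_a t 58 12 1 = true := ex3_c k21_pp_012_a k22_pp_012_a

theorem s56_pp_012_a : ∃ t, chk3 f_pp_012_a t 29 12 1 = true := ex3_a s55_pp_012_a k23_pp_012_a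

theorem s57_pp_012_a : ∃ t, chk3 f_pp_012_a t 29 6 1 = true := ex3_b s56_pp_012_a s54_pp_012_a

theorem s58_pp_012_a : ∃ t, chk3 f_pp_012_a t 57 24 1 = true := ex3_c k17_pp_012_a k18_pp_012_a

theorem s59_pp_012_a : ∃ t, chk3 f_pp_012_a t 57 12 1 = true := ex3_b s58_pp_012_a k19_pp_012_a

theorem s60_pp_012_a : ∃ t, chk3 f_pp_012_a t 28 12 1 = true := ex3_a k16_pp_012_a s59_pp_012_a

theorem s61_pp_012_a : ∃ t, chk3 f_pp_012_a t 28 6 1 = true := ex3_b s60_pp_012_a k20_pp_012_a

theorem s62_pp_012_a : ∃ t, chk3 f_pp_012_a t 14 6 1 = true := ex3_a s61_pp_012_a s57_pp_012_a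

theorem s63_pp_012_a : ∃ t, chk3 f_pp_012_a t 14 3 1 = true := ex3_b s62_pp_012_a k28_pp_012_a

theorem s64_pp_012_a : ∃ t, chk3 f_pp_012_a t 7 3 1 = true := ex3_a s63_pp_012_a s51_pp_012_a

theorem s65_pp_012_a : ∃ t, chk3 f_pp_012_a t 56 11 2 = true := ex3_b k10_pp_012_a k11_pp_012_a

theorem s66_pp_012_a : ∃ t, chk3 f_pp_012_a t 56 5 2 = true := ex3_b k9_pp_012_a s65_pp_012_a

theorem s67_pp_012_a : ∃ t, chk3 f_pp_012_a t 56 5 1 = true := ex3_c s66_pp_012_a k12_pp_012_a

theorem s68_pp_012_a : ∃ t, chk3 f_pp_012_a t 28 5 1 = true := ex3_a s67_pp_012_a k13_pp_012_a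

theorem s69_pp_012_a : ∃ t, chk3 f_pp_012_a t 14 5 1 = true := ex3_a s68_pp_012_a k14_pp_012_a

theorem s70_pp_012_a : ∃ t, chk3 f_pp_012_a t 14 2 1 = true := ex3_b k8_pp_012_a s69_pp_012_a

theorem s71_pp_012_a : ∃ t, chk3 f_pp_012_a t 7 2 1 = true := ex3_a s70_pp_012_a k15_pp_012_a

theorem s72_pp_012_a : ∃ t, chk3 f_pp_012_a t 7 1 1 = true := ex3_b s71_pp_012_a s64_pp_012_a

theorem s73_pp_012_a : ∃ t, chk3 f_pp_012_a t 27 10 1 = true := ex3_a k4_pp_012_a k5_pp_012_a

theorem s74_pp_012_a : ∃ t, chk3 f_pp_012_a t 27 5 1 = true := ex3_b s73_pp_012_a k6_pp_012_a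

theorem s75_pp_012_a : ∃ t, chk3 f_pp_012_a t 13 5 1 = true := ex3_a k3_pp_012_a s74_pp_012_a

theorem s76_pp_012_a : ∃ t, chk3 f_pp_012_a t 13 2 1 = true := ex3_b k2_pp_012_a s75_pp_012_a

theorem s77_pp_012_a : ∃ t, chk3 f_pp_012_a t 6 2 1 = true := ex3_a k1_pp_012_a s76_pp_012_a

theorem s78_pp_012_a : ∃ t, chk3 f_pp_012_a t 6 1 1 = true := ex3_b s77_pp_012_a k7_pp_012_a

theorem s79_pp_012_a : ∃ t, chk3 f_pp_012_a t 3 1 1 = true := ex3_a s78_pp_012_a s72_pp_012_a

theorem s80_pp_012_a : ∃ t, chk3 f_pp_012_a t 1 1 1 = true := ex3_a k0_pp_012_a s79_pp_012_a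

theorem c_pp_012_a : CertB 0 536870912 0 536870912 818728140 40265320 3 eng mog cd0q0 cd1q2a pd1 false true true .pnp 0 1 2
    ndB0q0 ndB1q2a pcB1 cut_pp_012_a Ext.none :=
  certB2 (fam := false) (s1 := true) (s2 := true) (a := 0) (b := 1) (c := 2) (cn := .pnp) (n1 := ndB0q0) (n2 := ndB1q2a) (pc := pcB1) (cut := cut_pp_012_a) (xt := Ext.none) (P1 := 0) (W1 := 536870912) (P2 := 0) (W2 := 536870912) (P3 := 818728140) (W3 := 40265320) (N0 := 3) (En := eng) (mo := mog) (C1 := cd0q0) (C2 := cd1q2a) (C3 := pd1)
    rfl (fun _ => rfl) s80_pp_012_a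

noncomputable def cut_pp_012_b : Cut := Cut.of [[⟨0, 0, 0, 67108864⟩, ⟨1, 1, 0, 67108864⟩, ⟨2, 1, 0, 67108864⟩]]

noncomputable def f_pp_012_b : ℕ → ℕ → ℕ → ℕ → Bool := onCell 536870912 536870912 1239849684 370763052 818728140 40265320
    (rowB 3 eng mog cd0q0 cd1q2b pd1 2 false true true .pnp 0 1 2 (qsf 0 536870912 1239849684 370763052 1) ndB0q0 ndB1q2b pcB1 cut_pp_012_b Ext.none)

def k0_pp_012_b : ∃ t, chk3 f_pp_012_b t 2 1 1 = true :=
  ⟨(b (a (l 2) (l 3)) (l 2)), by decide +kernel⟩

def k1_pp_012_b : ∃ t, chk3 f_pp_012_b t 6 1 1 = true :=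
  ⟨(b (a (b (b (b (a (a (l 3) (a (b (a (c (l 91435763607) (l 96804471879)) (b (l 16736928) (l 16730416))) (a (l 3) (l 16741448))) (b (l 16738064) (l 16735440)))) (a (a (l 16733744) (l 16704632)) (l 16692664))) (a (a (l 3) (a (l 3) (b (l 16701432) (l 16688256)))) (a (a (l 16707416) (l 16698776)) (l 16685792)))) (a (b (a (l 3) (b (l 90898816311) (l 3))) (l 3)) (b (a (a (l 16681424) (l 16651680)) (l 16680344)) (a (a (l 94119966439) (l 16625696)) (l 16654528))))) (a (l 3) (b (b (a (a (l 3) (l 66739471319)) (a (l 16590448) (l 16582096))) (a (a (l 3) (l 58686351751)) (a (l 66202552695) (l 16556120)))) (a (l 3) (b (a (l 62444397111) (l 16533448)) (a (l 2) (l 16515952))))))) (b (b (a (a (b (l 16677208) (l 16648144)) (a (l 16650704) (l 16642704))) (a (b (l 16646464) (l 16614872)) (b (l 16630800) (l 16598072)))) (a (a (b (l 16662776) (l 16615416)) (b (l 16602896) (l 16575888))) (a (l 16633520) (l 16614816)))) (a (b (b (a (l 16568776) (l 16549872)) (a (l 16584552) (l 16524432))) (a (b (a (l 16523112) (l 16513584)) (a (l 16504608)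 (l 16492696))) (b (l 16498848) (l 16475872)))) (b (c (b (l 16586136) (l 16539600)) (a (l 16513680) (l 16492264))) (a (b (l 16478296) (l 16454232)) (b (l 16457792) (l 16432376))))))) (a (l 2) (b (a (b (b (a (l 125191129271) (l 16458392)) (l 2)) (l 2)) (b (b (a (l 16432936) (l 16409216)) (a (l 16417160) (l 16389616))) (a (l 2) (l 147739621463)))) (l 2)))), by decide +kernel⟩

def k2_pp_012_b : ∃ t, chk3 f_pp_012_b t 7 1 1 = true :=
  ⟨(b (b (b (a (a (a (b (l 16616008) (l 16581720)) (l 16626144)) (a (l 16592760) (b (l 16582216) (l 16541224)))) (b (a (a (l 16576616) (l 16573568)) (a (l 16566808) (l 16547728))) (a (a (l 16533400) (l 16528280)) (l 16566600)))) (a (a (a (l 16575552) (l 16537152)) (a (b (l 16516704) (l 16483352)) (l 16548720))) (a (c (l 16517952) (a (l 16469032) (l 16460352))) (b (l 16479056) (l 16415320))))) (a (a (a (b (a (l 16501768) (l 16470144)) (l 16506968)) (b (l 16455280) (l 16401432))) (a (b (l 16436520) (l 16401400)) (b (l 16419872) (l 16403616)))) (a (b (a (l 16405728) (l 16393224)) (l 16378776))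 (b (b (l 16397008) (l 16360352)) (a (l 16316376) (l 16303896)))))) (a (b (a (a (b (l 16437736) (l 16339808)) (b (l 16351464) (l 16311600))) (a (b (l 16349504) (l 16285560)) (b (l 16309016) (l 16261968)))) (b (a (l 2) (a (l 16256680) (l 16228224))) (l 2))) (b (a (b (a (l 16290424) (l 16273432)) (b (l 16244120) (l 16220840))) (b (l 16249984) (l 16239352))) (b (a (a (l 16203328) (l 16180928)) (l 16192696)) (a (l 16314008) (l 16307032)))))), by decide +kernel⟩

theorem s3_pp_012_b : ∃ t, chk3 f_pp_012_b t 3 1 1 = true := ex3_a k1_pp_012_b k2_pp_012_b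

theorem s4_pp_012_b : ∃ t, chk3 f_pp_012_b t 1 1 1 = true := ex3_a k0_pp_012_b s3_pp_012_b

theorem c_pp_012_b : CertB 0 536870912 1239849684 370763052 818728140 40265320 3 eng mog cd0q0 cd1q2b pd1 false true true .pnp 0 1 2
    ndB0q0 ndB1q2b pcB1 cut_pp_012_b Ext.none :=
  certB2 (fam := false) (s1 := true) (s2 := true) (a := 0) (b := 1) (c := 2) (cn := .pnp) (n1 := ndB0q0) (n2 := ndB1q2b) (pc := pcB1) (cut := cut_pp_012_b) (xt := Ext.none) (P1 := 0) (W1 := 536870912) (P2 := 1239849684) (W2 := 370763052) (P3 := 818728140) (W3 := 40265320) (N0 := 3) (En := eng) (mo := mog) (C1 := cd0q0) (C2 := cd1q2b) (C3 := pd1)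
    rfl (fun _ => rfl) s4_pp_012_b

noncomputable def cut_pp_022_a : Cut := Cut.of [[⟨0, 0, 0, 67108864⟩, ⟨1, 1, 0, 67108864⟩, ⟨2, 1, 0, 67108864⟩]]

noncomputable def f_pp_022_a : ℕ → ℕ → ℕ → ℕ → Bool := onCell 0 536870912 0 536870912 818728140 40265320
    (rowB 3 eng mog cd0q0 cd1q2a pd2 0 false true true .pp 0 2 2 (qsf 0 536870912 0 536870912 2) ndB0q0 ndB1q2a pcB2 cut_pp_022_a Ext.none)

def k0_pp_022_a : ∃ t, chk3 f_pp_022_a t 2 2 1 = true :=
  ⟨(a (a (b (a (a (b (c (l 16276224) (l 16256928)) (c (b (l 16276424) (l 16281744)) (l 16259992))) (b (l 16313232) (c (l 16324840) (l 16310096)))) (b (a (l 16358032) (l 16400912)) (a (l 16363464) (l 16407552)))) (a (b (a (b (c (l 16291168) (l 16271992)) (c (l 16305048) (l 16285920))) (b (l 16330384) (c (l 16352440) (l 16337464)))) (a (a (b (b (c (l 16306128) (l 16285968)) (c (l 16317232) (l 16297240))) (c (b (l 16329896) (l 16343944)) (l 16317432))) (b (b (l 16321560) (l 16332960)) (c (l 16361776) (l 16344320)))) (b (a (b (l 16346608) (l 16358184)) (l 16398168)) (a (l 16378512)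 (l 16403496))))) (b (a (b (l 16377328) (l 16434520)) (b (l 16422352) (l 16438216))) (b (a (c (l 16418568) (l 16408080)) (l 16459784)) (a (l 16440112) (l 16487272)))))) (b (a (a (b (l 16441752) (l 16449608)) (b (l 16480440) (l 16468560))) (b (c (l 16523504) (l 16516240)) (a (l 16527568) (l 16524840)))) (a (b (a (b (l 16465336) (l 16460888)) (b (l 16506176) (l 16460440))) (a (b (l 16504096) (l 16531872)) (a (l 16486872) (l 16570144)))) (a (b (c (l 16551296) (l 16557232)) (b (l 16584672) (l 16590768))) (b (b (l 16538968) (l 16484256)) (b (l 16512400) (a (l 16568424) (l 290480230791)))))))) (a (b (b (a (a (l 16511672) (a (l 16441296) (l 16421072))) (l 1)) (a (a (c (l 16496224) (l 16485352)) (c (l 389264440951) (l 368863292407))) (l 1))) (a (b (a (b (a (l 16513856) (l 16495912)) (c (l 16501848) (l 16487552))) (a (b (l 383358857207) (l 403759968391)) (l 1))) (a (b (l 294238268983) (l 567505629303)) (l 1))) (l 1))) (l 1))), by decide +kernel⟩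

def k1_pp_022_a : ∃ t, chk3 f_pp_022_a t 8 6 1 = true :=
  ⟨(b (a (a (b (b (a (c (l 16359448) (l 16340376)) (l 16376048)) (a (c (l 16376488) (l 16357760)) (l 16393448))) (a (b (c (a (l 16388776) (l 16401560)) (l 16376824)) (c (a (l 16409200) (l 16422112)) (l 16397680))) (b (l 16412544) (l 16454440)))) (b (a (l 16431496) (l 16435864)) (a (b (l 16438624) (l 16459808)) (l 16475040)))) (a (b (a (l 16460792) (l 16485288)) (a (l 16500392) (l 16524848))) (b (l 16520568) (a (l 16548280) (l 16570952))))) (a (a (b (a (b (c (a (l 16431584) (l 16444640)) (l 16420456)) (c (a (l 16466568) (l 16469320)) (l 16445296))) (b (c (l 16464080) (l 16448480)) (c (l 16489024) (l 16473616)))) (a (b (c (a (b (l 16475912) (l 16489936)) (l 16496344)) (a (l 16465176) (l 16479584))) (c (a (b (l 16504616) (l 16519984)) (l 16525936)) (a (l 16494624) (l 16509224)))) (b (c (l 16516336) (l 16501040)) (c (a (l 16539304) (l 16552144)) (l 16540952))))) (b (a (b (l 16483016) (l 16529352)) (b (l 16509224) (l 16534304))) (a (b (c (l 16542056) (l 16528800))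 (c (l 16570424) (l 16557504))) (b (l 16560760) (l 16588936))))) (b (a (a (a (l 16540544) (l 16552648)) (l 16570424)) (a (l 16614608) (b (l 16604064) (l 16628416)))) (a (a (b (l 16585064) (l 16613216)) (b (l 16608808) (l 16584496))) (b (a (l 16611008) (l 16654552)) (b (l 16643136) (l 16635640))))))), by decide +kernel⟩

def k2_pp_022_a : ∃ t, chk3 f_pp_022_a t 9 6 1 = true :=
  ⟨(b (a (b (a (l 16523016) (l 16606792)) (a (a (l 16593040) (l 16614528)) (b (l 16625992) (l 16575104)))) (a (b (c (l 16556416) (l 16551176)) (a (b (l 16605848) (l 366179221255)) (b (l 384969668887) (l 531535389015)))) (b (a (l 485901296887) (l 545493962055)) (l 1)))) (a (b (b (a (l 16636904) (c (l 164315661623) (l 16584848))) (a (l 16612392) (a (l 329672053095) (l 470332206791)))) (b (a (c (l 16610336) (l 16601864)) (a (b (l 377453551863) (l 496638865399)) (l 1))) (a (a (c (l 16639520) (l 16639168)) (c (l 367789873975) (l 342020044903))) (l 1)))) (b (a (b (a (l 505765615991) (l 1)) (l 1)) (l 1)) (l 1)))), by decide +kernel⟩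

def k3_pp_022_a : ∃ t, chk3 f_pp_022_a t 4 7 1 = true :=
  ⟨(a (b (a (b (a (b (a (c (a (b (l 16536064) (a (l 16549320) (l 16556008))) (b (l 16549600) (l 16565528))) (a (b (l 16518376) (l 16534920)) (l 16551360))) (a (c (l 16570112) (l 16554648)) (l 16596344))) (b (b (a (a (c (l 16564608) (l 16547072)) (l 16569120)) (l 16609448)) (l 6)) (l 6))) (b (a (c (l 16600408) (l 16587952)) (b (l 16611320) (l 16626936))) (b (a (l 16617248) (l 16662992)) (l 6)))) (l 6)) (b (b (a (a (b (l 16635568) (l 16609216)) (l 16646056)) (a (l 16661584) (c (l 16628728) (l 16629896)))) (b (a (c (l 16659856) (l 16643680)) (a (l 16651216) (c (l 299607288135) (l 317324040519)))) (a (l 6) (a (l 6) (a (l 6) (l 525629963319)))))) (a (l 6) (a (l 6) (a (l 6) (l 1)))))) (a (l 6) (a (l 6) (l 1)))) (b (a (b (a (b (a (b (c (l 340946355495) (l 16638160)) (a (l 373158618599) (l 535830482343))) (b (l 544420399783) (l 1))) (a (b (a (l 527240560375) (l 1)) (l 1)) (l 1))) (l 1)) (l 1)) (l 1)) (l 1))), by decide +kernel⟩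

def k4_pp_022_a : ∃ t, chk3 f_pp_022_a t 5 3 1 = true :=
  ⟨(b (l 1) (l 1)), by decide +kernel⟩

def k5_pp_022_a : ∃ t, chk3 f_pp_022_a t 3 1 1 = true :=
  ⟨(l 1), by decide +kernel⟩

theorem s6_pp_022_a : ∃ t, chk3 f_pp_022_a t 4 6 1 = true := ex3_a k1_pp_022_a k2_pp_022_a

theorem s7_pp_022_a : ∃ t, chk3 f_pp_022_a t 4 3 1 = true := ex3_b s6_pp_022_a k3_pp_022_a

theorem s8_pp_022_a : ∃ t, chk3 f_pp_022_a t 2 3 1 = true := ex3_a s7_pp_022_a k4_pp_022_a

theorem s9_pp_022_a : ∃ t, chk3 f_pp_022_a t 2 1 1 = true := ex3_b k0_pp_022_a s8_pp_022_a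

theorem s10_pp_022_a : ∃ t, chk3 f_pp_022_a t 1 1 1 = true := ex3_a s9_pp_022_a k5_pp_022_a

theorem c_pp_022_a : CertB 0 536870912 0 536870912 818728140 40265320 3 eng mog cd0q0 cd1q2a pd2 false true true .pp 0 2 2
    ndB0q0 ndB1q2a pcB2 cut_pp_022_a Ext.none :=
  certB0 (fam := false) (s1 := true) (s2 := true) (a := 0) (b := 2) (c := 2) (cn := .pp) (n1 := ndB0q0) (n2 := ndB1q2a) (pc := pcB2) (cut := cut_pp_022_a) (xt := Ext.none) (P1 := 0) (W1 := 536870912) (P2 := 0) (W2 := 536870912) (P3 := 818728140) (W3 := 40265320) (N0 := 3) (En := eng) (mo := mog) (C1 := cd0q0) (C2 := cd1q2a) (C3 := pd2)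
    rfl s10_pp_022_a

noncomputable def cut_pp_022_b : Cut := Cut.of [[⟨0, 0, 0, 67108864⟩, ⟨1, 1, 0, 67108864⟩, ⟨2, 1, 0, 67108864⟩]]

noncomputable def f_pp_022_b : ℕ → ℕ → ℕ → ℕ → Bool := onCell 0 536870912 1073741824 536870912 818728140 40265320
    (rowB 3 eng mog cd0q0 cd1q2b pd2 1 false true true .pp 0 2 2 (qsf 0 536870912 1239849684 370763052 2) ndB0q0 ndB1q2b pcB2 cut_pp_022_b Ext.none)

def k0_pp_022_b : ∃ t, chk3 f_pp_022_b t 1 2 1 = true :=
  ⟨(a (a (b (b (a (l 1) (b (b (l 1) (a (l 1) (l 567505657335))) (b (a (l 1) (a (l 16525464) (l 16493064))) (a (l 143377662599) (l 16506800))))) (a (b (a (l 1) (b (l 1) (l 248067427543))) (a (a (l 1) (l 146598700359)) (b (l 16463968) (l 16354024)))) (a (b (c (l 218539152407) (l 16458920)) (a (l 16370192) (l 16365152))) (b (l 16440280) (l 16357560))))) (a (b (a (b (a (b (l 165925804983) (l 16286456)) (b (l 16311496) (l 16266208))) (a (l 16200640) (l 16203720))) (b (b (l 16309344) (l 16266640)) (l 16207288))) (a (b (l 16123872) (l 16051784)) (l 16099952))) (b (b (a (l 16285016)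 (l 16281352)) (a (l 16210272) (l 16212448))) (a (l 16110776) (l 16120880))))) (b (a (a (b (b (b (a (l 439730258439) (l 63920559847)) (a (l 16458360) (l 16423744))) (b (l 16442632) (l 16442264))) (b (l 16425040) (l 16349312))) (b (b (b (c (l 16375360) (l 16357320)) (l 16371800)) (l 16376448)) (l 16394192))) (b (b (a (a (l 16339824) (l 16307768)) (b (l 16236656) (l 16245976))) (a (l 16314040) (l 16256936))) (b (l 16312488) (l 16290864)))) (a (b (b (l 16279408) (l 16219544)) (a (l 16133312) (l 16147680))) (b (l 16248944) (l 16163640))))) (a (b (a (b (b (a (l 16186760) (l 16138744)) (l 16287976)) (l 16265328)) (b (b (a (l 16095768) (l 16057016)) (l 16103248)) (l 16154216))) (a (l 16379752) (l 16148096))) (b (a (b (b (a (l 16022992) (l 15993328)) (l 16041912)) (l 16083432)) (b (a (l 16009680) (l 15972992)) (l 16058744))) (a (l 16126304) (l 2))))), by decide +kernel⟩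

def k1_pp_022_b : ∃ t, chk3 f_pp_022_b t 1 3 1 = true :=
  ⟨(a (a (b (a (b (a (b (l 15985824) (l 15925840)) (l 15977528)) (a (l 15846720) (l 15877616))) (b (l 16070656) (l 15920608))) (a (b (l 15779480) (l 15715832)) (b (l 15852480) (l 15800904)))) (b (a (b (l 16051656) (l 15981512)) (l 16066776)) (a (b (l 15927736) (l 2)) (l 2)))) (b (a (a (l 16096776) (l 2)) (l 2)) (l 2))), by decide +kernel⟩

theorem s2_pp_022_b : ∃ t, chk3 f_pp_022_b t 1 1 1 = true := ex3_b k0_pp_022_b k1_pp_022_b

theorem c_pp_022_b : CertB 0 536870912 1239849684 370763052 818728140 40265320 3 eng mog cd0q0 cd1q2b pd2 false true true .pp 0 2 2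
    ndB0q0 ndB1q2b pcB2 cut_pp_022_b Ext.none :=
  certB1 (fam := false) (s1 := true) (s2 := true) (a := 0) (b := 2) (c := 2) (cn := .pp) (n1 := ndB0q0) (n2 := ndB1q2b) (pc := pcB2) (cut := cut_pp_022_b) (xt := Ext.none) (P1 := 0) (W1 := 536870912) (P2 := 1239849684) (W2 := 370763052) (P3 := 818728140) (W3 := 40265320) (N0 := 3) (En := eng) (mo := mog) (C1 := cd0q0) (C2 := cd1q2b) (C3 := pd2)
    rfl (fun _ => rfl) s2_pp_022_b

noncomputable def f_pp_023 : ℕ → ℕ → ℕ → ℕ → Bool := onCell 0 536870912 1073741824 536870912 818728140 40265320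
    (rowB 3 eng mog cd0q0 cd1q3 pd2 1 false true true .up 0 2 3 (qsf 0 536870912 1610612736 536870912 2) ndB0q0 ndB1q3 pcB2 Cut.none Ext.none)

def k0_pp_023 : ∃ t, chk3 f_pp_023 t 1 1 1 = true :=
  ⟨(b (a (a (l 1) (b (l 1) (a (l 1) (l 229276789767)))) (a (b (a (l 1) (b (l 1) (l 16111208))) (a (l 225518397799) (l 16136128))) (b (a (b (l 411275485031) (l 16065704)) (b (a (l 416107118775) (l 28486267095)) (l 16049208))) (a (l 16121968) (l 16119240))))) (a (a (b (a (l 1) (l 320007535943)) (a (b (l 15799720) (l 15729856)) (b (l 15870616) (l 15809232)))) (b (a (l 239475997335) (l 16081160)) (a (b (l 15938760) (l 15887912)) (l 15981240)))) (b (a (a (l 16097152) (l 16100400)) (a (l 16127008) (l 16195368))) (a (a (l 16031168) (l 16059048)) (a (l 16183880) (b (l 16291024) (l 16358728))))))), by decide +kernel⟩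

theorem c_pp_023 : CertB 0 536870912 1610612736 536870912 818728140 40265320 3 eng mog cd0q0 cd1q3 pd2 false true true .up 0 2 3
    ndB0q0 ndB1q3 pcB2 Cut.none Ext.none :=
  certB1 (fam := false) (s1 := true) (s2 := true) (a := 0) (b := 2) (c := 3) (cn := .up) (n1 := ndB0q0) (n2 := ndB1q3) (pc := pcB2) (cut := Cut.none) (xt := Ext.none) (P1 := 0) (W1 := 536870912) (P2 := 1610612736) (W2 := 536870912) (P3 := 818728140) (W3 := 40265320) (N0 := 3) (En := eng) (mo := mog) (C1 := cd0q0) (C2 := cd1q3) (C3 := pd2)
    rfl (fun _ => rfl) k0_pp_023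

noncomputable def f_pp_033 : ℕ → ℕ → ℕ → ℕ → Bool := onCell 1610612736 536870912 1610612736 536870912 818728140 40265320
    (rowB 3 eng mog cd0q0 cd1q3 pd3 2 false true true .pnn 0 3 3 (qsf 0 536870912 1610612736 536870912 3) ndB0q0 ndB1q3 pcB3 Cut.none Ext.none)

def k0_pp_033 : ∃ t, chk3 f_pp_033 t 1 1 1 = true :=
  ⟨(a (a (b (b (a (b (l 405369255543) (a (l 15767440) (l 15692704))) (b (l 485362650215) (l 404295443463))) (a (b (l 15881960) (l 15948016)) (b (l 15718680) (l 15815864)))) (b (a (b (l 16055672) (l 16164184)) (b (l 15935224) (l 16071896))) (a (b (l 16283064) (l 16404120)) (b (l 16206152) (l 16318776))))) (b (a (b (b (l 1) (l 512206159335)) (b (l 15560936) (l 15703864))) (b (l 1) (l 536365625639))) (b (a (b (l 15846280) (l 15994800)) (b (l 15766232) (l 15919496))) (a (b (l 16140248) (l 16270920)) (b (l 16055968) (l 4)))))) (a (b (b (l 1) (l 4)) (l 4)) (l 4))), by decide +kernel⟩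

theorem c_pp_033 : CertB 0 536870912 1610612736 536870912 818728140 40265320 3 eng mog cd0q0 cd1q3 pd3 false true true .pnn 0 3 3
    ndB0q0 ndB1q3 pcB3 Cut.none Ext.none :=
  certB2 (fam := false) (s1 := true) (s2 := true) (a := 0) (b := 3) (c := 3) (cn := .pnn) (n1 := ndB0q0) (n2 := ndB1q3) (pc := pcB3) (cut := Cut.none) (xt := Ext.none) (P1 := 0) (W1 := 536870912) (P2 := 1610612736) (W2 := 536870912) (P3 := 818728140) (W3 := 40265320) (N0 := 3) (En := eng) (mo := mog) (C1 := cd0q0) (C2 := cd1q3) (C3 := pd3)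
    rfl (fun _ => rfl) k0_pp_033

noncomputable def f_pp_101 : ℕ → ℕ → ℕ → ℕ → Bool := onCell 536870912 536870912 536870912 536870912 818728140 40265320
    (rowB 3 eng mog cd0q1 cd1q1 pd0 0 false true true .npn 1 0 1 (qsf 536870912 536870912 536870912 536870912 0) ndB0q1 ndB1q1 pcB0 Cut.none Ext.none)

def k0_pp_101 : ∃ t, chk3 f_pp_101 t 1 1 1 = true :=
  ⟨(l 3), by decide +kernel⟩

theorem c_pp_101 : CertB 536870912 536870912 536870912 536870912 818728140 40265320 3 eng mog cd0q1 cd1q1 pd0 false true true .npn 1 0 1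
    ndB0q1 ndB1q1 pcB0 Cut.none Ext.none :=
  certB0 (fam := false) (s1 := true) (s2 := true) (a := 1) (b := 0) (c := 1) (cn := .npn) (n1 := ndB0q1) (n2 := ndB1q1) (pc := pcB0) (cut := Cut.none) (xt := Ext.none) (P1 := 536870912) (W1 := 536870912) (P2 := 536870912) (W2 := 536870912) (P3 := 818728140) (W3 := 40265320) (N0 := 3) (En := eng) (mo := mog) (C1 := cd0q1) (C2 := cd1q1) (C3 := pd0)
    rfl k0_pp_101

noncomputable def f_pp_102_a : ℕ → ℕ → ℕ → ℕ → Bool := onCell 536870912 536870912 0 536870912 818728140 40265320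
    (rowB 3 eng mog cd0q1 cd1q2a pd0 0 false true true .npp 1 0 2 (qsf 536870912 536870912 0 536870912 0) ndB0q1 ndB1q2a pcB0 Cut.none Ext.none)

def k0_pp_102_a : ∃ t, chk3 f_pp_102_a t 1 1 1 = true :=
  ⟨(a (l 3) (l 3)), by decide +kernel⟩

theorem c_pp_102_a : CertB 536870912 536870912 0 536870912 818728140 40265320 3 eng mog cd0q1 cd1q2a pd0 false true true .npp 1 0 2
    ndB0q1 ndB1q2a pcB0 Cut.none Ext.none :=
  certB0 (fam := false) (s1 := true) (s2 := true) (a := 1) (b := 0) (c := 2) (cn := .npp) (n1 := ndB0q1) (n2 := ndB1q2a) (pc := pcB0) (cut := Cut.none) (xt := Ext.none) (P1 := 536870912) (W1 := 536870912) (P2 := 0) (W2 := 536870912) (P3 := 818728140) (W3 := 40265320) (N0 := 3) (En := eng) (mo := mog) (C1 := cd0q1) (C2 := cd1q2a) (C3 := pd0)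
    rfl k0_pp_102_a

noncomputable def f_pp_102_b : ℕ → ℕ → ℕ → ℕ → Bool := onCell 536870912 536870912 0 536870912 818728140 40265320
    (rowB 3 eng mog cd0q1 cd1q2b pd0 1 false true true .npp 1 0 2 (qsf 536870912 536870912 1239849684 370763052 0) ndB0q1 ndB1q2b pcB0 Cut.none Ext.none)

def k0_pp_102_b : ∃ t, chk3 f_pp_102_b t 1 1 1 = true :=
  ⟨(l 3), by decide +kernel⟩

theorem c_pp_102_b : CertB 536870912 536870912 1239849684 370763052 818728140 40265320 3 eng mog cd0q1 cd1q2b pd0 false true true .npp 1 0 2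
    ndB0q1 ndB1q2b pcB0 Cut.none Ext.none :=
  certB1 (fam := false) (s1 := true) (s2 := true) (a := 1) (b := 0) (c := 2) (cn := .npp) (n1 := ndB0q1) (n2 := ndB1q2b) (pc := pcB0) (cut := Cut.none) (xt := Ext.none) (P1 := 536870912) (W1 := 536870912) (P2 := 1239849684) (W2 := 370763052) (P3 := 818728140) (W3 := 40265320) (N0 := 3) (En := eng) (mo := mog) (C1 := cd0q1) (C2 := cd1q2b) (C3 := pd0)
    rfl (fun _ => rfl) k0_pp_102_b

noncomputable def f_pp_112_a : ℕ → ℕ → ℕ → ℕ → Bool := onCell 536870912 536870912 0 536870912 818728140 40265320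
    (rowB 3 eng mog cd0q1 cd1q2a pd1 0 false true true .dn 1 1 2 (qsf 536870912 536870912 0 536870912 1) ndB0q1 ndB1q2a pcB1 Cut.none Ext.none)

def k0_pp_112_a : ∃ t, chk3 f_pp_112_a t 1 1 1 = true :=
  ⟨(a (l 3) (l 1)), by decide +kernel⟩

theorem c_pp_112_a : CertB 536870912 536870912 0 536870912 818728140 40265320 3 eng mog cd0q1 cd1q2a pd1 false true true .dn 1 1 2
    ndB0q1 ndB1q2a pcB1 Cut.none Ext.none :=
  certB0 (fam := false) (s1 := true) (s2 := true) (a := 1) (b := 1) (c := 2) (cn := .dn) (n1 := ndB0q1) (n2 := ndB1q2a) (pc := pcB1) (cut := Cut.none) (xt := Ext.none) (P1 := 536870912) (W1 := 536870912) (P2 := 0) (W2 := 536870912) (P3 := 818728140) (W3 := 40265320) (N0 := 3) (En := eng) (mo := mog) (C1 := cd0q1) (C2 := cd1q2a) (C3 := pd1)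
    rfl k0_pp_112_a

noncomputable def f_pp_112_b : ℕ → ℕ → ℕ → ℕ → Bool := onCell 536870912 536870912 536870912 536870912 818728140 40265320
    (rowB 3 eng mog cd0q1 cd1q2b pd1 1 false true true .dn 1 1 2 (qsf 536870912 536870912 1239849684 370763052 1) ndB0q1 ndB1q2b pcB1 Cut.none Ext.none)

def k0_pp_112_b : ∃ t, chk3 f_pp_112_b t 1 1 1 = true :=
  ⟨(b (a (l 3) (l 3)) (a (b (a (b (a (b (l 3) (a (b (l 3) (a (l 66739340983) (l 16534528))) (l 3))) (l 3)) (a (b (a (b (a (l 16490104) (l 16480640)) (l 16449568)) (b (l 76939809735) (l 16433800))) (a (b (l 16412600) (l 16374576)) (b (l 16397448) (l 16360032)))) (b (a (b (l 103246453447) (l 92508982999)) (b (l 3) (l 130626808039))) (a (b (l 16386824) (l 16350280)) (b (l 111299400583) (l 16346072)))))) (b (l 3) (b (l 3) (a (a (b (a (l 114520604327) (l 171965795319)) (l 83851855207)) (b (l 3) (l 2))) (l 2))))) (a (b (a (b (a (l 16316568) (l 16302912)) (a (l 16240760) (l 16228392))) (b (a (l 16294472) (l 16292160)) (l 34459666871))) (a (b (l 16269688) (l 16100192)) (b (l 16156672)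 (l 2)))) (b (a (b (a (l 72577543783) (l 2)) (l 2)) (l 2)) (l 2)))) (b (a (l 3) (l 2)) (l 2)))), by decide +kernel⟩

theorem c_pp_112_b : CertB 536870912 536870912 1239849684 370763052 818728140 40265320 3 eng mog cd0q1 cd1q2b pd1 false true true .dn 1 1 2
    ndB0q1 ndB1q2b pcB1 Cut.none Ext.none :=
  certB1 (fam := false) (s1 := true) (s2 := true) (a := 1) (b := 1) (c := 2) (cn := .dn) (n1 := ndB0q1) (n2 := ndB1q2b) (pc := pcB1) (cut := Cut.none) (xt := Ext.none) (P1 := 536870912) (W1 := 536870912) (P2 := 1239849684) (W2 := 370763052) (P3 := 818728140) (W3 := 40265320) (N0 := 3) (En := eng) (mo := mog) (C1 := cd0q1) (C2 := cd1q2b) (C3 := pd1)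
    rfl (fun _ => rfl) k0_pp_112_b

noncomputable def cut_pp_113 : Cut := Cut.of [[⟨0, 1, 0, 67108864⟩, ⟨1, 1, 0, 67108864⟩, ⟨2, 2, 0, 16777216⟩]]

noncomputable def xt_pp_113 : Ext := extD2 3 ⟨4, 1, 1, 5, 13, 5, 23, 25, 43, 100, 1, 8⟩ eng cd0q1 cd1q3 pd1 false true true .nn 1 1 3 rfl ndB0q1 ndB1q3 pcB1

noncomputable def f_pp_113 : ℕ → ℕ → ℕ → ℕ → Bool := onCell 536870912 536870912 536870912 536870912 818728140 40265320
    (rowB 3 eng mog cd0q1 cd1q3 pd1 1 false true true .nn 1 1 3 (qsf 536870912 536870912 1610612736 536870912 1) ndB0q1 ndB1q3 pcB1 cut_pp_113 xt_pp_113)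

def k0_pp_113 : ∃ t, chk3 f_pp_113 t 1 2 1 = true :=
  ⟨(a (l 3) (l 3)), by decide +kernel⟩

def k1_pp_113 : ∃ t, chk3 f_pp_113 t 2 3 1 = true :=
  ⟨(b (a (b (l 1) (a (l 1) (b (l 1) (a (l 1) (b (l 1) (l 16353296)))))) (b (l 3) (b (l 3) (a (a (b (a (l 167536634183) (l 164986502887)) (a (l 16356824) (l 16361064))) (b (l 3) (a (l 123110549239) (b (l 3) (l 129552980455))))) (a (b (l 3) (a (b (l 3) (l 210620366743)) (l 3))) (l 3)))))) (a (b (a (b (l 1) (a (l 1) (l 16228352))) (b (a (l 16298712) (l 16300344)) (b (l 16245152) (l 16210992)))) (a (b (l 9159547767) (l 16095152)) (b (l 16163344) (l 16103104)))) (b (a (b (a (b (l 16325888) (l 16292920)) (b (a (l 16336152) (l 16345424)) (l 16311232))) (a (l 16244488) (b (l 16282344) (l 16255120)))) (b (a (a (b (c (l 138142929831) (l 16394168)) (l 16332520)) (b (b (l 194514243703) (l 146196009559)) (l 16351416))) (b (a (c (l 178408245623) (l 184313663399)) (l 3)) (b (a (l 154785981271) (b (l 176797602679) (l 158007266407))) (a (l 16370192) (l 16482480))))) (b (a (l 16318768) (b (l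 16376632) (l 16369712))) (a (l 16297792) (l 16360528))))) (a (b (a (l 16186696) (l 16218224)) (l 16150744)) (b (a (l 16270504) (l 16346368)) (a (l 16238072) (l 16332296))))))), by decide +kernel⟩

def k2_pp_113 : ∃ t, chk3 f_pp_113 t 3 6 1 = true :=
  ⟨(a (l 3) (l 3)), by decide +kernel⟩

def k3_pp_113 : ∃ t, chk3 f_pp_113 t 6 7 1 = true :=
  ⟨(b (a (b (a (b (l 3) (a (b (l 193977488471) (b (l 189145644631) (l 165523531959))) (b (l 3) (b (l 3) (l 202030623079))))) (l 3)) (b (b (a (a (l 16428696) (c (l 171966081447) (l 182703330231))) (a (a (l 186461523255) (l 213841930599)) (l 3))) (a (l 16594568) (a (c (l 168208121207) (l 190219638183)) (c (l 201494086711) (l 221894979575))))) (a (l 16510048) (b (a (l 16530376) (b (l 16658296) (l 16600928))) (l 16571824))))) (b (l 3) (a (c (a (b (l 3) (b (l 220821612055) (l 16755456))) (b (l 3) (b (l 235317295575) (l 203641866647)))) (b (a (l 3) (l 3)) (b (a (l 220821404071) (l 243370159447)) (a (l 16636536) (l 4074080012245592218841972943))))) (a (b (l 3) (b (l 3) (c (l 255718386375)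 (l 258402706919)))) (l 3))))) (a (b (a (l 16450784) (b (l 16586824) (l 16609816))) (l 16547688)) (b (a (b (a (l 16725472) (b (l 16761552) (l 16741896))) (l 16705104)) (a (b (b (b (a (l 16781504) (l 243907202823)) (l 16776464)) (l 16761568)) (l 16733320)) (b (b (b (a (l 266455797159) (l 3)) (a (l 248739033303) (l 271287635687))) (b (c (l 244980931079) (l 246591548247)) (l 16777592))) (b (l 16764416) (l 16748352))))) (a (l 16654512) (b (l 16714320) (l 16686888)))))), by decide +kernel⟩

def k4_pp_113 : ∃ t, chk3 f_pp_113 t 7 14 1 = true :=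
  ⟨(l 3), by decide +kernel⟩

def k5_pp_113 : ∃ t, chk3 f_pp_113 t 14 15 1 = true :=
  ⟨(b (a (b (b (l 3) (a (b (a (b (l 3) (l 267529527111)) (l 3)) (a (l 249812774615) (l 270213887335))) (l 3))) (b (a (c (l 235317268951) (b (l 16792120) (l 16783856))) (b (a (l 272361382039) (l 281488237143)) (a (l 16807800) (l 278266982855)))) (a (l 16775912) (b (l 16806184) (l 16798024))))) (b (l 3) (a (b (a (b (l 3) (l 284172599127)) (l 3)) (b (a (l 275582640103) (l 293299409623)) (a (l 16815920) (l 276119521463)))) (b (l 3) (a (b (l 3) (l 304036808263)) (l 3)))))) (a (b (b (l 16773904) (l 16758584)) (l 16736152)) (a (b (b (b (l 16813056) (l 16804520)) (l 16791872)) (l 16767104)) (b (b (b (a (l 274508912807) (b (l 313163637415) (l 294910020631))) (a (l 16818680) (l 272361429095))) (b (l 16813736) (l 16804800))) (l 16782824))))), by decide +kernel⟩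

def k6_pp_113 : ∃ t, chk3 f_pp_113 t 15 15 1 = true :=
  ⟨(b (l 3) (a (b (a (b (a (b (l 3) (b (l 316921727703) (l 295446888055))) (l 3)) (b (a (l 16827216) (b (l 321753514663) (l 328732831367))) (a (l 16813920) (l 16818576)))) (b (l 3) (a (b (a (b (l 3) (l 329806616839)) (l 3)) (b (a (l 276656390743) (l 331954093671)) (a (l 16818928) (l 275045771239)))) (a (c (l 421611507207) (l 382956786935)) (l 3))))) (a (b (a (l 16800032) (l 16804248)) (l 16783824)) (b (a (b (l 16812368) (l 16802576)) (b (a (b (l 336785890135) (l 16811864)) (b (a (l 350744538855) (l 365776926535)) (l 16812992))) (l 16804888))) (a (l 16788040) (l 16789872))))) (b (l 3) (a (b (a (b (b (l 3) (c (l 403894754647) (l 366850647847))) (a (b (l 16808784) (l 16803632)) (b (b (l 288467517879) (l 351818265255)) (l 16804280)))) (b (l 3) (a (b (l 510732053639) (b (l 316384791351) (l 183777681463))) (b (l 3) (a (l 492478433911) (l 3)))))) (b (a (l 16796224) (a (l 16802032) (b (b (l 337859608983) (l 204715633879)) (l 16794264)))) (l 16796744))) (b (l 3) (a (b (a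 (b (a (b (l 3) (l 362018799783)) (l 627769902487)) (b (c (l 356650084695) (l 311016058807)) (l 16792816))) (b (l 3) (b (a (l 598778868631) (l 3)) (a (c (l 324974695015) (l 348597017191)) (l 6))))) (b (b (a (l 16790072) (a (l 16789824) (l 6))) (a (l 16787328) (l 6))) (l 16783016))) (b (l 3) (l 6)))))))), by decide +kernel⟩

theorem s7_pp_113 : ∃ t, chk3 f_pp_113 t 7 15 1 = true := ex3_a k5_pp_113 k6_pp_113

theorem s8_pp_113 : ∃ t, chk3 f_pp_113 t 7 7 1 = true := ex3_b k4_pp_113 s7_pp_113

theorem s9_pp_113 : ∃ t, chk3 f_pp_113 t 3 7 1 = true := ex3_a k3_pp_113 s8_pp_113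

theorem s10_pp_113 : ∃ t, chk3 f_pp_113 t 3 3 1 = true := ex3_b k2_pp_113 s9_pp_113

theorem s11_pp_113 : ∃ t, chk3 f_pp_113 t 1 3 1 = true := ex3_a k1_pp_113 s10_pp_113

theorem s12_pp_113 : ∃ t, chk3 f_pp_113 t 1 1 1 = true := ex3_b k0_pp_113 s11_pp_113

theorem c_pp_113 : CertB 536870912 536870912 1610612736 536870912 818728140 40265320 3 eng mog cd0q1 cd1q3 pd1 false true true .nn 1 1 3
    ndB0q1 ndB1q3 pcB1 cut_pp_113 xt_pp_113 :=
  certB1 (fam := false) (s1 := true) (s2 := true) (a := 1) (b := 1) (c := 3) (cn := .nn) (n1 := ndB0q1) (n2 := ndB1q3) (pc := pcB1) (cut := cut_pp_113) (xt := xt_pp_113) (P1 := 536870912) (W1 := 536870912) (P2 := 1610612736) (W2 := 536870912) (P3 := 818728140) (W3 := 40265320) (N0 := 3) (En := eng) (mo := mog) (C1 := cd0q1) (C2 := cd1q3) (C3 := pd1)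
    rfl (fun _ => rfl) s12_pp_113

noncomputable def cut_pp_123 : Cut := Cut.of [[⟨0, 1, 0, 67108864⟩, ⟨1, 1, 0, 67108864⟩, ⟨2, 2, 0, 16777216⟩]]

noncomputable def f_pp_123 : ℕ → ℕ → ℕ → ℕ → Bool := onCell 536870912 536870912 1073741824 536870912 818728140 40265320
    (rowB 3 eng mog cd0q1 cd1q3 pd2 1 false true true .npn 1 2 3 (qsf 536870912 536870912 1610612736 536870912 2) ndB0q1 ndB1q3 pcB2 cut_pp_123 Ext.none)

def k0_pp_123 : ∃ t, chk3 f_pp_123 t 1 1 1 = true :=
  ⟨(a (b (a (b (a (b (a (l 15959104) (l 15965520)) (l 16063536)) (b (b (l 15959960) (l 16021184)) (l 16105872))) (a (l 16180872) (l 16243384))) (b (b (a (b (a (l 16005840) (l 16058648)) (l 16098472)) (b (a (l 16141008) (l 16254384)) (l 16264816))) (a (l 16193680) (l 16376168))) (a (b (l 16307880) (l 16386856)) (b (l 16448176) (l 16500216))))) (a (b (a (l 16293552) (l 16158568)) (b (a (l 16402744) (l 16471072)) (l 16717960))) (b (a (l 16214704) (b (l 16527136) (l 16551640))) (a (b (l 16523296) (l 2)) (l 2))))) (b (a (b (a (b (a (l 16444232) (l 16499568))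 (l 16512344)) (b (a (l 16532472) (b (l 16606648) (l 16610616))) (a (l 16582272) (b (l 16618448) (l 16628192))))) (a (b (b (b (l 16540544) (l 16550104)) (l 16563112)) (l 16566752)) (b (b (b (l 16595208) (l 16744864)) (l 104789807559)) (a (l 16604376) (l 2))))) (b (b (a (a (b (l 16663128) (l 16658912)) (b (b (l 16693072) (l 16707480)) (b (l 16701016) (l 16695592)))) (b (a (a (l 16713792) (b (l 16751224) (l 16739376))) (b (a (b (l 16763776) (l 16756696)) (b (a (b (l 16771160) (l 6)) (l 6)) (l 255114306151))) (a (l 16743240) (l 16744232)))) (a (l 16713032) (l 326518142087)))) (a (b (a (l 16660616) (l 16679104)) (l 16754184)) (a (b (l 16681032) (l 2)) (l 2)))) (a (b (b (b (l 16624240) (l 2)) (l 2)) (l 2)) (l 2)))) (a (b (a (b (l 16579096) (l 2)) (l 2)) (l 2)) (l 2)))), by decide +kernel⟩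

theorem c_pp_123 : CertB 536870912 536870912 1610612736 536870912 818728140 40265320 3 eng mog cd0q1 cd1q3 pd2 false true true .npn 1 2 3
    ndB0q1 ndB1q3 pcB2 cut_pp_123 Ext.none :=
  certB1 (fam := false) (s1 := true) (s2 := true) (a := 1) (b := 2) (c := 3) (cn := .npn) (n1 := ndB0q1) (n2 := ndB1q3) (pc := pcB2) (cut := cut_pp_123) (xt := Ext.none) (P1 := 536870912) (W1 := 536870912) (P2 := 1610612736) (W2 := 536870912) (P3 := 818728140) (W3 := 40265320) (N0 := 3) (En := eng) (mo := mog) (C1 := cd0q1) (C2 := cd1q3) (C3 := pd2)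
    rfl (fun _ => rfl) k0_pp_123

noncomputable def f_pp_133 : ℕ → ℕ → ℕ → ℕ → Bool := onCell 536870912 536870912 1610612736 536870912 818728140 40265320
    (rowB 3 eng mog cd0q1 cd1q3 pd3 0 false true true .dn 1 3 3 (qsf 536870912 536870912 1610612736 536870912 3) ndB0q1 ndB1q3 pcB3 Cut.none Ext.none)

def k0_pp_133 : ∃ t, chk3 f_pp_133 t 1 1 1 = true :=
  ⟨(a (b (l 1) (a (b (l 1) (a (b (l 1) (l 16548784)) (l 1))) (l 1))) (l 1)), by decide +kernel⟩

theorem c_pp_133 : CertB 536870912 536870912 1610612736 536870912 818728140 40265320 3 eng mog cd0q1 cd1q3 pd3 false true true .dn 1 3 3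
    ndB0q1 ndB1q3 pcB3 Cut.none Ext.none :=
  certB0 (fam := false) (s1 := true) (s2 := true) (a := 1) (b := 3) (c := 3) (cn := .dn) (n1 := ndB0q1) (n2 := ndB1q3) (pc := pcB3) (cut := Cut.none) (xt := Ext.none) (P1 := 536870912) (W1 := 536870912) (P2 := 1610612736) (W2 := 536870912) (P3 := 818728140) (W3 := 40265320) (N0 := 3) (En := eng) (mo := mog) (C1 := cd0q1) (C2 := cd1q3) (C3 := pd3)
    rfl k0_pp_133

noncomputable def f_pp_202_a : ℕ → ℕ → ℕ → ℕ → Bool := onCell 0 536870912 0 536870912 818728140 40265320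
    (rowB 3 eng mog cd0q2 cd1q2a pd0 0 false true true .pp 2 0 2 (qsf 0 536870912 0 536870912 0) ndB0q2 ndB1q2a pcB0 Cut.none Ext.none)

def k0_pp_202_a : ∃ t, chk3 f_pp_202_a t 1 1 1 = true :=
  ⟨(l 3), by decide +kernel⟩

theorem c_pp_202_a : CertB 0 536870912 0 536870912 818728140 40265320 3 eng mog cd0q2 cd1q2a pd0 false true true .pp 2 0 2
    ndB0q2 ndB1q2a pcB0 Cut.none Ext.none :=
  certB0 (fam := false) (s1 := true) (s2 := true) (a := 2) (b := 0) (c := 2) (cn := .pp) (n1 := ndB0q2) (n2 := ndB1q2a) (pc := pcB0) (cut := Cut.none) (xt := Ext.none) (P1 := 0) (W1 := 536870912) (P2 := 0) (W2 := 536870912) (P3 := 818728140) (W3 := 40265320) (N0 := 3) (En := eng) (mo := mog) (C1 := cd0q2) (C2 := cd1q2a) (C3 := pd0)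
    rfl k0_pp_202_a

noncomputable def f_pp_202_b : ℕ → ℕ → ℕ → ℕ → Bool := onCell 0 536870912 1239849684 370763052 818728140 40265320
    (rowB 3 eng mog cd0q2 cd1q2b pd0 0 false true true .pp 2 0 2 (qsf 0 536870912 1239849684 370763052 0) ndB0q2 ndB1q2b pcB0 Cut.none Ext.none)

def k0_pp_202_b : ∃ t, chk3 f_pp_202_b t 1 1 1 = true :=
  ⟨(l 3), by decide +kernel⟩

theorem c_pp_202_b : CertB 0 536870912 1239849684 370763052 818728140 40265320 3 eng mog cd0q2 cd1q2b pd0 false true true .pp 2 0 2
    ndB0q2 ndB1q2b pcB0 Cut.none Ext.none :=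
  certB0 (fam := false) (s1 := true) (s2 := true) (a := 2) (b := 0) (c := 2) (cn := .pp) (n1 := ndB0q2) (n2 := ndB1q2b) (pc := pcB0) (cut := Cut.none) (xt := Ext.none) (P1 := 0) (W1 := 536870912) (P2 := 1239849684) (W2 := 370763052) (P3 := 818728140) (W3 := 40265320) (N0 := 3) (En := eng) (mo := mog) (C1 := cd0q2) (C2 := cd1q2b) (C3 := pd0)
    rfl k0_pp_202_b

noncomputable def f_pp_203 : ℕ → ℕ → ℕ → ℕ → Bool := onCell 0 536870912 0 536870912 818728140 40265320
    (rowB 3 eng mog cd0q2 cd1q3 pd0 1 false true true .up 2 0 3 (qsf 0 536870912 1610612736 536870912 0) ndB0q2 ndB1q3 pcB0 Cut.none Ext.none)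

def k0_pp_203 : ∃ t, chk3 f_pp_203 t 1 1 1 = true :=
  ⟨(l 3), by decide +kernel⟩

theorem c_pp_203 : CertB 0 536870912 1610612736 536870912 818728140 40265320 3 eng mog cd0q2 cd1q3 pd0 false true true .up 2 0 3
    ndB0q2 ndB1q3 pcB0 Cut.none Ext.none :=
  certB1 (fam := false) (s1 := true) (s2 := true) (a := 2) (b := 0) (c := 3) (cn := .up) (n1 := ndB0q2) (n2 := ndB1q3) (pc := pcB0) (cut := Cut.none) (xt := Ext.none) (P1 := 0) (W1 := 536870912) (P2 := 1610612736) (W2 := 536870912) (P3 := 818728140) (W3 := 40265320) (N0 := 3) (En := eng) (mo := mog) (C1 := cd0q2) (C2 := cd1q3) (C3 := pd0)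
    rfl (fun _ => rfl) k0_pp_203

noncomputable def cut_pp_213 : Cut := Cut.of [[⟨0, 1, 0, 67108864⟩, ⟨1, 1, 0, 67108864⟩, ⟨2, 2, 0, 16777216⟩]]

noncomputable def f_pp_213 : ℕ → ℕ → ℕ → ℕ → Bool := onCell 0 536870912 1610612736 536870912 818728140 40265320
    (rowB 3 eng mog cd0q2 cd1q3 pd1 0 false true true .pnn 2 1 3 (qsf 0 536870912 1610612736 536870912 1) ndB0q2 ndB1q3 pcB1 cut_pp_213 Ext.none)

def k0_pp_213 : ∃ t, chk3 f_pp_213 t 1 1 1 = true :=
  ⟨(b (l 3) (a (l 3) (b (l 3) (a (l 3) (b (l 3) (a (l 3) (b (l 3) (b (l 3) (b (l 3) (l 6)))))))))), by decide +kernel⟩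

theorem c_pp_213 : CertB 0 536870912 1610612736 536870912 818728140 40265320 3 eng mog cd0q2 cd1q3 pd1 false true true .pnn 2 1 3
    ndB0q2 ndB1q3 pcB1 cut_pp_213 Ext.none :=
  certB0 (fam := false) (s1 := true) (s2 := true) (a := 2) (b := 1) (c := 3) (cn := .pnn) (n1 := ndB0q2) (n2 := ndB1q3) (pc := pcB1) (cut := cut_pp_213) (xt := Ext.none) (P1 := 0) (W1 := 536870912) (P2 := 1610612736) (W2 := 536870912) (P3 := 818728140) (W3 := 40265320) (N0 := 3) (En := eng) (mo := mog) (C1 := cd0q2) (C2 := cd1q3) (C3 := pd1)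
    rfl k0_pp_213

noncomputable def f_pm_001 : ℕ → ℕ → ℕ → ℕ → Bool := onCell 0 536870912 536870912 536870912 818728140 40265320
    (rowB 3 eng mog cd0q0 cd1q1 pd0 0 false true false .up 0 0 1 (qsf 0 536870912 536870912 536870912 0) ndB0q0 ndB1q1 pcB0 Cut.none Ext.none)

def k0_pm_001 : ∃ t, chk3 f_pm_001 t 1 1 1 = true :=
  ⟨(l 4), by decide +kernel⟩

theorem c_pm_001 : CertB 0 536870912 536870912 536870912 818728140 40265320 3 eng mog cd0q0 cd1q1 pd0 false true false .up 0 0 1
    ndB0q0 ndB1q1 pcB0 Cut.none Ext.none :=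
  certB0 (fam := false) (s1 := true) (s2 := false) (a := 0) (b := 0) (c := 1) (cn := .up) (n1 := ndB0q0) (n2 := ndB1q1) (pc := pcB0) (cut := Cut.none) (xt := Ext.none) (P1 := 0) (W1 := 536870912) (P2 := 536870912) (W2 := 536870912) (P3 := 818728140) (W3 := 40265320) (N0 := 3) (En := eng) (mo := mog) (C1 := cd0q0) (C2 := cd1q1) (C3 := pd0)
    rfl k0_pm_001

noncomputable def f_pm_011 : ℕ → ℕ → ℕ → ℕ → Bool := onCell 0 536870912 536870912 536870912 818728140 40265320
    (rowB 3 eng mog cd0q0 cd1q1 pd1 0 false true false .pnn 0 1 1 (qsf 0 536870912 536870912 536870912 1) ndB0q0 ndB1q1 pcB1 Cut.none Ext.none)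

def k0_pm_011 : ∃ t, chk3 f_pm_011 t 1 1 1 = true :=
  ⟨(l 4), by decide +kernel⟩

theorem c_pm_011 : CertB 0 536870912 536870912 536870912 818728140 40265320 3 eng mog cd0q0 cd1q1 pd1 false true false .pnn 0 1 1
    ndB0q0 ndB1q1 pcB1 Cut.none Ext.none :=
  certB0 (fam := false) (s1 := true) (s2 := false) (a := 0) (b := 1) (c := 1) (cn := .pnn) (n1 := ndB0q0) (n2 := ndB1q1) (pc := pcB1) (cut := Cut.none) (xt := Ext.none) (P1 := 0) (W1 := 536870912) (P2 := 536870912) (W2 := 536870912) (P3 := 818728140) (W3 := 40265320) (N0 := 3) (En := eng) (mo := mog) (C1 := cd0q0) (C2 := cd1q1) (C3 := pd1)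
    rfl k0_pm_011

end Pool.Agent.Strip051.G.I7625_8000.Tab.C.BB01

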