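import Pool.Agent.Strip051.G.I7625_8000.Tab
import Pool.Agent.Strip051.PB.ExtD2

/-! # Certificates B7 (generated) -/

set_option linter.all false
set_option maxRecDepth 100000

namespace Pool.Agent.Strip051.G.I7625_8000.Tab.C.BB01

open Pool.Agent.Strip051.PB Pool.Agent.Strip051.PB.T
open Pool.Agent.Strip051.G.I7625_8000.Tab

noncomputable def cut_pm_012_a : Cut := Cut.of [[⟨0, 0, 0, 67108864⟩, ⟨1, 1, 0, 67108864⟩, ⟨2, 1, 0, 67108864⟩]]

noncomputable def f_pm_012_a : ℕ → ℕ → ℕ → ℕ → Bool := onCell 0 536870912 0 536870912 818728140 40265320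
    (rowB 3 eng mog cd0q0 cd1q2a pd1 0 false true false .pnp 0 1 2 (qsf 0 536870912 0 536870912 1) ndB0q0 ndB1q2a pcB1 cut_pm_012_a Ext.none)

def k0_pm_012_a : ∃ t, chk3 f_pm_012_a t 2 2 1 = true :=
  ⟨(a (a (l 2) (b (l 2) (b (l 2) (b (l 2) (a (l 2) (a (l 2) (a (l 2) (l 16321400)))))))) (a (b (a (a (l 2) (a (b (l 2) (l 16270216)) (b (l 16273672) (l 16254192)))) (b (a (l 16281112) (l 16290776)) (a (c (l 16270736) (l 16251448)) (l 16270256)))) (a (b (a (b (l 16241128) (a (l 2) (l 16251912))) (b (l 16250944) (l 16258416))) (a (b (a (l 16262000) (l 16266320)) (a (l 16283480) (l 16287096))) (b (l 16292920) (c (l 16301600) (l 16281480))))) (b (a (b (l 16259448) (l 16266000)) (c (l 16279664) (l 16261480))) (a (b (l 16278368) (l 16296672)) (b (l 16284424) (l 16301320)))))) (b (a (b (a (l 16300304) (l 16309840)) (a (l 16279184) (l 16288128))) (b (a (l 16319552) (l 16329592)) (a (l 16297224) (l 16306648)))) (a (b (a (b (l 16275576) (l 16280280)) (l 16327632)) (a (c (l 16306592) (l 16289968)) (c (l 16311600) (l 16295416))))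 (a (b (l 16293384) (l 16308944)) (b (l 16301400) (l 16314808))))))), by decide +kernel⟩

def k1_pm_012_a : ∃ t, chk3 f_pm_012_a t 4 6 1 = true :=
  ⟨(a (l 2) (b (a (l 2) (a (b (a (l 2) (l 16342816)) (a (b (l 2) (l 16345744)) (b (l 16328160) (l 16348752)))) (b (a (b (l 16296432) (l 16313032)) (l 16308376)) (a (l 16341480) (l 16344056))))) (a (a (b (l 2) (a (l 2) (b (l 16414800) (l 16445168)))) (b (a (b (l 2) (l 16388896)) (b (l 16365944) (l 16391280))) (b (a (l 16416712) (l 16418448)) (a (l 16446384) (l 16447416))))) (b (a (b (a (l 16368680) (l 16371112)) (a (l 16393408) (l 16395224))) (b (l 16374144) (l 16397336))) (a (b (a (l 16419912) (l 16421080)) (l 16448464)) (b (l 16422208) (l 16448720))))))), by decide +kernel⟩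

def k2_pm_012_a : ∃ t, chk3 f_pm_012_a t 8 7 1 = true :=
  ⟨(b (a (l 2) (b (a (l 2) (a (l 2) (b (l 2) (b (l 16501600) (l 16517112))))) (a (l 6) (a (l 6) (a (l 6) (b (l 16540984) (l 16574112))))))) (a (l 6) (a (l 6) (a (l 6) (a (l 6) (a (l 6) (b (b (l 16608464) (b (l 16635224) (l 16653552))) (b (l 16660800) (b (l 16667704) (c (l 16685200) (l 16693232))))))))))), by decide +kernel⟩

def k3_pm_012_a : ∃ t, chk3 f_pm_012_a t 9 7 1 = true :=
  ⟨(b (a (b (a (b (a (b (l 16468336) (l 16485312)) (l 16477416)) (a (b (l 16501704) (l 16516896)) (l 16509168))) (b (a (l 16477880) (l 16478168)) (a (l 16508912) (l 16508480)))) (a (b (a (l 16540432) (l 16539608)) (a (l 16573032) (l 16571504))) (b (a (l 16538680) (l 16537576)) (a (l 16569872) (l 16568056))))) (b (a (b (l 16478088) (l 16486344)) (b (l 16476856) (l 16504632))) (a (b (l 16535408) (c (l 16571176) (l 16558048))) (b (l 16531376) (l 16580336))))) (a (b (a (b (a (l 16614960) (l 16604816)) (c (l 16624304) (a (l 16596152) (l 16614008)))) (b (c (l 16564640) (l 16595424))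 (c (l 16638944) (l 16609136)))) (a (b (b (c (l 16671464) (l 16664616)) (a (l 16683600) (l 16672720))) (b (c (a (l 16679656) (l 16668592)) (a (l 16663064) (l 16673136))) (b (c (a (l 16678568) (l 16667424)) (a (l 16681840) (l 16670864))) (c (a (b (l 16677952) (l 16677512)) (l 16666536)) (a (b (l 16680656) (l 16682456)) (b (l 16669640) (l 16668792))))))) (b (b (l 16621720) (a (l 16640984) (l 16630416))) (b (c (a (l 16657656) (l 16646936)) (a (l 16662352) (l 16651728))) (c (a (a (l 16658696) (l 16653216)) (b (l 16645608) (l 16644616))) (a (b (l 16659992) (b (l 16658728) (l 16663096))) (a (l 16656328) (l 16645784)))))))) (b (a (b (c (l 16600816) (l 16589824)) (l 16595960)) (c (l 16608304) (l 16575392))) (a (b (c (b (l 16634432) (l 16633096)) (l 16609240)) (b (c (l 16631456) (l 16642800)) (b (c (l 16630000) (l 16638928)) (c (a (l 16634080) (l 16623896)) (a (l 16637024) (l 16626784)))))) (b (c (l 16572880) (l 16600424)) (c (b (l 16612136) (a (l 16614696) (l 16605200))) (b (l 16616600) (a (l 16628280) (l 16618512))))))))),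 by decide +kernel⟩

def k4_pm_012_a : ∃ t, chk3 f_pm_012_a t 5 6 1 = true :=
  ⟨(a (b (a (a (b (c (l 16323224) (l 16302448)) (c (l 16357016) (l 16337032))) (b (c (l 16327240) (l 16307752)) (c (l 16359024) (l 16340392)))) (b (a (l 16320960) (l 16323928)) (a (l 16351224) (l 16352232)))) (a (b (a (c (l 16397208) (l 16378248)) (c (l 16396904) (l 16379368))) (a (b (l 16422376) (l 16447496)) (l 16474744))) (b (a (l 16387384) (l 16386120)) (a (l 16429264) (l 16425384))))) (b (a (a (b (l 16326768) (l 16353112)) (c (l 16349344) (l 16334792))) (b (l 16334688) (l 16356544))) (b (a (a (l 16384744) (l 16383664)) (l 16383072)) (a (a (l 16421616) (l 16418288)) (l 16413912))))), by decide +kernel⟩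

def k5_pm_012_a : ∃ t, chk3 f_pm_012_a t 5 7 1 = true :=
  ⟨(a (b (a (b (a (b (l 16474136) (l 16500456)) (b (l 16469696) (l 16494568))) (c (a (l 16503320) (l 16494600)) (b (l 16515784) (l 16500648)))) (a (b (l 16475776) (l 16522264)) (b (l 16469184) (l 16513296)))) (b (a (a (b (l 16580056) (l 16604552)) (c (l 16586712) (l 16580248))) (a (l 16530280) (l 16560360))) (a (a (b (c (l 16576416) (l 16592696)) (c (b (l 16594112) (a (l 16595904) (l 16587048))) (b (l 16597776) (a (l 16598312) (l 16588912))))) (c (b (l 16581464) (b (l 16577696) (a (l 16578704) (l 16570888)))) (b (l 16585928) (b (l 16580016) (a (l 16579904) (l 16571312)))))) (a (b (c (l 16566888) (l 16569768)) (b (l 16584040) (a (a (l 16565056) (l 16561128)) (l 16555280)))) (b (l 16511352) (b (l 16547616) (a (l 16547352) (l 16539104)))))))) (b (a (b (a (l 16462888) (l 16456776)) (a (l 16504360) (l 16495472))) (b (c (l 16452112) (l 16444320)) (l 16483472))) (b (a (a (l 16547912) (l 16533400)) (a (l 16518480) (l 16503408))) (a (a (b (l 16517008) (a (a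 (l 16535304) (l 16531208)) (l 16546072))) (b (l 16522264) (a (l 16537960) (l 16529872)))) (b (a (l 16506568) (l 16490784)) (a (b (l 16499376) (l 16494096)) (b (l 16483240) (l 16477728)))))))), by decide +kernel⟩

def k6_pm_012_a : ∃ t, chk3 f_pm_012_a t 3 2 1 = true :=
  ⟨(a (a (b (a (b (l 16345592) (l 16321792)) (b (l 16368992) (l 16344104))) (a (b (l 16314672) (l 16387928)) (b (l 16334400) (l 16340592)))) (b (a (b (l 16392400) (l 16366536)) (b (l 16414784) (l 16387960))) (b (a (l 16354512) (l 16373416)) (a (l 16356704) (l 16371184))))) (a (b (a (b (l 16435624) (l 16407768)) (b (l 16453600) (l 16424656))) (a (b (l 16390608) (l 16383904)) (b (l 16404864) (l 16393704)))) (b (a (b (l 16466072) (l 16435992)) (b (l 16476472) (l 16445328))) (a (b (l 16413624) (l 16398192)) (b (l 16420536) (l 16401096)))))), by decide +kernel⟩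

def k7_pm_012_a : ∃ t, chk3 f_pm_012_a t 3 3 1 = true :=
  ⟨(a (b (a (b (a (a (l 16350872) (l 16354992)) (l 16383584)) (a (c (l 16381568) (l 16371672)) (b (l 16387976) (l 16409008)))) (b (a (l 16372440) (l 16380224)) (a (l 16378376) (l 16397624)))) (a (b (a (b (l 16439408) (l 16468952)) (b (l 16431880) (l 16455232))) (b (a (l 16480416) (l 16417752)) (a (a (b (l 16474816) (l 16485064)) (b (l 16458600) (l 16447416))) (b (a (l 16442144) (l 16425968)) (a (l 16430496) (l 16413864)))))) (b (b (l 16418072) (a (l 16437056) (l 16411352))) (b (a (l 16419272) (l 16328688)) (a (b (l 16402736) (a (l 16408288) (b (l 16385680) (l 16378784)))) (b (l 16373568) (a (l 16388128) (l 16352512)))))))) (b (a (b (a (l 16386224) (l 16389344)) (a (l 16394024) (l 16387736))) (a (b (l 16387584) (l 16377216)) (b (l 16384512) (l 16365736)))) (a (a (b (b (l 16399216) (l 16387488)) (b (a (l 16372136) (l 16359704)) (b (a (l 16352960) (l 16339824)) (a (l 16338424) (l 16345800))))) (b (b (l 16383800) (l 16366152)) (b (a (l 16347944) (l 16337192))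 (b (l 16321496) (a (l 16311904) (l 16299976)))))) (b (a (b (l 16364816) (l 16348368)) (b (l 16345376) (l 16330584))) (a (b (l 16322768) (a (b (l 16305320) (l 16288912)) (b (l 16295344) (l 16278440)))) (b (l 16303136) (a (l 16276360) (l 16264720)))))))), by decide +kernel⟩

theorem s8_pm_012_a : ∃ t, chk3 f_pm_012_a t 3 1 1 = true := ex3_b k6_pm_012_a k7_pm_012_a

theorem s9_pm_012_a : ∃ t, chk3 f_pm_012_a t 5 3 1 = true := ex3_b k4_pm_012_a k5_pm_012_a

theorem s10_pm_012_a : ∃ t, chk3 f_pm_012_a t 4 7 1 = true := ex3_a k2_pm_012_a k3_pm_012_a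

theorem s11_pm_012_a : ∃ t, chk3 f_pm_012_a t 4 3 1 = true := ex3_b k1_pm_012_a s10_pm_012_a

theorem s12_pm_012_a : ∃ t, chk3 f_pm_012_a t 2 3 1 = true := ex3_a s11_pm_012_a s9_pm_012_a

theorem s13_pm_012_a : ∃ t, chk3 f_pm_012_a t 2 1 1 = true := ex3_b k0_pm_012_a s12_pm_012_a

theorem s14_pm_012_a : ∃ t, chk3 f_pm_012_a t 1 1 1 = true := ex3_a s13_pm_012_a s8_pm_012_a

theorem c_pm_012_a : CertB 0 536870912 0 536870912 818728140 40265320 3 eng mog cd0q0 cd1q2a pd1 false true false .pnp 0 1 2
    ndB0q0 ndB1q2a pcB1 cut_pm_012_a Ext.none :=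
  certB0 (fam := false) (s1 := true) (s2 := false) (a := 0) (b := 1) (c := 2) (cn := .pnp) (n1 := ndB0q0) (n2 := ndB1q2a) (pc := pcB1) (cut := cut_pm_012_a) (xt := Ext.none) (P1 := 0) (W1 := 536870912) (P2 := 0) (W2 := 536870912) (P3 := 818728140) (W3 := 40265320) (N0 := 3) (En := eng) (mo := mog) (C1 := cd0q0) (C2 := cd1q2a) (C3 := pd1)
    rfl s14_pm_012_a

noncomputable def cut_pm_012_b : Cut := Cut.of [[⟨0, 0, 0, 67108864⟩, ⟨1, 1, 0, 67108864⟩, ⟨2, 1, 0, 67108864⟩]]

noncomputable def f_pm_012_b : ℕ → ℕ → ℕ → ℕ → Bool := onCell 0 536870912 1239849684 370763052 818728140 40265320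
    (rowB 3 eng mog cd0q0 cd1q2b pd1 0 false true false .pnp 0 1 2 (qsf 0 536870912 1239849684 370763052 1) ndB0q0 ndB1q2b pcB1 cut_pm_012_b Ext.none)

def k0_pm_012_b : ∃ t, chk3 f_pm_012_b t 1 1 1 = true :=
  ⟨(a (a (l 2) (b (a (b (b (a (a (l 2) (b (l 16241112) (l 2))) (b (a (b (l 16275232) (l 16230112)) (l 16263960)) (a (l 2) (l 16175072)))) (l 2)) (l 2)) (b (b (b (a (a (l 16275056) (l 16286168)) (a (l 16297432) (l 16309008))) (a (a (l 16189200) (l 16203304)) (l 16224704))) (a (a (l 16075056) (l 16177600)) (b (l 16143080) (l 16058344)))) (a (l 2) (b (l 16009104) (l 2))))) (l 2))) (b (a (a (b (b (a (b (l 16327224) (l 16254568)) (b (l 16353432) (l 16286208))) (a (l 16223440) (l 16179736))) (a (b (l 15975944) (l 2)) (b (l 16027856) (l 15864704)))) (b (b (a (b (l 16379720) (l 16317920)) (l 16358576)) (a (l 16219616) (l 16258152))) (a (b (l 16079016) (l 15927600)) (b (l 16128400) (l 15988424))))) (a (b (b (a (l 16424456) (l 16427192)) (a (l 16295488) (l 16330192))) (a (b (l 16176424) (l 16047440)) (l 16205528)))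 (b (b (a (l 16466104) (l 16481688)) (a (l 16359016) (l 16385072))) (a (l 16208832) (l 16251392))))) (a (b (a (l 2) (a (b (l 15765688) (l 2)) (b (l 15838288) (l 15678424)))) (l 2)) (a (b (a (b (l 15908888) (l 15760864)) (b (l 15976368) (l 15840192))) (a (l 2) (b (l 15695256) (l 2)))) (b (a (l 15976792) (l 16042368)) (a (b (l 15781928) (l 15641576)) (l 15802176))))))), by decide +kernel⟩

theorem c_pm_012_b : CertB 0 536870912 1239849684 370763052 818728140 40265320 3 eng mog cd0q0 cd1q2b pd1 false true false .pnp 0 1 2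
    ndB0q0 ndB1q2b pcB1 cut_pm_012_b Ext.none :=
  certB0 (fam := false) (s1 := true) (s2 := false) (a := 0) (b := 1) (c := 2) (cn := .pnp) (n1 := ndB0q0) (n2 := ndB1q2b) (pc := pcB1) (cut := cut_pm_012_b) (xt := Ext.none) (P1 := 0) (W1 := 536870912) (P2 := 1239849684) (W2 := 370763052) (P3 := 818728140) (W3 := 40265320) (N0 := 3) (En := eng) (mo := mog) (C1 := cd0q0) (C2 := cd1q2b) (C3 := pd1)
    rfl k0_pm_012_b

noncomputable def cut_pm_022_a : Cut := Cut.of [[⟨0, 0, 0, 67108864⟩, ⟨1, 1, 0, 67108864⟩, ⟨2, 1, 0, 67108864⟩]]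

noncomputable def f_pm_022_a : ℕ → ℕ → ℕ → ℕ → Bool := onCell 1073741824 536870912 0 536870912 818728140 40265320
    (rowB 3 eng mog cd0q0 cd1q2a pd2 2 false true false .pp 0 2 2 (qsf 0 536870912 0 536870912 2) ndB0q0 ndB1q2a pcB2 cut_pm_022_a Ext.none)

def k0_pm_022_a : ∃ t, chk3 f_pm_022_a t 4 2 1 = true :=
  ⟨(a (b (a (a (b (c (a (l 16174096) (l 16199064)) (l 16146928)) (c (a (l 16189416) (l 16193632)) (b (l 16141456) (l 16144560)))) (b (c (l 16234528) (l 16201368)) (c (l 16229400) (l 16197952)))) (b (a (l 16265448) (l 16309144)) (a (l 16282568) (l 16305872)))) (a (b (a (c (a (b (l 16176528) (l 16189368)) (l 16271152)) (b (l 16152896) (l 16166960))) (c (b (l 16237504) (l 16250272)) (b (l 16207648) (l 16221696)))) (a (b (c (a (l 16208264) (l 16233256)) (a (l 16172992) (l 16201224))) (c (a (l 16233752) (l 16258656)) (a (l 16200080) (l 16228256)))) (b (c (l 16269048) (l 16241928)) (a (l 16332264) (l 16294184))))) (b (a (b (l 16270688) (l 16284176)) (b (l 16315288) (l 16329000))) (b (a (c (l 16313816) (l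 16293288)) (l 16348840)) (a (a (l 16318232) (l 16341592)) (l 16375424)))))) (b (a (a (b (l 16349624) (l 16347072)) (b (l 16387272) (l 16385600))) (b (l 16438824) (l 16438592))) (a (b (a (l 16406240) (l 16403688)) (a (b (l 16391384) (l 16418432)) (b (l 16431504) (l 16459000)))) (a (b (l 16440616) (b (l 16469128) (l 16497080))) (b (l 16474984) (b (l 16499152) (l 184716453063))))))), by decide +kernel⟩

def k1_pm_022_a : ∃ t, chk3 f_pm_022_a t 4 6 1 = true :=
  ⟨(a (a (b (a (b (c (a (b (l 16257288) (l 16275568)) (l 16291272)) (a (l 16234624) (l 16262744))) (a (c (b (l 16295880) (l 16318352)) (b (l 16265576) (l 16289160))) (c (l 16331832) (l 16305440)))) (b (c (a (l 16315264) (l 16338480)) (l 16345336)) (a (c (l 16355872) (l 16332792)) (c (l 16379232) (l 16359440))))) (a (b (a (c (b (l 16343112) (l 16370280)) (b (l 16315096) (l 16343520))) (c (b (l 16367832) (l 16395080)) (l 16383648))) (a (b (c (l 16400080) (l 16374624)) (c (l 16432688) (l 16408584))) (c (b (l 16424968) (l 16457728)) (b (l 16402840) (l 16436904)))))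 (b (c (a (l 16405600) (l 16429192)) (a (l 16384864) (l 16411672))) (a (c (l 16486720) (l 16431776)) (c (l 16489608) (l 16495480)))))) (b (b (a (a (l 16351872) (l 16375392)) (a (l 16398320) (l 16420656))) (a (c (l 16413168) (l 16398168)) (c (l 16456488) (l 16447600)))) (b (a (a (c (l 16452224) (l 16437856)) (l 16463904)) (a (l 16492520) (l 16536264))) (a (b (a (l 16490144) (l 16514288)) (a (l 16523888) (l 16548144))) (a (b (l 16537832) (l 16529848)) (b (l 16560760) (l 16594824))))))) (a (b (a (b (l 16453024) (a (l 16485248) (l 16506584))) (b (l 16494032) (a (l 16527304) (l 16547400)))) (a (b (a (b (l 16523152) (l 16551768)) (l 16559008)) (b (a (l 16583080) (l 16602984)) (a (l 16617240) (l 259878652743)))) (a (b (l 16579936) (b (l 463889565079) (l 1))) (b (l 440267182007) (l 1))))) (b (a (b (l 16532544) (b (l 16482784) (l 242161745015))) (b (b (l 224981792167) (l 487511669239)) (l 1))) (a (b (a (l 637835762487) (l 1)) (l 1)) (l 1))))), by decide +kernel⟩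

def k2_pm_022_a : ∃ t, chk3 f_pm_022_a t 4 7 1 = true :=
  ⟨(a (b (a (b (a (b (a (c (l 16468336) (l 16445608)) (c (l 16493512) (l 16474024))) (a (c (l 16504464) (a (l 16476464) (l 16490880))) (c (l 16529760) (l 16512208)))) (b (a (c (l 16518120) (l 16501808)) (l 16540952)) (b (a (l 16538512) (l 16564160)) (l 6)))) (l 6)) (b (a (b (a (c (l 16565648) (l 16555464)) (b (l 16575424) (l 16594656))) (b (a (l 16589200) (l 16613632)) (l 6))) (b (a (l 16608784) (l 16631912)) (a (l 16625536) (b (l 16603176) (l 288332897175))))) (a (l 6) (a (l 6) (a (l 6) (l 1)))))) (a (l 6) (a (l 6) (l 1)))) (b (a (b (a (a (b (c (l 262026176999) (l 261489303063)) (l 596496809143)) (b (l 594886183927) (l 1))) (l 1)) (l 1)) (l 1)) (l 1))), by decide +kernel⟩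

def k3_pm_022_a : ∃ t, chk3 f_pm_022_a t 5 1 1 = true :=
  ⟨(b (a (b (b (a (a (l 16431824) (l 16357736)) (l 1)) (a (a (l 16445168) (l 175052557671)) (l 1))) (a (a (b (l 164315247575) (b (l 210486178055) (l 585222248263))) (b (b (l 211559817223) (l 512744408071)) (l 1))) (l 1))) (l 1)) (b (l 1) (l 1))), by decide +kernel⟩

def k4_pm_022_a : ∃ t, chk3 f_pm_022_a t 3 1 1 = true :=
  ⟨(l 1), by decide +kernel⟩

theorem s5_pm_022_a : ∃ t, chk3 f_pm_022_a t 4 3 1 = true := ex3_b k1_pm_022_a k2_pm_022_a

theorem s6_pm_022_a : ∃ t, chk3 f_pm_022_a t 4 1 1 = true := ex3_b k0_pm_022_a s5_pm_022_a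

theorem s7_pm_022_a : ∃ t, chk3 f_pm_022_a t 2 1 1 = true := ex3_a s6_pm_022_a k3_pm_022_a

theorem s8_pm_022_a : ∃ t, chk3 f_pm_022_a t 1 1 1 = true := ex3_a s7_pm_022_a k4_pm_022_a

theorem c_pm_022_a : CertB 0 536870912 0 536870912 818728140 40265320 3 eng mog cd0q0 cd1q2a pd2 false true false .pp 0 2 2
    ndB0q0 ndB1q2a pcB2 cut_pm_022_a Ext.none :=
  certB2 (fam := false) (s1 := true) (s2 := false) (a := 0) (b := 2) (c := 2) (cn := .pp) (n1 := ndB0q0) (n2 := ndB1q2a) (pc := pcB2) (cut := cut_pm_022_a) (xt := Ext.none) (P1 := 0) (W1 := 536870912) (P2 := 0) (W2 := 536870912) (P3 := 818728140) (W3 := 40265320) (N0 := 3) (En := eng) (mo := mog) (C1 := cd0q0) (C2 := cd1q2a) (C3 := pd2)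
    rfl (fun _ => rfl) s8_pm_022_a

noncomputable def cut_pm_022_b : Cut := Cut.of [[⟨0, 0, 0, 67108864⟩, ⟨1, 1, 0, 67108864⟩, ⟨2, 1, 0, 67108864⟩]]

noncomputable def f_pm_022_b : ℕ → ℕ → ℕ → ℕ → Bool := onCell 0 536870912 1073741824 536870912 818728140 40265320
    (rowB 3 eng mog cd0q0 cd1q2b pd2 1 false true false .pp 0 2 2 (qsf 0 536870912 1239849684 370763052 2) ndB0q0 ndB1q2b pcB2 cut_pm_022_b Ext.none)

def k0_pm_022_b : ∃ t, chk3 f_pm_022_b t 2 2 1 = true :=
  ⟨(a (b (a (b (l 1) (a (b (l 1) (l 373158240423)) (b (l 284574539703) (l 16439984)))) (b (a (b (l 1) (a (l 1) (l 276521228071))) (a (b (l 1) (l 264173304743)) (b (a (l 1) (l 286721694935)) (l 66067807623)))) (a (b (a (l 271152618967) (l 16344296)) (l 16233184)) (b (b (l 16273992) (l 16262424)) (l 16243576))))) (a (b (a (b (a (l 227128996215) (l 16406016)) (a (l 16336456) (l 16332480))) (b (l 16395488) (l 16323512))) (a (b (l 16261720) (l 16190192)) (l 16218640))) (b (a (l 16284328) (l 16201232)) (l 16234976)))) (b (b (a (b (a (b (a (l 292090386007)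 (c (l 16190048) (l 16149288))) (a (l 16220968) (l 16166296))) (b (c (l 16129744) (l 16066144)) (l 16087488))) (a (c (l 16198632) (l 16171128)) (c (l 16100624) (l 16070168)))) (b (a (c (l 16010184) (l 15966224)) (c (l 15923880) (l 15874888))) (a (c (l 16011752) (l 15977368)) (c (l 15933544) (l 15894288))))) (a (a (b (l 16255320) (l 16154696)) (b (l 16080328) (l 16072096))) (b (a (l 15997920) (l 15925488)) (a (l 15998200) (l 15934016))))) (a (b (a (b (l 16135168) (l 16113512)) (l 16096648)) (l 16051184)) (b (a (l 15993632) (l 15941832)) (l 16088960))))), by decide +kernel⟩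

def k1_pm_022_b : ∃ t, chk3 f_pm_022_b t 3 2 1 = true :=
  ⟨(a (b (a (b (b (a (c (l 15848968) (l 15795168)) (c (l 15785440) (l 15727560))) (a (l 15907400) (c (l 15809912) (l 15762080)))) (b (a (l 15863688) (l 15812528)) (l 15857160))) (b (b (c (a (l 15731848) (l 15687496)) (a (l 15670056) (l 15621592))) (a (l 15800408) (c (l 15725736) (l 15670080)))) (b (a (l 15770856) (l 15738200)) (l 15787552)))) (a (b (l 15986928) (l 15908584)) (b (l 15833128) (l 15886016)))) (b (a (b (b (a (c (l 15652768) (l 15582536)) (c (l 15627928) (l 15552784))) (a (c (l 15697768) (l 15637912)) (c (l 15679264) (l 15614592)))) (b (a (l 15714856) (l 15700832)) (l 15754336))) (b (a (b (c (l 15610672) (l 15530064)) (c (l 15669752) (l 15599488))) (b (c (l 15606136) (l 15520328)) (c (l 15672800) (l 15597496)))) (b (a (l 9762389847) (l 2)) (l 2)))) (a (b (l 15819864) (l 2)) (l 2)))), by decide +kernel⟩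

def k2_pm_022_b : ∃ t, chk3 f_pm_022_b t 1 3 1 = true :=
  ⟨(a (b (a (b (a (b (l 16119496) (l 16053904)) (l 16073576)) (a (b (l 15991208) (l 15931744)) (l 15962280))) (a (b (l 16006336) (l 15948496)) (b (l 15952472) (l 15929600)))) (a (b (a (l 15870072) (l 15864024)) (a (l 15749536) (l 15779520))) (b (a (l 15873128) (l 2)) (l 2)))) (b (a (a (b (l 15927680) (l 2)) (l 2)) (l 2)) (l 2))), by decide +kernel⟩

theorem s3_pm_022_b : ∃ t, chk3 f_pm_022_b t 1 2 1 = true := ex3_a k0_pm_022_b k1_pm_022_b

theorem s4_pm_022_b : ∃ t, chk3 f_pm_022_b t 1 1 1 = true := ex3_b s3_pm_022_b k2_pm_022_b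

theorem c_pm_022_b : CertB 0 536870912 1239849684 370763052 818728140 40265320 3 eng mog cd0q0 cd1q2b pd2 false true false .pp 0 2 2
    ndB0q0 ndB1q2b pcB2 cut_pm_022_b Ext.none :=
  certB1 (fam := false) (s1 := true) (s2 := false) (a := 0) (b := 2) (c := 2) (cn := .pp) (n1 := ndB0q0) (n2 := ndB1q2b) (pc := pcB2) (cut := cut_pm_022_b) (xt := Ext.none) (P1 := 0) (W1 := 536870912) (P2 := 1239849684) (W2 := 370763052) (P3 := 818728140) (W3 := 40265320) (N0 := 3) (En := eng) (mo := mog) (C1 := cd0q0) (C2 := cd1q2b) (C3 := pd2)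
    rfl (fun _ => rfl) s4_pm_022_b

noncomputable def f_pm_023 : ℕ → ℕ → ℕ → ℕ → Bool := onCell 0 536870912 1073741824 536870912 818728140 40265320
    (rowB 3 eng mog cd0q0 cd1q3 pd2 1 false true false .up 0 2 3 (qsf 0 536870912 1610612736 536870912 2) ndB0q0 ndB1q3 pcB2 Cut.none Ext.none)

def k0_pm_023 : ∃ t, chk3 f_pm_023 t 1 1 1 = true :=
  ⟨(b (a (b (l 1) (a (l 1) (a (l 1) (b (l 1) (l 15987504))))) (a (b (a (l 1) (b (l 1) (l 371009652471))) (a (b (l 15907424) (l 15930872)) (b (l 15855432) (l 15901432)))) (b (a (b (b (l 1) (a (l 1) (l 15666736))) (b (a (l 15736760) (l 15719728)) (l 15773240))) (b (a (b (l 279741137879) (c (l 15683504) (l 15618472))) (b (l 15576512) (l 15647104))) (b (a (l 15711616) (l 15714080)) (l 15770904)))) (a (b (l 15834432) (l 15904600)) (b (l 15855232) (l 15956024)))))) (a (b (a (b (l 1) (l 416107188199)) (a (b (l 16026352) (l 15942296)) (b (l 15971192) (l 15935832)))) (a (b (l 354366748999) (a (l 15736656) (l 15775312))) (b (a (l 15870408) (l 15885240)) (l 16060712)))) (b (a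 (b (l 15936224) (l 15945592)) (a (l 15992136) (l 16088480))) (a (b (l 15942736) (l 15927808)) (a (l 16105744) (b (l 16224376) (l 16325800))))))), by decide +kernel⟩

theorem c_pm_023 : CertB 0 536870912 1610612736 536870912 818728140 40265320 3 eng mog cd0q0 cd1q3 pd2 false true false .up 0 2 3
    ndB0q0 ndB1q3 pcB2 Cut.none Ext.none :=
  certB1 (fam := false) (s1 := true) (s2 := false) (a := 0) (b := 2) (c := 3) (cn := .up) (n1 := ndB0q0) (n2 := ndB1q3) (pc := pcB2) (cut := Cut.none) (xt := Ext.none) (P1 := 0) (W1 := 536870912) (P2 := 1610612736) (W2 := 536870912) (P3 := 818728140) (W3 := 40265320) (N0 := 3) (En := eng) (mo := mog) (C1 := cd0q0) (C2 := cd1q3) (C3 := pd2)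
    rfl (fun _ => rfl) k0_pm_023

noncomputable def f_pm_033 : ℕ → ℕ → ℕ → ℕ → Bool := onCell 1610612736 536870912 1610612736 536870912 818728140 40265320
    (rowB 3 eng mog cd0q0 cd1q3 pd3 2 false true false .pnn 0 3 3 (qsf 0 536870912 1610612736 536870912 3) ndB0q0 ndB1q3 pcB3 Cut.none Ext.none)

def k0_pm_033 : ∃ t, chk3 f_pm_033 t 1 1 1 = true :=
  ⟨(a (b (a (a (b (b (l 4) (l 708365794647)) (b (l 15754968) (l 15807544))) (l 4)) (l 4)) (a (b (a (b (l 15848896) (l 16049352)) (b (l 15819864) (l 15990872))) (a (b (l 16223768) (l 16385448)) (b (l 16169808) (l 16310440)))) (b (l 4) (a (b (l 16128376) (l 16274048)) (l 4))))) (l 4)), by decide +kernel⟩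

theorem c_pm_033 : CertB 0 536870912 1610612736 536870912 818728140 40265320 3 eng mog cd0q0 cd1q3 pd3 false true false .pnn 0 3 3
    ndB0q0 ndB1q3 pcB3 Cut.none Ext.none :=
  certB2 (fam := false) (s1 := true) (s2 := false) (a := 0) (b := 3) (c := 3) (cn := .pnn) (n1 := ndB0q0) (n2 := ndB1q3) (pc := pcB3) (cut := Cut.none) (xt := Ext.none) (P1 := 0) (W1 := 536870912) (P2 := 1610612736) (W2 := 536870912) (P3 := 818728140) (W3 := 40265320) (N0 := 3) (En := eng) (mo := mog) (C1 := cd0q0) (C2 := cd1q3) (C3 := pd3)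
    rfl (fun _ => rfl) k0_pm_033

noncomputable def f_pm_101 : ℕ → ℕ → ℕ → ℕ → Bool := onCell 0 536870912 536870912 536870912 818728140 40265320
    (rowB 3 eng mog cd0q1 cd1q1 pd0 2 false true false .npn 1 0 1 (qsf 536870912 536870912 536870912 536870912 0) ndB0q1 ndB1q1 pcB0 Cut.none Ext.none)

def k0_pm_101 : ∃ t, chk3 f_pm_101 t 1 1 1 = true :=
  ⟨(a (b (l 4) (a (b (a (b (a (b (l 4) (l 15976608)) (l 4)) (b (a (l 15908504) (l 15923376)) (a (l 15886576) (l 15870584)))) (b (l 4) (b (l 4) (a (l 15864376) (l 15870456))))) (b (a (a (b (l 15894616) (l 15922496)) (b (l 15863704) (l 15878952))) (a (b (l 15829936) (l 15831616)) (b (l 15799824) (l 15781912)))) (a (b (a (b (l 15960632) (l 15996064)) (l 15912416)) (a (b (l 16107864) (a (l 16093824) (l 16054640))) (b (l 15953600) (b (l 15979128) (l 16001656))))) (b (a (l 15851672) (l 15787776)) (a (l 15928368) (l 15808944)))))) (b (l 4) (a (b (a (b (l 15784576) (l 15729736)) (b (l 4) (l 15735280))) (b (a (l 15721688) (l 15682912)) (a (a (l 15749888) (l 15708912)) (l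 15666528)))) (b (a (b (l 4) (l 15784424)) (l 4)) (b (a (l 15737160) (l 15780552)) (a (l 15710504) (l 15746024)))))))) (b (l 4) (a (b (l 4) (b (l 4) (a (a (b (l 15821112) (l 15779376)) (b (l 4) (l 15813720))) (a (b (l 4) (l 15850664)) (l 4))))) (l 4)))), by decide +kernel⟩

theorem c_pm_101 : CertB 536870912 536870912 536870912 536870912 818728140 40265320 3 eng mog cd0q1 cd1q1 pd0 false true false .npn 1 0 1
    ndB0q1 ndB1q1 pcB0 Cut.none Ext.none :=
  certB2 (fam := false) (s1 := true) (s2 := false) (a := 1) (b := 0) (c := 1) (cn := .npn) (n1 := ndB0q1) (n2 := ndB1q1) (pc := pcB0) (cut := Cut.none) (xt := Ext.none) (P1 := 536870912) (W1 := 536870912) (P2 := 536870912) (W2 := 536870912) (P3 := 818728140) (W3 := 40265320) (N0 := 3) (En := eng) (mo := mog) (C1 := cd0q1) (C2 := cd1q1) (C3 := pd0)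
    rfl (fun _ => rfl) k0_pm_101

noncomputable def cut_pm_102_a : Cut := Cut.of [[⟨0, 1, 0, 67108864⟩, ⟨1, 0, 0, 67108864⟩, ⟨2, 1, 0, 67108864⟩], [⟨0, 0, 1, 26214400⟩, ⟨1, 1, 2, 26214400⟩, ⟨2, 1, 0, 33554432⟩]]

noncomputable def xt_pm_102_a : Ext := extD2 3 ⟨4, 1, 1, 5, 13, 5, 23, 25, 43, 100, 1, 8⟩ eng cd0q1 cd1q2a pd0 false true false .npp 1 0 2 rfl ndB0q1 ndB1q2a pcB0

noncomputable def f_pm_102_a : ℕ → ℕ → ℕ → ℕ → Bool := onCell 536870912 536870912 0 536870912 818728140 40265320
    (rowB 3 eng mog cd0q1 cd1q2a pd0 0 false true false .npp 1 0 2 (qsf 536870912 536870912 0 536870912 0) ndB0q1 ndB1q2a pcB0 cut_pm_102_a xt_pm_102_a)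

def k0_pm_102_a : ∃ t, chk3 f_pm_102_a t 2 2 1 = true :=
  ⟨(a (b (l 2) (a (l 2) (b (l 2) (l 104789889335)))) (a (b (a (b (l 16696056) (b (l 16583184) (l 16584488))) (b (a (l 16633952) (l 16649320)) (a (l 16594808) (l 16610000)))) (b (a (a (l 16529624) (l 16542768)) (b (l 16592640) (l 16573464))) (a (l 16492488) (l 16515424)))) (b (a (b (a (l 16665552) (l 16703992)) (a (l 16626144) (l 16644112))) (b (a (b (l 16710200) (l 16691320)) (b (a (l 16722144) (l 16728744)) (l 16708800))) (a (l 16663760) (c (l 16687224) (l 16680192))))) (a (a (b (l 16605624) (l 16538592)) (b (l 16604544) (l 16536576))) (b (c (l 16640904) (l 16632424)) (b (l 16601792) (l 16572952))))))), by decide +kernel⟩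

def k1_pm_102_a : ∃ t, chk3 f_pm_102_a t 4 3 1 = true :=
  ⟨(b (a (l 2) (b (l 24259216727) (a (l 16367096) (l 16364400)))) (a (b (a (l 2) (l 17816597159)) (a (b (l 16297752) (a (b (l 16254560) (l 16234848)) (l 16234128))) (b (l 16258840) (b (l 16229576) (l 16229016))))) (b (a (l 16361000) (b (l 16310280) (l 16276320))) (b (a (l 16244968) (l 16239408)) (a (a (l 16206472) (l 16200632)) (b (l 16208384) (a (l 16186136) (l 16186672)))))))), by decide +kernel⟩

def k2_pm_102_a : ∃ t, chk3 f_pm_102_a t 5 6 1 = true :=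
  ⟨(a (b (a (l 16435960) (l 16447984)) (a (l 16371696) (l 16389728))) (a (b (l 16471976) (l 16418384)) (b (l 16514712) (l 16466400)))), by decide +kernel⟩

def k3_pm_102_a : ∃ t, chk3 f_pm_102_a t 10 7 1 = true :=
  ⟨(b (a (b (l 16317144) (l 16283296)) (b (l 16336304) (l 16304088))) (b (a (l 16268048) (a (l 16263440) (l 16279224))) (a (b (a (l 16213400) (l 16222472)) (a (c (l 16207920) (l 16175576)) (c (b (l 16225168) (l 16237432)) (l 16183248)))) (a (b (l 16236088) (b (l 16243048) (c (a (l 16230032) (l 139064339796951087)) (l 16190192)))) (b (l 16254400) (a (b (l 16236608) (c (l 139189478032097327) (l 16203448))) (b (l 16289936) (c (a (l 139293106980929583) (l 139366980476289071)) (l 16214064))))))))), by decide +kernel⟩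

def k4_pm_102_a : ∃ t, chk3 f_pm_102_a t 11 14 1 = true :=
  ⟨(a (b (l 16368480) (l 16340128)) (b (l 16422968) (l 16402104))), by decide +kernel⟩

def k5_pm_102_a : ∃ t, chk3 f_pm_102_a t 22 15 1 = true :=
  ⟨(b (a (l 16299672) (l 16327208)) (b (a (b (l 16281800) (l 16274952)) (b (l 16313280) (l 16350376))) (b (a (c (l 139639865525649455) (l 16241928)) (c (l 140043317654110255) (l 139445526802645039))) (a (a (c (c (a (l 139578567746437167) (l 139667765645213743)) (l 139350968790761519)) (l 138939339039080495)) (c (b (l 139684464478634031) (c (a (l 139752153181208623) (l 139858049916305455)) (l 139506068682915887))) (l 139082344299888687))) (c (a (b (l 139895776912244783) (c (c (a (l 140050258332303407) (l 140175877604163631)) (l 139952814093369391)) (l 139712983069589551))) (b (l 140141036774244399) (b (l 140129766780485679) (c (c (a (l 140309468251996207) (l 140455565889142831)) (l 140209000355594287)) (l 139949240679727151))))) (a (l 139253936868786223) (l 139457346561753135))))))), by decide +kernel⟩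

def k6_pm_102_a : ∃ t, chk3 f_pm_102_a t 23 30 1 = true :=
  ⟨(a (l 16385368) (c (l 16439272) (l 16386072))), by decide +kernel⟩

def k7_pm_102_a : ∃ t, chk3 f_pm_102_a t 46 31 1 = true :=
  ⟨(b (b (l 16356040) (l 141361425977606191)) (b (c (l 141124962326380591) (l 139896395380817967)) (c (a (b (l 140424229795037231) (c (b (l 140600770170339375) (c (a (l 140612108888883247) (l 140779784446099503)) (l 140510197883273263))) (l 140235113760079919))) (b (l 140749479144079407) (b (l 140933853504143407) (c (a (l 140862385273372719) (l 141050882836217903)) (l 140558713842810927))))) (a (l 140056649167339567) (b (l 139989372857221167) (l 140142067533299759)))))), by decide +kernel⟩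

def k8_pm_102_a : ∃ t, chk3 f_pm_102_a t 47 62 1 = true :=
  ⟨(b (b (l 16411648) (l 16475144)) (a (l 141094931935903791) (b (c (l 16466768) (l 16394024)) (a (l 141004772035248175) (c (a (l 141526490408615983) (l 141615001112428591)) (a (l 16398520) (l 16406128))))))), by decide +kernel⟩

def k9_pm_102_a : ∃ t, chk3 f_pm_102_a t 47 63 1 = true :=
  ⟨(b (b (a (l 141627301725192239) (a (a (l 140960104370208815) (b (l 141056311655202863) (c (l 141446844524347439) (l 140656845257375791)))) (c (b (l 141568203142840367) (l 141561812232781871)) (l 140767552356007983)))) (a (a (l 140812632314003503) (c (l 141210174603182127) (l 140422649238781999))) (c (a (a (b (l 141358196383907887) (a (l 141340260599152687) (l 141380736379256879))) (l 141618574498955311)) (l 141548549375279151)) (a (a (b (l 140562218521608239) (l 140546481760829487)) (l 140624272223125551)) (l 140720342071902255))))) (a (b (a (c (l 141025868934823983) (l 140227004855271471)) (a (b (l 140771469377126447) (c (a (l 141156710845202479) (b (l 141206188877545519)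 (l 141389532443295791))) (l 140357090850553903))) (b (c (a (l 141250512947019823) (l 141656232746778671)) (l 140453160695382063)) (c (b (a (l 141253261728481327) (l 141290920009564207)) (l 141267417945145391)) (l 140432888448598063))))) (c (b (a (l 141217665000030255) (a (a (b (l 141344246300377135) (c (a (l 141362250845618223) (l 141383347729317935)) (l 140955431459405871))) (b (l 141387608298979375) (l 141202271870697519))) (l 141258828011143215))) (a (a (c (l 141201103642689583) (l 140788030783045679)) (a (b (l 141069986852667439) (a (l 141061809234559023) (b (l 141086685689724975) (a (l 141442996176420911) (b (l 141455090806571055) (l 141454678489989167)))))) (b (c (a (l 141317308300165167) (b (l 141341497560465455) (l 141341566280663087))) (l 141090602662477871)) (c (b (a (l 141500445707255855) (l 141339848294170671)) (l 141328509578952751)) (l 141086342055559215))))) (b (c (l 141605930124951599) (l 141001404800598063)) (c (a (l 141384790841802799) (l 141459901245636655)) (l 140993708219285551))))) (b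 (a (l 140212505046106159) (a (a (b (l 140328503544447023) (l 140320188487499823)) (l 140359427316023343)) (l 140406568886992943))) (a (a (l 140158354090328111) (a (l 140406500133879855) (b (l 140272703321030703) (l 140262051801563183)))) (c (l 140565585791303727) (l 140127773917134895)))))) (b (c (a (c (l 141590743148281903) (l 141175196386459695)) (c (l 141744674808479791) (l 141319507317981231))) (a (l 140541671401439279) (l 140671551239946287))) (c (a (c (b (l 141582221935951919) (a (c (l 141645787468185647) (l 141430351863939119)) (c (l 14) (l 141507730010964015)))) (b (l 141154374385500207) (c (l 141250856553857071) (l 141031366500237359)))) (c (c (l 14) (b (l 141631631250292783) (a (l 141587169742684207) (l 141668671059099695)))) (b (l 141302877205872687) (a (l 141253880211980335) (l 141331533236928559))))) (a (c (l 140710309038047279) (l 140266930885066799)) (c (b (l 140859567771172911) (l 140840601195069487)) (l 140396673284538415))))))), by decide +kernel⟩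

def k10_pm_102_a : ∃ t, chk3 f_pm_102_a t 12 4 1 = true :=
  ⟨(a (b (a (c (b (a (l 16734960) (l 16738080)) (l 16724656)) (b (a (l 16732744) (l 16736808)) (l 16721008))) (c (b (b (a (b (a (l 16741816) (l 81235193271)) (l 16740392)) (b (l 3) (a (l 79087708119) (l 90362007559)))) (a (l 16737760) (a (l 16738512) (b (l 76940222903) (l 16737968))))) (a (l 16731264) (l 16733912))) (b (b (a (a (l 16741152) (l 67276552119)) (b (l 3) (l 80698326967))) (a (l 16736944) (a (l 16738464) (l 61907842087)))) (a (l 16728904) (l 16732496))))) (a (c (l 16704896) (l 16719984)) (b (a (l 16718968) (l 16724176)) (l 16710736)))) (b (a (a (b (b (l 3) (a (b (l 91972606247) (a (l 68350293671) (l 90898866727))) (a (l 93046343383) (l 3)))) (c (b (a (l 16736256) (b (l 74255865079) (l 16735792))) (l 16733784)) (b (a (l 16736104) (l 60834098711)) (l 16732808)))) (b (l 3) (c (b (a (b (l 79624570791) (l 74255863399)) (l 96267578183)) (a (l 16734344) (b (l 74792732759) (l 16733944)))) (b (b (l 80161440647) (a (l 16735976) (l 79624576983)))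 (a (l 16734088) (l 60834097335)))))) (a (b (l 3) (b (l 3) (c (a (b (l 83382662567) (l 75866473095)) (l 98951929127)) (b (l 82845791863) (a (l 16734040) (l 81772057479)))))) (l 3))) (a (c (b (a (l 16729216) (l 16731296)) (l 16724256)) (b (l 16732368) (l 16720600))) (b (c (b (a (a (l 16732776) (b (l 76940213319) (l 16732424))) (a (b (l 86067013143) (l 78550824439)) (b (l 3) (l 87140752887)))) (a (l 16731296) (a (l 16731552) (b (l 80698306535) (l 16731240))))) (a (b (a (l 16732416) (l 16732712)) (l 16730200)) (b (b (l 84993272615) (a (l 16732384) (l 83919538487))) (l 63518445463)))) (c (l 16732920) (l 16730296)))))), by decide +kernel⟩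

def k11_pm_102_a : ∃ t, chk3 f_pm_102_a t 12 5 1 = true :=
  ⟨(a (b (a (l 16650176) (c (l 16696144) (l 16689456))) (b (l 16654424) (l 16622136))) (b (a (b (l 16714832) (l 16706080)) (b (a (l 16723112) (l 16726744)) (l 16721272))) (a (l 16663352) (b (l 16715872) (l 16701768))))), by decide +kernel⟩

def k12_pm_102_a : ∃ t, chk3 f_pm_102_a t 13 4 1 = true :=
  ⟨(a (b (l 3) (a (a (b (b (l 3) (a (c (b (l 88214493079) (l 82845788535)) (l 83382660631)) (c (a (l 103783762631) (l 104320631527)) (l 88214495783)))) (b (a (l 16730456) (b (c (l 84993270663) (l 16730416)) (l 16730248))) (l 16729744))) (b (l 3) (c (b (a (b (b (l 88214493527) (l 92509460215)) (l 87677623527)) (c (l 109152469815) (l 105394372279))) (a (l 16730120) (b (l 89825105623) (l 16729840)))) (b (a (l 87140754951) (l 91435719207)) (l 71571504327))))) (a (b (l 3) (b (l 3) (c (a (b (a (l 94656942039) (l 111299952071)) (l 94656942695)) (b (l 3) (a (l 96267553911) (l 115058047479)))) (a (l 91435720615) (l 98415039895))))) (l 3)))) (l 3)), by decide +kernel⟩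

def k13_pm_102_a : ∃ t, chk3 f_pm_102_a t 26 5 1 = true :=
  ⟨(b (a (c (b (a (l 16730040) (l 16730632)) (l 16731272)) (b (l 16733208) (l 16728160))) (b (c (a (b (a (l 16729864) (b (l 98415038071) (l 16729472))) (l 16730600)) (b (a (b (a (l 98415036679) (l 119353013767)) (l 102173133783)) (b (l 3) (a (l 101636261575) (l 123111109095)))) (a (l 16729664) (b (l 103246875063) (l 16729104))))) (a (b (l 80161437367) (l 16729320)) (b (a (l 95730687735) (l 109689329351)) (l 90898855207)))) (a (l 16731816) (c (l 16732056) (l 16730400))))) (a (b (l 16709368) (l 16728248)) (b (c (l 16737256) (l 16713560)) (l 16741776)))), by decide +kernel⟩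

def k14_pm_102_a : ∃ t, chk3 f_pm_102_a t 27 10 1 = true :=
  ⟨(a (b (a (b (l 3) (c (a (b (a (l 101636260951) (l 125795462567)) (a (l 16728264) (l 104320617783))) (b (l 3) (a (l 102710002455) (l 129553557831)))) (a (l 101099397703) (l 125258587671)))) (l 3)) (c (a (b (a (l 16729464) (b (a (l 16727952) (l 105394359911)) (l 16728736))) (l 16731320)) (b (a (b (a (b (l 113984294839) (l 105931232327)) (l 131701040295)) (a (l 16727624) (b (l 115058038007) (l 16727128)))) (b (l 3) (a (b (l 132774782839) (l 117205522183)) (l 3)))) (a (l 16729296) (b (a (l 16727320) (b (l 119353006055) (l 16726800))) (l 16728424))))) (a (b (a (l 16728248) (l 99488787399)) (l 16729696)) (b (a (a (l 106468108631) (l 111836817319)) (b (l 3) (a (l 111299931975) (l 3)))) (b (a (l 16727080) (a (l 16725832) (l 110226200983))) (l 16717112)))))) (b (l 3) (b (l 3) (a (c (a (b (a (b (l 3) (l 121500490135)) (l 3)) (a (l 16727088) (b (l 123647974231) (l 16726552)))) (b (l 3) (a (b (l 3) (l 125795458215)) (l 3)))) (a (b (a (l 124184844263) (l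 3)) (a (l 16725392) (l 113447426119))) (b (l 3) (a (l 133311654439) (l 3))))) (l 3))))), by decide +kernel⟩

def k15_pm_102_a : ∃ t, chk3 f_pm_102_a t 27 11 1 = true :=
  ⟨(a (b (c (a (l 16736240) (l 16728656)) (b (l 16731336) (l 16735016))) (b (l 16740696) (l 16745968))) (b (a (c (b (a (l 16729368) (b (a (l 116131784343) (b (l 127942942231) (l 118816139671))) (l 16728440))) (a (l 16733664) (l 16731792))) (b (a (l 16716992) (b (a (l 16725048) (b (l 133311655591) (l 16724416))) (l 16726448))) (l 16730672))) (c (b (a (b (a (b (l 3) (a (l 123647976791) (l 135459136167))) (l 3)) (a (b (b (l 122037365223) (l 16726592)) (l 16727392)) (b (a (b (l 134385394535) (l 123647976807)) (l 135459135271)) (l 122037364487)))) (b (l 3) (a (b (l 3) (a (l 131701039607) (l 135996005319))) (l 3)))) (a (b (l 16725864) (l 16730752)) (b (a (b (a (l 16726512) (l 124184847287)) (l 16727344)) (b (a (l 131701038807) (l 147270296439)) (a (l 16726496) (l 124721717463)))) (l 16723240)))) (b (a (b (a (l 135996008615) (l 3)) (a (b (a (l 16724568)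 (l 124721722839)) (l 16725320)) (b (l 136532880951) (l 123647979991)))) (b (l 3) (a (l 138680362983) (l 3)))) (a (b (l 16721096) (l 16728560)) (b (a (b (l 125258593207) (l 16725104)) (b (l 137069750535) (l 126332334903))) (l 16726200)))))) (a (c (l 16740184) (l 16737992)) (b (c (l 16733208) (l 16709944)) (l 16737192))))), by decide +kernel⟩

def k16_pm_102_a : ∃ t, chk3 f_pm_102_a t 14 4 1 = true :=
  ⟨(l 3), by decide +kernel⟩

def k17_pm_102_a : ∃ t, chk3 f_pm_102_a t 28 10 1 = true :=
  ⟨(l 3), by decide +kernel⟩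

def k18_pm_102_a : ∃ t, chk3 f_pm_102_a t 56 22 1 = true :=
  ⟨(c (a (b (l 3) (a (c (b (a (b (l 3) (l 137606621591)) (l 3)) (a (b (l 124721719847) (l 16727816)) (b (l 138680363335) (l 126332332343)))) (b (a (b (l 3) (l 132774781447)) (l 3)) (a (b (l 122574235159) (l 16726840)) (b (l 133848523159) (l 124184848199))))) (a (a (b (l 3) (c (l 140290975191) (l 134922264087))) (l 3)) (l 3)))) (l 3)) (a (b (l 3) (a (b (a (l 140290975271) (l 3)) (a (b (l 127942947671) (l 16725008)) (b (l 138680362727) (l 129016689511)))) (b (l 3) (a (l 141901587527) (l 3))))) (l 3))), by decide +kernel⟩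

def k19_pm_102_a : ∃ t, chk3 f_pm_102_a t 56 23 1 = true :=
  ⟨(a (c (c (b (a (b (l 16729032) (l 16731480)) (b (a (b (l 127406073863) (l 16727904)) (b (l 141901588711) (a (l 123647977767) (l 136532882039)))) (l 16723920))) (l 16734168)) (b (a (b (l 16728040) (l 16730472)) (b (a (b (l 125258590215) (l 16726912)) (b (l 136532877607) (l 126332332247))) (l 16722928))) (l 16712184))) (b (a (b (l 16723568) (l 16728624)) (b (a (b (l 130090431447) (l 16725072)) (b (l 140827845863) (l 131701044343))) (a (l 16726912) (l 16725784)))) (l 16720832))) (c (b (c (a (b (a (b (l 3) (l 144585943239)) (l 3)) (a (b (a (l 124184848519) (l 138680365735)) (l 16728032)) (b (a (b (l 3) (l 137606623159)) (l 3)) (a (l 125258590359) (l 140827849431))))) (b (l 3) (l 3))) (a (b (a (b (l 3) (l 138143490327)) (l 3)) (a (b (l 131701045239) (l 16727072)) (b (l 142975328567) (l 132774787191)))) (b (l 3) (l 3)))) (c (a (b (a (l 16729936) (l 16726136)) (l 16731936)) (b (a (b (a (l 127942945703) (b (l 3) (l 134385399447))) (l 16724272)) (b (l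 3) (a (l 137069754775) (b (l 3) (l 136532883207))))) (a (l 16730160) (b (l 115594913223) (l 16729624))))) (a (b (a (l 16728968) (l 16727824)) (l 16730992)) (b (a (b (l 133848529175) (l 16727312)) (b (l 3) (a (l 134385399975) (l 138680364247)))) (a (l 16729272) (b (l 126332337223) (l 16728784))))))) (b (a (b (a (b (l 3) (l 141901587319)) (l 3)) (a (b (l 133311657255) (l 16725288)) (b (l 142975328951) (l 137069753783)))) (b (l 3) (l 3))) (a (b (a (l 16727200) (b (l 16725464) (l 16726744))) (l 16729264)) (b (a (b (a (l 132237915527) (l 140290977591)) (l 16725664)) (b (l 3) (a (l 132774785847) (l 141364719431)))) (a (l 16727640) (b (l 125795464599) (l 16727240)))))))), by decide +kernel⟩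

def k20_pm_102_a : ∃ t, chk3 f_pm_102_a t 57 11 1 = true :=
  ⟨(b (l 3) (b (l 3) (b (l 3) (a (a (c (a (c (b (a (b (l 137606625095) (l 16728384)) (b (l 3) (l 138680366983))) (l 116131784359)) (b (a (l 129016687991) (l 140827848119)) (l 122037367495))) (b (l 3) (a (b (l 147270302967) (l 136532886311)) (b (l 3) (l 148344044807))))) (a (b (a (l 133848527303) (l 142975332423)) (l 126869206807)) (b (l 3) (a (l 135996010983) (l 137069746695))))) (l 3)) (l 3))))), by decide +kernel⟩

def k21_pm_102_a : ∃ t, chk3 f_pm_102_a t 29 5 1 = true :=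
  ⟨(l 3), by decide +kernel⟩

def k22_pm_102_a : ∃ t, chk3 f_pm_102_a t 15 2 1 = true :=
  ⟨(l 3), by decide +kernel⟩

def k23_pm_102_a : ∃ t, chk3 f_pm_102_a t 6 6 1 = true :=
  ⟨(a (b (b (a (l 16589136) (a (l 16641400) (l 16677344))) (a (l 16571848) (a (l 16636368) (l 16676488)))) (a (l 16602704) (b (l 16641912) (a (l 16601120) (l 16655224))))) (b (a (b (a (l 16708448) (l 16738856)) (a (l 16715128) (l 16742080))) (a (b (c (l 16754952) (l 16752472)) (l 16750248)) (b (c (l 16748752) (l 16746424)) (l 16757816)))) (a (b (a (b (l 16718720) (l 16714016)) (b (l 16748952) (l 16750272))) (a (l 16705256) (l 16741392))) (b (a (l 16757888) (l 16734648)) (a (l 16736008) (l 16762280)))))), by decide +kernel⟩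

def k24_pm_102_a : ∃ t, chk3 f_pm_102_a t 12 14 1 = true :=
  ⟨(a (b (l 16507520) (b (l 16500680) (a (l 16471040) (a (l 16516136) (l 16548368))))) (b (a (b (l 16591440) (l 16589480)) (b (l 16648576) (l 16645736))) (a (b (l 16590480) (l 16591720)) (a (l 16633680) (l 16663184))))), by decide +kernel⟩

def k25_pm_102_a : ∃ t, chk3 f_pm_102_a t 24 30 1 = true :=
  ⟨(a (b (l 16471032) (a (b (l 16457104) (l 16459536)) (b (l 16490552) (b (l 16491944) (l 16492168))))) (b (a (a (l 16512208) (l 16527872)) (l 16549424)) (b (l 16556456) (b (l 16536088) (l 16536840))))), by decide +kernel⟩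

def k26_pm_102_a : ∃ t, chk3 f_pm_102_a t 24 62 1 = true :=
  ⟨(a (c (a (a (b (l 16489984) (b (l 141736772045897775) (l 16495176))) (b (c (l 16525480) (l 16488600)) (l 141880464504356911))) (b (l 16530200) (l 142111361994883119))) (a (b (b (l 16426000) (l 16488272)) (b (c (l 16443520) (l 16405056)) (l 16422896))) (b (l 16453928) (l 141298272978305071)))) (b (a (l 16585264) (l 16597392)) (a (c (l 142445270002466863) (l 141593835510202415)) (c (l 14) (l 141920527971172399))))), by decide +kernel⟩

def k27_pm_102_a : ∃ t, chk3 f_pm_102_a t 48 63 1 = true :=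
  ⟨(b (b (c (a (l 141788174235451439) (l 142109369137119279)) (a (l 140964158820532271) (l 141246664649064495))) (a (c (a (l 141699594816913455) (l 141858336841449519)) (l 140921552742318127)) (c (a (l 142025256485322799) (l 142200628626505775)) (a (l 141138156578603055) (l 141292775433617455))))) (b (a (c (a (c (l 141906440490582063) (l 141471514832388143)) (c (l 14) (l 141631425088192559))) (a (l 140808577905442863) (l 140953163714854959))) (c (c (l 14) (a (l 141799787841290287) (l 141976946689130543))) (a (l 141465948482142255) (c (l 141504843787649071) (l 141026693572214831))))) (a (c (c (a (b (l 142267355186921519) (l 14)) (l 14)) (c (a (b (l 141571776574144559) (a (l 141525253481857071) (l 141608404066025519))) (b (l 141739039815385135) (l 14))) (a (b (l 141346445363740719) (l 141517144545230895)) (b (l 141508485923700783) (a (l 141459969966194735) (l 141544769818132527)))))) (a (c (b (l 141005734128828463) (l 141169767519813679)) (l 140533768669446191)) (c (b (l 141159871947358255) (a (l 141106545625628719)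 (l 141187222308110383))) (l 140858811824734255)))) (a (c (a (c (l 14) (b (l 141752989872390191) (b (l 141751821643333679) (l 14)))) (l 14)) (c (b (l 141322393543671855) (a (l 141270098014273583) (c (l 141477562156957743) (l 141232439733927983)))) (b (l 140841288390361135) (l 140821909497348143)))) (c (l 14) (c (b (l 141493711234744367) (a (b (l 141444301923123247) (l 141620979698712623)) (c (l 14) (l 141406712363008047)))) (b (l 141001267365478447) (a (l 140943336837972015) (l 141027174616956975))))))))), by decide +kernel⟩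

def k28_pm_102_a : ∃ t, chk3 f_pm_102_a t 49 63 1 = true :=
  ⟨(b (a (c (b (l 142463686833094703) (l 14)) (b (l 141559956809170991) (a (l 141455640627462191) (l 141627233196556335)))) (c (l 14) (b (l 141907127677927471) (a (l 141808034177302575) (l 141998387167199279))))) (b (c (l 14) (c (a (a (l 141680078489681967) (l 141864659042369583)) (l 14)) (a (a (l 141190589558308911) (l 141363487797608495)) (a (l 141545938046009391) (l 141738283901009967))))) (c (l 14) (c (c (l 14) (a (a (b (l 141548961706065967) (a (l 141497353371566127) (l 14))) (l 14)) (l 14))) (a (a (b (l 141170179874308143) (a (l 141113348858609711) (l 141201928282406959))) (b (l 141348506953269295) (b (l 141341635006595119) (a (l 141290507707007023) (l 141564698438533167))))) (c (a (b (l 141669564413902895) (l 14)) (l 14)) (a (b (l 141403482546831407) (a (l 141347476164984879) (l 141444576805535791))) (b (l 141598852059316271) (l 14))))))))), by decide +kernel⟩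

def k29_pm_102_a : ∃ t, chk3 f_pm_102_a t 25 30 1 = true :=
  ⟨(a (b (l 16594072) (a (l 16583848) (l 16619280))) (b (l 16651488) (a (l 16640856) (l 16650512)))), by decide +kernel⟩

def k30_pm_102_a : ∃ t, chk3 f_pm_102_a t 25 62 1 = true :=
  ⟨(a (b (a (l 16612560) (l 16627096)) (a (b (l 142919778049359919) (c (l 142997224951889967) (l 16595528))) (b (c (l 16632776) (l 16590576)) (c (l 143102090892312687) (l 14))))) (b (a (l 16636672) (l 16624976)) (b (a (b (l 16613904) (l 16613224)) (l 16633152)) (c (a (l 16625024) (l 16628400)) (a (l 14) (l 16613968)))))), by decide +kernel⟩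

def k31_pm_102_a : ∃ t, chk3 f_pm_102_a t 50 63 1 = true :=
  ⟨(b (a (b (c (l 142969393562140719) (l 142291613229826095)) (c (a (l 14) (l 142966988383273071)) (a (l 142198910641635375) (l 14)))) (c (b (l 143074946697052271) (a (l 142839857360470127) (l 142891809293877359))) (l 14))) (b (c (c (a (a (l 14) (l 142903766472097903)) (a (l 142933728172802159) (l 142973929075359855))) (a (l 14) (a (l 14) (l 142933247127421039)))) (l 14)) (b (c (a (a (l 14) (c (a (l 142779933971595375) (l 142806528413499503)) (l 14))) (a (c (a (l 142832847977447535) (l 142858961382916207)) (l 14)) (c (a (l 142884799910445167) (l 142910432279494767)) (a (l 14) (l 142798350794866799))))) (l 14)) (a (c (a (l 14) (c (c (c (b (a (l 142993582831370351) (l 143019902395269231)) (a (a (l 14) (a (l 14) (l 142997156245454959))) (b (l 143015229470605423) (a (l 143005540023140463) (l 143018665445326959))))) (l 14)) (l 14)) (l 14))) (l 14)) (c (a (c (a (c (b (l 143031722147184751) (b (a (l 143020314712686703) (l 143033371415396463)) (a (c (l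 143031722148020335) (l 143002585085132911)) (c (l 143044710131236975) (l 143015710507319407))))) (l 14)) (b (l 142868719547957359) (b (a (l 142848653459357807) (l 142856075164958831)) (a (c (c (l 143057698114437231) (l 143028767210029167)) (c (b (l 143000523500421231) (l 142998805513388143)) (l 14))) (c (c (l 143070548658684015) (l 143041755193229423)) (c (l 143012755569361007) (l 14))))))) (l 14)) (c (a (b (l 142883356800745583) (b (c (a (l 143072197926060143) (l 143085048470306927)) (l 142848241143152751)) (c (a (c (l 143083399202914415) (l 143054674456952943)) (c (l 143096181027651695) (l 143067593720676463))) (a (c (l 143025812272054383) (b (l 142997568562511983) (l 142995781855985775))) (a (l 143021070627405935) (l 143027530259284079)))))) (a (b (l 143074259510263919) (c (b (l 143097761575567471) (l 143094669198901359)) (b (l 143040793120129135) (c (l 143051719518994543) (l 143022857334128751))))) (b (l 143087110054494319) (b (l 142992071017807983) (c (l 143107382304145519) (c (l 143064570063224943)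 (l 143035845317329007))))))) (a (l 14) (c (b (l 142815187070304367) (a (l 14) (b (l 142996125453156463) (c (b (l 143007739046805615) (l 143005883620802671)) (l 14))))) (l 14))))) (l 14)))))), by decide +kernel⟩

def k32_pm_102_a : ∃ t, chk3 f_pm_102_a t 51 126 1 = true :=
  ⟨(a (c (b (b (l 143002035350716527) (l 142988772490575983)) (a (l 142942730434969711) (l 142992620783747183))) (l 14)) (c (b (b (l 143098586232946799) (l 143085873128472687)) (a (l 143041480340226159) (l 143089309104390255))) (b (a (l 143059141217206383) (l 143109856200179823)) (a (l 143021620379205743) (l 142892771369320559))))), by decide +kernel⟩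

def k33_pm_102_a : ∃ t, chk3 f_pm_102_a t 51 254 1 = true :=
  ⟨(a (c (a (b (l 142921770992844911) (a (l 142894695515684975) (l 142920121726337135))) (b (l 142971936219398255) (b (l 142961559577477231) (l 142954687629197423)))) (l 14)) (c (a (b (l 143021208092606575) (b (l 143010968889589871) (l 143004234380214383))) (b (l 143069449173516399) (c (l 143287702238544111) (l 143004509258334319)))) (b (a (l 142812438289154159) (l 142864046625046639)) (c (a (l 142847760106717295) (l 142898818686566511)) (l 14))))), by decide +kernel⟩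

def k34_pm_102_a : ∃ t, chk3 f_pm_102_a t 102 255 1 = true :=
  ⟨(c (a (b (a (a (l 142927474703876207) (l 142934690251063407)) (a (l 142940462689222767) (l 142947540797423727))) (a (b (c (c (l 143134114184249583) (l 143078176521125999)) (b (l 142994751062917231) (l 142855662841675887))) (c (a (b (l 143094944076562543) (c (l 143120095409389807) (c (l 143077420607455343) (l 143048764581052527)))) (b (l 143107657181823087) (c (l 143132671075664111) (c (l 143090202432192623) (l 143061615125299311))))) (c (b (b (l 143016672579977327) (l 142845904680140911)) (b (a (l 143006295937630319) (l 143019352640323695)) (a (c (l 143018940323496047) (l 14)) (c (l 143031928306696303) (l 143002928682942575))))) (l 14)))) (b (c (c (l 143159196797337839) (l 143103602731663471)) (b (l 143020795748876399) (l 142859236258742383))) (c (c (b (l 143154592592036079) (l 143151568934813935)) (a (a (l 143042167517347951) (l 143093569686978671)) (a (l 143099891879870575) (l 143106214072746095)))) (c (b (a (l 143035089402839151) (l 143048008666562671))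 (a (a (l 143028080015360111) (l 143034539647238255)) (a (l 143040999279083631) (l 143047458910945391)))) (l 14)))))) (b (a (c (l 143166068745404655) (l 142876278694412399)) (c (l 143190739041632495) (l 142901842344001647))) (a (b (c (l 143156516737335535) (c (l 143072953840255087) (l 142836146514509935))) (a (c (b (l 143145384180662511) (l 143142154354245871)) (b (l 142870437536268399) (c (c (l 143071373292683375) (l 143042717266362479)) (c (b (l 143014885873860719) (l 143012893008855151)) (l 14))))) (c (b (l 143157822407966959) (l 143154661311774959)) (b (l 142877653083439215) (c (c (l 143084155117420655) (l 143055567810609263)) (c (b (l 143027873857077359) (l 143025880992071791)) (l 14))))))) (b (c (l 143181324472467695) (c (l 143098311331332207) (l 142861985042006127))) (b (c (l 143176514108670191) (a (l 142883494241042543) (l 142890572349227119))) (a (c (l 143167099539063023) (c (c (l 143096799503188207) (l 143068349635346543)) (c (l 143039762328551535) (b (l 143011999655575663) (l 143009869351616623)))))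 (c (l 143179469046874351) (c (c (l 143109443888955631) (l 143081131460083823)) (c (l 143052612872798319) (b (l 143024918919315567) (l 143022857334816879))))))))))) (l 14)), by decide +kernel⟩

def k35_pm_102_a : ∃ t, chk3 f_pm_102_a t 103 255 2 = true :=
  ⟨(a (b (a (a (l 142980732315074671) (l 142987466825826415)) (c (l 143239461158650095) (l 142952145009311855))) (a (c (b (l 143205857329660143) (c (l 143227091651805423) (b (l 143173627890221295) (l 143170329355026671)))) (a (b (l 143089240359092335) (c (l 143109787486339311) (b (l 143055155493666927) (a (l 143047871228231791) (l 143054262140616815))))) (c (b (l 143129647417835759) (l 143122363152613615)) (b (l 143073984632963183) (b (l 143067868598943855) (c (l 143078107802796143) (l 143049589215543407))))))) (a (c (b (l 143223999274467567) (l 143217883240448239)) (b (l 143114460411183215) (c (l 143134870099411183) (b (l 143080581704220783) (c (l 143090752188580079) (l 143062371040297071)))))) (c (b (l 143236162623815919) (l 143230046589780207)) (b (l 143126967357997167)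 (c (l 143147308326715631) (b (l 143093226089988207) (c (l 143103396574347503) (l 143075084145557615))))))))) (b (a (c (l 143263444259979503) (a (l 143150813019619439) (l 143163113807986927))) (c (l 143287289922322671) (l 143181736789262575))) (b (a (c (l 143254373288100079) (c (l 143173215573197039) (l 143118171263746159))) (c (l 143278287669887215) (l 143170466793881839))) (a (a (c (l 143242141219635439) (b (l 143133770587652207) (c (l 143157891127951599) (c (l 143115972240621807) (l 143087728531325039))))) (c (l 143254167129997551) (c (l 143172116061815023) (l 143116453277024495)))) (a (c (l 143266193040359663) (c (l 143184348130672879) (l 143128960223822063))) (c (l 143278150231228655) (a (l 143165931297358063) (l 143172116061995247)))))))), by decide +kernel⟩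

def k36_pm_102_a : ∃ t, chk3 f_pm_102_a t 103 255 3 = true :=
  ⟨(b (c (a (a (l 142816286582390895) (l 142842193829429359)) (a (l 142867826198528111) (l 142893252409147503))) (l 14)) (a (c (c (a (c (b (l 143025399955325039) (b (l 142838689136410735) (c (a (l 143015160752291951) (l 143028080016015471)) (l 14)))) (l 14)) (b (l 142856831080939631) (a (b (l 143023819407687791) (c (b (l 143034814525833327) (l 143032684221841519)) (l 14))) (b (l 143036669951934575) (b (l 143033371416723567) (a (l 143027942577324143) (l 143034333489709167))))))) (l 14)) (l 14)) (c (a (a (c (b (l 143055980127666287) (b (l 143049451776704623) (c (l 143059347383091311) (b (l 143031859588153455) (l 143029660564668527))))) (l 14)) (b (l 143040655682158703) (c (b (l 143062164881981551) (a (l 143009594481311855) (l 143060996650942575))) (a (l 14) (a (l 14) (c (l 143022032701653103) (l 14))))))) (b (c (l 142907683502096495) (l 142851677120053359)) (c (a (b (l 143074877987258479) (a (l 143067318843834479) (l 143073709756203119))) (b (l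 143087522373025903) (c (l 143097349259886831) (l 143069036831195247)))) (c (b (l 142858755227549807) (a (a (l 143024575322833007) (l 143030966235218031)) (a (l 143037357147603055) (l 143043748059971695)))) (l 14))))) (l 14)))), by decide +kernel⟩

def k37_pm_102_a : ∃ t, chk3 f_pm_102_a t 13 14 1 = true :=
  ⟨(a (b (a (l 16696112) (l 16695528)) (a (b (l 16684080) (l 16677616)) (b (l 16703688) (l 16696576)))) (b (a (l 16713384) (b (l 16756368) (l 16744096))) (a (b (l 16720696) (l 16712896)) (b (l 16735720) (l 16706992))))), by decide +kernel⟩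

def k38_pm_102_a : ∃ t, chk3 f_pm_102_a t 26 30 1 = true :=
  ⟨(a (b (l 16671296) (a (l 16659896) (l 16658568))) (b (a (l 16684864) (l 16693288)) (b (l 16683824) (a (l 16675728) (l 16683544))))), by decide +kernel⟩

def k39_pm_102_a : ∃ t, chk3 f_pm_102_a t 26 62 1 = true :=
  ⟨(a (a (b (l 16633976) (b (l 16631456) (a (l 143101266292818031) (l 16634432)))) (b (l 16642728) (a (a (l 143195893029257327) (l 143217951985565807)) (a (l 143239736063934575) (l 143414833294885103))))) (a (b (l 16651048) (b (l 16648088) (a (l 143311547925479663) (a (l 16667864) (l 16669720))))) (b (b (l 16680440) (l 16657928)) (b (a (l 16674776) (l 16680592)) (a (c (l 16680168) (l 16667928)) (l 16680920)))))), by decide +kernel⟩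

def k40_pm_102_a : ∃ t, chk3 f_pm_102_a t 52 126 1 = true :=
  ⟨(b (a (b (c (l 143190876507046127) (l 143013786386317423)) (c (l 143178713158222063) (l 142995919320334447))) (a (b (l 143170672978755695) (l 143156241886789743)) (c (l 143297460434747695) (l 143125111959158895)))) (c (a (a (l 143136175795732719) (l 143182080414253295)) (a (b (l 143412496828399855) (l 143400677076812015)) (a (l 143439434868310319) (l 143469259125063983)))) (a (a (l 142942936596185199) (l 142992208469688431)) (a (l 143040380831432815) (b (l 143098929835081839) (l 143081612524683375)))))), by decide +kernel⟩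

def k41_pm_102_a : ∃ t, chk3 f_pm_102_a t 104 254 1 = true :=
  ⟨(a (c (a (l 143098448798040303) (b (l 143308180645708015) (l 143295467541020911))) (b (l 142914692888117359) (c (l 142948915193577583) (l 142842262549479535)))) (c (c (a (l 143374494951948591) (l 143397172383105327)) (l 143108000807387375)) (b (l 142964377078366319) (c (l 142998118347260015) (l 142893114970914927))))), by decide +kernel⟩

def k42_pm_102_a : ∃ t, chk3 f_pm_102_a t 208 255 1 = true :=
  ⟨(c (b (a (c (l 143310860706709743) (l 143206132207534319)) (c (l 143334225332633839) (l 143230252747866351))) (b (a (c (l 143301995893194991) (l 143194999651074287)) (c (l 143325497958039791) (l 143219257630327023))) (a (a (c (l 143290038702604527) (b (l 143183179899453679) (l 143179469036568815))) (c (l 143301927173980399) (b (l 143195411968295151) (l 143191701116141807)))) (a (c (l 143313678206402799) (b (l 143207575317643503) (l 143203933184966895))) (c (l 143325429238792495) (b (l 143219738666991855) (l 143216096534298863))))))) (b (a (c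 (l 142918472461303919) (l 14)) (c (l 142943417635520623) (l 142834016212123759))) (c (a (a (b (l 143078794998022255) (a (b (l 143068830672633967) (c (l 143092607615385711) (b (l 143037082269761647) (l 143034677087830127)))) (b (l 143075152865542255) (c (l 143098929808261359) (b (l 143043473182130287) (l 143041068000198767)))))) (b (l 143091370664329327) (c (b (l 143112604986130671) (l 143108344378114287)) (b (l 143056529884659823) (b (l 143053025190969455) (a (l 143047458912567407) (l 143053849824952431))))))) (a (b (l 143103877611159663) (c (l 143122981628920047) (b (l 143069174270460015) (c (l 143078726279315567) (b (l 143051582081908847) (l 143049176899960943)))))) (b (l 143116384557973615) (c (l 143135419856240879) (b (l 143081818656243823) (a (l 143073984634847343) (l 143080306827739247))))))) (c (c (a (l 14) (b (l 143040724402667631) (b (l 142875728938205295) (a (a (l 14) (l 143025056360054895)) (a (l 143031447272439919) (l 143037838184808559)))))) (l 14)) (l 14))))), by decide +kernel⟩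

def k43_pm_102_a : ∃ t, chk3 f_pm_102_a t 209 255 1 = true :=
  ⟨(c (b (a (c (l 143357383800095023) (l 143254235849212143)) (c (l 143380336109093167) (l 143277944072601839))) (b (a (c (l 143348793864421679) (l 143243378170577135)) (c (l 143371883612340527) (l 143267223832903919))) (a (c (b (l 143344464536846639) (l 143341647037940015)) (c (l 143263169383186671) (b (l 143210873853280495) (l 143207025562124527)))) (c (l 143366317323239727) (a (l 143254029691502831) (l 143265986882371823)))))) (b (a (c (l 142968156651257967) (l 142859579861745775)) (c (l 143172871976534255) (l 142884937352888431))) (c (c (a (b (l 143162495334072559) (a (l 143147789364052207) (l 143160158871879919))) (b (l 143186959471804655) (a (l 143172390940721391) (l 143184623009562863)))) (a (b (l 142927543434854511) (a (a (b (l 143091233226080367) (l 143086629020631151)) (l 143095218956501231)) (b (l 143106901269348591) (l 143102297063882991)))) (a (b (l 143126211445145839) (b (l 143119339496669423) (l 143114804010664175))) (b (l 143138580952989935)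 (l 143129578695098607))))) (a (c (b (l 142872086808871023) (b (c (l 142878615160389743) (l 142872911439659119)) (c (b (a (l 143048627144360047) (l 143061340249620591)) (a (l 143023681974026351) (l 143058866348179567))) (a (a (l 14) (l 143022101422538863)) (a (l 143028492334923887) (l 143034883247292527)))))) (l 14)) (a (b (l 142863015836958831) (c (b (l 143063607992778863) (b (l 143059828421132399) (a (l 143054193423237231) (l 143060515616129135)))) (l 14))) (b (l 142875728942252143) (c (b (l 143076183659085935) (c (l 143085323350982895) (b (l 143058385312120943) (l 143033371422294127)))) (b (l 143019902399430767) (c (a (l 143025606116917359) (l 143031997029302383)) (l 14)))))))))), by decide +kernel⟩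

def k44_pm_102_a : ∃ t, chk3 f_pm_102_a t 105 254 1 = true :=
  ⟨(a (c (b (a (l 143377037573177583) (l 143399508845936879)) (a (l 143364874224189679) (l 143387551655330031))) (b (l 143013099195793519) (c (l 143046359428104431) (l 142943005319528559)))) (a (c (b (l 143421773960216879) (l 143410022927991087)) (c (l 143089927583449327) (l 142989390973796463))) (a (c (b (l 143441633891811631) (l 143430089017983279)) (l 143060240764911855)) (b (l 143185928705868015) (b (l 143175071027003631) (c (c (l 143495991005397295) (l 143397859577364783)) (l 143065807042937071))))))), by decide +kernel⟩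

def k45_pm_102_a : ∃ t, chk3 f_pm_102_a t 210 255 1 = true :=
  ⟨(c (b (a (c (l 143403082259611951) (l 143301446137528559)) (c (l 143425622251667759) (l 143324742043992303))) (b (a (c (l 143394767201780015) (l 143290863336751343)) (c (l 143417513352233263) (l 143314365401612527))) (a (c (l 143389338362364207) (a (l 143277806634287343) (l 143289695105663215))) (c (l 143412084512784687) (a (l 143301446138085615) (l 143313197170491695)))))) (b (a (c (l 143197129955868911) (l 142910088685584495)) (c (l 143221250496217327) (l 142934965140324463))) (c (b (a (l 143184279412130031) (l 143208537391399151)) (b (a (c (l 143205032697381103) (l 143150400705216751)) (l 143112055245242607)) (b (a (c (l 143201940320551151) (l 143147033450447087)) (c (l 143226060860784879) (l 143171566307639535))) (a (a (a (l 143163045090836719) (l 143169161125265647)) (l 143178369525907695)) (a (l 143190601605464303) (l 143202696235335919)))))) (a (a (b (l 142888304608575599) (c (b (l 143088759325393007) (c (l 143097830297796847) (b (l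 143071029697904751) (l 143068487076970607)))) (b (l 143032684224200815) (c (a (l 143038319222194287) (l 143044710134579311)) (l 14))))) (b (l 142900880274899055) (c (b (l 143101266272207087) (l 143096387188769007)) (b (l 143045397329494127) (a (c (l 143051032327471215) (l 14)) (c (l 143057354520363119) (l 143029042091868271))))))) (a (b (l 142913455941206127) (c (b (l 143113704499527919) (l 143108825416089839)) (b (l 143058041715277935) (a (a (l 143025468681896047) (l 143006089789964399)) (a (l 143054330863157359) (l 143057491959611503)))))) (b (l 143106007917068399) (c (b (l 143126142726848751) (l 143121263643410671)) (b (l 143070617381601391) (b (l 143066700370935919) (a (l 143060859214577775) (l 143067181407469679))))))))))), by decide +kernel⟩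

def k46_pm_102_a : ∃ t, chk3 f_pm_102_a t 211 510 1 = true :=
  ⟨(c (a (c (l 143447956085260591) (l 143347831791993135)) (b (a (c (l 143470358637789487) (l 143371265136853295)) (c (l 143490493447242031) (a (l 143386314704142639) (l 143396141591200047)))) (a (c (a (l 143460050715115823) (l 143470015040749871)) (a (l 143359582824481071) (l 143369615869657391))) (l 143434761944416559)))) (a (c (l 143245096158609647) (l 142959635436617839)) (a (b (l 143037563334639855) (a (a (l 143021482975133935) (l 143026224619684079)) (a (l 143031309861798127) (l 143216646291554543)))) (a (b (l 143052406743597295) (l 143224480313557231)) (l 143238773966700783))))), by decide +kernel⟩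

def k47_pm_102_a : ∃ t, chk3 f_pm_102_a t 211 511 1 = true :=
  ⟨(c (b (a (a (l 143383291047543087) (a (l 143391743544557871) (b (l 143398821651857711) (c (l 143446650415497519) (l 143344395818254639))))) (a (c (l 143459226082525487) (a (l 143352985754714415) (l 143362812641984815))) (l 143428371033735471))) (c (b (a (a (l 143430226457526575) (a (l 143438541515735343) (l 143443626758766895))) (l 143464311326376239)) (a (a (a (l 143424728898519343) (l 143430295177085231)) (l 143438197919465775)) (l 143461287669776687))) (a (a (b (l 143326528751092015) (a (l 143320137838805295) (c (l 143352298558931247) (l 143299453273276719)))) (a (b (c (l 143361300811907375) (l 143308936562639151)) (l 143331888871899439)) (l 143339310577336623))) (l 143361163376230703)))) (a (a (b (c (l 143226404458283247) (l 143118446144421999)) (c (b (l 143220082265587951) (b (l 143216852449771759) (a (l 143211767207723247) (a (l 143216302693925103) (a (l 143218501717557487) (l 143220150985392367)))))) (a (c (l 143132945956258031) (b (l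 143080031951454319) (b (l 143076114940788847) (l 143073503600361583)))) (b (l 143113979377991791) (c (a (l 143135144979955951) (b (l 143139405588185327) (c (l 143150950462095599) (l 143123256508940527)))) (a (l 143079482195755119) (a (a (b (l 143082712011653231) (l 143080100671209583)) (l 143082230975299823)) (b (l 143084704876789999) (l 143082299694956783))))))))) (b (c (a (l 143235269272240367) (b (l 143243309452329199) (a (l 143237743174025455) (l 143240972990349551)))) (b (l 142953038366294255) (a (l 143125111934861551) (l 142951663977021679)))) (c (a (a (b (l 143227503970320623) (b (l 143224549032624367) (l 143222624887357679))) (b (c (l 143257465666912495) (l 143203795747602671)) (l 143226885495947503))) (l 143233688725668079)) (c (a (b (a (l 143146071378411759) (b (l 143150469425660143) (l 143148339121864943))) (b (a (l 143142704123805935) (l 143146346257154287)) (l 143142497965998319))) (l 143152737170129135)) (a (b (a (l 143090958350074095) (l 142914280576172271)) (b (l 142909126614925551) (l 143087110059737327)))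 (l 143097967739207919)))))) (b (a (b (a (l 143023200962117871) (l 143208125076226287)) (l 143018802916933871)) (l 143041755226472687)) (c (c (l 143283166758322479) (l 143230390192324847)) (a (b (l 143141192297349359) (c (l 143164282045710575) (l 143109856212205807))) (c (l 143187509233205487) (a (l 143128135596327151) (l 143138924556435695)))))))), by decide +kernel⟩

def k48_pm_102_a : ∃ t, chk3 f_pm_102_a t 106 63 1 = true :=
  ⟨(b (b (c (a (l 143551722506371375) (a (l 143428920807178543) (l 143465685732901167))) (a (l 143195618150580463) (a (l 143249494226501871) (l 143285984274661615)))) (a (b (c (l 143354222727561519) (l 143169504745898223)) (a (l 143229703017529583) (a (b (l 143261932455477487) (l 143300003045081327)) (a (l 143317801392161007) (l 143462112295223535))))) (a (a (b (l 143355390950342895) (l 143475924913078511)) (l 143321099935596783)) (l 143392774355730671)))) (b (a (b (c (a (a (l 143481903508914479) (b (l 143504787097141551) (l 143498808502567215))) (l 143529938431131951)) (a (b (l 143120645191844079)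 (l 143168611385934063)) (l 143155485973348591))) (a (c (a (b (c (l 143521417214738735) (l 143424385298563375)) (l 143466991381840175)) (l 143489050337624367)) (a (b (l 143094050751398127) (l 143266055601635567)) (l 143290107422605551))) (c (l 143516950451175727) (l 143319862962421999)))) (c (c (l 143623809255735663) (l 143529938436227375)) (l 143204689131471087))) (c (b (a (c (l 143534405203050799) (l 143436342494675247)) (c (l 143606560669073775) (l 143510696984445231))) (a (a (c (l 143503962472349999) (b (l 143407205433360687) (l 143400677083709743))) (c (l 143541208436621679) (b (l 143445619629015343) (l 143439228718317871)))) (a (c (l 143577561047548271) (b (l 143483003032338735) (l 143476749560594735))) (c (l 143612951585620335) (b (l 143519355643314479) (l 143513239610540335)))))) (c (a (b (l 143335805885120751) (b (a (l 143305019556085999) (l 143344670702584111)) (a (b (l 143299590717817071) (c (l 143321993271394607) (l 143269766461325551))) (c (l 143363224965644591) (l 143311754069967151))))) (b (l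 143412428118130991) (b (l 143402051477913903) (a (c (l 143401639161299247) (l 143350786741043503)) (a (l 143404594101109039) (l 143423079644315951)))))) (a (b (l 143052681625911535) (b (l 143040724437565679) (b (a (l 143194243744547055) (l 143235338000318703)) (b (a (c (l 143217883248574703) (l 143164488207417583)) (c (l 143258702626373871) (l 143205994780115183))) (a (a (c (l 143205582460174575) (l 143151843821568239)) (c (l 143226335746506991) (l 143172940705366255))) (a (c (l 143246745435406575) (l 143193762711191791)) (c (l 143266880246350063) (l 143214172400107759)))))))) (b (l 143131777760592111) (b (l 143120301608583407) (b (a (l 143275264024789231) (l 143313953098449135)) (a (c (l 143297460411678959) (a (l 143235338003153135) (l 143255197936156911))) (c (l 143335943334920495) (l 143284403719995631))))))))))), by decide +kernel⟩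

def k49_pm_102_a : ∃ t, chk3 f_pm_102_a t 107 63 1 = true :=
  ⟨(b (a (c (l 143502244506140975) (l 143322062011777263)) (c (l 143565466439041391) (l 143388307602456879))) (c (b (a (c (l 143691497955098991) (l 143599413842444591)) (c (l 143755613241000303) (l 143665040957243759))) (a (a (c (l 143652808878047599) (b (l 143563817151463727) (l 143551722524803375))) (c (l 143686275281174895) (b (l 143597970738839919) (l 143586150990086511)))) (a (c (l 143718848320209263) (l 143625389817938287)) (b (l 143709777348657519) (l 143699125831106927))))) (a (b (l 143277188195320047) (a (c (b (l 143467128833458479) (b (l 143457027071148335) (l 143450361282445615))) (b (l 143368172772737263) (c (l 143378618137641263) (l 143327903156584687)))) (b (l 143453453658243375) (c (l 143488981635760431) (b (l 143393255390216495) (l 143386039845601583)))))) (b (l 143345220492411183) (b (l 143324535931158831) (a (c (l 143523341381599535) (l 143424866357395759)) (c (l 143556601615614255) (l 143458951225344303)))))))), by decide +kernel⟩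

def k50_pm_102_a : ∃ t, chk3 f_pm_102_a t 27 15 1 = true :=
  ⟨(b (a (b (b (l 16706736) (l 16702888)) (a (b (l 16694760) (l 16670880)) (b (l 16703936) (l 16702896)))) (b (a (l 16696416) (l 16726784)) (l 16698440))) (a (b (b (b (a (l 16690520) (l 16702736)) (l 16675760)) (b (l 16675984) (a (l 16691040) (l 16703432)))) (b (c (a (c (l 143695827312787823) (l 143610615149347183)) (l 143758911811125615)) (a (b (l 16685696) (l 143465891913482543)) (l 143587387973730671))) (b (c (a (a (l 143771762324996463) (l 143829486698496367)) (a (l 143883775097536879) (l 143934764961104239))) (a (a (l 143408923461730607) (l 143468571981201711)) (l 143595428154425711))) (a (c (a (c (l 143796432626401647) (l 143704554672554351)) (c (l 143854706755535215) (l 143763722155213167))) (c (a (b (l 143616731167310191) (l 143604567820976495)) (l 143670813409526127)) (b (l 143372227262693679) (a (a (l 143491867861975343) (l 143523753706275119)) (l 143569589607547183))))) (a (c (c (l 143909751068672367) (l 143819453663412591)) (c (l 143727163393278319)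 (l 143633155136209263))) (c (c (l 143961565565829487) (l 143871680477659503)) (c (l 143779871244108143) (l 143686275304128879)))))))) (b (c (a (l 16719056) (l 16728992)) (b (l 16714320) (l 16693416))) (b (c (a (l 143851545688277359) (l 143932016215818607)) (a (l 143680021851652463) (a (l 16717704) (l 16722488)))) (c (a (b (l 143825088692846959) (c (l 144033583593898351) (a (l 143920608756449647) (l 143966307219226991)))) (a (c (l 144105326741373295) (l 144016060129280367)) (b (l 16734568) (l 144089040229450095)))) (a (b (l 143646418029445487) (c (a (l 143828936962048367) (l 143874497986052463)) (a (l 143735547180663151) (l 143781108204831087)))) (a (b (l 143889410115043695) (b (l 143874566709264751) (a (l 143854981646074223) (l 143874291834601839)))) (b (l 143925694008328559) (c (l 143952013575176559) (l 143858761233334639)))))))))), by decide +kernel⟩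

def k51_pm_102_a : ∃ t, chk3 f_pm_102_a t 56 12 1 = true :=
  ⟨(a (b (c (l 16741968) (l 16718696)) (l 16752672)) (b (c (b (l 16723888) (l 16740024)) (b (l 16721808) (l 16738056))) (c (l 16749088) (l 16747272)))), by decide +kernel⟩

def k52_pm_102_a : ∃ t, chk3 f_pm_102_a t 114 24 1 = true :=
  ⟨(b (c (a (b (a (l 16730064) (b (a (l 16728512) (b (l 138143499191) (l 16728264))) (l 16729560))) (l 16732208)) (b (a (b (a (b (l 150491528567) (l 139754112071)) (b (l 3) (l 151565270343))) (a (l 16728688) (b (l 140827853879) (l 16728448)))) (b (l 3) (a (b (l 152639012103) (l 141901595703)) (l 3)))) (a (l 16730448) (b (a (b (l 16728544) (l 16729232)) (b (l 143512208599) (l 16728648))) (l 16729976))))) (a (b (a (l 16728240) (b (a (l 16726776) (l 129016690231)) (l 16727888))) (l 16730504)) (b (a (b (a (l 137606624295) (l 146196557863)) (a (l 16727128) (l 131701045959))) (b (l 3) (a (l 141901593559) (l 3)))) (a (l 16728976) (b (a (l 16727520) (b (l 137606625975) (l 16727376))) (l 16728680)))))) (c (b (l 16728584) (l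 16736704)) (a (l 16734856) (l 16722304)))), by decide +kernel⟩

def k53_pm_102_a : ∃ t, chk3 f_pm_102_a t 115 24 1 = true :=
  ⟨(b (a (b (l 3) (c (b (a (a (b (l 3) (l 145122821415)) (l 3)) (l 3)) (a (a (b (l 16728432) (l 16729456)) (b (l 146196563351) (l 126869210215))) (a (b (l 3) (l 147807176183)) (l 3)))) (a (b (a (b (l 3) (l 139217239063)) (l 3)) (a (l 126332339319) (b (l 140827852183) (l 127942951511)))) (b (l 3) (a (l 138680364567) (l 3)))))) (l 3)) (c (a (b (a (l 16725680) (b (a (b (l 126869210279) (l 16729704)) (b (l 149417788999) (l 118279271015))) (l 16725240))) (l 16722720)) (b (a (b (a (b (l 3) (l 151028401815)) (l 3)) (a (b (l 119353013255) (l 16729984)) (b (l 140290981239) (l 120426755351)))) (b (l 3) (a (b (l 3) (l 132237914583)) (l 3)))) (a (b (l 16725536) (l 16732216)) (b (a (b (l 122574239351) (l 16730296)) (b (l 133848527559) (l 123647981607))) (l 16728472))))) (a (b (a (l 16724584) (b (a (l 120963626215) (b (l 144049078231) (l 131164178167))) (l 16729560))) (l 16732224)) (b (a (b (a (l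 140290978039) (l 3)) (a (l 123111111239) (b (l 146733433063) (l 125795465143)))) (b (l 3) (a (l 142438462439) (l 3)))) (a (b (l 16730024) (l 16731472)) (b (a (b (l 128479820311) (l 16729664)) (b (l 141901592103) (l 129553562727))) (l 16727888))))))), by decide +kernel⟩

def k54_pm_102_a : ∃ t, chk3 f_pm_102_a t 57 25 1 = true :=
  ⟨(c (a (c (l 16744608) (l 16744000)) (b (b (a (l 16736136) (l 16723360)) (l 16716992)) (l 16721608))) (a (l 16742968) (b (b (a (l 16735168) (l 16722696)) (l 16716184)) (l 16720784)))), by decide +kernel⟩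

def k55_pm_102_a : ∃ t, chk3 f_pm_102_a t 58 24 1 = true :=
  ⟨(b (l 3) (b (l 3) (a (a (a (b (l 3) (c (a (b (l 124721723799) (l 16730624)) (b (l 3) (l 125258594343))) (a (b (l 131701047223) (l 16730152)) (b (l 3) (l 129553562295))))) (l 3)) (l 3)) (l 3)))), by decide +kernel⟩

def k56_pm_102_a : ∃ t, chk3 f_pm_102_a t 116 25 1 = true :=
  ⟨(b (c (a (b (a (b (l 111299952183) (l 16732904)) (b (a (b (l 126869207623) (l 16728344)) (b (l 3) (l 127942949927))) (l 111836823815))) (l 16734584)) (b (a (b (l 3) (a (b (l 129553563207) (l 116668663543)) (l 149417785991))) (l 3)) (a (b (a (l 16732480) (l 114521179895)) (l 16733696)) (b (a (b (l 133311660631) (l 121500502567)) (l 153175888247)) (a (l 16732896) (l 116131793415)))))) (a (b (a (b (l 110226209479) (l 16732464)) (b (a (b (l 130090433319) (l 118279276375)) (b (l 3) (l 131164175591))) (a (l 16731752) (l 112910566215)))) (l 16728960)) (b (a (b (l 3) (a (b (l 132237918007) (l 122574245399)) (b (l 3) (l 133848531351)))) (l 3)) (a (b (c (l 112373696919) (l 112373696823))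 (l 16733512)) (b (a (b (l 135459144519) (l 119889890439)) (b (l 3) (l 137069757847))) (a (l 16732816) (b (l 125795470791) (l 16732728)))))))) (c (a (l 16718176) (b (l 16730168) (l 16738440))) (a (l 16717760) (b (a (l 16735744) (l 16729560)) (l 16738272))))), by decide +kernel⟩

def k57_pm_102_a : ∃ t, chk3 f_pm_102_a t 117 25 1 = true :=
  ⟨(b (a (a (a (b (l 3) (b (l 3) (b (l 3) (c (l 124721728887) (l 126869212951))))) (l 3)) (l 3)) (l 3)) (c (a (b (a (b (a (l 16728088) (l 118279277863)) (l 16734568)) (b (a (b (l 3) (l 127942955463)) (l 3)) (a (l 16731160) (l 120963633463)))) (a (l 16736832) (l 16735808))) (b (a (b (l 3) (a (l 151565274327) (l 3))) (l 3)) (a (b (a (l 112910572743) (l 123647989159)) (l 16730352)) (b (a (l 155323371639) (l 3)) (a (l 115058057511) (l 128479828439)))))) (a (b (a (b (a (l 16730744) (b (l 128479826327) (l 16731960))) (l 16734616)) (b (a (b (l 3) (l 130090439559)) (l 3)) (a (l 110763088535) (b (l 131701052791) (l 115594928183))))) (c (l 16731136) (l 16732456))) (b (a (b (l 3) (a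 (b (l 3) (l 133311666103)) (l 3))) (l 3)) (a (b (a (b (l 116131799335) (l 16734904)) (b (l 134922279511) (l 117205541575))) (l 16733176)) (b (a (b (l 3) (l 137069763687)) (l 3)) (a (b (l 124184863847) (l 16735536)) (b (l 3) (c (l 125795477703) (l 138143512183)))))))))), by decide +kernel⟩

def k58_pm_102_a : ∃ t, chk3 f_pm_102_a t 59 12 1 = true :=
  ⟨(b (l 3) (a (l 3) (l 3))), by decide +kernel⟩

def k59_pm_102_a : ∃ t, chk3 f_pm_102_a t 15 12 1 = true :=
  ⟨(l 3), by decide +kernel⟩

def k60_pm_102_a : ∃ t, chk3 f_pm_102_a t 28 13 1 = true :=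
  ⟨(a (b (c (l 16759488) (l 16757800)) (l 16739776)) (b (b (c (l 16751176) (l 16729128)) (c (l 16736352) (l 16756280))) (c (l 16757136) (l 16756520)))), by decide +kernel⟩

def k61_pm_102_a : ∃ t, chk3 f_pm_102_a t 58 13 1 = true :=
  ⟨(b (a (b (c (l 16744208) (l 16722888)) (c (l 16750464) (l 16750072))) (b (c (a (l 16740912) (b (a (l 16727376) (b (l 16736200) (l 16737704))) (l 16719464))) (a (l 16730432) (b (a (l 16727536) (b (a (l 16736640) (l 107004997431)) (l 16737912))) (l 16719600)))) (c (l 16746040) (l 16746048)))) (a (c (l 16738424) (l 16738160)) (b (c (l 16731184) (l 16752144)) (l 16737016)))), by decide +kernel⟩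

def k62_pm_102_a : ∃ t, chk3 f_pm_102_a t 59 26 1 = true :=
  ⟨(a (b (a (c (b (a (b (a (l 118279284103) (l 131701055079)) (l 16734232)) (b (l 3) (a (l 122037381287) (l 169282025703)))) (a (l 16739120) (b (l 112373708359) (l 16739072)))) (b (a (b (a (b (l 127406090487) (l 16734880)) (b (l 3) (l 129553574743))) (a (l 16737304) (l 110226223895))) (b (l 3) (a (b (l 131701058823) (l 114521192423)) (b (l 3) (l 133848543063))))) (a (l 16728832) (b (a (l 16732752) (b (l 116131805495) (l 16737976))) (l 16728784))))) (b (l 3) (c (a (b (l 166060802231) (l 114521191671)) (b (l 3) (l 170892641831))) (a (b (a (b (l 135996027303) (l 118816160711)) (b (l 3) (l 138680382615))) (a (l 16738704) (b (l 125258612167) (l 16738704)))) (b (l 3) (a (b (l 3) (l 127406096311)) (l 3))))))) (a (c (l 16743256) (l 16743384)) (c (b (a (l 16740584) (b (a (l 16739312) (l 121500514135)) (l 16740632))) (l 16743192)) (b (a (l 16740720) (b (a (l 16736816) (b (l 129553580279) (l 16738128))) (l 16740712))) (l 16743264))))) (b (l 3) (a (c (b (a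 (b (l 171966384311) (a (l 16734816) (l 125258610503))) (l 175724479319)) (a (l 16736960) (b (a (l 116668677831) (l 152639033751)) (l 16742328)))) (b (a (b (a (b (l 3) (l 132237935495)) (l 3)) (a (l 112910584999) (b (l 134385419783) (l 117742423511)))) (b (l 3) (c (l 175724482807) (l 170355773495)))) (a (b (l 16741456) (l 16742896)) (b (a (b (l 126332359479) (l 16741312)) (b (l 138680388327) (l 131164198215))) (l 16739600))))) (a (b (l 3) (c (b (l 169818901495) (a (l 120963644791) (l 160692099159))) (b (l 178945709399) (a (b (l 135459166167) (l 16742080)) (b (l 3) (l 138680392071)))))) (l 3))))), by decide +kernel⟩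

def k63_pm_102_a : ∃ t, chk3 f_pm_102_a t 59 27 1 = true :=
  ⟨(a (b (c (c (l 16748416) (l 16748448)) (l 16748504)) (c (l 16754144) (l 16733344))) (b (a (c (b (l 16744792) (l 16747616)) (b (l 16744704) (l 16747536))) (c (b (a (b (l 16737256) (l 16744584)) (b (a (l 125258612551) (l 168208293463)) (l 110763099687))) (l 16746296)) (b (a (b (c (l 16737792) (l 16740256)) (l 16744352)) (b (a (b (l 142438489111) (l 115594942647)) (l 141901615527)) (c (l 16739808) (l 113447461015)))) (l 16740808)))) (c (c (l 16750904) (l 16750896)) (a (l 16751728) (l 16750080))))), by decide +kernel⟩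

def k64_pm_102_a : ∃ t, chk3 f_pm_102_a t 15 13 1 = true :=
  ⟨(a (a (b (l 3) (a (b (a (b (a (b (l 3) (c (a (l 169282038615) (l 174113874695)) (a (b (l 147270328135) (l 119889910647)) (l 144585970855)))) (l 3)) (c (a (b (l 112910584119) (l 16746000)) (b (l 138143513959) (l 115594939687))) (c (a (l 111836846055) (b (l 136532906375) (l 116668686007))) (a (b (l 115058074263) (l 16745512)) (b (l 176261362311) (l 117205558631)))))) (a (a (b (l 3) (b (l 3) (c (l 175724491095) (l 143512232471)))) (l 3)) (l 3))) (a (c (b (l 16747520) (l 16749856)) (b (l 16742112) (l 16749712))) (b (c (a (b (l 118279295479) (l 16747112)) (b (l 181093199943) (l 121500522279))) (a (b (a (l 16742992) (l 128479847351)) (l 16746680)) (b (l 185388169591) (a (l 115058077783) (l 134385429543))))) (c (b (l 16747872) (l 16748912)) (b (l 16743560) (l 16748672)))))) (b (l 3) (a (b (a (a (l 3) (l 3)) (l 3)) (c (a (b (l 125795492391) (l 16747856)) (l 185388173623)) (a (b (a (l 125258627111) (l 138680397015)) (l 16747456)) (b (l 3) (l 135459171303)))))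 (l 3))))) (l 3)) (l 3)), by decide +kernel⟩

def k65_pm_102_a : ∃ t, chk3 f_pm_102_a t 14 14 1 = true :=
  ⟨(a (b (a (b (b (l 16765520) (l 16741672)) (l 16759024)) (b (l 16762088) (a (l 16766816) (l 16765712)))) (a (b (l 16750576) (l 16744240)) (b (l 16766304) (l 16758800)))) (b (a (b (a (l 16758248) (l 16757184)) (l 16741888)) (b (a (l 16738408) (c (l 16755696) (l 16756120))) (c (a (l 16758840) (l 16761152)) (l 16760056)))) (a (b (a (l 16771448) (l 16769488)) (b (l 16772072) (l 16768192))) (b (a (l 16767688) (l 16764632)) (a (l 16742032) (l 16750224)))))), by decide +kernel⟩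

def k66_pm_102_a : ∃ t, chk3 f_pm_102_a t 14 15 1 = true :=
  ⟨(a (b (a (b (l 16739872) (l 16716504)) (b (l 16754200) (l 16730088))) (b (a (b (l 16715968) (a (c (l 16738232) (l 16728512)) (l 16740792))) (b (l 16728856) (l 16729352))) (a (c (b (a (l 16739256) (l 16745888)) (c (a (b (l 16742928) (l 144176863737872751)) (b (l 16749256) (l 16750184))) (a (a (l 144083473953210735) (l 144110205837197679)) (b (l 16744456) (l 144137556200096111))))) (b (a (b (l 16728808) (l 16729128)) (l 16736592)) (a (a (a (l 143759667759726959) (l 143775335804649839)) (b (l 16731568) (c (l 144014891912855919) (l 143925968898883951)))) (a (l 143829074449367407) (l 143856630966944111))))) (c (b (a (l 16751440) (l 16756064)) (a (a (l 16751560) (l 16754096)) (b (l 16757056) (l 16757936)))) (b (a (l 16743424) (l 16749520)) (c (a (b (l 16746136) (l 144103402623336751)) (b (l 16751856) (l 16752528))) (a (l 143857593045532975) (l 143905146936656175)))))))) (b (a (b (l 16764080) (l 16760312)) (b (b (l 16773968) (l 16770824)) (a (l 16766256)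 (l 16770200)))) (a (c (b (c (l 16740392) (l 16738680)) (a (b (l 16759872) (b (l 16760872) (l 16761744))) (b (l 16763040) (c (l 16765464) (l 16763440))))) (a (b (l 16754832) (b (l 16754904) (a (b (l 16754224) (l 16754824)) (l 16757016)))) (b (l 16759624) (b (l 16759664) (a (l 16759360) (l 16761624)))))) (b (a (l 16743752) (l 16747640)) (a (b (l 16775640) (b (l 16776392) (a (l 16765680) (l 16767592)))) (b (l 16768976) (b (l 16769704) (a (l 16769472) (l 16771312))))))))), by decide +kernel⟩

def k67_pm_102_a : ∃ t, chk3 f_pm_102_a t 30 28 1 = true :=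
  ⟨(a (a (b (c (b (l 16751208) (l 16732144)) (a (l 16753360) (l 16751552))) (c (c (l 16736640) (l 16736960)) (l 16737560))) (b (a (c (b (l 105931275351) (l 16750616)) (b (a (l 16749136) (l 111836859719)) (l 16729864))) (b (c (a (l 134385430615) (l 179482593607)) (a (b (l 139217267927) (l 125795507527)) (b (l 3) (l 143512235255)))) (c (a (l 16749456) (l 16748576)) (a (l 16749520) (l 126332379927))))) (c (b (a (l 16753096) (l 16740944)) (l 16745616)) (b (a (l 16753632) (l 16741296)) (l 16735672))))) (a (b (a (b (l 3) (c (a (l 149954696359) (l 171429508039)) (a (b (l 147270331479) (l 123111144359)) (l 168208292471)))) (l 3)) (a (c (b (b (c (l 124184883239) (l 117742432359)) (l 16740248)) (l 16743056)) (b (a (l 16739928) (b (a (l 107541889447) (l 133848561591)) (l 16750424))) (l 16743296))) (b (a (b (l 3) (c (l 126332369703) (l 130090466199))) (l 3)) (c (a (l 16747016) (b (l 126869242231) (l 16747008))) (a (l 86603927431) (b (l 133848564087) (l 97878219687))))))) (b (l 3) (a (a (b (l 3) (b (l 3) (c (l 137606662071)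 (l 138143532919)))) (l 3)) (l 3))))), by decide +kernel⟩

def k68_pm_102_a : ∃ t, chk3 f_pm_102_a t 30 29 1 = true :=
  ⟨(a (b (a (c (l 16763552) (l 16764768)) (c (b (l 16739016) (l 16763856)) (l 16762736))) (a (l 16748960) (c (l 16745664) (l 16768304)))) (a (c (b (a (b (l 16736336) (l 16761128)) (b (l 16756192) (l 16738304))) (b (l 16764048) (l 16767896))) (b (a (l 16759728) (b (a (l 16756216) (l 16744728)) (l 16738680))) (b (l 16764752) (l 16768880)))) (b (a (b (a (c (c (l 94120124311) (l 91435769751)) (b (l 101636317703) (l 16755136))) (b (c (l 149954683511) (l 159081499239)) (c (l 97341351383) (a (l 16749072) (l 111299996215))))) (c (c (l 16757344) (l 16757408)) (c (l 16757480) (l 16752328)))) (b (a (b (l 3) (c (l 165523962071) (l 164987080375))) (l 3)) (a (c (b (l 125258639543) (l 16751552)) (b (a (l 102173194615) (l 135996059111)) (l 16751600))) (b (l 3) (c (a (l 100025711767) (l 140827898583)) (a (l 107541904471) (l 141901640599))))))) (a (b (c (l 16761112) (l 16761496)) (c (l 16764984) (l 16765608)))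 (a (b (c (l 16759584) (l 16759808)) (c (l 16763408) (l 16763880))) (b (c (c (l 16753248) (l 16753296)) (b (l 115594976119) (l 16759648))) (c (l 16751864) (l 16762704)))))))), by decide +kernel⟩

def k69_pm_102_a : ∃ t, chk3 f_pm_102_a t 31 14 1 = true :=
  ⟨(b (l 3) (a (a (b (l 3) (a (b (b (a (c (a (l 105394422151) (l 167134581815)) (a (l 112373743959) (l 167134571207))) (l 3)) (b (a (c (l 120426811463) (l 122574295175)) (l 3)) (c (a (l 16758896) (l 148344093255)) (a (l 16753736) (l 139754161895))))) (a (c (c (l 16761232) (l 16761336)) (l 16756272)) (b (c (c (l 95193879271) (l 98415104871)) (a (l 16759584) (b (l 138143553447) (l 16754216)))) (c (l 16761152) (l 16761328))))) (b (l 3) (b (a (a (a (c (l 141364776871) (l 142975389607)) (l 3)) (l 3)) (l 3)) (b (a (c (a (l 16754512) (l 144049134215)) (a (l 16757192) (l 146196618055))) (l 3)) (a (c (l 94657012871) (a (l 16760920) (l 107541915863))) (c (l 169818931751) (l 170892678791)))))))) (l 3)) (l 3))), by decide +kernel⟩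

def k70_pm_102_a : ∃ t, chk3 f_pm_102_a t 15 15 1 = true :=
  ⟨(a (b (a (b (a (b (l 16754064) (l 16756392)) (b (l 16773344) (l 16776472))) (a (l 16774008) (b (l 16778976) (l 16776840)))) (b (a (b (l 16770464) (l 16774624)) (b (a (l 16769376) (c (l 16745880) (l 16767504))) (c (l 16770792) (l 16772064)))) (a (b (a (l 16757952) (l 16756776)) (a (l 16779144) (l 16780888))) (b (c (l 16774744) (l 16776400)) (a (l 16780112) (l 6)))))) (a (b (a (l 16751352) (c (l 16775304) (l 16755208))) (a (b (l 16751640) (b (l 16773288) (a (l 16773096) (l 6)))) (b (l 16754904) (l 6)))) (a (b (b (l 16778832) (l 6)) (l 6)) (l 6)))) (b (a (b (a (a (b (c (a (l 16744240) (l 16764096)) (c (l 16764960) (l 16765200))) (c (l 16768728) (l 16769400))) (b (a (b (c (l 16761984) (l 16762160)) (a (l 16764400) (l 6))) (b (c (a (c (l 97341368167) (l 101099465287)) (l 170892687543)) (a (b (l 132774849047) (l 16761728)) (b (l 3) (l 6)))) (l 6))) (l 6))) (l 6)) (l 6)) (l 6)) (l 6))), by decide +kernel⟩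

theorem s71_pm_102_a : ∃ t, chk3 f_pm_102_a t 30 14 1 = true := ex3_b k67_pm_102_a k68_pm_102_a

theorem s72_pm_102_a : ∃ t, chk3 f_pm_102_a t 15 14 1 = true := ex3_a s71_pm_102_a k69_pm_102_a

theorem s73_pm_102_a : ∃ t, chk3 f_pm_102_a t 15 7 1 = true := ex3_b s72_pm_102_a k70_pm_102_a

theorem s74_pm_102_a : ∃ t, chk3 f_pm_102_a t 14 7 1 = true := ex3_b k65_pm_102_a k66_pm_102_a

theorem s75_pm_102_a : ∃ t, chk3 f_pm_102_a t 7 7 1 = true := ex3_a s74_pm_102_a s73_pm_102_a

theorem s76_pm_102_a : ∃ t, chk3 f_pm_102_a t 59 13 1 = true := ex3_b k62_pm_102_a k63_pm_102_a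

theorem s77_pm_102_a : ∃ t, chk3 f_pm_102_a t 29 13 1 = true := ex3_a k61_pm_102_a s76_pm_102_a

theorem s78_pm_102_a : ∃ t, chk3 f_pm_102_a t 14 13 1 = true := ex3_a k60_pm_102_a s77_pm_102_a

theorem s79_pm_102_a : ∃ t, chk3 f_pm_102_a t 7 13 1 = true := ex3_a s78_pm_102_a k64_pm_102_a

theorem s80_pm_102_a : ∃ t, chk3 f_pm_102_a t 58 25 1 = true := ex3_a k56_pm_102_a k57_pm_102_a

theorem s81_pm_102_a : ∃ t, chk3 f_pm_102_a t 58 12 1 = true := ex3_b k55_pm_102_a s80_pm_102_a

theorem s82_pm_102_a : ∃ t, chk3 f_pm_102_a t 29 12 1 = true := ex3_a s81_pm_102_a k58_pm_102_a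

theorem s83_pm_102_a : ∃ t, chk3 f_pm_102_a t 57 24 1 = true := ex3_a k52_pm_102_a k53_pm_102_a

theorem s84_pm_102_a : ∃ t, chk3 f_pm_102_a t 57 12 1 = true := ex3_b s83_pm_102_a k54_pm_102_a

theorem s85_pm_102_a : ∃ t, chk3 f_pm_102_a t 28 12 1 = true := ex3_a k51_pm_102_a s84_pm_102_a

theorem s86_pm_102_a : ∃ t, chk3 f_pm_102_a t 14 12 1 = true := ex3_a s85_pm_102_a s82_pm_102_a

theorem s87_pm_102_a : ∃ t, chk3 f_pm_102_a t 7 12 1 = true := ex3_a s86_pm_102_a k59_pm_102_a

theorem s88_pm_102_a : ∃ t, chk3 f_pm_102_a t 7 6 1 = true := ex3_b s87_pm_102_a s79_pm_102_a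

theorem s89_pm_102_a : ∃ t, chk3 f_pm_102_a t 7 3 1 = true := ex3_b s88_pm_102_a s75_pm_102_a

theorem s90_pm_102_a : ∃ t, chk3 f_pm_102_a t 53 63 1 = true := ex3_a k48_pm_102_a k49_pm_102_a

theorem s91_pm_102_a : ∃ t, chk3 f_pm_102_a t 211 255 1 = true := ex3_b k46_pm_102_a k47_pm_102_a

theorem s92_pm_102_a : ∃ t, chk3 f_pm_102_a t 105 255 1 = true := ex3_a k45_pm_102_a s91_pm_102_a

theorem s93_pm_102_a : ∃ t, chk3 f_pm_102_a t 105 127 1 = true := ex3_b k44_pm_102_a s92_pm_102_a

theorem s94_pm_102_a : ∃ t, chk3 f_pm_102_a t 104 255 1 = true := ex3_a k42_pm_102_a k43_pm_102_a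

theorem s95_pm_102_a : ∃ t, chk3 f_pm_102_a t 104 127 1 = true := ex3_b k41_pm_102_a s94_pm_102_a

theorem s96_pm_102_a : ∃ t, chk3 f_pm_102_a t 52 127 1 = true := ex3_a s95_pm_102_a s93_pm_102_a

theorem s97_pm_102_a : ∃ t, chk3 f_pm_102_a t 52 63 1 = true := ex3_b k40_pm_102_a s96_pm_102_a

theorem s98_pm_102_a : ∃ t, chk3 f_pm_102_a t 26 63 1 = true := ex3_a s97_pm_102_a s90_pm_102_a

theorem s99_pm_102_a : ∃ t, chk3 f_pm_102_a t 26 31 1 = true := ex3_b k39_pm_102_a s98_pm_102_a

theorem s100_pm_102_a : ∃ t, chk3 f_pm_102_a t 26 15 1 = true := ex3_b k38_pm_102_a s99_pm_102_a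

theorem s101_pm_102_a : ∃ t, chk3 f_pm_102_a t 13 15 1 = true := ex3_a s100_pm_102_a k50_pm_102_a

theorem s102_pm_102_a : ∃ t, chk3 f_pm_102_a t 13 7 1 = true := ex3_b k37_pm_102_a s101_pm_102_a

theorem s103_pm_102_a : ∃ t, chk3 f_pm_102_a t 103 255 1 = true := ex3_c k35_pm_102_a k36_pm_102_a

theorem s104_pm_102_a : ∃ t, chk3 f_pm_102_a t 51 255 1 = true := ex3_a k34_pm_102_a s103_pm_102_a

theorem s105_pm_102_a : ∃ t, chk3 f_pm_102_a t 51 127 1 = true := ex3_b k33_pm_102_a s104_pm_102_a

theorem s106_pm_102_a : ∃ t, chk3 f_pm_102_a t 51 63 1 = true := ex3_b k32_pm_102_a s105_pm_102_a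

theorem s107_pm_102_a : ∃ t, chk3 f_pm_102_a t 25 63 1 = true := ex3_a k31_pm_102_a s106_pm_102_a

theorem s108_pm_102_a : ∃ t, chk3 f_pm_102_a t 25 31 1 = true := ex3_b k30_pm_102_a s107_pm_102_a

theorem s109_pm_102_a : ∃ t, chk3 f_pm_102_a t 25 15 1 = true := ex3_b k29_pm_102_a s108_pm_102_a

theorem s110_pm_102_a : ∃ t, chk3 f_pm_102_a t 24 63 1 = true := ex3_a k27_pm_102_a k28_pm_102_a

theorem s111_pm_102_a : ∃ t, chk3 f_pm_102_a t 24 31 1 = true := ex3_b k26_pm_102_a s110_pm_102_a

theorem s112_pm_102_a : ∃ t, chk3 f_pm_102_a t 24 15 1 = true := ex3_b k25_pm_102_a s111_pm_102_a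

theorem s113_pm_102_a : ∃ t, chk3 f_pm_102_a t 12 15 1 = true := ex3_a s112_pm_102_a s109_pm_102_a

theorem s114_pm_102_a : ∃ t, chk3 f_pm_102_a t 12 7 1 = true := ex3_b k24_pm_102_a s113_pm_102_a

theorem s115_pm_102_a : ∃ t, chk3 f_pm_102_a t 6 7 1 = true := ex3_a s114_pm_102_a s102_pm_102_a

theorem s116_pm_102_a : ∃ t, chk3 f_pm_102_a t 6 3 1 = true := ex3_b k23_pm_102_a s115_pm_102_a

theorem s117_pm_102_a : ∃ t, chk3 f_pm_102_a t 3 3 1 = true := ex3_a s116_pm_102_a s89_pm_102_a

theorem s118_pm_102_a : ∃ t, chk3 f_pm_102_a t 56 11 1 = true := ex3_b k18_pm_102_a k19_pm_102_a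

theorem s119_pm_102_a : ∃ t, chk3 f_pm_102_a t 28 11 1 = true := ex3_a s118_pm_102_a k20_pm_102_a

theorem s120_pm_102_a : ∃ t, chk3 f_pm_102_a t 28 5 1 = true := ex3_b k17_pm_102_a s119_pm_102_a

theorem s121_pm_102_a : ∃ t, chk3 f_pm_102_a t 14 5 1 = true := ex3_a s120_pm_102_a k21_pm_102_a

theorem s122_pm_102_a : ∃ t, chk3 f_pm_102_a t 14 2 1 = true := ex3_b k16_pm_102_a s121_pm_102_a

theorem s123_pm_102_a : ∃ t, chk3 f_pm_102_a t 7 2 1 = true := ex3_a s122_pm_102_a k22_pm_102_a

theorem s124_pm_102_a : ∃ t, chk3 f_pm_102_a t 27 5 1 = true := ex3_b k14_pm_102_a k15_pm_102_a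

theorem s125_pm_102_a : ∃ t, chk3 f_pm_102_a t 13 5 1 = true := ex3_a k13_pm_102_a s124_pm_102_a

theorem s126_pm_102_a : ∃ t, chk3 f_pm_102_a t 13 2 1 = true := ex3_b k12_pm_102_a s125_pm_102_a

theorem s127_pm_102_a : ∃ t, chk3 f_pm_102_a t 12 2 1 = true := ex3_b k10_pm_102_a k11_pm_102_a

theorem s128_pm_102_a : ∃ t, chk3 f_pm_102_a t 6 2 1 = true := ex3_a s127_pm_102_a s126_pm_102_a

theorem s129_pm_102_a : ∃ t, chk3 f_pm_102_a t 3 2 1 = true := ex3_a s128_pm_102_a s123_pm_102_a

theorem s130_pm_102_a : ∃ t, chk3 f_pm_102_a t 3 1 1 = true := ex3_b s129_pm_102_a s117_pm_102_a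

theorem s131_pm_102_a : ∃ t, chk3 f_pm_102_a t 47 31 1 = true := ex3_b k8_pm_102_a k9_pm_102_a

theorem s132_pm_102_a : ∃ t, chk3 f_pm_102_a t 23 31 1 = true := ex3_a k7_pm_102_a s131_pm_102_a

theorem s133_pm_102_a : ∃ t, chk3 f_pm_102_a t 23 15 1 = true := ex3_b k6_pm_102_a s132_pm_102_a

theorem s134_pm_102_a : ∃ t, chk3 f_pm_102_a t 11 15 1 = true := ex3_a k5_pm_102_a s133_pm_102_a

theorem s135_pm_102_a : ∃ t, chk3 f_pm_102_a t 11 7 1 = true := ex3_b k4_pm_102_a s134_pm_102_a

theorem s136_pm_102_a : ∃ t, chk3 f_pm_102_a t 5 7 1 = true := ex3_a k3_pm_102_a s135_pm_102_a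

theorem s137_pm_102_a : ∃ t, chk3 f_pm_102_a t 5 3 1 = true := ex3_b k2_pm_102_a s136_pm_102_a

theorem s138_pm_102_a : ∃ t, chk3 f_pm_102_a t 2 3 1 = true := ex3_a k1_pm_102_a s137_pm_102_a

theorem s139_pm_102_a : ∃ t, chk3 f_pm_102_a t 2 1 1 = true := ex3_b k0_pm_102_a s138_pm_102_a

theorem s140_pm_102_a : ∃ t, chk3 f_pm_102_a t 1 1 1 = true := ex3_a s139_pm_102_a s130_pm_102_a

theorem c_pm_102_a : CertB 536870912 536870912 0 536870912 818728140 40265320 3 eng mog cd0q1 cd1q2a pd0 false true false .npp 1 0 2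
    ndB0q1 ndB1q2a pcB0 cut_pm_102_a xt_pm_102_a :=
  certB0 (fam := false) (s1 := true) (s2 := false) (a := 1) (b := 0) (c := 2) (cn := .npp) (n1 := ndB0q1) (n2 := ndB1q2a) (pc := pcB0) (cut := cut_pm_102_a) (xt := xt_pm_102_a) (P1 := 536870912) (W1 := 536870912) (P2 := 0) (W2 := 536870912) (P3 := 818728140) (W3 := 40265320) (N0 := 3) (En := eng) (mo := mog) (C1 := cd0q1) (C2 := cd1q2a) (C3 := pd0)
    rfl s140_pm_102_a

noncomputable def cut_pm_102_b : Cut := Cut.of [[⟨0, 1, 0, 67108864⟩, ⟨1, 0, 0, 67108864⟩, ⟨2, 1, 0, 67108864⟩], [⟨0, 0, 1, 26214400⟩, ⟨1, 1, 2, 26214400⟩, ⟨2, 1, 0, 33554432⟩]]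

noncomputable def f_pm_102_b : ℕ → ℕ → ℕ → ℕ → Bool := onCell 536870912 536870912 0 536870912 818728140 40265320
    (rowB 3 eng mog cd0q1 cd1q2b pd0 1 false true false .npp 1 0 2 (qsf 536870912 536870912 1239849684 370763052 0) ndB0q1 ndB1q2b pcB0 cut_pm_102_b Ext.none)

def k0_pm_102_b : ∃ t, chk3 f_pm_102_b t 2 1 1 = true :=
  ⟨(b (l 1) (b (l 1) (a (l 1) (b (a (l 1) (b (a (l 1) (a (l 1) (b (l 1) (b (l 1) (l 117071299415))))) (b (b (a (l 1) (a (l 1) (l 16726864))) (a (l 1) (a (l 16735208) (l 16724240)))) (a (a (l 1) (l 16720504)) (a (l 16706464) (l 16704160)))))) (a (b (a (l 1) (b (l 1) (a (l 1) (l 16680544)))) (a (b (l 1) (l 59626035031)) (a (l 16681160) (l 16647832)))) (a (b (b (a (l 16700336) (l 16700376)) (a (l 16683512) (l 16674584))) (a (l 16649336) (l 16636960))) (b (a (l 16718160) (l 16704864)) (l 16659872)))))))), by decide +kernel⟩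

def k1_pm_102_b : ∃ t, chk3 f_pm_102_b t 3 1 1 = true :=
  ⟨(b (a (l 1) (l 3)) (b (a (a (a (a (l 1) (a (l 1) (l 3))) (l 3)) (l 3)) (l 3)) (a (a (b (a (b (b (c (b (a (l 1) (a (a (l 1) (l 3)) (l 3))) (a (a (l 1) (l 16746312)) (a (a (b (l 69289824599) (l 16740320)) (l 178945704679)) (l 3)))) (b (a (l 1) (a (a (l 1) (l 3)) (l 3))) (a (a (l 1) (l 16751896)) (a (a (a (l 16745144) (l 51573090343)) (l 152102165383)) (l 3))))) (c (a (a (b (l 16750520) (l 16738184)) (b (b (l 16742928) (l 16737056)) (l 16728144))) (a (b (b (l 16742256) (l 16726232)) (l 16717688)) (b (l 3) (l 16705552)))) (a (b (a (l 16749744) (l 16718760)) (l 16732168)) (a (b (b (l 16732056) (l 16726248)) (l 16717304)) (l 426443082327))))) (a (b (a (l 16718440) (l 16709160)) (l 16688016)) (c (b (a (l 16700112) (l 16689264)) (l 16671120)) (b (l 69424014311) (l 16668568))))) (a (a (b (l 3) (b (l 3) (l 117742311671))) (l 3)) (l 3))) (a (b (c (b (l 16676512) (l 16630184)) (b (l 16650696) (l 16623048))) (a (l 16597400) (l 16582104))) (a (b (b (a (l 16630376)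 (l 119352849079)) (l 99488607735)) (b (l 16576680) (l 16555328))) (b (l 3) (b (l 116131506759) (l 108078411511)))))) (l 3)) (l 3)))), by decide +kernel⟩

theorem s2_pm_102_b : ∃ t, chk3 f_pm_102_b t 1 1 1 = true := ex3_a k0_pm_102_b k1_pm_102_b

theorem c_pm_102_b : CertB 536870912 536870912 1239849684 370763052 818728140 40265320 3 eng mog cd0q1 cd1q2b pd0 false true false .npp 1 0 2
    ndB0q1 ndB1q2b pcB0 cut_pm_102_b Ext.none :=
  certB1 (fam := false) (s1 := true) (s2 := false) (a := 1) (b := 0) (c := 2) (cn := .npp) (n1 := ndB0q1) (n2 := ndB1q2b) (pc := pcB0) (cut := cut_pm_102_b) (xt := Ext.none) (P1 := 536870912) (W1 := 536870912) (P2 := 1239849684) (W2 := 370763052) (P3 := 818728140) (W3 := 40265320) (N0 := 3) (En := eng) (mo := mog) (C1 := cd0q1) (C2 := cd1q2b) (C3 := pd0)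
    rfl (fun _ => rfl) s2_pm_102_b

noncomputable def f_pm_112_a : ℕ → ℕ → ℕ → ℕ → Bool := onCell 536870912 536870912 0 536870912 818728140 40265320
    (rowB 3 eng mog cd0q1 cd1q2a pd1 0 false true false .dn 1 1 2 (qsf 536870912 536870912 0 536870912 1) ndB0q1 ndB1q2a pcB1 Cut.none Ext.none)

def k0_pm_112_a : ∃ t, chk3 f_pm_112_a t 1 1 1 = true :=
  ⟨(a (b (a (b (a (a (b (l 16491752) (l 16459616)) (b (b (l 16517608) (l 16499744)) (l 16475112))) (a (b (a (l 16582776) (l 16569728)) (l 16552048)) (b (a (l 16538264) (l 16548104)) (b (a (l 16505808) (l 16511904)) (l 16491352))))) (a (a (b (l 16432408) (l 16408816)) (b (l 16445472) (l 16417688))) (b (a (l 16456304) (l 16464848)) (a (l 16424576) (l 16429568))))) (a (a (b (b (a (l 16558664) (l 16569744)) (a (b (l 16521376) (l 16497616)) (l 16600032))) (b (a (l 16469672) (l 16557232)) (l 16432448))) (b (b (l 1) (l 1)) (l 1))) (l 1))) (b (a (a (b (a (l 16385944) (l 16388456)) (a (l 16358216) (b (l 16362056) (l 16340136)))) (b (a (l 16389344) (l 16388904)) (a (l 16343952)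 (l 16335872)))) (l 1)) (a (a (b (a (l 16320232) (l 16301720)) (a (b (l 16280408) (a (l 16252328) (l 16239640))) (l 206191021655))) (b (a (l 16283096) (l 1)) (l 1))) (l 1)))) (l 1)), by decide +kernel⟩

theorem c_pm_112_a : CertB 536870912 536870912 0 536870912 818728140 40265320 3 eng mog cd0q1 cd1q2a pd1 false true false .dn 1 1 2
    ndB0q1 ndB1q2a pcB1 Cut.none Ext.none :=
  certB0 (fam := false) (s1 := true) (s2 := false) (a := 1) (b := 1) (c := 2) (cn := .dn) (n1 := ndB0q1) (n2 := ndB1q2a) (pc := pcB1) (cut := Cut.none) (xt := Ext.none) (P1 := 536870912) (W1 := 536870912) (P2 := 0) (W2 := 536870912) (P3 := 818728140) (W3 := 40265320) (N0 := 3) (En := eng) (mo := mog) (C1 := cd0q1) (C2 := cd1q2a) (C3 := pd1)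
    rfl k0_pm_112_a

noncomputable def f_pm_112_b : ℕ → ℕ → ℕ → ℕ → Bool := onCell 536870912 536870912 536870912 536870912 818728140 40265320
    (rowB 3 eng mog cd0q1 cd1q2b pd1 1 false true false .dn 1 1 2 (qsf 536870912 536870912 1239849684 370763052 1) ndB0q1 ndB1q2b pcB1 Cut.none Ext.none)

def k0_pm_112_b : ∃ t, chk3 f_pm_112_b t 1 2 1 = true :=
  ⟨(a (b (a (a (b (l 1) (a (b (l 1) (a (l 1) (l 99354285511))) (b (a (l 1) (l 16581904)) (l 117071042087)))) (b (a (b (l 1) (a (l 1) (l 63383938423))) (b (a (l 1) (l 53720287943)) (a (l 90227509639) (l 117071077751)))) (a (b (a (l 129419065831) (l 16542400)) (l 16513088)) (b (l 16537528) (l 16504504))))) (a (b (a (b (a (l 78953258535) (l 90764441239)) (l 16584160)) (b (b (l 16592528) (l 16578328)) (l 16555856))) (a (l 16537184) (l 16507200))) (b (a (b (l 16571168) (l 16539360)) (b (l 16555064) (l 16522512))) (a (l 16490928) (l 16475784))))) (a (a (b (a (b (l 127271559847) (l 16465368)) (b (l 16489008) (l 16448040))) (a (l 16390576) (l 16376608))) (b (b (l 16471520)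 (l 16430056)) (l 16360648))) (b (a (l 16565000) (a (l 16424520) (l 16416048))) (a (l 16377304) (a (l 16352984) (l 16355400)))))) (b (a (a (b (b (a (b (l 16547648) (l 16530568)) (a (b (l 16531760) (l 16514800)) (b (l 91972256967) (l 16502368)))) (a (l 16506528) (a (l 16491304) (l 16479328)))) (a (b (l 16476696) (l 16449240)) (b (l 16457680) (l 16433472)))) (b (a (b (a (b (l 3) (l 133311238247)) (l 3)) (a (b (l 107004546951) (l 16458544)) (l 155859671335))) (l 3)) (a (a (b (l 16439624) (l 16417968)) (b (b (l 114520646823) (l 105930701463)) (b (l 16409376) (l 16400896)))) (a (b (l 3) (a (l 110225648919) (l 3))) (l 3))))) (l 3)) (a (b (a (a (l 16536664) (b (l 16412992) (l 16393752))) (a (b (a (l 16401144) (l 16390592)) (a (l 16387240) (l 16380424))) (b (a (b (l 101098794439) (l 16374608)) (a (l 121499887207) (l 3))) (a (l 213774609415) (l 2))))) (a (b (l 16458576) (l 16359176)) (a (b (l 16376592) (l 2)) (l 2)))) (b (b (l 3) (l 2)) (l 2))))), by decide +kernel⟩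

def k1_pm_112_b : ∃ t, chk3 f_pm_112_b t 1 3 1 = true :=
  ⟨(a (b (a (a (b (l 16267120) (l 16135048)) (b (l 16261936) (l 16150624))) (b (a (l 16271304) (l 16422240)) (a (l 16184664) (l 101031834679)))) (a (a (b (l 15988216) (l 15827816)) (b (l 16023728) (l 15886440))) (b (a (l 28553962487) (l 2)) (l 2)))) (b (a (a (b (l 127338516647) (l 2)) (l 2)) (l 2)) (l 2))), by decide +kernel⟩

theorem s2_pm_112_b : ∃ t, chk3 f_pm_112_b t 1 1 1 = true := ex3_b k0_pm_112_b k1_pm_112_b

theorem c_pm_112_b : CertB 536870912 536870912 1239849684 370763052 818728140 40265320 3 eng mog cd0q1 cd1q2b pd1 false true false .dn 1 1 2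
    ndB0q1 ndB1q2b pcB1 Cut.none Ext.none :=
  certB1 (fam := false) (s1 := true) (s2 := false) (a := 1) (b := 1) (c := 2) (cn := .dn) (n1 := ndB0q1) (n2 := ndB1q2b) (pc := pcB1) (cut := Cut.none) (xt := Ext.none) (P1 := 536870912) (W1 := 536870912) (P2 := 1239849684) (W2 := 370763052) (P3 := 818728140) (W3 := 40265320) (N0 := 3) (En := eng) (mo := mog) (C1 := cd0q1) (C2 := cd1q2b) (C3 := pd1)
    rfl (fun _ => rfl) s2_pm_112_b

noncomputable def cut_pm_113 : Cut := Cut.of [[⟨0, 1, 0, 67108864⟩, ⟨1, 1, 0, 67108864⟩, ⟨2, 2, 0, 16777216⟩]]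

noncomputable def f_pm_113 : ℕ → ℕ → ℕ → ℕ → Bool := onCell 536870912 536870912 536870912 536870912 818728140 40265320
    (rowB 3 eng mog cd0q1 cd1q3 pd1 1 false true false .nn 1 1 3 (qsf 536870912 536870912 1610612736 536870912 1) ndB0q1 ndB1q3 pcB1 cut_pm_113 Ext.none)

def k0_pm_113 : ∃ t, chk3 f_pm_113 t 1 2 1 = true :=
  ⟨(a (b (l 1) (a (l 1) (b (l 1) (a (l 1) (a (l 1) (l 16347512)))))) (b (a (a (l 1) (a (l 1) (a (l 1) (l 3)))) (l 3)) (a (b (a (b (l 1) (l 37614062759)) (a (b (a (l 1) (l 16396904)) (a (l 16391240) (l 16387160))) (b (a (b (l 102709435911) (l 16383792)) (b (l 3) (l 120962908871))) (a (b (l 16380992) (l 16379176)) (b (a (l 16372064) (l 126868577127)) (a (l 16372416) (l 111836213095))))))) (a (b (l 16434648) (l 16354688)) (a (b (l 16402000) (l 16381936)) (b (a (l 16380264) (b (a (l 16374664) (l 16370624)) (l 16379032))) (a (l 16392144) (b (l 16389080) (l 16402928))))))) (a (a (b (l 3) (b (a (a (b (c (l 116131175207) (l 117204821511)) (c (l 16402632) (l 16346672))) (b (l 3) (a (l 119352420311)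 (l 3)))) (l 3)) (a (b (a (l 16387848) (b (l 110762516103) (l 93582668199))) (b (l 16463256) (l 16410656))) (a (b (a (l 124721078903) (l 3)) (b (l 116668140503) (l 107004492935))) (l 3))))) (l 3)) (l 3))))), by decide +kernel⟩

def k1_pm_113 : ∃ t, chk3 f_pm_113 t 2 3 1 = true :=
  ⟨(b (a (a (l 1) (b (l 1) (l 16143416))) (b (a (l 16259904) (l 16388864)) (a (l 16170808) (a (l 16209360) (l 16251184))))) (a (a (b (l 15989400) (l 15832128)) (b (l 16016544) (l 15879960))) (b (a (l 16269184) (a (l 16153624) (l 16223256))) (a (l 15983304) (a (l 16112648) (l 16224464)))))), by decide +kernel⟩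

def k2_pm_113 : ∃ t, chk3 f_pm_113 t 3 6 1 = true :=
  ⟨(a (b (a (a (l 16323288) (l 16360784)) (a (b (l 16393832) (l 16416248)) (b (a (l 16417664) (l 16431064)) (l 16534136)))) (a (b (l 16341336) (l 16349168)) (a (b (l 16451256) (l 16500600)) (b (l 16537808) (l 16628936))))) (b (a (a (b (c (a (l 16479768) (a (b (l 16468712) (l 16505168)) (b (l 117205017015) (l 95193445207)))) (a (l 16403688) (b (a (l 16394968) (l 116131189735)) (l 81771529271)))) (a (l 16509656) (b (a (l 16504304) (l 16512528)) (l 16558080)))) (a (c (b (a (b (l 3) (l 121500071639)) (l 3)) (a (b (l 103783489159) (l 16626656)) (b (l 124184543575) (a (l 102172997111) (l 118279101175))))) (b (a (b (l 3) (l 119889294775)) (l 3)) (a (b (l 90361545575) (l 16526648)) (b (l 123110618951) (l 99488474583))))) (b (l 3) (a (b (l 3) (b (l 3) (l 124184633063))) (l 3))))) (l 3)) (a (a (b (a (l 16605616) (b (l 16616896) (l 16686536))) (b (l 16734736) (l 16821656))) (b (a (b (a (l 16644080) (b (l 16641520) (l 16681712))) (l 16653040)) (b (a (b (l 111299809831)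 (l 102173042407)) (l 3)) (a (b (l 16674224) (l 16800256)) (b (l 138143581367) (l 106468040183))))) (a (b (l 16837808) (l 16883752)) (b (a (l 16834232) (c (l 16767208) (l 82308950983))) (b (l 16817816) (l 16830424)))))) (a (b (l 3) (a (b (a (b (l 121500591143) (l 115595035255)) (l 3)) (a (b (l 102710090535) (l 86067114647)) (b (l 3) (a (l 111300027031) (l 3))))) (l 3))) (l 3))))), by decide +kernel⟩

def k3_pm_113 : ∃ t, chk3 f_pm_113 t 6 7 1 = true :=
  ⟨(a (b (b (l 16365016) (l 16392320)) (a (l 16370352) (l 16573120))) (b (b (a (l 16567664) (l 16751248)) (a (l 16658360) (l 16704296))) (a (b (l 16678400) (l 16634088)) (b (l 16711976) (l 16675848))))), by decide +kernel⟩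

def k4_pm_113 : ∃ t, chk3 f_pm_113 t 14 7 1 = true :=
  ⟨(b (b (a (a (l 16906544) (l 16944304)) (a (l 16852216) (b (l 16807096) (l 16854424)))) (a (b (l 16848664) (l 16833464)) (b (a (l 16914088) (l 16903240)) (a (l 16869248) (l 16887616))))) (b (a (b (l 16798104) (l 16763088)) (b (a (l 16828296) (l 16845400)) (l 16736752))) (a (l 16713136) (a (l 16739872) (l 16755248))))), by decide +kernel⟩

def k5_pm_113 : ∃ t, chk3 f_pm_113 t 15 14 1 = true :=
  ⟨(a (b (a (b (a (b (l 16823624) (l 16837760)) (b (a (l 95730794663) (l 109689418711)) (l 98415158647))) (a (l 16839944) (b (l 16831752) (l 16846608)))) (a (b (b (l 3) (l 137606761927)) (b (l 130090600071) (c (l 112910708455) (l 106468247623)))) (l 3))) (a (b (c (l 16837016) (l 16835488)) (l 16838264)) (b (a (b (l 16808072) (l 16852272)) (b (a (l 117205671991) (l 3)) (a (l 16815672) (l 120963769591)))) (b (a (l 16863416) (a (l 16847648) (l 104320797191))) (a (l 16872856) (l 16820144)))))) (b (l 3) (a (b (l 3) (a (b (a (l 154786692615) (l 3)) (a (b (l 125795636823)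 (l 16816880)) (b (l 3) (l 163913499175)))) (l 3))) (l 3)))), by decide +kernel⟩

def k6_pm_113 : ∃ t, chk3 f_pm_113 t 15 15 1 = true :=
  ⟨(a (b (b (a (l 16858984) (c (l 16826208) (a (l 16867008) (l 16819688)))) (a (l 16820232) (a (l 16807504) (l 16833832)))) (a (b (l 16784544) (l 16751472)) (b (a (l 16792512) (l 16797712)) (l 16761968)))) (b (a (a (b (b (a (l 16822368) (b (l 129016856487) (l 121500673511))) (b (l 16821696) (l 16824384))) (b (l 16827904) (l 16830048))) (b (a (b (b (l 3) (l 169819071479)) (b (l 131701202375) (l 135459307655))) (l 3)) (b (a (b (l 16810712) (l 16812744)) (b (a (l 134922433111) (l 3)) (l 138680521799))) (b (a (l 16835528) (l 143512368487)) (l 16810088))))) (a (b (l 3) (a (b (l 3) (a (b (l 137069908055) (l 143512363015)) (b (l 3) (l 186462048023)))) (l 3))) (l 3))) (a (b (a (l 16802408) (b (l 16817472) (l 16800104))) (a (l 16769928) (b (l 16783576) (l 16767912)))) (a (b (a (b (b (a (l 16798448) (l 145659838807)) (l 16806896)) (l 16804424)) (b (a (b (c (l 196125718167) (l 220284904023))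 (l 146196701239)) (l 3)) (c (b (l 153712887991) (l 16797808)) (b (c (l 149954789703) (l 147270433143)) (l 16796920))))) (b (a (l 16770912) (b (l 16795024) (l 16787048))) (b (l 16788256) (l 16770272)))) (b (a (b (l 3) (a (b (l 3) (b (l 293836204215) (a (l 16795072) (l 298131169431)))) (l 3))) (l 3)) (b (a (a (b (b (l 157470979447) (l 16795344)) (l 16789408)) (a (b (b (l 338396482167) (l 157470974503)) (b (l 16792576) (l 16788688))) (b (l 3) (b (c (l 161229067847) (l 152639130663)) (l 6))))) (a (a (b (l 3) (b (l 3) (l 6))) (l 3)) (l 3))) (a (b (a (l 16781744) (l 6)) (l 6)) (l 6)))))))), by decide +kernel⟩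

theorem s7_pm_113 : ∃ t, chk3 f_pm_113 t 15 7 1 = true := ex3_b k5_pm_113 k6_pm_113

theorem s8_pm_113 : ∃ t, chk3 f_pm_113 t 7 7 1 = true := ex3_a k4_pm_113 s7_pm_113

theorem s9_pm_113 : ∃ t, chk3 f_pm_113 t 3 7 1 = true := ex3_a k3_pm_113 s8_pm_113

theorem s10_pm_113 : ∃ t, chk3 f_pm_113 t 3 3 1 = true := ex3_b k2_pm_113 s9_pm_113

theorem s11_pm_113 : ∃ t, chk3 f_pm_113 t 1 3 1 = true := ex3_a k1_pm_113 s10_pm_113

theorem s12_pm_113 : ∃ t, chk3 f_pm_113 t 1 1 1 = true := ex3_b k0_pm_113 s11_pm_113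

theorem c_pm_113 : CertB 536870912 536870912 1610612736 536870912 818728140 40265320 3 eng mog cd0q1 cd1q3 pd1 false true false .nn 1 1 3
    ndB0q1 ndB1q3 pcB1 cut_pm_113 Ext.none :=
  certB1 (fam := false) (s1 := true) (s2 := false) (a := 1) (b := 1) (c := 3) (cn := .nn) (n1 := ndB0q1) (n2 := ndB1q3) (pc := pcB1) (cut := cut_pm_113) (xt := Ext.none) (P1 := 536870912) (W1 := 536870912) (P2 := 1610612736) (W2 := 536870912) (P3 := 818728140) (W3 := 40265320) (N0 := 3) (En := eng) (mo := mog) (C1 := cd0q1) (C2 := cd1q3) (C3 := pd1)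
    rfl (fun _ => rfl) s12_pm_113

noncomputable def cut_pm_123 : Cut := Cut.of [[⟨0, 1, 0, 67108864⟩, ⟨1, 1, 0, 67108864⟩, ⟨2, 2, 0, 16777216⟩]]

noncomputable def f_pm_123 : ℕ → ℕ → ℕ → ℕ → Bool := onCell 536870912 536870912 1073741824 536870912 818728140 40265320
    (rowB 3 eng mog cd0q1 cd1q3 pd2 1 false true false .npn 1 2 3 (qsf 536870912 536870912 1610612736 536870912 2) ndB0q1 ndB1q3 pcB2 cut_pm_123 Ext.none)

def k0_pm_123 : ∃ t, chk3 f_pm_123 t 2 1 1 = true :=
  ⟨(b (a (b (a (b (a (b (l 15577816) (l 15654064)) (b (l 15589984) (l 15671536))) (b (a (l 15726904) (l 15749840)) (l 15810168))) (b (b (a (l 15613488) (l 15650416)) (a (l 15700792) (l 15743992))) (b (l 15808344) (l 15892776)))) (a (b (l 15913440) (l 16039872)) (b (l 16014144) (l 16162952)))) (b (a (b (a (b (l 15703752) (l 15804136)) (b (l 15782088) (l 15890592))) (b (l 15945920) (l 16044024))) (b (b (a (l 15897256) (l 16051712)) (a (l 16014568) (l 16175568))) (b (l 16200848) (l 16298048)))) (a (b (l 16181776) (l 16302432)) (b (l 16353928)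 (l 16284216))))) (a (b (a (l 16207520) (b (l 16280120) (l 16375808))) (a (b (l 16362264) (l 16456872)) (l 16526696))) (b (a (b (l 16392344) (l 16496056)) (b (l 16533640) (l 16632664))) (a (b (l 16591152) (l 2)) (l 2))))), by decide +kernel⟩

def k1_pm_123 : ∃ t, chk3 f_pm_123 t 3 1 1 = true :=
  ⟨(b (a (b (a (b (a (b (l 16254104) (l 16336032)) (b (l 16351288) (l 16399840))) (b (l 16397400) (l 16426752))) (b (a (b (b (l 16431408) (l 16440424)) (l 16455200)) (c (b (l 16507472) (l 16524896)) (l 16409272))) (a (l 16495424) (b (l 16542896) (l 16579888))))) (a (b (b (l 16461856) (l 16500344)) (l 16574440)) (b (b (a (l 16555832) (b (l 16620352) (l 16648248))) (a (l 16609528) (l 16681472))) (a (l 16679656) (l 2))))) (b (b (b (a (a (l 16559968) (l 16605440)) (a (a (l 16672824) (b (l 16698664) (l 16708728))) (b (b (a (l 16727792) (a (b (l 16751600) (l 6)) (l 6))) (a (l 16774752) (a (l 6) (l 1213428887911)))) (a (l 16743808) (l 1211281366631))))) (a (a (l 16580160) (a (l 16630792) (l 16663792))) (a (a (l 16699176) (l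 16732680)) (a (l 863388765319) (l 2))))) (b (a (a (l 16610144) (l 16681432)) (a (l 863388732951) (l 2))) (a (a (l 16658736) (l 16735984)) (l 2)))) (a (b (b (b (l 432818666887) (l 2)) (l 2)) (l 2)) (l 2)))) (a (b (a (b (l 16676744) (l 2)) (l 2)) (l 2)) (l 2))), by decide +kernel⟩

theorem s2_pm_123 : ∃ t, chk3 f_pm_123 t 1 1 1 = true := ex3_a k0_pm_123 k1_pm_123

theorem c_pm_123 : CertB 536870912 536870912 1610612736 536870912 818728140 40265320 3 eng mog cd0q1 cd1q3 pd2 false true false .npn 1 2 3
    ndB0q1 ndB1q3 pcB2 cut_pm_123 Ext.none :=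
  certB1 (fam := false) (s1 := true) (s2 := false) (a := 1) (b := 2) (c := 3) (cn := .npn) (n1 := ndB0q1) (n2 := ndB1q3) (pc := pcB2) (cut := cut_pm_123) (xt := Ext.none) (P1 := 536870912) (W1 := 536870912) (P2 := 1610612736) (W2 := 536870912) (P3 := 818728140) (W3 := 40265320) (N0 := 3) (En := eng) (mo := mog) (C1 := cd0q1) (C2 := cd1q3) (C3 := pd2)
    rfl (fun _ => rfl) s2_pm_123

noncomputable def f_pm_133 : ℕ → ℕ → ℕ → ℕ → Bool := onCell 536870912 536870912 1610612736 536870912 818728140 40265320
    (rowB 3 eng mog cd0q1 cd1q3 pd3 0 false true false .dn 1 3 3 (qsf 536870912 536870912 1610612736 536870912 3) ndB0q1 ndB1q3 pcB3 Cut.none Ext.none)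

def k0_pm_133 : ∃ t, chk3 f_pm_133 t 1 1 1 = true :=
  ⟨(a (b (l 1) (a (b (l 1) (a (b (l 1) (l 16539704)) (l 1))) (l 1))) (l 1)), by decide +kernel⟩

theorem c_pm_133 : CertB 536870912 536870912 1610612736 536870912 818728140 40265320 3 eng mog cd0q1 cd1q3 pd3 false true false .dn 1 3 3
    ndB0q1 ndB1q3 pcB3 Cut.none Ext.none :=
  certB0 (fam := false) (s1 := true) (s2 := false) (a := 1) (b := 3) (c := 3) (cn := .dn) (n1 := ndB0q1) (n2 := ndB1q3) (pc := pcB3) (cut := Cut.none) (xt := Ext.none) (P1 := 536870912) (W1 := 536870912) (P2 := 1610612736) (W2 := 536870912) (P3 := 818728140) (W3 := 40265320) (N0 := 3) (En := eng) (mo := mog) (C1 := cd0q1) (C2 := cd1q3) (C3 := pd3)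
    rfl k0_pm_133

noncomputable def cut_pm_202_a : Cut := Cut.of [[⟨0, 1, 0, 67108864⟩, ⟨1, 0, 0, 67108864⟩, ⟨2, 1, 0, 67108864⟩]]

noncomputable def f_pm_202_a : ℕ → ℕ → ℕ → ℕ → Bool := onCell 0 536870912 0 536870912 818728140 40265320
    (rowB 3 eng mog cd0q2 cd1q2a pd0 0 false true false .pp 2 0 2 (qsf 0 536870912 0 536870912 0) ndB0q2 ndB1q2a pcB0 cut_pm_202_a Ext.none)

def k0_pm_202_a : ∃ t, chk3 f_pm_202_a t 1 1 1 = true :=
  ⟨(a (l 3) (b (l 3) (a (l 3) (b (l 3) (a (l 3) (b (l 3) (l 6))))))), by decide +kernel⟩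

theorem c_pm_202_a : CertB 0 536870912 0 536870912 818728140 40265320 3 eng mog cd0q2 cd1q2a pd0 false true false .pp 2 0 2
    ndB0q2 ndB1q2a pcB0 cut_pm_202_a Ext.none :=
  certB0 (fam := false) (s1 := true) (s2 := false) (a := 2) (b := 0) (c := 2) (cn := .pp) (n1 := ndB0q2) (n2 := ndB1q2a) (pc := pcB0) (cut := cut_pm_202_a) (xt := Ext.none) (P1 := 0) (W1 := 536870912) (P2 := 0) (W2 := 536870912) (P3 := 818728140) (W3 := 40265320) (N0 := 3) (En := eng) (mo := mog) (C1 := cd0q2) (C2 := cd1q2a) (C3 := pd0)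
    rfl k0_pm_202_a

noncomputable def cut_pm_202_b : Cut := Cut.of [[⟨0, 1, 0, 67108864⟩, ⟨1, 0, 0, 67108864⟩, ⟨2, 1, 0, 67108864⟩]]

noncomputable def f_pm_202_b : ℕ → ℕ → ℕ → ℕ → Bool := onCell 0 536870912 1239849684 370763052 818728140 40265320
    (rowB 3 eng mog cd0q2 cd1q2b pd0 0 false true false .pp 2 0 2 (qsf 0 536870912 1239849684 370763052 0) ndB0q2 ndB1q2b pcB0 cut_pm_202_b Ext.none)

def k0_pm_202_b : ∃ t, chk3 f_pm_202_b t 1 1 1 = true :=
  ⟨(l 3), by decide +kernel⟩

theorem c_pm_202_b : CertB 0 536870912 1239849684 370763052 818728140 40265320 3 eng mog cd0q2 cd1q2b pd0 false true false .pp 2 0 2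
    ndB0q2 ndB1q2b pcB0 cut_pm_202_b Ext.none :=
  certB0 (fam := false) (s1 := true) (s2 := false) (a := 2) (b := 0) (c := 2) (cn := .pp) (n1 := ndB0q2) (n2 := ndB1q2b) (pc := pcB0) (cut := cut_pm_202_b) (xt := Ext.none) (P1 := 0) (W1 := 536870912) (P2 := 1239849684) (W2 := 370763052) (P3 := 818728140) (W3 := 40265320) (N0 := 3) (En := eng) (mo := mog) (C1 := cd0q2) (C2 := cd1q2b) (C3 := pd0)
    rfl k0_pm_202_b

noncomputable def f_pm_203 : ℕ → ℕ → ℕ → ℕ → Bool := onCell 0 536870912 0 536870912 818728140 40265320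
    (rowB 3 eng mog cd0q2 cd1q3 pd0 1 false true false .up 2 0 3 (qsf 0 536870912 1610612736 536870912 0) ndB0q2 ndB1q3 pcB0 Cut.none Ext.none)

def k0_pm_203 : ∃ t, chk3 f_pm_203 t 1 1 1 = true :=
  ⟨(l 3), by decide +kernel⟩

theorem c_pm_203 : CertB 0 536870912 1610612736 536870912 818728140 40265320 3 eng mog cd0q2 cd1q3 pd0 false true false .up 2 0 3
    ndB0q2 ndB1q3 pcB0 Cut.none Ext.none :=
  certB1 (fam := false) (s1 := true) (s2 := false) (a := 2) (b := 0) (c := 3) (cn := .up) (n1 := ndB0q2) (n2 := ndB1q3) (pc := pcB0) (cut := Cut.none) (xt := Ext.none) (P1 := 0) (W1 := 536870912) (P2 := 1610612736) (W2 := 536870912) (P3 := 818728140) (W3 := 40265320) (N0 := 3) (En := eng) (mo := mog) (C1 := cd0q2) (C2 := cd1q3) (C3 := pd0)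
    rfl (fun _ => rfl) k0_pm_203

noncomputable def cut_pm_213 : Cut := Cut.of [[⟨0, 1, 0, 67108864⟩, ⟨1, 1, 0, 67108864⟩, ⟨2, 2, 0, 16777216⟩]]

noncomputable def f_pm_213 : ℕ → ℕ → ℕ → ℕ → Bool := onCell 0 536870912 1610612736 536870912 818728140 40265320
    (rowB 3 eng mog cd0q2 cd1q3 pd1 0 false true false .pnn 2 1 3 (qsf 0 536870912 1610612736 536870912 1) ndB0q2 ndB1q3 pcB1 cut_pm_213 Ext.none)

def k0_pm_213 : ∃ t, chk3 f_pm_213 t 1 1 1 = true :=
  ⟨(b (l 3) (a (l 3) (b (l 3) (a (l 3) (b (l 3) (a (l 3) (a (l 3) (b (l 3) (b (l 3) (b (l 3) (l 6))))))))))), by decide +kernel⟩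

theorem c_pm_213 : CertB 0 536870912 1610612736 536870912 818728140 40265320 3 eng mog cd0q2 cd1q3 pd1 false true false .pnn 2 1 3
    ndB0q2 ndB1q3 pcB1 cut_pm_213 Ext.none :=
  certB0 (fam := false) (s1 := true) (s2 := false) (a := 2) (b := 1) (c := 3) (cn := .pnn) (n1 := ndB0q2) (n2 := ndB1q3) (pc := pcB1) (cut := cut_pm_213) (xt := Ext.none) (P1 := 0) (W1 := 536870912) (P2 := 1610612736) (W2 := 536870912) (P3 := 818728140) (W3 := 40265320) (N0 := 3) (En := eng) (mo := mog) (C1 := cd0q2) (C2 := cd1q3) (C3 := pd1)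
    rfl k0_pm_213

noncomputable def f_mm_001 : ℕ → ℕ → ℕ → ℕ → Bool := onCell 0 536870912 536870912 536870912 818728140 40265320
    (rowB 3 eng mog cd0q0 cd1q1 pd0 0 false false false .up 0 0 1 (qsf 0 536870912 536870912 536870912 0) ndB0q0 ndB1q1 pcB0 Cut.none Ext.none)

def k0_mm_001 : ∃ t, chk3 f_mm_001 t 1 1 1 = true :=
  ⟨(l 3), by decide +kernel⟩

theorem c_mm_001 : CertB 0 536870912 536870912 536870912 818728140 40265320 3 eng mog cd0q0 cd1q1 pd0 false false false .up 0 0 1
    ndB0q0 ndB1q1 pcB0 Cut.none Ext.none :=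
  certB0 (fam := false) (s1 := false) (s2 := false) (a := 0) (b := 0) (c := 1) (cn := .up) (n1 := ndB0q0) (n2 := ndB1q1) (pc := pcB0) (cut := Cut.none) (xt := Ext.none) (P1 := 0) (W1 := 536870912) (P2 := 536870912) (W2 := 536870912) (P3 := 818728140) (W3 := 40265320) (N0 := 3) (En := eng) (mo := mog) (C1 := cd0q0) (C2 := cd1q1) (C3 := pd0)
    rfl k0_mm_001

noncomputable def f_mm_011 : ℕ → ℕ → ℕ → ℕ → Bool := onCell 0 536870912 536870912 536870912 818728140 40265320
    (rowB 3 eng mog cd0q0 cd1q1 pd1 0 false false false .pnn 0 1 1 (qsf 0 536870912 536870912 536870912 1) ndB0q0 ndB1q1 pcB1 Cut.none Ext.none)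

def k0_mm_011 : ∃ t, chk3 f_mm_011 t 1 1 1 = true :=
  ⟨(l 3), by decide +kernel⟩

theorem c_mm_011 : CertB 0 536870912 536870912 536870912 818728140 40265320 3 eng mog cd0q0 cd1q1 pd1 false false false .pnn 0 1 1
    ndB0q0 ndB1q1 pcB1 Cut.none Ext.none :=
  certB0 (fam := false) (s1 := false) (s2 := false) (a := 0) (b := 1) (c := 1) (cn := .pnn) (n1 := ndB0q0) (n2 := ndB1q1) (pc := pcB1) (cut := Cut.none) (xt := Ext.none) (P1 := 0) (W1 := 536870912) (P2 := 536870912) (W2 := 536870912) (P3 := 818728140) (W3 := 40265320) (N0 := 3) (En := eng) (mo := mog) (C1 := cd0q0) (C2 := cd1q1) (C3 := pd1)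
    rfl k0_mm_011

noncomputable def f_mm_012_a : ℕ → ℕ → ℕ → ℕ → Bool := onCell 0 536870912 0 536870912 818728140 40265320
    (rowB 3 eng mog cd0q0 cd1q2a pd1 0 false false false .pnp 0 1 2 (qsf 0 536870912 0 536870912 1) ndB0q0 ndB1q2a pcB1 Cut.none Ext.none)

def k0_mm_012_a : ∃ t, chk3 f_mm_012_a t 1 1 1 = true :=
  ⟨(l 5), by decide +kernel⟩

theorem c_mm_012_a : CertB 0 536870912 0 536870912 818728140 40265320 3 eng mog cd0q0 cd1q2a pd1 false false false .pnp 0 1 2
    ndB0q0 ndB1q2a pcB1 Cut.none Ext.none :=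
  certB0 (fam := false) (s1 := false) (s2 := false) (a := 0) (b := 1) (c := 2) (cn := .pnp) (n1 := ndB0q0) (n2 := ndB1q2a) (pc := pcB1) (cut := Cut.none) (xt := Ext.none) (P1 := 0) (W1 := 536870912) (P2 := 0) (W2 := 536870912) (P3 := 818728140) (W3 := 40265320) (N0 := 3) (En := eng) (mo := mog) (C1 := cd0q0) (C2 := cd1q2a) (C3 := pd1)
    rfl k0_mm_012_a

noncomputable def f_mm_012_b : ℕ → ℕ → ℕ → ℕ → Bool := onCell 0 536870912 1239849684 370763052 818728140 40265320
    (rowB 3 eng mog cd0q0 cd1q2b pd1 0 false false false .pnp 0 1 2 (qsf 0 536870912 1239849684 370763052 1) ndB0q0 ndB1q2b pcB1 Cut.none Ext.none)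

def k0_mm_012_b : ∃ t, chk3 f_mm_012_b t 1 1 1 = true :=
  ⟨(l 5), by decide +kernel⟩

theorem c_mm_012_b : CertB 0 536870912 1239849684 370763052 818728140 40265320 3 eng mog cd0q0 cd1q2b pd1 false false false .pnp 0 1 2
    ndB0q0 ndB1q2b pcB1 Cut.none Ext.none :=
  certB0 (fam := false) (s1 := false) (s2 := false) (a := 0) (b := 1) (c := 2) (cn := .pnp) (n1 := ndB0q0) (n2 := ndB1q2b) (pc := pcB1) (cut := Cut.none) (xt := Ext.none) (P1 := 0) (W1 := 536870912) (P2 := 1239849684) (W2 := 370763052) (P3 := 818728140) (W3 := 40265320) (N0 := 3) (En := eng) (mo := mog) (C1 := cd0q0) (C2 := cd1q2b) (C3 := pd1)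
    rfl k0_mm_012_b

noncomputable def f_mm_022_a : ℕ → ℕ → ℕ → ℕ → Bool := onCell 0 536870912 0 536870912 818728140 40265320
    (rowB 3 eng mog cd0q0 cd1q2a pd2 0 false false false .pp 0 2 2 (qsf 0 536870912 0 536870912 2) ndB0q0 ndB1q2a pcB2 Cut.none Ext.none)

def k0_mm_022_a : ∃ t, chk3 f_mm_022_a t 1 1 1 = true :=
  ⟨(l 5), by decide +kernel⟩

theorem c_mm_022_a : CertB 0 536870912 0 536870912 818728140 40265320 3 eng mog cd0q0 cd1q2a pd2 false false false .pp 0 2 2
    ndB0q0 ndB1q2a pcB2 Cut.none Ext.none :=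
  certB0 (fam := false) (s1 := false) (s2 := false) (a := 0) (b := 2) (c := 2) (cn := .pp) (n1 := ndB0q0) (n2 := ndB1q2a) (pc := pcB2) (cut := Cut.none) (xt := Ext.none) (P1 := 0) (W1 := 536870912) (P2 := 0) (W2 := 536870912) (P3 := 818728140) (W3 := 40265320) (N0 := 3) (En := eng) (mo := mog) (C1 := cd0q0) (C2 := cd1q2a) (C3 := pd2)
    rfl k0_mm_022_a

noncomputable def f_mm_022_b : ℕ → ℕ → ℕ → ℕ → Bool := onCell 0 536870912 1239849684 370763052 818728140 40265320
    (rowB 3 eng mog cd0q0 cd1q2b pd2 0 false false false .pp 0 2 2 (qsf 0 536870912 1239849684 370763052 2) ndB0q0 ndB1q2b pcB2 Cut.none Ext.none)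

def k0_mm_022_b : ∃ t, chk3 f_mm_022_b t 1 1 1 = true :=
  ⟨(l 5), by decide +kernel⟩

theorem c_mm_022_b : CertB 0 536870912 1239849684 370763052 818728140 40265320 3 eng mog cd0q0 cd1q2b pd2 false false false .pp 0 2 2
    ndB0q0 ndB1q2b pcB2 Cut.none Ext.none :=
  certB0 (fam := false) (s1 := false) (s2 := false) (a := 0) (b := 2) (c := 2) (cn := .pp) (n1 := ndB0q0) (n2 := ndB1q2b) (pc := pcB2) (cut := Cut.none) (xt := Ext.none) (P1 := 0) (W1 := 536870912) (P2 := 1239849684) (W2 := 370763052) (P3 := 818728140) (W3 := 40265320) (N0 := 3) (En := eng) (mo := mog) (C1 := cd0q0) (C2 := cd1q2b) (C3 := pd2)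
    rfl k0_mm_022_b

noncomputable def f_mm_023 : ℕ → ℕ → ℕ → ℕ → Bool := onCell 0 536870912 1610612736 536870912 818728140 40265320
    (rowB 3 eng mog cd0q0 cd1q3 pd2 0 false false false .up 0 2 3 (qsf 0 536870912 1610612736 536870912 2) ndB0q0 ndB1q3 pcB2 Cut.none Ext.none)

def k0_mm_023 : ∃ t, chk3 f_mm_023 t 1 1 1 = true :=
  ⟨(l 5), by decide +kernel⟩

theorem c_mm_023 : CertB 0 536870912 1610612736 536870912 818728140 40265320 3 eng mog cd0q0 cd1q3 pd2 false false false .up 0 2 3
    ndB0q0 ndB1q3 pcB2 Cut.none Ext.none :=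
  certB0 (fam := false) (s1 := false) (s2 := false) (a := 0) (b := 2) (c := 3) (cn := .up) (n1 := ndB0q0) (n2 := ndB1q3) (pc := pcB2) (cut := Cut.none) (xt := Ext.none) (P1 := 0) (W1 := 536870912) (P2 := 1610612736) (W2 := 536870912) (P3 := 818728140) (W3 := 40265320) (N0 := 3) (En := eng) (mo := mog) (C1 := cd0q0) (C2 := cd1q3) (C3 := pd2)
    rfl k0_mm_023

noncomputable def f_mm_033 : ℕ → ℕ → ℕ → ℕ → Bool := onCell 0 536870912 1610612736 536870912 818728140 40265320
    (rowB 3 eng mog cd0q0 cd1q3 pd3 0 false false false .pnn 0 3 3 (qsf 0 536870912 1610612736 536870912 3) ndB0q0 ndB1q3 pcB3 Cut.none Ext.none)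

def k0_mm_033 : ∃ t, chk3 f_mm_033 t 1 1 1 = true :=
  ⟨(l 5), by decide +kernel⟩

theorem c_mm_033 : CertB 0 536870912 1610612736 536870912 818728140 40265320 3 eng mog cd0q0 cd1q3 pd3 false false false .pnn 0 3 3
    ndB0q0 ndB1q3 pcB3 Cut.none Ext.none :=
  certB0 (fam := false) (s1 := false) (s2 := false) (a := 0) (b := 3) (c := 3) (cn := .pnn) (n1 := ndB0q0) (n2 := ndB1q3) (pc := pcB3) (cut := Cut.none) (xt := Ext.none) (P1 := 0) (W1 := 536870912) (P2 := 1610612736) (W2 := 536870912) (P3 := 818728140) (W3 := 40265320) (N0 := 3) (En := eng) (mo := mog) (C1 := cd0q0) (C2 := cd1q3) (C3 := pd3)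
    rfl k0_mm_033

noncomputable def f_mm_101 : ℕ → ℕ → ℕ → ℕ → Bool := onCell 536870912 536870912 536870912 536870912 818728140 40265320
    (rowB 3 eng mog cd0q1 cd1q1 pd0 0 false false false .npn 1 0 1 (qsf 536870912 536870912 536870912 536870912 0) ndB0q1 ndB1q1 pcB0 Cut.none Ext.none)

def k0_mm_101 : ∃ t, chk3 f_mm_101 t 1 1 1 = true :=
  ⟨(l 3), by decide +kernel⟩

theorem c_mm_101 : CertB 536870912 536870912 536870912 536870912 818728140 40265320 3 eng mog cd0q1 cd1q1 pd0 false false false .npn 1 0 1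
    ndB0q1 ndB1q1 pcB0 Cut.none Ext.none :=
  certB0 (fam := false) (s1 := false) (s2 := false) (a := 1) (b := 0) (c := 1) (cn := .npn) (n1 := ndB0q1) (n2 := ndB1q1) (pc := pcB0) (cut := Cut.none) (xt := Ext.none) (P1 := 536870912) (W1 := 536870912) (P2 := 536870912) (W2 := 536870912) (P3 := 818728140) (W3 := 40265320) (N0 := 3) (En := eng) (mo := mog) (C1 := cd0q1) (C2 := cd1q1) (C3 := pd0)
    rfl k0_mm_101

noncomputable def f_mm_102_a : ℕ → ℕ → ℕ → ℕ → Bool := onCell 536870912 536870912 0 536870912 818728140 40265320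
    (rowB 3 eng mog cd0q1 cd1q2a pd0 0 false false false .npp 1 0 2 (qsf 536870912 536870912 0 536870912 0) ndB0q1 ndB1q2a pcB0 Cut.none Ext.none)

def k0_mm_102_a : ∃ t, chk3 f_mm_102_a t 1 1 1 = true :=
  ⟨(a (l 3) (l 3)), by decide +kernel⟩

theorem c_mm_102_a : CertB 536870912 536870912 0 536870912 818728140 40265320 3 eng mog cd0q1 cd1q2a pd0 false false false .npp 1 0 2
    ndB0q1 ndB1q2a pcB0 Cut.none Ext.none :=
  certB0 (fam := false) (s1 := false) (s2 := false) (a := 1) (b := 0) (c := 2) (cn := .npp) (n1 := ndB0q1) (n2 := ndB1q2a) (pc := pcB0) (cut := Cut.none) (xt := Ext.none) (P1 := 536870912) (W1 := 536870912) (P2 := 0) (W2 := 536870912) (P3 := 818728140) (W3 := 40265320) (N0 := 3) (En := eng) (mo := mog) (C1 := cd0q1) (C2 := cd1q2a) (C3 := pd0)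
    rfl k0_mm_102_a

noncomputable def f_mm_102_b : ℕ → ℕ → ℕ → ℕ → Bool := onCell 536870912 536870912 1239849684 370763052 818728140 40265320
    (rowB 3 eng mog cd0q1 cd1q2b pd0 0 false false false .npp 1 0 2 (qsf 536870912 536870912 1239849684 370763052 0) ndB0q1 ndB1q2b pcB0 Cut.none Ext.none)

def k0_mm_102_b : ∃ t, chk3 f_mm_102_b t 1 1 1 = true :=
  ⟨(l 5), by decide +kernel⟩

theorem c_mm_102_b : CertB 536870912 536870912 1239849684 370763052 818728140 40265320 3 eng mog cd0q1 cd1q2b pd0 false false false .npp 1 0 2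
    ndB0q1 ndB1q2b pcB0 Cut.none Ext.none :=
  certB0 (fam := false) (s1 := false) (s2 := false) (a := 1) (b := 0) (c := 2) (cn := .npp) (n1 := ndB0q1) (n2 := ndB1q2b) (pc := pcB0) (cut := Cut.none) (xt := Ext.none) (P1 := 536870912) (W1 := 536870912) (P2 := 1239849684) (W2 := 370763052) (P3 := 818728140) (W3 := 40265320) (N0 := 3) (En := eng) (mo := mog) (C1 := cd0q1) (C2 := cd1q2b) (C3 := pd0)
    rfl k0_mm_102_b

noncomputable def f_mm_112_a : ℕ → ℕ → ℕ → ℕ → Bool := onCell 536870912 536870912 0 536870912 818728140 40265320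
    (rowB 3 eng mog cd0q1 cd1q2a pd1 2 false false false .dn 1 1 2 (qsf 536870912 536870912 0 536870912 1) ndB0q1 ndB1q2a pcB1 Cut.none Ext.none)

def k0_mm_112_a : ∃ t, chk3 f_mm_112_a t 1 1 1 = true :=
  ⟨(l 5), by decide +kernel⟩

theorem c_mm_112_a : CertB 536870912 536870912 0 536870912 818728140 40265320 3 eng mog cd0q1 cd1q2a pd1 false false false .dn 1 1 2
    ndB0q1 ndB1q2a pcB1 Cut.none Ext.none :=
  certB2 (fam := false) (s1 := false) (s2 := false) (a := 1) (b := 1) (c := 2) (cn := .dn) (n1 := ndB0q1) (n2 := ndB1q2a) (pc := pcB1) (cut := Cut.none) (xt := Ext.none) (P1 := 536870912) (W1 := 536870912) (P2 := 0) (W2 := 536870912) (P3 := 818728140) (W3 := 40265320) (N0 := 3) (En := eng) (mo := mog) (C1 := cd0q1) (C2 := cd1q2a) (C3 := pd1)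
    rfl (fun _ => rfl) k0_mm_112_a

noncomputable def f_mm_112_b : ℕ → ℕ → ℕ → ℕ → Bool := onCell 536870912 536870912 1239849684 370763052 818728140 40265320
    (rowB 3 eng mog cd0q1 cd1q2b pd1 0 false false false .dn 1 1 2 (qsf 536870912 536870912 1239849684 370763052 1) ndB0q1 ndB1q2b pcB1 Cut.none Ext.none)

def k0_mm_112_b : ∃ t, chk3 f_mm_112_b t 1 1 1 = true :=
  ⟨(l 5), by decide +kernel⟩

theorem c_mm_112_b : CertB 536870912 536870912 1239849684 370763052 818728140 40265320 3 eng mog cd0q1 cd1q2b pd1 false false false .dn 1 1 2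
    ndB0q1 ndB1q2b pcB1 Cut.none Ext.none :=
  certB0 (fam := false) (s1 := false) (s2 := false) (a := 1) (b := 1) (c := 2) (cn := .dn) (n1 := ndB0q1) (n2 := ndB1q2b) (pc := pcB1) (cut := Cut.none) (xt := Ext.none) (P1 := 536870912) (W1 := 536870912) (P2 := 1239849684) (W2 := 370763052) (P3 := 818728140) (W3 := 40265320) (N0 := 3) (En := eng) (mo := mog) (C1 := cd0q1) (C2 := cd1q2b) (C3 := pd1)
    rfl k0_mm_112_b

noncomputable def f_mm_113 : ℕ → ℕ → ℕ → ℕ → Bool := onCell 536870912 536870912 1610612736 536870912 818728140 40265320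
    (rowB 3 eng mog cd0q1 cd1q3 pd1 0 false false false .nn 1 1 3 (qsf 536870912 536870912 1610612736 536870912 1) ndB0q1 ndB1q3 pcB1 Cut.none Ext.none)

def k0_mm_113 : ∃ t, chk3 f_mm_113 t 1 1 1 = true :=
  ⟨(l 5), by decide +kernel⟩

theorem c_mm_113 : CertB 536870912 536870912 1610612736 536870912 818728140 40265320 3 eng mog cd0q1 cd1q3 pd1 false false false .nn 1 1 3
    ndB0q1 ndB1q3 pcB1 Cut.none Ext.none :=
  certB0 (fam := false) (s1 := false) (s2 := false) (a := 1) (b := 1) (c := 3) (cn := .nn) (n1 := ndB0q1) (n2 := ndB1q3) (pc := pcB1) (cut := Cut.none) (xt := Ext.none) (P1 := 536870912) (W1 := 536870912) (P2 := 1610612736) (W2 := 536870912) (P3 := 818728140) (W3 := 40265320) (N0 := 3) (En := eng) (mo := mog) (C1 := cd0q1) (C2 := cd1q3) (C3 := pd1)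
    rfl k0_mm_113

noncomputable def f_mm_123 : ℕ → ℕ → ℕ → ℕ → Bool := onCell 536870912 536870912 1610612736 536870912 818728140 40265320
    (rowB 3 eng mog cd0q1 cd1q3 pd2 0 false false false .npn 1 2 3 (qsf 536870912 536870912 1610612736 536870912 2) ndB0q1 ndB1q3 pcB2 Cut.none Ext.none)

def k0_mm_123 : ∃ t, chk3 f_mm_123 t 1 1 1 = true :=
  ⟨(l 5), by decide +kernel⟩

theorem c_mm_123 : CertB 536870912 536870912 1610612736 536870912 818728140 40265320 3 eng mog cd0q1 cd1q3 pd2 false false false .npn 1 2 3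
    ndB0q1 ndB1q3 pcB2 Cut.none Ext.none :=
  certB0 (fam := false) (s1 := false) (s2 := false) (a := 1) (b := 2) (c := 3) (cn := .npn) (n1 := ndB0q1) (n2 := ndB1q3) (pc := pcB2) (cut := Cut.none) (xt := Ext.none) (P1 := 536870912) (W1 := 536870912) (P2 := 1610612736) (W2 := 536870912) (P3 := 818728140) (W3 := 40265320) (N0 := 3) (En := eng) (mo := mog) (C1 := cd0q1) (C2 := cd1q3) (C3 := pd2)
    rfl k0_mm_123

noncomputable def f_mm_133 : ℕ → ℕ → ℕ → ℕ → Bool := onCell 536870912 536870912 1610612736 536870912 818728140 40265320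
    (rowB 3 eng mog cd0q1 cd1q3 pd3 0 false false false .dn 1 3 3 (qsf 536870912 536870912 1610612736 536870912 3) ndB0q1 ndB1q3 pcB3 Cut.none Ext.none)

def k0_mm_133 : ∃ t, chk3 f_mm_133 t 1 1 1 = true :=
  ⟨(l 5), by decide +kernel⟩

theorem c_mm_133 : CertB 536870912 536870912 1610612736 536870912 818728140 40265320 3 eng mog cd0q1 cd1q3 pd3 false false false .dn 1 3 3
    ndB0q1 ndB1q3 pcB3 Cut.none Ext.none :=
  certB0 (fam := false) (s1 := false) (s2 := false) (a := 1) (b := 3) (c := 3) (cn := .dn) (n1 := ndB0q1) (n2 := ndB1q3) (pc := pcB3) (cut := Cut.none) (xt := Ext.none) (P1 := 536870912) (W1 := 536870912) (P2 := 1610612736) (W2 := 536870912) (P3 := 818728140) (W3 := 40265320) (N0 := 3) (En := eng) (mo := mog) (C1 := cd0q1) (C2 := cd1q3) (C3 := pd3)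
    rfl k0_mm_133

noncomputable def f_mm_202_a : ℕ → ℕ → ℕ → ℕ → Bool := onCell 0 536870912 0 536870912 818728140 40265320
    (rowB 3 eng mog cd0q2 cd1q2a pd0 0 false false false .pp 2 0 2 (qsf 0 536870912 0 536870912 0) ndB0q2 ndB1q2a pcB0 Cut.none Ext.none)

def k0_mm_202_a : ∃ t, chk3 f_mm_202_a t 1 1 1 = true :=
  ⟨(l 3), by decide +kernel⟩

theorem c_mm_202_a : CertB 0 536870912 0 536870912 818728140 40265320 3 eng mog cd0q2 cd1q2a pd0 false false false .pp 2 0 2
    ndB0q2 ndB1q2a pcB0 Cut.none Ext.none :=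
  certB0 (fam := false) (s1 := false) (s2 := false) (a := 2) (b := 0) (c := 2) (cn := .pp) (n1 := ndB0q2) (n2 := ndB1q2a) (pc := pcB0) (cut := Cut.none) (xt := Ext.none) (P1 := 0) (W1 := 536870912) (P2 := 0) (W2 := 536870912) (P3 := 818728140) (W3 := 40265320) (N0 := 3) (En := eng) (mo := mog) (C1 := cd0q2) (C2 := cd1q2a) (C3 := pd0)
    rfl k0_mm_202_a

noncomputable def f_mm_202_b : ℕ → ℕ → ℕ → ℕ → Bool := onCell 0 536870912 1239849684 370763052 818728140 40265320
    (rowB 3 eng mog cd0q2 cd1q2b pd0 0 false false false .pp 2 0 2 (qsf 0 536870912 1239849684 370763052 0) ndB0q2 ndB1q2b pcB0 Cut.none Ext.none)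

def k0_mm_202_b : ∃ t, chk3 f_mm_202_b t 1 1 1 = true :=
  ⟨(l 3), by decide +kernel⟩

theorem c_mm_202_b : CertB 0 536870912 1239849684 370763052 818728140 40265320 3 eng mog cd0q2 cd1q2b pd0 false false false .pp 2 0 2
    ndB0q2 ndB1q2b pcB0 Cut.none Ext.none :=
  certB0 (fam := false) (s1 := false) (s2 := false) (a := 2) (b := 0) (c := 2) (cn := .pp) (n1 := ndB0q2) (n2 := ndB1q2b) (pc := pcB0) (cut := Cut.none) (xt := Ext.none) (P1 := 0) (W1 := 536870912) (P2 := 1239849684) (W2 := 370763052) (P3 := 818728140) (W3 := 40265320) (N0 := 3) (En := eng) (mo := mog) (C1 := cd0q2) (C2 := cd1q2b) (C3 := pd0)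
    rfl k0_mm_202_b

noncomputable def f_mm_203 : ℕ → ℕ → ℕ → ℕ → Bool := onCell 0 536870912 0 536870912 818728140 40265320
    (rowB 3 eng mog cd0q2 cd1q3 pd0 1 false false false .up 2 0 3 (qsf 0 536870912 1610612736 536870912 0) ndB0q2 ndB1q3 pcB0 Cut.none Ext.none)

def k0_mm_203 : ∃ t, chk3 f_mm_203 t 1 1 1 = true :=
  ⟨(l 3), by decide +kernel⟩

theorem c_mm_203 : CertB 0 536870912 1610612736 536870912 818728140 40265320 3 eng mog cd0q2 cd1q3 pd0 false false false .up 2 0 3
    ndB0q2 ndB1q3 pcB0 Cut.none Ext.none :=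
  certB1 (fam := false) (s1 := false) (s2 := false) (a := 2) (b := 0) (c := 3) (cn := .up) (n1 := ndB0q2) (n2 := ndB1q3) (pc := pcB0) (cut := Cut.none) (xt := Ext.none) (P1 := 0) (W1 := 536870912) (P2 := 1610612736) (W2 := 536870912) (P3 := 818728140) (W3 := 40265320) (N0 := 3) (En := eng) (mo := mog) (C1 := cd0q2) (C2 := cd1q3) (C3 := pd0)
    rfl (fun _ => rfl) k0_mm_203

noncomputable def f_mm_213 : ℕ → ℕ → ℕ → ℕ → Bool := onCell 0 536870912 1610612736 536870912 818728140 40265320
    (rowB 3 eng mog cd0q2 cd1q3 pd1 0 false false false .pnn 2 1 3 (qsf 0 536870912 1610612736 536870912 1) ndB0q2 ndB1q3 pcB1 Cut.none Ext.none)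

def k0_mm_213 : ∃ t, chk3 f_mm_213 t 1 1 1 = true :=
  ⟨(a (l 3) (l 5)), by decide +kernel⟩

theorem c_mm_213 : CertB 0 536870912 1610612736 536870912 818728140 40265320 3 eng mog cd0q2 cd1q3 pd1 false false false .pnn 2 1 3
    ndB0q2 ndB1q3 pcB1 Cut.none Ext.none :=
  certB0 (fam := false) (s1 := false) (s2 := false) (a := 2) (b := 1) (c := 3) (cn := .pnn) (n1 := ndB0q2) (n2 := ndB1q3) (pc := pcB1) (cut := Cut.none) (xt := Ext.none) (P1 := 0) (W1 := 536870912) (P2 := 1610612736) (W2 := 536870912) (P3 := 818728140) (W3 := 40265320) (N0 := 3) (En := eng) (mo := mog) (C1 := cd0q2) (C2 := cd1q3) (C3 := pd1)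
    rfl k0_mm_213

end Pool.Agent.Strip051.G.I7625_8000.Tab.C.BB01

namespace Pool.Agent.Strip051.G.I7625_8000.Tab.C.BB02

open Pool.Agent.Strip051.PB Pool.Agent.Strip051.PB.T
open Pool.Agent.Strip051.G.I7625_8000.Tab

noncomputable def f_pp_001 : ℕ → ℕ → ℕ → ℕ → Bool := onCell 0 536870912 0 536870912 818728140 40265320
    (rowB 3 eng mog cd0q0 cd2q1 pd0 1 false true true .up 0 0 1 (qsf 0 536870912 536870912 536870912 0) ndB0q0 ndB2q1 pcB0 Cut.none Ext.none)

def k0_pp_001 : ∃ t, chk3 f_pp_001 t 1 1 1 = true :=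
  ⟨(l 3), by decide +kernel⟩

theorem c_pp_001 : CertB 0 536870912 536870912 536870912 818728140 40265320 3 eng mog cd0q0 cd2q1 pd0 false true true .up 0 0 1
    ndB0q0 ndB2q1 pcB0 Cut.none Ext.none :=
  certB1 (fam := false) (s1 := true) (s2 := true) (a := 0) (b := 0) (c := 1) (cn := .up) (n1 := ndB0q0) (n2 := ndB2q1) (pc := pcB0) (cut := Cut.none) (xt := Ext.none) (P1 := 0) (W1 := 536870912) (P2 := 536870912) (W2 := 536870912) (P3 := 818728140) (W3 := 40265320) (N0 := 3) (En := eng) (mo := mog) (C1 := cd0q0) (C2 := cd2q1) (C3 := pd0)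
    rfl (fun _ => rfl) k0_pp_001

noncomputable def cut_pp_011 : Cut := Cut.of [[⟨0, 0, 0, 67108864⟩, ⟨1, 1, 0, 67108864⟩, ⟨2, 1, 0, 67108864⟩]]

noncomputable def f_pp_011 : ℕ → ℕ → ℕ → ℕ → Bool := onCell 0 536870912 536870912 536870912 818728140 40265320
    (rowB 3 eng mog cd0q0 cd2q1 pd1 1 false true true .pnn 0 1 1 (qsf 0 536870912 536870912 536870912 1) ndB0q0 ndB2q1 pcB1 cut_pp_011 Ext.none)

def k0_pp_011 : ∃ t, chk3 f_pp_011 t 1 1 1 = true :=
  ⟨(b (l 3) (a (b (l 3) (a (b (l 3) (a (b (l 3) (a (l 6) (l 3))) (l 3))) (l 3))) (l 3))), by decide +kernel⟩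

theorem c_pp_011 : CertB 0 536870912 536870912 536870912 818728140 40265320 3 eng mog cd0q0 cd2q1 pd1 false true true .pnn 0 1 1
    ndB0q0 ndB2q1 pcB1 cut_pp_011 Ext.none :=
  certB1 (fam := false) (s1 := true) (s2 := true) (a := 0) (b := 1) (c := 1) (cn := .pnn) (n1 := ndB0q0) (n2 := ndB2q1) (pc := pcB1) (cut := cut_pp_011) (xt := Ext.none) (P1 := 0) (W1 := 536870912) (P2 := 536870912) (W2 := 536870912) (P3 := 818728140) (W3 := 40265320) (N0 := 3) (En := eng) (mo := mog) (C1 := cd0q0) (C2 := cd2q1) (C3 := pd1)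
    rfl (fun _ => rfl) k0_pp_011

noncomputable def f_pp_012 : ℕ → ℕ → ℕ → ℕ → Bool := onCell 0 536870912 536870912 536870912 818728140 40265320
    (rowB 3 eng mog cd0q0 cd2q2 pd1 1 false true true .pnp 0 1 2 (qsf 0 536870912 1073741824 536870912 1) ndB0q0 ndB2q2 pcB1 Cut.none Ext.none)

def k0_pp_012 : ∃ t, chk3 f_pp_012 t 1 1 1 = true :=
  ⟨(l 3), by decide +kernel⟩

theorem c_pp_012 : CertB 0 536870912 1073741824 536870912 818728140 40265320 3 eng mog cd0q0 cd2q2 pd1 false true true .pnp 0 1 2
    ndB0q0 ndB2q2 pcB1 Cut.none Ext.none :=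
  certB1 (fam := false) (s1 := true) (s2 := true) (a := 0) (b := 1) (c := 2) (cn := .pnp) (n1 := ndB0q0) (n2 := ndB2q2) (pc := pcB1) (cut := Cut.none) (xt := Ext.none) (P1 := 0) (W1 := 536870912) (P2 := 1073741824) (W2 := 536870912) (P3 := 818728140) (W3 := 40265320) (N0 := 3) (En := eng) (mo := mog) (C1 := cd0q0) (C2 := cd2q2) (C3 := pd1)
    rfl (fun _ => rfl) k0_pp_012

noncomputable def f_pp_022 : ℕ → ℕ → ℕ → ℕ → Bool := onCell 0 536870912 1073741824 536870912 818728140 40265320
    (rowB 3 eng mog cd0q0 cd2q2 pd2 1 false true true .pp 0 2 2 (qsf 0 536870912 1073741824 536870912 2) ndB0q0 ndB2q2 pcB2 Cut.none Ext.none)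

def k0_pp_022 : ∃ t, chk3 f_pp_022 t 2 4 1 = true :=
  ⟨(b (l 3) (a (b (b (l 3) (b (l 3) (a (a (l 3) (a (l 16455000) (l 16454128))) (a (a (c (l 16458864) (l 16449776)) (l 16455832)) (a (l 16457704) (l 16460264)))))) (a (b (a (a (b (a (b (c (l 16443632) (l 16424768)) (c (l 16427320) (l 16407864))) (b (l 16434216) (l 16417736))) (a (b (c (l 16410576) (l 16390728)) (c (l 16394072) (l 16373992))) (b (l 16401112) (l 16384792)))) (b (a (l 16446776) (l 16425720)) (a (l 16393368) (l 16393848)))) (b (a (l 16425528) (l 16446656)) (a (l 16394576) (l 16396736)))) (a (b (a (c (a (b (l 16377792) (l 16361680)) (l 16370232)) (b (l 16358368) (l 16342344))) (a (l 16361872) (l 16362960))) (a (a (c (l 16358664) (l 16317360)) (l 16329312)) (l 16331856))) (b (a (l 16364960) (l 16369152)) (a (l 16336400) (l 16342248))))) (b (b (a (a (l 16427472) (l 16429840)) (a (l 16432568) (l 16436080))) (a (a (l 16400232) (l 16403752)) (l 16430776))) (a (b (a (l 16373864) (l 16378496)) (a (l 16348032) (l 16353824))) (b (l 16386208) (l 16363512))))))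 (b (b (l 3) (a (a (b (l 3) (a (l 16463752) (l 16468400))) (b (l 16496064) (l 16476320))) (a (l 2314772151) (l 16498600)))) (a (b (a (a (l 16450128) (l 16435536)) (b (l 16456128) (l 16436520))) (a (b (l 16400088) (l 16380040)) (b (l 16417464) (l 16399968)))) (b (a (l 16459160) (l 16468928)) (a (l 16405488) (l 16440800))))))), by decide +kernel⟩

def k1_pp_022 : ∃ t, chk3 f_pp_022 t 3 4 1 = true :=
  ⟨(b (a (l 3) (l 3)) (a (b (a (b (a (l 3) (l 171429087399)) (b (l 16481376) (l 16486040))) (b (b (l 3) (l 167670614727)) (l 16445432))) (a (b (l 16474160) (l 16452192)) (b (l 16453992) (l 16450920)))) (b (a (a (b (l 156396701399) (l 16421704)) (b (l 16441032) (l 16409136))) (a (b (l 16406768) (l 2)) (l 2))) (a (b (l 16423432) (l 16422224)) (l 2))))), by decide +kernel⟩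

def k2_pp_022 : ∃ t, chk3 f_pp_022 t 1 5 1 = true :=
  ⟨(a (b (a (b (b (a (a (b (a (b (a (l 16304000) (l 16306160)) (a (l 16289336) (l 16292120))) (c (l 16312352) (l 16294304))) (a (a (l 16271608) (l 16274832)) (l 16280664))) (b (a (l 16352304) (l 16317888)) (a (l 16289248) (l 16297648)))) (a (b (a (l 16325248) (l 16332440)) (l 16309664)) (l 16355944))) (a (a (b (a (a (l 16249808) (l 16253840)) (l 16260784)) (b (a (a (l 16235120) (l 16239904)) (l 16247240)) (a (b (a (l 16229264) (l 16234280)) (a (c (l 16237624) (l 16214208)) (l 16231008))) (b (l 16241656) (l 16238392))))) (b (l 16274456) (b (l 16261368) (a (l 16270424) (l 16258752))))) (a (b (l 16291728) (b (l 16279248) (a (l 16267784) (l 16276600)))) (b (l 16309160) (b (l 16297304) (l 16290360)))))) (a (a (a (a (b (l 16223456) (l 16160360)) (b (l 16207864) (l 16166408))) (a (l 16192568) (l 16198112))) (a (l 16206272) (l 16216904))) (a (a (l 16227264) (l 16237392)) (l 16253112)))) (a (b (b (a (l 16354048) (l 16376168)) (a (b (l 16329896) (l 16378384)) (b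 (l 16353696) (l 16339920)))) (a (l 16277240) (l 16304456))) (b (b (a (l 16397000) (l 16414280)) (a (b (l 16376208) (l 16363104)) (l 16409912))) (a (l 16330400) (l 16352824))))) (a (a (a (b (a (a (b (l 16119856) (l 16080984)) (l 16107248)) (l 16138584)) (a (a (l 16067640) (l 16033984)) (l 16046240))) (b (a (l 16131152) (l 16144360)) (l 16154008))) (a (a (l 16166496) (l 16138440)) (b (l 16189424) (l 16131496)))) (a (a (l 16275112) (l 16225752)) (a (l 16258952) (l 16288568))))) (a (b (a (b (b (l 16429968) (l 16407496)) (l 16376208)) (b (b (l 16434416) (l 16415848)) (l 16391024))) (a (l 16364408) (l 16350984))) (b (a (b (b (l 16416224) (l 2)) (l 2)) (l 2)) (l 2)))), by decide +kernel⟩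

def k3_pp_022 : ∃ t, chk3 f_pp_022 t 1 3 1 = true :=
  ⟨(a (a (b (a (b (a (b (a (c (l 15978224) (l 15946528)) (l 15981144)) (a (l 15901128) (l 15922240))) (b (l 16008600) (l 15953112))) (a (b (a (l 15846128) (l 15869432)) (a (l 15797208) (l 15822584))) (b (l 15903544) (l 15859768)))) (b (a (b (l 16043992) (l 15992960)) (l 16055208)) (a (l 15927032) (l 15972688)))) (a (b (a (b (l 15788904) (l 15731664)) (l 15804640)) (a (b (l 15700920) (l 15675504)) (l 15749800))) (b (a (l 15858184) (l 15911040)) (a (l 15809776) (l 2))))) (b (a (b (a (l 16095680) (l 16139064)) (a (l 16021160) (l 16072336))) (b (l 16263312) (l 16144888))) (a (b (l 16078800) (l 2)) (l 2)))) (b (a (a (b (l 16265248) (l 2)) (l 2)) (l 2)) (l 2))), by decide +kernel⟩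

theorem s4_pp_022 : ∃ t, chk3 f_pp_022 t 1 4 1 = true := ex3_a k0_pp_022 k1_pp_022

theorem s5_pp_022 : ∃ t, chk3 f_pp_022 t 1 2 1 = true := ex3_b s4_pp_022 k2_pp_022

theorem s6_pp_022 : ∃ t, chk3 f_pp_022 t 1 1 1 = true := ex3_b s5_pp_022 k3_pp_022

theorem c_pp_022 : CertB 0 536870912 1073741824 536870912 818728140 40265320 3 eng mog cd0q0 cd2q2 pd2 false true true .pp 0 2 2
    ndB0q0 ndB2q2 pcB2 Cut.none Ext.none :=
  certB1 (fam := false) (s1 := true) (s2 := true) (a := 0) (b := 2) (c := 2) (cn := .pp) (n1 := ndB0q0) (n2 := ndB2q2) (pc := pcB2) (cut := Cut.none) (xt := Ext.none) (P1 := 0) (W1 := 536870912) (P2 := 1073741824) (W2 := 536870912) (P3 := 818728140) (W3 := 40265320) (N0 := 3) (En := eng) (mo := mog) (C1 := cd0q0) (C2 := cd2q2) (C3 := pd2)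
    rfl (fun _ => rfl) s6_pp_022

noncomputable def f_pp_023 : ℕ → ℕ → ℕ → ℕ → Bool := onCell 1073741824 536870912 0 1230186008 818728140 40265320
    (rowB 3 eng mog cd0q0 cd2q3 pd2 2 false true true .up 0 2 3 (qsf 0 536870912 0 1230186008 2) ndB0q0 ndB2q3 pcB2 Cut.none Ext.none)

def k0_pp_023 : ∃ t, chk3 f_pp_023 t 1 1 1 = true :=
  ⟨(b (a (l 2) (a (l 2) (b (a (l 2) (l 16454264)) (a (b (l 16476632) (l 16433984)) (l 16620040))))) (b (a (b (l 2) (a (l 2) (a (l 2) (b (l 2) (l 16390152))))) (b (a (a (l 2) (b (l 16444608) (l 16393744))) (b (a (l 16395248) (l 16328616)) (a (l 16356432) (l 16289064)))) (a (b (a (l 16382776) (l 16374088)) (a (l 16373792) (l 16345040))) (b (a (l 16319208) (l 16253752)) (a (l 16272648) (l 16196936)))))) (a (a (b (l 2) (a (b (l 2) (l 3)) (a (b (b (l 2) (a (l 474157116727) (l 16392184))) (a (b (a (l 16365576) (l 16376536)) (a (l 16373736) (l 16383672))) (b (l 16394008) (l 16401592)))) (b (b (l 16406800) (l 16406224)) (a (b (l 16406808) (l 16416088)) (b (l 16411480) (l 16421008)))))))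 (b (b (a (a (l 2) (l 256187389255)) (b (l 16380336) (l 16371464))) (a (a (a (l 16413328) (l 16450776)) (l 16396192)) (a (l 16379112) (l 16361328)))) (a (b (a (a (l 16408160) (l 16401272)) (l 16391520)) (a (a (l 16414880) (l 16528192)) (l 16519624))) (b (b (l 16361728) (l 16358072)) (b (l 16352368) (l 16339176)))))) (b (a (b (a (b (l 16361816) (l 16351064)) (l 16296168)) (a (l 16324856) (l 16256368))) (b (a (l 16224136) (b (l 16144616) (l 16103312))) (a (b (l 16175480) (l 16137584)) (b (l 16055304) (l 16000400))))) (a (b (a (l 16297912) (b (l 16214880) (l 15926672))) (b (a (l 16262408) (l 16136192)) (a (a (l 16259016) (l 16195008)) (a (l 16121768) (l 16042032))))) (b (a (b (l 16092360) (l 16101272)) (b (l 15943952) (a (l 15923616) (l 15846272)))) (a (b (a (l 16021520) (l 15942360)) (a (l 15961576) (l 15880648))) (b (a (l 15863168) (l 15783888)) (a (l 15799400) (l 15715576)))))))))), by decide +kernel⟩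

theorem c_pp_023 : CertB 0 536870912 0 1230186008 818728140 40265320 3 eng mog cd0q0 cd2q3 pd2 false true true .up 0 2 3
    ndB0q0 ndB2q3 pcB2 Cut.none Ext.none :=
  certB2 (fam := false) (s1 := true) (s2 := true) (a := 0) (b := 2) (c := 3) (cn := .up) (n1 := ndB0q0) (n2 := ndB2q3) (pc := pcB2) (cut := Cut.none) (xt := Ext.none) (P1 := 0) (W1 := 536870912) (P2 := 0) (W2 := 1230186008) (P3 := 818728140) (W3 := 40265320) (N0 := 3) (En := eng) (mo := mog) (C1 := cd0q0) (C2 := cd2q3) (C3 := pd2)
    rfl (fun _ => rfl) k0_pp_023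

noncomputable def f_pp_033 : ℕ → ℕ → ℕ → ℕ → Bool := onCell 1610612736 536870912 0 1230186008 818728140 40265320
    (rowB 3 eng mog cd0q0 cd2q3 pd3 2 false true true .pnn 0 3 3 (qsf 0 536870912 0 1230186008 3) ndB0q0 ndB2q3 pcB3 Cut.none Ext.none)

def k0_pp_033 : ∃ t, chk3 f_pp_033 t 1 1 1 = true :=
  ⟨(b (b (a (a (a (l 16418680) (l 16374704)) (a (l 16327344) (l 16263384))) (l 4)) (a (a (a (b (l 16436736) (l 16369160)) (b (l 16352176) (l 16294432))) (a (b (l 16282712) (l 16210144)) (b (l 16206008) (l 16116760)))) (a (a (a (l 16090488) (l 16043800)) (l 4)) (l 4)))) (b (a (b (a (b (l 16009584) (a (l 16250320) (l 16165376))) (b (a (l 16127976) (l 16025368)) (a (l 16064448) (l 15969608)))) (a (b (a (l 16182664) (l 16084008)) (a (l 16098544) (l 16042080))) (a (b (l 15978256) (l 15976056)) (b (l 15896552) (a (l 15794792) (l 15751984)))))) (b (a (a (b (l 15934320) (l 15885600)) (a (b (l 4) (l 15837136)) (l 4))) (l 4)) (a (a (b (l 15822304) (l 442950117191)) (a (b (l 15776880) (l 1)) (l 1))) (l 1)))) (a (a (b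 (b (a (b (l 16019128) (l 15964736)) (b (l 15893920) (l 15832160))) (a (b (l 15906392) (a (l 15884224) (l 15811792))) (b (l 15769776) (a (l 15741208) (l 15669528))))) (a (b (b (a (l 15825560) (l 15751296)) (a (l 15765872) (l 15687368))) (b (a (l 15702104) (l 185788635159)) (a (l 179346220647) (l 189546500135)))) (b (b (a (l 15675952) (l 15597232)) (a (l 188472992871) (l 256655331303))) (b (a (l 199747028599) (l 1)) (l 1))))) (b (a (b (b (l 15776928) (l 15707440)) (b (l 15634648) (l 133712171127))) (b (b (l 15666200) (a (l 15614792) (l 1))) (l 1))) (a (b (b (l 328059292519) (l 1)) (l 1)) (l 1)))) (l 1)))), by decide +kernel⟩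

theorem c_pp_033 : CertB 0 536870912 0 1230186008 818728140 40265320 3 eng mog cd0q0 cd2q3 pd3 false true true .pnn 0 3 3
    ndB0q0 ndB2q3 pcB3 Cut.none Ext.none :=
  certB2 (fam := false) (s1 := true) (s2 := true) (a := 0) (b := 3) (c := 3) (cn := .pnn) (n1 := ndB0q0) (n2 := ndB2q3) (pc := pcB3) (cut := Cut.none) (xt := Ext.none) (P1 := 0) (W1 := 536870912) (P2 := 0) (W2 := 1230186008) (P3 := 818728140) (W3 := 40265320) (N0 := 3) (En := eng) (mo := mog) (C1 := cd0q0) (C2 := cd2q3) (C3 := pd3)
    rfl (fun _ => rfl) k0_pp_033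

noncomputable def f_pp_101 : ℕ → ℕ → ℕ → ℕ → Bool := onCell 536870912 536870912 536870912 536870912 818728140 40265320
    (rowB 3 eng mog cd0q1 cd2q1 pd0 0 false true true .npn 1 0 1 (qsf 536870912 536870912 536870912 536870912 0) ndB0q1 ndB2q1 pcB0 Cut.none Ext.none)

def k0_pp_101 : ∃ t, chk3 f_pp_101 t 1 1 1 = true :=
  ⟨(a (l 3) (l 5)), by decide +kernel⟩

theorem c_pp_101 : CertB 536870912 536870912 536870912 536870912 818728140 40265320 3 eng mog cd0q1 cd2q1 pd0 false true true .npn 1 0 1
    ndB0q1 ndB2q1 pcB0 Cut.none Ext.none :=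
  certB0 (fam := false) (s1 := true) (s2 := true) (a := 1) (b := 0) (c := 1) (cn := .npn) (n1 := ndB0q1) (n2 := ndB2q1) (pc := pcB0) (cut := Cut.none) (xt := Ext.none) (P1 := 536870912) (W1 := 536870912) (P2 := 536870912) (W2 := 536870912) (P3 := 818728140) (W3 := 40265320) (N0 := 3) (En := eng) (mo := mog) (C1 := cd0q1) (C2 := cd2q1) (C3 := pd0)
    rfl k0_pp_101

noncomputable def f_pp_102 : ℕ → ℕ → ℕ → ℕ → Bool := onCell 536870912 536870912 0 536870912 818728140 40265320
    (rowB 3 eng mog cd0q1 cd2q2 pd0 1 false true true .npp 1 0 2 (qsf 536870912 536870912 1073741824 536870912 0) ndB0q1 ndB2q2 pcB0 Cut.none Ext.none)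

def k0_pp_102 : ∃ t, chk3 f_pp_102 t 1 1 1 = true :=
  ⟨(l 3), by decide +kernel⟩

theorem c_pp_102 : CertB 536870912 536870912 1073741824 536870912 818728140 40265320 3 eng mog cd0q1 cd2q2 pd0 false true true .npp 1 0 2
    ndB0q1 ndB2q2 pcB0 Cut.none Ext.none :=
  certB1 (fam := false) (s1 := true) (s2 := true) (a := 1) (b := 0) (c := 2) (cn := .npp) (n1 := ndB0q1) (n2 := ndB2q2) (pc := pcB0) (cut := Cut.none) (xt := Ext.none) (P1 := 536870912) (W1 := 536870912) (P2 := 1073741824) (W2 := 536870912) (P3 := 818728140) (W3 := 40265320) (N0 := 3) (En := eng) (mo := mog) (C1 := cd0q1) (C2 := cd2q2) (C3 := pd0)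
    rfl (fun _ => rfl) k0_pp_102

noncomputable def f_pp_112 : ℕ → ℕ → ℕ → ℕ → Bool := onCell 536870912 536870912 1073741824 536870912 818728140 40265320
    (rowB 3 eng mog cd0q1 cd2q2 pd1 0 false true true .dn 1 1 2 (qsf 536870912 536870912 1073741824 536870912 1) ndB0q1 ndB2q2 pcB1 Cut.none Ext.none)

def k0_pp_112 : ∃ t, chk3 f_pp_112 t 1 1 1 = true :=
  ⟨(a (l 3) (l 3)), by decide +kernel⟩

theorem c_pp_112 : CertB 536870912 536870912 1073741824 536870912 818728140 40265320 3 eng mog cd0q1 cd2q2 pd1 false true true .dn 1 1 2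
    ndB0q1 ndB2q2 pcB1 Cut.none Ext.none :=
  certB0 (fam := false) (s1 := true) (s2 := true) (a := 1) (b := 1) (c := 2) (cn := .dn) (n1 := ndB0q1) (n2 := ndB2q2) (pc := pcB1) (cut := Cut.none) (xt := Ext.none) (P1 := 536870912) (W1 := 536870912) (P2 := 1073741824) (W2 := 536870912) (P3 := 818728140) (W3 := 40265320) (N0 := 3) (En := eng) (mo := mog) (C1 := cd0q1) (C2 := cd2q2) (C3 := pd1)
    rfl k0_pp_112

noncomputable def cut_pp_113 : Cut := Cut.of [[⟨0, 1, 0, 67108864⟩, ⟨1, 1, 0, 67108864⟩, ⟨2, 2, 0, 16777216⟩]]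

noncomputable def f_pp_113 : ℕ → ℕ → ℕ → ℕ → Bool := onCell 536870912 536870912 0 1230186008 818728140 40265320
    (rowB 3 eng mog cd0q1 cd2q3 pd1 2 false true true .nn 1 1 3 (qsf 536870912 536870912 0 1230186008 1) ndB0q1 ndB2q3 pcB1 cut_pp_113 Ext.none)

def k0_pp_113 : ∃ t, chk3 f_pp_113 t 1 1 1 = true :=
  ⟨(b (a (l 2) (a (l 2) (a (l 3) (a (l 3) (b (b (l 6) (l 3)) (l 3)))))) (b (a (l 3) (a (l 3) (l 3))) (a (b (l 3) (l 3)) (l 3)))), by decide +kernel⟩

theorem c_pp_113 : CertB 536870912 536870912 0 1230186008 818728140 40265320 3 eng mog cd0q1 cd2q3 pd1 false true true .nn 1 1 3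
    ndB0q1 ndB2q3 pcB1 cut_pp_113 Ext.none :=
  certB2 (fam := false) (s1 := true) (s2 := true) (a := 1) (b := 1) (c := 3) (cn := .nn) (n1 := ndB0q1) (n2 := ndB2q3) (pc := pcB1) (cut := cut_pp_113) (xt := Ext.none) (P1 := 536870912) (W1 := 536870912) (P2 := 0) (W2 := 1230186008) (P3 := 818728140) (W3 := 40265320) (N0 := 3) (En := eng) (mo := mog) (C1 := cd0q1) (C2 := cd2q3) (C3 := pd1)
    rfl (fun _ => rfl) k0_pp_113

end Pool.Agent.Strip051.G.I7625_8000.Tab.C.BB02

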