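import Pool.Agent.Strip051.G.I7625_8000.Tab
import Pool.Agent.Strip051.PB.ExtD2

/-! # Certificates B8 (generated) -/

set_option linter.all false
set_option maxRecDepth 100000

namespace Pool.Agent.Strip051.G.I7625_8000.Tab.C.BB02

open Pool.Agent.Strip051.PB Pool.Agent.Strip051.PB.T
open Pool.Agent.Strip051.G.I7625_8000.Tab

noncomputable def cut_pp_123 : Cut := Cut.of [[⟨0, 1, 0, 67108864⟩, ⟨1, 1, 0, 67108864⟩, ⟨2, 2, 0, 16777216⟩]]

noncomputable def xt_pp_123 : Ext := extD2 3 ⟨4, 1, 1, 5, 13, 5, 23, 25, 43, 100, 1, 8⟩ eng cd0q1 cd2q3 pd2 false true true .npn 1 2 3 rfl ndB0q1 ndB2q3 pcB2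

noncomputable def f_pp_123 : ℕ → ℕ → ℕ → ℕ → Bool := onCell 1073741824 536870912 0 1230186008 818728140 40265320
    (rowB 3 eng mog cd0q1 cd2q3 pd2 2 false true true .npn 1 2 3 (qsf 536870912 536870912 0 1230186008 2) ndB0q1 ndB2q3 pcB2 cut_pp_123 xt_pp_123)

def k0_pp_123 : ∃ t, chk3 f_pp_123 t 8 4 1 = true :=
  ⟨(a (b (l 6) (a (a (l 3) (b (l 6) (a (l 3) (b (a (a (l 3) (b (b (l 220284837495) (l 3)) (l 3))) (a (b (b (l 16777488) (l 189146323767)) (b (l 227264160455) (l 3))) (b (l 16777416) (l 139754199895)))) (a (l 3) (a (l 3) (a (l 3) (b (l 224042933207) (l 3))))))))) (b (l 6) (a (a (b (a (b (l 16756184) (l 16777416)) (b (l 16775160) (l 16776648))) (a (a (b (l 133848618439) (l 297594240103)) (b (l 16777552) (l 127943037943))) (b (l 16777392) (l 16777528)))) (b (l 16771872) (a (l 16755384) (l 16774064)))) (b (l 16763184) (l 16766808)))))) (b (a (l 6) (l 16716152)) (b (l 16773776) (a (l 16747712) (l 16724280))))), by decide +kernel⟩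

def k1_pp_123 : ∃ t, chk3 f_pp_123 t 8 5 1 = true :=
  ⟨(a (b (a (l 3) (a (b (a (b (a (b (c (l 293299300471) (l 299204870887)) (l 3)) (b (c (l 16780256) (l 16764872)) (c (l 235317222135) (l 235854081655)))) (a (l 3) (b (l 294373016183) (l 3)))) (b (a (b (l 16777264) (l 16777312)) (l 16755560)) (a (b (l 16769536) (l 227801025367)) (l 16755448)))) (a (l 3) (b (a (b (l 292225550951) (l 3)) (b (l 16754848) (l 224579790503))) (a (l 3) (b (l 321753444967) (l 3)))))) (b (b (a (l 16772824) (l 16766840)) (a (a (l 16754696) (l 16773664)) (l 16769192))) (a (b (b (l 16753296) (l 16752072)) (a (b (l 16772360) (l 235317192455)) (l 16748784))) (b (l 16748664) (c (l 16749720) (l 16743232))))))) (a (l 3) (a (l 3) (b (a (b (a (b (l 339470142439) (l 3)) (b (l 16766368) (l 302426032135))) (a (l 3) (l 380272367495))) (b (l 16741312) (b (l 244980830583) (l 296520432343)))) (a (l 3) (b (b (l 331953906807) (a (l 3) (l 322290270423))) (b (l 7807242943215240692847509839) (l 3))))))))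 (b (a (b (a (l 16758264) (l 16744672)) (b (l 16751904) (a (a (l 16761664) (l 16754016)) (l 16742432)))) (b (l 16724744) (l 16721432))) (a (b (a (a (b (l 16758272) (l 16752408)) (b (l 16751536) (l 16747408))) (l 16717072)) (a (a (b (a (b (l 16748016) (l 16744200)) (l 16744200)) (a (b (l 297594184407) (c (l 454897368535) (l 451139248391))) (b (l 16738320) (l 16734264)))) (b (l 16720440) (l 16712496))) (b (l 16710512) (a (l 16729464) (l 16723080))))) (b (l 16715384) (a (l 16714312) (l 16700568)))))), by decide +kernel⟩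

def k2_pp_123 : ∃ t, chk3 f_pp_123 t 9 2 1 = true :=
  ⟨(b (a (b (l 16696808) (l 16718768)) (b (l 16668440) (l 16623096))) (b (a (b (l 16693824) (l 16689368)) (b (l 16658808) (l 16654472))) (a (b (b (l 16684944) (l 16682392)) (l 16656656)) (b (l 16649488) (l 16643872))))), by decide +kernel⟩

def k3_pp_123 : ∃ t, chk3 f_pp_123 t 5 2 1 = true :=
  ⟨(b (a (a (a (l 16569392) (b (l 16637232) (l 16633024))) (l 16530656)) (b (l 16588072) (l 16590952))) (a (b (a (a (l 16633824) (l 16620216)) (l 16603448)) (a (a (l 16621984) (l 16606808)) (l 16583080))) (b (l 16395152) (a (l 16549816) (l 16529064))))), by decide +kernel⟩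

def k4_pp_123 : ∃ t, chk3 f_pp_123 t 3 2 1 = true :=
  ⟨(a (b (a (l 16415416) (l 16511328)) (a (b (l 16531480) (a (l 16513040) (l 16489464))) (b (l 16492904) (l 16479040)))) (b (a (l 16479952) (l 16454376)) (a (b (l 16476648) (l 16433680)) (b (l 16432968) (l 16390688))))), by decide +kernel⟩

def k5_pp_123 : ∃ t, chk3 f_pp_123 t 8 24 1 = true :=
  ⟨(a (l 3) (a (a (b (a (b (a (l 3) (c (l 288467371447) (b (l 16726256) (l 299204764023)))) (b (a (l 3) (c (l 305647232855) (l 312089662519))) (a (l 3) (c (l 561197784183) (l 548312860503))))) (b (a (l 16728352) (l 16726536)) (a (b (l 16725352) (c (l 16728752) (l 16723232))) (l 16722616)))) (a (l 3) (b (a (c (b (a (b (l 272898089943) (a (l 518784973559) (b (l 16726928) (l 263234410183)))) (l 16726456)) (b (a (c (l 300278512983) (l 303499727543)) (l 16723728)) (a (l 316384629687) (l 210621055527)))) (a (a (b (b (l 293836048103) (l 505900059943)) (l 3)) (b (b (l 16716632) (c (l 265381892551) (l 269676848695)))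 (b (l 291688562487) (l 318532090775)))) (b (l 16715520) (c (l 212231661511) (l 173040031671))))) (b (c (l 16725128) (l 16714352)) (c (l 16721008) (l 16710408)))) (a (a (l 3) (b (a (b (c (l 285246105079) (l 290614808935)) (c (l 311552777959) (l 317995208407))) (c (l 224042821927) (c (l 16708584) (l 16703424)))) (c (c (l 301352226519) (l 304573442103)) (c (l 307794657735) (l 311015873415))))) (c (b (l 16715224) (a (c (l 16712112) (l 16707208)) (l 16708760))) (a (b (l 16705432) (l 180556206647)) (l 16701960))))))) (b (a (l 16700952) (l 16696880)) (a (b (a (l 16695152) (l 16714488)) (a (l 16684688) (l 16704016))) (a (l 16686648) (l 16684968))))) (a (b (l 16708000) (a (l 16681208) (l 16695704))) (c (l 16694144) (l 16685376))))), by decide +kernel⟩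

def k6_pp_123 : ∃ t, chk3 f_pp_123 t 8 25 1 = true :=
  ⟨(a (l 3) (a (b (a (a (l 3) (a (l 3) (a (b (b (c (c (l 273434928919) (l 277193016167)) (c (l 285782896903) (l 287930381207))) (c (l 302962827735) (l 308868369575))) (l 3)) (b (b (c (l 16702424) (l 16693352)) (c (l 219747821879) (l 16671584))) (b (c (c (l 273434898455) (l 276656115831)) (l 284709139255)) (c (l 302962776599) (l 308331471303))))))) (a (a (b (c (l 16697792) (l 16689200)) (b (c (l 16687456) (l 16679776)) (a (c (l 213842210263) (l 16652608)) (l 16676144)))) (c (l 16668168) (l 16660440))) (a (l 16662512) (l 16681720)))) (a (l 3) (a (b (b (a (c (a (l 279877272119) (l 16672072)) (l 264844898999)) (l 16667520)) (a (c (a (l 304036485495) (l 16643176)) (l 280414148151)) (l 16638912))) (a (b (c (l 5283607249903386918689431631) (l 295446524055)) (c (l 306183917623) (l 310478897207))) (b (c (l 16654288) (l 16649784)) (c (a (l 152101959639) (l 16646648)) (l 159618159911))))) (b (l 16661040) (b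 (l 16649152) (l 16642152)))))) (b (a (a (l 16679024) (l 16673376)) (l 16663152)) (a (b (a (l 16657312) (l 16653016)) (a (l 16641784) (l 16637808))) (b (l 16642968) (l 16628296)))))), by decide +kernel⟩

def k7_pp_123 : ∃ t, chk3 f_pp_123 t 9 12 1 = true :=
  ⟨(b (a (a (l 16675864) (l 16658688)) (l 16633488)) (a (b (l 16639568) (a (l 16619928) (l 16601760))) (b (l 16601552) (l 16570216)))), by decide +kernel⟩

def k8_pp_123 : ∃ t, chk3 f_pp_123 t 5 12 1 = true :=
  ⟨(b (a (a (a (l 16602616) (l 16580816)) (l 16547176)) (l 16506280)) (a (a (a (l 16548648) (b (l 16541744) (l 16504552))) (l 16493152)) (l 16386872))), by decide +kernel⟩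

def k9_pp_123 : ∃ t, chk3 f_pp_123 t 2 13 1 = true :=
  ⟨(a (a (b (a (l 3) (a (a (l 3) (b (a (a (l 3) (b (b (c (l 256254911255) (l 261623625415)) (c (l 272897906999) (l 277192871111))) (c (l 291151514199) (l 295446415607)))) (c (b (l 16615920) (a (l 121500291255) (l 16625608))) (b (l 16629752) (a (l 16593032) (l 16589144))))) (a (l 3) (a (b (b (l 255181139143) (l 271824125959)) (l 289003973047)) (b (l 16583648) (c (l 16577592) (l 16521672))))))) (a (b (b (l 16628688) (a (l 16613976) (l 16605568))) (b (a (l 16578368) (l 16571736)) (a (l 16545560) (l 16540480)))) (b (a (l 16613936) (l 16603888)) (a (l 16550104) (l 16543936)))))) (a (l 3) (a (a (l 3) (b (a (l 3) (a (l 3) (b (l 262160355287) (l 293298834295)))) (l 3))) (a (b (b (a (l 16515160) (l 16511264)) (a (l 16486696) (l 16483656))) (b (a (l 16481200) (l 16457704)) (b (l 234779822487) (l 240685379111)))) (b (a (l 16493744) (l 16490304)) (a (l 16443272) (l 16441528))))))) (a (b (a (b (l 16585168) (l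 16531048)) (b (l 16560792) (l 16511856))) (a (b (a (l 16485424) (l 16478936)) (a (l 16440568) (l 16439224))) (b (l 16469816) (l 16435064)))) (b (b (l 16526800) (l 16487024)) (b (l 16457880) (l 16431064))))) (a (b (a (a (l 16478536) (l 16458248)) (l 16436352)) (a (a (l 16431752) (l 16421296)) (l 16412520))) (b (l 16405176) (a (l 16396008) (l 16373088))))), by decide +kernel⟩

def k10_pp_123 : ∃ t, chk3 f_pp_123 t 3 6 1 = true :=
  ⟨(b (a (b (a (l 16467272) (l 16444552)) (a (l 16431168) (l 16393400))) (b (a (l 16394568) (l 1)) (l 1))) (a (b (a (l 16382712) (l 16373232)) (a (l 16373328) (l 1))) (l 1))), by decide +kernel⟩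

def k11_pp_123 : ∃ t, chk3 f_pp_123 t 1 7 1 = true :=
  ⟨(a (a (b (a (a (l 3) (a (l 3) (b (b (a (a (l 286319407927) (l 16406160)) (l 16406848)) (a (l 268065737623) (l 16386800))) (a (b (l 278803117831) (l 3)) (b (l 16374064) (l 16365016)))))) (a (b (a (b (a (l 16410224) (l 16414016)) (a (l 16393336) (l 16400960))) (b (l 16416704) (l 16407664))) (a (a (b (l 16381832) (l 16373008)) (l 16387696)) (l 16439536))) (b (b (l 16418832) (l 16414656)) (b (l 16410448) (l 16408560))))) (a (b (a (l 3) (a (l 3) (a (l 3) (b (l 16359456) (l 16357656))))) (l 3)) (a (b (a (b (l 16372704) (a (l 16364264) (l 16375896))) (b (l 16393184) (l 16392176))) (a (b (a (l 16365576) (l 1)) (l 1)) (l 1))) (b (b (l 16406776) (l 16427136)) (l 1))))) (b (b (a (a (a (l 16417640) (a (l 16415064) (l 16410880))) (b (l 16404384) (l 16405072))) (b (l 16380120) (l 16371000))) (a (a (a (l 16413304) (l 16492664)) (l 16395952)) (l 1))) (a (b (a (a (l 16407992) (l 1)) (l 1)) (l 1)) (l 1)))) (l 1)),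 by decide +kernel⟩

theorem s12_pp_123 : ∃ t, chk3 f_pp_123 t 8 12 1 = true := ex3_b k5_pp_123 k6_pp_123

theorem s13_pp_123 : ∃ t, chk3 f_pp_123 t 4 12 1 = true := ex3_a s12_pp_123 k7_pp_123

theorem s14_pp_123 : ∃ t, chk3 f_pp_123 t 2 12 1 = true := ex3_a s13_pp_123 k8_pp_123

theorem s15_pp_123 : ∃ t, chk3 f_pp_123 t 2 6 1 = true := ex3_b s14_pp_123 k9_pp_123

theorem s16_pp_123 : ∃ t, chk3 f_pp_123 t 1 6 1 = true := ex3_a s15_pp_123 k10_pp_123

theorem s17_pp_123 : ∃ t, chk3 f_pp_123 t 1 3 1 = true := ex3_b s16_pp_123 k11_pp_123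

theorem s18_pp_123 : ∃ t, chk3 f_pp_123 t 8 2 1 = true := ex3_b k0_pp_123 k1_pp_123

theorem s19_pp_123 : ∃ t, chk3 f_pp_123 t 4 2 1 = true := ex3_a s18_pp_123 k2_pp_123

theorem s20_pp_123 : ∃ t, chk3 f_pp_123 t 2 2 1 = true := ex3_a s19_pp_123 k3_pp_123

theorem s21_pp_123 : ∃ t, chk3 f_pp_123 t 1 2 1 = true := ex3_a s20_pp_123 k4_pp_123

theorem s22_pp_123 : ∃ t, chk3 f_pp_123 t 1 1 1 = true := ex3_b s21_pp_123 s17_pp_123

theorem c_pp_123 : CertB 536870912 536870912 0 1230186008 818728140 40265320 3 eng mog cd0q1 cd2q3 pd2 false true true .npn 1 2 3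
    ndB0q1 ndB2q3 pcB2 cut_pp_123 xt_pp_123 :=
  certB2 (fam := false) (s1 := true) (s2 := true) (a := 1) (b := 2) (c := 3) (cn := .npn) (n1 := ndB0q1) (n2 := ndB2q3) (pc := pcB2) (cut := cut_pp_123) (xt := xt_pp_123) (P1 := 536870912) (W1 := 536870912) (P2 := 0) (W2 := 1230186008) (P3 := 818728140) (W3 := 40265320) (N0 := 3) (En := eng) (mo := mog) (C1 := cd0q1) (C2 := cd2q3) (C3 := pd2)
    rfl (fun _ => rfl) s22_pp_123

noncomputable def f_pp_133 : ℕ → ℕ → ℕ → ℕ → Bool := onCell 536870912 536870912 0 1230186008 818728140 40265320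
    (rowB 3 eng mog cd0q1 cd2q3 pd3 0 false true true .dn 1 3 3 (qsf 536870912 536870912 0 1230186008 3) ndB0q1 ndB2q3 pcB3 Cut.none Ext.none)

def k0_pp_133 : ∃ t, chk3 f_pp_133 t 1 1 1 = true :=
  ⟨(b (b (a (a (a (l 16554576) (l 1)) (l 1)) (l 1)) (l 1)) (l 1)), by decide +kernel⟩

theorem c_pp_133 : CertB 536870912 536870912 0 1230186008 818728140 40265320 3 eng mog cd0q1 cd2q3 pd3 false true true .dn 1 3 3
    ndB0q1 ndB2q3 pcB3 Cut.none Ext.none :=
  certB0 (fam := false) (s1 := true) (s2 := true) (a := 1) (b := 3) (c := 3) (cn := .dn) (n1 := ndB0q1) (n2 := ndB2q3) (pc := pcB3) (cut := Cut.none) (xt := Ext.none) (P1 := 536870912) (W1 := 536870912) (P2 := 0) (W2 := 1230186008) (P3 := 818728140) (W3 := 40265320) (N0 := 3) (En := eng) (mo := mog) (C1 := cd0q1) (C2 := cd2q3) (C3 := pd3)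
    rfl k0_pp_133

noncomputable def f_pp_202 : ℕ → ℕ → ℕ → ℕ → Bool := onCell 0 536870912 1073741824 536870912 818728140 40265320
    (rowB 3 eng mog cd0q2 cd2q2 pd0 0 false true true .pp 2 0 2 (qsf 0 536870912 1073741824 536870912 0) ndB0q2 ndB2q2 pcB0 Cut.none Ext.none)

def k0_pp_202 : ∃ t, chk3 f_pp_202 t 1 1 1 = true :=
  ⟨(l 3), by decide +kernel⟩

theorem c_pp_202 : CertB 0 536870912 1073741824 536870912 818728140 40265320 3 eng mog cd0q2 cd2q2 pd0 false true true .pp 2 0 2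
    ndB0q2 ndB2q2 pcB0 Cut.none Ext.none :=
  certB0 (fam := false) (s1 := true) (s2 := true) (a := 2) (b := 0) (c := 2) (cn := .pp) (n1 := ndB0q2) (n2 := ndB2q2) (pc := pcB0) (cut := Cut.none) (xt := Ext.none) (P1 := 0) (W1 := 536870912) (P2 := 1073741824) (W2 := 536870912) (P3 := 818728140) (W3 := 40265320) (N0 := 3) (En := eng) (mo := mog) (C1 := cd0q2) (C2 := cd2q2) (C3 := pd0)
    rfl k0_pp_202

noncomputable def f_pp_203 : ℕ → ℕ → ℕ → ℕ → Bool := onCell 0 536870912 0 1230186008 818728140 40265320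
    (rowB 3 eng mog cd0q2 cd2q3 pd0 0 false true true .up 2 0 3 (qsf 0 536870912 0 1230186008 0) ndB0q2 ndB2q3 pcB0 Cut.none Ext.none)

def k0_pp_203 : ∃ t, chk3 f_pp_203 t 1 1 1 = true :=
  ⟨(b (l 2) (l 3)), by decide +kernel⟩

theorem c_pp_203 : CertB 0 536870912 0 1230186008 818728140 40265320 3 eng mog cd0q2 cd2q3 pd0 false true true .up 2 0 3
    ndB0q2 ndB2q3 pcB0 Cut.none Ext.none :=
  certB0 (fam := false) (s1 := true) (s2 := true) (a := 2) (b := 0) (c := 3) (cn := .up) (n1 := ndB0q2) (n2 := ndB2q3) (pc := pcB0) (cut := Cut.none) (xt := Ext.none) (P1 := 0) (W1 := 536870912) (P2 := 0) (W2 := 1230186008) (P3 := 818728140) (W3 := 40265320) (N0 := 3) (En := eng) (mo := mog) (C1 := cd0q2) (C2 := cd2q3) (C3 := pd0)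
    rfl k0_pp_203

noncomputable def cut_pp_213 : Cut := Cut.of [[⟨0, 1, 0, 67108864⟩, ⟨1, 1, 0, 67108864⟩, ⟨2, 2, 0, 16777216⟩]]

noncomputable def f_pp_213 : ℕ → ℕ → ℕ → ℕ → Bool := onCell 0 536870912 0 1230186008 818728140 40265320
    (rowB 3 eng mog cd0q2 cd2q3 pd1 0 false true true .pnn 2 1 3 (qsf 0 536870912 0 1230186008 1) ndB0q2 ndB2q3 pcB1 cut_pp_213 Ext.none)

def k0_pp_213 : ∃ t, chk3 f_pp_213 t 1 1 1 = true :=
  ⟨(b (a (l 3) (b (a (l 3) (a (l 3) (b (l 6) (l 3)))) (l 3))) (l 3)), by decide +kernel⟩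

theorem c_pp_213 : CertB 0 536870912 0 1230186008 818728140 40265320 3 eng mog cd0q2 cd2q3 pd1 false true true .pnn 2 1 3
    ndB0q2 ndB2q3 pcB1 cut_pp_213 Ext.none :=
  certB0 (fam := false) (s1 := true) (s2 := true) (a := 2) (b := 1) (c := 3) (cn := .pnn) (n1 := ndB0q2) (n2 := ndB2q3) (pc := pcB1) (cut := cut_pp_213) (xt := Ext.none) (P1 := 0) (W1 := 536870912) (P2 := 0) (W2 := 1230186008) (P3 := 818728140) (W3 := 40265320) (N0 := 3) (En := eng) (mo := mog) (C1 := cd0q2) (C2 := cd2q3) (C3 := pd1)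
    rfl k0_pp_213

noncomputable def f_pm_001 : ℕ → ℕ → ℕ → ℕ → Bool := onCell 0 536870912 536870912 536870912 818728140 40265320
    (rowB 3 eng mog cd0q0 cd2q1 pd0 0 false true false .up 0 0 1 (qsf 0 536870912 536870912 536870912 0) ndB0q0 ndB2q1 pcB0 Cut.none Ext.none)

def k0_pm_001 : ∃ t, chk3 f_pm_001 t 1 1 1 = true :=
  ⟨(l 4), by decide +kernel⟩

theorem c_pm_001 : CertB 0 536870912 536870912 536870912 818728140 40265320 3 eng mog cd0q0 cd2q1 pd0 false true false .up 0 0 1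
    ndB0q0 ndB2q1 pcB0 Cut.none Ext.none :=
  certB0 (fam := false) (s1 := true) (s2 := false) (a := 0) (b := 0) (c := 1) (cn := .up) (n1 := ndB0q0) (n2 := ndB2q1) (pc := pcB0) (cut := Cut.none) (xt := Ext.none) (P1 := 0) (W1 := 536870912) (P2 := 536870912) (W2 := 536870912) (P3 := 818728140) (W3 := 40265320) (N0 := 3) (En := eng) (mo := mog) (C1 := cd0q0) (C2 := cd2q1) (C3 := pd0)
    rfl k0_pm_001

noncomputable def f_pm_011 : ℕ → ℕ → ℕ → ℕ → Bool := onCell 0 536870912 536870912 536870912 818728140 40265320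
    (rowB 3 eng mog cd0q0 cd2q1 pd1 0 false true false .pnn 0 1 1 (qsf 0 536870912 536870912 536870912 1) ndB0q0 ndB2q1 pcB1 Cut.none Ext.none)

def k0_pm_011 : ∃ t, chk3 f_pm_011 t 1 1 1 = true :=
  ⟨(l 4), by decide +kernel⟩

theorem c_pm_011 : CertB 0 536870912 536870912 536870912 818728140 40265320 3 eng mog cd0q0 cd2q1 pd1 false true false .pnn 0 1 1
    ndB0q0 ndB2q1 pcB1 Cut.none Ext.none :=
  certB0 (fam := false) (s1 := true) (s2 := false) (a := 0) (b := 1) (c := 1) (cn := .pnn) (n1 := ndB0q0) (n2 := ndB2q1) (pc := pcB1) (cut := Cut.none) (xt := Ext.none) (P1 := 0) (W1 := 536870912) (P2 := 536870912) (W2 := 536870912) (P3 := 818728140) (W3 := 40265320) (N0 := 3) (En := eng) (mo := mog) (C1 := cd0q0) (C2 := cd2q1) (C3 := pd1)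
    rfl k0_pm_011

noncomputable def f_pm_012 : ℕ → ℕ → ℕ → ℕ → Bool := onCell 0 536870912 536870912 536870912 818728140 40265320
    (rowB 3 eng mog cd0q0 cd2q2 pd1 1 false true false .pnp 0 1 2 (qsf 0 536870912 1073741824 536870912 1) ndB0q0 ndB2q2 pcB1 Cut.none Ext.none)

def k0_pm_012 : ∃ t, chk3 f_pm_012 t 1 1 1 = true :=
  ⟨(a (b (b (l 1) (l 4)) (l 4)) (b (a (b (a (l 1) (b (l 1) (a (l 1) (b (l 1) (l 650719850183))))) (a (l 4) (b (a (l 4) (b (l 4) (l 4))) (l 4)))) (b (a (b (a (l 1) (l 612601810487)) (a (a (l 691522002919) (l 552472443127)) (b (l 429528619047) (l 16158656)))) (b (a (l 609380596215) (l 354903590551)) (a (l 16124544) (l 16077960)))) (a (a (b (b (l 16199736) (l 16169360)) (b (l 16115032) (l 4))) (b (l 16124168) (b (l 16041888) (l 15972024)))) (b (a (l 16063384) (l 16010528)) (a (l 15947208) (l 15897064)))))) (a (l 4) (b (b (a (a (l 4) (a (l 348125919543) (l 15834256))) (a (l 15793784) (l 15752184))) (a (a (l 4) (b (l 15721456) (l 15650936)))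 (a (b (l 15664304) (l 15574768)) (b (l 15627272) (l 15533336))))) (a (b (b (c (l 517239637047) (l 15718808)) (l 4)) (l 4)) (b (a (b (l 15555248) (l 15411848)) (b (b (l 15474424) (l 15432776)) (l 15362208))) (a (b (b (l 15318064) (l 15263440)) (b (l 15209048) (l 15154944))) (b (l 15266744) (l 15170968))))))))), by decide +kernel⟩

theorem c_pm_012 : CertB 0 536870912 1073741824 536870912 818728140 40265320 3 eng mog cd0q0 cd2q2 pd1 false true false .pnp 0 1 2
    ndB0q0 ndB2q2 pcB1 Cut.none Ext.none :=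
  certB1 (fam := false) (s1 := true) (s2 := false) (a := 0) (b := 1) (c := 2) (cn := .pnp) (n1 := ndB0q0) (n2 := ndB2q2) (pc := pcB1) (cut := Cut.none) (xt := Ext.none) (P1 := 0) (W1 := 536870912) (P2 := 1073741824) (W2 := 536870912) (P3 := 818728140) (W3 := 40265320) (N0 := 3) (En := eng) (mo := mog) (C1 := cd0q0) (C2 := cd2q2) (C3 := pd1)
    rfl (fun _ => rfl) k0_pm_012

noncomputable def f_pm_022 : ℕ → ℕ → ℕ → ℕ → Bool := onCell 1073741824 536870912 1073741824 536870912 818728140 40265320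
    (rowB 3 eng mog cd0q0 cd2q2 pd2 2 false true false .pp 0 2 2 (qsf 0 536870912 1073741824 536870912 2) ndB0q0 ndB2q2 pcB2 Cut.none Ext.none)

def k0_pm_022 : ∃ t, chk3 f_pm_022 t 1 1 1 = true :=
  ⟨(a (b (l 4) (a (b (l 4) (a (b (l 4) (a (b (a (b (l 15162592) (l 15142168)) (l 15211072)) (a (a (l 15117408) (l 15140792)) (l 15175728))) (b (l 4) (a (l 15225176) (l 15278048))))) (l 4))) (l 4))) (l 4)), by decide +kernel⟩

theorem c_pm_022 : CertB 0 536870912 1073741824 536870912 818728140 40265320 3 eng mog cd0q0 cd2q2 pd2 false true false .pp 0 2 2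
    ndB0q0 ndB2q2 pcB2 Cut.none Ext.none :=
  certB2 (fam := false) (s1 := true) (s2 := false) (a := 0) (b := 2) (c := 2) (cn := .pp) (n1 := ndB0q0) (n2 := ndB2q2) (pc := pcB2) (cut := Cut.none) (xt := Ext.none) (P1 := 0) (W1 := 536870912) (P2 := 1073741824) (W2 := 536870912) (P3 := 818728140) (W3 := 40265320) (N0 := 3) (En := eng) (mo := mog) (C1 := cd0q0) (C2 := cd2q2) (C3 := pd2)
    rfl (fun _ => rfl) k0_pm_022

noncomputable def f_pm_023 : ℕ → ℕ → ℕ → ℕ → Bool := onCell 0 536870912 0 1230186008 818728140 40265320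
    (rowB 3 eng mog cd0q0 cd2q3 pd2 0 false true false .up 0 2 3 (qsf 0 536870912 0 1230186008 2) ndB0q0 ndB2q3 pcB2 Cut.none Ext.none)

def k0_pm_023 : ∃ t, chk3 f_pm_023 t 1 1 1 = true :=
  ⟨(b (a (l 2) (a (l 2) (b (a (l 2) (l 16383120)) (a (b (l 16263128) (l 16173224)) (b (l 16312120) (l 16220968)))))) (b (a (l 4) (a (l 4) (b (b (a (l 16077360) (l 16119040)) (a (l 16010360) (l 16043008))) (a (b (l 15949320) (a (l 4) (l 15863608))) (b (l 15953360) (l 15887512)))))) (a (l 4) (a (l 4) (b (b (a (a (l 4) (l 15767584)) (b (l 15753320) (l 15688920))) (a (l 4) (a (l 15604648) (l 15567080)))) (a (l 4) (b (a (b (l 15503840) (l 15434480)) (b (l 15456176) (l 15376824))) (a (b (l 15360944) (a (l 15301872) (l 15260488))) (b (a (l 15309680) (l 15274376)) (b (a (l 15243944) (l 15204192)) (a (l 15197368) (l 15154544)))))))))))), by decide +kernel⟩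

theorem c_pm_023 : CertB 0 536870912 0 1230186008 818728140 40265320 3 eng mog cd0q0 cd2q3 pd2 false true false .up 0 2 3
    ndB0q0 ndB2q3 pcB2 Cut.none Ext.none :=
  certB0 (fam := false) (s1 := true) (s2 := false) (a := 0) (b := 2) (c := 3) (cn := .up) (n1 := ndB0q0) (n2 := ndB2q3) (pc := pcB2) (cut := Cut.none) (xt := Ext.none) (P1 := 0) (W1 := 536870912) (P2 := 0) (W2 := 1230186008) (P3 := 818728140) (W3 := 40265320) (N0 := 3) (En := eng) (mo := mog) (C1 := cd0q0) (C2 := cd2q3) (C3 := pd2)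
    rfl k0_pm_023

noncomputable def f_pm_033 : ℕ → ℕ → ℕ → ℕ → Bool := onCell 1610612736 536870912 0 1230186008 818728140 40265320
    (rowB 3 eng mog cd0q0 cd2q3 pd3 2 false true false .pnn 0 3 3 (qsf 0 536870912 0 1230186008 3) ndB0q0 ndB2q3 pcB3 Cut.none Ext.none)

def k0_pm_033 : ∃ t, chk3 f_pm_033 t 1 1 1 = true :=
  ⟨(a (b (a (b (a (l 16409816) (l 16340200)) (a (b (l 16297000) (l 16150520)) (b (l 16250320) (l 4)))) (b (a (l 16307344) (l 4)) (l 4))) (b (b (l 4) (l 4)) (l 4))) (b (l 4) (l 4))), by decide +kernel⟩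

theorem c_pm_033 : CertB 0 536870912 0 1230186008 818728140 40265320 3 eng mog cd0q0 cd2q3 pd3 false true false .pnn 0 3 3
    ndB0q0 ndB2q3 pcB3 Cut.none Ext.none :=
  certB2 (fam := false) (s1 := true) (s2 := false) (a := 0) (b := 3) (c := 3) (cn := .pnn) (n1 := ndB0q0) (n2 := ndB2q3) (pc := pcB3) (cut := Cut.none) (xt := Ext.none) (P1 := 0) (W1 := 536870912) (P2 := 0) (W2 := 1230186008) (P3 := 818728140) (W3 := 40265320) (N0 := 3) (En := eng) (mo := mog) (C1 := cd0q0) (C2 := cd2q3) (C3 := pd3)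
    rfl (fun _ => rfl) k0_pm_033

noncomputable def f_pm_101 : ℕ → ℕ → ℕ → ℕ → Bool := onCell 536870912 536870912 536870912 536870912 818728140 40265320
    (rowB 3 eng mog cd0q1 cd2q1 pd0 0 false true false .npn 1 0 1 (qsf 536870912 536870912 536870912 536870912 0) ndB0q1 ndB2q1 pcB0 Cut.none Ext.none)

def k0_pm_101 : ∃ t, chk3 f_pm_101 t 1 1 1 = true :=
  ⟨(l 4), by decide +kernel⟩

theorem c_pm_101 : CertB 536870912 536870912 536870912 536870912 818728140 40265320 3 eng mog cd0q1 cd2q1 pd0 false true false .npn 1 0 1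
    ndB0q1 ndB2q1 pcB0 Cut.none Ext.none :=
  certB0 (fam := false) (s1 := true) (s2 := false) (a := 1) (b := 0) (c := 1) (cn := .npn) (n1 := ndB0q1) (n2 := ndB2q1) (pc := pcB0) (cut := Cut.none) (xt := Ext.none) (P1 := 536870912) (W1 := 536870912) (P2 := 536870912) (W2 := 536870912) (P3 := 818728140) (W3 := 40265320) (N0 := 3) (En := eng) (mo := mog) (C1 := cd0q1) (C2 := cd2q1) (C3 := pd0)
    rfl k0_pm_101

noncomputable def f_pm_102 : ℕ → ℕ → ℕ → ℕ → Bool := onCell 536870912 536870912 0 536870912 818728140 40265320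
    (rowB 3 eng mog cd0q1 cd2q2 pd0 1 false true false .npp 1 0 2 (qsf 536870912 536870912 1073741824 536870912 0) ndB0q1 ndB2q2 pcB0 Cut.none Ext.none)

def k0_pm_102 : ∃ t, chk3 f_pm_102 t 2 1 1 = true :=
  ⟨(b (a (l 1) (b (l 1) (b (l 1) (a (l 1) (b (l 1) (a (l 1) (l 495026713479))))))) (b (a (b (l 1) (a (l 1) (b (l 1) (a (l 1) (l 500932187671))))) (b (a (b (l 1) (a (l 1) (l 491805383975))) (b (a (l 493416032471) (b (l 464962111575) (l 15890464))) (a (l 465498945287) (l 15902968)))) (a (a (b (l 512743337703) (l 16011064)) (b (l 479994464439) (l 15896928))) (a (b (l 15892288) (l 15914576)) (l 15962400))))) (a (a (b (a (l 1) (l 542271253687)) (a (l 471941795847) (l 391948139271))) (b (b (a (l 466572491751) (l 16072120)) (l 371546983799)) (a (l 15992592) (l 16003680)))) (a (b (a (l 15931384) (l 15968440)) (l 16007800)) (b (a (l 16017096) (l 16062000)) (a (l 16056800) (l 16073984))))))), by decide +kernel⟩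

def k1_pm_102 : ∃ t, chk3 f_pm_102 t 3 2 1 = true :=
  ⟨(a (b (a (l 1) (b (l 1) (a (l 1) (b (l 1) (l 580389825191))))) (b (b (a (l 1) (a (l 544419310919) (l 422550064551))) (b (a (l 1) (a (l 527239557927) (l 16117360))) (a (l 511669939287) (a (l 507912258551) (l 16110464))))) (a (b (a (l 502543044151) (l 480531485767)) (a (l 465499083655) (l 15994880))) (b (a (b (l 16055024) (l 16059832)) (b (l 16121936) (l 16137344))) (a (l 16074680) (b (l 16158008) (l 16222344))))))) (b (a (b (a (l 1) (b (l 1) (b (l 1) (a (l 1) (l 16314984))))) (a (b (b (l 1) (l 606159964791)) (l 413423376919)) (b (b (l 432213903991) (l 16280304)) (a (l 16251136) (l 16284704))))) (b (a (b (a (l 1) (b (l 1) (l 571800490775))) (b (a (b (l 1) (l 16343872)) (l 376379459255)) (l 315176228711))) (b (a (b (l 572337379735) (l 16398824)) (b (l 16425608) (l 16433944))) (a (b (l 16399808) (l 16423344)) (b (l 16450136) (l 16444344))))) (a (b (a (l 16325936) (b (l 16368872) (l 16398048))) (a (l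 16354832) (l 16389064))) (b (a (b (l 16430504) (l 16416280)) (l 16421128)) (l 16395088))))) (b (b (a (a (l 16190664) (a (l 16243032) (l 16321456))) (a (a (l 16354120) (l 16367304)) (l 16368536))) (a (a (b (l 16179336) (b (l 16179792) (l 16196928))) (b (l 16306160) (l 16312384))) (a (b (l 16346168) (l 16339656)) (b (l 16350472) (l 16341808))))) (a (b (a (b (l 16244088) (l 16281056)) (l 16332152)) (a (l 16311888) (l 16337792))) (b (a (l 16341416) (l 16336336)) (a (l 16334416) (l 16323896))))))), by decide +kernel⟩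

def k2_pm_102 : ∃ t, chk3 f_pm_102 t 3 3 1 = true :=
  ⟨(b (a (b (a (b (b (l 16030320) (l 15959168)) (l 15968464)) (b (a (b (l 16093816) (l 16147464)) (b (l 16259568) (l 16272240))) (a (l 16194672) (l 16267936)))) (a (a (l 16061152) (b (l 16132520) (l 16146512))) (a (l 16196672) (l 16234528)))) (b (a (b (a (l 16322808) (l 16327328)) (l 16293720)) (b (a (l 16317936) (l 16304832)) (l 16275920))) (a (l 16329264) (a (l 16233864) (l 16222328))))) (a (a (b (a (l 16102536) (l 16140664)) (l 16113752)) (b (l 16183680) (l 16162416))) (a (b (l 16200056) (l 16180416)) (a (l 16265064) (a (b (l 16185128) (l 16171664)) (b (l 16179032) (l 16163936))))))), by decide +kernel⟩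

theorem s3_pm_102 : ∃ t, chk3 f_pm_102 t 3 1 1 = true := ex3_b k1_pm_102 k2_pm_102

theorem s4_pm_102 : ∃ t, chk3 f_pm_102 t 1 1 1 = true := ex3_a k0_pm_102 s3_pm_102

theorem c_pm_102 : CertB 536870912 536870912 1073741824 536870912 818728140 40265320 3 eng mog cd0q1 cd2q2 pd0 false true false .npp 1 0 2
    ndB0q1 ndB2q2 pcB0 Cut.none Ext.none :=
  certB1 (fam := false) (s1 := true) (s2 := false) (a := 1) (b := 0) (c := 2) (cn := .npp) (n1 := ndB0q1) (n2 := ndB2q2) (pc := pcB0) (cut := Cut.none) (xt := Ext.none) (P1 := 536870912) (W1 := 536870912) (P2 := 1073741824) (W2 := 536870912) (P3 := 818728140) (W3 := 40265320) (N0 := 3) (En := eng) (mo := mog) (C1 := cd0q1) (C2 := cd2q2) (C3 := pd0)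
    rfl (fun _ => rfl) s4_pm_102

noncomputable def f_pm_112 : ℕ → ℕ → ℕ → ℕ → Bool := onCell 536870912 536870912 536870912 536870912 818728140 40265320
    (rowB 3 eng mog cd0q1 cd2q2 pd1 1 false true false .dn 1 1 2 (qsf 536870912 536870912 1073741824 536870912 1) ndB0q1 ndB2q2 pcB1 Cut.none Ext.none)

def k0_pm_112 : ∃ t, chk3 f_pm_112 t 1 1 1 = true :=
  ⟨(b (a (a (b (a (b (a (l 16055312) (l 16037728)) (l 16050056)) (b (l 16020944) (l 15994440))) (a (b (a (l 15973144) (l 15946912)) (a (l 15860944) (l 15841704))) (b (l 15927728) (l 15825680)))) (b (a (b (l 16021344) (l 15983160)) (b (l 16022776) (l 16007584))) (a (b (l 15920704) (l 15849896)) (l 15939408)))) (a (a (b (l 16064160) (l 16031424)) (b (l 16312384) (a (l 16126856) (l 16196056)))) (b (a (a (l 16160104) (l 16175592)) (b (a (l 16165744) (b (l 16158840) (l 16180584))) (a (l 16215496) (l 2)))) (a (b (l 16310448) (l 2)) (l 2))))) (a (a (b (a (b (a (l 15727200) (l 15709800)) (a (l 15568832) (l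 15561368))) (b (l 15708176) (l 15584520))) (a (b (a (l 15399904) (l 15410936)) (a (b (l 15271360) (l 15181544)) (l 15249672))) (b (l 15450312) (l 168675462887)))) (b (a (b (l 15756608) (l 15655704)) (b (l 15850952) (l 15793320))) (a (b (l 15555456) (l 2)) (l 2)))) (b (a (a (l 93515183847) (l 2)) (l 2)) (l 2)))), by decide +kernel⟩

theorem c_pm_112 : CertB 536870912 536870912 1073741824 536870912 818728140 40265320 3 eng mog cd0q1 cd2q2 pd1 false true false .dn 1 1 2
    ndB0q1 ndB2q2 pcB1 Cut.none Ext.none :=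
  certB1 (fam := false) (s1 := true) (s2 := false) (a := 1) (b := 1) (c := 2) (cn := .dn) (n1 := ndB0q1) (n2 := ndB2q2) (pc := pcB1) (cut := Cut.none) (xt := Ext.none) (P1 := 536870912) (W1 := 536870912) (P2 := 1073741824) (W2 := 536870912) (P3 := 818728140) (W3 := 40265320) (N0 := 3) (En := eng) (mo := mog) (C1 := cd0q1) (C2 := cd2q2) (C3 := pd1)
    rfl (fun _ => rfl) k0_pm_112

noncomputable def cut_pm_113 : Cut := Cut.of [[⟨0, 1, 0, 67108864⟩, ⟨1, 1, 0, 67108864⟩, ⟨2, 2, 0, 16777216⟩]]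

noncomputable def f_pm_113 : ℕ → ℕ → ℕ → ℕ → Bool := onCell 536870912 536870912 0 1230186008 818728140 40265320
    (rowB 3 eng mog cd0q1 cd2q3 pd1 0 false true false .nn 1 1 3 (qsf 536870912 536870912 0 1230186008 1) ndB0q1 ndB2q3 pcB1 cut_pm_113 Ext.none)

def k0_pm_113 : ∃ t, chk3 f_pm_113 t 1 2 1 = true :=
  ⟨(a (l 2) (a (l 2) (b (a (l 2) (a (l 2) (b (l 6) (b (l 6) (a (l 16756832) (l 16755328)))))) (a (b (a (l 2) (a (l 2) (l 16680528))) (a (a (l 16604712) (l 16644264)) (b (l 16693280) (l 16718776)))) (b (a (b (l 16722272) (l 16745776)) (b (a (l 16779040) (l 16765224)) (a (l 16806088) (l 16771400)))) (a (b (l 16773424) (l 16806352)) (b (a (l 16838888) (l 16735264)) (a (l 16880064) (l 16822560))))))))), by decide +kernel⟩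

def k1_pm_113 : ∃ t, chk3 f_pm_113 t 1 6 1 = true :=
  ⟨(a (b (l 2) (a (l 2) (a (l 2) (b (l 2) (a (l 2) (l 203573206967)))))) (b (a (a (l 2) (b (a (l 2) (l 16542288)) (a (l 16435904) (l 16579128)))) (a (b (a (l 16657480) (l 16708848)) (a (b (l 16692112) (l 16722440)) (b (l 16793736) (l 16831456)))) (b (a (b (l 16835720) (l 16862600)) (a (l 16884832) (l 16735440))) (a (b (l 16902704) (l 16949912)) (b (l 16729824) (a (l 16851504) (l 16782192))))))) (a (a (b (a (l 16180744) (l 16329768)) (a (l 16101184) (l 16326632))) (b (a (l 16471104) (l 16614440)) (a (l 16502088) (l 16646424)))) (a (b (a (l 16672464) (l 16880232)) (a (l 16779976) (l 16855472))) (b (a (b (l 16949184) (l 16947400)) (b (l 16765336) (l 16779960))) (a (l 16797640) (b (l 16743328) (l 16611424)))))))), by decide +kernel⟩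

def k2_pm_113 : ∃ t, chk3 f_pm_113 t 1 7 1 = true :=
  ⟨(a (b (a (l 2) (b (a (b (l 2) (l 248669367655)) (b (l 200351722631) (l 110694272279))) (a (a (l 237394955703) (l 15487352)) (b (l 15727560) (l 15733936))))) (a (a (b (l 2) (a (b (l 2) (l 236320664631)) (b (l 232562601943) (l 15243424)))) (b (a (l 241689524887) (l 163843523639)) (a (b (l 15271656) (l 15353016)) (l 15425416)))) (a (b (a (l 15423352) (l 15556328)) (a (l 15536520) (l 15646488))) (b (a (l 15690520) (l 15822200)) (l 15808320))))) (b (a (b (a (a (l 16020824) (l 16203920)) (b (l 16489936) (l 16405616))) (a (l 16043752) (l 16304456))) (a (b (a (l 16588136) (l 16661504)) (a (l 16412672) (l 16422032))) (b (a (a (l 16569896) (l 16536864)) (b (l 16509640) (l 16428408))) (a (l 16392472) (b (l 16362904) (l 16309128)))))) (a (a (b (l 16009040) (l 16006000)) (b (l 16211296) (l 16156176))) (a (b (a (l 16290912) (l 16299392)) (l 16214096)) (b (a (b (l 16306000) (l 16259504)) (b (l 16264536) (l 16227712)))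 (a (b (l 16220376) (l 16187880)) (b (l 16196248) (l 16169008)))))))), by decide +kernel⟩

theorem s3_pm_113 : ∃ t, chk3 f_pm_113 t 1 3 1 = true := ex3_b k1_pm_113 k2_pm_113

theorem s4_pm_113 : ∃ t, chk3 f_pm_113 t 1 1 1 = true := ex3_b k0_pm_113 s3_pm_113

theorem c_pm_113 : CertB 536870912 536870912 0 1230186008 818728140 40265320 3 eng mog cd0q1 cd2q3 pd1 false true false .nn 1 1 3
    ndB0q1 ndB2q3 pcB1 cut_pm_113 Ext.none :=
  certB0 (fam := false) (s1 := true) (s2 := false) (a := 1) (b := 1) (c := 3) (cn := .nn) (n1 := ndB0q1) (n2 := ndB2q3) (pc := pcB1) (cut := cut_pm_113) (xt := Ext.none) (P1 := 536870912) (W1 := 536870912) (P2 := 0) (W2 := 1230186008) (P3 := 818728140) (W3 := 40265320) (N0 := 3) (En := eng) (mo := mog) (C1 := cd0q1) (C2 := cd2q3) (C3 := pd1)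
    rfl s4_pm_113

noncomputable def cut_pm_123 : Cut := Cut.of [[⟨0, 1, 0, 67108864⟩, ⟨1, 1, 0, 67108864⟩, ⟨2, 2, 0, 16777216⟩]]

noncomputable def f_pm_123 : ℕ → ℕ → ℕ → ℕ → Bool := onCell 1073741824 536870912 0 1230186008 818728140 40265320
    (rowB 3 eng mog cd0q1 cd2q3 pd2 2 false true false .npn 1 2 3 (qsf 536870912 536870912 0 1230186008 2) ndB0q1 ndB2q3 pcB2 cut_pm_123 Ext.none)

def k0_pm_123 : ∃ t, chk3 f_pm_123 t 1 2 1 = true :=
  ⟨(a (a (b (a (a (b (l 6) (b (l 6) (a (l 16681080) (l 16663504)))) (b (l 16747560) (a (l 16664528) (l 16648968)))) (a (b (l 16679312) (a (l 16634120) (l 16619432))) (b (l 16650592) (l 16596320)))) (a (b (a (b (l 16628672) (l 16551864)) (a (l 16575000) (l 16556952))) (b (a (l 16483336) (l 16462216)) (a (b (l 16440296) (l 16393424)) (b (l 16399608) (l 16355384))))) (b (a (l 16508672) (l 16500680)) (a (b (l 16429312) (l 16348704)) (l 16365920))))) (b (a (a (a (l 16600976) (a (l 16592600) (l 16482600))) (l 16571544))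 (l 16544256)) (a (b (a (l 16477752) (l 16459000)) (a (l 16352200) (l 16332408))) (b (l 16421336) (b (l 16335904) (l 16263096)))))) (a (b (a (l 16477544) (l 16320792)) (a (b (l 16391968) (a (l 16284408) (l 16264704))) (b (l 16365920) (l 16264008)))) (b (a (l 16439664) (l 16422400)) (a (b (l 16355424) (l 16231312)) (b (l 16319968) (l 16204392)))))), by decide +kernel⟩

def k1_pm_123 : ∃ t, chk3 f_pm_123 t 1 6 1 = true :=
  ⟨(a (b (a (b (a (b (a (a (l 16353464) (l 16332280)) (l 16307264)) (a (a (l 16303344) (l 16284296)) (l 16261104))) (a (l 16302152) (l 16241640))) (b (a (a (a (l 16261896) (l 16244232)) (l 16223280)) (a (l 16198912) (l 16176200))) (b (a (a (l 16222448) (l 16193576)) (a (l 16169096) (l 16147304))) (a (a (a (l 16209360) (l 16193680)) (l 16172728)) (a (l 16147136) (l 16123056)))))) (b (a (a (l 16218592) (l 16197256)) (l 16176200)) (a (a (l 16131696) (l 16104344)) (l 16065616)))) (a (a (b (b (a (l 16160480) (c (l 16162936) (l 16095272))) (b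 (a (l 16114272) (a (l 16080344) (l 16040008))) (a (a (l 16089440) (l 16041576)) (l 15981264)))) (a (b (a (b (l 15999784) (l 15907080)) (l 15913272)) (a (l 15780664) (l 15759008))) (b (a (l 15883288) (l 15859752)) (a (l 15743168) (l 15730048))))) (b (a (a (b (l 16112920) (l 15972416)) (l 16007952)) (l 15975336)) (a (b (l 15832992) (l 15720360)) (b (l 15816080) (l 15720344))))) (a (b (a (l 15948120) (l 15929976)) (a (l 15768944) (l 15782552))) (b (l 15932760) (a (l 15798912) (l 15819696)))))) (b (a (b (a (l 16152280) (l 16148024)) (a (l 16062664) (l 16047144))) (b (a (l 16116376) (l 1)) (l 1))) (a (a (b (l 15950992) (l 142302974151)) (b (l 15953712) (l 1))) (l 1)))), by decide +kernel⟩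

def k2_pm_123 : ∃ t, chk3 f_pm_123 t 1 7 1 = true :=
  ⟨(a (b (a (b (a (b (a (a (l 15625056) (l 15616624)) (a (l 15612496) (l 15612744))) (a (a (l 15487184) (l 15492136)) (a (l 15499936) (l 15512280)))) (b (a (l 15619408) (l 15637424)) (a (l 15533912) (l 15566256)))) (a (a (b (a (l 15374680) (l 15392496)) (a (l 15289736) (l 15315864))) (b (a (l 15411976) (l 15432160)) (l 15355864))) (a (a (l 15422448) (l 15445640)) (b (l 15505536) (l 15457440))))) (b (a (b (l 15673760) (l 15658248)) (b (l 15727712) (l 15676200))) (a (a (l 15523904) (l 15561632)) (l 1)))) (a (a (b (a (b (a (l 15225688) (l 15257504)) (a (l 15178560) (l 15214600))) (b (l 15304136) (a (l 15249704) (l 15283984)))) (a (b (a (l 15147384) (l 15186808)) (a (b (l 15133824) (l 15129800)) (l 15216048))) (b (a (l 15225120) (l 15262224)) (a (l 15215600) (l 1))))) (b (a (b (l 15364232) (l 15333128)) (b (l 15419832) (l 15393616))) (a (b (a (l 15297952) (l 1)) (l 1)) (l 1)))) (a (b (a (b (l 15470088)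 (l 1)) (l 1)) (l 1)) (l 1)))) (l 1)), by decide +kernel⟩

theorem s3_pm_123 : ∃ t, chk3 f_pm_123 t 1 3 1 = true := ex3_b k1_pm_123 k2_pm_123

theorem s4_pm_123 : ∃ t, chk3 f_pm_123 t 1 1 1 = true := ex3_b k0_pm_123 s3_pm_123

theorem c_pm_123 : CertB 536870912 536870912 0 1230186008 818728140 40265320 3 eng mog cd0q1 cd2q3 pd2 false true false .npn 1 2 3
    ndB0q1 ndB2q3 pcB2 cut_pm_123 Ext.none :=
  certB2 (fam := false) (s1 := true) (s2 := false) (a := 1) (b := 2) (c := 3) (cn := .npn) (n1 := ndB0q1) (n2 := ndB2q3) (pc := pcB2) (cut := cut_pm_123) (xt := Ext.none) (P1 := 536870912) (W1 := 536870912) (P2 := 0) (W2 := 1230186008) (P3 := 818728140) (W3 := 40265320) (N0 := 3) (En := eng) (mo := mog) (C1 := cd0q1) (C2 := cd2q3) (C3 := pd2)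
    rfl (fun _ => rfl) s4_pm_123

noncomputable def f_pm_133 : ℕ → ℕ → ℕ → ℕ → Bool := onCell 536870912 536870912 0 1230186008 818728140 40265320
    (rowB 3 eng mog cd0q1 cd2q3 pd3 0 false true false .dn 1 3 3 (qsf 536870912 536870912 0 1230186008 3) ndB0q1 ndB2q3 pcB3 Cut.none Ext.none)

def k0_pm_133 : ∃ t, chk3 f_pm_133 t 1 1 1 = true :=
  ⟨(b (b (a (a (a (l 16530672) (l 1)) (l 1)) (l 1)) (l 1)) (l 1)), by decide +kernel⟩

theorem c_pm_133 : CertB 536870912 536870912 0 1230186008 818728140 40265320 3 eng mog cd0q1 cd2q3 pd3 false true false .dn 1 3 3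
    ndB0q1 ndB2q3 pcB3 Cut.none Ext.none :=
  certB0 (fam := false) (s1 := true) (s2 := false) (a := 1) (b := 3) (c := 3) (cn := .dn) (n1 := ndB0q1) (n2 := ndB2q3) (pc := pcB3) (cut := Cut.none) (xt := Ext.none) (P1 := 536870912) (W1 := 536870912) (P2 := 0) (W2 := 1230186008) (P3 := 818728140) (W3 := 40265320) (N0 := 3) (En := eng) (mo := mog) (C1 := cd0q1) (C2 := cd2q3) (C3 := pd3)
    rfl k0_pm_133

noncomputable def f_pm_202 : ℕ → ℕ → ℕ → ℕ → Bool := onCell 0 536870912 0 536870912 818728140 40265320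
    (rowB 3 eng mog cd0q2 cd2q2 pd0 1 false true false .pp 2 0 2 (qsf 0 536870912 1073741824 536870912 0) ndB0q2 ndB2q2 pcB0 Cut.none Ext.none)

def k0_pm_202 : ∃ t, chk3 f_pm_202 t 2 1 1 = true :=
  ⟨(l 3), by decide +kernel⟩

def k1_pm_202 : ∃ t, chk3 f_pm_202 t 6 2 1 = true :=
  ⟨(b (b (a (b (l 3) (l 3)) (a (b (a (b (a (b (b (a (c (b (l 16443432) (l 16443392)) (l 16445432)) (l 16442416)) (c (a (b (l 16443632) (l 16443416)) (b (l 16449632) (l 16449112))) (a (l 16425176) (l 16431024)))) (b (c (a (a (l 16441128) (l 16443672)) (b (l 16449112) (l 16448680))) (l 130626764119)) (a (l 16433560) (l 16439528)))) (b (l 16455640) (a (c (b (l 16455800) (b (l 16455632) (l 16455352))) (l 16479584)) (l 16456720)))) (b (a (a (l 16433872) (l 16439288)) (b (a (l 16446272) (l 16453872)) (l 16449936))) (a (l 151564748039) (l 16448968)))) (b (l 16483200) (a (b (a (b (l 16463480) (l 16461144)) (l 16472360)) (b (l 16464424) (l 16463784))) (l 16485448)))) (a (a (b (b (l 16436840)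 (l 16437048)) (l 3)) (b (b (l 16448304) (l 16447664)) (c (l 169281507447) (l 16441184)))) (b (b (a (l 16462904) (l 16478568)) (a (l 16461472) (l 16476864))) (a (l 16460120) (l 16474208))))) (b (a (l 16520848) (l 16564488)) (a (b (b (l 16510136) (a (l 16494264) (l 16516072))) (b (l 16500088) (l 16497568))) (l 16546664))))) (a (l 3) (a (b (a (a (l 3) (b (c (l 16452392) (l 16442992)) (l 148343552615))) (b (c (l 16470472) (l 16461368)) (c (l 16469760) (l 16462880)))) (a (b (l 146732937767) (l 3)) (b (c (l 16469720) (l 16464808)) (c (l 16470760) (l 16467392))))) (b (a (b (a (l 16486400) (l 16502160)) (l 16492496)) (b (l 16529248) (l 16523208))) (b (a (l 16492104) (l 16520136)) (l 16441872)))))) (a (l 3) (b (a (a (l 3) (b (b (c (l 16473256) (l 16470888)) (l 152638585079)) (c (l 123647378055) (l 16484008)))) (b (b (l 16420976) (l 16443464)) (a (l 16426640) (l 16519144)))) (a (b (l 176260893239) (l 3)) (b (a (l 16505520) (l 16520616)) (l 111836273063)))))), by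 decide +kernel⟩

def k2_pm_202 : ∃ t, chk3 f_pm_202 t 7 2 1 = true :=
  ⟨(b (b (a (b (a (l 16634264) (l 16604280)) (a (l 16616016) (l 16579536))) (b (b (a (a (l 16583288) (l 16663576)) (a (b (l 16515480) (l 16520168)) (l 16468936))) (a (l 16557112) (a (l 16518216) (l 16478672)))) (a (l 16534472) (a (l 16496360) (l 16525608))))) (a (a (b (l 16593176) (a (l 16549864) (l 16577520))) (b (l 16559792) (l 16542280))) (a (b (l 16509216) (l 16488608)) (b (l 16451032) (l 16425480))))) (b (b (a (a (a (l 16542928) (l 16557376)) (l 16523432)) (a (l 16468352) (l 16403240))) (a (a (b (l 16543136) (l 16528560)) (l 16503560)) (a (l 16426872) (l 16486664)))) (a (a (b (l 16506808) (l 16479624)) (b (l 16478296) (l 16451528))) (b (a (l 16431416) (l 16367608)) (a (l 16412976) (l 16352200)))))), by decide +kernel⟩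

def k3_pm_202 : ∃ t, chk3 f_pm_202 t 3 3 1 = true :=
  ⟨(b (a (a (l 3) (a (l 3) (b (b (b (l 16490304) (l 16479808)) (c (l 16467096) (l 16463904))) (b (l 64591668839) (l 98951448455))))) (b (a (b (a (l 16454384) (l 16423040)) (a (l 16430192) (l 16391904))) (b (a (a (l 16397688) (l 16377000)) (l 16331336)) (a (l 16349240) (l 16296824)))) (a (b (a (l 16410488) (l 16367088)) (a (l 16394384) (l 16347880))) (a (l 16369752) (b (l 16263504) (l 16235384)))))) (a (a (l 3) (b (a (l 3) (b (l 102709541207) (l 174650251127))) (l 2))) (a (b (b (a (c (l 16386872) (l 16375968)) (l 16333376)) (a (l 84992732087) (l 16322672))) (b (a (l 449460985047) (l 16315152)) (l 2))) (b (b (a (l 16279088) (l 16215872)) (l 16236368)) (b (l 16229168) (l 16227416)))))), by decide +kernel⟩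

theorem s4_pm_202 : ∃ t, chk3 f_pm_202 t 3 2 1 = true := ex3_a k1_pm_202 k2_pm_202

theorem s5_pm_202 : ∃ t, chk3 f_pm_202 t 3 1 1 = true := ex3_b s4_pm_202 k3_pm_202

theorem s6_pm_202 : ∃ t, chk3 f_pm_202 t 1 1 1 = true := ex3_a k0_pm_202 s5_pm_202

theorem c_pm_202 : CertB 0 536870912 1073741824 536870912 818728140 40265320 3 eng mog cd0q2 cd2q2 pd0 false true false .pp 2 0 2
    ndB0q2 ndB2q2 pcB0 Cut.none Ext.none :=
  certB1 (fam := false) (s1 := true) (s2 := false) (a := 2) (b := 0) (c := 2) (cn := .pp) (n1 := ndB0q2) (n2 := ndB2q2) (pc := pcB0) (cut := Cut.none) (xt := Ext.none) (P1 := 0) (W1 := 536870912) (P2 := 1073741824) (W2 := 536870912) (P3 := 818728140) (W3 := 40265320) (N0 := 3) (En := eng) (mo := mog) (C1 := cd0q2) (C2 := cd2q2) (C3 := pd0)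
    rfl (fun _ => rfl) s6_pm_202

noncomputable def f_pm_203 : ℕ → ℕ → ℕ → ℕ → Bool := onCell 0 536870912 0 1230186008 818728140 40265320
    (rowB 3 eng mog cd0q2 cd2q3 pd0 0 false true false .up 2 0 3 (qsf 0 536870912 0 1230186008 0) ndB0q2 ndB2q3 pcB0 Cut.none Ext.none)

def k0_pm_203 : ∃ t, chk3 f_pm_203 t 1 1 1 = true :=
  ⟨(b (l 2) (a (l 3) (b (l 2) (b (l 2) (a (a (l 3) (b (l 3) (l 3))) (b (a (b (l 2) (a (a (l 275045057959) (l 2)) (l 2))) (l 2)) (a (b (a (a (l 100025157543) (l 16344856)) (l 16414952)) (a (b (l 88213979031) (l 84455893927)) (l 16434208))) (b (a (l 16261000) (l 2)) (a (l 16254384) (l 16195824)))))))))), by decide +kernel⟩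

theorem c_pm_203 : CertB 0 536870912 0 1230186008 818728140 40265320 3 eng mog cd0q2 cd2q3 pd0 false true false .up 2 0 3
    ndB0q2 ndB2q3 pcB0 Cut.none Ext.none :=
  certB0 (fam := false) (s1 := true) (s2 := false) (a := 2) (b := 0) (c := 3) (cn := .up) (n1 := ndB0q2) (n2 := ndB2q3) (pc := pcB0) (cut := Cut.none) (xt := Ext.none) (P1 := 0) (W1 := 536870912) (P2 := 0) (W2 := 1230186008) (P3 := 818728140) (W3 := 40265320) (N0 := 3) (En := eng) (mo := mog) (C1 := cd0q2) (C2 := cd2q3) (C3 := pd0)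
    rfl k0_pm_203

noncomputable def cut_pm_213 : Cut := Cut.of [[⟨0, 1, 0, 67108864⟩, ⟨1, 1, 0, 67108864⟩, ⟨2, 2, 0, 16777216⟩]]

noncomputable def xt_pm_213 : Ext := extD2 3 ⟨4, 1, 1, 5, 13, 5, 23, 25, 43, 100, 1, 8⟩ eng cd0q2 cd2q3 pd1 false true false .pnn 2 1 3 rfl ndB0q2 ndB2q3 pcB1

noncomputable def f_pm_213 : ℕ → ℕ → ℕ → ℕ → Bool := onCell 0 536870912 0 1230186008 818728140 40265320
    (rowB 3 eng mog cd0q2 cd2q3 pd1 0 false true false .pnn 2 1 3 (qsf 0 536870912 0 1230186008 1) ndB0q2 ndB2q3 pcB1 cut_pm_213 xt_pm_213)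

def k0_pm_213 : ∃ t, chk3 f_pm_213 t 2 2 1 = true :=
  ⟨(l 3), by decide +kernel⟩

def k1_pm_213 : ∃ t, chk3 f_pm_213 t 3 4 1 = true :=
  ⟨(a (l 3) (a (l 3) (b (l 6) (a (l 3) (a (b (l 6) (a (a (l 3) (b (b (l 3) (a (l 3) (l 399599729527))) (b (b (l 342691392231) (l 335175205575)) (a (b (l 389399183543) (l 323900917367)) (l 238001573687))))) (b (a (b (a (b (l 3) (l 393157279335)) (b (c (l 330880257063) (l 335712089879)) (l 285246215271))) (a (b (l 335712092583) (l 286856826775)) (l 16777928))) (b (l 16777904) (l 16778240))) (a (b (l 16770288) (l 16778560)) (l 16778872))))) (b (l 6) (b (a (l 16757600) (l 16779080)) (l 16759128)))))))), by decide +kernel⟩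

def k2_pm_213 : ∃ t, chk3 f_pm_213 t 3 5 1 = true :=
  ⟨(a (l 3) (a (b (l 3) (l 3)) (b (a (a (l 3) (b (a (l 3) (b (l 3) (a (l 3) (b (l 385104213367) (l 323364038311))))) (a (b (l 3) (a (l 3) (l 367924309207))) (b (a (b (l 3) (l 329806504631)) (b (l 267529464487) (l 16775888))) (b (a (l 262160742919) (l 16775088)) (l 16751656)))))) (b (a (a (b (a (b (a (l 3) (l 383493582631)) (a (l 383493603031) (l 283098727575))) (b (a (l 276119407319) (l 16778496)) (l 16778696))) (a (b (a (l 281488112599) (l 16778224)) (l 16778040)) (l 16758216))) (b (a (l 16758304) (l 16779992)) (l 16780808))) (b (l 16760728) (l 16762568))) (a (a (b (a (l 16756912) (l 16779488)) (l 16777952)) (b (l 16781720) (l 16782008))) (a (l 16764064) (l 16787528))))) (a (b (b (a (l 3) (a (a (b (l 3) (l 302962933607)) (b (l 254107657095) (l 16764240))) (a (l 16747456) (l 16771472)))) (a (l 3) (a (b (l 188609390775) (l 16736592)) (l 16765744)))) (a (a (l 3) (b (a (l 3) (b (l 158544639367) (l 153175926055)))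 (b (c (l 153712791655) (l 148880937207)) (c (l 148344076487) (l 137069724919))))) (b (a (c (l 16736280) (l 16728560)) (l 16761008)) (b (l 16732272) (l 16729528))))) (b (a (b (l 16778544) (l 16755040)) (b (l 16788200) (l 16787728))) (a (a (l 16745264) (l 16773832)) (l 16784968))))))), by decide +kernel⟩

def k3_pm_213 : ∃ t, chk3 f_pm_213 t 2 6 1 = true :=
  ⟨(l 3), by decide +kernel⟩

def k4_pm_213 : ∃ t, chk3 f_pm_213 t 6 12 1 = true :=
  ⟨(l 3), by decide +kernel⟩

def k5_pm_213 : ∃ t, chk3 f_pm_213 t 7 24 1 = true :=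
  ⟨(a (l 3) (a (a (b (a (a (l 3) (b (a (l 3) (l 151028395799)) (b (a (l 3) (l 16716520)) (c (l 148344039207) (l 144049056759))))) (a (b (a (l 16731416) (l 16733544)) (a (l 16728392) (l 16730608))) (l 16714376))) (a (a (b (a (l 3) (b (l 3) (b (l 3) (c (l 183240639815) (l 185388102071))))) (a (b (l 3) (c (l 179482520519) (l 181629984711))) (b (b (c (l 152638992407) (l 148344004183)) (c (l 148880889575) (l 145659659063))) (c (c (l 145659664167) (l 143512176711)) (c (l 141364686359) (l 138680321863)))))) (a (b (b (b (c (l 150491517655) (l 147807159431)) (b (c (l 147807161687) (l 145659678327)) (c (l 146733421431) (l 144049066775)))) (c (c (l 146196560391) (l 143512194855)) (c (l 141364706071) (l 138680345191)))) (b (c (l 16718560) (l 16708168)) (c (l 16713200) (l 16703344)))) (b (b (c (l 16729584) (l 16718520)) (c (l 16725992) (l 16715112))) (b (l 16715608) (l 16710544))))) (b (b (l 16708712) (l 16705240)) (a (l 16695536) (l 16721080))))) (b (a (l 16741992)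 (l 16750800)) (b (l 16720688) (l 16732712)))) (b (a (l 16743088) (l 16781192)) (a (l 16755824) (l 16774320))))), by decide +kernel⟩

def k6_pm_213 : ∃ t, chk3 f_pm_213 t 7 25 1 = true :=
  ⟨(a (a (l 3) (b (a (l 3) (a (l 3) (a (l 3) (b (b (l 3) (b (l 3) (l 3))) (a (l 3) (b (c (l 164986964679) (l 158007603527)) (c (l 136532751047) (l 134922147479)))))))) (a (l 3) (a (l 3) (b (a (l 3) (b (c (l 137069613191) (l 135459012263)) (c (l 132237765479) (l 130627166775)))) (a (a (l 3) (b (c (l 190756675671) (l 173039953143)) (c (l 134922092567) (l 133311494599)))) (b (b (l 16655032) (l 16633368)) (b (l 16651072) (l 16649024))))))))) (a (b (a (a (a (b (b (a (c (l 2710411687719914408073396447) (l 2565340589366063455683297375)) (c (l 16705232) (l 16695984))) (c (a (l 143512164007) (l 16699304)) (l 131700944039))) (b (c (l 16691880) (l 16683928)) (l 16670536))) (b (b (l 16704096) (l 16698544)) (l 16689744))) (b (l 16687408) (l 16697200))) (c (l 16700912) (l 16713168)))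 (a (b (a (b (l 16656832) (l 16650168)) (l 16684888)) (a (b (l 16664192) (l 16658304)) (l 16672040))) (b (l 16700536) (l 16688440)))) (b (l 16726448) (b (l 16731744) (l 16720984))))), by decide +kernel⟩

def k7_pm_213 : ∃ t, chk3 f_pm_213 t 3 13 1 = true :=
  ⟨(a (l 3) (a (b (a (l 3) (a (l 3) (b (a (b (l 3) (a (l 3) (b (l 207399644727) (l 137069554679)))) (b (b (c (l 130090260871) (l 127405900215)) (c (l 126869033527) (l 16633016))) (c (a (l 16632632) (l 16638568)) (l 119352813143)))) (a (b (b (l 136532640519) (l 133848298919)) (b (l 130627061607) (l 127405824519))) (b (a (l 16594992) (l 16602304)) (l 16562464)))))) (a (l 3) (b (a (a (l 3) (b (l 3) (l 290614496263))) (b (b (a (l 123647712455) (l 16537248)) (l 115057752775)) (a (l 16491352) (l 16498064)))) (a (b (a (l 3) (l 123110716567)) (l 121500059543)) (b (l 16466344) (l 16439760)))))) (b (a (b (a (a (b (l 16652488) (l 16644368)) (l 16660000)) (l 16677608)) (a (b (l 16622968) (l 16582144)) (l 16638952)))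 (b (l 16712888) (l 16701704))) (a (b (a (a (l 16521840) (l 16531896)) (l 16550264)) (a (l 16462360) (l 16475160))) (b (l 16602408) (l 16505712)))))), by decide +kernel⟩

def k8_pm_213 : ∃ t, chk3 f_pm_213 t 1 7 1 = true :=
  ⟨(b (a (l 3) (a (l 3) (b (a (a (l 3) (b (a (b (l 114520686903) (l 16420720)) (l 16407632)) (b (l 95730164919) (l 16373720)))) (b (a (l 16412904) (l 16430464)) (a (l 16371336) (l 16371352)))) (a (a (b (l 333027161831) (a (l 3) (l 107541302743))) (b (a (l 16364560) (l 16354056)) (a (l 16350880) (l 16336248)))) (a (b (l 16338928) (l 16313696)) (b (l 16323152) (l 16285936))))))) (a (l 3) (b (a (l 3) (a (b (a (a (l 3) (l 16377872)) (l 16329936)) (a (a (l 273434447687) (l 16391544)) (a (l 16328976) (l 16307744)))) (a (b (l 16292840) (l 16274688)) (b (l 16255280) (l 16229040))))) (a (l 1) (b (a (a (a (b (l 16368032) (l 1)) (l 16365848)) (b (l 16311520) (l 16307856))) (a (l 16259464) (l 16206632))) (a (l 1) (a (l 16247680) (l 16187560)))))))),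 by decide +kernel⟩

theorem s9_pm_213 : ∃ t, chk3 f_pm_213 t 7 12 1 = true := ex3_b k5_pm_213 k6_pm_213

theorem s10_pm_213 : ∃ t, chk3 f_pm_213 t 3 12 1 = true := ex3_a k4_pm_213 s9_pm_213

theorem s11_pm_213 : ∃ t, chk3 f_pm_213 t 3 6 1 = true := ex3_b s10_pm_213 k7_pm_213

theorem s12_pm_213 : ∃ t, chk3 f_pm_213 t 1 6 1 = true := ex3_a k3_pm_213 s11_pm_213

theorem s13_pm_213 : ∃ t, chk3 f_pm_213 t 1 3 1 = true := ex3_b s12_pm_213 k8_pm_213

theorem s14_pm_213 : ∃ t, chk3 f_pm_213 t 3 2 1 = true := ex3_b k1_pm_213 k2_pm_213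

theorem s15_pm_213 : ∃ t, chk3 f_pm_213 t 1 2 1 = true := ex3_a k0_pm_213 s14_pm_213

theorem s16_pm_213 : ∃ t, chk3 f_pm_213 t 1 1 1 = true := ex3_b s15_pm_213 s13_pm_213

theorem c_pm_213 : CertB 0 536870912 0 1230186008 818728140 40265320 3 eng mog cd0q2 cd2q3 pd1 false true false .pnn 2 1 3
    ndB0q2 ndB2q3 pcB1 cut_pm_213 xt_pm_213 :=
  certB0 (fam := false) (s1 := true) (s2 := false) (a := 2) (b := 1) (c := 3) (cn := .pnn) (n1 := ndB0q2) (n2 := ndB2q3) (pc := pcB1) (cut := cut_pm_213) (xt := xt_pm_213) (P1 := 0) (W1 := 536870912) (P2 := 0) (W2 := 1230186008) (P3 := 818728140) (W3 := 40265320) (N0 := 3) (En := eng) (mo := mog) (C1 := cd0q2) (C2 := cd2q3) (C3 := pd1)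
    rfl s16_pm_213

noncomputable def f_mm_001 : ℕ → ℕ → ℕ → ℕ → Bool := onCell 0 536870912 0 536870912 818728140 40265320
    (rowB 3 eng mog cd0q0 cd2q1 pd0 1 false false false .up 0 0 1 (qsf 0 536870912 536870912 536870912 0) ndB0q0 ndB2q1 pcB0 Cut.none Ext.none)

def k0_mm_001 : ∃ t, chk3 f_mm_001 t 1 1 1 = true :=
  ⟨(l 3), by decide +kernel⟩

theorem c_mm_001 : CertB 0 536870912 536870912 536870912 818728140 40265320 3 eng mog cd0q0 cd2q1 pd0 false false false .up 0 0 1
    ndB0q0 ndB2q1 pcB0 Cut.none Ext.none :=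
  certB1 (fam := false) (s1 := false) (s2 := false) (a := 0) (b := 0) (c := 1) (cn := .up) (n1 := ndB0q0) (n2 := ndB2q1) (pc := pcB0) (cut := Cut.none) (xt := Ext.none) (P1 := 0) (W1 := 536870912) (P2 := 536870912) (W2 := 536870912) (P3 := 818728140) (W3 := 40265320) (N0 := 3) (En := eng) (mo := mog) (C1 := cd0q0) (C2 := cd2q1) (C3 := pd0)
    rfl (fun _ => rfl) k0_mm_001

noncomputable def f_mm_011 : ℕ → ℕ → ℕ → ℕ → Bool := onCell 0 536870912 536870912 536870912 818728140 40265320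
    (rowB 3 eng mog cd0q0 cd2q1 pd1 1 false false false .pnn 0 1 1 (qsf 0 536870912 536870912 536870912 1) ndB0q0 ndB2q1 pcB1 Cut.none Ext.none)

def k0_mm_011 : ∃ t, chk3 f_mm_011 t 1 1 1 = true :=
  ⟨(l 5), by decide +kernel⟩

theorem c_mm_011 : CertB 0 536870912 536870912 536870912 818728140 40265320 3 eng mog cd0q0 cd2q1 pd1 false false false .pnn 0 1 1
    ndB0q0 ndB2q1 pcB1 Cut.none Ext.none :=
  certB1 (fam := false) (s1 := false) (s2 := false) (a := 0) (b := 1) (c := 1) (cn := .pnn) (n1 := ndB0q0) (n2 := ndB2q1) (pc := pcB1) (cut := Cut.none) (xt := Ext.none) (P1 := 0) (W1 := 536870912) (P2 := 536870912) (W2 := 536870912) (P3 := 818728140) (W3 := 40265320) (N0 := 3) (En := eng) (mo := mog) (C1 := cd0q0) (C2 := cd2q1) (C3 := pd1)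
    rfl (fun _ => rfl) k0_mm_011

noncomputable def f_mm_012 : ℕ → ℕ → ℕ → ℕ → Bool := onCell 0 536870912 1073741824 536870912 818728140 40265320
    (rowB 3 eng mog cd0q0 cd2q2 pd1 0 false false false .pnp 0 1 2 (qsf 0 536870912 1073741824 536870912 1) ndB0q0 ndB2q2 pcB1 Cut.none Ext.none)

def k0_mm_012 : ∃ t, chk3 f_mm_012 t 1 1 1 = true :=
  ⟨(l 5), by decide +kernel⟩

theorem c_mm_012 : CertB 0 536870912 1073741824 536870912 818728140 40265320 3 eng mog cd0q0 cd2q2 pd1 false false false .pnp 0 1 2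
    ndB0q0 ndB2q2 pcB1 Cut.none Ext.none :=
  certB0 (fam := false) (s1 := false) (s2 := false) (a := 0) (b := 1) (c := 2) (cn := .pnp) (n1 := ndB0q0) (n2 := ndB2q2) (pc := pcB1) (cut := Cut.none) (xt := Ext.none) (P1 := 0) (W1 := 536870912) (P2 := 1073741824) (W2 := 536870912) (P3 := 818728140) (W3 := 40265320) (N0 := 3) (En := eng) (mo := mog) (C1 := cd0q0) (C2 := cd2q2) (C3 := pd1)
    rfl k0_mm_012

noncomputable def f_mm_022 : ℕ → ℕ → ℕ → ℕ → Bool := onCell 0 536870912 1073741824 536870912 818728140 40265320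
    (rowB 3 eng mog cd0q0 cd2q2 pd2 0 false false false .pp 0 2 2 (qsf 0 536870912 1073741824 536870912 2) ndB0q0 ndB2q2 pcB2 Cut.none Ext.none)

def k0_mm_022 : ∃ t, chk3 f_mm_022 t 1 1 1 = true :=
  ⟨(l 5), by decide +kernel⟩

theorem c_mm_022 : CertB 0 536870912 1073741824 536870912 818728140 40265320 3 eng mog cd0q0 cd2q2 pd2 false false false .pp 0 2 2
    ndB0q0 ndB2q2 pcB2 Cut.none Ext.none :=
  certB0 (fam := false) (s1 := false) (s2 := false) (a := 0) (b := 2) (c := 2) (cn := .pp) (n1 := ndB0q0) (n2 := ndB2q2) (pc := pcB2) (cut := Cut.none) (xt := Ext.none) (P1 := 0) (W1 := 536870912) (P2 := 1073741824) (W2 := 536870912) (P3 := 818728140) (W3 := 40265320) (N0 := 3) (En := eng) (mo := mog) (C1 := cd0q0) (C2 := cd2q2) (C3 := pd2)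
    rfl k0_mm_022

noncomputable def f_mm_023 : ℕ → ℕ → ℕ → ℕ → Bool := onCell 0 536870912 0 1230186008 818728140 40265320
    (rowB 3 eng mog cd0q0 cd2q3 pd2 0 false false false .up 0 2 3 (qsf 0 536870912 0 1230186008 2) ndB0q0 ndB2q3 pcB2 Cut.none Ext.none)

def k0_mm_023 : ∃ t, chk3 f_mm_023 t 1 1 1 = true :=
  ⟨(l 5), by decide +kernel⟩

theorem c_mm_023 : CertB 0 536870912 0 1230186008 818728140 40265320 3 eng mog cd0q0 cd2q3 pd2 false false false .up 0 2 3
    ndB0q0 ndB2q3 pcB2 Cut.none Ext.none :=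
  certB0 (fam := false) (s1 := false) (s2 := false) (a := 0) (b := 2) (c := 3) (cn := .up) (n1 := ndB0q0) (n2 := ndB2q3) (pc := pcB2) (cut := Cut.none) (xt := Ext.none) (P1 := 0) (W1 := 536870912) (P2 := 0) (W2 := 1230186008) (P3 := 818728140) (W3 := 40265320) (N0 := 3) (En := eng) (mo := mog) (C1 := cd0q0) (C2 := cd2q3) (C3 := pd2)
    rfl k0_mm_023

noncomputable def f_mm_033 : ℕ → ℕ → ℕ → ℕ → Bool := onCell 0 536870912 0 1230186008 818728140 40265320
    (rowB 3 eng mog cd0q0 cd2q3 pd3 0 false false false .pnn 0 3 3 (qsf 0 536870912 0 1230186008 3) ndB0q0 ndB2q3 pcB3 Cut.none Ext.none)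

def k0_mm_033 : ∃ t, chk3 f_mm_033 t 1 1 1 = true :=
  ⟨(l 5), by decide +kernel⟩

theorem c_mm_033 : CertB 0 536870912 0 1230186008 818728140 40265320 3 eng mog cd0q0 cd2q3 pd3 false false false .pnn 0 3 3
    ndB0q0 ndB2q3 pcB3 Cut.none Ext.none :=
  certB0 (fam := false) (s1 := false) (s2 := false) (a := 0) (b := 3) (c := 3) (cn := .pnn) (n1 := ndB0q0) (n2 := ndB2q3) (pc := pcB3) (cut := Cut.none) (xt := Ext.none) (P1 := 0) (W1 := 536870912) (P2 := 0) (W2 := 1230186008) (P3 := 818728140) (W3 := 40265320) (N0 := 3) (En := eng) (mo := mog) (C1 := cd0q0) (C2 := cd2q3) (C3 := pd3)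
    rfl k0_mm_033

noncomputable def cut_mm_101 : Cut := Cut.of [[⟨0, 1, 0, 67108864⟩, ⟨1, 0, 0, 67108864⟩, ⟨2, 1, 0, 67108864⟩]]

noncomputable def f_mm_101 : ℕ → ℕ → ℕ → ℕ → Bool := onCell 536870912 536870912 0 536870912 818728140 40265320
    (rowB 3 eng mog cd0q1 cd2q1 pd0 1 false false false .npn 1 0 1 (qsf 536870912 536870912 536870912 536870912 0) ndB0q1 ndB2q1 pcB0 cut_mm_101 Ext.none)

def k0_mm_101 : ∃ t, chk3 f_mm_101 t 1 1 1 = true :=
  ⟨(a (l 3) (b (a (l 3) (b (a (l 3) (b (a (l 3) (b (l 6) (l 3))) (l 3))) (l 3))) (l 3))), by decide +kernel⟩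

theorem c_mm_101 : CertB 536870912 536870912 536870912 536870912 818728140 40265320 3 eng mog cd0q1 cd2q1 pd0 false false false .npn 1 0 1
    ndB0q1 ndB2q1 pcB0 cut_mm_101 Ext.none :=
  certB1 (fam := false) (s1 := false) (s2 := false) (a := 1) (b := 0) (c := 1) (cn := .npn) (n1 := ndB0q1) (n2 := ndB2q1) (pc := pcB0) (cut := cut_mm_101) (xt := Ext.none) (P1 := 536870912) (W1 := 536870912) (P2 := 536870912) (W2 := 536870912) (P3 := 818728140) (W3 := 40265320) (N0 := 3) (En := eng) (mo := mog) (C1 := cd0q1) (C2 := cd2q1) (C3 := pd0)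
    rfl (fun _ => rfl) k0_mm_101

noncomputable def f_mm_102 : ℕ → ℕ → ℕ → ℕ → Bool := onCell 536870912 536870912 0 536870912 818728140 40265320
    (rowB 3 eng mog cd0q1 cd2q2 pd0 1 false false false .npp 1 0 2 (qsf 536870912 536870912 1073741824 536870912 0) ndB0q1 ndB2q2 pcB0 Cut.none Ext.none)

def k0_mm_102 : ∃ t, chk3 f_mm_102 t 1 1 1 = true :=
  ⟨(l 3), by decide +kernel⟩

theorem c_mm_102 : CertB 536870912 536870912 1073741824 536870912 818728140 40265320 3 eng mog cd0q1 cd2q2 pd0 false false false .npp 1 0 2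
    ndB0q1 ndB2q2 pcB0 Cut.none Ext.none :=
  certB1 (fam := false) (s1 := false) (s2 := false) (a := 1) (b := 0) (c := 2) (cn := .npp) (n1 := ndB0q1) (n2 := ndB2q2) (pc := pcB0) (cut := Cut.none) (xt := Ext.none) (P1 := 536870912) (W1 := 536870912) (P2 := 1073741824) (W2 := 536870912) (P3 := 818728140) (W3 := 40265320) (N0 := 3) (En := eng) (mo := mog) (C1 := cd0q1) (C2 := cd2q2) (C3 := pd0)
    rfl (fun _ => rfl) k0_mm_102

noncomputable def f_mm_112 : ℕ → ℕ → ℕ → ℕ → Bool := onCell 536870912 536870912 1073741824 536870912 818728140 40265320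
    (rowB 3 eng mog cd0q1 cd2q2 pd1 2 false false false .dn 1 1 2 (qsf 536870912 536870912 1073741824 536870912 1) ndB0q1 ndB2q2 pcB1 Cut.none Ext.none)

def k0_mm_112 : ∃ t, chk3 f_mm_112 t 1 1 1 = true :=
  ⟨(l 5), by decide +kernel⟩

theorem c_mm_112 : CertB 536870912 536870912 1073741824 536870912 818728140 40265320 3 eng mog cd0q1 cd2q2 pd1 false false false .dn 1 1 2
    ndB0q1 ndB2q2 pcB1 Cut.none Ext.none :=
  certB2 (fam := false) (s1 := false) (s2 := false) (a := 1) (b := 1) (c := 2) (cn := .dn) (n1 := ndB0q1) (n2 := ndB2q2) (pc := pcB1) (cut := Cut.none) (xt := Ext.none) (P1 := 536870912) (W1 := 536870912) (P2 := 1073741824) (W2 := 536870912) (P3 := 818728140) (W3 := 40265320) (N0 := 3) (En := eng) (mo := mog) (C1 := cd0q1) (C2 := cd2q2) (C3 := pd1)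
    rfl (fun _ => rfl) k0_mm_112

noncomputable def f_mm_113 : ℕ → ℕ → ℕ → ℕ → Bool := onCell 536870912 536870912 0 1230186008 818728140 40265320
    (rowB 3 eng mog cd0q1 cd2q3 pd1 0 false false false .nn 1 1 3 (qsf 536870912 536870912 0 1230186008 1) ndB0q1 ndB2q3 pcB1 Cut.none Ext.none)

def k0_mm_113 : ∃ t, chk3 f_mm_113 t 1 1 1 = true :=
  ⟨(b (l 5) (l 5)), by decide +kernel⟩

theorem c_mm_113 : CertB 536870912 536870912 0 1230186008 818728140 40265320 3 eng mog cd0q1 cd2q3 pd1 false false false .nn 1 1 3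
    ndB0q1 ndB2q3 pcB1 Cut.none Ext.none :=
  certB0 (fam := false) (s1 := false) (s2 := false) (a := 1) (b := 1) (c := 3) (cn := .nn) (n1 := ndB0q1) (n2 := ndB2q3) (pc := pcB1) (cut := Cut.none) (xt := Ext.none) (P1 := 536870912) (W1 := 536870912) (P2 := 0) (W2 := 1230186008) (P3 := 818728140) (W3 := 40265320) (N0 := 3) (En := eng) (mo := mog) (C1 := cd0q1) (C2 := cd2q3) (C3 := pd1)
    rfl k0_mm_113

noncomputable def f_mm_123 : ℕ → ℕ → ℕ → ℕ → Bool := onCell 536870912 536870912 0 1230186008 818728140 40265320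
    (rowB 3 eng mog cd0q1 cd2q3 pd2 0 false false false .npn 1 2 3 (qsf 536870912 536870912 0 1230186008 2) ndB0q1 ndB2q3 pcB2 Cut.none Ext.none)

def k0_mm_123 : ∃ t, chk3 f_mm_123 t 1 1 1 = true :=
  ⟨(b (l 5) (l 5)), by decide +kernel⟩

theorem c_mm_123 : CertB 536870912 536870912 0 1230186008 818728140 40265320 3 eng mog cd0q1 cd2q3 pd2 false false false .npn 1 2 3
    ndB0q1 ndB2q3 pcB2 Cut.none Ext.none :=
  certB0 (fam := false) (s1 := false) (s2 := false) (a := 1) (b := 2) (c := 3) (cn := .npn) (n1 := ndB0q1) (n2 := ndB2q3) (pc := pcB2) (cut := Cut.none) (xt := Ext.none) (P1 := 536870912) (W1 := 536870912) (P2 := 0) (W2 := 1230186008) (P3 := 818728140) (W3 := 40265320) (N0 := 3) (En := eng) (mo := mog) (C1 := cd0q1) (C2 := cd2q3) (C3 := pd2)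
    rfl k0_mm_123

noncomputable def f_mm_133 : ℕ → ℕ → ℕ → ℕ → Bool := onCell 1610612736 536870912 0 1230186008 818728140 40265320
    (rowB 3 eng mog cd0q1 cd2q3 pd3 2 false false false .dn 1 3 3 (qsf 536870912 536870912 0 1230186008 3) ndB0q1 ndB2q3 pcB3 Cut.none Ext.none)

def k0_mm_133 : ∃ t, chk3 f_mm_133 t 1 1 1 = true :=
  ⟨(l 5), by decide +kernel⟩

theorem c_mm_133 : CertB 536870912 536870912 0 1230186008 818728140 40265320 3 eng mog cd0q1 cd2q3 pd3 false false false .dn 1 3 3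
    ndB0q1 ndB2q3 pcB3 Cut.none Ext.none :=
  certB2 (fam := false) (s1 := false) (s2 := false) (a := 1) (b := 3) (c := 3) (cn := .dn) (n1 := ndB0q1) (n2 := ndB2q3) (pc := pcB3) (cut := Cut.none) (xt := Ext.none) (P1 := 536870912) (W1 := 536870912) (P2 := 0) (W2 := 1230186008) (P3 := 818728140) (W3 := 40265320) (N0 := 3) (En := eng) (mo := mog) (C1 := cd0q1) (C2 := cd2q3) (C3 := pd3)
    rfl (fun _ => rfl) k0_mm_133

noncomputable def f_mm_202 : ℕ → ℕ → ℕ → ℕ → Bool := onCell 0 536870912 1073741824 536870912 818728140 40265320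
    (rowB 3 eng mog cd0q2 cd2q2 pd0 0 false false false .pp 2 0 2 (qsf 0 536870912 1073741824 536870912 0) ndB0q2 ndB2q2 pcB0 Cut.none Ext.none)

def k0_mm_202 : ∃ t, chk3 f_mm_202 t 1 1 1 = true :=
  ⟨(l 3), by decide +kernel⟩

theorem c_mm_202 : CertB 0 536870912 1073741824 536870912 818728140 40265320 3 eng mog cd0q2 cd2q2 pd0 false false false .pp 2 0 2
    ndB0q2 ndB2q2 pcB0 Cut.none Ext.none :=
  certB0 (fam := false) (s1 := false) (s2 := false) (a := 2) (b := 0) (c := 2) (cn := .pp) (n1 := ndB0q2) (n2 := ndB2q2) (pc := pcB0) (cut := Cut.none) (xt := Ext.none) (P1 := 0) (W1 := 536870912) (P2 := 1073741824) (W2 := 536870912) (P3 := 818728140) (W3 := 40265320) (N0 := 3) (En := eng) (mo := mog) (C1 := cd0q2) (C2 := cd2q2) (C3 := pd0)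
    rfl k0_mm_202

noncomputable def f_mm_203 : ℕ → ℕ → ℕ → ℕ → Bool := onCell 0 536870912 0 1230186008 818728140 40265320
    (rowB 3 eng mog cd0q2 cd2q3 pd0 0 false false false .up 2 0 3 (qsf 0 536870912 0 1230186008 0) ndB0q2 ndB2q3 pcB0 Cut.none Ext.none)

def k0_mm_203 : ∃ t, chk3 f_mm_203 t 1 1 1 = true :=
  ⟨(b (l 2) (l 3)), by decide +kernel⟩

theorem c_mm_203 : CertB 0 536870912 0 1230186008 818728140 40265320 3 eng mog cd0q2 cd2q3 pd0 false false false .up 2 0 3
    ndB0q2 ndB2q3 pcB0 Cut.none Ext.none :=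
  certB0 (fam := false) (s1 := false) (s2 := false) (a := 2) (b := 0) (c := 3) (cn := .up) (n1 := ndB0q2) (n2 := ndB2q3) (pc := pcB0) (cut := Cut.none) (xt := Ext.none) (P1 := 0) (W1 := 536870912) (P2 := 0) (W2 := 1230186008) (P3 := 818728140) (W3 := 40265320) (N0 := 3) (En := eng) (mo := mog) (C1 := cd0q2) (C2 := cd2q3) (C3 := pd0)
    rfl k0_mm_203

noncomputable def f_mm_213 : ℕ → ℕ → ℕ → ℕ → Bool := onCell 0 536870912 0 1230186008 818728140 40265320
    (rowB 3 eng mog cd0q2 cd2q3 pd1 0 false false false .pnn 2 1 3 (qsf 0 536870912 0 1230186008 1) ndB0q2 ndB2q3 pcB1 Cut.none Ext.none)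

def k0_mm_213 : ∃ t, chk3 f_mm_213 t 1 1 1 = true :=
  ⟨(b (a (l 3) (l 5)) (l 3)), by decide +kernel⟩

theorem c_mm_213 : CertB 0 536870912 0 1230186008 818728140 40265320 3 eng mog cd0q2 cd2q3 pd1 false false false .pnn 2 1 3
    ndB0q2 ndB2q3 pcB1 Cut.none Ext.none :=
  certB0 (fam := false) (s1 := false) (s2 := false) (a := 2) (b := 1) (c := 3) (cn := .pnn) (n1 := ndB0q2) (n2 := ndB2q3) (pc := pcB1) (cut := Cut.none) (xt := Ext.none) (P1 := 0) (W1 := 536870912) (P2 := 0) (W2 := 1230186008) (P3 := 818728140) (W3 := 40265320) (N0 := 3) (En := eng) (mo := mog) (C1 := cd0q2) (C2 := cd2q3) (C3 := pd1)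
    rfl k0_mm_213

end Pool.Agent.Strip051.G.I7625_8000.Tab.C.BB02

namespace Pool.Agent.Strip051.G.I7625_8000.Tab.C.BB03

open Pool.Agent.Strip051.PB Pool.Agent.Strip051.PB.T
open Pool.Agent.Strip051.G.I7625_8000.Tab

noncomputable def f_pp_001 : ℕ → ℕ → ℕ → ℕ → Bool := onCell 0 536870912 0 536870912 818728140 40265320
    (rowB 3 eng mog cd0q0 cd3q1 pd0 1 false true true .up 0 0 1 (qsf 0 536870912 536870912 536870912 0) ndB0q0 ndB3q1 pcB0 Cut.none Ext.none)

def k0_pp_001 : ∃ t, chk3 f_pp_001 t 1 1 1 = true :=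
  ⟨(l 3), by decide +kernel⟩

theorem c_pp_001 : CertB 0 536870912 536870912 536870912 818728140 40265320 3 eng mog cd0q0 cd3q1 pd0 false true true .up 0 0 1
    ndB0q0 ndB3q1 pcB0 Cut.none Ext.none :=
  certB1 (fam := false) (s1 := true) (s2 := true) (a := 0) (b := 0) (c := 1) (cn := .up) (n1 := ndB0q0) (n2 := ndB3q1) (pc := pcB0) (cut := Cut.none) (xt := Ext.none) (P1 := 0) (W1 := 536870912) (P2 := 536870912) (W2 := 536870912) (P3 := 818728140) (W3 := 40265320) (N0 := 3) (En := eng) (mo := mog) (C1 := cd0q0) (C2 := cd3q1) (C3 := pd0)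
    rfl (fun _ => rfl) k0_pp_001

noncomputable def cut_pp_011 : Cut := Cut.of [[⟨0, 0, 0, 67108864⟩, ⟨1, 1, 0, 67108864⟩, ⟨2, 1, 0, 67108864⟩]]

noncomputable def f_pp_011 : ℕ → ℕ → ℕ → ℕ → Bool := onCell 0 536870912 536870912 536870912 818728140 40265320
    (rowB 3 eng mog cd0q0 cd3q1 pd1 1 false true true .pnn 0 1 1 (qsf 0 536870912 536870912 536870912 1) ndB0q0 ndB3q1 pcB1 cut_pp_011 Ext.none)

def k0_pp_011 : ∃ t, chk3 f_pp_011 t 1 1 1 = true :=
  ⟨(b (l 3) (a (b (l 3) (a (b (l 3) (a (b (l 3) (a (l 6) (l 3))) (l 3))) (l 3))) (l 3))), by decide +kernel⟩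

theorem c_pp_011 : CertB 0 536870912 536870912 536870912 818728140 40265320 3 eng mog cd0q0 cd3q1 pd1 false true true .pnn 0 1 1
    ndB0q0 ndB3q1 pcB1 cut_pp_011 Ext.none :=
  certB1 (fam := false) (s1 := true) (s2 := true) (a := 0) (b := 1) (c := 1) (cn := .pnn) (n1 := ndB0q0) (n2 := ndB3q1) (pc := pcB1) (cut := cut_pp_011) (xt := Ext.none) (P1 := 0) (W1 := 536870912) (P2 := 536870912) (W2 := 536870912) (P3 := 818728140) (W3 := 40265320) (N0 := 3) (En := eng) (mo := mog) (C1 := cd0q0) (C2 := cd3q1) (C3 := pd1)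
    rfl (fun _ => rfl) k0_pp_011

noncomputable def f_pp_012 : ℕ → ℕ → ℕ → ℕ → Bool := onCell 0 536870912 536870912 536870912 818728140 40265320
    (rowB 3 eng mog cd0q0 cd3q2 pd1 1 false true true .pnp 0 1 2 (qsf 0 536870912 1073741824 536870912 1) ndB0q0 ndB3q2 pcB1 Cut.none Ext.none)

def k0_pp_012 : ∃ t, chk3 f_pp_012 t 1 1 1 = true :=
  ⟨(l 3), by decide +kernel⟩

theorem c_pp_012 : CertB 0 536870912 1073741824 536870912 818728140 40265320 3 eng mog cd0q0 cd3q2 pd1 false true true .pnp 0 1 2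
    ndB0q0 ndB3q2 pcB1 Cut.none Ext.none :=
  certB1 (fam := false) (s1 := true) (s2 := true) (a := 0) (b := 1) (c := 2) (cn := .pnp) (n1 := ndB0q0) (n2 := ndB3q2) (pc := pcB1) (cut := Cut.none) (xt := Ext.none) (P1 := 0) (W1 := 536870912) (P2 := 1073741824) (W2 := 536870912) (P3 := 818728140) (W3 := 40265320) (N0 := 3) (En := eng) (mo := mog) (C1 := cd0q0) (C2 := cd3q2) (C3 := pd1)
    rfl (fun _ => rfl) k0_pp_012

noncomputable def f_pp_022 : ℕ → ℕ → ℕ → ℕ → Bool := onCell 0 536870912 1073741824 536870912 818728140 40265320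
    (rowB 3 eng mog cd0q0 cd3q2 pd2 1 false true true .pp 0 2 2 (qsf 0 536870912 1073741824 536870912 2) ndB0q0 ndB3q2 pcB2 Cut.none Ext.none)

def k0_pp_022 : ∃ t, chk3 f_pp_022 t 1 1 1 = true :=
  ⟨(b (b (a (l 3) (l 3)) (a (b (b (b (l 3) (b (l 3) (a (b (l 3) (a (b (b (l 3) (a (l 16335216) (l 16356552))) (a (l 16331248) (l 16352760))) (b (l 3) (a (l 16374048) (l 16396272))))) (b (l 3) (a (b (a (l 3) (l 16456328)) (a (l 16422440) (l 16452304))) (b (a (l 16485416) (l 16511768)) (a (l 16481608) (l 16508184)))))))) (a (a (a (a (l 16281024) (l 16292816)) (l 16310376)) (a (l 16333680) (l 16357936))) (a (a (l 16386168) (l 16418136)) (a (l 16449592) (l 16478376))))) (a (a (a (b (l 16206336) (l 16129816)) (b (l 16233680) (l 16161104))) (a (b (l 16260856) (l 16192272)) (l 16402920))) (a (a (l 16395208) (l 16328456)) (a (l 16366160) (l 16401312))))) (b (b (b (a (l 3) (a (l 3) (l 2))) (a (b (a (l 3) (l 16576504)) (b (a (l 16547152) (l 16574208)) (a (b (l 16542712)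 (l 16539480)) (b (l 16571120) (l 16568432))))) (l 2))) (a (a (l 16513032) (l 16546872)) (l 2))) (a (a (l 16445672) (l 16493320)) (l 2))))) (a (a (b (a (b (a (l 16043928) (l 16060416)) (a (l 15896800) (l 15943008))) (b (a (l 16097816) (l 16136304)) (a (l 15989248) (l 16036672)))) (a (b (l 15881920) (l 15742880)) (b (l 16035936) (l 15873304)))) (b (a (b (a (l 16178992) (l 16225736)) (a (l 16088432) (l 16144424))) (b (a (l 16272240) (l 16316328)) (l 16309696))) (a (b (l 16114712) (l 2)) (l 2)))) (b (a (a (b (l 16436440) (l 2)) (l 2)) (l 2)) (l 2)))), by decide +kernel⟩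

theorem c_pp_022 : CertB 0 536870912 1073741824 536870912 818728140 40265320 3 eng mog cd0q0 cd3q2 pd2 false true true .pp 0 2 2
    ndB0q0 ndB3q2 pcB2 Cut.none Ext.none :=
  certB1 (fam := false) (s1 := true) (s2 := true) (a := 0) (b := 2) (c := 2) (cn := .pp) (n1 := ndB0q0) (n2 := ndB3q2) (pc := pcB2) (cut := Cut.none) (xt := Ext.none) (P1 := 0) (W1 := 536870912) (P2 := 1073741824) (W2 := 536870912) (P3 := 818728140) (W3 := 40265320) (N0 := 3) (En := eng) (mo := mog) (C1 := cd0q0) (C2 := cd3q2) (C3 := pd2)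
    rfl (fun _ => rfl) k0_pp_022

noncomputable def f_pp_023 : ℕ → ℕ → ℕ → ℕ → Bool := onCell 1073741824 536870912 0 1230186008 818728140 40265320
    (rowB 3 eng mog cd0q0 cd3q3 pd2 2 false true true .up 0 2 3 (qsf 0 536870912 0 1230186008 2) ndB0q0 ndB3q3 pcB2 Cut.none Ext.none)

def k0_pp_023 : ∃ t, chk3 f_pp_023 t 1 2 1 = true :=
  ⟨(a (l 2) (a (l 2) (b (a (l 2) (l 16458032)) (b (a (l 16556016) (l 16507480)) (a (l 180488195127) (l 16450136)))))), by decide +kernel⟩

def k1_pp_023 : ∃ t, chk3 f_pp_023 t 1 3 1 = true :=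
  ⟨(a (a (b (l 2) (b (l 2) (l 3))) (b (a (l 2) (b (l 2) (b (l 2) (l 322222616919)))) (a (a (a (b (b (l 2) (a (l 492411120983) (b (l 2) (l 16600744)))) (b (a (l 3) (b (l 16595320) (l 3))) (l 3))) (b (b (l 2) (a (l 16609760) (a (l 16613408) (a (l 16612304) (l 16610552))))) (a (b (b (l 16598112) (l 16589384)) (b (l 16576376) (l 16533032))) (b (a (l 16595592) (a (l 16594160) (l 16592232))) (a (b (l 16573808) (l 16547904)) (b (a (l 16570104) (l 16567016)) (a (l 16543296) (l 16539784)))))))) (b (b (l 16605504) (b (l 16599384) (l 16588736))) (b (b (l 16580272) (l 16562976)) (b (l 16539888) (l 16509624))))) (b (b (a (l 16570056) (l 16550856)) (a (l 16564240) (l 16527040))) (b (b (l 16515248) (l 16562056)) (b (l 16458640) (a (l 16451224) (l 16386600)))))))) (b (a (b (a (l 2) (b (l 16543536) (l 16515136))) (a (b (l 16551744) (l 16378464)) (b (l 16488952) (l 16454648)))) (b (a (b (l 16493560) (l 16456656)) (l 16403408)) (a (b (l 16407048) (l 16355560)) (b (l 16330664)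 (l 16263144))))) (b (a (a (b (a (l 16516112) (l 16470392)) (a (l 16475432) (l 16424624))) (b (l 16189960) (a (l 16374208) (l 16318432)))) (b (a (l 16301392) (l 16200624)) (a (a (l 16256496) (l 16189240)) (b (l 16105416) (l 16044136))))) (a (b (a (b (l 16412432) (l 16378856)) (b (l 16291760) (l 16263208))) (a (b (l 16334120) (a (l 16315768) (l 16239752))) (b (l 16184200) (a (l 16156408) (l 16068016))))) (b (a (b (l 16146568) (l 16081552)) (b (l 15980056) (l 15913384))) (a (b (l 16011864) (l 16063904)) (b (l 15839008) (l 15759808)))))))), by decide +kernel⟩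

theorem s2_pp_023 : ∃ t, chk3 f_pp_023 t 1 1 1 = true := ex3_b k0_pp_023 k1_pp_023

theorem c_pp_023 : CertB 0 536870912 0 1230186008 818728140 40265320 3 eng mog cd0q0 cd3q3 pd2 false true true .up 0 2 3
    ndB0q0 ndB3q3 pcB2 Cut.none Ext.none :=
  certB2 (fam := false) (s1 := true) (s2 := true) (a := 0) (b := 2) (c := 3) (cn := .up) (n1 := ndB0q0) (n2 := ndB3q3) (pc := pcB2) (cut := Cut.none) (xt := Ext.none) (P1 := 0) (W1 := 536870912) (P2 := 0) (W2 := 1230186008) (P3 := 818728140) (W3 := 40265320) (N0 := 3) (En := eng) (mo := mog) (C1 := cd0q0) (C2 := cd3q3) (C3 := pd2)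
    rfl (fun _ => rfl) s2_pp_023

noncomputable def f_pp_033 : ℕ → ℕ → ℕ → ℕ → Bool := onCell 1610612736 536870912 0 1230186008 818728140 40265320
    (rowB 3 eng mog cd0q0 cd3q3 pd3 2 false true true .pnn 0 3 3 (qsf 0 536870912 0 1230186008 3) ndB0q0 ndB3q3 pcB3 Cut.none Ext.none)

def k0_pp_033 : ∃ t, chk3 f_pp_033 t 1 1 1 = true :=
  ⟨(b (b (a (a (a (l 16481176) (l 16469328)) (a (l 16244080) (l 16284760))) (a (a (l 16196064) (l 4)) (l 4))) (a (a (b (a (l 16478920) (l 16397496)) (a (l 16419672) (l 16355520))) (a (b (l 16330240) (l 16274056)) (b (l 16246904) (a (l 16203488) (l 16150496))))) (b (a (a (l 16152624) (a (l 16083352) (l 4))) (l 4)) (a (a (b (l 16098504) (l 16051080)) (a (l 16008880) (l 15937368))) (a (a (a (l 15940928) (l 4)) (l 4)) (l 4)))))) (b (a (a (b (a (l 16345272) (b (l 16287984) (l 16214200))) (a (b (l 16213496) (l 16123088)) (b (l 16114104) (l 15993504)))) (a (b (b (l 16203112) (l 16127016)) (b (l 16013456) (l 15880560))) (b (a (l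 16088712) (l 16037528)) (a (l 15981640) (b (l 15918144) (l 15761808)))))) (b (a (a (b (l 15991808) (l 15924712)) (a (l 15889256) (l 15830080))) (a (a (l 359735058455) (l 1)) (l 1))) (a (a (a (l 15790808) (l 15740336)) (a (l 411274544423) (l 1))) (l 1)))) (a (a (b (a (b (l 16096568) (b (l 15925712) (l 15866280))) (b (l 15870688) (l 15739568))) (a (b (b (l 15801560) (l 15735344)) (l 83246517959)) (b (l 15597488) (l 240012473143)))) (a (b (b (l 15735320) (l 15584096)) (b (l 144986265191) (l 1))) (b (a (l 196526298535) (l 207263644439)) (l 1)))) (l 1)))), by decide +kernel⟩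

theorem c_pp_033 : CertB 0 536870912 0 1230186008 818728140 40265320 3 eng mog cd0q0 cd3q3 pd3 false true true .pnn 0 3 3
    ndB0q0 ndB3q3 pcB3 Cut.none Ext.none :=
  certB2 (fam := false) (s1 := true) (s2 := true) (a := 0) (b := 3) (c := 3) (cn := .pnn) (n1 := ndB0q0) (n2 := ndB3q3) (pc := pcB3) (cut := Cut.none) (xt := Ext.none) (P1 := 0) (W1 := 536870912) (P2 := 0) (W2 := 1230186008) (P3 := 818728140) (W3 := 40265320) (N0 := 3) (En := eng) (mo := mog) (C1 := cd0q0) (C2 := cd3q3) (C3 := pd3)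
    rfl (fun _ => rfl) k0_pp_033

noncomputable def f_pp_101 : ℕ → ℕ → ℕ → ℕ → Bool := onCell 536870912 536870912 536870912 536870912 818728140 40265320
    (rowB 3 eng mog cd0q1 cd3q1 pd0 0 false true true .npn 1 0 1 (qsf 536870912 536870912 536870912 536870912 0) ndB0q1 ndB3q1 pcB0 Cut.none Ext.none)

def k0_pp_101 : ∃ t, chk3 f_pp_101 t 1 1 1 = true :=
  ⟨(a (l 3) (l 5)), by decide +kernel⟩

theorem c_pp_101 : CertB 536870912 536870912 536870912 536870912 818728140 40265320 3 eng mog cd0q1 cd3q1 pd0 false true true .npn 1 0 1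
    ndB0q1 ndB3q1 pcB0 Cut.none Ext.none :=
  certB0 (fam := false) (s1 := true) (s2 := true) (a := 1) (b := 0) (c := 1) (cn := .npn) (n1 := ndB0q1) (n2 := ndB3q1) (pc := pcB0) (cut := Cut.none) (xt := Ext.none) (P1 := 536870912) (W1 := 536870912) (P2 := 536870912) (W2 := 536870912) (P3 := 818728140) (W3 := 40265320) (N0 := 3) (En := eng) (mo := mog) (C1 := cd0q1) (C2 := cd3q1) (C3 := pd0)
    rfl k0_pp_101

noncomputable def f_pp_102 : ℕ → ℕ → ℕ → ℕ → Bool := onCell 536870912 536870912 1073741824 536870912 818728140 40265320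
    (rowB 3 eng mog cd0q1 cd3q2 pd0 0 false true true .npp 1 0 2 (qsf 536870912 536870912 1073741824 536870912 0) ndB0q1 ndB3q2 pcB0 Cut.none Ext.none)

def k0_pp_102 : ∃ t, chk3 f_pp_102 t 1 1 1 = true :=
  ⟨(l 3), by decide +kernel⟩

theorem c_pp_102 : CertB 536870912 536870912 1073741824 536870912 818728140 40265320 3 eng mog cd0q1 cd3q2 pd0 false true true .npp 1 0 2
    ndB0q1 ndB3q2 pcB0 Cut.none Ext.none :=
  certB0 (fam := false) (s1 := true) (s2 := true) (a := 1) (b := 0) (c := 2) (cn := .npp) (n1 := ndB0q1) (n2 := ndB3q2) (pc := pcB0) (cut := Cut.none) (xt := Ext.none) (P1 := 536870912) (W1 := 536870912) (P2 := 1073741824) (W2 := 536870912) (P3 := 818728140) (W3 := 40265320) (N0 := 3) (En := eng) (mo := mog) (C1 := cd0q1) (C2 := cd3q2) (C3 := pd0)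
    rfl k0_pp_102

noncomputable def f_pp_112 : ℕ → ℕ → ℕ → ℕ → Bool := onCell 536870912 536870912 1073741824 536870912 818728140 40265320
    (rowB 3 eng mog cd0q1 cd3q2 pd1 0 false true true .dn 1 1 2 (qsf 536870912 536870912 1073741824 536870912 1) ndB0q1 ndB3q2 pcB1 Cut.none Ext.none)

def k0_pp_112 : ∃ t, chk3 f_pp_112 t 1 1 1 = true :=
  ⟨(l 3), by decide +kernel⟩

theorem c_pp_112 : CertB 536870912 536870912 1073741824 536870912 818728140 40265320 3 eng mog cd0q1 cd3q2 pd1 false true true .dn 1 1 2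
    ndB0q1 ndB3q2 pcB1 Cut.none Ext.none :=
  certB0 (fam := false) (s1 := true) (s2 := true) (a := 1) (b := 1) (c := 2) (cn := .dn) (n1 := ndB0q1) (n2 := ndB3q2) (pc := pcB1) (cut := Cut.none) (xt := Ext.none) (P1 := 536870912) (W1 := 536870912) (P2 := 1073741824) (W2 := 536870912) (P3 := 818728140) (W3 := 40265320) (N0 := 3) (En := eng) (mo := mog) (C1 := cd0q1) (C2 := cd3q2) (C3 := pd1)
    rfl k0_pp_112

noncomputable def cut_pp_113 : Cut := Cut.of [[⟨0, 1, 0, 67108864⟩, ⟨1, 1, 0, 67108864⟩, ⟨2, 2, 0, 16777216⟩]]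

noncomputable def f_pp_113 : ℕ → ℕ → ℕ → ℕ → Bool := onCell 536870912 536870912 0 1230186008 818728140 40265320
    (rowB 3 eng mog cd0q1 cd3q3 pd1 2 false true true .nn 1 1 3 (qsf 536870912 536870912 0 1230186008 1) ndB0q1 ndB3q3 pcB1 cut_pp_113 Ext.none)

def k0_pp_113 : ∃ t, chk3 f_pp_113 t 1 1 1 = true :=
  ⟨(b (a (l 2) (a (l 2) (b (a (l 2) (a (l 2) (b (l 6) (l 3)))) (l 3)))) (b (a (b (l 2) (l 3)) (l 3)) (a (b (a (l 2) (l 3)) (l 3)) (l 3)))), by decide +kernel⟩

theorem c_pp_113 : CertB 536870912 536870912 0 1230186008 818728140 40265320 3 eng mog cd0q1 cd3q3 pd1 false true true .nn 1 1 3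
    ndB0q1 ndB3q3 pcB1 cut_pp_113 Ext.none :=
  certB2 (fam := false) (s1 := true) (s2 := true) (a := 1) (b := 1) (c := 3) (cn := .nn) (n1 := ndB0q1) (n2 := ndB3q3) (pc := pcB1) (cut := cut_pp_113) (xt := Ext.none) (P1 := 536870912) (W1 := 536870912) (P2 := 0) (W2 := 1230186008) (P3 := 818728140) (W3 := 40265320) (N0 := 3) (En := eng) (mo := mog) (C1 := cd0q1) (C2 := cd3q3) (C3 := pd1)
    rfl (fun _ => rfl) k0_pp_113

noncomputable def cut_pp_123 : Cut := Cut.of [[⟨0, 1, 0, 67108864⟩, ⟨1, 1, 0, 67108864⟩, ⟨2, 2, 0, 16777216⟩]]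

noncomputable def f_pp_123 : ℕ → ℕ → ℕ → ℕ → Bool := onCell 1073741824 536870912 0 1230186008 818728140 40265320
    (rowB 3 eng mog cd0q1 cd3q3 pd2 2 false true true .npn 1 2 3 (qsf 536870912 536870912 0 1230186008 2) ndB0q1 ndB3q3 pcB2 cut_pp_123 Ext.none)

def k0_pp_123 : ∃ t, chk3 f_pp_123 t 16 4 1 = true :=
  ⟨(b (l 6) (b (l 6) (l 3))), by decide +kernel⟩

def k1_pp_123 : ∃ t, chk3 f_pp_123 t 17 8 1 = true :=
  ⟨(a (l 6) (b (l 16722752) (l 16740472))), by decide +kernel⟩

def k2_pp_123 : ∃ t, chk3 f_pp_123 t 34 9 1 = true :=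
  ⟨(b (l 6) (a (b (a (l 3) (b (l 3) (l 3))) (l 3)) (b (a (b (a (b (c (a (b (l 326048416199) (l 407652792839)) (l 280951258263)) (a (b (c (l 318532224823) (a (l 353428822615) (l 298667984695))) (c (l 387251703399) (l 385104207415))) (b (l 16774616) (c (l 299204865143) (l 296520493975))))) (a (l 3) (a (l 3) (c (l 392083538279) (c (l 378661768183) (l 365776842711)))))) (b (c (l 16785656) (l 16774104)) (c (a (b (l 16776168) (l 366313733943)) (l 16776008)) (b (c (l 257865804279) (l 256255176743)) (a (c (l 349133866775) (l 350744455671)) (l 16763488)))))) (a (l 3) (a (l 3) (b (c (b (l 341080801303) (l 402820958359)) (b (c (l 318532223927) (l 319605941399)) (c (l 388862315175) (l 386714817127)))) (l 3))))) (b (a (c (l 16785376) (l 16773360)) (l 16757664)) (a (b (a (c (l 294909901559) (c (l 280414381927) (l 279877494919))) (c (l 16786704) (l 16773184))) (c (a (l 395304766759) (b (l 16777032) (l 367924346727))) (c (a (l 383493606071) (l 319069083463)) (a (l 381882978135)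 (b (l 16764200) (l 350207591767)))))) (b (l 16758448) (c (l 16776552) (a (l 16768792) (l 16772272))))))) (a (l 3) (b (a (l 3) (b (c (a (b (l 350744476919) (l 392083541511)) (l 291688674967)) (c (a (l 350207586135) (l 292225539991)) (a (b (l 319605948183) (l 386714813239)) (l 280414361639)))) (a (l 3) (c (l 384030478727) (c (l 382419862183) (l 380809232071)))))) (l 3)))))), by decide +kernel⟩

def k3_pp_123 : ∃ t, chk3 f_pp_123 t 35 9 1 = true :=
  ⟨(b (a (a (b (l 6) (l 16771624)) (l 16760928)) (l 16752328)) (a (b (a (b (l 16777240) (a (l 16757712) (l 16777592))) (b (l 16773088) (l 16775784))) (a (b (c (a (b (l 16787016) (a (l 331953992583) (l 16766752))) (l 16786344)) (a (b (l 16771472) (a (c (l 318532220919) (l 290078039991)) (l 16771088))) (l 16770352))) (a (b (c (a (l 406042188167) (l 348596991991)) (a (b (l 402284076231) (l 3)) (c (l 348060120919) (l 349133833783)))) (l 3)) (b (c (l 287930575687) (c (l 248202122231) (l 246591489159))) (c (a (l 366313723095)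 (l 327659025079)) (a (b (l 371145551591) (l 3)) (b (l 16764400) (l 354502551431))))))) (b (l 16745152) (a (b (l 16746392) (c (l 16766400) (l 16768648))) (l 16745160))))) (b (a (l 16768776) (l 16762552)) (a (b (l 16773600) (l 16753272)) (l 16753584))))), by decide +kernel⟩

def k4_pp_123 : ∃ t, chk3 f_pp_123 t 8 10 1 = true :=
  ⟨(a (l 3) (a (l 3) (b (a (b (a (b (b (a (l 3) (c (l 394767879735) (c (l 396915375623) (l 394231000295)))) (l 3)) (l 3)) (b (c (c (a (b (l 335712106375) (l 393694166391)) (l 302962976519)) (a (b (l 329269633335) (l 380272373303)) (b (l 16781920) (l 316921600903)))) (c (a (b (a (l 352891955479) (l 16773136)) (l 379735502295)) (b (l 16772064) (l 315310980999))) (a (b (a (l 347523225687) (l 16762848)) (l 377587975831)) (b (l 16761848) (l 288467415063))))) (b (a (l 3) (c (c (l 348060136679) (l 360408146311)) (c (l 360408145159) (l 360944982695)))) (l 3)))) (l 3)) (b (a (b (a (c (l 16785440) (l 16765344)) (l 16752920)) (a (c (b (b (l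 16765440) (l 298131111463)) (c (l 309405423671) (l 339470177559))) (b (a (l 301352323863) (l 16764280)) (c (l 340543917127) (l 343228237223)))) (b (l 16742720) (c (l 16764696) (l 16762624))))) (b (l 16750160) (c (l 16782456) (l 16760448)))) (a (b (c (c (a (l 381346138359) (b (l 327122163271) (l 349133868055))) (a (b (l 391009809319) (l 3)) (b (l 321216580775) (l 372756194695)))) (c (a (l 391009786263) (b (l 324974650711) (l 369534943463))) (a (l 386714782487) (b (l 324437749975) (l 367924293671))))) (l 3)) (b (a (b (c (l 16763728) (l 16760496)) (c (c (l 16778640) (l 16779320)) (c (l 16763872) (l 308331619271)))) (c (l 16762296) (l 16758544))) (c (a (b (c (a (l 353965716039) (l 329806519399)) (l 343765159463)) (c (l 377051168615) (l 403894707447))) (a (b (l 16764104) (c (l 365239999031) (l 351281352807))) (c (l 16778200) (l 16777832)))) (c (a (b (l 343765134967) (l 397452227911)) (b (l 16764520) (l 321753417767))) (a (b (l 346449451127) (l 392620360263))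 (b (l 16750648) (l 326048350471))))))))) (a (l 3) (b (a (l 3) (a (l 3) (a (l 3) (b (b (c (c (l 345375780839) (l 372219318103)) (c (l 368998062471) (l 366850547847))) (l 3)) (l 3))))) (l 3)))))), by decide +kernel⟩

def k5_pp_123 : ∃ t, chk3 f_pp_123 t 8 11 1 = true :=
  ⟨(l 3), by decide +kernel⟩

def k6_pp_123 : ∃ t, chk3 f_pp_123 t 9 4 1 = true :=
  ⟨(a (b (l 16773960) (a (b (l 16740096) (a (b (l 16755128) (l 16762224)) (l 16749888))) (b (l 16725480) (l 16736504)))) (b (l 16640984) (a (l 16713840) (l 16635872)))), by decide +kernel⟩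

def k7_pp_123 : ∃ t, chk3 f_pp_123 t 36 20 1 = true :=
  ⟨(a (b (a (b (l 16768496) (l 16768736)) (l 16766152)) (a (c (b (l 16781120) (c (l 16768496) (l 16776008))) (a (c (l 16763056) (l 16748344)) (l 16755256))) (b (l 16767240) (l 16725136)))) (b (l 16759880) (a (l 16744816) (l 16763016)))), by decide +kernel⟩

def k8_pp_123 : ∃ t, chk3 f_pp_123 t 72 21 1 = true :=
  ⟨(b (a (b (c (c (a (b (l 304036711239) (a (l 365776876999) (l 323900942983))) (b (l 16790680) (l 16791896))) (a (b (l 300815481015) (a (l 394767896247) (l 328195897943))) (l 16776168))) (c (a (b (l 306184157687) (a (l 388862284391) (l 343765124839))) (l 16755424)) (a (b (l 312626573127) (a (l 384567284455) (l 332490803031))) (l 16739544)))) (c (a (b (c (l 388325448343) (l 416779605447)) (l 3)) (c (b (a (l 370608703319) (l 298668004935)) (c (l 406042205879) (l 403894726103))) (b (a (l 367387476503) (l 16776408)) (a (l 3) (l 389936054599))))) (c (a (l 410337121911) (b (a (l 364166217383) (l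 16756936)) (l 392083504487))) (a (l 402820883399) (b (a (l 361481828391) (l 308331602439)) (l 386177877687)))))) (c (c (b (l 16789776) (a (b (l 16791992) (c (l 305110474183) (l 301352376567))) (l 16791640))) (b (l 16774560) (a (b (l 16775488) (a (l 314774123703) (l 16775480))) (l 16774576)))) (b (l 16751064) (a (b (l 16750016) (a (c (l 318532181687) (l 322290242823)) (l 16748568))) (l 16748288))))) (a (l 3) (b (c (a (b (c (a (b (l 412484647223) (l 3)) (c (l 368461240343) (l 365776888535))) (a (l 411410890999) (b (l 306184188471) (l 384567343095)))) (l 3)) (c (c (b (l 16798016) (a (b (l 324437848151) (l 424295839735)) (l 297594286087))) (b (l 16788856) (a (l 388862339127) (l 294909927671)))) (b (l 16774928) (a (b (l 328732766951) (l 412484630407)) (b (l 16774824) (l 306184188535)))))) (c (a (b (b (l 339470147143) (l 392620370279)) (l 3)) (b (l 16753400) (a (b (l 330880211319) (l 403894655479)) (l 305110403111)))) (a (b (a (l 396378429591) (b (l 315310917991)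 (l 373829847783))) (l 3)) (b (l 16736760) (a (b (l 333564525863) (l 396378421655)) (b (l 16735080) (l 314774041751))))))) (b (b (a (l 3) (a (l 3) (c (c (c (a (l 437180742279) (l 381883038135)) (l 397989144999)) (a (l 423758918727) (l 375440535335))) (c (l 385641039239) (l 379198548695))))) (l 3)) (l 3))))), by decide +kernel⟩

def k9_pp_123 : ∃ t, chk3 f_pp_123 t 73 21 1 = true :=
  ⟨(b (a (b (l 16723128) (c (l 16760960) (l 16746776))) (a (l 16742616) (l 16762888))) (a (b (c (a (b (l 16762352) (c (l 16772864) (l 16774136))) (l 16761896)) (a (c (l 16754504) (l 16734656)) (l 16743584))) (c (a (c (b (c (a (b (l 16800032) (a (l 404431616791) (l 292762467463))) (l 16800024)) (a (b (l 16789904) (l 324974700663)) (l 16789720))) (c (c (a (b (l 435033266215) (l 3)) (b (l 297057440695) (a (l 446307556247) (b (l 299741796135) (l 415705913655))))) (a (l 438791353415) (b (l 298131171191) (a (l 441475707095) (l 389399227463))))) (a (b (l 427517046791) (l 3)) (b (l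 300278639559) (a (l 437717594215) (b (l 302962994455) (l 408726564135))))))) (c (b (a (b (l 16779672) (l 326048421479)) (l 16779312)) (a (l 426980155287) (b (l 303499842583) (b (l 336785837015) (l 416779603607))))) (b (a (b (l 16769352) (l 327659013031)) (l 16768824)) (a (l 421611418919) (b (l 305647305079) (b (l 338396430151) (l 411947745527))))))) (c (b (l 16794328) (a (c (c (l 271824508327) (l 16798480)) (b (l 16790048) (l 16791856))) (l 16779656))) (b (l 16773400) (b (l 16773520) (c (l 281488131399) (l 284172468663)))))) (a (b (c (a (b (l 16753696) (a (l 386177910743) (l 305647273895))) (l 16752920)) (a (b (l 16732536) (a (l 379198545511) (l 310479070967))) (l 16731448))) (a (b (c (l 409263356951) (l 400136509559)) (l 3)) (b (c (a (l 319069040903) (l 16752096)) (a (l 322827100407) (l 16729792))) (c (a (l 417316421223) (c (l 375977371015) (l 372219251911))) (a (l 406578957303) (b (l 316384648167) (l 384030377239))))))) (b (l 16741424) (a (b (l 16745816)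 (c (b (l 16751352) (l 290078016039)) (l 16732272))) (b (l 16740056) (l 16749784))))))) (c (b (l 16781856) (a (c (l 16773296) (l 16772640)) (l 16761840))) (b (l 16742208) (b (l 16740000) (l 16748976)))))), by decide +kernel⟩

def k10_pp_123 : ∃ t, chk3 f_pp_123 t 37 10 1 = true :=
  ⟨(b (a (l 16732104) (l 16743240)) (a (a (b (l 16761864) (c (l 16770808) (l 16739040))) (b (l 16758744) (l 16727472))) (b (l 16751584) (b (l 16755120) (l 16756224))))), by decide +kernel⟩

def k11_pp_123 : ∃ t, chk3 f_pp_123 t 18 11 1 = true :=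
  ⟨(a (b (a (l 3) (b (a (c (a (l 3) (b (b (a (b (c (a (b (c (c (l 322290375527) (l 323900975751)) (l 324437831447)) (c (l 372756235159) (l 371682471015))) (c (l 16803112) (l 16790608))) (a (c (a (l 363092514055) (l 169282115063)) (l 345375751015)) (l 16775464))) (c (c (l 368998138855) (l 367924374695)) (l 368998087895))) (c (c (l 123648132663) (l 16790224)) (l 132774883719))) (a (l 3) (c (c (l 355576364727) (l 355576342327)) (l 357723792039)))) (l 3))) (a (l 3) (b (a (b (b (b (c (a (l 330343334215) (l 16750808)) (l 317995259527)) (c (l 338933267927) (l 339470096087))) (c (l 367387424167) (l 367387377799))) (l 3)) (b (c (l 139217288807) (l 16727088)) (c (l 357186875271) (l 357723699735)))) (l 3)))) (c (c (c (a (b (l 118816270599) (l 351818266871)) (l 116668777399)) (a (b (l 16790768) (l 352891986311)) (l 120426853607))) (b (c (l 127943053095) (l 130090507671)) (a (a (l 375977402727) (l 162839652999)) (l 16770816)))) (c (a (b (l 136532929959) (l 355039390215))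 (b (l 16748456) (l 16747824))) (a (b (l 141364711639) (l 355576193719)) (b (l 16725136) (l 16724560)))))) (b (a (l 3) (c (a (l 3) (l 362555606743)) (l 369534882743))) (l 3)))) (l 3)) (a (b (b (a (c (b (l 16761120) (l 16760072)) (b (l 16735608) (l 16734824))) (c (l 16780464) (l 16733744))) (c (a (a (b (l 127406124167) (l 378124842743)) (l 119353049575)) (l 16757232)) (a (b (l 129016721079) (l 249275807847)) (l 16711784)))) (a (l 3) (b (c (l 264845062935) (b (l 239075228743) (l 231022174919))) (l 3)))) (b (b (c (l 16779280) (l 16731888)) (b (l 16712480) (l 16711960))) (b (a (b (l 16732824) (a (l 266455603415) (l 16732000))) (l 16710624)) (c (a (l 267529437079) (b (l 16771096) (l 269676908967))) (a (b (l 229411564983) (l 223505994951)) (b (l 16731312) (l 264308177159)))))))), by decide +kernel⟩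

def k12_pp_123 : ∃ t, chk3 f_pp_123 t 19 5 1 = true :=
  ⟨(b (a (b (l 16728512) (b (l 16736264) (l 16741104))) (b (l 16710376) (l 16719304))) (a (a (b (b (l 16750992) (l 16752344)) (b (l 16730048) (c (l 16747152) (l 16729528)))) (b (b (l 16742240) (l 16746904)) (b (l 16727432) (l 16745936)))) (b (l 16728752) (a (b (l 16741192) (l 16742016)) (l 16710640))))), by decide +kernel⟩

def k13_pp_123 : ∃ t, chk3 f_pp_123 t 5 2 1 = true :=
  ⟨(b (a (a (a (b (l 16662232) (l 16684776)) (b (l 16628768) (l 16608336))) (l 16638096)) (b (l 16604128) (l 16548504))) (a (b (a (a (b (l 16694584) (l 16701024)) (b (l 16678496) (l 16598296))) (l 16555224)) (a (a (b (l 16708368) (l 16713744)) (b (l 16559472) (a (l 16695128) (l 16681088)))) (b (l 16660424) (l 16656152)))) (b (b (l 16637048) (l 16499016)) (b (l 16473808) (a (l 16622672) (l 16598144)))))), by decide +kernel⟩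

def k14_pp_123 : ∃ t, chk3 f_pp_123 t 3 2 1 = true :=
  ⟨(a (b (a (l 16572568) (b (l 16523248) (l 16552160))) (a (b (l 16598624) (b (l 16592392) (l 16574112))) (b (l 16463816) (b (l 16563704) (l 16557200))))) (b (a (l 16508928) (l 16374272)) (b (a (l 16535064) (l 16507032)) (a (b (l 16545344) (l 16518632)) (l 301753930455))))), by decide +kernel⟩

def k15_pp_123 : ∃ t, chk3 f_pp_123 t 4 6 1 = true :=
  ⟨(a (l 3) (a (b (a (l 3) (b (a (l 3) (b (a (l 3) (b (a (l 3) (l 270750588263)) (l 3))) (l 3))) (l 3))) (l 3)) (b (a (b (a (b (b (c (l 302962895447) (l 298131001159)) (a (a (l 263771272279) (l 294909785127)) (l 16743872))) (a (b (a (l 3) (l 257865697751)) (l 3)) (b (a (l 290614821895) (l 16741064)) (a (l 251960122055) (l 287393599319))))) (b (l 16721280) (a (b (l 16739584) (l 16736712)) (l 16735976)))) (a (b (a (l 3) (b (a (l 3) (l 249275794103)) (l 3))) (l 3)) (c (b (a (b (l 303499749735) (l 265918795367)) (b (l 16740616) (l 16734264))) (a (b (l 247665170039)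 (l 3)) (b (l 307794691223) (a (l 3) (l 287930453847))))) (b (a (b (l 299204746503) (l 265918742119)) (b (l 16719728) (l 16708112))) (a (b (l 233706465239) (l 3)) (b (l 304036580695) (l 268066173687))))))) (b (a (b (l 16738384) (l 16732584)) (b (l 16732848) (l 16728520))) (a (b (a (l 16726256) (l 16723456)) (a (b (l 16707760) (a (l 249275742983) (l 16693736))) (l 16698544))) (b (l 16719312) (l 16695256))))) (a (b (l 3) (l 3)) (b (a (b (a (b (l 305647173271) (l 16690728)) (l 16672488)) (a (l 3) (l 16649232))) (b (l 16669776) (l 16646360))) (a (l 3) (b (l 16630344) (l 16620280)))))))), by decide +kernel⟩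

def k16_pp_123 : ∃ t, chk3 f_pp_123 t 5 6 1 = true :=
  ⟨(a (a (a (b (b (a (l 16700312) (l 16708160)) (a (b (l 16713152) (l 16690952)) (b (l 16700600) (l 16683576)))) (b (a (b (l 16666280) (l 16645472)) (l 16655616)) (a (b (l 16631704) (l 16622200)) (l 16629144)))) (b (b (a (l 16693352) (l 16675640)) (a (l 16675512) (l 16654512))) (a (b (l 16647224) (b (l 16635368) (l 16630008))) (b (l 16631704) (a (l 16630440) (l 16623072)))))) (b (b (l 16642224) (l 16623496)) (b (l 16601960) (l 16604840)))) (b (b (a (l 16607112) (l 16581160)) (a (l 16585848) (l 16575400))) (b (l 16570616) (a (l 16568576) (l 16565280))))), by decide +kernel⟩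

def k17_pp_123 : ∃ t, chk3 f_pp_123 t 3 6 1 = true :=
  ⟨(a (b (a (b (l 16569744) (l 16564464)) (b (l 16543480) (l 16514800))) (a (b (l 16551632) (a (l 16540640) (l 16510528))) (b (l 16487984) (l 1)))) (b (a (l 343093953447) (l 1)) (l 1))), by decide +kernel⟩

def k18_pp_123 : ∃ t, chk3 f_pp_123 t 1 7 1 = true :=
  ⟨(a (a (a (l 3) (a (l 3) (b (b (l 3) (l 3)) (l 3)))) (a (a (a (b (b (a (l 16611184) (l 16614688)) (a (l 265381836679) (b (l 16605312) (l 16600736)))) (b (a (l 3) (l 1)) (l 1))) (b (a (b (l 16620536) (l 16620208)) (b (a (l 16622560) (a (l 16620328) (l 16617048))) (a (l 16613360) (a (l 16612256) (l 16610504))))) (l 1))) (b (b (l 16605504) (b (l 16599312) (l 16588560))) (l 1))) (b (b (a (l 16569960) (l 16550592)) (l 1)) (l 1)))) (l 1)), by decide +kernel⟩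

theorem s19_pp_123 : ∃ t, chk3 f_pp_123 t 2 6 1 = true := ex3_a k15_pp_123 k16_pp_123

theorem s20_pp_123 : ∃ t, chk3 f_pp_123 t 1 6 1 = true := ex3_a s19_pp_123 k17_pp_123

theorem s21_pp_123 : ∃ t, chk3 f_pp_123 t 1 3 1 = true := ex3_b s20_pp_123 k18_pp_123

theorem s22_pp_123 : ∃ t, chk3 f_pp_123 t 36 21 1 = true := ex3_a k8_pp_123 k9_pp_123

theorem s23_pp_123 : ∃ t, chk3 f_pp_123 t 36 10 1 = true := ex3_b k7_pp_123 s22_pp_123

theorem s24_pp_123 : ∃ t, chk3 f_pp_123 t 18 10 1 = true := ex3_a s23_pp_123 k10_pp_123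

theorem s25_pp_123 : ∃ t, chk3 f_pp_123 t 18 5 1 = true := ex3_b s24_pp_123 k11_pp_123

theorem s26_pp_123 : ∃ t, chk3 f_pp_123 t 9 5 1 = true := ex3_a s25_pp_123 k12_pp_123

theorem s27_pp_123 : ∃ t, chk3 f_pp_123 t 9 2 1 = true := ex3_b k6_pp_123 s26_pp_123

theorem s28_pp_123 : ∃ t, chk3 f_pp_123 t 8 5 1 = true := ex3_b k4_pp_123 k5_pp_123

theorem s29_pp_123 : ∃ t, chk3 f_pp_123 t 17 9 1 = true := ex3_a k2_pp_123 k3_pp_123

theorem s30_pp_123 : ∃ t, chk3 f_pp_123 t 17 4 1 = true := ex3_b k1_pp_123 s29_pp_123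

theorem s31_pp_123 : ∃ t, chk3 f_pp_123 t 8 4 1 = true := ex3_a k0_pp_123 s30_pp_123

theorem s32_pp_123 : ∃ t, chk3 f_pp_123 t 8 2 1 = true := ex3_b s31_pp_123 s28_pp_123

theorem s33_pp_123 : ∃ t, chk3 f_pp_123 t 4 2 1 = true := ex3_a s32_pp_123 s27_pp_123

theorem s34_pp_123 : ∃ t, chk3 f_pp_123 t 2 2 1 = true := ex3_a s33_pp_123 k13_pp_123

theorem s35_pp_123 : ∃ t, chk3 f_pp_123 t 1 2 1 = true := ex3_a s34_pp_123 k14_pp_123

theorem s36_pp_123 : ∃ t, chk3 f_pp_123 t 1 1 1 = true := ex3_b s35_pp_123 s21_pp_123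

theorem c_pp_123 : CertB 536870912 536870912 0 1230186008 818728140 40265320 3 eng mog cd0q1 cd3q3 pd2 false true true .npn 1 2 3
    ndB0q1 ndB3q3 pcB2 cut_pp_123 Ext.none :=
  certB2 (fam := false) (s1 := true) (s2 := true) (a := 1) (b := 2) (c := 3) (cn := .npn) (n1 := ndB0q1) (n2 := ndB3q3) (pc := pcB2) (cut := cut_pp_123) (xt := Ext.none) (P1 := 536870912) (W1 := 536870912) (P2 := 0) (W2 := 1230186008) (P3 := 818728140) (W3 := 40265320) (N0 := 3) (En := eng) (mo := mog) (C1 := cd0q1) (C2 := cd3q3) (C3 := pd2)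
    rfl (fun _ => rfl) s36_pp_123

noncomputable def f_pp_133 : ℕ → ℕ → ℕ → ℕ → Bool := onCell 536870912 536870912 0 1230186008 818728140 40265320
    (rowB 3 eng mog cd0q1 cd3q3 pd3 0 false true true .dn 1 3 3 (qsf 536870912 536870912 0 1230186008 3) ndB0q1 ndB3q3 pcB3 Cut.none Ext.none)

def k0_pp_133 : ∃ t, chk3 f_pp_133 t 1 1 1 = true :=
  ⟨(b (b (a (a (b (l 2872829936919) (l 1)) (l 1)) (l 1)) (l 1)) (l 1)), by decide +kernel⟩

theorem c_pp_133 : CertB 536870912 536870912 0 1230186008 818728140 40265320 3 eng mog cd0q1 cd3q3 pd3 false true true .dn 1 3 3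
    ndB0q1 ndB3q3 pcB3 Cut.none Ext.none :=
  certB0 (fam := false) (s1 := true) (s2 := true) (a := 1) (b := 3) (c := 3) (cn := .dn) (n1 := ndB0q1) (n2 := ndB3q3) (pc := pcB3) (cut := Cut.none) (xt := Ext.none) (P1 := 536870912) (W1 := 536870912) (P2 := 0) (W2 := 1230186008) (P3 := 818728140) (W3 := 40265320) (N0 := 3) (En := eng) (mo := mog) (C1 := cd0q1) (C2 := cd3q3) (C3 := pd3)
    rfl k0_pp_133

noncomputable def f_pp_202 : ℕ → ℕ → ℕ → ℕ → Bool := onCell 0 536870912 1073741824 536870912 818728140 40265320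
    (rowB 3 eng mog cd0q2 cd3q2 pd0 0 false true true .pp 2 0 2 (qsf 0 536870912 1073741824 536870912 0) ndB0q2 ndB3q2 pcB0 Cut.none Ext.none)

def k0_pp_202 : ∃ t, chk3 f_pp_202 t 1 1 1 = true :=
  ⟨(l 5), by decide +kernel⟩

theorem c_pp_202 : CertB 0 536870912 1073741824 536870912 818728140 40265320 3 eng mog cd0q2 cd3q2 pd0 false true true .pp 2 0 2
    ndB0q2 ndB3q2 pcB0 Cut.none Ext.none :=
  certB0 (fam := false) (s1 := true) (s2 := true) (a := 2) (b := 0) (c := 2) (cn := .pp) (n1 := ndB0q2) (n2 := ndB3q2) (pc := pcB0) (cut := Cut.none) (xt := Ext.none) (P1 := 0) (W1 := 536870912) (P2 := 1073741824) (W2 := 536870912) (P3 := 818728140) (W3 := 40265320) (N0 := 3) (En := eng) (mo := mog) (C1 := cd0q2) (C2 := cd3q2) (C3 := pd0)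
    rfl k0_pp_202

noncomputable def f_pp_203 : ℕ → ℕ → ℕ → ℕ → Bool := onCell 0 536870912 0 1230186008 818728140 40265320
    (rowB 3 eng mog cd0q2 cd3q3 pd0 0 false true true .up 2 0 3 (qsf 0 536870912 0 1230186008 0) ndB0q2 ndB3q3 pcB0 Cut.none Ext.none)

def k0_pp_203 : ∃ t, chk3 f_pp_203 t 1 1 1 = true :=
  ⟨(b (l 2) (b (l 2) (l 3))), by decide +kernel⟩

theorem c_pp_203 : CertB 0 536870912 0 1230186008 818728140 40265320 3 eng mog cd0q2 cd3q3 pd0 false true true .up 2 0 3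
    ndB0q2 ndB3q3 pcB0 Cut.none Ext.none :=
  certB0 (fam := false) (s1 := true) (s2 := true) (a := 2) (b := 0) (c := 3) (cn := .up) (n1 := ndB0q2) (n2 := ndB3q3) (pc := pcB0) (cut := Cut.none) (xt := Ext.none) (P1 := 0) (W1 := 536870912) (P2 := 0) (W2 := 1230186008) (P3 := 818728140) (W3 := 40265320) (N0 := 3) (En := eng) (mo := mog) (C1 := cd0q2) (C2 := cd3q3) (C3 := pd0)
    rfl k0_pp_203

noncomputable def cut_pp_213 : Cut := Cut.of [[⟨0, 1, 0, 67108864⟩, ⟨1, 1, 0, 67108864⟩, ⟨2, 2, 0, 16777216⟩]]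

noncomputable def f_pp_213 : ℕ → ℕ → ℕ → ℕ → Bool := onCell 0 536870912 0 1230186008 818728140 40265320
    (rowB 3 eng mog cd0q2 cd3q3 pd1 0 false true true .pnn 2 1 3 (qsf 0 536870912 0 1230186008 1) ndB0q2 ndB3q3 pcB1 cut_pp_213 Ext.none)

def k0_pp_213 : ∃ t, chk3 f_pp_213 t 1 1 1 = true :=
  ⟨(b (a (l 3) (b (a (l 3) (a (l 3) (b (l 6) (l 3)))) (l 3))) (b (l 3) (l 3))), by decide +kernel⟩

theorem c_pp_213 : CertB 0 536870912 0 1230186008 818728140 40265320 3 eng mog cd0q2 cd3q3 pd1 false true true .pnn 2 1 3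
    ndB0q2 ndB3q3 pcB1 cut_pp_213 Ext.none :=
  certB0 (fam := false) (s1 := true) (s2 := true) (a := 2) (b := 1) (c := 3) (cn := .pnn) (n1 := ndB0q2) (n2 := ndB3q3) (pc := pcB1) (cut := cut_pp_213) (xt := Ext.none) (P1 := 0) (W1 := 536870912) (P2 := 0) (W2 := 1230186008) (P3 := 818728140) (W3 := 40265320) (N0 := 3) (En := eng) (mo := mog) (C1 := cd0q2) (C2 := cd3q3) (C3 := pd1)
    rfl k0_pp_213

noncomputable def f_pm_001 : ℕ → ℕ → ℕ → ℕ → Bool := onCell 0 536870912 536870912 536870912 818728140 40265320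
    (rowB 3 eng mog cd0q0 cd3q1 pd0 0 false true false .up 0 0 1 (qsf 0 536870912 536870912 536870912 0) ndB0q0 ndB3q1 pcB0 Cut.none Ext.none)

def k0_pm_001 : ∃ t, chk3 f_pm_001 t 1 1 1 = true :=
  ⟨(l 4), by decide +kernel⟩

theorem c_pm_001 : CertB 0 536870912 536870912 536870912 818728140 40265320 3 eng mog cd0q0 cd3q1 pd0 false true false .up 0 0 1
    ndB0q0 ndB3q1 pcB0 Cut.none Ext.none :=
  certB0 (fam := false) (s1 := true) (s2 := false) (a := 0) (b := 0) (c := 1) (cn := .up) (n1 := ndB0q0) (n2 := ndB3q1) (pc := pcB0) (cut := Cut.none) (xt := Ext.none) (P1 := 0) (W1 := 536870912) (P2 := 536870912) (W2 := 536870912) (P3 := 818728140) (W3 := 40265320) (N0 := 3) (En := eng) (mo := mog) (C1 := cd0q0) (C2 := cd3q1) (C3 := pd0)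
    rfl k0_pm_001

noncomputable def f_pm_011 : ℕ → ℕ → ℕ → ℕ → Bool := onCell 0 536870912 536870912 536870912 818728140 40265320
    (rowB 3 eng mog cd0q0 cd3q1 pd1 0 false true false .pnn 0 1 1 (qsf 0 536870912 536870912 536870912 1) ndB0q0 ndB3q1 pcB1 Cut.none Ext.none)

def k0_pm_011 : ∃ t, chk3 f_pm_011 t 1 1 1 = true :=
  ⟨(l 4), by decide +kernel⟩

theorem c_pm_011 : CertB 0 536870912 536870912 536870912 818728140 40265320 3 eng mog cd0q0 cd3q1 pd1 false true false .pnn 0 1 1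
    ndB0q0 ndB3q1 pcB1 Cut.none Ext.none :=
  certB0 (fam := false) (s1 := true) (s2 := false) (a := 0) (b := 1) (c := 1) (cn := .pnn) (n1 := ndB0q0) (n2 := ndB3q1) (pc := pcB1) (cut := Cut.none) (xt := Ext.none) (P1 := 0) (W1 := 536870912) (P2 := 536870912) (W2 := 536870912) (P3 := 818728140) (W3 := 40265320) (N0 := 3) (En := eng) (mo := mog) (C1 := cd0q0) (C2 := cd3q1) (C3 := pd1)
    rfl k0_pm_011

noncomputable def f_pm_012 : ℕ → ℕ → ℕ → ℕ → Bool := onCell 0 536870912 1073741824 536870912 818728140 40265320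
    (rowB 3 eng mog cd0q0 cd3q2 pd1 0 false true false .pnp 0 1 2 (qsf 0 536870912 1073741824 536870912 1) ndB0q0 ndB3q2 pcB1 Cut.none Ext.none)

def k0_pm_012 : ∃ t, chk3 f_pm_012 t 1 1 1 = true :=
  ⟨(l 4), by decide +kernel⟩

theorem c_pm_012 : CertB 0 536870912 1073741824 536870912 818728140 40265320 3 eng mog cd0q0 cd3q2 pd1 false true false .pnp 0 1 2
    ndB0q0 ndB3q2 pcB1 Cut.none Ext.none :=
  certB0 (fam := false) (s1 := true) (s2 := false) (a := 0) (b := 1) (c := 2) (cn := .pnp) (n1 := ndB0q0) (n2 := ndB3q2) (pc := pcB1) (cut := Cut.none) (xt := Ext.none) (P1 := 0) (W1 := 536870912) (P2 := 1073741824) (W2 := 536870912) (P3 := 818728140) (W3 := 40265320) (N0 := 3) (En := eng) (mo := mog) (C1 := cd0q0) (C2 := cd3q2) (C3 := pd1)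
    rfl k0_pm_012

noncomputable def f_pm_022 : ℕ → ℕ → ℕ → ℕ → Bool := onCell 0 536870912 1073741824 536870912 818728140 40265320
    (rowB 3 eng mog cd0q0 cd3q2 pd2 0 false true false .pp 0 2 2 (qsf 0 536870912 1073741824 536870912 2) ndB0q0 ndB3q2 pcB2 Cut.none Ext.none)

def k0_pm_022 : ∃ t, chk3 f_pm_022 t 1 1 1 = true :=
  ⟨(l 4), by decide +kernel⟩

theorem c_pm_022 : CertB 0 536870912 1073741824 536870912 818728140 40265320 3 eng mog cd0q0 cd3q2 pd2 false true false .pp 0 2 2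
    ndB0q0 ndB3q2 pcB2 Cut.none Ext.none :=
  certB0 (fam := false) (s1 := true) (s2 := false) (a := 0) (b := 2) (c := 2) (cn := .pp) (n1 := ndB0q0) (n2 := ndB3q2) (pc := pcB2) (cut := Cut.none) (xt := Ext.none) (P1 := 0) (W1 := 536870912) (P2 := 1073741824) (W2 := 536870912) (P3 := 818728140) (W3 := 40265320) (N0 := 3) (En := eng) (mo := mog) (C1 := cd0q0) (C2 := cd3q2) (C3 := pd2)
    rfl k0_pm_022

noncomputable def f_pm_023 : ℕ → ℕ → ℕ → ℕ → Bool := onCell 0 536870912 0 1230186008 818728140 40265320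
    (rowB 3 eng mog cd0q0 cd3q3 pd2 0 false true false .up 0 2 3 (qsf 0 536870912 0 1230186008 2) ndB0q0 ndB3q3 pcB2 Cut.none Ext.none)

def k0_pm_023 : ∃ t, chk3 f_pm_023 t 1 1 1 = true :=
  ⟨(a (b (l 2) (l 4)) (b (a (l 2) (b (a (l 2) (b (l 16390560) (l 16342176))) (a (b (l 38887989847) (l 4)) (b (l 16277056) (a (l 4) (l 16189648)))))) (b (l 4) (l 4)))), by decide +kernel⟩

theorem c_pm_023 : CertB 0 536870912 0 1230186008 818728140 40265320 3 eng mog cd0q0 cd3q3 pd2 false true false .up 0 2 3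
    ndB0q0 ndB3q3 pcB2 Cut.none Ext.none :=
  certB0 (fam := false) (s1 := true) (s2 := false) (a := 0) (b := 2) (c := 3) (cn := .up) (n1 := ndB0q0) (n2 := ndB3q3) (pc := pcB2) (cut := Cut.none) (xt := Ext.none) (P1 := 0) (W1 := 536870912) (P2 := 0) (W2 := 1230186008) (P3 := 818728140) (W3 := 40265320) (N0 := 3) (En := eng) (mo := mog) (C1 := cd0q0) (C2 := cd3q3) (C3 := pd2)
    rfl k0_pm_023

noncomputable def f_pm_033 : ℕ → ℕ → ℕ → ℕ → Bool := onCell 1610612736 536870912 0 1230186008 818728140 40265320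
    (rowB 3 eng mog cd0q0 cd3q3 pd3 2 false true false .pnn 0 3 3 (qsf 0 536870912 0 1230186008 3) ndB0q0 ndB3q3 pcB3 Cut.none Ext.none)

def k0_pm_033 : ∃ t, chk3 f_pm_033 t 1 1 1 = true :=
  ⟨(b (a (a (b (a (l 16404960) (a (l 16335128) (l 16320232))) (a (b (l 16162080) (l 4)) (l 4))) (b (a (l 16317104) (l 4)) (l 4))) (l 4)) (l 4)), by decide +kernel⟩

theorem c_pm_033 : CertB 0 536870912 0 1230186008 818728140 40265320 3 eng mog cd0q0 cd3q3 pd3 false true false .pnn 0 3 3
    ndB0q0 ndB3q3 pcB3 Cut.none Ext.none :=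
  certB2 (fam := false) (s1 := true) (s2 := false) (a := 0) (b := 3) (c := 3) (cn := .pnn) (n1 := ndB0q0) (n2 := ndB3q3) (pc := pcB3) (cut := Cut.none) (xt := Ext.none) (P1 := 0) (W1 := 536870912) (P2 := 0) (W2 := 1230186008) (P3 := 818728140) (W3 := 40265320) (N0 := 3) (En := eng) (mo := mog) (C1 := cd0q0) (C2 := cd3q3) (C3 := pd3)
    rfl (fun _ => rfl) k0_pm_033

noncomputable def f_pm_101 : ℕ → ℕ → ℕ → ℕ → Bool := onCell 536870912 536870912 536870912 536870912 818728140 40265320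
    (rowB 3 eng mog cd0q1 cd3q1 pd0 0 false true false .npn 1 0 1 (qsf 536870912 536870912 536870912 536870912 0) ndB0q1 ndB3q1 pcB0 Cut.none Ext.none)

def k0_pm_101 : ∃ t, chk3 f_pm_101 t 1 1 1 = true :=
  ⟨(l 4), by decide +kernel⟩

theorem c_pm_101 : CertB 536870912 536870912 536870912 536870912 818728140 40265320 3 eng mog cd0q1 cd3q1 pd0 false true false .npn 1 0 1
    ndB0q1 ndB3q1 pcB0 Cut.none Ext.none :=
  certB0 (fam := false) (s1 := true) (s2 := false) (a := 1) (b := 0) (c := 1) (cn := .npn) (n1 := ndB0q1) (n2 := ndB3q1) (pc := pcB0) (cut := Cut.none) (xt := Ext.none) (P1 := 536870912) (W1 := 536870912) (P2 := 536870912) (W2 := 536870912) (P3 := 818728140) (W3 := 40265320) (N0 := 3) (En := eng) (mo := mog) (C1 := cd0q1) (C2 := cd3q1) (C3 := pd0)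
    rfl k0_pm_101

noncomputable def f_pm_102 : ℕ → ℕ → ℕ → ℕ → Bool := onCell 536870912 536870912 0 536870912 818728140 40265320
    (rowB 3 eng mog cd0q1 cd3q2 pd0 1 false true false .npp 1 0 2 (qsf 536870912 536870912 1073741824 536870912 0) ndB0q1 ndB3q2 pcB0 Cut.none Ext.none)

def k0_pm_102 : ∃ t, chk3 f_pm_102 t 1 1 1 = true :=
  ⟨(a (l 4) (b (a (b (l 4) (a (l 4) (b (l 4) (a (l 4) (b (l 15258040) (l 15350736)))))) (b (a (b (a (l 1) (b (l 1) (a (l 1) (l 323226565543)))) (a (a (l 4) (b (l 14938120) (l 15035664))) (b (a (l 14968464) (l 15053496)) (a (l 15109288) (l 15193248))))) (b (a (b (a (l 1) (b (l 1) (l 15088872))) (a (l 187935380295) (b (l 15094480) (l 15145144)))) (b (a (b (a (l 1) (l 15087704)) (l 15254592)) (b (a (l 15140112) (l 15233736)) (a (l 15203728) (l 15255808)))) (a (b (l 15187176) (l 15256104)) (b (l 15376312) (c (l 15403560) (l 15292456)))))) (a (b (a (l 15149496) (l 15334688)) (a (l 15281544) (l 15368272))) (b (b (a (l 15316720)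 (l 15400128)) (a (l 15372072) (l 15448608))) (b (l 15460760) (l 15505520)))))) (b (a (a (b (a (l 15105456) (l 15164176)) (l 15252056)) (b (l 15276712) (l 15386152))) (a (b (l 15432024) (l 15523000)) (b (l 15567016) (l 15639576)))) (a (a (b (l 15355576) (l 15446512)) (l 15521904)) (a (l 15636424) (b (l 15707528) (l 15762024))))))) (b (a (a (l 4) (b (a (l 4) (l 15469832)) (a (l 15534688) (l 15596672)))) (b (a (a (l 15562272) (l 15662880)) (b (a (l 15730352) (l 15807760)) (l 16026608))) (a (l 15827952) (a (l 15830664) (l 15892976))))) (a (a (b (l 4) (l 4)) (b (l 15661192) (l 15790552))) (a (b (a (l 15758960) (l 15826064)) (a (l 15836224) (l 15896880))) (b (a (l 15891520) (b (l 15934624) (l 15963544))) (a (l 15960000) (l 16010792)))))))), by decide +kernel⟩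

theorem c_pm_102 : CertB 536870912 536870912 1073741824 536870912 818728140 40265320 3 eng mog cd0q1 cd3q2 pd0 false true false .npp 1 0 2
    ndB0q1 ndB3q2 pcB0 Cut.none Ext.none :=
  certB1 (fam := false) (s1 := true) (s2 := false) (a := 1) (b := 0) (c := 2) (cn := .npp) (n1 := ndB0q1) (n2 := ndB3q2) (pc := pcB0) (cut := Cut.none) (xt := Ext.none) (P1 := 536870912) (W1 := 536870912) (P2 := 1073741824) (W2 := 536870912) (P3 := 818728140) (W3 := 40265320) (N0 := 3) (En := eng) (mo := mog) (C1 := cd0q1) (C2 := cd3q2) (C3 := pd0)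
    rfl (fun _ => rfl) k0_pm_102

noncomputable def f_pm_112 : ℕ → ℕ → ℕ → ℕ → Bool := onCell 536870912 536870912 1073741824 536870912 818728140 40265320
    (rowB 3 eng mog cd0q1 cd3q2 pd1 0 false true false .dn 1 1 2 (qsf 536870912 536870912 1073741824 536870912 1) ndB0q1 ndB3q2 pcB1 Cut.none Ext.none)

def k0_pm_112 : ∃ t, chk3 f_pm_112 t 1 1 1 = true :=
  ⟨(a (b (l 4) (a (l 4) (b (l 4) (a (l 4) (l 4))))) (b (a (a (l 4) (l 1)) (l 1)) (a (b (a (b (l 4) (l 15709424)) (b (l 15691608) (l 15923640))) (a (b (l 15692952) (l 15681416)) (b (a (l 15757368) (l 15817624)) (a (l 15773600) (l 15838480))))) (b (a (b (l 1) (l 15815816)) (l 1)) (a (b (a (l 15861272) (l 15895280)) (l 15950192)) (b (l 15921888) (l 16009440))))))), by decide +kernel⟩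

theorem c_pm_112 : CertB 536870912 536870912 1073741824 536870912 818728140 40265320 3 eng mog cd0q1 cd3q2 pd1 false true false .dn 1 1 2
    ndB0q1 ndB3q2 pcB1 Cut.none Ext.none :=
  certB0 (fam := false) (s1 := true) (s2 := false) (a := 1) (b := 1) (c := 2) (cn := .dn) (n1 := ndB0q1) (n2 := ndB3q2) (pc := pcB1) (cut := Cut.none) (xt := Ext.none) (P1 := 536870912) (W1 := 536870912) (P2 := 1073741824) (W2 := 536870912) (P3 := 818728140) (W3 := 40265320) (N0 := 3) (En := eng) (mo := mog) (C1 := cd0q1) (C2 := cd3q2) (C3 := pd1)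
    rfl k0_pm_112

noncomputable def cut_pm_113 : Cut := Cut.of [[⟨0, 1, 0, 67108864⟩, ⟨1, 1, 0, 67108864⟩, ⟨2, 2, 0, 16777216⟩]]

noncomputable def f_pm_113 : ℕ → ℕ → ℕ → ℕ → Bool := onCell 536870912 536870912 0 1230186008 818728140 40265320
    (rowB 3 eng mog cd0q1 cd3q3 pd1 0 false true false .nn 1 1 3 (qsf 536870912 536870912 0 1230186008 1) ndB0q1 ndB3q3 pcB1 cut_pm_113 Ext.none)

def k0_pm_113 : ∃ t, chk3 f_pm_113 t 1 1 1 = true :=
  ⟨(b (a (l 2) (a (l 2) (b (a (l 2) (a (l 2) (b (l 6) (b (l 6) (l 16768528))))) (a (b (a (l 2) (b (l 2) (l 16629944))) (a (l 16490552) (b (l 16641424) (l 16622232)))) (b (a (b (l 16713368) (l 16726904)) (b (l 16783136) (l 16800184))) (a (b (l 16741376) (l 16747056)) (b (l 16820232) (l 16842392)))))))) (b (a (a (l 2) (b (l 2) (a (l 2) (a (l 2) (l 298598750183))))) (b (a (a (l 2) (a (l 16157312) (l 16303984))) (a (a (l 16450392) (l 16596728)) (a (b (l 16744632) (l 16732248)) (b (l 16864592) (l 16878432))))) (a (a (l 128410955063)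 (a (l 16123272) (l 16269576))) (a (l 16410248) (a (l 16711584) (l 16868840)))))) (a (a (l 4) (a (b (b (a (l 2) (l 308798406551)) (a (l 4) (l 15082216))) (l 4)) (b (b (l 15309864) (a (l 15235392) (l 15404840))) (b (a (l 15313472) (b (l 15422632) (l 15452440))) (b (l 15439976) (l 15502456)))))) (a (b (a (b (l 15732600) (l 15674872)) (a (l 15992408) (l 16182632))) (a (b (a (b (l 15573048) (l 15579848)) (l 15723640)) (b (l 15655096) (l 15689464))) (b (l 15935872) (a (l 15847704) (l 15942632))))) (b (a (l 16420680) (l 16553416)) (a (b (l 16168680) (l 16054200)) (l 16193720))))))), by decide +kernel⟩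

theorem c_pm_113 : CertB 536870912 536870912 0 1230186008 818728140 40265320 3 eng mog cd0q1 cd3q3 pd1 false true false .nn 1 1 3
    ndB0q1 ndB3q3 pcB1 cut_pm_113 Ext.none :=
  certB0 (fam := false) (s1 := true) (s2 := false) (a := 1) (b := 1) (c := 3) (cn := .nn) (n1 := ndB0q1) (n2 := ndB3q3) (pc := pcB1) (cut := cut_pm_113) (xt := Ext.none) (P1 := 536870912) (W1 := 536870912) (P2 := 0) (W2 := 1230186008) (P3 := 818728140) (W3 := 40265320) (N0 := 3) (En := eng) (mo := mog) (C1 := cd0q1) (C2 := cd3q3) (C3 := pd1)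
    rfl k0_pm_113

noncomputable def cut_pm_123 : Cut := Cut.of [[⟨0, 1, 0, 67108864⟩, ⟨1, 1, 0, 67108864⟩, ⟨2, 2, 0, 16777216⟩]]

noncomputable def f_pm_123 : ℕ → ℕ → ℕ → ℕ → Bool := onCell 1073741824 536870912 0 1230186008 818728140 40265320
    (rowB 3 eng mog cd0q1 cd3q3 pd2 2 false true false .npn 1 2 3 (qsf 536870912 536870912 0 1230186008 2) ndB0q1 ndB3q3 pcB2 cut_pm_123 Ext.none)

def k0_pm_123 : ∃ t, chk3 f_pm_123 t 1 2 1 = true :=
  ⟨(a (a (b (a (b (a (l 6) (b (l 16644472) (l 16676128))) (a (b (l 6) (l 16609992)) (b (l 16635168) (l 16582064)))) (b (a (l 16665368) (l 16636776)) (a (b (l 16607872) (l 16552312)) (l 16549384)))) (b (b (a (a (l 16547768) (l 16517552)) (a (l 16484824) (l 16456952))) (a (a (l 16452728) (l 16440736)) (a (l 16407576) (l 16383416)))) (b (a (a (l 16534104) (l 16349472)) (a (l 16300136) (l 16296728))) (a (a (l 16282504) (a (l 16254152) (l 16237504))) (a (a (l 16310280) (l 16219168)) (l 16209080)))))) (b (a (b (a (a (l 16616704)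 (l 16542488)) (l 16585312)) (a (l 16524728) (l 16503400))) (b (l 16554640) (l 16480416))) (b (a (a (l 16401680) (l 16381872)) (b (l 16396056) (l 16324520))) (a (b (a (l 16285016) (l 16274240)) (l 16183376)) (a (l 16201208) (l 16189928)))))) (a (b (a (l 16571512) (b (l 16477456) (l 16407008))) (b (a (a (l 16340680) (l 16323464)) (l 16306120)) (a (a (l 16184640) (l 16171200)) (a (l 16176200) (l 16183696))))) (b (a (l 16422488) (l 16403192)) (a (b (l 16304168) (a (l 16188680) (l 16184024))) (b (l 16280936) (l 16184816)))))), by decide +kernel⟩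

def k1_pm_123 : ∃ t, chk3 f_pm_123 t 1 3 1 = true :=
  ⟨(b (a (a (b (a (b (a (b (l 16233984) (l 16135576)) (c (l 16157976) (l 16118992))) (a (l 16055944) (l 16009712))) (b (a (l 16114000) (l 16097304)) (b (l 16013488) (l 15943736)))) (a (a (b (l 15882456) (l 15558776)) (b (l 15857560) (l 15518640))) (b (b (l 15839000) (l 15694128)) (a (l 15504472) (l 15516840))))) (b (a (b (l 16061408) (l 15935344)) (b (l 16040432) (l 15895712))) (a (b (l 15726744) (a (l 15539504) (l 15591208))) (b (l 15761368) (l 4))))) (a (b (a (b (l 16038680) (l 15937328)) (b (l 16075176) (l 4))) (l 4)) (l 4))) (a (a (b (a (b (a (l 15244968) (l 15277160)) (a (l 15083432) (l 4))) (b (a (l 15323568) (l 4)) (l 4))) (l 4)) (l 4)) (l 1))), by decide +kernel⟩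

theorem s2_pm_123 : ∃ t, chk3 f_pm_123 t 1 1 1 = true := ex3_b k0_pm_123 k1_pm_123

theorem c_pm_123 : CertB 536870912 536870912 0 1230186008 818728140 40265320 3 eng mog cd0q1 cd3q3 pd2 false true false .npn 1 2 3
    ndB0q1 ndB3q3 pcB2 cut_pm_123 Ext.none :=
  certB2 (fam := false) (s1 := true) (s2 := false) (a := 1) (b := 2) (c := 3) (cn := .npn) (n1 := ndB0q1) (n2 := ndB3q3) (pc := pcB2) (cut := cut_pm_123) (xt := Ext.none) (P1 := 536870912) (W1 := 536870912) (P2 := 0) (W2 := 1230186008) (P3 := 818728140) (W3 := 40265320) (N0 := 3) (En := eng) (mo := mog) (C1 := cd0q1) (C2 := cd3q3) (C3 := pd2)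
    rfl (fun _ => rfl) s2_pm_123

noncomputable def f_pm_133 : ℕ → ℕ → ℕ → ℕ → Bool := onCell 536870912 536870912 0 1230186008 818728140 40265320
    (rowB 3 eng mog cd0q1 cd3q3 pd3 0 false true false .dn 1 3 3 (qsf 536870912 536870912 0 1230186008 3) ndB0q1 ndB3q3 pcB3 Cut.none Ext.none)

def k0_pm_133 : ∃ t, chk3 f_pm_133 t 1 1 1 = true :=
  ⟨(b (b (a (a (a (l 16479872) (l 1)) (l 1)) (l 1)) (l 1)) (l 1)), by decide +kernel⟩

theorem c_pm_133 : CertB 536870912 536870912 0 1230186008 818728140 40265320 3 eng mog cd0q1 cd3q3 pd3 false true false .dn 1 3 3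
    ndB0q1 ndB3q3 pcB3 Cut.none Ext.none :=
  certB0 (fam := false) (s1 := true) (s2 := false) (a := 1) (b := 3) (c := 3) (cn := .dn) (n1 := ndB0q1) (n2 := ndB3q3) (pc := pcB3) (cut := Cut.none) (xt := Ext.none) (P1 := 536870912) (W1 := 536870912) (P2 := 0) (W2 := 1230186008) (P3 := 818728140) (W3 := 40265320) (N0 := 3) (En := eng) (mo := mog) (C1 := cd0q1) (C2 := cd3q3) (C3 := pd3)
    rfl k0_pm_133

noncomputable def f_pm_202 : ℕ → ℕ → ℕ → ℕ → Bool := onCell 0 536870912 0 536870912 818728140 40265320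
    (rowB 3 eng mog cd0q2 cd3q2 pd0 1 false true false .pp 2 0 2 (qsf 0 536870912 1073741824 536870912 0) ndB0q2 ndB3q2 pcB0 Cut.none Ext.none)

def k0_pm_202 : ∃ t, chk3 f_pm_202 t 2 1 1 = true :=
  ⟨(b (a (b (b (a (b (a (l 16363160) (l 16386656)) (a (b (l 16363832) (b (l 16385320) (l 16482848))) (l 16396576))) (b (a (l 16415816) (l 16464192)) (l 16450128))) (b (a (a (b (a (l 16373224) (l 16378056)) (a (l 16382792) (l 16386232))) (b (l 16399088) (a (l 16391872) (l 16407480)))) (l 16456360)) (b (a (a (l 16394304) (l 16404400)) (l 16456752)) (a (a (l 16405776) (l 16412640)) (a (l 16431528) (l 16476248)))))) (b (b (a (a (b (l 148343547431) (l 199883178711)) (l 16469632)) (a (l 16336080) (b (l 16474328) (l 16471888)))) (a (a (a (l 3) (l 150491139783)) (b (l 16448264) (l 16462808))) (a (l 16459296) (l 16474496)))) (a (a (l 3) (b (c (l 16509512) (l 16483408)) (l 156933695607))) (b (a (l 16485536) (l 16489872)) (a (l 16511408) (l 16511496)))))) (b (b (a (b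 (a (l 16459968) (l 16408536)) (l 16475720)) (b (l 16323176) (l 16365288))) (a (l 16474896) (b (l 16396280) (l 16405120)))) (b (b (l 16456848) (a (l 16501936) (l 16433544))) (a (b (a (l 16507320) (l 16499408)) (l 16519464)) (b (l 16451216) (l 16465648)))))) (b (a (b (a (a (l 3) (b (l 198272521111) (l 3))) (b (b (l 16528520) (l 172502910743)) (a (l 187535311975) (l 16555408)))) (a (l 3) (a (l 169281848263) (b (l 16569856) (l 16580688))))) (b (b (a (a (l 16532552) (l 16514200)) (l 16476000)) (a (l 16530272) (l 16480952))) (a (b (l 16538592) (l 16548472)) (b (l 16465648) (l 16495216))))) (a (l 2) (b (a (l 2) (b (l 16507104) (l 2))) (l 2))))), by decide +kernel⟩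

def k1_pm_202 : ∃ t, chk3 f_pm_202 t 6 2 1 = true :=
  ⟨(b (b (b (a (a (l 16221360) (l 16141312)) (a (b (l 16034736) (l 16062920)) (b (a (l 15957040) (b (l 15934080) (l 15906296))) (l 15958624)))) (a (l 16252112) (a (l 16101992) (l 15999856)))) (a (b (l 16271344) (l 16412176)) (b (a (l 16147832) (l 16049512)) (l 16140128)))) (b (b (a (a (l 16350304) (l 16295184)) (l 16172648)) (a (b (l 16330256) (l 16342248)) (b (l 16191880) (a (l 16248744) (l 16163840))))) (a (b (l 16363184) (l 16384056)) (b (b (l 16226864) (l 16242624)) (l 16263320))))), by decide +kernel⟩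

def k2_pm_202 : ∃ t, chk3 f_pm_202 t 7 2 1 = true :=
  ⟨(b (b (a (b (a (b (a (b (l 15824776) (l 15845648)) (l 15783960)) (a (b (l 15864024) (l 15877672)) (l 15802528))) (b (a (b (l 15677984) (l 15699264)) (b (l 15600176) (l 15622352))) (a (l 15730024) (l 15654568)))) (a (b (a (l 15899424) (l 15840480)) (l 15895640)) (b (l 15732576) (a (l 15807776) (l 15734168))))) (a (b (b (a (b (l 15518704) (l 15541832)) (b (l 15433080) (l 15457288))) (a (c (l 15619688) (l 15531312)) (l 15492928))) (b (a (l 15618984) (l 15538968)) (a (l 15660048) (l 15582816)))) (b (b (a (b (b (l 15420560) (l 15349472)) (l 15368544)) (b (a (b (b (l 15262816) (l 15269432)) (l 15279400)) (a (b (b (l 15226408) (l 15233264)) (l 15243704)) (b (l 15205696) (l 15220360)))) (a (l 15299648) (l 15253888)))) (a (b (l 15393944) (l 15419080)) (a (l 15340232) (l 15318016)))) (a (b (c (l 15505792) (l 15405680)) (l 15503064)) (b (c (l 15426968) (l 15317152)) (c (l 15475240) (l 15370960))))))) (a (b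 (a (l 15939640) (b (a (l 15835576) (l 15770872)) (l 15831488))) (a (l 15987264) (l 15870504))) (b (a (b (l 15661552) (l 15699072)) (b (a (l 15547632) (l 15471216)) (l 15552440))) (a (a (l 15784016) (l 15715944)) (l 15612400))))) (b (b (a (l 15975904) (a (l 15845960) (l 15685984))) (a (b (l 16003864) (l 16022824)) (a (l 15856688) (l 15891208)))) (b (a (l 16058152) (a (l 15905264) (l 15792824))) (a (l 16103688) (l 15900432))))), by decide +kernel⟩

def k3_pm_202 : ∃ t, chk3 f_pm_202 t 3 3 1 = true :=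
  ⟨(b (b (a (b (a (l 16398736) (l 16285936)) (l 16433792)) (b (a (b (l 16131464) (l 16139832)) (l 15944776)) (a (l 16143128) (l 15972872)))) (a (a (b (l 16410272) (l 16419904)) (l 16303320)) (a (b (l 16155568) (l 16169000)) (b (l 15995816) (l 16010808))))) (a (b (a (b (l 16432304) (l 2)) (l 16331112)) (l 2)) (a (l 16220688) (b (b (l 16031704) (l 16060928)) (l 16111256))))), by decide +kernel⟩

theorem s4_pm_202 : ∃ t, chk3 f_pm_202 t 3 2 1 = true := ex3_a k1_pm_202 k2_pm_202

theorem s5_pm_202 : ∃ t, chk3 f_pm_202 t 3 1 1 = true := ex3_b s4_pm_202 k3_pm_202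

theorem s6_pm_202 : ∃ t, chk3 f_pm_202 t 1 1 1 = true := ex3_a k0_pm_202 s5_pm_202

theorem c_pm_202 : CertB 0 536870912 1073741824 536870912 818728140 40265320 3 eng mog cd0q2 cd3q2 pd0 false true false .pp 2 0 2
    ndB0q2 ndB3q2 pcB0 Cut.none Ext.none :=
  certB1 (fam := false) (s1 := true) (s2 := false) (a := 2) (b := 0) (c := 2) (cn := .pp) (n1 := ndB0q2) (n2 := ndB3q2) (pc := pcB0) (cut := Cut.none) (xt := Ext.none) (P1 := 0) (W1 := 536870912) (P2 := 1073741824) (W2 := 536870912) (P3 := 818728140) (W3 := 40265320) (N0 := 3) (En := eng) (mo := mog) (C1 := cd0q2) (C2 := cd3q2) (C3 := pd0)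
    rfl (fun _ => rfl) s6_pm_202

noncomputable def f_pm_203 : ℕ → ℕ → ℕ → ℕ → Bool := onCell 0 536870912 0 1230186008 818728140 40265320
    (rowB 3 eng mog cd0q2 cd3q3 pd0 0 false true false .up 2 0 3 (qsf 0 536870912 0 1230186008 0) ndB0q2 ndB3q3 pcB0 Cut.none Ext.none)

def k0_pm_203 : ∃ t, chk3 f_pm_203 t 1 1 1 = true :=
  ⟨(b (l 2) (b (l 2) (a (b (a (l 3) (b (l 2) (b (l 2) (a (a (l 3) (l 158544490071)) (l 16579432))))) (a (b (l 3) (a (l 3) (a (l 3) (b (l 204178335495) (b (l 16604448) (l 16567456)))))) (b (a (b (a (l 231558837847) (l 16591200)) (a (l 161765677719) (l 16578840))) (b (l 16566352) (l 16553560))) (a (b (a (b (l 16580416) (l 16573664)) (l 16570216)) (a (l 16560960) (l 16565384))) (b (l 16543832) (l 16538504)))))) (b (l 2) (a (b (a (b (l 16514352) (l 16497624)) (l 95663494903)) (a (b (l 16484808) (l 16499520)) (l 16392040))) (a (l 41439298663) (l 16229264))))))), by decide +kernel⟩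

theorem c_pm_203 : CertB 0 536870912 0 1230186008 818728140 40265320 3 eng mog cd0q2 cd3q3 pd0 false true false .up 2 0 3
    ndB0q2 ndB3q3 pcB0 Cut.none Ext.none :=
  certB0 (fam := false) (s1 := true) (s2 := false) (a := 2) (b := 0) (c := 3) (cn := .up) (n1 := ndB0q2) (n2 := ndB3q3) (pc := pcB0) (cut := Cut.none) (xt := Ext.none) (P1 := 0) (W1 := 536870912) (P2 := 0) (W2 := 1230186008) (P3 := 818728140) (W3 := 40265320) (N0 := 3) (En := eng) (mo := mog) (C1 := cd0q2) (C2 := cd3q3) (C3 := pd0)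
    rfl k0_pm_203

noncomputable def cut_pm_213 : Cut := Cut.of [[⟨0, 1, 0, 67108864⟩, ⟨1, 1, 0, 67108864⟩, ⟨2, 2, 0, 16777216⟩]]

noncomputable def f_pm_213 : ℕ → ℕ → ℕ → ℕ → Bool := onCell 0 536870912 0 1230186008 818728140 40265320
    (rowB 3 eng mog cd0q2 cd3q3 pd1 0 false true false .pnn 2 1 3 (qsf 0 536870912 0 1230186008 1) ndB0q2 ndB3q3 pcB1 cut_pm_213 Ext.none)

def k0_pm_213 : ∃ t, chk3 f_pm_213 t 2 2 1 = true :=
  ⟨(l 3), by decide +kernel⟩

def k1_pm_213 : ∃ t, chk3 f_pm_213 t 6 4 1 = true :=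
  ⟨(l 3), by decide +kernel⟩

def k2_pm_213 : ∃ t, chk3 f_pm_213 t 14 4 1 = true :=
  ⟨(b (l 3) (a (l 3) (b (a (l 3) (l 6)) (a (b (l 3) (a (l 3) (b (a (l 3) (a (l 3) (b (l 3) (c (l 272361314567) (b (l 290078052535) (l 231559102679)))))) (c (a (b (l 332490854487) (a (l 266992615751) (l 190220066967))) (b (l 198810001031) (l 16768952))) (c (a (b (l 317458474023) (l 233169742199)) (b (l 203104973783) (l 16776000))) (a (b (l 315310971927) (l 251960194103)) (b (l 230485361383) (l 16766248)))))))) (b (a (b (l 3) (a (b (l 3) (c (l 337859572519) (c (l 320679702615) (l 339470169303)))) (a (b (l 3) (c (l 243907165991) (c (l 257328938151) (l 254644557927)))) (b (c (b (l 304036705863) (l 200957489895)) (b (l 318532204343) (a (l 292762400951) (l 192367540967)))) (b (c (l 16777528) (l 193441284359)) (l 16758408)))))) (b (c (a (b (l 351281342471) (a (l 301889221415) (b (l 243370293079) (l 16776808)))) (b (a (b (l 300278608071) (l 204715588503)) (l 199883752119)) (l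 16777136))) (c (a (b (l 345375766135) (a (l 319605963831) (l 238001586983))) (b (a (b (l 298131128551) (l 207936816311)) (l 16772968)) (l 16778440))) (a (b (l 346449495783) (a (l 317458456567) (b (l 255718313927) (l 16771176)))) (b (a (b (l 298131116663) (l 237464704135)) (l 194515022279)) (l 16771952))))) (c (b (a (l 197199395207) (l 16788720)) (l 16768472)) (a (b (c (l 193441291495) (l 203641824599)) (l 16774600)) (l 16775536))))) (c (a (b (a (b (a (l 302426094903) (l 201494358679)) (l 195051911063)) (l 16779168)) (l 16770352)) (l 16771432)) (a (b (a (b (a (b (l 3) (l 255718305175)) (b (l 233169728231) (l 16762264))) (a (l 190756923975) (l 16772808))) (b (l 16763136) (l 16773744))) (l 16752288)) (b (l 16754480) (l 16775872))))))))), by decide +kernel⟩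

def k3_pm_213 : ∃ t, chk3 f_pm_213 t 15 4 1 = true :=
  ⟨(b (l 6) (a (b (a (l 6) (l 6)) (a (b (a (b (a (c (l 16766816) (l 16765520)) (l 16761792)) (l 16762912)) (l 16763560)) (a (l 16765360) (l 16788168))) (b (l 16786208) (l 16790376)))) (b (a (l 6) (l 6)) (a (l 16789984) (l 16791024))))), by decide +kernel⟩

def k4_pm_213 : ∃ t, chk3 f_pm_213 t 6 10 1 = true :=
  ⟨(a (l 3) (b (l 3) (a (l 3) (b (l 3) (a (l 3) (b (l 3) (a (l 3) (c (c (a (b (l 3) (a (l 3) (a (l 3) (c (c (l 200957546295) (l 201494406359)) (l 201494392615))))) (b (c (a (l 3) (l 197736313799)) (l 199346905255)) (c (c (b (l 195588837831) (l 155323521687)) (a (l 161765959943) (l 157470994759))) (c (l 161765949911) (l 162839675623))))) (c (b (l 202568108423) (a (l 203641849239) (b (l 195588789543) (l 162302794071)))) (b (l 203104950391) (a (a (l 3) (l 202568087287)) (b (l 195588767767) (l 164987126343)))))) (a (b (l 3) (a (l 3) (b (l 3) (c (l 202568058759) (l 203641749543))))) (c (b (l 200957441783)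 (b (l 196125603063) (b (l 192904377399) (l 167671445911)))) (b (l 202031132791) (b (l 196662432055) (a (l 177335076791) (l 16730160)))))))))))))), by decide +kernel⟩

def k5_pm_213 : ∃ t, chk3 f_pm_213 t 6 11 1 = true :=
  ⟨(a (l 3) (b (a (l 3) (b (a (l 3) (b (a (a (l 3) (a (l 3) (b (l 3) (c (c (l 292762454807) (l 291688667719)) (l 292225479991))))) (c (a (b (b (a (l 3) (c (c (c (l 196662580887) (l 197199440679)) (l 196662552983)) (c (l 196662530455) (l 196662507751)))) (c (c (l 195588832983) (l 195588810631)) (l 195051905815))) (c (b (l 187535728887) (l 16796336)) (l 190756942823))) (c (c (b (c (l 16805928) (l 16800416)) (l 16803512)) (b (l 16792104) (l 16792496))) (b (c (l 16780936) (l 16769672)) (l 16775768)))) (c (b (b (a (b (l 200957442391) (l 198809956215)) (l 16755104)) (l 191293765783)) (l 188609415191)) (b (b (a (a (l 3) (l 197199297959)) (l 16729416)) (l 191830582567)) (l 187535619303))))) (c (c (a (b (l 198273172503) (l 189146334551)) (l 16797720))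 (a (l 195051902103) (l 16775544))) (a (c (l 195051856263) (l 195588659783)) (l 16741504))))) (c (a (b (a (l 3) (l 298131092247)) (l 214379228215)) (b (a (l 16762744) (l 16787776)) (l 16787072))) (b (a (a (l 3) (l 298131042967)) (a (l 16738544) (l 16743272))) (a (l 233706533431) (l 16743208)))))) (a (b (a (l 3) (a (l 3) (b (l 241759551015) (a (l 239612088359) (l 228874641415))))) (a (a (l 3) (c (l 228337872151) (l 226727203607))) (b (c (l 239612192823) (l 239075242055)) (c (l 211694850167) (l 217063490295))))) (b (a (a (c (l 225116618359) (l 231022119687)) (l 16719920)) (l 16748048)) (a (l 16744200) (l 16775256)))))), by decide +kernel⟩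

def k6_pm_213 : ∃ t, chk3 f_pm_213 t 14 20 1 = true :=
  ⟨(a (a (l 3) (b (a (l 3) (b (l 3) (b (l 3) (a (l 3) (c (a (l 251960205847) (l 189683187623)) (a (l 251423330423) (l 196125628727))))))) (a (b (l 3) (c (c (a (l 230485400023) (l 192904440103)) (a (l 229948522967) (l 186998854087))) (a (b (l 3) (l 197736220583)) (b (l 195588741783) (l 187535679063))))) (b (a (c (c (l 206863082231) (a (l 231022268967) (l 191293823607))) (b (a (l 3) (l 228337878887)) (l 193978133799))) (c (b (l 186998830951) (l 16767680)) (b (l 191293783319) (l 16763008)))) (c (c (l 16774792) (l 16761424)) (c (l 16768584) (l 16749088))))))) (a (b (a (c (c (b (a (l 307794831799) (l 242833434935)) (l 186998854695)) (b (a (l 317458467543) (b (l 254644595495) (l 189146326711))) (a (l 194515032327) (l 16784568)))) (c (b (a (l 315847855383) (b (l 253570833751) (l 191293799847))) (a (l 194515009671) (l 16773256))) (b (a (l 314237211047) (b (l 284172444615) (l 189146286247))) (a (b (l 228874746103)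 (l 16759464)) (l 16761544))))) (c (b (b (l 192904423799) (l 16770240)) (l 16792664)) (b (a (c (l 16769528) (l 189146297927)) (l 16771104)) (l 16770112)))) (c (a (b (l 16769984) (l 16792960)) (l 16795816)) (a (b (l 16745056) (l 16765512)) (l 16769704)))) (b (c (l 16775376) (l 16754128)) (l 16767848)))), by decide +kernel⟩

def k7_pm_213 : ∃ t, chk3 f_pm_213 t 14 21 1 = true :=
  ⟨(a (b (a (a (a (l 3) (a (l 3) (b (l 3) (b (l 3) (b (l 3) (c (c (l 195588816663) (l 196662523127)) (l 197736210423))))))) (a (b (l 3) (c (c (b (l 195588794135) (l 166597761463)) (b (l 196125653095) (l 175187687575))) (c (l 182703841143) (l 186461899527)))) (b (c (c (l 195051911575) (l 196125654615)) (c (l 197199344391) (l 198273054375))) (c (c (l 165524017799) (l 173577077703)) (c (l 176798267063) (l 180556324695)))))) (c (a (b (a (c (l 178945798311) (l 180556399063)) (l 16767368)) (l 16768672)) (l 16771368)) (a (b (a (c (l 183777591703) (l 185925027575)) (l 16757664)) (l 16755736))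 (l 16739440)))) (a (a (c (b (a (c (c (b (l 3) (l 196125699239)) (b (l 3) (l 196662550775))) (c (l 198810013895) (l 199346855047))) (c (c (l 166060908151) (l 168208394135)) (b (l 193978168775) (l 167134625367)))) (c (c (a (b (l 160155331191) (l 16803496)) (l 16803936)) (a (b (l 162839686935) (l 16792808)) (l 16793640))) (a (b (b (l 191830684263) (l 16777200)) (l 16776568)) (l 16777984)))) (b (c (a (b (l 3) (l 197736218007)) (b (l 195051872983) (l 16754288))) (a (b (l 3) (l 198809924455)) (b (l 195588705511) (l 16731512)))) (c (a (b (l 170892674535) (l 16754560)) (l 16756720)) (a (b (l 175724463527) (l 16732176)) (l 16735048))))) (c (c (b (l 16779240) (l 16801336)) (b (a (l 16778096) (l 16780008)) (l 16780896))) (b (c (l 16760064) (l 16735392)) (l 16749320)))) (a (c (l 16772608) (l 16733424)) (l 16736808)))) (b (a (a (l 16759912) (l 16785232)) (l 16792016)) (c (l 16809704) (l 16771840)))), by decide +kernel⟩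

def k8_pm_213 : ∃ t, chk3 f_pm_213 t 15 10 1 = true :=
  ⟨(a (b (a (b (l 16791280) (l 16795632)) (l 16798048)) (c (l 16820496) (l 16789168))) (b (l 16802784) (l 16818280))), by decide +kernel⟩

def k9_pm_213 : ∃ t, chk3 f_pm_213 t 7 11 1 = true :=
  ⟨(a (a (c (b (b (a (b (a (b (l 16757816) (l 16789744)) (l 16793264)) (l 16792552)) (l 16800288)) (l 16799368)) (l 16806176)) (b (b (a (b (c (l 16758408) (l 16735824)) (l 16748656)) (l 16757856)) (l 16736392)) (l 16726504))) (b (b (l 16774288) (l 16800544)) (l 16811272))) (a (b (l 16820024) (l 16836560)) (b (l 16837024) (l 16859072)))), by decide +kernel⟩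

def k10_pm_213 : ∃ t, chk3 f_pm_213 t 1 6 1 = true :=
  ⟨(a (b (l 3) (a (l 3) (a (l 3) (b (l 3) (a (l 3) (b (a (l 3) (l 244980680871)) (l 160155062391))))))) (b (a (a (b (a (l 3) (b (l 3) (a (l 3) (a (b (l 3) (a (l 3) (l 204178620439))) (b (a (l 204715518183) (l 203641736359)) (b (l 204178612551) (l 16742880))))))) (a (b (l 3) (a (l 3) (b (l 3) (a (l 3) (b (l 176261275959) (l 180556229847)))))) (c (b (b (a (l 192367486343) (a (l 193978110423) (l 16753840))) (a (a (l 3) (l 196125576951)) (l 16749248))) (a (b (a (l 187535619127) (l 16731296)) (b (l 180556285191) (l 16711576))) (l 16732608))) (b (a (b (l 196662415559) (l 190219941367)) (b (l 197199272455) (l 16716472))) (a (b (l 190756788935) (l 192367426183)) (l 16697912)))))) (a (b (a (b (b (c (l 224042919751) (l 222969109047)) (c (l 223506005287) (l 222969113383))) (b (a (l 206862960967) (l 16754128)) (l 16753040))) (b (b (l 16758496) (l 16761128)) (l 16765320))) (b (l 16741568) (l 16729224))) (b (b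 (l 16756464) (l 16785096)) (l 16779496)))) (b (a (a (l 16804880) (l 16832520)) (a (l 16861416) (l 16888024))) (a (l 16846456) (l 16911216)))) (a (a (b (a (b (a (l 264844926999) (b (a (l 264308070519) (l 185388100615)) (l 180556236759))) (a (b (l 171429349159) (l 16664944)) (l 16653464))) (b (a (l 16682584) (l 16687920)) (l 16658736))) (a (b (a (l 16631608) (l 16633288)) (l 16617904)) (l 16621984))) (b (a (l 16678512) (l 16693488)) (a (l 16616024) (l 16612224)))) (a (b (l 16748328) (l 16627736)) (b (l 16962624) (l 16746936)))))), by decide +kernel⟩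

def k11_pm_213 : ∃ t, chk3 f_pm_213 t 1 7 1 = true :=
  ⟨(a (b (a (l 3) (b (a (l 3) (b (a (l 239075081319) (l 16611208)) (a (l 147807011591) (l 16600088)))) (a (a (l 3) (b (l 224579574391) (l 162839476215))) (b (a (l 16600696) (l 16587504)) (a (l 16591560) (l 16573680)))))) (b (a (l 1) (a (l 1) (b (l 16633784) (l 1)))) (l 1))) (b (a (b (a (a (l 16594504) (l 16577712)) (l 16548408)) (a (b (l 16556712) (l 16535416)) (l 16527384))) (b (a (l 16523656) (l 16564584)) (a (l 16428176) (l 16411504)))) (a (b (a (b (l 16513072) (l 16489728)) (b (l 16437896) (l 16407032))) (l 1)) (a (l 16301808) (l 16226272))))), by decide +kernel⟩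

theorem s12_pm_213 : ∃ t, chk3 f_pm_213 t 1 3 1 = true := ex3_b k10_pm_213 k11_pm_213

theorem s13_pm_213 : ∃ t, chk3 f_pm_213 t 14 10 1 = true := ex3_b k6_pm_213 k7_pm_213

theorem s14_pm_213 : ∃ t, chk3 f_pm_213 t 7 10 1 = true := ex3_a s13_pm_213 k8_pm_213

theorem s15_pm_213 : ∃ t, chk3 f_pm_213 t 7 5 1 = true := ex3_b s14_pm_213 k9_pm_213

theorem s16_pm_213 : ∃ t, chk3 f_pm_213 t 6 5 1 = true := ex3_b k4_pm_213 k5_pm_213

theorem s17_pm_213 : ∃ t, chk3 f_pm_213 t 3 5 1 = true := ex3_a s16_pm_213 s15_pm_213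

theorem s18_pm_213 : ∃ t, chk3 f_pm_213 t 7 4 1 = true := ex3_a k2_pm_213 k3_pm_213

theorem s19_pm_213 : ∃ t, chk3 f_pm_213 t 3 4 1 = true := ex3_a k1_pm_213 s18_pm_213

theorem s20_pm_213 : ∃ t, chk3 f_pm_213 t 3 2 1 = true := ex3_b s19_pm_213 s17_pm_213

theorem s21_pm_213 : ∃ t, chk3 f_pm_213 t 1 2 1 = true := ex3_a k0_pm_213 s20_pm_213

theorem s22_pm_213 : ∃ t, chk3 f_pm_213 t 1 1 1 = true := ex3_b s21_pm_213 s12_pm_213

theorem c_pm_213 : CertB 0 536870912 0 1230186008 818728140 40265320 3 eng mog cd0q2 cd3q3 pd1 false true false .pnn 2 1 3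
    ndB0q2 ndB3q3 pcB1 cut_pm_213 Ext.none :=
  certB0 (fam := false) (s1 := true) (s2 := false) (a := 2) (b := 1) (c := 3) (cn := .pnn) (n1 := ndB0q2) (n2 := ndB3q3) (pc := pcB1) (cut := cut_pm_213) (xt := Ext.none) (P1 := 0) (W1 := 536870912) (P2 := 0) (W2 := 1230186008) (P3 := 818728140) (W3 := 40265320) (N0 := 3) (En := eng) (mo := mog) (C1 := cd0q2) (C2 := cd3q3) (C3 := pd1)
    rfl s22_pm_213

noncomputable def f_mm_001 : ℕ → ℕ → ℕ → ℕ → Bool := onCell 0 536870912 0 536870912 818728140 40265320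
    (rowB 3 eng mog cd0q0 cd3q1 pd0 1 false false false .up 0 0 1 (qsf 0 536870912 536870912 536870912 0) ndB0q0 ndB3q1 pcB0 Cut.none Ext.none)

def k0_mm_001 : ∃ t, chk3 f_mm_001 t 1 1 1 = true :=
  ⟨(l 3), by decide +kernel⟩

theorem c_mm_001 : CertB 0 536870912 536870912 536870912 818728140 40265320 3 eng mog cd0q0 cd3q1 pd0 false false false .up 0 0 1
    ndB0q0 ndB3q1 pcB0 Cut.none Ext.none :=
  certB1 (fam := false) (s1 := false) (s2 := false) (a := 0) (b := 0) (c := 1) (cn := .up) (n1 := ndB0q0) (n2 := ndB3q1) (pc := pcB0) (cut := Cut.none) (xt := Ext.none) (P1 := 0) (W1 := 536870912) (P2 := 536870912) (W2 := 536870912) (P3 := 818728140) (W3 := 40265320) (N0 := 3) (En := eng) (mo := mog) (C1 := cd0q0) (C2 := cd3q1) (C3 := pd0)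
    rfl (fun _ => rfl) k0_mm_001

noncomputable def f_mm_011 : ℕ → ℕ → ℕ → ℕ → Bool := onCell 0 536870912 536870912 536870912 818728140 40265320
    (rowB 3 eng mog cd0q0 cd3q1 pd1 1 false false false .pnn 0 1 1 (qsf 0 536870912 536870912 536870912 1) ndB0q0 ndB3q1 pcB1 Cut.none Ext.none)

def k0_mm_011 : ∃ t, chk3 f_mm_011 t 1 1 1 = true :=
  ⟨(l 5), by decide +kernel⟩

theorem c_mm_011 : CertB 0 536870912 536870912 536870912 818728140 40265320 3 eng mog cd0q0 cd3q1 pd1 false false false .pnn 0 1 1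
    ndB0q0 ndB3q1 pcB1 Cut.none Ext.none :=
  certB1 (fam := false) (s1 := false) (s2 := false) (a := 0) (b := 1) (c := 1) (cn := .pnn) (n1 := ndB0q0) (n2 := ndB3q1) (pc := pcB1) (cut := Cut.none) (xt := Ext.none) (P1 := 0) (W1 := 536870912) (P2 := 536870912) (W2 := 536870912) (P3 := 818728140) (W3 := 40265320) (N0 := 3) (En := eng) (mo := mog) (C1 := cd0q0) (C2 := cd3q1) (C3 := pd1)
    rfl (fun _ => rfl) k0_mm_011

noncomputable def f_mm_012 : ℕ → ℕ → ℕ → ℕ → Bool := onCell 0 536870912 1073741824 536870912 818728140 40265320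
    (rowB 3 eng mog cd0q0 cd3q2 pd1 0 false false false .pnp 0 1 2 (qsf 0 536870912 1073741824 536870912 1) ndB0q0 ndB3q2 pcB1 Cut.none Ext.none)

def k0_mm_012 : ∃ t, chk3 f_mm_012 t 1 1 1 = true :=
  ⟨(l 5), by decide +kernel⟩

theorem c_mm_012 : CertB 0 536870912 1073741824 536870912 818728140 40265320 3 eng mog cd0q0 cd3q2 pd1 false false false .pnp 0 1 2
    ndB0q0 ndB3q2 pcB1 Cut.none Ext.none :=
  certB0 (fam := false) (s1 := false) (s2 := false) (a := 0) (b := 1) (c := 2) (cn := .pnp) (n1 := ndB0q0) (n2 := ndB3q2) (pc := pcB1) (cut := Cut.none) (xt := Ext.none) (P1 := 0) (W1 := 536870912) (P2 := 1073741824) (W2 := 536870912) (P3 := 818728140) (W3 := 40265320) (N0 := 3) (En := eng) (mo := mog) (C1 := cd0q0) (C2 := cd3q2) (C3 := pd1)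
    rfl k0_mm_012

noncomputable def f_mm_022 : ℕ → ℕ → ℕ → ℕ → Bool := onCell 0 536870912 1073741824 536870912 818728140 40265320
    (rowB 3 eng mog cd0q0 cd3q2 pd2 0 false false false .pp 0 2 2 (qsf 0 536870912 1073741824 536870912 2) ndB0q0 ndB3q2 pcB2 Cut.none Ext.none)

def k0_mm_022 : ∃ t, chk3 f_mm_022 t 1 1 1 = true :=
  ⟨(l 5), by decide +kernel⟩

theorem c_mm_022 : CertB 0 536870912 1073741824 536870912 818728140 40265320 3 eng mog cd0q0 cd3q2 pd2 false false false .pp 0 2 2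
    ndB0q0 ndB3q2 pcB2 Cut.none Ext.none :=
  certB0 (fam := false) (s1 := false) (s2 := false) (a := 0) (b := 2) (c := 2) (cn := .pp) (n1 := ndB0q0) (n2 := ndB3q2) (pc := pcB2) (cut := Cut.none) (xt := Ext.none) (P1 := 0) (W1 := 536870912) (P2 := 1073741824) (W2 := 536870912) (P3 := 818728140) (W3 := 40265320) (N0 := 3) (En := eng) (mo := mog) (C1 := cd0q0) (C2 := cd3q2) (C3 := pd2)
    rfl k0_mm_022

noncomputable def f_mm_023 : ℕ → ℕ → ℕ → ℕ → Bool := onCell 0 536870912 0 1230186008 818728140 40265320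
    (rowB 3 eng mog cd0q0 cd3q3 pd2 0 false false false .up 0 2 3 (qsf 0 536870912 0 1230186008 2) ndB0q0 ndB3q3 pcB2 Cut.none Ext.none)

def k0_mm_023 : ∃ t, chk3 f_mm_023 t 1 1 1 = true :=
  ⟨(l 5), by decide +kernel⟩

theorem c_mm_023 : CertB 0 536870912 0 1230186008 818728140 40265320 3 eng mog cd0q0 cd3q3 pd2 false false false .up 0 2 3
    ndB0q0 ndB3q3 pcB2 Cut.none Ext.none :=
  certB0 (fam := false) (s1 := false) (s2 := false) (a := 0) (b := 2) (c := 3) (cn := .up) (n1 := ndB0q0) (n2 := ndB3q3) (pc := pcB2) (cut := Cut.none) (xt := Ext.none) (P1 := 0) (W1 := 536870912) (P2 := 0) (W2 := 1230186008) (P3 := 818728140) (W3 := 40265320) (N0 := 3) (En := eng) (mo := mog) (C1 := cd0q0) (C2 := cd3q3) (C3 := pd2)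
    rfl k0_mm_023

noncomputable def f_mm_033 : ℕ → ℕ → ℕ → ℕ → Bool := onCell 0 536870912 0 1230186008 818728140 40265320
    (rowB 3 eng mog cd0q0 cd3q3 pd3 0 false false false .pnn 0 3 3 (qsf 0 536870912 0 1230186008 3) ndB0q0 ndB3q3 pcB3 Cut.none Ext.none)

def k0_mm_033 : ∃ t, chk3 f_mm_033 t 1 1 1 = true :=
  ⟨(l 5), by decide +kernel⟩

theorem c_mm_033 : CertB 0 536870912 0 1230186008 818728140 40265320 3 eng mog cd0q0 cd3q3 pd3 false false false .pnn 0 3 3
    ndB0q0 ndB3q3 pcB3 Cut.none Ext.none :=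
  certB0 (fam := false) (s1 := false) (s2 := false) (a := 0) (b := 3) (c := 3) (cn := .pnn) (n1 := ndB0q0) (n2 := ndB3q3) (pc := pcB3) (cut := Cut.none) (xt := Ext.none) (P1 := 0) (W1 := 536870912) (P2 := 0) (W2 := 1230186008) (P3 := 818728140) (W3 := 40265320) (N0 := 3) (En := eng) (mo := mog) (C1 := cd0q0) (C2 := cd3q3) (C3 := pd3)
    rfl k0_mm_033

noncomputable def cut_mm_101 : Cut := Cut.of [[⟨0, 1, 0, 67108864⟩, ⟨1, 0, 0, 67108864⟩, ⟨2, 1, 0, 67108864⟩]]

noncomputable def f_mm_101 : ℕ → ℕ → ℕ → ℕ → Bool := onCell 536870912 536870912 0 536870912 818728140 40265320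
    (rowB 3 eng mog cd0q1 cd3q1 pd0 1 false false false .npn 1 0 1 (qsf 536870912 536870912 536870912 536870912 0) ndB0q1 ndB3q1 pcB0 cut_mm_101 Ext.none)

def k0_mm_101 : ∃ t, chk3 f_mm_101 t 1 1 1 = true :=
  ⟨(a (l 3) (b (a (l 3) (b (a (l 3) (b (a (l 3) (b (l 6) (l 3))) (l 3))) (l 3))) (l 3))), by decide +kernel⟩

theorem c_mm_101 : CertB 536870912 536870912 536870912 536870912 818728140 40265320 3 eng mog cd0q1 cd3q1 pd0 false false false .npn 1 0 1
    ndB0q1 ndB3q1 pcB0 cut_mm_101 Ext.none :=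
  certB1 (fam := false) (s1 := false) (s2 := false) (a := 1) (b := 0) (c := 1) (cn := .npn) (n1 := ndB0q1) (n2 := ndB3q1) (pc := pcB0) (cut := cut_mm_101) (xt := Ext.none) (P1 := 536870912) (W1 := 536870912) (P2 := 536870912) (W2 := 536870912) (P3 := 818728140) (W3 := 40265320) (N0 := 3) (En := eng) (mo := mog) (C1 := cd0q1) (C2 := cd3q1) (C3 := pd0)
    rfl (fun _ => rfl) k0_mm_101

noncomputable def f_mm_102 : ℕ → ℕ → ℕ → ℕ → Bool := onCell 536870912 536870912 1073741824 536870912 818728140 40265320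
    (rowB 3 eng mog cd0q1 cd3q2 pd0 0 false false false .npp 1 0 2 (qsf 536870912 536870912 1073741824 536870912 0) ndB0q1 ndB3q2 pcB0 Cut.none Ext.none)

def k0_mm_102 : ∃ t, chk3 f_mm_102 t 1 1 1 = true :=
  ⟨(l 3), by decide +kernel⟩

theorem c_mm_102 : CertB 536870912 536870912 1073741824 536870912 818728140 40265320 3 eng mog cd0q1 cd3q2 pd0 false false false .npp 1 0 2
    ndB0q1 ndB3q2 pcB0 Cut.none Ext.none :=
  certB0 (fam := false) (s1 := false) (s2 := false) (a := 1) (b := 0) (c := 2) (cn := .npp) (n1 := ndB0q1) (n2 := ndB3q2) (pc := pcB0) (cut := Cut.none) (xt := Ext.none) (P1 := 536870912) (W1 := 536870912) (P2 := 1073741824) (W2 := 536870912) (P3 := 818728140) (W3 := 40265320) (N0 := 3) (En := eng) (mo := mog) (C1 := cd0q1) (C2 := cd3q2) (C3 := pd0)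
    rfl k0_mm_102

noncomputable def f_mm_112 : ℕ → ℕ → ℕ → ℕ → Bool := onCell 536870912 536870912 1073741824 536870912 818728140 40265320
    (rowB 3 eng mog cd0q1 cd3q2 pd1 0 false false false .dn 1 1 2 (qsf 536870912 536870912 1073741824 536870912 1) ndB0q1 ndB3q2 pcB1 Cut.none Ext.none)

def k0_mm_112 : ∃ t, chk3 f_mm_112 t 1 1 1 = true :=
  ⟨(l 3), by decide +kernel⟩

theorem c_mm_112 : CertB 536870912 536870912 1073741824 536870912 818728140 40265320 3 eng mog cd0q1 cd3q2 pd1 false false false .dn 1 1 2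
    ndB0q1 ndB3q2 pcB1 Cut.none Ext.none :=
  certB0 (fam := false) (s1 := false) (s2 := false) (a := 1) (b := 1) (c := 2) (cn := .dn) (n1 := ndB0q1) (n2 := ndB3q2) (pc := pcB1) (cut := Cut.none) (xt := Ext.none) (P1 := 536870912) (W1 := 536870912) (P2 := 1073741824) (W2 := 536870912) (P3 := 818728140) (W3 := 40265320) (N0 := 3) (En := eng) (mo := mog) (C1 := cd0q1) (C2 := cd3q2) (C3 := pd1)
    rfl k0_mm_112

noncomputable def f_mm_113 : ℕ → ℕ → ℕ → ℕ → Bool := onCell 536870912 536870912 0 1230186008 818728140 40265320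
    (rowB 3 eng mog cd0q1 cd3q3 pd1 0 false false false .nn 1 1 3 (qsf 536870912 536870912 0 1230186008 1) ndB0q1 ndB3q3 pcB1 Cut.none Ext.none)

def k0_mm_113 : ∃ t, chk3 f_mm_113 t 1 1 1 = true :=
  ⟨(b (l 5) (b (l 5) (a (l 5) (l 3)))), by decide +kernel⟩

theorem c_mm_113 : CertB 536870912 536870912 0 1230186008 818728140 40265320 3 eng mog cd0q1 cd3q3 pd1 false false false .nn 1 1 3
    ndB0q1 ndB3q3 pcB1 Cut.none Ext.none :=
  certB0 (fam := false) (s1 := false) (s2 := false) (a := 1) (b := 1) (c := 3) (cn := .nn) (n1 := ndB0q1) (n2 := ndB3q3) (pc := pcB1) (cut := Cut.none) (xt := Ext.none) (P1 := 536870912) (W1 := 536870912) (P2 := 0) (W2 := 1230186008) (P3 := 818728140) (W3 := 40265320) (N0 := 3) (En := eng) (mo := mog) (C1 := cd0q1) (C2 := cd3q3) (C3 := pd1)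
    rfl k0_mm_113

noncomputable def f_mm_123 : ℕ → ℕ → ℕ → ℕ → Bool := onCell 1073741824 536870912 0 1230186008 818728140 40265320
    (rowB 3 eng mog cd0q1 cd3q3 pd2 2 false false false .npn 1 2 3 (qsf 536870912 536870912 0 1230186008 2) ndB0q1 ndB3q3 pcB2 Cut.none Ext.none)

def k0_mm_123 : ∃ t, chk3 f_mm_123 t 1 1 1 = true :=
  ⟨(b (l 5) (l 5)), by decide +kernel⟩

theorem c_mm_123 : CertB 536870912 536870912 0 1230186008 818728140 40265320 3 eng mog cd0q1 cd3q3 pd2 false false false .npn 1 2 3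
    ndB0q1 ndB3q3 pcB2 Cut.none Ext.none :=
  certB2 (fam := false) (s1 := false) (s2 := false) (a := 1) (b := 2) (c := 3) (cn := .npn) (n1 := ndB0q1) (n2 := ndB3q3) (pc := pcB2) (cut := Cut.none) (xt := Ext.none) (P1 := 536870912) (W1 := 536870912) (P2 := 0) (W2 := 1230186008) (P3 := 818728140) (W3 := 40265320) (N0 := 3) (En := eng) (mo := mog) (C1 := cd0q1) (C2 := cd3q3) (C3 := pd2)
    rfl (fun _ => rfl) k0_mm_123

noncomputable def f_mm_133 : ℕ → ℕ → ℕ → ℕ → Bool := onCell 1610612736 536870912 0 1230186008 818728140 40265320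
    (rowB 3 eng mog cd0q1 cd3q3 pd3 2 false false false .dn 1 3 3 (qsf 536870912 536870912 0 1230186008 3) ndB0q1 ndB3q3 pcB3 Cut.none Ext.none)

def k0_mm_133 : ∃ t, chk3 f_mm_133 t 1 1 1 = true :=
  ⟨(l 5), by decide +kernel⟩

theorem c_mm_133 : CertB 536870912 536870912 0 1230186008 818728140 40265320 3 eng mog cd0q1 cd3q3 pd3 false false false .dn 1 3 3
    ndB0q1 ndB3q3 pcB3 Cut.none Ext.none :=
  certB2 (fam := false) (s1 := false) (s2 := false) (a := 1) (b := 3) (c := 3) (cn := .dn) (n1 := ndB0q1) (n2 := ndB3q3) (pc := pcB3) (cut := Cut.none) (xt := Ext.none) (P1 := 536870912) (W1 := 536870912) (P2 := 0) (W2 := 1230186008) (P3 := 818728140) (W3 := 40265320) (N0 := 3) (En := eng) (mo := mog) (C1 := cd0q1) (C2 := cd3q3) (C3 := pd3)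
    rfl (fun _ => rfl) k0_mm_133

noncomputable def f_mm_202 : ℕ → ℕ → ℕ → ℕ → Bool := onCell 0 536870912 0 536870912 818728140 40265320
    (rowB 3 eng mog cd0q2 cd3q2 pd0 1 false false false .pp 2 0 2 (qsf 0 536870912 1073741824 536870912 0) ndB0q2 ndB3q2 pcB0 Cut.none Ext.none)

def k0_mm_202 : ∃ t, chk3 f_mm_202 t 1 1 1 = true :=
  ⟨(a (b (b (a (a (b (a (b (b (l 16339880) (a (l 16345952) (b (l 16338832) (l 16345248)))) (b (a (a (l 16350224) (l 16372344)) (l 35063672167)) (a (l 16361104) (l 16362960)))) (b (a (b (b (l 16330320) (l 16336896)) (l 150490879319)) (l 3)) (b (c (l 153175339799) (l 154249048199)) (l 3)))) (a (b (b (a (l 16371552) (l 16375856)) (l 186461319479)) (b (l 181629500791) (l 3))) (l 3))) (l 3)) (l 3)) (l 3)) (l 3)) (l 3)), by decide +kernel⟩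

theorem c_mm_202 : CertB 0 536870912 1073741824 536870912 818728140 40265320 3 eng mog cd0q2 cd3q2 pd0 false false false .pp 2 0 2
    ndB0q2 ndB3q2 pcB0 Cut.none Ext.none :=
  certB1 (fam := false) (s1 := false) (s2 := false) (a := 2) (b := 0) (c := 2) (cn := .pp) (n1 := ndB0q2) (n2 := ndB3q2) (pc := pcB0) (cut := Cut.none) (xt := Ext.none) (P1 := 0) (W1 := 536870912) (P2 := 1073741824) (W2 := 536870912) (P3 := 818728140) (W3 := 40265320) (N0 := 3) (En := eng) (mo := mog) (C1 := cd0q2) (C2 := cd3q2) (C3 := pd0)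
    rfl (fun _ => rfl) k0_mm_202

noncomputable def f_mm_203 : ℕ → ℕ → ℕ → ℕ → Bool := onCell 0 536870912 0 1230186008 818728140 40265320
    (rowB 3 eng mog cd0q2 cd3q3 pd0 0 false false false .up 2 0 3 (qsf 0 536870912 0 1230186008 0) ndB0q2 ndB3q3 pcB0 Cut.none Ext.none)

def k0_mm_203 : ∃ t, chk3 f_mm_203 t 1 1 1 = true :=
  ⟨(b (l 2) (b (l 2) (l 3))), by decide +kernel⟩

theorem c_mm_203 : CertB 0 536870912 0 1230186008 818728140 40265320 3 eng mog cd0q2 cd3q3 pd0 false false false .up 2 0 3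
    ndB0q2 ndB3q3 pcB0 Cut.none Ext.none :=
  certB0 (fam := false) (s1 := false) (s2 := false) (a := 2) (b := 0) (c := 3) (cn := .up) (n1 := ndB0q2) (n2 := ndB3q3) (pc := pcB0) (cut := Cut.none) (xt := Ext.none) (P1 := 0) (W1 := 536870912) (P2 := 0) (W2 := 1230186008) (P3 := 818728140) (W3 := 40265320) (N0 := 3) (En := eng) (mo := mog) (C1 := cd0q2) (C2 := cd3q3) (C3 := pd0)
    rfl k0_mm_203

noncomputable def f_mm_213 : ℕ → ℕ → ℕ → ℕ → Bool := onCell 0 536870912 0 1230186008 818728140 40265320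
    (rowB 3 eng mog cd0q2 cd3q3 pd1 0 false false false .pnn 2 1 3 (qsf 0 536870912 0 1230186008 1) ndB0q2 ndB3q3 pcB1 Cut.none Ext.none)

def k0_mm_213 : ∃ t, chk3 f_mm_213 t 1 1 1 = true :=
  ⟨(b (a (l 3) (b (l 5) (l 3))) (b (l 3) (l 3))), by decide +kernel⟩

theorem c_mm_213 : CertB 0 536870912 0 1230186008 818728140 40265320 3 eng mog cd0q2 cd3q3 pd1 false false false .pnn 2 1 3
    ndB0q2 ndB3q3 pcB1 Cut.none Ext.none :=
  certB0 (fam := false) (s1 := false) (s2 := false) (a := 2) (b := 1) (c := 3) (cn := .pnn) (n1 := ndB0q2) (n2 := ndB3q3) (pc := pcB1) (cut := Cut.none) (xt := Ext.none) (P1 := 0) (W1 := 536870912) (P2 := 0) (W2 := 1230186008) (P3 := 818728140) (W3 := 40265320) (N0 := 3) (En := eng) (mo := mog) (C1 := cd0q2) (C2 := cd3q3) (C3 := pd1)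
    rfl k0_mm_213

end Pool.Agent.Strip051.G.I7625_8000.Tab.C.BB03

namespace Pool.Agent.Strip051.G.I7625_8000.Tab.C.BB04

open Pool.Agent.Strip051.PB Pool.Agent.Strip051.PB.T
open Pool.Agent.Strip051.G.I7625_8000.Tab

noncomputable def cut_pp_001 : Cut := Cut.of [[⟨3, 0, 0, 1449551462⟩]]

noncomputable def f_pp_001 : ℕ → ℕ → ℕ → ℕ → Bool := onCell 0 536870912 536870912 536870912 818728140 40265320
    (rowB 3 eng mog cd0q0 cd4q1 pd0 0 false true true .up 0 0 1 (qsf 0 536870912 536870912 536870912 0) ndB0q0 ndB4q1 pcB0 cut_pp_001 Ext.none)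

def k0_pp_001 : ∃ t, chk3 f_pp_001 t 1 1 1 = true :=
  ⟨(l 6), by decide +kernel⟩

theorem c_pp_001 : CertB 0 536870912 536870912 536870912 818728140 40265320 3 eng mog cd0q0 cd4q1 pd0 false true true .up 0 0 1
    ndB0q0 ndB4q1 pcB0 cut_pp_001 Ext.none :=
  certB0 (fam := false) (s1 := true) (s2 := true) (a := 0) (b := 0) (c := 1) (cn := .up) (n1 := ndB0q0) (n2 := ndB4q1) (pc := pcB0) (cut := cut_pp_001) (xt := Ext.none) (P1 := 0) (W1 := 536870912) (P2 := 536870912) (W2 := 536870912) (P3 := 818728140) (W3 := 40265320) (N0 := 3) (En := eng) (mo := mog) (C1 := cd0q0) (C2 := cd4q1) (C3 := pd0)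
    rfl k0_pp_001

noncomputable def cut_pp_011 : Cut := Cut.of [[⟨3, 0, 0, 1449551462⟩], [⟨0, 0, 0, 67108864⟩, ⟨1, 1, 0, 67108864⟩, ⟨2, 1, 0, 67108864⟩]]

noncomputable def f_pp_011 : ℕ → ℕ → ℕ → ℕ → Bool := onCell 0 536870912 536870912 536870912 818728140 40265320
    (rowB 3 eng mog cd0q0 cd4q1 pd1 0 false true true .pnn 0 1 1 (qsf 0 536870912 536870912 536870912 1) ndB0q0 ndB4q1 pcB1 cut_pp_011 Ext.none)

def k0_pp_011 : ∃ t, chk3 f_pp_011 t 1 1 1 = true :=
  ⟨(l 6), by decide +kernel⟩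

theorem c_pp_011 : CertB 0 536870912 536870912 536870912 818728140 40265320 3 eng mog cd0q0 cd4q1 pd1 false true true .pnn 0 1 1
    ndB0q0 ndB4q1 pcB1 cut_pp_011 Ext.none :=
  certB0 (fam := false) (s1 := true) (s2 := true) (a := 0) (b := 1) (c := 1) (cn := .pnn) (n1 := ndB0q0) (n2 := ndB4q1) (pc := pcB1) (cut := cut_pp_011) (xt := Ext.none) (P1 := 0) (W1 := 536870912) (P2 := 536870912) (W2 := 536870912) (P3 := 818728140) (W3 := 40265320) (N0 := 3) (En := eng) (mo := mog) (C1 := cd0q0) (C2 := cd4q1) (C3 := pd1)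
    rfl k0_pp_011

noncomputable def cut_pp_012 : Cut := Cut.of [[⟨3, 0, 0, 1449551462⟩], [⟨0, 0, 0, 67108864⟩, ⟨1, 1, 0, 67108864⟩, ⟨2, 1, 0, 67108864⟩]]

noncomputable def f_pp_012 : ℕ → ℕ → ℕ → ℕ → Bool := onCell 0 536870912 536870912 536870912 818728140 40265320
    (rowB 3 eng mog cd0q0 cd4q2 pd1 1 false true true .pnp 0 1 2 (qsf 0 536870912 1073741824 536870912 1) ndB0q0 ndB4q2 pcB1 cut_pp_012 Ext.none)

def k0_pp_012 : ∃ t, chk3 f_pp_012 t 1 1 1 = true :=
  ⟨(l 6), by decide +kernel⟩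

theorem c_pp_012 : CertB 0 536870912 1073741824 536870912 818728140 40265320 3 eng mog cd0q0 cd4q2 pd1 false true true .pnp 0 1 2
    ndB0q0 ndB4q2 pcB1 cut_pp_012 Ext.none :=
  certB1 (fam := false) (s1 := true) (s2 := true) (a := 0) (b := 1) (c := 2) (cn := .pnp) (n1 := ndB0q0) (n2 := ndB4q2) (pc := pcB1) (cut := cut_pp_012) (xt := Ext.none) (P1 := 0) (W1 := 536870912) (P2 := 1073741824) (W2 := 536870912) (P3 := 818728140) (W3 := 40265320) (N0 := 3) (En := eng) (mo := mog) (C1 := cd0q0) (C2 := cd4q2) (C3 := pd1)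
    rfl (fun _ => rfl) k0_pp_012

noncomputable def cut_pp_022 : Cut := Cut.of [[⟨3, 0, 0, 1449551462⟩], [⟨0, 0, 0, 67108864⟩, ⟨1, 1, 0, 67108864⟩, ⟨2, 1, 0, 67108864⟩]]

noncomputable def f_pp_022 : ℕ → ℕ → ℕ → ℕ → Bool := onCell 0 536870912 1073741824 536870912 818728140 40265320
    (rowB 3 eng mog cd0q0 cd4q2 pd2 0 false true true .pp 0 2 2 (qsf 0 536870912 1073741824 536870912 2) ndB0q0 ndB4q2 pcB2 cut_pp_022 Ext.none)

def k0_pp_022 : ∃ t, chk3 f_pp_022 t 1 1 1 = true :=
  ⟨(a (b (l 6) (b (a (a (b (b (l 6) (a (l 16127592) (l 6))) (a (l 16104984) (l 16273384))) (b (l 6) (b (l 6) (a (l 16195160) (l 6))))) (l 6)) (a (a (b (b (l 15976096) (l 15916216)) (l 15874344)) (b (b (l 16305912) (l 16159936)) (b (l 16058904) (l 16002896)))) (a (b (l 6) (b (a (l 16208552) (l 6)) (l 16285016))) (l 6))))) (l 6)), by decide +kernel⟩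

theorem c_pp_022 : CertB 0 536870912 1073741824 536870912 818728140 40265320 3 eng mog cd0q0 cd4q2 pd2 false true true .pp 0 2 2
    ndB0q0 ndB4q2 pcB2 cut_pp_022 Ext.none :=
  certB0 (fam := false) (s1 := true) (s2 := true) (a := 0) (b := 2) (c := 2) (cn := .pp) (n1 := ndB0q0) (n2 := ndB4q2) (pc := pcB2) (cut := cut_pp_022) (xt := Ext.none) (P1 := 0) (W1 := 536870912) (P2 := 1073741824) (W2 := 536870912) (P3 := 818728140) (W3 := 40265320) (N0 := 3) (En := eng) (mo := mog) (C1 := cd0q0) (C2 := cd4q2) (C3 := pd2)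
    rfl k0_pp_022

noncomputable def cut_pp_023 : Cut := Cut.of [[⟨3, 0, 0, 1449551462⟩]]

noncomputable def f_pp_023 : ℕ → ℕ → ℕ → ℕ → Bool := onCell 0 536870912 0 1230186008 818728140 40265320
    (rowB 3 eng mog cd0q0 cd4q3 pd2 0 false true true .up 0 2 3 (qsf 0 536870912 0 1230186008 2) ndB0q0 ndB4q3 pcB2 cut_pp_023 Ext.none)

def k0_pp_023 : ∃ t, chk3 f_pp_023 t 1 1 1 = true :=
  ⟨(b (a (l 2) (a (l 2) (b (a (l 2) (b (l 16441336) (l 16513296))) (b (a (l 16504352) (l 16547496)) (a (l 16484424) (l 16526592)))))) (b (a (a (l 2) (b (l 2) (a (l 2) (l 16196544)))) (a (b (a (l 2) (l 16402456)) (a (l 16378440) (l 16584208))) (b (a (l 16466704) (l 16604160)) (a (b (l 16484496) (l 16497008)) (b (l 16577376) (l 16601072)))))) (a (b (a (l 2) (a (b (l 15997840) (l 15996200)) (b (l 16155672) (l 16168008)))) (a (b (a (l 2) (l 15849104)) (a (l 15729800) (l 16049288))) (b (a (l 16034400) (l 16344688)) (a (b (l 16092624) (l 16165256)) (b (l 16347224) (a (l 16292256)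 (l 6))))))) (b (a (a (b (l 16293728) (l 16319256)) (b (l 16412848) (l 16493072))) (a (b (l 16565792) (l 6)) (l 6))) (a (b (a (l 16487432) (l 6)) (l 6)) (l 6)))))), by decide +kernel⟩

theorem c_pp_023 : CertB 0 536870912 0 1230186008 818728140 40265320 3 eng mog cd0q0 cd4q3 pd2 false true true .up 0 2 3
    ndB0q0 ndB4q3 pcB2 cut_pp_023 Ext.none :=
  certB0 (fam := false) (s1 := true) (s2 := true) (a := 0) (b := 2) (c := 3) (cn := .up) (n1 := ndB0q0) (n2 := ndB4q3) (pc := pcB2) (cut := cut_pp_023) (xt := Ext.none) (P1 := 0) (W1 := 536870912) (P2 := 0) (W2 := 1230186008) (P3 := 818728140) (W3 := 40265320) (N0 := 3) (En := eng) (mo := mog) (C1 := cd0q0) (C2 := cd4q3) (C3 := pd2)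
    rfl k0_pp_023

noncomputable def cut_pp_033 : Cut := Cut.of [[⟨3, 0, 0, 1449551462⟩]]

noncomputable def f_pp_033 : ℕ → ℕ → ℕ → ℕ → Bool := onCell 1610612736 536870912 0 1230186008 818728140 40265320
    (rowB 3 eng mog cd0q0 cd4q3 pd3 2 false true true .pnn 0 3 3 (qsf 0 536870912 0 1230186008 3) ndB0q0 ndB4q3 pcB3 cut_pp_033 Ext.none)

def k0_pp_033 : ∃ t, chk3 f_pp_033 t 1 1 1 = true :=
  ⟨(b (b (a (a (a (b (l 16489880) (l 16528552)) (b (l 16406832) (l 16447896))) (a (b (l 16350528) (l 16385504)) (b (l 16296768) (l 16310288)))) (a (a (b (l 16209856) (l 16224856)) (a (l 16136464) (l 4))) (l 4))) (a (a (b (a (l 16529384) (l 16452624)) (a (l 16457984) (l 16418368))) (a (b (l 16385072) (b (l 16362304) (l 16323416))) (b (a (l 16321456) (l 16275864)) (a (l 16276904) (l 16219952))))) (b (a (a (a (l 16225208) (l 16171480)) (a (l 16122440) (l 16071856))) (a (a (l 16099784) (l 4)) (l 4))) (a (a (b (l 16152144) (l 16108248)) (a (l 16049112) (l 15895512)))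 (a (a (l 16125728) (a (l 15913008) (l 15983288))) (b (l 4) (l 1))))))) (b (a (a (b (a (b (l 16385664) (l 16323840)) (b (l 16338248) (l 16243848))) (a (b (l 16245544) (l 16153000)) (b (l 16133840) (l 16009632)))) (a (b (b (l 16262376) (l 16164216)) (b (l 16018032) (l 15876456))) (b (a (l 16137808) (l 16090288)) (b (l 15923456) (l 15749816))))) (b (a (a (b (l 16048952) (l 15954880)) (a (b (l 15957576) (l 15860488)) (b (l 15896528) (l 15784184)))) (a (a (b (l 15850856) (l 1)) (l 1)) (l 1))) (a (a (b (l 15819640) (l 15633016)) (a (l 68213991863) (l 1))) (l 1)))) (a (a (b (b (a (l 16037928) (l 15880880)) (a (l 15935752) (l 15741816))) (b (a (l 15842736) (l 15590400)) (a (l 15638744) (l 15427584)))) (b (b (a (l 15725208) (l 15571448)) (l 15475720)) (b (a (l 15389680) (l 1)) (l 1)))) (l 1)))), by decide +kernel⟩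

theorem c_pp_033 : CertB 0 536870912 0 1230186008 818728140 40265320 3 eng mog cd0q0 cd4q3 pd3 false true true .pnn 0 3 3
    ndB0q0 ndB4q3 pcB3 cut_pp_033 Ext.none :=
  certB2 (fam := false) (s1 := true) (s2 := true) (a := 0) (b := 3) (c := 3) (cn := .pnn) (n1 := ndB0q0) (n2 := ndB4q3) (pc := pcB3) (cut := cut_pp_033) (xt := Ext.none) (P1 := 0) (W1 := 536870912) (P2 := 0) (W2 := 1230186008) (P3 := 818728140) (W3 := 40265320) (N0 := 3) (En := eng) (mo := mog) (C1 := cd0q0) (C2 := cd4q3) (C3 := pd3)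
    rfl (fun _ => rfl) k0_pp_033

noncomputable def cut_pp_101 : Cut := Cut.of [[⟨3, 0, 0, 1449551462⟩]]

noncomputable def f_pp_101 : ℕ → ℕ → ℕ → ℕ → Bool := onCell 536870912 536870912 0 536870912 818728140 40265320
    (rowB 3 eng mog cd0q1 cd4q1 pd0 1 false true true .npn 1 0 1 (qsf 536870912 536870912 536870912 536870912 0) ndB0q1 ndB4q1 pcB0 cut_pp_101 Ext.none)

def k0_pp_101 : ∃ t, chk3 f_pp_101 t 1 1 1 = true :=
  ⟨(l 6), by decide +kernel⟩

theorem c_pp_101 : CertB 536870912 536870912 536870912 536870912 818728140 40265320 3 eng mog cd0q1 cd4q1 pd0 false true true .npn 1 0 1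
    ndB0q1 ndB4q1 pcB0 cut_pp_101 Ext.none :=
  certB1 (fam := false) (s1 := true) (s2 := true) (a := 1) (b := 0) (c := 1) (cn := .npn) (n1 := ndB0q1) (n2 := ndB4q1) (pc := pcB0) (cut := cut_pp_101) (xt := Ext.none) (P1 := 536870912) (W1 := 536870912) (P2 := 536870912) (W2 := 536870912) (P3 := 818728140) (W3 := 40265320) (N0 := 3) (En := eng) (mo := mog) (C1 := cd0q1) (C2 := cd4q1) (C3 := pd0)
    rfl (fun _ => rfl) k0_pp_101

noncomputable def cut_pp_102 : Cut := Cut.of [[⟨3, 0, 0, 1449551462⟩]]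

noncomputable def f_pp_102 : ℕ → ℕ → ℕ → ℕ → Bool := onCell 536870912 536870912 1073741824 536870912 818728140 40265320
    (rowB 3 eng mog cd0q1 cd4q2 pd0 0 false true true .npp 1 0 2 (qsf 536870912 536870912 1073741824 536870912 0) ndB0q1 ndB4q2 pcB0 cut_pp_102 Ext.none)

def k0_pp_102 : ∃ t, chk3 f_pp_102 t 1 1 1 = true :=
  ⟨(l 6), by decide +kernel⟩

theorem c_pp_102 : CertB 536870912 536870912 1073741824 536870912 818728140 40265320 3 eng mog cd0q1 cd4q2 pd0 false true true .npp 1 0 2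
    ndB0q1 ndB4q2 pcB0 cut_pp_102 Ext.none :=
  certB0 (fam := false) (s1 := true) (s2 := true) (a := 1) (b := 0) (c := 2) (cn := .npp) (n1 := ndB0q1) (n2 := ndB4q2) (pc := pcB0) (cut := cut_pp_102) (xt := Ext.none) (P1 := 536870912) (W1 := 536870912) (P2 := 1073741824) (W2 := 536870912) (P3 := 818728140) (W3 := 40265320) (N0 := 3) (En := eng) (mo := mog) (C1 := cd0q1) (C2 := cd4q2) (C3 := pd0)
    rfl k0_pp_102

noncomputable def cut_pp_112 : Cut := Cut.of [[⟨3, 0, 0, 1449551462⟩]]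

noncomputable def f_pp_112 : ℕ → ℕ → ℕ → ℕ → Bool := onCell 536870912 536870912 1073741824 536870912 818728140 40265320
    (rowB 3 eng mog cd0q1 cd4q2 pd1 0 false true true .dn 1 1 2 (qsf 536870912 536870912 1073741824 536870912 1) ndB0q1 ndB4q2 pcB1 cut_pp_112 Ext.none)

def k0_pp_112 : ∃ t, chk3 f_pp_112 t 1 1 1 = true :=
  ⟨(l 6), by decide +kernel⟩

theorem c_pp_112 : CertB 536870912 536870912 1073741824 536870912 818728140 40265320 3 eng mog cd0q1 cd4q2 pd1 false true true .dn 1 1 2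
    ndB0q1 ndB4q2 pcB1 cut_pp_112 Ext.none :=
  certB0 (fam := false) (s1 := true) (s2 := true) (a := 1) (b := 1) (c := 2) (cn := .dn) (n1 := ndB0q1) (n2 := ndB4q2) (pc := pcB1) (cut := cut_pp_112) (xt := Ext.none) (P1 := 536870912) (W1 := 536870912) (P2 := 1073741824) (W2 := 536870912) (P3 := 818728140) (W3 := 40265320) (N0 := 3) (En := eng) (mo := mog) (C1 := cd0q1) (C2 := cd4q2) (C3 := pd1)
    rfl k0_pp_112

noncomputable def cut_pp_113 : Cut := Cut.of [[⟨3, 0, 0, 1449551462⟩], [⟨0, 1, 0, 67108864⟩, ⟨1, 1, 0, 67108864⟩, ⟨2, 2, 0, 16777216⟩]]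

noncomputable def f_pp_113 : ℕ → ℕ → ℕ → ℕ → Bool := onCell 536870912 536870912 0 1230186008 818728140 40265320
    (rowB 3 eng mog cd0q1 cd4q3 pd1 0 false true true .nn 1 1 3 (qsf 536870912 536870912 0 1230186008 1) ndB0q1 ndB4q3 pcB1 cut_pp_113 Ext.none)

def k0_pp_113 : ∃ t, chk3 f_pp_113 t 1 1 1 = true :=
  ⟨(b (a (l 2) (a (l 2) (b (a (l 2) (l 6)) (l 6)))) (b (a (a (l 2) (l 6)) (l 6)) (l 6))), by decide +kernel⟩

theorem c_pp_113 : CertB 536870912 536870912 0 1230186008 818728140 40265320 3 eng mog cd0q1 cd4q3 pd1 false true true .nn 1 1 3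
    ndB0q1 ndB4q3 pcB1 cut_pp_113 Ext.none :=
  certB0 (fam := false) (s1 := true) (s2 := true) (a := 1) (b := 1) (c := 3) (cn := .nn) (n1 := ndB0q1) (n2 := ndB4q3) (pc := pcB1) (cut := cut_pp_113) (xt := Ext.none) (P1 := 536870912) (W1 := 536870912) (P2 := 0) (W2 := 1230186008) (P3 := 818728140) (W3 := 40265320) (N0 := 3) (En := eng) (mo := mog) (C1 := cd0q1) (C2 := cd4q3) (C3 := pd1)
    rfl k0_pp_113

noncomputable def cut_pp_123 : Cut := Cut.of [[⟨3, 0, 0, 1449551462⟩], [⟨0, 1, 0, 67108864⟩, ⟨1, 1, 0, 67108864⟩, ⟨2, 2, 0, 16777216⟩]]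

noncomputable def f_pp_123 : ℕ → ℕ → ℕ → ℕ → Bool := onCell 536870912 536870912 0 1230186008 818728140 40265320
    (rowB 3 eng mog cd0q1 cd4q3 pd2 0 false true true .npn 1 2 3 (qsf 536870912 536870912 0 1230186008 2) ndB0q1 ndB4q3 pcB2 cut_pp_123 Ext.none)

def k0_pp_123 : ∃ t, chk3 f_pp_123 t 1 1 1 = true :=
  ⟨(b (a (a (b (a (b (l 16481608) (l 16567616)) (b (l 16509304) (l 16577832))) (b (a (l 16560608) (l 16573664)) (a (l 16564560) (l 16595648)))) (b (a (b (l 16534112) (l 16583360)) (b (l 16577968) (l 16611112))) (b (a (b (l 16591144) (l 16604288)) (b (l 16632472) (a (l 16644080) (l 6)))) (a (b (l 16624328) (a (l 16637488) (l 6))) (l 6))))) (a (b (b (a (l 16618728) (a (b (l 16632880) (l 16658320)) (a (b (l 16650464) (l 16611424)) (l 16677592)))) (a (l 16503904) (a (b (a (l 16667448) (l 6)) (l 6)) (l 6)))) (a (b (b (l 6) (l 6)) (l 6)) (l 6))) (b (a (b (a (b (l 16683912) (l 6)) (l 6)) (l 6)) (l 6)) (l 6)))) (a (b (a (b (a (b (l 16588144) (l 16513888))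 (b (l 16633544) (l 6))) (b (l 6) (l 6))) (l 6)) (l 6)) (l 6))), by decide +kernel⟩

theorem c_pp_123 : CertB 536870912 536870912 0 1230186008 818728140 40265320 3 eng mog cd0q1 cd4q3 pd2 false true true .npn 1 2 3
    ndB0q1 ndB4q3 pcB2 cut_pp_123 Ext.none :=
  certB0 (fam := false) (s1 := true) (s2 := true) (a := 1) (b := 2) (c := 3) (cn := .npn) (n1 := ndB0q1) (n2 := ndB4q3) (pc := pcB2) (cut := cut_pp_123) (xt := Ext.none) (P1 := 536870912) (W1 := 536870912) (P2 := 0) (W2 := 1230186008) (P3 := 818728140) (W3 := 40265320) (N0 := 3) (En := eng) (mo := mog) (C1 := cd0q1) (C2 := cd4q3) (C3 := pd2)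
    rfl k0_pp_123

noncomputable def cut_pp_133 : Cut := Cut.of [[⟨3, 0, 0, 1449551462⟩]]

noncomputable def f_pp_133 : ℕ → ℕ → ℕ → ℕ → Bool := onCell 536870912 536870912 0 1230186008 818728140 40265320
    (rowB 3 eng mog cd0q1 cd4q3 pd3 0 false true true .dn 1 3 3 (qsf 536870912 536870912 0 1230186008 3) ndB0q1 ndB4q3 pcB3 cut_pp_133 Ext.none)

def k0_pp_133 : ∃ t, chk3 f_pp_133 t 1 1 1 = true :=
  ⟨(b (b (a (a (a (b (l 16566472) (l 1)) (l 1)) (l 1)) (l 1)) (l 1)) (l 1)), by decide +kernel⟩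

theorem c_pp_133 : CertB 536870912 536870912 0 1230186008 818728140 40265320 3 eng mog cd0q1 cd4q3 pd3 false true true .dn 1 3 3
    ndB0q1 ndB4q3 pcB3 cut_pp_133 Ext.none :=
  certB0 (fam := false) (s1 := true) (s2 := true) (a := 1) (b := 3) (c := 3) (cn := .dn) (n1 := ndB0q1) (n2 := ndB4q3) (pc := pcB3) (cut := cut_pp_133) (xt := Ext.none) (P1 := 536870912) (W1 := 536870912) (P2 := 0) (W2 := 1230186008) (P3 := 818728140) (W3 := 40265320) (N0 := 3) (En := eng) (mo := mog) (C1 := cd0q1) (C2 := cd4q3) (C3 := pd3)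
    rfl k0_pp_133

noncomputable def cut_pp_202 : Cut := Cut.of [[⟨3, 0, 0, 1449551462⟩]]

noncomputable def f_pp_202 : ℕ → ℕ → ℕ → ℕ → Bool := onCell 0 536870912 1073741824 536870912 818728140 40265320
    (rowB 3 eng mog cd0q2 cd4q2 pd0 0 false true true .pp 2 0 2 (qsf 0 536870912 1073741824 536870912 0) ndB0q2 ndB4q2 pcB0 cut_pp_202 Ext.none)

def k0_pp_202 : ∃ t, chk3 f_pp_202 t 1 1 1 = true :=
  ⟨(l 5), by decide +kernel⟩

theorem c_pp_202 : CertB 0 536870912 1073741824 536870912 818728140 40265320 3 eng mog cd0q2 cd4q2 pd0 false true true .pp 2 0 2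
    ndB0q2 ndB4q2 pcB0 cut_pp_202 Ext.none :=
  certB0 (fam := false) (s1 := true) (s2 := true) (a := 2) (b := 0) (c := 2) (cn := .pp) (n1 := ndB0q2) (n2 := ndB4q2) (pc := pcB0) (cut := cut_pp_202) (xt := Ext.none) (P1 := 0) (W1 := 536870912) (P2 := 1073741824) (W2 := 536870912) (P3 := 818728140) (W3 := 40265320) (N0 := 3) (En := eng) (mo := mog) (C1 := cd0q2) (C2 := cd4q2) (C3 := pd0)
    rfl k0_pp_202

noncomputable def cut_pp_203 : Cut := Cut.of [[⟨3, 0, 0, 1449551462⟩]]

noncomputable def f_pp_203 : ℕ → ℕ → ℕ → ℕ → Bool := onCell 0 536870912 0 1230186008 818728140 40265320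
    (rowB 3 eng mog cd0q2 cd4q3 pd0 0 false true true .up 2 0 3 (qsf 0 536870912 0 1230186008 0) ndB0q2 ndB4q3 pcB0 cut_pp_203 Ext.none)

def k0_pp_203 : ∃ t, chk3 f_pp_203 t 1 1 1 = true :=
  ⟨(b (l 2) (a (l 5) (l 6))), by decide +kernel⟩

theorem c_pp_203 : CertB 0 536870912 0 1230186008 818728140 40265320 3 eng mog cd0q2 cd4q3 pd0 false true true .up 2 0 3
    ndB0q2 ndB4q3 pcB0 cut_pp_203 Ext.none :=
  certB0 (fam := false) (s1 := true) (s2 := true) (a := 2) (b := 0) (c := 3) (cn := .up) (n1 := ndB0q2) (n2 := ndB4q3) (pc := pcB0) (cut := cut_pp_203) (xt := Ext.none) (P1 := 0) (W1 := 536870912) (P2 := 0) (W2 := 1230186008) (P3 := 818728140) (W3 := 40265320) (N0 := 3) (En := eng) (mo := mog) (C1 := cd0q2) (C2 := cd4q3) (C3 := pd0)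
    rfl k0_pp_203

noncomputable def cut_pp_213 : Cut := Cut.of [[⟨3, 0, 0, 1449551462⟩], [⟨0, 1, 0, 67108864⟩, ⟨1, 1, 0, 67108864⟩, ⟨2, 2, 0, 16777216⟩]]

noncomputable def f_pp_213 : ℕ → ℕ → ℕ → ℕ → Bool := onCell 0 536870912 0 1230186008 818728140 40265320
    (rowB 3 eng mog cd0q2 cd4q3 pd1 0 false true true .pnn 2 1 3 (qsf 0 536870912 0 1230186008 1) ndB0q2 ndB4q3 pcB1 cut_pp_213 Ext.none)

def k0_pp_213 : ∃ t, chk3 f_pp_213 t 1 1 1 = true :=
  ⟨(b (l 6) (a (l 5) (l 6))), by decide +kernel⟩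

theorem c_pp_213 : CertB 0 536870912 0 1230186008 818728140 40265320 3 eng mog cd0q2 cd4q3 pd1 false true true .pnn 2 1 3
    ndB0q2 ndB4q3 pcB1 cut_pp_213 Ext.none :=
  certB0 (fam := false) (s1 := true) (s2 := true) (a := 2) (b := 1) (c := 3) (cn := .pnn) (n1 := ndB0q2) (n2 := ndB4q3) (pc := pcB1) (cut := cut_pp_213) (xt := Ext.none) (P1 := 0) (W1 := 536870912) (P2 := 0) (W2 := 1230186008) (P3 := 818728140) (W3 := 40265320) (N0 := 3) (En := eng) (mo := mog) (C1 := cd0q2) (C2 := cd4q3) (C3 := pd1)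
    rfl k0_pp_213

noncomputable def cut_pm_001 : Cut := Cut.of [[⟨3, 0, 0, 1449551462⟩]]

noncomputable def f_pm_001 : ℕ → ℕ → ℕ → ℕ → Bool := onCell 0 536870912 536870912 536870912 818728140 40265320
    (rowB 3 eng mog cd0q0 cd4q1 pd0 0 false true false .up 0 0 1 (qsf 0 536870912 536870912 536870912 0) ndB0q0 ndB4q1 pcB0 cut_pm_001 Ext.none)

def k0_pm_001 : ∃ t, chk3 f_pm_001 t 1 1 1 = true :=
  ⟨(l 4), by decide +kernel⟩

theorem c_pm_001 : CertB 0 536870912 536870912 536870912 818728140 40265320 3 eng mog cd0q0 cd4q1 pd0 false true false .up 0 0 1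
    ndB0q0 ndB4q1 pcB0 cut_pm_001 Ext.none :=
  certB0 (fam := false) (s1 := true) (s2 := false) (a := 0) (b := 0) (c := 1) (cn := .up) (n1 := ndB0q0) (n2 := ndB4q1) (pc := pcB0) (cut := cut_pm_001) (xt := Ext.none) (P1 := 0) (W1 := 536870912) (P2 := 536870912) (W2 := 536870912) (P3 := 818728140) (W3 := 40265320) (N0 := 3) (En := eng) (mo := mog) (C1 := cd0q0) (C2 := cd4q1) (C3 := pd0)
    rfl k0_pm_001

noncomputable def cut_pm_011 : Cut := Cut.of [[⟨3, 0, 0, 1449551462⟩]]

noncomputable def f_pm_011 : ℕ → ℕ → ℕ → ℕ → Bool := onCell 0 536870912 536870912 536870912 818728140 40265320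
    (rowB 3 eng mog cd0q0 cd4q1 pd1 0 false true false .pnn 0 1 1 (qsf 0 536870912 536870912 536870912 1) ndB0q0 ndB4q1 pcB1 cut_pm_011 Ext.none)

def k0_pm_011 : ∃ t, chk3 f_pm_011 t 1 1 1 = true :=
  ⟨(l 4), by decide +kernel⟩

theorem c_pm_011 : CertB 0 536870912 536870912 536870912 818728140 40265320 3 eng mog cd0q0 cd4q1 pd1 false true false .pnn 0 1 1
    ndB0q0 ndB4q1 pcB1 cut_pm_011 Ext.none :=
  certB0 (fam := false) (s1 := true) (s2 := false) (a := 0) (b := 1) (c := 1) (cn := .pnn) (n1 := ndB0q0) (n2 := ndB4q1) (pc := pcB1) (cut := cut_pm_011) (xt := Ext.none) (P1 := 0) (W1 := 536870912) (P2 := 536870912) (W2 := 536870912) (P3 := 818728140) (W3 := 40265320) (N0 := 3) (En := eng) (mo := mog) (C1 := cd0q0) (C2 := cd4q1) (C3 := pd1)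
    rfl k0_pm_011

noncomputable def cut_pm_012 : Cut := Cut.of [[⟨3, 0, 0, 1449551462⟩]]

noncomputable def f_pm_012 : ℕ → ℕ → ℕ → ℕ → Bool := onCell 0 536870912 1073741824 536870912 818728140 40265320
    (rowB 3 eng mog cd0q0 cd4q2 pd1 0 false true false .pnp 0 1 2 (qsf 0 536870912 1073741824 536870912 1) ndB0q0 ndB4q2 pcB1 cut_pm_012 Ext.none)

def k0_pm_012 : ∃ t, chk3 f_pm_012 t 1 1 1 = true :=
  ⟨(l 4), by decide +kernel⟩

theorem c_pm_012 : CertB 0 536870912 1073741824 536870912 818728140 40265320 3 eng mog cd0q0 cd4q2 pd1 false true false .pnp 0 1 2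
    ndB0q0 ndB4q2 pcB1 cut_pm_012 Ext.none :=
  certB0 (fam := false) (s1 := true) (s2 := false) (a := 0) (b := 1) (c := 2) (cn := .pnp) (n1 := ndB0q0) (n2 := ndB4q2) (pc := pcB1) (cut := cut_pm_012) (xt := Ext.none) (P1 := 0) (W1 := 536870912) (P2 := 1073741824) (W2 := 536870912) (P3 := 818728140) (W3 := 40265320) (N0 := 3) (En := eng) (mo := mog) (C1 := cd0q0) (C2 := cd4q2) (C3 := pd1)
    rfl k0_pm_012

noncomputable def cut_pm_022 : Cut := Cut.of [[⟨3, 0, 0, 1449551462⟩]]

noncomputable def f_pm_022 : ℕ → ℕ → ℕ → ℕ → Bool := onCell 0 536870912 1073741824 536870912 818728140 40265320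
    (rowB 3 eng mog cd0q0 cd4q2 pd2 0 false true false .pp 0 2 2 (qsf 0 536870912 1073741824 536870912 2) ndB0q0 ndB4q2 pcB2 cut_pm_022 Ext.none)

def k0_pm_022 : ∃ t, chk3 f_pm_022 t 1 1 1 = true :=
  ⟨(l 4), by decide +kernel⟩

theorem c_pm_022 : CertB 0 536870912 1073741824 536870912 818728140 40265320 3 eng mog cd0q0 cd4q2 pd2 false true false .pp 0 2 2
    ndB0q0 ndB4q2 pcB2 cut_pm_022 Ext.none :=
  certB0 (fam := false) (s1 := true) (s2 := false) (a := 0) (b := 2) (c := 2) (cn := .pp) (n1 := ndB0q0) (n2 := ndB4q2) (pc := pcB2) (cut := cut_pm_022) (xt := Ext.none) (P1 := 0) (W1 := 536870912) (P2 := 1073741824) (W2 := 536870912) (P3 := 818728140) (W3 := 40265320) (N0 := 3) (En := eng) (mo := mog) (C1 := cd0q0) (C2 := cd4q2) (C3 := pd2)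
    rfl k0_pm_022

noncomputable def cut_pm_023 : Cut := Cut.of [[⟨3, 0, 0, 1449551462⟩]]

noncomputable def f_pm_023 : ℕ → ℕ → ℕ → ℕ → Bool := onCell 0 536870912 0 1230186008 818728140 40265320
    (rowB 3 eng mog cd0q0 cd4q3 pd2 0 false true false .up 0 2 3 (qsf 0 536870912 0 1230186008 2) ndB0q0 ndB4q3 pcB2 cut_pm_023 Ext.none)

def k0_pm_023 : ∃ t, chk3 f_pm_023 t 1 1 1 = true :=
  ⟨(a (b (l 2) (l 4)) (b (a (l 2) (b (a (l 2) (l 16401624)) (a (l 4) (l 4)))) (l 4))), by decide +kernel⟩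

theorem c_pm_023 : CertB 0 536870912 0 1230186008 818728140 40265320 3 eng mog cd0q0 cd4q3 pd2 false true false .up 0 2 3
    ndB0q0 ndB4q3 pcB2 cut_pm_023 Ext.none :=
  certB0 (fam := false) (s1 := true) (s2 := false) (a := 0) (b := 2) (c := 3) (cn := .up) (n1 := ndB0q0) (n2 := ndB4q3) (pc := pcB2) (cut := cut_pm_023) (xt := Ext.none) (P1 := 0) (W1 := 536870912) (P2 := 0) (W2 := 1230186008) (P3 := 818728140) (W3 := 40265320) (N0 := 3) (En := eng) (mo := mog) (C1 := cd0q0) (C2 := cd4q3) (C3 := pd2)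
    rfl k0_pm_023

noncomputable def cut_pm_033 : Cut := Cut.of [[⟨3, 0, 0, 1449551462⟩]]

noncomputable def f_pm_033 : ℕ → ℕ → ℕ → ℕ → Bool := onCell 1610612736 536870912 0 1230186008 818728140 40265320
    (rowB 3 eng mog cd0q0 cd4q3 pd3 2 false true false .pnn 0 3 3 (qsf 0 536870912 0 1230186008 3) ndB0q0 ndB4q3 pcB3 cut_pm_033 Ext.none)

def k0_pm_033 : ∃ t, chk3 f_pm_033 t 1 1 1 = true :=
  ⟨(b (b (a (a (a (l 16409488) (b (l 16346352) (l 16302192))) (a (l 16186240) (l 4))) (l 4)) (l 4)) (l 4)), by decide +kernel⟩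

theorem c_pm_033 : CertB 0 536870912 0 1230186008 818728140 40265320 3 eng mog cd0q0 cd4q3 pd3 false true false .pnn 0 3 3
    ndB0q0 ndB4q3 pcB3 cut_pm_033 Ext.none :=
  certB2 (fam := false) (s1 := true) (s2 := false) (a := 0) (b := 3) (c := 3) (cn := .pnn) (n1 := ndB0q0) (n2 := ndB4q3) (pc := pcB3) (cut := cut_pm_033) (xt := Ext.none) (P1 := 0) (W1 := 536870912) (P2 := 0) (W2 := 1230186008) (P3 := 818728140) (W3 := 40265320) (N0 := 3) (En := eng) (mo := mog) (C1 := cd0q0) (C2 := cd4q3) (C3 := pd3)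
    rfl (fun _ => rfl) k0_pm_033

noncomputable def cut_pm_101 : Cut := Cut.of [[⟨3, 0, 0, 1449551462⟩]]

noncomputable def f_pm_101 : ℕ → ℕ → ℕ → ℕ → Bool := onCell 536870912 536870912 536870912 536870912 818728140 40265320
    (rowB 3 eng mog cd0q1 cd4q1 pd0 0 false true false .npn 1 0 1 (qsf 536870912 536870912 536870912 536870912 0) ndB0q1 ndB4q1 pcB0 cut_pm_101 Ext.none)

def k0_pm_101 : ∃ t, chk3 f_pm_101 t 1 1 1 = true :=
  ⟨(l 4), by decide +kernel⟩

theorem c_pm_101 : CertB 536870912 536870912 536870912 536870912 818728140 40265320 3 eng mog cd0q1 cd4q1 pd0 false true false .npn 1 0 1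
    ndB0q1 ndB4q1 pcB0 cut_pm_101 Ext.none :=
  certB0 (fam := false) (s1 := true) (s2 := false) (a := 1) (b := 0) (c := 1) (cn := .npn) (n1 := ndB0q1) (n2 := ndB4q1) (pc := pcB0) (cut := cut_pm_101) (xt := Ext.none) (P1 := 536870912) (W1 := 536870912) (P2 := 536870912) (W2 := 536870912) (P3 := 818728140) (W3 := 40265320) (N0 := 3) (En := eng) (mo := mog) (C1 := cd0q1) (C2 := cd4q1) (C3 := pd0)
    rfl k0_pm_101

noncomputable def cut_pm_102 : Cut := Cut.of [[⟨3, 0, 0, 1449551462⟩]]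

noncomputable def f_pm_102 : ℕ → ℕ → ℕ → ℕ → Bool := onCell 536870912 536870912 0 536870912 818728140 40265320
    (rowB 3 eng mog cd0q1 cd4q2 pd0 1 false true false .npp 1 0 2 (qsf 536870912 536870912 1073741824 536870912 0) ndB0q1 ndB4q2 pcB0 cut_pm_102 Ext.none)

def k0_pm_102 : ∃ t, chk3 f_pm_102 t 1 1 1 = true :=
  ⟨(a (l 4) (b (l 4) (a (l 4) (b (l 4) (a (l 4) (b (l 4) (l 15892584))))))), by decide +kernel⟩

theorem c_pm_102 : CertB 536870912 536870912 1073741824 536870912 818728140 40265320 3 eng mog cd0q1 cd4q2 pd0 false true false .npp 1 0 2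
    ndB0q1 ndB4q2 pcB0 cut_pm_102 Ext.none :=
  certB1 (fam := false) (s1 := true) (s2 := false) (a := 1) (b := 0) (c := 2) (cn := .npp) (n1 := ndB0q1) (n2 := ndB4q2) (pc := pcB0) (cut := cut_pm_102) (xt := Ext.none) (P1 := 536870912) (W1 := 536870912) (P2 := 1073741824) (W2 := 536870912) (P3 := 818728140) (W3 := 40265320) (N0 := 3) (En := eng) (mo := mog) (C1 := cd0q1) (C2 := cd4q2) (C3 := pd0)
    rfl (fun _ => rfl) k0_pm_102

noncomputable def cut_pm_112 : Cut := Cut.of [[⟨3, 0, 0, 1449551462⟩]]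

noncomputable def f_pm_112 : ℕ → ℕ → ℕ → ℕ → Bool := onCell 536870912 536870912 1073741824 536870912 818728140 40265320
    (rowB 3 eng mog cd0q1 cd4q2 pd1 0 false true false .dn 1 1 2 (qsf 536870912 536870912 1073741824 536870912 1) ndB0q1 ndB4q2 pcB1 cut_pm_112 Ext.none)

def k0_pm_112 : ∃ t, chk3 f_pm_112 t 1 1 1 = true :=
  ⟨(a (l 4) (b (l 4) (a (l 4) (b (l 4) (a (l 4) (b (l 4) (l 15886856))))))), by decide +kernel⟩

theorem c_pm_112 : CertB 536870912 536870912 1073741824 536870912 818728140 40265320 3 eng mog cd0q1 cd4q2 pd1 false true false .dn 1 1 2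
    ndB0q1 ndB4q2 pcB1 cut_pm_112 Ext.none :=
  certB0 (fam := false) (s1 := true) (s2 := false) (a := 1) (b := 1) (c := 2) (cn := .dn) (n1 := ndB0q1) (n2 := ndB4q2) (pc := pcB1) (cut := cut_pm_112) (xt := Ext.none) (P1 := 536870912) (W1 := 536870912) (P2 := 1073741824) (W2 := 536870912) (P3 := 818728140) (W3 := 40265320) (N0 := 3) (En := eng) (mo := mog) (C1 := cd0q1) (C2 := cd4q2) (C3 := pd1)
    rfl k0_pm_112

noncomputable def cut_pm_113 : Cut := Cut.of [[⟨3, 0, 0, 1449551462⟩], [⟨0, 1, 0, 67108864⟩, ⟨1, 1, 0, 67108864⟩, ⟨2, 2, 0, 16777216⟩]]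

noncomputable def f_pm_113 : ℕ → ℕ → ℕ → ℕ → Bool := onCell 536870912 536870912 0 1230186008 818728140 40265320
    (rowB 3 eng mog cd0q1 cd4q3 pd1 0 false true false .nn 1 1 3 (qsf 536870912 536870912 0 1230186008 1) ndB0q1 ndB4q3 pcB1 cut_pm_113 Ext.none)

def k0_pm_113 : ∃ t, chk3 f_pm_113 t 1 1 1 = true :=
  ⟨(b (a (l 2) (a (l 2) (b (a (l 2) (a (l 2) (b (l 6) (b (l 14) (l 16763984))))) (a (b (a (l 2) (l 16550160)) (l 332959312007)) (b (a (l 262093492919) (b (l 16768800) (l 16762248))) (a (l 16572288) (l 16705752))))))) (b (b (a (l 2) (a (a (l 2) (b (l 15997864) (l 15937528))) (a (l 208941913991) (l 16534840)))) (a (l 4) (a (a (b (l 349064264487) (l 15551960)) (b (l 15879384) (a (l 15777608) (l 15910048)))) (a (b (l 16181128) (l 16136816)) (l 16438152))))) (a (l 4) (a (b (a (l 4) (b (a (l 15792576) (l 15909576)) (l 15811744))) (l 4)) (b (a (b (a (l 16042752) (l 16170352)) (l 16117400)) (b (l 16381168) (a (l 16287208) (l 16411424)))) (b (a (l 16001744)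 (a (l 16185128) (l 16283248))) (a (l 4) (l 16035848)))))))), by decide +kernel⟩

theorem c_pm_113 : CertB 536870912 536870912 0 1230186008 818728140 40265320 3 eng mog cd0q1 cd4q3 pd1 false true false .nn 1 1 3
    ndB0q1 ndB4q3 pcB1 cut_pm_113 Ext.none :=
  certB0 (fam := false) (s1 := true) (s2 := false) (a := 1) (b := 1) (c := 3) (cn := .nn) (n1 := ndB0q1) (n2 := ndB4q3) (pc := pcB1) (cut := cut_pm_113) (xt := Ext.none) (P1 := 536870912) (W1 := 536870912) (P2 := 0) (W2 := 1230186008) (P3 := 818728140) (W3 := 40265320) (N0 := 3) (En := eng) (mo := mog) (C1 := cd0q1) (C2 := cd4q3) (C3 := pd1)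
    rfl k0_pm_113

noncomputable def cut_pm_123 : Cut := Cut.of [[⟨3, 0, 0, 1449551462⟩], [⟨0, 1, 0, 67108864⟩, ⟨1, 1, 0, 67108864⟩, ⟨2, 2, 0, 16777216⟩]]

noncomputable def f_pm_123 : ℕ → ℕ → ℕ → ℕ → Bool := onCell 1073741824 536870912 0 1230186008 818728140 40265320
    (rowB 3 eng mog cd0q1 cd4q3 pd2 2 false true false .npn 1 2 3 (qsf 536870912 536870912 0 1230186008 2) ndB0q1 ndB4q3 pcB2 cut_pm_123 Ext.none)

def k0_pm_123 : ∃ t, chk3 f_pm_123 t 1 1 1 = true :=
  ⟨(b (a (a (b (a (b (a (l 6) (b (l 6) (l 16654688))) (a (b (l 14) (l 16550880)) (b (l 16596992) (l 16525720)))) (b (a (l 16652048) (l 16581616)) (a (l 16378336) (l 16506392)))) (a (b (a (b (l 16469016) (l 16374808)) (b (l 16442016) (l 16344344))) (b (a (b (l 16294712) (l 16240552)) (l 16322520)) (a (l 16145328) (l 16114192)))) (b (b (a (l 16412592) (l 16387736)) (a (l 16522608) (l 16297136))) (a (a (l 16156344) (l 16145280)) (l 16131728))))) (b (a (a (b (b (l 16711088) (l 16572360)) (l 16483312))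 (b (l 16571584) (l 16464056))) (b (l 16541752) (a (l 16443048) (l 16429768)))) (b (a (b (a (l 16365984) (l 16356992)) (l 16250672)) (b (l 16339608) (l 16237072))) (a (a (l 16121232) (l 16105864)) (a (l 16088448) (l 16090136)))))) (a (b (b (a (l 16500232) (l 16461808)) (a (a (l 16418216) (l 16400848)) (l 16377408))) (a (b (l 16267328) (a (l 16104664) (l 16115016))) (b (l 16254344) (a (l 16146656) (l 16178656))))) (b (a (b (l 16440696) (l 16361296)) (b (l 16421904) (l 16349832))) (b (a (l 16278416) (l 16279576)) (l 4))))) (b (a (a (b (a (b (a (l 16006512) (l 15975960)) (l 15824520)) (b (l 15952576) (a (l 15802312) (l 15802632)))) (b (a (b (l 15691776) (l 15615840)) (b (l 4) (l 4))) (l 4))) (b (a (b (l 15922656) (l 15826888)) (b (l 15960496) (l 4))) (l 4))) (l 4)) (l 4))), by decide +kernel⟩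

theorem c_pm_123 : CertB 536870912 536870912 0 1230186008 818728140 40265320 3 eng mog cd0q1 cd4q3 pd2 false true false .npn 1 2 3
    ndB0q1 ndB4q3 pcB2 cut_pm_123 Ext.none :=
  certB2 (fam := false) (s1 := true) (s2 := false) (a := 1) (b := 2) (c := 3) (cn := .npn) (n1 := ndB0q1) (n2 := ndB4q3) (pc := pcB2) (cut := cut_pm_123) (xt := Ext.none) (P1 := 536870912) (W1 := 536870912) (P2 := 0) (W2 := 1230186008) (P3 := 818728140) (W3 := 40265320) (N0 := 3) (En := eng) (mo := mog) (C1 := cd0q1) (C2 := cd4q3) (C3 := pd2)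
    rfl (fun _ => rfl) k0_pm_123

noncomputable def cut_pm_133 : Cut := Cut.of [[⟨3, 0, 0, 1449551462⟩]]

noncomputable def f_pm_133 : ℕ → ℕ → ℕ → ℕ → Bool := onCell 1610612736 536870912 0 1230186008 818728140 40265320
    (rowB 3 eng mog cd0q1 cd4q3 pd3 2 false true false .dn 1 3 3 (qsf 536870912 536870912 0 1230186008 3) ndB0q1 ndB4q3 pcB3 cut_pm_133 Ext.none)

def k0_pm_133 : ∃ t, chk3 f_pm_133 t 1 1 1 = true :=
  ⟨(b (b (a (a (a (l 16407824) (l 1)) (l 1)) (l 1)) (l 1)) (l 1)), by decide +kernel⟩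

theorem c_pm_133 : CertB 536870912 536870912 0 1230186008 818728140 40265320 3 eng mog cd0q1 cd4q3 pd3 false true false .dn 1 3 3
    ndB0q1 ndB4q3 pcB3 cut_pm_133 Ext.none :=
  certB2 (fam := false) (s1 := true) (s2 := false) (a := 1) (b := 3) (c := 3) (cn := .dn) (n1 := ndB0q1) (n2 := ndB4q3) (pc := pcB3) (cut := cut_pm_133) (xt := Ext.none) (P1 := 536870912) (W1 := 536870912) (P2 := 0) (W2 := 1230186008) (P3 := 818728140) (W3 := 40265320) (N0 := 3) (En := eng) (mo := mog) (C1 := cd0q1) (C2 := cd4q3) (C3 := pd3)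
    rfl (fun _ => rfl) k0_pm_133

noncomputable def cut_pm_202 : Cut := Cut.of [[⟨3, 0, 0, 1449551462⟩]]

noncomputable def f_pm_202 : ℕ → ℕ → ℕ → ℕ → Bool := onCell 0 536870912 0 536870912 818728140 40265320
    (rowB 3 eng mog cd0q2 cd4q2 pd0 1 false true false .pp 2 0 2 (qsf 0 536870912 1073741824 536870912 0) ndB0q2 ndB4q2 pcB0 cut_pm_202 Ext.none)

def k0_pm_202 : ∃ t, chk3 f_pm_202 t 1 1 1 = true :=
  ⟨(a (b (a (b (b (b (a (l 16171032) (l 15829432)) (a (l 16047736) (l 16079752))) (a (l 16251048) (b (l 16012928) (l 16098632)))) (b (b (l 16218232) (a (b (l 16315800) (l 16344416)) (l 16235592))) (b (a (l 16407408) (l 16303952)) (a (l 16438512) (l 16362608))))) (b (b (b (a (l 15652688) (l 15447280)) (l 15914256)) (a (b (l 15865112) (l 15961944)) (l 15728664))) (b (b (a (l 16036608) (l 15879376)) (a (l 16112080) (l 15971712))) (a (b (l 16185184) (l 16253216)) (b (l 16043440) (l 16115400)))))) (b (b (a (b (a (l 16479400) (l 16407600)) (l 16473024)) (b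 (a (l 16312856) (l 16186240)) (a (l 16347160) (l 16237272)))) (a (a (l 16554056) (l 16485864)) (a (l 16397168) (b (l 16278928) (l 16310688))))) (a (l 2) (b (l 16435784) (l 2))))) (b (a (b (b (a (b (l 15208904) (l 15328240)) (b (l 4) (l 15109968))) (a (b (l 15448352) (l 15565792)) (b (l 15214424) (l 15324360)))) (b (a (l 15727776) (b (l 15435936) (l 15546776))) (a (b (l 15870720) (l 15959960)) (l 15700592)))) (b (l 4) (a (b (b (l 4) (l 15336408)) (b (l 15436216) (l 15531744))) (l 4)))) (b (a (b (a (b (l 16030536) (l 16088968)) (l 16004944)) (a (b (l 16145456) (l 16192440)) (b (l 15985400) (l 16034752)))) (b (a (l 15837328) (l 4)) (a (l 15828736) (l 15713256)))) (b (a (a (b (l 16235256) (l 2)) (a (l 16156960) (l 16077096))) (a (b (l 15933984) (l 15998656)) (l 15839392))) (a (l 2) (a (a (l 16138112) (l 16059936)) (l 15987184))))))), by decide +kernel⟩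

theorem c_pm_202 : CertB 0 536870912 1073741824 536870912 818728140 40265320 3 eng mog cd0q2 cd4q2 pd0 false true false .pp 2 0 2
    ndB0q2 ndB4q2 pcB0 cut_pm_202 Ext.none :=
  certB1 (fam := false) (s1 := true) (s2 := false) (a := 2) (b := 0) (c := 2) (cn := .pp) (n1 := ndB0q2) (n2 := ndB4q2) (pc := pcB0) (cut := cut_pm_202) (xt := Ext.none) (P1 := 0) (W1 := 536870912) (P2 := 1073741824) (W2 := 536870912) (P3 := 818728140) (W3 := 40265320) (N0 := 3) (En := eng) (mo := mog) (C1 := cd0q2) (C2 := cd4q2) (C3 := pd0)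
    rfl (fun _ => rfl) k0_pm_202

noncomputable def cut_pm_203 : Cut := Cut.of [[⟨3, 0, 0, 1449551462⟩]]

noncomputable def f_pm_203 : ℕ → ℕ → ℕ → ℕ → Bool := onCell 0 536870912 0 1230186008 818728140 40265320
    (rowB 3 eng mog cd0q2 cd4q3 pd0 0 false true false .up 2 0 3 (qsf 0 536870912 0 1230186008 0) ndB0q2 ndB4q3 pcB0 cut_pm_203 Ext.none)

def k0_pm_203 : ∃ t, chk3 f_pm_203 t 1 1 1 = true :=
  ⟨(b (l 2) (b (l 2) (a (b (b (l 2) (a (a (l 6) (l 262093520871)) (a (l 16690008) (l 16549240)))) (a (b (a (b (l 16671680) (l 16636960)) (l 16600608)) (a (b (l 16606784) (l 16573352)) (l 16526528))) (b (l 16495992) (l 16493880)))) (b (l 2) (a (b (l 16360208) (a (b (l 16312784) (l 16260264)) (l 16258944))) (b (a (l 16279168) (l 2)) (a (b (l 16167344) (l 16085896)) (b (a (l 16143592) (l 2)) (l 16053216))))))))), by decide +kernel⟩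

theorem c_pm_203 : CertB 0 536870912 0 1230186008 818728140 40265320 3 eng mog cd0q2 cd4q3 pd0 false true false .up 2 0 3
    ndB0q2 ndB4q3 pcB0 cut_pm_203 Ext.none :=
  certB0 (fam := false) (s1 := true) (s2 := false) (a := 2) (b := 0) (c := 3) (cn := .up) (n1 := ndB0q2) (n2 := ndB4q3) (pc := pcB0) (cut := cut_pm_203) (xt := Ext.none) (P1 := 0) (W1 := 536870912) (P2 := 0) (W2 := 1230186008) (P3 := 818728140) (W3 := 40265320) (N0 := 3) (En := eng) (mo := mog) (C1 := cd0q2) (C2 := cd4q3) (C3 := pd0)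
    rfl k0_pm_203

noncomputable def cut_pm_213 : Cut := Cut.of [[⟨3, 0, 0, 1449551462⟩], [⟨0, 1, 0, 67108864⟩, ⟨1, 1, 0, 67108864⟩, ⟨2, 2, 0, 16777216⟩]]

noncomputable def f_pm_213 : ℕ → ℕ → ℕ → ℕ → Bool := onCell 0 536870912 0 1230186008 818728140 40265320
    (rowB 3 eng mog cd0q2 cd4q3 pd1 0 false true false .pnn 2 1 3 (qsf 0 536870912 0 1230186008 1) ndB0q2 ndB4q3 pcB1 cut_pm_213 Ext.none)

def k0_pm_213 : ∃ t, chk3 f_pm_213 t 1 1 1 = true :=
  ⟨(b (a (l 6) (b (a (l 6) (l 6)) (a (b (l 6) (a (l 6) (b (l 6) (l 16761384)))) (b (a (b (l 6) (a (l 6) (l 16785280))) (b (a (l 6) (l 16798288)) (l 16796176))) (a (b (l 16782256) (l 16777800)) (b (l 16793624) (l 16770960))))))) (b (a (b (l 6) (a (l 6) (b (a (l 6) (l 16700712)) (a (l 16689360) (l 16647072))))) (b (a (a (b (l 16743240) (l 16716744)) (b (l 16746592) (l 16712824))) (a (b (l 16753416) (l 16707376)) (l 16693512))) (a (b (a (l 16676552) (l 16669408)) (a (l 16624240) (l 16616456))) (a (l 16621712)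 (l 16590816))))) (a (b (a (b (l 6) (a (l 6) (b (l 16633408) (l 16587120)))) (b (a (l 16607208) (l 16587448)) (a (b (l 16578664) (l 16540552)) (l 16512712)))) (a (l 1) (b (l 16438840) (l 1)))) (b (a (b (l 16534776) (l 16444752)) (b (l 16543832) (l 16431352))) (a (b (l 16333552) (l 1)) (b (a (l 16261008) (l 16273504)) (a (b (l 16151144) (l 1)) (l 16086648)))))))), by decide +kernel⟩

theorem c_pm_213 : CertB 0 536870912 0 1230186008 818728140 40265320 3 eng mog cd0q2 cd4q3 pd1 false true false .pnn 2 1 3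
    ndB0q2 ndB4q3 pcB1 cut_pm_213 Ext.none :=
  certB0 (fam := false) (s1 := true) (s2 := false) (a := 2) (b := 1) (c := 3) (cn := .pnn) (n1 := ndB0q2) (n2 := ndB4q3) (pc := pcB1) (cut := cut_pm_213) (xt := Ext.none) (P1 := 0) (W1 := 536870912) (P2 := 0) (W2 := 1230186008) (P3 := 818728140) (W3 := 40265320) (N0 := 3) (En := eng) (mo := mog) (C1 := cd0q2) (C2 := cd4q3) (C3 := pd1)
    rfl k0_pm_213

noncomputable def cut_mm_001 : Cut := Cut.of [[⟨3, 0, 0, 1449551462⟩]]

noncomputable def f_mm_001 : ℕ → ℕ → ℕ → ℕ → Bool := onCell 0 536870912 536870912 536870912 818728140 40265320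
    (rowB 3 eng mog cd0q0 cd4q1 pd0 0 false false false .up 0 0 1 (qsf 0 536870912 536870912 536870912 0) ndB0q0 ndB4q1 pcB0 cut_mm_001 Ext.none)

def k0_mm_001 : ∃ t, chk3 f_mm_001 t 1 1 1 = true :=
  ⟨(l 6), by decide +kernel⟩

theorem c_mm_001 : CertB 0 536870912 536870912 536870912 818728140 40265320 3 eng mog cd0q0 cd4q1 pd0 false false false .up 0 0 1
    ndB0q0 ndB4q1 pcB0 cut_mm_001 Ext.none :=
  certB0 (fam := false) (s1 := false) (s2 := false) (a := 0) (b := 0) (c := 1) (cn := .up) (n1 := ndB0q0) (n2 := ndB4q1) (pc := pcB0) (cut := cut_mm_001) (xt := Ext.none) (P1 := 0) (W1 := 536870912) (P2 := 536870912) (W2 := 536870912) (P3 := 818728140) (W3 := 40265320) (N0 := 3) (En := eng) (mo := mog) (C1 := cd0q0) (C2 := cd4q1) (C3 := pd0)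
    rfl k0_mm_001

noncomputable def cut_mm_011 : Cut := Cut.of [[⟨3, 0, 0, 1449551462⟩]]

noncomputable def f_mm_011 : ℕ → ℕ → ℕ → ℕ → Bool := onCell 0 536870912 536870912 536870912 818728140 40265320
    (rowB 3 eng mog cd0q0 cd4q1 pd1 0 false false false .pnn 0 1 1 (qsf 0 536870912 536870912 536870912 1) ndB0q0 ndB4q1 pcB1 cut_mm_011 Ext.none)

def k0_mm_011 : ∃ t, chk3 f_mm_011 t 1 1 1 = true :=
  ⟨(l 6), by decide +kernel⟩

theorem c_mm_011 : CertB 0 536870912 536870912 536870912 818728140 40265320 3 eng mog cd0q0 cd4q1 pd1 false false false .pnn 0 1 1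
    ndB0q0 ndB4q1 pcB1 cut_mm_011 Ext.none :=
  certB0 (fam := false) (s1 := false) (s2 := false) (a := 0) (b := 1) (c := 1) (cn := .pnn) (n1 := ndB0q0) (n2 := ndB4q1) (pc := pcB1) (cut := cut_mm_011) (xt := Ext.none) (P1 := 0) (W1 := 536870912) (P2 := 536870912) (W2 := 536870912) (P3 := 818728140) (W3 := 40265320) (N0 := 3) (En := eng) (mo := mog) (C1 := cd0q0) (C2 := cd4q1) (C3 := pd1)
    rfl k0_mm_011

noncomputable def cut_mm_012 : Cut := Cut.of [[⟨3, 0, 0, 1449551462⟩]]

noncomputable def f_mm_012 : ℕ → ℕ → ℕ → ℕ → Bool := onCell 0 536870912 1073741824 536870912 818728140 40265320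
    (rowB 3 eng mog cd0q0 cd4q2 pd1 0 false false false .pnp 0 1 2 (qsf 0 536870912 1073741824 536870912 1) ndB0q0 ndB4q2 pcB1 cut_mm_012 Ext.none)

def k0_mm_012 : ∃ t, chk3 f_mm_012 t 1 1 1 = true :=
  ⟨(l 5), by decide +kernel⟩

theorem c_mm_012 : CertB 0 536870912 1073741824 536870912 818728140 40265320 3 eng mog cd0q0 cd4q2 pd1 false false false .pnp 0 1 2
    ndB0q0 ndB4q2 pcB1 cut_mm_012 Ext.none :=
  certB0 (fam := false) (s1 := false) (s2 := false) (a := 0) (b := 1) (c := 2) (cn := .pnp) (n1 := ndB0q0) (n2 := ndB4q2) (pc := pcB1) (cut := cut_mm_012) (xt := Ext.none) (P1 := 0) (W1 := 536870912) (P2 := 1073741824) (W2 := 536870912) (P3 := 818728140) (W3 := 40265320) (N0 := 3) (En := eng) (mo := mog) (C1 := cd0q0) (C2 := cd4q2) (C3 := pd1)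
    rfl k0_mm_012

noncomputable def cut_mm_022 : Cut := Cut.of [[⟨3, 0, 0, 1449551462⟩]]

noncomputable def f_mm_022 : ℕ → ℕ → ℕ → ℕ → Bool := onCell 0 536870912 1073741824 536870912 818728140 40265320
    (rowB 3 eng mog cd0q0 cd4q2 pd2 0 false false false .pp 0 2 2 (qsf 0 536870912 1073741824 536870912 2) ndB0q0 ndB4q2 pcB2 cut_mm_022 Ext.none)

def k0_mm_022 : ∃ t, chk3 f_mm_022 t 1 1 1 = true :=
  ⟨(l 5), by decide +kernel⟩

theorem c_mm_022 : CertB 0 536870912 1073741824 536870912 818728140 40265320 3 eng mog cd0q0 cd4q2 pd2 false false false .pp 0 2 2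
    ndB0q0 ndB4q2 pcB2 cut_mm_022 Ext.none :=
  certB0 (fam := false) (s1 := false) (s2 := false) (a := 0) (b := 2) (c := 2) (cn := .pp) (n1 := ndB0q0) (n2 := ndB4q2) (pc := pcB2) (cut := cut_mm_022) (xt := Ext.none) (P1 := 0) (W1 := 536870912) (P2 := 1073741824) (W2 := 536870912) (P3 := 818728140) (W3 := 40265320) (N0 := 3) (En := eng) (mo := mog) (C1 := cd0q0) (C2 := cd4q2) (C3 := pd2)
    rfl k0_mm_022

noncomputable def cut_mm_023 : Cut := Cut.of [[⟨3, 0, 0, 1449551462⟩]]

noncomputable def f_mm_023 : ℕ → ℕ → ℕ → ℕ → Bool := onCell 0 536870912 0 1230186008 818728140 40265320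
    (rowB 3 eng mog cd0q0 cd4q3 pd2 0 false false false .up 0 2 3 (qsf 0 536870912 0 1230186008 2) ndB0q0 ndB4q3 pcB2 cut_mm_023 Ext.none)

def k0_mm_023 : ∃ t, chk3 f_mm_023 t 1 1 1 = true :=
  ⟨(l 5), by decide +kernel⟩

theorem c_mm_023 : CertB 0 536870912 0 1230186008 818728140 40265320 3 eng mog cd0q0 cd4q3 pd2 false false false .up 0 2 3
    ndB0q0 ndB4q3 pcB2 cut_mm_023 Ext.none :=
  certB0 (fam := false) (s1 := false) (s2 := false) (a := 0) (b := 2) (c := 3) (cn := .up) (n1 := ndB0q0) (n2 := ndB4q3) (pc := pcB2) (cut := cut_mm_023) (xt := Ext.none) (P1 := 0) (W1 := 536870912) (P2 := 0) (W2 := 1230186008) (P3 := 818728140) (W3 := 40265320) (N0 := 3) (En := eng) (mo := mog) (C1 := cd0q0) (C2 := cd4q3) (C3 := pd2)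
    rfl k0_mm_023

noncomputable def cut_mm_033 : Cut := Cut.of [[⟨3, 0, 0, 1449551462⟩]]

noncomputable def f_mm_033 : ℕ → ℕ → ℕ → ℕ → Bool := onCell 0 536870912 0 1230186008 818728140 40265320
    (rowB 3 eng mog cd0q0 cd4q3 pd3 0 false false false .pnn 0 3 3 (qsf 0 536870912 0 1230186008 3) ndB0q0 ndB4q3 pcB3 cut_mm_033 Ext.none)

def k0_mm_033 : ∃ t, chk3 f_mm_033 t 1 1 1 = true :=
  ⟨(l 5), by decide +kernel⟩

theorem c_mm_033 : CertB 0 536870912 0 1230186008 818728140 40265320 3 eng mog cd0q0 cd4q3 pd3 false false false .pnn 0 3 3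
    ndB0q0 ndB4q3 pcB3 cut_mm_033 Ext.none :=
  certB0 (fam := false) (s1 := false) (s2 := false) (a := 0) (b := 3) (c := 3) (cn := .pnn) (n1 := ndB0q0) (n2 := ndB4q3) (pc := pcB3) (cut := cut_mm_033) (xt := Ext.none) (P1 := 0) (W1 := 536870912) (P2 := 0) (W2 := 1230186008) (P3 := 818728140) (W3 := 40265320) (N0 := 3) (En := eng) (mo := mog) (C1 := cd0q0) (C2 := cd4q3) (C3 := pd3)
    rfl k0_mm_033

noncomputable def cut_mm_101 : Cut := Cut.of [[⟨3, 0, 0, 1449551462⟩], [⟨0, 1, 0, 67108864⟩, ⟨1, 0, 0, 67108864⟩, ⟨2, 1, 0, 67108864⟩]]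

noncomputable def f_mm_101 : ℕ → ℕ → ℕ → ℕ → Bool := onCell 536870912 536870912 0 536870912 818728140 40265320
    (rowB 3 eng mog cd0q1 cd4q1 pd0 1 false false false .npn 1 0 1 (qsf 536870912 536870912 536870912 536870912 0) ndB0q1 ndB4q1 pcB0 cut_mm_101 Ext.none)

def k0_mm_101 : ∃ t, chk3 f_mm_101 t 1 1 1 = true :=
  ⟨(l 6), by decide +kernel⟩

theorem c_mm_101 : CertB 536870912 536870912 536870912 536870912 818728140 40265320 3 eng mog cd0q1 cd4q1 pd0 false false false .npn 1 0 1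
    ndB0q1 ndB4q1 pcB0 cut_mm_101 Ext.none :=
  certB1 (fam := false) (s1 := false) (s2 := false) (a := 1) (b := 0) (c := 1) (cn := .npn) (n1 := ndB0q1) (n2 := ndB4q1) (pc := pcB0) (cut := cut_mm_101) (xt := Ext.none) (P1 := 536870912) (W1 := 536870912) (P2 := 536870912) (W2 := 536870912) (P3 := 818728140) (W3 := 40265320) (N0 := 3) (En := eng) (mo := mog) (C1 := cd0q1) (C2 := cd4q1) (C3 := pd0)
    rfl (fun _ => rfl) k0_mm_101

noncomputable def cut_mm_102 : Cut := Cut.of [[⟨3, 0, 0, 1449551462⟩], [⟨0, 1, 0, 67108864⟩, ⟨1, 0, 0, 67108864⟩, ⟨2, 1, 0, 67108864⟩]]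

noncomputable def f_mm_102 : ℕ → ℕ → ℕ → ℕ → Bool := onCell 536870912 536870912 1073741824 536870912 818728140 40265320
    (rowB 3 eng mog cd0q1 cd4q2 pd0 0 false false false .npp 1 0 2 (qsf 536870912 536870912 1073741824 536870912 0) ndB0q1 ndB4q2 pcB0 cut_mm_102 Ext.none)

def k0_mm_102 : ∃ t, chk3 f_mm_102 t 1 1 1 = true :=
  ⟨(l 6), by decide +kernel⟩

theorem c_mm_102 : CertB 536870912 536870912 1073741824 536870912 818728140 40265320 3 eng mog cd0q1 cd4q2 pd0 false false false .npp 1 0 2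
    ndB0q1 ndB4q2 pcB0 cut_mm_102 Ext.none :=
  certB0 (fam := false) (s1 := false) (s2 := false) (a := 1) (b := 0) (c := 2) (cn := .npp) (n1 := ndB0q1) (n2 := ndB4q2) (pc := pcB0) (cut := cut_mm_102) (xt := Ext.none) (P1 := 536870912) (W1 := 536870912) (P2 := 1073741824) (W2 := 536870912) (P3 := 818728140) (W3 := 40265320) (N0 := 3) (En := eng) (mo := mog) (C1 := cd0q1) (C2 := cd4q2) (C3 := pd0)
    rfl k0_mm_102

noncomputable def cut_mm_112 : Cut := Cut.of [[⟨3, 0, 0, 1449551462⟩]]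

noncomputable def f_mm_112 : ℕ → ℕ → ℕ → ℕ → Bool := onCell 536870912 536870912 1073741824 536870912 818728140 40265320
    (rowB 3 eng mog cd0q1 cd4q2 pd1 0 false false false .dn 1 1 2 (qsf 536870912 536870912 1073741824 536870912 1) ndB0q1 ndB4q2 pcB1 cut_mm_112 Ext.none)

def k0_mm_112 : ∃ t, chk3 f_mm_112 t 1 1 1 = true :=
  ⟨(l 6), by decide +kernel⟩

theorem c_mm_112 : CertB 536870912 536870912 1073741824 536870912 818728140 40265320 3 eng mog cd0q1 cd4q2 pd1 false false false .dn 1 1 2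
    ndB0q1 ndB4q2 pcB1 cut_mm_112 Ext.none :=
  certB0 (fam := false) (s1 := false) (s2 := false) (a := 1) (b := 1) (c := 2) (cn := .dn) (n1 := ndB0q1) (n2 := ndB4q2) (pc := pcB1) (cut := cut_mm_112) (xt := Ext.none) (P1 := 536870912) (W1 := 536870912) (P2 := 1073741824) (W2 := 536870912) (P3 := 818728140) (W3 := 40265320) (N0 := 3) (En := eng) (mo := mog) (C1 := cd0q1) (C2 := cd4q2) (C3 := pd1)
    rfl k0_mm_112

noncomputable def cut_mm_113 : Cut := Cut.of [[⟨3, 0, 0, 1449551462⟩]]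

noncomputable def f_mm_113 : ℕ → ℕ → ℕ → ℕ → Bool := onCell 536870912 536870912 0 1230186008 818728140 40265320
    (rowB 3 eng mog cd0q1 cd4q3 pd1 0 false false false .nn 1 1 3 (qsf 536870912 536870912 0 1230186008 1) ndB0q1 ndB4q3 pcB1 cut_mm_113 Ext.none)

def k0_mm_113 : ∃ t, chk3 f_mm_113 t 1 1 1 = true :=
  ⟨(a (l 5) (b (l 5) (l 6))), by decide +kernel⟩

theorem c_mm_113 : CertB 536870912 536870912 0 1230186008 818728140 40265320 3 eng mog cd0q1 cd4q3 pd1 false false false .nn 1 1 3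
    ndB0q1 ndB4q3 pcB1 cut_mm_113 Ext.none :=
  certB0 (fam := false) (s1 := false) (s2 := false) (a := 1) (b := 1) (c := 3) (cn := .nn) (n1 := ndB0q1) (n2 := ndB4q3) (pc := pcB1) (cut := cut_mm_113) (xt := Ext.none) (P1 := 536870912) (W1 := 536870912) (P2 := 0) (W2 := 1230186008) (P3 := 818728140) (W3 := 40265320) (N0 := 3) (En := eng) (mo := mog) (C1 := cd0q1) (C2 := cd4q3) (C3 := pd1)
    rfl k0_mm_113

noncomputable def cut_mm_123 : Cut := Cut.of [[⟨3, 0, 0, 1449551462⟩]]

noncomputable def f_mm_123 : ℕ → ℕ → ℕ → ℕ → Bool := onCell 1073741824 536870912 0 1230186008 818728140 40265320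
    (rowB 3 eng mog cd0q1 cd4q3 pd2 2 false false false .npn 1 2 3 (qsf 536870912 536870912 0 1230186008 2) ndB0q1 ndB4q3 pcB2 cut_mm_123 Ext.none)

def k0_mm_123 : ∃ t, chk3 f_mm_123 t 1 1 1 = true :=
  ⟨(b (l 5) (l 5)), by decide +kernel⟩

theorem c_mm_123 : CertB 536870912 536870912 0 1230186008 818728140 40265320 3 eng mog cd0q1 cd4q3 pd2 false false false .npn 1 2 3
    ndB0q1 ndB4q3 pcB2 cut_mm_123 Ext.none :=
  certB2 (fam := false) (s1 := false) (s2 := false) (a := 1) (b := 2) (c := 3) (cn := .npn) (n1 := ndB0q1) (n2 := ndB4q3) (pc := pcB2) (cut := cut_mm_123) (xt := Ext.none) (P1 := 536870912) (W1 := 536870912) (P2 := 0) (W2 := 1230186008) (P3 := 818728140) (W3 := 40265320) (N0 := 3) (En := eng) (mo := mog) (C1 := cd0q1) (C2 := cd4q3) (C3 := pd2)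
    rfl (fun _ => rfl) k0_mm_123

noncomputable def cut_mm_133 : Cut := Cut.of [[⟨3, 0, 0, 1449551462⟩]]

noncomputable def f_mm_133 : ℕ → ℕ → ℕ → ℕ → Bool := onCell 1610612736 536870912 0 1230186008 818728140 40265320
    (rowB 3 eng mog cd0q1 cd4q3 pd3 2 false false false .dn 1 3 3 (qsf 536870912 536870912 0 1230186008 3) ndB0q1 ndB4q3 pcB3 cut_mm_133 Ext.none)

def k0_mm_133 : ∃ t, chk3 f_mm_133 t 1 1 1 = true :=
  ⟨(l 5), by decide +kernel⟩

theorem c_mm_133 : CertB 536870912 536870912 0 1230186008 818728140 40265320 3 eng mog cd0q1 cd4q3 pd3 false false false .dn 1 3 3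
    ndB0q1 ndB4q3 pcB3 cut_mm_133 Ext.none :=
  certB2 (fam := false) (s1 := false) (s2 := false) (a := 1) (b := 3) (c := 3) (cn := .dn) (n1 := ndB0q1) (n2 := ndB4q3) (pc := pcB3) (cut := cut_mm_133) (xt := Ext.none) (P1 := 536870912) (W1 := 536870912) (P2 := 0) (W2 := 1230186008) (P3 := 818728140) (W3 := 40265320) (N0 := 3) (En := eng) (mo := mog) (C1 := cd0q1) (C2 := cd4q3) (C3 := pd3)
    rfl (fun _ => rfl) k0_mm_133

noncomputable def cut_mm_202 : Cut := Cut.of [[⟨3, 0, 0, 1449551462⟩], [⟨0, 1, 0, 67108864⟩, ⟨1, 0, 0, 67108864⟩, ⟨2, 1, 0, 67108864⟩]]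

noncomputable def f_mm_202 : ℕ → ℕ → ℕ → ℕ → Bool := onCell 0 536870912 0 536870912 818728140 40265320
    (rowB 3 eng mog cd0q2 cd4q2 pd0 1 false false false .pp 2 0 2 (qsf 0 536870912 1073741824 536870912 0) ndB0q2 ndB4q2 pcB0 cut_mm_202 Ext.none)

def k0_mm_202 : ∃ t, chk3 f_mm_202 t 1 1 1 = true :=
  ⟨(a (b (a (b (b (a (b (l 16062608) (l 16142760)) (b (l 16157032) (l 16234224))) (a (l 16231808) (b (l 16309000) (l 16616120)))) (b (b (a (l 16388928) (l 16412496)) (b (a (l 16380048) (l 16448248)) (l 16547376))) (b (l 16481624) (l 16525704)))) (b (b (b (a (l 16257136) (b (l 16338624) (l 16379040))) (a (b (l 16313696) (l 16351544)) (b (l 16341304) (l 16424472)))) (a (b (b (l 16483088) (l 16400392)) (l 16437840)) (b (l 16458792) (l 16442744)))) (b (b (a (l 16485104) (l 16555840)) (a (l 16532864) (l 6))) (a (b (l 16579448) (l 6)) (l 6))))) (a (b (b (a (b (l 16531400) (l 16561184)) (b (l 16587448) (l 16614888))) (a (b (l 16591128) (l 16618560)) (l 6))) (l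 2)) (l 6))) (b (a (b (b (a (a (b (a (l 16380240) (l 16400072)) (l 16471296)) (l 6)) (l 6)) (l 6)) (l 6)) (l 6)) (l 6))), by decide +kernel⟩

theorem c_mm_202 : CertB 0 536870912 1073741824 536870912 818728140 40265320 3 eng mog cd0q2 cd4q2 pd0 false false false .pp 2 0 2
    ndB0q2 ndB4q2 pcB0 cut_mm_202 Ext.none :=
  certB1 (fam := false) (s1 := false) (s2 := false) (a := 2) (b := 0) (c := 2) (cn := .pp) (n1 := ndB0q2) (n2 := ndB4q2) (pc := pcB0) (cut := cut_mm_202) (xt := Ext.none) (P1 := 0) (W1 := 536870912) (P2 := 1073741824) (W2 := 536870912) (P3 := 818728140) (W3 := 40265320) (N0 := 3) (En := eng) (mo := mog) (C1 := cd0q2) (C2 := cd4q2) (C3 := pd0)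
    rfl (fun _ => rfl) k0_mm_202

noncomputable def cut_mm_203 : Cut := Cut.of [[⟨3, 0, 0, 1449551462⟩]]

noncomputable def f_mm_203 : ℕ → ℕ → ℕ → ℕ → Bool := onCell 0 536870912 0 1230186008 818728140 40265320
    (rowB 3 eng mog cd0q2 cd4q3 pd0 0 false false false .up 2 0 3 (qsf 0 536870912 0 1230186008 0) ndB0q2 ndB4q3 pcB0 cut_mm_203 Ext.none)

def k0_mm_203 : ∃ t, chk3 f_mm_203 t 1 1 1 = true :=
  ⟨(b (l 2) (b (l 2) (a (b (l 6) (b (l 6) (a (a (b (l 6) (l 16727272)) (l 6)) (l 6)))) (l 3)))), by decide +kernel⟩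

theorem c_mm_203 : CertB 0 536870912 0 1230186008 818728140 40265320 3 eng mog cd0q2 cd4q3 pd0 false false false .up 2 0 3
    ndB0q2 ndB4q3 pcB0 cut_mm_203 Ext.none :=
  certB0 (fam := false) (s1 := false) (s2 := false) (a := 2) (b := 0) (c := 3) (cn := .up) (n1 := ndB0q2) (n2 := ndB4q3) (pc := pcB0) (cut := cut_mm_203) (xt := Ext.none) (P1 := 0) (W1 := 536870912) (P2 := 0) (W2 := 1230186008) (P3 := 818728140) (W3 := 40265320) (N0 := 3) (En := eng) (mo := mog) (C1 := cd0q2) (C2 := cd4q3) (C3 := pd0)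
    rfl k0_mm_203

noncomputable def cut_mm_213 : Cut := Cut.of [[⟨3, 0, 0, 1449551462⟩]]

noncomputable def f_mm_213 : ℕ → ℕ → ℕ → ℕ → Bool := onCell 0 536870912 0 1230186008 818728140 40265320
    (rowB 3 eng mog cd0q2 cd4q3 pd1 0 false false false .pnn 2 1 3 (qsf 0 536870912 0 1230186008 1) ndB0q2 ndB4q3 pcB1 cut_mm_213 Ext.none)

def k0_mm_213 : ∃ t, chk3 f_mm_213 t 1 1 1 = true :=
  ⟨(b (l 6) (b (l 6) (a (b (l 6) (b (l 6) (l 1))) (l 3)))), by decide +kernel⟩

theorem c_mm_213 : CertB 0 536870912 0 1230186008 818728140 40265320 3 eng mog cd0q2 cd4q3 pd1 false false false .pnn 2 1 3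
    ndB0q2 ndB4q3 pcB1 cut_mm_213 Ext.none :=
  certB0 (fam := false) (s1 := false) (s2 := false) (a := 2) (b := 1) (c := 3) (cn := .pnn) (n1 := ndB0q2) (n2 := ndB4q3) (pc := pcB1) (cut := cut_mm_213) (xt := Ext.none) (P1 := 0) (W1 := 536870912) (P2 := 0) (W2 := 1230186008) (P3 := 818728140) (W3 := 40265320) (N0 := 3) (En := eng) (mo := mog) (C1 := cd0q2) (C2 := cd4q3) (C3 := pd1)
    rfl k0_mm_213

end Pool.Agent.Strip051.G.I7625_8000.Tab.C.BB04

namespace Pool.Agent.Strip051.G.I7625_8000.Tab.C.BB10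

open Pool.Agent.Strip051.PB Pool.Agent.Strip051.PB.T
open Pool.Agent.Strip051.G.I7625_8000.Tab

noncomputable def f_pp_001 : ℕ → ℕ → ℕ → ℕ → Bool := onCell 0 536870912 0 536870912 818728140 40265320
    (rowB 3 eng mog cd1q0 cd0q1 pd0 1 false true true .up 0 0 1 (qsf 0 536870912 536870912 536870912 0) ndB1q0 ndB0q1 pcB0 Cut.none Ext.none)

def k0_pp_001 : ∃ t, chk3 f_pp_001 t 1 1 1 = true :=
  ⟨(l 3), by decide +kernel⟩

theorem c_pp_001 : CertB 0 536870912 536870912 536870912 818728140 40265320 3 eng mog cd1q0 cd0q1 pd0 false true true .up 0 0 1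
    ndB1q0 ndB0q1 pcB0 Cut.none Ext.none :=
  certB1 (fam := false) (s1 := true) (s2 := true) (a := 0) (b := 0) (c := 1) (cn := .up) (n1 := ndB1q0) (n2 := ndB0q1) (pc := pcB0) (cut := Cut.none) (xt := Ext.none) (P1 := 0) (W1 := 536870912) (P2 := 536870912) (W2 := 536870912) (P3 := 818728140) (W3 := 40265320) (N0 := 3) (En := eng) (mo := mog) (C1 := cd1q0) (C2 := cd0q1) (C3 := pd0)
    rfl (fun _ => rfl) k0_pp_001

noncomputable def cut_pp_011 : Cut := Cut.of [[⟨0, 0, 0, 67108864⟩, ⟨1, 1, 0, 67108864⟩, ⟨2, 1, 0, 67108864⟩]]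

noncomputable def f_pp_011 : ℕ → ℕ → ℕ → ℕ → Bool := onCell 0 536870912 536870912 536870912 818728140 40265320
    (rowB 3 eng mog cd1q0 cd0q1 pd1 0 false true true .pnn 0 1 1 (qsf 0 536870912 536870912 536870912 1) ndB1q0 ndB0q1 pcB1 cut_pp_011 Ext.none)

def k0_pp_011 : ∃ t, chk3 f_pp_011 t 1 1 1 = true :=
  ⟨(a (b (l 3) (b (l 3) (a (b (l 3) (a (b (l 3) (b (l 3) (a (l 6) (l 3)))) (l 3))) (l 3)))) (l 3)), by decide +kernel⟩

theorem c_pp_011 : CertB 0 536870912 536870912 536870912 818728140 40265320 3 eng mog cd1q0 cd0q1 pd1 false true true .pnn 0 1 1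
    ndB1q0 ndB0q1 pcB1 cut_pp_011 Ext.none :=
  certB0 (fam := false) (s1 := true) (s2 := true) (a := 0) (b := 1) (c := 1) (cn := .pnn) (n1 := ndB1q0) (n2 := ndB0q1) (pc := pcB1) (cut := cut_pp_011) (xt := Ext.none) (P1 := 0) (W1 := 536870912) (P2 := 536870912) (W2 := 536870912) (P3 := 818728140) (W3 := 40265320) (N0 := 3) (En := eng) (mo := mog) (C1 := cd1q0) (C2 := cd0q1) (C3 := pd1)
    rfl k0_pp_011

noncomputable def cut_pp_012 : Cut := Cut.of [[⟨0, 0, 0, 67108864⟩, ⟨1, 1, 0, 67108864⟩, ⟨2, 1, 0, 67108864⟩]]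

noncomputable def xt_pp_012 : Ext := extD2 3 ⟨4, 1, 1, 5, 13, 5, 23, 25, 43, 100, 1, 8⟩ eng cd1q0 cd0q2 pd1 false true true .pnp 0 1 2 rfl ndB1q0 ndB0q2 pcB1

noncomputable def f_pp_012 : ℕ → ℕ → ℕ → ℕ → Bool := onCell 536870912 536870912 0 536870912 818728140 40265320
    (rowB 3 eng mog cd1q0 cd0q2 pd1 2 false true true .pnp 0 1 2 (qsf 0 536870912 0 536870912 1) ndB1q0 ndB0q2 pcB1 cut_pp_012 xt_pp_012)

def k0_pp_012 : ∃ t, chk3 f_pp_012 t 2 1 1 = true :=
  ⟨(b (a (b (l 2) (a (l 2) (b (l 2) (b (l 2) (a (l 2) (l 153108467863)))))) (b (a (b (l 16407488) (l 16463888)) (b (l 16413080) (l 16466592))) (a (b (a (l 16518192) (l 16515696)) (a (b (l 16548632) (l 16555552)) (l 16558824))) (b (a (l 16515064) (l 16520672)) (a (l 16563176) (l 16573392)))))) (b (a (a (l 2) (b (b (a (l 2) (b (l 187535230311) (l 3))) (l 3)) (l 3))) (a (b (a (b (b (l 142438162487) (l 190756504231)) (l 198272631015)) (a (b (l 16544208) (l 210620667431)) (b (l 16556448) (l 172503001047))))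 (l 3)) (b (a (b (l 16573544) (a (l 159618120327) (l 16550744))) (b (l 16597560) (l 16565272))) (b (a (b (l 203104498743) (l 3)) (b (l 161765609639) (l 218673882023))) (l 3))))) (l 3))), by decide +kernel⟩

def k1_pp_012 : ∃ t, chk3 f_pp_012 t 6 2 1 = true :=
  ⟨(b (a (b (l 16425000) (l 16483464)) (b (l 16441240) (a (l 16504496) (l 16519512)))) (b (a (l 16537760) (l 16628912)) (a (a (l 16589208) (l 16605872)) (a (l 16621672) (l 16631696))))), by decide +kernel⟩

def k2_pp_012 : ∃ t, chk3 f_pp_012 t 6 6 1 = true :=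
  ⟨(a (b (a (l 16628552) (l 16665288)) (b (a (b (l 16612736) (l 16616656)) (l 16669568)) (a (b (a (l 238001280151) (l 16632472)) (l 249275653447)) (b (l 16683040) (a (b (l 133848469591) (l 253033762359)) (b (l 16708176) (a (l 154786527287) (b (l 16722336) (l 16725312))))))))) (b (a (l 16629616) (l 16694072)) (a (b (l 16692432) (b (l 16741256) (a (l 16742736) (l 16765448)))) (b (l 16734200) (a (l 16747888) (l 16740272)))))), by decide +kernel⟩

def k3_pp_012 : ∃ t, chk3 f_pp_012 t 6 7 1 = true :=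
  ⟨(a (b (b (a (l 3) (b (a (l 3) (b (a (b (l 253033833319) (l 3)) (b (a (l 254107691367) (l 215453010519)) (a (l 3) (l 244980824151)))) (l 3))) (l 3))) (l 3)) (l 3)) (b (a (b (b (c (a (a (b (l 222432310295) (l 245517812231)) (b (l 16782032) (a (l 249275902983) (l 250886529191)))) (b (l 16781408) (a (b (l 16791728) (l 251423385335)) (l 16789648)))) (a (a (b (l 210084233143) (l 247128294407)) (b (l 16739376) (a (l 251960159559) (l 255718273447)))) (a (b (l 16754384) (b (l 16760960) (l 243370316279))) (l 16773520)))) (c (a (l 3) (b (a (a (l 244980966103) (l 248202166583)) (a (l 250886516519) (l 256792091671))) (a (l 3) (b (l 260550227495) (l 3))))) (a (l 3) (b (a (a (l 248202118775) (a (l 250886487767) (l 252497109895))) (b (l 16789360) (a (l 251960260103) (l 260013287415)))) (a (l 3) (a (l 3) (l 255718352087))))))) (l 3)) (b (c (b (a (l 16776840) (l 16766392)) (a (a (b (l 16795192) (a (l 248202194359) (l 249812801575))) (b (l 16789464) (l 256792089511)))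 (l 16764784))) (b (a (l 16776112) (l 16764488)) (a (b (a (l 16795568) (l 16789352)) (a (b (a (l 253570899767) (l 16802712)) (a (l 262697716103) (l 250349679511))) (b (l 16797784) (l 258939583735)))) (l 16763888)))) (b (a (b (a (l 3) (b (a (l 284709422039) (l 249812806535)) (l 3))) (l 3)) (c (b (a (l 246591576647) (l 16798520)) (a (l 300278690007) (l 249275940071))) (b (a (l 251423393687) (l 16797744)) (a (l 290078142471) (l 254644647783))))) (l 3)))) (l 3))), by decide +kernel⟩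

def k4_pp_012 : ∃ t, chk3 f_pp_012 t 7 2 1 = true :=
  ⟨(a (b (b (l 16410192) (l 16567416)) (a (b (l 16579936) (l 16625472)) (b (l 16575824) (l 16615736)))) (b (b (l 16393576) (l 16510536)) (a (b (l 16575096) (l 16612552)) (b (l 16576888) (l 16607048))))), by decide +kernel⟩

def k5_pp_012 : ∃ t, chk3 f_pp_012 t 7 6 1 = true :=
  ⟨(a (b (a (l 16635584) (l 16662344)) (a (b (l 16717816) (l 16721648)) (a (l 16642736) (l 16707120)))) (b (a (b (l 16642896) (l 16664752)) (b (l 16631544) (l 16650184))) (b (a (l 16685912) (l 16714112)) (a (a (l 16710608) (l 16703392)) (a (l 16696728) (l 16686424)))))), by decide +kernel⟩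

def k6_pp_012 : ∃ t, chk3 f_pp_012 t 14 7 1 = true :=
  ⟨(b (a (b (a (b (l 16754576) (l 16772496)) (l 16752624)) (b (a (a (b (l 16791072) (a (l 269677000151) (l 16800064))) (l 16789352)) (l 16778936)) (a (b (a (l 265382042823) (b (l 273971966119) (l 265382064503))) (a (l 3) (l 268066415063))) (b (a (l 16776808) (l 16790464)) (a (b (l 265382059911) (l 272361392935)) (b (l 16798144) (l 276656322263))))))) (b (a (l 16748456) (l 16722024)) (a (b (l 16766032) (a (b (l 16783352) (l 16792864)) (l 16780232))) (b (l 16755112) (l 16748680))))) (b (a (b (a (l 3) (b (a (l 3) (b (l 269140141383) (l 3))) (l 3))) (l 3)) (b (c (a (b (a (l 274508859319) (l 16793160)) (a (l 3) (l 277193192471))) (b (l 16781200) (a (b (l 16791240) (l 244444073991)) (l 16786040)))) (a (b (a (l 280951288023) (b (l 16791392) (l 16795936))) (a (l 3) (a (l 285246282967) (l 283098790471)))) (b (l 16761768) (a (b (l 16792744) (a (l 281488174055) (l 227264220215))) (l 16788000))))) (c (a (l 3)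 (b (a (l 5370653872804659690823458367) (a (l 273435105063) (a (l 269140131815) (l 242296602359)))) (l 3))) (a (l 3) (b (a (b (a (l 3) (l 283098788487)) (l 3)) (b (a (l 261623944183) (l 16792640)) (a (l 285246274135) (b (l 261087072679) (l 282025043063))))) (l 3)))))) (l 3))), by decide +kernel⟩

def k7_pp_012 : ∃ t, chk3 f_pp_012 t 15 7 1 = true :=
  ⟨(b (a (b (a (l 16711760) (l 16723400)) (a (l 16778312) (l 16772496))) (a (b (l 16714960) (b (l 16730720) (l 16742640))) (b (b (l 16702736) (l 16711552)) (a (l 16729608) (l 16747232))))) (a (b (b (a (a (l 16755760) (l 16771272)) (l 16765912)) (a (c (b (a (a (l 204178765287) (l 16786048)) (l 16781656)) (a (b (a (l 272361361607) (l 266455774215)) (l 3)) (b (a (l 16788832) (l 16785912)) (a (l 269677001703) (l 210084340167))))) (b (a (a (c (l 215453054167) (l 217600540599)) (l 16788288)) (l 16783760)) (a (b (a (b (l 280951298423) (l 3)) (a (l 278803811655) (l 251423404599))) (l 3)) (b (a (l 16801624) (l 16788080))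 (c (a (l 277193197975) (l 218137404535)) (a (b (l 264845167095) (l 284709395607)) (b (l 16791576) (l 263234551783)))))))) (b (l 16774360) (a (a (b (l 16784072) (b (l 16786856) (l 16799208))) (l 16783080)) (l 16757800))))) (b (a (b (a (l 3) (b (a (l 3) (b (a (l 3) (c (l 268066386823) (l 278803809591))) (l 3))) (l 3))) (l 3)) (b (a (b (a (c (b (l 215989915991) (l 268066386263)) (b (a (l 228874820599) (l 16790928)) (a (l 282025036103) (l 276119452359)))) (b (l 16787616) (l 6))) (a (l 3) (l 6))) (l 6)) (l 6))) (l 3))) (a (b (b (l 16755104) (l 6)) (l 6)) (l 6)))), by decide +kernel⟩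

theorem s8_pp_012 : ∃ t, chk3 f_pp_012 t 7 7 1 = true := ex3_a k6_pp_012 k7_pp_012

theorem s9_pp_012 : ∃ t, chk3 f_pp_012 t 7 3 1 = true := ex3_b k5_pp_012 s8_pp_012

theorem s10_pp_012 : ∃ t, chk3 f_pp_012 t 7 1 1 = true := ex3_b k4_pp_012 s9_pp_012

theorem s11_pp_012 : ∃ t, chk3 f_pp_012 t 6 3 1 = true := ex3_b k2_pp_012 k3_pp_012

theorem s12_pp_012 : ∃ t, chk3 f_pp_012 t 6 1 1 = true := ex3_b k1_pp_012 s11_pp_012

theorem s13_pp_012 : ∃ t, chk3 f_pp_012 t 3 1 1 = true := ex3_a s12_pp_012 s10_pp_012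

theorem s14_pp_012 : ∃ t, chk3 f_pp_012 t 1 1 1 = true := ex3_a k0_pp_012 s13_pp_012

theorem c_pp_012 : CertB 0 536870912 0 536870912 818728140 40265320 3 eng mog cd1q0 cd0q2 pd1 false true true .pnp 0 1 2
    ndB1q0 ndB0q2 pcB1 cut_pp_012 xt_pp_012 :=
  certB2 (fam := false) (s1 := true) (s2 := true) (a := 0) (b := 1) (c := 2) (cn := .pnp) (n1 := ndB1q0) (n2 := ndB0q2) (pc := pcB1) (cut := cut_pp_012) (xt := xt_pp_012) (P1 := 0) (W1 := 536870912) (P2 := 0) (W2 := 536870912) (P3 := 818728140) (W3 := 40265320) (N0 := 3) (En := eng) (mo := mog) (C1 := cd1q0) (C2 := cd0q2) (C3 := pd1)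
    rfl (fun _ => rfl) s14_pp_012

end Pool.Agent.Strip051.G.I7625_8000.Tab.C.BB10

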