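import Pool.Agent.Strip051.PB.DgE
import Pool.Agent.Strip051.PB.DgJ
import Pool.Agent.Strip051.G.I7625_8000.Fact

/-! # The corner (1, 1, 2): parameters of the degenerate charts (generated) -/

set_option linter.all false

namespace Pool.Agent.Strip051.G.I7625_8000.Tab.DG

open Pool.Agent.Strip051.PB Pool.Agent.Strip051.PB.Dg Pool.Agent.StripNear Pool.Agent.Strip051.LC

noncomputable def pFma : Fn1 := ⟨_, _, fun h1 => (enc_norm (enc_sub (enc_rat _ 283431 1000000) (enc_scale 909 6250 (enc_subr 25 32 h1))))⟩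
noncomputable def pFmb : Fn1 := ⟨_, _, fun h1 => (enc_norm (enc_subr 116937 200000 (enc_neg (enc_scale 209047 100000 (enc_subr 25 32 h1)))))⟩
noncomputable def pFmu : Fn1 := ⟨_, _, fun h1 => (mug3.enc h1)⟩
noncomputable def pFnx : Fn1 := ⟨_, _, fun h1 => (enc_norm (enc_add h1 (enc_pnc _ 3)))⟩
noncomputable def pFc0 : Fn1 := ⟨_, _, fun h1 => (enc_pnc _ 1)⟩
noncomputable def pFkc : Fn1 := ⟨_, _, fun h1 => (enc_norm (enc_add (enc_scale 17420283 4000000 (enc_subr 25 32 h1)) (enc_rat _ 18011921 40000000)))⟩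
noncomputable def pFjc : Fn1 := ⟨_, _, fun h1 => (enc_norm (enc_subr 4213 5000 (enc_neg (enc_scale 1097 1000 (enc_subr 25 32 h1)))))⟩
noncomputable def pFca : Fn1 := ⟨_, _, fun h1 => (enc_norm (enc_subr 2699 10000 (enc_scale 13167 1250 (enc_subr 25 32 h1))))⟩
noncomputable def pFcb : Fn1 := ⟨_, _, fun h1 => (enc_norm (enc_add (enc_scale 59877 5000 (enc_subr 25 32 h1)) (enc_rat _ 8323 50000)))⟩
noncomputable def pFcc : Fn1 := ⟨_, _, fun h1 => (enc_pnc _ 0)⟩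
noncomputable def pFsv : Fn1 := ⟨_, _, fun h1 => (enc_norm (enc_subr 1 16 h1))⟩
noncomputable def pFx11 : Fn1 := ⟨_, _, fun h1 => (cv1m.enc h1)⟩
noncomputable def pFx01 : Fn1 := ⟨_, _, fun h1 => (c1g.enc h1)⟩
noncomputable def pFK11 : Fn2 := ⟨_, _, fun h1 h2 => (kf1q1.enc h1 h2)⟩
noncomputable def pFK01 : Fn2 := ⟨_, _, fun h1 h2 => (kf0q1.enc h1 h2)⟩
noncomputable def pFL11 : Fn2 := ⟨_, _, fun h1 h2 => (l1q1.enc h1 h2)⟩
noncomputable def pFL01 : Fn2 := ⟨_, _, fun h1 h2 => (l0q1.enc h1 h2)⟩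
noncomputable def kFc0 : Fn1 := ⟨_, _, fun h1 => (enc_norm (enc_add (enc_scale 17 200000000 (enc_subr 25 32 h1)) (enc_rat _ 11 400000000)))⟩
noncomputable def kFc0g : Fn1 := ⟨_, _, fun h1 => (enc_norm (enc_sub (enc_rat _ 4259099 200000) (enc_scale 51846847 100000 (enc_subr 25 32 h1))))⟩
noncomputable def kFa0 : Fn1 := ⟨_, _, fun h1 => (enc_norm (enc_sub (enc_rat _ 1 500000) (enc_scale 1 100000 (enc_subr 25 32 h1))))⟩
noncomputable def kFa0g : Fn1 := ⟨_, _, fun h1 => (enc_norm (enc_add (enc_scale 5621 1000 (enc_subr 25 32 h1)) (enc_rat _ 21653 25000)))⟩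
noncomputable def kFa1 : Fn1 := ⟨_, _, fun h1 => (enc_norm (enc_scale 1 100000 (enc_subr 25 32 h1)))⟩
noncomputable def kFa1g : Fn1 := ⟨_, _, fun h1 => (enc_norm (enc_subr 981 3125 (enc_neg (enc_scale 201573 5000 (enc_subr 25 32 h1)))))⟩
noncomputable def kFb0 : Fn1 := ⟨_, _, fun h1 => (enc_norm (enc_sub (enc_rat _ 1 500000) (enc_scale 1 100000 (enc_subr 25 32 h1))))⟩
noncomputable def kFb0g : Fn1 := ⟨_, _, fun h1 => (enc_norm (enc_subr 6751 25000 (enc_neg (enc_scale 32059 5000 (enc_subr 25 32 h1)))))⟩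
noncomputable def kFb1 : Fn1 := ⟨_, _, fun h1 => (enc_norm (enc_subr 1 1000000 (enc_neg (enc_scale 1 50000 (enc_subr 25 32 h1)))))⟩
noncomputable def kFb1g : Fn1 := ⟨_, _, fun h1 => (enc_norm (enc_add (enc_scale 1143 625 (enc_subr 25 32 h1)) (enc_rat _ 45329 50000)))⟩
noncomputable def kFd0 : Fn1 := ⟨_, _, fun h1 => (enc_norm (enc_sub (enc_rat _ 3 500000) (enc_scale 3 100000 (enc_subr 25 32 h1))))⟩
noncomputable def kFd0g : Fn1 := ⟨_, _, fun h1 => (enc_norm (enc_sub (enc_rat _ 8151 25000) (enc_scale 36013 5000 (enc_subr 25 32 h1))))⟩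
noncomputable def kFd1 : Fn1 := ⟨_, _, fun h1 => (enc_norm (enc_subr 1 500000 (enc_neg (enc_scale 3 100000 (enc_subr 25 32 h1)))))⟩
noncomputable def kFd1g : Fn1 := ⟨_, _, fun h1 => (enc_norm (enc_sub (enc_rat _ 37481 25000) (enc_scale 36657 1000 (enc_subr 25 32 h1))))⟩
noncomputable def kFe0 : Fn1 := ⟨_, _, fun h1 => (enc_norm (enc_sub (enc_rat _ 1 250000) (enc_scale 1 50000 (enc_subr 25 32 h1))))⟩
noncomputable def kFe0g : Fn1 := ⟨_, _, fun h1 => (enc_norm (enc_sub (enc_rat _ 7451 12500) (enc_scale 1977 2500 (enc_subr 25 32 h1))))⟩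
noncomputable def kFe1 : Fn1 := ⟨_, _, fun h1 => (enc_norm (enc_subr 1 1000000 (enc_neg (enc_scale 1 100000 (enc_subr 25 32 h1)))))⟩
noncomputable def kFe1g : Fn1 := ⟨_, _, fun h1 => (enc_norm (enc_sub (enc_rat _ 29633 50000) (enc_scale 192429 5000 (enc_subr 25 32 h1))))⟩
noncomputable def cFxs1 : Fn1 := ⟨_, _, fun h1 => (enc_norm (enc_add (enc_scale 3 5 (dgxi.enc h1)) (enc_scale 2 5 (dgws.enc h1))))⟩
noncomputable def cFsB1 : Fn2 := ⟨_, _, fun h1 h2 => (enc_norm (enc_subr 948 625 (enc_neg (enc_scale 48 5 (enc_subr 25 32 h2)))))⟩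
noncomputable def cFBs1 : Fn2 := ⟨_, _, fun h1 h2 => (cFsB1.enc h1 h2)⟩
noncomputable def cFsX1 : Fn2 := ⟨_, _, fun h1 h2 => (enc_norm (enc_subr 386 625 (enc_neg (enc_scale 108 25 (enc_subr 25 32 h2)))))⟩
noncomputable def cFsD1 : Fn2 := ⟨_, _, fun h1 h2 => (enc_norm (enc_scale 2495 77 (enc_subr 25 32 h2)))⟩
noncomputable def cFsDD1 : Fn2 := ⟨_, _, fun h1 h2 => (cFsD1.enc h1 h2)⟩
noncomputable def nFsc1 : Fn1 := ⟨_, _, fun h1 => (enc_scale 2 5 h1)⟩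
noncomputable def nFB1_3 : Fn2 := ⟨_, _, fun h1 h2 => (enc_subr 25 32 h2)⟩
noncomputable def nFB1 : Fn2 := ⟨_, _, fun h1 h2 => (enc_norm (enc_add (enc_subr 1223 2000 (enc_neg (enc_scale 177 1000 (nFB1_3.enc h1 h2)))) (enc_mul h1 (enc_norm (enc_sub (enc_rat _ 235250000 177135409) (enc_scale 15250000 177135409 (nFB1_3.enc h1 h2)))))))⟩
noncomputable def nFX1_3 : Fn2 := ⟨_, _, fun h1 h2 => (enc_subr 25 32 h2)⟩
noncomputable def nFX1 : Fn2 := ⟨_, _, fun h1 h2 => (enc_norm (enc_add (enc_sub (enc_rat _ 11519 10000) (enc_scale 333 1000 (nFX1_3.enc h1 h2))) (enc_mul h1 (enc_norm (enc_subr 87525000 177135409 (enc_scale 45500000 177135409 (nFX1_3.enc h1 h2)))))))⟩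
noncomputable def nFD1_3 : Fn2 := ⟨_, _, fun h1 h2 => (enc_subr 25 32 h2)⟩
noncomputable def nFD1 : Fn2 := ⟨_, _, fun h1 h2 => (enc_norm (enc_add (enc_sub (enc_rat _ 34641 5000) (enc_scale 31023 1000 (nFD1_3.enc h1 h2))) (enc_mul h1 (enc_norm (enc_scale 2846500000 177135409 (nFD1_3.enc h1 h2))))))⟩
noncomputable def nFsc2 : Fn1 := ⟨_, _, fun h1 => (enc_norm (enc_add (enc_scale 4 5 h1) (enc_rat _ 1 5)))⟩
noncomputable def nFB2 : Fn2 := ⟨_, _, fun h1 h2 => (enc_norm (enc_subr 334300000 616546227 (enc_scale 223000000 616546227 (enc_subr 25 32 h2))))⟩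
noncomputable def nFX2 : Fn2 := ⟨_, _, fun h1 h2 => (enc_norm (enc_sub (enc_rat _ 132930500 616546227) (enc_scale 1645190000 616546227 (enc_subr 25 32 h2))))⟩
noncomputable def nFD2 : Fn2 := ⟨_, _, fun h1 h2 => (enc_norm (enc_subr 1212915927011 591632266060 (enc_neg (enc_scale 1037136588661 118326453212 (enc_subr 25 32 h2)))))⟩
noncomputable def nFsc3 : Fn1 := ⟨_, _, fun h1 => (enc_norm (enc_add (enc_scale 2 5 h1) (enc_rat _ 3 5)))⟩
noncomputable def nFB3 : Fn2 := ⟨_, _, fun h1 h2 => (enc_norm (enc_subr 215100000 429616471 (enc_scale 5250000000 429616471 (enc_subr 25 32 h2))))⟩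
noncomputable def nFX3 : Fn2 := ⟨_, _, fun h1 h2 => (enc_norm (enc_sub (enc_rat _ 52330500 429616471) (enc_scale 2302190000 429616471 (enc_subr 25 32 h2))))⟩
noncomputable def nFD3 : Fn2 := ⟨_, _, fun h1 h2 => (enc_norm (enc_subr 141427750000 29581613303 (enc_neg (enc_scale 11935250000 29581613303 (enc_subr 25 32 h2)))))⟩
noncomputable def l12F : List Knk := [⟨1, 16, kFc0, kFc0g⟩]
noncomputable def laF : List Knk := [⟨1, 20, kFa0, kFa0g⟩, ⟨1, 10, kFa1, kFa1g⟩]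
noncomputable def lbF : List Knk := [⟨1, 20, kFb0, kFb0g⟩, ⟨1, 10, kFb1, kFb1g⟩]
noncomputable def l1F : List Knk := [⟨1, 20, kFe0, kFe0g⟩, ⟨1, 10, kFe1, kFe1g⟩]
noncomputable def l2F : List Knk := [⟨1, 20, kFd0, kFd0g⟩, ⟨1, 10, kFd1, kFd1g⟩]
noncomputable def cvF1 : CvP := ⟨cFxs1, cFBs1, cFsX1⟩
noncomputable def ndF1 : NdU := ⟨nFsc1, nFB1, nFX1, nFD1⟩
noncomputable def ndF2 : NdU := ⟨nFsc2, nFB2, nFX2, nFD2⟩
noncomputable def ndF3 : NdU := ⟨nFsc3, nFB3, nFX3, nFD3⟩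
noncomputable def pF : Pm := ⟨pFma, pFmb, pFmu, pFnx, pFc0, pFkc, pFjc, pFkc, pFjc, pFkc, pFjc, pFca, pFcb, pFcc, pFcc, pFcc, pFsv, l12F, l12F, l12F, laF, lbF, l1F, l2F, cvF1, pFx11, pFx01, pFK11, pFK01, pFL11, pFL01⟩
noncomputable def pNc0 : Fn1 := ⟨_, _, fun h1 => (eng.enc h1)⟩
noncomputable def pNkc : Fn1 := ⟨_, _, fun h1 => (enc_norm (enc_mul (pNc0.enc h1) (enc_norm (enc_add (enc_scale 17420283 4000000 (enc_subr 25 32 h1)) (enc_rat _ 18011921 40000000)))))⟩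
noncomputable def pNjc : Fn1 := ⟨_, _, fun h1 => (enc_norm (enc_mul (pNc0.enc h1) (enc_norm (enc_subr 4213 5000 (enc_neg (enc_scale 1097 1000 (enc_subr 25 32 h1)))))))⟩
noncomputable def pNcc : Fn1 := ⟨_, _, fun h1 => (enc_pnc _ 0)⟩
noncomputable def pNK11 : Fn2 := ⟨_, _, fun h1 h2 => (enc_norm (enc_mul (pNc0.enc h2) (kf1q1.enc h1 h2)))⟩
noncomputable def pNK01 : Fn2 := ⟨_, _, fun h1 h2 => (enc_norm (enc_mul (pNc0.enc h2) (kf0q1.enc h1 h2)))⟩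
noncomputable def kNc0 : Fn1 := ⟨_, _, fun h1 => (enc_norm (enc_mul (pNc0.enc h1) (enc_norm (enc_add (enc_scale 17 200000000 (enc_subr 25 32 h1)) (enc_rat _ 11 400000000)))))⟩
noncomputable def kNc0g : Fn1 := ⟨_, _, fun h1 => (enc_norm (enc_mul (pNc0.enc h1) (enc_norm (enc_sub (enc_rat _ 4259099 200000) (enc_scale 51846847 100000 (enc_subr 25 32 h1))))))⟩
noncomputable def cNBs1 : Fn2 := ⟨_, _, fun h1 h2 => (enc_norm (enc_mul (pNc0.enc h2) (cFsB1.enc h1 h2)))⟩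
noncomputable def nNB1_4 : Fn2 := ⟨_, _, fun h1 h2 => (enc_subr 25 32 h2)⟩
noncomputable def nNB1 : Fn2 := ⟨_, _, fun h1 h2 => (enc_norm (enc_mul (pNc0.enc h2) (enc_norm (enc_add (enc_subr 1223 2000 (enc_neg (enc_scale 177 1000 (nNB1_4.enc h1 h2)))) (enc_mul h1 (enc_norm (enc_sub (enc_rat _ 235250000 177135409) (enc_scale 15250000 177135409 (nNB1_4.enc h1 h2)))))))))⟩
noncomputable def nNB2 : Fn2 := ⟨_, _, fun h1 h2 => (enc_norm (enc_mul (pNc0.enc h2) (enc_norm (enc_subr 334300000 616546227 (enc_scale 223000000 616546227 (enc_subr 25 32 h2))))))⟩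
noncomputable def nNB3 : Fn2 := ⟨_, _, fun h1 h2 => (enc_norm (enc_mul (pNc0.enc h2) (enc_norm (enc_subr 215100000 429616471 (enc_scale 5250000000 429616471 (enc_subr 25 32 h2))))))⟩
noncomputable def umo : Fn1 := ⟨_, _, fun h1 => (mog.enc h1)⟩
noncomputable def us1 : Fn1 := ⟨_, _, fun h1 => (enc_norm (enc_add (enc_scale 1562 167 (enc_subr 25 32 h1)) (enc_rat _ 13847 1670)))⟩
noncomputable def us2 : Fn1 := ⟨_, _, fun h1 => (enc_norm (enc_neg (enc_scale 749 100 (enc_subr 25 32 h1))))⟩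
noncomputable def us3 : Fn1 := ⟨_, _, fun h1 => (enc_norm (enc_add (enc_scale 1190 167 (enc_subr 25 32 h1)) (enc_rat _ 2590 167)))⟩
noncomputable def uC11 : Fn2 := ⟨_, _, fun h1 h2 => (kc1q1.enc h1 h2)⟩
noncomputable def uC01 : Fn2 := ⟨_, _, fun h1 h2 => (kc0q1.enc h1 h2)⟩
noncomputable def l12N : List Knk := [⟨1, 16, kNc0, kNc0g⟩]
noncomputable def cvN1 : CvP := ⟨cFxs1, cNBs1, cFsX1⟩
noncomputable def ndN1 : NdU := ⟨nFsc1, nNB1, nFX1, nFD1⟩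
noncomputable def ndN2 : NdU := ⟨nFsc2, nNB2, nFX2, nFD2⟩
noncomputable def ndN3 : NdU := ⟨nFsc3, nNB3, nFX3, nFD3⟩
noncomputable def pN : Pm := ⟨pFma, pFmb, pFmu, pFnx, pNc0, pNkc, pNjc, pNkc, pNjc, pNkc, pNjc, pFca, pFcb, pNcc, pNcc, pNcc, pFsv, l12N, l12N, l12N, laF, lbF, l1F, l2F, cvN1, pFx11, pFx01, pNK11, pNK01, pFL11, pFL01⟩
noncomputable def ul1 : List Knk := []
noncomputable def ul2 : List Knk := []
noncomputable def ul3 : List Knk := []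
noncomputable def qN : Pu := ⟨umo, us1, us2, us3, ul1, ul2, ul3, cFsDD1, uC11, uC01⟩

end Pool.Agent.Strip051.G.I7625_8000.Tab.DG
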