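import Pool.Agent.Strip051.G.I7625_8000.DgP

/-! # The corner (1, 1, 2): facts for the degenerate charts (generated) -/

set_option linter.all false

namespace Pool.Agent.Strip051.G.I7625_8000.Tab.DG

open Pool.Agent.Strip051.PB Pool.Agent.Strip051.PB.Dg Pool.Agent.StripNear Pool.Agent.Strip051.LC

theorem kcN {h x : ℝ} (r0 : 0 ≤ h) (r1 : h ≤ (9 / 80)) :
    kcg.v (h - 1 / 2) x = -(((18011921 / 40000000) + (17420283 / 4000000) * (x - (25 / 32))) + ((-(4213 / 5000)) + (-(1097 / 1000)) * (x - (25 / 32))) * h + (((0)) * h ^ 2 + (mx 1 16 h * (((11 / 400000000) + (17 / 200000000) * (x - (25 / 32))) + mx 1 16 h * ((4259099 / 200000) + (-(51846847 / 100000)) * (x - (25 / 32))))))) := by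
  simp only [kcg_3, kcg_9, kcg_12, kcg_13, kcg_17, kcg_23, kcg_28, kcg_38, kcg_46, kcg_47, kcg_52, kcg_61, kcg_66, kcg_70, kcg_81, kcg_90, kcg_93, kcg_94, kcg_98, kcg_103, kcg_107, kcg_115, kcg_124, kcg_128, kcg_141, kcg_146, kcg_150, kcg_158, kcg_159, kcg_176, kcg_198, kcg_199, kcg]
  rcases le_or_gt h ((1 / 16)) with c0 | c0
  · rw [mx_lo (a := 1) (b := 16) (h := h) (by push_cast; linarith)]
    ((try push_cast); (repeat first | rw [if_pos (by linarith)] | rw [if_neg (by linarith)] | erw [if_pos (by linarith)] | erw [if_neg (by linarith)]))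
    ring1
  · rw [mx_hi (a := 1) (b := 16) (h := h) (by push_cast; linarith)]
    ((try push_cast); (repeat first | rw [if_pos (by linarith)] | rw [if_neg (by linarith)] | erw [if_pos (by linarith)] | erw [if_neg (by linarith)]))
    ring1
theorem kcP {h x : ℝ} (r0 : 0 ≤ h) (r1 : h ≤ (9 / 80)) :
    kcg.v (1 / 2 - h) x = ((18011921 / 40000000) + (17420283 / 4000000) * (x - (25 / 32))) + ((-(4213 / 5000)) + (-(1097 / 1000)) * (x - (25 / 32))) * h + (((0)) * h ^ 2 + (mx 1 16 h * (((11 / 400000000) + (17 / 200000000) * (x - (25 / 32))) + mx 1 16 h * ((4259099 / 200000) + (-(51846847 / 100000)) * (x - (25 / 32)))))) := by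
  simp only [kcg_3, kcg_9, kcg_12, kcg_13, kcg_17, kcg_23, kcg_28, kcg_38, kcg_46, kcg_47, kcg_52, kcg_61, kcg_66, kcg_70, kcg_81, kcg_90, kcg_93, kcg_94, kcg_98, kcg_103, kcg_107, kcg_115, kcg_124, kcg_128, kcg_141, kcg_146, kcg_150, kcg_158, kcg_159, kcg_176, kcg_198, kcg_199, kcg]
  rcases le_or_gt h ((1 / 16)) with c0 | c0
  · rw [mx_lo (a := 1) (b := 16) (h := h) (by push_cast; linarith)]
    ((try push_cast); (repeat first | rw [if_pos (by linarith)] | rw [if_neg (by linarith)] | erw [if_pos (by linarith)] | erw [if_neg (by linarith)]))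
    ring1
  · rw [mx_hi (a := 1) (b := 16) (h := h) (by push_cast; linarith)]
    ((try push_cast); (repeat first | rw [if_pos (by linarith)] | rw [if_neg (by linarith)] | erw [if_pos (by linarith)] | erw [if_neg (by linarith)]))
    ring1
theorem taG {p c h x : ℝ} (hp : p = h - 1 / 2) (r0 : 0 ≤ h) (r1 : h ≤ (9 / 80)) :
    txg.v p c x = ((0)) + ((283431 / 1000000) + (-(909 / 6250)) * (x - (25 / 32))) * h + (((-(2699 / 10000)) + (13167 / 1250) * (x - (25 / 32))) * h ^ 2 + (mx 1 20 h * (((1 / 500000) + (-(1 / 100000)) * (x - (25 / 32))) + mx 1 20 h * ((21653 / 25000) + (5621 / 1000) * (x - (25 / 32)))) + mx 1 10 h * (((0) + (1 / 100000) * (x - (25 / 32))) + mx 1 10 h * ((-(981 / 3125)) + (-(201573 / 5000)) * (x - (25 / 32)))))) := by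
  rw [hp]
  simp only [txg_4, txg_6, txg_26, txg_29, txg_32, txg_76, txg_96, txg_138, txg_141, txg_180, txg_200, txg_232, txg_253, txg_254, txg_255, txg_306, txg_324, txg]
  rcases le_or_gt h ((1 / 20)) with c0 | c0
  · rw [mx_lo (a := 1) (b := 20) (h := h) (by push_cast; linarith), mx_lo (a := 1) (b := 10) (h := h) (by push_cast; linarith)]
    ((try push_cast); (repeat first | rw [if_pos (by linarith)] | rw [if_neg (by linarith)] | erw [if_pos (by linarith)] | erw [if_neg (by linarith)]))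
    ring1
  · skip
    rcases le_or_gt h ((1 / 10)) with c1 | c1
    · rw [mx_hi (a := 1) (b := 20) (h := h) (by push_cast; linarith), mx_lo (a := 1) (b := 10) (h := h) (by push_cast; linarith)]
      ((try push_cast); (repeat first | rw [if_pos (by linarith)] | rw [if_neg (by linarith)] | erw [if_pos (by linarith)] | erw [if_neg (by linarith)]))
      ring1
    · rw [mx_hi (a := 1) (b := 20) (h := h) (by push_cast; linarith), mx_hi (a := 1) (b := 10) (h := h) (by push_cast; linarith)]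
      ((try push_cast); (repeat first | rw [if_pos (by linarith)] | rw [if_neg (by linarith)] | erw [if_pos (by linarith)] | erw [if_neg (by linarith)]))
      ring1
theorem tbG {p c h x : ℝ} (hp : p = 1 / 2 - h) (r0 : 0 ≤ h) (r1 : h ≤ (9 / 80)) :
    txg.v p c x = -(((0)) + ((-(116937 / 200000)) + (-(209047 / 100000)) * (x - (25 / 32))) * h + (((8323 / 50000) + (59877 / 5000) * (x - (25 / 32))) * h ^ 2 + (mx 1 20 h * (((1 / 500000) + (-(1 / 100000)) * (x - (25 / 32))) + mx 1 20 h * ((-(6751 / 25000)) + (-(32059 / 5000)) * (x - (25 / 32)))) + mx 1 10 h * (((-(1 / 1000000)) + (-(1 / 50000)) * (x - (25 / 32))) + mx 1 10 h * ((45329 / 50000) + (1143 / 625) * (x - (25 / 32))))))) := by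
  rw [hp]
  simp only [txg_4, txg_6, txg_26, txg_29, txg_32, txg_76, txg_96, txg_138, txg_141, txg_180, txg_200, txg_232, txg_253, txg_254, txg_255, txg_306, txg_324, txg]
  rcases lt_or_ge h ((1 / 20)) with c0 | c0
  · rw [mx_lo (a := 1) (b := 20) (h := h) (by push_cast; linarith), mx_lo (a := 1) (b := 10) (h := h) (by push_cast; linarith)]
    ((try push_cast); (repeat first | rw [if_pos (by linarith)] | rw [if_neg (by linarith)] | erw [if_pos (by linarith)] | erw [if_neg (by linarith)]))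
    ring1
  · skip
    rcases lt_or_ge h ((1 / 10)) with c1 | c1
    · rw [mx_hi (a := 1) (b := 20) (h := h) (by push_cast; linarith), mx_lo (a := 1) (b := 10) (h := h) (by push_cast; linarith)]
      ((try push_cast); (repeat first | rw [if_pos (by linarith)] | rw [if_neg (by linarith)] | erw [if_pos (by linarith)] | erw [if_neg (by linarith)]))
      ring1
    · rw [mx_hi (a := 1) (b := 20) (h := h) (by push_cast; linarith), mx_hi (a := 1) (b := 10) (h := h) (by push_cast; linarith)]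
      ((try push_cast); (repeat first | rw [if_pos (by linarith)] | rw [if_neg (by linarith)] | erw [if_pos (by linarith)] | erw [if_neg (by linarith)]))
      ring1
theorem kc0q1_g {y h x : ℝ} (hh : c1n y = 2 * h - 1 + 3 / 2 * y) (r0 : 0 ≤ h) (r1 : h ≤ (9 / 80)) :
    kc0q1.v y x = ((0)) + ((13847 / 1670) + (1562 / 167) * (x - (25 / 32))) * h + (((0)) * h ^ 2 + (0)) := by
  simp only [kc0q1_3, kc0q1_9, kc0q1, c1g_v, hh]
  ((try push_cast); (repeat first | rw [if_pos (by linarith)] | rw [if_neg (by linarith)] | erw [if_pos (by linarith)] | erw [if_neg (by linarith)]))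
  ring1
theorem kcc02_g {h x : ℝ} (r0 : 0 ≤ h) (r1 : h ≤ (9 / 80)) :
    kcc02.v (1 / 2 - h) x = -(((0)) + ((0) + (-(749 / 100)) * (x - (25 / 32))) * h + (((0)) * h ^ 2 + (0))) := by
  simp only [kcc02_4, kcc02]
  ((try push_cast); (repeat first | rw [if_pos (by linarith)] | rw [if_neg (by linarith)] | erw [if_pos (by linarith)] | erw [if_neg (by linarith)]))
  ring1
theorem kcc43_g {Y t h x : ℝ} (hY : ycg.v t = Y) (hh : h = t / 2 + (2 - Y) / 4) (r0 : 0 ≤ h) (r1 : h ≤ (9 / 80)) :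
    kcc43.v t x = ((0)) + ((2590 / 167) + (1190 / 167) * (x - (25 / 32))) * h + (((0)) * h ^ 2 + (0)) := by
  simp only [kcc43_4, kcc43_9, kcc43_29, kcc43, hY]
  rw [show t = 2 * h - (2 - Y) / 2 by linarith]
  ((try push_cast); (repeat first | rw [if_pos (by linarith)] | rw [if_neg (by linarith)] | erw [if_pos (by linarith)] | erw [if_neg (by linarith)]))
  ring1
theorem kf0q1_g {y h x : ℝ} (hh : h = 1 / 2 - (3 / 4 * y - c1n y / 2)) :
    kf0q1.v y x = (1 / 2 + c1n y) * (1 / 2 - h) / (1 - h) + (y - 1) * kcg.v (1 / 2 - h) x := by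
  have ea : 3 / 4 * y - c1n y / 2 = 1 / 2 - h := by linarith
  have eb : c1n y = 2 * h - 1 + 3 / 2 * y := by linarith
  simp only [kf0q1_10, kf0q1, c1g_v]
  push_cast
  rw [ea, eb]
  have e2 : (2 * (1 + 3 / 2 * y - (2 * h - 1 + 3 / 2 * y)))⁻¹ = (1 - h)⁻¹ / 4 := by
    rw [show 2 * (1 + 3 / 2 * y - (2 * h - 1 + 3 / 2 * y)) = (1 - h) * 4 by ring, mul_inv]
    ring
  rw [e2]
  ring
theorem l0q1_g {y h x : ℝ} (hh : h = 1 / 2 - (3 / 4 * y - c1n y / 2)) (r0 : 0 ≤ h) (r1 : h ≤ (9 / 80)) :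
    l0q1.v y x = -(((0)) + ((-(116937 / 200000)) + (-(209047 / 100000)) * (x - (25 / 32))) * h + (((8323 / 50000) + (59877 / 5000) * (x - (25 / 32))) * h ^ 2 + (mx 1 20 h * (((1 / 500000) + (-(1 / 100000)) * (x - (25 / 32))) + mx 1 20 h * ((-(6751 / 25000)) + (-(32059 / 5000)) * (x - (25 / 32)))) + mx 1 10 h * (((-(1 / 1000000)) + (-(1 / 50000)) * (x - (25 / 32))) + mx 1 10 h * ((45329 / 50000) + (1143 / 625) * (x - (25 / 32))))))) := by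
  have e1 : ∀ c, txg.v (3 / 4 * y - c1n y / 2) c x = -(((0)) + ((-(116937 / 200000)) + (-(209047 / 100000)) * (x - (25 / 32))) * h + (((8323 / 50000) + (59877 / 5000) * (x - (25 / 32))) * h ^ 2 + (mx 1 20 h * (((1 / 500000) + (-(1 / 100000)) * (x - (25 / 32))) + mx 1 20 h * ((-(6751 / 25000)) + (-(32059 / 5000)) * (x - (25 / 32)))) + mx 1 10 h * (((-(1 / 1000000)) + (-(1 / 50000)) * (x - (25 / 32))) + mx 1 10 h * ((45329 / 50000) + (1143 / 625) * (x - (25 / 32))))))) := fun c => tbG (by linarith) r0 r1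
  simp only [l0q1, c1g_v]
  push_cast
  rw [e1]
theorem kfc02_g {h x : ℝ} : kfc02.v (1 / 2 - h) x = 1 / 2 - h + (yag.v (1 / 2 - h) - 1) * kcg.v (h - 1 / 2) x := by
  have ea : -(1 / 2 - h) = h - 1 / 2 := by ring
  simp only [kfc02]
  push_cast
  rw [ea]
theorem lc02_g {h x : ℝ} (r0 : 0 ≤ h) (r1 : h ≤ (9 / 80)) : lc02.v (1 / 2 - h) x = (((0)) + ((283431 / 1000000) + (-(909 / 6250)) * (x - (25 / 32))) * h + (((-(2699 / 10000)) + (13167 / 1250) * (x - (25 / 32))) * h ^ 2 + (mx 1 20 h * (((1 / 500000) + (-(1 / 100000)) * (x - (25 / 32))) + mx 1 20 h * ((21653 / 25000) + (5621 / 1000) * (x - (25 / 32)))) + mx 1 10 h * (((0) + (1 / 100000) * (x - (25 / 32))) + mx 1 10 h * ((-(981 / 3125)) + (-(201573 / 5000)) * (x - (25 / 32))))))) + (((0)) + ((-(116937 / 200000)) + (-(209047 / 100000)) * (x - (25 / 32))) * h + (((8323 / 50000) + (59877 / 5000) * (x - (25 / 32))) * h ^ 2 + (mx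 1 20 h * (((1 / 500000) + (-(1 / 100000)) * (x - (25 / 32))) + mx 1 20 h * ((-(6751 / 25000)) + (-(32059 / 5000)) * (x - (25 / 32)))) + mx 1 10 h * (((-(1 / 1000000)) + (-(1 / 50000)) * (x - (25 / 32))) + mx 1 10 h * ((45329 / 50000) + (1143 / 625) * (x - (25 / 32))))))) := by
  have e1 : ∀ c, txg.v (-(1 / 2 - h)) c x = ((0)) + ((283431 / 1000000) + (-(909 / 6250)) * (x - (25 / 32))) * h + (((-(2699 / 10000)) + (13167 / 1250) * (x - (25 / 32))) * h ^ 2 + (mx 1 20 h * (((1 / 500000) + (-(1 / 100000)) * (x - (25 / 32))) + mx 1 20 h * ((21653 / 25000) + (5621 / 1000) * (x - (25 / 32)))) + mx 1 10 h * (((0) + (1 / 100000) * (x - (25 / 32))) + mx 1 10 h * ((-(981 / 3125)) + (-(201573 / 5000)) * (x - (25 / 32)))))) := fun c => taG (by ring) r0 r1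
  have e2 : ∀ c, txg.v (1 / 2 - h) c x = -(((0)) + ((-(116937 / 200000)) + (-(209047 / 100000)) * (x - (25 / 32))) * h + (((8323 / 50000) + (59877 / 5000) * (x - (25 / 32))) * h ^ 2 + (mx 1 20 h * (((1 / 500000) + (-(1 / 100000)) * (x - (25 / 32))) + mx 1 20 h * ((-(6751 / 25000)) + (-(32059 / 5000)) * (x - (25 / 32)))) + mx 1 10 h * (((-(1 / 1000000)) + (-(1 / 50000)) * (x - (25 / 32))) + mx 1 10 h * ((45329 / 50000) + (1143 / 625) * (x - (25 / 32))))))) := fun c => tbG rfl r0 r1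
  simp only [lc02_7, lc02_8, lc02]
  push_cast
  rw [e1, e2]
  ring
theorem kfc43_g {Y t h x : ℝ} (hY : ycg.v t = Y) (hh : h = t / 2 + (2 - Y) / 4) :
    kfc43.v t x = (Y - 2 * t) * (t + 3 - 3 / 2 * Y) / (4 * (Y - 1)) + (Y - 2) * kcg.v (1 / 2 - h) x := by
  have ea : 1 / 4 * Y - t / 2 = 1 / 2 - h := by linarith
  simp only [kfc43, hY]
  push_cast
  rw [ea]
  ring
theorem lc43_g {Y t h x : ℝ} (hY : ycg.v t = Y) (hh : h = t / 2 + (2 - Y) / 4) (r0 : 0 ≤ h) (r1 : h ≤ (9 / 80)) :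
    lc43.v t x = -(2 * (((0)) + ((-(116937 / 200000)) + (-(209047 / 100000)) * (x - (25 / 32))) * h + (((8323 / 50000) + (59877 / 5000) * (x - (25 / 32))) * h ^ 2 + (mx 1 20 h * (((1 / 500000) + (-(1 / 100000)) * (x - (25 / 32))) + mx 1 20 h * ((-(6751 / 25000)) + (-(32059 / 5000)) * (x - (25 / 32)))) + mx 1 10 h * (((-(1 / 1000000)) + (-(1 / 50000)) * (x - (25 / 32))) + mx 1 10 h * ((45329 / 50000) + (1143 / 625) * (x - (25 / 32))))))) + (((0)) + ((283431 / 1000000) + (-(909 / 6250)) * (x - (25 / 32))) * h + (((-(2699 / 10000)) + (13167 / 1250) * (x - (25 / 32))) * h ^ 2 + (mx 1 20 h * (((1 / 500000) + (-(1 / 100000)) * (x - (25 / 32))) + mx 1 20 h * ((21653 / 25000) + (5621 / 1000) * (x - (25 / 32)))) + mx 1 10 h * (((0) + (1 / 100000) * (x - (25 / 32))) + mx 1 10 h * ((-(981 / 3125)) + (-(201573 / 5000)) * (x - (25 / 32)))))))) := by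
  have e1 : ∀ c, txg.v (1 / 4 * Y - t / 2) c x = -(((0)) + ((-(116937 / 200000)) + (-(209047 / 100000)) * (x - (25 / 32))) * h + (((8323 / 50000) + (59877 / 5000) * (x - (25 / 32))) * h ^ 2 + (mx 1 20 h * (((1 / 500000) + (-(1 / 100000)) * (x - (25 / 32))) + mx 1 20 h * ((-(6751 / 25000)) + (-(32059 / 5000)) * (x - (25 / 32)))) + mx 1 10 h * (((-(1 / 1000000)) + (-(1 / 50000)) * (x - (25 / 32))) + mx 1 10 h * ((45329 / 50000) + (1143 / 625) * (x - (25 / 32))))))) := fun c => tbG (by linarith) r0 r1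
  have e2 : ∀ c, txg.v (t / 2 - 1 / 4 * Y) c x = ((0)) + ((283431 / 1000000) + (-(909 / 6250)) * (x - (25 / 32))) * h + (((-(2699 / 10000)) + (13167 / 1250) * (x - (25 / 32))) * h ^ 2 + (mx 1 20 h * (((1 / 500000) + (-(1 / 100000)) * (x - (25 / 32))) + mx 1 20 h * ((21653 / 25000) + (5621 / 1000) * (x - (25 / 32)))) + mx 1 10 h * (((0) + (1 / 100000) * (x - (25 / 32))) + mx 1 10 h * ((-(981 / 3125)) + (-(201573 / 5000)) * (x - (25 / 32)))))) := fun c => taG (by linarith) r0 r1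
  simp only [lc43_7, lc43_8, lc43_9, lc43_12, lc43_14, lc43, hY]
  push_cast
  rw [e1, e2]
  ring
theorem hD : ((67108864 : ℕ) : ℝ) / S ≤ 1 / 16 := by
  rw [S_one]
  norm_num
theorem hD3 : ((16777216 : ℕ) : ℝ) / S ≤ 1 / 64 := by
  rw [S_one]
  norm_num
theorem hDH : 7 / 4 * (((67108864 : ℕ) : ℝ) / S) ≤ (9 / 80) := by
  rw [S_one]
  norm_num
theorem hD3H : ((16777216 : ℕ) : ℝ) / S * (3 / 4 + (9 / 80) / 2) ≤ (9 / 80) ^ 2 := by
  rw [S_one]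
  norm_num
theorem r16 {y : ℝ} (h : |y - 1| < ((67108864 : ℕ) : ℝ) / S) : y ≤ 17 / 16 := by
  have := (abs_lt.1 h).2
  linarith [hD]
theorem xr {x : ℝ} (hx : ((818728140 : ℕ) : ℝ) / S ≤ x) (hx' : x ≤ (((818728140 : ℕ) : ℝ) + (40265320 : ℕ)) / S) : 0 < x ∧ x < 1 := by
  rw [S_one] at hx hx'
  norm_num at hx hx'
  constructor <;> linarith
theorem kf1q3_g {Y x : ℝ} (h2 : (127 / 64) < Y) (h3 : Y ≤ 2) : kf1q3.v Y x = cv1r.v Y * (((-(1223 / 2000)) + (-(177 / 1000)) * (x - (25 / 32))) + c3g.v Y * ((235250000 / 177135409) + (-(15250000 / 177135409)) * (x - (25 / 32)))) := by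
  simp only [kf1q3_4, kf1q3, bf1q3_3, bf1q3]
  ((try push_cast); (repeat first | rw [if_pos (by linarith)] | rw [if_neg (by linarith)] | erw [if_pos (by linarith)] | erw [if_neg (by linarith)]))
  ring1
theorem l1q3_g {Y x : ℝ} (h2 : (127 / 64) < Y) (h3 : Y ≤ 2) : l1q3.v Y x = cv1r.v Y * (((11519 / 10000) + (-(333 / 1000)) * (x - (25 / 32))) + c3g.v Y * ((-(87525000 / 177135409)) + (45500000 / 177135409) * (x - (25 / 32)))) := by
  simp only [l1q3_4, l1q3, bx1q3_3, bx1q3]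
  ((try push_cast); (repeat first | rw [if_pos (by linarith)] | rw [if_neg (by linarith)] | erw [if_pos (by linarith)] | erw [if_neg (by linarith)]))
  ring1
theorem kc1q3_g {Y x : ℝ} (h2 : (127 / 64) < Y) (h3 : Y ≤ 2) : kc1q3.v Y x = cv1r.v Y * (((34641 / 5000) + (-(31023 / 1000)) * (x - (25 / 32))) + c3g.v Y * ((0) + (2846500000 / 177135409) * (x - (25 / 32)))) := by
  simp only [kc1q3_4, kc1q3, bd1q3_3, bd1q3]
  ((try push_cast); (repeat first | rw [if_pos (by linarith)] | rw [if_neg (by linarith)] | erw [if_pos (by linarith)] | erw [if_neg (by linarith)]))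
  ring1
theorem kfc23_g {Y t x : ℝ} (hY : ycg.v t = Y) (h2 : (127 / 64) < Y) (h3 : Y ≤ 2) (h4 : t ≤ 1 / 4) : kfc23.v t x = ((4 / 5) * (swg.v Y - 1 / 2) + (1 / 5) * t) * (((1 / 2)) + t * ((-(334300000 / 616546227)) + (223000000 / 616546227) * (x - (25 / 32)))) := by
  simp only [kfc23_6, kfc23_9, kfc23_11, kfc23_45, kfc23_46, kfc23_47, kfc23_48, kfc23_65, kfc23_67, kfc23_79, kfc23_103, kfc23, hY]
  ((try push_cast); (repeat first | rw [if_pos (by linarith)] | rw [if_neg (by linarith)] | erw [if_pos (by linarith)] | erw [if_neg (by linarith)]))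
  ring1
theorem lc23_g {Y t x : ℝ} (hY : ycg.v t = Y) (h2 : (127 / 64) < Y) (h3 : Y ≤ 2) (h4 : t ≤ 1 / 4) : lc23.v t x = ((4 / 5) * (swg.v Y - 1 / 2) + (1 / 5) * t) * (((885939 / 2000000) + (216319 / 100000) * (x - (25 / 32))) + t * ((132930500 / 616546227) + (-(1645190000 / 616546227)) * (x - (25 / 32)))) := by
  simp only [lc23_6, lc23_9, lc23_11, lc23_13, lc23_38, lc23_72, lc23_85, lc23_87, lc23_110, lc23_133, lc23, hY]
  ((try push_cast); (repeat first | rw [if_pos (by linarith)] | rw [if_neg (by linarith)] | erw [if_pos (by linarith)] | erw [if_neg (by linarith)]))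
  ring1
theorem kcc23_g {Y t x : ℝ} (hY : ycg.v t = Y) (h2 : (127 / 64) < Y) (h3 : Y ≤ 2) (h4 : t ≤ 1 / 4) : kcc23.v t x = ((4 / 5) * (swg.v Y - 1 / 2) + (1 / 5) * t) * (((1295 / 167) + (595 / 167) * (x - (25 / 32))) + t * ((-(1212915927011 / 591632266060)) + (-(1037136588661 / 118326453212)) * (x - (25 / 32)))) := by
  simp only [kcc23_6, kcc23_9, kcc23_11, kcc23_35, kcc23_36, kcc23_40, kcc23_45, kcc23_47, kcc23_48, kcc23_73, kcc23_75, kcc23_87, kcc23_108, kcc23, hY]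
  ((try push_cast); (repeat first | rw [if_pos (by linarith)] | rw [if_neg (by linarith)] | erw [if_pos (by linarith)] | erw [if_neg (by linarith)]))
  ring1
theorem kfc33_g {Y t x : ℝ} (hY : ycg.v t = Y) (h2 : (127 / 64) < Y) (h3 : Y ≤ 2) (h4 : t ≤ 1 / 4) : kfc33.v t x = ((2 / 5) * (swg.v Y - 1 / 2) + (3 / 5) * t) * (((1 / 2)) + t * ((-(215100000 / 429616471)) + (5250000000 / 429616471) * (x - (25 / 32)))) := by
  simp only [kfc33_11, kfc33, hY]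
  ((try push_cast); (repeat first | rw [if_pos (by linarith)] | rw [if_neg (by linarith)] | erw [if_pos (by linarith)] | erw [if_neg (by linarith)]))
  ring1
theorem lc33_g {Y t x : ℝ} (hY : ycg.v t = Y) (h2 : (127 / 64) < Y) (h3 : Y ≤ 2) (h4 : t ≤ 1 / 4) : lc33.v t x = ((2 / 5) * (swg.v Y - 1 / 2) + (3 / 5) * t) * (((885939 / 2000000) + (216319 / 100000) * (x - (25 / 32))) + t * ((52330500 / 429616471) + (-(2302190000 / 429616471)) * (x - (25 / 32)))) := by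
  simp only [lc33_11, lc33, hY]
  ((try push_cast); (repeat first | rw [if_pos (by linarith)] | rw [if_neg (by linarith)] | erw [if_pos (by linarith)] | erw [if_neg (by linarith)]))
  ring1
theorem kcc33_g {Y t x : ℝ} (hY : ycg.v t = Y) (h2 : (127 / 64) < Y) (h3 : Y ≤ 2) (h4 : t ≤ 1 / 4) : kcc33.v t x = ((2 / 5) * (swg.v Y - 1 / 2) + (3 / 5) * t) * (((1295 / 167) + (595 / 167) * (x - (25 / 32))) + t * ((-(141427750000 / 29581613303)) + (-(11935250000 / 29581613303)) * (x - (25 / 32)))) := by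
  simp only [kcc33_11, kcc33, hY]
  ((try push_cast); (repeat first | rw [if_pos (by linarith)] | rw [if_neg (by linarith)] | erw [if_pos (by linarith)] | erw [if_neg (by linarith)]))
  ring1
theorem tabF {x : ℝ} : TabOk tK tL pF 67108864 x := by
  refine ⟨?_, ?_, ?_, ?_⟩
  · intro y h hq hd hh
    obtain ⟨r0, r1⟩ := h1_rng hq hd hD hDH hh
    have o : OnC (0 : Fin 5) 1 y := ⟨hq, fun _ => on_h (by linarith [hq.2]) (by linarith [hq.1])⟩
    rw [← (atB01 o).K]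
    show kf0q1.v y x = _
    rw [kf0q1_g hh, kcP r0 r1]
    simp only [pFma, pFmb, pFmu, pFnx, pFc0, pFkc, pFjc, pFca, pFcb, pFcc, pFsv, pFx11, pFx01, pFK11, pFK01, pFL11, pFL01, kFc0, kFc0g, kFa0, kFa0g, kFa1, kFa1g, kFb0, kFb0g, kFb1, kFb1g, kFd0, kFd0g, kFd1, kFd1g, kFe0, kFe0g, kFe1, kFe1g, cFxs1, cFsB1, cFBs1, cFsX1, cFsD1, cFsDD1, nFsc1, nFB1_3, nFB1, nFX1_3, nFX1, nFD1_3, nFD1, nFsc2, nFB2, nFX2, nFD2, nFsc3, nFB3, nFX3, nFD3, l12F, laF, lbF, l1F, l2F, cvF1, ndF1, ndF2, ndF3, pF, pNc0, pNkc, pNjc, pNcc, pNK11, pNK01, kNc0, kNc0g, cNBs1, nNB1_4, nNB1, nNB2, nNB3, umo, us1, us2, us3, uC11, uC01, l12N, cvN1, ndN1, ndN2, ndN3, pN, ul1, ul2, ul3, qN, pf_cons, pf_nil]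
    push_cast
    ring
  · intro y h hq hd hh
    obtain ⟨r0, r1⟩ := h1_rng hq hd hD hDH hh
    have o : OnC (0 : Fin 5) 1 y := ⟨hq, fun _ => on_h (by linarith [hq.2]) (by linarith [hq.1])⟩
    rw [← (atB01 o).L]
    show l0q1.v y x = _
    rw [l0q1_g hh r0 r1]
    simp only [pFma, pFmb, pFmu, pFnx, pFc0, pFkc, pFjc, pFca, pFcb, pFcc, pFsv, pFx11, pFx01, pFK11, pFK01, pFL11, pFL01, kFc0, kFc0g, kFa0, kFa0g, kFa1, kFa1g, kFb0, kFb0g, kFb1, kFb1g, kFd0, kFd0g, kFd1, kFd1g, kFe0, kFe0g, kFe1, kFe1g, cFxs1, cFsB1, cFBs1, cFsX1, cFsD1, cFsDD1, nFsc1, nFB1_3, nFB1, nFX1_3, nFX1, nFD1_3, nFD1, nFsc2, nFB2, nFX2, nFD2, nFsc3, nFB3, nFX3, nFD3, l12F, laF, lbF, l1F, l2F, cvF1, ndF1, ndF2, ndF3, pF, pNc0, pNkc, pNjc, pNcc, pNK11, pNK01, kNc0, kNc0g, cNBs1, nNB1_4, nNB1, nNB2, nNB3, umo, us1, us2, us3, uC11, uC01, l12N, cvN1, ndN1, ndN2, ndN3, pN, ul1, ul2, ul3, qN, pf_cons, pf_nil]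
    push_cast
    ring
  · intro y h hq hd hh
    obtain ⟨r0, r1⟩ := h2_rng hq hd hD hDH hh
    have hy := on_h (r16 hd) (by linarith [hq.1])
    have o : OnC (0 : Fin 5) 2 y := ⟨hq, fun _ => hy⟩
    have hc : c1n y = 1 / 2 - h := by linarith
    have ya := yag_v (y := y) (by linarith [hq.1]) hy
    rw [hc] at ya
    rw [← (atB02 o).K, hc]
    show kfc02.v (1 / 2 - h) x = _
    rw [kfc02_g, kcN r0 r1, ya]
    simp only [pFma, pFmb, pFmu, pFnx, pFc0, pFkc, pFjc, pFca, pFcb, pFcc, pFsv, pFx11, pFx01, pFK11, pFK01, pFL11, pFL01, kFc0, kFc0g, kFa0, kFa0g, kFa1, kFa1g, kFb0, kFb0g, kFb1, kFb1g, kFd0, kFd0g, kFd1, kFd1g, kFe0, kFe0g, kFe1, kFe1g, cFxs1, cFsB1, cFBs1, cFsX1, cFsD1, cFsDD1, nFsc1, nFB1_3, nFB1, nFX1_3, nFX1, nFD1_3, nFD1, nFsc2, nFB2, nFX2, nFD2, nFsc3, nFB3, nFX3, nFD3, l12F, laF, lbF, l1F, l2F, cvF1, ndF1, ndF2, ndF3, pF, pNc0, pNkc, pNjc, pNcc, pNK11, pNK01,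 kNc0, kNc0g, cNBs1, nNB1_4, nNB1, nNB2, nNB3, umo, us1, us2, us3, uC11, uC01, l12N, cvN1, ndN1, ndN2, ndN3, pN, ul1, ul2, ul3, qN, pf_cons, pf_nil]
    push_cast
    ring
  · intro y h hq hd hh
    obtain ⟨r0, r1⟩ := h2_rng hq hd hD hDH hh
    have hy := on_h (r16 hd) (by linarith [hq.1])
    have o : OnC (0 : Fin 5) 2 y := ⟨hq, fun _ => hy⟩
    have hc : c1n y = 1 / 2 - h := by linarith
    rw [← (atB02 o).L, hc]
    show lc02.v (1 / 2 - h) x = _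
    rw [lc02_g r0 r1]
    simp only [pFma, pFmb, pFmu, pFnx, pFc0, pFkc, pFjc, pFca, pFcb, pFcc, pFsv, pFx11, pFx01, pFK11, pFK01, pFL11, pFL01, kFc0, kFc0g, kFa0, kFa0g, kFa1, kFa1g, kFb0, kFb0g, kFb1, kFb1g, kFd0, kFd0g, kFd1, kFd1g, kFe0, kFe0g, kFe1, kFe1g, cFxs1, cFsB1, cFBs1, cFsX1, cFsD1, cFsDD1, nFsc1, nFB1_3, nFB1, nFX1_3, nFX1, nFD1_3, nFD1, nFsc2, nFB2, nFX2, nFD2, nFsc3, nFB3, nFX3, nFD3, l12F, laF, lbF, l1F, l2F, cvF1, ndF1, ndF2, ndF3, pF, pNc0, pNkc, pNjc, pNcc, pNK11, pNK01, kNc0, kNc0g, cNBs1, nNB1_4, nNB1, nNB2, nNB3, umo, us1, us2, us3, uC11, uC01, l12N, cvN1, ndN1, ndN2, ndN3, pN, ul1, ul2, ul3, qN, pf_cons, pf_nil]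
    push_cast
    ring
theorem fitF {x : ℝ} : pF.Fit true 3 x := by
  refine ⟨fun h => absurd h (by decide), ?_, fun h => rfl⟩
  simp only [pFma, pFmb, pFmu, pFnx, pFc0, pFkc, pFjc, pFca, pFcb, pFcc, pFsv, pFx11, pFx01, pFK11, pFK01, pFL11, pFL01, kFc0, kFc0g, kFa0, kFa0g, kFa1, kFa1g, kFb0, kFb0g, kFb1, kFb1g, kFd0, kFd0g, kFd1, kFd1g, kFe0, kFe0g, kFe1, kFe1g, cFxs1, cFsB1, cFBs1, cFsX1, cFsD1, cFsDD1, nFsc1, nFB1_3, nFB1, nFX1_3, nFX1, nFD1_3, nFD1, nFsc2, nFB2, nFX2, nFD2, nFsc3, nFB3, nFX3, nFD3, l12F, laF, lbF, l1F, l2F, cvF1, ndF1, ndF2, ndF3, pF, pNc0, pNkc, pNjc, pNcc, pNK11, pNK01, kNc0, kNc0g, cNBs1, nNB1_4, nNB1, nNB2, nNB3, umo, us1, us2, us3, uC11, uC01, l12N, cvN1, ndN1, ndN2, ndN3, pN, ul1, ul2, ul3, qN]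
  push_cast
  ring
theorem sdFC {x : ℝ} : SdOk PP tK tL pF (dgSC pF) 4 16777216 x := by
  refine sdC rfl ?_ ?_
  · intro Y t h q3 i3 ht hh
    obtain ⟨r0, r1⟩ := h3_rng q3 i3 ht (by norm_num) (by norm_num) hD3H hh
    have hy := ycg_v (y := Y) (by linarith [q3.1]) q3.2
    rw [← ht] at hy
    rw [← (atB43 (onc q3 (by decide))).K, ← ht]
    show kfc43.v t x = _
    rw [kfc43_g hy hh, kcP r0 r1]
    simp only [pFma, pFmb, pFmu, pFnx, pFc0, pFkc, pFjc, pFca, pFcb, pFcc, pFsv, pFx11, pFx01, pFK11, pFK01, pFL11, pFL01, kFc0, kFc0g, kFa0, kFa0g, kFa1, kFa1g, kFb0, kFb0g, kFb1, kFb1g, kFd0, kFd0g, kFd1, kFd1g, kFe0, kFe0g, kFe1, kFe1g, cFxs1, cFsB1, cFBs1, cFsX1, cFsD1, cFsDD1, nFsc1, nFB1_3, nFB1, nFX1_3, nFX1, nFD1_3, nFD1, nFsc2, nFB2, nFX2, nFD2, nFsc3, nFB3, nFX3, nFD3, l12F, laF, lbF, l1F, l2F, cvF1, ndF1, ndF2, ndF3, pF, pNc0, pNkc, pNjc, pNcc, pNK11, pNK01, kNc0, kNc0g,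 cNBs1, nNB1_4, nNB1, nNB2, nNB3, umo, us1, us2, us3, uC11, uC01, l12N, cvN1, ndN1, ndN2, ndN3, pN, ul1, ul2, ul3, qN, pf_cons, pf_nil]
    push_cast
    ring
  · intro Y t h q3 i3 ht hh
    obtain ⟨r0, r1⟩ := h3_rng q3 i3 ht (by norm_num) (by norm_num) hD3H hh
    have hy := ycg_v (y := Y) (by linarith [q3.1]) q3.2
    rw [← ht] at hy
    rw [← (atB43 (onc q3 (by decide))).L, ← ht]
    show lc43.v t x = _
    rw [lc43_g hy hh r0 r1]
    simp only [pFma, pFmb, pFmu, pFnx, pFc0, pFkc, pFjc, pFca, pFcb, pFcc, pFsv, pFx11, pFx01, pFK11, pFK01, pFL11, pFL01, kFc0, kFc0g, kFa0, kFa0g, kFa1, kFa1g, kFb0, kFb0g, kFb1, kFb1g, kFd0, kFd0g, kFd1, kFd1g, kFe0, kFe0g, kFe1, kFe1g, cFxs1, cFsB1, cFBs1, cFsX1, cFsD1, cFsDD1, nFsc1, nFB1_3, nFB1, nFX1_3, nFX1, nFD1_3, nFD1, nFsc2, nFB2, nFX2, nFD2, nFsc3, nFB3, nFX3, nFD3, l12F, laF, lbF, l1F, l2F, cvF1, ndF1, ndF2, ndF3, pF, pNc0, pNkc,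 pNjc, pNcc, pNK11, pNK01, kNc0, kNc0g, cNBs1, nNB1_4, nNB1, nNB2, nNB3, umo, us1, us2, us3, uC11, uC01, l12N, cvN1, ndN1, ndN2, ndN3, pN, ul1, ul2, ul3, qN, pf_cons, pf_nil]
    push_cast
    ring
theorem nlF1 {x : ℝ} : NuL PP tK tL ndF1 1 16777216 x := by
  have hr : PP.ρ 1 = 2 / 5 := rfl
  refine ⟨by rw [hr]; norm_num, fun u => ?_, fun {Y t} q3 i3 ht hw => ?_, fun {Y t} q3 i3 ht hw => ?_⟩
  · rw [hr]
    simp only [pFma, pFmb, pFc0, nFsc1, nFB1_3, nFB1, nFX1_3, nFX1, nFD1_3, nFD1, ndF1, pF, pNc0, nNB1_4, nNB1, us3, qN]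
    push_cast
    ring
  · have h2 : (127 / 64) < Y := by
      have := (abs_lt.1 i3).1
      rw [S_one] at this
      norm_num at this
      linarith
    rw [← (atB13 (onc q3 (by decide))).K]
    show kf1q3.v Y x = _
    rw [kf1q3_g h2 q3.2, ← ecv1q3 q3.1]
    simp only [c3g_v, ← ht, hw, pFma, pFmb, pFc0, nFsc1, nFB1_3, nFB1, nFX1_3, nFX1, nFD1_3, nFD1, ndF1, pF, pNc0, nNB1_4, nNB1, us3, qN]
    push_cast
    ring
  · have h2 : (127 / 64) < Y := by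
      have := (abs_lt.1 i3).1
      rw [S_one] at this
      norm_num at this
      linarith
    rw [← (atB13 (onc q3 (by decide))).L]
    show l1q3.v Y x = _
    rw [l1q3_g h2 q3.2, ← ecv1q3 q3.1]
    simp only [c3g_v, ← ht, hw, pFma, pFmb, pFc0, nFsc1, nFB1_3, nFB1, nFX1_3, nFX1, nFD1_3, nFD1, ndF1, pF, pNc0, nNB1_4, nNB1, us3, qN]
    push_cast
    ring
theorem sdF1 {x : ℝ} : SdOk PP tK tL pF (ndUL pF ndF1) 1 16777216 x := nlF1.sd
theorem nrF2 {x : ℝ} : NuR PP tK tL pF ndF2 2 16777216 x := by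
  have hr : PP.ρ 2 = 6 / 5 := rfl
  refine ⟨by rw [hr]; norm_num, fun u => ?_, fun {Y t} q3 i3 ht hw => ?_, fun {Y t} q3 i3 ht hw => ?_⟩
  · rw [hr]
    simp only [pFma, pFmb, pFc0, nFsc2, nFB2, nFX2, nFD2, ndF2, pF, pNc0, nNB2, us3, qN]
    push_cast
    ring
  · have h2 : (127 / 64) < Y := by
      have := (abs_lt.1 i3).1
      rw [S_one] at this
      norm_num at this
      linarith
    have hy := ycg_v (y := Y) (by linarith [q3.1]) q3.2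
    rw [← ht] at hy
    have h4 : t ≤ 1 / 4 := by
      rw [ht]
      exact c3n_small hD3 q3 i3
    rw [← (atB23 (onc q3 (by decide))).K, ← ht]
    show kfc23.v t x = _
    rw [kfc23_g hy h2 q3.2 h4]
    rw [ecv2q3 q3.1, cv2r_v, ← ht]
    simp only [swg_v, dga3c, dgsl3, pFma, pFmb, pFc0, nFsc2, nFB2, nFX2, nFD2, ndF2, pF, pNc0, nNB2, us3, qN]
    push_cast
    ring
  · have h2 : (127 / 64) < Y := by
      have := (abs_lt.1 i3).1
      rw [S_one] at this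
      norm_num at this
      linarith
    have hy := ycg_v (y := Y) (by linarith [q3.1]) q3.2
    rw [← ht] at hy
    have h4 : t ≤ 1 / 4 := by
      rw [ht]
      exact c3n_small hD3 q3 i3
    rw [← (atB23 (onc q3 (by decide))).L, ← ht]
    show lc23.v t x = _
    rw [lc23_g hy h2 q3.2 h4]
    rw [ecv2q3 q3.1, cv2r_v, ← ht]
    simp only [swg_v, dga3c, dgsl3, pFma, pFmb, pFc0, nFsc2, nFB2, nFX2, nFD2, ndF2, pF, pNc0, nNB2, us3, qN]
    push_cast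
    ring
theorem sdF2 {x : ℝ} : SdOk PP tK tL pF (ndUR ndF2) 2 16777216 x := nrF2.sd
theorem nrF3 {x : ℝ} : NuR PP tK tL pF ndF3 3 16777216 x := by
  have hr : PP.ρ 3 = 8 / 5 := rfl
  refine ⟨by rw [hr]; norm_num, fun u => ?_, fun {Y t} q3 i3 ht hw => ?_, fun {Y t} q3 i3 ht hw => ?_⟩
  · rw [hr]
    simp only [pFma, pFmb, pFc0, nFsc3, nFB3, nFX3, nFD3, ndF3, pF, pNc0, nNB3, us3, qN]
    push_cast
    ring
  · have h2 : (127 / 64) < Y := by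
      have := (abs_lt.1 i3).1
      rw [S_one] at this
      norm_num at this
      linarith
    have hy := ycg_v (y := Y) (by linarith [q3.1]) q3.2
    rw [← ht] at hy
    have h4 : t ≤ 1 / 4 := by
      rw [ht]
      exact c3n_small hD3 q3 i3
    rw [← (atB33 (onc q3 (by decide))).K, ← ht]
    show kfc33.v t x = _
    rw [kfc33_g hy h2 q3.2 h4]
    rw [ecv3q3 q3.1, cv3r_v, ← ht]
    simp only [swg_v, dga3c, dgsl3, pFma, pFmb, pFc0, nFsc3, nFB3, nFX3, nFD3, ndF3, pF, pNc0, nNB3, us3, qN]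
    push_cast
    ring
  · have h2 : (127 / 64) < Y := by
      have := (abs_lt.1 i3).1
      rw [S_one] at this
      norm_num at this
      linarith
    have hy := ycg_v (y := Y) (by linarith [q3.1]) q3.2
    rw [← ht] at hy
    have h4 : t ≤ 1 / 4 := by
      rw [ht]
      exact c3n_small hD3 q3 i3
    rw [← (atB33 (onc q3 (by decide))).L, ← ht]
    show lc33.v t x = _
    rw [lc33_g hy h2 q3.2 h4]
    rw [ecv3q3 q3.1, cv3r_v, ← ht]
    simp only [swg_v, dga3c, dgsl3, pFma, pFmb, pFc0, nFsc3, nFB3, nFX3, nFD3, ndF3, pF, pNc0, nNB3, us3, qN]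
    push_cast
    ring
theorem sdF3 {x : ℝ} : SdOk PP tK tL pF (ndUR ndF3) 3 16777216 x := nrF3.sd
theorem bf1q2_g {v x : ℝ} (v0 : 0 ≤ v) (v1 : v < (1 / 16)) : bf1q2.v (1 + v) x = 1 + v * cFsB1.v v x := by
  simp only [bf1q2_3, bf1q2, cFsB1]
  ((try push_cast); (repeat first | rw [if_pos (by linarith)] | rw [if_neg (by linarith)] | erw [if_pos (by linarith)] | erw [if_neg (by linarith)]))
  ring1
theorem bx1q2_g {v x : ℝ} (v0 : 0 ≤ v) (v1 : v < (1 / 16)) : bx1q2.v (1 + v) x = 0 + v * cFsX1.v v x := by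
  simp only [bx1q2_3, bx1q2, cFsX1]
  ((try push_cast); (repeat first | rw [if_pos (by linarith)] | rw [if_neg (by linarith)] | erw [if_pos (by linarith)] | erw [if_neg (by linarith)]))
  ring1
theorem bd1q2_g {v x : ℝ} (v0 : 0 ≤ v) (v1 : v < (1 / 16)) : bd1q2.v (1 + v) x = 0 + v * cFsD1.v v x := by
  simp only [bd1q2_3, bd1q2, cFsD1]
  ((try push_cast); (repeat first | rw [if_pos (by linarith)] | rw [if_neg (by linarith)] | erw [if_pos (by linarith)] | erw [if_neg (by linarith)]))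
  ring1
theorem cvokF1 {x : ℝ} : CvOk PP tK tL pF cvF1 1 67108864 x := by
  intro v v0 v1
  have v2 : v < (1 / 16) := by
    rw [S_one] at v1
    norm_num at v1
    linarith
  have hxi := dgxi_v v0 (by linarith)
  have hws := dgws_v v0 (by linarith)
  have q2 : InQ 2 (1 + v) := ⟨by linarith, by linarith⟩
  have o : OnC (1 : Fin 5) 2 (1 + v) := onc q2 (by decide)
  have ex : crv PP 1 2 (1 + v) = 1 / 2 - v * cvF1.xs.v v := by
    rw [ecv1q2, cv1p_v, hxi, hws]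
    simp only [pFma, pFmb, pFmu, pFnx, pFc0, pFkc, pFjc, pFca, pFcb, pFcc, pFsv, pFx11, pFx01, pFK11, pFK01, pFL11, pFL01, kFc0, kFc0g, kFa0, kFa0g, kFa1, kFa1g, kFb0, kFb0g, kFb1, kFb1g, kFd0, kFd0g, kFd1, kFd1g, kFe0, kFe0g, kFe1, kFe1g, cFxs1, cFsB1, cFBs1, cFsX1, cFsD1, cFsDD1, nFsc1, nFB1_3, nFB1, nFX1_3, nFX1, nFD1_3, nFD1, nFsc2, nFB2, nFX2, nFD2, nFsc3, nFB3, nFX3, nFD3, l12F, laF, lbF, l1F, l2F, cvF1, ndF1, ndF2, ndF3, pF, pNc0, pNkc, pNjc, pNcc, pNK11, pNK01, kNc0, kNc0g, cNBs1, nNB1_4, nNB1, nNB2, nNB3, umo, us1, us2, us3, uC11, uC01, l12N, cvN1, ndN1, ndN2, ndN3, pN, ul1, ul2, ul3, qN]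
    push_cast
    ring
  refine ⟨ex, ?_, ?_⟩
  · rw [← (atB12 o).K]
    show kf1q2.v (1 + v) x = _
    have ef : kf1q2.v (1 + v) x = cv1p.v (1 + v) * bf1q2.v (1 + v) x := by
      simp only [kf1q2, bf1q2_3, bf1q2]
    rw [ef, bf1q2_g v0 v2, ← ecv1q2, ex]
    simp only [pFmu, pFc0, cFBs1, cvF1, pF, pNc0, cNBs1]
    push_cast
    ring
  · rw [← (atB12 o).L]
    show l1q2.v (1 + v) x = _
    have ef : l1q2.v (1 + v) x = cv1p.v (1 + v) * bx1q2.v (1 + v) x := by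
      simp only [l1q2, bx1q2_3, bx1q2]
    rw [ef, bx1q2_g v0 v2, ← ecv1q2, ex, zero_add]
    rfl
theorem p1okF {x : ℝ} : P1Ok PP tK tL pF 1 67108864 x := by
  refine ⟨fun hq _ => ecv1q1, fun hq _ => (congrFun c1g_v _).symm, fun hq _ => ((atB11 (onc hq (by decide))).K).symm,
    fun hq _ => ((atB01 ⟨hq, fun _ => on_h (by linarith [hq.2]) (by linarith [hq.1])⟩).K).symm,
    fun hq _ => ((atB11 (onc hq (by decide))).L).symm,
    fun hq _ => ((atB01 ⟨hq, fun _ => on_h (by linarith [hq.2]) (by linarith [hq.1])⟩).L).symm⟩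
theorem svF (u : ℝ) : pF.sv.v u = u - ((67108864 : ℕ) : ℝ) / S := by
  rw [S_one]
  simp only [pFma, pFmb, pFmu, pFnx, pFc0, pFkc, pFjc, pFca, pFcb, pFcc, pFsv, pFx11, pFx01, pFK11, pFK01, pFL11, pFL01, kFc0, kFc0g, kFa0, kFa0g, kFa1, kFa1g, kFb0, kFb0g, kFb1, kFb1g, kFd0, kFd0g, kFd1, kFd1g, kFe0, kFe0g, kFe1, kFe1g, cFxs1, cFsB1, cFBs1, cFsX1, cFsD1, cFsDD1, nFsc1, nFB1_3, nFB1, nFX1_3, nFX1, nFD1_3, nFD1, nFsc2, nFB2, nFX2, nFD2, nFsc3, nFB3, nFX3, nFD3, l12F, laF, lbF, l1F, l2F, cvF1, ndF1, ndF2, ndF3, pF, pNc0, pNkc, pNjc, pNcc, pNK11, pNK01, kNc0, kNc0g, cNBs1, nNB1_4, nNB1, nNB2, nNB3, umo, us1, us2, us3, uC11, uC01, l12N, cvN1, ndN1, ndN2, ndN3, pN, ul1, ul2, ul3, qN]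
  push_cast
  ring
theorem tabN {x : ℝ} : TabOk (scK (eng.v x) tK) tL pN 67108864 x := by
  refine ⟨?_, ?_, ?_, ?_⟩
  · intro y h hq hd hh
    obtain ⟨r0, r1⟩ := h1_rng hq hd hD hDH hh
    have o : OnC (0 : Fin 5) 1 y := ⟨hq, fun _ => on_h (by linarith [hq.2]) (by linarith [hq.1])⟩
    show eng.v x * tK 0 1 y x = _
    rw [← (atB01 o).K]
    show eng.v x * kf0q1.v y x = _
    rw [kf0q1_g hh, kcP r0 r1]
    simp only [pFma, pFmb, pFmu, pFnx, pFc0, pFkc, pFjc, pFca, pFcb, pFcc, pFsv, pFx11, pFx01, pFK11, pFK01, pFL11, pFL01, kFc0, kFc0g, kFa0, kFa0g, kFa1, kFa1g, kFb0, kFb0g, kFb1, kFb1g, kFd0, kFd0g, kFd1, kFd1g, kFe0, kFe0g, kFe1, kFe1g, cFxs1, cFsB1, cFBs1, cFsX1, cFsD1, cFsDD1, nFsc1, nFB1_3, nFB1, nFX1_3, nFX1, nFD1_3, nFD1, nFsc2, nFB2, nFX2, nFD2, nFsc3, nFB3, nFX3, nFD3, l12F, laF, lbF, l1F, l2F, cvF1, ndF1, ndF2, ndF3, pF, pNc0, pNkc, pNjc, pNcc, pNK11, pNK01, kNc0,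 kNc0g, cNBs1, nNB1_4, nNB1, nNB2, nNB3, umo, us1, us2, us3, uC11, uC01, l12N, cvN1, ndN1, ndN2, ndN3, pN, ul1, ul2, ul3, qN, pf_cons, pf_nil]
    push_cast
    ring
  · intro y h hq hd hh
    obtain ⟨r0, r1⟩ := h1_rng hq hd hD hDH hh
    have o : OnC (0 : Fin 5) 1 y := ⟨hq, fun _ => on_h (by linarith [hq.2]) (by linarith [hq.1])⟩
    rw [← (atB01 o).L]
    show l0q1.v y x = _
    rw [l0q1_g hh r0 r1]
    simp only [pFma, pFmb, pFmu, pFnx, pFc0, pFkc, pFjc, pFca, pFcb, pFcc, pFsv, pFx11, pFx01, pFK11, pFK01, pFL11, pFL01, kFc0, kFc0g, kFa0, kFa0g, kFa1, kFa1g, kFb0, kFb0g, kFb1, kFb1g, kFd0, kFd0g, kFd1, kFd1g, kFe0, kFe0g, kFe1, kFe1g, cFxs1, cFsB1, cFBs1, cFsX1, cFsD1, cFsDD1, nFsc1, nFB1_3, nFB1, nFX1_3, nFX1, nFD1_3, nFD1, nFsc2, nFB2, nFX2, nFD2, nFsc3, nFB3, nFX3, nFD3, l12F, laF, lbF, l1F, l2F, cvF1, ndF1, ndF2, ndF3, pF, pNc0, pNkc, pNjc, pNcc, pNK11, pNK01, kNc0,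 kNc0g, cNBs1, nNB1_4, nNB1, nNB2, nNB3, umo, us1, us2, us3, uC11, uC01, l12N, cvN1, ndN1, ndN2, ndN3, pN, ul1, ul2, ul3, qN, pf_cons, pf_nil]
    push_cast
    ring
  · intro y h hq hd hh
    obtain ⟨r0, r1⟩ := h2_rng hq hd hD hDH hh
    have hy := on_h (r16 hd) (by linarith [hq.1])
    have o : OnC (0 : Fin 5) 2 y := ⟨hq, fun _ => hy⟩
    have hc : c1n y = 1 / 2 - h := by linarith
    have ya := yag_v (y := y) (by linarith [hq.1]) hy
    rw [hc] at ya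
    show eng.v x * tK 0 2 y x = _
    rw [← (atB02 o).K, hc]
    show eng.v x * kfc02.v (1 / 2 - h) x = _
    rw [kfc02_g, kcN r0 r1, ya]
    simp only [pFma, pFmb, pFmu, pFnx, pFc0, pFkc, pFjc, pFca, pFcb, pFcc, pFsv, pFx11, pFx01, pFK11, pFK01, pFL11, pFL01, kFc0, kFc0g, kFa0, kFa0g, kFa1, kFa1g, kFb0, kFb0g, kFb1, kFb1g, kFd0, kFd0g, kFd1, kFd1g, kFe0, kFe0g, kFe1, kFe1g, cFxs1, cFsB1, cFBs1, cFsX1, cFsD1, cFsDD1, nFsc1, nFB1_3, nFB1, nFX1_3, nFX1, nFD1_3, nFD1, nFsc2, nFB2, nFX2, nFD2, nFsc3, nFB3, nFX3, nFD3, l12F, laF, lbF, l1F, l2F, cvF1, ndF1, ndF2, ndF3, pF, pNc0, pNkc, pNjc, pNcc, pNK11, pNK01, kNc0, kNc0g, cNBs1, nNB1_4, nNB1, nNB2, nNB3, umo, us1, us2, us3, uC11, uC01, l12N, cvN1, ndN1, ndN2, ndN3, pN, ul1, ul2, ul3, qN, pf_cons, pf_nil]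
    push_cast
    ring
  · intro y h hq hd hh
    obtain ⟨r0, r1⟩ := h2_rng hq hd hD hDH hh
    have hy := on_h (r16 hd) (by linarith [hq.1])
    have o : OnC (0 : Fin 5) 2 y := ⟨hq, fun _ => hy⟩
    have hc : c1n y = 1 / 2 - h := by linarith
    rw [← (atB02 o).L, hc]
    show lc02.v (1 / 2 - h) x = _
    rw [lc02_g r0 r1]
    simp only [pFma, pFmb, pFmu, pFnx, pFc0, pFkc, pFjc, pFca, pFcb, pFcc, pFsv, pFx11, pFx01, pFK11, pFK01, pFL11, pFL01, kFc0, kFc0g, kFa0, kFa0g, kFa1, kFa1g, kFb0, kFb0g, kFb1, kFb1g, kFd0, kFd0g, kFd1, kFd1g, kFe0, kFe0g, kFe1, kFe1g, cFxs1, cFsB1, cFBs1, cFsX1, cFsD1, cFsDD1, nFsc1, nFB1_3, nFB1, nFX1_3, nFX1, nFD1_3, nFD1, nFsc2, nFB2, nFX2, nFD2, nFsc3, nFB3, nFX3, nFD3, l12F, laF, lbF, l1F, l2F, cvF1, ndF1, ndF2, ndF3, pF, pNc0, pNkc, pNjc, pNcc, pNK11, pNK01, kNc0, kNc0g, cNBs1, nNB1_4, nNB1, nNB2, nNB3, umo, us1, us2, us3, uC11, uC01, l12N,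 cvN1, ndN1, ndN2, ndN3, pN, ul1, ul2, ul3, qN, pf_cons, pf_nil]
    push_cast
    ring
theorem tabU {x : ℝ} : TabU tU qN 67108864 x := by
  refine ⟨?_, ?_⟩
  · intro y h hq hd hh
    obtain ⟨r0, r1⟩ := h1_rng hq hd hD hDH hh
    have hc : c1n y = 2 * h - 1 + 3 / 2 * y := by linarith
    have o : OnC (0 : Fin 5) 1 y := ⟨hq, fun _ => on_h (by linarith [hq.2]) (by linarith [hq.1])⟩
    rw [show tU 0 1 y x = kc0q1.v y x from tbF_on (fn := nc) (crd := crd) (x := x) o, kc0q1_g hc r0 r1]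
    simp only [pFma, pFmb, pFmu, pFnx, pFc0, pFkc, pFjc, pFca, pFcb, pFcc, pFsv, pFx11, pFx01, pFK11, pFK01, pFL11, pFL01, kFc0, kFc0g, kFa0, kFa0g, kFa1, kFa1g, kFb0, kFb0g, kFb1, kFb1g, kFd0, kFd0g, kFd1, kFd1g, kFe0, kFe0g, kFe1, kFe1g, cFxs1, cFsB1, cFBs1, cFsX1, cFsD1, cFsDD1, nFsc1, nFB1_3, nFB1, nFX1_3, nFX1, nFD1_3, nFD1, nFsc2, nFB2, nFX2, nFD2, nFsc3, nFB3, nFX3, nFD3, l12F, laF, lbF, l1F, l2F, cvF1, ndF1, ndF2, ndF3, pF, pNc0, pNkc, pNjc, pNcc, pNK11, pNK01, kNc0, kNc0g, cNBs1, nNB1_4, nNB1, nNB2, nNB3, umo, us1, us2, us3, uC11, uC01, l12N, cvN1, ndN1, ndN2, ndN3, pN, ul1, ul2, ul3, qN, pf_cons, pf_nil]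
    push_cast
    ring
  · intro y h hq hd hh
    obtain ⟨r0, r1⟩ := h2_rng hq hd hD hDH hh
    have hy := on_h (r16 hd) (by linarith [hq.1])
    have hc : c1n y = 1 / 2 - h := by linarith
    have o : OnC (0 : Fin 5) 2 y := ⟨hq, fun _ => hy⟩
    rw [show tU 0 2 y x = kcc02.v (c1n y) x from tbF_on (fn := nc) (crd := crd) (x := x) o, hc, kcc02_g r0 r1]
    simp only [pFma, pFmb, pFmu, pFnx, pFc0, pFkc, pFjc, pFca, pFcb, pFcc, pFsv, pFx11, pFx01, pFK11, pFK01, pFL11, pFL01, kFc0, kFc0g, kFa0, kFa0g, kFa1, kFa1g, kFb0, kFb0g, kFb1, kFb1g, kFd0, kFd0g, kFd1, kFd1g, kFe0, kFe0g, kFe1, kFe1g, cFxs1, cFsB1, cFBs1, cFsX1, cFsD1, cFsDD1, nFsc1, nFB1_3, nFB1, nFX1_3, nFX1, nFD1_3, nFD1, nFsc2, nFB2, nFX2, nFD2, nFsc3, nFB3, nFX3, nFD3, l12F, laF, lbF, l1F, l2F, cvF1, ndF1, ndF2, ndF3, pF, pNc0, pNkc, pNjc, pNcc, pNK11, pNK01, kNc0, kNc0g, cNBs1, nNB1_4, nNB1, nNB2, nNB3, umo, us1,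 us2, us3, uC11, uC01, l12N, cvN1, ndN1, ndN2, ndN3, pN, ul1, ul2, ul3, qN, pf_cons, pf_nil]
    push_cast
    ring
theorem fitN {x : ℝ} : pN.Fit false 3 x := by
  refine ⟨fun h => mu_v x, ?_, fun h => absurd h (by decide)⟩
  simp only [pFma, pFmb, pFmu, pFnx, pFc0, pFkc, pFjc, pFca, pFcb, pFcc, pFsv, pFx11, pFx01, pFK11, pFK01, pFL11, pFL01, kFc0, kFc0g, kFa0, kFa0g, kFa1, kFa1g, kFb0, kFb0g, kFb1, kFb1g, kFd0, kFd0g, kFd1, kFd1g, kFe0, kFe0g, kFe1, kFe1g, cFxs1, cFsB1, cFBs1, cFsX1, cFsD1, cFsDD1, nFsc1, nFB1_3, nFB1, nFX1_3, nFX1, nFD1_3, nFD1, nFsc2, nFB2, nFX2, nFD2, nFsc3, nFB3, nFX3, nFD3, l12F, laF, lbF, l1F, l2F, cvF1, ndF1, ndF2, ndF3, pF, pNc0, pNkc, pNjc, pNcc, pNK11, pNK01, kNc0, kNc0g, cNBs1, nNB1_4, nNB1, nNB2, nNB3, umo, us1, us2, us3, uC11, uC01, l12N, cvN1, ndN1, ndN2, ndN3, pN, ul1, ul2, ul3, qN]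
  push_cast
  ring
theorem sdNC {x : ℝ} : SdOk PP (scK (eng.v x) tK) tL pN (dgSC pN) 4 16777216 x := by
  refine sdC rfl ?_ ?_
  · intro Y t h q3 i3 ht hh
    obtain ⟨r0, r1⟩ := h3_rng q3 i3 ht (by norm_num) (by norm_num) hD3H hh
    have hy := ycg_v (y := Y) (by linarith [q3.1]) q3.2
    rw [← ht] at hy
    show eng.v x * tK 4 3 Y x = _
    rw [← (atB43 (onc q3 (by decide))).K, ← ht]
    show eng.v x * kfc43.v t x = _
    rw [kfc43_g hy hh, kcP r0 r1]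
    simp only [pFma, pFmb, pFmu, pFnx, pFc0, pFkc, pFjc, pFca, pFcb, pFcc, pFsv, pFx11, pFx01, pFK11, pFK01, pFL11, pFL01, kFc0, kFc0g, kFa0, kFa0g, kFa1, kFa1g, kFb0, kFb0g, kFb1, kFb1g, kFd0, kFd0g, kFd1, kFd1g, kFe0, kFe0g, kFe1, kFe1g, cFxs1, cFsB1, cFBs1, cFsX1, cFsD1, cFsDD1, nFsc1, nFB1_3, nFB1, nFX1_3, nFX1, nFD1_3, nFD1, nFsc2, nFB2, nFX2, nFD2, nFsc3, nFB3, nFX3, nFD3, l12F, laF, lbF, l1F, l2F, cvF1, ndF1, ndF2, ndF3, pF, pNc0, pNkc, pNjc, pNcc, pNK11, pNK01, kNc0, kNc0g, cNBs1, nNB1_4, nNB1, nNB2, nNB3, umo, us1, us2, us3, uC11, uC01, l12N, cvN1, ndN1, ndN2, ndN3, pN, ul1, ul2, ul3, qN, pf_cons, pf_nil]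
    push_cast
    ring
  · intro Y t h q3 i3 ht hh
    obtain ⟨r0, r1⟩ := h3_rng q3 i3 ht (by norm_num) (by norm_num) hD3H hh
    have hy := ycg_v (y := Y) (by linarith [q3.1]) q3.2
    rw [← ht] at hy
    rw [← (atB43 (onc q3 (by decide))).L, ← ht]
    show lc43.v t x = _
    rw [lc43_g hy hh r0 r1]
    simp only [pFma, pFmb, pFmu, pFnx, pFc0, pFkc, pFjc, pFca, pFcb, pFcc, pFsv, pFx11, pFx01, pFK11, pFK01, pFL11, pFL01, kFc0, kFc0g, kFa0, kFa0g, kFa1, kFa1g, kFb0, kFb0g, kFb1, kFb1g, kFd0, kFd0g, kFd1, kFd1g, kFe0, kFe0g, kFe1, kFe1g, cFxs1, cFsB1, cFBs1, cFsX1, cFsD1, cFsDD1, nFsc1, nFB1_3, nFB1, nFX1_3, nFX1, nFD1_3, nFD1, nFsc2, nFB2, nFX2, nFD2, nFsc3, nFB3, nFX3, nFD3, l12F, laF, lbF, l1F, l2F, cvF1, ndF1, ndF2, ndF3, pF, pNc0, pNkc, pNjc, pNcc, pNK11, pNK01, kNc0, kNc0g, cNBs1, nNB1_4, nNB1, nNB2, nNB3, umo, us1, us2, us3, uC11, uC01, l12N, cvN1, ndN1, ndN2, ndN3,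 pN, ul1, ul2, ul3, qN, pf_cons, pf_nil]
    push_cast
    ring
theorem suNC {x : ℝ} : SuOk tU qN (dgSC pN) (suC qN) 4 16777216 x := by
  refine suC_ok (p := pN) ?_
  intro Y t h q3 i3 ht hh
  obtain ⟨r0, r1⟩ := h3_rng q3 i3 ht (by norm_num) (by norm_num) hD3H hh
  have hy := ycg_v (y := Y) (by linarith [q3.1]) q3.2
  rw [← ht] at hy
  rw [show tU 4 3 Y x = kcc43.v (c3n Y) x from tbF_on (fn := nc) (crd := crd) (x := x) (onc q3 (by decide)), ← ht, kcc43_g hy hh r0 r1]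
  simp only [pFma, pFmb, pFmu, pFnx, pFc0, pFkc, pFjc, pFca, pFcb, pFcc, pFsv, pFx11, pFx01, pFK11, pFK01, pFL11, pFL01, kFc0, kFc0g, kFa0, kFa0g, kFa1, kFa1g, kFb0, kFb0g, kFb1, kFb1g, kFd0, kFd0g, kFd1, kFd1g, kFe0, kFe0g, kFe1, kFe1g, cFxs1, cFsB1, cFBs1, cFsX1, cFsD1, cFsDD1, nFsc1, nFB1_3, nFB1, nFX1_3, nFX1, nFD1_3, nFD1, nFsc2, nFB2, nFX2, nFD2, nFsc3, nFB3, nFX3, nFD3, l12F, laF, lbF, l1F, l2F, cvF1, ndF1, ndF2, ndF3, pF, pNc0, pNkc, pNjc, pNcc, pNK11, pNK01, kNc0, kNc0g, cNBs1, nNB1_4, nNB1, nNB2, nNB3, umo, us1, us2, us3, uC11, uC01, l12N, cvN1, ndN1, ndN2, ndN3, pN, ul1, ul2, ul3, qN, pf_cons, pf_nil]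
  push_cast
  ring
theorem nlN1 {x : ℝ} : NuL PP (scK (eng.v x) tK) tL ndN1 1 16777216 x := by
  have hr : PP.ρ 1 = 2 / 5 := rfl
  refine ⟨by rw [hr]; norm_num, fun u => ?_, fun {Y t} q3 i3 ht hw => ?_, fun {Y t} q3 i3 ht hw => ?_⟩
  · rw [hr]
    simp only [pFma, pFmb, pFc0, nFsc1, nFB1_3, nFB1, nFX1_3, nFX1, nFD1_3, nFD1, pNc0, nNB1_4, nNB1, us3, ndN1, pN, qN]
    push_cast
    ring
  · have h2 : (127 / 64) < Y := by
      have := (abs_lt.1 i3).1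
      rw [S_one] at this
      norm_num at this
      linarith
    show eng.v x * tK 1 3 Y x = _
    rw [← (atB13 (onc q3 (by decide))).K]
    show eng.v x * kf1q3.v Y x = _
    rw [kf1q3_g h2 q3.2, ← ecv1q3 q3.1]
    simp only [c3g_v, ← ht, hw, pFma, pFmb, pFc0, nFsc1, nFB1_3, nFB1, nFX1_3, nFX1, nFD1_3, nFD1, pNc0, nNB1_4, nNB1, us3, ndN1, pN, qN]
    push_cast
    ring
  · have h2 : (127 / 64) < Y := by
      have := (abs_lt.1 i3).1
      rw [S_one] at this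
      norm_num at this
      linarith
    rw [← (atB13 (onc q3 (by decide))).L]
    show l1q3.v Y x = _
    rw [l1q3_g h2 q3.2, ← ecv1q3 q3.1]
    simp only [c3g_v, ← ht, hw, pFma, pFmb, pFc0, nFsc1, nFB1_3, nFB1, nFX1_3, nFX1, nFD1_3, nFD1, pNc0, nNB1_4, nNB1, us3, ndN1, pN, qN]
    push_cast
    ring
theorem sdN1 {x : ℝ} : SdOk PP (scK (eng.v x) tK) tL pN (ndUL pN ndN1) 1 16777216 x := nlN1.sd
theorem nc1 {x : ℝ} : NuLC PP tU ndN1 1 16777216 x := by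
  intro Y t q3 i3 ht hw
  have h2 : (127 / 64) < Y := by
    have := (abs_lt.1 i3).1
    rw [S_one] at this
    norm_num at this
    linarith
  rw [show tU 1 3 Y x = kc1q3.v Y x from tbF_on (fn := nc) (crd := crd) (x := x) (onc q3 (by decide)), kc1q3_g h2 q3.2, ← ecv1q3 q3.1]
  simp only [c3g_v, ← ht, hw, pFma, pFmb, pFc0, nFsc1, nFB1_3, nFB1, nFX1_3, nFX1, nFD1_3, nFD1, pNc0, nNB1_4, nNB1, us3, ndN1, pN, qN]
  push_cast
  ring
theorem suN1 {x : ℝ} : SuOk tU qN (ndUL pN ndN1) (suL qN ndN1) 1 16777216 x := nc1.su (nlN1 (x := x)).hj (nlN1 (x := x)).sc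
theorem nrN2 {x : ℝ} : NuR PP (scK (eng.v x) tK) tL pN ndN2 2 16777216 x := by
  have hr : PP.ρ 2 = 6 / 5 := rfl
  refine ⟨by rw [hr]; norm_num, fun u => ?_, fun {Y t} q3 i3 ht hw => ?_, fun {Y t} q3 i3 ht hw => ?_⟩
  · rw [hr]
    simp only [pFma, pFmb, pFc0, nFsc2, nFB2, nFX2, nFD2, pNc0, nNB2, us3, ndN2, pN, qN]
    push_cast
    ring
  · have h2 : (127 / 64) < Y := by
      have := (abs_lt.1 i3).1
      rw [S_one] at this
      norm_num at this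
      linarith
    have hy := ycg_v (y := Y) (by linarith [q3.1]) q3.2
    rw [← ht] at hy
    have h4 : t ≤ 1 / 4 := by
      rw [ht]
      exact c3n_small hD3 q3 i3
    show eng.v x * tK 2 3 Y x = _
    rw [← (atB23 (onc q3 (by decide))).K, ← ht]
    show eng.v x * kfc23.v t x = _
    rw [kfc23_g hy h2 q3.2 h4]
    rw [ecv2q3 q3.1, cv2r_v, ← ht]
    simp only [swg_v, dga3c, dgsl3, pFma, pFmb, pFc0, nFsc2, nFB2, nFX2, nFD2, pNc0, nNB2, us3, ndN2, pN, qN]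
    push_cast
    ring
  · have h2 : (127 / 64) < Y := by
      have := (abs_lt.1 i3).1
      rw [S_one] at this
      norm_num at this
      linarith
    have hy := ycg_v (y := Y) (by linarith [q3.1]) q3.2
    rw [← ht] at hy
    have h4 : t ≤ 1 / 4 := by
      rw [ht]
      exact c3n_small hD3 q3 i3
    rw [← (atB23 (onc q3 (by decide))).L, ← ht]
    show lc23.v t x = _
    rw [lc23_g hy h2 q3.2 h4]
    rw [ecv2q3 q3.1, cv2r_v, ← ht]
    simp only [swg_v, dga3c, dgsl3, pFma, pFmb, pFc0, nFsc2, nFB2, nFX2, nFD2, pNc0, nNB2, us3, ndN2, pN, qN]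
    push_cast
    ring
theorem sdN2 {x : ℝ} : SdOk PP (scK (eng.v x) tK) tL pN (ndUR ndN2) 2 16777216 x := nrN2.sd
theorem nc2 {x : ℝ} : NuRC PP tU qN ndN2 2 16777216 x := by
  intro Y t q3 i3 ht hw
  have h2 : (127 / 64) < Y := by
    have := (abs_lt.1 i3).1
    rw [S_one] at this
    norm_num at this
    linarith
  have hy := ycg_v (y := Y) (by linarith [q3.1]) q3.2
  rw [← ht] at hy
  have h4 : t ≤ 1 / 4 := by
    rw [ht]
    exact c3n_small hD3 q3 i3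
  rw [show tU 2 3 Y x = kcc23.v (c3n Y) x from tbF_on (fn := nc) (crd := crd) (x := x) (onc q3 (by decide)), ← ht, kcc23_g hy h2 q3.2 h4]
  rw [ecv2q3 q3.1, cv2r_v, ← ht]
  simp only [swg_v, dga3c, dgsl3, pFma, pFmb, pFc0, nFsc2, nFB2, nFX2, nFD2, pNc0, nNB2, us3, ndN2, pN, qN]
  push_cast
  ring
theorem suN2 {x : ℝ} : SuOk tU qN (ndUR ndN2) (suR ndN2) 2 16777216 x := nc2.su (nrN2 (x := x)).hj (nrN2 (x := x)).sc
theorem nrN3 {x : ℝ} : NuR PP (scK (eng.v x) tK) tL pN ndN3 3 16777216 x := by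
  have hr : PP.ρ 3 = 8 / 5 := rfl
  refine ⟨by rw [hr]; norm_num, fun u => ?_, fun {Y t} q3 i3 ht hw => ?_, fun {Y t} q3 i3 ht hw => ?_⟩
  · rw [hr]
    simp only [pFma, pFmb, pFc0, nFsc3, nFB3, nFX3, nFD3, pNc0, nNB3, us3, ndN3, pN, qN]
    push_cast
    ring
  · have h2 : (127 / 64) < Y := by
      have := (abs_lt.1 i3).1
      rw [S_one] at this
      norm_num at this
      linarith
    have hy := ycg_v (y := Y) (by linarith [q3.1]) q3.2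
    rw [← ht] at hy
    have h4 : t ≤ 1 / 4 := by
      rw [ht]
      exact c3n_small hD3 q3 i3
    show eng.v x * tK 3 3 Y x = _
    rw [← (atB33 (onc q3 (by decide))).K, ← ht]
    show eng.v x * kfc33.v t x = _
    rw [kfc33_g hy h2 q3.2 h4]
    rw [ecv3q3 q3.1, cv3r_v, ← ht]
    simp only [swg_v, dga3c, dgsl3, pFma, pFmb, pFc0, nFsc3, nFB3, nFX3, nFD3, pNc0, nNB3, us3, ndN3, pN, qN]
    push_cast
    ring
  · have h2 : (127 / 64) < Y := by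
      have := (abs_lt.1 i3).1
      rw [S_one] at this
      norm_num at this
      linarith
    have hy := ycg_v (y := Y) (by linarith [q3.1]) q3.2
    rw [← ht] at hy
    have h4 : t ≤ 1 / 4 := by
      rw [ht]
      exact c3n_small hD3 q3 i3
    rw [← (atB33 (onc q3 (by decide))).L, ← ht]
    show lc33.v t x = _
    rw [lc33_g hy h2 q3.2 h4]
    rw [ecv3q3 q3.1, cv3r_v, ← ht]
    simp only [swg_v, dga3c, dgsl3, pFma, pFmb, pFc0, nFsc3, nFB3, nFX3, nFD3, pNc0, nNB3, us3, ndN3, pN, qN]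
    push_cast
    ring
theorem sdN3 {x : ℝ} : SdOk PP (scK (eng.v x) tK) tL pN (ndUR ndN3) 3 16777216 x := nrN3.sd
theorem nc3 {x : ℝ} : NuRC PP tU qN ndN3 3 16777216 x := by
  intro Y t q3 i3 ht hw
  have h2 : (127 / 64) < Y := by
    have := (abs_lt.1 i3).1
    rw [S_one] at this
    norm_num at this
    linarith
  have hy := ycg_v (y := Y) (by linarith [q3.1]) q3.2
  rw [← ht] at hy
  have h4 : t ≤ 1 / 4 := by
    rw [ht]
    exact c3n_small hD3 q3 i3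
  rw [show tU 3 3 Y x = kcc33.v (c3n Y) x from tbF_on (fn := nc) (crd := crd) (x := x) (onc q3 (by decide)), ← ht, kcc33_g hy h2 q3.2 h4]
  rw [ecv3q3 q3.1, cv3r_v, ← ht]
  simp only [swg_v, dga3c, dgsl3, pFma, pFmb, pFc0, nFsc3, nFB3, nFX3, nFD3, pNc0, nNB3, us3, ndN3, pN, qN]
  push_cast
  ring
theorem suN3 {x : ℝ} : SuOk tU qN (ndUR ndN3) (suR ndN3) 3 16777216 x := nc3.su (nrN3 (x := x)).hj (nrN3 (x := x)).sc
theorem cvokN1 {x : ℝ} : CvOk PP (scK (eng.v x) tK) tL pN cvN1 1 67108864 x := by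
  intro v v0 v1
  have v2 : v < (1 / 16) := by
    rw [S_one] at v1
    norm_num at v1
    linarith
  have hxi := dgxi_v v0 (by linarith)
  have hws := dgws_v v0 (by linarith)
  have q2 : InQ 2 (1 + v) := ⟨by linarith, by linarith⟩
  have o : OnC (1 : Fin 5) 2 (1 + v) := onc q2 (by decide)
  have ex : crv PP 1 2 (1 + v) = 1 / 2 - v * cvN1.xs.v v := by
    rw [ecv1q2, cv1p_v, hxi, hws]
    simp only [pFma, pFmb, pFmu, pFnx, pFc0, pFkc, pFjc, pFca, pFcb, pFcc, pFsv, pFx11, pFx01, pFK11, pFK01, pFL11, pFL01, kFc0, kFc0g, kFa0, kFa0g, kFa1, kFa1g, kFb0, kFb0g, kFb1, kFb1g, kFd0, kFd0g, kFd1, kFd1g, kFe0, kFe0g, kFe1, kFe1g, cFxs1, cFsB1, cFBs1, cFsX1, cFsD1, cFsDD1, nFsc1, nFB1_3, nFB1, nFX1_3, nFX1, nFD1_3, nFD1, nFsc2, nFB2, nFX2, nFD2, nFsc3, nFB3, nFX3, nFD3, l12F, laF, lbF, l1F, l2F, cvF1, ndF1, ndF2, ndF3, pF, pNc0, pNkc, pNjc, pNcc, pNK11, pNK01, kNc0, kNc0g, cNBs1,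 nNB1_4, nNB1, nNB2, nNB3, umo, us1, us2, us3, uC11, uC01, l12N, cvN1, ndN1, ndN2, ndN3, pN, ul1, ul2, ul3, qN]
    push_cast
    ring
  refine ⟨ex, ?_, ?_⟩
  · show eng.v x * tK 1 2 (1 + v) x = _
    rw [← (atB12 o).K]
    show eng.v x * kf1q2.v (1 + v) x = _
    have ef : kf1q2.v (1 + v) x = cv1p.v (1 + v) * bf1q2.v (1 + v) x := by
      simp only [kf1q2, bf1q2_3, bf1q2]
    rw [ef, bf1q2_g v0 v2, ← ecv1q2, ex]
    simp only [pFmu, pFc0, cFBs1, pNc0, cNBs1, cvN1, pN]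
    push_cast
    ring
  · rw [← (atB12 o).L]
    show l1q2.v (1 + v) x = _
    have ef : l1q2.v (1 + v) x = cv1p.v (1 + v) * bx1q2.v (1 + v) x := by
      simp only [l1q2, bx1q2_3, bx1q2]
    rw [ef, bx1q2_g v0 v2, ← ecv1q2, ex, zero_add]
    rfl
theorem cvu1 {x : ℝ} : CvU tU cvN1 cFsDD1 1 67108864 x := by
  intro v v0 v1
  have v2 : v < (1 / 16) := by
    rw [S_one] at v1
    norm_num at v1
    linarith
  have q2 : InQ 2 (1 + v) := ⟨by linarith, by linarith⟩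
  have o : OnC (1 : Fin 5) 2 (1 + v) := onc q2 (by decide)
  have ex := (cvokN1 (x := x) v0 v1).1
  rw [show tU 1 2 (1 + v) x = kc1q2.v (1 + v) x from tbF_on (fn := nc) (crd := crd) (x := x) o]
  have ef : kc1q2.v (1 + v) x = cv1p.v (1 + v) * bd1q2.v (1 + v) x := by
    simp only [kc1q2, bd1q2_3, bd1q2]
  rw [ef, bd1q2_g v0 v2, ← ecv1q2, ex, zero_add]
  rfl
theorem p1okN {x : ℝ} : P1Ok PP (scK (eng.v x) tK) tL pN 1 67108864 x := by
  refine ⟨fun hq _ => ecv1q1, fun hq _ => (congrFun c1g_v _).symm, fun hq _ => congrArg (fun z => eng.v x * z) ((atB11 (onc hq (by decide))).K).symm,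
    fun hq _ => congrArg (fun z => eng.v x * z) ((atB01 ⟨hq, fun _ => on_h (by linarith [hq.2]) (by linarith [hq.1])⟩).K).symm,
    fun hq _ => ((atB11 (onc hq (by decide))).L).symm,
    fun hq _ => ((atB01 ⟨hq, fun _ => on_h (by linarith [hq.2]) (by linarith [hq.1])⟩).L).symm⟩
theorem p1u {x : ℝ} : P1U tU qN 1 67108864 x :=
  ⟨fun hq _ => tbF_on (fn := nc) (crd := crd) (x := x) (onc hq (by decide)),
    fun {y} hq _ => tbF_on (fn := nc) (crd := crd) (x := x)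
      (⟨hq, fun _ => on_h (by linarith [hq.2]) (by linarith [hq.1])⟩ : OnC (0 : Fin 5) 1 y)⟩
theorem svN (u : ℝ) : pN.sv.v u = u - ((67108864 : ℕ) : ℝ) / S := by
  rw [S_one]
  simp only [pFma, pFmb, pFmu, pFnx, pFc0, pFkc, pFjc, pFca, pFcb, pFcc, pFsv, pFx11, pFx01, pFK11, pFK01, pFL11, pFL01, kFc0, kFc0g, kFa0, kFa0g, kFa1, kFa1g, kFb0, kFb0g, kFb1, kFb1g, kFd0, kFd0g, kFd1, kFd1g, kFe0, kFe0g, kFe1, kFe1g, cFxs1, cFsB1, cFBs1, cFsX1, cFsD1, cFsDD1, nFsc1, nFB1_3, nFB1, nFX1_3, nFX1, nFD1_3, nFD1, nFsc2, nFB2, nFX2, nFD2, nFsc3, nFB3, nFX3, nFD3, l12F, laF, lbF, l1F, l2F, cvF1, ndF1, ndF2, ndF3, pF, pNc0, pNkc, pNjc, pNcc, pNK11, pNK01, kNc0, kNc0g, cNBs1, nNB1_4, nNB1, nNB2, nNB3, umo, us1, us2, us3, uC11, uC01, l12N, cvN1, ndN1, ndN2, ndN3, pN, ul1, ul2, ul3, qN]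
  push_cast
  ring
theorem tgpF {x : ℝ} : TgP pF x :=
  ⟨by simp only [pF, pFc0]; norm_num, rfl, rfl, rfl, rfl, rfl, rfl, fun _ => rfl, fun _ => rfl⟩
theorem klF {x : ℝ} : Kl pF x := by
  constructor
  · intro h
    simp only [pFma, pFmb, pFmu, pFnx, pFc0, pFkc, pFjc, pFca, pFcb, pFcc, pFsv, pFx11, pFx01, pFK11, pFK01, pFL11, pFL01, kFc0, kFc0g, kFa0, kFa0g, kFa1, kFa1g, kFb0, kFb0g, kFb1, kFb1g, kFd0, kFd0g, kFd1, kFd1g, kFe0, kFe0g, kFe1, kFe1g, cFxs1, cFsB1, cFBs1, cFsX1, cFsD1, cFsDD1, nFsc1, nFB1_3, nFB1, nFX1_3, nFX1, nFD1_3, nFD1, nFsc2, nFB2, nFX2, nFD2, nFsc3, nFB3, nFX3, nFD3, l12F, laF, lbF, l1F, l2F, cvF1, ndF1, ndF2, ndF3, pF, pNc0, pNkc, pNjc, pNcc, pNK11, pNK01, kNc0, kNc0g, cNBs1, nNB1_4, nNB1, nNB2, nNB3, umo, us1, us2, us3, uC11, uC01, l12N, cvN1, ndN1, ndN2, ndN3, pN, ul1, ul2, ul3, qN, pf_cons, pf_nil]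
    push_cast
    ring
  · intro h
    simp only [pFma, pFmb, pFmu, pFnx, pFc0, pFkc, pFjc, pFca, pFcb, pFcc, pFsv, pFx11, pFx01, pFK11, pFK01, pFL11, pFL01, kFc0, kFc0g, kFa0, kFa0g, kFa1, kFa1g, kFb0, kFb0g, kFb1, kFb1g, kFd0, kFd0g, kFd1, kFd1g, kFe0, kFe0g, kFe1, kFe1g, cFxs1, cFsB1, cFBs1, cFsX1, cFsD1, cFsDD1, nFsc1, nFB1_3, nFB1, nFX1_3, nFX1, nFD1_3, nFD1, nFsc2, nFB2, nFX2, nFD2, nFsc3, nFB3, nFX3, nFD3, l12F, laF, lbF, l1F, l2F, cvF1, ndF1, ndF2, ndF3, pF, pNc0, pNkc, pNjc, pNcc, pNK11, pNK01, kNc0, kNc0g, cNBs1, nNB1_4, nNB1, nNB2, nNB3, umo, us1, us2, us3, uC11, uC01, l12N, cvN1, ndN1, ndN2, ndN3, pN, ul1, ul2, ul3, qN, pf_cons, pf_nil]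
    push_cast
    ring
theorem bsF {x : ℝ} (hx : ((818728140 : ℕ) : ℝ) / S ≤ x) (hx' : x ≤ (((818728140 : ℕ) : ℝ) + (40265320 : ℕ)) / S) : Bs PP tK tL pcB true 3 pF 67108864 16777216 x :=
  ⟨sideB hx hx', fitF, tabF, (xr hx hx').1, (xr hx hx').2, hD, hD3⟩
theorem mo0 {x : ℝ} (h0x : 0 ≤ x) (h1x : x ≤ 1) : 0 ≤ mog.v x := by
  rw [mo_v]
  have h1 := mun_nn 3 x
  have h2 := (esg_rng h0x h1x).1
  positivity
theorem bsN {x : ℝ} (hx : ((818728140 : ℕ) : ℝ) / S ≤ x) (hx' : x ≤ (((818728140 : ℕ) : ℝ) + (40265320 : ℕ)) / S) : BsW PP tK tL tU pcB 3 pN qN (eng.v x) (mog.v x) 67108864 16777216 x :=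
  ⟨sideB hx hx', pinU hx hx', fitN, tabN, tabU, en_pos (xr hx hx').1.le, rfl, mo0 (xr hx hx').1.le (xr hx hx').2.le, (xr hx hx').1, (xr hx hx').2, hD, hD3⟩

end Pool.Agent.Strip051.G.I7625_8000.Tab.DG
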