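import Pool.Agent.Strip051.G.I7625_8000.DgP

/-! # The corner (1, 1, 2): certificates of the degenerate charts (generated) -/

set_option linter.all false

namespace Pool.Agent.Strip051.G.I7625_8000.Tab.DG

open Pool.Agent.Strip051.PB Pool.Agent.Strip051.PB.Dg Pool.Agent.StripNear Pool.Agent.Strip051.LC

theorem cFA1 : ∃ t, chk3 (onCell 0 232471925 0 1073741824 818728140 40265320 (fdAx false pF (ndUL pF ndF1) (ndUR ndF2) (thLo (ndUL pF ndF1) (ndUR ndF2)))) t 1 1 1 = true :=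
  ⟨(T.b (T.a (T.b (T.b (T.b (T.a (T.l 0) (T.l 0)) (T.l 0)) (T.b (T.l 0) (T.a (T.b (T.c (T.l 0) (T.l 0)) (T.a (T.l 3) (T.b (T.l 0) (T.l 3)))) (T.c (T.l 0) (T.l 0))))) (T.l 3)) (T.b (T.b (T.b (T.b (T.l 1) (T.a (T.l 0) (T.l 1))) (T.a (T.l 0) (T.l 0))) (T.a (T.l 0) (T.l 0))) (T.b (T.b (T.a (T.b (T.l 0) (T.l 3)) (T.l 0)) (T.l 3)) (T.l 3)))) (T.l 3)), by decide +kernel⟩
theorem cFA2 : ∃ t, chk3 (onCell 0 232471925 0 1073741824 818728140 40265320 (fdAx false pF (ndUR ndF2) (ndUR ndF3) (thLo (ndUR ndF2) (ndUR ndF3)))) t 1 1 1 = true :=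
  ⟨(T.a (T.a (T.b (T.b (T.b (T.l 2) (T.b (T.l 2) (T.b (T.l 0) (T.l 0)))) (T.c (T.b (T.l 0) (T.l 0)) (T.b (T.b (T.l 0) (T.l 0)) (T.b (T.l 0) (T.l 0))))) (T.b (T.b (T.c (T.l 0) (T.b (T.l 0) (T.c (T.l 0) (T.l 0)))) (T.l 3)) (T.l 3))) (T.b (T.b (T.b (T.l 2) (T.b (T.l 2) (T.a (T.l 0) (T.l 0)))) (T.c (T.b (T.l 0) (T.l 0)) (T.b (T.b (T.l 0) (T.l 0)) (T.b (T.l 0) (T.l 0))))) (T.b (T.b (T.c (T.l 0) (T.b (T.l 0) (T.a (T.l 0) (T.l 0)))) (T.l 3)) (T.l 3)))) (T.b (T.b (T.b (T.l 2) (T.b (T.l 2) (T.a (T.l 0) (T.l 2)))) (T.a (T.b (T.c (T.l 0) (T.l 0)) (T.c (T.l 0) (T.a (T.l 0) (T.l 0)))) (T.b (T.c (T.l 0) (T.a (T.l 0) (T.l 0))) (T.c (T.l 0) (T.a (T.l 0) (T.l 0)))))) (T.b (T.a (T.b (T.c (T.l 0) (T.a (T.b (T.l 0) (T.l 0)) (T.b (T.l 0) (T.l 0)))) (T.b (T.b (T.a (T.c (T.l 0) (T.a (T.l 3) (T.l 0))) (T.c (T.l 0) (T.a (T.l 0) (T.l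 0)))) (T.l 3)) (T.l 3))) (T.b (T.c (T.a (T.l 0) (T.l 0)) (T.b (T.a (T.l 0) (T.l 0)) (T.a (T.a (T.l 0) (T.l 0)) (T.l 0)))) (T.b (T.b (T.c (T.l 0) (T.c (T.l 0) (T.a (T.l 0) (T.l 0)))) (T.l 3)) (T.l 3)))) (T.l 3)))), by decide +kernel⟩
theorem cFA3 : ∃ t, chk3 (onCell 0 232471925 0 1073741824 818728140 40265320 (fdAx true pF (ndUR ndF3) (dgSC pF) (thUp (ndUR ndF3) (dgSC pF)))) t 1 1 1 = true :=
  ⟨(T.b (T.l 2) (T.a (T.a (T.c (T.l 349520) (T.b (T.c (T.l 16448) (T.a (T.l 16448) (T.a (T.l 16448) (T.l 16448)))) (T.a (T.l 349520) (T.l 349520)))) (T.a (T.c (T.l 349520) (T.b (T.c (T.l 16448) (T.a (T.l 16480) (T.l 16480))) (T.l 349520))) (T.c (T.a (T.l 349520) (T.l 349520)) (T.a (T.b (T.b (T.l 16480) (T.l 16448)) (T.l 349520)) (T.b (T.c (T.l 16448) (T.a (T.l 16480) (T.l 16480))) (T.a (T.l 349520) (T.l 349520))))))) (T.b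 (T.b (T.a (T.a (T.b (T.l 2) (T.b (T.l 2) (T.b (T.l 2) (T.c (T.l 0) (T.a (T.l 0) (T.l 96)))))) (T.l 2)) (T.l 2)) (T.c (T.a (T.a (T.l 279616) (T.a (T.l 17472) (T.l 17472))) (T.a (T.l 279616) (T.a (T.l 279616) (T.l 279616)))) (T.a (T.a (T.a (T.l 16448) (T.l 16480)) (T.a (T.a (T.l 16480) (T.l 16480)) (T.l 16480))) (T.a (T.a (T.a (T.l 16448) (T.l 16480)) (T.l 16480)) (T.a (T.a (T.l 16480) (T.l 16480)) (T.c (T.l 16448) (T.a (T.l 16448) (T.l 16480)))))))) (T.b (T.b (T.a (T.a (T.c (T.l 279616) (T.a (T.l 16448) (T.l 16448))) (T.a (T.l 287808) (T.a (T.l 17472) (T.l 287808)))) (T.a (T.a (T.a (T.l 287808) (T.l 287808)) (T.l 287808)) (T.c (T.l 279616) (T.a (T.l 24640) (T.l 24640))))) (T.a (T.a (T.c (T.l 279616) (T.a (T.l 16448) (T.l 16448))) (T.c (T.l 279616) (T.a (T.l 16448) (T.l 16448)))) (T.a (T.c (T.l 279616) (T.a (T.l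 16448) (T.l 16448))) (T.a (T.c (T.l 279616) (T.l 286784)) (T.a (T.c (T.l 17408) (T.l 24640)) (T.l 4)))))) (T.b (T.a (T.a (T.c (T.l 349520) (T.a (T.l 279616) (T.l 283712))) (T.c (T.l 349520) (T.a (T.l 291904) (T.l 291904)))) (T.a (T.c (T.l 349520) (T.a (T.l 291904) (T.l 291904))) (T.a (T.c (T.l 283712) (T.a (T.l 287808) (T.l 4))) (T.l 4)))) (T.c (T.a (T.a (T.l 349520) (T.l 349520)) (T.a (T.l 349520) (T.l 4))) (T.a (T.a (T.a (T.l 349520) (T.l 357712)) (T.a (T.l 357712) (T.l 357712))) (T.a (T.a (T.l 357712) (T.l 357712)) (T.l 4))))))))), by decide +kernel⟩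
theorem cFB2 : ∃ t, chk3 (onCell 0 232471925 0 2684354560 818728140 40265320 (fdB true false pF (ndUR ndF2))) t 1 1 1 = true :=
  ⟨(T.b (T.b (T.a (T.b (T.b (T.l 2) (T.c (T.a (T.l 0) (T.l 0)) (T.a (T.l 0) (T.l 0)))) (T.l 4)) (T.b (T.b (T.l 2) (T.b (T.l 2) (T.l 0))) (T.b (T.a (T.l 8192) (T.l 8224)) (T.l 4)))) (T.l 4)) (T.a (T.l 4) (T.b (T.l 4) (T.a (T.l 4) (T.l 4))))), by decide +kernel⟩
theorem cFB3 : ∃ t, chk3 (onCell 0 232471925 0 2684354560 818728140 40265320 (fdB true false pF (ndUR ndF3))) t 1 1 1 = true :=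
  ⟨(T.b (T.b (T.a (T.b (T.l 2) (T.b (T.l 2) (T.c (T.l 0) (T.b (T.l 2) (T.a (T.a (T.l 0) (T.l 0)) (T.l 0)))))) (T.a (T.a (T.b (T.l 2) (T.b (T.l 2) (T.c (T.l 0) (T.a (T.l 0) (T.l 0))))) (T.l 2)) (T.l 2))) (T.a (T.a (T.b (T.b (T.a (T.l 139296) (T.l 139296)) (T.l 4)) (T.l 4)) (T.b (T.b (T.b (T.b (T.a (T.l 32) (T.l 32)) (T.l 32)) (T.l 139296)) (T.l 4)) (T.l 4))) (T.b (T.b (T.a (T.b (T.b (T.c (T.l 0) (T.b (T.a (T.l 0) (T.l 0)) (T.l 8224))) (T.l 139808)) (T.l 174632)) (T.b (T.b (T.c (T.l 0) (T.a (T.b (T.l 0) (T.l 32)) (T.a (T.l 0) (T.l 0)))) (T.a (T.l 32) (T.l 8224))) (T.a (T.l 139816) (T.l 139816)))) (T.b (T.a (T.l 174760) (T.l 174760)) (T.l 4))) (T.l 4)))) (T.a (T.l 4) (T.b (T.l 4) (T.a (T.l 4) (T.l 4))))), by decide +kernel⟩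
theorem cFB4 : ∃ t, chk3 (onCell 0 232471925 0 2684354560 818728140 40265320 (fdB true true pF (dgSC pF))) t 1 1 1 = true :=
  ⟨(T.b (T.b (T.l 2) (T.a (T.a (T.l 349520) (T.a (T.l 349520) (T.l 349520))) (T.b (T.l 2) (T.a (T.a (T.l 349520) (T.l 349520)) (T.a (T.l 349520) (T.l 6)))))) (T.b (T.a (T.b (T.a (T.l 174760) (T.l 349520)) (T.l 4)) (T.a (T.b (T.a (T.l 349520) (T.l 349520)) (T.l 4)) (T.l 6))) (T.a (T.l 4) (T.a (T.l 4) (T.l 5))))), by decide +kernel⟩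
theorem cFP2 : ∃ t, chk3 (onCell 0 232471925 0 1073741824 818728140 40265320 (fdP true false pF (ndUR ndF2))) t 1 1 1 = true :=
  ⟨(T.b (T.a (T.b (T.b (T.l 8192) (T.c (T.l 0) (T.a (T.l 0) (T.l 0)))) (T.l 2)) (T.b (T.b (T.l 0) (T.a (T.l 0) (T.l 0))) (T.b (T.b (T.l 0) (T.l 2)) (T.l 2)))) (T.l 2)), by decide +kernel⟩
theorem cFP3 : ∃ t, chk3 (onCell 0 232471925 0 1073741824 818728140 40265320 (fdP true false pF (ndUR ndF3))) t 1 1 1 = true :=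
  ⟨(T.a (T.a (T.b (T.l 139808) (T.b (T.b (T.c (T.l 0) (T.b (T.l 0) (T.l 0))) (T.l 2)) (T.l 2))) (T.b (T.l 139808) (T.b (T.b (T.c (T.l 0) (T.a (T.l 0) (T.l 0))) (T.l 2)) (T.l 2)))) (T.b (T.a (T.l 139808) (T.b (T.l 8704) (T.l 139808))) (T.b (T.b (T.a (T.b (T.l 8224) (T.c (T.l 0) (T.a (T.l 0) (T.l 0)))) (T.b (T.l 8736) (T.a (T.a (T.l 8192) (T.l 8192)) (T.l 8224)))) (T.b (T.b (T.a (T.b (T.c (T.l 0) (T.a (T.l 0) (T.l 0))) (T.l 2)) (T.c (T.l 0) (T.a (T.a (T.l 0) (T.l 0)) (T.l 0)))) (T.l 2)) (T.l 2))) (T.l 2)))), by decide +kernel⟩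
theorem cFP4 : ∃ t, chk3 (onCell 0 232471925 0 1073741824 818728140 40265320 (fdP true true pF (dgSC pF))) t 1 1 1 = true :=
  ⟨(T.a (T.a (T.l 349520) (T.l 349520)) (T.a (T.l 349520) (T.a (T.l 349520) (T.l 349520)))), by decide +kernel⟩
theorem cFC1 : ∃ t, chk3 (onCell 0 232471925 0 1073741824 818728140 40265320 (fdU pF ndF1 (thLo (ndUL pF ndF1) (ndUR ndF2)) cvF1 (ndUR ndF2))) t 1 1 1 = true :=
  ⟨(T.a (T.b (T.b (T.b (T.a (T.l 0) (T.l 0)) (T.l 1)) (T.l 1)) (T.l 1)) (T.b (T.b (T.b (T.b (T.l 0) (T.a (T.l 0) (T.l 0))) (T.l 1)) (T.l 1)) (T.a (T.a (T.l 1) (T.l 3)) (T.l 3)))), by decide +kernel⟩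
theorem cNA1 : ∃ t, chk3 (onCell 0 232471925 0 1073741824 818728140 40265320 (fdAW pN qN (ndUL pN ndN1) (ndUR ndN2) (thLo (ndUL pN ndN1) (ndUR ndN2)) (tuLo (ndUL pN ndN1) (ndUR ndN2) (suL qN ndN1) (suR ndN2)))) t 1 1 1 = true :=
  ⟨(T.b (T.a (T.b (T.b (T.a (T.l 0) (T.l 0)) (T.a (T.b (T.l 0) (T.a (T.l 8192) (T.l 8192))) (T.a (T.l 8192) (T.l 8192)))) (T.l 3)) (T.a (T.b (T.b (T.l 0) (T.a (T.l 0) (T.l 0))) (T.b (T.b (T.a (T.l 8192) (T.l 0)) (T.l 3)) (T.l 3))) (T.b (T.b (T.a (T.l 0) (T.l 0)) (T.l 0)) (T.b (T.b (T.l 0) (T.l 3)) (T.l 3))))) (T.l 3)), by decide +kernel⟩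
theorem cNA2 : ∃ t, chk3 (onCell 0 232471925 0 1073741824 818728140 40265320 (fdAW pN qN (ndUR ndN2) (ndUR ndN3) (thLo (ndUR ndN2) (ndUR ndN3)) (tuLo (ndUR ndN2) (ndUR ndN3) (suR ndN2) (suR ndN3)))) t 1 1 1 = true :=
  ⟨(T.a (T.a (T.b (T.b (T.b (T.l 2) (T.b (T.l 2) (T.a (T.l 8192) (T.l 8192)))) (T.b (T.c (T.l 0) (T.a (T.l 8192) (T.l 8192))) (T.c (T.l 0) (T.a (T.l 8192) (T.l 8192))))) (T.b (T.b (T.c (T.l 0) (T.l 8224)) (T.l 3)) (T.l 3))) (T.a (T.b (T.b (T.b (T.l 2) (T.b (T.l 2) (T.l 0))) (T.b (T.b (T.l 8192) (T.l 8192)) (T.a (T.l 8224) (T.l 8224)))) (T.b (T.b (T.a (T.l 8224) (T.l 8224)) (T.l 3)) (T.l 3))) (T.b (T.b (T.b (T.l 2) (T.b (T.l 2) (T.l 0))) (T.b (T.b (T.l 0) (T.l 8192)) (T.b (T.l 8192) (T.l 8224)))) (T.b (T.b (T.b (T.l 8224) (T.l 8224)) (T.l 3)) (T.l 3))))) (T.b (T.a (T.b (T.b (T.l 2) (T.b (T.l 2) (T.a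 (T.l 0) (T.l 2)))) (T.b (T.c (T.l 0) (T.a (T.l 0) (T.l 0))) (T.c (T.l 0) (T.a (T.l 8192) (T.l 8192))))) (T.b (T.l 2) (T.b (T.b (T.a (T.l 0) (T.l 0)) (T.a (T.l 0) (T.l 8192))) (T.c (T.a (T.l 0) (T.l 0)) (T.a (T.l 8192) (T.l 8192)))))) (T.b (T.a (T.a (T.b (T.b (T.l 8224) (T.l 8224)) (T.b (T.l 8736) (T.l 3))) (T.b (T.b (T.l 8224) (T.l 8224)) (T.b (T.a (T.l 8736) (T.l 8736)) (T.l 3)))) (T.b (T.c (T.a (T.l 0) (T.l 0)) (T.a (T.a (T.l 8224) (T.l 8224)) (T.l 8224))) (T.b (T.b (T.a (T.l 8224) (T.l 8224)) (T.l 3)) (T.l 3)))) (T.l 3)))), by decide +kernel⟩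
theorem cNA3 : ∃ t, chk3 (onCell 0 232471925 0 1073741824 818728140 40265320 (fdAW pN qN (ndUR ndN3) (dgSC pN) (thUp (ndUR ndN3) (dgSC pN)) (tuUp (ndUR ndN3) (dgSC pN) (suR ndN3) (suC qN)))) t 1 1 1 = true :=
  ⟨(T.b (T.l 2) (T.a (T.a (T.b (T.c (T.a (T.l 139808) (T.l 139808)) (T.b (T.a (T.l 8224) (T.l 8224)) (T.l 8224))) (T.b (T.a (T.l 139808) (T.l 139808)) (T.a (T.l 174760) (T.l 174760)))) (T.a (T.b (T.c (T.a (T.l 139808) (T.l 139808)) (T.b (T.l 8224) (T.l 8224))) (T.b (T.a (T.l 139808) (T.l 139808)) (T.a (T.l 174760) (T.l 174760)))) (T.b (T.a (T.b (T.b (T.l 2) (T.l 8224)) (T.l 139808)) (T.c (T.a (T.l 139808) (T.l 139808)) (T.b (T.l 8224) (T.l 8224)))) (T.b (T.a (T.l 139808) (T.a (T.l 139808) (T.l 139808))) (T.a (T.a (T.l 174760) (T.l 174760)) (T.b (T.l 172704) (T.l 174760))))))) (T.b (T.b (T.a (T.a (T.b (T.l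 2) (T.a (T.l 8736) (T.a (T.l 8224) (T.l 2)))) (T.l 2)) (T.l 2)) (T.a (T.a (T.a (T.b (T.l 8736) (T.l 139808)) (T.b (T.l 139808) (T.l 139808))) (T.a (T.c (T.l 139808) (T.l 8224)) (T.c (T.l 139808) (T.a (T.l 8224) (T.l 8224))))) (T.a (T.a (T.c (T.l 139808) (T.a (T.l 8224) (T.l 8224))) (T.c (T.l 139808) (T.a (T.l 8224) (T.l 8224)))) (T.a (T.c (T.l 139808) (T.a (T.l 8224) (T.l 8224))) (T.c (T.l 139808) (T.a (T.l 8224) (T.l 8224))))))) (T.a (T.a (T.b (T.a (T.b (T.l 139808) (T.l 139808)) (T.b (T.l 139808) (T.l 139808))) (T.a (T.b (T.l 139936) (T.l 174760)) (T.b (T.a (T.l 139808) (T.l 139808)) (T.a (T.l 174760) (T.l 174760))))) (T.b (T.a (T.b (T.l 139808) (T.l 139808)) (T.c (T.l 139808) (T.l 139808))) (T.a (T.b (T.a (T.l 139808) (T.l 139808)) (T.a (T.l 174760) (T.l 174760))) (T.c (T.b (T.l 139808) (T.l 174760)) (T.a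 (T.l 174760) (T.l 174760)))))) (T.a (T.b (T.a (T.c (T.a (T.l 139808) (T.l 139808)) (T.l 139808)) (T.c (T.a (T.l 139808) (T.l 139808)) (T.a (T.l 8224) (T.l 8224)))) (T.a (T.c (T.b (T.l 139808) (T.l 174760)) (T.a (T.l 174760) (T.l 174760))) (T.c (T.b (T.l 139808) (T.l 174760)) (T.a (T.l 174760) (T.l 174760))))) (T.b (T.a (T.c (T.a (T.l 139808) (T.l 139808)) (T.a (T.l 8224) (T.l 8224))) (T.b (T.a (T.l 139808) (T.l 139808)) (T.a (T.l 139808) (T.l 4)))) (T.a (T.b (T.a (T.l 139808) (T.l 4)) (T.l 4)) (T.l 4)))))))), by decide +kernel⟩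
theorem cNB2 : ∃ t, chk3 (onCell 0 232471925 0 2684354560 818728140 40265320 (fdBW pN qN (ndUR ndN2) (suR ndN2))) t 1 1 1 = true :=
  ⟨(T.b (T.b (T.a (T.b (T.b (T.l 2) (T.c (T.l 0) (T.a (T.l 0) (T.l 0)))) (T.l 4)) (T.b (T.b (T.l 2) (T.b (T.l 2) (T.l 0))) (T.b (T.a (T.l 8224) (T.l 8224)) (T.l 4)))) (T.l 4)) (T.a (T.l 4) (T.b (T.l 4) (T.a (T.l 4) (T.l 4))))), by decide +kernel⟩
theorem cNB3 : ∃ t, chk3 (onCell 0 232471925 0 2684354560 818728140 40265320 (fdBW pN qN (ndUR ndN3) (suR ndN3))) t 1 1 1 = true :=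
  ⟨(T.b (T.b (T.a (T.b (T.l 2) (T.b (T.l 2) (T.c (T.l 0) (T.b (T.l 2) (T.c (T.l 0) (T.a (T.l 0) (T.l 0))))))) (T.a (T.a (T.b (T.l 2) (T.b (T.l 2) (T.c (T.l 0) (T.b (T.l 2) (T.l 0))))) (T.l 2)) (T.l 2))) (T.a (T.a (T.b (T.b (T.a (T.l 139808) (T.l 139808)) (T.l 4)) (T.l 4)) (T.b (T.b (T.b (T.a (T.l 8224) (T.l 8224)) (T.l 139296)) (T.l 4)) (T.l 4))) (T.b (T.b (T.a (T.b (T.b (T.b (T.a (T.l 32) (T.a (T.l 32) (T.l 32))) (T.l 139808)) (T.l 139808)) (T.l 174760)) (T.b (T.b (T.c (T.l 0) (T.b (T.a (T.l 0) (T.l 0)) (T.l 8224))) (T.l 139808)) (T.l 141864))) (T.b (T.a (T.l 174760) (T.l 174760)) (T.l 4))) (T.l 4)))) (T.a (T.l 4) (T.b (T.l 4) (T.a (T.l 4) (T.l 4))))), by decide +kernel⟩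
theorem cNB4 : ∃ t, chk3 (onCell 0 232471925 0 2684354560 818728140 40265320 (fdBW pN qN (dgSC pN) (suC qN))) t 1 1 1 = true :=
  ⟨(T.b (T.b (T.l 2) (T.a (T.a (T.b (T.l 2) (T.b (T.b (T.b (T.l 2) (T.b (T.l 2) (T.l 174760))) (T.l 174760)) (T.l 174760))) (T.b (T.l 2) (T.a (T.b (T.b (T.b (T.l 2) (T.b (T.l 2) (T.l 174760))) (T.l 174760)) (T.l 174760)) (T.b (T.b (T.b (T.l 2) (T.b (T.l 2) (T.a (T.l 174760) (T.l 174760)))) (T.a (T.l 174760) (T.l 174760))) (T.l 174760))))) (T.b (T.l 2) (T.a (T.b (T.a (T.b (T.b (T.l 2) (T.b (T.l 2) (T.a (T.l 174760) (T.l 174760)))) (T.a (T.l 174760) (T.l 174760))) (T.b (T.b (T.l 2) (T.b (T.l 2) (T.a (T.a (T.l 174760) (T.l 174760)) (T.a (T.l 174760) (T.l 174760))))) (T.a (T.l 174760) (T.l 174760)))) (T.a (T.a (T.l 174760) (T.l 174760)) (T.a (T.l 174760) (T.l 174760)))) (T.a (T.b (T.a (T.b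 (T.b (T.l 2) (T.b (T.l 2) (T.a (T.l 174760) (T.l 174760)))) (T.a (T.l 174760) (T.l 174760))) (T.a (T.b (T.b (T.l 2) (T.b (T.l 2) (T.l 6))) (T.l 6)) (T.l 6))) (T.l 6)) (T.l 6)))))) (T.b (T.a (T.b (T.a (T.l 174760) (T.b (T.a (T.l 174760) (T.l 174760)) (T.l 4))) (T.l 4)) (T.a (T.b (T.b (T.a (T.a (T.l 174760) (T.l 174760)) (T.a (T.l 174760) (T.l 6))) (T.l 4)) (T.l 4)) (T.l 6))) (T.a (T.l 4) (T.a (T.l 4) (T.l 5))))), by decide +kernel⟩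
theorem cNP2 : ∃ t, chk3 (onCell 0 232471925 0 1073741824 818728140 40265320 (fdPW pN qN (ndUR ndN2) (suR ndN2))) t 1 1 1 = true :=
  ⟨(T.b (T.a (T.b (T.b (T.l 8192) (T.b (T.l 0) (T.l 0))) (T.l 2)) (T.b (T.b (T.l 0) (T.a (T.l 0) (T.l 0))) (T.b (T.b (T.l 0) (T.l 2)) (T.l 2)))) (T.l 2)), by decide +kernel⟩

end Pool.Agent.Strip051.G.I7625_8000.Tab.DG
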