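import Pool.Agent.Strip051.G.I7625_8000.DgP

/-! # The corner (1, 1, 2): certificates of the degenerate charts (generated) -/

set_option linter.all false

namespace Pool.Agent.Strip051.G.I7625_8000.Tab.DG

open Pool.Agent.Strip051.PB Pool.Agent.Strip051.PB.Dg Pool.Agent.StripNear Pool.Agent.Strip051.LC

theorem cNP3 : ∃ t, chk3 (onCell 0 232471925 0 1073741824 818728140 40265320 (fdPW pN qN (ndUR ndN3) (suR ndN3))) t 1 1 1 = true :=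
  ⟨(T.a (T.a (T.b (T.l 139808) (T.b (T.b (T.c (T.l 0) (T.b (T.l 0) (T.b (T.l 0) (T.l 0)))) (T.l 2)) (T.l 2))) (T.b (T.l 139808) (T.b (T.b (T.c (T.l 0) (T.b (T.l 0) (T.l 0))) (T.l 2)) (T.l 2)))) (T.b (T.a (T.l 139808) (T.a (T.l 139808) (T.l 141864))) (T.b (T.b (T.a (T.b (T.l 8224) (T.a (T.a (T.l 8224) (T.l 8224)) (T.l 8224))) (T.a (T.a (T.l 8736) (T.l 8736)) (T.l 8736))) (T.b (T.b (T.a (T.b (T.c (T.l 0) (T.a (T.l 0) (T.l 0))) (T.l 2)) (T.c (T.l 0) (T.a (T.l 0) (T.l 0)))) (T.l 2)) (T.l 2))) (T.l 2)))), by decide +kernel⟩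
theorem cNP4 : ∃ t, chk3 (onCell 0 232471925 0 1073741824 818728140 40265320 (fdPW pN qN (dgSC pN) (suC qN))) t 1 1 1 = true :=
  ⟨(T.a (T.a (T.b (T.l 139808) (T.b (T.l 139808) (T.b (T.l 139808) (T.b (T.l 544) (T.l 174760))))) (T.b (T.l 174760) (T.a (T.b (T.l 139808) (T.b (T.l 139808) (T.a (T.l 174760) (T.l 174760)))) (T.b (T.l 139808) (T.b (T.l 139808) (T.a (T.l 174760) (T.b (T.l 139808) (T.l 174760)))))))) (T.b (T.a (T.l 174760) (T.l 174760)) (T.a (T.b (T.l 174760) (T.b (T.l 174760) (T.a (T.b (T.l 174760) (T.a (T.l 174760) (T.l 174760))) (T.b (T.l 174760) (T.b (T.l 174760) (T.a (T.l 174760) (T.l 174760))))))) (T.b (T.l 174760) (T.b (T.a (T.l 174760) (T.l 174760)) (T.a (T.b (T.l 174760) (T.b (T.l 174760) (T.a (T.l 174760) (T.l 174760)))) (T.b (T.l 174760) (T.l 3)))))))), by decide +kernel⟩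
theorem cNC1 : ∃ t, chk3 (onCell 0 232471925 0 1073741824 818728140 40265320 (fdCW pN qN ndN1 (thLo (ndUL pN ndN1) (ndUR ndN2)) (tuLo (ndUL pN ndN1) (ndUR ndN2) (suL qN ndN1) (suR ndN2)) cvN1 cFsDD1 (ndUR ndN2))) t 1 1 1 = true :=
  ⟨(T.a (T.b (T.b (T.a (T.l 0) (T.l 0)) (T.l 1)) (T.l 1)) (T.b (T.b (T.b (T.b (T.l 0) (T.a (T.l 0) (T.l 0))) (T.l 1)) (T.l 1)) (T.a (T.a (T.l 1) (T.l 3)) (T.l 3)))), by decide +kernel⟩

end Pool.Agent.Strip051.G.I7625_8000.Tab.DG
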