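import Pool.Agent.Strip051.G.I7625_8000.Fs

/-! # Certificates at the floor (generated) -/

set_option linter.all false

namespace Pool.Agent.Strip051.G.I7625_8000.Tab

open Pool.Agent.Strip051.PB

theorem cA_m00 : CertNd 0 536870912 818728140 40265320 (ftMono true 0 mZ) [] ndB0q0 cZ :=
  certNd (T := (ftMono true 0 mZ)) (L := []) (P1 := 0) (W1 := 536870912) (P3 := 818728140) (W3 := 40265320) (n := ndB0q0) (c := cZ)
    ⟨T.a (T.l 0) (T.l 0),
      by decide +kernel⟩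
theorem cA_m01 : CertNd 536870912 536870912 818728140 40265320 (ftMono true 1 mZ) [] ndB0q1 cZ :=
  certNd (T := (ftMono true 1 mZ)) (L := []) (P1 := 536870912) (W1 := 536870912) (P3 := 818728140) (W3 := 40265320) (n := ndB0q1) (c := cZ)
    ⟨T.a (T.a (T.l 0) (T.l 0)) (T.a (T.l 0) (T.l 0)),
      by decide +kernel⟩
theorem cA_g00 : CertGe 0 67108864 818728140 40265320 true [] (((2 : ℕ) : ℝ) / ((1 : ℕ) : ℝ)) 0 ((0 : ℕ) : ℝ)
    (((2 : ℕ) : ℝ) / 2) mZ ndB0q0 cZ :=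
  certGe (z := true) (L := []) (P1 := 0) (W1 := 67108864) (P3 := 818728140) (W3 := 40265320) (oa := 2) (ob := 1)
    (q := 0) (bb := 0) (hB := 2) (M := mZ) (n := ndB0q0) (c := cZ) (sX := c1g_fs) (sK := kf0q0_fs)
    (sL := l0q0_fs) ⟨T.l 0,
      by decide +kernel⟩
theorem cA_w00a : CertNd 67108864 469762048 818728140 40265320 (ftWall true 0 mZ 1 1) [] ndB0q0 cZ :=
  certNd (T := (ftWall true 0 mZ 1 1)) (L := []) (P1 := 67108864) (W1 := 469762048) (P3 := 818728140) (W3 := 40265320) (n := ndB0q0) (c := cZ)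
    ⟨T.a (T.a (T.a (T.l 0) (T.l 0)) (T.a (T.l 0) (T.l 0))) (T.a (T.a (T.l 0) (T.l 0)) (T.a (T.l 0) (T.l 0))),
      by decide +kernel⟩
theorem cA_w01a : CertNd 536870912 255550554 818728140 40265320 (ftWall true 1 mZ 1 1) [] ndB0q1 cZ :=
  certNd (T := (ftWall true 1 mZ 1 1)) (L := []) (P1 := 536870912) (W1 := 255550554) (P3 := 818728140) (W3 := 40265320) (n := ndB0q1) (c := cZ)
    ⟨T.a (T.a (T.l 0) (T.l 0)) (T.a (T.c (T.l 0) (T.l 0)) (T.a (T.l 0) (T.c (T.a (T.l 0) (T.c (T.l 0) (T.l 0))) (T.l 0)))),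
      by decide +kernel⟩
theorem cA_w01b : CertNd 884763262 152471340 818728140 40265320 (ftWall true 1 mZ 1 1) [] ndB0q1 cZ :=
  certNd (T := (ftWall true 1 mZ 1 1)) (L := []) (P1 := 884763262) (W1 := 152471340) (P3 := 818728140) (W3 := 40265320) (n := ndB0q1) (c := cZ)
    ⟨T.a (T.a (T.a (T.c (T.a (T.l 0) (T.l 0)) (T.a (T.c (T.l 0) (T.c (T.l 0) (T.l 0))) (T.c (T.l 0) (T.l 0)))) (T.c (T.l 0) (T.a (T.l 0) (T.l 0)))) (T.a (T.c (T.l 0) (T.l 0)) (T.l 0))) (T.a (T.l 0) (T.l 0)),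
      by decide +kernel⟩
theorem cA_g01 : CertGe 1037234602 36507222 818728140 40265320 true [] (((2 : ℕ) : ℝ) / ((1 : ℕ) : ℝ)) 1 ((1 : ℕ) : ℝ)
    (((1 : ℕ) : ℝ) / 2) mZ ndB0q1 cZ :=
  certGe (z := true) (L := []) (P1 := 1037234602) (W1 := 36507222) (P3 := 818728140) (W3 := 40265320) (oa := 2) (ob := 1)
    (q := 1) (bb := 1) (hB := 1) (M := mZ) (n := ndB0q1) (c := cZ) (sX := c1g_fs) (sK := kf0q1_fs)
    (sL := l0q1_fs) ⟨T.l 0,
      by decide +kernel⟩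
theorem cA_tl : CertTg 792421466 92341796 818728140 40265320 (ftTf true dlg) [⟨6, 0⟩] :=
  certTg (T := (ftTf true dlg)) (L := [⟨6, 0⟩]) (P1 := 792421466) (W1 := 92341796) (P3 := 818728140) (W3 := 40265320)
    ⟨T.l 0,
      by decide +kernel⟩
theorem cA_th : CertTg 792421466 92341796 818728140 40265320 (ftTf false dlg) [⟨5, 0⟩] :=
  certTg (T := (ftTf false dlg)) (L := [⟨5, 0⟩]) (P1 := 792421466) (W1 := 92341796) (P3 := 818728140) (W3 := 40265320)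
    ⟨T.l 0,
      by decide +kernel⟩
theorem cA_m10 : CertNd 0 67108864 818728140 40265320 (ftMono true 0 mZ) [] ndB1q0 cZ :=
  certNd (T := (ftMono true 0 mZ)) (L := []) (P1 := 0) (W1 := 67108864) (P3 := 818728140) (W3 := 40265320) (n := ndB1q0) (c := cZ)
    ⟨T.l 0,
      by decide +kernel⟩
theorem cA_g10 : CertGe 0 67108864 818728140 40265320 true [] (((2 : ℕ) : ℝ) / ((1 : ℕ) : ℝ)) 0 ((0 : ℕ) : ℝ)
    (((2 : ℕ) : ℝ) / 2) mZ ndB1q0 cZ :=
  certGe (z := true) (L := []) (P1 := 0) (W1 := 67108864) (P3 := 818728140) (W3 := 40265320) (oa := 2) (ob := 1)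
    (q := 0) (bb := 0) (hB := 2) (M := mZ) (n := ndB1q0) (c := cZ) (sX := cv1m_fs) (sK := kf1q0_fs)
    (sL := l1q0_fs) ⟨T.l 0,
      by decide +kernel⟩
theorem cA_w10 : CertNd 67108864 469762048 818728140 40265320 (ftWall true 0 mZ 1 1) [] ndB1q0 cZ :=
  certNd (T := (ftWall true 0 mZ 1 1)) (L := []) (P1 := 67108864) (W1 := 469762048) (P3 := 818728140) (W3 := 40265320) (n := ndB1q0) (c := cZ)
    ⟨T.a (T.a (T.l 0) (T.l 0)) (T.l 0),
      by decide +kernel⟩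
theorem cA_w11 : CertNd 536870912 536870912 818728140 40265320 (ftWall true 1 mZ 1 1) [] ndB1q1 cZ :=
  certNd (T := (ftWall true 1 mZ 1 1)) (L := []) (P1 := 536870912) (W1 := 536870912) (P3 := 818728140) (W3 := 40265320) (n := ndB1q1) (c := cZ)
    ⟨T.a (T.l 0) (T.a (T.l 0) (T.l 0)),
      by decide +kernel⟩
theorem cA_f20 : CertNd 0 37195508 818728140 40265320 (ftFlat true 0 mZ 1 1) [] ndB2q0 cZ :=
  certNd (T := (ftFlat true 0 mZ 1 1)) (L := []) (P1 := 0) (W1 := 37195508) (P3 := 818728140) (W3 := 40265320) (n := ndB2q0) (c := cZ)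
    ⟨T.l 0,
      by decide +kernel⟩
theorem cA_l20 : CertNd 0 37195508 818728140 40265320 (ftWall true 0 mZ 1 1) [⟨3, 1181116007⟩] ndB2q0 cZ :=
  certNd (T := (ftWall true 0 mZ 1 1)) (L := [⟨3, 1181116007⟩]) (P1 := 0) (W1 := 37195508) (P3 := 818728140) (W3 := 40265320) (n := ndB2q0) (c := cZ)
    ⟨T.l 0,
      by decide +kernel⟩
theorem cA_w20 : CertNd 37195507 499675405 818728140 40265320 (ftWall true 0 mZ 1 1) [] ndB2q0 cZ :=
  certNd (T := (ftWall true 0 mZ 1 1)) (L := []) (P1 := 37195507) (W1 := 499675405) (P3 := 818728140) (W3 := 40265320) (n := ndB2q0) (c := cZ)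
    ⟨T.a (T.a (T.l 0) (T.a (T.l 0) (T.l 0))) (T.l 0),
      by decide +kernel⟩
theorem cA_w21 : CertNd 536870912 536870912 818728140 40265320 (ftWall true 1 mZ 1 1) [] ndB2q1 cZ :=
  certNd (T := (ftWall true 1 mZ 1 1)) (L := []) (P1 := 536870912) (W1 := 536870912) (P3 := 818728140) (W3 := 40265320) (n := ndB2q1) (c := cZ)
    ⟨T.a (T.l 0) (T.a (T.l 0) (T.l 0)),
      by decide +kernel⟩
theorem cA_w22 : CertNd 1073741824 166215235 818728140 40265320 (ftWall true 2 mZ 1 1) [⟨4, 0⟩] ndB2q2 cZ :=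
  certNd (T := (ftWall true 2 mZ 1 1)) (L := [⟨4, 0⟩]) (P1 := 1073741824) (W1 := 166215235) (P3 := 818728140) (W3 := 40265320) (n := ndB2q2) (c := cZ)
    ⟨T.l 0,
      by decide +kernel⟩
theorem cA_f30 : CertNd 0 37195508 818728140 40265320 (ftFlat true 0 mZ 1 1) [] ndB3q0 cZ :=
  certNd (T := (ftFlat true 0 mZ 1 1)) (L := []) (P1 := 0) (W1 := 37195508) (P3 := 818728140) (W3 := 40265320) (n := ndB3q0) (c := cZ)
    ⟨T.l 0,
      by decide +kernel⟩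
theorem cA_l30 : CertNd 0 37195508 818728140 40265320 (ftWall true 0 mZ 1 1) [⟨3, 1181116007⟩] ndB3q0 cZ :=
  certNd (T := (ftWall true 0 mZ 1 1)) (L := [⟨3, 1181116007⟩]) (P1 := 0) (W1 := 37195508) (P3 := 818728140) (W3 := 40265320) (n := ndB3q0) (c := cZ)
    ⟨T.l 1,
      by decide +kernel⟩
theorem cA_w30 : CertNd 37195507 499675405 818728140 40265320 (ftWall true 0 mZ 1 1) [] ndB3q0 cZ :=
  certNd (T := (ftWall true 0 mZ 1 1)) (L := []) (P1 := 37195507) (W1 := 499675405) (P3 := 818728140) (W3 := 40265320) (n := ndB3q0) (c := cZ)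
    ⟨T.a (T.a (T.l 0) (T.l 0)) (T.l 0),
      by decide +kernel⟩
theorem cA_w31 : CertNd 536870912 536870912 818728140 40265320 (ftWall true 1 mZ 1 1) [] ndB3q1 cZ :=
  certNd (T := (ftWall true 1 mZ 1 1)) (L := []) (P1 := 536870912) (W1 := 536870912) (P3 := 818728140) (W3 := 40265320) (n := ndB3q1) (c := cZ)
    ⟨T.a (T.l 0) (T.a (T.l 0) (T.l 0)),
      by decide +kernel⟩
theorem cA_w32 : CertNd 1073741824 166215235 818728140 40265320 (ftWall true 2 mZ 1 1) [⟨4, 0⟩] ndB3q2 cZ :=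
  certNd (T := (ftWall true 2 mZ 1 1)) (L := [⟨4, 0⟩]) (P1 := 1073741824) (W1 := 166215235) (P3 := 818728140) (W3 := 40265320) (n := ndB3q2) (c := cZ)
    ⟨T.l 0,
      by decide +kernel⟩
theorem cA_f40 : CertNd 0 37195508 818728140 40265320 (ftFlat true 0 mZ 1 1) [] ndB4q0 cZ :=
  certNd (T := (ftFlat true 0 mZ 1 1)) (L := []) (P1 := 0) (W1 := 37195508) (P3 := 818728140) (W3 := 40265320) (n := ndB4q0) (c := cZ)
    ⟨T.l 0,
      by decide +kernel⟩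
theorem cA_l40 : CertNd 0 37195508 818728140 40265320 (ftWall true 0 mZ 1 1) [⟨3, 1181116007⟩] ndB4q0 cZ :=
  certNd (T := (ftWall true 0 mZ 1 1)) (L := [⟨3, 1181116007⟩]) (P1 := 0) (W1 := 37195508) (P3 := 818728140) (W3 := 40265320) (n := ndB4q0) (c := cZ)
    ⟨T.l 0,
      by decide +kernel⟩
theorem cA_w40 : CertNd 37195507 499675405 818728140 40265320 (ftWall true 0 mZ 1 1) [] ndB4q0 cZ :=
  certNd (T := (ftWall true 0 mZ 1 1)) (L := []) (P1 := 37195507) (W1 := 499675405) (P3 := 818728140) (W3 := 40265320) (n := ndB4q0) (c := cZ)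
    ⟨T.a (T.l 0) (T.l 0),
      by decide +kernel⟩
theorem cA_w41 : CertNd 536870912 536870912 818728140 40265320 (ftWall true 1 mZ 1 1) [] ndB4q1 cZ :=
  certNd (T := (ftWall true 1 mZ 1 1)) (L := []) (P1 := 536870912) (W1 := 536870912) (P3 := 818728140) (W3 := 40265320) (n := ndB4q1) (c := cZ)
    ⟨T.a (T.l 0) (T.a (T.l 0) (T.l 0)),
      by decide +kernel⟩
theorem cA_w42 : CertNd 1073741824 166215235 818728140 40265320 (ftWall true 2 mZ 1 1) [⟨4, 0⟩] ndB4q2 cZ :=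
  certNd (T := (ftWall true 2 mZ 1 1)) (L := [⟨4, 0⟩]) (P1 := 1073741824) (W1 := 166215235) (P3 := 818728140) (W3 := 40265320) (n := ndB4q2) (c := cZ)
    ⟨T.l 0,
      by decide +kernel⟩
theorem cA_ll : CertSd 0 37195508 818728140 40265320 (ftWall true 0 mZ 1 1) [] idF (cnF 1100 1000) pcB0 dZ :=
  certSd (T := (ftWall true 0 mZ 1 1)) (L := []) (P1 := 0) (W1 := 37195508) (P3 := 818728140) (W3 := 40265320) (Y := idF) (X := (cnF 1100 1000))
    (pc := pcB0) (c := dZ) ⟨T.l 0,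
      by decide +kernel⟩
theorem cA_st : CertSt 1073741824 66571993 818728140 40265320 true [] (((2 : ℕ) : ℝ) / ((1 : ℕ) : ℝ)) mZ ndB1q2 cZ ndB2q2 cZ :=
  certSt (z := true) (L := []) (P1 := 1073741824) (W1 := 66571993) (P3 := 818728140) (W3 := 40265320) (oa := 2) (ob := 1)
    (M := mZ) (n := ndB1q2) (c := cZ) (n' := ndB2q2) (c' := cZ) (sX := cv1p_fs) (sK := kf1q2_fs) (sL := l1q2_fs)
    ⟨T.l 0,
      by decide +kernel⟩
theorem cA_sm : CertSd 421526751 115344161 818728140 40265320 (ftMono true 2 mZ) [] ygF xsF pcB2 dZ :=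
  certSd (T := (ftMono true 2 mZ)) (L := []) (P1 := 421526751) (W1 := 115344161) (P3 := 818728140) (W3 := 40265320) (Y := ygF) (X := xsF)
    (pc := pcB2) (c := dZ) ⟨T.l 0,
      by decide +kernel⟩
theorem cA_sw : CertSd 0 421526755 818728140 40265320 (ftWall true 2 mZ 1 1) [] ygF xsF pcB2 dZ :=
  certSd (T := (ftWall true 2 mZ 1 1)) (L := []) (P1 := 0) (W1 := 421526755) (P3 := 818728140) (W3 := 40265320) (Y := ygF) (X := xsF)
    (pc := pcB2) (c := dZ) ⟨T.a (T.l 0) (T.a (T.l 0) (T.l 0)),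
      by decide +kernel⟩
theorem cA_h0_01 : CertNd 991880209 80590268 818728140 40265320 (ftHigh true 1 mZ 1 1 80 1100) [] ndB0q1 cZ :=
  certNd (T := (ftHigh true 1 mZ 1 1 80 1100)) (L := []) (P1 := 991880209) (W1 := 80590268) (P3 := 818728140) (W3 := 40265320) (n := ndB0q1) (c := cZ)
    ⟨T.a (T.a (T.c (T.l 0) (T.l 0)) (T.l 0)) (T.c (T.l 0) (T.l 0)),
      by decide +kernel⟩
theorem cA_h0_11 : CertNd 991880209 80590268 818728140 40265320 (ftHigh true 1 mZ 1 1 80 1100) [] ndB1q1 cZ :=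
  certNd (T := (ftHigh true 1 mZ 1 1 80 1100)) (L := []) (P1 := 991880209) (W1 := 80590268) (P3 := 818728140) (W3 := 40265320) (n := ndB1q1) (c := cZ)
    ⟨T.l 0,
      by decide +kernel⟩
theorem cA_h0_21 : CertNd 991880209 80590268 818728140 40265320 (ftHigh true 1 mZ 1 1 80 1100) [] ndB2q1 cZ :=
  certNd (T := (ftHigh true 1 mZ 1 1 80 1100)) (L := []) (P1 := 991880209) (W1 := 80590268) (P3 := 818728140) (W3 := 40265320) (n := ndB2q1) (c := cZ)
    ⟨T.l 0,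
      by decide +kernel⟩
theorem cA_h0_31 : CertNd 991880209 80590268 818728140 40265320 (ftHigh true 1 mZ 1 1 80 1100) [] ndB3q1 cZ :=
  certNd (T := (ftHigh true 1 mZ 1 1 80 1100)) (L := []) (P1 := 991880209) (W1 := 80590268) (P3 := 818728140) (W3 := 40265320) (n := ndB3q1) (c := cZ)
    ⟨T.l 0,
      by decide +kernel⟩
theorem cA_h0_41 : CertNd 991880209 80590268 818728140 40265320 (ftHigh true 1 mZ 1 1 80 1100) [] ndB4q1 cZ :=
  certNd (T := (ftHigh true 1 mZ 1 1 80 1100)) (L := []) (P1 := 991880209) (W1 := 80590268) (P3 := 818728140) (W3 := 40265320) (n := ndB4q1) (c := cZ)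
    ⟨T.l 0,
      by decide +kernel⟩
theorem cA_h1_01 : CertNd 1035274968 38466856 818728140 40265320 (ftHigh true 1 mZ 1 1 800 1100) [] ndB0q1 cZ :=
  certNd (T := (ftHigh true 1 mZ 1 1 800 1100)) (L := []) (P1 := 1035274968) (W1 := 38466856) (P3 := 818728140) (W3 := 40265320) (n := ndB0q1) (c := cZ)
    ⟨T.l 0,
      by decide +kernel⟩
theorem cA_h1_11 : CertNd 1035274968 38466856 818728140 40265320 (ftHigh true 1 mZ 1 1 800 1100) [] ndB1q1 cZ :=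
  certNd (T := (ftHigh true 1 mZ 1 1 800 1100)) (L := []) (P1 := 1035274968) (W1 := 38466856) (P3 := 818728140) (W3 := 40265320) (n := ndB1q1) (c := cZ)
    ⟨T.l 0,
      by decide +kernel⟩
theorem cA_h1_21 : CertNd 1035274968 38466856 818728140 40265320 (ftHigh true 1 mZ 1 1 800 1100) [] ndB2q1 cZ :=
  certNd (T := (ftHigh true 1 mZ 1 1 800 1100)) (L := []) (P1 := 1035274968) (W1 := 38466856) (P3 := 818728140) (W3 := 40265320) (n := ndB2q1) (c := cZ)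
    ⟨T.l 0,
      by decide +kernel⟩
theorem cA_h1_31 : CertNd 1035274968 38466856 818728140 40265320 (ftHigh true 1 mZ 1 1 800 1100) [] ndB3q1 cZ :=
  certNd (T := (ftHigh true 1 mZ 1 1 800 1100)) (L := []) (P1 := 1035274968) (W1 := 38466856) (P3 := 818728140) (W3 := 40265320) (n := ndB3q1) (c := cZ)
    ⟨T.l 0,
      by decide +kernel⟩
theorem cA_h1_41 : CertNd 1035274968 38466856 818728140 40265320 (ftHigh true 1 mZ 1 1 800 1100) [] ndB4q1 cZ :=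
  certNd (T := (ftHigh true 1 mZ 1 1 800 1100)) (L := []) (P1 := 1035274968) (W1 := 38466856) (P3 := 818728140) (W3 := 40265320) (n := ndB4q1) (c := cZ)
    ⟨T.l 0,
      by decide +kernel⟩
theorem cA_h1_02 : CertNd 0 536870912 818728140 40265320 (ftHigh true 2 mZ 1 1 800 1100) [⟨0, 1035274968⟩, ⟨1, 1190256252⟩] ndB0q2 cZ :=
  certNd (T := (ftHigh true 2 mZ 1 1 800 1100)) (L := [⟨0, 1035274968⟩, ⟨1, 1190256252⟩]) (P1 := 0) (W1 := 536870912) (P3 := 818728140) (W3 := 40265320) (n := ndB0q2) (c := cZ)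
    ⟨T.a (T.l 3) (T.a (T.a (T.l 0) (T.l 0)) (T.l 0)),
      by decide +kernel⟩
theorem cA_h1_12 : CertNd 1073741824 116514428 818728140 40265320 (ftHigh true 2 mZ 1 1 800 1100) [] ndB1q2 cZ :=
  certNd (T := (ftHigh true 2 mZ 1 1 800 1100)) (L := []) (P1 := 1073741824) (W1 := 116514428) (P3 := 818728140) (W3 := 40265320) (n := ndB1q2) (c := cZ)
    ⟨T.a (T.l 0) (T.l 0),
      by decide +kernel⟩
theorem cA_h1_22 : CertNd 1073741824 116514428 818728140 40265320 (ftHigh true 2 mZ 1 1 800 1100) [] ndB2q2 cZ :=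
  certNd (T := (ftHigh true 2 mZ 1 1 800 1100)) (L := []) (P1 := 1073741824) (W1 := 116514428) (P3 := 818728140) (W3 := 40265320) (n := ndB2q2) (c := cZ)
    ⟨T.l 0,
      by decide +kernel⟩
theorem cA_h1_32 : CertNd 1073741824 116514428 818728140 40265320 (ftHigh true 2 mZ 1 1 800 1100) [] ndB3q2 cZ :=
  certNd (T := (ftHigh true 2 mZ 1 1 800 1100)) (L := []) (P1 := 1073741824) (W1 := 116514428) (P3 := 818728140) (W3 := 40265320) (n := ndB3q2) (c := cZ)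
    ⟨T.l 0,
      by decide +kernel⟩
theorem cA_h1_42 : CertNd 1073741824 116514428 818728140 40265320 (ftHigh true 2 mZ 1 1 800 1100) [] ndB4q2 cZ :=
  certNd (T := (ftHigh true 2 mZ 1 1 800 1100)) (L := []) (P1 := 1073741824) (W1 := 116514428) (P3 := 818728140) (W3 := 40265320) (n := ndB4q2) (c := cZ)
    ⟨T.l 0,
      by decide +kernel⟩
theorem cA_h2_02 : CertNd 0 536870912 818728140 40265320 (ftHigh true 2 mZ 1 1 1060 1100) [⟨0, 1153060743⟩, ⟨1, 2144940954⟩] ndB0q2 cZ :=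
  certNd (T := (ftHigh true 2 mZ 1 1 1060 1100)) (L := [⟨0, 1153060743⟩, ⟨1, 2144940954⟩]) (P1 := 0) (W1 := 536870912) (P3 := 818728140) (W3 := 40265320) (n := ndB0q2) (c := cZ)
    ⟨T.a (T.a (T.l 0) (T.l 0)) (T.a (T.l 0) (T.l 0)),
      by decide +kernel⟩
theorem cA_h2_12 : CertNd 1153060743 457551993 818728140 40265320 (ftHigh true 2 mZ 1 1 1060 1100) [] ndB1q2 cZ :=
  certNd (T := (ftHigh true 2 mZ 1 1 1060 1100)) (L := []) (P1 := 1153060743) (W1 := 457551993) (P3 := 818728140) (W3 := 40265320) (n := ndB1q2) (c := cZ)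
    ⟨T.a (T.a (T.a (T.l 0) (T.a (T.l 0) (T.l 0))) (T.l 0)) (T.l 0),
      by decide +kernel⟩
theorem cA_h2_22 : CertNd 1153060743 457551993 818728140 40265320 (ftHigh true 2 mZ 1 1 1060 1100) [] ndB2q2 cZ :=
  certNd (T := (ftHigh true 2 mZ 1 1 1060 1100)) (L := []) (P1 := 1153060743) (W1 := 457551993) (P3 := 818728140) (W3 := 40265320) (n := ndB2q2) (c := cZ)
    ⟨T.a (T.a (T.l 0) (T.l 0)) (T.l 0),
      by decide +kernel⟩
theorem cA_h2_32 : CertNd 1153060743 457551993 818728140 40265320 (ftHigh true 2 mZ 1 1 1060 1100) [] ndB3q2 cZ :=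
  certNd (T := (ftHigh true 2 mZ 1 1 1060 1100)) (L := []) (P1 := 1153060743) (W1 := 457551993) (P3 := 818728140) (W3 := 40265320) (n := ndB3q2) (c := cZ)
    ⟨T.a (T.l 0) (T.l 0),
      by decide +kernel⟩
theorem cA_h2_42 : CertNd 1153060743 457551993 818728140 40265320 (ftHigh true 2 mZ 1 1 1060 1100) [] ndB4q2 cZ :=
  certNd (T := (ftHigh true 2 mZ 1 1 1060 1100)) (L := []) (P1 := 1153060743) (W1 := 457551993) (P3 := 818728140) (W3 := 40265320) (n := ndB4q2) (c := cZ)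
    ⟨T.a (T.a (T.l 0) (T.l 0)) (T.a (T.l 0) (T.l 0)),
      by decide +kernel⟩
theorem cA_h2_13 : CertNd 1610612736 534328218 818728140 40265320 (ftHigh true 3 mZ 1 1 1060 1100) [] ndB1q3 cZ :=
  certNd (T := (ftHigh true 3 mZ 1 1 1060 1100)) (L := []) (P1 := 1610612736) (W1 := 534328218) (P3 := 818728140) (W3 := 40265320) (n := ndB1q3) (c := cZ)
    ⟨T.a (T.l 0) (T.a (T.l 0) (T.l 0)),
      by decide +kernel⟩
theorem cA_h2_23 : CertNd 0 1230186008 818728140 40265320 (ftHigh true 3 mZ 1 1 1060 1100) [⟨0, 1153060743⟩, ⟨1, 2144940954⟩] ndB2q3 cZ :=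
  certNd (T := (ftHigh true 3 mZ 1 1 1060 1100)) (L := [⟨0, 1153060743⟩, ⟨1, 2144940954⟩]) (P1 := 0) (W1 := 1230186008) (P3 := 818728140) (W3 := 40265320) (n := ndB2q3) (c := cZ)
    ⟨T.a (T.a (T.l 0) (T.l 0)) (T.a (T.a (T.a (T.l 0) (T.l 0)) (T.l 0)) (T.a (T.a (T.l 0) (T.l 0)) (T.l 0))),
      by decide +kernel⟩
theorem cA_h2_33 : CertNd 0 1230186008 818728140 40265320 (ftHigh true 3 mZ 1 1 1060 1100) [⟨0, 1153060743⟩, ⟨1, 2144940954⟩] ndB3q3 cZ :=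
  certNd (T := (ftHigh true 3 mZ 1 1 1060 1100)) (L := [⟨0, 1153060743⟩, ⟨1, 2144940954⟩]) (P1 := 0) (W1 := 1230186008) (P3 := 818728140) (W3 := 40265320) (n := ndB3q3) (c := cZ)
    ⟨T.a (T.a (T.l 0) (T.l 0)) (T.a (T.l 0) (T.l 0)),
      by decide +kernel⟩
theorem cA_h2_43 : CertNd 0 1230186008 818728140 40265320 (ftHigh true 3 mZ 1 1 1060 1100) [⟨0, 1153060743⟩, ⟨1, 2144940954⟩] ndB4q3 cZ :=
  certNd (T := (ftHigh true 3 mZ 1 1 1060 1100)) (L := [⟨0, 1153060743⟩, ⟨1, 2144940954⟩]) (P1 := 0) (W1 := 1230186008) (P3 := 818728140) (W3 := 40265320) (n := ndB4q3) (c := cZ)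
    ⟨T.a (T.a (T.l 0) (T.l 0)) (T.a (T.a (T.l 0) (T.l 0)) (T.a (T.l 0) (T.l 0))),
      by decide +kernel⟩
theorem cA_r0_02 : CertNd 0 536870912 818728140 40265320 (ftFar true 2 mZ 1 1 1260 1100) [⟨0, 1091068230⟩, ⟨1, 1698594860⟩, ⟨2, 1181116006⟩] ndB0q2 cZ :=
  certNd (T := (ftFar true 2 mZ 1 1 1260 1100)) (L := [⟨0, 1091068230⟩, ⟨1, 1698594860⟩, ⟨2, 1181116006⟩]) (P1 := 0) (W1 := 536870912) (P3 := 818728140) (W3 := 40265320) (n := ndB0q2) (c := cZ)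
    ⟨T.l 5,
      by decide +kernel⟩
theorem cA_r0_12 : CertNd 1091068230 519544506 818728140 40265320 (ftFar true 2 mZ 1 1 1260 1100) [⟨2, 1181116006⟩] ndB1q2 cZ :=
  certNd (T := (ftFar true 2 mZ 1 1 1260 1100)) (L := [⟨2, 1181116006⟩]) (P1 := 1091068230) (W1 := 519544506) (P3 := 818728140) (W3 := 40265320) (n := ndB1q2) (c := cZ)
    ⟨T.l 1,
      by decide +kernel⟩
theorem cA_r0_22 : CertNd 1091068230 519544506 818728140 40265320 (ftFar true 2 mZ 1 1 1260 1100) [⟨2, 1181116006⟩] ndB2q2 cZ :=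
  certNd (T := (ftFar true 2 mZ 1 1 1260 1100)) (L := [⟨2, 1181116006⟩]) (P1 := 1091068230) (W1 := 519544506) (P3 := 818728140) (W3 := 40265320) (n := ndB2q2) (c := cZ)
    ⟨T.l 0,
      by decide +kernel⟩
theorem cA_r0_32 : CertNd 1091068230 519544506 818728140 40265320 (ftFar true 2 mZ 1 1 1260 1100) [⟨2, 1181116006⟩] ndB3q2 cZ :=
  certNd (T := (ftFar true 2 mZ 1 1 1260 1100)) (L := [⟨2, 1181116006⟩]) (P1 := 1091068230) (W1 := 519544506) (P3 := 818728140) (W3 := 40265320) (n := ndB3q2) (c := cZ)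
    ⟨T.a (T.l 0) (T.l 0),
      by decide +kernel⟩
theorem cA_r0_42 : CertNd 1091068230 519544506 818728140 40265320 (ftFar true 2 mZ 1 1 1260 1100) [⟨2, 1181116006⟩] ndB4q2 cZ :=
  certNd (T := (ftFar true 2 mZ 1 1 1260 1100)) (L := [⟨2, 1181116006⟩]) (P1 := 1091068230) (W1 := 519544506) (P3 := 818728140) (W3 := 40265320) (n := ndB4q2) (c := cZ)
    ⟨T.a (T.a (T.a (T.c (T.l 0) (T.l 0)) (T.l 0)) (T.l 0)) (T.a (T.l 0) (T.l 0)),
      by decide +kernel⟩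
theorem cA_r0_13 : CertNd 1610612736 87982124 818728140 40265320 (ftFar true 3 mZ 1 1 1260 1100) [⟨2, 1181116006⟩] ndB1q3 cZ :=
  certNd (T := (ftFar true 3 mZ 1 1 1260 1100)) (L := [⟨2, 1181116006⟩]) (P1 := 1610612736) (W1 := 87982124) (P3 := 818728140) (W3 := 40265320) (n := ndB1q3) (c := cZ)
    ⟨T.l 0,
      by decide +kernel⟩
theorem cA_r0_23 : CertNd 0 1230186008 818728140 40265320 (ftFar true 3 mZ 1 1 1260 1100) [⟨0, 1091068230⟩, ⟨1, 1698594860⟩, ⟨2, 1181116006⟩] ndB2q3 cZ :=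
  certNd (T := (ftFar true 3 mZ 1 1 1260 1100)) (L := [⟨0, 1091068230⟩, ⟨1, 1698594860⟩, ⟨2, 1181116006⟩]) (P1 := 0) (W1 := 1230186008) (P3 := 818728140) (W3 := 40265320) (n := ndB2q3) (c := cZ)
    ⟨T.l 5,
      by decide +kernel⟩
theorem cA_r0_33 : CertNd 0 1230186008 818728140 40265320 (ftFar true 3 mZ 1 1 1260 1100) [⟨0, 1091068230⟩, ⟨1, 1698594860⟩, ⟨2, 1181116006⟩] ndB3q3 cZ :=
  certNd (T := (ftFar true 3 mZ 1 1 1260 1100)) (L := [⟨0, 1091068230⟩, ⟨1, 1698594860⟩, ⟨2, 1181116006⟩]) (P1 := 0) (W1 := 1230186008) (P3 := 818728140) (W3 := 40265320) (n := ndB3q3) (c := cZ)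
    ⟨T.l 5,
      by decide +kernel⟩
theorem cA_r0_43 : CertNd 0 1230186008 818728140 40265320 (ftFar true 3 mZ 1 1 1260 1100) [⟨0, 1091068230⟩, ⟨1, 1698594860⟩, ⟨2, 1181116006⟩] ndB4q3 cZ :=
  certNd (T := (ftFar true 3 mZ 1 1 1260 1100)) (L := [⟨0, 1091068230⟩, ⟨1, 1698594860⟩, ⟨2, 1181116006⟩]) (P1 := 0) (W1 := 1230186008) (P3 := 818728140) (W3 := 40265320) (n := ndB4q3) (c := cZ)
    ⟨T.a (T.l 3) (T.a (T.l 0) (T.a (T.l 0) (T.l 0))),
      by decide +kernel⟩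
theorem cA_n0_02z : CertNd 0 64424509 818728140 40265320 (ftNear true 2 mZ 1 1 1260) [⟨0, 1091068230⟩, ⟨1, 1698594860⟩] ⟨ndB0q2.Y, onF, kq02, lq02⟩ cZ :=
  certNd (T := (ftNear true 2 mZ 1 1 1260)) (L := [⟨0, 1091068230⟩, ⟨1, 1698594860⟩]) (P1 := 0) (W1 := 64424509) (P3 := 818728140) (W3 := 40265320) (n := ⟨ndB0q2.Y, onF, kq02, lq02⟩) (c := cZ)
    ⟨T.l 0,
      by decide +kernel⟩
theorem cA_n0_02 : CertNd 0 536870912 818728140 40265320 (ftNear true 2 mZ 1 1 1260) [⟨0, 1091068230⟩, ⟨1, 1698594860⟩, ⟨2, 64424509⟩, ⟨3, 429496730⟩] ndB0q2 cZ :=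
  certNd (T := (ftNear true 2 mZ 1 1 1260)) (L := [⟨0, 1091068230⟩, ⟨1, 1698594860⟩, ⟨2, 64424509⟩, ⟨3, 429496730⟩]) (P1 := 0) (W1 := 536870912) (P3 := 818728140) (W3 := 40265320) (n := ndB0q2) (c := cZ)
    ⟨T.a (T.a (T.a (T.a (T.l 5) (T.l 0)) (T.a (T.l 0) (T.l 0))) (T.a (T.a (T.l 0) (T.l 0)) (T.l 0))) (T.a (T.a (T.c (T.l 0) (T.l 0)) (T.l 0)) (T.a (T.l 0) (T.l 0))),
      by decide +kernel⟩
theorem cA_n0_12 : CertNd 1091068230 519544506 818728140 40265320 (ftNear true 2 mZ 1 1 1260) [⟨3, 429496730⟩] ndB1q2 cZ :=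
  certNd (T := (ftNear true 2 mZ 1 1 1260)) (L := [⟨3, 429496730⟩]) (P1 := 1091068230) (W1 := 519544506) (P3 := 818728140) (W3 := 40265320) (n := ndB1q2) (c := cZ)
    ⟨T.a (T.a (T.a (T.l 0) (T.a (T.l 0) (T.l 0))) (T.a (T.a (T.a (T.a (T.l 0) (T.l 0)) (T.a (T.a (T.a (T.l 0) (T.a (T.a (T.l 0) (T.a (T.a (T.a (T.l 0) (T.l 0)) (T.l 0)) (T.l 0))) (T.l 0))) (T.l 0)) (T.l 0))) (T.l 0)) (T.l 0))) (T.l 0),
      by decide +kernel⟩
theorem cA_n0_22 : CertNd 1091068230 519544506 818728140 40265320 (ftNear true 2 mZ 1 1 1260) [⟨3, 429496730⟩] ndB2q2 cZ :=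
  certNd (T := (ftNear true 2 mZ 1 1 1260)) (L := [⟨3, 429496730⟩]) (P1 := 1091068230) (W1 := 519544506) (P3 := 818728140) (W3 := 40265320) (n := ndB2q2) (c := cZ)
    ⟨T.l 1,
      by decide +kernel⟩
theorem cA_n0_32 : CertNd 1091068230 519544506 818728140 40265320 (ftNear true 2 mZ 1 1 1260) [⟨3, 429496730⟩] ndB3q2 cZ :=
  certNd (T := (ftNear true 2 mZ 1 1 1260)) (L := [⟨3, 429496730⟩]) (P1 := 1091068230) (W1 := 519544506) (P3 := 818728140) (W3 := 40265320) (n := ndB3q2) (c := cZ)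
    ⟨T.l 1,
      by decide +kernel⟩
theorem cA_n0_42 : CertNd 1091068230 519544506 818728140 40265320 (ftNear true 2 mZ 1 1 1260) [⟨3, 429496730⟩] ndB4q2 cZ :=
  certNd (T := (ftNear true 2 mZ 1 1 1260)) (L := [⟨3, 429496730⟩]) (P1 := 1091068230) (W1 := 519544506) (P3 := 818728140) (W3 := 40265320) (n := ndB4q2) (c := cZ)
    ⟨T.l 1,
      by decide +kernel⟩
theorem cA_n0_13 : CertNd 1610612736 87982124 818728140 40265320 (ftNear true 3 mZ 1 1 1260) [⟨3, 429496730⟩] ndB1q3 cZ :=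
  certNd (T := (ftNear true 3 mZ 1 1 1260)) (L := [⟨3, 429496730⟩]) (P1 := 1610612736) (W1 := 87982124) (P3 := 818728140) (W3 := 40265320) (n := ndB1q3) (c := cZ)
    ⟨T.l 0,
      by decide +kernel⟩
theorem cA_n0_23 : CertNd 0 1230186008 818728140 40265320 (ftNear true 3 mZ 1 1 1260) [⟨0, 1091068230⟩, ⟨1, 1698594860⟩, ⟨3, 429496730⟩] ndB2q3 cZ :=
  certNd (T := (ftNear true 3 mZ 1 1 1260)) (L := [⟨0, 1091068230⟩, ⟨1, 1698594860⟩, ⟨3, 429496730⟩]) (P1 := 0) (W1 := 1230186008) (P3 := 818728140) (W3 := 40265320) (n := ndB2q3) (c := cZ)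
    ⟨T.a (T.l 3) (T.a (T.l 3) (T.a (T.l 3) (T.l 0))),
      by decide +kernel⟩
theorem cA_n0_33 : CertNd 0 1230186008 818728140 40265320 (ftNear true 3 mZ 1 1 1260) [⟨0, 1091068230⟩, ⟨1, 1698594860⟩, ⟨3, 429496730⟩] ndB3q3 cZ :=
  certNd (T := (ftNear true 3 mZ 1 1 1260)) (L := [⟨0, 1091068230⟩, ⟨1, 1698594860⟩, ⟨3, 429496730⟩]) (P1 := 0) (W1 := 1230186008) (P3 := 818728140) (W3 := 40265320) (n := ndB3q3) (c := cZ)
    ⟨T.a (T.l 3) (T.a (T.l 3) (T.l 5)),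
      by decide +kernel⟩
theorem cA_n0_43 : CertNd 0 1230186008 818728140 40265320 (ftNear true 3 mZ 1 1 1260) [⟨0, 1091068230⟩, ⟨1, 1698594860⟩, ⟨3, 429496730⟩] ndB4q3 cZ :=
  certNd (T := (ftNear true 3 mZ 1 1 1260)) (L := [⟨0, 1091068230⟩, ⟨1, 1698594860⟩, ⟨3, 429496730⟩]) (P1 := 0) (W1 := 1230186008) (P3 := 818728140) (W3 := 40265320) (n := ndB4q3) (c := cZ)
    ⟨T.a (T.l 3) (T.l 5),
      by decide +kernel⟩
theorem cA_R0_2 : CertSd 1091068230 519544506 818728140 40265320 (ftFar true 2 mZ 1 1 1260 1100) [] idF (cnF 1100 1000) pcB2 dZ :=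
  certSd (T := (ftFar true 2 mZ 1 1 1260 1100)) (L := []) (P1 := 1091068230) (W1 := 519544506) (P3 := 818728140) (W3 := 40265320) (Y := idF) (X := (cnF 1100 1000))
    (pc := pcB2) (c := dZ) ⟨T.a (T.a (T.l 0) (T.l 0)) (T.a (T.l 0) (T.l 0)),
      by decide +kernel⟩
theorem cA_N0_2 : CertSd 1136340972 474271764 818728140 40265320 (ftNear true 2 mZ 1 1 1260) [] idF (cnF 400 1000) pcB2 dZ :=
  certSd (T := (ftNear true 2 mZ 1 1 1260)) (L := []) (P1 := 1136340972) (W1 := 474271764) (P3 := 818728140) (W3 := 40265320) (Y := idF) (X := (cnF 400 1000))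
    (pc := pcB2) (c := dZ) ⟨T.a (T.a (T.a (T.a (T.c (T.l 0) (T.l 0)) (T.l 0)) (T.a (T.l 0) (T.l 0))) (T.l 0)) (T.l 0),
      by decide +kernel⟩
theorem cA_R0_3 : CertSd 1610612736 48318382 818728140 40265320 (ftFar true 3 mZ 1 1 1260 1100) [] idF (cnF 1100 1000) pcB3 dZ :=
  certSd (T := (ftFar true 3 mZ 1 1 1260 1100)) (L := []) (P1 := 1610612736) (W1 := 48318382) (P3 := 818728140) (W3 := 40265320) (Y := idF) (X := (cnF 1100 1000))
    (pc := pcB3) (c := dZ) ⟨T.l 0,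
      by decide +kernel⟩
theorem cA_N0_3 : CertSd 1610612736 87982124 818728140 40265320 (ftNear true 3 mZ 1 1 1260) [] idF (cnF 400 1000) pcB3 dZ :=
  certSd (T := (ftNear true 3 mZ 1 1 1260)) (L := []) (P1 := 1610612736) (W1 := 87982124) (P3 := 818728140) (W3 := 40265320) (Y := idF) (X := (cnF 400 1000))
    (pc := pcB3) (c := dZ) ⟨T.l 0,
      by decide +kernel⟩

end Pool.Agent.Strip051.G.I7625_8000.Tab
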