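import Pool.Agent.Strip051.PB.FlAsmX
import Pool.Agent.Strip051.G.I7625_8000.Tab

/-! # Slopes (generated) -/

set_option linter.all false

namespace Pool.Agent.Strip051.G.I7625_8000.Tab

open Pool.Agent.Strip051.PB

attribute [local irreducible] padd psub pneg pmul psq pinv psqrt psqrtg pabs pps pmax pmin pphi
  plam pcase phf pnat prat pscale pnorm pdc pnc pone ppos pnn

noncomputable def c1g_fs : Sl1 c1g := ⟨_, fun h1 => (pr_sqrtg (pr_csub (enc_pnc _ 1) (pr_scale 3 4 (pr_sq h1))))⟩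
noncomputable def kcg_9_fs : Sl2 kcg_9 := ⟨_, fun h1 h2 => (pr_addc h1 (enc_rat _ 191 500))⟩
noncomputable def kcg_12_fs : Sl2 kcg_12 := ⟨_, fun h1 h2 => (pr_addc h1 (enc_rat _ 7 16))⟩
noncomputable def kcg_13_fs : Sl2 kcg_13 := ⟨_, fun h1 h2 => (pr_scale 4213 5000 h1)⟩
noncomputable def kcg_17_fs : Sl2 kcg_17 := ⟨_, fun h1 h2 => (pr_scale 1097 1000 h1)⟩
noncomputable def kcg_23_fs : Sl2 kcg_23 := ⟨_, fun h1 h2 => (pr_scale 3393 10000 h1)⟩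
noncomputable def kcg_28_fs : Sl2 kcg_28 := ⟨_, fun h1 h2 => (pr_scale 3734 125 h1)⟩
noncomputable def kcg_46_fs : Sl2 kcg_46 := ⟨_, fun h1 h2 => (pr_addc h1 (enc_rat _ 327 1000))⟩
noncomputable def kcg_47_fs : Sl2 kcg_47 := ⟨_, fun h1 h2 => (pr_scale 2003 2500 h1)⟩
noncomputable def kcg_52_fs : Sl2 kcg_52 := ⟨_, fun h1 h2 => (pr_scale 11299 400 h1)⟩
noncomputable def kcg_66_fs : Sl2 kcg_66 := ⟨_, fun h1 h2 => (pr_scale 7073 10000 h1)⟩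
noncomputable def kcg_70_fs : Sl2 kcg_70 := ⟨_, fun h1 h2 => (pr_scale 9513 2000 h1)⟩
noncomputable def kcg_90_fs : Sl2 kcg_90 := ⟨_, fun h1 h2 => (pr_addc h1 (enc_rat _ 57 500))⟩
noncomputable def kcg_93_fs : Sl2 kcg_93 := ⟨_, fun h1 h2 => (pr_addc h1 (enc_rat _ 33 200))⟩
noncomputable def kcg_94_fs : Sl2 kcg_94 := ⟨_, fun h1 h2 => (pr_scale 7479 5000 h1)⟩
noncomputable def kcg_98_fs : Sl2 kcg_98 := ⟨_, fun h1 h2 => (pr_scale 2333 200 h1)⟩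
noncomputable def kcg_103_fs : Sl2 kcg_103 := ⟨_, fun h1 h2 => (pr_scale 1673 2000 h1)⟩
noncomputable def kcg_107_fs : Sl2 kcg_107 := ⟨_, fun h1 h2 => (pr_scale 1293 400 h1)⟩
noncomputable def kcg_124_fs : Sl2 kcg_124 := ⟨_, fun h1 h2 => (pr_scale 26151 20000 h1)⟩
noncomputable def kcg_128_fs : Sl2 kcg_128 := ⟨_, fun h1 h2 => (pr_scale 10399 2000 h1)⟩
noncomputable def kcg_146_fs : Sl2 kcg_146 := ⟨_, fun h1 h2 => (pr_scale 24379 10000 h1)⟩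
noncomputable def kcg_150_fs : Sl2 kcg_150 := ⟨_, fun h1 h2 => (pr_cmul (enc_norm (kcg_3.enc h1.l h2)) (pr_nd (pr_scale 5199 1000 h1)))⟩
noncomputable def kcg_158_fs : Sl2 kcg_158 := ⟨_, fun h1 h2 => (pr_csub (enc_rat _ 191 500) h1)⟩
noncomputable def kcg_159_fs : Sl2 kcg_159 := ⟨_, fun h1 h2 => (pr_csub (enc_rat _ 7 16) h1)⟩
noncomputable def kcg_176_fs : Sl2 kcg_176 := ⟨_, fun h1 h2 => (pr_csub (enc_rat _ 327 1000) h1)⟩
noncomputable def kcg_198_fs : Sl2 kcg_198 := ⟨_, fun h1 h2 => (pr_csub (enc_rat _ 57 500) h1)⟩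
noncomputable def kcg_199_fs : Sl2 kcg_199 := ⟨_, fun h1 h2 => (pr_csub (enc_rat _ 33 200) h1)⟩
noncomputable def kcg_fs : Sl2 kcg := ⟨_, fun h1 h2 => (pr_norm (pr_case h1 (pr_case (pr_addc h1 (enc_rat _ 271 1000)) (pr_case (kcg_9_fs.snd h1 h2) (pr_case (kcg_12_fs.snd h1 h2) (pr_add (pr_subr 1159921 40000000 (kcg_13_fs.snd h1 h2)) (pr_cmul (enc_norm (kcg_3.enc h1.l h2)) (pr_norm (pr_subr 15226283 4000000 (kcg_17_fs.snd h1 h2))))) (pr_add (pr_add (pr_subr 21843171 40000000 (pr_neg (kcg_23_fs.snd h1 h2))) (pr_cmul (enc_norm (kcg_3.enc h1.l h2)) (pr_norm (pr_addc (kcg_28_fs.snd h1 h2) (enc_rat _ 35129967 4000000))))) (pr_cmul (enc_norm (kcg_38.enc h1.l h2)) (pr_norm (pr_mul (pr_norm (kcg_12_fs.snd h1 h2)) (pr_norm (pr_csub (enc_neg (enc_rat _ 191 500)) h1))))))) (pr_case (kcg_46_fs.snd h1 h2) (pr_add (pr_add (pr_subr 28901003 40000000 (pr_neg (kcg_47_fs.snd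 h1 h2))) (pr_cmul (enc_norm (kcg_3.enc h1.l h2)) (pr_norm (pr_addc (kcg_52_fs.snd h1 h2) (enc_rat _ 32647731 4000000))))) (pr_cmul (enc_norm (kcg_61.enc h1.l h2)) (pr_norm (pr_mul (pr_norm (kcg_9_fs.snd h1 h2)) (pr_norm (pr_csub (enc_neg (enc_rat _ 327 1000)) h1)))))) (pr_add (pr_add (pr_subr 9169823 40000000 (kcg_66_fs.snd h1 h2)) (pr_cmul (enc_norm (kcg_3.enc h1.l h2)) (pr_norm (pr_addc (kcg_70_fs.snd h1 h2) (enc_rat _ 1921503 4000000))))) (pr_cmul (enc_norm (kcg_81.enc h1.l h2)) (pr_norm (pr_mul (pr_norm (kcg_46_fs.snd h1 h2)) (pr_norm (pr_csub (enc_neg (enc_rat _ 271 1000)) h1)))))))) (pr_case (kcg_90_fs.snd h1 h2) (pr_case (kcg_93_fs.snd h1 h2) (pr_add (pr_subr 622483 40000000 (kcg_94_fs.snd h1 h2)) (pr_cmul (enc_norm (kcg_3.enc h1.l h2)) (pr_norm (pr_addc (kcg_98_fs.snd h1 h2) (enc_rat _ 9410317 4000000))))) (pr_add (pr_add (pr_subr 4973863 40000000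 (kcg_103_fs.snd h1 h2)) (pr_cmul (enc_norm (kcg_3.enc h1.l h2)) (pr_norm (pr_addc (kcg_107_fs.snd h1 h2) (enc_rat _ 3844867 4000000))))) (pr_cmul (enc_norm (kcg_115.enc h1.l h2)) (pr_norm (pr_mul (pr_norm (kcg_93_fs.snd h1 h2)) (pr_norm (pr_csub (enc_neg (enc_rat _ 57 500)) h1))))))) (pr_case (pr_addc h1 (enc_rat _ 1 16)) (pr_add (pr_add (pr_subr 22607 320000 (kcg_124_fs.snd h1 h2)) (pr_cmul (enc_norm (kcg_3.enc h1.l h2)) (pr_norm (pr_subr 1 32000 (pr_neg (kcg_128_fs.snd h1 h2)))))) (pr_cmul (enc_norm (kcg_141.enc h1.l h2)) (pr_norm (pr_mul (pr_norm (kcg_90_fs.snd h1 h2)) (pr_norm (pr_csub (enc_neg (enc_rat _ 1 16)) h1)))))) (pr_sub (kcg_146_fs.snd h1 h2) (kcg_150_fs.snd h1 h2))))) (pr_neg (pr_case (pr_csub (enc_rat _ 271 1000) h1) (pr_case (kcg_158_fs.snd h1 h2) (pr_case (kcg_159_fs.snd h1 h2) (pr_add (pr_subr 1159921 40000000 (pr_neg (kcg_13_fs.snd h1 h2)))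 (pr_cmul (enc_norm (kcg_3.enc h1.l h2)) (pr_norm (pr_subr 15226283 4000000 (pr_neg (kcg_17_fs.snd h1 h2)))))) (pr_add (pr_add (pr_subr 21843171 40000000 (kcg_23_fs.snd h1 h2)) (pr_cmul (enc_norm (kcg_3.enc h1.l h2)) (pr_norm (pr_csub (enc_rat _ 35129967 4000000) (kcg_28_fs.snd h1 h2))))) (pr_cmul (enc_norm (kcg_38.enc h1.l h2)) (pr_norm (pr_mul (pr_norm (kcg_159_fs.snd h1 h2)) (pr_norm (pr_subr 191 500 h1))))))) (pr_case (kcg_176_fs.snd h1 h2) (pr_add (pr_add (pr_subr 28901003 40000000 (kcg_47_fs.snd h1 h2)) (pr_cmul (enc_norm (kcg_3.enc h1.l h2)) (pr_norm (pr_csub (enc_rat _ 32647731 4000000) (kcg_52_fs.snd h1 h2))))) (pr_cmul (enc_norm (kcg_61.enc h1.l h2)) (pr_norm (pr_mul (pr_norm (kcg_158_fs.snd h1 h2)) (pr_norm (pr_subr 327 1000 h1)))))) (pr_add (pr_add (pr_subr 9169823 40000000 (pr_neg (kcg_66_fs.snd h1 h2))) (pr_cmul (enc_norm (kcg_3.enc h1.l h2))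 (pr_norm (pr_csub (enc_rat _ 1921503 4000000) (kcg_70_fs.snd h1 h2))))) (pr_cmul (enc_norm (kcg_81.enc h1.l h2)) (pr_norm (pr_mul (pr_norm (kcg_176_fs.snd h1 h2)) (pr_norm (pr_subr 271 1000 h1)))))))) (pr_case (kcg_198_fs.snd h1 h2) (pr_case (kcg_199_fs.snd h1 h2) (pr_add (pr_subr 622483 40000000 (pr_neg (kcg_94_fs.snd h1 h2))) (pr_cmul (enc_norm (kcg_3.enc h1.l h2)) (pr_norm (pr_csub (enc_rat _ 9410317 4000000) (kcg_98_fs.snd h1 h2))))) (pr_add (pr_add (pr_subr 4973863 40000000 (pr_neg (kcg_103_fs.snd h1 h2))) (pr_cmul (enc_norm (kcg_3.enc h1.l h2)) (pr_norm (pr_csub (enc_rat _ 3844867 4000000) (kcg_107_fs.snd h1 h2))))) (pr_cmul (enc_norm (kcg_115.enc h1.l h2)) (pr_norm (pr_mul (pr_norm (kcg_199_fs.snd h1 h2)) (pr_norm (pr_subr 57 500 h1))))))) (pr_case (pr_csub (enc_rat _ 1 16) h1) (pr_add (pr_add (pr_subr 22607 320000 (pr_neg (kcg_124_fs.snd h1 h2)))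 (pr_cmul (enc_norm (kcg_3.enc h1.l h2)) (pr_norm (pr_subr 1 32000 (kcg_128_fs.snd h1 h2))))) (pr_cmul (enc_norm (kcg_141.enc h1.l h2)) (pr_norm (pr_mul (pr_norm (kcg_198_fs.snd h1 h2)) (pr_norm (pr_subr 1 16 h1)))))) (pr_sub (kcg_150_fs.snd h1 h2) (kcg_146_fs.snd h1 h2))))))))⟩
noncomputable def kf0q0_9_fs : Sl2 kf0q0_9 := ⟨_, fun h1 h2 => (pr_scale 3 2 h1)⟩
noncomputable def kf0q0_12_fs : Sl2 kf0q0_12 := ⟨_, fun h1 h2 => (pr_cadd (enc_pnc _ 1) (c1g_fs.snd h1))⟩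
noncomputable def kf0q0_fs : Sl2 kf0q0 := ⟨_, fun h1 h2 => (pr_norm (pr_add (pr_mul (pr_norm (pr_mul (pr_norm (pr_sub (c1g_fs.snd h1) (kf0q0_9_fs.snd h1 h2))) (pr_norm (kf0q0_12_fs.snd h1 h2)))) (pr_nd (pr_inv (pr_sub (kf0q0_12_fs.snd h1 h2) (kf0q0_9_fs.snd h1 h2))))) (pr_mul h1 (kcg_fs.snd (pr_norm (pr_sub (pr_scale 3 4 h1) (pr_half (c1g_fs.snd h1)))) h2))))⟩
noncomputable def txg_6_fs : Sl3 txg_6 := ⟨_, fun h1 h2 h3 => (pr_add h1 (pr_half h2))⟩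
noncomputable def txg_26_fs : Sl3 txg_26 := ⟨_, fun h1 h2 h3 => (pr_addc h1 (enc_rat _ 1 4))⟩
noncomputable def txg_29_fs : Sl3 txg_29 := ⟨_, fun h1 h2 h3 => (pr_addc h1 (enc_rat _ 2 5))⟩
noncomputable def txg_32_fs : Sl3 txg_32 := ⟨_, fun h1 h2 h3 => (pr_addc h1 (enc_rat _ 9 20))⟩
noncomputable def txg_76_fs : Sl3 txg_76 := ⟨_, fun h1 h2 h3 => (pr_addc h1 (enc_rat _ 7 20))⟩
noncomputable def txg_96_fs : Sl3 txg_96 := ⟨_, fun h1 h2 h3 => (pr_addc h1 (enc_rat _ 3 10))⟩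
noncomputable def txg_138_fs : Sl3 txg_138 := ⟨_, fun h1 h2 h3 => (pr_addc h1 (enc_rat _ 3 20))⟩
noncomputable def txg_141_fs : Sl3 txg_141 := ⟨_, fun h1 h2 h3 => (pr_addc h1 (enc_rat _ 1 5))⟩
noncomputable def txg_180_fs : Sl3 txg_180 := ⟨_, fun h1 h2 h3 => (pr_addc h1 (enc_rat _ 1 10))⟩
noncomputable def txg_200_fs : Sl3 txg_200 := ⟨_, fun h1 h2 h3 => (pr_subr 1 10 h1)⟩
noncomputable def txg_253_fs : Sl3 txg_253 := ⟨_, fun h1 h2 h3 => (pr_subr 109 403 h1)⟩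
noncomputable def txg_254_fs : Sl3 txg_254 := ⟨_, fun h1 h2 h3 => (pr_subr 7 20 h1)⟩
noncomputable def txg_255_fs : Sl3 txg_255 := ⟨_, fun h1 h2 h3 => (pr_subr 3 10 h1)⟩
noncomputable def txg_306_fs : Sl3 txg_306 := ⟨_, fun h1 h2 h3 => (pr_subr 2 5 h1)⟩
noncomputable def txg_324_fs : Sl3 txg_324 := ⟨_, fun h1 h2 h3 => (pr_subr 9 20 h1)⟩
noncomputable def txg_fs : Sl3 txg := ⟨_, fun h1 h2 h3 => (pr_case (pr_subr 263 1586 h1) (pr_case (txg_26_fs.snd h1 h2 h3) (pr_case (txg_29_fs.snd h1 h2 h3) (pr_case (txg_32_fs.snd h1 h2 h3) (pr_add (pr_add (pr_addc (pr_scale 16871 62500 h1) (enc_rat _ 16871 125000)) (pr_cmul (enc_norm (txg_4.enc h1.l h2.l h3)) (pr_norm (pr_addc (pr_scale 9531 25000 h1) (enc_rat _ 9531 50000))))) (pr_cmul (enc_norm (enc_sub (enc_rat _ 2699 10000) (enc_scale 13167 1250 (txg_4.enc h1.l h2.l h3)))) (pr_norm (pr_mul (pr_norm (pr_addc h1 (enc_rat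 _ 1 2))) (pr_norm (pr_csub (enc_neg (enc_rat _ 9 20)) h1)))))) (pr_add (pr_add (pr_addc (pr_scale 143127 500000 h1) (enc_rat _ 1423111 10000000)) (pr_cmul (enc_norm (txg_4.enc h1.l h2.l h3)) (pr_norm (pr_addc (pr_scale 42891 25000 h1) (enc_rat _ 7911 10000))))) (pr_cmul (enc_norm (enc_subr 29811 50000 (enc_neg (enc_scale 80773 5000 (txg_4.enc h1.l h2.l h3))))) (pr_norm (pr_mul (pr_norm (txg_32_fs.snd h1 h2 h3)) (pr_norm (pr_csub (enc_neg (enc_rat _ 2 5)) h1))))))) (pr_case (txg_76_fs.snd h1 h2 h3) (pr_add (pr_add (pr_addc (pr_scale 16509 50000 h1) (enc_rat _ 319763 2000000)) (pr_cmul (enc_norm (txg_4.enc h1.l h2.l h3)) (pr_norm (pr_addc (pr_scale 65769 50000 h1) (enc_rat _ 157749 250000))))) (pr_cmul (enc_norm (enc_subr 2823 10000 (enc_scale 604 25 (txg_4.enc h1.l h2.l h3)))) (pr_norm (pr_mul (pr_norm (txg_29_fs.snd h1 h2 h3)) (pr_norm (pr_csub (enc_neg (enc_rat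 _ 7 20)) h1)))))) (pr_case (txg_96_fs.snd h1 h2 h3) (pr_add (pr_add (pr_addc (pr_scale 179053 500000 h1) (enc_rat _ 424139 2500000)) (pr_cmul (enc_norm (txg_4.enc h1.l h2.l h3)) (pr_norm (pr_csub (enc_rat _ 37003 500000) (pr_scale 13801 50000 h1))))) (pr_cmul (enc_norm (enc_subr 6907 25000 (enc_scale 19171 2500 (txg_4.enc h1.l h2.l h3)))) (pr_norm (pr_mul (pr_norm (txg_76_fs.snd h1 h2 h3)) (pr_norm (pr_csub (enc_neg (enc_rat _ 3 10)) h1)))))) (pr_add (pr_add (pr_addc (pr_scale 176041 500000 h1) (enc_rat _ 419621 2500000)) (pr_cmul (enc_norm (txg_4.enc h1.l h2.l h3)) (pr_norm (pr_addc (pr_scale 1551 50000 h1) (enc_rat _ 83059 500000))))) (pr_cmul (enc_norm (enc_sub (enc_rat _ 9921 25000) (enc_scale 8631 625 (txg_4.enc h1.l h2.l h3)))) (pr_norm (pr_mul (pr_norm (txg_96_fs.snd h1 h2 h3)) (pr_norm (pr_csub (enc_neg (enc_rat _ 1 4)) h1))))))))) (pr_case (txg_138_fs.snd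 h1 h2 h3) (pr_case (txg_141_fs.snd h1 h2 h3) (pr_add (pr_add (pr_addc (pr_scale 143363 500000 h1) (enc_rat _ 757547 5000000)) (pr_cmul (enc_norm (txg_4.enc h1.l h2.l h3)) (pr_norm (pr_addc (pr_scale 1299 50000 h1) (enc_rat _ 82429 500000))))) (pr_cmul (enc_norm (enc_add (enc_scale 1391 100 (txg_4.enc h1.l h2.l h3)) (enc_rat _ 45511 50000))) (pr_norm (pr_mul (pr_norm (txg_26_fs.snd h1 h2 h3)) (pr_norm (pr_csub (enc_neg (enc_rat _ 1 5)) h1)))))) (pr_add (pr_add (pr_addc (pr_scale 49463 250000 h1) (enc_rat _ 668673 5000000)) (pr_cmul (enc_norm (txg_4.enc h1.l h2.l h3)) (pr_norm (pr_csub (enc_rat _ 25117 500000) (pr_scale 27357 50000 h1))))) (pr_cmul (enc_norm (enc_sub (enc_rat _ 10841 12500) (enc_scale 6117 2500 (txg_4.enc h1.l h2.l h3)))) (pr_norm (pr_mul (pr_norm (txg_141_fs.snd h1 h2 h3)) (pr_norm (pr_csub (enc_neg (enc_rat _ 3 20)) h1))))))) (pr_case (txg_180_fs.snd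 h1 h2 h3) (pr_add (pr_add (pr_addc (pr_scale 8557 50000 h1) (enc_rat _ 648639 5000000)) (pr_cmul (enc_norm (txg_4.enc h1.l h2.l h3)) (pr_norm (pr_addc (pr_scale 10551 25000 h1) (enc_rat _ 195611 1000000))))) (pr_cmul (enc_norm (enc_subr 33303 100000 (enc_neg (enc_scale 169373 10000 (txg_4.enc h1.l h2.l h3))))) (pr_norm (pr_mul (pr_norm (txg_138_fs.snd h1 h2 h3)) (pr_norm (pr_csub (enc_neg (enc_rat _ 1 10)) h1)))))) (pr_case (txg_200_fs.snd h1 h2 h3) (pr_add (pr_add (pr_addc (pr_scale 39319 500000 h1) (enc_rat _ 150597 1250000)) (pr_cmul (enc_norm (txg_4.enc h1.l h2.l h3)) (pr_norm (pr_csub (enc_rat _ 130723 1000000) (pr_scale 5671 25000 h1))))) (pr_cmul (enc_norm (enc_add (enc_scale 18697 2500 (txg_4.enc h1.l h2.l h3)) (enc_rat _ 3411 6250))) (pr_norm (pr_mul (pr_norm (txg_180_fs.snd h1 h2 h3)) (pr_norm (pr_csub (enc_rat _ 1 10) h1)))))) (pr_add (pr_add (pr_add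 (pr_csub (enc_rat _ 544774132264571 4201717478400000) (pr_scale 137995717056131 10504293696000000 h1)) (pr_cmul (enc_norm (txg_4.enc h1.l h2.l h3)) (pr_norm (pr_csub (enc_rat _ 1777214530204483 10504293696000000) (pr_scale 642341143582339 1050429369600000 h1))))) (pr_cmul (txg_232.enc h1.l h2.l h3) (pr_norm (pr_csub (enc_rat _ 4864168397 27596400000) (pr_scale 4864168397 2759640000 h1))))) (pr_cmul (enc_norm (enc_subr 26399 100000 (enc_mul (enc_norm (enc_subr 168793 10000 (enc_scale 26777 1000 (txg_4.enc h1.l h2.l h3)))) (enc_norm (txg_4.enc h1.l h2.l h3))))) (pr_norm (pr_mul (pr_norm (txg_200_fs.snd h1 h2 h3)) (pr_norm (pr_csub (enc_rat _ 263 1586) h1)))))))))) (pr_case (txg_253_fs.snd h1 h2 h3) (pr_sub (pr_mul (pr_norm (pr_csub (enc_pnc _ 1) h2)) (pr_norm (pr_subn 1 (pr_nat 2 h2)))) (pr_mul (pr_norm (pr_nat 2 (pr_subc (pr_scale 4 3 (txg_6_fs.snd h1 h2 h3))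 h3))) (pr_norm (pr_mul (pr_norm (pr_subn 1 (pr_add (pr_scale 2 3 (txg_6_fs.snd h1 h2 h3)) h2))) (kcg_fs.snd h1 h3))))) (pr_case (txg_254_fs.snd h1 h2 h3) (pr_case (txg_255_fs.snd h1 h2 h3) (pr_add (pr_add (pr_add (pr_csub (enc_rat _ 491151742905249 2473813888000000) (pr_scale 379889978533047 1236906944000000 h1)) (pr_cmul (enc_norm (txg_4.enc h1.l h2.l h3)) (pr_norm (pr_addc (pr_scale 730467201183 17670099200000 h1) (enc_rat _ 13176813773667 176700992000000))))) (pr_cmul (txg_232.enc h1.l h2.l h3) (pr_norm (pr_csub (enc_rat _ 34926720723 19182800000) (pr_scale 11642240241 1918280000 h1))))) (pr_cmul (enc_norm (enc_add (enc_mul (enc_norm (enc_subr 18961 2500 (enc_neg (enc_scale 102767 500 (txg_4.enc h1.l h2.l h3))))) (enc_norm (txg_4.enc h1.l h2.l h3))) (enc_rat _ 254627 100000))) (pr_norm (pr_mul (pr_norm (txg_253_fs.snd h1 h2 h3)) (pr_norm (pr_csub (enc_rat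 _ 3 10) h1)))))) (pr_add (pr_add (pr_csub (enc_rat _ 3726 15625) (pr_scale 27513 62500 h1)) (pr_cmul (enc_norm (txg_4.enc h1.l h2.l h3)) (pr_norm (pr_subr 13221 1000000 (pr_scale 16699 50000 h1))))) (pr_cmul (enc_norm (enc_sub (enc_rat _ 57889 50000) (enc_scale 13737 10000 (txg_4.enc h1.l h2.l h3)))) (pr_norm (pr_mul (pr_norm (txg_255_fs.snd h1 h2 h3)) (pr_norm (pr_csub (enc_rat _ 7 20) h1))))))) (pr_case (txg_306_fs.snd h1 h2 h3) (pr_add (pr_add (pr_csub (enc_rat _ 2727773 10000000) (pr_scale 269123 500000 h1)) (pr_cmul (enc_norm (txg_4.enc h1.l h2.l h3)) (pr_norm (pr_addc (pr_scale 1651 50000 h1) (enc_rat _ 18423 200000))))) (pr_cmul (enc_norm (enc_add (enc_scale 18481 2500 (txg_4.enc h1.l h2.l h3)) (enc_rat _ 803 1000))) (pr_norm (pr_mul (pr_norm (txg_254_fs.snd h1 h2 h3)) (pr_norm (pr_csub (enc_rat _ 2 5) h1)))))) (pr_case (txg_324_fs.snd h1 h2 h3) (pr_add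 (pr_add (pr_csub (enc_rat _ 2867653 10000000) (pr_scale 17913 31250 h1)) (pr_cmul (enc_norm (txg_4.enc h1.l h2.l h3)) (pr_norm (pr_csub (enc_rat _ 351227 1000000) (pr_scale 15369 25000 h1))))) (pr_cmul (enc_norm (enc_subr 5179 50000 (enc_scale 13909 2500 (txg_4.enc h1.l h2.l h3)))) (pr_norm (pr_mul (pr_norm (txg_306_fs.snd h1 h2 h3)) (pr_norm (pr_csub (enc_rat _ 9 20) h1)))))) (pr_add (pr_add (pr_csub (enc_rat _ 288181 1000000) (pr_scale 288181 500000 h1)) (pr_cmul (enc_norm (txg_4.enc h1.l h2.l h3)) (pr_norm (pr_csub (enc_rat _ 14917 20000) (pr_scale 14917 10000 h1))))) (pr_cmul (enc_norm (enc_add (enc_scale 59877 5000 (txg_4.enc h1.l h2.l h3)) (enc_rat _ 8323 50000))) (pr_norm (pr_mul (pr_norm (txg_324_fs.snd h1 h2 h3)) (pr_norm (pr_csub (enc_rat _ 1 2) h1)))))))))))⟩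
noncomputable def l0q0_fs : Sl2 l0q0 := ⟨_, fun h1 h2 => (pr_norm (txg_fs.snd (pr_norm (pr_sub (pr_scale 3 4 h1) (pr_half (c1g_fs.snd h1)))) (pr_nd (c1g_fs.snd h1)) h2))⟩
noncomputable def swg_fs : Sl1 swg := ⟨_, fun h1 => (pr_sqrt (pr_csub (enc_pnc _ 1) (pr_scale 3 4 (pr_sq (pr_norm (pr_subn 1 h1))))))⟩
noncomputable def cv1m_fs : Sl1 cv1m := ⟨_, fun h1 => (pr_norm (pr_add (pr_scale 3 5 (c1g_fs.snd h1)) (pr_scale 2 5 (pr_addc (swg_fs.snd h1) (enc_rat _ 1 2)))))⟩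
noncomputable def bf1q0_fs : Sl2 bf1q0 := ⟨_, fun h1 h2 => (pr_norm (pr_case (pr_subr 33 250 h1) (pr_sub (pr_csub (enc_pnc _ 1) (pr_scale 2041 1320 h1)) (pr_cmul (enc_norm (bf1q0_3.enc h1.l h2)) (pr_nd (pr_scale 80 33 h1)))) (pr_case (pr_subr 263 1000 h1) (pr_add (pr_csub (enc_rat _ 266553 262000) (pr_scale 1099 655 h1)) (pr_cmul (enc_norm (bf1q0_3.enc h1.l h2)) (pr_norm (pr_subr 8342 16375 (pr_scale 188 131 h1))))) (pr_add (pr_csub (enc_rat _ 3114307 2370000) (pr_scale 665 237 h1)) (pr_cmul (enc_norm (bf1q0_3.enc h1.l h2)) (pr_norm (pr_subr 145163 237000 (pr_scale 433 237 h1))))))))⟩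
noncomputable def kf1q0_fs : Sl2 kf1q0 := ⟨_, fun h1 h2 => (pr_norm (pr_mul (cv1m_fs.snd h1) (bf1q0_fs.snd h1 h2)))⟩
noncomputable def bx1q0_fs : Sl2 bx1q0 := ⟨_, fun h1 h2 => (pr_norm (pr_case (pr_subr 7 40 h1) (pr_case (pr_subr 33 250 h1) (pr_scale 119 330 h1) (pr_add (pr_addc (pr_scale 21 86 h1) (enc_rat _ 413 26875)) (pr_cmul (enc_norm (bx1q0_3.enc h1.l h2)) (pr_norm (pr_subr 33 10750 (pr_scale 1 43 h1)))))) (pr_case (pr_subr 263 1000 h1) (pr_add (pr_addc (pr_scale 7 110 h1) (enc_rat _ 2583 55000)) (pr_cmul (enc_norm (bx1q0_3.enc h1.l h2)) (pr_norm (pr_subr 8203 22000 (pr_scale 47 22 h1))))) (pr_add (pr_addc (pr_scale 481 2370 h1) (enc_rat _ 12233 1185000)) (pr_cmul (enc_norm (bx1q0_3.enc h1.l h2)) (pr_norm (pr_addc (pr_scale 1 237 h1) (enc_rat _ 4453 23700))))))))⟩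
noncomputable def l1q0_fs : Sl2 l1q0 := ⟨_, fun h1 h2 => (pr_norm (pr_mul (cv1m_fs.snd h1) (bx1q0_fs.snd h1 h2)))⟩
noncomputable def kf0q1_10_fs : Sl2 kf0q1_10 := ⟨_, fun h1 h2 => (pr_scale 3 2 h1)⟩
noncomputable def kf0q1_fs : Sl2 kf0q1 := ⟨_, fun h1 h2 => (pr_norm (pr_add (pr_mul (pr_norm (pr_mul (pr_norm (pr_cadd (enc_pnc _ 1) (pr_nat 2 (c1g_fs.snd h1)))) (pr_norm (pr_sub (kf0q1_10_fs.snd h1 h2) (c1g_fs.snd h1))))) (pr_nd (pr_inv (pr_nat 2 (pr_sub (pr_cadd (enc_pnc _ 1) (kf0q1_10_fs.snd h1 h2)) (c1g_fs.snd h1)))))) (pr_mul (pr_norm (pr_subn 1 h1)) (kcg_fs.snd (pr_norm (pr_sub (pr_scale 3 4 h1) (pr_half (c1g_fs.snd h1)))) h2))))⟩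
noncomputable def l0q1_fs : Sl2 l0q1 := ⟨_, fun h1 h2 => (pr_norm (txg_fs.snd (pr_norm (pr_sub (pr_scale 3 4 h1) (pr_half (c1g_fs.snd h1)))) (pr_nd (c1g_fs.snd h1)) h2))⟩
noncomputable def cv1p_fs : Sl1 cv1p := ⟨_, fun h1 => (pr_norm (pr_add (pr_scale 3 5 (c1g_fs.snd h1)) (pr_scale 2 5 (pr_subr 1 2 (swg_fs.snd h1)))))⟩
noncomputable def bf1q2_fs : Sl2 bf1q2 := ⟨_, fun h1 h2 => (pr_norm (pr_case (pr_subr 577 500 h1) (pr_case (pr_subr 17 16 h1) (pr_add (pr_csub (enc_rat _ 1573 625) (pr_scale 948 625 h1)) (pr_cmul (enc_norm (bf1q2_3.enc h1.l h2)) (pr_norm (pr_csub (enc_rat _ 48 5) (pr_scale 48 5 h1))))) (pr_add (pr_csub (enc_rat _ 19987 4800) (pr_scale 23003 7500 h1)) (pr_cmul (enc_norm (bf1q2_3.enc h1.l h2)) (pr_norm (pr_subr 4114897 244000 (pr_scale 233441 15250 h1)))))) (pr_case (pr_subr 231 200 h1) (pr_add (pr_csub (enc_rat _ 34379 10000) (pr_scale 24379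 10000 h1)) (pr_cmul (enc_norm (bf1q2_3.enc h1.l h2)) (pr_norm (pr_subr 5199 1000 (pr_scale 5199 1000 h1))))) (pr_add (pr_csub (enc_rat _ 1581357 460000) (pr_scale 1682051 690000 h1)) (pr_cmul (enc_norm (bf1q2_3.enc h1.l h2)) (pr_norm (pr_subr 239231 46000 (pr_scale 358831 69000 h1))))))))⟩
noncomputable def kf1q2_fs : Sl2 kf1q2 := ⟨_, fun h1 h2 => (pr_norm (pr_mul (cv1p_fs.snd h1) (bf1q2_fs.snd h1 h2)))⟩
noncomputable def bx1q2_fs : Sl2 bx1q2 := ⟨_, fun h1 h2 => (pr_norm (pr_case (pr_subr 577 500 h1) (pr_case (pr_subr 17 16 h1) (pr_add (pr_csub (enc_rat _ 386 625) (pr_scale 386 625 h1)) (pr_cmul (enc_norm (bx1q2_3.enc h1.l h2)) (pr_norm (pr_csub (enc_rat _ 108 25) (pr_scale 108 25 h1))))) (pr_case (pr_subr 277 250 h1) (pr_add (pr_csub (enc_rat _ 1182499 910000) (pr_scale 573 455 h1)) (pr_cmul (enc_norm (bx1q2_3.enc h1.l h2)) (pr_norm (pr_subr 78957 9100 (pr_scale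 720 91 h1))))) (pr_add (pr_csub (enc_rat _ 7949151 5750000) (pr_scale 3836 2875 h1)) (pr_cmul (enc_norm (bx1q2_3.enc h1.l h2)) (pr_norm (pr_subr 2492609 287500 (pr_scale 4546 575 h1))))))) (pr_casec1 (pr_subr 231 200 h1) (enc_subr 39319 250000 (enc_scale 5671 12500 (bx1q2_3.enc h1.l h2))) (pr_case (pr_subr 166 125 h1) (pr_add (pr_subr 9789829 5406250 (pr_scale 61919 43250 h1)) (pr_cmul (enc_norm (bx1q2_3.enc h1.l h2)) (pr_norm (pr_csub (enc_rat _ 6162169 1081250) (pr_scale 19642 4325 h1))))) (pr_add (pr_subr 48657 26875 (pr_scale 1231 860 h1)) (pr_cmul (enc_norm (bx1q2_3.enc h1.l h2)) (pr_norm (pr_subr 10956 5375 (pr_scale 221 172 h1)))))))))⟩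
noncomputable def l1q2_fs : Sl2 l1q2 := ⟨_, fun h1 h2 => (pr_norm (pr_mul (cv1p_fs.snd h1) (bx1q2_fs.snd h1 h2)))⟩
noncomputable def dlg : Fn2 := ⟨_, _, fun h1 h2 => (kcg.enc (enc_norm (enc_sub (enc_scale 3 4 h1) (enc_half (c1g.enc h1)))) h2)⟩
noncomputable def kq02_6 : Fn2 := ⟨_, _, fun h1 h2 => (enc_scale 5199 1000 h2)⟩
noncomputable def kq02 : Fn2 := ⟨_, _, fun h1 h2 => (enc_norm (enc_add (enc_sub (enc_rat _ 1199939 160000) (kq02_6.enc h1 h2)) (enc_mul (enc_norm (enc_subr 1039939 160000 (kq02_6.enc h1 h2))) (yag.enc h1))))⟩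
noncomputable def lq02 : Fn2 := ⟨_, _, fun h1 h2 => (enc_norm (enc_subr 1023427 2000000 (enc_scale 5671 12500 h2)))⟩
noncomputable def cq02 : Fn2 := ⟨_, _, fun h1 h2 => (enc_norm (enc_subr 499 128 (enc_scale 499 100 h2)))⟩
noncomputable def pcE0 : Piece := ⟨Fn3.sc eng rsbq0, rlq0⟩
noncomputable def pcE1 : Piece := ⟨Fn3.sc eng rsbq1, rlq1⟩
noncomputable def pcE2 : Piece := ⟨Fn3.sc eng rsbq2, rlq2⟩
noncomputable def pcE3 : Piece := ⟨Fn3.sc eng rsbq3, rlq3⟩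

end Pool.Agent.Strip051.G.I7625_8000.Tab
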