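import Pool.Agent.Strip051.G.I7625_8000.Tab
import Pool.Agent.Strip051.PB.C12G
import Pool.Agent.Strip051.PB.PairB

/-! # Slopes of the tables near the lattice heights (generated) -/

set_option linter.all false

namespace Pool.Agent.Strip051.G.I7625_8000.Tab

open Pool.Agent.Strip051.PB

attribute [local irreducible] padd psub pneg pmul psq pinv psqrt psqrtg pabs pps pmax pmin pphi plam
  pcase phf pnat prat pscale pnorm pdc pnc pone ppos pnn Enc pbad pzero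

noncomputable def idf_s : Sl1 idf := ⟨fun _ _ D => D, fun h => h⟩

theorem cv1r_two {b : ℝ} (h : b = 2) : cv1r.v b = 0 := by
  have e : swg.v = swn := by funext y; simp [swg, swn]
  subst h
  simp only [cv1r, e, swn_two]
  push_cast
  ring
noncomputable def c1g_s : Sl1 c1g := ⟨_, fun h1 => (pr_sqrtgz (pr_csub (enc_pnc _ 1) (pr_scale 3 4 (pr_sq h1))))⟩
noncomputable def kcg_9_s : Sl2 kcg_9 := ⟨_, fun h1 h2 => (pr_addc h1 (enc_rat _ 191 500))⟩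
noncomputable def kcg_12_s : Sl2 kcg_12 := ⟨_, fun h1 h2 => (pr_addc h1 (enc_rat _ 7 16))⟩
noncomputable def kcg_13_s : Sl2 kcg_13 := ⟨_, fun h1 h2 => (pr_scale 4213 5000 h1)⟩
noncomputable def kcg_17_s : Sl2 kcg_17 := ⟨_, fun h1 h2 => (pr_scale 1097 1000 h1)⟩
noncomputable def kcg_23_s : Sl2 kcg_23 := ⟨_, fun h1 h2 => (pr_scale 3393 10000 h1)⟩
noncomputable def kcg_28_s : Sl2 kcg_28 := ⟨_, fun h1 h2 => (pr_scale 3734 125 h1)⟩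
noncomputable def kcg_46_s : Sl2 kcg_46 := ⟨_, fun h1 h2 => (pr_addc h1 (enc_rat _ 327 1000))⟩
noncomputable def kcg_47_s : Sl2 kcg_47 := ⟨_, fun h1 h2 => (pr_scale 2003 2500 h1)⟩
noncomputable def kcg_52_s : Sl2 kcg_52 := ⟨_, fun h1 h2 => (pr_scale 11299 400 h1)⟩
noncomputable def kcg_66_s : Sl2 kcg_66 := ⟨_, fun h1 h2 => (pr_scale 7073 10000 h1)⟩
noncomputable def kcg_70_s : Sl2 kcg_70 := ⟨_, fun h1 h2 => (pr_scale 9513 2000 h1)⟩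
noncomputable def kcg_90_s : Sl2 kcg_90 := ⟨_, fun h1 h2 => (pr_addc h1 (enc_rat _ 57 500))⟩
noncomputable def kcg_93_s : Sl2 kcg_93 := ⟨_, fun h1 h2 => (pr_addc h1 (enc_rat _ 33 200))⟩
noncomputable def kcg_94_s : Sl2 kcg_94 := ⟨_, fun h1 h2 => (pr_scale 7479 5000 h1)⟩
noncomputable def kcg_98_s : Sl2 kcg_98 := ⟨_, fun h1 h2 => (pr_scale 2333 200 h1)⟩
noncomputable def kcg_103_s : Sl2 kcg_103 := ⟨_, fun h1 h2 => (pr_scale 1673 2000 h1)⟩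
noncomputable def kcg_107_s : Sl2 kcg_107 := ⟨_, fun h1 h2 => (pr_scale 1293 400 h1)⟩
noncomputable def kcg_124_s : Sl2 kcg_124 := ⟨_, fun h1 h2 => (pr_scale 26151 20000 h1)⟩
noncomputable def kcg_128_s : Sl2 kcg_128 := ⟨_, fun h1 h2 => (pr_scale 10399 2000 h1)⟩
noncomputable def kcg_146_s : Sl2 kcg_146 := ⟨_, fun h1 h2 => (pr_scale 24379 10000 h1)⟩
noncomputable def kcg_150_s : Sl2 kcg_150 := ⟨_, fun h1 h2 => (pr_cmul (enc_norm (kcg_3.enc h1.l h2)) (pr_nd (pr_scale 5199 1000 h1)))⟩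
noncomputable def kcg_158_s : Sl2 kcg_158 := ⟨_, fun h1 h2 => (pr_csub (enc_rat _ 191 500) h1)⟩
noncomputable def kcg_159_s : Sl2 kcg_159 := ⟨_, fun h1 h2 => (pr_csub (enc_rat _ 7 16) h1)⟩
noncomputable def kcg_176_s : Sl2 kcg_176 := ⟨_, fun h1 h2 => (pr_csub (enc_rat _ 327 1000) h1)⟩
noncomputable def kcg_198_s : Sl2 kcg_198 := ⟨_, fun h1 h2 => (pr_csub (enc_rat _ 57 500) h1)⟩
noncomputable def kcg_199_s : Sl2 kcg_199 := ⟨_, fun h1 h2 => (pr_csub (enc_rat _ 33 200) h1)⟩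
noncomputable def kcg_s : Sl2 kcg := ⟨_, fun h1 h2 => (pr_norm (pr_case h1 (pr_case (pr_addc h1 (enc_rat _ 271 1000)) (pr_case (kcg_9_s.snd h1 h2) (pr_case (kcg_12_s.snd h1 h2) (pr_add (pr_subr 1159921 40000000 (kcg_13_s.snd h1 h2)) (pr_cmul (enc_norm (kcg_3.enc h1.l h2)) (pr_norm (pr_subr 15226283 4000000 (kcg_17_s.snd h1 h2))))) (pr_add (pr_add (pr_subr 21843171 40000000 (pr_neg (kcg_23_s.snd h1 h2))) (pr_cmul (enc_norm (kcg_3.enc h1.l h2)) (pr_norm (pr_addc (kcg_28_s.snd h1 h2) (enc_rat _ 35129967 4000000))))) (pr_cmul (enc_norm (kcg_38.enc h1.l h2)) (pr_norm (pr_mul (pr_norm (kcg_12_s.snd h1 h2)) (pr_norm (pr_csub (enc_neg (enc_rat _ 191 500)) h1))))))) (pr_case (kcg_46_s.snd h1 h2) (pr_add (pr_add (pr_subr 28901003 40000000 (pr_neg (kcg_47_s.snd h1 h2))) (pr_cmul (enc_norm (kcg_3.enc h1.l h2)) (pr_norm (pr_addc (kcg_52_s.snd h1 h2) (enc_rat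 _ 32647731 4000000))))) (pr_cmul (enc_norm (kcg_61.enc h1.l h2)) (pr_norm (pr_mul (pr_norm (kcg_9_s.snd h1 h2)) (pr_norm (pr_csub (enc_neg (enc_rat _ 327 1000)) h1)))))) (pr_add (pr_add (pr_subr 9169823 40000000 (kcg_66_s.snd h1 h2)) (pr_cmul (enc_norm (kcg_3.enc h1.l h2)) (pr_norm (pr_addc (kcg_70_s.snd h1 h2) (enc_rat _ 1921503 4000000))))) (pr_cmul (enc_norm (kcg_81.enc h1.l h2)) (pr_norm (pr_mul (pr_norm (kcg_46_s.snd h1 h2)) (pr_norm (pr_csub (enc_neg (enc_rat _ 271 1000)) h1)))))))) (pr_case (kcg_90_s.snd h1 h2) (pr_case (kcg_93_s.snd h1 h2) (pr_add (pr_subr 622483 40000000 (kcg_94_s.snd h1 h2)) (pr_cmul (enc_norm (kcg_3.enc h1.l h2)) (pr_norm (pr_addc (kcg_98_s.snd h1 h2) (enc_rat _ 9410317 4000000))))) (pr_add (pr_add (pr_subr 4973863 40000000 (kcg_103_s.snd h1 h2)) (pr_cmul (enc_norm (kcg_3.enc h1.l h2)) (pr_norm (pr_addc (kcg_107_s.snd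 h1 h2) (enc_rat _ 3844867 4000000))))) (pr_cmul (enc_norm (kcg_115.enc h1.l h2)) (pr_norm (pr_mul (pr_norm (kcg_93_s.snd h1 h2)) (pr_norm (pr_csub (enc_neg (enc_rat _ 57 500)) h1))))))) (pr_case (pr_addc h1 (enc_rat _ 1 16)) (pr_add (pr_add (pr_subr 22607 320000 (kcg_124_s.snd h1 h2)) (pr_cmul (enc_norm (kcg_3.enc h1.l h2)) (pr_norm (pr_subr 1 32000 (pr_neg (kcg_128_s.snd h1 h2)))))) (pr_cmul (enc_norm (kcg_141.enc h1.l h2)) (pr_norm (pr_mul (pr_norm (kcg_90_s.snd h1 h2)) (pr_norm (pr_csub (enc_neg (enc_rat _ 1 16)) h1)))))) (pr_sub (kcg_146_s.snd h1 h2) (kcg_150_s.snd h1 h2))))) (pr_neg (pr_case (pr_csub (enc_rat _ 271 1000) h1) (pr_case (kcg_158_s.snd h1 h2) (pr_case (kcg_159_s.snd h1 h2) (pr_add (pr_subr 1159921 40000000 (pr_neg (kcg_13_s.snd h1 h2))) (pr_cmul (enc_norm (kcg_3.enc h1.l h2)) (pr_norm (pr_subr 15226283 4000000 (pr_neg (kcg_17_s.snd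 h1 h2)))))) (pr_add (pr_add (pr_subr 21843171 40000000 (kcg_23_s.snd h1 h2)) (pr_cmul (enc_norm (kcg_3.enc h1.l h2)) (pr_norm (pr_csub (enc_rat _ 35129967 4000000) (kcg_28_s.snd h1 h2))))) (pr_cmul (enc_norm (kcg_38.enc h1.l h2)) (pr_norm (pr_mul (pr_norm (kcg_159_s.snd h1 h2)) (pr_norm (pr_subr 191 500 h1))))))) (pr_case (kcg_176_s.snd h1 h2) (pr_add (pr_add (pr_subr 28901003 40000000 (kcg_47_s.snd h1 h2)) (pr_cmul (enc_norm (kcg_3.enc h1.l h2)) (pr_norm (pr_csub (enc_rat _ 32647731 4000000) (kcg_52_s.snd h1 h2))))) (pr_cmul (enc_norm (kcg_61.enc h1.l h2)) (pr_norm (pr_mul (pr_norm (kcg_158_s.snd h1 h2)) (pr_norm (pr_subr 327 1000 h1)))))) (pr_add (pr_add (pr_subr 9169823 40000000 (pr_neg (kcg_66_s.snd h1 h2))) (pr_cmul (enc_norm (kcg_3.enc h1.l h2)) (pr_norm (pr_csub (enc_rat _ 1921503 4000000) (kcg_70_s.snd h1 h2))))) (pr_cmul (enc_norm (kcg_81.enc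 h1.l h2)) (pr_norm (pr_mul (pr_norm (kcg_176_s.snd h1 h2)) (pr_norm (pr_subr 271 1000 h1)))))))) (pr_case (kcg_198_s.snd h1 h2) (pr_case (kcg_199_s.snd h1 h2) (pr_add (pr_subr 622483 40000000 (pr_neg (kcg_94_s.snd h1 h2))) (pr_cmul (enc_norm (kcg_3.enc h1.l h2)) (pr_norm (pr_csub (enc_rat _ 9410317 4000000) (kcg_98_s.snd h1 h2))))) (pr_add (pr_add (pr_subr 4973863 40000000 (pr_neg (kcg_103_s.snd h1 h2))) (pr_cmul (enc_norm (kcg_3.enc h1.l h2)) (pr_norm (pr_csub (enc_rat _ 3844867 4000000) (kcg_107_s.snd h1 h2))))) (pr_cmul (enc_norm (kcg_115.enc h1.l h2)) (pr_norm (pr_mul (pr_norm (kcg_199_s.snd h1 h2)) (pr_norm (pr_subr 57 500 h1))))))) (pr_case (pr_csub (enc_rat _ 1 16) h1) (pr_add (pr_add (pr_subr 22607 320000 (pr_neg (kcg_124_s.snd h1 h2))) (pr_cmul (enc_norm (kcg_3.enc h1.l h2)) (pr_norm (pr_subr 1 32000 (kcg_128_s.snd h1 h2))))) (pr_cmul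 (enc_norm (kcg_141.enc h1.l h2)) (pr_norm (pr_mul (pr_norm (kcg_198_s.snd h1 h2)) (pr_norm (pr_subr 1 16 h1)))))) (pr_sub (kcg_150_s.snd h1 h2) (kcg_146_s.snd h1 h2))))))))⟩
noncomputable def kf0q0_9_s : Sl2 kf0q0_9 := ⟨_, fun h1 h2 => (pr_scale 3 2 h1)⟩
noncomputable def kf0q0_12_s : Sl2 kf0q0_12 := ⟨_, fun h1 h2 => (pr_cadd (enc_pnc _ 1) (c1g_s.snd h1))⟩
noncomputable def kf0q0_s : Sl2 kf0q0 := ⟨_, fun h1 h2 => (pr_norm (pr_add (pr_mul (pr_norm (pr_mul (pr_norm (pr_sub (c1g_s.snd h1) (kf0q0_9_s.snd h1 h2))) (pr_norm (kf0q0_12_s.snd h1 h2)))) (pr_nd (pr_inv (pr_sub (kf0q0_12_s.snd h1 h2) (kf0q0_9_s.snd h1 h2))))) (pr_mul h1 (kcg_s.snd (pr_norm (pr_sub (pr_scale 3 4 h1) (pr_half (c1g_s.snd h1)))) h2))))⟩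
noncomputable def txg_6_s : Sl3 txg_6 := ⟨_, fun h1 h2 h3 => (pr_add h1 (pr_half h2))⟩
noncomputable def txg_26_s : Sl3 txg_26 := ⟨_, fun h1 h2 h3 => (pr_addc h1 (enc_rat _ 1 4))⟩
noncomputable def txg_29_s : Sl3 txg_29 := ⟨_, fun h1 h2 h3 => (pr_addc h1 (enc_rat _ 2 5))⟩
noncomputable def txg_32_s : Sl3 txg_32 := ⟨_, fun h1 h2 h3 => (pr_addc h1 (enc_rat _ 9 20))⟩
noncomputable def txg_76_s : Sl3 txg_76 := ⟨_, fun h1 h2 h3 => (pr_addc h1 (enc_rat _ 7 20))⟩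
noncomputable def txg_96_s : Sl3 txg_96 := ⟨_, fun h1 h2 h3 => (pr_addc h1 (enc_rat _ 3 10))⟩
noncomputable def txg_138_s : Sl3 txg_138 := ⟨_, fun h1 h2 h3 => (pr_addc h1 (enc_rat _ 3 20))⟩
noncomputable def txg_141_s : Sl3 txg_141 := ⟨_, fun h1 h2 h3 => (pr_addc h1 (enc_rat _ 1 5))⟩
noncomputable def txg_180_s : Sl3 txg_180 := ⟨_, fun h1 h2 h3 => (pr_addc h1 (enc_rat _ 1 10))⟩
noncomputable def txg_200_s : Sl3 txg_200 := ⟨_, fun h1 h2 h3 => (pr_subr 1 10 h1)⟩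
noncomputable def txg_253_s : Sl3 txg_253 := ⟨_, fun h1 h2 h3 => (pr_subr 109 403 h1)⟩
noncomputable def txg_254_s : Sl3 txg_254 := ⟨_, fun h1 h2 h3 => (pr_subr 7 20 h1)⟩
noncomputable def txg_255_s : Sl3 txg_255 := ⟨_, fun h1 h2 h3 => (pr_subr 3 10 h1)⟩
noncomputable def txg_306_s : Sl3 txg_306 := ⟨_, fun h1 h2 h3 => (pr_subr 2 5 h1)⟩
noncomputable def txg_324_s : Sl3 txg_324 := ⟨_, fun h1 h2 h3 => (pr_subr 9 20 h1)⟩
noncomputable def txg_s : Sl3 txg := ⟨_, fun h1 h2 h3 => (pr_case (pr_subr 263 1586 h1) (pr_case (txg_26_s.snd h1 h2 h3) (pr_case (txg_29_s.snd h1 h2 h3) (pr_case (txg_32_s.snd h1 h2 h3) (pr_add (pr_add (pr_addc (pr_scale 16871 62500 h1) (enc_rat _ 16871 125000)) (pr_cmul (enc_norm (txg_4.enc h1.l h2.l h3)) (pr_norm (pr_addc (pr_scale 9531 25000 h1) (enc_rat _ 9531 50000))))) (pr_cmul (enc_norm (enc_sub (enc_rat _ 2699 10000) (enc_scale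 13167 1250 (txg_4.enc h1.l h2.l h3)))) (pr_norm (pr_mul (pr_norm (pr_addc h1 (enc_rat _ 1 2))) (pr_norm (pr_csub (enc_neg (enc_rat _ 9 20)) h1)))))) (pr_add (pr_add (pr_addc (pr_scale 143127 500000 h1) (enc_rat _ 1423111 10000000)) (pr_cmul (enc_norm (txg_4.enc h1.l h2.l h3)) (pr_norm (pr_addc (pr_scale 42891 25000 h1) (enc_rat _ 7911 10000))))) (pr_cmul (enc_norm (enc_subr 29811 50000 (enc_neg (enc_scale 80773 5000 (txg_4.enc h1.l h2.l h3))))) (pr_norm (pr_mul (pr_norm (txg_32_s.snd h1 h2 h3)) (pr_norm (pr_csub (enc_neg (enc_rat _ 2 5)) h1))))))) (pr_case (txg_76_s.snd h1 h2 h3) (pr_add (pr_add (pr_addc (pr_scale 16509 50000 h1) (enc_rat _ 319763 2000000)) (pr_cmul (enc_norm (txg_4.enc h1.l h2.l h3)) (pr_norm (pr_addc (pr_scale 65769 50000 h1) (enc_rat _ 157749 250000))))) (pr_cmul (enc_norm (enc_subr 2823 10000 (enc_scale 604 25 (txg_4.enc h1.l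 h2.l h3)))) (pr_norm (pr_mul (pr_norm (txg_29_s.snd h1 h2 h3)) (pr_norm (pr_csub (enc_neg (enc_rat _ 7 20)) h1)))))) (pr_case (txg_96_s.snd h1 h2 h3) (pr_add (pr_add (pr_addc (pr_scale 179053 500000 h1) (enc_rat _ 424139 2500000)) (pr_cmul (enc_norm (txg_4.enc h1.l h2.l h3)) (pr_norm (pr_csub (enc_rat _ 37003 500000) (pr_scale 13801 50000 h1))))) (pr_cmul (enc_norm (enc_subr 6907 25000 (enc_scale 19171 2500 (txg_4.enc h1.l h2.l h3)))) (pr_norm (pr_mul (pr_norm (txg_76_s.snd h1 h2 h3)) (pr_norm (pr_csub (enc_neg (enc_rat _ 3 10)) h1)))))) (pr_add (pr_add (pr_addc (pr_scale 176041 500000 h1) (enc_rat _ 419621 2500000)) (pr_cmul (enc_norm (txg_4.enc h1.l h2.l h3)) (pr_norm (pr_addc (pr_scale 1551 50000 h1) (enc_rat _ 83059 500000))))) (pr_cmul (enc_norm (enc_sub (enc_rat _ 9921 25000) (enc_scale 8631 625 (txg_4.enc h1.l h2.l h3)))) (pr_norm (pr_mul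 (pr_norm (txg_96_s.snd h1 h2 h3)) (pr_norm (pr_csub (enc_neg (enc_rat _ 1 4)) h1))))))))) (pr_case (txg_138_s.snd h1 h2 h3) (pr_case (txg_141_s.snd h1 h2 h3) (pr_add (pr_add (pr_addc (pr_scale 143363 500000 h1) (enc_rat _ 757547 5000000)) (pr_cmul (enc_norm (txg_4.enc h1.l h2.l h3)) (pr_norm (pr_addc (pr_scale 1299 50000 h1) (enc_rat _ 82429 500000))))) (pr_cmul (enc_norm (enc_add (enc_scale 1391 100 (txg_4.enc h1.l h2.l h3)) (enc_rat _ 45511 50000))) (pr_norm (pr_mul (pr_norm (txg_26_s.snd h1 h2 h3)) (pr_norm (pr_csub (enc_neg (enc_rat _ 1 5)) h1)))))) (pr_add (pr_add (pr_addc (pr_scale 49463 250000 h1) (enc_rat _ 668673 5000000)) (pr_cmul (enc_norm (txg_4.enc h1.l h2.l h3)) (pr_norm (pr_csub (enc_rat _ 25117 500000) (pr_scale 27357 50000 h1))))) (pr_cmul (enc_norm (enc_sub (enc_rat _ 10841 12500) (enc_scale 6117 2500 (txg_4.enc h1.l h2.l h3))))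 (pr_norm (pr_mul (pr_norm (txg_141_s.snd h1 h2 h3)) (pr_norm (pr_csub (enc_neg (enc_rat _ 3 20)) h1))))))) (pr_case (txg_180_s.snd h1 h2 h3) (pr_add (pr_add (pr_addc (pr_scale 8557 50000 h1) (enc_rat _ 648639 5000000)) (pr_cmul (enc_norm (txg_4.enc h1.l h2.l h3)) (pr_norm (pr_addc (pr_scale 10551 25000 h1) (enc_rat _ 195611 1000000))))) (pr_cmul (enc_norm (enc_subr 33303 100000 (enc_neg (enc_scale 169373 10000 (txg_4.enc h1.l h2.l h3))))) (pr_norm (pr_mul (pr_norm (txg_138_s.snd h1 h2 h3)) (pr_norm (pr_csub (enc_neg (enc_rat _ 1 10)) h1)))))) (pr_case (txg_200_s.snd h1 h2 h3) (pr_add (pr_add (pr_addc (pr_scale 39319 500000 h1) (enc_rat _ 150597 1250000)) (pr_cmul (enc_norm (txg_4.enc h1.l h2.l h3)) (pr_norm (pr_csub (enc_rat _ 130723 1000000) (pr_scale 5671 25000 h1))))) (pr_cmul (enc_norm (enc_add (enc_scale 18697 2500 (txg_4.enc h1.l h2.l h3))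 (enc_rat _ 3411 6250))) (pr_norm (pr_mul (pr_norm (txg_180_s.snd h1 h2 h3)) (pr_norm (pr_csub (enc_rat _ 1 10) h1)))))) (pr_add (pr_add (pr_add (pr_csub (enc_rat _ 544774132264571 4201717478400000) (pr_scale 137995717056131 10504293696000000 h1)) (pr_cmul (enc_norm (txg_4.enc h1.l h2.l h3)) (pr_norm (pr_csub (enc_rat _ 1777214530204483 10504293696000000) (pr_scale 642341143582339 1050429369600000 h1))))) (pr_cmul (txg_232.enc h1.l h2.l h3) (pr_norm (pr_csub (enc_rat _ 4864168397 27596400000) (pr_scale 4864168397 2759640000 h1))))) (pr_cmul (enc_norm (enc_subr 26399 100000 (enc_mul (enc_norm (enc_subr 168793 10000 (enc_scale 26777 1000 (txg_4.enc h1.l h2.l h3)))) (enc_norm (txg_4.enc h1.l h2.l h3))))) (pr_norm (pr_mul (pr_norm (txg_200_s.snd h1 h2 h3)) (pr_norm (pr_csub (enc_rat _ 263 1586) h1)))))))))) (pr_case (txg_253_s.snd h1 h2 h3) (pr_sub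 (pr_mul (pr_norm (pr_csub (enc_pnc _ 1) h2)) (pr_norm (pr_subn 1 (pr_nat 2 h2)))) (pr_mul (pr_norm (pr_nat 2 (pr_subc (pr_scale 4 3 (txg_6_s.snd h1 h2 h3)) h3))) (pr_norm (pr_mul (pr_norm (pr_subn 1 (pr_add (pr_scale 2 3 (txg_6_s.snd h1 h2 h3)) h2))) (kcg_s.snd h1 h3))))) (pr_case (txg_254_s.snd h1 h2 h3) (pr_case (txg_255_s.snd h1 h2 h3) (pr_add (pr_add (pr_add (pr_csub (enc_rat _ 491151742905249 2473813888000000) (pr_scale 379889978533047 1236906944000000 h1)) (pr_cmul (enc_norm (txg_4.enc h1.l h2.l h3)) (pr_norm (pr_addc (pr_scale 730467201183 17670099200000 h1) (enc_rat _ 13176813773667 176700992000000))))) (pr_cmul (txg_232.enc h1.l h2.l h3) (pr_norm (pr_csub (enc_rat _ 34926720723 19182800000) (pr_scale 11642240241 1918280000 h1))))) (pr_cmul (enc_norm (enc_add (enc_mul (enc_norm (enc_subr 18961 2500 (enc_neg (enc_scale 102767 500 (txg_4.enc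 h1.l h2.l h3))))) (enc_norm (txg_4.enc h1.l h2.l h3))) (enc_rat _ 254627 100000))) (pr_norm (pr_mul (pr_norm (txg_253_s.snd h1 h2 h3)) (pr_norm (pr_csub (enc_rat _ 3 10) h1)))))) (pr_add (pr_add (pr_csub (enc_rat _ 3726 15625) (pr_scale 27513 62500 h1)) (pr_cmul (enc_norm (txg_4.enc h1.l h2.l h3)) (pr_norm (pr_subr 13221 1000000 (pr_scale 16699 50000 h1))))) (pr_cmul (enc_norm (enc_sub (enc_rat _ 57889 50000) (enc_scale 13737 10000 (txg_4.enc h1.l h2.l h3)))) (pr_norm (pr_mul (pr_norm (txg_255_s.snd h1 h2 h3)) (pr_norm (pr_csub (enc_rat _ 7 20) h1))))))) (pr_case (txg_306_s.snd h1 h2 h3) (pr_add (pr_add (pr_csub (enc_rat _ 2727773 10000000) (pr_scale 269123 500000 h1)) (pr_cmul (enc_norm (txg_4.enc h1.l h2.l h3)) (pr_norm (pr_addc (pr_scale 1651 50000 h1) (enc_rat _ 18423 200000))))) (pr_cmul (enc_norm (enc_add (enc_scale 18481 2500 (txg_4.enc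 h1.l h2.l h3)) (enc_rat _ 803 1000))) (pr_norm (pr_mul (pr_norm (txg_254_s.snd h1 h2 h3)) (pr_norm (pr_csub (enc_rat _ 2 5) h1)))))) (pr_case (txg_324_s.snd h1 h2 h3) (pr_add (pr_add (pr_csub (enc_rat _ 2867653 10000000) (pr_scale 17913 31250 h1)) (pr_cmul (enc_norm (txg_4.enc h1.l h2.l h3)) (pr_norm (pr_csub (enc_rat _ 351227 1000000) (pr_scale 15369 25000 h1))))) (pr_cmul (enc_norm (enc_subr 5179 50000 (enc_scale 13909 2500 (txg_4.enc h1.l h2.l h3)))) (pr_norm (pr_mul (pr_norm (txg_306_s.snd h1 h2 h3)) (pr_norm (pr_csub (enc_rat _ 9 20) h1)))))) (pr_add (pr_add (pr_csub (enc_rat _ 288181 1000000) (pr_scale 288181 500000 h1)) (pr_cmul (enc_norm (txg_4.enc h1.l h2.l h3)) (pr_norm (pr_csub (enc_rat _ 14917 20000) (pr_scale 14917 10000 h1))))) (pr_cmul (enc_norm (enc_add (enc_scale 59877 5000 (txg_4.enc h1.l h2.l h3)) (enc_rat _ 8323 50000))) (pr_norm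 (pr_mul (pr_norm (txg_324_s.snd h1 h2 h3)) (pr_norm (pr_csub (enc_rat _ 1 2) h1)))))))))))⟩
noncomputable def l0q0_s : Sl2 l0q0 := ⟨_, fun h1 h2 => (pr_norm (txg_s.snd (pr_norm (pr_sub (pr_scale 3 4 h1) (pr_half (c1g_s.snd h1)))) (pr_nd (c1g_s.snd h1)) h2))⟩
noncomputable def kc0q0_8_s : Sl2 kc0q0_8 := ⟨_, fun h1 h2 => (pr_sub (pr_scale 3 4 h1) (pr_half (c1g_s.snd h1)))⟩
noncomputable def kc0q0_s : Sl2 kc0q0 := ⟨_, fun h1 h2 => (pr_norm (pr_case (pr_addc (kc0q0_8_s.snd h1 h2) (enc_rat _ 167 1000)) (pr_case (pr_addc (kc0q0_8_s.snd h1 h2) (enc_rat _ 333 1000)) (pr_add (pr_addc (pr_scale 464 167 (kc0q0_8_s.snd h1 h2)) (enc_rat _ 232 167)) (pr_cmul (enc_norm (kc0q0_3.enc h1.l h2)) (pr_norm (pr_subr 42634 167 (pr_neg (pr_scale 85268 167 (kc0q0_8_s.snd h1 h2))))))) (pr_add (pr_addc (pr_scale 4613 1660 (kc0q0_8_s.snd h1 h2)) (enc_rat _ 2306369 1660000))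 (pr_cmul (enc_norm (kc0q0_3.enc h1.l h2)) (pr_norm (pr_subr 23639993 166000 (pr_neg (pr_scale 28485 166 (kc0q0_8_s.snd h1 h2)))))))) (pr_case (kc0q0_8_s.snd h1 h2) (pr_add (pr_addc (pr_scale 4641 1670 (kc0q0_8_s.snd h1 h2)) (enc_rat _ 6947 5000)) (pr_cmul (enc_norm (kc0q0_3.enc h1.l h2)) (pr_norm (pr_subr 1687 500 (pr_scale 110379 167 (kc0q0_8_s.snd h1 h2)))))) (pr_add (pr_addc (pr_scale 3653643720883 1315000000000 (kc0q0_8_s.snd h1 h2)) (enc_rat _ 6947 5000)) (pr_cmul (enc_norm (kc0q0_3.enc h1.l h2)) (pr_norm (pr_subr 1687 500 (pr_scale 34837906519247 1315000000000 (kc0q0_8_s.snd h1 h2)))))))))⟩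
noncomputable def kf0q1_10_s : Sl2 kf0q1_10 := ⟨_, fun h1 h2 => (pr_scale 3 2 h1)⟩
noncomputable def kf0q1_s : Sl2 kf0q1 := ⟨_, fun h1 h2 => (pr_norm (pr_add (pr_mul (pr_norm (pr_mul (pr_norm (pr_cadd (enc_pnc _ 1) (pr_nat 2 (c1g_s.snd h1)))) (pr_norm (pr_sub (kf0q1_10_s.snd h1 h2) (c1g_s.snd h1))))) (pr_nd (pr_inv (pr_nat 2 (pr_sub (pr_cadd (enc_pnc _ 1) (kf0q1_10_s.snd h1 h2)) (c1g_s.snd h1)))))) (pr_mul (pr_norm (pr_subn 1 h1)) (kcg_s.snd (pr_norm (pr_sub (pr_scale 3 4 h1) (pr_half (c1g_s.snd h1)))) h2))))⟩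
noncomputable def l0q1_s : Sl2 l0q1 := ⟨_, fun h1 h2 => (pr_norm (txg_s.snd (pr_norm (pr_sub (pr_scale 3 4 h1) (pr_half (c1g_s.snd h1)))) (pr_nd (c1g_s.snd h1)) h2))⟩
noncomputable def gsg_s : Sl1 gsg := ⟨_, fun h1 => (pr_sqrt (pr_csub (enc_pnc _ 1) (pr_scale 3 4 (pr_sq h1))))⟩
noncomputable def gug_s : Sl1 gug := ⟨_, fun h1 => (pr_norm (pr_add (pr_scale 3 4 h1) (pr_scale 3 2 (pr_csub (enc_pnc _ 1) (gsg_s.snd h1)))))⟩
noncomputable def kc0q1_9_s : Sl2 kc0q1_9 := ⟨_, fun h1 h2 => (pr_sub (pr_scale 3 4 h1) (pr_half (c1g_s.snd h1)))⟩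
noncomputable def kc0q1_s : Sl2 kc0q1 := ⟨_, fun h1 h2 => (pr_norm (pr_case (pr_subr 263 1586 (kc0q1_9_s.snd h1 h2)) (pr_case (pr_addc (kc0q1_9_s.snd h1 h2) (enc_rat _ 167 1000)) (pr_case (pr_addc (kc0q1_9_s.snd h1 h2) (enc_rat _ 333 1000)) (pr_add (pr_addc (pr_scale 464 167 (kc0q1_9_s.snd h1 h2)) (enc_rat _ 232 167)) (pr_cmul (enc_norm (kc0q1_3.enc h1.l h2)) (pr_norm (pr_subr 42634 167 (pr_neg (pr_scale 85268 167 (kc0q1_9_s.snd h1 h2))))))) (pr_add (pr_addc (pr_scale 4613 1660 (kc0q1_9_s.snd h1 h2)) (enc_rat _ 2306369 1660000)) (pr_cmul (enc_norm (kc0q1_3.enc h1.l h2)) (pr_norm (pr_subr 23639993 166000 (pr_neg (pr_scale 28485 166 (kc0q1_9_s.snd h1 h2)))))))) (pr_case (kc0q1_9_s.snd h1 h2) (pr_add (pr_addc (pr_scale 4641 1670 (kc0q1_9_s.snd h1 h2)) (enc_rat _ 6947 5000)) (pr_cmul (enc_norm (kc0q1_3.enc h1.l h2)) (pr_norm (pr_subr 1687 500 (pr_scale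 110379 167 (kc0q1_9_s.snd h1 h2)))))) (pr_add (pr_addc (pr_scale 3653643720883 1315000000000 (kc0q1_9_s.snd h1 h2)) (enc_rat _ 6947 5000)) (pr_cmul (enc_norm (kc0q1_3.enc h1.l h2)) (pr_norm (pr_subr 1687 500 (pr_scale 34837906519247 1315000000000 (kc0q1_9_s.snd h1 h2)))))))) (pr_case (pr_subr 109 403 (kc0q1_9_s.snd h1 h2)) (pr_sub (pr_add (pr_cadd (enc_rat _ 3 4) (pr_scale 3 2 h1)) (pr_scale 3 4 (pr_mul (pr_norm (pr_mul h1 (pr_nd (pr_inv (c1g_s.snd h1))))) (gug_s.snd h1)))) (pr_mul (kcg_s.snd (pr_norm (kc0q1_9_s.snd h1 h2)) h2) (pr_norm (pr_add (gug_s.snd h1) (pr_nat 2 (c1g_s.snd h1)))))) (pr_case (pr_subr 333 1000 (kc0q1_9_s.snd h1 h2)) (pr_add (pr_csub (enc_rat _ 522381322882307 125995000000000) (pr_scale 1044792932079 125995000000 (kc0q1_9_s.snd h1 h2))) (pr_cmul (enc_norm (kc0q1_3.enc h1.l h2)) (pr_norm (pr_subr 4361445226287959 251990000000000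 (pr_scale 14279440259123 251990000000 (kc0q1_9_s.snd h1 h2)))))) (pr_add (pr_csub (enc_rat _ 13847 3340) (pr_scale 13847 1670 (kc0q1_9_s.snd h1 h2))) (pr_cmul (enc_norm (kc0q1_3.enc h1.l h2)) (pr_norm (pr_csub (enc_rat _ 781 167) (pr_scale 1562 167 (kc0q1_9_s.snd h1 h2))))))))))⟩
noncomputable def yag_s : Sl1 yag := ⟨_, fun h1 => (pr_sqrt (pr_scale 4 3 (pr_csub (enc_pnc _ 1) (pr_sq h1))))⟩
noncomputable def kfc02_s : Sl2 kfc02 := ⟨_, fun h1 h2 => (pr_norm (pr_add h1 (pr_mul (pr_norm (pr_subn 1 (yag_s.snd h1))) (kcg_s.snd (pr_nd (pr_neg h1)) h2))))⟩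
noncomputable def lc02_7_s : Sl2 lc02_7 := ⟨_, fun h1 h2 => (pr_scale 3 4 (yag_s.snd h1))⟩
noncomputable def lc02_8_s : Sl2 lc02_8 := ⟨_, fun h1 h2 => (pr_half h1)⟩
noncomputable def lc02_s : Sl2 lc02 := ⟨_, fun h1 h2 => (pr_norm (pr_sub (txg_s.snd (pr_nd (pr_neg h1)) (pr_norm (pr_add (lc02_7_s.snd h1 h2) (lc02_8_s.snd h1 h2))) h2) (txg_s.snd h1 (pr_norm (pr_sub (lc02_7_s.snd h1 h2) (lc02_8_s.snd h1 h2))) h2)))⟩
noncomputable def kcc02_s : Sl2 kcc02 := ⟨_, fun h1 h2 => (pr_norm (pr_case (pr_subr 1 10 h1) (pr_cmul (enc_norm (kcc02_4.enc h1.l h2)) (pr_nd (pr_scale 499 100 h1))) (pr_case (pr_subr 3 10 h1) (pr_cmul (enc_norm (kcc02_4.enc h1.l h2)) (pr_norm (pr_subr 1 2000 (pr_scale 999 200 h1)))) (pr_cmul (enc_norm (kcc02_4.enc h1.l h2)) (pr_norm (pr_csub (enc_rat _ 749 200) (pr_scale 749 100 h1)))))))⟩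
noncomputable def swg_s : Sl1 swg := ⟨_, fun h1 => (pr_sqrt (pr_csub (enc_pnc _ 1) (pr_scale 3 4 (pr_sq (pr_norm (pr_subn 1 h1))))))⟩
noncomputable def cv1m_s : Sl1 cv1m := ⟨_, fun h1 => (pr_norm (pr_add (pr_scale 3 5 (c1g_s.snd h1)) (pr_scale 2 5 (pr_addc (swg_s.snd h1) (enc_rat _ 1 2)))))⟩
noncomputable def bf1q0_s : Sl2 bf1q0 := ⟨_, fun h1 h2 => (pr_norm (pr_case (pr_subr 33 250 h1) (pr_sub (pr_csub (enc_pnc _ 1) (pr_scale 2041 1320 h1)) (pr_cmul (enc_norm (bf1q0_3.enc h1.l h2)) (pr_nd (pr_scale 80 33 h1)))) (pr_case (pr_subr 263 1000 h1) (pr_add (pr_csub (enc_rat _ 266553 262000) (pr_scale 1099 655 h1)) (pr_cmul (enc_norm (bf1q0_3.enc h1.l h2)) (pr_norm (pr_subr 8342 16375 (pr_scale 188 131 h1))))) (pr_add (pr_csub (enc_rat _ 3114307 2370000) (pr_scale 665 237 h1)) (pr_cmul (enc_norm (bf1q0_3.enc h1.l h2)) (pr_norm (pr_subr 145163 237000 (pr_scale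 433 237 h1))))))))⟩
noncomputable def kf1q0_s : Sl2 kf1q0 := ⟨_, fun h1 h2 => (pr_norm (pr_mul (cv1m_s.snd h1) (bf1q0_s.snd h1 h2)))⟩
noncomputable def bx1q0_s : Sl2 bx1q0 := ⟨_, fun h1 h2 => (pr_norm (pr_case (pr_subr 7 40 h1) (pr_case (pr_subr 33 250 h1) (pr_scale 119 330 h1) (pr_add (pr_addc (pr_scale 21 86 h1) (enc_rat _ 413 26875)) (pr_cmul (enc_norm (bx1q0_3.enc h1.l h2)) (pr_norm (pr_subr 33 10750 (pr_scale 1 43 h1)))))) (pr_case (pr_subr 263 1000 h1) (pr_add (pr_addc (pr_scale 7 110 h1) (enc_rat _ 2583 55000)) (pr_cmul (enc_norm (bx1q0_3.enc h1.l h2)) (pr_norm (pr_subr 8203 22000 (pr_scale 47 22 h1))))) (pr_add (pr_addc (pr_scale 481 2370 h1) (enc_rat _ 12233 1185000)) (pr_cmul (enc_norm (bx1q0_3.enc h1.l h2)) (pr_norm (pr_addc (pr_scale 1 237 h1) (enc_rat _ 4453 23700))))))))⟩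
noncomputable def l1q0_s : Sl2 l1q0 := ⟨_, fun h1 h2 => (pr_norm (pr_mul (cv1m_s.snd h1) (bx1q0_s.snd h1 h2)))⟩
noncomputable def bd1q0_s : Sl2 bd1q0 := ⟨_, fun h1 h2 => (pr_norm (pr_case (pr_subr 7 40 h1) (pr_sub (pr_cmul (enc_norm (bd1q0_3.enc h1.l h2)) (pr_nd (pr_scale 421 35 h1))) (pr_scale 6386 875 h1)) (pr_case (pr_subr 263 1000 h1) (pr_add (pr_subr 789511 880000 (pr_neg (pr_scale 1911 880 h1))) (pr_cmul (enc_norm (bd1q0_3.enc h1.l h2)) (pr_norm (pr_csub (enc_rat _ 5961 2200) (pr_scale 38 11 h1))))) (pr_add (pr_subr 3995029 1185000 (pr_scale 17149 2370 h1)) (pr_cmul (enc_norm (bd1q0_3.enc h1.l h2)) (pr_norm (pr_csub (enc_rat _ 223283 79000) (pr_scale 308 79 h1))))))))⟩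
noncomputable def kc1q0_s : Sl2 kc1q0 := ⟨_, fun h1 h2 => (pr_norm (pr_mul (cv1m_s.snd h1) (bd1q0_s.snd h1 h2)))⟩
noncomputable def bf1q1_s : Sl2 bf1q1 := ⟨_, fun h1 h2 => (pr_norm (pr_case (pr_subr 207 250 h1) (pr_add (pr_subr 271997 820000 (pr_scale 3589 3280 h1)) (pr_cmul (enc_norm (bf1q1_3.enc h1.l h2)) (pr_norm (pr_subr 50549 82000 (pr_scale 285 328 h1))))) (pr_add (pr_subr 8927 26875 (pr_scale 1883 1720 h1)) (pr_cmul (enc_norm (bf1q1_3.enc h1.l h2)) (pr_norm (pr_subr 26621 43000 (pr_scale 75 86 h1)))))))⟩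
noncomputable def kf1q1_s : Sl2 kf1q1 := ⟨_, fun h1 h2 => (pr_norm (pr_mul (cv1m_s.snd h1) (bf1q1_s.snd h1 h2)))⟩
noncomputable def bx1q1_s : Sl2 bx1q1 := ⟨_, fun h1 h2 => (pr_norm (pr_case (pr_subr 83 125 h1) (pr_case (pr_subr 111 200 h1) (pr_addc (pr_addc (pr_scale 56 275 h1) (enc_rat _ 549 55000)) (enc_scale 19 100 (bx1q1_3.enc h1.l h2))) (pr_add (pr_csub (enc_rat _ 13629 109000) (pr_scale 2 545 h1)) (pr_cmul (enc_norm (bx1q1_3.enc h1.l h2)) (pr_norm (pr_csub (enc_rat _ 1339 4360) (pr_scale 23 109 h1)))))) (pr_case (pr_subr 15 16 h1) (pr_add (pr_csub (enc_rat _ 341951 2735000) (pr_scale 2 547 h1)) (pr_cmul (enc_norm (bx1q1_3.enc h1.l h2)) (pr_norm (pr_csub (enc_rat _ 828389 547000) (pr_scale 1110 547 h1))))) (pr_add (pr_csub (enc_rat _ 1283 5000) (pr_scale 18 125 h1)) (pr_cmul (enc_norm (bx1q1_3.enc h1.l h2)) (pr_norm (pr_subr 14893 1000 (pr_scale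 1934 125 h1))))))))⟩
noncomputable def l1q1_s : Sl2 l1q1 := ⟨_, fun h1 h2 => (pr_norm (pr_mul (cv1m_s.snd h1) (bx1q1_s.snd h1 h2)))⟩
noncomputable def bd1q1_s : Sl2 bd1q1 := ⟨_, fun h1 h2 => (pr_norm (pr_add (pr_subr 2283 625 (pr_scale 19497 2500 h1)) (pr_cmul (enc_norm (enc_subr 25 32 h2)) (pr_norm (pr_csub (enc_rat _ 353 125) (pr_scale 1947 500 h1))))))⟩
noncomputable def kc1q1_s : Sl2 kc1q1 := ⟨_, fun h1 h2 => (pr_norm (pr_mul (cv1m_s.snd h1) (bd1q1_s.snd h1 h2)))⟩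
noncomputable def cv1p_s : Sl1 cv1p := ⟨_, fun h1 => (pr_norm (pr_add (pr_scale 3 5 (c1g_s.snd h1)) (pr_scale 2 5 (pr_subr 1 2 (swg_s.snd h1)))))⟩
noncomputable def bf1q2_s : Sl2 bf1q2 := ⟨_, fun h1 h2 => (pr_norm (pr_case (pr_subr 577 500 h1) (pr_case (pr_subr 17 16 h1) (pr_add (pr_csub (enc_rat _ 1573 625) (pr_scale 948 625 h1)) (pr_cmul (enc_norm (bf1q2_3.enc h1.l h2)) (pr_norm (pr_csub (enc_rat _ 48 5) (pr_scale 48 5 h1))))) (pr_add (pr_csub (enc_rat _ 19987 4800) (pr_scale 23003 7500 h1)) (pr_cmul (enc_norm (bf1q2_3.enc h1.l h2)) (pr_norm (pr_subr 4114897 244000 (pr_scale 233441 15250 h1)))))) (pr_case (pr_subr 231 200 h1) (pr_add (pr_csub (enc_rat _ 34379 10000) (pr_scale 24379 10000 h1)) (pr_cmul (enc_norm (bf1q2_3.enc h1.l h2)) (pr_norm (pr_subr 5199 1000 (pr_scale 5199 1000 h1))))) (pr_add (pr_csub (enc_rat _ 1581357 460000) (pr_scale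 1682051 690000 h1)) (pr_cmul (enc_norm (bf1q2_3.enc h1.l h2)) (pr_norm (pr_subr 239231 46000 (pr_scale 358831 69000 h1))))))))⟩
noncomputable def kf1q2_s : Sl2 kf1q2 := ⟨_, fun h1 h2 => (pr_norm (pr_mul (cv1p_s.snd h1) (bf1q2_s.snd h1 h2)))⟩
noncomputable def bx1q2_s : Sl2 bx1q2 := ⟨_, fun h1 h2 => (pr_norm (pr_case (pr_subr 577 500 h1) (pr_case (pr_subr 17 16 h1) (pr_add (pr_csub (enc_rat _ 386 625) (pr_scale 386 625 h1)) (pr_cmul (enc_norm (bx1q2_3.enc h1.l h2)) (pr_norm (pr_csub (enc_rat _ 108 25) (pr_scale 108 25 h1))))) (pr_case (pr_subr 277 250 h1) (pr_add (pr_csub (enc_rat _ 1182499 910000) (pr_scale 573 455 h1)) (pr_cmul (enc_norm (bx1q2_3.enc h1.l h2)) (pr_norm (pr_subr 78957 9100 (pr_scale 720 91 h1))))) (pr_add (pr_csub (enc_rat _ 7949151 5750000) (pr_scale 3836 2875 h1)) (pr_cmul (enc_norm (bx1q2_3.enc h1.l h2)) (pr_norm (pr_subr 2492609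 287500 (pr_scale 4546 575 h1))))))) (pr_casec1 (pr_subr 231 200 h1) (enc_subr 39319 250000 (enc_scale 5671 12500 (bx1q2_3.enc h1.l h2))) (pr_case (pr_subr 166 125 h1) (pr_add (pr_subr 9789829 5406250 (pr_scale 61919 43250 h1)) (pr_cmul (enc_norm (bx1q2_3.enc h1.l h2)) (pr_norm (pr_csub (enc_rat _ 6162169 1081250) (pr_scale 19642 4325 h1))))) (pr_add (pr_subr 48657 26875 (pr_scale 1231 860 h1)) (pr_cmul (enc_norm (bx1q2_3.enc h1.l h2)) (pr_norm (pr_subr 10956 5375 (pr_scale 221 172 h1)))))))))⟩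
noncomputable def l1q2_s : Sl2 l1q2 := ⟨_, fun h1 h2 => (pr_norm (pr_mul (cv1p_s.snd h1) (bx1q2_s.snd h1 h2)))⟩
noncomputable def bd1q2_s : Sl2 bd1q2 := ⟨_, fun h1 h2 => (pr_norm (pr_case (pr_subr 577 500 h1) (pr_cmul (enc_norm (bd1q2_3.enc h1.l h2)) (pr_norm (pr_subr 2495 77 (pr_scale 2495 77 h1)))) (pr_casec1 (pr_subr 231 200 h1) (enc_scale 499 100 (bd1q2_3.enc h1.l h2)) (pr_add (pr_subr 2635787 230000 (pr_scale 34231 3450 h1)) (pr_cmul (enc_norm (bd1q2_3.enc h1.l h2)) (pr_norm (pr_addc (pr_scale 1 115 h1) (enc_rat _ 114539 23000))))))))⟩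
noncomputable def kc1q2_s : Sl2 kc1q2 := ⟨_, fun h1 h2 => (pr_norm (pr_mul (cv1p_s.snd h1) (bd1q2_s.snd h1 h2)))⟩
noncomputable def cv1r_s : Sl1 cv1r := ⟨_, fun h1 => (pr_norm (pr_scale 2 5 (pr_subr 1 2 (swg_s.snd h1))))⟩
noncomputable def c3g_s : Sl1 c3g := ⟨_, fun h1 => (pr_sqrtg (pr_csub (enc_pnc _ 3) (pr_scale 3 4 (pr_sq h1))))⟩
noncomputable def kf1q3_s : Sl2 kf1q3 := ⟨_, fun h1 h2 => (pr_norm (pr_mulz (fun ht => cv1r_two (enc_two h1.r ht)) (cv1r_s.snd h1) (pr_norm (pr_case (pr_subr 1737 1000 h1) (pr_add (pr_subr 2603719 790000 (pr_scale 2354 1185 h1)) (pr_cmul (enc_norm (kf1q3_4.enc h1.l h2)) (pr_norm (pr_subr 275543 79000 (pr_scale 422 237 h1))))) (pr_case (pr_subr 73 40 h1) (pr_add (pr_subr 145007 44000 (pr_scale 437 220 h1)) (pr_cmul (enc_norm (kf1q3_4.enc h1.l h2)) (pr_norm (pr_subr 307469 88000 (pr_scale 157 88 h1))))) (pr_add (pr_subr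 1223 2000 (pr_scale 235250000 177135409 (c3g_s.snd h1))) (pr_cmul (enc_norm (kf1q3_4.enc h1.l h2)) (pr_norm (pr_subr 177 1000 (pr_neg (pr_scale 15250000 177135409 (c3g_s.snd h1))))))))))))⟩
noncomputable def l1q3_s : Sl2 l1q3 := ⟨_, fun h1 h2 => (pr_norm (pr_mulz (fun ht => cv1r_two (enc_two h1.r ht)) (cv1r_s.snd h1) (pr_norm (pr_case (pr_subr 1737 1000 h1) (pr_case (pr_subr 839 500 h1) (pr_add (pr_subr 805713 445000 (pr_scale 637 445 h1)) (pr_cmul (enc_norm (l1q3_4.enc h1.l h2)) (pr_norm (pr_subr 149379 89000 (pr_scale 93 89 h1))))) (pr_add (pr_subr 533653 295000 (pr_scale 422 295 h1)) (pr_cmul (enc_norm (l1q3_4.enc h1.l h2)) (pr_norm (pr_csub (enc_rat _ 157123 59000) (pr_scale 91 59 h1)))))) (pr_case (pr_subr 73 40 h1) (pr_add (pr_subr 398479 220000 (pr_scale 63 44 h1)) (pr_cmul (enc_norm (l1q3_4.enc h1.l h2)) (pr_norm (pr_csub (enc_rat _ 233087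 88000) (pr_scale 135 88 h1))))) (pr_add (pr_csub (enc_rat _ 11519 10000) (pr_scale 87525000 177135409 (c3g_s.snd h1))) (pr_cmul (enc_norm (l1q3_4.enc h1.l h2)) (pr_norm (pr_subr 333 1000 (pr_scale 45500000 177135409 (c3g_s.snd h1)))))))))))⟩
noncomputable def kc1q3_s : Sl2 kc1q3 := ⟨_, fun h1 h2 => (pr_norm (pr_mulz (fun ht => cv1r_two (enc_two h1.r ht)) (cv1r_s.snd h1) (pr_norm (pr_case (pr_subr 1737 1000 h1) (pr_add (pr_subr 10075751 790000 (pr_scale 852 79 h1)) (pr_cmul (enc_norm (kc1q3_4.enc h1.l h2)) (pr_norm (pr_csub (enc_rat _ 9374947 79000) (pr_scale 5987 79 h1))))) (pr_case (pr_subr 73 40 h1) (pr_add (pr_subr 11224259 880000 (pr_scale 9491 880 h1)) (pr_cmul (enc_norm (kc1q3_4.enc h1.l h2)) (pr_norm (pr_csub (enc_rat _ 10442869 88000) (pr_scale 6669 88 h1))))) (pr_cadd (enc_rat _ 34641 5000) (pr_cmul (enc_norm (kc1q3_4.enc h1.l h2)) (pr_norm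 (pr_subr 31023 1000 (pr_scale 2846500000 177135409 (c3g_s.snd h1)))))))))))⟩
noncomputable def cv2m_s : Sl1 cv2m := ⟨_, fun h1 => (pr_norm (pr_add (pr_scale 4 5 (pr_addc (swg_s.snd h1) (enc_rat _ 1 2))) (pr_scale 1 5 (c3g_s.snd h1))))⟩
noncomputable def esg_s : Sl1 esg := ⟨_, fun h1 => (pr_norm (pr_subn 1 (pr_add (pr_half h1) (gsg_s.snd h1))))⟩
noncomputable def kf2q0_29_s : Sl2 kf2q0_29 := ⟨_, fun h1 h2 => (pr_csub (enc_pnc _ 1) h1)⟩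
noncomputable def kf2q0_30_s : Sl2 kf2q0_30 := ⟨_, fun h1 h2 => (gsg_s.snd (pr_norm (kf2q0_29_s.snd h1 h2)))⟩
noncomputable def kf2q0_33_s : Sl2 kf2q0_33 := ⟨_, fun h1 h2 => (pr_sub (pr_scale 3 4 (kf2q0_29_s.snd h1 h2)) (pr_half (kf2q0_30_s.snd h1 h2)))⟩
noncomputable def kf2q0_51_s : Sl2 kf2q0_51 := ⟨_, fun h1 h2 => (pr_mul (cv1m_s.snd h1) (bf1q0_s.snd h1 h2))⟩
noncomputable def kf2q0_s : Sl2 kf2q0 := ⟨_, fun h1 h2 => (pr_norm (pr_case (pr_subr 7 40 h1) (pr_mul (cv2m_s.snd h1) (pr_norm (pr_add (pr_csub (enc_rat _ 8689 10000) (pr_scale 570528827 218750000 h1)) (pr_cmul (enc_norm (kf2q0_4.enc h1.l h2)) (pr_norm (pr_subr 13 100 (pr_scale 113744727 175000000 h1))))))) (pr_case (pr_subr 263 1000 h1) (pr_add (kf2q0_51_s.snd h1 h2) (pr_mul (pr_norm (pr_mul (pr_norm (pr_sub (pr_mul h1 (pr_norm (pr_sub (pr_mul (pr_norm (pr_sub (kf2q0_33_s.snd h1 h2) (pr_csub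 (enc_rat _ 1 4) (pr_scale 3 8 (pr_mul (pr_norm (kf2q0_29_s.snd h1 h2)) (pr_nd (pr_inv (kf2q0_30_s.snd h1 h2)))))))) (pr_nd (pr_inv (esg_s.snd (pr_norm (kf2q0_29_s.snd h1 h2)))))) (kcg_s.snd (pr_norm (kf2q0_33_s.snd h1 h2)) h2)))) (kf2q0_51_s.snd h1 h2))) (pr_norm (pr_sub (cv2m_s.snd h1) (cv1m_s.snd h1))))) (pr_nd (pr_inv (pr_sub (pr_addc (swg_s.snd h1) (enc_rat _ 1 2)) (cv1m_s.snd h1)))))) (pr_mul (cv2m_s.snd h1) (pr_norm (pr_add (pr_csub (enc_rat _ 1575259427 1580000000) (pr_scale 2178819427 790000000 h1)) (pr_cmul (enc_norm (kf2q0_4.enc h1.l h2)) (pr_norm (pr_csub (enc_rat _ 127188133 474000000) (pr_scale 90216133 237000000 h1))))))))))⟩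
noncomputable def qsg_s : Sl1 qsg := ⟨_, fun h1 => (pr_norm (pr_mul (pr_norm (pr_csub (enc_pnc _ 1) (gsg_s.snd h1))) (pr_norm (pr_subn 1 (pr_nat 2 (gsg_s.snd h1))))))⟩
noncomputable def l2q0_99_s : Sl2 l2q0_99 := ⟨_, fun h1 h2 => (pr_csub (enc_pnc _ 1) h1)⟩
noncomputable def l2q0_114_s : Sl2 l2q0_114 := ⟨_, fun h1 h2 => (pr_mul (cv1m_s.snd h1) (bx1q0_s.snd h1 h2))⟩
noncomputable def l2q0_s : Sl2 l2q0 := ⟨_, fun h1 h2 => (pr_norm (pr_case (pr_subr 7 40 h1) (pr_mul (cv2m_s.snd h1) (pr_norm (pr_case (pr_subr 11 125 h1) (pr_case (pr_subr 1 16 h1) (pr_add (pr_addc (pr_scale 42 125 h1) (enc_rat _ 167 2000)) (pr_cmul (enc_norm (l2q0_4.enc h1.l h2)) (pr_norm (pr_addc (pr_scale 178 125 h1) (enc_rat _ 71 1000))))) (pr_add (pr_addc (pr_scale 23 85 h1) (enc_rat _ 1489 17000)) (pr_cmul (enc_norm (l2q0_4.enc h1.l h2)) (pr_norm (pr_addc (pr_scale 52 51 h1) (enc_rat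 _ 491 5100)))))) (pr_case (pr_subr 33 250 h1) (pr_add (pr_addc (pr_scale 93 440 h1) (enc_rat _ 58 625)) (pr_cmul (enc_norm (l2q0_4.enc h1.l h2)) (pr_norm (pr_addc (pr_scale 47 44 h1) (enc_rat _ 23 250))))) (pr_add (pr_add (pr_addc (pr_scale 20892901 430000000 h1) (enc_rat _ 12285784267 107500000000)) (pr_cmul (enc_norm (l2q0_4.enc h1.l h2)) (pr_norm (pr_csub (enc_rat _ 3117628357 5375000000) (pr_scale 56522829 21500000 h1))))) (pr_cmul (l2q0_49.enc h1.l h2) (pr_norm (pr_subr 8142189 10750000 (pr_scale 246733 43000 h1))))))))) (pr_case (pr_subr 263 1000 h1) (pr_add (l2q0_114_s.snd h1 h2) (pr_mul (pr_norm (pr_mul (pr_norm (pr_sub (pr_sub (qsg_s.snd (pr_norm (l2q0_99_s.snd h1 h2))) (pr_mul (pr_norm (pr_nat 2 (pr_subc (l2q0_99_s.snd h1 h2) h2))) (pr_norm (pr_mul (esg_s.snd (pr_norm (l2q0_99_s.snd h1 h2))) (kcg_s.snd (pr_norm (pr_sub (pr_scale 3 4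 (l2q0_99_s.snd h1 h2)) (pr_half (gsg_s.snd (pr_norm (l2q0_99_s.snd h1 h2)))))) h2))))) (l2q0_114_s.snd h1 h2))) (pr_norm (pr_sub (cv2m_s.snd h1) (cv1m_s.snd h1))))) (pr_nd (pr_inv (pr_sub (pr_addc (swg_s.snd h1) (enc_rat _ 1 2)) (cv1m_s.snd h1)))))) (pr_mul (cv2m_s.snd h1) (pr_norm (pr_case (pr_subr 159 500 h1) (pr_add (pr_add (pr_csub (enc_rat _ 16588445299 137500000000) (pr_scale 5658461 275000000 h1)) (pr_cmul (enc_norm (l2q0_4.enc h1.l h2)) (pr_norm (pr_subr 38277527 214843750 (pr_scale 1162937 1718750 h1))))) (pr_cmul (l2q0_49.enc h1.l h2) (pr_norm (pr_subr 19203861 27500000 (pr_scale 120779 55000 h1))))) (pr_case (pr_subr 93 250 h1) (pr_add (pr_csub (enc_rat _ 2713 22500) (pr_scale 11 540 h1)) (pr_cmul (enc_norm (l2q0_4.enc h1.l h2)) (pr_norm (pr_subr 3589 9000 (pr_scale 37 27 h1))))) (pr_add (pr_csub (enc_rat _ 38671 320000) (pr_scale 27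 1280 h1)) (pr_cmul (enc_norm (l2q0_4.enc h1.l h2)) (pr_norm (pr_addc (pr_scale 23 128 h1) (enc_rat _ 1413 32000))))))))))))⟩
noncomputable def kc2q0_30_s : Sl2 kc2q0_30 := ⟨_, fun h1 h2 => (pr_csub (enc_pnc _ 1) h1)⟩
noncomputable def kc2q0_31_s : Sl2 kc2q0_31 := ⟨_, fun h1 h2 => (gsg_s.snd (pr_norm (kc2q0_30_s.snd h1 h2)))⟩
noncomputable def kc2q0_35_s : Sl2 kc2q0_35 := ⟨_, fun h1 h2 => (esg_s.snd (pr_norm (kc2q0_30_s.snd h1 h2)))⟩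
noncomputable def kc2q0_39_s : Sl2 kc2q0_39 := ⟨_, fun h1 h2 => (gug_s.snd (pr_norm (kc2q0_30_s.snd h1 h2)))⟩
noncomputable def kc2q0_41_s : Sl2 kc2q0_41 := ⟨_, fun h1 h2 => (pr_mul (pr_norm (kc2q0_30_s.snd h1 h2)) (pr_nd (pr_inv (kc2q0_31_s.snd h1 h2))))⟩
noncomputable def kc2q0_42_s : Sl2 kc2q0_42 := ⟨_, fun h1 h2 => (pr_scale 3 4 (kc2q0_41_s.snd h1 h2))⟩
noncomputable def kc2q0_71_s : Sl2 kc2q0_71 := ⟨_, fun h1 h2 => (pr_mul (cv1m_s.snd h1) (bd1q0_s.snd h1 h2))⟩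
noncomputable def kc2q0_s : Sl2 kc2q0 := ⟨_, fun h1 h2 => (pr_norm (pr_case (pr_subr 7 40 h1) (pr_mul (cv2m_s.snd h1) (pr_norm (pr_add (pr_subr 1063 1000 (pr_neg (pr_scale 16023707423 1750000000 h1))) (pr_cmul (enc_norm (kc2q0_4.enc h1.l h2)) (pr_norm (pr_subr 943 250 (pr_scale 35147497 1000000 h1))))))) (pr_case (pr_subr 263 1000 h1) (pr_add (kc2q0_71_s.snd h1 h2) (pr_mul (pr_norm (pr_mul (pr_norm (pr_sub (pr_add (pr_sub (pr_neg (pr_add (pr_cadd (enc_rat _ 3 4) (pr_scale 3 2 (kc2q0_30_s.snd h1 h2))) (pr_scale 3 4 (pr_mul (pr_norm (kc2q0_41_s.snd h1 h2)) (kc2q0_39_s.snd h1 h2))))) (pr_mul (pr_norm (pr_sub (pr_mul (pr_norm (pr_mul (pr_norm (kc2q0_42_s.snd h1 h2)) (pr_norm (pr_subn 3 (pr_nat 4 (kc2q0_31_s.snd h1 h2)))))) (kc2q0_35_s.snd h1 h2)) (pr_mul (qsg_s.snd (pr_norm (kc2q0_30_s.snd h1 h2))) (pr_norm (pr_csub (enc_rat _ 1 2) (kc2q0_42_s.snd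 h1 h2)))))) (pr_nd (pr_inv (pr_mul (pr_nd (pr_nat 2 (kc2q0_35_s.snd h1 h2))) (kc2q0_35_s.snd h1 h2)))))) (pr_mul (kcg_s.snd (pr_norm (pr_sub (pr_scale 3 4 (kc2q0_30_s.snd h1 h2)) (pr_half (kc2q0_31_s.snd h1 h2)))) h2) (pr_norm (pr_cadd (enc_pnc _ 1) (pr_add (kc2q0_39_s.snd h1 h2) (pr_nat 2 (kc2q0_31_s.snd h1 h2))))))) (kc2q0_71_s.snd h1 h2))) (pr_norm (pr_sub (cv2m_s.snd h1) (cv1m_s.snd h1))))) (pr_nd (pr_inv (pr_sub (pr_addc (swg_s.snd h1) (enc_rat _ 1 2)) (cv1m_s.snd h1)))))) (pr_mul (cv2m_s.snd h1) (pr_norm (pr_add (pr_subr 5012223883 1580000000 (pr_scale 3016051883 790000000 h1)) (pr_cmul (enc_norm (kc2q0_4.enc h1.l h2)) (pr_norm (pr_subr 716750179 237000000 (pr_scale 358169179 118500000 h1))))))))))⟩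
noncomputable def bf2q1_s : Sl2 bf2q1 := ⟨_, fun h1 h2 => (pr_norm (pr_case (pr_subr 207 250 h1) (pr_case (pr_subr 83 125 h1) (pr_add (pr_subr 72791 410000 (pr_scale 247 205 h1)) (pr_cmul (enc_norm (bf2q1_3.enc h1.l h2)) (pr_norm (pr_subr 5741 41000 (pr_neg (pr_scale 5 41 h1)))))) (pr_add (pr_subr 13197 82000 (pr_scale 387 328 h1)) (pr_cmul (enc_norm (bf2q1_3.enc h1.l h2)) (pr_norm (pr_subr 26989 41000 (pr_scale 27 41 h1)))))) (pr_case (pr_subr 883 1000 h1) (pr_add (pr_subr 6621 68750 (pr_scale 303 275 h1)) (pr_cmul (enc_norm (bf2q1_3.enc h1.l h2)) (pr_norm (pr_subr 36023 55000 (pr_scale 36 55 h1))))) (pr_add (pr_subr 32 585 (pr_scale 617 585 h1)) (pr_cmul (enc_norm (bf2q1_3.enc h1.l h2)) (pr_norm (pr_subr 77 117 (pr_scale 77 117 h1))))))))⟩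
noncomputable def kf2q1_s : Sl2 kf2q1 := ⟨_, fun h1 h2 => (pr_norm (pr_mul (cv2m_s.snd h1) (bf2q1_s.snd h1 h2)))⟩
noncomputable def bx2q1_s : Sl2 bx2q1 := ⟨_, fun h1 h2 => (pr_norm (pr_case (pr_subr 83 125 h1) (pr_case (pr_subr 111 200 h1) (pr_add (pr_csub (enc_rat _ 13333 110000) (pr_scale 6 275 h1)) (pr_cmul (enc_norm (bx2q1_3.enc h1.l h2)) (pr_norm (pr_addc (pr_scale 1 5 h1) (enc_rat _ 17 500))))) (pr_case (pr_subr 609 1000 h1) (pr_add (pr_csub (enc_rat _ 8887 45000) (pr_scale 43 270 h1)) (pr_cmul (enc_norm (bx2q1_3.enc h1.l h2)) (pr_norm (pr_addc (pr_scale 5 27 h1) (enc_rat _ 19 450))))) (pr_add (pr_csub (enc_rat _ 15207 68750) (pr_scale 109 550 h1)) (pr_cmul (enc_norm (bx2q1_3.enc h1.l h2)) (pr_norm (pr_addc (pr_scale 2 11 h1) (enc_rat _ 487 11000))))))) (pr_case (pr_subr 207 250 h1) (pr_add (pr_csub (enc_rat _ 1121 4100) (pr_scale 227 820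 h1)) (pr_cmul (enc_norm (bx2q1_3.enc h1.l h2)) (pr_norm (pr_addc (pr_scale 15 82 h1) (enc_rat _ 357 8200))))) (pr_case (pr_subr 883 1000 h1) (pr_add (pr_csub (enc_rat _ 75497 275000) (pr_scale 153 550 h1)) (pr_cmul (enc_norm (bx2q1_3.enc h1.l h2)) (pr_norm (pr_csub (enc_rat _ 32253 55000) (pr_scale 26 55 h1))))) (pr_add (pr_csub (enc_rat _ 289 1170) (pr_scale 289 1170 h1)) (pr_cmul (enc_norm (bx2q1_3.enc h1.l h2)) (pr_norm (pr_csub (enc_rat _ 13 9) (pr_scale 13 9 h1)))))))))⟩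
noncomputable def l2q1_s : Sl2 l2q1 := ⟨_, fun h1 h2 => (pr_norm (pr_mul (cv2m_s.snd h1) (bx2q1_s.snd h1 h2)))⟩
noncomputable def bd2q1_s : Sl2 bd2q1 := ⟨_, fun h1 h2 => (pr_norm (pr_add (pr_subr 6317 2500 (pr_scale 6317 2500 h1)) (pr_cmul (enc_norm (enc_subr 25 32 h2)) (pr_norm (pr_subr 1513 500 (pr_scale 1513 500 h1))))))⟩
noncomputable def kc2q1_s : Sl2 kc2q1 := ⟨_, fun h1 h2 => (pr_norm (pr_mul (cv2m_s.snd h1) (bd2q1_s.snd h1 h2)))⟩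
noncomputable def cv2p_s : Sl1 cv2p := ⟨_, fun h1 => (pr_norm (pr_add (pr_scale 4 5 (pr_subr 1 2 (swg_s.snd h1))) (pr_scale 1 5 (c3g_s.snd h1))))⟩
noncomputable def bf2q2_s : Sl2 bf2q2 := ⟨_, fun h1 h2 => (pr_norm (pr_case (pr_subr 277 250 h1) (pr_add (pr_csub (enc_rat _ 362951 135000) (pr_scale 181 108 h1)) (pr_cmul (enc_norm (bf2q2_3.enc h1.l h2)) (pr_norm (pr_subr 4123 27000 (pr_neg (pr_scale 8 27 h1)))))) (pr_case (pr_subr 577 500 h1) (pr_add (pr_csub (enc_rat _ 77231 28750) (pr_scale 77 46 h1)) (pr_cmul (enc_norm (bf2q2_3.enc h1.l h2)) (pr_norm (pr_subr 73111 23000 (pr_scale 56 23 h1))))) (pr_add (pr_csub (enc_rat _ 162333 69200) (pr_scale 4771 3460 h1)) (pr_cmul (enc_norm (bf2q2_3.enc h1.l h2)) (pr_norm (pr_subr 547363 173000 (pr_scale 419 173 h1))))))))⟩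
noncomputable def kf2q2_s : Sl2 kf2q2 := ⟨_, fun h1 h2 => (pr_norm (pr_mul (cv2p_s.snd h1) (bf2q2_s.snd h1 h2)))⟩
noncomputable def bx2q2_34_s : Sl2 bx2q2_34 := ⟨_, fun h1 h2 => (pr_scale 21 58 h1)⟩
noncomputable def bx2q2_60_s : Sl2 bx2q2_60 := ⟨_, fun h1 h2 => (pr_scale 22 57 h1)⟩
noncomputable def bx2q2_s : Sl2 bx2q2 := ⟨_, fun h1 h2 => (pr_norm (pr_case (pr_subr 1213 1000 h1) (pr_case (pr_subr 277 250 h1) (pr_add (pr_csub (enc_rat _ 33691 67500) (pr_scale 203 540 h1)) (pr_cmul (enc_norm (bx2q2_3.enc h1.l h2)) (pr_norm (pr_csub (enc_rat _ 2137 540) (pr_scale 395 108 h1))))) (pr_case (pr_subr 231 200 h1) (pr_add (pr_csub (enc_rat _ 137413 235000) (pr_scale 213 470 h1)) (pr_cmul (enc_norm (bx2q2_3.enc h1.l h2)) (pr_norm (pr_subr 85101 9400 (pr_scale 380 47 h1))))) (pr_add (pr_subr 94961 580000 (pr_scale 113 580 h1)) (pr_cmul (enc_norm (bx2q2_3.enc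 h1.l h2)) (pr_norm (pr_csub (enc_rat _ 8157 11600) (bx2q2_34_s.snd h1 h2))))))) (pr_case (pr_subr 277 200 h1) (pr_case (pr_subr 166 125 h1) (pr_add (pr_subr 136211 287500 (pr_scale 259 575 h1)) (pr_cmul (enc_norm (bx2q2_3.enc h1.l h2)) (pr_norm (pr_csub (enc_rat _ 82519 115000) (pr_scale 43 115 h1))))) (pr_add (pr_subr 74569 142500 (pr_scale 139 285 h1)) (pr_cmul (enc_norm (bx2q2_3.enc h1.l h2)) (pr_norm (pr_csub (enc_rat _ 41813 57000) (bx2q2_60_s.snd h1 h2)))))) (pr_case (pr_subr 1443 1000 h1) (pr_add (pr_subr 80421 145000 (pr_scale 74 145 h1)) (pr_cmul (enc_norm (bx2q2_3.enc h1.l h2)) (pr_norm (pr_csub (enc_rat _ 40627 58000) (bx2q2_34_s.snd h1 h2))))) (pr_add (pr_subr 98169 95000 (pr_scale 16 19 h1)) (pr_cmul (enc_norm (bx2q2_3.enc h1.l h2)) (pr_norm (pr_csub (enc_rat _ 3491 4750) (bx2q2_60_s.snd h1 h2)))))))))⟩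
noncomputable def l2q2_s : Sl2 l2q2 := ⟨_, fun h1 h2 => (pr_norm (pr_mul (cv2p_s.snd h1) (bx2q2_s.snd h1 h2)))⟩
noncomputable def bd2q2_s : Sl2 bd2q2 := ⟨_, fun h1 h2 => (pr_norm (pr_add (pr_subr 64083 10000 (pr_scale 152 25 h1)) (pr_cmul (enc_norm (enc_subr 25 32 h2)) (pr_norm (pr_csub (enc_rat _ 2263 50) (pr_scale 694 25 h1))))))⟩
noncomputable def kc2q2_s : Sl2 kc2q2 := ⟨_, fun h1 h2 => (pr_norm (pr_mul (cv2p_s.snd h1) (bd2q2_s.snd h1 h2)))⟩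
noncomputable def ycg_s : Sl1 ycg := ⟨_, fun h1 => (pr_sqrtg (pr_scale 4 3 (pr_csub (enc_pnc _ 3) (pr_sq h1))))⟩
noncomputable def xc23_s : Sl1 xc23 := ⟨_, fun h1 => (pr_norm (pr_add (pr_scale 4 5 (pr_subr 1 2 (swg_s.snd (pr_nd (ycg_s.snd h1))))) (pr_scale 1 5 h1)))⟩
noncomputable def kfc23_6_s : Sl2 kfc23_6 := ⟨_, fun h1 h2 => (pr_subr 1 2 (swg_s.snd (pr_nd (ycg_s.snd h1))))⟩
noncomputable def kfc23_9_s : Sl2 kfc23_9 := ⟨_, fun h1 h2 => (pr_add (pr_scale 4 5 (kfc23_6_s.snd h1 h2)) (pr_scale 1 5 h1))⟩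
noncomputable def kfc23_45_s : Sl2 kfc23_45 := ⟨_, fun h1 h2 => (pr_subn 1 (ycg_s.snd h1))⟩
noncomputable def kfc23_46_s : Sl2 kfc23_46 := ⟨_, fun h1 h2 => (gsg_s.snd (pr_norm (kfc23_45_s.snd h1 h2)))⟩
noncomputable def kfc23_47_s : Sl2 kfc23_47 := ⟨_, fun h1 h2 => (pr_scale 3 4 (kfc23_45_s.snd h1 h2))⟩
noncomputable def kfc23_48_s : Sl2 kfc23_48 := ⟨_, fun h1 h2 => (pr_half (kfc23_46_s.snd h1 h2))⟩
noncomputable def kfc23_65_s : Sl2 kfc23_65 := ⟨_, fun h1 h2 => (cv1r_s.snd (pr_nd (ycg_s.snd h1)))⟩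
noncomputable def kfc23_67_s : Sl2 kfc23_67 := ⟨_, fun h1 h2 => (pr_subr 1737 1000 (ycg_s.snd h1))⟩
noncomputable def kfc23_79_s : Sl2 kfc23_79 := ⟨_, fun h1 h2 => (pr_subr 73 40 (ycg_s.snd h1))⟩
noncomputable def kfc23_103_s : Sl2 kfc23_103 := ⟨_, fun h1 h2 => (pr_mul (kfc23_65_s.snd h1 h2) (pr_norm (pr_case (kfc23_67_s.snd h1 h2) (pr_add (pr_subr 2603719 790000 (pr_scale 2354 1185 (ycg_s.snd h1))) (pr_cmul (enc_norm (kfc23_11.enc h1.l h2)) (pr_norm (pr_subr 275543 79000 (pr_scale 422 237 (ycg_s.snd h1)))))) (pr_case (kfc23_79_s.snd h1 h2) (pr_add (pr_subr 145007 44000 (pr_scale 437 220 (ycg_s.snd h1))) (pr_cmul (enc_norm (kfc23_11.enc h1.l h2)) (pr_norm (pr_subr 307469 88000 (pr_scale 157 88 (ycg_s.snd h1)))))) (pr_add (pr_subr 1223 2000 (pr_scale 235250000 177135409 h1)) (pr_cmul (enc_norm (kfc23_11.enc h1.l h2)) (pr_norm (pr_subr 177 1000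 (pr_neg (pr_scale 15250000 177135409 h1))))))))))⟩
noncomputable def kfc23_s : Sl2 kfc23 := ⟨_, fun h1 h2 => (pr_norm (pr_case (kfc23_67_s.snd h1 h2) (pr_mul (pr_norm (kfc23_9_s.snd h1 h2)) (pr_norm (pr_add (pr_subr 2603545751 790000000 (pr_scale 784608917 395000000 (ycg_s.snd h1))) (pr_cmul (enc_norm (kfc23_11.enc h1.l h2)) (pr_norm (pr_subr 177942509 15800000 (pr_scale 161068109 23700000 (ycg_s.snd h1)))))))) (pr_case (kfc23_79_s.snd h1 h2) (pr_add (kfc23_103_s.snd h1 h2) (pr_mul (pr_norm (pr_mul (pr_norm (pr_sub (pr_mul (pr_norm (pr_subn 2 (ycg_s.snd h1))) (pr_norm (pr_add (pr_mul (pr_norm (pr_sub (pr_sub (kfc23_48_s.snd h1 h2) (kfc23_47_s.snd h1 h2)) (pr_csub (enc_rat _ 1 4) (pr_scale 3 8 (pr_mul (pr_norm (kfc23_45_s.snd h1 h2)) (pr_nd (pr_inv (kfc23_46_s.snd h1 h2)))))))) (pr_nd (pr_inv (esg_s.snd (pr_norm (kfc23_45_s.snd h1 h2)))))) (kcg_s.snd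 (pr_norm (pr_sub (kfc23_47_s.snd h1 h2) (kfc23_48_s.snd h1 h2))) h2)))) (kfc23_103_s.snd h1 h2))) (pr_norm (pr_sub (kfc23_9_s.snd h1 h2) (kfc23_65_s.snd h1 h2))))) (pr_nd (pr_inv (pr_sub (kfc23_6_s.snd h1 h2) (kfc23_65_s.snd h1 h2)))))) (pr_mul (pr_norm (kfc23_9_s.snd h1 h2)) (pr_norm (pr_case (pr_csub (enc_rat _ 616546227 1000000000) h1) (pr_add (pr_subr 93840406668317 653376484375000 (pr_scale 230772384 459977045 h1)) (pr_cmul (enc_norm (kfc23_11.enc h1.l h2)) (pr_norm (pr_csub (enc_rat _ 29282878903713733 4181609500000000) (pr_scale 1011616538 91995409 h1))))) (pr_add (pr_csub (enc_rat _ 1 2) (pr_scale 334300000 616546227 h1)) (pr_cmul (enc_norm (kfc23_11.enc h1.l h2)) (pr_nd (pr_scale 223000000 616546227 h1))))))))))⟩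
noncomputable def lc23_6_s : Sl2 lc23_6 := ⟨_, fun h1 h2 => (pr_subr 1 2 (swg_s.snd (pr_nd (ycg_s.snd h1))))⟩
noncomputable def lc23_9_s : Sl2 lc23_9 := ⟨_, fun h1 h2 => (pr_add (pr_scale 4 5 (lc23_6_s.snd h1 h2)) (pr_scale 1 5 h1))⟩
noncomputable def lc23_13_s : Sl2 lc23_13 := ⟨_, fun h1 h2 => (pr_subr 839 500 (ycg_s.snd h1))⟩
noncomputable def lc23_72_s : Sl2 lc23_72 := ⟨_, fun h1 h2 => (pr_subn 1 (ycg_s.snd h1))⟩
noncomputable def lc23_85_s : Sl2 lc23_85 := ⟨_, fun h1 h2 => (cv1r_s.snd (pr_nd (ycg_s.snd h1)))⟩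
noncomputable def lc23_87_s : Sl2 lc23_87 := ⟨_, fun h1 h2 => (pr_subr 1737 1000 (ycg_s.snd h1))⟩
noncomputable def lc23_110_s : Sl2 lc23_110 := ⟨_, fun h1 h2 => (pr_subr 73 40 (ycg_s.snd h1))⟩
noncomputable def lc23_133_s : Sl2 lc23_133 := ⟨_, fun h1 h2 => (pr_mul (lc23_85_s.snd h1 h2) (pr_norm (pr_case (lc23_87_s.snd h1 h2) (pr_case (lc23_13_s.snd h1 h2) (pr_add (pr_subr 805713 445000 (pr_scale 637 445 (ycg_s.snd h1))) (pr_cmul (enc_norm (lc23_11.enc h1.l h2)) (pr_norm (pr_subr 149379 89000 (pr_scale 93 89 (ycg_s.snd h1)))))) (pr_add (pr_subr 533653 295000 (pr_scale 422 295 (ycg_s.snd h1))) (pr_cmul (enc_norm (lc23_11.enc h1.l h2)) (pr_norm (pr_csub (enc_rat _ 157123 59000) (pr_scale 91 59 (ycg_s.snd h1))))))) (pr_case (lc23_110_s.snd h1 h2) (pr_add (pr_subr 398479 220000 (pr_scale 63 44 (ycg_s.snd h1))) (pr_cmul (enc_norm (lc23_11.enc h1.l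 h2)) (pr_norm (pr_csub (enc_rat _ 233087 88000) (pr_scale 135 88 (ycg_s.snd h1)))))) (pr_add (pr_csub (enc_rat _ 11519 10000) (pr_scale 87525000 177135409 h1)) (pr_cmul (enc_norm (lc23_11.enc h1.l h2)) (pr_norm (pr_subr 333 1000 (pr_scale 45500000 177135409 h1)))))))))⟩
noncomputable def lc23_s : Sl2 lc23 := ⟨_, fun h1 h2 => (pr_norm (pr_case (lc23_87_s.snd h1 h2) (pr_mul (pr_norm (lc23_9_s.snd h1 h2)) (pr_norm (pr_case (lc23_13_s.snd h1 h2) (pr_add (pr_subr 2613 2500 (pr_scale 17 20 (ycg_s.snd h1))) (pr_cmul (enc_norm (lc23_11.enc h1.l h2)) (pr_norm (pr_csub (enc_rat _ 56067 44500) (pr_scale 131 178 (ycg_s.snd h1)))))) (pr_add (pr_add (pr_subr 308500391319 295000000000 (pr_scale 501698321 590000000 (ycg_s.snd h1))) (pr_cmul (enc_norm (lc23_11.enc h1.l h2)) (pr_norm (pr_subr 119368071987 14750000000 (pr_scale 142713733 29500000 (ycg_s.snd h1))))))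 (pr_cmul (lc23_38.enc h1.l h2) (pr_norm (pr_csub (enc_rat _ 204159743 14750000) (pr_scale 243337 29500 (ycg_s.snd h1))))))))) (pr_case (lc23_110_s.snd h1 h2) (pr_add (lc23_133_s.snd h1 h2) (pr_mul (pr_norm (pr_mul (pr_norm (pr_sub (pr_sub (qsg_s.snd (pr_norm (lc23_72_s.snd h1 h2))) (pr_mul (pr_norm (pr_nat 2 (pr_subc (lc23_72_s.snd h1 h2) h2))) (pr_norm (pr_mul (esg_s.snd (pr_norm (lc23_72_s.snd h1 h2))) (kcg_s.snd (pr_norm (pr_sub (pr_scale 3 4 (lc23_72_s.snd h1 h2)) (pr_half (gsg_s.snd (pr_norm (lc23_72_s.snd h1 h2)))))) h2))))) (lc23_133_s.snd h1 h2))) (pr_norm (pr_sub (lc23_9_s.snd h1 h2) (lc23_85_s.snd h1 h2))))) (pr_nd (pr_inv (pr_sub (lc23_6_s.snd h1 h2) (lc23_85_s.snd h1 h2)))))) (pr_mul (pr_norm (lc23_9_s.snd h1 h2)) (pr_norm (pr_case (pr_csub (enc_rat _ 616546227 1000000000) h1) (pr_add (pr_add (pr_csub (enc_rat _ 36878519993425769 41816095000000000)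 (pr_scale 20755347 41816095 h1)) (pr_cmul (enc_norm (lc23_11.enc h1.l h2)) (pr_norm (pr_addc (pr_scale 43838326 91995409 h1) (enc_rat _ 937512153122909 4181609500000000))))) (pr_cmul (lc23_38.enc h1.l h2) (pr_norm (pr_subr 60510593150973 8363219000000 (pr_scale 1079589000 91995409 h1))))) (pr_add (pr_addc (pr_scale 132930500 616546227 h1) (enc_rat _ 885939 2000000)) (pr_cmul (enc_norm (lc23_11.enc h1.l h2)) (pr_norm (pr_csub (enc_rat _ 216319 100000) (pr_scale 1645190000 616546227 h1)))))))))))⟩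
noncomputable def kcc23_6_s : Sl2 kcc23_6 := ⟨_, fun h1 h2 => (pr_subr 1 2 (swg_s.snd (pr_nd (ycg_s.snd h1))))⟩
noncomputable def kcc23_9_s : Sl2 kcc23_9 := ⟨_, fun h1 h2 => (pr_add (pr_scale 4 5 (kcc23_6_s.snd h1 h2)) (pr_scale 1 5 h1))⟩
noncomputable def kcc23_35_s : Sl2 kcc23_35 := ⟨_, fun h1 h2 => (pr_subn 1 (ycg_s.snd h1))⟩
noncomputable def kcc23_36_s : Sl2 kcc23_36 := ⟨_, fun h1 h2 => (gsg_s.snd (pr_norm (kcc23_35_s.snd h1 h2)))⟩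
noncomputable def kcc23_40_s : Sl2 kcc23_40 := ⟨_, fun h1 h2 => (esg_s.snd (pr_norm (kcc23_35_s.snd h1 h2)))⟩
noncomputable def kcc23_45_s : Sl2 kcc23_45 := ⟨_, fun h1 h2 => (gug_s.snd (pr_norm (kcc23_35_s.snd h1 h2)))⟩
noncomputable def kcc23_47_s : Sl2 kcc23_47 := ⟨_, fun h1 h2 => (pr_mul (pr_norm (kcc23_35_s.snd h1 h2)) (pr_nd (pr_inv (kcc23_36_s.snd h1 h2))))⟩
noncomputable def kcc23_48_s : Sl2 kcc23_48 := ⟨_, fun h1 h2 => (pr_scale 3 4 (kcc23_47_s.snd h1 h2))⟩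
noncomputable def kcc23_73_s : Sl2 kcc23_73 := ⟨_, fun h1 h2 => (cv1r_s.snd (pr_nd (ycg_s.snd h1)))⟩
noncomputable def kcc23_75_s : Sl2 kcc23_75 := ⟨_, fun h1 h2 => (pr_subr 1737 1000 (ycg_s.snd h1))⟩
noncomputable def kcc23_87_s : Sl2 kcc23_87 := ⟨_, fun h1 h2 => (pr_subr 73 40 (ycg_s.snd h1))⟩
noncomputable def kcc23_108_s : Sl2 kcc23_108 := ⟨_, fun h1 h2 => (pr_mul (kcc23_73_s.snd h1 h2) (pr_norm (pr_case (kcc23_75_s.snd h1 h2) (pr_add (pr_subr 10075751 790000 (pr_scale 852 79 (ycg_s.snd h1))) (pr_cmul (enc_norm (kcc23_11.enc h1.l h2)) (pr_norm (pr_csub (enc_rat _ 9374947 79000) (pr_scale 5987 79 (ycg_s.snd h1)))))) (pr_case (kcc23_87_s.snd h1 h2) (pr_add (pr_subr 11224259 880000 (pr_scale 9491 880 (ycg_s.snd h1))) (pr_cmul (enc_norm (kcc23_11.enc h1.l h2)) (pr_norm (pr_csub (enc_rat _ 10442869 88000) (pr_scale 6669 88 (ycg_s.snd h1)))))) (pr_cadd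 (enc_rat _ 34641 5000) (pr_cmul (enc_norm (kcc23_11.enc h1.l h2)) (pr_norm (pr_subr 31023 1000 (pr_scale 2846500000 177135409 h1)))))))))⟩
noncomputable def kcc23_s : Sl2 kcc23 := ⟨_, fun h1 h2 => (pr_norm (pr_case (kcc23_75_s.snd h1 h2) (pr_mul (pr_norm (kcc23_9_s.snd h1 h2)) (pr_norm (pr_add (pr_subr 5062610801 790000000 (pr_scale 7204853801 1185000000 (ycg_s.snd h1))) (pr_cmul (enc_norm (kcc23_11.enc h1.l h2)) (pr_norm (pr_subr 481883937 79000000 (pr_scale 767863937 118500000 (ycg_s.snd h1)))))))) (pr_case (kcc23_87_s.snd h1 h2) (pr_add (kcc23_108_s.snd h1 h2) (pr_mul (pr_norm (pr_mul (pr_norm (pr_sub (pr_add (pr_sub (pr_add (pr_cadd (enc_rat _ 3 4) (pr_scale 3 2 (kcc23_35_s.snd h1 h2))) (pr_scale 3 4 (pr_mul (pr_norm (kcc23_47_s.snd h1 h2)) (kcc23_45_s.snd h1 h2)))) (pr_mul (pr_norm (pr_sub (pr_mul (pr_norm (pr_mul (pr_norm (kcc23_48_s.snd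 h1 h2)) (pr_norm (pr_subn 3 (pr_nat 4 (kcc23_36_s.snd h1 h2)))))) (kcc23_40_s.snd h1 h2)) (pr_mul (qsg_s.snd (pr_norm (kcc23_35_s.snd h1 h2))) (pr_norm (pr_csub (enc_rat _ 1 2) (kcc23_48_s.snd h1 h2)))))) (pr_nd (pr_inv (pr_mul (pr_nd (pr_nat 2 (kcc23_40_s.snd h1 h2))) (kcc23_40_s.snd h1 h2)))))) (pr_mul (kcg_s.snd (pr_norm (pr_sub (pr_scale 3 4 (kcc23_35_s.snd h1 h2)) (pr_half (kcc23_36_s.snd h1 h2)))) h2) (pr_norm (pr_csub (enc_pnc _ 1) (pr_add (kcc23_45_s.snd h1 h2) (pr_nat 2 (kcc23_36_s.snd h1 h2))))))) (kcc23_108_s.snd h1 h2))) (pr_norm (pr_sub (kcc23_9_s.snd h1 h2) (kcc23_73_s.snd h1 h2))))) (pr_nd (pr_inv (pr_sub (kcc23_6_s.snd h1 h2) (kcc23_73_s.snd h1 h2)))))) (pr_mul (pr_norm (kcc23_9_s.snd h1 h2)) (pr_norm (pr_add (pr_csub (enc_rat _ 1295 167) (pr_scale 1212915927011 591632266060 h1)) (pr_cmul (enc_norm (kcc23_11.enc h1.l h2)) (pr_norm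 (pr_csub (enc_rat _ 595 167) (pr_scale 1037136588661 118326453212 h1))))))))))⟩
noncomputable def cv3m_s : Sl1 cv3m := ⟨_, fun h1 => (pr_norm (pr_add (pr_scale 2 5 (pr_addc (swg_s.snd h1) (enc_rat _ 1 2))) (pr_scale 3 5 (c3g_s.snd h1))))⟩
noncomputable def bf3q0_s : Sl2 bf3q0 := ⟨_, fun h1 h2 => (pr_norm (pr_case (pr_subr 263 1000 h1) (pr_add (pr_csub (enc_rat _ 1017 2500) (pr_scale 3463 2630 h1)) (pr_cmul (enc_norm (bf3q0_3.enc h1.l h2)) (pr_norm (pr_subr 23 250 (pr_scale 103 263 h1))))) (pr_case (pr_subr 159 500 h1) (pr_add (pr_csub (enc_rat _ 66113 137500) (pr_scale 879 550 h1)) (pr_cmul (enc_norm (bf3q0_3.enc h1.l h2)) (pr_norm (pr_subr 2459 27500 (pr_scale 21 55 h1))))) (pr_add (pr_csub (enc_rat _ 123517 182000) (pr_scale 4041 1820 h1)) (pr_cmul (enc_norm (bf3q0_3.enc h1.l h2)) (pr_norm (pr_subr 8377 91000 (pr_scale 71 182 h1))))))))⟩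
noncomputable def kf3q0_s : Sl2 kf3q0 := ⟨_, fun h1 h2 => (pr_norm (pr_mul (cv3m_s.snd h1) (bf3q0_s.snd h1 h2)))⟩
noncomputable def bx3q0_s : Sl2 bx3q0 := ⟨_, fun h1 h2 => (pr_norm (pr_case (pr_subr 263 1000 h1) (pr_case (pr_subr 11 125 h1) (pr_add (pr_csub (enc_rat _ 1701 10000) (pr_scale 81 880 h1)) (pr_cmul (enc_norm (bx3q0_3.enc h1.l h2)) (pr_norm (pr_csub (enc_rat _ 257 1000) (pr_scale 35 88 h1))))) (pr_add (pr_csub (enc_rat _ 76683 437500) (pr_scale 132 875 h1)) (pr_cmul (enc_norm (bx3q0_3.enc h1.l h2)) (pr_norm (pr_csub (enc_rat _ 26597 87500) (pr_scale 163 175 h1)))))) (pr_case (pr_subr 159 500 h1) (pr_add (pr_csub (enc_rat _ 6042 34375) (pr_scale 42 275 h1)) (pr_cmul (enc_norm (bx3q0_3.enc h1.l h2)) (pr_norm (pr_subr 437 55000 (pr_scale 14 55 h1))))) (pr_add (pr_csub (enc_rat _ 6837 45500) (pr_scale 33 455 h1)) (pr_cmul (enc_norm (bx3q0_3.enc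 h1.l h2)) (pr_norm (pr_subr 41 3250 (pr_scale 7 26 h1))))))))⟩
noncomputable def l3q0_s : Sl2 l3q0 := ⟨_, fun h1 h2 => (pr_norm (pr_mul (cv3m_s.snd h1) (bx3q0_s.snd h1 h2)))⟩
noncomputable def bd3q0_s : Sl2 bd3q0 := ⟨_, fun h1 h2 => (pr_norm (pr_case (pr_subr 7 40 h1) (pr_add (pr_subr 6777 2500 (pr_neg (pr_scale 211 250 h1))) (pr_cmul (enc_norm (bd3q0_3.enc h1.l h2)) (pr_norm (pr_subr 2551 500 (pr_scale 1047 175 h1))))) (pr_add (pr_subr 7047 2000 (pr_scale 19 5 h1)) (pr_cmul (enc_norm (bd3q0_3.enc h1.l h2)) (pr_norm (pr_subr 63901 13000 (pr_scale 1598 325 h1)))))))⟩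
noncomputable def kc3q0_s : Sl2 kc3q0 := ⟨_, fun h1 h2 => (pr_norm (pr_mul (cv3m_s.snd h1) (bd3q0_s.snd h1 h2)))⟩
noncomputable def bf3q1_s : Sl2 bf3q1 := ⟨_, fun h1 h2 => (pr_norm (pr_case (pr_subr 207 250 h1) (pr_add (pr_subr 62057 820000 (pr_scale 3579 3280 h1)) (pr_cmul (enc_norm (bf3q1_3.enc h1.l h2)) (pr_norm (pr_subr 8763 82000 (pr_neg (pr_scale 67 328 h1)))))) (pr_add (pr_subr 1 860 (pr_scale 861 860 h1)) (pr_cmul (enc_norm (bf3q1_3.enc h1.l h2)) (pr_norm (pr_subr 69 43 (pr_scale 69 43 h1)))))))⟩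
noncomputable def kf3q1_s : Sl2 kf3q1 := ⟨_, fun h1 h2 => (pr_norm (pr_mul (cv3m_s.snd h1) (bf3q1_s.snd h1 h2)))⟩
noncomputable def bx3q1_12_s : Sl2 bx3q1_12 := ⟨_, fun h1 h2 => (pr_scale 14 55 h1)⟩
noncomputable def bx3q1_s : Sl2 bx3q1 := ⟨_, fun h1 h2 => (pr_norm (pr_case (pr_subr 609 1000 h1) (pr_case (pr_subr 111 200 h1) (pr_add (pr_csub (enc_rat _ 411 2750) (pr_scale 39 550 h1)) (pr_cmul (enc_norm (bx3q1_3.enc h1.l h2)) (pr_norm (pr_subr 29 5500 (bx3q1_12_s.snd h1 h2))))) (pr_add (pr_csub (enc_rat _ 34063 180000) (pr_scale 77 540 h1)) (pr_cmul (enc_norm (bx3q1_3.enc h1.l h2)) (pr_norm (pr_subr 109 6000 (pr_scale 5 18 h1)))))) (pr_case (pr_subr 83 125 h1) (pr_add (pr_csub (enc_rat _ 9001 34375) (pr_scale 72 275 h1)) (pr_cmul (enc_norm (bx3q1_3.enc h1.l h2)) (pr_norm (pr_subr 221 55000 (bx3q1_12_s.snd h1 h2))))) (pr_case (pr_subr 207 250 h1)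 (pr_add (pr_csub (enc_rat _ 5373 20500) (pr_scale 43 164 h1)) (pr_cmul (enc_norm (bx3q1_3.enc h1.l h2)) (pr_norm (pr_addc (pr_scale 13 164 h1) (enc_rat _ 4607 41000))))) (pr_add (pr_csub (enc_rat _ 45 172) (pr_scale 45 172 h1)) (pr_cmul (enc_norm (bx3q1_3.enc h1.l h2)) (pr_norm (pr_csub (enc_rat _ 89 86) (pr_scale 89 86 h1)))))))))⟩
noncomputable def l3q1_s : Sl2 l3q1 := ⟨_, fun h1 h2 => (pr_norm (pr_mul (cv3m_s.snd h1) (bx3q1_s.snd h1 h2)))⟩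
noncomputable def bd3q1_s : Sl2 bd3q1 := ⟨_, fun h1 h2 => (pr_norm (pr_add (pr_subr 3247 1000 (pr_scale 3247 1000 h1)) (pr_cmul (enc_norm (enc_subr 25 32 h2)) (pr_norm (pr_subr 2457 500 (pr_scale 2457 500 h1))))))⟩
noncomputable def kc3q1_s : Sl2 kc3q1 := ⟨_, fun h1 h2 => (pr_norm (pr_mul (cv3m_s.snd h1) (bd3q1_s.snd h1 h2)))⟩
noncomputable def cv3p_s : Sl1 cv3p := ⟨_, fun h1 => (pr_norm (pr_add (pr_scale 2 5 (pr_subr 1 2 (swg_s.snd h1))) (pr_scale 3 5 (c3g_s.snd h1))))⟩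
noncomputable def bf3q2_s : Sl2 bf3q2 := ⟨_, fun h1 h2 => (pr_norm (pr_case (pr_subr 277 250 h1) (pr_add (pr_csub (enc_rat _ 577159 270000) (pr_scale 152 135 h1)) (pr_cmul (enc_norm (bf3q2_3.enc h1.l h2)) (pr_norm (pr_csub (enc_rat _ 45409 4500) (pr_scale 329 36 h1))))) (pr_case (pr_subr 577 500 h1) (pr_add (pr_csub (enc_rat _ 98339 46000) (pr_scale 259 230 h1)) (pr_cmul (enc_norm (bf3q2_3.enc h1.l h2)) (pr_norm (pr_csub (enc_rat _ 1855 184) (pr_scale 210 23 h1))))) (pr_add (pr_csub (enc_rat _ 3697097 1730000) (pr_scale 1947 1730 h1)) (pr_cmul (enc_norm (bf3q2_3.enc h1.l h2)) (pr_norm (pr_subr 397219 173000 (pr_scale 276 173 h1))))))))⟩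
noncomputable def kf3q2_s : Sl2 kf3q2 := ⟨_, fun h1 h2 => (pr_norm (pr_mul (cv3p_s.snd h1) (bf3q2_s.snd h1 h2)))⟩
noncomputable def bx3q2_s : Sl2 bx3q2 := ⟨_, fun h1 h2 => (pr_norm (pr_case (pr_subr 127 100 h1) (pr_case (pr_subr 17 16 h1) (pr_add (pr_csub (enc_rat _ 2949 5000) (pr_scale 71 125 h1)) (pr_cmul (enc_norm (bx3q2_3.enc h1.l h2)) (pr_norm (pr_subr 617 50 (pr_scale 308 25 h1))))) (pr_add (pr_subr 108323 415000 (pr_scale 483 2075 h1)) (pr_cmul (enc_norm (bx3q2_3.enc h1.l h2)) (pr_norm (pr_csub (enc_rat _ 245 83) (pr_scale 172 83 h1)))))) (pr_case (pr_subr 277 200 h1) (pr_add (pr_subr 30057 115000 (pr_scale 134 575 h1)) (pr_cmul (enc_norm (bx3q2_3.enc h1.l h2)) (pr_norm (pr_csub (enc_rat _ 9649 11500) (pr_scale 47 115 h1))))) (pr_case (pr_subr 1443 1000 h1) (pr_add (pr_subr 35021 72500 (pr_scale 57 145 h1)) (pr_cmul (enc_norm (bx3q2_3.enc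 h1.l h2)) (pr_norm (pr_csub (enc_rat _ 24537 29000) (pr_scale 12 29 h1))))) (pr_add (pr_subr 127821 190000 (pr_scale 299 570 h1)) (pr_cmul (enc_norm (bx3q2_3.enc h1.l h2)) (pr_norm (pr_csub (enc_rat _ 651 760) (pr_scale 8 19 h1)))))))))⟩
noncomputable def l3q2_s : Sl2 l3q2 := ⟨_, fun h1 h2 => (pr_norm (pr_mul (cv3p_s.snd h1) (bx3q2_s.snd h1 h2)))⟩
noncomputable def bd3q2_s : Sl2 bd3q2 := ⟨_, fun h1 h2 => (pr_norm (pr_add (pr_subr 5533 1000 (pr_scale 27123 5000 h1)) (pr_cmul (enc_norm (enc_subr 25 32 h2)) (pr_norm (pr_csub (enc_rat _ 10337 1000) (pr_scale 967 250 h1))))))⟩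
noncomputable def kc3q2_s : Sl2 kc3q2 := ⟨_, fun h1 h2 => (pr_norm (pr_mul (cv3p_s.snd h1) (bd3q2_s.snd h1 h2)))⟩
noncomputable def xc33_s : Sl1 xc33 := ⟨_, fun h1 => (pr_norm (pr_add (pr_scale 2 5 (pr_subr 1 2 (swg_s.snd (pr_nd (ycg_s.snd h1))))) (pr_scale 3 5 h1)))⟩
noncomputable def kfc33_s : Sl2 kfc33 := ⟨_, fun h1 h2 => (pr_norm (pr_mul (pr_norm (pr_add (pr_scale 2 5 (pr_subr 1 2 (swg_s.snd (pr_nd (ycg_s.snd h1))))) (pr_scale 3 5 h1))) (pr_norm (pr_case (pr_subr 73 40 (ycg_s.snd h1)) (pr_case (pr_subr 1737 1000 (ycg_s.snd h1)) (pr_add (pr_subr 891627 395000 (pr_scale 104 79 (ycg_s.snd h1))) (pr_cmul (enc_norm (kfc33_11.enc h1.l h2)) (pr_norm (pr_subr 344421 79000 (pr_scale 610 237 (ycg_s.snd h1)))))) (pr_add (pr_subr 1987311 880000 (pr_scale 1159 880 (ycg_s.snd h1))) (pr_cmul (enc_norm (kfc33_11.enc h1.l h2)) (pr_norm (pr_subr 191397 44000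 (pr_scale 113 44 (ycg_s.snd h1))))))) (pr_case (pr_csub (enc_rat _ 429616471 1000000000) h1) (pr_add (pr_csub (enc_rat _ 1394402388601 2789251650000) (pr_scale 27920000 55785033 h1)) (pr_cmul (enc_norm (kfc33_11.enc h1.l h2)) (pr_norm (pr_csub (enc_rat _ 3575062838273 278925165000) (pr_scale 982600000 55785033 h1))))) (pr_add (pr_csub (enc_rat _ 1 2) (pr_scale 215100000 429616471 h1)) (pr_cmul (enc_norm (kfc33_11.enc h1.l h2)) (pr_nd (pr_scale 5250000000 429616471 h1)))))))))⟩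
noncomputable def lc33_s : Sl2 lc33 := ⟨_, fun h1 h2 => (pr_norm (pr_mul (pr_norm (pr_add (pr_scale 2 5 (pr_subr 1 2 (swg_s.snd (pr_nd (ycg_s.snd h1))))) (pr_scale 3 5 h1))) (pr_norm (pr_case (pr_subr 73 40 (ycg_s.snd h1)) (pr_case (pr_subr 1737 1000 (ycg_s.snd h1)) (pr_add (pr_subr 531861 790000 (pr_scale 622 1185 (ycg_s.snd h1))) (pr_cmul (enc_norm (lc33_11.enc h1.l h2)) (pr_norm (pr_csub (enc_rat _ 2671 3160) (pr_scale 98 237 (ycg_s.snd h1)))))) (pr_add (pr_subr 26937 40000 (pr_scale 21 40 (ycg_s.snd h1))) (pr_cmul (enc_norm (lc33_11.enc h1.l h2)) (pr_norm (pr_csub (enc_rat _ 18427 22000) (pr_scale 9 22 (ycg_s.snd h1))))))) (pr_case (pr_csub (enc_rat _ 429616471 1000000000) h1) (pr_add (pr_csub (enc_rat _ 254032070019 309916850000) (pr_scale 4680000 6198337 h1)) (pr_cmul (enc_norm (lc33_11.enc h1.l h2)) (pr_norm (pr_subr 27516477253 55785033000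 (pr_scale 46000000 55785033 h1))))) (pr_add (pr_addc (pr_scale 52330500 429616471 h1) (enc_rat _ 885939 2000000)) (pr_cmul (enc_norm (lc33_11.enc h1.l h2)) (pr_norm (pr_csub (enc_rat _ 216319 100000) (pr_scale 2302190000 429616471 h1))))))))))⟩
noncomputable def kcc33_s : Sl2 kcc33 := ⟨_, fun h1 h2 => (pr_norm (pr_mul (pr_norm (pr_add (pr_scale 2 5 (pr_subr 1 2 (swg_s.snd (pr_nd (ycg_s.snd h1))))) (pr_scale 3 5 h1))) (pr_norm (pr_case (pr_subr 1737 1000 (ycg_s.snd h1)) (pr_add (pr_subr 4371419 790000 (pr_scale 12857 2370 (ycg_s.snd h1))) (pr_cmul (enc_norm (kcc33_11.enc h1.l h2)) (pr_norm (pr_csub (enc_rat _ 163453 15800) (pr_scale 306 79 (ycg_s.snd h1)))))) (pr_case (pr_subr 73 40 (ycg_s.snd h1)) (pr_add (pr_subr 44269 8000 (pr_scale 217 40 (ycg_s.snd h1))) (pr_cmul (enc_norm (kcc33_11.enc h1.l h2)) (pr_norm (pr_csub (enc_rat _ 227219 22000)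 (pr_scale 85 22 (ycg_s.snd h1)))))) (pr_add (pr_csub (enc_rat _ 1295 167) (pr_scale 141427750000 29581613303 h1)) (pr_cmul (enc_norm (kcc33_11.enc h1.l h2)) (pr_norm (pr_csub (enc_rat _ 595 167) (pr_scale 11935250000 29581613303 h1))))))))))⟩
noncomputable def kf4q0_s : Sl2 kf4q0 := ⟨_, fun h1 h2 => (pr_norm (pr_sub (pr_mul h1 (kcg_s.snd (pr_nd (pr_half h1)) h2)) (pr_mul (pr_norm (pr_mul (pr_nd (pr_sq h1)) (pr_norm (pr_addc (c3g_s.snd h1) (enc_rat _ 3 2))))) (pr_nd (pr_inv (pr_mul (pr_norm (pr_csub (enc_pnc _ 1) h1)) (pr_norm (pr_cadd (enc_pnc _ 1) h1))))))))⟩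
noncomputable def l4q0_6_s : Sl2 l4q0_6 := ⟨_, fun h1 h2 => (pr_half h1)⟩
noncomputable def l4q0_7_s : Sl2 l4q0_7 := ⟨_, fun h1 h2 => (pr_half (c3g_s.snd h1))⟩
noncomputable def l4q0_8_s : Sl2 l4q0_8 := ⟨_, fun h1 h2 => (pr_scale 1 4 h1)⟩
noncomputable def l4q0_s : Sl2 l4q0 := ⟨_, fun h1 h2 => (pr_norm (pr_add (txg_s.snd (pr_nd (l4q0_6_s.snd h1 h2)) (pr_norm (pr_sub (l4q0_7_s.snd h1 h2) (l4q0_8_s.snd h1 h2))) h2) (txg_s.snd (pr_nd (pr_neg (l4q0_6_s.snd h1 h2))) (pr_norm (pr_add (l4q0_7_s.snd h1 h2) (l4q0_8_s.snd h1 h2))) h2)))⟩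
noncomputable def kc4q0_6_s : Sl2 kc4q0_6 := ⟨_, fun h1 h2 => (pr_half h1)⟩
noncomputable def kc4q0_s : Sl2 kc4q0 := ⟨_, fun h1 h2 => (pr_norm (pr_case (pr_subr 167 1000 (kc4q0_6_s.snd h1 h2)) (pr_add (pr_subr 65809 10000 (pr_scale 1116 167 h1)) (pr_cmul (enc_norm (kc4q0_3.enc h1.l h2)) (pr_norm (pr_subr 6161 500 (pr_scale 4383 334 h1))))) (pr_case (pr_subr 333 1000 (kc4q0_6_s.snd h1 h2)) (pr_add (pr_subr 10924403 1660000 (pr_scale 22187 3320 h1)) (pr_cmul (enc_norm (kc4q0_3.enc h1.l h2)) (pr_norm (pr_subr 1022663 83000 (pr_scale 1089 83 h1))))) (pr_add (pr_subr 10651 1670 (pr_scale 10651 1670 h1)) (pr_cmul (enc_norm (kc4q0_3.enc h1.l h2)) (pr_norm (pr_subr 3583 334 (pr_scale 3583 334 h1))))))))⟩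
noncomputable def kf4q1_s : Sl2 kf4q1 := ⟨_, fun h1 h2 => (pr_norm (pr_add (pr_mul (pr_norm (pr_mul h1 (pr_norm (pr_addc (c3g_s.snd h1) (enc_rat _ 3 2))))) (pr_nd (pr_inv (pr_cadd (enc_pnc _ 1) h1)))) (pr_mul (pr_norm (pr_subn 1 h1)) (kcg_s.snd (pr_nd (pr_half h1)) h2))))⟩
noncomputable def l4q1_7_s : Sl2 l4q1_7 := ⟨_, fun h1 h2 => (pr_half h1)⟩
noncomputable def l4q1_8_s : Sl2 l4q1_8 := ⟨_, fun h1 h2 => (pr_half (c3g_s.snd h1))⟩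
noncomputable def l4q1_9_s : Sl2 l4q1_9 := ⟨_, fun h1 h2 => (pr_scale 1 4 h1)⟩
noncomputable def l4q1_s : Sl2 l4q1 := ⟨_, fun h1 h2 => (pr_norm (pr_add (txg_s.snd (pr_nd (l4q1_7_s.snd h1 h2)) (pr_norm (pr_sub (l4q1_8_s.snd h1 h2) (l4q1_9_s.snd h1 h2))) h2) (txg_s.snd (pr_nd (pr_neg (l4q1_7_s.snd h1 h2))) (pr_norm (pr_add (l4q1_8_s.snd h1 h2) (l4q1_9_s.snd h1 h2))) h2)))⟩
noncomputable def kc4q1_7_s : Sl2 kc4q1_7 := ⟨_, fun h1 h2 => (pr_half h1)⟩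
noncomputable def kc4q1_s : Sl2 kc4q1 := ⟨_, fun h1 h2 => (pr_norm (pr_case (pr_subr 167 1000 (kc4q1_7_s.snd h1 h2)) (pr_add (pr_subr 65809 10000 (pr_scale 1116 167 h1)) (pr_cmul (enc_norm (kc4q1_3.enc h1.l h2)) (pr_norm (pr_subr 6161 500 (pr_scale 4383 334 h1))))) (pr_case (pr_subr 333 1000 (kc4q1_7_s.snd h1 h2)) (pr_add (pr_subr 10924403 1660000 (pr_scale 22187 3320 h1)) (pr_cmul (enc_norm (kc4q1_3.enc h1.l h2)) (pr_norm (pr_subr 1022663 83000 (pr_scale 1089 83 h1))))) (pr_add (pr_subr 10651 1670 (pr_scale 10651 1670 h1)) (pr_cmul (enc_norm (kc4q1_3.enc h1.l h2)) (pr_norm (pr_subr 3583 334 (pr_scale 3583 334 h1))))))))⟩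
noncomputable def kf4q2_s : Sl2 kf4q2 := ⟨_, fun h1 h2 => (pr_norm (pr_add (pr_mul (pr_norm (pr_mul (pr_norm (pr_sub (pr_nat 2 (c3g_s.snd h1)) h1)) (pr_norm (pr_sub (pr_addc (c3g_s.snd h1) (enc_pnc _ 3)) (pr_scale 3 2 h1))))) (pr_nd (pr_inv (pr_nat 4 (pr_csub (enc_pnc _ 2) h1))))) (pr_mul (pr_norm (pr_subn 1 h1)) (kcg_s.snd (pr_norm (pr_sub (pr_scale 1 4 h1) (pr_half (c3g_s.snd h1)))) h2))))⟩
noncomputable def l4q2_7_s : Sl2 l4q2_7 := ⟨_, fun h1 h2 => (pr_half (c3g_s.snd h1))⟩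
noncomputable def l4q2_8_s : Sl2 l4q2_8 := ⟨_, fun h1 h2 => (pr_scale 1 4 h1)⟩
noncomputable def l4q2_9_s : Sl2 l4q2_9 := ⟨_, fun h1 h2 => (pr_sub (l4q2_7_s.snd h1 h2) (l4q2_8_s.snd h1 h2))⟩
noncomputable def l4q2_12_s : Sl2 l4q2_12 := ⟨_, fun h1 h2 => (pr_add (pr_scale 1 4 (c3g_s.snd h1)) (pr_scale 3 8 h1))⟩
noncomputable def l4q2_14_s : Sl2 l4q2_14 := ⟨_, fun h1 h2 => (pr_half (l4q2_9_s.snd h1 h2))⟩
noncomputable def l4q2_s : Sl2 l4q2 := ⟨_, fun h1 h2 => (pr_norm (pr_sub (pr_nat 2 (txg_s.snd (pr_norm (pr_sub (l4q2_8_s.snd h1 h2) (l4q2_7_s.snd h1 h2))) (pr_norm (pr_add (l4q2_12_s.snd h1 h2) (l4q2_14_s.snd h1 h2))) h2)) (txg_s.snd (pr_norm (l4q2_9_s.snd h1 h2)) (pr_norm (pr_sub (l4q2_12_s.snd h1 h2) (l4q2_14_s.snd h1 h2))) h2)))⟩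
noncomputable def kc4q2_9_s : Sl2 kc4q2_9 := ⟨_, fun h1 h2 => (pr_sub (pr_half (c3g_s.snd h1)) (pr_scale 1 4 h1))⟩
noncomputable def kc4q2_29_s : Sl2 kc4q2_29 := ⟨_, fun h1 h2 => (pr_scale 967 166 (kc4q2_9_s.snd h1 h2))⟩
noncomputable def kc4q2_s : Sl2 kc4q2 := ⟨_, fun h1 h2 => (pr_norm (pr_case (kc4q2_9_s.snd h1 h2) (pr_case (pr_addc (kc4q2_9_s.snd h1 h2) (enc_rat _ 333 1000)) (pr_add (pr_addc (pr_scale 2590 167 (kc4q2_9_s.snd h1 h2)) (enc_rat _ 1295 167)) (pr_cmul (enc_norm (kc4q2_3.enc h1.l h2)) (pr_norm (pr_addc (pr_scale 1190 167 (kc4q2_9_s.snd h1 h2)) (enc_rat _ 595 167))))) (pr_case (pr_addc (kc4q2_9_s.snd h1 h2) (enc_rat _ 167 1000)) (pr_add (pr_csub (enc_rat _ 4165867 1660000) (pr_scale 401 1660 (kc4q2_9_s.snd h1 h2))) (pr_cmul (enc_norm (kc4q2_3.enc h1.l h2)) (pr_norm (pr_addc (kc4q2_29_s.snd h1 h2) (enc_rat _ 519551 166000))))) (pr_add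 (pr_csub (enc_rat _ 3137 1250) (pr_scale 403 1670 (kc4q2_9_s.snd h1 h2))) (pr_cmul (enc_norm (kc4q2_3.enc h1.l h2)) (pr_norm (pr_addc (pr_scale 974 167 (kc4q2_9_s.snd h1 h2)) (enc_rat _ 3131 1000))))))) (pr_case (pr_subr 167 1000 (kc4q2_9_s.snd h1 h2)) (pr_add (pr_csub (enc_rat _ 3137 1250) (pr_scale 202 835 (kc4q2_9_s.snd h1 h2))) (pr_cmul (enc_norm (kc4q2_3.enc h1.l h2)) (pr_norm (pr_addc (pr_scale 973 167 (kc4q2_9_s.snd h1 h2)) (enc_rat _ 3131 1000))))) (pr_case (pr_subr 333 1000 (kc4q2_9_s.snd h1 h2)) (pr_add (pr_csub (enc_rat _ 520709 207500) (pr_scale 20 83 (kc4q2_9_s.snd h1 h2))) (pr_cmul (enc_norm (kc4q2_3.enc h1.l h2)) (pr_norm (pr_addc (kc4q2_29_s.snd h1 h2) (enc_rat _ 20791 6640))))) (pr_add (pr_csub (enc_rat _ 6073 835) (pr_scale 12146 835 (kc4q2_9_s.snd h1 h2))) (pr_cmul (enc_norm (kc4q2_3.enc h1.l h2)) (pr_norm (pr_csub (enc_rat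 _ 5071 334) (pr_scale 5071 167 (kc4q2_9_s.snd h1 h2))))))))))⟩
noncomputable def kfc43_s : Sl2 kfc43 := ⟨_, fun h1 h2 => (pr_norm (pr_sub (pr_mul (pr_norm (pr_subn 2 (ycg_s.snd h1))) (kcg_s.snd (pr_norm (pr_sub (pr_scale 1 4 (ycg_s.snd h1)) (pr_half h1))) h2)) (pr_mul (pr_norm (pr_mul (pr_norm (pr_sub (pr_nat 2 h1) (ycg_s.snd h1))) (pr_norm (pr_sub (pr_addc h1 (enc_pnc _ 3)) (pr_scale 3 2 (ycg_s.snd h1)))))) (pr_nd (pr_inv (pr_nat 4 (pr_subn 1 (ycg_s.snd h1))))))))⟩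
noncomputable def lc43_7_s : Sl2 lc43_7 := ⟨_, fun h1 h2 => (pr_half h1)⟩
noncomputable def lc43_8_s : Sl2 lc43_8 := ⟨_, fun h1 h2 => (pr_scale 1 4 (ycg_s.snd h1))⟩
noncomputable def lc43_9_s : Sl2 lc43_9 := ⟨_, fun h1 h2 => (pr_sub (lc43_7_s.snd h1 h2) (lc43_8_s.snd h1 h2))⟩
noncomputable def lc43_12_s : Sl2 lc43_12 := ⟨_, fun h1 h2 => (pr_add (pr_scale 1 4 h1) (pr_scale 3 8 (ycg_s.snd h1)))⟩
noncomputable def lc43_14_s : Sl2 lc43_14 := ⟨_, fun h1 h2 => (pr_half (lc43_9_s.snd h1 h2))⟩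
noncomputable def lc43_s : Sl2 lc43 := ⟨_, fun h1 h2 => (pr_norm (pr_sub (pr_nat 2 (txg_s.snd (pr_norm (pr_sub (lc43_8_s.snd h1 h2) (lc43_7_s.snd h1 h2))) (pr_norm (pr_add (lc43_12_s.snd h1 h2) (lc43_14_s.snd h1 h2))) h2)) (txg_s.snd (pr_norm (lc43_9_s.snd h1 h2)) (pr_norm (pr_sub (lc43_12_s.snd h1 h2) (lc43_14_s.snd h1 h2))) h2)))⟩
noncomputable def kcc43_9_s : Sl2 kcc43_9 := ⟨_, fun h1 h2 => (pr_sub (pr_half h1) (pr_scale 1 4 (ycg_s.snd h1)))⟩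
noncomputable def kcc43_29_s : Sl2 kcc43_29 := ⟨_, fun h1 h2 => (pr_scale 967 166 (kcc43_9_s.snd h1 h2))⟩
noncomputable def kcc43_s : Sl2 kcc43 := ⟨_, fun h1 h2 => (pr_norm (pr_case (kcc43_9_s.snd h1 h2) (pr_case (pr_addc (kcc43_9_s.snd h1 h2) (enc_rat _ 333 1000)) (pr_add (pr_addc (pr_scale 2590 167 (kcc43_9_s.snd h1 h2)) (enc_rat _ 1295 167)) (pr_cmul (enc_norm (kcc43_4.enc h1.l h2)) (pr_norm (pr_addc (pr_scale 1190 167 (kcc43_9_s.snd h1 h2)) (enc_rat _ 595 167))))) (pr_case (pr_addc (kcc43_9_s.snd h1 h2) (enc_rat _ 167 1000)) (pr_add (pr_csub (enc_rat _ 4165867 1660000) (pr_scale 401 1660 (kcc43_9_s.snd h1 h2))) (pr_cmul (enc_norm (kcc43_4.enc h1.l h2)) (pr_norm (pr_addc (kcc43_29_s.snd h1 h2) (enc_rat _ 519551 166000))))) (pr_add (pr_csub (enc_rat _ 3137 1250) (pr_scale 403 1670 (kcc43_9_s.snd h1 h2))) (pr_cmul (enc_norm (kcc43_4.enc h1.l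 h2)) (pr_norm (pr_addc (pr_scale 974 167 (kcc43_9_s.snd h1 h2)) (enc_rat _ 3131 1000))))))) (pr_case (pr_subr 167 1000 (kcc43_9_s.snd h1 h2)) (pr_add (pr_csub (enc_rat _ 3137 1250) (pr_scale 202 835 (kcc43_9_s.snd h1 h2))) (pr_cmul (enc_norm (kcc43_4.enc h1.l h2)) (pr_norm (pr_addc (pr_scale 973 167 (kcc43_9_s.snd h1 h2)) (enc_rat _ 3131 1000))))) (pr_case (pr_subr 333 1000 (kcc43_9_s.snd h1 h2)) (pr_add (pr_csub (enc_rat _ 520709 207500) (pr_scale 20 83 (kcc43_9_s.snd h1 h2))) (pr_cmul (enc_norm (kcc43_4.enc h1.l h2)) (pr_norm (pr_addc (kcc43_29_s.snd h1 h2) (enc_rat _ 20791 6640))))) (pr_add (pr_csub (enc_rat _ 6073 835) (pr_scale 12146 835 (kcc43_9_s.snd h1 h2))) (pr_cmul (enc_norm (kcc43_4.enc h1.l h2)) (pr_norm (pr_csub (enc_rat _ 5071 334) (pr_scale 5071 167 (kcc43_9_s.snd h1 h2))))))))))⟩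
noncomputable def gB0q0 : Gn := ⟨ndB0q0, c1g_s, kf0q0_s, l0q0_s, false⟩
noncomputable def dB0q0 : CnW := ⟨cd0q0, kc0q0_s⟩
noncomputable def gB0q1 : Gn := ⟨ndB0q1, c1g_s, kf0q1_s, l0q1_s, false⟩
noncomputable def dB0q1 : CnW := ⟨cd0q1, kc0q1_s⟩
noncomputable def gB0q2 : Gn := ⟨ndB0q2, idf_s, kfc02_s, lc02_s, true⟩
noncomputable def dB0q2 : CnW := ⟨cd0q2, kcc02_s⟩
noncomputable def gB1q0 : Gn := ⟨ndB1q0, cv1m_s, kf1q0_s, l1q0_s, false⟩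
noncomputable def dB1q0 : CnW := ⟨cd1q0, kc1q0_s⟩
noncomputable def gB1q1 : Gn := ⟨ndB1q1, cv1m_s, kf1q1_s, l1q1_s, false⟩
noncomputable def dB1q1 : CnW := ⟨cd1q1, kc1q1_s⟩
noncomputable def gB1q2 : Gn := ⟨ndB1q2, cv1p_s, kf1q2_s, l1q2_s, false⟩
noncomputable def dB1q2 : CnW := ⟨cd1q2, kc1q2_s⟩
noncomputable def gB1q3 : Gn := ⟨ndB1q3, cv1r_s, kf1q3_s, l1q3_s, false⟩
noncomputable def dB1q3 : CnW := ⟨cd1q3, kc1q3_s⟩
noncomputable def gB2q0 : Gn := ⟨ndB2q0, cv2m_s, kf2q0_s, l2q0_s, false⟩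
noncomputable def dB2q0 : CnW := ⟨cd2q0, kc2q0_s⟩
noncomputable def gB2q1 : Gn := ⟨ndB2q1, cv2m_s, kf2q1_s, l2q1_s, false⟩
noncomputable def dB2q1 : CnW := ⟨cd2q1, kc2q1_s⟩
noncomputable def gB2q2 : Gn := ⟨ndB2q2, cv2p_s, kf2q2_s, l2q2_s, false⟩
noncomputable def dB2q2 : CnW := ⟨cd2q2, kc2q2_s⟩
noncomputable def gB2q3 : Gn := ⟨ndB2q3, xc23_s, kfc23_s, lc23_s, false⟩
noncomputable def dB2q3 : CnW := ⟨cd2q3, kcc23_s⟩
noncomputable def gB3q0 : Gn := ⟨ndB3q0, cv3m_s, kf3q0_s, l3q0_s, false⟩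
noncomputable def dB3q0 : CnW := ⟨cd3q0, kc3q0_s⟩
noncomputable def gB3q1 : Gn := ⟨ndB3q1, cv3m_s, kf3q1_s, l3q1_s, false⟩
noncomputable def dB3q1 : CnW := ⟨cd3q1, kc3q1_s⟩
noncomputable def gB3q2 : Gn := ⟨ndB3q2, cv3p_s, kf3q2_s, l3q2_s, false⟩
noncomputable def dB3q2 : CnW := ⟨cd3q2, kc3q2_s⟩
noncomputable def gB3q3 : Gn := ⟨ndB3q3, xc33_s, kfc33_s, lc33_s, false⟩
noncomputable def dB3q3 : CnW := ⟨cd3q3, kcc33_s⟩
noncomputable def gB4q0 : Gn := ⟨ndB4q0, c3g_s, kf4q0_s, l4q0_s, false⟩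
noncomputable def dB4q0 : CnW := ⟨cd4q0, kc4q0_s⟩
noncomputable def gB4q1 : Gn := ⟨ndB4q1, c3g_s, kf4q1_s, l4q1_s, false⟩
noncomputable def dB4q1 : CnW := ⟨cd4q1, kc4q1_s⟩
noncomputable def gB4q2 : Gn := ⟨ndB4q2, c3g_s, kf4q2_s, l4q2_s, false⟩
noncomputable def dB4q2 : CnW := ⟨cd4q2, kc4q2_s⟩
noncomputable def gB4q3 : Gn := ⟨ndB4q3, idf_s, kfc43_s, lc43_s, false⟩
noncomputable def dB4q3 : CnW := ⟨cd4q3, kcc43_s⟩
noncomputable def gB0q3 : Gn := gz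
noncomputable def dB0q3 : CnW := ⟨fz2, fz2_s⟩
noncomputable def gB (j : Fin 5) (q : ℕ) : Gn :=
  match j, q with
  | 0, 0 => gB0q0
  | 0, 1 => gB0q1
  | 0, 2 => gB0q2
  | 0, 3 => gB0q3
  | 1, 0 => gB1q0
  | 1, 1 => gB1q1
  | 1, 2 => gB1q2
  | 1, 3 => gB1q3
  | 2, 0 => gB2q0
  | 2, 1 => gB2q1
  | 2, 2 => gB2q2
  | 2, 3 => gB2q3
  | 3, 0 => gB3q0
  | 3, 1 => gB3q1
  | 3, 2 => gB3q2
  | 3, 3 => gB3q3
  | 4, 0 => gB4q0
  | 4, 1 => gB4q1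
  | 4, 2 => gB4q2
  | 4, 3 => gB4q3
  | _, _ => gB0q0

noncomputable def dB (j : Fin 5) (q : ℕ) : CnW :=
  match j, q with
  | 0, 0 => dB0q0
  | 0, 1 => dB0q1
  | 0, 2 => dB0q2
  | 0, 3 => dB0q3
  | 1, 0 => dB1q0
  | 1, 1 => dB1q1
  | 1, 2 => dB1q2
  | 1, 3 => dB1q3
  | 2, 0 => dB2q0
  | 2, 1 => dB2q1
  | 2, 2 => dB2q2
  | 2, 3 => dB2q3
  | 3, 0 => dB3q0
  | 3, 1 => dB3q1
  | 3, 2 => dB3q2
  | 3, 3 => dB3q3
  | 4, 0 => dB4q0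
  | 4, 1 => dB4q1
  | 4, 2 => dB4q2
  | 4, 3 => dB4q3
  | _, _ => dB0q0

noncomputable def c0B : Fn1 := ⟨fun _ => pone, fun _ => 1, fun _ => enc_one _⟩

end Pool.Agent.Strip051.G.I7625_8000.Tab
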