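import Pool.Agent.Strip051.G.I7625_8000.StH
import Pool.Agent.Strip051.G.I7625_8000.StF

/-! # Unit strips 8 (generated) -/

set_option linter.all false
set_option maxRecDepth 100000

namespace Pool.Agent.Strip051.G.I7625_8000.Tab.St.C

open Pool.Agent.Strip051.PB Pool.Agent.Strip051.PB.T Pool.Agent.StripNear Pool.Agent.Strip051.LC
open Pool.Agent.Strip051.G.I7625_8000.Tab Pool.Agent.Strip051.G.I7625_8000.Tab.St

noncomputable def cut_A00pm_202_s1 : Cut := Cut.of [[⟨4, 0, 0, 1449551462⟩], [⟨0, 1, 0, 67108864⟩, ⟨1, 0, 0, 67108864⟩, ⟨2, 1, 0, 67108864⟩]]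

noncomputable def f_A00pm_202_s1 : ℕ → ℕ → ℕ → ℕ → Bool := onCell 0 536870912 1073741824 536870912 818728140 40265320
    (rowF 1 true true false .pp 2 0 2 (qsf 0 536870912 0 536870912 2) ndB0q2 ndB0q0 pcB2 cut_A00pm_202_s1 Ext.none)

def k0_A00pm_202_s1 : ∃ t, chk3 f_A00pm_202_s1 t 2 4 1 = true :=
  ⟨(b (l 1) (l 6)), by decide +kernel⟩

def k1_A00pm_202_s1 : ∃ t, chk3 f_A00pm_202_s1 t 3 8 1 = true :=
  ⟨(a (l 1) (a (b (l 1) (b (a (l 1) (l 14)) (b (a (l 1) (l 14)) (a (a (l 1) (a (l 16566520) (l 16579912))) (a (b (l 14) (l 16599184)) (l 16646792)))))) (b (l 14) (b (l 14) (b (l 14) (a (a (l 16693720) (l 16677880)) (a (l 16662224) (a (l 16675792) (a (l 16702960) (b (l 14) (l 16686648))))))))))), by decide +kernel⟩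

def k2_A00pm_202_s1 : ∃ t, chk3 f_A00pm_202_s1 t 6 9 1 = true :=
  ⟨(a (b (l 1) (l 6)) (b (a (b (l 1) (b (a (l 1) (l 16464008)) (a (l 16440872) (l 16463344)))) (b (b (l 1) (a (l 16489424) (l 16514888))) (a (b (l 16488040) (l 16486760)) (l 16511816)))) (b (a (a (a (l 6) (l 16446056)) (l 16462440)) (b (l 16497424) (l 16496008))) (a (l 6) (l 16577920))))), by decide +kernel⟩

def k3_A00pm_202_s1 : ∃ t, chk3 f_A00pm_202_s1 t 7 9 1 = true :=
  ⟨(a (b (a (a (b (b (a (l 16537088) (l 16550496)) (l 16540888)) (l 16536752)) (b (b (l 16570360) (l 16566656)) (l 16561464))) (b (a (b (l 16596248) (l 16591800)) (b (l 16621680) (l 16616488))) (a (l 16585560) (l 16609200)))) (a (b (a (l 16531824) (l 16555232)) (a (l 16527464) (l 16549704))) (b (a (l 16578040) (l 16600392)) (a (l 16571344) (l 16550552))))) (a (b (b (a (b (l 16647024) (l 16641064)) (b (l 16672472) (l 16665728))) (a (l 16632704) (l 16656248)))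 (b (a (l 16580632) (l 16644720)) (a (a (l 16608232) (l 16618728)) (l 16634624)))) (b (a (b (b (l 16653840) (l 16688560)) (a (l 16673928) (l 16653416))) (b (a (b (l 16687808) (l 16680432)) (b (a (l 16683392) (c (l 16681432) (l 16679120))) (a (l 16675936) (c (l 16674560) (l 16670936))))) (a (b (l 16672648) (l 16643512)) (a (b (l 16647104) (l 16638800)) (b (c (l 16667216) (l 16662384)) (c (l 16659352) (l 16653424))))))) (a (b (b (l 16622744) (l 16614008)) (b (l 16604888) (l 16595232))) (a (b (b (l 16634912) (a (l 16648408) (l 16645120))) (b (a (l 16638864) (l 16635408)) (c (l 16630368) (l 16623368)))) (b (a (b (b (l 16653240) (l 16648712)) (c (l 16644984) (l 16638152))) (b (c (l 16650888) (l 16633512)) (c (l 16641800) (b (l 16636624) (l 16631552))))) (a (b (c (l 16635472) (l 16627888)) (c (l 16625328) (l 16617112))) (b (c (l 16621616) (b (l 16626344) (l 16621000))) (b (b (l 16621440) (l 16618744))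 (b (l 16616008) (l 16613240))))))))))), by decide +kernel⟩

def k4_A00pm_202_s1 : ∃ t, chk3 f_A00pm_202_s1 t 2 5 1 = true :=
  ⟨(l 6), by decide +kernel⟩

def k5_A00pm_202_s1 : ∃ t, chk3 f_A00pm_202_s1 t 6 5 1 = true :=
  ⟨(b (a (l 6) (b (b (a (l 6) (l 16554672)) (l 6)) (l 6))) (l 6)), by decide +kernel⟩

def k6_A00pm_202_s1 : ∃ t, chk3 f_A00pm_202_s1 t 7 10 1 = true :=
  ⟨(a (b (b (a (a (l 16523664) (l 16544832)) (a (l 16565480) (l 16543808))) (a (a (b (l 16521224) (l 6)) (b (l 16541792) (b (l 16540640) (l 16540400)))) (a (b (l 16561864) (b (l 16560592) (l 16518408))) (b (l 16581688) (b (l 16580304) (l 16538112)))))) (a (a (l 6) (l 6)) (a (l 16557704) (l 16576728)))) (b (b (a (a (l 16605896) (b (l 16628064) (l 16624408))) (a (a (l 16604040) (b (l 16581632) (l 16570656))) (a (b (a (l 16618128) (l 16614296)) (a (l 16606840) (l 16602784))) (a (b (c (l 16614512) (l 16605808)) (c (l 16602936) (l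 16593912))) (b (b (c (l 16613552) (l 16604168)) (c (l 16607840) (l 16598280))) (c (b (l 16601936) (l 16595816)) (a (l 16590336) (l 16593144)))))))) (a (b (a (l 16601496) (l 16618592)) (b (a (l 16600008) (l 16609992)) (a (l 16599776) (b (l 16605136) (l 16601560))))) (b (a (a (l 16608416) (l 16621824)) (a (a (l 16594736) (l 16611416)) (b (c (l 16591600) (l 16582088)) (c (l 16585008) (l 16575480))))) (b (a (l 16553440) (a (l 16582696) (a (l 16575744) (a (l 16572112) (l 16590584))))) (a (b (l 16590096) (l 16544272)) (b (a (l 16577072) (a (l 16569936) (l 16564944))) (a (l 16572952) (a (l 16565696) (b (l 16582400) (l 16559352)))))))))) (a (a (b (l 16597776) (l 16581336)) (b (l 16588640) (l 16566240))) (b (a (c (l 16533608) (l 16569320)) (a (l 16600600) (b (l 16554856) (l 16542240)))) (a (l 16590664) (a (l 16534136) (b (l 16529808) (l 16517536)))))))), by decide +kernel⟩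

def k7_A00pm_202_s1 : ∃ t, chk3 f_A00pm_202_s1 t 7 11 1 = true :=
  ⟨(a (l 6) (b (b (a (a (l 16559832) (l 16543608)) (a (l 16567328) (a (l 16510272) (b (l 16505440) (l 16493544))))) (a (l 6) (a (l 16544672) (a (l 16487176) (a (l 16499904) (b (l 16479024) (l 16467536))))))) (a (l 6) (a (l 6) (a (l 6) (b (b (a (l 6) (l 16456312)) (l 6)) (l 6))))))), by decide +kernel⟩

def k8_A00pm_202_s1 : ∃ t, chk3 f_A00pm_202_s1 t 1 3 1 = true :=
  ⟨(a (l 6) (l 6)), by decide +kernel⟩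

theorem t9_A00pm_202_s1 : ∃ t, chk3 f_A00pm_202_s1 t 7 5 1 = true := ex3_b k6_A00pm_202_s1 k7_A00pm_202_s1

theorem t10_A00pm_202_s1 : ∃ t, chk3 f_A00pm_202_s1 t 3 5 1 = true := ex3_a k5_A00pm_202_s1 t9_A00pm_202_s1

theorem t11_A00pm_202_s1 : ∃ t, chk3 f_A00pm_202_s1 t 1 5 1 = true := ex3_a k4_A00pm_202_s1 t10_A00pm_202_s1

theorem t12_A00pm_202_s1 : ∃ t, chk3 f_A00pm_202_s1 t 3 9 1 = true := ex3_a k2_A00pm_202_s1 k3_A00pm_202_s1

theorem t13_A00pm_202_s1 : ∃ t, chk3 f_A00pm_202_s1 t 3 4 1 = true := ex3_b k1_A00pm_202_s1 t12_A00pm_202_s1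

theorem t14_A00pm_202_s1 : ∃ t, chk3 f_A00pm_202_s1 t 1 4 1 = true := ex3_a k0_A00pm_202_s1 t13_A00pm_202_s1

theorem t15_A00pm_202_s1 : ∃ t, chk3 f_A00pm_202_s1 t 1 2 1 = true := ex3_b t14_A00pm_202_s1 t11_A00pm_202_s1

theorem t16_A00pm_202_s1 : ∃ t, chk3 f_A00pm_202_s1 t 1 1 1 = true := ex3_b t15_A00pm_202_s1 k8_A00pm_202_s1

theorem c_A00pm_202_s1 : CertF 0 536870912 0 536870912 818728140 40265320 true true false .pp 2 0 2
    ndB0q2 ndB0q0 pcB2 cut_A00pm_202_s1 Ext.none :=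
  certF1 (fam := true) (s1 := true) (s2 := false) (a := 2) (b := 0) (c := 2) (cn := .pp) (n1 := ndB0q2) (n2 := ndB0q0) (pc := pcB2) (cut := cut_A00pm_202_s1) (xt := Ext.none) (P1 := 0) (W1 := 536870912) (P2 := 0) (W2 := 536870912) (P3 := 818728140) (W3 := 40265320)
    rfl (fun _ => rfl) t16_A00pm_202_s1

theorem s_A00pm_202_s1 {κ x : ℝ} (hκ : κ * h0 = ken x) (hx : ((818728140 : ℕ) : ℝ) / S ≤ x)
    (hx' : x ≤ (((818728140 : ℕ) : ℝ) + (40265320 : ℕ)) / S)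
    (H : CutA (VFD κ) PP tK tL pcB (Cut.of [[⟨0, 1, 0, 67108864⟩, ⟨1, 0, 0, 67108864⟩, ⟨2, 1, 0, 67108864⟩]]) 2 0 2 0 0 (sgb true) (sgb false) x) :
    AltA (VFD κ) PP tK tL pcB [⟨3, 0, 0, 1449551462⟩] 2 0 2 0 0 (sgb true) (sgb false) x :=
  strip_altAD (m := 1449551462) true rfl hκ (SH.κ0 hκ (SH.hx1 hx).le (SH.hx2 hx').le) (SH.hx1 hx).le (SH.hx2 hx') (covB02).cov (covB00).cov hx hx' c_A00pm_202_s1 H (noExt_A)

noncomputable def cut_A00pm_202_s3 : Cut := Cut.of [[⟨3, 0, 0, 2845415833⟩], [⟨0, 1, 0, 67108864⟩, ⟨1, 0, 0, 67108864⟩, ⟨2, 1, 0, 67108864⟩]]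

noncomputable def f_A00pm_202_s3 : ℕ → ℕ → ℕ → ℕ → Bool := onCell 0 536870912 1073741824 536870912 818728140 40265320
    (rowF 1 true true false .pp 2 0 2 (qsf 0 536870912 0 536870912 2) ndB0q2 ndB0q0 pcB2 cut_A00pm_202_s3 Ext.none)

def k0_A00pm_202_s3 : ∃ t, chk3 f_A00pm_202_s3 t 1 1 1 = true :=
  ⟨(b (l 6) (a (l 6) (l 6))), by decide +kernel⟩

theorem c_A00pm_202_s3 : CertF 0 536870912 0 536870912 818728140 40265320 true true false .pp 2 0 2
    ndB0q2 ndB0q0 pcB2 cut_A00pm_202_s3 Ext.none :=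
  certF1 (fam := true) (s1 := true) (s2 := false) (a := 2) (b := 0) (c := 2) (cn := .pp) (n1 := ndB0q2) (n2 := ndB0q0) (pc := pcB2) (cut := cut_A00pm_202_s3) (xt := Ext.none) (P1 := 0) (W1 := 536870912) (P2 := 0) (W2 := 536870912) (P3 := 818728140) (W3 := 40265320)
    rfl (fun _ => rfl) k0_A00pm_202_s3

theorem s_A00pm_202_s3 {κ x : ℝ} (hκ : κ * h0 = ken x) (hx : ((818728140 : ℕ) : ℝ) / S ≤ x)
    (hx' : x ≤ (((818728140 : ℕ) : ℝ) + (40265320 : ℕ)) / S)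
    (H : CutA (VFD κ) PP tK tL pcB (Cut.of [[⟨0, 1, 0, 67108864⟩, ⟨1, 0, 0, 67108864⟩, ⟨2, 1, 0, 67108864⟩]]) 2 0 2 0 0 (sgb true) (sgb false) x) :
    AltA (VFD κ) PP tK tL pcB [⟨4, 0, 0, 2845415833⟩] 2 0 2 0 0 (sgb true) (sgb false) x :=
  strip_altAD (m := 2845415833) false rfl hκ (SH.κ0 hκ (SH.hx1 hx).le (SH.hx2 hx').le) (SH.hx1 hx).le (SH.hx2 hx') (covB02).cov (covB00).cov hx hx' c_A00pm_202_s3 H (noExt_A)

noncomputable def cut_A00pm_203_s1 : Cut := Cut.of [[⟨4, 0, 0, 1449551462⟩]]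

noncomputable def f_A00pm_203_s1 : ℕ → ℕ → ℕ → ℕ → Bool := onCell 0 536870912 1610612736 536870912 818728140 40265320
    (rowF 1 true true false .up 2 0 3 (qsf 0 536870912 0 536870912 3) ndB0q2 ndB0q0 pcB3 cut_A00pm_203_s1 Ext.none)

def k0_A00pm_203_s1 : ∃ t, chk3 f_A00pm_203_s1 t 1 1 1 = true :=
  ⟨(l 6), by decide +kernel⟩

theorem c_A00pm_203_s1 : CertF 0 536870912 0 536870912 818728140 40265320 true true false .up 2 0 3
    ndB0q2 ndB0q0 pcB3 cut_A00pm_203_s1 Ext.none :=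
  certF1 (fam := true) (s1 := true) (s2 := false) (a := 2) (b := 0) (c := 3) (cn := .up) (n1 := ndB0q2) (n2 := ndB0q0) (pc := pcB3) (cut := cut_A00pm_203_s1) (xt := Ext.none) (P1 := 0) (W1 := 536870912) (P2 := 0) (W2 := 536870912) (P3 := 818728140) (W3 := 40265320)
    rfl (fun _ => rfl) k0_A00pm_203_s1

theorem s_A00pm_203_s1 {κ x : ℝ} (hκ : κ * h0 = ken x) (hx : ((818728140 : ℕ) : ℝ) / S ≤ x)
    (hx' : x ≤ (((818728140 : ℕ) : ℝ) + (40265320 : ℕ)) / S) :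
    AltA (VFD κ) PP tK tL pcB [⟨3, 0, 0, 1449551462⟩] 2 0 3 0 0 (sgb true) (sgb false) x :=
  strip_altAD (m := 1449551462) true rfl hκ (SH.κ0 hκ (SH.hx1 hx).le (SH.hx2 hx').le) (SH.hx1 hx).le (SH.hx2 hx') (covB02).cov (covB00).cov hx hx' c_A00pm_203_s1 cutA_nil (noExt_A)

noncomputable def cut_A00pm_203_s3 : Cut := Cut.of [[⟨3, 0, 0, 2845415833⟩]]

noncomputable def f_A00pm_203_s3 : ℕ → ℕ → ℕ → ℕ → Bool := onCell 0 536870912 0 536870912 818728140 40265320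
    (rowF 0 true true false .up 2 0 3 (qsf 0 536870912 0 536870912 3) ndB0q2 ndB0q0 pcB3 cut_A00pm_203_s3 Ext.none)

def k0_A00pm_203_s3 : ∃ t, chk3 f_A00pm_203_s3 t 1 1 1 = true :=
  ⟨(a (b (l 1) (b (a (b (l 1) (a (b (l 1) (l 16463232)) (l 6))) (l 6)) (a (b (a (b (l 16621136) (l 16647928)) (l 6)) (a (b (l 16735296) (a (l 16706200) (l 16687920))) (b (l 16631160) (l 16654512)))) (b (l 6) (l 6))))) (l 6)), by decide +kernel⟩

theorem c_A00pm_203_s3 : CertF 0 536870912 0 536870912 818728140 40265320 true true false .up 2 0 3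
    ndB0q2 ndB0q0 pcB3 cut_A00pm_203_s3 Ext.none :=
  certF0 (fam := true) (s1 := true) (s2 := false) (a := 2) (b := 0) (c := 3) (cn := .up) (n1 := ndB0q2) (n2 := ndB0q0) (pc := pcB3) (cut := cut_A00pm_203_s3) (xt := Ext.none) (P1 := 0) (W1 := 536870912) (P2 := 0) (W2 := 536870912) (P3 := 818728140) (W3 := 40265320)
    rfl k0_A00pm_203_s3

theorem s_A00pm_203_s3 {κ x : ℝ} (hκ : κ * h0 = ken x) (hx : ((818728140 : ℕ) : ℝ) / S ≤ x)
    (hx' : x ≤ (((818728140 : ℕ) : ℝ) + (40265320 : ℕ)) / S) :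
    AltA (VFD κ) PP tK tL pcB [⟨4, 0, 0, 2845415833⟩] 2 0 3 0 0 (sgb true) (sgb false) x :=
  strip_altAD (m := 2845415833) false rfl hκ (SH.κ0 hκ (SH.hx1 hx).le (SH.hx2 hx').le) (SH.hx1 hx).le (SH.hx2 hx') (covB02).cov (covB00).cov hx hx' c_A00pm_203_s3 cutA_nil (noExt_A)

noncomputable def cut_A00pm_213_s1 : Cut := Cut.of [[⟨4, 0, 0, 1449551462⟩], [⟨0, 1, 0, 67108864⟩, ⟨1, 1, 0, 67108864⟩, ⟨2, 2, 0, 16777216⟩], [⟨0, 1, 0, 33554432⟩, ⟨1, 0, 1, 26214400⟩, ⟨2, 1, 1, 26214400⟩]]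

noncomputable def f_A00pm_213_s1 : ℕ → ℕ → ℕ → ℕ → Bool := onCell 0 536870912 536870912 536870912 818728140 40265320
    (rowF 0 true true false .pnn 2 1 3 (qsf 0 536870912 536870912 536870912 3) ndB0q2 ndB0q1 pcB3 cut_A00pm_213_s1 Ext.none)

def k0_A00pm_213_s1 : ∃ t, chk3 f_A00pm_213_s1 t 1 1 1 = true :=
  ⟨(l 6), by decide +kernel⟩

theorem c_A00pm_213_s1 : CertF 0 536870912 536870912 536870912 818728140 40265320 true true false .pnn 2 1 3
    ndB0q2 ndB0q1 pcB3 cut_A00pm_213_s1 Ext.none :=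
  certF0 (fam := true) (s1 := true) (s2 := false) (a := 2) (b := 1) (c := 3) (cn := .pnn) (n1 := ndB0q2) (n2 := ndB0q1) (pc := pcB3) (cut := cut_A00pm_213_s1) (xt := Ext.none) (P1 := 0) (W1 := 536870912) (P2 := 536870912) (W2 := 536870912) (P3 := 818728140) (W3 := 40265320)
    rfl k0_A00pm_213_s1

theorem s_A00pm_213_s1 {κ x : ℝ} (hκ : κ * h0 = ken x) (hx : ((818728140 : ℕ) : ℝ) / S ≤ x)
    (hx' : x ≤ (((818728140 : ℕ) : ℝ) + (40265320 : ℕ)) / S)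
    (H : CutA (VFD κ) PP tK tL pcB (Cut.of [[⟨0, 1, 0, 67108864⟩, ⟨1, 1, 0, 67108864⟩, ⟨2, 2, 0, 16777216⟩], [⟨0, 1, 0, 33554432⟩, ⟨1, 0, 1, 26214400⟩, ⟨2, 1, 1, 26214400⟩]]) 2 1 3 0 0 (sgb true) (sgb false) x) :
    AltA (VFD κ) PP tK tL pcB [⟨3, 0, 0, 1449551462⟩] 2 1 3 0 0 (sgb true) (sgb false) x :=
  strip_altAD (m := 1449551462) true rfl hκ (SH.κ0 hκ (SH.hx1 hx).le (SH.hx2 hx').le) (SH.hx1 hx).le (SH.hx2 hx') (covB02).cov (covB01).cov hx hx' c_A00pm_213_s1 H (noExt_A)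

end Pool.Agent.Strip051.G.I7625_8000.Tab.St.C
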